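import Mathlib
import Pool.Agent.Work.MP_122e00_nt.Count

/-! Bundle of small proof modules (one section per former module). -/

section

/-!
The divisor bound, in the form `d(k)^J ≤ C k`, and the summability it gives.
-/

namespace Pool.Agent.Work.MP_122e00_nt

open Finset

theorem exists_pow_le_two_pow (J : ℕ) : ∃ c : ℕ, 1 ≤ c ∧ ∀ e : ℕ, (e + 1) ^ J ≤ c * 2 ^ e := by
  have h : Filter.Tendsto (fun n : ℕ => ((n : ℝ) ^ J / 2 ^ n)) Filter.atTop (nhds 0) :=
    tendsto_pow_const_div_const_pow_of_one_lt J (by norm_num)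
  obtain ⟨B, hB⟩ := h.bddAbove_range
  refine ⟨⌈2 * B⌉₊ + 1, by omega, fun e => ?_⟩
  have h1 : ((e + 1 : ℕ) : ℝ) ^ J / 2 ^ (e + 1) ≤ B := hB ⟨e + 1, rfl⟩
  rw [div_le_iff₀ (by positivity)] at h1
  have h2 : (2 * B : ℝ) ≤ ⌈2 * B⌉₊ := Nat.le_ceil _
  have h3 : (((e + 1) ^ J : ℕ) : ℝ) ≤ (((⌈2 * B⌉₊ + 1) * 2 ^ e : ℕ) : ℝ) := by
    push_cast
    push_cast at h1
    calc ((e : ℝ) + 1) ^ J ≤ B * 2 ^ (e + 1) := h1
      _ = (2 * B) * 2 ^ e := by ring
      _ ≤ (⌈2 * B⌉₊ + 1) * 2 ^ e := by gcongr; linarith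
  exact_mod_cast h3

theorem card_divisors_pow_le (J : ℕ) : ∃ C : ℕ, 1 ≤ C ∧ ∀ k : ℕ, k ≠ 0 →
    (k.divisors.card) ^ J ≤ C * k := by
  obtain ⟨c, hc1, hc⟩ := exists_pow_le_two_pow J
  refine ⟨c ^ (2 ^ J), Nat.one_le_pow _ _ hc1, fun k hk => ?_⟩
  rw [Nat.card_divisors hk, ← Finset.prod_pow]
  have hstep : ∏ p ∈ k.primeFactors, (k.factorization p + 1) ^ J ≤
      ∏ p ∈ k.primeFactors, ((if p < 2 ^ J then c else 1) * p ^ (k.factorization p)) := by
    apply Finset.prod_le_prod'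
    intro p hp
    have hp2 := (Nat.prime_of_mem_primeFactors hp).two_le
    split_ifs with h
    · exact (hc _).trans (Nat.mul_le_mul_left _ (Nat.pow_le_pow_left hp2 _))
    · rw [one_mul]
      have h1 : k.factorization p + 1 ≤ 2 ^ (k.factorization p) := Nat.lt_two_pow_self
      calc (k.factorization p + 1) ^ J ≤ (2 ^ (k.factorization p)) ^ J := Nat.pow_le_pow_left h1 _
        _ = (2 ^ J) ^ (k.factorization p) := by rw [← pow_mul, ← pow_mul, mul_comm]
        _ ≤ p ^ (k.factorization p) := Nat.pow_le_pow_left (not_lt.mp h) _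
  refine hstep.trans ?_
  rw [Finset.prod_mul_distrib]
  have h2 : ∏ p ∈ k.primeFactors, p ^ k.factorization p = k :=
    Nat.prod_factorization_pow_eq_self hk
  rw [h2]
  apply Nat.mul_le_mul_right
  rw [Finset.prod_ite, Finset.prod_const, Finset.prod_const_one, mul_one]
  apply Nat.pow_le_pow_right hc1
  calc _ ≤ (Finset.range (2 ^ J)).card := by
        apply Finset.card_le_card
        intro p hp
        simp only [Finset.mem_filter] at hp
        exact Finset.mem_range.mpr hp.2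
    _ = 2 ^ J := Finset.card_range _

/-- number of `s`-tuples with product `k` -/
theorem card_finMulAntidiag_le (s k : ℕ) (hk : k ≠ 0) :
    (Nat.finMulAntidiag s k).card ≤ (k.divisors.card) ^ s := by
  calc (Nat.finMulAntidiag s k).card ≤ (Fintype.piFinset (fun _ : Fin s => k.divisors)).card := by
        apply Finset.card_le_card
        intro f hf
        rw [Fintype.mem_piFinset]
        intro i
        rw [Nat.mem_divisors]
        exact ⟨Nat.dvd_of_mem_finMulAntidiag hf i, hk⟩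
    _ = (k.divisors.card) ^ s := by simp

theorem summable_dom (s : ℕ) :
    Summable (fun k : ℕ => ((Nat.finMulAntidiag s k).card : ℝ) ^ 2 / (k : ℝ) ^ 2) := by
  obtain ⟨C, hC1, hC⟩ := card_divisors_pow_le (4 * s)
  have hs : Summable (fun k : ℕ => Real.sqrt C * (1 / (k : ℝ) ^ (3 / 2 : ℝ))) :=
    (Real.summable_one_div_nat_rpow.mpr (by norm_num)).mul_left _
  refine Summable.of_nonneg_of_le (fun k => by positivity) (fun k => ?_) hs
  rcases Nat.eq_zero_or_pos k with rfl | hk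
  · simp
  have hk' : (0 : ℝ) < k := by exact_mod_cast hk
  have h1 : ((Nat.finMulAntidiag s k).card : ℝ) ≤ ((k.divisors.card : ℝ)) ^ s := by
    exact_mod_cast card_finMulAntidiag_le s k hk.ne'
  have h2 : ((k.divisors.card : ℝ)) ^ (4 * s) ≤ C * k := by
    exact_mod_cast hC k hk.ne'
  have h3 : ((Nat.finMulAntidiag s k).card : ℝ) ^ 2 ≤ Real.sqrt (C * k) := by
    apply Real.le_sqrt_of_sq_le
    calc (((Nat.finMulAntidiag s k).card : ℝ) ^ 2) ^ 2
        ≤ ((((k.divisors.card : ℝ)) ^ s) ^ 2) ^ 2 := by gcongr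
      _ = ((k.divisors.card : ℝ)) ^ (4 * s) := by rw [← pow_mul, ← pow_mul]; ring_nf
      _ ≤ C * k := h2
  calc ((Nat.finMulAntidiag s k).card : ℝ) ^ 2 / (k : ℝ) ^ 2
      ≤ Real.sqrt (C * k) / (k : ℝ) ^ 2 := by gcongr
    _ = Real.sqrt C * (1 / (k : ℝ) ^ (3 / 2 : ℝ)) := by
        rw [Real.sqrt_mul (by positivity), mul_div_assoc]
        congr 1
        rw [Real.sqrt_eq_rpow, ← Real.rpow_natCast (k : ℝ) 2, ← Real.rpow_sub hk',
          eq_div_iff (by positivity), ← Real.rpow_add hk']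
        norm_num

end Pool.Agent.Work.MP_122e00_nt

end

section

/-!
Lower bounds for `ζ^(s+1)` by numbers of `s`-tuples.
-/

namespace Pool.Agent.Work.MP_122e00_nt

open Finset ArithmeticFunction
open scoped ArithmeticFunction.zeta

variable {s : ℕ}

/-- `s`-tuples with product dividing `n` -/
def TA (s n : ℕ) : Finset (Fin s → ℕ) :=
  (Fintype.piFinset (fun _ : Fin s => n.divisors)).filter (fun a => (∏ i, a i) ∣ n)

/-- `s`-tuples with entries `≤ Z`, product dividing `n`, cofactor `> Z` -/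
def TT1 (s Z n : ℕ) : Finset (Fin s → ℕ) :=
  (TA s n).filter (fun a => (∀ j, a j ≤ Z) ∧ Z < n / ∏ i, a i)

/-- `s`-tuples with entries `≤ Z`, product dividing `n`, cofactor `≤ Z` -/
def TT2 (s Z n : ℕ) : Finset (Fin s → ℕ) :=
  (TA s n).filter (fun a => (∀ j, a j ≤ Z) ∧ n / ∏ i, a i ≤ Z)

theorem mem_TA {n : ℕ} (hn : n ≠ 0) {a : Fin s → ℕ} (h : (∏ i, a i) ∣ n) : a ∈ TA s n := by
  unfold TA
  rw [Finset.mem_filter, Fintype.mem_piFinset]
  refine ⟨fun i => ?_, h⟩
  rw [Nat.mem_divisors]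
  exact ⟨(Finset.dvd_prod_of_mem _ (Finset.mem_univ i)).trans h, hn⟩

theorem dvd_of_mem_TA {n : ℕ} {a : Fin s → ℕ} (h : a ∈ TA s n) : (∏ i, a i) ∣ n :=
  (Finset.mem_filter.mp h).2

theorem ins_mem {n : ℕ} (hn : n ≠ 0) (i : Fin (s + 1)) {a : Fin s → ℕ} (h : a ∈ TA s n) :
    Fin.insertNth i (n / ∏ i, a i) a ∈ Nat.finMulAntidiag (s + 1) n := by
  rw [Nat.mem_finMulAntidiag, Fin.prod_univ_succAbove _ i]
  simp only [Fin.insertNth_apply_same, Fin.insertNth_apply_succAbove]
  exact ⟨Nat.div_mul_cancel (dvd_of_mem_TA h), hn⟩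

theorem card_TA_le (n : ℕ) (hn : n ≠ 0) :
    (TA s n).card ≤ ((ζ : ArithmeticFunction ℕ) ^ (s + 1)) n := by
  rw [zeta_pow_apply]
  apply Finset.card_le_card_of_injOn
    (fun a => (Fin.insertNth (0 : Fin (s + 1)) (n / ∏ i, a i) a : Fin (s + 1) → ℕ))
  · intro a ha
    exact ins_mem hn 0 ha
  · intro a _ a' _ heq
    funext j
    have := congrFun heq ((0 : Fin (s + 1)).succAbove j)
    simp only at this
    rwa [Fin.insertNth_apply_succAbove, Fin.insertNth_apply_succAbove] at this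

theorem card_TT_le (Z n : ℕ) (hn : n ≠ 0) :
    (s + 1) * (TT1 s Z n).card + (TT2 s Z n).card ≤
      ((ζ : ArithmeticFunction ℕ) ^ (s + 1)) n := by
  classical
  rw [zeta_pow_apply]
  set f : Fin (s + 1) × (Fin s → ℕ) → (Fin (s + 1) → ℕ) :=
    fun p => Fin.insertNth p.1 (n / ∏ i, p.2 i) p.2 with hf
  set g : (Fin s → ℕ) → (Fin (s + 1) → ℕ) :=
    fun a => Fin.insertNth 0 (n / ∏ i, a i) a with hg
  have hT1 : ∀ a ∈ TT1 s Z n, a ∈ TA s n ∧ (∀ j, a j ≤ Z) ∧ Z < n / ∏ i, a i := by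
    intro a ha
    exact Finset.mem_filter.mp ha
  have hT2 : ∀ a ∈ TT2 s Z n, a ∈ TA s n ∧ (∀ j, a j ≤ Z) ∧ n / ∏ i, a i ≤ Z := by
    intro a ha
    exact Finset.mem_filter.mp ha
  have hfinj : Set.InjOn f ((Finset.univ : Finset (Fin (s + 1))) ×ˢ (TT1 s Z n) :
      Finset (Fin (s + 1) × (Fin s → ℕ))) := by
    rintro ⟨i, a⟩ hp ⟨i', a'⟩ hp' heq
    rw [Finset.mem_coe, Finset.mem_product] at hp hp'
    have ha := hT1 a hp.2
    have ha' := hT1 a' hp'.2
    rw [hf] at heq
    simp only at heq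
    have hii : i = i' := by
      by_contra hne
      obtain ⟨j, hj⟩ := Fin.exists_succAbove_eq hne
      have e1 := congrFun heq i
      rw [Fin.insertNth_apply_same, ← hj, Fin.insertNth_apply_succAbove] at e1
      have l1 := ha'.2.1 j
      have l2 := ha.2.2
      omega
    subst hii
    have haa : a = a' := by
      funext j
      have := congrFun heq (i.succAbove j)
      rwa [Fin.insertNth_apply_succAbove, Fin.insertNth_apply_succAbove] at this
    rw [haa]
  have hginj : Set.InjOn g (TT2 s Z n : Finset (Fin s → ℕ)) := by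
    intro a _ a' _ heq
    funext j
    have := congrFun heq ((0 : Fin (s + 1)).succAbove j)
    rw [hg] at this
    simp only at this
    rwa [Fin.insertNth_apply_succAbove, Fin.insertNth_apply_succAbove] at this
  have hdisj : Disjoint (((Finset.univ : Finset (Fin (s + 1))) ×ˢ (TT1 s Z n)).image f)
      ((TT2 s Z n).image g) := by
    rw [Finset.disjoint_left]
    intro x hx hx'
    rw [Finset.mem_image] at hx hx'
    obtain ⟨⟨i, a⟩, hp, rfl⟩ := hx
    obtain ⟨b, hb, heq⟩ := hx'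
    rw [Finset.mem_product] at hp
    have ha := hT1 a hp.2
    have hb' := hT2 b hb
    have e1 := congrFun heq i
    rw [hf, hg] at e1
    simp only at e1
    rw [Fin.insertNth_apply_same] at e1
    have hle : (Fin.insertNth (0 : Fin (s + 1)) (n / ∏ i, b i) b : Fin (s + 1) → ℕ) i ≤ Z := by
      rcases eq_or_ne i 0 with rfl | hne
      · rw [Fin.insertNth_apply_same]
        exact hb'.2.2
      · obtain ⟨j, hj⟩ := Fin.exists_succAbove_eq hne
        rw [← hj, Fin.insertNth_apply_succAbove]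
        exact hb'.2.1 j
    have := ha.2.2
    omega
  have hsub : (((Finset.univ : Finset (Fin (s + 1))) ×ˢ (TT1 s Z n)).image f) ∪
      ((TT2 s Z n).image g) ⊆ Nat.finMulAntidiag (s + 1) n := by
    intro x hx
    rw [Finset.mem_union, Finset.mem_image, Finset.mem_image] at hx
    rcases hx with ⟨⟨i, a⟩, hp, rfl⟩ | ⟨b, hb, rfl⟩
    · rw [Finset.mem_product] at hp
      exact ins_mem hn i (hT1 a hp.2).1
    · exact ins_mem hn 0 (hT2 b hb).1
  have hcard := Finset.card_le_card hsub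
  rw [Finset.card_union_of_disjoint hdisj, Finset.card_image_of_injOn hfinj,
    Finset.card_image_of_injOn hginj, Finset.card_product, Finset.card_univ,
    Fintype.card_fin] at hcard
  exact hcard

end Pool.Agent.Work.MP_122e00_nt

end
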