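import Mathlib
import Pool.Agent.Work.MP_122e00_nt.LSAdd

/-! Bundle of small proof modules (one section per former module). -/

section

/-!
Duality and the additive large sieve.
-/

namespace Pool.Agent.Work.MP_122e00_nt

open Finset Complex

/-- Bombieri / Schur type inequality -/
theorem schur_bound {ι κ : Type*} (S : Finset ι) (R : Finset κ) (A : ι → κ → ℂ) (c : κ → ℂ)
    (K : ℝ) (hK0 : 0 ≤ K) (hK : ∀ p ∈ S, ∑ q ∈ S, ‖∑ n ∈ R, A p n * (starRingEnd ℂ) (A q n)‖ ≤ K) :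
    ∑ p ∈ S, ‖∑ n ∈ R, c n * A p n‖ ^ 2 ≤ K * ∑ n ∈ R, ‖c n‖ ^ 2 := by
  classical
  set y : ι → ℂ := fun p => ∑ n ∈ R, c n * A p n with hy
  set Y : ℝ := ∑ p ∈ S, ‖y p‖ ^ 2 with hY
  have hY0 : 0 ≤ Y := Finset.sum_nonneg (fun _ _ => by positivity)
  -- the dual form
  have hdual : ∑ n ∈ R, ‖∑ p ∈ S, (starRingEnd ℂ) (y p) * A p n‖ ^ 2 ≤ K * Y := by
    have e1 : ((∑ n ∈ R, ‖∑ p ∈ S, (starRingEnd ℂ) (y p) * A p n‖ ^ 2 : ℝ) : ℂ) =
        ∑ p ∈ S, ∑ q ∈ S, (starRingEnd ℂ) (y p) * y q *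
          ∑ n ∈ R, A p n * (starRingEnd ℂ) (A q n) := by
      push_cast
      have e2 : ∀ n ∈ R, ((‖∑ p ∈ S, (starRingEnd ℂ) (y p) * A p n‖ : ℂ)) ^ 2 =
          ∑ p ∈ S, ∑ q ∈ S, (starRingEnd ℂ) (y p) * y q * (A p n * (starRingEnd ℂ) (A q n)) := by
        intro n _
        rw [← Complex.mul_conj', map_sum, Finset.sum_mul_sum]
        apply Finset.sum_congr rfl
        intro p _
        apply Finset.sum_congr rfl
        intro q _
        rw [map_mul, Complex.conj_conj]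
        ring
      rw [Finset.sum_congr rfl e2, Finset.sum_comm]
      apply Finset.sum_congr rfl
      intro p _
      rw [Finset.sum_comm]
      apply Finset.sum_congr rfl
      intro q _
      exact (Finset.mul_sum _ _ _).symm
    have e3 : ∑ n ∈ R, ‖∑ p ∈ S, (starRingEnd ℂ) (y p) * A p n‖ ^ 2 ≤
        ∑ p ∈ S, ∑ q ∈ S, ‖y p‖ * ‖y q‖ * ‖∑ n ∈ R, A p n * (starRingEnd ℂ) (A q n)‖ := by
      have h0 : 0 ≤ ∑ n ∈ R, ‖∑ p ∈ S, (starRingEnd ℂ) (y p) * A p n‖ ^ 2 :=
        Finset.sum_nonneg (fun _ _ => by positivity)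
      calc _ = ‖((∑ n ∈ R, ‖∑ p ∈ S, (starRingEnd ℂ) (y p) * A p n‖ ^ 2 : ℝ) : ℂ)‖ := by
            rw [Complex.norm_real, Real.norm_of_nonneg h0]
        _ ≤ _ := by
            rw [e1]
            refine (norm_sum_le _ _).trans ?_
            apply Finset.sum_le_sum
            intro p _
            refine (norm_sum_le _ _).trans ?_
            apply Finset.sum_le_sum
            intro q _
            rw [norm_mul, norm_mul, RCLike.norm_conj]
    refine e3.trans ?_
    have hsymm : ∀ p q, ‖∑ n ∈ R, A p n * (starRingEnd ℂ) (A q n)‖ =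
        ‖∑ n ∈ R, A q n * (starRingEnd ℂ) (A p n)‖ := by
      intro p q
      rw [← RCLike.norm_conj (∑ n ∈ R, A p n * (starRingEnd ℂ) (A q n)), map_sum]
      congr 1
      apply Finset.sum_congr rfl
      intro n _
      rw [map_mul, Complex.conj_conj]
      ring
    have e4 : ∀ p q, ‖y p‖ * ‖y q‖ * ‖∑ n ∈ R, A p n * (starRingEnd ℂ) (A q n)‖ ≤
        (1 / 2) * (‖y p‖ ^ 2 * ‖∑ n ∈ R, A p n * (starRingEnd ℂ) (A q n)‖) +
        (1 / 2) * (‖y q‖ ^ 2 * ‖∑ n ∈ R, A q n * (starRingEnd ℂ) (A p n)‖) := by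
      intro p q
      rw [← hsymm p q]
      have h1 : ‖y p‖ * ‖y q‖ ≤ (1 / 2) * ‖y p‖ ^ 2 + (1 / 2) * ‖y q‖ ^ 2 := by
        nlinarith [sq_nonneg (‖y p‖ - ‖y q‖)]
      nlinarith [norm_nonneg (∑ n ∈ R, A p n * (starRingEnd ℂ) (A q n))]
    calc ∑ p ∈ S, ∑ q ∈ S, ‖y p‖ * ‖y q‖ * ‖∑ n ∈ R, A p n * (starRingEnd ℂ) (A q n)‖
        ≤ ∑ p ∈ S, ∑ q ∈ S, ((1 / 2) * (‖y p‖ ^ 2 * ‖∑ n ∈ R, A p n * (starRingEnd ℂ) (A q n)‖) +
        (1 / 2) * (‖y q‖ ^ 2 * ‖∑ n ∈ R, A q n * (starRingEnd ℂ) (A p n)‖)) :=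
          Finset.sum_le_sum (fun p _ => Finset.sum_le_sum (fun q _ => e4 p q))
      _ = ∑ p ∈ S, ‖y p‖ ^ 2 * ∑ q ∈ S, ‖∑ n ∈ R, A p n * (starRingEnd ℂ) (A q n)‖ := by
          simp_rw [Finset.sum_add_distrib, Finset.mul_sum]
          rw [Finset.sum_comm (f := fun p q => 1 / 2 *
            (‖y q‖ ^ 2 * ‖∑ n ∈ R, A q n * (starRingEnd ℂ) (A p n)‖)), ← Finset.sum_add_distrib]
          apply Finset.sum_congr rfl
          intro p _
          rw [← Finset.sum_add_distrib]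
          apply Finset.sum_congr rfl
          intro q _
          ring
      _ ≤ ∑ p ∈ S, ‖y p‖ ^ 2 * K := by
          apply Finset.sum_le_sum
          intro p hp
          exact mul_le_mul_of_nonneg_left (hK p hp) (by positivity)
      _ = K * Y := by rw [← Finset.sum_mul, mul_comm]
  -- conclude
  have hmain : Y ≤ ∑ n ∈ R, ‖c n‖ * ‖∑ p ∈ S, (starRingEnd ℂ) (y p) * A p n‖ := by
    have e1 : (Y : ℂ) = ∑ n ∈ R, c n * ∑ p ∈ S, (starRingEnd ℂ) (y p) * A p n := by
      rw [hY]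
      push_cast
      have e2 : ∀ p ∈ S, ((‖y p‖ : ℂ)) ^ 2 = ∑ n ∈ R, c n * ((starRingEnd ℂ) (y p) * A p n) := by
        intro p _
        rw [← Complex.mul_conj', hy]
        simp only
        rw [Finset.sum_mul]
        apply Finset.sum_congr rfl
        intro n _
        ring
      rw [Finset.sum_congr rfl e2, Finset.sum_comm]
      apply Finset.sum_congr rfl
      intro n _
      rw [Finset.mul_sum]
    calc Y = ‖(Y : ℂ)‖ := by rw [Complex.norm_real, Real.norm_of_nonneg hY0]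
      _ ≤ _ := by
        rw [e1]
        refine (norm_sum_le _ _).trans ?_
        apply Finset.sum_le_sum
        intro n _
        rw [norm_mul]
  have hcs := Finset.sum_mul_sq_le_sq_mul_sq R (fun n => ‖c n‖)
    (fun n => ‖∑ p ∈ S, (starRingEnd ℂ) (y p) * A p n‖)
  have hC0 : 0 ≤ ∑ n ∈ R, ‖c n‖ ^ 2 := Finset.sum_nonneg (fun _ _ => by positivity)
  have h5 : Y * Y ≤ (∑ n ∈ R, ‖c n‖ ^ 2) * (K * Y) := by
    calc Y * Y = Y ^ 2 := by ring
      _ ≤ (∑ n ∈ R, ‖c n‖ * ‖∑ p ∈ S, (starRingEnd ℂ) (y p) * A p n‖) ^ 2 := by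
        apply pow_le_pow_left₀ hY0 hmain
      _ ≤ _ := hcs
      _ ≤ _ := mul_le_mul_of_nonneg_left hdual hC0
  rcases eq_or_lt_of_le hY0 with h0 | h0
  · rw [← h0]
    positivity
  · have h6 : Y * Y ≤ (K * ∑ n ∈ R, ‖c n‖ ^ 2) * Y := by linarith
    exact le_of_mul_le_mul_right h6 h0

end Pool.Agent.Work.MP_122e00_nt

end

section

/-!
The additive large sieve for Farey fractions.
-/

namespace Pool.Agent.Work.MP_122e00_nt

open Finset Complex

theorem additive_ls {ι : Type*} [DecidableEq ι] (S : Finset ι) (θ : ι → ℝ) (D : ℕ) (hD : 0 < D)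
    (h01 : ∀ p ∈ S, 0 ≤ θ p ∧ θ p < 1)
    (hsp : ∀ p ∈ S, ∀ q ∈ S, p ≠ q →
      1 / (D : ℝ) ≤ |θ p - θ q| ∧ |θ p - θ q| ≤ 1 - 1 / (D : ℝ))
    (N : ℕ) (c : ℕ → ℂ) :
    ∑ p ∈ S, ‖∑ n ∈ Finset.range N, c n * ee (n * θ p)‖ ^ 2 ≤
      (N + D * (harmonic D : ℝ)) * ∑ n ∈ Finset.range N, ‖c n‖ ^ 2 := by
  have hD' : (0 : ℝ) < D := by exact_mod_cast hD
  have hH : (0 : ℝ) ≤ (harmonic D : ℝ) := by
    rw [harmonic_eq_sum_Icc]
    push_cast
    exact Finset.sum_nonneg (fun _ _ => by positivity)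
  apply schur_bound S (Finset.range N) (fun p n => ee (n * θ p)) c
  · positivity
  intro p hp
  rw [← Finset.add_sum_erase S _ hp]
  apply add_le_add
  · refine (norm_sum_le _ _).trans ?_
    have : ∀ n ∈ Finset.range N, ‖ee (n * θ p) * (starRingEnd ℂ) (ee (n * θ p))‖ = 1 := by
      intro n _
      rw [norm_mul, RCLike.norm_conj, norm_ee, one_mul]
    rw [Finset.sum_congr rfl this]
    simp
  · set t : ι → ℝ := fun q => if θ q < θ p then θ p - θ q else θ p - θ q + 1 with ht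
    have hmem : ∀ q ∈ S.erase p, q ∈ S ∧ q ≠ p := fun q hq =>
      ⟨Finset.mem_of_mem_erase hq, Finset.ne_of_mem_erase hq⟩
    have hlow : ∀ q ∈ S.erase p, 1 / (D : ℝ) ≤ t q ∧ t q ≤ 1 - 1 / (D : ℝ) := by
      intro q hq
      obtain ⟨hqS, hqp⟩ := hmem q hq
      obtain ⟨h1, h2⟩ := hsp p hp q hqS (Ne.symm hqp)
      simp only [ht]
      split_ifs with hlt
      · rw [abs_of_pos (by linarith)] at h1 h2
        exact ⟨h1, h2⟩
      · rw [abs_of_nonpos (by linarith)] at h1 h2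
        constructor <;> linarith
    have hDpos : 0 < 1 / (D : ℝ) := by positivity
    have hterm : ∀ q ∈ S.erase p,
        ‖∑ n ∈ Finset.range N, ee (n * θ p) * (starRingEnd ℂ) (ee (n * θ q))‖ ≤
          (1 / 2) * (1 / t q) + (1 / 2) * (1 / (1 - t q)) := by
      intro q hq
      have e1 : ∀ n ∈ Finset.range N, ee (n * θ p) * (starRingEnd ℂ) (ee (n * θ q)) =
          ee (n * t q) := by
        intro n _
        rw [← ee_neg, ← ee_add]
        simp only [ht]
        split_ifs with hlt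
        · congr 1
          ring
        · have : (n : ℝ) * (θ p - θ q + 1) = (n * θ p + -(n * θ q)) + ((n : ℤ) : ℝ) := by
            push_cast; ring
          rw [this, ee_one_period]
      rw [Finset.sum_congr rfl e1]
      have h1 := hlow q hq
      refine (geom_bound (t := t q) (by linarith [h1.1]) (by linarith [h1.2]) N).trans ?_
      apply le_of_eq
      rw [one_div_mul_one_div, one_div_mul_one_div]
    have hspt : ∀ q ∈ S.erase p, ∀ q' ∈ S.erase p, q ≠ q' → 1 / (D : ℝ) ≤ |t q - t q'| := by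
      intro q hq q' hq' hne
      obtain ⟨h1, h2⟩ := hsp q (hmem q hq).1 q' (hmem q' hq').1 hne
      simp only [ht]
      split_ifs with ha hb hb
      · rw [show θ p - θ q - (θ p - θ q') = -(θ q - θ q') by ring, abs_neg]
        exact h1
      · have hlt : θ q < θ q' := by linarith
        rw [abs_of_neg (by linarith)] at h2
        rw [show θ p - θ q - (θ p - θ q' + 1) = -(1 + (θ q - θ q')) by ring, abs_neg,
          abs_of_nonneg (by linarith)]
        linarith
      · have hlt : θ q' < θ q := by linarith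
        rw [abs_of_pos (by linarith)] at h2
        rw [show θ p - θ q + 1 - (θ p - θ q') = 1 - (θ q - θ q') by ring,
          abs_of_nonneg (by linarith)]
        linarith
      · rw [show θ p - θ q + 1 - (θ p - θ q' + 1) = -(θ q - θ q') by ring, abs_neg]
        exact h1
    have hs1 := sum_inv_spaced (S.erase p) t D hD (fun q hq => (hlow q hq).1)
      (fun q hq => by linarith [(hlow q hq).2]) hspt
    have hs2 := sum_inv_spaced (S.erase p) (fun q => 1 - t q) D hD
      (fun q hq => by linarith [(hlow q hq).2]) (fun q hq => by linarith [(hlow q hq).1])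
      (fun q hq q' hq' hne => by
        have := hspt q hq q' hq' hne
        rw [show 1 - t q - (1 - t q') = -(t q - t q') by ring, abs_neg]
        exact this)
    calc _ ≤ ∑ q ∈ S.erase p, ((1 / 2) * (1 / t q) + (1 / 2) * (1 / (1 - t q))) :=
          Finset.sum_le_sum hterm
      _ = (1 / 2) * ∑ q ∈ S.erase p, 1 / t q + (1 / 2) * ∑ q ∈ S.erase p, 1 / (1 - t q) := by
          rw [Finset.sum_add_distrib, Finset.mul_sum, Finset.mul_sum]
      _ ≤ D * (harmonic D : ℝ) := by linarith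

/-- reduced fractions `j / f` in `[0,1)` with denominator at most `F` -/
def farey (F : ℕ) : Finset ((_ : ℕ) × ℕ) :=
  (Finset.Icc 1 F).sigma (fun f => (Finset.range f).filter (fun j => Nat.Coprime j f))

theorem farey_ls (F : ℕ) (hF : 0 < F) (N : ℕ) (c : ℕ → ℂ) :
    ∑ f ∈ Finset.Icc 1 F, ∑ j ∈ (Finset.range f).filter (fun j => Nat.Coprime j f),
      ‖∑ n ∈ Finset.range N, c n * ee (n * ((j : ℝ) / f))‖ ^ 2 ≤
      (N + (F ^ 2 : ℕ) * (harmonic (F ^ 2) : ℝ)) * ∑ n ∈ Finset.range N, ‖c n‖ ^ 2 := by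
  have h := additive_ls (farey F) (fun p => (p.2 : ℝ) / p.1) (F ^ 2) (by positivity) ?_ ?_ N c
  · unfold farey at h
    rw [Finset.sum_sigma] at h
    exact h
  · rintro ⟨f, j⟩ hp
    simp only [farey, Finset.mem_sigma, Finset.mem_Icc, Finset.mem_filter, Finset.mem_range] at hp
    have hf : (0 : ℝ) < f := by exact_mod_cast hp.1.1
    refine ⟨by positivity, ?_⟩
    rw [div_lt_one hf]
    exact_mod_cast hp.2.1
  · rintro ⟨f, j⟩ hp ⟨f', j'⟩ hp' hne
    simp only [farey, Finset.mem_sigma, Finset.mem_Icc, Finset.mem_filter, Finset.mem_range] at hp hp'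
    have hf0 : 0 < f := hp.1.1
    have hf0' : 0 < f' := hp'.1.1
    have hf : (0 : ℝ) < f := by exact_mod_cast hf0
    have hf' : (0 : ℝ) < f' := by exact_mod_cast hf0'
    have hff : (0 : ℝ) < (f : ℝ) * f' := by positivity
    have hle : (f : ℝ) * f' ≤ ((F ^ 2 : ℕ) : ℝ) := by
      push_cast
      rw [pow_two]
      have h1 : (f : ℝ) ≤ F := by exact_mod_cast hp.1.2
      have h2 : (f' : ℝ) ≤ F := by exact_mod_cast hp'.1.2
      exact mul_le_mul h1 h2 hf'.le (by positivity)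
    have hne2 : (j * f' : ℤ) ≠ j' * f := by
      intro heq
      apply hne
      have h1 : j * f' = j' * f := by exact_mod_cast heq
      have hd1 : f ∣ f' := by
        have : f ∣ j * f' := ⟨j', by rw [h1]; ring⟩
        exact (Nat.Coprime.dvd_of_dvd_mul_left hp.2.2.symm this)
      have hd2 : f' ∣ f := by
        have : f' ∣ j' * f := ⟨j, by rw [← h1]; ring⟩
        exact (Nat.Coprime.dvd_of_dvd_mul_left hp'.2.2.symm this)
      have hff : f = f' := Nat.dvd_antisymm hd1 hd2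
      subst hff
      have hjj : j = j' := Nat.eq_of_mul_eq_mul_right hf0 h1
      subst hjj
      rfl
    have hdiff : (j : ℝ) / f - (j' : ℝ) / f' = (((j * f' : ℤ) - (j' * f : ℤ) : ℤ) : ℝ) / (f * f') := by
      push_cast
      field_simp
    have habs : |(j : ℝ) / f - (j' : ℝ) / f'| =
        ((|(j * f' : ℤ) - (j' * f : ℤ)| : ℤ) : ℝ) / (f * f') := by
      rw [hdiff, abs_div, abs_of_pos hff, Int.cast_abs]
    have h1 : (1 : ℤ) ≤ |(j * f' : ℤ) - (j' * f : ℤ)| := by
      have : (j * f' : ℤ) - (j' * f : ℤ) ≠ 0 := sub_ne_zero.mpr hne2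
      exact Int.one_le_abs this
    have h2 : |(j * f' : ℤ) - (j' * f : ℤ)| ≤ f * f' - 1 := by
      have a1 : (j * f' : ℤ) < f * f' := by
        have : j * f' < f * f' := Nat.mul_lt_mul_of_pos_right hp.2.1 hf0'
        exact_mod_cast this
      have a2 : (j' * f : ℤ) < f * f' := by
        have : j' * f < f' * f := Nat.mul_lt_mul_of_pos_right hp'.2.1 hf0
        rw [mul_comm f' f] at this
        exact_mod_cast this
      have a3 : (0 : ℤ) ≤ j * f' := by positivity
      have a4 : (0 : ℤ) ≤ j' * f := by positivity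
      rw [abs_le]
      constructor <;> linarith
    have h1' : (1 : ℝ) ≤ ((|(j * f' : ℤ) - (j' * f : ℤ)| : ℤ) : ℝ) := by exact_mod_cast h1
    have h2' : ((|(j * f' : ℤ) - (j' * f : ℤ)| : ℤ) : ℝ) ≤ f * f' - 1 := by exact_mod_cast h2
    simp only
    rw [habs]
    constructor
    · calc 1 / ((F ^ 2 : ℕ) : ℝ) ≤ 1 / ((f : ℝ) * f') := one_div_le_one_div_of_le hff hle
        _ ≤ _ := by gcongr
    · calc ((|(j * f' : ℤ) - (j' * f : ℤ)| : ℤ) : ℝ) / (f * f') ≤ (f * f' - 1) / (f * f') := by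
            gcongr
        _ = 1 - 1 / ((f : ℝ) * f') := by field_simp
        _ ≤ 1 - 1 / ((F ^ 2 : ℕ) : ℝ) := by
            have : 1 / ((F ^ 2 : ℕ) : ℝ) ≤ 1 / ((f : ℝ) * f') := one_div_le_one_div_of_le hff hle
            linarith

end Pool.Agent.Work.MP_122e00_nt

end
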