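import Mathlib
import Pool.Agent.Work.MP_122e00_nt.Corr
import Pool.Agent.Work.MP_122e00_nt.Count
import Pool.Agent.Work.MP_122e00_nt.Region
import Pool.Agent.Work.MP_122e00_nt.BV1

/-! Bundle of small proof modules (one section per former module). -/

section

/-!
Lower bound for the shifted convolution of `ζ^(s+1)`.
-/

namespace Pool.Agent.Work.MP_122e00_nt

open Finset Filter Topology MeasureTheory ArithmeticFunction
open scoped ArithmeticFunction.zeta

variable {s : ℕ}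

/-- lower and upper exponents of the cube with upper corner `m / N` -/
noncomputable def loL (N : ℕ) (m : Fin s ⊕ Fin s → ℕ) : Fin s → ℝ :=
  fun i => ((m (Sum.inl i) : ℝ) - 1) / N
noncomputable def upL (N : ℕ) (m : Fin s ⊕ Fin s → ℕ) : Fin s → ℝ :=
  fun i => (m (Sum.inl i) : ℝ) / N
noncomputable def loR (N : ℕ) (m : Fin s ⊕ Fin s → ℕ) : Fin s → ℝ :=
  fun i => ((m (Sum.inr i) : ℝ) - 1) / N
noncomputable def upR (N : ℕ) (m : Fin s ⊕ Fin s → ℕ) : Fin s → ℝ :=
  fun i => (m (Sum.inr i) : ℝ) / N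

/-- the pairs of tuples in the cube -/
noncomputable def Pr (N : ℕ) (m : Fin s ⊕ Fin s → ℕ) (X : ℝ) :
    Finset ((Fin s → ℕ) × (Fin s → ℕ)) :=
  box (loL N m) (upL N m) X ×ˢ box (loR N m) (upR N m) X

theorem mem_MN {N : ℕ} {m : Fin s ⊕ Fin s → ℕ} (h : m ∈ MN s N) :
    (∀ i, 1 ≤ m i ∧ m i ≤ N) ∧ (fun i => (m i : ℝ) / N) ∈ S0 s := by
  classical
  unfold MN at h
  rw [Finset.mem_filter, Fintype.mem_piFinset] at h
  exact ⟨fun i => Finset.mem_Icc.mp (h.1 i), h.2⟩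

theorem mem_box {α β : Fin s → ℝ} {X : ℝ} {a : Fin s → ℕ} :
    a ∈ box α β X ↔ ∀ i, ⌊X ^ (α i)⌋₊ < a i ∧ a i ≤ ⌊X ^ (β i)⌋₊ := by
  unfold box
  rw [Fintype.mem_piFinset]
  simp only [Finset.mem_Ioc]

/-- cubes are disjoint -/
theorem cube_unique {N : ℕ} {m m' : Fin s ⊕ Fin s → ℕ} {X : ℝ} (hX : 1 ≤ X) (hN : 0 < N)
    {p : (Fin s → ℕ) × (Fin s → ℕ)} (h : p ∈ Pr N m X) (h' : p ∈ Pr N m' X) : m = m' := by
  have hN' : (0 : ℝ) < N := by exact_mod_cast hN
  have key : ∀ (x y v : ℕ), ⌊X ^ (((x : ℝ) - 1) / N)⌋₊ < v → v ≤ ⌊X ^ ((x : ℝ) / N)⌋₊ →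
      ⌊X ^ (((y : ℝ) - 1) / N)⌋₊ < v → v ≤ ⌊X ^ ((y : ℝ) / N)⌋₊ → x = y := by
    intro x y v h1 h2 h3 h4
    rcases lt_trichotomy x y with hlt | heq | hgt
    · exfalso
      have h5 : (x : ℝ) ≤ (y : ℝ) - 1 := by
        have : x + 1 ≤ y := hlt
        have : (x : ℝ) + 1 ≤ y := by exact_mod_cast this
        linarith
      have h6 : ⌊X ^ ((x : ℝ) / N)⌋₊ ≤ ⌊X ^ (((y : ℝ) - 1) / N)⌋₊ :=
        floor_mono hX (by gcongr)
      omega
    · exact heq
    · exfalso
      have h5 : (y : ℝ) ≤ (x : ℝ) - 1 := by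
        have : y + 1 ≤ x := hgt
        have : (y : ℝ) + 1 ≤ x := by exact_mod_cast this
        linarith
      have h6 : ⌊X ^ ((y : ℝ) / N)⌋₊ ≤ ⌊X ^ (((x : ℝ) - 1) / N)⌋₊ :=
        floor_mono hX (by gcongr)
      omega
  unfold Pr at h h'
  rw [Finset.mem_product, mem_box, mem_box] at h h'
  funext i
  rcases i with i | i
  · exact key _ _ _ (h.1 i).1 (h.1 i).2 (h'.1 i).1 (h'.1 i).2
  · exact key _ _ _ (h.2 i).1 (h.2 i).2 (h'.2 i).1 (h'.2 i).2

theorem le_rpow_of_mem_box {α β : Fin s → ℝ} {X : ℝ} (hX : 0 < X) {a : Fin s → ℕ}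
    (ha : a ∈ box α β X) (i : Fin s) : (a i : ℝ) ≤ X ^ (β i) := by
  have h := ((mem_box.mp ha) i).2
  calc (a i : ℝ) ≤ (⌊X ^ (β i)⌋₊ : ℝ) := by exact_mod_cast h
    _ ≤ X ^ (β i) := Nat.floor_le (by positivity)

theorem prod_le_rpow_of_mem_box {α β : Fin s → ℝ} {X : ℝ} (hX : 0 < X) {a : Fin s → ℕ}
    (ha : a ∈ box α β X) : ((∏ i, a i : ℕ) : ℝ) ≤ X ^ (∑ i, β i) := by
  rw [Real.rpow_sum_of_pos hX]
  push_cast
  exact Finset.prod_le_prod (fun i _ => by positivity) (fun i _ => le_rpow_of_mem_box hX ha i)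

theorem card_box_le {α β : Fin s → ℝ} {X : ℝ} (hX : 0 < X) :
    ((box α β X).card : ℝ) ≤ X ^ (∑ i, β i) := by
  rw [Real.rpow_sum_of_pos hX]
  unfold box
  rw [Fintype.card_piFinset]
  push_cast
  apply Finset.prod_le_prod (fun i _ => by positivity)
  intro i _
  rw [Nat.card_Ioc]
  calc ((⌊X ^ (β i)⌋₊ - ⌊X ^ (α i)⌋₊ : ℕ) : ℝ) ≤ (⌊X ^ (β i)⌋₊ : ℝ) := by
        exact_mod_cast Nat.sub_le _ _
    _ ≤ X ^ (β i) := Nat.floor_le (by positivity)

/-- every tuple of the box is counted by `T` as soon as the exponents allow it -/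
theorem mem_T_of_mem_box {α β : Fin s → ℝ} {X Y : ℝ} (hX : 0 < X) {a : Fin s → ℕ}
    (ha : a ∈ box α β X) (hcond : ∀ j, X ^ (β j + ∑ i, β i) ≤ Y) {n : ℕ} (hn : Y < n)
    (hn0 : n ≠ 0) (hdvd : (∏ i, a i) ∣ n) : a ∈ T s n := by
  unfold T
  rw [Finset.mem_filter, Fintype.mem_piFinset]
  refine ⟨fun i => ?_, hdvd, fun j => ?_⟩
  · rw [Nat.mem_divisors]
    exact ⟨(Finset.dvd_prod_of_mem _ (Finset.mem_univ i)).trans hdvd, hn0⟩
  · have h1 : ((a j * ∏ i, a i : ℕ) : ℝ) ≤ X ^ (β j + ∑ i, β i) := by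
      rw [Real.rpow_add hX, Nat.cast_mul]
      exact mul_le_mul (le_rpow_of_mem_box hX ha j) (prod_le_rpow_of_mem_box hX ha)
        (by positivity) (by positivity)
    have h2 : ((a j * ∏ i, a i : ℕ) : ℝ) < (n : ℝ) := (h1.trans (hcond j)).trans_lt hn
    exact_mod_cast h2

theorem sum_T_ge (h N : ℕ) (hN : 0 < N) {η X : ℝ} (hη : 0 < η) (hη1 : η < 1) (hX : 1 ≤ X)
    (hcond : ∀ m ∈ MN s N, (∀ j, X ^ (upL N m j + ∑ i, upL N m i) ≤ η * X) ∧
      (∀ j, X ^ (upR N m j + ∑ i, upR N m i) ≤ η * X)) :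
    ∑ m ∈ MN s N, (((⌊X⌋₊ : ℝ) - ⌊η * X⌋₊) * Wsum h (loL N m) (upL N m) (loR N m) (upR N m) X
      - (Pr N m X).card) ≤
    ((∑ n ∈ Finset.Ioc ⌊η * X⌋₊ ⌊X⌋₊, (T s n).card * (T s (n + h)).card : ℕ) : ℝ) := by
  classical
  have hX0 : 0 < X := by linarith
  have hMle : ⌊η * X⌋₊ ≤ ⌊X⌋₊ := Nat.floor_mono (by nlinarith)
  -- for each `n`
  have step1 : ∀ n ∈ Finset.Ioc ⌊η * X⌋₊ ⌊X⌋₊,
      ∑ m ∈ MN s N, ((Pr N m X).filter (fun p => (∏ i, p.1 i) ∣ n ∧ (∏ i, p.2 i) ∣ n + h)).card ≤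
        (T s n).card * (T s (n + h)).card := by
    intro n hn
    rw [Finset.mem_Ioc] at hn
    have hn1 : η * X < n := (Nat.floor_lt (by positivity)).mp hn.1
    have hn0 : n ≠ 0 := by omega
    rw [← Finset.card_sigma, ← Finset.card_product]
    apply Finset.card_le_card_of_injOn (fun q => q.2)
    · rintro ⟨m, a, b⟩ hq
      rw [Finset.mem_coe, Finset.mem_sigma, Finset.mem_filter] at hq
      obtain ⟨hm, hp, hd1, hd2⟩ := hq
      simp only at hm hp hd1 hd2
      unfold Pr at hp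
      rw [Finset.mem_product] at hp
      rw [Finset.mem_coe, Finset.mem_product]
      refine ⟨mem_T_of_mem_box hX0 hp.1 (hcond m hm).1 hn1 hn0 hd1, ?_⟩
      refine mem_T_of_mem_box hX0 hp.2 (hcond m hm).2 ?_ (by omega) hd2
      push_cast
      have : (0 : ℝ) ≤ h := Nat.cast_nonneg h
      linarith
    · rintro ⟨m, p⟩ hq ⟨m', p'⟩ hq' heq
      rw [Finset.mem_coe, Finset.mem_sigma, Finset.mem_filter] at hq hq'
      simp only at heq hq hq'
      subst heq
      have := cube_unique hX hN hq.2.1 hq'.2.1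
      subst this
      rfl
  have step2 : (∑ n ∈ Finset.Ioc ⌊η * X⌋₊ ⌊X⌋₊, ∑ m ∈ MN s N,
      ((Pr N m X).filter (fun p => (∏ i, p.1 i) ∣ n ∧ (∏ i, p.2 i) ∣ n + h)).card : ℕ) ≤
      ∑ n ∈ Finset.Ioc ⌊η * X⌋₊ ⌊X⌋₊, (T s n).card * (T s (n + h)).card :=
    Finset.sum_le_sum step1
  have step3 : (∑ n ∈ Finset.Ioc ⌊η * X⌋₊ ⌊X⌋₊, ∑ m ∈ MN s N,
      ((Pr N m X).filter (fun p => (∏ i, p.1 i) ∣ n ∧ (∏ i, p.2 i) ∣ n + h)).card : ℕ) =
      ∑ m ∈ MN s N, ∑ p ∈ Pr N m X, ((Finset.Ioc ⌊η * X⌋₊ ⌊X⌋₊).filter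
        (fun n => (∏ i, p.1 i) ∣ n ∧ (∏ i, p.2 i) ∣ n + h)).card := by
    rw [Finset.sum_comm]
    apply Finset.sum_congr rfl
    intro m _
    simp_rw [Finset.card_filter]
    rw [Finset.sum_comm]
  have step4 : ∀ m ∈ MN s N, ((⌊X⌋₊ : ℝ) - ⌊η * X⌋₊) *
      Wsum h (loL N m) (upL N m) (loR N m) (upR N m) X - (Pr N m X).card ≤
      ((∑ p ∈ Pr N m X, ((Finset.Ioc ⌊η * X⌋₊ ⌊X⌋₊).filter
        (fun n => (∏ i, p.1 i) ∣ n ∧ (∏ i, p.2 i) ∣ n + h)).card : ℕ) : ℝ) := by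
    intro m _
    have e1 : ((⌊X⌋₊ : ℝ) - ⌊η * X⌋₊) *
        Wsum h (loL N m) (upL N m) (loR N m) (upR N m) X - (Pr N m X).card =
        ∑ p ∈ Pr N m X, (Fh h (Nat.gcd (∏ i, p.1 i) (∏ i, p.2 i)) *
          ((1 / ((∏ i, p.1 i : ℕ) : ℝ)) * (1 / ((∏ i, p.2 i : ℕ) : ℝ))) *
          ((⌊X⌋₊ : ℝ) - ⌊η * X⌋₊) - 1) := by
      rw [Finset.sum_sub_distrib, Finset.sum_const, nsmul_eq_mul, mul_one]
      congr 1
      unfold Wsum Pr
      rw [Finset.sum_product, Finset.mul_sum]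
      apply Finset.sum_congr rfl
      intro a _
      rw [Finset.mul_sum]
      apply Finset.sum_congr rfl
      intro b _
      simp only [Nat.cast_prod, Finset.prod_div_distrib, Finset.prod_const_one]
      ring
    rw [e1]
    push_cast
    apply Finset.sum_le_sum
    intro p hp
    unfold Pr at hp
    rw [Finset.mem_product] at hp
    have hpa : 0 < ∏ i, p.1 i := Finset.prod_pos (fun i _ => pos_of_mem_box hp.1 i)
    have hpb : 0 < ∏ i, p.2 i := Finset.prod_pos (fun i _ => pos_of_mem_box hp.2 i)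
    have := count_ge (∏ i, p.1 i) (∏ i, p.2 i) h ⌊η * X⌋₊ ⌊X⌋₊ hpa hpb hMle
    rw [Fh_apply]
    push_cast at this ⊢
    exact this
  calc _ ≤ ∑ m ∈ MN s N, ((∑ p ∈ Pr N m X, ((Finset.Ioc ⌊η * X⌋₊ ⌊X⌋₊).filter
        (fun n => (∏ i, p.1 i) ∣ n ∧ (∏ i, p.2 i) ∣ n + h)).card : ℕ) : ℝ) :=
        Finset.sum_le_sum step4
    _ = ((∑ m ∈ MN s N, ∑ p ∈ Pr N m X, ((Finset.Ioc ⌊η * X⌋₊ ⌊X⌋₊).filter
        (fun n => (∏ i, p.1 i) ∣ n ∧ (∏ i, p.2 i) ∣ n + h)).card : ℕ) : ℝ) := by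
        push_cast; rfl
    _ ≤ _ := by
        rw [← step3]
        exact_mod_cast step2

end Pool.Agent.Work.MP_122e00_nt

end

section

/-!
Lower bound for the shifted convolution of `ζ^(s+1)`: the limit argument.
-/

namespace Pool.Agent.Work.MP_122e00_nt

open Finset Filter Topology MeasureTheory ArithmeticFunction
open scoped ArithmeticFunction.zeta

variable {s : ℕ}

theorem Wsum_nonneg (h : ℕ) (α β α' β' : Fin s → ℝ) (X : ℝ) : 0 ≤ Wsum h α β α' β' X := by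
  unfold Wsum
  apply Finset.sum_nonneg
  intro a _
  apply Finset.sum_nonneg
  intro b _
  apply mul_nonneg
  · rw [Fh_apply]
    split_ifs <;> positivity
  · apply mul_nonneg <;> exact Finset.prod_nonneg (fun i _ => by positivity)

theorem Csing_nonneg (h : ℕ) (hh : h ≠ 0) : 0 ≤ Csing s h := by
  have h1 := tendsto_Wsum (s := s) h hh (fun _ => 0) (fun _ => 1) (fun _ => 0) (fun _ => 1)
    (fun _ => le_rfl) (fun _ => zero_le_one) (fun _ => le_rfl)
    (fun _ => le_rfl) (fun _ => zero_le_one) (fun _ => le_rfl)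
  simp only [sub_zero, Finset.prod_const_one, mul_one] at h1
  apply ge_of_tendsto h1
  filter_upwards with X
  apply div_nonneg (Wsum_nonneg _ _ _ _ _ _)
  rw [pow_mul]
  positivity

theorem tendsto_floor_ratio {η : ℝ} (hη : 0 < η) :
    Tendsto (fun X : ℝ => ((⌊X⌋₊ : ℝ) - ⌊η * X⌋₊) / X) atTop (𝓝 (1 - η)) := by
  have h1 : Tendsto (fun X : ℝ => (⌊X⌋₊ : ℝ) / X) atTop (𝓝 1) := tendsto_nat_floor_div_atTop
  have h2 : Tendsto (fun X : ℝ => (⌊η * X⌋₊ : ℝ) / X) atTop (𝓝 η) :=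
    tendsto_nat_floor_mul_div_atTop hη.le
  have h3 := h1.sub h2
  refine h3.congr (fun X => ?_)
  rw [sub_div]

theorem tendsto_rpow_neg_aux {σ : ℝ} (hσ : σ < 1) :
    Tendsto (fun X : ℝ => X ^ (σ - 1)) atTop (𝓝 0) := by
  have := tendsto_rpow_neg_atTop (y := 1 - σ) (by linarith)
  simpa using this

theorem eventually_cond {σ η : ℝ} (hσ : σ < 1) (hη : 0 < η) :
    ∀ᶠ X : ℝ in atTop, X ^ σ ≤ η * X := by
  have h1 := (tendsto_rpow_neg_aux hσ).eventually (gt_mem_nhds hη)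
  filter_upwards [h1, eventually_gt_atTop 0] with X hX hX0
  have h2 : X ^ σ = X ^ (σ - 1) * X := by
    rw [← Real.rpow_add_one hX0.ne']
    congr 1
    ring
  rw [h2]
  gcongr

theorem tendsto_card_Pr (N : ℕ) (m : Fin s ⊕ Fin s → ℕ)
    (hm : ∑ i, upL N m i + ∑ i, upR N m i < 1) :
    Tendsto (fun X : ℝ => ((Pr N m X).card : ℝ) / (X * (Real.log X) ^ (2 * s))) atTop (𝓝 0) := by
  refine squeeze_zero' ?_ ?_ (tendsto_rpow_neg_aux hm)
  · filter_upwards [eventually_gt_atTop 0] with X hX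
    apply div_nonneg (Nat.cast_nonneg _)
    rw [pow_mul]
    positivity
  · filter_upwards [eventually_ge_atTop (Real.exp 1)] with X hX
    have hX1 : (1 : ℝ) ≤ X := by
      have := Real.add_one_le_exp (1 : ℝ)
      linarith
    have hX0 : 0 < X := by linarith
    have hlog : 1 ≤ Real.log X := by
      rw [Real.le_log_iff_exp_le (by linarith)]
      exact hX
    have hcard : ((Pr N m X).card : ℝ) ≤ X ^ (∑ i, upL N m i + ∑ i, upR N m i) := by
      unfold Pr
      rw [Finset.card_product, Nat.cast_mul, Real.rpow_add hX0]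
      exact mul_le_mul (card_box_le hX0) (card_box_le hX0) (by positivity) (by positivity)
    have h2 : X ^ (∑ i, upL N m i + ∑ i, upR N m i) =
        X ^ (∑ i, upL N m i + ∑ i, upR N m i - 1) * X := by
      rw [← Real.rpow_add_one hX0.ne']
      congr 1
      ring
    rw [div_le_iff₀ (by positivity)]
    have h3 : 1 ≤ (Real.log X) ^ (2 * s) := one_le_pow₀ hlog
    calc ((Pr N m X).card : ℝ) ≤ X ^ (∑ i, upL N m i + ∑ i, upR N m i - 1) * X := by
          rw [← h2]; exact hcard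
      _ ≤ X ^ (∑ i, upL N m i + ∑ i, upR N m i - 1) * (X * (Real.log X) ^ (2 * s)) := by
          apply mul_le_mul_of_nonneg_left _ (by positivity)
          nlinarith

theorem lower_bound (h : ℕ) (hh : h ≠ 0) (c : ℝ)
    (hc : c < ((s : ℝ) + 1) ^ 2 * volume.real (S0 s) * Csing s h) :
    ∀ᶠ X : ℝ in atTop, c * (X * (Real.log X) ^ (2 * s)) ≤
      ∑ n ∈ Finset.Icc 1 ⌊X⌋₊, ((((ζ : ArithmeticFunction ℕ) ^ (s + 1)) n *
        ((ζ : ArithmeticFunction ℕ) ^ (s + 1)) (n + h) : ℕ) : ℝ) := by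
  rcases eq_or_lt_of_le (Csing_nonneg (s := s) h hh) with hC | hC
  · rw [← hC, mul_zero] at hc
    filter_upwards [eventually_ge_atTop 1] with X hX
    have h1 : 0 ≤ X * (Real.log X) ^ (2 * s) := by
      rw [pow_mul]
      positivity
    have h2 : (0 : ℝ) ≤ ∑ n ∈ Finset.Icc 1 ⌊X⌋₊, ((((ζ : ArithmeticFunction ℕ) ^ (s + 1)) n *
        ((ζ : ArithmeticFunction ℕ) ^ (s + 1)) (n + h) : ℕ) : ℝ) :=
      Finset.sum_nonneg (fun _ _ => by positivity)
    nlinarith
  -- choose the grid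
  have hs2 : (0 : ℝ) < ((s : ℝ) + 1) ^ 2 := by positivity
  have hc' : c / (((s : ℝ) + 1) ^ 2 * Csing s h) < volume.real (S0 s) := by
    rw [div_lt_iff₀ (by positivity)]
    linarith
  obtain ⟨N, hN2, hN⟩ := exists_grid s _ hc'
  have hN0 : (2 : ℝ) ≤ N := by exact_mod_cast hN2
  have hNpos : (0 : ℝ) < N := by linarith
  set η : ℝ := 1 / N with hηdef
  have hη : 0 < η := by positivity
  have hη1 : η < 1 := by
    rw [hηdef, div_lt_one hNpos]
    linarith
  -- the conditions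
  have hcond : ∀ᶠ X : ℝ in atTop, ∀ m ∈ MN s N,
      (∀ j, X ^ (upL N m j + ∑ i, upL N m i) ≤ η * X) ∧
      (∀ j, X ^ (upR N m j + ∑ i, upR N m i) ≤ η * X) := by
    rw [Filter.eventually_all_finset]
    intro m hm
    have hmem := (mem_MN hm).2
    apply Filter.Eventually.and
    · rw [Filter.eventually_all]
      intro j
      exact eventually_cond (hmem.2.1 j) hη
    · rw [Filter.eventually_all]
      intro j
      exact eventually_cond (hmem.2.2.1 j) hη
  -- the limit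
  have hlim : Tendsto (fun X : ℝ => ∑ m ∈ MN s N,
      ((((⌊X⌋₊ : ℝ) - ⌊η * X⌋₊) / X) *
        (Wsum h (loL N m) (upL N m) (loR N m) (upR N m) X / (Real.log X) ^ (2 * s)) -
        ((Pr N m X).card : ℝ) / (X * (Real.log X) ^ (2 * s)))) atTop
      (𝓝 (∑ m ∈ MN s N, ((1 - η) * (Csing s h * ((∏ i, (upL N m i - loL N m i)) *
        ∏ i, (upR N m i - loR N m i))) - 0))) := by
    apply tendsto_finsetSum
    intro m hm
    have hmem := mem_MN hm
    have hsum : ∑ i, upL N m i + ∑ i, upR N m i < 1 := by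
      have := hmem.2.2.2.2
      rw [Fintype.sum_sum_type] at this
      exact this
    refine Tendsto.sub (Tendsto.mul (tendsto_floor_ratio hη) ?_) (tendsto_card_Pr N m hsum)
    have hlo : ∀ i : Fin s ⊕ Fin s, (0 : ℝ) ≤ ((m i : ℝ) - 1) / N := by
      intro i
      have : (1 : ℝ) ≤ m i := by exact_mod_cast (hmem.1 i).1
      apply div_nonneg _ hNpos.le
      linarith
    have hup : ∀ i : Fin s ⊕ Fin s, (m i : ℝ) / N ≤ 1 := by
      intro i
      rw [div_le_one hNpos]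
      exact_mod_cast (hmem.1 i).2
    have hle : ∀ i : Fin s ⊕ Fin s, ((m i : ℝ) - 1) / N ≤ (m i : ℝ) / N := by
      intro i
      gcongr
      linarith
    exact tendsto_Wsum h hh _ _ _ _ (fun i => hlo _) (fun i => hle _) (fun i => hup _)
      (fun i => hlo _) (fun i => hle _) (fun i => hup _)
  have hval : (∑ m ∈ MN s N, ((1 - η) * (Csing s h * ((∏ i, (upL N m i - loL N m i)) *
        ∏ i, (upR N m i - loR N m i))) - 0)) =
      Csing s h * ((1 - 1 / (N : ℝ)) * ((MN s N).card / (N : ℝ) ^ (2 * s))) := by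
    have h1 : ∀ m : Fin s ⊕ Fin s → ℕ, ∏ i, (upL N m i - loL N m i) = (1 / (N : ℝ)) ^ s := by
      intro m
      have : ∀ i, upL N m i - loL N m i = 1 / (N : ℝ) := by
        intro i
        unfold upL loL
        ring
      simp_rw [this]
      rw [Finset.prod_const, Finset.card_univ, Fintype.card_fin]
    have h2 : ∀ m : Fin s ⊕ Fin s → ℕ, ∏ i, (upR N m i - loR N m i) = (1 / (N : ℝ)) ^ s := by
      intro m
      have : ∀ i, upR N m i - loR N m i = 1 / (N : ℝ) := by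
        intro i
        unfold upR loR
        ring
      simp_rw [this]
      rw [Finset.prod_const, Finset.card_univ, Fintype.card_fin]
    simp_rw [h1, h2]
    rw [Finset.sum_const, nsmul_eq_mul, two_mul, pow_add, one_div_pow, hηdef]
    field_simp
    ring
  rw [hval] at hlim
  have hlt : c / ((s : ℝ) + 1) ^ 2 <
      Csing s h * ((1 - 1 / (N : ℝ)) * ((MN s N).card / (N : ℝ) ^ (2 * s))) := by
    rw [div_lt_iff₀ (by positivity)] at hN ⊢
    linarith
  filter_upwards [hcond, hlim.eventually (lt_mem_nhds hlt), eventually_ge_atTop (Real.exp 1)]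
    with X h1 h2 hX
  have hX1 : (1 : ℝ) ≤ X := by
    have := Real.add_one_le_exp (1 : ℝ)
    linarith
  have hX0 : 0 < X := by linarith
  have hlog : 1 ≤ Real.log X := by
    rw [Real.le_log_iff_exp_le (by linarith)]
    exact hX
  have hL : 0 < X * (Real.log X) ^ (2 * s) := by positivity
  have hge := sum_T_ge (s := s) h N (by omega) hη hη1 hX1 h1
  have heq : ∑ m ∈ MN s N, (((⌊X⌋₊ : ℝ) - ⌊η * X⌋₊) *
      Wsum h (loL N m) (upL N m) (loR N m) (upR N m) X - (Pr N m X).card) =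
      (X * (Real.log X) ^ (2 * s)) * ∑ m ∈ MN s N,
      ((((⌊X⌋₊ : ℝ) - ⌊η * X⌋₊) / X) *
        (Wsum h (loL N m) (upL N m) (loR N m) (upR N m) X / (Real.log X) ^ (2 * s)) -
        ((Pr N m X).card : ℝ) / (X * (Real.log X) ^ (2 * s))) := by
    rw [Finset.mul_sum]
    apply Finset.sum_congr rfl
    intro m _
    have hl0 : (Real.log X) ^ (2 * s) ≠ 0 := by positivity
    field_simp
  rw [heq] at hge
  have hT : ((∑ n ∈ Finset.Ioc ⌊η * X⌋₊ ⌊X⌋₊, ((s + 1) * (T s n).card) *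
      ((s + 1) * (T s (n + h)).card) : ℕ) : ℝ) ≤
      ∑ n ∈ Finset.Icc 1 ⌊X⌋₊, ((((ζ : ArithmeticFunction ℕ) ^ (s + 1)) n *
        ((ζ : ArithmeticFunction ℕ) ^ (s + 1)) (n + h) : ℕ) : ℝ) := by
    have h3 : (∑ n ∈ Finset.Ioc ⌊η * X⌋₊ ⌊X⌋₊, ((s + 1) * (T s n).card) *
      ((s + 1) * (T s (n + h)).card) : ℕ) ≤
      ∑ n ∈ Finset.Icc 1 ⌊X⌋₊, ((ζ : ArithmeticFunction ℕ) ^ (s + 1)) n *
        ((ζ : ArithmeticFunction ℕ) ^ (s + 1)) (n + h) := by
      calc _ ≤ ∑ n ∈ Finset.Ioc ⌊η * X⌋₊ ⌊X⌋₊, ((ζ : ArithmeticFunction ℕ) ^ (s + 1)) n *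
            ((ζ : ArithmeticFunction ℕ) ^ (s + 1)) (n + h) := by
            apply Finset.sum_le_sum
            intro n hn
            rw [Finset.mem_Ioc] at hn
            exact Nat.mul_le_mul (card_T_le s n (by omega)) (card_T_le s (n + h) (by omega))
        _ ≤ _ := by
            apply Finset.sum_le_sum_of_subset
            intro n hn
            rw [Finset.mem_Ioc] at hn
            rw [Finset.mem_Icc]
            omega
    exact_mod_cast h3
  have hfin : ((∑ n ∈ Finset.Ioc ⌊η * X⌋₊ ⌊X⌋₊, ((s + 1) * (T s n).card) *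
      ((s + 1) * (T s (n + h)).card) : ℕ) : ℝ) = ((s : ℝ) + 1) ^ 2 *
      ((∑ n ∈ Finset.Ioc ⌊η * X⌋₊ ⌊X⌋₊, (T s n).card * (T s (n + h)).card : ℕ) : ℝ) := by
    push_cast
    rw [Finset.mul_sum]
    apply Finset.sum_congr rfl
    intro n _
    ring
  rw [hfin] at hT
  have h4 : c = ((s : ℝ) + 1) ^ 2 * (c / ((s : ℝ) + 1) ^ 2) := by field_simp
  calc c * (X * (Real.log X) ^ (2 * s))
      = ((s : ℝ) + 1) ^ 2 * ((X * (Real.log X) ^ (2 * s)) * (c / ((s : ℝ) + 1) ^ 2)) := by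
        rw [h4]; field_simp
    _ ≤ ((s : ℝ) + 1) ^ 2 * ((∑ n ∈ Finset.Ioc ⌊η * X⌋₊ ⌊X⌋₊, (T s n).card *
        (T s (n + h)).card : ℕ) : ℝ) := by
        apply mul_le_mul_of_nonneg_left _ hs2.le
        refine le_trans ?_ hge
        exact mul_le_mul_of_nonneg_left h2.le hL.le
    _ ≤ _ := hT

end Pool.Agent.Work.MP_122e00_nt

end

section

/-!
Elementary bounds: Moebius expansion of coprimality conditions.
-/

namespace Pool.Agent.Work.MP_122e00_nt

open Finset Complex DirichletCharacter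

open scoped ArithmeticFunction.Moebius ArithmeticFunction.zeta

theorem sum_moebius_gcd (m k : ℕ) (hk : k ≠ 0) :
    ∑ d ∈ k.divisors, (if d ∣ m then (μ d : ℤ) else 0) = if Nat.Coprime m k then 1 else 0 := by
  rw [← Finset.sum_filter]
  have h1 : k.divisors.filter (fun d => d ∣ m) = (Nat.gcd m k).divisors := by
    ext d
    simp only [Finset.mem_filter, Nat.mem_divisors, Nat.dvd_gcd_iff]
    constructor
    · rintro ⟨⟨h1, _⟩, h2⟩
      exact ⟨⟨h2, h1⟩, fun h => hk (Nat.gcd_eq_zero_iff.mp h).2⟩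
    · rintro ⟨⟨h1, h2⟩, _⟩
      exact ⟨⟨h2, hk⟩, h1⟩
  rw [h1]
  have h2 := congrArg (fun f => f (Nat.gcd m k)) ArithmeticFunction.moebius_mul_coe_zeta
  simp only [ArithmeticFunction.coe_mul_zeta_apply, ArithmeticFunction.one_apply] at h2
  rw [h2]

theorem sum_coprime_eq (g : ℕ → ℂ) (A B k : ℕ) (hk : k ≠ 0) :
    ∑ m ∈ Finset.Ioc A B, (if Nat.Coprime m k then g m else 0) =
      ∑ d ∈ k.divisors, ((μ d : ℤ) : ℂ) * ∑ m ∈ Finset.Ioc (A / d) (B / d), g (d * m) := by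
  have h1 : ∀ m ∈ Finset.Ioc A B, (if Nat.Coprime m k then g m else 0) =
      ∑ d ∈ k.divisors, if d ∣ m then ((μ d : ℤ) : ℂ) * g m else 0 := by
    intro m _
    have h := congrArg (fun z : ℤ => (z : ℂ) * g m) (sum_moebius_gcd m k hk)
    simp only [Int.cast_sum, Finset.sum_mul] at h
    by_cases hm : Nat.Coprime m k
    · rw [if_pos hm] at h ⊢
      rw [Int.cast_one, one_mul] at h
      refine h.symm.trans ?_
      apply Finset.sum_congr rfl
      intro d _
      split_ifs <;> simp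
    · rw [if_neg hm] at h ⊢
      rw [Int.cast_zero, zero_mul] at h
      refine h.symm.trans ?_
      apply Finset.sum_congr rfl
      intro d _
      split_ifs <;> simp
  rw [Finset.sum_congr rfl h1, Finset.sum_comm]
  apply Finset.sum_congr rfl
  intro d hd
  have hd0 : 0 < d := Nat.pos_of_mem_divisors hd
  rw [← Finset.sum_filter, Finset.mul_sum]
  symm
  apply Finset.sum_bij (fun m _ => d * m)
  · intro m hm
    rw [Finset.mem_Ioc] at hm
    rw [Finset.mem_filter, Finset.mem_Ioc]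
    refine ⟨⟨?_, ?_⟩, dvd_mul_right d m⟩
    · rw [mul_comm]
      exact (Nat.div_lt_iff_lt_mul hd0).mp hm.1
    · rw [mul_comm]
      exact (Nat.le_div_iff_mul_le hd0).mp hm.2
  · intro a _ b _ h
    exact Nat.eq_of_mul_eq_mul_left hd0 h
  · intro m hm
    rw [Finset.mem_filter, Finset.mem_Ioc] at hm
    obtain ⟨⟨h1, h2⟩, ⟨m', rfl⟩⟩ := hm
    refine ⟨m', ?_, rfl⟩
    rw [Finset.mem_Ioc]
    refine ⟨?_, ?_⟩
    · rw [Nat.div_lt_iff_lt_mul hd0, mul_comm]
      exact h1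
    · rw [Nat.le_div_iff_mul_le hd0, mul_comm]
      exact h2
  · intro _ _
    rfl

theorem totient_div_eq (E : ℕ) (hE : E ≠ 0) :
    ((E.totient : ℂ)) / E = ∑ d ∈ E.divisors, ((μ d : ℤ) : ℂ) / d := by
  have h0 : ∀ n > 0, ∑ i ∈ n.divisors, ((i.totient : ℕ) : ℂ) = ((n : ℕ) : ℂ) := by
    intro n _
    exact_mod_cast Nat.sum_totient n
  have h1 := (ArithmeticFunction.sum_eq_iff_sum_mul_moebius_eq (R := ℂ)
    (f := fun n => ((n.totient : ℕ) : ℂ)) (g := fun n => ((n : ℕ) : ℂ))).mp h0 E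
      (Nat.pos_of_ne_zero hE)
  have hE' : (E : ℂ) ≠ 0 := by exact_mod_cast hE
  rw [← h1, div_eq_iff hE', Finset.sum_mul,
    Nat.sum_divisorsAntidiagonal (fun a b => ((μ a : ℤ) : ℂ) * ((b : ℕ) : ℂ))]
  apply Finset.sum_congr rfl
  intro d hd
  have hd0 : 0 < d := Nat.pos_of_mem_divisors hd
  have hd' : (d : ℂ) ≠ 0 := by exact_mod_cast hd0.ne'
  rw [Nat.cast_div (Nat.dvd_of_mem_divisors hd) hd']
  ring

theorem norm_moebius_le (d : ℕ) : ‖((μ d : ℤ) : ℂ)‖ ≤ 1 := by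
  rw [Complex.norm_intCast]
  exact_mod_cast ArithmeticFunction.abs_moebius_le_one

theorem card_Ioc_div (A B d : ℕ) (hAB : A ≤ B) (hd : 0 < d) :
    ‖(((Finset.Ioc (A / d) (B / d)).card : ℕ) : ℂ) - ((B : ℂ) - A) / d‖ ≤ 1 := by
  have h1 : (((Finset.Ioc (A / d) (B / d)).card : ℕ) : ℂ) - ((B : ℂ) - A) / d =
      (((((B / d : ℕ) : ℝ) - ((A / d : ℕ) : ℝ)) - ((B : ℝ) - A) / d : ℝ) : ℂ) := by
    rw [Nat.card_Ioc, Nat.cast_sub (Nat.div_le_div_right hAB)]
    push_cast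
    ring
  rw [h1, Complex.norm_real, Real.norm_eq_abs, abs_le]
  have hd' : (0:ℝ) < d := by exact_mod_cast hd
  have e1 : ((B / d : ℕ) : ℝ) ≤ (B : ℝ) / d := Nat.cast_div_le
  have e2 : ((A / d : ℕ) : ℝ) ≤ (A : ℝ) / d := Nat.cast_div_le
  have e3 : (B : ℝ) / d < ((B / d : ℕ) : ℝ) + 1 := by
    rw [div_lt_iff₀ hd']
    have := Nat.lt_div_mul_add hd (a := B)
    have h2 : B < (B / d + 1) * d := by
      rw [add_mul, one_mul]; exact this
    exact_mod_cast h2
  have e4 : (A : ℝ) / d < ((A / d : ℕ) : ℝ) + 1 := by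
    rw [div_lt_iff₀ hd']
    have := Nat.lt_div_mul_add hd (a := A)
    have h2 : A < (A / d + 1) * d := by
      rw [add_mul, one_mul]; exact this
    exact_mod_cast h2
  rw [sub_div]
  constructor <;> linarith

theorem coprime_count (A B E : ℕ) (hAB : A ≤ B) (hE : E ≠ 0) :
    ‖(∑ m ∈ Finset.Ioc A B, (if Nat.Coprime m E then (1:ℂ) else 0)) -
      ((B : ℂ) - A) * (E.totient / E)‖ ≤ E.divisors.card := by
  rw [sum_coprime_eq (fun _ => (1:ℂ)) A B E hE, totient_div_eq E hE, Finset.mul_sum,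
    ← Finset.sum_sub_distrib]
  calc _ ≤ ∑ d ∈ E.divisors, (1:ℝ) := by
        apply norm_sum_le_of_le
        intro d hd
        have hd0 : 0 < d := Nat.pos_of_mem_divisors hd
        have h1 : ((μ d : ℤ) : ℂ) * ∑ m ∈ Finset.Ioc (A / d) (B / d), (1:ℂ) -
            ((B : ℂ) - A) * (((μ d : ℤ) : ℂ) / d) =
            ((μ d : ℤ) : ℂ) * ((((Finset.Ioc (A / d) (B / d)).card : ℕ) : ℂ) -
              ((B : ℂ) - A) / d) := by
          rw [Finset.sum_const, nsmul_eq_mul, mul_one]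
          ring
        rw [h1, norm_mul]
        calc _ ≤ (1:ℝ) * 1 := by
              gcongr
              · exact norm_moebius_le d
              · exact card_Ioc_div A B d hAB hd0
          _ = 1 := by ring
    _ = _ := by simp

/-- sum of a nontrivial character over an interval -/
theorem sum_char_interval {f : ℕ} [NeZero f] (ψ : DirichletCharacter ℂ f) (hψ : ψ ≠ 1)
    (A B : ℕ) : ‖∑ m ∈ Finset.Ioc A B, ψ (m : ZMod f)‖ ≤ f := by
  have hper : ∀ a : ℕ, ∑ m ∈ Finset.Ioc a (a + f), ψ (m : ZMod f) = 0 := by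
    intro a
    have h1 : ∑ m ∈ Finset.Ioc a (a + f), ψ (m : ZMod f) = ∑ x : ZMod f, ψ x := by
      apply Finset.sum_bij (fun m _ => ((m : ℕ) : ZMod f))
      · intro _ _
        exact Finset.mem_univ _
      · intro x hx y hy hxy
        rw [Finset.mem_Ioc] at hx hy
        rw [ZMod.natCast_eq_natCast_iff] at hxy
        by_contra hne
        rcases lt_or_gt_of_ne hne with h | h
        · have := (Nat.modEq_iff_dvd' h.le).mp hxy
          have := Nat.le_of_dvd (by omega) this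
          omega
        · have := (Nat.modEq_iff_dvd' h.le).mp hxy.symm
          have := Nat.le_of_dvd (by omega) this
          omega
      · intro x _
        refine ⟨a + 1 + (x - ((a + 1 : ℕ) : ZMod f)).val, ?_, ?_⟩
        · rw [Finset.mem_Ioc]
          have := ZMod.val_lt (x - ((a + 1 : ℕ) : ZMod f))
          constructor <;> omega
        · rw [Nat.cast_add, ZMod.natCast_zmod_val]
          ring
      · intro _ _
        rfl
    rw [h1, MulChar.sum_eq_zero_of_ne_one hψ]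
  have key : ∀ n : ℕ, ∀ a : ℕ, ‖∑ m ∈ Finset.Ioc a (a + n), ψ (m : ZMod f)‖ ≤ f := by
    intro n
    induction n using Nat.strong_induction_on with
    | _ n ih =>
      intro a
      by_cases hn : n ≤ f
      · calc ‖∑ m ∈ Finset.Ioc a (a + n), ψ (m : ZMod f)‖
            ≤ ∑ m ∈ Finset.Ioc a (a + n), (1:ℝ) := by
              apply norm_sum_le_of_le
              intro m _
              exact DirichletCharacter.norm_le_one ψ _
          _ = n := by simp
          _ ≤ f := by exact_mod_cast hn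
      · push Not at hn
        have hf : 0 < f := Nat.pos_of_ne_zero (NeZero.ne f)
        have h1 : Finset.Ioc a (a + n) = Finset.Ioc a (a + f) ∪ Finset.Ioc (a + f) (a + n) := by
          rw [Finset.Ioc_union_Ioc_eq_Ioc] <;> omega
        have h2 : Disjoint (Finset.Ioc a (a + f)) (Finset.Ioc (a + f) (a + n)) := by
          rw [Finset.disjoint_left]
          intro x hx hx'
          rw [Finset.mem_Ioc] at hx hx'
          omega
        rw [h1, Finset.sum_union h2, hper, zero_add]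
        have h3 : a + n = (a + f) + (n - f) := by omega
        rw [h3]
        exact ih (n - f) (by omega) (a + f)
  rcases le_total A B with h | h
  · have : B = A + (B - A) := by omega
    rw [this]
    exact key _ _
  · rw [Finset.Ioc_eq_empty (by omega), Finset.sum_empty, norm_zero]
    positivity

theorem norm_chiA_le {f : ℕ} [NeZero f] (ψ : DirichletCharacter ℂ f) (hψ : ψ ≠ 1)
    (A B k : ℕ) (hk : k ≠ 0) : ‖chiA A B k ψ‖ ≤ k.divisors.card * f := by
  unfold chiA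
  rw [sum_coprime_eq (fun m => ψ (m : ZMod f)) A B k hk]
  calc _ ≤ ∑ d ∈ k.divisors, (f:ℝ) := by
        apply norm_sum_le_of_le
        intro d _
        have h1 : ∑ m ∈ Finset.Ioc (A / d) (B / d), ψ ((d * m : ℕ) : ZMod f) =
            ψ (d : ZMod f) * ∑ m ∈ Finset.Ioc (A / d) (B / d), ψ (m : ZMod f) := by
          rw [Finset.mul_sum]
          apply Finset.sum_congr rfl
          intro m _
          push_cast
          rw [map_mul]
        rw [h1, norm_mul, norm_mul]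
        calc _ ≤ (1:ℝ) * (1 * f) := by
              gcongr
              · exact norm_moebius_le d
              · exact DirichletCharacter.norm_le_one ψ _
              · exact sum_char_interval ψ hψ _ _
          _ = f := by ring
    _ = _ := by simp

end Pool.Agent.Work.MP_122e00_nt

end
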