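import Mathlib
import Pool.Agent.Work.MP_122e00_nt.Asm2
import Pool.Agent.Work.MP_122e00_nt.Corr

/-! Bundle of small proof modules (one section per former module). -/

section

/-!
Numbers of cubes.
-/

namespace Pool.Agent.Work.MP_122e00_nt

open Finset Filter Topology

/-- lattice points of a simplex -/
def Smp (s K : ℕ) : Finset (Fin s → ℕ) :=
  (Fintype.piFinset (fun _ : Fin s => Finset.Icc 1 K)).filter (fun m => ∑ i, m i ≤ K)

theorem mem_Smp {s K : ℕ} {m : Fin s → ℕ} : m ∈ Smp s K ↔ (∀ i, 1 ≤ m i) ∧ ∑ i, m i ≤ K := by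
  unfold Smp
  rw [Finset.mem_filter, Fintype.mem_piFinset]
  constructor
  · rintro ⟨h1, h2⟩
    exact ⟨fun i => (Finset.mem_Icc.mp (h1 i)).1, h2⟩
  · rintro ⟨h1, h2⟩
    refine ⟨fun i => Finset.mem_Icc.mpr ⟨h1 i, ?_⟩, h2⟩
    exact (Finset.single_le_sum (f := m) (fun i _ => Nat.zero_le _) (Finset.mem_univ i)).trans h2

theorem sum_choose (s K : ℕ) : ∑ j ∈ Finset.range K, j.choose s = K.choose (s + 1) := by
  induction K with
  | zero => simp
  | succ K ih =>
    rw [Finset.sum_range_succ, ih, Nat.choose_succ_succ, add_comm]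

theorem card_Smp (s K : ℕ) : (Smp s K).card = K.choose s := by
  induction s generalizing K with
  | zero =>
    have : Smp 0 K = {fun i => i.elim0} := by
      ext m
      rw [mem_Smp, Finset.mem_singleton]
      constructor
      · intro _
        funext i
        exact i.elim0
      · intro _
        exact ⟨fun i => i.elim0, by simp⟩
    rw [this]
    simp
  | succ s ih =>
    rw [← sum_choose, ← Finset.sum_range_reflect]
    have h1 : ∀ j ∈ Finset.range K, (K - 1 - j).choose s = (Smp s (K - 1 - j)).card :=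
      fun j _ => (ih _).symm
    rw [Finset.sum_congr rfl h1, ← Finset.card_sigma]
    symm
    apply Finset.card_bij (fun (p : (_ : ℕ) × (Fin s → ℕ)) _ =>
      (Fin.cons (p.1 + 1) p.2 : Fin (s + 1) → ℕ))
    · rintro ⟨j, m⟩ hp
      rw [Finset.mem_sigma, Finset.mem_range, mem_Smp] at hp
      simp only at hp
      rw [mem_Smp]
      refine ⟨?_, ?_⟩
      · intro i
        refine Fin.cases ?_ ?_ i
        · simp
        · intro i
          simpa using hp.2.1 i
      · rw [Fin.sum_univ_succ]
        simp only [Fin.cons_zero, Fin.cons_succ]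
        omega
    · rintro ⟨j, m⟩ _ ⟨j', m'⟩ _ heq
      have h2 := Fin.cons_injective2 heq
      obtain ⟨e1, e2⟩ := h2
      have : j = j' := by simpa using e1
      subst this
      simp only at e2
      rw [e2]
    · intro m hm
      rw [mem_Smp] at hm
      have h0 := hm.1 0
      have h2 := hm.2
      rw [Fin.sum_univ_succ] at h2
      refine ⟨⟨m 0 - 1, fun i => m i.succ⟩, ?_, ?_⟩
      · rw [Finset.mem_sigma, Finset.mem_range, mem_Smp]
        simp only
        refine ⟨by omega, fun i => hm.1 _, by omega⟩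
      · funext i
        refine Fin.cases ?_ ?_ i
        · simp only [Fin.cons_zero]
          omega
        · intro i
          simp only [Fin.cons_succ]

variable {s : ℕ}

theorem card_MH_ge (k : ℕ) (hk : 0 < k) : (k - 1).choose s ≤ (MH s (2 * k)).card := by
  rw [← card_Smp]
  apply Finset.card_le_card
  intro m hm
  rw [mem_Smp] at hm
  unfold MH
  rw [Finset.mem_filter, Fintype.mem_piFinset]
  have h1 : ∀ i, m i ≤ ∑ i, m i := fun i =>
    Finset.single_le_sum (f := m) (fun i _ => Nat.zero_le _) (Finset.mem_univ i)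
  refine ⟨fun i => Finset.mem_Icc.mpr ⟨hm.1 i, ?_⟩, ?_⟩
  · have := h1 i
    omega
  · omega

theorem card_M1_ge (k : ℕ) (hk : 0 < k) :
    (2 * k - 1).choose s ≤ (M1 s (2 * k)).card + 1 := by
  classical
  rw [← card_Smp]
  calc (Smp s (2 * k - 1)).card ≤ (insert (fun _ => 1) (M1 s (2 * k))).card := by
        apply Finset.card_le_card
        intro m hm
        rw [mem_Smp] at hm
        rw [Finset.mem_insert]
        by_cases h0 : s < ∑ i, m i
        · right
          unfold M1
          rw [Finset.mem_filter, Fintype.mem_piFinset]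
          have h1 : ∀ i, m i ≤ ∑ i, m i := fun i =>
            Finset.single_le_sum (f := m) (fun i _ => Nat.zero_le _) (Finset.mem_univ i)
          refine ⟨fun i => Finset.mem_Icc.mpr ⟨hm.1 i, ?_⟩, h0, ?_⟩
          · have := h1 i
            omega
          · omega
        · left
          push Not at h0
          have h2 : ∑ _i : Fin s, (1 : ℕ) = s := by simp
          funext i
          by_contra hne
          have h3 : ∑ i : Fin s, (1 : ℕ) < ∑ i, m i := by
            apply Finset.sum_lt_sum (fun i _ => hm.1 i)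
            refine ⟨i, Finset.mem_univ i, ?_⟩
            have := hm.1 i
            omega
          omega
    _ ≤ _ := Finset.card_insert_le _ _

theorem card_M2_ge (k : ℕ) (hk : 0 < k) :
    (2 * k - 1).choose s ≤ (M2 s (2 * k)).card + s * k.choose s + (k + s).choose s := by
  classical
  rw [← card_Smp s (2 * k - 1), ← card_Smp s (k + s)]
  have hB : ∀ i : Fin s, ((Smp s (2 * k - 1)).filter (fun m => k ≤ m i)).card ≤ k.choose s := by
    intro i
    rw [← card_Smp]
    apply Finset.card_le_card_of_injOn (fun m => Function.update m i (m i - (k - 1)))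
    · intro m hm
      rw [Finset.mem_coe, Finset.mem_filter, mem_Smp] at hm
      rw [Finset.mem_coe, mem_Smp]
      refine ⟨?_, ?_⟩
      · intro j
        show 1 ≤ Function.update m i (m i - (k - 1)) j
        by_cases hj : j = i
        · subst hj
          rw [Function.update_self]
          have := hm.2
          omega
        · rw [Function.update_of_ne hj]
          exact hm.1.1 j
      · have h1 := Finset.sum_update_of_mem (Finset.mem_univ i) m (m i - (k - 1))
        rw [h1]
        have h2 := Finset.add_sum_erase Finset.univ m (Finset.mem_univ i)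
        rw [← Finset.sdiff_singleton_eq_erase] at h2
        have := hm.2
        have := hm.1.2
        omega
    · intro m hm m' hm' heq
      rw [Finset.mem_coe, Finset.mem_filter, mem_Smp] at hm hm'
      simp only at heq
      funext j
      by_cases hj : j = i
      · subst hj
        have := congrFun heq j
        rw [Function.update_self, Function.update_self] at this
        have := hm.2
        have := hm'.2
        omega
      · have := congrFun heq j
        rwa [Function.update_of_ne hj, Function.update_of_ne hj] at this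
  have hsub : Smp s (2 * k - 1) ⊆ (M2 s (2 * k) ∪ (Finset.univ : Finset (Fin s)).biUnion
      (fun i => (Smp s (2 * k - 1)).filter (fun m => k ≤ m i))) ∪ Smp s (k + s) := by
    intro m hm
    have hm0 := hm
    rw [mem_Smp] at hm
    rw [Finset.mem_union, Finset.mem_union, Finset.mem_biUnion]
    by_cases h1 : ∑ i, m i ≤ k + s
    · right
      rw [mem_Smp]
      exact ⟨hm.1, h1⟩
    · left
      by_cases h2 : ∃ i, k ≤ m i
      · right
        obtain ⟨i, hi⟩ := h2
        exact ⟨i, Finset.mem_univ i, Finset.mem_filter.mpr ⟨hm0, hi⟩⟩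
      · left
        push Not at h1 h2
        unfold M2
        rw [Finset.mem_filter, Fintype.mem_piFinset]
        refine ⟨fun i => Finset.mem_Icc.mpr ⟨hm.1 i, ?_⟩, by omega, fun i => ?_, by omega⟩
        · have := h2 i
          omega
        · have := h2 i
          omega
  refine (Finset.card_le_card hsub).trans ?_
  refine (Finset.card_union_le _ _).trans ?_
  apply Nat.add_le_add_right
  refine (Finset.card_union_le _ _).trans ?_
  apply Nat.add_le_add_left
  refine Finset.card_biUnion_le.trans ?_
  refine (Finset.sum_le_sum (fun i _ => hB i)).trans ?_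
  simp

theorem tendsto_choose_div (s : ℕ) (u : ℕ → ℕ) (hu : Tendsto u atTop atTop) {ρ : ℝ}
    (hρ : Tendsto (fun k : ℕ => (u k : ℝ) / (2 * k : ℕ)) atTop (𝓝 ρ)) :
    Tendsto (fun k : ℕ => ((u k).choose s : ℝ) / ((2 * k : ℕ) : ℝ) ^ s) atTop
      (𝓝 (ρ ^ s / s.factorial)) := by
  have h1 : Tendsto (fun n : ℕ => (n.choose s : ℝ) / (n : ℝ) ^ s) atTop
      (𝓝 (1 / (s.factorial : ℝ))) := by
    have h2 := isEquivalent_choose s
    have h3 : ∀ᶠ n : ℕ in atTop, ((n : ℝ) ^ s / (s.factorial : ℝ)) ≠ 0 := by
      filter_upwards [eventually_gt_atTop 0] with n hn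
      have : (0:ℝ) < n := by exact_mod_cast hn
      positivity
    have h4 := (Asymptotics.isEquivalent_iff_tendsto_one h3).mp h2
    have h5 := h4.mul_const (1 / (s.factorial : ℝ))
    rw [one_mul] at h5
    refine h5.congr' ?_
    filter_upwards [eventually_gt_atTop 0] with n hn
    have : (0:ℝ) < n := by exact_mod_cast hn
    have hf : (0:ℝ) < s.factorial := by exact_mod_cast s.factorial_pos
    simp only [Pi.div_apply]
    field_simp
  have h6 := (h1.comp hu).mul (hρ.pow s)
  have h7 : 1 / (s.factorial : ℝ) * ρ ^ s = ρ ^ s / s.factorial := by ring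
  rw [h7] at h6
  refine h6.congr' ?_
  filter_upwards [hu.eventually_gt_atTop 0] with k hk
  have : (0:ℝ) < u k := by exact_mod_cast hk
  simp only [Function.comp]
  rw [div_pow]
  field_simp

end Pool.Agent.Work.MP_122e00_nt

end

section

/-!
The proportion `rho s k`: multiplicativity and values at prime powers.
-/

namespace Pool.Agent.Work.MP_122e00_nt

open Finset

variable {s : ℕ}

theorem rho_mul {m n : ℕ} (h : Nat.Coprime m n) : rho s (m * n) = rho s m * rho s n := by
  unfold rho
  have hcard : Nat.card {c : Fin s → ZMod (m * n) // ∏ i, c i = 0} =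
      Nat.card {c : Fin s → ZMod m // ∏ i, c i = 0} *
      Nat.card {c : Fin s → ZMod n // ∏ i, c i = 0} := by
    rw [← Nat.card_prod]
    apply Nat.card_congr
    let e := ZMod.chineseRemainder h
    refine ⟨fun c => (⟨fun i => (e (c.1 i)).1, ?_⟩, ⟨fun i => (e (c.1 i)).2, ?_⟩),
      fun x => ⟨fun i => e.symm (x.1.1 i, x.2.1 i), ?_⟩, ?_, ?_⟩
    · have h1 : e (∏ i, c.1 i) = 0 := by rw [c.2, map_zero]
      rw [map_prod] at h1
      have h2 := congrArg Prod.fst h1
      rwa [Prod.fst_prod] at h2
    · have h1 : e (∏ i, c.1 i) = 0 := by rw [c.2, map_zero]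
      rw [map_prod] at h1
      have h2 := congrArg Prod.snd h1
      rwa [Prod.snd_prod] at h2
    · rw [← map_prod]
      have h1 : (∏ i, ((x.1.1 i, x.2.1 i) : ZMod m × ZMod n)) = 0 := by
        apply Prod.ext
        · rw [Prod.fst_prod]
          exact x.1.2
        · rw [Prod.snd_prod]
          exact x.2.2
      rw [h1, map_zero]
    · intro c
      apply Subtype.ext
      funext i
      simp
    · rintro ⟨x, y⟩
      apply Prod.ext
      · apply Subtype.ext
        funext i
        simp
      · apply Subtype.ext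
        funext i
        simp
  rw [hcard]
  push_cast
  rw [mul_pow, mul_div_mul_comm]

theorem rho_one : rho s 1 = 1 := by
  unfold rho
  have : Nat.card {c : Fin s → ZMod 1 // ∏ i, c i = 0} = 1 := by
    rw [Nat.card_eq_one_iff_unique]
    constructor
    · constructor
      intro a b
      apply Subtype.ext
      funext i
      exact Subsingleton.elim _ _
    · exact ⟨⟨fun _ => 0, Subsingleton.elim _ _⟩⟩
  rw [this]
  simp

theorem card_sum_eq (s i j : ℕ) (hs : 1 ≤ s) (hij : i < j) :
    ((Fintype.piFinset (fun _ : Fin s => Finset.range j)).filter (fun e => ∑ l, e l = i)).card =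
      (i + s - 1).choose (s - 1) := by
  have h1 := Finset.card_filter_add_card_filter_not (s := Smp s (i + s))
    (p := fun m => ∑ l, m l = i + s)
  have h2 : (Smp s (i + s)).filter (fun m => ¬ ∑ l, m l = i + s) = Smp s (i + s - 1) := by
    ext m
    rw [Finset.mem_filter, mem_Smp, mem_Smp]
    constructor
    · rintro ⟨⟨h3, h4⟩, h5⟩
      exact ⟨h3, by omega⟩
    · rintro ⟨h3, h4⟩
      exact ⟨⟨h3, by omega⟩, by omega⟩
  have h3 : ((Fintype.piFinset (fun _ : Fin s => Finset.range j)).filter
      (fun e => ∑ l, e l = i)).card =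
      ((Smp s (i + s)).filter (fun m => ∑ l, m l = i + s)).card := by
    apply Finset.card_bij (fun e _ => fun l => e l + 1)
    · intro e he
      rw [Finset.mem_filter] at he
      rw [Finset.mem_filter, mem_Smp]
      have h4 : ∑ l, (e l + 1) = i + s := by
        rw [Finset.sum_add_distrib, he.2]
        simp
      exact ⟨⟨fun l => by omega, h4.le⟩, h4⟩
    · intro e _ e' _ h4
      funext l
      have : e l + 1 = e' l + 1 := congrFun h4 l
      omega
    · intro m hm
      rw [Finset.mem_filter, mem_Smp] at hm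
      refine ⟨fun l => m l - 1, ?_, ?_⟩
      · rw [Finset.mem_filter, Fintype.mem_piFinset]
        have h4 : ∑ l, (m l - 1) + ∑ l : Fin s, 1 = ∑ l, m l := by
          rw [← Finset.sum_add_distrib]
          apply Finset.sum_congr rfl
          intro l _
          have := hm.1.1 l
          omega
        have h5 : ∑ l : Fin s, 1 = s := by simp
        have h6 : ∑ l, (m l - 1) = i := by
          have := hm.2
          omega
        refine ⟨fun l => ?_, h6⟩
        rw [Finset.mem_range]
        have h7 : m l - 1 ≤ ∑ l, (m l - 1) := Finset.single_le_sum (f := fun l => m l - 1)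
          (fun i _ => Nat.zero_le _) (Finset.mem_univ l)
        omega
      · funext l
        have := hm.1.1 l
        show m l - 1 + 1 = m l
        omega
  rw [h2, card_Smp, card_Smp, ← h3] at h1
  have h4 : (i + s).choose s = (i + s - 1).choose (s - 1) + (i + s - 1).choose s := by
    obtain ⟨s', rfl⟩ : ∃ s', s = s' + 1 := ⟨s - 1, by omega⟩
    have e1 : i + (s' + 1) = (i + s') + 1 := by omega
    rw [e1, Nat.choose_succ_succ, Nat.add_sub_cancel, Nat.add_sub_cancel]
  omega

/-- integers of `[1, p^j]` with exact valuation `e` -/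
theorem card_val_eq (p : ℕ) (hp : p.Prime) (j e : ℕ) (he : e < j) :
    (((Finset.Icc 1 (p ^ j)).filter (fun n => n.factorization p = e)).card : ℝ) =
      (p : ℝ) ^ j * ((1 - 1 / (p : ℝ)) * (1 / (p : ℝ) ^ e)) := by
  have hp0 : (0:ℝ) < p := by exact_mod_cast hp.pos
  have h0 : ∀ i, i ≤ j → ((Finset.Icc 1 (p ^ j)).filter
      (fun n => i ≤ n.factorization p)).card = p ^ (j - i) := by
    intro i hi
    have h1 := Nat.Ioc_filter_dvd_card_eq_div (p ^ j) (p ^ i)
    rw [Nat.pow_div hi hp.pos] at h1
    rw [← h1]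
    congr 1
    ext n
    rw [Finset.mem_filter, Finset.mem_filter, Finset.mem_Icc, Finset.mem_Ioc]
    constructor
    · rintro ⟨h2, h3⟩
      refine ⟨⟨by omega, h2.2⟩, ?_⟩
      rwa [hp.pow_dvd_iff_le_factorization (by omega)]
    · rintro ⟨h2, h3⟩
      refine ⟨⟨by omega, h2.2⟩, ?_⟩
      rwa [hp.pow_dvd_iff_le_factorization (by omega)] at h3
  have h1 : ((Finset.Icc 1 (p ^ j)).filter (fun n => n.factorization p = e)).card +
      ((Finset.Icc 1 (p ^ j)).filter (fun n => e + 1 ≤ n.factorization p)).card =
      ((Finset.Icc 1 (p ^ j)).filter (fun n => e ≤ n.factorization p)).card := by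
    rw [← Finset.card_union_of_disjoint]
    · congr 1
      ext n
      rw [Finset.mem_union, Finset.mem_filter, Finset.mem_filter, Finset.mem_filter]
      constructor
      · rintro (⟨h2, h3⟩ | ⟨h2, h3⟩)
        · exact ⟨h2, h3.ge⟩
        · exact ⟨h2, by omega⟩
      · rintro ⟨h2, h3⟩
        rcases Nat.eq_or_lt_of_le h3 with h4 | h4
        · exact Or.inl ⟨h2, h4.symm⟩
        · exact Or.inr ⟨h2, h4⟩
    · rw [Finset.disjoint_left]
      intro n hn hn'
      rw [Finset.mem_filter] at hn hn'
      omega
  rw [h0 (e + 1) (by omega), h0 e (by omega)] at h1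
  have h2 : (((Finset.Icc 1 (p ^ j)).filter (fun n => n.factorization p = e)).card : ℝ) +
      (p : ℝ) ^ (j - (e + 1)) = (p : ℝ) ^ (j - e) := by exact_mod_cast h1
  have h3 : (p : ℝ) ^ (j - e) = (p : ℝ) ^ j / (p : ℝ) ^ e := by
    rw [pow_sub₀ _ hp0.ne' (by omega)]
    rfl
  have h4 : (p : ℝ) ^ (j - (e + 1)) = (p : ℝ) ^ j / (p : ℝ) ^ (e + 1) := by
    rw [pow_sub₀ _ hp0.ne' (by omega)]
    rfl
  rw [h3, h4] at h2
  have h5 : (((Finset.Icc 1 (p ^ j)).filter (fun n => n.factorization p = e)).card : ℝ) =
      (p : ℝ) ^ j / (p : ℝ) ^ e - (p : ℝ) ^ j / (p : ℝ) ^ (e + 1) := by linarith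
  rw [h5, pow_succ]
  field_simp

end Pool.Agent.Work.MP_122e00_nt

end

section

/-!
The proportion `rho s (p^j)`, in closed form.
-/

namespace Pool.Agent.Work.MP_122e00_nt

open Finset

variable {s : ℕ}

/-- probability that `p ^ j` divides a product of `s` independent random integers -/
noncomputable def locProb (s p j : ℕ) : ℝ :=
  1 - (1 - 1 / (p : ℝ)) ^ s * ∑ i ∈ Finset.range j, ((i + s - 1).choose (s - 1) : ℝ) / (p : ℝ) ^ i

theorem rho_prime_pow (hs : 1 ≤ s) (p : ℕ) (hp : p.Prime) (j : ℕ) :
    rho s (p ^ j) = locProb s p j := by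
  classical
  have hp0 : (0:ℝ) < p := by exact_mod_cast hp.pos
  have hq : 0 < p ^ j := Nat.pow_pos hp.pos
  have : NeZero (p ^ j) := ⟨hq.ne'⟩
  set B : Finset (Fin s → ℕ) := Fintype.piFinset (fun _ : Fin s => Finset.Icc 1 (p ^ j)) with hB
  have hBpos : ∀ n ∈ B, ∀ l, n l ≠ 0 := by
    intro n hn l
    have := (Finset.mem_Icc.mp ((Fintype.mem_piFinset.mp hn) l)).1
    omega
  -- representatives
  have h1 : Nat.card {c : Fin s → ZMod (p ^ j) // ∏ i, c i = 0} =
      (B.filter (fun n => p ^ j ∣ ∏ l, n l)).card := by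
    rw [Nat.card_eq_fintype_card, Fintype.card_subtype]
    symm
    apply Finset.card_bij (fun n _ => fun l => ((n l : ℕ) : ZMod (p ^ j)))
    · intro n hn
      rw [Finset.mem_filter] at hn
      rw [Finset.mem_filter]
      refine ⟨Finset.mem_univ _, ?_⟩
      rw [← Nat.cast_prod, ZMod.natCast_eq_zero_iff]
      exact hn.2
    · intro n hn n' hn' heq
      rw [Finset.mem_filter, hB, Fintype.mem_piFinset] at hn hn'
      funext l
      have h2 : ((n l : ℕ) : ZMod (p ^ j)) = ((n' l : ℕ) : ZMod (p ^ j)) := congrFun heq l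
      rw [ZMod.natCast_eq_natCast_iff] at h2
      have h3 := Finset.mem_Icc.mp (hn.1 l)
      have h4 := Finset.mem_Icc.mp (hn'.1 l)
      by_contra hne
      rcases lt_or_gt_of_ne hne with h | h
      · have := (Nat.modEq_iff_dvd' h.le).mp h2
        have := Nat.le_of_dvd (by omega) this
        omega
      · have := (Nat.modEq_iff_dvd' h.le).mp h2.symm
        have := Nat.le_of_dvd (by omega) this
        omega
    · intro c hc
      rw [Finset.mem_filter] at hc
      have hcast : ∀ l, (((1 + (c l - 1).val : ℕ)) : ZMod (p ^ j)) = c l := by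
        intro l
        rw [Nat.cast_add, ZMod.natCast_zmod_val, Nat.cast_one]
        ring
      refine ⟨fun l => 1 + (c l - 1).val, ?_, ?_⟩
      · rw [Finset.mem_filter, hB, Fintype.mem_piFinset]
        refine ⟨fun l => ?_, ?_⟩
        · rw [Finset.mem_Icc]
          have := ZMod.val_lt (c l - 1)
          omega
        · rw [← ZMod.natCast_eq_zero_iff, Nat.cast_prod]
          simp_rw [hcast]
          exact hc.2
      · funext l
        exact hcast l
  have hcardB : B.card = (p ^ j) ^ s := by
    rw [hB, Fintype.card_piFinset]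
    simp
  have h2 := Finset.card_filter_add_card_filter_not (s := B) (p := fun n => p ^ j ∣ ∏ l, n l)
  rw [hcardB, ← h1] at h2
  -- the complement
  have hdvd : ∀ n ∈ B, (¬ p ^ j ∣ ∏ l, n l) ↔ ∑ l, (n l).factorization p < j := by
    intro n hn
    have hne : ∏ l, n l ≠ 0 := Finset.prod_ne_zero_iff.mpr (fun l _ => hBpos n hn l)
    rw [hp.pow_dvd_iff_le_factorization hne,
      Nat.factorization_prod (fun l _ => hBpos n hn l), Finsupp.finsetSum_apply, not_le]
  set E : Finset (Fin s → ℕ) := (Fintype.piFinset (fun _ : Fin s => Finset.range j)).filter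
    (fun e => ∑ l, e l < j) with hE
  have h3 : (B.filter (fun n => ¬ p ^ j ∣ ∏ l, n l)).card =
      ∑ e ∈ E, ∏ l, ((Finset.Icc 1 (p ^ j)).filter
        (fun n => n.factorization p = e l)).card := by
    have hmaps : ∀ n ∈ B.filter (fun n => ¬ p ^ j ∣ ∏ l, n l),
        (fun l => (n l).factorization p) ∈ E := by
      intro n hn
      rw [Finset.mem_filter] at hn
      have h4 := (hdvd n hn.1).mp hn.2
      rw [hE, Finset.mem_filter, Fintype.mem_piFinset]
      refine ⟨fun l => ?_, h4⟩
      rw [Finset.mem_range]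
      exact lt_of_le_of_lt (Finset.single_le_sum (f := fun l => (n l).factorization p)
        (fun i _ => Nat.zero_le _) (Finset.mem_univ l)) h4
    rw [Finset.card_eq_sum_card_fiberwise hmaps]
    apply Finset.sum_congr rfl
    intro e he
    rw [← Fintype.card_piFinset]
    congr 1
    ext n
    rw [Finset.mem_filter, Finset.mem_filter]
    rw [hE, Finset.mem_filter] at he
    constructor
    · rintro ⟨⟨h4, h5⟩, h6⟩
      rw [Fintype.mem_piFinset]
      intro l
      rw [Finset.mem_filter]
      exact ⟨(Fintype.mem_piFinset.mp h4) l, congrFun h6 l⟩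
    · intro h4
      rw [Fintype.mem_piFinset] at h4
      have h5 : n ∈ B := by
        rw [hB, Fintype.mem_piFinset]
        intro l
        exact (Finset.mem_filter.mp (h4 l)).1
      have h6 : (fun l => (n l).factorization p) = e := by
        funext l
        exact (Finset.mem_filter.mp (h4 l)).2
      refine ⟨⟨h5, ?_⟩, h6⟩
      rw [hdvd n h5]
      have h7 : ∑ l, (n l).factorization p = ∑ l, e l :=
        Finset.sum_congr rfl (fun l _ => congrFun h6 l)
      rw [h7]
      exact he.2
  have h4 : ((B.filter (fun n => ¬ p ^ j ∣ ∏ l, n l)).card : ℝ) =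
      ((p : ℝ) ^ j) ^ s * ((1 - 1 / (p : ℝ)) ^ s *
        ∑ i ∈ Finset.range j, ((i + s - 1).choose (s - 1) : ℝ) / (p : ℝ) ^ i) := by
    rw [h3]
    push_cast
    have e1 : ∀ e ∈ E, ∏ l, (((Finset.Icc 1 (p ^ j)).filter
        (fun n => n.factorization p = e l)).card : ℝ) =
        ((p : ℝ) ^ j) ^ s * ((1 - 1 / (p : ℝ)) ^ s * (1 / (p : ℝ) ^ (∑ l, e l))) := by
      intro e he
      rw [hE, Finset.mem_filter, Fintype.mem_piFinset] at he
      have e2 : ∀ l, (((Finset.Icc 1 (p ^ j)).filter
          (fun n => n.factorization p = e l)).card : ℝ) =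
          (p : ℝ) ^ j * ((1 - 1 / (p : ℝ)) * (1 / (p : ℝ) ^ (e l))) := fun l =>
        card_val_eq p hp j (e l) (Finset.mem_range.mp (he.1 l))
      simp_rw [e2]
      rw [Finset.prod_mul_distrib, Finset.prod_mul_distrib, Finset.prod_const, Finset.prod_const,
        Finset.card_univ, Fintype.card_fin, Finset.prod_div_distrib, Finset.prod_const_one,
        Finset.prod_pow_eq_pow_sum]
    rw [Finset.sum_congr rfl e1, ← Finset.mul_sum, ← Finset.mul_sum]
    congr 2
    have hmaps : ∀ e ∈ E, ∑ l, e l ∈ Finset.range j := by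
      intro e he
      rw [hE, Finset.mem_filter] at he
      rw [Finset.mem_range]
      exact he.2
    rw [← Finset.sum_fiberwise_of_maps_to hmaps]
    apply Finset.sum_congr rfl
    intro i hi
    rw [Finset.mem_range] at hi
    have e3 : ∑ e ∈ E with ∑ l, e l = i, (1 / (p : ℝ) ^ (∑ l, e l)) =
        ∑ e ∈ E with ∑ l, e l = i, (1 / (p : ℝ) ^ i) := by
      apply Finset.sum_congr rfl
      intro e he
      rw [(Finset.mem_filter.mp he).2]
    have e4 : (E.filter (fun e => ∑ l, e l = i)) =
        (Fintype.piFinset (fun _ : Fin s => Finset.range j)).filter (fun e => ∑ l, e l = i) := by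
      rw [hE, Finset.filter_filter]
      apply Finset.filter_congr
      intro e _
      constructor
      · rintro ⟨_, h5⟩
        exact h5
      · intro h5
        exact ⟨by omega, h5⟩
    rw [e3, Finset.sum_const, nsmul_eq_mul, e4, card_sum_eq s i j hs hi]
    ring
  have h5 : (Nat.card {c : Fin s → ZMod (p ^ j) // ∏ i, c i = 0} : ℝ) +
      ((B.filter (fun n => ¬ p ^ j ∣ ∏ l, n l)).card : ℝ) = ((p : ℝ) ^ j) ^ s := by
    exact_mod_cast h2
  unfold rho locProb
  rw [h4] at h5
  have h6 : ((p ^ j : ℕ) : ℝ) ^ s = ((p : ℝ) ^ j) ^ s := by push_cast; rfl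
  rw [h6, div_eq_iff (by positivity)]
  linarith

end Pool.Agent.Work.MP_122e00_nt

end

section

/-!
The singular series as an Euler product.
-/

namespace Pool.Agent.Work.MP_122e00_nt

open Finset Filter Topology ArithmeticFunction
open scoped ArithmeticFunction.zeta ArithmeticFunction.Moebius

variable {s : ℕ}

/-- the local factor at `p` of the singular series, `ν` the exponent of `p` in the shift -/
noncomputable def locFactor (s p ν : ℕ) : ℝ :=
  ∑ j ∈ Finset.range (ν + 1), (p : ℝ) ^ j * (locProb s p j ^ 2 - locProb s p (j + 1) ^ 2)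

theorem isMultiplicative_Fh (h : ℕ) : (Fh h).IsMultiplicative := by
  constructor
  · rw [Fh_apply, if_pos (one_dvd h)]
    simp
  · intro m n hmn
    rw [Fh_apply, Fh_apply, Fh_apply]
    by_cases h1 : m ∣ h
    · by_cases h2 : n ∣ h
      · rw [if_pos h1, if_pos h2, if_pos (hmn.mul_dvd_of_dvd_of_dvd h1 h2)]
        push_cast
        ring
      · rw [if_neg h2, if_neg (fun h3 => h2 ((dvd_mul_left n m).trans h3)), mul_zero]
    · rw [if_neg h1, if_neg (fun h3 => h1 ((dvd_mul_right m n).trans h3)), zero_mul]

theorem isMultiplicative_Gh (h : ℕ) : (Gh h).IsMultiplicative := by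
  unfold Gh
  exact (isMultiplicative_moebius.intCast).mul (isMultiplicative_Fh h)

theorem rho_nonneg (s k : ℕ) : 0 ≤ rho s k := by
  unfold rho
  positivity

theorem rho_le (s k : ℕ) (hk : k ≠ 0) : rho s k ≤ ((Nat.finMulAntidiag s k).card : ℝ) / k := by
  have : NeZero k := ⟨hk⟩
  have h1 := tendsto_Asum (s := s) k (fun _ => 0) (fun _ => 1) (fun _ => le_rfl)
    (fun _ => zero_le_one)
  simp only [sub_zero, Finset.prod_const_one, mul_one] at h1
  have h2 : Tendsto (fun X : ℝ => ((Nat.finMulAntidiag s k).card : ℝ) / k *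
      ((1 + Real.log X) / Real.log X) ^ s) atTop
      (𝓝 (((Nat.finMulAntidiag s k).card : ℝ) / k * (0 + 1) ^ s)) := by
    apply Tendsto.const_mul
    apply Tendsto.pow
    have h3 : Tendsto (fun X : ℝ => 1 / Real.log X + 1) atTop (𝓝 (0 + 1)) := by
      apply Tendsto.add _ tendsto_const_nhds
      exact tendsto_const_nhds.div_atTop Real.tendsto_log_atTop
    refine h3.congr' ?_
    filter_upwards [eventually_gt_atTop 1] with X hX
    have : 0 < Real.log X := Real.log_pos hX
    field_simp
  rw [zero_add, one_pow, mul_one] at h2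
  apply le_of_tendsto_of_tendsto h1 h2
  filter_upwards [eventually_gt_atTop 1] with X hX
  have hlog : 0 < Real.log X := Real.log_pos hX
  rw [div_pow, mul_div_assoc']
  apply div_le_div_of_nonneg_right _ (by positivity)
  exact Asum_le k hk _ _ (fun _ => zero_le_one) (fun _ => le_rfl) hX.le

theorem summable_term (s h : ℕ) (hh : h ≠ 0) :
    Summable (fun k : ℕ => ‖Gh h k * rho s k ^ 2‖) := by
  refine Summable.of_nonneg_of_le (fun _ => norm_nonneg _) (fun k => ?_)
    ((summable_dom s).mul_left (∑ g ∈ h.divisors, (g : ℝ)))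
  rcases Nat.eq_zero_or_pos k with rfl | hk
  · simp
  rw [norm_mul, Real.norm_eq_abs, Real.norm_eq_abs, abs_of_nonneg (sq_nonneg (rho s k))]
  have h1 := rho_le s k hk.ne'
  have h2 := rho_nonneg s k
  have h3 := abs_Gh_le h k hh
  calc |Gh h k| * rho s k ^ 2 ≤ (∑ g ∈ h.divisors, (g : ℝ)) *
        (((Nat.finMulAntidiag s k).card : ℝ) / k) ^ 2 := by gcongr
    _ = _ := by rw [div_pow]

theorem Fh_prime_pow (h : ℕ) (hh : h ≠ 0) (p : ℕ) (hp : p.Prime) (j : ℕ) :
    Fh h (p ^ j) = if j ≤ h.factorization p then (p : ℝ) ^ j else 0 := by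
  rw [Fh_apply]
  by_cases hj : j ≤ h.factorization p
  · rw [if_pos hj, if_pos ((hp.pow_dvd_iff_le_factorization hh).mpr hj)]
    push_cast
    rfl
  · rw [if_neg hj, if_neg (fun h1 => hj ((hp.pow_dvd_iff_le_factorization hh).mp h1))]

theorem sum_Gh_prime_pow (h p : ℕ) (hp : p.Prime) (j : ℕ) :
    ∑ i ∈ Finset.range (j + 1), Gh h (p ^ i) = Fh h (p ^ j) := by
  rw [← sum_Gh, Nat.sum_divisors_prime_pow hp]

theorem abel (G F R : ℕ → ℝ) (h : ∀ j, ∑ i ∈ Finset.range (j + 1), G i = F j) (n : ℕ) :
    ∑ e ∈ Finset.range (n + 1), G e * R e =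
      ∑ j ∈ Finset.range n, F j * (R j - R (j + 1)) + F n * R n := by
  induction n with
  | zero =>
    have := h 0
    simp at this
    simp [this]
  | succ n ih =>
    rw [Finset.sum_range_succ, ih, Finset.sum_range_succ _ n]
    have h1 := h (n + 1)
    rw [Finset.sum_range_succ, h n] at h1
    have h2 : G (n + 1) = F (n + 1) - F n := by linarith
    rw [h2]
    ring

theorem local_tsum (hs : 1 ≤ s) (h : ℕ) (hh : h ≠ 0) (p : ℕ) (hp : p.Prime) :
    ∑' e : ℕ, Gh h (p ^ e) * rho s (p ^ e) ^ 2 = locFactor s p (h.factorization p) := by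
  have hsum := sum_Gh_prime_pow h p hp
  have hzero : ∀ e, e ∉ Finset.range (h.factorization p + 2) →
      Gh h (p ^ e) * rho s (p ^ e) ^ 2 = 0 := by
    intro e he
    rw [Finset.mem_range, not_lt] at he
    obtain ⟨e', rfl⟩ : ∃ e', e = e' + 1 := ⟨e - 1, by omega⟩
    have h1 := hsum (e' + 1)
    rw [Finset.sum_range_succ, hsum e', Fh_prime_pow h hh p hp, Fh_prime_pow h hh p hp,
      if_neg (by omega), if_neg (by omega)] at h1
    have : Gh h (p ^ (e' + 1)) = 0 := by linarith
    rw [this, zero_mul]
  rw [tsum_eq_sum hzero]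
  have h1 := abel (fun e => Gh h (p ^ e)) (fun e => Fh h (p ^ e)) (fun e => rho s (p ^ e) ^ 2)
    hsum (h.factorization p + 1)
  rw [h1, Fh_prime_pow h hh p hp (h.factorization p + 1), if_neg (by omega), zero_mul, add_zero]
  unfold locFactor
  apply Finset.sum_congr rfl
  intro j hj
  rw [Finset.mem_range] at hj
  rw [Fh_prime_pow h hh p hp j, if_pos (by omega), rho_prime_pow hs p hp, rho_prime_pow hs p hp]

theorem Csing_eq (hs : 1 ≤ s) (h : ℕ) (hh : h ≠ 0) :
    Csing s h = ∏' p : Nat.Primes, locFactor s p (h.factorization p) := by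
  have h1 := EulerProduct.eulerProduct_tprod (f := fun k => Gh h k * rho s k ^ 2)
    (by
      rw [rho_one, (isMultiplicative_Gh h).map_one]
      norm_num)
    (by
      intro m n hmn
      rw [(isMultiplicative_Gh h).map_mul_of_coprime hmn, rho_mul hmn]
      ring)
    (summable_term s h hh)
    (by simp)
  unfold Csing
  rw [← h1]
  congr 1
  funext p
  exact local_tsum hs h hh p p.2

end Pool.Agent.Work.MP_122e00_nt

end
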