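import Mathlib
import Pool.Agent.Work.MP_122e00_nt.Two.Stmts
import Pool.Agent.Work.MP_122e00_nt.Count
import Pool.Agent.Work.MP_122e00_nt.Bd.B37

/-! Bundle of small proof modules (one section per former module). -/

section

set_option autoImplicit false

/-! Item L2: logarithmic sums over all tuples with a divisibility condition on the product. -/

namespace Pool.Agent.Work.MP_122e00_nt.Two

open Finset Filter Topology

namespace IL2

theorem hs_zero (k : ℕ) (c : ZMod k) : hs k c 0 = 0 := by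
  unfold hs
  simp

theorem sum_Icc_hs (k : ℕ) (c : ZMod k) (n : ℕ) :
    ∑ a ∈ Finset.Icc 1 n, (if ((a : ℕ) : ZMod k) = c then (1 / (a : ℝ)) else 0) = hs k c n := by
  have h := sum_Ioc_eq_hs k c (Nat.zero_le n)
  rw [hs_zero, sub_zero] at h
  rw [← h]
  rfl

theorem tup_eq {s : ℕ} (k : ℕ) [NeZero k] (X : ℝ) :
    (∑ a ∈ tup s X, if k ∣ ∏ i, a i then ∏ i, (1 / (a i : ℝ)) else 0) =
      ∑ c : {c : Fin s → ZMod k // ∏ i, c i = 0}, ∏ i, hs k (c.1 i) ⌊X⌋₊ := by
  classical
  have h1 : ∀ c : Fin s → ZMod k, ∏ i, hs k (c i) ⌊X⌋₊ =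
      ∑ a ∈ tup s X, ∏ i, (if ((a i : ℕ) : ZMod k) = c i then (1 / (a i : ℝ)) else 0) := by
    intro c
    have h2 : ∀ i, hs k (c i) ⌊X⌋₊ =
        ∑ a ∈ Finset.Icc 1 ⌊X⌋₊,
          (if ((a : ℕ) : ZMod k) = c i then (1 / (a : ℝ)) else 0) := fun i =>
      (sum_Icc_hs k (c i) _).symm
    simp_rw [h2]
    rw [Finset.prod_univ_sum]
    rfl
  simp_rw [h1]
  rw [Finset.sum_comm]
  apply Finset.sum_congr rfl
  intro a _
  by_cases hk : k ∣ ∏ i, a i
  · rw [if_pos hk]
    have hc0 : ∏ i, ((a i : ℕ) : ZMod k) = 0 := by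
      rw [← Nat.cast_prod, ZMod.natCast_eq_zero_iff]
      exact hk
    rw [Finset.sum_eq_single (⟨fun i => ((a i : ℕ) : ZMod k), hc0⟩ :
      {c : Fin s → ZMod k // ∏ i, c i = 0})]
    · apply Finset.prod_congr rfl
      intro i _
      simp
    · intro c _ hc
      have : ∃ i, ((a i : ℕ) : ZMod k) ≠ c.1 i := by
        by_contra hcon
        push Not at hcon
        apply hc
        apply Subtype.ext
        funext i
        exact (hcon i).symm
      obtain ⟨i, hi⟩ := this
      exact Finset.prod_eq_zero (Finset.mem_univ i) (if_neg hi)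
    · intro hc
      exact absurd (Finset.mem_univ _) hc
  · rw [if_neg hk]
    symm
    apply Finset.sum_eq_zero
    intro c _
    have : ∃ i, ((a i : ℕ) : ZMod k) ≠ c.1 i := by
      by_contra hcon
      push Not at hcon
      apply hk
      rw [← ZMod.natCast_eq_zero_iff, Nat.cast_prod]
      rw [← c.2]
      exact Finset.prod_congr rfl (fun i _ => hcon i)
    obtain ⟨i, hi⟩ := this
    exact Finset.prod_eq_zero (Finset.mem_univ i) (if_neg hi)

end IL2

open IL2 in
theorem prfL2 : claimL2 := by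
  intro s k hk
  haveI : NeZero k := ⟨hk⟩
  have h0 : ∀ c : ZMod k, Tendsto (fun X : ℝ => hs k c ⌊X⌋₊ / Real.log X) atTop
      (𝓝 (1 / (k : ℝ))) := by
    intro c
    have := tendsto_hs k c (zero_le_one (α := ℝ))
    simpa using this
  have h1 : Tendsto (fun X : ℝ => ∑ c : {c : Fin s → ZMod k // ∏ i, c i = 0},
      ∏ i, (hs k (c.1 i) ⌊X⌋₊ / Real.log X))
      atTop (𝓝 (∑ _c : {c : Fin s → ZMod k // ∏ i, c i = 0}, ∏ _i : Fin s, (1 / (k : ℝ)))) := by
    apply tendsto_finsetSum
    intro c _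
    apply tendsto_finsetProd
    intro i _
    exact h0 _
  have h2 : (∑ _c : {c : Fin s → ZMod k // ∏ i, c i = 0}, ∏ _i : Fin s, (1 / (k : ℝ))) =
      rho s k := by
    rw [Finset.sum_const, Finset.card_univ, ← Nat.card_eq_fintype_card, nsmul_eq_mul]
    unfold rho
    rw [Finset.prod_const, Finset.card_univ, Fintype.card_fin, one_div, inv_pow]
    rfl
  rw [h2] at h1
  refine h1.congr (fun X => ?_)
  rw [tup_eq, Finset.sum_div]
  apply Finset.sum_congr rfl
  intro c _
  rw [Finset.prod_div_distrib, Finset.prod_const, Finset.card_univ, Fintype.card_fin]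

end Pool.Agent.Work.MP_122e00_nt.Two

end

section

set_option autoImplicit false

/-!
# Item L4: pairs of tuples with weights
-/

namespace Pool.Agent.Work.MP_122e00_nt.Two

open Finset Filter Topology MeasureTheory

namespace IL4

/-- tuples with a weight and a divisibility condition -/
noncomputable def Ak {s : ℕ} (k : ℕ) (φ : (Fin s → ℝ) → ℝ) (X : ℝ) : ℝ :=
  ∑ a ∈ tup s X, if k ∣ ∏ i, a i then φ (lg X a) * ∏ i, (1 / (a i : ℝ)) else 0

theorem pos_of_mem_tup {s : ℕ} {X : ℝ} {a : Fin s → ℕ} (ha : a ∈ tup s X) (i : Fin s) :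
    0 < a i := by
  unfold tup at ha
  rw [Fintype.mem_piFinset] at ha
  have := ha i
  rw [Finset.mem_Icc] at this
  omega

theorem PW_eq {s : ℕ} (h : ℕ) (φ ψ : (Fin s → ℝ) → ℝ) (X : ℝ) :
    PW h φ ψ X = ∑' k : ℕ, Gh h k * (Ak k φ X * Ak k ψ X) := by
  have h1 : ∀ a ∈ tup s X, ∀ b ∈ tup s X,
      φ (lg X a) * ψ (lg X b) *
        (Fh h (Nat.gcd (∏ i, a i) (∏ i, b i)) *
          ((∏ i, (1 / (a i : ℝ))) * (∏ i, (1 / (b i : ℝ))))) =
      ∑' k : ℕ, Gh h k * ((if k ∣ ∏ i, a i then φ (lg X a) * ∏ i, (1 / (a i : ℝ)) else 0) *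
        (if k ∣ ∏ i, b i then ψ (lg X b) * ∏ i, (1 / (b i : ℝ)) else 0)) := by
    intro a ha b hb
    have hpa : 0 < ∏ i, a i := Finset.prod_pos (fun i _ => pos_of_mem_tup ha i)
    rw [tsum_eq_sum (s := (Nat.gcd (∏ i, a i) (∏ i, b i)).divisors)]
    · rw [← sum_Gh, Finset.sum_mul, Finset.mul_sum]
      apply Finset.sum_congr rfl
      intro k hk
      have hk' := (Nat.mem_divisors.mp hk).1
      rw [if_pos (hk'.trans (Nat.gcd_dvd_left _ _)), if_pos (hk'.trans (Nat.gcd_dvd_right _ _))]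
      ring
    · intro k hk
      rw [Nat.mem_divisors] at hk
      by_cases h1 : k ∣ ∏ i, a i
      · by_cases h2 : k ∣ ∏ i, b i
        · exact absurd ⟨Nat.dvd_gcd h1 h2, (Nat.gcd_pos_of_pos_left _ hpa).ne'⟩ hk
        · rw [if_neg h2]; ring
      · rw [if_neg h1]; ring
  have hsumm : ∀ a ∈ tup s X, ∀ b ∈ tup s X,
      Summable (fun k : ℕ => Gh h k *
        ((if k ∣ ∏ i, a i then φ (lg X a) * ∏ i, (1 / (a i : ℝ)) else 0) *
        (if k ∣ ∏ i, b i then ψ (lg X b) * ∏ i, (1 / (b i : ℝ)) else 0))) := by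
    intro a ha b hb
    have hpa : 0 < ∏ i, a i := Finset.prod_pos (fun i _ => pos_of_mem_tup ha i)
    apply summable_of_ne_finset_zero (s := (∏ i, a i).divisors)
    intro k hk
    rw [Nat.mem_divisors] at hk
    by_cases h1 : k ∣ ∏ i, a i
    · exact absurd ⟨h1, hpa.ne'⟩ hk
    · rw [if_neg h1]; ring
  unfold PW
  rw [Finset.sum_congr rfl (fun a ha => Finset.sum_congr rfl (fun b hb => h1 a ha b hb))]
  have h2 : ∀ a ∈ tup s X, ∑ b ∈ tup s X,
      ∑' k : ℕ, Gh h k * ((if k ∣ ∏ i, a i then φ (lg X a) * ∏ i, (1 / (a i : ℝ)) else 0) *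
        (if k ∣ ∏ i, b i then ψ (lg X b) * ∏ i, (1 / (b i : ℝ)) else 0)) =
      ∑' k : ℕ, ∑ b ∈ tup s X, Gh h k *
        ((if k ∣ ∏ i, a i then φ (lg X a) * ∏ i, (1 / (a i : ℝ)) else 0) *
        (if k ∣ ∏ i, b i then ψ (lg X b) * ∏ i, (1 / (b i : ℝ)) else 0)) := by
    intro a ha
    exact (Summable.tsum_finsetSum (fun b hb => hsumm a ha b hb)).symm
  rw [Finset.sum_congr rfl h2,
    ← Summable.tsum_finsetSum (fun a ha => summable_sum (fun b hb => hsumm a ha b hb))]
  congr 1
  funext k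
  unfold Ak
  rw [Finset.sum_mul_sum, Finset.mul_sum]
  apply Finset.sum_congr rfl
  intro a _
  rw [Finset.mul_sum]

theorem A0_le {s : ℕ} (k : ℕ) (hk : k ≠ 0) {X : ℝ} (hX : 1 ≤ X) :
    (∑ a ∈ tup s X, if k ∣ ∏ i, a i then ∏ i, (1 / (a i : ℝ)) else 0) ≤
      ((Nat.finMulAntidiag s k).card : ℝ) / k * (1 + Real.log X) ^ s := by
  classical
  have h1 : (∑ a ∈ tup s X, if k ∣ ∏ i, a i then ∏ i, (1 / (a i : ℝ)) else 0) ≤
      ∑ a ∈ tup s X, ∑ κ ∈ Nat.finMulAntidiag s k,
      ∏ i, (if κ i ∣ a i then (1 / (a i : ℝ)) else 0) := by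
    apply Finset.sum_le_sum
    intro a _
    split_ifs with hka
    · obtain ⟨κ, hκ, hκ2⟩ := exists_antidiag_dvd k hk a hka
      have h2 : ∏ i, (1 / (a i : ℝ)) = ∏ i, (if κ i ∣ a i then (1 / (a i : ℝ)) else 0) :=
        Finset.prod_congr rfl (fun i _ => by rw [if_pos (hκ2 i)])
      rw [h2]
      exact Finset.single_le_sum (f := fun κ => ∏ i, (if κ i ∣ a i then (1 / (a i : ℝ)) else 0))
        (fun κ _ => Finset.prod_nonneg (fun i _ => by split_ifs <;> positivity)) hκ
    · exact Finset.sum_nonneg (fun κ _ => Finset.prod_nonneg (fun i _ => by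
        split_ifs <;> positivity))
  refine h1.trans ?_
  rw [Finset.sum_comm]
  have h3 : ∀ κ ∈ Nat.finMulAntidiag s k,
      ∑ a ∈ tup s X, ∏ i, (if κ i ∣ a i then (1 / (a i : ℝ)) else 0) ≤
        1 / (k : ℝ) * (1 + Real.log X) ^ s := by
    intro κ hκ
    have h4 : ∑ a ∈ tup s X, ∏ i, (if κ i ∣ a i then (1 / (a i : ℝ)) else 0) =
        ∏ i, ∑ a ∈ Finset.Icc 1 ⌊X⌋₊, (if κ i ∣ a then (1 / (a : ℝ)) else 0) := by
      rw [Finset.prod_univ_sum]
      rfl
    rw [h4]
    have h5 : ∏ i, (1 / (κ i : ℝ) * (1 + Real.log X)) = 1 / (k : ℝ) * (1 + Real.log X) ^ s := by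
      rw [Finset.prod_mul_distrib, Finset.prod_const, Finset.card_univ, Fintype.card_fin,
        Finset.prod_div_distrib, Finset.prod_const_one, ← Nat.cast_prod,
        (Nat.mem_finMulAntidiag.mp hκ).1]
    rw [← h5]
    apply Finset.prod_le_prod
    · intro i _
      apply Finset.sum_nonneg
      intro a _
      split_ifs <;> positivity
    · intro i _
      have e : Finset.Icc 1 ⌊X⌋₊ = Finset.Ioc 0 ⌊X⌋₊ := by
        ext a
        rw [Finset.mem_Icc, Finset.mem_Ioc]
        omega
      rw [e]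
      apply sum_dvd_le
      · exact Nat.pos_of_ne_zero (Nat.ne_zero_of_mem_finMulAntidiag hκ i)
      · exact harmonic_floor_le_one_add_log _ hX
  refine (Finset.sum_le_sum h3).trans ?_
  rw [Finset.sum_const, nsmul_eq_mul]
  apply le_of_eq
  ring

theorem Ak_le {s : ℕ} (k : ℕ) (hk : k ≠ 0) (φ : (Fin s → ℝ) → ℝ) (B : ℝ) (hB : ∀ y, |φ y| ≤ B)
    {X : ℝ} (hX : 1 ≤ X) :
    |Ak k φ X| ≤ B * (((Nat.finMulAntidiag s k).card : ℝ) / k * (1 + Real.log X) ^ s) := by
  have hB0 : 0 ≤ B := (abs_nonneg _).trans (hB 0)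
  refine le_trans ?_ (mul_le_mul_of_nonneg_left (A0_le (s := s) k hk hX) hB0)
  unfold Ak
  rw [Finset.mul_sum]
  refine (Finset.abs_sum_le_sum_abs _ _).trans (Finset.sum_le_sum fun a _ => ?_)
  split_ifs
  · rw [abs_mul]
    have h1 : 0 ≤ ∏ i, (1 / (a i : ℝ)) := Finset.prod_nonneg fun i _ => by positivity
    rw [abs_of_nonneg h1]
    exact mul_le_mul_of_nonneg_right (hB _) h1
  · simp

end IL4

open IL4 in
/-- L4 -/
theorem prfL4 : claimL4 := by
  intro hL1 hL2 hL3 s h hh φ ψ B hφ hφc hψ hψc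
  have hB0 : 0 ≤ B := (abs_nonneg _).trans (hφ 0)
  have key : Tendsto (fun X : ℝ => ∑' k : ℕ, Gh h k *
      ((Ak k φ X / (Real.log X) ^ s) * (Ak k ψ X / (Real.log X) ^ s))) atTop
      (𝓝 (∑' k : ℕ, Gh h k *
        ((rho s k * ∫ y in O1 s, φ y) * (rho s k * ∫ y in O1 s, ψ y)))) := by
    apply tendsto_tsum_of_dominated_convergence
      (bound := fun k => (∑ g ∈ h.divisors, (g : ℝ)) * (B ^ 2 * 4 ^ s) *
        (((Nat.finMulAntidiag s k).card : ℝ) ^ 2 / (k : ℝ) ^ 2))
    · exact (summable_dom s).mul_left _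
    · intro k
      rcases Nat.eq_zero_or_pos k with rfl | hk
      · simp
      · exact ((hL3 hL1 hL2 s k hk.ne' φ B hφ hφc).mul
          (hL3 hL1 hL2 s k hk.ne' ψ B hψ hψc)).const_mul _
    · filter_upwards [eventually_ge_atTop (Real.exp 1)] with X hX k
      have hX1 : (1 : ℝ) ≤ X := by
        have := Real.add_one_le_exp (1 : ℝ)
        linarith
      have hlog : 1 ≤ Real.log X := by
        rw [Real.le_log_iff_exp_le (by linarith)]
        exact hX
      rcases Nat.eq_zero_or_pos k with rfl | hk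
      · simp
      have hk0 : k ≠ 0 := hk.ne'
      have hk' : (0 : ℝ) < k := by exact_mod_cast hk
      have hb : ∀ (χ : (Fin s → ℝ) → ℝ), (∀ y, |χ y| ≤ B) →
          |Ak k χ X / (Real.log X) ^ s| ≤
            B * (((Nat.finMulAntidiag s k).card : ℝ) / k * 2 ^ s) := by
        intro χ hχ
        have hl : (0 : ℝ) < (Real.log X) ^ s := by positivity
        rw [abs_div, abs_of_pos hl, div_le_iff₀ hl]
        refine (Ak_le k hk0 χ B hχ hX1).trans ?_
        rw [mul_assoc B, mul_assoc (((Nat.finMulAntidiag s k).card : ℝ) / k), ← mul_pow]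
        gcongr
        linarith
      have hb1 := hb φ hφ
      have hb2 := hb ψ hψ
      rw [norm_mul, Real.norm_eq_abs, Real.norm_eq_abs, abs_mul]
      calc |Gh h k| * (|Ak k φ X / (Real.log X) ^ s| * |Ak k ψ X / (Real.log X) ^ s|)
          ≤ (∑ g ∈ h.divisors, (g : ℝ)) *
            ((B * (((Nat.finMulAntidiag s k).card : ℝ) / k * 2 ^ s)) *
              (B * (((Nat.finMulAntidiag s k).card : ℝ) / k * 2 ^ s))) := by
            apply mul_le_mul (abs_Gh_le h k hh) _ (mul_nonneg (abs_nonneg _) (abs_nonneg _))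
              (Finset.sum_nonneg (fun _ _ => by positivity))
            exact mul_le_mul hb1 hb2 (abs_nonneg _) (by positivity)
        _ = _ := by
            rw [show (4 : ℝ) = 2 * 2 by norm_num, mul_pow]
            ring
  have e1 : (∑' k : ℕ, Gh h k *
        ((rho s k * ∫ y in O1 s, φ y) * (rho s k * ∫ y in O1 s, ψ y))) =
      Csing s h * ((∫ y in O1 s, φ y) * ∫ y in O1 s, ψ y) := by
    unfold Csing
    rw [← tsum_mul_right]
    congr 1
    funext k
    ring
  rw [e1] at key
  refine key.congr (fun X => ?_)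
  rw [PW_eq, ← tsum_div_const]
  congr 1
  funext k
  rw [pow_mul', pow_two, mul_div_assoc]
  congr 1
  rw [div_mul_div_comm]

end Pool.Agent.Work.MP_122e00_nt.Two

end

section

set_option autoImplicit false

namespace Pool.Agent.Work.MP_122e00_nt.Two

open Finset Filter Topology MeasureTheory

theorem prfL6 : claimL6 := by
  intro ι _ c b hc
  set f : (ι → ℝ) →ₗ[ℝ] ℝ := ∑ i, (c i) • (LinearMap.proj i : (ι → ℝ) →ₗ[ℝ] ℝ) with hf
  have hfa : ∀ y, f y = ∑ i, c i * y i := by
    intro y
    rw [hf, LinearMap.sum_apply]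
    rfl
  have hker : volume ((LinearMap.ker f : Submodule ℝ (ι → ℝ)) : Set (ι → ℝ)) = 0 := by
    apply Measure.addHaar_submodule
    intro htop
    apply hc
    funext j
    classical
    have h1 : (Pi.single j (1 : ℝ) : ι → ℝ) ∈ LinearMap.ker f := by rw [htop]; trivial
    rw [LinearMap.mem_ker, hfa] at h1
    simpa [Pi.single_apply] using h1
  by_cases hne : ∃ y0 : ι → ℝ, ∑ i, c i * y0 i = b
  · obtain ⟨y0, hy0⟩ := hne
    have hset : {y : ι → ℝ | ∑ i, c i * y i = b} =
        (fun y => y + (-y0)) ⁻¹' ((LinearMap.ker f : Submodule ℝ (ι → ℝ)) : Set (ι → ℝ)) := by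
      ext y
      rw [Set.mem_preimage, SetLike.mem_coe, LinearMap.mem_ker, map_add, map_neg, hfa, hfa, hy0,
        Set.mem_ofPred_eq]
      constructor
      · intro h; rw [h]; ring
      · intro h; linarith
    rw [hset, measure_preimage_add_right]
    exact hker
  · have hset : {y : ι → ℝ | ∑ i, c i * y i = b} = ∅ := by
      ext y
      simp only [Set.mem_ofPred_eq, Set.mem_empty_iff_false, iff_false]
      exact fun h => hne ⟨y, h⟩
    rw [hset]
    exact measure_empty

end Pool.Agent.Work.MP_122e00_nt.Two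

end

section

set_option autoImplicit false

namespace Pool.Agent.Work.MP_122e00_nt.Two

open Finset Filter Topology MeasureTheory

open scoped ArithmeticFunction.vonMangoldt ArithmeticFunction.zeta

theorem prfT1 : claimT1 := by
  intro L s k
  induction k with
  | zero =>
    intro n F G c
    simp only [TS]
    exact ⟨Finset.sum_add_distrib, (Finset.mul_sum _ _ _).symm⟩
  | succ k ih =>
    intro n F G c
    simp only [TS]
    constructor
    · rw [← Finset.sum_add_distrib]
      refine Finset.sum_congr rfl fun d _ => ?_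
      rw [← mul_add]
      congr 1
      exact (ih (n / d) (fun x v => F (Fin.cons (Real.log d / L) x) v)
        (fun x v => G (Fin.cons (Real.log d / L) x) v) 0).1
    · rw [Finset.mul_sum]
      refine Finset.sum_congr rfl fun d _ => ?_
      rw [(ih (n / d) (fun x v => F (Fin.cons (Real.log d / L) x) v)
        (fun x v => G (Fin.cons (Real.log d / L) x) v) c).2]
      ring

theorem prfT2 : claimT2 := by
  intro L s k
  induction k with
  | zero =>
    intro n hL hn F hF
    simp only [TS]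
    refine Finset.sum_nonneg fun v hv => ?_
    rw [Nat.mem_finMulAntidiag] at hv
    have hv0 : ∀ i, v i ≠ 0 := by
      intro i hi
      apply hv.2
      rw [← hv.1]
      exact Finset.prod_eq_zero (Finset.mem_univ i) hi
    refine hF _ _ (fun j => j.elim0) (fun i => ?_) ?_
    · exact div_nonneg (Real.log_natCast_nonneg _) hL.le
    · simp only [Finset.univ_eq_empty, Finset.sum_empty, zero_add]
      rw [← Finset.sum_div]
      congr 1
      rw [← hv.1]
      push_cast
      rw [Real.log_prod]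
      intro i _
      exact_mod_cast hv0 i
  | succ k ih =>
    intro n hL hn F hF
    simp only [TS]
    refine Finset.sum_nonneg fun d hd => ?_
    have hdn : d ∣ n := Nat.dvd_of_mem_divisors hd
    have hd0 : d ≠ 0 := fun h => hn (by rw [h] at hdn; exact Nat.eq_zero_of_zero_dvd hdn)
    obtain ⟨e, rfl⟩ := hdn
    have he0 : e ≠ 0 := fun h => hn (by rw [h, mul_zero])
    have hdiv : d * e / d = e := Nat.mul_div_cancel_left e (Nat.pos_of_ne_zero hd0)
    rw [hdiv]
    refine mul_nonneg (div_nonneg ArithmeticFunction.vonMangoldt_nonneg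
      (Real.log_natCast_nonneg _)) ?_
    refine ih e hL he0 _ ?_
    intro x v hx hv hsum
    refine hF _ _ ?_ hv ?_
    · intro j
      refine Fin.cases ?_ ?_ j
      · rw [Fin.cons_zero]
        exact div_nonneg (Real.log_natCast_nonneg _) hL.le
      · intro i
        rw [Fin.cons_succ]
        exact hx i
    · rw [Fin.sum_univ_succ]
      simp only [Fin.cons_zero, Fin.cons_succ]
      rw [add_assoc, hsum]
      push_cast
      rw [Real.log_mul (by exact_mod_cast hd0) (by exact_mod_cast he0)]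
      ring

end Pool.Agent.Work.MP_122e00_nt.Two

end

section

set_option autoImplicit false

/-!
# T3: the identity behind the marks and the total mass of the structure sum
-/

namespace Pool.Agent.Work.MP_122e00_nt.Two

open Finset Filter Topology MeasureTheory

open scoped ArithmeticFunction.vonMangoldt ArithmeticFunction.zeta

namespace IT3

/-- pointwise multiplication with the logarithm -/
noncomputable def Lm (f : ArithmeticFunction ℝ) : ArithmeticFunction ℝ :=
  ArithmeticFunction.pmul ArithmeticFunction.log f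

theorem Lm_apply (f : ArithmeticFunction ℝ) (n : ℕ) : Lm f n = Real.log n * f n := rfl

theorem Lm_mul (f g : ArithmeticFunction ℝ) : Lm (f * g) = Lm f * g + f * Lm g := by
  ext n
  rw [Lm_apply, ArithmeticFunction.add_apply, ArithmeticFunction.mul_apply,
    ArithmeticFunction.mul_apply, ArithmeticFunction.mul_apply, Finset.mul_sum,
    ← Finset.sum_add_distrib]
  refine Finset.sum_congr rfl fun x hx => ?_
  obtain ⟨h1, h2⟩ := Nat.mem_divisorsAntidiagonal.1 hx
  have h3 : x.1 ≠ 0 := by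
    rintro h
    rw [h, zero_mul] at h1
    exact h2 h1.symm
  have h4 : x.2 ≠ 0 := by
    rintro h
    rw [h, mul_zero] at h1
    exact h2 h1.symm
  have h5 : Real.log n = Real.log x.1 + Real.log x.2 := by
    rw [← h1]
    push_cast
    exact Real.log_mul (by exact_mod_cast h3) (by exact_mod_cast h4)
  rw [h5, Lm_apply, Lm_apply]
  ring

theorem Lm_zeta : Lm (ζ : ArithmeticFunction ℝ) = Λ * (ζ : ArithmeticFunction ℝ) := by
  rw [ArithmeticFunction.vonMangoldt_mul_zeta]
  ext n
  rw [Lm_apply, ArithmeticFunction.natCoe_apply, ArithmeticFunction.zeta_apply,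
    ArithmeticFunction.log_apply]
  rcases eq_or_ne n 0 with h | h
  · simp [h]
  · simp [h]

theorem Lm_pow (r : ℕ) : Lm (((ζ : ArithmeticFunction ℕ) ^ r : ArithmeticFunction ℕ) :
    ArithmeticFunction ℝ) = (r : ℝ) • (Λ * (((ζ : ArithmeticFunction ℕ) ^ r :
      ArithmeticFunction ℕ) : ArithmeticFunction ℝ)) := by
  induction r with
  | zero =>
    ext n
    rw [Lm_apply]
    rcases eq_or_ne n 1 with h | h
    · simp [h]
    · rw [pow_zero, ArithmeticFunction.natCoe_apply, ArithmeticFunction.one_apply_ne h]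
      simp
  | succ r ih =>
    have h1 : (((ζ : ArithmeticFunction ℕ) ^ (r + 1) : ArithmeticFunction ℕ) :
        ArithmeticFunction ℝ) = (((ζ : ArithmeticFunction ℕ) ^ r : ArithmeticFunction ℕ) :
        ArithmeticFunction ℝ) * (ζ : ArithmeticFunction ℝ) := by
      rw [pow_succ, ArithmeticFunction.natCoe_mul]
    rw [h1, Lm_mul, ih, Lm_zeta]
    obtain ⟨f, hf⟩ : ∃ f : ArithmeticFunction ℝ, f = (((ζ : ArithmeticFunction ℕ) ^ r :
      ArithmeticFunction ℕ) : ArithmeticFunction ℝ) := ⟨_, rfl⟩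
    rw [← hf]
    ext n
    rw [smul_mul_assoc]
    have e1 : f * (Λ * (ζ : ArithmeticFunction ℝ)) = Λ * (f * (ζ : ArithmeticFunction ℝ)) := by
      ring
    have e2 : Λ * f * (ζ : ArithmeticFunction ℝ) = Λ * (f * (ζ : ArithmeticFunction ℝ)) := by
      ring
    rw [e1, e2]
    obtain ⟨g, hg⟩ : ∃ g : ArithmeticFunction ℝ, g = Λ * (f * (ζ : ArithmeticFunction ℝ)) :=
      ⟨_, rfl⟩
    rw [← hg, ArithmeticFunction.add_apply]
    show (r : ℝ) * g n + g n = ((r + 1 : ℕ) : ℝ) * g n
    push_cast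
    ring

theorem ident (s n : ℕ) : ∑ d ∈ n.divisors,
      Λ d * (((ζ : ArithmeticFunction ℕ) ^ (s + 1)) (n / d) : ℝ) =
      Real.log n * (((ζ : ArithmeticFunction ℕ) ^ (s + 1)) n : ℝ) / (s + 1) := by
  have h1 := congrArg (fun f : ArithmeticFunction ℝ => f n) (Lm_pow (s + 1))
  have h2 : (Λ * (((ζ : ArithmeticFunction ℕ) ^ (s + 1) : ArithmeticFunction ℕ) :
      ArithmeticFunction ℝ)) n = ∑ d ∈ n.divisors,
      Λ d * (((ζ : ArithmeticFunction ℕ) ^ (s + 1)) (n / d) : ℝ) := by
    rw [ArithmeticFunction.mul_apply]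
    exact Nat.sum_divisorsAntidiagonal (fun a b => Λ a *
      (((ζ : ArithmeticFunction ℕ) ^ (s + 1)) b : ℝ))
  have h3 : Real.log n * (((ζ : ArithmeticFunction ℕ) ^ (s + 1)) n : ℝ) =
      ((s + 1 : ℕ) : ℝ) * (Λ * (((ζ : ArithmeticFunction ℕ) ^ (s + 1) : ArithmeticFunction ℕ) :
      ArithmeticFunction ℝ)) n := h1
  rw [h3, h2]
  push_cast
  have : ((s : ℝ) + 1) ≠ 0 := by positivity
  field_simp

end IT3

open IT3 in
theorem prfT3 : claimT3 := by
  refine ⟨fun s n _ => ident s n, ?_⟩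
  intro L s k
  induction k with
  | zero =>
    intro n _
    rw [pow_zero, div_one, zeta_pow_apply]
    show ∑ v ∈ Nat.finMulAntidiag (s + 1) n, (1 : ℝ) ≤ _
    simp
  | succ k ih =>
    intro n hn
    show ∑ d ∈ n.divisors, (Λ d / Real.log n) * TS L s k (n / d) (fun _ _ => 1) ≤ _
    have hlog : 0 ≤ Real.log n := Real.log_natCast_nonneg n
    rcases hlog.eq_or_lt with h0 | h0
    · have h1 : ∑ d ∈ n.divisors, (Λ d / Real.log n) * TS L s k (n / d) (fun _ _ => 1) = 0 := by
        refine Finset.sum_eq_zero fun d _ => ?_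
        rw [← h0, div_zero, zero_mul]
      rw [h1]
      positivity
    · calc ∑ d ∈ n.divisors, (Λ d / Real.log n) * TS L s k (n / d) (fun _ _ => 1)
          ≤ ∑ d ∈ n.divisors, (Λ d / Real.log n) *
            ((((ζ : ArithmeticFunction ℕ) ^ (s + 1)) (n / d) : ℝ) / (s + 1) ^ k) := by
            refine Finset.sum_le_sum fun d hd => ?_
            have h1 : n / d ≠ 0 := by
              have h2 := Nat.dvd_of_mem_divisors hd
              have h3 := Nat.div_pos (Nat.le_of_dvd (Nat.pos_of_ne_zero hn) h2)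
                (Nat.pos_of_mem_divisors hd)
              omega
            exact mul_le_mul_of_nonneg_left (ih (n / d) h1)
              (div_nonneg ArithmeticFunction.vonMangoldt_nonneg hlog)
        _ = (∑ d ∈ n.divisors, Λ d * (((ζ : ArithmeticFunction ℕ) ^ (s + 1)) (n / d) : ℝ)) /
            (Real.log n * (s + 1) ^ k) := by
            rw [Finset.sum_div]
            refine Finset.sum_congr rfl fun d _ => ?_
            field_simp
        _ = (((ζ : ArithmeticFunction ℕ) ^ (s + 1)) n : ℝ) / (s + 1) ^ (k + 1) := by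
            rw [ident]
            field_simp
            ring
        _ ≤ _ := le_rfl

end Pool.Agent.Work.MP_122e00_nt.Two

end

section

set_option autoImplicit false

/-!
# Shifted divisor sums with marks: item T4
-/

namespace Pool.Agent.Work.MP_122e00_nt.Two

open Finset Filter Topology MeasureTheory

open scoped ArithmeticFunction.vonMangoldt

namespace IT4

theorem TS_nonneg (L : ℝ) (s : ℕ) : ∀ (k n : ℕ) (F : (Fin k → ℝ) → (Fin (s + 1) → ℝ) → ℝ),
    (∀ x v, 0 ≤ F x v) → 0 ≤ TS L s k n F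
  | 0, n, F, hF => Finset.sum_nonneg fun v _ => hF _ _
  | k + 1, n, F, hF => by
    refine Finset.sum_nonneg fun d _ => mul_nonneg ?_ (TS_nonneg L s k (n / d) _ fun x v => hF _ _)
    exact div_nonneg ArithmeticFunction.vonMangoldt_nonneg (Real.log_natCast_nonneg n)

theorem mem_Ioc {X α β : ℝ} (hX : 1 < X) {a : ℕ} (h : a ∈ Finset.Ioc ⌊X ^ α⌋₊ ⌊X ^ β⌋₊) :
    0 < a ∧ α < Real.log a / Real.log X ∧ Real.log a / Real.log X ≤ β := by
  have hX0 : (0 : ℝ) < X := by linarith
  have hL : 0 < Real.log X := Real.log_pos hX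
  rw [Finset.mem_Ioc] at h
  have ha : 0 < a := by omega
  have ha' : (0 : ℝ) < a := by exact_mod_cast ha
  have h1 : X ^ α < (a : ℝ) := Nat.lt_of_floor_lt h.1
  have h2 : (a : ℝ) ≤ X ^ β :=
    (Nat.cast_le.2 h.2).trans (Nat.floor_le (Real.rpow_nonneg hX0.le β))
  refine ⟨ha, ?_, ?_⟩
  · rw [lt_div_iff₀ hL, ← Real.log_rpow hX0]
    exact Real.log_lt_log (Real.rpow_pos_of_pos hX0 α) h1
  · rw [div_le_iff₀ hL, ← Real.log_rpow hX0]
    exact Real.log_le_log ha' h2

theorem base (s n : ℕ) (X : ℝ) (hX : 1 < X) (hn : n ≠ 0) (αm βm : Fin 0 → ℝ) (αv βv : Fin s → ℝ) :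
    ∑ d ∈ box αm βm X, ∑ a ∈ box αv βv X,
        (if (∏ j, d j) * ∏ i, a i ∣ n then ∏ j, Λ (d j) else 0) ≤
    TS (Real.log X) s 0 n (fun x v => if (∀ j, αm j < x j ∧ x j ≤ βm j) ∧
      (∀ i : Fin s, αv i < v (Fin.castSucc i) ∧ v (Fin.castSucc i) ≤ βv i) then 1 else 0) := by
  have hbox : box αm βm X = {fun i => i.elim0} := by
    ext d
    rw [mem_box, Finset.mem_singleton]
    exact ⟨fun _ => by funext i; exact i.elim0, fun _ i => i.elim0⟩
  rw [hbox, Finset.sum_singleton]
  simp only [Finset.univ_eq_empty, Finset.prod_empty, one_mul]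
  change _ ≤ ∑ v ∈ Nat.finMulAntidiag (s + 1) n, _
  simp only [IsEmpty.forall_iff, true_and]
  rw [Finset.sum_boole, Finset.sum_boole, Nat.cast_le]
  apply Finset.card_le_card_of_injOn (fun a => (Fin.snoc a (n / ∏ i, a i) : Fin (s + 1) → ℕ))
  · intro a ha
    simp only [Finset.coe_filter, Set.mem_ofPred_eq] at ha ⊢
    obtain ⟨ha, hd⟩ := ha
    refine ⟨?_, fun i => ?_⟩
    · rw [Nat.mem_finMulAntidiag, Fin.prod_univ_castSucc]
      simp only [Fin.snoc_castSucc, Fin.snoc_last]
      exact ⟨Nat.mul_div_cancel' hd, hn⟩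
    · simp only [Fin.snoc_castSucc]
      have := mem_Ioc hX (Fintype.mem_piFinset.1 ha i)
      exact this.2
  · intro a _ b _ hab
    funext i
    have := congrFun hab (Fin.castSucc i)
    simpa only [Fin.snoc_castSucc] using this

theorem sum_box_succ {k : ℕ} (α β : Fin (k + 1) → ℝ) (X : ℝ) (f : (Fin (k + 1) → ℕ) → ℝ) :
    ∑ d ∈ box α β X, f d = ∑ d0 ∈ Finset.Ioc ⌊X ^ (α 0)⌋₊ ⌊X ^ (β 0)⌋₊,
      ∑ d ∈ box (fun i => α i.succ) (fun i => β i.succ) X, f (Fin.cons d0 d) := by
  rw [← Finset.sum_product']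
  refine Finset.sum_nbij' (fun d => (d 0, fun i => d i.succ)) (fun p => Fin.cons p.1 p.2)
    ?_ ?_ ?_ ?_ ?_
  · intro d hd
    rw [Finset.mem_product]
    exact ⟨Fintype.mem_piFinset.1 hd 0, Fintype.mem_piFinset.2 fun i =>
      Fintype.mem_piFinset.1 hd i.succ⟩
  · intro p hp
    rw [Finset.mem_product] at hp
    refine Fintype.mem_piFinset.2 fun i => ?_
    refine Fin.cases ?_ (fun j => ?_) i
    · exact hp.1
    · exact Fintype.mem_piFinset.1 hp.2 j
  · intro d _
    exact Fin.cons_self_tail d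
  · intro p _
    rfl
  · intro d _
    congr 1
    exact (Fin.cons_self_tail d).symm

theorem sum_filter_succ {k : ℕ} (α : Fin (k + 1) → ℝ) (j : Fin k) :
    ∑ i ∈ Finset.univ.filter (fun i : Fin (k + 1) => i < j.succ), α i =
      α 0 + ∑ i ∈ Finset.univ.filter (fun i : Fin k => i < j), α i.succ := by
  rw [Finset.sum_filter, Finset.sum_filter, Fin.sum_univ_succ]
  simp [Fin.succ_lt_succ_iff, Fin.succ_pos]

theorem main (s : ℕ) (X : ℝ) (hX : 1 < X) (αv βv : Fin s → ℝ) : ∀ (k n : ℕ) (R : ℝ), n ≠ 0 →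
    Real.log n ≤ Real.log X * R → ∀ (αm βm : Fin k → ℝ), (∀ j, 0 < αm j) → ∑ j, αm j < R →
    (∏ j : Fin k, (Real.log X * (R - ∑ i ∈ Finset.univ.filter (fun i : Fin k => i < j), αm i))⁻¹) *
      (∑ d ∈ box αm βm X, ∑ a ∈ box αv βv X,
        if (∏ j, d j) * ∏ i, a i ∣ n then ∏ j, Λ (d j) else 0) ≤
    TS (Real.log X) s k n (fun x v => if (∀ j, αm j < x j ∧ x j ≤ βm j) ∧
      (∀ i : Fin s, αv i < v (Fin.castSucc i) ∧ v (Fin.castSucc i) ≤ βv i) then 1 else 0) := by
  intro k
  induction k with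
  | zero =>
    intro n R hn _ αm βm _ _
    simp only [Finset.univ_eq_empty, Finset.prod_empty, one_mul]
    have := base s n X hX hn αm βm αv βv
    simpa only [Finset.univ_eq_empty, Finset.prod_empty, one_mul] using this
  | succ k ih =>
    intro n R hn hR αm βm hα hsum
    have hL : 0 < Real.log X := Real.log_pos hX
    have hsum' : αm 0 + ∑ j : Fin k, αm j.succ < R := by
      rw [← Fin.sum_univ_succ]
      exact hsum
    have hsn : 0 ≤ ∑ j : Fin k, αm j.succ := Finset.sum_nonneg fun j _ => (hα _).le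
    have hR0 : 0 < R := by linarith [hα 0]
    set P : ℝ := ∏ j : Fin k, (Real.log X * (R - αm 0 -
      ∑ i ∈ Finset.univ.filter (fun i : Fin k => i < j), αm i.succ))⁻¹ with hP
    have hprod : (∏ j : Fin (k + 1), (Real.log X *
        (R - ∑ i ∈ Finset.univ.filter (fun i : Fin (k + 1) => i < j), αm i))⁻¹) =
        (Real.log X * R)⁻¹ * P := by
      rw [Fin.prod_univ_succ]
      have h0 : (Finset.univ.filter (fun i : Fin (k + 1) => i < 0)) = ∅ := by
        ext i
        simp
      rw [h0, Finset.sum_empty, sub_zero, hP]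
      congr 1
      refine Finset.prod_congr rfl fun j _ => ?_
      rw [sum_filter_succ]
      congr 2
      ring
    have hP0 : 0 ≤ P := by
      refine Finset.prod_nonneg fun j _ => ?_
      have : ∑ i ∈ Finset.univ.filter (fun i : Fin k => i < j), αm i.succ ≤
          ∑ i : Fin k, αm i.succ :=
        Finset.sum_le_sum_of_subset_of_nonneg (Finset.filter_subset _ _) fun i _ _ => (hα _).le
      have : 0 ≤ R - αm 0 - ∑ i ∈ Finset.univ.filter (fun i : Fin k => i < j), αm i.succ := by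
        linarith
      positivity
    set F' : (Fin k → ℝ) → (Fin (s + 1) → ℝ) → ℝ := fun x v =>
      if (∀ j : Fin k, αm j.succ < x j ∧ x j ≤ βm j.succ) ∧
        (∀ i : Fin s, αv i < v (Fin.castSucc i) ∧ v (Fin.castSucc i) ≤ βv i) then 1 else 0 with hF'
    set S : ℕ → ℝ := fun m => ∑ d ∈ box (fun i => αm i.succ) (fun i => βm i.succ) X,
      ∑ a ∈ box αv βv X, if (∏ j, d j) * ∏ i, a i ∣ m then ∏ j, Λ (d j) else 0 with hS
    have hS0 : ∀ m, 0 ≤ S m := by
      intro m
      refine Finset.sum_nonneg fun d _ => Finset.sum_nonneg fun a _ => ?_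
      split_ifs
      · exact Finset.prod_nonneg fun j _ => ArithmeticFunction.vonMangoldt_nonneg
      · exact le_rfl
    -- left side
    have hleft : (∑ d ∈ box αm βm X, ∑ a ∈ box αv βv X,
        if (∏ j, d j) * ∏ i, a i ∣ n then ∏ j, Λ (d j) else 0) =
        ∑ d0 ∈ (Finset.Ioc ⌊X ^ (αm 0)⌋₊ ⌊X ^ (βm 0)⌋₊).filter (fun d => d ∣ n),
          Λ d0 * S (n / d0) := by
      rw [sum_box_succ, Finset.sum_filter]
      refine Finset.sum_congr rfl fun d0 hd0 => ?_
      have hd0' := (mem_Ioc hX hd0).1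
      split_ifs with hdn
      · rw [hS, Finset.mul_sum]
        refine Finset.sum_congr rfl fun d _ => ?_
        rw [Finset.mul_sum]
        refine Finset.sum_congr rfl fun a _ => ?_
        rw [Fin.prod_univ_succ, Fin.prod_univ_succ]
        simp only [Fin.cons_zero, Fin.cons_succ]
        have hiff : d0 * (∏ j, d j) * ∏ i, a i ∣ n ↔ (∏ j, d j) * ∏ i, a i ∣ n / d0 := by
          rw [mul_assoc]
          exact (Nat.dvd_div_iff_mul_dvd hdn).symm
        simp only [hiff]
        split_ifs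
        · rfl
        · rw [mul_zero]
      · refine Finset.sum_eq_zero fun d _ => Finset.sum_eq_zero fun a _ => ?_
        rw [if_neg]
        intro h
        apply hdn
        rw [Fin.prod_univ_succ] at h
        simp only [Fin.cons_zero, Fin.cons_succ] at h
        rw [mul_assoc] at h
        exact (Dvd.intro _ rfl).trans h
    rw [hprod, hleft, Finset.mul_sum]
    -- right side
    change _ ≤ ∑ d ∈ n.divisors, (Λ d / Real.log n) * TS (Real.log X) s k (n / d) (fun x v =>
      if (∀ j, αm j < (Fin.cons (Real.log d / Real.log X) x : Fin (k + 1) → ℝ) j ∧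
        (Fin.cons (Real.log d / Real.log X) x : Fin (k + 1) → ℝ) j ≤ βm j) ∧
        (∀ i : Fin s, αv i < v (Fin.castSucc i) ∧ v (Fin.castSucc i) ≤ βv i) then 1 else 0)
    have hsubset : (Finset.Ioc ⌊X ^ (αm 0)⌋₊ ⌊X ^ (βm 0)⌋₊).filter (fun d => d ∣ n) ⊆
        n.divisors := by
      intro d hd
      rw [Finset.mem_filter] at hd
      exact Nat.mem_divisors.2 ⟨hd.2, hn⟩
    refine le_trans ?_ (Finset.sum_le_sum_of_subset_of_nonneg hsubset ?_)
    · refine Finset.sum_le_sum fun d hd => ?_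
      rw [Finset.mem_filter] at hd
      obtain ⟨hd, hdn⟩ := hd
      obtain ⟨hd0, hd1, hd2⟩ := mem_Ioc hX hd
      have hdlog : αm 0 * Real.log X < Real.log d := (lt_div_iff₀ hL).1 hd1
      have hlogd : 0 < Real.log d := lt_trans (mul_pos (hα 0) hL) hdlog
      have hnd : (0 : ℕ) < n / d := Nat.div_pos (Nat.le_of_dvd (Nat.pos_of_ne_zero hn) hdn) hd0
      have hcast : ((n / d : ℕ) : ℝ) = (n : ℝ) / d :=
        Nat.cast_div hdn (by exact_mod_cast hd0.ne')
      have hn0 : (n : ℝ) ≠ 0 := by exact_mod_cast hn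
      have hd0' : (d : ℝ) ≠ 0 := by exact_mod_cast hd0.ne'
      have hlogn : Real.log d ≤ Real.log n :=
        Real.log_le_log (by positivity) (by exact_mod_cast Nat.le_of_dvd (Nat.pos_of_ne_zero hn) hdn)
      have hfun : (fun (x : Fin k → ℝ) (v : Fin (s + 1) → ℝ) =>
          if (∀ j, αm j < (Fin.cons (Real.log d / Real.log X) x : Fin (k + 1) → ℝ) j ∧
            (Fin.cons (Real.log d / Real.log X) x : Fin (k + 1) → ℝ) j ≤ βm j) ∧
            (∀ i : Fin s, αv i < v (Fin.castSucc i) ∧ v (Fin.castSucc i) ≤ βv i)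
            then (1 : ℝ) else 0) = F' := by
        funext x v
        rw [hF']
        have : (∀ j, αm j < (Fin.cons (Real.log d / Real.log X) x : Fin (k + 1) → ℝ) j ∧
            (Fin.cons (Real.log d / Real.log X) x : Fin (k + 1) → ℝ) j ≤ βm j) ↔
            (∀ j : Fin k, αm j.succ < x j ∧ x j ≤ βm j.succ) := by
          rw [Fin.forall_fin_succ]
          simp only [Fin.cons_zero, Fin.cons_succ]
          exact ⟨fun h => h.2, fun h => ⟨⟨hd1, hd2⟩, h⟩⟩
        simp only [this]
      rw [hfun]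
      have hIH := ih (n / d) (R - αm 0) hnd.ne' (by
          rw [hcast, Real.log_div hn0 hd0']
          nlinarith) (fun j => αm j.succ) (fun j => βm j.succ) (fun j => hα _) (by linarith)
      have hIH' : P * S (n / d) ≤ TS (Real.log X) s k (n / d) F' := hIH
      calc (Real.log X * R)⁻¹ * P * (Λ d * S (n / d))
          = (Λ d / (Real.log X * R)) * (P * S (n / d)) := by
            rw [div_eq_mul_inv]
            ring
        _ ≤ (Λ d / Real.log n) * (P * S (n / d)) := by
            refine mul_le_mul_of_nonneg_right ?_ (mul_nonneg hP0 (hS0 _))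
            exact div_le_div_of_nonneg_left ArithmeticFunction.vonMangoldt_nonneg
              (by linarith) hR
        _ ≤ _ := by
            refine mul_le_mul_of_nonneg_left hIH' ?_
            exact div_nonneg ArithmeticFunction.vonMangoldt_nonneg (by linarith)
    · intro d _ _
      refine mul_nonneg (div_nonneg ArithmeticFunction.vonMangoldt_nonneg
        (Real.log_natCast_nonneg n)) (TS_nonneg _ _ _ _ _ fun x v => ?_)
      split_ifs <;> norm_num

end IT4

theorem prfT4 : claimT4 := by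
  intro s k n X hX hn hnX αm βm αv βv hα hsum
  have h := IT4.main s X hX αv βv k n 1 hn (by
    rw [mul_one]
    exact Real.log_le_log (by exact_mod_cast Nat.pos_of_ne_zero hn) hnX) αm βm hα hsum
  exact h

end Pool.Agent.Work.MP_122e00_nt.Two

end
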