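import Pool.Agent.Work.MP_122e00_nt.Gen.Stmts
import Pool.Agent.Work.MP_122e00_nt.Count
import Pool.Agent.Work.MP_122e00_nt.Bd.B40
import Pool.Agent.Work.MP_122e00_nt.Two.ItemT8

/-! Bundle of small proof modules (one section per former module). -/

section

set_option autoImplicit false

/-!
# Item B3: monotonicity of `TS` on the relevant positions, the number of factorisations
-/

namespace Pool.Agent.Work.MP_122e00_nt.Gen

open Finset Filter Topology MeasureTheory

open scoped ArithmeticFunction.vonMangoldt ArithmeticFunction.zeta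

namespace IB3

theorem mono (L : ℝ) (s k : ℕ) : ∀ (n : ℕ) (F G : (Fin k → ℝ) → (Fin (s + 1) → ℝ) → ℝ),
    0 < L → n ≠ 0 →
    (∀ x v, (∀ m, 0 < x m) → (∀ i, 0 ≤ v i) → ∑ m, x m + ∑ i, v i = Real.log n / L →
      F x v ≤ G x v) →
    Two.TS L s k n F ≤ Two.TS L s k n G := by
  induction k with
  | zero =>
    intro n F G hL hn hF
    simp only [Two.TS]
    refine Finset.sum_le_sum fun v hv => ?_
    rw [Nat.mem_finMulAntidiag] at hv
    have hv0 : ∀ i, v i ≠ 0 := by
      intro i hi
      apply hv.2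
      rw [← hv.1]
      exact Finset.prod_eq_zero (Finset.mem_univ i) hi
    refine hF _ _ (fun j => j.elim0) (fun i => ?_) ?_
    · exact div_nonneg (Real.log_natCast_nonneg _) hL.le
    · simp only [Finset.univ_eq_empty, Finset.sum_empty, zero_add]
      rw [← Finset.sum_div]
      congr 1
      rw [← hv.1]
      push_cast
      rw [Real.log_prod]
      intro i _
      exact_mod_cast hv0 i
  | succ k ih =>
    intro n F G hL hn hF
    simp only [Two.TS]
    refine Finset.sum_le_sum fun d hd => ?_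
    have hdn : d ∣ n := Nat.dvd_of_mem_divisors hd
    have hd0 : d ≠ 0 := fun h => hn (by rw [h] at hdn; exact Nat.eq_zero_of_zero_dvd hdn)
    obtain ⟨e, rfl⟩ := hdn
    have he0 : e ≠ 0 := fun h => hn (by rw [h, mul_zero])
    have hdiv : d * e / d = e := Nat.mul_div_cancel_left e (Nat.pos_of_ne_zero hd0)
    rw [hdiv]
    by_cases hd1 : d = 1
    · subst hd1
      simp
    have hd2 : (1 : ℝ) < (d : ℝ) := by
      have : 2 ≤ d := by omega
      exact_mod_cast this
    refine mul_le_mul_of_nonneg_left ?_ (div_nonneg ArithmeticFunction.vonMangoldt_nonneg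
      (Real.log_natCast_nonneg _))
    refine ih e _ _ hL he0 ?_
    intro x v hx hv hsum
    refine hF _ _ ?_ hv ?_
    · intro j
      refine Fin.cases ?_ ?_ j
      · rw [Fin.cons_zero]
        exact div_pos (Real.log_pos hd2) hL
      · intro i
        rw [Fin.cons_succ]
        exact hx i
    · rw [Fin.sum_univ_succ]
      simp only [Fin.cons_zero, Fin.cons_succ]
      rw [add_assoc, hsum]
      push_cast
      rw [Real.log_mul (by exact_mod_cast hd0) (by exact_mod_cast he0)]
      ring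

end IB3

theorem prfB3 : claimB3 := by
  refine ⟨fun L s k n F G hL hn h => IB3.mono L s k n F G hL hn h, fun L s n _ => ?_⟩
  rw [zeta_pow_apply]
  simp [Two.TS]

end Pool.Agent.Work.MP_122e00_nt.Gen

end

section

/-!
# Item B4: a good placement
-/

set_option autoImplicit false

namespace Pool.Agent.Work.MP_122e00_nt.Gen

open Finset Filter Topology MeasureTheory

open Two

namespace IB4

lemma ps_nonneg (s : ℕ) (θ : ℝ) (y : Fin s → ℝ) : 0 ≤ ps s θ y := by
  unfold ps
  exact Set.indicator_nonneg (fun _ _ => zero_le_one) _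

lemma gs_nonneg (s : ℕ) (θ : ℝ) (v : Fin (s + 1) → ℝ) : 0 ≤ gs (ps s θ) v :=
  Finset.sum_nonneg fun _ _ => ps_nonneg _ _ _

end IB4

open IB4 in
theorem prfB4 : claimB4 := by
  intro s k θ hs hθ _ x v hx hv hsum hM
  obtain ⟨i, hi⟩ := Finite.exists_max v
  set w : Fin (s + 1) → ℝ := fun q => v q + ∑ j : Fin k, if i = q then x j else 0 with hw
  have h1 : gs (ps s θ) w ≤ Pl (gs (ps s θ)) x v := by
    unfold Pl
    have := Finset.single_le_sum (f := fun c : Fin k → Fin (s + 1) =>
      gs (ps s θ) (fun q => v q + ∑ j, if c j = q then x j else 0)) (s := Finset.univ)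
      (fun c _ => gs_nonneg s θ _) (Finset.mem_univ (fun _ => i))
    exact this
  have h2 : ps s θ (fun j => w (i.succAbove j)) ≤ gs (ps s θ) w := by
    unfold gs
    have := Finset.single_le_sum (f := fun i' : Fin (s + 1) =>
      ps s θ (fun j => w (i'.succAbove j))) (s := Finset.univ)
      (fun c _ => ps_nonneg s θ _) (Finset.mem_univ i)
    exact this
  have h3 : (fun j => w (i.succAbove j)) = fun j => v (i.succAbove j) := by
    funext j
    rw [hw]
    simp [(Fin.succAbove_ne i j).symm]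
  have h4 : ps s θ (fun j => v (i.succAbove j)) = 1 := by
    unfold ps
    rw [Set.indicator_of_mem]
    refine ⟨fun j => hv _, ?_⟩
    set S : ℝ := ∑ j : Fin s, v (i.succAbove j) with hS
    have e1 : ∑ q, v q = v i + S := Fin.sum_univ_succAbove v i
    have e2 : S ≤ s * v i := by
      calc S ≤ ∑ _j : Fin s, v i := Finset.sum_le_sum fun j _ => hi _
        _ = s * v i := by simp
    have hs1 : (1:ℝ) ≤ s := by exact_mod_cast hs
    have hs0 : (0:ℝ) < s := by linarith
    set M : ℝ := ∑ m, x m with hMd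
    have e3 : ((s:ℝ) - 1) + 4 * θ * s ≤ 2 * s * M := by
      have h5 := mul_le_mul_of_nonneg_left hM (by positivity : (0:ℝ) ≤ 2 * s)
      have e4 : 2 * (s:ℝ) * (((s : ℝ) - 1) / (2 * s) + 2 * θ) = ((s:ℝ) - 1) + 4 * θ * s := by
        field_simp
        ring
      rw [e4] at h5
      exact h5
    rw [e1] at hsum
    have h6 : 2 * (s:ℝ) * (v i + S) ≤ s + 1 - 4 * θ * s := by nlinarith
    have h7 : 2 * ((s:ℝ) + 1) * S ≤ (s + 1) * (1 - 2 * θ) := by nlinarith
    have h8 : 2 * S ≤ 1 - 2 * θ := by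
      have h9 : (0:ℝ) < s + 1 := by linarith
      have h10 : ((s:ℝ) + 1) * (2 * S) ≤ (s + 1) * (1 - 2 * θ) := by linarith
      exact le_of_mul_le_mul_left h10 h9
    linarith
  rw [← h4, ← h3]
  exact h2.trans h1

end Pool.Agent.Work.MP_122e00_nt.Gen

end

section

set_option autoImplicit false

/-!
# B5: Cauchy-Schwarz for structure sums
-/

namespace Pool.Agent.Work.MP_122e00_nt.Gen

open Finset Filter Topology MeasureTheory

namespace IB5

theorem cs_real {a b s : ℝ} (ha : 0 ≤ a) (hb : 0 ≤ b) (hs : 0 ≤ s)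
    (h : ∀ t : ℝ, 0 < t → 2 * s ≤ t * a + t⁻¹ * b) : s ^ 2 ≤ a * b := by
  rcases hs.eq_or_lt with hs0 | hs0
  · rw [← hs0]; simpa using mul_nonneg ha hb
  rcases ha.eq_or_lt with ha0 | ha0
  · exfalso
    have h1 := h ((b + 1) / s) (by positivity)
    rw [← ha0, mul_zero, zero_add, inv_div, div_mul_eq_mul_div] at h1
    rw [le_div_iff₀ (by positivity)] at h1
    nlinarith
  · have h1 := h (s / a) (by positivity)
    rw [inv_div, div_mul_cancel₀ _ ha0.ne', div_mul_eq_mul_div] at h1
    have h2 : s ≤ a * b / s := by linarith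
    rw [le_div_iff₀ hs0] at h2
    nlinarith

theorem amgm {N F G t : ℝ} (ht : 0 < t) (hN : 0 ≤ N) (hF : 0 ≤ F) (hG : 0 ≤ G)
    (h : N ^ 2 ≤ F * G) : 2 * N ≤ t * F + t⁻¹ * G := by
  have h1 : (2 * N) ^ 2 ≤ (t * F + t⁻¹ * G) ^ 2 := by
    have e : t * t⁻¹ = 1 := mul_inv_cancel₀ ht.ne'
    have e2 : (t * F + t⁻¹ * G) ^ 2 = (t * F - t⁻¹ * G) ^ 2 + 4 * (t * t⁻¹) * (F * G) := by ring
    rw [e2, e]
    nlinarith [sq_nonneg (t * F - t⁻¹ * G)]
  have h2 : 0 ≤ t * F + t⁻¹ * G := by positivity
  exact (pow_le_pow_iff_left₀ (by positivity) h2 (by norm_num)).mp h1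

theorem TS_nonneg (h3 : claimB3) (L : ℝ) (s k n : ℕ)
    (F : (Fin k → ℝ) → (Fin (s + 1) → ℝ) → ℝ) (hL : 0 < L) (hn : n ≠ 0)
    (hF : ∀ x v, (∀ m, 0 < x m) → (∀ i, 0 ≤ v i) →
      ∑ m, x m + ∑ i, v i = Real.log n / L → 0 ≤ F x v) :
    0 ≤ Two.TS L s k n F := by
  have e := (Two.prfT1 L s k n F F 0).2
  rw [zero_mul] at e
  rw [← e]
  refine h3.1 L s k n _ _ hL hn ?_
  intro x v hx hv hs
  rw [zero_mul]
  exact hF x v hx hv hs

end IB5

theorem prfB5 (h3 : claimB3) : claimB5 := by
  intro L s n K F G N hL hn hNFG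
  refine IB5.cs_real ?_ ?_ ?_ ?_
  · exact Finset.sum_nonneg fun k _ => IB5.TS_nonneg h3 L s (k + 1) n (F k) hL hn
      fun x v hx hv hs => (hNFG k x v hx hv hs).2.1
  · exact Finset.sum_nonneg fun k _ => IB5.TS_nonneg h3 L s (k + 1) n (G k) hL hn
      fun x v hx hv hs => (hNFG k x v hx hv hs).2.2.1
  · exact Finset.sum_nonneg fun k _ => IB5.TS_nonneg h3 L s (k + 1) n (N k) hL hn
      fun x v hx hv hs => (hNFG k x v hx hv hs).1
  · intro t ht
    rw [Finset.mul_sum, Finset.mul_sum, Finset.mul_sum, ← Finset.sum_add_distrib]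
    refine Finset.sum_le_sum ?_
    intro k _
    rw [← (Two.prfT1 L s (k + 1) n (N k) (N k) 2).2, ← (Two.prfT1 L s (k + 1) n (F k) (F k) t).2,
      ← (Two.prfT1 L s (k + 1) n (G k) (G k) t⁻¹).2, ← (Two.prfT1 L s (k + 1) n _ _ 0).1]
    refine h3.1 L s (k + 1) n _ _ hL hn ?_
    intro x v hx hv hs
    obtain ⟨a1, a2, a3, a4⟩ := hNFG k x v hx hv hs
    exact IB5.amgm ht a1 a2 a3 a4

end Pool.Agent.Work.MP_122e00_nt.Gen

end

section

set_option autoImplicit false

/-!
# Item B7: bounds and continuity of the structure function `FB`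
-/

namespace Pool.Agent.Work.MP_122e00_nt.Gen

open Finset Filter Topology MeasureTheory Two

namespace IB7

/-- A linear form which does not vanish takes a given value almost nowhere. -/
lemma ae_ne {ι : Type} [Fintype ι] (L : (ι → ℝ) →ₗ[ℝ] ℝ) (u : ι → ℝ) (hu : L u ≠ 0) (b : ℝ) :
    ∀ᵐ y : ι → ℝ, L y ≠ b := by
  classical
  have hL : ∀ y, L y = ∑ i, L (fun j => if i = j then 1 else 0) * y i := by
    intro y
    rw [LinearMap.pi_apply_eq_sum_univ L y]
    exact Finset.sum_congr rfl fun i _ => by rw [smul_eq_mul, mul_comm]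
  have h := Two.prfL6 ι (fun i => L (fun j => if i = j then 1 else 0)) b ?_
  · rw [ae_iff]
    have e : {y : ι → ℝ | ¬ L y ≠ b} =
        {y | ∑ i, L (fun j => if i = j then 1 else 0) * y i = b} := by
      ext y
      simp only [Set.mem_ofPred_eq, not_not]
      rw [hL y]
    rw [e]
    exact h
  · intro h0
    apply hu
    rw [hL u]
    refine Finset.sum_eq_zero fun i _ => ?_
    have := congrFun h0 i
    simp only [Pi.zero_apply] at this
    rw [this, zero_mul]

variable {P : Type*} [TopologicalSpace P]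

lemma ev_lt {f g : P → ℝ} {p0 : P} (hf : ContinuousAt f p0) (hg : ContinuousAt g p0)
    (h : f p0 ≠ g p0) : ∀ᶠ p in 𝓝 p0, (f p < g p ↔ f p0 < g p0) := by
  rcases lt_or_gt_of_ne h with h1 | h1
  · filter_upwards [hf.eventually_lt hg h1] with p hp
    exact ⟨fun _ => h1, fun _ => hp⟩
  · filter_upwards [hg.eventually_lt hf h1] with p hp
    exact ⟨fun h2 => absurd h2 (not_lt.2 hp.le), fun h2 => absurd h2 (not_lt.2 h1.le)⟩

lemma aeC (k s : ℕ) (c : ℝ) : ∀ᵐ y : Fin (k + 1) ⊕ Fin s → ℝ,
    ∑ m : Fin (k + 1), y (Sum.inl m) ≠ c := by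
  have h := ae_ne (∑ m : Fin (k + 1),
    (LinearMap.proj (Sum.inl m) : (Fin (k + 1) ⊕ Fin s → ℝ) →ₗ[ℝ] ℝ))
    (fun i => Sum.elim (fun _ => 1) (fun _ => 0) i) ?_ c
  · filter_upwards [h] with y hy e
    apply hy
    rw [LinearMap.sum_apply]
    exact e
  · rw [LinearMap.sum_apply]
    simp only [LinearMap.proj_apply, Sum.elim_inl, Finset.sum_const, Finset.card_univ,
      Fintype.card_fin, nsmul_eq_mul, mul_one]
    positivity

lemma aeD (k s : ℕ) (c : ℝ) : ∀ᵐ y : Fin (k + 2) ⊕ Fin s → ℝ,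
    ∑ m : Fin (k + 1), y (Sum.inl m.castSucc) ≠ c := by
  have h := ae_ne (∑ m : Fin (k + 1),
    (LinearMap.proj (Sum.inl m.castSucc) : (Fin (k + 2) ⊕ Fin s → ℝ) →ₗ[ℝ] ℝ))
    (fun i => Sum.elim (fun _ => 1) (fun _ => 0) i) ?_ c
  · filter_upwards [h] with y hy e
    apply hy
    rw [LinearMap.sum_apply]
    exact e
  · rw [LinearMap.sum_apply]
    simp only [LinearMap.proj_apply, Sum.elim_inl, Finset.sum_const, Finset.card_univ,
      Fintype.card_fin, nsmul_eq_mul, mul_one]
    positivity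

end IB7

open IB7 in
theorem prfB7 : claimB7 := by
  classical
  intro s c
  have hs : (0 : ℝ) ≤ ((s : ℝ) + 1) := by positivity
  refine ⟨?_, ?_, ?_⟩
  · intro k x v
    rcases k with _ | k
    · simp [FB]
    · simp only [FB]
      rw [← pow_mul]
      split_ifs
      · exact ⟨by positivity, le_refl _⟩
      · exact ⟨le_refl _, by positivity⟩
  · intro k x v
    simp only [FB, FL]
    rw [← pow_mul]
    split_ifs with h1 h2 h2
    · rw [mul_one]
    · exact absurd h1.2 h2
    · positivity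
    · simp
  · intro k
    rcases k with _ | k
    · refine Eventually.of_forall fun y => ?_
      have : ext (FB s c 0) = fun _ => (0 : ℝ) := by
        funext p
        rfl
      rw [this]
      exact continuousAt_const
    · have hD : ∀ᵐ y : Fin (k + 1) ⊕ Fin s → ℝ, ∀ᶠ p : (Fin (k + 1) ⊕ Fin s → ℝ) × ℝ in
          𝓝 (y, 1 - ∑ i, y i), ((∑ j : Fin k, p.1 (Sum.inl j.castSucc) < c) ↔
            (∑ j : Fin k, y (Sum.inl j.castSucc) < c)) := by
        rcases k with _ | k
        · exact Eventually.of_forall fun y => Eventually.of_forall fun p => by simp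
        · filter_upwards [aeD k s c] with y hy
          have hc : Continuous (fun p : (Fin (k + 2) ⊕ Fin s → ℝ) × ℝ =>
            ∑ j : Fin (k + 1), p.1 (Sum.inl j.castSucc)) := by fun_prop
          exact ev_lt (f := fun p : (Fin (k + 2) ⊕ Fin s → ℝ) × ℝ =>
            ∑ j : Fin (k + 1), p.1 (Sum.inl j.castSucc)) (g := fun _ => c)
            hc.continuousAt continuousAt_const hy
      filter_upwards [ae_restrict_of_ae (aeC k s c), ae_restrict_of_ae hD] with y hy1 hy2
      have hc : Continuous (fun p : (Fin (k + 1) ⊕ Fin s → ℝ) × ℝ =>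
        ∑ j : Fin (k + 1), p.1 (Sum.inl j)) := by fun_prop
      have h1 := ev_lt (f := fun p : (Fin (k + 1) ⊕ Fin s → ℝ) × ℝ =>
        ∑ j : Fin (k + 1), p.1 (Sum.inl j)) (g := fun _ => c) (p0 := (y, 1 - ∑ i, y i))
        hc.continuousAt continuousAt_const hy1
      have hk : ContinuousAt (fun _ : (Fin (k + 1) ⊕ Fin s → ℝ) × ℝ =>
        if stp c (fun i => y (Sum.inl i)) then ((s : ℝ) + 1) ^ (2 * (k + 1)) else 0)
        (y, 1 - ∑ i, y i) := continuousAt_const
      refine hk.congr ?_
      filter_upwards [h1, hy2] with p h1 h2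
      have e : stp c (fun i => p.1 (Sum.inl i)) ↔ stp c (fun i => y (Sum.inl i)) := by
        unfold stp
        refine and_congr ?_ h2
        rw [← not_lt, ← not_lt]
        exact not_congr h1
      show _ = FB s c (k + 1) (fun i => p.1 (Sum.inl i)) (Fin.snoc (fun i => p.1 (Sum.inr i)) p.2)
      simp only [FB]
      by_cases h : stp c (fun i => y (Sum.inl i))
      · rw [if_pos h, if_pos (e.2 h)]
      · rw [if_neg h, if_neg fun h' => h (e.1 h')]

end Pool.Agent.Work.MP_122e00_nt.Gen

end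

section

set_option autoImplicit false

/-!
# The integral over the variables which are not marks
-/

namespace Pool.Agent.Work.MP_122e00_nt.Gen

open Finset Filter Topology MeasureTheory

open scoped ENNReal

open Two

namespace IB8

open IT8

/-- the open simplex -/
def De (k : ℕ) : Set (Fin k → ℝ) := {x : Fin k → ℝ | (∀ i, 0 < x i) ∧ ∑ i, x i < 1}

lemma De_meas (k : ℕ) : MeasurableSet (De k) := by
  unfold De
  have h1 : MeasurableSet {x : Fin k → ℝ | ∀ i, 0 < x i} := by
    rw [Set.ofPred_forall]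
    exact MeasurableSet.iInter (fun i => measurableSet_lt measurable_const (measurable_pi_apply i))
  have h2 : MeasurableSet {x : Fin k → ℝ | ∑ i, x i < 1} :=
    measurableSet_lt (Finset.measurable_sum _ (fun i _ => measurable_pi_apply i)) measurable_const
  exact h1.inter h2

lemma D_one_meas (k : ℕ) : Measurable (fun x : Fin k → ℝ => D k 1 x) :=
  (D_meas k).comp (measurable_const.prodMk measurable_id)

lemma D_nonneg {k : ℕ} {x : Fin k → ℝ} (hx : x ∈ De k) : 0 ≤ D k 1 x := by
  unfold D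
  refine Finset.prod_nonneg (fun j _ => inv_nonneg.mpr ?_)
  have h2 : ∑ i ∈ Finset.univ.filter (fun i : Fin k => i < j), x i ≤ ∑ i : Fin k, x i :=
    Finset.sum_le_sum_of_subset_of_nonneg (Finset.filter_subset _ _) (fun i _ _ => (hx.1 i).le)
  have := hx.2
  linarith

lemma proj_mem {k s : ℕ} {y : Fin k ⊕ Fin s → ℝ} (hy : y ∈ Sim k s) :
    (fun i => y (Sum.inl i)) ∈ De k := by
  refine ⟨fun i => hy.1 _, ?_⟩
  have h3 : 0 ≤ ∑ i : Fin s, y (Sum.inr i) :=
    Finset.sum_nonneg (fun i _ => (hy.1 (Sum.inr i)).le)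
  have h4 : ∑ i, y i < 1 := hy.2
  rw [Fintype.sum_sum_type] at h4
  show ∑ i : Fin k, y (Sum.inl i) < 1
  linarith

lemma den_eq {k s : ℕ} (y : Fin k ⊕ Fin s → ℝ) : den y = D k 1 (fun i => y (Sum.inl i)) := rfl

lemma lint (k s : ℕ) (f : (Fin k → ℝ) → ℝ) (hf : Measurable f) :
    ∫⁻ y in Sim k s, ENNReal.ofReal (f (fun i => y (Sum.inl i)) * den y) =
      ∫⁻ x in De k, ENNReal.ofReal (f x * D k 1 x * ((1 - ∑ i, x i) ^ s / (s.factorial : ℝ))) := by
  classical
  rw [← lintegral_indicator (Sim_meas k s), ← lintegral_indicator (De_meas k)]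
  have hg : Measurable (fun y : Fin k ⊕ Fin s → ℝ =>
      ENNReal.ofReal (f (fun i => y (Sum.inl i)) * den y)) := by
    refine ENNReal.measurable_ofReal.comp (Measurable.mul (hf.comp ?_) (den_meas k s))
    exact measurable_pi_lambda _ (fun i => measurable_pi_apply _)
  have hfm : Measurable ((Sim k s).indicator
      (fun y : Fin k ⊕ Fin s → ℝ => ENNReal.ofReal (f (fun i => y (Sum.inl i)) * den y))) :=
    hg.indicator (Sim_meas k s)
  have h := volume_measurePreserving_sumPiEquivProdPi_symm (fun _ : Fin k ⊕ Fin s => ℝ)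
  rw [← h.lintegral_comp hfm]
  rw [show (volume : Measure ((Fin k → ℝ) × (Fin s → ℝ))) = volume.prod volume from rfl]
  rw [lintegral_prod]
  swap
  · exact (hfm.comp (MeasurableEquiv.measurable _)).aemeasurable
  refine lintegral_congr (fun x => ?_)
  have e : ∀ v : Fin s → ℝ,
      (MeasurableEquiv.sumPiEquivProdPi fun _ : Fin k ⊕ Fin s => ℝ).symm (x, v) ∈ Sim k s ↔
      ((∀ i, 0 < x i) ∧ (∀ i, 0 < v i) ∧ ∑ i, v i < 1 - ∑ i, x i) := by
    intro v
    unfold Sim
    simp only [Set.mem_ofPred_eq]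
    rw [Fintype.sum_sum_type, Sum.forall]
    constructor
    · rintro ⟨⟨h1, h2⟩, h3⟩
      refine ⟨h1, h2, ?_⟩
      have h4 : ∑ i, x i + ∑ i, v i < 1 := h3
      linarith
    · rintro ⟨h1, h2, h3⟩
      refine ⟨⟨h1, h2⟩, ?_⟩
      show ∑ i, x i + ∑ i, v i < 1
      linarith
  have hin : ∀ v : Fin s → ℝ, (Sim k s).indicator
      (fun y : Fin k ⊕ Fin s → ℝ => ENNReal.ofReal (f (fun i => y (Sum.inl i)) * den y))
      ((MeasurableEquiv.sumPiEquivProdPi fun _ : Fin k ⊕ Fin s => ℝ).symm (x, v)) =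
      (if ∀ i, 0 < x i then ENNReal.ofReal (f x * D k 1 x) else 0) *
        (if (∀ i, 0 < v i) ∧ ∑ i, v i < 1 - ∑ i, x i then (1 : ℝ≥0∞) else 0) := by
    intro v
    by_cases hx : ∀ i, 0 < x i
    · rw [if_pos hx]
      by_cases hv : (∀ i, 0 < v i) ∧ ∑ i, v i < 1 - ∑ i, x i
      · rw [if_pos hv, mul_one, Set.indicator_of_mem ((e v).mpr ⟨hx, hv⟩)]
        rfl
      · rw [if_neg hv, mul_zero, Set.indicator_of_notMem (fun h => hv ((e v).mp h).2)]
    · rw [if_neg hx, zero_mul, Set.indicator_of_notMem (fun h => hx ((e v).mp h).1)]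
  rw [lintegral_congr hin, lintegral_const_mul _ (S0_meas s (1 - ∑ i, x i))]
  have hS := S0_eq s (1 - ∑ i, x i)
  unfold IT8.S0 at hS
  rw [hS]
  unfold G
  by_cases hx : x ∈ De k
  · have h1 : 0 < 1 - ∑ i, x i := by
      have := hx.2
      linarith
    rw [Set.indicator_of_mem hx, if_pos hx.1, if_pos h1]
    have h2 : f x * D k 1 x * ((1 - ∑ i, x i) ^ s / (s.factorial : ℝ)) =
        (f x * D k 1 x) * (1 / (s.factorial : ℝ) * (1 - ∑ i, x i) ^ s) := by ring
    have h3 : 0 ≤ 1 / (s.factorial : ℝ) * (1 - ∑ i, x i) ^ s :=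
      mul_nonneg (by positivity) (pow_nonneg h1.le _)
    rw [h2]
    exact (ENNReal.ofReal_mul' h3).symm
  · rw [Set.indicator_of_notMem hx]
    by_cases hx1 : ∀ i, 0 < x i
    · have h1 : ¬ 0 < 1 - ∑ i, x i := by
        intro h
        exact hx ⟨hx1, by linarith⟩
      rw [if_neg h1, mul_zero]
    · rw [if_neg hx1, zero_mul]

end IB8

open IB8 IT8 in
theorem prfB8 : claimB8 := by
  intro s k f B hf hB
  have h1 : 0 ≤ᵐ[volume.restrict (Sim k s)]
      (fun y : Fin k ⊕ Fin s → ℝ => f (fun i => y (Sum.inl i)) * den y) := by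
    refine (ae_restrict_iff' (Sim_meas k s)).mpr (Eventually.of_forall (fun y hy => ?_))
    exact mul_nonneg (hB _).1 (by rw [den_eq]; exact D_nonneg (proj_mem hy))
  have h2 : 0 ≤ᵐ[volume.restrict (De k)] (fun x : Fin k → ℝ =>
      f x * D k 1 x * ((1 - ∑ i, x i) ^ s / (s.factorial : ℝ))) := by
    refine (ae_restrict_iff' (De_meas k)).mpr (Eventually.of_forall (fun x hx => ?_))
    refine mul_nonneg (mul_nonneg (hB _).1 (D_nonneg hx)) (div_nonneg (pow_nonneg ?_ _) ?_)
    · have := hx.2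
      linarith
    · positivity
  have hm1 : AEStronglyMeasurable (fun y : Fin k ⊕ Fin s → ℝ =>
      f (fun i => y (Sum.inl i)) * den y) (volume.restrict (Sim k s)) := by
    refine (Measurable.mul (hf.comp ?_) (den_meas k s)).aestronglyMeasurable
    exact measurable_pi_lambda _ (fun i => measurable_pi_apply _)
  have hm2 : AEStronglyMeasurable (fun x : Fin k → ℝ =>
      f x * D k 1 x * ((1 - ∑ i, x i) ^ s / (s.factorial : ℝ))) (volume.restrict (De k)) := by
    refine (Measurable.mul (hf.mul (D_one_meas k)) ?_).aestronglyMeasurable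
    refine Measurable.div_const (Measurable.pow_const ?_ _) _
    exact measurable_const.sub (Finset.measurable_sum _ (fun i _ => measurable_pi_apply i))
  rw [integral_eq_lintegral_of_nonneg_ae h1 hm1, lint k s f hf]
  exact (integral_eq_lintegral_of_nonneg_ae h2 hm2).symm

end Pool.Agent.Work.MP_122e00_nt.Gen

end

section

set_option autoImplicit false

/-!
# G1: the divisor sum
-/

namespace Pool.Agent.Work.MP_122e00_nt.Gen

open Finset Filter Topology MeasureTheory

open Two

theorem prfG1 : claimG1 := by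
  classical
  intro s θ ψ hs hθ hθ2 hψ X m n z hX hn hmz
  have hL0 : 0 < Real.log X := Real.log_pos hX
  simp only [Two.TS, gs]
  have hpos : ∀ y ∈ Nat.finMulAntidiag (s + 1) n, ∀ i, y i ≠ 0 := by
    intro y hy i hi
    rw [Nat.mem_finMulAntidiag] at hy
    apply hy.2
    rw [← hy.1]
    exact Finset.prod_eq_zero (Finset.mem_univ i) hi
  rw [Finset.sum_comm]
  have hB : ∀ i : Fin (s + 1), ∑ y ∈ Nat.finMulAntidiag (s + 1) n,
      ψ (fun j => Real.log (y (i.succAbove j)) / Real.log X) = Two.Apsi ψ X z m := by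
    intro i
    unfold Two.Apsi
    have hps : ∀ b ∈ Two.tup s X,
        (if ((∏ i, b i : ℕ) : ℤ) ∣ (m : ℤ) - z then ψ (Two.lg X b) else 0) =
        if (∏ i, b i) ∣ n then ψ (fun j => Real.log (b j) / Real.log X) else 0 := by
      intro b _
      rw [hmz]
      by_cases h1 : (∏ i, b i) ∣ n
      · rw [if_pos (Int.natCast_dvd_natCast.2 h1), if_pos h1]
        rfl
      · rw [if_neg (fun h => h1 (Int.natCast_dvd_natCast.1 h)), if_neg h1]
    rw [Finset.sum_congr rfl hps, ← Finset.sum_filter,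
      ← Finset.sum_filter_ne_zero (s := Nat.finMulAntidiag (s + 1) n),
      ← Finset.sum_filter_ne_zero (s := (Two.tup s X).filter fun b => (∏ i, b i) ∣ n)]
    refine Finset.sum_nbij' (fun y => fun j => y (i.succAbove j))
      (fun b => i.insertNth (α := fun _ => ℕ) (n / ∏ j, b j) b) ?_ ?_ ?_ ?_ ?_
    · intro y hy
      rw [Finset.mem_filter] at hy
      obtain ⟨hy1, hy2⟩ := hy
      have hy3 := (hψ.supp _ hy2).2
      have h0 := hpos y hy1
      rw [Nat.mem_finMulAntidiag] at hy1
      rw [Finset.mem_filter, Finset.mem_filter]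
      refine ⟨⟨?_, ?_⟩, hy2⟩
      · rw [Two.tup, Fintype.mem_piFinset]
        intro j
        rw [Finset.mem_Icc]
        refine ⟨Nat.one_le_iff_ne_zero.2 (h0 _), ?_⟩
        apply Nat.le_floor
        have h3 : Real.log (y (i.succAbove j)) / Real.log X ≤ 1 / 2 - θ :=
          (Finset.single_le_sum (f := fun j : Fin s => Real.log (y (i.succAbove j)) / Real.log X)
            (fun j _ => div_nonneg (Real.log_natCast_nonneg _) hL0.le)
            (Finset.mem_univ j)).trans hy3
        have h4 : Real.log (y (i.succAbove j)) ≤ Real.log X := by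
          rw [div_le_iff₀ hL0] at h3
          nlinarith
        have h5 : (0 : ℝ) < (y (i.succAbove j) : ℝ) := by
          exact_mod_cast Nat.pos_of_ne_zero (h0 _)
        exact (Real.log_le_log_iff h5 (by linarith)).1 h4
      · rw [← hy1.1, Fin.prod_univ_succAbove _ i]
        exact dvd_mul_left _ _
    · intro b hb
      rw [Finset.mem_filter, Finset.mem_filter] at hb
      obtain ⟨⟨hb1, hb2⟩, hb3⟩ := hb
      rw [Finset.mem_filter, Nat.mem_finMulAntidiag]
      refine ⟨⟨?_, hn⟩, ?_⟩
      · rw [Fin.prod_univ_succAbove _ i]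
        simp only [Fin.insertNth_apply_same, Fin.insertNth_apply_succAbove]
        exact Nat.div_mul_cancel hb2
      · simp only [Fin.insertNth_apply_succAbove]
        exact hb3
    · intro y hy
      rw [Finset.mem_filter] at hy
      obtain ⟨hy1, hy2⟩ := hy
      have h0 := hpos y hy1
      rw [Nat.mem_finMulAntidiag] at hy1
      have h1 : n / ∏ j, y (i.succAbove j) = y i := by
        rw [← hy1.1, Fin.prod_univ_succAbove _ i]
        apply Nat.mul_div_cancel
        apply Nat.pos_of_ne_zero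
        exact Finset.prod_ne_zero_iff.2 (fun j _ => h0 _)
      funext q
      rcases Fin.eq_self_or_eq_succAbove i q with h | ⟨j, h⟩
      · rw [h]
        simp only [Fin.insertNth_apply_same]
        exact h1
      · rw [h]
        simp only [Fin.insertNth_apply_succAbove]
    · intro b hb
      funext j
      simp only [Fin.insertNth_apply_succAbove]
    · intro y hy
      rfl
  rw [Finset.sum_congr rfl (fun i _ => hB i)]
  simp

end Pool.Agent.Work.MP_122e00_nt.Gen

end
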