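import Pool.Agent.Work.MP_122e00_nt.Sharp.Stmts
import Pool.Agent.Work.MP_122e00_nt.Sharp.Cert.Stmts

/-! Bundle of small proof modules (one section per former module). -/

section

set_option autoImplicit false

/-!
# Item N1: the mean value of the structure sums
-/

namespace Pool.Agent.Work.MP_122e00_nt.Sharp

open Finset Filter Topology MeasureTheory

open scoped ENNReal

open Two Gen

theorem prfN1 (hM1 : Gen.claimM1) (hM2 : Gen.claimM2) (hF1 : claimF1) (hF2 : claimF2)
    (hF3 : claimF3) : claimN1 := by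
  intro s m T h R a b θ hs hh ha hb hR hθ hθ1
  obtain ⟨B, hB⟩ := hF1 s m T R a b ha hb hR
  have hW := (hF3 s a b θ hs ha.le hb hθ hθ1).1
  have key : ∀ k : ℕ, Mean s h (psw a b s θ)
      (fun X n => TS (Real.log X) s k n (FS m T R (gs (psw a b s θ)) k)) (IK s m T R a b θ k) := by
    intro k
    refine hM1 s k h θ (psw a b s θ) hs hh hθ hθ1 hW (FS m T R (gs (psw a b s θ)) k) B
      (fun x v => ?_) (hF2 s m T k R a b θ hs ha hb hθ.le hθ1)
    rw [abs_of_nonneg (hB θ hθ.le k x v).1]
    exact (hB θ hθ.le k x v).2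
  have main : ∀ M : ℕ, Mean s h (psw a b s θ) (fun X n => ∑ k ∈ Finset.range (M + 1),
        TS (Real.log X) s k n (FS m T R (gs (psw a b s θ)) k))
      (∑ k ∈ Finset.range (M + 1), IK s m T R a b θ k) := by
    intro M
    induction M with
    | zero =>
      simp only [zero_add, Finset.sum_range_one]
      exact key 0
    | succ M ih =>
      simp only [Finset.sum_range_succ _ (M + 1)]
      exact hM2 s h _ _ _ _ _ ih (key (M + 1))
  exact main m

end Pool.Agent.Work.MP_122e00_nt.Sharp

end

section

set_option autoImplicit false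

/-!
# Q2: splitting of the symmetric weight
-/

namespace Pool.Agent.Work.MP_122e00_nt.Sharp

open Finset Filter Topology MeasureTheory

open scoped ENNReal ArithmeticFunction.vonMangoldt ArithmeticFunction.zeta

open Two Gen

theorem prfQ2 (hQ0 : claimQ0) : claimQ2 := by
  intro T l m x y
  rw [hQ0, Fin.prod_univ_add]
  simp only [Fin.append_left, Fin.append_right]
  set P := ∏ i : Fin T, PowerSeries.mk fun n : ℕ =>
      if n = 0 then (0 : ℝ) else x i ^ (n - 1) / (n.factorial : ℝ) with hP
  set R := ∏ i : Fin l, PowerSeries.mk fun n : ℕ =>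
      if n = 0 then (0 : ℝ) else y i ^ (n - 1) / (n.factorial : ℝ) with hR
  rw [mul_comm P R, PowerSeries.coeff_mul,
    Finset.Nat.sum_antidiagonal_eq_sum_range_succ
      (fun i j => PowerSeries.coeff i R * PowerSeries.coeff j P) m, Finset.mul_sum]
  refine Finset.sum_congr rfl fun t ht => ?_
  have ht' : t ≤ m := Nat.lt_succ_iff.1 (Finset.mem_range.1 ht)
  rw [hQ0 T (m - t) x, hQ0 l t y, ← hP, ← hR]
  have hc : ((m.choose t : ℝ)) * (t.factorial : ℝ) *
      ((m - t).factorial : ℝ) = (m.factorial : ℝ) := by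
    exact_mod_cast Nat.choose_mul_factorial_mul_factorial ht'
  rw [← hc]
  ring

end Pool.Agent.Work.MP_122e00_nt.Sharp

end

section

set_option autoImplicit false

/-!
# Sharp scheme, item Q3 (helper43): simple properties of the weights
-/

namespace Pool.Agent.Work.MP_122e00_nt.Sharp

open Finset Filter Topology MeasureTheory

open Two Gen

namespace IQ3

theorem nonneg (k : ℕ) : ∀ (m : ℕ) (x : Fin k → ℝ), (∀ i, 0 ≤ x i) →
    0 ≤ Qo k m x ∧ 0 ≤ Qs k m x := by
  induction k with
  | zero =>
    intro m x _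
    constructor
    · unfold Qo
      split_ifs <;> norm_num
    · unfold Qs
      split_ifs <;> norm_num
  | succ k ih =>
    intro m x hx
    have ht : ∀ i, 0 ≤ Fin.tail x i := fun i => hx i.succ
    constructor
    · unfold Qo
      refine Finset.sum_nonneg fun b _ => ?_
      exact mul_nonneg (mul_nonneg (Nat.cast_nonneg _) (pow_nonneg (hx 0) _)) (ih _ _ ht).1
    · unfold Qs
      refine Finset.sum_nonneg fun b _ => ?_
      exact mul_nonneg (mul_nonneg (Nat.cast_nonneg _) (pow_nonneg (hx 0) _)) (ih _ _ ht).2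

theorem cont (k : ℕ) : ∀ (m : ℕ), Continuous (Qo k m) ∧ Continuous (Qs k m) := by
  induction k with
  | zero =>
    intro m
    constructor
    · have : Qo 0 m = fun _ => if m = 0 then 1 else 0 := by
        funext x
        rw [Qo]
      rw [this]
      exact continuous_const
    · have : Qs 0 m = fun _ => if m = 0 then 1 else 0 := by
        funext x
        rw [Qs]
      rw [this]
      exact continuous_const
  | succ k ih =>
    intro m
    have ht : Continuous (fun x : Fin (k + 1) → ℝ => Fin.tail x) :=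
      continuous_pi fun i => continuous_apply i.succ
    constructor
    · have : Qo (k + 1) m = fun x => ∑ b ∈ Finset.range m,
          ((m - 1).choose b : ℝ) * x 0 ^ b * Qo k (m - 1 - b) (Fin.tail x) := by
        funext x
        rw [Qo]
      rw [this]
      refine continuous_finsetSum _ fun b _ => ?_
      exact (continuous_const.mul ((continuous_apply 0).pow b)).mul ((ih _).1.comp ht)
    · have : Qs (k + 1) m = fun x => ∑ b ∈ Finset.range m,
          (m.choose (b + 1) : ℝ) * x 0 ^ b * Qs k (m - (b + 1)) (Fin.tail x) := by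
        funext x
        rw [Qs]
      rw [this]
      refine continuous_finsetSum _ fun b _ => ?_
      exact (continuous_const.mul ((continuous_apply 0).pow b)).mul ((ih _).2.comp ht)

theorem vanish (k : ℕ) : ∀ (m : ℕ) (x : Fin k → ℝ), m < k → Qo k m x = 0 ∧ Qs k m x = 0 := by
  induction k with
  | zero =>
    intro m x hm
    exact absurd hm (Nat.not_lt_zero _)
  | succ k ih =>
    intro m x hm
    constructor
    · rw [Qo]
      refine Finset.sum_eq_zero fun b hb => ?_
      rw [Finset.mem_range] at hb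
      rw [(ih (m - 1 - b) (Fin.tail x) (by omega)).1, mul_zero]
    · rw [Qs]
      refine Finset.sum_eq_zero fun b hb => ?_
      rw [Finset.mem_range] at hb
      rw [(ih (m - (b + 1)) (Fin.tail x) (by omega)).2, mul_zero]

theorem bound (k : ℕ) : ∀ m : ℕ, ∃ B : ℝ, 0 ≤ B ∧ ∀ x : Fin k → ℝ,
    (∀ i, 0 ≤ x i ∧ x i ≤ 2) → Qo k m x ≤ B := by
  induction k with
  | zero =>
    intro m
    refine ⟨1, by norm_num, fun x _ => ?_⟩
    unfold Qo
    split_ifs <;> norm_num
  | succ k ih =>
    intro m
    choose B hB0 hB using ih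
    refine ⟨∑ b ∈ Finset.range m, ((m - 1).choose b : ℝ) * 2 ^ b * B (m - 1 - b), ?_, ?_⟩
    · refine Finset.sum_nonneg fun b _ => ?_
      exact mul_nonneg (mul_nonneg (Nat.cast_nonneg _) (by positivity)) (hB0 _)
    · intro x hx
      rw [Qo]
      have ht : ∀ i, 0 ≤ Fin.tail x i ∧ Fin.tail x i ≤ 2 := fun i => hx i.succ
      refine Finset.sum_le_sum fun b _ => ?_
      refine mul_le_mul ?_ (hB _ _ ht) (nonneg k _ _ fun i => (ht i).1).1
        (mul_nonneg (Nat.cast_nonneg _) (by positivity))
      exact mul_le_mul_of_nonneg_left (pow_le_pow_left₀ (hx 0).1 (hx 0).2 b) (Nat.cast_nonneg _)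

end IQ3

theorem prfQ3 : claimQ3 := by
  refine ⟨fun k m x hx => IQ3.nonneg k m x hx, fun k m => IQ3.cont k m,
    fun k m x hm => IQ3.vanish k m x hm, fun m => ?_⟩
  choose B hB0 hB using fun k => IQ3.bound k m
  refine ⟨∑ k ∈ Finset.range (m + 1), B k, fun k x hx => ?_⟩
  rcases Nat.lt_or_ge m k with h | h
  · rw [(IQ3.vanish k m x h).1]
    exact Finset.sum_nonneg fun k _ => hB0 k
  · exact (hB k x hx).trans (Finset.single_le_sum (fun k _ => hB0 k)
      (Finset.mem_range.2 (Nat.lt_succ_of_le h)))

end Pool.Agent.Work.MP_122e00_nt.Sharp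

end

section

set_option autoImplicit false

/-!
# C2: mixed moments of two affine functions on a simplex
-/

namespace Pool.Agent.Work.MP_122e00_nt.Sharp.Cx

open Finset MeasureTheory

open scoped ENNReal

open Gen

noncomputable section

namespace IC2

/-- One recursion for all indices. -/
theorem h2_succ {A : Type} [CommSemiring A] (a g : ℕ → A) (N d e : ℕ) :
    h2 a g (N + 1) d e = h2 a g N d e + (if d = 0 then 0 else a N * h2 a g (N + 1) (d - 1) e) +
      (if e = 0 then 0 else g N * h2 a g (N + 1) d (e - 1)) := by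
  cases d with
  | zero =>
    cases e with
    | zero => rw [h2]; simp
    | succ e => rw [h2]; simp
  | succ d =>
    cases e with
    | zero => rw [h2]; simp
    | succ e => rw [h2]; simp

/-- The one variable function of `a + u g` is the generating function of the mixed ones. -/
theorem h2_add_smul (a g : ℕ → ℝ) (u : ℝ) (N D : ℕ) :
    h2 (fun v => a v + u * g v) (fun _ => 0) N D 0 =
      ∑ p ∈ antidiagonal D, u ^ p.2 * h2 a g N p.1 p.2 := by
  induction N generalizing D with
  | zero =>
    cases D with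
    | zero => simp [h2]
    | succ D =>
      rw [h2, if_neg (by simp), Finset.sum_eq_zero]
      intro p hp
      rw [HasAntidiagonal.mem_antidiagonal] at hp
      rw [h2, if_neg (by omega), mul_zero]
  | succ N ihN =>
    induction D with
    | zero =>
      have h := ihN 0
      rw [Finset.Nat.antidiagonal_zero, sum_singleton] at h ⊢
      simp only [pow_zero, one_mul] at h ⊢
      rw [h2_succ, h2_succ a g]
      simpa using h
    | succ D ihD =>
      rw [h2_succ]
      simp only [Nat.add_eq_zero_iff, one_ne_zero, and_false, if_false, Nat.add_sub_cancel,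
        if_true, add_zero]
      rw [ihN (D + 1), ihD]
      have e1 : ∀ p : ℕ × ℕ, u ^ p.2 * h2 a g (N + 1) p.1 p.2 = u ^ p.2 * h2 a g N p.1 p.2 +
          u ^ p.2 * (if p.1 = 0 then 0 else a N * h2 a g (N + 1) (p.1 - 1) p.2) +
          u ^ p.2 * (if p.2 = 0 then 0 else g N * h2 a g (N + 1) p.1 (p.2 - 1)) := by
        intro p
        rw [h2_succ]
        ring
      have e2 : ∑ p ∈ antidiagonal (D + 1), u ^ p.2 * h2 a g (N + 1) p.1 p.2 =
          ∑ p ∈ antidiagonal (D + 1), u ^ p.2 * h2 a g N p.1 p.2 +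
          ∑ p ∈ antidiagonal (D + 1),
            u ^ p.2 * (if p.1 = 0 then 0 else a N * h2 a g (N + 1) (p.1 - 1) p.2) +
          ∑ p ∈ antidiagonal (D + 1),
            u ^ p.2 * (if p.2 = 0 then 0 else g N * h2 a g (N + 1) p.1 (p.2 - 1)) := by
        rw [← sum_add_distrib, ← sum_add_distrib]
        exact sum_congr rfl fun p _ => e1 p
      rw [e2, Finset.Nat.sum_antidiagonal_succ (f := fun p =>
        u ^ p.2 * (if p.1 = 0 then 0 else a N * h2 a g (N + 1) (p.1 - 1) p.2)),
        Finset.Nat.sum_antidiagonal_succ' (f := fun p =>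
        u ^ p.2 * (if p.2 = 0 then 0 else g N * h2 a g (N + 1) p.1 (p.2 - 1)))]
      simp only [if_true, mul_zero, zero_add, Nat.add_eq_zero_iff, one_ne_zero, and_false,
        if_false, Nat.add_sub_cancel]
      have e3 : (a N + u * g N) * ∑ p ∈ antidiagonal D, u ^ p.2 * h2 a g (N + 1) p.1 p.2 =
          ∑ p ∈ antidiagonal D, u ^ p.2 * (a N * h2 a g (N + 1) p.1 p.2) +
          ∑ p ∈ antidiagonal D, u ^ (p.2 + 1) * (g N * h2 a g (N + 1) p.1 p.2) := by
        rw [mul_sum, ← sum_add_distrib]
        refine sum_congr rfl fun p _ => ?_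
        ring
      rw [e3]
      ring

theorem lf_add_smul (n : ℕ) (a g : ℕ → ℝ) (u : ℝ) (y : Fin n → ℝ) :
    lf n (fun v => a v + u * g v) y = lf n a y + u * lf n g y := by
  unfold lf
  have : ∑ i : Fin n, y i * (a i.val + u * g i.val) =
      ∑ i : Fin n, y i * a i.val + u * ∑ i : Fin n, y i * g i.val := by
    rw [mul_sum, ← sum_add_distrib]
    exact sum_congr rfl fun i _ => by ring
  rw [this]
  ring

theorem continuous_lf (n : ℕ) (a : ℕ → ℝ) : Continuous (lf n a) := by
  unfold lf
  fun_prop

theorem isCompact_T (n : ℕ) : IsCompact (Chamber.T (Fin n)) := by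
  have hc : IsClosed (Chamber.T (Fin n)) := by
    have h1 : IsClosed {y : Fin n → ℝ | ∀ i, 0 ≤ y i} := by
      rw [show {y : Fin n → ℝ | ∀ i, 0 ≤ y i} = ⋂ i, {y | 0 ≤ y i} by ext; simp]
      exact isClosed_iInter fun i => isClosed_le continuous_const (continuous_apply i)
    have h2 : IsClosed {y : Fin n → ℝ | ∑ i, y i ≤ 1} :=
      isClosed_le (by fun_prop) continuous_const
    exact h1.inter h2
  refine (isCompact_Icc (a := (0 : Fin n → ℝ)) (b := 1)).of_isClosed_subset hc ?_
  intro y hy
  refine ⟨fun i => hy.1 i, fun i => ?_⟩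
  exact (Finset.single_le_sum (fun j _ => hy.1 j) (mem_univ i)).trans hy.2

theorem integrableOn_T (n : ℕ) (f : (Fin n → ℝ) → ℝ) (hf : Continuous f) :
    IntegrableOn f (Chamber.T (Fin n)) :=
  hf.continuousOn.integrableOn_compact (isCompact_T n)

/-- Comparison of coefficients on an antidiagonal. -/
theorem coeff_zero (D : ℕ) (c : ℕ × ℕ → ℝ)
    (h : ∀ u : ℝ, ∑ p ∈ antidiagonal D, u ^ p.2 * c p = 0) (d e : ℕ) (hde : d + e = D) :
    c (d, e) = 0 := by
  have hP : (∑ p ∈ antidiagonal D, Polynomial.C (c p) * Polynomial.X ^ p.2 : Polynomial ℝ) = 0 := by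
    refine Polynomial.funext fun u => ?_
    rw [Polynomial.eval_finsetSum, Polynomial.eval_zero, ← h u]
    refine sum_congr rfl fun p _ => ?_
    rw [Polynomial.eval_mul, Polynomial.eval_C, Polynomial.eval_pow, Polynomial.eval_X, mul_comm]
  have h1 := congrArg (fun P : Polynomial ℝ => P.coeff e) hP
  simp only [Polynomial.finsetSum_coeff, Polynomial.coeff_C_mul_X_pow, Polynomial.coeff_zero] at h1
  rw [Finset.sum_eq_single (d, e)] at h1
  · simpa using h1
  · intro p hp hne
    rw [HasAntidiagonal.mem_antidiagonal] at hp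
    rw [if_neg]
    intro he
    apply hne
    ext
    · simp only; omega
    · simp only; omega
  · intro hne
    exact absurd (HasAntidiagonal.mem_antidiagonal.mpr hde) hne

end IC2

open IC2 in
theorem prfC2 (hC1 : claimC1) : claimC2 := by
  intro n d e a g
  have key : ∀ u : ℝ, ∑ p ∈ antidiagonal (d + e), u ^ p.2 *
      ((((d + e).choose p.1 : ℕ) : ℝ) * (∫ y in Chamber.T (Fin n), lf n a y ^ p.1 * lf n g y ^ p.2) -
        ((d + e).factorial : ℝ) / ((n + (d + e)).factorial : ℝ) * h2 a g (n + 1) p.1 p.2) = 0 := by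
    intro u
    have h1 := hC1 n (d + e) (fun v => a v + u * g v)
    rw [h2_add_smul] at h1
    have h3 : ∫ y in Chamber.T (Fin n), lf n (fun v => a v + u * g v) y ^ (d + e) =
        ∑ p ∈ antidiagonal (d + e), u ^ p.2 * ((((d + e).choose p.1 : ℕ) : ℝ) *
          (∫ y in Chamber.T (Fin n), lf n a y ^ p.1 * lf n g y ^ p.2)) := by
      have e1 : ∀ y : Fin n → ℝ, lf n (fun v => a v + u * g v) y ^ (d + e) =
          ∑ p ∈ antidiagonal (d + e), (u ^ p.2 * (((d + e).choose p.1 : ℕ) : ℝ)) *
            (lf n a y ^ p.1 * lf n g y ^ p.2) := by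
        intro y
        rw [lf_add_smul, (Commute.all _ _).add_pow']
        refine sum_congr rfl fun p _ => ?_
        rw [nsmul_eq_mul, mul_pow]
        ring
      simp only [e1]
      rw [integral_finsetSum]
      · refine sum_congr rfl fun p _ => ?_
        rw [integral_const_mul]
        ring
      · intro p _
        refine (integrableOn_T n _ ?_)
        exact continuous_const.mul (((continuous_lf n a).pow _).mul ((continuous_lf n g).pow _))
    rw [h3, mul_sum] at h1
    have h4 := sub_eq_zero.mpr h1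
    rw [← sum_sub_distrib] at h4
    rw [← h4]
    refine sum_congr rfl fun p _ => ?_
    ring
  have hc := coeff_zero (d + e) _ key d e rfl
  simp only at hc
  have hch : (((d + e).choose d : ℕ) : ℝ) * ((d.factorial : ℝ) * (e.factorial : ℝ)) =
      ((d + e).factorial : ℝ) := by
    have := Nat.choose_mul_factorial_mul_factorial (Nat.le_add_right d e)
    rw [Nat.add_sub_cancel_left] at this
    rw [← mul_assoc]
    exact_mod_cast this
  have hpos : (0 : ℝ) < ((d + e).choose d : ℕ) := by
    exact_mod_cast Nat.choose_pos (Nat.le_add_right d e)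
  have hc' := sub_eq_zero.mp hc
  rw [← hch] at hc'
  have : (((d + e).choose d : ℕ) : ℝ) * (∫ y in Chamber.T (Fin n), lf n a y ^ d * lf n g y ^ e) =
      (((d + e).choose d : ℕ) : ℝ) * (((d.factorial : ℝ) * (e.factorial : ℝ)) /
        ((n + d + e).factorial : ℝ) * h2 a g (n + 1) d e) := by
    rw [hc', ← add_assoc]
    ring
  exact mul_left_cancel₀ hpos.ne' this

end

end Pool.Agent.Work.MP_122e00_nt.Sharp.Cx

end

section

set_option autoImplicit false

/-!
# C3: the table program computes `h2`
-/

namespace Pool.Agent.Work.MP_122e00_nt.Sharp.Cx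

namespace IC3

/-- a row of a table -/
def rw4 (F : ℕ → ℕ → ℕ) (d : ℕ) : List ℕ := [F d 0, F d 1, F d 2, F d 3]

/-- the rows `d, …, d + n` -/
def tb (F : ℕ → ℕ → ℕ) : ℕ → ℕ → List (List ℕ)
  | d, 0 => [rw4 F d]
  | d, n + 1 => rw4 F d :: tb F (d + 1) n

theorem row_eq (L g x0 x1 x2 x3 : ℕ) (prev : List ℕ) :
    row L g [x0, x1, x2, x3] prev 0 =
      [x0 + L * hd prev + g * 0,
       x1 + L * hd (tl prev) + g * (x0 + L * hd prev + g * 0),
       x2 + L * hd (tl (tl prev)) + g * (x1 + L * hd (tl prev) + g * (x0 + L * hd prev + g * 0)),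
       x3 + L * hd (tl (tl (tl prev))) + g * (x2 + L * hd (tl (tl prev)) +
        g * (x1 + L * hd (tl prev) + g * (x0 + L * hd prev + g * 0)))] := rfl

theorem step_nil (L g : ℕ) (prev : List ℕ) : step L g [] prev = [] := rfl

theorem step_cons (L g : ℕ) (old : List ℕ) (tab : List (List ℕ)) (prev : List ℕ) :
    step L g (old :: tab) prev = row L g old prev 0 :: step L g tab (row L g old prev 0) := rfl

theorem tabs_nil (gs : List ℕ) (t : List (List ℕ)) : tabs [] gs t = t := rfl

theorem tabs_cons (L : ℕ) (Ls gs : List ℕ) (t : List (List ℕ)) :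
    tabs (L :: Ls) gs t = tabs Ls (tl gs) (step L (hd gs) t []) := rfl

/-- last row, with a default -/
def lastA (l : List (List ℕ)) : List ℕ → List ℕ :=
  @List.rec (List ℕ) (fun _ => List ℕ → List ℕ) (fun d => d) (fun a _ ih _ => ih a) l

theorem last_eq (l : List (List ℕ)) : last l = lastA l [] := rfl

theorem lastA_cons (a : List ℕ) (l : List (List ℕ)) (d : List ℕ) :
    lastA (a :: l) d = lastA l a := rfl

theorem lastA_tb (F : ℕ → ℕ → ℕ) : ∀ (n d : ℕ) (x : List ℕ), lastA (tb F d n) x = rw4 F (d + n) := by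
  intro n
  induction n with
  | zero => intro d x; rfl
  | succ n ih =>
    intro d x
    rw [tb, lastA_cons, ih (d + 1)]
    congr 1
    omega

theorem h2_0s (a g : ℕ → ℕ) (N e : ℕ) :
    h2 a g (N + 1) 0 (e + 1) = h2 a g N 0 (e + 1) + g N * h2 a g (N + 1) 0 e := by rw [h2]

theorem h2_ss (a g : ℕ → ℕ) (N d e : ℕ) :
    h2 a g (N + 1) (d + 1) (e + 1) = h2 a g N (d + 1) (e + 1) + a N * h2 a g (N + 1) d (e + 1) +
      g N * h2 a g (N + 1) (d + 1) e := by rw [h2]

/-- the row of degree `0` -/
theorem row_zero (a g : ℕ → ℕ) (N : ℕ) :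
    row (a N) (g N) (rw4 (h2 a g N) 0) [] 0 = rw4 (h2 a g (N + 1)) 0 := by
  unfold rw4
  rw [row_eq]
  have e0 : h2 a g (N + 1) 0 0 = h2 a g N 0 0 := by rw [h2]
  have e1 : h2 a g (N + 1) 0 1 = h2 a g N 0 1 + g N * h2 a g (N + 1) 0 0 := h2_0s a g N 0
  have e2 : h2 a g (N + 1) 0 2 = h2 a g N 0 2 + g N * h2 a g (N + 1) 0 1 := h2_0s a g N 1
  have e3 : h2 a g (N + 1) 0 3 = h2 a g N 0 3 + g N * h2 a g (N + 1) 0 2 := h2_0s a g N 2
  rw [e3, e2, e1, e0]
  simp only [hd, tl, mul_zero, add_zero]

/-- the rows of positive degree -/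
theorem row_succ (a g : ℕ → ℕ) (N d : ℕ) :
    row (a N) (g N) (rw4 (h2 a g N) (d + 1)) (rw4 (h2 a g (N + 1)) d) 0 =
      rw4 (h2 a g (N + 1)) (d + 1) := by
  unfold rw4
  rw [row_eq]
  have e0 : h2 a g (N + 1) (d + 1) 0 = h2 a g N (d + 1) 0 + a N * h2 a g (N + 1) d 0 := by rw [h2]
  have e1 : h2 a g (N + 1) (d + 1) 1 = h2 a g N (d + 1) 1 + a N * h2 a g (N + 1) d 1 +
      g N * h2 a g (N + 1) (d + 1) 0 := h2_ss a g N d 0
  have e2 : h2 a g (N + 1) (d + 1) 2 = h2 a g N (d + 1) 2 + a N * h2 a g (N + 1) d 2 +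
      g N * h2 a g (N + 1) (d + 1) 1 := h2_ss a g N d 1
  have e3 : h2 a g (N + 1) (d + 1) 3 = h2 a g N (d + 1) 3 + a N * h2 a g (N + 1) d 3 +
      g N * h2 a g (N + 1) (d + 1) 2 := h2_ss a g N d 2
  rw [e3, e2, e1, e0]
  simp only [hd, tl, mul_zero, add_zero]

theorem step_succ (a g : ℕ → ℕ) (N : ℕ) : ∀ n d : ℕ,
    step (a N) (g N) (tb (h2 a g N) (d + 1) n) (rw4 (h2 a g (N + 1)) d) =
      tb (h2 a g (N + 1)) (d + 1) n := by
  intro n
  induction n with
  | zero =>
    intro d
    rw [tb, tb, step_cons, row_succ, step_nil]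
  | succ n ih =>
    intro d
    rw [tb, tb, step_cons, row_succ, ih (d + 1)]

theorem step_tb (a g : ℕ → ℕ) (N n : ℕ) :
    step (a N) (g N) (tb (h2 a g N) 0 n) [] = tb (h2 a g (N + 1)) 0 n := by
  cases n with
  | zero => rw [tb, tb, step_cons, row_zero, step_nil]
  | succ n => rw [tb, tb, step_cons, row_zero, step_succ a g N n 0]

theorem tabs_tb (a g : ℕ → ℕ) (n : ℕ) : ∀ (Ls gs : List ℕ) (N : ℕ),
    (∀ i, i < Ls.length → nthN Ls i = a (N + i)) → (∀ i, nthN gs i = g (N + i)) →
    tabs Ls gs (tb (h2 a g N) 0 n) = tb (h2 a g (N + Ls.length)) 0 n := by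
  intro Ls
  induction Ls with
  | nil => intro gs N _ _; rfl
  | cons L Ls ih =>
    intro gs N h1 h2'
    have hL : L = a N := h1 0 (Nat.succ_pos _)
    have hg : hd gs = g N := h2' 0
    rw [tabs_cons, hL, hg, step_tb, ih (tl gs) (N + 1)]
    · rw [List.length_cons]
      congr 2
      omega
    · intro i hi
      have h3 : nthN (L :: Ls) (i + 1) = a (N + (i + 1)) :=
        h1 (i + 1) (by rw [List.length_cons]; omega)
      rw [show N + 1 + i = N + (i + 1) by omega, ← h3]
      rfl
    · intro i
      have h3 : nthN gs (i + 1) = g (N + (i + 1)) := h2' (i + 1)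
      rw [show N + 1 + i = N + (i + 1) by omega, ← h3]
      rfl

/-- zero rows -/
def zrows (n : ℕ) : List (List ℕ) :=
  @Nat.rec (fun _ => List (List ℕ)) [] (fun _ ih => List.cons [0, 0, 0, 0] ih) n

theorem tb_zero (a g : ℕ → ℕ) : ∀ n d : ℕ, tb (h2 a g 0) (d + 1) n = zrows (n + 1) := by
  have hz : ∀ d, rw4 (h2 a g 0) (d + 1) = [0, 0, 0, 0] := by
    intro d
    unfold rw4
    have e : ∀ e, h2 a g 0 (d + 1) e = 0 := by
      intro e
      rw [h2, if_neg (by omega)]
    rw [e, e, e, e]
  intro n
  induction n with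
  | zero =>
    intro d
    rw [tb, hz]
    rfl
  | succ n ih =>
    intro d
    rw [tb, hz, ih (d + 1)]
    rfl

theorem t0_eq (a g : ℕ → ℕ) (D : ℕ) : t0 D = tb (h2 a g 0) 0 D := by
  have h0 : rw4 (h2 a g 0) 0 = [1, 0, 0, 0] := by
    unfold rw4
    have e0 : h2 a g 0 0 0 = 1 := by rw [h2, if_pos ⟨rfl, rfl⟩]
    have e1 : ∀ e, h2 a g 0 0 (e + 1) = 0 := by
      intro e
      rw [h2, if_neg (by omega)]
    rw [e0, e1 0, e1 1, e1 2]
  have h1 : t0 D = [1, 0, 0, 0] :: zrows D := rfl
  rw [h1]
  cases D with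
  | zero => rw [tb, h0]; rfl
  | succ n => rw [tb, h0, tb_zero]

end IC3

open IC3 in
theorem prfC3 : claimC3 := by
  intro Ls gs D e _ he
  have h1 : tabs Ls gs (t0 D) = tb (h2 (nthN Ls) (nthN gs) Ls.length) 0 D := by
    rw [t0_eq (nthN Ls) (nthN gs) D,
      tabs_tb (nthN Ls) (nthN gs) D Ls gs 0 (fun i _ => by rw [Nat.zero_add])
        (fun i => by rw [Nat.zero_add]), Nat.zero_add]
  rw [h1, last_eq, lastA_tb, Nat.zero_add]
  interval_cases e <;> rfl

end Pool.Agent.Work.MP_122e00_nt.Sharp.Cx

end

section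

set_option autoImplicit false

/-!
# C4: the bound for the tables
-/

namespace Pool.Agent.Work.MP_122e00_nt.Sharp.Cx

namespace IC4

theorem fac_eq (n : ℕ) : fac n = n.factorial := by
  induction n with
  | zero => rfl
  | succ n ih =>
    have h : fac (n + 1) = (n + 1) * fac n := rfl
    rw [h, ih, Nat.factorial_succ]

theorem bin_eq (n j : ℕ) : bin n j = (n + j).choose j := by
  have h : bin n j = fac (n + j) / (fac n * fac j) := rfl
  rw [h, fac_eq, fac_eq, fac_eq, Nat.add_choose]

theorem mono (a g : ℕ → ℕ) (A G : ℕ) : ∀ N : ℕ, (∀ v, v < N → a v ≤ A) → (∀ v, v < N → g v ≤ G) →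
    ∀ s d e : ℕ, d + e = s → h2 a g N d e ≤ h2 (fun _ => A) (fun _ => G) N d e := by
  intro N
  induction N with
  | zero =>
    intro _ _ s d e _
    simp only [h2]
    exact le_refl _
  | succ N ihN =>
    intro ha hg s
    have iN := ihN (fun v hv => ha v (by omega)) (fun v hv => hg v (by omega))
    have haN := ha N (by omega)
    have hgN := hg N (by omega)
    induction s with
    | zero =>
      intro d e hde
      obtain rfl : d = 0 := by omega
      obtain rfl : e = 0 := by omega
      simp only [h2]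
      exact iN _ _ _ rfl
    | succ s ihs =>
      intro d e hde
      rcases d with _ | d
      · rcases e with _ | e
        · omega
        · simp only [h2]
          exact add_le_add (iN _ _ _ rfl) (Nat.mul_le_mul hgN (ihs _ _ (by omega)))
      · rcases e with _ | e
        · simp only [h2]
          exact add_le_add (iN _ _ _ rfl) (Nat.mul_le_mul haN (ihs _ _ (by omega)))
        · simp only [h2]
          exact add_le_add (add_le_add (iN _ _ _ rfl) (Nat.mul_le_mul haN (ihs _ _ (by omega))))
            (Nat.mul_le_mul hgN (ihs _ _ (by omega)))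

theorem closed (A G : ℕ) : ∀ N s d e : ℕ, d + e = s →
    h2 (fun _ => A) (fun _ => G) (N + 1) d e =
      (d + e).choose e * (d + e + N).choose N * (A ^ d * G ^ e) := by
  intro N
  induction N with
  | zero =>
    intro s
    induction s with
    | zero =>
      intro d e hde
      obtain rfl : d = 0 := by omega
      obtain rfl : e = 0 := by omega
      simp [h2]
    | succ s ihs =>
      intro d e hde
      rcases d with _ | d
      · rcases e with _ | e
        · omega
        · rw [h2, ihs _ _ (by omega)]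
          simp [h2]
          ring
      · rcases e with _ | e
        · rw [h2, ihs _ _ (by omega)]
          simp [h2]
          ring
        · rw [h2, ihs _ _ (by omega), ihs _ _ (by omega)]
          have h1 : (d + 1 + (e + 1)).choose (e + 1) =
              (d + 1 + e).choose e + (d + (e + 1)).choose (e + 1) := by
            rw [show d + 1 + (e + 1) = (d + 1 + e) + 1 by ring, Nat.choose_succ_succ,
              show d + (e + 1) = d + 1 + e by ring]
          rw [h1]
          simp [h2]
          ring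
  | succ N ihN =>
    intro s
    induction s with
    | zero =>
      intro d e hde
      obtain rfl : d = 0 := by omega
      obtain rfl : e = 0 := by omega
      rw [h2, ihN _ _ _ rfl]
      simp
    | succ s ihs =>
      intro d e hde
      rcases d with _ | d
      · rcases e with _ | e
        · omega
        · rw [h2, ihN _ _ _ rfl, ihs _ _ (by omega)]
          have h1 : (0 + (e + 1) + (N + 1)).choose (N + 1) =
              (0 + (e + 1) + N).choose N + (0 + e + (N + 1)).choose (N + 1) := by
            rw [show 0 + (e + 1) + (N + 1) = (0 + (e + 1) + N) + 1 by ring, Nat.choose_succ_succ,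
              show 0 + e + (N + 1) = 0 + (e + 1) + N by ring]
          rw [h1]
          simp
          ring
      · rcases e with _ | e
        · rw [h2, ihN _ _ _ rfl, ihs _ _ (by omega)]
          have h1 : (d + 1 + 0 + (N + 1)).choose (N + 1) =
              (d + 1 + 0 + N).choose N + (d + 0 + (N + 1)).choose (N + 1) := by
            rw [show d + 1 + 0 + (N + 1) = (d + 1 + 0 + N) + 1 by ring, Nat.choose_succ_succ,
              show d + 0 + (N + 1) = d + 1 + 0 + N by ring]
          rw [h1]
          simp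
          ring
        · rw [h2, ihN _ _ _ rfl, ihs _ _ (by omega), ihs _ _ (by omega)]
          have h1 : (d + 1 + (e + 1)).choose (e + 1) =
              (d + 1 + e).choose e + (d + (e + 1)).choose (e + 1) := by
            rw [show d + 1 + (e + 1) = (d + 1 + e) + 1 by ring, Nat.choose_succ_succ,
              show d + (e + 1) = d + 1 + e by ring]
          have h3 : (d + 1 + (e + 1) + (N + 1)).choose (N + 1) =
              (d + 1 + (e + 1) + N).choose N + (d + (e + 1) + (N + 1)).choose (N + 1) := by
            rw [show d + 1 + (e + 1) + (N + 1) = (d + 1 + (e + 1) + N) + 1 by ring,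
              Nat.choose_succ_succ,
              show d + (e + 1) + (N + 1) = d + 1 + (e + 1) + N by ring]
          have h4 : d + 1 + e + (N + 1) = d + (e + 1) + (N + 1) := by ring
          rw [h3, h4, h1]
          ring

end IC4

theorem prfC4 : claimC4 := by
  intro a g A G N d e ha hg
  refine (IC4.mono a g A G (N + 1) (fun v hv => ha v (by omega)) (fun v hv => hg v (by omega))
    (d + e) d e rfl).trans ?_
  rw [IC4.closed A G N (d + e) d e rfl, IC4.bin_eq, IC4.bin_eq]

end Pool.Agent.Work.MP_122e00_nt.Sharp.Cx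

end
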