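import Pool.Agent.Work.MP_122e00_nt.Sharp.Cert.Stmts
import Pool.Agent.Work.MP_122e00_nt.Bd.B52

/-! Bundle of small proof modules (one section per former module). -/

section

set_option autoImplicit false

/-!
# The certificate: the reversed density (item C7)
-/

namespace Pool.Agent.Work.MP_122e00_nt.Sharp.Cx

open Finset

namespace IC7

/-- recursion of `gz` for `s ≠ 0` -/
def gzr (wz wS mx bits g : ℕ) (fz : List ℕ) : ℕ → ℕ → ℕ :=
  @List.rec ℕ (fun _ => ℕ → ℕ → ℕ) (fun _ _ => 0)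
    (fun r _ ih d p => Nat.add (Nat.mul (Nat.mul g r) (Nat.pow 2 (Nat.mul bits (Nat.sub mx
      (Nat.add p (Nat.mul wS d))))))
      (cond (Nat.beq d 0) 0 (ih (Nat.sub d 1) (Nat.add p wz)))) fz

/-- recursion of `gx` -/
def gxr (F : ℕ → ℕ → ℕ → ℕ) (w g : ℕ) (fx : List ℕ) : ℕ → ℕ → ℕ :=
  @List.rec ℕ (fun _ => ℕ → ℕ → ℕ) (fun _ _ => 0)
    (fun r _ ih2 d p => Nat.add (F d p (Nat.mul g r))
      (cond (Nat.beq d 0) 0 (ih2 (Nat.sub d 1) (Nat.add p w)))) fx

theorem nthN_zero (r : ℕ) (t : List ℕ) : nthN (r :: t) 0 = r := rfl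

theorem nthN_succ (r : ℕ) (t : List ℕ) (i : ℕ) : nthN (r :: t) (i + 1) = nthN t i := rfl

theorem gzr_zero (wz wS mx bits g r : ℕ) (t : List ℕ) (p : ℕ) :
    gzr wz wS mx bits g (r :: t) 0 p = g * r * 2 ^ (bits * (mx - (p + wS * 0))) := rfl

theorem gzr_succ (wz wS mx bits g r : ℕ) (t : List ℕ) (d p : ℕ) :
    gzr wz wS mx bits g (r :: t) (d + 1) p = g * r * 2 ^ (bits * (mx - (p + wS * (d + 1)))) +
      gzr wz wS mx bits g t d (p + wz) := rfl

theorem gxr_zero (F : ℕ → ℕ → ℕ → ℕ) (w g r : ℕ) (t : List ℕ) (p : ℕ) :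
    gxr F w g (r :: t) 0 p = F 0 p (g * r) := rfl

theorem gxr_succ (F : ℕ → ℕ → ℕ → ℕ) (w g r : ℕ) (t : List ℕ) (d p : ℕ) :
    gxr F w g (r :: t) (d + 1) p = F (d + 1) p (g * r) + gxr F w g t d (p + w) := rfl

theorem gz_zero (fz : List ℕ) (wz wS mx bits d p g : ℕ) :
    gz fz wz wS mx bits 0 d p g = g * nthN fz d * 2 ^ (bits * (mx - (p + wz * d))) := rfl

theorem gz_succ (fz : List ℕ) (wz wS mx bits s d p g : ℕ) :
    gz fz wz wS mx bits (s + 1) d p g = gzr wz wS mx bits g fz d p := rfl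

theorem gx_one (fx fz : List ℕ) (wS mx bits s w d p g : ℕ) :
    gx fx fz wS mx bits s [w] d p g = gz fz w wS mx bits s d p g := rfl

theorem gx_cons (fx fz : List ℕ) (wS mx bits s w w' : ℕ) (ws : List ℕ) (d p g : ℕ) :
    gx fx fz wS mx bits s (w :: w' :: ws) d p g =
      gxr (gx fx fz wS mx bits s (w' :: ws)) w g fx d p := rfl

theorem gzr_eq (wz wS mx bits g : ℕ) (fz : List ℕ) : ∀ d p : ℕ, d < fz.length →
    gzr wz wS mx bits g fz d p = ∑ a ∈ Finset.range (d + 1),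
      g * nthN fz a * 2 ^ (bits * (mx - (p + (wz * a + wS * (d - a))))) := by
  induction fz with
  | nil => intro d p hd; simp at hd
  | cons r t ih =>
    intro d p hd
    cases d with
    | zero =>
      rw [gzr_zero]
      simp [nthN_zero]
    | succ d =>
      rw [gzr_succ, ih d (p + wz) (by simpa using hd), Finset.sum_range_succ' _ (d + 1)]
      rw [add_comm]
      congr 1
      · apply Finset.sum_congr rfl
        intro a ha
        rw [nthN_succ]
        congr 3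
        have : d + 1 - (a + 1) = d - a := by omega
        rw [this]
        ring_nf
      · rw [nthN_zero]
        simp

theorem gxr_eq (F : ℕ → ℕ → ℕ → ℕ) (w g : ℕ) (fx : List ℕ) : ∀ d p : ℕ, d < fx.length →
    gxr F w g fx d p = ∑ a ∈ Finset.range (d + 1), F (d - a) (p + w * a) (g * nthN fx a) := by
  induction fx with
  | nil => intro d p hd; simp at hd
  | cons r t ih =>
    intro d p hd
    cases d with
    | zero =>
      rw [gxr_zero]
      simp [nthN_zero]
    | succ d =>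
      rw [gxr_succ, ih d (p + w) (by simpa using hd), Finset.sum_range_succ' _ (d + 1)]
      rw [add_comm]
      congr 1
      · apply Finset.sum_congr rfl
        intro a ha
        rw [nthN_succ]
        have h1 : d + 1 - (a + 1) = d - a := by omega
        have h2 : p + w + w * a = p + w * (a + 1) := by ring
        rw [h1, h2]

theorem sum_adt (k d : ℕ) (f : (Fin (k + 1) → ℕ) → ℕ) :
    ∑ β ∈ Finset.Nat.antidiagonalTuple (k + 1) d, f β =
      ∑ a ∈ Finset.range (d + 1), ∑ β ∈ Finset.Nat.antidiagonalTuple k (d - a),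
        f (Fin.cons a β) := by
  rw [Finset.sum_sigma']
  refine Finset.sum_nbij' (fun β => (⟨β 0, Fin.tail β⟩ : (_ : ℕ) × (Fin k → ℕ)))
    (fun x => Fin.cons x.1 x.2) ?_ ?_ ?_ ?_ ?_
  · intro β hβ
    rw [Finset.Nat.mem_antidiagonalTuple, Fin.sum_univ_succ] at hβ
    rw [Finset.mem_sigma]
    refine ⟨?_, ?_⟩
    · rw [Finset.mem_range]
      show β 0 < d + 1
      omega
    · rw [Finset.Nat.mem_antidiagonalTuple]
      show ∑ i : Fin k, Fin.tail β i = d - β 0
      have : ∑ i : Fin k, Fin.tail β i = ∑ i : Fin k, β i.succ := rfl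
      rw [this]
      omega
  · intro x hx
    rw [Finset.mem_sigma, Finset.mem_range, Finset.Nat.mem_antidiagonalTuple] at hx
    rw [Finset.Nat.mem_antidiagonalTuple, Fin.sum_univ_succ]
    simp only [Fin.cons_zero, Fin.cons_succ]
    omega
  · intro β _
    exact Fin.cons_self_tail β
  · intro x _
    simp
  · intro β _
    rw [Fin.cons_self_tail]

theorem gw_cons (fx fz : List ℕ) (s K a : ℕ) (β : Fin (K + 1) → ℕ) (hK : K ≠ 0) :
    gw fx fz s (K + 1) (Fin.cons a β : Fin (K + 2) → ℕ) = nthN fx a * gw fx fz s K β := by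
  unfold gw
  have hlast : (Fin.cons a β : Fin (K + 2) → ℕ) (Fin.last (K + 1)) = β (Fin.last K) := by
    rw [← Fin.succ_last, Fin.cons_succ]
  rw [hlast]
  split_ifs with h
  · simp
  · rw [Fin.prod_univ_succ]
    congr 1
    · simp [hK]
    · apply Finset.prod_congr rfl
      intro i _
      rw [← Fin.succ_castSucc, Fin.cons_succ]
      simp

theorem sl_cons (w : ℕ) (ws : List ℕ) (wS K a : ℕ) (β : Fin (K + 1) → ℕ) :
    sl (w :: ws) wS (K + 1) (Fin.cons a β : Fin (K + 2) → ℕ) = w * a + sl ws wS K β := by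
  unfold sl
  have hlast : (Fin.cons a β : Fin (K + 2) → ℕ) (Fin.last (K + 1)) = β (Fin.last K) := by
    rw [← Fin.succ_last, Fin.cons_succ]
  rw [hlast, Fin.sum_univ_succ]
  have h0 : nthN (w :: ws) (0 : Fin (K + 1)).val *
      (Fin.cons a β : Fin (K + 2) → ℕ) (Fin.castSucc 0) = w * a := by
    simp [nthN_zero]
  have h1 : ∑ i : Fin K, nthN (w :: ws) i.succ.val *
      (Fin.cons a β : Fin (K + 2) → ℕ) i.succ.castSucc =
      ∑ i : Fin K, nthN ws i.val * β i.castSucc := by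
    apply Finset.sum_congr rfl
    intro i _
    rw [← Fin.succ_castSucc, Fin.cons_succ, Fin.val_succ, nthN_succ]
  rw [h0, h1]
  ring

theorem base_gw (fx fz : List ℕ) (s a b : ℕ) :
    gw fx fz s 1 (Fin.cons a ![b] : Fin 2 → ℕ) = if s = 0 ∧ b ≠ 0 then 0 else nthN fz a := by
  unfold gw
  simp [Fin.last]

theorem base_sl (w wS a b : ℕ) :
    sl [w] wS 1 (Fin.cons a ![b] : Fin 2 → ℕ) = w * a + wS * b := by
  unfold sl
  simp [Fin.last, nthN_zero]

theorem main (fx fz : List ℕ) (wS mx bits s : ℕ) (ws : List ℕ) : ∀ d p g : ℕ, ws ≠ [] →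
    d < fx.length → d < fz.length →
    gx fx fz wS mx bits s ws d p g =
      ∑ β ∈ Finset.Nat.antidiagonalTuple (ws.length + 1) d,
        g * gw fx fz s ws.length β * 2 ^ (bits * (mx - (p + sl ws wS ws.length β))) := by
  induction ws with
  | nil => intro d p g h; exact absurd rfl h
  | cons w ws ih =>
    intro d p g _ hx hz
    cases ws with
    | nil =>
      rw [gx_one]
      show _ = ∑ β ∈ Finset.Nat.antidiagonalTuple (1 + 1) d,
        g * gw fx fz s 1 β * 2 ^ (bits * (mx - (p + sl [w] wS 1 β)))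
      rw [sum_adt]
      have h1 : ∀ a ∈ Finset.range (d + 1), ∑ β ∈ Finset.Nat.antidiagonalTuple 1 (d - a),
          g * gw fx fz s 1 (Fin.cons a β) *
            2 ^ (bits * (mx - (p + sl [w] wS 1 (Fin.cons a β)))) =
          g * (if s = 0 ∧ d - a ≠ 0 then 0 else nthN fz a) *
            2 ^ (bits * (mx - (p + (w * a + wS * (d - a))))) := by
        intro a _
        rw [Finset.Nat.antidiagonalTuple_one, Finset.sum_singleton, base_gw, base_sl]
      rw [Finset.sum_congr rfl h1]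
      cases s with
      | zero =>
        rw [gz_zero, Finset.sum_eq_single d]
        · simp
        · intro b hb hbd
          rw [Finset.mem_range] at hb
          have : d - b ≠ 0 := by omega
          simp [this]
        · intro h
          exact absurd (Finset.mem_range.2 (Nat.lt_succ_self d)) h
      | succ s =>
        rw [gz_succ, gzr_eq w wS mx bits g fz d p hz]
        apply Finset.sum_congr rfl
        intro a _
        simp
    | cons w' ws =>
      rw [gx_cons, gxr_eq _ _ _ _ _ _ hx]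
      show _ = ∑ β ∈ Finset.Nat.antidiagonalTuple ((w' :: ws).length + 1 + 1) d,
        g * gw fx fz s ((w' :: ws).length + 1) β *
          2 ^ (bits * (mx - (p + sl (w :: w' :: ws) wS ((w' :: ws).length + 1) β)))
      rw [sum_adt]
      apply Finset.sum_congr rfl
      intro a ha
      rw [Finset.mem_range] at ha
      rw [ih (d - a) (p + w * a) (g * nthN fx a) (by simp) (by omega) (by omega)]
      apply Finset.sum_congr rfl
      intro β _
      rw [gw_cons _ _ _ _ _ _ (by simp), sl_cons]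
      have : p + w * a + sl (w' :: ws) wS (w' :: ws).length β =
          p + (w * a + sl (w' :: ws) wS (w' :: ws).length β) := by ring
      rw [this]
      ring

end IC7

theorem prfC7 : claimC7 := by
  intro fx fz wS mx bits s ws d p g h1 h2 h3
  exact IC7.main fx fz wS mx bits s ws d p g h1 h2 h3

end Pool.Agent.Work.MP_122e00_nt.Sharp.Cx

end

section

set_option autoImplicit false

/-!
# Item E2: the cubic bound for `1 / x`
-/

namespace Pool.Agent.Work.MP_122e00_nt.Sharp.Cx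

theorem prfE2 : claimE2 := by
  intro R N κ g0 g1 c x hκ h0 hc h0x hx1
  have hx : 0 < x := lt_of_lt_of_le h0 h0x
  have hc0 : 0 < c := lt_of_lt_of_le h0 hc
  have hg1 : 0 < g1 := lt_of_lt_of_le hx hx1
  have hkx : 0 < κ * x := mul_pos hκ hx
  set B : ℝ := (2 * c * g0 * g1 + c ^ 2 * (g0 + g1)) -
    (g0 * g1 + 2 * c * (g0 + g1) + c ^ 2) * x + (g0 + g1 + 2 * c) * x ^ 2 - x ^ 3 with hB
  have hB2 : g0 * g1 * c ^ 2 ≤ x * B := by
    have e : x * B = g0 * g1 * c ^ 2 + (x - g0) * (g1 - x) * (x - c) ^ 2 := by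
      rw [hB]
      ring
    have : 0 ≤ (x - g0) * (g1 - x) * (x - c) ^ 2 :=
      mul_nonneg (mul_nonneg (by linarith) (by linarith)) (sq_nonneg _)
    linarith
  unfold pg
  rw [if_pos hkx]
  have e1 : (N - κ * x) ^ 2 / (κ * x) = N ^ 2 / (κ * x) - 2 * N + κ * x := by
    field_simp
    ring
  rw [e1]
  have e2 : N ^ 2 / (κ * x) ≤ N ^ 2 / (κ * (g0 * g1 * c ^ 2)) * B := by
    rw [div_mul_eq_mul_div, div_le_div_iff₀ hkx (by positivity)]
    calc N ^ 2 * (κ * (g0 * g1 * c ^ 2)) = (N ^ 2 * κ) * (g0 * g1 * c ^ 2) := by ring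
      _ ≤ (N ^ 2 * κ) * (x * B) := mul_le_mul_of_nonneg_left hB2 (by positivity)
      _ = N ^ 2 * B * (κ * x) := by ring
  linarith

end Pool.Agent.Work.MP_122e00_nt.Sharp.Cx

end

section

set_option autoImplicit false

/-!
# K1: the symmetric weight as a polynomial
-/

namespace Pool.Agent.Work.MP_122e00_nt.Sharp.Cx

open Finset

namespace IK1

theorem sum_tuple (k n : ℕ) (f : (Fin (k + 1) → ℕ) → ℝ) :
    ∑ α ∈ Finset.Nat.antidiagonalTuple (k + 1) n, f α =
      ∑ b ∈ Finset.range (n + 1), ∑ α ∈ Finset.Nat.antidiagonalTuple k (n - b),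
        f (Fin.cons b α) := by
  rw [Finset.sum_sigma']
  refine Finset.sum_bij' (fun α _ => (⟨α 0, Fin.tail α⟩ : (_ : ℕ) × (Fin k → ℕ)))
    (fun p _ => (Fin.cons p.1 p.2 : Fin (k + 1) → ℕ)) ?_ ?_ ?_ ?_ ?_
  · intro α hα
    rw [Finset.Nat.mem_antidiagonalTuple, Fin.sum_univ_succ] at hα
    rw [Finset.mem_sigma, Finset.mem_range, Finset.Nat.mem_antidiagonalTuple]
    refine ⟨?_, ?_⟩
    · show α 0 < n + 1
      omega
    · show ∑ i : Fin k, α i.succ = n - α 0
      omega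
  · intro p hp
    rw [Finset.mem_sigma, Finset.mem_range, Finset.Nat.mem_antidiagonalTuple] at hp
    rw [Finset.Nat.mem_antidiagonalTuple, Fin.sum_univ_succ]
    simp only [Fin.cons_zero, Fin.cons_succ]
    omega
  · intro α _
    exact Fin.cons_self_tail α
  · intro p _
    rfl
  · intro α _
    rw [Fin.cons_self_tail α]

theorem main (k : ℕ) : ∀ (m : ℕ) (x : Fin k → ℝ), k ≤ m → Qs k m x = (m.factorial : ℝ) *
    ∑ α ∈ Finset.Nat.antidiagonalTuple k (m - k),
      ∏ i, x i ^ α i / ((α i + 1).factorial : ℝ) := by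
  induction k with
  | zero =>
    intro m x _
    rw [Qs]
    cases m with
    | zero => simp
    | succ m => simp
  | succ k ih =>
    intro m x hm
    rw [Qs]
    have e1 : ∑ b ∈ Finset.range m, (m.choose (b + 1) : ℝ) * x 0 ^ b *
        Qs k (m - (b + 1)) (Fin.tail x) = ∑ b ∈ Finset.range (m - (k + 1) + 1),
        (m.choose (b + 1) : ℝ) * x 0 ^ b * Qs k (m - (b + 1)) (Fin.tail x) := by
      symm
      refine Finset.sum_subset ?_ ?_
      · intro b hb
        rw [Finset.mem_range] at hb ⊢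
        omega
      · intro b hb hb'
        rw [Finset.mem_range] at hb hb'
        rw [(IQ3.vanish k (m - (b + 1)) (Fin.tail x) (by omega)).2, mul_zero]
    rw [e1, sum_tuple, Finset.mul_sum]
    refine Finset.sum_congr rfl fun b hb => ?_
    rw [Finset.mem_range] at hb
    have hb' : b + 1 ≤ m := by omega
    rw [ih _ _ (by omega)]
    have e2 : m - (b + 1) - k = m - (k + 1) - b := by omega
    rw [e2, Finset.mul_sum, Finset.mul_sum, Finset.mul_sum]
    refine Finset.sum_congr rfl fun α _ => ?_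
    rw [Fin.prod_univ_succ]
    simp only [Fin.cons_zero, Fin.cons_succ]
    have hc : ((m.choose (b + 1) : ℝ)) * ((b + 1).factorial : ℝ) *
        ((m - (b + 1)).factorial : ℝ) = (m.factorial : ℝ) := by
      exact_mod_cast Nat.choose_mul_factorial_mul_factorial hb'
    have h0 : ((b + 1).factorial : ℝ) ≠ 0 := by exact_mod_cast (b + 1).factorial_ne_zero
    have ht : (∏ i : Fin k, Fin.tail x i ^ α i / ((α i + 1).factorial : ℝ)) =
        ∏ i : Fin k, x i.succ ^ α i / ((α i + 1).factorial : ℝ) := rfl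
    rw [← hc, ht]
    field_simp

end IK1

theorem prfK1 : claimK1 := fun k m x h => IK1.main k m x h

end Pool.Agent.Work.MP_122e00_nt.Sharp.Cx

end

section

set_option autoImplicit false

/-!
# Item K2: the density with hidden marks as a polynomial
-/

namespace Pool.Agent.Work.MP_122e00_nt.Sharp.Cx

open Finset

namespace IK2

theorem sum_snoc (K M : ℕ) (F : (Fin (K + 1) → ℕ) → ℝ) :
    ∑ β ∈ Finset.Nat.antidiagonalTuple (K + 1) M, F β =
      ∑ q ∈ HasAntidiagonal.antidiagonal M, ∑ β ∈ Finset.Nat.antidiagonalTuple K q.1,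
        F (Fin.snoc β q.2) := by
  rw [Finset.sum_sigma']
  refine Finset.sum_bij' (i := fun β _ => (⟨(∑ i : Fin K, β i.castSucc, β (Fin.last K)),
    fun i => β i.castSucc⟩ : Σ _ : ℕ × ℕ, (Fin K → ℕ)))
    (j := fun s _ => Fin.snoc s.2 s.1.2) ?_ ?_ ?_ ?_ ?_
  · intro β hβ
    rw [Finset.Nat.mem_antidiagonalTuple, Fin.sum_univ_castSucc] at hβ
    simp only [Finset.mem_sigma, Finset.HasAntidiagonal.mem_antidiagonal, Finset.Nat.mem_antidiagonalTuple]
    exact ⟨hβ, trivial⟩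
  · rintro ⟨⟨a, u⟩, β⟩ hs
    simp only [Finset.mem_sigma, Finset.HasAntidiagonal.mem_antidiagonal, Finset.Nat.mem_antidiagonalTuple] at hs
    rw [Finset.Nat.mem_antidiagonalTuple, Fin.sum_univ_castSucc]
    simp only [Fin.snoc_castSucc, Fin.snoc_last]
    rw [hs.2, hs.1]
  · intro β hβ
    funext i
    refine Fin.lastCases ?_ (fun i => ?_) i
    · simp
    · simp
  · rintro ⟨⟨a, u⟩, β⟩ hs
    simp only [Finset.mem_sigma, Finset.HasAntidiagonal.mem_antidiagonal, Finset.Nat.mem_antidiagonalTuple] at hs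
    simp only [Fin.snoc_castSucc, Fin.snoc_last]
    rw [hs.2]
  · intro β hβ
    congr 1
    funext i
    refine Fin.lastCases ?_ (fun i => ?_) i
    · simp
    · simp

/-- The part of the first marks. -/
noncomputable def fA {k : ℕ} (x : Fin k → ℝ) (c : ℕ) : ℝ :=
  ∑ α ∈ Finset.Nat.antidiagonalTuple k c, ∏ i, x i ^ α i / ((α i + 1).factorial : ℝ)

/-- The exact part. -/
noncomputable def fs (S : ℝ) (u : ℕ) : ℝ := S ^ u / (u.factorial : ℝ)

/-- The last mark. -/
noncomputable def fg (z : ℝ) (l : ℕ) : ℝ := z ^ l / ((l + 1).factorial : ℝ)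

/-- The hidden marks. -/
noncomputable def fh (b : ℕ) (z : ℝ) (j : ℕ) : ℝ := be b j * z ^ j / (j.factorial : ℝ)

theorem fA_succ {k : ℕ} (x : Fin (k + 1) → ℝ) (c : ℕ) :
    fA x c = ∑ q ∈ HasAntidiagonal.antidiagonal c, fA (fun i : Fin k => x i.castSucc) q.1 *
      fg (x (Fin.last k)) q.2 := by
  unfold fA
  rw [sum_snoc]
  refine Finset.sum_congr rfl fun q _ => ?_
  rw [Finset.sum_mul]
  refine Finset.sum_congr rfl fun β _ => ?_
  rw [Fin.prod_univ_castSucc]
  simp only [Fin.snoc_castSucc, Fin.snoc_last]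
  rfl

theorem Bt_eq (b t : ℕ) (S z : ℝ) : Bt b t S z = (t.factorial : ℝ) *
    ∑ q ∈ HasAntidiagonal.antidiagonal t, fh b z q.1 * fs S q.2 := by
  rw [Finset.Nat.sum_antidiagonal_eq_sum_range_succ (fun j u => fh b z j * fs S u), Finset.mul_sum]
  unfold Bt
  refine Finset.sum_congr rfl fun j hj => ?_
  have hj' : j ≤ t := by
    rw [Finset.mem_range] at hj
    omega
  have h1 : ((t.choose j : ℕ) : ℝ) * ((j.factorial : ℝ) * ((t - j).factorial : ℝ)) =
      (t.factorial : ℝ) := by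
    rw [← mul_assoc]
    exact_mod_cast Nat.choose_mul_factorial_mul_factorial hj'
  have hj0 : (j.factorial : ℝ) ≠ 0 := by exact_mod_cast (Nat.factorial_pos j).ne'
  have htj0 : ((t - j).factorial : ℝ) ≠ 0 := by exact_mod_cast (Nat.factorial_pos (t - j)).ne'
  unfold fh fs
  rw [← h1]
  field_simp

theorem rh_eq (b a : ℕ) (z : ℝ) : rh b a * z ^ a / (a.factorial : ℝ) =
    ∑ q ∈ HasAntidiagonal.antidiagonal a, fh b z q.1 * fg z q.2 := by
  rw [Finset.Nat.sum_antidiagonal_eq_sum_range_succ (fun j l => fh b z j * fg z l)]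
  unfold rh
  have ha0 : (a.factorial : ℝ) ≠ 0 := by exact_mod_cast (Nat.factorial_pos a).ne'
  rw [mul_assoc, mul_div_assoc, Finset.sum_mul]
  rw [mul_div_assoc', mul_comm, mul_div_assoc, div_self ha0, mul_one]
  refine Finset.sum_congr rfl fun j hj => ?_
  have hj' : j ≤ a := by
    rw [Finset.mem_range] at hj
    omega
  have hz : z ^ a = z ^ j * z ^ (a - j) := by
    rw [← pow_add]
    congr 1
    omega
  unfold fh fg
  rw [hz]
  have hj0 : (j.factorial : ℝ) ≠ 0 := by exact_mod_cast (Nat.factorial_pos j).ne'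
  have htj0 : ((a - j + 1).factorial : ℝ) ≠ 0 := by
    exact_mod_cast (Nat.factorial_pos (a - j + 1)).ne'
  field_simp

theorem core {k : ℕ} (x : Fin (k + 1) → ℝ) (b : ℕ) (S : ℝ) (M : ℕ) :
    ∑ q ∈ HasAntidiagonal.antidiagonal M, fA x q.1 *
      ∑ r ∈ HasAntidiagonal.antidiagonal q.2, fh b (x (Fin.last k)) r.1 * fs S r.2 =
    ∑ q ∈ HasAntidiagonal.antidiagonal M, (∑ r ∈ HasAntidiagonal.antidiagonal q.1,
      fA (fun i : Fin k => x i.castSucc) r.1 *
        ∑ w ∈ HasAntidiagonal.antidiagonal r.2, fh b (x (Fin.last k)) w.1 * fg (x (Fin.last k)) w.2) *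
      fs S q.2 := by
  have h1 := congrArg (PowerSeries.coeff M) (show
    (PowerSeries.mk (fA (fun i : Fin k => x i.castSucc)) * PowerSeries.mk (fg (x (Fin.last k)))) *
      (PowerSeries.mk (fh b (x (Fin.last k))) * PowerSeries.mk (fs S)) =
    (PowerSeries.mk (fA (fun i : Fin k => x i.castSucc)) *
      (PowerSeries.mk (fh b (x (Fin.last k))) * PowerSeries.mk (fg (x (Fin.last k))))) *
      PowerSeries.mk (fs S) by ring)
  simp only [PowerSeries.coeff_mul, PowerSeries.coeff_mk] at h1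
  rw [← h1]
  refine Finset.sum_congr rfl fun q _ => ?_
  rw [fA_succ]

end IK2

open IK2 in
theorem prfK2 : claimK1 → claimK2 := by
  intro hK1 k m b p hkm
  set S : ℝ := ∑ q : Fin 3, if b ≤ q.val then ph3 p q else 0 with hS
  set x : Fin (k + 1) → ℝ := px p with hx
  set M : ℕ := m - (k + 1) with hM
  -- the right-hand side
  have hR : ∑ β ∈ Finset.Nat.antidiagonalTuple (k + 1 + 1) M,
      (∏ i : Fin k, x i.castSucc ^ β i.castSucc.castSucc /
        ((β i.castSucc.castSucc + 1).factorial : ℝ)) *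
      (rh b (β (Fin.last k).castSucc) * x (Fin.last k) ^ β (Fin.last k).castSucc /
        ((β (Fin.last k).castSucc).factorial : ℝ)) *
      (S ^ β (Fin.last (k + 1)) / ((β (Fin.last (k + 1))).factorial : ℝ)) =
      ∑ q ∈ HasAntidiagonal.antidiagonal M, (∑ r ∈ HasAntidiagonal.antidiagonal q.1,
      fA (fun i : Fin k => x i.castSucc) r.1 *
        ∑ w ∈ HasAntidiagonal.antidiagonal r.2, fh b (x (Fin.last k)) w.1 * fg (x (Fin.last k)) w.2) *
      fs S q.2 := by
    rw [sum_snoc]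
    refine Finset.sum_congr rfl fun q _ => ?_
    simp only [Fin.snoc_castSucc, Fin.snoc_last]
    rw [← Finset.sum_mul]
    unfold fs
    congr 1
    rw [sum_snoc]
    refine Finset.sum_congr rfl fun r _ => ?_
    simp only [Fin.snoc_castSucc, Fin.snoc_last]
    rw [← Finset.sum_mul, rh_eq]
    rfl
  rw [hR, ← core]
  -- the left-hand side
  unfold Pb
  rw [← hS, ← hx]
  have hsub : Finset.range (M + 1) ⊆ Finset.range (m + 1) := by
    intro t ht
    rw [Finset.mem_range] at ht ⊢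
    omega
  rw [← Finset.sum_subset hsub]
  · rw [← Finset.sum_range_reflect, Finset.Nat.sum_antidiagonal_eq_sum_range_succ
      (fun a t => fA x a * ∑ r ∈ HasAntidiagonal.antidiagonal t, fh b (x (Fin.last k)) r.1 * fs S r.2),
      Finset.mul_sum]
    refine Finset.sum_congr rfl fun a ha => ?_
    have ha' : a ≤ M := by
      rw [Finset.mem_range] at ha
      omega
    have e1 : M + 1 - 1 - a = M - a := by omega
    rw [e1]
    have e2 : k + 1 ≤ m - (M - a) := by omega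
    have e3 : m - (M - a) - (k + 1) = a := by omega
    have h2 := hK1 (k + 1) (m - (M - a)) x e2
    rw [e3] at h2
    rw [h2, Bt_eq]
    have e4 : M - a ≤ m := by omega
    have h1 : ((m.choose (M - a) : ℕ) : ℝ) * (((M - a).factorial : ℝ) *
        ((m - (M - a)).factorial : ℝ)) = (m.factorial : ℝ) := by
      rw [← mul_assoc]
      exact_mod_cast Nat.choose_mul_factorial_mul_factorial e4
    rw [← h1]
    unfold fA
    ring
  · intro t ht ht'
    rw [Finset.mem_range] at ht ht'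
    have h3 : Qs (k + 1) (m - t) x = 0 := (prfQ3.2.2.1 (k + 1) (m - t) x (by omega)).2
    rw [h3]
    ring

end Pool.Agent.Work.MP_122e00_nt.Sharp.Cx

end

section

set_option autoImplicit false

/-!
# K3: the base simplices
-/

namespace Pool.Agent.Work.MP_122e00_nt.Sharp.Cx

namespace IK3

theorem data (k : ℕ) (h1 : 1 ≤ k) (h4 : k ≤ 4) : ∀ i, i < k + 3 →
    sm (nth (bs k) i) = (if i < k then i + 1 else i - k + 1) ∧
    ∀ j, j < k + 3 → nthN (nth (bs k) i) j =
      if i < k then (if j ≤ i then 1 else 0) else (if k ≤ j ∧ j ≤ i then 1 else 0) := by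
  interval_cases k <;> decide

theorem valid (k : ℕ) (h1 : 1 ≤ k) (h4 : k ≤ 4) : Sv k (bs k) := by
  unfold Sv
  interval_cases k <;> decide

theorem pt_eq (k : ℕ) (h1 : 1 ≤ k) (h4 : k ≤ 4) (i : Fin (k + 3)) :
    pt (k + 2 + 1) (nth (bs k) i.val) = V0 k i := by
  obtain ⟨hs, hn⟩ := data k h1 h4 i.val i.2
  funext j
  unfold pt V0
  rw [hs, hn j.val j.2]
  by_cases hi : i.val < k
  · rw [if_pos hi, if_pos hi, if_pos hi]
    by_cases hj : j.val ≤ i.val
    · rw [if_pos hj, if_pos hj]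
      push_cast
      rfl
    · rw [if_neg hj, if_neg hj, Nat.cast_zero, zero_div]
  · rw [if_neg hi, if_neg hi, if_neg hi]
    by_cases hj : k ≤ j.val ∧ j.val ≤ i.val
    · rw [if_pos hj, if_pos hj]
      push_cast [Nat.cast_sub (not_lt.1 hi)]
      rfl
    · rw [if_neg hj, if_neg hj, Nat.cast_zero, zero_div]

end IK3

open IK3 in
theorem prfK3 : claimK3 := by
  intro k h1 h4
  refine ⟨valid k h1 h4, ?_⟩
  funext o
  match o with
  | some i => exact pt_eq k h1 h4 i.castSucc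
  | none => exact pt_eq k h1 h4 (Fin.last (k + 2))

end Pool.Agent.Work.MP_122e00_nt.Sharp.Cx

end

section

set_option autoImplicit false

/-!
# The certificate: more statements for the leaves
-/

namespace Pool.Agent.Work.MP_122e00_nt.Sharp.Cx

open Finset MeasureTheory

open scoped ENNReal

open Gen

noncomputable section

/-- The values of the variables at the vertices, times the common multiple. -/
def av (k : ℕ) (c : Cl) (S : List (List ℕ)) (v : ℕ) (j : Fin (k + 1)) : ℕ :=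
  dl S / sm (nth S v) * (if j.val < k then nthN (nth S v) j.val
    else ∑ q ∈ Finset.range 3, nthN c.us q * nthN (nth S v) (k + q))

/-- E1a: the slot as a sum. -/
def claimE1a : Prop := ∀ (k : ℕ) (c : Cl) (bits : ℕ) (S : List (List ℕ)) (gf : List ℕ), Clv k c →
    Sv k S → gf.length = k + 3 → (∀ p ∈ S, dl S / sm p * sm p = dl S) →
    okb c bits (dl S) (mxs (gsl S gf)) = true → ∀ e, e < 4 →
    ∃ C : (Fin (k + 1) → ℕ) → ℕ,
    (∀ α ∈ Finset.Nat.antidiagonalTuple (k + 1) c.D,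
      (C α : ℝ) * ((∏ j, ((α j).factorial : ℝ)) * (e.factorial : ℝ)) =
        ((k + 2 + c.D + e).factorial : ℝ) * ∫ y in Chamber.T (Fin (k + 2)),
          (∏ j, lf (k + 2) (fun v => (av k c S v j : ℝ)) y ^ α j) *
            lf (k + 2) (fun v => (nthN (gsl S gf) v : ℝ)) y ^ e) ∧
    slot (gt c bits) c.mx bits (nthN (rws c bits S gf) e) =
      ∑ α ∈ Finset.Nat.antidiagonalTuple (k + 1) c.D, C α * gw c.fx c.fz (sm c.us) k α

/-- E1b: the density in barycentric coordinates. -/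
def claimE1b : Prop := ∀ (k : ℕ) (c : Cl) (S : List (List ℕ)) (y : Fin (k + 2) → ℝ), Clv k c →
    Sv k S → 0 < dl S → (∀ p ∈ S, dl S / sm p * sm p = dl S) →
    dpoly k c (Chamber.bar (pts (k + 2) S) y) = (c.cn : ℝ) / (c.cd : ℝ) *
      ∑ α ∈ Finset.Nat.antidiagonalTuple (k + 1) c.D, (gw c.fx c.fz (sm c.us) k α : ℝ) *
        ∏ j, (lf (k + 2) (fun v => (av k c S v j : ℝ)) y / (dl S : ℝ)) ^ α j /
          ((α j).factorial : ℝ)

/-- E3a: the program for a leaf. -/
def claimE3a : Prop := ∀ (k : ℕ) (c : Cl) (t bits : ℕ) (S : List (List ℕ)) (gf : List ℕ) (r : ℕ),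
    Sv k S → leafv c t bits S gf = some r →
    0 < dl S ∧ (∀ p ∈ S, dl S / sm p * sm p = dl S) ∧
    okb c bits (dl S) (mxs (gsl S gf)) = true ∧
    ∃ g0 g1 : ℕ, g1 = mxs (gsl S gf) ∧ g0 ≤ g1 ∧
      (∀ v, v ≤ k + 2 → g0 ≤ nthN (gsl S gf) v ∧ nthN (gsl S gf) v ≤ g1) ∧ (g1 = 0 ∨ 0 < g0) ∧
      r = fin c t (dl S) g0 g1 (slot (gt c bits) c.mx bits (nthN (rws c bits S gf) 0))
        (slot (gt c bits) c.mx bits (nthN (rws c bits S gf) 1))
        (slot (gt c bits) c.mx bits (nthN (rws c bits S gf) 2))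
        (slot (gt c bits) c.mx bits (nthN (rws c bits S gf) 3))

/-- E3b: the linear form in barycentric coordinates. -/
def claimE3b : Prop := ∀ (k : ℕ) (S : List (List ℕ)) (gf : List ℕ) (y : Fin (k + 2) → ℝ),
    Sv k S → gf.length = k + 3 → 0 < dl S → (∀ p ∈ S, dl S / sm p * sm p = dl S) →
    Gf gf (Chamber.bar (pts (k + 2) S) y) =
      4 / 9 * (lf (k + 2) (fun v => (nthN (gsl S gf) v : ℝ)) y / (dl S : ℝ))

/-- The moments. -/
def Mm (k : ℕ) (c : Cl) (S : List (List ℕ)) (gf : List ℕ) (e : ℕ) : ℝ :=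
  ∫ y in Chamber.T (Fin (k + 2)), dpoly k c (Chamber.bar (pts (k + 2) S) y) *
    lf (k + 2) (fun v => (nthN (gsl S gf) v : ℝ)) y ^ e

/-- The cubic bound, integrated. -/
def cubR (Dl N g0 g1 c M0 M1 M2 M3 : ℝ) : ℝ :=
  9 * Dl * N ^ 2 / (4 * (g0 * g1 * c ^ 2)) *
    ((2 * c * g0 * g1 + c ^ 2 * (g0 + g1)) * M0 - (g0 * g1 + 2 * c * (g0 + g1) + c ^ 2) * M1 +
      (g0 + g1 + 2 * c) * M2 - M3) - 2 * N * M0 + 4 / (9 * Dl) * M1

/-- E3c: the integral over a leaf, by the cubic bound. -/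
def claimE3c : Prop := ∀ (k : ℕ) (c : Cl) (S : List (List ℕ)) (gf : List ℕ) (g0 g1 cc : ℝ),
    Clv k c → Sv k S → 0 < dl S → 0 < g0 → g0 ≤ cc →
    (∀ v, v ≤ k + 2 → g0 ≤ (nthN (gsl S gf) v : ℝ) ∧ (nthN (gsl S gf) v : ℝ) ≤ g1) →
    (∀ y : Fin (k + 2) → ℝ, Gf gf (Chamber.bar (pts (k + 2) S) y) =
      4 / 9 * (lf (k + 2) (fun v => (nthN (gsl S gf) v : ℝ)) y / (dl S : ℝ))) →
    Chamber.EV (pts (k + 2) S) (fun p => ENNReal.ofReal (dpoly k c p *
      pg (2187 / 4) (3 ^ k) (Gf gf p))) ≤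
      ENNReal.ofReal (cubR (dl S) (3 ^ k) g0 g1 cc (Mm k c S gf 0) (Mm k c S gf 1) (Mm k c S gf 2)
        (Mm k c S gf 3))

/-- E3z: the integral over a leaf of weight zero. -/
def claimE3z : Prop := ∀ (k : ℕ) (c : Cl) (S : List (List ℕ)) (gf : List ℕ),
    Clv k c → Sv k S → (∀ v, v ≤ k + 2 → nthN (gsl S gf) v = 0) →
    (∀ y : Fin (k + 2) → ℝ, Gf gf (Chamber.bar (pts (k + 2) S) y) =
      4 / 9 * (lf (k + 2) (fun v => (nthN (gsl S gf) v : ℝ)) y / (dl S : ℝ))) →
    Chamber.EV (pts (k + 2) S) (fun p => ENNReal.ofReal (dpoly k c p *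
      pg (2187 / 4) (3 ^ k) (Gf gf p))) ≤ ENNReal.ofReal (2183 / 2 * 3 ^ k * Mm k c S gf 0)

/-- The moments in the form of E1. -/
def Mv (cl : Cl) (Dl : ℕ) (e Y : ℕ) : ℝ :=
  (cl.cn : ℝ) / (cl.cd : ℝ) * ((e.factorial : ℝ) / ((cl.k + 2 + cl.D + e).factorial : ℝ)) *
    ((Y : ℝ) / (Dl : ℝ) ^ cl.D)

/-- E3d: the arithmetic of a leaf. -/
def claimE3d : Prop := ∀ (cl : Cl) (t Dl g0 g1 Y0 Y1 Y2 Y3 : ℕ), 0 < cl.cd → 0 < Dl →
    (g1 = 0 → 2183 / 2 * 3 ^ cl.k * Mv cl Dl 0 Y0 ≤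
      (fin cl t Dl g0 g1 Y0 Y1 Y2 Y3 : ℝ) / (Sc : ℝ)) ∧
    (0 < g0 → g0 ≤ g1 → cubR Dl (3 ^ cl.k) g0 g1 ((g0 + (g1 - g0) * t / 16 : ℕ) : ℝ)
      (Mv cl Dl 0 Y0) (Mv cl Dl 1 Y1) (Mv cl Dl 2 Y2) (Mv cl Dl 3 Y3) ≤
      (fin cl t Dl g0 g1 Y0 Y1 Y2 Y3 : ℝ) / (Sc : ℝ))

/-- C9: the moments are integrable: continuity of the polynomials. -/
def claimC9 : Prop := (∀ (k : ℕ) (c : Cl), Continuous (dpoly k c)) ∧
    (∀ (n : ℕ) (S : List (List ℕ)), Continuous (Chamber.bar (pts n S))) ∧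
    (∀ (n : ℕ) (a : ℕ → ℝ), Continuous (lf n a)) ∧
    (∀ n : ℕ, IsCompact (Chamber.T (Fin n))) ∧
    (∀ (n : ℕ) (f : (Fin n → ℝ) → ℝ), Continuous f → IntegrableOn f (Chamber.T (Fin n))) ∧
    (∀ (k : ℕ) (c : Cl) (p : Fin (k + 3) → ℝ), (∀ i, 0 ≤ p i) → 0 ≤ dpoly k c p) ∧
    (∀ (n : ℕ) (a : ℕ → ℝ) (u v : ℝ) (y : Fin n → ℝ), (∀ i, i ≤ n → u ≤ a i ∧ a i ≤ v) →
      y ∈ Chamber.T (Fin n) → u ≤ lf n a y ∧ lf n a y ≤ v) ∧
    (∀ (k : ℕ) (S : List (List ℕ)) (y : Fin (k + 2) → ℝ), Sv k S → y ∈ Chamber.T (Fin (k + 2)) →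
      (∀ i, 0 ≤ Chamber.bar (pts (k + 2) S) y i) ∧ ∑ i, Chamber.bar (pts (k + 2) S) y i = 1)

end

end Pool.Agent.Work.MP_122e00_nt.Sharp.Cx

end
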