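import Pool.Agent.Work.MP_122e00_nt.Sharp.Cert.Eval

/-! Bundle of small proof modules (one section per former module). -/

section

set_option autoImplicit false

/-!
# The certificate: the classes
-/

namespace Pool.Agent.Work.MP_122e00_nt.Sharp.Cx

noncomputable section

/-- one mark -/
def cl1 : Cl := ⟨1, 9, [0], 0, 0, [2520, 1260, 840, 630, 504, 420, 360, 315, 280, 252],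
  [2520, 1260, 840, 630, 504, 420, 360, 315, 280, 252], [0, 0, 0], 1440, 1⟩

/-- two marks -/
def cl2 : Cl := ⟨2, 8, [0, 1], 0, 8, [2520, 1260, 840, 630, 504, 420, 360, 315, 280],
  [2520, 1260, 840, 630, 504, 420, 360, 315, 280], [0, 0, 0], 4, 7⟩

/-- three marks -/
def cl3 : Cl := ⟨3, 7, [0, 1, 8], 0, 56, [840, 420, 280, 210, 168, 140, 120, 105],
  [840, 420, 280, 210, 168, 140, 120, 105], [0, 0, 0], 3, 490⟩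

/-- four marks, all parts exact -/
def cl40 : Cl := ⟨4, 6, [0, 3, 21, 100], 110, 660, [420, 210, 140, 105, 84, 70, 60],
  [420, 210, 140, 105, 84, 70, 60], [1, 1, 1], 1, 8575⟩

/-- four marks, two parts exact -/
def cl41 : Cl := ⟨4, 6, [0, 3, 21, 100], 110, 660, [420, 210, 140, 105, 84, 70, 60],
  [1260, 1890, 3570, 7980, 20412, 58457, 184553], [0, 1, 1], 1, 25725⟩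

/-- four marks, one part exact -/
def cl42 : Cl := ⟨4, 6, [0, 3, 21, 100], 110, 660, [420, 210, 140, 105, 84, 70, 60],
  [1260, 3150, 9240, 30765, 113862, 461629, 2028080], [0, 0, 1], 1, 25725⟩

/-- four marks, no part exact -/
def cl43 : Cl := ⟨4, 6, [0, 1, 22, 28], 0, 168, [420, 210, 140, 105, 84, 70, 60],
  [210, 735, 2905, 12705, 60627, 312396, 1724256], [0, 0, 0], 2, 8575⟩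

/-- the classes for one mark -/
def cls1 (_ : ℕ) : Cl := cl1

/-- the classes for two marks -/
def cls2 (_ : ℕ) : Cl := cl2

/-- the classes for three marks -/
def cls3 (_ : ℕ) : Cl := cl3

/-- the classes for four marks -/
def cls4 (b : ℕ) : Cl :=
  @Nat.rec (fun _ => Cl) cl40 (fun b _ => @Nat.rec (fun _ => Cl) cl41
    (fun b _ => @Nat.rec (fun _ => Cl) cl42 (fun _ _ => cl43) b) b) b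

end

end Pool.Agent.Work.MP_122e00_nt.Sharp.Cx

end

section

set_option autoImplicit false

set_option maxRecDepth 100000

/-!
# The certificate: data
-/

namespace Pool.Agent.Work.MP_122e00_nt.Sharp.Cx

/-- data -/
noncomputable def tr0 : Ct := (.dc 0 1 0 (.dc 0 3 0 (.dc 0 5 0 (.dc 0 9 0 (.dc 0 11 0 (.dc 0 13
  0 (.ct 2 6 1 2 1 (.dc 0 7 0 (.dc 1 7 0 (.dc 2 7 0 (.ct 3 6 1 2 1 (.dc 0 15 0 (.dc 1 15 0 (.dc 2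
  15 0 (.lf 3 0 112)))) (.dc 0 15 1 (.ct 0 3 1 1 1 (.ct 3 4 1 1 1 (.dc 1 15 0 (.dc 2 15 0 (.lf 3
  9 176))) (.dc 1 15 1 (.ct 3 5 1 1 1 (.dc 2 15 0 (.lf 3 10 176)) (.dc 2 15 1 (.lf 3 10 192)))))
  (.dc 1 15 0 (.dc 2 15 0 (.lf 3 11 144))))))))) (.dc 0 7 1 (.dc 0 15 1 (.ct 0 2 1 1 1 (.ct 2 4 1
  1 1 (.dc 1 7 0 (.dc 2 7 0 (.ct 3 4 1 1 1 (.dc 1 15 0 (.dc 2 15 0 (.lf 3 11 176))) (.dc 1 15 1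
  (.ct 3 5 1 1 1 (.dc 2 15 0 (.lf 3 10 176)) (.dc 2 15 1 (.lf 3 7 176))))))) (.dc 1 7 1 (.dc 1 15
  1 (.ct 2 5 1 1 1 (.dc 2 7 0 (.ct 3 5 1 1 1 (.dc 2 15 0 (.lf 3 11 176)) (.dc 2 15 1 (.lf 3 10
  176)))) (.dc 2 7 1 (.dc 2 15 1 (.lf 3 11 176))))))) (.dc 1 7 0 (.dc 2 7 0 (.ct 0 3 1 1 1 (.ct 3
  4 1 1 1 (.dc 1 15 0 (.dc 2 15 0 (.lf 3 11 160))) (.dc 1 15 1 (.ct 3 5 1 1 1 (.dc 2 15 0 (.lf 3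
  9 160)) (.dc 2 15 1 (.lf 3 8 192))))) (.dc 1 15 0 (.dc 2 15 0 (.lf 3 12 160))))))))))))))))

theorem dt0 : le (run cls4 4 tr0 [[1, 0, 0, 0, 3, 2, 2], [1, 1, 0, 0, 2, 2, 2], [1, 1, 1, 0, 1,
  1, 1], [1, 1, 1, 1, 2, 2, 2], [0, 0, 0, 0, 2, 1, 1], [0, 0, 0, 0, 1, 1, 0], [0, 0, 0, 0, 1, 1,
  1]] 140185576625493 [0, 0, 0, 0, 0, 0, 0]) 2493337711339 = true := by decide +kernel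

/-- data -/
noncomputable def tr1 : Ct := (.dc 0 1 0 (.dc 0 5 0 (.dc 0 9 0 (.dc 0 13 0 (.ct 2 4 1 1 1 (.dc
  1 7 0 (.dc 2 7 0 (.ct 3 4 1 1 1 (.dc 1 15 0 (.dc 2 15 0 (.ct 0 3 1 1 1 (.dc 0 3 0 (.lf 3 10
  176)) (.dc 0 3 1 (.lf 3 11 144))))) (.ct 3 6 1 1 1 (.dc 1 15 0 (.dc 2 15 0 (.ct 0 3 1 1 1 (.dc
  0 3 0 (.lf 3 11 192)) (.ct 0 4 1 1 1 (.dc 0 3 0 (.lf 3 9 176)) (.dc 0 3 1 (.lf 3 11 176))))))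
  (.dc 1 15 1 (.ct 0 4 1 1 1 (.dc 0 3 0 (.ct 3 5 1 1 1 (.dc 2 15 0 (.lf 3 9 192)) (.dc 2 15 1
  (.lf 3 7 192)))) (.ct 0 6 1 1 1 (.dc 0 3 0 (.ct 3 5 1 1 1 (.dc 2 15 0 (.lf 3 8 192)) (.dc 2 15
  1 (.lf 3 6 192)))) (.ct 0 3 1 1 1 (.dc 0 3 0 (.ct 0 5 1 1 1 (.ct 3 5 1 1 1 (.dc 2 15 0 (.lf 3 6
  208)) (.dc 2 15 1 (.lf 3 5 208))) (.dc 2 15 1 (.lf 3 5 208)))) (.dc 0 3 1 (.ct 3 5 1 1 1 (.dc 2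
  15 0 (.lf 3 11 208)) (.dc 2 15 1 (.lf 3 10 208)))))))))))) (.ct 2 6 1 1 1 (.dc 1 7 0 (.dc 2 7 0
  (.ct 3 6 1 1 1 (.dc 1 15 0 (.dc 2 15 0 (.ct 0 3 1 1 1 (.dc 0 3 0 (.lf 3 9 192)) (.dc 0 3 1 (.lf
  3 11 160))))) (.dc 1 15 1 (.ct 0 6 1 1 1 (.dc 0 3 0 (.ct 3 5 1 1 1 (.dc 2 15 0 (.lf 3 8 192))
  (.dc 2 15 1 (.lf 3 6 192)))) (.ct 0 3 1 1 1 (.dc 0 3 0 (.ct 0 5 1 1 1 (.ct 3 5 1 1 1 (.dc 2 15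
  0 (.lf 3 7 208)) (.dc 2 15 1 (.lf 3 5 208))) (.dc 2 15 1 (.lf 3 5 192)))) (.dc 0 3 1 (.ct 3 5 1
  1 1 (.dc 2 15 0 (.lf 3 11 192)) (.dc 2 15 1 (.lf 3 10 192)))))))))) (.dc 1 7 1 (.dc 1 15 1 (.ct
  2 5 1 1 1 (.dc 2 7 0 (.ct 0 3 1 1 1 (.dc 0 3 0 (.ct 0 5 1 1 1 (.ct 3 5 1 1 1 (.dc 2 15 0 (.lf 3
  10 208)) (.dc 2 15 1 (.lf 3 10 208))) (.dc 2 15 1 (.lf 3 9 192)))) (.dc 0 3 1 (.ct 3 5 1 1 1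
  (.dc 2 15 0 (.lf 3 9 192)) (.dc 2 15 1 (.lf 3 9 192)))))) (.dc 2 7 1 (.dc 2 15 1 (.ct 0 3 1 1 1
  (.dc 0 3 0 (.lf 3 11 176)) (.dc 0 3 1 (.lf 3 9 176))))))))))))))

theorem dt1 : le (run cls4 4 tr1 [[2, 1, 0, 0, 3, 2, 2], [1, 1, 0, 0, 2, 2, 2], [1, 1, 1, 0, 1,
  1, 1], [1, 1, 1, 1, 2, 2, 2], [0, 0, 0, 0, 2, 1, 1], [0, 0, 0, 0, 1, 1, 0], [1, 0, 0, 0, 3, 2,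
  2]] 140185576660437 [5, 5, 17, 17, 5, 35, 35]) 436455475082 = true := by decide +kernel

/-- data -/
noncomputable def tr2 : Ct := (.dc 1 7 0 (.dc 2 7 0 (.ct 0 3 1 1 1 (.dc 0 1 0 (.dc 0 5 0 (.dc 0
  9 0 (.ct 0 4 1 1 1 (.ct 3 4 1 1 1 (.dc 1 15 0 (.dc 2 15 0 (.ct 1 3 1 1 1 (.dc 0 3 0 (.lf 3 9
  192)) (.dc 0 3 1 (.lf 3 10 160))))) (.ct 3 6 1 1 1 (.dc 1 15 0 (.dc 2 15 0 (.ct 1 3 1 1 1 (.dc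
  0 3 0 (.lf 3 10 192)) (.ct 1 4 1 1 1 (.dc 0 3 0 (.lf 3 9 192)) (.dc 0 3 1 (.lf 3 10 192))))))
  (.dc 1 15 1 (.ct 1 4 1 1 1 (.dc 0 3 0 (.ct 3 5 1 1 1 (.dc 2 15 0 (.lf 3 9 192)) (.dc 2 15 1
  (.lf 3 9 208)))) (.ct 1 6 1 1 1 (.dc 0 3 0 (.ct 3 5 1 1 1 (.dc 2 15 0 (.lf 3 9 192)) (.dc 2 15
  1 (.lf 3 9 208)))) (.ct 1 3 1 1 1 (.dc 0 3 0 (.ct 1 5 1 1 1 (.ct 3 5 1 1 1 (.dc 2 15 0 (.lf 3 8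
  224)) (.dc 2 15 1 (.lf 3 10 224))) (.dc 2 15 1 (.lf 3 9 224)))) (.dc 0 3 1 (.ct 3 5 1 1 1 (.dc
  2 15 0 (.lf 3 9 224)) (.dc 2 15 1 (.lf 3 11 224)))))))))) (.ct 0 6 1 1 1 (.ct 3 6 1 1 1 (.dc 1
  15 0 (.dc 2 15 0 (.ct 1 3 1 1 1 (.dc 0 3 0 (.lf 3 8 192)) (.dc 0 3 1 (.lf 3 9 176))))) (.dc 1
  15 1 (.ct 1 6 1 1 1 (.dc 0 3 0 (.ct 3 5 1 1 1 (.dc 2 15 0 (.lf 3 8 192)) (.dc 2 15 1 (.lf 3 8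
  208)))) (.ct 1 3 1 1 1 (.dc 0 3 0 (.ct 1 5 1 1 1 (.ct 3 5 1 1 1 (.dc 2 15 0 (.lf 3 7 224)) (.dc
  2 15 1 (.lf 3 9 224))) (.dc 2 15 1 (.lf 3 8 208)))) (.dc 0 3 1 (.ct 3 5 1 1 1 (.dc 2 15 0 (.lf
  3 9 208)) (.dc 2 15 1 (.lf 3 11 208)))))))) (.dc 1 15 1 (.ct 0 5 1 1 1 (.ct 1 3 1 1 1 (.dc 0 3
  0 (.ct 1 5 1 1 1 (.ct 3 5 1 1 1 (.dc 2 15 0 (.lf 3 7 224)) (.dc 2 15 1 (.lf 3 9 224))) (.dc 2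
  15 1 (.lf 3 10 208)))) (.dc 0 3 1 (.ct 3 5 1 1 1 (.dc 2 15 0 (.lf 3 8 208)) (.dc 2 15 1 (.lf 3
  11 208))))) (.dc 2 15 1 (.ct 1 3 1 1 1 (.dc 0 3 0 (.lf 3 10 192)) (.dc 0 3 1 (.lf 3 8
  192))))))))))) (.dc 0 3 1 (.dc 0 5 1 (.ct 0 2 1 1 1 (.dc 0 1 0 (.dc 0 9 0 (.ct 3 4 1 1 1 (.dc 1
  15 0 (.dc 2 15 0 (.lf 3 10 160))) (.ct 3 6 1 1 1 (.dc 1 15 0 (.dc 2 15 0 (.lf 3 10 160))) (.dc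
  1 15 1 (.ct 3 5 1 1 1 (.dc 2 15 0 (.lf 3 9 192)) (.dc 2 15 1 (.lf 3 10 192)))))))) (.dc 0 9 1
  (.ct 3 4 1 1 1 (.dc 1 15 0 (.dc 2 15 0 (.ct 0 3 1 1 1 (.dc 0 1 0 (.lf 3 8 176)) (.dc 0 1 1 (.lf
  3 11 176))))) (.ct 3 6 1 1 1 (.dc 1 15 0 (.dc 2 15 0 (.ct 0 3 1 1 1 (.dc 0 1 0 (.lf 3 9 192))
  (.ct 0 4 1 1 1 (.dc 0 1 0 (.lf 3 6 208)) (.dc 0 1 1 (.lf 3 11 208)))))) (.dc 1 15 1 (.ct 0 4 1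
  1 1 (.dc 0 1 0 (.ct 3 5 1 1 1 (.dc 2 15 0 (.lf 3 8 208)) (.dc 2 15 1 (.lf 3 9 208)))) (.ct 0 6
  1 1 1 (.dc 0 1 0 (.ct 3 5 1 1 1 (.dc 2 15 0 (.lf 3 6 224)) (.dc 2 15 1 (.lf 3 8 224)))) (.ct 0
  3 1 1 1 (.dc 0 1 0 (.ct 0 5 1 1 1 (.ct 3 5 1 1 1 (.dc 2 15 0 (.lf 3 6 240)) (.dc 2 15 1 (.lf 3
  8 240))) (.dc 2 15 1 (.lf 3 8 240)))) (.dc 0 1 1 (.ct 3 5 1 1 1 (.dc 2 15 0 (.lf 3 12 208))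
  (.dc 2 15 1 (.lf 3 12 240)))))))))))))))))

theorem dt2 : le (run cls4 4 tr2 [[1, 0, 0, 0, 1, 0, 0], [2, 1, 0, 0, 3, 2, 2], [1, 1, 1, 0, 3,
  2, 2], [1, 1, 1, 1, 2, 2, 2], [0, 0, 0, 0, 2, 1, 1], [0, 0, 0, 0, 1, 1, 0], [1, 0, 0, 0, 3, 2,
  2]] 140185576668629 [7, 19, 19, 19, 7, 49, 49]) 207319193836 = true := by decide +kernel

/-- data -/
noncomputable def tr3 : Ct := (.ct 0 3 1 1 1 (.dc 0 1 0 (.dc 0 5 0 (.dc 0 9 0 (.ct 2 6 1 1 1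
  (.dc 1 7 0 (.dc 2 7 0 (.ct 0 6 1 1 1 (.ct 3 6 1 1 1 (.dc 1 15 0 (.dc 2 15 0 (.ct 1 3 1 1 1 (.dc
  0 3 0 (.lf 3 8 192)) (.dc 0 3 1 (.lf 3 10 160))))) (.dc 1 15 1 (.ct 1 6 1 1 1 (.dc 0 3 0 (.ct 3
  5 1 1 1 (.dc 2 15 0 (.lf 3 8 176)) (.dc 2 15 1 (.lf 3 8 176)))) (.ct 1 3 1 1 1 (.dc 0 3 0 (.ct
  1 5 1 1 1 (.ct 3 5 1 1 1 (.dc 2 15 0 (.lf 3 6 192)) (.dc 2 15 1 (.lf 3 9 192))) (.dc 2 15 1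
  (.lf 3 8 192)))) (.dc 0 3 1 (.ct 3 5 1 1 1 (.dc 2 15 0 (.lf 3 10 192)) (.dc 2 15 1 (.lf 3 12
  192)))))))) (.dc 1 15 1 (.ct 0 5 1 1 1 (.ct 1 3 1 1 1 (.dc 0 3 0 (.ct 1 5 1 1 1 (.ct 3 5 1 1 1
  (.dc 2 15 0 (.lf 3 8 192)) (.dc 2 15 1 (.lf 3 10 192))) (.dc 2 15 1 (.lf 3 10 192)))) (.dc 0 3
  1 (.ct 3 5 1 1 1 (.dc 2 15 0 (.lf 3 8 192)) (.dc 2 15 1 (.lf 3 10 192))))) (.dc 2 15 1 (.ct 1 3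
  1 1 1 (.dc 0 3 0 (.lf 3 9 160)) (.dc 0 3 1 (.lf 3 8 176))))))))) (.dc 1 7 1 (.dc 1 15 1 (.ct 2
  5 1 1 1 (.dc 2 7 0 (.ct 0 5 1 1 1 (.ct 1 3 1 1 1 (.dc 0 3 0 (.ct 1 5 1 1 1 (.ct 3 5 1 1 1 (.dc
  2 15 0 (.lf 3 8 208)) (.dc 2 15 1 (.lf 3 10 208))) (.dc 2 15 1 (.lf 3 10 192)))) (.dc 0 3 1
  (.ct 3 5 1 1 1 (.dc 2 15 0 (.lf 3 7 192)) (.dc 2 15 1 (.lf 3 9 192))))) (.dc 2 15 1 (.ct 1 3 1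
  1 1 (.dc 0 3 0 (.lf 3 8 176)) (.dc 0 3 1 (.lf 3 7 176)))))) (.dc 2 7 1 (.dc 2 15 1 (.ct 1 3 1 1
  1 (.dc 0 3 0 (.lf 3 11 176)) (.dc 0 3 1 (.lf 3 9 176)))))))))))) (.dc 0 3 1 (.dc 0 5 1 (.ct 2 6
  1 1 1 (.dc 1 7 0 (.dc 2 7 0 (.ct 0 2 1 1 1 (.dc 0 1 0 (.dc 0 9 0 (.ct 3 6 1 1 1 (.dc 1 15 0
  (.dc 2 15 0 (.lf 3 9 176))) (.dc 1 15 1 (.ct 3 5 1 1 1 (.dc 2 15 0 (.lf 3 8 176)) (.dc 2 15 1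
  (.lf 3 8 192))))))) (.ct 0 4 1 1 1 (.dc 0 1 0 (.dc 0 9 0 (.ct 3 6 1 1 1 (.dc 1 15 0 (.dc 2 15 0
  (.lf 3 9 160))) (.dc 1 15 1 (.ct 3 5 1 1 1 (.dc 2 15 0 (.lf 3 9 192)) (.dc 2 15 1 (.lf 3 9
  192))))))) (.dc 0 9 1 (.ct 3 6 1 1 1 (.dc 1 15 0 (.dc 2 15 0 (.ct 0 3 1 1 1 (.dc 0 1 0 (.lf 3 7
  192)) (.dc 0 1 1 (.lf 3 11 192))))) (.dc 1 15 1 (.ct 0 6 1 1 1 (.dc 0 1 0 (.ct 3 5 1 1 1 (.dc 2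
  15 0 (.lf 3 7 224)) (.dc 2 15 1 (.lf 3 9 224)))) (.ct 0 3 1 1 1 (.dc 0 1 0 (.ct 0 5 1 1 1 (.ct
  3 5 1 1 1 (.dc 2 15 0 (.lf 3 6 224)) (.dc 2 15 1 (.lf 3 9 224))) (.dc 2 15 1 (.lf 3 9 224))))
  (.dc 0 1 1 (.ct 3 5 1 1 1 (.dc 2 15 0 (.lf 3 11 192)) (.dc 2 15 1 (.lf 3 12 224)))))))))))))
  (.dc 1 7 1 (.dc 1 15 1 (.ct 0 4 1 1 1 (.dc 0 1 0 (.dc 0 9 0 (.ct 2 5 1 1 1 (.dc 2 7 0 (.ct 3 5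
  1 1 1 (.dc 2 15 0 (.lf 3 9 176)) (.dc 2 15 1 (.lf 3 9 176)))) (.dc 2 7 1 (.dc 2 15 1 (.lf 3 8
  176)))))) (.ct 0 6 1 1 1 (.dc 0 1 0 (.dc 0 9 0 (.ct 2 5 1 1 1 (.dc 2 7 0 (.ct 3 5 1 1 1 (.dc 2
  15 0 (.lf 3 8 192)) (.dc 2 15 1 (.lf 3 8 192)))) (.dc 2 7 1 (.dc 2 15 1 (.lf 3 7 192)))))) (.ct
  0 2 1 1 1 (.dc 0 1 0 (.dc 0 9 0 (.ct 0 5 1 1 1 (.ct 2 5 1 1 1 (.dc 2 7 0 (.ct 3 5 1 1 1 (.dc 2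
  15 0 (.lf 3 8 192)) (.dc 2 15 1 (.lf 3 11 192)))) (.dc 2 7 1 (.dc 2 15 1 (.lf 3 10 160)))) (.dc
  2 7 1 (.dc 2 15 1 (.lf 3 11 160)))))) (.dc 0 9 1 (.ct 2 5 1 1 1 (.dc 2 7 0 (.ct 0 3 1 1 1 (.dc
  0 1 0 (.ct 0 5 1 1 1 (.ct 3 5 1 1 1 (.dc 2 15 0 (.lf 3 7 192)) (.dc 2 15 1 (.lf 3 10 192)))
  (.dc 2 15 1 (.lf 3 8 192)))) (.dc 0 1 1 (.ct 3 5 1 1 1 (.dc 2 15 0 (.lf 3 11 160)) (.dc 2 15 1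
  (.lf 3 12 192)))))) (.dc 2 7 1 (.dc 2 15 1 (.ct 0 3 1 1 1 (.dc 0 1 0 (.lf 3 10 192)) (.dc 0 1 1
  (.lf 3 12 192))))))))))))))))

theorem dt3 : le (run cls4 4 tr3 [[1, 0, 0, 0, 1, 0, 0], [2, 1, 0, 0, 3, 2, 2], [1, 1, 1, 0, 1,
  1, 1], [1, 1, 1, 1, 2, 2, 2], [1, 1, 1, 0, 3, 2, 2], [0, 0, 0, 0, 1, 1, 0], [1, 0, 0, 0, 3, 2,
  2]] 140185576668629 [7, 19, 19, 19, 7, 49, 49]) 274577346555 = true := by decide +kernel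

end Pool.Agent.Work.MP_122e00_nt.Sharp.Cx

end

section

set_option autoImplicit false

set_option maxRecDepth 100000

/-!
# The certificate: data
-/

namespace Pool.Agent.Work.MP_122e00_nt.Sharp.Cx

/-- data -/
noncomputable def tr4 : Ct := (.dc 0 1 0 (.dc 0 5 0 (.dc 0 9 0 (.dc 0 13 0 (.ct 2 4 1 1 1 (.dc
  1 7 0 (.dc 2 7 0 (.ct 3 4 1 1 1 (.dc 1 15 0 (.dc 2 15 0 (.ct 0 3 1 1 1 (.ct 1 3 1 1 1 (.dc 0 3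
  0 (.lf 3 8 176)) (.dc 0 3 1 (.lf 3 12 144))) (.dc 0 3 1 (.lf 3 10 144))))) (.dc 1 15 1 (.ct 0 4
  1 1 1 (.ct 1 4 1 1 1 (.dc 0 3 0 (.ct 3 5 1 1 1 (.dc 2 15 0 (.lf 3 7 176)) (.dc 2 15 1 (.lf 3 5
  176)))) (.ct 1 3 1 1 1 (.dc 0 3 0 (.ct 1 5 1 1 1 (.ct 3 5 1 1 1 (.dc 2 15 0 (.lf 3 7 160)) (.dc
  2 15 1 (.lf 3 6 160))) (.dc 2 15 1 (.lf 3 6 176)))) (.dc 0 3 1 (.ct 3 5 1 1 1 (.dc 2 15 0 (.lf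
  3 11 160)) (.dc 2 15 1 (.lf 3 11 176)))))) (.ct 0 3 1 1 1 (.ct 0 5 1 1 1 (.ct 1 3 1 1 1 (.dc 0
  3 0 (.ct 1 5 1 1 1 (.ct 3 5 1 1 1 (.dc 2 15 0 (.lf 3 7 192)) (.dc 2 15 1 (.lf 3 6 192))) (.dc 2
  15 1 (.lf 3 6 208)))) (.dc 0 3 1 (.ct 3 5 1 1 1 (.dc 2 15 0 (.lf 3 11 192)) (.dc 2 15 1 (.lf 3
  11 208))))) (.dc 2 15 1 (.ct 1 3 1 1 1 (.dc 0 3 0 (.lf 3 6 192)) (.dc 0 3 1 (.lf 3 11 192)))))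
  (.dc 0 3 1 (.ct 3 5 1 1 1 (.dc 2 15 0 (.lf 3 11 176)) (.dc 2 15 1 (.lf 3 11 176)))))))))) (.dc
  1 7 1 (.dc 1 15 1 (.ct 2 5 1 1 1 (.dc 2 7 0 (.ct 0 3 1 1 1 (.ct 0 5 1 1 1 (.ct 1 3 1 1 1 (.dc 0
  3 0 (.ct 1 5 1 1 1 (.ct 3 5 1 1 1 (.dc 2 15 0 (.lf 3 10 192)) (.dc 2 15 1 (.lf 3 9 192))) (.dc
  2 15 1 (.lf 3 8 208)))) (.dc 0 3 1 (.ct 3 5 1 1 1 (.dc 2 15 0 (.lf 3 11 192)) (.dc 2 15 1 (.lf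
  3 10 208))))) (.dc 2 15 1 (.ct 1 3 1 1 1 (.dc 0 3 0 (.lf 3 8 176)) (.dc 0 3 1 (.lf 3 10
  192))))) (.dc 0 3 1 (.ct 3 5 1 1 1 (.dc 2 15 0 (.lf 3 10 192)) (.dc 2 15 1 (.lf 3 10 192))))))
  (.dc 2 7 1 (.dc 2 15 1 (.ct 0 3 1 1 1 (.ct 1 3 1 1 1 (.dc 0 3 0 (.lf 3 10 160)) (.dc 0 3 1 (.lf
  3 8 160))) (.dc 0 3 1 (.lf 3 8 160)))))))))))))

theorem dt4 : le (run cls4 4 tr4 [[2, 1, 0, 0, 3, 2, 2], [1, 1, 0, 0, 2, 1, 1], [1, 1, 1, 0, 1,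
  1, 1], [1, 1, 1, 1, 2, 2, 2], [0, 0, 0, 0, 2, 1, 1], [0, 0, 0, 0, 1, 1, 0], [1, 1, 0, 0, 2, 2,
  2]] 140185576660437 [5, 5, 17, 17, 5, 35, 35]) 450110107051 = true := by decide +kernel

/-- data -/
noncomputable def tr5 : Ct := (.dc 0 13 1 (.ct 2 4 1 1 1 (.dc 1 7 0 (.dc 2 7 0 (.ct 0 3 1 1 1
  (.dc 0 1 0 (.dc 0 5 0 (.dc 0 9 0 (.ct 0 4 1 1 1 (.ct 3 4 1 1 1 (.dc 1 15 0 (.dc 2 15 0 (.ct 1 3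
  1 1 1 (.ct 3 6 1 1 1 (.dc 0 3 1 (.lf 3 9 160)) (.dc 0 3 0 (.lf 3 8 192))) (.dc 0 3 1 (.lf 3 10
  160))))) (.dc 1 15 1 (.ct 1 4 1 1 1 (.ct 4 6 1 1 1 (.ct 3 6 1 1 1 (.dc 0 3 1 (.ct 3 5 1 1 1
  (.dc 2 15 0 (.lf 3 9 192)) (.dc 2 15 1 (.lf 3 12 192)))) (.dc 0 3 0 (.ct 3 5 1 1 1 (.ct 5 6 1 1
  1 (.dc 2 15 1 (.lf 3 9 192)) (.dc 2 15 0 (.lf 3 7 192))) (.dc 2 15 1 (.lf 3 9 160))))) (.dc 0 3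
  0 (.ct 3 5 1 1 1 (.dc 2 15 0 (.lf 3 8 192)) (.dc 2 15 1 (.lf 3 9 192))))) (.ct 1 3 1 1 1 (.ct 1
  5 1 1 1 (.ct 3 6 1 1 1 (.dc 0 3 1 (.ct 3 5 1 1 1 (.dc 2 15 0 (.lf 3 9 208)) (.dc 2 15 1 (.lf 3
  12 208)))) (.dc 0 3 0 (.ct 3 5 1 1 1 (.ct 5 6 1 1 1 (.dc 2 15 1 (.lf 3 8 208)) (.dc 2 15 0 (.lf
  3 7 208))) (.dc 2 15 1 (.lf 3 8 176))))) (.dc 2 15 1 (.ct 3 6 1 1 1 (.dc 0 3 1 (.lf 3 11 176))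
  (.dc 0 3 0 (.lf 3 9 176))))) (.dc 0 3 1 (.ct 3 5 1 1 1 (.dc 2 15 0 (.lf 3 10 176)) (.dc 2 15 1
  (.lf 3 12 176)))))))) (.dc 1 15 1 (.ct 0 5 1 1 1 (.ct 1 3 1 1 1 (.ct 1 5 1 1 1 (.ct 3 6 1 1 1
  (.dc 0 3 1 (.ct 3 5 1 1 1 (.dc 2 15 0 (.lf 3 8 240)) (.dc 2 15 1 (.lf 3 11 240)))) (.dc 0 3 0
  (.ct 3 5 1 1 1 (.ct 5 6 1 1 1 (.dc 2 15 1 (.lf 3 8 224)) (.dc 2 15 0 (.lf 3 7 224))) (.dc 2 15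
  1 (.lf 3 9 208))))) (.dc 2 15 1 (.ct 3 6 1 1 1 (.dc 0 3 1 (.lf 3 10 208)) (.dc 0 3 0 (.lf 3 9
  192))))) (.dc 0 3 1 (.ct 3 5 1 1 1 (.dc 2 15 0 (.lf 3 9 208)) (.dc 2 15 1 (.lf 3 11 208)))))
  (.dc 2 15 1 (.ct 1 3 1 1 1 (.ct 3 6 1 1 1 (.dc 0 3 1 (.lf 3 8 192)) (.dc 0 3 0 (.lf 3 10 192)))
  (.dc 0 3 1 (.lf 3 10 192)))))))))) (.dc 0 3 1 (.dc 0 5 1 (.ct 0 2 1 1 1 (.dc 0 1 0 (.dc 0 9 0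
  (.ct 3 4 1 1 1 (.dc 1 15 0 (.dc 2 15 0 (.lf 3 8 160))) (.dc 1 15 1 (.ct 3 5 1 1 1 (.dc 2 15 0
  (.lf 3 8 192)) (.dc 2 15 1 (.lf 3 9 192))))))) (.dc 0 9 1 (.ct 3 4 1 1 1 (.dc 1 15 0 (.dc 2 15
  0 (.ct 0 3 1 1 1 (.dc 0 1 0 (.lf 3 6 176)) (.dc 0 1 1 (.lf 3 11 160))))) (.dc 1 15 1 (.ct 0 4 1
  1 1 (.dc 0 1 0 (.ct 3 5 1 1 1 (.dc 2 15 0 (.lf 3 6 208)) (.dc 2 15 1 (.lf 3 8 208)))) (.ct 0 3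
  1 1 1 (.dc 0 1 0 (.ct 0 5 1 1 1 (.ct 3 5 1 1 1 (.dc 2 15 0 (.lf 3 5 208)) (.dc 2 15 1 (.lf 3 8
  208))) (.dc 2 15 1 (.lf 3 8 208)))) (.dc 0 1 1 (.ct 3 5 1 1 1 (.dc 2 15 0 (.lf 3 11 176)) (.dc
  2 15 1 (.lf 3 12 208))))))))))))))) (.dc 1 7 1 (.dc 1 15 1 (.ct 0 3 1 1 1 (.dc 0 1 0 (.dc 0 5 0
  (.dc 0 9 0 (.ct 2 5 1 1 1 (.dc 2 7 0 (.ct 0 5 1 1 1 (.ct 1 3 1 1 1 (.ct 1 5 1 1 1 (.ct 3 6 1 1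
  1 (.dc 0 3 1 (.ct 3 5 1 1 1 (.dc 2 15 0 (.lf 3 7 224)) (.dc 2 15 1 (.lf 3 10 224)))) (.dc 0 3 0
  (.ct 3 5 1 1 1 (.ct 5 6 1 1 1 (.dc 2 15 1 (.lf 3 9 224)) (.dc 2 15 0 (.lf 3 8 224))) (.dc 2 15
  1 (.lf 3 9 192))))) (.dc 2 15 1 (.ct 3 6 1 1 1 (.dc 0 3 1 (.lf 3 9 208)) (.dc 0 3 0 (.lf 3 10
  208))))) (.dc 0 3 1 (.ct 3 5 1 1 1 (.dc 2 15 0 (.lf 3 9 192)) (.dc 2 15 1 (.lf 3 11 208)))))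
  (.dc 2 15 1 (.ct 1 3 1 1 1 (.ct 3 6 1 1 1 (.dc 0 3 1 (.lf 3 7 192)) (.dc 0 3 0 (.lf 3 9 192)))
  (.dc 0 3 1 (.lf 3 10 192)))))) (.dc 2 7 1 (.dc 2 15 1 (.ct 1 3 1 1 1 (.ct 3 6 1 1 1 (.dc 0 3 1
  (.lf 3 10 160)) (.dc 0 3 0 (.lf 3 11 160))) (.dc 0 3 1 (.lf 3 8 160))))))))) (.dc 0 3 1 (.dc 0
  5 1 (.ct 0 4 1 1 1 (.dc 0 1 0 (.dc 0 9 0 (.ct 2 5 1 1 1 (.dc 2 7 0 (.ct 3 5 1 1 1 (.dc 2 15 0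
  (.lf 3 7 176)) (.dc 2 15 1 (.lf 3 8 176)))) (.dc 2 7 1 (.dc 2 15 1 (.lf 3 7 160)))))) (.ct 0 2
  1 1 1 (.dc 0 1 0 (.dc 0 9 0 (.ct 0 5 1 1 1 (.ct 2 5 1 1 1 (.dc 2 7 0 (.ct 3 5 1 1 1 (.dc 2 15 0
  (.lf 3 8 176)) (.dc 2 15 1 (.lf 3 11 176)))) (.dc 2 7 1 (.dc 2 15 1 (.lf 3 10 160)))) (.dc 2 7
  1 (.dc 2 15 1 (.lf 3 10 160)))))) (.dc 0 9 1 (.ct 2 5 1 1 1 (.dc 2 7 0 (.ct 0 3 1 1 1 (.dc 0 1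
  0 (.ct 0 5 1 1 1 (.ct 3 5 1 1 1 (.dc 2 15 0 (.lf 3 7 192)) (.dc 2 15 1 (.lf 3 9 192))) (.dc 2
  15 1 (.lf 3 7 192)))) (.dc 0 1 1 (.ct 3 5 1 1 1 (.dc 2 15 0 (.lf 3 11 160)) (.dc 2 15 1 (.lf 3
  12 192)))))) (.dc 2 7 1 (.dc 2 15 1 (.ct 0 3 1 1 1 (.dc 0 1 0 (.lf 3 10 176)) (.dc 0 1 1 (.lf 3
  12 176))))))))))))))))

theorem dt5 : le (run cls4 4 tr5 [[1, 0, 0, 0, 1, 0, 0], [1, 1, 0, 0, 2, 1, 1], [1, 1, 1, 0, 1,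
  1, 1], [1, 1, 1, 1, 2, 2, 2], [0, 0, 0, 0, 2, 1, 1], [0, 0, 0, 0, 1, 1, 0], [2, 1, 0, 0, 3, 2,
  2]] 140185576660437 [5, 5, 17, 17, 5, 35, 35]) 245843364775 = true := by decide +kernel

/-- data -/
noncomputable def tr6 : Ct := (.dc 0 1 0 (.dc 0 5 0 (.dc 0 9 0 (.dc 0 13 0 (.ct 1 5 1 1 1 (.dc
  2 3 0 (.dc 2 11 0 (.ct 1 3 1 1 1 (.dc 1 3 0 (.ct 2 5 1 1 1 (.dc 2 7 0 (.ct 1 5 1 1 1 (.ct 0 3 1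
  1 1 (.ct 0 5 1 1 1 (.ct 3 4 1 1 1 (.dc 0 3 1 (.ct 3 5 1 1 1 (.dc 2 15 0 (.lf 3 10 192)) (.dc 2
  15 1 (.lf 3 10 192)))) (.dc 0 3 0 (.ct 3 5 1 1 1 (.ct 4 5 1 1 1 (.dc 2 15 0 (.lf 3 8 192)) (.dc
  2 15 1 (.lf 3 7 192))) (.dc 2 15 1 (.lf 3 8 192))))) (.dc 2 15 1 (.ct 3 4 1 1 1 (.dc 0 3 1 (.lf
  3 10 192)) (.dc 0 3 0 (.lf 3 7 176))))) (.dc 0 3 1 (.ct 3 5 1 1 1 (.dc 2 15 0 (.lf 3 9 192))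
  (.dc 2 15 1 (.lf 3 9 192))))) (.dc 2 15 1 (.ct 0 3 1 1 1 (.ct 3 4 1 1 1 (.dc 0 3 1 (.lf 3 9
  192)) (.dc 0 3 0 (.lf 3 7 176))) (.dc 0 3 1 (.lf 3 8 192)))))) (.dc 2 7 1 (.dc 2 15 1 (.ct 0 3
  1 1 1 (.ct 3 4 1 1 1 (.dc 0 3 1 (.lf 3 8 192)) (.dc 0 3 0 (.lf 3 9 192))) (.dc 0 3 1 (.lf 3 7
  176))))))) (.dc 0 3 1 (.dc 1 3 1 (.ct 2 5 1 1 1 (.dc 2 7 0 (.ct 3 5 1 1 1 (.dc 2 15 0 (.lf 3 11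
  160)) (.dc 2 15 1 (.lf 3 11 192)))) (.dc 2 7 1 (.dc 2 15 1 (.lf 3 10 176))))))))) (.dc 2 7 1
  (.dc 2 11 1 (.dc 2 15 1 (.ct 1 3 1 1 1 (.dc 2 3 0 (.ct 3 5 1 1 1 (.dc 0 3 1 (.dc 1 3 1 (.lf 3
  10 176))) (.dc 1 3 0 (.ct 0 3 1 1 1 (.ct 3 4 1 1 1 (.dc 0 3 1 (.lf 3 6 192)) (.dc 0 3 0 (.lf 3
  8 192))) (.dc 0 3 1 (.lf 3 5 176)))))) (.dc 0 3 1 (.dc 1 3 1 (.dc 2 3 1 (.lf 3 10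
  160)))))))))))))

theorem dt6 : le (run cls4 4 tr6 [[2, 1, 0, 0, 3, 2, 2], [1, 1, 0, 0, 0, 0, 0], [1, 1, 1, 0, 1,
  1, 1], [1, 1, 1, 1, 2, 2, 2], [1, 1, 0, 0, 2, 1, 1], [0, 0, 0, 0, 1, 1, 0], [1, 1, 0, 0, 2, 2,
  2]] 131357279247829 [10, 10, 34, 34, 40, 40, 70]) 690424462958 = true := by decide +kernel

end Pool.Agent.Work.MP_122e00_nt.Sharp.Cx

end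

section

set_option autoImplicit false

set_option maxRecDepth 100000

/-!
# The certificate: data
-/

namespace Pool.Agent.Work.MP_122e00_nt.Sharp.Cx

/-- data -/
noncomputable def tr7 : Ct := (.dc 0 13 1 (.ct 1 5 1 1 1 (.dc 2 3 0 (.dc 2 11 0 (.ct 0 3 1 1 1
  (.dc 0 1 0 (.dc 0 5 0 (.dc 0 9 0 (.ct 2 5 1 1 1 (.dc 2 7 0 (.ct 1 3 1 1 1 (.dc 1 3 0 (.ct 0 5 1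
  1 1 (.ct 1 5 1 1 1 (.ct 3 4 1 1 1 (.dc 0 3 1 (.ct 3 5 1 1 1 (.dc 2 15 0 (.lf 3 8 208)) (.dc 2
  15 1 (.lf 3 11 208)))) (.ct 4 5 1 1 1 (.ct 3 6 1 1 1 (.dc 0 3 1 (.ct 3 5 1 1 1 (.dc 2 15 0 (.lf
  3 6 240)) (.dc 2 15 1 (.lf 3 9 240)))) (.dc 0 3 0 (.ct 3 5 1 1 1 (.ct 5 6 1 1 1 (.dc 2 15 1
  (.lf 3 8 240)) (.dc 2 15 0 (.lf 3 7 208))) (.dc 2 15 1 (.lf 3 8 208))))) (.dc 2 15 1 (.ct 3 6 1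
  1 1 (.dc 0 3 1 (.lf 3 9 208)) (.dc 0 3 0 (.lf 3 8 208)))))) (.dc 2 15 1 (.ct 3 4 1 1 1 (.dc 0 3
  1 (.lf 3 11 192)) (.ct 3 6 1 1 1 (.dc 0 3 1 (.lf 3 7 176)) (.dc 0 3 0 (.lf 3 8 176)))))) (.dc 2
  15 1 (.ct 3 4 1 1 1 (.dc 0 3 1 (.lf 3 11 192)) (.ct 3 6 1 1 1 (.dc 0 3 1 (.lf 3 7 192)) (.dc 0
  3 0 (.lf 3 8 192))))))) (.dc 0 3 1 (.ct 3 5 1 1 1 (.ct 0 1 1 1 1 (.dc 1 3 1 (.ct 0 5 1 1 1 (.dc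
  2 15 0 (.lf 3 11 176)) (.dc 2 15 1 (.lf 3 12 176)))) (.dc 1 3 0 (.ct 0 5 1 1 1 (.ct 1 5 1 1 1
  (.dc 2 15 0 (.lf 3 7 208)) (.dc 2 15 1 (.lf 3 8 208))) (.dc 2 15 1 (.lf 3 10 192))))) (.dc 2 15
  1 (.ct 0 1 1 1 1 (.dc 1 3 1 (.lf 3 12 192)) (.dc 1 3 0 (.lf 3 10 192)))))))) (.dc 2 7 1 (.dc 2
  15 1 (.ct 1 3 1 1 1 (.dc 1 3 0 (.ct 3 4 1 1 1 (.dc 0 3 1 (.lf 3 9 192)) (.ct 3 6 1 1 1 (.dc 0 3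
  1 (.lf 3 10 192)) (.dc 0 3 0 (.lf 3 10 192))))) (.dc 0 3 1 (.ct 0 1 1 1 1 (.dc 1 3 1 (.lf 3 12
  192)) (.dc 1 3 0 (.lf 3 8 192))))))))))) (.dc 0 3 1 (.dc 0 5 1 (.ct 0 2 1 1 1 (.dc 0 1 0 (.dc 0
  9 0 (.ct 0 5 1 1 1 (.ct 2 5 1 1 1 (.dc 2 7 0 (.ct 1 3 1 1 1 (.dc 1 3 0 (.ct 1 5 1 1 1 (.ct 3 5
  1 1 1 (.dc 2 15 0 (.lf 3 8 192)) (.dc 2 15 1 (.lf 3 11 192))) (.dc 2 15 1 (.lf 3 10 176))))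
  (.dc 1 3 1 (.ct 3 5 1 1 1 (.dc 2 15 0 (.lf 3 10 176)) (.dc 2 15 1 (.lf 3 11 176)))))) (.dc 2 7
  1 (.dc 2 15 1 (.ct 1 3 1 1 1 (.dc 1 3 0 (.lf 3 10 160)) (.dc 1 3 1 (.lf 3 11 160)))))) (.dc 2 7
  1 (.dc 2 15 1 (.ct 1 3 1 1 1 (.dc 1 3 0 (.lf 3 10 160)) (.dc 1 3 1 (.lf 3 10 160)))))))) (.dc 0
  9 1 (.ct 2 5 1 1 1 (.dc 2 7 0 (.ct 0 3 1 1 1 (.dc 0 1 0 (.ct 0 1 1 1 1 (.ct 0 5 1 1 1 (.ct 1 3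
  1 1 1 (.dc 1 3 0 (.ct 1 5 1 1 1 (.ct 3 5 1 1 1 (.dc 2 15 0 (.lf 3 6 192)) (.dc 2 15 1 (.lf 3 9
  192))) (.dc 2 15 1 (.lf 3 8 176)))) (.dc 1 3 1 (.ct 3 5 1 1 1 (.dc 2 15 0 (.lf 3 9 160)) (.dc 2
  15 1 (.lf 3 11 176))))) (.dc 2 15 1 (.ct 1 3 1 1 1 (.dc 1 3 0 (.lf 3 8 176)) (.dc 1 3 1 (.lf 3
  10 176))))) (.dc 1 3 0 (.ct 0 5 1 1 1 (.ct 1 5 1 1 1 (.ct 3 5 1 1 1 (.dc 2 15 0 (.lf 3 6 192))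
  (.dc 2 15 1 (.lf 3 8 192))) (.dc 2 15 1 (.lf 3 8 176))) (.dc 2 15 1 (.lf 3 8 208)))))) (.dc 0 1
  1 (.ct 1 3 1 1 1 (.dc 1 3 0 (.ct 1 5 1 1 1 (.ct 3 5 1 1 1 (.dc 2 15 0 (.lf 3 11 160)) (.dc 2 15
  1 (.lf 3 12 192))) (.dc 2 15 1 (.lf 3 12 192)))) (.dc 1 3 1 (.ct 3 5 1 1 1 (.dc 2 15 0 (.lf 3
  11 144)) (.dc 2 15 1 (.lf 3 12 160)))))))) (.dc 2 7 1 (.dc 2 15 1 (.ct 0 3 1 1 1 (.dc 0 1 0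
  (.ct 0 1 1 1 1 (.ct 1 3 1 1 1 (.dc 1 3 0 (.lf 3 9 176)) (.dc 1 3 1 (.lf 3 10 176))) (.dc 1 3 0
  (.lf 3 9 192)))) (.dc 0 1 1 (.ct 1 3 1 1 1 (.dc 1 3 0 (.lf 3 12 192)) (.dc 1 3 1 (.lf 3 11
  176))))))))))))))) (.dc 2 7 1 (.dc 2 11 1 (.dc 2 15 1 (.ct 0 3 1 1 1 (.dc 0 1 0 (.dc 0 5 0 (.dc
  0 9 0 (.ct 1 3 1 1 1 (.dc 2 3 0 (.ct 3 5 1 1 1 (.dc 0 3 1 (.ct 0 5 1 1 1 (.dc 1 3 1 (.lf 3 12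
  192)) (.dc 1 3 0 (.lf 3 7 192)))) (.dc 1 3 0 (.ct 3 4 1 1 1 (.dc 0 3 1 (.lf 3 7 192)) (.ct 3 6
  1 1 1 (.dc 0 3 1 (.lf 3 8 192)) (.dc 0 3 0 (.lf 3 9 192))))))) (.dc 0 3 1 (.ct 0 1 1 1 1 (.dc 1
  3 1 (.dc 2 3 1 (.lf 3 11 176))) (.dc 2 3 0 (.ct 0 5 1 1 1 (.dc 1 3 1 (.lf 3 11 192)) (.dc 1 3 0
  (.lf 3 8 192)))))))))) (.dc 0 3 1 (.dc 0 5 1 (.ct 0 2 1 1 1 (.dc 0 1 0 (.dc 0 9 0 (.ct 1 3 1 1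
  1 (.dc 2 3 0 (.ct 3 5 1 1 1 (.dc 1 3 1 (.lf 3 10 192)) (.dc 1 3 0 (.lf 3 10 192)))) (.dc 1 3 1
  (.dc 2 3 1 (.lf 3 10 176)))))) (.dc 0 9 1 (.ct 1 3 1 1 1 (.dc 2 3 0 (.ct 0 1 1 1 1 (.dc 0 1 0
  (.ct 3 5 1 1 1 (.dc 1 3 1 (.lf 3 9 192)) (.dc 1 3 0 (.lf 3 8 192)))) (.ct 0 3 1 1 1 (.dc 0 1 0
  (.ct 0 5 1 1 1 (.ct 3 5 1 1 1 (.dc 1 3 1 (.lf 3 9 176)) (.dc 1 3 0 (.lf 3 8 176))) (.dc 1 3 0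
  (.lf 3 8 208)))) (.dc 0 1 1 (.ct 3 5 1 1 1 (.dc 1 3 1 (.lf 3 11 176)) (.dc 1 3 0 (.lf 3 12
  208))))))) (.dc 1 3 1 (.dc 2 3 1 (.ct 0 3 1 1 1 (.dc 0 1 0 (.lf 3 10 192)) (.dc 0 1 1 (.lf 3 8
  160))))))))))))))))

theorem dt7 : le (run cls4 4 tr7 [[1, 0, 0, 0, 1, 0, 0], [1, 1, 0, 0, 0, 0, 0], [1, 1, 1, 0, 1,
  1, 1], [1, 1, 1, 1, 2, 2, 2], [1, 1, 0, 0, 2, 1, 1], [0, 0, 0, 0, 1, 1, 0], [2, 1, 0, 0, 3, 2,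
  2]] 131357279247829 [10, 10, 34, 34, 40, 40, 70]) 339234195795 = true := by decide +kernel

end Pool.Agent.Work.MP_122e00_nt.Sharp.Cx

end

section

set_option autoImplicit false

set_option maxRecDepth 100000

/-!
# The certificate: data
-/

namespace Pool.Agent.Work.MP_122e00_nt.Sharp.Cx

/-- data -/
noncomputable def tr8 : Ct := (.dc 1 7 0 (.dc 2 7 0 (.ct 0 6 1 1 1 (.dc 0 1 0 (.dc 0 5 0 (.dc 0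
  9 0 (.ct 0 4 1 1 1 (.ct 3 4 1 1 1 (.ct 4 6 1 1 1 (.dc 1 15 1 (.ct 1 4 1 1 1 (.dc 0 3 0 (.ct 5 6
  1 1 1 (.dc 2 15 1 (.lf 3 10 192)) (.dc 2 15 0 (.lf 3 9 192)))) (.ct 1 6 1 1 1 (.dc 0 3 0 (.ct 1
  5 1 1 1 (.ct 5 6 1 1 1 (.dc 2 15 1 (.lf 3 10 176)) (.dc 2 15 0 (.lf 3 8 176))) (.dc 2 15 1 (.lf
  3 11 176)))) (.dc 0 3 1 (.ct 5 6 1 1 1 (.dc 2 15 1 (.lf 3 12 176)) (.dc 2 15 0 (.lf 3 10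
  176))))))) (.dc 1 15 0 (.dc 2 15 0 (.ct 1 6 1 1 1 (.dc 0 3 0 (.lf 3 9 192)) (.dc 0 3 1 (.lf 3
  10 160)))))) (.dc 1 15 1 (.ct 3 5 1 1 1 (.ct 1 6 1 1 1 (.dc 0 3 0 (.ct 1 5 1 1 1 (.ct 5 6 1 1 1
  (.dc 2 15 1 (.lf 3 9 176)) (.dc 2 15 0 (.lf 3 8 176))) (.dc 2 15 1 (.lf 3 10 176)))) (.dc 0 3 1
  (.ct 5 6 1 1 1 (.dc 2 15 1 (.lf 3 10 176)) (.dc 2 15 0 (.lf 3 8 176))))) (.dc 2 15 1 (.ct 1 6 1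
  1 1 (.dc 0 3 0 (.lf 3 9 160)) (.dc 0 3 1 (.lf 3 7 160))))))) (.dc 1 15 1 (.ct 0 5 1 1 1 (.ct 3
  5 1 1 1 (.ct 1 6 1 1 1 (.dc 0 3 0 (.ct 1 5 1 1 1 (.ct 5 6 1 1 1 (.dc 2 15 1 (.lf 3 10 208))
  (.dc 2 15 0 (.lf 3 8 208))) (.dc 2 15 1 (.lf 3 10 208)))) (.dc 0 3 1 (.ct 5 6 1 1 1 (.dc 2 15 1
  (.lf 3 10 208)) (.dc 2 15 0 (.lf 3 9 208))))) (.dc 2 15 1 (.ct 1 6 1 1 1 (.dc 0 3 0 (.lf 3 9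
  176)) (.dc 0 3 1 (.lf 3 8 192))))) (.dc 2 15 1 (.ct 1 6 1 1 1 (.dc 0 3 0 (.lf 3 10 192)) (.dc 0
  3 1 (.lf 3 8 192)))))))))) (.dc 0 3 1 (.dc 0 5 1 (.ct 0 2 1 1 1 (.dc 0 1 0 (.dc 0 9 0 (.ct 3 4
  1 1 1 (.ct 4 6 1 1 1 (.dc 1 15 1 (.ct 5 6 1 1 1 (.dc 2 15 1 (.lf 3 9 192)) (.dc 2 15 0 (.lf 3 8
  192)))) (.dc 1 15 0 (.dc 2 15 0 (.lf 3 8 160)))) (.dc 1 15 1 (.ct 3 5 1 1 1 (.ct 5 6 1 1 1 (.dc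
  2 15 1 (.lf 3 8 176)) (.dc 2 15 0 (.lf 3 7 176))) (.dc 2 15 1 (.lf 3 5 160))))))) (.dc 0 9 1
  (.ct 3 4 1 1 1 (.ct 4 6 1 1 1 (.dc 1 15 1 (.ct 0 3 1 1 1 (.dc 0 1 0 (.ct 5 6 1 1 1 (.dc 2 15 1
  (.lf 3 10 176)) (.dc 2 15 0 (.lf 3 8 176)))) (.ct 0 4 1 1 1 (.dc 0 1 0 (.ct 5 6 1 1 1 (.dc 2 15
  1 (.lf 3 9 176)) (.dc 2 15 0 (.lf 3 7 176)))) (.ct 0 6 1 1 1 (.dc 0 1 0 (.ct 0 5 1 1 1 (.ct 5 6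
  1 1 1 (.dc 2 15 1 (.lf 3 8 176)) (.dc 2 15 0 (.lf 3 6 176))) (.dc 2 15 1 (.lf 3 6 176)))) (.dc
  0 1 1 (.ct 5 6 1 1 1 (.dc 2 15 1 (.lf 3 13 192)) (.dc 2 15 0 (.lf 3 12 192)))))))) (.dc 1 15 0
  (.dc 2 15 0 (.ct 0 3 1 1 1 (.dc 0 1 0 (.lf 3 8 176)) (.ct 0 6 1 1 1 (.dc 0 1 0 (.lf 3 7 176))
  (.dc 0 1 1 (.lf 3 11 160))))))) (.dc 1 15 1 (.ct 0 4 1 1 1 (.dc 0 1 0 (.ct 3 5 1 1 1 (.ct 5 6 1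
  1 1 (.dc 2 15 1 (.lf 3 10 176)) (.dc 2 15 0 (.lf 3 7 176))) (.dc 2 15 1 (.lf 3 10 176)))) (.ct
  0 3 1 1 1 (.dc 0 1 0 (.ct 0 5 1 1 1 (.ct 3 5 1 1 1 (.ct 5 6 1 1 1 (.dc 2 15 1 (.lf 3 9 176))
  (.dc 2 15 0 (.lf 3 7 176))) (.dc 2 15 1 (.lf 3 9 176))) (.dc 2 15 1 (.lf 3 8 176)))) (.ct 3 5 1
  1 1 (.ct 0 6 1 1 1 (.dc 0 1 0 (.ct 0 5 1 1 1 (.ct 5 6 1 1 1 (.dc 2 15 1 (.lf 3 8 176)) (.dc 2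
  15 0 (.lf 3 6 176))) (.dc 2 15 1 (.lf 3 7 176)))) (.dc 0 1 1 (.ct 5 6 1 1 1 (.dc 2 15 1 (.lf 3
  13 176)) (.dc 2 15 0 (.lf 3 12 176))))) (.dc 2 15 1 (.ct 0 6 1 1 1 (.dc 0 1 0 (.lf 3 8 176))
  (.dc 0 1 1 (.lf 3 13 176))))))))))))))))

theorem dt8 : le (run cls4 4 tr8 [[1, 0, 0, 0, 1, 0, 0], [1, 1, 0, 0, 2, 1, 1], [1, 1, 1, 0, 3,
  2, 2], [1, 1, 1, 1, 2, 1, 1], [0, 0, 0, 0, 2, 1, 1], [0, 0, 0, 0, 1, 1, 0], [1, 1, 1, 1, 2, 2,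
  2]] 140185576668629 [21, 21, 21, 21, 9, 63, 63]) 1020574944852 = true := by decide +kernel

/-- data -/
noncomputable def tr9 : Ct := (.dc 1 7 1 (.dc 1 15 1 (.ct 0 6 1 1 1 (.dc 0 1 0 (.dc 0 5 0 (.dc
  0 9 0 (.ct 2 5 1 1 1 (.dc 2 7 0 (.ct 0 5 1 1 1 (.ct 3 5 1 1 1 (.ct 1 6 1 1 1 (.dc 0 3 0 (.ct 1
  5 1 1 1 (.ct 5 6 1 1 1 (.dc 2 15 1 (.lf 3 9 192)) (.dc 2 15 0 (.lf 3 8 192))) (.dc 2 15 1 (.lf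
  3 10 208)))) (.dc 0 3 1 (.ct 5 6 1 1 1 (.dc 2 15 1 (.lf 3 10 208)) (.dc 2 15 0 (.lf 3 8
  192))))) (.dc 2 15 1 (.ct 1 6 1 1 1 (.dc 0 3 0 (.lf 3 9 176)) (.dc 0 3 1 (.lf 3 7 192))))) (.dc
  2 15 1 (.ct 1 6 1 1 1 (.dc 0 3 0 (.lf 3 10 192)) (.dc 0 3 1 (.lf 3 8 192)))))) (.dc 2 7 1 (.dc
  2 15 1 (.ct 1 6 1 1 1 (.dc 0 3 0 (.lf 3 8 160)) (.dc 0 3 1 (.lf 3 6 160))))))))) (.dc 0 3 1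
  (.dc 0 5 1 (.ct 0 4 1 1 1 (.dc 0 1 0 (.dc 0 9 0 (.ct 2 5 1 1 1 (.dc 2 7 0 (.ct 3 5 1 1 1 (.ct 5
  6 1 1 1 (.dc 2 15 1 (.lf 3 8 176)) (.dc 2 15 0 (.lf 3 7 176))) (.dc 2 15 1 (.lf 3 5 160))))
  (.dc 2 7 1 (.dc 2 15 1 (.lf 3 5 160)))))) (.ct 0 2 1 1 1 (.dc 0 1 0 (.dc 0 9 0 (.ct 0 5 1 1 1
  (.ct 2 5 1 1 1 (.dc 2 7 0 (.ct 3 5 1 1 1 (.ct 5 6 1 1 1 (.dc 2 15 1 (.lf 3 10 176)) (.dc 2 15 0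
  (.lf 3 8 176))) (.dc 2 15 1 (.lf 3 9 160)))) (.dc 2 7 1 (.dc 2 15 1 (.lf 3 9 160)))) (.dc 2 7 1
  (.dc 2 15 1 (.lf 3 10 160)))))) (.dc 0 9 1 (.ct 2 5 1 1 1 (.dc 2 7 0 (.ct 0 3 1 1 1 (.dc 0 1 0
  (.ct 0 5 1 1 1 (.ct 3 5 1 1 1 (.ct 5 6 1 1 1 (.dc 2 15 1 (.lf 3 9 176)) (.dc 2 15 0 (.lf 3 7
  176))) (.dc 2 15 1 (.lf 3 9 160))) (.dc 2 15 1 (.lf 3 8 160)))) (.ct 3 5 1 1 1 (.ct 0 6 1 1 1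
  (.dc 0 1 0 (.ct 0 5 1 1 1 (.ct 5 6 1 1 1 (.dc 2 15 1 (.lf 3 8 192)) (.dc 2 15 0 (.lf 3 6 192)))
  (.dc 2 15 1 (.lf 3 7 192)))) (.dc 0 1 1 (.ct 5 6 1 1 1 (.dc 2 15 1 (.lf 3 12 192)) (.dc 2 15 0
  (.lf 3 11 160))))) (.dc 2 15 1 (.ct 0 6 1 1 1 (.dc 0 1 0 (.lf 3 8 176)) (.dc 0 1 1 (.lf 3 12
  176))))))) (.dc 2 7 1 (.dc 2 15 1 (.ct 0 3 1 1 1 (.dc 0 1 0 (.lf 3 8 160)) (.ct 0 6 1 1 1 (.dc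
  0 1 0 (.lf 3 7 176)) (.dc 0 1 1 (.lf 3 12 176)))))))))))))))

theorem dt9 : le (run cls4 4 tr9 [[1, 0, 0, 0, 1, 0, 0], [1, 1, 0, 0, 2, 1, 1], [1, 1, 1, 0, 1,
  1, 1], [1, 1, 1, 1, 2, 1, 1], [1, 1, 1, 0, 3, 2, 2], [0, 0, 0, 0, 1, 1, 0], [1, 1, 1, 1, 2, 2,
  2]] 140185576668629 [21, 21, 21, 21, 9, 63, 63]) 1101430602521 = true := by decide +kernel

/-- data -/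
noncomputable def tr10 : Ct := (.dc 0 1 0 (.dc 0 5 0 (.dc 0 9 0 (.ct 2 5 1 1 1 (.dc 2 7 0 (.ct
  1 6 1 1 1 (.dc 1 3 0 (.ct 0 5 1 1 1 (.ct 1 5 1 1 1 (.ct 3 5 1 1 1 (.ct 4 6 1 1 1 (.dc 0 3 0
  (.ct 4 5 1 1 1 (.ct 5 6 1 1 1 (.dc 2 15 1 (.lf 3 9 208)) (.dc 2 15 0 (.lf 3 7 208))) (.dc 2 15
  1 (.lf 3 9 208)))) (.dc 0 3 1 (.ct 5 6 1 1 1 (.dc 2 15 1 (.lf 3 10 208)) (.dc 2 15 0 (.lf 3 8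
  208))))) (.dc 2 15 1 (.ct 4 6 1 1 1 (.dc 0 3 0 (.lf 3 9 176)) (.dc 0 3 1 (.lf 3 8 192))))) (.dc
  2 15 1 (.ct 4 6 1 1 1 (.dc 0 3 0 (.lf 3 9 176)) (.dc 0 3 1 (.lf 3 8 176))))) (.dc 2 15 1 (.ct 4
  6 1 1 1 (.dc 0 3 0 (.lf 3 9 192)) (.dc 0 3 1 (.lf 3 8 176)))))) (.dc 0 3 1 (.ct 5 6 1 1 1 (.dc
  2 15 1 (.ct 0 1 1 1 1 (.ct 1 3 1 1 1 (.dc 1 3 0 (.lf 3 9 160)) (.dc 1 3 1 (.lf 3 12 176))) (.dc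
  1 3 0 (.lf 3 8 160)))) (.ct 0 1 1 1 1 (.ct 0 5 1 1 1 (.ct 1 3 1 1 1 (.dc 1 3 0 (.ct 1 5 1 1 1
  (.ct 3 5 1 1 1 (.dc 2 15 0 (.lf 3 6 208)) (.dc 2 15 1 (.lf 3 8 208))) (.dc 2 15 1 (.lf 3 8
  176)))) (.dc 1 3 1 (.ct 3 5 1 1 1 (.dc 2 15 0 (.lf 3 10 176)) (.dc 2 15 1 (.lf 3 11 176)))))
  (.dc 2 15 1 (.ct 1 3 1 1 1 (.dc 1 3 0 (.lf 3 8 160)) (.dc 1 3 1 (.lf 3 11 160))))) (.dc 1 3 0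
  (.ct 0 5 1 1 1 (.ct 1 5 1 1 1 (.ct 3 5 1 1 1 (.dc 2 15 0 (.lf 3 6 208)) (.dc 2 15 1 (.lf 3 7
  208))) (.dc 2 15 1 (.lf 3 6 176))) (.dc 2 15 1 (.lf 3 8 176))))))))) (.dc 2 7 1 (.dc 2 15 1
  (.ct 1 6 1 1 1 (.dc 1 3 0 (.ct 4 6 1 1 1 (.dc 0 3 0 (.lf 3 8 192)) (.dc 0 3 1 (.lf 3 7 176))))
  (.dc 0 3 1 (.ct 0 1 1 1 1 (.ct 1 3 1 1 1 (.dc 1 3 0 (.lf 3 8 176)) (.dc 1 3 1 (.lf 3 11 176)))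
  (.dc 1 3 0 (.lf 3 6 176)))))))))))

theorem dt10 : le (run cls4 4 tr10 [[2, 1, 1, 1, 3, 2, 2], [1, 1, 0, 0, 1, 1, 0], [1, 1, 1, 0,
  1, 1, 1], [1, 1, 1, 1, 2, 1, 1], [1, 1, 0, 0, 2, 1, 1], [0, 0, 0, 0, 1, 1, 0], [1, 1, 1, 1, 2,
  2, 2]] 140187732016597 [26, 26, 38, 38, 44, 68, 98]) 2696637088519 = true := by decide +kernel

end Pool.Agent.Work.MP_122e00_nt.Sharp.Cx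

end

section

set_option autoImplicit false

set_option maxRecDepth 100000

/-!
# The certificate: data
-/

namespace Pool.Agent.Work.MP_122e00_nt.Sharp.Cx

/-- data -/
noncomputable def tr11 : Ct := (.dc 0 3 1 (.dc 0 5 1 (.ct 0 2 1 1 1 (.dc 0 1 0 (.dc 0 9 0 (.ct
  0 5 1 1 1 (.ct 2 5 1 1 1 (.dc 2 7 0 (.ct 1 3 1 1 1 (.dc 1 3 0 (.ct 1 5 1 1 1 (.ct 3 5 1 1 1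
  (.ct 5 6 1 1 1 (.dc 2 15 1 (.lf 3 10 176)) (.dc 2 15 0 (.lf 3 7 176))) (.dc 2 15 1 (.lf 3 9
  176))) (.dc 2 15 1 (.lf 3 7 176)))) (.ct 3 5 1 1 1 (.ct 1 6 1 1 1 (.dc 1 3 0 (.ct 1 5 1 1 1
  (.ct 5 6 1 1 1 (.dc 2 15 1 (.lf 3 9 192)) (.dc 2 15 0 (.lf 3 7 192))) (.dc 2 15 1 (.lf 3 9
  208)))) (.dc 1 3 1 (.ct 5 6 1 1 1 (.dc 2 15 1 (.lf 3 11 208)) (.dc 2 15 0 (.lf 3 9 192)))))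
  (.dc 2 15 1 (.ct 1 6 1 1 1 (.dc 1 3 0 (.lf 3 7 192)) (.dc 1 3 1 (.lf 3 10 192))))))) (.dc 2 7 1
  (.dc 2 15 1 (.ct 1 3 1 1 1 (.dc 1 3 0 (.lf 3 8 160)) (.ct 1 6 1 1 1 (.dc 1 3 0 (.lf 3 8 160))
  (.dc 1 3 1 (.lf 3 10 160))))))) (.dc 2 7 1 (.dc 2 15 1 (.ct 1 3 1 1 1 (.dc 1 3 0 (.lf 3 9 160))
  (.ct 1 6 1 1 1 (.dc 1 3 0 (.lf 3 9 160)) (.dc 1 3 1 (.lf 3 11 160))))))))) (.dc 0 9 1 (.ct 2 5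
  1 1 1 (.dc 2 7 0 (.ct 0 3 1 1 1 (.dc 0 1 0 (.ct 0 1 1 1 1 (.ct 0 5 1 1 1 (.ct 1 3 1 1 1 (.dc 1
  3 0 (.ct 1 5 1 1 1 (.ct 3 5 1 1 1 (.ct 5 6 1 1 1 (.dc 2 15 1 (.lf 3 9 192)) (.dc 2 15 0 (.lf 3
  7 192))) (.dc 2 15 1 (.lf 3 9 192))) (.dc 2 15 1 (.lf 3 8 192)))) (.ct 3 5 1 1 1 (.ct 1 6 1 1 1
  (.dc 1 3 0 (.ct 1 5 1 1 1 (.ct 5 6 1 1 1 (.dc 2 15 1 (.lf 3 9 208)) (.dc 2 15 0 (.lf 3 7 208)))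
  (.dc 2 15 1 (.lf 3 9 208)))) (.dc 1 3 1 (.ct 5 6 1 1 1 (.dc 2 15 1 (.lf 3 11 208)) (.dc 2 15 0
  (.lf 3 8 208))))) (.dc 2 15 1 (.ct 1 6 1 1 1 (.dc 1 3 0 (.lf 3 8 192)) (.dc 1 3 1 (.lf 3 11
  192)))))) (.dc 2 15 1 (.ct 1 3 1 1 1 (.dc 1 3 0 (.lf 3 8 192)) (.ct 1 6 1 1 1 (.dc 1 3 0 (.lf 3
  8 192)) (.dc 1 3 1 (.lf 3 10 192)))))) (.dc 1 3 0 (.ct 0 5 1 1 1 (.ct 1 5 1 1 1 (.ct 3 5 1 1 1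
  (.ct 5 6 1 1 1 (.dc 2 15 1 (.lf 3 9 192)) (.dc 2 15 0 (.lf 3 7 192))) (.dc 2 15 1 (.lf 3 9
  160))) (.dc 2 15 1 (.lf 3 8 192))) (.dc 2 15 1 (.lf 3 7 176)))))) (.ct 1 3 1 1 1 (.dc 1 3 0
  (.ct 1 5 1 1 1 (.ct 3 5 1 1 1 (.ct 0 6 1 1 1 (.dc 0 1 0 (.ct 0 5 1 1 1 (.ct 5 6 1 1 1 (.dc 2 15
  1 (.lf 3 8 192)) (.dc 2 15 0 (.lf 3 6 192))) (.dc 2 15 1 (.lf 3 7 192)))) (.dc 0 1 1 (.ct 5 6 1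
  1 1 (.dc 2 15 1 (.lf 3 13 192)) (.dc 2 15 0 (.lf 3 11 160))))) (.dc 2 15 1 (.ct 0 6 1 1 1 (.dc
  0 1 0 (.lf 3 7 192)) (.dc 0 1 1 (.lf 3 12 192))))) (.dc 2 15 1 (.ct 0 6 1 1 1 (.dc 0 1 0 (.lf 3
  6 192)) (.dc 0 1 1 (.lf 3 12 192)))))) (.ct 3 5 1 1 1 (.ct 0 6 1 1 1 (.dc 0 1 0 (.ct 0 1 1 1 1
  (.ct 0 5 1 1 1 (.ct 1 6 1 1 1 (.dc 1 3 0 (.ct 1 5 1 1 1 (.ct 5 6 1 1 1 (.dc 2 15 1 (.lf 3 9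
  208)) (.dc 2 15 0 (.lf 3 7 208))) (.dc 2 15 1 (.lf 3 9 176)))) (.dc 1 3 1 (.ct 5 6 1 1 1 (.dc 2
  15 1 (.lf 3 11 176)) (.dc 2 15 0 (.lf 3 8 176))))) (.dc 2 15 1 (.ct 1 6 1 1 1 (.dc 1 3 0 (.lf 3
  7 176)) (.dc 1 3 1 (.lf 3 11 176))))) (.dc 1 3 0 (.ct 0 5 1 1 1 (.ct 1 5 1 1 1 (.ct 5 6 1 1 1
  (.dc 2 15 1 (.lf 3 8 192)) (.dc 2 15 0 (.lf 3 6 192))) (.dc 2 15 1 (.lf 3 7 176))) (.dc 2 15 1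
  (.lf 3 7 208)))))) (.dc 0 1 1 (.ct 1 6 1 1 1 (.dc 1 3 0 (.ct 1 5 1 1 1 (.ct 5 6 1 1 1 (.dc 2 15
  1 (.lf 3 12 192)) (.dc 2 15 0 (.lf 3 11 160))) (.dc 2 15 1 (.lf 3 12 208)))) (.dc 1 3 1 (.ct 5
  6 1 1 1 (.dc 2 15 1 (.lf 3 12 176)) (.dc 2 15 0 (.lf 3 11 160))))))) (.dc 2 15 1 (.ct 0 6 1 1 1
  (.dc 0 1 0 (.ct 0 1 1 1 1 (.ct 1 6 1 1 1 (.dc 1 3 0 (.lf 3 8 208)) (.dc 1 3 1 (.lf 3 10 208)))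
  (.dc 1 3 0 (.lf 3 7 208)))) (.dc 0 1 1 (.ct 1 6 1 1 1 (.dc 1 3 0 (.lf 3 12 208)) (.dc 1 3 1
  (.lf 3 12 208)))))))))) (.dc 2 7 1 (.dc 2 15 1 (.ct 0 3 1 1 1 (.dc 0 1 0 (.ct 0 1 1 1 1 (.ct 1
  3 1 1 1 (.dc 1 3 0 (.lf 3 8 176)) (.ct 1 6 1 1 1 (.dc 1 3 0 (.lf 3 8 192)) (.dc 1 3 1 (.lf 3 10
  192)))) (.dc 1 3 0 (.lf 3 7 176)))) (.ct 1 3 1 1 1 (.dc 1 3 0 (.ct 0 6 1 1 1 (.dc 0 1 0 (.lf 3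
  6 176)) (.dc 0 1 1 (.lf 3 12 176)))) (.ct 0 6 1 1 1 (.dc 0 1 0 (.ct 0 1 1 1 1 (.ct 1 6 1 1 1
  (.dc 1 3 0 (.lf 3 8 208)) (.dc 1 3 1 (.lf 3 10 208))) (.dc 1 3 0 (.lf 3 7 192)))) (.dc 0 1 1
  (.ct 1 6 1 1 1 (.dc 1 3 0 (.lf 3 12 192)) (.dc 1 3 1 (.lf 3 12 192))))))))))))))

theorem dt11 : le (run cls4 4 tr11 [[1, 0, 0, 0, 1, 0, 0], [1, 1, 0, 0, 1, 1, 0], [1, 1, 1, 0,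
  1, 1, 1], [1, 1, 1, 1, 2, 1, 1], [1, 1, 0, 0, 2, 1, 1], [0, 0, 0, 0, 1, 1, 0], [2, 1, 1, 1, 3,
  2, 2]] 140187732016597 [26, 26, 38, 38, 44, 68, 98]) 494263776335 = true := by decide +kernel

/-- data -/
noncomputable def tr12 : Ct := (.dc 2 7 1 (.dc 2 11 1 (.dc 2 15 1 (.ct 0 6 1 1 1 (.dc 0 1 0
  (.dc 0 5 0 (.dc 0 9 0 (.ct 1 6 1 1 1 (.dc 2 3 0 (.ct 5 6 1 1 1 (.dc 1 3 0 (.ct 4 6 1 1 1 (.dc 0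
  3 0 (.lf 3 7 192)) (.dc 0 3 1 (.lf 3 6 176)))) (.dc 0 3 1 (.ct 0 5 1 1 1 (.ct 3 5 1 1 1 (.dc 1
  3 1 (.lf 3 11 176)) (.dc 1 3 0 (.lf 3 8 176))) (.dc 1 3 0 (.lf 3 5 176)))))) (.dc 0 3 1 (.ct 0
  1 1 1 1 (.ct 1 3 1 1 1 (.dc 2 3 0 (.ct 3 5 1 1 1 (.dc 1 3 1 (.lf 3 11 176)) (.dc 1 3 0 (.lf 3
  11 176)))) (.dc 1 3 1 (.dc 2 3 1 (.lf 3 11 176)))) (.dc 2 3 0 (.ct 0 5 1 1 1 (.ct 3 5 1 1 1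
  (.dc 1 3 1 (.lf 3 12 176)) (.dc 1 3 0 (.lf 3 11 176))) (.dc 1 3 0 (.lf 3 8 176)))))))))) (.dc 0
  3 1 (.dc 0 5 1 (.ct 0 2 1 1 1 (.dc 0 1 0 (.dc 0 9 0 (.ct 1 3 1 1 1 (.dc 2 3 0 (.ct 3 5 1 1 1
  (.ct 5 6 1 1 1 (.dc 1 3 0 (.lf 3 8 160)) (.dc 1 3 1 (.lf 3 10 160))) (.dc 1 3 0 (.lf 3 8
  160)))) (.ct 1 6 1 1 1 (.dc 2 3 0 (.ct 5 6 1 1 1 (.dc 1 3 0 (.lf 3 8 192)) (.dc 1 3 1 (.lf 3 10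
  192)))) (.dc 1 3 1 (.dc 2 3 1 (.lf 3 11 176))))))) (.dc 0 9 1 (.ct 1 3 1 1 1 (.dc 2 3 0 (.ct 0
  1 1 1 1 (.dc 0 1 0 (.ct 3 5 1 1 1 (.ct 5 6 1 1 1 (.dc 1 3 0 (.lf 3 8 160)) (.dc 1 3 1 (.lf 3 8
  160))) (.dc 1 3 0 (.lf 3 9 160)))) (.ct 0 3 1 1 1 (.dc 0 1 0 (.ct 0 5 1 1 1 (.ct 3 5 1 1 1 (.ct
  5 6 1 1 1 (.dc 1 3 0 (.lf 3 8 176)) (.dc 1 3 1 (.lf 3 8 176))) (.dc 1 3 0 (.lf 3 9 160))) (.dc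
  1 3 0 (.lf 3 8 176)))) (.ct 3 5 1 1 1 (.ct 0 6 1 1 1 (.dc 0 1 0 (.ct 0 5 1 1 1 (.ct 5 6 1 1 1
  (.dc 1 3 0 (.lf 3 8 192)) (.dc 1 3 1 (.lf 3 8 192))) (.dc 1 3 0 (.lf 3 8 176)))) (.dc 0 1 1
  (.ct 5 6 1 1 1 (.dc 1 3 0 (.lf 3 12 176)) (.dc 1 3 1 (.lf 3 12 176))))) (.dc 1 3 0 (.ct 0 6 1 1
  1 (.dc 0 1 0 (.lf 3 7 176)) (.dc 0 1 1 (.lf 3 12 176)))))))) (.ct 1 6 1 1 1 (.dc 2 3 0 (.ct 0 1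
  1 1 1 (.dc 0 1 0 (.ct 5 6 1 1 1 (.dc 1 3 0 (.lf 3 7 192)) (.dc 1 3 1 (.lf 3 10 192)))) (.ct 0 3
  1 1 1 (.dc 0 1 0 (.ct 5 6 1 1 1 (.dc 1 3 0 (.lf 3 8 160)) (.dc 1 3 1 (.lf 3 8 160)))) (.ct 0 6
  1 1 1 (.dc 0 1 0 (.ct 0 5 1 1 1 (.ct 5 6 1 1 1 (.dc 1 3 0 (.lf 3 8 160)) (.dc 1 3 1 (.lf 3 8
  160))) (.dc 1 3 0 (.lf 3 8 192)))) (.dc 0 1 1 (.ct 5 6 1 1 1 (.dc 1 3 0 (.lf 3 12 192)) (.dc 1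
  3 1 (.lf 3 12 160)))))))) (.dc 1 3 1 (.dc 2 3 1 (.ct 0 3 1 1 1 (.dc 0 1 0 (.lf 3 11 176)) (.ct
  0 6 1 1 1 (.dc 0 1 0 (.lf 3 11 176)) (.dc 0 1 1 (.lf 3 9 144))))))))))))))))

theorem dt12 : le (run cls4 4 tr12 [[1, 0, 0, 0, 1, 0, 0], [1, 1, 0, 0, 0, 0, 0], [1, 1, 1, 0,
  1, 1, 1], [1, 1, 1, 1, 2, 1, 1], [1, 1, 0, 0, 2, 1, 1], [1, 1, 0, 0, 1, 1, 0], [1, 1, 1, 1, 2,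
  2, 2]] 131357279256021 [26, 26, 38, 38, 44, 68, 98]) 1098737067294 = true := by decide +kernel

end Pool.Agent.Work.MP_122e00_nt.Sharp.Cx

end
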