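import Mathlib
import Pool.Agent.Work.MP_122e00_nt.Two.Stmts
import Pool.Agent.Work.MP_122e00_nt.Bd.B37
import Pool.Agent.Work.MP_122e00_nt.Key1
import Pool.Agent.Work.MP_122e00_nt.Bdx.B07

/-! Bundle of small proof modules (one section per former module). -/

section

set_option autoImplicit false

/-!
# Shifted divisor sums with marks: item A2 (assembly of the asymptotic evaluation)
-/

namespace Pool.Agent.Work.MP_122e00_nt.Two

open Finset Filter Topology MeasureTheory

open scoped ArithmeticFunction.vonMangoldt ArithmeticFunction.zeta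

namespace IA2

/-- structure form of a function of the position and the last coordinate -/
noncomputable def str {k s : ℕ} (G : (Fin k ⊕ Fin s → ℝ) × ℝ → ℝ) (x : Fin k → ℝ)
    (v : Fin (s + 1) → ℝ) : ℝ :=
  G (Sum.elim x (fun i => v (Fin.castSucc i)), v (Fin.last s))

theorem str_ext {k s : ℕ} (F : (Fin k → ℝ) → (Fin (s + 1) → ℝ) → ℝ) : str (ext F) = F := by
  funext x v
  unfold str ext
  simp only [Sum.elim_inl, Sum.elim_inr]
  congr 1
  exact Fin.snoc_init_self v

theorem Apsi_nonneg {s : ℕ} {ψ : (Fin s → ℝ) → ℝ} (hψ : ∀ y, 0 ≤ ψ y) (X : ℝ) (z : ℤ) (n : ℕ) :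
    0 ≤ Apsi ψ X z n := by
  unfold Apsi
  refine Finset.sum_nonneg fun b _ => ?_
  split_ifs
  · exact hψ _
  · exact le_rfl

theorem isOpen_Sim (k s : ℕ) : IsOpen (Sim k s) := by
  have h1 : IsOpen {y : Fin k ⊕ Fin s → ℝ | ∀ i, 0 < y i} := by
    simp only [Set.ofPred_forall]
    exact isOpen_iInter_of_finite fun i => isOpen_lt continuous_const (continuous_apply i)
  have h2 : IsOpen {y : Fin k ⊕ Fin s → ℝ | ∑ i, y i < 1} :=
    isOpen_lt (by fun_prop) continuous_const
  exact h1.inter h2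

theorem part_lt {k s : ℕ} {y : Fin k ⊕ Fin s → ℝ} (hy : y ∈ Sim k s) (j : Fin k) :
    0 < 1 - ∑ i ∈ Finset.univ.filter (fun i : Fin k => i < j), y (Sum.inl i) := by
  have h1 : ∑ i ∈ Finset.univ.filter (fun i : Fin k => i < j), y (Sum.inl i) ≤
      ∑ i : Fin k, y (Sum.inl i) :=
    Finset.sum_le_sum_of_subset_of_nonneg (Finset.filter_subset _ _)
      (fun i _ _ => (hy.1 _).le)
  have h2 : ∑ i, y i = ∑ i : Fin k, y (Sum.inl i) + ∑ i : Fin s, y (Sum.inr i) :=
    Fintype.sum_sum_type _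
  have h3 : 0 ≤ ∑ i : Fin s, y (Sum.inr i) := Finset.sum_nonneg fun i _ => (hy.1 _).le
  have h4 := hy.2
  linarith

theorem den_pos {k s : ℕ} {y : Fin k ⊕ Fin s → ℝ} (hy : y ∈ Sim k s) : 0 < den y := by
  unfold den
  exact Finset.prod_pos fun j _ => inv_pos.2 (part_lt hy j)

theorem den_cont (k s : ℕ) : ContinuousOn (den (k := k) (s := s)) (Sim k s) := by
  unfold den
  refine continuousOn_finsetProd _ fun j _ => ?_
  refine ContinuousOn.inv₀ ?_ ?_
  · exact Continuous.continuousOn (by fun_prop)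
  · intro y hy
    exact (part_lt hy j).ne'

theorem TS_abs_le {s k : ℕ} (hT1 : claimT1) (hT2 : claimT2) {L : ℝ} (hL : 0 < L) {n : ℕ}
    (hn : n ≠ 0) {F : (Fin k → ℝ) → (Fin (s + 1) → ℝ) → ℝ} {B : ℝ} (hF : ∀ x v, |F x v| ≤ B) :
    |TS L s k n F| ≤ B * TS L s k n (fun _ _ => 1) := by
  have e1 : TS L s k n (fun x v => B * 1 + (-1) * F x v) =
      B * TS L s k n (fun _ _ => 1) + (-1) * TS L s k n F := by
    rw [(hT1 L s k n (fun _ _ => B * 1) (fun x v => (-1) * F x v) 0).1,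
      (hT1 L s k n (fun _ _ => 1) (fun _ _ => 0) B).2, (hT1 L s k n F (fun _ _ => 0) (-1)).2]
  have e2 : TS L s k n (fun x v => B * 1 + F x v) =
      B * TS L s k n (fun _ _ => 1) + TS L s k n F := by
    rw [(hT1 L s k n (fun _ _ => B * 1) F 0).1,
      (hT1 L s k n (fun _ _ => 1) (fun _ _ => 0) B).2]
  have h1 : 0 ≤ TS L s k n (fun x v => B * 1 + (-1) * F x v) := by
    refine hT2 L s k n hL hn _ fun x v _ _ _ => ?_
    have := (abs_le.1 (hF x v)).2
    linarith
  have h2 : 0 ≤ TS L s k n (fun x v => B * 1 + F x v) := by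
    refine hT2 L s k n hL hn _ fun x v _ _ _ => ?_
    have := (abs_le.1 (hF x v)).1
    linarith
  rw [abs_le]
  constructor <;> linarith

/-- the remainder -/
theorem small_range (hTM : claimTM) {s h : ℕ} (hs : 1 ≤ s) (hh : h ≠ 0) {θ : ℝ} (hθ : 0 < θ)
    (hθ2 : θ < 1 / 2) {ψ : (Fin s → ℝ) → ℝ} (hψ : Wt s θ ψ) {z : ℤ} (hz : z.natAbs = h)
    {e : ℝ} (he : 0 < e) :
    ∀ᶠ X : ℝ in atTop, ∑ n ∈ Finset.Icc 1 ⌊X / Real.log X⌋₊,
      Apsi ψ X z n * (((ζ : ArithmeticFunction ℕ) ^ (s + 1)) n : ℝ) ≤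
      e * (X * (Real.log X) ^ (2 * s)) := by
  set K : ℝ := Csing s h * (((s + 1) * volume.real (Rs s ∩ O1 s)) * ∫ y in O1 s, ψ y) with hK
  have hK0 : 0 ≤ K := by
    have h1 := Csing_nonneg (s := s) h hh
    have h2 : 0 ≤ ∫ y in O1 s, ψ y := integral_nonneg fun y => hψ.nonneg y
    have h3 : 0 ≤ volume.real (Rs s ∩ O1 s) := measureReal_nonneg
    positivity
  set η : ℝ := min 1 (e / (K + 1)) with hη
  have hη0 : 0 < η := lt_min one_pos (by positivity)
  have hη1 : η ≤ 1 := min_le_left _ _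
  have hηK : η * K < e := by
    have h1 : η ≤ e / (K + 1) := min_le_right _ _
    calc η * K ≤ e / (K + 1) * K := by gcongr
      _ < e := by
        rw [div_mul_eq_mul_div, div_lt_iff₀ (by positivity)]
        nlinarith
  have h1 := hTM s h hs hh θ hθ hθ2 ψ hψ z hz η hη0 hη1 e hηK
  have h2 : ∀ᶠ X : ℝ in atTop, 1 / η ≤ Real.log X :=
    Real.tendsto_log_atTop.eventually_ge_atTop _
  filter_upwards [h1, h2, eventually_ge_atTop 1] with X hX1 hX2 hX3
  refine le_trans ?_ hX1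
  refine Finset.sum_le_sum_of_subset_of_nonneg ?_ ?_
  · intro n hn
    rw [Finset.mem_Icc] at hn ⊢
    refine ⟨hn.1, hn.2.trans (Nat.floor_mono ?_)⟩
    have hlog : 0 < Real.log X := lt_of_lt_of_le (by positivity) hX2
    rw [div_le_iff₀ hlog]
    have h3 : 1 ≤ η * Real.log X := by
      rw [div_le_iff₀ hη0] at hX2
      linarith
    calc X = X * 1 := by ring
      _ ≤ X * (η * Real.log X) := by gcongr
      _ = η * X * Real.log X := by ring
  · intro n _ _
    exact mul_nonneg (Apsi_nonneg hψ.nonneg _ _ _) (Nat.cast_nonneg _)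

end IA2

open IA2 in
theorem prfA2 : claimA2 := by
  intro hL1 hT1 hT2 hT3 hTM hT7 hT8 hA1 s k h hs hh θ hθ hθ2 ψ hψ z hz F B hF hc
  set D : ℝ := Csing s h * ∫ y in O1 s, ψ y with hD
  have hD0 : 0 ≤ D := by
    have h1 := Csing_nonneg (s := s) h hh
    have h2 : 0 ≤ ∫ y in O1 s, ψ y := integral_nonneg fun y => hψ.nonneg y
    positivity
  have hlogT := Real.tendsto_log_atTop
  set P : ℝ → ((Fin k ⊕ Fin s → ℝ) × ℝ → ℝ) → ℝ := fun X G =>
    (∑ n ∈ Finset.Ioc ⌊X / Real.log X⌋₊ ⌊X⌋₊, Apsi ψ X z n * TS (Real.log X) s k n (str G)) /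
      (X * (Real.log X) ^ (2 * s)) with hP
  set ε : ℝ → ℝ := fun X => Real.log (Real.log X) / Real.log X with hε
  -- total mass
  have hmass : ∀ c, Csing s h * (((s + 1) * volume.real (Rs s ∩ O1 s)) * ∫ y in O1 s, ψ y) < c →
      ∀ᶠ X : ℝ in atTop, ∑ n ∈ Finset.Icc 1 ⌊X⌋₊,
        Apsi ψ X z n * (((ζ : ArithmeticFunction ℕ) ^ (s + 1)) n : ℝ) ≤
        c * (X * (Real.log X) ^ (2 * s)) := by
    intro c hc'
    have h1 := hTM s h hs hh θ hθ hθ2 ψ hψ z hz 1 one_pos le_rfl c (by rw [one_mul]; exact hc')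
    simpa only [one_mul] using h1
  have hmain : Tendsto (fun X => P X (ext F)) atTop
      (𝓝 (∫ y in Sim k s, ext F (y, 1 - ∑ i, y i) * (D * den y))) := by
    refine hL1 (Fin k ⊕ Fin s) (Sim k s) (fun y => D * den y) (fun y => 1 - ∑ i, y i) P ε
      (isOpen_Sim k s) ?_ ((den_cont k s).const_mul D |>.congr fun _ _ => rfl) ?_ ?_ (by fun_prop)
      ?_ ?_ ?_ ?_ ?_ ?_ (ext F) B (fun p => hF _ _) hc
    · intro y hy i
      refine ⟨hy.1 i, ?_⟩
      have h1 : y i ≤ ∑ i, y i :=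
        Finset.single_le_sum (f := y) (fun j _ => (hy.1 j).le) (Finset.mem_univ i)
      exact lt_of_le_of_lt h1 hy.2
    · intro y hy
      exact mul_nonneg hD0 (den_pos hy).le
    · exact (hT8 k s).1.const_mul D
    · -- ε tends to zero
      have h1 : Tendsto (fun x : ℝ => Real.log x / x) atTop (𝓝 0) :=
        Real.isLittleO_log_id_atTop.tendsto_div_nhds_zero
      exact h1.comp hlogT
    · intro X G1 G2
      simp only [hP]
      rw [← add_div, ← Finset.sum_add_distrib]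
      congr 1
      refine Finset.sum_congr rfl fun n _ => ?_
      rw [← mul_add, ← (hT1 (Real.log X) s k n (str G1) (str G2) 0).1]
      rfl
    · intro X c G
      simp only [hP]
      rw [← mul_div_assoc, Finset.mul_sum]
      congr 1
      refine Finset.sum_congr rfl fun n _ => ?_
      have h1 := (hT1 (Real.log X) s k n (str G) (fun _ _ => 0) c).2
      calc Apsi ψ X z n * TS (Real.log X) s k n (str fun p => c * G p)
          = Apsi ψ X z n * TS (Real.log X) s k n (fun x v => c * str G x v) := rfl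
        _ = _ := by rw [h1]; ring
    · -- positivity
      filter_upwards [hlogT.eventually_ge_atTop 1, eventually_ge_atTop 1] with X hX1 hX2 G hG
      have hLpos : 0 < Real.log X := by linarith
      have hXpos : 0 < X := by linarith
      simp only [hP]
      refine div_nonneg (Finset.sum_nonneg fun n hn => ?_) (by positivity)
      refine mul_nonneg (Apsi_nonneg hψ.nonneg _ _ _) ?_
      rw [Finset.mem_Ioc] at hn
      have hn1 : X / Real.log X < n := Nat.lt_of_floor_lt hn.1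
      have hn2 : (n : ℝ) ≤ X := by
        have := (Nat.le_floor_iff hXpos.le).1 hn.2
        exact this
      have hn0 : n ≠ 0 := by
        rintro rfl
        have : 0 < X / Real.log X := by positivity
        simp only [Nat.cast_zero] at hn1
        linarith
      have hnpos : (0 : ℝ) < n := by exact_mod_cast Nat.pos_of_ne_zero hn0
      refine hT2 (Real.log X) s k n hLpos hn0 _ fun x v _ _ hsum => ?_
      unfold str
      apply hG
      have e1 : ∑ i, (Sum.elim x (fun i => v (Fin.castSucc i)) : Fin k ⊕ Fin s → ℝ) i =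
          ∑ j, x j + ∑ i : Fin s, v (Fin.castSucc i) := by
        rw [Fintype.sum_sum_type]
        simp
      have e2 : ∑ i, v i = ∑ i : Fin s, v (Fin.castSucc i) + v (Fin.last s) :=
        Fin.sum_univ_castSucc _
      have e3 : v (Fin.last s) - (1 - ∑ i, (Sum.elim x (fun i => v (Fin.castSucc i)) :
          Fin k ⊕ Fin s → ℝ) i) = Real.log n / Real.log X - 1 := by
        rw [e1, ← hsum, e2]
        ring
      rw [e3, abs_le]
      have e4 : Real.log n ≤ Real.log X := Real.log_le_log hnpos hn2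
      have e5 : Real.log X - Real.log (Real.log X) ≤ Real.log n := by
        rw [← Real.log_div hXpos.ne' hLpos.ne']
        exact Real.log_le_log (by positivity) hn1.le
      have e6 : 0 ≤ Real.log (Real.log X) := Real.log_nonneg hX1
      constructor
      · show -(Real.log (Real.log X) / Real.log X) ≤ _
        rw [← neg_div, ← sub_nonneg]
        have : Real.log n / Real.log X - 1 - -Real.log (Real.log X) / Real.log X =
            (Real.log n - (Real.log X - Real.log (Real.log X))) / Real.log X := by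
          field_simp
          ring
        rw [this]
        exact div_nonneg (by linarith) hLpos.le
      · show _ ≤ Real.log (Real.log X) / Real.log X
        have h7 : Real.log n / Real.log X ≤ 1 := by
          rw [div_le_one hLpos]
          exact e4
        have h8 : 0 ≤ Real.log (Real.log X) / Real.log X := by positivity
        linarith
    · -- total mass from above
      intro c hc'
      rw [integral_const_mul, (hT8 k s).2] at hc'
      have hpow : (0 : ℝ) < ((s : ℝ) + 1) ^ k := by positivity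
      have h1 : Csing s h * (((s + 1) * volume.real (Rs s ∩ O1 s)) * ∫ y in O1 s, ψ y) <
          c * ((s : ℝ) + 1) ^ k := by
        have h2 := hT7 s hs
        have h3 : Csing s h * (((s + 1) * volume.real (Rs s ∩ O1 s)) * ∫ y in O1 s, ψ y) =
            D * ((s + 1) * volume.real (Rs s ∩ O1 s)) := by
          rw [hD]; ring
        rw [h3]
        calc D * ((s + 1) * volume.real (Rs s ∩ O1 s)) ≤ D * (1 / (s.factorial : ℝ)) := by
              gcongr
          _ = D * (1 / ((s.factorial : ℝ) * (s + 1) ^ k)) * ((s : ℝ) + 1) ^ k := by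
              have : (s.factorial : ℝ) ≠ 0 := by positivity
              field_simp
          _ < _ := by gcongr
      filter_upwards [hmass _ h1, hlogT.eventually_ge_atTop 1, eventually_ge_atTop 1]
        with X hX1 hX2 hX3
      have hLpos : 0 < Real.log X := by linarith
      have hXpos : 0 < X := by linarith
      simp only [hP]
      rw [div_le_iff₀ (by positivity)]
      have h4 : ∑ n ∈ Finset.Ioc ⌊X / Real.log X⌋₊ ⌊X⌋₊,
          Apsi ψ X z n * TS (Real.log X) s k n (str fun _ => 1) ≤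
          ∑ n ∈ Finset.Icc 1 ⌊X⌋₊,
            Apsi ψ X z n * (((ζ : ArithmeticFunction ℕ) ^ (s + 1)) n : ℝ) / ((s : ℝ) + 1) ^ k := by
        refine (Finset.sum_le_sum (g := fun n =>
          Apsi ψ X z n * (((ζ : ArithmeticFunction ℕ) ^ (s + 1)) n : ℝ) / ((s : ℝ) + 1) ^ k)
          fun n hn => ?_).trans (Finset.sum_le_sum_of_subset_of_nonneg ?_ ?_)
        · rw [Finset.mem_Ioc] at hn
          have hn0 : n ≠ 0 := by omega
          rw [mul_div_assoc]
          refine mul_le_mul_of_nonneg_left ?_ (Apsi_nonneg hψ.nonneg _ _ _)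
          exact hT3.2 (Real.log X) s k n hn0
        · intro n hn
          rw [Finset.mem_Ioc] at hn
          rw [Finset.mem_Icc]
          exact ⟨by omega, hn.2⟩
        · intro n _ _
          have := Apsi_nonneg hψ.nonneg X z n
          positivity
      refine h4.trans ?_
      rw [← Finset.sum_div, div_le_iff₀ hpow]
      calc _ ≤ _ := hX1
        _ = _ := by ring
    · -- cubes from below
      intro N m hN hsub r hr hrr c hc'
      have hN' : (0 : ℝ) < N := by exact_mod_cast hN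
      have hle : ∀ i, ((m i : ℝ) - 1) / N ≤ (m i : ℝ) / N := by
        intro i
        gcongr
        linarith
      have hlow : (fun i => ((m i : ℝ) - 1) / N) ∈ ccube N m := fun i => ⟨le_rfl, hle i⟩
      have hhigh : (fun i => (m i : ℝ) / N) ∈ ccube N m := fun i => ⟨hle i, le_rfl⟩
      have hl := hsub hlow
      have hh' := hsub hhigh
      have hr1 := hrr _ hlow
      set αm : Fin k → ℝ := fun j => ((m (Sum.inl j) : ℝ) - 1) / N with hαm
      set βm : Fin k → ℝ := fun j => (m (Sum.inl j) : ℝ) / N with hβm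
      set αv : Fin s → ℝ := fun j => ((m (Sum.inr j) : ℝ) - 1) / N with hαv
      set βv : Fin s → ℝ := fun j => (m (Sum.inr j) : ℝ) / N with hβv
      have hdm : ∀ j, βm j - αm j = 1 / N := by
        intro j
        simp only [hαm, hβm]
        field_simp
        ring
      have hdv : ∀ j, βv j - αv j = 1 / N := by
        intro j
        simp only [hαv, hβv]
        field_simp
        ring
      have hc2 : c < (∏ j : Fin k, (1 - ∑ i ∈ Finset.univ.filter (fun i : Fin k => i < j),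
          αm i)⁻¹) * (((∏ j, (βm j - αm j)) * ∏ i, (βv i - αv i)) *
            (Csing s h * ∫ y in O1 s, ψ y)) := by
        refine lt_of_lt_of_le hc' ?_
        simp only [hdm, hdv, Finset.prod_const, Finset.card_univ, Fintype.card_fin]
        have e1 : Fintype.card (Fin k ⊕ Fin s) = k + s := by simp
        rw [e1, pow_add]
        have e2 : D * den (fun i => ((m i : ℝ) - 1) / N) = D * ∏ j : Fin k,
            (1 - ∑ i ∈ Finset.univ.filter (fun i : Fin k => i < j), αm i)⁻¹ := rfl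
        calc r * ((1 / (N : ℝ)) ^ k * (1 / (N : ℝ)) ^ s)
            ≤ (D * den (fun i => ((m i : ℝ) - 1) / N)) *
                ((1 / (N : ℝ)) ^ k * (1 / (N : ℝ)) ^ s) := by
              gcongr
          _ = _ := by rw [e2, hD]; ring
      have hsumβ : ∑ j, βm j + ∑ i, βv i < 1 := by
        have := hh'.2
        rw [Fintype.sum_sum_type] at this
        exact this
      have h1 := hA1 s k h hs hh θ hθ hθ2 ψ hψ z hz αm βm αv βv (fun j => hl.1 (Sum.inl j))
        (fun j => hle _) (fun j => hl.1 (Sum.inr j)) (fun j => hle _) hsumβ c hc2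
      filter_upwards [h1, hlogT.eventually_ge_atTop 1, eventually_ge_atTop 1] with X hX1 hX2 hX3
      have hLpos : 0 < Real.log X := by linarith
      have hXpos : 0 < X := by linarith
      simp only [hP]
      rw [le_div_iff₀ (by positivity)]
      refine hX1.trans (le_of_eq ?_)
      refine Finset.sum_congr rfl fun n _ => ?_
      congr 2
      funext x v
      unfold str
      simp only [Set.indicator, gcube, Set.mem_ofPred_eq, Sum.forall, Sum.elim_inl, Sum.elim_inr]
      rfl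
  -- the remainder
  have hrem : Tendsto (fun X : ℝ => (∑ n ∈ Finset.Icc 1 ⌊X / Real.log X⌋₊,
      Apsi ψ X z n * TS (Real.log X) s k n F) / (X * (Real.log X) ^ (2 * s))) atTop (𝓝 0) := by
    rw [Metric.tendsto_nhds]
    intro e he
    have hB0 : 0 ≤ |B| := abs_nonneg B
    have h1 := small_range hTM hs hh hθ hθ2 hψ hz (e := e / (|B| + 1) / 2) (by positivity)
    filter_upwards [h1, hlogT.eventually_ge_atTop 1, eventually_ge_atTop 1] with X hX1 hX2 hX3
    have hLpos : 0 < Real.log X := by linarith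
    have hXpos : 0 < X := by linarith
    have hden : 0 < X * (Real.log X) ^ (2 * s) := by positivity
    rw [Real.dist_eq, sub_zero, abs_div, abs_of_pos hden, div_lt_iff₀ hden]
    have hpow : (1 : ℝ) ≤ ((s : ℝ) + 1) ^ k := one_le_pow₀ (by linarith [Nat.cast_nonneg (α := ℝ) s])
    calc |∑ n ∈ Finset.Icc 1 ⌊X / Real.log X⌋₊, Apsi ψ X z n * TS (Real.log X) s k n F|
        ≤ ∑ n ∈ Finset.Icc 1 ⌊X / Real.log X⌋₊, |Apsi ψ X z n * TS (Real.log X) s k n F| :=
          Finset.abs_sum_le_sum_abs _ _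
      _ ≤ ∑ n ∈ Finset.Icc 1 ⌊X / Real.log X⌋₊,
          |B| * (Apsi ψ X z n * (((ζ : ArithmeticFunction ℕ) ^ (s + 1)) n : ℝ)) := by
          refine Finset.sum_le_sum fun n hn => ?_
          rw [Finset.mem_Icc] at hn
          have hn0 : n ≠ 0 := by omega
          have hA := Apsi_nonneg hψ.nonneg X z n
          rw [abs_mul, abs_of_nonneg hA]
          have h2 : |TS (Real.log X) s k n F| ≤ |B| * TS (Real.log X) s k n (fun _ _ => 1) :=
            TS_abs_le hT1 hT2 hLpos hn0 (fun x v => (hF x v).trans (le_abs_self B))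
          have h3 := hT3.2 (Real.log X) s k n hn0
          have h4 : (((ζ : ArithmeticFunction ℕ) ^ (s + 1)) n : ℝ) / ((s : ℝ) + 1) ^ k ≤
              (((ζ : ArithmeticFunction ℕ) ^ (s + 1)) n : ℝ) :=
            div_le_self (Nat.cast_nonneg _) hpow
          calc Apsi ψ X z n * |TS (Real.log X) s k n F|
              ≤ Apsi ψ X z n * (|B| * (((ζ : ArithmeticFunction ℕ) ^ (s + 1)) n : ℝ)) := by
                gcongr
                exact h2.trans (by gcongr; exact h3.trans h4)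
            _ = _ := by ring
      _ = |B| * ∑ n ∈ Finset.Icc 1 ⌊X / Real.log X⌋₊,
          (Apsi ψ X z n * (((ζ : ArithmeticFunction ℕ) ^ (s + 1)) n : ℝ)) := by
          rw [Finset.mul_sum]
      _ ≤ |B| * (e / (|B| + 1) / 2 * (X * (Real.log X) ^ (2 * s))) := by gcongr
      _ = (|B| / (|B| + 1)) * (e / 2) * (X * (Real.log X) ^ (2 * s)) := by
          field_simp
      _ ≤ 1 * (e / 2) * (X * (Real.log X) ^ (2 * s)) := by
          gcongr
          rw [div_le_one (by positivity)]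
          linarith
      _ < e * (X * (Real.log X) ^ (2 * s)) := by
          have : e / 2 < e := by linarith
          gcongr
          linarith
  have hfin := hrem.add hmain
  rw [zero_add] at hfin
  have hval : ∫ y in Sim k s, ext F (y, 1 - ∑ i, y i) * (D * den y) =
      Csing s h * (∫ y in O1 s, ψ y) * ∫ y in Sim k s, ext F (y, 1 - ∑ i, y i) * den y := by
    rw [← integral_const_mul]
    congr 1
    funext y
    rw [hD]
    ring
  rw [hval] at hfin
  refine hfin.congr' ?_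
  filter_upwards [hlogT.eventually_ge_atTop 1, eventually_ge_atTop 1] with X hX2 hX3
  have hLpos : 0 < Real.log X := by linarith
  simp only [hP, str_ext]
  rw [← add_div]
  congr 1
  have hle : ⌊X / Real.log X⌋₊ ≤ ⌊X⌋₊ := Nat.floor_mono (div_le_self (by linarith) hX2)
  have e1 : Finset.Icc 1 ⌊X⌋₊ = Finset.Ioc 0 ⌊X⌋₊ := rfl
  have e2 : Finset.Icc 1 ⌊X / Real.log X⌋₊ = Finset.Ioc 0 ⌊X / Real.log X⌋₊ := rfl
  rw [e1, e2]
  exact Finset.sum_Ioc_consecutive _ (Nat.zero_le _) hle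

end Pool.Agent.Work.MP_122e00_nt.Two

end

section

set_option autoImplicit false

/-!
Item G1: counting solutions of `m n ≡ η (mod e)` on average over `e`: the upper bound.
-/

namespace Pool.Agent.Work.MP_122e00_nt.Two

open Finset

namespace IG1

theorem sol_reduce_le (A B t q E n : ℕ) (η : ℤ) (htq : t * q ≠ 0) (hc : Nat.Coprime n (q * E)) :
    sol A B (t * n) (t * q * E) (((t * q : ℕ) : ℤ) * η) ≤ sol (A / q) (B / q) n E η := by
  have hq : 0 < q := Nat.pos_of_ne_zero (fun h => htq (by rw [h, mul_zero]))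
  have ht : t ≠ 0 := fun h => htq (by rw [h, zero_mul])
  have hqn : Nat.Coprime q n := (hc.coprime_mul_right_right).symm
  have key : ∀ m : ℕ, ((m * (t * n) : ℕ) : ZMod (t * q * E)) =
      ((((t * q : ℕ) : ℤ) * η : ℤ) : ZMod (t * q * E)) → q ∣ m := by
    intro m hm
    have h1 : ((t * q * E : ℕ) : ℤ) ∣ ((t * q : ℕ) : ℤ) * η - ((m * (t * n) : ℕ) : ℤ) := by
      rw [← Int.cast_natCast (R := ZMod (t * q * E)), ZMod.intCast_eq_intCast_iff,
        Int.modEq_iff_dvd] at hm
      exact hm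
    have h2 : ((t * q : ℕ) : ℤ) ∣ ((t * q : ℕ) : ℤ) * η - ((m * (t * n) : ℕ) : ℤ) :=
      dvd_trans (by push_cast; exact dvd_mul_right _ _) h1
    have h3 : ((t * q : ℕ) : ℤ) ∣ ((m * (t * n) : ℕ) : ℤ) := by
      have h4 := dvd_sub (dvd_mul_right ((t * q : ℕ) : ℤ) η) h2
      have h5 : ((t * q : ℕ) : ℤ) * η - (((t * q : ℕ) : ℤ) * η - ((m * (t * n) : ℕ) : ℤ)) =
          ((m * (t * n) : ℕ) : ℤ) := by ring
      rw [h5] at h4
      exact h4
    have h4 : t * q ∣ t * (m * n) := by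
      have h5 : t * q ∣ m * (t * n) := by exact_mod_cast h3
      have h6 : m * (t * n) = t * (m * n) := by ring
      rw [h6] at h5
      exact h5
    have h5 : q ∣ m * n := Nat.dvd_of_mul_dvd_mul_left (Nat.pos_of_ne_zero ht) h4
    exact hqn.dvd_of_dvd_mul_right h5
  unfold sol
  apply Finset.card_le_card_of_injOn (fun m => m / q)
  · intro m hm
    rw [Finset.mem_coe, Finset.mem_filter, Finset.mem_Ioc] at hm
    obtain ⟨m', rfl⟩ := key m hm.2
    rw [Finset.mem_coe, Finset.mem_filter, Finset.mem_Ioc]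
    show (A / q < q * m' / q ∧ q * m' / q ≤ B / q) ∧
      (((q * m' / q) * n : ℕ) : ZMod E) = (η : ZMod E)
    rw [Nat.mul_div_cancel_left m' hq]
    refine ⟨⟨?_, ?_⟩, ?_⟩
    · rw [Nat.div_lt_iff_lt_mul hq, mul_comm]
      exact hm.1.1
    · rw [Nat.le_div_iff_mul_le hq, mul_comm]
      exact hm.1.2
    · exact (sol_cond_iff t q E m' n η htq).mp hm.2
  · intro a ha b hb h
    rw [Finset.mem_coe, Finset.mem_filter] at ha hb
    obtain ⟨a', rfl⟩ := key a ha.2
    obtain ⟨b', rfl⟩ := key b hb.2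
    simp only [Nat.mul_div_cancel_left _ hq] at h
    rw [h]

theorem sol_le_pairs (A B n e h : ℕ) (hh : h ≠ 0) (he : e ≠ 0) (η : ℤ) (hη : η.natAbs = h) :
    (sol A B n e η : ℝ) ≤ ∑ p ∈ h.divisors ×ˢ h.divisors,
      (if Nat.gcd e h = p.1 * p.2 ∧ Nat.gcd n e = p.1 then
        (sol (A / p.2) (B / p.2) (n / p.1) (e / (p.1 * p.2)) (η / ((p.1 * p.2 : ℕ) : ℤ)) : ℝ)
        else 0) := by
  rw [sum_pairs h n e hh he (fun t q =>
    (sol (A / q) (B / q) (n / t) (e / (t * q)) (η / ((t * q : ℕ) : ℤ)) : ℝ))]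
  split_ifs with hd
  · have h1 : Nat.gcd n e ∣ Nat.gcd e h := Nat.dvd_gcd (Nat.gcd_dvd_right _ _) hd
    have hgpos : 0 < Nat.gcd n e := Nat.gcd_pos_of_pos_right _ (Nat.pos_of_ne_zero he)
    have hg2pos : 0 < Nat.gcd e h := Nat.gcd_pos_of_pos_left _ (Nat.pos_of_ne_zero he)
    set t := Nat.gcd n e with ht
    obtain ⟨q, hq⟩ := h1
    have htq : t * q ≠ 0 := by rw [← hq]; exact hg2pos.ne'
    have hpos : 0 < t * q := Nat.pos_of_ne_zero htq
    rw [hq, Nat.mul_div_cancel_left q hgpos]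
    obtain ⟨n', hn'⟩ : t ∣ n := Nat.gcd_dvd_left _ _
    obtain ⟨E, hE⟩ : t * q ∣ e := by rw [← hq]; exact Nat.gcd_dvd_left _ _
    have h2 : ((t * q : ℕ) : ℤ) ∣ η := by
      rw [← Int.dvd_natAbs, hη, Int.natCast_dvd_natCast, ← hq]
      exact Nat.gcd_dvd_right _ _
    obtain ⟨η', hη'⟩ := h2
    have h3 : ((t * q : ℕ) : ℤ) ≠ 0 := by exact_mod_cast htq
    have e1 : n / t = n' := by
      conv_lhs => rw [hn']
      exact Nat.mul_div_cancel_left _ hgpos
    have e2 : e / (t * q) = E := by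
      conv_lhs => rw [hE]
      exact Nat.mul_div_cancel_left _ hpos
    have e3 : η / ((t * q : ℕ) : ℤ) = η' := by
      rw [hη']
      exact Int.mul_ediv_cancel_left _ h3
    have hcop : Nat.Coprime n' (q * E) := by
      have h5 : t * Nat.gcd n' (q * E) = t * 1 := by
        rw [← Nat.gcd_mul_left, ← hn', ← mul_assoc, ← hE, mul_one]
      exact Nat.eq_of_mul_eq_mul_left hgpos h5
    have h4 := sol_reduce_le A B t q E n' η' htq hcop
    rw [← hn', ← hE, ← hη'] at h4
    rw [e1, e2, e3]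
    exact_mod_cast h4
  · have h0 : sol A B n e η = 0 := by
      unfold sol
      rw [Finset.card_eq_zero, Finset.filter_eq_empty_iff]
      intro m _ hm
      apply hd
      have h1 : (e : ℤ) ∣ η - ((m * n : ℕ) : ℤ) := by
        rw [← Int.cast_natCast (R := ZMod e), ZMod.intCast_eq_intCast_iff,
          Int.modEq_iff_dvd] at hm
        exact hm
      have h2 : ((Nat.gcd n e : ℕ) : ℤ) ∣ η - ((m * n : ℕ) : ℤ) :=
        dvd_trans (by exact_mod_cast Nat.gcd_dvd_right n e) h1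
      have h3 : ((Nat.gcd n e : ℕ) : ℤ) ∣ ((m * n : ℕ) : ℤ) := by
        exact_mod_cast (Nat.gcd_dvd_left n e).trans (dvd_mul_left n m)
      have h4 : ((Nat.gcd n e : ℕ) : ℤ) ∣ η := by
        have h5 := dvd_add h2 h3
        rw [sub_add_cancel] at h5
        exact h5
      rw [← Int.dvd_natAbs, hη, Int.natCast_dvd_natCast] at h4
      exact h4
    rw [h0]
    simp

theorem count_upper (β : ℕ → ℝ) {K : ℝ} (hβ0 : ∀ n, 0 ≤ β n) (hβ : ∀ n, β n ≤ K)
    (A B N Q L : ℕ) (hAB : A ≤ B) (hL : 1 ≤ L) (w : ℕ → ℝ) (W D : ℝ)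
    (hw0 : ∀ e, 0 ≤ w e) (hw : ∀ e, w e ≤ W)
    (hD : ∀ k ∈ Finset.Icc 1 Q, (k.divisors.card : ℝ) ≤ D) (hD0 : 0 ≤ D)
    (h : ℕ) (hh : h ≠ 0) (η : ℤ) (hη : η.natAbs = h) :
    ∑ e ∈ Finset.Icc 1 Q, w e * ∑ n ∈ Finset.range N, β n * (sol A B n e η : ℝ) ≤
    ((B : ℝ) - A) * (∑ e ∈ Finset.Icc 1 Q, ∑ n ∈ Finset.range N,
        w e * β n * (Fh h (Nat.gcd n e) / e)) +
      ((h.divisors.card : ℝ) ^ 2 * Err0 W D K (B + 1) N Q L +
        h * W * (K * N) * (harmonic Q : ℝ)) := by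
  classical
  have hW0 : 0 ≤ W := (hw0 0).trans (hw 0)
  have hK : 0 ≤ K := (hβ0 0).trans (hβ 0)
  set P := h.divisors ×ˢ h.divisors with hP
  have hA' : (A : ℝ) ≤ B := by exact_mod_cast hAB
  -- abbreviations
  set S1 : ℕ × ℕ → ℕ → ℝ := fun p e => ∑ n ∈ Finset.range N, if Nat.gcd n e = p.1 then
    β n * (sol (A / p.2) (B / p.2) (n / p.1) (e / (p.1 * p.2))
      (η / ((p.1 * p.2 : ℕ) : ℤ)) : ℝ) else 0 with hS1
  set S2 : ℕ → ℕ → ℝ := fun t e => ∑ n ∈ Finset.range N, if Nat.gcd n e = t then β n else 0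
    with hS2
  have hS2nn : ∀ t e, 0 ≤ S2 t e := by
    intro t e
    rw [hS2]
    apply Finset.sum_nonneg
    intro n _
    split_ifs
    · exact hβ0 n
    · exact le_rfl
  -- step A: lower bound by the sum over pairs
  have stepA : ∑ e ∈ Finset.Icc 1 Q, w e * ∑ n ∈ Finset.range N, β n * (sol A B n e η : ℝ) ≤
      ∑ p ∈ P, ∑ e ∈ (Finset.Icc 1 Q).filter (fun e => Nat.gcd e h = p.1 * p.2),
      w e * S1 p e := by
    have e1 : ∑ p ∈ P, ∑ e ∈ (Finset.Icc 1 Q).filter (fun e => Nat.gcd e h = p.1 * p.2),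
        w e * S1 p e = ∑ e ∈ Finset.Icc 1 Q, w e * ∑ n ∈ Finset.range N, β n * ∑ p ∈ P,
          (if Nat.gcd e h = p.1 * p.2 ∧ Nat.gcd n e = p.1 then
        (sol (A / p.2) (B / p.2) (n / p.1) (e / (p.1 * p.2)) (η / ((p.1 * p.2 : ℕ) : ℤ)) : ℝ)
        else 0) := by
      simp_rw [Finset.sum_filter]
      rw [Finset.sum_comm]
      apply Finset.sum_congr rfl
      intro e _
      simp_rw [Finset.mul_sum]
      rw [Finset.sum_comm]
      apply Finset.sum_congr rfl
      intro p _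
      by_cases h1 : Nat.gcd e h = p.1 * p.2
      · rw [if_pos h1, hS1]
        simp only
        rw [Finset.mul_sum]
        apply Finset.sum_congr rfl
        intro n _
        by_cases h2 : Nat.gcd n e = p.1
        · rw [if_pos h2, if_pos ⟨h1, h2⟩]
        · rw [if_neg h2, if_neg (fun hc => h2 hc.2)]
          ring
      · rw [if_neg h1]
        symm
        apply Finset.sum_eq_zero
        intro n _
        rw [if_neg (fun hc => h1 hc.1)]
        ring
    rw [e1]
    apply Finset.sum_le_sum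
    intro e he
    have he0 : e ≠ 0 := by
      have := (Finset.mem_Icc.mp he).1
      omega
    apply mul_le_mul_of_nonneg_left _ (hw0 e)
    apply Finset.sum_le_sum
    intro n _
    apply mul_le_mul_of_nonneg_left _ (hβ0 n)
    exact sol_le_pairs A B n e h hh he0 η hη
  -- step B: each pair
  have hE0 : 0 ≤ Err0 W D K (B + 1) N Q L := Err0_nonneg hW0 hD0 hK _ _ _ _
  have stepB : ∀ p ∈ P,
      ∑ e ∈ (Finset.Icc 1 Q).filter (fun e => Nat.gcd e h = p.1 * p.2), w e * S1 p e ≤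
      (∑ e ∈ (Finset.Icc 1 Q).filter (fun e => Nat.gcd e h = p.1 * p.2),
      w e * ((((B : ℝ) - A) * p.1 + h) / e * S2 p.1 e)) + Err0 W D K (B + 1) N Q L := by
    rintro ⟨t, q⟩ hp
    simp only
    by_cases hdvd : t * q ∣ h
    · have htq0 : t * q ≠ 0 := fun h0 => hh (Nat.eq_zero_of_zero_dvd (h0 ▸ hdvd))
      have hpos : 0 < t * q := Nat.pos_of_ne_zero htq0
      have hq : 0 < q := Nat.pos_of_ne_zero (fun h0 => htq0 (by rw [h0, mul_zero]))
      have hη' : (η / ((t * q : ℕ) : ℤ)).natAbs = h / (t * q) := by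
        have h2 : ((t * q : ℕ) : ℤ) ∣ η := by
          rw [← Int.dvd_natAbs, hη, Int.natCast_dvd_natCast]
          exact hdvd
        rw [Int.natAbs_ediv_of_dvd h2, hη, Int.natAbs_natCast]
      have hpb := pair_bound β hβ0 hβ A B N Q L hAB hL w W D hw0 hw hD hD0 h t q hdvd hh
        (η / ((t * q : ℕ) : ℤ)) hη'
      have hterm : ∀ e ∈ (Finset.Icc 1 Q).filter (fun e => Nat.gcd e h = t * q),
          w e * S1 (t, q) e ≤ w e * ((((B : ℝ) - A) * t + h) / e * S2 t e) +
          w e * |S1 (t, q) e -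
            (((B / q : ℕ) : ℝ) - ((A / q : ℕ) : ℝ)) / ((e / (t * q) : ℕ) : ℝ) * S2 t e| := by
        intro e he
        rw [Finset.mem_filter, Finset.mem_Icc] at he
        rw [← mul_add]
        apply mul_le_mul_of_nonneg_left _ (hw0 e)
        have h1 : (((B / q : ℕ) : ℝ) - ((A / q : ℕ) : ℝ)) / ((e / (t * q) : ℕ) : ℝ) ≤
            (((B : ℝ) - A) * t + h) / e := by
          obtain ⟨E, rfl⟩ : t * q ∣ e := by rw [← he.2]; exact Nat.gcd_dvd_left _ _
          have hE0 : 0 < E := by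
            rcases Nat.eq_zero_or_pos E with h0 | h0
            · rw [h0, mul_zero] at he; omega
            · exact h0
          rw [Nat.mul_div_cancel_left E hpos]
          have e3 : ((A : ℝ)) / q < ((A / q : ℕ) : ℝ) + 1 := by
            rw [div_lt_iff₀ (by exact_mod_cast hq)]
            have := Nat.lt_div_mul_add hq (a := A)
            have h2 : A < (A / q + 1) * q := by
              rw [add_mul, one_mul]; exact this
            exact_mod_cast h2
          have e4 : ((B / q : ℕ) : ℝ) ≤ (B : ℝ) / q := Nat.cast_div_le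
          have hE' : (0:ℝ) < E := by exact_mod_cast hE0
          have hpos' : (0:ℝ) < (t:ℝ) * q := by exact_mod_cast hpos
          have hq' : (0:ℝ) < q := by exact_mod_cast hq
          have hle : ((t:ℝ) * q) ≤ h := by
            have := Nat.le_of_dvd (Nat.pos_of_ne_zero hh) hdvd
            exact_mod_cast this
          have e5 : ((B / q : ℕ) : ℝ) - ((A / q : ℕ) : ℝ) ≤ ((B : ℝ) - A) / q + 1 := by
            rw [sub_div]
            linarith
          calc (((B / q : ℕ) : ℝ) - ((A / q : ℕ) : ℝ)) / (E : ℝ)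
              ≤ (((B : ℝ) - A) / q + 1) / E := by gcongr
            _ = (((B : ℝ) - A) * t + t * q) / ((t * q * E : ℕ) : ℝ) := by
                have ht' : (t:ℝ) ≠ 0 := by
                  intro h0
                  rw [h0, zero_mul] at hpos'
                  exact lt_irrefl _ hpos'
                push_cast
                field_simp
            _ ≤ (((B : ℝ) - A) * t + h) / ((t * q * E : ℕ) : ℝ) := by
                gcongr
        have h2 := mul_le_mul_of_nonneg_right h1 (hS2nn t e)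
        have h3 := le_abs_self (S1 (t, q) e -
            (((B / q : ℕ) : ℝ) - ((A / q : ℕ) : ℝ)) / ((e / (t * q) : ℕ) : ℝ) * S2 t e)
        linarith
      have h4 := Finset.sum_le_sum hterm
      rw [Finset.sum_add_distrib] at h4
      have h5 : ∑ e ∈ (Finset.Icc 1 Q).filter (fun e => Nat.gcd e h = t * q), w e *
          |S1 (t, q) e - (((B / q : ℕ) : ℝ) - ((A / q : ℕ) : ℝ)) / ((e / (t * q) : ℕ) : ℝ) *
            S2 t e| ≤ Err0 W D K (B + 1) N Q L := hpb
      linarith
    · have hemp : (Finset.Icc 1 Q).filter (fun e => Nat.gcd e h = t * q) = ∅ := by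
        apply Finset.filter_false_of_mem
        intro e _ he
        apply hdvd
        rw [← he]
        exact Nat.gcd_dvd_right _ _
      rw [hemp, Finset.sum_empty, Finset.sum_empty]
      linarith
  have stepB' := Finset.sum_le_sum stepB
  rw [Finset.sum_add_distrib, Finset.sum_const, nsmul_eq_mul] at stepB'
  have hcard : ((P.card : ℕ) : ℝ) = (h.divisors.card : ℝ) ^ 2 := by
    rw [hP, Finset.card_product]
    push_cast
    ring
  rw [hcard] at stepB'
  -- step C: identify the main term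
  have stepC : ∑ p ∈ P, ∑ e ∈ (Finset.Icc 1 Q).filter (fun e => Nat.gcd e h = p.1 * p.2),
      w e * ((((B : ℝ) - A) * p.1 + h) / e * S2 p.1 e) =
      ∑ e ∈ Finset.Icc 1 Q, ∑ n ∈ Finset.range N, w e * β n / e *
        (if Nat.gcd n e ∣ h then (((B : ℝ) - A) * (Nat.gcd n e : ℕ) + h) else 0) := by
    simp_rw [Finset.sum_filter]
    rw [Finset.sum_comm]
    apply Finset.sum_congr rfl
    intro e he
    have he0 : e ≠ 0 := by
      have := (Finset.mem_Icc.mp he).1
      omega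
    have e1 : ∀ n ∈ Finset.range N, w e * β n / e *
        (if Nat.gcd n e ∣ h then (((B : ℝ) - A) * (Nat.gcd n e : ℕ) + h) else 0) =
        ∑ p ∈ P, w e * β n / e * (if Nat.gcd e h = p.1 * p.2 ∧ Nat.gcd n e = p.1 then
          (((B : ℝ) - A) * p.1 + h) else 0) := by
      intro n _
      rw [← Finset.mul_sum, sum_pairs h n e hh he0 (fun t _ => (((B : ℝ) - A) * t + h))]
    rw [Finset.sum_congr rfl e1, Finset.sum_comm]
    apply Finset.sum_congr rfl
    intro p _
    by_cases h1 : Nat.gcd e h = p.1 * p.2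
    · rw [if_pos h1, hS2]
      simp only
      rw [Finset.mul_sum, Finset.mul_sum]
      apply Finset.sum_congr rfl
      intro n _
      by_cases h2 : Nat.gcd n e = p.1
      · rw [if_pos h2, if_pos ⟨h1, h2⟩]
        ring
      · rw [if_neg h2, if_neg (fun hc => h2 hc.2)]
        ring
    · rw [if_neg h1]
      symm
      apply Finset.sum_eq_zero
      intro n _
      rw [if_neg (fun hc => h1 hc.1)]
      ring
  have stepD : ∑ e ∈ Finset.Icc 1 Q, ∑ n ∈ Finset.range N, w e * β n / e *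
        (if Nat.gcd n e ∣ h then (((B : ℝ) - A) * (Nat.gcd n e : ℕ) + h) else 0) ≤
      ((B : ℝ) - A) * (∑ e ∈ Finset.Icc 1 Q, ∑ n ∈ Finset.range N,
        w e * β n * (Fh h (Nat.gcd n e) / e)) + h * W * (K * N) * (harmonic Q : ℝ) := by
    have h1 : ∑ e ∈ Finset.Icc 1 Q, ∑ n ∈ Finset.range N, (h : ℝ) * (W * K * (1 / (e : ℝ))) =
        h * W * (K * N) * (harmonic Q : ℝ) := by
      rw [harmonic_eq_sum_Icc]
      push_cast
      rw [Finset.mul_sum]
      apply Finset.sum_congr rfl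
      intro e _
      rw [Finset.sum_const, Finset.card_range, nsmul_eq_mul]
      rw [one_div]
      ring
    rw [← h1, Finset.mul_sum, ← Finset.sum_add_distrib]
    apply Finset.sum_le_sum
    intro e he
    have he1 : 1 ≤ e := (Finset.mem_Icc.mp he).1
    have hepos : (0:ℝ) < e := by exact_mod_cast he1
    rw [Finset.mul_sum, ← Finset.sum_add_distrib]
    apply Finset.sum_le_sum
    intro n _
    have h2 : w e * β n ≤ W * K := mul_le_mul (hw e) (hβ n) (hβ0 n) hW0
    have h3 : 0 ≤ w e * β n := mul_nonneg (hw0 e) (hβ0 n)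
    have h4 : w e * β n / e * h ≤ (h : ℝ) * (W * K * (1 / (e : ℝ))) := by
      calc w e * β n / e * h ≤ W * K / e * h := by gcongr
        _ = _ := by ring
    rw [Fh_apply]
    split_ifs with hd
    · calc w e * β n / e * (((B : ℝ) - A) * ((Nat.gcd n e : ℕ) : ℝ) + h) =
          ((B : ℝ) - A) * (w e * β n * (((Nat.gcd n e : ℕ) : ℝ) / e)) + w e * β n / e * h := by
            ring
        _ ≤ _ := by linarith
    · have : 0 ≤ (h : ℝ) * (W * K * (1 / (e : ℝ))) := by positivity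
      rw [zero_div, mul_zero, mul_zero, mul_zero]
      linarith
  rw [stepC] at stepB'
  linarith

end IG1

theorem prfG1 : claimG1 := by
  intro β K h1 h2 A B N Q L h3 h4 w W D h5 h6 h7 h8 h h9 η h10
  exact IG1.count_upper β h1 h2 A B N Q L h3 h4 w W D h5 h6 h7 h8 h h9 η h10

end Pool.Agent.Work.MP_122e00_nt.Two

end

section

set_option autoImplicit false

/-!
Item G2: decomposition of `n = m y` according to the class of `m`.
-/

namespace Pool.Agent.Work.MP_122e00_nt.Two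

open Finset

namespace IG2

/-- number of `n` in the interval with both divisibility conditions -/
noncomputable def cnt2 (lo hi m e : ℕ) (z : ℤ) : ℕ :=
  ((Finset.Ioc lo hi).filter (fun n : ℕ => m ∣ n ∧ (e : ℤ) ∣ (n : ℤ) - z)).card

theorem GC_eq (β w : ℕ → ℝ) (lo hi M Q : ℕ) (z : ℤ) :
    GC β w lo hi M Q z = ∑ e ∈ Finset.Icc 1 Q, w e * ∑ m ∈ Finset.Icc 1 M,
      β m * (cnt2 lo hi m e z : ℝ) := by
  unfold GC cnt2
  simp_rw [Finset.card_filter]
  push_cast
  simp_rw [Finset.mul_sum, Finset.sum_mul]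
  rw [Finset.sum_comm]
  apply Finset.sum_congr rfl
  intro e _
  rw [Finset.sum_comm]
  apply Finset.sum_congr rfl
  intro m _
  apply Finset.sum_congr rfl
  intro n _
  by_cases h1 : m ∣ n
  · by_cases h2 : (e : ℤ) ∣ (n : ℤ) - z
    · simp only [h1, h2, and_self, if_true]
      ring
    · simp only [h1, h2, and_false, if_true, if_false]
      ring
  · simp only [h1, false_and, if_false]
    ring

theorem sol_le_cnt {δ η X lam : ℝ} (hδ : 0 ≤ δ) (hη : 0 ≤ η) (hX : 0 < X) (hl : 1 < lam)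
    (j P e : ℕ) (z : ℤ) (hP1 : lam ^ j ≤ (P : ℝ)) (hP2 : (P : ℝ) < lam ^ (j + 1)) :
    sol ⌊δ * X / lam ^ j⌋₊ ⌊η * X / lam ^ (j + 1)⌋₊ P e z ≤
      cnt2 ⌊δ * X⌋₊ ⌊η * X⌋₊ P e z := by
  have hl0 : 0 < lam := by linarith
  have hP0 : 0 < P := by
    have : (0:ℝ) < P := lt_of_lt_of_le (by positivity) hP1
    exact_mod_cast this
  have hP0' : (0:ℝ) < P := by exact_mod_cast hP0
  unfold sol cnt2
  apply Finset.card_le_card_of_injOn (fun m => m * P)
  · intro m hm
    rw [Finset.mem_coe, Finset.mem_filter, Finset.mem_Ioc] at hm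
    obtain ⟨⟨h1, h2⟩, h3⟩ := hm
    rw [Finset.mem_coe, Finset.mem_filter, Finset.mem_Ioc]
    rw [Nat.floor_lt (by positivity)] at h1
    have h2' : (m : ℝ) ≤ η * X / lam ^ (j + 1) :=
      (Nat.le_floor_iff (by positivity)).mp h2
    refine ⟨⟨?_, ?_⟩, dvd_mul_left P m, ?_⟩
    · rw [Nat.floor_lt (by positivity)]
      push_cast
      rw [div_lt_iff₀ (by positivity)] at h1
      calc δ * X < m * lam ^ j := h1
        _ ≤ m * P := by gcongr
    · apply Nat.le_floor
      push_cast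
      rw [le_div_iff₀ (by positivity)] at h2'
      calc (m : ℝ) * P ≤ m * lam ^ (j + 1) := by gcongr
        _ ≤ η * X := h2'
    · have h4 : ((m * P : ℕ) : ZMod e) - (z : ZMod e) = 0 := by rw [h3, sub_self]
      rw [← ZMod.intCast_zmod_eq_zero_iff_dvd]
      push_cast at h4 ⊢
      exact h4
  · intro a _ b _ h
    exact Nat.eq_of_mul_eq_mul_right hP0 h

theorem cnt_le_sol {δ η X lam : ℝ} (hδ : 0 ≤ δ) (hη : 0 ≤ η) (hX : 0 < X) (hl : 1 < lam)
    (j P e : ℕ) (z : ℤ) (hP1 : lam ^ j ≤ (P : ℝ)) (hP2 : (P : ℝ) < lam ^ (j + 1)) :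
    cnt2 ⌊δ * X⌋₊ ⌊η * X⌋₊ P e z ≤
      sol ⌊δ * X / lam ^ (j + 1)⌋₊ ⌊η * X / lam ^ j⌋₊ P e z := by
  have hl0 : 0 < lam := by linarith
  have hP0 : 0 < P := by
    have : (0:ℝ) < P := lt_of_lt_of_le (by positivity) hP1
    exact_mod_cast this
  have hP0' : (0:ℝ) < P := by exact_mod_cast hP0
  unfold sol cnt2
  apply Finset.card_le_card_of_injOn (fun n => n / P)
  · intro n hn
    rw [Finset.mem_coe, Finset.mem_filter, Finset.mem_Ioc] at hn
    obtain ⟨⟨h1, h2⟩, ⟨y, rfl⟩, h3⟩ := hn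
    rw [Nat.floor_lt (by positivity)] at h1
    have h2' : ((P * y : ℕ) : ℝ) ≤ η * X := (Nat.le_floor_iff (by positivity)).mp h2
    have hy0 : 0 < y := by
      rcases Nat.eq_zero_or_pos y with h | h
      · exfalso
        rw [h, mul_zero, Nat.cast_zero] at h1
        have : 0 ≤ δ * X := by positivity
        linarith
      · exact h
    have hy0' : (0:ℝ) < y := by exact_mod_cast hy0
    rw [Finset.mem_coe, Finset.mem_filter, Finset.mem_Ioc]
    show (_ < P * y / P ∧ P * y / P ≤ _) ∧ (((P * y / P) * P : ℕ) : ZMod e) = (z : ZMod e)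
    rw [Nat.mul_div_cancel_left y hP0]
    push_cast at h1 h2'
    refine ⟨⟨?_, ?_⟩, ?_⟩
    · rw [Nat.floor_lt (by positivity), div_lt_iff₀ (by positivity)]
      calc δ * X < P * y := h1
        _ ≤ y * lam ^ (j + 1) := by
            rw [mul_comm]
            gcongr
    · apply Nat.le_floor
      rw [le_div_iff₀ (by positivity)]
      calc (y : ℝ) * lam ^ j ≤ y * P := by gcongr
        _ = P * y := by ring
        _ ≤ η * X := h2'
    · have h4 := (ZMod.intCast_zmod_eq_zero_iff_dvd _ e).mpr h3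
      push_cast at h4 ⊢
      rw [mul_comm]
      exact sub_eq_zero.mp h4
  · intro a ha b hb h
    rw [Finset.mem_coe, Finset.mem_filter] at ha hb
    obtain ⟨a', rfl⟩ := ha.2.1
    obtain ⟨b', rfl⟩ := hb.2.1
    simp only [Nat.mul_div_cancel_left _ hP0] at h
    rw [h]

theorem class_unique {lam : ℝ} (hl : 1 < lam) {j j' m : ℕ}
    (h : lam ^ j ≤ (m : ℝ) ∧ (m : ℝ) < lam ^ (j + 1))
    (h' : lam ^ j' ≤ (m : ℝ) ∧ (m : ℝ) < lam ^ (j' + 1)) : j = j' := by
  have h1 : lam ^ j < lam ^ (j' + 1) := h.1.trans_lt h'.2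
  have h2 : lam ^ j' < lam ^ (j + 1) := h'.1.trans_lt h.2
  rw [pow_lt_pow_iff_right₀ hl] at h1 h2
  omega

/-- the sum over the classes, for an arbitrary count `φ j m` -/
theorem sum_classes (β w : ℕ → ℝ) (M Q : ℕ) (hsupp : ∀ m, β m ≠ 0 → m ∈ Finset.Icc 1 M)
    (lam : ℝ) (hl : 1 < lam) (J : Finset ℕ) (φ : ℕ → ℕ → ℕ → ℝ) :
    ∑ j ∈ J, ∑ e ∈ Finset.Icc 1 Q, w e * ∑ m ∈ Finset.range (⌊lam ^ (j + 1)⌋₊ + 1),
        cl lam j β m * φ j m e =
      ∑ e ∈ Finset.Icc 1 Q, w e * ∑ m ∈ Finset.Icc 1 M, ∑ j ∈ J, cl lam j β m * φ j m e := by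
  rw [Finset.sum_comm]
  apply Finset.sum_congr rfl
  intro e _
  rw [← Finset.mul_sum]
  congr 1
  rw [Finset.sum_comm (s := Finset.Icc 1 M) (t := J)]
  apply Finset.sum_congr rfl
  intro j _
  have hnz : ∀ m, cl lam j β m ≠ 0 → β m ≠ 0 ∧ (m : ℝ) < lam ^ (j + 1) := by
    intro m hm
    unfold cl at hm
    split_ifs at hm with h
    · exact ⟨hm, h.2⟩
    · exact absurd rfl hm
  have e1 : ∑ m ∈ Finset.range (⌊lam ^ (j + 1)⌋₊ + 1), cl lam j β m * φ j m e =
      ∑ m ∈ Finset.range (⌊lam ^ (j + 1)⌋₊ + 1) ∩ Finset.Icc 1 M, cl lam j β m * φ j m e := by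
    symm
    apply Finset.sum_subset Finset.inter_subset_left
    intro m hm hn
    by_cases h0 : cl lam j β m = 0
    · rw [h0, zero_mul]
    · exact absurd (Finset.mem_inter.mpr ⟨hm, hsupp m (hnz m h0).1⟩) hn
  have e2 : ∑ m ∈ Finset.Icc 1 M, cl lam j β m * φ j m e =
      ∑ m ∈ Finset.range (⌊lam ^ (j + 1)⌋₊ + 1) ∩ Finset.Icc 1 M, cl lam j β m * φ j m e := by
    symm
    apply Finset.sum_subset Finset.inter_subset_right
    intro m hm hn
    by_cases h0 : cl lam j β m = 0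
    · rw [h0, zero_mul]
    · exfalso
      apply hn
      rw [Finset.mem_inter, Finset.mem_range, Nat.lt_succ_iff]
      exact ⟨Nat.le_floor (hnz m h0).2.le, hm⟩
  rw [e1, e2]

theorem main (β w : ℕ → ℝ) (M Q : ℕ) (hβ0 : ∀ m, 0 ≤ β m) (hw0 : ∀ e, 0 ≤ w e)
    (hsupp : ∀ m, β m ≠ 0 → m ∈ Finset.Icc 1 M) (δ η X lam : ℝ) (hδ : 0 ≤ δ) (hη : 0 ≤ η)
    (hX : 0 < X) (hl : 1 < lam) (z : ℤ) (J : Finset ℕ)
    (hJ : ∀ m, β m ≠ 0 → ∃ j ∈ J, lam ^ j ≤ (m : ℝ) ∧ (m : ℝ) < lam ^ (j + 1)) :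
    ∑ j ∈ J, ∑ e ∈ Finset.Icc 1 Q, w e * ∑ m ∈ Finset.range (⌊lam ^ (j + 1)⌋₊ + 1),
        cl lam j β m * (sol ⌊δ * X / lam ^ j⌋₊ ⌊η * X / lam ^ (j + 1)⌋₊ m e z : ℝ) ≤
      GC β w ⌊δ * X⌋₊ ⌊η * X⌋₊ M Q z ∧
    GC β w ⌊δ * X⌋₊ ⌊η * X⌋₊ M Q z ≤
      ∑ j ∈ J, ∑ e ∈ Finset.Icc 1 Q, w e * ∑ m ∈ Finset.range (⌊lam ^ (j + 1)⌋₊ + 1),
        cl lam j β m * (sol ⌊δ * X / lam ^ (j + 1)⌋₊ ⌊η * X / lam ^ j⌋₊ m e z : ℝ) := by
  rw [GC_eq,
    sum_classes β w M Q hsupp lam hl J (fun j m e =>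
      (sol ⌊δ * X / lam ^ j⌋₊ ⌊η * X / lam ^ (j + 1)⌋₊ m e z : ℝ)),
    sum_classes β w M Q hsupp lam hl J (fun j m e =>
      (sol ⌊δ * X / lam ^ (j + 1)⌋₊ ⌊η * X / lam ^ j⌋₊ m e z : ℝ))]
  have hone : ∀ (m : ℕ) (g : ℕ → ℝ), β m ≠ 0 → ∃ j ∈ J,
      (lam ^ j ≤ (m : ℝ) ∧ (m : ℝ) < lam ^ (j + 1)) ∧
      ∑ j' ∈ J, cl lam j' β m * g j' = β m * g j := by
    intro m g hm
    obtain ⟨j, hj, hjm⟩ := hJ m hm
    refine ⟨j, hj, hjm, ?_⟩
    rw [Finset.sum_eq_single j]
    · unfold cl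
      rw [if_pos hjm]
    · intro j' _ hne
      unfold cl
      rw [if_neg, zero_mul]
      intro h'
      exact hne (class_unique hl h' hjm)
    · intro hnot
      exact absurd hj hnot
  have hzero : ∀ (m : ℕ) (g : ℕ → ℝ), β m = 0 → ∑ j' ∈ J, cl lam j' β m * g j' = 0 := by
    intro m g hm
    apply Finset.sum_eq_zero
    intro j _
    unfold cl
    split_ifs
    · rw [hm, zero_mul]
    · rw [zero_mul]
  constructor
  · apply Finset.sum_le_sum
    intro e _
    apply mul_le_mul_of_nonneg_left _ (hw0 e)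
    apply Finset.sum_le_sum
    intro m _
    by_cases hm : β m = 0
    · rw [hzero m _ hm, hm, zero_mul]
    · obtain ⟨j, _, hjm, hs⟩ := hone m (fun j =>
        (sol ⌊δ * X / lam ^ j⌋₊ ⌊η * X / lam ^ (j + 1)⌋₊ m e z : ℝ)) hm
      rw [hs]
      apply mul_le_mul_of_nonneg_left _ (hβ0 m)
      exact_mod_cast sol_le_cnt hδ hη hX hl j m e z hjm.1 hjm.2
  · apply Finset.sum_le_sum
    intro e _
    apply mul_le_mul_of_nonneg_left _ (hw0 e)
    apply Finset.sum_le_sum
    intro m _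
    by_cases hm : β m = 0
    · rw [hzero m _ hm, hm, zero_mul]
    · obtain ⟨j, _, hjm, hs⟩ := hone m (fun j =>
        (sol ⌊δ * X / lam ^ (j + 1)⌋₊ ⌊η * X / lam ^ j⌋₊ m e z : ℝ)) hm
      rw [hs]
      apply mul_le_mul_of_nonneg_left _ (hβ0 m)
      exact_mod_cast cnt_le_sol hδ hη hX hl j m e z hjm.1 hjm.2

end IG2

theorem prfG2 : claimG2 := by
  intro β w M Q h1 h2 h3 δ η X lam h4 h5 h6 h7 z J h8
  exact IG2.main β w M Q h1 h2 h3 δ η X lam h4 h5 h6 h7 z J h8

end Pool.Agent.Work.MP_122e00_nt.Two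

end

section

set_option autoImplicit false

/-!
# Item G3: main term and error, summed over the classes
-/

namespace Pool.Agent.Work.MP_122e00_nt.Two

open Finset Filter Topology MeasureTheory

open scoped ArithmeticFunction.vonMangoldt

namespace IG3

theorem cl_nonneg {β : ℕ → ℝ} (hβ : ∀ m, 0 ≤ β m) (lam : ℝ) (j m : ℕ) : 0 ≤ cl lam j β m := by
  unfold cl
  split_ifs
  · exact hβ m
  · exact le_rfl

theorem cl_le {β : ℕ → ℝ} {K : ℝ} (hβ : ∀ m, 0 ≤ β m) (hK : ∀ m, β m ≤ K) (lam : ℝ) (j m : ℕ) :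
    cl lam j β m ≤ K := by
  unfold cl
  split_ifs
  · exact hK m
  · exact (hβ m).trans (hK m)

theorem cl_zero {β : ℕ → ℝ} {lam : ℝ} {j m : ℕ} (h : β m = 0) : cl lam j β m = 0 := by
  unfold cl
  split_ifs
  · exact h
  · rfl

theorem cl_mem {β : ℕ → ℝ} {lam : ℝ} {j m : ℕ} (h : cl lam j β m ≠ 0) :
    lam ^ j ≤ (m : ℝ) ∧ (m : ℝ) < lam ^ (j + 1) := by
  unfold cl at h
  by_contra hc
  rw [if_neg hc] at h
  exact h rfl

/-- Every `m` in the support lies in exactly one class. -/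
theorem cls_sum {β : ℕ → ℝ} {M : ℕ} (hβM : ∀ m, β m ≠ 0 → m ∈ Finset.Icc 1 M) {lam : ℝ}
    (hl : 1 < lam) (J : Finset ℕ)
    (hJ : ∀ m, β m ≠ 0 → ∃ j ∈ J, lam ^ j ≤ (m : ℝ) ∧ (m : ℝ) < lam ^ (j + 1)) (ψ : ℕ → ℝ) :
    ∑ j ∈ J, ∑ m ∈ Finset.range (⌊lam ^ (j + 1)⌋₊ + 1), cl lam j β m * ψ m =
      ∑ m ∈ Finset.Icc 1 M, β m * ψ m := by
  have h1 : ∀ j ∈ J, ∑ m ∈ Finset.range (⌊lam ^ (j + 1)⌋₊ + 1), cl lam j β m * ψ m =
      ∑ m ∈ Finset.Icc 1 M, cl lam j β m * ψ m := by
    intro j _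
    have e1 : ∑ m ∈ Finset.range (⌊lam ^ (j + 1)⌋₊ + 1), cl lam j β m * ψ m =
        ∑ m ∈ Finset.range (⌊lam ^ (j + 1)⌋₊ + 1) ∪ Finset.Icc 1 M, cl lam j β m * ψ m := by
      apply Finset.sum_subset Finset.subset_union_left
      intro m _ hm
      have h0 : cl lam j β m = 0 := by
        by_contra hc
        apply hm
        rw [Finset.mem_range, Nat.lt_succ_iff]
        exact Nat.le_floor (cl_mem hc).2.le
      rw [h0, zero_mul]
    have e2 : ∑ m ∈ Finset.Icc 1 M, cl lam j β m * ψ m =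
        ∑ m ∈ Finset.range (⌊lam ^ (j + 1)⌋₊ + 1) ∪ Finset.Icc 1 M, cl lam j β m * ψ m := by
      apply Finset.sum_subset Finset.subset_union_right
      intro m _ hm
      have h0 : cl lam j β m = 0 := by
        apply cl_zero
        by_contra hc
        exact hm (hβM m hc)
      rw [h0, zero_mul]
    rw [e1, e2]
  rw [Finset.sum_congr rfl h1, Finset.sum_comm]
  refine Finset.sum_congr rfl fun m _ => ?_
  rw [← Finset.sum_mul]
  congr 1
  by_cases hm : β m = 0
  · rw [hm]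
    exact Finset.sum_eq_zero fun j _ => cl_zero hm
  · obtain ⟨j, hj, hj1, hj2⟩ := hJ m hm
    rw [Finset.sum_eq_single j]
    · unfold cl
      rw [if_pos ⟨hj1, hj2⟩]
    · intro j' _ hne
      by_contra hc
      obtain ⟨h3, h4⟩ := cl_mem hc
      apply hne
      have h5 : lam ^ j < lam ^ (j' + 1) := hj1.trans_lt h4
      have h6 : lam ^ j' < lam ^ (j + 1) := h3.trans_lt hj2
      rw [pow_lt_pow_iff_right₀ hl] at h5 h6
      omega
    · intro hn
      exact absurd hj hn

/-- The total weight of the rounding errors. -/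
theorem round_le {β w : ℕ → ℝ} {M Q : ℕ} {W : ℝ} (hβ0 : ∀ m, 0 ≤ β m) (hw0 : ∀ e, 0 ≤ w e)
    (hwW : ∀ e, w e ≤ W) {h : ℕ} (hh : h ≠ 0) :
    ∑ e ∈ Finset.Icc 1 Q, ∑ m ∈ Finset.Icc 1 M, β m * (w e * (Fh h (Nat.gcd m e) / e)) ≤
      h * (∑ m ∈ Finset.Icc 1 M, β m) * (W * (harmonic Q : ℝ)) := by
  rw [harmonic_eq_sum_Icc]
  push_cast
  have h0 : (h : ℝ) * (∑ m ∈ Finset.Icc 1 M, β m) * (W * ∑ e ∈ Finset.Icc 1 Q, (e : ℝ)⁻¹) =
      ∑ e ∈ Finset.Icc 1 Q, ∑ m ∈ Finset.Icc 1 M, β m * (W * (h / e)) := by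
    have h00 : ∀ e ∈ Finset.Icc 1 Q, ∑ m ∈ Finset.Icc 1 M, β m * (W * ((h : ℝ) / (e : ℝ))) =
        (h : ℝ) * (∑ m ∈ Finset.Icc 1 M, β m) * W * (e : ℝ)⁻¹ := by
      intro e _
      rw [← Finset.sum_mul]
      ring
    rw [Finset.sum_congr rfl h00, ← Finset.mul_sum]
    ring
  rw [h0]
  refine Finset.sum_le_sum fun e he => ?_
  have he0 : (0 : ℝ) < e := by exact_mod_cast (Finset.mem_Icc.mp he).1
  refine Finset.sum_le_sum fun m _ => ?_
  have e1 := Fh_le h (Nat.gcd m e) hh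
  have e2 := Fh_nonneg h (Nat.gcd m e)
  have e3 := hβ0 m
  have e4 := hw0 e
  have e5 := hwW e
  have e6 : 0 ≤ W := e4.trans e5
  gcongr

end IG3

open IG3 in
theorem prfG3 : claimG3 := by
  intro hG1 hG2 β w M Q K W D hβ0 hβK hw0 hwW hβM hD hD0 δ η X lam hδ hδη hη hX hl hl2 h z hh hz J
    hJ L E1 N1 hL hE1 hN1
  have hl0 : 0 < lam := by linarith
  have hX0 : 0 < X := by linarith
  have hη0 : 0 ≤ η := le_trans (by positivity) hδη
  have hδη' : δ ≤ η := by nlinarith
  have hK0 : 0 ≤ K := (hβ0 0).trans (hβK 0)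
  have hW0 : 0 ≤ W := (hw0 0).trans (hwW 0)
  have hharm := harmonic_nonneg Q
  obtain ⟨g1, g2⟩ := hG2 β w M Q hβ0 hw0 hβM δ η X lam hδ hη0 hX0 hl z J hJ
  have hround := round_le (M := M) (Q := Q) hβ0 hw0 hwW hh
  set Rd := ∑ e ∈ Finset.Icc 1 Q, ∑ m ∈ Finset.Icc 1 M,
    β m * (w e * (Fh h (Nat.gcd m e) / e)) with hRd
  set E' := (h.divisors.card : ℝ) ^ 2 * E1 + h * W * (K * N1) * (harmonic Q : ℝ) with hE'
  -- errors of one class
  have herr : ∀ j ∈ J, ∀ B : ℕ, (B : ℝ) ≤ X / lam ^ j →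
      (h.divisors.card : ℝ) ^ 2 * Err0 W D K (B + 1) (⌊lam ^ (j + 1)⌋₊ + 1) Q L +
        h * W * (K * ((⌊lam ^ (j + 1)⌋₊ + 1 : ℕ) : ℝ)) * (harmonic Q : ℝ) ≤ E' := by
    intro j hj B hB
    have e1 := hE1 j hj B hB
    have e2 := hN1 j hj
    rw [hE']
    gcongr
  -- sums over the classes
  have hsum : ∀ c d : ℝ, ∑ j ∈ J, ∑ e ∈ Finset.Icc 1 Q,
      ∑ m ∈ Finset.range (⌊lam ^ (j + 1)⌋₊ + 1),
        cl lam j β m * ((c * X / m + d) * (w e * (Fh h (Nat.gcd m e) / e))) =
      c * X * GM h β w M Q + d * Rd := by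
    intro c d
    rw [Finset.sum_comm]
    have e1 : ∀ e ∈ Finset.Icc 1 Q, ∑ j ∈ J, ∑ m ∈ Finset.range (⌊lam ^ (j + 1)⌋₊ + 1),
        cl lam j β m * ((c * X / m + d) * (w e * (Fh h (Nat.gcd m e) / e))) =
        ∑ m ∈ Finset.Icc 1 M, (c * X * (β m * w e * (Fh h (Nat.gcd m e) / (m * e))) +
          d * (β m * (w e * (Fh h (Nat.gcd m e) / e)))) := by
      intro e _
      rw [cls_sum hβM hl J hJ
        (fun m => (c * X / m + d) * (w e * (Fh h (Nat.gcd m e) / e)))]
      refine Finset.sum_congr rfl fun m _ => ?_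
      rw [div_mul_eq_div_div_swap]
      ring
    rw [Finset.sum_congr rfl e1, hRd, GM, Finset.mul_sum, Finset.mul_sum]
    rw [Finset.sum_comm (s := Finset.Icc 1 Q) (t := Finset.Icc 1 M)]
    simp_rw [Finset.sum_add_distrib, Finset.mul_sum]
    congr 1
    rw [Finset.sum_comm]
  constructor
  · refine le_trans ?_ g1
    have hstep : ∀ j ∈ J, (∑ e ∈ Finset.Icc 1 Q, ∑ m ∈ Finset.range (⌊lam ^ (j + 1)⌋₊ + 1),
        cl lam j β m * (((η / lam - δ) * X / m + (-1)) * (w e * (Fh h (Nat.gcd m e) / e)))) - E' ≤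
        ∑ e ∈ Finset.Icc 1 Q, w e * ∑ m ∈ Finset.range (⌊lam ^ (j + 1)⌋₊ + 1),
        cl lam j β m * (sol ⌊δ * X / lam ^ j⌋₊ ⌊η * X / lam ^ (j + 1)⌋₊ m e z : ℝ) := by
      intro j hj
      set A := ⌊δ * X / lam ^ j⌋₊ with hA
      set B := ⌊η * X / lam ^ (j + 1)⌋₊ with hB
      have hlj : 0 < lam ^ j := by positivity
      have hAB : A ≤ B := by
        apply Nat.floor_mono
        rw [div_le_div_iff₀ hlj (by positivity)]
        calc δ * X * lam ^ (j + 1) = (δ * lam) * (X * lam ^ j) := by ring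
          _ ≤ η * (X * lam ^ j) := by gcongr
          _ = η * X * lam ^ j := by ring
      have hBle : (B : ℝ) ≤ X / lam ^ j := by
        have e1 : (B : ℝ) ≤ η * X / lam ^ (j + 1) := Nat.floor_le (by positivity)
        refine e1.trans ?_
        rw [div_le_div_iff₀ (by positivity) hlj]
        have e2 : lam ^ j ≤ lam ^ (j + 1) := pow_le_pow_right₀ hl.le (Nat.le_succ j)
        calc η * X * lam ^ j ≤ 1 * X * lam ^ (j + 1) := by gcongr
          _ = X * lam ^ (j + 1) := by ring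
      have hcl := count_lower (cl lam j β) (K := K) (cl_nonneg hβ0 lam j) (cl_le hβ0 hβK lam j)
        A B (⌊lam ^ (j + 1)⌋₊ + 1) Q L hAB hL w W D hw0 hwW hD hD0 h hh z hz
      refine le_trans ?_ hcl
      have hBA : (η / lam - δ) * X / lam ^ j - 1 ≤ (B : ℝ) - A := by
        have h1 : (A : ℝ) ≤ δ * X / lam ^ j := Nat.floor_le (by positivity)
        have h2 : η * X / lam ^ (j + 1) - 1 < B := Nat.sub_one_lt_floor _
        have h3 : (η / lam - δ) * X / lam ^ j = η * X / lam ^ (j + 1) - δ * X / lam ^ j := by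
          rw [pow_succ]
          field_simp
        rw [h3]
        linarith
      have hlδ : 0 ≤ η / lam - δ := by
        rw [sub_nonneg, le_div_iff₀ hl0]
        exact hδη
      refine sub_le_sub ?_ (herr j hj B hBle)
      rw [Finset.mul_sum]
      refine Finset.sum_le_sum fun e _ => ?_
      rw [Finset.mul_sum]
      refine Finset.sum_le_sum fun m _ => ?_
      by_cases hm : cl lam j β m = 0
      · rw [hm]
        simp
      · obtain ⟨hm1, hm2⟩ := cl_mem hm
        have hm0 : (0 : ℝ) < m := hlj.trans_le hm1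
        have e1 : (η / lam - δ) * X / m + (-1) ≤ (B : ℝ) - A := by
          have : (η / lam - δ) * X / m ≤ (η / lam - δ) * X / lam ^ j := by gcongr
          linarith
        have e2 : 0 ≤ w e * cl lam j β m * (Fh h (Nat.gcd m e) / e) := by
          have := hw0 e
          have := cl_nonneg hβ0 lam j m
          have := Fh_nonneg h (Nat.gcd m e)
          positivity
        calc cl lam j β m * (((η / lam - δ) * X / m + (-1)) * (w e * (Fh h (Nat.gcd m e) / e)))
            = ((η / lam - δ) * X / m + (-1)) *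
              (w e * cl lam j β m * (Fh h (Nat.gcd m e) / e)) := by ring
          _ ≤ ((B : ℝ) - A) * (w e * cl lam j β m * (Fh h (Nat.gcd m e) / e)) :=
            mul_le_mul_of_nonneg_right e1 e2
    have htot := Finset.sum_le_sum hstep
    rw [Finset.sum_sub_distrib, hsum, Finset.sum_const, nsmul_eq_mul] at htot
    refine le_trans ?_ htot
    linarith
  · refine g2.trans ?_
    have hstep : ∀ j ∈ J, ∑ e ∈ Finset.Icc 1 Q, w e * ∑ m ∈ Finset.range (⌊lam ^ (j + 1)⌋₊ + 1),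
        cl lam j β m * (sol ⌊δ * X / lam ^ (j + 1)⌋₊ ⌊η * X / lam ^ j⌋₊ m e z : ℝ) ≤
        (∑ e ∈ Finset.Icc 1 Q, ∑ m ∈ Finset.range (⌊lam ^ (j + 1)⌋₊ + 1),
        cl lam j β m * (((lam * η - δ) * X / m + 1) * (w e * (Fh h (Nat.gcd m e) / e)))) + E' := by
      intro j hj
      set A := ⌊δ * X / lam ^ (j + 1)⌋₊ with hA
      set B := ⌊η * X / lam ^ j⌋₊ with hB
      have hlj : 0 < lam ^ j := by positivity
      have hAB : A ≤ B := by
        apply Nat.floor_mono
        rw [div_le_div_iff₀ (by positivity) hlj]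
        have e2 : lam ^ j ≤ lam ^ (j + 1) := pow_le_pow_right₀ hl.le (Nat.le_succ j)
        gcongr
      have hBle : (B : ℝ) ≤ X / lam ^ j := by
        have e1 : (B : ℝ) ≤ η * X / lam ^ j := Nat.floor_le (by positivity)
        refine e1.trans ?_
        gcongr
        calc η * X ≤ 1 * X := by gcongr
          _ = X := one_mul X
      have hcl := hG1 (cl lam j β) K (cl_nonneg hβ0 lam j) (cl_le hβ0 hβK lam j)
        A B (⌊lam ^ (j + 1)⌋₊ + 1) Q L hAB hL w W D hw0 hwW hD hD0 h hh z hz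
      refine hcl.trans ?_
      have hBA : (B : ℝ) - A ≤ (η - δ / lam) * X / lam ^ j + 1 := by
        have h1 : δ * X / lam ^ (j + 1) - 1 < A := Nat.sub_one_lt_floor _
        have h2 : (B : ℝ) ≤ η * X / lam ^ j := Nat.floor_le (by positivity)
        have h3 : (η - δ / lam) * X / lam ^ j = η * X / lam ^ j - δ * X / lam ^ (j + 1) := by
          rw [pow_succ]
          field_simp
        rw [h3]
        linarith
      have hlδ : 0 ≤ η - δ / lam := by
        rw [sub_nonneg, div_le_iff₀ hl0]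
        nlinarith
      refine add_le_add ?_ (herr j hj B hBle)
      rw [Finset.mul_sum]
      refine Finset.sum_le_sum fun e _ => ?_
      rw [Finset.mul_sum]
      refine Finset.sum_le_sum fun m _ => ?_
      by_cases hm : cl lam j β m = 0
      · rw [hm]
        simp
      · obtain ⟨hm1, hm2⟩ := cl_mem hm
        have hm0 : (0 : ℝ) < m := hlj.trans_le hm1
        have e1 : (B : ℝ) - A ≤ (lam * η - δ) * X / m + 1 := by
          have h4 : (η - δ / lam) * X / lam ^ j ≤ (lam * η - δ) * X / m := by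
            rw [div_le_div_iff₀ hlj hm0]
            have h5 : (lam * η - δ) = (η - δ / lam) * lam := by
              field_simp
            rw [h5]
            have h6 : (m : ℝ) ≤ lam * lam ^ j := by
              rw [pow_succ] at hm2
              linarith [mul_comm (lam ^ j) lam]
            calc (η - δ / lam) * X * m ≤ (η - δ / lam) * X * (lam * lam ^ j) := by gcongr
              _ = (η - δ / lam) * lam * X * lam ^ j := by ring
          linarith
        have e2 : 0 ≤ w e * cl lam j β m * (Fh h (Nat.gcd m e) / e) := by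
          have := hw0 e
          have := cl_nonneg hβ0 lam j m
          have := Fh_nonneg h (Nat.gcd m e)
          positivity
        calc ((B : ℝ) - A) * (w e * cl lam j β m * (Fh h (Nat.gcd m e) / e))
            ≤ ((lam * η - δ) * X / m + 1) * (w e * cl lam j β m * (Fh h (Nat.gcd m e) / e)) :=
              mul_le_mul_of_nonneg_right e1 e2
          _ = cl lam j β m * (((lam * η - δ) * X / m + 1) *
              (w e * (Fh h (Nat.gcd m e) / e))) := by ring
    have htot := Finset.sum_le_sum hstep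
    rw [Finset.sum_add_distrib, hsum, Finset.sum_const, nsmul_eq_mul] at htot
    refine htot.trans ?_
    linarith

end Pool.Agent.Work.MP_122e00_nt.Two

end

section

set_option autoImplicit false

namespace Pool.Agent.Work.MP_122e00_nt.Two

open Finset

namespace IG5

/-- two sided count in a residue class -/
theorem count_class (lo hi L n0 : ℕ) (hlh : lo ≤ hi) (hL : 0 < L) :
    |(((Finset.Ioc lo hi).filter (fun n => n ≡ n0 [MOD L])).card : ℝ) - ((hi : ℝ) - lo) / L| ≤
      1 := by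
  have hcount := Nat.Ioc_filter_modEq_card lo hi hL n0
  have hLq : (0 : ℚ) < (L : ℚ) := by exact_mod_cast hL
  have hmono : ⌊((lo : ℚ) - n0) / (L : ℚ)⌋ ≤ ⌊((hi : ℚ) - n0) / (L : ℚ)⌋ := by
    apply Int.floor_le_floor
    have : (lo : ℚ) ≤ hi := by exact_mod_cast hlh
    gcongr
  rw [max_eq_left (by linarith)] at hcount
  have h1 : ((((Finset.Ioc lo hi).filter (fun n => n ≡ n0 [MOD L])).card : ℤ) : ℚ) =
      ((⌊((hi : ℚ) - n0) / (L : ℚ)⌋ - ⌊((lo : ℚ) - n0) / (L : ℚ)⌋ : ℤ) : ℚ) := by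
    exact_mod_cast hcount
  push_cast at h1
  have a1 := Int.sub_one_lt_floor (((hi : ℚ) - n0) / (L : ℚ))
  have a2 := Int.floor_le (((hi : ℚ) - n0) / (L : ℚ))
  have b1 := Int.sub_one_lt_floor (((lo : ℚ) - n0) / (L : ℚ))
  have b2 := Int.floor_le (((lo : ℚ) - n0) / (L : ℚ))
  have h5 : ((hi : ℚ) - lo) / (L : ℚ) =
      ((hi : ℚ) - n0) / (L : ℚ) - ((lo : ℚ) - n0) / (L : ℚ) := by ring
  have h6 : |((((Finset.Ioc lo hi).filter (fun n => n ≡ n0 [MOD L])).card : ℚ)) -
      ((hi : ℚ) - lo) / L| ≤ 1 := by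
    rw [h1, h5, abs_le]
    constructor <;> linarith
  have h7 : ((|((((Finset.Ioc lo hi).filter (fun n => n ≡ n0 [MOD L])).card : ℚ)) -
      ((hi : ℚ) - lo) / L| : ℚ) : ℝ) ≤ ((1 : ℚ) : ℝ) := by exact_mod_cast h6
  push_cast at h7
  exact h7

end IG5

theorem prfG5 : claimG5 := by
  intro m e lo hi h z hm he hlh hh hz
  rw [Fh_apply]
  by_cases hg : Nat.gcd m e ∣ h
  · rw [if_pos hg]
    have hl : 0 < Nat.lcm m e := Nat.lcm_pos hm he
    have hlz : (0 : ℤ) < (Nat.lcm m e : ℤ) := by exact_mod_cast hl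
    have hgz : ((Nat.gcd m e : ℕ) : ℤ) ∣ z := by
      rw [← Int.natCast_dvd_natCast] at hg
      rw [← hz] at hg
      rwa [Int.dvd_natAbs] at hg
    obtain ⟨k, hk⟩ := hgz
    have hbez : ((Nat.gcd m e : ℕ) : ℤ) = m * Nat.gcdA m e + e * Nat.gcdB m e :=
      Nat.gcd_eq_gcd_ab m e
    set x : ℤ := m * Nat.gcdA m e * k with hx
    have hxm : (m : ℤ) ∣ x := ⟨Nat.gcdA m e * k, by rw [hx]; ring⟩
    have hxe : (e : ℤ) ∣ x - z := ⟨-(Nat.gcdB m e * k), by rw [hk, hbez, hx]; ring⟩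
    set n0 : ℕ := (x % (Nat.lcm m e : ℤ)).toNat with hn0
    have hn0z : (n0 : ℤ) = x % (Nat.lcm m e : ℤ) := by
      rw [hn0]
      exact Int.toNat_of_nonneg (Int.emod_nonneg _ hlz.ne')
    have hLn : ((Nat.lcm m e : ℕ) : ℤ) ∣ x - n0 := by
      rw [hn0z]
      exact Int.dvd_self_sub_emod
    have hmL : (m : ℤ) ∣ (Nat.lcm m e : ℤ) := by exact_mod_cast Nat.dvd_lcm_left m e
    have heL : (e : ℤ) ∣ (Nat.lcm m e : ℤ) := by exact_mod_cast Nat.dvd_lcm_right m e
    have hset : (Finset.Ioc lo hi).filter (fun n : ℕ => m ∣ n ∧ (e : ℤ) ∣ (n : ℤ) - z) =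
        (Finset.Ioc lo hi).filter (fun n => n ≡ n0 [MOD Nat.lcm m e]) := by
      apply Finset.filter_congr
      intro n _
      rw [Nat.modEq_iff_dvd]
      constructor
      · rintro ⟨h1, h2⟩
        have h1' : (m : ℤ) ∣ (n : ℤ) := by exact_mod_cast h1
        have h3 : (m : ℤ) ∣ (n0 : ℤ) - n := by
          have h4 : (n0 : ℤ) - n = x - n - (x - n0) := by ring
          rw [h4]
          exact dvd_sub (dvd_sub hxm h1') (hmL.trans hLn)
        have h5 : (e : ℤ) ∣ (n0 : ℤ) - n := by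
          have h4 : (n0 : ℤ) - n = (x - z) - (n - z) - (x - n0) := by ring
          rw [h4]
          exact dvd_sub (dvd_sub hxe h2) (heL.trans hLn)
        rw [← Int.dvd_natAbs, Int.natCast_dvd_natCast] at h3 h5 ⊢
        exact Nat.lcm_dvd h3 h5
      · intro h1
        constructor
        · have h3 : (m : ℤ) ∣ (n : ℤ) := by
            have h4 : (n : ℤ) = x - (x - n0) - (n0 - n) := by ring
            rw [h4]
            exact dvd_sub (dvd_sub hxm (hmL.trans hLn)) (hmL.trans h1)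
          exact_mod_cast h3
        · have h4 : (n : ℤ) - z = (x - z) - (x - n0) - (n0 - n) := by ring
          rw [h4]
          exact dvd_sub (dvd_sub hxe (heL.trans hLn)) (heL.trans h1)
    rw [hset]
    have hgl : ((hi : ℝ) - lo) * ((Nat.gcd m e : ℝ) / (m * e)) =
        ((hi : ℝ) - lo) / (Nat.lcm m e : ℕ) := by
      have h1 : (Nat.gcd m e : ℝ) * (Nat.lcm m e : ℝ) = (m : ℝ) * e := by
        exact_mod_cast Nat.gcd_mul_lcm m e
      have hd' : (m : ℝ) ≠ 0 := by exact_mod_cast hm.ne'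
      have he' : (e : ℝ) ≠ 0 := by exact_mod_cast he.ne'
      have hl' : (Nat.lcm m e : ℝ) ≠ 0 := by exact_mod_cast hl.ne'
      have h2 : (Nat.gcd m e : ℝ) / (m * e) = 1 / (Nat.lcm m e : ℝ) := by
        field_simp
        linarith
      rw [h2]
      ring
    rw [hgl]
    exact IG5.count_class lo hi _ n0 hlh hl
  · rw [if_neg hg]
    have hset : (Finset.Ioc lo hi).filter (fun n : ℕ => m ∣ n ∧ (e : ℤ) ∣ (n : ℤ) - z) = ∅ := by
      apply Finset.filter_eq_empty_iff.mpr
      rintro n _ ⟨h1, h2⟩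
      apply hg
      rw [← Int.natCast_dvd_natCast, ← hz, Int.dvd_natAbs]
      have h3 : ((Nat.gcd m e : ℕ) : ℤ) ∣ (n : ℤ) := by
        exact_mod_cast (Nat.gcd_dvd_left m e).trans h1
      have h4 : ((Nat.gcd m e : ℕ) : ℤ) ∣ (n : ℤ) - z := by
        refine dvd_trans ?_ h2
        exact_mod_cast Nat.gcd_dvd_right m e
      have h5 : z = n - (n - z) := by ring
      rw [h5]
      exact dvd_sub h3 h4
    rw [hset]
    simp

end Pool.Agent.Work.MP_122e00_nt.Two

end

section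

set_option autoImplicit false

/-!
# Item G6: the count theorem for all coefficients
-/

namespace Pool.Agent.Work.MP_122e00_nt.Two

open Finset Filter Topology MeasureTheory

namespace IG6

theorem gc_eq (β w : ℕ → ℝ) (lo hi M Q : ℕ) (z : ℤ) :
    GC β w lo hi M Q z = ∑ m ∈ Finset.Icc 1 M, ∑ e ∈ Finset.Icc 1 Q, β m * w e *
      (((Finset.Ioc lo hi).filter (fun n : ℕ => m ∣ n ∧ (e : ℤ) ∣ (n : ℤ) - z)).card : ℝ) := by
  unfold GC
  simp_rw [Finset.sum_mul_sum]
  rw [Finset.sum_comm]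
  refine Finset.sum_congr rfl fun m _ => ?_
  rw [Finset.sum_comm]
  refine Finset.sum_congr rfl fun e _ => ?_
  rw [Finset.card_filter]
  push_cast
  rw [Finset.mul_sum]
  refine Finset.sum_congr rfl fun n _ => ?_
  by_cases h1 : m ∣ n <;> by_cases h2 : (e : ℤ) ∣ (n : ℤ) - z <;> simp [h1, h2]

theorem gc_add (β β1 β2 w : ℕ → ℝ) (lo hi M Q : ℕ) (z : ℤ)
    (h : ∀ m ∈ Finset.Icc 1 M, β m = β1 m + β2 m) :
    GC β w lo hi M Q z = GC β1 w lo hi M Q z + GC β2 w lo hi M Q z := by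
  rw [gc_eq, gc_eq, gc_eq, ← Finset.sum_add_distrib]
  refine Finset.sum_congr rfl fun m hm => ?_
  rw [← Finset.sum_add_distrib]
  refine Finset.sum_congr rfl fun e _ => ?_
  rw [h m hm]
  ring

theorem gm_add (h : ℕ) (β β1 β2 w : ℕ → ℝ) (M Q : ℕ)
    (hb : ∀ m ∈ Finset.Icc 1 M, β m = β1 m + β2 m) :
    GM h β w M Q = GM h β1 w M Q + GM h β2 w M Q := by
  unfold GM
  rw [← Finset.sum_add_distrib]
  refine Finset.sum_congr rfl fun m hm => ?_
  rw [← Finset.sum_add_distrib]
  refine Finset.sum_congr rfl fun e _ => ?_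
  rw [hb m hm]
  ring

/-- bounds for one density -/
theorem dens (h5 : claimG5) {m e h : ℕ} {z : ℤ} (hm : 0 < m) (he : 0 < e) (hh : h ≠ 0)
    (hz : z.natAbs = h) : 0 ≤ Fh h (Nat.gcd m e) / (m * e) ∧ Fh h (Nat.gcd m e) / (m * e) ≤ 2 := by
  set F := Fh h (Nat.gcd m e) / ((m : ℝ) * e) with hF
  constructor
  · by_contra hcon
    push Not at hcon
    obtain ⟨K, hK⟩ := exists_nat_gt (2 / (-F))
    have h1 := h5 m e 0 K h z hm he (Nat.zero_le _) hh hz
    rw [← hF] at h1
    have h2 := (abs_le.1 h1).2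
    have h3 : (0 : ℝ) ≤ (((Finset.Ioc 0 K).filter
      (fun n : ℕ => m ∣ n ∧ (e : ℤ) ∣ (n : ℤ) - z)).card : ℝ) := by positivity
    have h4 : 2 < K * (-F) := by
      rwa [div_lt_iff₀ (by linarith)] at hK
    push_cast at h2
    linarith
  · have h1 := h5 m e 0 1 h z hm he (Nat.zero_le _) hh hz
    rw [← hF] at h1
    have h2 := (abs_le.1 h1).1
    have h3 : (((Finset.Ioc 0 1).filter
      (fun n : ℕ => m ∣ n ∧ (e : ℤ) ∣ (n : ℤ) - z)).card : ℝ) ≤ 1 := by
      have : ((Finset.Ioc 0 1).filter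
        (fun n : ℕ => m ∣ n ∧ (e : ℤ) ∣ (n : ℤ) - z)).card ≤ (Finset.Ioc 0 1).card :=
        Finset.card_filter_le _ _
      simp only [Nat.card_Ioc, tsub_zero] at this
      exact_mod_cast this
    push_cast at h2
    linarith

/-- the small part -/
theorem small (h5 : claimG5) {h : ℕ} {z : ℤ} (hh : h ≠ 0) (hz : z.natAbs = h) (β w : ℕ → ℝ)
    (lo hi M Q : ℕ) (hlh : lo ≤ hi) (S : ℝ) (hβ : ∀ m, 0 ≤ β m) (hw : ∀ e, 0 ≤ w e)
    (hS : ∑ m ∈ Finset.Icc 1 M, ∑ e ∈ Finset.Icc 1 Q, β m * w e ≤ S) :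
    |GC β w lo hi M Q z - ((hi : ℝ) - lo) * GM h β w M Q| ≤ S ∧
      0 ≤ GM h β w M Q ∧ GM h β w M Q ≤ 2 * S := by
  refine ⟨?_, ?_, ?_⟩
  · rw [gc_eq]
    unfold GM
    rw [Finset.mul_sum, ← Finset.sum_sub_distrib]
    refine (Finset.abs_sum_le_sum_abs _ _).trans (le_trans ?_ hS)
    refine Finset.sum_le_sum fun m hm => ?_
    rw [Finset.mul_sum, ← Finset.sum_sub_distrib]
    refine (Finset.abs_sum_le_sum_abs _ _).trans ?_
    refine Finset.sum_le_sum fun e he => ?_
    have h1 := h5 m e lo hi h z (by have := (Finset.mem_Icc.1 hm).1; omega)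
      (by have := (Finset.mem_Icc.1 he).1; omega) hlh hh hz
    have h2 : β m * w e * (((Finset.Ioc lo hi).filter
        (fun n : ℕ => m ∣ n ∧ (e : ℤ) ∣ (n : ℤ) - z)).card : ℝ) -
        ((hi : ℝ) - lo) * (β m * w e * (Fh h (Nat.gcd m e) / (m * e))) =
        β m * w e * ((((Finset.Ioc lo hi).filter
        (fun n : ℕ => m ∣ n ∧ (e : ℤ) ∣ (n : ℤ) - z)).card : ℝ) -
        ((hi : ℝ) - lo) * (Fh h (Nat.gcd m e) / (m * e))) := by ring
    rw [h2, abs_mul, abs_of_nonneg (mul_nonneg (hβ m) (hw e))]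
    exact mul_le_of_le_one_right (mul_nonneg (hβ m) (hw e)) h1
  · unfold GM
    refine Finset.sum_nonneg fun m hm => Finset.sum_nonneg fun e he => ?_
    exact mul_nonneg (mul_nonneg (hβ m) (hw e))
      (dens h5 (by have := (Finset.mem_Icc.1 hm).1; omega)
        (by have := (Finset.mem_Icc.1 he).1; omega) hh hz).1
  · refine le_trans ?_ (mul_le_mul_of_nonneg_left hS (by norm_num : (0 : ℝ) ≤ 2))
    unfold GM
    rw [Finset.mul_sum]
    refine Finset.sum_le_sum fun m hm => ?_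
    rw [Finset.mul_sum]
    refine Finset.sum_le_sum fun e he => ?_
    have hm1 : 0 < m := by have := (Finset.mem_Icc.1 hm).1; omega
    have he1 : 0 < e := by have := (Finset.mem_Icc.1 he).1; omega
    have h1 := (dens h5 hm1 he1 hh hz).2
    have h2 := mul_le_mul_of_nonneg_left h1 (mul_nonneg (hβ m) (hw e))
    linarith

end IG6

theorem prfG6 : claimG6 := by
  intro h1 h2 h3 h4 h5 h θ lam δ η hh hθ hθ2 hlam hlam2 hδ hδη hη
  obtain ⟨C, hC⟩ := h4 h3 h1 h2 h θ lam δ η hh hθ hθ2 hlam hlam2 hδ hδη hη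
  refine ⟨C + 3, ?_⟩
  filter_upwards [hC, eventually_ge_atTop (1 : ℝ)] with X hX hX1
  intro β w hβ hβy hw hwy z hz
  set y := X ^ (θ / 40) with hy
  set M := ⌊X ^ (1 - θ)⌋₊ with hM
  set Q := ⌊X ^ (1 / 2 - θ)⌋₊ with hQ
  have hX0 : 0 < X := by linarith
  have hy0 : 0 < y := Real.rpow_pos_of_pos hX0 _
  set β1 : ℕ → ℝ := fun m => if (m : ℝ) < X ^ θ then β m else 0 with hβ1
  set β2 : ℕ → ℝ := fun m => if X ^ θ ≤ (m : ℝ) ∧ (m : ℝ) ≤ X ^ (1 - θ) then β m else 0 with hβ2
  have hsplit : ∀ m ∈ Finset.Icc 1 M, β m = β1 m + β2 m := by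
    intro m hm
    have hmM : (m : ℝ) ≤ X ^ (1 - θ) := by
      have h6 := (Finset.mem_Icc.1 hm).2
      have h7 : (m : ℝ) ≤ (M : ℝ) := by exact_mod_cast h6
      exact h7.trans (Nat.floor_le (Real.rpow_nonneg hX0.le _))
    simp only [hβ1, hβ2]
    by_cases hlt : (m : ℝ) < X ^ θ
    · rw [if_pos hlt, if_neg (fun h => absurd h.1 (not_le.2 hlt)), add_zero]
    · rw [if_neg hlt, if_pos ⟨not_lt.1 hlt, hmM⟩, zero_add]
  have hβ1nn : ∀ m, 0 ≤ β1 m := fun m => by
    simp only [hβ1]; split_ifs; exacts [hβ m, le_rfl]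
  have hβ2nn : ∀ m, 0 ≤ β2 m := fun m => by
    simp only [hβ2]; split_ifs; exacts [hβ m, le_rfl]
  have hβ1y : ∀ m, β1 m ≤ y := fun m => by
    simp only [hβ1]; split_ifs; exacts [hβy m, hy0.le]
  have hβ2y : ∀ m, β2 m ≤ y := fun m => by
    simp only [hβ2]; split_ifs; exacts [hβy m, hy0.le]
  have hbig := hX β2 w hβ2nn hβ2y hw hwy (fun m hm => by
    simp only [hβ2] at hm
    by_contra hcon
    rw [if_neg hcon] at hm
    exact hm rfl) z hz
  -- the small part
  set S : ℝ := y ^ 2 * X ^ (1 / 2 : ℝ) with hS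
  have hsum : ∑ m ∈ Finset.Icc 1 M, ∑ e ∈ Finset.Icc 1 Q, β1 m * w e ≤ S := by
    have e1 : ∑ m ∈ Finset.Icc 1 M, ∑ e ∈ Finset.Icc 1 Q, β1 m * w e =
        (∑ m ∈ Finset.Icc 1 M, β1 m) * ∑ e ∈ Finset.Icc 1 Q, w e := by
      rw [Finset.sum_mul_sum]
    have e2 : ∑ m ∈ Finset.Icc 1 M, β1 m ≤ X ^ θ * y := by
      have f1 : ∑ m ∈ Finset.Icc 1 M, β1 m ≤ ∑ m ∈ Finset.Icc 1 ⌊X ^ θ⌋₊, y := by
        calc ∑ m ∈ Finset.Icc 1 M, β1 m
            = ∑ m ∈ (Finset.Icc 1 M).filter (fun m : ℕ => (m : ℝ) < X ^ θ), β1 m := by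
              rw [Finset.sum_filter]
              refine Finset.sum_congr rfl fun m _ => ?_
              simp only [hβ1]
              split_ifs <;> rfl
          _ ≤ ∑ m ∈ (Finset.Icc 1 M).filter (fun m : ℕ => (m : ℝ) < X ^ θ), y :=
              Finset.sum_le_sum fun m _ => hβ1y m
          _ ≤ ∑ m ∈ Finset.Icc 1 ⌊X ^ θ⌋₊, y := by
              refine Finset.sum_le_sum_of_subset_of_nonneg ?_ fun _ _ _ => hy0.le
              intro m hm
              rw [Finset.mem_filter, Finset.mem_Icc] at hm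
              rw [Finset.mem_Icc]
              exact ⟨hm.1.1, Nat.le_floor hm.2.le⟩
      refine f1.trans ?_
      rw [Finset.sum_const, Nat.card_Icc, nsmul_eq_mul]
      refine mul_le_mul_of_nonneg_right ?_ hy0.le
      simp only [Nat.add_sub_cancel]
      exact Nat.floor_le (Real.rpow_nonneg hX0.le _)
    have e3 : ∑ e ∈ Finset.Icc 1 Q, w e ≤ X ^ (1 / 2 - θ) * y := by
      refine (Finset.sum_le_sum fun e _ => hwy e).trans ?_
      rw [Finset.sum_const, Nat.card_Icc, nsmul_eq_mul]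
      refine mul_le_mul_of_nonneg_right ?_ hy0.le
      simp only [Nat.add_sub_cancel]
      exact Nat.floor_le (Real.rpow_nonneg hX0.le _)
    rw [e1]
    refine (mul_le_mul e2 e3 (Finset.sum_nonneg fun e _ => hw e) (by positivity)).trans ?_
    have e4 : X ^ θ * X ^ (1 / 2 - θ) = X ^ (1 / 2 : ℝ) := by
      rw [← Real.rpow_add hX0]
      congr 1
      ring
    rw [hS, ← e4]
    apply le_of_eq
    ring
  have hlh : ⌊δ * X⌋₊ ≤ ⌊η * X⌋₊ := by
    apply Nat.floor_mono
    apply mul_le_mul_of_nonneg_right _ hX0.le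
    nlinarith
  obtain ⟨s1, s2, s3⟩ := IG6.small h5 hh hz β1 w ⌊δ * X⌋₊ ⌊η * X⌋₊ M Q hlh S hβ1nn hw hsum
  have hη0 : 0 ≤ η := le_trans (mul_nonneg hδ (by linarith)) hδη
  have f1 := Nat.floor_le (show 0 ≤ δ * X by positivity)
  have f2 := Nat.lt_floor_add_one (δ * X)
  have f3 := Nat.floor_le (show 0 ≤ η * X by positivity)
  have f4 := Nat.lt_floor_add_one (η * X)
  have hSy : S ≤ X / y := by
    rw [le_div_iff₀ hy0, hS]
    have g1 : y ^ 2 * X ^ (1 / 2 : ℝ) * y = X ^ (3 * (θ / 40) + 1 / 2) := by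
      rw [Real.rpow_add hX0, hy, show X ^ (3 * (θ / 40)) = (X ^ (θ / 40)) ^ 3 by
        rw [← Real.rpow_natCast, ← Real.rpow_mul hX0.le]; congr 1; push_cast; ring]
      ring
    rw [g1]
    calc X ^ (3 * (θ / 40) + 1 / 2) ≤ X ^ (1 : ℝ) :=
          Real.rpow_le_rpow_of_exponent_le hX1 (by linarith)
      _ = X := Real.rpow_one X
  have hS0 : 0 ≤ S := by positivity
  set G1 := GM h β1 w M Q with hG1
  have s1' := abs_le.1 s1
  rw [IG6.gc_add β β1 β2 w _ _ M Q z hsplit, IG6.gm_add h β β1 β2 w M Q hsplit, ← hG1]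
  obtain ⟨b1, b2⟩ := hbig
  set hi : ℝ := (⌊η * X⌋₊ : ℝ) with hhi
  set lo : ℝ := (⌊δ * X⌋₊ : ℝ) with hlo
  constructor
  · have k1 : (η / lam - δ) * X * G1 ≤ (hi - lo) * G1 + G1 := by
      have k2 : (η / lam - δ) * X ≤ hi - lo + 1 := by
        have k3 : η / lam ≤ η := div_le_self hη0 hlam.le
        have k4 : (η / lam - δ) * X ≤ (η - δ) * X :=
          mul_le_mul_of_nonneg_right (by linarith) hX0.le
        linarith
      have := mul_le_mul_of_nonneg_right k2 s2
      linarith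
    have k5 : (η / lam - δ) * X * (G1 + GM h β2 w M Q) = (η / lam - δ) * X * G1 +
      (η / lam - δ) * X * GM h β2 w M Q := by ring
    rw [k5]
    have k6 : (C + 3) * (X / y) = C * (X / y) + 3 * (X / y) := by ring
    rw [k6]
    linarith [s1'.1]
  · have k1 : (hi - lo) * G1 ≤ (lam * η - δ) * X * G1 + G1 := by
      have k2 : hi - lo ≤ (lam * η - δ) * X + 1 := by
        have k3 : η ≤ lam * η := le_mul_of_one_le_left hη0 hlam.le
        have k4 : (η - δ) * X ≤ (lam * η - δ) * X :=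
          mul_le_mul_of_nonneg_right (by linarith) hX0.le
        linarith
      have := mul_le_mul_of_nonneg_right k2 s2
      linarith
    have k5 : (lam * η - δ) * X * (G1 + GM h β2 w M Q) = (lam * η - δ) * X * G1 +
      (lam * η - δ) * X * GM h β2 w M Q := by ring
    rw [k5]
    have k6 : (C + 3) * (X / y) = C * (X / y) + 3 * (X / y) := by ring
    rw [k6]
    linarith [s1'.2]

end Pool.Agent.Work.MP_122e00_nt.Two

end
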