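import Pool.Agent.Work.MP_122e00_nt.Two.Stmts
import Pool.Agent.Work.MP_122e00_nt.Count
import Pool.Agent.Work.MP_122e00_nt.Bdx.B07
import Pool.Agent.Work.MP_122e00_nt.Two.StmtsTail
import Pool.Agent.Work.MP_122e00_nt.Bd.B40
import Pool.Agent.Work.MP_122e00_nt.Two.ItemL5

/-! Bundle of small proof modules (one section per former module). -/

section

set_option autoImplicit false

/-!
# Shifted divisor sums with marks: item T5
-/

namespace Pool.Agent.Work.MP_122e00_nt.Two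

open Finset Filter Topology MeasureTheory

open scoped ArithmeticFunction.vonMangoldt ArithmeticFunction.zeta

theorem prfT5 : claimT5 := by
  intro s n hn
  rw [zeta_pow_apply]
  have hmax : ∀ v : Fin (s + 1) → ℕ, ∃ i, ∀ j, v j ≤ v i := fun v => Finite.exists_max v
  choose f hf using hmax
  set T' : Finset (Fin s → ℕ) := (Fintype.piFinset (fun _ : Fin s => n.divisors)).filter
        (fun a => (∏ i, a i) ∣ n ∧ ∀ j, a j * (∏ i, a i) ≤ n) with hT'
  have h1 : (s + 1) * T'.card = ((Finset.univ : Finset (Fin (s + 1))) ×ˢ T').card := by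
    rw [Finset.card_product, Finset.card_univ, Fintype.card_fin]
  rw [h1]
  apply Finset.card_le_card_of_injOn (fun v => (f v, fun j => v ((f v).succAbove j)))
  · intro v hv
    rw [Finset.mem_coe, Nat.mem_finMulAntidiag] at hv
    have hprod : v (f v) * ∏ j, v ((f v).succAbove j) = n := by
      rw [← Fin.prod_univ_succAbove _ (f v)]
      exact hv.1
    simp only [Finset.coe_product, Set.mem_prod, Finset.mem_coe, Finset.mem_univ, true_and, hT',
      Finset.mem_filter, Fintype.mem_piFinset, Nat.mem_divisors]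
    refine ⟨fun j => ⟨?_, hn⟩, ⟨v (f v), ?_⟩, fun j => ?_⟩
    · rw [← hv.1]
      exact Finset.dvd_prod_of_mem _ (Finset.mem_univ _)
    · rw [mul_comm]
      exact hprod.symm
    · calc v ((f v).succAbove j) * ∏ i, v ((f v).succAbove i)
          ≤ v (f v) * ∏ i, v ((f v).succAbove i) := Nat.mul_le_mul_right _ (hf v _)
        _ = n := hprod
  · intro v hv w hw hvw
    rw [Finset.mem_coe, Nat.mem_finMulAntidiag] at hv hw
    simp only [Prod.mk.injEq] at hvw
    obtain ⟨h2, h3⟩ := hvw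
    have hpv : v (f v) * ∏ j, v ((f v).succAbove j) = n := by
      rw [← Fin.prod_univ_succAbove _ (f v)]
      exact hv.1
    have hpw : w (f w) * ∏ j, w ((f w).succAbove j) = n := by
      rw [← Fin.prod_univ_succAbove _ (f w)]
      exact hw.1
    have h4 : ∀ j, v ((f v).succAbove j) = w ((f w).succAbove j) := fun j => congrFun h3 j
    have hpe : ∏ j, v ((f v).succAbove j) = ∏ j, w ((f w).succAbove j) :=
      Finset.prod_congr rfl fun j _ => h4 j
    have hne : ∏ j, w ((f w).succAbove j) ≠ 0 := by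
      intro h0
      rw [h0, mul_zero] at hpw
      exact hn hpw.symm
    have h5 : v (f v) = w (f w) := by
      rw [hpe] at hpv
      exact Nat.eq_of_mul_eq_mul_right (Nat.pos_of_ne_zero hne) (hpv.trans hpw.symm)
    funext i
    rcases eq_or_ne i (f v) with rfl | hi
    · rw [h5, h2]
    · obtain ⟨j, rfl⟩ := Fin.exists_succAbove_eq hi
      rw [h4 j, h2]

end Pool.Agent.Work.MP_122e00_nt.Two

end

section

set_option autoImplicit false

namespace Pool.Agent.Work.MP_122e00_nt.Two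

open Finset Filter Topology MeasureTheory

namespace IA3

variable {s : ℕ}

/-- the weight on products -/
noncomputable def ww (ψ : (Fin s → ℝ) → ℝ) (X : ℝ) (Q e : ℕ) : ℝ :=
  if e ∈ Finset.Icc 1 Q then ∑ b ∈ tup s X, (if ∏ i, b i = e then ψ (lg X b) else 0) else 0

theorem pos_of_mem_tup {X : ℝ} {b : Fin s → ℕ} (hb : b ∈ tup s X) (i : Fin s) : 1 ≤ b i := by
  rw [tup, Fintype.mem_piFinset] at hb
  exact (Finset.mem_Icc.1 (hb i)).1

theorem prod_pos_of_mem_tup {X : ℝ} {b : Fin s → ℕ} (hb : b ∈ tup s X) : 1 ≤ ∏ i, b i :=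
  Finset.one_le_prod' fun i _ => pos_of_mem_tup hb i

theorem prod_mem {θ : ℝ} {ψ : (Fin s → ℝ) → ℝ} (hψ : Wt s θ ψ) {X : ℝ} (hX : 1 < X)
    {b : Fin s → ℕ} (hb : b ∈ tup s X) (h0 : ψ (lg X b) ≠ 0) :
    ∏ i, b i ∈ Finset.Icc 1 ⌊X ^ (1 / 2 - θ)⌋₊ := by
  rw [Finset.mem_Icc]
  refine ⟨prod_pos_of_mem_tup hb, Nat.le_floor ?_⟩
  have h1 := (hψ.supp _ h0).2
  have hlX : 0 < Real.log X := Real.log_pos hX
  have h2 : ∑ i, lg X b i = Real.log ((∏ i, b i : ℕ) : ℝ) / Real.log X := by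
    simp only [lg]
    rw [← Finset.sum_div]
    congr 1
    push_cast
    rw [Real.log_prod]
    intro i _
    have := pos_of_mem_tup hb i
    positivity
  rw [h2, div_le_iff₀ hlX] at h1
  have h3 : (0 : ℝ) < ((∏ i, b i : ℕ) : ℝ) := by
    exact_mod_cast prod_pos_of_mem_tup hb
  rw [← Real.log_rpow (by linarith)] at h1
  exact (Real.log_le_log_iff h3 (Real.rpow_pos_of_pos (by linarith) _)).1 h1

theorem Apsi_eq {θ : ℝ} {ψ : (Fin s → ℝ) → ℝ} (hψ : Wt s θ ψ) {X : ℝ} (hX : 1 < X)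
    (z : ℤ) (n : ℕ) : Apsi ψ X z n = ∑ e ∈ Finset.Icc 1 ⌊X ^ (1 / 2 - θ)⌋₊,
      if (e : ℤ) ∣ (n : ℤ) - z then ww ψ X ⌊X ^ (1 / 2 - θ)⌋₊ e else 0 := by
  have h1 : ∀ e ∈ Finset.Icc 1 ⌊X ^ (1 / 2 - θ)⌋₊,
      (if (e : ℤ) ∣ (n : ℤ) - z then ww ψ X ⌊X ^ (1 / 2 - θ)⌋₊ e else 0) =
      ∑ b ∈ tup s X, (if ∏ i, b i = e then
        (if ((∏ i, b i : ℕ) : ℤ) ∣ (n : ℤ) - z then ψ (lg X b) else 0) else 0) := by
    intro e he
    rw [ww, if_pos he]
    split_ifs with hd
    · refine Finset.sum_congr rfl fun b _ => ?_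
      by_cases hbe : ∏ i, b i = e
      · rw [if_pos hbe, if_pos hbe, hbe, if_pos hd]
      · rw [if_neg hbe, if_neg hbe]
    · symm
      refine Finset.sum_eq_zero fun b _ => ?_
      by_cases hbe : ∏ i, b i = e
      · rw [if_pos hbe, hbe, if_neg hd]
      · rw [if_neg hbe]
  rw [Finset.sum_congr rfl h1, Finset.sum_comm, Apsi]
  refine Finset.sum_congr rfl fun b hb => ?_
  rw [Finset.sum_ite_eq]
  by_cases h0 : ψ (lg X b) = 0
  · simp [h0]
  · rw [if_pos (prod_mem hψ hX hb h0)]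

theorem ww_nonneg {ψ : (Fin s → ℝ) → ℝ} (hψ : ∀ y, 0 ≤ ψ y) (X : ℝ) (Q e : ℕ) :
    0 ≤ ww ψ X Q e := by
  unfold ww
  split_ifs
  · refine Finset.sum_nonneg fun b _ => ?_
    split_ifs
    · exact hψ _
    · exact le_rfl
  · exact le_rfl

theorem ww_le {ψ : (Fin s → ℝ) → ℝ} {B : ℝ} (hB : 0 ≤ B) (hψ : ∀ y, ψ y ≤ B) (X : ℝ)
    (Q e : ℕ) : ww ψ X Q e ≤ if e ∈ Finset.Icc 1 Q then B * (e.divisors.card : ℝ) ^ s else 0 := by
  unfold ww
  split_ifs with he
  · have he0 : e ≠ 0 := by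
      have := (Finset.mem_Icc.1 he).1
      omega
    calc ∑ b ∈ tup s X, (if ∏ i, b i = e then ψ (lg X b) else 0)
        ≤ ∑ b ∈ tup s X, (if ∏ i, b i = e then B else 0) := by
          refine Finset.sum_le_sum fun b _ => ?_
          split_ifs
          · exact hψ _
          · exact le_rfl
      _ = (((tup s X).filter fun b => ∏ i, b i = e).card : ℝ) * B := by
          rw [← Finset.sum_filter, Finset.sum_const, nsmul_eq_mul]
      _ ≤ ((e.divisors.card : ℝ) ^ s) * B := by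
          refine mul_le_mul_of_nonneg_right ?_ hB
          have hsub : (tup s X).filter (fun b => ∏ i, b i = e) ⊆
              Fintype.piFinset (fun _ : Fin s => e.divisors) := by
            intro b hb
            rw [Finset.mem_filter] at hb
            rw [Fintype.mem_piFinset]
            intro i
            rw [Nat.mem_divisors]
            exact ⟨hb.2 ▸ Finset.dvd_prod_of_mem b (Finset.mem_univ i), he0⟩
          have hc := Finset.card_le_card hsub
          rw [Fintype.card_piFinset_const] at hc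
          exact_mod_cast hc
      _ = B * (e.divisors.card : ℝ) ^ s := mul_comm _ _
  · exact le_rfl

theorem sum_ww_le {ψ : (Fin s → ℝ) → ℝ} {B : ℝ} (hψ0 : ∀ y, 0 ≤ ψ y)
    (hψ : ∀ y, ψ y ≤ B) {X : ℝ} (hX : 1 ≤ X) (Q : ℕ) :
    ∑ e ∈ Finset.Icc 1 Q, ww ψ X Q e / e ≤ B * (1 + Real.log X) ^ s := by
  have hB : 0 ≤ B := (hψ0 0).trans (hψ 0)
  have h1 : ∀ e ∈ Finset.Icc 1 Q, ww ψ X Q e / e =
      ∑ b ∈ tup s X, (if ∏ i, b i = e then ψ (lg X b) / ((∏ i, b i : ℕ) : ℝ) else 0) := by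
    intro e he
    rw [ww, if_pos he, Finset.sum_div]
    refine Finset.sum_congr rfl fun b _ => ?_
    by_cases hbe : ∏ i, b i = e
    · rw [if_pos hbe, if_pos hbe, hbe]
    · rw [if_neg hbe, if_neg hbe, zero_div]
  rw [Finset.sum_congr rfl h1, Finset.sum_comm]
  calc ∑ b ∈ tup s X, ∑ e ∈ Finset.Icc 1 Q,
        (if ∏ i, b i = e then ψ (lg X b) / ((∏ i, b i : ℕ) : ℝ) else 0)
      ≤ ∑ b ∈ tup s X, B * ∏ i, (1 / (b i : ℝ)) := by
        refine Finset.sum_le_sum fun b hb => ?_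
        rw [Finset.sum_ite_eq]
        have h2 : ∏ i, (1 / (b i : ℝ)) = 1 / ((∏ i, b i : ℕ) : ℝ) := by
          push_cast
          rw [Finset.prod_div_distrib, Finset.prod_const_one]
        have h3 : (0 : ℝ) ≤ 1 / ((∏ i, b i : ℕ) : ℝ) := by positivity
        split_ifs
        · rw [h2, div_eq_mul_one_div]
          exact mul_le_mul_of_nonneg_right (hψ _) h3
        · rw [h2]
          exact mul_nonneg hB h3
    _ = B * (∏ _i : Fin s, ∑ b ∈ Finset.Icc 1 ⌊X⌋₊, (1 / (b : ℝ))) := by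
        rw [← Finset.mul_sum, Finset.prod_univ_sum]
        rfl
    _ ≤ B * (1 + Real.log X) ^ s := by
        refine mul_le_mul_of_nonneg_left ?_ hB
        rw [Finset.prod_const, Finset.card_univ, Fintype.card_fin]
        have h4 : ∑ b ∈ Finset.Icc 1 ⌊X⌋₊, (1 / (b : ℝ)) ≤ 1 + Real.log X := by
          have h5 := harmonic_floor_le_one_add_log X hX
          rw [harmonic_eq_sum_Icc] at h5
          push_cast at h5
          simpa [one_div] using h5
        have h6 : 0 ≤ ∑ b ∈ Finset.Icc 1 ⌊X⌋₊, (1 / (b : ℝ)) :=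
          Finset.sum_nonneg fun _ _ => by positivity
        exact pow_le_pow_left₀ h6 h4 s

theorem GM_le {h : ℕ} (hh : h ≠ 0) {β w : ℕ → ℝ} (hβ : ∀ m, 0 ≤ β m) (hw : ∀ e, 0 ≤ w e)
    (M Q : ℕ) : GM h β w M Q ≤
      h * ((∑ m ∈ Finset.Icc 1 M, β m / m) * (∑ e ∈ Finset.Icc 1 Q, w e / e)) := by
  rw [GM, Finset.sum_mul_sum, Finset.mul_sum]
  refine Finset.sum_le_sum fun m _ => ?_
  rw [Finset.mul_sum]
  refine Finset.sum_le_sum fun e _ => ?_
  have h1 : Fh h (Nat.gcd m e) ≤ h := Fh_le h _ hh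
  have h2 : β m * w e * (Fh h (Nat.gcd m e) / (m * e)) ≤ β m * w e * ((h : ℝ) / (m * e)) := by
    have : 0 ≤ β m * w e := mul_nonneg (hβ m) (hw e)
    gcongr
  refine h2.trans (le_of_eq ?_)
  rw [div_mul_div_comm]
  ring

end IA3

theorem prfA3 : claimA3 := by
  intro hGC s h θ hh hθ hθ2 ψ hψ
  obtain ⟨B, hB⟩ := hψ.bdd
  have hB0 : 0 ≤ B := (hψ.nonneg 0).trans (hB 0)
  obtain ⟨C, hC⟩ := hGC h θ 2 0 1 hh hθ hθ2.le (by norm_num) le_rfl le_rfl (by norm_num) le_rfl
  refine ⟨2 * h * B * 2 ^ s + |C|, ?_⟩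
  have hθ80 : 0 < θ / 80 := by positivity
  have hBX : ∀ᶠ X : ℝ in atTop, B ≤ X ^ (θ / 80) :=
    (tendsto_rpow_atTop hθ80).eventually_ge_atTop _
  have hlog1 : ∀ᶠ X : ℝ in atTop, 1 ≤ Real.log X := Real.tendsto_log_atTop.eventually_ge_atTop 1
  filter_upwards [hC, hBX, hlog1, eventually_gt_atTop 1, divisor_bound s hθ80]
    with X hX hBX hlog hX1 hdiv
  intro z hz β hβ0 hβ
  have hX0 : 0 < X := by linarith
  set Q := ⌊X ^ (1 / 2 - θ)⌋₊ with hQ
  set M := ⌊X ^ (1 - θ)⌋₊ with hM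
  have hw0 : ∀ e, 0 ≤ IA3.ww ψ X Q e := IA3.ww_nonneg hψ.nonneg X Q
  have hw : ∀ e, IA3.ww ψ X Q e ≤ X ^ (θ / 40) := by
    intro e
    refine (IA3.ww_le hB0 hB X Q e).trans ?_
    split_ifs with he
    · have he1 := (Finset.mem_Icc.1 he)
      have heX : (e : ℝ) ≤ X := by
        have h1 : (e : ℝ) ≤ X ^ (1 / 2 - θ) :=
          (Nat.cast_le.2 he1.2).trans (Nat.floor_le (Real.rpow_nonneg hX0.le _))
        have h2 : X ^ (1 / 2 - θ) ≤ X ^ (1 : ℝ) :=
          Real.rpow_le_rpow_of_exponent_le hX1.le (by linarith)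
        rw [Real.rpow_one] at h2
        linarith
      have h3 := hdiv e (by omega) heX
      calc B * (e.divisors.card : ℝ) ^ s ≤ X ^ (θ / 80) * X ^ (θ / 80) := by
            gcongr
        _ = X ^ (θ / 40) := by
            rw [← Real.rpow_add hX0]
            congr 1
            ring
    · exact Real.rpow_nonneg hX0.le _
  have key := (hX β (IA3.ww ψ X Q) hβ0 hβ hw0 hw z hz).2
  have hfl : ⌊(0 : ℝ) * X⌋₊ = 0 := by simp
  have hIoc : Finset.Ioc 0 ⌊X⌋₊ = Finset.Icc 1 ⌊X⌋₊ := by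
    ext n
    simp only [Finset.mem_Ioc, Finset.mem_Icc]
    omega
  have hLHS : ∑ n ∈ Finset.Icc 1 ⌊X⌋₊, Apsi ψ X z n *
      (∑ m ∈ Finset.Icc 1 M, if m ∣ n then β m else 0) =
      GC β (IA3.ww ψ X Q) ⌊(0 : ℝ) * X⌋₊ ⌊(1 : ℝ) * X⌋₊ M Q z := by
    rw [GC, hfl, one_mul, hIoc]
    refine Finset.sum_congr rfl fun n _ => ?_
    rw [IA3.Apsi_eq hψ hX1, mul_comm]
  rw [hLHS]
  refine key.trans ?_
  have hS0 : 0 ≤ ∑ m ∈ Finset.Icc 1 M, β m / m :=
    Finset.sum_nonneg fun m _ => div_nonneg (hβ0 m) (Nat.cast_nonneg _)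
  have hS1 : 0 ≤ ∑ e ∈ Finset.Icc 1 Q, IA3.ww ψ X Q e / e :=
    Finset.sum_nonneg fun m _ => div_nonneg (hw0 m) (Nat.cast_nonneg _)
  have hGM := IA3.GM_le hh hβ0 hw0 M Q
  have hsum := IA3.sum_ww_le hψ.nonneg hB hX1.le Q
  have hlogs : (1 + Real.log X) ^ s ≤ 2 ^ s * (Real.log X) ^ s := by
    rw [← mul_pow]
    exact pow_le_pow_left₀ (by linarith) (by linarith) s
  have hY : 0 ≤ X / X ^ (θ / 40) := div_nonneg hX0.le (Real.rpow_nonneg hX0.le _)
  have hh0 : (0 : ℝ) ≤ h := Nat.cast_nonneg _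
  have hlogp : 0 ≤ (Real.log X) ^ s := pow_nonneg (by linarith) s
  have step1 : (2 * 1 - 0) * X * GM h β (IA3.ww ψ X Q) M Q ≤
      2 * h * B * 2 ^ s * X * (Real.log X) ^ s * (∑ m ∈ Finset.Icc 1 M, β m / m) := by
    have e1 : GM h β (IA3.ww ψ X Q) M Q ≤
        h * ((∑ m ∈ Finset.Icc 1 M, β m / m) * (B * (2 ^ s * (Real.log X) ^ s))) := by
      refine hGM.trans ?_
      have e2 : (∑ e ∈ Finset.Icc 1 Q, IA3.ww ψ X Q e / e) ≤ B * (2 ^ s * (Real.log X) ^ s) :=
        hsum.trans (mul_le_mul_of_nonneg_left hlogs hB0)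
      gcongr
    calc (2 * 1 - 0) * X * GM h β (IA3.ww ψ X Q) M Q
        ≤ (2 * 1 - 0) * X *
          (h * ((∑ m ∈ Finset.Icc 1 M, β m / m) * (B * (2 ^ s * (Real.log X) ^ s)))) :=
          mul_le_mul_of_nonneg_left e1 (by linarith)
      _ = _ := by ring
  have step2 : C * (X / X ^ (θ / 40)) ≤ |C| * (X / X ^ (θ / 40)) :=
    mul_le_mul_of_nonneg_right (le_abs_self C) hY
  have step3 : 0 ≤ |C| * X * (Real.log X) ^ s * (∑ m ∈ Finset.Icc 1 M, β m / m) := by
    have := abs_nonneg C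
    positivity
  have step4 : 0 ≤ 2 * h * B * 2 ^ s * (X / X ^ (θ / 40)) := by positivity
  have e5 : (2 * h * B * 2 ^ s + |C|) * X * (Real.log X) ^ s *
      (∑ m ∈ Finset.Icc 1 M, β m / m) =
      2 * h * B * 2 ^ s * X * (Real.log X) ^ s * (∑ m ∈ Finset.Icc 1 M, β m / m) +
      |C| * X * (Real.log X) ^ s * (∑ m ∈ Finset.Icc 1 M, β m / m) := by ring
  have e6 : (2 * h * B * 2 ^ s + |C|) * (X / X ^ (θ / 40)) =
      2 * h * B * 2 ^ s * (X / X ^ (θ / 40)) + |C| * (X / X ^ (θ / 40)) := by ring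
  rw [e5, e6]
  linarith

end Pool.Agent.Work.MP_122e00_nt.Two

end

section

set_option autoImplicit false

/-!
# U2: the last mark is summed out
-/

namespace Pool.Agent.Work.MP_122e00_nt.Two

open Finset Filter Topology MeasureTheory

open scoped ArithmeticFunction.vonMangoldt ArithmeticFunction.zeta

namespace IU2

theorem FL_cons {s : ℕ} (k : ℕ) (T a : ℝ) (x : Fin (k + 1) → ℝ) (v : Fin (s + 1) → ℝ) :
    FL (s := s) (k + 1) T (Fin.cons a x) v = FL (s := s) k (T - a) x v := by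
  have h : ∑ j : Fin (k + 1), (Fin.cons a x : Fin (k + 2) → ℝ) (Fin.castSucc j) =
      a + ∑ j : Fin k, x (Fin.castSucc j) := by
    rw [Fin.sum_univ_succ]
    congr 1
  unfold FL
  rw [h]
  congr 1
  rw [lt_sub_iff_add_lt, add_comm]

theorem FT_cons {s : ℕ} (k : ℕ) (T a : ℝ) (x : Fin k → ℝ) (v : Fin (s + 1) → ℝ) :
    FT (s := s) (k + 1) T (Fin.cons a x) v = FT (s := s) k (T - a) x v := by
  have h : ∑ j : Fin (k + 1), (Fin.cons a x : Fin (k + 1) → ℝ) j =
      a + ∑ j : Fin k, x j := by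
    rw [Fin.sum_univ_succ]
    congr 1
  unfold FT
  rw [h]
  congr 1
  rw [lt_sub_iff_add_lt, add_comm]

theorem TS_zero_const (L : ℝ) (s n : ℕ) (c : ℝ) :
    TS L s 0 n (fun _ _ => c) = c * (((ζ : ArithmeticFunction ℕ) ^ (s + 1)) n : ℝ) := by
  rw [zeta_pow_apply]
  show ∑ v ∈ Nat.finMulAntidiag (s + 1) n, c = _
  rw [Finset.sum_const, nsmul_eq_mul, mul_comm]

end IU2

open IU2 in
/-- U2: the last mark is summed out. -/
theorem prfU2 : claimU2 := by
  intro s k
  induction k with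
  | zero =>
    intro n L T hL hn
    have hc : ∃ c : ℝ, 0 ≤ c ∧ (∀ x v, FL (s := s) 0 T x v = c) ∧
        (∀ x v, FT (s := s) 0 T x v = c) := by
      refine ⟨if (0 : ℝ) < T then 1 else 0, ?_, ?_, ?_⟩
      · split_ifs <;> norm_num
      · intro x v
        unfold FL
        simp
      · intro x v
        unfold FT
        simp
    obtain ⟨c, hc0, hc1, hc2⟩ := hc
    have e1 : TS L s 0 n (FT 0 T) = c * (((ζ : ArithmeticFunction ℕ) ^ (s + 1)) n : ℝ) := by
      rw [← TS_zero_const L s n c]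
      congr 1
      funext x v
      exact hc2 x v
    have e2 : TS L s (0 + 1) n (FL 0 T) = ∑ d ∈ n.divisors, (Λ d / Real.log n) *
        (c * (((ζ : ArithmeticFunction ℕ) ^ (s + 1)) (n / d) : ℝ)) := by
      show ∑ d ∈ n.divisors, (Λ d / Real.log n) *
        TS L s 0 (n / d) (fun x v => FL 0 T (Fin.cons (Real.log d / L) x) v) = _
      refine Finset.sum_congr rfl fun d _ => ?_
      rw [← TS_zero_const L s (n / d) c]
      congr 2
      funext x v
      exact hc1 _ v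
    rw [e1, e2]
    have e3 : ∑ d ∈ n.divisors, (Λ d / Real.log n) *
        (c * (((ζ : ArithmeticFunction ℕ) ^ (s + 1)) (n / d) : ℝ)) =
        (c / Real.log n) * ∑ d ∈ n.divisors,
          Λ d * (((ζ : ArithmeticFunction ℕ) ^ (s + 1)) (n / d) : ℝ) := by
      rw [Finset.mul_sum]
      refine Finset.sum_congr rfl fun d _ => ?_
      ring
    rw [e3, IT3.ident s n]
    have hz : (0 : ℝ) ≤ (((ζ : ArithmeticFunction ℕ) ^ (s + 1)) n : ℝ) := Nat.cast_nonneg _
    rcases eq_or_ne (Real.log n) 0 with h0 | h0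
    · rw [h0, div_zero, zero_mul]
      positivity
    · apply le_of_eq
      field_simp
  | succ k ih =>
    intro n L T hL hn
    have hlog : 0 ≤ Real.log n := Real.log_natCast_nonneg n
    show ∑ d ∈ n.divisors, (Λ d / Real.log n) *
        TS L s (k + 1) (n / d) (fun x v => FL (k + 1) T (Fin.cons (Real.log d / L) x) v) ≤
      (∑ d ∈ n.divisors, (Λ d / Real.log n) *
        TS L s k (n / d) (fun x v => FT (k + 1) T (Fin.cons (Real.log d / L) x) v)) / (s + 1)
    rw [Finset.sum_div]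
    refine Finset.sum_le_sum fun d hd => ?_
    have hd0 : n / d ≠ 0 := by
      obtain ⟨h1, _⟩ := Nat.mem_divisors.1 hd
      have h2 : d ≤ n := Nat.le_of_dvd (Nat.pos_of_ne_zero hn) h1
      have h3 : 0 < d := Nat.pos_of_mem_divisors hd
      exact (Nat.div_pos h2 h3).ne'
    have f1 : (fun (x : Fin (k + 1) → ℝ) (v : Fin (s + 1) → ℝ) =>
        FL (s := s) (k + 1) T (Fin.cons (Real.log d / L) x) v) =
        FL (s := s) k (T - Real.log d / L) := by
      funext x v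
      exact FL_cons k T _ x v
    have f2 : (fun (x : Fin k → ℝ) (v : Fin (s + 1) → ℝ) =>
        FT (s := s) (k + 1) T (Fin.cons (Real.log d / L) x) v) =
        FT (s := s) k (T - Real.log d / L) := by
      funext x v
      exact FT_cons k T _ x v
    rw [f1, f2, mul_div_assoc]
    exact mul_le_mul_of_nonneg_left (ih (n / d) L _ hL hd0)
      (div_nonneg ArithmeticFunction.vonMangoldt_nonneg hlog)

end Pool.Agent.Work.MP_122e00_nt.Two

end

section

set_option autoImplicit false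

namespace Pool.Agent.Work.MP_122e00_nt.Two

open Finset Filter Topology MeasureTheory

open scoped ArithmeticFunction.vonMangoldt ArithmeticFunction.zeta

theorem prfU3 : claimU3 := by
  intro k
  induction k with
  | zero =>
    intro m hm
    rw [pow_zero, pow_zero, ArithmeticFunction.one_apply]
    split_ifs <;> norm_num
  | succ k ih =>
    intro m hm
    rw [pow_succ, ArithmeticFunction.mul_apply]
    have key : ∀ x ∈ m.divisorsAntidiagonal, 0 ≤ (Λ ^ k : ArithmeticFunction ℝ) x.1 * Λ x.2 ∧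
        (Λ ^ k : ArithmeticFunction ℝ) x.1 * Λ x.2 ≤ (Real.log m) ^ k * Λ x.2 := by
      intro x hx
      rw [Nat.mem_divisorsAntidiagonal] at hx
      have h1 : x.1 ≠ 0 := by
        intro h
        rw [h, zero_mul] at hx
        exact hm hx.1.symm
      obtain ⟨h2, h3⟩ := ih x.1 h1
      have h4 : 0 ≤ Λ x.2 := ArithmeticFunction.vonMangoldt_nonneg
      refine ⟨mul_nonneg h2 h4, mul_le_mul_of_nonneg_right (h3.trans ?_) h4⟩
      have h5 : x.1 ≤ m := Nat.le_of_dvd (Nat.pos_of_ne_zero hm) ⟨x.2, hx.1.symm⟩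
      have h6 : (1 : ℝ) ≤ x.1 := by exact_mod_cast Nat.one_le_iff_ne_zero.mpr h1
      refine pow_le_pow_left₀ (Real.log_nonneg h6) (Real.log_le_log (by linarith) ?_) k
      exact_mod_cast h5
    refine ⟨Finset.sum_nonneg fun x hx => (key x hx).1, ?_⟩
    refine (Finset.sum_le_sum fun x hx => (key x hx).2).trans ?_
    rw [← Finset.mul_sum, Nat.sum_divisorsAntidiagonal' (f := fun _ b => Λ b),
      ArithmeticFunction.vonMangoldt_sum, pow_succ]

end Pool.Agent.Work.MP_122e00_nt.Two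

end

section

set_option autoImplicit false

/-!
# U4: the sum of `Λ(d) d ^ (-1-σ)`
-/

namespace Pool.Agent.Work.MP_122e00_nt.Two

open Finset Filter Topology MeasureTheory

open scoped ArithmeticFunction.vonMangoldt ArithmeticFunction.zeta

namespace IU4

theorem geo (J : ℕ) : ∑ j ∈ range J, Real.exp (-(j : ℝ)) ≤ 2 := by
  have h1 : ∀ j : ℕ, Real.exp (-(j : ℝ)) = (Real.exp (-1)) ^ j := by
    intro j
    rw [← Real.exp_nat_mul]
    congr 1
    ring
  have h2 : Real.exp (-1) ≤ 1 / 2 := by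
    rw [Real.exp_neg, inv_eq_one_div]
    have := Real.exp_one_gt_d9
    exact one_div_le_one_div_of_le (by norm_num) (by linarith)
  have h3 : ∀ j ∈ range J, Real.exp (-(j : ℝ)) ≤ (1 / 2 : ℝ) ^ j := by
    intro j _
    rw [h1]
    exact pow_le_pow_left₀ (Real.exp_pos _).le h2 j
  refine (sum_le_sum h3).trans ?_
  have hs : Summable fun j : ℕ => (1 / 2 : ℝ) ^ j := summable_geometric_two
  refine (hs.sum_le_tsum _ (fun i _ => by positivity)).trans ?_
  rw [tsum_geometric_two]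

theorem main (C₀ : ℝ) (hC : ∀ x : ℝ, 1 ≤ x →
    |∑ d ∈ Icc 1 ⌊x⌋₊, Λ d / (d : ℝ) - Real.log x| ≤ C₀) (σ : ℝ) (hσ : 0 < σ) (J : ℕ) :
    ∑ d ∈ Icc 1 ⌊Real.exp (J / σ)⌋₊, Λ d / (d : ℝ) * (d : ℝ) ^ (-σ) ≤
      (1 / σ + 2 * C₀) * ∑ j ∈ range J, Real.exp (-(j : ℝ)) := by
  induction J with
  | zero =>
    simp
  | succ J ih =>
    set u : ℝ := Real.exp ((J : ℝ) / σ) with hu
    set v : ℝ := Real.exp (((J + 1 : ℕ) : ℝ) / σ) with hv
    have hu1 : 1 ≤ u := by
      rw [hu]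
      exact Real.one_le_exp (by positivity)
    have huv : u ≤ v := by
      rw [hu, hv]
      apply Real.exp_le_exp.2
      push_cast
      gcongr
      linarith
    have hv1 : 1 ≤ v := hu1.trans huv
    have hfl : ⌊u⌋₊ ≤ ⌊v⌋₊ := Nat.floor_mono huv
    have hu1' : 1 ≤ ⌊u⌋₊ := by
      rw [Nat.one_le_floor_iff]
      exact hu1
    have hsplit : ∀ f : ℕ → ℝ, ∑ d ∈ Icc 1 ⌊v⌋₊, f d =
        ∑ d ∈ Icc 1 ⌊u⌋₊, f d + ∑ d ∈ Ioc ⌊u⌋₊ ⌊v⌋₊, f d := by
      intro f
      have e1 : Icc 1 ⌊u⌋₊ = Ioc 0 ⌊u⌋₊ := by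
        ext n; simp only [mem_Icc, mem_Ioc]; omega
      have e2 : Icc 1 ⌊v⌋₊ = Ioc 0 ⌊v⌋₊ := by
        ext n; simp only [mem_Icc, mem_Ioc]; omega
      rw [e1, e2, sum_Ioc_consecutive f (Nat.zero_le _) hfl]
    rw [hsplit, sum_range_succ, mul_add]
    refine add_le_add ih ?_
    have h1 : ∀ d ∈ Ioc ⌊u⌋₊ ⌊v⌋₊, Λ d / (d : ℝ) * (d : ℝ) ^ (-σ) ≤
        Λ d / (d : ℝ) * Real.exp (-(J : ℝ)) := by
      intro d hd
      rw [mem_Ioc] at hd
      have hd0 : 0 < d := by omega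
      have hdR : (0:ℝ) < d := by exact_mod_cast hd0
      have hud : u < d := (Nat.floor_lt (by linarith)).1 hd.1
      refine mul_le_mul_of_nonneg_left ?_
        (div_nonneg ArithmeticFunction.vonMangoldt_nonneg hdR.le)
      rw [Real.rpow_def_of_pos hdR]
      apply Real.exp_le_exp.2
      have h2 : (J : ℝ) / σ ≤ Real.log d := by
        rw [Real.le_log_iff_exp_le hdR]
        exact hud.le
      rw [div_le_iff₀ hσ] at h2
      linarith
    refine (sum_le_sum h1).trans ?_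
    rw [← sum_mul]
    refine mul_le_mul_of_nonneg_right ?_ (Real.exp_pos _).le
    have a1 := (abs_le.1 (hC u hu1)).1
    have a2 := (abs_le.1 (hC v hv1)).2
    rw [hsplit] at a2
    have e3 : Real.log v - Real.log u = 1 / σ := by
      rw [hu, hv, Real.log_exp, Real.log_exp]
      push_cast
      ring
    linarith

end IU4

theorem prfU4 : claimU4 := by
  obtain ⟨C₀, hC⟩ := prfL5.1
  have hC0 : 0 ≤ C₀ := (abs_nonneg _).trans (hC 1 le_rfl)
  refine ⟨2 * C₀, by positivity, ?_⟩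
  intro X σ hX hσ
  set J : ℕ := ⌈σ * Real.log X⌉₊ with hJ
  have hXJ : X ≤ Real.exp (J / σ) := by
    have h1 : σ * Real.log X ≤ J := Nat.le_ceil _
    rw [← Real.log_le_iff_le_exp (by linarith), le_div_iff₀ hσ]
    linarith
  have h2 : ∑ d ∈ Finset.Icc 1 ⌊X⌋₊, Λ d / (d : ℝ) * (d : ℝ) ^ (-σ) ≤
      ∑ d ∈ Finset.Icc 1 ⌊Real.exp (J / σ)⌋₊, Λ d / (d : ℝ) * (d : ℝ) ^ (-σ) := by
    refine sum_le_sum_of_subset_of_nonneg (Icc_subset_Icc_right (Nat.floor_mono hXJ)) ?_
    intro d _ _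
    have := @ArithmeticFunction.vonMangoldt_nonneg d
    positivity
  refine h2.trans ((IU4.main C₀ hC σ hσ J).trans ?_)
  have h3 := IU4.geo J
  have h4 : 0 ≤ 1 / σ + 2 * C₀ := by positivity
  calc (1 / σ + 2 * C₀) * ∑ j ∈ range J, Real.exp (-(j : ℝ)) ≤ (1 / σ + 2 * C₀) * 2 :=
        mul_le_mul_of_nonneg_left h3 h4
    _ = 2 * (1 / σ + 2 * C₀) := by ring

end Pool.Agent.Work.MP_122e00_nt.Two

end

section

set_option autoImplicit false

/-!
# Item U5: Rankin's bound for the convolution powers of `Λ`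
-/

namespace Pool.Agent.Work.MP_122e00_nt.Two

open Finset Filter Topology MeasureTheory

open scoped ArithmeticFunction.vonMangoldt ArithmeticFunction.zeta

namespace IU5

lemma pow_nonneg' (k m : ℕ) : 0 ≤ (Λ ^ k : ArithmeticFunction ℝ) m := by
  induction k generalizing m with
  | zero =>
    rw [pow_zero, ArithmeticFunction.one_apply]
    split_ifs <;> norm_num
  | succ k ih =>
    rw [pow_succ, ArithmeticFunction.mul_apply]
    exact Finset.sum_nonneg fun p _ => mul_nonneg (ih _) ArithmeticFunction.vonMangoldt_nonneg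

lemma rankin (σ : ℝ) (N k : ℕ) :
    ∑ m ∈ Finset.Icc 1 N, (Λ ^ k : ArithmeticFunction ℝ) m / (m : ℝ) * (m : ℝ) ^ (-σ) ≤
      (∑ d ∈ Finset.Icc 1 N, Λ d / (d : ℝ) * (d : ℝ) ^ (-σ)) ^ k := by
  induction k with
  | zero =>
    have h : ∀ m ∈ Finset.Icc 1 N, (Λ ^ 0 : ArithmeticFunction ℝ) m / (m : ℝ) * (m : ℝ) ^ (-σ) =
        if m = 1 then 1 else 0 := by
      intro m _
      rw [pow_zero, ArithmeticFunction.one_apply]
      split_ifs with h
      · subst h
        simp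
      · simp
    rw [Finset.sum_congr rfl h, Finset.sum_ite_eq', pow_zero]
    split_ifs <;> norm_num
  | succ k ih =>
    set g : ℕ → ℝ := fun d => Λ d / (d : ℝ) * (d : ℝ) ^ (-σ) with hg
    set f : ℕ → ℝ := fun d => (Λ ^ k : ArithmeticFunction ℝ) d / (d : ℝ) * (d : ℝ) ^ (-σ) with hf
    have hf0 : ∀ d, 0 ≤ f d := fun d =>
      mul_nonneg (div_nonneg (pow_nonneg' k d) (Nat.cast_nonneg d))
        (Real.rpow_nonneg (Nat.cast_nonneg d) _)
    have hg0 : ∀ d, 0 ≤ g d := fun d =>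
      mul_nonneg (div_nonneg ArithmeticFunction.vonMangoldt_nonneg (Nat.cast_nonneg d))
        (Real.rpow_nonneg (Nat.cast_nonneg d) _)
    have h1 : ∀ m ∈ Finset.Icc 1 N,
        (Λ ^ (k + 1) : ArithmeticFunction ℝ) m / (m : ℝ) * (m : ℝ) ^ (-σ) =
          ∑ p ∈ m.divisorsAntidiagonal, f p.1 * g p.2 := by
      intro m _
      rw [pow_succ, ArithmeticFunction.mul_apply, Finset.sum_div, Finset.sum_mul]
      refine Finset.sum_congr rfl fun p hp => ?_
      have hp' := Nat.mem_divisorsAntidiagonal.1 hp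
      have h2 : (m : ℝ) = (p.1 : ℝ) * (p.2 : ℝ) := by
        rw [← hp'.1]
        push_cast
        ring
      have h3 : (p.1 : ℝ) ≠ 0 := by
        intro h0
        apply hp'.2
        have : p.1 = 0 := by exact_mod_cast h0
        rw [← hp'.1, this, zero_mul]
      have h4 : (p.2 : ℝ) ≠ 0 := by
        intro h0
        apply hp'.2
        have : p.2 = 0 := by exact_mod_cast h0
        rw [← hp'.1, this, mul_zero]
      simp only [hf, hg]
      rw [h2, Real.mul_rpow (Nat.cast_nonneg _) (Nat.cast_nonneg _)]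
      field_simp
    rw [Finset.sum_congr rfl h1, Finset.sum_sigma']
    have h5 : (∑ x ∈ (Finset.Icc 1 N).sigma fun m => m.divisorsAntidiagonal,
        f x.2.1 * g x.2.2) ≤ ∑ q ∈ (Finset.Icc 1 N) ×ˢ (Finset.Icc 1 N), f q.1 * g q.2 := by
      rw [← Finset.sum_image (s := (Finset.Icc 1 N).sigma fun m => m.divisorsAntidiagonal)
        (g := fun x : (Σ _ : ℕ, ℕ × ℕ) => x.2) (f := fun q : ℕ × ℕ => f q.1 * g q.2)]
      · refine Finset.sum_le_sum_of_subset_of_nonneg ?_ fun q _ _ => mul_nonneg (hf0 _) (hg0 _)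
        intro q hq
        obtain ⟨x, hx, rfl⟩ := Finset.mem_image.1 hq
        have hx' := Finset.mem_sigma.1 hx
        have hm := Finset.mem_Icc.1 hx'.1
        have hd := Nat.mem_divisorsAntidiagonal.1 hx'.2
        have e1 : x.2.1 ∣ x.1 := ⟨x.2.2, hd.1.symm⟩
        have e2 : x.2.2 ∣ x.1 := ⟨x.2.1, by rw [mul_comm]; exact hd.1.symm⟩
        have hpos : 0 < x.1 := by omega
        refine Finset.mem_product.2 ⟨Finset.mem_Icc.2 ⟨?_, ?_⟩, Finset.mem_Icc.2 ⟨?_, ?_⟩⟩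
        · exact Nat.pos_of_dvd_of_pos e1 hpos
        · exact (Nat.le_of_dvd hpos e1).trans hm.2
        · exact Nat.pos_of_dvd_of_pos e2 hpos
        · exact (Nat.le_of_dvd hpos e2).trans hm.2
      · intro x hx y hy hxy
        have hx' := (Finset.mem_sigma.1 hx).2
        have hy' := (Finset.mem_sigma.1 hy).2
        have e1 := (Nat.mem_divisorsAntidiagonal.1 hx').1
        have e2 := (Nat.mem_divisorsAntidiagonal.1 hy').1
        obtain ⟨x1, x2⟩ := x
        obtain ⟨y1, y2⟩ := y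
        simp only at hxy e1 e2
        subst hxy
        have : x1 = y1 := by rw [← e1, ← e2]
        subst this
        rfl
    refine h5.trans ?_
    rw [Finset.sum_product, ← Finset.sum_mul_sum, pow_succ]
    exact mul_le_mul_of_nonneg_right ih (Finset.sum_nonneg fun d _ => hg0 d)

end IU5

theorem prfU5 : claimU4 → claimU5 := by
  rintro ⟨C, hC0, hC⟩ lam hlam
  have hlam0 : 0 < lam := by linarith
  have h1 : ∀ᶠ X : ℝ in atTop, 2 * lam * C + 1 ≤ Real.log X :=
    Real.tendsto_log_atTop.eventually_ge_atTop _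
  filter_upwards [h1, eventually_ge_atTop (1 : ℝ)] with X hX hX1 k
  have hX0 : 0 < X := by linarith
  set L : ℝ := Real.log X with hL
  have hLpos : 0 < L := by
    have : 0 ≤ 2 * lam * C := by positivity
    linarith
  set σ : ℝ := lam / L with hσ
  have hσ0 : 0 < σ := div_pos hlam0 hLpos
  have hU4 := hC X σ hX1 hσ0
  have h2 : 2 * (1 / σ + C) ≤ 3 * L / lam := by
    rw [hσ, one_div_div]
    have e : C ≤ L / (2 * lam) := by
      rw [le_div_iff₀ (by positivity)]
      linarith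
    have e2 : L / (2 * lam) = (L / lam) / 2 := by
      field_simp
    have e3 : 3 * L / lam = 3 * (L / lam) := by ring
    rw [e3]
    rw [e2] at e
    linarith
  have hs0 : 0 ≤ ∑ d ∈ Finset.Icc 1 ⌊X⌋₊, Λ d / (d : ℝ) * (d : ℝ) ^ (-σ) :=
    Finset.sum_nonneg fun d _ =>
      mul_nonneg (div_nonneg ArithmeticFunction.vonMangoldt_nonneg (Nat.cast_nonneg d))
        (Real.rpow_nonneg (Nat.cast_nonneg d) _)
  have h3 : ∑ m ∈ Finset.Icc 1 ⌊X⌋₊, (Λ ^ k : ArithmeticFunction ℝ) m / (m : ℝ) ≤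
      Real.exp lam * ∑ m ∈ Finset.Icc 1 ⌊X⌋₊,
        (Λ ^ k : ArithmeticFunction ℝ) m / (m : ℝ) * (m : ℝ) ^ (-σ) := by
    rw [Finset.mul_sum]
    refine Finset.sum_le_sum fun m hm => ?_
    have hm' := Finset.mem_Icc.1 hm
    have hm0 : (0 : ℝ) < (m : ℝ) := by
      have : 0 < m := by omega
      exact_mod_cast this
    have hmX : (m : ℝ) ≤ X := (Nat.cast_le.2 hm'.2).trans (Nat.floor_le hX0.le)
    have hnn : 0 ≤ (Λ ^ k : ArithmeticFunction ℝ) m / (m : ℝ) :=
      div_nonneg (IU5.pow_nonneg' k m) hm0.le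
    have h4 : Real.exp (-lam) ≤ (m : ℝ) ^ (-σ) := by
      have e1 : X ^ (-σ) = Real.exp (-lam) := by
        rw [Real.rpow_def_of_pos hX0, ← hL, hσ]
        congr 1
        field_simp
      rw [← e1]
      exact Real.rpow_le_rpow_of_nonpos hm0 hmX (by linarith)
    have h5 : 1 ≤ Real.exp lam * (m : ℝ) ^ (-σ) := by
      calc (1 : ℝ) = Real.exp lam * Real.exp (-lam) := by
            rw [← Real.exp_add]; simp
        _ ≤ _ := mul_le_mul_of_nonneg_left h4 (Real.exp_pos _).le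
    calc (Λ ^ k : ArithmeticFunction ℝ) m / (m : ℝ)
        = (Λ ^ k : ArithmeticFunction ℝ) m / (m : ℝ) * 1 := by ring
      _ ≤ (Λ ^ k : ArithmeticFunction ℝ) m / (m : ℝ) * (Real.exp lam * (m : ℝ) ^ (-σ)) :=
          mul_le_mul_of_nonneg_left h5 hnn
      _ = _ := by ring
  refine h3.trans (mul_le_mul_of_nonneg_left ?_ (Real.exp_pos _).le)
  refine (IU5.rankin σ ⌊X⌋₊ k).trans ?_
  exact pow_le_pow_left₀ hs0 (hU4.trans h2) k

end Pool.Agent.Work.MP_122e00_nt.Two

end
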