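import Pool.Agent.Work.MP_122e00_nt.Two.Stmts
import Pool.Agent.Work.MP_122e00_nt.Bdx.B07
import Pool.Agent.Work.MP_122e00_nt.Two.StmtsTail
import Pool.Agent.Work.MP_122e00_nt.Bd.B40
import Pool.Agent.Work.MP_122e00_nt.Bd.B41
import Pool.Agent.Work.MP_122e00_nt.Gen.Stmts
import Pool.Agent.Work.MP_122e00_nt.Two.ItemT8

/-! Bundle of small proof modules (one section per former module). -/

section

set_option autoImplicit false

/-!
# Item G4: the count with a power saving
-/

namespace Pool.Agent.Work.MP_122e00_nt.Two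

open Finset Filter Topology MeasureTheory

open scoped ArithmeticFunction.vonMangoldt

theorem prfG4 : claimG4 := by
  intro hG3 hG1 hG2 h θ lam δ η hh hθ hθ2 hl hl2 hδ hδη hη
  refine ⟨69 * (h.divisors.card : ℝ) ^ 2 + 4 * h, ?_⟩
  have hκ : 0 < θ / 40 := by positivity
  have hloglam : 0 < Real.log lam := Real.log_pos hl
  have hl0 : 0 < lam := by linarith
  filter_upwards [eventually_ge_atTop 1, divisor_bound 1 hκ,
    eventually_log_le 1 1 hκ, eventually_log_le 1 (1 + Real.log 4) hκ,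
    eventually_log_le (1 / Real.log 2) 1 hκ, eventually_log_le (1 / Real.log lam) 1 hκ]
    with X hX hdiv1 hlog1 hlog2 hlog3 hlog4
  intro β w hβ0 hβK hw0 hwW hsupp z hz
  have hX0 : 0 < X := by linarith
  set y := X ^ (θ / 40) with hy
  have hy1 : 1 ≤ y := Real.one_le_rpow hX hκ.le
  have hy0 : 0 < y := by linarith
  have hy40 : y ^ 40 = X ^ θ := by
    rw [hy, ← Real.rpow_natCast, ← Real.rpow_mul hX0.le]
    congr 1
    push_cast
    ring
  set r := √X with hr
  have hr0 : 0 ≤ r := Real.sqrt_nonneg _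
  have hr2 : r ^ 2 = X := Real.sq_sqrt hX0.le
  set Q := ⌊X ^ (1 / 2 - θ)⌋₊ with hQ
  set M := ⌊X ^ (1 - θ)⌋₊ with hM
  have hlogX : 0 ≤ Real.log X := Real.log_nonneg hX
  -- sizes
  have hXθ : X ^ (1 - θ) = X / y ^ 40 := by
    rw [hy40, Real.rpow_sub hX0, Real.rpow_one]
  have hX1θ : 1 ≤ X ^ (1 - θ) := Real.one_le_rpow hX (by linarith)
  have hXθ1 : 1 ≤ X ^ θ := Real.one_le_rpow hX hθ.le
  have hXle : X ^ (1 - θ) ≤ X := by
    calc X ^ (1 - θ) ≤ X ^ (1:ℝ) := Real.rpow_le_rpow_of_exponent_le hX (by linarith)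
      _ = X := Real.rpow_one X
  have hQle : (Q : ℝ) ≤ X ^ (1 / 2 - θ) := Nat.floor_le (by positivity)
  have hMle : (M : ℝ) ≤ X ^ (1 - θ) := Nat.floor_le (by positivity)
  have hQr : (Q : ℝ) ≤ r / y ^ 40 := by
    refine hQle.trans (le_of_eq ?_)
    rw [hy40, Real.rpow_sub hX0, hr, Real.sqrt_eq_rpow]
  have hQr' : (Q : ℝ) ≤ r := by
    refine hQr.trans ?_
    apply div_le_self hr0
    exact one_le_pow₀ hy1
  have hQX : (Q : ℝ) ≤ X := by
    refine hQr'.trans ?_
    rw [hr]
    apply Real.sqrt_le_iff.mpr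
    constructor
    · linarith
    · nlinarith
  have hlogQ : Real.log Q ≤ Real.log X := by
    rcases Nat.eq_zero_or_pos Q with h0 | h0
    · rw [h0, Nat.cast_zero, Real.log_zero]
      exact hlogX
    · exact Real.log_le_log (by exact_mod_cast h0) hQX
  have hH2 : (harmonic Q : ℝ) ≤ y := by
    have e1 := harmonic_le_one_add_log Q
    linarith
  have hH : (harmonic ((2 * Q) ^ 2) : ℝ) ≤ y := by
    have e1 := harmonic_le_one_add_log ((2 * Q) ^ 2)
    have e2 : Real.log (((2 * Q) ^ 2 : ℕ) : ℝ) ≤ Real.log 4 + Real.log X := by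
      rw [← Real.log_mul (by norm_num) hX0.ne']
      rcases Nat.eq_zero_or_pos Q with h0 | h0
      · rw [h0]
        simp only [mul_zero, ne_eq, OfNat.ofNat_ne_zero, not_false_eq_true, zero_pow,
          Nat.cast_zero, Real.log_zero]
        apply Real.log_nonneg
        linarith
      · apply Real.log_le_log
        · positivity
        · push_cast
          rw [mul_pow]
          calc (2:ℝ) ^ 2 * (Q:ℝ) ^ 2 ≤ 2 ^ 2 * r ^ 2 := by gcongr
            _ = 4 * X := by rw [hr2]; norm_num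
    linarith
  have hlogc : ((Nat.log 2 Q + 1 : ℕ) : ℝ) ≤ y := by
    push_cast
    have e1 : (Nat.log 2 Q : ℝ) ≤ 1 / Real.log 2 * Real.log X := by
      rcases Nat.eq_zero_or_pos Q with h0 | h0
      · rw [h0]
        simp only [Nat.log_zero_right, Nat.cast_zero]
        have : 0 < Real.log 2 := Real.log_pos (by norm_num)
        positivity
      · have e2 := Real.natLog_le_logb Q 2
        have e3 : Real.logb (2 : ℕ) Q = Real.log Q / Real.log 2 := by
          rw [Real.logb]
          norm_num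
        rw [e3] at e2
        have : 0 < Real.log 2 := Real.log_pos (by norm_num)
        calc (Nat.log 2 Q : ℝ) ≤ Real.log Q / Real.log 2 := e2
          _ ≤ Real.log X / Real.log 2 := by gcongr
          _ = _ := by ring
    linarith
  -- L
  set L := ⌈y ^ 10⌉₊ with hL
  have hy10 : 1 ≤ y ^ 10 := one_le_pow₀ hy1
  have hL1 : y ^ 10 ≤ (L : ℝ) := Nat.le_ceil _
  have hL2 : (L : ℝ) ≤ 2 * y ^ 10 := by
    have := (Nat.ceil_lt_add_one (by positivity : (0:ℝ) ≤ y ^ 10)).le
    linarith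
  have hL3 : 1 ≤ L := by
    have : (1:ℝ) ≤ L := hy10.trans hL1
    exact_mod_cast this
  -- the support
  have hβM : ∀ m, β m ≠ 0 → m ∈ Finset.Icc 1 M := by
    intro m hm
    obtain ⟨e1, e2⟩ := hsupp m hm
    rw [Finset.mem_Icc]
    refine ⟨?_, Nat.le_floor e2⟩
    have : (1 : ℝ) ≤ m := hXθ1.trans e1
    exact_mod_cast this
  -- the classes
  classical
  set J := (Finset.range (⌊Real.log X / Real.log lam⌋₊ + 1)).filter
    (fun j => ∃ m : ℕ, β m ≠ 0 ∧ lam ^ j ≤ (m : ℝ) ∧ (m : ℝ) < lam ^ (j + 1)) with hJ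
  have hJcov : ∀ m, β m ≠ 0 → ∃ j ∈ J, lam ^ j ≤ (m : ℝ) ∧ (m : ℝ) < lam ^ (j + 1) := by
    intro m hm
    obtain ⟨e0, e0'⟩ := hsupp m hm
    have e1 : (1:ℝ) ≤ (m : ℝ) := hXθ1.trans e0
    obtain ⟨j, hj1, hj2⟩ := exists_nat_pow_near e1 hl
    refine ⟨j, ?_, hj1, hj2⟩
    rw [hJ, Finset.mem_filter, Finset.mem_range, Nat.lt_succ_iff]
    refine ⟨?_, m, hm, hj1, hj2⟩
    apply Nat.le_floor
    rw [le_div_iff₀ hloglam, ← Real.log_pow]
    apply Real.log_le_log (by positivity)
    exact hj1.trans (e0'.trans hXle)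
  have hJcard : (J.card : ℝ) ≤ y := by
    have e1 : J.card ≤ ⌊Real.log X / Real.log lam⌋₊ + 1 := by
      refine (Finset.card_filter_le _ _).trans ?_
      rw [Finset.card_range]
    have e2 : (⌊Real.log X / Real.log lam⌋₊ : ℝ) ≤ Real.log X / Real.log lam :=
      Nat.floor_le (by positivity)
    have e3 : (J.card : ℝ) ≤ (⌊Real.log X / Real.log lam⌋₊ : ℝ) + 1 := by exact_mod_cast e1
    have e4 : 1 / Real.log lam * Real.log X = Real.log X / Real.log lam := by ring
    linarith
  have hJprop : ∀ j ∈ J, X ^ θ ≤ 2 * lam ^ j ∧ lam ^ (j + 1) ≤ 2 * X ^ (1 - θ) := by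
    intro j hj
    rw [hJ, Finset.mem_filter] at hj
    obtain ⟨m, hm, hm1, hm2⟩ := hj.2
    obtain ⟨e0, e0'⟩ := hsupp m hm
    constructor
    · refine (e0.trans hm2.le).trans ?_
      rw [pow_succ]
      have : 0 < lam ^ j := by positivity
      nlinarith
    · rw [pow_succ]
      calc lam ^ j * lam ≤ X ^ (1 - θ) * 2 := by
            gcongr
            exact hm1.trans e0'
        _ = _ := by ring
  have hD : ∀ k ∈ Finset.Icc 1 Q, (k.divisors.card : ℝ) ≤ y := by
    intro k hk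
    rw [Finset.mem_Icc] at hk
    have e1 := hdiv1 k (by omega) (le_trans (by exact_mod_cast hk.2) hQX)
    rwa [pow_one] at e1
  -- N
  have hN1 : ∀ j ∈ J, ((⌊lam ^ (j + 1)⌋₊ + 1 : ℕ) : ℝ) ≤ 3 * r ^ 2 / y ^ 40 := by
    intro j hj
    have e1 := (hJprop j hj).2
    have e2 : (⌊lam ^ (j + 1)⌋₊ : ℝ) ≤ lam ^ (j + 1) := Nat.floor_le (by positivity)
    push_cast
    calc (⌊lam ^ (j + 1)⌋₊ : ℝ) + 1 ≤ 3 * X ^ (1 - θ) := by linarith
      _ = 3 * r ^ 2 / y ^ 40 := by rw [hXθ, hr2]; ring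
  have hXj : ∀ j ∈ J, X / lam ^ j ≤ 2 * X ^ (1 - θ) := by
    intro j hj
    have e1 := (hJprop j hj).1
    have e2 : 0 < lam ^ j := by positivity
    rw [div_le_iff₀ e2]
    calc X = X ^ (1 - θ) * X ^ θ := by
          rw [← Real.rpow_add hX0, sub_add_cancel, Real.rpow_one]
      _ ≤ X ^ (1 - θ) * (2 * lam ^ j) := by gcongr
      _ = 2 * X ^ (1 - θ) * lam ^ j := by ring
  have hM1 : ∀ j ∈ J, ∀ B : ℕ, (B : ℝ) ≤ X / lam ^ j →
      ((B + 1 : ℕ) : ℝ) ≤ 3 * r ^ 2 / y ^ 40 := by
    intro j hj B hB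
    have e1 := hXj j hj
    push_cast
    calc (B : ℝ) + 1 ≤ 3 * X ^ (1 - θ) := by linarith
      _ = 3 * r ^ 2 / y ^ 40 := by rw [hXθ, hr2]; ring
  have hsq : ∀ (M : ℕ), (M : ℝ) ≤ 3 * r ^ 2 / y ^ 40 → √(M : ℝ) ≤ 2 * r / y ^ 20 := by
    intro M hM
    apply Real.sqrt_le_iff.mpr
    refine ⟨by positivity, ?_⟩
    calc (M : ℝ) ≤ 3 * r ^ 2 / y ^ 40 := hM
      _ ≤ 4 * r ^ 2 / y ^ 40 := by gcongr; norm_num
      _ = (2 * r / y ^ 20) ^ 2 := by
          rw [div_pow, mul_pow]
          ring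
  have hMN : ∀ j ∈ J, ∀ B : ℕ, (B : ℝ) ≤ X / lam ^ j → √((B + 1 : ℕ) : ℝ) *
      √((⌊lam ^ (j + 1)⌋₊ + 1 : ℕ) : ℝ) ≤ 3 * r := by
    intro j hj B hB
    have e1 := hXj j hj
    have e1' := (hJprop j hj).2
    rw [← Real.sqrt_mul (by positivity)]
    apply Real.sqrt_le_iff.mpr
    refine ⟨by positivity, ?_⟩
    have ht0 : 0 < lam ^ j := by positivity
    have e3 : (⌊lam ^ (j + 1)⌋₊ : ℝ) ≤ lam ^ (j + 1) := Nat.floor_le (by positivity)
    push_cast
    calc ((B : ℝ) + 1) * ((⌊lam ^ (j + 1)⌋₊ : ℝ) + 1)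
        ≤ (X / lam ^ j + 1) * (lam ^ (j + 1) + 1) := by gcongr
      _ = X * lam + X / lam ^ j + lam ^ (j + 1) + 1 := by
          rw [pow_succ]
          field_simp
          ring
      _ ≤ X * 2 + 2 * X ^ (1 - θ) + 2 * X ^ (1 - θ) + 1 := by gcongr
      _ ≤ (3 * r) ^ 2 := by rw [mul_pow, hr2]; linarith
  have hE1 : ∀ j ∈ J, ∀ B : ℕ, (B : ℝ) ≤ X / lam ^ j →
      Err0 y y y (B + 1) (⌊lam ^ (j + 1)⌋₊ + 1) Q L ≤ 69 * r ^ 2 / y ^ 5 := by
    intro j hj B hB
    exact Err0_bound hr0 hy1 hy0.le le_rfl hy0.le le_rfl hy0.le le_rfl (hMN j hj B hB)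
      (hsq _ (hM1 j hj B hB)) (hsq _ (hN1 j hj)) (hN1 j hj) hQr hH hH2
      hlogc hL1 hL2
  obtain ⟨f1, f2⟩ := hG3 hG1 hG2 β w M Q y y y hβ0 hβK hw0 hwW hβM hD hy0.le δ η X lam hδ hδη hη hX
    hl hl2 h z hh hz J hJcov L (69 * r ^ 2 / y ^ 5) (3 * r ^ 2 / y ^ 40) hL3 hE1 hN1
  -- total error
  have hsumβ : ∑ m ∈ Finset.Icc 1 M, β m ≤ r ^ 2 / y ^ 40 * y := by
    calc ∑ m ∈ Finset.Icc 1 M, β m ≤ ∑ m ∈ Finset.Icc 1 M, y :=
          Finset.sum_le_sum fun m _ => hβK m
      _ = (M : ℝ) * y := by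
          rw [Finset.sum_const, Nat.card_Icc, Nat.add_sub_cancel, nsmul_eq_mul]
      _ ≤ X ^ (1 - θ) * y := by gcongr
      _ = r ^ 2 / y ^ 40 * y := by rw [hXθ, hr2]
  have hsum0 : 0 ≤ ∑ m ∈ Finset.Icc 1 M, β m := Finset.sum_nonneg fun m _ => hβ0 m
  have herr : h * (∑ m ∈ Finset.Icc 1 M, β m) * (y * (harmonic Q : ℝ)) +
      J.card * ((h.divisors.card : ℝ) ^ 2 * (69 * r ^ 2 / y ^ 5) +
        h * y * (y * (3 * r ^ 2 / y ^ 40)) * (harmonic Q : ℝ)) ≤
      (69 * (h.divisors.card : ℝ) ^ 2 + 4 * h) * (X / y) := by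
    have hH0 := harmonic_nonneg Q
    calc h * (∑ m ∈ Finset.Icc 1 M, β m) * (y * (harmonic Q : ℝ)) +
        J.card * ((h.divisors.card : ℝ) ^ 2 * (69 * r ^ 2 / y ^ 5) +
          h * y * (y * (3 * r ^ 2 / y ^ 40)) * (harmonic Q : ℝ))
        ≤ h * (r ^ 2 / y ^ 40 * y) * (y * y) +
          y * ((h.divisors.card : ℝ) ^ 2 * (69 * r ^ 2 / y ^ 5) +
            h * y * (y * (3 * r ^ 2 / y ^ 40)) * y) := by gcongr
      _ = r ^ 2 * (h / y ^ 37 + 69 * (h.divisors.card : ℝ) ^ 2 / y ^ 4 + 3 * h / y ^ 36) := by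
          field_simp
          ring
      _ ≤ r ^ 2 * (h / y ^ 1 + 69 * (h.divisors.card : ℝ) ^ 2 / y ^ 1 + 3 * h / y ^ 1) := by
          have e1 : y ^ 1 ≤ y ^ 37 := pow_le_pow_right₀ hy1 (by norm_num)
          have e2 : y ^ 1 ≤ y ^ 4 := pow_le_pow_right₀ hy1 (by norm_num)
          have e3 : y ^ 1 ≤ y ^ 36 := pow_le_pow_right₀ hy1 (by norm_num)
          gcongr
      _ = (69 * (h.divisors.card : ℝ) ^ 2 + 4 * h) * (X / y) := by
          rw [hr2, pow_one]
          ring
  exact ⟨by linarith, by linarith⟩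

end Pool.Agent.Work.MP_122e00_nt.Two

end

section

set_option autoImplicit false

/-!
# Item U9: the last tail times a divisor function
-/

namespace Pool.Agent.Work.MP_122e00_nt.Two

open Finset Filter Topology MeasureTheory

open scoped ArithmeticFunction.vonMangoldt ArithmeticFunction.zeta

namespace IU9

/-- divisor bound for the powers of `ζ` -/
theorem zeta_pow_le (s : ℕ) {δ : ℝ} (hδ : 0 < δ) : ∀ᶠ X : ℝ in atTop, ∀ N : ℕ,
    (N : ℝ) ≤ 2 * X → (((ζ : ArithmeticFunction ℕ) ^ (s + 1)) N : ℝ) ≤ X ^ (δ / 2) := by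
  have h2X : Tendsto (fun X : ℝ => 2 * X) atTop atTop :=
    Filter.Tendsto.const_mul_atTop (by norm_num) tendsto_id
  filter_upwards [h2X.eventually (divisor_bound (s + 1) (show 0 < δ / 4 by linarith)),
    eventually_ge_atTop (2 : ℝ)] with X hX hX2 N hN
  by_cases hN0 : N = 0
  · subst hN0
    rw [ArithmeticFunction.map_zero, Nat.cast_zero]
    positivity
  · have h1 := hX N hN0 hN
    have h3 : (((ζ : ArithmeticFunction ℕ) ^ (s + 1)) N : ℝ) ≤ (N.divisors.card : ℝ) ^ (s + 1) := by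
      rw [zeta_pow_apply]
      exact_mod_cast card_finMulAntidiag_le (s + 1) N hN0
    refine h3.trans (h1.trans ?_)
    calc (2 * X) ^ (δ / 4) ≤ (X * X) ^ (δ / 4) := by
          apply Real.rpow_le_rpow (by linarith) _ (by linarith)
          nlinarith
      _ = X ^ (δ / 2) := by
          rw [Real.mul_rpow (by linarith) (by linarith), ← Real.rpow_add (by linarith)]
          congr 1
          ring

theorem TS_FT_nonneg {X : ℝ} (hX : 1 < X) (s k n : ℕ) (hn : n ≠ 0) (T : ℝ) :
    0 ≤ TS (Real.log X) s k n (FT k T) := by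
  apply prfT2 _ _ _ _ (Real.log_pos hX) hn
  intro x v _ _ _
  unfold FT
  split_ifs <;> norm_num

end IU9

open IU9 in
theorem prfU9 (h8 : claimU8) : claimU9 := by
  intro s h M₀ h1 h2 c hc ε hε
  obtain ⟨δ, hδ, ev⟩ := h8 s M₀ h1 h2 c hc
  have hlim : ∀ᶠ X : ℝ in atTop, ε⁻¹ ≤ X ^ (δ / 2) :=
    (tendsto_rpow_atTop (by linarith : 0 < δ / 2)).eventually_ge_atTop _
  filter_upwards [ev, hlim, zeta_pow_le s hδ, eventually_ge_atTop (2 : ℝ),
    eventually_ge_atTop (h : ℝ)] with X hX hXε hXz hX2 hXh z hz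
  have hX0 : 0 < X := by linarith
  have key : ∀ n ∈ Finset.Ioc ⌊X / Real.log X⌋₊ ⌊X⌋₊,
      TS (Real.log X) s ⌊c * Real.log X⌋₊ n (FT ⌊c * Real.log X⌋₊ M₀) *
        (((ζ : ArithmeticFunction ℕ) ^ (s + 1)) ((n : ℤ) - z).toNat : ℝ) ≤
      TS (Real.log X) s ⌊c * Real.log X⌋₊ n (FT ⌊c * Real.log X⌋₊ M₀) * X ^ (δ / 2) := by
    intro n hn
    rw [Finset.mem_Ioc] at hn
    apply mul_le_mul_of_nonneg_left
    · apply hXz
      have h3 : ((((n : ℤ) - z).toNat : ℕ) : ℤ) ≤ n + h := by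
        omega
      have h4 : ((((n : ℤ) - z).toNat : ℕ) : ℝ) ≤ n + h := by exact_mod_cast h3
      have h5 : (n : ℝ) ≤ X := (Nat.le_floor_iff hX0.le).1 hn.2
      linarith
    · exact TS_FT_nonneg (by linarith) _ _ _ (by omega) _
  calc _ ≤ ∑ n ∈ Finset.Ioc ⌊X / Real.log X⌋₊ ⌊X⌋₊,
      TS (Real.log X) s ⌊c * Real.log X⌋₊ n (FT ⌊c * Real.log X⌋₊ M₀) * X ^ (δ / 2) :=
        Finset.sum_le_sum key
    _ = (∑ n ∈ Finset.Ioc ⌊X / Real.log X⌋₊ ⌊X⌋₊,
      TS (Real.log X) s ⌊c * Real.log X⌋₊ n (FT ⌊c * Real.log X⌋₊ M₀)) * X ^ (δ / 2) := by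
        rw [Finset.sum_mul]
    _ ≤ X ^ (1 - δ) * X ^ (δ / 2) := by
        apply mul_le_mul_of_nonneg_right hX
        positivity
    _ = X * (X ^ (δ / 2))⁻¹ := by
        rw [← Real.rpow_add hX0, ← Real.rpow_neg hX0.le]
        nth_rewrite 2 [← Real.rpow_one X]
        rw [← Real.rpow_add hX0]
        congr 1
        ring
    _ ≤ X * ε := by
        apply mul_le_mul_of_nonneg_left _ hX0.le
        rw [inv_le_comm₀ (by positivity) hε]
        exact hXε
    _ = ε * X := mul_comm _ _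

end Pool.Agent.Work.MP_122e00_nt.Two

end

section

set_option autoImplicit false

/-!
# Item B0: placements, one more mark
-/

namespace Pool.Agent.Work.MP_122e00_nt.Gen

open Finset Filter Topology MeasureTheory Two

theorem prfB0 : claimB0 := by
  classical
  intro s k g x v
  unfold Pl
  rw [← (Fin.snocEquiv (fun _ : Fin (k + 1) => Fin (s + 1))).sum_comp, Fintype.sum_prod_type]
  refine Finset.sum_congr rfl fun i _ => Finset.sum_congr rfl fun c _ => ?_
  congr 1
  funext q
  rw [Fin.sum_univ_castSucc]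
  simp only [Fin.snocEquiv, Equiv.coe_fn_mk, Fin.snoc_castSucc, Fin.snoc_last, Fin.init, ad]
  by_cases h : i = q
  · subst h
    simp only [if_true]
    ring
  · rw [if_neg h, if_neg (Ne.symm h)]
    ring

end Pool.Agent.Work.MP_122e00_nt.Gen

end

section

set_option autoImplicit false

/-!
# B1: the mark step: one more mark, taken out of any part
-/

namespace Pool.Agent.Work.MP_122e00_nt.Gen

open Finset Filter Topology MeasureTheory

open scoped ArithmeticFunction.vonMangoldt ArithmeticFunction.zeta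

namespace IB1

theorem sum_log {m : ℕ} {n : ℕ} (v : Fin m → ℕ) (hv : v ∈ Nat.finMulAntidiag m n) (L : ℝ) :
    ∑ i, Real.log (v i) / L = Real.log n / L := by
  rw [Nat.mem_finMulAntidiag] at hv
  have hv0 : ∀ i, v i ≠ 0 := by
    intro i hi
    apply hv.2
    rw [← hv.1]
    exact Finset.prod_eq_zero (Finset.mem_univ i) hi
  rw [← Finset.sum_div]
  congr 1
  rw [← hv.1]
  push_cast
  rw [Real.log_prod]
  intro i _
  exact_mod_cast hv0 i

/-- the bijection `(d, v) ↔ (y, d)` with `y = v d e_j`. -/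
theorem reindex (n : ℕ) (hn : n ≠ 0) (s : ℕ) (j : Fin (s + 1)) (A : ℕ → (Fin (s + 1) → ℕ) → ℝ) :
    ∑ d ∈ n.divisors, ∑ v ∈ Nat.finMulAntidiag (s + 1) (n / d),
      A d (Function.update v j (v j * d)) =
    ∑ y ∈ Nat.finMulAntidiag (s + 1) n, ∑ d ∈ (y j).divisors, A d y := by
  rw [Finset.sum_sigma', Finset.sum_sigma']
  refine Finset.sum_bij' (fun p _ => ⟨Function.update p.2 j (p.2 j * p.1), p.1⟩)
    (fun p _ => ⟨p.2, Function.update p.1 j (p.1 j / p.2)⟩) ?_ ?_ ?_ ?_ ?_
  · rintro ⟨d, v⟩ h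
    simp only [Finset.mem_sigma, Nat.mem_divisors, Nat.mem_finMulAntidiag] at h ⊢
    obtain ⟨⟨h1, _⟩, h2, h3⟩ := h
    refine ⟨⟨?_, hn⟩, ?_, ?_⟩
    · rw [Finset.prod_update_of_mem (Finset.mem_univ j)]
      have h4 : ∏ x, v x = v j * ∏ x ∈ Finset.univ \ {j}, v x := by
        rw [← Finset.prod_sdiff (Finset.subset_univ {j}), Finset.prod_singleton, mul_comm]
      have h5 : v j * d * ∏ x ∈ Finset.univ \ {j}, v x = d * ∏ x, v x := by
        rw [h4]
        ring
      rw [h5, h2]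
      exact Nat.mul_div_cancel' h1
    · rw [Function.update_self]
      exact dvd_mul_left _ _
    · rw [Function.update_self]
      intro h
      rcases Nat.mul_eq_zero.1 h with h6 | h6
      · apply h3
        rw [← h2]
        exact Finset.prod_eq_zero (Finset.mem_univ j) h6
      · rw [h6] at h1
        exact hn (Nat.eq_zero_of_zero_dvd h1)
  · rintro ⟨y, d⟩ h
    simp only [Finset.mem_sigma, Nat.mem_divisors, Nat.mem_finMulAntidiag] at h ⊢
    obtain ⟨⟨h1, _⟩, h2, h3⟩ := h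
    have h4 : ∏ x, y x = y j * ∏ x ∈ Finset.univ \ {j}, y x := by
      rw [← Finset.prod_sdiff (Finset.subset_univ {j}), Finset.prod_singleton, mul_comm]
    have hdn : d ∣ n := by
      rw [← h1, h4]
      exact Dvd.dvd.mul_right h2 _
    have hd0 : d ≠ 0 := fun h => hn (by rw [h] at hdn; exact Nat.eq_zero_of_zero_dvd hdn)
    refine ⟨⟨hdn, hn⟩, ?_, ?_⟩
    · rw [Finset.prod_update_of_mem (Finset.mem_univ j)]
      obtain ⟨e, he⟩ := h2
      rw [he, Nat.mul_div_cancel_left e (Nat.pos_of_ne_zero hd0), ← h1, h4, he, mul_assoc,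
        Nat.mul_div_cancel_left _ (Nat.pos_of_ne_zero hd0)]
    · exact (Nat.div_pos (Nat.le_of_dvd (Nat.pos_of_ne_zero hn) hdn)
        (Nat.pos_of_ne_zero hd0)).ne'
  · rintro ⟨d, v⟩ h
    simp only [Finset.mem_sigma, Nat.mem_divisors, Nat.mem_finMulAntidiag] at h ⊢
    obtain ⟨⟨h1, _⟩, h2, h3⟩ := h
    have hd0 : d ≠ 0 := fun h => hn (by rw [h] at h1; exact Nat.eq_zero_of_zero_dvd h1)
    congr 1
    rw [Function.update_idem, Function.update_self,
      Nat.mul_div_cancel _ (Nat.pos_of_ne_zero hd0), Function.update_eq_self]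
  · rintro ⟨y, d⟩ h
    simp only [Finset.mem_sigma, Nat.mem_divisors, Nat.mem_finMulAntidiag] at h ⊢
    obtain ⟨⟨h1, _⟩, h2, h3⟩ := h
    congr 1
    rw [Function.update_idem, Function.update_self, Nat.div_mul_cancel h2,
      Function.update_eq_self]
  · rintro ⟨d, v⟩ h
    rfl

end IB1

theorem prfB1 : claimB1 := by
  intro L s k
  induction k with
  | zero =>
    intro n F hL hn hF
    have hLHS : Two.TS L s 0 n F =
        ∑ v ∈ Nat.finMulAntidiag (s + 1) n, F Fin.elim0 (fun i => Real.log (v i) / L) := rfl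
    have hRHS : Two.TS L s (0 + 1) n (fun x v =>
        ∑ i, F (Fin.init x) (ad v i (x (Fin.last 0)))) =
        ∑ i, ∑ d ∈ n.divisors, ∑ v ∈ Nat.finMulAntidiag (s + 1) (n / d),
          (fun (d : ℕ) (y : Fin (s + 1) → ℕ) => Λ d / Real.log n *
            F Fin.elim0 (fun i => Real.log (y i) / L)) d (Function.update v i (v i * d)) := by
      rw [Finset.sum_comm]
      show ∑ d ∈ n.divisors, (Λ d / Real.log n) * _ = _
      refine Finset.sum_congr rfl fun d hd => ?_
      show (Λ d / Real.log n) * (∑ v ∈ Nat.finMulAntidiag (s + 1) (n / d), _) = _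
      rw [Finset.mul_sum, Finset.sum_comm]
      refine Finset.sum_congr rfl fun v hv => ?_
      have hdn : d ∣ n := Nat.dvd_of_mem_divisors hd
      have hd0 : d ≠ 0 := fun h => hn (by rw [h] at hdn; exact Nat.eq_zero_of_zero_dvd hdn)
      have hd0' : (d : ℝ) ≠ 0 := by exact_mod_cast hd0
      have hv' := hv
      rw [Nat.mem_finMulAntidiag] at hv'
      have hv0 : ∀ i, v i ≠ 0 := by
        intro i hi
        apply hv'.2
        rw [← hv'.1]
        exact Finset.prod_eq_zero (Finset.mem_univ i) hi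
      show Λ d / Real.log n * (∑ j, F _ (ad (fun i => Real.log (v i) / L) j _)) = _
      rw [Finset.mul_sum]
      refine Finset.sum_congr rfl fun j _ => ?_
      have hvj : ((v j : ℕ) : ℝ) ≠ 0 := by exact_mod_cast hv0 j
      have e1 : (ad (fun i => Real.log (v i) / L) j (Real.log d / L)) =
          (fun i => Real.log ((Function.update v j (v j * d) i : ℕ) : ℝ) / L) := by
        funext i
        unfold ad
        by_cases hij : i = j
        · subst hij
          rw [if_pos rfl, Function.update_self]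
          push_cast
          rw [Real.log_mul hvj hd0', add_div]
        · rw [if_neg hij, Function.update_of_ne hij]
      have e2 : (Fin.init (Fin.cons (Real.log d / L) (Fin.elim0 : Fin 0 → ℝ) : Fin 1 → ℝ) :
          Fin 0 → ℝ) = Fin.elim0 := by
        funext i
        exact i.elim0
      have e3 : (Fin.cons (Real.log d / L) (Fin.elim0 : Fin 0 → ℝ) : Fin 1 → ℝ) (Fin.last 0) =
          Real.log d / L := rfl
      show (Λ d / Real.log n) * F (Fin.init (Fin.cons (Real.log d / L) (Fin.elim0 : Fin 0 → ℝ) :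
          Fin 1 → ℝ)) (ad (fun i => Real.log (v i) / L) j ((Fin.cons (Real.log d / L)
            (Fin.elim0 : Fin 0 → ℝ) : Fin 1 → ℝ) (Fin.last 0))) =
        Λ d / Real.log n *
          F Fin.elim0 (fun i => Real.log ((Function.update v j (v j * d) i : ℕ) : ℝ) / L)
      rw [e2, e3, e1]
    rw [hLHS, hRHS]
    have hre : ∀ i : Fin (s + 1), ∑ d ∈ n.divisors, ∑ v ∈ Nat.finMulAntidiag (s + 1) (n / d),
          (fun (d : ℕ) (y : Fin (s + 1) → ℕ) => Λ d / Real.log n *
            F Fin.elim0 (fun i => Real.log (y i) / L)) d (Function.update v i (v i * d)) =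
        ∑ y ∈ Nat.finMulAntidiag (s + 1) n, ∑ d ∈ (y i).divisors,
          Λ d / Real.log n * F Fin.elim0 (fun i => Real.log (y i) / L) := fun i =>
      IB1.reindex n hn s i (fun (d : ℕ) (y : Fin (s + 1) → ℕ) => Λ d / Real.log n *
            F Fin.elim0 (fun i => Real.log (y i) / L))
    rw [Finset.sum_congr rfl fun i _ => hre i, Finset.sum_comm]
    refine Finset.sum_congr rfl fun y hy => ?_
    have hs : ∑ i, Real.log (y i) = Real.log n := by
      have := IB1.sum_log y hy 1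
      simpa using this
    rw [Finset.sum_congr rfl fun i _ => by
      rw [← Finset.sum_mul, ← Finset.sum_div, ArithmeticFunction.vonMangoldt_sum],
      ← Finset.sum_mul, ← Finset.sum_div, hs]
    by_cases hn1 : Real.log n = 0
    · rw [hF _ _ (fun m => m.elim0) (fun i => div_nonneg (Real.log_natCast_nonneg _) hL.le),
        mul_zero]
      · simp only [Finset.univ_eq_empty, Finset.sum_empty, zero_add]
        exact IB1.sum_log y hy L
      · rw [IB1.sum_log y hy L, hn1, zero_div]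
    · rw [div_self hn1, one_mul]
  | succ k ih =>
    intro n F hL hn hF
    show ∑ d ∈ n.divisors, (Λ d / Real.log n) *
        Two.TS L s k (n / d) (fun x v => F (Fin.cons (Real.log d / L) x) v) =
      ∑ d ∈ n.divisors, (Λ d / Real.log n) *
        Two.TS L s (k + 1) (n / d) _
    refine Finset.sum_congr rfl fun d hd => ?_
    have hdn : d ∣ n := Nat.dvd_of_mem_divisors hd
    have hd0 : d ≠ 0 := fun h => hn (by rw [h] at hdn; exact Nat.eq_zero_of_zero_dvd hdn)
    have hd0' : (d : ℝ) ≠ 0 := by exact_mod_cast hd0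
    have hnd : n / d ≠ 0 := (Nat.div_pos (Nat.le_of_dvd (Nat.pos_of_ne_zero hn) hdn)
        (Nat.pos_of_ne_zero hd0)).ne'
    congr 1
    rw [ih (n / d) (fun x v => F (Fin.cons (Real.log d / L) x) v) hL hnd]
    · congr 1
      funext x v
      have e1 : (Fin.init (Fin.cons (Real.log d / L) x : Fin (k + 2) → ℝ) : Fin (k + 1) → ℝ) =
          Fin.cons (Real.log d / L) (Fin.init x) := by
        funext m
        refine Fin.cases ?_ ?_ m
        · rfl
        · intro i
          rfl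
      have e2 : (Fin.cons (Real.log d / L) x : Fin (k + 2) → ℝ) (Fin.last (k + 1)) =
          x (Fin.last k) := rfl
      show _ = ∑ i, F (Fin.init (Fin.cons (Real.log d / L) x : Fin (k + 2) → ℝ))
        (ad v i ((Fin.cons (Real.log d / L) x : Fin (k + 2) → ℝ) (Fin.last (k + 1))))
      rw [e1, e2]
    · intro x v hx hv hsum hj
      refine hF _ _ ?_ hv ?_ hj
      · intro m
        refine Fin.cases ?_ ?_ m
        · rw [Fin.cons_zero]
          exact div_nonneg (Real.log_natCast_nonneg _) hL.le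
        · intro i
          rw [Fin.cons_succ]
          exact hx i
      · rw [Fin.sum_univ_succ]
        simp only [Fin.cons_zero, Fin.cons_succ]
        rw [add_assoc, hsum]
        have h7 : (n : ℝ) = ((n / d : ℕ) : ℝ) * (d : ℝ) := by
          rw [← Nat.cast_mul, Nat.div_mul_cancel hdn]
        have h8 : ((n / d : ℕ) : ℝ) ≠ 0 := by exact_mod_cast hnd
        have h9 : Real.log n = Real.log ((n / d : ℕ) : ℝ) + Real.log d := by
          rw [h7, Real.log_mul h8 hd0']
        rw [h9]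
        ring

end Pool.Agent.Work.MP_122e00_nt.Gen

end

section

set_option autoImplicit false

/-!
# Item B10: the weight `ps`
-/

namespace Pool.Agent.Work.MP_122e00_nt.Gen

open Finset Filter Topology MeasureTheory

open scoped ENNReal

open Two

namespace IB10

theorem ae_ne {s : ℕ} (i : Fin s) : ∀ᵐ y : Fin s → ℝ, y i ≠ 0 := by
  have h := Two.prfL6 (Fin s) (Pi.single i 1) 0 (by
    intro h0
    have := congrFun h0 i
    simp at this)
  rw [ae_iff]
  refine measure_mono_null ?_ h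
  intro y hy
  simp only [ne_eq, Set.mem_ofPred_eq, not_not] at hy ⊢
  rw [Finset.sum_eq_single i]
  · simp [hy]
  · intro b _ hb
    simp [Pi.single_eq_of_ne hb]
  · intro h
    exact absurd (Finset.mem_univ i) h

theorem ae_sum_ne {s : ℕ} (hs : 1 ≤ s) (a : ℝ) : ∀ᵐ y : Fin s → ℝ, ∑ i, y i ≠ a := by
  have h := Two.prfL6 (Fin s) (fun _ => 1) a (by
    intro h0
    have := congrFun h0 ⟨0, hs⟩
    simp at this)
  rw [ae_iff]
  refine measure_mono_null ?_ h
  intro y hy
  simp only [ne_eq, Set.mem_ofPred_eq, not_not] at hy ⊢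
  simpa using hy

end IB10

theorem prfB10 : claimB10 := by
  classical
  intro s th hs hth hth1
  have ha : (0:ℝ) < 1 / 2 - th := by linarith
  set a : ℝ := 1 / 2 - th with had
  have hcont : ∀ᵐ y, ContinuousAt (ps s th) y := by
    filter_upwards [ae_all_iff.2 fun i : Fin s => IB10.ae_ne i, IB10.ae_sum_ne hs a] with y h0 h2
    have hc : ∀ i, Continuous fun y : Fin s → ℝ => y i := fun i => continuous_apply i
    have hcs : Continuous fun y : Fin s → ℝ => ∑ i, y i :=
      continuous_finsetSum _ fun i _ => continuous_apply i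
    have key : ∀ c : ℝ, (∀ᶠ z in 𝓝 y, ps s th z = c) → ContinuousAt (ps s th) y := by
      intro c hc
      exact (continuousAt_const (y := c)).congr (hc.mono fun z hz => hz.symm)
    by_cases hneg : ∃ i, y i < 0
    · obtain ⟨i, hi⟩ := hneg
      apply key 0
      filter_upwards [(hc i).continuousAt.eventually_lt continuousAt_const hi] with z hz
      unfold ps
      apply Set.indicator_of_notMem
      rintro ⟨h3, _⟩
      exact absurd (h3 i) (not_le.2 hz)
    · push Not at hneg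
      have hpos : ∀ i, 0 < y i := fun i => lt_of_le_of_ne (hneg i) (Ne.symm (h0 i))
      rcases lt_or_gt_of_ne h2 with h | h
      · apply key 1
        have h5 : ∀ᶠ z in 𝓝 y, ∀ i : Fin s, 0 < z i :=
          eventually_all.2 fun i => continuousAt_const.eventually_lt (hc i).continuousAt (hpos i)
        filter_upwards [hcs.continuousAt.eventually_lt continuousAt_const h, h5] with z hz hz0
        unfold ps
        apply Set.indicator_of_mem
        exact ⟨fun i => (hz0 i).le, hz.le⟩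
      · apply key 0
        filter_upwards [continuousAt_const.eventually_lt hcs.continuousAt h] with z hz
        unfold ps
        apply Set.indicator_of_notMem
        rintro ⟨_, h3⟩
        exact absurd h3 (not_le.2 hz)
  refine ⟨⟨?_, ⟨1, ?_⟩, ?_, hcont⟩, ?_⟩
  · intro y
    exact Set.indicator_nonneg (fun _ _ => zero_le_one) y
  · intro y
    unfold ps
    exact Set.indicator_le_self' (fun _ _ => zero_le_one) y
  · intro y hy
    by_contra hcon
    apply hy
    have hcon' : y ∉ {y : Fin s → ℝ | (∀ i, 0 ≤ y i) ∧ ∑ i, y i ≤ 1 / 2 - th} := hcon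
    unfold ps
    rw [Set.indicator_of_notMem hcon']
  · have hm : MeasurableSet {y : Fin s → ℝ | (∀ i, 0 ≤ y i) ∧ ∑ i, y i ≤ a} := by
      have h1 : IsClosed {y : Fin s → ℝ | ∀ i, 0 ≤ y i} := by
        simp only [Set.ofPred_forall]
        exact isClosed_iInter fun i => isClosed_le continuous_const (continuous_apply i)
      have h3 : IsClosed {y : Fin s → ℝ | ∑ i, y i ≤ a} :=
        isClosed_le (continuous_finsetSum _ fun i _ => continuous_apply i) continuous_const
      exact (h1.inter h3).measurableSet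
    have hO : MeasurableSet (O1 s) := MeasurableSet.univ_pi fun _ => measurableSet_Ioo
    have e1 : ∫ y in O1 s, ps s th y = (volume ({y : Fin s → ℝ | (∀ i, 0 ≤ y i) ∧
        ∑ i, y i ≤ a} ∩ O1 s)).toReal := by
      have h5 := integral_indicator_one (μ := (volume : Measure (Fin s → ℝ)).restrict (O1 s)) hm
      rw [Measure.real, Measure.restrict_apply hm] at h5
      exact h5
    have e2 : volume ({y : Fin s → ℝ | (∀ i, 0 ≤ y i) ∧ ∑ i, y i ≤ a} ∩ O1 s) =
        volume {y : Fin s → ℝ | (∀ i, 0 < y i) ∧ ∑ i, y i < a} := by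
      apply measure_congr
      filter_upwards [IB10.ae_sum_ne hs a] with y hy
      apply propext
      constructor
      · rintro ⟨⟨h1, h2⟩, h3⟩
        exact ⟨fun i => (h3 i (Set.mem_univ i)).1, lt_of_le_of_ne h2 hy⟩
      · rintro ⟨h1, h2⟩
        refine ⟨⟨fun i => (h1 i).le, h2.le⟩, fun i _ => ⟨h1 i, ?_⟩⟩
        have h3 : y i ≤ ∑ i, y i :=
          Finset.single_le_sum (f := y) (fun i _ => (h1 i).le) (Finset.mem_univ i)
        linarith
    have e3 : volume {y : Fin s → ℝ | (∀ i, 0 < y i) ∧ ∑ i, y i < a} = IT8.S0 s a := by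
      have hm2 : MeasurableSet {y : Fin s → ℝ | (∀ i, 0 < y i) ∧ ∑ i, y i < a} := by
        have h1 : IsOpen {y : Fin s → ℝ | ∀ i, 0 < y i} := by
          simp only [Set.ofPred_forall]
          exact isOpen_iInter_of_finite fun i => isOpen_lt continuous_const (continuous_apply i)
        have h3 : IsOpen {y : Fin s → ℝ | ∑ i, y i < a} :=
          isOpen_lt (continuous_finsetSum _ fun i _ => continuous_apply i) continuous_const
        exact (h1.inter h3).measurableSet
      rw [← lintegral_indicator_one hm2]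
      unfold IT8.S0
      refine lintegral_congr fun y => ?_
      by_cases h : (∀ i, 0 < y i) ∧ ∑ i, y i < a
      · rw [if_pos h]
        exact Set.indicator_of_mem (s := {y : Fin s → ℝ | (∀ i, 0 < y i) ∧ ∑ i, y i < a}) h _
      · rw [if_neg h]
        exact Set.indicator_of_notMem (s := {y : Fin s → ℝ | (∀ i, 0 < y i) ∧ ∑ i, y i < a}) h _
    rw [e1, e2, e3, IT8.S0_eq, IT8.G, if_pos ha, ENNReal.toReal_ofReal (by positivity)]
    ring

end Pool.Agent.Work.MP_122e00_nt.Gen

end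

section

set_option autoImplicit false

/-!
# B2: the chain identity
-/

namespace Pool.Agent.Work.MP_122e00_nt.Gen

open Finset Filter Topology MeasureTheory

open Two

namespace IB2

theorem congr (L : ℝ) (s k n : ℕ) (F G : (Fin k → ℝ) → (Fin (s + 1) → ℝ) → ℝ)
    (hL : 0 < L) (hn : n ≠ 0)
    (h : ∀ x v, (∀ m, 0 ≤ x m) → (∀ i, 0 ≤ v i) → ∑ m, x m + ∑ i, v i = Real.log n / L →
      F x v = G x v) : TS L s k n F = TS L s k n G := by
  have key : ∀ F G : (Fin k → ℝ) → (Fin (s + 1) → ℝ) → ℝ,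
      (∀ x v, (∀ m, 0 ≤ x m) → (∀ i, 0 ≤ v i) → ∑ m, x m + ∑ i, v i = Real.log n / L →
      F x v ≤ G x v) → TS L s k n F ≤ TS L s k n G := by
    intro F G h
    have h1 := prfT2 L s k n hL hn (fun x v => G x v + (-1) * F x v) (by
      intro x v hx hv hs
      have := h x v hx hv hs
      linarith)
    rw [(prfT1 L s k n G (fun x v => (-1) * F x v) 0).1, (prfT1 L s k n F F (-1)).2] at h1
    linarith
  apply le_antisymm
  · exact key F G fun x v h1 h2 h3 => (h x v h1 h2 h3).le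
  · exact key G F fun x v h1 h2 h3 => (h x v h1 h2 h3).ge

theorem base (s : ℕ) (c : ℝ) (hc : 0 < c) (g : (Fin (s + 1) → ℝ) → ℝ) :
    (fun (x : Fin 0 → ℝ) (v : Fin (s + 1) → ℝ) => if ∑ j, x j < c then Pl g x v else 0) =
      fun _ v => g v := by
  funext x v
  rw [if_pos (by simpa using hc)]
  unfold Pl
  simp

theorem step (h0 : claimB0) (h1 : claimB1) (L : ℝ) (s n K : ℕ) (c : ℝ)
    (g : (Fin (s + 1) → ℝ) → ℝ) (hL : 0 < L) (hn : n ≠ 0)
    (hcn : c < Real.log n / L) :
    TS L s K n (fun x v => if ∑ j, x j < c then Pl g x v else 0) =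
      TS L s (K + 1) n (fun x v => by
        classical exact if stp c x then Pl g x v else 0) +
      TS L s (K + 1) n (fun x v => if ∑ j, x j < c then Pl g x v else 0) := by
  classical
  rw [h1 L s K n _ hL hn (by
    intro x v _ _ hs hv
    rw [if_neg]
    rw [hv, add_zero] at hs
    linarith)]
  rw [← (prfT1 L s (K + 1) n _ _ 0).1]
  apply congr L s (K + 1) n _ _ hL hn
  intro x v hx hv hs
  have e1 : ∑ i, (if ∑ j, (Fin.init x : Fin K → ℝ) j < c then
      Pl g (Fin.init x) (ad v i (x (Fin.last K))) else 0) =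
      if ∑ j : Fin K, x j.castSucc < c then Pl g x v else 0 := by
    rw [h0 s K g x v]
    have e2 : ∑ j, (Fin.init x : Fin K → ℝ) j = ∑ j : Fin K, x j.castSucc := rfl
    rw [e2]
    split_ifs
    · rfl
    · simp
  rw [e1]
  have e3 : ∑ j, x j = ∑ j : Fin K, x j.castSucc + x (Fin.last K) := Fin.sum_univ_castSucc x
  have e4 := hx (Fin.last K)
  unfold stp
  by_cases hA : ∑ j : Fin K, x j.castSucc < c
  · by_cases hB : ∑ j, x j < c
    · rw [if_pos hA, if_neg (fun h => absurd h.1 (not_le.2 hB)), if_pos hB, zero_add]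
    · rw [if_pos hA, if_pos ⟨not_lt.1 hB, hA⟩, if_neg hB, add_zero]
  · have hB : ¬ ∑ j, x j < c := by
      intro h
      apply hA
      linarith
    rw [if_neg hA, if_neg (fun h => hA h.2), if_neg hB, add_zero]

end IB2

theorem prfB2 (h0 : claimB0) (h1 : claimB1) : claimB2 := by
  intro L s n K c g hL hn hc hcn
  induction K with
  | zero =>
    rw [Finset.sum_range_zero, zero_add, IB2.base s c hc g]
  | succ K ih =>
    rw [ih, IB2.step h0 h1 L s n K c g hL hn hcn, Finset.sum_range_succ]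
    ring

end Pool.Agent.Work.MP_122e00_nt.Gen

end
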