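import Pool.Agent.Work.MP_122e00_nt.Gen.Stmts
import Pool.Agent.Work.MP_122e00_nt.Bd.B42
import Pool.Agent.Work.MP_122e00_nt.Hyb.Stmts
import Pool.Agent.Work.MP_122e00_nt.Bd.B40
import Pool.Agent.Work.MP_122e00_nt.Bd.B41
import Pool.Agent.Work.MP_122e00_nt.Bd.B01
import Pool.Agent.Work.MP_122e00_nt.Count
import Pool.Agent.Work.MP_122e00_nt.Bd.B39
import Pool.Agent.Work.MP_122e00_nt.Two.ItemL1
import Pool.Agent.Work.MP_122e00_nt.Two.ItemL3
import Pool.Agent.Work.MP_122e00_nt.Two.ItemL5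
import Pool.Agent.Work.MP_122e00_nt.Two.ItemL7
import Pool.Agent.Work.MP_122e00_nt.Two.ItemT6
import Pool.Agent.Work.MP_122e00_nt.Two.ItemT7
import Pool.Agent.Work.MP_122e00_nt.Two.ItemT8
import Pool.Agent.Work.MP_122e00_nt.Two.ItemA1
import Pool.Agent.Work.MP_122e00_nt.Hyb.ItemC0

/-! Bundle of small proof modules (one section per former module). -/

section

set_option autoImplicit false

/-!
# Item G3: the sum over `X / log X < n ≤ X`
-/

namespace Pool.Agent.Work.MP_122e00_nt.Gen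

open Finset Filter Topology MeasureTheory

open scoped ArithmeticFunction.vonMangoldt ArithmeticFunction.zeta

open Two

namespace IG3

theorem Apsi_nonneg {s : ℕ} {ψ : (Fin s → ℝ) → ℝ} (h : ∀ y, 0 ≤ ψ y) (X : ℝ) (z : ℤ) (n : ℕ) :
    0 ≤ Two.Apsi ψ X z n := by
  unfold Two.Apsi
  refine Finset.sum_nonneg fun b _ => ?_
  split_ifs
  · exact h _
  · exact le_rfl

theorem cover (f : ℕ → ℝ) (hf : ∀ n, 0 ≤ f n) (A M N : ℕ) :
    ∑ n ∈ Ioc A N, f n ≤ ∑ n ∈ Ioc A M, f n + ∑ n ∈ Ioc M N, f n := by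
  rw [← Finset.sum_union_inter]
  have h1 : ∑ n ∈ Ioc A N, f n ≤ ∑ n ∈ Ioc A M ∪ Ioc M N, f n := by
    refine Finset.sum_le_sum_of_subset_of_nonneg ?_ (fun n _ _ => hf n)
    intro n hn
    simp only [Finset.mem_union, Finset.mem_Ioc] at hn ⊢
    omega
  have h2 : 0 ≤ ∑ n ∈ Ioc A M ∩ Ioc M N, f n := Finset.sum_nonneg fun n _ => hf n
  linarith

theorem sub1 (f : ℕ → ℝ) (hf : ∀ n, 0 ≤ f n) (A N h : ℕ) :
    ∑ n ∈ Ioc A (N - h), f n ≤ ∑ n ∈ Ioc A N, f n := by
  refine Finset.sum_le_sum_of_subset_of_nonneg ?_ (fun n _ _ => hf n)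
  intro n hn
  simp only [Finset.mem_Ioc] at hn ⊢
  omega

theorem shift (g : ℕ → ℝ) (hg : ∀ n, 0 ≤ g n) (A N h : ℕ) :
    ∑ n ∈ Ioc A (N - h), g (n + h) ≤ ∑ n ∈ Ioc A N, g n := by
  have h1 : ∑ n ∈ Ioc A (N - h), g (n + h) =
      ∑ m ∈ (Ioc A (N - h)).map (addRightEmbedding h), g m := by
    rw [Finset.sum_map]
    rfl
  rw [h1]
  refine Finset.sum_le_sum_of_subset_of_nonneg ?_ (fun n _ _ => hg n)
  intro m hm
  rw [Finset.mem_map] at hm
  obtain ⟨n, hn, rfl⟩ := hm
  simp only [Finset.mem_Ioc, addRightEmbedding_apply] at hn ⊢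
  omega

/-- The elementary inequality behind the item. -/
theorem key (f f' B B' H H' l l' x : ℝ) (hf : 0 ≤ f) (hf' : 0 ≤ f') (hB : 0 ≤ B) (hB' : 0 ≤ B')
    (hH : 0 ≤ H) (hH' : 0 ≤ H') (hl0 : 0 ≤ l) (hl0' : 0 ≤ l') (hlx : l ≤ x) (hlx' : l' ≤ x)
    (hb : (f - l) ^ 2 ≤ H * B) (hb' : (f' - l') ^ 2 ≤ H' * B') :
    f * f' ≤ (B' * H + B * H') / 2 + x * (f + f') := by
  have h1 : (f - l) * (f' - l') ≤ (H * B' + H' * B) / 2 := by
    have hs : ((f - l) * (f' - l')) ^ 2 ≤ (H * B') * (H' * B) := by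
      calc ((f - l) * (f' - l')) ^ 2 = (f - l) ^ 2 * (f' - l') ^ 2 := by ring
        _ ≤ (H * B) * (H' * B') := mul_le_mul hb hb' (sq_nonneg _) (mul_nonneg hH hB)
        _ = (H * B') * (H' * B) := by ring
    have hp : 0 ≤ H * B' := mul_nonneg hH hB'
    have hq : 0 ≤ H' * B := mul_nonneg hH' hB
    have h4 : ((f - l) * (f' - l')) ^ 2 ≤ ((H * B' + H' * B) / 2) ^ 2 := by
      nlinarith [sq_nonneg (H * B' - H' * B)]
    exact (abs_le_of_sq_le_sq' h4 (by linarith)).2
  have h2 : l * f' ≤ x * f' := mul_le_mul_of_nonneg_right hlx hf'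
  have h3 : l' * f ≤ x * f := mul_le_mul_of_nonneg_right hlx' hf
  have h4 : 0 ≤ l * l' := mul_nonneg hl0 hl0'
  nlinarith

end IG3

open IG3 in
theorem prfG3 (hG1 : claimG1) : claimG3 := by
  intro s h θ ψ hs hh hθ hθ1 hW H hD
  have e6 := Two.IU9.zeta_pow_le s (δ := 1 / 4) (by norm_num)
  have e9 := Real.tendsto_log_atTop.eventually (eventually_ge_atTop (1 : ℝ))
  have e10 : ∀ᶠ X : ℝ in atTop, (2 + (h : ℝ)) * X ^ (1 / 4 : ℝ) ≤ X ^ (1 / 2 : ℝ) := by
    have h1 : ∀ᶠ X : ℝ in atTop, (2 + (h : ℝ)) ≤ X ^ (1 / 4 : ℝ) :=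
      (tendsto_rpow_atTop (by norm_num)).eventually_ge_atTop _
    filter_upwards [h1, eventually_gt_atTop (0 : ℝ)] with X hX hX0
    calc (2 + (h : ℝ)) * X ^ (1 / 4 : ℝ) ≤ X ^ (1 / 4 : ℝ) * X ^ (1 / 4 : ℝ) :=
          mul_le_mul_of_nonneg_right hX (by positivity)
      _ = X ^ (1 / 2 : ℝ) := by
          rw [← Real.rpow_add hX0]
          norm_num
  filter_upwards [hD, e6, e9, e10, eventually_ge_atTop (2 : ℝ), eventually_ge_atTop (h : ℝ)]
    with X h5 h6 h9 h10 hX2 hXh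
  have hX0 : 0 < X := by linarith
  have hX1 : 1 < X := by linarith
  obtain ⟨L, hL⟩ : ∃ L : ℝ, L = Real.log X := ⟨_, rfl⟩
  have hL0 : 0 < L := by rw [hL]; linarith
  obtain ⟨N, hN⟩ : ∃ N : ℕ, N = ⌊X⌋₊ := ⟨_, rfl⟩
  obtain ⟨A, hA⟩ : ∃ A : ℕ, A = ⌊X / L⌋₊ := ⟨_, rfl⟩
  rw [← hL] at h5 ⊢
  rw [← hN, ← hA]
  have hNX : (N : ℝ) ≤ X := by rw [hN]; exact Nat.floor_le hX0.le
  have hAX : X / L < (A : ℝ) + 1 := by rw [hA]; exact Nat.lt_floor_add_one _
  obtain ⟨d, hd⟩ : ∃ d : ℕ → ℝ, ∀ n, (((ζ : ArithmeticFunction ℕ) ^ (s + 1)) n : ℝ) = d n :=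
    ⟨_, fun _ => rfl⟩
  have hd0 : ∀ n, 0 ≤ d n := fun n => by rw [← hd]; exact Nat.cast_nonneg _
  simp only [hd] at h5 h6
  obtain ⟨a, ha⟩ : ∃ a : ℕ → ℝ, ∀ n, Two.Apsi ψ X (-(h : ℤ)) n = a n := ⟨_, fun _ => rfl⟩
  obtain ⟨b, hb⟩ : ∃ b : ℕ → ℝ, ∀ n, Two.Apsi ψ X (h : ℤ) n = b n := ⟨_, fun _ => rfl⟩
  have ha0 : ∀ n, 0 ≤ a n := fun n => by
    rw [← ha]; exact Apsi_nonneg hW.nonneg _ _ _
  have hb0 : ∀ n, 0 ≤ b n := fun n => by
    rw [← hb]; exact Apsi_nonneg hW.nonneg _ _ _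
  simp only [ha, hb]
  have hs0 : (0 : ℝ) ≤ s := Nat.cast_nonneg _
  -- the range
  have hrange : ∀ n ∈ Ioc A N, X / L ≤ (n : ℝ) ∧ (n : ℝ) ≤ X := by
    intro n hn
    rw [Finset.mem_Ioc] at hn
    have h11 : (A : ℝ) + 1 ≤ n := by exact_mod_cast hn.1
    have h12 : (n : ℝ) ≤ N := by exact_mod_cast hn.2
    exact ⟨by linarith, by linarith⟩
  -- the nonnegative version of `H`
  obtain ⟨H1, hH1⟩ : ∃ H1 : ℕ → ℝ, ∀ n, H1 n = max (H X n) 0 := ⟨_, fun _ => rfl⟩
  have hH10 : ∀ n, 0 ≤ H1 n := fun n => by rw [hH1]; exact le_max_right _ _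
  have hHe : ∀ n ∈ Ioc A N, H X n = H1 n := by
    intro n hn
    obtain ⟨h11, h12⟩ := hrange n hn
    rw [hH1, max_eq_left (h5 n h11 h12).1]
  have hsa : ∑ n ∈ Ioc A N, a n * H X n = ∑ n ∈ Ioc A N, a n * H1 n :=
    Finset.sum_congr rfl fun n hn => by rw [hHe n hn]
  have hsb : ∑ n ∈ Ioc A N, b n * H X n = ∑ n ∈ Ioc A N, b n * H1 n :=
    Finset.sum_congr rfl fun n hn => by rw [hHe n hn]
  rw [hsa, hsb]
  -- the pointwise inequality
  have hmain : ∀ n ∈ Ioc A (N - h), d n * d (n + h) ≤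
      ((s : ℝ) + 1) / 2 * (a n * H1 n) + ((s : ℝ) + 1) / 2 * (b (n + h) * H1 (n + h)) +
        X⁻¹ * (d n + d (n + h)) := by
    intro n hn
    rw [Finset.mem_Ioc] at hn
    have hn1 : n ∈ Ioc A N := by rw [Finset.mem_Ioc]; omega
    have hn2 : n + h ∈ Ioc A N := by rw [Finset.mem_Ioc]; omega
    obtain ⟨p1, p2⟩ := hrange n hn1
    obtain ⟨q1, q2⟩ := hrange (n + h) hn2
    obtain ⟨hHn, l, hl0, hlx, hb1⟩ := h5 n p1 p2
    obtain ⟨hHn', l', hl0', hlx', hb2⟩ := h5 (n + h) q1 q2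
    have hnn : n ≠ 0 := by omega
    have g1 : TS L s 0 n (fun _ v => gs ψ v) = (s + 1) * b (n + h) := by
      rw [hL, ← hb]
      exact hG1 s θ ψ hs hθ hθ1 hW X (n + h) n h hX1 hnn (by push_cast; ring)
    have g2 : TS L s 0 (n + h) (fun _ v => gs ψ v) = (s + 1) * a n := by
      rw [hL, ← ha]
      exact hG1 s θ ψ hs hθ hθ1 hW X n (n + h) (-h) hX1 (by omega) (by push_cast; ring)
    rw [g1] at hb1
    rw [g2] at hb2
    have hk := key (d n) (d (n + h)) _ _ _ _ l l' X⁻¹ (hd0 _) (hd0 _)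
      (mul_nonneg (by linarith) (hb0 (n + h))) (mul_nonneg (by linarith) (ha0 n)) hHn hHn' hl0 hl0'
      hlx hlx' hb1 hb2
    rw [hHe n hn1, hHe (n + h) hn2] at hk
    linarith
  have hsum : ∑ n ∈ Ioc A (N - h), d n * d (n + h) ≤
      ((s : ℝ) + 1) / 2 * ∑ n ∈ Ioc A (N - h), a n * H1 n +
      ((s : ℝ) + 1) / 2 * ∑ n ∈ Ioc A (N - h), b (n + h) * H1 (n + h) +
      X⁻¹ * (∑ n ∈ Ioc A (N - h), d n + ∑ n ∈ Ioc A (N - h), d (n + h)) := by
    refine (Finset.sum_le_sum hmain).trans (le_of_eq ?_)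
    simp only [Finset.sum_add_distrib, ← Finset.mul_sum]
  -- the divisor bound
  obtain ⟨y, hy⟩ : ∃ y : ℝ, y = X ^ (1 / 8 : ℝ) := ⟨_, rfl⟩
  have hy1 : 1 ≤ y := by
    rw [hy]
    exact Real.one_le_rpow (by linarith) (by norm_num)
  have hyy : y * y = X ^ (1 / 4 : ℝ) := by
    rw [hy, ← Real.rpow_add hX0]
    norm_num
  have hdy : ∀ n : ℕ, (n : ℝ) ≤ 2 * X → d n ≤ y := by
    intro n hn
    have h15 := h6 n hn
    have e : (1 / 4 / 2 : ℝ) = 1 / 8 := by norm_num
    rw [e, ← hy] at h15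
    exact h15
  have hE1 : ∑ n ∈ Ioc (N - h) N, d n * d (n + h) ≤ h * (y * y) := by
    calc ∑ n ∈ Ioc (N - h) N, d n * d (n + h) ≤ ∑ n ∈ Ioc (N - h) N, y * y := by
          refine Finset.sum_le_sum fun n hn => ?_
          rw [Finset.mem_Ioc] at hn
          have hn' : (n : ℝ) ≤ N := by exact_mod_cast hn.2
          exact mul_le_mul (hdy n (by linarith)) (hdy (n + h) (by push_cast; linarith)) (hd0 _)
            (by linarith)
      _ = ((N - (N - h) : ℕ) : ℝ) * (y * y) := by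
          rw [Finset.sum_const, Nat.card_Ioc, nsmul_eq_mul]
      _ ≤ h * (y * y) := by
          apply mul_le_mul_of_nonneg_right _ (by positivity)
          have : N - (N - h) ≤ h := by omega
          exact_mod_cast this
  have hS6 : X⁻¹ * (∑ n ∈ Ioc A (N - h), d n + ∑ n ∈ Ioc A (N - h), d (n + h)) ≤ 2 * (y * y) := by
    have hc1 : ((Ioc A (N - h)).card : ℝ) ≤ X := by
      refine le_trans ?_ hNX
      rw [Nat.card_Ioc]
      have : N - h - A ≤ N := by omega
      exact_mod_cast this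
    have h18 : ∀ m : ℕ, m ≤ h → ∑ n ∈ Ioc A (N - h), d (n + m) ≤ X * y := by
      intro m hm
      calc ∑ n ∈ Ioc A (N - h), d (n + m) ≤ ∑ n ∈ Ioc A (N - h), y := by
            apply Finset.sum_le_sum
            intro n hn
            rw [Finset.mem_Ioc] at hn
            apply hdy
            have : n + m ≤ N := by omega
            have h19 : ((n + m : ℕ) : ℝ) ≤ (N : ℝ) := by exact_mod_cast this
            linarith
        _ = ((Ioc A (N - h)).card : ℝ) * y := by rw [Finset.sum_const, nsmul_eq_mul]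
        _ ≤ X * y := mul_le_mul_of_nonneg_right hc1 (by linarith)
    have h20 := h18 0 (by omega)
    have h21 := h18 h le_rfl
    simp only [add_zero] at h20
    rw [inv_mul_le_iff₀ hX0]
    nlinarith [mul_pos hX0 (lt_of_lt_of_le one_pos hy1)]
  have haH : ∀ n, 0 ≤ a n * H1 n := fun n => mul_nonneg (ha0 n) (hH10 n)
  have hbH : ∀ n, 0 ≤ b n * H1 n := fun n => mul_nonneg (hb0 n) (hH10 n)
  have hdd : ∀ n, 0 ≤ d n * d (n + h) := fun n => mul_nonneg (hd0 n) (hd0 _)
  have hDS : DS s h A N = ∑ n ∈ Ioc A N, d n * d (n + h) := by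
    unfold DS
    simp only [hd]
  rw [hDS]
  have c1 := cover (fun n => d n * d (n + h)) hdd A (N - h) N
  have c4 := sub1 (fun n => a n * H1 n) haH A N h
  have c5 := shift (fun n => b n * H1 n) hbH A N h
  have c6 : ((s : ℝ) + 1) / 2 * ∑ n ∈ Ioc A (N - h), a n * H1 n ≤
      ((s : ℝ) + 1) / 2 * ∑ n ∈ Ioc A N, a n * H1 n :=
    mul_le_mul_of_nonneg_left c4 (by linarith)
  have c7 : ((s : ℝ) + 1) / 2 * ∑ n ∈ Ioc A (N - h), b (n + h) * H1 (n + h) ≤
      ((s : ℝ) + 1) / 2 * ∑ n ∈ Ioc A N, b n * H1 n :=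
    mul_le_mul_of_nonneg_left c5 (by linarith)
  rw [← hyy] at h10
  linarith

end Pool.Agent.Work.MP_122e00_nt.Gen

end

section

set_option autoImplicit false

/-!
# G4: from `X / log X < n ≤ X` to all `n ≤ X`
-/

namespace Pool.Agent.Work.MP_122e00_nt.Gen

open Finset Filter Topology MeasureTheory

open scoped ArithmeticFunction.zeta

namespace IG4

private lemma term_nonneg (s h n : ℕ) : (0 : ℝ) ≤ (((ζ : ArithmeticFunction ℕ) ^ (s + 1)) n : ℝ) *
    (((ζ : ArithmeticFunction ℕ) ^ (s + 1)) (n + h) : ℝ) :=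
  mul_nonneg (Nat.cast_nonneg _) (Nat.cast_nonneg _)

private lemma DS_nonneg (s h a b : ℕ) : 0 ≤ DS s h a b :=
  Finset.sum_nonneg fun n _ => term_nonneg s h n

private lemma DS_mono (s h : ℕ) {a b : ℕ} (hab : a ≤ b) : DS s h 0 a ≤ DS s h 0 b :=
  Finset.sum_le_sum_of_subset_of_nonneg (Finset.Ioc_subset_Ioc_right hab)
    fun n _ _ => term_nonneg s h n

private lemma DS_add (s h : ℕ) {a b : ℕ} (hab : a ≤ b) : DS s h 0 b = DS s h 0 a + DS s h a b := by
  unfold DS
  rw [Finset.sum_Ioc_consecutive _ (Nat.zero_le a) hab]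

private lemma step (s h : ℕ) {X : ℝ} (hX : 0 ≤ X) (hL : 1 ≤ Real.log X) :
    DS s h 0 ⌊X⌋₊ = DS s h 0 ⌊X / Real.log X⌋₊ + DS s h ⌊X / Real.log X⌋₊ ⌊X⌋₊ :=
  DS_add s h (Nat.floor_le_floor (div_le_self hX hL))

private lemma main_bound (s h : ℕ) (E X₀ : ℝ) (hE : 0 ≤ E) (hX₀ : 1 ≤ X₀)
    (hL : ∀ X, X₀ ≤ X → 2 ≤ Real.log X)
    (H : ∀ X, X₀ ≤ X → DS s h ⌊X / Real.log X⌋₊ ⌊X⌋₊ ≤ (E + 1) * (X * (Real.log X) ^ (2 * s))) :
    ∃ M : ℝ, 0 ≤ M ∧ ∀ X, X₀ ≤ X → DS s h 0 ⌊X⌋₊ ≤ M * (X * (Real.log X) ^ (2 * s)) + M := by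
  refine ⟨2 * (E + 1) + DS s h 0 ⌊X₀⌋₊, ?_, ?_⟩
  · have := DS_nonneg s h 0 ⌊X₀⌋₊
    linarith
  · set M := 2 * (E + 1) + DS s h 0 ⌊X₀⌋₊ with hM
    have hD := DS_nonneg s h 0 ⌊X₀⌋₊
    have hM0 : 0 ≤ M := by rw [hM]; linarith
    have key : ∀ N : ℕ, ∀ X, X₀ ≤ X → X ≤ 2 ^ N * X₀ →
        DS s h 0 ⌊X⌋₊ ≤ M * (X * (Real.log X) ^ (2 * s)) + M := by
      intro N
      induction N with
      | zero =>
        intro X hX hX'
        have hXX : X = X₀ := le_antisymm (by simpa using hX') hX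
        have hX0 : 0 ≤ X := by linarith
        have hlx : 0 ≤ Real.log X := by linarith [hL X hX]
        have : 0 ≤ M * (X * (Real.log X) ^ (2 * s)) := by positivity
        rw [hXX] at this ⊢
        linarith
      | succ N ih =>
        intro X hX hX'
        have hX0 : 0 < X := by linarith
        have hLX := hL X hX
        have hXL : X / Real.log X ≤ X / 2 := by
          apply div_le_div_of_nonneg_left hX0.le (by norm_num) hLX
        have hst := step s h hX0.le (by linarith : (1 : ℝ) ≤ Real.log X)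
        have hHX := H X hX
        have hP : 0 ≤ X * (Real.log X) ^ (2 * s) := by positivity
        have hsmall : DS s h 0 ⌊X / Real.log X⌋₊ ≤ M * (X * (Real.log X) ^ (2 * s)) / 2 + M := by
          rcases le_or_gt X₀ (X / Real.log X) with hc | hc
          · have h1 := ih (X / Real.log X) hc (by
              rw [pow_succ] at hX'
              linarith)
            have hY1 : 1 ≤ X / Real.log X := le_trans hX₀ hc
            have hlog : Real.log (X / Real.log X) ≤ Real.log X :=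
              Real.log_le_log (by linarith) (by linarith)
            have hlog0 : 0 ≤ Real.log (X / Real.log X) := Real.log_nonneg hY1
            have h2 : (X / Real.log X) * (Real.log (X / Real.log X)) ^ (2 * s) ≤
                (X / 2) * (Real.log X) ^ (2 * s) := by
              apply mul_le_mul hXL (pow_le_pow_left₀ hlog0 hlog (2 * s)) (by positivity) (by positivity)
            have h3 := mul_le_mul_of_nonneg_left h2 hM0
            have h4 : M * (X / 2 * (Real.log X) ^ (2 * s)) = M * (X * (Real.log X) ^ (2 * s)) / 2 := by ring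
            linarith
          · have h1 : DS s h 0 ⌊X / Real.log X⌋₊ ≤ DS s h 0 ⌊X₀⌋₊ :=
              DS_mono s h (Nat.floor_le_floor hc.le)
            have h5 : 0 ≤ M * (X * (Real.log X) ^ (2 * s)) / 2 := by positivity
            linarith
        have h6 : (E + 1) * (X * (Real.log X) ^ (2 * s)) ≤ M * (X * (Real.log X) ^ (2 * s)) / 2 := by
          have : (E + 1) ≤ M / 2 := by rw [hM]; linarith
          have := mul_le_mul_of_nonneg_right this hP
          linarith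
        linarith
    intro X hX
    obtain ⟨N, hN⟩ := pow_unbounded_of_one_lt (X / X₀) (by norm_num : (1 : ℝ) < 2)
    refine key N X hX ?_
    have hX₀' : 0 < X₀ := by linarith
    rw [div_lt_iff₀ hX₀'] at hN
    exact hN.le

end IG4

open IG4 in
theorem prfG4 : claimG4 := by
  intro s h E hE H δ hδ
  have hlog : ∀ᶠ X : ℝ in atTop, 2 ≤ Real.log X := Real.tendsto_log_atTop.eventually_ge_atTop 2
  obtain ⟨X₁, hX₁⟩ := eventually_atTop.1 ((H 1 one_pos).and hlog)
  obtain ⟨M, hM0, hM⟩ := main_bound s h E (max X₁ 1) hE (le_max_right _ _)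
    (fun X hX => (hX₁ X (le_trans (le_max_left _ _) hX)).2)
    (fun X hX => (hX₁ X (le_trans (le_max_left _ _) hX)).1)
  have hdiv : Tendsto (fun X : ℝ => X / Real.log X) atTop atTop := by
    have h1 : Tendsto (fun X : ℝ => Real.log X / X) atTop (𝓝[>] 0) := by
      rw [tendsto_nhdsWithin_iff]
      refine ⟨?_, ?_⟩
      · have := Real.isLittleO_log_id_atTop.tendsto_div_nhds_zero
        simpa using this
      · filter_upwards [hlog, eventually_gt_atTop 0] with X h1 h2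
        exact div_pos (by linarith) h2
    have h2 := h1.inv_tendsto_nhdsGT_zero
    refine h2.congr fun X => ?_
    simp [inv_div]
  filter_upwards [H (δ / 2) (by linarith), hlog, eventually_ge_atTop (max X₁ 1),
    hdiv.eventually_ge_atTop (max X₁ 1),
    Real.tendsto_log_atTop.eventually_ge_atTop (4 * M / δ),
    eventually_ge_atTop (4 * M / δ)] with X h1 h2 h3 h4 h5 h6
  have hX1 : 1 ≤ X := le_trans (le_max_right _ _) h3
  have hY1 : 1 ≤ X / Real.log X := le_trans (le_max_right _ _) h4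
  have hst := step s h (by linarith : (0 : ℝ) ≤ X) (by linarith : (1 : ℝ) ≤ Real.log X)
  have hb := hM (X / Real.log X) h4
  have hXlog : X / Real.log X ≤ X := div_le_self (by linarith) (by linarith)
  have hl : Real.log (X / Real.log X) ≤ Real.log X := Real.log_le_log (by linarith) hXlog
  have hl0 : 0 ≤ Real.log (X / Real.log X) := Real.log_nonneg hY1
  have hLpos : 0 < Real.log X := by linarith
  have hMd : 4 * M ≤ δ * Real.log X := by
    rw [div_le_iff₀ hδ] at h5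
    linarith
  have hMX : 4 * M ≤ δ * X := by
    rw [div_le_iff₀ hδ] at h6
    linarith
  have hb1 : M * (X / Real.log X * (Real.log (X / Real.log X)) ^ (2 * s)) ≤
      δ / 4 * (X * (Real.log X) ^ (2 * s)) := by
    calc M * (X / Real.log X * (Real.log (X / Real.log X)) ^ (2 * s))
        ≤ M * (X / Real.log X * (Real.log X) ^ (2 * s)) := by
          apply mul_le_mul_of_nonneg_left _ hM0
          apply mul_le_mul_of_nonneg_left (pow_le_pow_left₀ hl0 hl (2 * s)) (by linarith)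
      _ = (M / Real.log X) * (X * (Real.log X) ^ (2 * s)) := by
          field_simp
      _ ≤ δ / 4 * (X * (Real.log X) ^ (2 * s)) := by
          apply mul_le_mul_of_nonneg_right _ (by positivity)
          rw [div_le_iff₀ hLpos]
          linarith
  have hb2 : M ≤ δ / 4 * (X * (Real.log X) ^ (2 * s)) := by
    have hp : (1 : ℝ) ≤ (Real.log X) ^ (2 * s) := one_le_pow₀ (by linarith)
    have : δ / 4 * X * 1 ≤ δ / 4 * X * (Real.log X) ^ (2 * s) :=
      mul_le_mul_of_nonneg_left hp (by positivity)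
    nlinarith
  calc DS s h 0 ⌊X⌋₊ = DS s h 0 ⌊X / Real.log X⌋₊ + DS s h ⌊X / Real.log X⌋₊ ⌊X⌋₊ := hst
    _ ≤ (M * (X / Real.log X * (Real.log (X / Real.log X)) ^ (2 * s)) + M) +
        (E + δ / 2) * (X * (Real.log X) ^ (2 * s)) := add_le_add hb h1
    _ ≤ (E + δ) * (X * (Real.log X) ^ (2 * s)) := by nlinarith

end Pool.Agent.Work.MP_122e00_nt.Gen

end

section

/-!
# Item M2: sums of means
-/

set_option autoImplicit false

namespace Pool.Agent.Work.MP_122e00_nt.Gen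

open Finset Filter Topology MeasureTheory

open Two

theorem prfM2 : claimM2 := by
  intro s h ψ H₁ H₂ I₁ I₂ h1 h2 δ hδ
  filter_upwards [h1 (δ / 2) (by linarith), h2 (δ / 2) (by linarith)] with X a1 a2 z hz
  have b1 := a1 z hz
  have b2 := a2 z hz
  simp only [mul_add, Finset.sum_add_distrib]
  simp only [add_mul, mul_add] at b1 b2 ⊢
  have e : δ * (X * Real.log X ^ (2 * s)) =
      δ / 2 * (X * Real.log X ^ (2 * s)) + δ / 2 * (X * Real.log X ^ (2 * s)) := by ring
  rw [e]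
  linarith

end Pool.Agent.Work.MP_122e00_nt.Gen

end

section

set_option autoImplicit false

/-!
# S3: the left over part is tiny, pointwise
-/

namespace Pool.Agent.Work.MP_122e00_nt.Hyb

open Finset Filter Topology MeasureTheory

open scoped ArithmeticFunction.vonMangoldt ArithmeticFunction.zeta

namespace IS3

/-- The sum of the inverse squares. -/
noncomputable def Bz : ℝ := ∑' d : ℕ, 1 / (d : ℝ) ^ 2

theorem Bz_nonneg : 0 ≤ Bz := tsum_nonneg fun d => by positivity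

theorem sum_le_Bz (s : Finset ℕ) : ∑ d ∈ s, 1 / (d : ℝ) ^ 2 ≤ Bz := by
  have hs : Summable (fun d : ℕ => 1 / (d : ℝ) ^ 2) :=
    Real.summable_one_div_nat_pow.mpr (by norm_num)
  exact hs.sum_le_tsum s fun d _ => by positivity

theorem vm_le (d : ℕ) : Λ d ≤ (d : ℝ) := by
  refine ArithmeticFunction.vonMangoldt_le_log.trans ?_
  exact Real.log_le_self (Nat.cast_nonneg d)

theorem pow_le (k : ℕ) : ∀ m : ℕ, m ≠ 0 →
    (Λ ^ k : ArithmeticFunction ℝ) m ≤ Bz ^ k * (m : ℝ) ^ 3 := by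
  induction k with
  | zero =>
    intro m hm
    have h1 : (1 : ℝ) ≤ m := by exact_mod_cast Nat.one_le_iff_ne_zero.mpr hm
    rw [pow_zero, pow_zero, one_mul, ArithmeticFunction.one_apply]
    have h2 : (1 : ℝ) ≤ (m : ℝ) ^ 3 := one_le_pow₀ h1
    split_ifs
    · exact h2
    · linarith
  | succ k ih =>
    intro m hm
    rw [pow_succ, ArithmeticFunction.mul_apply]
    have key : ∀ x ∈ m.divisorsAntidiagonal, (Λ ^ k : ArithmeticFunction ℝ) x.1 * Λ x.2 ≤
        Bz ^ k * (m : ℝ) ^ 3 * (1 / (x.2 : ℝ) ^ 2) := by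
      intro x hx
      rw [Nat.mem_divisorsAntidiagonal] at hx
      have h1 : x.1 ≠ 0 := by
        intro h
        rw [h, zero_mul] at hx
        exact hm hx.1.symm
      have h1' : x.2 ≠ 0 := by
        intro h
        rw [h, mul_zero] at hx
        exact hm hx.1.symm
      have h2 := ih x.1 h1
      have h3 : 0 ≤ (Λ ^ k : ArithmeticFunction ℝ) x.1 := (Two.prfU3 k x.1 h1).1
      have h4 : 0 ≤ Λ x.2 := ArithmeticFunction.vonMangoldt_nonneg
      have h5 : (0 : ℝ) < (x.2 : ℝ) := by exact_mod_cast Nat.pos_of_ne_zero h1'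
      have h6 : (0 : ℝ) ≤ Bz ^ k * (x.1 : ℝ) ^ 3 := h3.trans h2
      calc (Λ ^ k : ArithmeticFunction ℝ) x.1 * Λ x.2
          ≤ (Bz ^ k * (x.1 : ℝ) ^ 3) * (x.2 : ℝ) := mul_le_mul h2 (vm_le _) h4 h6
        _ = Bz ^ k * (m : ℝ) ^ 3 * (1 / (x.2 : ℝ) ^ 2) := by
            rw [← hx.1]
            push_cast
            field_simp
    refine (Finset.sum_le_sum key).trans ?_
    rw [← Finset.mul_sum]
    have h7 : ∑ x ∈ m.divisorsAntidiagonal, 1 / (x.2 : ℝ) ^ 2 ≤ Bz := by
      rw [Nat.sum_divisorsAntidiagonal' (f := fun _ b => 1 / (b : ℝ) ^ 2)]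
      exact sum_le_Bz _
    have h8 : (0 : ℝ) ≤ Bz ^ k * (m : ℝ) ^ 3 := by
      have := Bz_nonneg
      positivity
    calc Bz ^ k * (m : ℝ) ^ 3 * ∑ x ∈ m.divisorsAntidiagonal, 1 / (x.2 : ℝ) ^ 2
        ≤ Bz ^ k * (m : ℝ) ^ 3 * Bz := mul_le_mul_of_nonneg_left h7 h8
      _ = Bz ^ (k + 1) * (m : ℝ) ^ 3 := by ring

theorem zeta_le (n : ℕ) (hn : n ≠ 0) :
    (((ζ : ArithmeticFunction ℕ) ^ 3) n : ℝ) ≤ (n : ℝ) ^ 3 := by
  rw [zeta_pow_apply]
  have h1 := card_finMulAntidiag_le 3 n hn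
  have h2 : n.divisors.card ≤ n := Nat.card_divisors_le_self n
  have h3 : (Nat.finMulAntidiag 3 n).card ≤ n ^ 3 := h1.trans (Nat.pow_le_pow_left h2 3)
  exact_mod_cast h3

theorem sum_le (K n : ℕ) (Y : ℝ) (hn : n ≠ 0) :
    (∑ m ∈ n.divisors, if Real.log m < Y then
      ((Λ ^ K : ArithmeticFunction ℝ) m) * (((ζ : ArithmeticFunction ℕ) ^ (2 + 1)) (n / m) : ℝ)
      else 0) ≤ Bz ^ K * (n : ℝ) ^ 7 := by
  have hB := Bz_nonneg
  have hn1 : (1 : ℝ) ≤ n := by exact_mod_cast Nat.one_le_iff_ne_zero.mpr hn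
  have key : ∀ m ∈ n.divisors, (if Real.log m < Y then
      ((Λ ^ K : ArithmeticFunction ℝ) m) * (((ζ : ArithmeticFunction ℕ) ^ (2 + 1)) (n / m) : ℝ)
      else 0) ≤ Bz ^ K * (n : ℝ) ^ 3 * (n : ℝ) ^ 3 := by
    intro m hm
    have hm0 : m ≠ 0 := (Nat.pos_of_mem_divisors hm).ne'
    have hmn : m ≤ n := Nat.divisor_le hm
    have hdn : n / m ≠ 0 := by
      have := Nat.div_pos hmn (Nat.pos_of_ne_zero hm0)
      omega
    have h1 := pow_le K m hm0
    have h2 := (Two.prfU3 K m hm0).1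
    have h3 := zeta_le (n / m) hdn
    have h4 : ((n / m : ℕ) : ℝ) ≤ n := by exact_mod_cast Nat.div_le_self n m
    have h5 : (m : ℝ) ≤ n := by exact_mod_cast hmn
    split_ifs
    · refine mul_le_mul (h1.trans ?_) (h3.trans ?_) (by positivity) (by positivity)
      · exact mul_le_mul_of_nonneg_left (pow_le_pow_left₀ (by positivity) h5 3) (by positivity)
      · exact pow_le_pow_left₀ (by positivity) h4 3
    · positivity
  refine (Finset.sum_le_sum key).trans ?_
  rw [Finset.sum_const, nsmul_eq_mul]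
  have h6 : (n.divisors.card : ℝ) ≤ n := by exact_mod_cast Nat.card_divisors_le_self n
  calc (n.divisors.card : ℝ) * (Bz ^ K * (n : ℝ) ^ 3 * (n : ℝ) ^ 3)
      ≤ (n : ℝ) * (Bz ^ K * (n : ℝ) ^ 3 * (n : ℝ) ^ 3) :=
        mul_le_mul_of_nonneg_right h6 (by positivity)
    _ = Bz ^ K * (n : ℝ) ^ 7 := by ring

/-- The pointwise bound. -/
theorem main (hU1 : Two.claimU1) (hP0 : claimP0) (C₀ th c L : ℝ) (K n : ℕ) (hC₀ : 1 ≤ C₀)
    (hL : 0 < L) (hn : n ≠ 0) (hc : c ≤ 27 / 100)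
    (hLL : ∀ (x : Fin (K + 1) → ℝ) (v : Fin 3 → ℝ),
      0 ≤ LL th c K (bi th) x v ∧ LL th c K (bi th) x v ≤ C₀ ^ (K + 1)) :
    Two.TS L 2 (K + 1) n (LL th c K (bi th)) ≤ (2 * C₀ * Bz / L) ^ (K + 1) * (n : ℝ) ^ 7 := by
  have hB := Bz_nonneg
  have hn1 : (1 : ℝ) ≤ n := by exact_mod_cast Nat.one_le_iff_ne_zero.mpr hn
  have hR : 0 ≤ (2 * C₀ * Bz / L) ^ (K + 1) * (n : ℝ) ^ 7 := by positivity
  by_cases h9 : 9 / 10 ≤ Real.log n / L
  · have h1 : Two.TS L 2 (K + 1) n (LL th c K (bi th)) ≤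
        Two.TS L 2 (K + 1) n (fun x v => C₀ ^ (K + 1) * Two.FT (K + 1) c x v) := by
      refine hP0 L (K + 1) n _ _ hL hn ?_
      intro x v _ _ _
      by_cases hl : lft c x
      · have h2 : ∑ j, x j < c := by
          rw [Fin.sum_univ_succ]
          exact hl
        have h3 : (Two.FT (K + 1) c x v : ℝ) = 1 := by
          simp only [Two.FT]
          rw [if_pos h2]
        rw [h3, mul_one]
        exact (hLL x v).2
      · have h2 : LL th c K (bi th) x v = 0 := by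
          unfold LL
          rw [if_neg]
          exact fun h => hl h.2
        rw [h2]
        have h3 : (0 : ℝ) ≤ Two.FT (K + 1) c x v := by
          simp only [Two.FT]
          split_ifs <;> norm_num
        positivity
    have h4 : Two.TS L 2 (K + 1) n (fun x v => C₀ ^ (K + 1) * Two.FT (K + 1) c x v) =
        C₀ ^ (K + 1) * Two.TS L 2 (K + 1) n (Two.FT (K + 1) c) :=
      (Two.prfT1 L 2 (K + 1) n (Two.FT (K + 1) c) (Two.FT (K + 1) c) (C₀ ^ (K + 1))).2
    have h5 : L / 2 ≤ Real.log n - c * L := by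
      rw [le_div_iff₀ hL] at h9
      nlinarith
    have h6 := hU1 2 (K + 1) n L (L / 2) c hL (by positivity) hn h5
    have h7 := sum_le (K + 1) n (c * L) hn
    have h8 : Two.TS L 2 (K + 1) n (Two.FT (K + 1) c) ≤
        ((L / 2)⁻¹) ^ (K + 1) * (Bz ^ (K + 1) * (n : ℝ) ^ 7) :=
      h6.trans (mul_le_mul_of_nonneg_left h7 (by positivity))
    calc Two.TS L 2 (K + 1) n (LL th c K (bi th))
        ≤ C₀ ^ (K + 1) * Two.TS L 2 (K + 1) n (Two.FT (K + 1) c) := h4 ▸ h1
      _ ≤ C₀ ^ (K + 1) * (((L / 2)⁻¹) ^ (K + 1) * (Bz ^ (K + 1) * (n : ℝ) ^ 7)) :=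
          mul_le_mul_of_nonneg_left h8 (by positivity)
      _ = (C₀ * (L / 2)⁻¹ * Bz) ^ (K + 1) * (n : ℝ) ^ 7 := by
          rw [mul_pow, mul_pow]
          ring
      _ = (2 * C₀ * Bz / L) ^ (K + 1) * (n : ℝ) ^ 7 := by
          congr 2
          field_simp
  · have h1 : Two.TS L 2 (K + 1) n (LL th c K (bi th)) ≤
        Two.TS L 2 (K + 1) n (fun x v => (0 : ℝ) * Two.FT (K + 1) c x v) := by
      refine hP0 L (K + 1) n _ _ hL hn ?_
      intro x v _ _ hs
      have h2 : LL th c K (bi th) x v = 0 := by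
        unfold LL
        rw [if_neg]
        intro h
        have h3 := h.1.2.2.1
        rw [hs] at h3
        exact h9 h3
      rw [h2, zero_mul]
    have h4 : Two.TS L 2 (K + 1) n (fun x v => (0 : ℝ) * Two.FT (K + 1) c x v) =
        0 * Two.TS L 2 (K + 1) n (Two.FT (K + 1) c) :=
      (Two.prfT1 L 2 (K + 1) n (Two.FT (K + 1) c) (Two.FT (K + 1) c) 0).2
    rw [h4, zero_mul] at h1
    exact h1.trans hR

end IS3

theorem prfS3 (hF1 : claimF1) (hU1 : Two.claimU1) (hP0 : claimP0) : claimS3 := by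
  obtain ⟨C₀, hC₀, hF⟩ := hF1
  intro th c hth hth1 hc c₁ hc₁
  have hB := IS3.Bz_nonneg
  have ht : Tendsto (fun X : ℝ => 2 * C₀ * IS3.Bz / Real.log X) atTop (𝓝 0) :=
    Real.tendsto_log_atTop.const_div_atTop _
  have he : (0 : ℝ) < Real.exp (-(8 / c₁)) := Real.exp_pos _
  filter_upwards [ht.eventually (eventually_le_nhds he), eventually_gt_atTop (1 : ℝ)] with X hX hX1
  intro n hn hnX
  have hL : 0 < Real.log X := Real.log_pos hX1
  have hX0 : 0 < X := by linarith
  set K := ⌊c₁ * Real.log X⌋₊ with hK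
  have h1 := IS3.main hU1 hP0 C₀ th c (Real.log X) K n hC₀ hL hn (by rw [hc]; linarith)
    (fun x v => ⟨(hF th c hth hth1 hc K x v).2.2.1, (hF th c hth hth1 hc K x v).2.2.2⟩)
  refine h1.trans ?_
  have hC0 : 0 ≤ C₀ := by linarith
  have h2 : (2 * C₀ * IS3.Bz / Real.log X) ^ (K + 1) ≤ Real.exp (-(8 / c₁)) ^ (K + 1) :=
    pow_le_pow_left₀ (by positivity) hX _
  have h3 : c₁ * Real.log X ≤ ((K + 1 : ℕ) : ℝ) := by
    push_cast
    exact (Nat.lt_floor_add_one _).le
  have h4 : Real.exp (-(8 / c₁)) ^ (K + 1) ≤ (X ^ 8)⁻¹ := by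
    rw [← Real.exp_nat_mul]
    have h5 : ((K + 1 : ℕ) : ℝ) * (-(8 / c₁)) ≤ -(8 * Real.log X) := by
      have h6 : c₁ * Real.log X * (8 / c₁) ≤ ((K + 1 : ℕ) : ℝ) * (8 / c₁) :=
        mul_le_mul_of_nonneg_right h3 (by positivity)
      have h7 : c₁ * Real.log X * (8 / c₁) = 8 * Real.log X := by
        field_simp
      linarith
    refine (Real.exp_le_exp.mpr h5).trans ?_
    rw [Real.exp_neg]
    have h8 : Real.exp (8 * Real.log X) = X ^ 8 := by
      have h9 : (8 : ℝ) * Real.log X = ((8 : ℕ) : ℝ) * Real.log X := by norm_num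
      rw [h9, Real.exp_nat_mul, Real.exp_log hX0]
    rw [h8]
  have h10 : (n : ℝ) ^ 7 ≤ X ^ 7 := pow_le_pow_left₀ (Nat.cast_nonneg n) hnX 7
  calc (2 * C₀ * IS3.Bz / Real.log X) ^ (K + 1) * (n : ℝ) ^ 7
      ≤ (X ^ 8)⁻¹ * X ^ 7 := mul_le_mul (h2.trans h4) h10 (by positivity) (by positivity)
    _ = X⁻¹ := by
        field_simp

end Pool.Agent.Work.MP_122e00_nt.Hyb

end

section

set_option autoImplicit false

/-!
# Shifted divisor sums with marks: the arithmetic module, assembled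
-/

namespace Pool.Agent.Work.MP_122e00_nt.Two

/-- Counting with arbitrary coefficients, both directions. -/
theorem gc : claimGC := prfG6 prfG1 prfG2 prfG3 prfG4 prfG5

/-- Weighted pair sums. -/
theorem pw : claimPW := prfL4 prfL1 prfL2 prfL3

/-- Boxes with marks. -/
theorem mb : claimMB := prfL7 pw prfL5 prfL6

/-- Total mass. -/
theorem tm : claimTM := prfT6 gc pw prfL6 prfT5

/-- The asymptotic evaluation of structure sums with marks. -/
theorem asy : claimASY :=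
  prfA2 prfL1 prfT1 prfT2 prfT3 tm prfT7 prfT8 (prfA1 gc mb prfT4)

/-- The crude bound with arbitrary coefficients. -/
theorem cr : claimCR := prfA3 gc

end Pool.Agent.Work.MP_122e00_nt.Two

end

section

set_option autoImplicit false

/-!
# B9: the sum over the lengths of the chain
-/

namespace Pool.Agent.Work.MP_122e00_nt.Gen

open Finset Filter Topology MeasureTheory

open scoped ENNReal

open Two

namespace IB9

/-- split off the last variable -/
theorem peel {k : ℕ} (F : (Fin (k + 1) → ℝ) → ℝ≥0∞) (hF : Measurable F) :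
    ∫⁻ x, F x = ∫⁻ y : Fin k → ℝ, ∫⁻ t : ℝ, F (Fin.snoc y t) := by
  have hmp := (volume_preserving_piFinSuccAbove (fun _ : Fin (k + 1) => ℝ) (Fin.last k)).symm
  have h1 : ∫⁻ x, F x = ∫⁻ p : ℝ × (Fin k → ℝ), F (Fin.snoc p.2 p.1) := by
    rw [← hmp.lintegral_comp_emb (MeasurableEquiv.measurableEmbedding _)]
    refine lintegral_congr fun p => ?_
    congr 1
    funext m
    refine Fin.lastCases ?_ (fun i => ?_) m
    · simp [MeasurableEquiv.piFinSuccAbove]
    · simp [MeasurableEquiv.piFinSuccAbove]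
  have hm : Measurable (fun p : ℝ × (Fin k → ℝ) => F (Fin.snoc p.2 p.1)) := by
    refine hF.comp (measurable_pi_iff.2 fun m => ?_)
    refine Fin.lastCases ?_ (fun i => ?_) m
    · simp only [Fin.snoc_last]
      exact measurable_fst
    · simp only [Fin.snoc_castSucc]
      exact (measurable_pi_apply i).comp measurable_snd
  rw [h1, Measure.volume_eq_prod, lintegral_prod_symm _ hm.aemeasurable]

theorem int_pow (s : ℕ) (a c : ℝ) : ∫ u in a..c, (1 - u) ^ s =
    ((1 - a) ^ (s + 1) - (1 - c) ^ (s + 1)) / (s + 1) := by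
  rw [intervalIntegral.integral_comp_sub_left (fun x => x ^ s) 1, integral_pow]

/-- integral over the last mark -/
theorem int_last (s : ℕ) {c : ℝ} (hc : c < 1) (a : ℝ) :
    ∫⁻ t : ℝ, (if c ≤ a + t ∧ a + t < 1 then
      ENNReal.ofReal ((1 - (a + t)) ^ s / (s.factorial : ℝ)) else 0) =
      ENNReal.ofReal ((1 - c) ^ (s + 1) / ((s + 1).factorial : ℝ)) := by
  rw [lintegral_add_left_eq_self (fun u => if c ≤ u ∧ u < 1 then
      ENNReal.ofReal ((1 - u) ^ s / (s.factorial : ℝ)) else 0) a]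
  have h1 : ∫⁻ u : ℝ, (if c ≤ u ∧ u < 1 then
      ENNReal.ofReal ((1 - u) ^ s / (s.factorial : ℝ)) else 0) =
      ∫⁻ u in Set.Ico c 1, ENNReal.ofReal ((1 - u) ^ s / (s.factorial : ℝ)) := by
    rw [← lintegral_indicator measurableSet_Ico]
    refine lintegral_congr fun u => ?_
    by_cases hu : u ∈ Set.Ico c 1
    · rw [Set.indicator_of_mem hu]
      exact if_pos hu
    · rw [Set.indicator_of_notMem hu]
      exact if_neg hu
  rw [h1, ← ofReal_integral_eq_lintegral_ofReal]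
  · rw [integral_Ico_eq_integral_Ioc, ← intervalIntegral.integral_of_le hc.le]
    rw [intervalIntegral.integral_div, int_pow, sub_self, Nat.factorial_succ]
    congr 1
    have h2 : (s.factorial : ℝ) ≠ 0 := by positivity
    have h3 : (s : ℝ) + 1 ≠ 0 := by positivity
    push_cast
    rw [zero_pow (Nat.succ_ne_zero s)]
    field_simp
    ring
  · refine (Continuous.integrableOn_Icc ?_).mono_set Set.Ico_subset_Icc_self
    fun_prop
  · refine (ae_restrict_iff' measurableSet_Ico).2 (Filter.Eventually.of_forall fun u hu => ?_)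
    have : 0 ≤ 1 - u := by linarith [hu.2]
    positivity

/-- the supersolution is an exact solution -/
theorem int_E (n : ℕ) {a c : ℝ} (hac : a < c) (hc : c < 1) :
    1 + ∫⁻ t in Set.Ioo a c, ENNReal.ofReal (((n : ℝ) + 1) / (1 - t)) *
      ENNReal.ofReal ((1 - t) ^ (n + 1) / (1 - c) ^ (n + 1)) =
      ENNReal.ofReal ((1 - a) ^ (n + 1) / (1 - c) ^ (n + 1)) := by
  have hc1 : 0 < 1 - c := by linarith
  have h1 : ∫⁻ t in Set.Ioo a c, ENNReal.ofReal (((n : ℝ) + 1) / (1 - t)) *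
      ENNReal.ofReal ((1 - t) ^ (n + 1) / (1 - c) ^ (n + 1)) =
      ∫⁻ t in Set.Ioo a c, ENNReal.ofReal (((n : ℝ) + 1) * (1 - t) ^ n / (1 - c) ^ (n + 1)) := by
    refine setLIntegral_congr_fun measurableSet_Ioo fun t ht => ?_
    have ht1 : 0 < 1 - t := by linarith [ht.2]
    rw [← ENNReal.ofReal_mul (by positivity)]
    congr 1
    rw [pow_succ (1 - t)]
    field_simp
  rw [h1, ← ofReal_integral_eq_lintegral_ofReal]
  · rw [← integral_Ioc_eq_integral_Ioo, ← intervalIntegral.integral_of_le hac.le,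
      intervalIntegral.integral_div, intervalIntegral.integral_const_mul, int_pow,
      ← ENNReal.ofReal_one, ← ENNReal.ofReal_add zero_le_one]
    · congr 1
      have h3 : (n : ℝ) + 1 ≠ 0 := by positivity
      field_simp
      ring
    · have h3 : (0 : ℝ) < (n : ℝ) + 1 := by positivity
      have h4 : (1 - c) ^ (n + 1) ≤ (1 - a) ^ (n + 1) :=
        pow_le_pow_left₀ hc1.le (by linarith) _
      refine div_nonneg (mul_nonneg h3.le (div_nonneg (by linarith) h3.le)) (by positivity)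
  · refine (Continuous.integrableOn_Icc ?_).mono_set Set.Ioo_subset_Icc_self
    fun_prop
  · refine (ae_restrict_iff' measurableSet_Ioo).2 (Filter.Eventually.of_forall fun t ht => ?_)
    have : 0 ≤ 1 - t := by linarith [ht.2]
    positivity

theorem prod_snoc {k : ℕ} (y : Fin k → ℝ) (t : ℝ) :
    (∏ j : Fin (k + 1), (1 - ∑ i ∈ Finset.univ.filter (fun i : Fin (k + 1) => i < j),
      (Fin.snoc y t : Fin (k + 1) → ℝ) i)⁻¹) =
    ∏ m : Fin k, (1 - ∑ i ∈ Finset.univ.filter (fun i : Fin k => i ≤ m), y i)⁻¹ := by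
  rw [Fin.prod_univ_succ]
  have h0 : (Finset.univ.filter fun i : Fin (k + 1) => i < 0) = ∅ := by
    ext i
    simp
  rw [h0, Finset.sum_empty, sub_zero, inv_one, one_mul]
  refine Finset.prod_congr rfl fun m _ => ?_
  congr 2
  rw [Finset.sum_filter, Finset.sum_filter, Fin.sum_univ_castSucc]
  have h1 : ¬ Fin.last k < m.succ := not_lt.2 (Fin.le_last _)
  rw [if_neg h1, add_zero]
  refine Finset.sum_congr rfl fun i _ => ?_
  rw [Fin.snoc_castSucc]
  have h2 : (Fin.castSucc i < m.succ) ↔ i ≤ m := Fin.castSucc_lt_succ_iff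
  simp only [h2]

theorem meas_S1 (k : ℕ) (e : ℝ) :
    MeasurableSet {x : Fin k → ℝ | (∀ i, 0 < x i) ∧ ∑ i, x i < e} := by
  have h1 : MeasurableSet {x : Fin k → ℝ | ∀ i, 0 < x i} := by
    rw [show {x : Fin k → ℝ | ∀ i, 0 < x i} = ⋂ i, {x | 0 < x i} by ext; simp]
    exact MeasurableSet.iInter fun m => measurableSet_lt measurable_const (measurable_pi_apply m)
  exact h1.inter (measurableSet_lt (Finset.measurable_sum _ fun m _ => measurable_pi_apply m)
    measurable_const)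

theorem meas_stp (k : ℕ) (c : ℝ) : MeasurableSet {x : Fin (k + 1) → ℝ | stp c x} := by
  have h1 : MeasurableSet {x : Fin (k + 1) → ℝ | c ≤ ∑ j, x j} :=
    measurableSet_le measurable_const
      (Finset.measurable_sum _ fun m _ => measurable_pi_apply m)
  have h2 : MeasurableSet {x : Fin (k + 1) → ℝ | ∑ j : Fin k, x j.castSucc < c} := by
    refine measurableSet_lt (Finset.measurable_sum _ fun m _ => ?_) measurable_const
    exact measurable_pi_apply (Fin.castSucc m)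
  exact h1.inter h2

/-- partial sums are smaller than the total -/
theorem part_le {k : ℕ} {y : Fin k → ℝ} (hy : ∀ i, 0 < y i) (m : Fin k) :
    ∑ i ∈ Finset.univ.filter (fun i : Fin k => i ≤ m), y i ≤ ∑ i, y i :=
  Finset.sum_le_sum_of_subset_of_nonneg (Finset.filter_subset _ _) fun i _ _ => (hy i).le

open Classical in
/-- the term with `k + 1` marks -/
theorem term (h8 : claimB8) (s : ℕ) {c : ℝ} (hc : c < 1) (k : ℕ) :
    0 ≤ (∫ y in Sim (k + 1) s, ext (FB s c (k + 1)) (y, 1 - ∑ i, y i) * den y) ∧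
    ENNReal.ofReal (∫ y in Sim (k + 1) s, ext (FB s c (k + 1)) (y, 1 - ∑ i, y i) * den y) ≤
      ENNReal.ofReal (((s : ℝ) + 1) ^ 2 * ((1 - c) ^ (s + 1) / ((s + 1).factorial : ℝ))) *
      ∫⁻ x in {x : Fin k → ℝ | (∀ m, 0 < x m) ∧ ∑ m, x m < c},
        ∏ m : Fin k, ENNReal.ofReal (((s : ℝ) + 1) ^ 2 /
          (1 - ∑ m' ∈ Finset.univ.filter (fun m' : Fin k => m' ≤ m), x m')) := by
  set f : (Fin (k + 1) → ℝ) → ℝ := fun x =>
    if stp c x then ((s : ℝ) + 1) ^ (2 * (k + 1)) else 0 with hf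
  have mf : Measurable f := Measurable.ite (meas_stp k c) measurable_const measurable_const
  have h0 := h8 s (k + 1) f (((s : ℝ) + 1) ^ (2 * (k + 1))) mf (fun x => by
    rw [hf]
    dsimp only
    split_ifs
    · exact ⟨by positivity, le_rfl⟩
    · exact ⟨le_rfl, by positivity⟩)
  have h1 : (∫ y in Sim (k + 1) s, ext (FB s c (k + 1)) (y, 1 - ∑ i, y i) * den y) =
      ∫ y in Sim (k + 1) s, f (fun i => y (Sum.inl i)) * den y := rfl
  rw [h1, h0]
  set S1 : Set (Fin (k + 1) → ℝ) := {x | (∀ i, 0 < x i) ∧ ∑ i, x i < 1} with hS1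
  have mS1 : MeasurableSet S1 := meas_S1 (k + 1) 1
  set P : (Fin (k + 1) → ℝ) → ℝ := fun x =>
    ∏ j : Fin (k + 1), (1 - ∑ i ∈ Finset.univ.filter (fun i : Fin (k + 1) => i < j), x i)⁻¹
    with hP
  set W : (Fin (k + 1) → ℝ) → ℝ := fun x => (1 - ∑ i, x i) ^ s / (s.factorial : ℝ) with hW
  have mP : Measurable P := Finset.measurable_prod _ fun j _ =>
    (measurable_const.sub (Finset.measurable_sum _ fun m _ => measurable_pi_apply m)).inv
  have mW : Measurable W := ((measurable_const.sub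
    (Finset.measurable_sum _ fun m _ => measurable_pi_apply m)).pow_const s).div_const _
  have mg : Measurable (fun x => f x * P x * W x) := (mf.mul mP).mul mW
  have hg0 : ∀ x ∈ S1, 0 ≤ f x * P x * W x := by
    rintro x ⟨hx1, hx2⟩
    refine mul_nonneg (mul_nonneg ?_ ?_) ?_
    · rw [hf]
      dsimp only
      split_ifs <;> positivity
    · refine Finset.prod_nonneg fun j _ => inv_nonneg.2 ?_
      have : ∑ i ∈ Finset.univ.filter (fun i : Fin (k + 1) => i < j), x i ≤ ∑ i, x i :=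
        Finset.sum_le_sum_of_subset_of_nonneg (Finset.filter_subset _ _) fun i _ _ => (hx1 i).le
      linarith
    · have : 0 ≤ 1 - ∑ i, x i := by linarith
      exact div_nonneg (pow_nonneg this s) (by positivity)
  have hnn : 0 ≤ᵐ[volume.restrict S1] fun x => f x * P x * W x :=
    (ae_restrict_iff' mS1).2 (Filter.Eventually.of_forall hg0)
  refine ⟨integral_nonneg_of_ae hnn, ?_⟩
  have h2 : ENNReal.ofReal (∫ x in S1, f x * P x * W x) ≤
      ∫⁻ x in S1, ENNReal.ofReal (f x * P x * W x) := by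
    rw [integral_eq_lintegral_of_nonneg_ae hnn mg.aestronglyMeasurable]
    exact ENNReal.ofReal_toReal_le
  refine h2.trans (le_of_eq ?_)
  have mG : Measurable (S1.indicator fun x => ENNReal.ofReal (f x * P x * W x)) :=
    (ENNReal.measurable_ofReal.comp mg).indicator mS1
  rw [← lintegral_indicator mS1, peel _ mG]
  -- the integrand
  have hkey : ∀ (y : Fin k → ℝ) (t : ℝ),
      S1.indicator (fun x => ENNReal.ofReal (f x * P x * W x)) (Fin.snoc y t) =
      (if (∀ m, 0 < y m) ∧ ∑ m, y m < c then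
        ENNReal.ofReal (((s : ℝ) + 1) ^ 2) * ∏ m : Fin k, ENNReal.ofReal (((s : ℝ) + 1) ^ 2 /
          (1 - ∑ m' ∈ Finset.univ.filter (fun m' : Fin k => m' ≤ m), y m')) else 0) *
      (if c ≤ (∑ m, y m) + t ∧ (∑ m, y m) + t < 1 then
        ENNReal.ofReal ((1 - ((∑ m, y m) + t)) ^ s / (s.factorial : ℝ)) else 0) := by
    intro y t
    have hsum : ∑ i, (Fin.snoc y t : Fin (k + 1) → ℝ) i = (∑ m, y m) + t := by
      rw [Fin.sum_univ_castSucc, Fin.snoc_last]
      simp only [Fin.snoc_castSucc]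
    have hsum2 : ∑ j : Fin k, (Fin.snoc y t : Fin (k + 1) → ℝ) j.castSucc = ∑ m, y m := by
      simp only [Fin.snoc_castSucc]
    have hmem : (Fin.snoc y t : Fin (k + 1) → ℝ) ∈ S1 ↔
        ((∀ m, 0 < y m) ∧ 0 < t) ∧ (∑ m, y m) + t < 1 := by
      rw [hS1, Set.mem_ofPred_eq, hsum, Fin.forall_fin_succ']
      simp only [Fin.snoc_castSucc, Fin.snoc_last]
    have hstp : stp c (Fin.snoc y t : Fin (k + 1) → ℝ) ↔
        c ≤ (∑ m, y m) + t ∧ ∑ m, y m < c := by
      unfold stp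
      rw [hsum, hsum2]
    by_cases hA : (∀ m, 0 < y m) ∧ ∑ m, y m < c
    · by_cases hB : c ≤ (∑ m, y m) + t ∧ (∑ m, y m) + t < 1
      · have ht : 0 < t := by linarith [hA.2, hB.1]
        rw [Set.indicator_of_mem (hmem.2 ⟨⟨hA.1, ht⟩, hB.2⟩), if_pos hA, if_pos hB]
        have e1 : f (Fin.snoc y t) = ((s : ℝ) + 1) ^ (2 * (k + 1)) := by
          rw [hf]
          exact if_pos (hstp.2 ⟨hB.1, hA.2⟩)
        have e2 : P (Fin.snoc y t) =
            ∏ m : Fin k, (1 - ∑ i ∈ Finset.univ.filter (fun i : Fin k => i ≤ m), y i)⁻¹ :=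
          prod_snoc y t
        have e3 : W (Fin.snoc y t) = (1 - ((∑ m, y m) + t)) ^ s / (s.factorial : ℝ) := by
          rw [hW]
          dsimp only
          rw [hsum]
        have hpos : ∀ m : Fin k,
            0 < 1 - ∑ i ∈ Finset.univ.filter (fun i : Fin k => i ≤ m), y i := fun m => by
          have := part_le hA.1 m
          linarith [hA.2]
        rw [e1, e2, e3, ← ENNReal.ofReal_prod_of_nonneg fun m _ =>
          div_nonneg (by positivity) (hpos m).le, ← ENNReal.ofReal_mul (by positivity),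
          ← ENNReal.ofReal_mul]
        · congr 2
          simp only [div_eq_mul_inv]
          rw [Finset.prod_mul_distrib, Finset.prod_const, Finset.card_univ, Fintype.card_fin,
            ← mul_assoc, ← pow_succ', ← pow_mul]
        · exact mul_nonneg (by positivity) (Finset.prod_nonneg fun m _ =>
            div_nonneg (by positivity) (hpos m).le)
      · rw [if_neg hB, mul_zero]
        by_cases hm : (Fin.snoc y t : Fin (k + 1) → ℝ) ∈ S1
        · rw [Set.indicator_of_mem hm]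
          have hns : ¬ stp c (Fin.snoc y t : Fin (k + 1) → ℝ) := fun h =>
            hB ⟨(hstp.1 h).1, (hmem.1 hm).2⟩
          have e1 : f (Fin.snoc y t) = 0 := by
            rw [hf]
            exact if_neg hns
          rw [e1, zero_mul, zero_mul, ENNReal.ofReal_zero]
        · rw [Set.indicator_of_notMem hm]
    · rw [if_neg hA, zero_mul]
      by_cases hm : (Fin.snoc y t : Fin (k + 1) → ℝ) ∈ S1
      · rw [Set.indicator_of_mem hm]
        have hns : ¬ stp c (Fin.snoc y t : Fin (k + 1) → ℝ) := fun h =>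
          hA ⟨(hmem.1 hm).1.1, (hstp.1 h).2⟩
        have e1 : f (Fin.snoc y t) = 0 := by
          rw [hf]
          exact if_neg hns
        rw [e1, zero_mul, zero_mul, ENNReal.ofReal_zero]
      · rw [Set.indicator_of_notMem hm]
  simp_rw [hkey]
  have hint : ∀ (A : ℝ≥0∞) (a : ℝ), ∫⁻ t : ℝ, A * (if c ≤ a + t ∧ a + t < 1 then
      ENNReal.ofReal ((1 - (a + t)) ^ s / (s.factorial : ℝ)) else 0) =
      A * ENNReal.ofReal ((1 - c) ^ (s + 1) / ((s + 1).factorial : ℝ)) := by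
    intro A a
    rw [lintegral_const_mul, int_last s hc a]
    refine Measurable.ite ?_ ?_ measurable_const
    · exact (measurableSet_le measurable_const (measurable_const.add measurable_id)).inter
        (measurableSet_lt (measurable_const.add measurable_id) measurable_const)
    · fun_prop
  simp_rw [hint]
  rw [lintegral_mul_const' _ _ ENNReal.ofReal_ne_top, ENNReal.ofReal_mul (by positivity),
    mul_assoc, mul_comm (ENNReal.ofReal ((1 - c) ^ (s + 1) / ((s + 1).factorial : ℝ))),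
    ← mul_assoc]
  congr 1
  rw [← lintegral_const_mul' _ _ ENNReal.ofReal_ne_top, ← lintegral_indicator (meas_S1 k c)]
  refine lintegral_congr fun y => ?_
  by_cases hy : y ∈ {x : Fin k → ℝ | (∀ i, 0 < x i) ∧ ∑ i, x i < c}
  · rw [Set.indicator_of_mem hy]
    exact if_pos hy
  · rw [Set.indicator_of_notMem hy]
    exact if_neg hy

end IB9

open IB9 in
theorem prfB9 : claimB8 → claimB9 := by
  intro h8 s c _ hc0 hc K
  classical
  have hc1 : 0 < 1 - c := by linarith
  have hRHS : 0 ≤ ((s : ℝ) + 1) ^ 2 * (1 - c) ^ (s + 1) /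
      (((s + 1).factorial : ℝ) * (1 - c) ^ ((s + 1) ^ 2)) := by positivity
  rw [Finset.sum_range_succ']
  have h0 : ∫ y in Sim 0 s, ext (FB s c 0) (y, 1 - ∑ i, y i) * den y = 0 := by
    have : ∀ y : Fin 0 ⊕ Fin s → ℝ, ext (FB s c 0) (y, 1 - ∑ i, y i) * den y = 0 := fun y => by
      have : ext (FB s c 0) (y, 1 - ∑ i, y i) = 0 := rfl
      rw [this, zero_mul]
    rw [integral_congr_ae (Filter.Eventually.of_forall this)]
    exact integral_zero _ _
  rw [h0, add_zero]
  rcases K with _ | K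
  · rw [Finset.sum_range_zero]
    exact hRHS
  rw [← ENNReal.ofReal_le_ofReal_iff hRHS,
    ENNReal.ofReal_sum_of_nonneg fun k _ => (term h8 s hc k).1]
  refine (Finset.sum_le_sum fun k _ => (term h8 s hc k).2).trans ?_
  rw [← Finset.mul_sum]
  obtain ⟨n, hn⟩ : ∃ n : ℕ, (s + 1) ^ 2 = n + 1 := ⟨s ^ 2 + 2 * s, by ring⟩
  have hn' : ((s : ℝ) + 1) ^ 2 = (n : ℝ) + 1 := by exact_mod_cast hn
  have hC0 := Hyb.prfC0 (fun t => ENNReal.ofReal (((n : ℝ) + 1) / (1 - t)))
    (fun t => ENNReal.ofReal ((1 - t) ^ (n + 1) / (1 - c) ^ (n + 1))) c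
    (ENNReal.measurable_ofReal.comp (measurable_const.div (measurable_const.sub measurable_id)))
    (ENNReal.measurable_ofReal.comp
      (((measurable_const.sub measurable_id).pow_const _).div_const _))
    (fun a _ hac => (int_E n hac hc).le) K
  rw [if_pos hc0] at hC0
  have h1 : ∑ k ∈ Finset.range (K + 1),
      ∫⁻ x in {x : Fin k → ℝ | (∀ m, 0 < x m) ∧ ∑ m, x m < c},
        ∏ m : Fin k, ENNReal.ofReal (((s : ℝ) + 1) ^ 2 /
          (1 - ∑ m' ∈ Finset.univ.filter (fun m' : Fin k => m' ≤ m), x m')) ≤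
      ENNReal.ofReal ((1 - 0) ^ (n + 1) / (1 - c) ^ (n + 1)) := by
    rw [hn']
    exact hC0
  refine (mul_le_mul_right h1 _).trans ?_
  rw [← ENNReal.ofReal_mul (by positivity), sub_zero, one_pow, hn]
  refine le_of_eq ?_
  congr 1
  field_simp

end Pool.Agent.Work.MP_122e00_nt.Gen

end
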