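import Pool.Agent.Work.MP_122e00_nt.Gen.Stmts
import Pool.Agent.Work.MP_122e00_nt.Bd.B45
import Pool.Agent.Work.MP_122e00_nt.Two.ItemU1
import Pool.Agent.Work.MP_122e00_nt.Bd.B41
import Pool.Agent.Work.MP_122e00_nt.Two.ItemU7
import Pool.Agent.Work.MP_122e00_nt.Euler4
import Pool.Agent.Work.MP_122e00_nt.Bd.B40

/-! Bundle of small proof modules (one section per former module). -/

section

set_option autoImplicit false

/-!
# Item G2: the left over part is tiny, pointwise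
-/

namespace Pool.Agent.Work.MP_122e00_nt.Gen

open Finset Filter Topology MeasureTheory Two

open scoped ArithmeticFunction.vonMangoldt ArithmeticFunction.zeta

namespace IG2

theorem zeta_le (s n : ℕ) (hn : n ≠ 0) :
    (((ζ : ArithmeticFunction ℕ) ^ (s + 1)) n : ℝ) ≤ (n : ℝ) ^ (s + 1) := by
  rw [zeta_pow_apply]
  have h1 := card_finMulAntidiag_le (s + 1) n hn
  have h2 : n.divisors.card ≤ n := Nat.card_divisors_le_self n
  have h3 : (Nat.finMulAntidiag (s + 1) n).card ≤ n ^ (s + 1) :=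
    h1.trans (Nat.pow_le_pow_left h2 (s + 1))
  exact_mod_cast h3

theorem sum_le (s K n : ℕ) (Y : ℝ) (hn : n ≠ 0) :
    (∑ m ∈ n.divisors, if Real.log m < Y then
      ((Λ ^ K : ArithmeticFunction ℝ) m) * (((ζ : ArithmeticFunction ℕ) ^ (s + 1)) (n / m) : ℝ)
      else 0) ≤ Hyb.IS3.Bz ^ K * (n : ℝ) ^ (s + 5) := by
  have hB := Hyb.IS3.Bz_nonneg
  have hn1 : (1 : ℝ) ≤ n := by exact_mod_cast Nat.one_le_iff_ne_zero.mpr hn
  have key : ∀ m ∈ n.divisors, (if Real.log m < Y then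
      ((Λ ^ K : ArithmeticFunction ℝ) m) * (((ζ : ArithmeticFunction ℕ) ^ (s + 1)) (n / m) : ℝ)
      else 0) ≤ Hyb.IS3.Bz ^ K * (n : ℝ) ^ 3 * (n : ℝ) ^ (s + 1) := by
    intro m hm
    have hm0 : m ≠ 0 := (Nat.pos_of_mem_divisors hm).ne'
    have hmn : m ≤ n := Nat.divisor_le hm
    have hdn : n / m ≠ 0 := by
      have := Nat.div_pos hmn (Nat.pos_of_ne_zero hm0)
      omega
    have h1 := Hyb.IS3.pow_le K m hm0
    have h2 := (Two.prfU3 K m hm0).1
    have h3 := zeta_le s (n / m) hdn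
    have h4 : ((n / m : ℕ) : ℝ) ≤ n := by exact_mod_cast Nat.div_le_self n m
    have h5 : (m : ℝ) ≤ n := by exact_mod_cast hmn
    split_ifs
    · refine mul_le_mul (h1.trans ?_) (h3.trans ?_) (by positivity) (by positivity)
      · exact mul_le_mul_of_nonneg_left (pow_le_pow_left₀ (by positivity) h5 3) (by positivity)
      · exact pow_le_pow_left₀ (by positivity) h4 (s + 1)
    · positivity
  refine (Finset.sum_le_sum key).trans ?_
  rw [Finset.sum_const, nsmul_eq_mul]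
  have h6 : (n.divisors.card : ℝ) ≤ n := by exact_mod_cast Nat.card_divisors_le_self n
  calc (n.divisors.card : ℝ) * (Hyb.IS3.Bz ^ K * (n : ℝ) ^ 3 * (n : ℝ) ^ (s + 1))
      ≤ (n : ℝ) * (Hyb.IS3.Bz ^ K * (n : ℝ) ^ 3 * (n : ℝ) ^ (s + 1)) :=
        mul_le_mul_of_nonneg_right h6 (by positivity)
    _ = Hyb.IS3.Bz ^ K * (n : ℝ) ^ (s + 5) := by ring

end IG2

theorem prfG2 : claimG2 := by
  intro s C₀ M₀ c₁ hC₀ hM₀ hM₁ hc₁
  have hB := Hyb.IS3.Bz_nonneg
  have hC0 : 0 ≤ C₀ := by linarith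
  have hM : 0 < (1 - M₀) / 2 := by linarith
  have ht : Tendsto (fun X : ℝ => C₀ * Hyb.IS3.Bz / ((1 - M₀) / 2) / Real.log X) atTop (𝓝 0) :=
    Real.tendsto_log_atTop.const_div_atTop _
  have he : (0 : ℝ) < Real.exp (-(2 * (s + 6) / c₁)) := Real.exp_pos _
  have hlog : ∀ᶠ X : ℝ in atTop, Real.log (Real.log X) ≤ (1 - M₀) / 2 * Real.log X := by
    have h1 : ∀ᶠ y : ℝ in atTop, ‖Real.log y‖ ≤ (1 - M₀) / 2 * ‖y‖ :=
      Real.isLittleO_log_id_atTop.bound hM
    filter_upwards [Real.tendsto_log_atTop.eventually h1,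
      Real.tendsto_log_atTop.eventually (eventually_ge_atTop (0 : ℝ))] with X h2 h3
    rw [Real.norm_of_nonneg h3] at h2
    exact (le_abs_self _).trans h2
  filter_upwards [ht.eventually (eventually_le_nhds he), eventually_gt_atTop (1 : ℝ), hlog,
    Real.tendsto_log_atTop.eventually (eventually_ge_atTop (2 / c₁))] with X hX hX1 hXl hX2
  intro n hn hnX
  have hL : 0 < Real.log X := Real.log_pos hX1
  have hX0 : 0 < X := by linarith
  have hn0' : (0 : ℝ) < n := lt_of_lt_of_le (by positivity) hn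
  have hn0 : n ≠ 0 := by
    intro h
    rw [h, Nat.cast_zero] at hn0'
    exact lt_irrefl _ hn0'
  have hlogn : Real.log X - Real.log (Real.log X) ≤ Real.log n := by
    rw [← Real.log_div hX0.ne' hL.ne']
    exact Real.log_le_log (by positivity) hn
  set K := ⌊c₁ * Real.log X⌋₊ with hK
  set a := (1 - M₀) / 2 * Real.log X with ha
  have ha0 : 0 < a := by positivity
  have hale : a ≤ Real.log n - M₀ * Real.log X := by
    rw [ha]
    nlinarith
  have h6 := Two.prfU1 s K n (Real.log X) a M₀ hL ha0 hn0 hale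
  have h7 := IG2.sum_le s K n (M₀ * Real.log X) hn0
  have h8 : Two.TS (Real.log X) s K n (Two.FT K M₀) ≤
      (a⁻¹) ^ K * (Hyb.IS3.Bz ^ K * (n : ℝ) ^ (s + 5)) :=
    h6.trans (mul_le_mul_of_nonneg_left h7 (by positivity))
  have h9 : C₀ ^ K * Two.TS (Real.log X) s K n (Two.FT K M₀) ≤
      (C₀ * Hyb.IS3.Bz / ((1 - M₀) / 2) / Real.log X) ^ K * (n : ℝ) ^ (s + 5) := by
    calc C₀ ^ K * Two.TS (Real.log X) s K n (Two.FT K M₀)
        ≤ C₀ ^ K * ((a⁻¹) ^ K * (Hyb.IS3.Bz ^ K * (n : ℝ) ^ (s + 5))) :=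
          mul_le_mul_of_nonneg_left h8 (by positivity)
      _ = (C₀ * a⁻¹ * Hyb.IS3.Bz) ^ K * (n : ℝ) ^ (s + 5) := by
          rw [mul_pow, mul_pow]
          ring
      _ = _ := by
          congr 2
          rw [ha]
          generalize (1 - M₀) / 2 = b
          rw [mul_inv, div_div, div_eq_mul_inv, mul_inv]
          ring
  refine h9.trans ?_
  have h2 : (C₀ * Hyb.IS3.Bz / ((1 - M₀) / 2) / Real.log X) ^ K ≤
      Real.exp (-(2 * (s + 6) / c₁)) ^ K :=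
    pow_le_pow_left₀ (by positivity) hX _
  have h3 : c₁ * Real.log X / 2 ≤ (K : ℝ) := by
    have h31 : c₁ * Real.log X < (K : ℝ) + 1 := Nat.lt_floor_add_one _
    have h32 : 2 ≤ c₁ * Real.log X := by
      rw [div_le_iff₀ hc₁] at hX2
      linarith
    linarith
  have h4 : Real.exp (-(2 * (s + 6) / c₁)) ^ K ≤ (X ^ (s + 6))⁻¹ := by
    rw [← Real.exp_nat_mul]
    have h5 : (K : ℝ) * (-(2 * (s + 6) / c₁)) ≤ -(((s + 6 : ℕ) : ℝ) * Real.log X) := by
      have h6 : c₁ * Real.log X / 2 * (2 * (s + 6) / c₁) ≤ (K : ℝ) * (2 * (s + 6) / c₁) :=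
        mul_le_mul_of_nonneg_right h3 (by positivity)
      have h7 : c₁ * Real.log X / 2 * (2 * (s + 6) / c₁) = (s + 6) * Real.log X := by
        field_simp
      push_cast
      linarith
    refine (Real.exp_le_exp.mpr h5).trans ?_
    rw [Real.exp_neg, Real.exp_nat_mul, Real.exp_log hX0]
  have h10 : (n : ℝ) ^ (s + 5) ≤ X ^ (s + 5) := pow_le_pow_left₀ (Nat.cast_nonneg n) hnX _
  calc (C₀ * Hyb.IS3.Bz / ((1 - M₀) / 2) / Real.log X) ^ K * (n : ℝ) ^ (s + 5)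
      ≤ (X ^ (s + 6))⁻¹ * X ^ (s + 5) :=
        mul_le_mul (h2.trans h4) h10 (by positivity) (by positivity)
    _ = X⁻¹ := by
        rw [pow_succ X (s + 5), mul_inv, mul_comm _ X⁻¹, mul_assoc,
          inv_mul_cancel₀ (by positivity), mul_one]

end Pool.Agent.Work.MP_122e00_nt.Gen

end

section

set_option autoImplicit false

/-!
# Item M1: the mean value of one structure sum, with signs
-/

namespace Pool.Agent.Work.MP_122e00_nt.Gen

open Finset Filter Topology MeasureTheory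

open scoped ArithmeticFunction.vonMangoldt ArithmeticFunction.zeta

open Two

namespace IM1

theorem Apsi_nonneg {s : ℕ} {ψ : (Fin s → ℝ) → ℝ} (h : ∀ y, 0 ≤ ψ y) (X : ℝ) (z : ℤ) (n : ℕ) :
    0 ≤ Apsi ψ X z n := by
  unfold Apsi
  refine Finset.sum_nonneg fun b _ => ?_
  split_ifs
  · exact h _
  · exact le_rfl

theorem TS_mono {L : ℝ} {s k n : ℕ} (hL : 0 < L) (hn : n ≠ 0)
    {F G : (Fin k → ℝ) → (Fin (s + 1) → ℝ) → ℝ} (h : ∀ x v, F x v ≤ G x v) :
    TS L s k n F ≤ TS L s k n G := by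
  have h1 := (prfT1 L s k n F (fun x v => G x v - F x v) 1).1
  have h2 := prfT2 L s k n hL hn (fun x v => G x v - F x v)
    (fun x v _ _ _ => sub_nonneg.2 (h x v))
  have h3 : (fun x v => F x v + (G x v - F x v)) = G := by
    funext x v; ring
  rw [h3] at h1
  rw [h1]
  linarith

/-- The trivial lower bound. -/
theorem TS_lower {L : ℝ} {s k n : ℕ} (hL : 0 < L) (hn : n ≠ 0)
    {F : (Fin k → ℝ) → (Fin (s + 1) → ℝ) → ℝ} {B : ℝ} (hB : 0 ≤ B) (h : ∀ x v, |F x v| ≤ B) :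
    -TS L s k n F ≤ B * (((ζ : ArithmeticFunction ℕ) ^ (s + 1)) n : ℝ) := by
  have h1 : TS L s k n (fun x v => (-B) * (1 : ℝ)) ≤ TS L s k n F :=
    TS_mono hL hn fun x v => by
      have := (abs_le.1 (h x v)).1
      linarith
  have h2 := (prfT1 L s k n (fun _ _ => 1) (fun _ _ => 1) (-B)).2
  rw [h2] at h1
  have h3 := prfT3.2 L s k n hn
  have h4 : (((ζ : ArithmeticFunction ℕ) ^ (s + 1)) n : ℝ) / (s + 1) ^ k ≤
      (((ζ : ArithmeticFunction ℕ) ^ (s + 1)) n : ℝ) := by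
    apply div_le_self (Nat.cast_nonneg _)
    apply one_le_pow₀
    have : (0 : ℝ) ≤ s := Nat.cast_nonneg s
    linarith
  have h5 := mul_le_mul_of_nonneg_left (h3.trans h4) hB
  linarith

theorem one_sign {s k h : ℕ} {θ : ℝ} {ψ : (Fin s → ℝ) → ℝ} (hs : 1 ≤ s) (hh : h ≠ 0)
    (hθ : 0 < θ) (hθ2 : θ < 1 / 2) (hW : Wt s θ ψ)
    {F : (Fin k → ℝ) → (Fin (s + 1) → ℝ) → ℝ} {B : ℝ} (hF : ∀ x v, |F x v| ≤ B)
    (hc : ∀ᵐ y ∂(volume.restrict (Sim k s)), ContinuousAt (ext F) (y, 1 - ∑ i, y i))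
    {δ : ℝ} (hδ : 0 < δ) {z : ℤ} (hz : z.natAbs = h) :
    ∀ᶠ X : ℝ in atTop, ∑ n ∈ Finset.Ioc ⌊X / Real.log X⌋₊ ⌊X⌋₊,
      Apsi ψ X z n * TS (Real.log X) s k n F ≤
      (Csing s h * (∫ y in O1 s, ψ y) * (∫ y in Sim k s, ext F (y, 1 - ∑ i, y i) * den y) + δ) *
        (X * (Real.log X) ^ (2 * s)) := by
  have hB : 0 ≤ B := (abs_nonneg _).trans (hF 0 0)
  have h1 := asy s k h hs hh θ hθ hθ2 ψ hW z hz F B hF hc
  set C := Csing s h * (∫ y in O1 s, ψ y) *
    (∫ y in Sim k s, ext F (y, 1 - ∑ i, y i) * den y) with hC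
  have h2 := h1.eventually_lt_const (show C < C + δ / 2 by linarith)
  set T := Csing s h * (((s + 1) * volume.real (Rs s ∩ O1 s)) * ∫ y in O1 s, ψ y) with hT
  set c := δ / (2 * (B + 1)) with hcdef
  have hc0 : 0 < c := by positivity
  set η := min 1 (c / (2 * (|T| + 1))) with hη
  have hη0 : 0 < η := lt_min one_pos (by positivity)
  have hη1 : η ≤ 1 := min_le_left _ _
  have hηT : η * T < c := by
    calc η * T ≤ η * |T| := mul_le_mul_of_nonneg_left (le_abs_self _) hη0.le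
      _ ≤ (c / (2 * (|T| + 1))) * |T| :=
          mul_le_mul_of_nonneg_right (min_le_right _ _) (abs_nonneg _)
      _ = (c / 2) * (|T| / (|T| + 1)) := by field_simp
      _ ≤ (c / 2) * 1 := by
          refine mul_le_mul_of_nonneg_left ?_ (by positivity)
          rw [div_le_one (by positivity)]
          linarith
      _ < c := by linarith
  have h3 := tm s h hs hh θ hθ hθ2 ψ hW z hz η hη0 hη1 c hηT
  have h4 : ∀ᶠ X : ℝ in atTop, max 1 (1 / η) ≤ Real.log X :=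
    Real.tendsto_log_atTop.eventually_ge_atTop _
  filter_upwards [h2, h3, h4, eventually_gt_atTop (1 : ℝ)] with X hX2 hX3 hX4 hX1
  have hL1 : 1 ≤ Real.log X := (le_max_left _ _).trans hX4
  have hLη : 1 / η ≤ Real.log X := (le_max_right _ _).trans hX4
  have hL : 0 < Real.log X := by linarith
  have hX0 : 0 < X := by linarith
  have hpos : 0 < X * (Real.log X) ^ (2 * s) := by positivity
  rw [div_lt_iff₀ hpos] at hX2
  have hab : ⌊X / Real.log X⌋₊ ≤ ⌊X⌋₊ := by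
    apply Nat.floor_le_floor
    exact div_le_self hX0.le hL1
  have haη : ⌊X / Real.log X⌋₊ ≤ ⌊η * X⌋₊ := by
    apply Nat.floor_le_floor
    rw [div_le_iff₀ hL]
    have h6 : 1 ≤ η * Real.log X := by
      rw [div_le_iff₀ hη0] at hLη
      linarith
    calc X = X * 1 := (mul_one _).symm
      _ ≤ X * (η * Real.log X) := mul_le_mul_of_nonneg_left h6 hX0.le
      _ = η * X * Real.log X := by ring
  have hA0 : ∀ n, 0 ≤ Apsi ψ X z n := Apsi_nonneg hW.nonneg X z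
  have hsplit : ∑ n ∈ Finset.Icc 1 ⌊X⌋₊, Apsi ψ X z n * TS (Real.log X) s k n F =
      ∑ n ∈ Finset.Icc 1 ⌊X / Real.log X⌋₊, Apsi ψ X z n * TS (Real.log X) s k n F +
      ∑ n ∈ Finset.Ioc ⌊X / Real.log X⌋₊ ⌊X⌋₊, Apsi ψ X z n * TS (Real.log X) s k n F := by
    rw [← Finset.sum_union]
    · congr 1
      ext n
      simp only [Finset.mem_Icc, Finset.mem_union, Finset.mem_Ioc]
      omega
    · rw [Finset.disjoint_left]
      intro n hn hn'
      rw [Finset.mem_Icc] at hn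
      rw [Finset.mem_Ioc] at hn'
      omega
  have hlow : -∑ n ∈ Finset.Icc 1 ⌊X / Real.log X⌋₊, Apsi ψ X z n * TS (Real.log X) s k n F ≤
      B * ∑ n ∈ Finset.Icc 1 ⌊η * X⌋₊,
        Apsi ψ X z n * (((ζ : ArithmeticFunction ℕ) ^ (s + 1)) n : ℝ) := by
    calc -∑ n ∈ Finset.Icc 1 ⌊X / Real.log X⌋₊, Apsi ψ X z n * TS (Real.log X) s k n F
        = ∑ n ∈ Finset.Icc 1 ⌊X / Real.log X⌋₊, Apsi ψ X z n * (-TS (Real.log X) s k n F) := by
          rw [← Finset.sum_neg_distrib]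
          exact Finset.sum_congr rfl fun n _ => by ring
      _ ≤ ∑ n ∈ Finset.Icc 1 ⌊X / Real.log X⌋₊,
          B * (Apsi ψ X z n * (((ζ : ArithmeticFunction ℕ) ^ (s + 1)) n : ℝ)) := by
          refine Finset.sum_le_sum fun n hn => ?_
          rw [Finset.mem_Icc] at hn
          have h7 := mul_le_mul_of_nonneg_left
            (TS_lower (s := s) (k := k) hL (by omega : n ≠ 0) hB hF) (hA0 n)
          refine h7.trans (le_of_eq ?_)
          ring
      _ ≤ ∑ n ∈ Finset.Icc 1 ⌊η * X⌋₊,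
          B * (Apsi ψ X z n * (((ζ : ArithmeticFunction ℕ) ^ (s + 1)) n : ℝ)) := by
          refine Finset.sum_le_sum_of_subset_of_nonneg (Finset.Icc_subset_Icc le_rfl haη)
            fun n _ _ => ?_
          exact mul_nonneg hB (mul_nonneg (hA0 n) (Nat.cast_nonneg _))
      _ = _ := by rw [Finset.mul_sum]
  have hBc : B * (c * (X * (Real.log X) ^ (2 * s))) ≤ δ / 2 * (X * (Real.log X) ^ (2 * s)) := by
    have h8 : B * c ≤ δ / 2 := by
      rw [hcdef]
      have : B * (δ / (2 * (B + 1))) = δ / 2 * (B / (B + 1)) := by field_simp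
      rw [this]
      calc δ / 2 * (B / (B + 1)) ≤ δ / 2 * 1 := by
            refine mul_le_mul_of_nonneg_left ?_ (by positivity)
            rw [div_le_one (by positivity)]
            linarith
        _ = δ / 2 := mul_one _
    calc B * (c * (X * (Real.log X) ^ (2 * s))) = (B * c) * (X * (Real.log X) ^ (2 * s)) := by ring
      _ ≤ _ := mul_le_mul_of_nonneg_right h8 hpos.le
  have h9 := mul_le_mul_of_nonneg_left hX3 hB
  have h10 : ∑ n ∈ Finset.Ioc ⌊X / Real.log X⌋₊ ⌊X⌋₊, Apsi ψ X z n * TS (Real.log X) s k n F ≤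
      (C + δ / 2) * (X * (Real.log X) ^ (2 * s)) + δ / 2 * (X * (Real.log X) ^ (2 * s)) := by
    linarith
  refine h10.trans (le_of_eq ?_)
  ring

end IM1

open IM1 in
/-- M1: one structure sum, with signs. -/
theorem prfM1 : claimM1 := by
  intro s k h θ ψ hs hh hθ hθ2 hW F B hF hc δ hδ
  have hp := one_sign hs hh hθ hθ2 hW hF hc hδ (z := (h : ℤ)) (Int.natAbs_natCast h)
  have hm := one_sign hs hh hθ hθ2 hW hF hc hδ (z := -(h : ℤ))
    (by rw [Int.natAbs_neg, Int.natAbs_natCast])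
  filter_upwards [hp, hm] with X hpX hmX z hz
  rcases Int.natAbs_eq z with h1 | h1
  · rw [h1, hz]
    exact hpX
  · rw [h1, hz]
    exact hmX

end Pool.Agent.Work.MP_122e00_nt.Gen

end

section

set_option autoImplicit false

/-!
# Item M4: the tail of a chain of marks
-/

namespace Pool.Agent.Work.MP_122e00_nt.Gen

open Finset Filter Topology MeasureTheory

open scoped ArithmeticFunction.vonMangoldt ArithmeticFunction.zeta

open Two

namespace IM4

theorem mU7 : claimU7 := prfU7 prfU1 prfU3 (prfU5 prfU4) cr prfT5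

theorem Apsi_nonneg {s : ℕ} {ψ : (Fin s → ℝ) → ℝ} (h : ∀ y, 0 ≤ ψ y) (X : ℝ) (z : ℤ) (n : ℕ) :
    0 ≤ Apsi ψ X z n := by
  unfold Apsi
  refine Finset.sum_nonneg fun b _ => ?_
  split_ifs
  · exact h _
  · exact le_rfl

theorem TS_mono {L : ℝ} {s k n : ℕ} (hL : 0 < L) (hn : n ≠ 0)
    {F G : (Fin k → ℝ) → (Fin (s + 1) → ℝ) → ℝ} (h : ∀ x v, F x v ≤ G x v) :
    TS L s k n F ≤ TS L s k n G := by
  have h1 := (prfT1 L s k n F (fun x v => G x v - F x v) 1).1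
  have h2 := prfT2 L s k n hL hn (fun x v => G x v - F x v)
    (fun x v _ _ _ => sub_nonneg.2 (h x v))
  have h3 : (fun x v => F x v + (G x v - F x v)) = G := by
    funext x v; ring
  rw [h3] at h1
  rw [h1]
  linarith

theorem TS_le {s : ℕ} {C₀ M₀ : ℝ} (hC0 : 1 ≤ C₀) {k : ℕ}
    {F : (Fin (k + 1) → ℝ) → (Fin (s + 1) → ℝ) → ℝ}
    (hF : ∀ x v, F x v ≤ C₀ ^ (k + 1) * FL k M₀ x v) {L : ℝ} (hL : 0 < L) {n : ℕ} (hn : n ≠ 0) :
    TS L s (k + 1) n F ≤ C₀ * (C₀ ^ k * TS L s k n (FT k M₀)) := by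
  have h1 : TS L s (k + 1) n F ≤
      TS L s (k + 1) n (fun x v => C₀ ^ (k + 1) * FL (s := s) k M₀ x v) :=
    TS_mono hL hn hF
  have h2 := (prfT1 L s (k + 1) n (FL k M₀) (FL k M₀) (C₀ ^ (k + 1))).2
  rw [h2] at h1
  have h3 := prfU2 s k n L M₀ hL hn
  have h4 : 0 ≤ TS L s k n (FT k M₀) := by
    refine prfT2 L s k n hL hn _ fun x v _ _ _ => ?_
    unfold FT
    split_ifs
    · exact zero_le_one
    · exact le_rfl
  have h5 : TS L s (k + 1) n (FL k M₀) ≤ TS L s k n (FT k M₀) := by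
    refine h3.trans ?_
    apply div_le_self h4
    have : (0 : ℝ) ≤ s := Nat.cast_nonneg s
    linarith
  calc TS L s (k + 1) n F ≤ C₀ ^ (k + 1) * TS L s (k + 1) n (FL k M₀) := h1
    _ ≤ C₀ ^ (k + 1) * TS L s k n (FT k M₀) :=
        mul_le_mul_of_nonneg_left h5 (by positivity)
    _ = _ := by rw [pow_succ]; ring

theorem sum_shift {f g : ℕ → ℝ} {K N₁ N : ℕ} (hN : N₁ ≤ N) (hfg : ∀ k, f (k + 1) ≤ g k)
    (hg : ∀ k, 0 ≤ g k) : ∑ k ∈ Finset.Ioc (K + 1) N₁, f k ≤ ∑ k ∈ Finset.Ioc K N, g k := by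
  calc ∑ k ∈ Finset.Ioc (K + 1) N₁, f k ≤ ∑ k ∈ Finset.Ioc (K + 1) N₁, g (k - 1) := by
        refine Finset.sum_le_sum fun k hk => ?_
        rw [Finset.mem_Ioc] at hk
        obtain ⟨j, rfl⟩ : ∃ j, k = j + 1 := ⟨k - 1, by omega⟩
        exact hfg j
    _ = ∑ k ∈ (Finset.Ioc (K + 1) N₁).image (fun k => k - 1), g k := by
        rw [Finset.sum_image]
        intro a ha b hb hab
        have ha' := Finset.mem_Ioc.1 (Finset.mem_coe.1 ha)
        have hb' := Finset.mem_Ioc.1 (Finset.mem_coe.1 hb)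
        simp only at hab
        omega
    _ ≤ ∑ k ∈ Finset.Ioc K N, g k := by
        refine Finset.sum_le_sum_of_subset_of_nonneg ?_ fun k _ _ => hg k
        intro k hk
        rw [Finset.mem_image] at hk
        obtain ⟨j, hj, rfl⟩ := hk
        rw [Finset.mem_Ioc] at hj ⊢
        omega

end IM4

open IM4 in
/-- M4: the tail of a chain of marks. -/
theorem prfM4 : claimM4 := by
  intro s h θ ψ hs hh hθ hθ2 hW C₀ M₀ hC0 hM0 hM1
  obtain ⟨c, hc, hU⟩ := mU7 s h hs hh θ hθ hθ2 ψ hW M₀ hM0 hM1 C₀ hC0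
  refine ⟨c, hc, fun c₁ hc1 hc1c ε hε => ?_⟩
  have hC0' : 0 < C₀ := by linarith
  obtain ⟨K, hK⟩ := hU (ε / C₀) (by positivity)
  refine ⟨K + 1, fun FF hFF => ?_⟩
  filter_upwards [hK, eventually_gt_atTop (1 : ℝ)] with X hKX hX1 z hz
  have hL : 0 < Real.log X := Real.log_pos hX1
  have hX0 : 0 < X := by linarith
  have hA0 : ∀ n, 0 ≤ Apsi ψ X z n := Apsi_nonneg hW.nonneg X z
  have hN : ⌊c₁ * Real.log X⌋₊ ≤ ⌊c * Real.log X⌋₊ :=
    Nat.floor_le_floor (mul_le_mul_of_nonneg_right hc1c hL.le)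
  have h1 : ∑ n ∈ Finset.Ioc ⌊X / Real.log X⌋₊ ⌊X⌋₊, Apsi ψ X z n *
      (∑ k ∈ Finset.Ioc (K + 1) ⌊c₁ * Real.log X⌋₊, TS (Real.log X) s k n (FF k)) ≤
      ∑ n ∈ Finset.Ioc ⌊X / Real.log X⌋₊ ⌊X⌋₊, C₀ * (Apsi ψ X z n *
      (∑ k ∈ Finset.Ioc K ⌊c * Real.log X⌋₊, C₀ ^ k * TS (Real.log X) s k n (FT k M₀))) := by
    refine Finset.sum_le_sum fun n hn => ?_
    rw [Finset.mem_Ioc] at hn
    have hn0 : n ≠ 0 := by omega
    have h2 : ∑ k ∈ Finset.Ioc (K + 1) ⌊c₁ * Real.log X⌋₊, TS (Real.log X) s k n (FF k) ≤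
        ∑ k ∈ Finset.Ioc K ⌊c * Real.log X⌋₊,
          C₀ * (C₀ ^ k * TS (Real.log X) s k n (FT k M₀)) := by
      refine sum_shift hN (fun k => TS_le hC0 (fun x v => (hFF k x v).2) hL hn0) fun k => ?_
      have h4 : 0 ≤ TS (Real.log X) s k n (FT k M₀) := by
        refine prfT2 (Real.log X) s k n hL hn0 _ fun x v _ _ _ => ?_
        unfold FT
        split_ifs
        · exact zero_le_one
        · exact le_rfl
      positivity
    rw [← Finset.mul_sum] at h2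
    have h3 := mul_le_mul_of_nonneg_left h2 (hA0 n)
    refine h3.trans (le_of_eq ?_)
    ring
  rw [← Finset.mul_sum] at h1
  have h3 := mul_le_mul_of_nonneg_left (hKX z hz) hC0'.le
  refine h1.trans (h3.trans (le_of_eq ?_))
  field_simp

end Pool.Agent.Work.MP_122e00_nt.Gen

end

section

set_option autoImplicit false

/-!
# The abstract theorem
-/

namespace Pool.Agent.Work.MP_122e00_nt.Gen

open Finset Filter Topology MeasureTheory

open scoped ArithmeticFunction.vonMangoldt ArithmeticFunction.zeta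

open Two

theorem prfAT (h3 : claimG3) (h4 : claimG4) : claimAT := by
  intro s h θ ψ hs hh h0 h1 hW H I hI hDom hMean
  have hC : 0 < Csing s h := Csing_pos hs h hh
  have hpsi : 0 ≤ ∫ y in O1 s, ψ y := integral_nonneg (fun y => hW.nonneg y)
  set A : ℝ := ∫ y in O1 s, ψ y with hA
  have hs0 : (0 : ℝ) < (s : ℝ) + 1 := by positivity
  apply h4 s h (Csing s h * ((s + 1) * A) * I)
    (mul_nonneg (mul_nonneg hC.le (mul_nonneg hs0.le hpsi)) hI)
  intro δ hδ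
  have hG := h3 s h θ ψ hs hh h0 h1 hW H hDom
  have hM := hMean (δ / (2 * ((s : ℝ) + 1))) (by positivity)
  filter_upwards [hG, hM, eventually_ge_atTop (1 : ℝ), eventually_ge_atTop (Real.exp 1),
    eventually_ge_atTop ((2 / δ) ^ 2)] with X hG hM hX1 hXe hXd
  have hm1 := hM (-(h : ℤ)) (by simp)
  have hm2 := hM (h : ℤ) (by simp)
  have hX0 : 0 < X := by linarith
  have hL : 1 ≤ Real.log X := by
    rw [← Real.log_exp 1]
    exact Real.log_le_log (Real.exp_pos _) hXe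
  have hL2 : (1 : ℝ) ≤ (Real.log X) ^ (2 * s) := one_le_pow₀ hL
  have hXL : 0 ≤ X * (Real.log X) ^ (2 * s) := by positivity
  have hsq : X ^ (1 / 2 : ℝ) ≤ δ / 2 * (X * (Real.log X) ^ (2 * s)) := by
    have h5 : X ^ (1 / 2 : ℝ) * X ^ (1 / 2 : ℝ) = X := by
      rw [← Real.rpow_add hX0]
      norm_num
    have h6 : 2 / δ ≤ X ^ (1 / 2 : ℝ) := by
      rw [← Real.sqrt_eq_rpow]
      apply Real.le_sqrt_of_sq_le
      exact hXd
    have h7 : 0 < X ^ (1 / 2 : ℝ) := Real.rpow_pos_of_pos hX0 _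
    have h8 : X ^ (1 / 2 : ℝ) ≤ δ / 2 * X := by
      rw [div_le_iff₀ hδ] at h6
      nlinarith
    have h9 : δ / 2 * X ≤ δ / 2 * (X * (Real.log X) ^ (2 * s)) := by
      apply mul_le_mul_of_nonneg_left _ (by positivity)
      nlinarith
    exact h8.trans h9
  refine hG.trans ?_
  have h10 : ∑ n ∈ Finset.Ioc ⌊X / Real.log X⌋₊ ⌊X⌋₊, Apsi ψ X (-h) n * H X n +
        ∑ n ∈ Finset.Ioc ⌊X / Real.log X⌋₊ ⌊X⌋₊, Apsi ψ X h n * H X n ≤
      2 * ((Csing s h * A * I + δ / (2 * ((s : ℝ) + 1))) * (X * (Real.log X) ^ (2 * s))) := by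
    linarith
  have h11 := mul_le_mul_of_nonneg_left h10 (show (0 : ℝ) ≤ ((s : ℝ) + 1) / 2 by positivity)
  refine (add_le_add h11 hsq).trans (le_of_eq ?_)
  field_simp
  ring

end Pool.Agent.Work.MP_122e00_nt.Gen

end

section

set_option autoImplicit false

/-!
# The final statement for all `r = s + 1`
-/

namespace Pool.Agent.Work.MP_122e00_nt.Gen

open Finset Filter Topology MeasureTheory

open scoped ArithmeticFunction.vonMangoldt ArithmeticFunction.zeta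

open Two

namespace IFinal

/-- the constant -/
noncomputable def EE (A : ℝ) (s : ℕ) (θ : ℝ) : ℝ :=
  A * (((s : ℝ) + 1) * ((1 / 2 - θ) ^ s / (s.factorial : ℝ))) *
    (((s : ℝ) + 1) ^ 2 * (1 - (((s : ℝ) - 1) / (2 * s) + 2 * θ)) ^ (s + 1) /
        (((s + 1).factorial : ℝ) * (1 - (((s : ℝ) - 1) / (2 * s) + 2 * θ)) ^ ((s + 1) ^ 2)))

lemma one_sub (s : ℕ) (hs : 1 ≤ s) : 1 - (((s : ℝ) - 1) / (2 * s) + 2 * 0) =
    ((s : ℝ) + 1) / (2 * s) := by
  have : (s : ℝ) ≠ 0 := by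
    have : s ≠ 0 := by omega
    exact_mod_cast this
  field_simp
  ring

lemma EE_zero (A : ℝ) (s : ℕ) (hs : 1 ≤ s) : EE A s 0 =
    A / (s.factorial : ℝ) ^ 2 * (((s : ℝ) + 1) ^ 2 / 2 ^ s *
      (2 * s / ((s : ℝ) + 1)) ^ (s * (s + 1))) := by
  unfold EE
  rw [one_sub s hs, sub_zero, Nat.factorial_succ]
  have hs0 : (s : ℝ) ≠ 0 := by
    have : s ≠ 0 := by omega
    exact_mod_cast this
  have hs1 : (s : ℝ) + 1 ≠ 0 := by positivity
  have hf : (s.factorial : ℝ) ≠ 0 := by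
    have := Nat.factorial_ne_zero s
    exact_mod_cast this
  set b : ℝ := ((s : ℝ) + 1) / (2 * s) with hb
  have hb0 : b ≠ 0 := by
    rw [hb]
    exact div_ne_zero hs1 (mul_ne_zero two_ne_zero hs0)
  have h1 : b ^ ((s + 1) ^ 2) = b ^ (s + 1) * b ^ (s * (s + 1)) := by
    rw [← pow_add]
    congr 1
    ring
  have h2 : (2 * (s : ℝ) / ((s : ℝ) + 1)) = b⁻¹ := by
    rw [hb, inv_div]
  rw [h1, h2, inv_pow]
  push_cast
  have h3 : ((1 : ℝ) / 2) ^ s = 1 / 2 ^ s := by rw [div_pow, one_pow]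
  rw [h3]
  have h4 : (b ^ (s + 1)) ≠ 0 := pow_ne_zero _ hb0
  have h5 : (b ^ (s * (s + 1))) ≠ 0 := pow_ne_zero _ hb0
  generalize b ^ (s + 1) = u at h4 ⊢
  generalize b ^ (s * (s + 1)) = w at h5 ⊢
  field_simp

lemma EE_cont (A : ℝ) (s : ℕ) (hs : 1 ≤ s) : ContinuousAt (EE A s) 0 := by
  unfold EE
  have hs0 : (s : ℝ) ≠ 0 := by
    have : s ≠ 0 := by omega
    exact_mod_cast this
  have hs1 : (s : ℝ) + 1 ≠ 0 := by positivity
  refine ContinuousAt.mul (by fun_prop) ?_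
  refine ContinuousAt.div (by fun_prop) (by fun_prop) ?_
  refine mul_ne_zero ?_ (pow_ne_zero _ ?_)
  · have := Nat.factorial_ne_zero (s + 1)
    exact_mod_cast this
  · rw [one_sub s hs]
    exact div_ne_zero hs1 (mul_ne_zero two_ne_zero hs0)

end IFinal

open IFinal in
theorem prfFinal (hAT : claimAT) (hM3 : claimM3) (hB6 : claimB6) (hB7 : claimB7)
    (hB9 : claimB9) (hB10 : claimB10) : claimFinal := by
  intro s h hs hh C hC
  rw [← EE_zero _ s hs] at hC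
  have ev1 : ∀ᶠ θ : ℝ in 𝓝[>] 0, EE (Csing s h) s θ < C :=
    ((EE_cont (Csing s h) s hs).eventually (Iio_mem_nhds hC)).filter_mono nhdsWithin_le_nhds
  have ev2 : ∀ᶠ θ : ℝ in 𝓝[>] 0, 0 < θ ∧ θ ≤ 1 / 10 := by
    have h1 : ∀ᶠ th in 𝓝[>] (0:ℝ), th < 1 / 10 :=
      (eventually_lt_nhds (by norm_num)).filter_mono nhdsWithin_le_nhds
    filter_upwards [self_mem_nhdsWithin, h1] with th t1 t2
    exact ⟨t1, t2.le⟩
  obtain ⟨θ, hθ, h0, h01⟩ := (ev1.and ev2).exists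
  have hs1 : (1 : ℝ) ≤ s := by exact_mod_cast hs
  obtain ⟨hW, hint⟩ := hB10 s θ hs h0 (by linarith)
  set c : ℝ := ((s : ℝ) - 1) / (2 * s) + 2 * θ with hc
  have hq0 : 0 ≤ ((s : ℝ) - 1) / (2 * s) := div_nonneg (by linarith) (by linarith)
  have hq1 : ((s : ℝ) - 1) / (2 * s) ≤ 1 / 2 := by
    rw [div_le_div_iff₀ (by linarith) (by norm_num)]
    linarith
  have hc0 : 0 < c := by linarith
  have hc1 : c < 1 := by linarith
  obtain ⟨hb1, hb2, hb3⟩ := hB7 s c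
  set I : ℝ := ((s : ℝ) + 1) ^ 2 * (1 - c) ^ (s + 1) /
        (((s + 1).factorial : ℝ) * (1 - c) ^ ((s + 1) ^ 2)) with hI
  have h1c : 0 < 1 - c := by linarith
  have hI0 : 0 ≤ I := by
    rw [hI]
    positivity
  obtain ⟨c₀, hc₀, hmean⟩ := hM3 s h θ (ps s θ) hs hh h0 (by linarith) hW (FB s c)
    (((s : ℝ) + 1) ^ 2) c I (by nlinarith) hc0 hc1 hb1 hb2 hb3 (hB9 s c hs hc0 hc1)
  have hMe := hmean c₀ hc₀ le_rfl
  have hDom := hB6 s θ c hs h0 h01 hc c₀ hc₀
  have hfin := hAT s h θ (ps s θ) hs hh h0 (by linarith) hW _ I hI0 hDom hMe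
    (C - EE (Csing s h) s θ) (by linarith)
  filter_upwards [hfin] with X hX
  refine hX.trans (le_of_eq ?_)
  congr 1
  rw [hint]
  unfold EE
  rw [← hc, ← hI]
  ring

end Pool.Agent.Work.MP_122e00_nt.Gen

end

section

set_option autoImplicit false

/-!
# Item M3: chains of marks of length up to a constant times `log X`
-/

namespace Pool.Agent.Work.MP_122e00_nt.Gen

open Finset Filter Topology MeasureTheory

open scoped ArithmeticFunction.vonMangoldt ArithmeticFunction.zeta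

open Two

namespace IM3

theorem Apsi_nonneg {s : ℕ} {ψ : (Fin s → ℝ) → ℝ} (h : ∀ y, 0 ≤ ψ y) (X : ℝ) (z : ℤ) (n : ℕ) :
    0 ≤ Two.Apsi ψ X z n := by
  unfold Two.Apsi
  refine Finset.sum_nonneg fun b _ => ?_
  split_ifs
  · exact h _
  · exact le_rfl

theorem split_le (T : ℕ → ℝ) (hT : ∀ k, 0 ≤ T k) (K K1 : ℕ) :
    ∑ k ∈ Finset.range (K1 + 1), T k ≤
      ∑ k ∈ Finset.range (K + 1), T k + ∑ k ∈ Finset.Ioc K K1, T k := by
  have h1 : Finset.range (K1 + 1) ⊆ Finset.range (K + 1) ∪ Finset.Ioc K K1 := by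
    intro k hk
    rw [Finset.mem_range] at hk
    rw [Finset.mem_union, Finset.mem_range, Finset.mem_Ioc]
    omega
  have h2 : Disjoint (Finset.range (K + 1)) (Finset.Ioc K K1) := by
    rw [Finset.disjoint_left]
    intro k hk hk'
    rw [Finset.mem_range] at hk
    rw [Finset.mem_Ioc] at hk'
    omega
  calc ∑ k ∈ Finset.range (K1 + 1), T k
      ≤ ∑ k ∈ Finset.range (K + 1) ∪ Finset.Ioc K K1, T k :=
        Finset.sum_le_sum_of_subset_of_nonneg h1 fun k _ _ => hT k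
    _ = _ := Finset.sum_union h2

end IM3

open IM3 in
theorem prfM3 (hM1 : claimM1) (hM4 : claimM4) : claimM3 := by
  intro s h θ ψ hs hh hθ hθ1 hW FF C₀ M₀ I hC0 hM0 hM1' hF1 hF2 hFc hI
  obtain ⟨c₀, hc0, hc⟩ := hM4 s h θ ψ hs hh hθ hθ1 hW C₀ M₀ hC0 hM0 hM1'
  refine ⟨c₀, hc0, fun c₁ hc1 hc1' => ?_⟩
  intro δ hδ
  obtain ⟨K, hK⟩ := hc c₁ hc1 hc1' (δ / 2) (half_pos hδ)
  have hKX := hK FF fun k x v => ⟨(hF1 (k + 1) x v).1, hF2 k x v⟩
  have hK1 : (0 : ℝ) < (K : ℝ) + 1 := by positivity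
  have hδ' : 0 < δ / (2 * ((K : ℝ) + 1)) := by positivity
  set J : ℕ → ℝ := fun k => ∫ y in Sim k s, ext (FF k) (y, 1 - ∑ i, y i) * den y with hJ
  have hfin : ∀ᶠ X : ℝ in atTop, ∀ k ∈ Finset.range (K + 1), ∀ z : ℤ, z.natAbs = h →
      ∑ n ∈ Finset.Ioc ⌊X / Real.log X⌋₊ ⌊X⌋₊, Apsi ψ X z n * TS (Real.log X) s k n (FF k) ≤
        (Csing s h * (∫ y in O1 s, ψ y) * J k + δ / (2 * ((K : ℝ) + 1))) *
          (X * (Real.log X) ^ (2 * s)) := by
    rw [Filter.eventually_all_finset]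
    intro k _
    exact hM1 s k h θ ψ hs hh hθ hθ1 hW (FF k) (C₀ ^ k)
      (fun x v => by rw [abs_of_nonneg (hF1 k x v).1]; exact (hF1 k x v).2) (hFc k) _ hδ'
  have hA : 0 ≤ Csing s h * (∫ y in O1 s, ψ y) :=
    mul_nonneg (Csing_pos hs h hh).le (integral_nonneg fun y => hW.nonneg y)
  filter_upwards [hKX, hfin, eventually_gt_atTop (1 : ℝ)] with X hX1 hX2 hX3 z hz
  have hL : 0 < Real.log X := Real.log_pos hX3
  have hX0 : 0 < X := by linarith
  have hY : 0 ≤ X * (Real.log X) ^ (2 * s) := by positivity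
  set K1 : ℕ := ⌊c₁ * Real.log X⌋₊ with hK1def
  have hA0 : ∀ n, 0 ≤ Apsi ψ X z n := Apsi_nonneg hW.nonneg X z
  have hn0 : ∀ n ∈ Finset.Ioc ⌊X / Real.log X⌋₊ ⌊X⌋₊, n ≠ 0 := by
    intro n hn
    rw [Finset.mem_Ioc] at hn
    omega
  have h1 : ∑ n ∈ Finset.Ioc ⌊X / Real.log X⌋₊ ⌊X⌋₊, Apsi ψ X z n *
        (∑ k ∈ Finset.range (K1 + 1), TS (Real.log X) s k n (FF k)) ≤
      ∑ n ∈ Finset.Ioc ⌊X / Real.log X⌋₊ ⌊X⌋₊, Apsi ψ X z n *
        (∑ k ∈ Finset.range (K + 1), TS (Real.log X) s k n (FF k)) +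
      ∑ n ∈ Finset.Ioc ⌊X / Real.log X⌋₊ ⌊X⌋₊, Apsi ψ X z n *
        (∑ k ∈ Finset.Ioc K K1, TS (Real.log X) s k n (FF k)) := by
    rw [← Finset.sum_add_distrib]
    refine Finset.sum_le_sum fun n hn => ?_
    rw [← mul_add]
    refine mul_le_mul_of_nonneg_left ?_ (hA0 n)
    exact split_le (fun k => TS (Real.log X) s k n (FF k))
      (fun k => Two.prfT2 _ s k n hL (hn0 n hn) _ fun x v _ _ _ => (hF1 k x v).1) K K1
  have h2 : ∑ n ∈ Finset.Ioc ⌊X / Real.log X⌋₊ ⌊X⌋₊, Apsi ψ X z n *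
        (∑ k ∈ Finset.range (K + 1), TS (Real.log X) s k n (FF k)) ≤
      (Csing s h * (∫ y in O1 s, ψ y) * I + δ / 2) * (X * (Real.log X) ^ (2 * s)) := by
    calc ∑ n ∈ Finset.Ioc ⌊X / Real.log X⌋₊ ⌊X⌋₊, Apsi ψ X z n *
          (∑ k ∈ Finset.range (K + 1), TS (Real.log X) s k n (FF k))
        = ∑ k ∈ Finset.range (K + 1), ∑ n ∈ Finset.Ioc ⌊X / Real.log X⌋₊ ⌊X⌋₊, Apsi ψ X z n *
          TS (Real.log X) s k n (FF k) := by
          rw [Finset.sum_comm]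
          exact Finset.sum_congr rfl fun n _ => Finset.mul_sum _ _ _
      _ ≤ ∑ k ∈ Finset.range (K + 1), (Csing s h * (∫ y in O1 s, ψ y) * J k +
          δ / (2 * ((K : ℝ) + 1))) * (X * (Real.log X) ^ (2 * s)) :=
          Finset.sum_le_sum fun k hk => hX2 k hk z hz
      _ = (Csing s h * (∫ y in O1 s, ψ y) * ∑ k ∈ Finset.range (K + 1), J k + δ / 2) *
          (X * (Real.log X) ^ (2 * s)) := by
          rw [← Finset.sum_mul, Finset.sum_add_distrib, ← Finset.mul_sum, Finset.sum_const,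
            Finset.card_range, nsmul_eq_mul]
          congr 2
          push_cast
          field_simp
      _ ≤ _ := by
          refine mul_le_mul_of_nonneg_right ?_ hY
          have := mul_le_mul_of_nonneg_left (hI K) hA
          linarith
  have h3 := hX1 z hz
  refine h1.trans ((add_le_add h2 h3).trans (le_of_eq ?_))
  ring

end Pool.Agent.Work.MP_122e00_nt.Gen

end
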