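import Pool.Agent.Work.MP_122e00_nt.Bd.B03

/-! Bundle of small proof modules (one section per former module). -/

section

set_option autoImplicit false

set_option maxRecDepth 100000

/-!
# The certificate: data
-/

namespace Pool.Agent.Work.MP_122e00_nt.Sharp.Cx

/-- data -/
noncomputable def tr486 : Ct := (.dc 0 14 0 (.dc 1 14 0 (.ct 3 4 1 1 1 (.dc 0 1 1 (.ct 1 3 1 1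
  1 (.dc 2 3 0 (.ct 0 5 1 1 1 (.dc 2 13 0 (.ct 0 6 1 1 1 (.lf 3 10 176) (.lf 2 11 176))) (.dc 2
  13 1 (.ct 0 6 1 1 1 (.ct 5 6 1 1 1 (.lf 3 10 176) (.lf 2 11 176)) (.lf 2 11 160))))) (.dc 2 3 1
  (.ct 0 5 1 1 1 (.dc 2 13 0 (.ct 0 6 1 1 1 (.lf 3 8 176) (.lf 2 10 176))) (.dc 2 13 1 (.ct 0 6 1
  1 1 (.ct 5 6 1 1 1 (.lf 3 8 176) (.lf 2 10 176)) (.lf 2 9 160))))))) (.dc 0 1 0 (.ct 1 3 1 1 1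
  (.dc 2 3 0 (.ct 0 5 1 1 1 (.dc 2 13 0 (.ct 0 6 1 1 1 (.lf 3 8 160) (.lf 2 8 160))) (.dc 2 13 1
  (.ct 0 6 1 1 1 (.ct 5 6 1 1 1 (.lf 3 7 160) (.lf 2 7 176)) (.lf 2 8 160))))) (.ct 1 4 1 1 1
  (.dc 2 3 0 (.ct 0 5 1 1 1 (.dc 2 13 0 (.ct 0 6 1 1 1 (.lf 3 7 176) (.lf 2 8 176))) (.dc 2 13 1
  (.ct 0 6 1 1 1 (.ct 5 6 1 1 1 (.lf 3 6 176) (.lf 2 8 176)) (.lf 2 8 160))))) (.dc 2 3 1 (.ct 0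
  5 1 1 1 (.dc 2 13 0 (.ct 0 6 1 1 1 (.lf 3 9 176) (.lf 2 11 176))) (.dc 2 13 1 (.ct 0 6 1 1 1
  (.ct 5 6 1 1 1 (.lf 3 9 176) (.lf 2 11 176)) (.lf 2 10 160)))))))))))

theorem dt486 : le (run cls4 4 tr486 [[3, 1, 1, 1, 1, 1, 0], [1, 1, 0, 0, 0, 0, 0], [2, 1, 1,
  0, 1, 1, 0], [2, 1, 1, 1, 2, 2, 1], [1, 0, 0, 0, 1, 0, 0], [1, 1, 0, 0, 1, 1, 0], [1, 0, 0, 0,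
  1, 1, 1]] 246255171125245 [43, 163, 175, 175, 187, 187, 271]) 73476949011 = true := by
  decide +kernel

/-- data -/
noncomputable def tr487 : Ct := (.dc 0 14 1 (.ct 3 4 1 1 1 (.dc 1 14 0 (.ct 1 3 1 1 1 (.dc 2 3
  0 (.ct 4 6 1 1 1 (.dc 0 1 0 (.ct 0 5 1 1 1 (.dc 2 13 0 (.lf 2 6 160)) (.dc 2 13 1 (.lf 2 7
  160)))) (.dc 0 1 1 (.ct 0 5 1 1 1 (.dc 2 13 0 (.lf 2 11 160)) (.dc 2 13 1 (.lf 2 10 160))))))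
  (.ct 0 5 1 1 1 (.dc 2 13 0 (.ct 4 6 1 1 1 (.dc 0 1 0 (.ct 1 4 1 1 1 (.dc 2 3 0 (.lf 2 7 176))
  (.ct 1 6 1 1 1 (.dc 2 3 0 (.lf 2 6 176)) (.dc 2 3 1 (.lf 2 11 176))))) (.dc 0 1 1 (.ct 1 6 1 1
  1 (.dc 2 3 0 (.lf 2 11 176)) (.dc 2 3 1 (.lf 2 10 176)))))) (.dc 2 13 1 (.ct 4 6 1 1 1 (.dc 0 1
  0 (.ct 1 4 1 1 1 (.dc 2 3 0 (.lf 2 7 192)) (.ct 1 6 1 1 1 (.dc 2 3 0 (.lf 2 7 192)) (.dc 2 3 1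
  (.lf 2 10 192))))) (.dc 0 1 1 (.ct 1 6 1 1 1 (.dc 2 3 0 (.lf 2 10 192)) (.dc 2 3 1 (.lf 2 9
  192))))))))) (.dc 0 1 0 (.dc 1 14 1 (.ct 1 3 1 1 1 (.dc 2 3 0 (.ct 0 5 1 1 1 (.dc 2 13 0 (.lf 2
  6 160)) (.dc 2 13 1 (.lf 2 7 160)))) (.ct 1 4 1 1 1 (.dc 2 3 0 (.ct 0 5 1 1 1 (.dc 2 13 0 (.lf
  2 5 160)) (.dc 2 13 1 (.lf 2 6 160)))) (.ct 1 6 1 1 1 (.dc 2 3 0 (.ct 0 5 1 1 1 (.dc 2 13 0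
  (.lf 2 6 160)) (.dc 2 13 1 (.lf 2 6 160)))) (.dc 2 3 1 (.ct 0 5 1 1 1 (.dc 2 13 0 (.lf 2 11
  160)) (.dc 2 13 1 (.lf 2 10 160)))))))))))

theorem dt487 : le (run cls4 4 tr487 [[3, 1, 1, 1, 1, 1, 0], [1, 1, 0, 0, 0, 0, 0], [2, 1, 1,
  0, 1, 1, 0], [1, 1, 1, 1, 1, 1, 0], [1, 0, 0, 0, 1, 0, 0], [1, 1, 0, 0, 1, 1, 0], [2, 1, 1, 1,
  2, 2, 1]] 246255171125245 [43, 163, 175, 175, 187, 187, 271]) 141991572537 = true := by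
  decide +kernel

end Pool.Agent.Work.MP_122e00_nt.Sharp.Cx

end

section

set_option autoImplicit false

set_option maxRecDepth 100000

/-!
# The certificate: data
-/

namespace Pool.Agent.Work.MP_122e00_nt.Sharp.Cx

/-- data -/
noncomputable def tr488 : Ct := (.dc 0 14 0 (.dc 1 14 0 (.ct 2 3 1 1 1 (.dc 2 5 0 (.ct 2 4 1 1
  1 (.ct 0 6 1 1 1 (.ct 3 4 1 1 1 (.dc 0 1 1 (.ct 1 3 1 1 1 (.dc 2 3 0 (.lf 3 10 176)) (.dc 2 3 1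
  (.lf 3 8 176)))) (.dc 0 1 0 (.ct 1 3 1 1 1 (.dc 2 3 0 (.lf 3 7 160)) (.ct 1 4 1 1 1 (.dc 2 3 0
  (.lf 3 6 176)) (.dc 2 3 1 (.lf 3 9 176)))))) (.ct 3 4 1 1 1 (.dc 0 1 1 (.ct 1 3 1 1 1 (.dc 2 3
  0 (.lf 2 11 176)) (.dc 2 3 1 (.lf 2 10 176)))) (.dc 0 1 0 (.ct 1 3 1 1 1 (.dc 2 3 0 (.lf 2 8
  176)) (.ct 1 4 1 1 1 (.dc 2 3 0 (.lf 2 9 176)) (.dc 2 3 1 (.lf 2 11 176))))))) (.dc 0 1 0 (.ct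
  1 3 1 1 1 (.dc 2 3 0 (.ct 0 6 1 1 1 (.lf 3 7 192) (.lf 2 8 192))) (.dc 2 3 1 (.ct 0 6 1 1 1
  (.lf 3 9 176) (.lf 2 11 176))))))) (.dc 2 3 1 (.dc 2 5 1 (.ct 3 4 1 1 1 (.dc 0 1 1 (.ct 0 6 1 1
  1 (.lf 3 6 144) (.lf 2 8 144))) (.dc 0 1 0 (.ct 0 6 1 1 1 (.lf 3 7 176) (.lf 2 9 176)))))))))

theorem dt488 : le (run cls4 4 tr488 [[3, 1, 1, 1, 1, 1, 0], [1, 1, 0, 0, 0, 0, 0], [2, 1, 1,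
  0, 0, 0, 0], [2, 1, 1, 1, 2, 2, 1], [1, 0, 0, 0, 1, 0, 0], [2, 1, 1, 0, 1, 1, 0], [1, 0, 0, 0,
  1, 1, 1]] 281302104260605 [45, 177, 177, 177, 201, 201, 273]) 77432481039 = true := by
  decide +kernel

/-- data -/
noncomputable def tr489 : Ct := (.dc 2 5 0 (.ct 3 4 1 1 1 (.dc 1 14 0 (.ct 2 4 1 1 1 (.ct 1 3 1
  1 1 (.dc 2 3 0 (.ct 4 6 1 1 1 (.dc 0 1 0 (.lf 2 7 176)) (.dc 0 1 1 (.lf 2 11 176)))) (.ct 4 6 1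
  1 1 (.dc 0 1 0 (.ct 1 4 1 1 1 (.dc 2 3 0 (.lf 2 7 192)) (.ct 1 6 1 1 1 (.dc 2 3 0 (.lf 2 7
  192)) (.dc 2 3 1 (.lf 2 10 192))))) (.dc 0 1 1 (.ct 1 6 1 1 1 (.dc 2 3 0 (.lf 2 11 192)) (.dc 2
  3 1 (.lf 2 9 192)))))) (.dc 0 1 0 (.ct 1 3 1 1 1 (.dc 2 3 0 (.lf 2 7 192)) (.ct 1 6 1 1 1 (.dc
  2 3 0 (.lf 2 7 192)) (.dc 2 3 1 (.lf 2 10 192))))))) (.dc 0 1 0 (.dc 1 14 1 (.ct 1 3 1 1 1 (.dc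
  2 3 0 (.lf 2 8 192)) (.ct 1 4 1 1 1 (.dc 2 3 0 (.lf 2 7 192)) (.ct 1 6 1 1 1 (.dc 2 3 0 (.lf 2
  7 192)) (.dc 2 3 1 (.lf 2 10 192)))))))))

theorem dt489 : le (run cls4 4 tr489 [[3, 1, 1, 1, 1, 1, 0], [1, 1, 0, 0, 0, 0, 0], [4, 2, 2,
  1, 2, 2, 1], [1, 1, 1, 1, 1, 1, 0], [1, 0, 0, 0, 1, 0, 0], [2, 1, 1, 0, 1, 1, 0], [2, 1, 1, 1,
  2, 2, 1]] 281302104276989 [59, 179, 179, 179, 203, 215, 287]) 167417315084 = true := by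
  decide +kernel

/-- data -/
noncomputable def tr490 : Ct := (.ct 2 3 1 1 1 (.dc 2 5 0 (.ct 2 4 1 1 1 (.ct 3 4 1 1 1 (.dc 1
  14 0 (.ct 4 6 1 1 1 (.dc 0 1 0 (.ct 1 3 1 1 1 (.dc 2 3 0 (.lf 2 9 192)) (.dc 2 3 1 (.lf 2 11
  192)))) (.dc 0 1 1 (.ct 1 3 1 1 1 (.dc 2 3 0 (.lf 2 12 176)) (.dc 2 3 1 (.lf 2 10 176))))))
  (.dc 0 1 0 (.dc 1 14 1 (.ct 1 3 1 1 1 (.dc 2 3 0 (.lf 2 8 160)) (.ct 1 4 1 1 1 (.dc 2 3 0 (.lf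
  2 8 192)) (.dc 2 3 1 (.lf 2 11 192))))))) (.dc 0 1 0 (.dc 1 14 1 (.ct 1 3 1 1 1 (.dc 2 3 0 (.lf
  2 7 192)) (.dc 2 3 1 (.lf 2 11 192))))))) (.dc 2 3 1 (.dc 2 5 1 (.ct 3 4 1 1 1 (.dc 1 14 0 (.ct
  4 6 1 1 1 (.dc 0 1 0 (.lf 2 9 176)) (.dc 0 1 1 (.lf 2 8 144)))) (.dc 0 1 0 (.dc 1 14 1 (.lf 2 9
  192)))))))

theorem dt490 : le (run cls4 4 tr490 [[3, 1, 1, 1, 1, 1, 0], [1, 1, 0, 0, 0, 0, 0], [2, 1, 1,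
  0, 0, 0, 0], [1, 1, 1, 1, 1, 1, 0], [1, 0, 0, 0, 1, 0, 0], [2, 1, 1, 0, 1, 1, 0], [4, 2, 2, 1,
  2, 2, 1]] 281302104276989 [59, 179, 179, 179, 203, 215, 287]) 142969192446 = true := by
  decide +kernel

end Pool.Agent.Work.MP_122e00_nt.Sharp.Cx

end

section

set_option autoImplicit false

set_option maxRecDepth 100000

/-!
# The certificate: data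
-/

namespace Pool.Agent.Work.MP_122e00_nt.Sharp.Cx

/-- data -/
noncomputable def tr491 : Ct := (.dc 0 14 0 (.dc 1 14 0 (.ct 2 5 1 1 1 (.dc 2 5 0 (.ct 2 4 1 1
  1 (.ct 3 4 1 1 1 (.ct 0 6 1 1 1 (.ct 4 5 1 1 1 (.dc 0 1 0 (.ct 1 4 1 1 1 (.dc 2 3 0 (.lf 3 5
  192)) (.ct 1 5 1 1 1 (.dc 2 3 0 (.lf 3 5 192)) (.dc 2 3 1 (.lf 3 10 192))))) (.dc 0 1 1 (.ct 1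
  5 1 1 1 (.dc 2 3 0 (.lf 3 10 192)) (.dc 2 3 1 (.lf 3 8 192))))) (.ct 4 5 1 1 1 (.dc 0 1 0 (.ct
  1 4 1 1 1 (.dc 2 3 0 (.lf 2 8 192)) (.ct 1 5 1 1 1 (.dc 2 3 0 (.lf 2 8 192)) (.dc 2 3 1 (.lf 2
  11 192))))) (.dc 0 1 1 (.ct 1 5 1 1 1 (.dc 2 3 0 (.lf 2 11 192)) (.dc 2 3 1 (.lf 2 10 192))))))
  (.dc 0 1 0 (.ct 1 5 1 1 1 (.dc 2 3 0 (.ct 0 6 1 1 1 (.lf 3 6 160) (.lf 2 9 176))) (.dc 2 3 1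
  (.ct 0 6 1 1 1 (.lf 3 10 160) (.lf 2 11 176)))))) (.dc 0 1 0 (.ct 1 5 1 1 1 (.dc 2 3 0 (.ct 0 6
  1 1 1 (.lf 3 6 192) (.lf 2 9 192))) (.dc 2 3 1 (.ct 0 6 1 1 1 (.lf 3 10 176) (.lf 2 11
  176))))))) (.dc 2 3 1 (.dc 2 5 1 (.ct 3 4 1 1 1 (.ct 4 5 1 1 1 (.dc 0 1 0 (.ct 0 6 1 1 1 (.lf 3
  8 192) (.lf 2 10 192))) (.dc 0 1 1 (.ct 0 6 1 1 1 (.lf 3 7 176) (.lf 2 8 176)))) (.dc 0 1 0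
  (.ct 0 6 1 1 1 (.lf 3 8 192) (.lf 2 9 192)))))))))

theorem dt491 : le (run cls4 4 tr491 [[3, 1, 1, 1, 1, 1, 0], [1, 1, 0, 0, 0, 0, 0], [2, 1, 1,
  0, 0, 0, 0], [2, 1, 1, 1, 1, 1, 1], [1, 0, 0, 0, 1, 0, 0], [2, 1, 1, 1, 2, 2, 1], [1, 0, 0, 0,
  1, 1, 1]] 281302104260605 [45, 177, 177, 177, 201, 201, 273]) 160799237606 = true := by
  decide +kernel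

/-- data -/
noncomputable def tr492 : Ct := (.dc 2 5 0 (.ct 4 5 1 1 1 (.dc 0 1 0 (.dc 1 14 1 (.ct 1 4 1 1 1
  (.dc 2 3 0 (.lf 2 9 192)) (.ct 1 5 1 1 1 (.dc 2 3 0 (.lf 2 8 192)) (.ct 1 6 1 1 1 (.dc 2 3 0
  (.lf 2 8 192)) (.dc 2 3 1 (.lf 2 11 192))))))) (.dc 1 14 0 (.ct 2 4 1 1 1 (.ct 3 4 1 1 1 (.ct 1
  5 1 1 1 (.dc 2 3 0 (.ct 4 6 1 1 1 (.dc 0 1 0 (.lf 2 8 176)) (.dc 0 1 1 (.lf 2 11 176)))) (.ct 4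
  6 1 1 1 (.dc 0 1 0 (.ct 1 4 1 1 1 (.dc 2 3 0 (.lf 2 8 192)) (.ct 1 6 1 1 1 (.dc 2 3 0 (.lf 2 8
  192)) (.dc 2 3 1 (.lf 2 11 192))))) (.dc 0 1 1 (.ct 1 6 1 1 1 (.dc 2 3 0 (.lf 2 11 192)) (.dc 2
  3 1 (.lf 2 10 176)))))) (.dc 0 1 0 (.ct 1 5 1 1 1 (.dc 2 3 0 (.lf 2 8 160)) (.ct 1 6 1 1 1 (.dc
  2 3 0 (.lf 2 9 176)) (.dc 2 3 1 (.lf 2 11 176)))))) (.dc 0 1 0 (.ct 1 5 1 1 1 (.dc 2 3 0 (.lf 2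
  8 176)) (.ct 1 6 1 1 1 (.dc 2 3 0 (.lf 2 8 192)) (.dc 2 3 1 (.lf 2 11 192)))))))))

theorem dt492 : le (run cls4 4 tr492 [[3, 1, 1, 1, 1, 1, 0], [1, 1, 0, 0, 0, 0, 0], [4, 2, 2,
  1, 2, 2, 1], [2, 1, 1, 1, 1, 1, 1], [1, 0, 0, 0, 1, 0, 0], [1, 1, 1, 1, 1, 1, 0], [2, 1, 1, 1,
  2, 2, 1]] 281302104276989 [59, 179, 179, 179, 203, 215, 287]) 263098082831 = true := by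
  decide +kernel

end Pool.Agent.Work.MP_122e00_nt.Sharp.Cx

end

section

set_option autoImplicit false

set_option maxRecDepth 100000

/-!
# The certificate: data
-/

namespace Pool.Agent.Work.MP_122e00_nt.Sharp.Cx

/-- data -/
noncomputable def tr493 : Ct := (.ct 4 5 1 1 1 (.dc 0 1 0 (.dc 1 14 1 (.ct 2 4 1 1 1 (.dc 2 5 0
  (.ct 1 4 1 1 1 (.dc 2 3 0 (.lf 2 9 192)) (.ct 1 5 1 1 1 (.dc 2 3 0 (.lf 2 8 192)) (.dc 2 3 1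
  (.lf 2 10 192))))) (.ct 2 5 1 1 1 (.dc 2 5 0 (.ct 1 5 1 1 1 (.dc 2 3 0 (.lf 2 8 192)) (.dc 2 3
  1 (.lf 2 10 192)))) (.dc 2 3 1 (.dc 2 5 1 (.lf 2 9 192))))))) (.dc 1 14 0 (.ct 2 5 1 1 1 (.dc 2
  5 0 (.ct 3 4 1 1 1 (.ct 4 6 1 1 1 (.dc 0 1 0 (.ct 1 5 1 1 1 (.dc 2 3 0 (.lf 2 9 192)) (.dc 2 3
  1 (.lf 2 11 192)))) (.dc 0 1 1 (.ct 1 5 1 1 1 (.dc 2 3 0 (.lf 2 12 176)) (.dc 2 3 1 (.lf 2 10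
  176))))) (.dc 0 1 0 (.ct 1 5 1 1 1 (.dc 2 3 0 (.lf 2 8 192)) (.dc 2 3 1 (.lf 2 10 192))))))
  (.dc 2 3 1 (.dc 2 5 1 (.ct 3 4 1 1 1 (.ct 4 6 1 1 1 (.dc 0 1 0 (.lf 2 9 192)) (.dc 0 1 1 (.lf 2
  8 176))) (.dc 0 1 0 (.lf 2 9 192))))))))

theorem dt493 : le (run cls4 4 tr493 [[3, 1, 1, 1, 1, 1, 0], [1, 1, 0, 0, 0, 0, 0], [2, 1, 1,
  0, 0, 0, 0], [2, 1, 1, 1, 1, 1, 1], [1, 0, 0, 0, 1, 0, 0], [1, 1, 1, 1, 1, 1, 0], [4, 2, 2, 1,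
  2, 2, 1]] 281302104276989 [59, 179, 179, 179, 203, 215, 287]) 234372790866 = true := by
  decide +kernel

/-- data -/
noncomputable def tr494 : Ct := (.dc 0 14 1 (.ct 3 4 1 1 1 (.dc 2 14 0 (.ct 2 5 1 1 1 (.dc 2 5
  0 (.ct 2 4 1 1 1 (.ct 4 5 1 1 1 (.dc 0 1 0 (.dc 1 14 1 (.ct 1 4 1 1 1 (.dc 2 3 0 (.lf 1 7 160))
  (.ct 1 5 1 1 1 (.dc 2 3 0 (.lf 1 7 160)) (.dc 2 3 1 (.lf 1 10 160)))))) (.dc 1 14 0 (.ct 4 6 1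
  1 1 (.dc 0 1 0 (.ct 1 5 1 1 1 (.dc 2 3 0 (.lf 1 7 160)) (.dc 2 3 1 (.lf 1 10 160)))) (.dc 0 1 1
  (.ct 1 5 1 1 1 (.dc 2 3 0 (.lf 1 11 160)) (.dc 2 3 1 (.lf 1 9 160))))))) (.dc 0 1 0 (.dc 1 14 1
  (.ct 1 5 1 1 1 (.dc 2 3 0 (.lf 1 7 160)) (.dc 2 3 1 (.lf 1 10 160))))))) (.dc 2 3 1 (.dc 2 5 1
  (.ct 4 5 1 1 1 (.dc 0 1 0 (.dc 1 14 1 (.lf 1 8 160))) (.dc 1 14 0 (.ct 4 6 1 1 1 (.dc 0 1 0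
  (.lf 1 8 160)) (.dc 0 1 1 (.lf 1 7 160))))))))) (.dc 0 1 0 (.dc 1 14 1 (.ct 2 5 1 1 1 (.dc 2 5
  0 (.ct 1 5 1 1 1 (.dc 2 3 0 (.ct 0 3 1 1 1 (.dc 2 14 1 (.lf 0 6 144)) (.dc 2 14 0 (.lf 0 7
  144)))) (.dc 2 3 1 (.ct 0 3 1 1 1 (.dc 2 14 1 (.lf 0 9 144)) (.dc 2 14 0 (.lf 0 9 144))))))
  (.dc 2 3 1 (.dc 2 5 1 (.ct 0 3 1 1 1 (.dc 2 14 1 (.lf 0 8 144)) (.dc 2 14 0 (.lf 0 8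
  144))))))))))

theorem dt494 : le (run cls4 4 tr494 [[3, 1, 1, 1, 1, 1, 0], [1, 1, 0, 0, 0, 0, 0], [2, 1, 1,
  0, 0, 0, 0], [1, 1, 1, 1, 0, 0, 0], [1, 0, 0, 0, 1, 0, 0], [1, 1, 1, 1, 1, 1, 0], [2, 1, 1, 1,
  1, 1, 1]] 210933360082941 [45, 177, 177, 177, 201, 201, 273]) 214287569702 = true := by
  decide +kernel

end Pool.Agent.Work.MP_122e00_nt.Sharp.Cx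

end

section

set_option autoImplicit false

set_option maxRecDepth 100000

/-!
# The certificate: data
-/

namespace Pool.Agent.Work.MP_122e00_nt.Sharp.Cx

/-- data -/
noncomputable def tr495 : Ct := (.dc 0 1 1 (.dc 0 14 0 (.dc 1 1 1 (.dc 1 14 0 (.dc 2 14 0 (.ct
  2 5 1 1 1 (.dc 2 5 0 (.ct 1 5 1 1 1 (.dc 2 3 0 (.ct 3 5 1 1 1 (.dc 2 11 0 (.dc 2 13 0 (.ct 2 5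
  1 1 1 (.dc 2 7 0 (.ct 3 5 1 1 1 (.dc 2 15 0 (.ct 3 6 1 1 1 (.lf 3 8 128) (.lf 2 8 144))) (.dc 2
  15 1 (.ct 3 6 1 1 1 (.ct 5 6 1 1 1 (.lf 3 9 160) (.lf 2 11 176)) (.lf 2 11 192))))) (.dc 2 7 1
  (.dc 2 15 1 (.ct 3 6 1 1 1 (.lf 3 8 160) (.lf 2 10 192))))))) (.dc 2 7 1 (.dc 2 11 1 (.dc 2 15
  1 (.ct 5 6 1 1 1 (.ct 1 3 1 1 1 (.dc 2 13 1 (.ct 1 6 1 1 1 (.ct 3 6 1 1 1 (.lf 3 8 176) (.lf 2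
  10 176)) (.lf 2 10 176))) (.dc 2 13 0 (.ct 3 6 1 1 1 (.lf 3 8 176) (.lf 2 10 176)))) (.ct 1 3 1
  1 1 (.dc 2 13 1 (.lf 2 9 192)) (.dc 2 13 0 (.lf 2 10 176))))))))) (.dc 2 3 1 (.dc 2 7 1 (.dc 2
  11 1 (.dc 2 15 1 (.ct 3 5 1 1 1 (.dc 2 13 0 (.ct 3 6 1 1 1 (.lf 3 6 144) (.lf 2 8 144))) (.dc 2
  13 1 (.ct 3 6 1 1 1 (.ct 5 6 1 1 1 (.lf 3 6 144) (.lf 2 9 144)) (.lf 2 8 144)))))))))) (.dc 2 3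
  1 (.dc 2 5 1 (.dc 2 7 1 (.dc 2 11 1 (.dc 2 13 1 (.dc 2 15 1 (.ct 3 6 1 1 1 (.lf 3 5 128) (.lf 2
  7 144))))))))))))))

theorem dt495 : le (run cls4 4 tr495 [[2, 0, 0, 0, 1, 1, 0], [1, 1, 0, 0, 0, 0, 0], [2, 1, 1,
  0, 0, 0, 0], [3, 1, 1, 1, 1, 1, 0], [1, 0, 0, 0, 1, 0, 0], [0, 0, 0, 0, 1, 1, 0], [1, 0, 0, 0,
  1, 1, 1]] 25665650671613 [38, 158, 158, 158, 152, 152, 266]) 99508256127 = true := by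
  decide +kernel

/-- data -/
noncomputable def tr496 : Ct := (.dc 0 1 1 (.dc 0 14 0 (.dc 1 1 1 (.dc 1 14 0 (.dc 2 14 0 (.ct
  0 3 2 1 1 (.dc 2 1 0 (.ct 0 6 1 1 1 (.ct 3 6 1 1 1 (.lf 3 4 160) (.lf 2 6 160)) (.lf 2 5 176)))
  (.dc 2 1 1 (.ct 0 6 2 1 1 (.ct 0 3 1 1 1 (.ct 3 6 1 1 1 (.lf 3 3 160) (.lf 2 4 176)) (.lf 3 3
  144)) (.ct 3 6 1 1 1 (.lf 3 12 144) (.lf 2 12 160))))))))))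

theorem dt496 : le (run cls4 4 tr496 [[1, 0, 0, 0, 0, 0, 0], [1, 1, 0, 0, 0, 0, 0], [2, 1, 1,
  0, 0, 0, 0], [3, 1, 1, 1, 1, 1, 0], [1, 0, 0, 0, 1, 0, 0], [2, 0, 0, 0, 1, 1, 0], [1, 0, 0, 0,
  1, 1, 1]] 211096568709117 [57, 237, 237, 237, 285, 285, 285]) 651669870057 = true := by
  decide +kernel

/-- data -/
noncomputable def tr497 : Ct := (.ct 0 3 2 1 1 (.dc 1 1 0 (.dc 2 1 0 (.ct 3 6 1 1 1 (.dc 0 14 0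
  (.dc 1 14 0 (.dc 2 14 0 (.ct 0 6 1 1 1 (.ct 3 4 1 1 1 (.dc 0 1 1 (.ct 5 6 1 1 1 (.lf 3 6 144)
  (.lf 2 8 160))) (.dc 0 1 0 (.ct 5 6 1 1 1 (.lf 3 8 160) (.lf 2 9 160)))) (.ct 3 4 1 1 1 (.dc 0
  1 1 (.ct 0 3 1 1 1 (.lf 1 7 160) (.ct 0 4 1 1 1 (.lf 1 8 144) (.lf 0 7 160)))) (.dc 0 1 0 (.ct
  0 4 1 1 1 (.lf 1 8 144) (.lf 0 6 160)))))))) (.dc 0 14 1 (.ct 3 4 1 1 1 (.dc 1 14 0 (.dc 2 14 0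
  (.ct 4 6 1 1 1 (.dc 0 1 0 (.ct 0 4 1 1 1 (.lf 1 8 160) (.lf 0 7 144))) (.dc 0 1 1 (.ct 0 4 1 1
  1 (.lf 1 6 160) (.ct 0 6 1 1 1 (.lf 1 7 160) (.lf 0 7 144))))))) (.dc 0 1 0 (.dc 1 14 1 (.ct 3
  5 1 1 1 (.dc 2 14 0 (.lf 0 7 128)) (.dc 2 14 1 (.lf 0 7 128)))))))))) (.dc 0 1 1 (.dc 0 14 0
  (.dc 1 1 1 (.dc 1 14 0 (.dc 2 14 0 (.ct 3 6 1 1 1 (.ct 0 5 2 1 1 (.dc 2 1 0 (.ct 0 6 1 1 1 (.ct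
  5 6 1 1 1 (.lf 3 5 176) (.lf 2 7 192)) (.lf 2 7 176))) (.dc 2 1 1 (.ct 0 3 2 1 1 (.ct 5 6 1 1 1
  (.lf 3 4 176) (.lf 2 5 176)) (.ct 0 6 2 1 1 (.ct 0 5 1 1 1 (.ct 5 6 1 1 1 (.lf 3 3 176) (.lf 2
  4 192)) (.lf 3 3 144)) (.ct 5 6 1 1 1 (.lf 3 12 144) (.lf 2 12 176)))))) (.ct 0 5 2 1 1 (.dc 2
  1 0 (.ct 3 4 1 1 1 (.lf 1 6 144) (.lf 0 5 160))) (.dc 2 1 1 (.ct 0 6 2 1 1 (.ct 3 4 1 1 1 (.lf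
  1 4 160) (.lf 0 4 160)) (.ct 3 4 1 1 1 (.lf 1 12 160) (.lf 0 12 144))))))))))))

theorem dt497 : le (run cls4 4 tr497 [[1, 0, 0, 0, 0, 0, 0], [1, 1, 0, 0, 0, 0, 0], [2, 1, 1,
  0, 0, 0, 0], [1, 1, 1, 1, 0, 0, 0], [1, 0, 0, 0, 1, 0, 0], [3, 1, 1, 1, 1, 1, 0], [1, 0, 0, 0,
  1, 1, 1]] 211096568709117 [57, 237, 237, 237, 285, 285, 285]) 1140040551802 = true := by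
  decide +kernel

end Pool.Agent.Work.MP_122e00_nt.Sharp.Cx

end

section

set_option autoImplicit false

set_option maxRecDepth 100000

/-!
# The certificate: data for at most three marks
-/

namespace Pool.Agent.Work.MP_122e00_nt.Sharp.Cx

/-- data -/
noncomputable def trs1 : Ct := (.dc 1 0 0 (.dc 2 0 0 (.ct 0 1 1 1 1 (.dc 1 1 0 (.dc 2 1 0 (.ct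
  1 3 1 1 1 (.dc 0 0 0 (.ct 0 3 1 2 1 (.dc 0 1 0 (.lf 0 0 80)) (.dc 0 1 1 (.lf 0 5 80)))) (.dc 0
  0 1 (.dc 0 1 1 (.lf 0 11 64)))))) (.dc 0 0 0 (.ct 0 3 1 1 1 (.dc 1 1 0 (.dc 2 1 0 (.ct 1 3 1 2
  1 (.dc 0 1 0 (.lf 0 0 80)) (.dc 0 1 1 (.lf 0 6 80))))) (.dc 0 1 1 (.dc 1 1 1 (.ct 0 2 2 1 1
  (.dc 2 1 0 (.lf 0 4 64)) (.dc 2 1 1 (.ct 0 3 2 1 1 (.lf 0 3 80) (.lf 0 7 80)))))))))))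

theorem dts1 : le (run cls1 1 trs1 [[1, 0, 0, 0], [0, 1, 0, 0], [0, 1, 1, 0], [0, 1, 1, 1]] 0
  [0, 0, 0, 0]) 228592832 = true := by decide +kernel

/-- data -/
noncomputable def trs2 : Ct := (.dc 1 0 0 (.dc 1 2 0 (.dc 2 0 0 (.dc 2 2 0 (.ct 0 2 1 1 1 (.dc
  1 1 0 (.dc 2 1 0 (.ct 2 4 1 1 1 (.dc 0 0 0 (.dc 0 2 0 (.ct 1 4 1 2 1 (.dc 1 3 0 (.dc 2 3 0 (.ct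
  0 4 1 2 1 (.dc 0 1 0 (.dc 0 3 0 (.lf 0 0 80))) (.dc 0 3 1 (.ct 0 1 1 1 1 (.dc 0 1 0 (.lf 0 8
  112)) (.dc 0 1 1 (.lf 0 7 112))))))) (.dc 0 3 1 (.ct 1 2 1 1 1 (.dc 1 3 0 (.dc 2 3 0 (.ct 0 4 1
  1 1 (.dc 0 1 0 (.lf 0 8 128)) (.dc 0 1 1 (.lf 0 7 128))))) (.dc 1 3 1 (.ct 0 4 1 1 1 (.dc 0 1 0
  (.ct 1 3 1 1 1 (.dc 2 3 0 (.lf 0 8 128)) (.dc 2 3 1 (.lf 0 7 128)))) (.dc 0 1 1 (.ct 1 3 1 1 1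
  (.dc 2 3 0 (.lf 0 9 128)) (.dc 2 3 1 (.lf 0 6 128))))))))))) (.dc 0 1 1 (.dc 0 2 1 (.dc 0 3 1
  (.ct 1 2 1 2 1 (.dc 0 0 1 (.dc 1 3 0 (.dc 2 3 0 (.lf 0 11 80)))) (.dc 0 0 0 (.ct 1 4 1 1 1 (.dc
  1 3 0 (.dc 2 3 0 (.lf 0 5 96))) (.dc 1 3 1 (.ct 1 3 1 1 1 (.dc 2 3 0 (.lf 0 6 96)) (.dc 2 3 1
  (.lf 0 4 96))))))))))))) (.dc 0 0 0 (.dc 0 2 0 (.ct 0 4 1 1 1 (.dc 1 1 0 (.dc 2 1 0 (.ct 1 4 1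
  2 1 (.dc 1 3 0 (.dc 2 3 0 (.ct 2 4 1 2 1 (.dc 0 1 0 (.dc 0 3 0 (.lf 0 0 80))) (.dc 0 3 1 (.ct 1
  2 1 1 1 (.dc 0 1 1 (.lf 0 8 112)) (.dc 0 1 0 (.lf 0 10 112))))))) (.dc 0 3 1 (.dc 1 3 1 (.ct 2
  4 1 1 1 (.dc 0 1 0 (.ct 1 3 1 1 1 (.dc 2 3 0 (.lf 0 8 112)) (.dc 2 3 1 (.lf 0 7 112)))) (.dc 0
  1 1 (.ct 1 3 1 1 1 (.dc 2 3 0 (.lf 0 8 112)) (.dc 2 3 1 (.lf 0 5 112)))))))))) (.dc 0 1 1 (.dc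
  0 3 1 (.dc 1 1 1 (.dc 1 3 1 (.ct 0 3 2 1 1 (.dc 2 1 0 (.ct 1 3 1 1 1 (.dc 2 3 0 (.lf 0 6 80))
  (.dc 2 3 1 (.lf 0 4 80)))) (.dc 2 1 1 (.dc 2 3 1 (.ct 0 4 2 1 1 (.lf 0 3 96) (.lf 0 10
  96)))))))))))))))))

theorem dts2 : le (run cls2 2 trs2 [[1, 0, 0, 0, 0], [1, 1, 0, 0, 0], [0, 0, 1, 0, 0], [0, 0,
  1, 1, 0], [0, 0, 1, 1, 1]] 0 [0, 0, 0, 0, 0]) 2275714604 = true := by decide +kernel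

/-- data -/
noncomputable def trs3 : Ct := (.dc 1 0 0 (.dc 1 2 0 (.dc 1 4 0 (.dc 2 0 0 (.dc 2 2 0 (.dc 2 4
  0 (.ct 0 3 1 1 1 (.dc 1 1 0 (.dc 2 1 0 (.ct 2 5 1 1 1 (.dc 1 5 0 (.dc 1 6 0 (.dc 2 5 0 (.dc 2 6
  0 (.ct 3 5 1 1 1 (.dc 0 0 0 (.dc 0 2 0 (.dc 0 4 0 (.dc 0 6 0 (.ct 1 5 1 2 1 (.dc 1 3 0 (.dc 2 3
  0 (.ct 0 5 1 2 1 (.dc 0 1 0 (.dc 0 3 0 (.dc 0 5 0 (.ct 2 5 1 2 1 (.dc 0 7 0 (.dc 1 7 0 (.dc 2 7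
  0 (.lf 0 0 96)))) (.dc 0 7 1 (.ct 0 2 1 1 1 (.ct 2 3 1 1 1 (.dc 1 7 0 (.dc 2 7 0 (.lf 0 9
  160))) (.dc 1 7 1 (.ct 2 4 1 1 1 (.dc 2 7 0 (.lf 0 10 160)) (.dc 2 7 1 (.lf 0 9 160))))) (.dc 1
  7 0 (.dc 2 7 0 (.lf 0 10 144))))))))) (.dc 0 3 1 (.dc 0 7 1 (.ct 0 1 1 1 1 (.dc 0 1 0 (.dc 0 5
  0 (.ct 2 3 1 1 1 (.dc 1 7 0 (.dc 2 7 0 (.lf 0 10 128))) (.ct 2 5 1 1 1 (.dc 1 7 0 (.dc 2 7 0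
  (.lf 0 10 144))) (.dc 1 7 1 (.ct 2 4 1 1 1 (.dc 2 7 0 (.lf 0 8 144)) (.dc 2 7 1 (.lf 0 8
  160)))))))) (.dc 0 5 1 (.ct 2 3 1 1 1 (.dc 1 7 0 (.dc 2 7 0 (.ct 0 2 1 1 1 (.dc 0 1 0 (.lf 0 9
  144)) (.dc 0 1 1 (.lf 0 8 144))))) (.ct 2 5 1 1 1 (.dc 1 7 0 (.dc 2 7 0 (.ct 0 2 1 1 1 (.dc 0 1
  0 (.lf 0 8 160)) (.ct 0 3 1 1 1 (.dc 0 1 0 (.lf 0 8 144)) (.dc 0 1 1 (.lf 0 9 144)))))) (.dc 1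
  7 1 (.ct 0 3 1 1 1 (.dc 0 1 0 (.ct 2 4 1 1 1 (.dc 2 7 0 (.lf 0 8 160)) (.dc 2 7 1 (.lf 0 7
  176)))) (.ct 0 5 1 1 1 (.dc 0 1 0 (.ct 2 4 1 1 1 (.dc 2 7 0 (.lf 0 7 176)) (.dc 2 7 1 (.lf 0 6
  176)))) (.ct 0 2 1 1 1 (.dc 0 1 0 (.ct 0 4 1 1 1 (.ct 2 4 1 1 1 (.dc 2 7 0 (.lf 0 7 144)) (.dc
  2 7 1 (.lf 0 9 144))) (.dc 2 7 1 (.lf 0 9 144)))) (.dc 0 1 1 (.ct 2 4 1 1 1 (.dc 2 7 0 (.lf 0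
  10 144)) (.dc 2 7 1 (.lf 0 10 144))))))))))))))))) (.dc 0 3 1 (.dc 0 7 1 (.ct 1 3 1 1 1 (.dc 1
  3 0 (.dc 2 3 0 (.ct 0 5 1 1 1 (.dc 0 1 0 (.dc 0 5 0 (.ct 2 3 1 1 1 (.dc 1 7 0 (.dc 2 7 0 (.lf 0
  9 144))) (.dc 1 7 1 (.ct 2 4 1 1 1 (.dc 2 7 0 (.lf 0 9 144)) (.dc 2 7 1 (.lf 0 6 144)))))))
  (.dc 0 5 1 (.ct 2 3 1 1 1 (.dc 1 7 0 (.dc 2 7 0 (.ct 0 2 1 1 1 (.dc 0 1 0 (.lf 0 6 128)) (.dc 0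
  1 1 (.lf 0 9 128))))) (.dc 1 7 1 (.ct 0 3 1 1 1 (.dc 0 1 0 (.ct 2 4 1 1 1 (.dc 2 7 0 (.lf 0 6
  144)) (.dc 2 7 1 (.lf 0 6 144)))) (.ct 0 2 1 1 1 (.dc 0 1 0 (.ct 0 4 1 1 1 (.ct 2 4 1 1 1 (.dc
  2 7 0 (.lf 0 6 144)) (.dc 2 7 1 (.lf 0 8 144))) (.dc 2 7 1 (.lf 0 9 144)))) (.dc 0 1 1 (.ct 2 4
  1 1 1 (.dc 2 7 0 (.lf 0 10 128)) (.dc 2 7 1 (.lf 0 10 144)))))))))))) (.dc 1 3 1 (.dc 1 7 1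
  (.ct 0 5 1 1 1 (.dc 0 1 0 (.dc 0 5 0 (.ct 1 4 1 1 1 (.dc 2 3 0 (.ct 2 4 1 1 1 (.dc 2 7 0 (.lf 0
  9 144)) (.dc 2 7 1 (.lf 0 9 144)))) (.dc 2 3 1 (.dc 2 7 1 (.lf 0 8 144)))))) (.dc 0 5 1 (.ct 1
  4 1 1 1 (.dc 2 3 0 (.ct 0 2 1 1 1 (.dc 0 1 0 (.ct 0 4 1 1 1 (.ct 2 4 1 1 1 (.dc 2 7 0 (.lf 0 9
  144)) (.dc 2 7 1 (.lf 0 10 144))) (.dc 2 7 1 (.lf 0 9 144)))) (.dc 0 1 1 (.ct 2 4 1 1 1 (.dc 2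
  7 0 (.lf 0 10 128)) (.dc 2 7 1 (.lf 0 10 144)))))) (.dc 2 3 1 (.dc 2 7 1 (.ct 0 2 1 1 1 (.dc 0
  1 0 (.lf 0 9 144)) (.dc 0 1 1 (.lf 0 7 144)))))))))))))))))) (.dc 0 3 1 (.dc 0 5 1 (.dc 0 6 1
  (.dc 0 7 1 (.ct 1 3 1 2 1 (.dc 1 3 0 (.dc 2 3 0 (.ct 2 3 1 2 1 (.dc 0 1 1 (.dc 0 2 1 (.dc 0 4 1
  (.dc 1 7 0 (.dc 2 7 0 (.ct 2 3 1 2 1 (.dc 0 0 1 (.lf 0 11 128)) (.dc 0 0 0 (.lf 0 6 128))))))))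
  (.dc 0 0 0 (.dc 0 4 0 (.ct 1 2 1 1 1 (.dc 0 2 0 (.ct 1 5 1 1 1 (.ct 2 5 1 1 1 (.dc 1 7 0 (.dc 2
  7 0 (.ct 0 2 1 1 1 (.dc 0 1 0 (.lf 0 8 176)) (.dc 0 1 1 (.lf 0 9 144))))) (.dc 1 7 1 (.ct 0 5 1
  1 1 (.dc 0 1 0 (.ct 2 4 1 1 1 (.dc 2 7 0 (.lf 0 8 176)) (.dc 2 7 1 (.lf 0 8 176)))) (.ct 0 2 1
  1 1 (.dc 0 1 0 (.ct 0 4 1 1 1 (.ct 2 4 1 1 1 (.dc 2 7 0 (.lf 0 7 176)) (.dc 2 7 1 (.lf 0 8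
  176))) (.dc 2 7 1 (.lf 0 8 176)))) (.dc 0 1 1 (.ct 2 4 1 1 1 (.dc 2 7 0 (.lf 0 9 176)) (.dc 2 7
  1 (.lf 0 11 176)))))))) (.dc 1 7 1 (.ct 1 4 1 1 1 (.ct 0 2 1 1 1 (.dc 0 1 0 (.ct 0 4 1 1 1 (.ct
  2 4 1 1 1 (.dc 2 7 0 (.lf 0 5 176)) (.dc 2 7 1 (.lf 0 7 176))) (.dc 2 7 1 (.lf 0 6 176)))) (.dc
  0 1 1 (.ct 2 4 1 1 1 (.dc 2 7 0 (.lf 0 9 176)) (.dc 2 7 1 (.lf 0 11 176))))) (.dc 2 7 1 (.ct 0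
  2 1 1 1 (.dc 0 1 0 (.lf 0 7 176)) (.dc 0 1 1 (.lf 0 11 176)))))))) (.dc 0 1 1 (.dc 0 2 1 (.ct 2
  5 1 1 1 (.dc 1 7 0 (.dc 2 7 0 (.lf 0 7 128))) (.dc 1 7 1 (.ct 2 4 1 1 1 (.dc 2 7 0 (.lf 0 7
  144)) (.dc 2 7 1 (.lf 0 9 176))))))))))))) (.dc 0 0 0 (.dc 0 4 0 (.ct 1 5 1 1 1 (.dc 1 3 0 (.dc
  2 3 0 (.ct 2 3 1 1 1 (.dc 0 1 1 (.dc 0 2 1 (.ct 2 5 1 1 1 (.dc 1 7 0 (.dc 2 7 0 (.lf 0 7 144)))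
  (.dc 1 7 1 (.ct 2 4 1 1 1 (.dc 2 7 0 (.lf 0 7 144)) (.dc 2 7 1 (.lf 0 8 160))))))) (.dc 0 2 0
  (.ct 3 5 1 1 1 (.ct 2 5 1 1 1 (.dc 1 7 0 (.dc 2 7 0 (.ct 0 2 1 1 1 (.dc 0 1 0 (.lf 0 8 160))
  (.dc 0 1 1 (.lf 0 9 144))))) (.dc 1 7 1 (.ct 0 5 1 1 1 (.dc 0 1 0 (.ct 2 4 1 1 1 (.dc 2 7 0
  (.lf 0 8 176)) (.dc 2 7 1 (.lf 0 8 176)))) (.ct 0 2 1 1 1 (.dc 0 1 0 (.ct 0 4 1 1 1 (.ct 2 4 1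
  1 1 (.dc 2 7 0 (.lf 0 6 176)) (.dc 2 7 1 (.lf 0 7 176))) (.dc 2 7 1 (.lf 0 10 176)))) (.dc 0 1
  1 (.ct 2 4 1 1 1 (.dc 2 7 0 (.lf 0 9 160)) (.dc 2 7 1 (.lf 0 11 176)))))))) (.dc 1 7 1 (.ct 3 4
  1 1 1 (.ct 0 2 1 1 1 (.dc 0 1 0 (.ct 0 4 1 1 1 (.ct 2 4 1 1 1 (.dc 2 7 0 (.lf 0 6 176)) (.dc 2
  7 1 (.lf 0 8 176))) (.dc 2 7 1 (.lf 0 8 176)))) (.dc 0 1 1 (.ct 2 4 1 1 1 (.dc 2 7 0 (.lf 0 10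
  160)) (.dc 2 7 1 (.lf 0 11 176))))) (.dc 2 7 1 (.ct 0 2 1 1 1 (.dc 0 1 0 (.lf 0 9 176)) (.dc 0
  1 1 (.lf 0 11 176))))))))))) (.dc 1 3 1 (.dc 1 7 1 (.ct 1 4 1 1 1 (.dc 2 3 0 (.ct 2 3 1 1 1
  (.dc 0 1 1 (.dc 0 2 1 (.ct 2 4 1 1 1 (.dc 2 7 0 (.lf 0 7 112)) (.dc 2 7 1 (.lf 0 8 128)))))
  (.dc 0 2 0 (.ct 3 4 1 1 1 (.ct 0 2 1 1 1 (.dc 0 1 0 (.ct 0 4 1 1 1 (.ct 2 4 1 1 1 (.dc 2 7 0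
  (.lf 0 8 144)) (.dc 2 7 1 (.lf 0 9 144))) (.dc 2 7 1 (.lf 0 9 144)))) (.dc 0 1 1 (.ct 2 4 1 1 1
  (.dc 2 7 0 (.lf 0 9 128)) (.dc 2 7 1 (.lf 0 11 144))))) (.dc 2 7 1 (.ct 0 2 1 1 1 (.dc 0 1 0
  (.lf 0 8 144)) (.dc 0 1 1 (.lf 0 11 144)))))))) (.dc 2 3 1 (.dc 2 7 1 (.ct 2 3 1 1 1 (.dc 0 1 1
  (.dc 0 2 1 (.lf 0 6 128))) (.dc 0 2 0 (.ct 0 2 1 1 1 (.dc 0 1 0 (.lf 0 9 144)) (.dc 0 1 1 (.lf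
  0 7 144))))))))))))))))))))))) (.dc 0 3 1 (.dc 0 5 1 (.dc 0 6 1 (.dc 0 7 1 (.ct 2 3 1 1 1 (.dc
  1 5 0 (.dc 1 6 0 (.dc 2 5 0 (.dc 2 6 0 (.ct 1 3 1 2 1 (.dc 1 3 0 (.dc 2 3 0 (.ct 3 5 2 1 1 (.dc
  0 0 0 (.dc 0 4 0 (.dc 1 7 1 (.ct 1 5 1 1 1 (.dc 0 2 0 (.ct 1 4 1 1 1 (.ct 2 4 1 1 1 (.ct 0 5 1
  1 1 (.dc 0 1 0 (.ct 0 4 1 1 1 (.ct 4 5 1 1 1 (.dc 2 7 1 (.lf 0 8 144)) (.dc 2 7 0 (.lf 0 7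
  144))) (.dc 2 7 1 (.lf 0 9 144)))) (.dc 0 1 1 (.ct 4 5 1 1 1 (.dc 2 7 1 (.lf 0 11 144)) (.dc 2
  7 0 (.lf 0 9 144))))) (.dc 2 7 1 (.ct 0 5 1 1 1 (.dc 0 1 0 (.lf 0 9 112)) (.dc 0 1 1 (.lf 0 11
  112))))) (.dc 2 7 1 (.ct 0 5 1 1 1 (.dc 0 1 0 (.lf 0 9 144)) (.dc 0 1 1 (.lf 0 11 144))))))
  (.dc 0 1 1 (.dc 0 2 1 (.ct 2 4 1 1 1 (.ct 4 5 1 1 1 (.dc 2 7 1 (.lf 0 9 144)) (.dc 2 7 0 (.lf 0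
  7 128))) (.dc 2 7 1 (.lf 0 8 144))))))))) (.dc 0 1 1 (.dc 0 2 1 (.dc 0 4 1 (.ct 2 3 1 2 1 (.dc
  1 7 0 (.dc 2 7 0 (.ct 3 5 2 1 1 (.dc 0 0 0 (.lf 0 4 144)) (.dc 0 0 1 (.lf 0 10 128))))) (.dc 0
  0 0 (.dc 1 7 1 (.ct 2 4 1 1 1 (.dc 2 7 0 (.lf 0 5 128)) (.dc 2 7 1 (.lf 0 7 128))))))))))))
  (.dc 0 0 0 (.dc 0 4 0 (.dc 1 3 1 (.dc 1 7 1 (.ct 1 4 1 1 1 (.dc 2 3 0 (.ct 3 5 1 1 1 (.dc 0 2 0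
  (.ct 2 4 1 1 1 (.ct 3 4 1 1 1 (.ct 0 5 1 1 1 (.dc 0 1 0 (.ct 0 4 1 1 1 (.ct 4 5 1 1 1 (.dc 2 7
  1 (.lf 0 7 144)) (.dc 2 7 0 (.lf 0 6 144))) (.dc 2 7 1 (.lf 0 7 144)))) (.dc 0 1 1 (.ct 4 5 1 1
  1 (.dc 2 7 1 (.lf 0 11 144)) (.dc 2 7 0 (.lf 0 9 128))))) (.dc 2 7 1 (.ct 0 5 1 1 1 (.dc 0 1 0
  (.lf 0 6 144)) (.dc 0 1 1 (.lf 0 11 144))))) (.dc 2 7 1 (.ct 0 5 1 1 1 (.dc 0 1 0 (.lf 0 8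
  144)) (.dc 0 1 1 (.lf 0 11 144)))))) (.dc 0 1 1 (.dc 0 2 1 (.ct 2 4 1 1 1 (.ct 4 5 1 1 1 (.dc 2
  7 1 (.lf 0 9 128)) (.dc 2 7 0 (.lf 0 7 112))) (.dc 2 7 1 (.lf 0 9 128))))))) (.dc 2 3 1 (.dc 2
  7 1 (.ct 3 5 1 1 1 (.dc 0 2 0 (.ct 0 5 1 1 1 (.dc 0 1 0 (.lf 0 8 144)) (.dc 0 1 1 (.lf 0 7
  128)))) (.dc 0 1 1 (.dc 0 2 1 (.lf 0 6 112)))))))))))))))) (.dc 0 0 0 (.dc 0 2 0 (.dc 0 4 0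
  (.dc 1 3 1 (.dc 1 5 1 (.dc 1 7 1 (.ct 2 4 2 1 1 (.dc 2 5 0 (.dc 2 6 0 (.ct 1 4 1 1 1 (.dc 2 3 0
  (.ct 0 2 1 1 1 (.dc 0 1 0 (.dc 1 6 1 (.ct 0 4 1 2 1 (.ct 2 4 1 2 1 (.ct 3 4 1 1 1 (.ct 4 5 1 1
  1 (.dc 2 7 1 (.lf 0 5 144)) (.dc 2 7 0 (.lf 0 4 144))) (.dc 2 7 1 (.lf 0 7 144))) (.dc 2 7 1
  (.lf 0 6 144))) (.dc 2 7 1 (.lf 0 5 176))))) (.dc 1 6 0 (.ct 2 4 1 2 1 (.ct 3 4 1 1 1 (.ct 0 5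
  1 1 1 (.dc 0 1 0 (.ct 0 4 1 1 1 (.ct 4 5 1 1 1 (.dc 2 7 1 (.lf 0 6 176)) (.dc 2 7 0 (.lf 0 5
  176))) (.dc 2 7 1 (.lf 0 6 176)))) (.dc 0 1 1 (.ct 4 5 1 1 1 (.dc 2 7 1 (.lf 0 11 176)) (.dc 2
  7 0 (.lf 0 9 160))))) (.dc 2 7 1 (.ct 0 5 1 1 1 (.dc 0 1 0 (.lf 0 8 144)) (.dc 0 1 1 (.lf 0 10
  144))))) (.dc 2 7 1 (.ct 0 5 1 1 1 (.dc 0 1 0 (.lf 0 7 176)) (.dc 0 1 1 (.lf 0 10 160))))))))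
  (.dc 2 3 1 (.dc 2 7 1 (.ct 0 2 1 1 1 (.dc 0 1 0 (.dc 1 6 1 (.lf 0 8 144))) (.dc 1 6 0 (.ct 0 5
  1 1 1 (.dc 0 1 0 (.lf 0 8 144)) (.dc 0 1 1 (.lf 0 7 128)))))))))) (.dc 2 3 1 (.dc 2 5 1 (.dc 2
  7 1 (.ct 0 2 1 2 1 (.dc 0 1 0 (.dc 1 6 1 (.dc 2 6 1 (.lf 0 5 128)))) (.dc 2 6 0 (.ct 0 4 1 1 1
  (.dc 0 1 0 (.dc 1 6 1 (.lf 0 7 144))) (.dc 1 6 0 (.ct 0 5 1 1 1 (.dc 0 1 0 (.lf 0 7 144)) (.dc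
  0 1 1 (.lf 0 6 128))))))))))))))))))))))))) (.dc 0 0 0 (.dc 0 2 0 (.dc 0 4 0 (.ct 0 5 1 1 1
  (.dc 1 1 0 (.dc 2 1 0 (.ct 2 5 1 1 1 (.dc 0 6 0 (.dc 1 5 0 (.dc 1 6 0 (.dc 2 5 0 (.dc 2 6 0
  (.ct 1 5 1 2 1 (.dc 1 3 0 (.dc 2 3 0 (.ct 3 5 1 2 1 (.dc 0 1 0 (.dc 0 3 0 (.dc 0 5 0 (.ct 2 5 1
  2 1 (.dc 0 7 0 (.dc 1 7 0 (.dc 2 7 0 (.lf 0 0 96)))) (.dc 0 7 1 (.ct 2 3 1 1 1 (.dc 1 7 0 (.dc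
  2 7 0 (.lf 0 11 144))) (.dc 1 7 1 (.ct 2 4 1 1 1 (.dc 2 7 0 (.lf 0 10 144)) (.dc 2 7 1 (.lf 0 9
  144)))))))))) (.dc 0 3 1 (.dc 0 7 1 (.ct 1 3 1 1 1 (.dc 0 5 1 (.ct 2 5 1 1 1 (.dc 1 7 0 (.dc 2
  7 0 (.ct 2 3 1 1 1 (.dc 0 1 1 (.lf 0 9 128)) (.dc 0 1 0 (.lf 0 9 160))))) (.dc 1 7 1 (.ct 3 5 1
  1 1 (.dc 0 1 0 (.ct 2 4 1 1 1 (.dc 2 7 0 (.lf 0 8 160)) (.dc 2 7 1 (.lf 0 7 176)))) (.ct 2 3 1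
  1 1 (.dc 0 1 1 (.ct 2 4 1 1 1 (.dc 2 7 0 (.lf 0 10 128)) (.dc 2 7 1 (.lf 0 10 144)))) (.dc 0 1
  0 (.ct 2 4 1 1 1 (.ct 3 4 1 1 1 (.dc 2 7 0 (.lf 0 9 128)) (.dc 2 7 1 (.lf 0 8 128))) (.dc 2 7 1
  (.lf 0 9 144))))))))) (.dc 0 1 0 (.dc 0 5 0 (.ct 2 5 1 1 1 (.dc 1 7 0 (.dc 2 7 0 (.lf 0 11
  144))) (.dc 1 7 1 (.ct 2 4 1 1 1 (.dc 2 7 0 (.lf 0 9 144)) (.dc 2 7 1 (.lf 0 9 160)))))))))))))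
  (.dc 0 3 1 (.dc 0 7 1 (.dc 1 3 1 (.dc 1 7 1 (.ct 3 5 1 1 1 (.dc 0 1 0 (.dc 0 5 0 (.ct 1 4 1 1 1
  (.dc 2 3 0 (.ct 2 4 1 1 1 (.dc 2 7 0 (.lf 0 10 128)) (.dc 2 7 1 (.lf 0 10 144)))) (.dc 2 3 1
  (.dc 2 7 1 (.lf 0 8 144)))))) (.dc 0 5 1 (.ct 1 4 1 1 1 (.dc 2 3 0 (.ct 2 3 1 1 1 (.dc 0 1 1
  (.ct 2 4 1 1 1 (.dc 2 7 0 (.lf 0 10 112)) (.dc 2 7 1 (.lf 0 10 128)))) (.dc 0 1 0 (.ct 2 4 1 1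
  1 (.ct 3 4 1 1 1 (.dc 2 7 0 (.lf 0 9 128)) (.dc 2 7 1 (.lf 0 8 128))) (.dc 2 7 1 (.lf 0 9
  144)))))) (.dc 2 3 1 (.dc 2 7 1 (.ct 2 3 1 1 1 (.dc 0 1 1 (.lf 0 7 128)) (.dc 0 1 0 (.lf 0 8
  144)))))))))))))))))) (.dc 0 3 1 (.dc 0 5 1 (.dc 0 7 1 (.dc 1 3 1 (.dc 1 5 1 (.dc 1 7 1 (.ct 2
  4 2 1 1 (.dc 2 5 0 (.dc 2 6 0 (.ct 1 4 1 1 1 (.dc 2 3 0 (.ct 2 3 1 1 1 (.dc 1 6 0 (.ct 3 5 1 1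
  1 (.dc 0 1 0 (.ct 3 4 1 1 1 (.ct 4 5 1 1 1 (.dc 2 7 1 (.ct 0 2 1 1 1 (.dc 0 6 1 (.lf 0 8 176))
  (.dc 0 6 0 (.lf 0 7 176)))) (.ct 0 2 1 1 1 (.dc 0 6 1 (.ct 0 4 1 2 1 (.ct 2 4 1 2 1 (.dc 2 7 0
  (.lf 0 6 192)) (.dc 2 7 1 (.lf 0 7 192))) (.dc 2 7 1 (.lf 0 7 192)))) (.dc 0 6 0 (.ct 2 4 1 2 1
  (.dc 2 7 0 (.lf 0 8 160)) (.dc 2 7 1 (.lf 0 6 192)))))) (.dc 2 7 1 (.ct 0 2 1 1 1 (.dc 0 6 1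
  (.lf 0 8 176)) (.dc 0 6 0 (.lf 0 6 176)))))) (.dc 0 1 1 (.ct 4 5 1 1 1 (.dc 2 7 1 (.ct 0 2 1 1
  1 (.dc 0 6 1 (.lf 0 10 160)) (.dc 0 6 0 (.lf 0 10 160)))) (.ct 0 2 1 1 1 (.dc 0 6 1 (.ct 0 4 1
  2 1 (.ct 2 4 1 2 1 (.dc 2 7 0 (.lf 0 9 176)) (.dc 2 7 1 (.lf 0 10 176))) (.dc 2 7 1 (.lf 0 10
  176)))) (.dc 0 6 0 (.ct 2 4 1 2 1 (.dc 2 7 0 (.lf 0 10 144)) (.dc 2 7 1 (.lf 0 10 176)))))))))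
  (.dc 0 1 0 (.ct 0 2 1 1 1 (.dc 0 6 1 (.dc 1 6 1 (.ct 0 4 1 2 1 (.ct 2 4 1 2 1 (.ct 3 4 1 2 1
  (.ct 4 5 1 1 1 (.dc 2 7 1 (.lf 0 6 160)) (.dc 2 7 0 (.lf 0 5 160))) (.dc 2 7 1 (.lf 0 8 176)))
  (.dc 2 7 1 (.lf 0 7 160))) (.dc 2 7 1 (.lf 0 7 160))))) (.dc 1 6 0 (.ct 2 4 1 2 1 (.ct 4 5 1 1
  1 (.dc 2 7 1 (.ct 0 3 1 1 1 (.dc 0 6 1 (.lf 0 8 176)) (.dc 0 6 0 (.lf 0 7 160)))) (.ct 0 3 1 1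
  1 (.dc 0 6 1 (.ct 0 4 1 2 1 (.ct 3 4 1 2 1 (.dc 2 7 0 (.lf 0 6 176)) (.dc 2 7 1 (.lf 0 7 192)))
  (.dc 2 7 1 (.lf 0 7 192)))) (.dc 0 6 0 (.ct 3 4 1 2 1 (.dc 2 7 0 (.lf 0 8 144)) (.dc 2 7 1 (.lf
  0 6 176)))))) (.dc 2 7 1 (.ct 0 3 1 1 1 (.dc 0 6 1 (.lf 0 8 176)) (.dc 0 6 0 (.lf 0 5
  160)))))))))) (.dc 2 3 1 (.dc 2 7 1 (.ct 2 3 1 1 1 (.dc 1 6 0 (.ct 3 5 1 1 1 (.dc 0 1 0 (.ct 0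
  2 1 1 1 (.dc 0 6 1 (.lf 0 9 176)) (.dc 0 6 0 (.lf 0 8 144)))) (.dc 0 1 1 (.ct 0 2 1 1 1 (.dc 0
  6 1 (.lf 0 8 160)) (.dc 0 6 0 (.lf 0 7 128)))))) (.dc 0 1 0 (.ct 0 2 1 1 1 (.dc 0 6 1 (.dc 1 6
  1 (.lf 0 8 144))) (.dc 1 6 0 (.ct 0 3 1 1 1 (.dc 0 6 1 (.lf 0 8 160)) (.dc 0 6 0 (.lf 0 8
  144)))))))))))) (.dc 2 3 1 (.dc 2 5 1 (.dc 2 7 1 (.ct 2 3 2 1 1 (.dc 2 6 0 (.ct 3 4 1 1 1 (.dc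
  0 1 0 (.ct 0 4 1 1 1 (.dc 0 6 1 (.dc 1 6 1 (.lf 0 7 144))) (.dc 1 6 0 (.ct 0 2 1 1 1 (.dc 0 6 1
  (.lf 0 7 144)) (.ct 0 3 1 1 1 (.dc 0 6 1 (.lf 0 8 160)) (.dc 0 6 0 (.lf 0 8 144))))))) (.dc 1 6
  0 (.ct 3 5 1 1 1 (.dc 0 1 0 (.ct 0 2 1 1 1 (.dc 0 6 1 (.lf 0 7 144)) (.ct 0 4 1 1 1 (.dc 0 6 1
  (.lf 0 8 176)) (.dc 0 6 0 (.lf 0 8 144))))) (.dc 0 1 1 (.ct 0 2 1 1 1 (.dc 0 6 1 (.lf 0 6 144))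
  (.ct 0 4 1 1 1 (.dc 0 6 1 (.lf 0 7 176)) (.dc 0 6 0 (.lf 0 6 144))))))))) (.dc 0 1 0 (.ct 0 2 1
  2 1 (.dc 0 6 1 (.dc 1 6 1 (.dc 2 6 1 (.lf 0 5 144)))) (.dc 2 6 0 (.ct 0 4 1 1 1 (.dc 0 6 1 (.dc
  1 6 1 (.lf 0 7 144))) (.dc 1 6 0 (.ct 0 3 1 1 1 (.dc 0 6 1 (.lf 0 7 144)) (.dc 0 6 0 (.lf 0 8
  128)))))))))))))))))))))) (.dc 0 3 1 (.dc 0 5 1 (.dc 0 7 1 (.dc 1 3 1 (.dc 1 5 1 (.dc 1 7 1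
  (.ct 0 2 1 1 1 (.dc 1 1 0 (.dc 2 1 0 (.ct 2 4 2 1 1 (.dc 2 6 0 (.ct 0 4 1 1 1 (.dc 2 5 0 (.ct 1
  4 1 1 1 (.dc 2 3 0 (.ct 2 3 1 1 1 (.dc 0 1 1 (.dc 1 6 0 (.ct 0 4 1 1 1 (.ct 2 5 1 1 1 (.dc 0 6
  0 (.ct 2 4 1 2 1 (.dc 2 7 0 (.lf 0 9 128)) (.dc 2 7 1 (.lf 0 9 160)))) (.dc 0 6 1 (.ct 2 4 1 2
  1 (.ct 4 5 2 1 1 (.dc 2 7 1 (.lf 0 11 160)) (.dc 2 7 0 (.lf 0 9 160))) (.dc 2 7 1 (.lf 0 12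
  160))))) (.dc 2 7 1 (.ct 2 5 1 1 1 (.dc 0 6 0 (.lf 0 9 144)) (.dc 0 6 1 (.lf 0 11 176)))))))
  (.dc 0 1 0 (.ct 2 5 1 1 1 (.dc 1 6 0 (.ct 0 4 1 1 1 (.ct 2 4 1 2 1 (.ct 3 5 1 1 1 (.dc 0 6 0
  (.ct 3 4 1 2 1 (.dc 2 7 0 (.lf 0 6 144)) (.dc 2 7 1 (.lf 0 4 176)))) (.dc 0 6 1 (.ct 3 4 1 2 1
  (.ct 4 5 2 1 1 (.dc 2 7 1 (.lf 0 5 176)) (.dc 2 7 0 (.lf 0 4 176))) (.dc 2 7 1 (.lf 0 8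
  160))))) (.dc 2 7 1 (.ct 3 5 1 1 1 (.dc 0 6 0 (.lf 0 4 160)) (.dc 0 6 1 (.lf 0 8 176))))) (.dc
  2 7 1 (.ct 3 5 1 1 1 (.dc 0 6 0 (.lf 0 5 144)) (.dc 0 6 1 (.lf 0 9 176)))))) (.dc 0 6 1 (.dc 1
  6 1 (.ct 0 4 1 1 1 (.ct 2 4 1 2 1 (.ct 3 4 1 2 1 (.ct 4 5 2 1 1 (.dc 2 7 1 (.lf 0 4 160)) (.dc
  2 7 0 (.lf 0 3 160))) (.dc 2 7 1 (.lf 0 10 176))) (.dc 2 7 1 (.lf 0 9 144))) (.dc 2 7 1 (.lf 0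
  8 144))))))))) (.dc 2 3 1 (.dc 2 7 1 (.ct 2 3 1 1 1 (.dc 0 1 1 (.dc 1 6 0 (.ct 2 5 1 1 1 (.dc 0
  6 0 (.lf 0 6 144)) (.dc 0 6 1 (.lf 0 8 160))))) (.dc 0 1 0 (.ct 2 5 1 1 1 (.dc 1 6 0 (.ct 3 5 1
  1 1 (.dc 0 6 0 (.lf 0 8 144)) (.dc 0 6 1 (.lf 0 10 160)))) (.dc 0 6 1 (.dc 1 6 1 (.lf 0 9
  144)))))))))) (.dc 2 3 1 (.dc 2 5 1 (.dc 2 7 1 (.ct 2 3 1 1 1 (.dc 0 1 1 (.dc 1 6 0 (.ct 2 5 1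
  1 1 (.dc 0 6 0 (.lf 0 5 144)) (.dc 0 6 1 (.lf 0 6 160))))) (.dc 0 1 0 (.ct 2 5 1 1 1 (.dc 1 6 0
  (.ct 3 5 1 1 1 (.dc 0 6 0 (.lf 0 6 144)) (.dc 0 6 1 (.lf 0 7 160)))) (.dc 0 6 1 (.dc 1 6 1 (.lf
  0 7 144))))))))))) (.dc 2 3 1 (.dc 2 5 1 (.dc 2 7 1 (.ct 2 3 2 1 1 (.dc 2 6 0 (.ct 3 4 1 1 1
  (.dc 0 1 0 (.ct 4 5 1 1 1 (.dc 1 6 0 (.ct 2 5 1 1 1 (.ct 3 5 1 1 1 (.dc 0 6 0 (.lf 0 6 144))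
  (.dc 0 6 1 (.lf 0 7 160))) (.dc 0 6 1 (.lf 0 6 144)))) (.dc 0 6 1 (.dc 1 6 1 (.lf 0 6 144)))))
  (.dc 0 1 1 (.dc 1 6 0 (.ct 2 5 1 1 1 (.ct 4 5 1 1 1 (.dc 0 6 0 (.lf 0 5 144)) (.dc 0 6 1 (.lf 0
  6 160))) (.dc 0 6 1 (.lf 0 6 144))))))) (.dc 0 1 0 (.ct 2 5 2 1 1 (.dc 2 6 0 (.ct 4 5 1 1 1
  (.dc 1 6 0 (.ct 3 5 1 1 1 (.dc 0 6 0 (.lf 0 6 128)) (.dc 0 6 1 (.lf 0 7 144)))) (.dc 0 6 1 (.dc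
  1 6 1 (.lf 0 6 144))))) (.dc 0 6 1 (.dc 1 6 1 (.dc 2 6 1 (.lf 0 6 144))))))))))))) (.dc 0 1 1
  (.dc 0 6 0 (.dc 1 1 1 (.dc 1 6 0 (.dc 2 6 0 (.ct 0 4 2 1 1 (.dc 2 1 0 (.ct 2 4 1 1 1 (.dc 2 5 0
  (.ct 1 4 1 1 1 (.dc 2 3 0 (.ct 2 4 1 1 1 (.dc 2 7 0 (.lf 0 7 112)) (.dc 2 7 1 (.lf 0 7 128))))
  (.dc 2 3 1 (.dc 2 7 1 (.lf 0 5 112))))) (.dc 2 3 1 (.dc 2 5 1 (.dc 2 7 1 (.lf 0 4 112))))))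
  (.dc 2 1 1 (.dc 2 3 1 (.dc 2 5 1 (.dc 2 7 1 (.ct 0 5 2 1 1 (.lf 0 3 112) (.lf 0 11
  112))))))))))))))))))))))))))))))

theorem dts3 : le (run cls3 3 trs3 [[1, 0, 0, 0, 0, 0], [1, 1, 0, 0, 0, 0], [1, 1, 1, 0, 0, 0],
  [0, 0, 0, 1, 0, 0], [0, 0, 0, 1, 1, 0], [0, 0, 0, 1, 1, 1]] 0 [0, 0, 0, 0, 0, 0]) 16514445838 =
  true := by decide +kernel

end Pool.Agent.Work.MP_122e00_nt.Sharp.Cx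

end
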