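import Pool.Agent.Work.MP_122e00_nt.Gen.Stmts2
import Pool.Agent.Work.MP_122e00_nt.Bd.B44
import Pool.Agent.Work.MP_122e00_nt.Bd.B45
import Pool.Agent.Work.MP_122e00_nt.Bd.B42
import Pool.Agent.Work.MP_122e00_nt.Bd.B40
import Pool.Agent.Work.MP_122e00_nt.Sharp.Stmts

/-! Bundle of small proof modules (one section per former module). -/

section

set_option autoImplicit false

/-!
# Item N3: the product at n and n + h, summed
-/

namespace Pool.Agent.Work.MP_122e00_nt.Gen

open Finset Filter Topology MeasureTheory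

open scoped ArithmeticFunction.vonMangoldt ArithmeticFunction.zeta

open Two

namespace IN3

theorem diffsum (S T : Finset ℕ) (hST : S ⊆ T) (h : ℕ) (hc : T.card ≤ S.card + h) (f : ℕ → ℝ)
    (z : ℝ) (hz : 0 ≤ z) (hf0 : ∀ n ∈ T, 0 ≤ f n) (hfz : ∀ n ∈ T, f n ≤ z) :
    0 ≤ ∑ n ∈ T, f n - ∑ n ∈ S, f n ∧ ∑ n ∈ T, f n - ∑ n ∈ S, f n ≤ h * z := by
  have h1 := Finset.sum_sdiff (f := f) hST
  have h2 : ∑ n ∈ T, f n - ∑ n ∈ S, f n = ∑ n ∈ T \ S, f n := by linarith
  rw [h2]
  constructor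
  · exact Finset.sum_nonneg fun n hn => hf0 n (Finset.mem_sdiff.1 hn).1
  · calc ∑ n ∈ T \ S, f n ≤ ∑ n ∈ T \ S, z :=
          Finset.sum_le_sum fun n hn => hfz n (Finset.mem_sdiff.1 hn).1
      _ = ((T \ S).card : ℝ) * z := by rw [Finset.sum_const, nsmul_eq_mul]
      _ ≤ h * z := by
          apply mul_le_mul_of_nonneg_right _ hz
          have h3 := Finset.card_sdiff_of_subset hST
          have : (T \ S).card ≤ h := by omega
          exact_mod_cast this

/-- The elementary inequality behind the item. -/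
theorem key (U U' W W' H H' l l' x y : ℝ) (hW : 0 ≤ W) (hW' : 0 ≤ W')
    (hH : 0 ≤ H) (hH' : 0 ≤ H') (hx0 : 0 ≤ x) (hx1 : x ≤ 1) (hl : |l| ≤ x) (hl' : |l'| ≤ x)
    (hU : |U| ≤ y) (hU' : |U'| ≤ y)
    (hb : (U - l) ^ 2 ≤ H * W) (hb' : (U' - l') ^ 2 ≤ H' * W') :
    |U * U'| ≤ (W' * H + W * H') / 2 + (2 * (x * y) + x) := by
  have h1 : |(U - l) * (U' - l')| ≤ (H * W' + H' * W) / 2 := by
    have hs : ((U - l) * (U' - l')) ^ 2 ≤ (H * W') * (H' * W) := by
      calc ((U - l) * (U' - l')) ^ 2 = (U - l) ^ 2 * (U' - l') ^ 2 := by ring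
        _ ≤ (H * W) * (H' * W') := mul_le_mul hb hb' (sq_nonneg _) (mul_nonneg hH hW)
        _ = (H * W') * (H' * W) := by ring
    have hp : 0 ≤ H * W' := mul_nonneg hH hW'
    have hq : 0 ≤ H' * W := mul_nonneg hH' hW
    have h4 : ((U - l) * (U' - l')) ^ 2 ≤ ((H * W' + H' * W) / 2) ^ 2 := by
      nlinarith [sq_nonneg (H * W' - H' * W)]
    exact abs_le_of_sq_le_sq h4 (by linarith)
  have h2 : |l * U'| ≤ x * y := by
    rw [abs_mul]; exact mul_le_mul hl hU' (abs_nonneg _) hx0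
  have h3 : |l' * U| ≤ x * y := by
    rw [abs_mul]; exact mul_le_mul hl' hU (abs_nonneg _) hx0
  have h5 : |l * l'| ≤ x := by
    rw [abs_mul]
    calc |l| * |l'| ≤ x * x := mul_le_mul hl hl' (abs_nonneg _) hx0
      _ ≤ x * 1 := mul_le_mul_of_nonneg_left hx1 hx0
      _ = x := mul_one x
  have e : U * U' = (U - l) * (U' - l') + l * U' + l' * U - l * l' := by ring
  rw [abs_le] at h1 h2 h3 h5 ⊢
  constructor
  · rw [e]; linarith [h1.1, h2.1, h3.1, h5.2]
  · rw [e]; linarith [h1.2, h2.2, h3.2, h5.1]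

/-- The summation, for abstract functions. -/
theorem core (r : ℝ) (hr : 0 ≤ r) (A N h : ℕ) (d W a b H : ℕ → ℝ) (x y : ℝ)
    (hd0 : ∀ n, 0 ≤ d n) (hW0 : ∀ n, n ≠ 0 → 0 ≤ W n) (ha0 : ∀ n, 0 ≤ a n) (hb0 : ∀ n, 0 ≤ b n)
    (ha : ∀ n, n ≠ 0 → W (n + h) = r * a n) (hb : ∀ n, n ≠ 0 → W n = r * b (n + h))
    (hH : ∀ n ∈ Ioc A N, 0 ≤ H n) (hdy : ∀ n, n ≤ N + h → d n ≤ y)
    (hWy : ∀ n, n ≠ 0 → n ≤ N + h → W n ≤ y) (hay : ∀ n ∈ Ioc A N, a n ≤ y)
    (hby : ∀ n ∈ Ioc A N, b n ≤ y) (hy : 0 ≤ y) (hx0 : 0 ≤ x) (hx1 : x ≤ 1)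
    (hdom : ∀ n ∈ Ioc A N, ∃ l, |l| ≤ x ∧ (d n - W n - l) ^ 2 ≤ H n * W n) :
    |∑ n ∈ Ioc A N, d n * d (n + h) - r * (∑ n ∈ Ioc A N, a n * d n +
      ∑ n ∈ Ioc A N, b n * d n - ∑ n ∈ Ioc A N, a n * W n)| ≤
      r / 2 * (∑ n ∈ Ioc A N, a n * H n + ∑ n ∈ Ioc A N, b n * H n) +
      ((h + 3 * r * h) * (y * y) + N * (2 * (x * y) + x)) := by
  obtain ⟨J, hJ⟩ : ∃ J : Finset ℕ, J = Ioc A (N - h) := ⟨_, rfl⟩
  obtain ⟨J', hJ'⟩ : ∃ J' : Finset ℕ, J' = J.map (addRightEmbedding h) := ⟨_, rfl⟩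
  obtain ⟨T, hT⟩ : ∃ T : Finset ℕ, T = Ioc A N := ⟨_, rfl⟩
  rw [← hT] at hH hay hby hdom ⊢
  have hJT : J ⊆ T := by
    intro n hn
    rw [hJ, Finset.mem_Ioc] at hn
    rw [hT, Finset.mem_Ioc]
    omega
  have hJT' : J' ⊆ T := by
    intro m hm
    rw [hJ', Finset.mem_map] at hm
    obtain ⟨n, hn, rfl⟩ := hm
    rw [hJ, Finset.mem_Ioc] at hn
    rw [hT, Finset.mem_Ioc]
    simp only [addRightEmbedding_apply]
    omega
  have hcJ : T.card ≤ J.card + h := by
    rw [hJ, hT, Nat.card_Ioc, Nat.card_Ioc]; omega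
  have hcJ' : T.card ≤ J'.card + h := by
    rw [hJ', Finset.card_map]; exact hcJ
  have hTn : ∀ n ∈ T, n ≠ 0 ∧ n ≤ N := by
    intro n hn
    rw [hT, Finset.mem_Ioc] at hn
    omega
  have hyy : 0 ≤ y * y := mul_nonneg hy hy
  -- the four differences
  obtain ⟨p1, p2⟩ := diffsum J T hJT h hcJ (fun n => d n * d (n + h)) (y * y) hyy
    (fun n _ => mul_nonneg (hd0 _) (hd0 _))
    (fun n hn => mul_le_mul (hdy n (by have := hTn n hn; omega))
      (hdy _ (by have := hTn n hn; omega)) (hd0 _) hy)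
  obtain ⟨p3, p4⟩ := diffsum J T hJT h hcJ (fun n => a n * d n) (y * y) hyy
    (fun n _ => mul_nonneg (ha0 _) (hd0 _))
    (fun n hn => mul_le_mul (hay n hn) (hdy _ (by have := hTn n hn; omega)) (hd0 _) hy)
  obtain ⟨p5, p6⟩ := diffsum J' T hJT' h hcJ' (fun n => b n * d n) (y * y) hyy
    (fun n _ => mul_nonneg (hb0 _) (hd0 _))
    (fun n hn => mul_le_mul (hby n hn) (hdy _ (by have := hTn n hn; omega)) (hd0 _) hy)
  obtain ⟨p7, p8⟩ := diffsum J T hJT h hcJ (fun n => a n * W n) (y * y) hyy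
    (fun n hn => mul_nonneg (ha0 _) (hW0 n (hTn n hn).1))
    (fun n hn => mul_le_mul (hay n hn) (hWy n (hTn n hn).1 (by have := hTn n hn; omega))
      (hW0 n (hTn n hn).1) hy)
  have hmap : ∀ g : ℕ → ℝ, ∑ m ∈ J', g m = ∑ n ∈ J, g (n + h) := by
    intro g
    rw [hJ', Finset.sum_map]
    rfl
  rw [hmap] at p5 p6
  -- the products
  have hid : ∑ n ∈ J, d n * d (n + h) = r * (∑ n ∈ J, a n * d n +
      ∑ n ∈ J, b (n + h) * d (n + h) - ∑ n ∈ J, a n * W n) +
      ∑ n ∈ J, (d n - W n) * (d (n + h) - W (n + h)) := by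
    rw [← Finset.sum_add_distrib, ← Finset.sum_sub_distrib, Finset.mul_sum,
      ← Finset.sum_add_distrib]
    refine Finset.sum_congr rfl fun n hn => ?_
    have hn0 := (hTn n (hJT hn)).1
    have e1 := ha n hn0
    have e2 := hb n hn0
    have e3 : r * (a n * d n + b (n + h) * d (n + h) - a n * W n) =
        (r * a n) * d n + (r * b (n + h)) * d (n + h) - (r * a n) * W n := by ring
    rw [e3, ← e1, ← e2]
    ring
  have habs : ∀ n, n ≠ 0 → n ≤ N + h → |d n - W n| ≤ y := by
    intro n hn hn'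
    have q1 := hd0 n
    have q2 := hdy n hn'
    have q3 := hW0 n hn
    have q4 := hWy n hn hn'
    rw [abs_le]
    constructor <;> linarith
  have hUU : |∑ n ∈ J, (d n - W n) * (d (n + h) - W (n + h))| ≤
      ∑ n ∈ J, (r / 2 * (a n * H n) + r / 2 * (b (n + h) * H (n + h)) + (2 * (x * y) + x)) := by
    refine (Finset.abs_sum_le_sum_abs _ _).trans (Finset.sum_le_sum fun n hn => ?_)
    have hnT := hJT hn
    have hnT' : n + h ∈ T := hJT' (by
      rw [hJ', Finset.mem_map]
      exact ⟨n, hn, rfl⟩)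
    have hn0 := (hTn n hnT).1
    have hn0' := (hTn _ hnT').1
    obtain ⟨l, hl, hlb⟩ := hdom n hnT
    obtain ⟨l', hl', hlb'⟩ := hdom (n + h) hnT'
    have hk := key (d n - W n) (d (n + h) - W (n + h)) (W n) (W (n + h)) (H n) (H (n + h)) l l'
      x y (hW0 _ hn0) (hW0 _ hn0') (hH _ hnT) (hH _ hnT') hx0 hx1 hl hl'
      (habs n hn0 (by have := hTn n hnT; omega))
      (habs _ hn0' (by have := hTn n hnT; omega)) hlb hlb'
    refine hk.trans (le_of_eq ?_)
    rw [ha n hn0, hb n hn0]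
    ring
  have hsplit : ∑ n ∈ J, (r / 2 * (a n * H n) + r / 2 * (b (n + h) * H (n + h)) +
      (2 * (x * y) + x)) = r / 2 * ∑ n ∈ J, a n * H n +
      r / 2 * ∑ n ∈ J, b (n + h) * H (n + h) + (J.card : ℝ) * (2 * (x * y) + x) := by
    rw [Finset.sum_add_distrib, Finset.sum_add_distrib, ← Finset.mul_sum, ← Finset.mul_sum,
      Finset.sum_const, nsmul_eq_mul]
  rw [hsplit] at hUU
  have hcard : (J.card : ℝ) * (2 * (x * y) + x) ≤ N * (2 * (x * y) + x) := by
    apply mul_le_mul_of_nonneg_right _ (by positivity)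
    have : J.card ≤ N := by rw [hJ, Nat.card_Ioc]; omega
    exact_mod_cast this
  have hHa : ∑ n ∈ J, a n * H n ≤ ∑ n ∈ T, a n * H n :=
    Finset.sum_le_sum_of_subset_of_nonneg hJT
      (fun n hn _ => mul_nonneg (ha0 _) (hH n hn))
  have hHb : ∑ n ∈ J, b (n + h) * H (n + h) ≤ ∑ n ∈ T, b n * H n := by
    rw [← hmap (fun m => b m * H m)]
    exact Finset.sum_le_sum_of_subset_of_nonneg hJT'
      (fun n hn _ => mul_nonneg (hb0 _) (hH n hn))
  have hHa' := mul_le_mul_of_nonneg_left hHa (show 0 ≤ r / 2 by linarith)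
  have hHb' := mul_le_mul_of_nonneg_left hHb (show 0 ≤ r / 2 by linarith)
  have r3 := mul_nonneg hr p3
  have r4 := mul_le_mul_of_nonneg_left p4 hr
  have r5 := mul_nonneg hr p5
  have r6 := mul_le_mul_of_nonneg_left p6 hr
  have r7 := mul_nonneg hr p7
  have r8 := mul_le_mul_of_nonneg_left p8 hr
  have hhy : 0 ≤ r * ((h : ℝ) * (y * y)) := by positivity
  have hhy' : 0 ≤ (h : ℝ) * (y * y) := by positivity
  rw [abs_le] at hUU ⊢
  constructor
  · nlinarith [hUU.1]
  · nlinarith [hUU.2]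

/-- The bound for `W`. -/
theorem Wn_le {s : ℕ} {ψ : (Fin s → ℝ) → ℝ} {B : ℝ} (hB : ∀ y, ψ y ≤ B) (hB0 : 0 ≤ B) (L : ℝ)
    (n : ℕ) (hn : n ≠ 0) : Wn s ψ L n ≤ (s + 1) * B * dv s n := by
  have h1 : TS L s 0 n (fun _ _ => (1 : ℝ)) ≤ dv s n := by
    have := (prfT3).2 L s 0 n hn
    simpa [dv] using this
  have h2 : Wn s ψ L n ≤ (s + 1) * B * TS L s 0 n (fun _ _ => (1 : ℝ)) := by
    unfold Wn
    simp only [TS]
    rw [Finset.mul_sum]
    refine Finset.sum_le_sum fun v _ => ?_
    unfold gs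
    calc ∑ i : Fin (s + 1), ψ (fun j => (fun i => Real.log (v i : ℕ) / L) (i.succAbove j))
        ≤ ∑ _i : Fin (s + 1), B := Finset.sum_le_sum fun i _ => hB _
      _ = (s + 1) * B * 1 := by
          rw [Finset.sum_const, Finset.card_univ, Fintype.card_fin, nsmul_eq_mul]
          push_cast
          ring
  refine h2.trans (mul_le_mul_of_nonneg_left h1 (by positivity))

theorem Wn_nonneg {s : ℕ} {ψ : (Fin s → ℝ) → ℝ} (hψ : ∀ y, 0 ≤ ψ y) (L : ℝ) (n : ℕ) :
    0 ≤ Wn s ψ L n := by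
  unfold Wn
  simp only [TS]
  exact Finset.sum_nonneg fun v _ => Finset.sum_nonneg fun i _ => hψ _

end IN3

open IN3 in
theorem prfN3 : claimN3 := by
  intro s h θ ψ hs hh hθ hθ1 hW H hD
  obtain ⟨B, hB⟩ := hW.bdd
  have hB0 : 0 ≤ B := (hW.nonneg 0).trans (hB 0)
  have hs0 : (0 : ℝ) ≤ s := Nat.cast_nonneg _
  obtain ⟨M, hM⟩ : ∃ M : ℝ, M = 1 + (s + 1) * B := ⟨_, rfl⟩
  have hM1 : 1 ≤ M := by
    rw [hM]
    have : 0 ≤ ((s : ℝ) + 1) * B := by positivity
    linarith
  obtain ⟨K, hK⟩ : ∃ K : ℝ, K = ((h : ℝ) + 3 * ((s : ℝ) + 1) * h) * (M * M) + 3 * (M * M) :=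
    ⟨_, rfl⟩
  have e6 := Two.IU9.zeta_pow_le s (δ := 1 / 4) (by norm_num)
  have e9 := Real.tendsto_log_atTop.eventually (eventually_ge_atTop (1 : ℝ))
  have e10 : ∀ᶠ X : ℝ in atTop, K * X ^ (1 / 4 : ℝ) ≤ X ^ (1 / 2 : ℝ) := by
    have h1 : ∀ᶠ X : ℝ in atTop, K ≤ X ^ (1 / 4 : ℝ) :=
      (tendsto_rpow_atTop (by norm_num)).eventually_ge_atTop _
    filter_upwards [h1, eventually_gt_atTop (0 : ℝ)] with X hX hX0
    calc K * X ^ (1 / 4 : ℝ) ≤ X ^ (1 / 4 : ℝ) * X ^ (1 / 4 : ℝ) :=
          mul_le_mul_of_nonneg_right hX (by positivity)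
      _ = X ^ (1 / 2 : ℝ) := by
          rw [← Real.rpow_add hX0]
          norm_num
  have e11 : ∀ᶠ X : ℝ in atTop, (h : ℝ) + 1 ≤ X / Real.log X := by
    have h2 : Tendsto (fun X : ℝ => Real.log X / X) atTop (𝓝 0) := by
      simpa using (Real.isLittleO_log_id_atTop.tendsto_div_nhds_zero)
    have h3 : (0 : ℝ) < 1 / ((h : ℝ) + 1) := by positivity
    filter_upwards [h2.eventually (gt_mem_nhds h3), e9, eventually_gt_atTop (0 : ℝ)]
      with X hX hL hX0
    rw [le_div_iff₀ (by linarith)]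
    rw [div_lt_div_iff₀ hX0 (by positivity)] at hX
    linarith
  filter_upwards [hD, e6, e9, e10, e11, eventually_ge_atTop (2 : ℝ), eventually_ge_atTop (h : ℝ)]
    with X h5 h6 h9 h10 h11 hX2 hXh
  have hX0 : 0 < X := by linarith
  have hX1 : 1 < X := by linarith
  obtain ⟨L, hL⟩ : ∃ L : ℝ, L = Real.log X := ⟨_, rfl⟩
  have hL0 : 0 < L := by rw [hL]; linarith
  obtain ⟨N, hN⟩ : ∃ N : ℕ, N = ⌊X⌋₊ := ⟨_, rfl⟩
  obtain ⟨A, hA⟩ : ∃ A : ℕ, A = ⌊X / L⌋₊ := ⟨_, rfl⟩
  rw [← hL] at h5 h11 ⊢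
  rw [← hN, ← hA]
  have hNX : (N : ℝ) ≤ X := by rw [hN]; exact Nat.floor_le hX0.le
  have hAX : X / L < (A : ℝ) + 1 := by rw [hA]; exact Nat.lt_floor_add_one _
  have hAh : h ≤ A := by
    have : (h : ℝ) < A + 1 := by linarith
    have : h < A + 1 := by exact_mod_cast this
    omega
  have hd0 : ∀ n, 0 ≤ dv s n := fun n => by unfold dv; exact Nat.cast_nonneg _
  have hW0 : ∀ n, n ≠ 0 → 0 ≤ Wn s ψ L n := fun n _ => Wn_nonneg hW.nonneg L n
  have ha0 : ∀ n, 0 ≤ Two.Apsi ψ X (-(h : ℤ)) n := fun n =>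
    IG3.Apsi_nonneg hW.nonneg _ _ _
  have hb0 : ∀ n, 0 ≤ Two.Apsi ψ X (h : ℤ) n := fun n => IG3.Apsi_nonneg hW.nonneg _ _ _
  have ha : ∀ n, n ≠ 0 → Wn s ψ L (n + h) = ((s : ℝ) + 1) * Two.Apsi ψ X (-(h : ℤ)) n := by
    intro n hn
    unfold Wn
    rw [hL]
    exact prfG1 s θ ψ hs hθ hθ1 hW X n (n + h) (-h) hX1 (by omega) (by push_cast; ring)
  have hb : ∀ n, n ≠ 0 → Wn s ψ L n = ((s : ℝ) + 1) * Two.Apsi ψ X (h : ℤ) (n + h) := by
    intro n hn
    unfold Wn
    rw [hL]
    exact prfG1 s θ ψ hs hθ hθ1 hW X (n + h) n h hX1 hn (by push_cast; ring)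
  have hrange : ∀ n ∈ Ioc A N, X / L ≤ (n : ℝ) ∧ (n : ℝ) ≤ X := by
    intro n hn
    rw [Finset.mem_Ioc] at hn
    have h11 : (A : ℝ) + 1 ≤ n := by exact_mod_cast hn.1
    have h12 : (n : ℝ) ≤ N := by exact_mod_cast hn.2
    exact ⟨by linarith, by linarith⟩
  obtain ⟨y, hy⟩ : ∃ y : ℝ, y = X ^ (1 / 8 : ℝ) := ⟨_, rfl⟩
  have hy1 : 1 ≤ y := by
    rw [hy]
    exact Real.one_le_rpow (by linarith) (by norm_num)
  have hyy : y * y = X ^ (1 / 4 : ℝ) := by
    rw [hy, ← Real.rpow_add hX0]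
    norm_num
  have hdy : ∀ n : ℕ, n ≤ N + h → dv s n ≤ y := by
    intro n hn
    have hn' : (n : ℝ) ≤ 2 * X := by
      have : (n : ℝ) ≤ ((N + h : ℕ) : ℝ) := by exact_mod_cast hn
      push_cast at this
      linarith
    have h15 := h6 n hn'
    have e : (1 / 4 / 2 : ℝ) = 1 / 8 := by norm_num
    rw [e, ← hy] at h15
    exact h15
  have hMy : y ≤ M * y := by nlinarith
  have hdMy : ∀ n : ℕ, n ≤ N + h → dv s n ≤ M * y := fun n hn => (hdy n hn).trans hMy
  have hWy : ∀ n, n ≠ 0 → n ≤ N + h → Wn s ψ L n ≤ M * y := by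
    intro n hn hn'
    have h1 := Wn_le hB hB0 L n hn
    have h2 : ((s : ℝ) + 1) * B * dv s n ≤ (s + 1) * B * y :=
      mul_le_mul_of_nonneg_left (hdy n hn') (by positivity)
    have h3 : ((s : ℝ) + 1) * B * y ≤ M * y := by rw [hM]; nlinarith
    linarith
  have hay : ∀ n ∈ Ioc A N, Two.Apsi ψ X (-(h : ℤ)) n ≤ M * y := by
    intro n hn
    rw [Finset.mem_Ioc] at hn
    have h1 := ha n (by omega)
    have h2 := hWy (n + h) (by omega) (by omega)
    have h3 := ha0 n
    nlinarith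
  have hby : ∀ n ∈ Ioc A N, Two.Apsi ψ X (h : ℤ) n ≤ M * y := by
    intro n hn
    rw [Finset.mem_Ioc] at hn
    have h1 := hb (n - h) (by omega)
    rw [Nat.sub_add_cancel (by omega)] at h1
    have h2 := hWy (n - h) (by omega) (by omega)
    have h3 := hb0 n
    nlinarith
  have hH : ∀ n ∈ Ioc A N, 0 ≤ H X n := fun n hn =>
    (h5 n (hrange n hn).1 (hrange n hn).2).1
  have hdom : ∀ n ∈ Ioc A N, ∃ l : ℝ, |l| ≤ X⁻¹ ∧
      (dv s n - Wn s ψ L n - l) ^ 2 ≤ H X n * Wn s ψ L n := fun n hn =>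
    (h5 n (hrange n hn).1 (hrange n hn).2).2
  have hx1 : X⁻¹ ≤ 1 := inv_le_one_of_one_le₀ hX1.le
  have hres := core ((s : ℝ) + 1) (by linarith) A N h (dv s) (Wn s ψ L)
    (fun n => Two.Apsi ψ X (-(h : ℤ)) n) (fun n => Two.Apsi ψ X (h : ℤ) n) (fun n => H X n)
    X⁻¹ (M * y) hd0 hW0 ha0 hb0 ha hb hH hdMy hWy hay hby (by nlinarith) (inv_nonneg.2 hX0.le)
    hx1 hdom
  have hDS : DS s h A N = ∑ n ∈ Ioc A N, dv s n * dv s (n + h) := by
    unfold DS dv
    rfl
  rw [hDS]
  refine hres.trans ?_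
  have f1 : (N : ℝ) * (2 * (X⁻¹ * (M * y)) + X⁻¹) ≤ 2 * (M * y) + 1 := by
    have h1 : (N : ℝ) * X⁻¹ ≤ 1 := by
      rw [← div_eq_mul_inv, div_le_one hX0]
      exact hNX
    have h2 : (N : ℝ) * (2 * (X⁻¹ * (M * y)) + X⁻¹) = ((N : ℝ) * X⁻¹) * (2 * (M * y) + 1) := by
      ring
    rw [h2]
    have h3 : 0 ≤ 2 * (M * y) + 1 := by positivity
    calc ((N : ℝ) * X⁻¹) * (2 * (M * y) + 1) ≤ 1 * (2 * (M * y) + 1) :=
          mul_le_mul_of_nonneg_right h1 h3
      _ = 2 * (M * y) + 1 := one_mul _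
  have f2 : 1 ≤ M * y := by nlinarith
  have f3 : 2 * (M * y) + 1 ≤ 3 * (M * M) * (y * y) := by nlinarith
  have f4 : ((h : ℝ) + 3 * ((s : ℝ) + 1) * h) * ((M * y) * (M * y)) +
      3 * (M * M) * (y * y) = K * (y * y) := by rw [hK]; ring
  rw [← hyy] at h10
  linarith

end Pool.Agent.Work.MP_122e00_nt.Gen

end

section

set_option autoImplicit false

/-!
# Item X0: monotonicity and scaling of means
-/

namespace Pool.Agent.Work.MP_122e00_nt.Gen

open Finset Filter Topology MeasureTheory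

open scoped ArithmeticFunction.vonMangoldt ArithmeticFunction.zeta

open Two

namespace IX0

theorem Apsi_nonneg {s : ℕ} {θ : ℝ} {ψ : (Fin s → ℝ) → ℝ} (hW : Wt s θ ψ) (X : ℝ) (z : ℤ)
    (n : ℕ) : 0 ≤ Apsi ψ X z n := by
  unfold Apsi
  refine Finset.sum_nonneg fun b _ => ?_
  split_ifs
  · exact hW.nonneg _
  · exact le_rfl

end IX0

open IX0 in
theorem prfX0 : claimX0 := by
  intro s h θ ψ hW
  refine ⟨?_, ?_⟩
  · intro H₁ H₂ I hM hle δ hδ
    filter_upwards [hM δ hδ, hle, eventually_gt_atTop 1] with X h1 h2 h3 z hz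
    refine le_trans (Finset.sum_le_sum fun n hn => ?_) (h1 z hz)
    rw [Finset.mem_Ioc] at hn
    refine mul_le_mul_of_nonneg_left (h2 n ?_ ?_) (Apsi_nonneg hW X z n)
    · exact (Nat.lt_of_floor_lt hn.1).le
    · exact (Nat.le_floor_iff (by linarith)).1 hn.2
  · intro a H I ha hM δ hδ
    rcases ha.lt_or_eq with ha | ha
    · filter_upwards [hM (δ / a) (div_pos hδ ha), eventually_gt_atTop 1] with X h1 h3 z hz
      have h4 := mul_le_mul_of_nonneg_left (h1 z hz) ha.le
      have h5 : ∑ n ∈ Finset.Ioc ⌊X / Real.log X⌋₊ ⌊X⌋₊, Apsi ψ X z n * (a * H X n) =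
          a * ∑ n ∈ Finset.Ioc ⌊X / Real.log X⌋₊ ⌊X⌋₊, Apsi ψ X z n * H X n := by
        rw [Finset.mul_sum]
        exact Finset.sum_congr rfl fun n _ => by ring
      rw [h5]
      refine h4.trans (le_of_eq ?_)
      have h6 : a * (δ / a) = δ := by field_simp
      calc a * ((Csing s h * (∫ y in O1 s, ψ y) * I + δ / a) * (X * Real.log X ^ (2 * s)))
          = (Csing s h * (∫ y in O1 s, ψ y) * (a * I) + a * (δ / a)) *
            (X * Real.log X ^ (2 * s)) := by ring
        _ = _ := by rw [h6]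
    · subst ha
      filter_upwards [eventually_gt_atTop 1] with X h3 z hz
      have hL : 0 < Real.log X := Real.log_pos h3
      have h4 : 0 ≤ X * Real.log X ^ (2 * s) := by positivity
      simp only [zero_mul, mul_zero, Finset.sum_const_zero, zero_add]
      positivity

end Pool.Agent.Work.MP_122e00_nt.Gen

end

section

set_option autoImplicit false

/-!
# Item X1: monotonicity of `TS` on the actual marks
-/

namespace Pool.Agent.Work.MP_122e00_nt.Gen

open Finset Filter Topology MeasureTheory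

open scoped ArithmeticFunction.vonMangoldt ArithmeticFunction.zeta

open Two

namespace IX1

theorem mono (L : ℝ) (s k : ℕ) : ∀ (n : ℕ) (F G : (Fin k → ℝ) → (Fin (s + 1) → ℝ) → ℝ),
    0 < L → n ≠ 0 →
    (∀ d : Fin k → ℕ, (∀ i, IsPrimePow (d i)) → (∏ i, d i) ∣ n → ∀ v : Fin (s + 1) → ℝ,
      (∀ i, 0 ≤ v i) → ∑ i, Real.log (d i) / L + ∑ i, v i = Real.log n / L →
      F (fun i => Real.log (d i) / L) v ≤ G (fun i => Real.log (d i) / L) v) →
    Two.TS L s k n F ≤ Two.TS L s k n G := by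
  induction k with
  | zero =>
    intro n F G hL hn hF
    simp only [Two.TS]
    refine Finset.sum_le_sum fun v hv => ?_
    rw [Nat.mem_finMulAntidiag] at hv
    have hv0 : ∀ i, v i ≠ 0 := by
      intro i hi
      apply hv.2
      rw [← hv.1]
      exact Finset.prod_eq_zero (Finset.mem_univ i) hi
    have h1 := hF Fin.elim0 (fun i => i.elim0) (by simp) (fun i => Real.log (v i) / L)
      (fun i => div_nonneg (Real.log_natCast_nonneg _) hL.le) (by
        simp only [Finset.univ_eq_empty, Finset.sum_empty, zero_add]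
        rw [← Finset.sum_div]
        congr 1
        rw [← hv.1]
        push_cast
        rw [Real.log_prod]
        intro i _
        exact_mod_cast hv0 i)
    have e : (fun i : Fin 0 => Real.log ((Fin.elim0 i : ℕ) : ℝ) / L) = Fin.elim0 :=
      Subsingleton.elim _ _
    rw [e] at h1
    exact h1
  | succ k ih =>
    intro n F G hL hn hF
    simp only [Two.TS]
    refine Finset.sum_le_sum fun d hd => ?_
    have hdn : d ∣ n := Nat.dvd_of_mem_divisors hd
    have hd0 : d ≠ 0 := fun h => hn (by rw [h] at hdn; exact Nat.eq_zero_of_zero_dvd hdn)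
    obtain ⟨e, rfl⟩ := hdn
    have he0 : e ≠ 0 := fun h => hn (by rw [h, mul_zero])
    have hdiv : d * e / d = e := Nat.mul_div_cancel_left e (Nat.pos_of_ne_zero hd0)
    rw [hdiv]
    by_cases hΛ : Λ d = 0
    · rw [hΛ]
      simp
    have hpp : IsPrimePow d := ArithmeticFunction.vonMangoldt_ne_zero_iff.1 hΛ
    refine mul_le_mul_of_nonneg_left ?_ (div_nonneg ArithmeticFunction.vonMangoldt_nonneg
      (Real.log_natCast_nonneg _))
    refine ih e _ _ hL he0 ?_
    intro d' hd' hdvd v hv hsum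
    have hcons : (fun i : Fin (k + 1) => Real.log ((Fin.cons d d' : Fin (k + 1) → ℕ) i) / L) =
        Fin.cons (Real.log d / L) (fun i => Real.log (d' i) / L) := by
      funext i
      refine Fin.cases ?_ (fun i => ?_) i
      · rw [Fin.cons_zero, Fin.cons_zero]
      · rw [Fin.cons_succ, Fin.cons_succ]
    have h1 := hF (Fin.cons d d') ?_ ?_ v hv ?_
    · rw [hcons] at h1
      exact h1
    · intro i
      refine Fin.cases ?_ (fun i => ?_) i
      · rw [Fin.cons_zero]
        exact hpp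
      · rw [Fin.cons_succ]
        exact hd' i
    · rw [Fin.prod_univ_succ]
      simp only [Fin.cons_zero, Fin.cons_succ]
      exact mul_dvd_mul_left d hdvd
    · rw [Fin.sum_univ_succ]
      simp only [Fin.cons_zero, Fin.cons_succ]
      rw [add_assoc, hsum]
      push_cast
      rw [Real.log_mul (by exact_mod_cast hd0) (by exact_mod_cast he0)]
      ring

end IX1

theorem prfX1 : claimX1 := fun L s k n F G hL hn h => IX1.mono L s k n F G hL hn h

end Pool.Agent.Work.MP_122e00_nt.Gen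

end

section

set_option autoImplicit false

/-!
# Item X2: one more mark, for functions of the marks
-/

namespace Pool.Agent.Work.MP_122e00_nt.Gen

open Finset Filter Topology MeasureTheory

open scoped ArithmeticFunction.vonMangoldt ArithmeticFunction.zeta

open Two

namespace IX2

theorem sum_ad {s : ℕ} (v : Fin (s + 1) → ℝ) (i : Fin (s + 1)) (t : ℝ) :
    ∑ q, ad v i t q = ∑ q, v q + t := by
  unfold ad
  have h : ∀ q, (if q = i then v q + t else v q) = v q + (if q = i then t else 0) := by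
    intro q
    split_ifs <;> ring
  simp only [h, Finset.sum_add_distrib, Finset.sum_ite_eq', Finset.mem_univ, if_true]

theorem congr {L : ℝ} {s k n : ℕ} {F G : (Fin k → ℝ) → (Fin (s + 1) → ℝ) → ℝ}
    (hL : 0 < L) (hn : n ≠ 0)
    (h : ∀ x v, (∀ m, 0 < x m) → (∀ i, 0 ≤ v i) → ∑ m, x m + ∑ i, v i = Real.log n / L →
      F x v = G x v) : TS L s k n F = TS L s k n G :=
  le_antisymm (prfB3.1 L s k n F G hL hn fun x v hx hv hs => (h x v hx hv hs).le)
    (prfB3.1 L s k n G F hL hn fun x v hx hv hs => (h x v hx hv hs).ge)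

end IX2

open IX2 in
theorem prfX2 : claimX2 := by
  classical
  intro L s k n F hL hn
  have h1 : TS L s k n (fun x _ => F x) =
      TS L s k n (fun x v => if ∑ i, v i = 0 then 0 else F x) +
        TS L s k n (fun x v => if ∑ i, v i = 0 then F x else 0) := by
    rw [← (prfT1 L s k n (fun x v => if ∑ i, v i = 0 then 0 else F x)
      (fun x v => if ∑ i, v i = 0 then F x else 0) 0).1]
    refine congr hL hn fun x v _ _ _ => ?_
    split_ifs <;> simp
  have h2 := prfB1 L s k n (fun x v => if ∑ i, v i = 0 then 0 else F x) hL hn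
    (fun x v _ _ _ h0 => by simp only [if_pos h0])
  have h3 : TS L s (k + 1) n (fun x v => ∑ i : Fin (s + 1),
        (if ∑ q, ad v i (x (Fin.last k)) q = 0 then 0 else F (Fin.init x))) =
      TS L s (k + 1) n (fun x _ => ((s : ℝ) + 1) * F (Fin.init x)) := by
    refine congr hL hn fun x v hx hv _ => ?_
    have h4 : ∀ i : Fin (s + 1),
        (if ∑ q, ad v i (x (Fin.last k)) q = 0 then 0 else F (Fin.init x)) =
          F (Fin.init x) := by
      intro i
      rw [if_neg]
      rw [sum_ad]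
      have h5 : 0 ≤ ∑ q, v q := Finset.sum_nonneg fun q _ => hv q
      have h6 := hx (Fin.last k)
      linarith
    simp only [h4, Finset.sum_const, Finset.card_univ, Fintype.card_fin, nsmul_eq_mul]
    push_cast
    ring
  rw [h1, h2]
  congr 1
  rw [← (prfT1 L s (k + 1) n (fun x _ => F (Fin.init x)) (fun x _ => F (Fin.init x))
    ((s : ℝ) + 1)).2]
  exact h3

end Pool.Agent.Work.MP_122e00_nt.Gen

end

section

set_option autoImplicit false

/-!
# Item X3: the divisor function with `k` marks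
-/

namespace Pool.Agent.Work.MP_122e00_nt.Gen

open Finset Filter Topology MeasureTheory

open scoped ArithmeticFunction.vonMangoldt ArithmeticFunction.zeta

open Two

theorem prfX3 (hX2 : claimX2) : claimX3 := by
  classical
  intro L s k n hL hn
  induction k with
  | zero =>
    rw [prfB3.2 L s n hn]
    simp [dv]
  | succ k ih =>
    rw [ih, Finset.sum_range_succ, hX2 L s k n (fun _ => 1) hL hn]
    ring

end Pool.Agent.Work.MP_122e00_nt.Gen

end

section

set_option autoImplicit false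

/-!
# D1: `m` draws of marks with replacement (helper18)
-/

namespace Pool.Agent.Work.MP_122e00_nt.Sharp

open Finset Filter Topology MeasureTheory

open scoped ENNReal ArithmeticFunction.vonMangoldt ArithmeticFunction.zeta

open Two Gen

namespace ID1

theorem Qo_zero : ∀ (k m : ℕ) (x : Fin k → ℝ), m < k → Qo k m x = 0
  | 0, m, x, h => absurd h (Nat.not_lt_zero _)
  | k + 1, m, x, h => by
      rw [Qo]
      apply Finset.sum_eq_zero
      intro b hb
      have hb' := Finset.mem_range.1 hb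
      rw [Qo_zero k (m - 1 - b) (Fin.tail x) (by omega), mul_zero]

theorem rest_cons {s k : ℕ} (a : ℝ) (x : Fin k → ℝ) (v : Fin (s + 1) → ℝ) :
    rest (Fin.cons a x : Fin (k + 1) → ℝ) v = (a + (∑ i, x i + ∑ i, v i)) * rest x v := by
  unfold rest
  rw [Fin.prod_univ_succ]
  congr 1
  · have : (Finset.univ.filter fun i : Fin (k + 1) => i < 0) = ∅ := by
      apply Finset.filter_false_of_mem
      intro i _
      exact not_lt.2 (Fin.zero_le i)
    rw [this, Finset.sum_empty, Fin.sum_univ_succ]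
    simp only [Fin.cons_zero, Fin.cons_succ]
    ring
  · apply Finset.prod_congr rfl
    intro j _
    have : ∑ i ∈ Finset.univ.filter (fun i : Fin (k + 1) => i < j.succ),
        (Fin.cons a x : Fin (k + 1) → ℝ) i =
        a + ∑ i ∈ Finset.univ.filter (fun i : Fin k => i < j), x i := by
      rw [Finset.sum_filter, Fin.sum_univ_succ, Finset.sum_filter]
      simp only [Fin.cons_zero, Fin.cons_succ, Fin.succ_lt_succ_iff, Fin.succ_pos, if_true]
    rw [this, Fin.sum_univ_succ]
    simp only [Fin.cons_zero, Fin.cons_succ]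
    ring

theorem Pl_cons {s k : ℕ} (g : (Fin (s + 1) → ℝ) → ℝ) (a : ℝ) (x : Fin k → ℝ)
    (v : Fin (s + 1) → ℝ) :
    Pl g (Fin.cons a x : Fin (k + 1) → ℝ) v = Pl (fun w => ∑ i, g (ad w i a)) x v := by
  classical
  unfold Pl
  rw [← (Fin.consEquiv (fun _ : Fin (k + 1) => Fin (s + 1))).sum_comp, Fintype.sum_prod_type,
    Finset.sum_comm]
  apply Finset.sum_congr rfl
  intro c _
  apply Finset.sum_congr rfl
  intro i _
  congr 1
  funext q
  rw [Fin.sum_univ_succ]
  simp only [Fin.consEquiv_apply, Fin.cons_zero, Fin.cons_succ, ad]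
  by_cases h : q = i
  · subst h
    simp
    ring
  · have h' : ¬ i = q := fun e => h e.symm
    simp [h, h']

theorem Qo_cons (k m : ℕ) (a : ℝ) (x : Fin k → ℝ) :
    Qo (k + 1) (m + 1) (Fin.cons a x) =
      ∑ b ∈ Finset.range (m + 1), (m.choose b : ℝ) * a ^ b * Qo k (m - b) x := by
  rw [Qo]
  simp only [Fin.cons_zero, Fin.tail_cons, Nat.add_sub_cancel]

theorem TS_zero (L : ℝ) (s k n : ℕ) : TS L s k n (fun _ _ => 0) = 0 := by
  have := (prfT1 L s k n (fun _ _ => 0) (fun _ _ => 0) 0).2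
  simpa using this

theorem TS_sum {ι : Type} (L : ℝ) (s k n : ℕ) (S : Finset ι)
    (F : ι → (Fin k → ℝ) → (Fin (s + 1) → ℝ) → ℝ) :
    TS L s k n (fun x v => ∑ i ∈ S, F i x v) = ∑ i ∈ S, TS L s k n (F i) := by
  classical
  induction S using Finset.induction_on with
  | empty => simpa using TS_zero L s k n
  | insert i S hi ih =>
    simp only [Finset.sum_insert hi]
    rw [(prfT1 L s k n (F i) (fun x v => ∑ i ∈ S, F i x v) 0).1, ih]

/-- the mark step for `k = 0` -/
theorem mark (L : ℝ) (s n : ℕ) (g : (Fin (s + 1) → ℝ) → ℝ) (hL : 0 < L) (hn : 2 ≤ n) :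
    TS L s 0 n (fun _ v => g v) = ∑ d ∈ n.divisors, (Λ d / Real.log n) *
      TS L s 0 (n / d) (fun _ v => ∑ i, g (ad v i (Real.log d / L))) := by
  have hlog : 0 < Real.log n := Real.log_pos (by exact_mod_cast hn)
  rw [prfB1 L s 0 n (fun _ v => g v) hL (by omega) (by
    intro x v _ _ hs hv
    rw [hv, Finset.univ_eq_empty, Finset.sum_empty, add_zero] at hs
    have : 0 < Real.log n / L := div_pos hlog hL
    exact absurd hs.symm this.ne')]
  rw [TS]
  rfl

end ID1

open ID1 in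
theorem prfD1 : claimD1 := by
  intro L s m
  induction m using Nat.strong_induction_on with
  | _ m ih =>
  intro n g hL hn
  rcases Nat.eq_zero_or_pos m with rfl | hm
  · rw [pow_zero, one_mul, Finset.sum_range_one]
    congr 1
    funext x v
    simp [Qo, rest, Pl]
  · obtain ⟨M, rfl⟩ : ∃ M, m = M + 1 := ⟨m - 1, by omega⟩
    rw [Finset.sum_range_succ']
    have h0 : TS L s 0 n (fun x v => Qo 0 (M + 1) x * rest x v * Pl g x v) = 0 := by
      have : (fun (x : Fin 0 → ℝ) (v : Fin (s + 1) → ℝ) => Qo 0 (M + 1) x * rest x v * Pl g x v) =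
          fun _ _ => 0 := by
        funext x v
        simp [Qo]
      rw [this]
      exact TS_zero L s 0 n
    rw [h0, add_zero]
    rcases Nat.lt_or_ge n 2 with h1 | h2
    · obtain rfl : n = 1 := by omega
      rw [Finset.sum_eq_zero]
      · simp
      · intro k _
        rw [TS]
        simp
    · have hlog : 0 < Real.log n := Real.log_pos (by exact_mod_cast h2)
      have hterm : ∀ k ∈ Finset.range (M + 1),
          TS L s (k + 1) n (fun x v => Qo (k + 1) (M + 1) x * rest x v * Pl g x v) =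
          ∑ d ∈ n.divisors, (Λ d / Real.log n) * (Real.log n / L *
            ∑ b ∈ Finset.range (M + 1), (M.choose b : ℝ) * (Real.log d / L) ^ b *
              TS L s k (n / d) (fun x v => Qo k (M - b) x * rest x v *
                Pl (fun w => ∑ i, g (ad w i (Real.log d / L))) x v)) := by
        intro k _
        rw [TS]
        apply Finset.sum_congr rfl
        intro d hd
        congr 1
        have hd0 : d ≠ 0 := (Nat.pos_of_mem_divisors hd).ne'
        have hdn : d ∣ n := Nat.dvd_of_mem_divisors hd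
        have hq0 : n / d ≠ 0 := (Nat.div_pos (Nat.le_of_dvd (Nat.pos_of_ne_zero hn) hdn)
          (Nat.pos_of_ne_zero hd0)).ne'
        have hsplit : Real.log n / L = Real.log d / L + Real.log ((n / d : ℕ) : ℝ) / L := by
          rw [← add_div, ← Real.log_mul (by exact_mod_cast hd0) (by exact_mod_cast hq0),
            ← Nat.cast_mul, Nat.mul_div_cancel' hdn]
        rw [IB2.congr L s k (n / d) _ (fun x v => Real.log n / L *
          ∑ b ∈ Finset.range (M + 1), ((M.choose b : ℝ) * (Real.log d / L) ^ b) *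
            (Qo k (M - b) x * rest x v *
                Pl (fun w => ∑ i, g (ad w i (Real.log d / L))) x v)) hL hq0 (by
          intro x v _ _ hs
          rw [Qo_cons, rest_cons, Pl_cons, hs, ← hsplit, Finset.sum_mul, Finset.sum_mul,
            Finset.mul_sum]
          apply Finset.sum_congr rfl
          intro b _
          ring)]
        rw [(prfT1 L s k (n / d) (fun x v => ∑ b ∈ Finset.range (M + 1),
          ((M.choose b : ℝ) * (Real.log d / L) ^ b) * (Qo k (M - b) x * rest x v *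
                Pl (fun w => ∑ i, g (ad w i (Real.log d / L))) x v)) (fun _ _ => 0)
                  (Real.log n / L)).2, TS_sum]
        congr 1
        apply Finset.sum_congr rfl
        intro b _
        exact (prfT1 L s k (n / d) (fun x v => Qo k (M - b) x * rest x v *
                Pl (fun w => ∑ i, g (ad w i (Real.log d / L))) x v) (fun _ _ => 0)
                  ((M.choose b : ℝ) * (Real.log d / L) ^ b)).2
      rw [Finset.sum_congr rfl hterm, Finset.sum_comm, mark L s n g hL h2, Finset.mul_sum]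
      apply Finset.sum_congr rfl
      intro d hd
      have hd0 : d ≠ 0 := (Nat.pos_of_mem_divisors hd).ne'
      have hdn : d ∣ n := Nat.dvd_of_mem_divisors hd
      have hq0 : n / d ≠ 0 := (Nat.div_pos (Nat.le_of_dvd (Nat.pos_of_ne_zero hn) hdn)
        (Nat.pos_of_ne_zero hd0)).ne'
      have hsplit : Real.log n / L = Real.log d / L + Real.log ((n / d : ℕ) : ℝ) / L := by
        rw [← add_div, ← Real.log_mul (by exact_mod_cast hd0) (by exact_mod_cast hq0),
          ← Nat.cast_mul, Nat.mul_div_cancel' hdn]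
      rw [← Finset.mul_sum, ← Finset.mul_sum, Finset.sum_comm]
      have hpow : (Real.log n / L) ^ M * TS L s 0 (n / d)
          (fun _ v => ∑ i, g (ad v i (Real.log d / L))) =
          ∑ b ∈ Finset.range (M + 1), ∑ k ∈ Finset.range (M + 1),
            (M.choose b : ℝ) * (Real.log d / L) ^ b *
              TS L s k (n / d) (fun x v => Qo k (M - b) x * rest x v *
                Pl (fun w => ∑ i, g (ad w i (Real.log d / L))) x v) := by
        rw [hsplit, add_pow, Finset.sum_mul]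
        apply Finset.sum_congr rfl
        intro b hb
        have hb' := Finset.mem_range.1 hb
        have h3 := ih (M - b) (by omega) (n / d) (fun w => ∑ i, g (ad w i (Real.log d / L)))
          hL hq0
        rw [← Finset.mul_sum]
        have h4 : ∑ k ∈ Finset.range (M + 1), TS L s k (n / d)
            (fun x v => Qo k (M - b) x * rest x v *
              Pl (fun w => ∑ i, g (ad w i (Real.log d / L))) x v) =
            ∑ k ∈ Finset.range (M - b + 1), TS L s k (n / d)
            (fun x v => Qo k (M - b) x * rest x v *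
              Pl (fun w => ∑ i, g (ad w i (Real.log d / L))) x v) := by
          symm
          apply Finset.sum_subset
          · intro k hk
            have := Finset.mem_range.1 hk
            exact Finset.mem_range.2 (by omega)
          · intro k _ hk
            have hk' : M - b < k := by
              by_contra h5
              exact hk (Finset.mem_range.2 (by omega))
            have : (fun (x : Fin k → ℝ) (v : Fin (s + 1) → ℝ) => Qo k (M - b) x * rest x v *
                Pl (fun w => ∑ i, g (ad w i (Real.log d / L))) x v) = fun _ _ => 0 := by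
              funext x v
              rw [Qo_zero k (M - b) x hk', zero_mul, zero_mul]
            rw [this]
            exact TS_zero L s k (n / d)
        rw [h4, ← h3]
        ring
      rw [← hpow, pow_succ]
      ring

end Pool.Agent.Work.MP_122e00_nt.Sharp

end
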