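import Pool.Agent.Work.MP_122e00_nt.Sharp.Cert.GB
import Pool.Agent.Work.MP_122e00_nt.Bdx.B05
import Pool.Agent.Work.MP_122e00_nt.Gen.Stmts2
import Pool.Agent.Work.MP_122e00_nt.Euler4
import Pool.Agent.Work.MP_122e00_nt.Sharp.Stmts
import Pool.Agent.Work.MP_122e00_nt.Bd.B45
import Pool.Agent.Work.MP_122e00_nt.Bd.B40

/-! Bundle of small proof modules (one section per former module). -/

section

set_option autoImplicit false

/-!
# The certificate: item G1
-/

namespace Pool.Agent.Work.MP_122e00_nt.Sharp.Cx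

open Finset MeasureTheory

open Gen

namespace G1

open Classical in
/-- The weight of one part. -/
noncomputable def fw (t : ℝ) : ℝ := if 1 / 2 ≤ t then 7 - 6 * t else 0

open Classical in
theorem g3_eq (v : Fin 3 → ℝ) (h0 : ∀ i, 0 ≤ v i) (h1 : ∑ i, v i = 1) :
    g3 0 v = ∑ i, 4 / 9 * fw (v i) := by
  unfold g3 gs
  refine Finset.sum_congr rfl fun i _ => ?_
  have hs : ∑ j, v (i.succAbove j) = 1 - v i := by
    rw [← h1, Fin.sum_univ_succAbove v i]
    ring
  unfold psw fw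
  by_cases h : 1 / 2 ≤ v i
  · rw [Set.indicator_of_mem, if_pos h]
    · rw [hs]
      ring
    · refine ⟨fun j => h0 _, ?_⟩
      have : ∑ j, v (i.succAbove j) ≤ 1 / 2 - 0 := by rw [hs]; linarith
      exact this
  · rw [Set.indicator_of_notMem, if_neg h, mul_zero]
    rintro ⟨_, h2⟩
    have h3 : ∑ j, v (i.succAbove j) ≤ 1 / 2 - 0 := h2
    rw [hs] at h3
    exact h (by linarith)

theorem sum_two (n : ℕ) (h : ℕ → ℝ) : ∑ F ∈ Finset.range (2 * n), h F =
    ∑ F ∈ Finset.range n, (h (2 * F) + h (2 * F + 1)) := by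
  induction n with
  | zero => simp
  | succ n ih =>
    rw [show 2 * (n + 1) = 2 * n + 1 + 1 by ring, Finset.sum_range_succ, Finset.sum_range_succ, ih,
      Finset.sum_range_succ]
    ring

theorem wtf_even (k F : ℕ) : wtf (k + 1) (2 * F) = 2 * wtf k F := by
  have e : wtf (k + 1) (2 * F) = cond (Nat.beq (2 * F % 2) 0) (2 * wtf k (2 * F / 2))
    (wtf k (2 * F / 2)) := rfl
  rw [e, show 2 * F % 2 = 0 by omega, show 2 * F / 2 = F by omega]
  rfl

theorem wtf_odd (k F : ℕ) : wtf (k + 1) (2 * F + 1) = wtf k F := by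
  have e : wtf (k + 1) (2 * F + 1) = cond (Nat.beq ((2 * F + 1) % 2) 0)
    (2 * wtf k ((2 * F + 1) / 2)) (wtf k ((2 * F + 1) / 2)) := rfl
  rw [e, show (2 * F + 1) % 2 = 1 by omega, show (2 * F + 1) / 2 = F by omega]
  rfl

theorem uv_even (k q F : ℕ) : uv (k + 1) q (2 * F) = 0 :: uv k q F := by
  have e : uv (k + 1) q (2 * F) = (2 * F % 2) :: uv k q (2 * F / 2) := rfl
  rw [e, show 2 * F % 2 = 0 by omega, show 2 * F / 2 = F by omega]

theorem uv_odd (k q F : ℕ) : uv (k + 1) q (2 * F + 1) = 1 :: uv k q F := by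
  have e : uv (k + 1) q (2 * F + 1) = ((2 * F + 1) % 2) :: uv k q ((2 * F + 1) / 2) := rfl
  rw [e, show (2 * F + 1) % 2 = 1 by omega, show (2 * F + 1) / 2 = F by omega]

/-- The sum over the placements of the marks. -/
theorem plc_sum (f : ℝ → ℝ) (i : Fin 3) (q : ℕ) : ∀ (k : ℕ) (x : Fin k → ℝ) (t : ℝ),
    ∑ c : Fin k → Fin 3, f (t + ∑ j, if c j = i then x j else 0) =
      ∑ F ∈ Finset.range (2 ^ k), (wtf k F : ℝ) *
        f (t + ∑ j : Fin k, (nthN (uv k q F) j.val : ℝ) * x j) := by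
  intro k
  induction k with
  | zero =>
    intro x t
    simp [wtf]
  | succ k ih =>
    intro x t
    rw [← (Fin.consEquiv fun _ : Fin (k + 1) => Fin 3).sum_comp, Fintype.sum_prod_type]
    have e1 : ∀ (a : Fin 3), ∑ c : Fin k → Fin 3,
        f (t + ∑ j, if (Fin.consEquiv fun _ : Fin (k + 1) => Fin 3) (a, c) j = i then x j else 0) =
        ∑ F ∈ Finset.range (2 ^ k), (wtf k F : ℝ) *
          f (t + (if a = i then x 0 else 0) +
            ∑ j : Fin k, (nthN (uv k q F) j.val : ℝ) * x j.succ) := by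
      intro a
      rw [← ih (fun j => x j.succ) (t + if a = i then x 0 else 0)]
      refine Finset.sum_congr rfl fun c _ => ?_
      congr 1
      rw [Fin.sum_univ_succ, add_assoc]
      rfl
    have e2 : (fun a : Fin 3 => ∑ c : Fin k → Fin 3,
        f (t + ∑ j, if (Fin.consEquiv fun _ : Fin (k + 1) => Fin 3) (a, c) j = i then x j else 0)) =
        fun a => if a = i then
          ∑ F ∈ Finset.range (2 ^ k), (wtf k F : ℝ) *
          f (t + x 0 + ∑ j : Fin k, (nthN (uv k q F) j.val : ℝ) * x j.succ) else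
          ∑ F ∈ Finset.range (2 ^ k), (wtf k F : ℝ) *
          f (t + 0 + ∑ j : Fin k, (nthN (uv k q F) j.val : ℝ) * x j.succ) := by
      funext a
      rw [e1]
      by_cases h : a = i
      · simp only [h, if_true]
      · simp only [h, if_false]
    rw [e2]
    have e3 : ∀ A B : ℝ, (∑ a : Fin 3, if a = i then A else B) = A + 2 * B := by
      intro A B
      fin_cases i <;> simp [Fin.sum_univ_three] <;> ring
    rw [e3, pow_succ, mul_comm (2 ^ k) 2, sum_two, Finset.mul_sum, ← Finset.sum_add_distrib]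
    refine Finset.sum_congr rfl fun F _ => ?_
    rw [uv_even, uv_odd, wtf_even, wtf_odd, Fin.sum_univ_succ, Fin.sum_univ_succ]
    have e4 : ∀ (a : ℕ) (j : Fin k), nthN (a :: uv k q F) (j.succ.val) = nthN (uv k q F) j.val :=
      fun a j => rfl
    have e5 : ∀ a : ℕ, nthN (a :: uv k q F) (0 : Fin (k + 1)).val = a := fun a => rfl
    simp only [e4, e5]
    push_cast
    rw [zero_mul, one_mul, zero_add, add_zero, ← add_assoc]
    ring

theorem uv_part (q : ℕ) : ∀ (k F r : ℕ), r < 3 →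
    nthN (uv k q F) (k + r) = if q = r then 1 else 0 := by
  intro k
  induction k with
  | zero =>
    intro F r hr
    rw [zero_add]
    have e : uv 0 q F = [cond (Nat.beq q 0) 1 0, cond (Nat.beq q 1) 1 0, cond (Nat.beq q 2) 1 0] := rfl
    have hb : ∀ s : ℕ, cond (Nat.beq q s) 1 0 = if q = s then 1 else 0 := by
      intro s
      cases h : Nat.beq q s with
      | true => rw [if_pos (Nat.eq_of_beq_eq_true h)]; rfl
      | false => rw [if_neg (Nat.ne_of_beq_eq_false h)]; rfl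
    rw [e, hb, hb, hb]
    interval_cases r <;> rfl
  | succ k ih =>
    intro F r hr
    have e : uv (k + 1) q F = (F % 2) :: uv k q (F / 2) := rfl
    rw [e, show k + 1 + r = (k + r) + 1 by ring]
    exact ih (F / 2) r hr

theorem lu_eq (k : ℕ) (q : Fin 3) (F : ℕ) (p : Fin (k + 3) → ℝ) :
    lu k q.val F p = ph3 p q + ∑ j : Fin k, (nthN (uv k q.val F) j.val : ℝ) * px p j := by
  unfold lu
  rw [Fin.sum_univ_add, add_comm]
  congr 1
  have e : ∀ i : Fin 3, (nthN (uv k q.val F) (Fin.natAdd k i).val : ℝ) * p (Fin.natAdd k i) =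
      if q = i then ph3 p i else 0 := by
    intro i
    rw [Fin.val_natAdd, uv_part q.val k F i.val i.2]
    by_cases h : q = i
    · rw [if_pos (by rw [h]), if_pos h]
      simp [ph3]
    · rw [if_neg (fun h2 => h (Fin.ext h2)), if_neg h]
      simp
  rw [Finset.sum_congr rfl fun i _ => e i]
  simp

end G1

open G1 in
theorem prfG1 : claimG1 := by
  classical
  intro k p h0 h1
  unfold Pl
  have hx : ∑ j : Fin k, px p j + ∑ q : Fin 3, ph3 p q = 1 := by
    rw [← h1, Fin.sum_univ_add]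
    rfl
  have e1 : ∀ c : Fin k → Fin 3,
      g3 0 (fun q => ph3 p q + ∑ j, if c j = q then px p j else 0) =
      ∑ i, 4 / 9 * fw (ph3 p i + ∑ j, if c j = i then px p j else 0) := by
    intro c
    refine g3_eq _ ?_ ?_
    · intro i
      refine add_nonneg (h0 _) (Finset.sum_nonneg fun j _ => ?_)
      split_ifs
      · exact h0 _
      · exact le_refl 0
    · rw [Finset.sum_add_distrib, Finset.sum_comm]
      simp only [Finset.sum_ite_eq, Finset.mem_univ, if_true]
      rw [add_comm]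
      exact hx
  rw [Finset.sum_congr rfl fun c _ => e1 c, Finset.sum_comm]
  simp only [← Finset.mul_sum]
  congr 1
  rw [Finset.sum_range]
  refine Finset.sum_congr rfl fun i _ => ?_
  rw [plc_sum fw i i.val k (px p) (ph3 p i)]
  refine Finset.sum_congr rfl fun F _ => ?_
  rw [← lu_eq]
  unfold fw
  by_cases h : 1 / 2 ≤ lu k i.val F p
  · rw [if_pos h, if_pos h]
  · rw [if_neg h, if_neg h, mul_zero]

end Pool.Agent.Work.MP_122e00_nt.Sharp.Cx

end

section

set_option autoImplicit false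

/-!
# The certificate: item G2
-/

namespace Pool.Agent.Work.MP_122e00_nt.Sharp.Cx

open Finset MeasureTheory

theorem nthN_replicate (n i : ℕ) : nthN (List.replicate n 0) i = 0 := by
  induction n generalizing i with
  | zero => exact GB.nthN_nil i
  | succ n ih =>
    rcases i with _ | i
    · rfl
    · exact ih i

theorem prfG2 : claimG2 := by
  intro k S
  refine ⟨List.length_replicate, fun y _ _ => ?_⟩
  have e : ∀ i : Fin (k + 3), (nthN (List.replicate (k + 3) 0) i.val : ℝ) = 0 := by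
    intro i
    rw [nthN_replicate]
    simp
  simp [e]

end Pool.Agent.Work.MP_122e00_nt.Sharp.Cx

end

section

set_option autoImplicit false

/-!
# The certificate: item G3
-/

namespace Pool.Agent.Work.MP_122e00_nt.Sharp.Cx

open Finset MeasureTheory

namespace G3

open GB

/-- The entries of `uv` are `0` or `1`. -/
theorem uv_le (k q : ℕ) : ∀ (F i : ℕ), nthN (uv k q F) i ≤ 1 := by
  induction k with
  | zero =>
    intro F i
    have e : uv 0 q F = [cond (Nat.beq q 0) 1 0, cond (Nat.beq q 1) 1 0, cond (Nat.beq q 2) 1 0] := rfl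
    rw [e]
    have hb : ∀ b : Bool, cond b 1 0 ≤ 1 := by intro b; cases b <;> simp
    rcases i with _ | _ | _ | i
    · exact hb _
    · exact hb _
    · exact hb _
    · have : nthN [cond (Nat.beq q 0) 1 0, cond (Nat.beq q 1) 1 0, cond (Nat.beq q 2) 1 0]
        (i + 1 + 1 + 1) = nthN [] i := rfl
      rw [this, nthN_nil]
      exact Nat.zero_le 1
  | succ k ih =>
    intro F i
    have e : uv (k + 1) q F = (F % 2) :: uv k q (F / 2) := rfl
    rw [e]
    rcases i with _ | i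
    · have : nthN ((F % 2) :: uv k q (F / 2)) 0 = F % 2 := rfl
      rw [this]
      omega
    · exact ih (F / 2) i

theorem uv_length (k q : ℕ) : ∀ F : ℕ, (uv k q F).length = k + 3 := by
  induction k with
  | zero => intro F; rfl
  | succ k ih =>
    intro F
    have e : uv (k + 1) q F = (F % 2) :: uv k q (F / 2) := rfl
    rw [e, List.length_cons, ih]

theorem addf_cons (w a : ℕ) (u f : List ℕ) :
    addf w (a :: u) f = (hd f + w * (7 - 6 * a)) :: addf w u (tl f) := rfl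

theorem addf_length (w : ℕ) : ∀ u f : List ℕ, (addf w u f).length = u.length := by
  intro u
  induction u with
  | nil => intro f; rfl
  | cons a u ih => intro f; rw [addf_cons, List.length_cons, List.length_cons, ih]

theorem addf_nth (w : ℕ) : ∀ (u f : List ℕ) (i : ℕ), i < u.length →
    nthN (addf w u f) i = nthN f i + w * (7 - 6 * nthN u i) := by
  intro u
  induction u with
  | nil => intro f i hi; exact absurd hi (Nat.not_lt_zero _)
  | cons a u ih =>
    intro f i hi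
    rw [addf_cons]
    rcases i with _ | i
    · rfl
    · rw [nthN_succ, nthN_succ, ih _ _ (by simpa using hi), nthN_tl]

/-- The vertices are vertices of `S`. -/
theorem pts_vertex {k : ℕ} {S : List (List ℕ)} (hS : Sv k S) (o : Option (Fin (k + 2))) :
    ∃ p ∈ S, pts (k + 2) S o = pt (k + 3) p := by
  rcases o with _ | i
  · exact ⟨nth S (k + 2), nth_mem S _ (by rw [hS.1]; omega), rfl⟩
  · exact ⟨nth S i.val, nth_mem S _ (by rw [hS.1]; have := i.2; omega), rfl⟩

theorem vertex_pts {k : ℕ} {S : List (List ℕ)} (hS : Sv k S) (p : List ℕ) (hp : p ∈ S) :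
    ∃ o, pts (k + 2) S o = pt (k + 3) p := by
  obtain ⟨i, hi, rfl⟩ : ∃ i, i < S.length ∧ nth S i = p := by
    clear hS
    induction S with
    | nil => exact absurd hp List.not_mem_nil
    | cons a S ih =>
      rcases List.mem_cons.1 hp with rfl | hp
      · exact ⟨0, by simp, rfl⟩
      · obtain ⟨i, hi, h⟩ := ih hp
        exact ⟨i + 1, by simpa using hi, h⟩
  rw [hS.1] at hi
  rcases Nat.lt_or_ge i (k + 2) with h | h
  · exact ⟨some ⟨i, h⟩, rfl⟩
  · have : i = k + 2 := by omega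
    subst this
    exact ⟨none, rfl⟩

/-- The sum of the coordinates of a vertex is one. -/
theorem sum_pt {k : ℕ} {p : List ℕ} (hp : p.length = k + 3) (h0 : 0 < sm p) :
    ∑ i, pt (k + 3) p i = 1 := by
  unfold pt
  rw [← Finset.sum_div, sm_eq (k + 3) p hp]
  rw [sm_eq (k + 3) p hp] at h0
  have h : (0 : ℝ) < ((∑ i : Fin (k + 3), nthN p i.val : ℕ) : ℝ) := by exact_mod_cast h0
  rw [← Nat.cast_sum]
  exact div_self h.ne'

theorem sum_bar {k : ℕ} {S : List (List ℕ)} (hS : Sv k S) (y : Fin (k + 2) → ℝ) :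
    ∑ i, Chamber.bar (pts (k + 2) S) y i = 1 := by
  have h := lin_bar (fun _ : Fin (k + 3) => (1 : ℝ)) (pts (k + 2) S) y
  unfold lin at h
  simp only [one_mul] at h
  rw [h]
  have : ∀ o, ∑ i, pts (k + 2) S o i = 1 := by
    intro o
    obtain ⟨p, hp, e⟩ := pts_vertex hS o
    rw [e]
    exact sum_pt (hS.2 p hp).1 (hS.2 p hp).2
  simp only [this, mul_one]
  exact wt_sum y

/-- The linear form at a vertex. -/
theorem lu_pt (k q F : ℕ) (p : List ℕ) (hp : p.length = k + 3) :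
    lu k q F (pt (k + 3) p) = (dot p (uv k q F) : ℝ) / (sm p : ℝ) := by
  unfold lu pt
  rw [dot_eq (k + 3) p _ hp, Nat.cast_sum, Finset.sum_div]
  refine Finset.sum_congr rfl fun i _ => ?_
  rw [Nat.cast_mul]
  ring

theorem lu_lin (k q F : ℕ) (p : Fin (k + 3) → ℝ) :
    lu k q F p = lin (fun i => (nthN (uv k q F) i.val : ℝ)) p := rfl

theorem geb_iff (k q F : ℕ) (p : List ℕ) (hp : p.length = k + 3) (h0 : 0 < sm p) :
    geb (uv k q F) p = true ↔ 1 / 2 ≤ lu k q F (pt (k + 3) p) := by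
  have e : geb (uv k q F) p = Nat.ble (sm p) (2 * dot p (uv k q F)) := rfl
  have h : (0 : ℝ) < (sm p : ℝ) := by exact_mod_cast h0
  rw [e, Nat.ble_eq, lu_pt k q F p hp, div_le_div_iff₀ (by norm_num) h, one_mul]
  constructor
  · intro h
    have : ((sm p : ℕ) : ℝ) ≤ ((2 * dot p (uv k q F) : ℕ) : ℝ) := by exact_mod_cast h
    push_cast at this
    linarith
  · intro h
    have : ((sm p : ℕ) : ℝ) ≤ ((2 * dot p (uv k q F) : ℕ) : ℝ) := by push_cast; linarith
    exact_mod_cast this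

theorem leb_iff (k q F : ℕ) (p : List ℕ) (hp : p.length = k + 3) (h0 : 0 < sm p) :
    leb (uv k q F) p = true ↔ lu k q F (pt (k + 3) p) ≤ 1 / 2 := by
  have e : leb (uv k q F) p = Nat.ble (2 * dot p (uv k q F)) (sm p) := rfl
  have h : (0 : ℝ) < (sm p : ℝ) := by exact_mod_cast h0
  rw [e, Nat.ble_eq, lu_pt k q F p hp, div_le_div_iff₀ h (by norm_num), one_mul]
  constructor
  · intro h
    have : ((2 * dot p (uv k q F) : ℕ) : ℝ) ≤ ((sm p : ℕ) : ℝ) := by exact_mod_cast h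
    push_cast at this
    linarith
  · intro h
    have : ((2 * dot p (uv k q F) : ℕ) : ℝ) ≤ ((sm p : ℕ) : ℝ) := by push_cast; linarith
    exact_mod_cast this

/-- On the simplex the form is at least one half if it is so at the vertices. -/
theorem lu_ge {k q F : ℕ} {S : List (List ℕ)} (hS : Sv k S) (h : allL (geb (uv k q F)) S = true)
    (y : Fin (k + 2) → ℝ) (h0 : ∀ i, 0 < y i) (h1 : ∑ i, y i < 1) :
    1 / 2 ≤ lu k q F (Chamber.bar (pts (k + 2) S) y) := by
  rw [lu_lin, lin_bar]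
  rw [allL_iff] at h
  calc (1 : ℝ) / 2 = ∑ o, wt y o * (1 / 2) := by rw [← Finset.sum_mul, wt_sum, one_mul]
    _ ≤ _ := by
      refine Finset.sum_le_sum fun o _ => mul_le_mul_of_nonneg_left ?_ (wt_pos y h0 h1 o).le
      obtain ⟨p, hp, e⟩ := pts_vertex hS o
      rw [e, ← lu_lin]
      exact (geb_iff k q F p (hS.2 p hp).1 (hS.2 p hp).2).1 (h p hp)

theorem lu_lt {k q F : ℕ} {S : List (List ℕ)} (hS : Sv k S) (h : allL (leb (uv k q F)) S = true)
    (h' : allL (geb (uv k q F)) S = false)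
    (y : Fin (k + 2) → ℝ) (h0 : ∀ i, 0 < y i) (h1 : ∑ i, y i < 1) :
    lu k q F (Chamber.bar (pts (k + 2) S) y) < 1 / 2 := by
  rw [lu_lin, lin_bar]
  rw [allL_iff] at h
  have h2 : ∃ p ∈ S, geb (uv k q F) p ≠ true := by
    by_contra hc
    push Not at hc
    rw [(allL_iff _ S).2 hc] at h'
    exact absurd h' (by simp)
  obtain ⟨p, hp, hlt⟩ := h2
  obtain ⟨o, ho⟩ := vertex_pts hS p hp
  have hle : ∀ o, lin (fun i => (nthN (uv k q F) i.val : ℝ)) (pts (k + 2) S o) ≤ 1 / 2 := by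
    intro o
    obtain ⟨p, hp, e⟩ := pts_vertex hS o
    rw [e, ← lu_lin]
    exact (leb_iff k q F p (hS.2 p hp).1 (hS.2 p hp).2).1 (h p hp)
  calc _ < ∑ o, wt y o * (1 / 2) := by
        refine Finset.sum_lt_sum
          (fun o _ => mul_le_mul_of_nonneg_left (hle o) (wt_pos y h0 h1 o).le)
          ⟨o, Finset.mem_univ o, mul_lt_mul_of_pos_left ?_ (wt_pos y h0 h1 o)⟩
        rw [ho, ← lu_lin]
        by_contra hc
        exact hlt ((geb_iff k q F p (hS.2 p hp).1 (hS.2 p hp).2).2 (not_lt.1 hc))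
    _ = 1 / 2 := by rw [← Finset.sum_mul, wt_sum, one_mul]

/-- Setting one bit. -/
theorem bit_set (m e e' : ℕ) (h : m / 2 ^ e % 2 = 0) :
    (m + 2 ^ e) / 2 ^ e' % 2 = if e' = e then 1 else m / 2 ^ e' % 2 := by
  rcases lt_trichotomy e' e with he | he | he
  · rw [if_neg he.ne]
    obtain ⟨t, rfl⟩ := Nat.exists_eq_add_of_lt he
    have e1 : (2 : ℕ) ^ (e' + t + 1) = 2 * 2 ^ t * 2 ^ e' := by ring
    rw [e1, Nat.add_mul_div_right _ _ (by positivity)]
    omega
  · subst he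
    rw [if_pos rfl, Nat.add_div_right _ (by positivity)]
    omega
  · rw [if_neg he.ne']
    obtain ⟨t, rfl⟩ := Nat.exists_eq_add_of_lt he
    have e1 : (2 : ℕ) ^ (e + t + 1) = 2 ^ e * 2 * 2 ^ t := by ring
    rw [e1, ← Nat.div_div_eq_div_mul, ← Nat.div_div_eq_div_mul, ← Nat.div_div_eq_div_mul (m := m),
      ← Nat.div_div_eq_div_mul m, Nat.add_div_right _ (by positivity)]
    have : (m / 2 ^ e).succ / 2 = m / 2 ^ e / 2 := by omega
    rw [this]

theorem idx_inj {k q q' F F' : ℕ} (hF : F < 2 ^ k) (hF' : F' < 2 ^ k)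
    (h : q' * 2 ^ k + F' = q * 2 ^ k + F) : q' = q ∧ F' = F := by
  have h1 : (q' * 2 ^ k + F') / 2 ^ k = q' := by
    rw [add_comm, Nat.add_mul_div_right _ _ (by positivity), Nat.div_eq_of_lt hF', zero_add]
  have h2 : (q * 2 ^ k + F) / 2 ^ k = q := by
    rw [add_comm, Nat.add_mul_div_right _ _ (by positivity), Nat.div_eq_of_lt hF, zero_add]
  have h3 : q' = q := by rw [← h1, ← h2, h]
  subst h3
  exact ⟨rfl, by omega⟩

open Classical in
/-- The sum after one decision. -/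
theorem sum_set {k m q F : ℕ} (hq : q < 3) (hF : F < 2 ^ k)
    (hm : m / 2 ^ (q * 2 ^ k + F) % 2 = 0) (P : ℕ → ℕ → Prop) (f : ℕ → ℕ → ℝ) :
    (∑ q' ∈ Finset.range 3, ∑ F' ∈ Finset.range (2 ^ k),
      if (m + 2 ^ (q * 2 ^ k + F)) / 2 ^ (q' * 2 ^ k + F') % 2 = 1 ∧ P q' F' then f q' F' else 0) =
    (∑ q' ∈ Finset.range 3, ∑ F' ∈ Finset.range (2 ^ k),
      if m / 2 ^ (q' * 2 ^ k + F') % 2 = 1 ∧ P q' F' then f q' F' else 0) +
      if P q F then f q F else 0 := by
  have key : ∀ q' ∈ Finset.range 3, ∀ F' ∈ Finset.range (2 ^ k),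
      (if (m + 2 ^ (q * 2 ^ k + F)) / 2 ^ (q' * 2 ^ k + F') % 2 = 1 ∧ P q' F' then f q' F' else 0) =
      (if m / 2 ^ (q' * 2 ^ k + F') % 2 = 1 ∧ P q' F' then f q' F' else 0) +
        if q' = q then (if F' = F then (if P q F then f q F else 0) else 0) else 0 := by
    intro q' _ F' hF'
    rw [Finset.mem_range] at hF'
    by_cases h : q' * 2 ^ k + F' = q * 2 ^ k + F
    · obtain ⟨rfl, rfl⟩ := idx_inj hF hF' h
      rw [bit_set _ _ _ hm, if_pos rfl, hm]
      simp
    · have h2 : ¬ (q' = q ∧ F' = F) := by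
        rintro ⟨rfl, rfl⟩
        exact h rfl
      rw [bit_set _ _ _ hm, if_neg h]
      by_cases h3 : q' = q
      · rw [if_pos h3, if_neg (fun h4 => h2 ⟨h3, h4⟩), add_zero]
      · rw [if_neg h3, add_zero]
  rw [Finset.sum_congr rfl fun q' hq' => Finset.sum_congr rfl fun F' hF' => key q' hq' F' hF']
  simp only [Finset.sum_add_distrib]
  congr 1
  rw [Finset.sum_eq_single q]
  · rw [Finset.sum_eq_single F]
    · simp
    · intro F' _ hne
      simp [hne]
    · intro h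
      exact absurd (Finset.mem_range.2 hF) h
  · intro q' _ hne
    simp [hne]
  · intro h
    exact absurd (Finset.mem_range.2 hq) h

end G3

open G3 GB in
theorem prfG3 : claimG3 := by
  classical
  intro k S m gf q F hS hI hq hF hm
  obtain ⟨hlen, hI⟩ := hI
  constructor
  · intro hall
    refine ⟨by rw [addf_length, uv_length], fun y h0 h1 => ?_⟩
    have hs := sum_set (k := k) hq hF hm
      (fun q' F' => 1 / 2 ≤ lu k q' F' (Chamber.bar (pts (k + 2) S) y))
      (fun q' F' => (wtf k F' : ℝ) * (7 - 6 * lu k q' F' (Chamber.bar (pts (k + 2) S) y)))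
    rw [hs, hI y h0 h1, if_pos (lu_ge hS hall y h0 h1)]
    have e : ∀ i : Fin (k + 3), (nthN (addf (wtf k F) (uv k q F) gf) i.val : ℝ) =
        nthN gf i.val + wtf k F * (7 - 6 * (nthN (uv k q F) i.val : ℝ)) := by
      intro i
      rw [addf_nth _ _ _ _ (by rw [uv_length]; exact i.2)]
      have := uv_le k q F i.val
      push_cast [Nat.cast_sub (by omega : 6 * nthN (uv k q F) i.val ≤ 7)]
      ring
    simp only [e]
    have hsum := sum_bar hS y
    have e2 : ∀ i : Fin (k + 3), ((nthN gf i.val : ℝ) +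
        wtf k F * (7 - 6 * (nthN (uv k q F) i.val : ℝ))) * Chamber.bar (pts (k + 2) S) y i =
        (nthN gf i.val : ℝ) * Chamber.bar (pts (k + 2) S) y i +
        (wtf k F * 7 * Chamber.bar (pts (k + 2) S) y i -
          wtf k F * 6 * ((nthN (uv k q F) i.val : ℝ) * Chamber.bar (pts (k + 2) S) y i)) := by
      intro i; ring
    simp only [e2, Finset.sum_add_distrib, Finset.sum_sub_distrib, ← Finset.mul_sum, hsum]
    unfold lu
    ring
  · intro hall hall'
    refine ⟨hlen, fun y h0 h1 => ?_⟩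
    have hs := sum_set (k := k) hq hF hm
      (fun q' F' => 1 / 2 ≤ lu k q' F' (Chamber.bar (pts (k + 2) S) y))
      (fun q' F' => (wtf k F' : ℝ) * (7 - 6 * lu k q' F' (Chamber.bar (pts (k + 2) S) y)))
    rw [hs, hI y h0 h1, if_neg (not_le.2 (lu_lt hS hall hall' y h0 h1)), add_zero]

end Pool.Agent.Work.MP_122e00_nt.Sharp.Cx

end

section

set_option autoImplicit false

/-!
# The certificate: the densities
-/

namespace Pool.Agent.Work.MP_122e00_nt.Sharp.Cx

open Finset MeasureTheory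

open scoped ENNReal

open Gen

noncomputable section

/-- The weights of a class. -/
theorem dlink (k D : ℕ) (c : Cl) (L Z M : ℝ) (ρ : ℕ → ℝ) (hD : c.D = D)
    (h1 : ∀ a, a ≤ D → (nthN c.fx a : ℝ) = L / ((a : ℝ) + 1))
    (h2 : ∀ a, a ≤ D → (nthN c.fz a : ℝ) = ρ a * Z)
    (h3 : (c.cn : ℝ) / (c.cd : ℝ) * (L ^ k * Z) = M) (p : Fin (k + 1 + 3) → ℝ) :
    dpoly (k + 1) c p = M * ∑ β ∈ Finset.Nat.antidiagonalTuple (k + 1 + 1) D,
      if sm c.us = 0 ∧ β (Fin.last (k + 1)) ≠ 0 then 0 else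
      (∏ i : Fin k, px p i.castSucc ^ β i.castSucc.castSucc /
        ((β i.castSucc.castSucc + 1).factorial : ℝ)) *
      (ρ (β (Fin.last k).castSucc) * px p (Fin.last k) ^ β (Fin.last k).castSucc /
        ((β (Fin.last k).castSucc).factorial : ℝ)) *
      ((∑ q : Fin 3, (nthN c.us q.val : ℝ) * ph3 p q) ^ β (Fin.last (k + 1)) /
        ((β (Fin.last (k + 1))).factorial : ℝ)) := by
  unfold dpoly
  rw [hD, Finset.mul_sum, Finset.mul_sum]
  refine Finset.sum_congr rfl fun β hβ => ?_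
  have hle : ∀ j, β j ≤ D := by
    intro j
    rw [Finset.Nat.mem_antidiagonalTuple] at hβ
    rw [← hβ]
    exact Finset.single_le_sum (f := β) (fun i _ => Nat.zero_le _) (Finset.mem_univ j)
  unfold gw
  by_cases h0 : sm c.us = 0 ∧ β (Fin.last (k + 1)) ≠ 0
  · rw [if_pos h0, if_pos h0]
    simp
  rw [if_neg h0, if_neg h0]
  rw [Fin.prod_univ_castSucc (n := k + 1), Fin.prod_univ_castSucc (n := k)]
  rw [Nat.cast_mul, Nat.cast_prod, Fin.prod_univ_castSucc (n := k)]
  have e1 : ∀ i : Fin k, ((nthN (if (i.castSucc : Fin (k + 1)).val + 1 = k + 1 then c.fz else c.fx)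
      (β i.castSucc.castSucc) : ℕ) : ℝ) = L / ((β i.castSucc.castSucc : ℝ) + 1) := by
    intro i
    rw [if_neg (by simp only [Fin.val_castSucc]; have := i.isLt; omega)]
    exact h1 _ (hle _)
  have e2 : ((nthN (if ((Fin.last k : Fin (k + 1))).val + 1 = k + 1 then c.fz else c.fx)
      (β (Fin.last k).castSucc) : ℕ) : ℝ) = ρ (β (Fin.last k).castSucc) * Z := by
    rw [if_pos (by simp)]
    exact h2 _ (hle _)
  rw [e2, Finset.prod_congr rfl fun i _ => e1 i]
  have e3 : ∀ i : Fin k, vr (k + 1) c p i.castSucc.castSucc = px p i.castSucc := by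
    intro i
    unfold vr px
    rw [if_pos (show i.castSucc.castSucc.val < k + 1 by
      have := i.isLt
      show i.val < k + 1
      omega)]
    rfl
  have e4 : vr (k + 1) c p (Fin.last k).castSucc = px p (Fin.last k) := by
    unfold vr px
    rw [if_pos (show (Fin.last k).castSucc.val < k + 1 from Nat.lt_succ_self k)]
    rfl
  have e5 : vr (k + 1) c p (Fin.last (k + 1)) = ∑ q : Fin 3, (nthN c.us q.val : ℝ) * ph3 p q := by
    unfold vr ph3
    rw [if_neg (show ¬ (Fin.last (k + 1)).val < k + 1 from Nat.lt_irrefl _)]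
  rw [e4, e5]
  simp only [e3]
  have e6 : ∀ i : Fin k, (L / ((β i.castSucc.castSucc : ℝ) + 1)) *
      (px p i.castSucc ^ β i.castSucc.castSucc / ((β i.castSucc.castSucc).factorial : ℝ)) =
      L * (px p i.castSucc ^ β i.castSucc.castSucc /
        ((β i.castSucc.castSucc + 1).factorial : ℝ)) := by
    intro i
    rw [Nat.factorial_succ]
    push_cast
    have : ((β i.castSucc.castSucc : ℝ) + 1) ≠ 0 := by positivity
    have h4 : ((β i.castSucc.castSucc).factorial : ℝ) ≠ 0 := by positivity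
    field_simp
  have e7 : (∏ i : Fin k, L / ((β i.castSucc.castSucc : ℝ) + 1)) *
      (∏ i : Fin k, px p i.castSucc ^ β i.castSucc.castSucc /
        ((β i.castSucc.castSucc).factorial : ℝ)) =
      L ^ k * ∏ i : Fin k, px p i.castSucc ^ β i.castSucc.castSucc /
        ((β i.castSucc.castSucc + 1).factorial : ℝ) := by
    rw [← Finset.prod_mul_distrib, Finset.prod_congr rfl fun i _ => e6 i,
      Finset.prod_mul_distrib, Finset.prod_const, Finset.card_univ, Fintype.card_fin]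
  rw [← h3]
  linear_combination ((c.cn : ℝ) / (c.cd : ℝ) * Z * (ρ (β (Fin.last k).castSucc) *
    px p (Fin.last k) ^ β (Fin.last k).castSucc / ((β (Fin.last k).castSucc).factorial : ℝ)) *
    ((∑ q : Fin 3, (nthN c.us q.val : ℝ) * ph3 p q) ^ β (Fin.last (k + 1)) /
      ((β (Fin.last (k + 1))).factorial : ℝ))) * e7

/-! ### the moments of the Poisson model -/

theorem be_zero (b : ℕ) : be b 0 = 1 := by
  rw [be]

theorem be_succ (b t : ℕ) : be b (t + 1) = b * ∑ i ∈ Finset.range (t + 1),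
    (t.choose i : ℝ) * be b (t - i) / ((i : ℝ) + 1) := by
  rw [be]
  rw [Finset.sum_attach (Finset.range (t + 1)) fun i => (t.choose i : ℝ) * be b (t - i) / ((i : ℝ) + 1)]

theorem be_zero' (t : ℕ) : be 0 (t + 1) = 0 := by
  rw [be_succ]
  simp

theorem be1_1 : be 1 1 = 1 := by
  rw [be_succ]
  norm_num [Finset.sum_range_succ, be_zero, Nat.choose]

theorem be1_2 : be 1 2 = 3 / 2 := by
  rw [be_succ]
  norm_num [Finset.sum_range_succ, be_zero, be1_1, Nat.choose]

theorem be1_3 : be 1 3 = 17 / 6 := by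
  rw [be_succ]
  norm_num [Finset.sum_range_succ, be_zero, be1_1, be1_2, Nat.choose]

theorem be1_4 : be 1 4 = 19 / 3 := by
  rw [be_succ]
  norm_num [Finset.sum_range_succ, be_zero, be1_1, be1_2, be1_3, Nat.choose]

theorem be1_5 : be 1 5 = 81 / 5 := by
  rw [be_succ]
  norm_num [Finset.sum_range_succ, be_zero, be1_1, be1_2, be1_3, be1_4, Nat.choose]

theorem be1_6 : be 1 6 = 8351 / 180 := by
  rw [be_succ]
  norm_num [Finset.sum_range_succ, be_zero, be1_1, be1_2, be1_3, be1_4, be1_5, Nat.choose]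

theorem be1_7 : be 1 7 = 184553 / 1260 := by
  rw [be_succ]
  norm_num [Finset.sum_range_succ, be_zero, be1_1, be1_2, be1_3, be1_4, be1_5, be1_6, Nat.choose]

theorem be2_1 : be 2 1 = 2 := by
  rw [be_succ]
  norm_num [Finset.sum_range_succ, be_zero, Nat.choose]

theorem be2_2 : be 2 2 = 5 := by
  rw [be_succ]
  norm_num [Finset.sum_range_succ, be_zero, be2_1, Nat.choose]

theorem be2_3 : be 2 3 = 44 / 3 := by
  rw [be_succ]
  norm_num [Finset.sum_range_succ, be_zero, be2_1, be2_2, Nat.choose]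

theorem be2_4 : be 2 4 = 293 / 6 := by
  rw [be_succ]
  norm_num [Finset.sum_range_succ, be_zero, be2_1, be2_2, be2_3, Nat.choose]

theorem be2_5 : be 2 5 = 2711 / 15 := by
  rw [be_succ]
  norm_num [Finset.sum_range_succ, be_zero, be2_1, be2_2, be2_3, be2_4, Nat.choose]

theorem be2_6 : be 2 6 = 65947 / 90 := by
  rw [be_succ]
  norm_num [Finset.sum_range_succ, be_zero, be2_1, be2_2, be2_3, be2_4, be2_5, Nat.choose]

theorem be2_7 : be 2 7 = 202808 / 63 := by
  rw [be_succ]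
  norm_num [Finset.sum_range_succ, be_zero, be2_1, be2_2, be2_3, be2_4, be2_5, be2_6, Nat.choose]

theorem be3_1 : be 3 1 = 3 := by
  rw [be_succ]
  norm_num [Finset.sum_range_succ, be_zero, Nat.choose]

theorem be3_2 : be 3 2 = 21 / 2 := by
  rw [be_succ]
  norm_num [Finset.sum_range_succ, be_zero, be3_1, Nat.choose]

theorem be3_3 : be 3 3 = 83 / 2 := by
  rw [be_succ]
  norm_num [Finset.sum_range_succ, be_zero, be3_1, be3_2, Nat.choose]

theorem be3_4 : be 3 4 = 363 / 2 := by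
  rw [be_succ]
  norm_num [Finset.sum_range_succ, be_zero, be3_1, be3_2, be3_3, Nat.choose]

theorem be3_5 : be 3 5 = 8661 / 10 := by
  rw [be_succ]
  norm_num [Finset.sum_range_succ, be_zero, be3_1, be3_2, be3_3, be3_4, Nat.choose]

theorem be3_6 : be 3 6 = 22314 / 5 := by
  rw [be_succ]
  norm_num [Finset.sum_range_succ, be_zero, be3_1, be3_2, be3_3, be3_4, be3_5, Nat.choose]

theorem be3_7 : be 3 7 = 862128 / 35 := by
  rw [be_succ]
  norm_num [Finset.sum_range_succ, be_zero, be3_1, be3_2, be3_3, be3_4, be3_5, be3_6, Nat.choose]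

theorem rh_eq (b a : ℕ) : rh b a = (a.factorial : ℝ) *
    ∑ j ∈ Finset.range (a + 1), be b j / ((j.factorial : ℝ) * ((a - j + 1).factorial : ℝ)) := rfl

theorem rh_be (b a : ℕ) : be b (a + 1) = b * rh b a := by
  rw [be_succ, rh_eq]
  congr 1
  rw [Finset.mul_sum, ← Finset.sum_range_reflect]
  refine Finset.sum_congr rfl fun j hj => ?_
  have hj' : j ≤ a := Nat.lt_succ_iff.1 (Finset.mem_range.1 hj)
  have e1 : a + 1 - 1 - j = a - j := by omega
  have e2 : a - (a - j) = j := by omega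
  rw [e1, e2, Nat.choose_symm hj', Nat.factorial_succ]
  have h := Nat.choose_mul_factorial_mul_factorial hj'
  have h' : (a.factorial : ℝ) = (a.choose j : ℝ) * (j.factorial : ℝ) * ((a - j).factorial : ℝ) := by
    exact_mod_cast h.symm
  rw [h']
  push_cast
  have h1 : (j.factorial : ℝ) ≠ 0 := by positivity
  have h2 : ((a - j).factorial : ℝ) ≠ 0 := by positivity
  have h3 : ((a - j : ℕ) : ℝ) + 1 ≠ 0 := by positivity
  field_simp

theorem rh0 (a : ℕ) : rh 0 a = 1 / ((a : ℝ) + 1) := by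
  rw [rh_eq, Finset.sum_range_succ', Finset.sum_eq_zero fun j _ => by rw [be_zero', zero_div]]
  rw [be_zero, Nat.sub_zero, Nat.factorial_succ]
  push_cast
  have h2 : (a.factorial : ℝ) ≠ 0 := by positivity
  have h3 : (a : ℝ) + 1 ≠ 0 := by positivity
  field_simp
  simp

theorem sum_last_zero (K D : ℕ) (f : (Fin (K + 1) → ℕ) → ℝ)
    (h : ∀ β, β (Fin.last K) ≠ 0 → f β = 0) :
    ∑ β ∈ Finset.Nat.antidiagonalTuple (K + 1) D, f β =
      ∑ α ∈ Finset.Nat.antidiagonalTuple K D, f (Fin.snoc (α := fun _ => ℕ) α 0) := by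
  symm
  refine Finset.sum_of_injOn (fun α => Fin.snoc (α := fun _ => ℕ) α 0) ?_ ?_ ?_ ?_
  · intro α _ α' _ he
    funext i
    have := congrFun he i.castSucc
    simpa using this
  · intro α hα
    have hα' : ∑ i, α i = D := by simpa [Finset.Nat.mem_antidiagonalTuple] using hα
    simp only [Finset.mem_coe, Finset.Nat.mem_antidiagonalTuple]
    rw [Fin.sum_univ_castSucc]
    simpa using hα'
  · intro β hβ hn
    by_contra hf
    apply hn
    have h0 : β (Fin.last K) = 0 := by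
      by_contra h1
      exact hf (h β h1)
    rw [Finset.Nat.mem_antidiagonalTuple, Fin.sum_univ_castSucc, h0, add_zero] at hβ
    refine ⟨fun i => β i.castSucc, ?_, ?_⟩
    · simpa [Finset.Nat.mem_antidiagonalTuple] using hβ
    · funext i
      refine Fin.lastCases ?_ (fun i => ?_) i
      · simp [h0]
      · simp
  · intro α _
    rfl

/-- No mark hidden. -/
theorem dlinkQ (hK1 : claimK1) (k D m : ℕ) (c : Cl) (L Z : ℝ) (hm : m = D + (k + 1)) (hD : c.D = D)
    (h1 : ∀ a, a ≤ D → (nthN c.fx a : ℝ) = L / ((a : ℝ) + 1))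
    (h2 : ∀ a, a ≤ D → (nthN c.fz a : ℝ) = 1 / ((a : ℝ) + 1) * Z)
    (h3 : (c.cn : ℝ) / (c.cd : ℝ) * (L ^ k * Z) = (m.factorial : ℝ)) (hs : c.us = [0, 0, 0])
    (p : Fin (k + 1 + 3) → ℝ) : dpoly (k + 1) c p = Qs (k + 1) m (px p) := by
  rw [dlink k D c L Z _ (fun a => 1 / ((a : ℝ) + 1)) hD h1 h2 h3, hK1 (k + 1) m (px p) (by omega)]
  congr 1
  have hs0 : sm c.us = 0 := by rw [hs]; rfl
  rw [sum_last_zero]
  · rw [show m - (k + 1) = D by omega]
    refine Finset.sum_congr rfl fun α _ => ?_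
    rw [if_neg (by simp)]
    rw [Fin.prod_univ_castSucc]
    simp only [Fin.snoc_castSucc, Fin.snoc_last, pow_zero, Nat.factorial_zero, Nat.cast_one,
      div_one, mul_one]
    congr 1
    rw [Nat.factorial_succ]
    push_cast
    have h2 : ((α (Fin.last k)).factorial : ℝ) ≠ 0 := by positivity
    have h3 : (α (Fin.last k) : ℝ) + 1 ≠ 0 := by positivity
    field_simp
  · intro β hβ
    rw [if_pos ⟨hs0, hβ⟩]

/-- Hidden marks. -/
theorem dlinkP (hK2 : claimK2) (k D m b : ℕ) (c : Cl) (L Z : ℝ) (hm : m = D + (k + 1))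
    (hD : c.D = D) (h1 : ∀ a, a ≤ D → (nthN c.fx a : ℝ) = L / ((a : ℝ) + 1))
    (h2 : ∀ a, a ≤ D → (nthN c.fz a : ℝ) = rh b a * Z)
    (h3 : (c.cn : ℝ) / (c.cd : ℝ) * (L ^ k * Z) = (m.factorial : ℝ))
    (hs : ∀ q : Fin 3, (nthN c.us q.val : ℝ) = if b ≤ q.val then 1 else 0)
    (hs0 : sm c.us = 0 → 3 ≤ b) (p : Fin (k + 1 + 3) → ℝ) : dpoly (k + 1) c p = Pb m b p := by
  rw [dlink k D c L Z _ (rh b) hD h1 h2 h3, hK2 k m b p (by omega)]
  congr 1
  rw [show m - (k + 1) = D by omega]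
  have e1 : (∑ q : Fin 3, (nthN c.us q.val : ℝ) * ph3 p q) =
      ∑ q : Fin 3, if b ≤ q.val then ph3 p q else 0 := by
    refine Finset.sum_congr rfl fun q _ => ?_
    rw [hs q]
    split_ifs <;> simp
  rw [e1]
  refine Finset.sum_congr rfl fun β _ => ?_
  by_cases h0 : sm c.us = 0 ∧ β (Fin.last (k + 1)) ≠ 0
  · rw [if_pos h0]
    have hb := hs0 h0.1
    have e2 : (∑ q : Fin 3, if b ≤ q.val then ph3 p q else 0) = 0 := by
      refine Finset.sum_eq_zero fun q _ => ?_
      rw [if_neg (by have := q.isLt; omega)]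
    rw [e2, zero_pow h0.2]
    simp
  · rw [if_neg h0]

theorem lk1 (hK1 : claimK1) (p : Fin (0 + 1 + 3) → ℝ) : dpoly 1 cl1 p = Qs 1 10 (px (k := 1) p) := by
  refine dlinkQ hK1 0 9 10 cl1 2520 2520 (by norm_num) rfl ?_ ?_ ?_ rfl p
  · intro a ha
    interval_cases a <;> norm_num [show nthN cl1.fx 0 = 2520 from rfl, show nthN cl1.fx 1 = 1260 from rfl, show nthN cl1.fx 2 = 840 from rfl, show nthN cl1.fx 3 = 630 from rfl, show nthN cl1.fx 4 = 504 from rfl, show nthN cl1.fx 5 = 420 from rfl, show nthN cl1.fx 6 = 360 from rfl, show nthN cl1.fx 7 = 315 from rfl, show nthN cl1.fx 8 = 280 from rfl, show nthN cl1.fx 9 = 252 from rfl]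
  · intro a ha
    interval_cases a <;> norm_num [show nthN cl1.fz 0 = 2520 from rfl, show nthN cl1.fz 1 = 1260 from rfl, show nthN cl1.fz 2 = 840 from rfl, show nthN cl1.fz 3 = 630 from rfl, show nthN cl1.fz 4 = 504 from rfl, show nthN cl1.fz 5 = 420 from rfl, show nthN cl1.fz 6 = 360 from rfl, show nthN cl1.fz 7 = 315 from rfl, show nthN cl1.fz 8 = 280 from rfl, show nthN cl1.fz 9 = 252 from rfl]
  · norm_num [cl1, Nat.factorial]

theorem lk2 (hK1 : claimK1) (p : Fin (1 + 1 + 3) → ℝ) : dpoly 2 cl2 p = Qs 2 10 (px (k := 2) p) := by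
  refine dlinkQ hK1 1 8 10 cl2 2520 2520 (by norm_num) rfl ?_ ?_ ?_ rfl p
  · intro a ha
    interval_cases a <;> norm_num [show nthN cl2.fx 0 = 2520 from rfl, show nthN cl2.fx 1 = 1260 from rfl, show nthN cl2.fx 2 = 840 from rfl, show nthN cl2.fx 3 = 630 from rfl, show nthN cl2.fx 4 = 504 from rfl, show nthN cl2.fx 5 = 420 from rfl, show nthN cl2.fx 6 = 360 from rfl, show nthN cl2.fx 7 = 315 from rfl, show nthN cl2.fx 8 = 280 from rfl]
  · intro a ha
    interval_cases a <;> norm_num [show nthN cl2.fz 0 = 2520 from rfl, show nthN cl2.fz 1 = 1260 from rfl, show nthN cl2.fz 2 = 840 from rfl, show nthN cl2.fz 3 = 630 from rfl, show nthN cl2.fz 4 = 504 from rfl, show nthN cl2.fz 5 = 420 from rfl, show nthN cl2.fz 6 = 360 from rfl, show nthN cl2.fz 7 = 315 from rfl, show nthN cl2.fz 8 = 280 from rfl]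
  · norm_num [cl2, Nat.factorial]

theorem lk3 (hK1 : claimK1) (p : Fin (2 + 1 + 3) → ℝ) : dpoly 3 cl3 p = Qs 3 10 (px (k := 3) p) := by
  refine dlinkQ hK1 2 7 10 cl3 840 840 (by norm_num) rfl ?_ ?_ ?_ rfl p
  · intro a ha
    interval_cases a <;> norm_num [show nthN cl3.fx 0 = 840 from rfl, show nthN cl3.fx 1 = 420 from rfl, show nthN cl3.fx 2 = 280 from rfl, show nthN cl3.fx 3 = 210 from rfl, show nthN cl3.fx 4 = 168 from rfl, show nthN cl3.fx 5 = 140 from rfl, show nthN cl3.fx 6 = 120 from rfl, show nthN cl3.fx 7 = 105 from rfl]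
  · intro a ha
    interval_cases a <;> norm_num [show nthN cl3.fz 0 = 840 from rfl, show nthN cl3.fz 1 = 420 from rfl, show nthN cl3.fz 2 = 280 from rfl, show nthN cl3.fz 3 = 210 from rfl, show nthN cl3.fz 4 = 168 from rfl, show nthN cl3.fz 5 = 140 from rfl, show nthN cl3.fz 6 = 120 from rfl, show nthN cl3.fz 7 = 105 from rfl]
  · norm_num [cl3, Nat.factorial]

theorem lk40 (hK2 : claimK2) (p : Fin (3 + 1 + 3) → ℝ) : dpoly 4 cl40 p = Pb (k := 3) 10 0 p := by
  refine dlinkP hK2 3 6 10 0 cl40 420 420 (by norm_num) rfl ?_ ?_ ?_ ?_ ?_ p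
  · intro a ha
    interval_cases a <;> norm_num [show nthN cl40.fx 0 = 420 from rfl, show nthN cl40.fx 1 = 210 from rfl, show nthN cl40.fx 2 = 140 from rfl, show nthN cl40.fx 3 = 105 from rfl, show nthN cl40.fx 4 = 84 from rfl, show nthN cl40.fx 5 = 70 from rfl, show nthN cl40.fx 6 = 60 from rfl]
  · intro a ha
    interval_cases a <;> norm_num [show nthN cl40.fz 0 = 420 from rfl, show nthN cl40.fz 1 = 210 from rfl, show nthN cl40.fz 2 = 140 from rfl, show nthN cl40.fz 3 = 105 from rfl, show nthN cl40.fz 4 = 84 from rfl, show nthN cl40.fz 5 = 70 from rfl, show nthN cl40.fz 6 = 60 from rfl, rh0]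
  · norm_num [cl40, Nat.factorial]
  · intro q
    fin_cases q <;> simp [cl40, nthN, hd, tl]
  · intro h
    exact absurd h (by decide)

theorem lk41 (hK2 : claimK2) (p : Fin (3 + 1 + 3) → ℝ) : dpoly 4 cl41 p = Pb (k := 3) 10 1 p := by
  refine dlinkP hK2 3 6 10 1 cl41 420 1260 (by norm_num) rfl ?_ ?_ ?_ ?_ ?_ p
  · intro a ha
    interval_cases a <;> norm_num [show nthN cl41.fx 0 = 420 from rfl, show nthN cl41.fx 1 = 210 from rfl, show nthN cl41.fx 2 = 140 from rfl, show nthN cl41.fx 3 = 105 from rfl, show nthN cl41.fx 4 = 84 from rfl, show nthN cl41.fx 5 = 70 from rfl, show nthN cl41.fx 6 = 60 from rfl]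
  · intro a ha
    have h := rh_be 1 a
    interval_cases a <;> norm_num [show nthN cl41.fz 0 = 1260 from rfl, show nthN cl41.fz 1 = 1890 from rfl, show nthN cl41.fz 2 = 3570 from rfl, show nthN cl41.fz 3 = 7980 from rfl, show nthN cl41.fz 4 = 20412 from rfl, show nthN cl41.fz 5 = 58457 from rfl, show nthN cl41.fz 6 = 184553 from rfl, be1_1, be1_2, be1_3, be1_4, be1_5, be1_6, be1_7] at h ⊢ <;> linarith
  · norm_num [cl41, Nat.factorial]
  · intro q
    fin_cases q <;> simp [cl41, nthN, hd, tl]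
  · intro h
    exact absurd h (by decide)

theorem lk42 (hK2 : claimK2) (p : Fin (3 + 1 + 3) → ℝ) : dpoly 4 cl42 p = Pb (k := 3) 10 2 p := by
  refine dlinkP hK2 3 6 10 2 cl42 420 1260 (by norm_num) rfl ?_ ?_ ?_ ?_ ?_ p
  · intro a ha
    interval_cases a <;> norm_num [show nthN cl42.fx 0 = 420 from rfl, show nthN cl42.fx 1 = 210 from rfl, show nthN cl42.fx 2 = 140 from rfl, show nthN cl42.fx 3 = 105 from rfl, show nthN cl42.fx 4 = 84 from rfl, show nthN cl42.fx 5 = 70 from rfl, show nthN cl42.fx 6 = 60 from rfl]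
  · intro a ha
    have h := rh_be 2 a
    interval_cases a <;> norm_num [show nthN cl42.fz 0 = 1260 from rfl, show nthN cl42.fz 1 = 3150 from rfl, show nthN cl42.fz 2 = 9240 from rfl, show nthN cl42.fz 3 = 30765 from rfl, show nthN cl42.fz 4 = 113862 from rfl, show nthN cl42.fz 5 = 461629 from rfl, show nthN cl42.fz 6 = 2028080 from rfl, be2_1, be2_2, be2_3, be2_4, be2_5, be2_6, be2_7] at h ⊢ <;> linarith
  · norm_num [cl42, Nat.factorial]
  · intro q
    fin_cases q <;> simp [cl42, nthN, hd, tl]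
  · intro h
    exact absurd h (by decide)

theorem lk43 (hK2 : claimK2) (p : Fin (3 + 1 + 3) → ℝ) : dpoly 4 cl43 p = Pb (k := 3) 10 3 p := by
  refine dlinkP hK2 3 6 10 3 cl43 420 210 (by norm_num) rfl ?_ ?_ ?_ ?_ ?_ p
  · intro a ha
    interval_cases a <;> norm_num [show nthN cl43.fx 0 = 420 from rfl, show nthN cl43.fx 1 = 210 from rfl, show nthN cl43.fx 2 = 140 from rfl, show nthN cl43.fx 3 = 105 from rfl, show nthN cl43.fx 4 = 84 from rfl, show nthN cl43.fx 5 = 70 from rfl, show nthN cl43.fx 6 = 60 from rfl]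
  · intro a ha
    have h := rh_be 3 a
    interval_cases a <;> norm_num [show nthN cl43.fz 0 = 210 from rfl, show nthN cl43.fz 1 = 735 from rfl, show nthN cl43.fz 2 = 2905 from rfl, show nthN cl43.fz 3 = 12705 from rfl, show nthN cl43.fz 4 = 60627 from rfl, show nthN cl43.fz 5 = 312396 from rfl, show nthN cl43.fz 6 = 1724256 from rfl, be3_1, be3_2, be3_3, be3_4, be3_5, be3_6, be3_7] at h ⊢ <;> linarith
  · norm_num [cl43, Nat.factorial]
  · intro q
    fin_cases q <;> simp [cl43, nthN, hd, tl]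
  · intro _
    norm_num

end

end Pool.Agent.Work.MP_122e00_nt.Sharp.Cx

end

section

set_option autoImplicit false

/-!
# The two-sided theorem
-/

namespace Pool.Agent.Work.MP_122e00_nt.Gen

open Finset Filter Topology MeasureTheory

open scoped ArithmeticFunction.vonMangoldt ArithmeticFunction.zeta

open Two

namespace IAT2

lemma dv_nonneg (s n : ℕ) : (0 : ℝ) ≤ (((ζ : ArithmeticFunction ℕ) ^ (s + 1)) n : ℝ) :=
  Nat.cast_nonneg _

lemma DS_mono (s h lo hi : ℕ) : DS s h lo hi ≤ DS s h 0 hi := by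
  unfold DS
  refine Finset.sum_le_sum_of_subset_of_nonneg ?_ ?_
  · intro n hn
    rw [Finset.mem_Ioc] at hn ⊢
    exact ⟨by omega, hn.2⟩
  · intro n _ _
    exact mul_nonneg (dv_nonneg s n) (dv_nonneg s (n + h))

lemma DS_nonneg (s h lo hi : ℕ) : 0 ≤ DS s h lo hi :=
  Finset.sum_nonneg fun n _ => mul_nonneg (dv_nonneg s n) (dv_nonneg s (n + h))

lemma sqrt_small (s : ℕ) (δ : ℝ) (hδ : 0 < δ) :
    ∀ᶠ X : ℝ in atTop, X ^ (1 / 2 : ℝ) ≤ δ / 2 * (X * (Real.log X) ^ (2 * s)) := by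
  filter_upwards [eventually_ge_atTop (1 : ℝ), eventually_ge_atTop (Real.exp 1),
    eventually_ge_atTop ((2 / δ) ^ 2)] with X hX1 hXe hXd
  have hX0 : 0 < X := by linarith
  have hL : 1 ≤ Real.log X := by
    rw [← Real.log_exp 1]
    exact Real.log_le_log (Real.exp_pos _) hXe
  have hL2 : (1 : ℝ) ≤ (Real.log X) ^ (2 * s) := one_le_pow₀ hL
  have h5 : X ^ (1 / 2 : ℝ) * X ^ (1 / 2 : ℝ) = X := by
    rw [← Real.rpow_add hX0]
    norm_num
  have h6 : 2 / δ ≤ X ^ (1 / 2 : ℝ) := by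
    rw [← Real.sqrt_eq_rpow]
    apply Real.le_sqrt_of_sq_le
    exact hXd
  have h7 : 0 < X ^ (1 / 2 : ℝ) := Real.rpow_pos_of_pos hX0 _
  have h8 : X ^ (1 / 2 : ℝ) ≤ δ / 2 * X := by
    rw [div_le_iff₀ hδ] at h6
    nlinarith
  have h9 : δ / 2 * X ≤ δ / 2 * (X * (Real.log X) ^ (2 * s)) := by
    apply mul_le_mul_of_nonneg_left _ (by positivity)
    nlinarith
  exact h8.trans h9

end IAT2

open IAT2 in
theorem prfAT2 (n1 : claimN1) (n2 : claimN2) (n3 : claimN3) (h4 : claimG4) : claimAT2 := by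
  intro s h θ ψ hs hh h0 h1 hW H I b hI hDom hMean hb
  have hC : 0 < Csing s h := Csing_pos hs h hh
  set A : ℝ := ∫ y in O1 s, ψ y with hA
  set C : ℝ := Csing s h with hCdef
  have hs0 : (0 : ℝ) < (s : ℝ) + 1 := by positivity
  -- the main estimate
  have main : ∀ δ : ℝ, 0 < δ → ∀ᶠ X : ℝ in atTop,
      |DS s h ⌊X / Real.log X⌋₊ ⌊X⌋₊ - C * (2 * b / (s.factorial : ℝ) - b ^ 2) *
        (X * (Real.log X) ^ (2 * s))| ≤ (C * b * I + δ) * (X * (Real.log X) ^ (2 * s)) := by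
    intro δ hδ
    have hδ' : 0 < δ / (8 * ((s : ℝ) + 1)) := by positivity
    filter_upwards [n3 s h θ ψ hs hh h0 h1 hW H hDom,
      (n1 s h θ ψ hs hh h0 h1 hW).1 _ hδ', (n1 s h θ ψ hs hh h0 h1 hW).2 _ hδ',
      (n2 s h θ ψ hs hh h0 h1 hW).1 _ hδ', (n2 s h θ ψ hs hh h0 h1 hW).2 _ hδ',
      hMean _ hδ', sqrt_small s δ hδ] with X hG a1 a2 b1 b2 hM hsq
    have za : (-(h : ℤ)).natAbs = h := by simp
    have zb : (h : ℤ).natAbs = h := by simp
    have a1m := a1 _ za
    have a1p := a1 _ zb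
    have a2m := a2 _ za
    have a2p := a2 _ zb
    have b1m := b1 _ za
    have b2m := b2 _ za
    have hMm := hM _ za
    have hMp := hM _ zb
    simp only [mul_neg, Finset.sum_neg_distrib] at a2m a2p b2m
    rw [← hA] at a1m a1p a2m a2p b1m b2m hMm hMp
    rw [← hb] at b1m b2m
    set T : ℝ := X * (Real.log X) ^ (2 * s) with hT
    set S1 := ∑ n ∈ Finset.Ioc ⌊X / Real.log X⌋₊ ⌊X⌋₊, Apsi ψ X (-h) n * dv s n with hS1
    set S2 := ∑ n ∈ Finset.Ioc ⌊X / Real.log X⌋₊ ⌊X⌋₊, Apsi ψ X h n * dv s n with hS2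
    set S3 := ∑ n ∈ Finset.Ioc ⌊X / Real.log X⌋₊ ⌊X⌋₊,
      Apsi ψ X (-h) n * Wn s ψ (Real.log X) n with hS3
    set M1 := ∑ n ∈ Finset.Ioc ⌊X / Real.log X⌋₊ ⌊X⌋₊, Apsi ψ X (-h) n * H X n with hM1
    set M2 := ∑ n ∈ Finset.Ioc ⌊X / Real.log X⌋₊ ⌊X⌋₊, Apsi ψ X h n * H X n with hM2
    set D := δ / (8 * ((s : ℝ) + 1)) with hD
    have hD8 : ((s : ℝ) + 1) * D = δ / 8 := by
      rw [hD]
      field_simp
    have hbA : ((s : ℝ) + 1) * A = b := hb.symm
    set f : ℝ := 1 / (s.factorial : ℝ) with hf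
    have hff : 2 * b / (s.factorial : ℝ) = 2 * b * f := by
      rw [hf]
      ring
    rw [hff]
    -- the errors
    have e1 : (s + 1) * (S1 + S2 - S3) - C * (2 * b * f - b ^ 2) * T ≤ 3 * (δ / 8) * T := by
      have t1 : S1 + S2 - S3 ≤ (2 * (C * A * f) - C * A * b) * T + 3 * D * T := by
        linarith
      have t2 := mul_le_mul_of_nonneg_left t1 hs0.le
      have t3 : ((s : ℝ) + 1) * ((2 * (C * A * f) - C * A * b) * T + 3 * D * T) =
          C * (2 * (((s : ℝ) + 1) * A) * f - (((s : ℝ) + 1) * A) * b) * T +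
            3 * (((s : ℝ) + 1) * D) * T := by ring
      rw [t3, hbA, hD8] at t2
      linarith
    have e2 : -((s + 1) * (S1 + S2 - S3) - C * (2 * b * f - b ^ 2) * T) ≤ 3 * (δ / 8) * T := by
      have t1 : -(S1 + S2 - S3) ≤ -((2 * (C * A * f) - C * A * b) * T) + 3 * D * T := by
        linarith
      have t2 := mul_le_mul_of_nonneg_left t1 hs0.le
      have t3 : ((s : ℝ) + 1) * (-((2 * (C * A * f) - C * A * b) * T) + 3 * D * T) =
          -(C * (2 * (((s : ℝ) + 1) * A) * f - (((s : ℝ) + 1) * A) * b) * T) +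
            3 * (((s : ℝ) + 1) * D) * T := by ring
      rw [t3, hbA, hD8] at t2
      linarith
    have e3 : (s + 1) / 2 * (M1 + M2) ≤ (C * b * I + δ / 8) * T := by
      have t1 : M1 + M2 ≤ 2 * ((C * A * I + D) * T) := by linarith
      have t2 := mul_le_mul_of_nonneg_left t1 (show (0 : ℝ) ≤ ((s : ℝ) + 1) / 2 by positivity)
      have t3 : ((s : ℝ) + 1) / 2 * (2 * ((C * A * I + D) * T)) =
          (C * (((s : ℝ) + 1) * A) * I + ((s : ℝ) + 1) * D) * T := by ring
      rw [t3, hbA, hD8] at t2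
      exact t2
    have e4 := abs_le.1 hG
    have e5 : X ^ (1 / 2 : ℝ) ≤ δ / 2 * T := hsq
    rw [abs_le]
    constructor
    · linarith [e4.1]
    · linarith [e4.2]
  -- the sign of the upper bound
  have hTpos : ∀ᶠ X : ℝ in atTop, 0 < X * (Real.log X) ^ (2 * s) := by
    filter_upwards [eventually_gt_atTop (1 : ℝ)] with X hX
    have := Real.log_pos hX
    positivity
  have up : ∀ δ : ℝ, 0 < δ → ∀ᶠ X : ℝ in atTop, DS s h ⌊X / Real.log X⌋₊ ⌊X⌋₊ ≤
      (C * (2 * b / (s.factorial : ℝ) - b ^ 2) + C * b * I + δ) *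
        (X * (Real.log X) ^ (2 * s)) := by
    intro δ hδ
    filter_upwards [main δ hδ] with X hX
    have := (abs_le.1 hX).2
    linarith
  have hE : 0 ≤ C * (2 * b / (s.factorial : ℝ) - b ^ 2) + C * b * I := by
    by_contra hneg
    push Not at hneg
    set E := C * (2 * b / (s.factorial : ℝ) - b ^ 2) + C * b * I with hEdef
    obtain ⟨X, hX1, hX2⟩ := ((up (-E / 2) (by linarith)).and hTpos).exists
    have h3 := DS_nonneg s h ⌊X / Real.log X⌋₊ ⌊X⌋₊
    have h5 : (E + -E / 2) * (X * (Real.log X) ^ (2 * s)) < 0 :=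
      mul_neg_of_neg_of_pos (by linarith) hX2
    linarith
  intro δ hδ
  filter_upwards [main δ hδ, h4 s h _ hE up δ hδ] with X hX1 hX2
  have h5 := (abs_le.1 hX1).1
  have h6 := DS_mono s h ⌊X / Real.log X⌋₊ ⌊X⌋₊
  rw [abs_le]
  constructor
  · linarith
  · linarith

end Pool.Agent.Work.MP_122e00_nt.Gen

end

section

set_option autoImplicit false

/-!
# The sharp two-sided scheme: from the numerical value to the two-sided bound (`r = 3`)
-/

namespace Pool.Agent.Work.MP_122e00_nt.Sharp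

open Finset Filter Topology MeasureTheory

open scoped ENNReal ArithmeticFunction.vonMangoldt ArithmeticFunction.zeta

open Two Gen

namespace IFin

/-- Three times the integral of the weight. -/
noncomputable def bth (θ : ℝ) : ℝ :=
  3 * (4 / 9 * ((1 / 2 - θ) ^ 2 / 2) + 8 / 3 * (2 * (1 / 2 - θ) ^ 3 / 6))

theorem bth_zero : bth 0 = 1 / 2 := by
  unfold bth
  norm_num

theorem continuous_bth : Continuous bth := by
  unfold bth
  fun_prop

theorem bth_eq (hF3 : claimF3) {θ : ℝ} (h0 : 0 < θ) (h1 : θ < 1 / 2) :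
    bth θ = ((2 : ℕ) + 1) * ∫ y in O1 2, psw (4 / 9) (8 / 3) 2 θ y := by
  rw [(hF3 2 (4 / 9) (8 / 3) θ (by norm_num) (by norm_num) (by norm_num) h0 h1).2]
  unfold bth
  norm_num [Nat.factorial]

theorem psw_low {θ : ℝ} (y : Fin 2 → ℝ) (h : ∀ i, 0 ≤ y i) (hs : ∑ i, y i ≤ 1 / 2 - θ) :
    (4 / 9 : ℝ) ≤ psw (4 / 9) (8 / 3) 2 θ y := by
  unfold psw
  rw [Set.indicator_of_mem (show y ∈ {y : Fin 2 → ℝ | (∀ i, 0 ≤ y i) ∧ ∑ i, y i ≤ 1 / 2 - θ}
    from ⟨h, hs⟩)]
  have : 0 ≤ ∑ i, y i := Finset.sum_nonneg fun i _ => h i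
  linarith

theorem IK_nonneg (hF1 : claimF1) (m T k : ℕ) (R θ : ℝ) (hR : 1 ≤ R) (hθ : 0 ≤ θ) :
    0 ≤ IK 2 m T R (4 / 9) (8 / 3) θ k := by
  obtain ⟨B, hB⟩ := hF1 2 m T R (4 / 9) (8 / 3) (by norm_num) (by norm_num) hR
  unfold IK
  refine setIntegral_nonneg (II0.measurableSet_Sim k 2) fun y hy => ?_
  rw [II0.ext_eq]
  exact mul_nonneg (hB θ hθ k (xs y) (vs y)).1 (II0.den_nonneg y hy)

end IFin

/-- The two-sided bound for `r = 3`, from the numerical value of the functional. -/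
theorem final_of (hD6 : claimD6) (hF1 : claimF1) (hF3 : claimF3) (hN1 : claimN1) (hI0 : claimI0)
    (hAT2 : claimAT2) (hX0 : claimX0) (hE8 : claimE8) (hE11 : claimE11)
    (m T : ℕ) (R V : ℝ) (hm : 1 ≤ m) (hR : 2187 / 4 ≤ R)
    (hnum : ∑ k ∈ Finset.range (m + 1), IK 2 m T R (4 / 9) (8 / 3) 0 k ≤ V)
    (h : ℕ) (hh : h ≠ 0) (E : ℝ) (hE : 2 * V + 9 / 40000 < E) :
    ∀ᶠ X : ℝ in atTop, |DS 2 h 0 ⌊X⌋₊ - Csing 2 h / 4 * (X * (Real.log X) ^ (2 * 2))| ≤
      E * (Csing 2 h / 4) * (X * (Real.log X) ^ (2 * 2)) := by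
  have hC : 0 < Csing 2 h := Csing_pos (by norm_num) h hh
  set S : ℝ → ℝ := fun θ => ∑ k ∈ Finset.range (m + 1), IK 2 m T R (4 / 9) (8 / 3) θ k with hS
  -- the limit `θ → 0`
  have t1 : Tendsto S (𝓝[>] 0) (𝓝 (S 0)) := by
    refine tendsto_finsetSum _ fun k _ => ?_
    exact hI0 2 m T k R (4 / 9) (8 / 3) (by norm_num) (by norm_num) (by norm_num) (by linarith)
  have t2 : Tendsto IFin.bth (𝓝[>] 0) (𝓝 (1 / 2)) := by
    rw [← IFin.bth_zero]
    exact IFin.continuous_bth.continuousAt.tendsto.mono_left nhdsWithin_le_nhds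
  have tid : Tendsto (fun θ : ℝ => θ) (𝓝[>] 0) (𝓝 0) := nhdsWithin_le_nhds
  have t3 : Tendsto (fun θ : ℝ => |IFin.bth θ - IFin.bth θ ^ 2 - 1 / 4| +
      IFin.bth θ * (|S θ| * θ + S θ + 9 / 80000 + θ) + θ) (𝓝[>] 0)
      (𝓝 (|(1 / 2 : ℝ) - (1 / 2) ^ 2 - 1 / 4| +
        1 / 2 * (|S 0| * 0 + S 0 + 9 / 80000 + 0) + 0)) :=
    ((((t2.sub (t2.pow 2)).sub tendsto_const_nhds).abs).add
      (t2.mul ((((t1.abs.mul tid).add t1).add tendsto_const_nhds).add tid))).add tid
  have hlt : |(1 / 2 : ℝ) - (1 / 2) ^ 2 - 1 / 4| +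
      1 / 2 * (|S 0| * 0 + S 0 + 9 / 80000 + 0) + 0 < E / 4 := by
    have e0 : |(1 / 2 : ℝ) - (1 / 2) ^ 2 - 1 / 4| = 0 := by norm_num
    rw [e0]
    have : S 0 ≤ V := hnum
    linarith
  have ev1 := t3.eventually (Iio_mem_nhds hlt)
  have ev2 : ∀ᶠ θ : ℝ in 𝓝[>] 0, 0 < θ ∧ θ ≤ 1 / 1000 := by
    have h1 : ∀ᶠ θ in 𝓝[>] (0:ℝ), θ < 1 / 1000 :=
      (eventually_lt_nhds (by norm_num)).filter_mono nhdsWithin_le_nhds
    filter_upwards [self_mem_nhdsWithin, h1] with θ a1 a2
    exact ⟨a1, a2.le⟩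
  obtain ⟨θ, hθE, h0, h1⟩ := (ev1.and ev2).exists
  have h12 : θ < 1 / 2 := by linarith
  set ψ : (Fin 2 → ℝ) → ℝ := psw (4 / 9) (8 / 3) 2 θ with hψ
  have hW : Wt 2 θ ψ :=
    (hF3 2 (4 / 9) (8 / 3) θ (by norm_num) (by norm_num) (by norm_num) h0 h12).1
  set c : ℝ := ((2 : ℕ) - 1 : ℝ) / (2 * (2 : ℕ)) + 2 * θ with hc
  have hc0 : 0 < c := by rw [hc]; norm_num; linarith
  have hc1 : c ≤ 63 / 250 := by rw [hc]; norm_num; linarith
  -- the exceptional integers
  obtain ⟨HE, hHE, hHEd⟩ := hE8 2 h θ c (4 / 9) ψ (by norm_num) hh h0 (by linarith) hc hW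
    (by norm_num) (fun y a1 a2 => IFin.psw_low y a1 a2) 5 8 R (9 / 80000) (by norm_num)
    (by linarith) (by norm_num; linarith) (fun J => by
      refine (hE11 c hc0 hc1 J).trans (le_of_eq ?_)
      norm_num) θ h0
  -- the regular integers
  set HR : ℝ → ℕ → ℝ := fun X n => (1 + θ) * ∑ k ∈ Finset.range (m + 1),
    TS (Real.log X) 2 k n (FS m T R (gs ψ) k) with hHR
  have hMR : Mean 2 h ψ HR ((1 + θ) * S θ) :=
    (hX0 2 h θ ψ hW).2 (1 + θ) _ _ (by linarith)
      (hN1 2 m T h R (4 / 9) (8 / 3) θ (by norm_num) hh (by norm_num) (by norm_num)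
        (by linarith) h0 h12)
  have hM : Mean 2 h ψ (fun X n => HR X n + HE X n) ((1 + θ) * S θ + (9 / 80000 + θ)) :=
    prfM2 2 h ψ HR HE _ _ hMR hHE
  have hD6' := hD6 2 m T R (4 / 9) (8 / 3) θ θ (by norm_num) hm (by linarith) (by norm_num)
    (by norm_num) h0 h12 h0
  have hWnn : ∀ (L : ℝ) (n : ℕ), 0 < L → n ≠ 0 → 0 ≤ Wn 2 ψ L n := by
    intro L n hL hn
    refine prfT2 L 2 0 n hL hn _ fun x v _ _ _ => ?_
    exact Finset.sum_nonneg fun i _ => hW.nonneg _
  have hDom : Dom2 2 ψ (fun X n => HR X n + HE X n) := by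
    unfold Dom2
    filter_upwards [hD6', hHEd, eventually_gt_atTop (1 : ℝ)] with X a1 a2 a3 n n1 n2
    obtain ⟨b1, b2⟩ := a1 n n1 n2
    obtain ⟨b3, b4⟩ := a2 n n1 n2
    have hL : 0 < Real.log X := Real.log_pos a3
    have hn : n ≠ 0 := by
      rintro rfl
      have : 0 < X / Real.log X := by positivity
      simp at n1
      linarith
    have hWn := hWnn (Real.log X) n hL hn
    have hHR0 : 0 ≤ HR X n := mul_nonneg (by linarith) b1
    refine ⟨add_nonneg hHR0 b3, ?_⟩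
    rcases le_or_gt (dv 2 n) (R * Wn 2 ψ (Real.log X) n) with hle | hgt
    · refine ⟨0, by rw [abs_zero]; positivity, ?_⟩
      have := b2 hle
      calc (dv 2 n - Wn 2 ψ (Real.log X) n - 0) ^ 2
          = (dd 2 n - WW ψ (Real.log X) n) ^ 2 := by rw [sub_zero]; rfl
        _ ≤ HR X n * Wn 2 ψ (Real.log X) n := this
        _ ≤ (HR X n + HE X n) * Wn 2 ψ (Real.log X) n :=
            mul_le_mul_of_nonneg_right (by linarith) hWn
    · obtain ⟨l, hl, hl2⟩ := b4 hgt
      exact ⟨l, hl, hl2.trans (mul_le_mul_of_nonneg_right (by linarith) hWn)⟩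
  -- the two-sided theorem; the constant is made nonnegative
  set I : ℝ := |S θ| * θ + S θ + 9 / 80000 + θ with hI
  have hIle : (1 + θ) * S θ + (9 / 80000 + θ) ≤ I := by
    have := le_abs_self (S θ)
    rw [hI]
    nlinarith
  have hbeq := IFin.bth_eq hF3 h0 h12
  have hb0 : 0 ≤ IFin.bth θ := by
    unfold IFin.bth
    have : 0 ≤ 1 / 2 - θ := by linarith
    positivity
  have hψ0 : 0 ≤ ∫ y in O1 2, ψ y := integral_nonneg fun y => hW.nonneg y
  have hS0 : 0 ≤ S θ := Finset.sum_nonneg fun k _ => IFin.IK_nonneg hF1 m T k R θ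
    (by linarith) h0.le
  have hI0' : 0 ≤ I := by
    rw [hI]
    have := abs_nonneg (S θ)
    positivity
  have hM' : Mean 2 h ψ (fun X n => HR X n + HE X n) I := by
    intro δ hδ
    filter_upwards [hM δ hδ, eventually_ge_atTop (1 : ℝ)] with X a1 a2 z hz
    refine (a1 z hz).trans ?_
    refine mul_le_mul_of_nonneg_right ?_ ?_
    · have : Csing 2 h * (∫ y in O1 2, ψ y) * ((1 + θ) * S θ + (9 / 80000 + θ)) ≤
          Csing 2 h * (∫ y in O1 2, ψ y) * I :=
        mul_le_mul_of_nonneg_left hIle (mul_nonneg hC.le hψ0)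
      linarith
    · have := Real.log_nonneg a2
      positivity
  have hfin := hAT2 2 h θ ψ (by norm_num) hh h0 h12 hW _ I (IFin.bth θ) hI0' hDom
    hM' hbeq (Csing 2 h * θ) (mul_pos hC h0)
  filter_upwards [hfin, eventually_gt_atTop (1 : ℝ)] with X a1 a2
  set Q : ℝ := X * (Real.log X) ^ (2 * 2) with hQ
  have hQ0 : 0 ≤ Q := by
    have := Real.log_pos a2
    rw [hQ]
    positivity
  have e1 : (2 * IFin.bth θ / ((2 : ℕ).factorial : ℝ) - IFin.bth θ ^ 2) =
      IFin.bth θ - IFin.bth θ ^ 2 := by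
    rw [Nat.factorial_two]
    push_cast
    ring
  rw [e1] at a1
  have e2 : DS 2 h 0 ⌊X⌋₊ - Csing 2 h / 4 * Q = (DS 2 h 0 ⌊X⌋₊ -
      Csing 2 h * (IFin.bth θ - IFin.bth θ ^ 2) * Q) +
      Csing 2 h * (IFin.bth θ - IFin.bth θ ^ 2 - 1 / 4) * Q := by ring
  have e3 : |Csing 2 h * (IFin.bth θ - IFin.bth θ ^ 2 - 1 / 4) * Q| =
      Csing 2 h * |IFin.bth θ - IFin.bth θ ^ 2 - 1 / 4| * Q := by
    rw [abs_mul, abs_mul, abs_of_pos hC, abs_of_nonneg hQ0]
  rw [e2]
  refine (abs_add_le _ _).trans ?_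
  rw [e3]
  calc |DS 2 h 0 ⌊X⌋₊ - Csing 2 h * (IFin.bth θ - IFin.bth θ ^ 2) * Q| +
        Csing 2 h * |IFin.bth θ - IFin.bth θ ^ 2 - 1 / 4| * Q
      ≤ (Csing 2 h * IFin.bth θ * I + Csing 2 h * θ) * Q +
        Csing 2 h * |IFin.bth θ - IFin.bth θ ^ 2 - 1 / 4| * Q := by gcongr
    _ = Csing 2 h * (|IFin.bth θ - IFin.bth θ ^ 2 - 1 / 4| + IFin.bth θ * I + θ) * Q := by ring
    _ ≤ Csing 2 h * (E / 4) * Q := by
        refine mul_le_mul_of_nonneg_right (mul_le_mul_of_nonneg_left hθE.le hC.le) hQ0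
    _ = E * (Csing 2 h / 4) * Q := by ring

/-- The numerical value of the functional, from the certificate. -/
theorem num_of (hI1 : claimI1) (hI15 : claimI15) (hI16 : claimI16) (m T : ℕ) (R V : ℝ)
    (hm : 1 ≤ m) (hTm : T + 1 ≤ m + 1) (hR : 1 ≤ R) (hV : 0 ≤ V) (hF1 : claimF1)
    (hcert : ∑ k ∈ Finset.range T, Jk m (k + 1) R + JH m T R ≤ ENNReal.ofReal V) :
    ∑ k ∈ Finset.range (m + 1), IK 2 m (T + 1) R (4 / 9) (8 / 3) 0 k ≤ V := by
  rw [← ENNReal.ofReal_le_ofReal_iff hV, ENNReal.ofReal_sum_of_nonneg fun k _ =>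
    IFin.IK_nonneg hF1 m (T + 1) k R 0 hR le_rfl]
  refine le_trans ?_ hcert
  have h0 : ∀ k, ENNReal.ofReal (IK 2 m (T + 1) R (4 / 9) (8 / 3) 0 k) ≤
      IL 2 m (T + 1) R (g3 0) k := fun k =>
    hI1 2 m (T + 1) k R (4 / 9) (8 / 3) (by norm_num) (by norm_num) (by norm_num) hR
  refine (Finset.sum_le_sum fun k _ => h0 k).trans ?_
  have hz : IL 2 m (T + 1) R (g3 0) 0 = 0 := by
    unfold IL
    have : ∀ y : Fin 0 ⊕ Fin 2 → ℝ, ENNReal.ofReal (Qo 0 m (xs y) *
        HC (T + 1) R (g3 0) (xs y) (vs y)) = 0 := by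
      intro y
      have : Qo 0 m (xs y) = 0 := by
        unfold Qo
        rw [if_neg (by omega)]
      rw [this, zero_mul, ENNReal.ofReal_zero]
    simp only [this, lintegral_const, zero_mul]
  have hsplit : ∑ k ∈ Finset.range (m + 1), IL 2 m (T + 1) R (g3 0) k =
      ∑ k ∈ Finset.range (T + 1), IL 2 m (T + 1) R (g3 0) k +
        ∑ l ∈ Finset.range (m - T), IL 2 m (T + 1) R (g3 0) (T + 1 + l) := by
    have : m + 1 = (T + 1) + (m - T) := by omega
    rw [this, Finset.sum_range_add]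
  rw [hsplit]
  refine add_le_add ?_ (hI16 m T (m - T) R hR)
  rw [Finset.sum_range_succ', hz, add_zero]
  exact Finset.sum_le_sum fun k hk => hI15 m (T + 1) (k + 1) R
    (by have := Finset.mem_range.1 hk; omega) hR

end Pool.Agent.Work.MP_122e00_nt.Sharp

end
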