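import Pool.Agent.Work.MP_122e00_nt.Gen.Stmts2
import Pool.Agent.Work.MP_122e00_nt.Bd.B47
import Pool.Agent.Work.MP_122e00_nt.Bd.B45
import Pool.Agent.Work.MP_122e00_nt.Bd.B44
import Pool.Agent.Work.MP_122e00_nt.Bd.B40
import Pool.Agent.Work.MP_122e00_nt.Two.ItemT8
import Pool.Agent.Work.MP_122e00_nt.Sharp.Cert.Stmts

/-! Bundle of small proof modules (one section per former module). -/

section

set_option autoImplicit false

/-!
# Item E4: the mean of `d` over the integers with small large primes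
-/

namespace Pool.Agent.Work.MP_122e00_nt.Gen

open Finset Filter Topology MeasureTheory Two

namespace IE4

lemma aeS (k s : ℕ) (c : ℝ) (S : Finset (Fin k)) (hS : 0 < S.card) :
    ∀ᵐ y : Fin k ⊕ Fin s → ℝ, ∑ m ∈ S, y (Sum.inl m) ≠ c := by
  have h := IB7.ae_ne (∑ m ∈ S,
    (LinearMap.proj (Sum.inl m) : (Fin k ⊕ Fin s → ℝ) →ₗ[ℝ] ℝ))
    (fun i => Sum.elim (fun _ => 1) (fun _ => 0) i) ?_ c
  · filter_upwards [h] with y hy e
    apply hy
    rw [LinearMap.sum_apply]
    exact e
  · rw [LinearMap.sum_apply]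
    simp only [LinearMap.proj_apply, Sum.elim_inl, Finset.sum_const, nsmul_eq_mul, mul_one]
    exact_mod_cast hS.ne'

open Classical in
/-- The indicator of `Tj`. -/
noncomputable def FT' (s j k : ℕ) (c : ℝ) : (Fin k → ℝ) → (Fin (s + 1) → ℝ) → ℝ :=
  fun x _ => if Tj j c x then 1 else 0

lemma FT'_nonneg (s j k : ℕ) (c : ℝ) (x : Fin k → ℝ) (v : Fin (s + 1) → ℝ) :
    0 ≤ FT' s j k c x v := by
  unfold FT'
  split_ifs <;> norm_num

lemma FT'_abs (s j k : ℕ) (c : ℝ) (x : Fin k → ℝ) (v : Fin (s + 1) → ℝ) :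
    |FT' s j k c x v| ≤ 1 := by
  unfold FT'
  split_ifs <;> norm_num

lemma cont (s j k : ℕ) (c : ℝ) (hj : 1 ≤ j) :
    ∀ᵐ y ∂(volume.restrict (Sim k s)),
      ContinuousAt (ext (FT' s j k c)) (y, 1 - ∑ i, y i) := by
  classical
  have hS : ∀ S : Finset (Fin k), ∀ᵐ y : Fin k ⊕ Fin s → ℝ,
      S.card = j → ∑ m ∈ S, y (Sum.inl m) ≠ c := by
    intro S
    by_cases h : S.card = j
    · filter_upwards [aeS k s c S (by omega)] with y hy _ using hy
    · exact Eventually.of_forall fun y hh => absurd hh h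
  have hall := ae_all_iff.2 hS
  filter_upwards [ae_restrict_of_ae hall] with y hy
  have hev : ∀ S : Finset (Fin k), ∀ᶠ p : (Fin k ⊕ Fin s → ℝ) × ℝ in 𝓝 (y, 1 - ∑ i, y i),
      S.card = j → ((∑ m ∈ S, p.1 (Sum.inl m) < c) ↔ (∑ m ∈ S, y (Sum.inl m) < c)) := by
    intro S
    by_cases h : S.card = j
    · have hc : Continuous (fun p : (Fin k ⊕ Fin s → ℝ) × ℝ =>
        ∑ m ∈ S, p.1 (Sum.inl m)) := by fun_prop
      filter_upwards [IB7.ev_lt (f := fun p : (Fin k ⊕ Fin s → ℝ) × ℝ =>
        ∑ m ∈ S, p.1 (Sum.inl m)) (g := fun _ => c) (p0 := (y, 1 - ∑ i, y i))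
        hc.continuousAt continuousAt_const (hy S h)] with p hp _ using hp
    · exact Eventually.of_forall fun y hh => absurd hh h
  have hev' := eventually_all.2 hev
  have hk : ContinuousAt (fun _ : (Fin k ⊕ Fin s → ℝ) × ℝ =>
    (if Tj j c (fun i => y (Sum.inl i)) then (1 : ℝ) else 0)) (y, 1 - ∑ i, y i) :=
    continuousAt_const
  refine hk.congr ?_
  filter_upwards [hev'] with p hp
  have e : Tj j c (fun i => p.1 (Sum.inl i)) ↔ Tj j c (fun i => y (Sum.inl i)) := by
    unfold Tj
    exact ⟨fun h S hS => (hp S hS).1 (h S hS), fun h S hS => (hp S hS).2 (h S hS)⟩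
  show _ = FT' s j k c (fun i => p.1 (Sum.inl i)) (Fin.snoc (fun i => p.1 (Sum.inr i)) p.2)
  unfold FT'
  by_cases h : Tj j c (fun i => y (Sum.inl i))
  · rw [if_pos h, if_pos (e.2 h)]
  · rw [if_neg h, if_neg fun h' => h (e.1 h')]

end IE4

open IE4 in
theorem prfE4 (hX0 : claimX0) (hX1 : claimX1) (hX3 : claimX3) (hX4 : claimX4)
    (hE3 : claimE3) : claimE4 := by
  classical
  intro s h j k θ η c ψ hs hh hθ hθ2 hW hη hc hj
  -- the mean of the majorant
  have hM1 : Mean s h ψ (fun X n => ((s : ℝ) + 1) ^ k * TS (Real.log X) s k n (FT' s j k c))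
      (Vf s j k c) := by
    have := prfM1 s k h θ ψ hs hh hθ hθ2 hW (FT' s j k c) 1 (FT'_abs s j k c) (cont s j k c hj)
    exact (hX0 s h θ ψ hW).2 _ _ _ (by positivity) this
  have hM2 : ∀ m : ℕ, Mean s h ψ (fun X n =>
      ((s : ℝ) + 1) ^ k * TS (Real.log X) s k n (FT' s j k c) +
      ∑ i ∈ Finset.range m, ((s : ℝ) + 1) ^ i *
        TS (Real.log X) s i n (fun _ v => if ∑ i, v i = 0 then 1 else 0)) (Vf s j k c) := by
    intro m
    induction m with
    | zero => simpa using hM1
    | succ m ih =>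
      have h4 := (hX0 s h θ ψ hW).2 (((s : ℝ) + 1) ^ m) _ _ (by positivity)
        (hX4 s m h θ ψ hs hh hθ hθ2 hW)
      have := prfM2 s h ψ _ _ _ _ ih h4
      simp only [mul_zero, add_zero] at this
      simp only [Finset.sum_range_succ, ← add_assoc]
      exact this
  refine (hX0 s h θ ψ hW).1 _ _ _ (hM2 k) ?_
  filter_upwards [eventually_gt_atTop (1 : ℝ)] with X hX n hn1 hn2
  have hL : 0 < Real.log X := Real.log_pos hX
  have hn : n ≠ 0 := by
    rintro rfl
    have : 0 < X / Real.log X := by positivity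
    simp only [Nat.cast_zero] at hn1
    linarith
  have hpos : ∀ (k : ℕ) (F : (Fin k → ℝ) → (Fin (s + 1) → ℝ) → ℝ), (∀ x v, 0 ≤ F x v) →
      0 ≤ TS (Real.log X) s k n F :=
    fun k F hF => prfT2 (Real.log X) s k n hL hn F fun x v _ _ _ => hF x v
  have hsum : 0 ≤ ∑ i ∈ Finset.range k, ((s : ℝ) + 1) ^ i *
        TS (Real.log X) s i n (fun _ v => if ∑ i, v i = 0 then 1 else 0) := by
    refine Finset.sum_nonneg fun i _ => mul_nonneg (by positivity) (hpos _ _ fun x v => ?_)
    split_ifs <;> norm_num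
  split_ifs with hcond
  · obtain ⟨hB, hcard, hSm⟩ := hcond
    have h3 := hX3 (Real.log X) s k n hL hn
    rw [h3]
    gcongr
    refine hX1 (Real.log X) s k n _ _ hL hn ?_
    intro d hd hdn v _ _
    have hT := (hE3 (Real.log X) η c n k d hL hη hn hB hd hdn).1 j hcard hSm
    unfold FT'
    rw [if_pos hT]
  · have := hpos k (FT' s j k c) (FT'_nonneg s j k c)
    positivity

end Pool.Agent.Work.MP_122e00_nt.Gen

end

section

set_option autoImplicit false

/-!
# Item N1: the mean value of `d`, both directions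
-/

namespace Pool.Agent.Work.MP_122e00_nt.Gen

open Finset Filter Topology MeasureTheory

open scoped ArithmeticFunction.vonMangoldt ArithmeticFunction.zeta

open Two

namespace IN1

theorem mean_congr {s h : ℕ} {ψ : (Fin s → ℝ) → ℝ} {H₁ H₂ : ℝ → ℕ → ℝ} {I : ℝ}
    (hm : Mean s h ψ H₁ I)
    (he : ∀ᶠ X : ℝ in atTop, ∀ n : ℕ, n ≠ 0 → H₁ X n = H₂ X n) : Mean s h ψ H₂ I := by
  intro δ hδ
  filter_upwards [hm δ hδ, he] with X h1 h2 z hz
  refine le_trans (le_of_eq ?_) (h1 z hz)
  refine Finset.sum_congr rfl fun n hn => ?_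
  have : n ≠ 0 := by
    have := (Finset.mem_Ioc.mp hn).1
    omega
  rw [h2 n this]

end IN1

theorem prfN1 : claimN1 := by
  intro s h θ ψ hs hh h0 h1 hw
  obtain ⟨hi, hT⟩ := prfT8 0 s
  have e1 := prfM1 s 0 h θ ψ hs hh h0 h1 hw (fun _ _ => (1 : ℝ)) 1 (fun x v => by simp)
    (Filter.Eventually.of_forall fun y => continuousAt_const)
  have e2 := prfM1 s 0 h θ ψ hs hh h0 h1 hw (fun _ _ => (-1 : ℝ)) 1 (fun x v => by simp)
    (Filter.Eventually.of_forall fun y => continuousAt_const)
  have f1 : ∫ y in Sim 0 s, ext (k := 0) (s := s) (fun _ _ => (1 : ℝ)) (y, 1 - ∑ i, y i) * den y =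
      1 / (s.factorial : ℝ) := by
    simp only [Two.ext, one_mul]
    rw [hT]
    simp
  have f2 : ∫ y in Sim 0 s, ext (k := 0) (s := s) (fun _ _ => (-1 : ℝ)) (y, 1 - ∑ i, y i) * den y =
      -(1 / (s.factorial : ℝ)) := by
    have : ∀ y : Fin 0 ⊕ Fin s → ℝ, ext (k := 0) (s := s) (fun _ _ => (-1 : ℝ))
        (y, 1 - ∑ i, y i) * den y = - (den y) := fun y => by simp only [Two.ext]; ring
    simp_rw [this]
    rw [integral_neg, hT]
    simp
  rw [f1] at e1
  rw [f2] at e2
  refine ⟨IN1.mean_congr e1 ?_, IN1.mean_congr e2 ?_⟩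
  · filter_upwards with X n hn
    rw [prfB3.2 (Real.log X) s n hn]
    rfl
  · filter_upwards with X n hn
    have := (prfT1 (Real.log X) s 0 n (fun _ _ => (1 : ℝ)) (fun _ _ => (1 : ℝ)) (-1)).2
    simp only [mul_one] at this
    rw [this, prfB3.2 (Real.log X) s n hn]
    unfold dv
    ring

end Pool.Agent.Work.MP_122e00_nt.Gen

end

section

set_option autoImplicit false

/-!
# N2: the mean value of `W`, both directions
-/

namespace Pool.Agent.Work.MP_122e00_nt.Gen

open Finset Filter Topology MeasureTheory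

open scoped ArithmeticFunction.vonMangoldt ArithmeticFunction.zeta

open Two

namespace IN2

theorem gs_bdd {s : ℕ} {θ : ℝ} {ψ : (Fin s → ℝ) → ℝ} (hW : Wt s θ ψ) :
    ∃ B : ℝ, ∀ v : Fin (s + 1) → ℝ, |gs ψ v| ≤ B := by
  obtain ⟨B, hB⟩ := hW.bdd
  refine ⟨(s + 1 : ℕ) * B, fun v => ?_⟩
  unfold gs
  rw [abs_of_nonneg (Finset.sum_nonneg fun i _ => hW.nonneg _)]
  refine (Finset.sum_le_card_nsmul Finset.univ _ B fun i _ => hB _).trans (le_of_eq ?_)
  rw [Finset.card_univ, Fintype.card_fin, nsmul_eq_mul]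

end IN2

open IN2 in
theorem prfN2 : claimN0 → claimN2 := by
  intro hN0 s h θ ψ hs hh hθ hθ2 hW
  obtain ⟨B, hB⟩ := gs_bdd hW
  obtain ⟨hc, hi⟩ := hN0 s θ ψ hs hθ hθ2 hW
  have hneg : ext (k := 0) (s := s) (fun _ v => - gs ψ v) =
      fun p => - ext (k := 0) (s := s) (fun _ v => gs ψ v) p := rfl
  constructor
  · have h1 := prfM1 s 0 h θ ψ hs hh hθ hθ2 hW (fun _ v => gs ψ v) B (fun _ v => hB v) hc
    rw [hi] at h1
    exact h1
  · have h1 := prfM1 s 0 h θ ψ hs hh hθ hθ2 hW (fun _ v => - gs ψ v) B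
      (fun _ v => by rw [abs_neg]; exact hB v) (by
        rw [hneg]
        filter_upwards [hc] with y hy
        exact hy.neg)
    have h2 : ∫ y in Sim 0 s, ext (k := 0) (s := s) (fun _ v => - gs ψ v)
        (y, 1 - ∑ i, y i) * den y = - ((s + 1) * ∫ y in O1 s, ψ y) := by
      rw [← hi, ← integral_neg]
      refine integral_congr_ae (Eventually.of_forall fun y => ?_)
      rw [hneg]
      exact neg_mul _ _
    have h3 : (fun (X : ℝ) (n : ℕ) => TS (Real.log X) s 0 n (fun _ v => - gs ψ v)) =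
        fun X n => - Wn s ψ (Real.log X) n := by
      funext X n
      have h4 := (prfT1 (Real.log X) s 0 n (fun _ v => gs ψ v) (fun _ v => gs ψ v) (-1)).2
      simp only [neg_one_mul] at h4
      exact h4
    rw [h2, h3] at h1
    exact h1

end Pool.Agent.Work.MP_122e00_nt.Gen

end

section

set_option autoImplicit false

/-!
# Item X4: the mean value of the structure sums of complete factorisations is `0`
-/

namespace Pool.Agent.Work.MP_122e00_nt.Gen

open Finset Filter Topology MeasureTheory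

open scoped ArithmeticFunction.vonMangoldt ArithmeticFunction.zeta

open Two

namespace IX4

theorem measurableSet_Sim (k s : ℕ) : MeasurableSet (Sim k s) := by
  unfold Sim
  have h1 : MeasurableSet {y : Fin k ⊕ Fin s → ℝ | ∀ i, 0 < y i} := by
    have : {y : Fin k ⊕ Fin s → ℝ | ∀ i, 0 < y i} = ⋂ i, {y | 0 < y i} := by
      ext y
      simp
    rw [this]
    exact MeasurableSet.iInter fun i => measurableSet_lt measurable_const (measurable_pi_apply i)
  have h2 : MeasurableSet {y : Fin k ⊕ Fin s → ℝ | ∑ i, y i < 1} :=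
    measurableSet_lt (Finset.measurable_sum _ fun i _ => measurable_pi_apply i) measurable_const
  exact h1.inter h2

theorem sum_snoc {s : ℕ} (a : Fin s → ℝ) (b : ℝ) :
    ∑ i, (Fin.snoc a b : Fin (s + 1) → ℝ) i = ∑ i, a i + b := by
  rw [Fin.sum_univ_castSucc]
  simp

end IX4

open IX4 in
theorem prfX4 : claimX4 := by
  classical
  intro s k h θ ψ hs hh hθ hθ2 hW
  set F : (Fin k → ℝ) → (Fin (s + 1) → ℝ) → ℝ := fun _ v => if ∑ i, v i = 0 then 1 else 0
    with hF
  have hext : ∀ p : (Fin k ⊕ Fin s → ℝ) × ℝ, Two.ext F p =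
      if ∑ i : Fin s, p.1 (Sum.inr i) + p.2 = 0 then 1 else 0 := by
    intro p
    unfold Two.ext
    simp only [hF]
    rw [sum_snoc]
  have hpos : ∀ y ∈ Sim k s, 0 < ∑ i : Fin s, y (Sum.inr i) + (1 - ∑ i, y i) := by
    intro y hy
    have h1 : 0 ≤ ∑ i : Fin s, y (Sum.inr i) := Finset.sum_nonneg fun i _ => (hy.1 _).le
    have h2 := hy.2
    linarith
  have hz : ∀ y ∈ Sim k s, Two.ext F (y, 1 - ∑ i, y i) * den y = 0 := by
    intro y hy
    rw [hext, if_neg (hpos y hy).ne', zero_mul]
  have hM := prfM1 s k h θ ψ hs hh hθ hθ2 hW F 1 (by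
      intro x v
      simp only [hF]
      split_ifs <;> simp) (by
      rw [ae_restrict_iff' (measurableSet_Sim k s)]
      refine Eventually.of_forall fun y hy => ?_
      have hc : Continuous fun p : (Fin k ⊕ Fin s → ℝ) × ℝ =>
          ∑ i : Fin s, p.1 (Sum.inr i) + p.2 := by fun_prop
      have hev : ∀ᶠ p in 𝓝 ((y, 1 - ∑ i, y i) : (Fin k ⊕ Fin s → ℝ) × ℝ), Two.ext F p = 0 := by
        have h1 : ∀ᶠ p in 𝓝 ((y, 1 - ∑ i, y i) : (Fin k ⊕ Fin s → ℝ) × ℝ),
            0 < ∑ i : Fin s, p.1 (Sum.inr i) + p.2 :=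
          hc.continuousAt.eventually (eventually_gt_nhds (hpos y hy))
        filter_upwards [h1] with p hp
        rw [hext, if_neg hp.ne']
      exact (continuousAt_const (y := (0 : ℝ))).congr (hev.mono fun p hp => hp.symm))
  have hI : ∫ y in Sim k s, Two.ext F (y, 1 - ∑ i, y i) * den y = 0 := by
    rw [setIntegral_congr_fun (measurableSet_Sim k s) (g := fun _ => (0 : ℝ)) hz]
    simp
  rw [hI] at hM
  exact hM

end Pool.Agent.Work.MP_122e00_nt.Gen

end

section

set_option autoImplicit false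

/-!
# C5: extraction of a slot of a product
-/

namespace Pool.Agent.Work.MP_122e00_nt.Sharp.Cx

open Finset

namespace IC5

theorem slot_eq (G mx bits X : ℕ) :
    slot G mx bits X = ((X * G) / 2 ^ (bits * mx)) % 2 ^ bits := rfl

/-- Digits: `L + B ^ mx (M + B H)`. -/
theorem digit (B mx L M H : ℕ) (hL : L < B ^ mx) (hM : M < B) :
    (L + B ^ mx * M + B ^ (mx + 1) * H) / B ^ mx % B = M := by
  have hB : 0 < B ^ mx := lt_of_le_of_lt (Nat.zero_le _) hL
  have h1 : L + B ^ mx * M + B ^ (mx + 1) * H = L + B ^ mx * (M + B * H) := by ring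
  rw [h1, Nat.add_mul_div_left _ _ hB, Nat.div_eq_of_lt hL, Nat.zero_add, Nat.add_mul_mod_self_left,
    Nat.mod_eq_of_lt hM]

end IC5

theorem prfC5 : claimC5 := by
  intro ι s p c g mx bits hp hinj hlt
  classical
  rw [IC5.slot_eq]
  have hpow : ∀ n : ℕ, 2 ^ (bits * n) = (2 ^ bits) ^ n := fun n => pow_mul _ _ _
  simp only [hpow]
  set B : ℕ := 2 ^ bits with hB
  have hB1 : 0 < B := Nat.pos_of_ne_zero (by positivity)
  -- the three parts
  have e1 : (∑ i ∈ s, c i * B ^ p i) * (∑ j ∈ s, g j * B ^ (mx - p j)) =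
      ∑ x ∈ s ×ˢ s, c x.1 * g x.2 * B ^ (p x.1 + (mx - p x.2)) := by
    rw [Finset.sum_mul_sum, Finset.sum_product]
    refine Finset.sum_congr rfl fun i _ => Finset.sum_congr rfl fun j _ => ?_
    show c i * B ^ p i * (g j * B ^ (mx - p j)) = c i * g j * B ^ (p i + (mx - p j))
    rw [pow_add]
    ring
  rw [e1]
  have e2 : ∑ x ∈ s ×ˢ s, c x.1 * g x.2 * B ^ (p x.1 + (mx - p x.2)) =
      ∑ x ∈ (s ×ˢ s).filter (fun x => p x.1 < p x.2), c x.1 * g x.2 * B ^ (p x.1 + (mx - p x.2)) +
      B ^ mx * ∑ i ∈ s, c i * g i +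
      B ^ (mx + 1) * ∑ x ∈ (s ×ˢ s).filter (fun x => p x.2 < p x.1),
        c x.1 * g x.2 * B ^ (p x.1 - p x.2 - 1) := by
    have h1 : ∀ x ∈ s ×ˢ s, c x.1 * g x.2 * B ^ (p x.1 + (mx - p x.2)) =
        (if p x.1 < p x.2 then c x.1 * g x.2 * B ^ (p x.1 + (mx - p x.2)) else 0) +
        (if x.1 = x.2 then B ^ mx * (c x.1 * g x.2) else 0) +
        (if p x.2 < p x.1 then B ^ (mx + 1) * (c x.1 * g x.2 * B ^ (p x.1 - p x.2 - 1)) else 0) := by
      intro x hx
      obtain ⟨h1, h2⟩ := Finset.mem_product.1 hx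
      have hp1 := hp _ h1
      have hp2 := hp _ h2
      rcases lt_trichotomy (p x.1) (p x.2) with h | h | h
      · rw [if_pos h, if_neg (fun h' => by rw [h'] at h; exact lt_irrefl _ h), if_neg (by omega)]
        simp
      · rw [if_neg (by omega), if_pos (hinj _ h1 _ h2 h), if_neg (by omega), h,
          Nat.add_sub_cancel' hp2]
        ring
      · rw [if_neg (by omega), if_neg (fun h' => by rw [h'] at h; exact lt_irrefl _ h), if_pos h]
        have h3 : p x.1 + (mx - p x.2) = (mx + 1) + (p x.1 - p x.2 - 1) := by omega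
        rw [h3, pow_add]
        ring
    rw [Finset.sum_congr rfl h1, Finset.sum_add_distrib, Finset.sum_add_distrib,
      ← Finset.sum_filter, ← Finset.sum_filter (fun x : ι × ι => p x.2 < p x.1)]
    congr 1
    · congr 1
      rw [Finset.sum_product, Finset.mul_sum]
      refine Finset.sum_congr rfl fun i hi => ?_
      show ∑ j ∈ s, (if i = j then B ^ mx * (c i * g j) else 0) = _
      rw [Finset.sum_ite_eq, if_pos hi]
    · rw [Finset.mul_sum]
  rw [e2]
  have e3 : ∑ x ∈ s ×ˢ s, c x.1 * g x.2 = (∑ i ∈ s, c i) * (∑ i ∈ s, g i) := by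
    rw [Finset.sum_mul_sum, Finset.sum_product]
  apply IC5.digit
  · -- the lower part
    by_cases hmx : mx = 0
    · have h0 : (s ×ˢ s).filter (fun x => p x.1 < p x.2) = ∅ := by
        refine Finset.filter_eq_empty_iff.2 fun x hx h => ?_
        obtain ⟨h1, h2⟩ := Finset.mem_product.1 hx
        have := hp _ h2
        omega
      rw [h0, Finset.sum_empty]
      positivity
    · have h1 : ∑ x ∈ (s ×ˢ s).filter (fun x => p x.1 < p x.2),
          c x.1 * g x.2 * B ^ (p x.1 + (mx - p x.2)) ≤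
          ∑ x ∈ (s ×ˢ s).filter (fun x => p x.1 < p x.2), c x.1 * g x.2 * B ^ (mx - 1) := by
        refine Finset.sum_le_sum fun x hx => ?_
        obtain ⟨hx1, hx2⟩ := Finset.mem_filter.1 hx
        obtain ⟨h1, h2⟩ := Finset.mem_product.1 hx1
        have hp1 := hp _ h1
        have hp2 := hp _ h2
        exact Nat.mul_le_mul (le_refl _) (Nat.pow_le_pow_right hB1 (by omega))
      have h2 : ∑ x ∈ (s ×ˢ s).filter (fun x => p x.1 < p x.2), c x.1 * g x.2 * B ^ (mx - 1) ≤
          ((∑ i ∈ s, c i) * (∑ i ∈ s, g i)) * B ^ (mx - 1) := by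
        rw [← Finset.sum_mul, ← e3]
        exact Nat.mul_le_mul (Finset.sum_le_sum_of_subset (Finset.filter_subset _ _)) (le_refl _)
      have h3 : ((∑ i ∈ s, c i) * (∑ i ∈ s, g i)) * B ^ (mx - 1) < B * B ^ (mx - 1) :=
        Nat.mul_lt_mul_of_pos_right hlt (by positivity)
      have h4 : B * B ^ (mx - 1) = B ^ mx := by
        rw [← pow_succ', Nat.sub_add_cancel (Nat.one_le_iff_ne_zero.2 hmx)]
      rw [← h4]
      exact lt_of_le_of_lt (h1.trans h2) h3
  · refine lt_of_le_of_lt ?_ hlt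
    rw [← e3, Finset.sum_product]
    refine Finset.sum_le_sum fun i hi => ?_
    exact Finset.single_le_sum (f := fun j => c i * g j) (fun j _ => Nat.zero_le _) hi

end Pool.Agent.Work.MP_122e00_nt.Sharp.Cx

end

section

set_option autoImplicit false

/-!
# C6: several variables
-/

namespace Pool.Agent.Work.MP_122e00_nt.Sharp.Cx

open Finset MeasureTheory

open scoped ENNReal

open Gen

noncomputable section

namespace IC6

/-- `h2` is natural. -/
theorem h2_map {A B : Type} [CommSemiring A] [CommSemiring B] (f : A →+* B) (a g : ℕ → A)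
    (N d e : ℕ) : f (h2 a g N d e) = h2 (fun v => f (a v)) (fun v => f (g v)) N d e := by
  induction N, d, e using h2.induct with
  | case1 d e h => simp [h2, h]
  | case2 d e h => simp [h2, h]
  | case3 N ih => rw [h2, h2, ih]
  | case4 N d ih1 ih2 => rw [h2, h2, map_add, map_mul, ih1, ih2]
  | case5 N e ih1 ih2 => rw [h2, h2, map_add, map_mul, ih1, ih2]
  | case6 N d e ih1 ih2 ih3 =>
    rw [h2, h2, map_add, map_add, map_mul, map_mul, ih1, ih2, ih3]

/-- `h2` of linear forms is homogeneous. -/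
theorem h2_hom {K : ℕ} (a g : ℕ → MvPolynomial (Fin K) ℕ) (ha : ∀ v, (a v).IsHomogeneous 1)
    (hg : ∀ v, (g v).IsHomogeneous 0) (N d e : ℕ) : (h2 a g N d e).IsHomogeneous d := by
  induction N, d, e using h2.induct with
  | case1 d e h =>
    rw [h2, if_pos h, h.1]
    exact MvPolynomial.isHomogeneous_one _ _
  | case2 d e h =>
    rw [h2, if_neg h]
    exact MvPolynomial.isHomogeneous_zero _ _ _
  | case3 N ih => rw [h2]; exact ih
  | case4 N d ih1 ih2 =>
    rw [h2]
    refine ih1.add ?_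
    have := (ha N).mul ih2
    rwa [Nat.add_comm 1 d] at this
  | case5 N e ih1 ih2 =>
    rw [h2]
    refine ih1.add ?_
    have := (hg N).mul ih2
    rwa [Nat.zero_add] at this
  | case6 N d e ih1 ih2 ih3 =>
    rw [h2]
    refine (ih1.add ?_).add ?_
    · have := (ha N).mul ih2
      rwa [Nat.add_comm 1 d] at this
    · have := (hg N).mul ih3
      rwa [Nat.zero_add] at this

/-- Values of a homogeneous polynomial. -/
theorem eval_hom {R : Type} [CommSemiring R] {K D : ℕ} (H : MvPolynomial (Fin K) R)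
    (hH : H.IsHomogeneous D) (W : Fin K → R) : MvPolynomial.eval W H =
      ∑ α ∈ Finset.Nat.antidiagonalTuple K D,
        H.coeff (Finsupp.equivFunOnFinite.symm α) * ∏ j, W j ^ α j := by
  classical
  rw [MvPolynomial.eval_eq']
  have h1 : ∑ α ∈ Finset.Nat.antidiagonalTuple K D,
      H.coeff (Finsupp.equivFunOnFinite.symm α) * ∏ j, W j ^ α j =
      ∑ d ∈ (Finset.Nat.antidiagonalTuple K D).map
        (Finsupp.equivFunOnFinite (α := Fin K) (M := ℕ)).symm.toEmbedding,
        H.coeff d * ∏ j, W j ^ d j := by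
    rw [Finset.sum_map]
    rfl
  rw [h1]
  apply Finset.sum_subset
  · intro d hd
    rw [Finset.mem_map]
    refine ⟨fun j => d j, ?_, ?_⟩
    · rw [Finset.Nat.mem_antidiagonalTuple]
      have h2 := hH (MvPolynomial.mem_support_iff.mp hd)
      rw [Finsupp.weight_apply, Finsupp.sum_fintype] at h2
      · simpa using h2
      · intro i
        simp
    · ext j
      rfl
  · intro d _ hd
    rw [MvPolynomial.notMem_support_iff.mp hd, zero_mul]

/-- Uniqueness of the coefficients. -/
theorem uniq {K D : ℕ} (c c' : (Fin K → ℕ) → ℝ) (h : ∀ W : Fin K → ℝ,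
    ∑ α ∈ Finset.Nat.antidiagonalTuple K D, c α * ∏ j, W j ^ α j =
    ∑ α ∈ Finset.Nat.antidiagonalTuple K D, c' α * ∏ j, W j ^ α j) :
    ∀ α ∈ Finset.Nat.antidiagonalTuple K D, c α = c' α := by
  classical
  let P : ((Fin K → ℕ) → ℝ) → MvPolynomial (Fin K) ℝ := fun c =>
    ∑ α ∈ Finset.Nat.antidiagonalTuple K D,
      MvPolynomial.monomial (Finsupp.equivFunOnFinite.symm α) (c α)
  have hev : ∀ (c : (Fin K → ℕ) → ℝ) (W : Fin K → ℝ), MvPolynomial.eval W (P c) =
      ∑ α ∈ Finset.Nat.antidiagonalTuple K D, c α * ∏ j, W j ^ α j := by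
    intro c W
    show MvPolynomial.eval W (∑ α ∈ Finset.Nat.antidiagonalTuple K D,
      MvPolynomial.monomial (Finsupp.equivFunOnFinite.symm α) (c α)) = _
    rw [map_sum]
    refine Finset.sum_congr rfl fun α _ => ?_
    rw [MvPolynomial.eval_monomial, Finsupp.prod_fintype]
    · rfl
    · intro i
      simp
  have hco : ∀ (c : (Fin K → ℕ) → ℝ), ∀ α ∈ Finset.Nat.antidiagonalTuple K D,
      (P c).coeff (Finsupp.equivFunOnFinite.symm α) = c α := by
    intro c α hα
    show MvPolynomial.coeff _ (∑ α ∈ Finset.Nat.antidiagonalTuple K D,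
      MvPolynomial.monomial (Finsupp.equivFunOnFinite.symm α) (c α)) = _
    rw [MvPolynomial.coeff_sum, Finset.sum_eq_single α]
    · simp
    · intro β _ hβ
      rw [MvPolynomial.coeff_monomial, if_neg]
      intro h
      exact hβ (Finsupp.equivFunOnFinite.symm.injective h)
    · intro h
      exact absurd hα h
  have hP : P c = P c' := MvPolynomial.funext fun W => by rw [hev, hev, h W]
  intro α hα
  rw [← hco c α hα, ← hco c' α hα, hP]

theorem continuous_lf (n : ℕ) (a : ℕ → ℝ) : Continuous (lf n a) := by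
  unfold lf
  fun_prop

theorem compact_T (n : ℕ) : IsCompact (Chamber.T (Fin n)) := by
  apply Metric.isCompact_of_isClosed_isBounded
  · have : Chamber.T (Fin n) = (⋂ i, {y : Fin n → ℝ | 0 ≤ y i}) ∩
        {y : Fin n → ℝ | ∑ i, y i ≤ 1} := by
      ext y
      simp [Chamber.T]
    rw [this]
    refine (isClosed_iInter fun i => isClosed_le continuous_const (continuous_apply i)).inter
      (isClosed_le ?_ continuous_const)
    fun_prop
  · apply (Metric.isBounded_Icc (0 : Fin n → ℝ) 1).subset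
    intro y hy
    refine ⟨fun i => hy.1 i, fun i => ?_⟩
    have := Finset.single_le_sum (f := y) (fun j _ => hy.1 j) (Finset.mem_univ i)
    exact this.trans hy.2

theorem lf_sum (n K : ℕ) (W : Fin K → ℝ) (a : ℕ → Fin K → ℝ) (y : Fin n → ℝ) :
    lf n (fun v => ∑ j, W j * a v j) y = ∑ j, W j * lf n (fun v => a v j) y := by
  unfold lf
  simp only [mul_add, Finset.mul_sum, Finset.sum_add_distrib]
  congr 1
  · rw [Finset.sum_comm]
    refine Finset.sum_congr rfl fun j _ => Finset.sum_congr rfl fun i _ => by ring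
  · refine Finset.sum_congr rfl fun j _ => by ring

/-- The multinomial theorem over tuples. -/
theorem multi {K D : ℕ} (f : Fin K → ℝ) : (∑ j, f j) ^ D =
    ∑ α ∈ Finset.Nat.antidiagonalTuple K D, (Nat.multinomial Finset.univ α : ℝ) *
      ∏ j, f j ^ α j := by
  classical
  rw [Finset.sum_pow_eq_sum_piAntidiag]
  refine Finset.sum_congr ?_ fun α _ => rfl
  ext α
  rw [Finset.mem_piAntidiag, Finset.Nat.mem_antidiagonalTuple]
  simp

end IC6

open IC6 in
/-- C6: several variables. -/
theorem prfC6 : claimC2 → claimC6 := by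
  intro hC2 n K D e a γ
  classical
  let H : MvPolynomial (Fin K) ℕ := h2 (fun v => ∑ j, MvPolynomial.X j * MvPolynomial.C (a v j))
    (fun v => MvPolynomial.C (γ v)) (n + 1) D e
  have hH : H.IsHomogeneous D := by
    refine h2_hom _ _ (fun v => ?_) (fun v => MvPolynomial.isHomogeneous_C _ _) _ _ _
    refine MvPolynomial.IsHomogeneous.sum _ _ _ fun j _ => ?_
    exact (MvPolynomial.isHomogeneous_X _ j).mul (MvPolynomial.isHomogeneous_C _ _)
  let c : (Fin K → ℕ) → ℕ := fun α => H.coeff (Finsupp.equivFunOnFinite.symm α)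
  refine ⟨c, fun W => ?_, ?_⟩
  · refine Eq.trans ?_ (eval_hom H hH W)
    have h1 := h2_map (MvPolynomial.eval W) (fun v => ∑ j, MvPolynomial.X j *
      MvPolynomial.C (a v j)) (fun v => MvPolynomial.C (γ v)) (n + 1) D e
    refine Eq.trans ?_ h1.symm
    congr 1
    · funext v
      simp
    · funext v
      simp
  · -- the real version
    let u : Fin K → (Fin n → ℝ) → ℝ := fun j y => lf n (fun v => (a v j : ℝ)) y
    let w : (Fin n → ℝ) → ℝ := fun y => lf n (fun v => (γ v : ℝ)) y
    let I : (Fin K → ℕ) → ℝ := fun α => ∫ y in Chamber.T (Fin n), (∏ j, u j y ^ α j) * w y ^ e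
    have hreal : ∀ W : Fin K → ℝ,
        h2 (fun v => ∑ j, W j * (a v j : ℝ)) (fun v => (γ v : ℝ)) (n + 1) D e =
        ∑ α ∈ Finset.Nat.antidiagonalTuple K D,
          (c α : ℝ) * ∏ j, W j ^ α j := by
      intro W
      have h0 := eval_hom (MvPolynomial.map (Nat.castRingHom ℝ) H)
        (hH.map (Nat.castRingHom ℝ)) W
      have h1 := h2_map ((MvPolynomial.eval W).comp (MvPolynomial.map (Nat.castRingHom ℝ)))
        (fun v => ∑ j, MvPolynomial.X j *
        MvPolynomial.C (a v j)) (fun v => MvPolynomial.C (γ v)) (n + 1) D e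
      have h3 : h2 (fun v => ∑ j, W j * (a v j : ℝ)) (fun v => (γ v : ℝ)) (n + 1) D e =
          MvPolynomial.eval W (MvPolynomial.map (Nat.castRingHom ℝ) H) := by
        refine Eq.trans ?_ h1.symm
        congr 1
        · funext v
          simp
        · funext v
          simp
      rw [h3, h0]
      refine Finset.sum_congr rfl fun α _ => ?_
      rw [MvPolynomial.coeff_map]
      rfl
    have hint : ∀ W : Fin K → ℝ,
        ∫ y in Chamber.T (Fin n), lf n (fun v => ∑ j, W j * (a v j : ℝ)) y ^ D *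
          lf n (fun v => (γ v : ℝ)) y ^ e =
        ∑ α ∈ Finset.Nat.antidiagonalTuple K D,
          ((Nat.multinomial Finset.univ α : ℝ) * I α) * ∏ j, W j ^ α j := by
      intro W
      have h1 : ∀ y, lf n (fun v => ∑ j, W j * (a v j : ℝ)) y ^ D *
          lf n (fun v => (γ v : ℝ)) y ^ e = ∑ α ∈ Finset.Nat.antidiagonalTuple K D,
          ((Nat.multinomial Finset.univ α : ℝ) * ∏ j, W j ^ α j) *
            ((∏ j, u j y ^ α j) * w y ^ e) := by
        intro y
        rw [lf_sum n K W (fun v j => (a v j : ℝ)) y, multi, Finset.sum_mul]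
        refine Finset.sum_congr rfl fun α _ => ?_
        simp only [mul_pow, Finset.prod_mul_distrib]
        ring
      simp only [h1]
      rw [integral_finsetSum]
      · refine Finset.sum_congr rfl fun α _ => ?_
        rw [integral_const_mul]
        ring
      · intro α _
        apply Integrable.const_mul
        apply ContinuousOn.integrableOn_compact (compact_T n)
        apply Continuous.continuousOn
        refine (continuous_finsetProd _ fun j _ => (continuous_lf n _).pow _).mul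
          ((continuous_lf n _).pow _)
    have hfac : ((n + D + e).factorial : ℝ) ≠ 0 := by positivity
    have hDf : (D.factorial : ℝ) ≠ 0 := by positivity
    have hef : (e.factorial : ℝ) ≠ 0 := by positivity
    have hcoef : ∀ W : Fin K → ℝ, ∑ α ∈ Finset.Nat.antidiagonalTuple K D,
          ((D.factorial : ℝ) * (e.factorial : ℝ) *
            (c α : ℝ)) * ∏ j, W j ^ α j =
        ∑ α ∈ Finset.Nat.antidiagonalTuple K D,
          (((n + D + e).factorial : ℝ) *
            ((Nat.multinomial Finset.univ α : ℝ) * I α)) * ∏ j, W j ^ α j := by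
      intro W
      have h1 := hC2 n D e (fun v => ∑ j, W j * (a v j : ℝ)) (fun v => (γ v : ℝ))
      rw [hreal W, hint W] at h1
      have h2 : ∑ α ∈ Finset.Nat.antidiagonalTuple K D,
          ((D.factorial : ℝ) * (e.factorial : ℝ) *
            (c α : ℝ)) * ∏ j, W j ^ α j =
          (D.factorial : ℝ) * (e.factorial : ℝ) * ∑ α ∈ Finset.Nat.antidiagonalTuple K D,
            (c α : ℝ) * ∏ j, W j ^ α j := by
        rw [Finset.mul_sum]
        exact Finset.sum_congr rfl fun α _ => by ring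
      have h3 : ∑ α ∈ Finset.Nat.antidiagonalTuple K D,
          (((n + D + e).factorial : ℝ) *
            ((Nat.multinomial Finset.univ α : ℝ) * I α)) * ∏ j, W j ^ α j =
          ((n + D + e).factorial : ℝ) * ∑ α ∈ Finset.Nat.antidiagonalTuple K D,
            ((Nat.multinomial Finset.univ α : ℝ) * I α) * ∏ j, W j ^ α j := by
        rw [Finset.mul_sum]
        exact Finset.sum_congr rfl fun α _ => by ring
      rw [h2, h3, h1]
      field_simp
    intro α hα
    have h1 := uniq _ _ hcoef α hα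
    have h2 := Nat.multinomial_spec Finset.univ α
    have h3 : ∑ i, α i = D := Finset.Nat.mem_antidiagonalTuple.mp hα
    rw [h3] at h2
    have h4 : (∏ j, ((α j).factorial : ℝ)) * (Nat.multinomial Finset.univ α : ℝ) =
        (D.factorial : ℝ) := by
      rw [← h2]
      push_cast
      ring
    have hm : (Nat.multinomial Finset.univ α : ℝ) ≠ 0 := by
      intro h0
      rw [h0, mul_zero] at h4
      exact hDf h4.symm
    show (c α : ℝ) *
      ((∏ j, ((α j).factorial : ℝ)) * (e.factorial : ℝ)) = ((n + D + e).factorial : ℝ) * I α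
    have h5 : (Nat.multinomial Finset.univ α : ℝ) *
        ((c α : ℝ) *
        ((∏ j, ((α j).factorial : ℝ)) * (e.factorial : ℝ))) =
        (Nat.multinomial Finset.univ α : ℝ) * (((n + D + e).factorial : ℝ) * I α) := by
      rw [← h4] at h1
      linear_combination h1
    exact mul_left_cancel₀ hm h5

end

end Pool.Agent.Work.MP_122e00_nt.Sharp.Cx

end
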