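import Pool.Agent.Work.MP_122e00_nt.Bd.B03

/-! Bundle of small proof modules (one section per former module). -/

section

set_option autoImplicit false

set_option maxRecDepth 100000

/-!
# The certificate: data
-/

namespace Pool.Agent.Work.MP_122e00_nt.Sharp.Cx

/-- data -/
noncomputable def tr13 : Ct := (.dc 0 3 0 (.dc 1 3 0 (.ct 0 5 1 2 1 (.ct 4 5 1 1 1 (.ct 1 3 1 1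
  1 (.ct 1 5 1 2 1 (.ct 3 6 1 1 1 (.ct 3 5 1 2 1 (.ct 5 6 1 1 1 (.dc 2 15 1 (.lf 3 7 192)) (.dc 2
  15 0 (.lf 3 5 192))) (.dc 2 15 1 (.lf 3 6 192))) (.ct 5 6 2 1 1 (.dc 2 15 1 (.ct 2 3 1 1 1 (.lf
  2 11 224) (.lf 3 8 224))) (.ct 3 5 1 1 1 (.dc 2 15 0 (.ct 2 3 1 1 1 (.lf 2 7 192) (.lf 3 5
  192))) (.dc 2 15 1 (.ct 2 3 1 1 1 (.lf 2 10 208) (.ct 2 5 1 1 1 (.lf 2 11 224) (.lf 3 8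
  224))))))) (.dc 2 15 1 (.ct 2 3 1 1 1 (.ct 3 6 1 1 1 (.lf 3 6 224) (.lf 2 11 224)) (.lf 3 7
  208)))) (.ct 1 5 1 1 1 (.ct 3 5 1 2 1 (.ct 5 6 1 1 1 (.dc 2 15 1 (.lf 3 7 192)) (.dc 2 15 0
  (.lf 3 6 192))) (.dc 2 15 1 (.lf 3 7 192))) (.dc 2 15 1 (.lf 3 8 208)))) (.dc 2 15 1 (.ct 1 3 1
  1 1 (.ct 2 3 1 1 1 (.ct 3 6 1 1 1 (.lf 3 6 208) (.lf 2 11 224)) (.lf 3 7 192)) (.lf 3 7 192))))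
  (.dc 2 15 1 (.ct 1 3 1 1 1 (.ct 2 3 1 1 1 (.ct 3 6 1 1 1 (.lf 3 5 240) (.lf 2 11 240)) (.lf 3 6
  224)) (.lf 3 6 224))))))

theorem dt13 : le (run cls4 4 tr13 [[3, 2, 2, 2, 4, 3, 2], [2, 2, 1, 1, 3, 3, 2], [1, 1, 1, 0,
  2, 2, 1], [1, 1, 1, 1, 1, 1, 0], [1, 1, 1, 1, 2, 1, 1], [0, 0, 0, 0, 1, 1, 0], [1, 1, 1, 1, 2,
  2, 2]] 140737487831031 [42, 42, 42, 42, 72, 72, 126]) 16959079179214 = true := by decide +kernel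

/-- data -/
noncomputable def tr14 : Ct := (.ct 4 5 1 1 1 (.ct 1 4 1 1 1 (.dc 1 3 0 (.ct 3 6 1 1 1 (.ct 3 5
  1 2 1 (.ct 5 6 1 1 1 (.dc 2 15 1 (.lf 3 9 224)) (.dc 2 15 0 (.lf 3 6 224))) (.dc 2 15 1 (.lf 3
  7 208))) (.ct 5 6 2 1 1 (.dc 2 15 1 (.ct 2 3 1 1 1 (.lf 2 10 208) (.lf 3 6 208))) (.ct 3 5 1 1
  1 (.dc 2 15 0 (.ct 2 3 1 1 1 (.lf 2 6 224) (.lf 3 5 224))) (.dc 2 15 1 (.ct 2 3 1 1 1 (.lf 2 9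
  208) (.ct 2 5 1 1 1 (.lf 2 9 224) (.lf 3 6 224)))))))) (.dc 1 3 1 (.ct 3 6 1 1 1 (.ct 3 5 1 2 1
  (.ct 5 6 1 1 1 (.dc 2 15 1 (.lf 3 12 208)) (.dc 2 15 0 (.lf 3 10 208))) (.dc 2 15 1 (.lf 3 12
  208))) (.ct 5 6 2 1 1 (.dc 2 15 1 (.ct 2 3 1 1 1 (.lf 2 11 208) (.lf 3 11 208))) (.ct 3 5 1 1 1
  (.dc 2 15 0 (.ct 2 3 1 1 1 (.lf 2 9 208) (.lf 3 10 208))) (.dc 2 15 1 (.ct 2 3 1 1 1 (.lf 2 10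
  192) (.ct 2 5 1 1 1 (.lf 2 12 208) (.lf 3 11 208))))))))) (.dc 2 15 1 (.ct 1 4 1 1 1 (.dc 1 3 0
  (.ct 2 3 1 1 1 (.ct 3 6 1 1 1 (.lf 3 8 208) (.lf 2 10 208)) (.lf 3 8 208))) (.ct 1 5 1 1 1 (.dc
  1 3 0 (.ct 2 3 1 1 1 (.ct 3 6 1 1 1 (.lf 3 7 208) (.lf 2 10 208)) (.lf 3 8 208))) (.dc 1 3 1
  (.ct 2 3 1 1 1 (.ct 3 6 1 1 1 (.lf 3 11 208) (.lf 2 11 208)) (.lf 3 11 192)))))))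

theorem dt14 : le (run cls4 4 tr14 [[4, 3, 2, 2, 7, 6, 2], [1, 1, 0, 0, 1, 1, 0], [1, 1, 1, 0,
  2, 2, 1], [1, 1, 1, 1, 1, 1, 0], [1, 1, 1, 1, 2, 1, 1], [0, 0, 0, 0, 1, 1, 0], [2, 2, 1, 1, 3,
  3, 2]] 140737487831039 [46, 46, 70, 70, 76, 100, 154]) 4046734819408 = true := by decide +kernel

/-- data -/
noncomputable def tr15 : Ct := (.dc 1 3 0 (.ct 4 5 1 1 1 (.ct 3 6 1 1 1 (.ct 3 5 1 2 1 (.ct 5 6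
  1 1 1 (.dc 2 15 1 (.lf 3 9 256)) (.dc 2 15 0 (.lf 3 5 224))) (.dc 2 15 1 (.lf 3 7 240))) (.ct 5
  6 2 1 1 (.dc 2 15 1 (.ct 2 3 1 1 1 (.lf 2 11 240) (.lf 3 7 240))) (.ct 3 5 1 1 1 (.dc 2 15 0
  (.ct 2 3 1 1 1 (.lf 2 7 224) (.lf 3 4 224))) (.dc 2 15 1 (.ct 2 3 1 1 1 (.lf 2 10 240) (.ct 2 5
  1 1 1 (.lf 2 10 256) (.lf 3 7 256))))))) (.dc 2 15 1 (.ct 2 3 1 1 1 (.ct 3 6 1 1 1 (.lf 3 8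
  224) (.lf 2 11 240)) (.lf 3 8 224)))))

theorem dt15 : le (run cls4 4 tr15 [[3, 2, 2, 2, 6, 5, 2], [4, 3, 2, 2, 7, 6, 2], [1, 1, 1, 0,
  2, 2, 1], [1, 1, 1, 1, 1, 1, 0], [1, 1, 1, 1, 2, 1, 1], [0, 0, 0, 0, 1, 1, 0], [2, 2, 1, 1, 3,
  3, 2]] 140737487831039 [46, 46, 70, 70, 76, 100, 154]) 7102721312099 = true := by decide +kernel

end Pool.Agent.Work.MP_122e00_nt.Sharp.Cx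

end

section

set_option autoImplicit false

set_option maxRecDepth 100000

/-!
# The certificate: data
-/

namespace Pool.Agent.Work.MP_122e00_nt.Sharp.Cx

/-- data -/
noncomputable def tr16 : Ct := (.dc 2 15 1 (.ct 0 1 1 1 1 (.ct 1 4 1 1 1 (.dc 1 3 0 (.ct 2 3 1
  1 1 (.ct 3 6 1 1 1 (.lf 3 7 208) (.lf 2 10 208)) (.lf 3 7 192))) (.ct 1 5 1 1 1 (.dc 1 3 0 (.ct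
  2 3 1 1 1 (.ct 3 6 1 1 1 (.lf 3 7 240) (.lf 2 10 240)) (.lf 3 7 224))) (.dc 1 3 1 (.ct 2 3 1 1
  1 (.ct 3 6 1 1 1 (.lf 3 11 240) (.lf 2 11 240)) (.lf 3 11 224))))) (.dc 1 3 0 (.ct 2 3 1 1 1
  (.ct 3 6 1 1 1 (.lf 3 6 224) (.lf 2 11 224)) (.lf 3 7 208)))))

theorem dt16 : le (run cls4 4 tr16 [[3, 2, 2, 2, 4, 3, 2], [1, 1, 0, 0, 1, 1, 0], [1, 1, 1, 0,
  2, 2, 1], [1, 1, 1, 1, 1, 1, 0], [1, 1, 1, 1, 2, 1, 1], [3, 2, 2, 2, 6, 5, 2], [2, 2, 1, 1, 3,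
  3, 2]] 140737487831039 [46, 46, 70, 70, 76, 100, 154]) 10941776469488 = true := by
  decide +kernel

/-- data -/
noncomputable def tr17 : Ct := (.dc 1 14 0 (.ct 1 6 1 1 1 (.dc 0 3 0 (.dc 1 3 0 (.ct 0 5 1 1 1
  (.ct 1 5 1 1 1 (.ct 3 5 1 2 1 (.ct 4 5 1 1 1 (.ct 5 6 1 1 1 (.dc 2 15 1 (.lf 3 8 224)) (.dc 2
  15 0 (.lf 3 7 224))) (.dc 2 15 1 (.lf 3 8 208))) (.dc 2 15 1 (.lf 3 7 240))) (.dc 2 15 1 (.lf 3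
  8 208))) (.dc 2 15 1 (.lf 3 8 192))))) (.dc 0 3 1 (.ct 5 6 1 1 1 (.dc 2 15 1 (.ct 0 1 1 1 1
  (.ct 1 3 1 1 1 (.dc 1 3 0 (.lf 3 8 208)) (.ct 1 4 1 1 1 (.dc 1 3 0 (.lf 3 8 192)) (.dc 1 3 1
  (.lf 3 11 208)))) (.dc 1 3 0 (.lf 3 8 176)))) (.ct 0 1 1 1 1 (.ct 0 5 1 1 1 (.ct 1 3 1 1 1 (.dc
  1 3 0 (.ct 1 5 1 2 1 (.ct 3 5 1 2 1 (.ct 4 5 1 1 1 (.dc 2 15 0 (.lf 3 5 240)) (.dc 2 15 1 (.lf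
  3 7 240))) (.dc 2 15 1 (.lf 3 6 224))) (.dc 2 15 1 (.lf 3 7 224)))) (.ct 3 5 1 2 1 (.ct 1 4 1 1
  1 (.dc 1 3 0 (.ct 1 5 1 1 1 (.ct 4 5 1 1 1 (.dc 2 15 0 (.lf 3 6 240)) (.dc 2 15 1 (.lf 3 8
  240))) (.dc 2 15 1 (.lf 3 8 224)))) (.dc 1 3 1 (.ct 4 5 1 1 1 (.dc 2 15 0 (.lf 3 10 224)) (.dc
  2 15 1 (.lf 3 11 224))))) (.dc 2 15 1 (.ct 1 4 1 1 1 (.dc 1 3 0 (.lf 3 8 224)) (.dc 1 3 1 (.lf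
  3 11 224)))))) (.dc 2 15 1 (.ct 1 3 1 1 1 (.dc 1 3 0 (.lf 3 7 192)) (.ct 1 4 1 1 1 (.dc 1 3 0
  (.lf 3 8 192)) (.dc 1 3 1 (.lf 3 11 192)))))) (.dc 1 3 0 (.ct 0 5 1 1 1 (.ct 1 5 1 1 1 (.ct 3 5
  1 2 1 (.ct 4 5 1 1 1 (.dc 2 15 0 (.lf 3 5 240)) (.dc 2 15 1 (.lf 3 8 240))) (.dc 2 15 1 (.lf 3
  7 208))) (.dc 2 15 1 (.lf 3 7 176))) (.dc 2 15 1 (.lf 3 8 176)))))))))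

theorem dt17 : le (run cls4 4 tr17 [[2, 1, 1, 1, 3, 2, 2], [1, 1, 0, 0, 1, 1, 0], [1, 1, 1, 0,
  2, 2, 1], [3, 2, 2, 2, 4, 3, 2], [1, 1, 1, 1, 2, 1, 1], [0, 0, 0, 0, 1, 1, 0], [1, 1, 1, 1, 2,
  2, 2]] 140736414089207 [28, 40, 40, 40, 58, 70, 112]) 5589356078893 = true := by decide +kernel

/-- data -/
noncomputable def tr18 : Ct := (.dc 2 7 1 (.dc 2 15 1 (.ct 0 3 1 1 1 (.dc 1 14 1 (.ct 1 6 1 1 1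
  (.dc 0 3 0 (.dc 1 3 0 (.ct 1 3 1 1 1 (.ct 2 3 1 1 1 (.ct 3 5 1 1 1 (.lf 3 7 192) (.ct 3 6 1 1 1
  (.lf 3 7 208) (.lf 2 11 208))) (.lf 3 8 176)) (.lf 3 6 192)))) (.dc 0 3 1 (.ct 2 3 1 1 1 (.ct 0
  1 1 1 1 (.ct 1 4 1 1 1 (.dc 1 3 0 (.ct 3 5 1 1 1 (.lf 3 7 192) (.ct 3 6 1 1 1 (.lf 3 7 208)
  (.lf 2 10 208)))) (.dc 1 3 1 (.ct 3 5 1 1 1 (.lf 3 10 192) (.ct 3 6 1 1 1 (.lf 3 10 208) (.lf 2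
  11 208))))) (.dc 1 3 0 (.ct 3 5 1 1 1 (.lf 3 8 208) (.ct 3 6 1 1 1 (.lf 3 8 224) (.lf 2 11
  224))))) (.ct 0 1 1 1 1 (.ct 1 4 1 1 1 (.dc 1 3 0 (.lf 3 7 192)) (.dc 1 3 1 (.lf 3 10 192)))
  (.dc 1 3 0 (.lf 3 8 208))))))) (.dc 1 14 0 (.ct 1 6 1 1 1 (.dc 0 3 0 (.dc 1 3 0 (.lf 3 7 192)))
  (.dc 0 3 1 (.ct 0 1 1 1 1 (.ct 1 3 1 1 1 (.dc 1 3 0 (.lf 3 7 208)) (.ct 1 4 1 1 1 (.dc 1 3 0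
  (.lf 3 7 192)) (.dc 1 3 1 (.lf 3 11 208)))) (.dc 1 3 0 (.lf 3 7 176)))))))))

theorem dt18 : le (run cls4 4 tr18 [[2, 1, 1, 1, 3, 2, 2], [1, 1, 0, 0, 1, 1, 0], [1, 1, 1, 0,
  1, 1, 1], [1, 1, 1, 1, 1, 1, 0], [1, 1, 1, 1, 2, 1, 1], [1, 1, 1, 0, 2, 2, 1], [1, 1, 1, 1, 2,
  2, 2]] 140186658275319 [28, 40, 40, 40, 58, 70, 112]) 8464440139678 = true := by decide +kernel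

/-- data -/
noncomputable def tr19 : Ct := (.dc 0 1 0 (.dc 0 9 0 (.ct 0 5 1 1 1 (.ct 2 5 1 1 1 (.dc 2 7 0
  (.ct 1 3 1 1 1 (.dc 1 3 0 (.ct 1 5 1 2 1 (.ct 3 5 1 2 1 (.ct 4 5 1 1 1 (.ct 5 6 1 1 1 (.dc 2 15
  1 (.lf 3 10 240)) (.dc 2 15 0 (.lf 3 8 224))) (.dc 2 15 1 (.lf 3 9 224))) (.dc 2 15 1 (.lf 3 8
  240))) (.dc 2 15 1 (.lf 3 7 240)))) (.ct 3 5 1 2 1 (.ct 1 4 1 1 1 (.dc 1 3 0 (.ct 1 5 1 1 1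
  (.ct 4 5 1 1 1 (.ct 5 6 1 1 1 (.dc 2 15 1 (.lf 3 9 208)) (.dc 2 15 0 (.lf 3 7 208))) (.dc 2 15
  1 (.lf 3 9 208))) (.dc 2 15 1 (.lf 3 7 208)))) (.ct 4 5 1 1 1 (.ct 1 6 1 1 1 (.dc 1 3 0 (.ct 1
  5 1 1 1 (.ct 5 6 1 1 1 (.dc 2 15 1 (.lf 3 9 224)) (.dc 2 15 0 (.lf 3 7 224))) (.dc 2 15 1 (.lf
  3 8 240)))) (.dc 1 3 1 (.ct 5 6 1 1 1 (.dc 2 15 1 (.lf 3 11 240)) (.dc 2 15 0 (.lf 3 10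
  224))))) (.dc 2 15 1 (.ct 1 6 1 1 1 (.dc 1 3 0 (.lf 3 7 224)) (.dc 1 3 1 (.lf 3 10 224))))))
  (.dc 2 15 1 (.ct 1 4 1 1 1 (.dc 1 3 0 (.lf 3 7 224)) (.ct 1 6 1 1 1 (.dc 1 3 0 (.lf 3 7 224))
  (.dc 1 3 1 (.lf 3 10 224)))))))) (.dc 2 7 1 (.dc 2 15 1 (.ct 1 3 1 1 1 (.dc 1 3 0 (.lf 3 7
  208)) (.ct 1 4 1 1 1 (.dc 1 3 0 (.lf 3 7 192)) (.ct 1 6 1 1 1 (.dc 1 3 0 (.lf 3 7 192)) (.dc 1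
  3 1 (.lf 3 10 192)))))))) (.dc 2 7 1 (.dc 2 15 1 (.ct 1 3 1 1 1 (.dc 1 3 0 (.lf 3 9 208)) (.ct
  1 4 1 1 1 (.dc 1 3 0 (.lf 3 9 192)) (.ct 1 6 1 1 1 (.dc 1 3 0 (.lf 3 9 192)) (.dc 1 3 1 (.lf 3
  11 192))))))))))

theorem dt19 : le (run cls4 4 tr19 [[2, 1, 1, 0, 2, 1, 1], [1, 1, 0, 0, 1, 1, 0], [1, 1, 1, 0,
  1, 1, 1], [3, 2, 2, 2, 4, 3, 2], [1, 1, 1, 1, 2, 1, 1], [0, 0, 0, 0, 1, 1, 0], [2, 1, 1, 1, 3,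
  2, 2]] 140187732016637 [36, 72, 72, 96, 66, 126, 168]) 1569077987990 = true := by decide +kernel

/-- data -/
noncomputable def tr20 : Ct := (.dc 0 1 0 (.ct 0 1 1 1 1 (.ct 0 5 1 2 1 (.ct 1 3 1 1 1 (.dc 1 3
  0 (.ct 1 5 1 2 1 (.ct 3 5 1 2 1 (.ct 4 5 1 1 1 (.ct 5 6 1 1 1 (.dc 2 15 1 (.lf 3 10 240)) (.dc
  2 15 0 (.lf 3 8 224))) (.dc 2 15 1 (.lf 3 10 224))) (.dc 2 15 1 (.lf 3 9 240))) (.dc 2 15 1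
  (.lf 3 8 240)))) (.ct 3 5 1 2 1 (.ct 1 4 1 1 1 (.dc 1 3 0 (.ct 1 5 1 1 1 (.ct 4 5 1 1 1 (.ct 5
  6 1 1 1 (.dc 2 15 1 (.lf 3 9 208)) (.dc 2 15 0 (.lf 3 7 192))) (.dc 2 15 1 (.lf 3 9 208))) (.dc
  2 15 1 (.lf 3 8 208)))) (.ct 4 5 1 1 1 (.ct 1 6 1 1 1 (.dc 1 3 0 (.ct 1 5 1 1 1 (.ct 5 6 1 1 1
  (.dc 2 15 1 (.lf 3 9 224)) (.dc 2 15 0 (.lf 3 7 208))) (.dc 2 15 1 (.lf 3 9 240)))) (.dc 1 3 1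
  (.ct 5 6 1 1 1 (.dc 2 15 1 (.lf 3 12 240)) (.dc 2 15 0 (.lf 3 9 224))))) (.dc 2 15 1 (.ct 1 6 1
  1 1 (.dc 1 3 0 (.lf 3 8 224)) (.dc 1 3 1 (.lf 3 12 224)))))) (.dc 2 15 1 (.ct 1 4 1 1 1 (.dc 1
  3 0 (.lf 3 8 224)) (.ct 1 6 1 1 1 (.dc 1 3 0 (.lf 3 7 224)) (.dc 1 3 1 (.lf 3 12 224)))))))
  (.dc 2 15 1 (.ct 1 3 1 1 1 (.dc 1 3 0 (.lf 3 8 240)) (.ct 1 4 1 1 1 (.dc 1 3 0 (.lf 3 8 224))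
  (.ct 1 6 1 1 1 (.dc 1 3 0 (.lf 3 8 224)) (.dc 1 3 1 (.lf 3 10 224))))))) (.dc 1 3 0 (.ct 0 5 1
  2 1 (.ct 1 5 1 2 1 (.ct 3 5 1 2 1 (.ct 4 5 1 1 1 (.ct 5 6 1 1 1 (.dc 2 15 1 (.lf 3 9 240)) (.dc
  2 15 0 (.lf 3 7 224))) (.dc 2 15 1 (.lf 3 9 224))) (.dc 2 15 1 (.lf 3 8 240))) (.dc 2 15 1 (.lf
  3 8 208))) (.dc 2 15 1 (.lf 3 7 240))))))

theorem dt20 : le (run cls4 4 tr20 [[5, 2, 2, 2, 6, 3, 2], [1, 1, 0, 0, 1, 1, 0], [2, 1, 1, 0,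
  3, 2, 1], [3, 2, 2, 2, 4, 3, 2], [1, 1, 1, 1, 2, 1, 1], [0, 0, 0, 0, 1, 1, 0], [2, 1, 1, 1, 3,
  2, 2]] 140737487831037 [40, 100, 100, 100, 70, 154, 196]) 1799275833682 = true := by
  decide +kernel

end Pool.Agent.Work.MP_122e00_nt.Sharp.Cx

end

section

set_option autoImplicit false

set_option maxRecDepth 100000

/-!
# The certificate: data
-/

namespace Pool.Agent.Work.MP_122e00_nt.Sharp.Cx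

/-- data -/
noncomputable def tr21 : Ct := (.ct 1 3 1 1 1 (.dc 1 3 0 (.ct 1 5 1 2 1 (.ct 3 5 1 2 1 (.ct 0 4
  1 1 1 (.dc 0 1 0 (.ct 0 5 1 1 1 (.ct 4 5 1 1 1 (.ct 5 6 1 1 1 (.dc 2 15 1 (.lf 3 7 208)) (.dc 2
  15 0 (.lf 3 6 208))) (.dc 2 15 1 (.lf 3 7 192))) (.dc 2 15 1 (.lf 3 7 192)))) (.ct 4 5 1 1 1
  (.ct 0 6 1 1 1 (.dc 0 1 0 (.ct 0 5 1 1 1 (.ct 5 6 1 1 1 (.dc 2 15 1 (.lf 3 7 224)) (.dc 2 15 0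
  (.lf 3 5 224))) (.dc 2 15 1 (.lf 3 5 224)))) (.dc 0 1 1 (.ct 5 6 1 1 1 (.dc 2 15 1 (.lf 3 13
  224)) (.dc 2 15 0 (.lf 3 12 192))))) (.dc 2 15 1 (.ct 0 6 1 1 1 (.dc 0 1 0 (.lf 3 6 208)) (.dc
  0 1 1 (.lf 3 13 208)))))) (.dc 2 15 1 (.ct 0 4 1 1 1 (.dc 0 1 0 (.lf 3 6 224)) (.ct 0 6 1 1 1
  (.dc 0 1 0 (.lf 3 5 240)) (.dc 0 1 1 (.lf 3 13 224)))))) (.dc 2 15 1 (.ct 0 4 1 1 1 (.dc 0 1 0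
  (.lf 3 6 224)) (.ct 0 6 1 1 1 (.dc 0 1 0 (.lf 3 5 240)) (.dc 0 1 1 (.lf 3 13 224))))))) (.ct 3
  5 1 2 1 (.ct 0 4 1 1 1 (.dc 0 1 0 (.ct 0 1 1 1 1 (.ct 0 5 1 1 1 (.ct 1 4 1 1 1 (.dc 1 3 0 (.ct
  1 5 1 1 1 (.ct 4 5 1 1 1 (.ct 5 6 1 1 1 (.dc 2 15 1 (.lf 3 8 192)) (.dc 2 15 0 (.lf 3 7 192)))
  (.dc 2 15 1 (.lf 3 8 192))) (.dc 2 15 1 (.lf 3 7 192)))) (.ct 4 5 1 1 1 (.ct 1 6 1 1 1 (.dc 1 3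
  0 (.ct 1 5 1 1 1 (.ct 5 6 1 1 1 (.dc 2 15 1 (.lf 3 8 208)) (.dc 2 15 0 (.lf 3 6 208))) (.dc 2
  15 1 (.lf 3 8 208)))) (.dc 1 3 1 (.ct 5 6 1 1 1 (.dc 2 15 1 (.lf 3 11 208)) (.dc 2 15 0 (.lf 3
  8 208))))) (.dc 2 15 1 (.ct 1 6 1 1 1 (.dc 1 3 0 (.lf 3 7 192)) (.dc 1 3 1 (.lf 3 11 192))))))
  (.dc 2 15 1 (.ct 1 4 1 1 1 (.dc 1 3 0 (.lf 3 7 192)) (.ct 1 6 1 1 1 (.dc 1 3 0 (.lf 3 7 192))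
  (.dc 1 3 1 (.lf 3 10 192)))))) (.dc 1 3 0 (.ct 0 5 1 1 1 (.ct 1 5 1 1 1 (.ct 4 5 1 1 1 (.ct 5 6
  1 1 1 (.dc 2 15 1 (.lf 3 8 192)) (.dc 2 15 0 (.lf 3 6 192))) (.dc 2 15 1 (.lf 3 8 160))) (.dc 2
  15 1 (.lf 3 7 192))) (.dc 2 15 1 (.lf 3 7 176)))))) (.ct 1 4 1 1 1 (.dc 1 3 0 (.ct 1 5 1 1 1
  (.ct 4 5 1 1 1 (.ct 0 6 1 1 1 (.dc 0 1 0 (.ct 0 5 1 1 1 (.ct 5 6 1 1 1 (.dc 2 15 1 (.lf 3 7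
  192)) (.dc 2 15 0 (.lf 3 5 192))) (.dc 2 15 1 (.lf 3 6 192)))) (.dc 0 1 1 (.ct 5 6 1 1 1 (.dc 2
  15 1 (.lf 3 13 192)) (.dc 2 15 0 (.lf 3 11 160))))) (.dc 2 15 1 (.ct 0 6 1 1 1 (.dc 0 1 0 (.lf
  3 6 192)) (.dc 0 1 1 (.lf 3 13 192))))) (.dc 2 15 1 (.ct 0 6 1 1 1 (.dc 0 1 0 (.lf 3 6 192))
  (.dc 0 1 1 (.lf 3 13 192)))))) (.ct 4 5 1 1 1 (.ct 0 6 1 1 1 (.dc 0 1 0 (.ct 0 1 1 1 1 (.ct 0 5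
  1 1 1 (.ct 1 6 1 1 1 (.dc 1 3 0 (.ct 1 5 1 1 1 (.ct 5 6 1 1 1 (.dc 2 15 1 (.lf 3 8 208)) (.dc 2
  15 0 (.lf 3 6 208))) (.dc 2 15 1 (.lf 3 7 176)))) (.dc 1 3 1 (.ct 5 6 1 1 1 (.dc 2 15 1 (.lf 3
  10 176)) (.dc 2 15 0 (.lf 3 8 176))))) (.dc 2 15 1 (.ct 1 6 1 1 1 (.dc 1 3 0 (.lf 3 6 176))
  (.dc 1 3 1 (.lf 3 10 176))))) (.dc 1 3 0 (.ct 0 5 1 1 1 (.ct 1 5 1 1 1 (.ct 5 6 1 1 1 (.dc 2 15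
  1 (.lf 3 7 192)) (.dc 2 15 0 (.lf 3 6 192))) (.dc 2 15 1 (.lf 3 6 176))) (.dc 2 15 1 (.lf 3 6
  208)))))) (.dc 0 1 1 (.ct 1 6 1 1 1 (.dc 1 3 0 (.ct 1 5 1 1 1 (.ct 5 6 1 1 1 (.dc 2 15 1 (.lf 3
  13 192)) (.dc 2 15 0 (.lf 3 11 160))) (.dc 2 15 1 (.lf 3 13 208)))) (.dc 1 3 1 (.ct 5 6 1 1 1
  (.dc 2 15 1 (.lf 3 12 176)) (.dc 2 15 0 (.lf 3 11 160))))))) (.dc 2 15 1 (.ct 0 6 1 1 1 (.dc 0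
  1 0 (.ct 0 1 1 1 1 (.ct 1 6 1 1 1 (.dc 1 3 0 (.lf 3 7 208)) (.dc 1 3 1 (.lf 3 9 208))) (.dc 1 3
  0 (.lf 3 6 208)))) (.dc 0 1 1 (.ct 1 6 1 1 1 (.dc 1 3 0 (.lf 3 13 208)) (.dc 1 3 1 (.lf 3 12
  208))))))))) (.dc 2 15 1 (.ct 0 4 1 1 1 (.dc 0 1 0 (.ct 0 1 1 1 1 (.ct 1 4 1 1 1 (.dc 1 3 0
  (.lf 3 7 208)) (.ct 1 6 1 1 1 (.dc 1 3 0 (.lf 3 7 224)) (.dc 1 3 1 (.lf 3 9 224)))) (.dc 1 3 0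
  (.lf 3 6 208)))) (.ct 1 4 1 1 1 (.dc 1 3 0 (.ct 0 6 1 1 1 (.dc 0 1 0 (.lf 3 5 208)) (.dc 0 1 1
  (.lf 3 13 192)))) (.ct 0 6 1 1 1 (.dc 0 1 0 (.ct 0 1 1 1 1 (.ct 1 6 1 1 1 (.dc 1 3 0 (.lf 3 7
  240)) (.dc 1 3 1 (.lf 3 9 240))) (.dc 1 3 0 (.lf 3 6 224)))) (.dc 0 1 1 (.ct 1 6 1 1 1 (.dc 1 3
  0 (.lf 3 13 208)) (.dc 1 3 1 (.lf 3 12 224))))))))))

theorem dt21 : le (run cls4 4 tr21 [[1, 0, 0, 0, 1, 0, 0], [1, 1, 0, 0, 1, 1, 0], [2, 1, 1, 0,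
  3, 2, 1], [5, 2, 2, 2, 6, 3, 2], [1, 1, 1, 1, 2, 1, 1], [0, 0, 0, 0, 1, 1, 0], [2, 1, 1, 1, 3,
  2, 2]] 140737487831037 [40, 100, 100, 100, 70, 154, 196]) 683447432927 = true := by
  decide +kernel

/-- data -/
noncomputable def tr22 : Ct := (.dc 2 7 1 (.dc 2 15 1 (.ct 0 3 2 1 1 (.dc 0 1 0 (.ct 0 1 1 1 1
  (.ct 1 3 1 1 1 (.dc 1 3 0 (.lf 3 8 240)) (.ct 1 4 1 1 1 (.dc 1 3 0 (.lf 3 8 224)) (.ct 1 6 1 1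
  1 (.dc 1 3 0 (.lf 3 7 224)) (.dc 1 3 1 (.lf 3 10 224))))) (.dc 1 3 0 (.lf 3 7 240)))) (.ct 1 3
  1 1 1 (.dc 1 3 0 (.ct 0 4 1 1 1 (.dc 0 1 0 (.lf 3 6 224)) (.ct 0 6 1 1 1 (.dc 0 1 0 (.lf 3 5
  240)) (.dc 0 1 1 (.lf 3 13 240))))) (.ct 0 4 1 1 1 (.dc 0 1 0 (.ct 0 1 1 1 1 (.ct 1 4 1 1 1
  (.dc 1 3 0 (.lf 3 7 208)) (.ct 1 6 1 1 1 (.dc 1 3 0 (.lf 3 7 224)) (.dc 1 3 1 (.lf 3 9 224))))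
  (.dc 1 3 0 (.lf 3 6 208)))) (.ct 1 4 1 1 1 (.dc 1 3 0 (.ct 0 6 1 1 1 (.dc 0 1 0 (.lf 3 5 208))
  (.dc 0 1 1 (.lf 3 13 208)))) (.ct 0 6 1 1 1 (.dc 0 1 0 (.ct 0 1 1 1 1 (.ct 1 6 1 1 1 (.dc 1 3 0
  (.lf 3 6 240)) (.dc 1 3 1 (.lf 3 9 240))) (.dc 1 3 0 (.lf 3 6 224)))) (.dc 0 1 1 (.ct 1 6 1 1 1
  (.dc 1 3 0 (.lf 3 13 224)) (.dc 1 3 1 (.lf 3 12 224)))))))))))

theorem dt22 : le (run cls4 4 tr22 [[1, 0, 0, 0, 1, 0, 0], [1, 1, 0, 0, 1, 1, 0], [2, 1, 1, 0,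
  2, 1, 1], [3, 2, 2, 2, 4, 3, 2], [1, 1, 1, 1, 2, 1, 1], [2, 1, 1, 0, 3, 2, 1], [2, 1, 1, 1, 3,
  2, 2]] 140187732017149 [40, 100, 100, 100, 70, 154, 196]) 931134163411 = true := by
  decide +kernel

end Pool.Agent.Work.MP_122e00_nt.Sharp.Cx

end

section

set_option autoImplicit false

set_option maxRecDepth 100000

/-!
# The certificate: data
-/

namespace Pool.Agent.Work.MP_122e00_nt.Sharp.Cx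

/-- data -/
noncomputable def tr23 : Ct := (.ct 3 5 1 1 1 (.ct 2 3 1 1 1 (.ct 1 4 1 1 1 (.dc 1 3 0 (.ct 1 5
  1 1 1 (.ct 4 5 1 1 1 (.ct 5 6 2 1 1 (.dc 2 15 1 (.lf 2 9 240)) (.dc 2 15 0 (.lf 2 6 240))) (.dc
  2 15 1 (.lf 2 9 208))) (.dc 2 15 1 (.lf 2 9 192)))) (.ct 4 5 1 1 1 (.ct 1 6 1 1 1 (.dc 1 3 0
  (.ct 1 5 1 2 1 (.ct 5 6 2 1 1 (.dc 2 15 1 (.lf 2 9 256)) (.dc 2 15 0 (.lf 2 5 256))) (.dc 2 15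
  1 (.lf 2 10 256)))) (.dc 1 3 1 (.ct 5 6 2 1 1 (.dc 2 15 1 (.lf 2 12 256)) (.dc 2 15 0 (.lf 2 9
  224))))) (.dc 2 15 1 (.ct 1 6 1 1 1 (.dc 1 3 0 (.lf 2 9 208)) (.dc 1 3 1 (.lf 2 12 224))))))
  (.ct 1 4 1 1 1 (.dc 1 3 0 (.ct 1 5 1 1 1 (.ct 4 5 1 1 1 (.ct 5 6 2 1 1 (.dc 2 15 1 (.lf 3 8
  240)) (.dc 2 15 0 (.lf 3 6 240))) (.dc 2 15 1 (.lf 3 7 208))) (.dc 2 15 1 (.lf 3 6 176)))) (.ct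
  4 5 1 1 1 (.ct 1 6 1 1 1 (.dc 1 3 0 (.ct 1 5 1 2 1 (.ct 5 6 2 1 1 (.dc 2 15 1 (.lf 3 7 256))
  (.dc 2 15 0 (.lf 3 6 256))) (.dc 2 15 1 (.lf 3 6 256)))) (.dc 1 3 1 (.ct 5 6 2 1 1 (.dc 2 15 1
  (.lf 3 10 256)) (.dc 2 15 0 (.lf 3 9 224))))) (.dc 2 15 1 (.ct 1 6 1 1 1 (.dc 1 3 0 (.lf 3 5
  208)) (.dc 1 3 1 (.lf 3 10 208))))))) (.dc 2 15 1 (.ct 1 4 1 1 1 (.dc 1 3 0 (.ct 2 3 1 1 1 (.lf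
  2 10 176) (.ct 2 5 1 1 1 (.lf 2 9 192) (.lf 3 5 176)))) (.ct 1 6 1 1 1 (.dc 1 3 0 (.ct 2 3 1 1
  1 (.lf 2 10 208) (.ct 2 5 1 1 1 (.lf 2 9 208) (.lf 3 5 208)))) (.dc 1 3 1 (.ct 2 3 1 1 1 (.lf 2
  11 208) (.ct 2 5 1 1 1 (.lf 2 12 224) (.lf 3 10 208))))))))

theorem dt23 : le (run cls4 4 tr23 [[3, 2, 2, 1, 5, 4, 1], [1, 1, 0, 0, 1, 1, 0], [1, 1, 1, 0,
  2, 2, 1], [1, 1, 1, 1, 1, 1, 0], [1, 1, 1, 1, 2, 1, 1], [0, 0, 0, 0, 1, 1, 0], [3, 2, 2, 2, 4,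
  3, 2]] 140737487831039 [50, 74, 74, 98, 80, 128, 182]) 2976770317650 = true := by decide +kernel

/-- data -/
noncomputable def tr24 : Ct := (.dc 2 15 1 (.ct 1 4 1 1 1 (.dc 1 3 0 (.ct 2 3 1 1 1 (.lf 2 10
  192) (.lf 3 6 176))) (.ct 1 6 1 1 1 (.dc 1 3 0 (.ct 2 3 1 1 1 (.lf 2 10 208) (.lf 3 6 208)))
  (.dc 1 3 1 (.ct 2 3 1 1 1 (.lf 2 11 224) (.lf 3 10 208))))))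

theorem dt24 : le (run cls4 4 tr24 [[3, 2, 2, 1, 4, 3, 1], [1, 1, 0, 0, 1, 1, 0], [1, 1, 1, 0,
  2, 2, 1], [1, 1, 1, 1, 1, 1, 0], [1, 1, 1, 1, 2, 1, 1], [3, 2, 2, 1, 5, 4, 1], [3, 2, 2, 2, 4,
  3, 2]] 140737487831039 [50, 74, 74, 98, 80, 128, 182]) 5351655614279 = true := by decide +kernel

end Pool.Agent.Work.MP_122e00_nt.Sharp.Cx

end

section

set_option autoImplicit false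

set_option maxRecDepth 100000

/-!
# The certificate: data
-/

namespace Pool.Agent.Work.MP_122e00_nt.Sharp.Cx

/-- data -/
noncomputable def tr25 : Ct := (.dc 0 9 1 (.ct 0 5 1 1 1 (.ct 2 5 1 1 1 (.ct 3 5 1 1 1 (.ct 1 4
  1 1 1 (.dc 1 3 0 (.ct 1 5 1 1 1 (.ct 4 5 1 1 1 (.ct 5 6 2 1 1 (.dc 2 15 1 (.lf 2 10 224)) (.dc
  2 15 0 (.lf 2 8 224))) (.dc 2 15 1 (.lf 2 10 192))) (.dc 2 15 1 (.lf 2 11 192)))) (.ct 4 5 1 1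
  1 (.ct 1 6 1 1 1 (.dc 1 3 0 (.ct 1 5 1 2 1 (.ct 5 6 2 1 1 (.dc 2 15 1 (.lf 2 10 256)) (.dc 2 15
  0 (.lf 2 7 256))) (.dc 2 15 1 (.lf 2 11 256)))) (.dc 1 3 1 (.ct 5 6 2 1 1 (.dc 2 15 1 (.lf 2 11
  256)) (.dc 2 15 0 (.lf 2 7 224))))) (.dc 2 15 1 (.ct 1 6 1 1 1 (.dc 1 3 0 (.lf 2 11 224)) (.dc
  1 3 1 (.lf 2 11 224)))))) (.dc 2 15 1 (.ct 1 4 1 1 1 (.dc 1 3 0 (.lf 2 9 176)) (.ct 1 6 1 1 1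
  (.dc 1 3 0 (.lf 2 9 208)) (.dc 1 3 1 (.lf 2 10 208)))))) (.dc 2 15 1 (.ct 1 4 1 1 1 (.dc 1 3 0
  (.lf 2 9 176)) (.ct 1 6 1 1 1 (.dc 1 3 0 (.lf 2 9 208)) (.dc 1 3 1 (.lf 2 10 208)))))) (.dc 2
  15 1 (.ct 1 4 1 1 1 (.dc 1 3 0 (.lf 2 9 176)) (.ct 1 6 1 1 1 (.dc 1 3 0 (.lf 2 9 208)) (.dc 1 3
  1 (.lf 2 8 192)))))))

theorem dt25 : le (run cls4 4 tr25 [[2, 1, 1, 1, 2, 1, 0], [1, 1, 0, 0, 1, 1, 0], [3, 2, 2, 1,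
  4, 3, 1], [1, 1, 1, 1, 1, 1, 0], [1, 1, 1, 1, 2, 1, 1], [0, 0, 0, 0, 1, 1, 0], [3, 2, 2, 2, 4,
  3, 2]] 140737487830527 [50, 74, 74, 98, 80, 128, 182]) 3391099718071 = true := by decide +kernel

/-- data -/
noncomputable def tr26 : Ct := (.dc 2 7 1 (.dc 2 15 1 (.ct 0 2 1 1 1 (.dc 0 9 0 (.ct 1 4 1 1 1
  (.dc 1 3 0 (.ct 2 3 1 1 1 (.ct 3 5 1 1 1 (.lf 3 8 176) (.lf 2 9 176)) (.lf 3 8 176))) (.ct 1 6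
  1 1 1 (.dc 1 3 0 (.ct 2 3 1 1 1 (.ct 3 5 1 1 1 (.lf 3 7 208) (.lf 2 9 192)) (.lf 3 7 208)))
  (.dc 1 3 1 (.ct 2 3 1 1 1 (.ct 3 5 1 1 1 (.lf 3 9 192) (.lf 2 10 192)) (.lf 3 9 192)))))) (.ct
  0 5 1 1 1 (.dc 0 9 0 (.ct 1 4 1 1 1 (.dc 1 3 0 (.ct 3 5 1 1 1 (.lf 3 8 192) (.lf 2 9 192)))
  (.ct 1 6 1 1 1 (.dc 1 3 0 (.ct 3 5 1 1 1 (.lf 3 7 208) (.lf 2 9 208))) (.dc 1 3 1 (.ct 3 5 1 1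
  1 (.lf 3 9 208) (.lf 2 10 208)))))) (.dc 0 9 1 (.ct 1 4 1 1 1 (.dc 1 3 0 (.lf 2 10 192)) (.ct 1
  6 1 1 1 (.dc 1 3 0 (.lf 2 10 224)) (.dc 1 3 1 (.lf 2 9 208)))))))))

theorem dt26 : le (run cls4 4 tr26 [[2, 1, 1, 1, 2, 1, 0], [1, 1, 0, 0, 1, 1, 0], [1, 1, 1, 0,
  1, 1, 1], [1, 1, 1, 1, 1, 1, 0], [1, 1, 1, 1, 2, 1, 1], [1, 1, 1, 0, 2, 2, 1], [3, 2, 2, 2, 4,
  3, 2]] 140187732016639 [50, 74, 74, 98, 80, 128, 182]) 4433846057445 = true := by decide +kernel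

end Pool.Agent.Work.MP_122e00_nt.Sharp.Cx

end

section

set_option autoImplicit false

set_option maxRecDepth 100000

/-!
# The certificate: data
-/

namespace Pool.Agent.Work.MP_122e00_nt.Sharp.Cx

/-- data -/
noncomputable def tr27 : Ct := (.ct 3 5 1 1 1 (.ct 0 3 1 1 1 (.ct 1 4 1 1 1 (.dc 1 3 0 (.ct 1 5
  1 1 1 (.ct 4 5 1 1 1 (.ct 5 6 2 1 1 (.dc 2 15 1 (.lf 2 10 224)) (.dc 2 15 0 (.lf 2 8 224)))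
  (.dc 2 15 1 (.lf 2 10 192))) (.dc 2 15 1 (.lf 2 11 192)))) (.ct 4 5 1 1 1 (.ct 1 6 1 1 1 (.dc 1
  3 0 (.ct 1 5 1 2 1 (.ct 5 6 2 1 1 (.dc 2 15 1 (.lf 2 10 256)) (.dc 2 15 0 (.lf 2 7 256))) (.dc
  2 15 1 (.lf 2 11 256)))) (.dc 1 3 1 (.ct 5 6 2 1 1 (.dc 2 15 1 (.lf 2 10 256)) (.dc 2 15 0 (.lf
  2 7 224))))) (.dc 2 15 1 (.ct 1 6 1 1 1 (.dc 1 3 0 (.lf 2 10 224)) (.dc 1 3 1 (.lf 2 11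
  224)))))) (.ct 1 4 1 1 1 (.dc 1 3 0 (.ct 1 5 1 1 1 (.ct 4 5 1 1 1 (.ct 5 6 2 1 1 (.dc 2 15 1
  (.lf 3 10 224)) (.dc 2 15 0 (.lf 3 7 224))) (.dc 2 15 1 (.lf 3 10 192))) (.dc 2 15 1 (.lf 3 10
  192)))) (.ct 4 5 1 1 1 (.ct 1 6 1 1 1 (.dc 1 3 0 (.ct 1 5 1 2 1 (.ct 5 6 2 1 1 (.dc 2 15 1 (.lf
  3 10 256)) (.dc 2 15 0 (.lf 3 6 256))) (.dc 2 15 1 (.lf 3 11 256)))) (.dc 1 3 1 (.ct 5 6 2 1 1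
  (.dc 2 15 1 (.lf 3 12 256)) (.dc 2 15 0 (.lf 3 8 224))))) (.dc 2 15 1 (.ct 1 6 1 1 1 (.dc 1 3 0
  (.lf 3 10 224)) (.dc 1 3 1 (.lf 3 12 224))))))) (.dc 2 15 1 (.ct 1 4 1 1 1 (.dc 1 3 0 (.ct 0 3
  1 1 1 (.lf 2 10 176) (.ct 0 5 1 1 1 (.lf 2 9 176) (.lf 3 10 176)))) (.ct 1 6 1 1 1 (.dc 1 3 0
  (.ct 0 3 1 1 1 (.lf 2 10 208) (.ct 0 5 1 1 1 (.lf 2 9 192) (.lf 3 10 192)))) (.dc 1 3 1 (.ct 0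
  3 1 1 1 (.lf 2 9 208) (.ct 0 5 1 1 1 (.lf 2 10 192) (.lf 3 11 192))))))))

theorem dt27 : le (run cls4 4 tr27 [[2, 1, 1, 0, 3, 2, 1], [1, 1, 0, 0, 1, 1, 0], [3, 2, 2, 1,
  5, 4, 1], [2, 1, 1, 1, 2, 1, 0], [1, 1, 1, 1, 2, 1, 1], [0, 0, 0, 0, 1, 1, 0], [3, 2, 2, 2, 4,
  3, 2]] 140737487831039 [40, 100, 100, 100, 70, 154, 196]) 1823049115386 = true := by
  decide +kernel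

/-- data -/
noncomputable def tr28 : Ct := (.dc 2 15 1 (.ct 1 4 1 1 1 (.dc 1 3 0 (.ct 0 3 1 1 1 (.lf 2 10
  160) (.lf 3 10 176))) (.ct 1 6 1 1 1 (.dc 1 3 0 (.ct 0 3 1 1 1 (.lf 2 10 192) (.lf 3 10 208)))
  (.dc 1 3 1 (.ct 0 3 1 1 1 (.lf 2 10 192) (.lf 3 12 208))))))

theorem dt28 : le (run cls4 4 tr28 [[2, 1, 1, 0, 3, 2, 1], [1, 1, 0, 0, 1, 1, 0], [3, 2, 2, 1,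
  4, 3, 1], [2, 1, 1, 1, 2, 1, 0], [1, 1, 1, 1, 2, 1, 1], [3, 2, 2, 1, 5, 4, 1], [3, 2, 2, 2, 4,
  3, 2]] 140737487831039 [40, 100, 100, 100, 70, 154, 196]) 3384738313317 = true := by
  decide +kernel

/-- data -/
noncomputable def tr29 : Ct := (.dc 0 9 0 (.ct 3 5 1 1 1 (.ct 1 4 1 1 1 (.dc 1 3 0 (.ct 1 5 1 1
  1 (.ct 4 5 1 1 1 (.ct 5 6 2 1 1 (.dc 2 15 1 (.lf 3 7 224)) (.dc 2 15 0 (.lf 3 6 224))) (.dc 2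
  15 1 (.lf 3 7 192))) (.dc 2 15 1 (.lf 3 5 192)))) (.ct 4 5 1 1 1 (.ct 1 6 1 1 1 (.dc 1 3 0 (.ct
  1 5 1 2 1 (.ct 5 6 2 1 1 (.dc 2 15 1 (.lf 3 6 256)) (.dc 2 15 0 (.lf 3 5 256))) (.dc 2 15 1
  (.lf 3 5 256)))) (.dc 1 3 1 (.ct 5 6 2 1 1 (.dc 2 15 1 (.lf 3 10 256)) (.dc 2 15 0 (.lf 3 9
  224))))) (.dc 2 15 1 (.ct 1 6 1 1 1 (.dc 1 3 0 (.lf 3 4 224)) (.dc 1 3 1 (.lf 3 10 224))))))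
  (.dc 2 15 1 (.ct 1 4 1 1 1 (.dc 1 3 0 (.lf 3 6 176)) (.ct 1 6 1 1 1 (.dc 1 3 0 (.lf 3 5 208))
  (.dc 1 3 1 (.lf 3 9 208)))))))

theorem dt29 : le (run cls4 4 tr29 [[2, 1, 1, 0, 3, 2, 1], [1, 1, 0, 0, 1, 1, 0], [1, 1, 1, 0,
  2, 2, 1], [3, 2, 2, 1, 4, 3, 1], [1, 1, 1, 1, 2, 1, 1], [0, 0, 0, 0, 1, 1, 0], [3, 2, 2, 2, 4,
  3, 2]] 140737487830527 [36, 72, 72, 96, 66, 126, 168]) 1401415840006 = true := by decide +kernel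

/-- data -/
noncomputable def tr30 : Ct := (.dc 2 7 1 (.dc 2 15 1 (.ct 2 3 1 1 1 (.ct 3 5 1 1 1 (.dc 0 9 0
  (.ct 1 4 1 1 1 (.dc 1 3 0 (.lf 3 8 208)) (.ct 1 6 1 1 1 (.dc 1 3 0 (.lf 3 7 240)) (.dc 1 3 1
  (.lf 3 9 224))))) (.dc 0 9 1 (.ct 1 4 1 1 1 (.dc 1 3 0 (.ct 0 3 1 1 1 (.lf 2 10 192) (.lf 3 9
  208))) (.ct 1 6 1 1 1 (.dc 1 3 0 (.ct 0 3 1 1 1 (.lf 2 10 224) (.lf 3 9 240))) (.dc 1 3 1 (.ct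
  0 3 1 1 1 (.lf 2 9 224) (.lf 3 11 240))))))) (.dc 0 9 0 (.ct 1 4 1 1 1 (.dc 1 3 0 (.lf 3 8
  192)) (.ct 1 6 1 1 1 (.dc 1 3 0 (.lf 3 8 224)) (.dc 1 3 1 (.lf 3 9 208))))))))

theorem dt30 : le (run cls4 4 tr30 [[2, 1, 1, 0, 3, 2, 1], [1, 1, 0, 0, 1, 1, 0], [1, 1, 1, 0,
  1, 1, 1], [2, 1, 1, 1, 2, 1, 0], [1, 1, 1, 1, 2, 1, 1], [1, 1, 1, 0, 2, 2, 1], [3, 2, 2, 2, 4,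
  3, 2]] 140187732016639 [36, 72, 72, 96, 66, 126, 168]) 2211335139361 = true := by decide +kernel

end Pool.Agent.Work.MP_122e00_nt.Sharp.Cx

end
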