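import Pool.Agent.Work.MP_122e00_nt.Bd.B03

/-! Bundle of small proof modules (one section per former module). -/

section

set_option autoImplicit false

set_option maxRecDepth 100000

/-!
# The certificate: data
-/

namespace Pool.Agent.Work.MP_122e00_nt.Sharp.Cx

/-- data -/
noncomputable def tr31 : Ct := (.dc 2 7 1 (.dc 2 15 1 (.ct 2 3 1 1 1 (.dc 0 9 1 (.ct 1 4 1 1 1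
  (.dc 1 3 0 (.ct 0 3 1 1 1 (.ct 3 5 1 1 1 (.lf 3 9 208) (.lf 2 9 192)) (.lf 3 10 208))) (.ct 1 6
  1 1 1 (.dc 1 3 0 (.ct 0 3 1 1 1 (.ct 3 5 1 1 1 (.lf 3 9 240) (.lf 2 9 224)) (.lf 3 10 240)))
  (.dc 1 3 1 (.ct 0 3 1 1 1 (.ct 3 5 1 1 1 (.lf 3 10 240) (.lf 2 8 224)) (.lf 3 10 224)))))) (.dc
  0 9 0 (.ct 1 4 1 1 1 (.dc 1 3 0 (.lf 3 10 192)) (.ct 1 6 1 1 1 (.dc 1 3 0 (.lf 3 9 224)) (.dc 1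
  3 1 (.lf 3 10 208))))))))

theorem dt31 : le (run cls4 4 tr31 [[2, 1, 1, 0, 2, 1, 1], [1, 1, 0, 0, 1, 1, 0], [1, 1, 1, 0,
  1, 1, 1], [2, 1, 1, 1, 2, 1, 0], [1, 1, 1, 1, 2, 1, 1], [2, 1, 1, 0, 3, 2, 1], [3, 2, 2, 2, 4,
  3, 2]] 140187732016639 [36, 72, 72, 96, 66, 126, 168]) 2279625515332 = true := by decide +kernel

/-- data -/
noncomputable def tr32 : Ct := (.dc 0 1 0 (.ct 0 1 1 1 1 (.ct 0 5 1 1 1 (.ct 1 4 1 1 1 (.dc 1 3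
  0 (.ct 1 5 1 1 1 (.ct 4 5 1 1 1 (.ct 5 6 2 1 1 (.dc 2 15 1 (.lf 2 10 240)) (.dc 2 15 0 (.lf 2 7
  208))) (.dc 2 15 1 (.lf 2 10 208))) (.dc 2 15 1 (.lf 2 10 208)))) (.ct 4 5 1 1 1 (.ct 1 6 1 1 1
  (.dc 1 3 0 (.ct 1 5 1 2 1 (.ct 5 6 2 1 1 (.dc 2 15 1 (.lf 2 10 272)) (.dc 2 15 0 (.lf 2 7
  240))) (.dc 2 15 1 (.lf 2 10 272)))) (.dc 1 3 1 (.ct 5 6 2 1 1 (.dc 2 15 1 (.lf 2 10 240)) (.dc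
  2 15 0 (.lf 2 7 208))))) (.dc 2 15 1 (.ct 1 6 1 1 1 (.dc 1 3 0 (.lf 2 10 240)) (.dc 1 3 1 (.lf
  2 10 224)))))) (.dc 2 15 1 (.ct 1 4 1 1 1 (.dc 1 3 0 (.lf 2 9 208)) (.ct 1 6 1 1 1 (.dc 1 3 0
  (.lf 2 9 240)) (.dc 1 3 1 (.lf 2 10 224)))))) (.dc 1 3 0 (.ct 0 5 1 1 1 (.ct 1 5 1 1 1 (.ct 4 5
  1 1 1 (.ct 5 6 2 1 1 (.dc 2 15 1 (.lf 2 9 208)) (.dc 2 15 0 (.lf 2 7 192))) (.dc 2 15 1 (.lf 2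
  9 176))) (.dc 2 15 1 (.lf 2 9 208))) (.dc 2 15 1 (.lf 2 8 192))))))

theorem dt32 : le (run cls4 4 tr32 [[2, 1, 1, 1, 3, 1, 1], [1, 1, 0, 0, 1, 1, 0], [4, 2, 2, 1,
  6, 4, 1], [2, 1, 1, 1, 3, 2, 0], [1, 1, 1, 1, 2, 1, 1], [0, 0, 0, 0, 1, 1, 0], [3, 2, 2, 2, 4,
  3, 2]] 140737487831037 [40, 100, 100, 100, 70, 154, 196]) 2464940413593 = true := by
  decide +kernel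

/-- data -/
noncomputable def tr33 : Ct := (.dc 1 3 0 (.ct 1 5 1 1 1 (.ct 4 5 1 1 1 (.ct 0 6 2 1 1 (.dc 0 1
  0 (.ct 0 5 1 2 1 (.ct 5 6 2 1 1 (.dc 2 15 1 (.lf 2 8 240)) (.dc 2 15 0 (.lf 2 6 224))) (.dc 2
  15 1 (.lf 2 8 240)))) (.dc 0 1 1 (.ct 5 6 2 1 1 (.dc 2 15 1 (.lf 2 13 224)) (.dc 2 15 0 (.lf 2
  11 208))))) (.dc 2 15 1 (.ct 0 6 2 1 1 (.dc 0 1 0 (.lf 2 7 208)) (.dc 0 1 1 (.lf 2 13 192)))))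
  (.dc 2 15 1 (.ct 0 6 2 1 1 (.dc 0 1 0 (.lf 2 6 240)) (.dc 0 1 1 (.lf 2 13 208))))))

theorem dt33 : le (run cls4 4 tr33 [[1, 0, 0, 0, 1, 0, 0], [3, 2, 1, 1, 4, 2, 1], [4, 2, 2, 1,
  6, 4, 1], [2, 1, 1, 1, 3, 2, 0], [2, 1, 1, 1, 3, 1, 1], [0, 0, 0, 0, 1, 1, 0], [3, 2, 2, 2, 4,
  3, 2]] 140737487831037 [40, 100, 100, 100, 70, 154, 196]) 1229888244753 = true := by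
  decide +kernel

end Pool.Agent.Work.MP_122e00_nt.Sharp.Cx

end

section

set_option autoImplicit false

set_option maxRecDepth 100000

/-!
# The certificate: data
-/

namespace Pool.Agent.Work.MP_122e00_nt.Sharp.Cx

/-- data -/
noncomputable def tr34 : Ct := (.ct 0 6 2 1 1 (.dc 0 1 0 (.ct 0 1 1 1 1 (.ct 0 5 1 2 1 (.ct 1 6
  1 1 1 (.dc 1 3 0 (.ct 1 5 1 2 1 (.ct 5 6 2 1 1 (.dc 2 15 1 (.lf 2 9 240)) (.dc 2 15 0 (.lf 2 6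
  224))) (.dc 2 15 1 (.lf 2 10 240)))) (.dc 1 3 1 (.ct 5 6 2 1 1 (.dc 2 15 1 (.lf 2 9 224)) (.dc
  2 15 0 (.lf 2 6 208))))) (.dc 2 15 1 (.ct 1 6 1 1 1 (.dc 1 3 0 (.lf 2 8 240)) (.dc 1 3 1 (.lf 2
  9 224))))) (.dc 1 3 0 (.ct 0 5 1 2 1 (.ct 1 5 1 2 1 (.ct 5 6 2 1 1 (.dc 2 15 1 (.lf 2 8 240))
  (.dc 2 15 0 (.lf 2 6 224))) (.dc 2 15 1 (.lf 2 8 208))) (.dc 2 15 1 (.lf 2 7 240)))))) (.dc 0 1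
  1 (.ct 1 6 1 1 1 (.dc 1 3 0 (.ct 1 5 1 2 1 (.ct 5 6 2 1 1 (.dc 2 15 1 (.lf 2 13 224)) (.dc 2 15
  0 (.lf 2 11 208))) (.dc 2 15 1 (.lf 2 13 224)))) (.dc 1 3 1 (.ct 5 6 2 1 1 (.dc 2 15 1 (.lf 2
  13 208)) (.dc 2 15 0 (.lf 2 11 160)))))))

theorem dt34 : le (run cls4 4 tr34 [[1, 0, 0, 0, 1, 0, 0], [1, 1, 0, 0, 1, 1, 0], [4, 2, 2, 1,
  6, 4, 1], [2, 1, 1, 1, 3, 2, 0], [3, 2, 1, 1, 5, 3, 1], [0, 0, 0, 0, 1, 1, 0], [3, 2, 2, 2, 4,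
  3, 2]] 140737487831037 [40, 100, 100, 100, 70, 154, 196]) 429345668527 = true := by
  decide +kernel

/-- data -/
noncomputable def tr35 : Ct := (.dc 2 15 1 (.ct 0 6 2 1 1 (.dc 0 1 0 (.ct 0 1 1 1 1 (.ct 1 6 1
  1 1 (.dc 1 3 0 (.lf 2 8 272)) (.dc 1 3 1 (.lf 2 9 240))) (.dc 1 3 0 (.lf 2 6 272)))) (.dc 0 1 1
  (.ct 1 6 1 1 1 (.dc 1 3 0 (.lf 2 13 240)) (.dc 1 3 1 (.lf 2 13 208))))))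

theorem dt35 : le (run cls4 4 tr35 [[1, 0, 0, 0, 1, 0, 0], [1, 1, 0, 0, 1, 1, 0], [4, 2, 2, 1,
  6, 4, 1], [2, 1, 1, 1, 3, 2, 0], [3, 2, 1, 1, 4, 2, 1], [3, 2, 1, 1, 5, 3, 1], [3, 2, 2, 2, 4,
  3, 2]] 140737487831037 [40, 100, 100, 100, 70, 154, 196]) 886061624763 = true := by
  decide +kernel

/-- data -/
noncomputable def tr36 : Ct := (.ct 0 4 1 1 1 (.dc 0 1 0 (.ct 0 1 1 1 1 (.ct 0 5 1 1 1 (.ct 1 4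
  1 1 1 (.dc 1 3 0 (.ct 1 5 1 1 1 (.ct 4 5 1 1 1 (.ct 5 6 2 1 1 (.dc 2 15 1 (.lf 3 9 240)) (.dc 2
  15 0 (.lf 3 6 208))) (.dc 2 15 1 (.lf 3 9 208))) (.dc 2 15 1 (.lf 3 10 208)))) (.ct 4 5 1 1 1
  (.ct 1 6 1 1 1 (.dc 1 3 0 (.ct 1 5 1 2 1 (.ct 5 6 2 1 1 (.dc 2 15 1 (.lf 3 9 272)) (.dc 2 15 0
  (.lf 3 6 240))) (.dc 2 15 1 (.lf 3 10 272)))) (.dc 1 3 1 (.ct 5 6 2 1 1 (.dc 2 15 1 (.lf 3 11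
  240)) (.dc 2 15 0 (.lf 3 8 208))))) (.dc 2 15 1 (.ct 1 6 1 1 1 (.dc 1 3 0 (.lf 3 9 240)) (.dc 1
  3 1 (.lf 3 11 224)))))) (.dc 2 15 1 (.ct 1 4 1 1 1 (.dc 1 3 0 (.lf 3 9 208)) (.ct 1 6 1 1 1
  (.dc 1 3 0 (.lf 3 9 240)) (.dc 1 3 1 (.lf 3 11 224)))))) (.dc 1 3 0 (.ct 0 5 1 1 1 (.ct 1 5 1 1
  1 (.ct 4 5 1 1 1 (.ct 5 6 2 1 1 (.dc 2 15 1 (.lf 3 8 208)) (.dc 2 15 0 (.lf 3 6 192))) (.dc 2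
  15 1 (.lf 3 8 176))) (.dc 2 15 1 (.lf 3 8 208))) (.dc 2 15 1 (.lf 3 8 192)))))) (.ct 1 4 1 1 1
  (.dc 1 3 0 (.ct 1 5 1 1 1 (.ct 4 5 1 1 1 (.ct 0 6 2 1 1 (.dc 0 1 0 (.ct 0 5 1 2 1 (.ct 5 6 2 1
  1 (.dc 2 15 1 (.lf 3 7 240)) (.dc 2 15 0 (.lf 3 5 224))) (.dc 2 15 1 (.lf 3 7 240)))) (.dc 0 1
  1 (.ct 5 6 2 1 1 (.dc 2 15 1 (.lf 3 13 224)) (.dc 2 15 0 (.lf 3 11 192))))) (.dc 2 15 1 (.ct 0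
  6 2 1 1 (.dc 0 1 0 (.lf 3 6 208)) (.dc 0 1 1 (.lf 3 13 192))))) (.dc 2 15 1 (.ct 0 6 2 1 1 (.dc
  0 1 0 (.lf 3 6 240)) (.dc 0 1 1 (.lf 3 13 208)))))) (.ct 4 5 1 1 1 (.ct 0 6 2 1 1 (.dc 0 1 0
  (.ct 0 1 1 1 1 (.ct 0 5 1 2 1 (.ct 1 6 1 1 1 (.dc 1 3 0 (.ct 1 5 1 2 1 (.ct 5 6 2 1 1 (.dc 2 15
  1 (.lf 3 8 240)) (.dc 2 15 0 (.lf 3 5 224))) (.dc 2 15 1 (.lf 3 9 240)))) (.dc 1 3 1 (.ct 5 6 2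
  1 1 (.dc 2 15 1 (.lf 3 11 224)) (.dc 2 15 0 (.lf 3 7 192))))) (.dc 2 15 1 (.ct 1 6 1 1 1 (.dc 1
  3 0 (.lf 3 8 240)) (.dc 1 3 1 (.lf 3 11 224))))) (.dc 1 3 0 (.ct 0 5 1 2 1 (.ct 1 5 1 2 1 (.ct
  5 6 2 1 1 (.dc 2 15 1 (.lf 3 7 240)) (.dc 2 15 0 (.lf 3 4 224))) (.dc 2 15 1 (.lf 3 7 208)))
  (.dc 2 15 1 (.lf 3 6 240)))))) (.dc 0 1 1 (.ct 1 6 1 1 1 (.dc 1 3 0 (.ct 1 5 1 2 1 (.ct 5 6 2 1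
  1 (.dc 2 15 1 (.lf 3 13 224)) (.dc 2 15 0 (.lf 3 11 192))) (.dc 2 15 1 (.lf 3 13 224)))) (.dc 1
  3 1 (.ct 5 6 2 1 1 (.dc 2 15 1 (.lf 3 12 208)) (.dc 2 15 0 (.lf 3 11 160))))))) (.dc 2 15 1
  (.ct 0 6 2 1 1 (.dc 0 1 0 (.ct 0 1 1 1 1 (.ct 1 6 1 1 1 (.dc 1 3 0 (.lf 3 7 272)) (.dc 1 3 1
  (.lf 3 10 240))) (.dc 1 3 0 (.lf 3 6 272)))) (.dc 0 1 1 (.ct 1 6 1 1 1 (.dc 1 3 0 (.lf 3 13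
  240)) (.dc 1 3 1 (.lf 3 12 208)))))))))

theorem dt36 : le (run cls4 4 tr36 [[1, 0, 0, 0, 1, 0, 0], [1, 1, 0, 0, 1, 1, 0], [2, 1, 1, 0,
  3, 2, 1], [4, 2, 2, 1, 6, 4, 1], [1, 1, 1, 1, 2, 1, 1], [0, 0, 0, 0, 1, 1, 0], [3, 2, 2, 2, 4,
  3, 2]] 140737487831037 [40, 100, 100, 100, 70, 154, 196]) 703262408566 = true := by
  decide +kernel

end Pool.Agent.Work.MP_122e00_nt.Sharp.Cx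

end

section

set_option autoImplicit false

set_option maxRecDepth 100000

/-!
# The certificate: data
-/

namespace Pool.Agent.Work.MP_122e00_nt.Sharp.Cx

/-- data -/
noncomputable def tr37 : Ct := (.ct 0 4 1 1 1 (.dc 0 1 0 (.ct 0 1 1 1 1 (.ct 1 4 1 1 1 (.dc 1 3
  0 (.lf 2 9 192)) (.ct 1 6 1 1 1 (.dc 1 3 0 (.lf 2 9 224)) (.dc 1 3 1 (.lf 2 8 224)))) (.dc 1 3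
  0 (.lf 2 9 192)))) (.ct 1 4 1 1 1 (.dc 1 3 0 (.ct 0 6 2 1 1 (.dc 0 1 0 (.lf 2 8 224)) (.dc 0 1
  1 (.lf 2 13 224)))) (.ct 0 6 2 1 1 (.dc 0 1 0 (.ct 0 1 1 1 1 (.ct 1 6 1 1 1 (.dc 1 3 0 (.lf 2 8
  256)) (.dc 1 3 1 (.lf 2 7 256))) (.dc 1 3 0 (.lf 2 8 256)))) (.dc 0 1 1 (.ct 1 6 1 1 1 (.dc 1 3
  0 (.lf 2 13 256)) (.dc 1 3 1 (.lf 2 13 224)))))))

theorem dt37 : le (run cls4 4 tr37 [[1, 0, 0, 0, 1, 0, 0], [1, 1, 0, 0, 1, 1, 0], [4, 2, 2, 1,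
  5, 3, 1], [2, 1, 1, 1, 2, 1, 0], [1, 1, 1, 1, 2, 1, 1], [2, 1, 1, 1, 3, 2, 0], [3, 2, 2, 2, 4,
  3, 2]] 281474976186365 [41, 101, 101, 101, 77, 161, 197]) 3003933581248 = true := by
  decide +kernel

/-- data -/
noncomputable def tr38 : Ct := (.ct 2 5 1 1 1 (.ct 0 4 1 1 1 (.dc 0 1 0 (.ct 0 1 1 1 1 (.ct 1 4
  1 1 1 (.dc 1 3 0 (.lf 2 8 192)) (.ct 1 6 1 1 1 (.dc 1 3 0 (.lf 2 8 224)) (.dc 1 3 1 (.lf 2 9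
  224)))) (.dc 1 3 0 (.lf 2 7 192)))) (.ct 1 4 1 1 1 (.dc 1 3 0 (.ct 0 6 2 1 1 (.dc 0 1 0 (.lf 2
  6 224)) (.dc 0 1 1 (.lf 2 13 224)))) (.ct 0 6 2 1 1 (.dc 0 1 0 (.ct 0 1 1 1 1 (.ct 1 6 1 1 1
  (.dc 1 3 0 (.lf 2 7 256)) (.dc 1 3 1 (.lf 2 8 256))) (.dc 1 3 0 (.lf 2 6 256)))) (.dc 0 1 1
  (.ct 1 6 1 1 1 (.dc 1 3 0 (.lf 2 13 256)) (.dc 1 3 1 (.lf 2 13 224))))))) (.ct 0 4 1 1 1 (.dc 0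
  1 0 (.ct 0 1 1 1 1 (.ct 1 4 1 1 1 (.dc 1 3 0 (.lf 3 9 192)) (.ct 1 6 1 1 1 (.dc 1 3 0 (.lf 3 8
  224)) (.dc 1 3 1 (.lf 3 10 224)))) (.dc 1 3 0 (.lf 3 7 192)))) (.ct 1 4 1 1 1 (.dc 1 3 0 (.ct 0
  6 2 1 1 (.dc 0 1 0 (.lf 3 5 224)) (.dc 0 1 1 (.lf 3 13 224)))) (.ct 0 6 2 1 1 (.dc 0 1 0 (.ct 0
  1 1 1 1 (.ct 1 6 1 1 1 (.dc 1 3 0 (.lf 3 7 256)) (.dc 1 3 1 (.lf 3 10 256))) (.dc 1 3 0 (.lf 3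
  6 256)))) (.dc 0 1 1 (.ct 1 6 1 1 1 (.dc 1 3 0 (.lf 3 13 256)) (.dc 1 3 1 (.lf 3 12 224))))))))

theorem dt38 : le (run cls4 4 tr38 [[1, 0, 0, 0, 1, 0, 0], [1, 1, 0, 0, 1, 1, 0], [2, 1, 1, 0,
  3, 2, 1], [4, 2, 2, 1, 5, 3, 1], [1, 1, 1, 1, 2, 1, 1], [2, 1, 1, 1, 3, 2, 0], [3, 2, 2, 2, 4,
  3, 2]] 281474976186365 [41, 101, 101, 101, 77, 161, 197]) 1634441918891 = true := by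
  decide +kernel

end Pool.Agent.Work.MP_122e00_nt.Sharp.Cx

end

section

set_option autoImplicit false

set_option maxRecDepth 100000

/-!
# The certificate: data
-/

namespace Pool.Agent.Work.MP_122e00_nt.Sharp.Cx

/-- data -/
noncomputable def tr39 : Ct := (.dc 2 7 1 (.dc 2 15 1 (.ct 2 3 1 1 1 (.ct 3 5 1 1 1 (.ct 0 4 1
  1 1 (.dc 0 1 0 (.ct 0 1 1 1 1 (.ct 1 4 1 1 1 (.dc 1 3 0 (.lf 3 9 208)) (.ct 1 6 1 1 1 (.dc 1 3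
  0 (.lf 3 9 240)) (.dc 1 3 1 (.lf 3 9 240)))) (.dc 1 3 0 (.lf 3 8 208)))) (.ct 1 4 1 1 1 (.dc 1
  3 0 (.ct 0 6 2 1 1 (.dc 0 1 0 (.lf 3 7 240)) (.dc 0 1 1 (.lf 3 12 240)))) (.ct 0 6 2 1 1 (.dc 0
  1 0 (.ct 0 1 1 1 1 (.ct 1 6 1 1 1 (.dc 1 3 0 (.lf 3 8 272)) (.dc 1 3 1 (.lf 3 9 272))) (.dc 1 3
  0 (.lf 3 7 272)))) (.dc 0 1 1 (.ct 1 6 1 1 1 (.dc 1 3 0 (.lf 3 12 272)) (.dc 1 3 1 (.lf 3 12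
  240))))))) (.ct 0 4 1 1 1 (.dc 0 1 0 (.ct 0 1 1 1 1 (.ct 1 4 1 1 1 (.dc 1 3 0 (.lf 2 9 192))
  (.ct 1 6 1 1 1 (.dc 1 3 0 (.lf 2 9 224)) (.dc 1 3 1 (.lf 2 8 224)))) (.dc 1 3 0 (.lf 2 9
  208)))) (.ct 1 4 1 1 1 (.dc 1 3 0 (.ct 0 6 2 1 1 (.dc 0 1 0 (.lf 2 8 240)) (.dc 0 1 1 (.lf 2 13
  240)))) (.ct 0 6 2 1 1 (.dc 0 1 0 (.ct 0 1 1 1 1 (.ct 1 6 1 1 1 (.dc 1 3 0 (.lf 2 8 256)) (.dc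
  1 3 1 (.lf 2 7 256))) (.dc 1 3 0 (.lf 2 8 256)))) (.dc 0 1 1 (.ct 1 6 1 1 1 (.dc 1 3 0 (.lf 2
  13 256)) (.dc 1 3 1 (.lf 2 13 224)))))))) (.ct 0 4 1 1 1 (.dc 0 1 0 (.ct 0 1 1 1 1 (.ct 1 4 1 1
  1 (.dc 1 3 0 (.lf 3 10 208)) (.ct 1 6 1 1 1 (.dc 1 3 0 (.lf 3 9 240)) (.dc 1 3 1 (.lf 3 10
  224)))) (.dc 1 3 0 (.lf 3 9 208)))) (.ct 1 4 1 1 1 (.dc 1 3 0 (.ct 0 6 2 1 1 (.dc 0 1 0 (.lf 3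
  7 240)) (.dc 0 1 1 (.lf 3 12 208)))) (.ct 0 6 2 1 1 (.dc 0 1 0 (.ct 0 1 1 1 1 (.ct 1 6 1 1 1
  (.dc 1 3 0 (.lf 3 8 272)) (.dc 1 3 1 (.lf 3 9 240))) (.dc 1 3 0 (.lf 3 7 272)))) (.dc 0 1 1
  (.ct 1 6 1 1 1 (.dc 1 3 0 (.lf 3 12 240)) (.dc 1 3 1 (.lf 3 12 208))))))))))

theorem dt39 : le (run cls4 4 tr39 [[1, 0, 0, 0, 1, 0, 0], [1, 1, 0, 0, 1, 1, 0], [2, 1, 1, 0,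
  2, 1, 1], [2, 1, 1, 1, 2, 1, 0], [1, 1, 1, 1, 2, 1, 1], [2, 1, 1, 0, 3, 2, 1], [3, 2, 2, 2, 4,
  3, 2]] 140187732017149 [40, 100, 100, 100, 70, 154, 196]) 1342592188854 = true := by
  decide +kernel

/-- data -/
noncomputable def tr40 : Ct := (.dc 2 3 0 (.ct 0 3 1 1 1 (.dc 1 14 1 (.ct 5 6 1 1 1 (.dc 0 3 0
  (.dc 1 3 0 (.ct 1 3 1 1 1 (.ct 2 3 1 1 1 (.ct 3 5 1 1 1 (.lf 3 7 192) (.ct 3 6 1 1 1 (.lf 3 6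
  176) (.lf 2 11 176))) (.lf 3 7 192)) (.lf 3 7 192)))) (.dc 0 3 1 (.ct 1 3 1 1 1 (.ct 0 5 1 1 1
  (.ct 4 5 1 1 1 (.dc 1 3 1 (.ct 2 3 1 1 1 (.ct 3 6 1 1 1 (.lf 3 10 224) (.lf 2 11 192)) (.lf 3
  10 192))) (.dc 1 3 0 (.ct 2 3 1 1 1 (.ct 3 6 1 1 1 (.lf 3 7 224) (.lf 2 10 208)) (.lf 3 7
  208)))) (.dc 1 3 0 (.ct 2 3 1 1 1 (.ct 3 6 1 1 1 (.lf 3 7 224) (.lf 2 10 208)) (.lf 3 8 208))))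
  (.ct 0 5 1 1 1 (.ct 4 5 1 1 1 (.dc 1 3 1 (.lf 3 11 192)) (.dc 1 3 0 (.lf 3 6 208))) (.dc 1 3 0
  (.lf 3 7 208))))))) (.dc 1 14 0 (.ct 5 6 1 1 1 (.dc 0 3 0 (.dc 1 3 0 (.lf 3 6 192))) (.dc 0 3 1
  (.ct 0 5 1 1 1 (.ct 3 5 1 1 1 (.ct 4 5 1 1 1 (.dc 1 3 1 (.lf 3 11 208)) (.dc 1 3 0 (.lf 3 7
  208))) (.dc 1 3 0 (.lf 3 7 208))) (.dc 1 3 0 (.lf 3 6 176))))))))

theorem dt40 : le (run cls4 4 tr40 [[2, 1, 1, 1, 3, 2, 2], [2, 2, 1, 1, 2, 2, 2], [1, 1, 1, 0,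
  1, 1, 1], [1, 1, 1, 1, 1, 1, 0], [1, 1, 1, 1, 2, 1, 1], [1, 1, 0, 0, 1, 1, 0], [1, 1, 1, 1, 2,
  2, 2]] 281439542706167 [33, 45, 57, 57, 93, 105, 117]) 10308306034411 = true := by
  decide +kernel

end Pool.Agent.Work.MP_122e00_nt.Sharp.Cx

end

section

set_option autoImplicit false

set_option maxRecDepth 100000

/-!
# The certificate: data
-/

namespace Pool.Agent.Work.MP_122e00_nt.Sharp.Cx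

/-- data -/
noncomputable def tr41 : Ct := (.dc 0 3 1 (.ct 1 4 1 1 1 (.dc 2 3 0 (.ct 0 3 1 1 1 (.dc 1 14 1
  (.ct 0 5 1 1 1 (.ct 4 5 1 1 1 (.dc 1 3 1 (.ct 2 3 1 1 1 (.ct 3 6 1 1 1 (.lf 3 11 192) (.lf 2 10
  192)) (.lf 3 11 176))) (.dc 1 3 0 (.ct 2 3 1 1 1 (.ct 3 6 1 1 1 (.lf 3 10 208) (.lf 2 8 208))
  (.lf 3 10 192)))) (.dc 1 3 0 (.ct 2 3 1 1 1 (.ct 3 6 1 1 1 (.lf 3 10 208) (.lf 2 9 208)) (.lf 3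
  11 208))))) (.dc 1 14 0 (.ct 0 5 1 1 1 (.ct 3 5 1 1 1 (.ct 4 5 1 1 1 (.dc 1 3 1 (.lf 3 11 192))
  (.dc 1 3 0 (.lf 3 11 192))) (.dc 1 3 0 (.lf 3 12 208))) (.dc 1 3 0 (.lf 3 10 176)))))) (.ct 0 3
  1 1 1 (.dc 1 14 1 (.ct 0 1 1 1 1 (.dc 1 3 1 (.ct 0 1 1 1 1 (.ct 2 3 1 1 1 (.ct 1 2 1 1 1 (.dc 2
  3 0 (.ct 3 6 1 1 1 (.lf 3 9 224) (.lf 2 9 224))) (.ct 1 3 1 1 1 (.dc 2 3 0 (.ct 1 6 1 1 1 (.ct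
  3 6 1 1 1 (.lf 3 8 224) (.lf 2 8 224)) (.lf 2 11 208))) (.dc 2 3 1 (.ct 3 6 1 1 1 (.lf 3 11
  208) (.lf 2 12 192))))) (.ct 1 3 1 1 1 (.dc 2 3 0 (.lf 3 9 208)) (.dc 2 3 1 (.lf 3 11 208))))
  (.dc 2 3 0 (.ct 2 3 1 1 1 (.ct 3 6 1 1 1 (.lf 3 10 192) (.lf 2 10 192)) (.lf 3 10 176))))) (.dc
  2 3 0 (.ct 0 5 1 1 1 (.dc 1 3 1 (.ct 2 3 1 1 1 (.ct 3 6 1 1 1 (.lf 3 10 192) (.lf 2 10 192))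
  (.lf 3 11 176))) (.dc 1 3 0 (.ct 2 3 1 1 1 (.ct 3 6 1 1 1 (.lf 3 9 192) (.lf 2 9 192)) (.lf 3
  10 192))))))) (.dc 1 14 0 (.ct 0 1 1 1 1 (.ct 1 3 2 1 1 (.dc 2 3 0 (.ct 1 3 1 1 2 (.ct 3 5 1 1
  1 (.dc 1 3 1 (.lf 3 11 208)) (.dc 1 3 0 (.lf 3 10 224))) (.dc 1 3 1 (.lf 3 10 208)))) (.dc 1 3
  1 (.dc 2 3 1 (.lf 3 12 208)))) (.dc 2 3 0 (.ct 0 5 1 1 1 (.ct 3 5 1 1 1 (.dc 1 3 1 (.lf 3 11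
  224)) (.dc 1 3 0 (.lf 3 11 240))) (.dc 1 3 0 (.lf 3 9 208)))))))))

theorem dt41 : le (run cls4 4 tr41 [[2, 1, 1, 1, 3, 2, 2], [1, 1, 0, 0, 0, 0, 0], [1, 1, 1, 0,
  1, 1, 1], [1, 1, 1, 1, 1, 1, 0], [1, 1, 1, 1, 2, 1, 1], [1, 1, 0, 0, 1, 1, 0], [2, 2, 1, 1, 2,
  2, 2]] 281439542706167 [33, 45, 57, 57, 93, 105, 117]) 6335130377134 = true := by decide +kernel

/-- data -/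
noncomputable def tr42 : Ct := (.dc 0 1 0 (.dc 0 9 0 (.ct 1 4 1 1 1 (.dc 2 3 0 (.ct 0 3 1 1 1
  (.ct 3 6 1 1 1 (.dc 1 14 0 (.ct 3 5 1 1 1 (.ct 4 5 1 1 1 (.ct 5 6 1 1 1 (.dc 1 3 0 (.lf 3 7
  224)) (.dc 1 3 1 (.lf 3 10 224))) (.dc 1 3 0 (.lf 3 7 208))) (.dc 1 3 0 (.lf 3 8 224)))) (.dc 1
  14 1 (.ct 4 5 1 1 1 (.ct 5 6 1 1 1 (.dc 1 3 0 (.ct 2 3 1 1 1 (.lf 2 8 224) (.lf 3 8 224))) (.dc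
  1 3 1 (.ct 2 3 1 1 1 (.lf 2 10 208) (.lf 3 10 208)))) (.dc 1 3 0 (.ct 2 3 1 1 1 (.lf 2 8 192)
  (.lf 3 9 192)))))) (.dc 1 14 0 (.ct 4 5 1 1 1 (.ct 5 6 1 1 1 (.dc 1 3 0 (.lf 3 6 192)) (.dc 1 3
  1 (.lf 3 10 192))) (.dc 1 3 0 (.lf 3 7 176)))))) (.ct 0 3 1 1 1 (.ct 1 6 1 1 1 (.dc 2 3 0 (.ct
  1 3 1 1 1 (.ct 3 6 1 1 1 (.dc 1 14 0 (.ct 3 5 1 1 1 (.ct 5 6 1 1 1 (.dc 1 3 0 (.lf 3 7 224))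
  (.dc 1 3 1 (.lf 3 10 224))) (.dc 1 3 0 (.lf 3 7 224)))) (.dc 1 14 1 (.ct 5 6 1 1 1 (.dc 1 3 0
  (.ct 2 3 1 1 1 (.lf 2 8 224) (.lf 3 8 224))) (.dc 1 3 1 (.ct 2 3 1 1 1 (.lf 2 10 208) (.lf 3 10
  208)))))) (.dc 1 14 0 (.ct 5 6 1 1 1 (.dc 1 3 0 (.lf 3 7 192)) (.dc 1 3 1 (.lf 3 10 192))))))
  (.dc 1 3 1 (.ct 3 6 1 1 1 (.dc 1 14 0 (.ct 0 1 1 1 1 (.ct 1 3 1 1 1 (.dc 2 3 0 (.lf 3 8 224))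
  (.dc 2 3 1 (.lf 3 11 224))) (.dc 2 3 0 (.lf 3 8 192)))) (.dc 1 14 1 (.ct 0 1 1 1 1 (.ct 1 6 1 1
  1 (.dc 2 3 0 (.ct 2 3 1 1 1 (.lf 2 9 192) (.lf 3 8 192))) (.ct 1 3 1 1 1 (.dc 2 3 0 (.ct 1 2 1
  1 1 (.ct 2 3 1 1 1 (.lf 2 8 224) (.lf 3 7 224)) (.lf 2 10 224))) (.dc 2 3 1 (.ct 2 3 1 1 1 (.lf
  2 12 208) (.lf 3 11 224))))) (.dc 2 3 0 (.ct 2 3 1 1 1 (.lf 2 9 192) (.lf 3 8 192)))))))) (.dc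
  1 14 0 (.ct 1 6 1 1 1 (.dc 2 3 0 (.ct 5 6 1 1 1 (.dc 1 3 0 (.lf 3 7 192)) (.dc 1 3 1 (.lf 3 10
  192)))) (.dc 1 3 1 (.ct 1 3 1 1 1 (.dc 2 3 0 (.lf 3 8 192)) (.dc 2 3 1 (.lf 3 11 192))))))))))

theorem dt42 : le (run cls4 4 tr42 [[2, 1, 1, 0, 2, 1, 1], [1, 1, 0, 0, 0, 0, 0], [1, 1, 1, 0,
  1, 1, 1], [1, 1, 1, 1, 1, 1, 0], [1, 1, 1, 1, 2, 1, 1], [1, 1, 0, 0, 1, 1, 0], [2, 1, 1, 1, 3,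
  2, 2]] 281439542705661 [41, 77, 89, 113, 101, 161, 173]) 2734498373274 = true := by
  decide +kernel

end Pool.Agent.Work.MP_122e00_nt.Sharp.Cx

end

section

set_option autoImplicit false

set_option maxRecDepth 100000

/-!
# The certificate: data
-/

namespace Pool.Agent.Work.MP_122e00_nt.Sharp.Cx

/-- data -/
noncomputable def tr43 : Ct := (.dc 0 1 0 (.ct 2 3 1 1 1 (.ct 3 6 1 1 1 (.dc 1 14 0 (.ct 3 5 1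
  1 1 (.ct 4 5 1 1 1 (.ct 5 6 1 1 1 (.dc 1 3 0 (.ct 0 5 1 1 1 (.lf 3 6 224) (.ct 0 6 1 1 1 (.lf 3
  6 208) (.lf 2 10 208)))) (.dc 1 3 1 (.ct 0 6 1 1 1 (.lf 3 10 224) (.lf 2 9 208)))) (.dc 1 3 0
  (.ct 0 6 1 1 1 (.lf 3 7 208) (.lf 2 10 208)))) (.dc 1 3 0 (.ct 0 6 1 1 1 (.lf 3 7 224) (.lf 2
  10 224))))) (.dc 1 14 1 (.ct 4 5 1 1 1 (.ct 5 6 1 1 1 (.dc 1 3 0 (.lf 2 9 224)) (.dc 1 3 1 (.lf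
  2 8 208))) (.dc 1 3 0 (.lf 2 9 192))))) (.dc 1 14 0 (.ct 4 5 1 1 1 (.ct 0 2 1 1 1 (.ct 5 6 1 1
  1 (.dc 1 3 0 (.lf 3 7 192)) (.dc 1 3 1 (.lf 3 8 192))) (.ct 5 6 1 1 1 (.dc 1 3 0 (.ct 0 5 1 1 1
  (.lf 3 7 192) (.ct 0 6 1 1 1 (.lf 3 7 192) (.lf 2 10 192)))) (.dc 1 3 1 (.ct 0 6 1 1 1 (.lf 3 8
  192) (.lf 2 8 192))))) (.dc 1 3 0 (.ct 0 2 1 1 1 (.lf 3 7 192) (.ct 0 6 1 1 1 (.lf 3 8 192)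
  (.lf 2 9 192))))))))

theorem dt43 : le (run cls4 4 tr43 [[2, 1, 1, 1, 2, 1, 0], [2, 2, 1, 1, 2, 1, 1], [2, 1, 1, 0,
  2, 1, 1], [1, 1, 1, 1, 1, 1, 0], [1, 1, 1, 1, 2, 1, 1], [1, 1, 0, 0, 1, 1, 0], [2, 1, 1, 1, 3,
  2, 2]] 281473902444541 [45, 105, 117, 117, 105, 189, 201]) 3810255458271 = true := by
  decide +kernel

/-- data -/
noncomputable def tr44 : Ct := (.dc 1 14 0 (.ct 0 1 1 1 1 (.dc 0 1 0 (.ct 4 5 1 1 1 (.ct 2 3 1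
  1 1 (.ct 5 6 1 1 1 (.dc 1 3 0 (.ct 3 5 1 1 1 (.lf 3 7 160) (.ct 3 6 1 1 1 (.lf 3 7 160) (.lf 2
  9 160)))) (.dc 1 3 1 (.ct 3 6 1 1 1 (.lf 3 8 160) (.lf 2 7 160)))) (.ct 5 6 1 1 1 (.dc 1 3 0
  (.lf 3 7 160)) (.dc 1 3 1 (.lf 3 7 160)))) (.dc 1 3 0 (.ct 2 3 1 1 1 (.ct 3 6 1 1 1 (.lf 3 8
  160) (.lf 2 8 160)) (.lf 3 7 160))))) (.ct 2 3 1 1 1 (.ct 0 4 1 1 1 (.dc 0 1 0 (.ct 0 5 1 1 1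
  (.ct 4 5 1 1 1 (.ct 5 6 1 1 1 (.dc 1 3 0 (.ct 3 5 1 1 1 (.lf 3 7 176) (.ct 3 6 1 1 1 (.lf 3 7
  192) (.lf 2 9 192)))) (.dc 1 3 1 (.ct 3 6 1 1 1 (.lf 3 7 176) (.lf 2 7 176)))) (.dc 1 3 0 (.ct
  3 6 1 1 1 (.lf 3 8 192) (.lf 2 8 192)))) (.dc 1 3 0 (.ct 3 6 1 1 1 (.lf 3 7 192) (.lf 2 7
  192))))) (.ct 4 5 1 1 1 (.ct 0 6 1 1 1 (.dc 0 1 0 (.ct 0 5 1 1 1 (.ct 0 3 1 1 1 (.ct 5 6 1 1 1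
  (.dc 1 3 0 (.ct 3 5 1 1 1 (.lf 3 7 208) (.ct 3 6 1 1 1 (.lf 3 6 224) (.lf 2 9 224)))) (.dc 1 3
  1 (.ct 3 6 1 1 1 (.lf 3 7 208) (.lf 2 7 208)))) (.ct 5 6 1 1 1 (.dc 1 3 0 (.lf 3 7 224)) (.dc 1
  3 1 (.lf 3 7 224)))) (.dc 1 3 0 (.ct 0 3 1 1 1 (.ct 3 5 1 1 1 (.lf 3 6 256) (.ct 3 6 1 1 1 (.lf
  3 6 256) (.lf 2 8 256))) (.lf 3 7 208))))) (.dc 0 1 1 (.ct 5 6 1 1 1 (.dc 1 3 0 (.ct 3 5 1 1 1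
  (.lf 3 12 224) (.ct 3 6 1 1 1 (.lf 3 12 240) (.lf 2 13 240)))) (.dc 1 3 1 (.ct 3 6 1 1 1 (.lf 3
  12 224) (.lf 2 13 208)))))) (.dc 1 3 0 (.ct 0 6 1 1 1 (.dc 0 1 0 (.ct 0 3 1 1 1 (.ct 3 6 1 1 1
  (.lf 3 6 224) (.lf 2 8 224)) (.lf 3 6 224))) (.dc 0 1 1 (.ct 3 6 1 1 1 (.lf 3 12 224) (.lf 2 13
  224))))))) (.ct 0 4 1 1 1 (.dc 0 1 0 (.ct 0 5 1 1 1 (.ct 4 5 1 1 1 (.ct 5 6 1 1 1 (.dc 1 3 0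
  (.lf 3 7 176)) (.dc 1 3 1 (.lf 3 7 176))) (.dc 1 3 0 (.lf 3 7 176))) (.dc 1 3 0 (.lf 3 7
  192)))) (.ct 4 5 1 1 1 (.ct 0 6 1 1 1 (.dc 0 1 0 (.ct 0 5 1 1 1 (.ct 5 6 1 1 1 (.dc 1 3 0 (.lf
  3 7 192)) (.dc 1 3 1 (.lf 3 7 192))) (.dc 1 3 0 (.lf 3 7 192)))) (.dc 0 1 1 (.ct 5 6 1 1 1 (.dc
  1 3 0 (.lf 3 12 192)) (.dc 1 3 1 (.lf 3 12 192))))) (.dc 1 3 0 (.ct 0 6 1 1 1 (.dc 0 1 0 (.lf 3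
  6 192)) (.dc 0 1 1 (.lf 3 12 192)))))))))

theorem dt44 : le (run cls4 4 tr44 [[1, 0, 0, 0, 1, 0, 0], [2, 2, 1, 1, 2, 1, 1], [2, 1, 1, 0,
  2, 1, 1], [2, 1, 1, 1, 2, 1, 0], [1, 1, 1, 1, 2, 1, 1], [1, 1, 0, 0, 1, 1, 0], [2, 1, 1, 1, 3,
  2, 2]] 281473902444541 [45, 105, 117, 117, 105, 189, 201]) 1652721149765 = true := by
  decide +kernel

end Pool.Agent.Work.MP_122e00_nt.Sharp.Cx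

end
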