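import Pool.Agent.Work.MP_122e00_nt.Bd.B03

/-! Bundle of small proof modules (one section per former module). -/

section

set_option autoImplicit false

set_option maxRecDepth 100000

/-!
# The certificate: data
-/

namespace Pool.Agent.Work.MP_122e00_nt.Sharp.Cx

/-- data -/
noncomputable def tr45 : Ct := (.ct 1 6 1 1 1 (.dc 2 3 0 (.ct 1 3 1 1 1 (.ct 3 6 1 1 1 (.dc 1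
  14 0 (.ct 3 5 1 1 1 (.ct 5 6 1 1 1 (.dc 1 3 0 (.ct 0 5 1 1 1 (.lf 3 6 224) (.ct 0 6 1 1 1 (.lf
  3 5 208) (.lf 2 10 208)))) (.dc 1 3 1 (.ct 0 6 1 1 1 (.lf 3 10 224) (.lf 2 9 208)))) (.dc 1 3 0
  (.ct 0 6 1 1 1 (.lf 3 6 224) (.lf 2 10 224))))) (.dc 1 14 1 (.ct 5 6 1 1 1 (.dc 1 3 0 (.lf 2 9
  224)) (.dc 1 3 1 (.lf 2 8 208))))) (.dc 1 14 0 (.ct 0 1 1 1 1 (.ct 5 6 1 1 1 (.dc 1 3 0 (.lf 3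
  6 224)) (.dc 1 3 1 (.lf 3 9 208))) (.ct 5 6 1 1 1 (.dc 1 3 0 (.ct 0 5 1 1 1 (.lf 3 5 224) (.ct
  0 6 1 1 1 (.lf 3 5 208) (.lf 2 11 208)))) (.dc 1 3 1 (.ct 0 6 1 1 1 (.lf 3 9 224) (.lf 2 10
  208)))))))) (.dc 1 3 1 (.ct 3 6 1 1 1 (.dc 1 14 0 (.ct 1 2 1 1 1 (.dc 2 3 0 (.ct 0 6 1 1 1 (.lf
  3 9 208) (.lf 2 8 208))) (.ct 1 3 1 1 1 (.dc 2 3 0 (.ct 0 6 1 1 1 (.lf 3 9 208) (.lf 2 8 176)))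
  (.ct 0 1 1 1 1 (.dc 2 3 1 (.ct 0 6 1 1 1 (.lf 3 12 224) (.lf 2 12 192))) (.dc 2 3 0 (.ct 0 6 1
  1 1 (.ct 1 6 1 1 1 (.lf 3 8 224) (.lf 2 11 192)) (.lf 2 10 176))))))) (.dc 1 14 1 (.ct 0 1 1 1
  1 (.ct 1 2 1 1 1 (.dc 2 3 0 (.lf 2 10 192)) (.ct 1 3 1 1 1 (.dc 2 3 0 (.lf 2 8 160)) (.ct 1 6 1
  1 1 (.dc 2 3 0 (.lf 2 8 192)) (.dc 2 3 1 (.lf 2 11 192))))) (.dc 2 3 0 (.lf 2 9 176)))))))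

theorem dt45 : le (run cls4 4 tr45 [[2, 1, 1, 1, 2, 1, 0], [1, 1, 0, 0, 0, 0, 0], [3, 2, 2, 1,
  3, 2, 1], [1, 1, 1, 1, 1, 1, 0], [2, 2, 1, 1, 2, 1, 1], [1, 1, 0, 0, 1, 1, 0], [2, 1, 1, 1, 3,
  2, 2]] 281439542706175 [45, 105, 117, 117, 105, 189, 201]) 2731222827469 = true := by
  decide +kernel

/-- data -/
noncomputable def tr46 : Ct := (.dc 1 14 0 (.ct 1 6 1 1 1 (.dc 2 3 0 (.ct 0 1 1 1 1 (.ct 5 6 1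
  1 1 (.dc 1 3 0 (.lf 3 5 224)) (.dc 1 3 1 (.lf 3 9 208))) (.ct 0 2 1 1 1 (.ct 5 6 1 1 1 (.dc 1 3
  0 (.lf 3 7 224)) (.dc 1 3 1 (.lf 3 7 208))) (.ct 5 6 1 1 1 (.dc 1 3 0 (.ct 0 5 1 1 1 (.lf 3 7
  224) (.ct 0 6 1 1 1 (.lf 3 6 224) (.lf 2 10 224)))) (.dc 1 3 1 (.ct 0 6 1 1 1 (.lf 3 8 224)
  (.lf 2 9 224))))))) (.dc 1 3 1 (.ct 1 3 1 1 1 (.dc 2 3 0 (.ct 0 2 1 1 1 (.lf 3 8 176) (.ct 0 6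
  1 1 1 (.lf 3 8 208) (.lf 2 9 208)))) (.ct 0 2 1 1 1 (.ct 0 1 1 1 1 (.dc 2 3 1 (.lf 3 11 208))
  (.dc 2 3 0 (.lf 3 7 208))) (.ct 1 2 1 1 1 (.dc 2 3 0 (.ct 0 6 1 1 1 (.lf 3 7 240) (.lf 2 7
  208))) (.ct 0 1 1 1 1 (.dc 2 3 1 (.ct 0 6 1 1 1 (.lf 3 11 208) (.lf 2 11 176))) (.dc 2 3 0 (.ct
  0 6 1 1 1 (.ct 1 6 1 1 1 (.lf 3 7 240) (.lf 2 10 208)) (.lf 2 9 208))))))))))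

theorem dt46 : le (run cls4 4 tr46 [[2, 1, 1, 1, 2, 1, 0], [1, 1, 0, 0, 0, 0, 0], [2, 1, 1, 0,
  2, 1, 1], [3, 2, 2, 1, 3, 2, 1], [2, 2, 1, 1, 2, 1, 1], [1, 1, 0, 0, 1, 1, 0], [2, 1, 1, 1, 3,
  2, 2]] 281439542706175 [45, 105, 117, 117, 105, 189, 201]) 1721525435308 = true := by
  decide +kernel

end Pool.Agent.Work.MP_122e00_nt.Sharp.Cx

end

section

set_option autoImplicit false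

set_option maxRecDepth 100000

/-!
# The certificate: data
-/

namespace Pool.Agent.Work.MP_122e00_nt.Sharp.Cx

/-- data -/
noncomputable def tr47 : Ct := (.dc 2 3 0 (.ct 0 4 1 1 1 (.dc 0 1 0 (.ct 1 3 1 1 1 (.ct 2 3 1 1
  1 (.ct 5 6 1 1 1 (.dc 1 3 0 (.ct 3 5 1 1 1 (.lf 3 7 192) (.ct 3 6 1 1 1 (.lf 3 6 192) (.lf 2 9
  192)))) (.dc 1 3 1 (.ct 3 6 1 1 1 (.lf 3 7 192) (.lf 2 8 192)))) (.ct 5 6 1 1 1 (.dc 1 3 0 (.lf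
  3 7 192)) (.dc 1 3 1 (.lf 3 6 192)))) (.ct 5 6 1 1 1 (.dc 1 3 0 (.lf 3 8 224)) (.dc 1 3 1 (.lf
  3 8 224))))) (.ct 2 3 1 1 1 (.ct 0 1 1 1 1 (.dc 0 1 0 (.ct 0 3 1 1 1 (.ct 1 3 1 1 1 (.ct 5 6 1
  1 1 (.dc 1 3 0 (.ct 3 5 1 1 1 (.lf 3 6 176) (.ct 3 6 1 1 1 (.lf 3 6 192) (.lf 2 8 192)))) (.dc
  1 3 1 (.ct 3 6 1 1 1 (.lf 3 6 176) (.lf 2 7 176)))) (.ct 5 6 1 1 1 (.dc 1 3 0 (.lf 3 7 208))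
  (.dc 1 3 1 (.lf 3 7 208)))) (.ct 5 6 1 1 1 (.dc 1 3 0 (.lf 3 7 176)) (.dc 1 3 1 (.lf 3 7
  176))))) (.ct 1 3 1 1 1 (.ct 0 6 1 1 1 (.dc 0 1 0 (.ct 0 5 1 1 1 (.ct 0 3 1 1 1 (.ct 5 6 1 1 1
  (.dc 1 3 0 (.ct 3 5 1 1 1 (.lf 3 6 176) (.ct 3 6 1 1 1 (.lf 3 6 192) (.lf 2 8 192)))) (.dc 1 3
  1 (.ct 3 6 1 1 1 (.lf 3 6 176) (.lf 2 7 176)))) (.ct 5 6 1 1 1 (.dc 1 3 0 (.lf 3 7 192)) (.dc 1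
  3 1 (.lf 3 6 192)))) (.dc 1 3 0 (.ct 0 3 1 1 1 (.ct 3 5 1 1 1 (.lf 3 6 224) (.ct 3 6 1 1 1 (.lf
  3 6 224) (.lf 2 8 224))) (.lf 3 6 208))))) (.dc 0 1 1 (.ct 5 6 1 1 1 (.dc 1 3 0 (.ct 3 5 1 1 1
  (.lf 3 12 224) (.ct 3 6 1 1 1 (.lf 3 12 240) (.lf 2 13 208)))) (.dc 1 3 1 (.ct 3 6 1 1 1 (.lf 3
  12 192) (.lf 2 13 176)))))) (.ct 0 6 1 1 1 (.dc 0 1 0 (.ct 0 5 1 1 1 (.ct 5 6 1 1 1 (.dc 1 3 0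
  (.lf 3 7 160)) (.dc 1 3 1 (.lf 3 7 160))) (.dc 1 3 0 (.lf 3 6 192)))) (.dc 0 1 1 (.ct 5 6 1 1 1
  (.dc 1 3 0 (.lf 3 12 192)) (.dc 1 3 1 (.lf 3 12 160))))))) (.ct 0 1 1 1 1 (.dc 0 1 0 (.ct 5 6 1
  1 1 (.dc 1 3 0 (.lf 3 7 176)) (.dc 1 3 1 (.lf 3 7 176)))) (.ct 0 6 1 1 1 (.dc 0 1 0 (.ct 0 5 1
  1 1 (.ct 5 6 1 1 1 (.dc 1 3 0 (.lf 3 7 160)) (.dc 1 3 1 (.lf 3 7 160))) (.dc 1 3 0 (.lf 3 7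
  192)))) (.dc 0 1 1 (.ct 5 6 1 1 1 (.dc 1 3 0 (.lf 3 12 192)) (.dc 1 3 1 (.lf 3 12 160)))))))))

theorem dt47 : le (run cls4 4 tr47 [[1, 0, 0, 0, 1, 0, 0], [3, 2, 1, 1, 3, 2, 2], [2, 1, 1, 0,
  2, 1, 1], [2, 1, 1, 1, 2, 1, 0], [2, 2, 1, 1, 2, 1, 1], [1, 1, 0, 0, 1, 1, 0], [2, 1, 1, 1, 3,
  2, 2]] 281440616447997 [45, 105, 117, 117, 105, 189, 201]) 942053180125 = true := by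
  decide +kernel

/-- data -/
noncomputable def tr48 : Ct := (.dc 1 3 1 (.ct 0 4 1 1 1 (.dc 0 1 0 (.ct 2 3 1 1 1 (.ct 1 2 1 1
  1 (.dc 2 3 0 (.ct 3 6 1 1 1 (.lf 3 7 240) (.lf 2 7 208))) (.ct 1 3 1 1 1 (.dc 2 3 0 (.ct 1 6 1
  1 1 (.ct 3 6 1 1 1 (.lf 3 7 224) (.lf 2 7 208)) (.lf 2 9 176))) (.dc 2 3 1 (.ct 3 6 1 1 1 (.lf
  3 11 192) (.lf 2 11 176))))) (.ct 1 3 1 1 1 (.dc 2 3 0 (.lf 3 7 208)) (.dc 2 3 1 (.lf 3 11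
  192))))) (.ct 0 6 1 1 1 (.dc 0 1 0 (.ct 0 3 1 1 1 (.ct 0 1 1 1 1 (.ct 2 3 1 1 1 (.ct 1 2 1 1 1
  (.dc 2 3 0 (.ct 3 6 1 1 1 (.lf 3 6 256) (.lf 2 6 224))) (.ct 1 3 1 1 1 (.dc 2 3 0 (.ct 1 6 1 1
  1 (.ct 3 6 1 1 1 (.lf 3 6 240) (.lf 2 6 208)) (.lf 2 10 208))) (.dc 2 3 1 (.ct 3 6 1 1 1 (.lf 3
  11 208) (.lf 2 12 208))))) (.ct 1 3 1 1 1 (.dc 2 3 0 (.lf 3 6 224)) (.dc 2 3 1 (.lf 3 11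
  208)))) (.dc 2 3 0 (.ct 2 3 1 1 1 (.ct 3 6 1 1 1 (.lf 3 6 240) (.lf 2 7 208)) (.lf 3 6 208))))
  (.ct 1 3 1 1 1 (.dc 2 3 0 (.lf 3 7 208)) (.dc 2 3 1 (.lf 3 11 208))))) (.dc 0 1 1 (.ct 2 3 1 1
  1 (.ct 1 2 1 1 1 (.dc 2 3 0 (.ct 3 6 1 1 1 (.lf 3 12 160) (.lf 2 13 160))) (.ct 1 3 1 1 1 (.dc
  2 3 0 (.ct 1 6 1 1 1 (.ct 3 6 1 1 1 (.lf 3 12 192) (.lf 2 13 192)) (.lf 2 13 208))) (.dc 2 3 1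
  (.ct 3 6 1 1 1 (.lf 3 10 192) (.lf 2 10 192))))) (.ct 1 3 1 1 1 (.dc 2 3 0 (.lf 3 12 160)) (.dc
  2 3 1 (.lf 3 10 160))))))))

theorem dt48 : le (run cls4 4 tr48 [[1, 0, 0, 0, 1, 0, 0], [1, 1, 0, 0, 0, 0, 0], [2, 1, 1, 0,
  2, 1, 1], [2, 1, 1, 1, 2, 1, 0], [2, 2, 1, 1, 2, 1, 1], [1, 1, 0, 0, 1, 1, 0], [3, 2, 1, 1, 3,
  2, 2]] 281440616447997 [45, 105, 117, 117, 105, 189, 201]) 661929610826 = true := by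
  decide +kernel

end Pool.Agent.Work.MP_122e00_nt.Sharp.Cx

end

section

set_option autoImplicit false

set_option maxRecDepth 100000

/-!
# The certificate: data
-/

namespace Pool.Agent.Work.MP_122e00_nt.Sharp.Cx

/-- data -/
noncomputable def tr49 : Ct := (.dc 0 3 0 (.dc 1 3 0 (.dc 2 3 0 (.ct 1 3 1 1 1 (.ct 3 6 1 1 2
  (.ct 5 6 1 1 1 (.lf 3 8 176) (.lf 2 9 192)) (.ct 0 3 1 1 1 (.ct 3 4 1 1 1 (.lf 1 6 192) (.lf 0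
  11 176)) (.lf 1 7 192))) (.ct 1 5 1 1 1 (.ct 5 6 1 1 1 (.lf 3 8 176) (.lf 2 9 176)) (.lf 3 8
  176))))))

theorem dt49 : le (run cls4 4 tr49 [[3, 2, 2, 2, 3, 2, 2], [2, 2, 1, 1, 2, 2, 2], [2, 2, 2, 1,
  1, 1, 1], [1, 1, 1, 1, 0, 0, 0], [1, 1, 1, 1, 2, 1, 1], [1, 1, 1, 1, 1, 1, 0], [1, 1, 1, 1, 2,
  2, 2]] 281440616447991 [63, 63, 63, 63, 135, 135, 135]) 40484333277599 = true := by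
  decide +kernel

/-- data -/
noncomputable def tr50 : Ct := (.dc 0 3 1 (.ct 3 6 1 1 1 (.ct 0 1 1 1 1 (.ct 1 4 1 1 1 (.dc 1 3
  0 (.dc 2 3 0 (.ct 5 6 1 1 1 (.lf 3 8 176) (.lf 2 7 176)))) (.dc 1 3 1 (.ct 1 5 1 1 1 (.dc 2 3 0
  (.ct 1 6 1 1 1 (.ct 5 6 1 1 1 (.lf 3 7 176) (.lf 2 7 176)) (.lf 2 12 176))) (.dc 2 3 1 (.ct 5 6
  1 1 1 (.lf 3 12 176) (.lf 2 12 176)))))) (.dc 1 3 0 (.dc 2 3 0 (.ct 5 6 1 1 1 (.lf 3 9 176)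
  (.lf 2 8 176))))) (.ct 0 1 1 1 1 (.ct 1 4 1 1 1 (.dc 1 3 0 (.dc 2 3 0 (.ct 0 3 1 1 1 (.ct 1 3 1
  1 1 (.ct 3 4 1 1 1 (.lf 1 6 224) (.lf 0 12 208)) (.lf 1 6 224)) (.lf 1 5 208)))) (.dc 1 3 1
  (.ct 1 5 1 1 1 (.dc 2 3 0 (.ct 0 3 1 1 1 (.ct 3 4 1 1 1 (.lf 1 10 224) (.lf 0 11 208)) (.lf 1
  11 208))) (.dc 2 3 1 (.ct 0 3 1 1 1 (.ct 3 4 1 1 1 (.lf 1 12 208) (.lf 0 11 208)) (.lf 1 12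
  208)))))) (.dc 1 3 0 (.dc 2 3 0 (.ct 0 3 1 1 1 (.ct 1 3 1 1 1 (.ct 3 4 1 1 1 (.lf 1 5 192) (.lf
  0 12 192)) (.lf 1 5 208)) (.lf 1 7 176)))))))

theorem dt50 : le (run cls4 4 tr50 [[3, 2, 2, 2, 3, 2, 2], [1, 1, 0, 0, 0, 0, 0], [2, 2, 2, 1,
  1, 1, 1], [1, 1, 1, 1, 0, 0, 0], [1, 1, 1, 1, 2, 1, 1], [1, 1, 1, 1, 1, 1, 0], [2, 2, 1, 1, 2,
  2, 2]] 281440616447991 [63, 63, 63, 63, 135, 135, 135]) 13679169537804 = true := by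
  decide +kernel

/-- data -/
noncomputable def tr51 : Ct := (.ct 1 6 1 1 1 (.dc 0 3 0 (.dc 1 3 0 (.dc 2 3 0 (.ct 1 5 1 1 1
  (.ct 2 5 1 1 1 (.ct 5 6 1 1 1 (.lf 3 8 176) (.lf 2 9 176)) (.lf 3 8 176)) (.lf 3 9 176)))))
  (.dc 0 3 1 (.ct 0 1 1 1 1 (.ct 1 4 1 1 1 (.dc 1 3 0 (.dc 2 3 0 (.ct 2 5 1 1 1 (.ct 5 6 1 1 1
  (.lf 3 9 176) (.lf 2 7 176)) (.lf 3 9 176)))) (.dc 1 3 1 (.ct 2 5 1 1 1 (.ct 1 2 1 1 1 (.dc 2 3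
  0 (.ct 5 6 1 1 1 (.lf 3 7 192) (.lf 2 7 192))) (.ct 1 5 1 1 1 (.dc 2 3 0 (.ct 1 6 1 1 1 (.ct 5
  6 1 1 1 (.lf 3 6 192) (.lf 2 6 192)) (.lf 2 11 192))) (.dc 2 3 1 (.ct 5 6 1 1 1 (.lf 3 12 192)
  (.lf 2 12 192))))) (.ct 1 5 1 1 1 (.dc 2 3 0 (.lf 3 7 192)) (.dc 2 3 1 (.lf 3 12 192)))))) (.dc
  1 3 0 (.dc 2 3 0 (.ct 2 5 1 1 1 (.ct 5 6 1 1 1 (.lf 3 10 176) (.lf 2 8 176)) (.lf 3 10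
  176)))))))

theorem dt51 : le (run cls4 4 tr51 [[3, 2, 2, 2, 3, 2, 2], [1, 1, 0, 0, 0, 0, 0], [1, 1, 1, 0,
  1, 1, 1], [2, 2, 2, 1, 1, 1, 1], [1, 1, 1, 1, 2, 1, 1], [1, 1, 1, 1, 1, 1, 0], [1, 1, 1, 1, 2,
  2, 2]] 281440616447991 [63, 63, 63, 63, 135, 135, 135]) 10524820565573 = true := by
  decide +kernel

end Pool.Agent.Work.MP_122e00_nt.Sharp.Cx

end

section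

set_option autoImplicit false

set_option maxRecDepth 100000

/-!
# The certificate: data
-/

namespace Pool.Agent.Work.MP_122e00_nt.Sharp.Cx

/-- data -/
noncomputable def tr52 : Ct := (.dc 1 3 0 (.dc 2 3 0 (.ct 1 3 1 1 1 (.ct 0 2 1 1 1 (.dc 0 9 0
  (.ct 3 4 1 1 1 (.lf 1 7 192) (.ct 3 6 1 1 1 (.lf 1 8 192) (.lf 0 11 176)))) (.dc 0 9 1 (.ct 3 4
  1 1 1 (.lf 1 9 176) (.ct 3 6 1 1 1 (.lf 1 10 192) (.lf 0 10 176))))) (.ct 0 2 1 1 1 (.dc 0 9 0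
  (.lf 1 7 192)) (.dc 0 9 1 (.lf 1 9 192))))))

theorem dt52 : le (run cls4 4 tr52 [[2, 1, 1, 1, 1, 0, 0], [2, 2, 1, 1, 2, 1, 1], [2, 2, 2, 1,
  1, 1, 1], [1, 1, 1, 1, 0, 0, 0], [1, 1, 1, 1, 2, 1, 1], [1, 1, 1, 1, 1, 1, 0], [3, 2, 2, 2, 3,
  2, 2]] 281440616447487 [71, 95, 95, 119, 143, 191, 191]) 9383088815563 = true := by
  decide +kernel

/-- data -/
noncomputable def tr53 : Ct := (.ct 1 6 1 1 1 (.dc 1 3 0 (.dc 2 3 0 (.ct 1 3 1 1 1 (.ct 0 2 1 1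
  1 (.dc 0 9 0 (.ct 3 4 1 1 1 (.lf 1 8 224) (.ct 3 6 1 1 1 (.lf 1 7 224) (.lf 0 11 208)))) (.dc 0
  9 1 (.ct 3 4 1 1 1 (.lf 1 10 224) (.ct 3 6 1 1 1 (.lf 1 10 224) (.lf 0 10 208))))) (.ct 0 2 1 1
  1 (.dc 0 9 0 (.lf 1 9 208)) (.dc 0 9 1 (.lf 1 10 208)))))) (.dc 1 3 1 (.ct 0 2 1 1 1 (.dc 0 9 0
  (.ct 1 5 1 1 1 (.dc 2 3 0 (.ct 3 4 1 1 1 (.lf 1 9 208) (.ct 3 6 1 1 1 (.lf 1 9 240) (.lf 0 11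
  208)))) (.dc 2 3 1 (.ct 3 4 1 1 1 (.lf 1 12 208) (.ct 3 6 1 1 1 (.lf 1 12 240) (.lf 0 12
  208)))))) (.dc 0 9 1 (.ct 1 5 1 1 1 (.dc 2 3 0 (.ct 3 4 1 1 1 (.lf 1 10 208) (.ct 3 6 1 1 1
  (.lf 1 10 208) (.lf 0 9 192)))) (.dc 2 3 1 (.ct 3 4 1 1 1 (.lf 1 11 208) (.ct 3 6 1 1 1 (.lf 1
  11 208) (.lf 0 11 192)))))))))

theorem dt53 : le (run cls4 4 tr53 [[2, 1, 1, 1, 1, 0, 0], [1, 1, 0, 0, 0, 0, 0], [2, 2, 2, 1,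
  1, 1, 1], [1, 1, 1, 1, 0, 0, 0], [2, 2, 1, 1, 2, 1, 1], [1, 1, 1, 1, 1, 1, 0], [3, 2, 2, 2, 3,
  2, 2]] 281440616447487 [71, 95, 95, 119, 143, 191, 191]) 4020433556415 = true := by
  decide +kernel

end Pool.Agent.Work.MP_122e00_nt.Sharp.Cx

end

section

set_option autoImplicit false

set_option maxRecDepth 100000

/-!
# The certificate: data
-/

namespace Pool.Agent.Work.MP_122e00_nt.Sharp.Cx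

/-- data -/
noncomputable def tr54 : Ct := (.ct 0 2 1 1 1 (.dc 0 9 0 (.ct 1 4 1 1 1 (.dc 1 3 0 (.dc 2 3 0
  (.ct 2 5 1 1 1 (.lf 2 7 160) (.lf 3 8 160)))) (.ct 1 6 1 1 1 (.dc 1 3 0 (.dc 2 3 0 (.ct 2 5 1 1
  1 (.lf 2 8 176) (.lf 3 7 176)))) (.dc 1 3 1 (.ct 1 5 1 1 1 (.dc 2 3 0 (.ct 1 2 1 1 1 (.ct 2 5 1
  1 1 (.lf 2 7 192) (.lf 3 6 192)) (.lf 2 10 192))) (.dc 2 3 1 (.ct 2 5 1 1 1 (.lf 2 12 192) (.lf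
  3 11 192)))))))) (.ct 1 4 1 1 1 (.dc 1 3 0 (.dc 2 3 0 (.ct 0 3 1 1 1 (.dc 0 9 0 (.lf 1 8 160))
  (.dc 0 9 1 (.lf 1 10 160))))) (.ct 1 6 1 1 1 (.dc 1 3 0 (.dc 2 3 0 (.ct 0 3 1 1 1 (.dc 0 9 0
  (.lf 1 8 176)) (.dc 0 9 1 (.lf 1 10 176))))) (.dc 1 3 1 (.ct 0 3 1 1 1 (.dc 0 9 0 (.ct 1 5 1 1
  1 (.dc 2 3 0 (.lf 1 9 176)) (.dc 2 3 1 (.lf 1 12 176)))) (.dc 0 9 1 (.ct 1 5 1 1 1 (.dc 2 3 0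
  (.lf 1 10 176)) (.dc 2 3 1 (.lf 1 11 176)))))))))

theorem dt54 : le (run cls4 4 tr54 [[2, 1, 1, 1, 1, 0, 0], [1, 1, 0, 0, 0, 0, 0], [1, 1, 1, 0,
  1, 1, 1], [2, 2, 2, 1, 1, 1, 1], [1, 1, 1, 1, 2, 1, 1], [1, 1, 1, 1, 1, 1, 0], [3, 2, 2, 2, 3,
  2, 2]] 281440616447487 [71, 95, 95, 119, 143, 191, 191]) 4640058862314 = true := by
  decide +kernel

/-- data -/
noncomputable def tr55 : Ct := (.dc 0 1 0 (.dc 0 5 0 (.dc 0 9 0 (.ct 1 6 1 1 1 (.dc 0 3 0 (.dc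
  1 3 0 (.dc 2 3 0 (.ct 0 5 1 1 1 (.dc 1 14 1 (.ct 1 5 1 1 1 (.ct 2 5 1 1 1 (.ct 5 6 1 1 1 (.lf 3
  6 176) (.lf 2 10 160)) (.lf 3 6 176)) (.lf 3 6 176))) (.dc 1 14 0 (.lf 3 7 176)))))) (.dc 0 3 1
  (.ct 1 3 1 1 1 (.dc 1 3 0 (.dc 2 3 0 (.ct 0 5 1 1 1 (.dc 1 14 1 (.ct 2 5 1 1 1 (.ct 5 6 1 1 1
  (.lf 3 10 160) (.lf 2 9 160)) (.lf 3 10 160))) (.dc 1 14 0 (.lf 3 9 160))))) (.ct 1 4 1 1 1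
  (.dc 1 3 0 (.dc 2 3 0 (.ct 0 5 1 1 1 (.dc 1 14 1 (.ct 2 5 1 1 1 (.ct 5 6 1 1 1 (.lf 3 9 176)
  (.lf 2 8 176)) (.lf 3 9 176))) (.dc 1 14 0 (.lf 3 8 176))))) (.ct 0 5 1 1 1 (.dc 1 14 1 (.ct 0
  1 1 1 1 (.dc 1 3 1 (.ct 0 1 1 1 1 (.ct 2 5 1 1 1 (.ct 1 2 1 1 1 (.dc 2 3 0 (.ct 5 6 1 1 1 (.lf
  3 7 224) (.lf 2 7 224))) (.ct 1 5 1 1 1 (.dc 2 3 0 (.ct 1 6 1 1 1 (.ct 5 6 1 1 1 (.lf 3 7 224)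
  (.lf 2 7 224)) (.lf 2 12 224))) (.dc 2 3 1 (.ct 5 6 1 1 1 (.lf 3 12 224) (.lf 2 12 224)))))
  (.ct 1 5 1 1 1 (.dc 2 3 0 (.lf 3 7 224)) (.dc 2 3 1 (.lf 3 12 224)))) (.dc 2 3 0 (.ct 2 5 1 1 1
  (.ct 5 6 1 1 1 (.lf 3 6 192) (.lf 2 8 192)) (.lf 3 7 192))))) (.dc 1 3 0 (.dc 2 3 0 (.ct 2 5 1
  1 1 (.ct 5 6 1 1 1 (.lf 3 8 160) (.lf 2 7 160)) (.lf 3 8 160)))))) (.dc 1 14 0 (.ct 0 1 1 1 1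
  (.ct 1 5 1 1 1 (.dc 1 3 0 (.dc 2 3 0 (.lf 3 8 192))) (.dc 1 3 1 (.ct 1 5 1 1 1 (.dc 2 3 0 (.lf
  3 7 224)) (.dc 2 3 1 (.lf 3 12 224))))) (.dc 1 3 0 (.dc 2 3 0 (.lf 3 8 192)))))))))))))

theorem dt55 : le (run cls4 4 tr55 [[2, 1, 1, 1, 3, 2, 2], [1, 1, 0, 0, 0, 0, 0], [1, 1, 1, 0,
  1, 1, 1], [3, 2, 2, 2, 3, 2, 2], [1, 1, 1, 1, 2, 1, 1], [1, 1, 1, 1, 1, 1, 0], [1, 1, 1, 1, 2,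
  2, 2]] 281439542705621 [35, 59, 59, 59, 107, 119, 119]) 11665434981333 = true := by
  decide +kernel

end Pool.Agent.Work.MP_122e00_nt.Sharp.Cx

end

section

set_option autoImplicit false

set_option maxRecDepth 100000

/-!
# The certificate: data
-/

namespace Pool.Agent.Work.MP_122e00_nt.Sharp.Cx

/-- data -/
noncomputable def tr56 : Ct := (.dc 1 3 0 (.dc 2 3 0 (.ct 0 2 1 1 1 (.dc 0 1 0 (.dc 0 9 0 (.ct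
  0 5 1 1 1 (.ct 5 6 1 1 1 (.dc 1 14 0 (.lf 3 8 192)) (.dc 1 14 1 (.ct 2 5 1 1 1 (.lf 2 8 192)
  (.lf 3 8 192)))) (.dc 1 14 0 (.lf 3 7 192))))) (.dc 0 9 1 (.ct 0 5 1 1 1 (.dc 0 1 0 (.ct 2 5 1
  1 1 (.ct 5 6 1 1 1 (.dc 1 14 0 (.ct 0 6 1 1 1 (.lf 3 7 208) (.lf 2 10 208))) (.dc 1 14 1 (.lf 2
  9 192))) (.dc 1 14 0 (.ct 0 2 1 1 1 (.lf 3 7 192) (.ct 0 6 1 1 1 (.lf 3 8 208) (.lf 2 9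
  208)))))) (.dc 1 14 0 (.ct 0 1 2 1 1 (.dc 0 1 0 (.ct 2 5 1 1 1 (.ct 5 6 1 1 1 (.lf 3 8 208)
  (.lf 2 8 208)) (.lf 3 7 192))) (.ct 0 3 2 1 1 (.dc 0 1 0 (.ct 2 5 1 1 1 (.ct 5 6 1 1 1 (.lf 3 7
  192) (.lf 2 8 176)) (.lf 3 7 192))) (.ct 0 4 1 1 1 (.dc 0 1 0 (.ct 2 5 1 1 1 (.ct 5 6 1 1 1
  (.lf 3 7 192) (.lf 2 7 176)) (.lf 3 7 192))) (.ct 2 5 1 1 1 (.ct 0 6 1 1 1 (.dc 0 1 0 (.ct 0 5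
  1 1 1 (.ct 5 6 1 1 1 (.lf 3 6 192) (.lf 2 8 176)) (.lf 3 6 224))) (.dc 0 1 1 (.ct 5 6 1 1 1
  (.lf 3 12 208) (.lf 2 13 192)))) (.ct 0 6 1 1 1 (.dc 0 1 0 (.lf 3 6 224)) (.dc 0 1 1 (.lf 3 12
  208)))))))))))))

theorem dt56 : le (run cls4 4 tr56 [[1, 0, 0, 0, 1, 0, 0], [4, 3, 2, 2, 3, 2, 2], [1, 1, 1, 0,
  1, 1, 1], [3, 2, 2, 2, 3, 2, 2], [1, 1, 1, 1, 2, 1, 1], [1, 1, 1, 1, 1, 1, 0], [2, 1, 1, 1, 3,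
  2, 2]] 281439542705661 [43, 91, 91, 115, 115, 175, 175]) 4749146948509 = true := by
  decide +kernel

/-- data -/
noncomputable def tr57 : Ct := (.dc 0 1 0 (.dc 0 9 0 (.ct 1 4 1 1 1 (.dc 1 3 0 (.dc 2 3 0 (.ct
  0 5 1 1 1 (.ct 5 6 1 1 1 (.dc 1 14 0 (.lf 3 7 192)) (.dc 1 14 1 (.ct 2 5 1 1 1 (.lf 2 7 192)
  (.lf 3 7 192)))) (.dc 1 14 0 (.lf 3 6 192))))) (.ct 0 5 1 1 1 (.ct 1 6 1 1 1 (.dc 1 3 0 (.dc 2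
  3 0 (.ct 1 5 1 1 1 (.ct 5 6 1 1 1 (.dc 1 14 0 (.lf 3 6 192)) (.dc 1 14 1 (.ct 2 5 1 1 1 (.lf 2
  6 192) (.lf 3 6 192)))) (.dc 1 14 0 (.lf 3 5 192))))) (.dc 1 3 1 (.ct 5 6 1 1 1 (.dc 1 14 0
  (.ct 0 1 1 1 1 (.ct 1 5 1 1 1 (.dc 2 3 0 (.lf 3 8 240)) (.dc 2 3 1 (.lf 3 12 240))) (.dc 2 3 0
  (.lf 3 8 208)))) (.dc 1 14 1 (.ct 0 1 1 1 1 (.ct 1 6 1 1 1 (.dc 2 3 0 (.ct 2 5 1 1 1 (.lf 2 9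
  208) (.lf 3 7 208))) (.ct 1 5 1 1 1 (.dc 2 3 0 (.ct 1 2 1 1 1 (.ct 2 5 1 1 1 (.lf 2 8 240) (.lf
  3 6 240)) (.lf 2 11 240))) (.dc 2 3 1 (.ct 2 5 1 1 1 (.lf 2 12 240) (.lf 3 11 240))))) (.dc 2 3
  0 (.ct 2 5 1 1 1 (.lf 2 9 208) (.lf 3 8 208)))))))) (.dc 1 14 0 (.ct 1 6 1 1 1 (.dc 1 3 0 (.dc
  2 3 0 (.lf 3 5 192))) (.dc 1 3 1 (.ct 1 5 1 1 1 (.dc 2 3 0 (.lf 3 7 208)) (.dc 2 3 1 (.lf 3 12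
  208))))))))))

theorem dt57 : le (run cls4 4 tr57 [[2, 1, 1, 0, 2, 1, 1], [1, 1, 0, 0, 0, 0, 0], [1, 1, 1, 0,
  1, 1, 1], [4, 3, 2, 2, 3, 2, 2], [1, 1, 1, 1, 2, 1, 1], [1, 1, 1, 1, 1, 1, 0], [2, 1, 1, 1, 3,
  2, 2]] 281439542705661 [43, 91, 91, 115, 115, 175, 175]) 3879568959353 = true := by
  decide +kernel

/-- data -/
noncomputable def tr58 : Ct := (.dc 1 3 0 (.dc 2 3 0 (.ct 2 5 1 1 1 (.ct 5 6 1 1 1 (.dc 1 14 0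
  (.ct 0 6 1 1 1 (.lf 3 6 192) (.lf 2 10 192))) (.dc 1 14 1 (.lf 2 9 192))) (.dc 1 14 0 (.ct 0 2
  1 1 1 (.lf 3 7 208) (.ct 0 6 1 1 1 (.lf 3 7 208) (.lf 2 8 208)))))))

theorem dt58 : le (run cls4 4 tr58 [[2, 1, 1, 1, 2, 1, 0], [2, 2, 1, 1, 2, 1, 1], [2, 1, 1, 0,
  2, 1, 1], [4, 3, 2, 2, 3, 2, 2], [1, 1, 1, 1, 2, 1, 1], [1, 1, 1, 1, 1, 1, 0], [2, 1, 1, 1, 3,
  2, 2]] 281439542706175 [47, 119, 119, 119, 119, 203, 203]) 5713783830841 = true := by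
  decide +kernel

end Pool.Agent.Work.MP_122e00_nt.Sharp.Cx

end
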