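import Pool.Agent.Work.MP_122e00_nt.Bd.B03

/-! Bundle of small proof modules (one section per former module). -/

section

set_option autoImplicit false

set_option maxRecDepth 100000

/-!
# The certificate: data
-/

namespace Pool.Agent.Work.MP_122e00_nt.Sharp.Cx

/-- data -/
noncomputable def tr59 : Ct := (.ct 1 6 1 1 1 (.dc 1 3 0 (.dc 2 3 0 (.ct 1 5 1 1 1 (.ct 5 6 1 1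
  1 (.dc 1 14 0 (.ct 0 6 1 1 1 (.lf 3 5 192) (.lf 2 9 192))) (.dc 1 14 1 (.lf 2 8 192))) (.dc 1
  14 0 (.ct 0 1 1 1 1 (.lf 3 4 224) (.ct 0 6 1 1 1 (.lf 3 4 224) (.lf 2 11 224))))))) (.dc 1 3 1
  (.ct 5 6 1 1 1 (.dc 1 14 0 (.ct 1 2 1 1 1 (.dc 2 3 0 (.ct 0 6 1 1 1 (.lf 3 9 240) (.lf 2 9
  240))) (.ct 1 5 1 1 1 (.dc 2 3 0 (.ct 0 6 1 1 1 (.lf 3 9 240) (.lf 2 9 208))) (.ct 0 1 1 1 1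
  (.dc 2 3 1 (.ct 0 6 1 1 1 (.lf 3 12 240) (.lf 2 12 208))) (.dc 2 3 0 (.ct 0 6 1 1 1 (.ct 1 6 1
  1 1 (.lf 3 7 240) (.lf 2 12 208)) (.lf 2 11 208))))))) (.dc 1 14 1 (.ct 0 1 1 1 1 (.ct 1 2 1 1
  1 (.dc 2 3 0 (.lf 2 11 208)) (.ct 1 5 1 1 1 (.dc 2 3 0 (.lf 2 9 176)) (.ct 1 6 1 1 1 (.dc 2 3 0
  (.lf 2 9 208)) (.dc 2 3 1 (.lf 2 12 208))))) (.dc 2 3 0 (.lf 2 10 192)))))))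

theorem dt59 : le (run cls4 4 tr59 [[2, 1, 1, 1, 2, 1, 0], [1, 1, 0, 0, 0, 0, 0], [3, 2, 2, 1,
  3, 2, 1], [4, 3, 2, 2, 3, 2, 2], [2, 2, 1, 1, 2, 1, 1], [1, 1, 1, 1, 1, 1, 0], [2, 1, 1, 1, 3,
  2, 2]] 281439542706175 [47, 119, 119, 119, 119, 203, 203]) 3193524443613 = true := by
  decide +kernel

/-- data -/
noncomputable def tr60 : Ct := (.dc 1 14 0 (.ct 1 6 1 1 1 (.dc 1 3 0 (.dc 2 3 0 (.ct 0 1 1 1 1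
  (.lf 3 4 224) (.ct 0 2 1 1 1 (.lf 3 5 240) (.ct 0 6 1 1 1 (.lf 3 6 240) (.lf 2 10 240))))))
  (.dc 1 3 1 (.ct 1 5 1 1 1 (.dc 2 3 0 (.ct 0 2 1 1 1 (.lf 3 7 208) (.ct 0 6 1 1 1 (.lf 3 7 240)
  (.lf 2 11 240)))) (.ct 0 2 1 1 1 (.ct 0 1 1 1 1 (.dc 2 3 1 (.lf 3 12 208)) (.dc 2 3 0 (.lf 3 8
  208))) (.ct 1 2 1 1 1 (.dc 2 3 0 (.ct 0 6 1 1 1 (.lf 3 8 240) (.lf 2 9 208))) (.ct 0 1 1 1 1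
  (.dc 2 3 1 (.ct 0 6 1 1 1 (.lf 3 12 208) (.lf 2 12 176))) (.dc 2 3 0 (.ct 0 6 1 1 1 (.ct 1 6 1
  1 1 (.lf 3 8 240) (.lf 2 11 208)) (.lf 2 10 208))))))))))

theorem dt60 : le (run cls4 4 tr60 [[2, 1, 1, 1, 2, 1, 0], [1, 1, 0, 0, 0, 0, 0], [2, 1, 1, 0,
  2, 1, 1], [4, 3, 2, 2, 3, 2, 2], [2, 2, 1, 1, 2, 1, 1], [3, 2, 2, 1, 3, 2, 1], [2, 1, 1, 1, 3,
  2, 2]] 281439542706175 [47, 119, 119, 119, 119, 203, 203]) 2187481681240 = true := by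
  decide +kernel

/-- data -/
noncomputable def tr61 : Ct := (.dc 1 3 0 (.dc 2 3 0 (.ct 0 1 1 1 1 (.dc 0 1 0 (.ct 2 5 1 1 1
  (.ct 5 6 1 1 1 (.lf 3 7 176) (.lf 2 8 176)) (.lf 3 7 176))) (.ct 0 3 2 1 1 (.dc 0 1 0 (.ct 2 5
  1 1 1 (.ct 5 6 1 1 1 (.lf 3 7 208) (.lf 2 7 208)) (.lf 3 6 192))) (.ct 0 4 1 1 1 (.dc 0 1 0
  (.ct 2 5 1 1 1 (.ct 5 6 1 1 1 (.lf 3 7 192) (.lf 2 7 192)) (.lf 3 6 192))) (.ct 2 5 1 1 1 (.ct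
  0 6 1 1 1 (.dc 0 1 0 (.ct 0 5 1 1 1 (.ct 5 6 1 1 1 (.lf 3 5 192) (.lf 2 7 192)) (.lf 3 6 224)))
  (.dc 0 1 1 (.ct 5 6 1 1 1 (.lf 3 12 224) (.lf 2 13 192)))) (.ct 0 6 1 1 1 (.dc 0 1 0 (.lf 3 6
  224)) (.dc 0 1 1 (.lf 3 12 224)))))))))

theorem dt61 : le (run cls4 4 tr61 [[1, 0, 0, 0, 1, 0, 0], [2, 2, 1, 1, 2, 1, 1], [2, 1, 1, 0,
  2, 1, 1], [4, 3, 2, 2, 3, 2, 2], [1, 1, 1, 1, 2, 1, 1], [2, 1, 1, 1, 2, 1, 0], [2, 1, 1, 1, 3,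
  2, 2]] 281440616447997 [47, 119, 119, 119, 119, 203, 203]) 2953865452214 = true := by
  decide +kernel

end Pool.Agent.Work.MP_122e00_nt.Sharp.Cx

end

section

set_option autoImplicit false

set_option maxRecDepth 100000

/-!
# The certificate: data
-/

namespace Pool.Agent.Work.MP_122e00_nt.Sharp.Cx

/-- data -/
noncomputable def tr62 : Ct := (.dc 1 3 0 (.dc 2 3 0 (.ct 0 3 2 1 1 (.dc 0 1 0 (.ct 1 5 1 1 1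
  (.ct 2 5 1 1 1 (.ct 5 6 1 1 1 (.lf 3 6 208) (.lf 2 9 208)) (.lf 3 6 208)) (.lf 3 7 224))) (.ct
  0 4 1 1 1 (.dc 0 1 0 (.ct 1 5 1 1 1 (.ct 2 5 1 1 1 (.ct 5 6 1 1 1 (.lf 3 5 192) (.lf 2 8 192))
  (.lf 3 5 192)) (.lf 3 6 208))) (.ct 2 5 1 1 1 (.ct 0 1 1 1 1 (.dc 0 1 0 (.ct 0 5 1 1 1 (.ct 1 5
  1 1 1 (.ct 5 6 1 1 1 (.lf 3 5 192) (.lf 2 7 192)) (.lf 3 5 208)) (.lf 3 5 208))) (.ct 1 5 1 1 1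
  (.ct 0 6 1 1 1 (.dc 0 1 0 (.ct 0 5 1 1 1 (.ct 5 6 1 1 1 (.lf 3 5 192) (.lf 2 7 192)) (.lf 3 5
  208))) (.dc 0 1 1 (.ct 5 6 1 1 1 (.lf 3 12 208) (.lf 2 13 176)))) (.ct 0 6 1 1 1 (.dc 0 1 0
  (.lf 3 5 208)) (.dc 0 1 1 (.lf 3 12 208))))) (.ct 0 1 1 1 1 (.dc 0 1 0 (.lf 3 6 208)) (.ct 0 6
  1 1 1 (.dc 0 1 0 (.lf 3 6 208)) (.dc 0 1 1 (.lf 3 12 208)))))))))

theorem dt62 : le (run cls4 4 tr62 [[1, 0, 0, 0, 1, 0, 0], [3, 2, 1, 1, 3, 2, 2], [2, 1, 1, 0,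
  2, 1, 1], [4, 3, 2, 2, 3, 2, 2], [2, 2, 1, 1, 2, 1, 1], [2, 1, 1, 1, 2, 1, 0], [2, 1, 1, 1, 3,
  2, 2]] 281440616447997 [47, 119, 119, 119, 119, 203, 203]) 2263860597795 = true := by
  decide +kernel

/-- data -/
noncomputable def tr63 : Ct := (.dc 0 1 0 (.ct 2 5 1 1 1 (.ct 1 2 1 1 1 (.dc 2 3 0 (.ct 5 6 1 1
  1 (.lf 3 8 240) (.lf 2 9 208))) (.ct 1 5 1 1 1 (.dc 2 3 0 (.ct 1 6 1 1 1 (.ct 5 6 1 1 1 (.lf 3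
  8 224) (.lf 2 9 208)) (.lf 2 10 208))) (.dc 2 3 1 (.ct 5 6 1 1 1 (.lf 3 12 224) (.lf 2 12
  208))))) (.ct 1 5 1 1 1 (.dc 2 3 0 (.lf 3 8 240)) (.dc 2 3 1 (.lf 3 12 224)))))

theorem dt63 : le (run cls4 4 tr63 [[6, 3, 2, 2, 5, 2, 2], [1, 1, 0, 0, 0, 0, 0], [2, 1, 1, 0,
  2, 1, 1], [4, 3, 2, 2, 3, 2, 2], [2, 2, 1, 1, 2, 1, 1], [2, 1, 1, 1, 2, 1, 0], [3, 2, 1, 1, 3,
  2, 2]] 281440616972285 [51, 123, 147, 147, 147, 207, 231]) 2097324290491 = true := by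
  decide +kernel

/-- data -/
noncomputable def tr64 : Ct := (.ct 0 4 1 1 1 (.dc 0 1 0 (.ct 2 5 1 1 1 (.ct 1 2 1 1 1 (.dc 2 3
  0 (.ct 5 6 1 1 1 (.lf 3 7 240) (.lf 2 7 208))) (.ct 1 5 1 1 1 (.dc 2 3 0 (.ct 1 6 1 1 1 (.ct 5
  6 1 1 1 (.lf 3 7 224) (.lf 2 8 208)) (.lf 2 9 208))) (.dc 2 3 1 (.ct 5 6 1 1 1 (.lf 3 11 224)
  (.lf 2 12 208))))) (.ct 1 5 1 1 1 (.dc 2 3 0 (.lf 3 7 240)) (.dc 2 3 1 (.lf 3 11 224))))) (.ct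
  0 6 1 1 1 (.dc 0 1 0 (.ct 0 5 1 1 1 (.ct 0 1 1 1 1 (.ct 2 5 1 1 1 (.ct 1 2 1 1 1 (.dc 2 3 0
  (.ct 5 6 1 1 1 (.lf 3 6 256) (.lf 2 6 224))) (.ct 1 5 1 1 1 (.dc 2 3 0 (.ct 1 6 1 1 1 (.ct 5 6
  1 1 1 (.lf 3 6 240) (.lf 2 6 224)) (.lf 2 10 240))) (.dc 2 3 1 (.ct 5 6 1 1 1 (.lf 3 11 240)
  (.lf 2 12 240))))) (.ct 1 5 1 1 1 (.dc 2 3 0 (.lf 3 6 256)) (.dc 2 3 1 (.lf 3 11 240)))) (.dc 2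
  3 0 (.ct 2 5 1 1 1 (.ct 5 6 1 1 1 (.lf 3 5 240) (.lf 2 7 208)) (.lf 3 5 240)))) (.ct 1 5 1 1 1
  (.dc 2 3 0 (.lf 3 6 240)) (.dc 2 3 1 (.lf 3 11 240))))) (.dc 0 1 1 (.ct 2 5 1 1 1 (.ct 1 2 1 1
  1 (.dc 2 3 0 (.ct 5 6 1 1 1 (.lf 3 13 192) (.lf 2 13 192))) (.ct 1 5 1 1 1 (.dc 2 3 0 (.ct 1 6
  1 1 1 (.ct 5 6 1 1 1 (.lf 3 13 224) (.lf 2 13 224)) (.lf 2 13 240))) (.dc 2 3 1 (.ct 5 6 1 1 1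
  (.lf 3 10 224) (.lf 2 11 224))))) (.ct 1 5 1 1 1 (.dc 2 3 0 (.lf 3 13 192)) (.dc 2 3 1 (.lf 3
  10 192)))))))

theorem dt64 : le (run cls4 4 tr64 [[1, 0, 0, 0, 1, 0, 0], [1, 1, 0, 0, 0, 0, 0], [2, 1, 1, 0,
  2, 1, 1], [6, 3, 2, 2, 5, 2, 2], [2, 2, 1, 1, 2, 1, 1], [2, 1, 1, 1, 2, 1, 0], [3, 2, 1, 1, 3,
  2, 2]] 281440616972285 [51, 123, 147, 147, 147, 207, 231]) 650645376032 = true := by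
  decide +kernel

end Pool.Agent.Work.MP_122e00_nt.Sharp.Cx

end

section

set_option autoImplicit false

set_option maxRecDepth 100000

/-!
# The certificate: data
-/

namespace Pool.Agent.Work.MP_122e00_nt.Sharp.Cx

/-- data -/
noncomputable def tr65 : Ct := (.dc 0 9 1 (.ct 0 5 1 1 1 (.dc 0 1 0 (.dc 1 14 1 (.ct 1 4 1 1 1
  (.dc 1 3 0 (.dc 2 3 0 (.lf 1 10 160))) (.ct 1 6 1 1 1 (.dc 1 3 0 (.dc 2 3 0 (.lf 1 10 176)))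
  (.dc 1 3 1 (.ct 0 1 1 1 1 (.ct 1 5 1 1 1 (.dc 2 3 0 (.lf 1 10 176)) (.dc 2 3 1 (.lf 1 11 176)))
  (.dc 2 3 0 (.lf 1 10 176)))))))) (.dc 1 14 0 (.ct 1 4 1 1 1 (.dc 1 3 0 (.dc 2 3 0 (.ct 0 1 1 1
  1 (.dc 0 1 0 (.lf 1 9 160)) (.ct 0 2 1 1 1 (.dc 0 1 0 (.lf 1 9 176)) (.ct 0 4 1 1 1 (.dc 0 1 0
  (.lf 1 9 192)) (.ct 0 6 2 1 1 (.dc 0 1 0 (.lf 1 9 192)) (.dc 0 1 1 (.lf 1 12 176)))))))) (.ct 1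
  6 1 1 1 (.dc 1 3 0 (.dc 2 3 0 (.ct 0 1 2 1 1 (.dc 0 1 0 (.lf 1 10 208)) (.ct 0 2 1 1 1 (.dc 0 1
  0 (.lf 1 9 224)) (.ct 0 4 1 1 1 (.dc 0 1 0 (.lf 1 9 224)) (.ct 0 6 2 1 1 (.dc 0 1 0 (.lf 1 9
  224)) (.dc 0 1 1 (.lf 1 12 208)))))))) (.dc 1 3 1 (.ct 0 2 1 1 1 (.dc 0 1 0 (.ct 1 5 1 1 1 (.dc
  2 3 0 (.lf 1 10 192)) (.dc 2 3 1 (.lf 1 11 192)))) (.ct 0 4 1 1 1 (.dc 0 1 0 (.ct 1 5 1 1 1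
  (.dc 2 3 0 (.lf 1 10 192)) (.dc 2 3 1 (.lf 1 11 192)))) (.ct 0 6 2 1 1 (.dc 0 1 0 (.ct 1 5 1 1
  1 (.dc 2 3 0 (.lf 1 9 224)) (.dc 2 3 1 (.lf 1 11 224)))) (.dc 0 1 1 (.ct 1 5 1 1 1 (.dc 2 3 0
  (.lf 1 12 208)) (.dc 2 3 1 (.lf 1 10 208)))))))))))))

theorem dt65 : le (run cls4 4 tr65 [[1, 0, 0, 0, 1, 0, 0], [1, 1, 0, 0, 0, 0, 0], [3, 2, 2, 1,
  2, 1, 1], [2, 1, 1, 1, 1, 0, 0], [1, 1, 1, 1, 2, 1, 1], [1, 1, 1, 1, 1, 1, 0], [3, 2, 2, 2, 3,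
  2, 2]] 281439542705661 [43, 91, 91, 115, 115, 175, 175]) 3435485654740 = true := by
  decide +kernel

/-- data -/
noncomputable def tr66 : Ct := (.dc 0 1 0 (.dc 0 9 0 (.ct 1 4 1 1 1 (.dc 1 3 0 (.dc 2 3 0 (.ct
  0 5 1 1 1 (.dc 1 14 1 (.ct 2 5 1 1 1 (.lf 2 8 192) (.lf 3 9 192))) (.dc 1 14 0 (.lf 3 9
  192))))) (.ct 1 6 1 1 1 (.dc 1 3 0 (.dc 2 3 0 (.ct 0 5 1 1 1 (.dc 1 14 1 (.ct 2 5 1 1 1 (.lf 2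
  9 208) (.lf 3 8 208))) (.dc 1 14 0 (.lf 3 7 208))))) (.dc 1 3 1 (.ct 0 5 1 1 1 (.dc 1 14 1 (.ct
  0 1 1 1 1 (.ct 1 5 1 1 1 (.dc 2 3 0 (.ct 1 2 1 1 1 (.ct 2 5 1 1 1 (.lf 2 7 208) (.lf 3 6 208))
  (.lf 2 10 208))) (.dc 2 3 1 (.ct 2 5 1 1 1 (.lf 2 12 208) (.lf 3 11 208)))) (.dc 2 3 0 (.ct 2 5
  1 1 1 (.lf 2 8 208) (.lf 3 6 208))))) (.dc 1 14 0 (.ct 1 5 1 1 1 (.dc 2 3 0 (.lf 3 6 208)) (.dc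
  2 3 1 (.lf 3 11 176))))))))))

theorem dt66 : le (run cls4 4 tr66 [[2, 1, 1, 0, 2, 1, 1], [1, 1, 0, 0, 0, 0, 0], [1, 1, 1, 0,
  1, 1, 1], [3, 2, 2, 1, 2, 1, 1], [1, 1, 1, 1, 2, 1, 1], [1, 1, 1, 1, 1, 1, 0], [3, 2, 2, 2, 3,
  2, 2]] 281439542705661 [43, 91, 91, 115, 115, 175, 175]) 4690273816477 = true := by
  decide +kernel

end Pool.Agent.Work.MP_122e00_nt.Sharp.Cx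

end

section

set_option autoImplicit false

set_option maxRecDepth 100000

/-!
# The certificate: data
-/

namespace Pool.Agent.Work.MP_122e00_nt.Sharp.Cx

/-- data -/
noncomputable def tr67 : Ct := (.dc 0 1 0 (.ct 1 4 1 1 1 (.dc 1 3 0 (.dc 2 3 0 (.ct 2 5 1 1 1
  (.dc 1 14 1 (.lf 2 8 192)) (.dc 1 14 0 (.ct 0 2 1 1 1 (.lf 3 7 192) (.lf 2 8 192)))))) (.ct 1 6
  1 1 1 (.dc 1 3 0 (.dc 2 3 0 (.ct 2 5 1 1 1 (.dc 1 14 1 (.lf 2 9 208)) (.dc 1 14 0 (.ct 0 2 1 1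
  1 (.lf 3 8 208) (.lf 2 8 208)))))) (.dc 1 3 1 (.ct 2 5 1 1 1 (.dc 1 14 1 (.ct 0 1 1 1 1 (.ct 1
  2 1 1 1 (.dc 2 3 0 (.lf 2 11 208)) (.ct 1 5 1 1 1 (.dc 2 3 0 (.lf 2 10 176)) (.dc 2 3 1 (.lf 2
  12 176)))) (.dc 2 3 0 (.lf 2 11 192)))) (.dc 1 14 0 (.ct 1 5 1 1 1 (.dc 2 3 0 (.ct 0 2 1 1 1
  (.lf 3 9 208) (.lf 2 9 208))) (.ct 0 1 1 1 1 (.dc 2 3 1 (.ct 0 2 1 1 1 (.lf 3 12 176) (.lf 2 12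
  176))) (.dc 2 3 0 (.ct 0 2 1 1 1 (.ct 1 2 1 1 1 (.lf 3 9 176) (.lf 2 10 176)) (.lf 2 10
  176)))))))))))

theorem dt67 : le (run cls4 4 tr67 [[2, 1, 1, 1, 2, 1, 0], [1, 1, 0, 0, 0, 0, 0], [2, 1, 1, 0,
  2, 1, 1], [3, 2, 2, 1, 2, 1, 1], [1, 1, 1, 1, 2, 1, 1], [1, 1, 1, 1, 1, 1, 0], [3, 2, 2, 2, 3,
  2, 2]] 281439542706173 [47, 119, 119, 119, 119, 203, 203]) 3802164167442 = true := by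
  decide +kernel

/-- data -/
noncomputable def tr68 : Ct := (.dc 1 3 0 (.dc 2 3 0 (.ct 0 1 1 1 1 (.dc 0 1 0 (.ct 2 5 1 1 1
  (.lf 2 7 160) (.lf 3 7 160))) (.ct 0 3 1 1 1 (.dc 0 1 0 (.ct 2 5 1 1 1 (.lf 2 6 176) (.lf 3 7
  176))) (.ct 0 4 1 1 1 (.dc 0 1 0 (.ct 2 5 1 1 1 (.lf 2 7 192) (.lf 3 8 192))) (.ct 0 6 2 1 1
  (.dc 0 1 0 (.ct 2 5 1 1 1 (.lf 2 7 192) (.lf 3 8 192))) (.dc 0 1 1 (.ct 2 5 1 1 1 (.lf 2 13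
  192) (.lf 3 13 192)))))))))

theorem dt68 : le (run cls4 4 tr68 [[1, 0, 0, 0, 1, 0, 0], [2, 2, 1, 1, 2, 1, 1], [2, 1, 1, 0,
  2, 1, 1], [3, 2, 2, 1, 2, 1, 1], [1, 1, 1, 1, 2, 1, 1], [2, 1, 1, 1, 2, 1, 0], [3, 2, 2, 2, 3,
  2, 2]] 281440616447997 [47, 119, 119, 119, 119, 203, 203]) 3809417516076 = true := by
  decide +kernel

end Pool.Agent.Work.MP_122e00_nt.Sharp.Cx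

end

section

set_option autoImplicit false

set_option maxRecDepth 100000

/-!
# The certificate: data
-/

namespace Pool.Agent.Work.MP_122e00_nt.Sharp.Cx

/-- data -/
noncomputable def tr69 : Ct := (.ct 1 6 1 1 1 (.dc 1 3 0 (.dc 2 3 0 (.ct 0 1 2 1 1 (.dc 0 1 0
  (.ct 2 5 1 1 1 (.lf 2 7 208) (.lf 3 7 208))) (.ct 0 3 1 1 1 (.dc 0 1 0 (.ct 2 5 1 1 1 (.lf 2 7
  224) (.lf 3 8 224))) (.ct 0 4 1 1 1 (.dc 0 1 0 (.ct 2 5 1 1 1 (.lf 2 7 224) (.lf 3 8 224)))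
  (.ct 0 6 2 1 1 (.dc 0 1 0 (.ct 2 5 1 1 1 (.lf 2 6 224) (.lf 3 7 224))) (.dc 0 1 1 (.ct 2 5 1 1
  1 (.lf 2 13 224) (.lf 3 12 224))))))))) (.dc 1 3 1 (.ct 0 3 1 1 1 (.dc 0 1 0 (.ct 1 5 1 1 1
  (.dc 2 3 0 (.ct 1 2 1 1 1 (.ct 2 5 1 1 1 (.lf 2 8 208) (.lf 3 9 208)) (.lf 2 9 192))) (.dc 2 3
  1 (.ct 2 5 1 1 1 (.lf 2 12 192) (.lf 3 12 192))))) (.ct 0 4 1 1 1 (.dc 0 1 0 (.ct 1 5 1 1 1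
  (.dc 2 3 0 (.ct 1 2 1 1 1 (.ct 2 5 1 1 1 (.lf 2 8 208) (.lf 3 9 208)) (.lf 2 9 192))) (.dc 2 3
  1 (.ct 2 5 1 1 1 (.lf 2 12 192) (.lf 3 12 192))))) (.ct 0 6 2 1 1 (.dc 0 1 0 (.ct 1 5 1 1 1
  (.dc 2 3 0 (.ct 1 2 1 1 1 (.ct 2 5 1 1 1 (.lf 2 6 224) (.lf 3 8 224)) (.lf 2 8 224))) (.dc 2 3
  1 (.ct 2 5 1 1 1 (.lf 2 11 224) (.lf 3 12 208))))) (.dc 0 1 1 (.ct 1 5 1 1 1 (.dc 2 3 0 (.ct 1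
  2 1 1 1 (.ct 2 5 1 1 1 (.lf 2 13 224) (.lf 3 12 224)) (.lf 2 13 224))) (.dc 2 3 1 (.ct 2 5 1 1
  1 (.lf 2 11 224) (.lf 3 10 208))))))))))

theorem dt69 : le (run cls4 4 tr69 [[1, 0, 0, 0, 1, 0, 0], [1, 1, 0, 0, 0, 0, 0], [2, 1, 1, 0,
  2, 1, 1], [3, 2, 2, 1, 2, 1, 1], [2, 2, 1, 1, 2, 1, 1], [2, 1, 1, 1, 2, 1, 0], [3, 2, 2, 2, 3,
  2, 2]] 281440616447997 [47, 119, 119, 119, 119, 203, 203]) 1501236319635 = true := by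
  decide +kernel

end Pool.Agent.Work.MP_122e00_nt.Sharp.Cx

end

section

set_option autoImplicit false

set_option maxRecDepth 100000

/-!
# The certificate: data
-/

namespace Pool.Agent.Work.MP_122e00_nt.Sharp.Cx

/-- data -/
noncomputable def tr70 : Ct := (.dc 0 1 1 (.dc 0 2 1 (.dc 0 4 1 (.dc 0 9 1 (.dc 0 10 1 (.dc 0
  12 1 (.dc 1 7 0 (.dc 2 7 0 (.ct 3 6 1 1 1 (.dc 1 15 0 (.dc 2 15 0 (.ct 2 4 1 2 1 (.dc 0 8 1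
  (.ct 3 4 1 2 1 (.dc 0 0 1 (.lf 3 11 160)) (.dc 0 0 0 (.lf 3 7 144)))) (.dc 0 0 0 (.dc 0 8 0
  (.lf 3 8 144)))))) (.ct 3 4 1 2 1 (.dc 1 15 0 (.dc 2 15 0 (.ct 2 3 1 1 1 (.dc 0 8 1 (.ct 2 4 1
  2 1 (.ct 4 6 2 1 1 (.dc 0 0 0 (.ct 3 5 1 1 1 (.lf 2 6 160) (.lf 1 6 176))) (.dc 0 0 1 (.ct 3 5
  1 1 1 (.lf 2 11 160) (.lf 1 13 176)))) (.dc 0 0 0 (.ct 3 5 1 1 1 (.lf 2 6 192) (.lf 1 6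
  176))))) (.ct 2 4 1 2 1 (.dc 0 8 1 (.ct 3 4 1 2 1 (.ct 4 6 2 1 1 (.dc 0 0 0 (.lf 3 6 160)) (.dc
  0 0 1 (.lf 3 11 160))) (.dc 0 0 0 (.lf 3 6 176)))) (.dc 0 0 0 (.dc 0 8 0 (.lf 3 7 160)))))))
  (.dc 0 0 0 (.dc 1 15 1 (.ct 2 4 1 1 1 (.dc 0 8 1 (.ct 3 5 1 1 1 (.dc 2 15 0 (.ct 4 5 1 1 1 (.lf
  2 7 160) (.lf 1 7 160))) (.dc 2 15 1 (.lf 1 8 160)))) (.dc 0 8 0 (.ct 3 5 1 1 1 (.dc 2 15 0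
  (.ct 2 3 1 1 1 (.lf 2 8 160) (.lf 3 8 160))) (.dc 2 15 1 (.ct 2 3 1 1 1 (.lf 1 10 192) (.ct 2 5
  1 1 1 (.lf 2 11 176) (.lf 3 10 176)))))))))))))))))))

theorem dt70 : le (run cls4 4 tr70 [[1, 0, 0, 0, 1, 0, 0], [1, 1, 0, 0, 2, 0, 0], [1, 1, 1, 0,
  3, 1, 1], [1, 1, 1, 1, 2, 0, 0], [0, 0, 0, 0, 1, 0, 0], [0, 0, 0, 0, 1, 1, 0], [0, 0, 0, 0, 2,
  1, 1]] 140185576663272 [57, 57, 57, 105, 21, 147, 147]) 19528936427 = true := by decide +kernel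

/-- data -/
noncomputable def tr71 : Ct := (.dc 1 7 0 (.dc 1 15 0 (.dc 2 7 0 (.dc 2 15 0 (.ct 1 2 1 1 1
  (.dc 0 2 0 (.ct 0 2 1 1 1 (.dc 0 1 0 (.lf 3 6 192)) (.dc 0 1 1 (.lf 3 11 192)))) (.dc 0 1 1
  (.dc 0 2 1 (.lf 3 9 160))))))))

theorem dt71 : le (run cls4 4 tr71 [[1, 0, 0, 0, 1, 0, 0], [1, 1, 0, 0, 2, 0, 0], [2, 2, 2, 1,
  7, 3, 3], [1, 1, 1, 1, 4, 1, 1], [1, 1, 1, 0, 3, 1, 1], [0, 0, 0, 0, 1, 1, 0], [0, 0, 0, 0, 2,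
  1, 1]] 140185576669177 [117, 117, 117, 117, 33, 231, 231]) 11839584108 = true := by
  decide +kernel

/-- data -/
noncomputable def tr72 : Ct := (.dc 1 7 0 (.dc 2 7 0 (.ct 1 6 1 1 1 (.dc 0 2 0 (.ct 0 6 1 1 1
  (.dc 0 1 0 (.ct 2 5 1 1 1 (.dc 2 15 0 (.lf 3 6 208)) (.dc 2 15 1 (.lf 3 9 208)))) (.ct 0 2 1 1
  1 (.dc 0 1 0 (.ct 0 5 1 1 1 (.ct 2 5 1 1 1 (.dc 2 15 0 (.lf 3 6 208)) (.dc 2 15 1 (.lf 3 10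
  208))) (.dc 2 15 1 (.lf 3 10 208)))) (.dc 0 1 1 (.ct 2 5 1 1 1 (.dc 2 15 0 (.lf 3 11 192)) (.dc
  2 15 1 (.lf 3 12 208))))))) (.ct 1 2 1 1 1 (.dc 0 2 0 (.ct 1 5 1 1 1 (.ct 0 2 1 1 1 (.dc 0 1 0
  (.ct 0 5 1 1 1 (.ct 2 5 1 1 1 (.dc 2 15 0 (.lf 3 5 208)) (.dc 2 15 1 (.lf 3 9 208))) (.dc 2 15
  1 (.lf 3 9 208)))) (.dc 0 1 1 (.ct 2 5 1 1 1 (.dc 2 15 0 (.lf 3 11 192)) (.dc 2 15 1 (.lf 3 13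
  208))))) (.dc 2 15 1 (.ct 0 2 1 1 1 (.dc 0 1 0 (.lf 3 8 208)) (.dc 0 1 1 (.lf 3 13 208))))))
  (.dc 0 1 1 (.dc 0 2 1 (.ct 2 5 1 1 1 (.dc 2 15 0 (.lf 3 9 192)) (.dc 2 15 1 (.lf 3 11
  192)))))))))

theorem dt72 : le (run cls4 4 tr72 [[1, 0, 0, 0, 1, 0, 0], [1, 1, 0, 0, 2, 0, 0], [2, 2, 2, 1,
  5, 2, 2], [1, 1, 1, 1, 4, 1, 1], [1, 1, 1, 0, 3, 1, 1], [0, 0, 0, 0, 1, 1, 0], [2, 2, 2, 1, 7,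
  3, 3]] 140187724152825 [118, 118, 118, 118, 40, 232, 238]) 38655760817 = true := by
  decide +kernel

/-- data -/
noncomputable def tr73 : Ct := (.dc 0 2 0 (.ct 2 3 1 1 1 (.dc 1 7 0 (.dc 2 7 0 (.ct 1 5 1 1 1
  (.ct 0 2 1 1 1 (.dc 0 1 0 (.ct 0 5 1 2 1 (.ct 2 5 1 2 1 (.ct 5 6 1 1 1 (.dc 2 15 1 (.lf 3 8
  272)) (.dc 2 15 0 (.lf 3 5 256))) (.dc 2 15 1 (.lf 3 7 240))) (.dc 2 15 1 (.lf 3 6 224)))) (.ct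
  2 5 1 2 1 (.ct 0 6 1 1 1 (.dc 0 1 0 (.ct 0 5 1 1 1 (.ct 5 6 1 1 1 (.dc 2 15 1 (.lf 3 8 240))
  (.dc 2 15 0 (.lf 3 5 224))) (.dc 2 15 1 (.lf 3 8 240)))) (.dc 0 1 1 (.ct 5 6 1 1 1 (.dc 2 15 1
  (.lf 3 13 224)) (.dc 2 15 0 (.lf 3 11 208))))) (.dc 2 15 1 (.ct 0 6 1 1 1 (.dc 0 1 0 (.lf 3 7
  240)) (.dc 0 1 1 (.lf 3 13 224)))))) (.dc 2 15 1 (.ct 0 2 1 1 1 (.dc 0 1 0 (.lf 3 6 192)) (.ct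
  0 6 1 1 1 (.dc 0 1 0 (.lf 3 7 208)) (.dc 0 1 1 (.lf 3 13 208)))))))) (.dc 1 7 1 (.ct 2 5 1 1 1
  (.dc 2 7 0 (.ct 1 5 1 1 1 (.ct 0 2 1 1 1 (.dc 0 1 0 (.ct 0 5 1 1 1 (.ct 2 5 1 1 1 (.ct 3 5 1 2
  1 (.ct 5 6 1 1 1 (.dc 2 15 1 (.lf 3 7 224)) (.dc 2 15 0 (.lf 3 4 224))) (.dc 2 15 1 (.lf 3 8
  224))) (.dc 2 15 1 (.lf 3 8 224))) (.dc 2 15 1 (.lf 3 6 224)))) (.ct 2 5 1 1 1 (.ct 0 3 1 1 1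
  (.dc 0 1 0 (.ct 0 5 1 2 1 (.ct 3 5 1 2 1 (.ct 5 6 1 1 1 (.dc 2 15 1 (.lf 3 6 256)) (.dc 2 15 0
  (.lf 3 4 240))) (.dc 2 15 1 (.lf 3 6 256))) (.dc 2 15 1 (.lf 3 7 224)))) (.ct 3 5 1 2 1 (.ct 0
  6 1 1 1 (.dc 0 1 0 (.ct 0 5 1 1 1 (.ct 5 6 1 1 1 (.dc 2 15 1 (.lf 3 7 240)) (.dc 2 15 0 (.lf 3
  4 224))) (.dc 2 15 1 (.lf 3 7 240)))) (.dc 0 1 1 (.ct 5 6 1 1 1 (.dc 2 15 1 (.lf 3 13 224))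
  (.dc 2 15 0 (.lf 3 11 224))))) (.dc 2 15 1 (.ct 0 6 1 1 1 (.dc 0 1 0 (.lf 3 8 224)) (.dc 0 1 1
  (.lf 3 13 208)))))) (.dc 2 15 1 (.ct 0 3 1 1 1 (.dc 0 1 0 (.lf 3 7 192)) (.ct 0 6 1 1 1 (.dc 0
  1 0 (.lf 3 8 192)) (.dc 0 1 1 (.lf 3 13 192))))))) (.dc 2 15 1 (.ct 0 2 1 1 1 (.dc 0 1 0 (.lf 3
  6 208)) (.ct 0 3 1 1 1 (.dc 0 1 0 (.lf 3 6 192)) (.ct 0 6 1 1 1 (.dc 0 1 0 (.lf 3 7 208)) (.dc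
  0 1 1 (.lf 3 13 208)))))))) (.dc 2 7 1 (.dc 2 15 1 (.ct 0 2 1 1 1 (.dc 0 1 0 (.lf 3 8 224))
  (.ct 0 3 1 1 1 (.dc 0 1 0 (.lf 3 7 224)) (.ct 0 5 1 1 1 (.dc 0 1 0 (.lf 3 7 192)) (.ct 0 6 1 1
  1 (.dc 0 1 0 (.lf 3 7 208)) (.dc 0 1 1 (.lf 3 13 208))))))))))))

theorem dt73 : le (run cls4 4 tr73 [[1, 0, 0, 0, 1, 0, 0], [3, 3, 2, 1, 7, 2, 2], [2, 2, 2, 1,
  3, 1, 1], [1, 1, 1, 1, 4, 1, 1], [1, 1, 1, 0, 3, 1, 1], [0, 0, 0, 0, 1, 1, 0], [2, 2, 2, 1, 5,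
  2, 2]] 140187724152825 [118, 118, 118, 118, 40, 232, 238]) 185178327558 = true := by
  decide +kernel

end Pool.Agent.Work.MP_122e00_nt.Sharp.Cx

end
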