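import Pool.Agent.Work.MP_122e00_nt.Bd.B03

/-! Bundle of small proof modules (one section per former module). -/

section

set_option autoImplicit false

set_option maxRecDepth 100000

/-!
# The certificate: data
-/

namespace Pool.Agent.Work.MP_122e00_nt.Sharp.Cx

/-- data -/
noncomputable def tr74 : Ct := (.ct 1 2 1 1 1 (.dc 0 2 0 (.ct 1 3 1 1 1 (.ct 2 3 1 1 1 (.dc 1 7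
  0 (.dc 2 7 0 (.ct 1 5 1 2 1 (.ct 5 6 1 1 1 (.dc 2 15 1 (.ct 0 2 1 1 1 (.dc 0 1 0 (.lf 3 6 192))
  (.dc 0 1 1 (.lf 3 13 192)))) (.ct 0 2 1 1 1 (.dc 0 1 0 (.ct 0 5 1 2 1 (.ct 2 5 1 2 1 (.dc 2 15
  0 (.lf 3 4 240)) (.dc 2 15 1 (.lf 3 9 240))) (.dc 2 15 1 (.lf 3 7 208)))) (.dc 0 1 1 (.ct 2 5 1
  2 1 (.dc 2 15 0 (.lf 3 10 208)) (.dc 2 15 1 (.lf 3 13 208)))))) (.dc 2 15 1 (.ct 0 2 1 1 1 (.dc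
  0 1 0 (.lf 3 6 224)) (.dc 0 1 1 (.lf 3 12 192))))))) (.dc 1 7 1 (.ct 2 5 1 1 1 (.dc 2 7 0 (.ct
  1 5 1 2 1 (.ct 5 6 1 1 1 (.dc 2 15 1 (.ct 0 2 1 1 1 (.dc 0 1 0 (.lf 3 7 224)) (.ct 0 3 1 1 1
  (.dc 0 1 0 (.lf 3 7 192)) (.dc 0 1 1 (.lf 3 13 192))))) (.ct 0 2 1 1 1 (.dc 0 1 0 (.ct 0 5 1 1
  1 (.ct 2 5 1 1 1 (.ct 3 5 1 2 1 (.dc 2 15 0 (.lf 3 4 240)) (.dc 2 15 1 (.lf 3 7 240))) (.dc 2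
  15 1 (.lf 3 7 240))) (.dc 2 15 1 (.lf 3 8 240)))) (.ct 2 5 1 1 1 (.ct 0 3 1 1 1 (.dc 0 1 0 (.ct
  0 5 1 2 1 (.ct 3 5 1 2 1 (.dc 2 15 0 (.lf 3 4 256)) (.dc 2 15 1 (.lf 3 9 256))) (.dc 2 15 1
  (.lf 3 8 224)))) (.dc 0 1 1 (.ct 3 5 1 2 1 (.dc 2 15 0 (.lf 3 11 224)) (.dc 2 15 1 (.lf 3 13
  224))))) (.dc 2 15 1 (.ct 0 3 1 1 1 (.dc 0 1 0 (.lf 3 8 208)) (.dc 0 1 1 (.lf 3 13 208)))))))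
  (.dc 2 15 1 (.ct 0 2 1 1 1 (.dc 0 1 0 (.lf 3 8 256)) (.ct 0 3 1 1 1 (.dc 0 1 0 (.lf 3 7 224))
  (.dc 0 1 1 (.lf 3 12 208))))))) (.dc 2 7 1 (.dc 2 15 1 (.ct 0 2 1 1 1 (.dc 0 1 0 (.lf 3 8 240))
  (.ct 0 3 1 1 1 (.dc 0 1 0 (.lf 3 7 240)) (.ct 0 5 1 1 1 (.dc 0 1 0 (.lf 3 7 224)) (.dc 0 1 1
  (.lf 3 12 224)))))))))) (.dc 1 7 1 (.ct 1 5 1 1 1 (.ct 2 5 1 1 1 (.dc 2 7 0 (.ct 1 5 1 1 1 (.ct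
  3 5 1 2 1 (.ct 5 6 1 1 1 (.dc 2 15 1 (.ct 0 2 1 1 1 (.dc 0 1 0 (.lf 3 7 224)) (.dc 0 1 1 (.lf 3
  13 192)))) (.ct 0 2 1 1 1 (.dc 0 1 0 (.ct 0 5 1 1 1 (.ct 2 5 1 1 1 (.dc 2 15 0 (.lf 3 4 208))
  (.dc 2 15 1 (.lf 3 8 240))) (.dc 2 15 1 (.lf 3 8 240)))) (.dc 0 1 1 (.ct 2 5 1 1 1 (.dc 2 15 0
  (.lf 3 10 208)) (.dc 2 15 1 (.lf 3 13 208)))))) (.dc 2 15 1 (.ct 0 2 1 1 1 (.dc 0 1 0 (.lf 3 8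
  224)) (.dc 0 1 1 (.lf 3 12 208))))) (.dc 2 15 1 (.ct 0 2 1 1 1 (.dc 0 1 0 (.lf 3 8 240)) (.dc 0
  1 1 (.lf 3 12 208)))))) (.dc 2 7 1 (.dc 2 15 1 (.ct 0 2 1 1 1 (.dc 0 1 0 (.lf 3 7 224)) (.ct 0
  5 1 1 1 (.dc 0 1 0 (.lf 3 7 240)) (.dc 0 1 1 (.lf 3 12 240))))))) (.dc 2 7 1 (.dc 2 15 1 (.ct 0
  2 1 1 1 (.dc 0 1 0 (.lf 3 7 240)) (.dc 0 1 1 (.lf 3 12 240))))))))) (.dc 0 1 1 (.dc 0 2 1 (.ct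
  2 3 1 1 1 (.dc 1 7 0 (.dc 2 7 0 (.ct 2 5 1 2 1 (.ct 5 6 1 1 1 (.dc 2 15 1 (.lf 3 11 192)) (.dc
  2 15 0 (.lf 3 9 192))) (.dc 2 15 1 (.lf 3 11 192))))) (.dc 1 7 1 (.ct 2 5 1 1 1 (.dc 2 7 0 (.ct
  2 5 1 1 1 (.ct 3 5 1 2 1 (.ct 5 6 1 1 1 (.dc 2 15 1 (.lf 3 11 192)) (.dc 2 15 0 (.lf 3 9 192)))
  (.dc 2 15 1 (.lf 3 11 192))) (.dc 2 15 1 (.lf 3 11 208)))) (.dc 2 7 1 (.dc 2 15 1 (.lf 3 10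
  208)))))))))

theorem dt74 : le (run cls4 4 tr74 [[1, 0, 0, 0, 1, 0, 0], [1, 1, 0, 0, 2, 0, 0], [2, 2, 2, 1,
  3, 1, 1], [1, 1, 1, 1, 4, 1, 1], [1, 1, 1, 0, 3, 1, 1], [0, 0, 0, 0, 1, 1, 0], [3, 3, 2, 1, 7,
  2, 2]] 140187724152825 [118, 118, 118, 118, 40, 232, 238]) 54175415796 = true := by
  decide +kernel

/-- data -/
noncomputable def tr75 : Ct := (.ct 1 2 1 1 1 (.dc 0 2 0 (.ct 1 6 1 1 1 (.ct 2 6 1 1 1 (.dc 1 7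
  0 (.dc 2 7 0 (.ct 1 5 1 2 1 (.ct 3 5 1 1 1 (.ct 0 2 1 1 1 (.dc 0 1 0 (.ct 0 5 1 2 1 (.ct 2 5 1
  2 1 (.dc 2 15 0 (.lf 3 4 224)) (.dc 2 15 1 (.lf 3 7 256))) (.dc 2 15 1 (.lf 3 5 224)))) (.dc 0
  1 1 (.ct 2 5 1 2 1 (.dc 2 15 0 (.lf 3 10 192)) (.dc 2 15 1 (.lf 3 12 192))))) (.dc 2 15 1 (.ct
  0 2 1 1 1 (.dc 0 1 0 (.lf 3 7 224)) (.dc 0 1 1 (.lf 3 12 192))))) (.dc 2 15 1 (.ct 0 2 1 1 1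
  (.dc 0 1 0 (.lf 3 7 240)) (.dc 0 1 1 (.lf 3 12 224))))))) (.dc 1 7 1 (.ct 2 5 1 1 1 (.dc 2 7 0
  (.ct 1 5 1 2 1 (.ct 3 5 1 1 1 (.ct 0 2 1 1 1 (.dc 0 1 0 (.ct 0 5 1 1 1 (.ct 2 5 1 1 1 (.ct 5 6
  2 1 1 (.dc 2 15 1 (.lf 3 8 240)) (.dc 2 15 0 (.lf 3 5 208))) (.dc 2 15 1 (.lf 3 8 240))) (.dc 2
  15 1 (.lf 3 8 240)))) (.ct 2 5 1 1 1 (.ct 0 6 1 1 1 (.dc 0 1 0 (.ct 0 5 1 2 1 (.ct 5 6 2 1 1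
  (.dc 2 15 1 (.lf 3 9 272)) (.dc 2 15 0 (.lf 3 4 240))) (.dc 2 15 1 (.lf 3 7 240)))) (.dc 0 1 1
  (.ct 5 6 2 1 1 (.dc 2 15 1 (.lf 3 13 208)) (.dc 2 15 0 (.lf 3 10 208))))) (.dc 2 15 1 (.ct 0 6
  1 1 1 (.dc 0 1 0 (.lf 3 7 208)) (.dc 0 1 1 (.lf 3 13 176)))))) (.dc 2 15 1 (.ct 0 2 1 1 1 (.dc
  0 1 0 (.lf 3 9 224)) (.ct 0 6 1 1 1 (.dc 0 1 0 (.lf 3 8 224)) (.dc 0 1 1 (.lf 3 12 192))))))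
  (.dc 2 15 1 (.ct 0 2 1 1 1 (.dc 0 1 0 (.lf 3 8 256)) (.ct 0 6 1 1 1 (.dc 0 1 0 (.lf 3 7 256))
  (.dc 0 1 1 (.lf 3 12 224))))))) (.dc 2 7 1 (.dc 2 15 1 (.ct 0 2 1 1 1 (.dc 0 1 0 (.lf 3 8 224))
  (.ct 0 5 1 1 1 (.dc 0 1 0 (.lf 3 8 224)) (.ct 0 6 1 1 1 (.dc 0 1 0 (.lf 3 7 240)) (.dc 0 1 1
  (.lf 3 12 208)))))))))) (.dc 1 7 1 (.ct 1 5 1 1 1 (.ct 2 5 1 1 1 (.dc 2 7 0 (.ct 1 5 1 1 1 (.ct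
  3 5 1 1 1 (.ct 5 6 2 1 1 (.dc 2 15 1 (.ct 0 2 1 1 1 (.dc 0 1 0 (.lf 3 8 224)) (.dc 0 1 1 (.lf 3
  12 208)))) (.ct 0 2 1 1 1 (.dc 0 1 0 (.ct 0 5 1 1 1 (.ct 2 5 1 1 1 (.dc 2 15 0 (.lf 3 4 176))
  (.dc 2 15 1 (.lf 3 8 208))) (.dc 2 15 1 (.lf 3 8 208)))) (.dc 0 1 1 (.ct 2 5 1 1 1 (.dc 2 15 0
  (.lf 3 10 176)) (.dc 2 15 1 (.lf 3 13 176)))))) (.dc 2 15 1 (.ct 0 2 1 1 1 (.dc 0 1 0 (.lf 3 8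
  208)) (.dc 0 1 1 (.lf 3 12 208))))) (.dc 2 15 1 (.ct 0 2 1 1 1 (.dc 0 1 0 (.lf 3 8 240)) (.dc 0
  1 1 (.lf 3 12 240)))))) (.dc 2 7 1 (.dc 2 15 1 (.ct 0 2 1 1 1 (.dc 0 1 0 (.lf 3 7 208)) (.ct 0
  5 1 1 1 (.dc 0 1 0 (.lf 3 7 224)) (.dc 0 1 1 (.lf 3 12 224))))))) (.dc 2 7 1 (.dc 2 15 1 (.ct 0
  2 1 1 1 (.dc 0 1 0 (.lf 3 6 224)) (.dc 0 1 1 (.lf 3 12 224))))))))) (.dc 0 1 1 (.dc 0 2 1 (.ct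
  2 6 1 1 1 (.dc 1 7 0 (.dc 2 7 0 (.ct 2 5 1 2 1 (.ct 3 5 1 1 1 (.dc 2 15 0 (.lf 3 9 176)) (.dc 2
  15 1 (.lf 3 11 192))) (.dc 2 15 1 (.lf 3 11 224))))) (.dc 1 7 1 (.ct 2 5 1 1 1 (.dc 2 7 0 (.ct
  2 5 1 1 1 (.ct 3 5 1 1 1 (.ct 5 6 2 1 1 (.dc 2 15 1 (.lf 3 11 208)) (.dc 2 15 0 (.lf 3 9 176)))
  (.dc 2 15 1 (.lf 3 10 208))) (.dc 2 15 1 (.lf 3 10 224)))) (.dc 2 7 1 (.dc 2 15 1 (.lf 3 10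
  224)))))))))

theorem dt75 : le (run cls4 4 tr75 [[1, 0, 0, 0, 1, 0, 0], [1, 1, 0, 0, 2, 0, 0], [2, 2, 2, 1,
  3, 1, 1], [2, 2, 2, 1, 5, 1, 1], [1, 1, 1, 0, 3, 1, 1], [0, 0, 0, 0, 1, 1, 0], [1, 1, 1, 1, 4,
  1, 1]] 140187724152825 [118, 118, 118, 118, 40, 232, 238]) 70336721716 = true := by
  decide +kernel

end Pool.Agent.Work.MP_122e00_nt.Sharp.Cx

end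

section

set_option autoImplicit false

set_option maxRecDepth 100000

/-!
# The certificate: data
-/

namespace Pool.Agent.Work.MP_122e00_nt.Sharp.Cx

/-- data -/
noncomputable def tr76 : Ct := (.dc 1 7 0 (.dc 2 7 0 (.ct 1 2 1 1 1 (.dc 0 2 0 (.ct 1 5 1 2 1
  (.ct 4 5 1 1 1 (.ct 0 2 1 1 1 (.dc 0 1 0 (.ct 0 5 1 2 1 (.ct 2 5 1 2 1 (.dc 2 15 0 (.lf 2 5
  224)) (.dc 2 15 1 (.lf 2 9 256))) (.dc 2 15 1 (.lf 2 10 224)))) (.dc 0 1 1 (.ct 2 5 1 2 1 (.dc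
  2 15 0 (.lf 2 10 192)) (.dc 2 15 1 (.lf 2 13 192))))) (.dc 2 15 1 (.ct 0 2 1 1 1 (.dc 0 1 0
  (.lf 2 10 224)) (.dc 0 1 1 (.lf 2 13 192))))) (.dc 2 15 1 (.ct 0 2 1 1 1 (.dc 0 1 0 (.lf 2 9
  240)) (.dc 0 1 1 (.lf 2 13 224)))))) (.dc 0 1 1 (.dc 0 2 1 (.ct 2 5 1 2 1 (.ct 4 5 1 1 1 (.dc 2
  15 0 (.lf 2 9 176)) (.dc 2 15 1 (.lf 2 11 192))) (.dc 2 15 1 (.lf 2 11 224))))))))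

theorem dt76 : le (run cls4 4 tr76 [[1, 0, 0, 0, 1, 0, 0], [1, 1, 0, 0, 2, 0, 0], [3, 3, 3, 2,
  7, 2, 2], [1, 1, 1, 1, 3, 1, 0], [2, 2, 2, 1, 5, 1, 1], [0, 0, 0, 0, 1, 1, 0], [1, 1, 1, 1, 4,
  1, 1]] 140187724152825 [118, 118, 118, 118, 40, 232, 238]) 124025245566 = true := by
  decide +kernel

/-- data -/
noncomputable def tr77 : Ct := (.dc 2 7 0 (.ct 1 5 1 2 1 (.ct 4 5 1 1 1 (.ct 0 2 1 1 1 (.dc 0 1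
  0 (.ct 0 5 1 1 1 (.ct 2 5 1 1 1 (.ct 5 6 2 1 1 (.dc 2 15 1 (.lf 2 9 240)) (.dc 2 15 0 (.lf 2 6
  208))) (.dc 2 15 1 (.lf 2 9 240))) (.dc 2 15 1 (.lf 2 9 240)))) (.ct 2 5 1 1 1 (.ct 0 6 1 1 1
  (.dc 0 1 0 (.ct 0 5 1 2 1 (.ct 5 6 2 1 1 (.dc 2 15 1 (.lf 2 10 272)) (.dc 2 15 0 (.lf 2 6
  240))) (.dc 2 15 1 (.lf 2 10 240)))) (.dc 0 1 1 (.ct 5 6 2 1 1 (.dc 2 15 1 (.lf 2 12 208)) (.dc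
  2 15 0 (.lf 2 10 208))))) (.dc 2 15 1 (.ct 0 6 1 1 1 (.dc 0 1 0 (.lf 2 10 208)) (.dc 0 1 1 (.lf
  2 12 176)))))) (.dc 2 15 1 (.ct 0 2 1 1 1 (.dc 0 1 0 (.lf 2 8 224)) (.ct 0 6 1 1 1 (.dc 0 1 0
  (.lf 2 10 224)) (.dc 0 1 1 (.lf 2 13 192)))))) (.dc 2 15 1 (.ct 0 2 1 1 1 (.dc 0 1 0 (.lf 2 8
  256)) (.ct 0 6 1 1 1 (.dc 0 1 0 (.lf 2 10 256)) (.dc 0 1 1 (.lf 2 13 224)))))))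

theorem dt77 : le (run cls4 4 tr77 [[1, 0, 0, 0, 1, 0, 0], [4, 4, 3, 2, 9, 2, 2], [2, 2, 2, 1,
  4, 2, 1], [1, 1, 1, 1, 3, 1, 0], [2, 2, 2, 1, 5, 1, 1], [0, 0, 0, 0, 1, 1, 0], [3, 3, 3, 2, 7,
  2, 2]] 140187732541437 [120, 120, 120, 132, 54, 234, 252]) 393549493441 = true := by
  decide +kernel

end Pool.Agent.Work.MP_122e00_nt.Sharp.Cx

end

section

set_option autoImplicit false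

set_option maxRecDepth 100000

/-!
# The certificate: data
-/

namespace Pool.Agent.Work.MP_122e00_nt.Sharp.Cx

/-- data -/
noncomputable def tr78 : Ct := (.dc 2 15 1 (.ct 0 5 1 1 1 (.dc 0 1 0 (.ct 2 3 1 1 1 (.dc 2 7 0
  (.lf 2 8 240)) (.dc 2 7 1 (.lf 2 8 256)))) (.ct 0 6 1 1 1 (.dc 0 1 0 (.ct 2 3 1 1 1 (.dc 2 7 0
  (.lf 2 9 256)) (.dc 2 7 1 (.lf 2 9 256)))) (.ct 0 2 1 1 1 (.dc 0 1 0 (.ct 0 3 1 1 1 (.ct 2 3 1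
  1 1 (.dc 2 7 0 (.lf 2 8 256)) (.dc 2 7 1 (.lf 2 8 256))) (.dc 2 7 1 (.lf 2 8 240)))) (.dc 0 1 1
  (.ct 2 3 1 1 1 (.dc 2 7 0 (.lf 2 12 240)) (.dc 2 7 1 (.lf 2 13 240))))))))

theorem dt78 : le (run cls4 4 tr78 [[1, 0, 0, 0, 1, 0, 0], [4, 4, 3, 2, 9, 2, 2], [2, 2, 2, 1,
  3, 1, 1], [1, 1, 1, 1, 3, 1, 0], [2, 2, 2, 1, 5, 1, 1], [2, 2, 2, 1, 4, 2, 1], [3, 3, 3, 2, 7,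
  2, 2]] 140187732541437 [120, 120, 120, 132, 54, 234, 252]) 957877622790 = true := by
  decide +kernel

/-- data -/
noncomputable def tr79 : Ct := (.ct 2 5 1 1 1 (.dc 2 7 0 (.ct 1 5 1 1 1 (.ct 4 5 1 1 1 (.ct 5 6
  2 1 1 (.dc 2 15 1 (.ct 0 2 1 1 1 (.dc 0 1 0 (.lf 2 8 224)) (.dc 0 1 1 (.lf 2 13 208)))) (.ct 0
  2 1 1 1 (.dc 0 1 0 (.ct 0 5 1 1 1 (.ct 2 5 1 1 1 (.dc 2 15 0 (.lf 2 6 176)) (.dc 2 15 1 (.lf 2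
  9 208))) (.dc 2 15 1 (.lf 2 9 208)))) (.dc 0 1 1 (.ct 2 5 1 1 1 (.dc 2 15 0 (.lf 2 10 176))
  (.dc 2 15 1 (.lf 2 12 176)))))) (.dc 2 15 1 (.ct 0 2 1 1 1 (.dc 0 1 0 (.lf 2 7 208)) (.dc 0 1 1
  (.lf 2 12 208))))) (.dc 2 15 1 (.ct 0 2 1 1 1 (.dc 0 1 0 (.lf 2 7 240)) (.dc 0 1 1 (.lf 2 12
  240)))))) (.dc 2 15 1 (.ct 0 5 1 1 1 (.dc 0 1 0 (.ct 2 3 1 1 1 (.dc 2 7 0 (.lf 2 7 240)) (.dc 2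
  7 1 (.lf 2 7 240)))) (.ct 0 2 1 1 1 (.dc 0 1 0 (.ct 0 3 1 1 1 (.ct 2 3 1 1 1 (.dc 2 7 0 (.lf 2
  8 272)) (.dc 2 7 1 (.lf 2 8 272))) (.dc 2 7 1 (.lf 2 7 256)))) (.dc 0 1 1 (.ct 2 3 1 1 1 (.dc 2
  7 0 (.lf 2 12 256)) (.dc 2 7 1 (.lf 2 13 256))))))))

theorem dt79 : le (run cls4 4 tr79 [[1, 0, 0, 0, 1, 0, 0], [3, 3, 2, 1, 6, 2, 1], [2, 2, 2, 1,
  3, 1, 1], [1, 1, 1, 1, 3, 1, 0], [2, 2, 2, 1, 5, 1, 1], [0, 0, 0, 0, 1, 1, 0], [4, 4, 3, 2, 9,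
  2, 2]] 140187732541437 [120, 120, 120, 132, 54, 234, 252]) 334377046391 = true := by
  decide +kernel

end Pool.Agent.Work.MP_122e00_nt.Sharp.Cx

end

section

set_option autoImplicit false

set_option maxRecDepth 100000

/-!
# The certificate: data
-/

namespace Pool.Agent.Work.MP_122e00_nt.Sharp.Cx

/-- data -/
noncomputable def tr80 : Ct := (.dc 2 15 1 (.ct 1 3 1 1 1 (.ct 0 2 1 1 1 (.dc 0 1 0 (.ct 0 3 1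
  1 1 (.ct 2 3 1 1 1 (.dc 2 7 0 (.lf 2 9 256)) (.dc 2 7 1 (.lf 2 7 256))) (.dc 2 7 1 (.lf 2 6
  240)))) (.dc 0 1 1 (.ct 2 3 1 1 1 (.dc 2 7 0 (.lf 2 13 240)) (.dc 2 7 1 (.lf 2 13 240))))) (.dc
  2 7 1 (.ct 0 2 1 1 1 (.dc 0 1 0 (.lf 2 6 224)) (.dc 0 1 1 (.lf 2 13 224))))))

theorem dt80 : le (run cls4 4 tr80 [[1, 0, 0, 0, 1, 0, 0], [3, 3, 2, 1, 5, 1, 1], [2, 2, 2, 1,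
  3, 1, 1], [1, 1, 1, 1, 3, 1, 0], [2, 2, 2, 1, 5, 1, 1], [3, 3, 2, 1, 6, 2, 1], [4, 4, 3, 2, 9,
  2, 2]] 140187732541437 [120, 120, 120, 132, 54, 234, 252]) 591112116118 = true := by
  decide +kernel

/-- data -/
noncomputable def tr81 : Ct := (.dc 0 1 1 (.dc 0 2 1 (.ct 2 5 1 1 1 (.dc 2 7 0 (.ct 2 5 1 1 1
  (.ct 4 5 1 1 1 (.ct 5 6 2 1 1 (.dc 2 15 1 (.lf 2 11 208)) (.dc 2 15 0 (.lf 2 9 176))) (.dc 2 15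
  1 (.lf 2 11 208))) (.dc 2 15 1 (.lf 2 11 240)))) (.dc 2 15 1 (.ct 2 3 1 1 1 (.dc 2 7 0 (.lf 2
  11 208)) (.dc 2 7 1 (.lf 2 11 224)))))))

theorem dt81 : le (run cls4 4 tr81 [[1, 0, 0, 0, 1, 0, 0], [1, 1, 0, 0, 2, 0, 0], [3, 3, 2, 1,
  5, 1, 1], [1, 1, 1, 1, 3, 1, 0], [2, 2, 2, 1, 5, 1, 1], [0, 0, 0, 0, 1, 1, 0], [4, 4, 3, 2, 9,
  2, 2]] 140187732541433 [120, 120, 120, 132, 54, 234, 252]) 17787557997 = true := by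
  decide +kernel

/-- data -/
noncomputable def tr82 : Ct := (.dc 2 15 1 (.ct 1 2 1 1 1 (.dc 0 2 0 (.ct 1 6 1 1 1 (.ct 2 6 1
  1 1 (.dc 1 7 0 (.dc 2 7 0 (.ct 0 2 1 1 1 (.dc 0 1 0 (.lf 1 10 240)) (.dc 0 1 1 (.lf 1 12
  208))))) (.dc 1 7 1 (.ct 0 6 1 1 1 (.dc 0 1 0 (.ct 2 5 1 1 1 (.dc 2 7 0 (.lf 1 10 240)) (.dc 2
  7 1 (.lf 1 11 240)))) (.ct 0 2 1 1 1 (.dc 0 1 0 (.ct 0 5 1 1 1 (.ct 2 5 1 1 1 (.dc 2 7 0 (.lf 1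
  11 240)) (.dc 2 7 1 (.lf 1 11 240))) (.dc 2 7 1 (.lf 1 10 224)))) (.dc 0 1 1 (.ct 2 5 1 1 1
  (.dc 2 7 0 (.lf 1 12 224)) (.dc 2 7 1 (.lf 1 12 224)))))))) (.dc 1 7 1 (.ct 1 5 1 1 1 (.ct 0 2
  1 1 1 (.dc 0 1 0 (.ct 0 5 1 1 1 (.ct 2 5 1 1 1 (.dc 2 7 0 (.lf 1 11 240)) (.dc 2 7 1 (.lf 1 10
  240))) (.dc 2 7 1 (.lf 1 10 224)))) (.dc 0 1 1 (.ct 2 5 1 1 1 (.dc 2 7 0 (.lf 1 12 224)) (.dc 2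
  7 1 (.lf 1 12 224))))) (.dc 2 7 1 (.ct 0 2 1 1 1 (.dc 0 1 0 (.lf 1 10 208)) (.dc 0 1 1 (.lf 1
  12 208)))))))) (.dc 0 1 1 (.dc 0 2 1 (.ct 2 6 1 1 1 (.dc 1 7 0 (.dc 2 7 0 (.lf 1 11 208))) (.dc
  1 7 1 (.ct 2 5 1 1 1 (.dc 2 7 0 (.lf 1 11 192)) (.dc 2 7 1 (.lf 1 11 208)))))))))

theorem dt82 : le (run cls4 4 tr82 [[1, 0, 0, 0, 1, 0, 0], [1, 1, 0, 0, 2, 0, 0], [2, 2, 2, 1,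
  3, 1, 1], [1, 1, 1, 1, 2, 0, 0], [2, 2, 2, 1, 5, 1, 1], [1, 1, 1, 1, 3, 1, 0], [1, 1, 1, 1, 4,
  1, 1]] 140187724152825 [118, 118, 118, 118, 40, 232, 238]) 309259073415 = true := by
  decide +kernel

end Pool.Agent.Work.MP_122e00_nt.Sharp.Cx

end

section

set_option autoImplicit false

set_option maxRecDepth 100000

/-!
# The certificate: data
-/

namespace Pool.Agent.Work.MP_122e00_nt.Sharp.Cx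

/-- data -/
noncomputable def tr83 : Ct := (.dc 0 2 0 (.dc 0 10 0 (.ct 1 6 1 1 1 (.ct 2 6 1 1 1 (.ct 3 6 1
  2 1 (.dc 1 7 0 (.dc 1 15 0 (.dc 2 7 0 (.dc 2 15 0 (.ct 0 2 1 1 1 (.dc 0 1 0 (.dc 0 9 0 (.lf 3 8
  176))) (.dc 0 9 1 (.ct 0 3 1 1 1 (.dc 0 1 0 (.lf 3 6 208)) (.dc 0 1 1 (.lf 3 10 192)))))))))
  (.dc 1 15 1 (.ct 0 2 1 1 1 (.dc 0 1 0 (.dc 0 9 0 (.ct 3 6 1 1 2 (.dc 1 7 0 (.dc 2 7 0 (.ct 3 5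
  1 1 1 (.dc 2 15 0 (.lf 3 7 192)) (.dc 2 15 1 (.lf 3 7 208))))) (.dc 1 7 1 (.ct 3 5 1 1 1 (.dc 2
  7 0 (.ct 3 5 1 1 1 (.ct 5 6 1 1 1 (.dc 2 15 1 (.lf 3 6 208)) (.dc 2 15 0 (.lf 3 6 208))) (.dc 2
  15 1 (.lf 3 5 192)))) (.dc 2 7 1 (.dc 2 15 1 (.lf 3 5 192)))))))) (.dc 0 9 1 (.ct 3 6 1 1 2
  (.dc 1 7 0 (.dc 2 7 0 (.ct 0 6 1 1 1 (.dc 0 1 0 (.ct 3 5 1 1 1 (.dc 2 15 0 (.lf 3 6 224)) (.dc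
  2 15 1 (.lf 3 9 240)))) (.ct 0 3 1 1 1 (.dc 0 1 0 (.ct 0 5 1 1 1 (.ct 3 5 1 1 1 (.dc 2 15 0
  (.lf 3 5 224)) (.dc 2 15 1 (.lf 3 7 240))) (.dc 2 15 1 (.lf 3 6 240)))) (.dc 0 1 1 (.ct 3 5 1 1
  1 (.dc 2 15 0 (.lf 3 11 208)) (.dc 2 15 1 (.lf 3 12 224)))))))) (.dc 1 7 1 (.ct 3 5 1 1 1 (.dc
  2 7 0 (.ct 0 3 1 1 1 (.dc 0 1 0 (.ct 0 5 1 1 1 (.ct 3 5 1 1 1 (.ct 5 6 1 1 1 (.dc 2 15 1 (.lf 3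
  7 176)) (.dc 2 15 0 (.lf 3 5 192))) (.dc 2 15 1 (.lf 3 6 176))) (.dc 2 15 1 (.lf 3 7 176))))
  (.ct 3 5 1 1 1 (.ct 0 6 1 1 1 (.dc 0 1 0 (.ct 0 5 1 1 1 (.ct 5 6 1 1 1 (.dc 2 15 1 (.lf 3 7
  208)) (.dc 2 15 0 (.lf 3 5 192))) (.dc 2 15 1 (.lf 3 5 208)))) (.dc 0 1 1 (.ct 5 6 1 1 1 (.dc 2
  15 1 (.lf 3 12 192)) (.dc 2 15 0 (.lf 3 11 192))))) (.dc 2 15 1 (.ct 0 6 1 1 1 (.dc 0 1 0 (.lf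
  3 6 176)) (.dc 0 1 1 (.lf 3 12 192))))))) (.dc 2 7 1 (.dc 2 15 1 (.ct 0 3 1 1 1 (.dc 0 1 0 (.lf
  3 8 176)) (.ct 0 5 1 1 1 (.dc 0 1 0 (.lf 3 8 176)) (.ct 0 6 1 1 1 (.dc 0 1 0 (.lf 3 7 192))
  (.dc 0 1 1 (.lf 3 12 192)))))))))))))) (.dc 1 7 1 (.dc 1 15 1 (.ct 0 6 1 1 1 (.dc 0 1 0 (.dc 0
  9 0 (.ct 2 5 1 1 1 (.ct 3 5 1 1 1 (.dc 2 7 0 (.ct 3 5 1 1 1 (.dc 2 15 0 (.lf 3 7 192)) (.dc 2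
  15 1 (.lf 3 6 192)))) (.dc 2 7 1 (.dc 2 15 1 (.lf 3 6 176)))) (.dc 2 7 1 (.dc 2 15 1 (.lf 3 7
  176)))))) (.ct 0 2 1 1 1 (.dc 0 1 0 (.dc 0 9 0 (.ct 0 5 1 1 1 (.ct 2 5 1 1 1 (.ct 3 5 1 1 1
  (.dc 2 7 0 (.ct 3 5 1 1 1 (.dc 2 15 0 (.lf 3 6 192)) (.dc 2 15 1 (.lf 3 6 192)))) (.dc 2 7 1
  (.dc 2 15 1 (.lf 3 6 176)))) (.dc 2 7 1 (.dc 2 15 1 (.lf 3 7 176)))) (.dc 2 7 1 (.dc 2 15 1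
  (.lf 3 7 176)))))) (.dc 0 9 1 (.ct 2 5 1 1 1 (.ct 3 5 1 1 1 (.dc 2 7 0 (.ct 0 3 1 1 1 (.dc 0 1
  0 (.ct 0 5 1 1 1 (.ct 3 5 1 1 1 (.dc 2 15 0 (.lf 3 5 208)) (.dc 2 15 1 (.lf 3 6 208))) (.dc 2
  15 1 (.lf 3 7 208)))) (.dc 0 1 1 (.ct 3 5 1 1 1 (.dc 2 15 0 (.lf 3 11 192)) (.dc 2 15 1 (.lf 3
  12 208)))))) (.dc 2 7 1 (.dc 2 15 1 (.ct 0 3 1 1 1 (.dc 0 1 0 (.lf 3 8 176)) (.ct 0 5 1 1 1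
  (.dc 0 1 0 (.lf 3 7 192)) (.dc 0 1 1 (.lf 3 12 192))))))) (.dc 2 7 1 (.dc 2 15 1 (.ct 0 3 1 1 1
  (.dc 0 1 0 (.lf 3 7 176)) (.dc 0 1 1 (.lf 3 11 176)))))))))))) (.dc 1 7 1 (.dc 1 15 1 (.ct 1 5
  1 1 1 (.ct 0 2 1 1 1 (.dc 0 1 0 (.dc 0 9 0 (.ct 0 5 1 1 1 (.ct 2 5 1 1 1 (.ct 3 5 1 1 1 (.dc 2
  7 0 (.ct 3 5 1 1 1 (.dc 2 15 0 (.lf 3 5 192)) (.dc 2 15 1 (.lf 3 5 192)))) (.dc 2 7 1 (.dc 2 15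
  1 (.lf 3 5 176)))) (.dc 2 7 1 (.dc 2 15 1 (.lf 3 6 176)))) (.dc 2 7 1 (.dc 2 15 1 (.lf 3 6
  176)))))) (.dc 0 9 1 (.ct 2 5 1 1 1 (.ct 3 5 1 1 1 (.dc 2 7 0 (.ct 0 3 1 1 1 (.dc 0 1 0 (.ct 0
  5 1 1 1 (.ct 3 5 1 1 1 (.dc 2 15 0 (.lf 3 4 208)) (.dc 2 15 1 (.lf 3 7 208))) (.dc 2 15 1 (.lf
  3 7 208)))) (.dc 0 1 1 (.ct 3 5 1 1 1 (.dc 2 15 0 (.lf 3 10 192)) (.dc 2 15 1 (.lf 3 12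
  208)))))) (.dc 2 7 1 (.dc 2 15 1 (.ct 0 3 1 1 1 (.dc 0 1 0 (.lf 3 8 176)) (.ct 0 5 1 1 1 (.dc 0
  1 0 (.lf 3 8 192)) (.dc 0 1 1 (.lf 3 12 192))))))) (.dc 2 7 1 (.dc 2 15 1 (.ct 0 3 1 1 1 (.dc 0
  1 0 (.lf 3 8 176)) (.dc 0 1 1 (.lf 3 12 176)))))))) (.dc 2 7 1 (.dc 2 15 1 (.ct 0 2 1 1 1 (.dc
  0 1 0 (.dc 0 9 0 (.lf 3 6 176))) (.dc 0 9 1 (.ct 0 3 1 1 1 (.dc 0 1 0 (.lf 3 7 176)) (.dc 0 1 1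
  (.lf 3 12 176)))))))))))))

theorem dt83 : le (run cls4 4 tr83 [[1, 0, 0, 0, 1, 0, 0], [2, 2, 1, 0, 3, 1, 1], [1, 1, 1, 0,
  1, 1, 1], [2, 2, 2, 1, 3, 1, 1], [1, 1, 1, 0, 3, 1, 1], [0, 0, 0, 0, 1, 1, 0], [0, 0, 0, 0, 2,
  1, 1]] 140185576667641 [57, 57, 57, 105, 21, 147, 147]) 98283561393 = true := by decide +kernel

/-- data -/
noncomputable def tr84 : Ct := (.dc 0 9 1 (.dc 0 10 1 (.ct 2 6 1 1 1 (.ct 3 6 1 2 1 (.dc 1 7 0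
  (.dc 1 15 0 (.dc 2 7 0 (.dc 2 15 0 (.ct 1 3 1 1 1 (.dc 0 2 0 (.ct 0 3 1 1 1 (.dc 0 1 0 (.lf 3 5
  208)) (.dc 0 1 1 (.lf 3 11 192)))) (.dc 0 1 1 (.dc 0 2 1 (.lf 3 8 160)))))))) (.dc 1 15 1 (.ct
  3 6 1 1 2 (.dc 1 7 0 (.dc 2 7 0 (.ct 1 6 1 1 1 (.dc 0 2 0 (.ct 0 6 1 1 1 (.dc 0 1 0 (.ct 3 5 1
  1 1 (.dc 2 15 0 (.lf 3 5 224)) (.dc 2 15 1 (.lf 3 8 240)))) (.ct 0 3 1 1 1 (.dc 0 1 0 (.ct 0 5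
  1 1 1 (.ct 3 5 1 1 1 (.dc 2 15 0 (.lf 3 4 224)) (.dc 2 15 1 (.lf 3 8 240))) (.dc 2 15 1 (.lf 3
  8 240)))) (.dc 0 1 1 (.ct 3 5 1 1 1 (.dc 2 15 0 (.lf 3 11 208)) (.dc 2 15 1 (.lf 3 12
  224))))))) (.ct 1 3 1 1 1 (.dc 0 2 0 (.ct 1 5 1 1 1 (.ct 0 3 1 1 1 (.dc 0 1 0 (.ct 0 5 1 1 1
  (.ct 3 5 1 1 1 (.dc 2 15 0 (.lf 3 4 224)) (.dc 2 15 1 (.lf 3 8 240))) (.dc 2 15 1 (.lf 3 8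
  240)))) (.dc 0 1 1 (.ct 3 5 1 1 1 (.dc 2 15 0 (.lf 3 11 208)) (.dc 2 15 1 (.lf 3 12 224)))))
  (.dc 2 15 1 (.ct 0 3 1 1 1 (.dc 0 1 0 (.lf 3 8 240)) (.dc 0 1 1 (.lf 3 12 224)))))) (.dc 0 1 1
  (.dc 0 2 1 (.ct 3 5 1 1 1 (.dc 2 15 0 (.lf 3 9 192)) (.dc 2 15 1 (.lf 3 10 208))))))))) (.dc 1
  7 1 (.ct 1 6 1 1 1 (.dc 0 2 0 (.ct 3 5 1 1 1 (.dc 2 7 0 (.ct 1 5 1 1 1 (.ct 0 3 1 1 1 (.dc 0 1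
  0 (.ct 0 5 1 1 1 (.ct 3 5 1 1 1 (.ct 5 6 1 1 1 (.dc 2 15 1 (.lf 3 8 208)) (.dc 2 15 0 (.lf 3 4
  208))) (.dc 2 15 1 (.lf 3 9 208))) (.dc 2 15 1 (.lf 3 8 208)))) (.ct 3 5 1 1 1 (.ct 0 6 1 1 1
  (.dc 0 1 0 (.ct 0 5 1 1 1 (.ct 5 6 1 1 1 (.dc 2 15 1 (.lf 3 8 240)) (.dc 2 15 0 (.lf 3 4 224)))
  (.dc 2 15 1 (.lf 3 7 240)))) (.dc 0 1 1 (.ct 5 6 1 1 1 (.dc 2 15 1 (.lf 3 12 224)) (.dc 2 15 0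
  (.lf 3 11 224))))) (.dc 2 15 1 (.ct 0 6 1 1 1 (.dc 0 1 0 (.lf 3 7 208)) (.dc 0 1 1 (.lf 3 12
  224)))))) (.dc 2 15 1 (.ct 0 3 1 1 1 (.dc 0 1 0 (.lf 3 7 208)) (.ct 0 6 1 1 1 (.dc 0 1 0 (.lf 3
  7 240)) (.dc 0 1 1 (.lf 3 12 240))))))) (.dc 2 7 1 (.dc 2 15 1 (.ct 0 3 1 1 1 (.dc 0 1 0 (.lf 3
  9 192)) (.ct 0 5 1 1 1 (.dc 0 1 0 (.lf 3 8 176)) (.ct 0 6 1 1 1 (.dc 0 1 0 (.lf 3 8 208)) (.dc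
  0 1 1 (.lf 3 12 208))))))))) (.ct 1 3 1 1 1 (.dc 0 2 0 (.ct 1 5 1 1 1 (.ct 3 5 1 1 1 (.dc 2 7 0
  (.ct 1 5 1 1 1 (.ct 5 6 1 1 1 (.dc 2 15 1 (.ct 0 3 1 1 1 (.dc 0 1 0 (.lf 3 6 208)) (.dc 0 1 1
  (.lf 3 12 208)))) (.ct 0 3 1 1 1 (.dc 0 1 0 (.ct 0 5 1 1 1 (.ct 3 5 1 1 1 (.dc 2 15 0 (.lf 3 4
  240)) (.dc 2 15 1 (.lf 3 9 240))) (.dc 2 15 1 (.lf 3 7 240)))) (.dc 0 1 1 (.ct 3 5 1 1 1 (.dc 2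
  15 0 (.lf 3 11 224)) (.dc 2 15 1 (.lf 3 12 240)))))) (.dc 2 15 1 (.ct 0 3 1 1 1 (.dc 0 1 0 (.lf
  3 7 208)) (.dc 0 1 1 (.lf 3 12 208)))))) (.dc 2 7 1 (.dc 2 15 1 (.ct 0 3 1 1 1 (.dc 0 1 0 (.lf
  3 7 192)) (.ct 0 5 1 1 1 (.dc 0 1 0 (.lf 3 7 208)) (.dc 0 1 1 (.lf 3 12 208))))))) (.dc 2 7 1
  (.dc 2 15 1 (.ct 0 3 1 1 1 (.dc 0 1 0 (.lf 3 7 208)) (.dc 0 1 1 (.lf 3 12 208))))))) (.dc 0 1 1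
  (.dc 0 2 1 (.ct 3 5 1 1 1 (.dc 2 7 0 (.ct 3 5 1 1 1 (.ct 5 6 1 1 1 (.dc 2 15 1 (.lf 3 10 208))
  (.dc 2 15 0 (.lf 3 9 208))) (.dc 2 15 1 (.lf 3 10 192)))) (.dc 2 7 1 (.dc 2 15 1 (.lf 3 10
  208)))))))))))) (.dc 1 7 1 (.dc 1 15 1 (.ct 2 5 1 1 1 (.ct 1 3 1 1 1 (.dc 0 2 0 (.ct 1 5 1 1 1
  (.ct 3 5 1 1 1 (.dc 2 7 0 (.ct 1 5 1 1 1 (.ct 0 3 1 1 1 (.dc 0 1 0 (.ct 0 5 1 1 1 (.ct 3 5 1 1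
  1 (.dc 2 15 0 (.lf 3 5 208)) (.dc 2 15 1 (.lf 3 9 208))) (.dc 2 15 1 (.lf 3 7 208)))) (.dc 0 1
  1 (.ct 3 5 1 1 1 (.dc 2 15 0 (.lf 3 10 192)) (.dc 2 15 1 (.lf 3 12 208))))) (.dc 2 15 1 (.ct 0
  3 1 1 1 (.dc 0 1 0 (.lf 3 8 208)) (.dc 0 1 1 (.lf 3 12 208)))))) (.dc 2 7 1 (.dc 2 15 1 (.ct 0
  3 1 1 1 (.dc 0 1 0 (.lf 3 7 176)) (.ct 0 5 1 1 1 (.dc 0 1 0 (.lf 3 7 192)) (.dc 0 1 1 (.lf 3 12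
  192))))))) (.dc 2 7 1 (.dc 2 15 1 (.ct 0 3 1 1 1 (.dc 0 1 0 (.lf 3 7 192)) (.dc 0 1 1 (.lf 3 12
  192))))))) (.dc 0 1 1 (.dc 0 2 1 (.ct 3 5 1 1 1 (.dc 2 7 0 (.ct 3 5 1 1 1 (.dc 2 15 0 (.lf 3 8
  192)) (.dc 2 15 1 (.lf 3 10 192)))) (.dc 2 7 1 (.dc 2 15 1 (.lf 3 10 192))))))) (.dc 2 7 1 (.dc
  2 15 1 (.ct 1 3 1 1 1 (.dc 0 2 0 (.ct 0 3 1 1 1 (.dc 0 1 0 (.lf 3 8 192)) (.dc 0 1 1 (.lf 3 12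
  192)))) (.dc 0 1 1 (.dc 0 2 1 (.lf 3 10 192))))))))))))

theorem dt84 : le (run cls4 4 tr84 [[1, 0, 0, 0, 1, 0, 0], [1, 1, 0, 0, 2, 0, 0], [2, 2, 1, 0,
  3, 1, 1], [2, 2, 2, 1, 3, 1, 1], [1, 1, 1, 0, 3, 1, 1], [0, 0, 0, 0, 1, 1, 0], [0, 0, 0, 0, 2,
  1, 1]] 140185576667641 [57, 57, 57, 105, 21, 147, 147]) 26840588695 = true := by decide +kernel

end Pool.Agent.Work.MP_122e00_nt.Sharp.Cx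

end

section

set_option autoImplicit false

set_option maxRecDepth 100000

/-!
# The certificate: data
-/

namespace Pool.Agent.Work.MP_122e00_nt.Sharp.Cx

/-- data -/
noncomputable def tr85 : Ct := (.dc 1 7 0 (.dc 1 15 0 (.dc 2 7 0 (.dc 2 15 0 (.ct 2 4 1 1 1
  (.dc 0 1 1 (.dc 0 2 1 (.ct 1 3 1 1 1 (.dc 0 12 1 (.lf 3 9 160)) (.dc 0 12 0 (.lf 3 9 144)))))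
  (.dc 0 2 0 (.ct 0 2 1 1 1 (.dc 0 1 0 (.ct 1 3 1 1 1 (.dc 0 12 1 (.lf 3 7 192)) (.dc 0 12 0 (.lf
  3 5 192)))) (.dc 0 1 1 (.ct 1 3 1 1 1 (.dc 0 12 1 (.lf 3 11 192)) (.dc 0 12 0 (.lf 3 11
  176)))))))))))

theorem dt85 : le (run cls4 4 tr85 [[1, 0, 0, 0, 1, 0, 0], [1, 1, 0, 0, 2, 1, 1], [2, 2, 2, 1,
  7, 3, 3], [1, 1, 1, 1, 4, 1, 1], [1, 1, 0, 0, 2, 0, 0], [0, 0, 0, 0, 1, 1, 0], [0, 0, 0, 0, 2,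
  1, 1]] 140185576665081 [89, 89, 113, 113, 29, 203, 203]) 15943601067 = true := by decide +kernel

/-- data -/
noncomputable def tr86 : Ct := (.dc 1 7 0 (.dc 2 7 0 (.ct 4 6 1 1 1 (.dc 0 2 0 (.ct 0 6 1 1 1
  (.dc 0 1 0 (.ct 1 3 1 1 1 (.dc 0 12 1 (.ct 2 5 1 1 1 (.dc 2 15 0 (.lf 3 6 208)) (.dc 2 15 1
  (.lf 3 9 208)))) (.dc 0 12 0 (.ct 2 5 1 1 1 (.dc 2 15 0 (.lf 3 5 208)) (.dc 2 15 1 (.lf 3 8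
  208)))))) (.ct 1 3 1 1 1 (.dc 0 12 1 (.ct 0 2 1 1 1 (.dc 0 1 0 (.ct 0 5 1 1 1 (.ct 2 5 1 1 1
  (.dc 2 15 0 (.lf 3 6 208)) (.dc 2 15 1 (.lf 3 10 208))) (.dc 2 15 1 (.lf 3 10 208)))) (.dc 0 1
  1 (.ct 2 5 1 1 1 (.dc 2 15 0 (.lf 3 11 192)) (.dc 2 15 1 (.lf 3 13 208)))))) (.dc 0 12 0 (.ct 0
  2 1 1 1 (.dc 0 1 0 (.ct 0 5 1 1 1 (.ct 2 5 1 1 1 (.dc 2 15 0 (.lf 3 4 208)) (.dc 2 15 1 (.lf 3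
  6 208))) (.dc 2 15 1 (.lf 3 5 208)))) (.dc 0 1 1 (.ct 2 5 1 1 1 (.dc 2 15 0 (.lf 3 11 192))
  (.dc 2 15 1 (.lf 3 12 208))))))))) (.ct 2 4 1 1 1 (.dc 0 1 1 (.dc 0 2 1 (.ct 1 3 1 1 1 (.dc 0
  12 1 (.ct 2 5 1 1 1 (.dc 2 15 0 (.lf 3 9 192)) (.dc 2 15 1 (.lf 3 11 192)))) (.dc 0 12 0 (.ct 2
  5 1 1 1 (.dc 2 15 0 (.lf 3 9 176)) (.dc 2 15 1 (.lf 3 10 192))))))) (.dc 0 2 0 (.ct 1 3 1 1 1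
  (.dc 0 12 1 (.ct 4 5 1 1 1 (.ct 0 2 1 1 1 (.dc 0 1 0 (.ct 0 5 1 1 1 (.ct 2 5 1 1 1 (.dc 2 15 0
  (.lf 3 5 208)) (.dc 2 15 1 (.lf 3 9 208))) (.dc 2 15 1 (.lf 3 9 208)))) (.dc 0 1 1 (.ct 2 5 1 1
  1 (.dc 2 15 0 (.lf 3 11 192)) (.dc 2 15 1 (.lf 3 13 208))))) (.dc 2 15 1 (.ct 0 2 1 1 1 (.dc 0
  1 0 (.lf 3 8 208)) (.dc 0 1 1 (.lf 3 13 208)))))) (.dc 0 12 0 (.ct 4 5 1 1 1 (.ct 0 2 1 1 1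
  (.dc 0 1 0 (.ct 0 5 1 1 1 (.ct 2 5 1 1 1 (.dc 2 15 0 (.lf 3 5 208)) (.dc 2 15 1 (.lf 3 7 208)))
  (.dc 2 15 1 (.lf 3 5 208)))) (.dc 0 1 1 (.ct 2 5 1 1 1 (.dc 2 15 0 (.lf 3 11 192)) (.dc 2 15 1
  (.lf 3 12 208))))) (.dc 2 15 1 (.ct 0 2 1 1 1 (.dc 0 1 0 (.lf 3 6 208)) (.dc 0 1 1 (.lf 3 12
  208))))))))))))

theorem dt86 : le (run cls4 4 tr86 [[1, 0, 0, 0, 1, 0, 0], [1, 1, 0, 0, 2, 1, 1], [2, 2, 2, 1,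
  5, 2, 2], [1, 1, 1, 1, 4, 1, 1], [1, 1, 0, 0, 2, 0, 0], [0, 0, 0, 0, 1, 1, 0], [2, 2, 2, 1, 7,
  3, 3]] 140187724148729 [90, 90, 114, 114, 36, 204, 210]) 52831898573 = true := by decide +kernel

/-- data -/
noncomputable def tr87 : Ct := (.dc 0 1 0 (.ct 0 5 1 1 1 (.ct 5 6 1 1 1 (.dc 2 15 1 (.ct 1 3 1
  1 1 (.dc 0 12 1 (.ct 1 2 1 1 1 (.ct 2 3 1 1 1 (.dc 1 7 0 (.lf 3 9 208)) (.dc 1 7 1 (.lf 3 7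
  240))) (.dc 1 7 0 (.lf 3 9 208)))) (.dc 0 12 0 (.ct 2 3 1 1 1 (.dc 1 7 0 (.lf 3 7 208)) (.dc 1
  7 1 (.lf 3 7 240)))))) (.ct 1 3 1 1 1 (.dc 0 12 1 (.ct 1 2 1 1 1 (.ct 1 5 1 1 1 (.ct 2 3 1 1 1
  (.dc 1 7 0 (.ct 2 5 1 1 1 (.dc 2 15 0 (.lf 3 6 256)) (.dc 2 15 1 (.lf 3 8 256)))) (.dc 1 7 1
  (.ct 2 5 1 1 1 (.ct 3 5 1 1 1 (.dc 2 15 0 (.lf 3 4 256)) (.dc 2 15 1 (.lf 3 7 256))) (.dc 2 15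
  1 (.lf 3 7 240))))) (.dc 2 15 1 (.ct 2 3 1 1 1 (.dc 1 7 0 (.lf 3 8 224)) (.dc 1 7 1 (.lf 3 6
  240))))) (.dc 1 7 0 (.ct 2 5 1 1 1 (.dc 2 15 0 (.lf 3 6 224)) (.dc 2 15 1 (.lf 3 9 224))))))
  (.dc 0 12 0 (.ct 2 3 1 1 1 (.dc 1 7 0 (.ct 2 5 1 1 1 (.dc 2 15 0 (.lf 3 5 224)) (.dc 2 15 1
  (.lf 3 6 224)))) (.dc 1 7 1 (.ct 2 5 1 1 1 (.ct 3 5 1 1 1 (.dc 2 15 0 (.lf 3 5 224)) (.dc 2 15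
  1 (.lf 3 7 224))) (.dc 2 15 1 (.lf 3 7 240)))))))) (.dc 2 15 1 (.ct 1 3 1 1 1 (.dc 0 12 1 (.ct
  1 2 1 1 1 (.ct 2 3 1 1 1 (.dc 1 7 0 (.lf 3 9 208)) (.dc 1 7 1 (.lf 3 7 240))) (.dc 1 7 0 (.lf 3
  9 208)))) (.dc 0 12 0 (.ct 2 3 1 1 1 (.dc 1 7 0 (.lf 3 5 208)) (.dc 1 7 1 (.lf 3 6 240))))))))

theorem dt87 : le (run cls4 4 tr87 [[3, 2, 2, 1, 6, 2, 2], [1, 1, 0, 0, 2, 1, 1], [2, 2, 2, 1,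
  4, 2, 1], [1, 1, 1, 1, 4, 1, 1], [3, 3, 2, 1, 8, 3, 2], [0, 0, 0, 0, 1, 1, 0], [2, 2, 2, 1, 5,
  2, 2]] 140737479962621 [90, 90, 114, 114, 36, 204, 210]) 415376598272 = true := by
  decide +kernel

/-- data -/
noncomputable def tr88 : Ct := (.ct 5 6 1 1 1 (.dc 2 15 1 (.ct 0 2 1 1 1 (.dc 0 1 0 (.ct 0 3 1
  1 1 (.ct 0 1 1 1 1 (.ct 1 3 1 1 1 (.dc 0 12 1 (.ct 1 2 1 1 1 (.ct 2 3 1 1 1 (.dc 1 7 0 (.lf 3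
  10 224)) (.dc 1 7 1 (.lf 3 7 240))) (.dc 1 7 0 (.lf 3 10 224)))) (.dc 0 12 0 (.ct 2 3 1 1 1
  (.dc 1 7 0 (.lf 3 4 224)) (.dc 1 7 1 (.lf 3 4 240))))) (.dc 0 12 1 (.ct 2 3 1 1 1 (.dc 1 7 0
  (.lf 3 9 256)) (.dc 1 7 1 (.lf 3 9 272))))) (.dc 1 7 1 (.ct 1 3 1 1 1 (.dc 0 12 1 (.lf 3 8
  272)) (.dc 0 12 0 (.lf 3 5 240)))))) (.dc 0 1 1 (.ct 1 3 1 1 1 (.dc 0 12 1 (.ct 1 2 1 1 1 (.ct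
  2 3 1 1 1 (.dc 1 7 0 (.lf 3 13 256)) (.dc 1 7 1 (.lf 3 13 256))) (.dc 1 7 0 (.lf 3 13 224))))
  (.dc 0 12 0 (.ct 2 3 1 1 1 (.dc 1 7 0 (.lf 3 12 224)) (.dc 1 7 1 (.lf 3 12 224)))))))) (.ct 1 3
  1 1 1 (.dc 0 12 1 (.ct 1 2 1 1 1 (.ct 0 1 1 1 1 (.dc 0 1 0 (.ct 0 5 1 1 1 (.ct 1 5 1 1 1 (.ct 2
  3 1 1 1 (.dc 1 7 0 (.ct 2 5 1 1 1 (.dc 2 15 0 (.lf 3 5 256)) (.dc 2 15 1 (.lf 3 10 272)))) (.dc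
  1 7 1 (.ct 2 5 1 1 1 (.ct 3 5 1 1 1 (.dc 2 15 0 (.lf 3 4 256)) (.dc 2 15 1 (.lf 3 7 272))) (.dc
  2 15 1 (.lf 3 8 272))))) (.dc 2 15 1 (.ct 2 3 1 1 1 (.dc 1 7 0 (.lf 3 10 240)) (.dc 1 7 1 (.lf
  3 9 272))))) (.dc 2 15 1 (.ct 2 3 1 1 1 (.dc 1 7 0 (.lf 3 10 240)) (.dc 1 7 1 (.lf 3 8
  272)))))) (.ct 1 5 1 1 1 (.ct 0 2 1 1 1 (.dc 0 1 0 (.ct 0 3 1 1 1 (.ct 0 5 1 1 1 (.ct 2 3 1 1 1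
  (.dc 1 7 0 (.ct 2 5 1 1 1 (.dc 2 15 0 (.lf 3 5 256)) (.dc 2 15 1 (.lf 3 9 288)))) (.dc 1 7 1
  (.ct 2 5 1 1 1 (.ct 3 5 1 1 1 (.dc 2 15 0 (.lf 3 4 272)) (.dc 2 15 1 (.lf 3 7 288))) (.dc 2 15
  1 (.lf 3 7 256))))) (.dc 2 15 1 (.ct 2 3 1 1 1 (.dc 1 7 0 (.lf 3 8 288)) (.dc 1 7 1 (.lf 3 8
  288))))) (.dc 1 7 1 (.ct 0 5 1 1 1 (.ct 2 5 1 1 1 (.ct 3 5 1 1 1 (.dc 2 15 0 (.lf 3 4 272))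
  (.dc 2 15 1 (.lf 3 7 304))) (.dc 2 15 1 (.lf 3 9 304))) (.dc 2 15 1 (.lf 3 8 304)))))) (.dc 0 1
  1 (.ct 2 3 1 1 1 (.dc 1 7 0 (.ct 2 5 1 1 1 (.dc 2 15 0 (.lf 3 11 224)) (.dc 2 15 1 (.lf 3 13
  256)))) (.dc 1 7 1 (.ct 2 5 1 1 1 (.ct 3 5 1 1 1 (.dc 2 15 0 (.lf 3 11 256)) (.dc 2 15 1 (.lf 3
  13 288))) (.dc 2 15 1 (.lf 3 13 288))))))) (.dc 2 15 1 (.ct 0 2 1 1 1 (.dc 0 1 0 (.ct 0 3 1 1 1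
  (.ct 2 3 1 1 1 (.dc 1 7 0 (.lf 3 9 272)) (.dc 1 7 1 (.lf 3 9 304))) (.dc 1 7 1 (.lf 3 8 288))))
  (.dc 0 1 1 (.ct 2 3 1 1 1 (.dc 1 7 0 (.lf 3 13 256)) (.dc 1 7 1 (.lf 3 13 256)))))))) (.dc 1 7
  0 (.ct 0 2 1 1 1 (.dc 0 1 0 (.ct 0 5 1 1 1 (.ct 2 5 1 1 1 (.dc 2 15 0 (.lf 3 5 224)) (.dc 2 15
  1 (.lf 3 11 240))) (.dc 2 15 1 (.lf 3 10 240)))) (.dc 0 1 1 (.ct 2 5 1 1 1 (.dc 2 15 0 (.lf 3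
  11 224)) (.dc 2 15 1 (.lf 3 13 224)))))))) (.dc 0 12 0 (.ct 0 2 1 1 1 (.dc 0 1 0 (.ct 0 3 1 1 1
  (.ct 0 5 1 1 1 (.ct 2 3 1 1 1 (.dc 1 7 0 (.ct 2 5 1 1 1 (.dc 2 15 0 (.lf 3 4 240)) (.dc 2 15 1
  (.lf 3 5 240)))) (.dc 1 7 1 (.ct 2 5 1 1 1 (.ct 3 5 1 1 1 (.dc 2 15 0 (.lf 3 4 240)) (.dc 2 15
  1 (.lf 3 6 240))) (.dc 2 15 1 (.lf 3 6 256))))) (.dc 2 15 1 (.ct 2 3 1 1 1 (.dc 1 7 0 (.lf 3 4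
  240)) (.dc 1 7 1 (.lf 3 5 272))))) (.dc 1 7 1 (.ct 0 5 1 1 1 (.ct 2 5 1 1 1 (.ct 3 5 1 1 1 (.dc
  2 15 0 (.lf 3 4 256)) (.dc 2 15 1 (.lf 3 5 256))) (.dc 2 15 1 (.lf 3 5 240))) (.dc 2 15 1 (.lf
  3 5 240)))))) (.dc 0 1 1 (.ct 2 3 1 1 1 (.dc 1 7 0 (.ct 2 5 1 1 1 (.dc 2 15 0 (.lf 3 11 240))
  (.dc 2 15 1 (.lf 3 12 240)))) (.dc 1 7 1 (.ct 2 5 1 1 1 (.ct 3 5 1 1 1 (.dc 2 15 0 (.lf 3 11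
  224)) (.dc 2 15 1 (.lf 3 12 256))) (.dc 2 15 1 (.lf 3 12 224))))))))))

theorem dt88 : le (run cls4 4 tr88 [[1, 0, 0, 0, 1, 0, 0], [1, 1, 0, 0, 2, 1, 1], [2, 2, 2, 1,
  4, 2, 1], [1, 1, 1, 1, 4, 1, 1], [3, 3, 2, 1, 8, 3, 2], [0, 0, 0, 0, 1, 1, 0], [3, 2, 2, 1, 6,
  2, 2]] 140737479962621 [90, 90, 114, 114, 36, 204, 210]) 151071192028 = true := by
  decide +kernel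

end Pool.Agent.Work.MP_122e00_nt.Sharp.Cx

end
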