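import Pool.Agent.Work.MP_122e00_nt.Bd.B03

/-! Bundle of small proof modules (one section per former module). -/

section

set_option autoImplicit false

set_option maxRecDepth 100000

/-!
# The certificate: data
-/

namespace Pool.Agent.Work.MP_122e00_nt.Sharp.Cx

/-- data -/
noncomputable def tr89 : Ct := (.dc 2 15 1 (.ct 0 6 1 1 1 (.dc 0 1 0 (.ct 1 3 1 1 1 (.dc 0 12 1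
  (.ct 1 2 1 1 1 (.ct 2 3 1 1 1 (.dc 1 7 0 (.lf 3 8 208)) (.dc 1 7 1 (.lf 3 7 240))) (.dc 1 7 0
  (.lf 3 8 208)))) (.dc 0 12 0 (.ct 2 3 1 1 1 (.dc 1 7 0 (.lf 3 6 208)) (.dc 1 7 1 (.lf 3 6
  240)))))) (.ct 0 2 1 1 1 (.dc 0 1 0 (.ct 0 3 1 1 1 (.ct 0 1 1 1 1 (.ct 1 3 1 1 1 (.dc 0 12 1
  (.ct 1 2 1 1 1 (.ct 2 3 1 1 1 (.dc 1 7 0 (.lf 3 9 224)) (.dc 1 7 1 (.lf 3 9 240))) (.dc 1 7 0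
  (.lf 3 10 224)))) (.dc 0 12 0 (.ct 2 3 1 1 1 (.dc 1 7 0 (.lf 3 5 224)) (.dc 1 7 1 (.lf 3 5
  240))))) (.dc 0 12 1 (.ct 2 3 1 1 1 (.dc 1 7 0 (.lf 3 9 256)) (.dc 1 7 1 (.lf 3 8 272))))) (.dc
  1 7 1 (.ct 1 3 1 1 1 (.dc 0 12 1 (.lf 3 7 272)) (.dc 0 12 0 (.lf 3 5 240)))))) (.dc 0 1 1 (.ct
  1 3 1 1 1 (.dc 0 12 1 (.ct 1 2 1 1 1 (.ct 2 3 1 1 1 (.dc 1 7 0 (.lf 3 13 256)) (.dc 1 7 1 (.lf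
  3 13 256))) (.dc 1 7 0 (.lf 3 13 224)))) (.dc 0 12 0 (.ct 2 3 1 1 1 (.dc 1 7 0 (.lf 3 12 224))
  (.dc 1 7 1 (.lf 3 12 224)))))))))

theorem dt89 : le (run cls4 4 tr89 [[1, 0, 0, 0, 1, 0, 0], [1, 1, 0, 0, 2, 1, 1], [2, 2, 2, 1,
  4, 2, 1], [1, 1, 1, 1, 4, 1, 1], [3, 3, 2, 1, 7, 2, 2], [3, 3, 2, 1, 8, 3, 2], [2, 2, 2, 1, 5,
  2, 2]] 140737479962621 [90, 90, 114, 114, 36, 204, 210]) 346724534127 = true := by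
  decide +kernel

/-- data -/
noncomputable def tr90 : Ct := (.dc 2 15 1 (.ct 2 3 1 1 1 (.dc 2 7 0 (.ct 0 6 1 1 1 (.dc 0 1 0
  (.ct 1 2 1 1 1 (.dc 0 12 1 (.ct 3 5 1 1 1 (.dc 1 7 1 (.lf 3 6 240)) (.dc 1 7 0 (.lf 3 7 240))))
  (.ct 1 3 1 1 1 (.dc 0 12 1 (.ct 1 5 1 1 1 (.ct 3 5 1 1 1 (.dc 1 7 1 (.lf 3 8 208)) (.dc 1 7 0
  (.lf 3 8 208))) (.dc 1 7 0 (.lf 3 9 208)))) (.dc 0 12 0 (.ct 3 5 1 1 1 (.dc 1 7 1 (.lf 3 7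
  208)) (.dc 1 7 0 (.lf 3 6 208))))))) (.ct 0 2 1 1 1 (.dc 0 1 0 (.ct 0 1 1 1 1 (.ct 1 2 1 1 1
  (.dc 0 12 1 (.ct 3 5 1 1 1 (.dc 1 7 1 (.lf 3 7 224)) (.dc 1 7 0 (.lf 3 10 224)))) (.ct 1 3 1 1
  1 (.dc 0 12 1 (.ct 1 5 1 1 1 (.ct 3 5 1 1 1 (.dc 1 7 1 (.lf 3 9 192)) (.dc 1 7 0 (.lf 3 9
  192))) (.dc 1 7 0 (.lf 3 10 208)))) (.dc 0 12 0 (.ct 3 5 1 1 1 (.dc 1 7 1 (.lf 3 5 192)) (.dc 1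
  7 0 (.lf 3 5 208)))))) (.dc 0 12 1 (.ct 3 5 1 1 1 (.dc 1 7 1 (.lf 3 8 224)) (.dc 1 7 0 (.lf 3 8
  208)))))) (.ct 1 2 1 1 1 (.dc 0 12 1 (.ct 0 5 1 1 1 (.dc 0 1 0 (.ct 0 3 1 1 1 (.ct 3 5 1 1 1
  (.dc 1 7 1 (.lf 3 8 224)) (.dc 1 7 0 (.lf 3 8 208))) (.dc 1 7 1 (.lf 3 7 240)))) (.dc 0 1 1
  (.ct 3 5 1 1 1 (.dc 1 7 1 (.lf 3 13 208)) (.dc 1 7 0 (.lf 3 13 208)))))) (.ct 0 5 1 1 1 (.dc 0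
  1 0 (.ct 0 3 1 1 1 (.ct 0 1 1 1 1 (.ct 1 3 1 1 1 (.dc 0 12 1 (.ct 1 5 1 1 1 (.ct 3 5 1 1 1 (.dc
  1 7 1 (.lf 3 9 208)) (.dc 1 7 0 (.lf 3 9 192))) (.dc 1 7 0 (.lf 3 10 192)))) (.dc 0 12 0 (.ct 3
  5 1 1 1 (.dc 1 7 1 (.lf 3 5 208)) (.dc 1 7 0 (.lf 3 5 192))))) (.dc 0 12 1 (.ct 3 5 1 1 1 (.dc
  1 7 1 (.lf 3 7 256)) (.dc 1 7 0 (.lf 3 9 224))))) (.dc 1 7 1 (.ct 1 3 1 1 1 (.dc 0 12 1 (.lf 3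
  7 256)) (.dc 0 12 0 (.lf 3 4 208)))))) (.dc 0 1 1 (.ct 1 3 1 1 1 (.dc 0 12 1 (.ct 1 5 1 1 1
  (.ct 3 5 1 1 1 (.dc 1 7 1 (.lf 3 13 224)) (.dc 1 7 0 (.lf 3 13 224))) (.dc 1 7 0 (.lf 3 13
  192)))) (.dc 0 12 0 (.ct 3 5 1 1 1 (.dc 1 7 1 (.lf 3 12 192)) (.dc 1 7 0 (.lf 3 12
  192))))))))))) (.dc 1 7 1 (.dc 2 7 1 (.ct 0 2 1 1 1 (.dc 0 1 0 (.ct 1 3 1 1 1 (.dc 0 12 1 (.lf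
  3 8 224)) (.dc 0 12 0 (.lf 3 7 192)))) (.ct 0 5 1 1 1 (.dc 0 1 0 (.ct 1 3 1 1 1 (.dc 0 12 1
  (.lf 3 8 208)) (.dc 0 12 0 (.lf 3 7 192)))) (.ct 0 6 1 1 1 (.dc 0 1 0 (.ct 1 3 1 1 1 (.dc 0 12
  1 (.lf 3 7 240)) (.dc 0 12 0 (.lf 3 7 208)))) (.ct 0 3 1 1 1 (.dc 0 1 0 (.ct 0 1 1 1 1 (.ct 1 3
  1 1 1 (.dc 0 12 1 (.lf 3 9 240)) (.dc 0 12 0 (.lf 3 6 208))) (.dc 0 12 1 (.lf 3 8 240)))) (.dc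
  0 1 1 (.ct 1 3 1 1 1 (.dc 0 12 1 (.lf 3 13 208)) (.dc 0 12 0 (.lf 3 12 208))))))))))))

theorem dt90 : le (run cls4 4 tr90 [[1, 0, 0, 0, 1, 0, 0], [1, 1, 0, 0, 2, 1, 1], [2, 2, 2, 1,
  3, 1, 1], [1, 1, 1, 1, 4, 1, 1], [3, 3, 2, 1, 7, 2, 2], [2, 2, 2, 1, 4, 2, 1], [2, 2, 2, 1, 5,
  2, 2]] 140187724148733 [90, 90, 114, 114, 36, 204, 210]) 523189780789 = true := by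
  decide +kernel

/-- data -/
noncomputable def tr91 : Ct := (.dc 0 1 1 (.dc 0 2 1 (.ct 2 3 1 1 1 (.dc 1 7 0 (.dc 2 7 0 (.ct
  1 3 1 1 1 (.dc 0 12 1 (.ct 2 5 1 2 1 (.ct 5 6 1 1 1 (.dc 2 15 1 (.lf 3 11 192)) (.dc 2 15 0
  (.lf 3 9 192))) (.dc 2 15 1 (.lf 3 11 208)))) (.ct 5 6 1 1 1 (.dc 2 15 1 (.ct 1 2 1 1 1 (.dc 0
  12 1 (.lf 3 11 224)) (.dc 0 12 0 (.lf 3 10 208)))) (.ct 1 2 1 1 1 (.dc 0 12 1 (.ct 1 5 1 2 1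
  (.ct 2 5 1 2 1 (.dc 2 15 0 (.lf 3 9 208)) (.dc 2 15 1 (.lf 3 11 240))) (.dc 2 15 1 (.lf 3 11
  240)))) (.dc 0 12 0 (.ct 2 5 1 2 1 (.dc 2 15 0 (.lf 3 9 192)) (.dc 2 15 1 (.lf 3 10
  208))))))))) (.dc 1 7 1 (.ct 2 5 1 1 1 (.dc 2 7 0 (.ct 2 5 1 1 1 (.ct 5 6 1 1 1 (.dc 2 15 1
  (.ct 1 3 1 1 1 (.dc 0 12 1 (.lf 3 11 224)) (.dc 0 12 0 (.lf 3 10 208)))) (.ct 1 3 1 1 1 (.dc 0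
  12 1 (.ct 1 5 1 2 1 (.ct 3 5 1 2 1 (.dc 2 15 0 (.lf 3 9 192)) (.dc 2 15 1 (.lf 3 11 224))) (.dc
  2 15 1 (.lf 3 11 256)))) (.dc 0 12 0 (.ct 3 5 1 2 1 (.dc 2 15 0 (.lf 3 9 192)) (.dc 2 15 1 (.lf
  3 10 224)))))) (.dc 2 15 1 (.ct 1 3 1 1 1 (.dc 0 12 1 (.lf 3 11 224)) (.dc 0 12 0 (.lf 3 10
  192)))))) (.dc 2 7 1 (.dc 2 15 1 (.ct 1 3 1 1 1 (.dc 0 12 1 (.lf 3 11 224)) (.dc 0 12 0 (.lf 3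
  10 192))))))))))

theorem dt91 : le (run cls4 4 tr91 [[1, 0, 0, 0, 1, 0, 0], [1, 1, 0, 0, 2, 1, 1], [3, 3, 2, 1,
  5, 1, 1], [1, 1, 1, 1, 4, 1, 1], [1, 1, 0, 0, 2, 0, 0], [0, 0, 0, 0, 1, 1, 0], [3, 3, 2, 1, 7,
  2, 2]] 140187724148729 [90, 90, 114, 114, 36, 204, 210]) 22337907048 = true := by decide +kernel

/-- data -/
noncomputable def tr92 : Ct := (.dc 2 15 1 (.ct 0 2 1 1 1 (.dc 0 1 0 (.ct 0 3 1 1 1 (.ct 0 1 1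
  1 1 (.ct 2 3 1 1 1 (.ct 1 2 1 1 1 (.dc 0 12 1 (.ct 3 4 1 1 1 (.dc 1 7 1 (.lf 3 8 240)) (.dc 1 7
  0 (.lf 3 8 224)))) (.ct 1 3 1 1 1 (.dc 0 12 1 (.ct 1 4 1 1 1 (.ct 3 4 1 1 1 (.dc 1 7 1 (.lf 3 7
  288)) (.dc 1 7 0 (.lf 3 7 272))) (.dc 1 7 0 (.lf 3 9 240)))) (.dc 0 12 0 (.ct 3 4 1 1 1 (.dc 1
  7 1 (.lf 3 6 256)) (.dc 1 7 0 (.lf 3 5 240)))))) (.dc 1 7 1 (.ct 1 3 1 1 1 (.dc 0 12 1 (.lf 3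
  10 240)) (.dc 0 12 0 (.lf 3 7 240))))) (.dc 0 12 1 (.ct 2 3 1 1 1 (.ct 3 4 1 1 1 (.dc 1 7 1
  (.lf 3 9 272)) (.dc 1 7 0 (.lf 3 9 272))) (.dc 1 7 1 (.lf 3 8 272))))) (.dc 1 7 1 (.ct 1 3 1 1
  1 (.dc 0 12 1 (.lf 3 8 272)) (.dc 0 12 0 (.lf 3 6 240)))))) (.dc 0 1 1 (.ct 2 3 1 1 1 (.ct 1 2
  1 1 1 (.dc 0 12 1 (.ct 3 4 1 1 1 (.dc 1 7 1 (.lf 3 13 288)) (.dc 1 7 0 (.lf 3 13 256)))) (.ct 1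
  3 1 1 1 (.dc 0 12 1 (.ct 1 4 1 1 1 (.ct 3 4 1 1 1 (.dc 1 7 1 (.lf 3 13 288)) (.dc 1 7 0 (.lf 3
  13 256))) (.dc 1 7 0 (.lf 3 13 224)))) (.dc 0 12 0 (.ct 3 4 1 1 1 (.dc 1 7 1 (.lf 3 12 256))
  (.dc 1 7 0 (.lf 3 12 240)))))) (.dc 1 7 1 (.ct 1 3 1 1 1 (.dc 0 12 1 (.lf 3 13 256)) (.dc 0 12
  0 (.lf 3 12 224))))))))

theorem dt92 : le (run cls4 4 tr92 [[1, 0, 0, 0, 1, 0, 0], [1, 1, 0, 0, 2, 1, 1], [2, 2, 2, 1,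
  4, 2, 1], [1, 1, 1, 1, 4, 1, 1], [3, 3, 2, 1, 6, 2, 1], [3, 3, 2, 1, 8, 3, 2], [3, 3, 2, 1, 7,
  2, 2]] 140737479962621 [90, 90, 114, 114, 36, 204, 210]) 302205742877 = true := by
  decide +kernel

/-- data -/
noncomputable def tr93 : Ct := (.dc 1 7 1 (.ct 1 3 1 1 1 (.dc 0 12 1 (.ct 0 2 1 1 1 (.dc 0 1 0
  (.ct 0 5 1 1 1 (.ct 2 5 1 1 1 (.dc 2 15 0 (.lf 3 4 208)) (.dc 2 15 1 (.lf 3 7 240))) (.dc 2 15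
  1 (.lf 3 7 240)))) (.dc 0 1 1 (.ct 2 5 1 1 1 (.dc 2 15 0 (.lf 3 11 192)) (.dc 2 15 1 (.lf 3 13
  208)))))) (.dc 0 12 0 (.ct 0 2 1 1 1 (.dc 0 1 0 (.ct 0 5 1 1 1 (.ct 2 5 1 1 1 (.dc 2 15 0 (.lf
  3 5 208)) (.dc 2 15 1 (.lf 3 6 240))) (.dc 2 15 1 (.lf 3 5 240)))) (.dc 0 1 1 (.ct 2 5 1 1 1
  (.dc 2 15 0 (.lf 3 11 192)) (.dc 2 15 1 (.lf 3 12 208))))))))

theorem dt93 : le (run cls4 4 tr93 [[1, 0, 0, 0, 1, 0, 0], [1, 1, 0, 0, 2, 1, 1], [2, 2, 2, 1,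
  4, 2, 1], [4, 4, 3, 2, 11, 4, 2], [3, 3, 2, 1, 7, 3, 1], [0, 0, 0, 0, 1, 1, 0], [3, 3, 2, 1, 8,
  3, 2]] 140737479962621 [90, 90, 114, 114, 36, 204, 210]) 117150475423 = true := by
  decide +kernel

end Pool.Agent.Work.MP_122e00_nt.Sharp.Cx

end

section

set_option autoImplicit false

set_option maxRecDepth 100000

/-!
# The certificate: data
-/

namespace Pool.Agent.Work.MP_122e00_nt.Sharp.Cx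

/-- data -/
noncomputable def tr94 : Ct := (.ct 1 4 1 1 1 (.dc 0 12 1 (.ct 0 2 1 1 1 (.dc 0 1 0 (.ct 0 3 1
  1 1 (.ct 0 5 1 1 1 (.ct 2 3 1 1 1 (.dc 1 7 0 (.ct 2 5 1 1 1 (.dc 2 15 0 (.lf 3 4 256)) (.dc 2
  15 1 (.lf 3 9 256)))) (.dc 1 7 1 (.ct 2 5 1 1 1 (.ct 3 5 1 1 1 (.dc 2 15 0 (.lf 3 4 272)) (.dc
  2 15 1 (.lf 3 7 272))) (.dc 2 15 1 (.lf 3 7 240))))) (.dc 2 15 1 (.ct 2 3 1 1 1 (.dc 1 7 0 (.lf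
  3 10 256)) (.dc 1 7 1 (.lf 3 7 256))))) (.dc 1 7 1 (.ct 0 5 1 1 1 (.ct 2 5 1 1 1 (.ct 3 5 1 1 1
  (.dc 2 15 0 (.lf 3 4 240)) (.dc 2 15 1 (.lf 3 6 272))) (.dc 2 15 1 (.lf 3 7 272))) (.dc 2 15 1
  (.lf 3 7 272)))))) (.dc 0 1 1 (.ct 2 3 1 1 1 (.dc 1 7 0 (.ct 2 5 1 1 1 (.dc 2 15 0 (.lf 3 10
  224)) (.dc 2 15 1 (.lf 3 13 256)))) (.dc 1 7 1 (.ct 2 5 1 1 1 (.ct 3 5 1 1 1 (.dc 2 15 0 (.lf 3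
  11 224)) (.dc 2 15 1 (.lf 3 13 256))) (.dc 2 15 1 (.lf 3 13 240)))))))) (.ct 1 3 1 1 1 (.dc 0
  12 1 (.ct 1 2 1 1 1 (.ct 0 1 1 1 1 (.dc 0 1 0 (.ct 0 5 1 1 1 (.ct 1 5 1 1 1 (.ct 2 3 1 1 1 (.dc
  1 7 0 (.ct 2 5 1 1 1 (.dc 2 15 0 (.lf 3 5 288)) (.dc 2 15 1 (.lf 3 9 288)))) (.dc 1 7 1 (.ct 2
  5 1 1 1 (.ct 3 5 1 1 1 (.dc 2 15 0 (.lf 3 3 272)) (.dc 2 15 1 (.lf 3 6 272))) (.dc 2 15 1 (.lf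
  3 7 256))))) (.dc 2 15 1 (.ct 2 3 1 1 1 (.dc 1 7 0 (.lf 3 9 256)) (.dc 1 7 1 (.lf 3 7 288)))))
  (.dc 2 15 1 (.ct 2 3 1 1 1 (.dc 1 7 0 (.lf 3 10 256)) (.dc 1 7 1 (.lf 3 7 288)))))) (.ct 1 5 1
  1 1 (.ct 0 2 1 1 1 (.dc 0 1 0 (.ct 0 3 1 1 1 (.ct 0 5 1 1 1 (.ct 2 3 1 1 1 (.dc 1 7 0 (.ct 2 5
  1 1 1 (.dc 2 15 0 (.lf 3 4 288)) (.dc 2 15 1 (.lf 3 11 304)))) (.dc 1 7 1 (.ct 2 5 1 1 1 (.ct 3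
  5 1 1 1 (.dc 2 15 0 (.lf 3 3 288)) (.dc 2 15 1 (.lf 3 5 288))) (.dc 2 15 1 (.lf 3 6 256)))))
  (.dc 2 15 1 (.ct 2 3 1 1 1 (.dc 1 7 0 (.lf 3 9 304)) (.dc 1 7 1 (.lf 3 8 272))))) (.dc 1 7 1
  (.ct 0 5 1 1 1 (.ct 2 5 1 1 1 (.ct 3 5 1 1 1 (.dc 2 15 0 (.lf 3 3 256)) (.dc 2 15 1 (.lf 3 6
  288))) (.dc 2 15 1 (.lf 3 8 288))) (.dc 2 15 1 (.lf 3 8 288)))))) (.dc 0 1 1 (.ct 2 3 1 1 1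
  (.dc 1 7 0 (.ct 2 5 1 1 1 (.dc 2 15 0 (.lf 3 11 256)) (.dc 2 15 1 (.lf 3 13 288)))) (.dc 1 7 1
  (.ct 2 5 1 1 1 (.ct 3 5 1 1 1 (.dc 2 15 0 (.lf 3 11 240)) (.dc 2 15 1 (.lf 3 13 272))) (.dc 2
  15 1 (.lf 3 13 256))))))) (.dc 2 15 1 (.ct 0 2 1 1 1 (.dc 0 1 0 (.ct 0 3 1 1 1 (.ct 2 3 1 1 1
  (.dc 1 7 0 (.lf 3 10 288)) (.dc 1 7 1 (.lf 3 8 288))) (.dc 1 7 1 (.lf 3 8 288)))) (.dc 0 1 1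
  (.ct 2 3 1 1 1 (.dc 1 7 0 (.lf 3 13 288)) (.dc 1 7 1 (.lf 3 13 272)))))))) (.dc 1 7 0 (.ct 0 2
  1 1 1 (.dc 0 1 0 (.ct 0 5 1 1 1 (.ct 2 5 1 1 1 (.dc 2 15 0 (.lf 3 5 256)) (.dc 2 15 1 (.lf 3 10
  256))) (.dc 2 15 1 (.lf 3 10 256)))) (.dc 0 1 1 (.ct 2 5 1 1 1 (.dc 2 15 0 (.lf 3 11 256)) (.dc
  2 15 1 (.lf 3 13 256)))))))) (.dc 0 12 0 (.ct 0 2 1 1 1 (.dc 0 1 0 (.ct 0 3 1 1 1 (.ct 0 5 1 1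
  1 (.ct 2 3 1 1 1 (.dc 1 7 0 (.ct 2 5 1 1 1 (.dc 2 15 0 (.lf 3 4 240)) (.dc 2 15 1 (.lf 3 5
  256)))) (.dc 1 7 1 (.ct 2 5 1 1 1 (.ct 3 5 1 1 1 (.dc 2 15 0 (.lf 3 4 240)) (.dc 2 15 1 (.lf 3
  5 256))) (.dc 2 15 1 (.lf 3 5 272))))) (.dc 2 15 1 (.ct 2 3 1 1 1 (.dc 1 7 0 (.lf 3 4 256))
  (.dc 1 7 1 (.lf 3 4 288))))) (.dc 1 7 1 (.ct 0 5 1 1 1 (.ct 2 5 1 1 1 (.ct 3 5 1 1 1 (.dc 2 15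
  0 (.lf 3 4 224)) (.dc 2 15 1 (.lf 3 4 240))) (.dc 2 15 1 (.lf 3 5 224))) (.dc 2 15 1 (.lf 3 4
  224)))))) (.dc 0 1 1 (.ct 2 3 1 1 1 (.dc 1 7 0 (.ct 2 5 1 1 1 (.dc 2 15 0 (.lf 3 11 224)) (.dc
  2 15 1 (.lf 3 12 240)))) (.dc 1 7 1 (.ct 2 5 1 1 1 (.ct 3 5 1 1 1 (.dc 2 15 0 (.lf 3 11 208))
  (.dc 2 15 1 (.lf 3 12 240))) (.dc 2 15 1 (.lf 3 12 208))))))))))

theorem dt94 : le (run cls4 4 tr94 [[1, 0, 0, 0, 1, 0, 0], [1, 1, 0, 0, 2, 1, 1], [2, 2, 2, 1,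
  4, 2, 1], [1, 1, 1, 1, 4, 1, 1], [4, 4, 3, 2, 11, 4, 2], [0, 0, 0, 0, 1, 1, 0], [3, 3, 2, 1, 8,
  3, 2]] 140737479962621 [90, 90, 114, 114, 36, 204, 210]) 159405944312 = true := by
  decide +kernel

/-- data -/
noncomputable def tr95 : Ct := (.dc 2 15 1 (.ct 3 4 1 1 1 (.dc 1 7 1 (.ct 0 2 1 1 1 (.dc 0 1 0
  (.ct 1 3 1 1 1 (.dc 0 12 1 (.lf 3 7 272)) (.dc 0 12 0 (.lf 3 5 272)))) (.dc 0 1 1 (.ct 1 3 1 1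
  1 (.dc 0 12 1 (.lf 3 13 272)) (.dc 0 12 0 (.lf 3 11 256)))))) (.ct 1 4 1 1 1 (.dc 0 12 1 (.ct 3
  5 1 1 1 (.dc 1 7 1 (.ct 0 2 1 1 1 (.dc 0 1 0 (.lf 3 7 256)) (.dc 0 1 1 (.lf 3 13 256)))) (.ct 0
  2 1 1 1 (.dc 0 1 0 (.ct 0 3 1 1 1 (.ct 2 3 1 1 1 (.dc 1 7 0 (.lf 3 8 288)) (.dc 1 7 1 (.lf 3 7
  288))) (.dc 1 7 1 (.lf 3 7 288)))) (.dc 0 1 1 (.ct 2 3 1 1 1 (.dc 1 7 0 (.lf 3 13 272)) (.dc 1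
  7 1 (.lf 3 13 288))))))) (.ct 0 2 1 1 1 (.dc 0 1 0 (.ct 0 3 1 1 1 (.ct 0 1 1 1 1 (.ct 2 3 1 1 1
  (.ct 1 2 1 1 1 (.dc 0 12 1 (.ct 3 5 1 1 1 (.dc 1 7 1 (.lf 3 7 240)) (.dc 1 7 0 (.lf 3 8 240))))
  (.ct 1 3 1 1 1 (.dc 0 12 1 (.ct 1 5 1 1 1 (.ct 3 5 1 1 1 (.dc 1 7 1 (.lf 3 7 256)) (.dc 1 7 0
  (.lf 3 8 256))) (.dc 1 7 0 (.lf 3 9 256)))) (.dc 0 12 0 (.ct 3 5 1 1 1 (.dc 1 7 1 (.lf 3 5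
  256)) (.dc 1 7 0 (.lf 3 4 256)))))) (.dc 1 7 1 (.ct 1 3 1 1 1 (.dc 0 12 1 (.lf 3 8 272)) (.dc 0
  12 0 (.lf 3 5 272))))) (.dc 0 12 1 (.ct 2 3 1 1 1 (.ct 3 5 1 1 1 (.dc 1 7 1 (.lf 3 8 272)) (.dc
  1 7 0 (.lf 3 9 272))) (.dc 1 7 1 (.lf 3 6 304))))) (.dc 1 7 1 (.ct 1 3 1 1 1 (.dc 0 12 1 (.lf 3
  6 288)) (.dc 0 12 0 (.lf 3 4 272)))))) (.dc 0 1 1 (.ct 2 3 1 1 1 (.ct 1 2 1 1 1 (.dc 0 12 1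
  (.ct 3 5 1 1 1 (.dc 1 7 1 (.lf 3 13 272)) (.dc 1 7 0 (.lf 3 13 272)))) (.ct 1 3 1 1 1 (.dc 0 12
  1 (.ct 1 5 1 1 1 (.ct 3 5 1 1 1 (.dc 1 7 1 (.lf 3 13 256)) (.dc 1 7 0 (.lf 3 13 256))) (.dc 1 7
  0 (.lf 3 13 256)))) (.dc 0 12 0 (.ct 3 5 1 1 1 (.dc 1 7 1 (.lf 3 12 256)) (.dc 1 7 0 (.lf 3 12
  240)))))) (.dc 1 7 1 (.ct 1 3 1 1 1 (.dc 0 12 1 (.lf 3 13 256)) (.dc 0 12 0 (.lf 3 12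
  240))))))))))

theorem dt95 : le (run cls4 4 tr95 [[1, 0, 0, 0, 1, 0, 0], [1, 1, 0, 0, 2, 1, 1], [2, 2, 2, 1,
  4, 2, 1], [1, 1, 1, 1, 4, 1, 1], [3, 3, 2, 1, 6, 2, 1], [3, 3, 2, 1, 7, 3, 1], [3, 3, 2, 1, 8,
  3, 2]] 140737479962621 [90, 90, 114, 114, 36, 204, 210]) 291105591968 = true := by
  decide +kernel

end Pool.Agent.Work.MP_122e00_nt.Sharp.Cx

end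

section

set_option autoImplicit false

set_option maxRecDepth 100000

/-!
# The certificate: data
-/

namespace Pool.Agent.Work.MP_122e00_nt.Sharp.Cx

/-- data -/
noncomputable def tr96 : Ct := (.dc 2 15 1 (.ct 2 3 1 1 1 (.dc 2 7 0 (.ct 0 2 1 1 1 (.dc 0 1 0
  (.ct 0 1 1 1 1 (.ct 1 2 1 1 1 (.dc 0 12 1 (.ct 3 4 1 1 1 (.dc 1 7 1 (.lf 3 7 224)) (.ct 3 5 1 1
  1 (.dc 1 7 1 (.lf 3 8 208)) (.dc 1 7 0 (.lf 3 8 208))))) (.ct 3 4 1 1 1 (.dc 1 7 1 (.ct 1 3 1 1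
  1 (.dc 0 12 1 (.lf 3 8 224)) (.dc 0 12 0 (.lf 3 6 224)))) (.ct 1 4 1 1 1 (.dc 0 12 1 (.ct 3 5 1
  1 1 (.dc 1 7 1 (.lf 3 9 224)) (.dc 1 7 0 (.lf 3 8 224)))) (.ct 1 3 1 1 1 (.dc 0 12 1 (.ct 1 5 1
  1 1 (.ct 3 5 1 1 1 (.dc 1 7 1 (.lf 3 8 224)) (.dc 1 7 0 (.lf 3 9 224))) (.dc 1 7 0 (.lf 3 9
  224)))) (.dc 0 12 0 (.ct 3 5 1 1 1 (.dc 1 7 1 (.lf 3 5 208)) (.dc 1 7 0 (.lf 3 5 224))))))))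
  (.dc 0 12 1 (.ct 3 4 1 1 1 (.dc 1 7 1 (.lf 3 6 224)) (.ct 3 5 1 1 1 (.dc 1 7 1 (.lf 3 7 208))
  (.dc 1 7 0 (.lf 3 8 208))))))) (.ct 1 2 1 1 1 (.dc 0 12 1 (.ct 3 4 1 1 1 (.dc 1 7 1 (.ct 0 5 1
  1 1 (.dc 0 1 0 (.lf 3 6 208)) (.dc 0 1 1 (.lf 3 13 208)))) (.ct 0 5 1 1 1 (.dc 0 1 0 (.ct 0 3 1
  1 1 (.ct 3 5 1 1 1 (.dc 1 7 1 (.lf 3 7 208)) (.dc 1 7 0 (.lf 3 7 208))) (.dc 1 7 1 (.lf 3 6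
  224)))) (.dc 0 1 1 (.ct 3 5 1 1 1 (.dc 1 7 1 (.lf 3 13 224)) (.dc 1 7 0 (.lf 3 13 224)))))))
  (.ct 0 5 1 1 1 (.dc 0 1 0 (.ct 0 3 1 1 1 (.ct 0 1 1 1 1 (.ct 3 4 1 1 1 (.dc 1 7 1 (.ct 1 3 1 1
  1 (.dc 0 12 1 (.lf 3 7 256)) (.dc 0 12 0 (.lf 3 6 256)))) (.ct 1 4 1 1 1 (.dc 0 12 1 (.ct 3 5 1
  1 1 (.dc 1 7 1 (.lf 3 8 240)) (.dc 1 7 0 (.lf 3 9 240)))) (.ct 1 3 1 1 1 (.dc 0 12 1 (.ct 1 5 1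
  1 1 (.ct 3 5 1 1 1 (.dc 1 7 1 (.lf 3 7 240)) (.dc 1 7 0 (.lf 3 8 208))) (.dc 1 7 0 (.lf 3 9
  208)))) (.dc 0 12 0 (.ct 3 5 1 1 1 (.dc 1 7 1 (.lf 3 5 240)) (.dc 1 7 0 (.lf 3 4 208)))))))
  (.dc 0 12 1 (.ct 3 4 1 1 1 (.dc 1 7 1 (.lf 3 7 256)) (.ct 3 5 1 1 1 (.dc 1 7 1 (.lf 3 8 240))
  (.dc 1 7 0 (.lf 3 8 240)))))) (.dc 1 7 1 (.ct 1 3 1 1 1 (.dc 0 12 1 (.lf 3 8 256)) (.dc 0 12 0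
  (.lf 3 6 208)))))) (.dc 0 1 1 (.ct 3 4 1 1 1 (.dc 1 7 1 (.ct 1 3 1 1 1 (.dc 0 12 1 (.lf 3 13
  240)) (.dc 0 12 0 (.lf 3 12 224)))) (.ct 1 4 1 1 1 (.dc 0 12 1 (.ct 3 5 1 1 1 (.dc 1 7 1 (.lf 3
  13 256)) (.dc 1 7 0 (.lf 3 13 240)))) (.ct 1 3 1 1 1 (.dc 0 12 1 (.ct 1 5 1 1 1 (.ct 3 5 1 1 1
  (.dc 1 7 1 (.lf 3 13 240)) (.dc 1 7 0 (.lf 3 13 240))) (.dc 1 7 0 (.lf 3 13 208)))) (.dc 0 12 0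
  (.ct 3 5 1 1 1 (.dc 1 7 1 (.lf 3 12 208)) (.dc 1 7 0 (.lf 3 12 208)))))))))))) (.dc 1 7 1 (.dc
  2 7 1 (.ct 0 2 1 1 1 (.dc 0 1 0 (.ct 1 3 1 1 1 (.dc 0 12 1 (.lf 3 8 224)) (.dc 0 12 0 (.lf 3 6
  192)))) (.ct 0 5 1 1 1 (.dc 0 1 0 (.ct 1 3 1 1 1 (.dc 0 12 1 (.lf 3 7 240)) (.dc 0 12 0 (.lf 3
  5 208)))) (.ct 0 3 1 1 1 (.dc 0 1 0 (.ct 0 1 1 1 1 (.ct 1 3 1 1 1 (.dc 0 12 1 (.lf 3 8 240))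
  (.dc 0 12 0 (.lf 3 5 208))) (.dc 0 12 1 (.lf 3 8 240)))) (.dc 0 1 1 (.ct 1 3 1 1 1 (.dc 0 12 1
  (.lf 3 13 208)) (.dc 0 12 0 (.lf 3 11 208)))))))))))

theorem dt96 : le (run cls4 4 tr96 [[1, 0, 0, 0, 1, 0, 0], [1, 1, 0, 0, 2, 1, 1], [2, 2, 2, 1,
  3, 1, 1], [1, 1, 1, 1, 4, 1, 1], [3, 3, 2, 1, 6, 2, 1], [2, 2, 2, 1, 4, 2, 1], [3, 3, 2, 1, 7,
  2, 2]] 140187724148733 [90, 90, 114, 114, 36, 204, 210]) 492046283646 = true := by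
  decide +kernel

/-- data -/
noncomputable def tr97 : Ct := (.dc 2 15 1 (.ct 3 4 1 1 1 (.dc 1 7 1 (.dc 2 7 1 (.ct 0 2 1 1 1
  (.dc 0 1 0 (.ct 1 3 1 1 1 (.dc 0 12 1 (.lf 3 9 256)) (.dc 0 12 0 (.lf 3 5 208)))) (.dc 0 1 1
  (.ct 1 3 1 1 1 (.dc 0 12 1 (.lf 3 13 256)) (.dc 0 12 0 (.lf 3 11 208))))))) (.ct 2 3 1 1 1 (.dc
  2 7 0 (.ct 1 4 1 1 1 (.dc 0 12 1 (.ct 0 2 1 1 1 (.dc 0 1 0 (.ct 3 5 1 1 1 (.dc 1 7 1 (.lf 3 9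
  272)) (.dc 1 7 0 (.lf 3 9 272)))) (.dc 0 1 1 (.ct 3 5 1 1 1 (.dc 1 7 1 (.lf 3 13 256)) (.dc 1 7
  0 (.lf 3 13 240)))))) (.ct 0 2 1 1 1 (.dc 0 1 0 (.ct 0 1 1 1 1 (.ct 1 2 1 1 1 (.dc 0 12 1 (.ct
  3 5 1 1 1 (.dc 1 7 1 (.lf 3 7 240)) (.dc 1 7 0 (.lf 3 7 224)))) (.ct 1 3 1 1 1 (.dc 0 12 1 (.ct
  1 5 1 1 1 (.ct 3 5 1 1 1 (.dc 1 7 1 (.lf 3 7 256)) (.dc 1 7 0 (.lf 3 7 240))) (.dc 1 7 0 (.lf 3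
  9 240)))) (.dc 0 12 0 (.ct 3 5 1 1 1 (.dc 1 7 1 (.lf 3 5 256)) (.dc 1 7 0 (.lf 3 4 240))))))
  (.dc 0 12 1 (.ct 3 5 1 1 1 (.dc 1 7 1 (.lf 3 7 240)) (.dc 1 7 0 (.lf 3 7 224)))))) (.dc 0 1 1
  (.ct 1 2 1 1 1 (.dc 0 12 1 (.ct 3 5 1 1 1 (.dc 1 7 1 (.lf 3 13 208)) (.dc 1 7 0 (.lf 3 13
  208)))) (.ct 1 3 1 1 1 (.dc 0 12 1 (.ct 1 5 1 1 1 (.ct 3 5 1 1 1 (.dc 1 7 1 (.lf 3 13 256))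
  (.dc 1 7 0 (.lf 3 13 240))) (.dc 1 7 0 (.lf 3 13 208)))) (.dc 0 12 0 (.ct 3 5 1 1 1 (.dc 1 7 1
  (.lf 3 11 224)) (.dc 1 7 0 (.lf 3 12 208)))))))))) (.dc 1 7 1 (.dc 2 7 1 (.ct 0 2 1 1 1 (.dc 0
  1 0 (.ct 1 3 1 1 1 (.dc 0 12 1 (.lf 3 7 256)) (.ct 1 4 1 1 1 (.dc 0 12 1 (.lf 3 7 256)) (.dc 0
  12 0 (.lf 3 5 208))))) (.ct 1 4 1 1 1 (.dc 0 12 1 (.ct 0 3 1 1 1 (.dc 0 1 0 (.lf 3 8 272)) (.dc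
  0 1 1 (.lf 3 13 256)))) (.ct 0 3 1 1 1 (.dc 0 1 0 (.ct 0 1 1 1 1 (.ct 1 3 1 1 1 (.dc 0 12 1
  (.lf 3 7 240)) (.dc 0 12 0 (.lf 3 5 208))) (.dc 0 12 1 (.lf 3 8 240)))) (.dc 0 1 1 (.ct 1 3 1 1
  1 (.dc 0 12 1 (.lf 3 13 208)) (.dc 0 12 0 (.lf 3 11 208))))))))))))

theorem dt97 : le (run cls4 4 tr97 [[1, 0, 0, 0, 1, 0, 0], [1, 1, 0, 0, 2, 1, 1], [2, 2, 2, 1,
  3, 1, 1], [1, 1, 1, 1, 4, 1, 1], [3, 3, 2, 1, 5, 1, 1], [3, 3, 2, 1, 6, 2, 1], [3, 3, 2, 1, 7,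
  2, 2]] 140187724148733 [90, 90, 114, 114, 36, 204, 210]) 419194598344 = true := by
  decide +kernel

/-- data -/
noncomputable def tr98 : Ct := (.dc 1 7 0 (.dc 2 7 0 (.ct 2 4 1 1 1 (.dc 0 1 1 (.dc 0 2 1 (.ct
  1 5 1 1 1 (.ct 2 5 1 2 1 (.dc 2 15 0 (.lf 2 9 192)) (.dc 2 15 1 (.lf 2 11 224))) (.dc 2 15 1
  (.lf 2 11 224))))) (.dc 0 2 0 (.ct 1 5 1 1 1 (.ct 4 5 1 2 1 (.ct 0 2 1 1 1 (.dc 0 1 0 (.ct 0 5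
  1 2 1 (.ct 2 5 1 2 1 (.dc 2 15 0 (.lf 2 5 224)) (.dc 2 15 1 (.lf 2 10 240))) (.dc 2 15 1 (.lf 2
  11 208)))) (.dc 0 1 1 (.ct 2 5 1 2 1 (.dc 2 15 0 (.lf 2 10 192)) (.dc 2 15 1 (.lf 2 13 176)))))
  (.dc 2 15 1 (.ct 0 2 1 1 1 (.dc 0 1 0 (.lf 2 10 240)) (.dc 0 1 1 (.lf 2 13 224))))) (.dc 2 15 1
  (.ct 0 2 1 1 1 (.dc 0 1 0 (.lf 2 10 240)) (.dc 0 1 1 (.lf 2 13 224)))))))))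

theorem dt98 : le (run cls4 4 tr98 [[1, 0, 0, 0, 1, 0, 0], [2, 2, 1, 1, 4, 1, 1], [3, 3, 3, 2,
  7, 2, 2], [1, 1, 1, 1, 3, 1, 0], [1, 1, 0, 0, 2, 0, 0], [0, 0, 0, 0, 1, 1, 0], [1, 1, 1, 1, 4,
  1, 1]] 140187724152825 [118, 118, 118, 118, 40, 232, 238]) 127837510718 = true := by
  decide +kernel

end Pool.Agent.Work.MP_122e00_nt.Sharp.Cx

end

section

set_option autoImplicit false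

set_option maxRecDepth 100000

/-!
# The certificate: data
-/

namespace Pool.Agent.Work.MP_122e00_nt.Sharp.Cx

/-- data -/
noncomputable def tr99 : Ct := (.dc 2 7 0 (.ct 1 5 1 1 1 (.ct 4 5 1 2 1 (.ct 0 2 1 1 1 (.dc 0 1
  0 (.ct 0 5 1 1 1 (.ct 2 5 1 1 1 (.ct 5 6 2 1 1 (.dc 2 15 1 (.lf 2 9 272)) (.dc 2 15 0 (.lf 2 6
  240))) (.dc 2 15 1 (.lf 2 10 240))) (.dc 2 15 1 (.lf 2 10 240)))) (.ct 2 5 1 1 1 (.ct 0 6 1 1 1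
  (.dc 0 1 0 (.ct 0 5 1 2 1 (.ct 5 6 2 1 1 (.dc 2 15 1 (.lf 2 11 256)) (.dc 2 15 0 (.lf 2 6
  224))) (.dc 2 15 1 (.lf 2 10 224)))) (.dc 0 1 1 (.ct 5 6 2 1 1 (.dc 2 15 1 (.lf 2 13 192)) (.dc
  2 15 0 (.lf 2 10 192))))) (.dc 2 15 1 (.ct 0 6 1 1 1 (.dc 0 1 0 (.lf 2 10 240)) (.dc 0 1 1 (.lf
  2 13 208)))))) (.dc 2 15 1 (.ct 0 2 1 1 1 (.dc 0 1 0 (.lf 2 9 256)) (.ct 0 6 1 1 1 (.dc 0 1 0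
  (.lf 2 10 256)) (.dc 0 1 1 (.lf 2 13 224)))))) (.dc 2 15 1 (.ct 0 2 1 1 1 (.dc 0 1 0 (.lf 2 9
  240)) (.ct 0 6 1 1 1 (.dc 0 1 0 (.lf 2 10 240)) (.dc 0 1 1 (.lf 2 13 208)))))))

theorem dt99 : le (run cls4 4 tr99 [[1, 0, 0, 0, 1, 0, 0], [2, 2, 1, 1, 4, 1, 1], [2, 2, 2, 1,
  4, 2, 1], [1, 1, 1, 1, 3, 1, 0], [4, 4, 3, 2, 9, 2, 2], [0, 0, 0, 0, 1, 1, 0], [3, 3, 3, 2, 7,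
  2, 2]] 140187732541437 [120, 120, 120, 132, 54, 234, 252]) 409796773298 = true := by
  decide +kernel

/-- data -/
noncomputable def tr100 : Ct := (.dc 2 15 1 (.ct 0 5 1 1 1 (.dc 0 1 0 (.ct 2 3 1 1 1 (.dc 2 7 0
  (.lf 2 8 256)) (.dc 2 7 1 (.lf 2 7 256)))) (.ct 0 6 1 1 1 (.dc 0 1 0 (.ct 2 3 1 1 1 (.dc 2 7 0
  (.lf 2 10 224)) (.dc 2 7 1 (.lf 2 9 224)))) (.ct 0 2 1 1 1 (.dc 0 1 0 (.ct 0 3 1 1 1 (.ct 2 3 1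
  1 1 (.dc 2 7 0 (.lf 2 9 224)) (.dc 2 7 1 (.lf 2 7 224))) (.dc 2 7 1 (.lf 2 7 240)))) (.dc 0 1 1
  (.ct 2 3 1 1 1 (.dc 2 7 0 (.lf 2 13 208)) (.dc 2 7 1 (.lf 2 13 240))))))))

theorem dt100 : le (run cls4 4 tr100 [[1, 0, 0, 0, 1, 0, 0], [2, 2, 1, 1, 4, 1, 1], [2, 2, 2,
  1, 3, 1, 1], [1, 1, 1, 1, 3, 1, 0], [4, 4, 3, 2, 9, 2, 2], [2, 2, 2, 1, 4, 2, 1], [3, 3, 3, 2,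
  7, 2, 2]] 140187732541437 [120, 120, 120, 132, 54, 234, 252]) 990301072031 = true := by
  decide +kernel

/-- data -/
noncomputable def tr101 : Ct := (.dc 0 1 1 (.dc 0 2 1 (.ct 2 5 1 1 1 (.dc 2 7 0 (.ct 1 5 1 1 1
  (.ct 2 5 1 1 1 (.ct 5 6 2 1 1 (.dc 2 15 1 (.lf 2 11 224)) (.dc 2 15 0 (.lf 2 9 192))) (.dc 2 15
  1 (.lf 2 11 240))) (.dc 2 15 1 (.lf 2 11 208)))) (.dc 2 15 1 (.ct 2 3 1 1 1 (.dc 2 7 0 (.lf 2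
  11 192)) (.dc 2 7 1 (.lf 2 11 192)))))))

theorem dt101 : le (run cls4 4 tr101 [[1, 0, 0, 0, 1, 0, 0], [2, 2, 1, 1, 4, 1, 1], [3, 3, 2,
  1, 5, 1, 1], [1, 1, 1, 1, 3, 1, 0], [1, 1, 0, 0, 2, 0, 0], [0, 0, 0, 0, 1, 1, 0], [4, 4, 3, 2,
  9, 2, 2]] 140187732541433 [120, 120, 120, 132, 54, 234, 252]) 17625824886 = true := by
  decide +kernel

end Pool.Agent.Work.MP_122e00_nt.Sharp.Cx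

end

section

set_option autoImplicit false

set_option maxRecDepth 100000

/-!
# The certificate: data
-/

namespace Pool.Agent.Work.MP_122e00_nt.Sharp.Cx

/-- data -/
noncomputable def tr102 : Ct := (.ct 2 5 1 1 1 (.dc 2 7 0 (.ct 1 5 1 1 1 (.ct 4 5 1 1 1 (.ct 5
  6 2 1 1 (.dc 2 15 1 (.ct 0 2 1 1 1 (.dc 0 1 0 (.lf 2 9 224)) (.dc 0 1 1 (.lf 2 13 224)))) (.ct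
  0 2 1 1 1 (.dc 0 1 0 (.ct 0 5 1 1 1 (.ct 2 5 1 1 1 (.dc 2 15 0 (.lf 2 6 208)) (.dc 2 15 1 (.lf
  2 9 208))) (.dc 2 15 1 (.lf 2 10 208)))) (.dc 0 1 1 (.ct 2 5 1 1 1 (.dc 2 15 0 (.lf 2 10 192))
  (.dc 2 15 1 (.lf 2 13 208)))))) (.dc 2 15 1 (.ct 0 2 1 1 1 (.dc 0 1 0 (.lf 2 9 240)) (.dc 0 1 1
  (.lf 2 13 240))))) (.dc 2 15 1 (.ct 0 2 1 1 1 (.dc 0 1 0 (.lf 2 8 224)) (.dc 0 1 1 (.lf 2 13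
  224)))))) (.dc 2 15 1 (.ct 0 5 1 1 1 (.dc 0 1 0 (.ct 2 3 1 1 1 (.dc 2 7 0 (.lf 2 8 240)) (.dc 2
  7 1 (.lf 2 6 240)))) (.ct 0 2 1 1 1 (.dc 0 1 0 (.ct 0 3 1 1 1 (.ct 2 3 1 1 1 (.dc 2 7 0 (.lf 2
  9 240)) (.dc 2 7 1 (.lf 2 7 240))) (.dc 2 7 1 (.lf 2 7 256)))) (.dc 0 1 1 (.ct 2 3 1 1 1 (.dc 2
  7 0 (.lf 2 13 224)) (.dc 2 7 1 (.lf 2 13 256))))))))

theorem dt102 : le (run cls4 4 tr102 [[1, 0, 0, 0, 1, 0, 0], [2, 2, 1, 1, 4, 1, 1], [2, 2, 2,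
  1, 3, 1, 1], [1, 1, 1, 1, 3, 1, 0], [3, 3, 2, 1, 6, 2, 1], [0, 0, 0, 0, 1, 1, 0], [4, 4, 3, 2,
  9, 2, 2]] 140187732541437 [120, 120, 120, 132, 54, 234, 252]) 347958564196 = true := by
  decide +kernel

/-- data -/
noncomputable def tr103 : Ct := (.dc 2 15 1 (.ct 3 4 1 1 1 (.dc 2 7 1 (.ct 0 2 1 1 1 (.dc 0 1 0
  (.lf 2 7 224)) (.dc 0 1 1 (.lf 2 13 224)))) (.ct 0 2 1 1 1 (.dc 0 1 0 (.ct 0 3 1 1 1 (.ct 2 3 1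
  1 1 (.dc 2 7 0 (.lf 2 10 240)) (.dc 2 7 1 (.lf 2 7 240))) (.dc 2 7 1 (.lf 2 7 240)))) (.dc 0 1
  1 (.ct 2 3 1 1 1 (.dc 2 7 0 (.lf 2 13 224)) (.dc 2 7 1 (.lf 2 13 240)))))))

theorem dt103 : le (run cls4 4 tr103 [[1, 0, 0, 0, 1, 0, 0], [2, 2, 1, 1, 4, 1, 1], [2, 2, 2,
  1, 3, 1, 1], [1, 1, 1, 1, 3, 1, 0], [3, 3, 2, 1, 5, 1, 1], [3, 3, 2, 1, 6, 2, 1], [4, 4, 3, 2,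
  9, 2, 2]] 140187732541437 [120, 120, 120, 132, 54, 234, 252]) 610085229067 = true := by
  decide +kernel

end Pool.Agent.Work.MP_122e00_nt.Sharp.Cx

end

section

set_option autoImplicit false

set_option maxRecDepth 100000

/-!
# The certificate: data
-/

namespace Pool.Agent.Work.MP_122e00_nt.Sharp.Cx

/-- data -/
noncomputable def tr104 : Ct := (.dc 2 15 1 (.ct 2 4 1 1 1 (.dc 0 1 1 (.dc 0 2 1 (.ct 2 6 1 1 1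
  (.dc 1 7 0 (.dc 2 7 0 (.lf 1 11 192))) (.dc 1 7 1 (.ct 2 5 1 1 1 (.dc 2 7 0 (.lf 1 11 176))
  (.dc 2 7 1 (.lf 1 11 176))))))) (.dc 0 2 0 (.ct 4 6 1 1 1 (.ct 2 6 1 1 1 (.dc 1 7 0 (.dc 2 7 0
  (.ct 0 2 1 1 1 (.dc 0 1 0 (.lf 1 11 224)) (.dc 0 1 1 (.lf 1 12 192))))) (.dc 1 7 1 (.ct 0 6 1 1
  1 (.dc 0 1 0 (.ct 2 5 1 1 1 (.dc 2 7 0 (.lf 1 11 224)) (.dc 2 7 1 (.lf 1 11 224)))) (.ct 0 2 1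
  1 1 (.dc 0 1 0 (.ct 0 5 1 1 1 (.ct 2 5 1 1 1 (.dc 2 7 0 (.lf 1 11 224)) (.dc 2 7 1 (.lf 1 11
  224))) (.dc 2 7 1 (.lf 1 11 224)))) (.dc 0 1 1 (.ct 2 5 1 1 1 (.dc 2 7 0 (.lf 1 12 192)) (.dc 2
  7 1 (.lf 1 12 224)))))))) (.dc 1 7 1 (.ct 4 5 1 1 1 (.ct 0 2 1 1 1 (.dc 0 1 0 (.ct 0 5 1 1 1
  (.ct 2 5 1 1 1 (.dc 2 7 0 (.lf 1 11 224)) (.dc 2 7 1 (.lf 1 10 224))) (.dc 2 7 1 (.lf 1 10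
  224)))) (.dc 0 1 1 (.ct 2 5 1 1 1 (.dc 2 7 0 (.lf 1 12 192)) (.dc 2 7 1 (.lf 1 12 224))))) (.dc
  2 7 1 (.ct 0 2 1 1 1 (.dc 0 1 0 (.lf 1 10 208)) (.dc 0 1 1 (.lf 1 12 208))))))))))

theorem dt104 : le (run cls4 4 tr104 [[1, 0, 0, 0, 1, 0, 0], [2, 2, 1, 1, 4, 1, 1], [2, 2, 2,
  1, 3, 1, 1], [1, 1, 1, 1, 2, 0, 0], [1, 1, 0, 0, 2, 0, 0], [1, 1, 1, 1, 3, 1, 0], [1, 1, 1, 1,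
  4, 1, 1]] 140187724152825 [118, 118, 118, 118, 40, 232, 238]) 316710513719 = true := by
  decide +kernel

/-- data -/
noncomputable def tr105 : Ct := (.dc 0 1 1 (.dc 0 2 1 (.ct 2 6 1 1 1 (.dc 1 7 0 (.dc 2 7 0 (.ct
  1 6 1 1 1 (.dc 0 12 1 (.ct 2 5 1 2 1 (.ct 3 5 1 1 1 (.dc 2 15 0 (.lf 3 9 192)) (.dc 2 15 1 (.lf
  3 11 192))) (.dc 2 15 1 (.lf 3 11 208)))) (.ct 3 5 1 1 1 (.ct 1 2 1 1 1 (.dc 0 12 1 (.ct 1 5 1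
  2 1 (.ct 2 5 1 2 1 (.dc 2 15 0 (.lf 3 9 208)) (.dc 2 15 1 (.lf 3 11 240))) (.dc 2 15 1 (.lf 3
  11 224)))) (.dc 0 12 0 (.ct 2 5 1 2 1 (.dc 2 15 0 (.lf 3 9 192)) (.dc 2 15 1 (.lf 3 10 192)))))
  (.dc 2 15 1 (.ct 1 2 1 1 1 (.dc 0 12 1 (.lf 3 11 208)) (.dc 0 12 0 (.lf 3 10 176)))))))) (.dc 1
  7 1 (.ct 2 5 1 1 1 (.dc 2 7 0 (.ct 2 5 1 1 1 (.ct 3 5 1 1 1 (.ct 1 6 1 1 1 (.dc 0 12 1 (.ct 1 5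
  1 2 1 (.ct 5 6 2 1 1 (.dc 2 15 1 (.lf 3 11 224)) (.dc 2 15 0 (.lf 3 9 192))) (.dc 2 15 1 (.lf 3
  11 256)))) (.dc 0 12 0 (.ct 5 6 2 1 1 (.dc 2 15 1 (.lf 3 10 224)) (.dc 2 15 0 (.lf 3 9 192)))))
  (.dc 2 15 1 (.ct 1 6 1 1 1 (.dc 0 12 1 (.lf 3 11 240)) (.dc 0 12 0 (.lf 3 10 208))))) (.dc 2 15
  1 (.ct 1 6 1 1 1 (.dc 0 12 1 (.lf 3 11 224)) (.dc 0 12 0 (.lf 3 10 192)))))) (.dc 2 7 1 (.dc 2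
  15 1 (.ct 1 6 1 1 1 (.dc 0 12 1 (.lf 3 11 208)) (.dc 0 12 0 (.lf 3 10 176))))))))))

theorem dt105 : le (run cls4 4 tr105 [[1, 0, 0, 0, 1, 0, 0], [1, 1, 0, 0, 2, 1, 1], [3, 3, 2,
  1, 5, 1, 1], [2, 2, 1, 1, 4, 1, 1], [1, 1, 0, 0, 2, 0, 0], [0, 0, 0, 0, 1, 1, 0], [1, 1, 1, 1,
  4, 1, 1]] 140187724148729 [90, 90, 114, 114, 36, 204, 210]) 31455479019 = true := by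
  decide +kernel

end Pool.Agent.Work.MP_122e00_nt.Sharp.Cx

end
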