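import Pool.Agent.Work.MP_122e00_nt.Bd.B03

/-! Bundle of small proof modules (one section per former module). -/

section

set_option autoImplicit false

set_option maxRecDepth 100000

/-!
# The certificate: data
-/

namespace Pool.Agent.Work.MP_122e00_nt.Sharp.Cx

/-- data -/
noncomputable def tr106 : Ct := (.ct 4 6 1 1 1 (.ct 1 4 1 1 1 (.dc 0 12 1 (.ct 0 2 1 1 1 (.dc 0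
  1 0 (.ct 0 6 1 1 1 (.ct 0 5 1 1 1 (.ct 2 6 1 1 1 (.dc 1 7 0 (.ct 2 5 1 1 1 (.dc 2 15 0 (.lf 3 4
  224)) (.dc 2 15 1 (.lf 3 9 224)))) (.dc 1 7 1 (.ct 2 5 1 1 1 (.ct 5 6 1 1 1 (.dc 2 15 1 (.lf 3
  6 240)) (.dc 2 15 0 (.lf 3 4 240))) (.dc 2 15 1 (.lf 3 7 208))))) (.dc 2 15 1 (.ct 2 6 1 1 1
  (.dc 1 7 0 (.lf 3 10 224)) (.dc 1 7 1 (.lf 3 7 224))))) (.dc 1 7 1 (.ct 0 5 1 1 1 (.ct 2 5 1 1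
  1 (.ct 5 6 1 1 1 (.dc 2 15 1 (.lf 3 6 240)) (.dc 2 15 0 (.lf 3 4 208))) (.dc 2 15 1 (.lf 3 7
  240))) (.dc 2 15 1 (.lf 3 7 240)))))) (.dc 0 1 1 (.ct 2 6 1 1 1 (.dc 1 7 0 (.ct 2 5 1 1 1 (.dc
  2 15 0 (.lf 3 10 192)) (.dc 2 15 1 (.lf 3 13 224)))) (.dc 1 7 1 (.ct 2 5 1 1 1 (.ct 5 6 1 1 1
  (.dc 2 15 1 (.lf 3 13 224)) (.dc 2 15 0 (.lf 3 11 192))) (.dc 2 15 1 (.lf 3 13 240)))))))) (.ct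
  1 6 1 1 1 (.dc 0 12 1 (.ct 1 2 1 1 1 (.ct 0 1 1 1 1 (.dc 0 1 0 (.ct 0 5 1 1 1 (.ct 1 5 1 1 1
  (.ct 2 6 1 1 1 (.dc 1 7 0 (.ct 2 5 1 1 1 (.dc 2 15 0 (.lf 3 5 288)) (.dc 2 15 1 (.lf 3 9
  288)))) (.dc 1 7 1 (.ct 2 5 1 1 1 (.ct 5 6 1 1 1 (.dc 2 15 1 (.lf 3 7 272)) (.dc 2 15 0 (.lf 3
  4 272))) (.dc 2 15 1 (.lf 3 7 224))))) (.dc 2 15 1 (.ct 2 6 1 1 1 (.dc 1 7 0 (.lf 3 9 256))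
  (.dc 1 7 1 (.lf 3 8 256))))) (.dc 2 15 1 (.ct 2 6 1 1 1 (.dc 1 7 0 (.lf 3 10 256)) (.dc 1 7 1
  (.lf 3 8 256)))))) (.ct 1 5 1 1 1 (.ct 0 2 1 1 1 (.dc 0 1 0 (.ct 0 6 1 1 1 (.ct 0 5 1 1 1 (.ct
  2 6 1 1 1 (.dc 1 7 0 (.ct 2 5 1 1 1 (.dc 2 15 0 (.lf 3 4 256)) (.dc 2 15 1 (.lf 3 10 272))))
  (.dc 1 7 1 (.ct 2 5 1 1 1 (.ct 5 6 1 1 1 (.dc 2 15 1 (.lf 3 5 256)) (.dc 2 15 0 (.lf 3 3 256)))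
  (.dc 2 15 1 (.lf 3 6 224))))) (.dc 2 15 1 (.ct 2 6 1 1 1 (.dc 1 7 0 (.lf 3 9 272)) (.dc 1 7 1
  (.lf 3 7 240))))) (.dc 1 7 1 (.ct 0 5 1 1 1 (.ct 2 5 1 1 1 (.ct 5 6 1 1 1 (.dc 2 15 1 (.lf 3 6
  256)) (.dc 2 15 0 (.lf 3 3 224))) (.dc 2 15 1 (.lf 3 7 256))) (.dc 2 15 1 (.lf 3 7 256))))))
  (.dc 0 1 1 (.ct 2 6 1 1 1 (.dc 1 7 0 (.ct 2 5 1 1 1 (.dc 2 15 0 (.lf 3 11 224)) (.dc 2 15 1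
  (.lf 3 13 256)))) (.dc 1 7 1 (.ct 2 5 1 1 1 (.ct 5 6 1 1 1 (.dc 2 15 1 (.lf 3 13 240)) (.dc 2
  15 0 (.lf 3 11 208))) (.dc 2 15 1 (.lf 3 13 256))))))) (.dc 2 15 1 (.ct 0 2 1 1 1 (.dc 0 1 0
  (.ct 0 6 1 1 1 (.ct 2 6 1 1 1 (.dc 1 7 0 (.lf 3 9 288)) (.dc 1 7 1 (.lf 3 8 256))) (.dc 1 7 1
  (.lf 3 7 256)))) (.dc 0 1 1 (.ct 2 6 1 1 1 (.dc 1 7 0 (.lf 3 13 288)) (.dc 1 7 1 (.lf 3 13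
  272)))))))) (.dc 1 7 0 (.ct 0 2 1 1 1 (.dc 0 1 0 (.ct 0 5 1 1 1 (.ct 2 5 1 1 1 (.dc 2 15 0 (.lf
  3 5 256)) (.dc 2 15 1 (.lf 3 10 256))) (.dc 2 15 1 (.lf 3 10 256)))) (.dc 0 1 1 (.ct 2 5 1 1 1
  (.dc 2 15 0 (.lf 3 11 240)) (.dc 2 15 1 (.lf 3 13 256)))))))) (.dc 0 12 0 (.ct 0 2 1 1 1 (.dc 0
  1 0 (.ct 0 6 1 1 1 (.ct 0 5 1 1 1 (.ct 2 6 1 1 1 (.dc 1 7 0 (.ct 2 5 1 1 1 (.dc 2 15 0 (.lf 3 4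
  224)) (.dc 2 15 1 (.lf 3 5 256)))) (.dc 1 7 1 (.ct 2 5 1 1 1 (.ct 5 6 1 1 1 (.dc 2 15 1 (.lf 3
  6 256)) (.dc 2 15 0 (.lf 3 4 224))) (.dc 2 15 1 (.lf 3 5 240))))) (.dc 2 15 1 (.ct 2 6 1 1 1
  (.dc 1 7 0 (.lf 3 4 256)) (.dc 1 7 1 (.lf 3 5 256))))) (.dc 1 7 1 (.ct 0 5 1 1 1 (.ct 2 5 1 1 1
  (.ct 5 6 1 1 1 (.dc 2 15 1 (.lf 3 5 224)) (.dc 2 15 0 (.lf 3 4 224))) (.dc 2 15 1 (.lf 3 5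
  192))) (.dc 2 15 1 (.lf 3 4 192)))))) (.dc 0 1 1 (.ct 2 6 1 1 1 (.dc 1 7 0 (.ct 2 5 1 1 1 (.dc
  2 15 0 (.lf 3 11 224)) (.dc 2 15 1 (.lf 3 12 224)))) (.dc 1 7 1 (.ct 2 5 1 1 1 (.ct 5 6 1 1 1
  (.dc 2 15 1 (.lf 3 12 224)) (.dc 2 15 0 (.lf 3 11 208))) (.dc 2 15 1 (.lf 3 12 192))))))))))
  (.dc 1 7 1 (.ct 1 6 1 1 1 (.dc 0 12 1 (.ct 0 2 1 1 1 (.dc 0 1 0 (.ct 0 5 1 1 1 (.ct 2 5 1 1 1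
  (.dc 2 15 0 (.lf 3 4 208)) (.dc 2 15 1 (.lf 3 7 208))) (.dc 2 15 1 (.lf 3 7 208)))) (.dc 0 1 1
  (.ct 2 5 1 1 1 (.dc 2 15 0 (.lf 3 11 192)) (.dc 2 15 1 (.lf 3 13 208)))))) (.dc 0 12 0 (.ct 0 2
  1 1 1 (.dc 0 1 0 (.ct 0 5 1 1 1 (.ct 2 5 1 1 1 (.dc 2 15 0 (.lf 3 4 208)) (.dc 2 15 1 (.lf 3 6
  208))) (.dc 2 15 1 (.lf 3 5 208)))) (.dc 0 1 1 (.ct 2 5 1 1 1 (.dc 2 15 0 (.lf 3 11 192)) (.dc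
  2 15 1 (.lf 3 12 208)))))))))

theorem dt106 : le (run cls4 4 tr106 [[1, 0, 0, 0, 1, 0, 0], [1, 1, 0, 0, 2, 1, 1], [2, 2, 2,
  1, 4, 2, 1], [2, 2, 1, 1, 5, 2, 1], [3, 3, 2, 1, 7, 3, 1], [0, 0, 0, 0, 1, 1, 0], [1, 1, 1, 1,
  4, 1, 1]] 140737479962621 [90, 90, 114, 114, 36, 204, 210]) 185012783274 = true := by
  decide +kernel

/-- data -/
noncomputable def tr107 : Ct := (.dc 2 15 1 (.ct 4 6 1 1 1 (.ct 1 4 1 1 1 (.dc 0 12 1 (.ct 5 6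
  1 1 1 (.ct 0 2 1 1 1 (.dc 0 1 0 (.ct 0 6 1 1 1 (.ct 2 6 1 1 1 (.dc 1 7 0 (.lf 3 8 256)) (.dc 1
  7 1 (.lf 3 7 256))) (.dc 1 7 1 (.lf 3 7 256)))) (.dc 0 1 1 (.ct 2 6 1 1 1 (.dc 1 7 0 (.lf 3 13
  240)) (.dc 1 7 1 (.lf 3 13 256))))) (.dc 1 7 1 (.ct 0 2 1 1 1 (.dc 0 1 0 (.lf 3 7 224)) (.dc 0
  1 1 (.lf 3 13 224)))))) (.ct 0 2 1 1 1 (.dc 0 1 0 (.ct 0 6 1 1 1 (.ct 0 1 1 1 1 (.ct 2 6 1 1 1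
  (.ct 1 2 1 1 1 (.dc 0 12 1 (.ct 5 6 1 1 1 (.dc 1 7 0 (.lf 3 8 240)) (.dc 1 7 1 (.lf 3 7 240))))
  (.ct 1 6 1 1 1 (.dc 0 12 1 (.ct 1 5 1 1 1 (.ct 5 6 1 1 1 (.dc 1 7 0 (.lf 3 8 256)) (.dc 1 7 1
  (.lf 3 7 256))) (.dc 1 7 0 (.lf 3 9 256)))) (.dc 0 12 0 (.ct 5 6 1 1 1 (.dc 1 7 0 (.lf 3 4
  256)) (.dc 1 7 1 (.lf 3 4 256)))))) (.dc 1 7 1 (.ct 1 6 1 1 1 (.dc 0 12 1 (.lf 3 8 240)) (.dc 0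
  12 0 (.lf 3 5 240))))) (.dc 0 12 1 (.ct 2 6 1 1 1 (.ct 5 6 1 1 1 (.dc 1 7 0 (.lf 3 9 272)) (.dc
  1 7 1 (.lf 3 8 272))) (.dc 1 7 1 (.lf 3 6 272))))) (.dc 1 7 1 (.ct 1 6 1 1 1 (.dc 0 12 1 (.lf 3
  5 256)) (.dc 0 12 0 (.lf 3 4 240)))))) (.dc 0 1 1 (.ct 2 6 1 1 1 (.ct 1 2 1 1 1 (.dc 0 12 1
  (.ct 5 6 1 1 1 (.dc 1 7 0 (.lf 3 13 272)) (.dc 1 7 1 (.lf 3 13 272)))) (.ct 1 6 1 1 1 (.dc 0 12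
  1 (.ct 1 5 1 1 1 (.ct 5 6 1 1 1 (.dc 1 7 0 (.lf 3 13 256)) (.dc 1 7 1 (.lf 3 13 256))) (.dc 1 7
  0 (.lf 3 13 256)))) (.dc 0 12 0 (.ct 5 6 1 1 1 (.dc 1 7 0 (.lf 3 12 224)) (.dc 1 7 1 (.lf 3 12
  256)))))) (.dc 1 7 1 (.ct 1 6 1 1 1 (.dc 0 12 1 (.lf 3 13 256)) (.dc 0 12 0 (.lf 3 12
  240)))))))) (.dc 1 7 1 (.ct 0 2 1 1 1 (.dc 0 1 0 (.ct 1 6 1 1 1 (.dc 0 12 1 (.lf 3 7 240)) (.dc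
  0 12 0 (.lf 3 5 240)))) (.dc 0 1 1 (.ct 1 6 1 1 1 (.dc 0 12 1 (.lf 3 13 240)) (.dc 0 12 0 (.lf
  3 11 240))))))))

theorem dt107 : le (run cls4 4 tr107 [[1, 0, 0, 0, 1, 0, 0], [1, 1, 0, 0, 2, 1, 1], [2, 2, 2,
  1, 4, 2, 1], [2, 2, 1, 1, 5, 2, 1], [3, 3, 2, 1, 6, 2, 1], [3, 3, 2, 1, 7, 3, 1], [1, 1, 1, 1,
  4, 1, 1]] 140737479962621 [90, 90, 114, 114, 36, 204, 210]) 356725868370 = true := by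
  decide +kernel

end Pool.Agent.Work.MP_122e00_nt.Sharp.Cx

end

section

set_option autoImplicit false

set_option maxRecDepth 100000

/-!
# The certificate: data
-/

namespace Pool.Agent.Work.MP_122e00_nt.Sharp.Cx

/-- data -/
noncomputable def tr108 : Ct := (.dc 2 15 1 (.ct 0 2 1 1 1 (.dc 0 1 0 (.ct 0 6 1 1 1 (.ct 0 1 1
  1 1 (.ct 2 6 1 1 1 (.ct 1 2 1 1 1 (.dc 0 12 1 (.ct 4 6 1 1 1 (.dc 1 7 0 (.lf 3 7 208)) (.dc 1 7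
  1 (.lf 3 7 208)))) (.ct 1 6 1 1 1 (.dc 0 12 1 (.ct 1 4 1 1 1 (.ct 4 6 1 1 1 (.dc 1 7 0 (.lf 3 6
  240)) (.dc 1 7 1 (.lf 3 7 256))) (.dc 1 7 0 (.lf 3 8 240)))) (.dc 0 12 0 (.ct 4 6 1 1 1 (.dc 1
  7 0 (.lf 3 6 240)) (.dc 1 7 1 (.lf 3 5 256)))))) (.dc 1 7 1 (.ct 1 6 1 1 1 (.dc 0 12 1 (.lf 3 9
  208)) (.dc 0 12 0 (.lf 3 6 208))))) (.dc 0 12 1 (.ct 2 6 1 1 1 (.ct 4 6 1 1 1 (.dc 1 7 0 (.lf 3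
  8 240)) (.dc 1 7 1 (.lf 3 8 224))) (.dc 1 7 1 (.lf 3 7 224))))) (.dc 1 7 1 (.ct 1 6 1 1 1 (.dc
  0 12 1 (.lf 3 7 224)) (.dc 0 12 0 (.lf 3 5 192)))))) (.dc 0 1 1 (.ct 2 6 1 1 1 (.ct 1 2 1 1 1
  (.dc 0 12 1 (.ct 4 6 1 1 1 (.dc 1 7 0 (.lf 3 13 240)) (.dc 1 7 1 (.lf 3 13 224)))) (.ct 1 6 1 1
  1 (.dc 0 12 1 (.ct 1 4 1 1 1 (.ct 4 6 1 1 1 (.dc 1 7 0 (.lf 3 13 240)) (.dc 1 7 1 (.lf 3 13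
  224))) (.dc 1 7 0 (.lf 3 13 240)))) (.dc 0 12 0 (.ct 4 6 1 1 1 (.dc 1 7 0 (.lf 3 12 224)) (.dc
  1 7 1 (.lf 3 12 224)))))) (.dc 1 7 1 (.ct 1 6 1 1 1 (.dc 0 12 1 (.lf 3 13 224)) (.dc 0 12 0
  (.lf 3 12 192))))))))

theorem dt108 : le (run cls4 4 tr108 [[1, 0, 0, 0, 1, 0, 0], [1, 1, 0, 0, 2, 1, 1], [2, 2, 2,
  1, 4, 2, 1], [2, 2, 1, 1, 4, 1, 1], [3, 3, 2, 1, 6, 2, 1], [2, 2, 1, 1, 5, 2, 1], [1, 1, 1, 1,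
  4, 1, 1]] 140737479962621 [90, 90, 114, 114, 36, 204, 210]) 505778002973 = true := by
  decide +kernel

/-- data -/
noncomputable def tr109 : Ct := (.dc 2 15 1 (.ct 2 6 1 1 1 (.dc 2 7 0 (.ct 0 2 1 1 1 (.dc 0 1 0
  (.ct 0 1 1 1 1 (.ct 1 2 1 1 1 (.dc 0 12 1 (.ct 4 6 1 1 1 (.ct 5 6 1 1 1 (.dc 1 7 0 (.lf 3 7
  208)) (.dc 1 7 1 (.lf 3 8 208))) (.dc 1 7 1 (.lf 3 7 224)))) (.ct 4 6 1 1 1 (.ct 1 4 1 1 1 (.dc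
  0 12 1 (.ct 5 6 1 1 1 (.dc 1 7 0 (.lf 3 7 224)) (.dc 1 7 1 (.lf 3 8 224)))) (.ct 1 6 1 1 1 (.dc
  0 12 1 (.ct 1 5 1 1 1 (.ct 5 6 1 1 1 (.dc 1 7 0 (.lf 3 8 224)) (.dc 1 7 1 (.lf 3 9 224))) (.dc
  1 7 0 (.lf 3 8 224)))) (.dc 0 12 0 (.ct 5 6 1 1 1 (.dc 1 7 0 (.lf 3 6 224)) (.dc 1 7 1 (.lf 3 6
  208)))))) (.dc 1 7 1 (.ct 1 6 1 1 1 (.dc 0 12 1 (.lf 3 7 224)) (.dc 0 12 0 (.lf 3 5 224))))))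
  (.dc 0 12 1 (.ct 4 6 1 1 1 (.ct 5 6 1 1 1 (.dc 1 7 0 (.lf 3 7 208)) (.dc 1 7 1 (.lf 3 6 208)))
  (.dc 1 7 1 (.lf 3 5 224)))))) (.ct 1 2 1 1 1 (.dc 0 12 1 (.ct 4 6 1 1 1 (.ct 0 5 1 1 1 (.dc 0 1
  0 (.ct 0 6 1 1 1 (.ct 5 6 1 1 1 (.dc 1 7 0 (.lf 3 6 208)) (.dc 1 7 1 (.lf 3 6 208))) (.dc 1 7 1
  (.lf 3 5 224)))) (.dc 0 1 1 (.ct 5 6 1 1 1 (.dc 1 7 0 (.lf 3 13 224)) (.dc 1 7 1 (.lf 3 13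
  224))))) (.dc 1 7 1 (.ct 0 5 1 1 1 (.dc 0 1 0 (.lf 3 5 208)) (.dc 0 1 1 (.lf 3 13 208))))))
  (.ct 0 5 1 1 1 (.dc 0 1 0 (.ct 0 6 1 1 1 (.ct 0 1 1 1 1 (.ct 4 6 1 1 1 (.ct 1 4 1 1 1 (.dc 0 12
  1 (.ct 5 6 1 1 1 (.dc 1 7 0 (.lf 3 8 240)) (.dc 1 7 1 (.lf 3 7 240)))) (.ct 1 6 1 1 1 (.dc 0 12
  1 (.ct 1 5 1 1 1 (.ct 5 6 1 1 1 (.dc 1 7 0 (.lf 3 8 208)) (.dc 1 7 1 (.lf 3 9 240))) (.dc 1 7 0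
  (.lf 3 8 208)))) (.dc 0 12 0 (.ct 5 6 1 1 1 (.dc 1 7 0 (.lf 3 6 208)) (.dc 1 7 1 (.lf 3 6
  240)))))) (.dc 1 7 1 (.ct 1 6 1 1 1 (.dc 0 12 1 (.lf 3 6 256)) (.dc 0 12 0 (.lf 3 5 256)))))
  (.dc 0 12 1 (.ct 4 6 1 1 1 (.ct 5 6 1 1 1 (.dc 1 7 0 (.lf 3 8 240)) (.dc 1 7 1 (.lf 3 7 240)))
  (.dc 1 7 1 (.lf 3 6 256))))) (.dc 1 7 1 (.ct 1 6 1 1 1 (.dc 0 12 1 (.lf 3 7 256)) (.dc 0 12 0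
  (.lf 3 5 208)))))) (.dc 0 1 1 (.ct 4 6 1 1 1 (.ct 1 4 1 1 1 (.dc 0 12 1 (.ct 5 6 1 1 1 (.dc 1 7
  0 (.lf 3 13 240)) (.dc 1 7 1 (.lf 3 13 256)))) (.ct 1 6 1 1 1 (.dc 0 12 1 (.ct 1 5 1 1 1 (.ct 5
  6 1 1 1 (.dc 1 7 0 (.lf 3 13 240)) (.dc 1 7 1 (.lf 3 13 240))) (.dc 1 7 0 (.lf 3 13 208))))
  (.dc 0 12 0 (.ct 5 6 1 1 1 (.dc 1 7 0 (.lf 3 12 208)) (.dc 1 7 1 (.lf 3 12 208)))))) (.dc 1 7 1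
  (.ct 1 6 1 1 1 (.dc 0 12 1 (.lf 3 13 240)) (.dc 0 12 0 (.lf 3 11 224)))))))))) (.dc 1 7 1 (.dc
  2 7 1 (.ct 0 2 1 1 1 (.dc 0 1 0 (.ct 1 6 1 1 1 (.dc 0 12 1 (.lf 3 7 192)) (.dc 0 12 0 (.lf 3 5
  160)))) (.ct 0 5 1 1 1 (.dc 0 1 0 (.ct 1 6 1 1 1 (.dc 0 12 1 (.lf 3 7 224)) (.dc 0 12 0 (.lf 3
  5 192)))) (.ct 0 6 1 1 1 (.dc 0 1 0 (.ct 0 1 1 1 1 (.ct 1 6 1 1 1 (.dc 0 12 1 (.lf 3 7 240))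
  (.dc 0 12 0 (.lf 3 4 208))) (.dc 0 12 1 (.lf 3 7 240)))) (.dc 0 1 1 (.ct 1 6 1 1 1 (.dc 0 12 1
  (.lf 3 13 208)) (.dc 0 12 0 (.lf 3 11 208)))))))))))

theorem dt109 : le (run cls4 4 tr109 [[1, 0, 0, 0, 1, 0, 0], [1, 1, 0, 0, 2, 1, 1], [2, 2, 2,
  1, 3, 1, 1], [2, 2, 1, 1, 4, 1, 1], [3, 3, 2, 1, 6, 2, 1], [2, 2, 2, 1, 4, 2, 1], [1, 1, 1, 1,
  4, 1, 1]] 140187724148733 [90, 90, 114, 114, 36, 204, 210]) 655539513970 = true := by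
  decide +kernel

/-- data -/
noncomputable def tr110 : Ct := (.dc 2 15 1 (.ct 4 6 1 1 1 (.ct 2 6 1 1 1 (.dc 2 7 0 (.ct 1 4 1
  1 1 (.dc 0 12 1 (.ct 0 2 1 1 1 (.dc 0 1 0 (.ct 5 6 1 1 1 (.dc 1 7 0 (.lf 3 8 272)) (.dc 1 7 1
  (.lf 3 8 256)))) (.dc 0 1 1 (.ct 5 6 1 1 1 (.dc 1 7 0 (.lf 3 13 240)) (.dc 1 7 1 (.lf 3 13
  224)))))) (.ct 0 2 1 1 1 (.dc 0 1 0 (.ct 0 1 1 1 1 (.ct 1 2 1 1 1 (.dc 0 12 1 (.ct 5 6 1 1 1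
  (.dc 1 7 0 (.lf 3 6 224)) (.dc 1 7 1 (.lf 3 6 240)))) (.ct 1 6 1 1 1 (.dc 0 12 1 (.ct 1 5 1 1 1
  (.ct 5 6 1 1 1 (.dc 1 7 0 (.lf 3 6 240)) (.dc 1 7 1 (.lf 3 6 256))) (.dc 1 7 0 (.lf 3 8 240))))
  (.dc 0 12 0 (.ct 5 6 1 1 1 (.dc 1 7 0 (.lf 3 5 240)) (.dc 1 7 1 (.lf 3 5 256)))))) (.dc 0 12 1
  (.ct 5 6 1 1 1 (.dc 1 7 0 (.lf 3 6 224)) (.dc 1 7 1 (.lf 3 6 240)))))) (.dc 0 1 1 (.ct 1 2 1 1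
  1 (.dc 0 12 1 (.ct 5 6 1 1 1 (.dc 1 7 0 (.lf 3 13 208)) (.dc 1 7 1 (.lf 3 13 208)))) (.ct 1 6 1
  1 1 (.dc 0 12 1 (.ct 1 5 1 1 1 (.ct 5 6 1 1 1 (.dc 1 7 0 (.lf 3 13 240)) (.dc 1 7 1 (.lf 3 13
  256))) (.dc 1 7 0 (.lf 3 13 208)))) (.dc 0 12 0 (.ct 5 6 1 1 1 (.dc 1 7 0 (.lf 3 12 208)) (.dc
  1 7 1 (.lf 3 11 224)))))))))) (.dc 1 7 1 (.dc 2 7 1 (.ct 0 2 1 1 1 (.dc 0 1 0 (.ct 1 4 1 1 1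
  (.dc 0 12 1 (.lf 3 8 256)) (.ct 1 6 1 1 1 (.dc 0 12 1 (.lf 3 7 224)) (.dc 0 12 0 (.lf 3 4
  192))))) (.ct 1 4 1 1 1 (.dc 0 12 1 (.ct 0 6 1 1 1 (.dc 0 1 0 (.lf 3 8 256)) (.dc 0 1 1 (.lf 3
  13 224)))) (.ct 0 6 1 1 1 (.dc 0 1 0 (.ct 0 1 1 1 1 (.ct 1 6 1 1 1 (.dc 0 12 1 (.lf 3 6 240))
  (.dc 0 12 0 (.lf 3 4 208))) (.dc 0 12 1 (.lf 3 7 240)))) (.dc 0 1 1 (.ct 1 6 1 1 1 (.dc 0 12 1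
  (.lf 3 13 208)) (.dc 0 12 0 (.lf 3 11 208)))))))))) (.dc 1 7 1 (.dc 2 7 1 (.ct 0 2 1 1 1 (.dc 0
  1 0 (.ct 1 6 1 1 1 (.dc 0 12 1 (.lf 3 8 224)) (.dc 0 12 0 (.lf 3 5 192)))) (.dc 0 1 1 (.ct 1 6
  1 1 1 (.dc 0 12 1 (.lf 3 13 224)) (.dc 0 12 0 (.lf 3 11 192)))))))))

theorem dt110 : le (run cls4 4 tr110 [[1, 0, 0, 0, 1, 0, 0], [1, 1, 0, 0, 2, 1, 1], [2, 2, 2,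
  1, 3, 1, 1], [2, 2, 1, 1, 4, 1, 1], [3, 3, 2, 1, 5, 1, 1], [3, 3, 2, 1, 6, 2, 1], [1, 1, 1, 1,
  4, 1, 1]] 140187724148733 [90, 90, 114, 114, 36, 204, 210]) 555702174952 = true := by
  decide +kernel

end Pool.Agent.Work.MP_122e00_nt.Sharp.Cx

end

section

set_option autoImplicit false

set_option maxRecDepth 100000

/-!
# The certificate: data
-/

namespace Pool.Agent.Work.MP_122e00_nt.Sharp.Cx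

/-- data -/
noncomputable def tr111 : Ct := (.dc 0 9 1 (.dc 0 10 1 (.ct 2 6 1 1 1 (.ct 3 6 1 2 1 (.dc 1 7 0
  (.dc 1 15 0 (.dc 2 7 0 (.dc 2 15 0 (.ct 3 4 1 1 1 (.dc 0 1 1 (.dc 0 2 1 (.lf 3 8 160))) (.dc 0
  2 0 (.ct 0 3 1 1 1 (.dc 0 1 0 (.lf 3 6 208)) (.dc 0 1 1 (.lf 3 11 192))))))))) (.dc 1 15 1 (.ct
  3 6 1 1 2 (.dc 1 7 0 (.dc 2 7 0 (.ct 4 6 1 1 1 (.dc 0 2 0 (.ct 0 6 1 1 1 (.dc 0 1 0 (.ct 3 5 1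
  1 1 (.dc 2 15 0 (.lf 3 5 224)) (.dc 2 15 1 (.lf 3 9 240)))) (.ct 0 3 1 1 1 (.dc 0 1 0 (.ct 0 5
  1 1 1 (.ct 3 5 1 1 1 (.dc 2 15 0 (.lf 3 5 224)) (.dc 2 15 1 (.lf 3 7 240))) (.dc 2 15 1 (.lf 3
  6 240)))) (.dc 0 1 1 (.ct 3 5 1 1 1 (.dc 2 15 0 (.lf 3 11 208)) (.dc 2 15 1 (.lf 3 12
  224))))))) (.ct 3 4 1 1 1 (.dc 0 1 1 (.dc 0 2 1 (.ct 3 5 1 1 1 (.dc 2 15 0 (.lf 3 9 192)) (.dc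
  2 15 1 (.lf 3 10 208))))) (.dc 0 2 0 (.ct 4 5 1 1 1 (.ct 0 3 1 1 1 (.dc 0 1 0 (.ct 0 5 1 1 1
  (.ct 3 5 1 1 1 (.dc 2 15 0 (.lf 3 5 224)) (.dc 2 15 1 (.lf 3 7 240))) (.dc 2 15 1 (.lf 3 6
  240)))) (.dc 0 1 1 (.ct 3 5 1 1 1 (.dc 2 15 0 (.lf 3 11 208)) (.dc 2 15 1 (.lf 3 12 224)))))
  (.dc 2 15 1 (.ct 0 3 1 1 1 (.dc 0 1 0 (.lf 3 7 240)) (.dc 0 1 1 (.lf 3 12 224)))))))))) (.dc 1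
  7 1 (.ct 4 6 1 1 1 (.dc 0 2 0 (.ct 3 5 1 1 1 (.dc 2 7 0 (.ct 4 5 1 1 1 (.ct 0 3 1 1 1 (.dc 0 1
  0 (.ct 0 5 1 1 1 (.ct 3 5 1 1 1 (.ct 5 6 1 1 1 (.dc 2 15 1 (.lf 3 8 208)) (.dc 2 15 0 (.lf 3 5
  208))) (.dc 2 15 1 (.lf 3 7 208))) (.dc 2 15 1 (.lf 3 6 208)))) (.ct 3 5 1 1 1 (.ct 0 6 1 1 1
  (.dc 0 1 0 (.ct 0 5 1 1 1 (.ct 5 6 1 1 1 (.dc 2 15 1 (.lf 3 7 240)) (.dc 2 15 0 (.lf 3 5 224)))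
  (.dc 2 15 1 (.lf 3 6 240)))) (.dc 0 1 1 (.ct 5 6 1 1 1 (.dc 2 15 1 (.lf 3 12 224)) (.dc 2 15 0
  (.lf 3 11 224))))) (.dc 2 15 1 (.ct 0 6 1 1 1 (.dc 0 1 0 (.lf 3 6 208)) (.dc 0 1 1 (.lf 3 12
  224)))))) (.dc 2 15 1 (.ct 0 3 1 1 1 (.dc 0 1 0 (.lf 3 6 224)) (.ct 0 6 1 1 1 (.dc 0 1 0 (.lf 3
  6 240)) (.dc 0 1 1 (.lf 3 12 240))))))) (.dc 2 7 1 (.dc 2 15 1 (.ct 0 3 1 1 1 (.dc 0 1 0 (.lf 3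
  7 192)) (.ct 0 5 1 1 1 (.dc 0 1 0 (.lf 3 7 192)) (.ct 0 6 1 1 1 (.dc 0 1 0 (.lf 3 7 208)) (.dc
  0 1 1 (.lf 3 12 208))))))))) (.ct 3 4 1 1 1 (.dc 0 1 1 (.dc 0 2 1 (.ct 3 5 1 1 1 (.dc 2 7 0
  (.ct 3 5 1 1 1 (.ct 5 6 1 1 1 (.dc 2 15 1 (.lf 3 10 208)) (.dc 2 15 0 (.lf 3 9 208))) (.dc 2 15
  1 (.lf 3 10 192)))) (.dc 2 7 1 (.dc 2 15 1 (.lf 3 10 208)))))) (.dc 0 2 0 (.ct 4 5 1 1 1 (.ct 3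
  5 1 1 1 (.dc 2 7 0 (.ct 4 5 1 1 1 (.ct 5 6 1 1 1 (.dc 2 15 1 (.ct 0 3 1 1 1 (.dc 0 1 0 (.lf 3 5
  224)) (.dc 0 1 1 (.lf 3 12 224)))) (.ct 0 3 1 1 1 (.dc 0 1 0 (.ct 0 5 1 1 1 (.ct 3 5 1 1 1 (.dc
  2 15 0 (.lf 3 5 240)) (.dc 2 15 1 (.lf 3 7 240))) (.dc 2 15 1 (.lf 3 5 240)))) (.dc 0 1 1 (.ct
  3 5 1 1 1 (.dc 2 15 0 (.lf 3 11 224)) (.dc 2 15 1 (.lf 3 12 240)))))) (.dc 2 15 1 (.ct 0 3 1 1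
  1 (.dc 0 1 0 (.lf 3 6 208)) (.dc 0 1 1 (.lf 3 11 208)))))) (.dc 2 7 1 (.dc 2 15 1 (.ct 0 3 1 1
  1 (.dc 0 1 0 (.lf 3 6 192)) (.ct 0 5 1 1 1 (.dc 0 1 0 (.lf 3 6 208)) (.dc 0 1 1 (.lf 3 11
  208))))))) (.dc 2 7 1 (.dc 2 15 1 (.ct 0 3 1 1 1 (.dc 0 1 0 (.lf 3 6 208)) (.dc 0 1 1 (.lf 3 11
  208))))))))))))) (.dc 1 7 1 (.dc 1 15 1 (.ct 2 5 1 1 1 (.ct 3 4 1 1 1 (.dc 0 1 1 (.dc 0 2 1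
  (.ct 3 5 1 1 1 (.dc 2 7 0 (.ct 3 5 1 1 1 (.dc 2 15 0 (.lf 3 9 176)) (.dc 2 15 1 (.lf 3 10
  192)))) (.dc 2 7 1 (.dc 2 15 1 (.lf 3 10 192)))))) (.dc 0 2 0 (.ct 4 5 1 1 1 (.ct 3 5 1 1 1
  (.dc 2 7 0 (.ct 4 5 1 1 1 (.ct 0 3 1 1 1 (.dc 0 1 0 (.ct 0 5 1 1 1 (.ct 3 5 1 1 1 (.dc 2 15 0
  (.lf 3 5 208)) (.dc 2 15 1 (.lf 3 7 208))) (.dc 2 15 1 (.lf 3 6 208)))) (.dc 0 1 1 (.ct 3 5 1 1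
  1 (.dc 2 15 0 (.lf 3 11 192)) (.dc 2 15 1 (.lf 3 12 208))))) (.dc 2 15 1 (.ct 0 3 1 1 1 (.dc 0
  1 0 (.lf 3 6 208)) (.dc 0 1 1 (.lf 3 11 208)))))) (.dc 2 7 1 (.dc 2 15 1 (.ct 0 3 1 1 1 (.dc 0
  1 0 (.lf 3 6 160)) (.ct 0 5 1 1 1 (.dc 0 1 0 (.lf 3 6 192)) (.dc 0 1 1 (.lf 3 11 192)))))))
  (.dc 2 7 1 (.dc 2 15 1 (.ct 0 3 1 1 1 (.dc 0 1 0 (.lf 3 6 192)) (.dc 0 1 1 (.lf 3 11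
  192)))))))) (.dc 2 7 1 (.dc 2 15 1 (.ct 3 4 1 1 1 (.dc 0 1 1 (.dc 0 2 1 (.lf 3 9 192))) (.dc 0
  2 0 (.ct 0 3 1 1 1 (.dc 0 1 0 (.lf 3 7 192)) (.dc 0 1 1 (.lf 3 11 192)))))))))))))

theorem dt111 : le (run cls4 4 tr111 [[1, 0, 0, 0, 1, 0, 0], [1, 1, 0, 0, 2, 1, 1], [2, 2, 1,
  0, 3, 1, 1], [2, 2, 2, 1, 3, 1, 1], [1, 1, 0, 0, 2, 0, 0], [0, 0, 0, 0, 1, 1, 0], [0, 0, 0, 0,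
  2, 1, 1]] 140185576667641 [57, 57, 57, 105, 21, 147, 147]) 24985639809 = true := by
  decide +kernel

/-- data -/
noncomputable def tr112 : Ct := (.dc 0 2 0 (.dc 0 10 0 (.ct 4 6 1 1 1 (.ct 2 6 1 1 1 (.ct 3 6 1
  2 1 (.dc 1 7 0 (.dc 1 15 0 (.dc 2 7 0 (.dc 2 15 0 (.ct 0 2 1 1 1 (.dc 0 1 0 (.dc 0 9 0 (.lf 3 7
  176))) (.dc 0 9 1 (.ct 0 3 1 1 1 (.dc 0 1 0 (.lf 3 5 208)) (.dc 0 1 1 (.lf 3 11 176)))))))))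
  (.dc 1 15 1 (.ct 0 2 1 1 1 (.dc 0 1 0 (.dc 0 9 0 (.ct 3 6 1 1 2 (.dc 1 7 0 (.dc 2 7 0 (.ct 3 5
  1 1 1 (.dc 2 15 0 (.lf 3 6 192)) (.dc 2 15 1 (.lf 3 5 208))))) (.dc 1 7 1 (.ct 3 5 1 1 1 (.dc 2
  7 0 (.ct 3 5 1 1 1 (.ct 5 6 1 1 1 (.dc 2 15 1 (.lf 3 4 208)) (.dc 2 15 0 (.lf 3 5 208))) (.dc 2
  15 1 (.lf 3 5 192)))) (.dc 2 7 1 (.dc 2 15 1 (.lf 3 6 192)))))))) (.dc 0 9 1 (.ct 3 6 1 1 2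
  (.dc 1 7 0 (.dc 2 7 0 (.ct 0 6 1 1 1 (.dc 0 1 0 (.ct 3 5 1 1 1 (.dc 2 15 0 (.lf 3 4 224)) (.dc
  2 15 1 (.lf 3 7 240)))) (.ct 0 3 1 1 1 (.dc 0 1 0 (.ct 0 5 1 1 1 (.ct 3 5 1 1 1 (.dc 2 15 0
  (.lf 3 5 224)) (.dc 2 15 1 (.lf 3 7 240))) (.dc 2 15 1 (.lf 3 7 240)))) (.dc 0 1 1 (.ct 3 5 1 1
  1 (.dc 2 15 0 (.lf 3 11 208)) (.dc 2 15 1 (.lf 3 12 224)))))))) (.dc 1 7 1 (.ct 3 5 1 1 1 (.dc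
  2 7 0 (.ct 0 3 1 1 1 (.dc 0 1 0 (.ct 0 5 1 1 1 (.ct 3 5 1 1 1 (.ct 5 6 1 1 1 (.dc 2 15 1 (.lf 3
  9 176)) (.dc 2 15 0 (.lf 3 6 192))) (.dc 2 15 1 (.lf 3 8 176))) (.dc 2 15 1 (.lf 3 8 176))))
  (.ct 3 5 1 1 1 (.ct 0 6 1 1 1 (.dc 0 1 0 (.ct 0 5 1 1 1 (.ct 5 6 1 1 1 (.dc 2 15 1 (.lf 3 8
  208)) (.dc 2 15 0 (.lf 3 5 192))) (.dc 2 15 1 (.lf 3 7 208)))) (.dc 0 1 1 (.ct 5 6 1 1 1 (.dc 2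
  15 1 (.lf 3 12 192)) (.dc 2 15 0 (.lf 3 11 192))))) (.dc 2 15 1 (.ct 0 6 1 1 1 (.dc 0 1 0 (.lf
  3 7 176)) (.dc 0 1 1 (.lf 3 12 192))))))) (.dc 2 7 1 (.dc 2 15 1 (.ct 0 3 1 1 1 (.dc 0 1 0 (.lf
  3 8 176)) (.ct 0 5 1 1 1 (.dc 0 1 0 (.lf 3 8 176)) (.ct 0 6 1 1 1 (.dc 0 1 0 (.lf 3 8 192))
  (.dc 0 1 1 (.lf 3 12 192)))))))))))))) (.dc 1 7 1 (.dc 1 15 1 (.ct 0 6 1 1 1 (.dc 0 1 0 (.dc 0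
  9 0 (.ct 2 5 1 1 1 (.ct 3 5 1 1 1 (.dc 2 7 0 (.ct 3 5 1 1 1 (.dc 2 15 0 (.lf 3 6 192)) (.dc 2
  15 1 (.lf 3 6 192)))) (.dc 2 7 1 (.dc 2 15 1 (.lf 3 7 176)))) (.dc 2 7 1 (.dc 2 15 1 (.lf 3 8
  176)))))) (.ct 0 2 1 1 1 (.dc 0 1 0 (.dc 0 9 0 (.ct 0 5 1 1 1 (.ct 2 5 1 1 1 (.ct 3 5 1 1 1
  (.dc 2 7 0 (.ct 3 5 1 1 1 (.dc 2 15 0 (.lf 3 5 192)) (.dc 2 15 1 (.lf 3 6 192)))) (.dc 2 7 1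
  (.dc 2 15 1 (.lf 3 7 176)))) (.dc 2 7 1 (.dc 2 15 1 (.lf 3 8 176)))) (.dc 2 7 1 (.dc 2 15 1
  (.lf 3 8 176)))))) (.dc 0 9 1 (.ct 2 5 1 1 1 (.ct 3 5 1 1 1 (.dc 2 7 0 (.ct 0 3 1 1 1 (.dc 0 1
  0 (.ct 0 5 1 1 1 (.ct 3 5 1 1 1 (.dc 2 15 0 (.lf 3 5 208)) (.dc 2 15 1 (.lf 3 8 208))) (.dc 2
  15 1 (.lf 3 8 208)))) (.dc 0 1 1 (.ct 3 5 1 1 1 (.dc 2 15 0 (.lf 3 11 192)) (.dc 2 15 1 (.lf 3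
  12 208)))))) (.dc 2 7 1 (.dc 2 15 1 (.ct 0 3 1 1 1 (.dc 0 1 0 (.lf 3 8 176)) (.ct 0 5 1 1 1
  (.dc 0 1 0 (.lf 3 8 192)) (.dc 0 1 1 (.lf 3 12 192))))))) (.dc 2 7 1 (.dc 2 15 1 (.ct 0 3 1 1 1
  (.dc 0 1 0 (.lf 3 8 176)) (.dc 0 1 1 (.lf 3 12 176)))))))))))) (.dc 1 7 1 (.dc 1 15 1 (.ct 4 5
  1 1 1 (.ct 0 2 1 1 1 (.dc 0 1 0 (.dc 0 9 0 (.ct 0 5 1 1 1 (.ct 2 5 1 1 1 (.ct 3 5 1 1 1 (.dc 2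
  7 0 (.ct 3 5 1 1 1 (.dc 2 15 0 (.lf 3 6 192)) (.dc 2 15 1 (.lf 3 6 192)))) (.dc 2 7 1 (.dc 2 15
  1 (.lf 3 6 176)))) (.dc 2 7 1 (.dc 2 15 1 (.lf 3 7 176)))) (.dc 2 7 1 (.dc 2 15 1 (.lf 3 7
  176)))))) (.dc 0 9 1 (.ct 2 5 1 1 1 (.ct 3 5 1 1 1 (.dc 2 7 0 (.ct 0 3 1 1 1 (.dc 0 1 0 (.ct 0
  5 1 1 1 (.ct 3 5 1 1 1 (.dc 2 15 0 (.lf 3 5 208)) (.dc 2 15 1 (.lf 3 6 208))) (.dc 2 15 1 (.lf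
  3 7 208)))) (.dc 0 1 1 (.ct 3 5 1 1 1 (.dc 2 15 0 (.lf 3 11 192)) (.dc 2 15 1 (.lf 3 12
  208)))))) (.dc 2 7 1 (.dc 2 15 1 (.ct 0 3 1 1 1 (.dc 0 1 0 (.lf 3 8 176)) (.ct 0 5 1 1 1 (.dc 0
  1 0 (.lf 3 7 192)) (.dc 0 1 1 (.lf 3 12 192))))))) (.dc 2 7 1 (.dc 2 15 1 (.ct 0 3 1 1 1 (.dc 0
  1 0 (.lf 3 7 176)) (.dc 0 1 1 (.lf 3 12 176)))))))) (.dc 2 7 1 (.dc 2 15 1 (.ct 0 2 1 1 1 (.dc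
  0 1 0 (.dc 0 9 0 (.lf 3 7 176))) (.dc 0 9 1 (.ct 0 3 1 1 1 (.dc 0 1 0 (.lf 3 6 176)) (.dc 0 1 1
  (.lf 3 11 176)))))))))))))

theorem dt112 : le (run cls4 4 tr112 [[1, 0, 0, 0, 1, 0, 0], [1, 1, 0, 0, 2, 1, 1], [1, 1, 1,
  0, 1, 1, 1], [2, 2, 2, 1, 3, 1, 1], [2, 2, 1, 0, 3, 1, 1], [0, 0, 0, 0, 1, 1, 0], [0, 0, 0, 0,
  2, 1, 1]] 140185576667641 [57, 57, 57, 105, 21, 147, 147]) 91350664791 = true := by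
  decide +kernel

end Pool.Agent.Work.MP_122e00_nt.Sharp.Cx

end

section

set_option autoImplicit false

set_option maxRecDepth 100000

/-!
# The certificate: data
-/

namespace Pool.Agent.Work.MP_122e00_nt.Sharp.Cx

/-- data -/
noncomputable def tr113 : Ct := (.dc 0 1 1 (.dc 0 2 1 (.ct 2 5 1 1 1 (.dc 2 7 0 (.ct 2 5 1 1 1
  (.ct 3 5 1 1 1 (.ct 1 5 1 1 1 (.dc 2 15 0 (.ct 1 6 1 1 1 (.lf 3 9 192) (.lf 2 9 192))) (.dc 2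
  15 1 (.ct 1 6 1 1 1 (.ct 5 6 1 1 1 (.lf 3 10 208) (.lf 2 11 208)) (.lf 2 11 192)))) (.dc 2 15 1
  (.ct 1 6 1 1 1 (.lf 3 10 192) (.lf 2 11 192)))) (.dc 2 15 1 (.ct 1 6 1 1 1 (.lf 3 10 176) (.lf
  2 11 176))))) (.dc 2 7 1 (.dc 2 15 1 (.ct 1 6 1 1 1 (.lf 3 10 160) (.lf 2 11 176)))))))

theorem dt113 : le (run cls4 4 tr113 [[1, 0, 0, 0, 1, 0, 0], [2, 2, 1, 1, 3, 1, 0], [3, 3, 2,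
  1, 5, 1, 1], [2, 2, 1, 1, 4, 1, 1], [1, 1, 0, 0, 2, 0, 0], [0, 0, 0, 0, 1, 1, 0], [1, 1, 0, 0,
  2, 1, 1]] 140187732541433 [94, 94, 130, 130, 64, 208, 238]) 21222265981 = true := by
  decide +kernel

/-- data -/
noncomputable def tr114 : Ct := (.dc 0 2 0 (.ct 4 5 1 1 1 (.ct 2 5 1 1 1 (.dc 2 7 0 (.ct 3 5 1
  1 1 (.ct 4 5 1 1 1 (.ct 0 2 1 1 1 (.dc 0 1 0 (.ct 0 5 1 1 1 (.ct 2 5 1 1 1 (.ct 1 5 1 1 1 (.dc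
  2 15 0 (.ct 1 6 1 1 1 (.lf 3 4 208) (.lf 2 5 208))) (.dc 2 15 1 (.ct 1 6 1 1 1 (.ct 5 6 1 1 1
  (.lf 3 5 208) (.lf 2 7 208)) (.lf 2 8 208)))) (.dc 2 15 1 (.ct 1 6 1 1 1 (.lf 3 6 208) (.lf 2 9
  208)))) (.dc 2 15 1 (.ct 1 6 1 1 1 (.lf 3 5 208) (.lf 2 10 208))))) (.dc 0 1 1 (.ct 2 5 1 1 1
  (.ct 1 5 1 1 1 (.dc 2 15 0 (.ct 1 6 1 1 1 (.lf 3 11 192) (.lf 2 10 192))) (.dc 2 15 1 (.ct 1 6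
  1 1 1 (.ct 5 6 1 1 1 (.lf 3 12 208) (.lf 2 13 208)) (.lf 2 12 208)))) (.dc 2 15 1 (.ct 1 6 1 1
  1 (.lf 3 12 208) (.lf 2 12 208)))))) (.dc 2 15 1 (.ct 0 2 1 1 1 (.dc 0 1 0 (.ct 1 6 1 1 1 (.lf
  3 5 208) (.lf 2 9 208))) (.dc 0 1 1 (.ct 1 6 1 1 1 (.lf 3 11 208) (.lf 2 13 208)))))) (.dc 2 15
  1 (.ct 0 2 1 1 1 (.dc 0 1 0 (.ct 1 6 1 1 1 (.lf 3 5 192) (.lf 2 9 208))) (.dc 0 1 1 (.ct 1 6 1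
  1 1 (.lf 3 11 192) (.lf 2 13 208))))))) (.dc 2 7 1 (.dc 2 15 1 (.ct 0 2 1 1 1 (.dc 0 1 0 (.ct 1
  6 1 1 1 (.lf 3 4 192) (.lf 2 8 208))) (.ct 0 5 1 1 1 (.dc 0 1 0 (.ct 1 6 1 1 1 (.lf 3 4 192)
  (.lf 2 8 208))) (.dc 0 1 1 (.ct 1 6 1 1 1 (.lf 3 11 192) (.lf 2 13 208)))))))) (.dc 2 7 1 (.dc
  2 15 1 (.ct 0 2 1 1 1 (.dc 0 1 0 (.ct 1 6 1 1 1 (.lf 3 5 192) (.lf 2 9 208))) (.dc 0 1 1 (.ct 1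
  6 1 1 1 (.lf 3 11 192) (.lf 2 13 208))))))))

theorem dt114 : le (run cls4 4 tr114 [[1, 0, 0, 0, 1, 0, 0], [2, 2, 1, 1, 3, 1, 0], [2, 2, 2,
  1, 3, 1, 1], [2, 2, 1, 1, 4, 1, 1], [3, 3, 2, 1, 5, 1, 1], [0, 0, 0, 0, 1, 1, 0], [1, 1, 0, 0,
  2, 1, 1]] 140187732541433 [94, 94, 130, 130, 64, 208, 238]) 315424527639 = true := by
  decide +kernel

/-- data -/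
noncomputable def tr115 : Ct := (.dc 0 1 1 (.dc 0 2 1 (.ct 2 5 1 1 1 (.dc 2 7 0 (.ct 1 5 1 1 1
  (.ct 2 5 1 1 1 (.ct 5 6 1 1 1 (.dc 2 15 1 (.lf 2 11 192)) (.dc 2 15 0 (.lf 2 9 192))) (.dc 2 15
  1 (.lf 2 11 176))) (.dc 2 15 1 (.lf 2 11 176)))) (.dc 2 15 1 (.ct 2 3 1 1 1 (.dc 2 7 0 (.lf 2
  11 176)) (.dc 2 7 1 (.lf 2 11 176)))))))

theorem dt115 : le (run cls4 4 tr115 [[1, 0, 0, 0, 1, 0, 0], [2, 2, 1, 1, 3, 1, 0], [3, 3, 2,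
  1, 5, 1, 1], [1, 1, 1, 1, 3, 1, 0], [1, 1, 0, 0, 2, 0, 0], [0, 0, 0, 0, 1, 1, 0], [2, 2, 1, 1,
  4, 1, 1]] 140187732541433 [122, 122, 134, 134, 68, 236, 266]) 8243395179 = true := by
  decide +kernel

end Pool.Agent.Work.MP_122e00_nt.Sharp.Cx

end

section

set_option autoImplicit false

set_option maxRecDepth 100000

/-!
# The certificate: data
-/

namespace Pool.Agent.Work.MP_122e00_nt.Sharp.Cx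

/-- data -/
noncomputable def tr116 : Ct := (.ct 2 5 1 1 1 (.dc 2 7 0 (.ct 1 5 1 1 1 (.ct 4 5 1 1 1 (.ct 5
  6 1 1 1 (.dc 2 15 1 (.ct 0 2 1 1 1 (.dc 0 1 0 (.lf 2 9 192)) (.dc 0 1 1 (.lf 2 13 192)))) (.ct
  0 2 1 1 1 (.dc 0 1 0 (.ct 0 5 1 1 1 (.ct 2 5 1 1 1 (.dc 2 15 0 (.lf 2 6 208)) (.dc 2 15 1 (.lf
  2 9 208))) (.dc 2 15 1 (.lf 2 9 208)))) (.dc 0 1 1 (.ct 2 5 1 1 1 (.dc 2 15 0 (.lf 2 10 192))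
  (.dc 2 15 1 (.lf 2 12 208)))))) (.dc 2 15 1 (.ct 0 2 1 1 1 (.dc 0 1 0 (.lf 2 8 208)) (.dc 0 1 1
  (.lf 2 13 176))))) (.dc 2 15 1 (.ct 0 2 1 1 1 (.dc 0 1 0 (.lf 2 7 208)) (.dc 0 1 1 (.lf 2 12
  176)))))) (.dc 2 15 1 (.ct 0 5 1 1 1 (.dc 0 1 0 (.ct 2 3 1 1 1 (.dc 2 7 0 (.lf 2 7 208)) (.dc 2
  7 1 (.lf 2 9 208)))) (.ct 0 2 1 1 1 (.dc 0 1 0 (.ct 0 3 1 1 1 (.ct 2 3 1 1 1 (.dc 2 7 0 (.lf 2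
  8 208)) (.dc 2 7 1 (.lf 2 10 208))) (.dc 2 7 1 (.lf 2 9 240)))) (.dc 0 1 1 (.ct 2 3 1 1 1 (.dc
  2 7 0 (.lf 2 12 208)) (.dc 2 7 1 (.lf 2 13 240))))))))

theorem dt116 : le (run cls4 4 tr116 [[1, 0, 0, 0, 1, 0, 0], [2, 2, 1, 1, 3, 1, 0], [2, 2, 2,
  1, 3, 1, 1], [1, 1, 1, 1, 3, 1, 0], [3, 3, 2, 1, 6, 2, 1], [0, 0, 0, 0, 1, 1, 0], [2, 2, 1, 1,
  4, 1, 1]] 140187732541437 [122, 122, 134, 134, 68, 236, 266]) 251210922099 = true := by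
  decide +kernel

/-- data -/
noncomputable def tr117 : Ct := (.dc 2 15 1 (.ct 3 4 1 1 1 (.dc 2 7 1 (.ct 0 2 1 1 1 (.dc 0 1 0
  (.lf 2 8 208)) (.dc 0 1 1 (.lf 2 13 208)))) (.ct 0 2 1 1 1 (.dc 0 1 0 (.ct 0 3 1 1 1 (.ct 2 3 1
  1 1 (.dc 2 7 0 (.lf 2 9 208)) (.dc 2 7 1 (.lf 2 8 208))) (.dc 2 7 1 (.lf 2 8 224)))) (.dc 0 1 1
  (.ct 2 3 1 1 1 (.dc 2 7 0 (.lf 2 13 208)) (.dc 2 7 1 (.lf 2 13 224)))))))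

theorem dt117 : le (run cls4 4 tr117 [[1, 0, 0, 0, 1, 0, 0], [2, 2, 1, 1, 3, 1, 0], [2, 2, 2,
  1, 3, 1, 1], [1, 1, 1, 1, 3, 1, 0], [3, 3, 2, 1, 5, 1, 1], [3, 3, 2, 1, 6, 2, 1], [2, 2, 1, 1,
  4, 1, 1]] 140187732541437 [122, 122, 134, 134, 68, 236, 266]) 426849053871 = true := by
  decide +kernel

/-- data -/
noncomputable def tr118 : Ct := (.dc 2 15 1 (.ct 2 4 1 1 1 (.dc 0 1 1 (.dc 0 2 1 (.ct 2 5 1 1 1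
  (.dc 2 7 0 (.lf 1 10 160)) (.dc 2 7 1 (.lf 1 10 160))))) (.dc 0 2 0 (.ct 4 5 1 1 1 (.ct 0 2 1 1
  1 (.dc 0 1 0 (.ct 0 5 1 1 1 (.ct 2 5 1 1 1 (.dc 2 7 0 (.lf 1 11 192)) (.dc 2 7 1 (.lf 1 10
  192))) (.dc 2 7 1 (.lf 1 10 208)))) (.dc 0 1 1 (.ct 2 5 1 1 1 (.dc 2 7 0 (.lf 1 12 192)) (.dc 2
  7 1 (.lf 1 12 208))))) (.dc 2 7 1 (.ct 0 2 1 1 1 (.dc 0 1 0 (.lf 1 10 192)) (.dc 0 1 1 (.lf 1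
  12 192))))))))

theorem dt118 : le (run cls4 4 tr118 [[1, 0, 0, 0, 1, 0, 0], [2, 2, 1, 1, 3, 1, 0], [2, 2, 2,
  1, 3, 1, 1], [1, 1, 1, 1, 2, 0, 0], [1, 1, 0, 0, 2, 0, 0], [1, 1, 1, 1, 3, 1, 0], [2, 2, 1, 1,
  4, 1, 1]] 140187732541433 [122, 122, 134, 134, 68, 236, 266]) 148799008048 = true := by
  decide +kernel

end Pool.Agent.Work.MP_122e00_nt.Sharp.Cx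

end

section

set_option autoImplicit false

set_option maxRecDepth 100000

/-!
# The certificate: data
-/

namespace Pool.Agent.Work.MP_122e00_nt.Sharp.Cx

/-- data -/
noncomputable def tr119 : Ct := (.dc 0 1 1 (.dc 0 2 1 (.ct 2 5 1 1 1 (.dc 2 7 0 (.ct 1 2 1 1 1
  (.dc 1 3 0 (.ct 1 5 1 1 1 (.ct 2 5 1 1 1 (.ct 3 5 1 1 1 (.dc 2 15 0 (.ct 3 6 1 1 1 (.lf 3 9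
  176) (.lf 2 9 176))) (.dc 2 15 1 (.ct 3 6 1 1 1 (.ct 5 6 1 1 1 (.lf 3 10 176) (.lf 2 11 176))
  (.lf 2 11 176)))) (.dc 2 15 1 (.ct 3 6 1 1 1 (.lf 3 10 176) (.lf 2 11 176)))) (.dc 2 15 1 (.ct
  3 6 1 1 1 (.lf 3 10 192) (.lf 2 11 208))))) (.dc 1 3 1 (.ct 2 5 1 1 1 (.ct 3 5 1 1 1 (.dc 2 15
  0 (.ct 3 6 1 1 1 (.lf 3 9 160) (.lf 2 9 160))) (.dc 2 15 1 (.ct 3 6 1 1 1 (.ct 5 6 1 1 1 (.lf 3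
  10 160) (.lf 2 11 160)) (.lf 2 11 176)))) (.dc 2 15 1 (.ct 3 6 1 1 1 (.lf 3 10 176) (.lf 2 11
  192))))))) (.dc 2 7 1 (.dc 2 15 1 (.ct 1 2 1 1 1 (.dc 1 3 0 (.ct 3 6 1 1 1 (.lf 3 9 176) (.lf 2
  11 176))) (.ct 1 5 1 1 1 (.dc 1 3 0 (.ct 3 6 1 1 1 (.lf 3 10 208) (.lf 2 11 208))) (.dc 1 3 1
  (.ct 3 6 1 1 1 (.lf 3 9 192) (.lf 2 11 192))))))))))

theorem dt119 : le (run cls4 4 tr119 [[1, 0, 0, 0, 1, 0, 0], [1, 1, 0, 0, 1, 1, 0], [3, 3, 2,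
  1, 5, 1, 1], [2, 2, 1, 1, 3, 1, 0], [1, 1, 0, 0, 2, 0, 0], [0, 0, 0, 0, 1, 1, 0], [1, 1, 0, 0,
  2, 1, 1]] 140187732017145 [94, 94, 130, 130, 64, 208, 238]) 5901692415 = true := by
  decide +kernel

/-- data -/
noncomputable def tr120 : Ct := (.ct 1 4 1 1 1 (.dc 1 3 0 (.ct 1 5 1 1 1 (.ct 4 5 1 1 1 (.ct 0
  2 1 1 1 (.dc 0 1 0 (.ct 0 5 1 1 1 (.ct 2 5 1 1 1 (.dc 2 15 0 (.lf 3 4 176)) (.dc 2 15 1 (.lf 3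
  6 208))) (.dc 2 15 1 (.lf 3 4 208)))) (.dc 0 1 1 (.ct 2 5 1 1 1 (.dc 2 15 0 (.lf 3 11 176))
  (.dc 2 15 1 (.lf 3 12 176))))) (.dc 2 15 1 (.ct 0 2 1 1 1 (.dc 0 1 0 (.lf 3 5 208)) (.dc 0 1 1
  (.lf 3 11 176))))) (.dc 2 15 1 (.ct 0 2 1 1 1 (.dc 0 1 0 (.lf 3 5 224)) (.dc 0 1 1 (.lf 3 11
  192)))))) (.ct 4 5 1 1 1 (.ct 0 2 1 1 1 (.dc 0 1 0 (.ct 0 1 1 1 1 (.ct 0 5 1 1 1 (.ct 1 2 1 1 1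
  (.dc 1 3 0 (.ct 1 5 1 1 1 (.ct 2 5 1 1 1 (.dc 2 15 0 (.lf 3 5 208)) (.dc 2 15 1 (.lf 3 6 240)))
  (.dc 2 15 1 (.lf 3 6 224)))) (.dc 1 3 1 (.ct 2 5 1 1 1 (.dc 2 15 0 (.lf 3 6 208)) (.dc 2 15 1
  (.lf 3 7 208))))) (.dc 2 15 1 (.ct 1 2 1 1 1 (.dc 1 3 0 (.lf 3 5 224)) (.dc 1 3 1 (.lf 3 6
  208))))) (.dc 1 3 0 (.ct 0 5 1 1 1 (.ct 1 5 1 1 1 (.ct 2 5 1 1 1 (.dc 2 15 0 (.lf 3 4 192))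
  (.dc 2 15 1 (.lf 3 6 224))) (.dc 2 15 1 (.lf 3 5 224))) (.dc 2 15 1 (.lf 3 4 208)))))) (.dc 0 1
  1 (.ct 1 2 1 1 1 (.dc 1 3 0 (.ct 1 5 1 1 1 (.ct 2 5 1 1 1 (.dc 2 15 0 (.lf 3 11 176)) (.dc 2 15
  1 (.lf 3 12 192))) (.dc 2 15 1 (.lf 3 12 208)))) (.dc 1 3 1 (.ct 2 5 1 1 1 (.dc 2 15 0 (.lf 3
  10 176)) (.dc 2 15 1 (.lf 3 11 208))))))) (.dc 2 15 1 (.ct 0 2 1 1 1 (.dc 0 1 0 (.ct 0 1 1 1 1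
  (.ct 1 2 1 1 1 (.dc 1 3 0 (.lf 3 6 224)) (.dc 1 3 1 (.lf 3 6 208))) (.dc 1 3 0 (.lf 3 5 240))))
  (.dc 0 1 1 (.ct 1 2 1 1 1 (.dc 1 3 0 (.lf 3 11 208)) (.dc 1 3 1 (.lf 3 11 208))))))))

theorem dt120 : le (run cls4 4 tr120 [[1, 0, 0, 0, 1, 0, 0], [1, 1, 0, 0, 1, 1, 0], [2, 2, 2,
  1, 4, 2, 1], [3, 3, 1, 1, 6, 3, 1], [3, 3, 2, 1, 6, 2, 1], [0, 0, 0, 0, 1, 1, 0], [1, 1, 0, 0,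
  2, 1, 1]] 140737487831037 [94, 94, 130, 130, 64, 208, 238]) 59190245836 = true := by
  decide +kernel

/-- data -/
noncomputable def tr121 : Ct := (.dc 1 3 0 (.ct 1 5 1 1 1 (.ct 4 5 1 1 1 (.ct 0 2 1 1 1 (.dc 0
  1 0 (.ct 0 5 1 1 1 (.ct 2 5 1 1 1 (.dc 2 15 0 (.lf 2 5 176)) (.dc 2 15 1 (.lf 2 8 208))) (.dc 2
  15 1 (.lf 2 9 208)))) (.dc 0 1 1 (.ct 2 5 1 1 1 (.dc 2 15 0 (.lf 2 10 176)) (.dc 2 15 1 (.lf 2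
  13 176))))) (.dc 2 15 1 (.ct 0 2 1 1 1 (.dc 0 1 0 (.lf 2 7 208)) (.dc 0 1 1 (.lf 2 13 176)))))
  (.dc 2 15 1 (.ct 0 2 1 1 1 (.dc 0 1 0 (.lf 2 7 224)) (.dc 0 1 1 (.lf 2 13 192))))))

theorem dt121 : le (run cls4 4 tr121 [[1, 0, 0, 0, 1, 0, 0], [4, 4, 2, 1, 7, 3, 1], [2, 2, 2,
  1, 4, 2, 1], [2, 2, 1, 1, 4, 2, 0], [3, 3, 2, 1, 6, 2, 1], [0, 0, 0, 0, 1, 1, 0], [3, 3, 1, 1,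
  6, 3, 1]] 140737487831037 [94, 94, 130, 130, 64, 208, 238]) 199319810489 = true := by
  decide +kernel

end Pool.Agent.Work.MP_122e00_nt.Sharp.Cx

end
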