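import Pool.Agent.Work.MP_122e00_nt.Bd.B03

/-! Bundle of small proof modules (one section per former module). -/

section

set_option autoImplicit false

set_option maxRecDepth 100000

/-!
# The certificate: data
-/

namespace Pool.Agent.Work.MP_122e00_nt.Sharp.Cx

/-- data -/
noncomputable def tr122 : Ct := (.ct 4 5 1 1 1 (.ct 0 2 1 1 1 (.dc 0 1 0 (.ct 0 1 1 1 1 (.ct 0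
  5 1 1 1 (.ct 1 2 1 1 1 (.dc 1 3 0 (.ct 1 5 1 1 1 (.ct 2 5 1 1 1 (.dc 2 15 0 (.lf 2 5 208)) (.dc
  2 15 1 (.lf 2 9 240))) (.dc 2 15 1 (.lf 2 10 224)))) (.dc 1 3 1 (.ct 2 5 1 1 1 (.dc 2 15 0 (.lf
  2 4 208)) (.dc 2 15 1 (.lf 2 8 208))))) (.dc 2 15 1 (.ct 1 2 1 1 1 (.dc 1 3 0 (.lf 2 10 224))
  (.dc 1 3 1 (.lf 2 8 208))))) (.dc 1 3 0 (.ct 0 5 1 1 1 (.ct 1 5 1 1 1 (.ct 2 5 1 1 1 (.dc 2 15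
  0 (.lf 2 5 192)) (.dc 2 15 1 (.lf 2 9 224))) (.dc 2 15 1 (.lf 2 9 224))) (.dc 2 15 1 (.lf 2 9
  208)))))) (.dc 0 1 1 (.ct 1 2 1 1 1 (.dc 1 3 0 (.ct 1 5 1 1 1 (.ct 2 5 1 1 1 (.dc 2 15 0 (.lf 2
  10 176)) (.dc 2 15 1 (.lf 2 13 192))) (.dc 2 15 1 (.lf 2 13 208)))) (.dc 1 3 1 (.ct 2 5 1 1 1
  (.dc 2 15 0 (.lf 2 10 176)) (.dc 2 15 1 (.lf 2 12 208))))))) (.dc 2 15 1 (.ct 0 2 1 1 1 (.dc 0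
  1 0 (.ct 0 1 1 1 1 (.ct 1 2 1 1 1 (.dc 1 3 0 (.lf 2 8 224)) (.dc 1 3 1 (.lf 2 7 208))) (.dc 1 3
  0 (.lf 2 8 240)))) (.dc 0 1 1 (.ct 1 2 1 1 1 (.dc 1 3 0 (.lf 2 13 208)) (.dc 1 3 1 (.lf 2 13
  208)))))))

theorem dt122 : le (run cls4 4 tr122 [[1, 0, 0, 0, 1, 0, 0], [1, 1, 0, 0, 1, 1, 0], [2, 2, 2,
  1, 4, 2, 1], [2, 2, 1, 1, 4, 2, 0], [4, 4, 2, 1, 7, 3, 1], [0, 0, 0, 0, 1, 1, 0], [3, 3, 1, 1,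
  6, 3, 1]] 140737487831037 [94, 94, 130, 130, 64, 208, 238]) 88380957372 = true := by
  decide +kernel

/-- data -/
noncomputable def tr123 : Ct := (.dc 2 15 1 (.ct 1 4 1 1 1 (.dc 1 3 0 (.ct 0 2 1 1 1 (.dc 0 1 0
  (.ct 3 6 1 1 1 (.ct 5 6 1 1 1 (.lf 3 5 224) (.lf 2 6 224)) (.lf 2 8 240))) (.dc 0 1 1 (.ct 3 6
  1 1 1 (.ct 5 6 1 1 1 (.lf 3 11 192) (.lf 2 13 192)) (.lf 2 13 208))))) (.ct 3 6 1 1 1 (.ct 5 6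
  1 1 1 (.ct 0 2 1 1 1 (.dc 0 1 0 (.ct 0 1 1 1 1 (.ct 1 2 1 1 1 (.dc 1 3 0 (.lf 3 5 240)) (.dc 1
  3 1 (.lf 3 5 208))) (.dc 1 3 0 (.lf 3 5 240)))) (.dc 0 1 1 (.ct 1 2 1 1 1 (.dc 1 3 0 (.lf 3 11
  208)) (.dc 1 3 1 (.lf 3 11 208))))) (.ct 0 2 1 1 1 (.dc 0 1 0 (.ct 0 1 1 1 1 (.ct 1 2 1 1 1
  (.dc 1 3 0 (.lf 2 8 240)) (.dc 1 3 1 (.lf 2 7 208))) (.dc 1 3 0 (.lf 2 7 240)))) (.dc 0 1 1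
  (.ct 1 2 1 1 1 (.dc 1 3 0 (.lf 2 13 208)) (.dc 1 3 1 (.lf 2 13 208)))))) (.ct 0 2 1 1 1 (.dc 0
  1 0 (.ct 0 1 1 1 1 (.ct 1 2 1 1 1 (.dc 1 3 0 (.lf 2 9 240)) (.dc 1 3 1 (.lf 2 8 208))) (.dc 1 3
  0 (.lf 2 9 224)))) (.dc 0 1 1 (.ct 1 2 1 1 1 (.dc 1 3 0 (.lf 2 13 192)) (.dc 1 3 1 (.lf 2 12
  192))))))))

theorem dt123 : le (run cls4 4 tr123 [[1, 0, 0, 0, 1, 0, 0], [1, 1, 0, 0, 1, 1, 0], [2, 2, 2,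
  1, 4, 2, 1], [2, 2, 1, 1, 3, 1, 0], [3, 3, 2, 1, 6, 2, 1], [2, 2, 1, 1, 4, 2, 0], [1, 1, 0, 0,
  2, 1, 1]] 140737487831037 [94, 94, 130, 130, 64, 208, 238]) 231581546541 = true := by
  decide +kernel

end Pool.Agent.Work.MP_122e00_nt.Sharp.Cx

end

section

set_option autoImplicit false

set_option maxRecDepth 100000

/-!
# The certificate: data
-/

namespace Pool.Agent.Work.MP_122e00_nt.Sharp.Cx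

/-- data -/
noncomputable def tr124 : Ct := (.dc 2 7 1 (.dc 2 15 1 (.ct 1 4 1 1 1 (.dc 1 3 0 (.ct 0 2 1 1 1
  (.dc 0 1 0 (.ct 3 6 1 1 1 (.lf 3 5 224) (.lf 2 8 240))) (.ct 0 5 1 1 1 (.dc 0 1 0 (.ct 3 6 1 1
  1 (.lf 3 4 224) (.lf 2 8 240))) (.dc 0 1 1 (.ct 3 6 1 1 1 (.lf 3 11 224) (.lf 2 13 240))))))
  (.ct 3 6 1 1 1 (.ct 0 2 1 1 1 (.dc 0 1 0 (.ct 0 1 1 1 1 (.ct 1 2 1 1 1 (.dc 1 3 0 (.lf 3 5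
  224)) (.ct 1 5 1 1 1 (.dc 1 3 0 (.lf 3 5 224)) (.dc 1 3 1 (.lf 3 5 192)))) (.dc 1 3 0 (.lf 3 5
  224)))) (.ct 1 2 1 1 1 (.dc 1 3 0 (.ct 0 5 1 1 1 (.dc 0 1 0 (.lf 3 4 224)) (.dc 0 1 1 (.lf 3 11
  224)))) (.ct 0 5 1 1 1 (.dc 0 1 0 (.ct 0 1 1 1 1 (.ct 1 5 1 1 1 (.dc 1 3 0 (.lf 3 5 240)) (.dc
  1 3 1 (.lf 3 5 208))) (.dc 1 3 0 (.lf 3 4 240)))) (.dc 0 1 1 (.ct 1 5 1 1 1 (.dc 1 3 0 (.lf 3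
  11 208)) (.dc 1 3 1 (.lf 3 11 208))))))) (.ct 0 2 1 1 1 (.dc 0 1 0 (.ct 0 1 1 1 1 (.ct 1 2 1 1
  1 (.dc 1 3 0 (.lf 2 9 240)) (.ct 1 5 1 1 1 (.dc 1 3 0 (.lf 2 9 240)) (.dc 1 3 1 (.lf 2 9
  208)))) (.dc 1 3 0 (.lf 2 8 240)))) (.ct 1 2 1 1 1 (.dc 1 3 0 (.ct 0 5 1 1 1 (.dc 0 1 0 (.lf 2
  8 240)) (.dc 0 1 1 (.lf 2 13 240)))) (.ct 0 5 1 1 1 (.dc 0 1 0 (.ct 0 1 1 1 1 (.ct 1 5 1 1 1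
  (.dc 1 3 0 (.lf 2 9 240)) (.dc 1 3 1 (.lf 2 8 208))) (.dc 1 3 0 (.lf 2 9 240)))) (.dc 0 1 1
  (.ct 1 5 1 1 1 (.dc 1 3 0 (.lf 2 13 208)) (.dc 1 3 1 (.lf 2 12 208)))))))))))

theorem dt124 : le (run cls4 4 tr124 [[1, 0, 0, 0, 1, 0, 0], [1, 1, 0, 0, 1, 1, 0], [2, 2, 2,
  1, 3, 1, 1], [2, 2, 1, 1, 3, 1, 0], [3, 3, 2, 1, 6, 2, 1], [2, 2, 2, 1, 4, 2, 1], [1, 1, 0, 0,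
  2, 1, 1]] 140187732017149 [94, 94, 130, 130, 64, 208, 238]) 289638916858 = true := by
  decide +kernel

/-- data -/
noncomputable def tr125 : Ct := (.dc 2 7 1 (.dc 2 15 1 (.ct 1 4 1 1 1 (.dc 1 3 0 (.ct 0 2 1 1 1
  (.dc 0 1 0 (.ct 3 6 1 1 1 (.lf 3 5 208) (.lf 2 8 208))) (.dc 0 1 1 (.ct 3 6 1 1 1 (.lf 3 11
  208) (.lf 2 13 208))))) (.ct 1 5 1 1 1 (.dc 1 3 0 (.ct 0 2 1 1 1 (.dc 0 1 0 (.ct 3 6 1 1 1 (.lf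
  3 4 240) (.lf 2 9 240))) (.dc 0 1 1 (.ct 3 6 1 1 1 (.lf 3 11 240) (.lf 2 13 240))))) (.ct 3 6 1
  1 1 (.ct 0 2 1 1 1 (.dc 0 1 0 (.ct 0 1 1 1 1 (.ct 1 2 1 1 1 (.dc 1 3 0 (.lf 3 5 208)) (.dc 1 3
  1 (.lf 3 4 208))) (.dc 1 3 0 (.lf 3 4 240)))) (.dc 0 1 1 (.ct 1 2 1 1 1 (.dc 1 3 0 (.lf 3 11
  240)) (.dc 1 3 1 (.lf 3 11 208))))) (.ct 0 2 1 1 1 (.dc 0 1 0 (.ct 0 1 1 1 1 (.ct 1 2 1 1 1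
  (.dc 1 3 0 (.lf 2 10 208)) (.dc 1 3 1 (.lf 2 9 208))) (.dc 1 3 0 (.lf 2 9 240)))) (.dc 0 1 1
  (.ct 1 2 1 1 1 (.dc 1 3 0 (.lf 2 13 240)) (.dc 1 3 1 (.lf 2 13 208))))))))))

theorem dt125 : le (run cls4 4 tr125 [[1, 0, 0, 0, 1, 0, 0], [1, 1, 0, 0, 1, 1, 0], [2, 2, 2,
  1, 3, 1, 1], [2, 2, 1, 1, 3, 1, 0], [3, 3, 2, 1, 5, 1, 1], [3, 3, 2, 1, 6, 2, 1], [1, 1, 0, 0,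
  2, 1, 1]] 140187732017149 [94, 94, 130, 130, 64, 208, 238]) 259556886012 = true := by
  decide +kernel

/-- data -/
noncomputable def tr126 : Ct := (.dc 0 1 1 (.dc 0 2 1 (.ct 1 2 1 1 1 (.dc 2 3 0 (.ct 2 5 1 1 1
  (.dc 1 3 1 (.ct 3 6 1 1 1 (.lf 3 9 176) (.lf 2 11 176))) (.dc 1 3 0 (.ct 3 6 1 1 1 (.lf 3 9
  176) (.lf 2 11 176))))) (.dc 1 3 1 (.ct 1 3 1 1 1 (.dc 2 3 0 (.ct 1 6 1 1 1 (.ct 3 6 1 1 1 (.lf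
  3 9 160) (.lf 2 11 176)) (.lf 2 11 160))) (.dc 2 3 1 (.ct 3 6 1 1 1 (.lf 3 7 144) (.lf 2 8
  144))))))))

theorem dt126 : le (run cls4 4 tr126 [[1, 0, 0, 0, 1, 0, 0], [1, 1, 0, 0, 0, 0, 0], [3, 3, 2,
  1, 5, 1, 1], [2, 2, 1, 1, 3, 1, 0], [1, 1, 0, 0, 2, 0, 0], [1, 1, 0, 0, 1, 1, 0], [1, 1, 0, 0,
  2, 1, 1]] 281440616447993 [99, 99, 147, 147, 99, 243, 243]) 36489567390 = true := by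
  decide +kernel

end Pool.Agent.Work.MP_122e00_nt.Sharp.Cx

end

section

set_option autoImplicit false

set_option maxRecDepth 100000

/-!
# The certificate: data
-/

namespace Pool.Agent.Work.MP_122e00_nt.Sharp.Cx

/-- data -/
noncomputable def tr127 : Ct := (.dc 0 2 0 (.ct 1 4 1 1 1 (.dc 2 3 0 (.ct 4 5 1 1 1 (.ct 3 6 1
  1 1 (.ct 0 2 1 1 1 (.dc 0 1 0 (.ct 0 5 1 1 1 (.ct 2 5 1 1 1 (.dc 1 3 1 (.lf 3 6 176)) (.dc 1 3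
  0 (.lf 3 6 176))) (.dc 1 3 0 (.lf 3 6 208)))) (.dc 0 1 1 (.ct 2 5 1 1 1 (.dc 1 3 1 (.lf 3 11
  176)) (.dc 1 3 0 (.lf 3 11 208))))) (.ct 0 2 1 1 1 (.dc 0 1 0 (.ct 0 5 1 1 1 (.ct 2 5 1 1 1
  (.dc 1 3 1 (.lf 2 8 176)) (.dc 1 3 0 (.lf 2 9 176))) (.dc 1 3 0 (.lf 2 8 208)))) (.dc 0 1 1
  (.ct 2 5 1 1 1 (.dc 1 3 1 (.lf 2 12 176)) (.dc 1 3 0 (.lf 2 13 208)))))) (.dc 1 3 0 (.ct 0 2 1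
  1 1 (.dc 0 1 0 (.ct 3 6 1 1 1 (.lf 3 5 208) (.lf 2 7 208))) (.dc 0 1 1 (.ct 3 6 1 1 1 (.lf 3 11
  208) (.lf 2 12 208))))))) (.ct 1 2 1 1 1 (.dc 2 3 0 (.ct 0 1 1 1 1 (.dc 0 1 0 (.ct 2 5 1 1 1
  (.dc 1 3 1 (.ct 3 6 1 1 1 (.lf 3 5 192) (.lf 2 7 208))) (.dc 1 3 0 (.ct 3 6 1 1 1 (.lf 3 6 192)
  (.lf 2 8 208))))) (.ct 3 6 1 1 1 (.ct 0 2 1 1 1 (.dc 0 1 0 (.ct 0 5 1 1 1 (.ct 2 5 1 1 1 (.dc 1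
  3 1 (.lf 3 6 160)) (.dc 1 3 0 (.lf 3 6 160))) (.dc 1 3 0 (.lf 3 6 192)))) (.dc 0 1 1 (.ct 2 5 1
  1 1 (.dc 1 3 1 (.lf 3 11 160)) (.dc 1 3 0 (.lf 3 11 192))))) (.ct 0 2 1 1 1 (.dc 0 1 0 (.ct 0 5
  1 1 1 (.ct 2 5 1 1 1 (.dc 1 3 1 (.lf 2 7 176)) (.dc 1 3 0 (.lf 2 8 176))) (.dc 1 3 0 (.lf 2 7
  208)))) (.dc 0 1 1 (.ct 2 5 1 1 1 (.dc 1 3 1 (.lf 2 12 176)) (.dc 1 3 0 (.lf 2 13 208))))))))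
  (.dc 1 3 1 (.ct 0 2 1 1 1 (.dc 0 1 0 (.ct 1 3 1 1 1 (.dc 2 3 0 (.ct 1 6 1 1 1 (.ct 3 6 1 1 1
  (.lf 3 5 192) (.lf 2 7 208)) (.lf 2 10 208))) (.dc 2 3 1 (.ct 3 6 1 1 1 (.lf 3 10 192) (.lf 2
  12 192))))) (.dc 0 1 1 (.ct 1 3 1 1 1 (.dc 2 3 0 (.ct 1 6 1 1 1 (.ct 3 6 1 1 1 (.lf 3 11 160)
  (.lf 2 12 176)) (.lf 2 12 176))) (.dc 2 3 1 (.ct 3 6 1 1 1 (.lf 3 8 160) (.lf 2 10 160))))))))))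

theorem dt127 : le (run cls4 4 tr127 [[1, 0, 0, 0, 1, 0, 0], [1, 1, 0, 0, 0, 0, 0], [2, 2, 2,
  1, 3, 1, 1], [2, 2, 1, 1, 3, 1, 0], [3, 3, 2, 1, 5, 1, 1], [1, 1, 0, 0, 1, 1, 0], [1, 1, 0, 0,
  2, 1, 1]] 281440616447993 [99, 99, 147, 147, 99, 243, 243]) 106540739521 = true := by
  decide +kernel

/-- data -/
noncomputable def tr128 : Ct := (.dc 1 3 0 (.dc 2 3 0 (.ct 3 6 1 1 1 (.dc 0 12 0 (.ct 2 4 1 1 1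
  (.dc 0 1 1 (.dc 0 2 1 (.ct 1 6 1 1 1 (.ct 5 6 1 1 1 (.lf 3 10 176) (.lf 2 11 192)) (.lf 1 10
  192)))) (.dc 0 2 0 (.ct 1 6 1 1 1 (.ct 0 2 1 1 1 (.dc 0 1 0 (.ct 5 6 1 1 1 (.lf 3 5 176) (.lf 2
  8 192))) (.dc 0 1 1 (.ct 5 6 1 1 1 (.lf 3 11 176) (.lf 2 13 192)))) (.ct 0 2 1 1 1 (.dc 0 1 0
  (.lf 1 10 192)) (.dc 0 1 1 (.lf 1 12 192))))))) (.dc 0 12 1 (.ct 2 4 1 1 1 (.dc 0 1 1 (.dc 0 2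
  1 (.lf 1 10 160))) (.dc 0 2 0 (.ct 0 2 1 1 1 (.dc 0 1 0 (.lf 1 8 192)) (.dc 0 1 1 (.lf 1 12
  192)))))))))

theorem dt128 : le (run cls4 4 tr128 [[1, 0, 0, 0, 1, 0, 0], [2, 2, 1, 1, 2, 0, 0], [2, 2, 2,
  1, 3, 1, 1], [1, 1, 1, 1, 2, 0, 0], [1, 1, 0, 0, 2, 0, 0], [2, 2, 1, 1, 3, 1, 0], [1, 1, 0, 0,
  2, 1, 1]] 281440616443897 [99, 99, 147, 147, 99, 243, 243]) 116760072745 = true := by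
  decide +kernel

end Pool.Agent.Work.MP_122e00_nt.Sharp.Cx

end

section

set_option autoImplicit false

set_option maxRecDepth 100000

/-!
# The certificate: data
-/

namespace Pool.Agent.Work.MP_122e00_nt.Sharp.Cx

/-- data -/
noncomputable def tr129 : Ct := (.ct 2 4 1 1 1 (.dc 0 1 1 (.dc 0 2 1 (.ct 1 2 1 1 1 (.dc 1 3 0
  (.dc 2 3 0 (.ct 5 6 1 1 1 (.lf 3 9 192) (.lf 2 11 208)))) (.dc 1 3 1 (.ct 1 5 1 1 1 (.dc 2 3 0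
  (.ct 1 6 1 1 1 (.ct 5 6 1 1 1 (.lf 3 9 192) (.lf 2 11 208)) (.lf 2 11 192))) (.dc 2 3 1 (.ct 5
  6 1 1 1 (.lf 3 7 176) (.lf 2 9 176)))))))) (.dc 0 2 0 (.ct 1 4 1 1 1 (.dc 1 3 0 (.dc 2 3 0 (.ct
  0 2 1 1 1 (.dc 0 1 0 (.ct 5 6 1 1 1 (.lf 3 5 192) (.lf 2 7 208))) (.dc 0 1 1 (.ct 5 6 1 1 1
  (.lf 3 11 192) (.lf 2 12 208)))))) (.ct 1 2 1 1 1 (.dc 1 3 0 (.dc 2 3 0 (.ct 0 1 1 1 1 (.dc 0 1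
  0 (.ct 5 6 1 1 1 (.lf 3 5 192) (.lf 2 7 208))) (.ct 0 2 1 1 1 (.dc 0 1 0 (.ct 5 6 1 1 1 (.lf 3
  5 192) (.lf 2 7 208))) (.dc 0 1 1 (.ct 5 6 1 1 1 (.lf 3 11 192) (.lf 2 12 208))))))) (.dc 1 3 1
  (.ct 0 2 1 1 1 (.dc 0 1 0 (.ct 1 5 1 1 1 (.dc 2 3 0 (.ct 1 6 1 1 1 (.ct 5 6 1 1 1 (.lf 3 4 192)
  (.lf 2 7 208)) (.lf 2 9 208))) (.dc 2 3 1 (.ct 5 6 1 1 1 (.lf 3 10 192) (.lf 2 12 192))))) (.dc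
  0 1 1 (.ct 1 5 1 1 1 (.dc 2 3 0 (.ct 1 6 1 1 1 (.ct 5 6 1 1 1 (.lf 3 11 192) (.lf 2 12 208))
  (.lf 2 13 208))) (.dc 2 3 1 (.ct 5 6 1 1 1 (.lf 3 8 192) (.lf 2 10 192)))))))))))

theorem dt129 : le (run cls4 4 tr129 [[1, 0, 0, 0, 1, 0, 0], [1, 1, 0, 0, 0, 0, 0], [2, 2, 2,
  1, 3, 1, 1], [3, 3, 1, 1, 4, 1, 1], [1, 1, 0, 0, 2, 0, 0], [2, 2, 1, 1, 3, 1, 0], [1, 1, 0, 0,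
  2, 1, 1]] 281440616447993 [99, 99, 147, 147, 99, 243, 243]) 93786691452 = true := by
  decide +kernel

/-- data -/
noncomputable def tr130 : Ct := (.ct 2 4 1 1 1 (.dc 0 1 1 (.dc 0 2 1 (.ct 1 2 1 1 1 (.dc 1 3 0
  (.dc 2 3 0 (.lf 1 11 208))) (.dc 1 3 1 (.ct 1 5 1 1 1 (.dc 2 3 0 (.lf 1 11 192)) (.dc 2 3 1
  (.lf 1 8 176))))))) (.dc 0 2 0 (.ct 1 4 1 1 1 (.dc 1 3 0 (.dc 2 3 0 (.ct 0 2 1 1 1 (.dc 0 1 0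
  (.lf 1 9 208)) (.dc 0 1 1 (.lf 1 12 208))))) (.ct 1 2 1 1 1 (.dc 1 3 0 (.dc 2 3 0 (.ct 0 1 1 1
  1 (.dc 0 1 0 (.lf 1 9 208)) (.ct 0 2 1 1 1 (.dc 0 1 0 (.lf 1 9 208)) (.dc 0 1 1 (.lf 1 12
  208)))))) (.dc 1 3 1 (.ct 0 2 1 1 1 (.dc 0 1 0 (.ct 1 5 1 1 1 (.dc 2 3 0 (.lf 1 9 208)) (.dc 2
  3 1 (.lf 1 11 176)))) (.dc 0 1 1 (.ct 1 5 1 1 1 (.dc 2 3 0 (.lf 1 12 208)) (.dc 2 3 1 (.lf 1 10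
  192))))))))))

theorem dt130 : le (run cls4 4 tr130 [[1, 0, 0, 0, 1, 0, 0], [1, 1, 0, 0, 0, 0, 0], [2, 2, 2,
  1, 3, 1, 1], [2, 2, 1, 1, 2, 0, 0], [1, 1, 0, 0, 2, 0, 0], [2, 2, 1, 1, 3, 1, 0], [3, 3, 1, 1,
  4, 1, 1]] 281440616447993 [99, 99, 147, 147, 99, 243, 243]) 134721203223 = true := by
  decide +kernel

end Pool.Agent.Work.MP_122e00_nt.Sharp.Cx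

end

section

set_option autoImplicit false

set_option maxRecDepth 100000

/-!
# The certificate: data
-/

namespace Pool.Agent.Work.MP_122e00_nt.Sharp.Cx

/-- data -/
noncomputable def tr131 : Ct := (.dc 0 9 1 (.dc 0 10 1 (.ct 2 5 1 1 1 (.ct 3 4 1 1 1 (.dc 0 1 1
  (.dc 0 2 1 (.ct 3 5 1 1 1 (.dc 2 7 0 (.ct 1 3 1 1 1 (.dc 1 3 0 (.ct 1 5 1 1 1 (.ct 3 5 1 1 1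
  (.dc 2 15 0 (.lf 3 9 160)) (.dc 2 15 1 (.lf 3 10 176))) (.dc 2 15 1 (.lf 3 10 176)))) (.dc 1 3
  1 (.ct 3 5 1 1 1 (.dc 2 15 0 (.lf 3 8 144)) (.dc 2 15 1 (.lf 3 9 176)))))) (.dc 2 7 1 (.dc 2 15
  1 (.ct 1 3 1 1 1 (.dc 1 3 0 (.lf 3 9 176)) (.ct 1 5 1 1 1 (.dc 1 3 0 (.lf 3 9 192)) (.dc 1 3 1
  (.lf 3 9 176))))))))) (.dc 0 2 0 (.ct 4 5 1 1 1 (.ct 3 5 1 1 1 (.dc 2 7 0 (.ct 1 4 1 1 1 (.dc 1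
  3 0 (.ct 1 5 1 1 1 (.ct 4 5 1 1 1 (.ct 0 3 1 1 1 (.dc 0 1 0 (.ct 0 5 1 1 1 (.ct 3 5 1 1 1 (.dc
  2 15 0 (.lf 3 5 176)) (.dc 2 15 1 (.lf 3 6 208))) (.dc 2 15 1 (.lf 3 5 208)))) (.dc 0 1 1 (.ct
  3 5 1 1 1 (.dc 2 15 0 (.lf 3 11 176)) (.dc 2 15 1 (.lf 3 12 176))))) (.dc 2 15 1 (.ct 0 3 1 1 1
  (.dc 0 1 0 (.lf 3 6 208)) (.dc 0 1 1 (.lf 3 11 176))))) (.dc 2 15 1 (.ct 0 3 1 1 1 (.dc 0 1 0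
  (.lf 3 5 224)) (.dc 0 1 1 (.lf 3 11 192)))))) (.ct 4 5 1 1 1 (.ct 0 3 1 1 1 (.dc 0 1 0 (.ct 0 1
  1 1 1 (.ct 0 5 1 1 1 (.ct 1 3 1 1 1 (.dc 1 3 0 (.ct 1 5 1 1 1 (.ct 3 5 1 1 1 (.dc 2 15 0 (.lf 3
  5 192)) (.dc 2 15 1 (.lf 3 7 224))) (.dc 2 15 1 (.lf 3 6 224)))) (.dc 1 3 1 (.ct 3 5 1 1 1 (.dc
  2 15 0 (.lf 3 6 192)) (.dc 2 15 1 (.lf 3 7 208))))) (.dc 2 15 1 (.ct 1 3 1 1 1 (.dc 1 3 0 (.lf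
  3 5 224)) (.dc 1 3 1 (.lf 3 7 208))))) (.dc 1 3 0 (.ct 0 5 1 1 1 (.ct 1 5 1 1 1 (.ct 3 5 1 1 1
  (.dc 2 15 0 (.lf 3 5 192)) (.dc 2 15 1 (.lf 3 6 224))) (.dc 2 15 1 (.lf 3 5 224))) (.dc 2 15 1
  (.lf 3 5 208)))))) (.dc 0 1 1 (.ct 1 3 1 1 1 (.dc 1 3 0 (.ct 1 5 1 1 1 (.ct 3 5 1 1 1 (.dc 2 15
  0 (.lf 3 11 176)) (.dc 2 15 1 (.lf 3 12 192))) (.dc 2 15 1 (.lf 3 12 192)))) (.dc 1 3 1 (.ct 3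
  5 1 1 1 (.dc 2 15 0 (.lf 3 10 176)) (.dc 2 15 1 (.lf 3 11 192))))))) (.dc 2 15 1 (.ct 0 3 1 1 1
  (.dc 0 1 0 (.ct 0 1 1 1 1 (.ct 1 3 1 1 1 (.dc 1 3 0 (.lf 3 6 224)) (.dc 1 3 1 (.lf 3 6 208)))
  (.dc 1 3 0 (.lf 3 5 224)))) (.dc 0 1 1 (.ct 1 3 1 1 1 (.dc 1 3 0 (.lf 3 11 192)) (.dc 1 3 1
  (.lf 3 11 192))))))))) (.dc 2 7 1 (.dc 2 15 1 (.ct 1 4 1 1 1 (.dc 1 3 0 (.ct 0 3 1 1 1 (.dc 0 1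
  0 (.lf 3 5 192)) (.ct 0 5 1 1 1 (.dc 0 1 0 (.lf 3 5 224)) (.dc 0 1 1 (.lf 3 11 224))))) (.ct 0
  3 1 1 1 (.dc 0 1 0 (.ct 0 1 1 1 1 (.ct 1 3 1 1 1 (.dc 1 3 0 (.lf 3 5 224)) (.ct 1 5 1 1 1 (.dc
  1 3 0 (.lf 3 6 224)) (.dc 1 3 1 (.lf 3 6 192)))) (.dc 1 3 0 (.lf 3 5 192)))) (.ct 1 3 1 1 1
  (.dc 1 3 0 (.ct 0 5 1 1 1 (.dc 0 1 0 (.lf 3 5 224)) (.dc 0 1 1 (.lf 3 11 224)))) (.ct 0 5 1 1 1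
  (.dc 0 1 0 (.ct 0 1 1 1 1 (.ct 1 5 1 1 1 (.dc 1 3 0 (.lf 3 6 224)) (.dc 1 3 1 (.lf 3 6 192)))
  (.dc 1 3 0 (.lf 3 5 240)))) (.dc 0 1 1 (.ct 1 5 1 1 1 (.dc 1 3 0 (.lf 3 11 208)) (.dc 1 3 1
  (.lf 3 11 192))))))))))) (.dc 2 7 1 (.dc 2 15 1 (.ct 1 4 1 1 1 (.dc 1 3 0 (.ct 0 3 1 1 1 (.dc 0
  1 0 (.lf 3 5 208)) (.dc 0 1 1 (.lf 3 11 208)))) (.ct 1 5 1 1 1 (.dc 1 3 0 (.ct 0 3 1 1 1 (.dc 0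
  1 0 (.lf 3 5 224)) (.dc 0 1 1 (.lf 3 11 224)))) (.ct 0 3 1 1 1 (.dc 0 1 0 (.ct 0 1 1 1 1 (.ct 1
  3 1 1 1 (.dc 1 3 0 (.lf 3 6 208)) (.dc 1 3 1 (.lf 3 5 208))) (.dc 1 3 0 (.lf 3 5 224)))) (.dc 0
  1 1 (.ct 1 3 1 1 1 (.dc 1 3 0 (.lf 3 11 224)) (.dc 1 3 1 (.lf 3 11 192)))))))))))) (.dc 2 7 1
  (.dc 2 15 1 (.ct 3 4 1 1 1 (.dc 0 1 1 (.dc 0 2 1 (.ct 1 3 1 1 1 (.dc 1 3 0 (.lf 3 9 176)) (.dc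
  1 3 1 (.lf 3 9 144))))) (.dc 0 2 0 (.ct 1 4 1 1 1 (.dc 1 3 0 (.ct 0 3 1 1 1 (.dc 0 1 0 (.lf 3 5
  192)) (.dc 0 1 1 (.lf 3 11 192)))) (.ct 0 3 1 1 1 (.dc 0 1 0 (.ct 0 1 1 1 1 (.ct 1 3 1 1 1 (.dc
  1 3 0 (.lf 3 6 176)) (.dc 1 3 1 (.lf 3 5 176))) (.dc 1 3 0 (.lf 3 5 192)))) (.dc 0 1 1 (.ct 1 3
  1 1 1 (.dc 1 3 0 (.lf 3 11 192)) (.dc 1 3 1 (.lf 3 11 160)))))))))))))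

theorem dt131 : le (run cls4 4 tr131 [[1, 0, 0, 0, 1, 0, 0], [1, 1, 0, 0, 1, 1, 0], [2, 2, 1,
  0, 3, 1, 1], [2, 2, 2, 1, 3, 1, 1], [1, 1, 0, 0, 2, 0, 0], [0, 0, 0, 0, 1, 1, 0], [1, 1, 0, 0,
  2, 1, 1]] 140187732015609 [62, 62, 74, 122, 56, 152, 182]) 17510783082 = true := by
  decide +kernel

/-- data -/
noncomputable def tr132 : Ct := (.dc 0 2 0 (.dc 0 10 0 (.ct 4 5 1 1 1 (.ct 0 2 1 1 1 (.dc 0 1 0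
  (.dc 0 9 0 (.ct 0 5 1 1 1 (.ct 2 5 1 1 1 (.ct 3 5 1 1 1 (.dc 2 7 0 (.ct 1 3 1 1 1 (.dc 1 3 0
  (.ct 1 5 1 1 1 (.ct 3 5 1 1 1 (.dc 2 15 0 (.lf 3 6 160)) (.dc 2 15 1 (.lf 3 5 192))) (.dc 2 15
  1 (.lf 3 5 192)))) (.dc 1 3 1 (.ct 3 5 1 1 1 (.dc 2 15 0 (.lf 3 8 160)) (.dc 2 15 1 (.lf 3 8
  176)))))) (.dc 2 7 1 (.dc 2 15 1 (.ct 1 3 1 1 1 (.dc 1 3 0 (.lf 3 5 192)) (.ct 1 5 1 1 1 (.dc 1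
  3 0 (.lf 3 6 208)) (.dc 1 3 1 (.lf 3 7 176))))))) (.dc 2 7 1 (.dc 2 15 1 (.ct 1 3 1 1 1 (.dc 1
  3 0 (.lf 3 6 160)) (.dc 1 3 1 (.lf 3 8 160)))))) (.dc 2 7 1 (.dc 2 15 1 (.ct 1 3 1 1 1 (.dc 1 3
  0 (.lf 3 6 160)) (.dc 1 3 1 (.lf 3 9 160)))))))) (.dc 0 9 1 (.ct 2 5 1 1 1 (.ct 3 5 1 1 1 (.dc
  2 7 0 (.ct 0 3 1 1 1 (.dc 0 1 0 (.ct 0 1 1 1 1 (.ct 0 5 1 1 1 (.ct 1 3 1 1 1 (.dc 1 3 0 (.ct 1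
  5 1 1 1 (.ct 3 5 1 1 1 (.dc 2 15 0 (.lf 3 5 192)) (.dc 2 15 1 (.lf 3 6 224))) (.dc 2 15 1 (.lf
  3 5 224)))) (.dc 1 3 1 (.ct 3 5 1 1 1 (.dc 2 15 0 (.lf 3 7 176)) (.dc 2 15 1 (.lf 3 9 192)))))
  (.dc 2 15 1 (.ct 1 3 1 1 1 (.dc 1 3 0 (.lf 3 6 224)) (.dc 1 3 1 (.lf 3 8 192))))) (.dc 1 3 0
  (.ct 0 5 1 1 1 (.ct 1 5 1 1 1 (.ct 3 5 1 1 1 (.dc 2 15 0 (.lf 3 4 208)) (.dc 2 15 1 (.lf 3 5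
  240))) (.dc 2 15 1 (.lf 3 6 224))) (.dc 2 15 1 (.lf 3 5 208)))))) (.dc 0 1 1 (.ct 1 3 1 1 1
  (.dc 1 3 0 (.ct 1 5 1 1 1 (.ct 3 5 1 1 1 (.dc 2 15 0 (.lf 3 11 192)) (.dc 2 15 1 (.lf 3 12
  208))) (.dc 2 15 1 (.lf 3 12 192)))) (.dc 1 3 1 (.ct 3 5 1 1 1 (.dc 2 15 0 (.lf 3 10 176)) (.dc
  2 15 1 (.lf 3 11 176)))))))) (.dc 2 7 1 (.dc 2 15 1 (.ct 0 3 1 1 1 (.dc 0 1 0 (.ct 0 1 1 1 1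
  (.ct 1 3 1 1 1 (.dc 1 3 0 (.lf 3 7 208)) (.ct 1 5 1 1 1 (.dc 1 3 0 (.lf 3 7 208)) (.dc 1 3 1
  (.lf 3 7 176)))) (.dc 1 3 0 (.lf 3 6 192)))) (.ct 1 3 1 1 1 (.dc 1 3 0 (.ct 0 5 1 1 1 (.dc 0 1
  0 (.lf 3 6 208)) (.dc 0 1 1 (.lf 3 11 208)))) (.ct 0 5 1 1 1 (.dc 0 1 0 (.ct 0 1 1 1 1 (.ct 1 5
  1 1 1 (.dc 1 3 0 (.lf 3 7 192)) (.dc 1 3 1 (.lf 3 7 160))) (.dc 1 3 0 (.lf 3 6 208)))) (.dc 0 1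
  1 (.ct 1 5 1 1 1 (.dc 1 3 0 (.lf 3 12 176)) (.dc 1 3 1 (.lf 3 11 160)))))))))) (.dc 2 7 1 (.dc
  2 15 1 (.ct 0 3 1 1 1 (.dc 0 1 0 (.ct 0 1 1 1 1 (.ct 1 3 1 1 1 (.dc 1 3 0 (.lf 3 6 176)) (.dc 1
  3 1 (.lf 3 7 176))) (.dc 1 3 0 (.lf 3 6 192)))) (.dc 0 1 1 (.ct 1 3 1 1 1 (.dc 1 3 0 (.lf 3 11
  192)) (.dc 1 3 1 (.lf 3 11 176)))))))))) (.dc 2 7 1 (.dc 2 15 1 (.ct 0 2 1 1 1 (.dc 0 1 0 (.dc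
  0 9 0 (.ct 1 3 1 1 1 (.dc 1 3 0 (.lf 3 6 160)) (.dc 1 3 1 (.lf 3 8 160))))) (.dc 0 9 1 (.ct 0 3
  1 1 1 (.dc 0 1 0 (.ct 0 1 1 1 1 (.ct 1 3 1 1 1 (.dc 1 3 0 (.lf 3 5 176)) (.dc 1 3 1 (.lf 3 6
  176))) (.dc 1 3 0 (.lf 3 5 192)))) (.dc 0 1 1 (.ct 1 3 1 1 1 (.dc 1 3 0 (.lf 3 11 192)) (.dc 1
  3 1 (.lf 3 11 176))))))))))))

theorem dt132 : le (run cls4 4 tr132 [[1, 0, 0, 0, 1, 0, 0], [1, 1, 0, 0, 1, 1, 0], [1, 1, 1,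
  0, 1, 1, 1], [2, 2, 2, 1, 3, 1, 1], [2, 2, 1, 0, 3, 1, 1], [0, 0, 0, 0, 1, 1, 0], [1, 1, 0, 0,
  2, 1, 1]] 140187732015609 [62, 62, 74, 122, 56, 152, 182]) 89877448695 = true := by
  decide +kernel

/-- data -/
noncomputable def tr133 : Ct := (.dc 2 7 1 (.dc 2 11 1 (.dc 2 15 1 (.ct 2 4 1 1 1 (.dc 0 9 1
  (.dc 0 10 1 (.ct 3 4 1 1 1 (.dc 0 1 1 (.dc 0 2 1 (.ct 1 3 1 1 1 (.dc 2 3 0 (.ct 3 5 1 1 1 (.dc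
  1 3 1 (.lf 3 9 160)) (.dc 1 3 0 (.lf 3 9 176)))) (.dc 1 3 1 (.dc 2 3 1 (.lf 3 7 160)))))) (.dc
  0 2 0 (.ct 1 4 1 1 1 (.dc 2 3 0 (.ct 4 5 1 1 1 (.ct 0 3 1 1 1 (.dc 0 1 0 (.ct 0 5 1 1 1 (.ct 3
  5 1 1 1 (.dc 1 3 1 (.lf 3 6 176)) (.dc 1 3 0 (.lf 3 6 176))) (.dc 1 3 0 (.lf 3 6 192)))) (.dc 0
  1 1 (.ct 3 5 1 1 1 (.dc 1 3 1 (.lf 3 11 160)) (.dc 1 3 0 (.lf 3 11 192))))) (.dc 1 3 0 (.ct 0 3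
  1 1 1 (.dc 0 1 0 (.lf 3 5 208)) (.dc 0 1 1 (.lf 3 11 208)))))) (.ct 1 3 1 1 1 (.dc 2 3 0 (.ct 0
  1 1 1 1 (.dc 0 1 0 (.ct 3 5 1 1 1 (.dc 1 3 1 (.lf 3 5 208)) (.dc 1 3 0 (.lf 3 6 208)))) (.ct 0
  3 1 1 1 (.dc 0 1 0 (.ct 0 5 1 1 1 (.ct 3 5 1 1 1 (.dc 1 3 1 (.lf 3 5 176)) (.dc 1 3 0 (.lf 3 6
  176))) (.dc 1 3 0 (.lf 3 6 208)))) (.dc 0 1 1 (.ct 3 5 1 1 1 (.dc 1 3 1 (.lf 3 11 176)) (.dc 1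
  3 0 (.lf 3 11 208))))))) (.dc 1 3 1 (.dc 2 3 1 (.ct 0 3 1 1 1 (.dc 0 1 0 (.lf 3 10 208)) (.dc 0
  1 1 (.lf 3 8 176))))))))))) (.dc 0 2 0 (.dc 0 10 0 (.ct 0 2 1 1 1 (.dc 0 1 0 (.dc 0 9 0 (.ct 1
  3 1 1 1 (.dc 2 3 0 (.ct 3 5 1 1 1 (.dc 1 3 1 (.lf 3 6 192)) (.dc 1 3 0 (.lf 3 6 192)))) (.dc 1
  3 1 (.dc 2 3 1 (.lf 3 10 176)))))) (.dc 0 9 1 (.ct 1 3 1 1 1 (.dc 2 3 0 (.ct 0 1 1 1 1 (.dc 0 1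
  0 (.ct 3 5 1 1 1 (.dc 1 3 1 (.lf 3 5 192)) (.dc 1 3 0 (.lf 3 6 192)))) (.ct 0 3 1 1 1 (.dc 0 1
  0 (.ct 0 5 1 1 1 (.ct 3 5 1 1 1 (.dc 1 3 1 (.lf 3 6 176)) (.dc 1 3 0 (.lf 3 6 176))) (.dc 1 3 0
  (.lf 3 6 208)))) (.dc 0 1 1 (.ct 3 5 1 1 1 (.dc 1 3 1 (.lf 3 11 176)) (.dc 1 3 0 (.lf 3 11
  208))))))) (.dc 1 3 1 (.dc 2 3 1 (.ct 0 3 1 1 1 (.dc 0 1 0 (.lf 3 10 192)) (.dc 0 1 1 (.lf 3 8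
  160))))))))))))))

theorem dt133 : le (run cls4 4 tr133 [[1, 0, 0, 0, 1, 0, 0], [1, 1, 0, 0, 0, 0, 0], [1, 1, 1,
  0, 1, 1, 1], [2, 2, 2, 1, 3, 1, 1], [1, 1, 0, 0, 2, 0, 0], [1, 1, 0, 0, 1, 1, 0], [1, 1, 0, 0,
  2, 1, 1]] 131357279255033 [62, 62, 74, 122, 56, 152, 182]) 86480741765 = true := by
  decide +kernel

end Pool.Agent.Work.MP_122e00_nt.Sharp.Cx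

end

section

set_option autoImplicit false

set_option maxRecDepth 100000

/-!
# The certificate: data
-/

namespace Pool.Agent.Work.MP_122e00_nt.Sharp.Cx

/-- data -/
noncomputable def tr134 : Ct := (.dc 1 7 0 (.dc 2 7 0 (.ct 3 6 1 1 1 (.dc 1 15 0 (.dc 2 15 0
  (.ct 0 2 1 1 1 (.dc 0 1 0 (.ct 1 4 1 1 1 (.dc 0 12 1 (.lf 3 8 192)) (.dc 0 12 0 (.lf 3 8
  192)))) (.ct 0 3 1 1 1 (.dc 0 1 0 (.ct 1 4 1 1 1 (.dc 0 12 1 (.lf 3 8 224)) (.dc 0 12 0 (.lf 3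
  7 208)))) (.dc 0 1 1 (.ct 1 4 1 1 1 (.dc 0 12 1 (.lf 3 11 208)) (.dc 0 12 0 (.lf 3 11
  208)))))))) (.dc 1 15 1 (.ct 0 2 1 1 1 (.dc 0 1 0 (.ct 1 4 1 1 1 (.dc 0 12 1 (.ct 3 5 1 1 1
  (.dc 2 15 0 (.lf 3 8 192)) (.dc 2 15 1 (.lf 3 10 192)))) (.dc 0 12 0 (.ct 3 5 1 1 1 (.dc 2 15 0
  (.lf 3 8 192)) (.dc 2 15 1 (.lf 3 10 192)))))) (.ct 0 6 1 1 1 (.dc 0 1 0 (.ct 1 4 1 1 1 (.dc 0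
  12 1 (.ct 3 5 1 1 1 (.dc 2 15 0 (.lf 3 8 224)) (.dc 2 15 1 (.lf 3 10 224)))) (.dc 0 12 0 (.ct 3
  5 1 1 1 (.dc 2 15 0 (.lf 3 7 224)) (.dc 2 15 1 (.lf 3 9 224)))))) (.ct 1 4 1 1 1 (.dc 0 12 1
  (.ct 0 3 1 1 1 (.dc 0 1 0 (.ct 0 5 1 1 1 (.ct 3 5 1 1 1 (.dc 2 15 0 (.lf 3 7 224)) (.dc 2 15 1
  (.lf 3 10 224))) (.dc 2 15 1 (.lf 3 9 224)))) (.dc 0 1 1 (.ct 3 5 1 1 1 (.dc 2 15 0 (.lf 3 11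
  224)) (.dc 2 15 1 (.lf 3 13 224)))))) (.dc 0 12 0 (.ct 0 3 1 1 1 (.dc 0 1 0 (.ct 0 5 1 1 1 (.ct
  3 5 1 1 1 (.dc 2 15 0 (.lf 3 6 224)) (.dc 2 15 1 (.lf 3 9 224))) (.dc 2 15 1 (.lf 3 8 224))))
  (.dc 0 1 1 (.ct 3 5 1 1 1 (.dc 2 15 0 (.lf 3 11 208)) (.dc 2 15 1 (.lf 3 12 224)))))))))))))

theorem dt134 : le (run cls4 4 tr134 [[1, 0, 0, 0, 1, 0, 0], [1, 1, 0, 0, 2, 1, 1], [2, 2, 2,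
  1, 7, 3, 3], [1, 1, 1, 1, 2, 1, 1], [1, 1, 1, 1, 4, 1, 1], [0, 0, 0, 0, 1, 1, 0], [0, 0, 0, 0,
  2, 1, 1]] 140185576665085 [89, 89, 113, 113, 29, 203, 203]) 186065623792 = true := by
  decide +kernel

/-- data -/
noncomputable def tr135 : Ct := (.dc 1 7 0 (.dc 2 7 0 (.ct 0 6 1 1 1 (.dc 0 1 0 (.ct 1 4 1 1 1
  (.dc 0 12 1 (.ct 2 5 1 1 1 (.ct 3 5 1 1 1 (.dc 2 15 0 (.lf 3 8 208)) (.dc 2 15 1 (.lf 3 10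
  208))) (.dc 2 15 1 (.lf 3 10 208)))) (.dc 0 12 0 (.ct 2 5 1 1 1 (.ct 3 5 1 1 1 (.dc 2 15 0 (.lf
  3 7 208)) (.dc 2 15 1 (.lf 3 10 208))) (.dc 2 15 1 (.lf 3 10 208)))))) (.ct 1 4 1 1 1 (.dc 0 12
  1 (.ct 0 2 1 1 1 (.dc 0 1 0 (.ct 0 5 1 1 1 (.ct 2 5 1 1 1 (.ct 3 5 1 1 1 (.dc 2 15 0 (.lf 3 7
  208)) (.dc 2 15 1 (.lf 3 9 208))) (.dc 2 15 1 (.lf 3 10 208))) (.dc 2 15 1 (.lf 3 9 208))))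
  (.ct 2 5 1 1 1 (.ct 0 3 1 1 1 (.dc 0 1 0 (.ct 0 5 1 1 1 (.ct 3 5 1 1 1 (.dc 2 15 0 (.lf 3 7
  192)) (.dc 2 15 1 (.lf 3 9 192))) (.dc 2 15 1 (.lf 3 9 192)))) (.dc 0 1 1 (.ct 3 5 1 1 1 (.dc 2
  15 0 (.lf 3 11 192)) (.dc 2 15 1 (.lf 3 13 192))))) (.dc 2 15 1 (.ct 0 3 1 1 1 (.dc 0 1 0 (.lf
  3 8 208)) (.dc 0 1 1 (.lf 3 13 208))))))) (.dc 0 12 0 (.ct 0 2 1 1 1 (.dc 0 1 0 (.ct 0 5 1 1 1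
  (.ct 2 5 1 1 1 (.ct 3 5 1 1 1 (.dc 2 15 0 (.lf 3 6 208)) (.dc 2 15 1 (.lf 3 9 208))) (.dc 2 15
  1 (.lf 3 9 208))) (.dc 2 15 1 (.lf 3 8 208)))) (.ct 2 5 1 1 1 (.ct 0 3 1 1 1 (.dc 0 1 0 (.ct 0
  5 1 1 1 (.ct 3 5 1 1 1 (.dc 2 15 0 (.lf 3 6 192)) (.dc 2 15 1 (.lf 3 8 192))) (.dc 2 15 1 (.lf
  3 7 192)))) (.dc 0 1 1 (.ct 3 5 1 1 1 (.dc 2 15 0 (.lf 3 11 192)) (.dc 2 15 1 (.lf 3 12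
  192))))) (.dc 2 15 1 (.ct 0 3 1 1 1 (.dc 0 1 0 (.lf 3 7 208)) (.dc 0 1 1 (.lf 3 12
  208)))))))))))

theorem dt135 : le (run cls4 4 tr135 [[1, 0, 0, 0, 1, 0, 0], [1, 1, 0, 0, 2, 1, 1], [2, 2, 2,
  1, 5, 2, 2], [1, 1, 1, 1, 2, 1, 1], [1, 1, 1, 1, 4, 1, 1], [0, 0, 0, 0, 1, 1, 0], [2, 2, 2, 1,
  7, 3, 3]] 140187724148733 [90, 90, 114, 114, 36, 204, 210]) 393214882854 = true := by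
  decide +kernel

/-- data -/
noncomputable def tr136 : Ct := (.dc 0 1 0 (.ct 0 5 1 1 1 (.ct 3 5 1 1 1 (.ct 5 6 1 1 1 (.dc 2
  15 1 (.ct 1 4 1 1 1 (.dc 0 12 1 (.ct 1 2 1 1 1 (.ct 2 4 1 1 1 (.dc 1 7 0 (.lf 3 8 176)) (.dc 1
  7 1 (.lf 3 7 208))) (.dc 1 7 0 (.lf 3 9 176)))) (.dc 0 12 0 (.ct 2 4 1 1 1 (.dc 1 7 0 (.lf 3 7
  176)) (.dc 1 7 1 (.lf 3 7 208)))))) (.ct 1 4 1 1 1 (.dc 0 12 1 (.ct 1 2 1 1 1 (.ct 1 5 1 1 1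
  (.ct 2 4 1 1 1 (.dc 1 7 0 (.ct 2 5 1 1 1 (.dc 2 15 0 (.lf 3 7 224)) (.dc 2 15 1 (.lf 3 8
  224)))) (.dc 1 7 1 (.ct 2 5 1 1 1 (.ct 4 5 1 1 1 (.dc 2 15 0 (.lf 3 5 224)) (.dc 2 15 1 (.lf 3
  7 224))) (.dc 2 15 1 (.lf 3 7 208))))) (.dc 2 15 1 (.ct 2 4 1 1 1 (.dc 1 7 0 (.lf 3 8 192))
  (.dc 1 7 1 (.lf 3 7 208))))) (.dc 1 7 0 (.ct 2 5 1 1 1 (.dc 2 15 0 (.lf 3 7 192)) (.dc 2 15 1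
  (.lf 3 8 192)))))) (.dc 0 12 0 (.ct 2 4 1 1 1 (.dc 1 7 0 (.ct 2 5 1 1 1 (.dc 2 15 0 (.lf 3 6
  192)) (.dc 2 15 1 (.lf 3 7 192)))) (.dc 1 7 1 (.ct 2 5 1 1 1 (.ct 4 5 1 1 1 (.dc 2 15 0 (.lf 3
  5 192)) (.dc 2 15 1 (.lf 3 7 192))) (.dc 2 15 1 (.lf 3 6 208)))))))) (.dc 2 15 1 (.ct 1 4 1 1 1
  (.dc 0 12 1 (.ct 1 2 1 1 1 (.ct 2 4 1 1 1 (.dc 1 7 0 (.lf 3 9 160)) (.dc 1 7 1 (.lf 3 8 192)))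
  (.dc 1 7 0 (.lf 3 9 160)))) (.dc 0 12 0 (.ct 2 4 1 1 1 (.dc 1 7 0 (.lf 3 8 160)) (.dc 1 7 1
  (.lf 3 7 192))))))) (.dc 2 15 1 (.ct 1 4 1 1 1 (.dc 0 12 1 (.ct 1 2 1 1 1 (.ct 2 4 1 1 1 (.dc 1
  7 0 (.lf 3 9 160)) (.dc 1 7 1 (.lf 3 7 192))) (.dc 1 7 0 (.lf 3 9 160)))) (.dc 0 12 0 (.ct 2 4
  1 1 1 (.dc 1 7 0 (.lf 3 7 160)) (.dc 1 7 1 (.lf 3 7 192))))))))

theorem dt136 : le (run cls4 4 tr136 [[2, 1, 1, 1, 3, 1, 1], [1, 1, 0, 0, 2, 1, 1], [2, 2, 2,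
  1, 4, 2, 1], [1, 1, 1, 1, 2, 1, 1], [1, 1, 1, 1, 4, 1, 1], [0, 0, 0, 0, 1, 1, 0], [2, 2, 2, 1,
  5, 2, 2]] 140737479962621 [90, 90, 114, 114, 36, 204, 210]) 1215306392353 = true := by
  decide +kernel

/-- data -/
noncomputable def tr137 : Ct := (.dc 0 1 0 (.ct 0 5 1 1 1 (.ct 5 6 1 1 1 (.dc 2 15 1 (.ct 1 4 1
  1 1 (.dc 0 12 1 (.ct 1 2 1 1 1 (.ct 2 4 1 1 1 (.dc 1 7 0 (.lf 3 9 176)) (.dc 1 7 1 (.lf 3 8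
  208))) (.dc 1 7 0 (.lf 3 10 176)))) (.dc 0 12 0 (.ct 2 4 1 1 1 (.dc 1 7 0 (.lf 3 6 176)) (.dc 1
  7 1 (.lf 3 5 208)))))) (.ct 1 4 1 1 1 (.dc 0 12 1 (.ct 1 2 1 1 1 (.ct 1 5 1 1 1 (.ct 2 4 1 1 1
  (.dc 1 7 0 (.ct 2 5 1 1 1 (.dc 2 15 0 (.lf 3 6 224)) (.dc 2 15 1 (.lf 3 9 224)))) (.dc 1 7 1
  (.ct 2 5 1 1 1 (.ct 4 5 1 1 1 (.dc 2 15 0 (.lf 3 4 224)) (.dc 2 15 1 (.lf 3 8 224))) (.dc 2 15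
  1 (.lf 3 8 208))))) (.dc 2 15 1 (.ct 2 4 1 1 1 (.dc 1 7 0 (.lf 3 9 192)) (.dc 1 7 1 (.lf 3 7
  208))))) (.dc 1 7 0 (.ct 2 5 1 1 1 (.dc 2 15 0 (.lf 3 6 192)) (.dc 2 15 1 (.lf 3 9 192))))))
  (.dc 0 12 0 (.ct 2 4 1 1 1 (.dc 1 7 0 (.ct 2 5 1 1 1 (.dc 2 15 0 (.lf 3 4 192)) (.dc 2 15 1
  (.lf 3 6 192)))) (.dc 1 7 1 (.ct 2 5 1 1 1 (.ct 4 5 1 1 1 (.dc 2 15 0 (.lf 3 4 192)) (.dc 2 15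
  1 (.lf 3 5 192))) (.dc 2 15 1 (.lf 3 5 208)))))))) (.dc 2 15 1 (.ct 1 4 1 1 1 (.dc 0 12 1 (.ct
  1 2 1 1 1 (.ct 2 4 1 1 1 (.dc 1 7 0 (.lf 3 10 176)) (.dc 1 7 1 (.lf 3 8 208))) (.dc 1 7 0 (.lf
  3 10 176)))) (.dc 0 12 0 (.ct 2 4 1 1 1 (.dc 1 7 0 (.lf 3 5 176)) (.dc 1 7 1 (.lf 3 5
  208))))))))

theorem dt137 : le (run cls4 4 tr137 [[3, 2, 2, 1, 6, 2, 2], [1, 1, 0, 0, 2, 1, 1], [2, 2, 2,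
  1, 4, 2, 1], [2, 1, 1, 1, 4, 2, 1], [1, 1, 1, 1, 4, 1, 1], [0, 0, 0, 0, 1, 1, 0], [2, 2, 2, 1,
  5, 2, 2]] 140737479962621 [90, 90, 114, 114, 36, 204, 210]) 553940514224 = true := by
  decide +kernel

end Pool.Agent.Work.MP_122e00_nt.Sharp.Cx

end
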