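import Pool.Agent.Work.MP_122e00_nt.Bd.B03

/-! Bundle of small proof modules (one section per former module). -/

section

set_option autoImplicit false

set_option maxRecDepth 100000

/-!
# The certificate: data
-/

namespace Pool.Agent.Work.MP_122e00_nt.Sharp.Cx

/-- data -/
noncomputable def tr138 : Ct := (.ct 5 6 1 1 1 (.dc 2 15 1 (.ct 0 2 1 1 1 (.dc 0 1 0 (.ct 0 4 1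
  1 1 (.ct 0 1 1 1 1 (.ct 1 4 1 1 1 (.dc 0 12 1 (.ct 1 2 1 1 1 (.ct 2 4 1 1 1 (.dc 1 7 0 (.lf 3
  10 192)) (.dc 1 7 1 (.lf 3 8 208))) (.dc 1 7 0 (.lf 3 10 192)))) (.dc 0 12 0 (.ct 2 4 1 1 1
  (.dc 1 7 0 (.lf 3 5 192)) (.dc 1 7 1 (.lf 3 5 208))))) (.dc 0 12 1 (.ct 2 4 1 1 1 (.dc 1 7 0
  (.lf 3 9 224)) (.dc 1 7 1 (.lf 3 9 256))))) (.dc 1 7 1 (.ct 1 4 1 1 1 (.dc 0 12 1 (.lf 3 8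
  256)) (.dc 0 12 0 (.lf 3 6 208)))))) (.dc 0 1 1 (.ct 1 4 1 1 1 (.dc 0 12 1 (.ct 1 2 1 1 1 (.ct
  2 4 1 1 1 (.dc 1 7 0 (.lf 3 13 224)) (.dc 1 7 1 (.lf 3 13 224))) (.dc 1 7 0 (.lf 3 13 192))))
  (.dc 0 12 0 (.ct 2 4 1 1 1 (.dc 1 7 0 (.lf 3 12 192)) (.dc 1 7 1 (.lf 3 12 192)))))))) (.ct 1 4
  1 1 1 (.dc 0 12 1 (.ct 1 2 1 1 1 (.ct 0 1 1 1 1 (.dc 0 1 0 (.ct 0 5 1 1 1 (.ct 1 5 1 1 1 (.ct 2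
  4 1 1 1 (.dc 1 7 0 (.ct 2 5 1 1 1 (.dc 2 15 0 (.lf 3 6 240)) (.dc 2 15 1 (.lf 3 10 240)))) (.dc
  1 7 1 (.ct 2 5 1 1 1 (.ct 4 5 1 1 1 (.dc 2 15 0 (.lf 3 3 240)) (.dc 2 15 1 (.lf 3 9 240))) (.dc
  2 15 1 (.lf 3 9 240))))) (.dc 2 15 1 (.ct 2 4 1 1 1 (.dc 1 7 0 (.lf 3 11 208)) (.dc 1 7 1 (.lf
  3 9 240))))) (.dc 2 15 1 (.ct 2 4 1 1 1 (.dc 1 7 0 (.lf 3 10 208)) (.dc 1 7 1 (.lf 3 8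
  240)))))) (.ct 1 5 1 1 1 (.ct 0 2 1 1 1 (.dc 0 1 0 (.ct 0 4 1 1 1 (.ct 0 5 1 1 1 (.ct 2 4 1 1 1
  (.dc 1 7 0 (.ct 2 5 1 1 1 (.dc 2 15 0 (.lf 3 5 240)) (.dc 2 15 1 (.lf 3 9 256)))) (.dc 1 7 1
  (.ct 2 5 1 1 1 (.ct 4 5 1 1 1 (.dc 2 15 0 (.lf 3 4 256)) (.dc 2 15 1 (.lf 3 8 256))) (.dc 2 15
  1 (.lf 3 9 224))))) (.dc 2 15 1 (.ct 2 4 1 1 1 (.dc 1 7 0 (.lf 3 8 256)) (.dc 1 7 1 (.lf 3 9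
  256))))) (.dc 1 7 1 (.ct 0 5 1 1 1 (.ct 2 5 1 1 1 (.ct 4 5 1 1 1 (.dc 2 15 0 (.lf 3 4 240))
  (.dc 2 15 1 (.lf 3 9 272))) (.dc 2 15 1 (.lf 3 10 272))) (.dc 2 15 1 (.lf 3 9 272)))))) (.dc 0
  1 1 (.ct 2 4 1 1 1 (.dc 1 7 0 (.ct 2 5 1 1 1 (.dc 2 15 0 (.lf 3 11 208)) (.dc 2 15 1 (.lf 3 13
  240)))) (.dc 1 7 1 (.ct 2 5 1 1 1 (.ct 4 5 1 1 1 (.dc 2 15 0 (.lf 3 11 224)) (.dc 2 15 1 (.lf 3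
  13 256))) (.dc 2 15 1 (.lf 3 13 256))))))) (.dc 2 15 1 (.ct 0 2 1 1 1 (.dc 0 1 0 (.ct 0 4 1 1 1
  (.ct 2 4 1 1 1 (.dc 1 7 0 (.lf 3 9 240)) (.dc 1 7 1 (.lf 3 9 272))) (.dc 1 7 1 (.lf 3 9 272))))
  (.dc 0 1 1 (.ct 2 4 1 1 1 (.dc 1 7 0 (.lf 3 13 240)) (.dc 1 7 1 (.lf 3 13 240)))))))) (.dc 1 7
  0 (.ct 0 2 1 1 1 (.dc 0 1 0 (.ct 0 5 1 1 1 (.ct 2 5 1 1 1 (.dc 2 15 0 (.lf 3 6 208)) (.dc 2 15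
  1 (.lf 3 11 208))) (.dc 2 15 1 (.lf 3 10 208)))) (.dc 0 1 1 (.ct 2 5 1 1 1 (.dc 2 15 0 (.lf 3
  11 208)) (.dc 2 15 1 (.lf 3 13 208)))))))) (.dc 0 12 0 (.ct 0 2 1 1 1 (.dc 0 1 0 (.ct 0 4 1 1 1
  (.ct 0 5 1 1 1 (.ct 2 4 1 1 1 (.dc 1 7 0 (.ct 2 5 1 1 1 (.dc 2 15 0 (.lf 3 4 208)) (.dc 2 15 1
  (.lf 3 4 208)))) (.dc 1 7 1 (.ct 2 5 1 1 1 (.ct 4 5 1 1 1 (.dc 2 15 0 (.lf 3 4 208)) (.dc 2 15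
  1 (.lf 3 5 208))) (.dc 2 15 1 (.lf 3 5 224))))) (.dc 2 15 1 (.ct 2 4 1 1 1 (.dc 1 7 0 (.lf 3 5
  208)) (.dc 1 7 1 (.lf 3 5 240))))) (.dc 1 7 1 (.ct 0 5 1 1 1 (.ct 2 5 1 1 1 (.ct 4 5 1 1 1 (.dc
  2 15 0 (.lf 3 4 224)) (.dc 2 15 1 (.lf 3 5 224))) (.dc 2 15 1 (.lf 3 6 208))) (.dc 2 15 1 (.lf
  3 6 208)))))) (.dc 0 1 1 (.ct 2 4 1 1 1 (.dc 1 7 0 (.ct 2 5 1 1 1 (.dc 2 15 0 (.lf 3 11 208))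
  (.dc 2 15 1 (.lf 3 12 208)))) (.dc 1 7 1 (.ct 2 5 1 1 1 (.ct 4 5 1 1 1 (.dc 2 15 0 (.lf 3 11
  208)) (.dc 2 15 1 (.lf 3 12 224))) (.dc 2 15 1 (.lf 3 12 192))))))))))

theorem dt138 : le (run cls4 4 tr138 [[1, 0, 0, 0, 1, 0, 0], [1, 1, 0, 0, 2, 1, 1], [2, 2, 2,
  1, 4, 2, 1], [2, 1, 1, 1, 4, 2, 1], [1, 1, 1, 1, 4, 1, 1], [0, 0, 0, 0, 1, 1, 0], [3, 2, 2, 1,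
  6, 2, 2]] 140737479962621 [90, 90, 114, 114, 36, 204, 210]) 200681169906 = true := by
  decide +kernel

/-- data -/
noncomputable def tr139 : Ct := (.dc 2 15 1 (.ct 0 6 1 1 1 (.dc 0 1 0 (.ct 1 4 1 1 1 (.dc 0 12
  1 (.ct 1 2 1 1 1 (.ct 2 4 1 1 1 (.dc 1 7 0 (.lf 3 9 176)) (.dc 1 7 1 (.lf 3 7 208))) (.dc 1 7 0
  (.lf 3 10 176)))) (.dc 0 12 0 (.ct 2 4 1 1 1 (.dc 1 7 0 (.lf 3 5 176)) (.dc 1 7 1 (.lf 3 5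
  208)))))) (.ct 0 2 1 1 1 (.dc 0 1 0 (.ct 0 4 1 1 1 (.ct 0 1 1 1 1 (.ct 1 4 1 1 1 (.dc 0 12 1
  (.ct 1 2 1 1 1 (.ct 2 4 1 1 1 (.dc 1 7 0 (.lf 3 10 192)) (.dc 1 7 1 (.lf 3 7 208))) (.dc 1 7 0
  (.lf 3 10 192)))) (.dc 0 12 0 (.ct 2 4 1 1 1 (.dc 1 7 0 (.lf 3 4 192)) (.dc 1 7 1 (.lf 3 5
  208))))) (.dc 0 12 1 (.ct 2 4 1 1 1 (.dc 1 7 0 (.lf 3 8 224)) (.dc 1 7 1 (.lf 3 8 256))))) (.dc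
  1 7 1 (.ct 1 4 1 1 1 (.dc 0 12 1 (.lf 3 8 256)) (.dc 0 12 0 (.lf 3 6 208)))))) (.dc 0 1 1 (.ct
  1 4 1 1 1 (.dc 0 12 1 (.ct 1 2 1 1 1 (.ct 2 4 1 1 1 (.dc 1 7 0 (.lf 3 13 224)) (.dc 1 7 1 (.lf
  3 13 224))) (.dc 1 7 0 (.lf 3 13 192)))) (.dc 0 12 0 (.ct 2 4 1 1 1 (.dc 1 7 0 (.lf 3 12 192))
  (.dc 1 7 1 (.lf 3 12 192)))))))))

theorem dt139 : le (run cls4 4 tr139 [[1, 0, 0, 0, 1, 0, 0], [1, 1, 0, 0, 2, 1, 1], [2, 2, 2,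
  1, 4, 2, 1], [2, 1, 1, 1, 3, 1, 1], [1, 1, 1, 1, 4, 1, 1], [2, 1, 1, 1, 4, 2, 1], [2, 2, 2, 1,
  5, 2, 2]] 140737479962621 [90, 90, 114, 114, 36, 204, 210]) 655239197166 = true := by
  decide +kernel

/-- data -/
noncomputable def tr140 : Ct := (.dc 2 15 1 (.ct 0 3 1 1 1 (.dc 0 1 0 (.ct 2 4 1 1 1 (.dc 2 7 0
  (.ct 1 2 1 1 1 (.dc 0 12 1 (.ct 4 5 1 1 1 (.dc 1 7 1 (.lf 3 7 224)) (.dc 1 7 0 (.lf 3 7 224))))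
  (.ct 1 4 1 1 1 (.dc 0 12 1 (.ct 1 5 1 1 1 (.ct 4 5 1 1 1 (.dc 1 7 1 (.lf 3 6 192)) (.dc 1 7 0
  (.lf 3 8 192))) (.dc 1 7 0 (.lf 3 8 192)))) (.dc 0 12 0 (.ct 4 5 1 1 1 (.dc 1 7 1 (.lf 3 7
  192)) (.dc 1 7 0 (.lf 3 7 192))))))) (.dc 1 7 1 (.dc 2 7 1 (.ct 1 4 1 1 1 (.dc 0 12 1 (.lf 3 6
  224)) (.dc 0 12 0 (.lf 3 8 192))))))) (.ct 2 4 1 1 1 (.dc 2 7 0 (.ct 0 6 1 1 1 (.dc 0 1 0 (.ct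
  1 2 1 1 1 (.dc 0 12 1 (.ct 4 5 1 1 1 (.dc 1 7 1 (.lf 3 7 240)) (.dc 1 7 0 (.lf 3 8 240)))) (.ct
  1 4 1 1 1 (.dc 0 12 1 (.ct 1 5 1 1 1 (.ct 4 5 1 1 1 (.dc 1 7 1 (.lf 3 6 208)) (.dc 1 7 0 (.lf 3
  9 208))) (.dc 1 7 0 (.lf 3 9 208)))) (.dc 0 12 0 (.ct 4 5 1 1 1 (.dc 1 7 1 (.lf 3 4 208)) (.dc
  1 7 0 (.lf 3 4 208))))))) (.ct 0 2 1 1 1 (.dc 0 1 0 (.ct 0 1 1 1 1 (.ct 1 2 1 1 1 (.dc 0 12 1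
  (.ct 4 5 1 1 1 (.dc 1 7 1 (.lf 3 8 224)) (.dc 1 7 0 (.lf 3 11 224)))) (.ct 1 4 1 1 1 (.dc 0 12
  1 (.ct 1 5 1 1 1 (.ct 4 5 1 1 1 (.dc 1 7 1 (.lf 3 9 192)) (.dc 1 7 0 (.lf 3 10 192))) (.dc 1 7
  0 (.lf 3 11 208)))) (.dc 0 12 0 (.ct 4 5 1 1 1 (.dc 1 7 1 (.lf 3 5 192)) (.dc 1 7 0 (.lf 3 5
  208)))))) (.dc 0 12 1 (.ct 4 5 1 1 1 (.dc 1 7 1 (.lf 3 9 224)) (.dc 1 7 0 (.lf 3 9 208))))))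
  (.ct 1 2 1 1 1 (.dc 0 12 1 (.ct 0 5 1 1 1 (.dc 0 1 0 (.ct 0 4 1 1 1 (.ct 4 5 1 1 1 (.dc 1 7 1
  (.lf 3 9 224)) (.dc 1 7 0 (.lf 3 9 208))) (.dc 1 7 1 (.lf 3 8 240)))) (.dc 0 1 1 (.ct 4 5 1 1 1
  (.dc 1 7 1 (.lf 3 13 208)) (.dc 1 7 0 (.lf 3 13 208)))))) (.ct 0 5 1 1 1 (.dc 0 1 0 (.ct 0 4 1
  1 1 (.ct 0 1 1 1 1 (.ct 1 4 1 1 1 (.dc 0 12 1 (.ct 1 5 1 1 1 (.ct 4 5 1 1 1 (.dc 1 7 1 (.lf 3 8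
  208)) (.dc 1 7 0 (.lf 3 10 192))) (.dc 1 7 0 (.lf 3 11 192)))) (.dc 0 12 0 (.ct 4 5 1 1 1 (.dc
  1 7 1 (.lf 3 5 208)) (.dc 1 7 0 (.lf 3 4 192))))) (.dc 0 12 1 (.ct 4 5 1 1 1 (.dc 1 7 1 (.lf 3
  9 256)) (.dc 1 7 0 (.lf 3 10 224))))) (.dc 1 7 1 (.ct 1 4 1 1 1 (.dc 0 12 1 (.lf 3 8 256)) (.dc
  0 12 0 (.lf 3 5 208)))))) (.dc 0 1 1 (.ct 1 4 1 1 1 (.dc 0 12 1 (.ct 1 5 1 1 1 (.ct 4 5 1 1 1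
  (.dc 1 7 1 (.lf 3 13 224)) (.dc 1 7 0 (.lf 3 13 224))) (.dc 1 7 0 (.lf 3 13 192)))) (.dc 0 12 0
  (.ct 4 5 1 1 1 (.dc 1 7 1 (.lf 3 12 192)) (.dc 1 7 0 (.lf 3 12 192))))))))))) (.dc 1 7 1 (.dc 2
  7 1 (.ct 0 2 1 1 1 (.dc 0 1 0 (.ct 1 4 1 1 1 (.dc 0 12 1 (.lf 3 8 224)) (.dc 0 12 0 (.lf 3 7
  192)))) (.ct 0 5 1 1 1 (.dc 0 1 0 (.ct 1 4 1 1 1 (.dc 0 12 1 (.lf 3 8 208)) (.dc 0 12 0 (.lf 3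
  7 192)))) (.ct 0 6 1 1 1 (.dc 0 1 0 (.ct 1 4 1 1 1 (.dc 0 12 1 (.lf 3 8 240)) (.dc 0 12 0 (.lf
  3 7 208)))) (.ct 0 4 1 1 1 (.dc 0 1 0 (.ct 0 1 1 1 1 (.ct 1 4 1 1 1 (.dc 0 12 1 (.lf 3 10 240))
  (.dc 0 12 0 (.lf 3 6 208))) (.dc 0 12 1 (.lf 3 9 240)))) (.dc 0 1 1 (.ct 1 4 1 1 1 (.dc 0 12 1
  (.lf 3 13 208)) (.dc 0 12 0 (.lf 3 12 208)))))))))))))

theorem dt140 : le (run cls4 4 tr140 [[1, 0, 0, 0, 1, 0, 0], [1, 1, 0, 0, 2, 1, 1], [2, 2, 2,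
  1, 3, 1, 1], [1, 1, 1, 1, 2, 1, 1], [1, 1, 1, 1, 4, 1, 1], [2, 2, 2, 1, 4, 2, 1], [2, 2, 2, 1,
  5, 2, 2]] 140187724148733 [90, 90, 114, 114, 36, 204, 210]) 1055000466748 = true := by
  decide +kernel

end Pool.Agent.Work.MP_122e00_nt.Sharp.Cx

end

section

set_option autoImplicit false

set_option maxRecDepth 100000

/-!
# The certificate: data
-/

namespace Pool.Agent.Work.MP_122e00_nt.Sharp.Cx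

/-- data -/
noncomputable def tr141 : Ct := (.dc 1 7 0 (.dc 2 7 0 (.ct 1 5 1 1 1 (.ct 0 2 1 1 1 (.dc 0 1 0
  (.ct 0 5 1 2 1 (.ct 2 5 1 2 1 (.ct 3 5 1 1 1 (.dc 2 15 0 (.lf 2 7 208)) (.dc 2 15 1 (.lf 2 8
  208))) (.dc 2 15 1 (.lf 2 8 240))) (.dc 2 15 1 (.lf 2 7 208)))) (.ct 2 5 1 2 1 (.ct 0 3 1 1 1
  (.dc 0 1 0 (.ct 0 5 1 1 1 (.ct 3 5 1 1 1 (.dc 2 15 0 (.lf 2 7 176)) (.dc 2 15 1 (.lf 2 9 176)))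
  (.dc 2 15 1 (.lf 2 8 176)))) (.dc 0 1 1 (.ct 3 5 1 1 1 (.dc 2 15 0 (.lf 2 10 192)) (.dc 2 15 1
  (.lf 2 12 192))))) (.dc 2 15 1 (.ct 0 3 1 1 1 (.dc 0 1 0 (.lf 2 8 176)) (.dc 0 1 1 (.lf 2 13
  176)))))) (.dc 2 15 1 (.ct 0 2 1 1 1 (.dc 0 1 0 (.lf 2 7 208)) (.ct 0 3 1 1 1 (.dc 0 1 0 (.lf 2
  7 176)) (.dc 0 1 1 (.lf 2 12 176))))))))

theorem dt141 : le (run cls4 4 tr141 [[1, 0, 0, 0, 1, 0, 0], [2, 2, 1, 1, 4, 1, 1], [3, 3, 3,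
  2, 7, 2, 2], [1, 1, 1, 1, 2, 1, 1], [1, 1, 1, 1, 3, 1, 0], [0, 0, 0, 0, 1, 1, 0], [1, 1, 1, 1,
  4, 1, 1]] 140187724152829 [118, 118, 118, 118, 40, 232, 238]) 999057432624 = true := by
  decide +kernel

/-- data -/
noncomputable def tr142 : Ct := (.ct 0 2 1 1 1 (.dc 0 1 0 (.ct 0 5 1 1 1 (.ct 2 5 1 1 1 (.ct 3
  5 1 1 1 (.ct 5 6 2 1 1 (.dc 2 15 1 (.lf 2 8 272)) (.dc 2 15 0 (.lf 2 8 240))) (.dc 2 15 1 (.lf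
  2 9 240))) (.dc 2 15 1 (.lf 2 9 224))) (.dc 2 15 1 (.lf 2 9 224)))) (.ct 2 5 1 1 1 (.ct 0 3 1 1
  1 (.dc 0 1 0 (.ct 0 5 1 1 1 (.ct 3 5 1 1 1 (.ct 5 6 2 1 1 (.dc 2 15 1 (.lf 2 8 256)) (.dc 2 15
  0 (.lf 2 8 224))) (.dc 2 15 1 (.lf 2 9 224))) (.dc 2 15 1 (.lf 2 9 224)))) (.ct 3 5 1 1 1 (.ct
  0 6 1 1 1 (.dc 0 1 0 (.ct 0 5 1 2 1 (.ct 5 6 2 1 1 (.dc 2 15 1 (.lf 2 10 240)) (.dc 2 15 0 (.lf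
  2 6 208))) (.dc 2 15 1 (.lf 2 9 208)))) (.dc 0 1 1 (.ct 5 6 2 1 1 (.dc 2 15 1 (.lf 2 12 176))
  (.dc 2 15 0 (.lf 2 10 176))))) (.dc 2 15 1 (.ct 0 6 1 1 1 (.dc 0 1 0 (.lf 2 10 224)) (.dc 0 1 1
  (.lf 2 12 192)))))) (.dc 2 15 1 (.ct 0 3 1 1 1 (.dc 0 1 0 (.lf 2 8 240)) (.ct 0 6 1 1 1 (.dc 0
  1 0 (.lf 2 11 240)) (.dc 0 1 1 (.lf 2 13 208)))))))

theorem dt142 : le (run cls4 4 tr142 [[1, 0, 0, 0, 1, 0, 0], [2, 2, 1, 1, 5, 2, 1], [2, 2, 2,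
  1, 4, 2, 1], [1, 1, 1, 1, 2, 1, 1], [1, 1, 1, 1, 3, 1, 0], [0, 0, 0, 0, 1, 1, 0], [3, 3, 3, 2,
  7, 2, 2]] 140737488355325 [120, 120, 120, 132, 54, 234, 252]) 580277779023 = true := by
  decide +kernel

/-- data -/
noncomputable def tr143 : Ct := (.dc 2 15 1 (.ct 0 2 1 1 1 (.dc 0 1 0 (.lf 2 8 208)) (.ct 0 3 1
  1 1 (.dc 0 1 0 (.lf 2 8 224)) (.ct 0 6 1 1 1 (.dc 0 1 0 (.lf 2 10 224)) (.dc 0 1 1 (.lf 2 13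
  192))))))

theorem dt143 : le (run cls4 4 tr143 [[1, 0, 0, 0, 1, 0, 0], [2, 2, 1, 1, 4, 1, 1], [2, 2, 2,
  1, 4, 2, 1], [1, 1, 1, 1, 2, 1, 1], [1, 1, 1, 1, 3, 1, 0], [2, 2, 1, 1, 5, 2, 1], [3, 3, 3, 2,
  7, 2, 2]] 140737488355325 [120, 120, 120, 132, 54, 234, 252]) 1211979680800 = true := by
  decide +kernel

end Pool.Agent.Work.MP_122e00_nt.Sharp.Cx

end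

section

set_option autoImplicit false

set_option maxRecDepth 100000

/-!
# The certificate: data
-/

namespace Pool.Agent.Work.MP_122e00_nt.Sharp.Cx

/-- data -/
noncomputable def tr144 : Ct := (.dc 2 15 1 (.ct 0 3 1 1 1 (.dc 0 1 0 (.ct 2 4 1 1 1 (.dc 2 7 0
  (.lf 2 8 208)) (.dc 2 7 1 (.lf 2 6 208)))) (.ct 0 5 1 1 1 (.dc 0 1 0 (.ct 2 4 1 1 1 (.dc 2 7 0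
  (.lf 2 9 224)) (.dc 2 7 1 (.lf 2 7 224)))) (.ct 0 6 1 1 1 (.dc 0 1 0 (.ct 2 4 1 1 1 (.dc 2 7 0
  (.lf 2 9 192)) (.dc 2 7 1 (.lf 2 6 192)))) (.ct 0 2 1 1 1 (.dc 0 1 0 (.ct 0 4 1 1 1 (.ct 2 4 1
  1 1 (.dc 2 7 0 (.lf 2 9 192)) (.dc 2 7 1 (.lf 2 8 192))) (.dc 2 7 1 (.lf 2 8 224)))) (.dc 0 1 1
  (.ct 2 4 1 1 1 (.dc 2 7 0 (.lf 2 12 192)) (.dc 2 7 1 (.lf 2 13 224)))))))))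

theorem dt144 : le (run cls4 4 tr144 [[1, 0, 0, 0, 1, 0, 0], [2, 2, 1, 1, 4, 1, 1], [2, 2, 2,
  1, 3, 1, 1], [1, 1, 1, 1, 2, 1, 1], [1, 1, 1, 1, 3, 1, 0], [2, 2, 2, 1, 4, 2, 1], [3, 3, 3, 2,
  7, 2, 2]] 140187732541437 [120, 120, 120, 132, 54, 234, 252]) 1427722501289 = true := by
  decide +kernel

/-- data -/
noncomputable def tr145 : Ct := (.dc 2 15 1 (.ct 2 6 1 1 1 (.dc 1 7 0 (.dc 2 7 0 (.ct 0 2 1 1 1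
  (.dc 0 1 0 (.lf 1 8 192)) (.ct 0 3 1 1 1 (.dc 0 1 0 (.lf 1 9 160)) (.dc 0 1 1 (.lf 1 12
  160)))))) (.dc 1 7 1 (.ct 0 3 1 1 1 (.dc 0 1 0 (.ct 2 5 1 1 1 (.dc 2 7 0 (.lf 1 9 192)) (.dc 2
  7 1 (.lf 1 9 192)))) (.ct 0 6 1 1 1 (.dc 0 1 0 (.ct 2 5 1 1 1 (.dc 2 7 0 (.lf 1 10 192)) (.dc 2
  7 1 (.lf 1 11 192)))) (.ct 0 2 1 1 1 (.dc 0 1 0 (.ct 0 5 1 1 1 (.ct 2 5 1 1 1 (.dc 2 7 0 (.lf 1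
  10 192)) (.dc 2 7 1 (.lf 1 11 192))) (.dc 2 7 1 (.lf 1 11 208)))) (.dc 0 1 1 (.ct 2 5 1 1 1
  (.dc 2 7 0 (.lf 1 12 192)) (.dc 2 7 1 (.lf 1 12 208))))))))))

theorem dt145 : le (run cls4 4 tr145 [[1, 0, 0, 0, 1, 0, 0], [2, 2, 1, 1, 4, 1, 1], [2, 2, 2,
  1, 3, 1, 1], [1, 1, 1, 1, 2, 1, 1], [1, 1, 1, 1, 2, 0, 0], [1, 1, 1, 1, 3, 1, 0], [1, 1, 1, 1,
  4, 1, 1]] 140187724152829 [118, 118, 118, 118, 40, 232, 238]) 1788207975693 = true := by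
  decide +kernel

/-- data -/
noncomputable def tr146 : Ct := (.dc 0 1 0 (.ct 0 5 1 1 1 (.ct 3 5 1 1 1 (.ct 1 6 1 1 1 (.dc 0
  12 1 (.ct 1 2 1 1 1 (.ct 1 5 1 1 1 (.ct 2 6 1 1 1 (.dc 1 7 0 (.ct 2 5 1 1 1 (.dc 2 15 0 (.lf 3
  6 240)) (.dc 2 15 1 (.lf 3 7 240)))) (.dc 1 7 1 (.ct 2 5 1 1 1 (.ct 5 6 1 1 1 (.dc 2 15 1 (.lf
  3 6 240)) (.dc 2 15 0 (.lf 3 6 240))) (.dc 2 15 1 (.lf 3 6 208))))) (.dc 2 15 1 (.ct 2 6 1 1 1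
  (.dc 1 7 0 (.lf 3 7 208)) (.dc 1 7 1 (.lf 3 6 208))))) (.dc 1 7 0 (.ct 2 5 1 1 1 (.dc 2 15 0
  (.lf 3 6 208)) (.dc 2 15 1 (.lf 3 7 208)))))) (.dc 0 12 0 (.ct 2 6 1 1 1 (.dc 1 7 0 (.ct 2 5 1
  1 1 (.dc 2 15 0 (.lf 3 6 208)) (.dc 2 15 1 (.lf 3 7 208)))) (.dc 1 7 1 (.ct 2 5 1 1 1 (.ct 5 6
  1 1 1 (.dc 2 15 1 (.lf 3 8 208)) (.dc 2 15 0 (.lf 3 7 208))) (.dc 2 15 1 (.lf 3 7 192)))))))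
  (.dc 2 15 1 (.ct 1 6 1 1 1 (.dc 0 12 1 (.ct 1 2 1 1 1 (.ct 2 6 1 1 1 (.dc 1 7 0 (.lf 3 8 176))
  (.dc 1 7 1 (.lf 3 7 176))) (.dc 1 7 0 (.lf 3 8 192)))) (.dc 0 12 0 (.ct 2 6 1 1 1 (.dc 1 7 0
  (.lf 3 8 192)) (.dc 1 7 1 (.lf 3 8 176))))))) (.dc 2 15 1 (.ct 1 6 1 1 1 (.dc 0 12 1 (.ct 1 2 1
  1 1 (.ct 2 6 1 1 1 (.dc 1 7 0 (.lf 3 8 176)) (.dc 1 7 1 (.lf 3 6 176))) (.dc 1 7 0 (.lf 3 8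
  192)))) (.dc 0 12 0 (.ct 2 6 1 1 1 (.dc 1 7 0 (.lf 3 8 192)) (.dc 1 7 1 (.lf 3 8 176))))))))

theorem dt146 : le (run cls4 4 tr146 [[2, 1, 1, 1, 3, 1, 1], [1, 1, 0, 0, 2, 1, 1], [2, 2, 2,
  1, 4, 2, 1], [1, 1, 1, 1, 2, 1, 1], [2, 2, 1, 1, 5, 2, 1], [0, 0, 0, 0, 1, 1, 0], [1, 1, 1, 1,
  4, 1, 1]] 140737479962621 [90, 90, 114, 114, 36, 204, 210]) 1346886381189 = true := by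
  decide +kernel

end Pool.Agent.Work.MP_122e00_nt.Sharp.Cx

end

section

set_option autoImplicit false

set_option maxRecDepth 100000

/-!
# The certificate: data
-/

namespace Pool.Agent.Work.MP_122e00_nt.Sharp.Cx

/-- data -/
noncomputable def tr147 : Ct := (.ct 3 5 1 1 1 (.ct 1 6 1 1 1 (.dc 0 12 1 (.ct 1 2 1 1 1 (.ct 0
  1 1 1 1 (.dc 0 1 0 (.ct 0 5 1 1 1 (.ct 1 5 1 1 1 (.ct 2 6 1 1 1 (.dc 1 7 0 (.ct 2 5 1 1 1 (.dc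
  2 15 0 (.lf 3 5 272)) (.dc 2 15 1 (.lf 3 10 272)))) (.dc 1 7 1 (.ct 2 5 1 1 1 (.ct 5 6 1 1 1
  (.dc 2 15 1 (.lf 3 8 256)) (.dc 2 15 0 (.lf 3 4 256))) (.dc 2 15 1 (.lf 3 9 224))))) (.dc 2 15
  1 (.ct 2 6 1 1 1 (.dc 1 7 0 (.lf 3 10 240)) (.dc 1 7 1 (.lf 3 9 240))))) (.dc 2 15 1 (.ct 2 6 1
  1 1 (.dc 1 7 0 (.lf 3 9 240)) (.dc 1 7 1 (.lf 3 8 240)))))) (.ct 1 5 1 1 1 (.ct 0 2 1 1 1 (.dc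
  0 1 0 (.ct 0 6 1 1 1 (.ct 0 5 1 1 1 (.ct 2 6 1 1 1 (.dc 1 7 0 (.ct 2 5 1 1 1 (.dc 2 15 0 (.lf 3
  5 240)) (.dc 2 15 1 (.lf 3 9 256)))) (.dc 1 7 1 (.ct 2 5 1 1 1 (.ct 5 6 1 1 1 (.dc 2 15 1 (.lf
  3 7 240)) (.dc 2 15 0 (.lf 3 4 240))) (.dc 2 15 1 (.lf 3 7 208))))) (.dc 2 15 1 (.ct 2 6 1 1 1
  (.dc 1 7 0 (.lf 3 8 256)) (.dc 1 7 1 (.lf 3 7 224))))) (.dc 1 7 1 (.ct 0 5 1 1 1 (.ct 2 5 1 1 1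
  (.ct 5 6 1 1 1 (.dc 2 15 1 (.lf 3 8 256)) (.dc 2 15 0 (.lf 3 4 224))) (.dc 2 15 1 (.lf 3 9
  256))) (.dc 2 15 1 (.lf 3 7 256)))))) (.dc 0 1 1 (.ct 2 6 1 1 1 (.dc 1 7 0 (.ct 2 5 1 1 1 (.dc
  2 15 0 (.lf 3 11 208)) (.dc 2 15 1 (.lf 3 13 240)))) (.dc 1 7 1 (.ct 2 5 1 1 1 (.ct 5 6 1 1 1
  (.dc 2 15 1 (.lf 3 13 240)) (.dc 2 15 0 (.lf 3 11 208))) (.dc 2 15 1 (.lf 3 13 256))))))) (.dc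
  2 15 1 (.ct 0 2 1 1 1 (.dc 0 1 0 (.ct 0 6 1 1 1 (.ct 2 6 1 1 1 (.dc 1 7 0 (.lf 3 8 272)) (.dc 1
  7 1 (.lf 3 8 256))) (.dc 1 7 1 (.lf 3 7 256)))) (.dc 0 1 1 (.ct 2 6 1 1 1 (.dc 1 7 0 (.lf 3 13
  272)) (.dc 1 7 1 (.lf 3 13 256)))))))) (.dc 1 7 0 (.ct 0 2 1 1 1 (.dc 0 1 0 (.ct 0 5 1 1 1 (.ct
  2 5 1 1 1 (.dc 2 15 0 (.lf 3 5 240)) (.dc 2 15 1 (.lf 3 10 240))) (.dc 2 15 1 (.lf 3 9 240))))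
  (.dc 0 1 1 (.ct 2 5 1 1 1 (.dc 2 15 0 (.lf 3 11 224)) (.dc 2 15 1 (.lf 3 13 240)))))))) (.dc 0
  12 0 (.ct 0 2 1 1 1 (.dc 0 1 0 (.ct 0 6 1 1 1 (.ct 0 5 1 1 1 (.ct 2 6 1 1 1 (.dc 1 7 0 (.ct 2 5
  1 1 1 (.dc 2 15 0 (.lf 3 5 224)) (.dc 2 15 1 (.lf 3 6 240)))) (.dc 1 7 1 (.ct 2 5 1 1 1 (.ct 5
  6 1 1 1 (.dc 2 15 1 (.lf 3 7 240)) (.dc 2 15 0 (.lf 3 5 224))) (.dc 2 15 1 (.lf 3 6 224)))))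
  (.dc 2 15 1 (.ct 2 6 1 1 1 (.dc 1 7 0 (.lf 3 5 240)) (.dc 1 7 1 (.lf 3 6 240))))) (.dc 1 7 1
  (.ct 0 5 1 1 1 (.ct 2 5 1 1 1 (.ct 5 6 1 1 1 (.dc 2 15 1 (.lf 3 6 224)) (.dc 2 15 0 (.lf 3 5
  224))) (.dc 2 15 1 (.lf 3 6 192))) (.dc 2 15 1 (.lf 3 5 192)))))) (.dc 0 1 1 (.ct 2 6 1 1 1
  (.dc 1 7 0 (.ct 2 5 1 1 1 (.dc 2 15 0 (.lf 3 11 208)) (.dc 2 15 1 (.lf 3 12 224)))) (.dc 1 7 1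
  (.ct 2 5 1 1 1 (.ct 5 6 1 1 1 (.dc 2 15 1 (.lf 3 12 224)) (.dc 2 15 0 (.lf 3 11 208))) (.dc 2
  15 1 (.lf 3 12 192))))))))) (.dc 2 15 1 (.ct 0 2 1 1 1 (.dc 0 1 0 (.ct 0 6 1 1 1 (.ct 0 1 1 1 1
  (.ct 1 6 1 1 1 (.dc 0 12 1 (.ct 1 2 1 1 1 (.ct 2 6 1 1 1 (.dc 1 7 0 (.lf 3 9 208)) (.dc 1 7 1
  (.lf 3 7 208))) (.dc 1 7 0 (.lf 3 9 208)))) (.dc 0 12 0 (.ct 2 6 1 1 1 (.dc 1 7 0 (.lf 3 5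
  192)) (.dc 1 7 1 (.lf 3 5 208))))) (.dc 0 12 1 (.ct 2 6 1 1 1 (.dc 1 7 0 (.lf 3 8 240)) (.dc 1
  7 1 (.lf 3 8 240))))) (.dc 1 7 1 (.ct 1 6 1 1 1 (.dc 0 12 1 (.lf 3 7 240)) (.dc 0 12 0 (.lf 3 5
  208)))))) (.dc 0 1 1 (.ct 1 6 1 1 1 (.dc 0 12 1 (.ct 1 2 1 1 1 (.ct 2 6 1 1 1 (.dc 1 7 0 (.lf 3
  13 240)) (.dc 1 7 1 (.lf 3 13 240))) (.dc 1 7 0 (.lf 3 13 208)))) (.dc 0 12 0 (.ct 2 6 1 1 1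
  (.dc 1 7 0 (.lf 3 12 208)) (.dc 1 7 1 (.lf 3 12 208)))))))))

theorem dt147 : le (run cls4 4 tr147 [[1, 0, 0, 0, 1, 0, 0], [1, 1, 0, 0, 2, 1, 1], [2, 2, 2,
  1, 4, 2, 1], [2, 1, 1, 1, 3, 1, 1], [2, 2, 1, 1, 5, 2, 1], [0, 0, 0, 0, 1, 1, 0], [1, 1, 1, 1,
  4, 1, 1]] 140737479962621 [90, 90, 114, 114, 36, 204, 210]) 295460926925 = true := by
  decide +kernel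

/-- data -/
noncomputable def tr148 : Ct := (.dc 2 15 1 (.ct 0 3 1 1 1 (.dc 0 1 0 (.ct 1 6 1 1 1 (.dc 0 12
  1 (.ct 1 2 1 1 1 (.ct 2 6 1 1 1 (.dc 1 7 0 (.lf 3 6 176)) (.dc 1 7 1 (.lf 3 7 176))) (.dc 1 7 0
  (.lf 3 7 192)))) (.dc 0 12 0 (.ct 2 6 1 1 1 (.dc 1 7 0 (.lf 3 8 192)) (.dc 1 7 1 (.lf 3 8
  176)))))) (.ct 0 2 1 1 1 (.dc 0 1 0 (.ct 0 6 1 1 1 (.ct 0 1 1 1 1 (.ct 1 6 1 1 1 (.dc 0 12 1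
  (.ct 1 2 1 1 1 (.ct 2 6 1 1 1 (.dc 1 7 0 (.lf 3 9 208)) (.dc 1 7 1 (.lf 3 10 208))) (.dc 1 7 0
  (.lf 3 9 208)))) (.dc 0 12 0 (.ct 2 6 1 1 1 (.dc 1 7 0 (.lf 3 6 192)) (.dc 1 7 1 (.lf 3 6
  208))))) (.dc 0 12 1 (.ct 2 6 1 1 1 (.dc 1 7 0 (.lf 3 9 240)) (.dc 1 7 1 (.lf 3 9 240))))) (.dc
  1 7 1 (.ct 1 6 1 1 1 (.dc 0 12 1 (.lf 3 8 240)) (.dc 0 12 0 (.lf 3 6 208)))))) (.dc 0 1 1 (.ct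
  1 6 1 1 1 (.dc 0 12 1 (.ct 1 2 1 1 1 (.ct 2 6 1 1 1 (.dc 1 7 0 (.lf 3 13 240)) (.dc 1 7 1 (.lf
  3 13 240))) (.dc 1 7 0 (.lf 3 13 208)))) (.dc 0 12 0 (.ct 2 6 1 1 1 (.dc 1 7 0 (.lf 3 12 208))
  (.dc 1 7 1 (.lf 3 12 208)))))))))

theorem dt148 : le (run cls4 4 tr148 [[1, 0, 0, 0, 1, 0, 0], [1, 1, 0, 0, 2, 1, 1], [2, 2, 2,
  1, 4, 2, 1], [1, 1, 1, 1, 2, 1, 1], [2, 2, 1, 1, 4, 1, 1], [2, 2, 1, 1, 5, 2, 1], [1, 1, 1, 1,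
  4, 1, 1]] 140737479962621 [90, 90, 114, 114, 36, 204, 210]) 1160041574713 = true := by
  decide +kernel

/-- data -/
noncomputable def tr149 : Ct := (.dc 2 15 1 (.ct 2 6 1 1 1 (.dc 2 7 0 (.ct 0 3 1 1 1 (.dc 0 1 0
  (.ct 1 2 1 1 1 (.dc 0 12 1 (.ct 5 6 1 1 1 (.dc 1 7 0 (.lf 3 6 208)) (.dc 1 7 1 (.lf 3 7 208))))
  (.ct 1 6 1 1 1 (.dc 0 12 1 (.ct 1 5 1 1 1 (.ct 5 6 1 1 1 (.dc 1 7 0 (.lf 3 7 176)) (.dc 1 7 1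
  (.lf 3 7 176))) (.dc 1 7 0 (.lf 3 7 192)))) (.dc 0 12 0 (.ct 5 6 1 1 1 (.dc 1 7 0 (.lf 3 8
  192)) (.dc 1 7 1 (.lf 3 9 176))))))) (.ct 0 2 1 1 1 (.dc 0 1 0 (.ct 0 1 1 1 1 (.ct 1 2 1 1 1
  (.dc 0 12 1 (.ct 5 6 1 1 1 (.dc 1 7 0 (.lf 3 9 208)) (.dc 1 7 1 (.lf 3 9 208)))) (.ct 1 6 1 1 1
  (.dc 0 12 1 (.ct 1 5 1 1 1 (.ct 5 6 1 1 1 (.dc 1 7 0 (.lf 3 9 176)) (.dc 1 7 1 (.lf 3 10 176)))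
  (.dc 1 7 0 (.lf 3 9 192)))) (.dc 0 12 0 (.ct 5 6 1 1 1 (.dc 1 7 0 (.lf 3 6 192)) (.dc 1 7 1
  (.lf 3 7 176)))))) (.dc 0 12 1 (.ct 5 6 1 1 1 (.dc 1 7 0 (.lf 3 7 192)) (.dc 1 7 1 (.lf 3 7
  208)))))) (.ct 1 2 1 1 1 (.dc 0 12 1 (.ct 0 5 1 1 1 (.dc 0 1 0 (.ct 0 6 1 1 1 (.ct 5 6 1 1 1
  (.dc 1 7 0 (.lf 3 7 192)) (.dc 1 7 1 (.lf 3 7 208))) (.dc 1 7 1 (.lf 3 7 224)))) (.dc 0 1 1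
  (.ct 5 6 1 1 1 (.dc 1 7 0 (.lf 3 13 192)) (.dc 1 7 1 (.lf 3 13 208)))))) (.ct 0 5 1 1 1 (.dc 0
  1 0 (.ct 0 6 1 1 1 (.ct 0 1 1 1 1 (.ct 1 6 1 1 1 (.dc 0 12 1 (.ct 1 5 1 1 1 (.ct 5 6 1 1 1 (.dc
  1 7 0 (.lf 3 9 176)) (.dc 1 7 1 (.lf 3 10 208))) (.dc 1 7 0 (.lf 3 9 176)))) (.dc 0 12 0 (.ct 5
  6 1 1 1 (.dc 1 7 0 (.lf 3 6 176)) (.dc 1 7 1 (.lf 3 6 208))))) (.dc 0 12 1 (.ct 5 6 1 1 1 (.dc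
  1 7 0 (.lf 3 9 208)) (.dc 1 7 1 (.lf 3 9 240))))) (.dc 1 7 1 (.ct 1 6 1 1 1 (.dc 0 12 1 (.lf 3
  8 240)) (.dc 0 12 0 (.lf 3 6 208)))))) (.dc 0 1 1 (.ct 1 6 1 1 1 (.dc 0 12 1 (.ct 1 5 1 1 1
  (.ct 5 6 1 1 1 (.dc 1 7 0 (.lf 3 13 208)) (.dc 1 7 1 (.lf 3 13 208))) (.dc 1 7 0 (.lf 3 13
  176)))) (.dc 0 12 0 (.ct 5 6 1 1 1 (.dc 1 7 0 (.lf 3 12 176)) (.dc 1 7 1 (.lf 3 12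
  176))))))))))) (.dc 1 7 1 (.dc 2 7 1 (.ct 0 2 1 1 1 (.dc 0 1 0 (.ct 1 6 1 1 1 (.dc 0 12 1 (.lf
  3 6 192)) (.dc 0 12 0 (.lf 3 8 160)))) (.ct 0 3 1 1 1 (.dc 0 1 0 (.ct 1 6 1 1 1 (.dc 0 12 1
  (.lf 3 7 208)) (.dc 0 12 0 (.lf 3 8 176)))) (.ct 0 5 1 1 1 (.dc 0 1 0 (.ct 1 6 1 1 1 (.dc 0 12
  1 (.lf 3 8 224)) (.dc 0 12 0 (.lf 3 6 192)))) (.ct 0 6 1 1 1 (.dc 0 1 0 (.ct 0 1 1 1 1 (.ct 1 6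
  1 1 1 (.dc 0 12 1 (.lf 3 9 224)) (.dc 0 12 0 (.lf 3 5 192))) (.dc 0 12 1 (.lf 3 7 224)))) (.dc
  0 1 1 (.ct 1 6 1 1 1 (.dc 0 12 1 (.lf 3 13 192)) (.dc 0 12 0 (.lf 3 12 192))))))))))))

theorem dt149 : le (run cls4 4 tr149 [[1, 0, 0, 0, 1, 0, 0], [1, 1, 0, 0, 2, 1, 1], [2, 2, 2,
  1, 3, 1, 1], [1, 1, 1, 1, 2, 1, 1], [2, 2, 1, 1, 4, 1, 1], [2, 2, 2, 1, 4, 2, 1], [1, 1, 1, 1,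
  4, 1, 1]] 140187724148733 [90, 90, 114, 114, 36, 204, 210]) 1263147406557 = true := by
  decide +kernel

end Pool.Agent.Work.MP_122e00_nt.Sharp.Cx

end

section

set_option autoImplicit false

set_option maxRecDepth 100000

/-!
# The certificate: data
-/

namespace Pool.Agent.Work.MP_122e00_nt.Sharp.Cx

/-- data -/
noncomputable def tr150 : Ct := (.ct 4 6 1 2 1 (.dc 1 7 0 (.dc 2 7 0 (.ct 0 2 1 1 1 (.dc 0 1 0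
  (.dc 0 9 0 (.ct 3 6 1 1 1 (.dc 1 15 0 (.dc 2 15 0 (.lf 3 7 144))) (.dc 1 15 1 (.ct 3 5 1 1 1
  (.dc 2 15 0 (.lf 3 6 144)) (.dc 2 15 1 (.lf 3 6 160))))))) (.dc 0 9 1 (.ct 3 6 1 1 1 (.dc 1 15
  0 (.dc 2 15 0 (.ct 0 3 1 1 1 (.dc 0 1 0 (.lf 3 6 176)) (.ct 0 4 1 1 1 (.dc 0 1 0 (.lf 3 5 208))
  (.dc 0 1 1 (.lf 3 11 176)))))) (.dc 1 15 1 (.ct 0 4 1 1 1 (.dc 0 1 0 (.ct 3 5 1 1 1 (.dc 2 15 0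
  (.lf 3 7 176)) (.dc 2 15 1 (.lf 3 9 192)))) (.ct 0 6 1 1 1 (.dc 0 1 0 (.ct 3 5 1 1 1 (.dc 2 15
  0 (.lf 3 7 208)) (.dc 2 15 1 (.lf 3 9 208)))) (.ct 0 3 1 1 1 (.dc 0 1 0 (.ct 0 5 1 1 1 (.ct 3 5
  1 1 1 (.dc 2 15 0 (.lf 3 5 208)) (.dc 2 15 1 (.lf 3 8 208))) (.dc 2 15 1 (.lf 3 9 208)))) (.dc
  0 1 1 (.ct 3 5 1 1 1 (.dc 2 15 0 (.lf 3 11 176)) (.dc 2 15 1 (.lf 3 12 208))))))))))))) (.dc 1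
  15 1 (.ct 0 2 1 1 1 (.dc 0 1 0 (.dc 0 9 0 (.ct 4 6 1 1 2 (.dc 1 7 0 (.dc 2 7 0 (.ct 3 5 1 1 1
  (.ct 4 5 1 1 1 (.dc 2 15 0 (.lf 3 6 160)) (.dc 2 15 1 (.lf 3 6 176))) (.dc 2 15 1 (.lf 3 7
  160))))) (.dc 1 7 1 (.ct 4 5 1 1 1 (.dc 2 7 0 (.ct 3 5 1 1 1 (.ct 4 5 1 1 1 (.ct 5 6 1 1 1 (.dc
  2 15 1 (.lf 3 6 176)) (.dc 2 15 0 (.lf 3 7 176))) (.dc 2 15 1 (.lf 3 7 192))) (.dc 2 15 1 (.lf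
  3 7 192)))) (.dc 2 7 1 (.dc 2 15 1 (.lf 3 7 192)))))))) (.dc 0 9 1 (.ct 4 6 1 1 2 (.dc 1 7 0
  (.dc 2 7 0 (.ct 0 6 1 1 1 (.dc 0 1 0 (.ct 3 5 1 1 1 (.ct 4 5 1 1 1 (.dc 2 15 0 (.lf 3 6 192))
  (.dc 2 15 1 (.lf 3 8 208))) (.dc 2 15 1 (.lf 3 9 192)))) (.ct 0 3 1 1 1 (.dc 0 1 0 (.ct 0 5 1 1
  1 (.ct 3 5 1 1 1 (.ct 4 5 1 1 1 (.dc 2 15 0 (.lf 3 5 192)) (.dc 2 15 1 (.lf 3 7 208))) (.dc 2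
  15 1 (.lf 3 8 192))) (.dc 2 15 1 (.lf 3 9 192)))) (.ct 3 5 1 1 1 (.ct 0 4 1 1 1 (.dc 0 1 0 (.ct
  0 5 1 1 1 (.ct 4 5 1 1 1 (.dc 2 15 0 (.lf 3 4 192)) (.dc 2 15 1 (.lf 3 7 208))) (.dc 2 15 1
  (.lf 3 7 208)))) (.dc 0 1 1 (.ct 4 5 1 1 1 (.dc 2 15 0 (.lf 3 11 176)) (.dc 2 15 1 (.lf 3 12
  192))))) (.dc 2 15 1 (.ct 0 4 1 1 1 (.dc 0 1 0 (.lf 3 7 208)) (.dc 0 1 1 (.lf 3 12 192)))))))))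
  (.dc 1 7 1 (.ct 4 5 1 1 1 (.dc 2 7 0 (.ct 0 3 1 1 1 (.dc 0 1 0 (.ct 0 5 1 1 1 (.ct 3 5 1 1 1
  (.ct 4 5 1 1 1 (.ct 5 6 1 1 1 (.dc 2 15 1 (.lf 3 7 176)) (.dc 2 15 0 (.lf 3 5 176))) (.dc 2 15
  1 (.lf 3 7 192))) (.dc 2 15 1 (.lf 3 9 192))) (.dc 2 15 1 (.lf 3 9 192)))) (.ct 3 5 1 1 1 (.ct
  0 4 1 1 1 (.dc 0 1 0 (.ct 0 5 1 1 1 (.ct 4 5 1 1 1 (.ct 5 6 1 1 1 (.dc 2 15 1 (.lf 3 9 160))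
  (.dc 2 15 0 (.lf 3 6 160))) (.dc 2 15 1 (.lf 3 7 176))) (.dc 2 15 1 (.lf 3 8 176)))) (.ct 4 5 1
  1 1 (.ct 0 6 1 1 1 (.dc 0 1 0 (.ct 0 5 1 1 1 (.ct 5 6 1 1 1 (.dc 2 15 1 (.lf 3 8 176)) (.dc 2
  15 0 (.lf 3 5 160))) (.dc 2 15 1 (.lf 3 7 176)))) (.dc 0 1 1 (.ct 5 6 1 1 1 (.dc 2 15 1 (.lf 3
  12 160)) (.dc 2 15 0 (.lf 3 11 160))))) (.dc 2 15 1 (.ct 0 6 1 1 1 (.dc 0 1 0 (.lf 3 8 160))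
  (.dc 0 1 1 (.lf 3 12 160)))))) (.dc 2 15 1 (.ct 0 4 1 1 1 (.dc 0 1 0 (.lf 3 8 192)) (.ct 0 6 1
  1 1 (.dc 0 1 0 (.lf 3 7 176)) (.dc 0 1 1 (.lf 3 12 176)))))))) (.dc 2 7 1 (.dc 2 15 1 (.ct 0 3
  1 1 1 (.dc 0 1 0 (.lf 3 9 192)) (.ct 0 4 1 1 1 (.dc 0 1 0 (.lf 3 8 192)) (.ct 0 5 1 1 1 (.dc 0
  1 0 (.lf 3 8 192)) (.ct 0 6 1 1 1 (.dc 0 1 0 (.lf 3 8 208)) (.dc 0 1 1 (.lf 3 12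
  208)))))))))))))))

theorem dt150 : le (run cls4 4 tr150 [[1, 0, 0, 0, 1, 0, 0], [1, 1, 0, 0, 2, 1, 1], [1, 1, 1,
  0, 3, 2, 2], [1, 1, 1, 1, 2, 1, 1], [2, 2, 2, 1, 3, 1, 1], [0, 0, 0, 0, 1, 1, 0], [0, 0, 0, 0,
  2, 1, 1]] 140185576668669 [57, 57, 57, 105, 21, 147, 147]) 341320263833 = true := by
  decide +kernel

/-- data -/
noncomputable def tr151 : Ct := (.dc 1 7 1 (.dc 1 15 1 (.ct 0 6 1 1 1 (.dc 0 1 0 (.dc 0 9 0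
  (.ct 2 5 1 1 1 (.ct 4 5 1 1 1 (.dc 2 7 0 (.ct 3 5 1 1 1 (.ct 4 5 1 1 1 (.dc 2 15 0 (.lf 3 8
  160)) (.dc 2 15 1 (.lf 3 8 192))) (.dc 2 15 1 (.lf 3 9 176)))) (.dc 2 7 1 (.dc 2 15 1 (.lf 3 8
  176)))) (.dc 2 7 1 (.dc 2 15 1 (.lf 3 9 160)))))) (.ct 0 2 1 1 1 (.dc 0 1 0 (.dc 0 9 0 (.ct 0 5
  1 1 1 (.ct 2 5 1 1 1 (.ct 4 5 1 1 1 (.dc 2 7 0 (.ct 3 5 1 1 1 (.ct 4 5 1 1 1 (.dc 2 15 0 (.lf 3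
  6 160)) (.dc 2 15 1 (.lf 3 8 192))) (.dc 2 15 1 (.lf 3 9 176)))) (.dc 2 7 1 (.dc 2 15 1 (.lf 3
  8 176)))) (.dc 2 7 1 (.dc 2 15 1 (.lf 3 9 160)))) (.dc 2 7 1 (.dc 2 15 1 (.lf 3 10 160))))))
  (.dc 0 9 1 (.ct 2 5 1 1 1 (.ct 4 5 1 1 1 (.dc 2 7 0 (.ct 0 3 1 1 1 (.dc 0 1 0 (.ct 0 5 1 1 1
  (.ct 3 5 1 1 1 (.ct 4 5 1 1 1 (.dc 2 15 0 (.lf 3 5 160)) (.dc 2 15 1 (.lf 3 7 192))) (.dc 2 15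
  1 (.lf 3 9 176))) (.dc 2 15 1 (.lf 3 9 176)))) (.ct 3 5 1 1 1 (.ct 0 4 1 1 1 (.dc 0 1 0 (.ct 0
  5 1 1 1 (.ct 4 5 1 1 1 (.dc 2 15 0 (.lf 3 5 176)) (.dc 2 15 1 (.lf 3 7 208))) (.dc 2 15 1 (.lf
  3 8 208)))) (.dc 0 1 1 (.ct 4 5 1 1 1 (.dc 2 15 0 (.lf 3 11 160)) (.dc 2 15 1 (.lf 3 12
  176))))) (.dc 2 15 1 (.ct 0 4 1 1 1 (.dc 0 1 0 (.lf 3 8 192)) (.dc 0 1 1 (.lf 3 12 160)))))))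
  (.dc 2 7 1 (.dc 2 15 1 (.ct 0 3 1 1 1 (.dc 0 1 0 (.lf 3 9 176)) (.ct 0 4 1 1 1 (.dc 0 1 0 (.lf
  3 8 176)) (.ct 0 5 1 1 1 (.dc 0 1 0 (.lf 3 8 192)) (.dc 0 1 1 (.lf 3 12 192)))))))) (.dc 2 7 1
  (.dc 2 15 1 (.ct 0 3 1 1 1 (.dc 0 1 0 (.lf 3 9 160)) (.ct 0 4 1 1 1 (.dc 0 1 0 (.lf 3 8 176))
  (.dc 0 1 1 (.lf 3 12 176))))))))))))

theorem dt151 : le (run cls4 4 tr151 [[1, 0, 0, 0, 1, 0, 0], [1, 1, 0, 0, 2, 1, 1], [1, 1, 1,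
  0, 1, 1, 1], [1, 1, 1, 1, 2, 1, 1], [2, 2, 2, 1, 3, 1, 1], [0, 0, 0, 0, 1, 1, 0], [1, 1, 1, 0,
  3, 2, 2]] 140185576668669 [57, 57, 57, 105, 21, 147, 147]) 474894487745 = true := by
  decide +kernel

end Pool.Agent.Work.MP_122e00_nt.Sharp.Cx

end

section

set_option autoImplicit false

set_option maxRecDepth 100000

/-!
# The certificate: data
-/

namespace Pool.Agent.Work.MP_122e00_nt.Sharp.Cx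

/-- data -/
noncomputable def tr152 : Ct := (.ct 1 5 1 1 1 (.ct 1 6 1 1 1 (.ct 0 2 1 1 1 (.dc 0 1 0 (.ct 0
  5 1 1 1 (.ct 2 5 1 1 1 (.ct 3 5 1 1 1 (.dc 2 15 0 (.lf 3 6 208)) (.dc 2 15 1 (.lf 3 8 208)))
  (.dc 2 15 1 (.lf 3 7 192))) (.dc 2 15 1 (.lf 3 7 192)))) (.ct 2 5 1 1 1 (.ct 0 3 1 1 1 (.dc 0 1
  0 (.ct 0 5 1 1 1 (.ct 3 5 1 1 1 (.dc 2 15 0 (.lf 3 6 192)) (.dc 2 15 1 (.lf 3 8 192))) (.dc 2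
  15 1 (.lf 3 7 192)))) (.dc 0 1 1 (.ct 3 5 1 1 1 (.dc 2 15 0 (.lf 3 11 160)) (.dc 2 15 1 (.lf 3
  12 192))))) (.dc 2 15 1 (.ct 0 3 1 1 1 (.dc 0 1 0 (.lf 3 6 208)) (.dc 0 1 1 (.lf 3 12 208))))))
  (.ct 0 2 1 1 1 (.dc 0 1 0 (.ct 0 5 1 1 1 (.ct 2 5 1 1 1 (.ct 3 5 1 1 1 (.dc 2 15 0 (.lf 2 6
  208)) (.dc 2 15 1 (.lf 2 8 208))) (.dc 2 15 1 (.lf 2 8 192))) (.dc 2 15 1 (.lf 2 7 192)))) (.ct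
  2 5 1 1 1 (.ct 0 3 1 1 1 (.dc 0 1 0 (.ct 0 5 1 1 1 (.ct 3 5 1 1 1 (.dc 2 15 0 (.lf 2 6 192))
  (.dc 2 15 1 (.lf 2 8 192))) (.dc 2 15 1 (.lf 2 8 192)))) (.dc 0 1 1 (.ct 3 5 1 1 1 (.dc 2 15 0
  (.lf 2 11 176)) (.dc 2 15 1 (.lf 2 13 192))))) (.dc 2 15 1 (.ct 0 3 1 1 1 (.dc 0 1 0 (.lf 2 7
  208)) (.dc 0 1 1 (.lf 2 13 208))))))) (.dc 2 15 1 (.ct 0 2 1 1 1 (.dc 0 1 0 (.ct 1 6 1 1 1 (.ct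
  5 6 1 1 1 (.lf 3 7 192) (.lf 2 7 192)) (.lf 2 8 192))) (.ct 0 3 1 1 1 (.dc 0 1 0 (.ct 1 6 1 1 1
  (.ct 5 6 1 1 1 (.lf 3 7 208) (.lf 2 7 208)) (.lf 2 8 192))) (.dc 0 1 1 (.ct 1 6 1 1 1 (.ct 5 6
  1 1 1 (.lf 3 12 208) (.lf 2 13 208)) (.lf 2 12 192)))))))

theorem dt152 : le (run cls4 4 tr152 [[1, 0, 0, 0, 1, 0, 0], [2, 2, 1, 1, 3, 1, 0], [2, 2, 2,
  1, 4, 2, 1], [1, 1, 1, 1, 2, 1, 1], [2, 2, 1, 1, 5, 2, 1], [0, 0, 0, 0, 1, 1, 0], [1, 1, 0, 0,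
  2, 1, 1]] 140737488355325 [94, 94, 130, 130, 64, 208, 238]) 449649149949 = true := by
  decide +kernel

/-- data -/
noncomputable def tr153 : Ct := (.dc 2 15 1 (.ct 0 2 1 1 1 (.dc 0 1 0 (.ct 1 6 1 1 1 (.lf 3 7
  176) (.lf 2 8 192))) (.ct 0 3 1 1 1 (.dc 0 1 0 (.ct 1 6 1 1 1 (.lf 3 7 192) (.lf 2 8 192)))
  (.dc 0 1 1 (.ct 1 6 1 1 1 (.lf 3 12 192) (.lf 2 13 192))))))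

theorem dt153 : le (run cls4 4 tr153 [[1, 0, 0, 0, 1, 0, 0], [2, 2, 1, 1, 3, 1, 0], [2, 2, 2,
  1, 4, 2, 1], [1, 1, 1, 1, 2, 1, 1], [2, 2, 1, 1, 4, 1, 1], [2, 2, 1, 1, 5, 2, 1], [1, 1, 0, 0,
  2, 1, 1]] 140737488355325 [94, 94, 130, 130, 64, 208, 238]) 1019494331644 = true := by
  decide +kernel

/-- data -/
noncomputable def tr154 : Ct := (.dc 2 7 1 (.dc 2 15 1 (.ct 0 2 1 1 1 (.dc 0 1 0 (.ct 1 6 1 1 1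
  (.lf 3 7 176) (.lf 2 8 192))) (.ct 0 3 1 1 1 (.dc 0 1 0 (.ct 1 6 1 1 1 (.lf 3 7 192) (.lf 2 8
  192))) (.ct 0 5 1 1 1 (.dc 0 1 0 (.ct 1 6 1 1 1 (.lf 3 5 192) (.lf 2 9 192))) (.dc 0 1 1 (.ct 1
  6 1 1 1 (.lf 3 12 192) (.lf 2 12 192))))))))

theorem dt154 : le (run cls4 4 tr154 [[1, 0, 0, 0, 1, 0, 0], [2, 2, 1, 1, 3, 1, 0], [2, 2, 2,
  1, 3, 1, 1], [1, 1, 1, 1, 2, 1, 1], [2, 2, 1, 1, 4, 1, 1], [2, 2, 2, 1, 4, 2, 1], [1, 1, 0, 0,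
  2, 1, 1]] 140187732541437 [94, 94, 130, 130, 64, 208, 238]) 997640578973 = true := by
  decide +kernel

end Pool.Agent.Work.MP_122e00_nt.Sharp.Cx

end
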