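import Pool.Agent.Work.MP_122e00_nt.Bd.B03

/-! Bundle of small proof modules (one section per former module). -/

section

set_option autoImplicit false

set_option maxRecDepth 100000

/-!
# The certificate: data
-/

namespace Pool.Agent.Work.MP_122e00_nt.Sharp.Cx

/-- data -/
noncomputable def tr155 : Ct := (.dc 2 7 0 (.ct 1 5 1 1 1 (.ct 5 6 1 1 1 (.dc 2 15 1 (.ct 0 2 1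
  1 1 (.dc 0 1 0 (.lf 2 8 176)) (.ct 0 3 1 1 1 (.dc 0 1 0 (.lf 2 8 192)) (.dc 0 1 1 (.lf 2 12
  192))))) (.ct 0 2 1 1 1 (.dc 0 1 0 (.ct 0 5 1 1 1 (.ct 2 5 1 1 1 (.ct 3 5 1 1 1 (.dc 2 15 0
  (.lf 2 7 208)) (.dc 2 15 1 (.lf 2 9 208))) (.dc 2 15 1 (.lf 2 9 192))) (.dc 2 15 1 (.lf 2 8
  192)))) (.ct 2 5 1 1 1 (.ct 0 3 1 1 1 (.dc 0 1 0 (.ct 0 5 1 1 1 (.ct 3 5 1 1 1 (.dc 2 15 0 (.lf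
  2 7 192)) (.dc 2 15 1 (.lf 2 9 192))) (.dc 2 15 1 (.lf 2 9 192)))) (.dc 0 1 1 (.ct 3 5 1 1 1
  (.dc 2 15 0 (.lf 2 10 176)) (.dc 2 15 1 (.lf 2 12 192))))) (.dc 2 15 1 (.ct 0 3 1 1 1 (.dc 0 1
  0 (.lf 2 8 208)) (.dc 0 1 1 (.lf 2 13 208))))))) (.dc 2 15 1 (.ct 0 2 1 1 1 (.dc 0 1 0 (.lf 2 7
  192)) (.ct 0 3 1 1 1 (.dc 0 1 0 (.lf 2 7 160)) (.dc 0 1 1 (.lf 2 12 176)))))))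

theorem dt155 : le (run cls4 4 tr155 [[1, 0, 0, 0, 1, 0, 0], [2, 2, 1, 1, 3, 1, 0], [2, 2, 2,
  1, 4, 2, 1], [1, 1, 1, 1, 2, 1, 1], [1, 1, 1, 1, 3, 1, 0], [0, 0, 0, 0, 1, 1, 0], [2, 2, 1, 1,
  4, 1, 1]] 140187732541437 [122, 122, 134, 134, 68, 236, 266]) 431288924688 = true := by
  decide +kernel

/-- data -/
noncomputable def tr156 : Ct := (.dc 2 15 1 (.ct 0 3 1 1 1 (.dc 0 1 0 (.ct 2 4 1 1 1 (.dc 2 7 0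
  (.lf 2 7 176)) (.dc 2 7 1 (.lf 2 8 192)))) (.ct 0 5 1 1 1 (.dc 0 1 0 (.ct 2 4 1 1 1 (.dc 2 7 0
  (.lf 2 8 192)) (.dc 2 7 1 (.lf 2 10 192)))) (.ct 0 2 1 1 1 (.dc 0 1 0 (.ct 0 4 1 1 1 (.ct 2 4 1
  1 1 (.dc 2 7 0 (.lf 2 7 192)) (.dc 2 7 1 (.lf 2 9 192))) (.dc 2 7 1 (.lf 2 9 224)))) (.dc 0 1 1
  (.ct 2 4 1 1 1 (.dc 2 7 0 (.lf 2 12 192)) (.dc 2 7 1 (.lf 2 12 224))))))))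

theorem dt156 : le (run cls4 4 tr156 [[1, 0, 0, 0, 1, 0, 0], [2, 2, 1, 1, 3, 1, 0], [2, 2, 2,
  1, 3, 1, 1], [1, 1, 1, 1, 2, 1, 1], [1, 1, 1, 1, 3, 1, 0], [2, 2, 2, 1, 4, 2, 1], [2, 2, 1, 1,
  4, 1, 1]] 140187732541437 [122, 122, 134, 134, 68, 236, 266]) 939232845734 = true := by
  decide +kernel

/-- data -/
noncomputable def tr157 : Ct := (.dc 2 15 1 (.ct 0 3 1 1 1 (.dc 0 1 0 (.ct 2 5 1 1 1 (.dc 2 7 0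
  (.lf 1 8 160)) (.dc 2 7 1 (.lf 1 9 160)))) (.ct 0 2 1 1 1 (.dc 0 1 0 (.ct 0 5 1 1 1 (.ct 2 5 1
  1 1 (.dc 2 7 0 (.lf 1 9 192)) (.dc 2 7 1 (.lf 1 10 176))) (.dc 2 7 1 (.lf 1 10 208)))) (.dc 0 1
  1 (.ct 2 5 1 1 1 (.dc 2 7 0 (.lf 1 11 192)) (.dc 2 7 1 (.lf 1 12 208)))))))

theorem dt157 : le (run cls4 4 tr157 [[1, 0, 0, 0, 1, 0, 0], [2, 2, 1, 1, 3, 1, 0], [2, 2, 2,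
  1, 3, 1, 1], [1, 1, 1, 1, 2, 1, 1], [1, 1, 1, 1, 2, 0, 0], [1, 1, 1, 1, 3, 1, 0], [2, 2, 1, 1,
  4, 1, 1]] 140187732541437 [122, 122, 134, 134, 68, 236, 266]) 968571600156 = true := by
  decide +kernel

end Pool.Agent.Work.MP_122e00_nt.Sharp.Cx

end

section

set_option autoImplicit false

set_option maxRecDepth 100000

/-!
# The certificate: data
-/

namespace Pool.Agent.Work.MP_122e00_nt.Sharp.Cx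

/-- data -/
noncomputable def tr158 : Ct := (.ct 0 2 1 1 1 (.dc 0 1 0 (.ct 0 1 1 1 1 (.ct 0 5 1 1 1 (.ct 1
  2 1 1 1 (.dc 1 3 0 (.ct 1 5 1 1 1 (.ct 2 5 1 1 1 (.ct 3 5 1 1 1 (.dc 2 15 0 (.lf 3 6 208)) (.dc
  2 15 1 (.lf 3 9 208))) (.dc 2 15 1 (.lf 3 8 240))) (.dc 2 15 1 (.lf 3 8 224)))) (.ct 2 5 1 1 1
  (.ct 1 3 1 1 1 (.dc 1 3 0 (.ct 1 5 1 1 1 (.ct 3 5 1 1 1 (.dc 2 15 0 (.lf 3 7 224)) (.dc 2 15 1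
  (.lf 3 9 224))) (.dc 2 15 1 (.lf 3 10 224)))) (.dc 1 3 1 (.ct 3 5 1 1 1 (.dc 2 15 0 (.lf 3 7
  224)) (.dc 2 15 1 (.lf 3 9 224))))) (.dc 2 15 1 (.ct 1 3 1 1 1 (.dc 1 3 0 (.lf 3 8 208)) (.dc 1
  3 1 (.lf 3 8 192)))))) (.dc 2 15 1 (.ct 1 2 1 1 1 (.dc 1 3 0 (.lf 3 7 224)) (.ct 1 3 1 1 1 (.dc
  1 3 0 (.lf 3 8 208)) (.dc 1 3 1 (.lf 3 8 192)))))) (.dc 1 3 0 (.ct 0 5 1 1 1 (.ct 1 5 1 1 1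
  (.ct 2 5 1 1 1 (.ct 3 5 1 1 1 (.dc 2 15 0 (.lf 3 6 208)) (.dc 2 15 1 (.lf 3 8 208))) (.dc 2 15
  1 (.lf 3 8 224))) (.dc 2 15 1 (.lf 3 7 224))) (.dc 2 15 1 (.lf 3 7 208)))))) (.ct 1 2 1 1 1
  (.dc 1 3 0 (.ct 1 5 1 1 1 (.ct 2 5 1 1 1 (.ct 0 3 1 1 1 (.dc 0 1 0 (.ct 0 5 1 1 1 (.ct 3 5 1 1
  1 (.dc 2 15 0 (.lf 3 6 192)) (.dc 2 15 1 (.lf 3 8 208))) (.dc 2 15 1 (.lf 3 7 208)))) (.dc 0 1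
  1 (.ct 3 5 1 1 1 (.dc 2 15 0 (.lf 3 11 176)) (.dc 2 15 1 (.lf 3 12 192))))) (.dc 2 15 1 (.ct 0
  3 1 1 1 (.dc 0 1 0 (.lf 3 7 208)) (.dc 0 1 1 (.lf 3 12 208))))) (.dc 2 15 1 (.ct 0 3 1 1 1 (.dc
  0 1 0 (.lf 3 6 208)) (.dc 0 1 1 (.lf 3 12 208)))))) (.ct 2 5 1 1 1 (.ct 0 3 1 1 1 (.dc 0 1 0
  (.ct 0 1 1 1 1 (.ct 0 5 1 1 1 (.ct 1 3 1 1 1 (.dc 1 3 0 (.ct 1 5 1 1 1 (.ct 3 5 1 1 1 (.dc 2 15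
  0 (.lf 3 7 240)) (.dc 2 15 1 (.lf 3 9 240))) (.dc 2 15 1 (.lf 3 9 224)))) (.dc 1 3 1 (.ct 3 5 1
  1 1 (.dc 2 15 0 (.lf 3 7 224)) (.dc 2 15 1 (.lf 3 9 224))))) (.dc 2 15 1 (.ct 1 3 1 1 1 (.dc 1
  3 0 (.lf 3 8 224)) (.dc 1 3 1 (.lf 3 8 224))))) (.dc 1 3 0 (.ct 0 5 1 1 1 (.ct 1 5 1 1 1 (.ct 3
  5 1 1 1 (.dc 2 15 0 (.lf 3 6 208)) (.dc 2 15 1 (.lf 3 8 208))) (.dc 2 15 1 (.lf 3 8 224))) (.dc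
  2 15 1 (.lf 3 7 224)))))) (.dc 0 1 1 (.ct 1 3 1 1 1 (.dc 1 3 0 (.ct 1 5 1 1 1 (.ct 3 5 1 1 1
  (.dc 2 15 0 (.lf 3 11 192)) (.dc 2 15 1 (.lf 3 12 208))) (.dc 2 15 1 (.lf 3 12 240)))) (.dc 1 3
  1 (.ct 3 5 1 1 1 (.dc 2 15 0 (.lf 3 11 192)) (.dc 2 15 1 (.lf 3 12 224))))))) (.dc 2 15 1 (.ct
  0 3 1 1 1 (.dc 0 1 0 (.ct 0 1 1 1 1 (.ct 1 3 1 1 1 (.dc 1 3 0 (.lf 3 8 224)) (.dc 1 3 1 (.lf 3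
  7 224))) (.dc 1 3 0 (.lf 3 6 224)))) (.dc 0 1 1 (.ct 1 3 1 1 1 (.dc 1 3 0 (.lf 3 12 224)) (.dc
  1 3 1 (.lf 3 12 224)))))))))

theorem dt158 : le (run cls4 4 tr158 [[1, 0, 0, 0, 1, 0, 0], [1, 1, 0, 0, 1, 1, 0], [2, 2, 2,
  1, 4, 2, 1], [1, 1, 1, 1, 2, 1, 1], [3, 3, 1, 1, 6, 3, 1], [0, 0, 0, 0, 1, 1, 0], [1, 1, 0, 0,
  2, 1, 1]] 140737487831037 [94, 94, 130, 130, 64, 208, 238]) 177367889389 = true := by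
  decide +kernel

/-- data -/
noncomputable def tr159 : Ct := (.dc 0 1 0 (.ct 0 1 1 1 1 (.ct 0 5 1 1 1 (.ct 1 2 1 1 1 (.dc 1
  3 0 (.ct 1 5 1 1 1 (.ct 2 5 1 1 1 (.ct 3 5 1 1 1 (.dc 2 15 0 (.lf 2 7 208)) (.dc 2 15 1 (.lf 2
  9 208))) (.dc 2 15 1 (.lf 2 9 240))) (.dc 2 15 1 (.lf 2 8 224)))) (.ct 2 5 1 1 1 (.ct 1 3 1 1 1
  (.dc 1 3 0 (.ct 1 5 1 1 1 (.ct 3 5 1 1 1 (.dc 2 15 0 (.lf 2 7 224)) (.dc 2 15 1 (.lf 2 9 224)))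
  (.dc 2 15 1 (.lf 2 10 224)))) (.dc 1 3 1 (.ct 3 5 1 1 1 (.dc 2 15 0 (.lf 2 5 224)) (.dc 2 15 1
  (.lf 2 8 224))))) (.dc 2 15 1 (.ct 1 3 1 1 1 (.dc 1 3 0 (.lf 2 9 208)) (.dc 1 3 1 (.lf 2 8
  192)))))) (.dc 2 15 1 (.ct 1 2 1 1 1 (.dc 1 3 0 (.lf 2 8 224)) (.ct 1 3 1 1 1 (.dc 1 3 0 (.lf 2
  8 208)) (.dc 1 3 1 (.lf 2 7 192)))))) (.dc 1 3 0 (.ct 0 5 1 1 1 (.ct 1 5 1 1 1 (.ct 2 5 1 1 1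
  (.ct 3 5 1 1 1 (.dc 2 15 0 (.lf 2 7 208)) (.dc 2 15 1 (.lf 2 9 208))) (.dc 2 15 1 (.lf 2 8
  224))) (.dc 2 15 1 (.lf 2 8 224))) (.dc 2 15 1 (.lf 2 7 208))))))

theorem dt159 : le (run cls4 4 tr159 [[3, 2, 2, 1, 5, 2, 1], [1, 1, 0, 0, 1, 1, 0], [2, 2, 2,
  1, 4, 2, 1], [1, 1, 1, 1, 2, 1, 1], [2, 2, 1, 1, 4, 2, 0], [0, 0, 0, 0, 1, 1, 0], [3, 3, 1, 1,
  6, 3, 1]] 140737487831037 [94, 94, 130, 130, 64, 208, 238]) 605439663545 = true := by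
  decide +kernel

end Pool.Agent.Work.MP_122e00_nt.Sharp.Cx

end

section

set_option autoImplicit false

set_option maxRecDepth 100000

/-!
# The certificate: data
-/

namespace Pool.Agent.Work.MP_122e00_nt.Sharp.Cx

/-- data -/
noncomputable def tr160 : Ct := (.dc 1 3 0 (.ct 1 5 1 1 1 (.ct 2 5 1 1 1 (.ct 0 3 1 1 1 (.dc 0
  1 0 (.ct 0 5 1 1 1 (.ct 3 5 1 1 1 (.dc 2 15 0 (.lf 2 7 192)) (.dc 2 15 1 (.lf 2 9 208))) (.dc 2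
  15 1 (.lf 2 8 208)))) (.dc 0 1 1 (.ct 3 5 1 1 1 (.dc 2 15 0 (.lf 2 11 176)) (.dc 2 15 1 (.lf 2
  13 192))))) (.dc 2 15 1 (.ct 0 3 1 1 1 (.dc 0 1 0 (.lf 2 7 208)) (.dc 0 1 1 (.lf 2 13 208)))))
  (.dc 2 15 1 (.ct 0 3 1 1 1 (.dc 0 1 0 (.lf 2 7 208)) (.dc 0 1 1 (.lf 2 13 208))))))

theorem dt160 : le (run cls4 4 tr160 [[1, 0, 0, 0, 1, 0, 0], [4, 3, 2, 1, 6, 3, 1], [3, 2, 2,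
  1, 5, 2, 1], [1, 1, 1, 1, 2, 1, 1], [2, 2, 1, 1, 4, 2, 0], [0, 0, 0, 0, 1, 1, 0], [3, 3, 1, 1,
  6, 3, 1]] 140737487831037 [94, 94, 130, 130, 64, 208, 238]) 368685859794 = true := by
  decide +kernel

/-- data -/
noncomputable def tr161 : Ct := (.ct 2 5 1 1 1 (.ct 0 3 1 1 1 (.dc 0 1 0 (.ct 0 1 1 1 1 (.ct 0
  5 1 1 1 (.ct 1 3 1 1 1 (.dc 1 3 0 (.ct 1 5 1 1 1 (.ct 3 5 1 1 1 (.dc 2 15 0 (.lf 2 7 240)) (.dc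
  2 15 1 (.lf 2 9 240))) (.dc 2 15 1 (.lf 2 10 224)))) (.dc 1 3 1 (.ct 3 5 1 1 1 (.dc 2 15 0 (.lf
  2 5 224)) (.dc 2 15 1 (.lf 2 8 224))))) (.dc 2 15 1 (.ct 1 3 1 1 1 (.dc 1 3 0 (.lf 2 9 224))
  (.dc 1 3 1 (.lf 2 8 224))))) (.dc 1 3 0 (.ct 0 5 1 1 1 (.ct 1 5 1 1 1 (.ct 3 5 1 1 1 (.dc 2 15
  0 (.lf 2 7 208)) (.dc 2 15 1 (.lf 2 9 208))) (.dc 2 15 1 (.lf 2 8 224))) (.dc 2 15 1 (.lf 2 8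
  224)))))) (.dc 0 1 1 (.ct 1 3 1 1 1 (.dc 1 3 0 (.ct 1 5 1 1 1 (.ct 3 5 1 1 1 (.dc 2 15 0 (.lf 2
  11 192)) (.dc 2 15 1 (.lf 2 13 208))) (.dc 2 15 1 (.lf 2 13 240)))) (.dc 1 3 1 (.ct 3 5 1 1 1
  (.dc 2 15 0 (.lf 2 10 192)) (.dc 2 15 1 (.lf 2 12 224))))))) (.dc 2 15 1 (.ct 0 3 1 1 1 (.dc 0
  1 0 (.ct 0 1 1 1 1 (.ct 1 3 1 1 1 (.dc 1 3 0 (.lf 2 8 224)) (.dc 1 3 1 (.lf 2 7 224))) (.dc 1 3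
  0 (.lf 2 7 224)))) (.dc 0 1 1 (.ct 1 3 1 1 1 (.dc 1 3 0 (.lf 2 13 224)) (.dc 1 3 1 (.lf 2 13
  224)))))))

theorem dt161 : le (run cls4 4 tr161 [[1, 0, 0, 0, 1, 0, 0], [1, 1, 0, 0, 1, 1, 0], [4, 3, 2,
  1, 6, 3, 1], [1, 1, 1, 1, 2, 1, 1], [2, 2, 1, 1, 4, 2, 0], [0, 0, 0, 0, 1, 1, 0], [3, 3, 1, 1,
  6, 3, 1]] 140737487831037 [94, 94, 130, 130, 64, 208, 238]) 203728976843 = true := by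
  decide +kernel

end Pool.Agent.Work.MP_122e00_nt.Sharp.Cx

end

section

set_option autoImplicit false

set_option maxRecDepth 100000

/-!
# The certificate: data
-/

namespace Pool.Agent.Work.MP_122e00_nt.Sharp.Cx

/-- data -/
noncomputable def tr162 : Ct := (.ct 5 6 1 1 1 (.ct 0 2 1 1 1 (.dc 0 1 0 (.ct 0 1 1 1 1 (.ct 1
  2 1 1 1 (.dc 1 3 0 (.lf 3 8 208)) (.ct 1 3 1 1 1 (.dc 1 3 0 (.lf 3 8 176)) (.dc 1 3 1 (.lf 3 7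
  176)))) (.dc 1 3 0 (.lf 3 7 208)))) (.ct 1 2 1 1 1 (.dc 1 3 0 (.ct 0 3 1 1 1 (.dc 0 1 0 (.lf 3
  7 176)) (.dc 0 1 1 (.lf 3 12 176)))) (.ct 0 3 1 1 1 (.dc 0 1 0 (.ct 0 1 1 1 1 (.ct 1 3 1 1 1
  (.dc 1 3 0 (.lf 3 8 208)) (.dc 1 3 1 (.lf 3 7 208))) (.dc 1 3 0 (.lf 3 7 208)))) (.dc 0 1 1
  (.ct 1 3 1 1 1 (.dc 1 3 0 (.lf 3 12 208)) (.dc 1 3 1 (.lf 3 11 208))))))) (.ct 0 2 1 1 1 (.dc 0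
  1 0 (.ct 0 1 1 1 1 (.ct 1 2 1 1 1 (.dc 1 3 0 (.lf 2 7 208)) (.ct 1 3 1 1 1 (.dc 1 3 0 (.lf 2 8
  176)) (.dc 1 3 1 (.lf 2 7 176)))) (.dc 1 3 0 (.lf 2 7 208)))) (.ct 1 2 1 1 1 (.dc 1 3 0 (.ct 0
  3 1 1 1 (.dc 0 1 0 (.lf 2 7 176)) (.dc 0 1 1 (.lf 2 13 176)))) (.ct 0 3 1 1 1 (.dc 0 1 0 (.ct 0
  1 1 1 1 (.ct 1 3 1 1 1 (.dc 1 3 0 (.lf 2 7 208)) (.dc 1 3 1 (.lf 2 6 208))) (.dc 1 3 0 (.lf 2 7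
  208)))) (.dc 0 1 1 (.ct 1 3 1 1 1 (.dc 1 3 0 (.lf 2 13 208)) (.dc 1 3 1 (.lf 2 13 208))))))))

theorem dt162 : le (run cls4 4 tr162 [[1, 0, 0, 0, 1, 0, 0], [1, 1, 0, 0, 1, 1, 0], [2, 2, 2,
  1, 4, 2, 1], [1, 1, 1, 1, 2, 1, 1], [3, 3, 1, 1, 5, 2, 1], [2, 2, 1, 1, 4, 2, 0], [1, 1, 0, 0,
  2, 1, 1]] 281474976186365 [95, 95, 131, 131, 71, 215, 239]) 441978602358 = true := by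
  decide +kernel

/-- data -/
noncomputable def tr163 : Ct := (.ct 0 2 1 1 1 (.dc 0 1 0 (.ct 0 1 1 1 1 (.ct 1 2 1 1 1 (.dc 1
  3 0 (.lf 2 8 208)) (.ct 1 3 1 1 1 (.dc 1 3 0 (.lf 2 8 176)) (.dc 1 3 1 (.lf 2 8 176)))) (.dc 1
  3 0 (.lf 2 8 192)))) (.ct 1 2 1 1 1 (.dc 1 3 0 (.ct 0 3 1 1 1 (.dc 0 1 0 (.lf 2 8 160)) (.dc 0
  1 1 (.lf 2 12 160)))) (.ct 0 3 1 1 1 (.dc 0 1 0 (.ct 0 1 1 1 1 (.ct 1 3 1 1 1 (.dc 1 3 0 (.lf 2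
  8 192)) (.dc 1 3 1 (.lf 2 8 192))) (.dc 1 3 0 (.lf 2 8 192)))) (.dc 0 1 1 (.ct 1 3 1 1 1 (.dc 1
  3 0 (.lf 2 13 192)) (.dc 1 3 1 (.lf 2 12 192)))))))

theorem dt163 : le (run cls4 4 tr163 [[1, 0, 0, 0, 1, 0, 0], [1, 1, 0, 0, 1, 1, 0], [2, 2, 2,
  1, 4, 2, 1], [1, 1, 1, 1, 2, 1, 1], [2, 2, 1, 1, 3, 1, 0], [2, 2, 1, 1, 4, 2, 0], [3, 3, 1, 1,
  5, 2, 1]] 281474976186365 [95, 95, 131, 131, 71, 215, 239]) 787945806625 = true := by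
  decide +kernel

/-- data -/
noncomputable def tr164 : Ct := (.dc 0 1 0 (.ct 0 1 1 1 1 (.ct 1 2 1 1 1 (.dc 1 3 0 (.ct 4 6 1
  1 1 (.lf 3 7 192) (.lf 2 8 208))) (.ct 1 3 1 1 1 (.dc 1 3 0 (.ct 4 6 1 1 1 (.lf 3 8 192) (.lf 2
  9 208))) (.ct 1 5 1 1 1 (.dc 1 3 0 (.ct 4 6 1 1 1 (.lf 3 7 192) (.lf 2 9 208))) (.dc 1 3 1 (.ct
  4 6 1 1 1 (.lf 3 7 160) (.lf 2 8 176)))))) (.dc 1 3 0 (.ct 4 6 1 1 1 (.lf 3 7 192) (.lf 2 8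
  208)))))

theorem dt164 : le (run cls4 4 tr164 [[3, 2, 2, 1, 4, 1, 1], [1, 1, 0, 0, 1, 1, 0], [2, 2, 2,
  1, 3, 1, 1], [1, 1, 1, 1, 2, 1, 1], [2, 2, 1, 1, 3, 1, 0], [2, 2, 2, 1, 4, 2, 1], [1, 1, 0, 0,
  2, 1, 1]] 281474976186365 [97, 97, 133, 145, 85, 229, 241]) 1254476750707 = true := by
  decide +kernel

end Pool.Agent.Work.MP_122e00_nt.Sharp.Cx

end

section

set_option autoImplicit false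

set_option maxRecDepth 100000

/-!
# The certificate: data
-/

namespace Pool.Agent.Work.MP_122e00_nt.Sharp.Cx

/-- data -/
noncomputable def tr165 : Ct := (.ct 1 2 1 1 1 (.dc 1 3 0 (.ct 0 3 1 1 1 (.dc 0 1 0 (.ct 4 6 1
  1 1 (.lf 3 7 208) (.lf 2 8 208))) (.ct 0 5 1 1 1 (.dc 0 1 0 (.ct 4 6 1 1 1 (.lf 3 5 208) (.lf 2
  9 208))) (.dc 0 1 1 (.ct 4 6 1 1 1 (.lf 3 12 208) (.lf 2 12 208)))))) (.ct 4 6 1 1 1 (.ct 0 3 1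
  1 1 (.dc 0 1 0 (.ct 0 1 1 1 1 (.ct 1 3 1 1 1 (.dc 1 3 0 (.lf 3 8 192)) (.ct 1 5 1 1 1 (.dc 1 3
  0 (.lf 3 7 192)) (.dc 1 3 1 (.lf 3 7 192)))) (.dc 1 3 0 (.lf 3 8 208)))) (.ct 1 3 1 1 1 (.dc 1
  3 0 (.ct 0 5 1 1 1 (.dc 0 1 0 (.lf 3 6 208)) (.dc 0 1 1 (.lf 3 12 208)))) (.ct 0 5 1 1 1 (.dc 0
  1 0 (.ct 0 1 1 1 1 (.ct 1 5 1 1 1 (.dc 1 3 0 (.lf 3 6 208)) (.dc 1 3 1 (.lf 3 6 208))) (.dc 1 3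
  0 (.lf 3 5 208)))) (.dc 0 1 1 (.ct 1 5 1 1 1 (.dc 1 3 0 (.lf 3 12 208)) (.dc 1 3 1 (.lf 3 11
  208))))))) (.ct 0 3 1 1 1 (.dc 0 1 0 (.ct 0 1 1 1 1 (.ct 1 3 1 1 1 (.dc 1 3 0 (.lf 2 9 208))
  (.ct 1 5 1 1 1 (.dc 1 3 0 (.lf 2 9 208)) (.dc 1 3 1 (.lf 2 8 208)))) (.dc 1 3 0 (.lf 2 8
  208)))) (.ct 1 3 1 1 1 (.dc 1 3 0 (.ct 0 5 1 1 1 (.dc 0 1 0 (.lf 2 10 208)) (.dc 0 1 1 (.lf 2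
  13 208)))) (.ct 0 5 1 1 1 (.dc 0 1 0 (.ct 0 1 1 1 1 (.ct 1 5 1 1 1 (.dc 1 3 0 (.lf 2 10 208))
  (.dc 1 3 1 (.lf 2 9 208))) (.dc 1 3 0 (.lf 2 9 208)))) (.dc 0 1 1 (.ct 1 5 1 1 1 (.dc 1 3 0
  (.lf 2 13 208)) (.dc 1 3 1 (.lf 2 12 208)))))))))

theorem dt165 : le (run cls4 4 tr165 [[1, 0, 0, 0, 1, 0, 0], [1, 1, 0, 0, 1, 1, 0], [3, 2, 2,
  1, 4, 1, 1], [1, 1, 1, 1, 2, 1, 1], [2, 2, 1, 1, 3, 1, 0], [2, 2, 2, 1, 4, 2, 1], [1, 1, 0, 0,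
  2, 1, 1]] 281474976186365 [97, 97, 133, 145, 85, 229, 241]) 459000471922 = true := by
  decide +kernel

/-- data -/
noncomputable def tr166 : Ct := (.ct 4 6 1 1 1 (.ct 0 2 1 1 1 (.dc 0 1 0 (.ct 0 5 1 1 1 (.ct 2
  5 1 1 1 (.ct 3 5 1 1 1 (.dc 1 3 1 (.lf 3 6 192)) (.dc 1 3 0 (.lf 3 8 192))) (.dc 1 3 0 (.lf 3 8
  192))) (.dc 1 3 0 (.lf 3 7 192)))) (.ct 2 5 1 1 1 (.ct 0 3 1 1 1 (.dc 0 1 0 (.ct 0 5 1 1 1 (.ct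
  3 5 1 1 1 (.dc 1 3 1 (.lf 3 7 192)) (.dc 1 3 0 (.lf 3 9 192))) (.dc 1 3 0 (.lf 3 8 208)))) (.dc
  0 1 1 (.ct 3 5 1 1 1 (.dc 1 3 1 (.lf 3 11 192)) (.dc 1 3 0 (.lf 3 11 208))))) (.dc 1 3 0 (.ct 0
  3 1 1 1 (.dc 0 1 0 (.lf 3 7 208)) (.dc 0 1 1 (.lf 3 11 208)))))) (.ct 0 2 1 1 1 (.dc 0 1 0 (.ct
  0 5 1 1 1 (.ct 2 5 1 1 1 (.ct 3 5 1 1 1 (.dc 1 3 1 (.lf 2 7 208)) (.dc 1 3 0 (.lf 2 8 208)))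
  (.dc 1 3 0 (.lf 2 7 208))) (.dc 1 3 0 (.lf 2 6 208)))) (.ct 2 5 1 1 1 (.ct 0 3 1 1 1 (.dc 0 1 0
  (.ct 0 5 1 1 1 (.ct 3 5 1 1 1 (.dc 1 3 1 (.lf 2 7 208)) (.dc 1 3 0 (.lf 2 8 208))) (.dc 1 3 0
  (.lf 2 7 208)))) (.dc 0 1 1 (.ct 3 5 1 1 1 (.dc 1 3 1 (.lf 2 12 208)) (.dc 1 3 0 (.lf 2 12
  208))))) (.dc 1 3 0 (.ct 0 3 1 1 1 (.dc 0 1 0 (.lf 2 7 208)) (.dc 0 1 1 (.lf 2 12 208)))))))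

theorem dt166 : le (run cls4 4 tr166 [[1, 0, 0, 0, 1, 0, 0], [3, 3, 1, 1, 4, 1, 1], [2, 2, 2,
  1, 3, 1, 1], [1, 1, 1, 1, 2, 1, 1], [2, 2, 1, 1, 3, 1, 0], [1, 1, 0, 0, 1, 1, 0], [1, 1, 0, 0,
  2, 1, 1]] 281474976186365 [99, 99, 147, 147, 99, 243, 243]) 368686783227 = true := by
  decide +kernel

end Pool.Agent.Work.MP_122e00_nt.Sharp.Cx

end

section

set_option autoImplicit false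

set_option maxRecDepth 100000

/-!
# The certificate: data
-/

namespace Pool.Agent.Work.MP_122e00_nt.Sharp.Cx

/-- data -/
noncomputable def tr167 : Ct := (.dc 0 1 0 (.ct 0 5 1 1 1 (.ct 0 1 1 1 1 (.ct 2 5 1 1 1 (.ct 1
  2 1 1 1 (.ct 3 5 1 1 1 (.dc 1 3 1 (.lf 2 6 224)) (.dc 1 3 0 (.lf 2 7 224))) (.ct 3 5 1 1 1 (.dc
  1 3 1 (.ct 1 3 1 1 1 (.lf 2 5 224) (.ct 1 5 1 1 1 (.lf 2 10 224) (.lf 1 10 208)))) (.dc 1 3 0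
  (.ct 1 5 1 1 1 (.lf 2 6 224) (.lf 1 7 208))))) (.dc 1 3 0 (.ct 1 5 1 1 1 (.lf 2 6 224) (.lf 1 8
  208)))) (.ct 2 5 1 1 1 (.ct 3 5 1 1 1 (.dc 1 3 1 (.lf 2 6 240)) (.dc 1 3 0 (.lf 2 7 240))) (.dc
  1 3 0 (.lf 2 6 240)))) (.dc 1 3 0 (.ct 1 5 1 1 1 (.lf 2 6 224) (.lf 1 8 208)))))

theorem dt167 : le (run cls4 4 tr167 [[3, 2, 2, 1, 4, 1, 1], [2, 2, 1, 1, 2, 0, 0], [2, 2, 2,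
  1, 3, 1, 1], [1, 1, 1, 1, 2, 1, 1], [2, 2, 1, 1, 3, 1, 0], [1, 1, 0, 0, 1, 1, 0], [3, 3, 1, 1,
  4, 1, 1]] 281474976186365 [99, 99, 147, 147, 99, 243, 243]) 1859497233862 = true := by
  decide +kernel

/-- data -/
noncomputable def tr168 : Ct := (.dc 0 1 0 (.ct 0 5 1 1 1 (.ct 0 1 1 1 1 (.ct 2 5 1 1 1 (.ct 1
  2 1 1 1 (.ct 3 5 1 1 1 (.dc 1 3 1 (.lf 2 5 256)) (.dc 1 3 0 (.lf 2 6 256))) (.ct 3 5 1 1 1 (.dc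
  1 3 1 (.ct 1 3 1 1 1 (.lf 2 5 240) (.ct 1 5 1 1 1 (.lf 2 10 240) (.lf 1 10 240)))) (.dc 1 3 0
  (.ct 1 5 1 1 1 (.lf 2 6 256) (.lf 1 7 224))))) (.dc 1 3 0 (.ct 1 5 1 1 1 (.lf 2 5 256) (.lf 1 7
  224)))) (.ct 2 5 1 1 1 (.ct 3 5 1 1 1 (.dc 1 3 1 (.lf 2 6 224)) (.dc 1 3 0 (.lf 2 7 224))) (.dc
  1 3 0 (.lf 2 6 224)))) (.dc 1 3 0 (.ct 1 5 1 1 1 (.lf 2 7 208) (.lf 1 8 192)))))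

theorem dt168 : le (run cls4 4 tr168 [[2, 1, 1, 1, 3, 1, 1], [2, 2, 1, 1, 2, 0, 0], [3, 2, 2,
  1, 4, 1, 1], [1, 1, 1, 1, 2, 1, 1], [2, 2, 1, 1, 3, 1, 0], [1, 1, 0, 0, 1, 1, 0], [3, 3, 1, 1,
  4, 1, 1]] 281474976186365 [99, 99, 147, 147, 99, 243, 243]) 1881058703605 = true := by
  decide +kernel

end Pool.Agent.Work.MP_122e00_nt.Sharp.Cx

end
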