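import Pool.Agent.Work.MP_122e00_nt.Bd.B03

/-! Bundle of small proof modules (one section per former module). -/

section

set_option autoImplicit false

set_option maxRecDepth 100000

/-!
# The certificate: data
-/

namespace Pool.Agent.Work.MP_122e00_nt.Sharp.Cx

/-- data -/
noncomputable def tr169 : Ct := (.dc 0 1 1 (.ct 2 5 1 1 1 (.ct 1 2 1 1 1 (.ct 3 5 1 1 1 (.dc 1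
  3 1 (.lf 2 12 224)) (.dc 1 3 0 (.lf 2 12 208))) (.ct 3 5 1 1 1 (.dc 1 3 1 (.ct 1 3 1 1 1 (.lf 2
  12 224) (.ct 1 5 1 1 1 (.lf 2 13 240) (.lf 1 12 240)))) (.dc 1 3 0 (.ct 1 5 1 1 1 (.lf 2 12
  224) (.lf 1 11 224))))) (.dc 1 3 0 (.ct 1 5 1 1 1 (.lf 2 12 208) (.lf 1 11 208)))))

theorem dt169 : le (run cls4 4 tr169 [[1, 0, 0, 0, 1, 0, 0], [2, 2, 1, 1, 2, 0, 0], [3, 2, 2,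
  1, 4, 1, 1], [2, 1, 1, 1, 3, 1, 1], [2, 2, 1, 1, 3, 1, 0], [1, 1, 0, 0, 1, 1, 0], [3, 3, 1, 1,
  4, 1, 1]] 281474976186365 [99, 99, 147, 147, 99, 243, 243]) 223588868514 = true := by
  decide +kernel

/-- data -/
noncomputable def tr170 : Ct := (.dc 1 3 0 (.ct 4 6 1 1 1 (.dc 0 12 0 (.ct 1 6 1 1 1 (.ct 0 2 1
  1 1 (.dc 0 1 0 (.ct 5 6 1 1 1 (.lf 3 7 176) (.lf 2 6 192))) (.ct 0 3 1 1 1 (.dc 0 1 0 (.ct 5 6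
  1 1 1 (.lf 3 7 192) (.lf 2 7 192))) (.dc 0 1 1 (.ct 5 6 1 1 1 (.lf 3 11 192) (.lf 2 12 192)))))
  (.ct 0 2 1 1 1 (.dc 0 1 0 (.lf 1 8 176)) (.ct 0 3 1 1 1 (.dc 0 1 0 (.lf 1 8 176)) (.dc 0 1 1
  (.lf 1 11 176)))))) (.dc 0 12 1 (.ct 0 2 1 1 1 (.dc 0 1 0 (.lf 1 7 176)) (.ct 0 3 1 1 1 (.dc 0
  1 0 (.lf 1 7 176)) (.dc 0 1 1 (.lf 1 11 176)))))))

theorem dt170 : le (run cls4 4 tr170 [[1, 0, 0, 0, 1, 0, 0], [2, 2, 1, 1, 2, 0, 0], [2, 2, 2,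
  1, 3, 1, 1], [1, 1, 1, 1, 2, 1, 1], [1, 1, 1, 1, 2, 0, 0], [2, 2, 1, 1, 3, 1, 0], [1, 1, 0, 0,
  2, 1, 1]] 281474976182269 [99, 99, 147, 147, 99, 243, 243]) 686181944508 = true := by
  decide +kernel

/-- data -/
noncomputable def tr171 : Ct := (.ct 1 2 1 1 1 (.dc 2 3 0 (.ct 0 1 1 1 1 (.dc 0 1 0 (.ct 2 5 1
  1 1 (.ct 3 5 1 1 1 (.dc 1 3 1 (.lf 3 6 176)) (.dc 1 3 0 (.lf 3 8 176))) (.dc 1 3 0 (.lf 3 7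
  176)))) (.ct 0 2 1 1 1 (.dc 0 1 0 (.ct 0 5 1 1 1 (.ct 2 5 1 1 1 (.ct 3 5 1 1 1 (.dc 1 3 1 (.lf
  3 6 192)) (.dc 1 3 0 (.lf 3 8 192))) (.dc 1 3 0 (.lf 3 7 192))) (.dc 1 3 0 (.lf 3 7 192))))
  (.ct 2 5 1 1 1 (.ct 0 3 1 1 1 (.dc 0 1 0 (.ct 0 5 1 1 1 (.ct 3 5 1 1 1 (.dc 1 3 1 (.lf 3 6
  192)) (.dc 1 3 0 (.lf 3 8 192))) (.dc 1 3 0 (.lf 3 8 208)))) (.dc 0 1 1 (.ct 3 5 1 1 1 (.dc 1 3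
  1 (.lf 3 11 192)) (.dc 1 3 0 (.lf 3 11 208))))) (.dc 1 3 0 (.ct 0 3 1 1 1 (.dc 0 1 0 (.lf 3 7
  208)) (.dc 0 1 1 (.lf 3 11 208)))))))) (.ct 1 3 1 1 1 (.dc 2 3 0 (.ct 0 1 1 1 1 (.dc 0 1 0 (.ct
  3 5 1 1 1 (.dc 1 3 1 (.lf 3 6 176)) (.dc 1 3 0 (.lf 3 8 176)))) (.ct 0 2 1 1 1 (.dc 0 1 0 (.ct
  3 5 1 1 1 (.dc 1 3 1 (.lf 3 5 176)) (.dc 1 3 0 (.lf 3 7 176)))) (.ct 0 3 1 1 1 (.dc 0 1 0 (.ct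
  0 5 1 1 1 (.ct 3 5 1 1 1 (.dc 1 3 1 (.lf 3 6 176)) (.dc 1 3 0 (.lf 3 8 176))) (.dc 1 3 0 (.lf 3
  7 192)))) (.dc 0 1 1 (.ct 3 5 1 1 1 (.dc 1 3 1 (.lf 3 11 176)) (.dc 1 3 0 (.lf 3 11 192))))))))
  (.dc 1 3 1 (.dc 2 3 1 (.ct 0 2 1 1 1 (.dc 0 1 0 (.lf 3 10 192)) (.ct 0 3 1 1 1 (.dc 0 1 0 (.lf
  3 10 192)) (.dc 0 1 1 (.lf 3 9 176))))))))

theorem dt171 : le (run cls4 4 tr171 [[1, 0, 0, 0, 1, 0, 0], [1, 1, 0, 0, 0, 0, 0], [2, 2, 2,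
  1, 3, 1, 1], [1, 1, 1, 1, 2, 1, 1], [3, 3, 1, 1, 4, 1, 1], [1, 1, 0, 0, 1, 1, 0], [1, 1, 0, 0,
  2, 1, 1]] 281440616447997 [99, 99, 147, 147, 99, 243, 243]) 199810783208 = true := by
  decide +kernel

/-- data -/
noncomputable def tr172 : Ct := (.dc 0 1 0 (.ct 2 5 1 1 1 (.ct 2 4 1 1 1 (.ct 3 5 1 1 1 (.dc 1
  3 1 (.ct 3 4 1 1 1 (.ct 4 5 1 1 1 (.lf 2 11 192) (.lf 1 10 192)) (.lf 2 4 192))) (.dc 1 3 0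
  (.ct 4 5 1 1 1 (.lf 2 6 192) (.lf 1 8 192)))) (.ct 3 5 1 1 1 (.dc 1 3 1 (.lf 2 5 176)) (.dc 1 3
  0 (.lf 2 6 176)))) (.dc 1 3 0 (.ct 4 5 1 1 1 (.lf 2 5 176) (.lf 1 8 176)))))

theorem dt172 : le (run cls4 4 tr172 [[4, 3, 2, 1, 4, 1, 1], [3, 3, 2, 1, 3, 1, 1], [2, 2, 2,
  1, 3, 1, 1], [1, 1, 1, 1, 2, 1, 1], [2, 2, 1, 1, 2, 0, 0], [1, 1, 0, 0, 1, 1, 0], [3, 3, 1, 1,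
  4, 1, 1]] 281474976186365 [99, 99, 147, 147, 99, 243, 243]) 1746566609856 = true := by
  decide +kernel

end Pool.Agent.Work.MP_122e00_nt.Sharp.Cx

end

section

set_option autoImplicit false

set_option maxRecDepth 100000

/-!
# The certificate: data
-/

namespace Pool.Agent.Work.MP_122e00_nt.Sharp.Cx

/-- data -/
noncomputable def tr173 : Ct := (.dc 0 1 0 (.ct 0 5 1 1 1 (.ct 0 4 1 1 1 (.ct 2 5 1 1 1 (.ct 2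
  4 1 1 1 (.ct 3 5 1 1 1 (.dc 1 3 1 (.ct 3 4 1 1 1 (.ct 4 5 1 1 1 (.lf 2 10 224) (.lf 1 10 224))
  (.lf 2 5 224))) (.dc 1 3 0 (.ct 4 5 1 1 1 (.lf 2 6 224) (.lf 1 8 224)))) (.ct 3 5 1 1 1 (.dc 1
  3 1 (.lf 2 5 208)) (.dc 1 3 0 (.lf 2 6 208)))) (.dc 1 3 0 (.ct 4 5 1 1 1 (.lf 2 6 208) (.lf 1 8
  208)))) (.ct 2 5 1 1 1 (.ct 3 5 1 1 1 (.dc 1 3 1 (.lf 2 6 224)) (.dc 1 3 0 (.lf 2 7 224))) (.dc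
  1 3 0 (.lf 2 6 224)))) (.dc 1 3 0 (.ct 4 5 1 1 1 (.lf 2 5 224) (.lf 1 8 208)))))

theorem dt173 : le (run cls4 4 tr173 [[3, 2, 2, 1, 4, 1, 1], [4, 3, 2, 1, 4, 1, 1], [2, 2, 2,
  1, 3, 1, 1], [1, 1, 1, 1, 2, 1, 1], [2, 2, 1, 1, 2, 0, 0], [1, 1, 0, 0, 1, 1, 0], [3, 3, 1, 1,
  4, 1, 1]] 281474976186365 [99, 99, 147, 147, 99, 243, 243]) 1775207235393 = true := by
  decide +kernel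

/-- data -/
noncomputable def tr174 : Ct := (.dc 0 1 0 (.ct 0 5 1 1 1 (.ct 0 4 1 1 1 (.ct 2 5 1 1 1 (.ct 2
  4 1 1 1 (.ct 3 5 1 1 1 (.dc 1 3 1 (.ct 3 4 1 1 1 (.ct 4 5 1 1 1 (.lf 2 10 256) (.lf 1 10 256))
  (.lf 2 5 256))) (.dc 1 3 0 (.ct 4 5 1 1 1 (.lf 2 6 256) (.lf 1 8 240)))) (.ct 3 5 1 1 1 (.dc 1
  3 1 (.lf 2 5 256)) (.dc 1 3 0 (.lf 2 6 256)))) (.dc 1 3 0 (.ct 4 5 1 1 1 (.lf 2 5 256) (.lf 1 8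
  224)))) (.ct 2 5 1 1 1 (.ct 3 5 1 1 1 (.dc 1 3 1 (.lf 2 5 224)) (.dc 1 3 0 (.lf 2 7 224))) (.dc
  1 3 0 (.lf 2 5 224)))) (.dc 1 3 0 (.ct 4 5 1 1 1 (.lf 2 6 208) (.lf 1 8 208)))))

theorem dt174 : le (run cls4 4 tr174 [[2, 1, 1, 1, 3, 1, 1], [4, 3, 2, 1, 4, 1, 1], [3, 2, 2,
  1, 4, 1, 1], [1, 1, 1, 1, 2, 1, 1], [2, 2, 1, 1, 2, 0, 0], [1, 1, 0, 0, 1, 1, 0], [3, 3, 1, 1,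
  4, 1, 1]] 281474976186365 [99, 99, 147, 147, 99, 243, 243]) 1794063573758 = true := by
  decide +kernel

end Pool.Agent.Work.MP_122e00_nt.Sharp.Cx

end

section

set_option autoImplicit false

set_option maxRecDepth 100000

/-!
# The certificate: data
-/

namespace Pool.Agent.Work.MP_122e00_nt.Sharp.Cx

/-- data -/
noncomputable def tr175 : Ct := (.dc 0 1 1 (.ct 2 5 1 1 1 (.ct 2 4 1 1 1 (.ct 3 5 1 1 1 (.dc 1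
  3 1 (.ct 3 4 1 1 1 (.ct 4 5 1 1 1 (.lf 2 13 240) (.lf 1 12 240)) (.lf 2 12 224))) (.dc 1 3 0
  (.ct 4 5 1 1 1 (.lf 2 12 240) (.lf 1 11 240)))) (.ct 3 5 1 1 1 (.dc 1 3 1 (.lf 2 12 224)) (.dc
  1 3 0 (.lf 2 12 240)))) (.dc 1 3 0 (.ct 4 5 1 1 1 (.lf 2 12 240) (.lf 1 11 208)))))

theorem dt175 : le (run cls4 4 tr175 [[1, 0, 0, 0, 1, 0, 0], [4, 3, 2, 1, 4, 1, 1], [3, 2, 2,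
  1, 4, 1, 1], [2, 1, 1, 1, 3, 1, 1], [2, 2, 1, 1, 2, 0, 0], [1, 1, 0, 0, 1, 1, 0], [3, 3, 1, 1,
  4, 1, 1]] 281474976186365 [99, 99, 147, 147, 99, 243, 243]) 211826227266 = true := by
  decide +kernel

/-- data -/
noncomputable def tr176 : Ct := (.dc 0 1 0 (.ct 3 5 1 1 1 (.dc 1 3 1 (.ct 3 4 1 1 1 (.ct 4 5 1
  1 1 (.lf 2 9 176) (.lf 1 9 176)) (.lf 2 6 176))) (.dc 1 3 0 (.ct 4 5 1 1 1 (.lf 2 7 176) (.lf 1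
  9 176)))))

theorem dt176 : le (run cls4 4 tr176 [[3, 2, 1, 1, 3, 1, 1], [2, 2, 1, 1, 2, 1, 1], [3, 3, 2,
  1, 3, 1, 1], [1, 1, 1, 1, 2, 1, 1], [2, 2, 1, 1, 2, 0, 0], [1, 1, 0, 0, 1, 1, 0], [3, 3, 1, 1,
  4, 1, 1]] 281474976186365 [99, 99, 147, 147, 99, 243, 243]) 1691635625409 = true := by
  decide +kernel

/-- data -/
noncomputable def tr177 : Ct := (.ct 0 2 1 1 1 (.dc 0 1 0 (.ct 3 5 1 1 1 (.dc 1 3 1 (.ct 3 4 1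
  1 1 (.ct 4 5 1 1 1 (.lf 2 11 192) (.lf 1 10 192)) (.lf 2 5 192))) (.dc 1 3 0 (.ct 4 5 1 1 1
  (.lf 2 6 192) (.lf 1 8 192))))) (.ct 0 3 1 1 1 (.dc 0 1 0 (.ct 0 5 1 1 1 (.ct 0 4 1 1 1 (.ct 3
  5 1 1 1 (.dc 1 3 1 (.ct 3 4 1 1 1 (.ct 4 5 1 1 1 (.lf 2 11 224) (.lf 1 10 224)) (.lf 2 5 224)))
  (.dc 1 3 0 (.ct 4 5 1 1 1 (.lf 2 6 224) (.lf 1 8 224)))) (.ct 3 5 1 1 1 (.dc 1 3 1 (.lf 2 5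
  208)) (.dc 1 3 0 (.lf 2 6 208)))) (.dc 1 3 0 (.ct 4 5 1 1 1 (.lf 2 6 224) (.lf 1 8 224)))))
  (.dc 0 1 1 (.ct 3 5 1 1 1 (.dc 1 3 1 (.ct 3 4 1 1 1 (.ct 4 5 1 1 1 (.lf 2 12 208) (.lf 1 12
  208)) (.lf 2 12 208))) (.dc 1 3 0 (.ct 4 5 1 1 1 (.lf 2 12 224) (.lf 1 12 224)))))))

theorem dt177 : le (run cls4 4 tr177 [[1, 0, 0, 0, 1, 0, 0], [3, 2, 1, 1, 3, 1, 1], [3, 3, 2,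
  1, 3, 1, 1], [1, 1, 1, 1, 2, 1, 1], [2, 2, 1, 1, 2, 0, 0], [1, 1, 0, 0, 1, 1, 0], [3, 3, 1, 1,
  4, 1, 1]] 281474976186365 [99, 99, 147, 147, 99, 243, 243]) 631516371204 = true := by
  decide +kernel

end Pool.Agent.Work.MP_122e00_nt.Sharp.Cx

end

section

set_option autoImplicit false

set_option maxRecDepth 100000

/-!
# The certificate: data
-/

namespace Pool.Agent.Work.MP_122e00_nt.Sharp.Cx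

/-- data -/
noncomputable def tr178 : Ct := (.dc 1 3 1 (.dc 2 3 1 (.ct 0 2 1 1 1 (.dc 0 1 0 (.ct 4 5 1 1 1
  (.lf 2 11 192) (.lf 1 11 192))) (.ct 0 3 1 1 1 (.dc 0 1 0 (.ct 4 5 1 1 1 (.lf 2 11 192) (.lf 1
  11 192))) (.dc 0 1 1 (.ct 4 5 1 1 1 (.lf 2 10 176) (.lf 1 10 176)))))))

theorem dt178 : le (run cls4 4 tr178 [[1, 0, 0, 0, 1, 0, 0], [1, 1, 0, 0, 0, 0, 0], [3, 3, 2,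
  1, 3, 1, 1], [2, 2, 1, 1, 2, 1, 1], [2, 2, 1, 1, 2, 0, 0], [1, 1, 0, 0, 1, 1, 0], [3, 3, 1, 1,
  4, 1, 1]] 281440616447997 [99, 99, 147, 147, 99, 243, 243]) 237182933233 = true := by
  decide +kernel

/-- data -/
noncomputable def tr179 : Ct := (.dc 0 1 0 (.dc 0 9 0 (.ct 0 5 1 1 1 (.ct 2 5 1 1 1 (.ct 4 5 1
  1 1 (.dc 2 7 0 (.ct 1 3 1 1 1 (.dc 1 3 0 (.ct 1 5 1 1 1 (.ct 3 5 1 1 1 (.ct 4 5 1 1 1 (.dc 2 15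
  0 (.lf 3 6 192)) (.dc 2 15 1 (.lf 3 8 192))) (.dc 2 15 1 (.lf 3 9 176))) (.dc 2 15 1 (.lf 3 7
  176)))) (.ct 3 5 1 1 1 (.ct 1 4 1 1 1 (.dc 1 3 0 (.ct 1 5 1 1 1 (.ct 4 5 1 1 1 (.dc 2 15 0 (.lf
  3 5 192)) (.dc 2 15 1 (.lf 3 6 192))) (.dc 2 15 1 (.lf 3 6 192)))) (.dc 1 3 1 (.ct 4 5 1 1 1
  (.dc 2 15 0 (.lf 3 9 176)) (.dc 2 15 1 (.lf 3 9 192))))) (.dc 2 15 1 (.ct 1 4 1 1 1 (.dc 1 3 0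
  (.lf 3 6 192)) (.dc 1 3 1 (.lf 3 9 192))))))) (.dc 2 7 1 (.dc 2 15 1 (.ct 1 3 1 1 1 (.dc 1 3 0
  (.lf 3 8 176)) (.ct 1 4 1 1 1 (.dc 1 3 0 (.lf 3 6 192)) (.ct 1 5 1 1 1 (.dc 1 3 0 (.lf 3 6
  208)) (.dc 1 3 1 (.lf 3 8 176)))))))) (.dc 2 7 1 (.dc 2 15 1 (.ct 1 3 1 1 1 (.dc 1 3 0 (.lf 3 9
  160)) (.ct 1 4 1 1 1 (.dc 1 3 0 (.lf 3 7 160)) (.dc 1 3 1 (.lf 3 9 160))))))) (.dc 2 7 1 (.dc 2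
  15 1 (.ct 1 3 1 1 1 (.dc 1 3 0 (.lf 3 10 160)) (.ct 1 4 1 1 1 (.dc 1 3 0 (.lf 3 7 160)) (.dc 1
  3 1 (.lf 3 10 160)))))))))

theorem dt179 : le (run cls4 4 tr179 [[2, 1, 1, 0, 2, 1, 1], [1, 1, 0, 0, 1, 1, 0], [1, 1, 1,
  0, 1, 1, 1], [1, 1, 1, 1, 2, 1, 1], [2, 2, 2, 1, 3, 1, 1], [0, 0, 0, 0, 1, 1, 0], [1, 1, 0, 0,
  2, 1, 1]] 140187732016637 [62, 62, 74, 122, 56, 152, 182]) 594019117326 = true := by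
  decide +kernel

/-- data -/
noncomputable def tr180 : Ct := (.dc 0 9 1 (.ct 2 5 1 1 1 (.ct 4 5 1 1 1 (.dc 2 7 0 (.ct 0 3 1
  1 1 (.dc 0 1 0 (.ct 0 1 1 1 1 (.ct 0 5 1 1 1 (.ct 1 3 1 1 1 (.dc 1 3 0 (.ct 1 5 1 1 1 (.ct 3 5
  1 1 1 (.ct 4 5 1 1 1 (.dc 2 15 0 (.lf 3 6 192)) (.dc 2 15 1 (.lf 3 7 192))) (.dc 2 15 1 (.lf 3
  8 192))) (.dc 2 15 1 (.lf 3 9 192)))) (.ct 3 5 1 1 1 (.ct 1 4 1 1 1 (.dc 1 3 0 (.ct 1 5 1 1 1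
  (.ct 4 5 1 1 1 (.dc 2 15 0 (.lf 3 4 192)) (.dc 2 15 1 (.lf 3 6 192))) (.dc 2 15 1 (.lf 3 6
  208)))) (.dc 1 3 1 (.ct 4 5 1 1 1 (.dc 2 15 0 (.lf 3 8 192)) (.dc 2 15 1 (.lf 3 10 208)))))
  (.dc 2 15 1 (.ct 1 4 1 1 1 (.dc 1 3 0 (.lf 3 7 208)) (.dc 1 3 1 (.lf 3 10 208)))))) (.dc 2 15 1
  (.ct 1 3 1 1 1 (.dc 1 3 0 (.lf 3 9 192)) (.ct 1 4 1 1 1 (.dc 1 3 0 (.lf 3 6 208)) (.dc 1 3 1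
  (.lf 3 9 208)))))) (.dc 1 3 0 (.ct 0 5 1 1 1 (.ct 1 5 1 1 1 (.ct 3 5 1 1 1 (.ct 4 5 1 1 1 (.dc
  2 15 0 (.lf 3 5 160)) (.dc 2 15 1 (.lf 3 6 192))) (.dc 2 15 1 (.lf 3 7 192))) (.dc 2 15 1 (.lf
  3 8 192))) (.dc 2 15 1 (.lf 3 7 176)))))) (.ct 1 3 1 1 1 (.dc 1 3 0 (.ct 1 5 1 1 1 (.ct 3 5 1 1
  1 (.ct 0 4 1 1 1 (.dc 0 1 0 (.ct 0 5 1 1 1 (.ct 4 5 1 1 1 (.dc 2 15 0 (.lf 3 5 176)) (.dc 2 15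
  1 (.lf 3 6 208))) (.dc 2 15 1 (.lf 3 7 208)))) (.dc 0 1 1 (.ct 4 5 1 1 1 (.dc 2 15 0 (.lf 3 11
  176)) (.dc 2 15 1 (.lf 3 12 176))))) (.dc 2 15 1 (.ct 0 4 1 1 1 (.dc 0 1 0 (.lf 3 7 192)) (.dc
  0 1 1 (.lf 3 12 160))))) (.dc 2 15 1 (.ct 0 4 1 1 1 (.dc 0 1 0 (.lf 3 6 192)) (.dc 0 1 1 (.lf 3
  12 192)))))) (.ct 3 5 1 1 1 (.ct 0 4 1 1 1 (.dc 0 1 0 (.ct 0 1 1 1 1 (.ct 0 5 1 1 1 (.ct 1 4 1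
  1 1 (.dc 1 3 0 (.ct 1 5 1 1 1 (.ct 4 5 1 1 1 (.dc 2 15 0 (.lf 3 5 192)) (.dc 2 15 1 (.lf 3 6
  224))) (.dc 2 15 1 (.lf 3 6 240)))) (.dc 1 3 1 (.ct 4 5 1 1 1 (.dc 2 15 0 (.lf 3 7 192)) (.dc 2
  15 1 (.lf 3 9 208))))) (.dc 2 15 1 (.ct 1 4 1 1 1 (.dc 1 3 0 (.lf 3 6 240)) (.dc 1 3 1 (.lf 3 8
  208))))) (.dc 1 3 0 (.ct 0 5 1 1 1 (.ct 1 5 1 1 1 (.ct 4 5 1 1 1 (.dc 2 15 0 (.lf 3 4 208))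
  (.dc 2 15 1 (.lf 3 6 240))) (.dc 2 15 1 (.lf 3 6 240))) (.dc 2 15 1 (.lf 3 6 208)))))) (.dc 0 1
  1 (.ct 1 4 1 1 1 (.dc 1 3 0 (.ct 1 5 1 1 1 (.ct 4 5 1 1 1 (.dc 2 15 0 (.lf 3 11 208)) (.dc 2 15
  1 (.lf 3 12 208))) (.dc 2 15 1 (.lf 3 12 192)))) (.dc 1 3 1 (.ct 4 5 1 1 1 (.dc 2 15 0 (.lf 3
  11 192)) (.dc 2 15 1 (.lf 3 12 192))))))) (.dc 2 15 1 (.ct 0 4 1 1 1 (.dc 0 1 0 (.ct 0 1 1 1 1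
  (.ct 1 4 1 1 1 (.dc 1 3 0 (.lf 3 6 208)) (.dc 1 3 1 (.lf 3 8 208))) (.dc 1 3 0 (.lf 3 6 192))))
  (.dc 0 1 1 (.ct 1 4 1 1 1 (.dc 1 3 0 (.lf 3 12 192)) (.dc 1 3 1 (.lf 3 12 192)))))))))) (.dc 2
  7 1 (.dc 2 15 1 (.ct 0 3 1 1 1 (.dc 0 1 0 (.ct 0 1 1 1 1 (.ct 1 3 1 1 1 (.dc 1 3 0 (.lf 3 8
  176)) (.ct 1 4 1 1 1 (.dc 1 3 0 (.lf 3 6 192)) (.ct 1 5 1 1 1 (.dc 1 3 0 (.lf 3 7 208)) (.dc 1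
  3 1 (.lf 3 9 208))))) (.dc 1 3 0 (.lf 3 7 176)))) (.ct 1 3 1 1 1 (.dc 1 3 0 (.ct 0 4 1 1 1 (.dc
  0 1 0 (.lf 3 7 176)) (.ct 0 5 1 1 1 (.dc 0 1 0 (.lf 3 7 192)) (.dc 0 1 1 (.lf 3 12 192)))))
  (.ct 0 4 1 1 1 (.dc 0 1 0 (.ct 0 1 1 1 1 (.ct 1 4 1 1 1 (.dc 1 3 0 (.lf 3 6 208)) (.ct 1 5 1 1
  1 (.dc 1 3 0 (.lf 3 7 208)) (.dc 1 3 1 (.lf 3 7 208)))) (.dc 1 3 0 (.lf 3 6 192)))) (.ct 1 4 1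
  1 1 (.dc 1 3 0 (.ct 0 5 1 1 1 (.dc 0 1 0 (.lf 3 6 208)) (.dc 0 1 1 (.lf 3 12 208)))) (.ct 0 5 1
  1 1 (.dc 0 1 0 (.ct 0 1 1 1 1 (.ct 1 5 1 1 1 (.dc 1 3 0 (.lf 3 7 192)) (.dc 1 3 1 (.lf 3 7
  192))) (.dc 1 3 0 (.lf 3 6 208)))) (.dc 0 1 1 (.ct 1 5 1 1 1 (.dc 1 3 0 (.lf 3 12 208)) (.dc 1
  3 1 (.lf 3 12 192)))))))))))) (.dc 2 7 1 (.dc 2 15 1 (.ct 0 3 1 1 1 (.dc 0 1 0 (.ct 0 1 1 1 1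
  (.ct 1 3 1 1 1 (.dc 1 3 0 (.lf 3 8 176)) (.ct 1 4 1 1 1 (.dc 1 3 0 (.lf 3 6 192)) (.dc 1 3 1
  (.lf 3 9 192)))) (.dc 1 3 0 (.lf 3 7 176)))) (.ct 1 3 1 1 1 (.dc 1 3 0 (.ct 0 4 1 1 1 (.dc 0 1
  0 (.lf 3 7 176)) (.dc 0 1 1 (.lf 3 12 176)))) (.ct 0 4 1 1 1 (.dc 0 1 0 (.ct 0 1 1 1 1 (.ct 1 4
  1 1 1 (.dc 1 3 0 (.lf 3 6 208)) (.dc 1 3 1 (.lf 3 7 208))) (.dc 1 3 0 (.lf 3 6 192)))) (.dc 0 1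
  1 (.ct 1 4 1 1 1 (.dc 1 3 0 (.lf 3 12 192)) (.dc 1 3 1 (.lf 3 12 192)))))))))))

theorem dt180 : le (run cls4 4 tr180 [[1, 0, 0, 0, 1, 0, 0], [1, 1, 0, 0, 1, 1, 0], [2, 1, 1,
  0, 2, 1, 1], [1, 1, 1, 1, 2, 1, 1], [2, 2, 2, 1, 3, 1, 1], [0, 0, 0, 0, 1, 1, 0], [1, 1, 0, 0,
  2, 1, 1]] 140187732016637 [62, 62, 74, 122, 56, 152, 182]) 294340116403 = true := by
  decide +kernel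

/-- data -/
noncomputable def tr181 : Ct := (.dc 2 7 1 (.dc 2 11 1 (.dc 2 15 1 (.ct 0 2 1 1 1 (.dc 0 1 0
  (.dc 0 9 0 (.ct 1 3 1 1 1 (.dc 2 3 0 (.ct 3 5 1 1 1 (.ct 4 5 1 1 1 (.dc 1 3 1 (.lf 3 9 160))
  (.dc 1 3 0 (.lf 3 6 160))) (.dc 1 3 0 (.lf 3 9 160)))) (.ct 1 4 1 1 1 (.dc 2 3 0 (.ct 4 5 1 1 1
  (.dc 1 3 1 (.lf 3 7 192)) (.dc 1 3 0 (.lf 3 7 192)))) (.dc 1 3 1 (.dc 2 3 1 (.lf 3 11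
  176))))))) (.dc 0 9 1 (.ct 1 3 1 1 1 (.dc 2 3 0 (.ct 0 1 1 1 1 (.dc 0 1 0 (.ct 3 5 1 1 1 (.ct 4
  5 1 1 1 (.dc 1 3 1 (.lf 3 7 160)) (.dc 1 3 0 (.lf 3 7 160))) (.dc 1 3 0 (.lf 3 8 160)))) (.ct 0
  3 1 1 1 (.dc 0 1 0 (.ct 0 5 1 1 1 (.ct 3 5 1 1 1 (.ct 4 5 1 1 1 (.dc 1 3 1 (.lf 3 7 176)) (.dc
  1 3 0 (.lf 3 6 176))) (.dc 1 3 0 (.lf 3 8 160))) (.dc 1 3 0 (.lf 3 8 176)))) (.ct 3 5 1 1 1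
  (.ct 0 4 1 1 1 (.dc 0 1 0 (.ct 0 5 1 1 1 (.ct 4 5 1 1 1 (.dc 1 3 1 (.lf 3 5 192)) (.dc 1 3 0
  (.lf 3 5 192))) (.dc 1 3 0 (.lf 3 5 176)))) (.dc 0 1 1 (.ct 4 5 1 1 1 (.dc 1 3 1 (.lf 3 11
  176)) (.dc 1 3 0 (.lf 3 11 176))))) (.dc 1 3 0 (.ct 0 4 1 1 1 (.dc 0 1 0 (.lf 3 6 176)) (.dc 0
  1 1 (.lf 3 12 176)))))))) (.ct 1 4 1 1 1 (.dc 2 3 0 (.ct 0 1 1 1 1 (.dc 0 1 0 (.ct 4 5 1 1 1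
  (.dc 1 3 1 (.lf 3 6 192)) (.dc 1 3 0 (.lf 3 7 192)))) (.ct 0 3 1 1 1 (.dc 0 1 0 (.ct 4 5 1 1 1
  (.dc 1 3 1 (.lf 3 6 160)) (.dc 1 3 0 (.lf 3 7 160)))) (.ct 0 4 1 1 1 (.dc 0 1 0 (.ct 0 5 1 1 1
  (.ct 4 5 1 1 1 (.dc 1 3 1 (.lf 3 5 160)) (.dc 1 3 0 (.lf 3 6 160))) (.dc 1 3 0 (.lf 3 5 192))))
  (.dc 0 1 1 (.ct 4 5 1 1 1 (.dc 1 3 1 (.lf 3 11 160)) (.dc 1 3 0 (.lf 3 11 192)))))))) (.dc 1 3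
  1 (.dc 2 3 1 (.ct 0 3 1 1 1 (.dc 0 1 0 (.lf 3 11 176)) (.ct 0 4 1 1 1 (.dc 0 1 0 (.lf 3 10
  176)) (.dc 0 1 1 (.lf 3 9 144)))))))))))))

theorem dt181 : le (run cls4 4 tr181 [[1, 0, 0, 0, 1, 0, 0], [1, 1, 0, 0, 0, 0, 0], [1, 1, 1,
  0, 1, 1, 1], [1, 1, 1, 1, 2, 1, 1], [2, 2, 2, 1, 3, 1, 1], [1, 1, 0, 0, 1, 1, 0], [1, 1, 0, 0,
  2, 1, 1]] 131357279256061 [62, 62, 74, 122, 56, 152, 182]) 455799195116 = true := by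
  decide +kernel

end Pool.Agent.Work.MP_122e00_nt.Sharp.Cx

end

section

set_option autoImplicit false

set_option maxRecDepth 100000

/-!
# The certificate: data
-/

namespace Pool.Agent.Work.MP_122e00_nt.Sharp.Cx

/-- data -/
noncomputable def tr182 : Ct := (.dc 0 1 0 (.dc 1 14 1 (.ct 2 5 1 1 1 (.dc 2 7 0 (.ct 0 5 1 1 1
  (.ct 1 5 1 1 1 (.ct 2 5 1 1 1 (.ct 3 5 1 1 1 (.ct 5 6 1 1 1 (.dc 2 15 1 (.lf 2 9 176)) (.dc 2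
  15 0 (.lf 2 7 176))) (.dc 2 15 1 (.lf 2 9 160))) (.dc 2 15 1 (.lf 2 8 192))) (.dc 2 15 1 (.lf 2
  7 192))) (.dc 2 15 1 (.lf 2 7 192)))) (.dc 2 15 1 (.ct 2 4 1 1 1 (.dc 2 7 0 (.lf 2 7 192)) (.dc
  2 7 1 (.lf 2 7 192)))))))

theorem dt182 : le (run cls4 4 tr182 [[2, 1, 1, 1, 2, 1, 0], [2, 2, 1, 1, 3, 1, 0], [2, 2, 2,
  1, 3, 1, 1], [1, 1, 1, 1, 1, 1, 0], [1, 1, 1, 1, 3, 1, 0], [0, 0, 0, 0, 1, 1, 0], [1, 1, 1, 1,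
  2, 1, 1]] 140186658799613 [124, 136, 136, 136, 82, 238, 280]) 850759575621 = true := by
  decide +kernel

/-- data -/
noncomputable def tr183 : Ct := (.dc 2 7 0 (.ct 1 5 1 1 1 (.ct 3 5 1 1 1 (.ct 0 2 1 1 1 (.dc 0
  1 0 (.ct 0 5 1 1 1 (.ct 2 5 1 1 1 (.ct 5 6 1 1 1 (.dc 2 15 1 (.lf 2 9 176)) (.dc 2 15 0 (.lf 2
  7 176))) (.dc 2 15 1 (.lf 2 9 208))) (.dc 2 15 1 (.lf 2 8 208)))) (.ct 2 5 1 1 1 (.ct 0 6 1 1 1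
  (.dc 0 1 0 (.ct 0 5 1 1 1 (.ct 5 6 1 1 1 (.dc 2 15 1 (.lf 2 9 176)) (.dc 2 15 0 (.lf 2 7 176)))
  (.dc 2 15 1 (.lf 2 8 176)))) (.dc 0 1 1 (.ct 5 6 1 1 1 (.dc 2 15 1 (.lf 2 12 176)) (.dc 2 15 0
  (.lf 2 10 176))))) (.dc 2 15 1 (.ct 0 6 1 1 1 (.dc 0 1 0 (.lf 2 8 176)) (.dc 0 1 1 (.lf 2 13
  176)))))) (.dc 2 15 1 (.ct 0 2 1 1 1 (.dc 0 1 0 (.lf 2 7 192)) (.ct 0 6 1 1 1 (.dc 0 1 0 (.lf 2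
  7 160)) (.dc 0 1 1 (.lf 2 12 176)))))) (.dc 2 15 1 (.ct 0 2 1 1 1 (.dc 0 1 0 (.lf 2 6 192))
  (.ct 0 6 1 1 1 (.dc 0 1 0 (.lf 2 6 160)) (.dc 0 1 1 (.lf 2 12 176)))))))

theorem dt183 : le (run cls4 4 tr183 [[1, 0, 0, 0, 1, 0, 0], [2, 2, 1, 1, 3, 1, 0], [2, 2, 2,
  1, 4, 2, 1], [2, 1, 1, 1, 2, 1, 0], [1, 1, 1, 1, 3, 1, 0], [0, 0, 0, 0, 1, 1, 0], [1, 1, 1, 1,
  2, 1, 1]] 140187732541437 [124, 136, 136, 136, 82, 238, 280]) 326411758154 = true := by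
  decide +kernel

/-- data -/
noncomputable def tr184 : Ct := (.dc 2 15 1 (.ct 0 5 1 1 1 (.dc 0 1 0 (.ct 2 4 1 1 1 (.dc 2 7 0
  (.lf 2 6 176)) (.dc 2 7 1 (.lf 2 7 192)))) (.ct 0 6 1 1 1 (.dc 0 1 0 (.ct 2 4 1 1 1 (.dc 2 7 0
  (.lf 2 6 160)) (.dc 2 7 1 (.lf 2 7 160)))) (.ct 0 2 1 1 1 (.dc 0 1 0 (.ct 0 4 1 1 1 (.ct 2 4 1
  1 1 (.dc 2 7 0 (.lf 2 7 192)) (.dc 2 7 1 (.lf 2 9 192))) (.dc 2 7 1 (.lf 2 8 224)))) (.dc 0 1 1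
  (.ct 2 4 1 1 1 (.dc 2 7 0 (.lf 2 12 192)) (.dc 2 7 1 (.lf 2 12 208))))))))

theorem dt184 : le (run cls4 4 tr184 [[1, 0, 0, 0, 1, 0, 0], [2, 2, 1, 1, 3, 1, 0], [2, 2, 2,
  1, 3, 1, 1], [2, 1, 1, 1, 2, 1, 0], [1, 1, 1, 1, 3, 1, 0], [2, 2, 2, 1, 4, 2, 1], [1, 1, 1, 1,
  2, 1, 1]] 140187732541437 [124, 136, 136, 136, 82, 238, 280]) 698900497163 = true := by
  decide +kernel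

/-- data -/
noncomputable def tr185 : Ct := (.dc 2 15 1 (.ct 0 3 1 1 1 (.dc 0 1 0 (.dc 1 14 1 (.ct 2 5 1 1
  1 (.dc 2 7 0 (.lf 1 8 160)) (.dc 2 7 1 (.lf 1 9 160))))) (.dc 1 14 0 (.ct 0 6 1 1 1 (.dc 0 1 0
  (.ct 2 5 1 1 1 (.dc 2 7 0 (.lf 1 8 160)) (.dc 2 7 1 (.lf 1 9 160)))) (.ct 0 2 1 1 1 (.dc 0 1 0
  (.ct 0 5 1 1 1 (.ct 2 5 1 1 1 (.dc 2 7 0 (.lf 1 9 192)) (.dc 2 7 1 (.lf 1 10 192))) (.dc 2 7 1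
  (.lf 1 10 208)))) (.dc 0 1 1 (.ct 2 5 1 1 1 (.dc 2 7 0 (.lf 1 11 192)) (.dc 2 7 1 (.lf 1 11
  208)))))))))

theorem dt185 : le (run cls4 4 tr185 [[1, 0, 0, 0, 1, 0, 0], [2, 2, 1, 1, 3, 1, 0], [2, 2, 2,
  1, 3, 1, 1], [1, 1, 1, 1, 1, 1, 0], [1, 1, 1, 1, 2, 0, 0], [1, 1, 1, 1, 3, 1, 0], [1, 1, 1, 1,
  2, 1, 1]] 140186658799613 [124, 136, 136, 136, 82, 238, 280]) 905916384190 = true := by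
  decide +kernel

end Pool.Agent.Work.MP_122e00_nt.Sharp.Cx

end

section

set_option autoImplicit false

set_option maxRecDepth 100000

/-!
# The certificate: data
-/

namespace Pool.Agent.Work.MP_122e00_nt.Sharp.Cx

/-- data -/
noncomputable def tr186 : Ct := (.dc 0 1 0 (.dc 1 14 1 (.ct 2 5 1 1 1 (.dc 2 7 0 (.ct 0 5 1 1 1
  (.ct 3 5 1 1 1 (.ct 4 5 1 1 1 (.ct 1 2 1 1 1 (.dc 1 3 0 (.ct 1 5 1 1 1 (.ct 2 5 1 1 1 (.ct 5 6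
  1 1 1 (.dc 2 15 1 (.lf 2 9 160)) (.dc 2 15 0 (.lf 2 7 160))) (.dc 2 15 1 (.lf 2 9 192))) (.dc 2
  15 1 (.lf 2 9 192)))) (.ct 2 5 1 1 1 (.ct 1 6 1 1 1 (.dc 1 3 0 (.ct 1 5 1 1 1 (.ct 5 6 1 1 1
  (.dc 2 15 1 (.lf 2 9 176)) (.dc 2 15 0 (.lf 2 7 176))) (.dc 2 15 1 (.lf 2 10 176)))) (.dc 1 3 1
  (.ct 5 6 1 1 1 (.dc 2 15 1 (.lf 2 9 192)) (.dc 2 15 0 (.lf 2 6 192))))) (.dc 2 15 1 (.ct 1 6 1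
  1 1 (.dc 1 3 0 (.lf 2 9 176)) (.dc 1 3 1 (.lf 2 9 176)))))) (.dc 2 15 1 (.ct 1 2 1 1 1 (.dc 1 3
  0 (.lf 2 9 192)) (.ct 1 6 1 1 1 (.dc 1 3 0 (.lf 2 9 176)) (.dc 1 3 1 (.lf 2 9 176)))))) (.dc 2
  15 1 (.ct 1 2 1 1 1 (.dc 1 3 0 (.lf 2 9 192)) (.ct 1 6 1 1 1 (.dc 1 3 0 (.lf 2 9 176)) (.dc 1 3
  1 (.lf 2 9 176)))))) (.dc 2 15 1 (.ct 1 2 1 1 1 (.dc 1 3 0 (.lf 2 8 192)) (.ct 1 6 1 1 1 (.dc 1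
  3 0 (.lf 2 8 176)) (.dc 1 3 1 (.lf 2 8 176))))))) (.dc 2 7 1 (.dc 2 15 1 (.ct 1 2 1 1 1 (.dc 1
  3 0 (.lf 2 8 192)) (.ct 1 5 1 1 1 (.dc 1 3 0 (.lf 2 8 208)) (.ct 1 6 1 1 1 (.dc 1 3 0 (.lf 2 8
  176)) (.dc 1 3 1 (.lf 2 8 176))))))))))

theorem dt186 : le (run cls4 4 tr186 [[2, 1, 1, 1, 2, 1, 0], [1, 1, 0, 0, 1, 1, 0], [2, 2, 2,
  1, 3, 1, 1], [1, 1, 1, 1, 1, 1, 0], [2, 2, 1, 1, 3, 1, 0], [0, 0, 0, 0, 1, 1, 0], [1, 1, 1, 1,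
  2, 1, 1]] 140186658275325 [96, 108, 132, 132, 78, 210, 252]) 956633424215 = true := by
  decide +kernel

end Pool.Agent.Work.MP_122e00_nt.Sharp.Cx

end
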