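import Pool.Agent.Work.MP_122e00_nt.Bd.B03

/-! Bundle of small proof modules (one section per former module). -/

section

set_option autoImplicit false

set_option maxRecDepth 100000

/-!
# The certificate: data
-/

namespace Pool.Agent.Work.MP_122e00_nt.Sharp.Cx

/-- data -/
noncomputable def tr187 : Ct := (.dc 0 1 0 (.ct 0 1 1 1 1 (.ct 0 5 1 1 1 (.ct 1 2 1 1 1 (.dc 1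
  3 0 (.ct 1 5 1 1 1 (.ct 2 5 1 1 1 (.ct 5 6 1 1 1 (.dc 2 15 1 (.lf 2 9 192)) (.dc 2 15 0 (.lf 2
  7 192))) (.dc 2 15 1 (.lf 2 9 224))) (.dc 2 15 1 (.lf 2 8 224)))) (.ct 2 5 1 1 1 (.ct 1 6 1 1 1
  (.dc 1 3 0 (.ct 1 5 1 1 1 (.ct 5 6 1 1 1 (.dc 2 15 1 (.lf 2 9 208)) (.dc 2 15 0 (.lf 2 7 208)))
  (.dc 2 15 1 (.lf 2 9 208)))) (.dc 1 3 1 (.ct 5 6 1 1 1 (.dc 2 15 1 (.lf 2 8 208)) (.dc 2 15 0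
  (.lf 2 5 208))))) (.dc 2 15 1 (.ct 1 6 1 1 1 (.dc 1 3 0 (.lf 2 9 208)) (.dc 1 3 1 (.lf 2 8
  192)))))) (.dc 2 15 1 (.ct 1 2 1 1 1 (.dc 1 3 0 (.lf 2 8 224)) (.ct 1 6 1 1 1 (.dc 1 3 0 (.lf 2
  8 208)) (.dc 1 3 1 (.lf 2 7 192)))))) (.dc 1 3 0 (.ct 0 5 1 1 1 (.ct 1 5 1 1 1 (.ct 2 5 1 1 1
  (.ct 5 6 1 1 1 (.dc 2 15 1 (.lf 2 8 208)) (.dc 2 15 0 (.lf 2 6 208))) (.dc 2 15 1 (.lf 2 8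
  240))) (.dc 2 15 1 (.lf 2 7 224))) (.dc 2 15 1 (.lf 2 7 208))))))

theorem dt187 : le (run cls4 4 tr187 [[3, 2, 2, 1, 5, 2, 1], [1, 1, 0, 0, 1, 1, 0], [2, 2, 2,
  1, 4, 2, 1], [2, 1, 1, 1, 3, 2, 0], [2, 2, 1, 1, 4, 2, 0], [0, 0, 0, 0, 1, 1, 0], [1, 1, 1, 1,
  2, 1, 1]] 140737487831037 [96, 108, 132, 132, 78, 210, 252]) 506727719439 = true := by
  decide +kernel

/-- data -/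
noncomputable def tr188 : Ct := (.dc 1 3 0 (.ct 1 5 1 1 1 (.ct 2 5 1 1 1 (.ct 0 6 1 1 1 (.dc 0
  1 0 (.ct 0 5 1 1 1 (.ct 5 6 1 1 1 (.dc 2 15 1 (.lf 2 8 208)) (.dc 2 15 0 (.lf 2 6 192))) (.dc 2
  15 1 (.lf 2 8 208)))) (.dc 0 1 1 (.ct 5 6 1 1 1 (.dc 2 15 1 (.lf 2 13 192)) (.dc 2 15 0 (.lf 2
  11 192))))) (.dc 2 15 1 (.ct 0 6 1 1 1 (.dc 0 1 0 (.lf 2 7 208)) (.dc 0 1 1 (.lf 2 13 208)))))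
  (.dc 2 15 1 (.ct 0 6 1 1 1 (.dc 0 1 0 (.lf 2 7 192)) (.dc 0 1 1 (.lf 2 13 192))))))

theorem dt188 : le (run cls4 4 tr188 [[1, 0, 0, 0, 1, 0, 0], [4, 3, 2, 1, 6, 3, 1], [3, 2, 2,
  1, 5, 2, 1], [2, 1, 1, 1, 3, 2, 0], [2, 2, 1, 1, 4, 2, 0], [0, 0, 0, 0, 1, 1, 0], [1, 1, 1, 1,
  2, 1, 1]] 140737487831037 [96, 108, 132, 132, 78, 210, 252]) 294894886088 = true := by
  decide +kernel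

end Pool.Agent.Work.MP_122e00_nt.Sharp.Cx

end

section

set_option autoImplicit false

set_option maxRecDepth 100000

/-!
# The certificate: data
-/

namespace Pool.Agent.Work.MP_122e00_nt.Sharp.Cx

/-- data -/
noncomputable def tr189 : Ct := (.ct 2 5 1 1 1 (.ct 0 6 1 1 1 (.dc 0 1 0 (.ct 0 1 1 1 1 (.ct 0
  5 1 1 1 (.ct 1 6 1 1 1 (.dc 1 3 0 (.ct 1 5 1 1 1 (.ct 5 6 1 1 1 (.dc 2 15 1 (.lf 2 9 224)) (.dc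
  2 15 0 (.lf 2 7 224))) (.dc 2 15 1 (.lf 2 9 224)))) (.dc 1 3 1 (.ct 5 6 1 1 1 (.dc 2 15 1 (.lf
  2 8 224)) (.dc 2 15 0 (.lf 2 5 224))))) (.dc 2 15 1 (.ct 1 6 1 1 1 (.dc 1 3 0 (.lf 2 8 224))
  (.dc 1 3 1 (.lf 2 8 224))))) (.dc 1 3 0 (.ct 0 5 1 1 1 (.ct 1 5 1 1 1 (.ct 5 6 1 1 1 (.dc 2 15
  1 (.lf 2 9 192)) (.dc 2 15 0 (.lf 2 7 192))) (.dc 2 15 1 (.lf 2 8 224))) (.dc 2 15 1 (.lf 2 8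
  208)))))) (.dc 0 1 1 (.ct 1 6 1 1 1 (.dc 1 3 0 (.ct 1 5 1 1 1 (.ct 5 6 1 1 1 (.dc 2 15 1 (.lf 2
  13 192)) (.dc 2 15 0 (.lf 2 11 192))) (.dc 2 15 1 (.lf 2 13 224)))) (.dc 1 3 1 (.ct 5 6 1 1 1
  (.dc 2 15 1 (.lf 2 12 224)) (.dc 2 15 0 (.lf 2 10 192))))))) (.dc 2 15 1 (.ct 0 6 1 1 1 (.dc 0
  1 0 (.ct 0 1 1 1 1 (.ct 1 6 1 1 1 (.dc 1 3 0 (.lf 2 8 208)) (.dc 1 3 1 (.lf 2 7 208))) (.dc 1 3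
  0 (.lf 2 7 208)))) (.dc 0 1 1 (.ct 1 6 1 1 1 (.dc 1 3 0 (.lf 2 13 208)) (.dc 1 3 1 (.lf 2 13
  208)))))))

theorem dt189 : le (run cls4 4 tr189 [[1, 0, 0, 0, 1, 0, 0], [1, 1, 0, 0, 1, 1, 0], [4, 3, 2,
  1, 6, 3, 1], [2, 1, 1, 1, 3, 2, 0], [2, 2, 1, 1, 4, 2, 0], [0, 0, 0, 0, 1, 1, 0], [1, 1, 1, 1,
  2, 1, 1]] 140737487831037 [96, 108, 132, 132, 78, 210, 252]) 159613373640 = true := by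
  decide +kernel

/-- data -/
noncomputable def tr190 : Ct := (.dc 2 15 1 (.ct 0 2 1 1 1 (.dc 0 1 0 (.ct 0 1 1 1 1 (.ct 1 2 1
  1 1 (.dc 1 3 0 (.lf 2 8 192)) (.ct 1 6 1 1 1 (.dc 1 3 0 (.lf 2 9 176)) (.dc 1 3 1 (.lf 2 8
  160)))) (.dc 1 3 0 (.lf 2 8 192)))) (.ct 1 2 1 1 1 (.dc 1 3 0 (.ct 0 6 1 1 1 (.dc 0 1 0 (.lf 2
  8 160)) (.dc 0 1 1 (.lf 2 12 160)))) (.ct 0 6 1 1 1 (.dc 0 1 0 (.ct 0 1 1 1 1 (.ct 1 6 1 1 1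
  (.dc 1 3 0 (.lf 2 8 176)) (.dc 1 3 1 (.lf 2 8 176))) (.dc 1 3 0 (.lf 2 8 176)))) (.dc 0 1 1
  (.ct 1 6 1 1 1 (.dc 1 3 0 (.lf 2 13 176)) (.dc 1 3 1 (.lf 2 12 176))))))))

theorem dt190 : le (run cls4 4 tr190 [[1, 0, 0, 0, 1, 0, 0], [1, 1, 0, 0, 1, 1, 0], [2, 2, 2,
  1, 4, 2, 1], [2, 1, 1, 1, 3, 2, 0], [2, 2, 1, 1, 3, 1, 0], [2, 2, 1, 1, 4, 2, 0], [1, 1, 1, 1,
  2, 1, 1]] 140737487831037 [96, 108, 132, 132, 78, 210, 252]) 556990681106 = true := by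
  decide +kernel

end Pool.Agent.Work.MP_122e00_nt.Sharp.Cx

end

section

set_option autoImplicit false

set_option maxRecDepth 100000

/-!
# The certificate: data
-/

namespace Pool.Agent.Work.MP_122e00_nt.Sharp.Cx

/-- data -/
noncomputable def tr191 : Ct := (.dc 2 15 1 (.ct 0 2 1 1 1 (.dc 0 1 0 (.ct 0 1 1 1 1 (.ct 1 2 1
  1 1 (.dc 1 3 0 (.lf 2 8 192)) (.ct 1 6 1 1 1 (.dc 1 3 0 (.lf 2 8 176)) (.dc 1 3 1 (.lf 2 8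
  176)))) (.dc 1 3 0 (.lf 2 8 176)))) (.ct 1 2 1 1 1 (.dc 1 3 0 (.ct 0 6 1 1 1 (.dc 0 1 0 (.lf 2
  7 160)) (.dc 0 1 1 (.lf 2 12 160)))) (.ct 0 6 1 1 1 (.dc 0 1 0 (.ct 0 1 1 1 1 (.ct 1 6 1 1 1
  (.dc 1 3 0 (.lf 2 8 176)) (.dc 1 3 1 (.lf 2 8 176))) (.dc 1 3 0 (.lf 2 8 176)))) (.dc 0 1 1
  (.ct 1 6 1 1 1 (.dc 1 3 0 (.lf 2 13 176)) (.dc 1 3 1 (.lf 2 12 176))))))))

theorem dt191 : le (run cls4 4 tr191 [[1, 0, 0, 0, 1, 0, 0], [1, 1, 0, 0, 1, 1, 0], [2, 2, 2,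
  1, 4, 2, 1], [2, 1, 1, 1, 2, 1, 0], [2, 2, 1, 1, 3, 1, 0], [2, 1, 1, 1, 3, 2, 0], [1, 1, 1, 1,
  2, 1, 1]] 140737487831037 [96, 108, 132, 132, 78, 210, 252]) 756811333340 = true := by
  decide +kernel

/-- data -/
noncomputable def tr192 : Ct := (.dc 2 7 1 (.dc 2 15 1 (.ct 0 2 1 1 1 (.dc 0 1 0 (.ct 0 1 1 1 1
  (.ct 1 2 1 1 1 (.dc 1 3 0 (.lf 2 7 208)) (.ct 1 5 1 1 1 (.dc 1 3 0 (.lf 2 8 208)) (.ct 1 6 1 1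
  1 (.dc 1 3 0 (.lf 2 8 176)) (.dc 1 3 1 (.lf 2 7 176))))) (.dc 1 3 0 (.lf 2 7 192)))) (.ct 1 2 1
  1 1 (.dc 1 3 0 (.ct 0 5 1 1 1 (.dc 0 1 0 (.lf 2 7 208)) (.ct 0 6 1 1 1 (.dc 0 1 0 (.lf 2 7
  208)) (.dc 0 1 1 (.lf 2 12 208))))) (.ct 0 5 1 1 1 (.dc 0 1 0 (.ct 0 1 1 1 1 (.ct 1 5 1 1 1
  (.dc 1 3 0 (.lf 2 8 192)) (.ct 1 6 1 1 1 (.dc 1 3 0 (.lf 2 8 176)) (.dc 1 3 1 (.lf 2 7 176))))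
  (.dc 1 3 0 (.lf 2 7 208)))) (.ct 1 5 1 1 1 (.dc 1 3 0 (.ct 0 6 1 1 1 (.dc 0 1 0 (.lf 2 7 176))
  (.dc 0 1 1 (.lf 2 12 176)))) (.ct 0 6 1 1 1 (.dc 0 1 0 (.ct 0 1 1 1 1 (.ct 1 6 1 1 1 (.dc 1 3 0
  (.lf 2 8 192)) (.dc 1 3 1 (.lf 2 7 192))) (.dc 1 3 0 (.lf 2 7 192)))) (.dc 0 1 1 (.ct 1 6 1 1 1
  (.dc 1 3 0 (.lf 2 12 192)) (.dc 1 3 1 (.lf 2 12 192)))))))))))

theorem dt192 : le (run cls4 4 tr192 [[1, 0, 0, 0, 1, 0, 0], [1, 1, 0, 0, 1, 1, 0], [2, 2, 2,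
  1, 3, 1, 1], [2, 1, 1, 1, 2, 1, 0], [2, 2, 1, 1, 3, 1, 0], [2, 2, 2, 1, 4, 2, 1], [1, 1, 1, 1,
  2, 1, 1]] 140187732017149 [96, 108, 132, 132, 78, 210, 252]) 709724111518 = true := by
  decide +kernel

end Pool.Agent.Work.MP_122e00_nt.Sharp.Cx

end

section

set_option autoImplicit false

set_option maxRecDepth 100000

/-!
# The certificate: data
-/

namespace Pool.Agent.Work.MP_122e00_nt.Sharp.Cx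

/-- data -/
noncomputable def tr193 : Ct := (.dc 0 9 0 (.ct 0 5 1 1 1 (.ct 3 5 1 1 1 (.ct 2 3 1 1 1 (.ct 1
  4 1 1 1 (.dc 1 3 0 (.ct 1 5 1 1 1 (.ct 4 5 1 1 1 (.ct 5 6 1 1 1 (.dc 2 15 1 (.lf 2 7 176)) (.dc
  2 15 0 (.lf 2 5 176))) (.dc 2 15 1 (.lf 2 7 208))) (.dc 2 15 1 (.lf 2 8 208)))) (.ct 4 5 1 1 1
  (.ct 1 6 1 1 1 (.dc 1 3 0 (.ct 1 5 1 1 1 (.ct 5 6 1 1 1 (.dc 2 15 1 (.lf 2 8 208)) (.dc 2 15 0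
  (.lf 2 5 208))) (.dc 2 15 1 (.lf 2 8 208)))) (.dc 1 3 1 (.ct 5 6 1 1 1 (.dc 2 15 1 (.lf 2 11
  208)) (.dc 2 15 0 (.lf 2 8 208))))) (.dc 2 15 1 (.ct 1 6 1 1 1 (.dc 1 3 0 (.lf 2 8 176)) (.dc 1
  3 1 (.lf 2 11 176)))))) (.ct 1 4 1 1 1 (.dc 1 3 0 (.ct 1 5 1 1 1 (.ct 4 5 1 1 1 (.ct 5 6 1 1 1
  (.dc 2 15 1 (.lf 3 8 176)) (.dc 2 15 0 (.lf 3 6 176))) (.dc 2 15 1 (.lf 3 6 208))) (.dc 2 15 1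
  (.lf 3 7 208)))) (.ct 4 5 1 1 1 (.ct 1 6 1 1 1 (.dc 1 3 0 (.ct 1 5 1 1 1 (.ct 5 6 1 1 1 (.dc 2
  15 1 (.lf 3 8 208)) (.dc 2 15 0 (.lf 3 7 208))) (.dc 2 15 1 (.lf 3 7 208)))) (.dc 1 3 1 (.ct 5
  6 1 1 1 (.dc 2 15 1 (.lf 3 10 208)) (.dc 2 15 0 (.lf 3 9 208))))) (.dc 2 15 1 (.ct 1 6 1 1 1
  (.dc 1 3 0 (.lf 3 7 176)) (.dc 1 3 1 (.lf 3 9 176))))))) (.dc 2 15 1 (.ct 1 4 1 1 1 (.dc 1 3 0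
  (.ct 2 3 1 1 1 (.lf 2 8 176) (.ct 2 5 1 1 1 (.lf 2 8 192) (.lf 3 7 192)))) (.ct 1 6 1 1 1 (.dc
  1 3 0 (.ct 2 3 1 1 1 (.lf 2 9 176) (.ct 2 5 1 1 1 (.lf 2 9 192) (.lf 3 8 192)))) (.dc 1 3 1
  (.ct 2 3 1 1 1 (.lf 2 10 176) (.ct 2 5 1 1 1 (.lf 2 11 192) (.lf 3 9 192)))))))) (.dc 2 15 1
  (.ct 1 4 1 1 1 (.dc 1 3 0 (.ct 2 3 1 1 1 (.lf 2 8 192) (.lf 3 6 192))) (.ct 1 6 1 1 1 (.dc 1 3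
  0 (.ct 2 3 1 1 1 (.lf 2 9 192) (.lf 3 7 192))) (.dc 1 3 1 (.ct 2 3 1 1 1 (.lf 2 10 192) (.lf 3
  9 192))))))))

theorem dt193 : le (run cls4 4 tr193 [[3, 2, 2, 1, 4, 3, 1], [1, 1, 0, 0, 1, 1, 0], [1, 1, 1,
  0, 2, 2, 1], [1, 1, 1, 1, 1, 1, 0], [2, 2, 2, 1, 4, 2, 1], [0, 0, 0, 0, 1, 1, 0], [1, 1, 1, 1,
  2, 1, 1]] 140737487830527 [78, 78, 78, 126, 84, 156, 210]) 1483826810181 = true := by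
  decide +kernel

end Pool.Agent.Work.MP_122e00_nt.Sharp.Cx

end

section

set_option autoImplicit false

set_option maxRecDepth 100000

/-!
# The certificate: data
-/

namespace Pool.Agent.Work.MP_122e00_nt.Sharp.Cx

/-- data -/
noncomputable def tr194 : Ct := (.dc 0 9 1 (.ct 0 5 1 1 1 (.ct 2 5 1 1 1 (.ct 3 5 1 1 1 (.ct 1
  4 1 1 1 (.dc 1 3 0 (.ct 1 5 1 1 1 (.ct 4 5 1 1 1 (.ct 5 6 1 1 1 (.dc 2 15 1 (.lf 2 9 176)) (.dc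
  2 15 0 (.lf 2 7 176))) (.dc 2 15 1 (.lf 2 9 208))) (.dc 2 15 1 (.lf 2 8 192)))) (.ct 4 5 1 1 1
  (.ct 1 6 1 1 1 (.dc 1 3 0 (.ct 1 5 1 1 1 (.ct 5 6 1 1 1 (.dc 2 15 1 (.lf 2 9 192)) (.dc 2 15 0
  (.lf 2 7 192))) (.dc 2 15 1 (.lf 2 10 192)))) (.dc 1 3 1 (.ct 5 6 1 1 1 (.dc 2 15 1 (.lf 2 10
  192)) (.dc 2 15 0 (.lf 2 7 192))))) (.dc 2 15 1 (.ct 1 6 1 1 1 (.dc 1 3 0 (.lf 2 9 176)) (.dc 1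
  3 1 (.lf 2 11 176)))))) (.dc 2 15 1 (.ct 1 4 1 1 1 (.dc 1 3 0 (.lf 2 7 192)) (.ct 1 6 1 1 1
  (.dc 1 3 0 (.lf 2 8 176)) (.dc 1 3 1 (.lf 2 10 176)))))) (.dc 2 15 1 (.ct 1 4 1 1 1 (.dc 1 3 0
  (.lf 2 7 208)) (.ct 1 6 1 1 1 (.dc 1 3 0 (.lf 2 8 176)) (.dc 1 3 1 (.lf 2 10 176)))))) (.dc 2
  15 1 (.ct 1 4 1 1 1 (.dc 1 3 0 (.lf 2 8 208)) (.ct 1 6 1 1 1 (.dc 1 3 0 (.lf 2 8 176)) (.dc 1 3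
  1 (.lf 2 8 176)))))))

theorem dt194 : le (run cls4 4 tr194 [[2, 1, 1, 1, 2, 1, 0], [1, 1, 0, 0, 1, 1, 0], [3, 2, 2,
  1, 4, 3, 1], [1, 1, 1, 1, 1, 1, 0], [2, 2, 2, 1, 4, 2, 1], [0, 0, 0, 0, 1, 1, 0], [1, 1, 1, 1,
  2, 1, 1]] 140737487830527 [78, 78, 78, 126, 84, 156, 210]) 1500162202992 = true := by
  decide +kernel

/-- data -/
noncomputable def tr195 : Ct := (.dc 2 7 1 (.dc 2 15 1 (.ct 0 2 1 1 1 (.dc 0 9 0 (.ct 1 4 1 1 1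
  (.dc 1 3 0 (.ct 2 3 1 1 1 (.ct 3 5 1 1 1 (.lf 3 6 176) (.lf 2 7 176)) (.lf 3 6 176))) (.ct 1 6
  1 1 1 (.dc 1 3 0 (.ct 2 3 1 1 1 (.ct 3 5 1 1 1 (.lf 3 6 176) (.lf 2 8 176)) (.lf 3 7 176)))
  (.dc 1 3 1 (.ct 2 3 1 1 1 (.ct 3 5 1 1 1 (.lf 3 8 176) (.lf 2 10 160)) (.lf 3 8 176)))))) (.ct
  0 5 1 1 1 (.dc 0 9 0 (.ct 1 4 1 1 1 (.dc 1 3 0 (.ct 3 5 1 1 1 (.lf 3 6 192) (.lf 2 7 192)))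
  (.ct 1 6 1 1 1 (.dc 1 3 0 (.ct 3 5 1 1 1 (.lf 3 6 192) (.lf 2 8 192))) (.dc 1 3 1 (.ct 3 5 1 1
  1 (.lf 3 8 192) (.lf 2 10 192)))))) (.dc 0 9 1 (.ct 1 4 1 1 1 (.dc 1 3 0 (.lf 2 8 192)) (.ct 1
  6 1 1 1 (.dc 1 3 0 (.lf 2 9 192)) (.dc 1 3 1 (.lf 2 9 192)))))))))

theorem dt195 : le (run cls4 4 tr195 [[2, 1, 1, 1, 2, 1, 0], [1, 1, 0, 0, 1, 1, 0], [1, 1, 1,
  0, 1, 1, 1], [1, 1, 1, 1, 1, 1, 0], [2, 2, 2, 1, 4, 2, 1], [1, 1, 1, 0, 2, 2, 1], [1, 1, 1, 1,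
  2, 1, 1]] 140187732016639 [78, 78, 78, 126, 84, 156, 210]) 1986446120768 = true := by
  decide +kernel

/-- data -/
noncomputable def tr196 : Ct := (.dc 2 7 1 (.dc 2 15 1 (.ct 0 2 1 1 1 (.dc 0 9 0 (.ct 1 4 1 1 1
  (.dc 1 3 0 (.ct 2 3 1 1 1 (.lf 2 5 176) (.lf 3 7 176))) (.ct 1 5 1 1 1 (.dc 1 3 0 (.ct 2 3 1 1
  1 (.lf 2 6 192) (.lf 3 8 192))) (.ct 1 6 1 1 1 (.dc 1 3 0 (.ct 2 3 1 1 1 (.lf 2 6 192) (.lf 3 8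
  192))) (.dc 1 3 1 (.ct 2 3 1 1 1 (.lf 2 9 192) (.lf 3 9 192))))))) (.dc 0 9 1 (.ct 1 4 1 1 1
  (.dc 1 3 0 (.lf 2 8 176)) (.ct 1 5 1 1 1 (.dc 1 3 0 (.lf 2 8 192)) (.ct 1 6 1 1 1 (.dc 1 3 0
  (.lf 2 8 192)) (.dc 1 3 1 (.lf 2 8 192)))))))))

theorem dt196 : le (run cls4 4 tr196 [[2, 1, 1, 1, 2, 1, 0], [1, 1, 0, 0, 1, 1, 0], [1, 1, 1,
  0, 1, 1, 1], [1, 1, 1, 1, 1, 1, 0], [2, 2, 2, 1, 3, 1, 1], [2, 2, 2, 1, 4, 2, 1], [1, 1, 1, 1,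
  2, 1, 1]] 140187732016639 [78, 78, 78, 126, 84, 156, 210]) 3083055068227 = true := by
  decide +kernel

end Pool.Agent.Work.MP_122e00_nt.Sharp.Cx

end

section

set_option autoImplicit false

set_option maxRecDepth 100000

/-!
# The certificate: data
-/

namespace Pool.Agent.Work.MP_122e00_nt.Sharp.Cx

/-- data -/
noncomputable def tr197 : Ct := (.dc 0 9 1 (.ct 2 5 1 1 1 (.ct 3 5 1 1 1 (.ct 0 3 1 1 1 (.ct 1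
  4 1 1 1 (.dc 1 3 0 (.ct 1 5 1 1 1 (.ct 4 5 1 1 1 (.ct 5 6 1 1 1 (.dc 2 15 1 (.lf 2 9 176)) (.dc
  2 15 0 (.lf 2 6 176))) (.dc 2 15 1 (.lf 2 8 208))) (.dc 2 15 1 (.lf 2 8 192)))) (.ct 4 5 1 1 1
  (.ct 1 6 1 1 1 (.dc 1 3 0 (.ct 1 5 1 1 1 (.ct 5 6 1 1 1 (.dc 2 15 1 (.lf 2 9 192)) (.dc 2 15 0
  (.lf 2 7 192))) (.dc 2 15 1 (.lf 2 10 192)))) (.dc 1 3 1 (.ct 5 6 1 1 1 (.dc 2 15 1 (.lf 2 10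
  192)) (.dc 2 15 0 (.lf 2 7 192))))) (.dc 2 15 1 (.ct 1 6 1 1 1 (.dc 1 3 0 (.lf 2 9 176)) (.dc 1
  3 1 (.lf 2 10 160)))))) (.ct 1 4 1 1 1 (.dc 1 3 0 (.ct 1 5 1 1 1 (.ct 4 5 1 1 1 (.ct 5 6 1 1 1
  (.dc 2 15 1 (.lf 3 8 176)) (.dc 2 15 0 (.lf 3 5 176))) (.dc 2 15 1 (.lf 3 7 208))) (.dc 2 15 1
  (.lf 3 7 192)))) (.ct 4 5 1 1 1 (.ct 1 6 1 1 1 (.dc 1 3 0 (.ct 1 5 1 1 1 (.ct 5 6 1 1 1 (.dc 2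
  15 1 (.lf 3 8 192)) (.dc 2 15 0 (.lf 3 6 192))) (.dc 2 15 1 (.lf 3 9 192)))) (.dc 1 3 1 (.ct 5
  6 1 1 1 (.dc 2 15 1 (.lf 3 11 192)) (.dc 2 15 0 (.lf 3 7 192))))) (.dc 2 15 1 (.ct 1 6 1 1 1
  (.dc 1 3 0 (.lf 3 7 176)) (.dc 1 3 1 (.lf 3 12 160))))))) (.dc 2 15 1 (.ct 1 4 1 1 1 (.dc 1 3 0
  (.ct 0 3 1 1 1 (.lf 2 8 192) (.ct 0 5 1 1 1 (.lf 2 7 192) (.lf 3 7 192)))) (.ct 1 6 1 1 1 (.dc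
  1 3 0 (.ct 0 3 1 1 1 (.lf 2 9 176) (.ct 0 5 1 1 1 (.lf 2 8 176) (.lf 3 8 176)))) (.dc 1 3 1
  (.ct 0 3 1 1 1 (.lf 2 8 176) (.ct 0 5 1 1 1 (.lf 2 10 160) (.lf 3 11 160)))))))) (.dc 2 15 1
  (.ct 1 4 1 1 1 (.dc 1 3 0 (.ct 0 3 1 1 1 (.lf 2 9 192) (.lf 3 8 208))) (.ct 1 6 1 1 1 (.dc 1 3
  0 (.ct 0 3 1 1 1 (.lf 2 10 160) (.lf 3 8 176))) (.dc 1 3 1 (.ct 0 3 1 1 1 (.lf 2 9 160) (.lf 3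
  11 176))))))))

theorem dt197 : le (run cls4 4 tr197 [[2, 1, 1, 0, 3, 2, 1], [1, 1, 0, 0, 1, 1, 0], [3, 2, 2,
  1, 4, 3, 1], [2, 1, 1, 1, 2, 1, 0], [2, 2, 2, 1, 4, 2, 1], [0, 0, 0, 0, 1, 1, 0], [1, 1, 1, 1,
  2, 1, 1]] 140737487830527 [64, 76, 76, 124, 70, 154, 196]) 874112205833 = true := by
  decide +kernel

/-- data -/
noncomputable def tr198 : Ct := (.dc 0 9 0 (.ct 3 5 1 1 1 (.ct 1 4 1 1 1 (.dc 1 3 0 (.ct 1 5 1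
  1 1 (.ct 4 5 1 1 1 (.ct 5 6 1 1 1 (.dc 2 15 1 (.lf 3 7 176)) (.dc 2 15 0 (.lf 3 6 176))) (.dc 2
  15 1 (.lf 3 6 208))) (.dc 2 15 1 (.lf 3 6 192)))) (.ct 4 5 1 1 1 (.ct 1 6 1 1 1 (.dc 1 3 0 (.ct
  1 5 1 1 1 (.ct 5 6 1 1 1 (.dc 2 15 1 (.lf 3 8 192)) (.dc 2 15 0 (.lf 3 6 192))) (.dc 2 15 1
  (.lf 3 6 192)))) (.dc 1 3 1 (.ct 5 6 1 1 1 (.dc 2 15 1 (.lf 3 9 192)) (.dc 2 15 0 (.lf 3 8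
  192))))) (.dc 2 15 1 (.ct 1 6 1 1 1 (.dc 1 3 0 (.lf 3 7 176)) (.dc 1 3 1 (.lf 3 9 176))))))
  (.dc 2 15 1 (.ct 1 4 1 1 1 (.dc 1 3 0 (.lf 3 6 208)) (.ct 1 6 1 1 1 (.dc 1 3 0 (.lf 3 7 176))
  (.dc 1 3 1 (.lf 3 9 176)))))))

theorem dt198 : le (run cls4 4 tr198 [[2, 1, 1, 0, 3, 2, 1], [1, 1, 0, 0, 1, 1, 0], [1, 1, 1,
  0, 2, 2, 1], [3, 2, 2, 1, 4, 3, 1], [2, 2, 2, 1, 4, 2, 1], [0, 0, 0, 0, 1, 1, 0], [1, 1, 1, 1,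
  2, 1, 1]] 140737487830527 [64, 76, 76, 124, 70, 154, 196]) 593336591193 = true := by
  decide +kernel

/-- data -/
noncomputable def tr199 : Ct := (.dc 2 7 1 (.dc 2 15 1 (.ct 2 3 1 1 1 (.ct 3 5 1 1 1 (.dc 0 9 0
  (.ct 1 4 1 1 1 (.dc 1 3 0 (.lf 3 6 208)) (.ct 1 6 1 1 1 (.dc 1 3 0 (.lf 3 6 208)) (.dc 1 3 1
  (.lf 3 8 208))))) (.dc 0 9 1 (.ct 1 4 1 1 1 (.dc 1 3 0 (.ct 0 3 1 1 1 (.lf 2 9 192) (.lf 3 7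
  208))) (.ct 1 6 1 1 1 (.dc 1 3 0 (.ct 0 3 1 1 1 (.lf 2 9 192) (.lf 3 7 208))) (.dc 1 3 1 (.ct 0
  3 1 1 1 (.lf 2 9 192) (.lf 3 10 208))))))) (.dc 0 9 0 (.ct 1 4 1 1 1 (.dc 1 3 0 (.lf 3 6 192))
  (.ct 1 6 1 1 1 (.dc 1 3 0 (.lf 3 7 192)) (.dc 1 3 1 (.lf 3 8 192))))))))

theorem dt199 : le (run cls4 4 tr199 [[2, 1, 1, 0, 3, 2, 1], [1, 1, 0, 0, 1, 1, 0], [1, 1, 1,
  0, 1, 1, 1], [2, 1, 1, 1, 2, 1, 0], [2, 2, 2, 1, 4, 2, 1], [1, 1, 1, 0, 2, 2, 1], [1, 1, 1, 1,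
  2, 1, 1]] 140187732016639 [64, 76, 76, 124, 70, 154, 196]) 958651522324 = true := by
  decide +kernel

/-- data -/
noncomputable def tr200 : Ct := (.dc 2 7 1 (.dc 2 15 1 (.ct 2 3 1 1 1 (.dc 0 9 1 (.ct 1 4 1 1 1
  (.dc 1 3 0 (.ct 0 3 1 1 1 (.ct 3 5 1 1 1 (.lf 3 8 208) (.lf 2 8 192)) (.lf 3 8 208))) (.ct 1 6
  1 1 1 (.dc 1 3 0 (.ct 0 3 1 1 1 (.ct 3 5 1 1 1 (.lf 3 8 208) (.lf 2 8 192)) (.lf 3 8 208)))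
  (.dc 1 3 1 (.ct 0 3 1 1 1 (.ct 3 5 1 1 1 (.lf 3 9 208) (.lf 2 8 192)) (.lf 3 9 208)))))) (.dc 0
  9 0 (.ct 1 4 1 1 1 (.dc 1 3 0 (.lf 3 7 192)) (.ct 1 6 1 1 1 (.dc 1 3 0 (.lf 3 8 192)) (.dc 1 3
  1 (.lf 3 9 192))))))))

theorem dt200 : le (run cls4 4 tr200 [[2, 1, 1, 0, 2, 1, 1], [1, 1, 0, 0, 1, 1, 0], [1, 1, 1,
  0, 1, 1, 1], [2, 1, 1, 1, 2, 1, 0], [2, 2, 2, 1, 4, 2, 1], [2, 1, 1, 0, 3, 2, 1], [1, 1, 1, 1,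
  2, 1, 1]] 140187732016639 [64, 76, 76, 124, 70, 154, 196]) 988628431517 = true := by
  decide +kernel

end Pool.Agent.Work.MP_122e00_nt.Sharp.Cx

end
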