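import Pool.Agent.Work.MP_122e00_nt.Bd.B03

/-! Bundle of small proof modules (one section per former module). -/

section

set_option autoImplicit false

set_option maxRecDepth 100000

/-!
# The certificate: data
-/

namespace Pool.Agent.Work.MP_122e00_nt.Sharp.Cx

/-- data -/
noncomputable def tr201 : Ct := (.dc 0 1 0 (.ct 0 1 1 1 1 (.ct 0 5 1 1 1 (.ct 1 4 1 1 1 (.dc 1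
  3 0 (.ct 1 5 1 1 1 (.ct 4 5 1 1 1 (.ct 5 6 1 1 1 (.dc 2 15 1 (.lf 2 8 176)) (.dc 2 15 0 (.lf 2
  6 176))) (.dc 2 15 1 (.lf 2 8 208))) (.dc 2 15 1 (.lf 2 7 224)))) (.ct 4 5 1 1 1 (.ct 1 6 1 1 1
  (.dc 1 3 0 (.ct 1 5 1 1 1 (.ct 5 6 1 1 1 (.dc 2 15 1 (.lf 2 8 192)) (.dc 2 15 0 (.lf 2 6 192)))
  (.dc 2 15 1 (.lf 2 9 208)))) (.dc 1 3 1 (.ct 5 6 1 1 1 (.dc 2 15 1 (.lf 2 9 208)) (.dc 2 15 0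
  (.lf 2 6 192))))) (.dc 2 15 1 (.ct 1 6 1 1 1 (.dc 1 3 0 (.lf 2 8 208)) (.dc 1 3 1 (.lf 2 10
  192)))))) (.dc 2 15 1 (.ct 1 4 1 1 1 (.dc 1 3 0 (.lf 2 6 224)) (.ct 1 6 1 1 1 (.dc 1 3 0 (.lf 2
  7 208)) (.dc 1 3 1 (.lf 2 9 192)))))) (.dc 1 3 0 (.ct 0 5 1 1 1 (.ct 1 5 1 1 1 (.ct 4 5 1 1 1
  (.ct 5 6 1 1 1 (.dc 2 15 1 (.lf 2 8 208)) (.dc 2 15 0 (.lf 2 5 208))) (.dc 2 15 1 (.lf 2 7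
  240))) (.dc 2 15 1 (.lf 2 6 224))) (.dc 2 15 1 (.lf 2 6 208))))))

theorem dt201 : le (run cls4 4 tr201 [[3, 2, 2, 1, 5, 2, 1], [1, 1, 0, 0, 1, 1, 0], [4, 2, 2,
  1, 6, 4, 1], [2, 1, 1, 1, 3, 2, 0], [2, 2, 2, 1, 4, 2, 1], [0, 0, 0, 0, 1, 1, 0], [1, 1, 1, 1,
  2, 1, 1]] 140737487831037 [68, 104, 104, 128, 74, 182, 224]) 845347758828 = true := by
  decide +kernel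

/-- data -/
noncomputable def tr202 : Ct := (.dc 1 3 0 (.ct 1 5 1 1 1 (.ct 4 5 1 1 1 (.ct 0 6 1 1 1 (.dc 0
  1 0 (.ct 0 5 1 1 1 (.ct 5 6 1 1 1 (.dc 2 15 1 (.lf 2 7 208)) (.dc 2 15 0 (.lf 2 5 192))) (.dc 2
  15 1 (.lf 2 7 208)))) (.dc 0 1 1 (.ct 5 6 1 1 1 (.dc 2 15 1 (.lf 2 13 192)) (.dc 2 15 0 (.lf 2
  11 192))))) (.dc 2 15 1 (.ct 0 6 1 1 1 (.dc 0 1 0 (.lf 2 6 208)) (.dc 0 1 1 (.lf 2 13 208)))))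
  (.dc 2 15 1 (.ct 0 6 1 1 1 (.dc 0 1 0 (.lf 2 5 176)) (.dc 0 1 1 (.lf 2 13 192))))))

theorem dt202 : le (run cls4 4 tr202 [[1, 0, 0, 0, 1, 0, 0], [4, 3, 2, 1, 6, 3, 1], [4, 2, 2,
  1, 6, 4, 1], [2, 1, 1, 1, 3, 2, 0], [3, 2, 2, 1, 5, 2, 1], [0, 0, 0, 0, 1, 1, 0], [1, 1, 1, 1,
  2, 1, 1]] 140737487831037 [68, 104, 104, 128, 74, 182, 224]) 531894622944 = true := by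
  decide +kernel

end Pool.Agent.Work.MP_122e00_nt.Sharp.Cx

end

section

set_option autoImplicit false

set_option maxRecDepth 100000

/-!
# The certificate: data
-/

namespace Pool.Agent.Work.MP_122e00_nt.Sharp.Cx

/-- data -/
noncomputable def tr203 : Ct := (.ct 4 5 1 1 1 (.ct 0 6 1 1 1 (.dc 0 1 0 (.ct 0 1 1 1 1 (.ct 0
  5 1 1 1 (.ct 1 6 1 1 1 (.dc 1 3 0 (.ct 1 5 1 1 1 (.ct 5 6 1 1 1 (.dc 2 15 1 (.lf 2 8 208)) (.dc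
  2 15 0 (.lf 2 6 208))) (.dc 2 15 1 (.lf 2 9 224)))) (.dc 1 3 1 (.ct 5 6 1 1 1 (.dc 2 15 1 (.lf
  2 9 224)) (.dc 2 15 0 (.lf 2 6 208))))) (.dc 2 15 1 (.ct 1 6 1 1 1 (.dc 1 3 0 (.lf 2 7 224))
  (.dc 1 3 1 (.lf 2 9 224))))) (.dc 1 3 0 (.ct 0 5 1 1 1 (.ct 1 5 1 1 1 (.ct 5 6 1 1 1 (.dc 2 15
  1 (.lf 2 8 192)) (.dc 2 15 0 (.lf 2 6 192))) (.dc 2 15 1 (.lf 2 7 224))) (.dc 2 15 1 (.lf 2 7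
  208)))))) (.dc 0 1 1 (.ct 1 6 1 1 1 (.dc 1 3 0 (.ct 1 5 1 1 1 (.ct 5 6 1 1 1 (.dc 2 15 1 (.lf 2
  13 192)) (.dc 2 15 0 (.lf 2 11 192))) (.dc 2 15 1 (.lf 2 13 208)))) (.dc 1 3 1 (.ct 5 6 1 1 1
  (.dc 2 15 1 (.lf 2 13 208)) (.dc 2 15 0 (.lf 2 11 192))))))) (.dc 2 15 1 (.ct 0 6 1 1 1 (.dc 0
  1 0 (.ct 0 1 1 1 1 (.ct 1 6 1 1 1 (.dc 1 3 0 (.lf 2 7 208)) (.dc 1 3 1 (.lf 2 8 208))) (.dc 1 3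
  0 (.lf 2 6 192)))) (.dc 0 1 1 (.ct 1 6 1 1 1 (.dc 1 3 0 (.lf 2 13 192)) (.dc 1 3 1 (.lf 2 13
  192)))))))

theorem dt203 : le (run cls4 4 tr203 [[1, 0, 0, 0, 1, 0, 0], [1, 1, 0, 0, 1, 1, 0], [4, 2, 2,
  1, 6, 4, 1], [2, 1, 1, 1, 3, 2, 0], [4, 3, 2, 1, 6, 3, 1], [0, 0, 0, 0, 1, 1, 0], [1, 1, 1, 1,
  2, 1, 1]] 140737487831037 [68, 104, 104, 128, 74, 182, 224]) 298221617858 = true := by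
  decide +kernel

/-- data -/
noncomputable def tr204 : Ct := (.ct 0 4 1 1 1 (.dc 0 1 0 (.ct 0 1 1 1 1 (.ct 0 5 1 1 1 (.ct 1
  4 1 1 1 (.dc 1 3 0 (.ct 1 5 1 1 1 (.ct 4 5 1 1 1 (.ct 5 6 1 1 1 (.dc 2 15 1 (.lf 3 8 176)) (.dc
  2 15 0 (.lf 3 6 176))) (.dc 2 15 1 (.lf 3 7 208))) (.dc 2 15 1 (.lf 3 7 224)))) (.ct 4 5 1 1 1
  (.ct 1 6 1 1 1 (.dc 1 3 0 (.ct 1 5 1 1 1 (.ct 5 6 1 1 1 (.dc 2 15 1 (.lf 3 9 192)) (.dc 2 15 0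
  (.lf 3 6 192))) (.dc 2 15 1 (.lf 3 9 208)))) (.dc 1 3 1 (.ct 5 6 1 1 1 (.dc 2 15 1 (.lf 3 10
  208)) (.dc 2 15 0 (.lf 3 7 192))))) (.dc 2 15 1 (.ct 1 6 1 1 1 (.dc 1 3 0 (.lf 3 8 208)) (.dc 1
  3 1 (.lf 3 11 192)))))) (.dc 2 15 1 (.ct 1 4 1 1 1 (.dc 1 3 0 (.lf 3 7 224)) (.ct 1 6 1 1 1
  (.dc 1 3 0 (.lf 3 8 208)) (.dc 1 3 1 (.lf 3 10 192)))))) (.dc 1 3 0 (.ct 0 5 1 1 1 (.ct 1 5 1 1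
  1 (.ct 4 5 1 1 1 (.ct 5 6 1 1 1 (.dc 2 15 1 (.lf 3 8 208)) (.dc 2 15 0 (.lf 3 5 208))) (.dc 2
  15 1 (.lf 3 7 240))) (.dc 2 15 1 (.lf 3 7 224))) (.dc 2 15 1 (.lf 3 7 208)))))) (.ct 1 4 1 1 1
  (.dc 1 3 0 (.ct 1 5 1 1 1 (.ct 4 5 1 1 1 (.ct 0 6 1 1 1 (.dc 0 1 0 (.ct 0 5 1 1 1 (.ct 5 6 1 1
  1 (.dc 2 15 1 (.lf 3 7 208)) (.dc 2 15 0 (.lf 3 5 192))) (.dc 2 15 1 (.lf 3 6 208)))) (.dc 0 1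
  1 (.ct 5 6 1 1 1 (.dc 2 15 1 (.lf 3 13 192)) (.dc 2 15 0 (.lf 3 11 192))))) (.dc 2 15 1 (.ct 0
  6 1 1 1 (.dc 0 1 0 (.lf 3 7 208)) (.dc 0 1 1 (.lf 3 12 208))))) (.dc 2 15 1 (.ct 0 6 1 1 1 (.dc
  0 1 0 (.lf 3 6 176)) (.dc 0 1 1 (.lf 3 12 176)))))) (.ct 4 5 1 1 1 (.ct 0 6 1 1 1 (.dc 0 1 0
  (.ct 0 1 1 1 1 (.ct 0 5 1 1 1 (.ct 1 6 1 1 1 (.dc 1 3 0 (.ct 1 5 1 1 1 (.ct 5 6 1 1 1 (.dc 2 15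
  1 (.lf 3 8 208)) (.dc 2 15 0 (.lf 3 6 208))) (.dc 2 15 1 (.lf 3 9 224)))) (.dc 1 3 1 (.ct 5 6 1
  1 1 (.dc 2 15 1 (.lf 3 10 224)) (.dc 2 15 0 (.lf 3 7 208))))) (.dc 2 15 1 (.ct 1 6 1 1 1 (.dc 1
  3 0 (.lf 3 7 224)) (.dc 1 3 1 (.lf 3 10 224))))) (.dc 1 3 0 (.ct 0 5 1 1 1 (.ct 1 5 1 1 1 (.ct
  5 6 1 1 1 (.dc 2 15 1 (.lf 3 8 192)) (.dc 2 15 0 (.lf 3 5 192))) (.dc 2 15 1 (.lf 3 7 224)))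
  (.dc 2 15 1 (.lf 3 6 208)))))) (.dc 0 1 1 (.ct 1 6 1 1 1 (.dc 1 3 0 (.ct 1 5 1 1 1 (.ct 5 6 1 1
  1 (.dc 2 15 1 (.lf 3 13 192)) (.dc 2 15 0 (.lf 3 11 192))) (.dc 2 15 1 (.lf 3 13 208)))) (.dc 1
  3 1 (.ct 5 6 1 1 1 (.dc 2 15 1 (.lf 3 12 208)) (.dc 2 15 0 (.lf 3 11 192))))))) (.dc 2 15 1
  (.ct 0 6 1 1 1 (.dc 0 1 0 (.ct 0 1 1 1 1 (.ct 1 6 1 1 1 (.dc 1 3 0 (.lf 3 8 208)) (.dc 1 3 1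
  (.lf 3 9 208))) (.dc 1 3 0 (.lf 3 7 192)))) (.dc 0 1 1 (.ct 1 6 1 1 1 (.dc 1 3 0 (.lf 3 12
  192)) (.dc 1 3 1 (.lf 3 12 192)))))))))

theorem dt204 : le (run cls4 4 tr204 [[1, 0, 0, 0, 1, 0, 0], [1, 1, 0, 0, 1, 1, 0], [2, 1, 1,
  0, 3, 2, 1], [4, 2, 2, 1, 6, 4, 1], [2, 2, 2, 1, 4, 2, 1], [0, 0, 0, 0, 1, 1, 0], [1, 1, 1, 1,
  2, 1, 1]] 140737487831037 [68, 104, 104, 128, 74, 182, 224]) 257765882555 = true := by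
  decide +kernel

end Pool.Agent.Work.MP_122e00_nt.Sharp.Cx

end

section

set_option autoImplicit false

set_option maxRecDepth 100000

/-!
# The certificate: data
-/

namespace Pool.Agent.Work.MP_122e00_nt.Sharp.Cx

/-- data -/
noncomputable def tr205 : Ct := (.dc 2 15 1 (.ct 2 3 1 1 1 (.ct 0 4 1 1 1 (.dc 0 1 0 (.ct 0 1 1
  1 1 (.ct 1 4 1 1 1 (.dc 1 3 0 (.lf 2 8 192)) (.ct 1 6 1 1 1 (.dc 1 3 0 (.lf 2 8 176)) (.dc 1 3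
  1 (.lf 2 7 176)))) (.dc 1 3 0 (.lf 2 7 208)))) (.ct 1 4 1 1 1 (.dc 1 3 0 (.ct 0 6 1 1 1 (.dc 0
  1 0 (.lf 2 7 176)) (.dc 0 1 1 (.lf 2 13 176)))) (.ct 0 6 1 1 1 (.dc 0 1 0 (.ct 0 1 1 1 1 (.ct 1
  6 1 1 1 (.dc 1 3 0 (.lf 2 8 192)) (.dc 1 3 1 (.lf 2 7 192))) (.dc 1 3 0 (.lf 2 7 192)))) (.dc 0
  1 1 (.ct 1 6 1 1 1 (.dc 1 3 0 (.lf 2 13 192)) (.dc 1 3 1 (.lf 2 13 192))))))) (.ct 2 5 1 1 1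
  (.ct 0 4 1 1 1 (.dc 0 1 0 (.ct 0 1 1 1 1 (.ct 1 4 1 1 1 (.dc 1 3 0 (.lf 2 6 192)) (.ct 1 6 1 1
  1 (.dc 1 3 0 (.lf 2 7 176)) (.dc 1 3 1 (.lf 2 9 160)))) (.dc 1 3 0 (.lf 2 6 208)))) (.ct 1 4 1
  1 1 (.dc 1 3 0 (.ct 0 6 1 1 1 (.dc 0 1 0 (.lf 2 5 176)) (.dc 0 1 1 (.lf 2 13 176)))) (.ct 0 6 1
  1 1 (.dc 0 1 0 (.ct 0 1 1 1 1 (.ct 1 6 1 1 1 (.dc 1 3 0 (.lf 2 7 192)) (.dc 1 3 1 (.lf 2 8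
  192))) (.dc 1 3 0 (.lf 2 6 192)))) (.dc 0 1 1 (.ct 1 6 1 1 1 (.dc 1 3 0 (.lf 2 13 192)) (.dc 1
  3 1 (.lf 2 13 192))))))) (.ct 0 4 1 1 1 (.dc 0 1 0 (.ct 0 1 1 1 1 (.ct 1 4 1 1 1 (.dc 1 3 0
  (.lf 3 7 192)) (.ct 1 6 1 1 1 (.dc 1 3 0 (.lf 3 8 176)) (.dc 1 3 1 (.lf 3 10 160)))) (.dc 1 3 0
  (.lf 3 7 208)))) (.ct 1 4 1 1 1 (.dc 1 3 0 (.ct 0 6 1 1 1 (.dc 0 1 0 (.lf 3 6 176)) (.dc 0 1 1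
  (.lf 3 12 176)))) (.ct 0 6 1 1 1 (.dc 0 1 0 (.ct 0 1 1 1 1 (.ct 1 6 1 1 1 (.dc 1 3 0 (.lf 3 8
  192)) (.dc 1 3 1 (.lf 3 9 192))) (.dc 1 3 0 (.lf 3 7 192)))) (.dc 0 1 1 (.ct 1 6 1 1 1 (.dc 1 3
  0 (.lf 3 12 192)) (.dc 1 3 1 (.lf 3 12 192))))))))))

theorem dt205 : le (run cls4 4 tr205 [[1, 0, 0, 0, 1, 0, 0], [1, 1, 0, 0, 1, 1, 0], [2, 1, 1,
  0, 3, 2, 1], [2, 1, 1, 1, 2, 1, 0], [2, 2, 2, 1, 4, 2, 1], [2, 1, 1, 1, 3, 2, 0], [1, 1, 1, 1,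
  2, 1, 1]] 140737487831037 [68, 104, 104, 128, 74, 182, 224]) 968292205375 = true := by
  decide +kernel

/-- data -/
noncomputable def tr206 : Ct := (.dc 2 7 1 (.dc 2 15 1 (.ct 2 3 1 1 1 (.ct 3 5 1 1 1 (.ct 0 4 1
  1 1 (.dc 0 1 0 (.ct 0 1 1 1 1 (.ct 1 4 1 1 1 (.dc 1 3 0 (.lf 3 7 208)) (.ct 1 6 1 1 1 (.dc 1 3
  0 (.lf 3 8 176)) (.dc 1 3 1 (.lf 3 9 176)))) (.dc 1 3 0 (.lf 3 7 208)))) (.ct 1 4 1 1 1 (.dc 1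
  3 0 (.ct 0 6 1 1 1 (.dc 0 1 0 (.lf 3 6 176)) (.dc 0 1 1 (.lf 3 12 176)))) (.ct 0 6 1 1 1 (.dc 0
  1 0 (.ct 0 1 1 1 1 (.ct 1 6 1 1 1 (.dc 1 3 0 (.lf 3 8 208)) (.dc 1 3 1 (.lf 3 8 208))) (.dc 1 3
  0 (.lf 3 7 208)))) (.dc 0 1 1 (.ct 1 6 1 1 1 (.dc 1 3 0 (.lf 3 12 208)) (.dc 1 3 1 (.lf 3 12
  208))))))) (.ct 0 4 1 1 1 (.dc 0 1 0 (.ct 0 1 1 1 1 (.ct 1 4 1 1 1 (.dc 1 3 0 (.lf 2 8 208))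
  (.ct 1 6 1 1 1 (.dc 1 3 0 (.lf 2 8 176)) (.dc 1 3 1 (.lf 2 7 176)))) (.dc 1 3 0 (.lf 2 7
  208)))) (.ct 1 4 1 1 1 (.dc 1 3 0 (.ct 0 6 1 1 1 (.dc 0 1 0 (.lf 2 7 176)) (.dc 0 1 1 (.lf 2 13
  176)))) (.ct 0 6 1 1 1 (.dc 0 1 0 (.ct 0 1 1 1 1 (.ct 1 6 1 1 1 (.dc 1 3 0 (.lf 2 8 208)) (.dc
  1 3 1 (.lf 2 7 208))) (.dc 1 3 0 (.lf 2 7 208)))) (.dc 0 1 1 (.ct 1 6 1 1 1 (.dc 1 3 0 (.lf 2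
  13 208)) (.dc 1 3 1 (.lf 2 13 208)))))))) (.ct 0 4 1 1 1 (.dc 0 1 0 (.ct 0 1 1 1 1 (.ct 1 4 1 1
  1 (.dc 1 3 0 (.lf 3 8 208)) (.ct 1 6 1 1 1 (.dc 1 3 0 (.lf 3 8 176)) (.dc 1 3 1 (.lf 3 9
  176)))) (.dc 1 3 0 (.lf 3 7 176)))) (.ct 1 4 1 1 1 (.dc 1 3 0 (.ct 0 6 1 1 1 (.dc 0 1 0 (.lf 3
  7 144)) (.dc 0 1 1 (.lf 3 12 160)))) (.ct 0 6 1 1 1 (.dc 0 1 0 (.ct 0 1 1 1 1 (.ct 1 6 1 1 1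
  (.dc 1 3 0 (.lf 3 8 192)) (.dc 1 3 1 (.lf 3 9 192))) (.dc 1 3 0 (.lf 3 7 176)))) (.dc 0 1 1
  (.ct 1 6 1 1 1 (.dc 1 3 0 (.lf 3 12 176)) (.dc 1 3 1 (.lf 3 12 176))))))))))

theorem dt206 : le (run cls4 4 tr206 [[1, 0, 0, 0, 1, 0, 0], [1, 1, 0, 0, 1, 1, 0], [2, 1, 1,
  0, 2, 1, 1], [2, 1, 1, 1, 2, 1, 0], [2, 2, 2, 1, 4, 2, 1], [2, 1, 1, 0, 3, 2, 1], [1, 1, 1, 1,
  2, 1, 1]] 140187732017149 [68, 104, 104, 128, 74, 182, 224]) 502398445380 = true := by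
  decide +kernel

end Pool.Agent.Work.MP_122e00_nt.Sharp.Cx

end

section

set_option autoImplicit false

set_option maxRecDepth 100000

/-!
# The certificate: data
-/

namespace Pool.Agent.Work.MP_122e00_nt.Sharp.Cx

/-- data -/
noncomputable def tr207 : Ct := (.dc 0 1 0 (.ct 2 3 1 1 1 (.dc 0 9 1 (.ct 1 4 1 1 1 (.dc 1 3 0
  (.ct 0 3 1 1 1 (.lf 2 7 176) (.lf 3 6 176))) (.ct 1 5 1 1 1 (.dc 1 3 0 (.ct 0 3 1 1 1 (.lf 2 8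
  192) (.lf 3 7 192))) (.ct 1 6 1 1 1 (.dc 1 3 0 (.ct 0 3 1 1 1 (.lf 2 8 192) (.lf 3 7 192)))
  (.dc 1 3 1 (.ct 0 3 1 1 1 (.lf 2 8 192) (.lf 3 9 192))))))) (.dc 0 9 0 (.ct 1 4 1 1 1 (.dc 1 3
  0 (.lf 3 7 176)) (.ct 1 5 1 1 1 (.dc 1 3 0 (.lf 3 7 192)) (.ct 1 6 1 1 1 (.dc 1 3 0 (.lf 3 8
  192)) (.dc 1 3 1 (.lf 3 8 192))))))))

theorem dt207 : le (run cls4 4 tr207 [[2, 1, 1, 0, 2, 1, 1], [1, 1, 0, 0, 1, 1, 0], [1, 1, 1,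
  0, 1, 1, 1], [2, 1, 1, 1, 2, 1, 0], [2, 2, 2, 1, 3, 1, 1], [2, 2, 2, 1, 4, 2, 1], [1, 1, 1, 1,
  2, 1, 1]] 281474976185853 [67, 79, 79, 139, 91, 175, 199]) 1954504719013 = true := by
  decide +kernel

/-- data -/
noncomputable def tr208 : Ct := (.dc 0 9 1 (.ct 0 4 1 1 1 (.dc 0 1 0 (.ct 0 1 1 1 1 (.ct 1 4 1
  1 1 (.dc 1 3 0 (.ct 2 3 1 1 1 (.lf 2 7 192) (.lf 3 6 192))) (.ct 1 5 1 1 1 (.dc 1 3 0 (.ct 2 3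
  1 1 1 (.lf 2 7 192) (.lf 3 7 192))) (.ct 1 6 1 1 1 (.dc 1 3 0 (.ct 2 3 1 1 1 (.lf 2 7 160) (.lf
  3 7 160))) (.dc 1 3 1 (.ct 2 3 1 1 1 (.lf 2 7 160) (.lf 3 7 160)))))) (.dc 1 3 0 (.ct 2 3 1 1 1
  (.lf 2 6 192) (.lf 3 6 192))))) (.ct 1 4 1 1 1 (.dc 1 3 0 (.ct 0 5 1 1 1 (.dc 0 1 0 (.ct 2 3 1
  1 1 (.lf 2 6 192) (.lf 3 6 192))) (.ct 0 6 1 1 1 (.dc 0 1 0 (.ct 2 3 1 1 1 (.lf 2 6 208) (.lf 3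
  6 208))) (.dc 0 1 1 (.ct 2 3 1 1 1 (.lf 2 13 208) (.lf 3 13 208)))))) (.ct 2 3 1 1 1 (.ct 0 5 1
  1 1 (.dc 0 1 0 (.ct 0 1 1 1 1 (.ct 1 5 1 1 1 (.dc 1 3 0 (.lf 2 7 208)) (.ct 1 6 1 1 1 (.dc 1 3
  0 (.lf 2 7 176)) (.dc 1 3 1 (.lf 2 7 176)))) (.dc 1 3 0 (.lf 2 7 208)))) (.ct 1 5 1 1 1 (.dc 1
  3 0 (.ct 0 6 1 1 1 (.dc 0 1 0 (.lf 2 6 176)) (.dc 0 1 1 (.lf 2 13 176)))) (.ct 0 6 1 1 1 (.dc 0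
  1 0 (.ct 0 1 1 1 1 (.ct 1 6 1 1 1 (.dc 1 3 0 (.lf 2 7 208)) (.dc 1 3 1 (.lf 2 6 208))) (.dc 1 3
  0 (.lf 2 7 208)))) (.dc 0 1 1 (.ct 1 6 1 1 1 (.dc 1 3 0 (.lf 2 13 208)) (.dc 1 3 1 (.lf 2 13
  208))))))) (.ct 0 5 1 1 1 (.dc 0 1 0 (.ct 0 1 1 1 1 (.ct 1 5 1 1 1 (.dc 1 3 0 (.lf 3 7 208))
  (.ct 1 6 1 1 1 (.dc 1 3 0 (.lf 3 7 176)) (.dc 1 3 1 (.lf 3 7 176)))) (.dc 1 3 0 (.lf 3 6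
  208)))) (.ct 1 5 1 1 1 (.dc 1 3 0 (.ct 0 6 1 1 1 (.dc 0 1 0 (.lf 3 6 176)) (.dc 0 1 1 (.lf 3 13
  176)))) (.ct 0 6 1 1 1 (.dc 0 1 0 (.ct 0 1 1 1 1 (.ct 1 6 1 1 1 (.dc 1 3 0 (.lf 3 7 208)) (.dc
  1 3 1 (.lf 3 7 208))) (.dc 1 3 0 (.lf 3 6 208)))) (.dc 0 1 1 (.ct 1 6 1 1 1 (.dc 1 3 0 (.lf 3
  13 208)) (.dc 1 3 1 (.lf 3 12 208)))))))))))

theorem dt208 : le (run cls4 4 tr208 [[1, 0, 0, 0, 1, 0, 0], [1, 1, 0, 0, 1, 1, 0], [2, 1, 1,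
  0, 2, 1, 1], [2, 1, 1, 1, 2, 1, 0], [2, 2, 2, 1, 3, 1, 1], [2, 2, 2, 1, 4, 2, 1], [1, 1, 1, 1,
  2, 1, 1]] 281474976185853 [67, 79, 79, 139, 91, 175, 199]) 1068390028163 = true := by
  decide +kernel

/-- data -/
noncomputable def tr209 : Ct := (.dc 0 1 0 (.dc 1 14 1 (.ct 2 5 1 1 1 (.ct 1 2 1 1 1 (.ct 5 6 1
  1 1 (.dc 1 3 0 (.lf 2 7 160)) (.dc 1 3 1 (.lf 2 7 176))) (.ct 5 6 1 1 1 (.dc 1 3 0 (.ct 1 5 1 1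
  1 (.lf 2 7 160) (.lf 1 8 160))) (.dc 1 3 1 (.ct 1 5 1 1 1 (.lf 2 7 160) (.ct 1 6 1 1 1 (.lf 2 8
  160) (.lf 1 9 160)))))) (.dc 1 3 0 (.ct 1 5 1 1 1 (.lf 2 7 160) (.lf 1 8 160))))))

theorem dt209 : le (run cls4 4 tr209 [[2, 1, 1, 1, 2, 1, 0], [2, 2, 1, 1, 2, 0, 0], [2, 2, 2,
  1, 3, 1, 1], [1, 1, 1, 1, 1, 1, 0], [2, 2, 1, 1, 3, 1, 0], [1, 1, 0, 0, 1, 1, 0], [1, 1, 1, 1,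
  2, 1, 1]] 281473902444541 [101, 113, 149, 149, 113, 245, 257]) 1017095583879 = true := by
  decide +kernel

end Pool.Agent.Work.MP_122e00_nt.Sharp.Cx

end

section

set_option autoImplicit false

set_option maxRecDepth 100000

/-!
# The certificate: data
-/

namespace Pool.Agent.Work.MP_122e00_nt.Sharp.Cx

/-- data -/
noncomputable def tr210 : Ct := (.dc 0 1 0 (.ct 0 5 1 1 1 (.ct 0 1 1 1 1 (.ct 2 5 1 1 1 (.ct 1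
  2 1 1 1 (.ct 5 6 1 1 1 (.dc 1 3 0 (.lf 2 7 208)) (.dc 1 3 1 (.lf 2 6 208))) (.ct 5 6 1 1 1 (.dc
  1 3 0 (.ct 1 5 1 1 1 (.lf 2 6 192) (.lf 1 7 192))) (.dc 1 3 1 (.ct 1 5 1 1 1 (.lf 2 6 192) (.ct
  1 6 1 1 1 (.lf 2 7 192) (.lf 1 10 192)))))) (.dc 1 3 0 (.ct 1 5 1 1 1 (.lf 2 6 208) (.lf 1 8
  192)))) (.ct 2 5 1 1 1 (.ct 5 6 1 1 1 (.dc 1 3 0 (.lf 2 7 208)) (.dc 1 3 1 (.lf 2 6 208))) (.dc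
  1 3 0 (.lf 2 6 208)))) (.dc 1 3 0 (.ct 1 5 1 1 1 (.lf 2 6 224) (.lf 1 8 208)))))

theorem dt210 : le (run cls4 4 tr210 [[3, 2, 2, 1, 4, 1, 1], [2, 2, 1, 1, 2, 0, 0], [2, 2, 2,
  1, 3, 1, 1], [2, 1, 1, 1, 2, 1, 0], [2, 2, 1, 1, 3, 1, 0], [1, 1, 0, 0, 1, 1, 0], [1, 1, 1, 1,
  2, 1, 1]] 281474976186365 [101, 113, 149, 149, 113, 245, 257]) 1405041603271 = true := by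
  decide +kernel

/-- data -/
noncomputable def tr211 : Ct := (.dc 0 1 0 (.ct 0 5 1 1 1 (.ct 0 1 1 1 1 (.ct 2 5 1 1 1 (.ct 1
  2 1 1 1 (.ct 5 6 1 1 1 (.dc 1 3 0 (.lf 2 6 240)) (.dc 1 3 1 (.lf 2 5 240))) (.ct 5 6 1 1 1 (.dc
  1 3 0 (.ct 1 5 1 1 1 (.lf 2 6 224) (.lf 1 7 208))) (.dc 1 3 1 (.ct 1 5 1 1 1 (.lf 2 6 224) (.ct
  1 6 1 1 1 (.lf 2 7 224) (.lf 1 10 224)))))) (.dc 1 3 0 (.ct 1 5 1 1 1 (.lf 2 5 256) (.lf 1 7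
  224)))) (.ct 2 5 1 1 1 (.ct 5 6 1 1 1 (.dc 1 3 0 (.lf 2 7 224)) (.dc 1 3 1 (.lf 2 7 224))) (.dc
  1 3 0 (.lf 2 6 224)))) (.dc 1 3 0 (.ct 1 5 1 1 1 (.lf 2 7 208) (.lf 1 8 192)))))

theorem dt211 : le (run cls4 4 tr211 [[2, 1, 1, 1, 3, 1, 1], [2, 2, 1, 1, 2, 0, 0], [3, 2, 2,
  1, 4, 1, 1], [2, 1, 1, 1, 2, 1, 0], [2, 2, 1, 1, 3, 1, 0], [1, 1, 0, 0, 1, 1, 0], [1, 1, 1, 1,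
  2, 1, 1]] 281474976186365 [101, 113, 149, 149, 113, 245, 257]) 1421953310521 = true := by
  decide +kernel

end Pool.Agent.Work.MP_122e00_nt.Sharp.Cx

end

section

set_option autoImplicit false

set_option maxRecDepth 100000

/-!
# The certificate: data
-/

namespace Pool.Agent.Work.MP_122e00_nt.Sharp.Cx

/-- data -/
noncomputable def tr212 : Ct := (.dc 0 1 1 (.ct 2 5 1 1 1 (.ct 1 2 1 1 1 (.ct 5 6 1 1 1 (.dc 1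
  3 0 (.lf 2 12 240)) (.dc 1 3 1 (.lf 2 12 240))) (.ct 5 6 1 1 1 (.dc 1 3 0 (.ct 1 5 1 1 1 (.lf 2
  12 240) (.lf 1 11 208))) (.dc 1 3 1 (.ct 1 5 1 1 1 (.lf 2 12 224) (.ct 1 6 1 1 1 (.lf 2 12 256)
  (.lf 1 12 224)))))) (.dc 1 3 0 (.ct 1 5 1 1 1 (.lf 2 12 240) (.lf 1 11 208)))))

theorem dt212 : le (run cls4 4 tr212 [[1, 0, 0, 0, 1, 0, 0], [2, 2, 1, 1, 2, 0, 0], [3, 2, 2,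
  1, 4, 1, 1], [2, 1, 1, 1, 2, 1, 0], [2, 2, 1, 1, 3, 1, 0], [1, 1, 0, 0, 1, 1, 0], [2, 1, 1, 1,
  3, 1, 1]] 281474976186365 [101, 113, 149, 149, 113, 245, 257]) 120844115050 = true := by
  decide +kernel

/-- data -/
noncomputable def tr213 : Ct := (.dc 0 12 1 (.dc 1 3 0 (.ct 0 3 1 1 1 (.dc 0 1 0 (.dc 1 14 1
  (.lf 1 7 160))) (.dc 1 14 0 (.ct 0 2 1 1 1 (.dc 0 1 0 (.lf 1 7 176)) (.ct 0 6 1 1 1 (.dc 0 1 0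
  (.lf 1 7 176)) (.dc 0 1 1 (.lf 1 11 176))))))))

theorem dt213 : le (run cls4 4 tr213 [[1, 0, 0, 0, 1, 0, 0], [2, 2, 1, 1, 2, 0, 0], [2, 2, 2,
  1, 3, 1, 1], [1, 1, 1, 1, 1, 1, 0], [1, 1, 1, 1, 2, 0, 0], [2, 2, 1, 1, 3, 1, 0], [1, 1, 1, 1,
  2, 1, 1]] 281473902440445 [101, 113, 149, 149, 113, 245, 257]) 415857895206 = true := by
  decide +kernel

/-- data -/
noncomputable def tr214 : Ct := (.dc 0 1 0 (.dc 1 14 1 (.ct 1 2 1 1 1 (.dc 2 3 0 (.ct 2 5 1 1 1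
  (.ct 2 4 1 1 1 (.ct 5 6 1 1 1 (.dc 1 3 0 (.ct 4 5 1 1 1 (.lf 2 6 192) (.lf 1 8 176))) (.dc 1 3
  1 (.ct 4 5 1 1 1 (.lf 2 8 160) (.ct 4 6 1 1 1 (.lf 2 8 192) (.lf 1 10 176))))) (.ct 5 6 1 1 1
  (.dc 1 3 0 (.lf 2 7 176)) (.dc 1 3 1 (.lf 2 6 176)))) (.dc 1 3 0 (.ct 4 5 1 1 1 (.lf 2 6 176)
  (.lf 1 9 160))))) (.ct 1 6 1 1 1 (.dc 2 3 0 (.ct 5 6 1 1 1 (.dc 1 3 0 (.ct 4 5 1 1 1 (.lf 2 7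
  192) (.lf 1 9 176))) (.dc 1 3 1 (.ct 4 5 1 1 1 (.lf 2 9 192) (.ct 4 6 1 1 1 (.lf 2 9 192) (.lf
  1 10 176)))))) (.dc 1 3 1 (.ct 0 1 1 1 1 (.ct 1 3 1 1 1 (.dc 2 3 0 (.ct 4 5 1 1 1 (.lf 2 8 192)
  (.lf 1 8 176))) (.dc 2 3 1 (.ct 4 5 1 1 1 (.lf 2 11 192) (.lf 1 10 176)))) (.dc 2 3 0 (.ct 4 5
  1 1 1 (.lf 2 9 192) (.lf 1 9 176)))))))))

theorem dt214 : le (run cls4 4 tr214 [[2, 1, 1, 1, 2, 1, 0], [1, 1, 0, 0, 0, 0, 0], [2, 2, 2,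
  1, 3, 1, 1], [1, 1, 1, 1, 1, 1, 0], [2, 2, 1, 1, 2, 0, 0], [1, 1, 0, 0, 1, 1, 0], [1, 1, 1, 1,
  2, 1, 1]] 281439542706173 [101, 113, 149, 149, 113, 245, 257]) 579471606605 = true := by
  decide +kernel

end Pool.Agent.Work.MP_122e00_nt.Sharp.Cx

end
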