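import Pool.Agent.Work.MP_122e00_nt.Bd.B03

/-! Bundle of small proof modules (one section per former module). -/

section

set_option autoImplicit false

set_option maxRecDepth 100000

/-!
# The certificate: data
-/

namespace Pool.Agent.Work.MP_122e00_nt.Sharp.Cx

/-- data -/
noncomputable def tr215 : Ct := (.dc 0 1 0 (.ct 2 5 1 1 1 (.ct 2 4 1 1 1 (.ct 5 6 1 1 1 (.dc 1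
  3 0 (.ct 4 5 1 1 1 (.lf 2 6 192) (.lf 1 8 192))) (.dc 1 3 1 (.ct 4 5 1 1 1 (.lf 2 7 176) (.ct 4
  6 1 1 1 (.lf 2 7 192) (.lf 1 11 192))))) (.ct 5 6 1 1 1 (.dc 1 3 0 (.lf 2 6 176)) (.dc 1 3 1
  (.lf 2 5 176)))) (.dc 1 3 0 (.ct 4 5 1 1 1 (.lf 2 5 176) (.lf 1 8 176)))))

theorem dt215 : le (run cls4 4 tr215 [[4, 3, 2, 1, 4, 1, 1], [3, 3, 2, 1, 3, 1, 1], [2, 2, 2,
  1, 3, 1, 1], [2, 1, 1, 1, 2, 1, 0], [2, 2, 1, 1, 2, 0, 0], [1, 1, 0, 0, 1, 1, 0], [1, 1, 1, 1,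
  2, 1, 1]] 281474976186365 [101, 113, 149, 149, 113, 245, 257]) 1294184011802 = true := by
  decide +kernel

/-- data -/
noncomputable def tr216 : Ct := (.dc 0 1 0 (.ct 0 5 1 1 1 (.ct 0 4 1 1 1 (.ct 2 5 1 1 1 (.ct 2
  4 1 1 1 (.ct 5 6 1 1 1 (.dc 1 3 0 (.ct 4 5 1 1 1 (.lf 2 6 208) (.lf 1 8 192))) (.dc 1 3 1 (.ct
  4 5 1 1 1 (.lf 2 7 176) (.ct 4 6 1 1 1 (.lf 2 7 208) (.lf 1 10 192))))) (.ct 5 6 1 1 1 (.dc 1 3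
  0 (.lf 2 6 176)) (.dc 1 3 1 (.lf 2 5 176)))) (.dc 1 3 0 (.ct 4 5 1 1 1 (.lf 2 6 176) (.lf 1 8
  176)))) (.ct 2 5 1 1 1 (.ct 5 6 1 1 1 (.dc 1 3 0 (.lf 2 7 192)) (.dc 1 3 1 (.lf 2 6 192))) (.dc
  1 3 0 (.lf 2 6 192)))) (.dc 1 3 0 (.ct 4 5 1 1 1 (.lf 2 5 224) (.lf 1 8 208)))))

theorem dt216 : le (run cls4 4 tr216 [[3, 2, 2, 1, 4, 1, 1], [4, 3, 2, 1, 4, 1, 1], [2, 2, 2,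
  1, 3, 1, 1], [2, 1, 1, 1, 2, 1, 0], [2, 2, 1, 1, 2, 0, 0], [1, 1, 0, 0, 1, 1, 0], [1, 1, 1, 1,
  2, 1, 1]] 281474976186365 [101, 113, 149, 149, 113, 245, 257]) 1336078143047 = true := by
  decide +kernel

/-- data -/
noncomputable def tr217 : Ct := (.dc 0 1 0 (.ct 0 5 1 1 1 (.ct 0 4 1 1 1 (.ct 2 5 1 1 1 (.ct 2
  4 1 1 1 (.ct 5 6 1 1 1 (.dc 1 3 0 (.ct 4 5 1 1 1 (.lf 2 6 240) (.lf 1 8 208))) (.dc 1 3 1 (.ct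
  4 5 1 1 1 (.lf 2 7 208) (.ct 4 6 1 1 1 (.lf 2 7 240) (.lf 1 10 224))))) (.ct 5 6 1 1 1 (.dc 1 3
  0 (.lf 2 6 224)) (.dc 1 3 1 (.lf 2 5 224)))) (.dc 1 3 0 (.ct 4 5 1 1 1 (.lf 2 5 256) (.lf 1 8
  224)))) (.ct 2 5 1 1 1 (.ct 5 6 1 1 1 (.dc 1 3 0 (.lf 2 7 224)) (.dc 1 3 1 (.lf 2 5 224))) (.dc
  1 3 0 (.lf 2 5 224)))) (.dc 1 3 0 (.ct 4 5 1 1 1 (.lf 2 6 208) (.lf 1 8 208)))))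

theorem dt217 : le (run cls4 4 tr217 [[2, 1, 1, 1, 3, 1, 1], [4, 3, 2, 1, 4, 1, 1], [3, 2, 2,
  1, 4, 1, 1], [2, 1, 1, 1, 2, 1, 0], [2, 2, 1, 1, 2, 0, 0], [1, 1, 0, 0, 1, 1, 0], [1, 1, 1, 1,
  2, 1, 1]] 281474976186365 [101, 113, 149, 149, 113, 245, 257]) 1350924006115 = true := by
  decide +kernel

end Pool.Agent.Work.MP_122e00_nt.Sharp.Cx

end

section

set_option autoImplicit false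

set_option maxRecDepth 100000

/-!
# The certificate: data
-/

namespace Pool.Agent.Work.MP_122e00_nt.Sharp.Cx

/-- data -/
noncomputable def tr218 : Ct := (.dc 0 1 1 (.ct 2 5 1 1 1 (.ct 2 4 1 1 1 (.ct 5 6 1 1 1 (.dc 1
  3 0 (.ct 4 5 1 1 1 (.lf 2 12 240) (.lf 1 11 208))) (.dc 1 3 1 (.ct 4 5 1 1 1 (.lf 2 12 208)
  (.ct 4 6 1 1 1 (.lf 2 12 240) (.lf 1 12 208))))) (.ct 5 6 1 1 1 (.dc 1 3 0 (.lf 2 12 240)) (.dc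
  1 3 1 (.lf 2 12 224)))) (.dc 1 3 0 (.ct 4 5 1 1 1 (.lf 2 12 240) (.lf 1 11 208)))))

theorem dt218 : le (run cls4 4 tr218 [[1, 0, 0, 0, 1, 0, 0], [4, 3, 2, 1, 4, 1, 1], [3, 2, 2,
  1, 4, 1, 1], [2, 1, 1, 1, 2, 1, 0], [2, 2, 1, 1, 2, 0, 0], [1, 1, 0, 0, 1, 1, 0], [2, 1, 1, 1,
  3, 1, 1]] 281474976186365 [101, 113, 149, 149, 113, 245, 257]) 113537644450 = true := by
  decide +kernel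

/-- data -/
noncomputable def tr219 : Ct := (.dc 2 3 0 (.ct 0 1 1 1 1 (.dc 0 1 0 (.ct 5 6 1 1 1 (.dc 1 3 0
  (.ct 4 5 1 1 1 (.lf 2 7 192) (.lf 1 9 176))) (.dc 1 3 1 (.ct 4 5 1 1 1 (.lf 2 8 192) (.ct 4 6 1
  1 1 (.lf 2 9 192) (.lf 1 9 176)))))) (.ct 0 2 1 1 1 (.dc 0 1 0 (.ct 5 6 1 1 1 (.dc 1 3 0 (.ct 4
  5 1 1 1 (.lf 2 6 192) (.lf 1 8 192))) (.dc 1 3 1 (.ct 4 5 1 1 1 (.lf 2 7 176) (.ct 4 6 1 1 1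
  (.lf 2 8 192) (.lf 1 11 192)))))) (.ct 0 6 1 1 1 (.dc 0 1 0 (.ct 0 5 1 1 1 (.ct 0 4 1 1 1 (.ct
  5 6 1 1 1 (.dc 1 3 0 (.ct 4 5 1 1 1 (.lf 2 6 192) (.lf 1 8 192))) (.dc 1 3 1 (.ct 4 5 1 1 1
  (.lf 2 7 176) (.ct 4 6 1 1 1 (.lf 2 7 192) (.lf 1 10 192))))) (.ct 5 6 1 1 1 (.dc 1 3 0 (.lf 2
  6 208)) (.dc 1 3 1 (.lf 2 5 208)))) (.dc 1 3 0 (.ct 4 5 1 1 1 (.lf 2 6 224) (.lf 1 8 192)))))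
  (.dc 0 1 1 (.ct 5 6 1 1 1 (.dc 1 3 0 (.ct 4 5 1 1 1 (.lf 2 12 224) (.lf 1 12 192))) (.dc 1 3 1
  (.ct 4 5 1 1 1 (.lf 2 12 176) (.ct 4 6 1 1 1 (.lf 2 12 208) (.lf 1 12 176))))))))))

theorem dt219 : le (run cls4 4 tr219 [[1, 0, 0, 0, 1, 0, 0], [2, 2, 1, 1, 2, 1, 1], [3, 3, 2,
  1, 3, 1, 1], [2, 1, 1, 1, 2, 1, 0], [2, 2, 1, 1, 2, 0, 0], [1, 1, 0, 0, 1, 1, 0], [1, 1, 1, 1,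
  2, 1, 1]] 281440616447997 [101, 113, 149, 149, 113, 245, 257]) 563399851761 = true := by
  decide +kernel

end Pool.Agent.Work.MP_122e00_nt.Sharp.Cx

end

section

set_option autoImplicit false

set_option maxRecDepth 100000

/-!
# The certificate: data
-/

namespace Pool.Agent.Work.MP_122e00_nt.Sharp.Cx

/-- data -/
noncomputable def tr220 : Ct := (.dc 1 3 1 (.ct 0 2 1 1 1 (.dc 0 1 0 (.ct 1 3 1 1 1 (.dc 2 3 0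
  (.ct 4 5 1 1 1 (.lf 2 8 192) (.lf 1 8 192))) (.dc 2 3 1 (.ct 4 5 1 1 1 (.lf 2 11 192) (.lf 1 10
  192))))) (.ct 0 6 1 1 1 (.dc 0 1 0 (.ct 1 3 1 1 1 (.dc 2 3 0 (.ct 4 5 1 1 1 (.lf 2 8 160) (.lf
  1 8 160))) (.dc 2 3 1 (.ct 4 5 1 1 1 (.lf 2 11 176) (.lf 1 10 160))))) (.dc 0 1 1 (.ct 1 3 1 1
  1 (.dc 2 3 0 (.ct 4 5 1 1 1 (.lf 2 12 176) (.lf 1 12 160))) (.dc 2 3 1 (.ct 4 5 1 1 1 (.lf 2 10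
  176) (.lf 1 9 160))))))))

theorem dt220 : le (run cls4 4 tr220 [[1, 0, 0, 0, 1, 0, 0], [1, 1, 0, 0, 0, 0, 0], [3, 3, 2,
  1, 3, 1, 1], [2, 1, 1, 1, 2, 1, 0], [2, 2, 1, 1, 2, 0, 0], [1, 1, 0, 0, 1, 1, 0], [2, 2, 1, 1,
  2, 1, 1]] 281440616447997 [101, 113, 149, 149, 113, 245, 257]) 176087863236 = true := by
  decide +kernel

/-- data -/
noncomputable def tr221 : Ct := (.dc 0 1 0 (.dc 0 9 0 (.ct 1 4 1 1 1 (.dc 2 3 0 (.ct 0 3 1 1 1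
  (.dc 1 14 1 (.ct 4 5 1 1 1 (.ct 5 6 1 1 1 (.dc 1 3 0 (.ct 2 3 1 1 1 (.lf 2 8 176) (.lf 3 9
  176))) (.dc 1 3 1 (.ct 2 3 1 1 1 (.lf 2 8 176) (.lf 3 8 176)))) (.dc 1 3 0 (.ct 2 3 1 1 1 (.lf
  2 7 176) (.lf 3 8 176))))) (.dc 1 14 0 (.ct 4 5 1 1 1 (.ct 5 6 1 1 1 (.dc 1 3 0 (.lf 3 9 176))
  (.dc 1 3 1 (.lf 3 7 176))) (.dc 1 3 0 (.lf 3 8 176)))))) (.ct 1 6 1 1 1 (.dc 2 3 0 (.ct 0 3 1 1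
  1 (.dc 1 14 1 (.ct 5 6 1 1 1 (.dc 1 3 0 (.ct 2 3 1 1 1 (.lf 2 8 176) (.lf 3 10 176))) (.dc 1 3
  1 (.ct 2 3 1 1 1 (.lf 2 8 176) (.lf 3 8 176))))) (.dc 1 14 0 (.ct 5 6 1 1 1 (.dc 1 3 0 (.lf 3 9
  176)) (.dc 1 3 1 (.lf 3 7 176)))))) (.dc 1 3 1 (.ct 0 3 1 1 1 (.dc 1 14 1 (.ct 0 1 1 1 1 (.ct 1
  3 1 1 1 (.dc 2 3 0 (.ct 1 2 1 1 1 (.ct 2 3 1 1 1 (.lf 2 7 192) (.lf 3 6 192)) (.lf 2 9 192)))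
  (.dc 2 3 1 (.ct 2 3 1 1 1 (.lf 2 12 176) (.lf 3 11 192)))) (.dc 2 3 0 (.ct 2 3 1 1 1 (.lf 2 8
  192) (.lf 3 6 192))))) (.dc 1 14 0 (.ct 1 3 1 1 1 (.dc 2 3 0 (.lf 3 6 192)) (.dc 2 3 1 (.lf 3
  11 192))))))))))

theorem dt221 : le (run cls4 4 tr221 [[2, 1, 1, 0, 2, 1, 1], [1, 1, 0, 0, 0, 0, 0], [1, 1, 1,
  0, 1, 1, 1], [1, 1, 1, 1, 1, 1, 0], [2, 2, 2, 1, 3, 1, 1], [1, 1, 0, 0, 1, 1, 0], [1, 1, 1, 1,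
  2, 1, 1]] 281439542705661 [69, 81, 93, 141, 105, 189, 201]) 1583237769128 = true := by
  decide +kernel

end Pool.Agent.Work.MP_122e00_nt.Sharp.Cx

end

section

set_option autoImplicit false

set_option maxRecDepth 100000

/-!
# The certificate: data
-/

namespace Pool.Agent.Work.MP_122e00_nt.Sharp.Cx

/-- data -/
noncomputable def tr222 : Ct := (.dc 2 3 0 (.ct 0 3 1 1 1 (.dc 0 1 0 (.ct 2 3 1 1 1 (.dc 1 14 1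
  (.ct 4 5 1 1 1 (.ct 5 6 1 1 1 (.dc 1 3 0 (.lf 2 7 176)) (.dc 1 3 1 (.lf 2 7 176))) (.dc 1 3 0
  (.lf 2 7 176)))) (.dc 1 14 0 (.ct 4 5 1 1 1 (.ct 5 6 1 1 1 (.dc 1 3 0 (.ct 0 2 1 1 1 (.lf 3 8
  176) (.lf 2 7 176))) (.dc 1 3 1 (.ct 0 2 1 1 1 (.lf 3 7 176) (.lf 2 6 176)))) (.dc 1 3 0 (.ct 0
  2 1 1 1 (.lf 3 7 176) (.lf 2 6 176))))))) (.dc 1 14 0 (.ct 0 1 1 1 1 (.dc 0 1 0 (.ct 4 5 1 1 1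
  (.ct 5 6 1 1 1 (.dc 1 3 0 (.ct 2 3 1 1 1 (.lf 2 7 176) (.lf 3 8 176))) (.dc 1 3 1 (.ct 2 3 1 1
  1 (.lf 2 6 176) (.lf 3 7 176)))) (.dc 1 3 0 (.ct 2 3 1 1 1 (.lf 2 6 176) (.lf 3 7 176))))) (.ct
  2 3 1 1 1 (.ct 0 4 1 1 1 (.dc 0 1 0 (.ct 0 5 1 1 1 (.ct 4 5 1 1 1 (.ct 5 6 1 1 1 (.dc 1 3 0
  (.lf 2 7 160)) (.dc 1 3 1 (.lf 2 6 160))) (.dc 1 3 0 (.lf 2 6 160))) (.dc 1 3 0 (.lf 2 6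
  192)))) (.ct 4 5 1 1 1 (.ct 0 6 1 1 1 (.dc 0 1 0 (.ct 0 5 1 1 1 (.ct 5 6 1 1 1 (.dc 1 3 0 (.lf
  2 7 192)) (.dc 1 3 1 (.lf 2 6 192))) (.dc 1 3 0 (.lf 2 7 208)))) (.dc 0 1 1 (.ct 5 6 1 1 1 (.dc
  1 3 0 (.lf 2 13 208)) (.dc 1 3 1 (.lf 2 12 192))))) (.dc 1 3 0 (.ct 0 6 1 1 1 (.dc 0 1 0 (.lf 2
  6 208)) (.dc 0 1 1 (.lf 2 12 208)))))) (.ct 0 4 1 1 1 (.dc 0 1 0 (.ct 0 5 1 1 1 (.ct 4 5 1 1 1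
  (.ct 5 6 1 1 1 (.dc 1 3 0 (.lf 3 8 160)) (.dc 1 3 1 (.lf 3 7 160))) (.dc 1 3 0 (.lf 3 7 160)))
  (.dc 1 3 0 (.lf 3 7 192)))) (.ct 4 5 1 1 1 (.ct 0 6 1 1 1 (.dc 0 1 0 (.ct 0 5 1 1 1 (.ct 5 6 1
  1 1 (.dc 1 3 0 (.lf 3 8 192)) (.dc 1 3 1 (.lf 3 7 192))) (.dc 1 3 0 (.lf 3 8 208)))) (.dc 0 1 1
  (.ct 5 6 1 1 1 (.dc 1 3 0 (.lf 3 13 208)) (.dc 1 3 1 (.lf 3 12 192))))) (.dc 1 3 0 (.ct 0 6 1 1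
  1 (.dc 0 1 0 (.lf 3 7 208)) (.dc 0 1 1 (.lf 3 12 208)))))))))))

theorem dt222 : le (run cls4 4 tr222 [[1, 0, 0, 0, 1, 0, 0], [3, 3, 2, 1, 3, 1, 1], [2, 1, 1,
  0, 2, 1, 1], [1, 1, 1, 1, 1, 1, 0], [2, 2, 2, 1, 3, 1, 1], [1, 1, 0, 0, 1, 1, 0], [1, 1, 1, 1,
  2, 1, 1]] 281439542706173 [73, 109, 121, 145, 109, 217, 229]) 1093462265918 = true := by
  decide +kernel

/-- data -/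
noncomputable def tr223 : Ct := (.dc 0 1 0 (.ct 1 6 1 1 1 (.dc 2 3 0 (.ct 2 3 1 1 1 (.dc 1 14 1
  (.ct 5 6 1 1 1 (.dc 1 3 0 (.lf 2 8 176)) (.dc 1 3 1 (.lf 2 7 192)))) (.dc 1 14 0 (.ct 5 6 1 1 1
  (.dc 1 3 0 (.ct 0 2 1 1 1 (.lf 3 8 192) (.lf 2 7 192))) (.dc 1 3 1 (.ct 0 2 1 1 1 (.lf 3 8 192)
  (.lf 2 7 192))))))) (.dc 1 3 1 (.ct 2 3 1 1 1 (.dc 1 14 1 (.ct 0 1 1 1 1 (.ct 1 2 1 1 1 (.dc 2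
  3 0 (.lf 2 10 192)) (.ct 1 3 1 1 1 (.dc 2 3 0 (.lf 2 9 192)) (.dc 2 3 1 (.lf 2 11 176)))) (.dc
  2 3 0 (.lf 2 10 176)))) (.dc 1 14 0 (.ct 1 3 1 1 1 (.dc 2 3 0 (.ct 0 2 1 1 1 (.lf 3 8 176) (.lf
  2 8 176))) (.ct 0 1 1 1 1 (.dc 2 3 1 (.ct 0 2 1 1 1 (.lf 3 12 208) (.lf 2 11 208))) (.dc 2 3 0
  (.ct 0 2 1 1 1 (.ct 1 2 1 1 1 (.lf 3 7 208) (.lf 2 9 208)) (.lf 2 9 176))))))))))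

theorem dt223 : le (run cls4 4 tr223 [[2, 1, 1, 1, 2, 1, 0], [1, 1, 0, 0, 0, 0, 0], [2, 1, 1,
  0, 2, 1, 1], [1, 1, 1, 1, 1, 1, 0], [3, 3, 2, 1, 3, 1, 1], [1, 1, 0, 0, 1, 1, 0], [1, 1, 1, 1,
  2, 1, 1]] 281439542706173 [73, 109, 121, 145, 109, 217, 229]) 1149439007113 = true := by
  decide +kernel

end Pool.Agent.Work.MP_122e00_nt.Sharp.Cx

end

section

set_option autoImplicit false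

set_option maxRecDepth 100000

/-!
# The certificate: data
-/

namespace Pool.Agent.Work.MP_122e00_nt.Sharp.Cx

/-- data -/
noncomputable def tr224 : Ct := (.dc 1 14 0 (.ct 1 6 1 1 1 (.dc 2 3 0 (.ct 0 1 1 1 1 (.dc 0 1 0
  (.ct 5 6 1 1 1 (.dc 1 3 0 (.ct 2 3 1 1 1 (.lf 2 7 192) (.lf 3 7 192))) (.dc 1 3 1 (.ct 2 3 1 1
  1 (.lf 2 6 192) (.lf 3 6 192))))) (.ct 0 4 1 1 1 (.dc 0 1 0 (.ct 5 6 1 1 1 (.dc 1 3 0 (.ct 2 3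
  1 1 1 (.lf 2 6 176) (.lf 3 7 176))) (.dc 1 3 1 (.ct 2 3 1 1 1 (.lf 2 5 176) (.lf 3 6 176)))))
  (.ct 2 3 1 1 1 (.ct 0 6 1 1 1 (.dc 0 1 0 (.ct 0 5 1 1 1 (.ct 5 6 1 1 1 (.dc 1 3 0 (.lf 2 7
  176)) (.dc 1 3 1 (.lf 2 6 176))) (.dc 1 3 0 (.lf 2 6 192)))) (.dc 0 1 1 (.ct 5 6 1 1 1 (.dc 1 3
  0 (.lf 2 13 192)) (.dc 1 3 1 (.lf 2 12 176))))) (.ct 0 6 1 1 1 (.dc 0 1 0 (.ct 0 5 1 1 1 (.ct 5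
  6 1 1 1 (.dc 1 3 0 (.lf 3 8 176)) (.dc 1 3 1 (.lf 3 7 176))) (.dc 1 3 0 (.lf 3 8 192)))) (.dc 0
  1 1 (.ct 5 6 1 1 1 (.dc 1 3 0 (.lf 3 13 192)) (.dc 1 3 1 (.lf 3 12 176))))))))) (.dc 1 3 1 (.ct
  0 4 1 1 1 (.dc 0 1 0 (.ct 1 3 1 1 1 (.dc 2 3 0 (.ct 1 2 1 1 1 (.ct 2 3 1 1 1 (.lf 2 6 208) (.lf
  3 7 208)) (.lf 2 8 208))) (.dc 2 3 1 (.ct 2 3 1 1 1 (.lf 2 11 208) (.lf 3 11 208))))) (.ct 0 6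
  1 1 1 (.dc 0 1 0 (.ct 1 3 1 1 1 (.dc 2 3 0 (.ct 1 2 1 1 1 (.ct 2 3 1 1 1 (.lf 2 6 176) (.lf 3 8
  176)) (.lf 2 8 176))) (.dc 2 3 1 (.ct 2 3 1 1 1 (.lf 2 11 176) (.lf 3 12 176))))) (.dc 0 1 1
  (.ct 1 3 1 1 1 (.dc 2 3 0 (.ct 1 2 1 1 1 (.ct 2 3 1 1 1 (.lf 2 13 160) (.lf 3 12 160)) (.lf 2
  13 176))) (.dc 2 3 1 (.ct 2 3 1 1 1 (.lf 2 10 176) (.lf 3 10 160))))))))))

theorem dt224 : le (run cls4 4 tr224 [[1, 0, 0, 0, 1, 0, 0], [1, 1, 0, 0, 0, 0, 0], [2, 1, 1,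
  0, 2, 1, 1], [2, 1, 1, 1, 2, 1, 0], [3, 3, 2, 1, 3, 1, 1], [1, 1, 0, 0, 1, 1, 0], [1, 1, 1, 1,
  2, 1, 1]] 281439542706173 [73, 109, 121, 145, 109, 217, 229]) 419239986906 = true := by
  decide +kernel

end Pool.Agent.Work.MP_122e00_nt.Sharp.Cx

end

section

set_option autoImplicit false

set_option maxRecDepth 100000

/-!
# The certificate: data
-/

namespace Pool.Agent.Work.MP_122e00_nt.Sharp.Cx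

/-- data -/
noncomputable def tr225 : Ct := (.dc 0 1 0 (.dc 1 14 1 (.dc 2 14 1 (.ct 1 4 1 1 1 (.dc 0 12 1
  (.dc 1 3 0 (.dc 2 3 0 (.ct 1 3 1 1 1 (.ct 2 3 1 2 1 (.ct 3 4 1 1 2 (.lf 1 5 160) (.ct 3 6 1 1 1
  (.lf 1 7 160) (.lf 0 7 144))) (.lf 1 7 160)) (.lf 1 6 128))))) (.dc 0 12 0 (.ct 1 2 1 1 1 (.dc
  1 3 0 (.dc 2 3 0 (.ct 1 3 1 2 1 (.ct 2 3 1 2 1 (.ct 3 4 1 1 1 (.lf 1 6 192) (.ct 3 6 1 1 1 (.lf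
  1 7 192) (.lf 0 7 176))) (.lf 1 7 192)) (.lf 1 7 192)))) (.ct 1 6 1 1 1 (.dc 1 3 0 (.dc 2 3 0
  (.ct 1 3 1 1 1 (.ct 2 3 1 2 1 (.ct 3 4 1 1 1 (.lf 1 6 192) (.ct 3 6 1 1 1 (.lf 1 7 192) (.lf 0
  8 176))) (.lf 1 7 192)) (.lf 1 8 176)))) (.dc 1 3 1 (.ct 2 3 1 2 1 (.ct 1 5 1 1 1 (.dc 2 3 0
  (.ct 3 4 1 1 1 (.lf 1 7 192) (.ct 3 6 1 1 1 (.lf 1 8 208) (.lf 0 7 192)))) (.dc 2 3 1 (.ct 3 4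
  1 1 1 (.lf 1 10 192) (.ct 3 6 1 1 1 (.lf 1 10 208) (.lf 0 11 192))))) (.ct 1 5 1 1 1 (.dc 2 3 0
  (.lf 1 8 208)) (.dc 2 3 1 (.lf 1 10 208))))))))))))

theorem dt225 : le (run cls4 4 tr225 [[2, 1, 1, 1, 1, 0, 0], [1, 1, 0, 0, 0, 0, 0], [2, 2, 2,
  1, 3, 1, 1], [1, 1, 1, 1, 0, 0, 0], [1, 1, 1, 1, 2, 0, 0], [1, 1, 1, 1, 1, 1, 0], [1, 1, 1, 1,
  2, 1, 1]] 211070798524413 [103, 127, 151, 151, 127, 259, 259]) 386355509296 = true := by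
  decide +kernel

end Pool.Agent.Work.MP_122e00_nt.Sharp.Cx

end
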