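import Pool.Agent.Work.MP_122e00_nt.Bd.B03

/-! Bundle of small proof modules (one section per former module). -/

section

set_option autoImplicit false

set_option maxRecDepth 100000

/-!
# The certificate: data
-/

namespace Pool.Agent.Work.MP_122e00_nt.Sharp.Cx

/-- data -/
noncomputable def tr226 : Ct := (.dc 2 14 0 (.ct 1 4 1 1 1 (.dc 0 12 1 (.dc 1 3 0 (.dc 2 3 0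
  (.ct 0 5 1 1 1 (.dc 0 1 0 (.dc 1 14 1 (.lf 1 7 128))) (.dc 1 14 0 (.ct 0 2 1 1 1 (.dc 0 1 0
  (.lf 1 6 160)) (.ct 0 6 1 1 1 (.dc 0 1 0 (.lf 1 6 176)) (.dc 0 1 1 (.lf 1 10 176))))))))) (.dc
  0 12 0 (.ct 0 5 1 1 1 (.dc 0 1 0 (.dc 1 14 1 (.ct 1 2 1 1 1 (.dc 1 3 0 (.dc 2 3 0 (.lf 1 8
  160))) (.ct 1 6 1 1 1 (.dc 1 3 0 (.dc 2 3 0 (.lf 1 8 176))) (.dc 1 3 1 (.ct 0 1 1 1 1 (.ct 1 5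
  1 1 1 (.dc 2 3 0 (.lf 1 8 176)) (.dc 2 3 1 (.lf 1 10 176))) (.dc 2 3 0 (.lf 1 8 176))))))))
  (.dc 1 14 0 (.ct 1 2 1 1 1 (.dc 1 3 0 (.dc 2 3 0 (.ct 0 1 1 1 1 (.dc 0 1 0 (.lf 1 7 176)) (.ct
  0 2 1 1 1 (.dc 0 1 0 (.lf 1 7 176)) (.ct 0 6 1 1 1 (.dc 0 1 0 (.lf 1 7 192)) (.dc 0 1 1 (.lf 1
  11 192))))))) (.ct 1 6 1 1 1 (.dc 1 3 0 (.dc 2 3 0 (.ct 0 1 1 1 1 (.dc 0 1 0 (.lf 1 8 176))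
  (.ct 0 2 1 1 1 (.dc 0 1 0 (.lf 1 7 176)) (.ct 0 6 1 1 1 (.dc 0 1 0 (.lf 1 7 160)) (.dc 0 1 1
  (.lf 1 11 160))))))) (.dc 1 3 1 (.ct 0 2 1 1 1 (.dc 0 1 0 (.ct 1 5 1 1 1 (.dc 2 3 0 (.lf 1 7
  192)) (.dc 2 3 1 (.lf 1 10 192)))) (.ct 0 6 1 1 1 (.dc 0 1 0 (.ct 1 5 1 1 1 (.dc 2 3 0 (.lf 1 8
  160)) (.dc 2 3 1 (.lf 1 10 160)))) (.dc 0 1 1 (.ct 1 5 1 1 1 (.dc 2 3 0 (.lf 1 11 160)) (.dc 2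
  3 1 (.lf 1 9 160))))))))))))))

theorem dt226 : le (run cls4 4 tr226 [[1, 0, 0, 0, 1, 0, 0], [1, 1, 0, 0, 0, 0, 0], [2, 2, 2,
  1, 3, 1, 1], [2, 1, 1, 1, 1, 0, 0], [1, 1, 1, 1, 2, 0, 0], [1, 1, 1, 1, 1, 1, 0], [1, 1, 1, 1,
  2, 1, 1]] 211070798524413 [103, 127, 151, 151, 127, 259, 259]) 416406904931 = true := by
  decide +kernel

/-- data -/
noncomputable def tr227 : Ct := (.dc 1 3 0 (.dc 2 3 0 (.ct 1 3 1 2 1 (.ct 0 2 1 1 1 (.dc 0 9 0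
  (.ct 3 4 2 1 1 (.lf 1 6 192) (.ct 3 6 1 1 1 (.lf 1 6 192) (.lf 0 11 192)))) (.dc 0 9 1 (.ct 3 4
  2 1 1 (.lf 1 8 192) (.ct 3 6 1 1 1 (.lf 1 8 192) (.lf 0 9 192))))) (.ct 0 2 1 1 1 (.dc 0 9 0
  (.lf 1 7 224)) (.dc 0 9 1 (.lf 1 8 208))))))

theorem dt227 : le (run cls4 4 tr227 [[2, 1, 1, 1, 1, 0, 0], [3, 3, 2, 1, 3, 1, 1], [2, 2, 2,
  1, 1, 1, 1], [1, 1, 1, 1, 0, 0, 0], [2, 2, 2, 1, 3, 1, 1], [1, 1, 1, 1, 1, 1, 0], [1, 1, 1, 1,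
  2, 1, 1]] 281440616447487 [99, 99, 99, 147, 147, 219, 219]) 4286564691155 = true := by
  decide +kernel

end Pool.Agent.Work.MP_122e00_nt.Sharp.Cx

end

section

set_option autoImplicit false

set_option maxRecDepth 100000

/-!
# The certificate: data
-/

namespace Pool.Agent.Work.MP_122e00_nt.Sharp.Cx

/-- data -/
noncomputable def tr228 : Ct := (.ct 1 6 1 1 1 (.dc 1 3 0 (.dc 2 3 0 (.ct 1 3 1 1 1 (.ct 0 2 1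
  1 1 (.dc 0 9 0 (.ct 3 4 2 1 1 (.lf 1 6 224) (.ct 3 6 1 1 1 (.lf 1 7 224) (.lf 0 11 208)))) (.dc
  0 9 1 (.ct 3 4 2 1 1 (.lf 1 8 208) (.ct 3 6 1 1 1 (.lf 1 8 208) (.lf 0 9 192))))) (.ct 0 2 1 1
  1 (.dc 0 9 0 (.lf 1 6 192)) (.dc 0 9 1 (.lf 1 9 192)))))) (.dc 1 3 1 (.ct 0 2 1 1 1 (.dc 0 9 0
  (.ct 1 5 1 1 1 (.dc 2 3 0 (.ct 3 4 2 1 1 (.lf 1 7 224) (.ct 3 6 1 1 1 (.lf 1 7 224) (.lf 0 10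
  208)))) (.dc 2 3 1 (.ct 3 4 2 1 1 (.lf 1 12 208) (.ct 3 6 1 1 1 (.lf 1 12 208) (.lf 0 11
  208)))))) (.dc 0 9 1 (.ct 1 5 1 1 1 (.dc 2 3 0 (.ct 3 4 2 1 1 (.lf 1 9 224) (.ct 3 6 1 1 1 (.lf
  1 9 224) (.lf 0 8 192)))) (.dc 2 3 1 (.ct 3 4 2 1 1 (.lf 1 11 224) (.ct 3 6 1 1 1 (.lf 1 11
  224) (.lf 0 11 192)))))))))

theorem dt228 : le (run cls4 4 tr228 [[2, 1, 1, 1, 1, 0, 0], [1, 1, 0, 0, 0, 0, 0], [2, 2, 2,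
  1, 1, 1, 1], [1, 1, 1, 1, 0, 0, 0], [3, 3, 2, 1, 3, 1, 1], [1, 1, 1, 1, 1, 1, 0], [1, 1, 1, 1,
  2, 1, 1]] 281440616447487 [99, 99, 99, 147, 147, 219, 219]) 1847069449444 = true := by
  decide +kernel

/-- data -/
noncomputable def tr229 : Ct := (.ct 0 2 1 1 1 (.dc 0 9 0 (.ct 1 4 1 1 1 (.dc 1 3 0 (.dc 2 3 0
  (.ct 2 5 1 1 1 (.lf 2 6 176) (.lf 3 7 176)))) (.ct 1 6 1 1 1 (.dc 1 3 0 (.dc 2 3 0 (.ct 2 5 1 1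
  1 (.lf 2 6 176) (.lf 3 7 176)))) (.dc 1 3 1 (.ct 1 5 1 1 1 (.dc 2 3 0 (.ct 1 2 1 1 1 (.ct 2 5 1
  1 1 (.lf 2 7 176) (.lf 3 5 176)) (.lf 2 10 176))) (.dc 2 3 1 (.ct 2 5 1 1 1 (.lf 2 12 192) (.lf
  3 11 176)))))))) (.ct 1 4 1 1 1 (.dc 1 3 0 (.dc 2 3 0 (.ct 0 3 1 1 1 (.dc 0 9 0 (.lf 1 6 192))
  (.dc 0 9 1 (.lf 1 9 176))))) (.ct 1 6 1 1 1 (.dc 1 3 0 (.dc 2 3 0 (.ct 0 3 1 1 1 (.dc 0 9 0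
  (.lf 1 6 192)) (.dc 0 9 1 (.lf 1 9 192))))) (.dc 1 3 1 (.ct 0 3 1 1 1 (.dc 0 9 0 (.ct 1 5 1 1 1
  (.dc 2 3 0 (.lf 1 9 192)) (.dc 2 3 1 (.lf 1 12 192)))) (.dc 0 9 1 (.ct 1 5 1 1 1 (.dc 2 3 0
  (.lf 1 10 192)) (.dc 2 3 1 (.lf 1 11 192)))))))))

theorem dt229 : le (run cls4 4 tr229 [[2, 1, 1, 1, 1, 0, 0], [1, 1, 0, 0, 0, 0, 0], [1, 1, 1,
  0, 1, 1, 1], [2, 2, 2, 1, 1, 1, 1], [2, 2, 2, 1, 3, 1, 1], [1, 1, 1, 1, 1, 1, 0], [1, 1, 1, 1,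
  2, 1, 1]] 281440616447487 [99, 99, 99, 147, 147, 219, 219]) 1785996109035 = true := by
  decide +kernel

end Pool.Agent.Work.MP_122e00_nt.Sharp.Cx

end

section

set_option autoImplicit false

set_option maxRecDepth 100000

/-!
# The certificate: data
-/

namespace Pool.Agent.Work.MP_122e00_nt.Sharp.Cx

/-- data -/
noncomputable def tr230 : Ct := (.dc 0 9 1 (.ct 0 5 1 1 1 (.dc 0 1 0 (.dc 1 14 1 (.ct 1 4 1 1 1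
  (.dc 1 3 0 (.dc 2 3 0 (.lf 1 9 160))) (.ct 1 6 1 1 1 (.dc 1 3 0 (.dc 2 3 0 (.lf 1 9 176))) (.dc
  1 3 1 (.ct 0 1 1 1 1 (.ct 1 5 1 1 1 (.dc 2 3 0 (.lf 1 9 176)) (.dc 2 3 1 (.lf 1 11 176))) (.dc
  2 3 0 (.lf 1 10 176)))))))) (.dc 1 14 0 (.ct 1 4 1 1 1 (.dc 1 3 0 (.dc 2 3 0 (.ct 0 1 1 1 1
  (.dc 0 1 0 (.lf 1 8 176)) (.ct 0 2 1 1 1 (.dc 0 1 0 (.lf 1 8 176)) (.ct 0 4 1 1 1 (.dc 0 1 0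
  (.lf 1 8 176)) (.ct 0 6 1 1 1 (.dc 0 1 0 (.lf 1 8 192)) (.dc 0 1 1 (.lf 1 11 192)))))))) (.ct 1
  6 1 1 1 (.dc 1 3 0 (.dc 2 3 0 (.ct 0 1 1 1 1 (.dc 0 1 0 (.lf 1 9 176)) (.ct 0 2 1 1 1 (.dc 0 1
  0 (.lf 1 8 160)) (.ct 0 4 1 1 1 (.dc 0 1 0 (.lf 1 8 176)) (.ct 0 6 1 1 1 (.dc 0 1 0 (.lf 1 8
  192)) (.dc 0 1 1 (.lf 1 11 192)))))))) (.dc 1 3 1 (.ct 0 2 1 1 1 (.dc 0 1 0 (.ct 1 5 1 1 1 (.dc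
  2 3 0 (.lf 1 9 176)) (.dc 2 3 1 (.lf 1 11 176)))) (.ct 0 4 1 1 1 (.dc 0 1 0 (.ct 1 5 1 1 1 (.dc
  2 3 0 (.lf 1 9 192)) (.dc 2 3 1 (.lf 1 11 192)))) (.ct 0 6 1 1 1 (.dc 0 1 0 (.ct 1 5 1 1 1 (.dc
  2 3 0 (.lf 1 9 192)) (.dc 2 3 1 (.lf 1 11 192)))) (.dc 0 1 1 (.ct 1 5 1 1 1 (.dc 2 3 0 (.lf 1
  12 192)) (.dc 2 3 1 (.lf 1 10 192)))))))))))))

theorem dt230 : le (run cls4 4 tr230 [[1, 0, 0, 0, 1, 0, 0], [1, 1, 0, 0, 0, 0, 0], [3, 2, 2,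
  1, 2, 1, 1], [2, 1, 1, 1, 1, 0, 0], [2, 2, 2, 1, 3, 1, 1], [1, 1, 1, 1, 1, 1, 0], [1, 1, 1, 1,
  2, 1, 1]] 281439542705661 [71, 95, 95, 143, 119, 203, 203]) 1314274948247 = true := by
  decide +kernel

/-- data -/
noncomputable def tr231 : Ct := (.dc 0 1 0 (.dc 0 9 0 (.ct 1 4 1 1 1 (.dc 1 3 0 (.dc 2 3 0 (.ct
  0 5 1 1 1 (.dc 1 14 1 (.ct 2 5 1 1 1 (.lf 2 7 160) (.lf 3 8 160))) (.dc 1 14 0 (.lf 3 7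
  160))))) (.ct 1 6 1 1 1 (.dc 1 3 0 (.dc 2 3 0 (.ct 0 5 1 1 1 (.dc 1 14 1 (.ct 2 5 1 1 1 (.lf 2
  7 176) (.lf 3 8 176))) (.dc 1 14 0 (.lf 3 8 176))))) (.dc 1 3 1 (.ct 0 5 1 1 1 (.dc 1 14 1 (.ct
  0 1 1 1 1 (.ct 1 5 1 1 1 (.dc 2 3 0 (.ct 1 2 1 1 1 (.ct 2 5 1 1 1 (.lf 2 6 192) (.lf 3 5 192))
  (.lf 2 9 192))) (.dc 2 3 1 (.ct 2 5 1 1 1 (.lf 2 12 192) (.lf 3 11 192)))) (.dc 2 3 0 (.ct 2 5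
  1 1 1 (.lf 2 7 192) (.lf 3 6 192))))) (.dc 1 14 0 (.ct 1 5 1 1 1 (.dc 2 3 0 (.lf 3 5 192)) (.dc
  2 3 1 (.lf 3 11 192))))))))))

theorem dt231 : le (run cls4 4 tr231 [[2, 1, 1, 0, 2, 1, 1], [1, 1, 0, 0, 0, 0, 0], [1, 1, 1,
  0, 1, 1, 1], [3, 2, 2, 1, 2, 1, 1], [2, 2, 2, 1, 3, 1, 1], [1, 1, 1, 1, 1, 1, 0], [1, 1, 1, 1,
  2, 1, 1]] 281439542705661 [71, 95, 95, 143, 119, 203, 203]) 1995667266792 = true := by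
  decide +kernel

end Pool.Agent.Work.MP_122e00_nt.Sharp.Cx

end

section

set_option autoImplicit false

set_option maxRecDepth 100000

/-!
# The certificate: data
-/

namespace Pool.Agent.Work.MP_122e00_nt.Sharp.Cx

/-- data -/
noncomputable def tr232 : Ct := (.dc 0 1 0 (.ct 1 4 1 1 1 (.dc 1 3 0 (.dc 2 3 0 (.ct 2 5 1 1 1
  (.dc 1 14 1 (.lf 2 6 160)) (.dc 1 14 0 (.ct 0 2 1 1 1 (.lf 3 6 176) (.lf 2 6 176)))))) (.ct 1 6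
  1 1 1 (.dc 1 3 0 (.dc 2 3 0 (.ct 2 5 1 1 1 (.dc 1 14 1 (.lf 2 6 192)) (.dc 1 14 0 (.ct 0 2 1 1
  1 (.lf 3 6 192) (.lf 2 6 192)))))) (.dc 1 3 1 (.ct 2 5 1 1 1 (.dc 1 14 1 (.ct 0 1 1 1 1 (.ct 1
  2 1 1 1 (.dc 2 3 0 (.lf 2 11 192)) (.ct 1 5 1 1 1 (.dc 2 3 0 (.lf 2 9 192)) (.dc 2 3 1 (.lf 2
  11 192)))) (.dc 2 3 0 (.lf 2 10 192)))) (.dc 1 14 0 (.ct 1 5 1 1 1 (.dc 2 3 0 (.ct 0 2 1 1 1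
  (.lf 3 8 192) (.lf 2 8 192))) (.ct 0 1 1 1 1 (.dc 2 3 1 (.ct 0 2 1 1 1 (.lf 3 12 208) (.lf 2 12
  208))) (.dc 2 3 0 (.ct 0 2 1 1 1 (.ct 1 2 1 1 1 (.lf 3 7 208) (.lf 2 9 208)) (.lf 2 9
  192)))))))))))

theorem dt232 : le (run cls4 4 tr232 [[2, 1, 1, 1, 2, 1, 0], [1, 1, 0, 0, 0, 0, 0], [2, 1, 1,
  0, 2, 1, 1], [3, 2, 2, 1, 2, 1, 1], [2, 2, 2, 1, 3, 1, 1], [1, 1, 1, 1, 1, 1, 0], [1, 1, 1, 1,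
  2, 1, 1]] 281439542706173 [75, 123, 123, 147, 123, 231, 231]) 1415830192917 = true := by
  decide +kernel

/-- data -/
noncomputable def tr233 : Ct := (.dc 1 3 0 (.dc 2 3 0 (.ct 0 1 1 1 1 (.dc 0 1 0 (.ct 2 5 1 1 1
  (.lf 2 6 176) (.lf 3 7 176))) (.ct 0 3 1 1 1 (.dc 0 1 0 (.ct 2 5 1 1 1 (.lf 2 5 176) (.lf 3 6
  176))) (.ct 0 4 1 1 1 (.dc 0 1 0 (.ct 2 5 1 1 1 (.lf 2 5 176) (.lf 3 6 176))) (.ct 0 6 1 1 1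
  (.dc 0 1 0 (.ct 2 5 1 1 1 (.lf 2 5 176) (.lf 3 6 176))) (.dc 0 1 1 (.ct 2 5 1 1 1 (.lf 2 12
  176) (.lf 3 12 176)))))))))

theorem dt233 : le (run cls4 4 tr233 [[1, 0, 0, 0, 1, 0, 0], [3, 3, 2, 1, 3, 1, 1], [2, 1, 1,
  0, 2, 1, 1], [3, 2, 2, 1, 2, 1, 1], [2, 2, 2, 1, 3, 1, 1], [2, 1, 1, 1, 2, 1, 0], [1, 1, 1, 1,
  2, 1, 1]] 281440616447997 [75, 123, 123, 147, 123, 231, 231]) 1341070879474 = true := by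
  decide +kernel

/-- data -/
noncomputable def tr234 : Ct := (.ct 1 6 1 1 1 (.dc 1 3 0 (.dc 2 3 0 (.ct 0 1 1 1 1 (.dc 0 1 0
  (.ct 2 5 1 1 1 (.lf 2 6 192) (.lf 3 6 192))) (.ct 0 3 1 1 1 (.dc 0 1 0 (.ct 2 5 1 1 1 (.lf 2 5
  176) (.lf 3 6 176))) (.ct 0 4 1 1 1 (.dc 0 1 0 (.ct 2 5 1 1 1 (.lf 2 5 176) (.lf 3 6 176)))
  (.ct 0 6 1 1 1 (.dc 0 1 0 (.ct 2 5 1 1 1 (.lf 2 6 192) (.lf 3 7 192))) (.dc 0 1 1 (.ct 2 5 1 1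
  1 (.lf 2 12 192) (.lf 3 12 192))))))))) (.dc 1 3 1 (.ct 0 3 1 1 1 (.dc 0 1 0 (.ct 1 5 1 1 1
  (.dc 2 3 0 (.ct 1 2 1 1 1 (.ct 2 5 1 1 1 (.lf 2 6 208) (.lf 3 7 208)) (.lf 2 8 192))) (.dc 2 3
  1 (.ct 2 5 1 1 1 (.lf 2 11 192) (.lf 3 12 192))))) (.ct 0 4 1 1 1 (.dc 0 1 0 (.ct 1 5 1 1 1
  (.dc 2 3 0 (.ct 1 2 1 1 1 (.ct 2 5 1 1 1 (.lf 2 6 208) (.lf 3 7 208)) (.lf 2 8 208))) (.dc 2 3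
  1 (.ct 2 5 1 1 1 (.lf 2 11 208) (.lf 3 12 208))))) (.ct 0 6 1 1 1 (.dc 0 1 0 (.ct 1 5 1 1 1
  (.dc 2 3 0 (.ct 1 2 1 1 1 (.ct 2 5 1 1 1 (.lf 2 6 208) (.lf 3 7 208)) (.lf 2 8 208))) (.dc 2 3
  1 (.ct 2 5 1 1 1 (.lf 2 11 208) (.lf 3 12 208))))) (.dc 0 1 1 (.ct 1 5 1 1 1 (.dc 2 3 0 (.ct 1
  2 1 1 1 (.ct 2 5 1 1 1 (.lf 2 13 192) (.lf 3 12 192)) (.lf 2 13 208))) (.dc 2 3 1 (.ct 2 5 1 1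
  1 (.lf 2 10 208) (.lf 3 10 192))))))))))

theorem dt234 : le (run cls4 4 tr234 [[1, 0, 0, 0, 1, 0, 0], [1, 1, 0, 0, 0, 0, 0], [2, 1, 1,
  0, 2, 1, 1], [3, 2, 2, 1, 2, 1, 1], [3, 3, 2, 1, 3, 1, 1], [2, 1, 1, 1, 2, 1, 0], [1, 1, 1, 1,
  2, 1, 1]] 281440616447997 [75, 123, 123, 147, 123, 231, 231]) 581899378643 = true := by
  decide +kernel

end Pool.Agent.Work.MP_122e00_nt.Sharp.Cx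

end

section

set_option autoImplicit false

set_option maxRecDepth 100000

/-!
# The certificate: data
-/

namespace Pool.Agent.Work.MP_122e00_nt.Sharp.Cx

/-- data -/
noncomputable def tr235 : Ct := (.dc 0 12 0 (.ct 1 6 1 1 1 (.dc 0 2 0 (.dc 0 10 0 (.ct 1 5 1 1
  1 (.ct 2 5 1 1 1 (.ct 0 6 1 1 1 (.dc 0 1 0 (.dc 0 9 0 (.ct 0 5 1 1 1 (.ct 5 6 1 1 1 (.dc 2 7 1
  (.dc 2 15 1 (.lf 3 7 160))) (.ct 3 5 1 1 1 (.dc 2 7 0 (.ct 3 5 1 1 1 (.dc 2 15 0 (.lf 3 7 160))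
  (.dc 2 15 1 (.lf 3 8 192)))) (.dc 2 7 1 (.dc 2 15 1 (.lf 3 7 176))))) (.dc 2 7 1 (.dc 2 15 1
  (.lf 3 8 160)))))) (.dc 0 9 1 (.ct 5 6 1 1 1 (.dc 2 7 1 (.dc 2 15 1 (.ct 0 3 1 1 1 (.dc 0 1 0
  (.lf 3 7 176)) (.dc 0 1 1 (.lf 3 12 176))))) (.ct 3 5 1 1 1 (.dc 2 7 0 (.ct 0 3 1 1 1 (.dc 0 1
  0 (.ct 0 5 1 1 1 (.ct 3 5 1 1 1 (.dc 2 15 0 (.lf 3 6 176)) (.dc 2 15 1 (.lf 3 10 208))) (.dc 2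
  15 1 (.lf 3 9 208)))) (.dc 0 1 1 (.ct 3 5 1 1 1 (.dc 2 15 0 (.lf 3 10 176)) (.dc 2 15 1 (.lf 3
  12 176)))))) (.dc 2 7 1 (.dc 2 15 1 (.ct 0 3 1 1 1 (.dc 0 1 0 (.lf 3 7 176)) (.ct 0 5 1 1 1
  (.dc 0 1 0 (.lf 3 7 192)) (.dc 0 1 1 (.lf 3 12 192)))))))))) (.dc 2 7 1 (.dc 2 15 1 (.ct 0 6 1
  1 1 (.dc 0 1 0 (.dc 0 9 0 (.lf 3 10 128))) (.dc 0 9 1 (.ct 0 3 1 1 1 (.dc 0 1 0 (.lf 3 11 160))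
  (.dc 0 1 1 (.lf 3 11 160)))))))) (.dc 2 7 1 (.dc 2 15 1 (.ct 0 6 1 1 1 (.dc 0 1 0 (.dc 0 9 0
  (.lf 3 10 160))) (.dc 0 9 1 (.ct 0 3 1 1 1 (.dc 0 1 0 (.lf 3 11 176)) (.dc 0 1 1 (.lf 3 12
  176)))))))))) (.dc 0 9 1 (.dc 0 10 1 (.ct 2 5 1 1 1 (.ct 5 6 1 1 1 (.dc 2 7 1 (.dc 2 15 1 (.ct
  1 3 1 1 1 (.dc 0 2 0 (.ct 0 3 1 1 1 (.dc 0 1 0 (.lf 3 8 192)) (.dc 0 1 1 (.lf 3 12 192)))) (.dc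
  0 1 1 (.dc 0 2 1 (.lf 3 10 160)))))) (.ct 1 3 1 1 1 (.dc 0 2 0 (.ct 1 5 1 1 1 (.ct 3 5 1 1 1
  (.dc 2 7 0 (.ct 1 5 1 1 1 (.ct 0 3 1 1 1 (.dc 0 1 0 (.ct 0 5 1 1 1 (.ct 3 5 1 1 1 (.dc 2 15 0
  (.lf 3 5 176)) (.dc 2 15 1 (.lf 3 10 208))) (.dc 2 15 1 (.lf 3 10 208)))) (.dc 0 1 1 (.ct 3 5 1
  1 1 (.dc 2 15 0 (.lf 3 10 176)) (.dc 2 15 1 (.lf 3 12 176))))) (.dc 2 15 1 (.ct 0 3 1 1 1 (.dc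
  0 1 0 (.lf 3 9 208)) (.dc 0 1 1 (.lf 3 12 176)))))) (.dc 2 7 1 (.dc 2 15 1 (.ct 0 3 1 1 1 (.dc
  0 1 0 (.lf 3 8 176)) (.ct 0 5 1 1 1 (.dc 0 1 0 (.lf 3 8 192)) (.dc 0 1 1 (.lf 3 12 192)))))))
  (.dc 2 7 1 (.dc 2 15 1 (.ct 0 3 1 1 1 (.dc 0 1 0 (.lf 3 8 192)) (.dc 0 1 1 (.lf 3 12 192)))))))
  (.dc 0 1 1 (.dc 0 2 1 (.ct 3 5 1 1 1 (.dc 2 7 0 (.ct 3 5 1 1 1 (.dc 2 15 0 (.lf 3 8 160)) (.dc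
  2 15 1 (.lf 3 10 176)))) (.dc 2 7 1 (.dc 2 15 1 (.lf 3 10 160)))))))) (.dc 2 7 1 (.dc 2 15 1
  (.ct 1 3 1 1 1 (.dc 0 2 0 (.ct 0 3 1 1 1 (.dc 0 1 0 (.lf 3 10 192)) (.dc 0 1 1 (.lf 3 11
  192)))) (.dc 0 1 1 (.dc 0 2 1 (.lf 3 9 160)))))))))))

theorem dt235 : le (run cls4 4 tr235 [[1, 0, 0, 0, 1, 0, 0], [1, 1, 0, 0, 2, 0, 0], [1, 1, 1,
  0, 1, 0, 0], [2, 2, 2, 1, 3, 1, 1], [1, 1, 1, 0, 3, 1, 1], [0, 0, 0, 0, 1, 1, 0], [1, 1, 1, 0,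
  1, 1, 1]] 140187732535801 [60, 60, 60, 120, 42, 150, 168]) 140197695838 = true := by
  decide +kernel

/-- data -/
noncomputable def tr236 : Ct := (.ct 1 6 1 1 1 (.dc 0 2 0 (.ct 1 5 1 1 1 (.ct 5 6 1 1 1 (.dc 2
  7 1 (.dc 2 15 1 (.ct 0 5 1 1 1 (.dc 0 1 0 (.lf 3 8 192)) (.ct 0 6 1 1 1 (.dc 0 1 0 (.lf 3 7
  192)) (.dc 0 1 1 (.lf 3 12 192)))))) (.dc 2 7 0 (.ct 1 5 1 1 1 (.ct 3 5 1 1 1 (.ct 0 6 1 1 1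
  (.dc 0 1 0 (.ct 0 5 1 1 1 (.ct 5 6 1 1 1 (.dc 2 15 1 (.lf 3 8 208)) (.dc 2 15 0 (.lf 3 5 176)))
  (.dc 2 15 1 (.lf 3 9 208)))) (.dc 0 1 1 (.ct 5 6 1 1 1 (.dc 2 15 1 (.lf 3 12 176)) (.dc 2 15 0
  (.lf 3 10 176))))) (.dc 2 15 1 (.ct 0 6 1 1 1 (.dc 0 1 0 (.lf 3 8 192)) (.dc 0 1 1 (.lf 3 12
  192))))) (.dc 2 15 1 (.ct 0 6 1 1 1 (.dc 0 1 0 (.lf 3 8 208)) (.dc 0 1 1 (.lf 3 12 208)))))))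
  (.dc 2 7 1 (.dc 2 15 1 (.ct 0 6 1 1 1 (.dc 0 1 0 (.lf 3 6 192)) (.dc 0 1 1 (.lf 3 12 192)))))))
  (.dc 0 1 1 (.dc 0 2 1 (.ct 5 6 1 1 1 (.dc 2 7 1 (.dc 2 15 1 (.lf 3 10 192))) (.dc 2 7 0 (.ct 3
  5 1 1 1 (.ct 5 6 1 1 1 (.dc 2 15 1 (.lf 3 10 176)) (.dc 2 15 0 (.lf 3 8 176))) (.dc 2 15 1 (.lf
  3 10 192))))))))

theorem dt236 : le (run cls4 4 tr236 [[1, 0, 0, 0, 1, 0, 0], [1, 1, 0, 0, 2, 0, 0], [1, 1, 1,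
  0, 2, 1, 0], [2, 2, 2, 1, 5, 1, 1], [1, 1, 1, 0, 3, 1, 1], [0, 0, 0, 0, 1, 1, 0], [2, 2, 2, 1,
  3, 1, 1]] 140187732541433 [120, 120, 120, 132, 54, 234, 252]) 29831047278 = true := by
  decide +kernel

/-- data -/
noncomputable def tr237 : Ct := (.ct 5 6 1 1 1 (.dc 2 15 1 (.ct 0 5 1 1 1 (.dc 0 1 0 (.ct 3 6 1
  1 1 (.dc 2 7 1 (.lf 2 7 208)) (.dc 2 7 0 (.lf 2 7 208)))) (.ct 0 6 1 1 1 (.dc 0 1 0 (.ct 0 3 1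
  1 1 (.ct 3 6 1 1 1 (.dc 2 7 1 (.lf 2 8 240)) (.dc 2 7 0 (.lf 2 8 240))) (.dc 2 7 1 (.lf 2 8
  224)))) (.dc 0 1 1 (.ct 3 6 1 1 1 (.dc 2 7 1 (.lf 2 13 224)) (.dc 2 7 0 (.lf 2 12 224)))))))
  (.dc 2 7 0 (.ct 1 5 1 1 1 (.ct 4 5 1 1 1 (.ct 0 6 1 1 1 (.dc 0 1 0 (.ct 0 5 1 1 1 (.ct 5 6 1 1
  1 (.dc 2 15 1 (.lf 2 9 208)) (.dc 2 15 0 (.lf 2 5 176))) (.dc 2 15 1 (.lf 2 9 208)))) (.dc 0 1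
  1 (.ct 5 6 1 1 1 (.dc 2 15 1 (.lf 2 12 176)) (.dc 2 15 0 (.lf 2 10 176))))) (.dc 2 15 1 (.ct 0
  6 1 1 1 (.dc 0 1 0 (.lf 2 8 192)) (.dc 0 1 1 (.lf 2 12 192))))) (.dc 2 15 1 (.ct 0 6 1 1 1 (.dc
  0 1 0 (.lf 2 8 208)) (.dc 0 1 1 (.lf 2 12 208)))))))

theorem dt237 : le (run cls4 4 tr237 [[1, 0, 0, 0, 1, 0, 0], [3, 3, 2, 1, 6, 2, 1], [1, 1, 1,
  0, 2, 1, 0], [1, 1, 1, 1, 3, 1, 0], [2, 2, 2, 1, 5, 1, 1], [0, 0, 0, 0, 1, 1, 0], [2, 2, 2, 1,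
  3, 1, 1]] 140187732541437 [120, 120, 120, 132, 54, 234, 252]) 218680483255 = true := by
  decide +kernel

/-- data -/
noncomputable def tr238 : Ct := (.dc 2 15 1 (.ct 1 3 1 1 1 (.ct 0 6 1 1 1 (.dc 0 1 0 (.ct 0 3 1
  1 1 (.ct 3 6 1 1 1 (.dc 2 7 1 (.lf 2 7 224)) (.dc 2 7 0 (.lf 2 9 224))) (.dc 2 7 1 (.lf 2 6
  208)))) (.dc 0 1 1 (.ct 3 6 1 1 1 (.dc 2 7 1 (.lf 2 13 208)) (.dc 2 7 0 (.lf 2 13 208))))) (.dc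
  2 7 1 (.ct 0 6 1 1 1 (.dc 0 1 0 (.lf 2 6 192)) (.dc 0 1 1 (.lf 2 13 192))))))

theorem dt238 : le (run cls4 4 tr238 [[1, 0, 0, 0, 1, 0, 0], [3, 3, 2, 1, 5, 1, 1], [1, 1, 1,
  0, 2, 1, 0], [1, 1, 1, 1, 3, 1, 0], [2, 2, 2, 1, 5, 1, 1], [3, 3, 2, 1, 6, 2, 1], [2, 2, 2, 1,
  3, 1, 1]] 140187732541437 [120, 120, 120, 132, 54, 234, 252]) 405044668669 = true := by
  decide +kernel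

end Pool.Agent.Work.MP_122e00_nt.Sharp.Cx

end

section

set_option autoImplicit false

set_option maxRecDepth 100000

/-!
# The certificate: data
-/

namespace Pool.Agent.Work.MP_122e00_nt.Sharp.Cx

/-- data -/
noncomputable def tr239 : Ct := (.dc 0 1 1 (.dc 0 2 1 (.ct 5 6 1 1 1 (.dc 2 15 1 (.ct 3 6 1 1 1
  (.dc 2 7 1 (.lf 2 11 192)) (.dc 2 7 0 (.lf 2 11 176)))) (.dc 2 7 0 (.ct 4 5 1 1 1 (.ct 5 6 1 1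
  1 (.dc 2 15 1 (.lf 2 11 176)) (.dc 2 15 0 (.lf 2 8 176))) (.dc 2 15 1 (.lf 2 11 192)))))))

theorem dt239 : le (run cls4 4 tr239 [[1, 0, 0, 0, 1, 0, 0], [1, 1, 0, 0, 2, 0, 0], [1, 1, 1,
  0, 2, 1, 0], [1, 1, 1, 1, 3, 1, 0], [2, 2, 2, 1, 5, 1, 1], [0, 0, 0, 0, 1, 1, 0], [3, 3, 2, 1,
  5, 1, 1]] 140187732541433 [120, 120, 120, 132, 54, 234, 252]) 12604902098 = true := by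
  decide +kernel

/-- data -/
noncomputable def tr240 : Ct := (.dc 2 15 1 (.ct 1 6 1 1 1 (.dc 0 2 0 (.ct 1 5 1 1 1 (.ct 2 3 1
  1 1 (.ct 0 6 1 1 1 (.dc 0 1 0 (.ct 0 5 1 1 1 (.ct 5 6 1 1 1 (.dc 2 7 1 (.lf 1 9 208)) (.dc 2 7
  0 (.lf 1 10 208))) (.dc 2 7 1 (.lf 1 9 192)))) (.dc 0 1 1 (.ct 5 6 1 1 1 (.dc 2 7 1 (.lf 1 12
  192)) (.dc 2 7 0 (.lf 1 12 192))))) (.ct 0 6 1 1 1 (.dc 0 1 0 (.ct 0 5 1 1 1 (.ct 5 6 1 1 1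
  (.dc 2 7 1 (.lf 2 8 208)) (.dc 2 7 0 (.lf 2 9 208))) (.dc 2 7 1 (.lf 2 8 192)))) (.dc 0 1 1
  (.ct 5 6 1 1 1 (.dc 2 7 1 (.lf 2 13 192)) (.dc 2 7 0 (.lf 2 13 192)))))) (.dc 2 7 1 (.ct 0 6 1
  1 1 (.dc 0 1 0 (.ct 2 3 1 1 1 (.lf 1 9 176) (.lf 2 8 176))) (.dc 0 1 1 (.ct 2 3 1 1 1 (.lf 1 12
  176) (.lf 2 13 176))))))) (.dc 0 1 1 (.dc 0 2 1 (.ct 5 6 1 1 1 (.dc 2 7 1 (.ct 2 3 1 1 1 (.lf 1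
  11 176) (.lf 2 11 176))) (.dc 2 7 0 (.ct 2 3 1 1 1 (.lf 1 11 160) (.lf 2 11 160))))))))

theorem dt240 : le (run cls4 4 tr240 [[1, 0, 0, 0, 1, 0, 0], [1, 1, 0, 0, 2, 0, 0], [1, 1, 1,
  0, 2, 1, 0], [1, 1, 1, 1, 2, 0, 0], [2, 2, 2, 1, 5, 1, 1], [1, 1, 1, 1, 3, 1, 0], [2, 2, 2, 1,
  3, 1, 1]] 140187732541433 [120, 120, 120, 132, 54, 234, 252]) 186507143446 = true := by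
  decide +kernel

/-- data -/
noncomputable def tr241 : Ct := (.dc 2 7 1 (.dc 2 15 1 (.ct 1 6 1 1 1 (.dc 0 2 0 (.ct 3 4 1 1 1
  (.ct 0 6 1 1 1 (.dc 0 1 0 (.lf 3 10 176)) (.dc 0 1 1 (.lf 3 11 176))) (.ct 0 6 1 1 1 (.dc 0 1 0
  (.ct 3 5 1 1 1 (.lf 2 10 176) (.lf 1 8 176))) (.dc 0 1 1 (.ct 3 5 1 1 1 (.lf 2 12 176) (.lf 1
  12 176)))))) (.dc 0 1 1 (.dc 0 2 1 (.ct 3 4 1 1 1 (.lf 3 9 176) (.ct 3 5 1 1 1 (.lf 2 10 176)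
  (.lf 1 10 176))))))))

theorem dt241 : le (run cls4 4 tr241 [[1, 0, 0, 0, 1, 0, 0], [1, 1, 0, 0, 2, 0, 0], [1, 1, 1,
  0, 1, 0, 0], [1, 1, 1, 1, 2, 0, 0], [1, 1, 1, 0, 3, 1, 1], [1, 1, 1, 0, 2, 1, 0], [2, 2, 2, 1,
  3, 1, 1]] 140187732541433 [120, 120, 120, 132, 54, 234, 252]) 96868265752 = true := by
  decide +kernel

end Pool.Agent.Work.MP_122e00_nt.Sharp.Cx

end
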