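import Pool.Agent.Work.MP_122e00_nt.Bd.B03

/-! Bundle of small proof modules (one section per former module). -/

section

set_option autoImplicit false

set_option maxRecDepth 100000

/-!
# The certificate: data
-/

namespace Pool.Agent.Work.MP_122e00_nt.Sharp.Cx

/-- data -/
noncomputable def tr242 : Ct := (.dc 0 1 1 (.dc 0 2 1 (.dc 0 4 1 (.dc 0 9 1 (.dc 0 10 1 (.dc 0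
  12 1 (.ct 2 4 1 2 1 (.dc 1 7 0 (.dc 2 7 0 (.ct 3 4 1 2 1 (.dc 1 15 0 (.dc 2 15 0 (.ct 3 6 1 1 1
  (.ct 4 6 2 1 1 (.dc 0 0 0 (.dc 0 8 0 (.lf 3 5 176))) (.dc 0 8 1 (.ct 3 4 1 2 1 (.dc 0 0 1 (.lf
  3 11 160)) (.dc 0 0 0 (.lf 3 4 176))))) (.dc 0 8 1 (.ct 4 6 2 1 1 (.dc 0 0 0 (.ct 3 5 1 1 1
  (.lf 2 4 192) (.lf 1 5 176))) (.dc 0 0 1 (.ct 3 5 1 1 1 (.lf 2 11 160) (.lf 1 13 176))))))))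
  (.dc 0 0 0 (.dc 1 15 1 (.ct 4 6 1 1 1 (.dc 0 8 0 (.ct 3 5 1 1 1 (.dc 2 15 0 (.ct 3 6 1 1 1 (.lf
  3 6 144) (.lf 2 6 144))) (.dc 2 15 1 (.ct 3 6 1 1 1 (.ct 5 6 1 1 1 (.lf 3 8 176) (.lf 2 9 176))
  (.lf 1 9 176))))) (.dc 0 8 1 (.ct 3 5 1 1 1 (.dc 2 15 0 (.ct 4 5 1 1 1 (.lf 2 5 176) (.lf 1 6
  160))) (.dc 2 15 1 (.lf 1 7 144)))))))))) (.dc 0 0 0 (.dc 0 8 0 (.dc 1 7 1 (.dc 1 15 1 (.ct 2 5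
  1 1 1 (.dc 2 7 0 (.ct 3 5 1 1 1 (.dc 2 15 0 (.ct 3 6 1 1 1 (.lf 3 7 144) (.lf 2 7 144))) (.dc 2
  15 1 (.ct 3 6 1 1 1 (.ct 5 6 1 1 1 (.lf 3 9 176) (.lf 2 9 176)) (.ct 2 3 1 1 1 (.lf 1 9 160)
  (.lf 2 9 160)))))) (.dc 2 7 1 (.dc 2 15 1 (.ct 3 6 1 1 1 (.lf 3 8 160) (.ct 3 5 1 1 1 (.lf 2 9
  160) (.lf 1 9 160)))))))))))))))))

theorem dt242 : le (run cls4 4 tr242 [[1, 0, 0, 0, 1, 0, 0], [1, 1, 0, 0, 2, 0, 0], [1, 1, 1,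
  0, 1, 0, 0], [1, 1, 1, 1, 2, 0, 0], [0, 0, 0, 0, 1, 0, 0], [0, 0, 0, 0, 1, 1, 0], [1, 1, 1, 0,
  3, 1, 1]] 140185576663272 [57, 57, 57, 105, 21, 147, 147]) 15375193137 = true := by
  decide +kernel

/-- data -/
noncomputable def tr243 : Ct := (.dc 0 2 0 (.dc 0 10 0 (.ct 2 5 1 1 1 (.ct 4 5 1 1 1 (.ct 0 6 1
  1 1 (.dc 0 1 0 (.dc 0 9 0 (.ct 0 5 1 1 1 (.ct 5 6 1 1 1 (.dc 2 7 1 (.dc 2 15 1 (.ct 1 3 1 1 1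
  (.dc 1 3 0 (.lf 3 7 160)) (.dc 1 3 1 (.lf 3 7 160))))) (.ct 3 5 1 1 1 (.dc 2 7 0 (.ct 1 3 1 1 1
  (.dc 1 3 0 (.ct 1 5 1 1 1 (.ct 3 5 1 1 1 (.dc 2 15 0 (.lf 3 8 160)) (.dc 2 15 1 (.lf 3 8 192)))
  (.dc 2 15 1 (.lf 3 8 192)))) (.dc 1 3 1 (.ct 3 5 1 1 1 (.dc 2 15 0 (.lf 3 6 160)) (.dc 2 15 1
  (.lf 3 7 176)))))) (.dc 2 7 1 (.dc 2 15 1 (.ct 1 3 1 1 1 (.dc 1 3 0 (.lf 3 6 192)) (.ct 1 5 1 1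
  1 (.dc 1 3 0 (.lf 3 7 208)) (.dc 1 3 1 (.lf 3 6 176)))))))) (.dc 2 7 1 (.dc 2 15 1 (.ct 1 3 1 1
  1 (.dc 1 3 0 (.lf 3 7 160)) (.dc 1 3 1 (.lf 3 7 160)))))))) (.dc 0 9 1 (.ct 5 6 1 1 1 (.dc 2 7
  1 (.dc 2 15 1 (.ct 0 3 1 1 1 (.dc 0 1 0 (.ct 0 1 1 1 1 (.ct 1 3 1 1 1 (.dc 1 3 0 (.lf 3 7 176))
  (.dc 1 3 1 (.lf 3 6 176))) (.dc 1 3 0 (.lf 3 6 192)))) (.dc 0 1 1 (.ct 1 3 1 1 1 (.dc 1 3 0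
  (.lf 3 12 192)) (.dc 1 3 1 (.lf 3 11 176))))))) (.ct 3 5 1 1 1 (.dc 2 7 0 (.ct 0 3 1 1 1 (.dc 0
  1 0 (.ct 0 1 1 1 1 (.ct 0 5 1 1 1 (.ct 1 3 1 1 1 (.dc 1 3 0 (.ct 1 5 1 1 1 (.ct 3 5 1 1 1 (.dc
  2 15 0 (.lf 3 6 192)) (.dc 2 15 1 (.lf 3 10 224))) (.dc 2 15 1 (.lf 3 10 224)))) (.dc 1 3 1
  (.ct 3 5 1 1 1 (.dc 2 15 0 (.lf 3 5 176)) (.dc 2 15 1 (.lf 3 8 192))))) (.dc 2 15 1 (.ct 1 3 1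
  1 1 (.dc 1 3 0 (.lf 3 9 224)) (.dc 1 3 1 (.lf 3 7 192))))) (.dc 1 3 0 (.ct 0 5 1 1 1 (.ct 1 5 1
  1 1 (.ct 3 5 1 1 1 (.dc 2 15 0 (.lf 3 6 208)) (.dc 2 15 1 (.lf 3 10 240))) (.dc 2 15 1 (.lf 3 9
  224))) (.dc 2 15 1 (.lf 3 8 208)))))) (.dc 0 1 1 (.ct 1 3 1 1 1 (.dc 1 3 0 (.ct 1 5 1 1 1 (.ct
  3 5 1 1 1 (.dc 2 15 0 (.lf 3 10 192)) (.dc 2 15 1 (.lf 3 12 208))) (.dc 2 15 1 (.lf 3 12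
  192)))) (.dc 1 3 1 (.ct 3 5 1 1 1 (.dc 2 15 0 (.lf 3 10 176)) (.dc 2 15 1 (.lf 3 12 176))))))))
  (.dc 2 7 1 (.dc 2 15 1 (.ct 0 3 1 1 1 (.dc 0 1 0 (.ct 0 1 1 1 1 (.ct 1 3 1 1 1 (.dc 1 3 0 (.lf
  3 7 208)) (.ct 1 5 1 1 1 (.dc 1 3 0 (.lf 3 8 208)) (.dc 1 3 1 (.lf 3 6 176)))) (.dc 1 3 0 (.lf
  3 6 192)))) (.ct 1 3 1 1 1 (.dc 1 3 0 (.ct 0 5 1 1 1 (.dc 0 1 0 (.lf 3 6 208)) (.dc 0 1 1 (.lf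
  3 12 208)))) (.ct 0 5 1 1 1 (.dc 0 1 0 (.ct 0 1 1 1 1 (.ct 1 5 1 1 1 (.dc 1 3 0 (.lf 3 8 192))
  (.dc 1 3 1 (.lf 3 6 160))) (.dc 1 3 0 (.lf 3 7 208)))) (.dc 0 1 1 (.ct 1 5 1 1 1 (.dc 1 3 0
  (.lf 3 12 176)) (.dc 1 3 1 (.lf 3 11 160))))))))))))) (.dc 2 7 1 (.dc 2 15 1 (.ct 0 6 1 1 1
  (.dc 0 1 0 (.dc 0 9 0 (.ct 1 3 1 1 1 (.dc 1 3 0 (.lf 3 6 160)) (.dc 1 3 1 (.lf 3 6 160)))))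
  (.dc 0 9 1 (.ct 0 3 1 1 1 (.dc 0 1 0 (.ct 0 1 1 1 1 (.ct 1 3 1 1 1 (.dc 1 3 0 (.lf 3 9 176))
  (.dc 1 3 1 (.lf 3 7 176))) (.dc 1 3 0 (.lf 3 7 192)))) (.dc 0 1 1 (.ct 1 3 1 1 1 (.dc 1 3 0
  (.lf 3 12 192)) (.dc 1 3 1 (.lf 3 12 176)))))))))) (.dc 2 7 1 (.dc 2 15 1 (.ct 0 6 1 1 1 (.dc 0
  1 0 (.dc 0 9 0 (.ct 1 3 1 1 1 (.dc 1 3 0 (.lf 3 9 160)) (.dc 1 3 1 (.lf 3 9 160))))) (.dc 0 9 1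
  (.ct 0 3 1 1 1 (.dc 0 1 0 (.ct 0 1 1 1 1 (.ct 1 3 1 1 1 (.dc 1 3 0 (.lf 3 11 176)) (.dc 1 3 1
  (.lf 3 11 176))) (.dc 1 3 0 (.lf 3 11 192)))) (.dc 0 1 1 (.ct 1 3 1 1 1 (.dc 1 3 0 (.lf 3 11
  192)) (.dc 1 3 1 (.lf 3 11 176))))))))))))

theorem dt243 : le (run cls4 4 tr243 [[1, 0, 0, 0, 1, 0, 0], [1, 1, 0, 0, 1, 1, 0], [1, 1, 1,
  0, 1, 0, 0], [2, 2, 2, 1, 3, 1, 1], [2, 2, 1, 0, 3, 1, 1], [0, 0, 0, 0, 1, 1, 0], [1, 1, 1, 0,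
  1, 1, 1]] 140187732015609 [62, 62, 74, 122, 56, 152, 182]) 176053420053 = true := by
  decide +kernel

end Pool.Agent.Work.MP_122e00_nt.Sharp.Cx

end

section

set_option autoImplicit false

set_option maxRecDepth 100000

/-!
# The certificate: data
-/

namespace Pool.Agent.Work.MP_122e00_nt.Sharp.Cx

/-- data -/
noncomputable def tr244 : Ct := (.dc 0 9 1 (.dc 0 10 1 (.ct 2 5 1 1 1 (.ct 5 6 1 1 1 (.dc 2 7 1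
  (.dc 2 15 1 (.ct 3 4 1 1 1 (.dc 0 1 1 (.dc 0 2 1 (.ct 1 3 1 1 1 (.dc 1 3 0 (.lf 3 10 160)) (.dc
  1 3 1 (.lf 3 10 144))))) (.dc 0 2 0 (.ct 1 4 1 1 1 (.dc 1 3 0 (.ct 0 3 1 1 1 (.dc 0 1 0 (.lf 3
  7 192)) (.dc 0 1 1 (.lf 3 12 192)))) (.ct 0 3 1 1 1 (.dc 0 1 0 (.ct 0 1 1 1 1 (.ct 1 3 1 1 1
  (.dc 1 3 0 (.lf 3 8 176)) (.dc 1 3 1 (.lf 3 6 176))) (.dc 1 3 0 (.lf 3 6 192)))) (.dc 0 1 1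
  (.ct 1 3 1 1 1 (.dc 1 3 0 (.lf 3 12 192)) (.dc 1 3 1 (.lf 3 12 160)))))))))) (.ct 3 4 1 1 1
  (.dc 0 1 1 (.dc 0 2 1 (.ct 3 5 1 1 1 (.dc 2 7 0 (.ct 1 3 1 1 1 (.dc 1 3 0 (.ct 1 5 1 1 1 (.ct 3
  5 1 1 1 (.dc 2 15 0 (.lf 3 8 160)) (.dc 2 15 1 (.lf 3 10 176))) (.dc 2 15 1 (.lf 3 10 176))))
  (.dc 1 3 1 (.ct 3 5 1 1 1 (.dc 2 15 0 (.lf 3 8 144)) (.dc 2 15 1 (.lf 3 10 176)))))) (.dc 2 7 1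
  (.dc 2 15 1 (.ct 1 3 1 1 1 (.dc 1 3 0 (.lf 3 10 176)) (.ct 1 5 1 1 1 (.dc 1 3 0 (.lf 3 10 192))
  (.dc 1 3 1 (.lf 3 10 176))))))))) (.dc 0 2 0 (.ct 4 5 1 1 1 (.ct 3 5 1 1 1 (.dc 2 7 0 (.ct 1 4
  1 1 1 (.dc 1 3 0 (.ct 1 5 1 1 1 (.ct 4 5 1 1 1 (.ct 0 3 1 1 1 (.dc 0 1 0 (.ct 0 5 1 1 1 (.ct 3
  5 1 1 1 (.dc 2 15 0 (.lf 3 5 176)) (.dc 2 15 1 (.lf 3 9 208))) (.dc 2 15 1 (.lf 3 9 208))))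
  (.dc 0 1 1 (.ct 3 5 1 1 1 (.dc 2 15 0 (.lf 3 10 176)) (.dc 2 15 1 (.lf 3 12 176))))) (.dc 2 15
  1 (.ct 0 3 1 1 1 (.dc 0 1 0 (.lf 3 8 208)) (.dc 0 1 1 (.lf 3 12 176))))) (.dc 2 15 1 (.ct 0 3 1
  1 1 (.dc 0 1 0 (.lf 3 7 208)) (.dc 0 1 1 (.lf 3 12 192)))))) (.ct 4 5 1 1 1 (.ct 0 3 1 1 1 (.dc
  0 1 0 (.ct 0 1 1 1 1 (.ct 0 5 1 1 1 (.ct 1 3 1 1 1 (.dc 1 3 0 (.ct 1 5 1 1 1 (.ct 3 5 1 1 1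
  (.dc 2 15 0 (.lf 3 6 192)) (.dc 2 15 1 (.lf 3 10 224))) (.dc 2 15 1 (.lf 3 11 224)))) (.dc 1 3
  1 (.ct 3 5 1 1 1 (.dc 2 15 0 (.lf 3 5 192)) (.dc 2 15 1 (.lf 3 9 208))))) (.dc 2 15 1 (.ct 1 3
  1 1 1 (.dc 1 3 0 (.lf 3 10 224)) (.dc 1 3 1 (.lf 3 9 208))))) (.dc 1 3 0 (.ct 0 5 1 1 1 (.ct 1
  5 1 1 1 (.ct 3 5 1 1 1 (.dc 2 15 0 (.lf 3 5 192)) (.dc 2 15 1 (.lf 3 10 208))) (.dc 2 15 1 (.lf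
  3 10 224))) (.dc 2 15 1 (.lf 3 10 208)))))) (.dc 0 1 1 (.ct 1 3 1 1 1 (.dc 1 3 0 (.ct 1 5 1 1 1
  (.ct 3 5 1 1 1 (.dc 2 15 0 (.lf 3 10 176)) (.dc 2 15 1 (.lf 3 12 192))) (.dc 2 15 1 (.lf 3 12
  192)))) (.dc 1 3 1 (.ct 3 5 1 1 1 (.dc 2 15 0 (.lf 3 10 176)) (.dc 2 15 1 (.lf 3 12 192)))))))
  (.dc 2 15 1 (.ct 0 3 1 1 1 (.dc 0 1 0 (.ct 0 1 1 1 1 (.ct 1 3 1 1 1 (.dc 1 3 0 (.lf 3 9 224))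
  (.dc 1 3 1 (.lf 3 8 208))) (.dc 1 3 0 (.lf 3 8 224)))) (.dc 0 1 1 (.ct 1 3 1 1 1 (.dc 1 3 0
  (.lf 3 12 192)) (.dc 1 3 1 (.lf 3 12 192))))))))) (.dc 2 7 1 (.dc 2 15 1 (.ct 1 4 1 1 1 (.dc 1
  3 0 (.ct 0 3 1 1 1 (.dc 0 1 0 (.lf 3 7 192)) (.ct 0 5 1 1 1 (.dc 0 1 0 (.lf 3 7 224)) (.dc 0 1
  1 (.lf 3 12 224))))) (.ct 0 3 1 1 1 (.dc 0 1 0 (.ct 0 1 1 1 1 (.ct 1 3 1 1 1 (.dc 1 3 0 (.lf 3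
  8 224)) (.ct 1 5 1 1 1 (.dc 1 3 0 (.lf 3 9 224)) (.dc 1 3 1 (.lf 3 7 192)))) (.dc 1 3 0 (.lf 3
  7 192)))) (.ct 1 3 1 1 1 (.dc 1 3 0 (.ct 0 5 1 1 1 (.dc 0 1 0 (.lf 3 7 224)) (.dc 0 1 1 (.lf 3
  12 224)))) (.ct 0 5 1 1 1 (.dc 0 1 0 (.ct 0 1 1 1 1 (.ct 1 5 1 1 1 (.dc 1 3 0 (.lf 3 9 224))
  (.dc 1 3 1 (.lf 3 7 192))) (.dc 1 3 0 (.lf 3 8 240)))) (.dc 0 1 1 (.ct 1 5 1 1 1 (.dc 1 3 0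
  (.lf 3 12 208)) (.dc 1 3 1 (.lf 3 12 192))))))))))) (.dc 2 7 1 (.dc 2 15 1 (.ct 1 4 1 1 1 (.dc
  1 3 0 (.ct 0 3 1 1 1 (.dc 0 1 0 (.lf 3 6 208)) (.dc 0 1 1 (.lf 3 12 208)))) (.ct 1 5 1 1 1 (.dc
  1 3 0 (.ct 0 3 1 1 1 (.dc 0 1 0 (.lf 3 6 224)) (.dc 0 1 1 (.lf 3 12 224)))) (.ct 0 3 1 1 1 (.dc
  0 1 0 (.ct 0 1 1 1 1 (.ct 1 3 1 1 1 (.dc 1 3 0 (.lf 3 7 208)) (.dc 1 3 1 (.lf 3 6 208))) (.dc 1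
  3 0 (.lf 3 6 224)))) (.dc 0 1 1 (.ct 1 3 1 1 1 (.dc 1 3 0 (.lf 3 12 224)) (.dc 1 3 1 (.lf 3 12
  192))))))))))))) (.dc 2 7 1 (.dc 2 15 1 (.ct 3 4 1 1 1 (.dc 0 1 1 (.dc 0 2 1 (.ct 1 3 1 1 1
  (.dc 1 3 0 (.lf 3 10 160)) (.dc 1 3 1 (.lf 3 10 144))))) (.dc 0 2 0 (.ct 1 4 1 1 1 (.dc 1 3 0
  (.ct 0 3 1 1 1 (.dc 0 1 0 (.lf 3 11 192)) (.dc 0 1 1 (.lf 3 12 192)))) (.ct 0 3 1 1 1 (.dc 0 1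
  0 (.ct 0 1 1 1 1 (.ct 1 3 1 1 1 (.dc 1 3 0 (.lf 3 12 176)) (.dc 1 3 1 (.lf 3 11 176))) (.dc 1 3
  0 (.lf 3 11 192)))) (.dc 0 1 1 (.ct 1 3 1 1 1 (.dc 1 3 0 (.lf 3 12 192)) (.dc 1 3 1 (.lf 3 12
  160)))))))))))))

theorem dt244 : le (run cls4 4 tr244 [[1, 0, 0, 0, 1, 0, 0], [1, 1, 0, 0, 1, 1, 0], [1, 1, 1,
  0, 1, 0, 0], [2, 2, 2, 1, 3, 1, 1], [1, 1, 0, 0, 2, 0, 0], [0, 0, 0, 0, 1, 1, 0], [2, 2, 1, 0,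
  3, 1, 1]] 140187732015609 [62, 62, 74, 122, 56, 152, 182]) 30475098730 = true := by
  decide +kernel

end Pool.Agent.Work.MP_122e00_nt.Sharp.Cx

end

section

set_option autoImplicit false

set_option maxRecDepth 100000

/-!
# The certificate: data
-/

namespace Pool.Agent.Work.MP_122e00_nt.Sharp.Cx

/-- data -/
noncomputable def tr245 : Ct := (.dc 0 2 0 (.ct 4 5 1 1 1 (.ct 5 6 1 1 1 (.dc 2 15 1 (.ct 0 5 1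
  1 1 (.dc 0 1 0 (.ct 3 6 1 1 1 (.dc 2 7 1 (.lf 2 9 208)) (.dc 2 7 0 (.lf 2 7 208)))) (.ct 0 6 1
  1 1 (.dc 0 1 0 (.ct 0 3 1 1 1 (.ct 3 6 1 1 1 (.dc 2 7 1 (.lf 2 9 208)) (.dc 2 7 0 (.lf 2 7
  208))) (.dc 2 7 1 (.lf 2 9 240)))) (.dc 0 1 1 (.ct 3 6 1 1 1 (.dc 2 7 1 (.lf 2 12 240)) (.dc 2
  7 0 (.lf 2 12 208))))))) (.dc 2 7 0 (.ct 1 5 1 1 1 (.ct 4 5 1 1 1 (.ct 0 6 1 1 1 (.dc 0 1 0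
  (.ct 0 5 1 1 1 (.ct 5 6 1 1 1 (.dc 2 15 1 (.lf 2 8 208)) (.dc 2 15 0 (.lf 2 5 176))) (.dc 2 15
  1 (.lf 2 9 208)))) (.dc 0 1 1 (.ct 5 6 1 1 1 (.dc 2 15 1 (.lf 2 12 176)) (.dc 2 15 0 (.lf 2 10
  176))))) (.dc 2 15 1 (.ct 0 6 1 1 1 (.dc 0 1 0 (.lf 2 8 208)) (.dc 0 1 1 (.lf 2 12 176)))))
  (.dc 2 15 1 (.ct 0 6 1 1 1 (.dc 0 1 0 (.lf 2 7 208)) (.dc 0 1 1 (.lf 2 12 176))))))) (.dc 2 15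
  1 (.ct 3 4 1 1 1 (.dc 2 7 1 (.ct 0 6 1 1 1 (.dc 0 1 0 (.lf 2 7 208)) (.dc 0 1 1 (.lf 2 13
  208)))) (.ct 0 6 1 1 1 (.dc 0 1 0 (.ct 0 3 1 1 1 (.ct 3 6 1 1 1 (.dc 2 7 1 (.lf 2 8 208)) (.dc
  2 7 0 (.lf 2 8 208))) (.dc 2 7 1 (.lf 2 8 224)))) (.dc 0 1 1 (.ct 3 6 1 1 1 (.dc 2 7 1 (.lf 2
  13 224)) (.dc 2 7 0 (.lf 2 13 208)))))))))

theorem dt245 : le (run cls4 4 tr245 [[1, 0, 0, 0, 1, 0, 0], [2, 2, 1, 1, 3, 1, 0], [1, 1, 1,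
  0, 2, 1, 0], [1, 1, 1, 1, 3, 1, 0], [3, 3, 2, 1, 5, 1, 1], [0, 0, 0, 0, 1, 1, 0], [2, 2, 2, 1,
  3, 1, 1]] 140187732541433 [122, 122, 134, 134, 68, 236, 266]) 178437460020 = true := by
  decide +kernel

/-- data -/
noncomputable def tr246 : Ct := (.dc 0 1 1 (.dc 0 2 1 (.ct 5 6 1 1 1 (.dc 2 15 1 (.ct 3 6 1 1 1
  (.dc 2 7 1 (.lf 2 11 176)) (.dc 2 7 0 (.lf 2 11 176)))) (.dc 2 7 0 (.ct 1 5 1 1 1 (.ct 5 6 1 1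
  1 (.dc 2 15 1 (.lf 2 11 176)) (.dc 2 15 0 (.lf 2 8 160))) (.dc 2 15 1 (.lf 2 11 176)))))))

theorem dt246 : le (run cls4 4 tr246 [[1, 0, 0, 0, 1, 0, 0], [2, 2, 1, 1, 3, 1, 0], [1, 1, 1,
  0, 2, 1, 0], [1, 1, 1, 1, 3, 1, 0], [1, 1, 0, 0, 2, 0, 0], [0, 0, 0, 0, 1, 1, 0], [3, 3, 2, 1,
  5, 1, 1]] 140187732541433 [122, 122, 134, 134, 68, 236, 266]) 5737555117 = true := by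
  decide +kernel

end Pool.Agent.Work.MP_122e00_nt.Sharp.Cx

end

section

set_option autoImplicit false

set_option maxRecDepth 100000

/-!
# The certificate: data
-/

namespace Pool.Agent.Work.MP_122e00_nt.Sharp.Cx

/-- data -/
noncomputable def tr247 : Ct := (.dc 2 15 1 (.ct 4 6 1 1 1 (.dc 0 2 0 (.ct 4 5 1 1 1 (.ct 2 3 1
  1 1 (.ct 0 6 1 1 1 (.dc 0 1 0 (.ct 0 5 1 1 1 (.ct 5 6 1 1 1 (.dc 2 7 1 (.lf 1 9 192)) (.dc 2 7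
  0 (.lf 1 10 192))) (.dc 2 7 1 (.lf 1 9 208)))) (.dc 0 1 1 (.ct 5 6 1 1 1 (.dc 2 7 1 (.lf 1 12
  208)) (.dc 2 7 0 (.lf 1 12 192))))) (.ct 0 6 1 1 1 (.dc 0 1 0 (.ct 0 5 1 1 1 (.ct 5 6 1 1 1
  (.dc 2 7 1 (.lf 2 8 192)) (.dc 2 7 0 (.lf 2 8 192))) (.dc 2 7 1 (.lf 2 8 208)))) (.dc 0 1 1
  (.ct 5 6 1 1 1 (.dc 2 7 1 (.lf 2 13 208)) (.dc 2 7 0 (.lf 2 13 192)))))) (.dc 2 7 1 (.ct 0 6 1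
  1 1 (.dc 0 1 0 (.ct 2 3 1 1 1 (.lf 1 9 192) (.lf 2 7 192))) (.dc 0 1 1 (.ct 2 3 1 1 1 (.lf 1 12
  192) (.lf 2 13 192))))))) (.dc 0 1 1 (.dc 0 2 1 (.ct 5 6 1 1 1 (.dc 2 7 1 (.ct 2 3 1 1 1 (.lf 1
  11 160) (.lf 2 11 176))) (.dc 2 7 0 (.ct 2 3 1 1 1 (.lf 1 11 160) (.lf 2 11 160))))))))

theorem dt247 : le (run cls4 4 tr247 [[1, 0, 0, 0, 1, 0, 0], [2, 2, 1, 1, 3, 1, 0], [1, 1, 1,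
  0, 2, 1, 0], [1, 1, 1, 1, 2, 0, 0], [1, 1, 0, 0, 2, 0, 0], [1, 1, 1, 1, 3, 1, 0], [2, 2, 2, 1,
  3, 1, 1]] 140187732541433 [122, 122, 134, 134, 68, 236, 266]) 126353041668 = true := by
  decide +kernel

/-- data -/
noncomputable def tr248 : Ct := (.dc 2 7 1 (.dc 2 15 1 (.ct 4 6 1 1 1 (.dc 0 2 0 (.ct 0 6 1 1 1
  (.dc 0 1 0 (.ct 3 5 1 1 1 (.lf 2 9 192) (.lf 1 8 192))) (.dc 0 1 1 (.ct 3 5 1 1 1 (.lf 2 12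
  192) (.lf 1 11 192))))) (.dc 0 1 1 (.dc 0 2 1 (.ct 3 5 1 1 1 (.lf 2 10 176) (.lf 1 10 160)))))))

theorem dt248 : le (run cls4 4 tr248 [[1, 0, 0, 0, 1, 0, 0], [2, 2, 1, 1, 3, 1, 0], [1, 1, 1,
  0, 1, 0, 0], [1, 1, 1, 1, 2, 0, 0], [1, 1, 0, 0, 2, 0, 0], [1, 1, 1, 0, 2, 1, 0], [2, 2, 2, 1,
  3, 1, 1]] 140187732541433 [122, 122, 134, 134, 68, 236, 266]) 88291276056 = true := by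
  decide +kernel

/-- data -/
noncomputable def tr249 : Ct := (.dc 2 7 1 (.dc 2 15 1 (.ct 1 4 1 1 1 (.dc 1 3 0 (.ct 0 5 1 1 1
  (.dc 0 1 0 (.lf 2 9 240)) (.ct 0 6 1 1 1 (.dc 0 1 0 (.lf 2 10 240)) (.dc 0 1 1 (.lf 2 12
  240))))) (.ct 0 5 1 1 1 (.dc 0 1 0 (.ct 0 1 1 1 1 (.ct 1 5 1 1 1 (.dc 1 3 0 (.lf 2 10 224))
  (.ct 1 6 1 1 1 (.dc 1 3 0 (.lf 2 10 208)) (.dc 1 3 1 (.lf 2 9 208)))) (.dc 1 3 0 (.lf 2 9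
  224)))) (.ct 1 5 1 1 1 (.dc 1 3 0 (.ct 0 6 1 1 1 (.dc 0 1 0 (.lf 2 10 224)) (.dc 0 1 1 (.lf 2
  13 224)))) (.ct 0 6 1 1 1 (.dc 0 1 0 (.ct 0 1 1 1 1 (.ct 1 6 1 1 1 (.dc 1 3 0 (.lf 2 11 208))
  (.dc 1 3 1 (.lf 2 10 208))) (.dc 1 3 0 (.lf 2 10 224)))) (.dc 0 1 1 (.ct 1 6 1 1 1 (.dc 1 3 0
  (.lf 2 12 224)) (.dc 1 3 1 (.lf 2 12 192))))))))))

theorem dt249 : le (run cls4 4 tr249 [[1, 0, 0, 0, 1, 0, 0], [1, 1, 0, 0, 1, 1, 0], [1, 1, 1,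
  0, 2, 1, 0], [2, 2, 1, 1, 3, 1, 0], [3, 3, 2, 1, 6, 2, 1], [2, 2, 2, 1, 4, 2, 1], [2, 2, 2, 1,
  3, 1, 1]] 140187732017149 [94, 94, 130, 130, 64, 208, 238]) 310755084026 = true := by
  decide +kernel

end Pool.Agent.Work.MP_122e00_nt.Sharp.Cx

end

section

set_option autoImplicit false

set_option maxRecDepth 100000

/-!
# The certificate: data
-/

namespace Pool.Agent.Work.MP_122e00_nt.Sharp.Cx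

/-- data -/
noncomputable def tr250 : Ct := (.dc 1 3 0 (.ct 1 5 1 1 1 (.ct 4 5 1 1 1 (.ct 0 6 1 1 1 (.dc 0
  1 0 (.ct 0 5 1 1 1 (.ct 5 6 1 1 1 (.dc 2 15 1 (.lf 2 8 208)) (.dc 2 15 0 (.lf 2 4 176))) (.dc 2
  15 1 (.lf 2 8 208)))) (.dc 0 1 1 (.ct 5 6 1 1 1 (.dc 2 15 1 (.lf 2 12 176)) (.dc 2 15 0 (.lf 2
  10 176))))) (.dc 2 15 1 (.ct 0 6 1 1 1 (.dc 0 1 0 (.lf 2 6 208)) (.dc 0 1 1 (.lf 2 13 176)))))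
  (.dc 2 15 1 (.ct 0 6 1 1 1 (.dc 0 1 0 (.lf 2 6 224)) (.dc 0 1 1 (.lf 2 13 192))))))

theorem dt250 : le (run cls4 4 tr250 [[1, 0, 0, 0, 1, 0, 0], [4, 4, 2, 1, 7, 3, 1], [1, 1, 1,
  0, 2, 1, 0], [2, 2, 1, 1, 4, 2, 0], [3, 3, 2, 1, 6, 2, 1], [0, 0, 0, 0, 1, 1, 0], [2, 2, 2, 1,
  4, 2, 1]] 140737487831037 [94, 94, 130, 130, 64, 208, 238]) 154504754234 = true := by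
  decide +kernel

/-- data -/
noncomputable def tr251 : Ct := (.ct 4 5 1 1 1 (.ct 0 6 1 1 1 (.dc 0 1 0 (.ct 0 1 1 1 1 (.ct 0
  5 1 1 1 (.ct 1 6 1 1 1 (.dc 1 3 0 (.ct 1 5 1 1 1 (.ct 5 6 1 1 1 (.dc 2 15 1 (.lf 2 9 224)) (.dc
  2 15 0 (.lf 2 5 192))) (.dc 2 15 1 (.lf 2 9 224)))) (.dc 1 3 1 (.ct 5 6 1 1 1 (.dc 2 15 1 (.lf
  2 7 208)) (.dc 2 15 0 (.lf 2 4 192))))) (.dc 2 15 1 (.ct 1 6 1 1 1 (.dc 1 3 0 (.lf 2 9 224))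
  (.dc 1 3 1 (.lf 2 7 208))))) (.dc 1 3 0 (.ct 0 5 1 1 1 (.ct 1 5 1 1 1 (.ct 5 6 1 1 1 (.dc 2 15
  1 (.lf 2 8 224)) (.dc 2 15 0 (.lf 2 5 192))) (.dc 2 15 1 (.lf 2 8 224))) (.dc 2 15 1 (.lf 2 8
  208)))))) (.dc 0 1 1 (.ct 1 6 1 1 1 (.dc 1 3 0 (.ct 1 5 1 1 1 (.ct 5 6 1 1 1 (.dc 2 15 1 (.lf 2
  13 192)) (.dc 2 15 0 (.lf 2 10 176))) (.dc 2 15 1 (.lf 2 13 192)))) (.dc 1 3 1 (.ct 5 6 1 1 1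
  (.dc 2 15 1 (.lf 2 12 192)) (.dc 2 15 0 (.lf 2 10 176))))))) (.dc 2 15 1 (.ct 0 6 1 1 1 (.dc 0
  1 0 (.ct 0 1 1 1 1 (.ct 1 6 1 1 1 (.dc 1 3 0 (.lf 2 8 224)) (.dc 1 3 1 (.lf 2 6 208))) (.dc 1 3
  0 (.lf 2 7 224)))) (.dc 0 1 1 (.ct 1 6 1 1 1 (.dc 1 3 0 (.lf 2 13 192)) (.dc 1 3 1 (.lf 2 12
  192)))))))

theorem dt251 : le (run cls4 4 tr251 [[1, 0, 0, 0, 1, 0, 0], [1, 1, 0, 0, 1, 1, 0], [1, 1, 1,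
  0, 2, 1, 0], [2, 2, 1, 1, 4, 2, 0], [4, 4, 2, 1, 7, 3, 1], [0, 0, 0, 0, 1, 1, 0], [2, 2, 2, 1,
  4, 2, 1]] 140737487831037 [94, 94, 130, 130, 64, 208, 238]) 68191138727 = true := by
  decide +kernel

/-- data -/
noncomputable def tr252 : Ct := (.dc 2 15 1 (.ct 1 4 1 1 1 (.dc 1 3 0 (.ct 0 6 1 1 1 (.dc 0 1 0
  (.lf 2 8 240)) (.dc 0 1 1 (.lf 2 12 208)))) (.ct 0 6 1 1 1 (.dc 0 1 0 (.ct 0 1 1 1 1 (.ct 1 6 1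
  1 1 (.dc 1 3 0 (.lf 2 9 224)) (.dc 1 3 1 (.lf 2 8 192))) (.dc 1 3 0 (.lf 2 8 224)))) (.dc 0 1 1
  (.ct 1 6 1 1 1 (.dc 1 3 0 (.lf 2 12 192)) (.dc 1 3 1 (.lf 2 12 176)))))))

theorem dt252 : le (run cls4 4 tr252 [[1, 0, 0, 0, 1, 0, 0], [1, 1, 0, 0, 1, 1, 0], [1, 1, 1,
  0, 2, 1, 0], [2, 2, 1, 1, 3, 1, 0], [3, 3, 2, 1, 6, 2, 1], [2, 2, 1, 1, 4, 2, 0], [2, 2, 2, 1,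
  4, 2, 1]] 140737487831037 [94, 94, 130, 130, 64, 208, 238]) 243236115827 = true := by
  decide +kernel

end Pool.Agent.Work.MP_122e00_nt.Sharp.Cx

end

section

set_option autoImplicit false

set_option maxRecDepth 100000

/-!
# The certificate: data
-/

namespace Pool.Agent.Work.MP_122e00_nt.Sharp.Cx

/-- data -/
noncomputable def tr253 : Ct := (.dc 2 7 1 (.dc 2 15 1 (.ct 1 4 1 1 1 (.dc 1 3 0 (.ct 0 6 1 1 1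
  (.dc 0 1 0 (.lf 2 8 208)) (.dc 0 1 1 (.lf 2 13 208)))) (.ct 1 5 1 1 1 (.dc 1 3 0 (.ct 0 6 1 1 1
  (.dc 0 1 0 (.lf 2 9 224)) (.dc 0 1 1 (.lf 2 13 224)))) (.ct 0 6 1 1 1 (.dc 0 1 0 (.ct 0 1 1 1 1
  (.ct 1 6 1 1 1 (.dc 1 3 0 (.lf 2 10 208)) (.dc 1 3 1 (.lf 2 8 208))) (.dc 1 3 0 (.lf 2 9
  224)))) (.dc 0 1 1 (.ct 1 6 1 1 1 (.dc 1 3 0 (.lf 2 13 224)) (.dc 1 3 1 (.lf 2 13 192)))))))))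

theorem dt253 : le (run cls4 4 tr253 [[1, 0, 0, 0, 1, 0, 0], [1, 1, 0, 0, 1, 1, 0], [1, 1, 1,
  0, 2, 1, 0], [2, 2, 1, 1, 3, 1, 0], [3, 3, 2, 1, 5, 1, 1], [3, 3, 2, 1, 6, 2, 1], [2, 2, 2, 1,
  3, 1, 1]] 140187732017149 [94, 94, 130, 130, 64, 208, 238]) 280019378896 = true := by
  decide +kernel

/-- data -/
noncomputable def tr254 : Ct := (.dc 0 1 1 (.dc 0 2 1 (.ct 5 6 1 1 1 (.dc 2 7 1 (.dc 2 15 1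
  (.ct 1 5 1 1 1 (.dc 1 3 0 (.lf 2 11 208)) (.ct 1 6 1 1 1 (.dc 1 3 0 (.lf 2 11 192)) (.dc 1 3 1
  (.lf 2 11 176)))))) (.dc 2 7 0 (.ct 3 5 1 1 1 (.ct 1 6 1 1 1 (.dc 1 3 0 (.ct 1 5 1 1 1 (.ct 5 6
  1 1 1 (.dc 2 15 1 (.lf 2 11 176)) (.dc 2 15 0 (.lf 2 8 160))) (.dc 2 15 1 (.lf 2 11 176))))
  (.dc 1 3 1 (.ct 5 6 1 1 1 (.dc 2 15 1 (.lf 2 11 176)) (.dc 2 15 0 (.lf 2 8 144))))) (.dc 2 15 1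
  (.ct 1 6 1 1 1 (.dc 1 3 0 (.lf 2 11 192)) (.dc 1 3 1 (.lf 2 11 176)))))))))

theorem dt254 : le (run cls4 4 tr254 [[1, 0, 0, 0, 1, 0, 0], [1, 1, 0, 0, 1, 1, 0], [1, 1, 1,
  0, 2, 1, 0], [2, 2, 1, 1, 3, 1, 0], [1, 1, 0, 0, 2, 0, 0], [0, 0, 0, 0, 1, 1, 0], [3, 3, 2, 1,
  5, 1, 1]] 140187732017145 [94, 94, 130, 130, 64, 208, 238]) 6542181240 = true := by
  decide +kernel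

/-- data -/
noncomputable def tr255 : Ct := (.dc 2 7 1 (.dc 2 15 1 (.ct 4 6 1 1 1 (.dc 0 2 0 (.ct 1 4 1 1 1
  (.dc 1 3 0 (.ct 0 6 1 1 1 (.dc 0 1 0 (.lf 2 10 192)) (.dc 0 1 1 (.lf 2 12 192)))) (.ct 0 6 1 1
  1 (.dc 0 1 0 (.ct 0 1 1 1 1 (.ct 1 6 1 1 1 (.dc 1 3 0 (.lf 2 11 176)) (.dc 1 3 1 (.lf 2 10
  176))) (.dc 1 3 0 (.lf 2 10 192)))) (.dc 0 1 1 (.ct 1 6 1 1 1 (.dc 1 3 0 (.lf 2 12 192)) (.dc 1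
  3 1 (.lf 2 12 160))))))) (.dc 0 1 1 (.dc 0 2 1 (.ct 1 6 1 1 1 (.dc 1 3 0 (.lf 2 11 176)) (.dc 1
  3 1 (.lf 2 10 144))))))))

theorem dt255 : le (run cls4 4 tr255 [[1, 0, 0, 0, 1, 0, 0], [1, 1, 0, 0, 1, 1, 0], [1, 1, 1,
  0, 1, 0, 0], [2, 2, 1, 1, 3, 1, 0], [1, 1, 0, 0, 2, 0, 0], [1, 1, 1, 0, 2, 1, 0], [2, 2, 2, 1,
  3, 1, 1]] 140187732017145 [94, 94, 130, 130, 64, 208, 238]) 78105921667 = true := by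
  decide +kernel

/-- data -/
noncomputable def tr256 : Ct := (.dc 0 12 0 (.ct 4 6 1 1 1 (.dc 0 2 0 (.dc 0 10 0 (.ct 0 6 1 1
  1 (.dc 0 1 0 (.dc 0 9 0 (.ct 1 3 1 1 1 (.dc 2 3 0 (.ct 3 5 1 1 1 (.dc 1 3 1 (.lf 3 9 192)) (.dc
  1 3 0 (.lf 3 9 192)))) (.dc 1 3 1 (.dc 2 3 1 (.lf 3 10 176)))))) (.dc 0 9 1 (.ct 1 3 1 1 1 (.dc
  2 3 0 (.ct 0 1 1 1 1 (.dc 0 1 0 (.ct 3 5 1 1 1 (.dc 1 3 1 (.lf 3 10 176)) (.dc 1 3 0 (.lf 3 11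
  192)))) (.ct 0 3 1 1 1 (.dc 0 1 0 (.ct 0 5 1 1 1 (.ct 3 5 1 1 1 (.dc 1 3 1 (.lf 3 10 176)) (.dc
  1 3 0 (.lf 3 11 176))) (.dc 1 3 0 (.lf 3 10 208)))) (.dc 0 1 1 (.ct 3 5 1 1 1 (.dc 1 3 1 (.lf 3
  11 176)) (.dc 1 3 0 (.lf 3 11 208))))))) (.dc 1 3 1 (.dc 2 3 1 (.ct 0 3 1 1 1 (.dc 0 1 0 (.lf 3
  10 176)) (.dc 0 1 1 (.lf 3 9 160)))))))))) (.dc 0 9 1 (.dc 0 10 1 (.ct 3 4 1 1 1 (.dc 0 1 1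
  (.dc 0 2 1 (.ct 1 3 1 1 1 (.dc 2 3 0 (.ct 3 5 1 1 1 (.dc 1 3 1 (.lf 3 10 160)) (.dc 1 3 0 (.lf
  3 10 176)))) (.dc 1 3 1 (.dc 2 3 1 (.lf 3 7 160)))))) (.dc 0 2 0 (.ct 1 4 1 1 1 (.dc 2 3 0 (.ct
  4 5 1 1 1 (.ct 0 3 1 1 1 (.dc 0 1 0 (.ct 0 5 1 1 1 (.ct 3 5 1 1 1 (.dc 1 3 1 (.lf 3 10 176))
  (.dc 1 3 0 (.lf 3 11 176))) (.dc 1 3 0 (.lf 3 11 192)))) (.dc 0 1 1 (.ct 3 5 1 1 1 (.dc 1 3 1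
  (.lf 3 12 160)) (.dc 1 3 0 (.lf 3 12 192))))) (.dc 1 3 0 (.ct 0 3 1 1 1 (.dc 0 1 0 (.lf 3 10
  208)) (.dc 0 1 1 (.lf 3 12 208)))))) (.ct 1 3 1 1 1 (.dc 2 3 0 (.ct 0 1 1 1 1 (.dc 0 1 0 (.ct 3
  5 1 1 1 (.dc 1 3 1 (.lf 3 10 208)) (.dc 1 3 0 (.lf 3 11 208)))) (.ct 0 3 1 1 1 (.dc 0 1 0 (.ct
  0 5 1 1 1 (.ct 3 5 1 1 1 (.dc 1 3 1 (.lf 3 10 176)) (.dc 1 3 0 (.lf 3 11 176))) (.dc 1 3 0 (.lf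
  3 11 208)))) (.dc 0 1 1 (.ct 3 5 1 1 1 (.dc 1 3 1 (.lf 3 12 176)) (.dc 1 3 0 (.lf 3 12
  208))))))) (.dc 1 3 1 (.dc 2 3 1 (.ct 0 3 1 1 1 (.dc 0 1 0 (.lf 3 11 208)) (.dc 0 1 1 (.lf 3 9
  176)))))))))))))

theorem dt256 : le (run cls4 4 tr256 [[1, 0, 0, 0, 1, 0, 0], [1, 1, 0, 0, 0, 0, 0], [1, 1, 1,
  0, 1, 0, 0], [2, 2, 2, 1, 3, 1, 1], [1, 1, 0, 0, 2, 0, 0], [1, 1, 0, 0, 1, 1, 0], [1, 1, 1, 0,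
  1, 1, 1]] 281440616442361 [67, 67, 91, 139, 91, 187, 187]) 145325631628 = true := by
  decide +kernel

end Pool.Agent.Work.MP_122e00_nt.Sharp.Cx

end
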