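import Pool.Agent.Work.MP_122e00_nt.Bd.B03

/-! Bundle of small proof modules (one section per former module). -/

section

set_option autoImplicit false

set_option maxRecDepth 100000

/-!
# The certificate: data
-/

namespace Pool.Agent.Work.MP_122e00_nt.Sharp.Cx

/-- data -/
noncomputable def tr257 : Ct := (.dc 0 1 0 (.ct 0 5 1 1 1 (.ct 0 1 1 1 1 (.ct 4 5 1 1 1 (.ct 1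
  4 1 1 1 (.ct 5 6 1 1 1 (.dc 1 3 0 (.lf 2 10 224)) (.dc 1 3 1 (.lf 2 9 208))) (.ct 5 6 1 1 1
  (.dc 1 3 0 (.ct 1 5 1 1 1 (.lf 2 10 224) (.lf 1 8 208))) (.dc 1 3 1 (.ct 1 5 1 1 1 (.lf 2 8
  224) (.ct 1 6 1 1 1 (.lf 2 8 224) (.lf 1 9 208)))))) (.dc 1 3 0 (.ct 1 5 1 1 1 (.lf 2 9 224)
  (.lf 1 8 224)))) (.ct 4 5 1 1 1 (.ct 5 6 1 1 1 (.dc 1 3 0 (.lf 2 10 208)) (.dc 1 3 1 (.lf 2 10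
  208))) (.dc 1 3 0 (.lf 2 10 208)))) (.dc 1 3 0 (.ct 1 5 1 1 1 (.lf 2 10 240) (.lf 1 8 224)))))

theorem dt257 : le (run cls4 4 tr257 [[3, 2, 2, 1, 4, 1, 1], [2, 2, 1, 1, 2, 0, 0], [1, 1, 1,
  0, 1, 0, 0], [2, 2, 1, 1, 3, 1, 0], [3, 3, 2, 1, 5, 1, 1], [1, 1, 0, 0, 1, 1, 0], [2, 2, 2, 1,
  3, 1, 1]] 281474976186365 [99, 99, 147, 147, 99, 243, 243]) 1421552144355 = true := by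
  decide +kernel

/-- data -/
noncomputable def tr258 : Ct := (.dc 0 1 1 (.ct 4 5 1 1 1 (.ct 1 4 1 1 1 (.ct 5 6 1 1 1 (.dc 1
  3 0 (.lf 2 12 192)) (.dc 1 3 1 (.lf 2 12 192))) (.ct 5 6 1 1 1 (.dc 1 3 0 (.ct 1 5 1 1 1 (.lf 2
  12 224) (.lf 1 12 208))) (.dc 1 3 1 (.ct 1 5 1 1 1 (.lf 2 12 192) (.ct 1 6 1 1 1 (.lf 2 12 224)
  (.lf 1 12 208)))))) (.dc 1 3 0 (.ct 1 5 1 1 1 (.lf 2 12 176) (.lf 1 12 176)))))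

theorem dt258 : le (run cls4 4 tr258 [[1, 0, 0, 0, 1, 0, 0], [2, 2, 1, 1, 2, 0, 0], [1, 1, 1,
  0, 1, 0, 0], [2, 2, 1, 1, 3, 1, 0], [3, 3, 2, 1, 5, 1, 1], [1, 1, 0, 0, 1, 1, 0], [3, 2, 2, 1,
  4, 1, 1]] 281474976186365 [99, 99, 147, 147, 99, 243, 243]) 196084592391 = true := by
  decide +kernel

/-- data -/
noncomputable def tr259 : Ct := (.dc 0 1 1 (.dc 0 2 1 (.ct 5 6 1 1 1 (.dc 1 3 0 (.ct 1 5 1 1 1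
  (.lf 2 11 176) (.lf 1 10 176))) (.dc 1 3 1 (.ct 1 5 1 1 1 (.lf 2 10 144) (.ct 1 6 1 1 1 (.lf 2
  10 176) (.lf 1 11 176)))))))

theorem dt259 : le (run cls4 4 tr259 [[1, 0, 0, 0, 1, 0, 0], [2, 2, 1, 1, 2, 0, 0], [1, 1, 1,
  0, 1, 0, 0], [2, 2, 1, 1, 3, 1, 0], [1, 1, 0, 0, 2, 0, 0], [1, 1, 0, 0, 1, 1, 0], [3, 3, 2, 1,
  5, 1, 1]] 281474976186361 [99, 99, 147, 147, 99, 243, 243]) 15139454934 = true := by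
  decide +kernel

/-- data -/
noncomputable def tr260 : Ct := (.dc 0 12 1 (.dc 1 3 0 (.ct 4 6 1 1 1 (.dc 0 2 0 (.ct 0 6 1 1 1
  (.dc 0 1 0 (.lf 1 7 192)) (.dc 0 1 1 (.lf 1 11 192)))) (.dc 0 1 1 (.dc 0 2 1 (.lf 1 10 160))))))

theorem dt260 : le (run cls4 4 tr260 [[1, 0, 0, 0, 1, 0, 0], [2, 2, 1, 1, 2, 0, 0], [1, 1, 1,
  0, 1, 0, 0], [1, 1, 1, 1, 2, 0, 0], [1, 1, 0, 0, 2, 0, 0], [2, 2, 1, 1, 3, 1, 0], [2, 2, 2, 1,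
  3, 1, 1]] 281474976182265 [99, 99, 147, 147, 99, 243, 243]) 85770937561 = true := by
  decide +kernel

end Pool.Agent.Work.MP_122e00_nt.Sharp.Cx

end

section

set_option autoImplicit false

set_option maxRecDepth 100000

/-!
# The certificate: data
-/

namespace Pool.Agent.Work.MP_122e00_nt.Sharp.Cx

/-- data -/
noncomputable def tr261 : Ct := (.dc 0 1 0 (.ct 0 5 1 1 1 (.ct 0 3 1 1 1 (.ct 4 5 1 1 1 (.ct 3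
  4 1 1 1 (.ct 5 6 1 1 1 (.dc 1 3 0 (.lf 2 10 240)) (.dc 1 3 1 (.lf 2 9 240))) (.ct 5 6 1 1 1
  (.dc 1 3 0 (.ct 3 5 1 1 1 (.lf 2 10 224) (.lf 1 8 208))) (.dc 1 3 1 (.ct 3 5 1 1 1 (.lf 2 8
  224) (.ct 3 6 1 1 1 (.lf 2 8 224) (.lf 1 9 208)))))) (.dc 1 3 0 (.ct 3 5 1 1 1 (.lf 2 9 240)
  (.lf 1 8 224)))) (.ct 4 5 1 1 1 (.ct 5 6 1 1 1 (.dc 1 3 0 (.lf 2 11 208)) (.dc 1 3 1 (.lf 2 10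
  208))) (.dc 1 3 0 (.lf 2 10 208)))) (.dc 1 3 0 (.ct 3 5 1 1 1 (.lf 2 10 224) (.lf 1 8 224)))))

theorem dt261 : le (run cls4 4 tr261 [[3, 2, 2, 1, 4, 1, 1], [4, 4, 2, 1, 5, 1, 1], [1, 1, 1,
  0, 1, 0, 0], [2, 2, 1, 1, 2, 0, 0], [3, 3, 2, 1, 5, 1, 1], [1, 1, 0, 0, 1, 1, 0], [2, 2, 2, 1,
  3, 1, 1]] 281474976186365 [99, 99, 147, 147, 99, 243, 243]) 1328909485269 = true := by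
  decide +kernel

/-- data -/
noncomputable def tr262 : Ct := (.dc 0 1 1 (.ct 4 5 1 1 1 (.ct 3 4 1 1 1 (.ct 5 6 1 1 1 (.dc 1
  3 0 (.lf 2 12 192)) (.dc 1 3 1 (.lf 2 12 192))) (.ct 5 6 1 1 1 (.dc 1 3 0 (.ct 3 5 1 1 1 (.lf 2
  12 208) (.lf 1 12 208))) (.dc 1 3 1 (.ct 3 5 1 1 1 (.lf 2 12 176) (.ct 3 6 1 1 1 (.lf 2 12 208)
  (.lf 1 12 208)))))) (.dc 1 3 0 (.ct 3 5 1 1 1 (.lf 2 12 208) (.lf 1 12 176)))))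

theorem dt262 : le (run cls4 4 tr262 [[1, 0, 0, 0, 1, 0, 0], [4, 4, 2, 1, 5, 1, 1], [1, 1, 1,
  0, 1, 0, 0], [2, 2, 1, 1, 2, 0, 0], [3, 3, 2, 1, 5, 1, 1], [1, 1, 0, 0, 1, 1, 0], [3, 2, 2, 1,
  4, 1, 1]] 281474976186365 [99, 99, 147, 147, 99, 243, 243]) 184146074876 = true := by
  decide +kernel

end Pool.Agent.Work.MP_122e00_nt.Sharp.Cx

end

section

set_option autoImplicit false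

set_option maxRecDepth 100000

/-!
# The certificate: data
-/

namespace Pool.Agent.Work.MP_122e00_nt.Sharp.Cx

/-- data -/
noncomputable def tr263 : Ct := (.ct 1 6 1 1 1 (.dc 2 3 0 (.ct 0 1 1 1 1 (.dc 0 1 0 (.ct 5 6 1
  1 1 (.dc 1 3 0 (.ct 3 5 1 1 1 (.lf 2 10 192) (.lf 1 8 176))) (.dc 1 3 1 (.ct 3 5 1 1 1 (.lf 2 9
  192) (.ct 3 6 1 1 1 (.lf 2 9 192) (.lf 1 8 176)))))) (.ct 0 6 1 1 1 (.dc 0 1 0 (.ct 0 5 1 1 1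
  (.ct 0 3 1 1 1 (.ct 5 6 1 1 1 (.dc 1 3 0 (.ct 3 5 1 1 1 (.lf 2 10 192) (.lf 1 8 192))) (.dc 1 3
  1 (.ct 3 5 1 1 1 (.lf 2 8 192) (.ct 3 6 1 1 1 (.lf 2 8 192) (.lf 1 9 192))))) (.ct 5 6 1 1 1
  (.dc 1 3 0 (.lf 2 10 192)) (.dc 1 3 1 (.lf 2 10 192)))) (.dc 1 3 0 (.ct 3 5 1 1 1 (.lf 2 10
  224) (.lf 1 8 224))))) (.dc 0 1 1 (.ct 5 6 1 1 1 (.dc 1 3 0 (.ct 3 5 1 1 1 (.lf 2 12 224) (.lf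
  1 12 224))) (.dc 1 3 1 (.ct 3 5 1 1 1 (.lf 2 12 160) (.ct 3 6 1 1 1 (.lf 2 12 192) (.lf 1 12
  192))))))))) (.dc 1 3 1 (.dc 2 3 1 (.ct 0 6 1 1 1 (.dc 0 1 0 (.ct 3 5 1 1 1 (.lf 2 11 192) (.lf
  1 11 176))) (.dc 0 1 1 (.ct 3 5 1 1 1 (.lf 2 9 160) (.lf 1 9 160)))))))

theorem dt263 : le (run cls4 4 tr263 [[1, 0, 0, 0, 1, 0, 0], [1, 1, 0, 0, 0, 0, 0], [1, 1, 1,
  0, 1, 0, 0], [2, 2, 1, 1, 2, 0, 0], [4, 4, 2, 1, 5, 1, 1], [1, 1, 0, 0, 1, 1, 0], [2, 2, 2, 1,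
  3, 1, 1]] 281440616447997 [99, 99, 147, 147, 99, 243, 243]) 176384420578 = true := by
  decide +kernel

/-- data -/
noncomputable def tr264 : Ct := (.dc 0 1 1 (.dc 0 2 1 (.ct 1 6 1 1 1 (.dc 2 3 0 (.ct 5 6 1 1 1
  (.dc 1 3 0 (.ct 3 5 1 1 1 (.lf 2 11 208) (.lf 1 10 192))) (.dc 1 3 1 (.ct 3 5 1 1 1 (.lf 2 10
  160) (.ct 3 6 1 1 1 (.lf 2 10 192) (.lf 1 11 176)))))) (.dc 1 3 1 (.dc 2 3 1 (.ct 3 5 1 1 1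
  (.lf 2 8 144) (.lf 1 8 144)))))))

theorem dt264 : le (run cls4 4 tr264 [[1, 0, 0, 0, 1, 0, 0], [1, 1, 0, 0, 0, 0, 0], [1, 1, 1,
  0, 1, 0, 0], [2, 2, 1, 1, 2, 0, 0], [1, 1, 0, 0, 2, 0, 0], [1, 1, 0, 0, 1, 1, 0], [3, 3, 2, 1,
  5, 1, 1]] 281440616447993 [99, 99, 147, 147, 99, 243, 243]) 37979648206 = true := by
  decide +kernel

end Pool.Agent.Work.MP_122e00_nt.Sharp.Cx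

end

section

set_option autoImplicit false

set_option maxRecDepth 100000

/-!
# The certificate: data
-/

namespace Pool.Agent.Work.MP_122e00_nt.Sharp.Cx

/-- data -/
noncomputable def tr265 : Ct := (.dc 0 9 0 (.ct 0 5 1 1 1 (.ct 5 6 1 1 1 (.dc 2 7 1 (.dc 2 15 1
  (.ct 1 4 1 1 1 (.dc 1 3 0 (.ct 3 5 1 1 1 (.lf 3 9 192) (.ct 3 6 1 1 1 (.lf 3 10 192) (.lf 2 10
  192)))) (.dc 1 3 1 (.ct 3 5 1 1 1 (.lf 3 8 192) (.ct 3 6 1 1 1 (.lf 3 9 192) (.lf 2 9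
  192))))))) (.dc 2 7 0 (.ct 0 5 1 1 1 (.ct 1 4 1 1 1 (.dc 1 3 0 (.ct 1 5 1 1 1 (.ct 4 5 1 1 1
  (.ct 3 5 1 1 1 (.dc 2 15 0 (.ct 3 6 1 1 1 (.lf 3 8 176) (.lf 2 8 176))) (.dc 2 15 1 (.ct 3 6 1
  1 1 (.ct 5 6 1 1 1 (.lf 3 10 208) (.lf 2 11 208)) (.lf 2 10 208)))) (.dc 2 15 1 (.ct 3 6 1 1 1
  (.lf 3 9 208) (.lf 2 10 208)))) (.dc 2 15 1 (.ct 3 6 1 1 1 (.lf 3 8 192) (.lf 2 10 192)))))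
  (.dc 1 3 1 (.ct 4 5 1 1 1 (.ct 3 5 1 1 1 (.dc 2 15 0 (.ct 3 6 1 1 1 (.lf 3 7 176) (.lf 2 7
  176))) (.dc 2 15 1 (.ct 3 6 1 1 1 (.ct 5 6 1 1 1 (.lf 3 8 208) (.lf 2 10 208)) (.lf 2 9 192))))
  (.dc 2 15 1 (.ct 3 6 1 1 1 (.lf 3 8 192) (.lf 2 9 192)))))) (.dc 2 15 1 (.ct 1 4 1 1 1 (.dc 1 3
  0 (.ct 3 6 1 1 1 (.lf 3 8 192) (.lf 2 10 192))) (.dc 1 3 1 (.ct 3 6 1 1 1 (.lf 3 8 192) (.lf 2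
  9 192)))))))) (.dc 2 7 1 (.dc 2 15 1 (.ct 1 4 1 1 1 (.dc 1 3 0 (.ct 3 6 1 1 1 (.lf 3 9 192)
  (.lf 2 11 192))) (.dc 1 3 1 (.ct 3 6 1 1 1 (.lf 3 8 192) (.lf 2 10 192))))))))

theorem dt265 : le (run cls4 4 tr265 [[3, 2, 2, 1, 3, 2, 1], [1, 1, 0, 0, 1, 1, 0], [1, 1, 1,
  0, 2, 1, 0], [1, 1, 1, 1, 1, 1, 0], [2, 2, 2, 1, 4, 2, 1], [0, 0, 0, 0, 1, 1, 0], [1, 1, 1, 0,
  1, 1, 1]] 140187732016639 [78, 78, 78, 126, 84, 156, 210]) 706256432013 = true := by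
  decide +kernel

/-- data -/
noncomputable def tr266 : Ct := (.dc 0 9 1 (.ct 5 6 1 1 1 (.dc 2 7 1 (.dc 2 15 1 (.ct 1 4 1 1 1
  (.dc 1 3 0 (.lf 2 9 192)) (.dc 1 3 1 (.lf 2 8 192))))) (.dc 2 7 0 (.ct 0 5 1 1 1 (.ct 3 5 1 1 1
  (.ct 5 6 1 1 1 (.dc 2 15 1 (.ct 1 4 1 1 1 (.dc 1 3 0 (.lf 2 10 208)) (.dc 1 3 1 (.lf 2 9
  176)))) (.ct 1 4 1 1 1 (.dc 1 3 0 (.ct 1 5 1 1 1 (.ct 4 5 1 1 1 (.dc 2 15 0 (.lf 2 7 176)) (.dc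
  2 15 1 (.lf 2 11 208))) (.dc 2 15 1 (.lf 2 10 192)))) (.dc 1 3 1 (.ct 4 5 1 1 1 (.dc 2 15 0
  (.lf 2 6 176)) (.dc 2 15 1 (.lf 2 9 176)))))) (.dc 2 15 1 (.ct 1 4 1 1 1 (.dc 1 3 0 (.lf 2 10
  208)) (.dc 1 3 1 (.lf 2 9 176))))) (.dc 2 15 1 (.ct 1 4 1 1 1 (.dc 1 3 0 (.lf 2 9 208)) (.dc 1
  3 1 (.lf 2 7 176))))))))

theorem dt266 : le (run cls4 4 tr266 [[2, 1, 1, 1, 2, 1, 0], [1, 1, 0, 0, 1, 1, 0], [1, 1, 1,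
  0, 2, 1, 0], [1, 1, 1, 1, 1, 1, 0], [2, 2, 2, 1, 4, 2, 1], [0, 0, 0, 0, 1, 1, 0], [3, 2, 2, 1,
  3, 2, 1]] 140187732016639 [78, 78, 78, 126, 84, 156, 210]) 719588405820 = true := by
  decide +kernel

/-- data -/
noncomputable def tr267 : Ct := (.dc 2 7 1 (.dc 2 15 1 (.ct 0 6 1 1 1 (.dc 0 9 0 (.ct 1 4 1 1 1
  (.dc 1 3 0 (.ct 3 6 1 1 1 (.lf 3 8 176) (.lf 2 10 176))) (.ct 1 5 1 1 1 (.dc 1 3 0 (.ct 3 6 1 1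
  1 (.lf 3 8 192) (.lf 2 10 192))) (.dc 1 3 1 (.ct 3 6 1 1 1 (.lf 3 7 192) (.lf 2 9 192))))))
  (.dc 0 9 1 (.ct 1 4 1 1 1 (.dc 1 3 0 (.lf 2 9 176)) (.ct 1 5 1 1 1 (.dc 1 3 0 (.lf 2 9 192))
  (.dc 1 3 1 (.lf 2 9 192))))))))

theorem dt267 : le (run cls4 4 tr267 [[2, 1, 1, 1, 2, 1, 0], [1, 1, 0, 0, 1, 1, 0], [1, 1, 1,
  0, 2, 1, 0], [1, 1, 1, 1, 1, 1, 0], [2, 2, 2, 1, 3, 1, 1], [2, 2, 2, 1, 4, 2, 1], [1, 1, 1, 0,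
  1, 1, 1]] 140187732016639 [78, 78, 78, 126, 84, 156, 210]) 1634462550436 = true := by
  decide +kernel

end Pool.Agent.Work.MP_122e00_nt.Sharp.Cx

end

section

set_option autoImplicit false

set_option maxRecDepth 100000

/-!
# The certificate: data
-/

namespace Pool.Agent.Work.MP_122e00_nt.Sharp.Cx

/-- data -/
noncomputable def tr268 : Ct := (.ct 3 5 1 1 1 (.ct 0 6 1 1 1 (.dc 0 1 0 (.dc 0 9 0 (.ct 0 5 1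
  1 1 (.ct 5 6 1 1 1 (.dc 2 7 1 (.dc 2 15 1 (.ct 1 4 1 1 1 (.dc 1 3 0 (.lf 3 7 160)) (.dc 1 3 1
  (.lf 3 7 160))))) (.ct 4 5 1 1 1 (.dc 2 7 0 (.ct 3 5 1 1 1 (.ct 1 4 1 1 1 (.dc 1 3 0 (.ct 1 5 1
  1 1 (.ct 4 5 1 1 1 (.dc 2 15 0 (.lf 3 8 176)) (.dc 2 15 1 (.lf 3 8 208))) (.dc 2 15 1 (.lf 3 8
  192)))) (.dc 1 3 1 (.ct 4 5 1 1 1 (.dc 2 15 0 (.lf 3 7 176)) (.dc 2 15 1 (.lf 3 7 176))))) (.dc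
  2 15 1 (.ct 1 4 1 1 1 (.dc 1 3 0 (.lf 3 8 208)) (.dc 1 3 1 (.lf 3 7 176)))))) (.dc 2 7 1 (.dc 2
  15 1 (.ct 1 4 1 1 1 (.dc 1 3 0 (.lf 3 7 192)) (.ct 1 5 1 1 1 (.dc 1 3 0 (.lf 3 7 208)) (.dc 1 3
  1 (.lf 3 6 176)))))))) (.dc 2 7 1 (.dc 2 15 1 (.ct 1 4 1 1 1 (.dc 1 3 0 (.lf 3 8 160)) (.dc 1 3
  1 (.lf 3 8 160)))))))) (.dc 0 9 1 (.ct 5 6 1 1 1 (.dc 2 7 1 (.dc 2 15 1 (.ct 0 3 1 1 1 (.dc 0 1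
  0 (.ct 1 4 1 1 1 (.dc 1 3 0 (.lf 3 8 176)) (.dc 1 3 1 (.lf 3 8 176)))) (.ct 0 4 1 1 1 (.dc 0 1
  0 (.ct 0 1 1 1 1 (.ct 1 4 1 1 1 (.dc 1 3 0 (.lf 3 7 176)) (.dc 1 3 1 (.lf 3 6 176))) (.dc 1 3 0
  (.lf 3 6 192)))) (.dc 0 1 1 (.ct 1 4 1 1 1 (.dc 1 3 0 (.lf 3 12 192)) (.dc 1 3 1 (.lf 3 12
  176)))))))) (.ct 4 5 1 1 1 (.dc 2 7 0 (.ct 0 3 1 1 1 (.dc 0 1 0 (.ct 0 5 1 1 1 (.ct 3 5 1 1 1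
  (.ct 1 4 1 1 1 (.dc 1 3 0 (.ct 1 5 1 1 1 (.ct 4 5 1 1 1 (.dc 2 15 0 (.lf 3 7 176)) (.dc 2 15 1
  (.lf 3 11 208))) (.dc 2 15 1 (.lf 3 11 192)))) (.dc 1 3 1 (.ct 4 5 1 1 1 (.dc 2 15 0 (.lf 3 6
  160)) (.dc 2 15 1 (.lf 3 10 160))))) (.dc 2 15 1 (.ct 1 4 1 1 1 (.dc 1 3 0 (.lf 3 11 208)) (.dc
  1 3 1 (.lf 3 10 176))))) (.dc 2 15 1 (.ct 1 4 1 1 1 (.dc 1 3 0 (.lf 3 10 208)) (.dc 1 3 1 (.lf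
  3 9 176)))))) (.ct 3 5 1 1 1 (.ct 0 4 1 1 1 (.dc 0 1 0 (.ct 0 1 1 1 1 (.ct 0 5 1 1 1 (.ct 1 4 1
  1 1 (.dc 1 3 0 (.ct 1 5 1 1 1 (.ct 4 5 1 1 1 (.dc 2 15 0 (.lf 3 6 192)) (.dc 2 15 1 (.lf 3 11
  224))) (.dc 2 15 1 (.lf 3 10 224)))) (.dc 1 3 1 (.ct 4 5 1 1 1 (.dc 2 15 0 (.lf 3 5 176)) (.dc
  2 15 1 (.lf 3 9 192))))) (.dc 2 15 1 (.ct 1 4 1 1 1 (.dc 1 3 0 (.lf 3 9 224)) (.dc 1 3 1 (.lf 3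
  8 192))))) (.dc 1 3 0 (.ct 0 5 1 1 1 (.ct 1 5 1 1 1 (.ct 4 5 1 1 1 (.dc 2 15 0 (.lf 3 6 208))
  (.dc 2 15 1 (.lf 3 10 240))) (.dc 2 15 1 (.lf 3 9 224))) (.dc 2 15 1 (.lf 3 8 208)))))) (.dc 0
  1 1 (.ct 1 4 1 1 1 (.dc 1 3 0 (.ct 1 5 1 1 1 (.ct 4 5 1 1 1 (.dc 2 15 0 (.lf 3 11 192)) (.dc 2
  15 1 (.lf 3 12 208))) (.dc 2 15 1 (.lf 3 12 192)))) (.dc 1 3 1 (.ct 4 5 1 1 1 (.dc 2 15 0 (.lf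
  3 10 176)) (.dc 2 15 1 (.lf 3 12 176))))))) (.dc 2 15 1 (.ct 0 4 1 1 1 (.dc 0 1 0 (.ct 0 1 1 1
  1 (.ct 1 4 1 1 1 (.dc 1 3 0 (.lf 3 9 192)) (.dc 1 3 1 (.lf 3 8 160))) (.dc 1 3 0 (.lf 3 8
  208)))) (.dc 0 1 1 (.ct 1 4 1 1 1 (.dc 1 3 0 (.lf 3 12 176)) (.dc 1 3 1 (.lf 3 12 160)))))))))
  (.dc 2 7 1 (.dc 2 15 1 (.ct 0 3 1 1 1 (.dc 0 1 0 (.ct 1 4 1 1 1 (.dc 1 3 0 (.lf 3 9 208)) (.ct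
  1 5 1 1 1 (.dc 1 3 0 (.lf 3 9 208)) (.dc 1 3 1 (.lf 3 8 176))))) (.ct 0 4 1 1 1 (.dc 0 1 0 (.ct
  0 1 1 1 1 (.ct 1 4 1 1 1 (.dc 1 3 0 (.lf 3 7 208)) (.ct 1 5 1 1 1 (.dc 1 3 0 (.lf 3 8 208))
  (.dc 1 3 1 (.lf 3 6 176)))) (.dc 1 3 0 (.lf 3 6 192)))) (.ct 1 4 1 1 1 (.dc 1 3 0 (.ct 0 5 1 1
  1 (.dc 0 1 0 (.lf 3 6 208)) (.dc 0 1 1 (.lf 3 12 208)))) (.ct 0 5 1 1 1 (.dc 0 1 0 (.ct 0 1 1 1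
  1 (.ct 1 5 1 1 1 (.dc 1 3 0 (.lf 3 8 192)) (.dc 1 3 1 (.lf 3 6 160))) (.dc 1 3 0 (.lf 3 7
  208)))) (.dc 0 1 1 (.ct 1 5 1 1 1 (.dc 1 3 0 (.lf 3 12 176)) (.dc 1 3 1 (.lf 3 12
  160)))))))))))))) (.dc 2 7 1 (.dc 2 15 1 (.ct 0 6 1 1 1 (.dc 0 1 0 (.dc 0 9 0 (.ct 1 4 1 1 1
  (.dc 1 3 0 (.lf 3 7 176)) (.dc 1 3 1 (.lf 3 7 176))))) (.dc 0 9 1 (.ct 0 3 1 1 1 (.dc 0 1 0
  (.ct 1 4 1 1 1 (.dc 1 3 0 (.lf 3 9 176)) (.dc 1 3 1 (.lf 3 8 176)))) (.ct 0 5 1 1 1 (.dc 0 1 0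
  (.ct 1 4 1 1 1 (.dc 1 3 0 (.lf 3 8 160)) (.dc 1 3 1 (.lf 3 8 160)))) (.ct 0 4 1 1 1 (.dc 0 1 0
  (.ct 0 1 1 1 1 (.ct 1 4 1 1 1 (.dc 1 3 0 (.lf 3 9 160)) (.dc 1 3 1 (.lf 3 7 160))) (.dc 1 3 0
  (.lf 3 7 192)))) (.dc 0 1 1 (.ct 1 4 1 1 1 (.dc 1 3 0 (.lf 3 12 192)) (.dc 1 3 1 (.lf 3 12
  160))))))))))))

theorem dt268 : le (run cls4 4 tr268 [[1, 0, 0, 0, 1, 0, 0], [1, 1, 0, 0, 1, 1, 0], [1, 1, 1,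
  0, 2, 1, 0], [3, 2, 2, 1, 3, 2, 1], [2, 2, 2, 1, 3, 1, 1], [0, 0, 0, 0, 1, 1, 0], [1, 1, 1, 0,
  1, 1, 1]] 140187732016637 [64, 76, 76, 124, 70, 154, 196]) 169460017037 = true := by
  decide +kernel

/-- data -/
noncomputable def tr269 : Ct := (.dc 2 7 1 (.dc 2 15 1 (.ct 0 5 1 1 1 (.dc 0 1 0 (.ct 1 4 1 1 1
  (.dc 1 3 0 (.lf 2 8 192)) (.dc 1 3 1 (.lf 2 8 192)))) (.ct 0 6 1 1 1 (.dc 0 1 0 (.ct 1 4 1 1 1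
  (.dc 1 3 0 (.lf 2 9 192)) (.dc 1 3 1 (.lf 2 8 192)))) (.ct 0 4 1 1 1 (.dc 0 1 0 (.ct 0 1 1 1 1
  (.ct 1 4 1 1 1 (.dc 1 3 0 (.lf 2 9 160)) (.dc 1 3 1 (.lf 2 7 160))) (.dc 1 3 0 (.lf 2 8 192))))
  (.dc 0 1 1 (.ct 1 4 1 1 1 (.dc 1 3 0 (.lf 2 12 192)) (.dc 1 3 1 (.lf 2 12 160)))))))))

theorem dt269 : le (run cls4 4 tr269 [[1, 0, 0, 0, 1, 0, 0], [1, 1, 0, 0, 1, 1, 0], [1, 1, 1,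
  0, 2, 1, 0], [2, 1, 1, 1, 2, 1, 0], [2, 2, 2, 1, 3, 1, 1], [3, 2, 2, 1, 4, 3, 1], [3, 2, 2, 1,
  3, 2, 1]] 140187732017149 [68, 104, 104, 128, 74, 182, 224]) 512739540095 = true := by
  decide +kernel

/-- data -/
noncomputable def tr270 : Ct := (.dc 0 1 0 (.ct 0 5 1 1 1 (.ct 5 6 1 1 1 (.dc 2 15 1 (.ct 1 4 1
  1 1 (.dc 1 3 0 (.lf 2 10 208)) (.dc 1 3 1 (.lf 2 9 176)))) (.ct 1 4 1 1 1 (.dc 1 3 0 (.ct 1 5 1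
  1 1 (.ct 4 5 1 1 1 (.dc 2 15 0 (.lf 2 6 176)) (.dc 2 15 1 (.lf 2 10 208))) (.dc 2 15 1 (.lf 2
  10 192)))) (.dc 1 3 1 (.ct 4 5 1 1 1 (.dc 2 15 0 (.lf 2 5 160)) (.dc 2 15 1 (.lf 2 8 160))))))
  (.dc 2 15 1 (.ct 1 4 1 1 1 (.dc 1 3 0 (.lf 2 10 208)) (.dc 1 3 1 (.lf 2 9 176))))))

theorem dt270 : le (run cls4 4 tr270 [[4, 2, 2, 1, 5, 3, 1], [1, 1, 0, 0, 1, 1, 0], [1, 1, 1,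
  0, 2, 1, 0], [2, 1, 1, 1, 3, 2, 0], [2, 2, 2, 1, 4, 2, 1], [0, 0, 0, 0, 1, 1, 0], [3, 2, 2, 1,
  4, 3, 1]] 140737487831037 [68, 104, 104, 128, 74, 182, 224]) 321004880526 = true := by
  decide +kernel

end Pool.Agent.Work.MP_122e00_nt.Sharp.Cx

end

section

set_option autoImplicit false

set_option maxRecDepth 100000

/-!
# The certificate: data
-/

namespace Pool.Agent.Work.MP_122e00_nt.Sharp.Cx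

/-- data -/
noncomputable def tr271 : Ct := (.ct 5 6 1 1 1 (.dc 2 15 1 (.ct 0 4 1 1 1 (.dc 0 1 0 (.ct 0 1 1
  1 1 (.ct 1 4 1 1 1 (.dc 1 3 0 (.lf 2 11 192)) (.dc 1 3 1 (.lf 2 9 160))) (.dc 1 3 0 (.lf 2 10
  208)))) (.dc 0 1 1 (.ct 1 4 1 1 1 (.dc 1 3 0 (.lf 2 13 176)) (.dc 1 3 1 (.lf 2 12 160))))))
  (.ct 0 4 1 1 1 (.dc 0 1 0 (.ct 0 1 1 1 1 (.ct 0 5 1 1 1 (.ct 1 4 1 1 1 (.dc 1 3 0 (.ct 1 5 1 1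
  1 (.ct 4 5 1 1 1 (.dc 2 15 0 (.lf 2 6 192)) (.dc 2 15 1 (.lf 2 10 224))) (.dc 2 15 1 (.lf 2 11
  224)))) (.dc 1 3 1 (.ct 4 5 1 1 1 (.dc 2 15 0 (.lf 2 5 176)) (.dc 2 15 1 (.lf 2 9 192))))) (.dc
  2 15 1 (.ct 1 4 1 1 1 (.dc 1 3 0 (.lf 2 11 224)) (.dc 1 3 1 (.lf 2 9 192))))) (.dc 1 3 0 (.ct 0
  5 1 1 1 (.ct 1 5 1 1 1 (.ct 4 5 1 1 1 (.dc 2 15 0 (.lf 2 5 208)) (.dc 2 15 1 (.lf 2 10 240)))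
  (.dc 2 15 1 (.lf 2 10 224))) (.dc 2 15 1 (.lf 2 10 208)))))) (.dc 0 1 1 (.ct 1 4 1 1 1 (.dc 1 3
  0 (.ct 1 5 1 1 1 (.ct 4 5 1 1 1 (.dc 2 15 0 (.lf 2 11 192)) (.dc 2 15 1 (.lf 2 13 208))) (.dc 2
  15 1 (.lf 2 13 192)))) (.dc 1 3 1 (.ct 4 5 1 1 1 (.dc 2 15 0 (.lf 2 10 176)) (.dc 2 15 1 (.lf 2
  12 176))))))))

theorem dt271 : le (run cls4 4 tr271 [[1, 0, 0, 0, 1, 0, 0], [1, 1, 0, 0, 1, 1, 0], [1, 1, 1,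
  0, 2, 1, 0], [2, 1, 1, 1, 3, 2, 0], [2, 2, 2, 1, 4, 2, 1], [0, 0, 0, 0, 1, 1, 0], [4, 2, 2, 1,
  5, 3, 1]] 140737487831037 [68, 104, 104, 128, 74, 182, 224]) 112943961484 = true := by
  decide +kernel

/-- data -/
noncomputable def tr272 : Ct := (.dc 2 15 1 (.ct 0 6 1 1 1 (.dc 0 1 0 (.ct 1 4 1 1 1 (.dc 1 3 0
  (.lf 2 9 208)) (.dc 1 3 1 (.lf 2 7 176)))) (.ct 0 4 1 1 1 (.dc 0 1 0 (.ct 0 1 1 1 1 (.ct 1 4 1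
  1 1 (.dc 1 3 0 (.lf 2 9 192)) (.dc 1 3 1 (.lf 2 8 176))) (.dc 1 3 0 (.lf 2 8 208)))) (.dc 0 1 1
  (.ct 1 4 1 1 1 (.dc 1 3 0 (.lf 2 13 176)) (.dc 1 3 1 (.lf 2 12 176)))))))

theorem dt272 : le (run cls4 4 tr272 [[1, 0, 0, 0, 1, 0, 0], [1, 1, 0, 0, 1, 1, 0], [1, 1, 1,
  0, 2, 1, 0], [2, 1, 1, 1, 2, 1, 0], [2, 2, 2, 1, 4, 2, 1], [2, 1, 1, 1, 3, 2, 0], [3, 2, 2, 1,
  4, 3, 1]] 140737487831037 [68, 104, 104, 128, 74, 182, 224]) 446494646721 = true := by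
  decide +kernel

end Pool.Agent.Work.MP_122e00_nt.Sharp.Cx

end
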