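import Pool.Agent.Work.MP_122e00_nt.Bd.B03

/-! Bundle of small proof modules (one section per former module). -/

section

set_option autoImplicit false

set_option maxRecDepth 100000

/-!
# The certificate: data
-/

namespace Pool.Agent.Work.MP_122e00_nt.Sharp.Cx

/-- data -/
noncomputable def tr273 : Ct := (.dc 2 7 1 (.dc 2 15 1 (.ct 0 6 1 1 1 (.dc 0 1 0 (.ct 1 4 1 1 1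
  (.dc 1 3 0 (.lf 2 8 192)) (.ct 1 5 1 1 1 (.dc 1 3 0 (.lf 2 9 192)) (.dc 1 3 1 (.lf 2 8 160)))))
  (.ct 0 4 1 1 1 (.dc 0 1 0 (.ct 0 1 1 1 1 (.ct 1 4 1 1 1 (.dc 1 3 0 (.lf 2 8 192)) (.ct 1 5 1 1
  1 (.dc 1 3 0 (.lf 2 8 192)) (.dc 1 3 1 (.lf 2 7 160)))) (.dc 1 3 0 (.lf 2 7 176)))) (.ct 1 4 1
  1 1 (.dc 1 3 0 (.ct 0 5 1 1 1 (.dc 0 1 0 (.lf 2 7 192)) (.dc 0 1 1 (.lf 2 13 192)))) (.ct 0 5 1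
  1 1 (.dc 0 1 0 (.ct 0 1 1 1 1 (.ct 1 5 1 1 1 (.dc 1 3 0 (.lf 2 8 192)) (.dc 1 3 1 (.lf 2 7
  176))) (.dc 1 3 0 (.lf 2 8 208)))) (.dc 0 1 1 (.ct 1 5 1 1 1 (.dc 1 3 0 (.lf 2 13 176)) (.dc 1
  3 1 (.lf 2 12 176))))))))))

theorem dt273 : le (run cls4 4 tr273 [[1, 0, 0, 0, 1, 0, 0], [1, 1, 0, 0, 1, 1, 0], [1, 1, 1,
  0, 2, 1, 0], [2, 1, 1, 1, 2, 1, 0], [2, 2, 2, 1, 3, 1, 1], [2, 2, 2, 1, 4, 2, 1], [3, 2, 2, 1,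
  4, 3, 1]] 140187732017149 [68, 104, 104, 128, 74, 182, 224]) 533926658174 = true := by
  decide +kernel

/-- data -/
noncomputable def tr274 : Ct := (.dc 2 7 1 (.dc 2 15 1 (.ct 0 3 1 1 1 (.dc 0 1 0 (.dc 1 14 1
  (.ct 0 6 1 1 1 (.dc 0 9 0 (.ct 1 4 1 1 1 (.dc 1 3 0 (.ct 3 6 1 1 1 (.lf 3 10 176) (.lf 2 11
  176))) (.dc 1 3 1 (.ct 3 6 1 1 1 (.lf 3 10 176) (.lf 2 11 176))))) (.dc 0 9 1 (.ct 1 4 1 1 1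
  (.dc 1 3 0 (.lf 2 12 176)) (.dc 1 3 1 (.lf 2 11 176))))))) (.dc 1 14 0 (.ct 0 6 1 1 1 (.dc 0 1
  0 (.ct 3 6 1 1 1 (.dc 0 9 0 (.ct 1 4 1 1 1 (.dc 1 3 0 (.lf 3 10 176)) (.dc 1 3 1 (.lf 3 9
  176)))) (.dc 0 9 1 (.ct 1 4 1 1 1 (.dc 1 3 0 (.ct 0 3 1 1 1 (.lf 2 11 176) (.lf 3 12 176)))
  (.dc 1 3 1 (.ct 0 3 1 1 1 (.lf 2 11 176) (.lf 3 11 176))))))) (.dc 0 9 1 (.ct 3 6 1 1 1 (.ct 0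
  4 1 1 1 (.dc 0 1 0 (.ct 0 1 1 1 1 (.ct 1 4 1 1 1 (.dc 1 3 0 (.lf 3 11 160)) (.dc 1 3 1 (.lf 3
  11 160))) (.dc 1 3 0 (.lf 3 11 192)))) (.dc 0 1 1 (.ct 1 4 1 1 1 (.dc 1 3 0 (.lf 3 12 192))
  (.dc 1 3 1 (.lf 3 11 160))))) (.ct 0 4 1 1 1 (.dc 0 1 0 (.ct 0 1 1 1 1 (.ct 1 4 1 1 1 (.dc 1 3
  0 (.lf 2 12 160)) (.dc 1 3 1 (.lf 2 11 160))) (.dc 1 3 0 (.lf 2 11 192)))) (.dc 0 1 1 (.ct 1 4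
  1 1 1 (.dc 1 3 0 (.lf 2 12 192)) (.dc 1 3 1 (.lf 2 12 160))))))))))))

theorem dt274 : le (run cls4 4 tr274 [[1, 0, 0, 0, 1, 0, 0], [1, 1, 0, 0, 1, 1, 0], [1, 1, 1,
  0, 1, 0, 0], [1, 1, 1, 1, 1, 1, 0], [2, 2, 2, 1, 3, 1, 1], [1, 1, 1, 0, 2, 1, 0], [1, 1, 1, 0,
  1, 1, 1]] 140186658274813 [64, 76, 76, 124, 70, 154, 196]) 693935329507 = true := by
  decide +kernel

end Pool.Agent.Work.MP_122e00_nt.Sharp.Cx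

end

section

set_option autoImplicit false

set_option maxRecDepth 100000

/-!
# The certificate: data
-/

namespace Pool.Agent.Work.MP_122e00_nt.Sharp.Cx

/-- data -/
noncomputable def tr275 : Ct := (.ct 0 3 1 1 1 (.dc 0 1 0 (.dc 1 14 1 (.ct 5 6 1 1 1 (.dc 2 15
  1 (.ct 4 6 1 1 1 (.dc 2 7 1 (.lf 2 8 192)) (.dc 2 7 0 (.lf 2 7 192)))) (.dc 2 7 0 (.ct 0 5 1 1
  1 (.ct 1 5 1 1 1 (.ct 3 5 1 1 1 (.ct 5 6 1 1 1 (.dc 2 15 1 (.lf 2 9 192)) (.dc 2 15 0 (.lf 2 6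
  176))) (.dc 2 15 1 (.lf 2 9 192))) (.dc 2 15 1 (.lf 2 7 192))) (.dc 2 15 1 (.lf 2 7 192)))))))
  (.dc 1 14 0 (.ct 5 6 1 1 1 (.dc 2 15 1 (.ct 0 5 1 1 1 (.dc 0 1 0 (.ct 4 6 1 1 1 (.dc 2 7 1 (.lf
  2 8 192)) (.dc 2 7 0 (.lf 2 6 192)))) (.ct 0 6 1 1 1 (.dc 0 1 0 (.ct 0 4 1 1 1 (.ct 4 6 1 1 1
  (.dc 2 7 1 (.lf 2 9 192)) (.dc 2 7 0 (.lf 2 7 192))) (.dc 2 7 1 (.lf 2 9 224)))) (.dc 0 1 1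
  (.ct 4 6 1 1 1 (.dc 2 7 1 (.lf 2 12 224)) (.dc 2 7 0 (.lf 2 12 192))))))) (.dc 2 7 0 (.ct 1 5 1
  1 1 (.ct 3 5 1 1 1 (.ct 0 6 1 1 1 (.dc 0 1 0 (.ct 0 5 1 1 1 (.ct 5 6 1 1 1 (.dc 2 15 1 (.lf 2 9
  208)) (.dc 2 15 0 (.lf 2 5 176))) (.dc 2 15 1 (.lf 2 9 208)))) (.dc 0 1 1 (.ct 5 6 1 1 1 (.dc 2
  15 1 (.lf 2 12 176)) (.dc 2 15 0 (.lf 2 10 176))))) (.dc 2 15 1 (.ct 0 6 1 1 1 (.dc 0 1 0 (.lf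
  2 8 192)) (.dc 0 1 1 (.lf 2 13 176))))) (.dc 2 15 1 (.ct 0 6 1 1 1 (.dc 0 1 0 (.lf 2 6 192))
  (.dc 0 1 1 (.lf 2 12 176)))))))))

theorem dt275 : le (run cls4 4 tr275 [[1, 0, 0, 0, 1, 0, 0], [2, 2, 1, 1, 3, 1, 0], [1, 1, 1,
  0, 2, 1, 0], [1, 1, 1, 1, 1, 1, 0], [1, 1, 1, 1, 3, 1, 0], [0, 0, 0, 0, 1, 1, 0], [2, 2, 2, 1,
  3, 1, 1]] 140186658799613 [124, 136, 136, 136, 82, 238, 280]) 249305989070 = true := by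
  decide +kernel

/-- data -/
noncomputable def tr276 : Ct := (.dc 2 15 1 (.ct 0 3 1 1 1 (.dc 0 1 0 (.dc 1 14 1 (.ct 5 6 1 1
  1 (.dc 2 7 1 (.ct 2 4 1 1 1 (.lf 1 10 160) (.lf 2 9 160))) (.dc 2 7 0 (.ct 2 4 1 1 1 (.lf 1 9
  160) (.lf 2 8 160)))))) (.dc 1 14 0 (.ct 2 4 1 1 1 (.ct 0 6 1 1 1 (.dc 0 1 0 (.ct 0 5 1 1 1
  (.ct 5 6 1 1 1 (.dc 2 7 1 (.lf 1 9 192)) (.dc 2 7 0 (.lf 1 10 192))) (.dc 2 7 1 (.lf 1 9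
  208)))) (.dc 0 1 1 (.ct 5 6 1 1 1 (.dc 2 7 1 (.lf 1 12 208)) (.dc 2 7 0 (.lf 1 12 192))))) (.ct
  0 6 1 1 1 (.dc 0 1 0 (.ct 0 5 1 1 1 (.ct 5 6 1 1 1 (.dc 2 7 1 (.lf 2 8 192)) (.dc 2 7 0 (.lf 2
  9 192))) (.dc 2 7 1 (.lf 2 8 208)))) (.dc 0 1 1 (.ct 5 6 1 1 1 (.dc 2 7 1 (.lf 2 13 208)) (.dc
  2 7 0 (.lf 2 13 192)))))))))

theorem dt276 : le (run cls4 4 tr276 [[1, 0, 0, 0, 1, 0, 0], [2, 2, 1, 1, 3, 1, 0], [1, 1, 1,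
  0, 2, 1, 0], [1, 1, 1, 1, 1, 1, 0], [1, 1, 1, 1, 2, 0, 0], [1, 1, 1, 1, 3, 1, 0], [2, 2, 2, 1,
  3, 1, 1]] 140186658799613 [124, 136, 136, 136, 82, 238, 280]) 593600206089 = true := by
  decide +kernel

end Pool.Agent.Work.MP_122e00_nt.Sharp.Cx

end

section

set_option autoImplicit false

set_option maxRecDepth 100000

/-!
# The certificate: data
-/

namespace Pool.Agent.Work.MP_122e00_nt.Sharp.Cx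

/-- data -/
noncomputable def tr277 : Ct := (.dc 2 7 1 (.dc 2 15 1 (.ct 0 3 1 1 1 (.dc 0 1 0 (.dc 1 14 1
  (.ct 4 5 1 1 1 (.lf 2 10 160) (.lf 1 9 160)))) (.dc 1 14 0 (.ct 0 6 1 1 1 (.dc 0 1 0 (.ct 4 5 1
  1 1 (.lf 2 9 176) (.lf 1 8 176))) (.dc 0 1 1 (.ct 4 5 1 1 1 (.lf 2 12 192) (.lf 1 12 176))))))))

theorem dt277 : le (run cls4 4 tr277 [[1, 0, 0, 0, 1, 0, 0], [2, 2, 1, 1, 3, 1, 0], [1, 1, 1,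
  0, 1, 0, 0], [1, 1, 1, 1, 1, 1, 0], [1, 1, 1, 1, 2, 0, 0], [1, 1, 1, 0, 2, 1, 0], [2, 2, 2, 1,
  3, 1, 1]] 140186658799613 [124, 136, 136, 136, 82, 238, 280]) 379983698402 = true := by
  decide +kernel

/-- data -/
noncomputable def tr278 : Ct := (.dc 0 1 0 (.dc 1 14 1 (.ct 5 6 1 1 1 (.dc 2 7 1 (.dc 2 15 1
  (.ct 1 5 1 1 1 (.dc 1 3 0 (.lf 2 9 192)) (.ct 1 6 1 1 1 (.dc 1 3 0 (.lf 2 9 176)) (.dc 1 3 1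
  (.lf 2 8 176)))))) (.dc 2 7 0 (.ct 0 5 1 1 1 (.ct 3 5 1 1 1 (.ct 4 5 1 1 1 (.ct 1 6 1 1 1 (.dc
  1 3 0 (.ct 1 5 1 1 1 (.ct 5 6 1 1 1 (.dc 2 15 1 (.lf 2 9 192)) (.dc 2 15 0 (.lf 2 5 160))) (.dc
  2 15 1 (.lf 2 9 192)))) (.dc 1 3 1 (.ct 5 6 1 1 1 (.dc 2 15 1 (.lf 2 8 176)) (.dc 2 15 0 (.lf 2
  4 160))))) (.dc 2 15 1 (.ct 1 6 1 1 1 (.dc 1 3 0 (.lf 2 9 192)) (.dc 1 3 1 (.lf 2 8 176)))))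
  (.dc 2 15 1 (.ct 1 6 1 1 1 (.dc 1 3 0 (.lf 2 10 192)) (.dc 1 3 1 (.lf 2 9 176))))) (.dc 2 15 1
  (.ct 1 6 1 1 1 (.dc 1 3 0 (.lf 2 9 192)) (.dc 1 3 1 (.lf 2 8 176)))))))))

theorem dt278 : le (run cls4 4 tr278 [[2, 1, 1, 1, 2, 1, 0], [1, 1, 0, 0, 1, 1, 0], [1, 1, 1,
  0, 2, 1, 0], [1, 1, 1, 1, 1, 1, 0], [2, 2, 1, 1, 3, 1, 0], [0, 0, 0, 0, 1, 1, 0], [2, 2, 2, 1,
  3, 1, 1]] 140186658275325 [96, 108, 132, 132, 78, 210, 252]) 455483338947 = true := by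
  decide +kernel

/-- data -/
noncomputable def tr279 : Ct := (.dc 2 7 1 (.dc 2 15 1 (.ct 0 5 1 1 1 (.dc 0 1 0 (.ct 0 1 1 1 1
  (.ct 1 5 1 1 1 (.dc 1 3 0 (.lf 2 9 192)) (.ct 1 6 1 1 1 (.dc 1 3 0 (.lf 2 9 176)) (.dc 1 3 1
  (.lf 2 8 176)))) (.dc 1 3 0 (.lf 2 8 192)))) (.ct 1 5 1 1 1 (.dc 1 3 0 (.ct 0 6 1 1 1 (.dc 0 1
  0 (.lf 2 10 192)) (.dc 0 1 1 (.lf 2 13 192)))) (.ct 0 6 1 1 1 (.dc 0 1 0 (.ct 0 1 1 1 1 (.ct 1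
  6 1 1 1 (.dc 1 3 0 (.lf 2 10 176)) (.dc 1 3 1 (.lf 2 9 176))) (.dc 1 3 0 (.lf 2 9 192)))) (.dc
  0 1 1 (.ct 1 6 1 1 1 (.dc 1 3 0 (.lf 2 12 192)) (.dc 1 3 1 (.lf 2 12 176)))))))))

theorem dt279 : le (run cls4 4 tr279 [[1, 0, 0, 0, 1, 0, 0], [1, 1, 0, 0, 1, 1, 0], [1, 1, 1,
  0, 2, 1, 0], [2, 1, 1, 1, 2, 1, 0], [2, 2, 1, 1, 3, 1, 0], [2, 2, 2, 1, 4, 2, 1], [2, 2, 2, 1,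
  3, 1, 1]] 140187732017149 [96, 108, 132, 132, 78, 210, 252]) 271601972591 = true := by
  decide +kernel

end Pool.Agent.Work.MP_122e00_nt.Sharp.Cx

end

section

set_option autoImplicit false

set_option maxRecDepth 100000

/-!
# The certificate: data
-/

namespace Pool.Agent.Work.MP_122e00_nt.Sharp.Cx

/-- data -/
noncomputable def tr280 : Ct := (.ct 4 5 1 1 1 (.ct 0 6 1 1 1 (.dc 0 1 0 (.ct 0 1 1 1 1 (.ct 0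
  5 1 1 1 (.ct 1 6 1 1 1 (.dc 1 3 0 (.ct 1 5 1 1 1 (.ct 5 6 1 1 1 (.dc 2 15 1 (.lf 2 9 224)) (.dc
  2 15 0 (.lf 2 5 192))) (.dc 2 15 1 (.lf 2 9 224)))) (.dc 1 3 1 (.ct 5 6 1 1 1 (.dc 2 15 1 (.lf
  2 7 192)) (.dc 2 15 0 (.lf 2 4 176))))) (.dc 2 15 1 (.ct 1 6 1 1 1 (.dc 1 3 0 (.lf 2 9 224))
  (.dc 1 3 1 (.lf 2 7 192))))) (.dc 1 3 0 (.ct 0 5 1 1 1 (.ct 1 5 1 1 1 (.ct 5 6 1 1 1 (.dc 2 15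
  1 (.lf 2 8 240)) (.dc 2 15 0 (.lf 2 5 208))) (.dc 2 15 1 (.lf 2 8 224))) (.dc 2 15 1 (.lf 2 8
  208)))))) (.dc 0 1 1 (.ct 1 6 1 1 1 (.dc 1 3 0 (.ct 1 5 1 1 1 (.ct 5 6 1 1 1 (.dc 2 15 1 (.lf 2
  13 208)) (.dc 2 15 0 (.lf 2 10 192))) (.dc 2 15 1 (.lf 2 13 192)))) (.dc 1 3 1 (.ct 5 6 1 1 1
  (.dc 2 15 1 (.lf 2 12 176)) (.dc 2 15 0 (.lf 2 10 176))))))) (.dc 2 15 1 (.ct 0 6 1 1 1 (.dc 0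
  1 0 (.ct 0 1 1 1 1 (.ct 1 6 1 1 1 (.dc 1 3 0 (.lf 2 9 192)) (.dc 1 3 1 (.lf 2 8 160))) (.dc 1 3
  0 (.lf 2 9 192)))) (.dc 0 1 1 (.ct 1 6 1 1 1 (.dc 1 3 0 (.lf 2 13 160)) (.dc 1 3 1 (.lf 2 12
  144)))))))

theorem dt280 : le (run cls4 4 tr280 [[1, 0, 0, 0, 1, 0, 0], [1, 1, 0, 0, 1, 1, 0], [1, 1, 1,
  0, 2, 1, 0], [2, 1, 1, 1, 3, 2, 0], [2, 2, 1, 1, 3, 1, 0], [0, 0, 0, 0, 1, 1, 0], [2, 2, 2, 1,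
  4, 2, 1]] 140737487831037 [96, 108, 132, 132, 78, 210, 252]) 68385438433 = true := by
  decide +kernel

/-- data -/
noncomputable def tr281 : Ct := (.dc 2 15 1 (.ct 0 6 1 1 1 (.dc 0 1 0 (.ct 0 1 1 1 1 (.ct 1 6 1
  1 1 (.dc 1 3 0 (.lf 2 9 192)) (.dc 1 3 1 (.lf 2 8 176))) (.dc 1 3 0 (.lf 2 8 192)))) (.dc 0 1 1
  (.ct 1 6 1 1 1 (.dc 1 3 0 (.lf 2 13 160)) (.dc 1 3 1 (.lf 2 12 160))))))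

theorem dt281 : le (run cls4 4 tr281 [[1, 0, 0, 0, 1, 0, 0], [1, 1, 0, 0, 1, 1, 0], [1, 1, 1,
  0, 2, 1, 0], [2, 1, 1, 1, 2, 1, 0], [2, 2, 1, 1, 3, 1, 0], [2, 1, 1, 1, 3, 2, 0], [2, 2, 2, 1,
  4, 2, 1]] 140737487831037 [96, 108, 132, 132, 78, 210, 252]) 209172186419 = true := by
  decide +kernel

/-- data -/
noncomputable def tr282 : Ct := (.dc 2 7 1 (.dc 2 15 1 (.ct 0 3 1 1 1 (.dc 0 1 0 (.dc 1 14 1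
  (.ct 1 6 1 1 1 (.dc 1 3 0 (.lf 2 11 160)) (.dc 1 3 1 (.lf 2 11 160))))) (.dc 1 14 0 (.ct 0 6 1
  1 1 (.dc 0 1 0 (.ct 0 1 1 1 1 (.ct 1 6 1 1 1 (.dc 1 3 0 (.lf 2 11 176)) (.dc 1 3 1 (.lf 2 10
  176))) (.dc 1 3 0 (.lf 2 10 192)))) (.dc 0 1 1 (.ct 1 6 1 1 1 (.dc 1 3 0 (.lf 2 12 192)) (.dc 1
  3 1 (.lf 2 12 176)))))))))

theorem dt282 : le (run cls4 4 tr282 [[1, 0, 0, 0, 1, 0, 0], [1, 1, 0, 0, 1, 1, 0], [1, 1, 1,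
  0, 1, 0, 0], [1, 1, 1, 1, 1, 1, 0], [2, 2, 1, 1, 3, 1, 0], [1, 1, 1, 0, 2, 1, 0], [2, 2, 2, 1,
  3, 1, 1]] 140186658275325 [96, 108, 132, 132, 78, 210, 252]) 312481350842 = true := by
  decide +kernel

/-- data -/
noncomputable def tr283 : Ct := (.dc 0 1 0 (.dc 0 9 0 (.ct 1 4 1 1 1 (.dc 2 3 0 (.ct 0 3 1 1 1
  (.dc 1 14 1 (.ct 4 5 1 1 1 (.dc 1 3 1 (.ct 3 6 1 1 1 (.lf 3 10 176) (.lf 2 11 176))) (.dc 1 3 0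
  (.ct 3 6 1 1 1 (.lf 3 10 176) (.lf 2 11 176))))) (.dc 1 14 0 (.ct 4 5 1 1 1 (.dc 1 3 1 (.lf 3 9
  176)) (.dc 1 3 0 (.lf 3 10 176)))))) (.dc 1 3 1 (.ct 0 3 1 1 1 (.dc 1 14 1 (.ct 0 1 1 1 1 (.ct
  1 3 1 1 1 (.dc 2 3 0 (.ct 1 6 1 1 1 (.ct 3 6 1 1 1 (.lf 3 9 176) (.lf 2 10 176)) (.lf 2 11
  176))) (.dc 2 3 1 (.ct 3 6 1 1 1 (.lf 3 10 176) (.lf 2 11 160)))) (.dc 2 3 0 (.ct 3 6 1 1 1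
  (.lf 3 9 176) (.lf 2 11 176))))) (.dc 1 14 0 (.ct 1 3 1 1 1 (.dc 2 3 0 (.lf 3 9 176)) (.dc 2 3
  1 (.lf 3 10 176)))))))))

theorem dt283 : le (run cls4 4 tr283 [[2, 1, 1, 0, 2, 1, 1], [1, 1, 0, 0, 0, 0, 0], [1, 1, 1,
  0, 1, 0, 0], [1, 1, 1, 1, 1, 1, 0], [2, 2, 2, 1, 3, 1, 1], [1, 1, 0, 0, 1, 1, 0], [1, 1, 1, 0,
  1, 1, 1]] 281439542705661 [69, 81, 93, 141, 105, 189, 201]) 1128138266199 = true := by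
  decide +kernel

end Pool.Agent.Work.MP_122e00_nt.Sharp.Cx

end

section

set_option autoImplicit false

set_option maxRecDepth 100000

/-!
# The certificate: data
-/

namespace Pool.Agent.Work.MP_122e00_nt.Sharp.Cx

/-- data -/
noncomputable def tr284 : Ct := (.dc 2 3 0 (.ct 0 3 1 1 1 (.dc 0 1 0 (.ct 3 6 1 1 1 (.dc 1 14 0
  (.ct 4 5 1 1 1 (.dc 1 3 1 (.ct 0 6 1 1 1 (.lf 3 11 160) (.lf 2 11 160))) (.dc 1 3 0 (.ct 0 6 1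
  1 1 (.lf 3 12 176) (.lf 2 11 176))))) (.dc 1 14 1 (.ct 4 5 1 1 1 (.dc 1 3 1 (.lf 2 11 176))
  (.dc 1 3 0 (.lf 2 12 176)))))) (.dc 1 14 0 (.ct 0 1 1 1 1 (.dc 0 1 0 (.ct 4 5 1 1 1 (.dc 1 3 1
  (.ct 3 6 1 1 1 (.lf 3 10 160) (.lf 2 11 160))) (.dc 1 3 0 (.ct 3 6 1 1 1 (.lf 3 11 176) (.lf 2
  11 176))))) (.ct 3 6 1 1 1 (.ct 0 4 1 1 1 (.dc 0 1 0 (.ct 0 5 1 1 1 (.ct 4 5 1 1 1 (.dc 1 3 1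
  (.lf 3 10 160)) (.dc 1 3 0 (.lf 3 11 160))) (.dc 1 3 0 (.lf 3 11 192)))) (.dc 0 1 1 (.ct 4 5 1
  1 1 (.dc 1 3 1 (.lf 3 11 160)) (.dc 1 3 0 (.lf 3 12 192))))) (.ct 0 4 1 1 1 (.dc 0 1 0 (.ct 0 5
  1 1 1 (.ct 4 5 1 1 1 (.dc 1 3 1 (.lf 2 11 160)) (.dc 1 3 0 (.lf 2 11 160))) (.dc 1 3 0 (.lf 2
  11 192)))) (.dc 0 1 1 (.ct 4 5 1 1 1 (.dc 1 3 1 (.lf 2 12 160)) (.dc 1 3 0 (.lf 2 12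
  192))))))))))

theorem dt284 : le (run cls4 4 tr284 [[1, 0, 0, 0, 1, 0, 0], [3, 3, 2, 1, 3, 1, 1], [1, 1, 1,
  0, 1, 0, 0], [1, 1, 1, 1, 1, 1, 0], [2, 2, 2, 1, 3, 1, 1], [1, 1, 0, 0, 1, 1, 0], [2, 1, 1, 0,
  2, 1, 1]] 281439542706173 [73, 109, 121, 145, 109, 217, 229]) 625287593961 = true := by
  decide +kernel

/-- data -/
noncomputable def tr285 : Ct := (.dc 1 3 1 (.ct 0 3 1 1 1 (.dc 0 1 0 (.ct 3 6 1 1 1 (.dc 1 14 0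
  (.ct 1 3 1 1 1 (.dc 2 3 0 (.ct 0 6 1 1 1 (.lf 3 11 160) (.lf 2 11 160))) (.ct 0 1 1 1 1 (.dc 2
  3 1 (.ct 0 6 1 1 1 (.lf 3 11 192) (.lf 2 11 208))) (.dc 2 3 0 (.ct 0 6 1 1 1 (.ct 1 6 1 1 1
  (.lf 3 10 192) (.lf 2 11 208)) (.lf 2 11 176)))))) (.dc 1 14 1 (.ct 0 1 1 1 1 (.ct 1 3 1 1 1
  (.dc 2 3 0 (.lf 2 9 176)) (.ct 1 6 1 1 1 (.dc 2 3 0 (.lf 2 9 176)) (.dc 2 3 1 (.lf 2 11 176))))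
  (.dc 2 3 0 (.lf 2 10 176)))))) (.dc 1 14 0 (.ct 0 4 1 1 1 (.dc 0 1 0 (.ct 1 3 1 1 1 (.dc 2 3 0
  (.ct 1 6 1 1 1 (.ct 3 6 1 1 1 (.lf 3 10 192) (.lf 2 11 192)) (.lf 2 11 208))) (.dc 2 3 1 (.ct 3
  6 1 1 1 (.lf 3 11 192) (.lf 2 11 208))))) (.dc 0 1 1 (.ct 1 3 1 1 1 (.dc 2 3 0 (.ct 1 6 1 1 1
  (.ct 3 6 1 1 1 (.lf 3 11 160) (.lf 2 12 160)) (.lf 2 12 176))) (.dc 2 3 1 (.ct 3 6 1 1 1 (.lf 3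
  9 160) (.lf 2 10 176)))))))))

theorem dt285 : le (run cls4 4 tr285 [[1, 0, 0, 0, 1, 0, 0], [1, 1, 0, 0, 0, 0, 0], [1, 1, 1,
  0, 1, 0, 0], [1, 1, 1, 1, 1, 1, 0], [3, 3, 2, 1, 3, 1, 1], [1, 1, 0, 0, 1, 1, 0], [2, 1, 1, 0,
  2, 1, 1]] 281439542706173 [73, 109, 121, 145, 109, 217, 229]) 356992228693 = true := by
  decide +kernel

end Pool.Agent.Work.MP_122e00_nt.Sharp.Cx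

end

section

set_option autoImplicit false

set_option maxRecDepth 100000

/-!
# The certificate: data
-/

namespace Pool.Agent.Work.MP_122e00_nt.Sharp.Cx

/-- data -/
noncomputable def tr286 : Ct := (.dc 2 3 0 (.ct 4 5 1 1 1 (.dc 0 12 0 (.ct 0 3 1 1 1 (.dc 0 1 0
  (.dc 1 14 1 (.ct 5 6 1 1 1 (.dc 1 3 0 (.ct 1 5 1 1 1 (.lf 2 11 160) (.lf 1 9 160))) (.dc 1 3 1
  (.ct 1 5 1 1 1 (.lf 2 10 176) (.ct 1 6 1 1 1 (.lf 2 10 176) (.lf 1 8 160))))))) (.dc 1 14 0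
  (.ct 0 6 1 1 1 (.dc 0 1 0 (.ct 0 5 1 1 1 (.ct 0 1 1 1 1 (.ct 5 6 1 1 1 (.dc 1 3 0 (.ct 1 5 1 1
  1 (.lf 2 10 208) (.lf 1 8 192))) (.dc 1 3 1 (.ct 1 5 1 1 1 (.lf 2 9 208) (.ct 1 6 1 1 1 (.lf 2
  9 208) (.lf 1 9 192))))) (.ct 5 6 1 1 1 (.dc 1 3 0 (.lf 2 10 208)) (.dc 1 3 1 (.lf 2 10 208))))
  (.dc 1 3 0 (.ct 1 5 1 1 1 (.lf 2 10 224) (.lf 1 8 208))))) (.dc 0 1 1 (.ct 5 6 1 1 1 (.dc 1 3 0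
  (.ct 1 5 1 1 1 (.lf 2 12 224) (.lf 1 12 208))) (.dc 1 3 1 (.ct 1 5 1 1 1 (.lf 2 12 176) (.ct 1
  6 1 1 1 (.lf 2 12 208) (.lf 1 12 192)))))))))) (.dc 0 12 1 (.dc 1 3 0 (.ct 0 3 1 1 1 (.dc 0 1 0
  (.dc 1 14 1 (.lf 1 8 160))) (.dc 1 14 0 (.ct 0 6 1 1 1 (.dc 0 1 0 (.lf 1 7 176)) (.dc 0 1 1
  (.lf 1 11 176)))))))))

theorem dt286 : le (run cls4 4 tr286 [[1, 0, 0, 0, 1, 0, 0], [2, 2, 1, 1, 2, 0, 0], [1, 1, 1,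
  0, 1, 0, 0], [1, 1, 1, 1, 1, 1, 0], [1, 1, 1, 1, 2, 0, 0], [1, 1, 0, 0, 1, 1, 0], [2, 2, 2, 1,
  3, 1, 1]] 281439542702077 [101, 113, 149, 149, 113, 245, 257]) 336446835039 = true := by
  decide +kernel

/-- data -/
noncomputable def tr287 : Ct := (.dc 0 1 0 (.dc 1 14 1 (.ct 1 6 1 1 1 (.dc 2 3 0 (.ct 5 6 1 1 1
  (.dc 1 3 0 (.ct 4 5 1 1 1 (.lf 2 12 176) (.lf 1 10 160))) (.dc 1 3 1 (.ct 4 5 1 1 1 (.lf 2 10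
  176) (.ct 4 6 1 1 1 (.lf 2 10 176) (.lf 1 8 160)))))) (.dc 1 3 1 (.ct 0 1 1 1 1 (.ct 1 3 1 1 1
  (.dc 2 3 0 (.ct 4 5 1 1 1 (.lf 2 9 192) (.lf 1 7 176))) (.dc 2 3 1 (.ct 4 5 1 1 1 (.lf 2 11
  192) (.lf 1 11 176)))) (.dc 2 3 0 (.ct 4 5 1 1 1 (.lf 2 9 192) (.lf 1 8 176))))))))

theorem dt287 : le (run cls4 4 tr287 [[2, 1, 1, 1, 2, 1, 0], [1, 1, 0, 0, 0, 0, 0], [1, 1, 1,
  0, 1, 0, 0], [1, 1, 1, 1, 1, 1, 0], [2, 2, 1, 1, 2, 0, 0], [1, 1, 0, 0, 1, 1, 0], [2, 2, 2, 1,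
  3, 1, 1]] 281439542706173 [101, 113, 149, 149, 113, 245, 257]) 475763190137 = true := by
  decide +kernel

end Pool.Agent.Work.MP_122e00_nt.Sharp.Cx

end
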