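import Pool.Agent.Work.MP_122e00_nt.Bd.B03

/-! Bundle of small proof modules (one section per former module). -/

section

set_option autoImplicit false

set_option maxRecDepth 100000

/-!
# The certificate: data
-/

namespace Pool.Agent.Work.MP_122e00_nt.Sharp.Cx

/-- data -/
noncomputable def tr288 : Ct := (.dc 2 3 0 (.ct 0 1 1 1 1 (.dc 0 1 0 (.ct 5 6 1 1 1 (.dc 1 3 0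
  (.ct 4 5 1 1 1 (.lf 2 11 176) (.lf 1 9 176))) (.dc 1 3 1 (.ct 4 5 1 1 1 (.lf 2 9 176) (.ct 4 6
  1 1 1 (.lf 2 9 176) (.lf 1 9 176)))))) (.ct 0 6 1 1 1 (.dc 0 1 0 (.ct 0 5 1 1 1 (.ct 0 4 1 1 1
  (.ct 5 6 1 1 1 (.dc 1 3 0 (.ct 4 5 1 1 1 (.lf 2 10 176) (.lf 1 8 176))) (.dc 1 3 1 (.ct 4 5 1 1
  1 (.lf 2 9 176) (.ct 4 6 1 1 1 (.lf 2 9 176) (.lf 1 9 176))))) (.ct 5 6 1 1 1 (.dc 1 3 0 (.lf 2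
  11 192)) (.dc 1 3 1 (.lf 2 10 192)))) (.dc 1 3 0 (.ct 4 5 1 1 1 (.lf 2 10 224) (.lf 1 9
  208))))) (.dc 0 1 1 (.ct 5 6 1 1 1 (.dc 1 3 0 (.ct 4 5 1 1 1 (.lf 2 12 224) (.lf 1 12 192)))
  (.dc 1 3 1 (.ct 4 5 1 1 1 (.lf 2 12 160) (.ct 4 6 1 1 1 (.lf 2 12 192) (.lf 1 12 176)))))))))

theorem dt288 : le (run cls4 4 tr288 [[1, 0, 0, 0, 1, 0, 0], [3, 3, 2, 1, 3, 1, 1], [1, 1, 1,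
  0, 1, 0, 0], [2, 1, 1, 1, 2, 1, 0], [2, 2, 1, 1, 2, 0, 0], [1, 1, 0, 0, 1, 1, 0], [2, 2, 2, 1,
  3, 1, 1]] 281440616447997 [101, 113, 149, 149, 113, 245, 257]) 302321241033 = true := by
  decide +kernel

/-- data -/
noncomputable def tr289 : Ct := (.dc 1 3 1 (.ct 0 6 1 1 1 (.dc 0 1 0 (.ct 1 3 1 1 1 (.dc 2 3 0
  (.ct 4 5 1 1 1 (.lf 2 10 192) (.lf 1 8 192))) (.dc 2 3 1 (.ct 4 5 1 1 1 (.lf 2 11 192) (.lf 1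
  11 192))))) (.dc 0 1 1 (.ct 1 3 1 1 1 (.dc 2 3 0 (.ct 4 5 1 1 1 (.lf 2 12 176) (.lf 1 12 160)))
  (.dc 2 3 1 (.ct 4 5 1 1 1 (.lf 2 9 176) (.lf 1 9 160)))))))

theorem dt289 : le (run cls4 4 tr289 [[1, 0, 0, 0, 1, 0, 0], [1, 1, 0, 0, 0, 0, 0], [1, 1, 1,
  0, 1, 0, 0], [2, 1, 1, 1, 2, 1, 0], [2, 2, 1, 1, 2, 0, 0], [1, 1, 0, 0, 1, 1, 0], [3, 3, 2, 1,
  3, 1, 1]] 281440616447997 [101, 113, 149, 149, 113, 245, 257]) 92897192037 = true := by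
  decide +kernel

/-- data -/
noncomputable def tr290 : Ct := (.ct 0 6 1 1 1 (.dc 0 9 0 (.ct 1 4 1 1 1 (.dc 1 3 0 (.dc 2 3 0
  (.ct 5 6 1 1 1 (.lf 3 9 176) (.lf 2 11 176)))) (.dc 1 3 1 (.ct 1 5 1 1 1 (.dc 2 3 0 (.ct 1 6 1
  1 1 (.ct 5 6 1 1 1 (.lf 3 9 176) (.lf 2 11 176)) (.lf 2 11 176))) (.dc 2 3 1 (.ct 5 6 1 1 1
  (.lf 3 10 176) (.lf 2 12 192))))))) (.ct 1 4 1 1 1 (.dc 1 3 0 (.dc 2 3 0 (.ct 0 3 1 1 1 (.dc 0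
  9 0 (.lf 1 12 192)) (.dc 0 9 1 (.lf 1 10 176))))) (.dc 1 3 1 (.ct 0 3 1 1 1 (.dc 0 9 0 (.ct 1 5
  1 1 1 (.dc 2 3 0 (.lf 1 11 192)) (.dc 2 3 1 (.lf 1 12 192)))) (.dc 0 9 1 (.ct 1 5 1 1 1 (.dc 2
  3 0 (.lf 1 9 176)) (.dc 2 3 1 (.lf 1 11 176))))))))

theorem dt290 : le (run cls4 4 tr290 [[2, 1, 1, 1, 1, 0, 0], [1, 1, 0, 0, 0, 0, 0], [1, 1, 1,
  0, 1, 0, 0], [2, 2, 2, 1, 1, 1, 1], [2, 2, 2, 1, 3, 1, 1], [1, 1, 1, 1, 1, 1, 0], [1, 1, 1, 0,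
  1, 1, 1]] 281440616447487 [99, 99, 99, 147, 147, 219, 219]) 1285234491896 = true := by
  decide +kernel

end Pool.Agent.Work.MP_122e00_nt.Sharp.Cx

end

section

set_option autoImplicit false

set_option maxRecDepth 100000

/-!
# The certificate: data
-/

namespace Pool.Agent.Work.MP_122e00_nt.Sharp.Cx

/-- data -/
noncomputable def tr291 : Ct := (.ct 1 4 1 1 1 (.dc 1 3 0 (.dc 2 3 0 (.ct 1 3 1 2 1 (.ct 0 6 1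
  1 1 (.dc 0 9 0 (.ct 2 3 1 1 1 (.ct 3 4 2 1 1 (.lf 1 10 192) (.lf 0 8 192)) (.lf 1 9 192))) (.dc
  0 9 1 (.ct 2 3 1 1 1 (.ct 3 4 2 1 1 (.lf 1 8 192) (.lf 0 7 192)) (.lf 1 8 176)))) (.ct 0 6 1 1
  1 (.dc 0 9 0 (.lf 1 11 224)) (.dc 0 9 1 (.lf 1 9 208)))))) (.dc 1 3 1 (.ct 0 6 1 1 1 (.dc 0 9 0
  (.ct 1 5 1 1 1 (.dc 2 3 0 (.ct 2 3 1 1 1 (.ct 3 4 2 1 1 (.lf 1 10 224) (.lf 0 8 192)) (.lf 1 9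
  192))) (.dc 2 3 1 (.ct 2 3 1 1 1 (.ct 3 4 2 1 1 (.lf 1 11 208) (.lf 0 11 176)) (.lf 1 11
  176))))) (.dc 0 9 1 (.ct 1 5 1 1 1 (.dc 2 3 0 (.ct 2 3 1 1 1 (.ct 3 4 2 1 1 (.lf 1 8 208) (.lf
  0 6 176)) (.lf 1 7 176))) (.dc 2 3 1 (.ct 2 3 1 1 1 (.ct 3 4 2 1 1 (.lf 1 11 208) (.lf 0 11
  176)) (.lf 1 11 176))))))))

theorem dt291 : le (run cls4 4 tr291 [[2, 1, 1, 1, 1, 0, 0], [1, 1, 0, 0, 0, 0, 0], [1, 1, 1,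
  0, 1, 0, 0], [1, 1, 1, 1, 0, 0, 0], [2, 2, 2, 1, 3, 1, 1], [1, 1, 1, 1, 1, 1, 0], [2, 2, 2, 1,
  1, 1, 1]] 281440616447487 [99, 99, 99, 147, 147, 219, 219]) 1735267605044 = true := by
  decide +kernel

/-- data -/
noncomputable def tr292 : Ct := (.dc 0 1 0 (.dc 0 9 0 (.ct 1 4 1 1 1 (.dc 1 3 0 (.dc 2 3 0 (.ct
  0 5 1 1 1 (.dc 1 14 1 (.ct 5 6 1 1 1 (.lf 3 10 160) (.lf 2 11 160))) (.dc 1 14 0 (.lf 3 9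
  160))))) (.dc 1 3 1 (.ct 0 5 1 1 1 (.dc 1 14 1 (.ct 0 1 1 1 1 (.ct 1 5 1 1 1 (.dc 2 3 0 (.ct 1
  6 1 1 1 (.ct 5 6 1 1 1 (.lf 3 9 176) (.lf 2 11 176)) (.lf 2 11 176))) (.dc 2 3 1 (.ct 5 6 1 1 1
  (.lf 3 10 176) (.lf 2 12 176)))) (.dc 2 3 0 (.ct 5 6 1 1 1 (.lf 3 10 176) (.lf 2 11 176)))))
  (.dc 1 14 0 (.ct 1 5 1 1 1 (.dc 2 3 0 (.lf 3 9 176)) (.dc 2 3 1 (.lf 3 10 176)))))))))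

theorem dt292 : le (run cls4 4 tr292 [[2, 1, 1, 0, 2, 1, 1], [1, 1, 0, 0, 0, 0, 0], [1, 1, 1,
  0, 1, 0, 0], [3, 2, 2, 1, 2, 1, 1], [2, 2, 2, 1, 3, 1, 1], [1, 1, 1, 1, 1, 1, 0], [1, 1, 1, 0,
  1, 1, 1]] 281439542705661 [71, 95, 95, 143, 119, 203, 203]) 1370087770256 = true := by
  decide +kernel

/-- data -/
noncomputable def tr293 : Ct := (.dc 0 1 0 (.ct 1 4 1 1 1 (.dc 1 3 0 (.dc 2 3 0 (.ct 5 6 1 1 1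
  (.dc 1 14 0 (.ct 0 6 1 1 1 (.lf 3 11 176) (.lf 2 11 176))) (.dc 1 14 1 (.lf 2 11 160))))) (.dc
  1 3 1 (.ct 5 6 1 1 1 (.dc 1 14 0 (.ct 1 5 1 1 1 (.dc 2 3 0 (.ct 0 6 1 1 1 (.lf 3 11 176) (.lf 2
  11 176))) (.ct 0 1 1 1 1 (.dc 2 3 1 (.ct 0 6 1 1 1 (.lf 3 11 192) (.lf 2 12 208))) (.dc 2 3 0
  (.ct 0 6 1 1 1 (.ct 1 6 1 1 1 (.lf 3 10 192) (.lf 2 11 208)) (.lf 2 11 192)))))) (.dc 1 14 1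
  (.ct 0 1 1 1 1 (.ct 1 5 1 1 1 (.dc 2 3 0 (.lf 2 10 192)) (.ct 1 6 1 1 1 (.dc 2 3 0 (.lf 2 9
  192)) (.dc 2 3 1 (.lf 2 12 192)))) (.dc 2 3 0 (.lf 2 10 192))))))))

theorem dt293 : le (run cls4 4 tr293 [[2, 1, 1, 1, 2, 1, 0], [1, 1, 0, 0, 0, 0, 0], [1, 1, 1,
  0, 1, 0, 0], [3, 2, 2, 1, 2, 1, 1], [2, 2, 2, 1, 3, 1, 1], [1, 1, 1, 1, 1, 1, 0], [2, 1, 1, 0,
  2, 1, 1]] 281439542706173 [75, 123, 123, 147, 123, 231, 231]) 1016155134143 = true := by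
  decide +kernel

end Pool.Agent.Work.MP_122e00_nt.Sharp.Cx

end

section

set_option autoImplicit false

set_option maxRecDepth 100000

/-!
# The certificate: data
-/

namespace Pool.Agent.Work.MP_122e00_nt.Sharp.Cx

/-- data -/
noncomputable def tr294 : Ct := (.dc 1 14 0 (.ct 1 4 1 1 1 (.dc 1 3 0 (.dc 2 3 0 (.ct 0 1 1 1 1
  (.dc 0 1 0 (.ct 5 6 1 1 1 (.lf 3 11 176) (.lf 2 11 176))) (.ct 0 3 1 1 1 (.dc 0 1 0 (.ct 5 6 1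
  1 1 (.lf 3 10 176) (.lf 2 11 176))) (.ct 0 4 1 1 1 (.dc 0 1 0 (.ct 5 6 1 1 1 (.lf 3 10 176)
  (.lf 2 11 176))) (.dc 0 1 1 (.ct 5 6 1 1 1 (.lf 3 11 160) (.lf 2 12 160)))))))) (.dc 1 3 1 (.ct
  0 3 1 1 1 (.dc 0 1 0 (.ct 1 5 1 1 1 (.dc 2 3 0 (.ct 1 6 1 1 1 (.ct 5 6 1 1 1 (.lf 3 10 192)
  (.lf 2 11 192)) (.lf 2 11 192))) (.dc 2 3 1 (.ct 5 6 1 1 1 (.lf 3 11 176) (.lf 2 12 192)))))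
  (.ct 0 4 1 1 1 (.dc 0 1 0 (.ct 1 5 1 1 1 (.dc 2 3 0 (.ct 1 6 1 1 1 (.ct 5 6 1 1 1 (.lf 3 10
  192) (.lf 2 11 192)) (.lf 2 11 208))) (.dc 2 3 1 (.ct 5 6 1 1 1 (.lf 3 11 192) (.lf 2 12
  208))))) (.dc 0 1 1 (.ct 1 5 1 1 1 (.dc 2 3 0 (.ct 1 6 1 1 1 (.ct 5 6 1 1 1 (.lf 3 11 192) (.lf
  2 12 192)) (.lf 2 13 208))) (.dc 2 3 1 (.ct 5 6 1 1 1 (.lf 3 9 192) (.lf 2 10 208))))))))))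

theorem dt294 : le (run cls4 4 tr294 [[1, 0, 0, 0, 1, 0, 0], [1, 1, 0, 0, 0, 0, 0], [1, 1, 1,
  0, 1, 0, 0], [3, 2, 2, 1, 2, 1, 1], [2, 2, 2, 1, 3, 1, 1], [2, 1, 1, 1, 2, 1, 0], [2, 1, 1, 0,
  2, 1, 1]] 281439542706173 [75, 123, 123, 147, 123, 231, 231]) 339771196588 = true := by
  decide +kernel

/-- data -/
noncomputable def tr295 : Ct := (.dc 0 9 1 (.ct 0 5 1 1 1 (.dc 0 1 0 (.dc 1 14 1 (.ct 1 4 1 1 1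
  (.dc 1 3 0 (.dc 2 3 0 (.lf 1 10 160))) (.dc 1 3 1 (.ct 0 1 1 1 1 (.ct 1 5 1 1 1 (.dc 2 3 0 (.lf
  1 8 176)) (.dc 2 3 1 (.lf 1 11 176))) (.dc 2 3 0 (.lf 1 9 176))))))) (.dc 1 14 0 (.ct 1 4 1 1 1
  (.dc 1 3 0 (.dc 2 3 0 (.ct 0 1 1 1 1 (.dc 0 1 0 (.lf 1 9 176)) (.ct 0 4 1 1 1 (.dc 0 1 0 (.lf 1
  9 176)) (.ct 0 6 1 1 1 (.dc 0 1 0 (.lf 1 10 176)) (.dc 0 1 1 (.lf 1 12 176))))))) (.dc 1 3 1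
  (.ct 0 4 1 1 1 (.dc 0 1 0 (.ct 1 5 1 1 1 (.dc 2 3 0 (.lf 1 9 192)) (.dc 2 3 1 (.lf 1 11 192))))
  (.ct 0 6 1 1 1 (.dc 0 1 0 (.ct 1 5 1 1 1 (.dc 2 3 0 (.lf 1 9 192)) (.dc 2 3 1 (.lf 1 11 192))))
  (.dc 0 1 1 (.ct 1 5 1 1 1 (.dc 2 3 0 (.lf 1 12 192)) (.dc 2 3 1 (.lf 1 10 192)))))))))))

theorem dt295 : le (run cls4 4 tr295 [[1, 0, 0, 0, 1, 0, 0], [1, 1, 0, 0, 0, 0, 0], [1, 1, 1,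
  0, 1, 0, 0], [2, 1, 1, 1, 1, 0, 0], [2, 2, 2, 1, 3, 1, 1], [1, 1, 1, 1, 1, 1, 0], [3, 2, 2, 1,
  2, 1, 1]] 281439542705661 [71, 95, 95, 143, 119, 203, 203]) 805365696429 = true := by
  decide +kernel

end Pool.Agent.Work.MP_122e00_nt.Sharp.Cx

end

section

set_option autoImplicit false

set_option maxRecDepth 100000

/-!
# The certificate: data
-/

namespace Pool.Agent.Work.MP_122e00_nt.Sharp.Cx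

/-- data -/
noncomputable def tr296 : Ct := (.dc 0 1 0 (.dc 1 14 1 (.dc 2 14 1 (.ct 1 4 1 1 1 (.dc 0 12 1
  (.dc 1 3 0 (.dc 2 3 0 (.ct 1 3 1 1 1 (.ct 2 3 1 1 1 (.ct 3 4 1 1 2 (.lf 1 5 160) (.ct 3 6 2 1 1
  (.lf 1 6 160) (.lf 0 5 144))) (.lf 1 6 128)) (.lf 1 6 128))))) (.dc 0 12 0 (.ct 1 6 1 1 1 (.dc
  1 3 0 (.dc 2 3 0 (.ct 1 3 1 2 1 (.ct 2 3 1 1 1 (.ct 3 4 1 1 1 (.lf 1 6 160) (.ct 3 6 2 1 1 (.lf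
  1 7 192) (.lf 0 5 176))) (.lf 1 6 160)) (.lf 1 8 192)))) (.dc 1 3 1 (.ct 2 3 1 1 1 (.ct 1 5 1 1
  1 (.dc 2 3 0 (.ct 3 4 1 1 1 (.lf 1 6 160) (.ct 3 6 2 1 1 (.lf 1 7 192) (.lf 0 5 160)))) (.dc 2
  3 1 (.ct 3 4 1 1 1 (.lf 1 10 160) (.ct 3 6 2 1 1 (.lf 1 11 192) (.lf 0 11 160))))) (.ct 1 5 1 1
  1 (.dc 2 3 0 (.lf 1 6 160)) (.dc 2 3 1 (.lf 1 10 160)))))))))))

theorem dt296 : le (run cls4 4 tr296 [[2, 1, 1, 1, 1, 0, 0], [1, 1, 0, 0, 0, 0, 0], [1, 1, 1,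
  0, 1, 0, 0], [1, 1, 1, 1, 0, 0, 0], [1, 1, 1, 1, 2, 0, 0], [1, 1, 1, 1, 1, 1, 0], [2, 2, 2, 1,
  3, 1, 1]] 211070798524413 [103, 127, 151, 151, 127, 259, 259]) 326352713252 = true := by
  decide +kernel

/-- data -/
noncomputable def tr297 : Ct := (.dc 2 14 0 (.ct 1 4 1 1 1 (.dc 0 12 1 (.dc 1 3 0 (.dc 2 3 0
  (.ct 0 5 1 1 1 (.dc 0 1 0 (.dc 1 14 1 (.lf 1 7 128))) (.dc 1 14 0 (.ct 0 6 1 1 1 (.dc 0 1 0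
  (.lf 1 6 160)) (.dc 0 1 1 (.lf 1 11 160)))))))) (.dc 0 12 0 (.ct 0 5 1 1 1 (.dc 0 1 0 (.dc 1 14
  1 (.ct 1 6 1 1 1 (.dc 1 3 0 (.dc 2 3 0 (.lf 1 8 160))) (.dc 1 3 1 (.ct 0 1 1 1 1 (.ct 1 5 1 1 1
  (.dc 2 3 0 (.lf 1 7 176)) (.dc 2 3 1 (.lf 1 10 176))) (.dc 2 3 0 (.lf 1 7 176))))))) (.dc 1 14
  0 (.ct 1 6 1 1 1 (.dc 1 3 0 (.dc 2 3 0 (.ct 0 1 1 1 1 (.dc 0 1 0 (.lf 1 7 176)) (.ct 0 6 1 1 1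
  (.dc 0 1 0 (.lf 1 7 176)) (.dc 0 1 1 (.lf 1 11 176)))))) (.dc 1 3 1 (.ct 0 6 1 1 1 (.dc 0 1 0
  (.ct 1 5 1 1 1 (.dc 2 3 0 (.lf 1 7 192)) (.dc 2 3 1 (.lf 1 10 192)))) (.dc 0 1 1 (.ct 1 5 1 1 1
  (.dc 2 3 0 (.lf 1 11 160)) (.dc 2 3 1 (.lf 1 9 160))))))))))))

theorem dt297 : le (run cls4 4 tr297 [[1, 0, 0, 0, 1, 0, 0], [1, 1, 0, 0, 0, 0, 0], [1, 1, 1,
  0, 1, 0, 0], [2, 1, 1, 1, 1, 0, 0], [1, 1, 1, 1, 2, 0, 0], [1, 1, 1, 1, 1, 1, 0], [2, 2, 2, 1,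
  3, 1, 1]] 211070798524413 [103, 127, 151, 151, 127, 259, 259]) 237071566165 = true := by
  decide +kernel

end Pool.Agent.Work.MP_122e00_nt.Sharp.Cx

end

section

set_option autoImplicit false

set_option maxRecDepth 100000

/-!
# The certificate: data
-/

namespace Pool.Agent.Work.MP_122e00_nt.Sharp.Cx

/-- data -/
noncomputable def tr298 : Ct := (.dc 0 1 0 (.dc 0 9 0 (.dc 1 6 1 (.dc 1 14 1 (.ct 0 5 1 2 1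
  (.ct 2 5 1 2 1 (.ct 4 5 1 1 1 (.ct 5 6 1 1 1 (.dc 2 7 1 (.dc 2 15 1 (.ct 3 5 1 1 1 (.lf 3 6
  160) (.ct 3 6 1 1 1 (.lf 3 7 160) (.lf 2 6 160))))) (.dc 2 7 0 (.ct 3 5 1 1 1 (.dc 2 15 0 (.ct
  3 6 1 1 1 (.lf 3 6 176) (.lf 2 5 176))) (.dc 2 15 1 (.ct 3 6 1 1 1 (.ct 5 6 1 1 1 (.lf 3 7 176)
  (.lf 2 7 176)) (.lf 2 6 160)))))) (.dc 2 7 1 (.dc 2 15 1 (.ct 3 6 1 1 1 (.lf 3 9 160) (.lf 2 10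
  160))))) (.dc 2 7 1 (.dc 2 15 1 (.ct 3 6 1 1 1 (.lf 3 8 160) (.lf 2 9 160))))) (.dc 2 7 1 (.dc
  2 15 1 (.ct 3 6 1 1 1 (.lf 3 7 176) (.lf 2 8 192)))))))))

theorem dt298 : le (run cls4 4 tr298 [[3, 2, 2, 0, 2, 1, 0], [1, 1, 0, 0, 1, 1, 0], [2, 2, 2,
  0, 1, 1, 0], [1, 1, 1, 1, 1, 1, 0], [1, 1, 1, 0, 1, 0, 0], [0, 0, 0, 0, 1, 1, 0], [1, 1, 1, 0,
  1, 1, 1]] 140186654604797 [72, 108, 108, 180, 126, 162, 252]) 115427544068 = true := by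
  decide +kernel

/-- data -/
noncomputable def tr299 : Ct := (.dc 0 1 0 (.dc 1 14 1 (.ct 0 6 1 1 1 (.dc 0 9 0 (.ct 0 5 1 1 1
  (.ct 5 6 1 1 1 (.dc 2 7 1 (.dc 2 15 1 (.ct 3 5 1 1 1 (.lf 3 7 176) (.ct 3 6 1 1 1 (.lf 3 8 176)
  (.lf 2 8 176))))) (.dc 2 7 0 (.ct 0 5 1 1 1 (.ct 3 5 1 1 1 (.dc 2 15 0 (.ct 3 6 1 1 1 (.lf 3 7
  192) (.lf 2 6 192))) (.dc 2 15 1 (.ct 3 6 1 1 1 (.ct 5 6 1 1 1 (.lf 3 8 192) (.lf 2 9 192))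
  (.lf 2 8 176)))) (.dc 2 15 1 (.ct 3 6 1 1 1 (.lf 3 7 192) (.lf 2 8 192)))))) (.dc 2 7 1 (.dc 2
  15 1 (.ct 3 6 1 1 1 (.lf 3 7 176) (.lf 2 8 176)))))) (.dc 0 9 1 (.ct 5 6 1 1 1 (.dc 2 7 1 (.dc
  2 15 1 (.lf 2 7 176))) (.dc 2 7 0 (.ct 0 5 1 1 1 (.ct 3 5 1 1 1 (.ct 5 6 1 1 1 (.dc 2 15 1 (.lf
  2 8 208)) (.dc 2 15 0 (.lf 2 5 192))) (.dc 2 15 1 (.lf 2 8 192))) (.dc 2 15 1 (.lf 2 6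
  192)))))))))

theorem dt299 : le (run cls4 4 tr299 [[2, 1, 1, 1, 2, 1, 0], [1, 1, 0, 0, 1, 1, 0], [3, 2, 2,
  0, 4, 3, 0], [1, 1, 1, 1, 1, 1, 0], [1, 1, 1, 0, 2, 1, 0], [0, 0, 0, 0, 1, 1, 0], [1, 1, 1, 0,
  1, 1, 1]] 140186658799101 [72, 108, 108, 180, 126, 162, 252]) 175958772264 = true := by
  decide +kernel

/-- data -/
noncomputable def tr300 : Ct := (.dc 1 14 0 (.ct 3 6 1 1 1 (.ct 0 6 1 1 1 (.dc 0 1 0 (.dc 0 9 0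
  (.ct 0 5 1 1 1 (.ct 5 6 1 1 1 (.dc 2 7 1 (.dc 2 15 1 (.lf 3 6 176))) (.ct 3 5 1 1 1 (.dc 2 7 0
  (.ct 3 5 1 1 1 (.dc 2 15 0 (.lf 3 6 192)) (.dc 2 15 1 (.lf 3 7 208)))) (.dc 2 7 1 (.dc 2 15 1
  (.lf 3 6 192))))) (.dc 2 7 1 (.dc 2 15 1 (.lf 3 7 176)))))) (.dc 0 9 1 (.ct 5 6 1 1 1 (.dc 2 7
  1 (.dc 2 15 1 (.ct 0 3 1 1 1 (.dc 0 1 0 (.lf 3 6 192)) (.dc 0 1 1 (.lf 3 11 192))))) (.ct 3 5 1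
  1 1 (.dc 2 7 0 (.ct 0 3 1 1 1 (.dc 0 1 0 (.ct 0 5 1 1 1 (.ct 3 5 1 1 1 (.dc 2 15 0 (.lf 3 5
  192)) (.dc 2 15 1 (.lf 3 9 208))) (.dc 2 15 1 (.lf 3 7 208)))) (.dc 0 1 1 (.ct 3 5 1 1 1 (.dc 2
  15 0 (.lf 3 10 176)) (.dc 2 15 1 (.lf 3 12 192)))))) (.dc 2 7 1 (.dc 2 15 1 (.ct 0 3 1 1 1 (.dc
  0 1 0 (.lf 3 7 192)) (.ct 0 5 1 1 1 (.dc 0 1 0 (.lf 3 6 208)) (.dc 0 1 1 (.lf 3 11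
  208)))))))))) (.dc 0 9 1 (.ct 5 6 1 1 1 (.dc 2 7 1 (.dc 2 15 1 (.ct 0 5 1 1 1 (.dc 0 1 0 (.lf 2
  7 192)) (.ct 0 6 1 1 1 (.dc 0 1 0 (.lf 2 7 192)) (.dc 0 1 1 (.lf 2 12 192)))))) (.dc 2 7 0 (.ct
  3 5 1 1 1 (.ct 0 6 1 1 1 (.dc 0 1 0 (.ct 0 5 1 1 1 (.ct 5 6 1 1 1 (.dc 2 15 1 (.lf 2 7 208))
  (.dc 2 15 0 (.lf 2 4 192))) (.dc 2 15 1 (.lf 2 7 208)))) (.dc 0 1 1 (.ct 5 6 1 1 1 (.dc 2 15 1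
  (.lf 2 12 192)) (.dc 2 15 0 (.lf 2 10 176))))) (.dc 2 15 1 (.ct 0 6 1 1 1 (.dc 0 1 0 (.lf 2 6
  208)) (.dc 0 1 1 (.lf 2 12 192))))))))))

theorem dt300 : le (run cls4 4 tr300 [[1, 0, 0, 0, 1, 0, 0], [1, 1, 0, 0, 1, 1, 0], [3, 2, 2,
  0, 4, 3, 0], [2, 1, 1, 1, 2, 1, 0], [1, 1, 1, 0, 2, 1, 0], [0, 0, 0, 0, 1, 1, 0], [1, 1, 1, 0,
  1, 1, 1]] 140186658799101 [72, 108, 108, 180, 126, 162, 252]) 25921968507 = true := by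
  decide +kernel

/-- data -/
noncomputable def tr301 : Ct := (.dc 2 7 1 (.dc 2 15 1 (.ct 0 3 1 1 1 (.dc 0 1 0 (.dc 1 14 1
  (.ct 0 6 1 1 1 (.dc 0 9 0 (.ct 3 6 1 1 1 (.lf 3 9 160) (.lf 2 11 160))) (.dc 0 9 1 (.lf 2 11
  160))))) (.dc 1 14 0 (.ct 0 6 1 1 1 (.dc 0 1 0 (.ct 3 6 1 1 1 (.dc 0 9 0 (.lf 3 9 160)) (.dc 0
  9 1 (.ct 0 3 1 1 1 (.lf 2 10 176) (.lf 3 11 176))))) (.dc 0 1 1 (.dc 0 9 1 (.ct 3 6 1 1 1 (.lf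
  3 11 176) (.lf 2 12 176)))))))))

theorem dt301 : le (run cls4 4 tr301 [[1, 0, 0, 0, 1, 0, 0], [1, 1, 0, 0, 1, 1, 0], [3, 2, 2,
  0, 4, 3, 0], [1, 1, 1, 1, 1, 1, 0], [1, 1, 1, 0, 1, 0, 0], [1, 1, 1, 0, 2, 1, 0], [1, 1, 1, 0,
  1, 1, 1]] 140186658799101 [72, 108, 108, 180, 126, 162, 252]) 117436910278 = true := by
  decide +kernel

end Pool.Agent.Work.MP_122e00_nt.Sharp.Cx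

end

section

set_option autoImplicit false

set_option maxRecDepth 100000

/-!
# The certificate: data
-/

namespace Pool.Agent.Work.MP_122e00_nt.Sharp.Cx

/-- data -/
noncomputable def tr302 : Ct := (.dc 2 7 1 (.dc 2 15 1 (.ct 0 3 1 1 1 (.dc 0 1 0 (.dc 1 14 1
  (.ct 0 6 1 1 1 (.dc 0 9 0 (.ct 3 6 1 1 1 (.lf 3 9 176) (.lf 2 10 176))) (.dc 0 9 1 (.lf 2 10
  192))))) (.dc 1 14 0 (.ct 0 6 1 1 1 (.dc 0 1 0 (.ct 3 6 1 1 1 (.dc 0 9 0 (.lf 3 8 176)) (.dc 0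
  9 1 (.ct 0 3 1 1 1 (.lf 2 9 176) (.lf 3 10 176))))) (.dc 0 1 1 (.dc 0 9 1 (.ct 3 6 1 1 1 (.lf 3
  11 176) (.lf 2 12 176)))))))))

theorem dt302 : le (run cls4 4 tr302 [[1, 0, 0, 0, 1, 0, 0], [1, 1, 0, 0, 1, 1, 0], [3, 2, 2,
  0, 2, 1, 0], [1, 1, 1, 1, 1, 1, 0], [1, 1, 1, 0, 1, 0, 0], [3, 2, 2, 0, 4, 3, 0], [1, 1, 1, 0,
  1, 1, 1]] 140186658799101 [72, 108, 108, 180, 126, 162, 252]) 161663397287 = true := by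
  decide +kernel

/-- data -/
noncomputable def tr303 : Ct := (.dc 2 7 1 (.dc 2 11 1 (.dc 2 15 1 (.ct 0 2 1 1 1 (.dc 0 1 0
  (.dc 0 9 0 (.dc 1 6 1 (.dc 1 14 1 (.ct 1 3 1 1 1 (.dc 2 3 0 (.ct 1 6 1 1 1 (.ct 3 6 1 1 1 (.lf
  3 7 176) (.lf 2 8 192)) (.lf 2 8 192))) (.dc 2 3 1 (.ct 3 6 1 1 1 (.lf 3 9 192) (.lf 2 10
  176)))))))) (.dc 1 6 0 (.ct 0 6 1 1 1 (.dc 0 1 0 (.dc 0 9 0 (.ct 0 3 1 1 1 (.dc 1 14 1 (.ct 0 1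
  1 1 1 (.ct 1 3 1 1 1 (.dc 2 3 0 (.ct 1 6 1 1 1 (.ct 3 6 1 1 1 (.lf 3 8 192) (.lf 2 10 192))
  (.lf 2 10 192))) (.dc 2 3 1 (.ct 3 6 1 1 1 (.lf 3 9 192) (.lf 2 11 176)))) (.dc 2 3 0 (.ct 3 6
  1 1 1 (.lf 3 9 192) (.lf 2 10 192))))) (.dc 1 14 0 (.ct 1 3 1 1 1 (.dc 2 3 0 (.lf 3 8 192))
  (.dc 2 3 1 (.lf 3 9 160))))))) (.dc 0 9 1 (.ct 0 3 1 1 1 (.dc 0 1 0 (.ct 3 6 1 1 1 (.dc 1 14 0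
  (.ct 1 3 1 1 1 (.dc 2 3 0 (.ct 0 6 1 1 1 (.lf 3 10 176) (.lf 2 9 176))) (.ct 0 1 1 1 1 (.dc 2 3
  1 (.ct 0 6 1 1 1 (.lf 3 10 176) (.lf 2 11 176))) (.dc 2 3 0 (.ct 0 6 1 1 1 (.ct 1 6 1 1 1 (.lf
  3 9 176) (.lf 2 9 176)) (.lf 2 9 160)))))) (.dc 1 14 1 (.ct 0 1 1 1 1 (.ct 1 3 1 1 1 (.dc 2 3 0
  (.lf 2 8 192)) (.ct 1 6 1 1 1 (.dc 2 3 0 (.lf 2 8 176)) (.dc 2 3 1 (.lf 2 11 160)))) (.dc 2 3 0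
  (.lf 2 9 192)))))) (.dc 0 1 1 (.dc 1 14 0 (.ct 1 3 1 1 1 (.dc 2 3 0 (.ct 1 6 1 1 1 (.ct 3 6 1 1
  1 (.lf 3 11 176) (.lf 2 12 176)) (.lf 2 12 176))) (.dc 2 3 1 (.ct 3 6 1 1 1 (.lf 3 8 176) (.lf
  2 9 160))))))))))))))

theorem dt303 : le (run cls4 4 tr303 [[1, 0, 0, 0, 1, 0, 0], [1, 1, 0, 0, 0, 0, 0], [2, 2, 2,
  0, 1, 1, 0], [1, 1, 1, 1, 1, 1, 0], [1, 1, 1, 0, 1, 0, 0], [1, 1, 0, 0, 1, 1, 0], [1, 1, 1, 0,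
  1, 1, 1]] 131356201844221 [72, 108, 108, 180, 126, 162, 252]) 155548622410 = true := by
  decide +kernel

end Pool.Agent.Work.MP_122e00_nt.Sharp.Cx

end
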