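import Pool.Agent.Work.MP_122e00_nt.Bd.B03

/-! Bundle of small proof modules (one section per former module). -/

section

set_option autoImplicit false

set_option maxRecDepth 100000

/-!
# The certificate: data
-/

namespace Pool.Agent.Work.MP_122e00_nt.Sharp.Cx

/-- data -/
noncomputable def tr304 : Ct := (.dc 0 1 0 (.dc 0 9 0 (.dc 1 6 1 (.dc 1 14 1 (.ct 3 6 1 1 1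
  (.ct 0 3 1 1 1 (.dc 2 14 1 (.ct 1 5 1 1 1 (.dc 2 3 0 (.ct 1 6 1 1 1 (.ct 5 6 1 1 1 (.lf 3 8
  192) (.lf 2 9 192)) (.lf 2 9 192))) (.dc 2 3 1 (.ct 5 6 1 1 1 (.lf 3 10 192) (.lf 2 11 176)))))
  (.dc 2 14 0 (.ct 1 5 1 1 1 (.dc 2 3 0 (.ct 1 6 1 1 1 (.ct 5 6 1 1 1 (.lf 3 7 192) (.lf 2 8
  192)) (.lf 2 8 192))) (.dc 2 3 1 (.ct 5 6 1 1 1 (.lf 3 9 192) (.lf 2 10 176)))))) (.ct 0 3 1 1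
  1 (.dc 2 14 1 (.ct 2 3 1 1 1 (.ct 1 5 1 1 1 (.dc 2 3 0 (.ct 0 3 1 1 1 (.ct 3 4 1 1 1 (.lf 1 6
  176) (.lf 0 6 160)) (.lf 1 7 192))) (.dc 2 3 1 (.ct 0 3 1 1 1 (.ct 3 4 1 1 1 (.lf 1 10 176)
  (.lf 0 10 160)) (.lf 1 10 192)))) (.ct 1 5 1 1 1 (.dc 2 3 0 (.lf 2 7 192)) (.dc 2 3 1 (.lf 2 10
  192))))) (.ct 1 5 1 1 1 (.dc 2 3 0 (.ct 0 6 1 1 1 (.dc 2 14 1 (.lf 2 8 192)) (.dc 2 14 0 (.lf 2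
  6 192)))) (.dc 2 3 1 (.ct 0 6 1 1 1 (.dc 2 14 1 (.lf 2 11 176)) (.dc 2 14 0 (.lf 2 11
  176)))))))))))

theorem dt304 : le (run cls4 4 tr304 [[3, 2, 2, 0, 2, 1, 0], [1, 1, 0, 0, 0, 0, 0], [2, 2, 2,
  0, 1, 1, 0], [1, 1, 1, 1, 0, 0, 0], [1, 1, 1, 0, 1, 0, 0], [1, 1, 1, 1, 1, 1, 0], [1, 1, 1, 0,
  1, 1, 1]] 211070794857981 [79, 127, 127, 199, 175, 211, 259]) 108191252565 = true := by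
  decide +kernel

/-- data -/
noncomputable def tr305 : Ct := (.dc 0 9 0 (.ct 3 6 1 1 1 (.ct 2 3 1 1 1 (.dc 2 14 1 (.ct 1 5 1
  1 1 (.dc 2 3 0 (.ct 1 6 1 1 1 (.ct 5 6 1 1 1 (.lf 3 9 176) (.lf 2 10 176)) (.lf 2 11 192)))
  (.dc 2 3 1 (.ct 5 6 1 1 1 (.lf 3 10 176) (.lf 2 12 192))))) (.dc 2 14 0 (.ct 1 5 1 1 1 (.dc 2 3
  0 (.ct 1 6 1 1 1 (.ct 5 6 1 1 1 (.lf 3 8 176) (.lf 2 9 176)) (.lf 2 10 192))) (.dc 2 3 1 (.ct 5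
  6 1 1 1 (.lf 3 10 176) (.lf 2 11 192)))))) (.ct 2 3 1 1 1 (.dc 2 14 1 (.ct 0 3 1 1 1 (.ct 1 5 1
  1 1 (.dc 2 3 0 (.ct 2 3 1 1 1 (.ct 3 4 1 1 1 (.lf 1 8 176) (.lf 0 8 176)) (.lf 1 8 208))) (.dc
  2 3 1 (.ct 2 3 1 1 1 (.ct 3 4 1 1 1 (.lf 1 11 176) (.lf 0 11 176)) (.lf 1 11 208)))) (.ct 1 5 1
  1 1 (.dc 2 3 0 (.lf 1 9 192)) (.dc 2 3 1 (.lf 1 11 192))))) (.ct 1 5 1 1 1 (.dc 2 3 0 (.ct 2 6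
  1 1 1 (.dc 2 14 1 (.lf 2 9 192)) (.dc 2 14 0 (.lf 2 8 192)))) (.dc 2 3 1 (.ct 2 6 1 1 1 (.dc 2
  14 1 (.lf 2 11 192)) (.dc 2 14 0 (.lf 2 11 192))))))))

theorem dt305 : le (run cls4 4 tr305 [[3, 2, 2, 1, 2, 1, 1], [1, 1, 0, 0, 0, 0, 0], [3, 2, 2,
  0, 2, 1, 0], [1, 1, 1, 1, 0, 0, 0], [1, 1, 1, 0, 1, 0, 0], [1, 1, 1, 1, 1, 1, 0], [1, 1, 1, 0,
  1, 1, 1]] 211071872794111 [93, 129, 129, 201, 189, 213, 273]) 568405992854 = true := by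
  decide +kernel

end Pool.Agent.Work.MP_122e00_nt.Sharp.Cx

end

section

set_option autoImplicit false

set_option maxRecDepth 100000

/-!
# The certificate: data
-/

namespace Pool.Agent.Work.MP_122e00_nt.Sharp.Cx

/-- data -/
noncomputable def tr306 : Ct := (.dc 0 9 1 (.ct 2 3 1 1 1 (.dc 2 14 1 (.ct 2 3 1 1 1 (.ct 1 5 1
  1 1 (.dc 2 3 0 (.ct 3 4 1 1 1 (.lf 1 6 144) (.ct 3 6 1 1 1 (.lf 1 7 160) (.lf 0 6 160)))) (.dc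
  2 3 1 (.ct 3 4 1 1 1 (.lf 1 10 144) (.ct 3 6 1 1 1 (.lf 1 11 160) (.lf 0 11 160))))) (.ct 1 5 1
  1 1 (.dc 2 3 0 (.lf 1 6 176)) (.dc 2 3 1 (.lf 1 10 176))))) (.dc 2 14 0 (.ct 1 5 1 1 1 (.dc 2 3
  0 (.ct 0 2 1 1 1 (.lf 2 7 192) (.lf 1 7 176))) (.dc 2 3 1 (.ct 0 2 1 1 1 (.lf 2 10 192) (.lf 1
  10 176)))))))

theorem dt306 : le (run cls4 4 tr306 [[2, 1, 1, 1, 1, 0, 0], [1, 1, 0, 0, 0, 0, 0], [3, 2, 2,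
  0, 2, 1, 0], [1, 1, 1, 1, 0, 0, 0], [1, 1, 1, 0, 1, 0, 0], [1, 1, 1, 1, 1, 1, 0], [3, 2, 2, 1,
  2, 1, 1]] 211071872794111 [93, 129, 129, 201, 189, 213, 273]) 190718672598 = true := by
  decide +kernel

/-- data -/
noncomputable def tr307 : Ct := (.ct 0 6 1 1 1 (.dc 0 1 0 (.dc 0 9 0 (.ct 0 5 1 1 1 (.dc 1 14 1
  (.ct 0 1 1 1 1 (.ct 1 5 1 1 1 (.dc 2 3 0 (.ct 1 6 1 1 1 (.ct 5 6 1 1 1 (.lf 3 9 192) (.lf 2 10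
  192)) (.lf 2 10 192))) (.dc 2 3 1 (.ct 5 6 1 1 1 (.lf 3 10 192) (.lf 2 11 192)))) (.dc 2 3 0
  (.ct 5 6 1 1 1 (.lf 3 9 192) (.lf 2 10 192))))) (.dc 1 14 0 (.ct 1 5 1 1 1 (.dc 2 3 0 (.lf 3 8
  192)) (.dc 2 3 1 (.lf 3 10 160))))))) (.dc 0 9 1 (.ct 0 5 1 1 1 (.dc 0 1 0 (.ct 5 6 1 1 1 (.dc
  1 14 0 (.ct 1 5 1 1 1 (.dc 2 3 0 (.ct 0 6 1 1 1 (.lf 3 10 192) (.lf 2 10 192))) (.ct 0 1 1 1 1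
  (.dc 2 3 1 (.ct 0 6 1 1 1 (.lf 3 10 176) (.lf 2 11 176))) (.dc 2 3 0 (.ct 0 6 1 1 1 (.ct 1 6 1
  1 1 (.lf 3 9 176) (.lf 2 10 176)) (.lf 2 10 176)))))) (.dc 1 14 1 (.ct 0 1 1 1 1 (.ct 1 5 1 1 1
  (.dc 2 3 0 (.lf 2 9 192)) (.ct 1 6 1 1 1 (.dc 2 3 0 (.lf 2 8 192)) (.dc 2 3 1 (.lf 2 11 176))))
  (.dc 2 3 0 (.lf 2 9 192)))))) (.dc 1 14 0 (.ct 0 3 1 1 1 (.dc 0 1 0 (.ct 1 5 1 1 1 (.dc 2 3 0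
  (.ct 1 6 1 1 1 (.ct 5 6 1 1 1 (.lf 3 9 208) (.lf 2 10 208)) (.lf 2 10 192))) (.dc 2 3 1 (.ct 5
  6 1 1 1 (.lf 3 10 192) (.lf 2 11 192))))) (.dc 0 1 1 (.ct 1 5 1 1 1 (.dc 2 3 0 (.ct 1 6 1 1 1
  (.ct 5 6 1 1 1 (.lf 3 11 208) (.lf 2 12 208)) (.lf 2 12 192))) (.dc 2 3 1 (.ct 5 6 1 1 1 (.lf 3
  9 192) (.lf 2 10 192))))))))))

theorem dt307 : le (run cls4 4 tr307 [[1, 0, 0, 0, 1, 0, 0], [1, 1, 0, 0, 0, 0, 0], [3, 2, 2,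
  0, 2, 1, 0], [3, 2, 2, 1, 2, 1, 1], [1, 1, 1, 0, 1, 0, 0], [1, 1, 1, 1, 1, 1, 0], [1, 1, 1, 0,
  1, 1, 1]] 281439543229949 [79, 127, 127, 199, 175, 211, 259]) 154989203993 = true := by
  decide +kernel

end Pool.Agent.Work.MP_122e00_nt.Sharp.Cx

end

section

set_option autoImplicit false

set_option maxRecDepth 100000

/-!
# The certificate: data
-/

namespace Pool.Agent.Work.MP_122e00_nt.Sharp.Cx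

/-- data -/
noncomputable def tr308 : Ct := (.dc 0 9 1 (.ct 0 5 1 1 1 (.dc 0 1 0 (.dc 1 14 1 (.ct 0 1 1 1 1
  (.ct 1 5 1 1 1 (.dc 2 3 0 (.ct 2 3 1 1 1 (.lf 1 7 160) (.lf 2 7 176))) (.dc 2 3 1 (.ct 2 3 1 1
  1 (.lf 1 10 160) (.lf 2 11 176)))) (.dc 2 3 0 (.ct 2 3 1 1 1 (.lf 1 7 160) (.lf 2 8 176))))))
  (.dc 1 14 0 (.ct 0 6 1 1 1 (.dc 0 1 0 (.ct 1 5 1 1 1 (.dc 2 3 0 (.ct 2 3 1 1 1 (.lf 1 7 192)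
  (.lf 2 8 192))) (.dc 2 3 1 (.ct 2 3 1 1 1 (.lf 1 10 192) (.lf 2 11 192))))) (.dc 0 1 1 (.ct 1 5
  1 1 1 (.dc 2 3 0 (.ct 2 3 1 1 1 (.lf 1 11 192) (.lf 2 12 176))) (.dc 2 3 1 (.ct 2 3 1 1 1 (.lf
  1 9 192) (.lf 2 9 176)))))))))

theorem dt308 : le (run cls4 4 tr308 [[1, 0, 0, 0, 1, 0, 0], [1, 1, 0, 0, 0, 0, 0], [3, 2, 2,
  0, 2, 1, 0], [2, 1, 1, 1, 1, 0, 0], [1, 1, 1, 0, 1, 0, 0], [1, 1, 1, 1, 1, 1, 0], [3, 2, 2, 1,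
  2, 1, 1]] 281439543229949 [79, 127, 127, 199, 175, 211, 259]) 141424637334 = true := by
  decide +kernel

/-- data -/
noncomputable def tr309 : Ct := (.dc 0 1 0 (.dc 0 9 0 (.dc 1 6 1 (.dc 1 14 1 (.dc 2 6 1 (.dc 2
  14 1 (.ct 3 6 1 1 1 (.lf 3 7 160) (.ct 3 5 1 1 1 (.lf 2 7 160) (.ct 0 3 1 1 1 (.ct 3 4 1 1 1
  (.lf 1 8 160) (.lf 0 8 144)) (.lf 1 7 160))))))))))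

theorem dt309 : le (run cls4 4 tr309 [[3, 2, 2, 0, 1, 0, 0], [1, 1, 0, 0, 0, 0, 0], [1, 1, 1,
  0, 0, 0, 0], [1, 1, 1, 1, 0, 0, 0], [1, 1, 1, 0, 1, 0, 0], [2, 2, 2, 0, 1, 1, 0], [1, 1, 1, 0,
  1, 1, 1]] 210830276689405 [87, 159, 159, 255, 231, 267, 267]) 184365447575 = true := by
  decide +kernel

/-- data -/
noncomputable def tr310 : Ct := (.dc 0 1 0 (.dc 0 9 0 (.dc 1 6 1 (.dc 1 14 1 (.ct 3 6 1 1 1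
  (.ct 0 3 1 1 1 (.dc 2 14 1 (.lf 3 8 160)) (.dc 2 14 0 (.lf 3 7 160))) (.ct 0 3 1 1 1 (.dc 2 14
  1 (.ct 3 5 1 1 1 (.lf 2 9 192) (.ct 0 3 1 1 1 (.ct 2 3 1 1 1 (.ct 3 4 1 1 1 (.lf 1 9 176) (.lf
  0 9 160)) (.lf 1 8 176)) (.lf 1 9 192)))) (.ct 0 6 1 1 1 (.dc 2 14 1 (.lf 2 9 176)) (.dc 2 14 0
  (.lf 2 10 176)))))))))

theorem dt310 : le (run cls4 4 tr310 [[3, 2, 2, 0, 2, 1, 0], [1, 1, 0, 0, 0, 0, 0], [3, 2, 2,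
  0, 1, 0, 0], [1, 1, 1, 1, 0, 0, 0], [1, 1, 1, 0, 1, 0, 0], [2, 2, 2, 0, 1, 1, 0], [1, 1, 1, 0,
  1, 1, 1]] 211105154596349 [87, 159, 159, 255, 231, 267, 267]) 42291330645 = true := by
  decide +kernel

end Pool.Agent.Work.MP_122e00_nt.Sharp.Cx

end

section

set_option autoImplicit false

set_option maxRecDepth 100000

/-!
# The certificate: data
-/

namespace Pool.Agent.Work.MP_122e00_nt.Sharp.Cx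

/-- data -/
noncomputable def tr311 : Ct := (.dc 1 6 0 (.ct 0 3 1 1 1 (.dc 0 1 0 (.dc 1 14 1 (.ct 3 5 1 1 1
  (.dc 2 14 0 (.ct 0 6 1 1 1 (.dc 0 9 0 (.ct 3 6 1 1 1 (.lf 3 8 160) (.lf 2 10 192))) (.dc 0 9 1
  (.ct 0 5 1 1 1 (.lf 2 9 192) (.lf 1 9 176))))) (.dc 2 14 1 (.ct 3 6 1 1 1 (.ct 0 6 1 1 1 (.dc 0
  9 0 (.ct 5 6 1 1 1 (.lf 3 9 160) (.lf 2 10 192))) (.ct 0 3 1 1 1 (.dc 0 9 0 (.lf 1 10 192))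
  (.dc 0 9 1 (.lf 1 10 176)))) (.ct 2 3 1 1 1 (.ct 0 6 1 1 1 (.dc 0 9 0 (.ct 3 4 1 1 1 (.lf 1 10
  192) (.ct 3 5 1 1 1 (.lf 1 10 208) (.lf 0 10 176)))) (.dc 0 9 1 (.ct 3 4 1 1 1 (.lf 1 10 176)
  (.ct 3 5 1 1 1 (.lf 1 10 192) (.lf 0 10 160))))) (.ct 0 6 1 1 1 (.dc 0 9 0 (.lf 1 9 192)) (.dc
  0 9 1 (.lf 1 9 176))))))))) (.dc 1 14 0 (.dc 2 14 0 (.ct 3 6 1 1 1 (.ct 0 6 1 1 1 (.dc 0 1 0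
  (.dc 0 9 0 (.lf 3 8 160))) (.dc 0 9 1 (.ct 0 3 1 1 1 (.dc 0 1 0 (.lf 3 9 192)) (.dc 0 1 1 (.lf
  3 7 176))))) (.dc 0 9 1 (.ct 0 6 1 1 1 (.dc 0 1 0 (.ct 3 5 1 1 1 (.lf 2 10 192) (.lf 1 10
  176))) (.dc 0 1 1 (.ct 3 5 1 1 1 (.lf 2 8 176) (.lf 1 8 176))))))))))

theorem dt311 : le (run cls4 4 tr311 [[1, 0, 0, 0, 1, 0, 0], [1, 1, 0, 0, 0, 0, 0], [3, 2, 2,
  0, 1, 0, 0], [1, 1, 1, 1, 0, 0, 0], [1, 1, 1, 0, 1, 0, 0], [3, 2, 2, 0, 2, 1, 0], [1, 1, 1, 0,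
  1, 1, 1]] 211105154596349 [87, 159, 159, 255, 231, 267, 267]) 79656670339 = true := by
  decide +kernel

end Pool.Agent.Work.MP_122e00_nt.Sharp.Cx

end

section

set_option autoImplicit false

set_option maxRecDepth 100000

/-!
# The certificate: data
-/

namespace Pool.Agent.Work.MP_122e00_nt.Sharp.Cx

/-- data -/
noncomputable def tr312 : Ct := (.dc 1 3 0 (.dc 1 11 0 (.dc 2 3 0 (.dc 2 11 0 (.ct 4 6 1 2 1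
  (.dc 0 1 0 (.dc 0 3 0 (.dc 0 5 0 (.dc 0 9 0 (.dc 0 11 0 (.dc 0 13 0 (.ct 2 6 1 2 1 (.dc 0 7 0
  (.dc 1 7 0 (.dc 2 7 0 (.ct 3 6 1 2 1 (.dc 0 15 0 (.dc 1 15 0 (.dc 2 15 0 (.lf 3 0 112)))) (.dc
  0 15 1 (.ct 3 4 1 1 1 (.dc 1 15 0 (.dc 2 15 0 (.lf 3 11 144))) (.dc 1 15 1 (.ct 3 5 1 1 1 (.dc
  2 15 0 (.lf 3 10 144)) (.dc 2 15 1 (.lf 3 10 176)))))))))) (.dc 0 7 1 (.dc 0 15 1 (.ct 2 4 1 1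
  1 (.dc 1 7 0 (.dc 2 7 0 (.ct 3 4 1 1 1 (.dc 1 15 0 (.dc 2 15 0 (.lf 3 12 160))) (.dc 1 15 1
  (.ct 3 5 1 1 1 (.dc 2 15 0 (.lf 3 9 160)) (.dc 2 15 1 (.lf 3 8 192))))))) (.dc 1 7 1 (.dc 1 15
  1 (.ct 2 5 1 1 1 (.dc 2 7 0 (.ct 3 5 1 1 1 (.dc 2 15 0 (.lf 3 12 160)) (.dc 2 15 1 (.lf 3 11
  176)))) (.dc 2 7 1 (.dc 2 15 1 (.lf 3 11 176)))))))))))))))) (.dc 0 7 1 (.dc 0 11 1 (.dc 0 15 1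
  (.ct 1 4 1 1 1 (.dc 0 13 1 (.ct 2 6 1 1 1 (.dc 1 7 0 (.dc 2 7 0 (.ct 3 4 1 1 1 (.dc 0 3 1 (.dc
  0 5 1 (.ct 2 4 1 1 1 (.dc 0 9 1 (.ct 3 6 1 1 1 (.dc 1 15 0 (.dc 2 15 0 (.ct 3 4 1 1 1 (.dc 0 1
  1 (.lf 3 11 176)) (.dc 0 1 0 (.lf 3 8 176))))) (.dc 1 15 1 (.ct 4 6 1 1 1 (.dc 0 1 0 (.ct 3 5 1
  1 1 (.dc 2 15 0 (.lf 3 7 208)) (.dc 2 15 1 (.lf 3 6 224)))) (.ct 3 4 1 1 1 (.dc 0 1 1 (.ct 3 5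
  1 1 1 (.dc 2 15 0 (.lf 3 11 176)) (.dc 2 15 1 (.lf 3 12 208)))) (.dc 0 1 0 (.ct 3 5 1 1 1 (.ct
  4 5 1 1 1 (.dc 2 15 0 (.lf 3 8 208)) (.dc 2 15 1 (.lf 3 7 208))) (.dc 2 15 1 (.lf 3 8
  224))))))))) (.dc 0 1 0 (.dc 0 9 0 (.ct 3 6 1 1 1 (.dc 1 15 0 (.dc 2 15 0 (.lf 3 10 176))) (.dc
  1 15 1 (.ct 3 5 1 1 1 (.dc 2 15 0 (.lf 3 9 176)) (.dc 2 15 1 (.lf 3 7 192)))))))))) (.dc 0 1 0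
  (.dc 0 5 0 (.dc 0 9 0 (.ct 4 6 1 1 1 (.ct 3 6 1 1 1 (.dc 1 15 0 (.dc 2 15 0 (.ct 1 3 1 1 1 (.dc
  0 3 0 (.lf 3 9 192)) (.dc 0 3 1 (.lf 3 11 160))))) (.dc 1 15 1 (.ct 1 6 1 1 1 (.dc 0 3 0 (.ct 3
  5 1 1 1 (.dc 2 15 0 (.lf 3 9 176)) (.dc 2 15 1 (.lf 3 8 176)))) (.ct 1 3 1 1 1 (.dc 0 3 0 (.ct
  1 5 1 1 1 (.ct 3 5 1 1 1 (.dc 2 15 0 (.lf 3 8 192)) (.dc 2 15 1 (.lf 3 6 192))) (.dc 2 15 1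
  (.lf 3 5 192)))) (.dc 0 3 1 (.ct 3 5 1 1 1 (.dc 2 15 0 (.lf 3 10 192)) (.dc 2 15 1 (.lf 3 10
  192)))))))) (.dc 1 15 1 (.ct 4 5 1 1 1 (.ct 1 3 1 1 1 (.dc 0 3 0 (.ct 1 5 1 1 1 (.ct 3 5 1 1 1
  (.dc 2 15 0 (.lf 3 9 192)) (.dc 2 15 1 (.lf 3 8 192))) (.dc 2 15 1 (.lf 3 7 192)))) (.dc 0 3 1
  (.ct 3 5 1 1 1 (.dc 2 15 0 (.lf 3 9 192)) (.dc 2 15 1 (.lf 3 8 192))))) (.dc 2 15 1 (.ct 1 3 1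
  1 1 (.dc 0 3 0 (.lf 3 8 160)) (.dc 0 3 1 (.lf 3 7 176))))))))))))) (.dc 1 7 1 (.dc 1 15 1 (.ct
  3 4 1 1 1 (.dc 0 3 1 (.dc 0 5 1 (.ct 4 6 1 1 1 (.dc 0 1 0 (.dc 0 9 0 (.ct 2 5 1 1 1 (.dc 2 7 0
  (.ct 3 5 1 1 1 (.dc 2 15 0 (.lf 3 8 176)) (.dc 2 15 1 (.lf 3 7 192)))) (.dc 2 7 1 (.dc 2 15 1
  (.lf 3 7 192)))))) (.ct 2 4 1 1 1 (.dc 0 9 1 (.ct 2 5 1 1 1 (.dc 2 7 0 (.ct 3 4 1 1 1 (.dc 0 1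
  1 (.ct 3 5 1 1 1 (.dc 2 15 0 (.lf 3 11 144)) (.dc 2 15 1 (.lf 3 12 176)))) (.dc 0 1 0 (.ct 3 5
  1 1 1 (.ct 4 5 1 1 1 (.dc 2 15 0 (.lf 3 8 176)) (.dc 2 15 1 (.lf 3 6 176))) (.dc 2 15 1 (.lf 3
  7 192)))))) (.dc 2 7 1 (.dc 2 15 1 (.ct 3 4 1 1 1 (.dc 0 1 1 (.lf 3 11 176)) (.dc 0 1 0 (.lf 3
  8 192))))))) (.dc 0 1 0 (.dc 0 9 0 (.ct 2 5 1 1 1 (.ct 4 5 1 1 1 (.dc 2 7 0 (.ct 3 5 1 1 1 (.dc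
  2 15 0 (.lf 3 10 176)) (.dc 2 15 1 (.lf 3 9 192)))) (.dc 2 7 1 (.dc 2 15 1 (.lf 3 9 160))))
  (.dc 2 7 1 (.dc 2 15 1 (.lf 3 10 160)))))))))) (.dc 0 1 0 (.dc 0 5 0 (.dc 0 9 0 (.ct 2 5 1 1 1
  (.dc 2 7 0 (.ct 4 5 1 1 1 (.ct 1 3 1 1 1 (.dc 0 3 0 (.ct 1 5 1 1 1 (.ct 3 5 1 1 1 (.dc 2 15 0
  (.lf 3 9 192)) (.dc 2 15 1 (.lf 3 9 208))) (.dc 2 15 1 (.lf 3 8 192)))) (.dc 0 3 1 (.ct 3 5 1 1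
  1 (.dc 2 15 0 (.lf 3 8 192)) (.dc 2 15 1 (.lf 3 8 192))))) (.dc 2 15 1 (.ct 1 3 1 1 1 (.dc 0 3
  0 (.lf 3 7 176)) (.dc 0 3 1 (.lf 3 6 176)))))) (.dc 2 7 1 (.dc 2 15 1 (.ct 1 3 1 1 1 (.dc 0 3 0
  (.lf 3 10 176)) (.dc 0 3 1 (.lf 3 9 176)))))))))))))) (.dc 0 1 0 (.dc 0 5 0 (.dc 0 9 0 (.dc 0
  13 0 (.ct 2 6 1 1 1 (.dc 1 7 0 (.dc 2 7 0 (.ct 3 6 1 1 1 (.dc 1 15 0 (.dc 2 15 0 (.ct 3 4 1 1 1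
  (.dc 0 3 1 (.lf 3 11 160)) (.dc 0 3 0 (.lf 3 9 160))))) (.dc 1 15 1 (.ct 4 6 1 1 1 (.dc 0 3 0
  (.ct 3 5 1 1 1 (.dc 2 15 0 (.lf 3 8 176)) (.dc 2 15 1 (.lf 3 7 192)))) (.ct 3 4 1 1 1 (.dc 0 3
  1 (.ct 3 5 1 1 1 (.dc 2 15 0 (.lf 3 11 192)) (.dc 2 15 1 (.lf 3 10 192)))) (.dc 0 3 0 (.ct 3 5
  1 1 1 (.ct 4 5 1 1 1 (.dc 2 15 0 (.lf 3 8 192)) (.dc 2 15 1 (.lf 3 8 208))) (.dc 2 15 1 (.lf 3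
  8 176)))))))))) (.dc 1 7 1 (.dc 1 15 1 (.ct 2 5 1 1 1 (.dc 2 7 0 (.ct 3 4 1 1 1 (.dc 0 3 1 (.ct
  3 5 1 1 1 (.dc 2 15 0 (.lf 3 10 192)) (.dc 2 15 1 (.lf 3 9 192)))) (.dc 0 3 0 (.ct 3 5 1 1 1
  (.ct 4 5 1 1 1 (.dc 2 15 0 (.lf 3 11 192)) (.dc 2 15 1 (.lf 3 10 208))) (.dc 2 15 1 (.lf 3 10
  176)))))) (.dc 2 7 1 (.dc 2 15 1 (.ct 3 4 1 1 1 (.dc 0 3 1 (.lf 3 10 176)) (.dc 0 3 0 (.lf 3 11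
  176))))))))))))))))))))))

theorem dt312 : le (run cls4 4 tr312 [[1, 0, 0, 0, 1, 1, 1], [1, 1, 0, 0, 2, 2, 2], [1, 1, 1,
  0, 1, 1, 1], [1, 1, 1, 1, 2, 2, 2], [1, 0, 0, 0, 1, 0, 0], [0, 0, 0, 0, 1, 1, 0], [0, 0, 0, 0,
  1, 1, 1]] 131354989122901 [0, 0, 0, 0, 0, 0, 0]) 1128556610352 = true := by decide +kernel

/-- data -/
noncomputable def tr313 : Ct := (.dc 0 1 0 (.dc 0 5 0 (.dc 0 9 0 (.dc 0 13 0 (.ct 1 5 1 1 1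
  (.dc 2 3 0 (.dc 2 11 0 (.ct 2 5 1 1 1 (.dc 2 7 0 (.ct 1 3 1 1 1 (.dc 1 3 0 (.ct 1 5 1 1 1 (.ct
  3 4 1 1 1 (.dc 0 3 1 (.ct 3 5 1 1 1 (.dc 2 15 0 (.lf 3 8 176)) (.dc 2 15 1 (.lf 3 8 176))))
  (.dc 0 3 0 (.ct 3 5 1 1 1 (.ct 4 5 1 1 1 (.dc 2 15 0 (.lf 3 9 176)) (.dc 2 15 1 (.lf 3 8 192)))
  (.dc 2 15 1 (.lf 3 8 160))))) (.dc 2 15 1 (.ct 3 4 1 1 1 (.dc 0 3 1 (.lf 3 6 176)) (.dc 0 3 0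
  (.lf 3 8 176)))))) (.dc 0 3 1 (.dc 1 3 1 (.ct 3 5 1 1 1 (.dc 2 15 0 (.lf 3 11 144)) (.dc 2 15 1
  (.lf 3 11 176))))))) (.dc 2 7 1 (.dc 2 15 1 (.ct 1 3 1 1 1 (.dc 1 3 0 (.ct 3 4 1 1 1 (.dc 0 3 1
  (.lf 3 8 176)) (.dc 0 3 0 (.lf 3 10 176)))) (.dc 0 3 1 (.dc 1 3 1 (.lf 3 11 176))))))))) (.dc 2
  7 1 (.dc 2 11 1 (.dc 2 15 1 (.ct 1 3 1 1 1 (.dc 2 3 0 (.ct 3 5 1 1 1 (.dc 0 3 1 (.dc 1 3 1 (.lf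
  3 11 176))) (.dc 1 3 0 (.ct 3 4 1 1 1 (.dc 0 3 1 (.lf 3 7 176)) (.dc 0 3 0 (.lf 3 8 176))))))
  (.dc 0 3 1 (.dc 1 3 1 (.dc 2 3 1 (.lf 3 10 160)))))))))))))

theorem dt313 : le (run cls4 4 tr313 [[1, 0, 0, 0, 1, 1, 1], [1, 1, 0, 0, 0, 0, 0], [1, 1, 1,
  0, 1, 1, 1], [1, 1, 1, 1, 2, 2, 2], [2, 1, 0, 0, 3, 2, 2], [0, 0, 0, 0, 1, 1, 0], [1, 1, 0, 0,
  2, 2, 2]] 131357279247829 [10, 10, 34, 34, 40, 40, 70]) 646264807804 = true := by decide +kernel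

/-- data -/
noncomputable def tr314 : Ct := (.dc 0 13 1 (.ct 1 5 1 1 1 (.dc 2 3 0 (.dc 2 11 0 (.ct 3 4 1 1
  1 (.dc 0 3 1 (.dc 0 5 1 (.ct 2 4 1 1 1 (.dc 0 9 1 (.ct 2 5 1 1 1 (.dc 2 7 0 (.ct 3 4 1 1 1 (.dc
  0 1 1 (.ct 1 3 1 1 1 (.dc 1 3 0 (.ct 1 5 1 1 1 (.ct 3 5 1 1 1 (.dc 2 15 0 (.lf 3 11 144)) (.dc
  2 15 1 (.lf 3 12 176))) (.dc 2 15 1 (.lf 3 12 192)))) (.dc 1 3 1 (.ct 3 5 1 1 1 (.dc 2 15 0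
  (.lf 3 11 128)) (.dc 2 15 1 (.lf 3 11 160)))))) (.dc 0 1 0 (.ct 1 3 1 1 1 (.dc 1 3 0 (.ct 1 5 1
  1 1 (.ct 3 5 1 1 1 (.ct 4 5 1 1 1 (.dc 2 15 0 (.lf 3 8 208)) (.dc 2 15 1 (.lf 3 6 208))) (.dc 2
  15 1 (.lf 3 7 192))) (.dc 2 15 1 (.lf 3 6 208)))) (.ct 3 5 1 1 1 (.ct 1 4 1 1 1 (.dc 1 3 0 (.ct
  1 5 1 1 1 (.ct 4 5 1 1 1 (.dc 2 15 0 (.lf 3 6 176)) (.dc 2 15 1 (.lf 3 4 208))) (.dc 2 15 1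
  (.lf 3 5 192)))) (.dc 1 3 1 (.ct 4 5 1 1 1 (.dc 2 15 0 (.lf 3 10 160)) (.dc 2 15 1 (.lf 3 9
  160))))) (.dc 2 15 1 (.ct 1 4 1 1 1 (.dc 1 3 0 (.lf 3 6 208)) (.dc 1 3 1 (.lf 3 9 176)))))))))
  (.dc 2 7 1 (.dc 2 15 1 (.ct 3 4 1 1 1 (.dc 0 1 1 (.ct 1 3 1 1 1 (.dc 1 3 0 (.lf 3 11 192)) (.dc
  1 3 1 (.lf 3 11 176)))) (.dc 0 1 0 (.ct 1 3 1 1 1 (.dc 1 3 0 (.lf 3 8 192)) (.ct 1 4 1 1 1 (.dc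
  1 3 0 (.lf 3 6 208)) (.dc 1 3 1 (.lf 3 8 176)))))))))) (.dc 0 1 0 (.dc 0 9 0 (.ct 2 5 1 1 1
  (.ct 4 5 1 1 1 (.dc 2 7 0 (.ct 1 3 1 1 1 (.dc 1 3 0 (.ct 1 5 1 1 1 (.ct 3 5 1 1 1 (.dc 2 15 0
  (.lf 3 9 192)) (.dc 2 15 1 (.lf 3 9 192))) (.dc 2 15 1 (.lf 3 8 176)))) (.dc 1 3 1 (.ct 3 5 1 1
  1 (.dc 2 15 0 (.lf 3 10 176)) (.dc 2 15 1 (.lf 3 10 176)))))) (.dc 2 7 1 (.dc 2 15 1 (.ct 1 3 1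
  1 1 (.dc 1 3 0 (.lf 3 9 160)) (.dc 1 3 1 (.lf 3 9 144)))))) (.dc 2 7 1 (.dc 2 15 1 (.ct 1 3 1 1
  1 (.dc 1 3 0 (.lf 3 9 160)) (.dc 1 3 1 (.lf 3 9 160))))))))))) (.dc 0 1 0 (.dc 0 5 0 (.dc 0 9 0
  (.ct 2 5 1 1 1 (.dc 2 7 0 (.ct 1 3 1 1 1 (.dc 1 3 0 (.ct 1 5 1 1 1 (.ct 4 5 1 1 1 (.ct 3 6 1 1
  1 (.dc 0 3 1 (.ct 3 5 1 1 1 (.dc 2 15 0 (.lf 3 7 208)) (.dc 2 15 1 (.lf 3 6 208)))) (.dc 0 3 0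
  (.ct 3 5 1 1 1 (.ct 5 6 1 1 1 (.dc 2 15 1 (.lf 3 7 224)) (.dc 2 15 0 (.lf 3 7 192))) (.dc 2 15
  1 (.lf 3 7 192))))) (.dc 2 15 1 (.ct 3 6 1 1 1 (.dc 0 3 1 (.lf 3 5 192)) (.dc 0 3 0 (.lf 3 6
  192))))) (.dc 2 15 1 (.ct 3 6 1 1 1 (.dc 0 3 1 (.lf 3 4 192)) (.dc 0 3 0 (.lf 3 6 192))))))
  (.dc 0 3 1 (.ct 3 5 1 1 1 (.ct 1 4 1 1 1 (.dc 1 3 0 (.ct 1 5 1 1 1 (.ct 4 5 1 1 1 (.dc 2 15 0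
  (.lf 3 7 208)) (.dc 2 15 1 (.lf 3 6 208))) (.dc 2 15 1 (.lf 3 6 176)))) (.dc 1 3 1 (.ct 4 5 1 1
  1 (.dc 2 15 0 (.lf 3 11 176)) (.dc 2 15 1 (.lf 3 11 176))))) (.dc 2 15 1 (.ct 1 4 1 1 1 (.dc 1
  3 0 (.lf 3 7 192)) (.dc 1 3 1 (.lf 3 11 176)))))))) (.dc 2 7 1 (.dc 2 15 1 (.ct 1 3 1 1 1 (.dc
  1 3 0 (.ct 3 6 1 1 1 (.dc 0 3 1 (.lf 3 8 176)) (.dc 0 3 0 (.lf 3 9 176)))) (.dc 0 3 1 (.ct 1 4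
  1 1 1 (.dc 1 3 0 (.lf 3 6 192)) (.dc 1 3 1 (.lf 3 11 192)))))))))))))) (.dc 2 7 1 (.dc 2 11 1
  (.dc 2 15 1 (.ct 3 4 1 1 1 (.dc 0 3 1 (.dc 0 5 1 (.ct 2 4 1 1 1 (.dc 0 9 1 (.ct 1 3 1 1 1 (.dc
  2 3 0 (.ct 1 4 1 1 1 (.ct 3 4 1 1 1 (.dc 0 1 1 (.ct 3 5 1 1 1 (.dc 1 3 1 (.lf 3 11 176)) (.dc 1
  3 0 (.lf 3 11 208)))) (.dc 0 1 0 (.ct 3 5 1 1 1 (.ct 4 5 1 1 1 (.dc 1 3 1 (.lf 3 8 176)) (.dc 1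
  3 0 (.lf 3 6 208))) (.dc 1 3 0 (.lf 3 7 192))))) (.dc 0 1 0 (.ct 3 5 1 1 1 (.dc 1 3 1 (.lf 3 8
  176)) (.dc 1 3 0 (.lf 3 7 192)))))) (.dc 1 3 1 (.dc 2 3 1 (.ct 3 4 1 1 1 (.dc 0 1 1 (.lf 3 8
  160)) (.dc 0 1 0 (.lf 3 10 176))))))) (.dc 0 1 0 (.dc 0 9 0 (.ct 1 3 1 1 1 (.dc 2 3 0 (.ct 3 5
  1 1 1 (.dc 1 3 1 (.lf 3 9 192)) (.dc 1 3 0 (.lf 3 8 192)))) (.dc 1 3 1 (.dc 2 3 1 (.lf 3 10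
  176))))))))) (.dc 0 1 0 (.dc 0 5 0 (.dc 0 9 0 (.ct 1 3 1 1 1 (.dc 2 3 0 (.ct 3 5 1 1 1 (.dc 0 3
  1 (.ct 4 5 1 1 1 (.dc 1 3 1 (.lf 3 10 192)) (.dc 1 3 0 (.lf 3 5 192)))) (.dc 1 3 0 (.ct 3 6 1 1
  1 (.dc 0 3 1 (.lf 3 6 176)) (.dc 0 3 0 (.lf 3 7 176)))))) (.dc 0 3 1 (.ct 1 4 1 1 1 (.dc 2 3 0
  (.ct 4 5 1 1 1 (.dc 1 3 1 (.lf 3 10 192)) (.dc 1 3 0 (.lf 3 6 192)))) (.dc 1 3 1 (.dc 2 3 1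
  (.lf 3 10 176)))))))))))))))

theorem dt314 : le (run cls4 4 tr314 [[1, 0, 0, 0, 1, 1, 1], [1, 1, 0, 0, 0, 0, 0], [1, 1, 1,
  0, 1, 1, 1], [1, 1, 1, 1, 2, 2, 2], [1, 0, 0, 0, 1, 0, 0], [0, 0, 0, 0, 1, 1, 0], [2, 1, 0, 0,
  3, 2, 2]] 131357279247829 [10, 10, 34, 34, 40, 40, 70]) 316139388783 = true := by decide +kernel

end Pool.Agent.Work.MP_122e00_nt.Sharp.Cx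

end

section

set_option autoImplicit false

set_option maxRecDepth 100000

/-!
# The certificate: data
-/

namespace Pool.Agent.Work.MP_122e00_nt.Sharp.Cx

/-- data -/
noncomputable def tr315 : Ct := (.dc 1 14 0 (.ct 1 6 1 1 1 (.dc 0 3 0 (.dc 1 3 0 (.ct 0 5 1 1 1
  (.ct 1 5 1 1 1 (.ct 3 5 1 2 1 (.ct 4 5 1 1 1 (.ct 5 6 1 1 1 (.dc 2 15 1 (.lf 3 8 224)) (.dc 2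
  15 0 (.lf 3 7 192))) (.dc 2 15 1 (.lf 3 8 224))) (.dc 2 15 1 (.lf 3 7 208))) (.dc 2 15 1 (.lf 3
  8 208))) (.dc 2 15 1 (.lf 3 7 192))))) (.dc 0 3 1 (.ct 0 5 1 1 1 (.ct 5 6 1 1 1 (.dc 2 15 1
  (.ct 1 3 1 1 1 (.dc 1 3 0 (.lf 3 9 208)) (.ct 1 4 1 1 1 (.dc 1 3 0 (.lf 3 10 192)) (.dc 1 3 1
  (.lf 3 12 208))))) (.ct 1 3 1 1 1 (.dc 1 3 0 (.ct 1 5 1 2 1 (.ct 3 5 1 2 1 (.ct 4 5 1 1 1 (.dc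
  2 15 0 (.lf 3 6 240)) (.dc 2 15 1 (.lf 3 9 240))) (.dc 2 15 1 (.lf 3 8 224))) (.dc 2 15 1 (.lf
  3 8 224)))) (.ct 3 5 1 2 1 (.ct 1 4 1 1 1 (.dc 1 3 0 (.ct 1 5 1 1 1 (.ct 4 5 1 1 1 (.dc 2 15 0
  (.lf 3 6 224)) (.dc 2 15 1 (.lf 3 9 224))) (.dc 2 15 1 (.lf 3 8 192)))) (.dc 1 3 1 (.ct 4 5 1 1
  1 (.dc 2 15 0 (.lf 3 11 192)) (.dc 2 15 1 (.lf 3 12 192))))) (.dc 2 15 1 (.ct 1 4 1 1 1 (.dc 1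
  3 0 (.lf 3 9 208)) (.dc 1 3 1 (.lf 3 12 208))))))) (.dc 2 15 1 (.ct 1 3 1 1 1 (.dc 1 3 0 (.lf 3
  8 224)) (.ct 1 4 1 1 1 (.dc 1 3 0 (.lf 3 8 224)) (.dc 1 3 1 (.lf 3 11 224)))))))))

theorem dt315 : le (run cls4 4 tr315 [[2, 1, 1, 1, 2, 2, 1], [1, 1, 0, 0, 1, 1, 0], [1, 1, 1,
  0, 2, 2, 1], [3, 2, 2, 2, 4, 3, 2], [2, 1, 1, 1, 3, 2, 2], [0, 0, 0, 0, 1, 1, 0], [1, 1, 1, 1,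
  2, 2, 2]] 140736414089207 [28, 40, 40, 40, 58, 70, 112]) 4336436941834 = true := by
  decide +kernel

/-- data -/
noncomputable def tr316 : Ct := (.dc 0 3 0 (.dc 1 3 0 (.ct 0 5 1 1 1 (.ct 4 5 1 2 1 (.ct 1 3 1
  1 1 (.ct 1 5 1 2 1 (.ct 3 6 1 1 1 (.ct 3 5 1 2 1 (.ct 5 6 1 1 1 (.dc 2 15 1 (.lf 3 6 192)) (.dc
  2 15 0 (.lf 3 5 192))) (.dc 2 15 1 (.lf 3 6 192))) (.ct 5 6 2 1 1 (.dc 2 15 1 (.ct 2 3 1 1 1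
  (.lf 2 11 224) (.lf 3 8 224))) (.ct 3 5 1 1 1 (.dc 2 15 0 (.ct 2 3 1 1 1 (.lf 2 7 192) (.lf 3 5
  192))) (.dc 2 15 1 (.ct 2 3 1 1 1 (.lf 2 10 208) (.ct 2 5 1 1 1 (.lf 2 10 224) (.lf 3 8
  224))))))) (.dc 2 15 1 (.ct 2 3 1 1 1 (.ct 3 6 1 1 1 (.lf 3 6 224) (.lf 2 11 224)) (.lf 3 7
  208)))) (.ct 1 5 1 1 1 (.ct 3 5 1 2 1 (.ct 5 6 1 1 1 (.dc 2 15 1 (.lf 3 7 192)) (.dc 2 15 0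
  (.lf 3 6 176))) (.dc 2 15 1 (.lf 3 7 192))) (.dc 2 15 1 (.lf 3 8 224)))) (.dc 2 15 1 (.ct 1 3 1
  1 1 (.ct 2 3 1 1 1 (.ct 3 6 1 1 1 (.lf 3 6 240) (.lf 2 11 240)) (.lf 3 6 224)) (.lf 3 6 224))))
  (.dc 2 15 1 (.ct 1 3 1 1 1 (.ct 2 3 1 1 1 (.ct 3 6 1 1 1 (.lf 3 5 208) (.lf 2 11 208)) (.lf 3 6
  192)) (.lf 3 6 192))))))

theorem dt316 : le (run cls4 4 tr316 [[2, 1, 1, 1, 2, 2, 1], [2, 2, 1, 1, 3, 3, 2], [1, 1, 1,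
  0, 2, 2, 1], [1, 1, 1, 1, 1, 1, 0], [3, 2, 2, 2, 4, 3, 2], [0, 0, 0, 0, 1, 1, 0], [1, 1, 1, 1,
  2, 2, 2]] 140737487831031 [42, 42, 42, 42, 72, 72, 126]) 14615187425402 = true := by
  decide +kernel

/-- data -/
noncomputable def tr317 : Ct := (.dc 0 3 1 (.ct 0 5 1 1 1 (.ct 4 5 1 2 1 (.ct 1 4 1 1 1 (.dc 1
  3 0 (.ct 3 6 1 1 1 (.ct 3 5 1 2 1 (.ct 5 6 1 1 1 (.dc 2 15 1 (.lf 3 8 240)) (.dc 2 15 0 (.lf 3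
  5 208))) (.dc 2 15 1 (.lf 3 7 240))) (.ct 5 6 2 1 1 (.dc 2 15 1 (.ct 2 3 1 1 1 (.lf 2 11 240)
  (.lf 3 7 240))) (.ct 3 5 1 1 1 (.dc 2 15 0 (.ct 2 3 1 1 1 (.lf 2 7 208) (.lf 3 4 208))) (.dc 2
  15 1 (.ct 2 3 1 1 1 (.lf 2 10 224) (.ct 2 5 1 1 1 (.lf 2 10 240) (.lf 3 7 240)))))))) (.dc 1 3
  1 (.ct 3 6 1 1 1 (.ct 3 5 1 2 1 (.ct 5 6 1 1 1 (.dc 2 15 1 (.lf 3 12 208)) (.dc 2 15 0 (.lf 3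
  11 176))) (.dc 2 15 1 (.lf 3 12 208))) (.ct 5 6 2 1 1 (.dc 2 15 1 (.ct 2 3 1 1 1 (.lf 2 11 208)
  (.lf 3 11 208))) (.ct 3 5 1 1 1 (.dc 2 15 0 (.ct 2 3 1 1 1 (.lf 2 9 176) (.lf 3 10 176))) (.dc
  2 15 1 (.ct 2 3 1 1 1 (.lf 2 10 192) (.ct 2 5 1 1 1 (.lf 2 12 208) (.lf 3 11 208))))))))) (.dc
  2 15 1 (.ct 1 4 1 1 1 (.dc 1 3 0 (.ct 2 3 1 1 1 (.ct 3 6 1 1 1 (.lf 3 7 224) (.lf 2 10 224))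
  (.lf 3 7 208))) (.ct 1 5 1 1 1 (.dc 1 3 0 (.ct 2 3 1 1 1 (.ct 3 6 1 1 1 (.lf 3 7 240) (.lf 2 10
  240)) (.lf 3 7 224))) (.dc 1 3 1 (.ct 2 3 1 1 1 (.ct 3 6 1 1 1 (.lf 3 11 240) (.lf 2 11 240))
  (.lf 3 11 224))))))) (.dc 2 15 1 (.ct 1 4 1 1 1 (.dc 1 3 0 (.ct 2 3 1 1 1 (.ct 3 6 1 1 1 (.lf 3
  6 224) (.lf 2 11 224)) (.lf 3 6 224))) (.dc 1 3 1 (.ct 2 3 1 1 1 (.ct 3 6 1 1 1 (.lf 3 11 208)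
  (.lf 2 11 208)) (.lf 3 11 208)))))))

theorem dt317 : le (run cls4 4 tr317 [[2, 1, 1, 1, 2, 2, 1], [1, 1, 0, 0, 1, 1, 0], [1, 1, 1,
  0, 2, 2, 1], [1, 1, 1, 1, 1, 1, 0], [3, 2, 2, 2, 4, 3, 2], [0, 0, 0, 0, 1, 1, 0], [2, 2, 1, 1,
  3, 3, 2]] 140737487831031 [42, 42, 42, 42, 72, 72, 126]) 4055896900129 = true := by
  decide +kernel

end Pool.Agent.Work.MP_122e00_nt.Sharp.Cx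

end
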