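import Pool.Agent.Work.MP_122e00_nt.Bd.B03

/-! Bundle of small proof modules (one section per former module). -/

section

set_option autoImplicit false

set_option maxRecDepth 100000

/-!
# The certificate: data
-/

namespace Pool.Agent.Work.MP_122e00_nt.Sharp.Cx

/-- data -/
noncomputable def tr318 : Ct := (.dc 2 7 1 (.dc 2 15 1 (.ct 3 4 1 1 1 (.dc 1 14 0 (.ct 1 6 1 1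
  1 (.dc 0 3 0 (.dc 1 3 0 (.lf 3 7 192))) (.dc 0 3 1 (.ct 1 3 1 1 1 (.dc 1 3 0 (.lf 3 8 224))
  (.ct 1 4 1 1 1 (.dc 1 3 0 (.lf 3 8 224)) (.dc 1 3 1 (.lf 3 11 224))))))) (.dc 1 14 1 (.ct 1 6 1
  1 1 (.dc 0 3 0 (.dc 1 3 0 (.ct 1 3 1 1 1 (.ct 2 3 1 1 1 (.ct 3 5 1 1 1 (.lf 3 7 192) (.ct 3 6 1
  1 1 (.lf 3 7 208) (.lf 2 11 208))) (.lf 3 7 176)) (.lf 3 6 192)))) (.dc 0 3 1 (.ct 2 3 1 1 1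
  (.ct 1 4 1 1 1 (.dc 1 3 0 (.ct 3 5 1 1 1 (.lf 3 7 224) (.ct 3 6 1 1 1 (.lf 3 7 224) (.lf 2 11
  224)))) (.dc 1 3 1 (.ct 3 5 1 1 1 (.lf 3 10 208) (.ct 3 6 1 1 1 (.lf 3 11 208) (.lf 2 11
  208))))) (.ct 1 4 1 1 1 (.dc 1 3 0 (.lf 3 8 224)) (.dc 1 3 1 (.lf 3 11 208))))))))))

theorem dt318 : le (run cls4 4 tr318 [[2, 1, 1, 1, 2, 2, 1], [1, 1, 0, 0, 1, 1, 0], [1, 1, 1,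
  0, 1, 1, 1], [1, 1, 1, 1, 1, 1, 0], [2, 1, 1, 1, 3, 2, 2], [1, 1, 1, 0, 2, 2, 1], [1, 1, 1, 1,
  2, 2, 2]] 140186658275319 [28, 40, 40, 40, 58, 70, 112]) 6738099066078 = true := by
  decide +kernel

/-- data -/
noncomputable def tr319 : Ct := (.dc 0 14 0 (.dc 1 14 0 (.ct 2 5 1 1 1 (.dc 2 7 0 (.ct 1 6 1 1
  1 (.dc 0 3 0 (.dc 1 3 0 (.ct 1 5 1 1 1 (.ct 3 5 1 1 1 (.ct 4 5 1 1 1 (.ct 5 6 1 1 1 (.dc 2 15 1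
  (.lf 3 9 192)) (.dc 2 15 0 (.lf 3 9 160))) (.dc 2 15 1 (.lf 3 8 192))) (.dc 2 15 1 (.lf 3 8
  160))) (.dc 2 15 1 (.lf 3 8 192))))) (.dc 0 3 1 (.ct 3 5 1 1 1 (.ct 5 6 1 1 1 (.dc 2 15 1 (.ct
  1 4 1 1 1 (.dc 1 3 0 (.lf 3 6 176)) (.dc 1 3 1 (.lf 3 11 176)))) (.ct 1 4 1 1 1 (.dc 1 3 0 (.ct
  1 5 1 1 1 (.ct 4 5 1 1 1 (.dc 2 15 0 (.lf 3 6 176)) (.dc 2 15 1 (.lf 3 6 176))) (.dc 2 15 1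
  (.lf 3 6 160)))) (.dc 1 3 1 (.ct 4 5 1 1 1 (.dc 2 15 0 (.lf 3 11 160)) (.dc 2 15 1 (.lf 3 11
  160)))))) (.dc 2 15 1 (.ct 1 4 1 1 1 (.dc 1 3 0 (.lf 3 6 192)) (.dc 1 3 1 (.lf 3 10 192))))))))
  (.dc 2 7 1 (.dc 2 15 1 (.ct 1 6 1 1 1 (.dc 0 3 0 (.dc 1 3 0 (.lf 3 7 176))) (.dc 0 3 1 (.ct 1 4
  1 1 1 (.dc 1 3 0 (.lf 3 6 192)) (.dc 1 3 1 (.lf 3 10 192))))))))))

theorem dt319 : le (run cls4 4 tr319 [[1, 0, 0, 0, 1, 1, 1], [1, 1, 0, 0, 1, 1, 0], [1, 1, 1,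
  0, 1, 1, 1], [2, 1, 1, 1, 2, 2, 1], [2, 1, 1, 1, 3, 2, 2], [0, 0, 0, 0, 1, 1, 0], [1, 1, 1, 1,
  2, 2, 2]] 140186658258935 [14, 38, 38, 38, 56, 56, 98]) 1987151866271 = true := by
  decide +kernel

/-- data -/
noncomputable def tr320 : Ct := (.dc 2 7 0 (.ct 0 4 1 1 1 (.ct 0 5 1 1 1 (.ct 3 4 1 2 1 (.ct 1
  3 1 1 1 (.dc 1 3 0 (.ct 1 5 1 2 1 (.ct 3 5 1 2 1 (.ct 4 6 1 1 1 (.dc 0 1 0 (.ct 4 5 1 1 1 (.ct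
  5 6 1 1 1 (.dc 2 15 1 (.lf 3 7 224)) (.dc 2 15 0 (.lf 3 5 224))) (.dc 2 15 1 (.lf 3 6 224))))
  (.dc 0 1 1 (.ct 5 6 1 1 1 (.dc 2 15 1 (.lf 3 13 224)) (.dc 2 15 0 (.lf 3 12 224))))) (.dc 2 15
  1 (.ct 4 6 1 1 1 (.dc 0 1 0 (.lf 3 6 240)) (.dc 0 1 1 (.lf 3 13 224))))) (.dc 2 15 1 (.ct 4 6 1
  1 1 (.dc 0 1 0 (.lf 3 6 240)) (.dc 0 1 1 (.lf 3 13 224)))))) (.ct 3 5 1 2 1 (.ct 4 6 1 1 1 (.dc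
  0 1 0 (.ct 1 4 1 1 1 (.dc 1 3 0 (.ct 1 5 1 1 1 (.ct 4 5 1 1 1 (.ct 5 6 1 1 1 (.dc 2 15 1 (.lf 3
  7 192)) (.dc 2 15 0 (.lf 3 5 192))) (.dc 2 15 1 (.lf 3 6 192))) (.dc 2 15 1 (.lf 3 5 192))))
  (.ct 4 5 1 1 1 (.ct 1 6 1 1 1 (.dc 1 3 0 (.ct 1 5 1 1 1 (.ct 5 6 1 1 1 (.dc 2 15 1 (.lf 3 8
  192)) (.dc 2 15 0 (.lf 3 6 192))) (.dc 2 15 1 (.lf 3 7 208)))) (.dc 1 3 1 (.ct 5 6 1 1 1 (.dc 2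
  15 1 (.lf 3 11 208)) (.dc 2 15 0 (.lf 3 8 192))))) (.dc 2 15 1 (.ct 1 6 1 1 1 (.dc 1 3 0 (.lf 3
  6 208)) (.dc 1 3 1 (.lf 3 11 208))))))) (.dc 0 1 1 (.ct 1 6 1 1 1 (.dc 1 3 0 (.ct 1 5 1 1 1
  (.ct 5 6 1 1 1 (.dc 2 15 1 (.lf 3 13 192)) (.dc 2 15 0 (.lf 3 11 192))) (.dc 2 15 1 (.lf 3 13
  192)))) (.dc 1 3 1 (.ct 5 6 1 1 1 (.dc 2 15 1 (.lf 3 12 192)) (.dc 2 15 0 (.lf 3 11 176)))))))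
  (.dc 2 15 1 (.ct 4 6 1 1 1 (.dc 0 1 0 (.ct 1 4 1 1 1 (.dc 1 3 0 (.lf 3 6 224)) (.ct 1 6 1 1 1
  (.dc 1 3 0 (.lf 3 7 240)) (.dc 1 3 1 (.lf 3 10 240))))) (.dc 0 1 1 (.ct 1 6 1 1 1 (.dc 1 3 0
  (.lf 3 13 208)) (.dc 1 3 1 (.lf 3 12 224)))))))) (.dc 0 1 0 (.ct 1 3 1 1 1 (.dc 1 3 0 (.ct 1 5
  1 2 1 (.ct 3 5 1 2 1 (.ct 4 5 1 2 1 (.ct 5 6 1 1 1 (.dc 2 15 1 (.lf 3 8 240)) (.dc 2 15 0 (.lf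
  3 6 208))) (.dc 2 15 1 (.lf 3 8 240))) (.dc 2 15 1 (.lf 3 9 256))) (.dc 2 15 1 (.lf 3 8 256))))
  (.ct 3 5 1 2 1 (.ct 1 4 1 1 1 (.dc 1 3 0 (.ct 1 5 1 2 1 (.ct 4 5 1 2 1 (.ct 5 6 1 1 1 (.dc 2 15
  1 (.lf 3 7 208)) (.dc 2 15 0 (.lf 3 5 192))) (.dc 2 15 1 (.lf 3 6 240))) (.dc 2 15 1 (.lf 3 6
  240)))) (.ct 4 5 1 2 1 (.ct 1 6 1 1 1 (.dc 1 3 0 (.ct 1 5 1 1 1 (.ct 5 6 1 1 1 (.dc 2 15 1 (.lf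
  3 8 224)) (.dc 2 15 0 (.lf 3 6 208))) (.dc 2 15 1 (.lf 3 8 240)))) (.dc 1 3 1 (.ct 5 6 1 1 1
  (.dc 2 15 1 (.lf 3 11 240)) (.dc 2 15 0 (.lf 3 8 224))))) (.dc 2 15 1 (.ct 1 6 1 1 1 (.dc 1 3 0
  (.lf 3 8 224)) (.dc 1 3 1 (.lf 3 10 224)))))) (.dc 2 15 1 (.ct 1 4 1 1 1 (.dc 1 3 0 (.lf 3 7
  240)) (.ct 1 6 1 1 1 (.dc 1 3 0 (.lf 3 8 256)) (.dc 1 3 1 (.lf 3 11 240))))))))) (.dc 2 15 1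
  (.ct 3 4 1 2 1 (.ct 1 3 1 1 1 (.dc 1 3 0 (.ct 4 6 1 1 1 (.dc 0 1 0 (.lf 3 5 240)) (.dc 0 1 1
  (.lf 3 13 240)))) (.ct 4 6 1 1 1 (.dc 0 1 0 (.ct 1 4 1 1 1 (.dc 1 3 0 (.lf 3 6 224)) (.ct 1 6 1
  1 1 (.dc 1 3 0 (.lf 3 6 240)) (.dc 1 3 1 (.lf 3 9 240))))) (.dc 0 1 1 (.ct 1 6 1 1 1 (.dc 1 3 0
  (.lf 3 13 224)) (.dc 1 3 1 (.lf 3 12 224)))))) (.dc 0 1 0 (.ct 1 3 1 1 1 (.dc 1 3 0 (.lf 3 7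
  224)) (.ct 1 4 1 1 1 (.dc 1 3 0 (.lf 3 5 240)) (.ct 1 6 1 1 1 (.dc 1 3 0 (.lf 3 7 256)) (.dc 1
  3 1 (.lf 3 10 256))))))))) (.dc 0 1 0 (.ct 0 5 1 1 1 (.ct 4 5 1 1 1 (.ct 1 3 1 1 1 (.dc 1 3 0
  (.ct 1 5 1 2 1 (.ct 3 5 1 2 1 (.ct 5 6 1 1 1 (.dc 2 15 1 (.lf 3 9 240)) (.dc 2 15 0 (.lf 3 7
  240))) (.dc 2 15 1 (.lf 3 9 256))) (.dc 2 15 1 (.lf 3 8 256)))) (.ct 3 5 1 2 1 (.ct 1 6 1 1 1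
  (.dc 1 3 0 (.ct 1 5 1 1 1 (.ct 5 6 1 1 1 (.dc 2 15 1 (.lf 3 9 224)) (.dc 2 15 0 (.lf 3 7 224)))
  (.dc 2 15 1 (.lf 3 9 240)))) (.dc 1 3 1 (.ct 5 6 1 1 1 (.dc 2 15 1 (.lf 3 12 240)) (.dc 2 15 0
  (.lf 3 9 224))))) (.dc 2 15 1 (.ct 1 6 1 1 1 (.dc 1 3 0 (.lf 3 8 256)) (.dc 1 3 1 (.lf 3 12
  256)))))) (.dc 2 15 1 (.ct 1 3 1 1 1 (.dc 1 3 0 (.lf 3 8 224)) (.ct 1 6 1 1 1 (.dc 1 3 0 (.lf 3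
  8 224)) (.dc 1 3 1 (.lf 3 11 224)))))) (.dc 2 15 1 (.ct 1 3 1 1 1 (.dc 1 3 0 (.lf 3 9 192))
  (.ct 1 6 1 1 1 (.dc 1 3 0 (.lf 3 9 192)) (.dc 1 3 1 (.lf 3 11 192)))))))))

theorem dt320 : le (run cls4 4 tr320 [[2, 1, 1, 1, 2, 2, 1], [1, 1, 0, 0, 1, 1, 0], [2, 1, 1,
  0, 3, 2, 1], [3, 2, 2, 2, 4, 3, 2], [1, 0, 0, 0, 1, 0, 0], [0, 0, 0, 0, 1, 1, 0], [2, 1, 1, 1,
  3, 2, 2]] 140187732017149 [40, 100, 100, 100, 70, 154, 196]) 604957610927 = true := by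
  decide +kernel

/-- data -/
noncomputable def tr321 : Ct := (.dc 2 7 1 (.dc 2 15 1 (.ct 0 4 1 1 1 (.ct 3 4 1 2 1 (.ct 1 3 1
  1 1 (.dc 1 3 0 (.ct 4 6 1 1 1 (.dc 0 1 0 (.lf 3 5 240)) (.dc 0 1 1 (.lf 3 13 240)))) (.ct 4 6 1
  1 1 (.dc 0 1 0 (.ct 1 4 1 1 1 (.dc 1 3 0 (.lf 3 6 224)) (.ct 1 6 1 1 1 (.dc 1 3 0 (.lf 3 6
  208)) (.dc 1 3 1 (.lf 3 9 208))))) (.dc 0 1 1 (.ct 1 6 1 1 1 (.dc 1 3 0 (.lf 3 13 224)) (.dc 1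
  3 1 (.lf 3 12 208)))))) (.dc 0 1 0 (.ct 1 3 1 1 1 (.dc 1 3 0 (.lf 3 6 208)) (.ct 1 4 1 1 1 (.dc
  1 3 0 (.lf 3 5 224)) (.ct 1 6 1 1 1 (.dc 1 3 0 (.lf 3 7 224)) (.dc 1 3 1 (.lf 3 10 224)))))))
  (.dc 0 1 0 (.ct 1 3 1 1 1 (.dc 1 3 0 (.lf 3 8 208)) (.ct 1 6 1 1 1 (.dc 1 3 0 (.lf 3 8 192))
  (.dc 1 3 1 (.lf 3 11 192))))))))

theorem dt321 : le (run cls4 4 tr321 [[2, 1, 1, 1, 2, 2, 1], [1, 1, 0, 0, 1, 1, 0], [2, 1, 1,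
  0, 2, 1, 1], [3, 2, 2, 2, 4, 3, 2], [1, 0, 0, 0, 1, 0, 0], [2, 1, 1, 0, 3, 2, 1], [2, 1, 1, 1,
  3, 2, 2]] 140187732017149 [40, 100, 100, 100, 70, 154, 196]) 639462162629 = true := by
  decide +kernel

end Pool.Agent.Work.MP_122e00_nt.Sharp.Cx

end

section

set_option autoImplicit false

set_option maxRecDepth 100000

/-!
# The certificate: data
-/

namespace Pool.Agent.Work.MP_122e00_nt.Sharp.Cx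

/-- data -/
noncomputable def tr322 : Ct := (.dc 0 1 0 (.dc 0 9 0 (.ct 2 5 1 1 1 (.ct 4 5 1 1 1 (.dc 2 7 0
  (.ct 0 5 1 1 1 (.ct 1 3 1 1 1 (.dc 1 3 0 (.ct 1 5 1 2 1 (.ct 3 5 1 2 1 (.ct 5 6 1 1 1 (.dc 2 15
  1 (.lf 3 10 240)) (.dc 2 15 0 (.lf 3 7 240))) (.dc 2 15 1 (.lf 3 9 240))) (.dc 2 15 1 (.lf 3 7
  240)))) (.ct 3 5 1 2 1 (.ct 1 6 1 1 1 (.dc 1 3 0 (.ct 1 5 1 1 1 (.ct 5 6 1 1 1 (.dc 2 15 1 (.lf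
  3 10 224)) (.dc 2 15 0 (.lf 3 7 224))) (.dc 2 15 1 (.lf 3 9 208)))) (.dc 1 3 1 (.ct 5 6 1 1 1
  (.dc 2 15 1 (.lf 3 11 208)) (.dc 2 15 0 (.lf 3 10 208))))) (.dc 2 15 1 (.ct 1 6 1 1 1 (.dc 1 3
  0 (.lf 3 8 224)) (.dc 1 3 1 (.lf 3 11 224)))))) (.dc 2 15 1 (.ct 1 3 1 1 1 (.dc 1 3 0 (.lf 3 7
  208)) (.ct 1 6 1 1 1 (.dc 1 3 0 (.lf 3 7 192)) (.dc 1 3 1 (.lf 3 11 192))))))) (.dc 2 7 1 (.dc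
  2 15 1 (.ct 1 3 1 1 1 (.dc 1 3 0 (.lf 3 9 208)) (.ct 1 6 1 1 1 (.dc 1 3 0 (.lf 3 9 192)) (.dc 1
  3 1 (.lf 3 10 176))))))) (.dc 2 7 1 (.dc 2 15 1 (.ct 1 3 1 1 1 (.dc 1 3 0 (.lf 3 10 208)) (.ct
  1 6 1 1 1 (.dc 1 3 0 (.lf 3 10 192)) (.dc 1 3 1 (.lf 3 10 192)))))))))

theorem dt322 : le (run cls4 4 tr322 [[2, 1, 1, 1, 2, 2, 1], [1, 1, 0, 0, 1, 1, 0], [1, 1, 1,
  0, 1, 1, 1], [3, 2, 2, 2, 4, 3, 2], [2, 1, 1, 0, 2, 1, 1], [0, 0, 0, 0, 1, 1, 0], [2, 1, 1, 1,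
  3, 2, 2]] 140187732016637 [36, 72, 72, 96, 66, 126, 168]) 1112800348395 = true := by
  decide +kernel

/-- data -/
noncomputable def tr323 : Ct := (.ct 4 6 2 1 1 (.dc 0 1 0 (.ct 1 4 1 1 1 (.dc 1 3 0 (.ct 1 5 1
  2 1 (.ct 4 5 1 2 1 (.ct 5 6 2 1 1 (.dc 2 15 1 (.lf 2 8 256)) (.dc 2 15 0 (.lf 2 6 240))) (.dc 2
  15 1 (.lf 2 8 256))) (.dc 2 15 1 (.lf 2 7 256)))) (.ct 4 5 1 2 1 (.ct 1 6 1 1 1 (.dc 1 3 0 (.ct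
  1 5 1 2 1 (.ct 5 6 2 1 1 (.dc 2 15 1 (.lf 2 9 256)) (.dc 2 15 0 (.lf 2 7 240))) (.dc 2 15 1
  (.lf 2 10 256)))) (.dc 1 3 1 (.ct 5 6 2 1 1 (.dc 2 15 1 (.lf 2 9 240)) (.dc 2 15 0 (.lf 2 7
  208))))) (.dc 2 15 1 (.ct 1 6 1 1 1 (.dc 1 3 0 (.lf 2 8 256)) (.dc 1 3 1 (.lf 2 9 240)))))))
  (.dc 0 1 1 (.ct 1 6 1 1 1 (.dc 1 3 0 (.ct 1 5 1 2 1 (.ct 5 6 2 1 1 (.dc 2 15 1 (.lf 2 13 240))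
  (.dc 2 15 0 (.lf 2 11 208))) (.dc 2 15 1 (.lf 2 13 240)))) (.dc 1 3 1 (.ct 5 6 2 1 1 (.dc 2 15
  1 (.lf 2 13 208)) (.dc 2 15 0 (.lf 2 11 176)))))))

theorem dt323 : le (run cls4 4 tr323 [[3, 1, 1, 1, 4, 3, 1], [1, 1, 0, 0, 1, 1, 0], [4, 2, 2,
  1, 6, 4, 1], [2, 1, 1, 1, 3, 2, 0], [1, 0, 0, 0, 1, 0, 0], [0, 0, 0, 0, 1, 1, 0], [3, 2, 2, 2,
  4, 3, 2]] 140737487831037 [40, 100, 100, 100, 70, 154, 196]) 448990237427 = true := by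
  decide +kernel

/-- data -/
noncomputable def tr324 : Ct := (.ct 4 6 2 1 1 (.dc 0 1 0 (.ct 1 4 1 1 1 (.dc 1 3 0 (.ct 1 5 1
  2 1 (.ct 4 5 1 2 1 (.ct 5 6 2 1 1 (.dc 2 15 1 (.lf 3 7 256)) (.dc 2 15 0 (.lf 3 5 240))) (.dc 2
  15 1 (.lf 3 7 256))) (.dc 2 15 1 (.lf 3 6 256)))) (.ct 4 5 1 2 1 (.ct 1 6 1 1 1 (.dc 1 3 0 (.ct
  1 5 1 2 1 (.ct 5 6 2 1 1 (.dc 2 15 1 (.lf 3 8 256)) (.dc 2 15 0 (.lf 3 5 240))) (.dc 2 15 1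
  (.lf 3 9 256)))) (.dc 1 3 1 (.ct 5 6 2 1 1 (.dc 2 15 1 (.lf 3 11 240)) (.dc 2 15 0 (.lf 3 7
  208))))) (.dc 2 15 1 (.ct 1 6 1 1 1 (.dc 1 3 0 (.lf 3 8 256)) (.dc 1 3 1 (.lf 3 11 240)))))))
  (.dc 0 1 1 (.ct 1 6 1 1 1 (.dc 1 3 0 (.ct 1 5 1 2 1 (.ct 5 6 2 1 1 (.dc 2 15 1 (.lf 3 13 240))
  (.dc 2 15 0 (.lf 3 11 208))) (.dc 2 15 1 (.lf 3 13 240)))) (.dc 1 3 1 (.ct 5 6 2 1 1 (.dc 2 15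
  1 (.lf 3 12 208)) (.dc 2 15 0 (.lf 3 11 176)))))))

theorem dt324 : le (run cls4 4 tr324 [[3, 1, 1, 1, 4, 3, 1], [1, 1, 0, 0, 1, 1, 0], [2, 1, 1,
  0, 3, 2, 1], [4, 2, 2, 1, 6, 4, 1], [1, 0, 0, 0, 1, 0, 0], [0, 0, 0, 0, 1, 1, 0], [3, 2, 2, 2,
  4, 3, 2]] 140737487831037 [40, 100, 100, 100, 70, 154, 196]) 274141333800 = true := by
  decide +kernel

end Pool.Agent.Work.MP_122e00_nt.Sharp.Cx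

end

section

set_option autoImplicit false

set_option maxRecDepth 100000

/-!
# The certificate: data
-/

namespace Pool.Agent.Work.MP_122e00_nt.Sharp.Cx

/-- data -/
noncomputable def tr325 : Ct := (.dc 2 15 1 (.ct 2 3 1 1 1 (.ct 4 6 2 1 1 (.dc 0 1 0 (.ct 1 4 1
  1 1 (.dc 1 3 0 (.lf 2 8 256)) (.ct 1 6 1 1 1 (.dc 1 3 0 (.lf 2 9 256)) (.dc 1 3 1 (.lf 2 8
  256))))) (.dc 0 1 1 (.ct 1 6 1 1 1 (.dc 1 3 0 (.lf 2 13 256)) (.dc 1 3 1 (.lf 2 12 224)))))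
  (.ct 2 5 1 1 1 (.ct 4 6 2 1 1 (.dc 0 1 0 (.ct 1 4 1 1 1 (.dc 1 3 0 (.lf 2 7 256)) (.ct 1 6 1 1
  1 (.dc 1 3 0 (.lf 2 8 256)) (.dc 1 3 1 (.lf 2 9 256))))) (.dc 0 1 1 (.ct 1 6 1 1 1 (.dc 1 3 0
  (.lf 2 13 256)) (.dc 1 3 1 (.lf 2 13 224))))) (.ct 4 6 2 1 1 (.dc 0 1 0 (.ct 1 4 1 1 1 (.dc 1 3
  0 (.lf 3 6 256)) (.ct 1 6 1 1 1 (.dc 1 3 0 (.lf 3 8 256)) (.dc 1 3 1 (.lf 3 10 256))))) (.dc 0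
  1 1 (.ct 1 6 1 1 1 (.dc 1 3 0 (.lf 3 13 256)) (.dc 1 3 1 (.lf 3 12 224))))))))

theorem dt325 : le (run cls4 4 tr325 [[3, 1, 1, 1, 4, 3, 1], [1, 1, 0, 0, 1, 1, 0], [2, 1, 1,
  0, 3, 2, 1], [2, 1, 1, 1, 2, 1, 0], [1, 0, 0, 0, 1, 0, 0], [2, 1, 1, 1, 3, 2, 0], [3, 2, 2, 2,
  4, 3, 2]] 140737487831037 [40, 100, 100, 100, 70, 154, 196]) 1076224944070 = true := by
  decide +kernel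

/-- data -/
noncomputable def tr326 : Ct := (.dc 0 1 0 (.ct 1 6 1 1 1 (.dc 1 3 0 (.ct 1 5 1 2 1 (.ct 5 6 2
  1 1 (.dc 2 15 1 (.ct 2 3 1 1 1 (.lf 2 10 240) (.lf 3 10 256))) (.ct 3 5 1 1 1 (.dc 2 15 0 (.ct
  2 3 1 1 1 (.lf 2 7 240) (.lf 3 7 240))) (.dc 2 15 1 (.ct 2 3 1 1 1 (.lf 2 9 256) (.ct 2 5 1 1 1
  (.lf 2 9 256) (.lf 3 9 256)))))) (.dc 2 15 1 (.ct 2 3 1 1 1 (.lf 2 10 240) (.lf 3 10 256)))))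
  (.dc 1 3 1 (.ct 5 6 2 1 1 (.dc 2 15 1 (.ct 2 3 1 1 1 (.lf 2 9 240) (.lf 3 11 256))) (.ct 3 5 1
  1 1 (.dc 2 15 0 (.ct 2 3 1 1 1 (.lf 2 7 208) (.lf 3 8 208))) (.dc 2 15 1 (.ct 2 3 1 1 1 (.lf 2
  8 224) (.ct 2 5 1 1 1 (.lf 2 9 224) (.lf 3 10 224)))))))))

theorem dt326 : le (run cls4 4 tr326 [[2, 1, 1, 1, 3, 3, 1], [1, 1, 0, 0, 1, 1, 0], [2, 1, 1,
  0, 3, 2, 1], [2, 1, 1, 1, 2, 1, 0], [3, 1, 1, 1, 4, 3, 1], [0, 0, 0, 0, 1, 1, 0], [3, 2, 2, 2,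
  4, 3, 2]] 140737487831037 [40, 100, 100, 100, 70, 154, 196]) 1134258225063 = true := by
  decide +kernel

end Pool.Agent.Work.MP_122e00_nt.Sharp.Cx

end

section

set_option autoImplicit false

set_option maxRecDepth 100000

/-!
# The certificate: data
-/

namespace Pool.Agent.Work.MP_122e00_nt.Sharp.Cx

/-- data -/
noncomputable def tr327 : Ct := (.dc 2 15 1 (.ct 0 4 1 1 1 (.ct 4 5 1 1 1 (.dc 0 1 0 (.ct 1 6 1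
  1 1 (.dc 1 3 0 (.ct 2 3 1 1 1 (.lf 2 10 208) (.lf 3 9 224))) (.dc 1 3 1 (.ct 2 3 1 1 1 (.lf 2 8
  208) (.lf 3 10 224))))) (.ct 2 3 1 1 1 (.ct 4 6 2 1 1 (.dc 0 1 0 (.ct 1 4 1 1 1 (.dc 1 3 0 (.lf
  2 9 240)) (.ct 1 6 1 1 1 (.dc 1 3 0 (.lf 2 9 240)) (.dc 1 3 1 (.lf 2 8 240))))) (.dc 0 1 1 (.ct
  1 6 1 1 1 (.dc 1 3 0 (.lf 2 13 240)) (.dc 1 3 1 (.lf 2 12 208))))) (.ct 4 6 2 1 1 (.dc 0 1 0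
  (.ct 1 4 1 1 1 (.dc 1 3 0 (.lf 3 6 256)) (.ct 1 6 1 1 1 (.dc 1 3 0 (.lf 3 8 256)) (.dc 1 3 1
  (.lf 3 10 256))))) (.dc 0 1 1 (.ct 1 6 1 1 1 (.dc 1 3 0 (.lf 3 13 256)) (.dc 1 3 1 (.lf 3 12
  224))))))) (.dc 0 1 0 (.ct 1 6 1 1 1 (.dc 1 3 0 (.ct 2 3 1 1 1 (.lf 2 10 208) (.lf 3 9 192)))
  (.dc 1 3 1 (.ct 2 3 1 1 1 (.lf 2 9 208) (.lf 3 10 192)))))))

theorem dt327 : le (run cls4 4 tr327 [[2, 1, 1, 1, 2, 2, 1], [1, 1, 0, 0, 1, 1, 0], [2, 1, 1,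
  0, 3, 2, 1], [2, 1, 1, 1, 2, 1, 0], [1, 0, 0, 0, 1, 0, 0], [2, 1, 1, 1, 3, 3, 1], [3, 2, 2, 2,
  4, 3, 2]] 140737487831037 [40, 100, 100, 100, 70, 154, 196]) 1602128441577 = true := by
  decide +kernel

/-- data -/
noncomputable def tr328 : Ct := (.dc 2 7 1 (.dc 2 15 1 (.ct 0 4 1 1 1 (.ct 2 3 1 1 1 (.ct 3 5 1
  1 1 (.ct 4 6 2 1 1 (.dc 0 1 0 (.ct 1 4 1 1 1 (.dc 1 3 0 (.lf 3 7 240)) (.ct 1 6 1 1 1 (.dc 1 3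
  0 (.lf 3 8 240)) (.dc 1 3 1 (.lf 3 9 240))))) (.dc 0 1 1 (.ct 1 6 1 1 1 (.dc 1 3 0 (.lf 3 12
  240)) (.dc 1 3 1 (.lf 3 12 208))))) (.ct 4 6 2 1 1 (.dc 0 1 0 (.ct 1 4 1 1 1 (.dc 1 3 0 (.lf 2
  8 224)) (.ct 1 6 1 1 1 (.dc 1 3 0 (.lf 2 8 224)) (.dc 1 3 1 (.lf 2 7 224))))) (.dc 0 1 1 (.ct 1
  6 1 1 1 (.dc 1 3 0 (.lf 2 13 224)) (.dc 1 3 1 (.lf 2 13 192)))))) (.ct 4 6 2 1 1 (.dc 0 1 0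
  (.ct 1 4 1 1 1 (.dc 1 3 0 (.lf 3 8 240)) (.ct 1 6 1 1 1 (.dc 1 3 0 (.lf 3 9 240)) (.dc 1 3 1
  (.lf 3 9 224))))) (.dc 0 1 1 (.ct 1 6 1 1 1 (.dc 1 3 0 (.lf 3 12 224)) (.dc 1 3 1 (.lf 3 12
  208)))))) (.dc 0 1 0 (.ct 1 6 1 1 1 (.dc 1 3 0 (.ct 2 3 1 1 1 (.ct 3 5 1 1 1 (.lf 3 10 208)
  (.lf 2 9 208)) (.lf 3 10 208))) (.dc 1 3 1 (.ct 2 3 1 1 1 (.ct 3 5 1 1 1 (.lf 3 9 208) (.lf 2 8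
  208)) (.lf 3 10 192))))))))

theorem dt328 : le (run cls4 4 tr328 [[2, 1, 1, 1, 2, 2, 1], [1, 1, 0, 0, 1, 1, 0], [2, 1, 1,
  0, 2, 1, 1], [2, 1, 1, 1, 2, 1, 0], [1, 0, 0, 0, 1, 0, 0], [2, 1, 1, 0, 3, 2, 1], [3, 2, 2, 2,
  4, 3, 2]] 140187732017149 [40, 100, 100, 100, 70, 154, 196]) 862707634383 = true := by
  decide +kernel

end Pool.Agent.Work.MP_122e00_nt.Sharp.Cx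

end

section

set_option autoImplicit false

set_option maxRecDepth 100000

/-!
# The certificate: data
-/

namespace Pool.Agent.Work.MP_122e00_nt.Sharp.Cx

/-- data -/
noncomputable def tr329 : Ct := (.ct 2 5 1 1 1 (.dc 2 7 0 (.ct 2 3 1 1 1 (.dc 0 9 1 (.ct 0 5 1
  1 1 (.ct 2 5 1 1 1 (.ct 1 6 1 1 1 (.dc 1 3 0 (.ct 1 5 1 2 1 (.ct 5 6 2 1 1 (.dc 2 15 1 (.ct 3 4
  1 1 1 (.lf 3 11 224) (.lf 2 11 208))) (.ct 3 5 1 1 1 (.dc 2 15 0 (.ct 3 4 1 1 1 (.lf 3 7 224)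
  (.lf 2 8 224))) (.dc 2 15 1 (.ct 3 4 1 1 1 (.ct 4 5 1 1 1 (.lf 2 9 224) (.lf 3 9 224)) (.lf 2 9
  240))))) (.dc 2 15 1 (.ct 3 4 1 1 1 (.lf 3 11 224) (.lf 2 11 208))))) (.dc 1 3 1 (.ct 5 6 2 1 1
  (.dc 2 15 1 (.ct 3 4 1 1 1 (.lf 3 11 224) (.lf 2 9 208))) (.ct 3 5 1 1 1 (.dc 2 15 0 (.ct 3 4 1
  1 1 (.lf 3 8 192) (.lf 2 8 192))) (.dc 2 15 1 (.ct 3 4 1 1 1 (.ct 4 5 1 1 1 (.lf 2 9 192) (.lf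
  3 10 192)) (.lf 2 8 208))))))) (.dc 2 15 1 (.ct 1 6 1 1 1 (.dc 1 3 0 (.ct 3 4 1 1 1 (.lf 3 10
  208) (.lf 2 10 192))) (.dc 1 3 1 (.ct 3 4 1 1 1 (.lf 3 10 208) (.lf 2 8 192)))))) (.dc 2 15 1
  (.ct 1 6 1 1 1 (.dc 1 3 0 (.ct 3 4 1 1 1 (.lf 3 10 208) (.lf 2 10 208))) (.dc 1 3 1 (.ct 3 4 1
  1 1 (.lf 3 11 208) (.lf 2 9 208))))))) (.dc 0 9 0 (.ct 0 5 1 1 1 (.ct 3 5 1 1 1 (.ct 1 6 1 1 1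
  (.dc 1 3 0 (.ct 1 5 1 2 1 (.ct 5 6 2 1 1 (.dc 2 15 1 (.lf 3 7 240)) (.dc 2 15 0 (.lf 3 6 240)))
  (.dc 2 15 1 (.lf 3 6 240)))) (.dc 1 3 1 (.ct 5 6 2 1 1 (.dc 2 15 1 (.lf 3 11 240)) (.dc 2 15 0
  (.lf 3 9 208))))) (.dc 2 15 1 (.ct 1 6 1 1 1 (.dc 1 3 0 (.lf 3 7 208)) (.dc 1 3 1 (.lf 3 10
  208))))) (.dc 2 15 1 (.ct 1 6 1 1 1 (.dc 1 3 0 (.lf 3 7 208)) (.dc 1 3 1 (.lf 3 10 192))))))))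
  (.dc 2 7 1 (.dc 2 15 1 (.ct 2 3 1 1 1 (.ct 3 5 1 1 1 (.dc 0 9 0 (.ct 1 6 1 1 1 (.dc 1 3 0 (.lf
  3 7 240)) (.dc 1 3 1 (.lf 3 9 208)))) (.dc 0 9 1 (.ct 1 6 1 1 1 (.dc 1 3 0 (.ct 3 4 1 1 1 (.lf
  3 9 240) (.lf 2 10 240))) (.dc 1 3 1 (.ct 3 4 1 1 1 (.lf 3 10 240) (.lf 2 9 240)))))) (.dc 0 9
  0 (.ct 1 6 1 1 1 (.dc 1 3 0 (.lf 3 8 224)) (.dc 1 3 1 (.lf 3 10 208))))))))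

theorem dt329 : le (run cls4 4 tr329 [[2, 1, 1, 1, 2, 2, 1], [1, 1, 0, 0, 1, 1, 0], [1, 1, 1,
  0, 1, 1, 1], [2, 1, 1, 1, 2, 1, 0], [2, 1, 1, 0, 3, 2, 1], [0, 0, 0, 0, 1, 1, 0], [3, 2, 2, 2,
  4, 3, 2]] 140187732016639 [36, 72, 72, 96, 66, 126, 168]) 1241137748958 = true := by
  decide +kernel

/-- data -/
noncomputable def tr330 : Ct := (.dc 2 7 1 (.dc 2 15 1 (.ct 2 3 1 1 1 (.dc 0 9 1 (.ct 1 6 1 1 1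
  (.dc 1 3 0 (.ct 3 4 1 1 1 (.lf 3 10 240) (.ct 3 5 1 1 1 (.lf 3 10 240) (.lf 2 9 240)))) (.dc 1
  3 1 (.ct 3 4 1 1 1 (.lf 3 10 208) (.ct 3 5 1 1 1 (.lf 3 9 240) (.lf 2 8 240)))))) (.dc 0 9 0
  (.ct 1 6 1 1 1 (.dc 1 3 0 (.lf 3 10 224)) (.dc 1 3 1 (.lf 3 11 208)))))))

theorem dt330 : le (run cls4 4 tr330 [[2, 1, 1, 1, 2, 2, 1], [1, 1, 0, 0, 1, 1, 0], [1, 1, 1,
  0, 1, 1, 1], [2, 1, 1, 1, 2, 1, 0], [2, 1, 1, 0, 2, 1, 1], [2, 1, 1, 0, 3, 2, 1], [3, 2, 2, 2,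
  4, 3, 2]] 140187732016639 [36, 72, 72, 96, 66, 126, 168]) 1570794522134 = true := by
  decide +kernel

end Pool.Agent.Work.MP_122e00_nt.Sharp.Cx

end

section

set_option autoImplicit false

set_option maxRecDepth 100000

/-!
# The certificate: data
-/

namespace Pool.Agent.Work.MP_122e00_nt.Sharp.Cx

/-- data -/
noncomputable def tr331 : Ct := (.dc 0 9 1 (.ct 0 5 1 1 1 (.ct 2 5 1 1 1 (.ct 3 5 1 1 1 (.ct 4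
  5 1 1 1 (.ct 1 6 1 1 1 (.dc 1 3 0 (.ct 1 5 1 2 1 (.ct 5 6 2 1 1 (.dc 2 15 1 (.lf 2 11 240))
  (.dc 2 15 0 (.lf 2 8 240))) (.dc 2 15 1 (.lf 2 10 240)))) (.dc 1 3 1 (.ct 5 6 2 1 1 (.dc 2 15 1
  (.lf 2 10 240)) (.dc 2 15 0 (.lf 2 8 208))))) (.dc 2 15 1 (.ct 1 6 1 1 1 (.dc 1 3 0 (.lf 2 10
  208)) (.dc 1 3 1 (.lf 2 8 208))))) (.dc 2 15 1 (.ct 1 6 1 1 1 (.dc 1 3 0 (.lf 2 10 176)) (.dc 1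
  3 1 (.lf 2 8 176))))) (.dc 2 15 1 (.ct 1 6 1 1 1 (.dc 1 3 0 (.lf 2 10 192)) (.dc 1 3 1 (.lf 2 8
  192))))) (.dc 2 15 1 (.ct 1 6 1 1 1 (.dc 1 3 0 (.lf 2 10 208)) (.dc 1 3 1 (.lf 2 9 192))))))

theorem dt331 : le (run cls4 4 tr331 [[2, 1, 1, 1, 2, 2, 1], [1, 1, 0, 0, 1, 1, 0], [3, 2, 2,
  1, 4, 3, 1], [1, 1, 1, 1, 1, 1, 0], [2, 1, 1, 1, 2, 1, 0], [0, 0, 0, 0, 1, 1, 0], [3, 2, 2, 2,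
  4, 3, 2]] 140737487830527 [50, 74, 74, 98, 80, 128, 182]) 2416650099931 = true := by
  decide +kernel

/-- data -/
noncomputable def tr332 : Ct := (.dc 0 9 0 (.ct 0 5 1 1 1 (.ct 4 5 1 1 1 (.ct 1 6 1 1 1 (.dc 1
  3 0 (.ct 1 5 1 2 1 (.ct 5 6 2 1 1 (.dc 2 15 1 (.ct 2 3 1 1 1 (.lf 2 10 224) (.lf 3 7 240)))
  (.ct 3 5 1 1 1 (.dc 2 15 0 (.ct 2 3 1 1 1 (.lf 2 6 224) (.lf 3 6 224))) (.dc 2 15 1 (.ct 2 3 1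
  1 1 (.lf 2 9 240) (.ct 2 5 1 1 1 (.lf 2 9 256) (.lf 3 7 256)))))) (.dc 2 15 1 (.ct 2 3 1 1 1
  (.lf 2 10 224) (.lf 3 6 240))))) (.dc 1 3 1 (.ct 5 6 2 1 1 (.dc 2 15 1 (.ct 2 3 1 1 1 (.lf 2 10
  224) (.lf 3 11 240))) (.ct 3 5 1 1 1 (.dc 2 15 0 (.ct 2 3 1 1 1 (.lf 2 9 192) (.lf 3 10 192)))
  (.dc 2 15 1 (.ct 2 3 1 1 1 (.lf 2 10 208) (.ct 2 5 1 1 1 (.lf 2 12 224) (.lf 3 11 224))))))))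
  (.dc 2 15 1 (.ct 1 6 1 1 1 (.dc 1 3 0 (.ct 2 3 1 1 1 (.lf 2 9 208) (.lf 3 7 208))) (.dc 1 3 1
  (.ct 2 3 1 1 1 (.lf 2 10 224) (.lf 3 10 208)))))) (.dc 2 15 1 (.ct 1 6 1 1 1 (.dc 1 3 0 (.ct 2
  3 1 1 1 (.lf 2 10 240) (.lf 3 7 240))) (.dc 1 3 1 (.ct 2 3 1 1 1 (.lf 2 10 224) (.lf 3 10
  224)))))))

theorem dt332 : le (run cls4 4 tr332 [[2, 1, 1, 1, 2, 2, 1], [1, 1, 0, 0, 1, 1, 0], [1, 1, 1,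
  0, 2, 2, 1], [1, 1, 1, 1, 1, 1, 0], [3, 2, 2, 1, 4, 3, 1], [0, 0, 0, 0, 1, 1, 0], [3, 2, 2, 2,
  4, 3, 2]] 140737487830527 [50, 74, 74, 98, 80, 128, 182]) 2287692764715 = true := by
  decide +kernel

end Pool.Agent.Work.MP_122e00_nt.Sharp.Cx

end
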