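import Pool.Agent.Work.MP_122e00_nt.Bd.B03

/-! Bundle of small proof modules (one section per former module). -/

section

set_option autoImplicit false

set_option maxRecDepth 100000

/-!
# The certificate: data
-/

namespace Pool.Agent.Work.MP_122e00_nt.Sharp.Cx

/-- data -/
noncomputable def tr333 : Ct := (.dc 2 7 1 (.dc 2 15 1 (.ct 2 4 1 1 1 (.ct 4 5 1 1 1 (.dc 0 9 0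
  (.ct 1 6 1 1 1 (.dc 1 3 0 (.ct 3 5 1 1 1 (.lf 3 8 240) (.lf 2 9 240))) (.dc 1 3 1 (.ct 3 5 1 1
  1 (.lf 3 9 208) (.lf 2 10 224))))) (.dc 0 9 1 (.ct 1 6 1 1 1 (.dc 1 3 0 (.lf 2 10 240)) (.dc 1
  3 1 (.lf 2 8 224))))) (.dc 0 9 0 (.ct 1 6 1 1 1 (.dc 1 3 0 (.ct 2 3 1 1 1 (.ct 3 5 1 1 1 (.lf 3
  8 224) (.lf 2 9 224)) (.lf 3 8 224))) (.dc 1 3 1 (.ct 2 3 1 1 1 (.ct 3 5 1 1 1 (.lf 3 9 208)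
  (.lf 2 10 208)) (.lf 3 9 208))))))))

theorem dt333 : le (run cls4 4 tr333 [[2, 1, 1, 1, 2, 2, 1], [1, 1, 0, 0, 1, 1, 0], [1, 1, 1,
  0, 1, 1, 1], [1, 1, 1, 1, 1, 1, 0], [2, 1, 1, 1, 2, 1, 0], [1, 1, 1, 0, 2, 2, 1], [3, 2, 2, 2,
  4, 3, 2]] 140187732016639 [50, 74, 74, 98, 80, 128, 182]) 3165713440816 = true := by
  decide +kernel

/-- data -/
noncomputable def tr334 : Ct := (.dc 0 14 0 (.dc 1 14 0 (.ct 2 4 1 1 1 (.dc 0 9 1 (.ct 2 5 1 1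
  1 (.dc 2 7 0 (.ct 3 4 1 1 1 (.ct 3 5 1 1 1 (.ct 4 6 1 1 1 (.dc 0 1 0 (.ct 1 4 1 1 1 (.dc 1 3 0
  (.ct 1 5 1 1 1 (.ct 4 5 1 1 1 (.ct 5 6 1 1 1 (.dc 2 15 1 (.lf 3 7 192)) (.dc 2 15 0 (.lf 3 7
  176))) (.dc 2 15 1 (.lf 3 5 192))) (.dc 2 15 1 (.lf 3 5 192)))) (.ct 4 5 1 1 1 (.ct 1 6 1 1 1
  (.dc 1 3 0 (.ct 1 5 1 1 1 (.ct 5 6 1 1 1 (.dc 2 15 1 (.lf 3 7 192)) (.dc 2 15 0 (.lf 3 7 192)))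
  (.dc 2 15 1 (.lf 3 6 208)))) (.dc 1 3 1 (.ct 5 6 1 1 1 (.dc 2 15 1 (.lf 3 9 208)) (.dc 2 15 0
  (.lf 3 9 192))))) (.dc 2 15 1 (.ct 1 6 1 1 1 (.dc 1 3 0 (.lf 3 5 208)) (.dc 1 3 1 (.lf 3 8
  208))))))) (.dc 0 1 1 (.ct 1 6 1 1 1 (.dc 1 3 0 (.ct 1 5 1 1 1 (.ct 5 6 1 1 1 (.dc 2 15 1 (.lf
  3 12 176)) (.dc 2 15 0 (.lf 3 12 176))) (.dc 2 15 1 (.lf 3 12 192)))) (.dc 1 3 1 (.ct 5 6 1 1 1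
  (.dc 2 15 1 (.lf 3 11 192)) (.dc 2 15 0 (.lf 3 11 160))))))) (.dc 2 15 1 (.ct 4 6 1 1 1 (.dc 0
  1 0 (.ct 1 4 1 1 1 (.dc 1 3 0 (.lf 3 6 192)) (.ct 1 6 1 1 1 (.dc 1 3 0 (.lf 3 6 208)) (.dc 1 3
  1 (.lf 3 8 208))))) (.dc 0 1 1 (.ct 1 6 1 1 1 (.dc 1 3 0 (.lf 3 11 192)) (.dc 1 3 1 (.lf 3 11
  192))))))) (.dc 0 1 0 (.ct 3 5 1 1 1 (.ct 4 5 1 1 1 (.ct 1 6 1 1 1 (.dc 1 3 0 (.ct 1 5 1 1 1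
  (.ct 5 6 1 1 1 (.dc 2 15 1 (.lf 3 8 192)) (.dc 2 15 0 (.lf 3 8 192))) (.dc 2 15 1 (.lf 3 7
  208)))) (.dc 1 3 1 (.ct 5 6 1 1 1 (.dc 2 15 1 (.lf 3 9 208)) (.dc 2 15 0 (.lf 3 9 192))))) (.dc
  2 15 1 (.ct 1 6 1 1 1 (.dc 1 3 0 (.lf 3 7 192)) (.dc 1 3 1 (.lf 3 8 192))))) (.dc 2 15 1 (.ct 1
  6 1 1 1 (.dc 1 3 0 (.lf 3 8 160)) (.dc 1 3 1 (.lf 3 9 160)))))))) (.dc 2 7 1 (.dc 2 15 1 (.ct 3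
  4 1 1 1 (.ct 4 6 1 1 1 (.dc 0 1 0 (.ct 1 4 1 1 1 (.dc 1 3 0 (.lf 3 6 192)) (.ct 1 6 1 1 1 (.dc
  1 3 0 (.lf 3 6 176)) (.dc 1 3 1 (.lf 3 7 176))))) (.dc 0 1 1 (.ct 1 6 1 1 1 (.dc 1 3 0 (.lf 3
  11 192)) (.dc 1 3 1 (.lf 3 11 176))))) (.dc 0 1 0 (.ct 1 6 1 1 1 (.dc 1 3 0 (.lf 3 7 160)) (.dc
  1 3 1 (.lf 3 8 160))))))))) (.dc 0 1 0 (.dc 0 9 0 (.ct 2 5 1 1 1 (.ct 4 5 1 1 1 (.dc 2 7 0 (.ct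
  3 5 1 1 1 (.ct 1 6 1 1 1 (.dc 1 3 0 (.ct 1 5 1 1 1 (.ct 5 6 1 1 1 (.dc 2 15 1 (.lf 3 8 192))
  (.dc 2 15 0 (.lf 3 8 192))) (.dc 2 15 1 (.lf 3 7 176)))) (.dc 1 3 1 (.ct 5 6 1 1 1 (.dc 2 15 1
  (.lf 3 10 176)) (.dc 2 15 0 (.lf 3 10 176))))) (.dc 2 15 1 (.ct 1 6 1 1 1 (.dc 1 3 0 (.lf 3 7
  160)) (.dc 1 3 1 (.lf 3 10 160)))))) (.dc 2 7 1 (.dc 2 15 1 (.ct 1 6 1 1 1 (.dc 1 3 0 (.lf 3 8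
  160)) (.dc 1 3 1 (.lf 3 9 144)))))) (.dc 2 7 1 (.dc 2 15 1 (.ct 1 6 1 1 1 (.dc 1 3 0 (.lf 3 9
  160)) (.dc 1 3 1 (.lf 3 9 160)))))))))))

theorem dt334 : le (run cls4 4 tr334 [[1, 0, 0, 0, 1, 1, 1], [1, 1, 0, 0, 1, 1, 0], [1, 1, 1,
  0, 1, 1, 1], [2, 1, 1, 1, 2, 2, 1], [1, 0, 0, 0, 1, 0, 0], [0, 0, 0, 0, 1, 1, 0], [2, 1, 1, 1,
  3, 2, 2]] 140186658258429 [22, 70, 70, 94, 64, 112, 154]) 264077836693 = true := by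
  decide +kernel

end Pool.Agent.Work.MP_122e00_nt.Sharp.Cx

end

section

set_option autoImplicit false

set_option maxRecDepth 100000

/-!
# The certificate: data
-/

namespace Pool.Agent.Work.MP_122e00_nt.Sharp.Cx

/-- data -/
noncomputable def tr335 : Ct := (.dc 0 1 0 (.dc 0 5 0 (.dc 0 9 0 (.ct 0 3 1 1 1 (.dc 0 14 1
  (.ct 1 6 1 1 1 (.dc 2 3 0 (.ct 3 4 1 1 1 (.dc 1 14 0 (.ct 5 6 1 1 1 (.dc 0 3 0 (.dc 1 3 0 (.lf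
  3 6 192))) (.dc 0 3 1 (.ct 3 5 1 1 1 (.ct 4 5 1 1 1 (.dc 1 3 1 (.lf 3 12 224)) (.dc 1 3 0 (.lf
  3 7 224))) (.dc 1 3 0 (.lf 3 7 224)))))) (.dc 1 14 1 (.ct 5 6 1 1 1 (.dc 0 3 0 (.dc 1 3 0 (.ct
  1 3 1 1 1 (.ct 2 3 1 1 1 (.ct 3 5 1 1 1 (.lf 3 7 192) (.ct 3 6 1 1 1 (.lf 3 6 176) (.lf 2 11
  176))) (.lf 3 7 192)) (.lf 3 7 192)))) (.dc 0 3 1 (.ct 1 3 1 1 1 (.ct 4 5 1 1 1 (.dc 1 3 1 (.ct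
  2 3 1 1 1 (.ct 3 6 1 1 1 (.lf 3 11 224) (.lf 2 11 192)) (.lf 3 11 224))) (.dc 1 3 0 (.ct 2 3 1
  1 1 (.ct 3 6 1 1 1 (.lf 3 7 224) (.lf 2 11 192)) (.lf 3 7 224)))) (.ct 4 5 1 1 1 (.dc 1 3 1
  (.lf 3 11 224)) (.dc 1 3 0 (.lf 3 7 224))))))))) (.dc 0 3 1 (.ct 1 4 1 1 1 (.dc 2 3 0 (.ct 1 3
  1 1 1 (.ct 3 4 1 1 1 (.dc 1 14 0 (.ct 3 5 1 1 1 (.ct 4 5 1 1 1 (.dc 1 3 1 (.lf 3 12 192)) (.dc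
  1 3 0 (.lf 3 8 192))) (.dc 1 3 0 (.lf 3 7 192)))) (.dc 1 14 1 (.ct 4 5 1 1 1 (.dc 1 3 1 (.ct 2
  3 1 1 1 (.ct 3 6 1 1 1 (.lf 3 12 192) (.lf 2 11 192)) (.lf 3 12 176))) (.dc 1 3 0 (.ct 2 3 1 1
  1 (.ct 3 6 1 1 1 (.lf 3 8 192) (.lf 2 10 192)) (.lf 3 9 192)))))) (.dc 1 14 0 (.ct 4 5 1 1 1
  (.dc 1 3 1 (.lf 3 12 192)) (.dc 1 3 0 (.lf 3 7 192)))))) (.dc 1 3 1 (.ct 3 4 1 1 1 (.dc 1 14 0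
  (.ct 0 1 1 1 1 (.ct 1 3 1 1 1 (.dc 2 3 0 (.lf 3 10 208)) (.dc 2 3 1 (.lf 3 12 176))) (.dc 2 3 0
  (.lf 3 11 176)))) (.dc 1 14 1 (.ct 0 1 1 1 1 (.ct 1 4 1 1 1 (.dc 2 3 0 (.ct 2 3 1 1 1 (.ct 3 6
  1 1 1 (.lf 3 9 192) (.lf 2 10 192)) (.lf 3 10 176))) (.ct 2 3 1 1 1 (.ct 1 2 1 1 1 (.dc 2 3 0
  (.ct 3 6 1 1 1 (.lf 3 8 192) (.lf 2 9 192))) (.ct 1 3 1 1 1 (.dc 2 3 0 (.ct 1 6 1 1 1 (.ct 3 6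
  1 1 1 (.lf 3 8 224) (.lf 2 8 224)) (.lf 2 11 208))) (.dc 2 3 1 (.ct 3 6 1 1 1 (.lf 3 11 208)
  (.lf 2 12 208))))) (.ct 1 3 1 1 1 (.dc 2 3 0 (.lf 3 8 176)) (.dc 2 3 1 (.lf 3 11 176))))) (.dc
  2 3 0 (.ct 2 3 1 1 1 (.ct 3 6 1 1 1 (.lf 3 11 160) (.lf 2 10 160)) (.lf 3 11 144)))))))))))
  (.dc 0 14 0 (.dc 1 14 0 (.ct 1 6 1 1 1 (.dc 2 3 0 (.ct 5 6 1 1 1 (.dc 0 3 0 (.dc 1 3 0 (.lf 3 7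
  176))) (.dc 0 3 1 (.ct 4 5 1 1 1 (.dc 1 3 1 (.lf 3 10 192)) (.dc 1 3 0 (.lf 3 5 192)))))) (.dc
  0 3 1 (.ct 1 4 1 1 1 (.dc 2 3 0 (.ct 4 5 1 1 1 (.dc 1 3 1 (.lf 3 9 192)) (.dc 1 3 0 (.lf 3 5
  192)))) (.dc 1 3 1 (.ct 1 3 1 1 1 (.dc 2 3 0 (.lf 3 8 176)) (.dc 2 3 1 (.lf 3 11
  160)))))))))))))

theorem dt335 : le (run cls4 4 tr335 [[1, 0, 0, 0, 1, 1, 1], [1, 1, 0, 0, 0, 0, 0], [1, 1, 1,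
  0, 1, 1, 1], [1, 1, 1, 1, 1, 1, 0], [2, 1, 1, 1, 3, 2, 2], [1, 1, 0, 0, 1, 1, 0], [1, 1, 1, 1,
  2, 2, 2]] 281439542689237 [19, 43, 55, 55, 91, 91, 103]) 3678794967250 = true := by
  decide +kernel

/-- data -/
noncomputable def tr336 : Ct := (.dc 2 3 0 (.ct 0 4 1 1 1 (.ct 2 3 1 1 1 (.ct 1 4 1 1 1 (.ct 1
  3 1 1 1 (.ct 4 6 1 1 1 (.dc 0 1 0 (.ct 4 5 1 1 1 (.ct 3 4 1 1 1 (.ct 5 6 1 1 1 (.dc 1 3 0 (.lf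
  3 7 192)) (.dc 1 3 1 (.lf 3 7 192))) (.ct 5 6 1 1 1 (.dc 1 3 0 (.ct 3 5 1 1 1 (.lf 3 6 176)
  (.ct 3 6 1 1 1 (.lf 3 6 192) (.lf 2 9 192)))) (.dc 1 3 1 (.ct 3 6 1 1 1 (.lf 3 7 176) (.lf 2 8
  176))))) (.dc 1 3 0 (.ct 3 4 1 1 1 (.lf 3 6 208) (.ct 3 5 1 1 1 (.lf 3 6 224) (.ct 3 6 1 1 1
  (.lf 3 6 224) (.lf 2 9 224))))))) (.dc 0 1 1 (.ct 5 6 1 1 1 (.dc 1 3 0 (.ct 3 5 1 1 1 (.lf 3 13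
  224) (.ct 3 6 1 1 1 (.lf 3 13 240) (.lf 2 13 208)))) (.dc 1 3 1 (.ct 3 6 1 1 1 (.lf 3 12 192)
  (.lf 2 13 176)))))) (.ct 4 6 1 1 1 (.dc 0 1 0 (.ct 4 5 1 1 1 (.ct 5 6 1 1 1 (.dc 1 3 0 (.lf 3 7
  160)) (.dc 1 3 1 (.lf 3 7 160))) (.dc 1 3 0 (.lf 3 6 192)))) (.dc 0 1 1 (.ct 5 6 1 1 1 (.dc 1 3
  0 (.lf 3 13 192)) (.dc 1 3 1 (.lf 3 12 160)))))) (.dc 0 1 0 (.ct 1 3 1 1 1 (.ct 3 4 1 1 1 (.ct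
  5 6 1 1 1 (.dc 1 3 0 (.lf 3 6 176)) (.dc 1 3 1 (.lf 3 7 176))) (.ct 5 6 1 1 1 (.dc 1 3 0 (.ct 3
  5 1 1 1 (.lf 3 6 176) (.ct 3 6 1 1 1 (.lf 3 6 192) (.lf 2 9 192)))) (.dc 1 3 1 (.ct 3 6 1 1 1
  (.lf 3 7 176) (.lf 2 8 176))))) (.ct 5 6 1 1 1 (.dc 1 3 0 (.lf 3 7 208)) (.dc 1 3 1 (.lf 3 8
  208)))))) (.ct 1 4 1 1 1 (.ct 4 6 1 1 1 (.dc 0 1 0 (.ct 4 5 1 1 1 (.ct 5 6 1 1 1 (.dc 1 3 0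
  (.lf 3 7 160)) (.dc 1 3 1 (.lf 3 8 160))) (.dc 1 3 0 (.lf 3 7 192)))) (.dc 0 1 1 (.ct 5 6 1 1 1
  (.dc 1 3 0 (.lf 3 13 192)) (.dc 1 3 1 (.lf 3 12 160))))) (.dc 0 1 0 (.ct 5 6 1 1 1 (.dc 1 3 0
  (.lf 3 7 176)) (.dc 1 3 1 (.lf 3 8 176)))))) (.dc 0 1 0 (.ct 1 3 1 1 1 (.ct 2 3 1 1 1 (.ct 5 6
  1 1 1 (.dc 1 3 0 (.ct 3 5 1 1 1 (.lf 3 8 192) (.ct 3 6 1 1 1 (.lf 3 7 192) (.lf 2 9 192))))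
  (.dc 1 3 1 (.ct 3 6 1 1 1 (.lf 3 9 192) (.lf 2 8 192)))) (.ct 5 6 1 1 1 (.dc 1 3 0 (.lf 3 8
  192)) (.dc 1 3 1 (.lf 3 9 192)))) (.ct 5 6 1 1 1 (.dc 1 3 0 (.lf 3 7 224)) (.dc 1 3 1 (.lf 3 10
  224)))))))

theorem dt336 : le (run cls4 4 tr336 [[2, 1, 1, 1, 2, 2, 1], [3, 2, 1, 1, 3, 2, 2], [2, 1, 1,
  0, 2, 1, 1], [2, 1, 1, 1, 2, 1, 0], [1, 0, 0, 0, 1, 0, 0], [1, 1, 0, 0, 1, 1, 0], [2, 1, 1, 1,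
  3, 2, 2]] 281440616447997 [45, 105, 117, 117, 105, 189, 201]) 781667932849 = true := by
  decide +kernel

end Pool.Agent.Work.MP_122e00_nt.Sharp.Cx

end

section

set_option autoImplicit false

set_option maxRecDepth 100000

/-!
# The certificate: data
-/

namespace Pool.Agent.Work.MP_122e00_nt.Sharp.Cx

/-- data -/
noncomputable def tr337 : Ct := (.ct 0 1 1 1 1 (.ct 4 6 1 1 1 (.dc 0 1 0 (.ct 2 3 1 1 1 (.ct 1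
  2 1 1 1 (.dc 2 3 0 (.ct 3 4 1 1 1 (.lf 3 6 192) (.ct 3 6 1 1 1 (.lf 3 6 224) (.lf 2 7 224))))
  (.ct 3 4 1 1 1 (.ct 1 3 1 1 1 (.dc 2 3 0 (.lf 3 6 224)) (.dc 2 3 1 (.lf 3 11 224))) (.ct 1 4 1
  1 1 (.dc 2 3 0 (.ct 3 6 1 1 1 (.lf 3 6 240) (.lf 2 6 240))) (.ct 1 3 1 1 1 (.dc 2 3 0 (.ct 1 6
  1 1 1 (.ct 3 6 1 1 1 (.lf 3 6 240) (.lf 2 6 240)) (.lf 2 10 224))) (.dc 2 3 1 (.ct 3 6 1 1 1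
  (.lf 3 11 208) (.lf 2 12 224))))))) (.ct 1 3 1 1 1 (.dc 2 3 0 (.lf 3 7 192)) (.dc 2 3 1 (.lf 3
  11 192))))) (.dc 0 1 1 (.ct 2 3 1 1 1 (.ct 1 2 1 1 1 (.dc 2 3 0 (.ct 3 6 1 1 1 (.lf 3 12 192)
  (.lf 2 13 192))) (.ct 1 3 1 1 1 (.dc 2 3 0 (.ct 1 6 1 1 1 (.ct 3 6 1 1 1 (.lf 3 12 224) (.lf 2
  13 208)) (.lf 2 13 224))) (.dc 2 3 1 (.ct 3 6 1 1 1 (.lf 3 10 224) (.lf 2 10 224))))) (.ct 1 3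
  1 1 1 (.dc 2 3 0 (.lf 3 12 192)) (.dc 2 3 1 (.lf 3 10 192)))))) (.dc 2 3 0 (.ct 2 3 1 1 1 (.ct
  4 6 1 1 1 (.dc 0 1 0 (.ct 3 4 1 1 1 (.lf 3 7 176) (.ct 3 6 1 1 1 (.lf 3 7 208) (.lf 2 8 208))))
  (.dc 0 1 1 (.ct 3 6 1 1 1 (.lf 3 13 176) (.lf 2 12 176)))) (.ct 4 6 1 1 1 (.dc 0 1 0 (.lf 3 8
  176)) (.dc 0 1 1 (.lf 3 13 176))))))

theorem dt337 : le (run cls4 4 tr337 [[3, 1, 1, 1, 3, 2, 1], [1, 1, 0, 0, 0, 0, 0], [2, 1, 1,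
  0, 2, 1, 1], [2, 1, 1, 1, 2, 1, 0], [1, 0, 0, 0, 1, 0, 0], [1, 1, 0, 0, 1, 1, 0], [3, 2, 1, 1,
  3, 2, 2]] 281440616972285 [49, 109, 145, 145, 133, 193, 229]) 406027251584 = true := by
  decide +kernel

/-- data -/
noncomputable def tr338 : Ct := (.dc 0 1 0 (.ct 0 1 1 1 1 (.ct 1 4 1 1 1 (.dc 2 3 0 (.ct 2 3 1
  1 1 (.ct 3 6 1 1 1 (.lf 3 7 208) (.lf 2 9 208)) (.lf 3 7 176))) (.ct 2 3 1 1 1 (.ct 1 2 1 1 1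
  (.dc 2 3 0 (.ct 3 6 1 1 1 (.lf 3 7 224) (.lf 2 7 224))) (.ct 1 3 1 1 1 (.dc 2 3 0 (.ct 1 6 1 1
  1 (.ct 3 6 1 1 1 (.lf 3 7 208) (.lf 2 7 208)) (.lf 2 9 192))) (.dc 2 3 1 (.ct 3 6 1 1 1 (.lf 3
  11 176) (.lf 2 12 192))))) (.ct 1 3 1 1 1 (.dc 2 3 0 (.lf 3 7 192)) (.dc 2 3 1 (.lf 3 11
  176))))) (.dc 2 3 0 (.ct 2 3 1 1 1 (.ct 3 6 1 1 1 (.lf 3 9 224) (.lf 2 7 192)) (.lf 3 9 192)))))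

theorem dt338 : le (run cls4 4 tr338 [[2, 1, 1, 1, 2, 2, 1], [1, 1, 0, 0, 0, 0, 0], [2, 1, 1,
  0, 2, 1, 1], [2, 1, 1, 1, 2, 1, 0], [3, 1, 1, 1, 3, 2, 1], [1, 1, 0, 0, 1, 1, 0], [3, 2, 1, 1,
  3, 2, 2]] 281440616972285 [49, 109, 145, 145, 133, 193, 229]) 1561927794528 = true := by
  decide +kernel

/-- data -/
noncomputable def tr339 : Ct := (.dc 2 3 0 (.ct 1 3 1 1 1 (.ct 2 3 1 1 1 (.ct 3 6 1 1 1 (.dc 1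
  14 0 (.ct 3 5 1 1 1 (.ct 5 6 1 1 1 (.dc 1 3 0 (.ct 4 5 1 1 1 (.lf 3 8 224) (.ct 4 6 1 1 1 (.lf
  3 7 208) (.lf 2 10 208)))) (.dc 1 3 1 (.ct 4 6 1 1 1 (.lf 3 11 224) (.lf 2 9 208)))) (.dc 1 3 0
  (.ct 4 6 1 1 1 (.lf 3 8 224) (.lf 2 11 224))))) (.dc 1 14 1 (.ct 5 6 1 1 1 (.dc 1 3 0 (.lf 2 10
  224)) (.dc 1 3 1 (.lf 2 9 208))))) (.dc 1 14 0 (.ct 2 4 1 1 1 (.ct 5 6 1 1 1 (.dc 1 3 0 (.ct 4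
  5 1 1 1 (.lf 3 8 192) (.ct 4 6 1 1 1 (.lf 3 8 192) (.lf 2 9 192)))) (.dc 1 3 1 (.ct 4 6 1 1 1
  (.lf 3 9 192) (.lf 2 8 192)))) (.ct 5 6 1 1 1 (.dc 1 3 0 (.lf 3 8 192)) (.dc 1 3 1 (.lf 3 9
  176)))))) (.dc 1 14 0 (.ct 1 4 1 1 1 (.ct 2 4 1 1 1 (.ct 5 6 1 1 1 (.dc 1 3 0 (.ct 4 5 1 1 1
  (.lf 3 8 192) (.ct 4 6 1 1 1 (.lf 3 8 192) (.lf 2 9 192)))) (.dc 1 3 1 (.ct 4 6 1 1 1 (.lf 3 9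
  192) (.lf 2 8 192)))) (.ct 5 6 1 1 1 (.dc 1 3 0 (.lf 3 8 192)) (.dc 1 3 1 (.lf 3 9 176)))) (.ct
  5 6 1 1 1 (.dc 1 3 0 (.lf 3 7 224)) (.dc 1 3 1 (.lf 3 10 208)))))))

theorem dt339 : le (run cls4 4 tr339 [[2, 1, 1, 1, 2, 2, 1], [3, 2, 1, 1, 3, 2, 2], [2, 1, 1,
  0, 2, 1, 1], [1, 1, 1, 1, 1, 1, 0], [2, 1, 1, 1, 2, 1, 0], [1, 1, 0, 0, 1, 1, 0], [2, 1, 1, 1,
  3, 2, 2]] 281439542706175 [45, 105, 117, 117, 105, 189, 201]) 2360280628644 = true := by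
  decide +kernel

end Pool.Agent.Work.MP_122e00_nt.Sharp.Cx

end

section

set_option autoImplicit false

set_option maxRecDepth 100000

/-!
# The certificate: data
-/

namespace Pool.Agent.Work.MP_122e00_nt.Sharp.Cx

/-- data -/
noncomputable def tr340 : Ct := (.dc 1 3 1 (.ct 2 3 1 1 1 (.ct 3 6 1 1 1 (.dc 1 14 0 (.ct 0 1 1
  1 1 (.ct 1 2 1 1 1 (.dc 2 3 0 (.ct 4 6 1 1 1 (.lf 3 9 224) (.lf 2 8 224))) (.ct 1 3 1 1 1 (.dc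
  2 3 0 (.ct 4 6 1 1 1 (.lf 3 9 224) (.lf 2 8 192))) (.ct 1 4 1 1 1 (.dc 2 3 0 (.ct 1 6 1 1 1
  (.ct 4 6 1 1 1 (.lf 3 7 208) (.lf 2 9 176)) (.lf 2 10 192))) (.dc 2 3 1 (.ct 4 6 1 1 1 (.lf 3
  11 208) (.lf 2 12 192)))))) (.dc 2 3 0 (.ct 4 6 1 1 1 (.lf 3 10 208) (.lf 2 8 208))))) (.dc 1
  14 1 (.ct 0 1 1 1 1 (.ct 1 2 1 1 1 (.dc 2 3 0 (.lf 2 8 192)) (.ct 1 3 1 1 1 (.dc 2 3 0 (.lf 2 8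
  160)) (.ct 1 4 1 1 1 (.dc 2 3 0 (.lf 2 7 160)) (.ct 1 6 1 1 1 (.dc 2 3 0 (.lf 2 8 192)) (.dc 2
  3 1 (.lf 2 12 192)))))) (.dc 2 3 0 (.lf 2 8 176))))) (.dc 1 14 0 (.ct 0 1 1 1 1 (.ct 1 3 1 1 1
  (.dc 2 3 0 (.ct 2 4 1 1 1 (.ct 4 6 1 1 1 (.lf 3 7 208) (.lf 2 9 208)) (.lf 3 7 176))) (.ct 2 4
  1 1 1 (.ct 1 2 1 1 1 (.dc 2 3 0 (.ct 4 6 1 1 1 (.lf 3 7 224) (.lf 2 7 192))) (.ct 1 4 1 1 1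
  (.dc 2 3 0 (.ct 1 6 1 1 1 (.ct 4 6 1 1 1 (.lf 3 7 224) (.lf 2 7 192)) (.lf 2 9 176))) (.dc 2 3
  1 (.ct 4 6 1 1 1 (.lf 3 11 192) (.lf 2 12 176))))) (.ct 1 4 1 1 1 (.dc 2 3 0 (.lf 3 7 192))
  (.dc 2 3 1 (.lf 3 11 192))))) (.dc 2 3 0 (.ct 2 4 1 1 1 (.ct 4 6 1 1 1 (.lf 3 8 224) (.lf 2 7
  224)) (.lf 3 9 192)))))))

theorem dt340 : le (run cls4 4 tr340 [[2, 1, 1, 1, 2, 2, 1], [1, 1, 0, 0, 0, 0, 0], [2, 1, 1,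
  0, 2, 1, 1], [1, 1, 1, 1, 1, 1, 0], [2, 1, 1, 1, 2, 1, 0], [1, 1, 0, 0, 1, 1, 0], [3, 2, 1, 1,
  3, 2, 2]] 281439542706175 [45, 105, 117, 117, 105, 189, 201]) 2044912859499 = true := by
  decide +kernel

/-- data -/
noncomputable def tr341 : Ct := (.dc 0 1 0 (.dc 0 9 0 (.ct 3 4 1 1 1 (.dc 1 14 0 (.ct 1 6 1 1 1
  (.dc 2 3 0 (.ct 5 6 1 1 1 (.dc 1 3 0 (.lf 3 8 192)) (.dc 1 3 1 (.lf 3 11 192)))) (.dc 1 3 1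
  (.ct 0 1 1 1 1 (.ct 1 3 1 1 1 (.dc 2 3 0 (.lf 3 7 176)) (.dc 2 3 1 (.lf 3 11 176))) (.dc 2 3 0
  (.lf 3 9 176)))))) (.ct 1 6 1 1 1 (.dc 2 3 0 (.ct 1 3 1 1 1 (.ct 3 6 1 1 1 (.dc 1 14 0 (.ct 3 5
  1 1 1 (.ct 5 6 1 1 1 (.dc 1 3 0 (.lf 3 8 224)) (.dc 1 3 1 (.lf 3 11 224))) (.dc 1 3 0 (.lf 3 8
  224)))) (.dc 1 14 1 (.ct 5 6 1 1 1 (.dc 1 3 0 (.ct 2 3 1 1 1 (.lf 2 9 224) (.lf 3 10 224)))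
  (.dc 1 3 1 (.ct 2 3 1 1 1 (.lf 2 10 208) (.lf 3 11 208)))))) (.dc 1 14 0 (.ct 5 6 1 1 1 (.dc 1
  3 0 (.lf 3 8 192)) (.dc 1 3 1 (.lf 3 11 192)))))) (.dc 1 3 1 (.ct 3 6 1 1 1 (.dc 1 14 0 (.ct 0
  1 1 1 1 (.ct 1 3 1 1 1 (.dc 2 3 0 (.lf 3 9 208)) (.ct 1 4 1 1 1 (.dc 2 3 0 (.lf 3 7 208)) (.dc
  2 3 1 (.lf 3 11 208)))) (.dc 2 3 0 (.lf 3 10 176)))) (.dc 1 14 1 (.ct 0 1 1 1 1 (.ct 1 4 1 1 1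
  (.dc 2 3 0 (.ct 2 3 1 1 1 (.lf 2 9 192) (.lf 3 8 192))) (.ct 1 6 1 1 1 (.dc 2 3 0 (.ct 2 3 1 1
  1 (.lf 2 9 192) (.lf 3 8 192))) (.ct 1 3 1 1 1 (.dc 2 3 0 (.ct 1 2 1 1 1 (.ct 2 3 1 1 1 (.lf 2
  8 208) (.lf 3 6 208)) (.lf 2 10 208))) (.dc 2 3 1 (.ct 2 3 1 1 1 (.lf 2 12 208) (.lf 3 11
  208)))))) (.dc 2 3 0 (.ct 2 3 1 1 1 (.lf 2 9 176) (.lf 3 10 176)))))))))))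

theorem dt341 : le (run cls4 4 tr341 [[2, 1, 1, 1, 2, 2, 1], [1, 1, 0, 0, 0, 0, 0], [1, 1, 1,
  0, 1, 1, 1], [1, 1, 1, 1, 1, 1, 0], [2, 1, 1, 0, 2, 1, 1], [1, 1, 0, 0, 1, 1, 0], [2, 1, 1, 1,
  3, 2, 2]] 281439542705661 [41, 77, 89, 113, 101, 161, 173]) 2174199798383 = true := by
  decide +kernel

/-- data -/
noncomputable def tr342 : Ct := (.dc 0 14 0 (.dc 1 14 0 (.ct 2 4 1 1 1 (.dc 0 9 1 (.ct 1 6 1 1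
  1 (.dc 2 3 0 (.ct 1 4 1 1 1 (.ct 3 4 1 1 1 (.ct 4 6 1 1 1 (.dc 0 1 0 (.ct 4 5 1 1 1 (.ct 5 6 1
  1 1 (.dc 1 3 0 (.lf 3 5 160)) (.dc 1 3 1 (.lf 3 7 160))) (.dc 1 3 0 (.lf 3 5 192)))) (.dc 0 1 1
  (.ct 5 6 1 1 1 (.dc 1 3 0 (.lf 3 11 192)) (.dc 1 3 1 (.lf 3 11 160))))) (.dc 0 1 0 (.ct 5 6 1 1
  1 (.dc 1 3 0 (.lf 3 6 160)) (.dc 1 3 1 (.lf 3 7 160))))) (.dc 0 1 0 (.ct 5 6 1 1 1 (.dc 1 3 0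
  (.lf 3 7 192)) (.dc 1 3 1 (.lf 3 8 176)))))) (.dc 1 3 1 (.ct 4 6 1 1 1 (.dc 0 1 0 (.ct 1 3 1 1
  1 (.dc 2 3 0 (.lf 3 7 192)) (.dc 2 3 1 (.lf 3 10 176)))) (.ct 3 4 1 1 1 (.dc 0 1 1 (.ct 1 3 1 1
  1 (.dc 2 3 0 (.lf 3 11 176)) (.dc 2 3 1 (.lf 3 8 160)))) (.dc 0 1 0 (.ct 1 3 1 1 1 (.dc 2 3 0
  (.lf 3 6 160)) (.ct 1 4 1 1 1 (.dc 2 3 0 (.lf 3 5 176)) (.dc 2 3 1 (.lf 3 10 176)))))))))) (.dc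
  0 1 0 (.dc 0 9 0 (.ct 1 6 1 1 1 (.dc 2 3 0 (.ct 5 6 1 1 1 (.dc 1 3 0 (.lf 3 8 192)) (.dc 1 3 1
  (.lf 3 9 192)))) (.dc 1 3 1 (.ct 1 3 1 1 1 (.dc 2 3 0 (.lf 3 8 176)) (.dc 2 3 1 (.lf 3 10
  160))))))))))

theorem dt342 : le (run cls4 4 tr342 [[1, 0, 0, 0, 1, 1, 1], [1, 1, 0, 0, 0, 0, 0], [1, 1, 1,
  0, 1, 1, 1], [2, 1, 1, 1, 2, 2, 1], [1, 0, 0, 0, 1, 0, 0], [1, 1, 0, 0, 1, 1, 0], [2, 1, 1, 1,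
  3, 2, 2]] 281439542689277 [27, 75, 87, 111, 99, 147, 159]) 437204035918 = true := by
  decide +kernel

end Pool.Agent.Work.MP_122e00_nt.Sharp.Cx

end

section

set_option autoImplicit false

set_option maxRecDepth 100000

/-!
# The certificate: data
-/

namespace Pool.Agent.Work.MP_122e00_nt.Sharp.Cx

/-- data -/
noncomputable def tr343 : Ct := (.dc 0 1 0 (.dc 0 5 0 (.dc 0 9 0 (.ct 1 6 1 1 1 (.dc 0 3 0 (.dc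
  1 3 0 (.dc 2 3 0 (.ct 4 5 1 1 1 (.dc 1 14 1 (.ct 1 5 1 1 1 (.ct 2 5 1 1 1 (.ct 5 6 1 1 1 (.lf 3
  6 176) (.lf 2 9 160)) (.lf 3 6 176)) (.lf 3 7 176))) (.dc 1 14 0 (.lf 3 8 176)))))) (.dc 0 3 1
  (.ct 1 3 1 1 1 (.dc 1 3 0 (.dc 2 3 0 (.ct 4 5 1 1 1 (.dc 1 14 1 (.ct 2 5 1 1 1 (.ct 5 6 1 1 1
  (.lf 3 8 160) (.lf 2 8 160)) (.lf 3 8 160))) (.dc 1 14 0 (.lf 3 7 160))))) (.ct 4 5 1 1 1 (.dc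
  1 14 1 (.ct 1 4 1 1 1 (.dc 1 3 0 (.dc 2 3 0 (.ct 2 5 1 1 1 (.ct 5 6 1 1 1 (.lf 3 7 176) (.lf 2
  7 176)) (.lf 3 8 176)))) (.dc 1 3 1 (.ct 1 4 1 1 1 (.dc 2 3 0 (.ct 2 5 1 1 1 (.ct 5 6 1 1 1
  (.lf 3 6 208) (.lf 2 8 208)) (.lf 3 7 208))) (.ct 2 5 1 1 1 (.ct 1 2 1 1 1 (.dc 2 3 0 (.ct 5 6
  1 1 1 (.lf 3 7 208) (.lf 2 7 208))) (.ct 1 5 1 1 1 (.dc 2 3 0 (.ct 1 6 1 1 1 (.ct 5 6 1 1 1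
  (.lf 3 7 224) (.lf 2 7 224)) (.lf 2 12 224))) (.dc 2 3 1 (.ct 5 6 1 1 1 (.lf 3 12 224) (.lf 2
  12 224))))) (.ct 1 5 1 1 1 (.dc 2 3 0 (.lf 3 7 208)) (.dc 2 3 1 (.lf 3 12 208)))))))) (.dc 1 14
  0 (.ct 1 4 1 1 1 (.dc 1 3 0 (.dc 2 3 0 (.lf 3 7 176))) (.ct 1 5 1 1 1 (.dc 1 3 0 (.dc 2 3 0
  (.lf 3 8 192))) (.dc 1 3 1 (.ct 1 5 1 1 1 (.dc 2 3 0 (.lf 3 7 224)) (.dc 2 3 1 (.lf 3 12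
  208))))))))))))))

theorem dt343 : le (run cls4 4 tr343 [[2, 1, 1, 1, 1, 1, 1], [1, 1, 0, 0, 0, 0, 0], [1, 1, 1,
  0, 1, 1, 1], [3, 2, 2, 2, 3, 2, 2], [2, 1, 1, 1, 3, 2, 2], [1, 1, 1, 1, 1, 1, 0], [1, 1, 1, 1,
  2, 2, 2]] 281439542705621 [35, 59, 59, 59, 107, 119, 119]) 12240517329709 = true := by
  decide +kernel

/-- data -/
noncomputable def tr344 : Ct := (.dc 1 3 0 (.dc 2 3 0 (.ct 2 5 1 1 1 (.ct 5 6 1 1 1 (.dc 1 14 0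
  (.ct 4 6 1 1 1 (.lf 3 5 208) (.lf 2 9 208))) (.dc 1 14 1 (.lf 2 9 192))) (.dc 1 14 0 (.ct 2 4 1
  1 1 (.ct 4 6 1 1 1 (.lf 3 7 208) (.lf 2 10 208)) (.lf 3 6 192))))))

theorem dt344 : le (run cls4 4 tr344 [[2, 1, 1, 1, 1, 1, 1], [4, 3, 2, 2, 3, 2, 2], [2, 1, 1,
  0, 2, 1, 1], [3, 2, 2, 2, 3, 2, 2], [2, 1, 1, 1, 2, 1, 0], [1, 1, 1, 1, 1, 1, 0], [2, 1, 1, 1,
  3, 2, 2]] 281439542706175 [47, 119, 119, 119, 119, 203, 203]) 7082236197989 = true := by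
  decide +kernel

/-- data -/
noncomputable def tr345 : Ct := (.ct 1 6 1 1 1 (.dc 1 3 0 (.dc 2 3 0 (.ct 1 5 1 1 1 (.ct 5 6 1
  1 1 (.dc 1 14 0 (.ct 4 6 1 1 1 (.lf 3 5 192) (.lf 2 9 192))) (.dc 1 14 1 (.lf 2 9 192))) (.dc 1
  14 0 (.ct 1 4 1 1 1 (.ct 4 6 1 1 1 (.lf 3 4 224) (.lf 2 11 224)) (.lf 3 4 224)))))) (.dc 1 3 1
  (.ct 5 6 1 1 1 (.dc 1 14 0 (.ct 1 2 1 1 1 (.dc 2 3 0 (.ct 4 6 1 1 1 (.lf 3 9 240) (.lf 2 10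
  240))) (.ct 1 5 1 1 1 (.dc 2 3 0 (.ct 4 6 1 1 1 (.lf 3 9 240) (.lf 2 9 208))) (.ct 1 4 1 1 1
  (.dc 2 3 0 (.ct 1 6 1 1 1 (.ct 4 6 1 1 1 (.lf 3 7 224) (.lf 2 11 192)) (.lf 2 11 208))) (.dc 2
  3 1 (.ct 4 6 1 1 1 (.lf 3 12 224) (.lf 2 12 208))))))) (.dc 1 14 1 (.ct 1 2 1 1 1 (.dc 2 3 0
  (.lf 2 9 208)) (.ct 1 4 1 1 1 (.dc 2 3 0 (.lf 2 10 176)) (.ct 1 5 1 1 1 (.dc 2 3 0 (.lf 2 9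
  176)) (.ct 1 6 1 1 1 (.dc 2 3 0 (.lf 2 9 208)) (.dc 2 3 1 (.lf 2 12 208))))))))))

theorem dt345 : le (run cls4 4 tr345 [[2, 1, 1, 1, 1, 1, 1], [1, 1, 0, 0, 0, 0, 0], [3, 2, 2,
  1, 3, 2, 1], [4, 3, 2, 2, 3, 2, 2], [2, 1, 1, 1, 2, 1, 0], [1, 1, 1, 1, 1, 1, 0], [2, 1, 1, 1,
  3, 2, 2]] 281439542706175 [47, 119, 119, 119, 119, 203, 203]) 3626410507275 = true := by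
  decide +kernel

end Pool.Agent.Work.MP_122e00_nt.Sharp.Cx

end

section

set_option autoImplicit false

set_option maxRecDepth 100000

/-!
# The certificate: data
-/

namespace Pool.Agent.Work.MP_122e00_nt.Sharp.Cx

/-- data -/
noncomputable def tr346 : Ct := (.dc 1 14 0 (.ct 1 6 1 1 1 (.dc 1 3 0 (.dc 2 3 0 (.ct 1 4 1 1 1
  (.ct 2 4 1 1 1 (.ct 4 6 1 1 1 (.lf 3 6 240) (.lf 2 10 240)) (.lf 3 6 224)) (.lf 3 4 208))))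
  (.dc 1 3 1 (.ct 1 5 1 1 1 (.dc 2 3 0 (.ct 2 4 1 1 1 (.ct 4 6 1 1 1 (.lf 3 8 224) (.lf 2 11
  224)) (.lf 3 8 192))) (.ct 2 4 1 1 1 (.ct 1 2 1 1 1 (.dc 2 3 0 (.ct 4 6 1 1 1 (.lf 3 8 224)
  (.lf 2 9 192))) (.ct 1 4 1 1 1 (.dc 2 3 0 (.ct 1 6 1 1 1 (.ct 4 6 1 1 1 (.lf 3 8 224) (.lf 2 9
  192)) (.lf 2 10 176))) (.dc 2 3 1 (.ct 4 6 1 1 1 (.lf 3 12 192) (.lf 2 12 176))))) (.ct 1 4 1 1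
  1 (.dc 2 3 0 (.lf 3 8 192)) (.dc 2 3 1 (.lf 3 12 192))))))))

theorem dt346 : le (run cls4 4 tr346 [[2, 1, 1, 1, 1, 1, 1], [1, 1, 0, 0, 0, 0, 0], [2, 1, 1,
  0, 2, 1, 1], [4, 3, 2, 2, 3, 2, 2], [2, 1, 1, 1, 2, 1, 0], [3, 2, 2, 1, 3, 2, 1], [2, 1, 1, 1,
  3, 2, 2]] 281439542706175 [47, 119, 119, 119, 119, 203, 203]) 2537712389626 = true := by
  decide +kernel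

/-- data -/
noncomputable def tr347 : Ct := (.dc 1 3 0 (.dc 2 3 0 (.ct 0 4 1 1 1 (.ct 1 4 1 2 1 (.ct 3 4 1
  2 1 (.ct 2 5 1 1 1 (.ct 4 6 1 1 1 (.dc 0 1 0 (.ct 4 5 1 1 1 (.ct 5 6 1 1 1 (.lf 3 5 192) (.lf 2
  7 176)) (.lf 3 5 224))) (.dc 0 1 1 (.ct 5 6 1 1 1 (.lf 3 12 208) (.lf 2 13 192)))) (.ct 4 6 1 1
  1 (.dc 0 1 0 (.lf 3 5 224)) (.dc 0 1 1 (.lf 3 12 208)))) (.dc 0 1 0 (.ct 2 5 1 1 1 (.ct 5 6 1 1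
  1 (.lf 3 6 192) (.lf 2 7 176)) (.lf 3 5 192)))) (.dc 0 1 0 (.ct 2 5 1 1 1 (.ct 5 6 1 1 1 (.lf 3
  6 208) (.lf 2 8 208)) (.lf 3 6 208)))) (.dc 0 1 0 (.ct 2 5 1 1 1 (.ct 5 6 1 1 1 (.lf 3 7 176)
  (.lf 2 9 176)) (.lf 3 6 176))))))

theorem dt347 : le (run cls4 4 tr347 [[2, 1, 1, 1, 1, 1, 1], [4, 3, 2, 2, 3, 2, 2], [2, 1, 1,
  0, 2, 1, 1], [3, 2, 2, 2, 3, 2, 2], [1, 0, 0, 0, 1, 0, 0], [2, 1, 1, 1, 2, 1, 0], [2, 1, 1, 1,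
  3, 2, 2]] 281440616447997 [47, 119, 119, 119, 119, 203, 203]) 3929530784431 = true := by
  decide +kernel

/-- data -/
noncomputable def tr348 : Ct := (.dc 1 3 0 (.dc 2 3 0 (.ct 0 4 1 1 1 (.ct 3 4 1 2 1 (.ct 2 5 1
  1 1 (.ct 1 4 1 1 1 (.ct 1 5 1 1 1 (.ct 4 6 1 1 1 (.dc 0 1 0 (.ct 4 5 1 1 1 (.ct 5 6 1 1 1 (.lf
  3 5 192) (.lf 2 7 192)) (.lf 3 5 224))) (.dc 0 1 1 (.ct 5 6 1 1 1 (.lf 3 12 224) (.lf 2 13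
  192)))) (.ct 4 6 1 1 1 (.dc 0 1 0 (.lf 3 5 224)) (.dc 0 1 1 (.lf 3 12 224)))) (.dc 0 1 0 (.ct 1
  5 1 1 1 (.ct 4 5 1 1 1 (.ct 5 6 1 1 1 (.lf 3 5 192) (.lf 2 7 192)) (.lf 3 5 192)) (.lf 3 6
  224)))) (.ct 1 4 1 1 1 (.ct 4 6 1 1 1 (.dc 0 1 0 (.lf 3 6 224)) (.dc 0 1 1 (.lf 3 12 208)))
  (.dc 0 1 0 (.lf 3 6 224)))) (.dc 0 1 0 (.ct 1 5 1 1 1 (.ct 2 5 1 1 1 (.ct 5 6 1 1 1 (.lf 3 6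
  208) (.lf 2 7 208)) (.lf 3 5 208)) (.lf 3 6 224)))) (.dc 0 1 0 (.ct 1 5 1 1 1 (.ct 2 5 1 1 1
  (.ct 5 6 1 1 1 (.lf 3 6 208) (.lf 2 9 208)) (.lf 3 6 208)) (.lf 3 7 224))))))

theorem dt348 : le (run cls4 4 tr348 [[2, 1, 1, 1, 1, 1, 1], [3, 2, 1, 1, 3, 2, 2], [2, 1, 1,
  0, 2, 1, 1], [4, 3, 2, 2, 3, 2, 2], [1, 0, 0, 0, 1, 0, 0], [2, 1, 1, 1, 2, 1, 0], [2, 1, 1, 1,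
  3, 2, 2]] 281440616447997 [47, 119, 119, 119, 119, 203, 203]) 2810434699568 = true := by
  decide +kernel

end Pool.Agent.Work.MP_122e00_nt.Sharp.Cx

end
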