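import Pool.Agent.Work.MP_122e00_nt.Bd.B03

/-! Bundle of small proof modules (one section per former module). -/

section

set_option autoImplicit false

set_option maxRecDepth 100000

/-!
# The certificate: data
-/

namespace Pool.Agent.Work.MP_122e00_nt.Sharp.Cx

/-- data -/
noncomputable def tr349 : Ct := (.ct 3 4 1 2 1 (.ct 4 6 1 1 1 (.dc 0 1 0 (.ct 2 5 1 1 1 (.ct 1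
  2 1 1 1 (.dc 2 3 0 (.ct 4 5 1 1 1 (.ct 5 6 1 1 1 (.lf 3 6 240) (.lf 2 6 208)) (.lf 3 6 240)))
  (.ct 4 5 1 1 1 (.ct 1 4 1 1 1 (.dc 2 3 0 (.ct 5 6 1 1 1 (.lf 3 6 256) (.lf 2 6 240))) (.ct 1 5
  1 1 1 (.dc 2 3 0 (.ct 1 6 1 1 1 (.ct 5 6 1 1 1 (.lf 3 6 256) (.lf 2 6 240)) (.lf 2 10 240)))
  (.dc 2 3 1 (.ct 5 6 1 1 1 (.lf 3 11 256) (.lf 2 12 240))))) (.ct 1 5 1 1 1 (.dc 2 3 0 (.lf 3 6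
  272)) (.dc 2 3 1 (.lf 3 11 272))))) (.ct 1 5 1 1 1 (.dc 2 3 0 (.lf 3 7 240)) (.dc 2 3 1 (.lf 3
  11 240))))) (.dc 0 1 1 (.ct 2 5 1 1 1 (.ct 1 2 1 1 1 (.dc 2 3 0 (.ct 5 6 1 1 1 (.lf 3 13 208)
  (.lf 2 13 208))) (.ct 1 5 1 1 1 (.dc 2 3 0 (.ct 1 6 1 1 1 (.ct 5 6 1 1 1 (.lf 3 13 240) (.lf 2
  13 240)) (.lf 2 13 240))) (.dc 2 3 1 (.ct 5 6 1 1 1 (.lf 3 10 240) (.lf 2 11 224))))) (.ct 1 5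
  1 1 1 (.dc 2 3 0 (.lf 3 13 208)) (.dc 2 3 1 (.lf 3 10 208)))))) (.dc 0 1 0 (.ct 2 5 1 1 1 (.ct
  1 2 1 1 1 (.dc 2 3 0 (.ct 5 6 1 1 1 (.lf 3 7 240) (.lf 2 7 208))) (.ct 1 5 1 1 1 (.dc 2 3 0
  (.ct 1 6 1 1 1 (.ct 5 6 1 1 1 (.lf 3 7 224) (.lf 2 7 208)) (.lf 2 9 208))) (.dc 2 3 1 (.ct 5 6
  1 1 1 (.lf 3 11 224) (.lf 2 12 208))))) (.ct 1 5 1 1 1 (.dc 2 3 0 (.lf 3 7 240)) (.dc 2 3 1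
  (.lf 3 11 224))))))

theorem dt349 : le (run cls4 4 tr349 [[3, 1, 1, 1, 2, 1, 1], [1, 1, 0, 0, 0, 0, 0], [2, 1, 1,
  0, 2, 1, 1], [4, 3, 2, 2, 3, 2, 2], [1, 0, 0, 0, 1, 0, 0], [2, 1, 1, 1, 2, 1, 0], [3, 2, 1, 1,
  3, 2, 2]] 281440616972285 [51, 123, 147, 147, 147, 207, 231]) 771053532549 = true := by
  decide +kernel

/-- data -/
noncomputable def tr350 : Ct := (.dc 0 1 0 (.ct 2 5 1 1 1 (.ct 1 2 1 1 1 (.dc 2 3 0 (.ct 5 6 1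
  1 1 (.lf 3 8 240) (.lf 2 9 208))) (.ct 1 5 1 1 1 (.dc 2 3 0 (.ct 1 6 1 1 1 (.ct 5 6 1 1 1 (.lf
  3 8 224) (.lf 2 9 208)) (.lf 2 10 176))) (.dc 2 3 1 (.ct 5 6 1 1 1 (.lf 3 12 192) (.lf 2 12
  176))))) (.ct 1 5 1 1 1 (.dc 2 3 0 (.lf 3 8 208)) (.dc 2 3 1 (.lf 3 12 192)))))

theorem dt350 : le (run cls4 4 tr350 [[2, 1, 1, 1, 1, 1, 1], [1, 1, 0, 0, 0, 0, 0], [2, 1, 1,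
  0, 2, 1, 1], [4, 3, 2, 2, 3, 2, 2], [3, 1, 1, 1, 2, 1, 1], [2, 1, 1, 1, 2, 1, 0], [3, 2, 1, 1,
  3, 2, 2]] 281440616972285 [51, 123, 147, 147, 147, 207, 231]) 2537595058948 = true := by
  decide +kernel

/-- data -/
noncomputable def tr351 : Ct := (.dc 0 1 0 (.dc 0 9 0 (.ct 1 3 1 1 1 (.dc 1 3 0 (.dc 2 3 0 (.ct
  4 5 1 1 1 (.ct 5 6 1 1 1 (.dc 1 14 0 (.lf 3 6 192)) (.dc 1 14 1 (.ct 2 5 1 1 1 (.lf 2 7 192)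
  (.lf 3 6 192)))) (.dc 1 14 0 (.lf 3 5 192))))) (.ct 4 5 1 1 1 (.ct 1 6 1 1 1 (.dc 1 3 0 (.dc 2
  3 0 (.ct 1 5 1 1 1 (.ct 5 6 1 1 1 (.dc 1 14 0 (.lf 3 6 192)) (.dc 1 14 1 (.ct 2 5 1 1 1 (.lf 2
  6 192) (.lf 3 6 192)))) (.dc 1 14 0 (.lf 3 5 192))))) (.dc 1 3 1 (.ct 5 6 1 1 1 (.dc 1 14 0
  (.ct 1 4 1 1 1 (.dc 2 3 0 (.lf 3 8 208)) (.ct 1 5 1 1 1 (.dc 2 3 0 (.lf 3 8 240)) (.dc 2 3 1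
  (.lf 3 12 224))))) (.dc 1 14 1 (.ct 1 4 1 1 1 (.dc 2 3 0 (.ct 2 5 1 1 1 (.lf 2 9 208) (.lf 3 8
  208))) (.ct 1 6 1 1 1 (.dc 2 3 0 (.ct 2 5 1 1 1 (.lf 2 9 208) (.lf 3 8 208))) (.ct 1 5 1 1 1
  (.dc 2 3 0 (.ct 1 2 1 1 1 (.ct 2 5 1 1 1 (.lf 2 8 224) (.lf 3 6 224)) (.lf 2 11 224))) (.dc 2 3
  1 (.ct 2 5 1 1 1 (.lf 2 12 224) (.lf 3 12 224)))))))))) (.dc 1 14 0 (.ct 1 6 1 1 1 (.dc 1 3 0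
  (.dc 2 3 0 (.lf 3 5 176))) (.dc 1 3 1 (.ct 1 5 1 1 1 (.dc 2 3 0 (.lf 3 7 192)) (.dc 2 3 1 (.lf
  3 12 192))))))))))

theorem dt351 : le (run cls4 4 tr351 [[2, 1, 1, 1, 1, 1, 1], [1, 1, 0, 0, 0, 0, 0], [1, 1, 1,
  0, 1, 1, 1], [3, 2, 2, 2, 3, 2, 2], [2, 1, 1, 0, 2, 1, 1], [1, 1, 1, 1, 1, 1, 0], [2, 1, 1, 1,
  3, 2, 2]] 281439542705661 [43, 91, 91, 115, 115, 175, 175]) 4244453736479 = true := by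
  decide +kernel

end Pool.Agent.Work.MP_122e00_nt.Sharp.Cx

end

section

set_option autoImplicit false

set_option maxRecDepth 100000

/-!
# The certificate: data
-/

namespace Pool.Agent.Work.MP_122e00_nt.Sharp.Cx

/-- data -/
noncomputable def tr352 : Ct := (.dc 0 9 1 (.ct 4 5 1 1 1 (.dc 0 1 0 (.dc 1 14 1 (.ct 1 6 1 1 1
  (.dc 1 3 0 (.dc 2 3 0 (.lf 1 10 160))) (.dc 1 3 1 (.ct 1 4 1 1 1 (.dc 2 3 0 (.lf 1 10 176))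
  (.ct 1 5 1 1 1 (.dc 2 3 0 (.lf 1 10 176)) (.dc 2 3 1 (.lf 1 11 176)))))))) (.dc 1 14 0 (.ct 1 6
  1 1 1 (.dc 1 3 0 (.dc 2 3 0 (.ct 0 4 1 1 1 (.ct 1 4 1 2 1 (.ct 2 4 1 1 1 (.ct 4 6 2 1 1 (.dc 0
  1 0 (.lf 1 9 224)) (.dc 0 1 1 (.lf 1 12 208))) (.dc 0 1 0 (.lf 1 9 224))) (.dc 0 1 0 (.lf 1 10
  208))) (.dc 0 1 0 (.lf 1 10 176))))) (.dc 1 3 1 (.ct 0 4 1 1 1 (.ct 2 4 1 1 1 (.ct 4 6 2 1 1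
  (.dc 0 1 0 (.ct 1 5 1 1 1 (.dc 2 3 0 (.lf 1 9 224)) (.dc 2 3 1 (.lf 1 11 208)))) (.dc 0 1 1
  (.ct 1 5 1 1 1 (.dc 2 3 0 (.lf 1 12 208)) (.dc 2 3 1 (.lf 1 10 192))))) (.dc 0 1 0 (.ct 1 5 1 1
  1 (.dc 2 3 0 (.lf 1 9 192)) (.dc 2 3 1 (.lf 1 11 192))))) (.dc 0 1 0 (.ct 1 5 1 1 1 (.dc 2 3 0
  (.lf 1 10 176)) (.dc 2 3 1 (.lf 1 11 176))))))))))

theorem dt352 : le (run cls4 4 tr352 [[2, 1, 1, 1, 1, 1, 1], [1, 1, 0, 0, 0, 0, 0], [3, 2, 2,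
  1, 2, 1, 1], [2, 1, 1, 1, 1, 0, 0], [1, 0, 0, 0, 1, 0, 0], [1, 1, 1, 1, 1, 1, 0], [3, 2, 2, 2,
  3, 2, 2]] 281439542705661 [43, 91, 91, 115, 115, 175, 175]) 3175008091014 = true := by
  decide +kernel

/-- data -/
noncomputable def tr353 : Ct := (.dc 0 1 0 (.ct 1 6 1 1 1 (.dc 1 3 0 (.dc 2 3 0 (.ct 2 5 1 1 1
  (.dc 1 14 1 (.lf 2 9 192)) (.dc 1 14 0 (.ct 2 4 1 1 1 (.lf 2 8 192) (.lf 3 8 192)))))) (.dc 1 3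
  1 (.ct 2 5 1 1 1 (.dc 1 14 1 (.ct 1 2 1 1 1 (.dc 2 3 0 (.lf 2 10 192)) (.ct 1 4 1 1 1 (.dc 2 3
  0 (.lf 2 10 176)) (.ct 1 5 1 1 1 (.dc 2 3 0 (.lf 2 10 176)) (.dc 2 3 1 (.lf 2 12 176)))))) (.dc
  1 14 0 (.ct 1 5 1 1 1 (.dc 2 3 0 (.ct 2 4 1 1 1 (.lf 2 9 192) (.lf 3 9 192))) (.ct 1 4 1 1 1
  (.dc 2 3 0 (.ct 1 2 1 1 1 (.ct 2 4 1 1 1 (.lf 2 8 160) (.lf 3 9 160)) (.lf 2 10 176))) (.dc 2 3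
  1 (.ct 2 4 1 1 1 (.lf 2 12 176) (.lf 3 12 160))))))))))

theorem dt353 : le (run cls4 4 tr353 [[2, 1, 1, 1, 1, 1, 1], [1, 1, 0, 0, 0, 0, 0], [2, 1, 1,
  0, 2, 1, 1], [3, 2, 2, 1, 2, 1, 1], [2, 1, 1, 1, 2, 1, 0], [1, 1, 1, 1, 1, 1, 0], [3, 2, 2, 2,
  3, 2, 2]] 281439542706173 [47, 119, 119, 119, 119, 203, 203]) 3550148152958 = true := by
  decide +kernel

end Pool.Agent.Work.MP_122e00_nt.Sharp.Cx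

end

section

set_option autoImplicit false

set_option maxRecDepth 100000

/-!
# The certificate: data
-/

namespace Pool.Agent.Work.MP_122e00_nt.Sharp.Cx

/-- data -/
noncomputable def tr354 : Ct := (.dc 1 14 0 (.ct 1 6 1 1 1 (.dc 1 3 0 (.dc 2 3 0 (.ct 0 4 1 1 1
  (.ct 1 4 1 2 1 (.ct 3 4 1 1 1 (.ct 4 6 2 1 1 (.dc 0 1 0 (.ct 2 5 1 1 1 (.lf 2 6 208) (.lf 3 7
  208))) (.dc 0 1 1 (.ct 2 5 1 1 1 (.lf 2 13 208) (.lf 3 12 208)))) (.dc 0 1 0 (.ct 2 5 1 1 1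
  (.lf 2 6 224) (.lf 3 7 224)))) (.dc 0 1 0 (.ct 2 5 1 1 1 (.lf 2 6 208) (.lf 3 6 208)))) (.dc 0
  1 0 (.ct 2 5 1 1 1 (.lf 2 7 176) (.lf 3 7 176)))))) (.dc 1 3 1 (.ct 0 4 1 1 1 (.ct 3 4 1 1 1
  (.ct 4 6 2 1 1 (.dc 0 1 0 (.ct 1 5 1 1 1 (.dc 2 3 0 (.ct 1 2 1 1 1 (.ct 2 5 1 1 1 (.lf 2 6 240)
  (.lf 3 7 240)) (.lf 2 8 224))) (.dc 2 3 1 (.ct 2 5 1 1 1 (.lf 2 11 208) (.lf 3 12 224))))) (.dc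
  0 1 1 (.ct 1 5 1 1 1 (.dc 2 3 0 (.ct 1 2 1 1 1 (.ct 2 5 1 1 1 (.lf 2 13 240) (.lf 3 12 240))
  (.lf 2 13 224))) (.dc 2 3 1 (.ct 2 5 1 1 1 (.lf 2 11 208) (.lf 3 10 224)))))) (.dc 0 1 0 (.ct 1
  5 1 1 1 (.dc 2 3 0 (.ct 1 2 1 1 1 (.ct 2 5 1 1 1 (.lf 2 6 208) (.lf 3 8 208)) (.lf 2 8 192)))
  (.dc 2 3 1 (.ct 2 5 1 1 1 (.lf 2 11 192) (.lf 3 12 192)))))) (.dc 0 1 0 (.ct 1 5 1 1 1 (.dc 2 3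
  0 (.ct 1 2 1 1 1 (.ct 2 5 1 1 1 (.lf 2 7 176) (.lf 3 9 176)) (.lf 2 9 176))) (.dc 2 3 1 (.ct 2
  5 1 1 1 (.lf 2 12 176) (.lf 3 12 176)))))))))

theorem dt354 : le (run cls4 4 tr354 [[2, 1, 1, 1, 1, 1, 1], [1, 1, 0, 0, 0, 0, 0], [2, 1, 1,
  0, 2, 1, 1], [3, 2, 2, 1, 2, 1, 1], [1, 0, 0, 0, 1, 0, 0], [2, 1, 1, 1, 2, 1, 0], [3, 2, 2, 2,
  3, 2, 2]] 281439542706173 [47, 119, 119, 119, 119, 203, 203]) 1813025858913 = true := by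
  decide +kernel

/-- data -/
noncomputable def tr355 : Ct := (.dc 0 1 0 (.dc 0 9 0 (.ct 1 6 1 1 1 (.dc 1 3 0 (.dc 2 3 0 (.ct
  4 5 1 1 1 (.dc 1 14 1 (.ct 2 5 1 1 1 (.lf 2 9 192) (.lf 3 8 192))) (.dc 1 14 0 (.lf 3 8
  192))))) (.dc 1 3 1 (.ct 4 5 1 1 1 (.dc 1 14 1 (.ct 1 4 1 1 1 (.dc 2 3 0 (.ct 2 5 1 1 1 (.lf 2
  8 192) (.lf 3 6 192))) (.ct 1 5 1 1 1 (.dc 2 3 0 (.ct 1 2 1 1 1 (.ct 2 5 1 1 1 (.lf 2 7 192)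
  (.lf 3 6 192)) (.lf 2 10 192))) (.dc 2 3 1 (.ct 2 5 1 1 1 (.lf 2 12 192) (.lf 3 11 192))))))
  (.dc 1 14 0 (.ct 1 5 1 1 1 (.dc 2 3 0 (.lf 3 6 192)) (.dc 2 3 1 (.lf 3 11 160)))))))))

theorem dt355 : le (run cls4 4 tr355 [[2, 1, 1, 1, 1, 1, 1], [1, 1, 0, 0, 0, 0, 0], [1, 1, 1,
  0, 1, 1, 1], [3, 2, 2, 1, 2, 1, 1], [2, 1, 1, 0, 2, 1, 1], [1, 1, 1, 1, 1, 1, 0], [3, 2, 2, 2,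
  3, 2, 2]] 281439542705661 [43, 91, 91, 115, 115, 175, 175]) 4475090645077 = true := by
  decide +kernel

end Pool.Agent.Work.MP_122e00_nt.Sharp.Cx

end

section

set_option autoImplicit false

set_option maxRecDepth 100000

/-!
# The certificate: data
-/

namespace Pool.Agent.Work.MP_122e00_nt.Sharp.Cx

/-- data -/
noncomputable def tr356 : Ct := (.dc 0 5 0 (.dc 0 9 0 (.ct 2 3 1 1 1 (.ct 1 6 1 1 1 (.dc 0 3 0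
  (.dc 1 3 0 (.dc 2 3 0 (.ct 1 3 1 1 1 (.ct 3 6 1 1 2 (.ct 5 6 1 1 1 (.lf 3 7 176) (.lf 2 7 192))
  (.ct 3 4 1 1 1 (.lf 1 8 192) (.lf 0 11 176))) (.ct 1 5 1 1 1 (.ct 5 6 1 1 1 (.lf 3 7 176) (.lf
  2 8 176)) (.lf 3 7 176)))))) (.dc 0 3 1 (.ct 3 6 1 1 1 (.ct 1 4 1 1 1 (.dc 1 3 0 (.dc 2 3 0
  (.ct 5 6 1 1 1 (.lf 3 8 176) (.lf 2 8 176)))) (.dc 1 3 1 (.ct 1 5 1 1 1 (.dc 2 3 0 (.ct 1 6 1 1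
  1 (.ct 5 6 1 1 1 (.lf 3 7 176) (.lf 2 7 176)) (.lf 2 12 176))) (.dc 2 3 1 (.ct 5 6 1 1 1 (.lf 3
  12 176) (.lf 2 12 176)))))) (.ct 1 4 1 1 1 (.dc 1 3 0 (.dc 2 3 0 (.ct 1 3 1 1 1 (.ct 3 4 1 1 1
  (.lf 1 6 192) (.lf 0 12 192)) (.lf 1 7 208)))) (.dc 1 3 1 (.ct 1 5 1 1 1 (.dc 2 3 0 (.ct 3 4 1
  1 1 (.lf 1 11 208) (.lf 0 11 192))) (.dc 2 3 1 (.ct 3 4 1 1 1 (.lf 1 12 208) (.lf 0 12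
  176))))))))) (.ct 1 6 1 1 1 (.dc 0 3 0 (.dc 1 3 0 (.dc 2 3 0 (.ct 1 5 1 1 1 (.ct 2 5 1 1 1 (.ct
  5 6 1 1 1 (.lf 3 7 176) (.lf 2 8 176)) (.lf 3 7 176)) (.lf 3 8 176))))) (.dc 0 3 1 (.ct 1 4 1 1
  1 (.dc 1 3 0 (.dc 2 3 0 (.ct 2 5 1 1 1 (.ct 5 6 1 1 1 (.lf 3 8 176) (.lf 2 9 176)) (.lf 3 8
  176)))) (.dc 1 3 1 (.ct 2 5 1 1 1 (.ct 1 2 1 1 1 (.dc 2 3 0 (.ct 5 6 1 1 1 (.lf 3 7 192) (.lf 2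
  7 192))) (.ct 1 5 1 1 1 (.dc 2 3 0 (.ct 1 6 1 1 1 (.ct 5 6 1 1 1 (.lf 3 6 192) (.lf 2 6 192))
  (.lf 2 11 192))) (.dc 2 3 1 (.ct 5 6 1 1 1 (.lf 3 12 192) (.lf 2 12 192))))) (.ct 1 5 1 1 1
  (.dc 2 3 0 (.lf 3 7 192)) (.dc 2 3 1 (.lf 3 12 192)))))))))))

theorem dt356 : le (run cls4 4 tr356 [[2, 1, 1, 1, 1, 1, 1], [1, 1, 0, 0, 0, 0, 0], [1, 1, 1,
  0, 1, 1, 1], [1, 1, 1, 1, 0, 0, 0], [3, 2, 2, 2, 3, 2, 2], [1, 1, 1, 1, 1, 1, 0], [1, 1, 1, 1,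
  2, 2, 2]] 281440616447447 [63, 63, 63, 63, 135, 135, 135]) 14259116489794 = true := by
  decide +kernel

end Pool.Agent.Work.MP_122e00_nt.Sharp.Cx

end

section

set_option autoImplicit false

set_option maxRecDepth 100000

/-!
# The certificate: data
-/

namespace Pool.Agent.Work.MP_122e00_nt.Sharp.Cx

/-- data -/
noncomputable def tr357 : Ct := (.dc 0 3 1 (.dc 0 5 1 (.ct 2 4 1 1 1 (.dc 0 9 1 (.ct 1 6 1 1 1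
  (.dc 1 3 0 (.dc 2 3 0 (.ct 1 3 1 1 1 (.ct 2 3 1 1 1 (.ct 3 6 1 1 1 (.lf 1 10 192) (.lf 0 10
  192)) (.lf 1 10 176)) (.lf 1 11 192)))) (.dc 1 3 1 (.ct 1 5 1 1 1 (.dc 2 3 0 (.ct 2 3 1 1 1
  (.ct 3 6 1 1 1 (.lf 1 10 192) (.lf 0 9 176)) (.lf 1 10 160))) (.dc 2 3 1 (.ct 2 3 1 1 1 (.ct 3
  6 1 1 1 (.lf 1 11 192) (.lf 0 11 176)) (.lf 1 11 160))))))) (.dc 0 9 0 (.ct 2 3 1 1 1 (.ct 1 6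
  1 1 1 (.dc 1 3 0 (.dc 2 3 0 (.ct 1 3 1 1 1 (.ct 3 4 1 1 1 (.lf 1 8 192) (.ct 3 6 1 1 1 (.lf 1 8
  192) (.lf 0 11 192))) (.lf 1 7 208)))) (.dc 1 3 1 (.ct 1 5 1 1 1 (.dc 2 3 0 (.ct 3 4 1 1 1 (.lf
  1 9 176) (.ct 3 6 1 1 1 (.lf 1 10 208) (.lf 0 10 192)))) (.dc 2 3 1 (.ct 3 4 1 1 1 (.lf 1 12
  176) (.ct 3 6 1 1 1 (.lf 1 12 208) (.lf 0 11 176))))))) (.ct 1 6 1 1 1 (.dc 1 3 0 (.dc 2 3 0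
  (.ct 2 5 1 1 1 (.lf 2 8 176) (.lf 3 7 176)))) (.dc 1 3 1 (.ct 1 5 1 1 1 (.dc 2 3 0 (.ct 1 2 1 1
  1 (.ct 2 5 1 1 1 (.lf 2 7 192) (.lf 3 6 192)) (.lf 2 10 192))) (.dc 2 3 1 (.ct 2 5 1 1 1 (.lf 2
  12 192) (.lf 3 11 192)))))))))))

theorem dt357 : le (run cls4 4 tr357 [[2, 1, 1, 1, 1, 1, 1], [1, 1, 0, 0, 0, 0, 0], [1, 1, 1,
  0, 1, 1, 1], [1, 1, 1, 1, 0, 0, 0], [2, 1, 1, 1, 1, 0, 0], [1, 1, 1, 1, 1, 1, 0], [3, 2, 2, 2,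
  3, 2, 2]] 281440616447447 [63, 63, 63, 63, 135, 135, 135]) 4047968856116 = true := by
  decide +kernel

/-- data -/
noncomputable def tr358 : Ct := (.dc 0 1 0 (.dc 0 5 0 (.dc 0 9 0 (.ct 0 5 1 1 1 (.dc 0 14 1
  (.ct 1 6 1 1 1 (.dc 0 3 0 (.dc 1 3 0 (.dc 2 3 0 (.ct 4 5 1 1 1 (.dc 1 14 1 (.ct 1 5 1 1 1 (.ct
  2 5 1 1 1 (.ct 5 6 1 1 1 (.lf 3 7 176) (.lf 2 9 176)) (.lf 3 7 176)) (.lf 3 7 176))) (.dc 1 14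
  0 (.lf 3 8 176)))))) (.dc 0 3 1 (.ct 4 5 1 1 1 (.dc 1 14 1 (.ct 1 4 1 1 1 (.dc 1 3 0 (.dc 2 3 0
  (.ct 2 5 1 1 1 (.ct 5 6 1 1 1 (.lf 3 9 176) (.lf 2 9 176)) (.lf 3 9 176)))) (.dc 1 3 1 (.ct 0 1
  1 1 1 (.ct 1 4 1 1 1 (.dc 2 3 0 (.ct 2 5 1 1 1 (.ct 5 6 1 1 1 (.lf 3 7 208) (.lf 2 7 208)) (.lf
  3 7 192))) (.ct 2 5 1 1 1 (.ct 1 2 1 1 1 (.dc 2 3 0 (.ct 5 6 1 1 1 (.lf 3 7 208) (.lf 2 7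
  208))) (.ct 1 5 1 1 1 (.dc 2 3 0 (.ct 1 6 1 1 1 (.ct 5 6 1 1 1 (.lf 3 6 224) (.lf 2 6 224))
  (.lf 2 11 208))) (.dc 2 3 1 (.ct 5 6 1 1 1 (.lf 3 12 208) (.lf 2 12 208))))) (.ct 1 5 1 1 1
  (.dc 2 3 0 (.lf 3 7 192)) (.dc 2 3 1 (.lf 3 12 192))))) (.dc 2 3 0 (.ct 2 5 1 1 1 (.ct 5 6 1 1
  1 (.lf 3 8 176) (.lf 2 7 176)) (.lf 3 9 160))))))) (.dc 1 14 0 (.ct 1 4 1 1 1 (.dc 1 3 0 (.dc 2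
  3 0 (.lf 3 9 192))) (.ct 1 5 1 1 1 (.dc 1 3 0 (.dc 2 3 0 (.lf 3 10 192))) (.dc 1 3 1 (.ct 0 1 1
  1 1 (.ct 1 5 1 1 1 (.dc 2 3 0 (.lf 3 7 208)) (.dc 2 3 1 (.lf 3 12 192))) (.dc 2 3 0 (.lf 3 9
  176))))))))))) (.dc 0 14 0 (.dc 1 14 0 (.ct 1 6 1 1 1 (.dc 0 3 0 (.dc 1 3 0 (.dc 2 3 0 (.lf 3 8
  160)))) (.dc 0 3 1 (.ct 1 4 1 1 1 (.dc 1 3 0 (.dc 2 3 0 (.lf 3 7 176))) (.dc 1 3 1 (.ct 1 5 1 1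
  1 (.dc 2 3 0 (.lf 3 6 176)) (.dc 2 3 1 (.lf 3 11 160)))))))))))))

theorem dt358 : le (run cls4 4 tr358 [[1, 0, 0, 0, 1, 1, 1], [1, 1, 0, 0, 0, 0, 0], [1, 1, 1,
  0, 1, 1, 1], [2, 1, 1, 1, 1, 1, 1], [2, 1, 1, 1, 3, 2, 2], [1, 1, 1, 1, 1, 1, 0], [1, 1, 1, 1,
  2, 2, 2]] 281439542689237 [21, 57, 57, 57, 105, 105, 105]) 6879311683400 = true := by
  decide +kernel

end Pool.Agent.Work.MP_122e00_nt.Sharp.Cx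

end

section

set_option autoImplicit false

set_option maxRecDepth 100000

/-!
# The certificate: data
-/

namespace Pool.Agent.Work.MP_122e00_nt.Sharp.Cx

/-- data -/
noncomputable def tr359 : Ct := (.dc 1 3 0 (.dc 2 3 0 (.ct 1 5 1 1 1 (.ct 2 5 1 1 1 (.ct 5 6 1
  1 1 (.dc 1 14 0 (.ct 4 6 1 1 1 (.lf 3 7 192) (.lf 2 10 192))) (.dc 1 14 1 (.lf 2 9 192))) (.dc
  1 14 0 (.ct 2 4 1 1 1 (.ct 4 6 1 1 1 (.lf 3 7 192) (.lf 2 9 176)) (.lf 3 7 192)))) (.dc 1 14 0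
  (.ct 1 4 1 1 1 (.ct 2 4 1 1 1 (.ct 4 6 1 1 1 (.lf 3 7 192) (.lf 2 9 176)) (.lf 3 7 192)) (.lf 3
  6 208))))))

theorem dt359 : le (run cls4 4 tr359 [[2, 1, 1, 1, 2, 2, 1], [3, 2, 1, 1, 3, 2, 2], [2, 1, 1,
  0, 2, 1, 1], [2, 1, 1, 1, 1, 1, 1], [2, 1, 1, 1, 2, 1, 0], [1, 1, 1, 1, 1, 1, 0], [2, 1, 1, 1,
  3, 2, 2]] 281439542706175 [47, 119, 119, 119, 119, 203, 203]) 4930378208644 = true := by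
  decide +kernel

/-- data -/
noncomputable def tr360 : Ct := (.dc 1 3 1 (.ct 2 5 1 1 1 (.ct 5 6 1 1 1 (.dc 1 14 0 (.ct 0 1 1
  1 1 (.ct 1 2 1 1 1 (.dc 2 3 0 (.ct 4 6 1 1 1 (.lf 3 9 224) (.lf 2 9 224))) (.ct 1 5 1 1 1 (.dc
  2 3 0 (.ct 4 6 1 1 1 (.lf 3 9 224) (.lf 2 9 192))) (.ct 1 4 1 1 1 (.dc 2 3 0 (.ct 1 6 1 1 1
  (.ct 4 6 1 1 1 (.lf 3 7 208) (.lf 2 10 176)) (.lf 2 10 192))) (.dc 2 3 1 (.ct 4 6 1 1 1 (.lf 3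
  12 208) (.lf 2 12 192)))))) (.dc 2 3 0 (.ct 4 6 1 1 1 (.lf 3 7 208) (.lf 2 9 208))))) (.dc 1 14
  1 (.ct 0 1 1 1 1 (.ct 1 2 1 1 1 (.dc 2 3 0 (.lf 2 9 192)) (.ct 1 4 1 1 1 (.dc 2 3 0 (.lf 2 10
  160)) (.ct 1 5 1 1 1 (.dc 2 3 0 (.lf 2 9 160)) (.ct 1 6 1 1 1 (.dc 2 3 0 (.lf 2 9 192)) (.dc 2
  3 1 (.lf 2 12 192)))))) (.dc 2 3 0 (.lf 2 8 176))))) (.dc 1 14 0 (.ct 0 1 1 1 1 (.ct 1 5 1 1 1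
  (.dc 2 3 0 (.ct 2 4 1 1 1 (.ct 4 6 1 1 1 (.lf 3 7 208) (.lf 2 10 208)) (.lf 3 7 176))) (.ct 2 4
  1 1 1 (.ct 1 2 1 1 1 (.dc 2 3 0 (.ct 4 6 1 1 1 (.lf 3 8 224) (.lf 2 9 192))) (.ct 1 4 1 1 1
  (.dc 2 3 0 (.ct 1 6 1 1 1 (.ct 4 6 1 1 1 (.lf 3 8 224) (.lf 2 9 192)) (.lf 2 10 176))) (.dc 2 3
  1 (.ct 4 6 1 1 1 (.lf 3 12 192) (.lf 2 12 176))))) (.ct 1 4 1 1 1 (.dc 2 3 0 (.lf 3 8 192))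
  (.dc 2 3 1 (.lf 3 12 192))))) (.dc 2 3 0 (.ct 2 4 1 1 1 (.ct 4 6 1 1 1 (.lf 3 7 224) (.lf 2 8
  224)) (.lf 3 8 192)))))))

theorem dt360 : le (run cls4 4 tr360 [[2, 1, 1, 1, 2, 2, 1], [1, 1, 0, 0, 0, 0, 0], [2, 1, 1,
  0, 2, 1, 1], [2, 1, 1, 1, 1, 1, 1], [2, 1, 1, 1, 2, 1, 0], [1, 1, 1, 1, 1, 1, 0], [3, 2, 1, 1,
  3, 2, 2]] 281439542706175 [47, 119, 119, 119, 119, 203, 203]) 2389362904560 = true := by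
  decide +kernel

/-- data -/
noncomputable def tr361 : Ct := (.dc 1 3 0 (.dc 2 3 0 (.ct 0 4 1 1 1 (.ct 3 4 1 1 1 (.ct 2 5 1
  1 1 (.ct 1 4 1 1 1 (.ct 1 5 1 1 1 (.ct 4 6 1 1 1 (.dc 0 1 0 (.ct 4 5 1 1 1 (.ct 5 6 1 1 1 (.lf
  3 6 192) (.lf 2 8 192)) (.lf 3 6 224))) (.dc 0 1 1 (.ct 5 6 1 1 1 (.lf 3 12 224) (.lf 2 13
  192)))) (.ct 4 6 1 1 1 (.dc 0 1 0 (.lf 3 6 192)) (.dc 0 1 1 (.lf 3 12 192)))) (.dc 0 1 0 (.ct 1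
  5 1 1 1 (.ct 4 5 1 1 1 (.ct 5 6 1 1 1 (.lf 3 6 192) (.lf 2 8 192)) (.lf 3 6 192)) (.lf 3 6
  224)))) (.ct 1 4 1 1 1 (.ct 4 6 1 1 1 (.dc 0 1 0 (.lf 3 6 192)) (.dc 0 1 1 (.lf 3 12 192)))
  (.dc 0 1 0 (.lf 3 7 192)))) (.dc 0 1 0 (.ct 1 5 1 1 1 (.ct 2 5 1 1 1 (.ct 5 6 1 1 1 (.lf 3 6
  192) (.lf 2 9 192)) (.lf 3 6 192)) (.lf 3 7 208)))) (.dc 0 1 0 (.ct 1 5 1 1 1 (.ct 2 5 1 1 1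
  (.ct 5 6 1 1 1 (.lf 3 7 192) (.lf 2 9 192)) (.lf 3 7 192)) (.lf 3 5 208))))))

theorem dt361 : le (run cls4 4 tr361 [[2, 1, 1, 1, 2, 2, 1], [3, 2, 1, 1, 3, 2, 2], [2, 1, 1,
  0, 2, 1, 1], [2, 1, 1, 1, 1, 1, 1], [1, 0, 0, 0, 1, 0, 0], [2, 1, 1, 1, 2, 1, 0], [2, 1, 1, 1,
  3, 2, 2]] 281440616447997 [47, 119, 119, 119, 119, 203, 203]) 2221600329686 = true := by
  decide +kernel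

end Pool.Agent.Work.MP_122e00_nt.Sharp.Cx

end
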