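import Pool.Agent.Work.MP_122e00_nt.Bd.B03

/-! Bundle of small proof modules (one section per former module). -/

section

set_option autoImplicit false

set_option maxRecDepth 100000

/-!
# The certificate: data
-/

namespace Pool.Agent.Work.MP_122e00_nt.Sharp.Cx

/-- data -/
noncomputable def tr362 : Ct := (.ct 0 1 1 1 1 (.ct 4 6 1 1 1 (.dc 0 1 0 (.ct 2 5 1 1 1 (.ct 1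
  2 1 1 1 (.dc 2 3 0 (.ct 4 5 1 1 1 (.ct 5 6 1 1 1 (.lf 3 6 240) (.lf 2 7 240)) (.lf 3 6 208)))
  (.ct 4 5 1 1 1 (.ct 1 4 1 1 1 (.dc 2 3 0 (.ct 5 6 1 1 1 (.lf 3 6 256) (.lf 2 6 256))) (.ct 1 5
  1 1 1 (.dc 2 3 0 (.ct 1 6 1 1 1 (.ct 5 6 1 1 1 (.lf 3 6 256) (.lf 2 6 256)) (.lf 2 10 224)))
  (.dc 2 3 1 (.ct 5 6 1 1 1 (.lf 3 11 224) (.lf 2 12 224))))) (.ct 1 5 1 1 1 (.dc 2 3 0 (.lf 3 6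
  240)) (.dc 2 3 1 (.lf 3 11 240))))) (.ct 1 5 1 1 1 (.dc 2 3 0 (.lf 3 7 208)) (.dc 2 3 1 (.lf 3
  11 208))))) (.dc 0 1 1 (.ct 2 5 1 1 1 (.ct 1 2 1 1 1 (.dc 2 3 0 (.ct 5 6 1 1 1 (.lf 3 13 208)
  (.lf 2 13 208))) (.ct 1 5 1 1 1 (.dc 2 3 0 (.ct 1 6 1 1 1 (.ct 5 6 1 1 1 (.lf 3 12 240) (.lf 2
  13 224)) (.lf 2 13 224))) (.dc 2 3 1 (.ct 5 6 1 1 1 (.lf 3 10 240) (.lf 2 11 208))))) (.ct 1 5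
  1 1 1 (.dc 2 3 0 (.lf 3 13 208)) (.dc 2 3 1 (.lf 3 10 208)))))) (.dc 2 3 0 (.ct 2 5 1 1 1 (.ct
  4 6 1 1 1 (.dc 0 1 0 (.ct 4 5 1 1 1 (.ct 5 6 1 1 1 (.lf 3 6 224) (.lf 2 8 224)) (.lf 3 6 192)))
  (.dc 0 1 1 (.ct 5 6 1 1 1 (.lf 3 13 192) (.lf 2 13 192)))) (.ct 4 6 1 1 1 (.dc 0 1 0 (.lf 3 7
  192)) (.dc 0 1 1 (.lf 3 13 192))))))

theorem dt362 : le (run cls4 4 tr362 [[3, 1, 1, 1, 3, 2, 1], [1, 1, 0, 0, 0, 0, 0], [2, 1, 1,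
  0, 2, 1, 1], [3, 1, 1, 1, 2, 1, 1], [1, 0, 0, 0, 1, 0, 0], [2, 1, 1, 1, 2, 1, 0], [3, 2, 1, 1,
  3, 2, 2]] 281440616972285 [51, 123, 147, 147, 147, 207, 231]) 409347918269 = true := by
  decide +kernel

/-- data -/
noncomputable def tr363 : Ct := (.dc 0 1 0 (.ct 0 1 1 1 1 (.ct 1 4 1 1 1 (.dc 2 3 0 (.ct 2 5 1
  1 1 (.ct 5 6 1 1 1 (.lf 3 6 224) (.lf 2 9 224)) (.lf 3 6 192))) (.ct 2 5 1 1 1 (.ct 1 2 1 1 1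
  (.dc 2 3 0 (.ct 5 6 1 1 1 (.lf 3 7 240) (.lf 2 7 240))) (.ct 1 5 1 1 1 (.dc 2 3 0 (.ct 1 6 1 1
  1 (.ct 5 6 1 1 1 (.lf 3 7 224) (.lf 2 7 224)) (.lf 2 9 192))) (.dc 2 3 1 (.ct 5 6 1 1 1 (.lf 3
  11 192) (.lf 2 12 192))))) (.ct 1 5 1 1 1 (.dc 2 3 0 (.lf 3 6 208)) (.dc 2 3 1 (.lf 3 11
  192))))) (.dc 2 3 0 (.ct 2 5 1 1 1 (.ct 5 6 1 1 1 (.lf 3 8 224) (.lf 2 7 192)) (.lf 3 8 192)))))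

theorem dt363 : le (run cls4 4 tr363 [[2, 1, 1, 1, 2, 2, 1], [1, 1, 0, 0, 0, 0, 0], [2, 1, 1,
  0, 2, 1, 1], [3, 1, 1, 1, 2, 1, 1], [3, 1, 1, 1, 3, 2, 1], [2, 1, 1, 1, 2, 1, 0], [3, 2, 1, 1,
  3, 2, 2]] 281440616972285 [51, 123, 147, 147, 147, 207, 231]) 1808550126803 = true := by
  decide +kernel

/-- data -/
noncomputable def tr364 : Ct := (.dc 0 1 0 (.ct 0 1 1 1 1 (.ct 2 5 1 1 1 (.ct 1 2 1 1 1 (.dc 2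
  3 0 (.ct 5 6 1 1 1 (.lf 3 8 240) (.lf 2 8 208))) (.ct 1 5 1 1 1 (.dc 2 3 0 (.ct 1 6 1 1 1 (.ct
  5 6 1 1 1 (.lf 3 8 224) (.lf 2 8 208)) (.lf 2 9 176))) (.dc 2 3 1 (.ct 5 6 1 1 1 (.lf 3 12 192)
  (.lf 2 12 176))))) (.ct 1 5 1 1 1 (.dc 2 3 0 (.lf 3 8 208)) (.dc 2 3 1 (.lf 3 12 192)))) (.dc 2
  3 0 (.ct 2 5 1 1 1 (.ct 5 6 1 1 1 (.lf 3 8 224) (.lf 2 7 192)) (.lf 3 8 192)))))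

theorem dt364 : le (run cls4 4 tr364 [[2, 1, 1, 1, 2, 2, 1], [1, 1, 0, 0, 0, 0, 0], [2, 1, 1,
  0, 2, 1, 1], [2, 1, 1, 1, 1, 1, 1], [3, 1, 1, 1, 2, 1, 1], [2, 1, 1, 1, 2, 1, 0], [3, 2, 1, 1,
  3, 2, 2]] 281440616972285 [51, 123, 147, 147, 147, 207, 231]) 2298291806580 = true := by
  decide +kernel

end Pool.Agent.Work.MP_122e00_nt.Sharp.Cx

end

section

set_option autoImplicit false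

set_option maxRecDepth 100000

/-!
# The certificate: data
-/

namespace Pool.Agent.Work.MP_122e00_nt.Sharp.Cx

/-- data -/
noncomputable def tr365 : Ct := (.dc 0 1 0 (.dc 0 9 0 (.ct 4 5 1 1 1 (.ct 1 6 1 1 1 (.dc 1 3 0
  (.dc 2 3 0 (.ct 1 5 1 1 1 (.ct 5 6 1 1 1 (.dc 1 14 0 (.lf 3 7 192)) (.dc 1 14 1 (.ct 2 5 1 1 1
  (.lf 2 8 192) (.lf 3 8 192)))) (.dc 1 14 0 (.lf 3 7 176))))) (.dc 1 3 1 (.ct 5 6 1 1 1 (.dc 1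
  14 0 (.ct 0 1 1 1 1 (.ct 1 4 1 1 1 (.dc 2 3 0 (.lf 3 8 192)) (.ct 1 5 1 1 1 (.dc 2 3 0 (.lf 3 8
  224)) (.dc 2 3 1 (.lf 3 12 208)))) (.dc 2 3 0 (.lf 3 7 176)))) (.dc 1 14 1 (.ct 0 1 1 1 1 (.ct
  1 4 1 1 1 (.dc 2 3 0 (.ct 2 5 1 1 1 (.lf 2 9 192) (.lf 3 8 192))) (.ct 1 6 1 1 1 (.dc 2 3 0
  (.ct 2 5 1 1 1 (.lf 2 9 192) (.lf 3 7 192))) (.ct 1 5 1 1 1 (.dc 2 3 0 (.ct 1 2 1 1 1 (.ct 2 5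
  1 1 1 (.lf 2 8 208) (.lf 3 6 208)) (.lf 2 11 208))) (.dc 2 3 1 (.ct 2 5 1 1 1 (.lf 2 12 208)
  (.lf 3 11 208)))))) (.dc 2 3 0 (.ct 2 5 1 1 1 (.lf 2 6 176) (.lf 3 7 176)))))))) (.dc 1 14 0
  (.ct 1 6 1 1 1 (.dc 1 3 0 (.dc 2 3 0 (.lf 3 6 176))) (.dc 1 3 1 (.ct 0 1 1 1 1 (.ct 1 5 1 1 1
  (.dc 2 3 0 (.lf 3 7 176)) (.dc 2 3 1 (.lf 3 11 176))) (.dc 2 3 0 (.lf 3 7 176)))))))))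

theorem dt365 : le (run cls4 4 tr365 [[2, 1, 1, 1, 2, 2, 1], [1, 1, 0, 0, 0, 0, 0], [1, 1, 1,
  0, 1, 1, 1], [2, 1, 1, 1, 1, 1, 1], [2, 1, 1, 0, 2, 1, 1], [1, 1, 1, 1, 1, 1, 0], [2, 1, 1, 1,
  3, 2, 2]] 281439542705661 [43, 91, 91, 115, 115, 175, 175]) 3233788762258 = true := by
  decide +kernel

/-- data -/
noncomputable def tr366 : Ct := (.dc 0 14 0 (.dc 1 14 0 (.ct 2 4 1 1 1 (.dc 0 9 1 (.ct 1 6 1 1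
  1 (.dc 1 3 0 (.dc 2 3 0 (.ct 1 4 1 1 1 (.ct 3 4 1 1 1 (.ct 4 5 1 1 1 (.dc 0 1 0 (.lf 3 7 160))
  (.ct 4 6 1 1 1 (.dc 0 1 0 (.lf 3 7 192)) (.dc 0 1 1 (.lf 3 11 192)))) (.dc 0 1 0 (.lf 3 7
  160))) (.dc 0 1 0 (.lf 3 5 192))))) (.dc 1 3 1 (.ct 3 4 1 1 1 (.ct 4 6 1 1 1 (.dc 0 1 0 (.ct 1
  5 1 1 1 (.dc 2 3 0 (.lf 3 6 192)) (.dc 2 3 1 (.lf 3 10 192)))) (.ct 4 5 1 1 1 (.dc 0 1 0 (.ct 1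
  4 1 1 1 (.dc 2 3 0 (.lf 3 5 192)) (.ct 1 5 1 1 1 (.dc 2 3 0 (.lf 3 5 192)) (.dc 2 3 1 (.lf 3 10
  192))))) (.dc 0 1 1 (.ct 1 5 1 1 1 (.dc 2 3 0 (.lf 3 11 192)) (.dc 2 3 1 (.lf 3 9 176))))))
  (.dc 0 1 0 (.ct 1 5 1 1 1 (.dc 2 3 0 (.lf 3 6 176)) (.dc 2 3 1 (.lf 3 11 176)))))))) (.dc 0 1 0
  (.dc 0 9 0 (.ct 1 6 1 1 1 (.dc 1 3 0 (.dc 2 3 0 (.lf 3 6 176))) (.dc 1 3 1 (.ct 1 5 1 1 1 (.dc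
  2 3 0 (.lf 3 5 176)) (.dc 2 3 1 (.lf 3 11 160))))))))))

theorem dt366 : le (run cls4 4 tr366 [[1, 0, 0, 0, 1, 1, 1], [1, 1, 0, 0, 0, 0, 0], [1, 1, 1,
  0, 1, 1, 1], [2, 1, 1, 1, 1, 1, 1], [1, 0, 0, 0, 1, 0, 0], [2, 1, 1, 1, 2, 2, 1], [2, 1, 1, 1,
  3, 2, 2]] 281439542689277 [29, 89, 89, 113, 113, 161, 161]) 873924050445 = true := by
  decide +kernel

end Pool.Agent.Work.MP_122e00_nt.Sharp.Cx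

end

section

set_option autoImplicit false

set_option maxRecDepth 100000

/-!
# The certificate: data
-/

namespace Pool.Agent.Work.MP_122e00_nt.Sharp.Cx

/-- data -/
noncomputable def tr367 : Ct := (.ct 4 6 1 1 1 (.dc 0 1 0 (.dc 0 9 0 (.ct 4 5 1 1 1 (.ct 5 6 1
  1 1 (.dc 2 7 1 (.dc 2 15 1 (.ct 0 2 1 1 1 (.dc 0 6 1 (.lf 3 7 176)) (.dc 0 6 0 (.lf 3 9
  176))))) (.ct 3 5 1 1 1 (.dc 2 7 0 (.ct 3 5 1 1 1 (.ct 0 2 1 1 1 (.dc 0 6 1 (.ct 0 5 1 1 1 (.dc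
  2 15 0 (.lf 3 7 224)) (.dc 2 15 1 (.lf 3 7 224)))) (.dc 0 6 0 (.ct 0 5 1 1 1 (.ct 2 5 1 1 1
  (.dc 2 15 0 (.lf 3 9 208)) (.dc 2 15 1 (.lf 3 9 208))) (.dc 2 15 1 (.lf 3 10 176))))) (.dc 2 15
  1 (.ct 0 2 1 1 1 (.dc 0 6 1 (.lf 3 7 208)) (.dc 0 6 0 (.lf 3 9 176)))))) (.dc 2 7 1 (.dc 2 15 1
  (.ct 0 2 1 1 1 (.dc 0 6 1 (.lf 3 7 192)) (.dc 0 6 0 (.lf 3 8 192))))))) (.dc 2 7 1 (.dc 2 15 1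
  (.ct 0 2 1 1 1 (.dc 0 6 1 (.lf 3 7 176)) (.dc 0 6 0 (.lf 3 10 176)))))))) (.dc 0 9 1 (.ct 5 6 1
  1 1 (.dc 2 7 1 (.dc 2 15 1 (.ct 3 4 1 1 1 (.ct 0 4 1 1 1 (.dc 0 1 1 (.ct 0 2 1 1 1 (.dc 0 6 1
  (.lf 3 12 208)) (.dc 0 6 0 (.lf 3 12 208)))) (.dc 0 1 0 (.ct 0 2 1 1 1 (.ct 2 4 1 1 1 (.dc 0 6
  0 (.lf 3 8 192)) (.dc 0 6 1 (.lf 3 6 224))) (.dc 0 6 0 (.lf 3 9 160))))) (.dc 0 1 0 (.ct 0 2 1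
  1 1 (.dc 0 6 1 (.lf 3 7 192)) (.dc 0 6 0 (.lf 3 8 192))))))) (.ct 3 5 1 1 1 (.dc 2 7 0 (.ct 3 4
  1 1 1 (.ct 3 5 1 1 1 (.ct 0 4 1 1 1 (.dc 0 1 1 (.ct 0 2 1 1 1 (.dc 0 6 1 (.ct 0 5 1 1 1 (.dc 2
  15 0 (.lf 3 10 160)) (.dc 2 15 1 (.lf 3 12 192)))) (.dc 0 6 0 (.ct 0 5 1 1 1 (.ct 2 5 1 1 1
  (.dc 2 15 0 (.lf 3 11 160)) (.dc 2 15 1 (.lf 3 12 192))) (.dc 2 15 1 (.lf 3 12 208)))))) (.dc 0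
  1 0 (.ct 0 2 1 1 1 (.ct 0 5 1 1 1 (.ct 2 4 1 1 1 (.dc 0 6 0 (.ct 2 5 1 1 1 (.ct 4 5 1 1 1 (.dc
  2 15 0 (.lf 3 6 192)) (.dc 2 15 1 (.lf 3 10 208))) (.dc 2 15 1 (.lf 3 9 208)))) (.dc 0 6 1 (.ct
  4 5 1 1 1 (.dc 2 15 0 (.lf 3 5 192)) (.dc 2 15 1 (.lf 3 7 192))))) (.dc 2 15 1 (.ct 2 4 1 1 1
  (.dc 0 6 0 (.lf 3 9 192)) (.dc 0 6 1 (.lf 3 8 224))))) (.dc 0 6 0 (.ct 0 5 1 1 1 (.ct 2 5 1 1 1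
  (.ct 4 5 1 1 1 (.dc 2 15 0 (.lf 3 8 208)) (.dc 2 15 1 (.lf 3 9 208))) (.dc 2 15 1 (.lf 3 9
  192))) (.dc 2 15 1 (.lf 3 10 160))))))) (.dc 2 15 1 (.ct 0 4 1 1 1 (.dc 0 1 1 (.ct 0 2 1 1 1
  (.dc 0 6 1 (.lf 3 12 224)) (.dc 0 6 0 (.lf 3 12 192)))) (.dc 0 1 0 (.ct 0 2 1 1 1 (.ct 2 4 1 1
  1 (.dc 0 6 0 (.lf 3 8 208)) (.dc 0 6 1 (.lf 3 7 224))) (.dc 0 6 0 (.lf 3 9 176))))))) (.dc 0 1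
  0 (.ct 3 5 1 1 1 (.ct 4 5 1 1 1 (.ct 0 2 1 1 1 (.dc 0 6 1 (.ct 0 5 1 1 1 (.dc 2 15 0 (.lf 3 6
  224)) (.dc 2 15 1 (.lf 3 9 224)))) (.dc 0 6 0 (.ct 0 5 1 1 1 (.ct 2 5 1 1 1 (.dc 2 15 0 (.lf 3
  8 192)) (.dc 2 15 1 (.lf 3 9 208))) (.dc 2 15 1 (.lf 3 10 176))))) (.dc 2 15 1 (.ct 0 2 1 1 1
  (.dc 0 6 1 (.lf 3 9 192)) (.dc 0 6 0 (.lf 3 10 176))))) (.dc 2 15 1 (.ct 0 2 1 1 1 (.dc 0 6 1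
  (.lf 3 9 208)) (.dc 0 6 0 (.lf 3 10 176)))))))) (.dc 2 7 1 (.dc 2 15 1 (.ct 3 4 1 1 1 (.ct 4 5
  1 1 1 (.dc 0 1 0 (.ct 0 2 1 1 1 (.dc 0 6 1 (.lf 3 7 208)) (.dc 0 6 0 (.lf 3 9 176)))) (.ct 0 4
  1 1 1 (.dc 0 1 1 (.ct 0 2 1 1 1 (.dc 0 6 1 (.lf 3 12 240)) (.dc 0 6 0 (.lf 3 12 208)))) (.dc 0
  1 0 (.ct 0 2 1 1 1 (.ct 2 4 1 1 1 (.dc 0 6 0 (.lf 3 7 208)) (.dc 0 6 1 (.lf 3 6 240))) (.dc 0 6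
  0 (.lf 3 8 176)))))) (.dc 0 1 0 (.ct 0 2 1 1 1 (.dc 0 6 1 (.lf 3 8 192)) (.dc 0 6 0 (.lf 3 9
  192)))))))))))

theorem dt367 : le (run cls4 4 tr367 [[2, 1, 1, 1, 2, 2, 1], [1, 1, 0, 0, 1, 1, 0], [3, 2, 2,
  0, 4, 3, 0], [3, 2, 2, 1, 3, 2, 1], [1, 0, 0, 0, 1, 0, 0], [0, 0, 0, 0, 1, 1, 0], [1, 1, 1, 0,
  1, 1, 1]] 140187732540861 [44, 104, 104, 152, 122, 134, 224]) 106553417706 = true := by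
  decide +kernel

/-- data -/
noncomputable def tr368 : Ct := (.dc 2 7 1 (.dc 2 15 1 (.ct 4 5 1 1 1 (.dc 0 1 0 (.ct 0 2 1 1 1
  (.dc 0 6 1 (.lf 2 8 192)) (.dc 0 6 0 (.lf 2 8 208)))) (.ct 4 6 1 1 1 (.dc 0 1 0 (.ct 0 2 1 1 1
  (.dc 0 6 1 (.lf 2 8 192)) (.dc 0 6 0 (.lf 2 7 208)))) (.ct 0 4 1 1 1 (.dc 0 1 1 (.ct 0 2 1 1 1
  (.dc 0 6 1 (.lf 2 12 224)) (.dc 0 6 0 (.lf 2 12 192)))) (.dc 0 1 0 (.ct 0 2 1 1 1 (.ct 2 4 1 1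
  1 (.dc 0 6 0 (.lf 2 9 192)) (.dc 0 6 1 (.lf 2 8 224))) (.dc 0 6 0 (.lf 2 7 176)))))))))

theorem dt368 : le (run cls4 4 tr368 [[2, 1, 1, 1, 2, 2, 1], [1, 1, 0, 0, 1, 1, 0], [3, 2, 2,
  0, 4, 3, 0], [2, 1, 1, 1, 2, 1, 0], [1, 0, 0, 0, 1, 0, 0], [3, 2, 2, 1, 4, 3, 1], [3, 2, 2, 1,
  3, 2, 1]] 140187732541373 [48, 132, 132, 156, 126, 162, 252]) 279769272058 = true := by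
  decide +kernel

/-- data -/
noncomputable def tr369 : Ct := (.dc 0 1 0 (.ct 4 5 1 1 1 (.ct 5 6 1 1 1 (.dc 2 15 1 (.ct 0 2 1
  1 1 (.dc 0 6 1 (.lf 2 8 208)) (.dc 0 6 0 (.lf 2 9 176)))) (.ct 0 2 1 1 1 (.dc 0 6 1 (.ct 0 5 1
  1 1 (.dc 2 15 0 (.lf 2 5 224)) (.dc 2 15 1 (.lf 2 8 224)))) (.dc 0 6 0 (.ct 0 5 1 1 1 (.ct 2 5
  1 1 1 (.dc 2 15 0 (.lf 2 7 192)) (.dc 2 15 1 (.lf 2 8 208))) (.dc 2 15 1 (.lf 2 9 176))))))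
  (.dc 2 15 1 (.ct 0 2 1 1 1 (.dc 0 6 1 (.lf 2 8 208)) (.dc 0 6 0 (.lf 2 8 176))))))

theorem dt369 : le (run cls4 4 tr369 [[2, 1, 1, 1, 2, 2, 1], [1, 1, 0, 0, 1, 1, 0], [3, 2, 2,
  0, 4, 3, 0], [2, 1, 1, 1, 3, 2, 0], [4, 2, 2, 1, 5, 3, 1], [0, 0, 0, 0, 1, 1, 0], [3, 2, 2, 1,
  4, 3, 1]] 140737488355261 [48, 132, 132, 156, 126, 162, 252]) 257131958698 = true := by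
  decide +kernel

end Pool.Agent.Work.MP_122e00_nt.Sharp.Cx

end

section

set_option autoImplicit false

set_option maxRecDepth 100000

/-!
# The certificate: data
-/

namespace Pool.Agent.Work.MP_122e00_nt.Sharp.Cx

/-- data -/
noncomputable def tr370 : Ct := (.ct 5 6 1 1 1 (.dc 2 15 1 (.ct 0 4 1 1 1 (.dc 0 1 1 (.ct 0 2 1
  1 1 (.dc 0 6 1 (.lf 2 12 224)) (.dc 0 6 0 (.lf 2 13 192)))) (.dc 0 1 0 (.ct 0 2 1 1 1 (.ct 2 4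
  1 1 1 (.dc 0 6 0 (.lf 2 11 208)) (.dc 0 6 1 (.lf 2 9 224))) (.dc 0 6 0 (.lf 2 8 176)))))) (.ct
  0 4 1 1 1 (.dc 0 1 1 (.ct 0 2 1 1 1 (.dc 0 6 1 (.ct 0 5 1 1 1 (.dc 2 15 0 (.lf 2 10 160)) (.dc
  2 15 1 (.lf 2 12 192)))) (.dc 0 6 0 (.ct 0 5 1 1 1 (.ct 2 5 1 1 1 (.dc 2 15 0 (.lf 2 11 160))
  (.dc 2 15 1 (.lf 2 12 192))) (.dc 2 15 1 (.lf 2 12 208)))))) (.dc 0 1 0 (.ct 0 2 1 1 1 (.ct 0 5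
  1 1 1 (.ct 2 4 1 1 1 (.dc 0 6 0 (.ct 2 5 1 1 1 (.ct 4 5 1 1 1 (.dc 2 15 0 (.lf 2 5 192)) (.dc 2
  15 1 (.lf 2 10 208))) (.dc 2 15 1 (.lf 2 11 208)))) (.dc 0 6 1 (.ct 4 5 1 1 1 (.dc 2 15 0 (.lf
  2 4 192)) (.dc 2 15 1 (.lf 2 9 192))))) (.dc 2 15 1 (.ct 2 4 1 1 1 (.dc 0 6 0 (.lf 2 11 192))
  (.dc 0 6 1 (.lf 2 9 224))))) (.dc 0 6 0 (.ct 0 5 1 1 1 (.ct 2 5 1 1 1 (.ct 4 5 1 1 1 (.dc 2 15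
  0 (.lf 2 7 208)) (.dc 2 15 1 (.lf 2 8 208))) (.dc 2 15 1 (.lf 2 8 192))) (.dc 2 15 1 (.lf 2 9
  160))))))))

theorem dt370 : le (run cls4 4 tr370 [[2, 1, 1, 1, 2, 2, 1], [1, 1, 0, 0, 1, 1, 0], [3, 2, 2,
  0, 4, 3, 0], [2, 1, 1, 1, 3, 2, 0], [1, 0, 0, 0, 1, 0, 0], [0, 0, 0, 0, 1, 1, 0], [4, 2, 2, 1,
  5, 3, 1]] 140737488355261 [48, 132, 132, 156, 126, 162, 252]) 97620415622 = true := by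
  decide +kernel

/-- data -/
noncomputable def tr371 : Ct := (.dc 2 15 1 (.ct 4 6 1 1 1 (.dc 0 1 0 (.ct 0 2 1 1 1 (.dc 0 6 1
  (.lf 2 7 208)) (.dc 0 6 0 (.lf 2 7 176)))) (.ct 0 4 1 1 1 (.dc 0 1 1 (.ct 0 2 1 1 1 (.dc 0 6 1
  (.lf 2 12 240)) (.dc 0 6 0 (.lf 2 13 208)))) (.dc 0 1 0 (.ct 0 2 1 1 1 (.ct 2 4 1 1 1 (.dc 0 6
  0 (.lf 2 9 208)) (.dc 0 6 1 (.lf 2 8 224))) (.dc 0 6 0 (.lf 2 7 176)))))))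

theorem dt371 : le (run cls4 4 tr371 [[2, 1, 1, 1, 2, 2, 1], [1, 1, 0, 0, 1, 1, 0], [3, 2, 2,
  0, 4, 3, 0], [2, 1, 1, 1, 2, 1, 0], [1, 0, 0, 0, 1, 0, 0], [2, 1, 1, 1, 3, 2, 0], [3, 2, 2, 1,
  4, 3, 1]] 140737488355261 [48, 132, 132, 156, 126, 162, 252]) 358153907406 = true := by
  decide +kernel

end Pool.Agent.Work.MP_122e00_nt.Sharp.Cx

end

section

set_option autoImplicit false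

set_option maxRecDepth 100000

/-!
# The certificate: data
-/

namespace Pool.Agent.Work.MP_122e00_nt.Sharp.Cx

/-- data -/
noncomputable def tr372 : Ct := (.dc 0 9 0 (.ct 4 5 1 1 1 (.ct 5 6 1 1 1 (.dc 2 7 1 (.dc 2 15 1
  (.ct 0 2 1 1 1 (.dc 0 6 1 (.ct 3 5 1 1 1 (.lf 3 8 176) (.ct 3 6 1 1 1 (.lf 3 9 176) (.lf 2 8
  176)))) (.dc 0 6 0 (.ct 3 5 1 1 1 (.lf 3 9 192) (.ct 3 6 1 1 1 (.lf 3 11 192) (.lf 2 10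
  192))))))) (.dc 2 7 0 (.ct 4 5 1 1 1 (.ct 0 2 1 1 1 (.dc 0 6 1 (.ct 0 5 1 1 1 (.ct 3 5 1 1 1
  (.dc 2 15 0 (.ct 3 6 1 1 1 (.lf 3 7 224) (.lf 2 7 224))) (.dc 2 15 1 (.ct 3 6 1 1 1 (.ct 5 6 1
  1 1 (.lf 3 8 224) (.lf 2 10 224)) (.lf 2 9 208)))) (.dc 2 15 1 (.ct 3 6 1 1 1 (.lf 3 7 208)
  (.lf 2 8 208))))) (.dc 0 6 0 (.ct 0 5 1 1 1 (.ct 2 5 1 1 1 (.ct 3 5 1 1 1 (.dc 2 15 0 (.ct 3 6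
  1 1 1 (.lf 3 9 192) (.lf 2 8 192))) (.dc 2 15 1 (.ct 3 6 1 1 1 (.ct 5 6 1 1 1 (.lf 3 10 224)
  (.lf 2 11 224)) (.lf 2 9 208)))) (.dc 2 15 1 (.ct 3 6 1 1 1 (.lf 3 9 208) (.lf 2 9 208)))) (.dc
  2 15 1 (.ct 3 6 1 1 1 (.lf 3 10 192) (.lf 2 10 192)))))) (.dc 2 15 1 (.ct 0 2 1 1 1 (.dc 0 6 1
  (.ct 3 6 1 1 1 (.lf 3 8 192) (.lf 2 9 192))) (.dc 0 6 0 (.ct 3 6 1 1 1 (.lf 3 9 208) (.lf 2 10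
  208)))))))) (.dc 2 7 1 (.dc 2 15 1 (.ct 0 2 1 1 1 (.dc 0 6 1 (.ct 3 6 1 1 1 (.lf 3 8 176) (.lf
  2 9 176))) (.dc 0 6 0 (.ct 3 6 1 1 1 (.lf 3 10 192) (.lf 2 9 192))))))))

theorem dt372 : le (run cls4 4 tr372 [[2, 1, 1, 1, 2, 2, 1], [1, 1, 0, 0, 1, 1, 0], [3, 2, 2,
  0, 4, 3, 0], [1, 1, 1, 1, 1, 1, 0], [3, 2, 2, 1, 3, 2, 1], [0, 0, 0, 0, 1, 1, 0], [1, 1, 1, 0,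
  1, 1, 1]] 140187732540863 [58, 106, 106, 154, 136, 136, 238]) 548425851088 = true := by
  decide +kernel

/-- data -/
noncomputable def tr373 : Ct := (.dc 0 9 1 (.ct 5 6 1 1 1 (.dc 2 7 1 (.dc 2 15 1 (.ct 0 2 1 1 1
  (.dc 0 6 1 (.lf 2 8 176)) (.dc 0 6 0 (.lf 2 8 192))))) (.dc 2 7 0 (.ct 3 5 1 1 1 (.ct 4 5 1 1 1
  (.ct 5 6 1 1 1 (.dc 2 15 1 (.ct 0 2 1 1 1 (.dc 0 6 1 (.lf 2 9 208)) (.dc 0 6 0 (.lf 2 10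
  176)))) (.ct 0 2 1 1 1 (.dc 0 6 1 (.ct 0 5 1 1 1 (.dc 2 15 0 (.lf 2 6 224)) (.dc 2 15 1 (.lf 2
  9 224)))) (.dc 0 6 0 (.ct 0 5 1 1 1 (.ct 2 5 1 1 1 (.dc 2 15 0 (.lf 2 7 208)) (.dc 2 15 1 (.lf
  2 8 208))) (.dc 2 15 1 (.lf 2 9 176)))))) (.dc 2 15 1 (.ct 0 2 1 1 1 (.dc 0 6 1 (.lf 2 8 192))
  (.dc 0 6 0 (.lf 2 8 160))))) (.dc 2 15 1 (.ct 0 2 1 1 1 (.dc 0 6 1 (.lf 2 8 176)) (.dc 0 6 0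
  (.lf 2 8 160))))))))

theorem dt373 : le (run cls4 4 tr373 [[2, 1, 1, 1, 2, 2, 1], [1, 1, 0, 0, 1, 1, 0], [3, 2, 2,
  0, 4, 3, 0], [1, 1, 1, 1, 1, 1, 0], [2, 1, 1, 1, 2, 1, 0], [0, 0, 0, 0, 1, 1, 0], [3, 2, 2, 1,
  3, 2, 1]] 140187732540863 [58, 106, 106, 154, 136, 136, 238]) 503188949645 = true := by
  decide +kernel

end Pool.Agent.Work.MP_122e00_nt.Sharp.Cx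

end

section

set_option autoImplicit false

set_option maxRecDepth 100000

/-!
# The certificate: data
-/

namespace Pool.Agent.Work.MP_122e00_nt.Sharp.Cx

/-- data -/
noncomputable def tr374 : Ct := (.dc 2 7 1 (.dc 2 15 1 (.ct 3 4 1 1 1 (.dc 1 14 0 (.ct 4 6 1 1
  1 (.dc 0 1 0 (.ct 3 6 1 1 1 (.dc 0 9 0 (.ct 0 2 1 1 1 (.dc 0 6 1 (.lf 3 9 176)) (.ct 0 5 1 1 1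
  (.dc 0 6 1 (.lf 3 6 176)) (.dc 0 6 0 (.lf 3 8 176))))) (.dc 0 9 1 (.ct 0 2 1 1 1 (.dc 0 6 1
  (.ct 3 4 1 1 1 (.lf 3 11 176) (.lf 2 10 176))) (.ct 0 5 1 1 1 (.dc 0 6 1 (.ct 3 4 1 1 1 (.lf 3
  8 192) (.lf 2 7 192))) (.dc 0 6 0 (.ct 3 4 1 1 1 (.lf 3 7 192) (.lf 2 6 192)))))))) (.dc 0 9 1
  (.ct 3 6 1 1 1 (.ct 0 2 1 1 1 (.dc 0 6 1 (.ct 0 4 1 1 1 (.dc 0 1 1 (.lf 3 11 208)) (.dc 0 1 0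
  (.lf 3 10 208)))) (.ct 2 4 1 1 1 (.ct 0 4 1 1 1 (.dc 0 1 1 (.ct 0 5 1 1 1 (.dc 0 6 1 (.lf 3 12
  224)) (.dc 0 6 0 (.lf 3 12 208)))) (.dc 0 1 0 (.ct 0 5 1 1 1 (.ct 4 5 1 1 1 (.dc 0 6 1 (.lf 3 7
  240)) (.dc 0 6 0 (.lf 3 9 208))) (.dc 0 6 0 (.lf 3 7 192))))) (.dc 0 1 0 (.ct 0 5 1 1 1 (.dc 0
  6 1 (.lf 3 6 224)) (.dc 0 6 0 (.lf 3 6 192)))))) (.ct 0 2 1 1 1 (.dc 0 6 1 (.ct 0 4 1 1 1 (.dc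
  0 1 1 (.lf 2 12 208)) (.dc 0 1 0 (.lf 2 11 208)))) (.ct 2 4 1 1 1 (.ct 0 4 1 1 1 (.dc 0 1 1
  (.ct 0 5 1 1 1 (.dc 0 6 1 (.lf 2 13 224)) (.dc 0 6 0 (.lf 2 12 208)))) (.dc 0 1 0 (.ct 0 5 1 1
  1 (.ct 4 5 1 1 1 (.dc 0 6 1 (.lf 2 6 240)) (.dc 0 6 0 (.lf 2 7 208))) (.dc 0 6 0 (.lf 2 6
  192))))) (.dc 0 1 0 (.ct 0 5 1 1 1 (.dc 0 6 1 (.lf 2 6 224)) (.dc 0 6 0 (.lf 2 5 192))))))))))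
  (.dc 0 1 0 (.dc 1 14 1 (.ct 4 6 1 1 1 (.dc 0 9 0 (.ct 0 2 1 1 1 (.dc 0 6 1 (.ct 3 6 1 1 1 (.lf
  3 9 176) (.lf 2 10 176))) (.ct 0 5 1 1 1 (.dc 0 6 1 (.ct 3 6 1 1 1 (.lf 3 7 176) (.lf 2 8
  176))) (.dc 0 6 0 (.ct 3 6 1 1 1 (.lf 3 9 176) (.lf 2 8 176)))))) (.dc 0 9 1 (.ct 0 2 1 1 1
  (.dc 0 6 1 (.lf 2 10 192)) (.ct 0 5 1 1 1 (.dc 0 6 1 (.lf 2 8 192)) (.dc 0 6 0 (.lf 2 7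
  176)))))))))))

theorem dt374 : le (run cls4 4 tr374 [[2, 1, 1, 1, 2, 2, 1], [1, 1, 0, 0, 1, 1, 0], [3, 2, 2,
  0, 2, 1, 0], [1, 1, 1, 1, 1, 1, 0], [1, 0, 0, 0, 1, 0, 0], [3, 2, 2, 0, 4, 3, 0], [1, 1, 1, 0,
  1, 1, 1]] 140186658799037 [44, 104, 104, 152, 122, 134, 224]) 286873764227 = true := by
  decide +kernel

/-- data -/
noncomputable def tr375 : Ct := (.dc 1 14 0 (.ct 5 6 1 1 1 (.dc 2 7 1 (.dc 2 15 1 (.ct 4 5 1 1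
  1 (.dc 0 1 0 (.dc 0 9 0 (.ct 0 2 1 1 1 (.dc 0 14 1 (.ct 2 3 1 1 1 (.dc 0 6 0 (.lf 3 8 176))
  (.dc 0 6 1 (.lf 3 8 176)))) (.dc 0 6 0 (.dc 0 14 0 (.lf 3 8 176)))))) (.ct 4 6 1 1 1 (.dc 0 1 0
  (.dc 0 9 0 (.ct 0 2 1 1 1 (.dc 0 14 1 (.ct 2 3 1 1 1 (.dc 0 6 0 (.lf 3 8 176)) (.dc 0 6 1 (.lf
  3 9 176)))) (.dc 0 6 0 (.dc 0 14 0 (.lf 3 7 176)))))) (.dc 0 9 1 (.ct 0 2 1 1 1 (.dc 0 14 1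
  (.ct 3 4 1 1 1 (.dc 0 1 1 (.ct 2 3 1 1 1 (.dc 0 6 0 (.lf 3 12 208)) (.dc 0 6 1 (.lf 3 11
  208)))) (.dc 0 1 0 (.ct 2 3 1 1 1 (.dc 0 6 0 (.lf 3 8 176)) (.ct 2 4 1 1 1 (.dc 0 6 0 (.lf 3 6
  208)) (.dc 0 6 1 (.lf 3 8 208))))))) (.dc 0 6 0 (.dc 0 14 0 (.ct 3 4 1 1 1 (.dc 0 1 1 (.lf 3 10
  176)) (.dc 0 1 0 (.lf 3 7 176))))))))))) (.ct 4 6 1 1 1 (.dc 0 1 0 (.dc 0 9 0 (.ct 0 2 1 1 1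
  (.dc 0 14 1 (.ct 0 5 1 2 1 (.ct 2 5 1 2 1 (.dc 2 7 0 (.ct 2 3 1 1 1 (.dc 0 6 0 (.ct 2 5 1 1 1
  (.ct 3 5 1 1 1 (.dc 2 15 0 (.lf 3 8 208)) (.dc 2 15 1 (.lf 3 10 208))) (.dc 2 15 1 (.lf 3 8
  208)))) (.dc 0 6 1 (.ct 3 5 1 1 1 (.dc 2 15 0 (.lf 3 6 224)) (.dc 2 15 1 (.lf 3 6 224))))))
  (.dc 2 7 1 (.dc 2 15 1 (.ct 2 3 1 1 1 (.ct 3 5 1 1 1 (.dc 0 6 1 (.lf 3 5 192)) (.dc 0 6 0 (.lf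
  3 7 176))) (.dc 0 6 1 (.lf 3 8 192)))))) (.dc 2 7 1 (.dc 2 15 1 (.ct 2 3 1 1 1 (.dc 0 6 0 (.lf
  3 7 192)) (.dc 0 6 1 (.lf 3 8 192))))))) (.dc 0 6 0 (.dc 0 14 0 (.ct 2 5 1 2 1 (.dc 2 7 0 (.ct
  3 5 1 1 1 (.dc 2 15 0 (.lf 3 9 176)) (.dc 2 15 1 (.lf 3 9 176)))) (.dc 2 7 1 (.dc 2 15 1 (.lf 3
  8 192))))))))) (.dc 0 9 1 (.ct 0 2 1 1 1 (.dc 0 14 1 (.ct 0 5 1 2 1 (.ct 2 5 1 2 1 (.dc 2 7 0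
  (.ct 3 4 1 1 1 (.dc 0 1 1 (.ct 2 3 1 1 1 (.dc 0 6 0 (.ct 2 5 1 1 1 (.ct 3 5 1 1 1 (.dc 2 15 0
  (.lf 3 11 192)) (.dc 2 15 1 (.lf 3 12 192))) (.dc 2 15 1 (.lf 3 12 224)))) (.dc 0 6 1 (.ct 3 5
  1 1 1 (.dc 2 15 0 (.lf 3 10 192)) (.dc 2 15 1 (.lf 3 11 224)))))) (.dc 0 1 0 (.ct 2 3 1 1 1
  (.dc 0 6 0 (.ct 2 5 1 1 1 (.ct 3 5 1 1 1 (.ct 4 5 1 1 1 (.dc 2 15 0 (.lf 3 7 224)) (.dc 2 15 1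
  (.lf 3 9 224))) (.dc 2 15 1 (.lf 3 10 192))) (.dc 2 15 1 (.lf 3 9 208)))) (.ct 3 5 1 1 1 (.ct 2
  4 1 1 1 (.dc 0 6 0 (.ct 2 5 1 1 1 (.ct 4 5 1 1 1 (.dc 2 15 0 (.lf 3 6 224)) (.dc 2 15 1 (.lf 3
  10 224))) (.dc 2 15 1 (.lf 3 8 224)))) (.dc 0 6 1 (.ct 4 5 1 1 1 (.dc 2 15 0 (.lf 3 5 224))
  (.dc 2 15 1 (.lf 3 7 224))))) (.dc 2 15 1 (.ct 2 4 1 1 1 (.dc 0 6 0 (.lf 3 9 208)) (.dc 0 6 1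
  (.lf 3 7 224))))))))) (.dc 2 7 1 (.dc 2 15 1 (.ct 2 3 1 1 1 (.ct 2 4 1 1 1 (.ct 3 4 1 1 1 (.dc
  0 1 1 (.ct 3 5 1 1 1 (.dc 0 6 1 (.lf 3 11 256)) (.dc 0 6 0 (.lf 3 12 224)))) (.dc 0 1 0 (.ct 3
  5 1 1 1 (.ct 4 5 1 1 1 (.dc 0 6 1 (.lf 3 6 256)) (.dc 0 6 0 (.lf 3 7 240))) (.dc 0 6 0 (.lf 3 8
  208))))) (.dc 0 1 0 (.ct 3 5 1 1 1 (.dc 0 6 1 (.lf 3 5 224)) (.dc 0 6 0 (.lf 3 7 208))))) (.dc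
  0 6 1 (.ct 3 4 1 1 1 (.dc 0 1 1 (.lf 3 11 224)) (.dc 0 1 0 (.lf 3 8 224)))))))) (.dc 2 7 1 (.dc
  2 15 1 (.ct 3 4 1 1 1 (.dc 0 1 1 (.ct 2 3 1 1 1 (.dc 0 6 0 (.lf 3 12 224)) (.dc 0 6 1 (.lf 3 11
  224)))) (.dc 0 1 0 (.ct 2 3 1 1 1 (.dc 0 6 0 (.lf 3 8 192)) (.ct 2 4 1 1 1 (.dc 0 6 0 (.lf 3 6
  224)) (.dc 0 6 1 (.lf 3 8 224)))))))))) (.dc 0 6 0 (.dc 0 14 0 (.ct 2 5 1 2 1 (.dc 2 7 0 (.ct 3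
  4 1 1 1 (.dc 0 1 1 (.ct 3 5 1 1 1 (.dc 2 15 0 (.lf 3 11 192)) (.dc 2 15 1 (.lf 3 11 192))))
  (.dc 0 1 0 (.ct 3 5 1 1 1 (.ct 4 5 1 1 1 (.dc 2 15 0 (.lf 3 9 192)) (.dc 2 15 1 (.lf 3 7 192)))
  (.dc 2 15 1 (.lf 3 8 160)))))) (.dc 2 7 1 (.dc 2 15 1 (.ct 3 4 1 1 1 (.dc 0 1 1 (.lf 3 10 192))
  (.dc 0 1 0 (.lf 3 7 192)))))))))))))

theorem dt375 : le (run cls4 4 tr375 [[1, 0, 0, 0, 1, 1, 1], [1, 1, 0, 0, 1, 1, 0], [3, 2, 2,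
  0, 2, 1, 0], [2, 1, 1, 1, 2, 2, 1], [1, 0, 0, 0, 1, 0, 0], [0, 0, 0, 0, 1, 1, 0], [1, 1, 1, 0,
  1, 1, 1]] 140186658782653 [30, 102, 102, 150, 120, 120, 210]) 66439550966 = true := by
  decide +kernel

end Pool.Agent.Work.MP_122e00_nt.Sharp.Cx

end
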