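import Pool.Agent.Work.MP_122e00_nt.Bd.B03

/-! Bundle of small proof modules (one section per former module). -/

section

set_option autoImplicit false

set_option maxRecDepth 100000

/-!
# The certificate: data
-/

namespace Pool.Agent.Work.MP_122e00_nt.Sharp.Cx

/-- data -/
noncomputable def tr376 : Ct := (.dc 0 6 1 (.dc 0 14 1 (.dc 1 6 1 (.dc 1 14 1 (.ct 2 5 1 2 1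
  (.ct 4 5 1 2 1 (.ct 0 5 1 2 1 (.ct 5 6 1 1 1 (.dc 2 7 1 (.dc 2 15 1 (.ct 0 3 1 1 1 (.ct 3 5 1 1
  1 (.lf 3 7 192) (.ct 3 6 1 1 1 (.lf 3 8 192) (.lf 2 7 192))) (.lf 3 6 208)))) (.dc 2 7 0 (.ct 0
  3 1 1 1 (.ct 0 5 1 1 1 (.ct 3 5 1 1 1 (.dc 2 15 0 (.ct 3 6 1 1 1 (.lf 3 6 176) (.lf 2 6 176)))
  (.dc 2 15 1 (.ct 3 6 1 1 1 (.ct 5 6 1 1 1 (.lf 3 7 176) (.lf 2 8 176)) (.lf 2 8 160)))) (.dc 2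
  15 1 (.ct 3 6 1 1 1 (.lf 3 7 192) (.lf 2 7 192)))) (.ct 3 5 1 1 1 (.dc 2 15 0 (.lf 3 5 176))
  (.dc 2 15 1 (.lf 3 6 208)))))) (.dc 2 7 1 (.dc 2 15 1 (.ct 0 3 1 1 1 (.ct 3 5 1 1 1 (.lf 3 6
  224) (.ct 3 6 1 1 1 (.lf 3 6 192) (.lf 2 7 192))) (.lf 3 5 192))))) (.dc 2 7 1 (.dc 2 15 1 (.ct
  0 3 1 1 1 (.ct 3 6 1 1 1 (.lf 3 9 192) (.lf 2 10 192)) (.lf 3 8 192))))) (.dc 2 7 1 (.dc 2 15 1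
  (.ct 0 3 1 1 1 (.ct 3 6 1 1 1 (.lf 3 8 176) (.lf 2 9 176)) (.lf 3 7 176)))))))))

theorem dt376 : le (run cls4 4 tr376 [[3, 2, 2, 0, 2, 2, 1], [1, 1, 0, 0, 1, 1, 0], [2, 2, 2,
  0, 1, 1, 0], [1, 1, 1, 1, 1, 1, 0], [3, 2, 2, 0, 2, 1, 0], [0, 0, 0, 0, 1, 1, 0], [1, 1, 1, 0,
  1, 1, 1]] 140186654588863 [30, 102, 102, 150, 120, 120, 210]) 85180769214 = true := by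
  decide +kernel

/-- data -/
noncomputable def tr377 : Ct := (.ct 5 6 1 1 1 (.dc 2 7 1 (.dc 2 15 1 (.ct 2 3 1 1 1 (.ct 0 4 1
  1 1 (.dc 0 6 1 (.ct 3 5 1 1 1 (.lf 3 8 192) (.ct 3 6 1 1 1 (.lf 3 9 192) (.lf 2 8 192)))) (.dc
  0 6 0 (.ct 3 5 1 1 1 (.lf 3 9 208) (.ct 3 6 1 1 1 (.lf 3 10 208) (.lf 2 9 208))))) (.ct 0 4 1 1
  1 (.dc 0 6 1 (.lf 3 7 208)) (.dc 0 6 0 (.lf 3 9 192)))))) (.dc 2 7 0 (.ct 0 4 1 1 1 (.dc 0 6 1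
  (.ct 0 5 1 1 1 (.ct 2 3 1 1 1 (.ct 2 5 1 1 1 (.ct 3 5 1 1 1 (.dc 2 15 0 (.ct 3 6 1 1 1 (.lf 3 7
  208) (.lf 2 6 208))) (.dc 2 15 1 (.ct 3 6 1 1 1 (.ct 5 6 1 1 1 (.lf 3 8 208) (.lf 2 9 208))
  (.lf 2 8 192)))) (.dc 2 15 1 (.ct 3 6 1 1 1 (.lf 3 7 224) (.lf 2 8 224)))) (.ct 3 5 1 1 1 (.dc
  2 15 0 (.lf 3 6 208)) (.dc 2 15 1 (.lf 3 7 240)))) (.dc 2 15 1 (.ct 2 3 1 1 1 (.ct 3 6 1 1 1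
  (.lf 3 7 224) (.lf 2 8 224)) (.lf 3 6 240))))) (.dc 0 6 0 (.ct 0 5 1 1 1 (.ct 4 5 1 1 1 (.ct 2
  3 1 1 1 (.ct 2 5 1 1 1 (.ct 3 5 1 1 1 (.dc 2 15 0 (.ct 3 6 1 1 1 (.lf 3 9 176) (.lf 2 8 176)))
  (.dc 2 15 1 (.ct 3 6 1 1 1 (.ct 5 6 1 1 1 (.lf 3 10 208) (.lf 2 11 208)) (.lf 2 9 192)))) (.dc
  2 15 1 (.ct 3 6 1 1 1 (.lf 3 9 224) (.lf 2 9 224)))) (.ct 3 5 1 1 1 (.dc 2 15 0 (.lf 3 8 176))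
  (.dc 2 15 1 (.lf 3 9 208)))) (.dc 2 15 1 (.ct 2 3 1 1 1 (.ct 3 6 1 1 1 (.lf 3 9 224) (.lf 2 8
  224)) (.lf 3 8 208)))) (.dc 2 15 1 (.ct 2 3 1 1 1 (.ct 3 6 1 1 1 (.lf 3 9 208) (.lf 2 9 208))
  (.lf 3 9 192))))))))

theorem dt377 : le (run cls4 4 tr377 [[2, 1, 1, 1, 2, 2, 1], [1, 1, 0, 0, 1, 1, 0], [3, 2, 2,
  0, 4, 4, 1], [1, 1, 1, 1, 1, 1, 0], [3, 2, 2, 0, 4, 3, 0], [0, 0, 0, 0, 1, 1, 0], [1, 1, 1, 0,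
  1, 1, 1]] 140187732541375 [58, 106, 106, 154, 136, 136, 238]) 363492334633 = true := by
  decide +kernel

/-- data -/
noncomputable def tr378 : Ct := (.dc 2 7 1 (.dc 2 15 1 (.ct 0 4 1 1 1 (.dc 0 6 1 (.ct 2 3 1 1 1
  (.ct 3 6 1 1 1 (.lf 3 9 208) (.lf 2 10 208)) (.lf 3 9 224))) (.ct 0 5 1 1 1 (.dc 0 6 1 (.ct 2 3
  1 1 1 (.ct 3 6 1 1 1 (.lf 3 7 208) (.lf 2 8 208)) (.lf 3 6 224))) (.dc 0 6 0 (.ct 2 3 1 1 1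
  (.ct 3 6 1 1 1 (.lf 3 9 192) (.lf 2 8 192)) (.lf 3 9 192)))))))

theorem dt378 : le (run cls4 4 tr378 [[2, 1, 1, 1, 2, 2, 1], [1, 1, 0, 0, 1, 1, 0], [3, 2, 2,
  0, 4, 4, 1], [1, 1, 1, 1, 1, 1, 0], [3, 2, 2, 0, 2, 1, 0], [3, 2, 2, 0, 4, 3, 0], [1, 1, 1, 0,
  1, 1, 1]] 140187732541375 [58, 106, 106, 154, 136, 136, 238]) 457693635000 = true := by
  decide +kernel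

/-- data -/
noncomputable def tr379 : Ct := (.dc 2 7 1 (.dc 2 15 1 (.ct 2 3 1 1 1 (.ct 0 4 1 1 1 (.dc 0 6 1
  (.ct 3 5 1 1 1 (.lf 3 9 208) (.ct 3 6 1 1 1 (.lf 3 9 192) (.lf 2 11 192)))) (.dc 0 6 0 (.ct 3 5
  1 1 1 (.lf 3 8 208) (.ct 3 6 1 1 1 (.lf 3 8 192) (.lf 2 7 192))))) (.ct 0 4 1 1 1 (.dc 0 6 1
  (.lf 3 8 176)) (.dc 0 6 0 (.lf 3 7 176))))))

theorem dt379 : le (run cls4 4 tr379 [[2, 1, 1, 1, 2, 2, 1], [1, 1, 0, 0, 1, 1, 0], [3, 2, 2,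
  0, 2, 2, 1], [1, 1, 1, 1, 1, 1, 0], [3, 2, 2, 0, 2, 1, 0], [3, 2, 2, 0, 4, 4, 1], [1, 1, 1, 0,
  1, 1, 1]] 140187732541375 [58, 106, 106, 154, 136, 136, 238]) 589194089668 = true := by
  decide +kernel

end Pool.Agent.Work.MP_122e00_nt.Sharp.Cx

end

section

set_option autoImplicit false

set_option maxRecDepth 100000

/-!
# The certificate: data
-/

namespace Pool.Agent.Work.MP_122e00_nt.Sharp.Cx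

/-- data -/
noncomputable def tr380 : Ct := (.dc 1 14 0 (.ct 2 5 1 2 1 (.ct 5 6 1 1 1 (.dc 2 7 1 (.dc 2 15
  1 (.ct 0 4 1 1 1 (.dc 0 14 1 (.ct 3 4 1 1 1 (.dc 0 6 1 (.lf 3 8 192)) (.dc 0 6 0 (.lf 3 7
  192)))) (.dc 0 6 0 (.dc 0 14 0 (.lf 3 8 192)))))) (.ct 0 4 1 1 1 (.dc 0 14 1 (.ct 0 5 1 2 1
  (.ct 4 5 1 2 1 (.dc 2 7 0 (.ct 3 4 1 1 1 (.dc 0 6 1 (.ct 3 5 1 1 1 (.dc 2 15 0 (.lf 3 6 224))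
  (.dc 2 15 1 (.lf 3 6 224)))) (.dc 0 6 0 (.ct 3 5 1 1 1 (.ct 4 5 1 1 1 (.dc 2 15 0 (.lf 3 8
  192)) (.dc 2 15 1 (.lf 3 8 192))) (.dc 2 15 1 (.lf 3 9 176)))))) (.dc 2 7 1 (.dc 2 15 1 (.ct 3
  4 1 1 1 (.dc 0 6 1 (.lf 3 8 208)) (.ct 3 5 1 1 1 (.dc 0 6 1 (.lf 3 5 208)) (.dc 0 6 0 (.lf 3 7
  176))))))) (.dc 2 7 1 (.dc 2 15 1 (.ct 3 4 1 1 1 (.dc 0 6 1 (.lf 3 8 208)) (.dc 0 6 0 (.lf 3 7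
  208))))))) (.dc 0 6 0 (.dc 0 14 0 (.ct 4 5 1 2 1 (.dc 2 7 0 (.ct 3 5 1 1 1 (.dc 2 15 0 (.lf 3 9
  160)) (.dc 2 15 1 (.lf 3 9 176)))) (.dc 2 7 1 (.dc 2 15 1 (.lf 3 7 208)))))))) (.dc 2 7 1 (.dc
  2 15 1 (.ct 0 4 1 1 1 (.dc 0 14 1 (.ct 3 4 1 1 1 (.dc 0 6 1 (.lf 3 8 192)) (.dc 0 6 0 (.lf 3 7
  192)))) (.dc 0 6 0 (.dc 0 14 0 (.lf 3 7 192))))))))

theorem dt380 : le (run cls4 4 tr380 [[1, 0, 0, 0, 1, 1, 1], [1, 1, 0, 0, 1, 1, 0], [3, 2, 2,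
  0, 2, 2, 1], [2, 1, 1, 1, 2, 2, 1], [3, 2, 2, 0, 2, 1, 0], [0, 0, 0, 0, 1, 1, 0], [1, 1, 1, 0,
  1, 1, 1]] 140186658783167 [30, 102, 102, 150, 120, 120, 210]) 148715270429 = true := by
  decide +kernel

/-- data -/
noncomputable def tr381 : Ct := (.dc 0 1 0 (.dc 0 9 0 (.ct 3 4 1 1 1 (.dc 1 14 0 (.ct 1 3 1 1 1
  (.dc 2 3 0 (.ct 0 2 1 1 1 (.dc 0 6 1 (.lf 3 9 192)) (.dc 0 6 0 (.lf 3 7 192)))) (.ct 0 2 1 1 1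
  (.dc 0 6 1 (.ct 0 1 1 1 1 (.dc 2 3 1 (.lf 3 10 192)) (.dc 2 3 0 (.lf 3 8 192)))) (.dc 0 6 0
  (.ct 0 1 1 1 1 (.ct 1 2 1 1 1 (.dc 2 3 0 (.lf 3 5 192)) (.dc 2 3 1 (.lf 3 11 176))) (.dc 2 3 0
  (.lf 3 7 160))))))) (.dc 1 14 1 (.ct 1 4 1 1 1 (.dc 2 3 0 (.ct 0 2 1 1 1 (.dc 0 6 1 (.ct 3 6 1
  1 1 (.lf 3 9 192) (.lf 2 11 192))) (.dc 0 6 0 (.ct 3 6 1 1 1 (.lf 3 8 192) (.lf 2 7 192)))))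
  (.ct 0 2 1 1 1 (.dc 0 6 1 (.ct 0 1 1 1 1 (.ct 1 3 1 1 1 (.dc 2 3 0 (.ct 1 6 1 1 1 (.ct 3 6 1 1
  1 (.lf 3 9 224) (.lf 2 10 224)) (.lf 2 10 224))) (.dc 2 3 1 (.ct 3 6 1 1 1 (.lf 3 10 224) (.lf
  2 11 208)))) (.dc 2 3 0 (.ct 3 6 1 1 1 (.lf 3 8 192) (.lf 2 10 192))))) (.dc 0 6 0 (.ct 0 1 1 1
  1 (.ct 1 2 1 1 1 (.dc 2 3 0 (.ct 3 6 1 1 1 (.lf 3 6 192) (.lf 2 7 192))) (.ct 1 3 1 1 1 (.dc 2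
  3 0 (.ct 1 6 1 1 1 (.ct 3 6 1 1 1 (.lf 3 6 208) (.lf 2 7 208)) (.lf 2 9 208))) (.dc 2 3 1 (.ct
  3 6 1 1 1 (.lf 3 11 208) (.lf 2 12 208))))) (.dc 2 3 0 (.ct 3 6 1 1 1 (.lf 3 8 160) (.lf 2 7
  160)))))))))))

theorem dt381 : le (run cls4 4 tr381 [[2, 1, 1, 1, 2, 2, 1], [1, 1, 0, 0, 0, 0, 0], [3, 2, 2,
  0, 2, 1, 0], [1, 1, 1, 1, 1, 1, 0], [2, 1, 1, 0, 2, 1, 1], [1, 1, 0, 0, 1, 1, 0], [1, 1, 1, 0,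
  1, 1, 1]] 281439543229885 [49, 109, 121, 169, 157, 169, 229]) 710451818078 = true := by
  decide +kernel

/-- data -/
noncomputable def tr382 : Ct := (.dc 2 3 0 (.ct 1 6 1 1 1 (.ct 3 6 1 1 1 (.ct 0 4 1 1 1 (.dc 0
  1 1 (.ct 0 2 1 1 1 (.dc 0 6 1 (.lf 3 12 208)) (.dc 0 6 0 (.lf 3 12 192)))) (.dc 0 1 0 (.ct 0 2
  1 1 1 (.ct 2 4 1 1 1 (.dc 0 6 0 (.lf 3 7 208)) (.dc 0 6 1 (.lf 3 10 208))) (.dc 0 6 0 (.lf 3 7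
  176))))) (.ct 0 4 1 1 1 (.dc 0 1 1 (.ct 0 2 1 1 1 (.dc 0 6 1 (.lf 2 12 208)) (.dc 0 6 0 (.lf 2
  12 192)))) (.dc 0 1 0 (.ct 0 2 1 1 1 (.ct 2 4 1 1 1 (.dc 0 6 0 (.lf 2 5 208)) (.dc 0 6 1 (.lf 2
  11 208))) (.dc 0 6 0 (.lf 2 6 176)))))) (.ct 0 4 1 1 1 (.dc 0 1 1 (.ct 0 2 1 1 1 (.dc 0 6 1
  (.lf 2 12 208)) (.dc 0 6 0 (.lf 2 12 208)))) (.dc 0 1 0 (.ct 0 2 1 1 1 (.ct 2 4 1 1 1 (.dc 0 6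
  0 (.lf 2 8 208)) (.dc 0 6 1 (.lf 2 10 208))) (.dc 0 6 0 (.lf 2 7 176)))))))

theorem dt382 : le (run cls4 4 tr382 [[2, 1, 1, 1, 2, 2, 1], [3, 2, 1, 1, 2, 1, 0], [3, 2, 2,
  0, 2, 1, 0], [2, 1, 1, 1, 2, 1, 0], [1, 0, 0, 0, 1, 0, 0], [1, 1, 0, 0, 1, 1, 0], [2, 1, 1, 0,
  2, 1, 1]] 281440616972221 [53, 137, 149, 173, 161, 197, 257]) 162348861717 = true := by
  decide +kernel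

end Pool.Agent.Work.MP_122e00_nt.Sharp.Cx

end

section

set_option autoImplicit false

set_option maxRecDepth 100000

/-!
# The certificate: data
-/

namespace Pool.Agent.Work.MP_122e00_nt.Sharp.Cx

/-- data -/
noncomputable def tr383 : Ct := (.ct 3 6 1 1 1 (.ct 0 4 1 1 1 (.dc 0 1 1 (.ct 0 2 1 1 1 (.dc 0
  6 1 (.ct 0 1 1 1 1 (.dc 2 3 1 (.lf 3 9 176)) (.dc 2 3 0 (.lf 3 11 208)))) (.dc 0 6 0 (.ct 0 1 1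
  1 1 (.ct 1 2 1 1 1 (.dc 2 3 0 (.lf 3 12 208)) (.dc 2 3 1 (.lf 3 9 176))) (.dc 2 3 0 (.lf 3 12
  208)))))) (.dc 0 1 0 (.ct 0 2 1 1 1 (.ct 0 1 1 1 1 (.ct 2 4 1 1 1 (.dc 0 6 0 (.ct 1 2 1 1 1
  (.dc 2 3 0 (.lf 3 7 176)) (.ct 1 4 1 1 1 (.dc 2 3 0 (.lf 3 7 208)) (.dc 2 3 1 (.lf 3 11
  208))))) (.dc 0 6 1 (.ct 1 4 1 1 1 (.dc 2 3 0 (.lf 3 8 208)) (.dc 2 3 1 (.lf 3 10 208))))) (.dc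
  2 3 0 (.ct 2 4 1 1 1 (.dc 0 6 0 (.lf 3 6 208)) (.dc 0 6 1 (.lf 3 9 208))))) (.dc 0 6 0 (.ct 0 1
  1 1 1 (.ct 1 2 1 1 1 (.dc 2 3 0 (.lf 3 8 208)) (.ct 1 4 1 1 1 (.dc 2 3 0 (.lf 3 8 208)) (.dc 2
  3 1 (.lf 3 11 208)))) (.dc 2 3 0 (.lf 3 7 176))))))) (.ct 0 4 1 1 1 (.dc 0 1 1 (.ct 0 2 1 1 1
  (.dc 0 6 1 (.ct 0 1 1 1 1 (.dc 2 3 1 (.lf 2 10 176)) (.dc 2 3 0 (.lf 2 12 208)))) (.dc 0 6 0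
  (.ct 0 1 1 1 1 (.ct 1 2 1 1 1 (.dc 2 3 0 (.lf 2 13 224)) (.dc 2 3 1 (.lf 2 10 192))) (.dc 2 3 0
  (.lf 2 12 224)))))) (.dc 0 1 0 (.ct 0 2 1 1 1 (.ct 0 1 1 1 1 (.ct 2 4 1 1 1 (.dc 0 6 0 (.ct 1 2
  1 1 1 (.dc 2 3 0 (.lf 2 7 208)) (.ct 1 4 1 1 1 (.dc 2 3 0 (.lf 2 7 224)) (.dc 2 3 1 (.lf 2 12
  224))))) (.dc 0 6 1 (.ct 1 4 1 1 1 (.dc 2 3 0 (.lf 2 11 208)) (.dc 2 3 1 (.lf 2 11 208)))))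
  (.dc 2 3 0 (.ct 2 4 1 1 1 (.dc 0 6 0 (.lf 2 8 192)) (.dc 0 6 1 (.lf 2 10 192))))) (.dc 0 6 0
  (.ct 0 1 1 1 1 (.ct 1 2 1 1 1 (.dc 2 3 0 (.lf 2 9 192)) (.ct 1 4 1 1 1 (.dc 2 3 0 (.lf 2 9
  224)) (.dc 2 3 1 (.lf 2 11 224)))) (.dc 2 3 0 (.lf 2 8 160))))))))

theorem dt383 : le (run cls4 4 tr383 [[2, 1, 1, 1, 2, 2, 1], [1, 1, 0, 0, 0, 0, 0], [3, 2, 2,
  0, 2, 1, 0], [3, 2, 1, 1, 2, 1, 0], [1, 0, 0, 0, 1, 0, 0], [1, 1, 0, 0, 1, 1, 0], [2, 1, 1, 0,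
  2, 1, 1]] 281440616972221 [53, 137, 149, 173, 161, 197, 257]) 123836395952 = true := by
  decide +kernel

end Pool.Agent.Work.MP_122e00_nt.Sharp.Cx

end

section

set_option autoImplicit false

set_option maxRecDepth 100000

/-!
# The certificate: data
-/

namespace Pool.Agent.Work.MP_122e00_nt.Sharp.Cx

/-- data -/
noncomputable def tr384 : Ct := (.dc 0 1 0 (.ct 3 6 1 1 1 (.dc 1 14 0 (.ct 1 3 1 1 1 (.dc 2 3 0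
  (.ct 0 2 1 1 1 (.dc 0 6 1 (.ct 4 6 1 1 1 (.lf 3 11 176) (.lf 2 10 176))) (.dc 0 6 0 (.ct 4 6 1
  1 1 (.lf 3 6 176) (.lf 2 6 176))))) (.ct 0 2 1 1 1 (.dc 0 6 1 (.ct 0 1 1 1 1 (.ct 1 4 1 1 1
  (.dc 2 3 0 (.ct 1 6 1 1 1 (.ct 4 6 1 1 1 (.lf 3 10 208) (.lf 2 11 208)) (.lf 2 10 208))) (.dc 2
  3 1 (.ct 4 6 1 1 1 (.lf 3 11 208) (.lf 2 11 208)))) (.dc 2 3 0 (.ct 4 6 1 1 1 (.lf 3 10 192)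
  (.lf 2 11 192))))) (.dc 0 6 0 (.ct 0 1 1 1 1 (.ct 1 2 1 1 1 (.dc 2 3 0 (.ct 4 6 1 1 1 (.lf 3 7
  192) (.lf 2 7 192))) (.ct 1 4 1 1 1 (.dc 2 3 0 (.ct 1 6 1 1 1 (.ct 4 6 1 1 1 (.lf 3 7 192) (.lf
  2 6 192)) (.lf 2 8 208))) (.dc 2 3 1 (.ct 4 6 1 1 1 (.lf 3 11 192) (.lf 2 11 208))))) (.dc 2 3
  0 (.ct 4 6 1 1 1 (.lf 3 6 160) (.lf 2 6 160)))))))) (.dc 1 14 1 (.ct 1 3 1 1 1 (.dc 2 3 0 (.ct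
  0 2 1 1 1 (.dc 0 6 1 (.lf 2 10 192)) (.dc 0 6 0 (.lf 2 7 192)))) (.ct 1 4 1 1 1 (.dc 2 3 0 (.ct
  0 2 1 1 1 (.dc 0 6 1 (.lf 2 8 176)) (.dc 0 6 0 (.lf 2 7 176)))) (.ct 1 6 1 1 1 (.dc 2 3 0 (.ct
  0 2 1 1 1 (.dc 0 6 1 (.lf 2 8 176)) (.dc 0 6 0 (.lf 2 7 176)))) (.ct 0 2 1 1 1 (.dc 0 6 1 (.ct
  0 1 1 1 1 (.dc 2 3 1 (.lf 2 11 192)) (.dc 2 3 0 (.lf 2 10 192)))) (.dc 0 6 0 (.ct 0 1 1 1 1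
  (.ct 1 2 1 1 1 (.dc 2 3 0 (.lf 2 8 192)) (.dc 2 3 1 (.lf 2 11 192))) (.dc 2 3 0 (.lf 2 7
  160)))))))))))

theorem dt384 : le (run cls4 4 tr384 [[2, 1, 1, 1, 2, 2, 1], [1, 1, 0, 0, 0, 0, 0], [3, 2, 2,
  0, 2, 1, 0], [1, 1, 1, 1, 1, 1, 0], [2, 1, 1, 1, 2, 1, 0], [1, 1, 0, 0, 1, 1, 0], [2, 1, 1, 0,
  2, 1, 1]] 281439543230397 [53, 137, 149, 173, 161, 197, 257]) 533980917726 = true := by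
  decide +kernel

/-- data -/
noncomputable def tr385 : Ct := (.dc 1 14 0 (.ct 4 6 1 1 1 (.dc 0 1 0 (.dc 0 9 0 (.ct 0 2 1 1 1
  (.dc 0 14 1 (.ct 2 3 1 1 1 (.dc 0 6 0 (.ct 1 2 1 1 1 (.dc 2 3 0 (.lf 3 7 208)) (.ct 1 3 1 1 1
  (.dc 2 3 0 (.lf 3 7 208)) (.dc 2 3 1 (.lf 3 10 192))))) (.dc 0 6 1 (.ct 1 3 1 1 1 (.dc 2 3 0
  (.lf 3 8 208)) (.dc 2 3 1 (.lf 3 9 208)))))) (.dc 0 6 0 (.dc 0 14 0 (.ct 1 3 1 1 1 (.dc 2 3 0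
  (.lf 3 7 176)) (.dc 2 3 1 (.lf 3 10 160)))))))) (.dc 0 9 1 (.ct 0 2 1 1 1 (.dc 0 14 1 (.ct 3 4
  1 1 1 (.dc 0 1 1 (.ct 2 3 1 1 1 (.dc 0 6 0 (.ct 1 2 1 1 1 (.dc 2 3 0 (.lf 3 12 192)) (.ct 1 3 1
  1 1 (.dc 2 3 0 (.lf 3 12 160)) (.dc 2 3 1 (.lf 3 9 160))))) (.dc 0 6 1 (.ct 1 3 1 1 1 (.dc 2 3
  0 (.lf 3 11 208)) (.dc 2 3 1 (.lf 3 9 192)))))) (.dc 0 1 0 (.ct 2 3 1 1 1 (.dc 0 6 0 (.ct 1 2 1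
  1 1 (.dc 2 3 0 (.lf 3 7 208)) (.ct 1 3 1 1 1 (.dc 2 3 0 (.lf 3 7 208)) (.ct 1 4 1 1 1 (.dc 2 3
  0 (.lf 3 8 192)) (.dc 2 3 1 (.lf 3 11 192)))))) (.ct 1 3 1 1 1 (.dc 2 3 0 (.ct 2 4 1 1 1 (.dc 0
  6 0 (.lf 3 7 208)) (.dc 0 6 1 (.lf 3 9 208)))) (.ct 2 4 1 1 1 (.dc 0 6 0 (.ct 1 2 1 1 1 (.dc 2
  3 0 (.lf 3 7 192)) (.ct 1 4 1 1 1 (.dc 2 3 0 (.lf 3 7 192)) (.dc 2 3 1 (.lf 3 11 192))))) (.dc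
  0 6 1 (.ct 1 4 1 1 1 (.dc 2 3 0 (.lf 3 8 208)) (.dc 2 3 1 (.lf 3 10 208)))))))))) (.dc 0 6 0
  (.dc 0 14 0 (.ct 3 4 1 1 1 (.dc 0 1 1 (.ct 1 3 1 1 1 (.dc 2 3 0 (.lf 3 10 160)) (.dc 2 3 1 (.lf
  3 8 144)))) (.dc 0 1 0 (.ct 1 3 1 1 1 (.dc 2 3 0 (.lf 3 6 176)) (.ct 1 4 1 1 1 (.dc 2 3 0 (.lf
  3 4 160)) (.dc 2 3 1 (.lf 3 9 160))))))))))))

theorem dt385 : le (run cls4 4 tr385 [[1, 0, 0, 0, 1, 1, 1], [1, 1, 0, 0, 0, 0, 0], [3, 2, 2,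
  0, 2, 1, 0], [2, 1, 1, 1, 2, 2, 1], [1, 0, 0, 0, 1, 0, 0], [1, 1, 0, 0, 1, 1, 0], [1, 1, 1, 0,
  1, 1, 1]] 281439543213501 [35, 107, 119, 167, 155, 155, 215]) 149388518506 = true := by
  decide +kernel

end Pool.Agent.Work.MP_122e00_nt.Sharp.Cx

end

section

set_option autoImplicit false

set_option maxRecDepth 100000

/-!
# The certificate: data
-/

namespace Pool.Agent.Work.MP_122e00_nt.Sharp.Cx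

/-- data -/
noncomputable def tr386 : Ct := (.dc 0 1 0 (.dc 0 9 0 (.ct 0 2 1 1 1 (.dc 0 6 1 (.dc 0 14 1
  (.dc 1 6 1 (.dc 1 14 1 (.ct 0 3 1 1 1 (.ct 0 1 1 1 1 (.ct 1 3 1 1 1 (.dc 2 3 0 (.ct 1 6 1 1 1
  (.ct 3 6 1 1 1 (.lf 3 8 176) (.lf 2 9 192)) (.lf 2 10 192))) (.dc 2 3 1 (.ct 3 6 1 1 1 (.lf 3 9
  192) (.lf 2 11 176)))) (.dc 2 3 0 (.ct 3 6 1 1 1 (.lf 3 8 176) (.lf 2 9 176)))) (.ct 1 3 1 1 1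
  (.dc 2 3 0 (.lf 3 7 176)) (.dc 2 3 1 (.lf 3 9 160)))))))) (.dc 1 6 0 (.ct 0 3 1 1 1 (.dc 0 14 1
  (.dc 1 14 1 (.ct 0 4 1 1 1 (.dc 0 6 1 (.ct 0 1 1 1 1 (.ct 2 3 1 1 1 (.ct 1 2 1 1 1 (.dc 2 3 0
  (.ct 3 6 1 1 1 (.lf 3 8 192) (.lf 2 10 192))) (.ct 1 3 1 1 1 (.dc 2 3 0 (.ct 1 6 1 1 1 (.ct 3 6
  1 1 1 (.lf 3 8 208) (.lf 2 10 208)) (.lf 2 10 208))) (.dc 2 3 1 (.ct 3 6 1 1 1 (.lf 3 10 208)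
  (.lf 2 11 208))))) (.ct 1 3 1 1 1 (.dc 2 3 0 (.lf 3 8 192)) (.dc 2 3 1 (.lf 3 10 176)))) (.dc 2
  3 0 (.ct 2 3 1 1 1 (.ct 3 6 1 1 1 (.lf 3 9 192) (.lf 2 10 192)) (.lf 3 8 192))))) (.dc 0 6 0
  (.ct 0 1 1 1 1 (.ct 1 4 1 1 1 (.dc 2 3 0 (.ct 2 3 1 1 1 (.ct 3 6 1 1 1 (.lf 3 6 192) (.lf 2 7
  192)) (.lf 3 5 192))) (.ct 2 3 1 1 1 (.ct 1 2 1 1 1 (.dc 2 3 0 (.ct 3 6 1 1 1 (.lf 3 6 192)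
  (.lf 2 7 192))) (.ct 1 3 1 1 1 (.dc 2 3 0 (.ct 1 6 1 1 1 (.ct 3 6 1 1 1 (.lf 3 6 208) (.lf 2 7
  208)) (.lf 2 9 208))) (.dc 2 3 1 (.ct 3 6 1 1 1 (.lf 3 11 208) (.lf 2 12 208))))) (.ct 1 3 1 1
  1 (.dc 2 3 0 (.lf 3 5 192)) (.dc 2 3 1 (.lf 3 10 176))))) (.dc 2 3 0 (.ct 2 3 1 1 1 (.ct 3 6 1
  1 1 (.lf 3 8 160) (.lf 2 7 160)) (.lf 3 7 160)))))))) (.dc 1 14 0 (.ct 0 4 1 1 1 (.dc 0 14 1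
  (.ct 3 4 1 1 1 (.dc 0 6 1 (.ct 1 3 1 1 1 (.dc 2 3 0 (.lf 3 7 208)) (.dc 2 3 1 (.lf 3 9 208))))
  (.dc 0 6 0 (.ct 1 3 1 1 1 (.dc 2 3 0 (.lf 3 7 176)) (.ct 1 4 1 1 1 (.dc 2 3 0 (.lf 3 5 208))
  (.dc 2 3 1 (.lf 3 10 192))))))) (.dc 0 6 0 (.dc 0 14 0 (.ct 1 3 1 1 1 (.dc 2 3 0 (.lf 3 6 176))
  (.dc 2 3 1 (.lf 3 9 160))))))))))))

theorem dt386 : le (run cls4 4 tr386 [[1, 0, 0, 0, 1, 1, 1], [1, 1, 0, 0, 0, 0, 0], [2, 2, 2,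
  0, 1, 1, 0], [1, 1, 1, 1, 1, 1, 0], [3, 2, 2, 0, 2, 1, 0], [1, 1, 0, 0, 1, 1, 0], [1, 1, 1, 0,
  1, 1, 1]] 281439539019197 [35, 107, 119, 167, 155, 155, 215]) 381432250401 = true := by
  decide +kernel

/-- data -/
noncomputable def tr387 : Ct := (.dc 0 1 0 (.dc 0 9 0 (.ct 4 5 1 1 1 (.dc 1 14 1 (.ct 0 2 1 1 1
  (.dc 0 6 1 (.ct 1 4 1 1 1 (.dc 2 3 0 (.ct 5 6 1 1 1 (.lf 3 9 208) (.lf 2 10 208))) (.ct 1 5 1 1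
  1 (.dc 2 3 0 (.ct 1 6 1 1 1 (.ct 5 6 1 1 1 (.lf 3 9 208) (.lf 2 10 208)) (.lf 2 11 208))) (.dc
  2 3 1 (.ct 5 6 1 1 1 (.lf 3 10 208) (.lf 2 12 208)))))) (.dc 0 6 0 (.ct 1 4 1 1 1 (.dc 2 3 0
  (.ct 5 6 1 1 1 (.lf 3 7 192) (.lf 2 9 192))) (.ct 1 5 1 1 1 (.dc 2 3 0 (.ct 1 6 1 1 1 (.ct 5 6
  1 1 1 (.lf 3 7 192) (.lf 2 8 192)) (.lf 2 9 192))) (.dc 2 3 1 (.ct 5 6 1 1 1 (.lf 3 11 192)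
  (.lf 2 12 192)))))))) (.dc 1 14 0 (.ct 0 2 1 1 1 (.dc 0 6 1 (.ct 1 5 1 1 1 (.dc 2 3 0 (.lf 3 8
  208)) (.dc 2 3 1 (.lf 3 10 176)))) (.dc 0 6 0 (.ct 1 5 1 1 1 (.dc 2 3 0 (.lf 3 7 192)) (.dc 2 3
  1 (.lf 3 11 160)))))))))

theorem dt387 : le (run cls4 4 tr387 [[2, 1, 1, 1, 1, 1, 1], [1, 1, 0, 0, 0, 0, 0], [3, 2, 2,
  0, 2, 1, 0], [3, 2, 2, 1, 2, 1, 1], [2, 1, 1, 0, 2, 1, 1], [1, 1, 1, 1, 1, 1, 0], [1, 1, 1, 0,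
  1, 1, 1]] 281439543229885 [51, 123, 123, 171, 171, 183, 231]) 995295769476 = true := by
  decide +kernel

end Pool.Agent.Work.MP_122e00_nt.Sharp.Cx

end

section

set_option autoImplicit false

set_option maxRecDepth 100000

/-!
# The certificate: data
-/

namespace Pool.Agent.Work.MP_122e00_nt.Sharp.Cx

/-- data -/
noncomputable def tr388 : Ct := (.dc 0 1 0 (.ct 5 6 1 1 1 (.dc 1 14 0 (.ct 0 2 1 1 1 (.dc 0 6 1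
  (.ct 1 5 1 1 1 (.dc 2 3 0 (.ct 4 6 1 1 1 (.lf 3 11 208) (.lf 2 10 208))) (.ct 1 4 1 1 1 (.dc 2
  3 0 (.ct 1 6 1 1 1 (.ct 4 6 1 1 1 (.lf 3 10 176) (.lf 2 11 176)) (.lf 2 10 176))) (.dc 2 3 1
  (.ct 4 6 1 1 1 (.lf 3 11 176) (.lf 2 12 176)))))) (.dc 0 6 0 (.ct 1 5 1 1 1 (.dc 2 3 0 (.ct 4 6
  1 1 1 (.lf 3 10 192) (.lf 2 8 192))) (.ct 1 4 1 1 1 (.dc 2 3 0 (.ct 1 6 1 1 1 (.ct 4 6 1 1 1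
  (.lf 3 8 160) (.lf 2 6 160)) (.lf 2 8 176))) (.dc 2 3 1 (.ct 4 6 1 1 1 (.lf 3 12 160) (.lf 2 11
  176)))))))) (.dc 1 14 1 (.ct 1 4 1 1 1 (.dc 2 3 0 (.ct 0 2 1 1 1 (.dc 0 6 1 (.lf 2 9 192)) (.dc
  0 6 0 (.lf 2 10 192)))) (.ct 0 2 1 1 1 (.dc 0 6 1 (.ct 1 5 1 1 1 (.dc 2 3 0 (.lf 2 9 192)) (.ct
  1 6 1 1 1 (.dc 2 3 0 (.lf 2 8 208)) (.dc 2 3 1 (.lf 2 12 176))))) (.dc 0 6 0 (.ct 1 5 1 1 1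
  (.dc 2 3 0 (.lf 2 9 192)) (.ct 1 6 1 1 1 (.dc 2 3 0 (.lf 2 9 208)) (.dc 2 3 1 (.lf 2 11
  176))))))))))

theorem dt388 : le (run cls4 4 tr388 [[2, 1, 1, 1, 1, 1, 1], [1, 1, 0, 0, 0, 0, 0], [3, 2, 2,
  0, 2, 1, 0], [3, 2, 2, 1, 2, 1, 1], [2, 1, 1, 1, 2, 1, 0], [1, 1, 1, 1, 1, 1, 0], [2, 1, 1, 0,
  2, 1, 1]] 281439543230397 [55, 151, 151, 175, 175, 211, 259]) 618128230339 = true := by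
  decide +kernel

/-- data -/
noncomputable def tr389 : Ct := (.ct 0 4 1 1 1 (.dc 0 1 1 (.ct 0 2 1 1 1 (.dc 0 6 1 (.ct 1 5 1
  1 1 (.dc 2 3 0 (.ct 1 6 1 1 1 (.ct 5 6 1 1 1 (.lf 3 11 208) (.lf 2 12 208)) (.lf 2 13 192)))
  (.dc 2 3 1 (.ct 5 6 1 1 1 (.lf 3 9 192) (.lf 2 10 192))))) (.dc 0 6 0 (.ct 1 5 1 1 1 (.dc 2 3 0
  (.ct 1 6 1 1 1 (.ct 5 6 1 1 1 (.lf 3 12 208) (.lf 2 13 208)) (.lf 2 13 192))) (.dc 2 3 1 (.ct 5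
  6 1 1 1 (.lf 3 10 192) (.lf 2 10 192))))))) (.dc 0 1 0 (.ct 0 2 1 1 1 (.ct 2 4 1 1 1 (.dc 0 6 0
  (.ct 1 5 1 1 1 (.dc 2 3 0 (.ct 1 6 1 1 1 (.ct 5 6 1 1 1 (.lf 3 6 208) (.lf 2 7 208)) (.lf 2 10
  192))) (.dc 2 3 1 (.ct 5 6 1 1 1 (.lf 3 11 192) (.lf 2 12 192))))) (.dc 0 6 1 (.ct 1 5 1 1 1
  (.dc 2 3 0 (.ct 1 6 1 1 1 (.ct 5 6 1 1 1 (.lf 3 8 208) (.lf 2 10 208)) (.lf 2 11 192))) (.dc 2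
  3 1 (.ct 5 6 1 1 1 (.lf 3 11 192) (.lf 2 12 192)))))) (.dc 0 6 0 (.ct 1 5 1 1 1 (.dc 2 3 0 (.ct
  1 6 1 1 1 (.ct 5 6 1 1 1 (.lf 3 7 208) (.lf 2 6 208)) (.lf 2 8 192))) (.dc 2 3 1 (.ct 5 6 1 1 1
  (.lf 3 12 192) (.lf 2 11 192))))))))

theorem dt389 : le (run cls4 4 tr389 [[2, 1, 1, 1, 1, 1, 1], [1, 1, 0, 0, 0, 0, 0], [3, 2, 2,
  0, 2, 1, 0], [4, 2, 2, 1, 3, 1, 1], [1, 0, 0, 0, 1, 0, 0], [2, 1, 1, 1, 2, 1, 0], [2, 1, 1, 0,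
  2, 1, 1]] 281440616972221 [55, 151, 151, 175, 175, 211, 259]) 198054775379 = true := by
  decide +kernel

end Pool.Agent.Work.MP_122e00_nt.Sharp.Cx

end
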