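import Pool.Agent.Work.MP_122e00_nt.Bd.B03

/-! Bundle of small proof modules (one section per former module). -/

section

set_option autoImplicit false

set_option maxRecDepth 100000

/-!
# The certificate: data
-/

namespace Pool.Agent.Work.MP_122e00_nt.Sharp.Cx

/-- data -/
noncomputable def tr390 : Ct := (.dc 0 1 0 (.ct 0 2 1 1 1 (.dc 0 6 1 (.ct 1 5 1 1 1 (.dc 2 3 0
  (.ct 1 6 1 1 1 (.ct 5 6 1 1 1 (.lf 3 9 208) (.lf 2 11 208)) (.lf 2 10 192))) (.dc 2 3 1 (.ct 5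
  6 1 1 1 (.lf 3 11 192) (.lf 2 12 192))))) (.dc 0 6 0 (.ct 1 5 1 1 1 (.dc 2 3 0 (.ct 1 6 1 1 1
  (.ct 5 6 1 1 1 (.lf 3 7 192) (.lf 2 6 192)) (.lf 2 8 192))) (.dc 2 3 1 (.ct 5 6 1 1 1 (.lf 3 12
  176) (.lf 2 11 192)))))))

theorem dt390 : le (run cls4 4 tr390 [[2, 1, 1, 1, 1, 1, 1], [1, 1, 0, 0, 0, 0, 0], [3, 2, 2,
  0, 2, 1, 0], [3, 2, 2, 1, 2, 1, 1], [4, 2, 2, 1, 3, 1, 1], [2, 1, 1, 1, 2, 1, 0], [2, 1, 1, 0,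
  2, 1, 1]] 281440616972221 [55, 151, 151, 175, 175, 211, 259]) 650709728903 = true := by
  decide +kernel

/-- data -/
noncomputable def tr391 : Ct := (.dc 0 1 0 (.dc 1 14 1 (.ct 1 4 1 1 1 (.dc 2 3 0 (.ct 0 2 1 1 1
  (.dc 0 6 1 (.ct 0 3 1 1 1 (.ct 2 3 1 1 1 (.lf 1 8 160) (.lf 2 8 176)) (.lf 2 9 176))) (.dc 0 6
  0 (.ct 2 3 1 1 1 (.lf 1 9 160) (.lf 2 8 176))))) (.ct 1 5 1 1 1 (.dc 2 3 0 (.ct 0 2 1 1 1 (.dc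
  0 6 1 (.ct 0 3 1 1 1 (.ct 2 3 1 1 1 (.lf 1 8 160) (.lf 2 8 176)) (.lf 2 8 176))) (.dc 0 6 0
  (.ct 2 3 1 1 1 (.lf 1 9 160) (.lf 2 8 176))))) (.dc 2 3 1 (.ct 0 2 1 1 1 (.dc 0 6 1 (.ct 0 3 1
  1 1 (.ct 2 3 1 1 1 (.lf 1 11 160) (.lf 2 11 176)) (.lf 2 11 176))) (.dc 0 6 0 (.ct 2 3 1 1 1
  (.lf 1 11 160) (.lf 2 11 176)))))))))

theorem dt391 : le (run cls4 4 tr391 [[2, 1, 1, 1, 1, 1, 1], [1, 1, 0, 0, 0, 0, 0], [3, 2, 2,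
  0, 2, 1, 0], [2, 1, 1, 1, 1, 0, 0], [2, 1, 1, 1, 2, 1, 0], [1, 1, 1, 1, 1, 1, 0], [3, 2, 2, 1,
  2, 1, 1]] 281439543230397 [55, 151, 151, 175, 175, 211, 259]) 912677778949 = true := by
  decide +kernel

/-- data -/
noncomputable def tr392 : Ct := (.dc 0 1 0 (.ct 1 5 1 1 1 (.dc 2 3 0 (.ct 0 2 1 1 1 (.dc 0 6 1
  (.ct 0 3 1 1 1 (.ct 2 3 1 1 1 (.lf 1 8 192) (.lf 2 8 192)) (.lf 2 9 192))) (.dc 0 6 0 (.ct 2 3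
  1 1 1 (.lf 1 8 176) (.lf 2 7 192))))) (.dc 2 3 1 (.ct 0 2 1 1 1 (.dc 0 6 1 (.ct 0 3 1 1 1 (.ct
  2 3 1 1 1 (.lf 1 11 192) (.lf 2 11 192)) (.lf 2 11 192))) (.dc 0 6 0 (.ct 2 3 1 1 1 (.lf 1 11
  176) (.lf 2 11 192)))))))

theorem dt392 : le (run cls4 4 tr392 [[2, 1, 1, 1, 1, 1, 1], [1, 1, 0, 0, 0, 0, 0], [3, 2, 2,
  0, 2, 1, 0], [2, 1, 1, 1, 1, 0, 0], [4, 2, 2, 1, 3, 1, 1], [2, 1, 1, 1, 2, 1, 0], [3, 2, 2, 1,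
  2, 1, 1]] 281440616972221 [55, 151, 151, 175, 175, 211, 259]) 1199867355277 = true := by
  decide +kernel

end Pool.Agent.Work.MP_122e00_nt.Sharp.Cx

end

section

set_option autoImplicit false

set_option maxRecDepth 100000

/-!
# The certificate: data
-/

namespace Pool.Agent.Work.MP_122e00_nt.Sharp.Cx

/-- data -/
noncomputable def tr393 : Ct := (.dc 2 3 0 (.ct 0 4 1 1 1 (.dc 0 1 1 (.ct 0 2 1 1 1 (.dc 0 6 1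
  (.ct 0 3 1 1 1 (.ct 2 3 1 1 1 (.lf 1 12 224) (.lf 2 12 208)) (.lf 2 12 208))) (.dc 0 6 0 (.ct 2
  3 1 1 1 (.lf 1 12 208) (.lf 2 12 208))))) (.dc 0 1 0 (.ct 0 2 1 1 1 (.ct 0 3 1 1 1 (.ct 2 4 1 1
  1 (.dc 0 6 0 (.ct 2 3 1 1 1 (.lf 1 9 208) (.lf 2 7 224))) (.dc 0 6 1 (.ct 2 3 1 1 1 (.ct 3 4 1
  1 1 (.lf 2 10 224) (.lf 1 9 224)) (.lf 2 9 192)))) (.ct 2 4 1 1 1 (.dc 0 6 0 (.lf 2 9 192))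
  (.dc 0 6 1 (.lf 2 10 192)))) (.dc 0 6 0 (.ct 2 3 1 1 1 (.lf 1 8 176) (.lf 2 7 192)))))))

theorem dt393 : le (run cls4 4 tr393 [[2, 1, 1, 1, 1, 1, 1], [3, 2, 1, 1, 2, 1, 0], [3, 2, 2,
  0, 2, 1, 0], [2, 1, 1, 1, 1, 0, 0], [1, 0, 0, 0, 1, 0, 0], [2, 1, 1, 1, 2, 1, 0], [4, 2, 2, 1,
  3, 1, 1]] 281440616972221 [55, 151, 151, 175, 175, 211, 259]) 554969217363 = true := by
  decide +kernel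

/-- data -/
noncomputable def tr394 : Ct := (.dc 2 3 1 (.ct 0 4 1 1 1 (.dc 0 1 1 (.ct 0 2 1 1 1 (.dc 0 6 1
  (.ct 0 3 1 1 1 (.ct 2 3 1 1 1 (.lf 1 10 224) (.lf 2 10 208)) (.lf 2 10 192))) (.dc 0 6 0 (.ct 2
  3 1 1 1 (.lf 1 10 192) (.lf 2 10 192))))) (.dc 0 1 0 (.ct 0 2 1 1 1 (.ct 0 3 1 1 1 (.ct 2 4 1 1
  1 (.dc 0 6 0 (.ct 2 3 1 1 1 (.lf 1 11 208) (.lf 2 12 224))) (.dc 0 6 1 (.ct 2 3 1 1 1 (.ct 3 4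
  1 1 1 (.lf 2 12 224) (.lf 1 11 224)) (.lf 2 11 192)))) (.ct 2 4 1 1 1 (.dc 0 6 0 (.lf 2 12
  192)) (.dc 0 6 1 (.lf 2 12 192)))) (.dc 0 6 0 (.ct 2 3 1 1 1 (.lf 1 11 176) (.lf 2 11 192)))))))

theorem dt394 : le (run cls4 4 tr394 [[2, 1, 1, 1, 1, 1, 1], [1, 1, 0, 0, 0, 0, 0], [3, 2, 2,
  0, 2, 1, 0], [2, 1, 1, 1, 1, 0, 0], [1, 0, 0, 0, 1, 0, 0], [3, 2, 1, 1, 2, 1, 0], [4, 2, 2, 1,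
  3, 1, 1]] 281440616972221 [55, 151, 151, 175, 175, 211, 259]) 312049658378 = true := by
  decide +kernel

end Pool.Agent.Work.MP_122e00_nt.Sharp.Cx

end

section

set_option autoImplicit false

set_option maxRecDepth 100000

/-!
# The certificate: data
-/

namespace Pool.Agent.Work.MP_122e00_nt.Sharp.Cx

/-- data -/
noncomputable def tr395 : Ct := (.ct 0 2 1 1 1 (.dc 0 6 1 (.ct 0 3 1 1 1 (.ct 2 3 1 1 1 (.dc 2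
  14 1 (.ct 1 5 1 1 1 (.dc 2 3 0 (.ct 1 6 1 1 1 (.ct 5 6 1 1 1 (.lf 3 7 176) (.lf 2 8 176)) (.lf
  2 9 192))) (.dc 2 3 1 (.ct 5 6 1 1 1 (.lf 3 11 176) (.lf 2 12 192))))) (.dc 2 14 0 (.ct 1 5 1 1
  1 (.dc 2 3 0 (.ct 1 6 1 1 1 (.ct 5 6 1 1 1 (.lf 3 8 176) (.lf 2 9 176)) (.lf 2 10 192))) (.dc 2
  3 1 (.ct 5 6 1 1 1 (.lf 3 10 176) (.lf 2 12 192)))))) (.dc 2 14 0 (.ct 1 5 1 1 1 (.dc 2 3 0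
  (.ct 1 6 1 1 1 (.ct 5 6 1 1 1 (.lf 3 8 192) (.lf 2 10 192)) (.lf 2 10 192))) (.dc 2 3 1 (.ct 5
  6 1 1 1 (.lf 3 10 192) (.lf 2 12 192))))))) (.dc 0 6 0 (.ct 2 3 1 1 1 (.dc 2 14 1 (.ct 1 5 1 1
  1 (.dc 2 3 0 (.ct 1 6 1 1 1 (.ct 5 6 1 1 1 (.lf 3 6 176) (.lf 2 7 192)) (.lf 2 9 176))) (.dc 2
  3 1 (.ct 5 6 1 1 1 (.lf 3 11 176) (.lf 2 12 192))))) (.dc 2 14 0 (.ct 1 5 1 1 1 (.dc 2 3 0 (.ct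
  1 6 1 1 1 (.ct 5 6 1 1 1 (.lf 3 7 176) (.lf 2 8 176)) (.lf 2 8 176))) (.dc 2 3 1 (.ct 5 6 1 1 1
  (.lf 3 11 176) (.lf 2 12 176))))))))

theorem dt395 : le (run cls4 4 tr395 [[2, 1, 1, 1, 1, 1, 1], [1, 1, 0, 0, 0, 0, 0], [3, 2, 2,
  0, 2, 1, 0], [2, 2, 2, 1, 1, 1, 1], [3, 2, 2, 1, 2, 1, 1], [1, 1, 1, 1, 1, 1, 0], [1, 1, 1, 0,
  1, 1, 1]] 211071872794559 [65, 125, 125, 173, 185, 185, 245]) 1025362368958 = true := by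
  decide +kernel

/-- data -/
noncomputable def tr396 : Ct := (.dc 2 14 1 (.ct 1 5 1 1 1 (.dc 2 3 0 (.ct 3 4 1 1 1 (.ct 0 2 1
  1 1 (.dc 0 6 1 (.lf 1 9 224)) (.dc 0 6 0 (.lf 1 8 192))) (.ct 0 2 1 1 1 (.dc 0 6 1 (.ct 0 3 1 1
  1 (.ct 2 3 1 1 1 (.lf 0 8 208) (.lf 1 8 240)) (.lf 1 9 256))) (.dc 0 6 0 (.ct 2 3 1 1 1 (.lf 0
  9 192) (.lf 1 7 224)))))) (.dc 2 3 1 (.ct 3 4 1 1 1 (.ct 0 2 1 1 1 (.dc 0 6 1 (.lf 1 12 224))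
  (.dc 0 6 0 (.lf 1 12 192))) (.ct 0 2 1 1 1 (.dc 0 6 1 (.ct 0 3 1 1 1 (.ct 2 3 1 1 1 (.lf 0 11
  208) (.lf 1 11 240)) (.lf 1 11 240))) (.dc 0 6 0 (.ct 2 3 1 1 1 (.lf 0 11 176) (.lf 1 11
  208))))))))

theorem dt396 : le (run cls4 4 tr396 [[2, 1, 1, 1, 1, 1, 1], [1, 1, 0, 0, 0, 0, 0], [4, 3, 3,
  1, 2, 1, 0], [1, 1, 1, 1, 0, 0, 0], [3, 2, 2, 1, 2, 1, 1], [1, 1, 1, 1, 1, 1, 0], [2, 2, 2, 1,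
  1, 1, 1]] 211071872794559 [65, 125, 125, 173, 185, 185, 245]) 1590476063846 = true := by
  decide +kernel

end Pool.Agent.Work.MP_122e00_nt.Sharp.Cx

end

section

set_option autoImplicit false

set_option maxRecDepth 100000

/-!
# The certificate: data
-/

namespace Pool.Agent.Work.MP_122e00_nt.Sharp.Cx

/-- data -/
noncomputable def tr397 : Ct := (.ct 0 3 1 1 1 (.dc 0 6 1 (.ct 1 5 1 1 1 (.dc 2 3 0 (.ct 2 6 1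
  1 1 (.dc 2 14 1 (.lf 2 9 208)) (.dc 2 14 0 (.lf 2 8 208)))) (.dc 2 3 1 (.ct 2 6 1 1 1 (.dc 2 14
  1 (.lf 2 12 208)) (.dc 2 14 0 (.lf 2 11 208)))))) (.ct 1 5 1 1 1 (.dc 2 3 0 (.ct 0 2 1 1 1 (.dc
  0 6 1 (.ct 0 6 1 1 1 (.ct 2 6 1 1 1 (.dc 2 14 1 (.lf 2 8 208)) (.dc 2 14 0 (.lf 2 9 208))) (.dc
  2 14 0 (.lf 2 9 224)))) (.dc 0 6 0 (.ct 2 6 1 1 1 (.dc 2 14 1 (.lf 2 8 208)) (.dc 2 14 0 (.lf 2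
  7 208)))))) (.dc 2 3 1 (.ct 0 2 1 1 1 (.dc 0 6 1 (.ct 0 6 1 1 1 (.ct 2 6 1 1 1 (.dc 2 14 1 (.lf
  2 12 208)) (.dc 2 14 0 (.lf 2 12 208))) (.dc 2 14 0 (.lf 2 12 224)))) (.dc 0 6 0 (.ct 2 6 1 1 1
  (.dc 2 14 1 (.lf 2 12 208)) (.dc 2 14 0 (.lf 2 11 208))))))))

theorem dt397 : le (run cls4 4 tr397 [[2, 1, 1, 1, 1, 1, 1], [1, 1, 0, 0, 0, 0, 0], [3, 2, 2,
  0, 2, 1, 0], [4, 3, 3, 1, 2, 1, 0], [3, 2, 2, 1, 2, 1, 1], [1, 1, 1, 1, 1, 1, 0], [2, 2, 2, 1,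
  1, 1, 1]] 211071872794559 [65, 125, 125, 173, 185, 185, 245]) 1324838763387 = true := by
  decide +kernel

/-- data -/
noncomputable def tr398 : Ct := (.dc 2 14 1 (.ct 1 5 1 1 1 (.dc 2 3 0 (.ct 3 6 1 1 1 (.ct 0 2 1
  1 1 (.dc 0 6 1 (.lf 1 8 208)) (.dc 0 6 0 (.lf 1 9 176))) (.ct 0 2 1 1 1 (.dc 0 6 1 (.ct 0 3 1 1
  1 (.ct 2 3 1 1 1 (.lf 0 7 192) (.lf 1 7 224)) (.lf 1 8 240))) (.dc 0 6 0 (.ct 2 3 1 1 1 (.lf 0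
  8 176) (.lf 1 9 208)))))) (.dc 2 3 1 (.ct 3 6 1 1 1 (.ct 0 2 1 1 1 (.dc 0 6 1 (.lf 1 11 208))
  (.dc 0 6 0 (.lf 1 11 176))) (.ct 0 2 1 1 1 (.dc 0 6 1 (.ct 0 3 1 1 1 (.ct 2 3 1 1 1 (.lf 0 11
  192) (.lf 1 11 224)) (.lf 1 12 240))) (.dc 0 6 0 (.ct 2 3 1 1 1 (.lf 0 10 176) (.lf 1 11
  208))))))))

theorem dt398 : le (run cls4 4 tr398 [[2, 1, 1, 1, 1, 1, 1], [1, 1, 0, 0, 0, 0, 0], [4, 3, 3,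
  1, 2, 1, 0], [1, 1, 1, 1, 0, 0, 0], [2, 1, 1, 1, 1, 0, 0], [1, 1, 1, 1, 1, 1, 0], [3, 2, 2, 1,
  2, 1, 1]] 211071872794559 [69, 153, 153, 177, 189, 213, 273]) 509610030546 = true := by
  decide +kernel

end Pool.Agent.Work.MP_122e00_nt.Sharp.Cx

end

section

set_option autoImplicit false

set_option maxRecDepth 100000

/-!
# The certificate: data
-/

namespace Pool.Agent.Work.MP_122e00_nt.Sharp.Cx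

/-- data -/
noncomputable def tr399 : Ct := (.dc 2 14 0 (.ct 0 3 1 1 1 (.dc 0 6 1 (.ct 1 5 1 1 1 (.dc 2 3 0
  (.ct 2 4 1 1 1 (.lf 1 7 208) (.lf 2 7 224))) (.dc 2 3 1 (.ct 2 4 1 1 1 (.lf 1 11 208) (.lf 2 11
  224))))) (.ct 1 5 1 1 1 (.dc 2 3 0 (.ct 0 2 1 1 1 (.dc 0 6 1 (.ct 0 4 1 1 1 (.ct 2 4 1 1 1 (.lf
  1 8 176) (.lf 2 8 192)) (.lf 2 9 208))) (.dc 0 6 0 (.ct 2 4 1 1 1 (.lf 1 9 160) (.lf 2 7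
  176))))) (.dc 2 3 1 (.ct 0 2 1 1 1 (.dc 0 6 1 (.ct 0 4 1 1 1 (.ct 2 4 1 1 1 (.lf 1 11 176) (.lf
  2 11 192)) (.lf 2 12 208))) (.dc 0 6 0 (.ct 2 4 1 1 1 (.lf 1 11 160) (.lf 2 11 176))))))))

theorem dt399 : le (run cls4 4 tr399 [[2, 1, 1, 1, 1, 1, 1], [1, 1, 0, 0, 0, 0, 0], [3, 2, 2,
  0, 2, 1, 0], [4, 3, 3, 1, 2, 1, 0], [2, 1, 1, 1, 1, 0, 0], [1, 1, 1, 1, 1, 1, 0], [3, 2, 2, 1,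
  2, 1, 1]] 211071872794559 [69, 153, 153, 177, 189, 213, 273]) 638954420840 = true := by
  decide +kernel

/-- data -/
noncomputable def tr400 : Ct := (.ct 0 2 1 1 1 (.dc 0 6 1 (.dc 1 6 1 (.ct 3 4 1 1 1 (.dc 2 14 0
  (.ct 1 5 1 1 1 (.dc 2 3 0 (.ct 1 6 1 1 1 (.ct 5 6 1 1 1 (.lf 3 8 192) (.lf 2 9 192)) (.lf 2 9
  192))) (.dc 2 3 1 (.ct 5 6 1 1 1 (.lf 3 9 192) (.lf 2 11 176))))) (.dc 2 14 1 (.ct 1 5 1 1 1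
  (.dc 2 3 0 (.ct 1 6 1 1 1 (.ct 5 6 1 1 1 (.lf 3 9 192) (.lf 2 10 192)) (.lf 2 11 192))) (.dc 2
  3 1 (.ct 5 6 1 1 1 (.lf 3 10 192) (.lf 2 12 176)))))))) (.dc 1 6 0 (.ct 0 4 1 1 1 (.dc 0 6 1
  (.ct 0 3 1 1 1 (.ct 3 4 1 1 1 (.dc 2 14 0 (.ct 1 5 1 1 1 (.dc 2 3 0 (.ct 1 6 1 1 1 (.ct 5 6 1 1
  1 (.lf 3 8 192) (.lf 2 9 192)) (.lf 2 10 192))) (.dc 2 3 1 (.ct 5 6 1 1 1 (.lf 3 10 192) (.lf 2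
  11 176))))) (.dc 2 14 1 (.ct 1 5 1 1 1 (.dc 2 3 0 (.ct 1 6 1 1 1 (.ct 5 6 1 1 1 (.lf 3 6 192)
  (.lf 2 7 192)) (.lf 2 8 192))) (.dc 2 3 1 (.ct 5 6 1 1 1 (.lf 3 11 192) (.lf 2 12 176))))))
  (.dc 2 14 0 (.ct 1 5 1 1 1 (.dc 2 3 0 (.ct 1 6 1 1 1 (.ct 5 6 1 1 1 (.lf 3 8 208) (.lf 2 9
  208)) (.lf 2 10 208))) (.dc 2 3 1 (.ct 5 6 1 1 1 (.lf 3 10 208) (.lf 2 11 208))))))) (.dc 0 6 0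
  (.ct 3 4 1 1 1 (.dc 2 14 0 (.ct 1 5 1 1 1 (.dc 2 3 0 (.ct 1 6 1 1 1 (.ct 5 6 1 1 1 (.lf 3 6
  192) (.lf 2 7 192)) (.lf 2 8 192))) (.dc 2 3 1 (.ct 5 6 1 1 1 (.lf 3 11 192) (.lf 2 12 192)))))
  (.dc 2 14 1 (.ct 1 5 1 1 1 (.dc 2 3 0 (.ct 1 6 1 1 1 (.ct 5 6 1 1 1 (.lf 3 6 192) (.lf 2 8
  192)) (.lf 2 9 192))) (.dc 2 3 1 (.ct 5 6 1 1 1 (.lf 3 11 192) (.lf 2 12 176))))))))))

theorem dt400 : le (run cls4 4 tr400 [[2, 1, 1, 1, 1, 1, 1], [1, 1, 0, 0, 0, 0, 0], [2, 2, 2,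
  0, 1, 1, 0], [2, 2, 2, 1, 1, 1, 1], [3, 2, 2, 0, 2, 1, 0], [1, 1, 1, 1, 1, 1, 0], [1, 1, 1, 0,
  1, 1, 1]] 211071868600255 [65, 125, 125, 173, 185, 185, 245]) 526085710792 = true := by
  decide +kernel

end Pool.Agent.Work.MP_122e00_nt.Sharp.Cx

end

section

set_option autoImplicit false

set_option maxRecDepth 100000

/-!
# The certificate: data
-/

namespace Pool.Agent.Work.MP_122e00_nt.Sharp.Cx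

/-- data -/
noncomputable def tr401 : Ct := (.ct 0 2 1 1 1 (.dc 0 6 1 (.dc 1 6 1 (.ct 1 5 1 1 1 (.dc 2 3 0
  (.ct 4 6 1 1 1 (.dc 2 14 1 (.lf 2 9 192)) (.dc 2 14 0 (.lf 2 8 192)))) (.dc 2 3 1 (.ct 4 6 1 1
  1 (.dc 2 14 1 (.lf 2 11 176)) (.dc 2 14 0 (.lf 2 11 176))))))) (.dc 1 6 0 (.ct 0 3 1 1 1 (.dc 0
  6 1 (.ct 1 5 1 1 1 (.dc 2 3 0 (.ct 4 6 1 1 1 (.dc 2 14 1 (.lf 2 9 224)) (.dc 2 14 0 (.lf 2 7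
  224)))) (.dc 2 3 1 (.ct 4 6 1 1 1 (.dc 2 14 1 (.lf 2 11 208)) (.dc 2 14 0 (.lf 2 12 208))))))
  (.ct 1 5 1 1 1 (.dc 2 3 0 (.ct 0 4 1 1 1 (.dc 0 6 1 (.ct 0 6 1 1 1 (.ct 4 6 1 1 1 (.dc 2 14 1
  (.lf 2 7 224)) (.dc 2 14 0 (.lf 2 9 224))) (.dc 2 14 0 (.lf 2 9 240)))) (.dc 0 6 0 (.ct 4 6 1 1
  1 (.dc 2 14 1 (.lf 2 8 224)) (.dc 2 14 0 (.lf 2 7 224)))))) (.dc 2 3 1 (.ct 0 4 1 1 1 (.dc 0 6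
  1 (.ct 0 6 1 1 1 (.ct 4 6 1 1 1 (.dc 2 14 1 (.lf 2 12 208)) (.dc 2 14 0 (.lf 2 12 208))) (.dc 2
  14 0 (.lf 2 12 240)))) (.dc 0 6 0 (.ct 4 6 1 1 1 (.dc 2 14 1 (.lf 2 12 208)) (.dc 2 14 0 (.lf 2
  11 224))))))))))

theorem dt401 : le (run cls4 4 tr401 [[2, 1, 1, 1, 1, 1, 1], [1, 1, 0, 0, 0, 0, 0], [2, 2, 2,
  0, 1, 1, 0], [4, 3, 3, 1, 2, 1, 0], [3, 2, 2, 0, 2, 1, 0], [1, 1, 1, 1, 1, 1, 0], [2, 2, 2, 1,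
  1, 1, 1]] 211071868600255 [65, 125, 125, 173, 185, 185, 245]) 703676946197 = true := by
  decide +kernel

end Pool.Agent.Work.MP_122e00_nt.Sharp.Cx

end
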