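import Pool.Agent.Work.MP_122e00_nt.Bd.B03

/-! Bundle of small proof modules (one section per former module). -/

section

set_option autoImplicit false

set_option maxRecDepth 100000

/-!
# The certificate: data
-/

namespace Pool.Agent.Work.MP_122e00_nt.Sharp.Cx

/-- data -/
noncomputable def tr402 : Ct := (.dc 2 14 1 (.ct 0 2 1 1 1 (.dc 0 6 1 (.dc 1 6 1 (.ct 0 3 1 1 1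
  (.ct 2 3 1 1 1 (.ct 1 5 1 1 1 (.dc 2 3 0 (.ct 3 4 1 1 1 (.lf 1 8 192) (.lf 0 7 160))) (.dc 2 3
  1 (.ct 3 4 1 1 1 (.lf 1 11 192) (.lf 0 10 160)))) (.ct 1 5 1 1 1 (.dc 2 3 0 (.lf 2 8 192)) (.dc
  2 3 1 (.lf 2 11 192)))) (.ct 1 5 1 1 1 (.dc 2 3 0 (.lf 2 9 192)) (.dc 2 3 1 (.lf 2 11 176))))))
  (.dc 1 6 0 (.ct 2 3 1 1 1 (.ct 1 5 1 1 1 (.dc 2 3 0 (.ct 0 4 1 1 1 (.dc 0 6 1 (.ct 0 3 1 1 1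
  (.ct 3 4 1 1 1 (.lf 1 8 224) (.lf 0 8 192)) (.lf 1 8 240))) (.dc 0 6 0 (.ct 3 4 1 1 1 (.lf 1 7
  224) (.lf 0 9 176))))) (.dc 2 3 1 (.ct 0 4 1 1 1 (.dc 0 6 1 (.ct 0 3 1 1 1 (.ct 3 4 1 1 1 (.lf
  1 11 224) (.lf 0 11 192)) (.lf 1 11 224))) (.dc 0 6 0 (.ct 3 4 1 1 1 (.lf 1 11 208) (.lf 0 11
  176)))))) (.ct 0 4 1 1 1 (.dc 0 6 1 (.ct 1 5 1 1 1 (.dc 2 3 0 (.lf 2 9 224)) (.dc 2 3 1 (.lf 2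
  12 208)))) (.dc 0 6 0 (.ct 1 5 1 1 1 (.dc 2 3 0 (.lf 2 7 192)) (.dc 2 3 1 (.lf 2 11 192)))))))))

theorem dt402 : le (run cls4 4 tr402 [[2, 1, 1, 1, 1, 1, 1], [1, 1, 0, 0, 0, 0, 0], [2, 2, 2,
  0, 1, 1, 0], [1, 1, 1, 1, 0, 0, 0], [4, 3, 3, 1, 2, 1, 0], [1, 1, 1, 1, 1, 1, 0], [2, 2, 2, 1,
  1, 1, 1]] 211071868600255 [65, 125, 125, 173, 185, 185, 245]) 883176528586 = true := by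
  decide +kernel

end Pool.Agent.Work.MP_122e00_nt.Sharp.Cx

end

section

set_option autoImplicit false

set_option maxRecDepth 100000

/-!
# The certificate: data
-/

namespace Pool.Agent.Work.MP_122e00_nt.Sharp.Cx

/-- data -/
noncomputable def tr403 : Ct := (.dc 0 1 0 (.dc 0 9 0 (.ct 4 5 1 1 1 (.dc 1 14 1 (.ct 1 4 1 1 1
  (.dc 2 3 0 (.ct 0 2 1 1 1 (.ct 2 3 1 1 1 (.dc 0 6 0 (.ct 5 6 1 1 1 (.lf 3 7 208) (.lf 2 9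
  208))) (.dc 0 6 1 (.ct 5 6 1 1 1 (.lf 3 9 208) (.lf 2 10 208)))) (.dc 0 6 0 (.ct 5 6 1 1 1 (.lf
  3 8 192) (.lf 2 7 192))))) (.ct 2 3 1 1 1 (.dc 0 6 0 (.ct 0 1 1 1 1 (.ct 1 5 1 1 1 (.dc 2 3 0
  (.ct 1 6 1 1 1 (.ct 5 6 1 1 1 (.lf 3 7 192) (.lf 2 9 192)) (.lf 2 9 192))) (.dc 2 3 1 (.ct 5 6
  1 1 1 (.lf 3 11 192) (.lf 2 12 192)))) (.dc 2 3 0 (.ct 5 6 1 1 1 (.lf 3 9 176) (.lf 2 8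
  176))))) (.ct 0 2 1 1 1 (.dc 0 6 1 (.ct 0 1 1 1 1 (.ct 1 5 1 1 1 (.dc 2 3 0 (.ct 1 6 1 1 1 (.ct
  5 6 1 1 1 (.lf 3 8 240) (.lf 2 10 240)) (.lf 2 10 240))) (.dc 2 3 1 (.ct 5 6 1 1 1 (.lf 3 10
  240) (.lf 2 11 240)))) (.dc 2 3 0 (.ct 5 6 1 1 1 (.lf 3 8 208) (.lf 2 9 208))))) (.dc 0 6 0
  (.ct 0 1 1 1 1 (.ct 1 2 1 1 1 (.dc 2 3 0 (.ct 5 6 1 1 1 (.lf 3 6 208) (.lf 2 7 208))) (.ct 1 5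
  1 1 1 (.dc 2 3 0 (.ct 1 6 1 1 1 (.ct 5 6 1 1 1 (.lf 3 6 224) (.lf 2 7 224)) (.lf 2 9 224)))
  (.dc 2 3 1 (.ct 5 6 1 1 1 (.lf 3 11 224) (.lf 2 12 224))))) (.dc 2 3 0 (.ct 5 6 1 1 1 (.lf 3 8
  176) (.lf 2 8 176))))))))) (.dc 1 14 0 (.ct 2 3 1 1 1 (.dc 0 6 0 (.ct 0 1 1 1 1 (.ct 1 5 1 1 1
  (.dc 2 3 0 (.lf 3 7 192)) (.dc 2 3 1 (.lf 3 11 160))) (.dc 2 3 0 (.lf 3 9 192)))) (.ct 1 5 1 1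
  1 (.dc 2 3 0 (.ct 0 2 1 1 1 (.dc 0 6 1 (.lf 3 8 208)) (.dc 0 6 0 (.lf 3 8 208)))) (.ct 0 2 1 1
  1 (.dc 0 6 1 (.ct 0 1 1 1 1 (.dc 2 3 1 (.lf 3 10 208)) (.dc 2 3 0 (.lf 3 8 208)))) (.dc 0 6 0
  (.ct 0 1 1 1 1 (.ct 1 2 1 1 1 (.dc 2 3 0 (.lf 3 5 208)) (.dc 2 3 1 (.lf 3 11 192))) (.dc 2 3 0
  (.lf 3 8 176)))))))))))

theorem dt403 : le (run cls4 4 tr403 [[2, 1, 1, 1, 2, 2, 1], [1, 1, 0, 0, 0, 0, 0], [3, 2, 2,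
  0, 2, 1, 0], [2, 1, 1, 1, 1, 1, 1], [2, 1, 1, 0, 2, 1, 1], [1, 1, 1, 1, 1, 1, 0], [1, 1, 1, 0,
  1, 1, 1]] 281439543229885 [51, 123, 123, 171, 171, 183, 231]) 1052755001086 = true := by
  decide +kernel

end Pool.Agent.Work.MP_122e00_nt.Sharp.Cx

end

section

set_option autoImplicit false

set_option maxRecDepth 100000

/-!
# The certificate: data
-/

namespace Pool.Agent.Work.MP_122e00_nt.Sharp.Cx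

/-- data -/
noncomputable def tr404 : Ct := (.dc 1 14 0 (.ct 1 5 1 1 1 (.dc 2 3 0 (.ct 0 2 1 1 1 (.ct 2 3 1
  1 1 (.dc 0 6 0 (.ct 4 6 1 1 1 (.lf 3 10 208) (.lf 2 8 208))) (.dc 0 6 1 (.ct 4 6 1 1 1 (.lf 3
  11 208) (.lf 2 10 208)))) (.dc 0 6 0 (.ct 4 6 1 1 1 (.lf 3 6 176) (.lf 2 7 176))))) (.ct 2 3 1
  1 1 (.dc 0 6 0 (.ct 0 1 1 1 1 (.ct 1 4 1 1 1 (.dc 2 3 0 (.ct 1 6 1 1 1 (.ct 4 6 1 1 1 (.lf 3 9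
  160) (.lf 2 7 160)) (.lf 2 9 176))) (.dc 2 3 1 (.ct 4 6 1 1 1 (.lf 3 12 160) (.lf 2 12 176))))
  (.dc 2 3 0 (.ct 4 6 1 1 1 (.lf 3 8 176) (.lf 2 7 176))))) (.ct 0 2 1 1 1 (.dc 0 6 1 (.ct 0 1 1
  1 1 (.ct 1 4 1 1 1 (.dc 2 3 0 (.ct 1 6 1 1 1 (.ct 4 6 1 1 1 (.lf 3 9 208) (.lf 2 11 208)) (.lf
  2 10 208))) (.dc 2 3 1 (.ct 4 6 1 1 1 (.lf 3 11 208) (.lf 2 11 208)))) (.dc 2 3 0 (.ct 4 6 1 1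
  1 (.lf 3 10 208) (.lf 2 11 208))))) (.dc 0 6 0 (.ct 0 1 1 1 1 (.ct 1 2 1 1 1 (.dc 2 3 0 (.ct 4
  6 1 1 1 (.lf 3 7 208) (.lf 2 7 208))) (.ct 1 4 1 1 1 (.dc 2 3 0 (.ct 1 6 1 1 1 (.ct 4 6 1 1 1
  (.lf 3 7 192) (.lf 2 6 192)) (.lf 2 8 208))) (.dc 2 3 1 (.ct 4 6 1 1 1 (.lf 3 11 192) (.lf 2 11
  208))))) (.dc 2 3 0 (.ct 4 6 1 1 1 (.lf 3 7 176) (.lf 2 6 176)))))))))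

theorem dt404 : le (run cls4 4 tr404 [[2, 1, 1, 1, 2, 2, 1], [1, 1, 0, 0, 0, 0, 0], [3, 2, 2,
  0, 2, 1, 0], [2, 1, 1, 1, 1, 1, 1], [2, 1, 1, 1, 2, 1, 0], [3, 2, 2, 1, 3, 2, 1], [2, 1, 1, 0,
  2, 1, 1]] 281439543230399 [55, 151, 151, 175, 175, 211, 259]) 649422985118 = true := by
  decide +kernel

/-- data -/
noncomputable def tr405 : Ct := (.dc 1 14 1 (.ct 1 4 1 1 1 (.dc 2 3 0 (.ct 0 2 1 1 1 (.ct 2 3 1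
  1 1 (.dc 0 6 0 (.lf 2 10 192)) (.dc 0 6 1 (.lf 2 9 192))) (.dc 0 6 0 (.lf 2 9 192)))) (.ct 1 5
  1 1 1 (.dc 2 3 0 (.ct 0 2 1 1 1 (.ct 2 3 1 1 1 (.dc 0 6 0 (.lf 2 9 192)) (.dc 0 6 1 (.lf 2 9
  192))) (.dc 0 6 0 (.lf 2 8 192)))) (.ct 2 3 1 1 1 (.dc 0 6 0 (.ct 0 1 1 1 1 (.ct 1 6 1 1 1 (.dc
  2 3 0 (.lf 2 9 208)) (.dc 2 3 1 (.lf 2 11 176))) (.dc 2 3 0 (.lf 2 8 192)))) (.ct 1 6 1 1 1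
  (.dc 2 3 0 (.ct 0 2 1 1 1 (.dc 0 6 1 (.lf 2 8 208)) (.dc 0 6 0 (.lf 2 7 208)))) (.ct 0 2 1 1 1
  (.dc 0 6 1 (.ct 0 1 1 1 1 (.dc 2 3 1 (.lf 2 11 208)) (.dc 2 3 0 (.lf 2 10 208)))) (.dc 0 6 0
  (.ct 0 1 1 1 1 (.ct 1 2 1 1 1 (.dc 2 3 0 (.lf 2 8 208)) (.dc 2 3 1 (.lf 2 11 208))) (.dc 2 3 0
  (.lf 2 7 176))))))))))

theorem dt405 : le (run cls4 4 tr405 [[2, 1, 1, 1, 2, 2, 1], [1, 1, 0, 0, 0, 0, 0], [3, 2, 2,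
  0, 2, 1, 0], [2, 1, 1, 1, 1, 1, 1], [2, 1, 1, 1, 2, 1, 0], [1, 1, 1, 1, 1, 1, 0], [3, 2, 2, 1,
  3, 2, 1]] 281439543230399 [55, 151, 151, 175, 175, 211, 259]) 684887165122 = true := by
  decide +kernel

end Pool.Agent.Work.MP_122e00_nt.Sharp.Cx

end

section

set_option autoImplicit false

set_option maxRecDepth 100000

/-!
# The certificate: data
-/

namespace Pool.Agent.Work.MP_122e00_nt.Sharp.Cx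

/-- data -/
noncomputable def tr406 : Ct := (.dc 0 6 0 (.ct 0 4 1 1 1 (.dc 0 1 1 (.ct 0 1 1 1 1 (.ct 1 5 1
  1 1 (.dc 2 3 0 (.ct 1 6 1 1 1 (.ct 5 6 1 1 1 (.lf 3 12 208) (.lf 2 13 208)) (.lf 2 13 192)))
  (.dc 2 3 1 (.ct 5 6 1 1 1 (.lf 3 10 192) (.lf 2 10 192)))) (.dc 2 3 0 (.ct 5 6 1 1 1 (.lf 3 12
  192) (.lf 2 12 192))))) (.dc 0 1 0 (.ct 0 1 1 1 1 (.ct 1 4 1 1 1 (.dc 2 3 0 (.ct 5 6 1 1 1 (.lf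
  3 10 192) (.lf 2 8 192))) (.ct 1 5 1 1 1 (.dc 2 3 0 (.ct 1 6 1 1 1 (.ct 5 6 1 1 1 (.lf 3 8 208)
  (.lf 2 8 208)) (.lf 2 8 192))) (.dc 2 3 1 (.ct 5 6 1 1 1 (.lf 3 12 192) (.lf 2 11 192))))) (.dc
  2 3 0 (.ct 5 6 1 1 1 (.lf 3 8 160) (.lf 2 7 160)))))))

theorem dt406 : le (run cls4 4 tr406 [[2, 1, 1, 1, 2, 2, 1], [1, 1, 0, 0, 0, 0, 0], [6, 3, 3,
  1, 4, 2, 1], [3, 1, 1, 1, 2, 1, 1], [1, 0, 0, 0, 1, 0, 0], [2, 1, 1, 1, 2, 1, 0], [2, 1, 1, 0,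
  2, 1, 1]] 281440616972221 [55, 151, 151, 175, 175, 211, 259]) 176328986348 = true := by
  decide +kernel

/-- data -/
noncomputable def tr407 : Ct := (.dc 2 3 0 (.ct 1 6 1 1 1 (.ct 5 6 1 1 1 (.ct 0 4 1 1 1 (.dc 0
  1 1 (.ct 0 2 1 1 1 (.dc 0 6 1 (.lf 3 11 208)) (.dc 0 6 0 (.lf 3 12 208)))) (.dc 0 1 0 (.ct 0 2
  1 1 1 (.ct 2 4 1 1 1 (.dc 0 6 0 (.lf 3 8 208)) (.dc 0 6 1 (.lf 3 9 208))) (.dc 0 6 0 (.lf 3 8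
  176))))) (.ct 0 4 1 1 1 (.dc 0 1 1 (.ct 0 2 1 1 1 (.dc 0 6 1 (.lf 2 12 208)) (.dc 0 6 0 (.lf 2
  12 208)))) (.dc 0 1 0 (.ct 0 2 1 1 1 (.ct 2 4 1 1 1 (.dc 0 6 0 (.lf 2 7 208)) (.dc 0 6 1 (.lf 2
  11 208))) (.dc 0 6 0 (.lf 2 7 176)))))) (.ct 0 4 1 1 1 (.dc 0 1 1 (.ct 0 2 1 1 1 (.dc 0 6 1
  (.lf 2 12 208)) (.dc 0 6 0 (.lf 2 12 208)))) (.dc 0 1 0 (.ct 0 2 1 1 1 (.ct 2 4 1 1 1 (.dc 0 6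
  0 (.lf 2 7 208)) (.dc 0 6 1 (.lf 2 10 208))) (.dc 0 6 0 (.lf 2 7 176)))))))

theorem dt407 : le (run cls4 4 tr407 [[2, 1, 1, 1, 2, 2, 1], [3, 2, 1, 1, 2, 1, 0], [3, 2, 2,
  0, 2, 1, 0], [6, 3, 3, 1, 4, 2, 1], [1, 0, 0, 0, 1, 0, 0], [2, 1, 1, 1, 2, 1, 0], [2, 1, 1, 0,
  2, 1, 1]] 281440616972221 [55, 151, 151, 175, 175, 211, 259]) 132792236631 = true := by
  decide +kernel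

end Pool.Agent.Work.MP_122e00_nt.Sharp.Cx

end

section

set_option autoImplicit false

set_option maxRecDepth 100000

/-!
# The certificate: data
-/

namespace Pool.Agent.Work.MP_122e00_nt.Sharp.Cx

/-- data -/
noncomputable def tr408 : Ct := (.ct 5 6 1 1 1 (.ct 0 4 1 1 1 (.dc 0 1 1 (.ct 0 2 1 1 1 (.dc 0
  6 1 (.ct 0 1 1 1 1 (.dc 2 3 1 (.lf 3 9 176)) (.dc 2 3 0 (.lf 3 11 208)))) (.dc 0 6 0 (.ct 0 1 1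
  1 1 (.ct 1 2 1 1 1 (.dc 2 3 0 (.lf 3 12 224)) (.dc 2 3 1 (.lf 3 10 192))) (.dc 2 3 0 (.lf 3 12
  224)))))) (.dc 0 1 0 (.ct 0 2 1 1 1 (.ct 0 1 1 1 1 (.ct 2 4 1 1 1 (.dc 0 6 0 (.ct 1 2 1 1 1
  (.dc 2 3 0 (.lf 3 7 208)) (.ct 1 4 1 1 1 (.dc 2 3 0 (.lf 3 7 224)) (.dc 2 3 1 (.lf 3 11
  224))))) (.dc 0 6 1 (.ct 1 4 1 1 1 (.dc 2 3 0 (.lf 3 8 208)) (.dc 2 3 1 (.lf 3 10 208))))) (.dc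
  2 3 0 (.ct 2 4 1 1 1 (.dc 0 6 0 (.lf 3 8 208)) (.dc 0 6 1 (.lf 3 9 208))))) (.dc 0 6 0 (.ct 0 1
  1 1 1 (.ct 1 2 1 1 1 (.dc 2 3 0 (.lf 3 9 208)) (.ct 1 4 1 1 1 (.dc 2 3 0 (.lf 3 9 224)) (.dc 2
  3 1 (.lf 3 11 224)))) (.dc 2 3 0 (.lf 3 8 176))))))) (.ct 0 4 1 1 1 (.dc 0 1 1 (.ct 0 2 1 1 1
  (.dc 0 6 1 (.ct 0 1 1 1 1 (.dc 2 3 1 (.lf 2 10 176)) (.dc 2 3 0 (.lf 2 12 208)))) (.dc 0 6 0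
  (.ct 0 1 1 1 1 (.ct 1 2 1 1 1 (.dc 2 3 0 (.lf 2 12 224)) (.dc 2 3 1 (.lf 2 10 192))) (.dc 2 3 0
  (.lf 2 12 224)))))) (.dc 0 1 0 (.ct 0 2 1 1 1 (.ct 0 1 1 1 1 (.ct 2 4 1 1 1 (.dc 0 6 0 (.ct 1 2
  1 1 1 (.dc 2 3 0 (.lf 2 7 208)) (.ct 1 4 1 1 1 (.dc 2 3 0 (.lf 2 7 224)) (.dc 2 3 1 (.lf 2 12
  224))))) (.dc 0 6 1 (.ct 1 4 1 1 1 (.dc 2 3 0 (.lf 2 10 208)) (.dc 2 3 1 (.lf 2 12 208)))))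
  (.dc 2 3 0 (.ct 2 4 1 1 1 (.dc 0 6 0 (.lf 2 7 192)) (.dc 0 6 1 (.lf 2 9 192))))) (.dc 0 6 0
  (.ct 0 1 1 1 1 (.ct 1 2 1 1 1 (.dc 2 3 0 (.lf 2 8 192)) (.ct 1 4 1 1 1 (.dc 2 3 0 (.lf 2 8
  224)) (.dc 2 3 1 (.lf 2 11 224)))) (.dc 2 3 0 (.lf 2 8 160))))))))

theorem dt408 : le (run cls4 4 tr408 [[2, 1, 1, 1, 2, 2, 1], [1, 1, 0, 0, 0, 0, 0], [3, 2, 2,
  0, 2, 1, 0], [6, 3, 3, 1, 4, 2, 1], [1, 0, 0, 0, 1, 0, 0], [3, 2, 1, 1, 2, 1, 0], [2, 1, 1, 0,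
  2, 1, 1]] 281440616972221 [55, 151, 151, 175, 175, 211, 259]) 105111077160 = true := by
  decide +kernel

end Pool.Agent.Work.MP_122e00_nt.Sharp.Cx

end

section

set_option autoImplicit false

set_option maxRecDepth 100000

/-!
# The certificate: data
-/

namespace Pool.Agent.Work.MP_122e00_nt.Sharp.Cx

/-- data -/
noncomputable def tr409 : Ct := (.dc 0 1 0 (.ct 2 3 1 1 1 (.dc 0 6 0 (.ct 0 1 1 1 1 (.ct 1 5 1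
  1 1 (.dc 2 3 0 (.ct 1 6 1 1 1 (.ct 5 6 1 1 1 (.lf 3 9 176) (.lf 2 7 176)) (.lf 2 9 176))) (.dc
  2 3 1 (.ct 5 6 1 1 1 (.lf 3 12 176) (.lf 2 12 176)))) (.dc 2 3 0 (.ct 5 6 1 1 1 (.lf 3 7 176)
  (.lf 2 6 176))))) (.ct 2 4 1 1 1 (.dc 0 6 0 (.ct 0 1 1 1 1 (.ct 1 5 1 1 1 (.dc 2 3 0 (.ct 1 6 1
  1 1 (.ct 5 6 1 1 1 (.lf 3 8 176) (.lf 2 7 176)) (.lf 2 8 176))) (.dc 2 3 1 (.ct 5 6 1 1 1 (.lf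
  3 11 176) (.lf 2 11 160)))) (.dc 2 3 0 (.ct 5 6 1 1 1 (.lf 3 7 176) (.lf 2 6 176))))) (.ct 0 2
  1 1 1 (.dc 0 6 1 (.ct 0 1 1 1 1 (.ct 1 5 1 1 1 (.dc 2 3 0 (.ct 1 6 1 1 1 (.ct 5 6 1 1 1 (.lf 3
  8 208) (.lf 2 10 208)) (.lf 2 11 208))) (.dc 2 3 1 (.ct 5 6 1 1 1 (.lf 3 11 208) (.lf 2 12
  192)))) (.dc 2 3 0 (.ct 5 6 1 1 1 (.lf 3 9 208) (.lf 2 10 208))))) (.dc 0 6 0 (.ct 0 1 1 1 1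
  (.ct 1 2 1 1 1 (.dc 2 3 0 (.ct 5 6 1 1 1 (.lf 3 8 208) (.lf 2 7 208))) (.ct 1 5 1 1 1 (.dc 2 3
  0 (.ct 1 6 1 1 1 (.ct 5 6 1 1 1 (.lf 3 7 208) (.lf 2 7 208)) (.lf 2 7 208))) (.dc 2 3 1 (.ct 5
  6 1 1 1 (.lf 3 11 208) (.lf 2 11 192))))) (.dc 2 3 0 (.ct 5 6 1 1 1 (.lf 3 7 176) (.lf 2 6
  176)))))))))

theorem dt409 : le (run cls4 4 tr409 [[2, 1, 1, 1, 2, 2, 1], [1, 1, 0, 0, 0, 0, 0], [3, 2, 2,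
  0, 2, 1, 0], [2, 1, 1, 1, 1, 1, 1], [3, 1, 1, 1, 2, 1, 1], [2, 1, 1, 1, 2, 1, 0], [2, 1, 1, 0,
  2, 1, 1]] 281440616972221 [55, 151, 151, 175, 175, 211, 259]) 828121428987 = true := by
  decide +kernel

/-- data -/
noncomputable def tr410 : Ct := (.dc 1 14 0 (.ct 4 6 1 1 1 (.dc 0 1 0 (.dc 0 9 0 (.ct 0 2 1 1 1
  (.dc 0 14 1 (.ct 2 3 1 1 1 (.dc 0 6 0 (.ct 1 5 1 1 1 (.dc 2 3 0 (.lf 3 8 192)) (.dc 2 3 1 (.lf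
  3 11 176)))) (.ct 2 5 1 1 1 (.dc 0 6 0 (.ct 1 2 1 1 1 (.dc 2 3 0 (.lf 3 7 224)) (.ct 1 5 1 1 1
  (.dc 2 3 0 (.lf 3 7 224)) (.dc 2 3 1 (.lf 3 10 208))))) (.dc 0 6 1 (.ct 1 5 1 1 1 (.dc 2 3 0
  (.lf 3 8 224)) (.dc 2 3 1 (.lf 3 10 224))))))) (.dc 0 6 0 (.dc 0 14 0 (.ct 1 5 1 1 1 (.dc 2 3 0
  (.lf 3 7 176)) (.dc 2 3 1 (.lf 3 10 160)))))))) (.dc 0 9 1 (.ct 0 2 1 1 1 (.dc 0 14 1 (.ct 3 4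
  1 1 1 (.ct 2 3 1 1 1 (.dc 0 6 0 (.ct 4 5 1 1 1 (.dc 0 1 0 (.ct 1 4 1 1 1 (.dc 2 3 0 (.lf 3 7
  176)) (.ct 1 5 1 1 1 (.dc 2 3 0 (.lf 3 7 176)) (.dc 2 3 1 (.lf 3 11 176))))) (.dc 0 1 1 (.ct 1
  5 1 1 1 (.dc 2 3 0 (.lf 3 12 192)) (.dc 2 3 1 (.lf 3 10 176)))))) (.ct 4 5 1 1 1 (.dc 0 1 0
  (.ct 2 4 1 1 1 (.dc 0 6 0 (.ct 1 2 1 1 1 (.dc 2 3 0 (.lf 3 7 208)) (.ct 1 4 1 1 1 (.dc 2 3 0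
  (.lf 3 7 176)) (.ct 1 5 1 1 1 (.dc 2 3 0 (.lf 3 7 176)) (.dc 2 3 1 (.lf 3 11 176)))))) (.ct 1 4
  1 1 1 (.dc 2 3 0 (.ct 2 5 1 1 1 (.dc 0 6 0 (.lf 3 6 208)) (.dc 0 6 1 (.lf 3 8 208)))) (.ct 2 5
  1 1 1 (.dc 0 6 0 (.ct 1 2 1 1 1 (.dc 2 3 0 (.lf 3 6 208)) (.ct 1 5 1 1 1 (.dc 2 3 0 (.lf 3 7
  208)) (.dc 2 3 1 (.lf 3 11 208))))) (.dc 0 6 1 (.ct 1 5 1 1 1 (.dc 2 3 0 (.lf 3 8 208)) (.dc 2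
  3 1 (.lf 3 10 208)))))))) (.dc 0 1 1 (.ct 2 5 1 1 1 (.dc 0 6 0 (.ct 1 2 1 1 1 (.dc 2 3 0 (.lf 3
  12 208)) (.ct 1 5 1 1 1 (.dc 2 3 0 (.lf 3 12 192)) (.dc 2 3 1 (.lf 3 9 192))))) (.dc 0 6 1 (.ct
  1 5 1 1 1 (.dc 2 3 0 (.lf 3 11 208)) (.dc 2 3 1 (.lf 3 9 192)))))))) (.dc 0 1 0 (.ct 2 3 1 1 1
  (.dc 0 6 0 (.ct 1 5 1 1 1 (.dc 2 3 0 (.lf 3 7 192)) (.dc 2 3 1 (.lf 3 12 192)))) (.ct 2 4 1 1 1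
  (.dc 0 6 0 (.ct 1 5 1 1 1 (.dc 2 3 0 (.lf 3 7 192)) (.dc 2 3 1 (.lf 3 11 192)))) (.ct 2 5 1 1 1
  (.dc 0 6 0 (.ct 1 2 1 1 1 (.dc 2 3 0 (.lf 3 6 224)) (.ct 1 5 1 1 1 (.dc 2 3 0 (.lf 3 7 224))
  (.dc 2 3 1 (.lf 3 11 224))))) (.dc 0 6 1 (.ct 1 5 1 1 1 (.dc 2 3 0 (.lf 3 8 224)) (.dc 2 3 1
  (.lf 3 10 224)))))))))) (.dc 0 6 0 (.dc 0 14 0 (.ct 3 4 1 1 1 (.ct 4 5 1 1 1 (.dc 0 1 0 (.ct 1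
  4 1 1 1 (.dc 2 3 0 (.lf 3 5 176)) (.ct 1 5 1 1 1 (.dc 2 3 0 (.lf 3 5 176)) (.dc 2 3 1 (.lf 3 10
  176))))) (.dc 0 1 1 (.ct 1 5 1 1 1 (.dc 2 3 0 (.lf 3 10 192)) (.dc 2 3 1 (.lf 3 8 176))))) (.dc
  0 1 0 (.ct 1 5 1 1 1 (.dc 2 3 0 (.lf 3 6 176)) (.dc 2 3 1 (.lf 3 10 176)))))))))))

theorem dt410 : le (run cls4 4 tr410 [[1, 0, 0, 0, 1, 1, 1], [1, 1, 0, 0, 0, 0, 0], [3, 2, 2,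
  0, 2, 1, 0], [2, 1, 1, 1, 1, 1, 1], [1, 0, 0, 0, 1, 0, 0], [2, 1, 1, 1, 2, 2, 1], [1, 1, 1, 0,
  1, 1, 1]] 281439543213501 [37, 121, 121, 169, 169, 169, 217]) 264351320218 = true := by
  decide +kernel

end Pool.Agent.Work.MP_122e00_nt.Sharp.Cx

end
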