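import Pool.Agent.Work.MP_122e00_nt.Bd.B03

/-! Bundle of small proof modules (one section per former module). -/

section

set_option autoImplicit false

set_option maxRecDepth 100000

/-!
# The certificate: data
-/

namespace Pool.Agent.Work.MP_122e00_nt.Sharp.Cx

/-- data -/
noncomputable def tr411 : Ct := (.dc 0 14 1 (.dc 1 14 1 (.ct 2 3 1 1 1 (.dc 1 6 0 (.ct 3 4 1 1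
  1 (.dc 0 6 1 (.ct 0 5 1 1 1 (.ct 0 1 1 1 1 (.ct 1 5 1 1 1 (.dc 2 3 0 (.ct 1 6 1 1 1 (.ct 5 6 1
  1 1 (.lf 3 8 208) (.lf 2 9 208)) (.lf 2 10 208))) (.dc 2 3 1 (.ct 5 6 1 1 1 (.lf 3 10 208) (.lf
  2 11 208)))) (.dc 2 3 0 (.ct 5 6 1 1 1 (.lf 3 8 176) (.lf 2 9 176)))) (.ct 1 5 1 1 1 (.dc 2 3 0
  (.lf 3 7 176)) (.dc 2 3 1 (.lf 3 10 176))))) (.dc 0 6 0 (.ct 0 5 1 1 1 (.ct 0 1 1 1 1 (.ct 1 5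
  1 1 1 (.dc 2 3 0 (.ct 1 6 1 1 1 (.ct 5 6 1 1 1 (.lf 3 6 208) (.lf 2 7 208)) (.lf 2 8 208)))
  (.dc 2 3 1 (.ct 5 6 1 1 1 (.lf 3 11 208) (.lf 2 12 208)))) (.dc 2 3 0 (.ct 5 6 1 1 1 (.lf 3 6
  176) (.lf 2 7 176)))) (.ct 1 5 1 1 1 (.dc 2 3 0 (.lf 3 5 176)) (.dc 2 3 1 (.lf 3 11 176)))))))
  (.dc 0 6 1 (.dc 1 6 1 (.ct 0 5 1 1 1 (.ct 0 1 1 1 1 (.ct 1 5 1 1 1 (.dc 2 3 0 (.ct 1 6 1 1 1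
  (.ct 5 6 1 1 1 (.lf 3 8 192) (.lf 2 9 192)) (.lf 2 10 192))) (.dc 2 3 1 (.ct 5 6 1 1 1 (.lf 3 9
  192) (.lf 2 11 176)))) (.dc 2 3 0 (.ct 5 6 1 1 1 (.lf 3 8 176) (.lf 2 9 176)))) (.ct 1 5 1 1 1
  (.dc 2 3 0 (.lf 3 7 176)) (.dc 2 3 1 (.lf 3 9 176)))))))))

theorem dt411 : le (run cls4 4 tr411 [[3, 2, 2, 0, 2, 2, 1], [1, 1, 0, 0, 0, 0, 0], [2, 2, 2,
  0, 1, 1, 0], [2, 1, 1, 1, 1, 1, 1], [3, 2, 2, 0, 2, 1, 0], [1, 1, 1, 1, 1, 1, 0], [1, 1, 1, 0,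
  1, 1, 1]] 281439539019711 [37, 121, 121, 169, 169, 169, 217]) 480585547066 = true := by
  decide +kernel

/-- data -/
noncomputable def tr412 : Ct := (.dc 0 14 1 (.dc 1 14 1 (.ct 3 4 1 1 1 (.ct 0 4 1 1 1 (.dc 0 6
  1 (.ct 0 1 1 1 1 (.ct 2 5 1 1 1 (.ct 1 2 1 1 1 (.dc 2 3 0 (.ct 5 6 1 1 1 (.lf 3 8 192) (.lf 2 9
  192))) (.ct 1 5 1 1 1 (.dc 2 3 0 (.ct 1 6 1 1 1 (.ct 5 6 1 1 1 (.lf 3 8 224) (.lf 2 9 224))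
  (.lf 2 10 224))) (.dc 2 3 1 (.ct 5 6 1 1 1 (.lf 3 10 224) (.lf 2 11 224))))) (.ct 1 5 1 1 1
  (.dc 2 3 0 (.lf 3 7 192)) (.dc 2 3 1 (.lf 3 10 192)))) (.dc 2 3 0 (.ct 2 5 1 1 1 (.ct 5 6 1 1 1
  (.lf 3 8 192) (.lf 2 10 192)) (.lf 3 8 192))))) (.dc 0 6 0 (.ct 0 1 1 1 1 (.ct 1 4 1 1 1 (.dc 2
  3 0 (.ct 2 5 1 1 1 (.ct 5 6 1 1 1 (.lf 3 6 192) (.lf 2 7 192)) (.lf 3 5 192))) (.ct 2 5 1 1 1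
  (.ct 1 2 1 1 1 (.dc 2 3 0 (.ct 5 6 1 1 1 (.lf 3 6 192) (.lf 2 7 192))) (.ct 1 5 1 1 1 (.dc 2 3
  0 (.ct 1 6 1 1 1 (.ct 5 6 1 1 1 (.lf 3 6 224) (.lf 2 7 224)) (.lf 2 9 224))) (.dc 2 3 1 (.ct 5
  6 1 1 1 (.lf 3 11 224) (.lf 2 12 224))))) (.ct 1 5 1 1 1 (.dc 2 3 0 (.lf 3 5 192)) (.dc 2 3 1
  (.lf 3 10 192))))) (.dc 2 3 0 (.ct 2 5 1 1 1 (.ct 5 6 1 1 1 (.lf 3 8 160) (.lf 2 8 160)) (.lf 3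
  7 160)))))) (.dc 0 6 0 (.ct 0 1 1 1 1 (.ct 2 5 1 1 1 (.ct 1 2 1 1 1 (.dc 2 3 0 (.ct 5 6 1 1 1
  (.lf 3 7 176) (.lf 2 9 176))) (.ct 1 5 1 1 1 (.dc 2 3 0 (.ct 1 6 1 1 1 (.ct 5 6 1 1 1 (.lf 3 7
  192) (.lf 2 9 192)) (.lf 2 9 192))) (.dc 2 3 1 (.ct 5 6 1 1 1 (.lf 3 11 192) (.lf 2 12 192)))))
  (.ct 1 5 1 1 1 (.dc 2 3 0 (.lf 3 6 176)) (.dc 2 3 1 (.lf 3 11 176)))) (.dc 2 3 0 (.ct 2 5 1 1 1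
  (.ct 5 6 1 1 1 (.lf 3 9 176) (.lf 2 8 176)) (.lf 3 8 176))))))))

theorem dt412 : le (run cls4 4 tr412 [[2, 1, 1, 1, 2, 2, 1], [1, 1, 0, 0, 0, 0, 0], [3, 2, 2,
  0, 2, 2, 1], [2, 1, 1, 1, 1, 1, 1], [3, 2, 2, 0, 2, 1, 0], [1, 1, 1, 1, 1, 1, 0], [1, 1, 1, 0,
  1, 1, 1]] 281439543214015 [37, 121, 121, 169, 169, 169, 217]) 995229711058 = true := by
  decide +kernel

/-- data -/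
noncomputable def tr413 : Ct := (.dc 1 14 0 (.ct 0 4 1 1 1 (.dc 0 14 1 (.ct 3 4 1 1 1 (.ct 4 5
  1 1 1 (.dc 0 6 0 (.ct 1 4 1 1 1 (.dc 2 3 0 (.lf 3 6 224)) (.ct 1 5 1 1 1 (.dc 2 3 0 (.lf 3 7
  224)) (.dc 2 3 1 (.lf 3 10 192))))) (.dc 0 6 1 (.ct 1 5 1 1 1 (.dc 2 3 0 (.lf 3 7 224)) (.dc 2
  3 1 (.lf 3 10 224))))) (.dc 0 6 0 (.ct 1 5 1 1 1 (.dc 2 3 0 (.lf 3 8 192)) (.dc 2 3 1 (.lf 3 11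
  176)))))) (.dc 0 6 0 (.dc 0 14 0 (.ct 1 5 1 1 1 (.dc 2 3 0 (.lf 3 7 176)) (.dc 2 3 1 (.lf 3 10
  160)))))))

theorem dt413 : le (run cls4 4 tr413 [[1, 0, 0, 0, 1, 1, 1], [1, 1, 0, 0, 0, 0, 0], [3, 2, 2,
  0, 2, 2, 1], [2, 1, 1, 1, 1, 1, 1], [3, 2, 2, 0, 2, 1, 0], [2, 1, 1, 1, 2, 2, 1], [1, 1, 1, 0,
  1, 1, 1]] 281439543214015 [37, 121, 121, 169, 169, 169, 217]) 630917715130 = true := by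
  decide +kernel

end Pool.Agent.Work.MP_122e00_nt.Sharp.Cx

end

section

set_option autoImplicit false

set_option maxRecDepth 100000

/-!
# The certificate: data
-/

namespace Pool.Agent.Work.MP_122e00_nt.Sharp.Cx

/-- data -/
noncomputable def tr414 : Ct := (.ct 0 5 1 1 1 (.dc 0 6 1 (.dc 1 6 1 (.ct 3 4 1 1 1 (.dc 2 14 0
  (.lf 3 8 176)) (.dc 2 14 1 (.lf 3 9 176))))) (.dc 1 6 0 (.ct 0 2 1 1 1 (.dc 0 6 1 (.ct 3 4 1 1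
  1 (.dc 2 14 0 (.lf 3 8 176)) (.dc 2 14 1 (.lf 3 9 176)))) (.ct 0 4 1 1 1 (.dc 0 6 1 (.ct 0 3 1
  1 1 (.ct 3 4 1 1 1 (.dc 2 14 0 (.lf 3 9 192)) (.dc 2 14 1 (.lf 3 10 192))) (.dc 2 14 0 (.lf 3
  10 208)))) (.dc 0 6 0 (.ct 3 4 1 1 1 (.dc 2 14 0 (.lf 3 10 192)) (.dc 2 14 1 (.lf 3 11
  192))))))))

theorem dt414 : le (run cls4 4 tr414 [[2, 1, 1, 1, 1, 1, 1], [1, 1, 0, 0, 0, 0, 0], [3, 2, 2,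
  0, 1, 0, 0], [2, 2, 2, 1, 1, 1, 1], [3, 2, 2, 0, 2, 1, 0], [2, 2, 2, 0, 1, 1, 0], [1, 1, 1, 0,
  1, 1, 1]] 211106228338623 [73, 157, 157, 229, 241, 241, 253]) 89376030949 = true := by
  decide +kernel

/-- data -/
noncomputable def tr415 : Ct := (.ct 0 5 1 1 1 (.dc 0 6 1 (.dc 1 6 1 (.ct 4 6 1 1 1 (.dc 2 14 1
  (.lf 2 10 176)) (.dc 2 14 0 (.lf 2 10 176))))) (.dc 1 6 0 (.ct 0 2 1 1 1 (.dc 0 6 1 (.ct 4 6 1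
  1 1 (.dc 2 14 1 (.lf 2 10 176)) (.dc 2 14 0 (.lf 2 10 176)))) (.ct 0 3 1 1 1 (.dc 0 6 1 (.ct 4
  6 1 1 1 (.dc 2 14 1 (.lf 2 11 208)) (.dc 2 14 0 (.lf 2 11 208)))) (.ct 0 4 1 1 1 (.dc 0 6 1
  (.ct 0 6 1 1 1 (.ct 4 6 1 1 1 (.dc 2 14 1 (.lf 2 12 208)) (.dc 2 14 0 (.lf 2 12 208))) (.dc 2
  14 0 (.lf 2 12 240)))) (.dc 0 6 0 (.ct 4 6 1 1 1 (.dc 2 14 1 (.lf 2 11 208)) (.dc 2 14 0 (.lf 2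
  11 224)))))))))

theorem dt415 : le (run cls4 4 tr415 [[2, 1, 1, 1, 1, 1, 1], [1, 1, 0, 0, 0, 0, 0], [3, 2, 2,
  0, 1, 0, 0], [4, 3, 3, 1, 2, 1, 0], [3, 2, 2, 0, 2, 1, 0], [2, 2, 2, 0, 1, 1, 0], [2, 2, 2, 1,
  1, 1, 1]] 211106228338623 [73, 157, 157, 229, 241, 241, 253]) 119762159495 = true := by
  decide +kernel

/-- data -/
noncomputable def tr416 : Ct := (.dc 2 14 1 (.ct 0 5 1 1 1 (.dc 0 6 1 (.dc 1 6 1 (.ct 0 3 1 1 1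
  (.ct 3 5 1 1 1 (.lf 2 9 192) (.ct 2 3 1 1 1 (.ct 3 4 1 1 1 (.lf 1 10 192) (.lf 0 10 160)) (.lf
  1 9 176))) (.lf 2 10 176)))) (.dc 1 6 0 (.ct 3 5 1 1 1 (.ct 0 2 1 1 1 (.dc 0 6 1 (.lf 2 10
  176)) (.ct 0 4 1 1 1 (.dc 0 6 1 (.lf 2 11 208)) (.dc 0 6 0 (.lf 2 11 192)))) (.ct 0 2 1 1 1
  (.dc 0 6 1 (.ct 0 3 1 1 1 (.ct 2 3 1 1 1 (.ct 3 4 1 1 1 (.lf 1 10 192) (.lf 0 10 160)) (.lf 1 9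
  176)) (.lf 1 10 176))) (.ct 2 3 1 1 1 (.ct 0 4 1 1 1 (.dc 0 6 1 (.ct 0 3 1 1 1 (.ct 3 4 1 1 1
  (.lf 1 11 224) (.lf 0 11 192)) (.lf 1 11 224))) (.dc 0 6 0 (.ct 3 4 1 1 1 (.lf 1 11 208) (.lf 0
  11 176)))) (.ct 0 4 1 1 1 (.dc 0 6 1 (.lf 1 11 208)) (.dc 0 6 0 (.lf 1 11 176)))))))))

theorem dt416 : le (run cls4 4 tr416 [[2, 1, 1, 1, 1, 1, 1], [1, 1, 0, 0, 0, 0, 0], [3, 2, 2,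
  0, 1, 0, 0], [1, 1, 1, 1, 0, 0, 0], [4, 3, 3, 1, 2, 1, 0], [2, 2, 2, 0, 1, 1, 0], [2, 2, 2, 1,
  1, 1, 1]] 211106228338623 [73, 157, 157, 229, 241, 241, 253]) 160193071554 = true := by
  decide +kernel

/-- data -/
noncomputable def tr417 : Ct := (.ct 4 6 1 1 1 (.dc 0 1 0 (.dc 0 9 0 (.ct 0 2 1 1 1 (.dc 0 6 1
  (.lf 3 9 160)) (.ct 0 5 1 1 1 (.dc 0 6 1 (.lf 3 10 176)) (.dc 0 6 0 (.lf 3 11 160)))))) (.dc 0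
  9 1 (.ct 3 4 1 1 1 (.ct 0 2 1 1 1 (.dc 0 6 1 (.ct 0 4 1 1 1 (.dc 0 1 1 (.lf 3 8 192)) (.dc 0 1
  0 (.lf 3 9 208)))) (.ct 2 4 1 1 1 (.ct 0 4 1 1 1 (.dc 0 1 1 (.ct 0 5 1 1 1 (.dc 0 6 1 (.lf 3 9
  192)) (.dc 0 6 0 (.lf 3 9 192)))) (.dc 0 1 0 (.ct 0 5 1 1 1 (.ct 4 5 1 1 1 (.dc 0 6 1 (.lf 3 10
  192)) (.dc 0 6 0 (.lf 3 11 192))) (.dc 0 6 0 (.lf 3 11 192))))) (.dc 0 1 0 (.ct 0 5 1 1 1 (.dc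
  0 6 1 (.lf 3 10 208)) (.dc 0 6 0 (.lf 3 11 192)))))) (.dc 0 1 0 (.ct 0 2 1 1 1 (.dc 0 6 1 (.lf
  3 9 192)) (.ct 0 5 1 1 1 (.dc 0 6 1 (.lf 3 11 208)) (.dc 0 6 0 (.lf 3 11 192))))))))

theorem dt417 : le (run cls4 4 tr417 [[2, 1, 1, 1, 1, 1, 1], [1, 1, 0, 0, 0, 0, 0], [3, 2, 2,
  0, 1, 0, 0], [3, 2, 2, 1, 2, 1, 1], [1, 0, 0, 0, 1, 0, 0], [3, 2, 2, 0, 2, 1, 0], [1, 1, 1, 0,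
  1, 1, 1]] 281474976710077 [59, 155, 155, 227, 227, 239, 239]) 132924144909 = true := by
  decide +kernel

end Pool.Agent.Work.MP_122e00_nt.Sharp.Cx

end

section

set_option autoImplicit false

set_option maxRecDepth 100000

/-!
# The certificate: data
-/

namespace Pool.Agent.Work.MP_122e00_nt.Sharp.Cx

/-- data -/
noncomputable def tr418 : Ct := (.dc 0 1 0 (.ct 0 2 1 1 1 (.dc 0 6 1 (.ct 3 5 1 1 1 (.lf 2 10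
  192) (.lf 1 10 176))) (.ct 0 5 1 1 1 (.dc 0 6 1 (.ct 0 3 1 1 1 (.ct 3 5 1 1 1 (.lf 2 11 192)
  (.lf 1 11 176)) (.lf 2 11 208))) (.dc 0 6 0 (.ct 3 5 1 1 1 (.lf 2 11 192) (.lf 1 11 176))))))

theorem dt418 : le (run cls4 4 tr418 [[2, 1, 1, 1, 1, 1, 1], [1, 1, 0, 0, 0, 0, 0], [3, 2, 2,
  0, 1, 0, 0], [2, 1, 1, 1, 1, 0, 0], [4, 2, 2, 1, 3, 1, 1], [3, 2, 2, 0, 2, 1, 0], [3, 2, 2, 1,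
  2, 1, 1]] 281474976710589 [63, 183, 183, 231, 231, 267, 267]) 172016168478 = true := by
  decide +kernel

/-- data -/
noncomputable def tr419 : Ct := (.dc 0 6 1 (.ct 0 4 1 1 1 (.dc 0 1 1 (.ct 3 5 1 1 1 (.lf 2 8
  208) (.lf 1 8 192))) (.dc 0 1 0 (.ct 3 5 1 1 1 (.lf 2 10 208) (.lf 1 10 192)))))

theorem dt419 : le (run cls4 4 tr419 [[5, 3, 3, 1, 2, 1, 1], [1, 1, 0, 0, 0, 0, 0], [3, 2, 2,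
  0, 1, 0, 0], [2, 1, 1, 1, 1, 0, 0], [1, 0, 0, 0, 1, 0, 0], [3, 2, 2, 0, 2, 1, 0], [4, 2, 2, 1,
  3, 1, 1]] 281474976710589 [63, 183, 183, 231, 231, 267, 267]) 127053016346 = true := by
  decide +kernel

/-- data -/
noncomputable def tr420 : Ct := (.ct 2 4 1 1 1 (.ct 0 4 1 1 1 (.dc 0 1 1 (.ct 0 5 1 1 1 (.dc 0
  6 1 (.ct 0 3 1 1 1 (.ct 3 5 1 1 1 (.lf 2 10 240) (.lf 1 10 224)) (.lf 2 10 224))) (.dc 0 6 0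
  (.ct 3 5 1 1 1 (.lf 2 10 224) (.lf 1 10 208))))) (.dc 0 1 0 (.ct 0 5 1 1 1 (.ct 0 3 1 1 1 (.ct
  4 5 1 1 1 (.dc 0 6 1 (.ct 3 4 1 1 1 (.lf 2 12 240) (.ct 3 5 1 1 1 (.lf 2 11 240) (.lf 1 11
  224)))) (.dc 0 6 0 (.ct 3 5 1 1 1 (.lf 2 12 240) (.lf 1 11 224)))) (.ct 4 5 1 1 1 (.dc 0 6 1
  (.lf 2 12 192)) (.dc 0 6 0 (.lf 2 12 192)))) (.dc 0 6 0 (.ct 3 5 1 1 1 (.lf 2 11 192) (.lf 1 11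
  192)))))) (.dc 0 1 0 (.ct 0 5 1 1 1 (.dc 0 6 1 (.ct 0 3 1 1 1 (.ct 3 5 1 1 1 (.lf 2 11 208)
  (.lf 1 11 192)) (.lf 2 12 208))) (.dc 0 6 0 (.ct 3 5 1 1 1 (.lf 2 11 192) (.lf 1 10 192))))))

theorem dt420 : le (run cls4 4 tr420 [[2, 1, 1, 1, 1, 1, 1], [1, 1, 0, 0, 0, 0, 0], [5, 3, 3,
  1, 2, 1, 1], [2, 1, 1, 1, 1, 0, 0], [1, 0, 0, 0, 1, 0, 0], [3, 2, 2, 0, 2, 1, 0], [4, 2, 2, 1,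
  3, 1, 1]] 281474976710589 [63, 183, 183, 231, 231, 267, 267]) 189085550536 = true := by
  decide +kernel

/-- data -/
noncomputable def tr421 : Ct := (.ct 0 2 1 1 1 (.dc 0 6 1 (.ct 3 5 1 1 1 (.dc 2 14 0 (.lf 3 8
  176)) (.dc 2 14 1 (.lf 3 9 176)))) (.ct 0 5 1 1 1 (.dc 0 6 1 (.ct 0 3 1 1 1 (.ct 3 5 1 1 1 (.dc
  2 14 0 (.lf 3 10 192)) (.dc 2 14 1 (.lf 3 10 192))) (.dc 2 14 0 (.lf 3 10 208)))) (.dc 0 6 0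
  (.ct 3 5 1 1 1 (.dc 2 14 0 (.lf 3 10 192)) (.dc 2 14 1 (.lf 3 11 192))))))

theorem dt421 : le (run cls4 4 tr421 [[2, 1, 1, 1, 1, 1, 1], [1, 1, 0, 0, 0, 0, 0], [3, 2, 2,
  0, 1, 0, 0], [2, 2, 2, 1, 1, 1, 1], [3, 2, 2, 1, 2, 1, 1], [3, 2, 2, 0, 2, 1, 0], [1, 1, 1, 0,
  1, 1, 1]] 211106232532927 [73, 157, 157, 229, 241, 241, 253]) 125561868645 = true := by
  decide +kernel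

end Pool.Agent.Work.MP_122e00_nt.Sharp.Cx

end

section

set_option autoImplicit false

set_option maxRecDepth 100000

/-!
# The certificate: data
-/

namespace Pool.Agent.Work.MP_122e00_nt.Sharp.Cx

/-- data -/
noncomputable def tr422 : Ct := (.ct 0 2 1 1 1 (.dc 0 6 1 (.ct 5 6 1 1 1 (.dc 2 14 1 (.lf 2 10
  192)) (.dc 2 14 0 (.lf 2 10 192)))) (.ct 0 3 1 1 1 (.dc 0 6 1 (.ct 5 6 1 1 1 (.dc 2 14 1 (.lf 2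
  11 224)) (.dc 2 14 0 (.lf 2 11 224)))) (.ct 0 5 1 1 1 (.dc 0 6 1 (.ct 0 6 1 1 1 (.ct 5 6 1 1 1
  (.dc 2 14 1 (.lf 2 12 224)) (.dc 2 14 0 (.lf 2 11 224))) (.dc 2 14 0 (.lf 2 12 240)))) (.dc 0 6
  0 (.ct 5 6 1 1 1 (.dc 2 14 1 (.lf 2 12 224)) (.dc 2 14 0 (.lf 2 11 224)))))))

theorem dt422 : le (run cls4 4 tr422 [[2, 1, 1, 1, 1, 1, 1], [1, 1, 0, 0, 0, 0, 0], [3, 2, 2,
  0, 1, 0, 0], [4, 3, 3, 1, 2, 1, 0], [3, 2, 2, 1, 2, 1, 1], [3, 2, 2, 0, 2, 1, 0], [2, 2, 2, 1,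
  1, 1, 1]] 211106232532927 [73, 157, 157, 229, 241, 241, 253]) 188037905081 = true := by
  decide +kernel

/-- data -/
noncomputable def tr423 : Ct := (.dc 2 14 1 (.ct 3 4 1 1 1 (.ct 0 2 1 1 1 (.dc 0 6 1 (.lf 1 10
  192)) (.ct 0 5 1 1 1 (.dc 0 6 1 (.lf 1 11 224)) (.dc 0 6 0 (.lf 1 11 192)))) (.ct 0 2 1 1 1
  (.dc 0 6 1 (.ct 0 3 1 1 1 (.ct 2 3 1 1 1 (.ct 3 5 1 1 1 (.lf 1 10 208) (.lf 0 10 176)) (.lf 1 9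
  192)) (.lf 1 10 176))) (.ct 2 3 1 1 1 (.ct 0 5 1 1 1 (.dc 0 6 1 (.ct 0 3 1 1 1 (.ct 3 5 1 1 1
  (.lf 1 11 240) (.lf 0 11 208)) (.lf 1 11 240))) (.dc 0 6 0 (.ct 3 5 1 1 1 (.lf 1 11 208) (.lf 0
  11 176)))) (.ct 0 5 1 1 1 (.dc 0 6 1 (.lf 1 11 208)) (.dc 0 6 0 (.lf 1 11 176)))))))

theorem dt423 : le (run cls4 4 tr423 [[2, 1, 1, 1, 1, 1, 1], [1, 1, 0, 0, 0, 0, 0], [3, 2, 2,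
  0, 1, 0, 0], [1, 1, 1, 1, 0, 0, 0], [3, 2, 2, 1, 2, 1, 1], [4, 3, 3, 1, 2, 1, 0], [2, 2, 2, 1,
  1, 1, 1]] 211106232532927 [73, 157, 157, 229, 241, 241, 253]) 213830215569 = true := by
  decide +kernel

end Pool.Agent.Work.MP_122e00_nt.Sharp.Cx

end

section

set_option autoImplicit false

set_option maxRecDepth 100000

/-!
# The certificate: data
-/

namespace Pool.Agent.Work.MP_122e00_nt.Sharp.Cx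

/-- data -/
noncomputable def tr424 : Ct := (.dc 0 9 1 (.ct 3 5 1 1 1 (.dc 2 14 0 (.ct 0 2 1 1 1 (.dc 0 6 1
  (.ct 4 5 1 1 1 (.lf 2 9 192) (.lf 1 9 176))) (.ct 0 3 1 1 1 (.dc 0 6 1 (.ct 4 5 1 1 1 (.lf 2 11
  224) (.lf 1 10 208))) (.ct 0 5 1 1 1 (.dc 0 6 1 (.ct 0 4 1 1 1 (.ct 4 5 1 1 1 (.lf 2 11 208)
  (.lf 1 11 176)) (.lf 2 11 208))) (.dc 0 6 0 (.ct 4 5 1 1 1 (.lf 2 11 192) (.lf 1 11 176)))))))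
  (.dc 2 14 1 (.ct 3 6 1 1 1 (.ct 0 2 1 1 1 (.dc 0 6 1 (.lf 1 10 176)) (.ct 0 5 1 1 1 (.dc 0 6 1
  (.lf 1 11 208)) (.dc 0 6 0 (.lf 1 11 176)))) (.ct 0 2 1 1 1 (.dc 0 6 1 (.ct 0 3 1 1 1 (.ct 2 3
  1 1 1 (.ct 3 5 1 1 1 (.lf 1 10 208) (.lf 0 10 176)) (.lf 1 9 192)) (.lf 1 10 192))) (.ct 2 3 1
  1 1 (.ct 0 5 1 1 1 (.dc 0 6 1 (.ct 0 3 1 1 1 (.ct 3 5 1 1 1 (.lf 1 11 240) (.lf 0 11 208)) (.lf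
  1 12 256))) (.dc 0 6 0 (.ct 3 5 1 1 1 (.lf 1 10 224) (.lf 0 10 192)))) (.ct 0 5 1 1 1 (.dc 0 6
  1 (.lf 1 11 224)) (.dc 0 6 0 (.lf 1 10 192)))))))))

theorem dt424 : le (run cls4 4 tr424 [[2, 1, 1, 1, 1, 1, 1], [1, 1, 0, 0, 0, 0, 0], [3, 2, 2,
  0, 1, 0, 0], [1, 1, 1, 1, 0, 0, 0], [2, 1, 1, 1, 1, 0, 0], [3, 2, 2, 0, 2, 1, 0], [3, 2, 2, 1,
  2, 1, 1]] 211106232532415 [73, 157, 157, 229, 241, 241, 253]) 78494528429 = true := by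
  decide +kernel

/-- data -/
noncomputable def tr425 : Ct := (.dc 2 14 0 (.ct 4 5 1 1 1 (.dc 0 1 0 (.dc 0 9 0 (.ct 0 5 1 1 1
  (.dc 0 14 1 (.dc 1 14 1 (.ct 3 5 1 1 1 (.dc 0 6 1 (.dc 1 6 1 (.lf 3 8 176))) (.dc 1 6 0 (.ct 2
  3 1 1 1 (.ct 3 4 1 1 1 (.dc 0 6 1 (.lf 3 9 176)) (.dc 0 6 0 (.lf 3 10 160))) (.dc 0 6 1 (.lf 3
  8 176))))))) (.dc 1 6 0 (.dc 1 14 0 (.ct 0 2 1 1 1 (.dc 0 14 1 (.ct 2 3 1 1 1 (.ct 3 4 1 1 1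
  (.dc 0 6 1 (.lf 3 9 176)) (.dc 0 6 0 (.lf 3 10 160))) (.dc 0 6 1 (.lf 3 8 160)))) (.ct 0 4 1 1
  1 (.dc 0 14 1 (.ct 3 4 1 1 1 (.dc 0 6 1 (.lf 3 9 192)) (.dc 0 6 0 (.lf 3 10 176)))) (.dc 0 6 0
  (.dc 0 14 0 (.lf 3 10 160)))))))))) (.dc 1 6 0 (.dc 1 14 0 (.ct 4 6 1 1 1 (.dc 0 1 0 (.dc 0 9 0
  (.ct 0 2 1 1 1 (.dc 0 14 1 (.ct 2 3 1 1 1 (.ct 3 5 1 1 1 (.dc 0 6 1 (.lf 3 9 176)) (.dc 0 6 0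
  (.lf 3 10 160))) (.dc 0 6 1 (.lf 3 8 160)))) (.ct 0 5 1 1 1 (.dc 0 14 1 (.ct 3 5 1 1 1 (.dc 0 6
  1 (.lf 3 9 192)) (.dc 0 6 0 (.lf 3 10 176)))) (.dc 0 6 0 (.dc 0 14 0 (.lf 3 10 160))))))) (.dc
  0 9 1 (.ct 0 2 1 1 1 (.dc 0 14 1 (.ct 2 3 1 1 1 (.ct 2 4 1 1 1 (.ct 3 4 1 1 1 (.dc 0 1 1 (.ct 3
  5 1 1 1 (.dc 0 6 1 (.lf 3 8 176)) (.dc 0 6 0 (.lf 3 9 176)))) (.dc 0 1 0 (.ct 3 5 1 1 1 (.ct 4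
  5 1 1 1 (.dc 0 6 1 (.lf 3 10 176)) (.dc 0 6 0 (.lf 3 10 176))) (.dc 0 6 0 (.lf 3 11 176)))))
  (.dc 0 1 0 (.ct 3 5 1 1 1 (.dc 0 6 1 (.lf 3 10 176)) (.dc 0 6 0 (.lf 3 11 160))))) (.dc 0 6 1
  (.ct 3 4 1 1 1 (.dc 0 1 1 (.lf 3 7 176)) (.dc 0 1 0 (.lf 3 8 176)))))) (.ct 0 5 1 1 1 (.dc 0 14
  1 (.ct 3 4 1 1 1 (.dc 0 1 1 (.ct 3 5 1 1 1 (.dc 0 6 1 (.lf 3 8 192)) (.dc 0 6 0 (.lf 3 9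
  192)))) (.dc 0 1 0 (.ct 3 5 1 1 1 (.ct 4 5 1 1 1 (.dc 0 6 1 (.lf 3 10 192)) (.dc 0 6 0 (.lf 3
  11 192))) (.dc 0 6 0 (.lf 3 11 192)))))) (.dc 0 6 0 (.dc 0 14 0 (.ct 3 4 1 1 1 (.dc 0 1 1 (.lf
  3 8 192)) (.dc 0 1 0 (.lf 3 10 192)))))))))))))

theorem dt425 : le (run cls4 4 tr425 [[1, 0, 0, 0, 1, 1, 1], [1, 1, 0, 0, 0, 0, 0], [3, 2, 2,
  0, 1, 0, 0], [2, 1, 1, 1, 1, 1, 1], [1, 0, 0, 0, 1, 0, 0], [2, 2, 2, 0, 1, 1, 0], [1, 1, 1, 0,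
  1, 1, 1]] 211105154579901 [45, 153, 153, 225, 225, 225, 225]) 98328120278 = true := by
  decide +kernel

end Pool.Agent.Work.MP_122e00_nt.Sharp.Cx

end

section

set_option autoImplicit false

set_option maxRecDepth 100000

/-!
# The certificate: data
-/

namespace Pool.Agent.Work.MP_122e00_nt.Sharp.Cx

/-- data -/
noncomputable def tr426 : Ct := (.dc 0 1 0 (.dc 0 9 0 (.ct 0 2 1 2 1 (.dc 0 6 1 (.dc 0 14 1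
  (.dc 1 6 1 (.dc 1 14 1 (.dc 2 6 1 (.dc 2 14 1 (.ct 0 3 1 1 1 (.ct 3 6 1 1 1 (.lf 3 7 192) (.ct
  3 5 1 1 1 (.lf 2 8 192) (.ct 3 4 1 1 1 (.lf 1 7 176) (.lf 0 8 160)))) (.lf 3 6 192)))))))) (.dc
  2 6 0 (.ct 0 3 1 1 1 (.dc 0 14 1 (.dc 1 14 1 (.dc 2 14 1 (.ct 2 3 1 1 1 (.ct 3 6 1 1 1 (.ct 0 5
  1 1 1 (.dc 0 6 1 (.dc 1 6 1 (.lf 3 9 192))) (.dc 1 6 0 (.ct 0 4 1 1 1 (.dc 0 6 1 (.lf 3 9 192))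
  (.dc 0 6 0 (.lf 3 10 192))))) (.ct 0 5 1 1 1 (.dc 0 6 1 (.dc 1 6 1 (.ct 0 3 1 1 1 (.ct 3 5 1 1
  1 (.lf 2 10 192) (.ct 3 4 1 1 1 (.lf 1 9 176) (.lf 0 10 160))) (.lf 2 10 176)))) (.dc 1 6 0
  (.ct 3 5 1 1 1 (.ct 0 4 1 1 1 (.dc 0 6 1 (.lf 2 10 176)) (.dc 0 6 0 (.lf 2 11 176))) (.ct 0 4 1
  1 1 (.dc 0 6 1 (.ct 0 3 1 1 1 (.ct 3 4 1 1 1 (.lf 1 9 176) (.lf 0 10 160)) (.lf 1 10 176)))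
  (.dc 0 6 0 (.ct 3 4 1 1 1 (.lf 1 11 176) (.lf 0 10 160)))))))) (.ct 0 5 1 1 1 (.dc 0 6 1 (.dc 1
  6 1 (.lf 3 8 192))) (.dc 1 6 0 (.ct 0 4 1 1 1 (.dc 0 6 1 (.lf 3 8 192)) (.dc 0 6 0 (.lf 3 10
  192))))))))) (.dc 2 14 0 (.ct 0 5 1 1 1 (.dc 0 14 1 (.dc 1 14 1 (.ct 3 5 1 1 1 (.dc 0 6 1 (.dc
  1 6 1 (.lf 3 8 176))) (.dc 1 6 0 (.ct 3 4 1 1 1 (.dc 0 6 1 (.lf 3 8 176)) (.dc 0 6 0 (.lf 3 10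
  160))))))) (.dc 1 6 0 (.dc 1 14 0 (.ct 0 4 1 1 1 (.dc 0 14 1 (.ct 3 4 1 1 1 (.dc 0 6 1 (.lf 3 8
  160)) (.dc 0 6 0 (.lf 3 10 160)))) (.dc 0 6 0 (.dc 0 14 0 (.lf 3 9 160)))))))))))))

theorem dt426 : le (run cls4 4 tr426 [[1, 0, 0, 0, 1, 1, 1], [1, 1, 0, 0, 0, 0, 0], [1, 1, 1,
  0, 0, 0, 0], [1, 1, 1, 1, 0, 0, 0], [3, 2, 2, 0, 1, 0, 0], [2, 2, 2, 0, 1, 1, 0], [1, 1, 1, 0,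
  1, 1, 1]] 210830276672957 [45, 153, 153, 225, 225, 225, 225]) 192754823070 = true := by
  decide +kernel

end Pool.Agent.Work.MP_122e00_nt.Sharp.Cx

end
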