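import Pool.Agent.Work.MP_122e00_nt.Bd.B03

/-! Bundle of small proof modules (one section per former module). -/

section

set_option autoImplicit false

set_option maxRecDepth 100000

/-!
# The certificate: data
-/

namespace Pool.Agent.Work.MP_122e00_nt.Sharp.Cx

/-- data -/
noncomputable def tr427 : Ct := (.dc 1 14 0 (.ct 0 5 1 1 1 (.ct 2 6 1 1 1 (.dc 0 6 0 (.dc 0 14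
  0 (.ct 2 5 1 2 1 (.dc 2 7 0 (.ct 3 4 1 1 1 (.dc 0 1 1 (.ct 3 5 1 1 1 (.dc 2 15 0 (.lf 3 10
  176)) (.dc 2 15 1 (.lf 3 11 176)))) (.dc 0 1 0 (.ct 3 5 1 1 1 (.ct 4 5 1 1 1 (.dc 2 15 0 (.lf 3
  8 176)) (.dc 2 15 1 (.lf 3 7 176))) (.dc 2 15 1 (.lf 3 7 176)))))) (.dc 2 7 1 (.dc 2 15 1 (.ct
  3 4 1 1 1 (.dc 0 1 1 (.lf 3 10 176)) (.dc 0 1 0 (.lf 3 6 192)))))))) (.dc 0 14 1 (.ct 5 6 2 1 1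
  (.dc 2 7 1 (.dc 2 15 1 (.ct 3 4 1 1 1 (.dc 0 1 1 (.ct 2 3 1 1 1 (.dc 0 6 0 (.lf 3 12 208)) (.dc
  0 6 1 (.lf 3 11 224)))) (.dc 0 1 0 (.ct 2 3 1 1 1 (.dc 0 6 0 (.lf 3 6 192)) (.ct 2 4 1 1 1 (.dc
  0 6 0 (.lf 3 6 224)) (.dc 0 6 1 (.lf 3 10 224)))))))) (.ct 2 5 1 2 1 (.dc 2 7 0 (.ct 3 4 1 1 1
  (.dc 0 1 1 (.ct 2 3 1 1 1 (.dc 0 6 0 (.ct 2 5 1 1 1 (.ct 3 5 1 1 1 (.dc 2 15 0 (.lf 3 10 176))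
  (.dc 2 15 1 (.lf 3 12 176))) (.dc 2 15 1 (.lf 3 12 208)))) (.dc 0 6 1 (.ct 3 5 1 1 1 (.dc 2 15
  0 (.lf 3 10 176)) (.dc 2 15 1 (.lf 3 12 208)))))) (.dc 0 1 0 (.ct 2 3 1 1 1 (.dc 0 6 0 (.ct 2 5
  1 1 1 (.ct 3 5 1 1 1 (.ct 4 5 1 1 1 (.dc 2 15 0 (.lf 3 7 208)) (.dc 2 15 1 (.lf 3 8 208))) (.dc
  2 15 1 (.lf 3 8 208))) (.dc 2 15 1 (.lf 3 8 208)))) (.ct 3 5 1 1 1 (.ct 2 4 1 1 1 (.dc 0 6 0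
  (.ct 2 5 1 1 1 (.ct 4 5 1 1 1 (.dc 2 15 0 (.lf 3 5 208)) (.dc 2 15 1 (.lf 3 9 208))) (.dc 2 15
  1 (.lf 3 10 208)))) (.dc 0 6 1 (.ct 4 5 1 1 1 (.dc 2 15 0 (.lf 3 4 208)) (.dc 2 15 1 (.lf 3 7
  208))))) (.dc 2 15 1 (.ct 2 4 1 1 1 (.dc 0 6 0 (.lf 3 10 176)) (.dc 0 6 1 (.lf 3 8 208)))))))))
  (.dc 2 7 1 (.dc 2 15 1 (.ct 2 3 1 1 1 (.ct 2 4 1 1 1 (.ct 3 4 1 1 1 (.dc 0 1 1 (.ct 3 5 1 1 1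
  (.dc 0 6 1 (.lf 3 12 240)) (.dc 0 6 0 (.lf 3 12 224)))) (.dc 0 1 0 (.ct 3 5 1 1 1 (.ct 4 5 1 1
  1 (.dc 0 6 1 (.lf 3 7 240)) (.dc 0 6 0 (.lf 3 8 208))) (.dc 0 6 0 (.lf 3 7 208))))) (.dc 0 1 0
  (.ct 3 5 1 1 1 (.dc 0 6 1 (.lf 3 6 224)) (.dc 0 6 0 (.lf 3 6 208))))) (.dc 0 6 1 (.ct 3 4 1 1 1
  (.dc 0 1 1 (.lf 3 11 224)) (.dc 0 1 0 (.lf 3 10 224))))))))))) (.dc 2 7 1 (.dc 2 15 1 (.ct 2 6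
  1 1 1 (.dc 0 6 0 (.dc 0 14 0 (.ct 3 4 1 1 1 (.dc 0 1 1 (.lf 3 10 160)) (.dc 0 1 0 (.lf 3 8
  176))))) (.dc 0 14 1 (.ct 3 4 1 1 1 (.dc 0 1 1 (.ct 2 3 1 1 1 (.dc 0 6 0 (.lf 3 12 192)) (.dc 0
  6 1 (.lf 3 12 208)))) (.dc 0 1 0 (.ct 2 3 1 1 1 (.dc 0 6 0 (.lf 3 9 176)) (.ct 2 4 1 1 1 (.dc 0
  6 0 (.lf 3 9 208)) (.dc 0 6 1 (.lf 3 10 208))))))))))))

theorem dt427 : le (run cls4 4 tr427 [[2, 1, 1, 0, 1, 1, 0], [1, 1, 0, 0, 1, 1, 0], [3, 2, 2,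
  0, 2, 1, 0], [2, 1, 1, 1, 2, 2, 1], [1, 0, 0, 0, 1, 0, 0], [0, 0, 0, 0, 1, 1, 0], [1, 0, 0, 0,
  1, 1, 1]] 140186658783165 [34, 130, 130, 154, 124, 148, 238]) 63242976709 = true := by
  decide +kernel

/-- data -/
noncomputable def tr428 : Ct := (.dc 1 14 0 (.ct 3 5 1 1 1 (.ct 4 6 1 1 1 (.dc 0 1 0 (.ct 2 4 1
  1 1 (.dc 0 6 0 (.ct 2 5 1 1 1 (.ct 4 5 1 1 1 (.ct 5 6 1 1 1 (.dc 2 15 1 (.lf 2 8 176)) (.dc 2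
  15 0 (.lf 2 6 176))) (.dc 2 15 1 (.lf 2 8 176))) (.dc 2 15 1 (.lf 2 7 224)))) (.ct 4 5 1 1 1
  (.ct 2 6 1 1 1 (.dc 0 6 0 (.ct 2 5 1 1 1 (.ct 5 6 1 1 1 (.dc 2 15 1 (.lf 2 8 224)) (.dc 2 15 0
  (.lf 2 6 224))) (.dc 2 15 1 (.lf 2 7 224)))) (.dc 0 6 1 (.ct 5 6 1 1 1 (.dc 2 15 1 (.lf 2 8
  224)) (.dc 2 15 0 (.lf 2 4 208))))) (.dc 2 15 1 (.ct 2 6 1 1 1 (.dc 0 6 0 (.lf 2 7 224)) (.dc 0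
  6 1 (.lf 2 8 224))))))) (.dc 0 1 1 (.ct 2 6 1 1 1 (.dc 0 6 0 (.ct 2 5 1 1 1 (.ct 5 6 1 1 1 (.dc
  2 15 1 (.lf 2 12 192)) (.dc 2 15 0 (.lf 2 10 176))) (.dc 2 15 1 (.lf 2 12 224)))) (.dc 0 6 1
  (.ct 5 6 1 1 1 (.dc 2 15 1 (.lf 2 12 208)) (.dc 2 15 0 (.lf 2 10 176))))))) (.dc 2 15 1 (.ct 4
  6 1 1 1 (.dc 0 1 0 (.ct 2 4 1 1 1 (.dc 0 6 0 (.lf 2 6 192)) (.ct 2 6 1 1 1 (.dc 0 6 0 (.lf 2 6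
  192)) (.dc 0 6 1 (.lf 2 7 224))))) (.dc 0 1 1 (.ct 2 6 1 1 1 (.dc 0 6 0 (.lf 2 12 192)) (.dc 0
  6 1 (.lf 2 13 208))))))))

theorem dt428 : le (run cls4 4 tr428 [[2, 1, 1, 0, 2, 2, 0], [1, 1, 0, 0, 1, 1, 0], [3, 2, 2,
  0, 4, 3, 0], [2, 1, 1, 1, 2, 1, 0], [1, 0, 0, 0, 1, 0, 0], [0, 0, 0, 0, 1, 1, 0], [2, 1, 1, 1,
  2, 2, 1]] 140736414613437 [48, 132, 132, 156, 126, 162, 252]) 107963774999 = true := by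
  decide +kernel

end Pool.Agent.Work.MP_122e00_nt.Sharp.Cx

end

section

set_option autoImplicit false

set_option maxRecDepth 100000

/-!
# The certificate: data
-/

namespace Pool.Agent.Work.MP_122e00_nt.Sharp.Cx

/-- data -/
noncomputable def tr429 : Ct := (.dc 0 1 0 (.dc 1 14 1 (.ct 3 5 1 1 1 (.ct 4 5 1 1 1 (.ct 2 6 1
  1 1 (.dc 0 6 0 (.ct 2 5 1 1 1 (.ct 5 6 1 1 1 (.dc 2 15 1 (.lf 2 8 192)) (.dc 2 15 0 (.lf 2 6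
  192))) (.dc 2 15 1 (.lf 2 8 192)))) (.dc 0 6 1 (.ct 5 6 1 1 1 (.dc 2 15 1 (.lf 2 8 224)) (.dc 2
  15 0 (.lf 2 4 208))))) (.dc 2 15 1 (.ct 2 6 1 1 1 (.dc 0 6 0 (.lf 2 7 160)) (.dc 0 6 1 (.lf 2 6
  192))))) (.dc 2 15 1 (.ct 2 6 1 1 1 (.dc 0 6 0 (.lf 2 7 160)) (.dc 0 6 1 (.lf 2 7 160)))))))

theorem dt429 : le (run cls4 4 tr429 [[2, 1, 1, 0, 2, 2, 0], [1, 1, 0, 0, 1, 1, 0], [3, 2, 2,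
  0, 4, 3, 0], [1, 1, 1, 1, 1, 1, 0], [2, 1, 1, 1, 2, 1, 0], [0, 0, 0, 0, 1, 1, 0], [2, 1, 1, 1,
  2, 2, 1]] 140736414613437 [48, 132, 132, 156, 126, 162, 252]) 388197456992 = true := by
  decide +kernel

/-- data -/
noncomputable def tr430 : Ct := (.dc 2 7 1 (.dc 2 15 1 (.ct 3 4 1 1 1 (.dc 1 14 0 (.ct 2 6 1 1
  1 (.ct 2 4 1 1 1 (.ct 4 6 1 1 1 (.dc 0 1 0 (.ct 4 5 1 1 1 (.ct 5 6 1 1 1 (.dc 0 6 0 (.lf 2 6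
  224)) (.dc 0 6 1 (.lf 2 5 224))) (.dc 0 6 0 (.lf 2 6 224)))) (.dc 0 1 1 (.ct 5 6 1 1 1 (.dc 0 6
  0 (.lf 2 12 208)) (.dc 0 6 1 (.lf 2 12 208))))) (.dc 0 1 0 (.ct 5 6 1 1 1 (.dc 0 6 0 (.lf 2 5
  192)) (.dc 0 6 1 (.lf 2 5 208))))) (.dc 0 6 1 (.ct 4 6 1 1 1 (.dc 0 1 0 (.lf 2 11 208)) (.dc 0
  1 1 (.lf 2 12 208)))))) (.dc 0 1 0 (.dc 1 14 1 (.ct 2 6 1 1 1 (.ct 5 6 1 1 1 (.dc 0 6 0 (.lf 2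
  6 160)) (.dc 0 6 1 (.lf 2 7 192))) (.dc 0 6 1 (.lf 2 11 192))))))))

theorem dt430 : le (run cls4 4 tr430 [[2, 1, 1, 0, 2, 2, 0], [1, 1, 0, 0, 1, 1, 0], [3, 2, 2,
  0, 2, 1, 0], [1, 1, 1, 1, 1, 1, 0], [1, 0, 0, 0, 1, 0, 0], [3, 2, 2, 0, 4, 3, 0], [2, 1, 1, 1,
  2, 2, 1]] 140186658799549 [48, 132, 132, 156, 126, 162, 252]) 172220436286 = true := by
  decide +kernel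

/-- data -/
noncomputable def tr431 : Ct := (.dc 2 7 1 (.dc 2 15 1 (.ct 3 4 1 1 1 (.dc 1 14 0 (.ct 4 6 1 1
  1 (.dc 0 1 0 (.ct 2 4 1 1 1 (.dc 0 6 0 (.lf 2 8 192)) (.ct 2 6 1 1 1 (.dc 0 6 0 (.lf 2 7 192))
  (.dc 0 6 1 (.lf 2 10 192))))) (.dc 0 1 1 (.ct 2 6 1 1 1 (.dc 0 6 0 (.lf 2 12 176)) (.dc 0 6 1
  (.lf 2 12 192)))))) (.dc 0 1 0 (.dc 1 14 1 (.ct 2 6 1 1 1 (.dc 0 6 0 (.lf 2 8 160)) (.dc 0 6 1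
  (.lf 2 10 160))))))))

theorem dt431 : le (run cls4 4 tr431 [[2, 1, 1, 0, 1, 1, 0], [1, 1, 0, 0, 1, 1, 0], [3, 2, 2,
  0, 2, 1, 0], [1, 1, 1, 1, 1, 1, 0], [1, 0, 0, 0, 1, 0, 0], [2, 1, 1, 0, 2, 2, 0], [2, 1, 1, 1,
  2, 2, 1]] 140186658799549 [48, 132, 132, 156, 126, 162, 252]) 258953444614 = true := by
  decide +kernel

end Pool.Agent.Work.MP_122e00_nt.Sharp.Cx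

end

section

set_option autoImplicit false

set_option maxRecDepth 100000

/-!
# The certificate: data
-/

namespace Pool.Agent.Work.MP_122e00_nt.Sharp.Cx

/-- data -/
noncomputable def tr432 : Ct := (.ct 3 6 1 1 1 (.dc 1 14 0 (.ct 2 5 1 2 1 (.ct 4 6 1 1 1 (.dc 0
  6 0 (.dc 0 14 0 (.ct 4 5 1 2 1 (.dc 2 7 0 (.ct 3 5 1 1 1 (.dc 2 15 0 (.lf 3 7 160)) (.dc 2 15 1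
  (.lf 3 7 176)))) (.dc 2 7 1 (.dc 2 15 1 (.lf 3 6 208)))))) (.dc 0 14 1 (.ct 5 6 2 1 1 (.dc 2 7
  1 (.dc 2 15 1 (.ct 3 4 1 1 1 (.dc 0 6 1 (.lf 3 9 208)) (.dc 0 6 0 (.lf 3 6 208))))) (.ct 4 5 1
  2 1 (.dc 2 7 0 (.ct 3 4 1 1 1 (.dc 0 6 1 (.ct 3 5 1 1 1 (.dc 2 15 0 (.lf 3 4 224)) (.dc 2 15 1
  (.lf 3 8 224)))) (.dc 0 6 0 (.ct 3 5 1 1 1 (.ct 4 5 1 1 1 (.dc 2 15 0 (.lf 3 6 192)) (.dc 2 15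
  1 (.lf 3 7 192))) (.dc 2 15 1 (.lf 3 9 176)))))) (.dc 2 7 1 (.dc 2 15 1 (.ct 3 4 1 1 1 (.dc 0 6
  1 (.lf 3 9 208)) (.ct 3 5 1 1 1 (.dc 0 6 1 (.lf 3 6 208)) (.dc 0 6 0 (.lf 3 7 176))))))))))
  (.dc 2 7 1 (.dc 2 15 1 (.ct 4 6 1 1 1 (.dc 0 6 0 (.dc 0 14 0 (.lf 3 6 192))) (.dc 0 14 1 (.ct 3
  4 1 1 1 (.dc 0 6 1 (.lf 3 9 192)) (.dc 0 6 0 (.lf 3 6 192))))))))) (.dc 0 14 1 (.dc 1 14 1 (.ct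
  2 5 1 2 1 (.ct 4 5 1 2 1 (.dc 2 7 0 (.ct 4 6 1 1 1 (.dc 0 6 0 (.ct 4 5 1 1 1 (.ct 5 6 1 1 1
  (.dc 2 15 1 (.ct 2 3 1 1 1 (.lf 2 8 224) (.lf 3 9 224))) (.ct 3 5 1 1 1 (.dc 2 15 0 (.ct 2 3 1
  1 1 (.lf 2 7 176) (.lf 3 7 176))) (.dc 2 15 1 (.ct 2 3 1 1 1 (.lf 2 7 208) (.ct 2 5 1 1 1 (.lf
  2 8 208) (.lf 3 8 208)))))) (.dc 2 15 1 (.ct 2 3 1 1 1 (.lf 2 7 224) (.lf 3 8 224))))) (.dc 0 6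
  1 (.ct 5 6 1 1 1 (.dc 2 15 1 (.ct 2 3 1 1 1 (.lf 2 9 224) (.lf 3 8 240))) (.ct 3 5 1 1 1 (.dc 2
  15 0 (.ct 2 3 1 1 1 (.lf 2 5 192) (.lf 3 5 208))) (.dc 2 15 1 (.ct 2 3 1 1 1 (.lf 2 8 224) (.ct
  2 5 1 1 1 (.lf 2 9 224) (.lf 3 9 240))))))))) (.dc 2 7 1 (.dc 2 15 1 (.ct 4 6 1 1 1 (.ct 5 6 1
  1 1 (.dc 0 6 0 (.ct 2 3 1 1 1 (.lf 2 7 192) (.lf 3 7 192))) (.dc 0 6 1 (.ct 2 3 1 1 1 (.lf 2 7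
  208) (.lf 3 7 224)))) (.dc 0 6 1 (.ct 2 3 1 1 1 (.lf 2 10 208) (.lf 3 10 208))))))) (.dc 2 7 1
  (.dc 2 15 1 (.ct 4 6 1 1 1 (.dc 0 6 0 (.ct 2 3 1 1 1 (.ct 3 5 1 1 1 (.lf 3 7 208) (.lf 2 6
  208)) (.lf 3 6 176))) (.dc 0 6 1 (.ct 2 3 1 1 1 (.ct 3 5 1 1 1 (.lf 3 10 208) (.lf 2 11 208))
  (.lf 3 9 176))))))))))

theorem dt432 : le (run cls4 4 tr432 [[2, 1, 1, 0, 2, 2, 0], [1, 1, 0, 0, 1, 1, 0], [3, 2, 2,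
  0, 2, 2, 1], [1, 1, 1, 1, 1, 1, 0], [3, 2, 2, 0, 2, 1, 0], [0, 0, 0, 0, 1, 1, 0], [1, 0, 0, 0,
  1, 1, 1]] 140186658783167 [30, 102, 102, 150, 120, 120, 210]) 283451360733 = true := by
  decide +kernel

/-- data -/
noncomputable def tr433 : Ct := (.dc 2 7 1 (.dc 2 15 1 (.ct 3 6 1 1 1 (.dc 1 14 0 (.ct 4 6 1 1
  1 (.dc 0 6 0 (.dc 0 14 0 (.lf 3 7 176))) (.dc 0 14 1 (.ct 3 4 1 1 1 (.dc 0 6 1 (.lf 3 10 176))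
  (.dc 0 6 0 (.lf 3 8 176)))))) (.dc 0 14 1 (.dc 1 14 1 (.ct 4 6 1 1 1 (.dc 0 6 0 (.ct 2 3 1 1 1
  (.lf 2 9 176) (.lf 3 8 176))) (.dc 0 6 1 (.ct 2 3 1 1 1 (.lf 2 10 176) (.lf 3 10 176)))))))))

theorem dt433 : le (run cls4 4 tr433 [[2, 1, 1, 0, 1, 1, 0], [1, 1, 0, 0, 1, 1, 0], [3, 2, 2,
  0, 2, 2, 1], [1, 1, 1, 1, 1, 1, 0], [3, 2, 2, 0, 2, 1, 0], [2, 1, 1, 0, 2, 2, 0], [1, 0, 0, 0,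
  1, 1, 1]] 140186658783167 [30, 102, 102, 150, 120, 120, 210]) 531243293567 = true := by
  decide +kernel

/-- data -/
noncomputable def tr434 : Ct := (.dc 0 6 1 (.dc 0 14 1 (.dc 1 6 1 (.dc 1 14 1 (.ct 0 5 1 1 1
  (.ct 2 5 1 2 1 (.ct 4 5 1 2 1 (.ct 5 6 2 1 1 (.dc 2 7 1 (.dc 2 15 1 (.ct 3 5 1 1 1 (.lf 3 6
  208) (.ct 3 6 1 1 1 (.lf 3 5 208) (.lf 2 6 208))))) (.dc 2 7 0 (.ct 3 5 1 1 1 (.dc 2 15 0 (.ct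
  3 6 1 1 1 (.lf 3 4 176) (.lf 2 4 160))) (.dc 2 15 1 (.ct 3 6 1 1 1 (.ct 5 6 1 1 1 (.lf 3 7 208)
  (.lf 2 8 192)) (.lf 2 7 192)))))) (.dc 2 7 1 (.dc 2 15 1 (.ct 3 6 1 1 1 (.lf 3 11 192) (.lf 2
  11 192))))) (.dc 2 7 1 (.dc 2 15 1 (.ct 3 6 1 1 1 (.lf 3 10 176) (.lf 2 10 176))))) (.dc 2 7 1
  (.dc 2 15 1 (.ct 3 6 1 1 1 (.lf 3 9 176) (.lf 2 9 176)))))))))

theorem dt434 : le (run cls4 4 tr434 [[2, 1, 1, 0, 1, 1, 0], [1, 1, 0, 0, 1, 1, 0], [2, 2, 2,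
  0, 1, 1, 0], [1, 1, 1, 1, 1, 1, 0], [3, 2, 2, 0, 2, 1, 0], [0, 0, 0, 0, 1, 1, 0], [3, 2, 2, 0,
  2, 2, 1]] 140186654588863 [30, 102, 102, 150, 120, 120, 210]) 115035431929 = true := by
  decide +kernel

/-- data -/
noncomputable def tr435 : Ct := (.dc 1 14 0 (.ct 2 6 1 1 1 (.dc 0 6 0 (.dc 0 14 0 (.ct 3 4 1 1
  1 (.dc 0 1 1 (.ct 1 3 1 1 1 (.dc 2 3 0 (.lf 3 10 160)) (.dc 2 3 1 (.lf 3 7 160)))) (.dc 0 1 0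
  (.ct 1 3 1 1 1 (.dc 2 3 0 (.lf 3 8 176)) (.ct 1 4 1 1 1 (.dc 2 3 0 (.lf 3 7 160)) (.dc 2 3 1
  (.lf 3 9 160)))))))) (.dc 0 14 1 (.ct 3 4 1 1 1 (.dc 0 1 1 (.ct 2 3 1 1 1 (.dc 0 6 0 (.ct 1 2 1
  1 1 (.dc 2 3 0 (.lf 3 12 192)) (.ct 1 3 1 1 1 (.dc 2 3 0 (.lf 3 12 160)) (.dc 2 3 1 (.lf 3 10
  160))))) (.dc 0 6 1 (.ct 1 3 1 1 1 (.dc 2 3 0 (.lf 3 12 208)) (.dc 2 3 1 (.lf 3 9 192))))))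
  (.dc 0 1 0 (.ct 2 3 1 1 1 (.dc 0 6 0 (.ct 1 2 1 1 1 (.dc 2 3 0 (.lf 3 8 208)) (.ct 1 3 1 1 1
  (.dc 2 3 0 (.lf 3 9 208)) (.ct 1 4 1 1 1 (.dc 2 3 0 (.lf 3 10 192)) (.dc 2 3 1 (.lf 3 11
  192)))))) (.ct 1 3 1 1 1 (.dc 2 3 0 (.ct 2 4 1 1 1 (.dc 0 6 0 (.lf 3 9 208)) (.dc 0 6 1 (.lf 3
  10 208)))) (.ct 2 4 1 1 1 (.dc 0 6 0 (.ct 1 2 1 1 1 (.dc 2 3 0 (.lf 3 8 192)) (.ct 1 4 1 1 1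
  (.dc 2 3 0 (.lf 3 9 192)) (.dc 2 3 1 (.lf 3 11 192))))) (.dc 0 6 1 (.ct 1 4 1 1 1 (.dc 2 3 0
  (.lf 3 10 208)) (.dc 2 3 1 (.lf 3 11 208))))))))))))

theorem dt435 : le (run cls4 4 tr435 [[2, 1, 1, 0, 1, 1, 0], [1, 1, 0, 0, 0, 0, 0], [3, 2, 2,
  0, 2, 1, 0], [2, 1, 1, 1, 2, 2, 1], [1, 0, 0, 0, 1, 0, 0], [1, 1, 0, 0, 1, 1, 0], [1, 0, 0, 0,
  1, 1, 1]] 281439543214013 [39, 135, 147, 171, 159, 183, 243]) 108037933851 = true := by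
  decide +kernel

end Pool.Agent.Work.MP_122e00_nt.Sharp.Cx

end

section

set_option autoImplicit false

set_option maxRecDepth 100000

/-!
# The certificate: data
-/

namespace Pool.Agent.Work.MP_122e00_nt.Sharp.Cx

/-- data -/
noncomputable def tr436 : Ct := (.dc 1 14 0 (.ct 1 3 1 1 1 (.dc 2 3 0 (.ct 4 6 1 1 1 (.dc 0 1 0
  (.ct 2 4 1 1 1 (.dc 0 6 0 (.lf 2 7 192)) (.ct 2 6 1 1 1 (.dc 0 6 0 (.lf 2 7 192)) (.dc 0 6 1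
  (.lf 2 9 192))))) (.dc 0 1 1 (.ct 2 6 1 1 1 (.dc 0 6 0 (.lf 2 11 192)) (.dc 0 6 1 (.lf 2 12
  192)))))) (.ct 4 6 1 1 1 (.dc 0 1 0 (.ct 2 4 1 1 1 (.dc 0 6 0 (.ct 1 2 1 1 1 (.dc 2 3 0 (.lf 2
  7 192)) (.ct 1 4 1 1 1 (.dc 2 3 0 (.lf 2 7 176)) (.ct 1 6 1 1 1 (.dc 2 3 0 (.lf 2 7 176)) (.dc
  2 3 1 (.lf 2 11 192)))))) (.ct 1 4 1 1 1 (.dc 2 3 0 (.ct 2 6 1 1 1 (.dc 0 6 0 (.lf 2 6 192))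
  (.dc 0 6 1 (.lf 2 8 192)))) (.ct 2 6 1 1 1 (.dc 0 6 0 (.ct 1 2 1 1 1 (.dc 2 3 0 (.lf 2 6 192))
  (.ct 1 6 1 1 1 (.dc 2 3 0 (.lf 2 7 192)) (.dc 2 3 1 (.lf 2 11 192))))) (.dc 0 6 1 (.ct 1 6 1 1
  1 (.dc 2 3 0 (.lf 2 8 192)) (.dc 2 3 1 (.lf 2 11 192)))))))) (.dc 0 1 1 (.ct 2 6 1 1 1 (.dc 0 6
  0 (.ct 1 2 1 1 1 (.dc 2 3 0 (.lf 2 11 192)) (.ct 1 6 1 1 1 (.dc 2 3 0 (.lf 2 11 192)) (.dc 2 3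
  1 (.lf 2 10 192))))) (.dc 0 6 1 (.ct 1 6 1 1 1 (.dc 2 3 0 (.lf 2 12 192)) (.dc 2 3 1 (.lf 2 9
  160)))))))))

theorem dt436 : le (run cls4 4 tr436 [[2, 1, 1, 0, 1, 1, 0], [1, 1, 0, 0, 0, 0, 0], [3, 2, 2,
  0, 2, 1, 0], [2, 1, 1, 1, 2, 1, 0], [1, 0, 0, 0, 1, 0, 0], [1, 1, 0, 0, 1, 1, 0], [2, 1, 1, 1,
  2, 2, 1]] 281439543230397 [53, 137, 149, 173, 161, 197, 257]) 157656529999 = true := by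
  decide +kernel

/-- data -/
noncomputable def tr437 : Ct := (.dc 0 1 0 (.dc 1 14 1 (.ct 1 3 1 1 1 (.dc 2 3 0 (.ct 2 6 1 1 1
  (.dc 0 6 0 (.lf 2 7 160)) (.dc 0 6 1 (.lf 2 9 160)))) (.ct 1 4 1 1 1 (.dc 2 3 0 (.ct 2 6 1 1 1
  (.dc 0 6 0 (.lf 2 6 160)) (.dc 0 6 1 (.lf 2 8 160)))) (.ct 2 6 1 1 1 (.dc 0 6 0 (.ct 1 2 1 1 1
  (.dc 2 3 0 (.lf 2 6 192)) (.ct 1 6 1 1 1 (.dc 2 3 0 (.lf 2 7 192)) (.dc 2 3 1 (.lf 2 11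
  192))))) (.dc 0 6 1 (.ct 1 6 1 1 1 (.dc 2 3 0 (.lf 2 8 192)) (.dc 2 3 1 (.lf 2 11 192)))))))))

theorem dt437 : le (run cls4 4 tr437 [[2, 1, 1, 0, 1, 1, 0], [1, 1, 0, 0, 0, 0, 0], [3, 2, 2,
  0, 2, 1, 0], [1, 1, 1, 1, 1, 1, 0], [2, 1, 1, 1, 2, 1, 0], [1, 1, 0, 0, 1, 1, 0], [2, 1, 1, 1,
  2, 2, 1]] 281439543230397 [53, 137, 149, 173, 161, 197, 257]) 530545092198 = true := by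
  decide +kernel

end Pool.Agent.Work.MP_122e00_nt.Sharp.Cx

end

section

set_option autoImplicit false

set_option maxRecDepth 100000

/-!
# The certificate: data
-/

namespace Pool.Agent.Work.MP_122e00_nt.Sharp.Cx

/-- data -/
noncomputable def tr438 : Ct := (.dc 0 1 0 (.dc 0 9 0 (.ct 2 6 1 1 1 (.dc 1 6 0 (.ct 3 6 1 1 1
  (.dc 1 14 0 (.ct 4 6 1 1 1 (.dc 0 6 0 (.dc 0 14 0 (.ct 1 3 1 1 1 (.dc 2 3 0 (.lf 3 7 176)) (.dc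
  2 3 1 (.lf 3 9 160))))) (.dc 0 14 1 (.ct 3 4 1 1 1 (.dc 0 6 1 (.ct 1 3 1 1 1 (.dc 2 3 0 (.lf 3
  10 208)) (.dc 2 3 1 (.lf 3 11 208)))) (.dc 0 6 0 (.ct 1 3 1 1 1 (.dc 2 3 0 (.lf 3 9 176)) (.ct
  1 4 1 1 1 (.dc 2 3 0 (.lf 3 10 208)) (.dc 2 3 1 (.lf 3 11 192))))))))) (.dc 0 14 1 (.dc 1 14 1
  (.ct 4 6 1 1 1 (.dc 0 6 0 (.ct 1 4 1 1 1 (.dc 2 3 0 (.ct 2 3 1 1 1 (.lf 2 8 192) (.lf 3 8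
  192))) (.ct 1 6 1 1 1 (.dc 2 3 0 (.ct 2 3 1 1 1 (.lf 2 9 192) (.lf 3 9 192))) (.ct 1 3 1 1 1
  (.dc 2 3 0 (.ct 1 2 1 1 1 (.ct 2 3 1 1 1 (.lf 2 11 192) (.lf 3 10 192)) (.lf 2 9 192))) (.dc 2
  3 1 (.ct 2 3 1 1 1 (.lf 2 11 192) (.lf 3 11 176))))))) (.dc 0 6 1 (.ct 1 6 1 1 1 (.dc 2 3 0
  (.ct 2 3 1 1 1 (.lf 2 10 192) (.lf 3 10 192))) (.ct 1 3 1 1 1 (.dc 2 3 0 (.ct 1 2 1 1 1 (.ct 2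
  3 1 1 1 (.lf 2 10 192) (.lf 3 10 192)) (.lf 2 9 192))) (.dc 2 3 1 (.ct 2 3 1 1 1 (.lf 2 11 192)
  (.lf 3 11 176))))))))))) (.dc 0 6 1 (.dc 0 14 1 (.dc 1 6 1 (.dc 1 14 1 (.ct 1 3 1 1 1 (.dc 2 3
  0 (.ct 1 6 1 1 1 (.ct 3 6 1 1 1 (.lf 3 9 176) (.lf 2 9 176)) (.lf 2 8 160))) (.dc 2 3 1 (.ct 3
  6 1 1 1 (.lf 3 10 160) (.lf 2 11 160)))))))))))

theorem dt438 : le (run cls4 4 tr438 [[2, 1, 1, 0, 1, 1, 0], [1, 1, 0, 0, 0, 0, 0], [2, 2, 2,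
  0, 1, 1, 0], [1, 1, 1, 1, 1, 1, 0], [3, 2, 2, 0, 2, 1, 0], [1, 1, 0, 0, 1, 1, 0], [1, 0, 0, 0,
  1, 1, 1]] 281439539019197 [35, 107, 119, 167, 155, 155, 215]) 496150411682 = true := by
  decide +kernel

/-- data -/
noncomputable def tr439 : Ct := (.dc 1 14 0 (.ct 2 6 1 1 1 (.dc 0 6 0 (.dc 0 14 0 (.ct 0 3 1 1
  1 (.dc 2 5 0 (.ct 0 4 1 1 1 (.ct 3 4 1 1 1 (.dc 0 1 1 (.ct 1 3 1 1 1 (.dc 2 3 0 (.lf 3 10 176))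
  (.dc 2 3 1 (.lf 3 8 176)))) (.dc 0 1 0 (.ct 1 3 1 1 1 (.dc 2 3 0 (.lf 3 7 192)) (.ct 1 4 1 1 1
  (.dc 2 3 0 (.lf 3 6 176)) (.dc 2 3 1 (.lf 3 9 176)))))) (.dc 0 1 0 (.ct 1 3 1 1 1 (.dc 2 3 0
  (.lf 3 7 192)) (.dc 2 3 1 (.lf 3 9 176)))))) (.dc 2 3 1 (.dc 2 5 1 (.ct 3 4 1 1 1 (.dc 0 1 1
  (.lf 3 6 176)) (.dc 0 1 0 (.lf 3 7 176)))))))) (.dc 0 14 1 (.ct 0 3 1 1 1 (.dc 2 5 0 (.ct 0 4 1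
  1 1 (.ct 0 2 1 1 1 (.ct 3 4 1 1 1 (.dc 0 1 1 (.ct 2 3 1 1 1 (.dc 0 6 0 (.ct 1 2 1 1 1 (.dc 2 3
  0 (.lf 3 11 224)) (.ct 1 3 1 1 1 (.dc 2 3 0 (.lf 3 11 192)) (.dc 2 3 1 (.lf 3 10 192))))) (.dc
  0 6 1 (.ct 1 3 1 1 1 (.dc 2 3 0 (.lf 3 12 256)) (.dc 2 3 1 (.lf 3 9 224)))))) (.dc 0 1 0 (.ct 2
  3 1 1 1 (.dc 0 6 0 (.ct 1 2 1 1 1 (.dc 2 3 0 (.lf 3 8 240)) (.ct 1 3 1 1 1 (.dc 2 3 0 (.lf 3 8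
  240)) (.ct 1 4 1 1 1 (.dc 2 3 0 (.lf 3 9 224)) (.dc 2 3 1 (.lf 3 11 224)))))) (.ct 1 3 1 1 1
  (.dc 2 3 0 (.ct 2 4 1 1 1 (.dc 0 6 0 (.lf 3 8 240)) (.dc 0 6 1 (.lf 3 9 240)))) (.ct 2 4 1 1 1
  (.dc 0 6 0 (.ct 1 2 1 1 1 (.dc 2 3 0 (.lf 3 8 224)) (.ct 1 4 1 1 1 (.dc 2 3 0 (.lf 3 8 224))
  (.dc 2 3 1 (.lf 3 11 224))))) (.dc 0 6 1 (.ct 1 4 1 1 1 (.dc 2 3 0 (.lf 3 10 240)) (.dc 2 3 1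
  (.lf 3 11 256))))))))) (.dc 0 6 0 (.ct 3 4 1 1 1 (.dc 0 1 1 (.ct 1 3 1 1 1 (.dc 2 3 0 (.lf 3 11
  208)) (.dc 2 3 1 (.lf 3 10 208)))) (.dc 0 1 0 (.ct 1 3 1 1 1 (.dc 2 3 0 (.lf 3 8 224)) (.ct 1 4
  1 1 1 (.dc 2 3 0 (.lf 3 9 208)) (.dc 2 3 1 (.lf 3 11 208)))))))) (.dc 0 1 0 (.ct 0 2 1 1 1 (.ct
  2 4 1 1 1 (.dc 0 6 0 (.ct 1 3 1 1 1 (.dc 2 3 0 (.lf 3 7 224)) (.dc 2 3 1 (.lf 3 11 208)))) (.ct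
  2 3 1 1 1 (.dc 0 6 0 (.ct 1 2 1 1 1 (.dc 2 3 0 (.lf 3 7 240)) (.ct 1 3 1 1 1 (.dc 2 3 0 (.lf 3
  7 240)) (.dc 2 3 1 (.lf 3 11 224))))) (.dc 0 6 1 (.ct 1 3 1 1 1 (.dc 2 3 0 (.lf 3 9 240)) (.dc
  2 3 1 (.lf 3 11 256)))))) (.dc 0 6 0 (.ct 1 3 1 1 1 (.dc 2 3 0 (.lf 3 7 192)) (.dc 2 3 1 (.lf 3
  11 176)))))))) (.dc 2 3 1 (.dc 2 5 1 (.ct 3 4 1 1 1 (.dc 0 1 1 (.ct 2 3 1 1 1 (.dc 0 6 0 (.lf 3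
  8 208)) (.dc 0 6 1 (.lf 3 7 208)))) (.dc 0 1 0 (.ct 2 3 1 1 1 (.dc 0 6 0 (.lf 3 10 176)) (.ct 2
  4 1 1 1 (.dc 0 6 0 (.lf 3 9 208)) (.dc 0 6 1 (.lf 3 9 224))))))))))))

theorem dt439 : le (run cls4 4 tr439 [[2, 1, 1, 0, 0, 0, 0], [1, 1, 0, 0, 0, 0, 0], [3, 2, 2,
  0, 2, 1, 0], [2, 1, 1, 1, 2, 2, 1], [1, 0, 0, 0, 1, 0, 0], [2, 1, 1, 0, 1, 1, 0], [1, 0, 0, 0,
  1, 1, 1]] 281302104260541 [41, 149, 149, 173, 173, 197, 245]) 83149115526 = true := by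
  decide +kernel

end Pool.Agent.Work.MP_122e00_nt.Sharp.Cx

end

section

set_option autoImplicit false

set_option maxRecDepth 100000

/-!
# The certificate: data
-/

namespace Pool.Agent.Work.MP_122e00_nt.Sharp.Cx

/-- data -/
noncomputable def tr440 : Ct := (.dc 1 14 0 (.ct 1 3 1 1 1 (.dc 2 3 0 (.ct 4 6 1 1 1 (.dc 0 1 0
  (.ct 2 4 1 1 1 (.dc 0 6 0 (.lf 2 7 192)) (.ct 2 6 1 1 1 (.dc 0 6 0 (.lf 2 6 192)) (.dc 0 6 1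
  (.lf 2 7 192))))) (.dc 0 1 1 (.ct 2 6 1 1 1 (.dc 0 6 0 (.lf 2 11 192)) (.dc 0 6 1 (.lf 2 12
  192)))))) (.ct 4 6 1 1 1 (.dc 0 1 0 (.ct 2 4 1 1 1 (.dc 0 6 0 (.ct 1 2 1 1 1 (.dc 2 3 0 (.lf 2
  7 192)) (.ct 1 4 1 1 1 (.dc 2 3 0 (.lf 2 7 192)) (.ct 1 6 1 1 1 (.dc 2 3 0 (.lf 2 7 192)) (.dc
  2 3 1 (.lf 2 11 192)))))) (.ct 1 4 1 1 1 (.dc 2 3 0 (.ct 2 6 1 1 1 (.dc 0 6 0 (.lf 2 6 192))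
  (.dc 0 6 1 (.lf 2 7 192)))) (.ct 2 6 1 1 1 (.dc 0 6 0 (.ct 1 2 1 1 1 (.dc 2 3 0 (.lf 2 6 192))
  (.ct 1 6 1 1 1 (.dc 2 3 0 (.lf 2 7 192)) (.dc 2 3 1 (.lf 2 10 192))))) (.dc 0 6 1 (.ct 1 6 1 1
  1 (.dc 2 3 0 (.lf 2 7 192)) (.dc 2 3 1 (.lf 2 11 192)))))))) (.dc 0 1 1 (.ct 2 6 1 1 1 (.dc 0 6
  0 (.ct 1 2 1 1 1 (.dc 2 3 0 (.lf 2 11 192)) (.ct 1 6 1 1 1 (.dc 2 3 0 (.lf 2 11 192)) (.dc 2 3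
  1 (.lf 2 9 192))))) (.dc 0 6 1 (.ct 1 6 1 1 1 (.dc 2 3 0 (.lf 2 12 192)) (.dc 2 3 1 (.lf 2 10
  160)))))))))

theorem dt440 : le (run cls4 4 tr440 [[4, 2, 2, 1, 2, 1, 0], [1, 1, 0, 0, 0, 0, 0], [3, 2, 2,
  0, 2, 1, 0], [2, 1, 1, 1, 2, 1, 0], [1, 0, 0, 0, 1, 0, 0], [2, 1, 1, 0, 1, 1, 0], [2, 1, 1, 1,
  2, 2, 1]] 281439543230397 [55, 151, 151, 175, 175, 211, 259]) 163016545906 = true := by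
  decide +kernel

/-- data -/
noncomputable def tr441 : Ct := (.dc 0 1 0 (.dc 1 14 1 (.ct 1 3 1 1 1 (.dc 2 3 0 (.ct 2 6 1 1 1
  (.dc 0 6 0 (.lf 2 7 160)) (.dc 0 6 1 (.lf 2 8 160)))) (.ct 1 4 1 1 1 (.dc 2 3 0 (.ct 2 6 1 1 1
  (.dc 0 6 0 (.lf 2 6 160)) (.dc 0 6 1 (.lf 2 7 160)))) (.ct 2 6 1 1 1 (.dc 0 6 0 (.ct 1 2 1 1 1
  (.dc 2 3 0 (.lf 2 6 192)) (.ct 1 6 1 1 1 (.dc 2 3 0 (.lf 2 6 192)) (.dc 2 3 1 (.lf 2 11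
  192))))) (.dc 0 6 1 (.ct 1 6 1 1 1 (.dc 2 3 0 (.lf 2 7 192)) (.dc 2 3 1 (.lf 2 11 192)))))))))

theorem dt441 : le (run cls4 4 tr441 [[4, 2, 2, 1, 2, 1, 0], [1, 1, 0, 0, 0, 0, 0], [3, 2, 2,
  0, 2, 1, 0], [1, 1, 1, 1, 1, 1, 0], [2, 1, 1, 1, 2, 1, 0], [2, 1, 1, 0, 1, 1, 0], [2, 1, 1, 1,
  2, 2, 1]] 281439543230397 [55, 151, 151, 175, 175, 211, 259]) 519557483072 = true := by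
  decide +kernel

/-- data -/
noncomputable def tr442 : Ct := (.dc 0 1 0 (.dc 1 14 1 (.ct 1 3 1 1 1 (.dc 2 3 0 (.ct 2 6 1 1 1
  (.dc 0 6 0 (.lf 2 6 160)) (.dc 0 6 1 (.lf 2 6 160)))) (.ct 2 6 1 1 1 (.dc 0 6 0 (.ct 1 2 1 1 1
  (.dc 2 3 0 (.lf 2 6 192)) (.ct 1 6 1 1 1 (.dc 2 3 0 (.lf 2 6 192)) (.dc 2 3 1 (.lf 2 10
  192))))) (.dc 0 6 1 (.ct 1 6 1 1 1 (.dc 2 3 0 (.lf 2 6 192)) (.dc 2 3 1 (.lf 2 11 192))))))))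

theorem dt442 : le (run cls4 4 tr442 [[3, 2, 2, 1, 1, 1, 0], [1, 1, 0, 0, 0, 0, 0], [3, 2, 2,
  0, 2, 1, 0], [1, 1, 1, 1, 1, 1, 0], [4, 2, 2, 1, 2, 1, 0], [2, 1, 1, 0, 1, 1, 0], [2, 1, 1, 1,
  2, 2, 1]] 281439543230397 [55, 151, 151, 175, 175, 211, 259]) 561363111331 = true := by
  decide +kernel

end Pool.Agent.Work.MP_122e00_nt.Sharp.Cx

end
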