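import Pool.Agent.Work.MP_122e00_nt.Bd.B03

/-! Bundle of small proof modules (one section per former module). -/

section

set_option autoImplicit false

set_option maxRecDepth 100000

/-!
# The certificate: data
-/

namespace Pool.Agent.Work.MP_122e00_nt.Sharp.Cx

/-- data -/
noncomputable def tr443 : Ct := (.ct 0 2 1 1 1 (.ct 4 6 1 1 1 (.dc 0 1 0 (.ct 2 4 1 1 1 (.dc 0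
  6 0 (.ct 1 2 1 1 1 (.dc 2 3 0 (.lf 2 7 224)) (.ct 1 4 1 1 1 (.dc 2 3 0 (.lf 2 7 224)) (.ct 1 6
  1 1 1 (.dc 2 3 0 (.lf 2 7 224)) (.dc 2 3 1 (.lf 2 11 192)))))) (.ct 1 4 1 1 1 (.dc 2 3 0 (.ct 2
  6 1 1 1 (.dc 0 6 0 (.lf 2 6 224)) (.dc 0 6 1 (.lf 2 7 224)))) (.ct 2 6 1 1 1 (.dc 0 6 0 (.ct 1
  2 1 1 1 (.dc 2 3 0 (.lf 2 6 224)) (.ct 1 6 1 1 1 (.dc 2 3 0 (.lf 2 7 224)) (.dc 2 3 1 (.lf 2 10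
  208))))) (.dc 0 6 1 (.ct 1 6 1 1 1 (.dc 2 3 0 (.lf 2 7 224)) (.dc 2 3 1 (.lf 2 11 224))))))))
  (.dc 0 1 1 (.ct 2 6 1 1 1 (.dc 0 6 0 (.ct 1 2 1 1 1 (.dc 2 3 0 (.lf 2 11 208)) (.ct 1 6 1 1 1
  (.dc 2 3 0 (.lf 2 11 192)) (.dc 2 3 1 (.lf 2 9 192))))) (.dc 0 6 1 (.ct 1 6 1 1 1 (.dc 2 3 0
  (.lf 2 12 224)) (.dc 2 3 1 (.lf 2 10 192))))))) (.dc 0 6 0 (.ct 4 6 1 1 1 (.dc 0 1 0 (.ct 1 4 1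
  1 1 (.dc 2 3 0 (.lf 2 7 224)) (.ct 1 6 1 1 1 (.dc 2 3 0 (.lf 2 7 224)) (.dc 2 3 1 (.lf 2 11
  208))))) (.dc 0 1 1 (.ct 1 6 1 1 1 (.dc 2 3 0 (.lf 2 11 208)) (.dc 2 3 1 (.lf 2 10 208)))))))

theorem dt443 : le (run cls4 4 tr443 [[5, 2, 2, 1, 3, 2, 1], [1, 1, 0, 0, 0, 0, 0], [3, 2, 2,
  0, 2, 1, 0], [4, 2, 2, 1, 2, 1, 0], [1, 0, 0, 0, 1, 0, 0], [2, 1, 1, 0, 1, 1, 0], [2, 1, 1, 1,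
  2, 2, 1]] 281440616972221 [55, 151, 151, 175, 175, 211, 259]) 144850281620 = true := by
  decide +kernel

/-- data -/
noncomputable def tr444 : Ct := (.dc 0 1 0 (.ct 0 2 1 1 1 (.ct 2 4 1 1 1 (.dc 0 6 0 (.ct 1 6 1
  1 1 (.dc 2 3 0 (.lf 2 7 208)) (.dc 2 3 1 (.lf 2 10 176)))) (.ct 2 6 1 1 1 (.dc 0 6 0 (.ct 1 2 1
  1 1 (.dc 2 3 0 (.lf 2 6 224)) (.ct 1 6 1 1 1 (.dc 2 3 0 (.lf 2 7 224)) (.dc 2 3 1 (.lf 2 10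
  208))))) (.dc 0 6 1 (.ct 1 6 1 1 1 (.dc 2 3 0 (.lf 2 7 224)) (.dc 2 3 1 (.lf 2 11 224))))))
  (.dc 0 6 0 (.ct 1 6 1 1 1 (.dc 2 3 0 (.lf 2 7 192)) (.dc 2 3 1 (.lf 2 11 176))))))

theorem dt444 : le (run cls4 4 tr444 [[4, 2, 2, 1, 2, 2, 1], [1, 1, 0, 0, 0, 0, 0], [3, 2, 2,
  0, 2, 1, 0], [4, 2, 2, 1, 2, 1, 0], [5, 2, 2, 1, 3, 2, 1], [2, 1, 1, 0, 1, 1, 0], [2, 1, 1, 1,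
  2, 2, 1]] 281440616972221 [55, 151, 151, 175, 175, 211, 259]) 679190328703 = true := by
  decide +kernel

/-- data -/
noncomputable def tr445 : Ct := (.dc 2 3 1 (.dc 2 5 1 (.ct 4 6 1 1 1 (.dc 0 1 0 (.ct 2 4 1 1 1
  (.dc 0 6 0 (.lf 2 9 208)) (.ct 2 6 1 1 1 (.dc 0 6 0 (.lf 2 9 192)) (.dc 0 6 1 (.lf 2 9 192)))))
  (.dc 0 1 1 (.ct 2 6 1 1 1 (.dc 0 6 0 (.lf 2 8 176)) (.dc 0 6 1 (.lf 2 8 192)))))))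

theorem dt445 : le (run cls4 4 tr445 [[2, 1, 1, 0, 0, 0, 0], [1, 1, 0, 0, 0, 0, 0], [3, 2, 2,
  0, 2, 1, 0], [4, 2, 2, 1, 2, 1, 0], [1, 0, 0, 0, 1, 0, 0], [2, 1, 1, 0, 1, 1, 0], [4, 2, 2, 1,
  2, 2, 1]] 281303178018749 [55, 151, 151, 175, 175, 211, 259]) 82476205263 = true := by
  decide +kernel

end Pool.Agent.Work.MP_122e00_nt.Sharp.Cx

end

section

set_option autoImplicit false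

set_option maxRecDepth 100000

/-!
# The certificate: data
-/

namespace Pool.Agent.Work.MP_122e00_nt.Sharp.Cx

/-- data -/
noncomputable def tr446 : Ct := (.dc 0 1 0 (.dc 1 14 1 (.ct 0 6 1 1 1 (.dc 2 5 0 (.ct 0 2 1 1 1
  (.ct 2 6 1 1 1 (.dc 0 6 0 (.ct 1 2 1 1 1 (.dc 2 3 0 (.lf 2 6 192)) (.ct 1 6 1 1 1 (.dc 2 3 0
  (.lf 2 6 192)) (.dc 2 3 1 (.lf 2 10 192))))) (.dc 0 6 1 (.ct 1 6 1 1 1 (.dc 2 3 0 (.lf 2 6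
  192)) (.dc 2 3 1 (.lf 2 11 192))))) (.dc 0 6 0 (.ct 1 6 1 1 1 (.dc 2 3 0 (.lf 2 6 192)) (.dc 2
  3 1 (.lf 2 10 192)))))) (.dc 2 3 1 (.dc 2 5 1 (.ct 2 6 1 1 1 (.dc 0 6 0 (.lf 2 9 192)) (.dc 0 6
  1 (.lf 2 9 160))))))))

theorem dt446 : le (run cls4 4 tr446 [[2, 1, 1, 0, 0, 0, 0], [1, 1, 0, 0, 0, 0, 0], [3, 2, 2,
  0, 2, 1, 0], [3, 2, 2, 1, 1, 1, 0], [4, 2, 2, 1, 2, 1, 0], [2, 1, 1, 0, 1, 1, 0], [2, 1, 1, 1,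
  2, 2, 1]] 281302104276925 [55, 151, 151, 175, 175, 211, 259]) 255922397559 = true := by
  decide +kernel

/-- data -/
noncomputable def tr447 : Ct := (.dc 1 14 0 (.ct 4 6 1 1 1 (.dc 0 6 0 (.dc 0 14 0 (.ct 0 3 1 1
  1 (.dc 2 5 0 (.ct 1 3 1 1 1 (.dc 2 3 0 (.lf 3 7 176)) (.dc 2 3 1 (.lf 3 9 160)))) (.dc 2 3 1
  (.dc 2 5 1 (.lf 3 7 160)))))) (.dc 0 14 1 (.ct 0 3 1 1 1 (.dc 2 5 0 (.ct 0 4 1 1 1 (.ct 3 4 1 1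
  1 (.dc 0 6 1 (.ct 1 3 1 1 1 (.dc 2 3 0 (.lf 3 9 208)) (.dc 2 3 1 (.lf 3 11 208)))) (.dc 0 6 0
  (.ct 1 3 1 1 1 (.dc 2 3 0 (.lf 3 8 176)) (.ct 1 4 1 1 1 (.dc 2 3 0 (.lf 3 9 208)) (.dc 2 3 1
  (.lf 3 11 192)))))) (.dc 0 6 0 (.ct 1 3 1 1 1 (.dc 2 3 0 (.lf 3 8 176)) (.dc 2 3 1 (.lf 3 11
  160)))))) (.dc 2 3 1 (.dc 2 5 1 (.ct 3 4 1 1 1 (.dc 0 6 1 (.lf 3 9 176)) (.dc 0 6 0 (.lf 3 9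
  160)))))))))

theorem dt447 : le (run cls4 4 tr447 [[2, 1, 1, 0, 0, 0, 0], [1, 1, 0, 0, 0, 0, 0], [3, 2, 2,
  0, 2, 2, 1], [2, 1, 1, 1, 2, 2, 1], [3, 2, 2, 0, 2, 1, 0], [2, 1, 1, 0, 1, 1, 0], [1, 0, 0, 0,
  1, 1, 1]] 281302104260543 [37, 121, 121, 169, 169, 169, 217]) 547270395833 = true := by
  decide +kernel

/-- data -/
noncomputable def tr448 : Ct := (.dc 2 5 0 (.ct 0 2 1 1 1 (.ct 4 6 1 1 1 (.dc 0 6 0 (.ct 1 4 1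
  1 1 (.dc 2 3 0 (.ct 2 3 1 1 1 (.lf 2 8 192) (.lf 3 8 192))) (.ct 1 6 1 1 1 (.dc 2 3 0 (.ct 2 3
  1 1 1 (.lf 2 8 192) (.lf 3 8 192))) (.ct 1 3 1 1 1 (.dc 2 3 0 (.ct 1 2 1 1 1 (.ct 2 3 1 1 1
  (.lf 2 10 192) (.lf 3 10 192)) (.lf 2 9 192))) (.dc 2 3 1 (.ct 2 3 1 1 1 (.lf 2 11 192) (.lf 3
  11 176))))))) (.dc 0 6 1 (.ct 1 6 1 1 1 (.dc 2 3 0 (.ct 2 3 1 1 1 (.lf 2 10 192) (.lf 3 10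
  192))) (.ct 1 3 1 1 1 (.dc 2 3 0 (.ct 1 2 1 1 1 (.ct 2 3 1 1 1 (.lf 2 9 192) (.lf 3 9 192))
  (.lf 2 8 192))) (.dc 2 3 1 (.ct 2 3 1 1 1 (.lf 2 11 192) (.lf 3 11 176))))))) (.ct 1 3 1 1 1
  (.dc 2 3 0 (.ct 4 6 1 1 1 (.dc 0 6 0 (.lf 2 7 192)) (.dc 0 6 1 (.lf 2 7 192)))) (.ct 4 6 1 1 1
  (.dc 0 6 0 (.ct 1 4 1 1 1 (.dc 2 3 0 (.lf 2 6 192)) (.ct 1 6 1 1 1 (.dc 2 3 0 (.lf 2 6 192))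
  (.dc 2 3 1 (.lf 2 11 192))))) (.dc 0 6 1 (.ct 1 6 1 1 1 (.dc 2 3 0 (.lf 2 7 192)) (.dc 2 3 1
  (.lf 2 11 192))))))))

theorem dt448 : le (run cls4 4 tr448 [[3, 2, 2, 1, 1, 1, 0], [1, 1, 0, 0, 0, 0, 0], [3, 2, 2,
  0, 2, 2, 1], [1, 1, 1, 1, 1, 1, 0], [3, 2, 2, 0, 2, 1, 0], [2, 1, 1, 0, 1, 1, 0], [2, 1, 1, 1,
  2, 2, 1]] 281303178018751 [65, 125, 125, 173, 185, 185, 245]) 1057635654599 = true := by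
  decide +kernel

/-- data -/
noncomputable def tr449 : Ct := (.ct 0 6 1 1 1 (.dc 2 5 0 (.ct 0 4 1 1 1 (.ct 2 3 1 1 1 (.ct 4
  6 1 1 1 (.dc 0 6 0 (.ct 1 4 1 1 1 (.dc 2 3 0 (.lf 2 6 192)) (.ct 1 6 1 1 1 (.dc 2 3 0 (.lf 2 6
  192)) (.dc 2 3 1 (.lf 2 11 192))))) (.dc 0 6 1 (.ct 1 6 1 1 1 (.dc 2 3 0 (.lf 2 7 192)) (.dc 2
  3 1 (.lf 2 11 192))))) (.ct 4 6 1 1 1 (.dc 0 6 0 (.ct 1 4 1 1 1 (.dc 2 3 0 (.lf 3 7 192)) (.ct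
  1 6 1 1 1 (.dc 2 3 0 (.lf 3 7 192)) (.dc 2 3 1 (.lf 3 11 176))))) (.dc 0 6 1 (.ct 1 6 1 1 1
  (.dc 2 3 0 (.lf 3 9 192)) (.dc 2 3 1 (.lf 3 11 192)))))) (.dc 0 6 0 (.ct 1 6 1 1 1 (.dc 2 3 0
  (.ct 2 3 1 1 1 (.lf 2 7 208) (.lf 3 8 208))) (.dc 2 3 1 (.ct 2 3 1 1 1 (.lf 2 11 208) (.lf 3 11
  192))))))) (.dc 2 3 1 (.dc 2 5 1 (.ct 4 6 1 1 1 (.dc 0 6 0 (.ct 2 3 1 1 1 (.lf 2 10 208) (.lf 3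
  9 192))) (.dc 0 6 1 (.ct 2 3 1 1 1 (.lf 2 10 192) (.lf 3 9 192)))))))

theorem dt449 : le (run cls4 4 tr449 [[2, 1, 1, 0, 0, 0, 0], [1, 1, 0, 0, 0, 0, 0], [3, 2, 2,
  0, 2, 2, 1], [3, 2, 2, 1, 1, 1, 0], [3, 2, 2, 0, 2, 1, 0], [2, 1, 1, 0, 1, 1, 0], [2, 1, 1, 1,
  2, 2, 1]] 281303178018751 [65, 125, 125, 173, 185, 185, 245]) 552032938010 = true := by
  decide +kernel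

end Pool.Agent.Work.MP_122e00_nt.Sharp.Cx

end

section

set_option autoImplicit false

set_option maxRecDepth 100000

/-!
# The certificate: data
-/

namespace Pool.Agent.Work.MP_122e00_nt.Sharp.Cx

/-- data -/
noncomputable def tr450 : Ct := (.dc 0 6 1 (.dc 0 14 1 (.dc 1 6 1 (.dc 1 14 1 (.ct 0 3 1 1 1
  (.dc 2 5 0 (.ct 0 6 1 1 1 (.ct 1 3 1 1 1 (.dc 2 3 0 (.ct 1 6 1 1 1 (.ct 3 6 1 1 1 (.lf 3 9 208)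
  (.lf 2 9 208)) (.lf 2 8 192))) (.dc 2 3 1 (.ct 3 6 1 1 1 (.lf 3 10 192) (.lf 2 11 192)))) (.ct
  1 3 1 1 1 (.dc 2 3 0 (.lf 2 7 192)) (.dc 2 3 1 (.lf 2 11 192))))) (.dc 2 3 1 (.dc 2 5 1 (.ct 3
  6 1 1 1 (.lf 3 8 192) (.lf 2 9 192)))))))))

theorem dt450 : le (run cls4 4 tr450 [[2, 1, 1, 0, 0, 0, 0], [1, 1, 0, 0, 0, 0, 0], [2, 2, 2,
  0, 1, 1, 0], [1, 1, 1, 1, 1, 1, 0], [3, 2, 2, 0, 2, 1, 0], [2, 1, 1, 0, 1, 1, 0], [3, 2, 2, 0,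
  2, 2, 1]] 281302100066239 [37, 121, 121, 169, 169, 169, 217]) 79850206233 = true := by
  decide +kernel

/-- data -/
noncomputable def tr451 : Ct := (.dc 1 14 0 (.ct 2 6 1 1 1 (.dc 0 6 0 (.dc 0 14 0 (.ct 0 5 1 1
  1 (.dc 2 5 0 (.ct 0 4 1 1 1 (.ct 3 4 1 1 1 (.ct 4 5 1 1 1 (.dc 0 1 0 (.ct 1 4 1 1 1 (.dc 2 3 0
  (.lf 3 6 192)) (.ct 1 5 1 1 1 (.dc 2 3 0 (.lf 3 5 192)) (.dc 2 3 1 (.lf 3 10 192))))) (.dc 0 1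
  1 (.ct 1 5 1 1 1 (.dc 2 3 0 (.lf 3 10 192)) (.dc 2 3 1 (.lf 3 8 176))))) (.dc 0 1 0 (.ct 1 5 1
  1 1 (.dc 2 3 0 (.lf 3 6 192)) (.dc 2 3 1 (.lf 3 10 192))))) (.dc 0 1 0 (.ct 1 5 1 1 1 (.dc 2 3
  0 (.lf 3 6 192)) (.dc 2 3 1 (.lf 3 10 176)))))) (.dc 2 3 1 (.dc 2 5 1 (.ct 3 4 1 1 1 (.ct 4 5 1
  1 1 (.dc 0 1 0 (.lf 3 8 176)) (.dc 0 1 1 (.lf 3 7 176))) (.dc 0 1 0 (.lf 3 8 176)))))))) (.dc 0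
  14 1 (.ct 0 5 1 1 1 (.dc 2 5 0 (.ct 0 4 1 1 1 (.ct 0 2 1 1 1 (.ct 3 4 1 1 1 (.ct 2 3 1 1 1 (.dc
  0 6 0 (.ct 4 5 1 1 1 (.dc 0 1 0 (.ct 1 4 1 1 1 (.dc 2 3 0 (.lf 3 7 208)) (.ct 1 5 1 1 1 (.dc 2
  3 0 (.lf 3 6 208)) (.dc 2 3 1 (.lf 3 11 208))))) (.dc 0 1 1 (.ct 1 5 1 1 1 (.dc 2 3 0 (.lf 3 12
  208)) (.dc 2 3 1 (.lf 3 10 192)))))) (.ct 4 5 1 1 1 (.dc 0 1 0 (.ct 2 4 1 1 1 (.dc 0 6 0 (.ct 1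
  2 1 1 1 (.dc 2 3 0 (.lf 3 6 240)) (.ct 1 4 1 1 1 (.dc 2 3 0 (.lf 3 6 224)) (.ct 1 5 1 1 1 (.dc
  2 3 0 (.lf 3 6 224)) (.dc 2 3 1 (.lf 3 11 224)))))) (.ct 1 4 1 1 1 (.dc 2 3 0 (.ct 2 5 1 1 1
  (.dc 0 6 0 (.lf 3 5 240)) (.dc 0 6 1 (.lf 3 10 240)))) (.ct 2 5 1 1 1 (.dc 0 6 0 (.ct 1 2 1 1 1
  (.dc 2 3 0 (.lf 3 5 240)) (.ct 1 5 1 1 1 (.dc 2 3 0 (.lf 3 6 240)) (.dc 2 3 1 (.lf 3 11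
  256))))) (.dc 0 6 1 (.ct 1 5 1 1 1 (.dc 2 3 0 (.lf 3 10 240)) (.dc 2 3 1 (.lf 3 11 256))))))))
  (.dc 0 1 1 (.ct 2 5 1 1 1 (.dc 0 6 0 (.ct 1 2 1 1 1 (.dc 2 3 0 (.lf 3 12 256)) (.ct 1 5 1 1 1
  (.dc 2 3 0 (.lf 3 12 224)) (.dc 2 3 1 (.lf 3 10 224))))) (.dc 0 6 1 (.ct 1 5 1 1 1 (.dc 2 3 0
  (.lf 3 12 256)) (.dc 2 3 1 (.lf 3 10 224)))))))) (.dc 0 1 0 (.ct 2 3 1 1 1 (.dc 0 6 0 (.ct 1 5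
  1 1 1 (.dc 2 3 0 (.lf 3 7 224)) (.dc 2 3 1 (.lf 3 12 224)))) (.ct 2 4 1 1 1 (.dc 0 6 0 (.ct 1 5
  1 1 1 (.dc 2 3 0 (.lf 3 6 224)) (.dc 2 3 1 (.lf 3 11 224)))) (.ct 2 5 1 1 1 (.dc 0 6 0 (.ct 1 2
  1 1 1 (.dc 2 3 0 (.lf 3 5 256)) (.ct 1 5 1 1 1 (.dc 2 3 0 (.lf 3 6 256)) (.dc 2 3 1 (.lf 3 11
  256))))) (.dc 0 6 1 (.ct 1 5 1 1 1 (.dc 2 3 0 (.lf 3 10 256)) (.dc 2 3 1 (.lf 3 11 256)))))))))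
  (.dc 0 6 0 (.ct 3 4 1 1 1 (.ct 4 5 1 1 1 (.dc 0 1 0 (.ct 1 4 1 1 1 (.dc 2 3 0 (.lf 3 7 224))
  (.ct 1 5 1 1 1 (.dc 2 3 0 (.lf 3 7 224)) (.dc 2 3 1 (.lf 3 12 224))))) (.dc 0 1 1 (.ct 1 5 1 1
  1 (.dc 2 3 0 (.lf 3 12 224)) (.dc 2 3 1 (.lf 3 10 208))))) (.dc 0 1 0 (.ct 1 5 1 1 1 (.dc 2 3 0
  (.lf 3 7 224)) (.dc 2 3 1 (.lf 3 12 224))))))) (.dc 0 1 0 (.ct 0 2 1 1 1 (.ct 2 3 1 1 1 (.dc 0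
  6 0 (.ct 1 5 1 1 1 (.dc 2 3 0 (.lf 3 7 208)) (.dc 2 3 1 (.lf 3 12 192)))) (.ct 2 4 1 1 1 (.dc 0
  6 0 (.ct 1 5 1 1 1 (.dc 2 3 0 (.lf 3 6 240)) (.dc 2 3 1 (.lf 3 11 224)))) (.ct 2 5 1 1 1 (.dc 0
  6 0 (.ct 1 2 1 1 1 (.dc 2 3 0 (.lf 3 5 256)) (.ct 1 5 1 1 1 (.dc 2 3 0 (.lf 3 6 256)) (.dc 2 3
  1 (.lf 3 11 240))))) (.dc 0 6 1 (.ct 1 5 1 1 1 (.dc 2 3 0 (.lf 3 10 256)) (.dc 2 3 1 (.lf 3 11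
  256))))))) (.dc 0 6 0 (.ct 1 5 1 1 1 (.dc 2 3 0 (.lf 3 7 192)) (.dc 2 3 1 (.lf 3 12 176))))))))
  (.dc 2 3 1 (.dc 2 5 1 (.ct 3 4 1 1 1 (.ct 2 3 1 1 1 (.dc 0 6 0 (.ct 4 5 1 1 1 (.dc 0 1 0 (.lf 3
  10 176)) (.dc 0 1 1 (.lf 3 9 176)))) (.ct 4 5 1 1 1 (.dc 0 1 0 (.ct 2 4 1 1 1 (.dc 0 6 0 (.lf 3
  10 208)) (.ct 2 5 1 1 1 (.dc 0 6 0 (.lf 3 10 224)) (.dc 0 6 1 (.lf 3 9 224))))) (.dc 0 1 1 (.ct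
  2 5 1 1 1 (.dc 0 6 0 (.lf 3 8 208)) (.dc 0 6 1 (.lf 3 8 192)))))) (.dc 0 1 0 (.ct 2 3 1 1 1
  (.dc 0 6 0 (.lf 3 10 192)) (.ct 2 4 1 1 1 (.dc 0 6 0 (.lf 3 10 192)) (.ct 2 5 1 1 1 (.dc 0 6 0
  (.lf 3 10 192)) (.dc 0 6 1 (.lf 3 9 192)))))))))))))

theorem dt451 : le (run cls4 4 tr451 [[2, 1, 1, 0, 0, 0, 0], [1, 1, 0, 0, 0, 0, 0], [3, 2, 2,
  0, 2, 1, 0], [2, 1, 1, 1, 1, 1, 1], [1, 0, 0, 0, 1, 0, 0], [2, 1, 1, 1, 2, 2, 1], [1, 0, 0, 0,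
  1, 1, 1]] 281302104260541 [41, 149, 149, 173, 173, 197, 245]) 193622671597 = true := by
  decide +kernel

/-- data -/
noncomputable def tr452 : Ct := (.dc 2 5 0 (.ct 1 4 1 1 1 (.dc 2 3 0 (.ct 2 3 1 1 1 (.dc 0 6 0
  (.lf 2 8 176)) (.ct 2 6 1 1 1 (.dc 0 6 0 (.lf 2 7 176)) (.dc 0 6 1 (.lf 2 8 176))))) (.ct 2 3 1
  1 1 (.dc 0 6 0 (.ct 1 5 1 1 1 (.dc 2 3 0 (.lf 2 8 176)) (.ct 1 6 1 1 1 (.dc 2 3 0 (.lf 2 8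
  176)) (.dc 2 3 1 (.lf 2 11 176))))) (.ct 1 5 1 1 1 (.dc 2 3 0 (.ct 2 6 1 1 1 (.dc 0 6 0 (.lf 2
  7 176)) (.dc 0 6 1 (.lf 2 8 176)))) (.ct 2 6 1 1 1 (.dc 0 6 0 (.ct 1 2 1 1 1 (.dc 2 3 0 (.lf 2
  6 208)) (.ct 1 6 1 1 1 (.dc 2 3 0 (.lf 2 7 208)) (.dc 2 3 1 (.lf 2 11 208))))) (.dc 0 6 1 (.ct
  1 6 1 1 1 (.dc 2 3 0 (.lf 2 8 208)) (.dc 2 3 1 (.lf 2 11 208)))))))))

theorem dt452 : le (run cls4 4 tr452 [[4, 2, 2, 1, 2, 1, 0], [1, 1, 0, 0, 0, 0, 0], [3, 2, 2,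
  0, 2, 1, 0], [2, 1, 1, 1, 1, 1, 1], [2, 1, 1, 1, 2, 1, 0], [1, 1, 1, 1, 1, 1, 0], [2, 1, 1, 1,
  2, 2, 1]] 281303178018751 [69, 153, 153, 177, 189, 213, 273]) 919460088715 = true := by
  decide +kernel

end Pool.Agent.Work.MP_122e00_nt.Sharp.Cx

end

section

set_option autoImplicit false

set_option maxRecDepth 100000

/-!
# The certificate: data
-/

namespace Pool.Agent.Work.MP_122e00_nt.Sharp.Cx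

/-- data -/
noncomputable def tr453 : Ct := (.ct 0 5 1 1 1 (.dc 2 5 0 (.ct 2 3 1 1 1 (.dc 0 6 0 (.ct 1 5 1
  1 1 (.dc 2 3 0 (.lf 2 7 176)) (.ct 1 6 1 1 1 (.dc 2 3 0 (.lf 2 7 176)) (.dc 2 3 1 (.lf 2 11
  176))))) (.ct 1 5 1 1 1 (.dc 2 3 0 (.ct 2 6 1 1 1 (.dc 0 6 0 (.lf 2 7 176)) (.dc 0 6 1 (.lf 2 7
  176)))) (.ct 2 6 1 1 1 (.dc 0 6 0 (.ct 1 2 1 1 1 (.dc 2 3 0 (.lf 2 6 208)) (.ct 1 6 1 1 1 (.dc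
  2 3 0 (.lf 2 7 208)) (.dc 2 3 1 (.lf 2 11 208))))) (.dc 0 6 1 (.ct 1 6 1 1 1 (.dc 2 3 0 (.lf 2
  7 208)) (.dc 2 3 1 (.lf 2 11 208)))))))) (.ct 0 6 1 1 1 (.dc 2 5 0 (.ct 0 2 1 1 1 (.ct 2 3 1 1
  1 (.dc 0 6 0 (.ct 1 6 1 1 1 (.dc 2 3 0 (.lf 2 7 176)) (.dc 2 3 1 (.lf 2 11 176)))) (.ct 2 6 1 1
  1 (.dc 0 6 0 (.ct 1 2 1 1 1 (.dc 2 3 0 (.lf 2 6 208)) (.ct 1 6 1 1 1 (.dc 2 3 0 (.lf 2 7 208))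
  (.dc 2 3 1 (.lf 2 11 208))))) (.dc 0 6 1 (.ct 1 6 1 1 1 (.dc 2 3 0 (.lf 2 7 208)) (.dc 2 3 1
  (.lf 2 11 208)))))) (.dc 0 6 0 (.ct 1 6 1 1 1 (.dc 2 3 0 (.lf 2 8 192)) (.dc 2 3 1 (.lf 2 11
  192)))))) (.dc 2 3 1 (.dc 2 5 1 (.ct 2 3 1 1 1 (.dc 0 6 0 (.lf 2 9 192)) (.ct 2 6 1 1 1 (.dc 0
  6 0 (.lf 2 10 192)) (.dc 0 6 1 (.lf 2 9 176))))))))

theorem dt453 : le (run cls4 4 tr453 [[2, 1, 1, 0, 0, 0, 0], [1, 1, 0, 0, 0, 0, 0], [3, 2, 2,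
  0, 2, 1, 0], [2, 1, 1, 1, 1, 1, 1], [4, 2, 2, 1, 2, 1, 0], [1, 1, 1, 1, 1, 1, 0], [2, 1, 1, 1,
  2, 2, 1]] 281303178018751 [69, 153, 153, 177, 189, 213, 273]) 632243976297 = true := by
  decide +kernel

/-- data -/
noncomputable def tr454 : Ct := (.dc 2 3 0 (.ct 3 4 1 1 1 (.ct 2 3 1 1 1 (.dc 0 6 0 (.ct 4 6 1
  1 1 (.dc 0 1 0 (.lf 2 7 160)) (.dc 0 1 1 (.lf 2 11 160)))) (.ct 4 6 1 1 1 (.dc 0 1 0 (.ct 2 4 1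
  1 1 (.dc 0 6 0 (.lf 2 7 192)) (.ct 2 6 1 1 1 (.dc 0 6 0 (.lf 2 7 192)) (.dc 0 6 1 (.lf 2 8
  192))))) (.dc 0 1 1 (.ct 2 6 1 1 1 (.dc 0 6 0 (.lf 2 11 192)) (.dc 0 6 1 (.lf 2 12 192))))))
  (.dc 0 1 0 (.ct 2 3 1 1 1 (.dc 0 6 0 (.lf 2 8 176)) (.ct 2 4 1 1 1 (.dc 0 6 0 (.lf 2 7 176))
  (.ct 2 6 1 1 1 (.dc 0 6 0 (.lf 2 7 176)) (.dc 0 6 1 (.lf 2 8 176))))))))

theorem dt454 : le (run cls4 4 tr454 [[4, 2, 2, 1, 2, 1, 0], [3, 2, 1, 1, 2, 1, 0], [3, 2, 2,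
  0, 2, 1, 0], [2, 1, 1, 1, 1, 1, 1], [1, 0, 0, 0, 1, 0, 0], [2, 1, 1, 1, 2, 1, 0], [2, 1, 1, 1,
  2, 2, 1]] 281440616972221 [55, 151, 151, 175, 175, 211, 259]) 645844984401 = true := by
  decide +kernel

end Pool.Agent.Work.MP_122e00_nt.Sharp.Cx

end

section

set_option autoImplicit false

set_option maxRecDepth 100000

/-!
# The certificate: data
-/

namespace Pool.Agent.Work.MP_122e00_nt.Sharp.Cx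

/-- data -/
noncomputable def tr455 : Ct := (.ct 2 3 1 1 1 (.dc 0 6 0 (.ct 4 6 1 1 1 (.dc 0 1 0 (.ct 1 4 1
  1 1 (.dc 2 3 0 (.lf 2 7 176)) (.ct 1 6 1 1 1 (.dc 2 3 0 (.lf 2 7 176)) (.dc 2 3 1 (.lf 2 11
  176))))) (.dc 0 1 1 (.ct 1 6 1 1 1 (.dc 2 3 0 (.lf 2 11 176)) (.dc 2 3 1 (.lf 2 10 176))))))
  (.ct 4 6 1 1 1 (.dc 0 1 0 (.ct 2 4 1 1 1 (.dc 0 6 0 (.ct 1 2 1 1 1 (.dc 2 3 0 (.lf 2 7 192))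
  (.ct 1 4 1 1 1 (.dc 2 3 0 (.lf 2 7 192)) (.ct 1 6 1 1 1 (.dc 2 3 0 (.lf 2 7 192)) (.dc 2 3 1
  (.lf 2 11 192)))))) (.ct 1 4 1 1 1 (.dc 2 3 0 (.ct 2 6 1 1 1 (.dc 0 6 0 (.lf 2 7 192)) (.dc 0 6
  1 (.lf 2 8 192)))) (.ct 2 6 1 1 1 (.dc 0 6 0 (.ct 1 2 1 1 1 (.dc 2 3 0 (.lf 2 6 192)) (.ct 1 6
  1 1 1 (.dc 2 3 0 (.lf 2 7 192)) (.dc 2 3 1 (.lf 2 11 192))))) (.dc 0 6 1 (.ct 1 6 1 1 1 (.dc 2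
  3 0 (.lf 2 7 192)) (.dc 2 3 1 (.lf 2 11 192)))))))) (.dc 0 1 1 (.ct 2 6 1 1 1 (.dc 0 6 0 (.ct 1
  2 1 1 1 (.dc 2 3 0 (.lf 2 11 192)) (.ct 1 6 1 1 1 (.dc 2 3 0 (.lf 2 11 192)) (.dc 2 3 1 (.lf 2
  10 192))))) (.dc 0 6 1 (.ct 1 6 1 1 1 (.dc 2 3 0 (.lf 2 12 192)) (.dc 2 3 1 (.lf 2 10
  160))))))))

theorem dt455 : le (run cls4 4 tr455 [[4, 2, 2, 1, 2, 1, 0], [1, 1, 0, 0, 0, 0, 0], [3, 2, 2,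
  0, 2, 1, 0], [3, 1, 1, 1, 2, 1, 1], [1, 0, 0, 0, 1, 0, 0], [3, 2, 1, 1, 2, 1, 0], [2, 1, 1, 1,
  2, 2, 1]] 281440616972221 [55, 151, 151, 175, 175, 211, 259]) 224262630773 = true := by
  decide +kernel

/-- data -/
noncomputable def tr456 : Ct := (.dc 0 1 0 (.ct 2 3 1 1 1 (.dc 0 6 0 (.ct 1 6 1 1 1 (.dc 2 3 0
  (.lf 2 8 176)) (.dc 2 3 1 (.lf 2 11 176)))) (.ct 2 4 1 1 1 (.dc 0 6 0 (.ct 1 6 1 1 1 (.dc 2 3 0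
  (.lf 2 7 160)) (.dc 2 3 1 (.lf 2 11 160)))) (.ct 2 6 1 1 1 (.dc 0 6 0 (.ct 1 2 1 1 1 (.dc 2 3 0
  (.lf 2 7 192)) (.ct 1 6 1 1 1 (.dc 2 3 0 (.lf 2 7 192)) (.dc 2 3 1 (.lf 2 11 192))))) (.dc 0 6
  1 (.ct 1 6 1 1 1 (.dc 2 3 0 (.lf 2 8 192)) (.dc 2 3 1 (.lf 2 11 192))))))))

theorem dt456 : le (run cls4 4 tr456 [[4, 2, 2, 1, 2, 1, 0], [1, 1, 0, 0, 0, 0, 0], [3, 2, 2,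
  0, 2, 1, 0], [2, 1, 1, 1, 1, 1, 1], [3, 1, 1, 1, 2, 1, 1], [3, 2, 1, 1, 2, 1, 0], [2, 1, 1, 1,
  2, 2, 1]] 281440616972221 [55, 151, 151, 175, 175, 211, 259]) 1224443350085 = true := by
  decide +kernel

end Pool.Agent.Work.MP_122e00_nt.Sharp.Cx

end

section

set_option autoImplicit false

set_option maxRecDepth 100000

/-!
# The certificate: data
-/

namespace Pool.Agent.Work.MP_122e00_nt.Sharp.Cx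

/-- data -/
noncomputable def tr457 : Ct := (.ct 2 3 1 1 1 (.dc 0 6 0 (.ct 4 6 1 1 1 (.dc 0 1 0 (.ct 1 4 1
  1 1 (.dc 2 3 0 (.lf 2 8 208)) (.ct 1 6 1 1 1 (.dc 2 3 0 (.lf 2 8 208)) (.dc 2 3 1 (.lf 2 11
  208))))) (.dc 0 1 1 (.ct 1 6 1 1 1 (.dc 2 3 0 (.lf 2 11 208)) (.dc 2 3 1 (.lf 2 10 208))))))
  (.ct 4 6 1 1 1 (.dc 0 1 0 (.ct 2 4 1 1 1 (.dc 0 6 0 (.ct 1 2 1 1 1 (.dc 2 3 0 (.lf 2 7 224))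
  (.ct 1 4 1 1 1 (.dc 2 3 0 (.lf 2 7 224)) (.ct 1 6 1 1 1 (.dc 2 3 0 (.lf 2 7 224)) (.dc 2 3 1
  (.lf 2 11 224)))))) (.ct 1 4 1 1 1 (.dc 2 3 0 (.ct 2 6 1 1 1 (.dc 0 6 0 (.lf 2 7 224)) (.dc 0 6
  1 (.lf 2 8 224)))) (.ct 2 6 1 1 1 (.dc 0 6 0 (.ct 1 2 1 1 1 (.dc 2 3 0 (.lf 2 7 224)) (.ct 1 6
  1 1 1 (.dc 2 3 0 (.lf 2 7 224)) (.dc 2 3 1 (.lf 2 11 224))))) (.dc 0 6 1 (.ct 1 6 1 1 1 (.dc 2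
  3 0 (.lf 2 8 224)) (.dc 2 3 1 (.lf 2 11 224)))))))) (.dc 0 1 1 (.ct 2 6 1 1 1 (.dc 0 6 0 (.ct 1
  2 1 1 1 (.dc 2 3 0 (.lf 2 11 224)) (.ct 1 6 1 1 1 (.dc 2 3 0 (.lf 2 11 224)) (.dc 2 3 1 (.lf 2
  10 224))))) (.dc 0 6 1 (.ct 1 6 1 1 1 (.dc 2 3 0 (.lf 2 12 224)) (.dc 2 3 1 (.lf 2 10
  192))))))))

theorem dt457 : le (run cls4 4 tr457 [[8, 4, 4, 1, 5, 3, 1], [1, 1, 0, 0, 0, 0, 0], [3, 2, 2,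
  0, 2, 1, 0], [3, 1, 1, 1, 2, 1, 1], [1, 0, 0, 0, 1, 0, 0], [4, 2, 2, 1, 2, 1, 0], [2, 1, 1, 1,
  2, 2, 1]] 281440616972221 [55, 151, 151, 175, 175, 211, 259]) 181809520780 = true := by
  decide +kernel

/-- data -/
noncomputable def tr458 : Ct := (.dc 0 1 0 (.ct 2 3 1 1 1 (.dc 0 6 0 (.ct 1 6 1 1 1 (.dc 2 3 0
  (.lf 2 8 208)) (.dc 2 3 1 (.lf 2 11 208)))) (.ct 2 4 1 1 1 (.dc 0 6 0 (.ct 1 6 1 1 1 (.dc 2 3 0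
  (.lf 2 7 192)) (.dc 2 3 1 (.lf 2 11 192)))) (.ct 2 6 1 1 1 (.dc 0 6 0 (.ct 1 2 1 1 1 (.dc 2 3 0
  (.lf 2 7 224)) (.ct 1 6 1 1 1 (.dc 2 3 0 (.lf 2 7 224)) (.dc 2 3 1 (.lf 2 11 224))))) (.dc 0 6
  1 (.ct 1 6 1 1 1 (.dc 2 3 0 (.lf 2 8 224)) (.dc 2 3 1 (.lf 2 11 224))))))))

theorem dt458 : le (run cls4 4 tr458 [[8, 4, 4, 1, 5, 3, 1], [1, 1, 0, 0, 0, 0, 0], [3, 2, 2,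
  0, 2, 1, 0], [2, 1, 1, 1, 1, 1, 1], [3, 1, 1, 1, 2, 1, 1], [4, 2, 2, 1, 2, 1, 0], [2, 1, 1, 1,
  2, 2, 1]] 281440616972221 [55, 151, 151, 175, 175, 211, 259]) 1001546405053 = true := by
  decide +kernel

end Pool.Agent.Work.MP_122e00_nt.Sharp.Cx

end
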