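import Pool.Agent.Work.MP_122e00_nt.Bd.B03

/-! Bundle of small proof modules (one section per former module). -/

section

set_option autoImplicit false

set_option maxRecDepth 100000

/-!
# The certificate: data
-/

namespace Pool.Agent.Work.MP_122e00_nt.Sharp.Cx

/-- data -/
noncomputable def tr459 : Ct := (.dc 0 6 0 (.ct 3 4 1 1 1 (.ct 4 6 1 1 1 (.dc 0 1 0 (.ct 1 4 1
  1 1 (.dc 2 3 0 (.lf 2 8 224)) (.ct 1 6 1 1 1 (.dc 2 3 0 (.lf 2 8 224)) (.dc 2 3 1 (.lf 2 11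
  224))))) (.dc 0 1 1 (.ct 1 6 1 1 1 (.dc 2 3 0 (.lf 2 11 224)) (.dc 2 3 1 (.lf 2 10 224)))))
  (.dc 0 1 0 (.ct 1 6 1 1 1 (.dc 2 3 0 (.lf 2 8 208)) (.dc 2 3 1 (.lf 2 11 208))))))

theorem dt459 : le (run cls4 4 tr459 [[5, 2, 2, 1, 3, 2, 1], [1, 1, 0, 0, 0, 0, 0], [8, 4, 4,
  1, 5, 3, 1], [2, 1, 1, 1, 1, 1, 1], [1, 0, 0, 0, 1, 0, 0], [4, 2, 2, 1, 2, 1, 0], [2, 1, 1, 1,
  2, 2, 1]] 281440616972221 [55, 151, 151, 175, 175, 211, 259]) 421188481196 = true := by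
  decide +kernel

/-- data -/
noncomputable def tr460 : Ct := (.dc 0 1 0 (.ct 0 2 1 1 1 (.ct 2 3 1 1 1 (.dc 0 6 0 (.ct 1 6 1
  1 1 (.dc 2 3 0 (.lf 2 8 176)) (.dc 2 3 1 (.lf 2 11 160)))) (.ct 2 4 1 1 1 (.dc 0 6 0 (.ct 1 6 1
  1 1 (.dc 2 3 0 (.lf 2 7 208)) (.dc 2 3 1 (.lf 2 11 192)))) (.ct 2 6 1 1 1 (.dc 0 6 0 (.ct 1 2 1
  1 1 (.dc 2 3 0 (.lf 2 7 240)) (.ct 1 6 1 1 1 (.dc 2 3 0 (.lf 2 7 240)) (.dc 2 3 1 (.lf 2 11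
  224))))) (.dc 0 6 1 (.ct 1 6 1 1 1 (.dc 2 3 0 (.lf 2 8 240)) (.dc 2 3 1 (.lf 2 11 240)))))))
  (.dc 0 6 0 (.ct 1 6 1 1 1 (.dc 2 3 0 (.lf 2 8 192)) (.dc 2 3 1 (.lf 2 11 176))))))

theorem dt460 : le (run cls4 4 tr460 [[4, 2, 2, 1, 2, 2, 1], [1, 1, 0, 0, 0, 0, 0], [3, 2, 2,
  0, 2, 1, 0], [2, 1, 1, 1, 1, 1, 1], [5, 2, 2, 1, 3, 2, 1], [4, 2, 2, 1, 2, 1, 0], [2, 1, 1, 1,
  2, 2, 1]] 281440616972221 [55, 151, 151, 175, 175, 211, 259]) 985607359998 = true := by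
  decide +kernel

/-- data -/
noncomputable def tr461 : Ct := (.dc 2 3 1 (.dc 2 5 1 (.ct 3 4 1 1 1 (.ct 2 3 1 1 1 (.dc 0 6 0
  (.ct 4 6 1 1 1 (.dc 0 1 0 (.lf 2 10 192)) (.dc 0 1 1 (.lf 2 8 176)))) (.ct 4 6 1 1 1 (.dc 0 1 0
  (.ct 2 4 1 1 1 (.dc 0 6 0 (.lf 2 10 224)) (.ct 2 6 1 1 1 (.dc 0 6 0 (.lf 2 10 224)) (.dc 0 6 1
  (.lf 2 10 192))))) (.dc 0 1 1 (.ct 2 6 1 1 1 (.dc 0 6 0 (.lf 2 8 208)) (.dc 0 6 1 (.lf 2 8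
  192)))))) (.dc 0 1 0 (.ct 2 3 1 1 1 (.dc 0 6 0 (.lf 2 10 192)) (.ct 2 4 1 1 1 (.dc 0 6 0 (.lf 2
  10 192)) (.ct 2 6 1 1 1 (.dc 0 6 0 (.lf 2 10 192)) (.dc 0 6 1 (.lf 2 10 176)))))))))

theorem dt461 : le (run cls4 4 tr461 [[2, 1, 1, 0, 0, 0, 0], [1, 1, 0, 0, 0, 0, 0], [3, 2, 2,
  0, 2, 1, 0], [2, 1, 1, 1, 1, 1, 1], [1, 0, 0, 0, 1, 0, 0], [4, 2, 2, 1, 2, 1, 0], [4, 2, 2, 1,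
  2, 2, 1]] 281303178018749 [55, 151, 151, 175, 175, 211, 259]) 199714303708 = true := by
  decide +kernel

/-- data -/
noncomputable def tr462 : Ct := (.dc 1 14 0 (.ct 4 6 1 1 1 (.dc 0 6 0 (.dc 0 14 0 (.ct 0 5 1 1
  1 (.dc 2 5 0 (.ct 1 5 1 1 1 (.dc 2 3 0 (.lf 3 5 176)) (.dc 2 3 1 (.lf 3 10 160)))) (.dc 2 3 1
  (.dc 2 5 1 (.lf 3 8 160)))))) (.dc 0 14 1 (.ct 0 5 1 1 1 (.dc 2 5 0 (.ct 0 4 1 1 1 (.ct 3 4 1 1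
  1 (.ct 4 5 1 1 1 (.dc 0 6 0 (.ct 1 4 1 1 1 (.dc 2 3 0 (.lf 3 6 224)) (.ct 1 5 1 1 1 (.dc 2 3 0
  (.lf 3 6 224)) (.dc 2 3 1 (.lf 3 11 208))))) (.dc 0 6 1 (.ct 1 5 1 1 1 (.dc 2 3 0 (.lf 3 11
  224)) (.dc 2 3 1 (.lf 3 11 224))))) (.dc 0 6 0 (.ct 1 5 1 1 1 (.dc 2 3 0 (.lf 3 7 192)) (.dc 2
  3 1 (.lf 3 12 176))))) (.dc 0 6 0 (.ct 1 5 1 1 1 (.dc 2 3 0 (.lf 3 7 176)) (.dc 2 3 1 (.lf 3 12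
  160)))))) (.dc 2 3 1 (.dc 2 5 1 (.ct 3 4 1 1 1 (.ct 4 5 1 1 1 (.dc 0 6 0 (.lf 3 10 176)) (.dc 0
  6 1 (.lf 3 9 192))) (.dc 0 6 0 (.lf 3 10 176)))))))))

theorem dt462 : le (run cls4 4 tr462 [[2, 1, 1, 0, 0, 0, 0], [1, 1, 0, 0, 0, 0, 0], [3, 2, 2,
  0, 2, 2, 1], [2, 1, 1, 1, 1, 1, 1], [3, 2, 2, 0, 2, 1, 0], [2, 1, 1, 1, 2, 2, 1], [1, 0, 0, 0,
  1, 1, 1]] 281302104260543 [37, 121, 121, 169, 169, 169, 217]) 868848031607 = true := by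
  decide +kernel

end Pool.Agent.Work.MP_122e00_nt.Sharp.Cx

end

section

set_option autoImplicit false

set_option maxRecDepth 100000

/-!
# The certificate: data
-/

namespace Pool.Agent.Work.MP_122e00_nt.Sharp.Cx

/-- data -/
noncomputable def tr463 : Ct := (.ct 0 2 1 1 1 (.ct 4 6 1 1 1 (.dc 0 6 0 (.ct 1 4 1 1 1 (.dc 2
  3 0 (.ct 2 5 1 1 1 (.lf 2 6 192) (.lf 3 6 192))) (.ct 1 6 1 1 1 (.dc 2 3 0 (.ct 2 5 1 1 1 (.lf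
  2 6 192) (.lf 3 6 192))) (.ct 1 5 1 1 1 (.dc 2 3 0 (.ct 1 2 1 1 1 (.ct 2 5 1 1 1 (.lf 2 8 192)
  (.lf 3 7 192)) (.lf 2 7 208))) (.dc 2 3 1 (.ct 2 5 1 1 1 (.lf 2 11 208) (.lf 3 11 192)))))))
  (.dc 0 6 1 (.ct 1 6 1 1 1 (.dc 2 3 0 (.ct 2 5 1 1 1 (.lf 2 10 192) (.lf 3 11 192))) (.ct 1 5 1
  1 1 (.dc 2 3 0 (.ct 1 2 1 1 1 (.ct 2 5 1 1 1 (.lf 2 10 192) (.lf 3 10 192)) (.lf 2 9 208)))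
  (.dc 2 3 1 (.ct 2 5 1 1 1 (.lf 2 12 208) (.lf 3 11 192))))))) (.ct 1 5 1 1 1 (.dc 2 3 0 (.ct 4
  6 1 1 1 (.dc 0 6 0 (.lf 2 7 208)) (.dc 0 6 1 (.lf 2 8 208)))) (.ct 4 6 1 1 1 (.dc 0 6 0 (.ct 1
  4 1 1 1 (.dc 2 3 0 (.lf 2 6 208)) (.ct 1 6 1 1 1 (.dc 2 3 0 (.lf 2 7 208)) (.dc 2 3 1 (.lf 2 11
  208))))) (.dc 0 6 1 (.ct 1 6 1 1 1 (.dc 2 3 0 (.lf 2 8 208)) (.dc 2 3 1 (.lf 2 12 208)))))))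

theorem dt463 : le (run cls4 4 tr463 [[3, 2, 2, 1, 1, 1, 0], [1, 1, 0, 0, 0, 0, 0], [3, 2, 2,
  0, 2, 2, 1], [5, 3, 3, 1, 3, 2, 1], [3, 2, 2, 0, 2, 1, 0], [1, 1, 1, 1, 1, 1, 0], [2, 1, 1, 1,
  2, 2, 1]] 281440616972223 [65, 125, 125, 173, 185, 185, 245]) 1233217212889 = true := by
  decide +kernel

/-- data -/
noncomputable def tr464 : Ct := (.dc 0 6 0 (.ct 1 6 1 1 1 (.dc 2 3 0 (.ct 0 2 1 1 1 (.ct 2 5 1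
  1 1 (.lf 2 7 208) (.lf 3 7 208)) (.lf 2 9 208))) (.ct 0 2 1 1 1 (.ct 1 5 1 1 1 (.dc 2 3 0 (.ct
  1 2 1 1 1 (.ct 2 5 1 1 1 (.lf 2 9 208) (.lf 3 8 208)) (.lf 2 8 208))) (.dc 2 3 1 (.ct 2 5 1 1 1
  (.lf 2 12 208) (.lf 3 12 208)))) (.ct 1 5 1 1 1 (.dc 2 3 0 (.lf 2 9 208)) (.dc 2 3 1 (.lf 2 11
  208))))))

theorem dt464 : le (run cls4 4 tr464 [[3, 2, 2, 1, 1, 1, 0], [1, 1, 0, 0, 0, 0, 0], [3, 2, 2,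
  0, 2, 2, 1], [2, 1, 1, 1, 1, 1, 1], [5, 3, 3, 1, 3, 2, 1], [1, 1, 1, 1, 1, 1, 0], [2, 1, 1, 1,
  2, 2, 1]] 281440616972223 [65, 125, 125, 173, 185, 185, 245]) 2370194141982 = true := by
  decide +kernel

end Pool.Agent.Work.MP_122e00_nt.Sharp.Cx

end

section

set_option autoImplicit false

set_option maxRecDepth 100000

/-!
# The certificate: data
-/

namespace Pool.Agent.Work.MP_122e00_nt.Sharp.Cx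

/-- data -/
noncomputable def tr465 : Ct := (.ct 0 6 1 1 1 (.dc 2 5 0 (.ct 0 4 1 1 1 (.ct 3 4 1 1 1 (.ct 2
  5 1 1 1 (.ct 4 6 1 1 1 (.dc 0 6 0 (.ct 1 4 1 1 1 (.dc 2 3 0 (.lf 2 7 208)) (.ct 1 6 1 1 1 (.dc
  2 3 0 (.lf 2 7 208)) (.dc 2 3 1 (.lf 2 11 208))))) (.dc 0 6 1 (.ct 1 6 1 1 1 (.dc 2 3 0 (.lf 2
  8 208)) (.dc 2 3 1 (.lf 2 12 208))))) (.ct 4 6 1 1 1 (.dc 0 6 0 (.ct 1 4 1 1 1 (.dc 2 3 0 (.lf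
  3 5 208)) (.ct 1 6 1 1 1 (.dc 2 3 0 (.lf 3 6 208)) (.dc 2 3 1 (.lf 3 11 176))))) (.dc 0 6 1
  (.ct 1 6 1 1 1 (.dc 2 3 0 (.lf 3 10 208)) (.dc 2 3 1 (.lf 3 11 208)))))) (.dc 0 6 0 (.ct 1 6 1
  1 1 (.dc 2 3 0 (.ct 2 5 1 1 1 (.lf 2 8 208) (.lf 3 7 208))) (.dc 2 3 1 (.ct 2 5 1 1 1 (.lf 2 11
  208) (.lf 3 12 176)))))) (.dc 0 6 0 (.ct 1 6 1 1 1 (.dc 2 3 0 (.ct 2 5 1 1 1 (.lf 2 8 208) (.lf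
  3 7 208))) (.dc 2 3 1 (.ct 2 5 1 1 1 (.lf 2 11 208) (.lf 3 12 192))))))) (.dc 2 3 1 (.dc 2 5 1
  (.ct 3 4 1 1 1 (.ct 4 6 1 1 1 (.dc 0 6 0 (.ct 2 5 1 1 1 (.lf 2 10 224) (.lf 3 10 208))) (.dc 0
  6 1 (.ct 2 5 1 1 1 (.lf 2 10 208) (.lf 3 9 208)))) (.dc 0 6 0 (.ct 2 5 1 1 1 (.lf 2 9 224) (.lf
  3 10 208)))))))

theorem dt465 : le (run cls4 4 tr465 [[2, 1, 1, 0, 0, 0, 0], [1, 1, 0, 0, 0, 0, 0], [3, 2, 2,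
  0, 2, 2, 1], [2, 1, 1, 1, 1, 1, 1], [3, 2, 2, 0, 2, 1, 0], [3, 2, 2, 1, 1, 1, 0], [2, 1, 1, 1,
  2, 2, 1]] 281303178018751 [65, 125, 125, 173, 185, 185, 245]) 924201567920 = true := by
  decide +kernel

/-- data -/
noncomputable def tr466 : Ct := (.dc 0 14 1 (.dc 1 14 1 (.ct 2 3 1 1 1 (.dc 1 6 0 (.ct 0 5 1 1
  1 (.dc 2 5 0 (.ct 3 4 1 1 1 (.dc 0 6 1 (.ct 0 6 1 1 1 (.ct 1 5 1 1 1 (.dc 2 3 0 (.ct 1 6 1 1 1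
  (.ct 5 6 1 1 1 (.lf 3 10 208) (.lf 2 10 208)) (.lf 2 9 208))) (.dc 2 3 1 (.ct 5 6 1 1 1 (.lf 3
  11 208) (.lf 2 12 208)))) (.ct 1 5 1 1 1 (.dc 2 3 0 (.lf 2 8 208)) (.dc 2 3 1 (.lf 2 12
  208))))) (.dc 0 6 0 (.ct 0 6 1 1 1 (.ct 1 5 1 1 1 (.dc 2 3 0 (.ct 1 6 1 1 1 (.ct 5 6 1 1 1 (.lf
  3 7 208) (.lf 2 8 208)) (.lf 2 7 208))) (.dc 2 3 1 (.ct 5 6 1 1 1 (.lf 3 11 208) (.lf 2 11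
  208)))) (.ct 1 5 1 1 1 (.dc 2 3 0 (.lf 2 8 208)) (.dc 2 3 1 (.lf 2 11 208))))))) (.dc 2 3 1
  (.dc 2 5 1 (.ct 3 4 1 1 1 (.dc 0 6 1 (.ct 5 6 1 1 1 (.lf 3 9 208) (.lf 2 10 208))) (.dc 0 6 0
  (.ct 5 6 1 1 1 (.lf 3 10 192) (.lf 2 9 208)))))))) (.dc 0 6 1 (.dc 1 6 1 (.ct 0 5 1 1 1 (.dc 2
  5 0 (.ct 0 6 1 1 1 (.ct 1 5 1 1 1 (.dc 2 3 0 (.ct 1 6 1 1 1 (.ct 5 6 1 1 1 (.lf 3 10 208) (.lf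
  2 10 208)) (.lf 2 9 192))) (.dc 2 3 1 (.ct 5 6 1 1 1 (.lf 3 11 192) (.lf 2 11 192)))) (.ct 1 5
  1 1 1 (.dc 2 3 0 (.lf 2 8 192)) (.dc 2 3 1 (.lf 2 11 192))))) (.dc 2 3 1 (.dc 2 5 1 (.ct 5 6 1
  1 1 (.lf 3 9 192) (.lf 2 9 192))))))))))

theorem dt466 : le (run cls4 4 tr466 [[2, 1, 1, 0, 0, 0, 0], [1, 1, 0, 0, 0, 0, 0], [2, 2, 2,
  0, 1, 1, 0], [2, 1, 1, 1, 1, 1, 1], [3, 2, 2, 0, 2, 1, 0], [1, 1, 1, 1, 1, 1, 0], [3, 2, 2, 0,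
  2, 2, 1]] 281302100066239 [37, 121, 121, 169, 169, 169, 217]) 569492531385 = true := by
  decide +kernel

end Pool.Agent.Work.MP_122e00_nt.Sharp.Cx

end

section

set_option autoImplicit false

set_option maxRecDepth 100000

/-!
# The certificate: data
-/

namespace Pool.Agent.Work.MP_122e00_nt.Sharp.Cx

/-- data -/
noncomputable def tr467 : Ct := (.dc 0 1 0 (.dc 1 14 1 (.ct 1 4 1 1 1 (.dc 2 3 0 (.ct 2 6 1 1 1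
  (.dc 0 6 0 (.ct 2 3 1 1 1 (.lf 1 8 160) (.lf 2 8 176))) (.dc 0 6 1 (.ct 2 3 1 1 1 (.ct 3 6 1 1
  1 (.lf 2 7 176) (.lf 1 7 160)) (.lf 2 7 176))))) (.ct 1 5 1 1 1 (.dc 2 3 0 (.ct 2 6 1 1 1 (.dc
  0 6 0 (.ct 2 3 1 1 1 (.lf 1 8 160) (.lf 2 8 176))) (.dc 0 6 1 (.ct 2 3 1 1 1 (.ct 3 6 1 1 1
  (.lf 2 7 176) (.lf 1 6 160)) (.lf 2 6 176))))) (.dc 2 3 1 (.ct 2 6 1 1 1 (.dc 0 6 0 (.ct 2 3 1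
  1 1 (.lf 1 10 160) (.lf 2 11 176))) (.dc 0 6 1 (.ct 2 3 1 1 1 (.ct 3 6 1 1 1 (.lf 2 12 176)
  (.lf 1 12 160)) (.lf 2 11 176)))))))))

theorem dt467 : le (run cls4 4 tr467 [[4, 2, 2, 1, 2, 1, 0], [1, 1, 0, 0, 0, 0, 0], [3, 2, 2,
  0, 2, 1, 0], [2, 1, 1, 1, 1, 0, 0], [2, 1, 1, 1, 2, 1, 0], [1, 1, 1, 1, 1, 1, 0], [2, 1, 1, 1,
  1, 1, 1]] 281439543230397 [55, 151, 151, 175, 175, 211, 259]) 1062238213316 = true := by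
  decide +kernel

/-- data -/
noncomputable def tr468 : Ct := (.dc 2 3 0 (.ct 4 6 1 1 1 (.dc 0 1 0 (.ct 2 4 1 1 1 (.dc 0 6 0
  (.ct 2 3 1 1 1 (.lf 1 7 192) (.lf 2 8 192))) (.ct 3 4 1 1 1 (.ct 2 6 1 1 1 (.dc 0 6 0 (.lf 2 7
  208)) (.dc 0 6 1 (.lf 2 8 208))) (.ct 2 6 1 1 1 (.dc 0 6 0 (.ct 2 3 1 1 1 (.lf 1 7 192) (.lf 2
  7 208))) (.dc 0 6 1 (.ct 2 3 1 1 1 (.ct 3 6 1 1 1 (.lf 2 8 208) (.lf 1 7 192)) (.lf 2 7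
  208))))))) (.dc 0 1 1 (.ct 2 6 1 1 1 (.dc 0 6 0 (.ct 2 3 1 1 1 (.lf 1 12 192) (.lf 2 12 192)))
  (.dc 0 6 1 (.ct 2 3 1 1 1 (.ct 3 6 1 1 1 (.lf 2 12 208) (.lf 1 11 192)) (.lf 2 12 176)))))))

theorem dt468 : le (run cls4 4 tr468 [[4, 2, 2, 1, 2, 1, 0], [3, 2, 1, 1, 2, 1, 0], [3, 2, 2,
  0, 2, 1, 0], [2, 1, 1, 1, 1, 0, 0], [1, 0, 0, 0, 1, 0, 0], [2, 1, 1, 1, 2, 1, 0], [2, 1, 1, 1,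
  1, 1, 1]] 281440616972221 [55, 151, 151, 175, 175, 211, 259]) 643864725559 = true := by
  decide +kernel

end Pool.Agent.Work.MP_122e00_nt.Sharp.Cx

end

section

set_option autoImplicit false

set_option maxRecDepth 100000

/-!
# The certificate: data
-/

namespace Pool.Agent.Work.MP_122e00_nt.Sharp.Cx

/-- data -/
noncomputable def tr469 : Ct := (.dc 2 3 1 (.ct 4 6 1 1 1 (.dc 0 1 0 (.ct 2 4 1 1 1 (.dc 0 6 0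
  (.ct 2 3 1 1 1 (.lf 1 10 192) (.lf 2 11 192))) (.ct 3 4 1 1 1 (.ct 2 6 1 1 1 (.dc 0 6 0 (.lf 2
  11 208)) (.dc 0 6 1 (.lf 2 11 192))) (.ct 2 6 1 1 1 (.dc 0 6 0 (.ct 2 3 1 1 1 (.lf 1 10 192)
  (.lf 2 11 208))) (.dc 0 6 1 (.ct 2 3 1 1 1 (.ct 3 6 1 1 1 (.lf 2 11 208) (.lf 1 12 192)) (.lf 2
  11 208))))))) (.dc 0 1 1 (.ct 2 6 1 1 1 (.dc 0 6 0 (.ct 2 3 1 1 1 (.lf 1 9 176) (.lf 2 10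
  192))) (.dc 0 6 1 (.ct 2 3 1 1 1 (.ct 3 6 1 1 1 (.lf 2 10 208) (.lf 1 10 192)) (.lf 2 10
  176)))))))

theorem dt469 : le (run cls4 4 tr469 [[4, 2, 2, 1, 2, 1, 0], [1, 1, 0, 0, 0, 0, 0], [3, 2, 2,
  0, 2, 1, 0], [2, 1, 1, 1, 1, 0, 0], [1, 0, 0, 0, 1, 0, 0], [3, 2, 1, 1, 2, 1, 0], [2, 1, 1, 1,
  1, 1, 1]] 281440616972221 [55, 151, 151, 175, 175, 211, 259]) 357072363503 = true := by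
  decide +kernel

/-- data -/
noncomputable def tr470 : Ct := (.dc 0 1 0 (.dc 1 14 1 (.ct 1 5 1 1 1 (.dc 2 3 0 (.ct 2 6 1 1 1
  (.dc 0 6 0 (.ct 2 3 1 1 1 (.lf 1 7 160) (.lf 2 8 176))) (.dc 0 6 1 (.ct 2 3 1 1 1 (.ct 3 6 1 1
  1 (.lf 2 6 176) (.lf 1 6 160)) (.lf 2 6 176))))) (.dc 2 3 1 (.ct 2 6 1 1 1 (.dc 0 6 0 (.ct 2 3
  1 1 1 (.lf 1 10 160) (.lf 2 11 176))) (.dc 0 6 1 (.ct 2 3 1 1 1 (.ct 3 6 1 1 1 (.lf 2 11 176)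
  (.lf 1 12 160)) (.lf 2 11 176))))))))

theorem dt470 : le (run cls4 4 tr470 [[3, 2, 2, 1, 1, 1, 0], [1, 1, 0, 0, 0, 0, 0], [3, 2, 2,
  0, 2, 1, 0], [2, 1, 1, 1, 1, 0, 0], [4, 2, 2, 1, 2, 1, 0], [1, 1, 1, 1, 1, 1, 0], [2, 1, 1, 1,
  1, 1, 1]] 281439543230397 [55, 151, 151, 175, 175, 211, 259]) 1085445389512 = true := by
  decide +kernel

end Pool.Agent.Work.MP_122e00_nt.Sharp.Cx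

end

section

set_option autoImplicit false

set_option maxRecDepth 100000

/-!
# The certificate: data
-/

namespace Pool.Agent.Work.MP_122e00_nt.Sharp.Cx

/-- data -/
noncomputable def tr471 : Ct := (.dc 2 3 1 (.dc 2 5 1 (.ct 4 5 1 1 1 (.dc 0 1 0 (.dc 1 14 1
  (.ct 2 6 1 1 1 (.dc 0 6 0 (.ct 2 3 1 1 1 (.lf 1 8 160) (.lf 2 9 176))) (.dc 0 6 1 (.ct 2 3 1 1
  1 (.ct 3 6 1 1 1 (.lf 2 9 176) (.lf 1 10 160)) (.lf 2 9 176)))))) (.dc 1 14 0 (.ct 4 6 1 1 1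
  (.dc 0 1 0 (.ct 2 4 1 1 1 (.dc 0 6 0 (.ct 2 3 1 1 1 (.lf 1 9 192) (.lf 2 9 192))) (.ct 3 4 1 1
  1 (.ct 2 6 1 1 1 (.dc 0 6 0 (.lf 2 9 208)) (.dc 0 6 1 (.lf 2 10 192))) (.ct 2 6 1 1 1 (.dc 0 6
  0 (.ct 2 3 1 1 1 (.lf 1 9 176) (.lf 2 9 192))) (.dc 0 6 1 (.ct 2 3 1 1 1 (.ct 3 6 1 1 1 (.lf 2
  10 192) (.lf 1 10 176)) (.lf 2 9 224))))))) (.dc 0 1 1 (.ct 2 6 1 1 1 (.dc 0 6 0 (.ct 2 3 1 1 1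
  (.lf 1 8 176) (.lf 2 8 192))) (.dc 0 6 1 (.ct 2 3 1 1 1 (.ct 3 6 1 1 1 (.lf 2 8 208) (.lf 1 8
  176)) (.lf 2 8 176))))))))))

theorem dt471 : le (run cls4 4 tr471 [[2, 1, 1, 0, 0, 0, 0], [1, 1, 0, 0, 0, 0, 0], [3, 2, 2,
  0, 2, 1, 0], [2, 1, 1, 1, 1, 0, 0], [1, 0, 0, 0, 1, 0, 0], [3, 2, 2, 1, 1, 1, 0], [2, 1, 1, 1,
  1, 1, 1]] 281302104276925 [55, 151, 151, 175, 175, 211, 259]) 225275821227 = true := by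
  decide +kernel

/-- data -/
noncomputable def tr472 : Ct := (.dc 2 14 1 (.ct 0 5 1 1 1 (.dc 2 5 0 (.ct 1 5 1 1 1 (.dc 2 3 0
  (.ct 2 6 1 1 1 (.dc 0 6 0 (.ct 2 3 1 1 1 (.lf 0 7 176) (.lf 1 8 224))) (.dc 0 6 1 (.ct 2 3 1 1
  1 (.ct 3 6 1 1 1 (.lf 1 7 240) (.lf 0 6 192)) (.lf 1 6 224))))) (.dc 2 3 1 (.ct 2 6 1 1 1 (.dc
  0 6 0 (.ct 2 3 1 1 1 (.lf 0 10 192) (.lf 1 10 224))) (.dc 0 6 1 (.ct 2 3 1 1 1 (.ct 3 6 1 1 1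
  (.lf 1 12 240) (.lf 0 11 192)) (.lf 1 11 224))))))) (.dc 2 3 1 (.dc 2 5 1 (.ct 2 6 1 1 1 (.dc 0
  6 0 (.ct 2 3 1 1 1 (.lf 0 8 192) (.lf 1 9 224))) (.dc 0 6 1 (.ct 2 3 1 1 1 (.ct 3 6 1 1 1 (.lf
  1 10 224) (.lf 0 10 192)) (.lf 1 9 224))))))))

theorem dt472 : le (run cls4 4 tr472 [[2, 1, 1, 0, 0, 0, 0], [1, 1, 0, 0, 0, 0, 0], [4, 3, 3,
  1, 2, 1, 0], [1, 1, 1, 1, 0, 0, 0], [2, 1, 1, 1, 1, 0, 0], [1, 1, 1, 1, 1, 1, 0], [2, 1, 1, 1,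
  1, 1, 1]] 210934433841087 [69, 153, 153, 177, 189, 213, 273]) 333545837865 = true := by
  decide +kernel

end Pool.Agent.Work.MP_122e00_nt.Sharp.Cx

end
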