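import Pool.Agent.Work.MP_122e00_nt.Bd.B03

/-! Bundle of small proof modules (one section per former module). -/

section

set_option autoImplicit false

set_option maxRecDepth 100000

/-!
# The certificate: data
-/

namespace Pool.Agent.Work.MP_122e00_nt.Sharp.Cx

/-- data -/
noncomputable def tr473 : Ct := (.dc 2 14 0 (.ct 0 5 1 1 1 (.dc 2 5 0 (.ct 3 6 1 1 1 (.ct 1 5 1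
  1 1 (.dc 2 3 0 (.ct 2 6 1 1 1 (.dc 0 6 0 (.ct 2 4 1 1 1 (.lf 1 8 192) (.lf 2 8 208))) (.dc 0 6
  1 (.ct 2 4 1 1 1 (.ct 4 6 1 1 1 (.lf 2 7 208) (.lf 1 7 192)) (.lf 2 7 208))))) (.dc 2 3 1 (.ct
  2 6 1 1 1 (.dc 0 6 0 (.ct 2 4 1 1 1 (.lf 1 10 192) (.lf 2 11 208))) (.dc 0 6 1 (.ct 2 4 1 1 1
  (.ct 4 6 1 1 1 (.lf 2 12 208) (.lf 1 12 192)) (.lf 2 12 208)))))) (.dc 0 6 1 (.ct 1 5 1 1 1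
  (.dc 2 3 0 (.ct 2 4 1 1 1 (.lf 1 6 224) (.lf 2 6 224))) (.dc 2 3 1 (.ct 2 4 1 1 1 (.lf 1 11
  224) (.lf 2 12 208))))))) (.dc 2 3 1 (.dc 2 5 1 (.ct 3 6 1 1 1 (.ct 2 6 1 1 1 (.dc 0 6 0 (.ct 2
  4 1 1 1 (.lf 1 9 192) (.lf 2 9 208))) (.dc 0 6 1 (.ct 2 4 1 1 1 (.ct 4 6 1 1 1 (.lf 2 10 208)
  (.lf 1 10 192)) (.lf 2 9 208)))) (.dc 0 6 1 (.ct 2 4 1 1 1 (.lf 1 9 224) (.lf 2 9 208))))))))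

theorem dt473 : le (run cls4 4 tr473 [[2, 1, 1, 0, 0, 0, 0], [1, 1, 0, 0, 0, 0, 0], [3, 2, 2,
  0, 2, 1, 0], [4, 3, 3, 1, 2, 1, 0], [2, 1, 1, 1, 1, 0, 0], [1, 1, 1, 1, 1, 1, 0], [2, 1, 1, 1,
  1, 1, 1]] 210934433841087 [69, 153, 153, 177, 189, 213, 273]) 454201415511 = true := by
  decide +kernel

/-- data -/
noncomputable def tr474 : Ct := (.dc 2 14 0 (.ct 2 6 1 1 1 (.dc 1 6 0 (.ct 0 5 1 1 1 (.dc 2 5 0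
  (.ct 3 6 1 1 1 (.ct 4 6 1 1 1 (.dc 0 6 0 (.ct 1 5 1 1 1 (.dc 2 3 0 (.lf 2 8 208)) (.dc 2 3 1
  (.lf 2 11 208)))) (.dc 0 6 1 (.ct 1 5 1 1 1 (.dc 2 3 0 (.lf 2 8 208)) (.dc 2 3 1 (.lf 2 12
  208))))) (.dc 0 6 1 (.ct 1 5 1 1 1 (.dc 2 3 0 (.lf 2 7 224)) (.dc 2 3 1 (.lf 2 11 208))))))
  (.dc 2 3 1 (.dc 2 5 1 (.ct 3 6 1 1 1 (.ct 4 6 1 1 1 (.dc 0 6 0 (.lf 2 9 208)) (.dc 0 6 1 (.lf 2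
  10 208))) (.dc 0 6 1 (.lf 2 9 208))))))) (.dc 0 6 1 (.dc 1 6 1 (.ct 0 5 1 1 1 (.dc 2 5 0 (.ct 1
  5 1 1 1 (.dc 2 3 0 (.lf 2 7 192)) (.dc 2 3 1 (.lf 2 11 176)))) (.dc 2 3 1 (.dc 2 5 1 (.lf 2 9
  176))))))))

theorem dt474 : le (run cls4 4 tr474 [[2, 1, 1, 0, 0, 0, 0], [1, 1, 0, 0, 0, 0, 0], [2, 2, 2,
  0, 1, 1, 0], [4, 3, 3, 1, 2, 1, 0], [3, 2, 2, 0, 2, 1, 0], [1, 1, 1, 1, 1, 1, 0], [2, 1, 1, 1,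
  1, 1, 1]] 210934429646783 [65, 125, 125, 173, 185, 185, 245]) 675802146425 = true := by
  decide +kernel

end Pool.Agent.Work.MP_122e00_nt.Sharp.Cx

end

section

set_option autoImplicit false

set_option maxRecDepth 100000

/-!
# The certificate: data
-/

namespace Pool.Agent.Work.MP_122e00_nt.Sharp.Cx

/-- data -/
noncomputable def tr475 : Ct := (.dc 2 5 0 (.ct 2 6 1 1 1 (.dc 1 6 0 (.ct 2 3 1 1 1 (.ct 1 5 1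
  1 1 (.dc 2 3 0 (.ct 4 6 1 1 1 (.dc 0 6 0 (.ct 3 4 1 1 1 (.lf 1 8 224) (.lf 0 8 176))) (.dc 0 6
  1 (.ct 3 4 1 1 1 (.lf 1 6 224) (.ct 3 6 1 1 1 (.lf 1 7 240) (.lf 0 7 192)))))) (.dc 2 3 1 (.ct
  4 6 1 1 1 (.dc 0 6 0 (.ct 3 4 1 1 1 (.lf 1 11 208) (.lf 0 10 176))) (.dc 0 6 1 (.ct 3 4 1 1 1
  (.lf 1 12 224) (.ct 3 6 1 1 1 (.lf 1 12 240) (.lf 0 12 192))))))) (.ct 4 6 1 1 1 (.dc 0 6 0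
  (.ct 1 5 1 1 1 (.dc 2 3 0 (.lf 2 8 192)) (.dc 2 3 1 (.lf 2 11 192)))) (.dc 0 6 1 (.ct 1 5 1 1 1
  (.dc 2 3 0 (.lf 2 7 224)) (.dc 2 3 1 (.lf 2 12 208))))))) (.dc 0 6 1 (.dc 1 6 1 (.ct 2 3 1 1 1
  (.ct 3 6 1 1 1 (.ct 1 5 1 1 1 (.dc 2 3 0 (.lf 2 7 192)) (.dc 2 3 1 (.lf 2 11 192))) (.ct 1 5 1
  1 1 (.dc 2 3 0 (.ct 3 4 1 1 1 (.lf 1 6 192) (.lf 0 6 160))) (.dc 2 3 1 (.ct 3 4 1 1 1 (.lf 1 11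
  192) (.lf 0 11 160))))) (.ct 1 5 1 1 1 (.dc 2 3 0 (.lf 2 6 192)) (.dc 2 3 1 (.lf 2 11
  192))))))))

theorem dt475 : le (run cls4 4 tr475 [[3, 2, 2, 1, 1, 1, 0], [1, 1, 0, 0, 0, 0, 0], [2, 2, 2,
  0, 1, 1, 0], [1, 1, 1, 1, 0, 0, 0], [4, 3, 3, 1, 2, 1, 0], [1, 1, 1, 1, 1, 1, 0], [2, 1, 1, 1,
  1, 1, 1]] 281303173824447 [79, 127, 127, 175, 199, 199, 247]) 1008690901933 = true := by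
  decide +kernel

/-- data -/
noncomputable def tr476 : Ct := (.dc 2 3 1 (.dc 2 5 1 (.ct 2 6 1 1 1 (.dc 1 6 0 (.ct 2 3 1 1 1
  (.ct 4 6 1 1 1 (.dc 0 6 0 (.ct 3 4 1 1 1 (.lf 1 9 208) (.lf 0 9 176))) (.dc 0 6 1 (.ct 3 4 1 1
  1 (.lf 1 10 224) (.ct 3 6 1 1 1 (.lf 1 10 224) (.lf 0 10 192))))) (.ct 4 6 1 1 1 (.dc 0 6 0
  (.lf 2 9 192)) (.dc 0 6 1 (.lf 2 10 208))))) (.dc 0 6 1 (.dc 1 6 1 (.ct 2 3 1 1 1 (.ct 3 6 1 1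
  1 (.lf 2 9 192) (.ct 3 4 1 1 1 (.lf 1 9 192) (.lf 0 9 160))) (.lf 2 9 192)))))))

theorem dt476 : le (run cls4 4 tr476 [[2, 1, 1, 0, 0, 0, 0], [1, 1, 0, 0, 0, 0, 0], [2, 2, 2,
  0, 1, 1, 0], [1, 1, 1, 1, 0, 0, 0], [4, 3, 3, 1, 2, 1, 0], [3, 2, 2, 1, 1, 1, 0], [2, 1, 1, 1,
  1, 1, 1]] 281303173824447 [79, 127, 127, 175, 199, 199, 247]) 376222372699 = true := by
  decide +kernel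

/-- data -/
noncomputable def tr477 : Ct := (.dc 2 14 0 (.ct 5 6 1 1 1 (.dc 1 6 0 (.dc 1 14 0 (.ct 4 5 1 1
  1 (.dc 0 1 0 (.dc 0 9 0 (.ct 2 6 1 1 1 (.dc 0 6 0 (.dc 0 14 0 (.lf 3 8 160))) (.dc 0 14 1 (.ct
  2 3 1 1 1 (.dc 0 6 0 (.lf 3 9 176)) (.dc 0 6 1 (.lf 3 8 176))))))) (.dc 0 9 1 (.ct 2 6 1 1 1
  (.dc 0 6 0 (.dc 0 14 0 (.ct 3 4 1 1 1 (.dc 0 1 1 (.lf 3 6 176)) (.dc 0 1 0 (.lf 3 8 192)))))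
  (.dc 0 14 1 (.ct 3 4 1 1 1 (.dc 0 1 1 (.ct 2 3 1 1 1 (.dc 0 6 0 (.lf 3 8 192)) (.dc 0 6 1 (.lf
  3 6 176)))) (.dc 0 1 0 (.ct 2 3 1 1 1 (.dc 0 6 0 (.lf 3 9 192)) (.ct 2 4 1 1 1 (.dc 0 6 0 (.lf
  3 9 208)) (.dc 0 6 1 (.lf 3 8 192)))))))))))) (.dc 0 14 1 (.ct 4 5 1 1 1 (.dc 0 1 0 (.dc 0 9 0
  (.dc 1 14 1 (.ct 3 5 1 1 1 (.dc 0 6 1 (.dc 1 6 1 (.lf 3 8 176))) (.dc 1 6 0 (.ct 2 3 1 1 1 (.ct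
  3 4 1 1 1 (.dc 0 6 1 (.lf 3 9 176)) (.dc 0 6 0 (.lf 3 9 160))) (.dc 0 6 1 (.lf 3 8 160))))))))
  (.dc 1 6 0 (.dc 1 14 0 (.ct 4 6 1 1 1 (.dc 0 1 0 (.dc 0 9 0 (.ct 2 3 1 1 1 (.ct 3 5 1 1 1 (.dc
  0 6 1 (.lf 3 9 208)) (.dc 0 6 0 (.lf 3 9 192))) (.dc 0 6 1 (.lf 3 8 192))))) (.dc 0 9 1 (.ct 2
  3 1 1 1 (.ct 2 4 1 1 1 (.ct 3 4 1 1 1 (.dc 0 1 1 (.ct 3 5 1 1 1 (.dc 0 6 1 (.lf 3 7 192)) (.dc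
  0 6 0 (.lf 3 8 192)))) (.dc 0 1 0 (.ct 3 5 1 1 1 (.ct 4 5 1 1 1 (.dc 0 6 1 (.lf 3 9 192)) (.dc
  0 6 0 (.lf 3 10 192))) (.dc 0 6 0 (.lf 3 9 192))))) (.dc 0 1 0 (.ct 3 5 1 1 1 (.dc 0 6 1 (.lf 3
  9 208)) (.dc 0 6 0 (.lf 3 9 192))))) (.dc 0 6 1 (.ct 3 4 1 1 1 (.dc 0 1 1 (.lf 3 6 192)) (.dc 0
  1 0 (.lf 3 8 208)))))))))))))

theorem dt477 : le (run cls4 4 tr477 [[2, 1, 1, 0, 0, 0, 0], [1, 1, 0, 0, 0, 0, 0], [3, 2, 2,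
  0, 1, 0, 0], [2, 1, 1, 1, 1, 1, 1], [1, 0, 0, 0, 1, 0, 0], [2, 2, 2, 0, 1, 1, 0], [1, 0, 0, 0,
  1, 1, 1]] 211105154579901 [45, 153, 153, 225, 225, 225, 225]) 181452854723 = true := by
  decide +kernel

end Pool.Agent.Work.MP_122e00_nt.Sharp.Cx

end

section

set_option autoImplicit false

set_option maxRecDepth 100000

/-!
# The certificate: data
-/

namespace Pool.Agent.Work.MP_122e00_nt.Sharp.Cx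

/-- data -/
noncomputable def tr478 : Ct := (.dc 0 1 0 (.dc 1 14 1 (.ct 3 5 1 1 1 (.dc 0 9 0 (.ct 5 6 1 1 1
  (.dc 1 6 0 (.ct 2 6 1 1 1 (.ct 3 6 1 1 1 (.ct 4 6 1 1 1 (.dc 0 6 0 (.lf 2 9 192)) (.dc 0 6 1
  (.lf 2 10 208))) (.dc 0 6 1 (.lf 2 9 208))) (.dc 0 6 1 (.lf 2 8 176)))) (.dc 0 6 1 (.dc 1 6 1
  (.lf 2 8 176))))) (.dc 0 9 1 (.dc 1 6 0 (.ct 2 6 1 1 1 (.ct 5 6 1 1 1 (.ct 4 6 1 1 1 (.dc 0 6 0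
  (.ct 3 4 1 1 1 (.lf 2 9 192) (.lf 1 9 176))) (.dc 0 6 1 (.ct 3 4 1 1 1 (.lf 2 9 208) (.ct 3 6 1
  1 1 (.lf 2 10 192) (.lf 1 10 176))))) (.dc 0 6 1 (.ct 3 4 1 1 1 (.lf 2 9 208) (.lf 1 9 208))))
  (.dc 0 6 1 (.ct 3 4 1 1 1 (.lf 2 9 176) (.lf 1 9 176)))))))))

theorem dt478 : le (run cls4 4 tr478 [[2, 1, 1, 0, 0, 0, 0], [1, 1, 0, 0, 0, 0, 0], [3, 2, 2,
  0, 1, 0, 0], [2, 1, 1, 1, 1, 0, 0], [3, 2, 2, 0, 2, 1, 0], [2, 2, 2, 0, 1, 1, 0], [2, 1, 1, 1,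
  1, 1, 1]] 281473898773949 [59, 155, 155, 227, 227, 239, 239]) 230823240347 = true := by
  decide +kernel

/-- data -/
noncomputable def tr479 : Ct := (.dc 0 9 1 (.dc 1 6 0 (.dc 1 14 0 (.ct 2 6 1 1 1 (.ct 2 4 1 1 1
  (.ct 4 6 1 1 1 (.dc 0 1 0 (.ct 4 5 1 1 1 (.ct 3 4 1 1 1 (.ct 5 6 1 1 1 (.dc 0 6 0 (.lf 2 9
  208)) (.dc 0 6 1 (.lf 2 10 192))) (.ct 5 6 1 1 1 (.dc 0 6 0 (.ct 3 5 1 1 1 (.lf 2 9 192) (.lf 1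
  9 176))) (.dc 0 6 1 (.ct 3 5 1 1 1 (.lf 2 9 224) (.ct 3 6 1 1 1 (.lf 2 10 192) (.lf 1 10
  192)))))) (.dc 0 6 0 (.ct 3 5 1 1 1 (.lf 2 9 208) (.lf 1 9 208))))) (.dc 0 1 1 (.ct 5 6 1 1 1
  (.dc 0 6 0 (.ct 3 5 1 1 1 (.lf 2 8 192) (.lf 1 8 192))) (.dc 0 6 1 (.ct 3 5 1 1 1 (.lf 2 8 176)
  (.ct 3 6 1 1 1 (.lf 2 8 224) (.lf 1 8 192))))))) (.dc 0 1 0 (.ct 5 6 1 1 1 (.dc 0 6 0 (.ct 3 5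
  1 1 1 (.lf 2 9 160) (.lf 1 8 160))) (.dc 0 6 1 (.ct 3 5 1 1 1 (.lf 2 9 176) (.ct 3 6 1 1 1 (.lf
  2 10 160) (.lf 1 10 160))))))) (.dc 0 6 1 (.ct 4 6 1 1 1 (.dc 0 1 0 (.ct 3 5 1 1 1 (.lf 2 9
  176) (.lf 1 9 160))) (.dc 0 1 1 (.ct 3 5 1 1 1 (.lf 2 8 176) (.lf 1 8 160)))))))))

theorem dt479 : le (run cls4 4 tr479 [[2, 1, 1, 0, 0, 0, 0], [1, 1, 0, 0, 0, 0, 0], [3, 2, 2,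
  0, 1, 0, 0], [2, 1, 1, 1, 1, 0, 0], [1, 0, 0, 0, 1, 0, 0], [3, 2, 2, 0, 2, 1, 0], [2, 1, 1, 1,
  1, 1, 1]] 281473898773949 [59, 155, 155, 227, 227, 239, 239]) 161794940506 = true := by
  decide +kernel

end Pool.Agent.Work.MP_122e00_nt.Sharp.Cx

end

section

set_option autoImplicit false

set_option maxRecDepth 100000

/-!
# The certificate: data
-/

namespace Pool.Agent.Work.MP_122e00_nt.Sharp.Cx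

/-- data -/
noncomputable def tr480 : Ct := (.dc 0 9 0 (.ct 5 6 1 1 1 (.dc 1 6 0 (.ct 3 5 1 1 1 (.ct 2 6 1
  1 1 (.ct 4 6 1 1 1 (.dc 0 6 0 (.lf 2 9 192)) (.dc 0 6 1 (.lf 2 10 208))) (.dc 0 6 1 (.lf 2 9
  176))) (.ct 2 6 1 1 1 (.ct 2 3 1 1 1 (.ct 4 6 1 1 1 (.dc 0 6 0 (.ct 3 4 1 1 1 (.lf 1 9 208)
  (.lf 0 9 176))) (.dc 0 6 1 (.ct 3 4 1 1 1 (.lf 1 10 224) (.ct 3 6 1 1 1 (.lf 1 10 224) (.lf 0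
  10 192))))) (.ct 4 6 1 1 1 (.dc 0 6 0 (.lf 1 9 176)) (.dc 0 6 1 (.lf 1 10 208)))) (.dc 0 6 1
  (.ct 2 3 1 1 1 (.ct 3 4 1 1 1 (.lf 1 9 208) (.ct 3 6 1 1 1 (.lf 1 9 176) (.lf 0 9 160))) (.lf 1
  8 192)))))) (.dc 0 6 1 (.dc 1 6 1 (.ct 3 5 1 1 1 (.lf 2 8 176) (.ct 3 6 1 1 1 (.lf 2 9 192)
  (.ct 2 3 1 1 1 (.ct 3 4 1 1 1 (.lf 1 9 192) (.lf 0 9 160)) (.lf 1 8 176))))))))

theorem dt480 : le (run cls4 4 tr480 [[2, 1, 1, 0, 0, 0, 0], [1, 1, 0, 0, 0, 0, 0], [3, 2, 2,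
  0, 1, 0, 0], [1, 1, 1, 1, 0, 0, 0], [4, 3, 3, 1, 2, 1, 0], [2, 2, 2, 0, 1, 1, 0], [2, 1, 1, 1,
  1, 1, 1]] 281474972515775 [87, 159, 159, 231, 255, 255, 255]) 279133046388 = true := by
  decide +kernel

/-- data -/
noncomputable def tr481 : Ct := (.dc 0 9 1 (.dc 1 6 0 (.ct 2 6 1 1 1 (.ct 2 3 1 1 1 (.ct 5 6 1
  1 1 (.dc 0 6 0 (.ct 3 5 1 1 1 (.lf 1 9 224) (.lf 0 8 192))) (.dc 0 6 1 (.ct 3 5 1 1 1 (.lf 1 9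
  224) (.ct 3 6 1 1 1 (.lf 1 10 224) (.lf 0 10 192))))) (.ct 5 6 1 1 1 (.dc 0 6 0 (.lf 1 9 192))
  (.dc 0 6 1 (.lf 1 10 224)))) (.dc 0 6 1 (.ct 2 3 1 1 1 (.ct 3 5 1 1 1 (.lf 1 10 192) (.ct 3 6 1
  1 1 (.lf 1 10 176) (.lf 0 10 160))) (.lf 1 9 176))))))

theorem dt481 : le (run cls4 4 tr481 [[2, 1, 1, 0, 0, 0, 0], [1, 1, 0, 0, 0, 0, 0], [3, 2, 2,
  0, 1, 0, 0], [1, 1, 1, 1, 0, 0, 0], [2, 1, 1, 1, 1, 0, 0], [4, 3, 3, 1, 2, 1, 0], [2, 1, 1, 1,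
  1, 1, 1]] 281474972515775 [87, 159, 159, 231, 255, 255, 255]) 104235323085 = true := by
  decide +kernel

end Pool.Agent.Work.MP_122e00_nt.Sharp.Cx

end

section

set_option autoImplicit false

set_option maxRecDepth 100000

/-!
# The certificate: data
-/

namespace Pool.Agent.Work.MP_122e00_nt.Sharp.Cx

/-- data -/
noncomputable def tr482 : Ct := (.dc 0 1 0 (.dc 0 9 0 (.ct 2 6 2 1 1 (.dc 2 6 0 (.ct 3 6 1 1 1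
  (.dc 2 14 0 (.ct 5 6 1 1 1 (.dc 1 6 0 (.dc 1 14 0 (.ct 4 6 1 1 1 (.dc 0 6 0 (.dc 0 14 0 (.lf 3
  8 160))) (.dc 0 14 1 (.ct 3 4 1 1 1 (.dc 0 6 1 (.lf 3 8 160)) (.dc 0 6 0 (.lf 3 9 160)))))))
  (.dc 0 14 1 (.dc 1 14 1 (.ct 3 5 1 1 1 (.dc 0 6 1 (.dc 1 6 1 (.lf 3 8 176))) (.dc 1 6 0 (.ct 3
  4 1 1 1 (.dc 0 6 1 (.lf 3 8 160)) (.dc 0 6 0 (.lf 3 9 160))))))))) (.dc 0 14 1 (.dc 1 14 1 (.dc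
  2 14 1 (.ct 2 3 1 1 1 (.ct 5 6 1 1 1 (.dc 1 6 0 (.ct 3 5 1 1 1 (.ct 4 6 1 1 1 (.dc 0 6 0 (.lf 2
  9 176)) (.dc 0 6 1 (.lf 2 9 176))) (.ct 4 6 1 1 1 (.dc 0 6 0 (.ct 3 4 1 1 1 (.lf 1 9 176) (.lf
  0 9 160))) (.dc 0 6 1 (.ct 3 4 1 1 1 (.lf 1 8 192) (.ct 3 6 1 1 1 (.lf 1 9 192) (.lf 0 9
  160))))))) (.dc 0 6 1 (.dc 1 6 1 (.ct 3 5 1 1 1 (.lf 2 8 176) (.ct 3 6 1 1 1 (.lf 2 9 192) (.ct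
  3 4 1 1 1 (.lf 1 8 176) (.lf 0 9 160))))))) (.ct 5 6 1 1 1 (.dc 1 6 0 (.ct 4 6 1 1 1 (.dc 0 6 0
  (.lf 3 9 176)) (.dc 0 6 1 (.lf 3 8 176)))) (.dc 0 6 1 (.dc 1 6 1 (.lf 3 8 176)))))))))) (.dc 0
  6 1 (.dc 0 14 1 (.dc 1 6 1 (.dc 1 14 1 (.dc 2 6 1 (.dc 2 14 1 (.ct 3 6 1 1 1 (.lf 3 7 192) (.ct
  3 5 1 1 1 (.lf 2 7 160) (.ct 3 4 1 1 1 (.lf 1 7 160) (.lf 0 8 144)))))))))))))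

theorem dt482 : le (run cls4 4 tr482 [[2, 1, 1, 0, 0, 0, 0], [1, 1, 0, 0, 0, 0, 0], [1, 1, 1,
  0, 0, 0, 0], [1, 1, 1, 1, 0, 0, 0], [3, 2, 2, 0, 1, 0, 0], [2, 2, 2, 0, 1, 1, 0], [1, 0, 0, 0,
  1, 1, 1]] 210830276672957 [45, 153, 153, 225, 225, 225, 225]) 311862681765 = true := by
  decide +kernel

/-- data -/
noncomputable def tr483 : Ct := (.dc 0 14 0 (.dc 1 14 0 (.ct 2 5 1 1 1 (.dc 2 7 0 (.ct 3 4 1 1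
  1 (.dc 0 1 1 (.ct 3 5 1 1 1 (.ct 0 5 1 1 1 (.dc 2 15 0 (.ct 0 6 1 1 1 (.lf 3 11 160) (.lf 2 10
  176))) (.dc 2 15 1 (.ct 0 6 1 1 1 (.ct 5 6 1 1 1 (.lf 3 10 160) (.lf 2 12 176)) (.lf 2 12
  192)))) (.dc 2 15 1 (.ct 0 6 1 1 1 (.lf 3 11 160) (.lf 2 12 192))))) (.dc 0 1 0 (.ct 3 5 1 1 1
  (.ct 4 5 1 1 1 (.ct 0 5 1 1 1 (.dc 2 15 0 (.ct 0 6 1 1 1 (.lf 3 7 176) (.lf 2 5 176))) (.dc 2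
  15 1 (.ct 0 6 1 1 1 (.ct 5 6 1 1 1 (.lf 3 6 176) (.lf 2 6 176)) (.lf 2 7 176)))) (.dc 2 15 1
  (.ct 0 6 1 1 1 (.lf 3 6 160) (.lf 2 7 176)))) (.dc 2 15 1 (.ct 0 6 1 1 1 (.lf 3 7 176) (.lf 2 8
  176))))))) (.dc 2 7 1 (.dc 2 15 1 (.ct 3 4 1 1 1 (.dc 0 1 1 (.ct 0 6 1 1 1 (.lf 3 10 160) (.lf
  2 12 192))) (.dc 0 1 0 (.ct 0 6 1 1 1 (.lf 3 8 176) (.lf 2 8 176)))))))))

theorem dt483 : le (run cls4 4 tr483 [[3, 1, 1, 1, 2, 2, 0], [1, 1, 0, 0, 1, 1, 0], [2, 1, 1,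
  0, 1, 1, 0], [2, 1, 1, 1, 2, 2, 1], [1, 0, 0, 0, 1, 0, 0], [0, 0, 0, 0, 1, 1, 0], [1, 0, 0, 0,
  1, 1, 1]] 140186658783229 [38, 158, 158, 158, 152, 152, 266]) 63486597423 = true := by
  decide +kernel

end Pool.Agent.Work.MP_122e00_nt.Sharp.Cx

end

section

set_option autoImplicit false

set_option maxRecDepth 100000

/-!
# The certificate: data
-/

namespace Pool.Agent.Work.MP_122e00_nt.Sharp.Cx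

/-- data -/
noncomputable def tr484 : Ct := (.dc 0 14 1 (.ct 2 5 1 1 1 (.dc 2 7 0 (.ct 3 4 1 1 1 (.dc 1 14
  0 (.ct 0 5 1 1 1 (.ct 3 5 1 1 1 (.ct 4 6 1 1 1 (.dc 0 1 0 (.ct 4 5 1 1 1 (.ct 5 6 1 1 1 (.dc 2
  15 1 (.lf 2 7 192)) (.dc 2 15 0 (.lf 2 5 192))) (.dc 2 15 1 (.lf 2 7 176)))) (.dc 0 1 1 (.ct 5
  6 1 1 1 (.dc 2 15 1 (.lf 2 12 192)) (.dc 2 15 0 (.lf 2 10 192))))) (.dc 2 15 1 (.ct 4 6 1 1 1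
  (.dc 0 1 0 (.lf 2 6 160)) (.dc 0 1 1 (.lf 2 12 160))))) (.dc 2 15 1 (.ct 4 6 1 1 1 (.dc 0 1 0
  (.lf 2 6 160)) (.dc 0 1 1 (.lf 2 12 160)))))) (.dc 0 1 0 (.dc 1 14 1 (.ct 0 5 1 1 1 (.ct 3 5 1
  1 1 (.ct 4 5 1 1 1 (.ct 5 6 1 1 1 (.dc 2 15 1 (.lf 2 7 160)) (.dc 2 15 0 (.lf 2 5 160))) (.dc 2
  15 1 (.lf 2 6 160))) (.dc 2 15 1 (.lf 2 6 160))) (.dc 2 15 1 (.lf 2 6 160))))))) (.dc 2 7 1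
  (.dc 2 15 1 (.ct 3 4 1 1 1 (.dc 1 14 0 (.ct 4 6 1 1 1 (.dc 0 1 0 (.lf 2 8 160)) (.dc 0 1 1 (.lf
  2 11 160)))) (.dc 0 1 0 (.dc 1 14 1 (.lf 2 7 160))))))))

theorem dt484 : le (run cls4 4 tr484 [[3, 1, 1, 1, 2, 2, 0], [1, 1, 0, 0, 1, 1, 0], [2, 1, 1,
  0, 1, 1, 0], [1, 1, 1, 1, 1, 1, 0], [1, 0, 0, 0, 1, 0, 0], [0, 0, 0, 0, 1, 1, 0], [2, 1, 1, 1,
  2, 2, 1]] 140186658783229 [38, 158, 158, 158, 152, 152, 266]) 152027821262 = true := by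
  decide +kernel

/-- data -/
noncomputable def tr485 : Ct := (.dc 2 7 1 (.dc 2 11 1 (.dc 2 15 1 (.ct 3 6 1 1 1 (.dc 0 14 0
  (.dc 1 14 0 (.ct 3 4 1 1 1 (.dc 0 1 1 (.ct 5 6 1 1 1 (.ct 0 1 1 1 1 (.dc 2 13 0 (.ct 0 6 1 1 1
  (.lf 3 10 176) (.lf 2 11 176))) (.dc 2 13 1 (.ct 0 6 1 1 1 (.ct 1 6 1 1 1 (.lf 3 10 176) (.lf 2
  11 176)) (.lf 2 11 160)))) (.ct 0 1 1 1 1 (.dc 2 13 0 (.lf 2 11 176)) (.dc 2 13 1 (.lf 2 11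
  192))))) (.dc 0 1 0 (.ct 5 6 1 1 1 (.ct 0 1 1 1 1 (.dc 2 13 0 (.ct 0 6 1 1 1 (.lf 3 7 192) (.lf
  2 7 192))) (.dc 2 13 1 (.ct 0 6 1 1 1 (.ct 1 6 1 1 1 (.lf 3 7 192) (.lf 2 7 192)) (.lf 2 7
  192)))) (.ct 0 1 1 1 1 (.dc 2 13 0 (.lf 2 7 176)) (.dc 2 13 1 (.lf 2 7 192)))))))) (.dc 0 14 1
  (.ct 3 4 1 1 1 (.dc 1 14 0 (.ct 4 6 1 1 1 (.dc 0 1 0 (.ct 0 1 1 1 1 (.dc 2 13 0 (.lf 2 7 160))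
  (.dc 2 13 1 (.lf 2 7 160)))) (.dc 0 1 1 (.ct 0 1 1 1 1 (.dc 2 13 0 (.lf 2 11 160)) (.dc 2 13 1
  (.lf 2 10 160)))))) (.dc 0 1 0 (.dc 1 14 1 (.ct 0 1 1 1 1 (.dc 2 13 0 (.lf 2 7 160)) (.dc 2 13
  1 (.lf 2 7 160)))))))))))

theorem dt485 : le (run cls4 4 tr485 [[3, 1, 1, 1, 1, 1, 0], [1, 1, 0, 0, 1, 1, 0], [2, 1, 1,
  0, 1, 1, 0], [1, 1, 1, 1, 1, 1, 0], [1, 0, 0, 0, 1, 0, 0], [3, 1, 1, 1, 2, 2, 0], [1, 0, 0, 0,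
  1, 1, 1]] 96206193672189 [38, 158, 158, 158, 152, 152, 266]) 117648800281 = true := by
  decide +kernel

end Pool.Agent.Work.MP_122e00_nt.Sharp.Cx

end
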