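import Pool.Agent.Work.MP_122e00_nt.Bdx.B09
import Pool.Agent.Work.MP_122e00_nt.Bd.B03
import Pool.Agent.Work.MP_122e00_nt.Bd.B04
import Pool.Agent.Work.MP_122e00_nt.Bd.B05
import Pool.Agent.Work.MP_122e00_nt.Bd.B06
import Pool.Agent.Work.MP_122e00_nt.Bd.B07
import Pool.Agent.Work.MP_122e00_nt.Bd.B08
import Pool.Agent.Work.MP_122e00_nt.Bd.B09
import Pool.Agent.Work.MP_122e00_nt.Bd.B10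
import Pool.Agent.Work.MP_122e00_nt.Bd.B11

/-! Bundle of small proof modules (one section per former module). -/

section

set_option autoImplicit false

set_option maxRecDepth 100000

/-!
# The certificate: data
-/

namespace Pool.Agent.Work.MP_122e00_nt.Sharp.Cx

theorem ok0 : Ok 4 Dn4 [[1, 0, 0, 0, 3, 2, 2], [1, 1, 0, 0, 2, 2, 2], [1, 1, 1, 0, 1, 1, 1],
  [1, 1, 1, 1, 2, 2, 2], [0, 0, 0, 0, 2, 1, 1], [0, 0, 0, 0, 1, 1, 0], [0, 0, 0, 0, 1, 1, 1]]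
  140185576625493 [0, 0, 0, 0, 0, 0, 0] 2493337711339 :=
  run4 tr0 _ _ _ _ dt0

theorem ok1 : Ok 4 Dn4 [[2, 1, 0, 0, 3, 2, 2], [1, 1, 0, 0, 2, 2, 2], [1, 1, 1, 0, 1, 1, 1],
  [1, 1, 1, 1, 2, 2, 2], [0, 0, 0, 0, 2, 1, 1], [0, 0, 0, 0, 1, 1, 0], [1, 0, 0, 0, 3, 2, 2]]
  140185576660437 [5, 5, 17, 17, 5, 35, 35] 436455475082 :=
  run4 tr1 _ _ _ _ dt1

theorem ok2 : Ok 4 Dn4 [[1, 0, 0, 0, 1, 0, 0], [2, 1, 0, 0, 3, 2, 2], [1, 1, 1, 0, 3, 2, 2],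
  [1, 1, 1, 1, 2, 2, 2], [0, 0, 0, 0, 2, 1, 1], [0, 0, 0, 0, 1, 1, 0], [1, 0, 0, 0, 3, 2, 2]]
  140185576668629 [7, 19, 19, 19, 7, 49, 49] 207319193836 :=
  run4 tr2 _ _ _ _ dt2

theorem ok3 : Ok 4 Dn4 [[1, 0, 0, 0, 1, 0, 0], [2, 1, 0, 0, 3, 2, 2], [1, 1, 1, 0, 1, 1, 1],
  [1, 1, 1, 1, 2, 2, 2], [1, 1, 1, 0, 3, 2, 2], [0, 0, 0, 0, 1, 1, 0], [1, 0, 0, 0, 3, 2, 2]]
  140185576668629 [7, 19, 19, 19, 7, 49, 49] 274577346555 :=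
  run4 tr3 _ _ _ _ dt3

theorem ok4 : Ok 4 Dn4 [[2, 1, 0, 0, 3, 2, 2], [1, 1, 0, 0, 2, 1, 1], [1, 1, 1, 0, 1, 1, 1],
  [1, 1, 1, 1, 2, 2, 2], [0, 0, 0, 0, 2, 1, 1], [0, 0, 0, 0, 1, 1, 0], [1, 1, 0, 0, 2, 2, 2]]
  140185576660437 [5, 5, 17, 17, 5, 35, 35] 450110107051 :=
  run4 tr4 _ _ _ _ dt4

theorem ok5 : Ok 4 Dn4 [[1, 0, 0, 0, 1, 0, 0], [1, 1, 0, 0, 2, 1, 1], [1, 1, 1, 0, 1, 1, 1],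
  [1, 1, 1, 1, 2, 2, 2], [0, 0, 0, 0, 2, 1, 1], [0, 0, 0, 0, 1, 1, 0], [2, 1, 0, 0, 3, 2, 2]]
  140185576660437 [5, 5, 17, 17, 5, 35, 35] 245843364775 :=
  run4 tr5 _ _ _ _ dt5

theorem ok6 : Ok 4 Dn4 [[2, 1, 0, 0, 3, 2, 2], [1, 1, 0, 0, 0, 0, 0], [1, 1, 1, 0, 1, 1, 1],
  [1, 1, 1, 1, 2, 2, 2], [1, 1, 0, 0, 2, 1, 1], [0, 0, 0, 0, 1, 1, 0], [1, 1, 0, 0, 2, 2, 2]]
  131357279247829 [10, 10, 34, 34, 40, 40, 70] 690424462958 :=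
  run4 tr6 _ _ _ _ dt6

theorem ok7 : Ok 4 Dn4 [[1, 0, 0, 0, 1, 0, 0], [1, 1, 0, 0, 0, 0, 0], [1, 1, 1, 0, 1, 1, 1],
  [1, 1, 1, 1, 2, 2, 2], [1, 1, 0, 0, 2, 1, 1], [0, 0, 0, 0, 1, 1, 0], [2, 1, 0, 0, 3, 2, 2]]
  131357279247829 [10, 10, 34, 34, 40, 40, 70] 339234195795 :=
  run4 tr7 _ _ _ _ dt7

theorem nd0 : Ok 4 Dn4 [[1, 0, 0, 0, 1, 0, 0], [2, 1, 0, 0, 3, 2, 2], [1, 1, 1, 0, 1, 1, 1],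
  [1, 1, 1, 1, 2, 2, 2], [0, 0, 0, 0, 2, 1, 1], [0, 0, 0, 0, 1, 1, 0], [1, 0, 0, 0, 3, 2, 2]]
  140185576668629 [7, 19, 19, 19, 7, 49, 49] 234222454924 :=
  cut4 2 4 1 1 1 _ [[1, 0, 0, 0, 1, 0, 0], [2, 1, 0, 0, 3, 2, 2], [1, 1, 1, 0, 3, 2, 2], [1, 1,
  1, 1, 2, 2, 2], [0, 0, 0, 0, 2, 1, 1], [0, 0, 0, 0, 1, 1, 0], [1, 0, 0, 0, 3, 2, 2]] [[1, 0, 0,
  0, 1, 0, 0], [2, 1, 0, 0, 3, 2, 2], [1, 1, 1, 0, 1, 1, 1], [1, 1, 1, 1, 2, 2, 2], [1, 1, 1, 0,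
  3, 2, 2], [0, 0, 0, 0, 1, 1, 0], [1, 0, 0, 0, 3, 2, 2]] _ _ 207319193836 274577346555 _ (by
  decide +kernel) ok2 ok3

theorem nd1 : Ok 4 Dn4 [[1, 0, 0, 0, 1, 0, 0], [2, 1, 0, 0, 3, 2, 2], [1, 1, 1, 0, 1, 1, 1],
  [1, 1, 1, 1, 2, 2, 2], [0, 0, 0, 0, 2, 1, 1], [0, 0, 0, 0, 1, 1, 0], [1, 0, 0, 0, 3, 2, 2]]
  140185576660437 [5, 5, 17, 17, 5, 35, 35] 234222454924 :=
  dec4 0 13 1 _ _ 140185576668629 _ [7, 19, 19, 19, 7, 49, 49] _ (by decide +kernel) nd0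

theorem nd2 : Ok 4 Dn4 [[1, 0, 0, 0, 1, 0, 0], [1, 1, 0, 0, 2, 2, 2], [1, 1, 1, 0, 1, 1, 1],
  [1, 1, 1, 1, 2, 2, 2], [0, 0, 0, 0, 2, 1, 1], [0, 0, 0, 0, 1, 1, 0], [1, 0, 0, 0, 3, 2, 2]]
  140185576660437 [5, 5, 17, 17, 5, 35, 35] 274669058956 :=
  cut4 0 1 1 1 1 _ [[2, 1, 0, 0, 3, 2, 2], [1, 1, 0, 0, 2, 2, 2], [1, 1, 1, 0, 1, 1, 1], [1, 1,
  1, 1, 2, 2, 2], [0, 0, 0, 0, 2, 1, 1], [0, 0, 0, 0, 1, 1, 0], [1, 0, 0, 0, 3, 2, 2]] [[1, 0, 0,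
  0, 1, 0, 0], [2, 1, 0, 0, 3, 2, 2], [1, 1, 1, 0, 1, 1, 1], [1, 1, 1, 1, 2, 2, 2], [0, 0, 0, 0,
  2, 1, 1], [0, 0, 0, 0, 1, 1, 0], [1, 0, 0, 0, 3, 2, 2]] _ _ 436455475082 234222454924 _ (by
  decide +kernel) ok1 nd1

theorem nd3 : Ok 4 Dn4 [[1, 0, 0, 0, 1, 0, 0], [1, 1, 0, 0, 2, 2, 2], [1, 1, 1, 0, 1, 1, 1],
  [1, 1, 1, 1, 2, 2, 2], [0, 0, 0, 0, 2, 1, 1], [0, 0, 0, 0, 1, 1, 0], [1, 0, 0, 0, 3, 2, 2]]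
  140185576627669 [4, 4, 16, 16, 4, 28, 28] 274669058956 :=
  dec4 0 15 1 _ _ 140185576660437 _ [5, 5, 17, 17, 5, 35, 35] _ (by decide +kernel) nd2

theorem nd4 : Ok 4 Dn4 [[1, 0, 0, 0, 1, 0, 0], [1, 1, 0, 0, 2, 2, 2], [1, 1, 1, 0, 1, 1, 1],
  [1, 1, 1, 1, 2, 2, 2], [0, 0, 0, 0, 2, 1, 1], [0, 0, 0, 0, 1, 1, 0], [1, 0, 0, 0, 3, 2, 2]]
  140185576625621 [2, 2, 2, 14, 2, 14, 14] 274669058956 :=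
  dec4 0 11 1 _ _ 140185576627669 _ [4, 4, 16, 16, 4, 28, 28] _ (by decide +kernel) nd3

theorem nd5 : Ok 4 Dn4 [[1, 0, 0, 0, 1, 0, 0], [1, 1, 0, 0, 2, 2, 2], [1, 1, 1, 0, 1, 1, 1],
  [1, 1, 1, 1, 2, 2, 2], [0, 0, 0, 0, 2, 1, 1], [0, 0, 0, 0, 1, 1, 0], [1, 0, 0, 0, 3, 2, 2]]
  140185576625493 [0, 0, 0, 0, 0, 0, 0] 274669058956 :=
  dec4 0 7 1 _ _ 140185576625621 _ [2, 2, 2, 14, 2, 14, 14] _ (by decide +kernel) nd4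

theorem nd6 : Ok 4 Dn4 [[1, 0, 0, 0, 1, 0, 0], [1, 1, 0, 0, 2, 2, 2], [1, 1, 1, 0, 1, 1, 1],
  [1, 1, 1, 1, 2, 2, 2], [0, 0, 0, 0, 2, 1, 1], [0, 0, 0, 0, 1, 1, 0], [0, 0, 0, 0, 1, 1, 1]]
  140185576625493 [0, 0, 0, 0, 0, 0, 0] 829336222052 :=
  cut4 0 6 1 2 1 _ [[1, 0, 0, 0, 3, 2, 2], [1, 1, 0, 0, 2, 2, 2], [1, 1, 1, 0, 1, 1, 1], [1, 1,
  1, 1, 2, 2, 2], [0, 0, 0, 0, 2, 1, 1], [0, 0, 0, 0, 1, 1, 0], [0, 0, 0, 0, 1, 1, 1]] [[1, 0, 0,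
  0, 1, 0, 0], [1, 1, 0, 0, 2, 2, 2], [1, 1, 1, 0, 1, 1, 1], [1, 1, 1, 1, 2, 2, 2], [0, 0, 0, 0,
  2, 1, 1], [0, 0, 0, 0, 1, 1, 0], [1, 0, 0, 0, 3, 2, 2]] _ _ 2493337711339 274669058956 _ (by
  decide +kernel) ok0 nd5

theorem nd7 : Ok 4 Dn4 [[1, 0, 0, 0, 1, 0, 0], [1, 1, 0, 0, 2, 2, 2], [1, 1, 1, 0, 1, 1, 1],
  [1, 1, 1, 1, 2, 2, 2], [0, 0, 0, 0, 2, 1, 1], [0, 0, 0, 0, 1, 1, 0], [0, 0, 0, 0, 1, 1, 1]]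
  131389483603285 [0, 0, 0, 0, 0, 0, 0] 829336222052 :=
  dec4 2 11 0 _ _ 140185576625493 _ [0, 0, 0, 0, 0, 0, 0] _ (by decide +kernel) nd6

theorem nd8 : Ok 4 Dn4 [[1, 0, 0, 0, 1, 0, 0], [1, 1, 0, 0, 2, 2, 2], [1, 1, 1, 0, 1, 1, 1],
  [1, 1, 1, 1, 2, 2, 2], [0, 0, 0, 0, 2, 1, 1], [0, 0, 0, 0, 1, 1, 0], [0, 0, 0, 0, 1, 1, 1]]
  131355123864917 [0, 0, 0, 0, 0, 0, 0] 829336222052 :=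
  dec4 2 3 0 _ _ 131389483603285 _ [0, 0, 0, 0, 0, 0, 0] _ (by decide +kernel) nd7

theorem nd9 : Ok 4 Dn4 [[1, 0, 0, 0, 1, 0, 0], [1, 1, 0, 0, 2, 2, 2], [1, 1, 1, 0, 1, 1, 1],
  [1, 1, 1, 1, 2, 2, 2], [0, 0, 0, 0, 2, 1, 1], [0, 0, 0, 0, 1, 1, 0], [0, 0, 0, 0, 1, 1, 1]]
  131354989647189 [0, 0, 0, 0, 0, 0, 0] 829336222052 :=
  dec4 1 11 0 _ _ 131355123864917 _ [0, 0, 0, 0, 0, 0, 0] _ (by decide +kernel) nd8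

theorem nd10 : Ok 4 Dn4 [[1, 0, 0, 0, 1, 0, 0], [1, 1, 0, 0, 2, 2, 2], [1, 1, 1, 0, 1, 1, 1],
  [1, 1, 1, 1, 2, 2, 2], [0, 0, 0, 0, 2, 1, 1], [0, 0, 0, 0, 1, 1, 0], [0, 0, 0, 0, 1, 1, 1]]
  131354989122901 [0, 0, 0, 0, 0, 0, 0] 829336222052 :=
  dec4 1 3 0 _ _ 131354989647189 _ [0, 0, 0, 0, 0, 0, 0] _ (by decide +kernel) nd9

theorem nd11 : Ok 4 Dn4 [[1, 0, 0, 0, 1, 0, 0], [1, 1, 0, 0, 2, 1, 1], [1, 1, 1, 0, 1, 1, 1],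
  [1, 1, 1, 1, 2, 2, 2], [0, 0, 0, 0, 2, 1, 1], [0, 0, 0, 0, 1, 1, 0], [1, 1, 0, 0, 2, 2, 2]]
  140185576660437 [5, 5, 17, 17, 5, 35, 35] 286696713231 :=
  cut4 0 6 1 1 1 _ [[2, 1, 0, 0, 3, 2, 2], [1, 1, 0, 0, 2, 1, 1], [1, 1, 1, 0, 1, 1, 1], [1, 1,
  1, 1, 2, 2, 2], [0, 0, 0, 0, 2, 1, 1], [0, 0, 0, 0, 1, 1, 0], [1, 1, 0, 0, 2, 2, 2]] [[1, 0, 0,
  0, 1, 0, 0], [1, 1, 0, 0, 2, 1, 1], [1, 1, 1, 0, 1, 1, 1], [1, 1, 1, 1, 2, 2, 2], [0, 0, 0, 0,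
  2, 1, 1], [0, 0, 0, 0, 1, 1, 0], [2, 1, 0, 0, 3, 2, 2]] _ _ 450110107051 245843364775 _ (by
  decide +kernel) ok4 ok5

theorem nd12 : Ok 4 Dn4 [[1, 0, 0, 0, 1, 0, 0], [1, 1, 0, 0, 2, 1, 1], [1, 1, 1, 0, 1, 1, 1],
  [1, 1, 1, 1, 2, 2, 2], [0, 0, 0, 0, 2, 1, 1], [0, 0, 0, 0, 1, 1, 0], [1, 1, 0, 0, 2, 2, 2]]
  131389483638229 [5, 5, 17, 17, 5, 35, 35] 286696713231 :=
  dec4 2 11 0 _ _ 140185576660437 _ [5, 5, 17, 17, 5, 35, 35] _ (by decide +kernel) nd11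

theorem nd13 : Ok 4 Dn4 [[1, 0, 0, 0, 1, 0, 0], [1, 1, 0, 0, 2, 1, 1], [1, 1, 1, 0, 1, 1, 1],
  [1, 1, 1, 1, 2, 2, 2], [0, 0, 0, 0, 2, 1, 1], [0, 0, 0, 0, 1, 1, 0], [1, 1, 0, 0, 2, 2, 2]]
  131355123899861 [5, 5, 17, 17, 5, 35, 35] 286696713231 :=
  dec4 2 3 0 _ _ 131389483638229 _ [5, 5, 17, 17, 5, 35, 35] _ (by decide +kernel) nd12

theorem nd14 : Ok 4 Dn4 [[1, 0, 0, 0, 1, 0, 0], [1, 1, 0, 0, 2, 1, 1], [1, 1, 1, 0, 1, 1, 1],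
  [1, 1, 1, 1, 2, 2, 2], [0, 0, 0, 0, 2, 1, 1], [0, 0, 0, 0, 1, 1, 0], [1, 1, 0, 0, 2, 2, 2]]
  131354989682133 [5, 5, 17, 17, 5, 35, 35] 286696713231 :=
  dec4 1 11 0 _ _ 131355123899861 _ [5, 5, 17, 17, 5, 35, 35] _ (by decide +kernel) nd13

theorem nd15 : Ok 4 Dn4 [[1, 0, 0, 0, 1, 0, 0], [1, 1, 0, 0, 2, 1, 1], [1, 1, 1, 0, 1, 1, 1],
  [1, 1, 1, 1, 2, 2, 2], [0, 0, 0, 0, 2, 1, 1], [0, 0, 0, 0, 1, 1, 0], [1, 1, 0, 0, 2, 2, 2]]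
  131354989157845 [5, 5, 17, 17, 5, 35, 35] 286696713231 :=
  dec4 1 3 0 _ _ 131354989682133 _ [5, 5, 17, 17, 5, 35, 35] _ (by decide +kernel) nd14

theorem nd16 : Ok 4 Dn4 [[1, 0, 0, 0, 1, 0, 0], [1, 1, 0, 0, 0, 0, 0], [1, 1, 1, 0, 1, 1, 1],
  [1, 1, 1, 1, 2, 2, 2], [1, 1, 0, 0, 2, 1, 1], [0, 0, 0, 0, 1, 1, 0], [1, 1, 0, 0, 2, 2, 2]]
  131357279247829 [10, 10, 34, 34, 40, 40, 70] 409472249228 :=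
  cut4 0 6 1 1 1 _ [[2, 1, 0, 0, 3, 2, 2], [1, 1, 0, 0, 0, 0, 0], [1, 1, 1, 0, 1, 1, 1], [1, 1,
  1, 1, 2, 2, 2], [1, 1, 0, 0, 2, 1, 1], [0, 0, 0, 0, 1, 1, 0], [1, 1, 0, 0, 2, 2, 2]] [[1, 0, 0,
  0, 1, 0, 0], [1, 1, 0, 0, 0, 0, 0], [1, 1, 1, 0, 1, 1, 1], [1, 1, 1, 1, 2, 2, 2], [1, 1, 0, 0,
  2, 1, 1], [0, 0, 0, 0, 1, 1, 0], [2, 1, 0, 0, 3, 2, 2]] _ _ 690424462958 339234195795 _ (by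
  decide +kernel) ok6 ok7

theorem nd17 : Ok 4 Dn4 [[1, 0, 0, 0, 1, 0, 0], [1, 1, 0, 0, 0, 0, 0], [1, 1, 1, 0, 1, 1, 1],
  [1, 1, 1, 1, 2, 2, 2], [1, 1, 0, 0, 2, 1, 1], [0, 0, 0, 0, 1, 1, 0], [1, 1, 0, 0, 2, 2, 2]]
  131355131764181 [9, 9, 33, 33, 33, 39, 63] 409472249228 :=
  dec4 1 15 1 _ _ 131357279247829 _ [10, 10, 34, 34, 40, 40, 70] _ (by decide +kernel) nd16

theorem nd18 : Ok 4 Dn4 [[1, 0, 0, 0, 1, 0, 0], [1, 1, 0, 0, 0, 0, 0], [1, 1, 1, 0, 1, 1, 1],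
  [1, 1, 1, 1, 2, 2, 2], [1, 1, 0, 0, 2, 1, 1], [0, 0, 0, 0, 1, 1, 0], [1, 1, 0, 0, 2, 2, 2]]
  131354997546453 [7, 7, 19, 31, 19, 37, 49] 409472249228 :=
  dec4 1 11 1 _ _ 131355131764181 _ [9, 9, 33, 33, 33, 39, 63] _ (by decide +kernel) nd17

theorem nd19 : Ok 4 Dn4 [[1, 0, 0, 0, 1, 0, 0], [1, 1, 0, 0, 0, 0, 0], [1, 1, 1, 0, 1, 1, 1],
  [1, 1, 1, 1, 2, 2, 2], [1, 1, 0, 0, 2, 1, 1], [0, 0, 0, 0, 1, 1, 0], [1, 1, 0, 0, 2, 2, 2]]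
  131354989157845 [5, 5, 17, 17, 5, 35, 35] 409472249228 :=
  dec4 1 7 1 _ _ 131354997546453 _ [7, 7, 19, 31, 19, 37, 49] _ (by decide +kernel) nd18

theorem nd20 : Ok 4 Dn4 [[1, 0, 0, 0, 1, 0, 0], [1, 1, 0, 0, 0, 0, 0], [1, 1, 1, 0, 1, 1, 1],
  [1, 1, 1, 1, 2, 2, 2], [0, 0, 0, 0, 2, 1, 1], [0, 0, 0, 0, 1, 1, 0], [1, 1, 0, 0, 2, 2, 2]]
  131354989157845 [5, 5, 17, 17, 5, 35, 35] 368547070563 :=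
  cut4 1 4 1 1 1 _ [[1, 0, 0, 0, 1, 0, 0], [1, 1, 0, 0, 2, 1, 1], [1, 1, 1, 0, 1, 1, 1], [1, 1,
  1, 1, 2, 2, 2], [0, 0, 0, 0, 2, 1, 1], [0, 0, 0, 0, 1, 1, 0], [1, 1, 0, 0, 2, 2, 2]] [[1, 0, 0,
  0, 1, 0, 0], [1, 1, 0, 0, 0, 0, 0], [1, 1, 1, 0, 1, 1, 1], [1, 1, 1, 1, 2, 2, 2], [1, 1, 0, 0,
  2, 1, 1], [0, 0, 0, 0, 1, 1, 0], [1, 1, 0, 0, 2, 2, 2]] _ _ 286696713231 409472249228 _ (by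
  decide +kernel) nd15 nd19

theorem nd21 : Ok 4 Dn4 [[1, 0, 0, 0, 1, 0, 0], [1, 1, 0, 0, 0, 0, 0], [1, 1, 1, 0, 1, 1, 1],
  [1, 1, 1, 1, 2, 2, 2], [0, 0, 0, 0, 2, 1, 1], [0, 0, 0, 0, 1, 1, 0], [1, 1, 0, 0, 2, 2, 2]]
  131354989125077 [4, 4, 16, 16, 4, 28, 28] 368547070563 :=
  dec4 0 15 1 _ _ 131354989157845 _ [5, 5, 17, 17, 5, 35, 35] _ (by decide +kernel) nd20

theorem nd22 : Ok 4 Dn4 [[1, 0, 0, 0, 1, 0, 0], [1, 1, 0, 0, 0, 0, 0], [1, 1, 1, 0, 1, 1, 1],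
  [1, 1, 1, 1, 2, 2, 2], [0, 0, 0, 0, 2, 1, 1], [0, 0, 0, 0, 1, 1, 0], [1, 1, 0, 0, 2, 2, 2]]
  131354989123029 [2, 2, 2, 14, 2, 14, 14] 368547070563 :=
  dec4 0 11 1 _ _ 131354989125077 _ [4, 4, 16, 16, 4, 28, 28] _ (by decide +kernel) nd21

theorem nd23 : Ok 4 Dn4 [[1, 0, 0, 0, 1, 0, 0], [1, 1, 0, 0, 0, 0, 0], [1, 1, 1, 0, 1, 1, 1],
  [1, 1, 1, 1, 2, 2, 2], [0, 0, 0, 0, 2, 1, 1], [0, 0, 0, 0, 1, 1, 0], [1, 1, 0, 0, 2, 2, 2]]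
  131354989122901 [0, 0, 0, 0, 0, 0, 0] 368547070563 :=
  dec4 0 7 1 _ _ 131354989123029 _ [2, 2, 2, 14, 2, 14, 14] _ (by decide +kernel) nd22

theorem nd24 : Ok 4 Dn4 [[1, 0, 0, 0, 1, 0, 0], [1, 1, 0, 0, 0, 0, 0], [1, 1, 1, 0, 1, 1, 1],
  [1, 1, 1, 1, 2, 2, 2], [0, 0, 0, 0, 2, 1, 1], [0, 0, 0, 0, 1, 1, 0], [0, 0, 0, 0, 1, 1, 1]]
  131354989122901 [0, 0, 0, 0, 0, 0, 0] 483744358436 :=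
  cut4 1 6 1 2 1 _ [[1, 0, 0, 0, 1, 0, 0], [1, 1, 0, 0, 2, 2, 2], [1, 1, 1, 0, 1, 1, 1], [1, 1,
  1, 1, 2, 2, 2], [0, 0, 0, 0, 2, 1, 1], [0, 0, 0, 0, 1, 1, 0], [0, 0, 0, 0, 1, 1, 1]] [[1, 0, 0,
  0, 1, 0, 0], [1, 1, 0, 0, 0, 0, 0], [1, 1, 1, 0, 1, 1, 1], [1, 1, 1, 1, 2, 2, 2], [0, 0, 0, 0,
  2, 1, 1], [0, 0, 0, 0, 1, 1, 0], [1, 1, 0, 0, 2, 2, 2]] _ _ 829336222052 368547070563 _ (by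
  decide +kernel) nd10 nd23

theorem nd25 : Ok 4 Dn4 [[1, 0, 0, 0, 1, 0, 0], [1, 1, 0, 0, 0, 0, 0], [1, 1, 1, 0, 1, 1, 1],
  [1, 1, 1, 1, 2, 2, 2], [0, 0, 0, 0, 2, 1, 1], [0, 0, 0, 0, 1, 1, 0], [0, 0, 0, 0, 1, 1, 1]]
  60986244945237 [0, 0, 0, 0, 0, 0, 0] 483744358436 :=
  dec4 2 14 0 _ _ 131354989122901 _ [0, 0, 0, 0, 0, 0, 0] _ (by decide +kernel) nd24

theorem nd26 : Ok 4 Dn4 [[1, 0, 0, 0, 1, 0, 0], [1, 1, 0, 0, 0, 0, 0], [1, 1, 1, 0, 1, 1, 1],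
  [1, 1, 1, 1, 2, 2, 2], [0, 0, 0, 0, 2, 1, 1], [0, 0, 0, 0, 1, 1, 0], [0, 0, 0, 0, 1, 1, 1]]
  25801872856405 [0, 0, 0, 0, 0, 0, 0] 483744358436 :=
  dec4 2 13 0 _ _ 60986244945237 _ [0, 0, 0, 0, 0, 0, 0] _ (by decide +kernel) nd25

theorem nd27 : Ok 4 Dn4 [[1, 0, 0, 0, 1, 0, 0], [1, 1, 0, 0, 0, 0, 0], [1, 1, 1, 0, 1, 1, 1],
  [1, 1, 1, 1, 2, 2, 2], [0, 0, 0, 0, 2, 1, 1], [0, 0, 0, 0, 1, 1, 0], [0, 0, 0, 0, 1, 1, 1]]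
  25800799114581 [0, 0, 0, 0, 0, 0, 0] 483744358436 :=
  dec4 1 14 0 _ _ 25801872856405 _ [0, 0, 0, 0, 0, 0, 0] _ (by decide +kernel) nd26

theorem nd28 : Ok 4 Dn4 [[1, 0, 0, 0, 1, 0, 0], [1, 1, 0, 0, 0, 0, 0], [1, 1, 1, 0, 1, 1, 1],
  [1, 1, 1, 1, 2, 2, 2], [0, 0, 0, 0, 2, 1, 1], [0, 0, 0, 0, 1, 1, 0], [0, 0, 0, 0, 1, 1, 1]]
  25800262243669 [0, 0, 0, 0, 0, 0, 0] 483744358436 :=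
  dec4 1 13 0 _ _ 25800799114581 _ [0, 0, 0, 0, 0, 0, 0] _ (by decide +kernel) nd27

theorem nd29 : Ok 4 Dn4 [[1, 0, 0, 0, 1, 0, 0], [1, 1, 0, 0, 0, 0, 0], [1, 1, 1, 0, 1, 1, 1],
  [1, 1, 1, 1, 2, 2, 2], [0, 0, 0, 0, 2, 1, 1], [0, 0, 0, 0, 1, 1, 0], [0, 0, 0, 0, 1, 1, 1]]
  25800262227285 [0, 0, 0, 0, 0, 0, 0] 483744358436 :=
  dec4 0 14 0 _ _ 25800262243669 _ [0, 0, 0, 0, 0, 0, 0] _ (by decide +kernel) nd28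

end Pool.Agent.Work.MP_122e00_nt.Sharp.Cx

end

section

set_option autoImplicit false

set_option maxRecDepth 100000

/-!
# The certificate: data
-/

namespace Pool.Agent.Work.MP_122e00_nt.Sharp.Cx

theorem ok8 : Ok 4 Dn4 [[1, 0, 0, 0, 1, 0, 0], [1, 1, 0, 0, 2, 1, 1], [1, 1, 1, 0, 3, 2, 2],
  [1, 1, 1, 1, 2, 1, 1], [0, 0, 0, 0, 2, 1, 1], [0, 0, 0, 0, 1, 1, 0], [1, 1, 1, 1, 2, 2, 2]]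
  140185576668629 [21, 21, 21, 21, 9, 63, 63] 1020574944852 :=
  run4 tr8 _ _ _ _ dt8

theorem ok9 : Ok 4 Dn4 [[1, 0, 0, 0, 1, 0, 0], [1, 1, 0, 0, 2, 1, 1], [1, 1, 1, 0, 1, 1, 1],
  [1, 1, 1, 1, 2, 1, 1], [1, 1, 1, 0, 3, 2, 2], [0, 0, 0, 0, 1, 1, 0], [1, 1, 1, 1, 2, 2, 2]]
  140185576668629 [21, 21, 21, 21, 9, 63, 63] 1101430602521 :=
  run4 tr9 _ _ _ _ dt9

theorem ok10 : Ok 4 Dn4 [[2, 1, 1, 1, 3, 2, 2], [1, 1, 0, 0, 1, 1, 0], [1, 1, 1, 0, 1, 1, 1],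
  [1, 1, 1, 1, 2, 1, 1], [1, 1, 0, 0, 2, 1, 1], [0, 0, 0, 0, 1, 1, 0], [1, 1, 1, 1, 2, 2, 2]]
  140187732016597 [26, 26, 38, 38, 44, 68, 98] 2696637088519 :=
  run4 tr10 _ _ _ _ dt10

theorem ok11 : Ok 4 Dn4 [[1, 0, 0, 0, 1, 0, 0], [1, 1, 0, 0, 1, 1, 0], [1, 1, 1, 0, 1, 1, 1],
  [1, 1, 1, 1, 2, 1, 1], [1, 1, 0, 0, 2, 1, 1], [0, 0, 0, 0, 1, 1, 0], [2, 1, 1, 1, 3, 2, 2]]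
  140187732016597 [26, 26, 38, 38, 44, 68, 98] 494263776335 :=
  run4 tr11 _ _ _ _ dt11

theorem ok12 : Ok 4 Dn4 [[1, 0, 0, 0, 1, 0, 0], [1, 1, 0, 0, 0, 0, 0], [1, 1, 1, 0, 1, 1, 1],
  [1, 1, 1, 1, 2, 1, 1], [1, 1, 0, 0, 2, 1, 1], [1, 1, 0, 0, 1, 1, 0], [1, 1, 1, 1, 2, 2, 2]]
  131357279256021 [26, 26, 38, 38, 44, 68, 98] 1098737067294 :=
  run4 tr12 _ _ _ _ dt12

theorem nd30 : Ok 4 Dn4 [[1, 0, 0, 0, 1, 0, 0], [1, 1, 0, 0, 2, 1, 1], [1, 1, 1, 0, 1, 1, 1],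
  [1, 1, 1, 1, 2, 1, 1], [0, 0, 0, 0, 2, 1, 1], [0, 0, 0, 0, 1, 1, 0], [1, 1, 1, 1, 2, 2, 2]]
  140185576668629 [21, 21, 21, 21, 9, 63, 63] 1052917207920 :=
  cut4 2 4 1 1 1 _ [[1, 0, 0, 0, 1, 0, 0], [1, 1, 0, 0, 2, 1, 1], [1, 1, 1, 0, 3, 2, 2], [1, 1,
  1, 1, 2, 1, 1], [0, 0, 0, 0, 2, 1, 1], [0, 0, 0, 0, 1, 1, 0], [1, 1, 1, 1, 2, 2, 2]] [[1, 0, 0,
  0, 1, 0, 0], [1, 1, 0, 0, 2, 1, 1], [1, 1, 1, 0, 1, 1, 1], [1, 1, 1, 1, 2, 1, 1], [1, 1, 1, 0,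
  3, 2, 2], [0, 0, 0, 0, 1, 1, 0], [1, 1, 1, 1, 2, 2, 2]] _ _ 1020574944852 1101430602521 _ (by
  decide +kernel) ok8 ok9

theorem nd31 : Ok 4 Dn4 [[1, 0, 0, 0, 1, 0, 0], [1, 1, 0, 0, 2, 1, 1], [1, 1, 1, 0, 1, 1, 1],
  [1, 1, 1, 1, 2, 1, 1], [0, 0, 0, 0, 2, 1, 1], [0, 0, 0, 0, 1, 1, 0], [1, 1, 1, 1, 2, 2, 2]]
  131389483646421 [21, 21, 21, 21, 9, 63, 63] 1052917207920 :=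
  dec4 2 11 0 _ _ 140185576668629 _ [21, 21, 21, 21, 9, 63, 63] _ (by decide +kernel) nd30

theorem nd32 : Ok 4 Dn4 [[1, 0, 0, 0, 1, 0, 0], [1, 1, 0, 0, 2, 1, 1], [1, 1, 1, 0, 1, 1, 1],
  [1, 1, 1, 1, 2, 1, 1], [0, 0, 0, 0, 2, 1, 1], [0, 0, 0, 0, 1, 1, 0], [1, 1, 1, 1, 2, 2, 2]]
  131355123908053 [21, 21, 21, 21, 9, 63, 63] 1052917207920 :=
  dec4 2 3 0 _ _ 131389483646421 _ [21, 21, 21, 21, 9, 63, 63] _ (by decide +kernel) nd31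

theorem nd33 : Ok 4 Dn4 [[1, 0, 0, 0, 1, 0, 0], [1, 1, 0, 0, 2, 1, 1], [1, 1, 1, 0, 1, 1, 1],
  [1, 1, 1, 1, 2, 1, 1], [0, 0, 0, 0, 2, 1, 1], [0, 0, 0, 0, 1, 1, 0], [1, 1, 1, 1, 2, 2, 2]]
  131354989690325 [21, 21, 21, 21, 9, 63, 63] 1052917207920 :=
  dec4 1 11 0 _ _ 131355123908053 _ [21, 21, 21, 21, 9, 63, 63] _ (by decide +kernel) nd32

theorem nd34 : Ok 4 Dn4 [[1, 0, 0, 0, 1, 0, 0], [1, 1, 0, 0, 2, 1, 1], [1, 1, 1, 0, 1, 1, 1],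
  [1, 1, 1, 1, 2, 1, 1], [0, 0, 0, 0, 2, 1, 1], [0, 0, 0, 0, 1, 1, 0], [1, 1, 1, 1, 2, 2, 2]]
  131354989166037 [21, 21, 21, 21, 9, 63, 63] 1052917207920 :=
  dec4 1 3 0 _ _ 131354989690325 _ [21, 21, 21, 21, 9, 63, 63] _ (by decide +kernel) nd33

theorem nd35 : Ok 4 Dn4 [[1, 0, 0, 0, 1, 0, 0], [1, 1, 0, 0, 1, 1, 0], [1, 1, 1, 0, 1, 1, 1],
  [1, 1, 1, 1, 2, 1, 1], [1, 1, 0, 0, 2, 1, 1], [0, 0, 0, 0, 1, 1, 0], [1, 1, 1, 1, 2, 2, 2]]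
  140187732016597 [26, 26, 38, 38, 44, 68, 98] 861325995033 :=
  cut4 0 6 1 1 1 _ [[2, 1, 1, 1, 3, 2, 2], [1, 1, 0, 0, 1, 1, 0], [1, 1, 1, 0, 1, 1, 1], [1, 1,
  1, 1, 2, 1, 1], [1, 1, 0, 0, 2, 1, 1], [0, 0, 0, 0, 1, 1, 0], [1, 1, 1, 1, 2, 2, 2]] [[1, 0, 0,
  0, 1, 0, 0], [1, 1, 0, 0, 1, 1, 0], [1, 1, 1, 0, 1, 1, 1], [1, 1, 1, 1, 2, 1, 1], [1, 1, 0, 0,
  2, 1, 1], [0, 0, 0, 0, 1, 1, 0], [2, 1, 1, 1, 3, 2, 2]] _ _ 2696637088519 494263776335 _ (by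
  decide +kernel) ok10 ok11

theorem nd36 : Ok 4 Dn4 [[1, 0, 0, 0, 1, 0, 0], [1, 1, 0, 0, 1, 1, 0], [1, 1, 1, 0, 1, 1, 1],
  [1, 1, 1, 1, 2, 1, 1], [1, 1, 0, 0, 2, 1, 1], [0, 0, 0, 0, 1, 1, 0], [1, 1, 1, 1, 2, 2, 2]]
  131391638994389 [26, 26, 38, 38, 44, 68, 98] 861325995033 :=
  dec4 2 11 0 _ _ 140187732016597 _ [26, 26, 38, 38, 44, 68, 98] _ (by decide +kernel) nd35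

theorem nd37 : Ok 4 Dn4 [[1, 0, 0, 0, 1, 0, 0], [1, 1, 0, 0, 1, 1, 0], [1, 1, 1, 0, 1, 1, 1],
  [1, 1, 1, 1, 2, 1, 1], [1, 1, 0, 0, 2, 1, 1], [0, 0, 0, 0, 1, 1, 0], [1, 1, 1, 1, 2, 2, 2]]
  131357279256021 [26, 26, 38, 38, 44, 68, 98] 861325995033 :=
  dec4 2 3 0 _ _ 131391638994389 _ [26, 26, 38, 38, 44, 68, 98] _ (by decide +kernel) nd36

theorem nd38 : Ok 4 Dn4 [[1, 0, 0, 0, 1, 0, 0], [1, 1, 0, 0, 0, 0, 0], [1, 1, 1, 0, 1, 1, 1],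
  [1, 1, 1, 1, 2, 1, 1], [1, 1, 0, 0, 2, 1, 1], [0, 0, 0, 0, 1, 1, 0], [1, 1, 1, 1, 2, 2, 2]]
  131357279256021 [26, 26, 38, 38, 44, 68, 98] 980031531164 :=
  cut4 1 5 1 1 1 _ [[1, 0, 0, 0, 1, 0, 0], [1, 1, 0, 0, 1, 1, 0], [1, 1, 1, 0, 1, 1, 1], [1, 1,
  1, 1, 2, 1, 1], [1, 1, 0, 0, 2, 1, 1], [0, 0, 0, 0, 1, 1, 0], [1, 1, 1, 1, 2, 2, 2]] [[1, 0, 0,
  0, 1, 0, 0], [1, 1, 0, 0, 0, 0, 0], [1, 1, 1, 0, 1, 1, 1], [1, 1, 1, 1, 2, 1, 1], [1, 1, 0, 0,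
  2, 1, 1], [1, 1, 0, 0, 1, 1, 0], [1, 1, 1, 1, 2, 2, 2]] _ _ 861325995033 1098737067294 _ (by
  decide +kernel) nd37 ok12

theorem nd39 : Ok 4 Dn4 [[1, 0, 0, 0, 1, 0, 0], [1, 1, 0, 0, 0, 0, 0], [1, 1, 1, 0, 1, 1, 1],
  [1, 1, 1, 1, 2, 1, 1], [1, 1, 0, 0, 2, 1, 1], [0, 0, 0, 0, 1, 1, 0], [1, 1, 1, 1, 2, 2, 2]]
  131355131772373 [25, 25, 37, 37, 37, 67, 91] 980031531164 :=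
  dec4 1 15 1 _ _ 131357279256021 _ [26, 26, 38, 38, 44, 68, 98] _ (by decide +kernel) nd38

theorem nd40 : Ok 4 Dn4 [[1, 0, 0, 0, 1, 0, 0], [1, 1, 0, 0, 0, 0, 0], [1, 1, 1, 0, 1, 1, 1],
  [1, 1, 1, 1, 2, 1, 1], [1, 1, 0, 0, 2, 1, 1], [0, 0, 0, 0, 1, 1, 0], [1, 1, 1, 1, 2, 2, 2]]
  131354997554645 [23, 23, 23, 35, 23, 65, 77] 980031531164 :=
  dec4 1 11 1 _ _ 131355131772373 _ [25, 25, 37, 37, 37, 67, 91] _ (by decide +kernel) nd39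

theorem nd41 : Ok 4 Dn4 [[1, 0, 0, 0, 1, 0, 0], [1, 1, 0, 0, 0, 0, 0], [1, 1, 1, 0, 1, 1, 1],
  [1, 1, 1, 1, 2, 1, 1], [1, 1, 0, 0, 2, 1, 1], [0, 0, 0, 0, 1, 1, 0], [1, 1, 1, 1, 2, 2, 2]]
  131354989166037 [21, 21, 21, 21, 9, 63, 63] 980031531164 :=
  dec4 1 7 1 _ _ 131354997554645 _ [23, 23, 23, 35, 23, 65, 77] _ (by decide +kernel) nd40

theorem nd42 : Ok 4 Dn4 [[1, 0, 0, 0, 1, 0, 0], [1, 1, 0, 0, 0, 0, 0], [1, 1, 1, 0, 1, 1, 1],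
  [1, 1, 1, 1, 2, 1, 1], [0, 0, 0, 0, 2, 1, 1], [0, 0, 0, 0, 1, 1, 0], [1, 1, 1, 1, 2, 2, 2]]
  131354989166037 [21, 21, 21, 21, 9, 63, 63] 1004326756750 :=
  cut4 1 4 1 1 1 _ [[1, 0, 0, 0, 1, 0, 0], [1, 1, 0, 0, 2, 1, 1], [1, 1, 1, 0, 1, 1, 1], [1, 1,
  1, 1, 2, 1, 1], [0, 0, 0, 0, 2, 1, 1], [0, 0, 0, 0, 1, 1, 0], [1, 1, 1, 1, 2, 2, 2]] [[1, 0, 0,
  0, 1, 0, 0], [1, 1, 0, 0, 0, 0, 0], [1, 1, 1, 0, 1, 1, 1], [1, 1, 1, 1, 2, 1, 1], [1, 1, 0, 0,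
  2, 1, 1], [0, 0, 0, 0, 1, 1, 0], [1, 1, 1, 1, 2, 2, 2]] _ _ 1052917207920 980031531164 _ (by
  decide +kernel) nd34 nd41

theorem nd43 : Ok 4 Dn4 [[1, 0, 0, 0, 1, 0, 0], [1, 1, 0, 0, 0, 0, 0], [1, 1, 1, 0, 1, 1, 1],
  [1, 1, 1, 1, 2, 1, 1], [0, 0, 0, 0, 2, 1, 1], [0, 0, 0, 0, 1, 1, 0], [1, 1, 1, 1, 2, 2, 2]]
  60986244988373 [21, 21, 21, 21, 9, 63, 63] 1004326756750 :=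
  dec4 2 14 0 _ _ 131354989166037 _ [21, 21, 21, 21, 9, 63, 63] _ (by decide +kernel) nd42

theorem nd44 : Ok 4 Dn4 [[1, 0, 0, 0, 1, 0, 0], [1, 1, 0, 0, 0, 0, 0], [1, 1, 1, 0, 1, 1, 1],
  [1, 1, 1, 1, 2, 1, 1], [0, 0, 0, 0, 2, 1, 1], [0, 0, 0, 0, 1, 1, 0], [1, 1, 1, 1, 2, 2, 2]]
  25801872899541 [21, 21, 21, 21, 9, 63, 63] 1004326756750 :=
  dec4 2 13 0 _ _ 60986244988373 _ [21, 21, 21, 21, 9, 63, 63] _ (by decide +kernel) nd43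

theorem nd45 : Ok 4 Dn4 [[1, 0, 0, 0, 1, 0, 0], [1, 1, 0, 0, 0, 0, 0], [1, 1, 1, 0, 1, 1, 1],
  [1, 1, 1, 1, 2, 1, 1], [0, 0, 0, 0, 2, 1, 1], [0, 0, 0, 0, 1, 1, 0], [1, 1, 1, 1, 2, 2, 2]]
  25800799157717 [21, 21, 21, 21, 9, 63, 63] 1004326756750 :=
  dec4 1 14 0 _ _ 25801872899541 _ [21, 21, 21, 21, 9, 63, 63] _ (by decide +kernel) nd44

theorem nd46 : Ok 4 Dn4 [[1, 0, 0, 0, 1, 0, 0], [1, 1, 0, 0, 0, 0, 0], [1, 1, 1, 0, 1, 1, 1],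
  [1, 1, 1, 1, 2, 1, 1], [0, 0, 0, 0, 2, 1, 1], [0, 0, 0, 0, 1, 1, 0], [1, 1, 1, 1, 2, 2, 2]]
  25800262286805 [21, 21, 21, 21, 9, 63, 63] 1004326756750 :=
  dec4 1 13 0 _ _ 25800799157717 _ [21, 21, 21, 21, 9, 63, 63] _ (by decide +kernel) nd45

end Pool.Agent.Work.MP_122e00_nt.Sharp.Cx

end

section

set_option autoImplicit false

set_option maxRecDepth 100000

/-!
# The certificate: data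
-/

namespace Pool.Agent.Work.MP_122e00_nt.Sharp.Cx

theorem ok13 : Ok 4 Dn4 [[3, 2, 2, 2, 4, 3, 2], [2, 2, 1, 1, 3, 3, 2], [1, 1, 1, 0, 2, 2, 1],
  [1, 1, 1, 1, 1, 1, 0], [1, 1, 1, 1, 2, 1, 1], [0, 0, 0, 0, 1, 1, 0], [1, 1, 1, 1, 2, 2, 2]]
  140737487831031 [42, 42, 42, 42, 72, 72, 126] 16959079179214 :=
  run4 tr13 _ _ _ _ dt13

theorem ok14 : Ok 4 Dn4 [[4, 3, 2, 2, 7, 6, 2], [1, 1, 0, 0, 1, 1, 0], [1, 1, 1, 0, 2, 2, 1],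
  [1, 1, 1, 1, 1, 1, 0], [1, 1, 1, 1, 2, 1, 1], [0, 0, 0, 0, 1, 1, 0], [2, 2, 1, 1, 3, 3, 2]]
  140737487831039 [46, 46, 70, 70, 76, 100, 154] 4046734819408 :=
  run4 tr14 _ _ _ _ dt14

theorem ok15 : Ok 4 Dn4 [[3, 2, 2, 2, 6, 5, 2], [4, 3, 2, 2, 7, 6, 2], [1, 1, 1, 0, 2, 2, 1],
  [1, 1, 1, 1, 1, 1, 0], [1, 1, 1, 1, 2, 1, 1], [0, 0, 0, 0, 1, 1, 0], [2, 2, 1, 1, 3, 3, 2]]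
  140737487831039 [46, 46, 70, 70, 76, 100, 154] 7102721312099 :=
  run4 tr15 _ _ _ _ dt15

theorem ok16 : Ok 4 Dn4 [[3, 2, 2, 2, 4, 3, 2], [1, 1, 0, 0, 1, 1, 0], [1, 1, 1, 0, 2, 2, 1],
  [1, 1, 1, 1, 1, 1, 0], [1, 1, 1, 1, 2, 1, 1], [3, 2, 2, 2, 6, 5, 2], [2, 2, 1, 1, 3, 3, 2]]
  140737487831039 [46, 46, 70, 70, 76, 100, 154] 10941776469488 :=
  run4 tr16 _ _ _ _ dt16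

theorem ok17 : Ok 4 Dn4 [[2, 1, 1, 1, 3, 2, 2], [1, 1, 0, 0, 1, 1, 0], [1, 1, 1, 0, 2, 2, 1],
  [3, 2, 2, 2, 4, 3, 2], [1, 1, 1, 1, 2, 1, 1], [0, 0, 0, 0, 1, 1, 0], [1, 1, 1, 1, 2, 2, 2]]
  140736414089207 [28, 40, 40, 40, 58, 70, 112] 5589356078893 :=
  run4 tr17 _ _ _ _ dt17

theorem ok18 : Ok 4 Dn4 [[2, 1, 1, 1, 3, 2, 2], [1, 1, 0, 0, 1, 1, 0], [1, 1, 1, 0, 1, 1, 1],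
  [1, 1, 1, 1, 1, 1, 0], [1, 1, 1, 1, 2, 1, 1], [1, 1, 1, 0, 2, 2, 1], [1, 1, 1, 1, 2, 2, 2]]
  140186658275319 [28, 40, 40, 40, 58, 70, 112] 8464440139678 :=
  run4 tr18 _ _ _ _ dt18

theorem ok19 : Ok 4 Dn4 [[2, 1, 1, 0, 2, 1, 1], [1, 1, 0, 0, 1, 1, 0], [1, 1, 1, 0, 1, 1, 1],
  [3, 2, 2, 2, 4, 3, 2], [1, 1, 1, 1, 2, 1, 1], [0, 0, 0, 0, 1, 1, 0], [2, 1, 1, 1, 3, 2, 2]]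
  140187732016637 [36, 72, 72, 96, 66, 126, 168] 1569077987990 :=
  run4 tr19 _ _ _ _ dt19

theorem ok20 : Ok 4 Dn4 [[5, 2, 2, 2, 6, 3, 2], [1, 1, 0, 0, 1, 1, 0], [2, 1, 1, 0, 3, 2, 1],
  [3, 2, 2, 2, 4, 3, 2], [1, 1, 1, 1, 2, 1, 1], [0, 0, 0, 0, 1, 1, 0], [2, 1, 1, 1, 3, 2, 2]]
  140737487831037 [40, 100, 100, 100, 70, 154, 196] 1799275833682 :=
  run4 tr20 _ _ _ _ dt20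

theorem ok21 : Ok 4 Dn4 [[1, 0, 0, 0, 1, 0, 0], [1, 1, 0, 0, 1, 1, 0], [2, 1, 1, 0, 3, 2, 1],
  [5, 2, 2, 2, 6, 3, 2], [1, 1, 1, 1, 2, 1, 1], [0, 0, 0, 0, 1, 1, 0], [2, 1, 1, 1, 3, 2, 2]]
  140737487831037 [40, 100, 100, 100, 70, 154, 196] 683447432927 :=
  run4 tr21 _ _ _ _ dt21

theorem ok22 : Ok 4 Dn4 [[1, 0, 0, 0, 1, 0, 0], [1, 1, 0, 0, 1, 1, 0], [2, 1, 1, 0, 2, 1, 1],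
  [3, 2, 2, 2, 4, 3, 2], [1, 1, 1, 1, 2, 1, 1], [2, 1, 1, 0, 3, 2, 1], [2, 1, 1, 1, 3, 2, 2]]
  140187732017149 [40, 100, 100, 100, 70, 154, 196] 931134163411 :=
  run4 tr22 _ _ _ _ dt22

theorem ok23 : Ok 4 Dn4 [[3, 2, 2, 1, 5, 4, 1], [1, 1, 0, 0, 1, 1, 0], [1, 1, 1, 0, 2, 2, 1],
  [1, 1, 1, 1, 1, 1, 0], [1, 1, 1, 1, 2, 1, 1], [0, 0, 0, 0, 1, 1, 0], [3, 2, 2, 2, 4, 3, 2]]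
  140737487831039 [50, 74, 74, 98, 80, 128, 182] 2976770317650 :=
  run4 tr23 _ _ _ _ dt23

theorem ok24 : Ok 4 Dn4 [[3, 2, 2, 1, 4, 3, 1], [1, 1, 0, 0, 1, 1, 0], [1, 1, 1, 0, 2, 2, 1],
  [1, 1, 1, 1, 1, 1, 0], [1, 1, 1, 1, 2, 1, 1], [3, 2, 2, 1, 5, 4, 1], [3, 2, 2, 2, 4, 3, 2]]
  140737487831039 [50, 74, 74, 98, 80, 128, 182] 5351655614279 :=
  run4 tr24 _ _ _ _ dt24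

theorem ok25 : Ok 4 Dn4 [[2, 1, 1, 1, 2, 1, 0], [1, 1, 0, 0, 1, 1, 0], [3, 2, 2, 1, 4, 3, 1],
  [1, 1, 1, 1, 1, 1, 0], [1, 1, 1, 1, 2, 1, 1], [0, 0, 0, 0, 1, 1, 0], [3, 2, 2, 2, 4, 3, 2]]
  140737487830527 [50, 74, 74, 98, 80, 128, 182] 3391099718071 :=
  run4 tr25 _ _ _ _ dt25

theorem ok26 : Ok 4 Dn4 [[2, 1, 1, 1, 2, 1, 0], [1, 1, 0, 0, 1, 1, 0], [1, 1, 1, 0, 1, 1, 1],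
  [1, 1, 1, 1, 1, 1, 0], [1, 1, 1, 1, 2, 1, 1], [1, 1, 1, 0, 2, 2, 1], [3, 2, 2, 2, 4, 3, 2]]
  140187732016639 [50, 74, 74, 98, 80, 128, 182] 4433846057445 :=
  run4 tr26 _ _ _ _ dt26

theorem ok27 : Ok 4 Dn4 [[2, 1, 1, 0, 3, 2, 1], [1, 1, 0, 0, 1, 1, 0], [3, 2, 2, 1, 5, 4, 1],
  [2, 1, 1, 1, 2, 1, 0], [1, 1, 1, 1, 2, 1, 1], [0, 0, 0, 0, 1, 1, 0], [3, 2, 2, 2, 4, 3, 2]]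
  140737487831039 [40, 100, 100, 100, 70, 154, 196] 1823049115386 :=
  run4 tr27 _ _ _ _ dt27

theorem ok28 : Ok 4 Dn4 [[2, 1, 1, 0, 3, 2, 1], [1, 1, 0, 0, 1, 1, 0], [3, 2, 2, 1, 4, 3, 1],
  [2, 1, 1, 1, 2, 1, 0], [1, 1, 1, 1, 2, 1, 1], [3, 2, 2, 1, 5, 4, 1], [3, 2, 2, 2, 4, 3, 2]]
  140737487831039 [40, 100, 100, 100, 70, 154, 196] 3384738313317 :=
  run4 tr28 _ _ _ _ dt28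

theorem ok29 : Ok 4 Dn4 [[2, 1, 1, 0, 3, 2, 1], [1, 1, 0, 0, 1, 1, 0], [1, 1, 1, 0, 2, 2, 1],
  [3, 2, 2, 1, 4, 3, 1], [1, 1, 1, 1, 2, 1, 1], [0, 0, 0, 0, 1, 1, 0], [3, 2, 2, 2, 4, 3, 2]]
  140737487830527 [36, 72, 72, 96, 66, 126, 168] 1401415840006 :=
  run4 tr29 _ _ _ _ dt29

theorem ok30 : Ok 4 Dn4 [[2, 1, 1, 0, 3, 2, 1], [1, 1, 0, 0, 1, 1, 0], [1, 1, 1, 0, 1, 1, 1],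
  [2, 1, 1, 1, 2, 1, 0], [1, 1, 1, 1, 2, 1, 1], [1, 1, 1, 0, 2, 2, 1], [3, 2, 2, 2, 4, 3, 2]]
  140187732016639 [36, 72, 72, 96, 66, 126, 168] 2211335139361 :=
  run4 tr30 _ _ _ _ dt30

theorem ok31 : Ok 4 Dn4 [[2, 1, 1, 0, 2, 1, 1], [1, 1, 0, 0, 1, 1, 0], [1, 1, 1, 0, 1, 1, 1],
  [2, 1, 1, 1, 2, 1, 0], [1, 1, 1, 1, 2, 1, 1], [2, 1, 1, 0, 3, 2, 1], [3, 2, 2, 2, 4, 3, 2]]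
  140187732016639 [36, 72, 72, 96, 66, 126, 168] 2279625515332 :=
  run4 tr31 _ _ _ _ dt31

theorem ok32 : Ok 4 Dn4 [[2, 1, 1, 1, 3, 1, 1], [1, 1, 0, 0, 1, 1, 0], [4, 2, 2, 1, 6, 4, 1],
  [2, 1, 1, 1, 3, 2, 0], [1, 1, 1, 1, 2, 1, 1], [0, 0, 0, 0, 1, 1, 0], [3, 2, 2, 2, 4, 3, 2]]
  140737487831037 [40, 100, 100, 100, 70, 154, 196] 2464940413593 :=
  run4 tr32 _ _ _ _ dt32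

theorem ok33 : Ok 4 Dn4 [[1, 0, 0, 0, 1, 0, 0], [3, 2, 1, 1, 4, 2, 1], [4, 2, 2, 1, 6, 4, 1],
  [2, 1, 1, 1, 3, 2, 0], [2, 1, 1, 1, 3, 1, 1], [0, 0, 0, 0, 1, 1, 0], [3, 2, 2, 2, 4, 3, 2]]
  140737487831037 [40, 100, 100, 100, 70, 154, 196] 1229888244753 :=
  run4 tr33 _ _ _ _ dt33

theorem ok34 : Ok 4 Dn4 [[1, 0, 0, 0, 1, 0, 0], [1, 1, 0, 0, 1, 1, 0], [4, 2, 2, 1, 6, 4, 1],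
  [2, 1, 1, 1, 3, 2, 0], [3, 2, 1, 1, 5, 3, 1], [0, 0, 0, 0, 1, 1, 0], [3, 2, 2, 2, 4, 3, 2]]
  140737487831037 [40, 100, 100, 100, 70, 154, 196] 429345668527 :=
  run4 tr34 _ _ _ _ dt34

theorem ok35 : Ok 4 Dn4 [[1, 0, 0, 0, 1, 0, 0], [1, 1, 0, 0, 1, 1, 0], [4, 2, 2, 1, 6, 4, 1],
  [2, 1, 1, 1, 3, 2, 0], [3, 2, 1, 1, 4, 2, 1], [3, 2, 1, 1, 5, 3, 1], [3, 2, 2, 2, 4, 3, 2]]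
  140737487831037 [40, 100, 100, 100, 70, 154, 196] 886061624763 :=
  run4 tr35 _ _ _ _ dt35

theorem ok36 : Ok 4 Dn4 [[1, 0, 0, 0, 1, 0, 0], [1, 1, 0, 0, 1, 1, 0], [2, 1, 1, 0, 3, 2, 1],
  [4, 2, 2, 1, 6, 4, 1], [1, 1, 1, 1, 2, 1, 1], [0, 0, 0, 0, 1, 1, 0], [3, 2, 2, 2, 4, 3, 2]]
  140737487831037 [40, 100, 100, 100, 70, 154, 196] 703262408566 :=
  run4 tr36 _ _ _ _ dt36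

theorem ok37 : Ok 4 Dn4 [[1, 0, 0, 0, 1, 0, 0], [1, 1, 0, 0, 1, 1, 0], [4, 2, 2, 1, 5, 3, 1],
  [2, 1, 1, 1, 2, 1, 0], [1, 1, 1, 1, 2, 1, 1], [2, 1, 1, 1, 3, 2, 0], [3, 2, 2, 2, 4, 3, 2]]
  281474976186365 [41, 101, 101, 101, 77, 161, 197] 3003933581248 :=
  run4 tr37 _ _ _ _ dt37

theorem ok38 : Ok 4 Dn4 [[1, 0, 0, 0, 1, 0, 0], [1, 1, 0, 0, 1, 1, 0], [2, 1, 1, 0, 3, 2, 1],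
  [4, 2, 2, 1, 5, 3, 1], [1, 1, 1, 1, 2, 1, 1], [2, 1, 1, 1, 3, 2, 0], [3, 2, 2, 2, 4, 3, 2]]
  281474976186365 [41, 101, 101, 101, 77, 161, 197] 1634441918891 :=
  run4 tr38 _ _ _ _ dt38

theorem ok39 : Ok 4 Dn4 [[1, 0, 0, 0, 1, 0, 0], [1, 1, 0, 0, 1, 1, 0], [2, 1, 1, 0, 2, 1, 1],
  [2, 1, 1, 1, 2, 1, 0], [1, 1, 1, 1, 2, 1, 1], [2, 1, 1, 0, 3, 2, 1], [3, 2, 2, 2, 4, 3, 2]]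
  140187732017149 [40, 100, 100, 100, 70, 154, 196] 1342592188854 :=
  run4 tr39 _ _ _ _ dt39

theorem ok40 : Ok 4 Dn4 [[2, 1, 1, 1, 3, 2, 2], [2, 2, 1, 1, 2, 2, 2], [1, 1, 1, 0, 1, 1, 1],
  [1, 1, 1, 1, 1, 1, 0], [1, 1, 1, 1, 2, 1, 1], [1, 1, 0, 0, 1, 1, 0], [1, 1, 1, 1, 2, 2, 2]]
  281439542706167 [33, 45, 57, 57, 93, 105, 117] 10308306034411 :=
  run4 tr40 _ _ _ _ dt40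

theorem ok41 : Ok 4 Dn4 [[2, 1, 1, 1, 3, 2, 2], [1, 1, 0, 0, 0, 0, 0], [1, 1, 1, 0, 1, 1, 1],
  [1, 1, 1, 1, 1, 1, 0], [1, 1, 1, 1, 2, 1, 1], [1, 1, 0, 0, 1, 1, 0], [2, 2, 1, 1, 2, 2, 2]]
  281439542706167 [33, 45, 57, 57, 93, 105, 117] 6335130377134 :=
  run4 tr41 _ _ _ _ dt41

theorem ok42 : Ok 4 Dn4 [[2, 1, 1, 0, 2, 1, 1], [1, 1, 0, 0, 0, 0, 0], [1, 1, 1, 0, 1, 1, 1],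
  [1, 1, 1, 1, 1, 1, 0], [1, 1, 1, 1, 2, 1, 1], [1, 1, 0, 0, 1, 1, 0], [2, 1, 1, 1, 3, 2, 2]]
  281439542705661 [41, 77, 89, 113, 101, 161, 173] 2734498373274 :=
  run4 tr42 _ _ _ _ dt42

theorem ok43 : Ok 4 Dn4 [[2, 1, 1, 1, 2, 1, 0], [2, 2, 1, 1, 2, 1, 1], [2, 1, 1, 0, 2, 1, 1],
  [1, 1, 1, 1, 1, 1, 0], [1, 1, 1, 1, 2, 1, 1], [1, 1, 0, 0, 1, 1, 0], [2, 1, 1, 1, 3, 2, 2]]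
  281473902444541 [45, 105, 117, 117, 105, 189, 201] 3810255458271 :=
  run4 tr43 _ _ _ _ dt43

theorem ok44 : Ok 4 Dn4 [[1, 0, 0, 0, 1, 0, 0], [2, 2, 1, 1, 2, 1, 1], [2, 1, 1, 0, 2, 1, 1],
  [2, 1, 1, 1, 2, 1, 0], [1, 1, 1, 1, 2, 1, 1], [1, 1, 0, 0, 1, 1, 0], [2, 1, 1, 1, 3, 2, 2]]
  281473902444541 [45, 105, 117, 117, 105, 189, 201] 1652721149765 :=
  run4 tr44 _ _ _ _ dt44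

theorem ok45 : Ok 4 Dn4 [[2, 1, 1, 1, 2, 1, 0], [1, 1, 0, 0, 0, 0, 0], [3, 2, 2, 1, 3, 2, 1],
  [1, 1, 1, 1, 1, 1, 0], [2, 2, 1, 1, 2, 1, 1], [1, 1, 0, 0, 1, 1, 0], [2, 1, 1, 1, 3, 2, 2]]
  281439542706175 [45, 105, 117, 117, 105, 189, 201] 2731222827469 :=
  run4 tr45 _ _ _ _ dt45

theorem ok46 : Ok 4 Dn4 [[2, 1, 1, 1, 2, 1, 0], [1, 1, 0, 0, 0, 0, 0], [2, 1, 1, 0, 2, 1, 1],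
  [3, 2, 2, 1, 3, 2, 1], [2, 2, 1, 1, 2, 1, 1], [1, 1, 0, 0, 1, 1, 0], [2, 1, 1, 1, 3, 2, 2]]
  281439542706175 [45, 105, 117, 117, 105, 189, 201] 1721525435308 :=
  run4 tr46 _ _ _ _ dt46

theorem ok47 : Ok 4 Dn4 [[1, 0, 0, 0, 1, 0, 0], [3, 2, 1, 1, 3, 2, 2], [2, 1, 1, 0, 2, 1, 1],
  [2, 1, 1, 1, 2, 1, 0], [2, 2, 1, 1, 2, 1, 1], [1, 1, 0, 0, 1, 1, 0], [2, 1, 1, 1, 3, 2, 2]]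
  281440616447997 [45, 105, 117, 117, 105, 189, 201] 942053180125 :=
  run4 tr47 _ _ _ _ dt47

theorem ok48 : Ok 4 Dn4 [[1, 0, 0, 0, 1, 0, 0], [1, 1, 0, 0, 0, 0, 0], [2, 1, 1, 0, 2, 1, 1],
  [2, 1, 1, 1, 2, 1, 0], [2, 2, 1, 1, 2, 1, 1], [1, 1, 0, 0, 1, 1, 0], [3, 2, 1, 1, 3, 2, 2]]
  281440616447997 [45, 105, 117, 117, 105, 189, 201] 661929610826 :=
  run4 tr48 _ _ _ _ dt48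

theorem ok49 : Ok 4 Dn4 [[3, 2, 2, 2, 3, 2, 2], [2, 2, 1, 1, 2, 2, 2], [2, 2, 2, 1, 1, 1, 1],
  [1, 1, 1, 1, 0, 0, 0], [1, 1, 1, 1, 2, 1, 1], [1, 1, 1, 1, 1, 1, 0], [1, 1, 1, 1, 2, 2, 2]]
  281440616447991 [63, 63, 63, 63, 135, 135, 135] 40484333277599 :=
  run4 tr49 _ _ _ _ dt49

theorem ok50 : Ok 4 Dn4 [[3, 2, 2, 2, 3, 2, 2], [1, 1, 0, 0, 0, 0, 0], [2, 2, 2, 1, 1, 1, 1],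
  [1, 1, 1, 1, 0, 0, 0], [1, 1, 1, 1, 2, 1, 1], [1, 1, 1, 1, 1, 1, 0], [2, 2, 1, 1, 2, 2, 2]]
  281440616447991 [63, 63, 63, 63, 135, 135, 135] 13679169537804 :=
  run4 tr50 _ _ _ _ dt50

theorem ok51 : Ok 4 Dn4 [[3, 2, 2, 2, 3, 2, 2], [1, 1, 0, 0, 0, 0, 0], [1, 1, 1, 0, 1, 1, 1],
  [2, 2, 2, 1, 1, 1, 1], [1, 1, 1, 1, 2, 1, 1], [1, 1, 1, 1, 1, 1, 0], [1, 1, 1, 1, 2, 2, 2]]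
  281440616447991 [63, 63, 63, 63, 135, 135, 135] 10524820565573 :=
  run4 tr51 _ _ _ _ dt51

theorem ok52 : Ok 4 Dn4 [[2, 1, 1, 1, 1, 0, 0], [2, 2, 1, 1, 2, 1, 1], [2, 2, 2, 1, 1, 1, 1],
  [1, 1, 1, 1, 0, 0, 0], [1, 1, 1, 1, 2, 1, 1], [1, 1, 1, 1, 1, 1, 0], [3, 2, 2, 2, 3, 2, 2]]
  281440616447487 [71, 95, 95, 119, 143, 191, 191] 9383088815563 :=
  run4 tr52 _ _ _ _ dt52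

theorem ok53 : Ok 4 Dn4 [[2, 1, 1, 1, 1, 0, 0], [1, 1, 0, 0, 0, 0, 0], [2, 2, 2, 1, 1, 1, 1],
  [1, 1, 1, 1, 0, 0, 0], [2, 2, 1, 1, 2, 1, 1], [1, 1, 1, 1, 1, 1, 0], [3, 2, 2, 2, 3, 2, 2]]
  281440616447487 [71, 95, 95, 119, 143, 191, 191] 4020433556415 :=
  run4 tr53 _ _ _ _ dt53

theorem ok54 : Ok 4 Dn4 [[2, 1, 1, 1, 1, 0, 0], [1, 1, 0, 0, 0, 0, 0], [1, 1, 1, 0, 1, 1, 1],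
  [2, 2, 2, 1, 1, 1, 1], [1, 1, 1, 1, 2, 1, 1], [1, 1, 1, 1, 1, 1, 0], [3, 2, 2, 2, 3, 2, 2]]
  281440616447487 [71, 95, 95, 119, 143, 191, 191] 4640058862314 :=
  run4 tr54 _ _ _ _ dt54

theorem ok55 : Ok 4 Dn4 [[2, 1, 1, 1, 3, 2, 2], [1, 1, 0, 0, 0, 0, 0], [1, 1, 1, 0, 1, 1, 1],
  [3, 2, 2, 2, 3, 2, 2], [1, 1, 1, 1, 2, 1, 1], [1, 1, 1, 1, 1, 1, 0], [1, 1, 1, 1, 2, 2, 2]]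
  281439542705621 [35, 59, 59, 59, 107, 119, 119] 11665434981333 :=
  run4 tr55 _ _ _ _ dt55

theorem ok56 : Ok 4 Dn4 [[1, 0, 0, 0, 1, 0, 0], [4, 3, 2, 2, 3, 2, 2], [1, 1, 1, 0, 1, 1, 1],
  [3, 2, 2, 2, 3, 2, 2], [1, 1, 1, 1, 2, 1, 1], [1, 1, 1, 1, 1, 1, 0], [2, 1, 1, 1, 3, 2, 2]]
  281439542705661 [43, 91, 91, 115, 115, 175, 175] 4749146948509 :=
  run4 tr56 _ _ _ _ dt56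

theorem ok57 : Ok 4 Dn4 [[2, 1, 1, 0, 2, 1, 1], [1, 1, 0, 0, 0, 0, 0], [1, 1, 1, 0, 1, 1, 1],
  [4, 3, 2, 2, 3, 2, 2], [1, 1, 1, 1, 2, 1, 1], [1, 1, 1, 1, 1, 1, 0], [2, 1, 1, 1, 3, 2, 2]]
  281439542705661 [43, 91, 91, 115, 115, 175, 175] 3879568959353 :=
  run4 tr57 _ _ _ _ dt57

theorem ok58 : Ok 4 Dn4 [[2, 1, 1, 1, 2, 1, 0], [2, 2, 1, 1, 2, 1, 1], [2, 1, 1, 0, 2, 1, 1],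
  [4, 3, 2, 2, 3, 2, 2], [1, 1, 1, 1, 2, 1, 1], [1, 1, 1, 1, 1, 1, 0], [2, 1, 1, 1, 3, 2, 2]]
  281439542706175 [47, 119, 119, 119, 119, 203, 203] 5713783830841 :=
  run4 tr58 _ _ _ _ dt58

theorem ok59 : Ok 4 Dn4 [[2, 1, 1, 1, 2, 1, 0], [1, 1, 0, 0, 0, 0, 0], [3, 2, 2, 1, 3, 2, 1],
  [4, 3, 2, 2, 3, 2, 2], [2, 2, 1, 1, 2, 1, 1], [1, 1, 1, 1, 1, 1, 0], [2, 1, 1, 1, 3, 2, 2]]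
  281439542706175 [47, 119, 119, 119, 119, 203, 203] 3193524443613 :=
  run4 tr59 _ _ _ _ dt59

theorem ok60 : Ok 4 Dn4 [[2, 1, 1, 1, 2, 1, 0], [1, 1, 0, 0, 0, 0, 0], [2, 1, 1, 0, 2, 1, 1],
  [4, 3, 2, 2, 3, 2, 2], [2, 2, 1, 1, 2, 1, 1], [3, 2, 2, 1, 3, 2, 1], [2, 1, 1, 1, 3, 2, 2]]
  281439542706175 [47, 119, 119, 119, 119, 203, 203] 2187481681240 :=
  run4 tr60 _ _ _ _ dt60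

theorem ok61 : Ok 4 Dn4 [[1, 0, 0, 0, 1, 0, 0], [2, 2, 1, 1, 2, 1, 1], [2, 1, 1, 0, 2, 1, 1],
  [4, 3, 2, 2, 3, 2, 2], [1, 1, 1, 1, 2, 1, 1], [2, 1, 1, 1, 2, 1, 0], [2, 1, 1, 1, 3, 2, 2]]
  281440616447997 [47, 119, 119, 119, 119, 203, 203] 2953865452214 :=
  run4 tr61 _ _ _ _ dt61

theorem ok62 : Ok 4 Dn4 [[1, 0, 0, 0, 1, 0, 0], [3, 2, 1, 1, 3, 2, 2], [2, 1, 1, 0, 2, 1, 1],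
  [4, 3, 2, 2, 3, 2, 2], [2, 2, 1, 1, 2, 1, 1], [2, 1, 1, 1, 2, 1, 0], [2, 1, 1, 1, 3, 2, 2]]
  281440616447997 [47, 119, 119, 119, 119, 203, 203] 2263860597795 :=
  run4 tr62 _ _ _ _ dt62

theorem ok63 : Ok 4 Dn4 [[6, 3, 2, 2, 5, 2, 2], [1, 1, 0, 0, 0, 0, 0], [2, 1, 1, 0, 2, 1, 1],
  [4, 3, 2, 2, 3, 2, 2], [2, 2, 1, 1, 2, 1, 1], [2, 1, 1, 1, 2, 1, 0], [3, 2, 1, 1, 3, 2, 2]]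
  281440616972285 [51, 123, 147, 147, 147, 207, 231] 2097324290491 :=
  run4 tr63 _ _ _ _ dt63

theorem ok64 : Ok 4 Dn4 [[1, 0, 0, 0, 1, 0, 0], [1, 1, 0, 0, 0, 0, 0], [2, 1, 1, 0, 2, 1, 1],
  [6, 3, 2, 2, 5, 2, 2], [2, 2, 1, 1, 2, 1, 1], [2, 1, 1, 1, 2, 1, 0], [3, 2, 1, 1, 3, 2, 2]]
  281440616972285 [51, 123, 147, 147, 147, 207, 231] 650645376032 :=
  run4 tr64 _ _ _ _ dt64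

theorem ok65 : Ok 4 Dn4 [[1, 0, 0, 0, 1, 0, 0], [1, 1, 0, 0, 0, 0, 0], [3, 2, 2, 1, 2, 1, 1],
  [2, 1, 1, 1, 1, 0, 0], [1, 1, 1, 1, 2, 1, 1], [1, 1, 1, 1, 1, 1, 0], [3, 2, 2, 2, 3, 2, 2]]
  281439542705661 [43, 91, 91, 115, 115, 175, 175] 3435485654740 :=
  run4 tr65 _ _ _ _ dt65

theorem ok66 : Ok 4 Dn4 [[2, 1, 1, 0, 2, 1, 1], [1, 1, 0, 0, 0, 0, 0], [1, 1, 1, 0, 1, 1, 1],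
  [3, 2, 2, 1, 2, 1, 1], [1, 1, 1, 1, 2, 1, 1], [1, 1, 1, 1, 1, 1, 0], [3, 2, 2, 2, 3, 2, 2]]
  281439542705661 [43, 91, 91, 115, 115, 175, 175] 4690273816477 :=
  run4 tr66 _ _ _ _ dt66

theorem ok67 : Ok 4 Dn4 [[2, 1, 1, 1, 2, 1, 0], [1, 1, 0, 0, 0, 0, 0], [2, 1, 1, 0, 2, 1, 1],
  [3, 2, 2, 1, 2, 1, 1], [1, 1, 1, 1, 2, 1, 1], [1, 1, 1, 1, 1, 1, 0], [3, 2, 2, 2, 3, 2, 2]]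
  281439542706173 [47, 119, 119, 119, 119, 203, 203] 3802164167442 :=
  run4 tr67 _ _ _ _ dt67

theorem ok68 : Ok 4 Dn4 [[1, 0, 0, 0, 1, 0, 0], [2, 2, 1, 1, 2, 1, 1], [2, 1, 1, 0, 2, 1, 1],
  [3, 2, 2, 1, 2, 1, 1], [1, 1, 1, 1, 2, 1, 1], [2, 1, 1, 1, 2, 1, 0], [3, 2, 2, 2, 3, 2, 2]]
  281440616447997 [47, 119, 119, 119, 119, 203, 203] 3809417516076 :=
  run4 tr68 _ _ _ _ dt68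

theorem ok69 : Ok 4 Dn4 [[1, 0, 0, 0, 1, 0, 0], [1, 1, 0, 0, 0, 0, 0], [2, 1, 1, 0, 2, 1, 1],
  [3, 2, 2, 1, 2, 1, 1], [2, 2, 1, 1, 2, 1, 1], [2, 1, 1, 1, 2, 1, 0], [3, 2, 2, 2, 3, 2, 2]]
  281440616447997 [47, 119, 119, 119, 119, 203, 203] 1501236319635 :=
  run4 tr69 _ _ _ _ dt69

theorem nd47 : Ok 4 Dn4 [[3, 2, 2, 2, 6, 5, 2], [1, 1, 0, 0, 1, 1, 0], [1, 1, 1, 0, 2, 2, 1],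
  [1, 1, 1, 1, 1, 1, 0], [1, 1, 1, 1, 2, 1, 1], [0, 0, 0, 0, 1, 1, 0], [2, 2, 1, 1, 3, 3, 2]]
  140737487831039 [46, 46, 70, 70, 76, 100, 154] 4516886587515 :=
  cut4 0 1 1 1 1 _ [[4, 3, 2, 2, 7, 6, 2], [1, 1, 0, 0, 1, 1, 0], [1, 1, 1, 0, 2, 2, 1], [1, 1,
  1, 1, 1, 1, 0], [1, 1, 1, 1, 2, 1, 1], [0, 0, 0, 0, 1, 1, 0], [2, 2, 1, 1, 3, 3, 2]] [[3, 2, 2,
  2, 6, 5, 2], [4, 3, 2, 2, 7, 6, 2], [1, 1, 1, 0, 2, 2, 1], [1, 1, 1, 1, 1, 1, 0], [1, 1, 1, 1,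
  2, 1, 1], [0, 0, 0, 0, 1, 1, 0], [2, 2, 1, 1, 3, 3, 2]] _ _ 4046734819408 7102721312099 _ (by
  decide +kernel) ok14 ok15

theorem nd48 : Ok 4 Dn4 [[3, 2, 2, 2, 4, 3, 2], [1, 1, 0, 0, 1, 1, 0], [1, 1, 1, 0, 2, 2, 1],
  [1, 1, 1, 1, 1, 1, 0], [1, 1, 1, 1, 2, 1, 1], [0, 0, 0, 0, 1, 1, 0], [2, 2, 1, 1, 3, 3, 2]]
  140737487831039 [46, 46, 70, 70, 76, 100, 154] 5685048384238 :=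
  cut4 0 5 1 2 1 _ [[3, 2, 2, 2, 6, 5, 2], [1, 1, 0, 0, 1, 1, 0], [1, 1, 1, 0, 2, 2, 1], [1, 1,
  1, 1, 1, 1, 0], [1, 1, 1, 1, 2, 1, 1], [0, 0, 0, 0, 1, 1, 0], [2, 2, 1, 1, 3, 3, 2]] [[3, 2, 2,
  2, 4, 3, 2], [1, 1, 0, 0, 1, 1, 0], [1, 1, 1, 0, 2, 2, 1], [1, 1, 1, 1, 1, 1, 0], [1, 1, 1, 1,
  2, 1, 1], [3, 2, 2, 2, 6, 5, 2], [2, 2, 1, 1, 3, 3, 2]] _ _ 4516886587515 10941776469488 _ (by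
  decide +kernel) nd47 ok16

theorem nd49 : Ok 4 Dn4 [[3, 2, 2, 2, 4, 3, 2], [1, 1, 0, 0, 1, 1, 0], [1, 1, 1, 0, 2, 2, 1],
  [1, 1, 1, 1, 1, 1, 0], [1, 1, 1, 1, 2, 1, 1], [0, 0, 0, 0, 1, 1, 0], [2, 2, 1, 1, 3, 3, 2]]
  140737487831031 [42, 42, 42, 42, 72, 72, 126] 5685048384238 :=
  dec4 0 3 1 _ _ 140737487831039 _ [46, 46, 70, 70, 76, 100, 154] _ (by decide +kernel) nd48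

theorem nd50 : Ok 4 Dn4 [[3, 2, 2, 2, 4, 3, 2], [1, 1, 0, 0, 1, 1, 0], [1, 1, 1, 0, 2, 2, 1],
  [1, 1, 1, 1, 1, 1, 0], [1, 1, 1, 1, 2, 1, 1], [0, 0, 0, 0, 1, 1, 0], [1, 1, 1, 1, 2, 2, 2]]
  140737487831031 [42, 42, 42, 42, 72, 72, 126] 8906200039946 :=
  cut4 1 6 1 1 1 _ [[3, 2, 2, 2, 4, 3, 2], [2, 2, 1, 1, 3, 3, 2], [1, 1, 1, 0, 2, 2, 1], [1, 1,
  1, 1, 1, 1, 0], [1, 1, 1, 1, 2, 1, 1], [0, 0, 0, 0, 1, 1, 0], [1, 1, 1, 1, 2, 2, 2]] [[3, 2, 2,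
  2, 4, 3, 2], [1, 1, 0, 0, 1, 1, 0], [1, 1, 1, 0, 2, 2, 1], [1, 1, 1, 1, 1, 1, 0], [1, 1, 1, 1,
  2, 1, 1], [0, 0, 0, 0, 1, 1, 0], [2, 2, 1, 1, 3, 3, 2]] _ _ 16959079179214 5685048384238 _ (by
  decide +kernel) ok13 nd49

theorem nd51 : Ok 4 Dn4 [[3, 2, 2, 2, 4, 3, 2], [1, 1, 0, 0, 1, 1, 0], [1, 1, 1, 0, 2, 2, 1],
  [1, 1, 1, 1, 1, 1, 0], [1, 1, 1, 1, 2, 1, 1], [0, 0, 0, 0, 1, 1, 0], [1, 1, 1, 1, 2, 2, 2]]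
  140736414089207 [28, 40, 40, 40, 58, 70, 112] 8906200039946 :=
  dec4 1 14 1 _ _ 140737487831031 _ [42, 42, 42, 42, 72, 72, 126] _ (by decide +kernel) nd50

theorem nd52 : Ok 4 Dn4 [[2, 1, 1, 1, 3, 2, 2], [1, 1, 0, 0, 1, 1, 0], [1, 1, 1, 0, 2, 2, 1],
  [1, 1, 1, 1, 1, 1, 0], [1, 1, 1, 1, 2, 1, 1], [0, 0, 0, 0, 1, 1, 0], [1, 1, 1, 1, 2, 2, 2]]
  140736414089207 [28, 40, 40, 40, 58, 70, 112] 7800585386262 :=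
  cut4 0 3 1 1 1 _ [[3, 2, 2, 2, 4, 3, 2], [1, 1, 0, 0, 1, 1, 0], [1, 1, 1, 0, 2, 2, 1], [1, 1,
  1, 1, 1, 1, 0], [1, 1, 1, 1, 2, 1, 1], [0, 0, 0, 0, 1, 1, 0], [1, 1, 1, 1, 2, 2, 2]] [[2, 1, 1,
  1, 3, 2, 2], [1, 1, 0, 0, 1, 1, 0], [1, 1, 1, 0, 2, 2, 1], [3, 2, 2, 2, 4, 3, 2], [1, 1, 1, 1,
  2, 1, 1], [0, 0, 0, 0, 1, 1, 0], [1, 1, 1, 1, 2, 2, 2]] _ _ 8906200039946 5589356078893 _ (by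
  decide +kernel) nd51 ok17

theorem nd53 : Ok 4 Dn4 [[2, 1, 1, 1, 3, 2, 2], [1, 1, 0, 0, 1, 1, 0], [1, 1, 1, 0, 2, 2, 1],
  [1, 1, 1, 1, 1, 1, 0], [1, 1, 1, 1, 2, 1, 1], [0, 0, 0, 0, 1, 1, 0], [1, 1, 1, 1, 2, 2, 2]]
  140186658275319 [28, 40, 40, 40, 58, 70, 112] 7800585386262 :=
  dec4 2 7 0 _ _ 140736414089207 _ [28, 40, 40, 40, 58, 70, 112] _ (by decide +kernel) nd52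

theorem nd54 : Ok 4 Dn4 [[2, 1, 1, 1, 3, 2, 2], [1, 1, 0, 0, 1, 1, 0], [1, 1, 1, 0, 1, 1, 1],
  [1, 1, 1, 1, 1, 1, 0], [1, 1, 1, 1, 2, 1, 1], [0, 0, 0, 0, 1, 1, 0], [1, 1, 1, 1, 2, 2, 2]]
  140186658275319 [28, 40, 40, 40, 58, 70, 112] 7966549074616 :=
  cut4 2 5 1 1 1 _ [[2, 1, 1, 1, 3, 2, 2], [1, 1, 0, 0, 1, 1, 0], [1, 1, 1, 0, 2, 2, 1], [1, 1,
  1, 1, 1, 1, 0], [1, 1, 1, 1, 2, 1, 1], [0, 0, 0, 0, 1, 1, 0], [1, 1, 1, 1, 2, 2, 2]] [[2, 1, 1,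
  1, 3, 2, 2], [1, 1, 0, 0, 1, 1, 0], [1, 1, 1, 0, 1, 1, 1], [1, 1, 1, 1, 1, 1, 0], [1, 1, 1, 1,
  2, 1, 1], [1, 1, 1, 0, 2, 2, 1], [1, 1, 1, 1, 2, 2, 2]] _ _ 7800585386262 8464440139678 _ (by
  decide +kernel) nd53 ok18

theorem nd55 : Ok 4 Dn4 [[2, 1, 1, 1, 3, 2, 2], [1, 1, 0, 0, 1, 1, 0], [1, 1, 1, 0, 1, 1, 1],
  [1, 1, 1, 1, 1, 1, 0], [1, 1, 1, 1, 2, 1, 1], [0, 0, 0, 0, 1, 1, 0], [1, 1, 1, 1, 2, 2, 2]]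
  140186658274807 [28, 40, 40, 40, 58, 70, 112] 7966549074616 :=
  dec4 0 9 0 _ _ 140186658275319 _ [28, 40, 40, 40, 58, 70, 112] _ (by decide +kernel) nd54

theorem nd56 : Ok 4 Dn4 [[2, 1, 1, 1, 3, 2, 2], [1, 1, 0, 0, 1, 1, 0], [1, 1, 1, 0, 1, 1, 1],
  [1, 1, 1, 1, 1, 1, 0], [1, 1, 1, 1, 2, 1, 1], [0, 0, 0, 0, 1, 1, 0], [1, 1, 1, 1, 2, 2, 2]]
  140186658274775 [28, 40, 40, 40, 58, 70, 112] 7966549074616 :=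
  dec4 0 5 0 _ _ 140186658274807 _ [28, 40, 40, 40, 58, 70, 112] _ (by decide +kernel) nd55

theorem nd57 : Ok 4 Dn4 [[2, 1, 1, 1, 3, 2, 2], [1, 1, 0, 0, 1, 1, 0], [1, 1, 1, 0, 1, 1, 1],
  [1, 1, 1, 1, 1, 1, 0], [1, 1, 1, 1, 2, 1, 1], [0, 0, 0, 0, 1, 1, 0], [1, 1, 1, 1, 2, 2, 2]]
  140186658274773 [28, 40, 40, 40, 58, 70, 112] 7966549074616 :=
  dec4 0 1 0 _ _ 140186658274775 _ [28, 40, 40, 40, 58, 70, 112] _ (by decide +kernel) nd56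

theorem nd58 : Ok 4 Dn4 [[1, 0, 0, 0, 1, 0, 0], [1, 1, 0, 0, 1, 1, 0], [2, 1, 1, 0, 3, 2, 1],
  [3, 2, 2, 2, 4, 3, 2], [1, 1, 1, 1, 2, 1, 1], [0, 0, 0, 0, 1, 1, 0], [2, 1, 1, 1, 3, 2, 2]]
  140737487831037 [40, 100, 100, 100, 70, 154, 196] 886325323974 :=
  cut4 0 3 2 1 1 _ [[5, 2, 2, 2, 6, 3, 2], [1, 1, 0, 0, 1, 1, 0], [2, 1, 1, 0, 3, 2, 1], [3, 2,
  2, 2, 4, 3, 2], [1, 1, 1, 1, 2, 1, 1], [0, 0, 0, 0, 1, 1, 0], [2, 1, 1, 1, 3, 2, 2]] [[1, 0, 0,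
  0, 1, 0, 0], [1, 1, 0, 0, 1, 1, 0], [2, 1, 1, 0, 3, 2, 1], [5, 2, 2, 2, 6, 3, 2], [1, 1, 1, 1,
  2, 1, 1], [0, 0, 0, 0, 1, 1, 0], [2, 1, 1, 1, 3, 2, 2]] _ _ 1799275833682 683447432927 _ (by
  decide +kernel) ok20 ok21

theorem nd59 : Ok 4 Dn4 [[1, 0, 0, 0, 1, 0, 0], [1, 1, 0, 0, 1, 1, 0], [2, 1, 1, 0, 3, 2, 1],
  [3, 2, 2, 2, 4, 3, 2], [1, 1, 1, 1, 2, 1, 1], [0, 0, 0, 0, 1, 1, 0], [2, 1, 1, 1, 3, 2, 2]]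
  140187732017149 [40, 100, 100, 100, 70, 154, 196] 886325323974 :=
  dec4 2 7 0 _ _ 140737487831037 _ [40, 100, 100, 100, 70, 154, 196] _ (by decide +kernel) nd58

theorem nd60 : Ok 4 Dn4 [[1, 0, 0, 0, 1, 0, 0], [1, 1, 0, 0, 1, 1, 0], [2, 1, 1, 0, 2, 1, 1],
  [3, 2, 2, 2, 4, 3, 2], [1, 1, 1, 1, 2, 1, 1], [0, 0, 0, 0, 1, 1, 0], [2, 1, 1, 1, 3, 2, 2]]
  140187732017149 [40, 100, 100, 100, 70, 154, 196] 895287091862 :=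
  cut4 2 5 1 1 1 _ [[1, 0, 0, 0, 1, 0, 0], [1, 1, 0, 0, 1, 1, 0], [2, 1, 1, 0, 3, 2, 1], [3, 2,
  2, 2, 4, 3, 2], [1, 1, 1, 1, 2, 1, 1], [0, 0, 0, 0, 1, 1, 0], [2, 1, 1, 1, 3, 2, 2]] [[1, 0, 0,
  0, 1, 0, 0], [1, 1, 0, 0, 1, 1, 0], [2, 1, 1, 0, 2, 1, 1], [3, 2, 2, 2, 4, 3, 2], [1, 1, 1, 1,
  2, 1, 1], [2, 1, 1, 0, 3, 2, 1], [2, 1, 1, 1, 3, 2, 2]] _ _ 886325323974 931134163411 _ (by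
  decide +kernel) nd59 ok22

theorem nd61 : Ok 4 Dn4 [[1, 0, 0, 0, 1, 0, 0], [1, 1, 0, 0, 1, 1, 0], [2, 1, 1, 0, 2, 1, 1],
  [3, 2, 2, 2, 4, 3, 2], [1, 1, 1, 1, 2, 1, 1], [0, 0, 0, 0, 1, 1, 0], [2, 1, 1, 1, 3, 2, 2]]
  140187732016637 [36, 72, 72, 96, 66, 126, 168] 895287091862 :=
  dec4 0 9 1 _ _ 140187732017149 _ [40, 100, 100, 100, 70, 154, 196] _ (by decide +kernel) nd60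

theorem nd62 : Ok 4 Dn4 [[1, 0, 0, 0, 1, 0, 0], [1, 1, 0, 0, 1, 1, 0], [1, 1, 1, 0, 1, 1, 1],
  [3, 2, 2, 2, 4, 3, 2], [1, 1, 1, 1, 2, 1, 1], [0, 0, 0, 0, 1, 1, 0], [2, 1, 1, 1, 3, 2, 2]]
  140187732016637 [36, 72, 72, 96, 66, 126, 168] 1063734815894 :=
  cut4 0 2 1 1 1 _ [[2, 1, 1, 0, 2, 1, 1], [1, 1, 0, 0, 1, 1, 0], [1, 1, 1, 0, 1, 1, 1], [3, 2,
  2, 2, 4, 3, 2], [1, 1, 1, 1, 2, 1, 1], [0, 0, 0, 0, 1, 1, 0], [2, 1, 1, 1, 3, 2, 2]] [[1, 0, 0,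
  0, 1, 0, 0], [1, 1, 0, 0, 1, 1, 0], [2, 1, 1, 0, 2, 1, 1], [3, 2, 2, 2, 4, 3, 2], [1, 1, 1, 1,
  2, 1, 1], [0, 0, 0, 0, 1, 1, 0], [2, 1, 1, 1, 3, 2, 2]] _ _ 1569077987990 895287091862 _ (by
  decide +kernel) ok19 nd61

theorem nd63 : Ok 4 Dn4 [[1, 0, 0, 0, 1, 0, 0], [1, 1, 0, 0, 1, 1, 0], [1, 1, 1, 0, 1, 1, 1],
  [3, 2, 2, 2, 4, 3, 2], [1, 1, 1, 1, 2, 1, 1], [0, 0, 0, 0, 1, 1, 0], [2, 1, 1, 1, 3, 2, 2]]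
  140186658274813 [36, 72, 72, 96, 66, 126, 168] 1063734815894 :=
  dec4 1 14 0 _ _ 140187732016637 _ [36, 72, 72, 96, 66, 126, 168] _ (by decide +kernel) nd62

theorem nd64 : Ok 4 Dn4 [[3, 2, 2, 1, 4, 3, 1], [1, 1, 0, 0, 1, 1, 0], [1, 1, 1, 0, 2, 2, 1],
  [1, 1, 1, 1, 1, 1, 0], [1, 1, 1, 1, 2, 1, 1], [0, 0, 0, 0, 1, 1, 0], [3, 2, 2, 2, 4, 3, 2]]
  140737487831039 [50, 74, 74, 98, 80, 128, 182] 3240646461720 :=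
  cut4 0 5 1 1 1 _ [[3, 2, 2, 1, 5, 4, 1], [1, 1, 0, 0, 1, 1, 0], [1, 1, 1, 0, 2, 2, 1], [1, 1,
  1, 1, 1, 1, 0], [1, 1, 1, 1, 2, 1, 1], [0, 0, 0, 0, 1, 1, 0], [3, 2, 2, 2, 4, 3, 2]] [[3, 2, 2,
  1, 4, 3, 1], [1, 1, 0, 0, 1, 1, 0], [1, 1, 1, 0, 2, 2, 1], [1, 1, 1, 1, 1, 1, 0], [1, 1, 1, 1,
  2, 1, 1], [3, 2, 2, 1, 5, 4, 1], [3, 2, 2, 2, 4, 3, 2]] _ _ 2976770317650 5351655614279 _ (by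
  decide +kernel) ok23 ok24

theorem nd65 : Ok 4 Dn4 [[3, 2, 2, 1, 4, 3, 1], [1, 1, 0, 0, 1, 1, 0], [1, 1, 1, 0, 2, 2, 1],
  [1, 1, 1, 1, 1, 1, 0], [1, 1, 1, 1, 2, 1, 1], [0, 0, 0, 0, 1, 1, 0], [3, 2, 2, 2, 4, 3, 2]]
  140737487830527 [50, 74, 74, 98, 80, 128, 182] 3240646461720 :=
  dec4 0 9 0 _ _ 140737487831039 _ [50, 74, 74, 98, 80, 128, 182] _ (by decide +kernel) nd64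

theorem nd66 : Ok 4 Dn4 [[2, 1, 1, 1, 2, 1, 0], [1, 1, 0, 0, 1, 1, 0], [1, 1, 1, 0, 2, 2, 1],
  [1, 1, 1, 1, 1, 1, 0], [1, 1, 1, 1, 2, 1, 1], [0, 0, 0, 0, 1, 1, 0], [3, 2, 2, 2, 4, 3, 2]]
  140737487830527 [50, 74, 74, 98, 80, 128, 182] 3315873089896 :=
  cut4 0 2 1 1 1 _ [[3, 2, 2, 1, 4, 3, 1], [1, 1, 0, 0, 1, 1, 0], [1, 1, 1, 0, 2, 2, 1], [1, 1,
  1, 1, 1, 1, 0], [1, 1, 1, 1, 2, 1, 1], [0, 0, 0, 0, 1, 1, 0], [3, 2, 2, 2, 4, 3, 2]] [[2, 1, 1,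
  1, 2, 1, 0], [1, 1, 0, 0, 1, 1, 0], [3, 2, 2, 1, 4, 3, 1], [1, 1, 1, 1, 1, 1, 0], [1, 1, 1, 1,
  2, 1, 1], [0, 0, 0, 0, 1, 1, 0], [3, 2, 2, 2, 4, 3, 2]] _ _ 3240646461720 3391099718071 _ (by
  decide +kernel) nd65 ok25

theorem nd67 : Ok 4 Dn4 [[2, 1, 1, 1, 2, 1, 0], [1, 1, 0, 0, 1, 1, 0], [1, 1, 1, 0, 2, 2, 1],
  [1, 1, 1, 1, 1, 1, 0], [1, 1, 1, 1, 2, 1, 1], [0, 0, 0, 0, 1, 1, 0], [3, 2, 2, 2, 4, 3, 2]]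
  140187732016639 [50, 74, 74, 98, 80, 128, 182] 3315873089896 :=
  dec4 2 7 0 _ _ 140737487830527 _ [50, 74, 74, 98, 80, 128, 182] _ (by decide +kernel) nd66

theorem nd68 : Ok 4 Dn4 [[2, 1, 1, 1, 2, 1, 0], [1, 1, 0, 0, 1, 1, 0], [1, 1, 1, 0, 1, 1, 1],
  [1, 1, 1, 1, 1, 1, 0], [1, 1, 1, 1, 2, 1, 1], [0, 0, 0, 0, 1, 1, 0], [3, 2, 2, 2, 4, 3, 2]]
  140187732016639 [50, 74, 74, 98, 80, 128, 182] 3595366331784 :=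
  cut4 2 5 1 1 1 _ [[2, 1, 1, 1, 2, 1, 0], [1, 1, 0, 0, 1, 1, 0], [1, 1, 1, 0, 2, 2, 1], [1, 1,
  1, 1, 1, 1, 0], [1, 1, 1, 1, 2, 1, 1], [0, 0, 0, 0, 1, 1, 0], [3, 2, 2, 2, 4, 3, 2]] [[2, 1, 1,
  1, 2, 1, 0], [1, 1, 0, 0, 1, 1, 0], [1, 1, 1, 0, 1, 1, 1], [1, 1, 1, 1, 1, 1, 0], [1, 1, 1, 1,
  2, 1, 1], [1, 1, 1, 0, 2, 2, 1], [3, 2, 2, 2, 4, 3, 2]] _ _ 3315873089896 4433846057445 _ (by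
  decide +kernel) nd67 ok26

theorem nd69 : Ok 4 Dn4 [[2, 1, 1, 1, 2, 1, 0], [1, 1, 0, 0, 1, 1, 0], [1, 1, 1, 0, 1, 1, 1],
  [1, 1, 1, 1, 1, 1, 0], [1, 1, 1, 1, 2, 1, 1], [0, 0, 0, 0, 1, 1, 0], [3, 2, 2, 2, 4, 3, 2]]
  140186658274815 [36, 72, 72, 96, 66, 126, 168] 3595366331784 :=
  dec4 1 14 1 _ _ 140187732016639 _ [50, 74, 74, 98, 80, 128, 182] _ (by decide +kernel) nd68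

theorem nd70 : Ok 4 Dn4 [[2, 1, 1, 1, 2, 1, 0], [1, 1, 0, 0, 1, 1, 0], [1, 1, 1, 0, 1, 1, 1],
  [1, 1, 1, 1, 1, 1, 0], [1, 1, 1, 1, 2, 1, 1], [0, 0, 0, 0, 1, 1, 0], [3, 2, 2, 2, 4, 3, 2]]
  140186658274813 [36, 72, 72, 96, 66, 126, 168] 3595366331784 :=
  dec4 0 1 0 _ _ 140186658274815 _ [36, 72, 72, 96, 66, 126, 168] _ (by decide +kernel) nd69

theorem nd71 : Ok 4 Dn4 [[2, 1, 1, 0, 3, 2, 1], [1, 1, 0, 0, 1, 1, 0], [3, 2, 2, 1, 4, 3, 1],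
  [2, 1, 1, 1, 2, 1, 0], [1, 1, 1, 1, 2, 1, 1], [0, 0, 0, 0, 1, 1, 0], [3, 2, 2, 2, 4, 3, 2]]
  140737487831039 [40, 100, 100, 100, 70, 154, 196] 1996570137379 :=
  cut4 2 5 1 1 1 _ [[2, 1, 1, 0, 3, 2, 1], [1, 1, 0, 0, 1, 1, 0], [3, 2, 2, 1, 5, 4, 1], [2, 1,
  1, 1, 2, 1, 0], [1, 1, 1, 1, 2, 1, 1], [0, 0, 0, 0, 1, 1, 0], [3, 2, 2, 2, 4, 3, 2]] [[2, 1, 1,
  0, 3, 2, 1], [1, 1, 0, 0, 1, 1, 0], [3, 2, 2, 1, 4, 3, 1], [2, 1, 1, 1, 2, 1, 0], [1, 1, 1, 1,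
  2, 1, 1], [3, 2, 2, 1, 5, 4, 1], [3, 2, 2, 2, 4, 3, 2]] _ _ 1823049115386 3384738313317 _ (by
  decide +kernel) ok27 ok28

theorem nd72 : Ok 4 Dn4 [[2, 1, 1, 0, 3, 2, 1], [1, 1, 0, 0, 1, 1, 0], [3, 2, 2, 1, 4, 3, 1],
  [2, 1, 1, 1, 2, 1, 0], [1, 1, 1, 1, 2, 1, 1], [0, 0, 0, 0, 1, 1, 0], [3, 2, 2, 2, 4, 3, 2]]
  140737487830527 [36, 72, 72, 96, 66, 126, 168] 1996570137379 :=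
  dec4 0 9 1 _ _ 140737487831039 _ [40, 100, 100, 100, 70, 154, 196] _ (by decide +kernel) nd71

theorem nd73 : Ok 4 Dn4 [[2, 1, 1, 0, 3, 2, 1], [1, 1, 0, 0, 1, 1, 0], [1, 1, 1, 0, 2, 2, 1],
  [2, 1, 1, 1, 2, 1, 0], [1, 1, 1, 1, 2, 1, 1], [0, 0, 0, 0, 1, 1, 0], [3, 2, 2, 2, 4, 3, 2]]
  140737487830527 [36, 72, 72, 96, 66, 126, 168] 1698992988693 :=
  cut4 2 3 1 1 1 _ [[2, 1, 1, 0, 3, 2, 1], [1, 1, 0, 0, 1, 1, 0], [3, 2, 2, 1, 4, 3, 1], [2, 1,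
  1, 1, 2, 1, 0], [1, 1, 1, 1, 2, 1, 1], [0, 0, 0, 0, 1, 1, 0], [3, 2, 2, 2, 4, 3, 2]] [[2, 1, 1,
  0, 3, 2, 1], [1, 1, 0, 0, 1, 1, 0], [1, 1, 1, 0, 2, 2, 1], [3, 2, 2, 1, 4, 3, 1], [1, 1, 1, 1,
  2, 1, 1], [0, 0, 0, 0, 1, 1, 0], [3, 2, 2, 2, 4, 3, 2]] _ _ 1996570137379 1401415840006 _ (by
  decide +kernel) nd72 ok29

theorem nd74 : Ok 4 Dn4 [[2, 1, 1, 0, 3, 2, 1], [1, 1, 0, 0, 1, 1, 0], [1, 1, 1, 0, 2, 2, 1],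
  [2, 1, 1, 1, 2, 1, 0], [1, 1, 1, 1, 2, 1, 1], [0, 0, 0, 0, 1, 1, 0], [3, 2, 2, 2, 4, 3, 2]]
  140187732016639 [36, 72, 72, 96, 66, 126, 168] 1698992988693 :=
  dec4 2 7 0 _ _ 140737487830527 _ [36, 72, 72, 96, 66, 126, 168] _ (by decide +kernel) nd73

theorem nd75 : Ok 4 Dn4 [[2, 1, 1, 0, 3, 2, 1], [1, 1, 0, 0, 1, 1, 0], [1, 1, 1, 0, 1, 1, 1],
  [2, 1, 1, 1, 2, 1, 0], [1, 1, 1, 1, 2, 1, 1], [0, 0, 0, 0, 1, 1, 0], [3, 2, 2, 2, 4, 3, 2]]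
  140187732016639 [36, 72, 72, 96, 66, 126, 168] 1827078526360 :=
  cut4 2 5 1 1 1 _ [[2, 1, 1, 0, 3, 2, 1], [1, 1, 0, 0, 1, 1, 0], [1, 1, 1, 0, 2, 2, 1], [2, 1,
  1, 1, 2, 1, 0], [1, 1, 1, 1, 2, 1, 1], [0, 0, 0, 0, 1, 1, 0], [3, 2, 2, 2, 4, 3, 2]] [[2, 1, 1,
  0, 3, 2, 1], [1, 1, 0, 0, 1, 1, 0], [1, 1, 1, 0, 1, 1, 1], [2, 1, 1, 1, 2, 1, 0], [1, 1, 1, 1,
  2, 1, 1], [1, 1, 1, 0, 2, 2, 1], [3, 2, 2, 2, 4, 3, 2]] _ _ 1698992988693 2211335139361 _ (by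
  decide +kernel) nd74 ok30

theorem nd76 : Ok 4 Dn4 [[2, 1, 1, 0, 2, 1, 1], [1, 1, 0, 0, 1, 1, 0], [1, 1, 1, 0, 1, 1, 1],
  [2, 1, 1, 1, 2, 1, 0], [1, 1, 1, 1, 2, 1, 1], [0, 0, 0, 0, 1, 1, 0], [3, 2, 2, 2, 4, 3, 2]]
  140187732016639 [36, 72, 72, 96, 66, 126, 168] 1917587924155 :=
  cut4 0 5 1 1 1 _ [[2, 1, 1, 0, 3, 2, 1], [1, 1, 0, 0, 1, 1, 0], [1, 1, 1, 0, 1, 1, 1], [2, 1,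
  1, 1, 2, 1, 0], [1, 1, 1, 1, 2, 1, 1], [0, 0, 0, 0, 1, 1, 0], [3, 2, 2, 2, 4, 3, 2]] [[2, 1, 1,
  0, 2, 1, 1], [1, 1, 0, 0, 1, 1, 0], [1, 1, 1, 0, 1, 1, 1], [2, 1, 1, 1, 2, 1, 0], [1, 1, 1, 1,
  2, 1, 1], [2, 1, 1, 0, 3, 2, 1], [3, 2, 2, 2, 4, 3, 2]] _ _ 1827078526360 2279625515332 _ (by
  decide +kernel) nd75 ok31

theorem nd77 : Ok 4 Dn4 [[2, 1, 1, 0, 2, 1, 1], [1, 1, 0, 0, 1, 1, 0], [1, 1, 1, 0, 1, 1, 1],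
  [2, 1, 1, 1, 2, 1, 0], [1, 1, 1, 1, 2, 1, 1], [0, 0, 0, 0, 1, 1, 0], [3, 2, 2, 2, 4, 3, 2]]
  140187732016637 [36, 72, 72, 96, 66, 126, 168] 1917587924155 :=
  dec4 0 1 0 _ _ 140187732016639 _ [36, 72, 72, 96, 66, 126, 168] _ (by decide +kernel) nd76

theorem nd78 : Ok 4 Dn4 [[1, 0, 0, 0, 1, 0, 0], [1, 1, 0, 0, 1, 1, 0], [4, 2, 2, 1, 6, 4, 1],
  [2, 1, 1, 1, 3, 2, 0], [3, 2, 1, 1, 4, 2, 1], [0, 0, 0, 0, 1, 1, 0], [3, 2, 2, 2, 4, 3, 2]]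
  140737487831037 [40, 100, 100, 100, 70, 154, 196] 486435163057 :=
  cut4 4 5 1 1 1 _ [[1, 0, 0, 0, 1, 0, 0], [1, 1, 0, 0, 1, 1, 0], [4, 2, 2, 1, 6, 4, 1], [2, 1,
  1, 1, 3, 2, 0], [3, 2, 1, 1, 5, 3, 1], [0, 0, 0, 0, 1, 1, 0], [3, 2, 2, 2, 4, 3, 2]] [[1, 0, 0,
  0, 1, 0, 0], [1, 1, 0, 0, 1, 1, 0], [4, 2, 2, 1, 6, 4, 1], [2, 1, 1, 1, 3, 2, 0], [3, 2, 1, 1,
  4, 2, 1], [3, 2, 1, 1, 5, 3, 1], [3, 2, 2, 2, 4, 3, 2]] _ _ 429345668527 886061624763 _ (by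
  decide +kernel) ok34 ok35

theorem nd79 : Ok 4 Dn4 [[1, 0, 0, 0, 1, 0, 0], [1, 1, 0, 0, 1, 1, 0], [4, 2, 2, 1, 6, 4, 1],
  [2, 1, 1, 1, 3, 2, 0], [2, 1, 1, 1, 3, 1, 1], [0, 0, 0, 0, 1, 1, 0], [3, 2, 2, 2, 4, 3, 2]]
  140737487831037 [40, 100, 100, 100, 70, 154, 196] 698850329256 :=
  cut4 1 4 1 1 1 _ [[1, 0, 0, 0, 1, 0, 0], [3, 2, 1, 1, 4, 2, 1], [4, 2, 2, 1, 6, 4, 1], [2, 1,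
  1, 1, 3, 2, 0], [2, 1, 1, 1, 3, 1, 1], [0, 0, 0, 0, 1, 1, 0], [3, 2, 2, 2, 4, 3, 2]] [[1, 0, 0,
  0, 1, 0, 0], [1, 1, 0, 0, 1, 1, 0], [4, 2, 2, 1, 6, 4, 1], [2, 1, 1, 1, 3, 2, 0], [3, 2, 1, 1,
  4, 2, 1], [0, 0, 0, 0, 1, 1, 0], [3, 2, 2, 2, 4, 3, 2]] _ _ 1229888244753 486435163057 _ (by
  decide +kernel) ok33 nd78

theorem nd80 : Ok 4 Dn4 [[1, 0, 0, 0, 1, 0, 0], [1, 1, 0, 0, 1, 1, 0], [4, 2, 2, 1, 6, 4, 1],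
  [2, 1, 1, 1, 3, 2, 0], [1, 1, 1, 1, 2, 1, 1], [0, 0, 0, 0, 1, 1, 0], [3, 2, 2, 2, 4, 3, 2]]
  140737487831037 [40, 100, 100, 100, 70, 154, 196] 1052068346124 :=
  cut4 0 4 1 1 1 _ [[2, 1, 1, 1, 3, 1, 1], [1, 1, 0, 0, 1, 1, 0], [4, 2, 2, 1, 6, 4, 1], [2, 1,
  1, 1, 3, 2, 0], [1, 1, 1, 1, 2, 1, 1], [0, 0, 0, 0, 1, 1, 0], [3, 2, 2, 2, 4, 3, 2]] [[1, 0, 0,
  0, 1, 0, 0], [1, 1, 0, 0, 1, 1, 0], [4, 2, 2, 1, 6, 4, 1], [2, 1, 1, 1, 3, 2, 0], [2, 1, 1, 1,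
  3, 1, 1], [0, 0, 0, 0, 1, 1, 0], [3, 2, 2, 2, 4, 3, 2]] _ _ 2464940413593 698850329256 _ (by
  decide +kernel) ok32 nd79

theorem nd81 : Ok 4 Dn4 [[1, 0, 0, 0, 1, 0, 0], [1, 1, 0, 0, 1, 1, 0], [2, 1, 1, 0, 3, 2, 1],
  [2, 1, 1, 1, 3, 2, 0], [1, 1, 1, 1, 2, 1, 1], [0, 0, 0, 0, 1, 1, 0], [3, 2, 2, 2, 4, 3, 2]]
  140737487831037 [40, 100, 100, 100, 70, 154, 196] 877665377345 :=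
  cut4 2 3 1 1 1 _ [[1, 0, 0, 0, 1, 0, 0], [1, 1, 0, 0, 1, 1, 0], [4, 2, 2, 1, 6, 4, 1], [2, 1,
  1, 1, 3, 2, 0], [1, 1, 1, 1, 2, 1, 1], [0, 0, 0, 0, 1, 1, 0], [3, 2, 2, 2, 4, 3, 2]] [[1, 0, 0,
  0, 1, 0, 0], [1, 1, 0, 0, 1, 1, 0], [2, 1, 1, 0, 3, 2, 1], [4, 2, 2, 1, 6, 4, 1], [1, 1, 1, 1,
  2, 1, 1], [0, 0, 0, 0, 1, 1, 0], [3, 2, 2, 2, 4, 3, 2]] _ _ 1052068346124 703262408566 _ (by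
  decide +kernel) nd80 ok36

theorem nd82 : Ok 4 Dn4 [[1, 0, 0, 0, 1, 0, 0], [1, 1, 0, 0, 1, 1, 0], [2, 1, 1, 0, 3, 2, 1],
  [2, 1, 1, 1, 2, 1, 0], [1, 1, 1, 1, 2, 1, 1], [2, 1, 1, 1, 3, 2, 0], [3, 2, 2, 2, 4, 3, 2]]
  281474976186365 [41, 101, 101, 101, 77, 161, 197] 2395270620201 :=
  cut4 2 3 1 1 1 _ [[1, 0, 0, 0, 1, 0, 0], [1, 1, 0, 0, 1, 1, 0], [4, 2, 2, 1, 5, 3, 1], [2, 1,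
  1, 1, 2, 1, 0], [1, 1, 1, 1, 2, 1, 1], [2, 1, 1, 1, 3, 2, 0], [3, 2, 2, 2, 4, 3, 2]] [[1, 0, 0,
  0, 1, 0, 0], [1, 1, 0, 0, 1, 1, 0], [2, 1, 1, 0, 3, 2, 1], [4, 2, 2, 1, 5, 3, 1], [1, 1, 1, 1,
  2, 1, 1], [2, 1, 1, 1, 3, 2, 0], [3, 2, 2, 2, 4, 3, 2]] _ _ 3003933581248 1634441918891 _ (by
  decide +kernel) ok37 ok38

theorem nd83 : Ok 4 Dn4 [[1, 0, 0, 0, 1, 0, 0], [1, 1, 0, 0, 1, 1, 0], [2, 1, 1, 0, 3, 2, 1],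
  [2, 1, 1, 1, 2, 1, 0], [1, 1, 1, 1, 2, 1, 1], [2, 1, 1, 1, 3, 2, 0], [3, 2, 2, 2, 4, 3, 2]]
  140737487831037 [40, 100, 100, 100, 70, 154, 196] 2395270620201 :=
  dec4 2 15 1 _ _ 281474976186365 _ [41, 101, 101, 101, 77, 161, 197] _ (by decide +kernel) nd82

theorem nd84 : Ok 4 Dn4 [[1, 0, 0, 0, 1, 0, 0], [1, 1, 0, 0, 1, 1, 0], [2, 1, 1, 0, 3, 2, 1],
  [2, 1, 1, 1, 2, 1, 0], [1, 1, 1, 1, 2, 1, 1], [0, 0, 0, 0, 1, 1, 0], [3, 2, 2, 2, 4, 3, 2]]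
  140737487831037 [40, 100, 100, 100, 70, 154, 196] 1181186425917 :=
  cut4 3 5 1 1 1 _ [[1, 0, 0, 0, 1, 0, 0], [1, 1, 0, 0, 1, 1, 0], [2, 1, 1, 0, 3, 2, 1], [2, 1,
  1, 1, 3, 2, 0], [1, 1, 1, 1, 2, 1, 1], [0, 0, 0, 0, 1, 1, 0], [3, 2, 2, 2, 4, 3, 2]] [[1, 0, 0,
  0, 1, 0, 0], [1, 1, 0, 0, 1, 1, 0], [2, 1, 1, 0, 3, 2, 1], [2, 1, 1, 1, 2, 1, 0], [1, 1, 1, 1,
  2, 1, 1], [2, 1, 1, 1, 3, 2, 0], [3, 2, 2, 2, 4, 3, 2]] _ _ 877665377345 2395270620201 _ (by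
  decide +kernel) nd81 nd83

theorem nd85 : Ok 4 Dn4 [[1, 0, 0, 0, 1, 0, 0], [1, 1, 0, 0, 1, 1, 0], [2, 1, 1, 0, 3, 2, 1],
  [2, 1, 1, 1, 2, 1, 0], [1, 1, 1, 1, 2, 1, 1], [0, 0, 0, 0, 1, 1, 0], [3, 2, 2, 2, 4, 3, 2]]
  140187732017149 [40, 100, 100, 100, 70, 154, 196] 1181186425917 :=
  dec4 2 7 0 _ _ 140737487831037 _ [40, 100, 100, 100, 70, 154, 196] _ (by decide +kernel) nd84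

theorem nd86 : Ok 4 Dn4 [[1, 0, 0, 0, 1, 0, 0], [1, 1, 0, 0, 1, 1, 0], [2, 1, 1, 0, 2, 1, 1],
  [2, 1, 1, 1, 2, 1, 0], [1, 1, 1, 1, 2, 1, 1], [0, 0, 0, 0, 1, 1, 0], [3, 2, 2, 2, 4, 3, 2]]
  140187732017149 [40, 100, 100, 100, 70, 154, 196] 1213467578505 :=
  cut4 2 5 1 1 1 _ [[1, 0, 0, 0, 1, 0, 0], [1, 1, 0, 0, 1, 1, 0], [2, 1, 1, 0, 3, 2, 1], [2, 1,
  1, 1, 2, 1, 0], [1, 1, 1, 1, 2, 1, 1], [0, 0, 0, 0, 1, 1, 0], [3, 2, 2, 2, 4, 3, 2]] [[1, 0, 0,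
  0, 1, 0, 0], [1, 1, 0, 0, 1, 1, 0], [2, 1, 1, 0, 2, 1, 1], [2, 1, 1, 1, 2, 1, 0], [1, 1, 1, 1,
  2, 1, 1], [2, 1, 1, 0, 3, 2, 1], [3, 2, 2, 2, 4, 3, 2]] _ _ 1181186425917 1342592188854 _ (by
  decide +kernel) nd85 ok39

theorem nd87 : Ok 4 Dn4 [[1, 0, 0, 0, 1, 0, 0], [1, 1, 0, 0, 1, 1, 0], [2, 1, 1, 0, 2, 1, 1],
  [2, 1, 1, 1, 2, 1, 0], [1, 1, 1, 1, 2, 1, 1], [0, 0, 0, 0, 1, 1, 0], [3, 2, 2, 2, 4, 3, 2]]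
  140187732016637 [36, 72, 72, 96, 66, 126, 168] 1213467578505 :=
  dec4 0 9 1 _ _ 140187732017149 _ [40, 100, 100, 100, 70, 154, 196] _ (by decide +kernel) nd86

theorem nd88 : Ok 4 Dn4 [[1, 0, 0, 0, 1, 0, 0], [1, 1, 0, 0, 1, 1, 0], [1, 1, 1, 0, 1, 1, 1],
  [2, 1, 1, 1, 2, 1, 0], [1, 1, 1, 1, 2, 1, 1], [0, 0, 0, 0, 1, 1, 0], [3, 2, 2, 2, 4, 3, 2]]
  140187732016637 [36, 72, 72, 96, 66, 126, 168] 1389497664918 :=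
  cut4 0 2 1 1 1 _ [[2, 1, 1, 0, 2, 1, 1], [1, 1, 0, 0, 1, 1, 0], [1, 1, 1, 0, 1, 1, 1], [2, 1,
  1, 1, 2, 1, 0], [1, 1, 1, 1, 2, 1, 1], [0, 0, 0, 0, 1, 1, 0], [3, 2, 2, 2, 4, 3, 2]] [[1, 0, 0,
  0, 1, 0, 0], [1, 1, 0, 0, 1, 1, 0], [2, 1, 1, 0, 2, 1, 1], [2, 1, 1, 1, 2, 1, 0], [1, 1, 1, 1,
  2, 1, 1], [0, 0, 0, 0, 1, 1, 0], [3, 2, 2, 2, 4, 3, 2]] _ _ 1917587924155 1213467578505 _ (by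
  decide +kernel) nd77 nd87

theorem nd89 : Ok 4 Dn4 [[1, 0, 0, 0, 1, 0, 0], [1, 1, 0, 0, 1, 1, 0], [1, 1, 1, 0, 1, 1, 1],
  [2, 1, 1, 1, 2, 1, 0], [1, 1, 1, 1, 2, 1, 1], [0, 0, 0, 0, 1, 1, 0], [3, 2, 2, 2, 4, 3, 2]]
  140186658274813 [36, 72, 72, 96, 66, 126, 168] 1389497664918 :=
  dec4 1 14 0 _ _ 140187732016637 _ [36, 72, 72, 96, 66, 126, 168] _ (by decide +kernel) nd88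

theorem nd90 : Ok 4 Dn4 [[1, 0, 0, 0, 1, 0, 0], [1, 1, 0, 0, 1, 1, 0], [1, 1, 1, 0, 1, 1, 1],
  [1, 1, 1, 1, 1, 1, 0], [1, 1, 1, 1, 2, 1, 1], [0, 0, 0, 0, 1, 1, 0], [3, 2, 2, 2, 4, 3, 2]]
  140186658274813 [36, 72, 72, 96, 66, 126, 168] 1940964831635 :=
  cut4 0 3 1 1 1 _ [[2, 1, 1, 1, 2, 1, 0], [1, 1, 0, 0, 1, 1, 0], [1, 1, 1, 0, 1, 1, 1], [1, 1,
  1, 1, 1, 1, 0], [1, 1, 1, 1, 2, 1, 1], [0, 0, 0, 0, 1, 1, 0], [3, 2, 2, 2, 4, 3, 2]] [[1, 0, 0,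
  0, 1, 0, 0], [1, 1, 0, 0, 1, 1, 0], [1, 1, 1, 0, 1, 1, 1], [2, 1, 1, 1, 2, 1, 0], [1, 1, 1, 1,
  2, 1, 1], [0, 0, 0, 0, 1, 1, 0], [3, 2, 2, 2, 4, 3, 2]] _ _ 3595366331784 1389497664918 _ (by
  decide +kernel) nd70 nd89

theorem nd91 : Ok 4 Dn4 [[1, 0, 0, 0, 1, 0, 0], [1, 1, 0, 0, 1, 1, 0], [1, 1, 1, 0, 1, 1, 1],
  [1, 1, 1, 1, 1, 1, 0], [1, 1, 1, 1, 2, 1, 1], [0, 0, 0, 0, 1, 1, 0], [2, 1, 1, 1, 3, 2, 2]]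
  140186658274813 [36, 72, 72, 96, 66, 126, 168] 1648554826388 :=
  cut4 3 6 1 1 1 _ [[1, 0, 0, 0, 1, 0, 0], [1, 1, 0, 0, 1, 1, 0], [1, 1, 1, 0, 1, 1, 1], [3, 2,
  2, 2, 4, 3, 2], [1, 1, 1, 1, 2, 1, 1], [0, 0, 0, 0, 1, 1, 0], [2, 1, 1, 1, 3, 2, 2]] [[1, 0, 0,
  0, 1, 0, 0], [1, 1, 0, 0, 1, 1, 0], [1, 1, 1, 0, 1, 1, 1], [1, 1, 1, 1, 1, 1, 0], [1, 1, 1, 1,
  2, 1, 1], [0, 0, 0, 0, 1, 1, 0], [3, 2, 2, 2, 4, 3, 2]] _ _ 1063734815894 1940964831635 _ (by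
  decide +kernel) nd63 nd90

theorem nd92 : Ok 4 Dn4 [[1, 0, 0, 0, 1, 0, 0], [1, 1, 0, 0, 1, 1, 0], [1, 1, 1, 0, 1, 1, 1],
  [1, 1, 1, 1, 1, 1, 0], [1, 1, 1, 1, 2, 1, 1], [0, 0, 0, 0, 1, 1, 0], [2, 1, 1, 1, 3, 2, 2]]
  140186658274781 [32, 44, 68, 68, 62, 98, 140] 1648554826388 :=
  dec4 0 5 1 _ _ 140186658274813 _ [36, 72, 72, 96, 66, 126, 168] _ (by decide +kernel) nd91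

theorem nd93 : Ok 4 Dn4 [[1, 0, 0, 0, 1, 0, 0], [1, 1, 0, 0, 1, 1, 0], [1, 1, 1, 0, 1, 1, 1],
  [1, 1, 1, 1, 1, 1, 0], [1, 1, 1, 1, 2, 1, 1], [0, 0, 0, 0, 1, 1, 0], [2, 1, 1, 1, 3, 2, 2]]
  140186658274773 [28, 40, 40, 40, 58, 70, 112] 1648554826388 :=
  dec4 0 3 1 _ _ 140186658274781 _ [32, 44, 68, 68, 62, 98, 140] _ (by decide +kernel) nd92

theorem nd94 : Ok 4 Dn4 [[1, 0, 0, 0, 1, 0, 0], [1, 1, 0, 0, 1, 1, 0], [1, 1, 1, 0, 1, 1, 1],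
  [1, 1, 1, 1, 1, 1, 0], [1, 1, 1, 1, 2, 1, 1], [0, 0, 0, 0, 1, 1, 0], [1, 1, 1, 1, 2, 2, 2]]
  140186658274773 [28, 40, 40, 40, 58, 70, 112] 2701553867760 :=
  cut4 0 6 1 1 1 _ [[2, 1, 1, 1, 3, 2, 2], [1, 1, 0, 0, 1, 1, 0], [1, 1, 1, 0, 1, 1, 1], [1, 1,
  1, 1, 1, 1, 0], [1, 1, 1, 1, 2, 1, 1], [0, 0, 0, 0, 1, 1, 0], [1, 1, 1, 1, 2, 2, 2]] [[1, 0, 0,
  0, 1, 0, 0], [1, 1, 0, 0, 1, 1, 0], [1, 1, 1, 0, 1, 1, 1], [1, 1, 1, 1, 1, 1, 0], [1, 1, 1, 1,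
  2, 1, 1], [0, 0, 0, 0, 1, 1, 0], [2, 1, 1, 1, 3, 2, 2]] _ _ 7966549074616 1648554826388 _ (by
  decide +kernel) nd57 nd93

theorem nd95 : Ok 4 Dn4 [[1, 0, 0, 0, 1, 0, 0], [1, 1, 0, 0, 1, 1, 0], [1, 1, 1, 0, 1, 1, 1],
  [1, 1, 1, 1, 1, 1, 0], [1, 1, 1, 1, 2, 1, 1], [0, 0, 0, 0, 1, 1, 0], [1, 1, 1, 1, 2, 2, 2]]
  131390565252565 [28, 40, 40, 40, 58, 70, 112] 2701553867760 :=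
  dec4 2 11 0 _ _ 140186658274773 _ [28, 40, 40, 40, 58, 70, 112] _ (by decide +kernel) nd94

theorem nd96 : Ok 4 Dn4 [[1, 0, 0, 0, 1, 0, 0], [1, 1, 0, 0, 1, 1, 0], [1, 1, 1, 0, 1, 1, 1],
  [1, 1, 1, 1, 1, 1, 0], [1, 1, 1, 1, 2, 1, 1], [0, 0, 0, 0, 1, 1, 0], [1, 1, 1, 1, 2, 2, 2]]
  131356205514197 [28, 40, 40, 40, 58, 70, 112] 2701553867760 :=
  dec4 2 3 0 _ _ 131390565252565 _ [28, 40, 40, 40, 58, 70, 112] _ (by decide +kernel) nd95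

theorem nd97 : Ok 4 Dn4 [[2, 1, 1, 1, 3, 2, 2], [1, 1, 0, 0, 0, 0, 0], [1, 1, 1, 0, 1, 1, 1],
  [1, 1, 1, 1, 1, 1, 0], [1, 1, 1, 1, 2, 1, 1], [1, 1, 0, 0, 1, 1, 0], [1, 1, 1, 1, 2, 2, 2]]
  281439542706167 [33, 45, 57, 57, 93, 105, 117] 6997326320014 :=
  cut4 1 6 1 1 1 _ [[2, 1, 1, 1, 3, 2, 2], [2, 2, 1, 1, 2, 2, 2], [1, 1, 1, 0, 1, 1, 1], [1, 1,
  1, 1, 1, 1, 0], [1, 1, 1, 1, 2, 1, 1], [1, 1, 0, 0, 1, 1, 0], [1, 1, 1, 1, 2, 2, 2]] [[2, 1, 1,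
  1, 3, 2, 2], [1, 1, 0, 0, 0, 0, 0], [1, 1, 1, 0, 1, 1, 1], [1, 1, 1, 1, 1, 1, 0], [1, 1, 1, 1,
  2, 1, 1], [1, 1, 0, 0, 1, 1, 0], [2, 2, 1, 1, 2, 2, 2]] _ _ 10308306034411 6335130377134 _ (by
  decide +kernel) ok40 ok41

theorem nd98 : Ok 4 Dn4 [[2, 1, 1, 1, 3, 2, 2], [1, 1, 0, 0, 0, 0, 0], [1, 1, 1, 0, 1, 1, 1],
  [1, 1, 1, 1, 1, 1, 0], [1, 1, 1, 1, 2, 1, 1], [1, 1, 0, 0, 1, 1, 0], [1, 1, 1, 1, 2, 2, 2]]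
  281439542705655 [33, 45, 57, 57, 93, 105, 117] 6997326320014 :=
  dec4 0 9 0 _ _ 281439542706167 _ [33, 45, 57, 57, 93, 105, 117] _ (by decide +kernel) nd97

theorem nd99 : Ok 4 Dn4 [[2, 1, 1, 1, 3, 2, 2], [1, 1, 0, 0, 0, 0, 0], [1, 1, 1, 0, 1, 1, 1],
  [1, 1, 1, 1, 1, 1, 0], [1, 1, 1, 1, 2, 1, 1], [1, 1, 0, 0, 1, 1, 0], [1, 1, 1, 1, 2, 2, 2]]
  281439542705623 [33, 45, 57, 57, 93, 105, 117] 6997326320014 :=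
  dec4 0 5 0 _ _ 281439542705655 _ [33, 45, 57, 57, 93, 105, 117] _ (by decide +kernel) nd98

theorem nd100 : Ok 4 Dn4 [[2, 1, 1, 1, 3, 2, 2], [1, 1, 0, 0, 0, 0, 0], [1, 1, 1, 0, 1, 1, 1],
  [1, 1, 1, 1, 1, 1, 0], [1, 1, 1, 1, 2, 1, 1], [1, 1, 0, 0, 1, 1, 0], [1, 1, 1, 1, 2, 2, 2]]
  281439542705621 [33, 45, 57, 57, 93, 105, 117] 6997326320014 :=
  dec4 0 1 0 _ _ 281439542705623 _ [33, 45, 57, 57, 93, 105, 117] _ (by decide +kernel) nd99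

theorem nd101 : Ok 4 Dn4 [[1, 0, 0, 0, 1, 0, 0], [2, 2, 1, 1, 2, 1, 1], [2, 1, 1, 0, 2, 1, 1],
  [1, 1, 1, 1, 1, 1, 0], [1, 1, 1, 1, 2, 1, 1], [1, 1, 0, 0, 1, 1, 0], [2, 1, 1, 1, 3, 2, 2]]
  281473902444541 [45, 105, 117, 117, 105, 189, 201] 2192104726892 :=
  cut4 0 3 1 1 1 _ [[2, 1, 1, 1, 2, 1, 0], [2, 2, 1, 1, 2, 1, 1], [2, 1, 1, 0, 2, 1, 1], [1, 1,
  1, 1, 1, 1, 0], [1, 1, 1, 1, 2, 1, 1], [1, 1, 0, 0, 1, 1, 0], [2, 1, 1, 1, 3, 2, 2]] [[1, 0, 0,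
  0, 1, 0, 0], [2, 2, 1, 1, 2, 1, 1], [2, 1, 1, 0, 2, 1, 1], [2, 1, 1, 1, 2, 1, 0], [1, 1, 1, 1,
  2, 1, 1], [1, 1, 0, 0, 1, 1, 0], [2, 1, 1, 1, 3, 2, 2]] _ _ 3810255458271 1652721149765 _ (by
  decide +kernel) ok43 ok44

theorem nd102 : Ok 4 Dn4 [[1, 0, 0, 0, 1, 0, 0], [2, 2, 1, 1, 2, 1, 1], [2, 1, 1, 0, 2, 1, 1],
  [1, 1, 1, 1, 1, 1, 0], [1, 1, 1, 1, 2, 1, 1], [1, 1, 0, 0, 1, 1, 0], [2, 1, 1, 1, 3, 2, 2]]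
  281439542706173 [45, 105, 117, 117, 105, 189, 201] 2192104726892 :=
  dec4 2 3 0 _ _ 281473902444541 _ [45, 105, 117, 117, 105, 189, 201] _ (by decide +kernel) nd101

theorem nd103 : Ok 4 Dn4 [[2, 1, 1, 1, 2, 1, 0], [1, 1, 0, 0, 0, 0, 0], [2, 1, 1, 0, 2, 1, 1],
  [1, 1, 1, 1, 1, 1, 0], [2, 2, 1, 1, 2, 1, 1], [1, 1, 0, 0, 1, 1, 0], [2, 1, 1, 1, 3, 2, 2]]
  281439542706175 [45, 105, 117, 117, 105, 189, 201] 2298495373686 :=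
  cut4 2 3 1 1 1 _ [[2, 1, 1, 1, 2, 1, 0], [1, 1, 0, 0, 0, 0, 0], [3, 2, 2, 1, 3, 2, 1], [1, 1,
  1, 1, 1, 1, 0], [2, 2, 1, 1, 2, 1, 1], [1, 1, 0, 0, 1, 1, 0], [2, 1, 1, 1, 3, 2, 2]] [[2, 1, 1,
  1, 2, 1, 0], [1, 1, 0, 0, 0, 0, 0], [2, 1, 1, 0, 2, 1, 1], [3, 2, 2, 1, 3, 2, 1], [2, 2, 1, 1,
  2, 1, 1], [1, 1, 0, 0, 1, 1, 0], [2, 1, 1, 1, 3, 2, 2]] _ _ 2731222827469 1721525435308 _ (by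
  decide +kernel) ok45 ok46

theorem nd104 : Ok 4 Dn4 [[2, 1, 1, 1, 2, 1, 0], [1, 1, 0, 0, 0, 0, 0], [2, 1, 1, 0, 2, 1, 1],
  [1, 1, 1, 1, 1, 1, 0], [2, 2, 1, 1, 2, 1, 1], [1, 1, 0, 0, 1, 1, 0], [2, 1, 1, 1, 3, 2, 2]]
  281439542706173 [45, 105, 117, 117, 105, 189, 201] 2298495373686 :=
  dec4 0 1 0 _ _ 281439542706175 _ [45, 105, 117, 117, 105, 189, 201] _ (by decide +kernel) nd103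

theorem nd105 : Ok 4 Dn4 [[1, 0, 0, 0, 1, 0, 0], [1, 1, 0, 0, 0, 0, 0], [2, 1, 1, 0, 2, 1, 1],
  [2, 1, 1, 1, 2, 1, 0], [2, 2, 1, 1, 2, 1, 1], [1, 1, 0, 0, 1, 1, 0], [2, 1, 1, 1, 3, 2, 2]]
  281440616447997 [45, 105, 117, 117, 105, 189, 201] 701947263583 :=
  cut4 1 6 1 1 1 _ [[1, 0, 0, 0, 1, 0, 0], [3, 2, 1, 1, 3, 2, 2], [2, 1, 1, 0, 2, 1, 1], [2, 1,
  1, 1, 2, 1, 0], [2, 2, 1, 1, 2, 1, 1], [1, 1, 0, 0, 1, 1, 0], [2, 1, 1, 1, 3, 2, 2]] [[1, 0, 0,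
  0, 1, 0, 0], [1, 1, 0, 0, 0, 0, 0], [2, 1, 1, 0, 2, 1, 1], [2, 1, 1, 1, 2, 1, 0], [2, 2, 1, 1,
  2, 1, 1], [1, 1, 0, 0, 1, 1, 0], [3, 2, 1, 1, 3, 2, 2]] _ _ 942053180125 661929610826 _ (by
  decide +kernel) ok47 ok48

theorem nd106 : Ok 4 Dn4 [[1, 0, 0, 0, 1, 0, 0], [1, 1, 0, 0, 0, 0, 0], [2, 1, 1, 0, 2, 1, 1],
  [2, 1, 1, 1, 2, 1, 0], [2, 2, 1, 1, 2, 1, 1], [1, 1, 0, 0, 1, 1, 0], [2, 1, 1, 1, 3, 2, 2]]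
  281439542706173 [45, 105, 117, 117, 105, 189, 201] 701947263583 :=
  dec4 1 14 0 _ _ 281440616447997 _ [45, 105, 117, 117, 105, 189, 201] _ (by decide +kernel) nd105

theorem nd107 : Ok 4 Dn4 [[1, 0, 0, 0, 1, 0, 0], [1, 1, 0, 0, 0, 0, 0], [2, 1, 1, 0, 2, 1, 1],
  [1, 1, 1, 1, 1, 1, 0], [2, 2, 1, 1, 2, 1, 1], [1, 1, 0, 0, 1, 1, 0], [2, 1, 1, 1, 3, 2, 2]]
  281439542706173 [45, 105, 117, 117, 105, 189, 201] 1101084291109 :=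
  cut4 0 3 1 1 1 _ [[2, 1, 1, 1, 2, 1, 0], [1, 1, 0, 0, 0, 0, 0], [2, 1, 1, 0, 2, 1, 1], [1, 1,
  1, 1, 1, 1, 0], [2, 2, 1, 1, 2, 1, 1], [1, 1, 0, 0, 1, 1, 0], [2, 1, 1, 1, 3, 2, 2]] [[1, 0, 0,
  0, 1, 0, 0], [1, 1, 0, 0, 0, 0, 0], [2, 1, 1, 0, 2, 1, 1], [2, 1, 1, 1, 2, 1, 0], [2, 2, 1, 1,
  2, 1, 1], [1, 1, 0, 0, 1, 1, 0], [2, 1, 1, 1, 3, 2, 2]] _ _ 2298495373686 701947263583 _ (by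
  decide +kernel) nd104 nd106

theorem nd108 : Ok 4 Dn4 [[1, 0, 0, 0, 1, 0, 0], [1, 1, 0, 0, 0, 0, 0], [2, 1, 1, 0, 2, 1, 1],
  [1, 1, 1, 1, 1, 1, 0], [1, 1, 1, 1, 2, 1, 1], [1, 1, 0, 0, 1, 1, 0], [2, 1, 1, 1, 3, 2, 2]]
  281439542706173 [45, 105, 117, 117, 105, 189, 201] 1319288378266 :=
  cut4 1 4 1 1 1 _ [[1, 0, 0, 0, 1, 0, 0], [2, 2, 1, 1, 2, 1, 1], [2, 1, 1, 0, 2, 1, 1], [1, 1,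
  1, 1, 1, 1, 0], [1, 1, 1, 1, 2, 1, 1], [1, 1, 0, 0, 1, 1, 0], [2, 1, 1, 1, 3, 2, 2]] [[1, 0, 0,
  0, 1, 0, 0], [1, 1, 0, 0, 0, 0, 0], [2, 1, 1, 0, 2, 1, 1], [1, 1, 1, 1, 1, 1, 0], [2, 2, 1, 1,
  2, 1, 1], [1, 1, 0, 0, 1, 1, 0], [2, 1, 1, 1, 3, 2, 2]] _ _ 2192104726892 1101084291109 _ (by
  decide +kernel) nd102 nd107

theorem nd109 : Ok 4 Dn4 [[1, 0, 0, 0, 1, 0, 0], [1, 1, 0, 0, 0, 0, 0], [2, 1, 1, 0, 2, 1, 1],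
  [1, 1, 1, 1, 1, 1, 0], [1, 1, 1, 1, 2, 1, 1], [1, 1, 0, 0, 1, 1, 0], [2, 1, 1, 1, 3, 2, 2]]
  281439542705661 [41, 77, 89, 113, 101, 161, 173] 1319288378266 :=
  dec4 0 9 1 _ _ 281439542706173 _ [45, 105, 117, 117, 105, 189, 201] _ (by decide +kernel) nd108

theorem nd110 : Ok 4 Dn4 [[1, 0, 0, 0, 1, 0, 0], [1, 1, 0, 0, 0, 0, 0], [1, 1, 1, 0, 1, 1, 1],
  [1, 1, 1, 1, 1, 1, 0], [1, 1, 1, 1, 2, 1, 1], [1, 1, 0, 0, 1, 1, 0], [2, 1, 1, 1, 3, 2, 2]]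
  281439542705661 [41, 77, 89, 113, 101, 161, 173] 1673090877018 :=
  cut4 0 2 1 1 1 _ [[2, 1, 1, 0, 2, 1, 1], [1, 1, 0, 0, 0, 0, 0], [1, 1, 1, 0, 1, 1, 1], [1, 1,
  1, 1, 1, 1, 0], [1, 1, 1, 1, 2, 1, 1], [1, 1, 0, 0, 1, 1, 0], [2, 1, 1, 1, 3, 2, 2]] [[1, 0, 0,
  0, 1, 0, 0], [1, 1, 0, 0, 0, 0, 0], [2, 1, 1, 0, 2, 1, 1], [1, 1, 1, 1, 1, 1, 0], [1, 1, 1, 1,
  2, 1, 1], [1, 1, 0, 0, 1, 1, 0], [2, 1, 1, 1, 3, 2, 2]] _ _ 2734498373274 1319288378266 _ (by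
  decide +kernel) ok42 nd109

theorem nd111 : Ok 4 Dn4 [[1, 0, 0, 0, 1, 0, 0], [1, 1, 0, 0, 0, 0, 0], [1, 1, 1, 0, 1, 1, 1],
  [1, 1, 1, 1, 1, 1, 0], [1, 1, 1, 1, 2, 1, 1], [1, 1, 0, 0, 1, 1, 0], [2, 1, 1, 1, 3, 2, 2]]
  281439542705629 [37, 49, 85, 85, 97, 133, 145] 1673090877018 :=
  dec4 0 5 1 _ _ 281439542705661 _ [41, 77, 89, 113, 101, 161, 173] _ (by decide +kernel) nd110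

theorem nd112 : Ok 4 Dn4 [[1, 0, 0, 0, 1, 0, 0], [1, 1, 0, 0, 0, 0, 0], [1, 1, 1, 0, 1, 1, 1],
  [1, 1, 1, 1, 1, 1, 0], [1, 1, 1, 1, 2, 1, 1], [1, 1, 0, 0, 1, 1, 0], [2, 1, 1, 1, 3, 2, 2]]
  281439542705621 [33, 45, 57, 57, 93, 105, 117] 1673090877018 :=
  dec4 0 3 1 _ _ 281439542705629 _ [37, 49, 85, 85, 97, 133, 145] _ (by decide +kernel) nd111

theorem nd113 : Ok 4 Dn4 [[1, 0, 0, 0, 1, 0, 0], [1, 1, 0, 0, 0, 0, 0], [1, 1, 1, 0, 1, 1, 1],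
  [1, 1, 1, 1, 1, 1, 0], [1, 1, 1, 1, 2, 1, 1], [1, 1, 0, 0, 1, 1, 0], [1, 1, 1, 1, 2, 2, 2]]
  281439542705621 [33, 45, 57, 57, 93, 105, 117] 2560463450851 :=
  cut4 0 6 1 1 1 _ [[2, 1, 1, 1, 3, 2, 2], [1, 1, 0, 0, 0, 0, 0], [1, 1, 1, 0, 1, 1, 1], [1, 1,
  1, 1, 1, 1, 0], [1, 1, 1, 1, 2, 1, 1], [1, 1, 0, 0, 1, 1, 0], [1, 1, 1, 1, 2, 2, 2]] [[1, 0, 0,
  0, 1, 0, 0], [1, 1, 0, 0, 0, 0, 0], [1, 1, 1, 0, 1, 1, 1], [1, 1, 1, 1, 1, 1, 0], [1, 1, 1, 1,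
  2, 1, 1], [1, 1, 0, 0, 1, 1, 0], [2, 1, 1, 1, 3, 2, 2]] _ _ 6997326320014 1673090877018 _ (by
  decide +kernel) nd100 nd112

theorem nd114 : Ok 4 Dn4 [[1, 0, 0, 0, 1, 0, 0], [1, 1, 0, 0, 0, 0, 0], [1, 1, 1, 0, 1, 1, 1],
  [1, 1, 1, 1, 1, 1, 0], [1, 1, 1, 1, 2, 1, 1], [1, 1, 0, 0, 1, 1, 0], [1, 1, 1, 1, 2, 2, 2]]
  140702054350293 [32, 44, 56, 56, 86, 98, 116] 2560463450851 :=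
  dec4 2 15 1 _ _ 281439542705621 _ [33, 45, 57, 57, 93, 105, 117] _ (by decide +kernel) nd113

theorem nd115 : Ok 4 Dn4 [[1, 0, 0, 0, 1, 0, 0], [1, 1, 0, 0, 0, 0, 0], [1, 1, 1, 0, 1, 1, 1],
  [1, 1, 1, 1, 1, 1, 0], [1, 1, 1, 1, 2, 1, 1], [1, 1, 0, 0, 1, 1, 0], [1, 1, 1, 1, 2, 2, 2]]
  131905961328085 [30, 42, 42, 54, 72, 84, 114] 2560463450851 :=
  dec4 2 11 1 _ _ 140702054350293 _ [32, 44, 56, 56, 86, 98, 116] _ (by decide +kernel) nd114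

theorem nd116 : Ok 4 Dn4 [[1, 0, 0, 0, 1, 0, 0], [1, 1, 0, 0, 0, 0, 0], [1, 1, 1, 0, 1, 1, 1],
  [1, 1, 1, 1, 1, 1, 0], [1, 1, 1, 1, 2, 1, 1], [1, 1, 0, 0, 1, 1, 0], [1, 1, 1, 1, 2, 2, 2]]
  131356205514197 [28, 40, 40, 40, 58, 70, 112] 2560463450851 :=
  dec4 2 7 1 _ _ 131905961328085 _ [30, 42, 42, 54, 72, 84, 114] _ (by decide +kernel) nd115

theorem nd117 : Ok 4 Dn4 [[1, 0, 0, 0, 1, 0, 0], [1, 1, 0, 0, 0, 0, 0], [1, 1, 1, 0, 1, 1, 1],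
  [1, 1, 1, 1, 1, 1, 0], [1, 1, 1, 1, 2, 1, 1], [0, 0, 0, 0, 1, 1, 0], [1, 1, 1, 1, 2, 2, 2]]
  131356205514197 [28, 40, 40, 40, 58, 70, 112] 2631008659306 :=
  cut4 1 5 1 1 1 _ [[1, 0, 0, 0, 1, 0, 0], [1, 1, 0, 0, 1, 1, 0], [1, 1, 1, 0, 1, 1, 1], [1, 1,
  1, 1, 1, 1, 0], [1, 1, 1, 1, 2, 1, 1], [0, 0, 0, 0, 1, 1, 0], [1, 1, 1, 1, 2, 2, 2]] [[1, 0, 0,
  0, 1, 0, 0], [1, 1, 0, 0, 0, 0, 0], [1, 1, 1, 0, 1, 1, 1], [1, 1, 1, 1, 1, 1, 0], [1, 1, 1, 1,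
  2, 1, 1], [1, 1, 0, 0, 1, 1, 0], [1, 1, 1, 1, 2, 2, 2]] _ _ 2701553867760 2560463450851 _ (by
  decide +kernel) nd96 nd116

theorem nd118 : Ok 4 Dn4 [[1, 0, 0, 0, 1, 0, 0], [1, 1, 0, 0, 0, 0, 0], [1, 1, 1, 0, 1, 1, 1],
  [1, 1, 1, 1, 1, 1, 0], [1, 1, 1, 1, 2, 1, 1], [0, 0, 0, 0, 1, 1, 0], [1, 1, 1, 1, 2, 2, 2]]
  60987461336533 [28, 40, 40, 40, 58, 70, 112] 2631008659306 :=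
  dec4 2 14 0 _ _ 131356205514197 _ [28, 40, 40, 40, 58, 70, 112] _ (by decide +kernel) nd117

theorem nd119 : Ok 4 Dn4 [[1, 0, 0, 0, 1, 0, 0], [1, 1, 0, 0, 0, 0, 0], [1, 1, 1, 0, 1, 1, 1],
  [1, 1, 1, 1, 1, 1, 0], [1, 1, 1, 1, 2, 1, 1], [0, 0, 0, 0, 1, 1, 0], [1, 1, 1, 1, 2, 2, 2]]
  25803089247701 [28, 40, 40, 40, 58, 70, 112] 2631008659306 :=
  dec4 2 13 0 _ _ 60987461336533 _ [28, 40, 40, 40, 58, 70, 112] _ (by decide +kernel) nd118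

theorem nd120 : Ok 4 Dn4 [[3, 2, 2, 2, 3, 2, 2], [1, 1, 0, 0, 0, 0, 0], [2, 2, 2, 1, 1, 1, 1],
  [1, 1, 1, 1, 0, 0, 0], [1, 1, 1, 1, 2, 1, 1], [1, 1, 1, 1, 1, 1, 0], [1, 1, 1, 1, 2, 2, 2]]
  281440616447991 [63, 63, 63, 63, 135, 135, 135] 18146696827770 :=
  cut4 1 6 1 1 1 _ [[3, 2, 2, 2, 3, 2, 2], [2, 2, 1, 1, 2, 2, 2], [2, 2, 2, 1, 1, 1, 1], [1, 1,
  1, 1, 0, 0, 0], [1, 1, 1, 1, 2, 1, 1], [1, 1, 1, 1, 1, 1, 0], [1, 1, 1, 1, 2, 2, 2]] [[3, 2, 2,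
  2, 3, 2, 2], [1, 1, 0, 0, 0, 0, 0], [2, 2, 2, 1, 1, 1, 1], [1, 1, 1, 1, 0, 0, 0], [1, 1, 1, 1,
  2, 1, 1], [1, 1, 1, 1, 1, 1, 0], [2, 2, 1, 1, 2, 2, 2]] _ _ 40484333277599 13679169537804 _ (by
  decide +kernel) ok49 ok50

theorem nd121 : Ok 4 Dn4 [[3, 2, 2, 2, 3, 2, 2], [1, 1, 0, 0, 0, 0, 0], [1, 1, 1, 0, 1, 1, 1],
  [1, 1, 1, 1, 0, 0, 0], [1, 1, 1, 1, 2, 1, 1], [1, 1, 1, 1, 1, 1, 0], [1, 1, 1, 1, 2, 2, 2]]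
  281440616447991 [63, 63, 63, 63, 135, 135, 135] 15097946322892 :=
  cut4 2 3 1 1 1 _ [[3, 2, 2, 2, 3, 2, 2], [1, 1, 0, 0, 0, 0, 0], [2, 2, 2, 1, 1, 1, 1], [1, 1,
  1, 1, 0, 0, 0], [1, 1, 1, 1, 2, 1, 1], [1, 1, 1, 1, 1, 1, 0], [1, 1, 1, 1, 2, 2, 2]] [[3, 2, 2,
  2, 3, 2, 2], [1, 1, 0, 0, 0, 0, 0], [1, 1, 1, 0, 1, 1, 1], [2, 2, 2, 1, 1, 1, 1], [1, 1, 1, 1,
  2, 1, 1], [1, 1, 1, 1, 1, 1, 0], [1, 1, 1, 1, 2, 2, 2]] _ _ 18146696827770 10524820565573 _ (by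
  decide +kernel) nd120 ok51

theorem nd122 : Ok 4 Dn4 [[3, 2, 2, 2, 3, 2, 2], [1, 1, 0, 0, 0, 0, 0], [1, 1, 1, 0, 1, 1, 1],
  [1, 1, 1, 1, 0, 0, 0], [1, 1, 1, 1, 2, 1, 1], [1, 1, 1, 1, 1, 1, 0], [1, 1, 1, 1, 2, 2, 2]]
  281440616447479 [63, 63, 63, 63, 135, 135, 135] 15097946322892 :=
  dec4 0 9 0 _ _ 281440616447991 _ [63, 63, 63, 63, 135, 135, 135] _ (by decide +kernel) nd121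

theorem nd123 : Ok 4 Dn4 [[3, 2, 2, 2, 3, 2, 2], [1, 1, 0, 0, 0, 0, 0], [1, 1, 1, 0, 1, 1, 1],
  [1, 1, 1, 1, 0, 0, 0], [1, 1, 1, 1, 2, 1, 1], [1, 1, 1, 1, 1, 1, 0], [1, 1, 1, 1, 2, 2, 2]]
  281440616447447 [63, 63, 63, 63, 135, 135, 135] 15097946322892 :=
  dec4 0 5 0 _ _ 281440616447479 _ [63, 63, 63, 63, 135, 135, 135] _ (by decide +kernel) nd122

theorem nd124 : Ok 4 Dn4 [[2, 1, 1, 1, 1, 0, 0], [1, 1, 0, 0, 0, 0, 0], [2, 2, 2, 1, 1, 1, 1],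
  [1, 1, 1, 1, 0, 0, 0], [1, 1, 1, 1, 2, 1, 1], [1, 1, 1, 1, 1, 1, 0], [3, 2, 2, 2, 3, 2, 2]]
  281440616447487 [71, 95, 95, 119, 143, 191, 191] 5092964608245 :=
  cut4 1 4 1 1 1 _ [[2, 1, 1, 1, 1, 0, 0], [2, 2, 1, 1, 2, 1, 1], [2, 2, 2, 1, 1, 1, 1], [1, 1,
  1, 1, 0, 0, 0], [1, 1, 1, 1, 2, 1, 1], [1, 1, 1, 1, 1, 1, 0], [3, 2, 2, 2, 3, 2, 2]] [[2, 1, 1,
  1, 1, 0, 0], [1, 1, 0, 0, 0, 0, 0], [2, 2, 2, 1, 1, 1, 1], [1, 1, 1, 1, 0, 0, 0], [2, 2, 1, 1,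
  2, 1, 1], [1, 1, 1, 1, 1, 1, 0], [3, 2, 2, 2, 3, 2, 2]] _ _ 9383088815563 4020433556415 _ (by
  decide +kernel) ok52 ok53

theorem nd125 : Ok 4 Dn4 [[2, 1, 1, 1, 1, 0, 0], [1, 1, 0, 0, 0, 0, 0], [1, 1, 1, 0, 1, 1, 1],
  [1, 1, 1, 1, 0, 0, 0], [1, 1, 1, 1, 2, 1, 1], [1, 1, 1, 1, 1, 1, 0], [3, 2, 2, 2, 3, 2, 2]]
  281440616447487 [71, 95, 95, 119, 143, 191, 191] 4911802309873 :=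
  cut4 2 3 1 1 1 _ [[2, 1, 1, 1, 1, 0, 0], [1, 1, 0, 0, 0, 0, 0], [2, 2, 2, 1, 1, 1, 1], [1, 1,
  1, 1, 0, 0, 0], [1, 1, 1, 1, 2, 1, 1], [1, 1, 1, 1, 1, 1, 0], [3, 2, 2, 2, 3, 2, 2]] [[2, 1, 1,
  1, 1, 0, 0], [1, 1, 0, 0, 0, 0, 0], [1, 1, 1, 0, 1, 1, 1], [2, 2, 2, 1, 1, 1, 1], [1, 1, 1, 1,
  2, 1, 1], [1, 1, 1, 1, 1, 1, 0], [3, 2, 2, 2, 3, 2, 2]] _ _ 5092964608245 4640058862314 _ (by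
  decide +kernel) nd124 ok54

theorem nd126 : Ok 4 Dn4 [[2, 1, 1, 1, 1, 0, 0], [1, 1, 0, 0, 0, 0, 0], [1, 1, 1, 0, 1, 1, 1],
  [1, 1, 1, 1, 0, 0, 0], [1, 1, 1, 1, 2, 1, 1], [1, 1, 1, 1, 1, 1, 0], [3, 2, 2, 2, 3, 2, 2]]
  281440616447455 [67, 67, 91, 91, 139, 163, 163] 4911802309873 :=
  dec4 0 5 1 _ _ 281440616447487 _ [71, 95, 95, 119, 143, 191, 191] _ (by decide +kernel) nd125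

theorem nd127 : Ok 4 Dn4 [[2, 1, 1, 1, 1, 0, 0], [1, 1, 0, 0, 0, 0, 0], [1, 1, 1, 0, 1, 1, 1],
  [1, 1, 1, 1, 0, 0, 0], [1, 1, 1, 1, 2, 1, 1], [1, 1, 1, 1, 1, 1, 0], [3, 2, 2, 2, 3, 2, 2]]
  281440616447447 [63, 63, 63, 63, 135, 135, 135] 4911802309873 :=
  dec4 0 3 1 _ _ 281440616447455 _ [67, 67, 91, 91, 139, 163, 163] _ (by decide +kernel) nd126

theorem nd128 : Ok 4 Dn4 [[2, 1, 1, 1, 1, 0, 0], [1, 1, 0, 0, 0, 0, 0], [1, 1, 1, 0, 1, 1, 1],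
  [1, 1, 1, 1, 0, 0, 0], [1, 1, 1, 1, 2, 1, 1], [1, 1, 1, 1, 1, 1, 0], [1, 1, 1, 1, 2, 2, 2]]
  281440616447447 [63, 63, 63, 63, 135, 135, 135] 8731606314756 :=
  cut4 0 6 1 1 1 _ [[3, 2, 2, 2, 3, 2, 2], [1, 1, 0, 0, 0, 0, 0], [1, 1, 1, 0, 1, 1, 1], [1, 1,
  1, 1, 0, 0, 0], [1, 1, 1, 1, 2, 1, 1], [1, 1, 1, 1, 1, 1, 0], [1, 1, 1, 1, 2, 2, 2]] [[2, 1, 1,
  1, 1, 0, 0], [1, 1, 0, 0, 0, 0, 0], [1, 1, 1, 0, 1, 1, 1], [1, 1, 1, 1, 0, 0, 0], [1, 1, 1, 1,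
  2, 1, 1], [1, 1, 1, 1, 1, 1, 0], [3, 2, 2, 2, 3, 2, 2]] _ _ 15097946322892 4911802309873 _ (by
  decide +kernel) nd123 nd127

theorem nd129 : Ok 4 Dn4 [[2, 1, 1, 1, 1, 0, 0], [1, 1, 0, 0, 0, 0, 0], [1, 1, 1, 0, 1, 1, 1],
  [1, 1, 1, 1, 0, 0, 0], [1, 1, 1, 1, 2, 1, 1], [1, 1, 1, 1, 1, 1, 0], [1, 1, 1, 1, 2, 2, 2]]
  211071872269783 [49, 61, 61, 61, 121, 121, 133] 8731606314756 :=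
  dec4 2 14 1 _ _ 281440616447447 _ [63, 63, 63, 63, 135, 135, 135] _ (by decide +kernel) nd128

theorem nd130 : Ok 4 Dn4 [[2, 1, 1, 1, 1, 0, 0], [1, 1, 0, 0, 0, 0, 0], [1, 1, 1, 0, 1, 1, 1],
  [1, 1, 1, 1, 0, 0, 0], [1, 1, 1, 1, 2, 1, 1], [1, 1, 1, 1, 1, 1, 0], [1, 1, 1, 1, 2, 2, 2]]
  211070798527959 [35, 59, 59, 59, 107, 119, 119] 8731606314756 :=
  dec4 1 14 1 _ _ 211071872269783 _ [49, 61, 61, 61, 121, 121, 133] _ (by decide +kernel) nd129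

theorem nd131 : Ok 4 Dn4 [[2, 1, 1, 1, 1, 0, 0], [1, 1, 0, 0, 0, 0, 0], [1, 1, 1, 0, 1, 1, 1],
  [1, 1, 1, 1, 0, 0, 0], [1, 1, 1, 1, 2, 1, 1], [1, 1, 1, 1, 1, 1, 0], [1, 1, 1, 1, 2, 2, 2]]
  211070798527957 [35, 59, 59, 59, 107, 119, 119] 8731606314756 :=
  dec4 0 1 0 _ _ 211070798527959 _ [35, 59, 59, 59, 107, 119, 119] _ (by decide +kernel) nd130

theorem nd132 : Ok 4 Dn4 [[2, 1, 1, 1, 2, 1, 0], [1, 1, 0, 0, 0, 0, 0], [2, 1, 1, 0, 2, 1, 1],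
  [4, 3, 2, 2, 3, 2, 2], [2, 2, 1, 1, 2, 1, 1], [1, 1, 1, 1, 1, 1, 0], [2, 1, 1, 1, 3, 2, 2]]
  281439542706175 [47, 119, 119, 119, 119, 203, 203] 2762363259739 :=
  cut4 2 5 1 1 1 _ [[2, 1, 1, 1, 2, 1, 0], [1, 1, 0, 0, 0, 0, 0], [3, 2, 2, 1, 3, 2, 1], [4, 3,
  2, 2, 3, 2, 2], [2, 2, 1, 1, 2, 1, 1], [1, 1, 1, 1, 1, 1, 0], [2, 1, 1, 1, 3, 2, 2]] [[2, 1, 1,
  1, 2, 1, 0], [1, 1, 0, 0, 0, 0, 0], [2, 1, 1, 0, 2, 1, 1], [4, 3, 2, 2, 3, 2, 2], [2, 2, 1, 1,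
  2, 1, 1], [3, 2, 2, 1, 3, 2, 1], [2, 1, 1, 1, 3, 2, 2]] _ _ 3193524443613 2187481681240 _ (by
  decide +kernel) ok59 ok60

theorem nd133 : Ok 4 Dn4 [[2, 1, 1, 1, 2, 1, 0], [1, 1, 0, 0, 0, 0, 0], [2, 1, 1, 0, 2, 1, 1],
  [4, 3, 2, 2, 3, 2, 2], [1, 1, 1, 1, 2, 1, 1], [1, 1, 1, 1, 1, 1, 0], [2, 1, 1, 1, 3, 2, 2]]
  281439542706175 [47, 119, 119, 119, 119, 203, 203] 3352647373960 :=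
  cut4 1 4 1 1 1 _ [[2, 1, 1, 1, 2, 1, 0], [2, 2, 1, 1, 2, 1, 1], [2, 1, 1, 0, 2, 1, 1], [4, 3,
  2, 2, 3, 2, 2], [1, 1, 1, 1, 2, 1, 1], [1, 1, 1, 1, 1, 1, 0], [2, 1, 1, 1, 3, 2, 2]] [[2, 1, 1,
  1, 2, 1, 0], [1, 1, 0, 0, 0, 0, 0], [2, 1, 1, 0, 2, 1, 1], [4, 3, 2, 2, 3, 2, 2], [2, 2, 1, 1,
  2, 1, 1], [1, 1, 1, 1, 1, 1, 0], [2, 1, 1, 1, 3, 2, 2]] _ _ 5713783830841 2762363259739 _ (by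
  decide +kernel) ok58 nd132

theorem nd134 : Ok 4 Dn4 [[2, 1, 1, 1, 2, 1, 0], [1, 1, 0, 0, 0, 0, 0], [2, 1, 1, 0, 2, 1, 1],
  [4, 3, 2, 2, 3, 2, 2], [1, 1, 1, 1, 2, 1, 1], [1, 1, 1, 1, 1, 1, 0], [2, 1, 1, 1, 3, 2, 2]]
  281439542706173 [47, 119, 119, 119, 119, 203, 203] 3352647373960 :=
  dec4 0 1 0 _ _ 281439542706175 _ [47, 119, 119, 119, 119, 203, 203] _ (by decide +kernel) nd133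

theorem nd135 : Ok 4 Dn4 [[1, 0, 0, 0, 1, 0, 0], [1, 1, 0, 0, 0, 0, 0], [2, 1, 1, 0, 2, 1, 1],
  [4, 3, 2, 2, 3, 2, 2], [2, 2, 1, 1, 2, 1, 1], [2, 1, 1, 1, 2, 1, 0], [3, 2, 1, 1, 3, 2, 2]]
  281440616972285 [51, 123, 147, 147, 147, 207, 231] 913677905934 :=
  cut4 0 3 2 1 1 _ [[6, 3, 2, 2, 5, 2, 2], [1, 1, 0, 0, 0, 0, 0], [2, 1, 1, 0, 2, 1, 1], [4, 3,
  2, 2, 3, 2, 2], [2, 2, 1, 1, 2, 1, 1], [2, 1, 1, 1, 2, 1, 0], [3, 2, 1, 1, 3, 2, 2]] [[1, 0, 0,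
  0, 1, 0, 0], [1, 1, 0, 0, 0, 0, 0], [2, 1, 1, 0, 2, 1, 1], [6, 3, 2, 2, 5, 2, 2], [2, 2, 1, 1,
  2, 1, 1], [2, 1, 1, 1, 2, 1, 0], [3, 2, 1, 1, 3, 2, 2]] _ _ 2097324290491 650645376032 _ (by
  decide +kernel) ok63 ok64

theorem nd136 : Ok 4 Dn4 [[1, 0, 0, 0, 1, 0, 0], [1, 1, 0, 0, 0, 0, 0], [2, 1, 1, 0, 2, 1, 1],
  [4, 3, 2, 2, 3, 2, 2], [2, 2, 1, 1, 2, 1, 1], [2, 1, 1, 1, 2, 1, 0], [3, 2, 1, 1, 3, 2, 2]]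
  281440616447997 [47, 119, 119, 119, 119, 203, 203] 913677905934 :=
  dec4 1 3 1 _ _ 281440616972285 _ [51, 123, 147, 147, 147, 207, 231] _ (by decide +kernel) nd135

theorem nd137 : Ok 4 Dn4 [[1, 0, 0, 0, 1, 0, 0], [1, 1, 0, 0, 0, 0, 0], [2, 1, 1, 0, 2, 1, 1],
  [4, 3, 2, 2, 3, 2, 2], [2, 2, 1, 1, 2, 1, 1], [2, 1, 1, 1, 2, 1, 0], [2, 1, 1, 1, 3, 2, 2]]
  281440616447997 [47, 119, 119, 119, 119, 203, 203] 1106561147629 :=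
  cut4 1 6 1 1 1 _ [[1, 0, 0, 0, 1, 0, 0], [3, 2, 1, 1, 3, 2, 2], [2, 1, 1, 0, 2, 1, 1], [4, 3,
  2, 2, 3, 2, 2], [2, 2, 1, 1, 2, 1, 1], [2, 1, 1, 1, 2, 1, 0], [2, 1, 1, 1, 3, 2, 2]] [[1, 0, 0,
  0, 1, 0, 0], [1, 1, 0, 0, 0, 0, 0], [2, 1, 1, 0, 2, 1, 1], [4, 3, 2, 2, 3, 2, 2], [2, 2, 1, 1,
  2, 1, 1], [2, 1, 1, 1, 2, 1, 0], [3, 2, 1, 1, 3, 2, 2]] _ _ 2263860597795 913677905934 _ (by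
  decide +kernel) ok62 nd136

theorem nd138 : Ok 4 Dn4 [[1, 0, 0, 0, 1, 0, 0], [1, 1, 0, 0, 0, 0, 0], [2, 1, 1, 0, 2, 1, 1],
  [4, 3, 2, 2, 3, 2, 2], [1, 1, 1, 1, 2, 1, 1], [2, 1, 1, 1, 2, 1, 0], [2, 1, 1, 1, 3, 2, 2]]
  281440616447997 [47, 119, 119, 119, 119, 203, 203] 1476022008546 :=
  cut4 1 4 1 1 1 _ [[1, 0, 0, 0, 1, 0, 0], [2, 2, 1, 1, 2, 1, 1], [2, 1, 1, 0, 2, 1, 1], [4, 3,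
  2, 2, 3, 2, 2], [1, 1, 1, 1, 2, 1, 1], [2, 1, 1, 1, 2, 1, 0], [2, 1, 1, 1, 3, 2, 2]] [[1, 0, 0,
  0, 1, 0, 0], [1, 1, 0, 0, 0, 0, 0], [2, 1, 1, 0, 2, 1, 1], [4, 3, 2, 2, 3, 2, 2], [2, 2, 1, 1,
  2, 1, 1], [2, 1, 1, 1, 2, 1, 0], [2, 1, 1, 1, 3, 2, 2]] _ _ 2953865452214 1106561147629 _ (by
  decide +kernel) ok61 nd137

theorem nd139 : Ok 4 Dn4 [[1, 0, 0, 0, 1, 0, 0], [1, 1, 0, 0, 0, 0, 0], [2, 1, 1, 0, 2, 1, 1],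
  [4, 3, 2, 2, 3, 2, 2], [1, 1, 1, 1, 2, 1, 1], [2, 1, 1, 1, 2, 1, 0], [2, 1, 1, 1, 3, 2, 2]]
  281439542706173 [47, 119, 119, 119, 119, 203, 203] 1476022008546 :=
  dec4 1 14 0 _ _ 281440616447997 _ [47, 119, 119, 119, 119, 203, 203] _ (by decide +kernel) nd138

theorem nd140 : Ok 4 Dn4 [[1, 0, 0, 0, 1, 0, 0], [1, 1, 0, 0, 0, 0, 0], [2, 1, 1, 0, 2, 1, 1],
  [4, 3, 2, 2, 3, 2, 2], [1, 1, 1, 1, 2, 1, 1], [1, 1, 1, 1, 1, 1, 0], [2, 1, 1, 1, 3, 2, 2]]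
  281439542706173 [47, 119, 119, 119, 119, 203, 203] 1945178349900 :=
  cut4 0 5 1 1 1 _ [[2, 1, 1, 1, 2, 1, 0], [1, 1, 0, 0, 0, 0, 0], [2, 1, 1, 0, 2, 1, 1], [4, 3,
  2, 2, 3, 2, 2], [1, 1, 1, 1, 2, 1, 1], [1, 1, 1, 1, 1, 1, 0], [2, 1, 1, 1, 3, 2, 2]] [[1, 0, 0,
  0, 1, 0, 0], [1, 1, 0, 0, 0, 0, 0], [2, 1, 1, 0, 2, 1, 1], [4, 3, 2, 2, 3, 2, 2], [1, 1, 1, 1,
  2, 1, 1], [2, 1, 1, 1, 2, 1, 0], [2, 1, 1, 1, 3, 2, 2]] _ _ 3352647373960 1476022008546 _ (by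
  decide +kernel) nd134 nd139

theorem nd141 : Ok 4 Dn4 [[1, 0, 0, 0, 1, 0, 0], [1, 1, 0, 0, 0, 0, 0], [2, 1, 1, 0, 2, 1, 1],
  [4, 3, 2, 2, 3, 2, 2], [1, 1, 1, 1, 2, 1, 1], [1, 1, 1, 1, 1, 1, 0], [2, 1, 1, 1, 3, 2, 2]]
  281439542705661 [43, 91, 91, 115, 115, 175, 175] 1945178349900 :=
  dec4 0 9 1 _ _ 281439542706173 _ [47, 119, 119, 119, 119, 203, 203] _ (by decide +kernel) nd140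

theorem nd142 : Ok 4 Dn4 [[1, 0, 0, 0, 1, 0, 0], [1, 1, 0, 0, 0, 0, 0], [1, 1, 1, 0, 1, 1, 1],
  [4, 3, 2, 2, 3, 2, 2], [1, 1, 1, 1, 2, 1, 1], [1, 1, 1, 1, 1, 1, 0], [2, 1, 1, 1, 3, 2, 2]]
  281439542705661 [43, 91, 91, 115, 115, 175, 175] 2428776002264 :=
  cut4 0 2 1 1 1 _ [[2, 1, 1, 0, 2, 1, 1], [1, 1, 0, 0, 0, 0, 0], [1, 1, 1, 0, 1, 1, 1], [4, 3,
  2, 2, 3, 2, 2], [1, 1, 1, 1, 2, 1, 1], [1, 1, 1, 1, 1, 1, 0], [2, 1, 1, 1, 3, 2, 2]] [[1, 0, 0,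
  0, 1, 0, 0], [1, 1, 0, 0, 0, 0, 0], [2, 1, 1, 0, 2, 1, 1], [4, 3, 2, 2, 3, 2, 2], [1, 1, 1, 1,
  2, 1, 1], [1, 1, 1, 1, 1, 1, 0], [2, 1, 1, 1, 3, 2, 2]] _ _ 3879568959353 1945178349900 _ (by
  decide +kernel) ok57 nd141

theorem nd143 : Ok 4 Dn4 [[1, 0, 0, 0, 1, 0, 0], [1, 1, 0, 0, 0, 0, 0], [1, 1, 1, 0, 1, 1, 1],
  [3, 2, 2, 2, 3, 2, 2], [1, 1, 1, 1, 2, 1, 1], [1, 1, 1, 1, 1, 1, 0], [2, 1, 1, 1, 3, 2, 2]]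
  281439542705661 [43, 91, 91, 115, 115, 175, 175] 2686594996292 :=
  cut4 1 3 1 1 1 _ [[1, 0, 0, 0, 1, 0, 0], [4, 3, 2, 2, 3, 2, 2], [1, 1, 1, 0, 1, 1, 1], [3, 2,
  2, 2, 3, 2, 2], [1, 1, 1, 1, 2, 1, 1], [1, 1, 1, 1, 1, 1, 0], [2, 1, 1, 1, 3, 2, 2]] [[1, 0, 0,
  0, 1, 0, 0], [1, 1, 0, 0, 0, 0, 0], [1, 1, 1, 0, 1, 1, 1], [4, 3, 2, 2, 3, 2, 2], [1, 1, 1, 1,
  2, 1, 1], [1, 1, 1, 1, 1, 1, 0], [2, 1, 1, 1, 3, 2, 2]] _ _ 4749146948509 2428776002264 _ (by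
  decide +kernel) ok56 nd142

theorem nd144 : Ok 4 Dn4 [[1, 0, 0, 0, 1, 0, 0], [1, 1, 0, 0, 0, 0, 0], [1, 1, 1, 0, 1, 1, 1],
  [3, 2, 2, 2, 3, 2, 2], [1, 1, 1, 1, 2, 1, 1], [1, 1, 1, 1, 1, 1, 0], [2, 1, 1, 1, 3, 2, 2]]
  281439542705629 [39, 63, 87, 87, 111, 147, 147] 2686594996292 :=
  dec4 0 5 1 _ _ 281439542705661 _ [43, 91, 91, 115, 115, 175, 175] _ (by decide +kernel) nd143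

theorem nd145 : Ok 4 Dn4 [[1, 0, 0, 0, 1, 0, 0], [1, 1, 0, 0, 0, 0, 0], [1, 1, 1, 0, 1, 1, 1],
  [3, 2, 2, 2, 3, 2, 2], [1, 1, 1, 1, 2, 1, 1], [1, 1, 1, 1, 1, 1, 0], [2, 1, 1, 1, 3, 2, 2]]
  281439542705621 [35, 59, 59, 59, 107, 119, 119] 2686594996292 :=
  dec4 0 3 1 _ _ 281439542705629 _ [39, 63, 87, 87, 111, 147, 147] _ (by decide +kernel) nd144

theorem nd146 : Ok 4 Dn4 [[1, 0, 0, 0, 1, 0, 0], [1, 1, 0, 0, 0, 0, 0], [1, 1, 1, 0, 1, 1, 1],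
  [3, 2, 2, 2, 3, 2, 2], [1, 1, 1, 1, 2, 1, 1], [1, 1, 1, 1, 1, 1, 0], [1, 1, 1, 1, 2, 2, 2]]
  281439542705621 [35, 59, 59, 59, 107, 119, 119] 4183068327133 :=
  cut4 0 6 1 1 1 _ [[2, 1, 1, 1, 3, 2, 2], [1, 1, 0, 0, 0, 0, 0], [1, 1, 1, 0, 1, 1, 1], [3, 2,
  2, 2, 3, 2, 2], [1, 1, 1, 1, 2, 1, 1], [1, 1, 1, 1, 1, 1, 0], [1, 1, 1, 1, 2, 2, 2]] [[1, 0, 0,
  0, 1, 0, 0], [1, 1, 0, 0, 0, 0, 0], [1, 1, 1, 0, 1, 1, 1], [3, 2, 2, 2, 3, 2, 2], [1, 1, 1, 1,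
  2, 1, 1], [1, 1, 1, 1, 1, 1, 0], [2, 1, 1, 1, 3, 2, 2]] _ _ 11665434981333 2686594996292 _ (by
  decide +kernel) ok55 nd145

theorem nd147 : Ok 4 Dn4 [[1, 0, 0, 0, 1, 0, 0], [1, 1, 0, 0, 0, 0, 0], [2, 1, 1, 0, 2, 1, 1],
  [3, 2, 2, 1, 2, 1, 1], [1, 1, 1, 1, 2, 1, 1], [2, 1, 1, 1, 2, 1, 0], [3, 2, 2, 2, 3, 2, 2]]
  281440616447997 [47, 119, 119, 119, 119, 203, 203] 1962872558924 :=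
  cut4 1 4 1 1 1 _ [[1, 0, 0, 0, 1, 0, 0], [2, 2, 1, 1, 2, 1, 1], [2, 1, 1, 0, 2, 1, 1], [3, 2,
  2, 1, 2, 1, 1], [1, 1, 1, 1, 2, 1, 1], [2, 1, 1, 1, 2, 1, 0], [3, 2, 2, 2, 3, 2, 2]] [[1, 0, 0,
  0, 1, 0, 0], [1, 1, 0, 0, 0, 0, 0], [2, 1, 1, 0, 2, 1, 1], [3, 2, 2, 1, 2, 1, 1], [2, 2, 1, 1,
  2, 1, 1], [2, 1, 1, 1, 2, 1, 0], [3, 2, 2, 2, 3, 2, 2]] _ _ 3809417516076 1501236319635 _ (by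
  decide +kernel) ok68 ok69

theorem nd148 : Ok 4 Dn4 [[1, 0, 0, 0, 1, 0, 0], [1, 1, 0, 0, 0, 0, 0], [2, 1, 1, 0, 2, 1, 1],
  [3, 2, 2, 1, 2, 1, 1], [1, 1, 1, 1, 2, 1, 1], [2, 1, 1, 1, 2, 1, 0], [3, 2, 2, 2, 3, 2, 2]]
  281439542706173 [47, 119, 119, 119, 119, 203, 203] 1962872558924 :=
  dec4 1 14 0 _ _ 281440616447997 _ [47, 119, 119, 119, 119, 203, 203] _ (by decide +kernel) nd147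

theorem nd149 : Ok 4 Dn4 [[1, 0, 0, 0, 1, 0, 0], [1, 1, 0, 0, 0, 0, 0], [2, 1, 1, 0, 2, 1, 1],
  [3, 2, 2, 1, 2, 1, 1], [1, 1, 1, 1, 2, 1, 1], [1, 1, 1, 1, 1, 1, 0], [3, 2, 2, 2, 3, 2, 2]]
  281439542706173 [47, 119, 119, 119, 119, 203, 203] 2422695461054 :=
  cut4 0 5 1 1 1 _ [[2, 1, 1, 1, 2, 1, 0], [1, 1, 0, 0, 0, 0, 0], [2, 1, 1, 0, 2, 1, 1], [3, 2,
  2, 1, 2, 1, 1], [1, 1, 1, 1, 2, 1, 1], [1, 1, 1, 1, 1, 1, 0], [3, 2, 2, 2, 3, 2, 2]] [[1, 0, 0,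
  0, 1, 0, 0], [1, 1, 0, 0, 0, 0, 0], [2, 1, 1, 0, 2, 1, 1], [3, 2, 2, 1, 2, 1, 1], [1, 1, 1, 1,
  2, 1, 1], [2, 1, 1, 1, 2, 1, 0], [3, 2, 2, 2, 3, 2, 2]] _ _ 3802164167442 1962872558924 _ (by
  decide +kernel) ok67 nd148

theorem nd150 : Ok 4 Dn4 [[1, 0, 0, 0, 1, 0, 0], [1, 1, 0, 0, 0, 0, 0], [2, 1, 1, 0, 2, 1, 1],
  [3, 2, 2, 1, 2, 1, 1], [1, 1, 1, 1, 2, 1, 1], [1, 1, 1, 1, 1, 1, 0], [3, 2, 2, 2, 3, 2, 2]]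
  281439542705661 [43, 91, 91, 115, 115, 175, 175] 2422695461054 :=
  dec4 0 9 1 _ _ 281439542706173 _ [47, 119, 119, 119, 119, 203, 203] _ (by decide +kernel) nd149

theorem nd151 : Ok 4 Dn4 [[1, 0, 0, 0, 1, 0, 0], [1, 1, 0, 0, 0, 0, 0], [1, 1, 1, 0, 1, 1, 1],
  [3, 2, 2, 1, 2, 1, 1], [1, 1, 1, 1, 2, 1, 1], [1, 1, 1, 1, 1, 1, 0], [3, 2, 2, 2, 3, 2, 2]]
  281439542705661 [43, 91, 91, 115, 115, 175, 175] 2989590049910 :=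
  cut4 0 2 1 1 1 _ [[2, 1, 1, 0, 2, 1, 1], [1, 1, 0, 0, 0, 0, 0], [1, 1, 1, 0, 1, 1, 1], [3, 2,
  2, 1, 2, 1, 1], [1, 1, 1, 1, 2, 1, 1], [1, 1, 1, 1, 1, 1, 0], [3, 2, 2, 2, 3, 2, 2]] [[1, 0, 0,
  0, 1, 0, 0], [1, 1, 0, 0, 0, 0, 0], [2, 1, 1, 0, 2, 1, 1], [3, 2, 2, 1, 2, 1, 1], [1, 1, 1, 1,
  2, 1, 1], [1, 1, 1, 1, 1, 1, 0], [3, 2, 2, 2, 3, 2, 2]] _ _ 4690273816477 2422695461054 _ (by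
  decide +kernel) ok66 nd150

theorem nd152 : Ok 4 Dn4 [[1, 0, 0, 0, 1, 0, 0], [1, 1, 0, 0, 0, 0, 0], [1, 1, 1, 0, 1, 1, 1],
  [2, 1, 1, 1, 1, 0, 0], [1, 1, 1, 1, 2, 1, 1], [1, 1, 1, 1, 1, 1, 0], [3, 2, 2, 2, 3, 2, 2]]
  281439542705661 [43, 91, 91, 115, 115, 175, 175] 3212537852325 :=
  cut4 2 3 1 1 1 _ [[1, 0, 0, 0, 1, 0, 0], [1, 1, 0, 0, 0, 0, 0], [3, 2, 2, 1, 2, 1, 1], [2, 1,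
  1, 1, 1, 0, 0], [1, 1, 1, 1, 2, 1, 1], [1, 1, 1, 1, 1, 1, 0], [3, 2, 2, 2, 3, 2, 2]] [[1, 0, 0,
  0, 1, 0, 0], [1, 1, 0, 0, 0, 0, 0], [1, 1, 1, 0, 1, 1, 1], [3, 2, 2, 1, 2, 1, 1], [1, 1, 1, 1,
  2, 1, 1], [1, 1, 1, 1, 1, 1, 0], [3, 2, 2, 2, 3, 2, 2]] _ _ 3435485654740 2989590049910 _ (by
  decide +kernel) ok65 nd151

theorem nd153 : Ok 4 Dn4 [[1, 0, 0, 0, 1, 0, 0], [1, 1, 0, 0, 0, 0, 0], [1, 1, 1, 0, 1, 1, 1],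
  [2, 1, 1, 1, 1, 0, 0], [1, 1, 1, 1, 2, 1, 1], [1, 1, 1, 1, 1, 1, 0], [3, 2, 2, 2, 3, 2, 2]]
  281439542705629 [39, 63, 87, 87, 111, 147, 147] 3212537852325 :=
  dec4 0 5 1 _ _ 281439542705661 _ [43, 91, 91, 115, 115, 175, 175] _ (by decide +kernel) nd152

theorem nd154 : Ok 4 Dn4 [[1, 0, 0, 0, 1, 0, 0], [1, 1, 0, 0, 0, 0, 0], [1, 1, 1, 0, 1, 1, 1],
  [2, 1, 1, 1, 1, 0, 0], [1, 1, 1, 1, 2, 1, 1], [1, 1, 1, 1, 1, 1, 0], [3, 2, 2, 2, 3, 2, 2]]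
  281439542705621 [35, 59, 59, 59, 107, 119, 119] 3212537852325 :=
  dec4 0 3 1 _ _ 281439542705629 _ [39, 63, 87, 87, 111, 147, 147] _ (by decide +kernel) nd153

theorem nd155 : Ok 4 Dn4 [[1, 0, 0, 0, 1, 0, 0], [1, 1, 0, 0, 0, 0, 0], [1, 1, 1, 0, 1, 1, 1],
  [2, 1, 1, 1, 1, 0, 0], [1, 1, 1, 1, 2, 1, 1], [1, 1, 1, 1, 1, 1, 0], [1, 1, 1, 1, 2, 2, 2]]
  281439542705621 [35, 59, 59, 59, 107, 119, 119] 3576486780378 :=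
  cut4 3 6 1 1 1 _ [[1, 0, 0, 0, 1, 0, 0], [1, 1, 0, 0, 0, 0, 0], [1, 1, 1, 0, 1, 1, 1], [3, 2,
  2, 2, 3, 2, 2], [1, 1, 1, 1, 2, 1, 1], [1, 1, 1, 1, 1, 1, 0], [1, 1, 1, 1, 2, 2, 2]] [[1, 0, 0,
  0, 1, 0, 0], [1, 1, 0, 0, 0, 0, 0], [1, 1, 1, 0, 1, 1, 1], [2, 1, 1, 1, 1, 0, 0], [1, 1, 1, 1,
  2, 1, 1], [1, 1, 1, 1, 1, 1, 0], [3, 2, 2, 2, 3, 2, 2]] _ _ 4183068327133 3212537852325 _ (by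
  decide +kernel) nd146 nd154

theorem nd156 : Ok 4 Dn4 [[1, 0, 0, 0, 1, 0, 0], [1, 1, 0, 0, 0, 0, 0], [1, 1, 1, 0, 1, 1, 1],
  [2, 1, 1, 1, 1, 0, 0], [1, 1, 1, 1, 2, 1, 1], [1, 1, 1, 1, 1, 1, 0], [1, 1, 1, 1, 2, 2, 2]]
  211070798527957 [35, 59, 59, 59, 107, 119, 119] 3576486780378 :=
  dec4 2 14 0 _ _ 281439542705621 _ [35, 59, 59, 59, 107, 119, 119] _ (by decide +kernel) nd155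

theorem nd157 : Ok 4 Dn4 [[1, 0, 0, 0, 1, 0, 0], [1, 1, 0, 0, 0, 0, 0], [1, 1, 1, 0, 1, 1, 1],
  [1, 1, 1, 1, 0, 0, 0], [1, 1, 1, 1, 2, 1, 1], [1, 1, 1, 1, 1, 1, 0], [1, 1, 1, 1, 2, 2, 2]]
  211070798527957 [35, 59, 59, 59, 107, 119, 119] 5294859958504 :=
  cut4 0 3 1 1 1 _ [[2, 1, 1, 1, 1, 0, 0], [1, 1, 0, 0, 0, 0, 0], [1, 1, 1, 0, 1, 1, 1], [1, 1,
  1, 1, 0, 0, 0], [1, 1, 1, 1, 2, 1, 1], [1, 1, 1, 1, 1, 1, 0], [1, 1, 1, 1, 2, 2, 2]] [[1, 0, 0,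
  0, 1, 0, 0], [1, 1, 0, 0, 0, 0, 0], [1, 1, 1, 0, 1, 1, 1], [2, 1, 1, 1, 1, 0, 0], [1, 1, 1, 1,
  2, 1, 1], [1, 1, 1, 1, 1, 1, 0], [1, 1, 1, 1, 2, 2, 2]] _ _ 8731606314756 3576486780378 _ (by
  decide +kernel) nd131 nd156

theorem nd158 : Ok 4 Dn4 [[1, 0, 0, 0, 1, 0, 0], [1, 1, 0, 0, 0, 0, 0], [1, 1, 1, 0, 1, 1, 1],
  [1, 1, 1, 1, 0, 0, 0], [1, 1, 1, 1, 2, 1, 1], [1, 1, 1, 1, 1, 1, 0], [1, 1, 1, 1, 2, 2, 2]]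
  70333310172629 [34, 58, 58, 58, 100, 112, 118] 5294859958504 :=
  dec4 2 15 1 _ _ 211070798527957 _ [35, 59, 59, 59, 107, 119, 119] _ (by decide +kernel) nd157

theorem nd159 : Ok 4 Dn4 [[1, 0, 0, 0, 1, 0, 0], [1, 1, 0, 0, 0, 0, 0], [1, 1, 1, 0, 1, 1, 1],
  [1, 1, 1, 1, 0, 0, 0], [1, 1, 1, 1, 2, 1, 1], [1, 1, 1, 1, 1, 1, 0], [1, 1, 1, 1, 2, 2, 2]]
  35148938083797 [32, 44, 56, 56, 86, 98, 116] 5294859958504 :=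
  dec4 2 13 1 _ _ 70333310172629 _ [34, 58, 58, 58, 100, 112, 118] _ (by decide +kernel) nd158

theorem nd160 : Ok 4 Dn4 [[1, 0, 0, 0, 1, 0, 0], [1, 1, 0, 0, 0, 0, 0], [1, 1, 1, 0, 1, 1, 1],
  [1, 1, 1, 1, 0, 0, 0], [1, 1, 1, 1, 2, 1, 1], [1, 1, 1, 1, 1, 1, 0], [1, 1, 1, 1, 2, 2, 2]]
  26352845061589 [30, 42, 42, 54, 72, 84, 114] 5294859958504 :=
  dec4 2 11 1 _ _ 35148938083797 _ [32, 44, 56, 56, 86, 98, 116] _ (by decide +kernel) nd159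

theorem nd161 : Ok 4 Dn4 [[1, 0, 0, 0, 1, 0, 0], [1, 1, 0, 0, 0, 0, 0], [1, 1, 1, 0, 1, 1, 1],
  [1, 1, 1, 1, 0, 0, 0], [1, 1, 1, 1, 2, 1, 1], [1, 1, 1, 1, 1, 1, 0], [1, 1, 1, 1, 2, 2, 2]]
  25803089247701 [28, 40, 40, 40, 58, 70, 112] 5294859958504 :=
  dec4 2 7 1 _ _ 26352845061589 _ [30, 42, 42, 54, 72, 84, 114] _ (by decide +kernel) nd160

theorem nd162 : Ok 4 Dn4 [[1, 0, 0, 0, 1, 0, 0], [1, 1, 0, 0, 0, 0, 0], [1, 1, 1, 0, 1, 1, 1],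
  [1, 1, 1, 1, 0, 0, 0], [1, 1, 1, 1, 2, 1, 1], [0, 0, 0, 0, 1, 1, 0], [1, 1, 1, 1, 2, 2, 2]]
  25803089247701 [28, 40, 40, 40, 58, 70, 112] 3518959092372 :=
  cut4 3 5 1 1 1 _ [[1, 0, 0, 0, 1, 0, 0], [1, 1, 0, 0, 0, 0, 0], [1, 1, 1, 0, 1, 1, 1], [1, 1,
  1, 1, 1, 1, 0], [1, 1, 1, 1, 2, 1, 1], [0, 0, 0, 0, 1, 1, 0], [1, 1, 1, 1, 2, 2, 2]] [[1, 0, 0,
  0, 1, 0, 0], [1, 1, 0, 0, 0, 0, 0], [1, 1, 1, 0, 1, 1, 1], [1, 1, 1, 1, 0, 0, 0], [1, 1, 1, 1,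
  2, 1, 1], [1, 1, 1, 1, 1, 1, 0], [1, 1, 1, 1, 2, 2, 2]] _ _ 2631008659306 5294859958504 _ (by
  decide +kernel) nd119 nd161

theorem nd163 : Ok 4 Dn4 [[1, 0, 0, 0, 1, 0, 0], [1, 1, 0, 0, 0, 0, 0], [1, 1, 1, 0, 1, 1, 1],
  [1, 1, 1, 1, 0, 0, 0], [1, 1, 1, 1, 2, 1, 1], [0, 0, 0, 0, 1, 1, 0], [1, 1, 1, 1, 2, 2, 2]]
  25800941764053 [27, 39, 39, 39, 51, 69, 105] 3518959092372 :=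
  dec4 1 15 1 _ _ 25803089247701 _ [28, 40, 40, 40, 58, 70, 112] _ (by decide +kernel) nd162

theorem nd164 : Ok 4 Dn4 [[1, 0, 0, 0, 1, 0, 0], [1, 1, 0, 0, 0, 0, 0], [1, 1, 1, 0, 1, 1, 1],
  [1, 1, 1, 1, 0, 0, 0], [1, 1, 1, 1, 2, 1, 1], [0, 0, 0, 0, 1, 1, 0], [1, 1, 1, 1, 2, 2, 2]]
  25800404893141 [25, 25, 37, 37, 37, 67, 91] 3518959092372 :=
  dec4 1 13 1 _ _ 25800941764053 _ [27, 39, 39, 39, 51, 69, 105] _ (by decide +kernel) nd163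

theorem nd165 : Ok 4 Dn4 [[1, 0, 0, 0, 1, 0, 0], [1, 1, 0, 0, 0, 0, 0], [1, 1, 1, 0, 1, 1, 1],
  [1, 1, 1, 1, 0, 0, 0], [1, 1, 1, 1, 2, 1, 1], [0, 0, 0, 0, 1, 1, 0], [1, 1, 1, 1, 2, 2, 2]]
  25800270675413 [23, 23, 23, 35, 23, 65, 77] 3518959092372 :=
  dec4 1 11 1 _ _ 25800404893141 _ [25, 25, 37, 37, 37, 67, 91] _ (by decide +kernel) nd164

theorem nd166 : Ok 4 Dn4 [[1, 0, 0, 0, 1, 0, 0], [1, 1, 0, 0, 0, 0, 0], [1, 1, 1, 0, 1, 1, 1],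
  [1, 1, 1, 1, 0, 0, 0], [1, 1, 1, 1, 2, 1, 1], [0, 0, 0, 0, 1, 1, 0], [1, 1, 1, 1, 2, 2, 2]]
  25800262286805 [21, 21, 21, 21, 9, 63, 63] 3518959092372 :=
  dec4 1 7 1 _ _ 25800270675413 _ [23, 23, 23, 35, 23, 65, 77] _ (by decide +kernel) nd165

end Pool.Agent.Work.MP_122e00_nt.Sharp.Cx

end

section

set_option autoImplicit false

set_option maxRecDepth 100000

/-!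
# The certificate: data
-/

namespace Pool.Agent.Work.MP_122e00_nt.Sharp.Cx

theorem ok70 : Ok 4 Dn4 [[1, 0, 0, 0, 1, 0, 0], [1, 1, 0, 0, 2, 0, 0], [1, 1, 1, 0, 3, 1, 1],
  [1, 1, 1, 1, 2, 0, 0], [0, 0, 0, 0, 1, 0, 0], [0, 0, 0, 0, 1, 1, 0], [0, 0, 0, 0, 2, 1, 1]]
  140185576663272 [57, 57, 57, 105, 21, 147, 147] 19528936427 :=
  run4 tr70 _ _ _ _ dt70

theorem ok71 : Ok 4 Dn4 [[1, 0, 0, 0, 1, 0, 0], [1, 1, 0, 0, 2, 0, 0], [2, 2, 2, 1, 7, 3, 3],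
  [1, 1, 1, 1, 4, 1, 1], [1, 1, 1, 0, 3, 1, 1], [0, 0, 0, 0, 1, 1, 0], [0, 0, 0, 0, 2, 1, 1]]
  140185576669177 [117, 117, 117, 117, 33, 231, 231] 11839584108 :=
  run4 tr71 _ _ _ _ dt71

theorem ok72 : Ok 4 Dn4 [[1, 0, 0, 0, 1, 0, 0], [1, 1, 0, 0, 2, 0, 0], [2, 2, 2, 1, 5, 2, 2],
  [1, 1, 1, 1, 4, 1, 1], [1, 1, 1, 0, 3, 1, 1], [0, 0, 0, 0, 1, 1, 0], [2, 2, 2, 1, 7, 3, 3]]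
  140187724152825 [118, 118, 118, 118, 40, 232, 238] 38655760817 :=
  run4 tr72 _ _ _ _ dt72

theorem ok73 : Ok 4 Dn4 [[1, 0, 0, 0, 1, 0, 0], [3, 3, 2, 1, 7, 2, 2], [2, 2, 2, 1, 3, 1, 1],
  [1, 1, 1, 1, 4, 1, 1], [1, 1, 1, 0, 3, 1, 1], [0, 0, 0, 0, 1, 1, 0], [2, 2, 2, 1, 5, 2, 2]]
  140187724152825 [118, 118, 118, 118, 40, 232, 238] 185178327558 :=
  run4 tr73 _ _ _ _ dt73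

theorem ok74 : Ok 4 Dn4 [[1, 0, 0, 0, 1, 0, 0], [1, 1, 0, 0, 2, 0, 0], [2, 2, 2, 1, 3, 1, 1],
  [1, 1, 1, 1, 4, 1, 1], [1, 1, 1, 0, 3, 1, 1], [0, 0, 0, 0, 1, 1, 0], [3, 3, 2, 1, 7, 2, 2]]
  140187724152825 [118, 118, 118, 118, 40, 232, 238] 54175415796 :=
  run4 tr74 _ _ _ _ dt74

theorem ok75 : Ok 4 Dn4 [[1, 0, 0, 0, 1, 0, 0], [1, 1, 0, 0, 2, 0, 0], [2, 2, 2, 1, 3, 1, 1],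
  [2, 2, 2, 1, 5, 1, 1], [1, 1, 1, 0, 3, 1, 1], [0, 0, 0, 0, 1, 1, 0], [1, 1, 1, 1, 4, 1, 1]]
  140187724152825 [118, 118, 118, 118, 40, 232, 238] 70336721716 :=
  run4 tr75 _ _ _ _ dt75

theorem ok76 : Ok 4 Dn4 [[1, 0, 0, 0, 1, 0, 0], [1, 1, 0, 0, 2, 0, 0], [3, 3, 3, 2, 7, 2, 2],
  [1, 1, 1, 1, 3, 1, 0], [2, 2, 2, 1, 5, 1, 1], [0, 0, 0, 0, 1, 1, 0], [1, 1, 1, 1, 4, 1, 1]]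
  140187724152825 [118, 118, 118, 118, 40, 232, 238] 124025245566 :=
  run4 tr76 _ _ _ _ dt76

theorem ok77 : Ok 4 Dn4 [[1, 0, 0, 0, 1, 0, 0], [4, 4, 3, 2, 9, 2, 2], [2, 2, 2, 1, 4, 2, 1],
  [1, 1, 1, 1, 3, 1, 0], [2, 2, 2, 1, 5, 1, 1], [0, 0, 0, 0, 1, 1, 0], [3, 3, 3, 2, 7, 2, 2]]
  140187732541437 [120, 120, 120, 132, 54, 234, 252] 393549493441 :=
  run4 tr77 _ _ _ _ dt77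

theorem ok78 : Ok 4 Dn4 [[1, 0, 0, 0, 1, 0, 0], [4, 4, 3, 2, 9, 2, 2], [2, 2, 2, 1, 3, 1, 1],
  [1, 1, 1, 1, 3, 1, 0], [2, 2, 2, 1, 5, 1, 1], [2, 2, 2, 1, 4, 2, 1], [3, 3, 3, 2, 7, 2, 2]]
  140187732541437 [120, 120, 120, 132, 54, 234, 252] 957877622790 :=
  run4 tr78 _ _ _ _ dt78

theorem ok79 : Ok 4 Dn4 [[1, 0, 0, 0, 1, 0, 0], [3, 3, 2, 1, 6, 2, 1], [2, 2, 2, 1, 3, 1, 1],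
  [1, 1, 1, 1, 3, 1, 0], [2, 2, 2, 1, 5, 1, 1], [0, 0, 0, 0, 1, 1, 0], [4, 4, 3, 2, 9, 2, 2]]
  140187732541437 [120, 120, 120, 132, 54, 234, 252] 334377046391 :=
  run4 tr79 _ _ _ _ dt79

theorem ok80 : Ok 4 Dn4 [[1, 0, 0, 0, 1, 0, 0], [3, 3, 2, 1, 5, 1, 1], [2, 2, 2, 1, 3, 1, 1],
  [1, 1, 1, 1, 3, 1, 0], [2, 2, 2, 1, 5, 1, 1], [3, 3, 2, 1, 6, 2, 1], [4, 4, 3, 2, 9, 2, 2]]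
  140187732541437 [120, 120, 120, 132, 54, 234, 252] 591112116118 :=
  run4 tr80 _ _ _ _ dt80

theorem ok81 : Ok 4 Dn4 [[1, 0, 0, 0, 1, 0, 0], [1, 1, 0, 0, 2, 0, 0], [3, 3, 2, 1, 5, 1, 1],
  [1, 1, 1, 1, 3, 1, 0], [2, 2, 2, 1, 5, 1, 1], [0, 0, 0, 0, 1, 1, 0], [4, 4, 3, 2, 9, 2, 2]]
  140187732541433 [120, 120, 120, 132, 54, 234, 252] 17787557997 :=
  run4 tr81 _ _ _ _ dt81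

theorem ok82 : Ok 4 Dn4 [[1, 0, 0, 0, 1, 0, 0], [1, 1, 0, 0, 2, 0, 0], [2, 2, 2, 1, 3, 1, 1],
  [1, 1, 1, 1, 2, 0, 0], [2, 2, 2, 1, 5, 1, 1], [1, 1, 1, 1, 3, 1, 0], [1, 1, 1, 1, 4, 1, 1]]
  140187724152825 [118, 118, 118, 118, 40, 232, 238] 309259073415 :=
  run4 tr82 _ _ _ _ dt82

theorem ok83 : Ok 4 Dn4 [[1, 0, 0, 0, 1, 0, 0], [2, 2, 1, 0, 3, 1, 1], [1, 1, 1, 0, 1, 1, 1],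
  [2, 2, 2, 1, 3, 1, 1], [1, 1, 1, 0, 3, 1, 1], [0, 0, 0, 0, 1, 1, 0], [0, 0, 0, 0, 2, 1, 1]]
  140185576667641 [57, 57, 57, 105, 21, 147, 147] 98283561393 :=
  run4 tr83 _ _ _ _ dt83

theorem ok84 : Ok 4 Dn4 [[1, 0, 0, 0, 1, 0, 0], [1, 1, 0, 0, 2, 0, 0], [2, 2, 1, 0, 3, 1, 1],
  [2, 2, 2, 1, 3, 1, 1], [1, 1, 1, 0, 3, 1, 1], [0, 0, 0, 0, 1, 1, 0], [0, 0, 0, 0, 2, 1, 1]]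
  140185576667641 [57, 57, 57, 105, 21, 147, 147] 26840588695 :=
  run4 tr84 _ _ _ _ dt84

theorem nd167 : Ok 4 Dn4 [[1, 0, 0, 0, 1, 0, 0], [1, 1, 0, 0, 2, 0, 0], [2, 2, 2, 1, 3, 1, 1],
  [1, 1, 1, 1, 4, 1, 1], [1, 1, 1, 0, 3, 1, 1], [0, 0, 0, 0, 1, 1, 0], [2, 2, 2, 1, 5, 2, 2]]
  140187724152825 [118, 118, 118, 118, 40, 232, 238] 80375998149 :=
  cut4 1 6 1 1 1 _ [[1, 0, 0, 0, 1, 0, 0], [3, 3, 2, 1, 7, 2, 2], [2, 2, 2, 1, 3, 1, 1], [1, 1,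
  1, 1, 4, 1, 1], [1, 1, 1, 0, 3, 1, 1], [0, 0, 0, 0, 1, 1, 0], [2, 2, 2, 1, 5, 2, 2]] [[1, 0, 0,
  0, 1, 0, 0], [1, 1, 0, 0, 2, 0, 0], [2, 2, 2, 1, 3, 1, 1], [1, 1, 1, 1, 4, 1, 1], [1, 1, 1, 0,
  3, 1, 1], [0, 0, 0, 0, 1, 1, 0], [3, 3, 2, 1, 7, 2, 2]] _ _ 185178327558 54175415796 _ (by
  decide +kernel) ok73 ok74

theorem nd168 : Ok 4 Dn4 [[1, 0, 0, 0, 1, 0, 0], [1, 1, 0, 0, 2, 0, 0], [2, 2, 2, 1, 3, 1, 1],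
  [1, 1, 1, 1, 4, 1, 1], [1, 1, 1, 0, 3, 1, 1], [0, 0, 0, 0, 1, 1, 0], [2, 2, 2, 1, 7, 3, 3]]
  140187724152825 [118, 118, 118, 118, 40, 232, 238] 64730909150 :=
  cut4 2 6 1 1 2 _ [[1, 0, 0, 0, 1, 0, 0], [1, 1, 0, 0, 2, 0, 0], [2, 2, 2, 1, 5, 2, 2], [1, 1,
  1, 1, 4, 1, 1], [1, 1, 1, 0, 3, 1, 1], [0, 0, 0, 0, 1, 1, 0], [2, 2, 2, 1, 7, 3, 3]] [[1, 0, 0,
  0, 1, 0, 0], [1, 1, 0, 0, 2, 0, 0], [2, 2, 2, 1, 3, 1, 1], [1, 1, 1, 1, 4, 1, 1], [1, 1, 1, 0,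
  3, 1, 1], [0, 0, 0, 0, 1, 1, 0], [2, 2, 2, 1, 5, 2, 2]] _ _ 38655760817 80375998149 _ (by
  decide +kernel) ok72 nd167

theorem nd169 : Ok 4 Dn4 [[1, 0, 0, 0, 1, 0, 0], [1, 1, 0, 0, 2, 0, 0], [2, 2, 2, 1, 3, 1, 1],
  [1, 1, 1, 1, 4, 1, 1], [1, 1, 1, 0, 3, 1, 1], [0, 0, 0, 0, 1, 1, 0], [2, 2, 2, 1, 7, 3, 3]]
  140185576669177 [117, 117, 117, 117, 33, 231, 231] 64730909150 :=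
  dec4 1 15 1 _ _ 140187724152825 _ [118, 118, 118, 118, 40, 232, 238] _ (by decide +kernel) nd168

theorem nd170 : Ok 4 Dn4 [[1, 0, 0, 0, 1, 0, 0], [1, 1, 0, 0, 2, 0, 0], [2, 2, 2, 1, 3, 1, 1],
  [1, 1, 1, 1, 4, 1, 1], [1, 1, 1, 0, 3, 1, 1], [0, 0, 0, 0, 1, 1, 0], [0, 0, 0, 0, 2, 1, 1]]
  140185576669177 [117, 117, 117, 117, 33, 231, 231] 32996114125 :=
  cut4 2 6 1 2 1 _ [[1, 0, 0, 0, 1, 0, 0], [1, 1, 0, 0, 2, 0, 0], [2, 2, 2, 1, 7, 3, 3], [1, 1,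
  1, 1, 4, 1, 1], [1, 1, 1, 0, 3, 1, 1], [0, 0, 0, 0, 1, 1, 0], [0, 0, 0, 0, 2, 1, 1]] [[1, 0, 0,
  0, 1, 0, 0], [1, 1, 0, 0, 2, 0, 0], [2, 2, 2, 1, 3, 1, 1], [1, 1, 1, 1, 4, 1, 1], [1, 1, 1, 0,
  3, 1, 1], [0, 0, 0, 0, 1, 1, 0], [2, 2, 2, 1, 7, 3, 3]] _ _ 11839584108 64730909150 _ (by
  decide +kernel) ok71 nd169

theorem nd171 : Ok 4 Dn4 [[1, 0, 0, 0, 1, 0, 0], [4, 4, 3, 2, 9, 2, 2], [2, 2, 2, 1, 3, 1, 1],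
  [1, 1, 1, 1, 3, 1, 0], [2, 2, 2, 1, 5, 1, 1], [0, 0, 0, 0, 1, 1, 0], [3, 3, 3, 2, 7, 2, 2]]
  140187732541437 [120, 120, 120, 132, 54, 234, 252] 474167797634 :=
  cut4 2 5 1 1 1 _ [[1, 0, 0, 0, 1, 0, 0], [4, 4, 3, 2, 9, 2, 2], [2, 2, 2, 1, 4, 2, 1], [1, 1,
  1, 1, 3, 1, 0], [2, 2, 2, 1, 5, 1, 1], [0, 0, 0, 0, 1, 1, 0], [3, 3, 3, 2, 7, 2, 2]] [[1, 0, 0,
  0, 1, 0, 0], [4, 4, 3, 2, 9, 2, 2], [2, 2, 2, 1, 3, 1, 1], [1, 1, 1, 1, 3, 1, 0], [2, 2, 2, 1,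
  5, 1, 1], [2, 2, 2, 1, 4, 2, 1], [3, 3, 3, 2, 7, 2, 2]] _ _ 393549493441 957877622790 _ (by
  decide +kernel) ok77 ok78

theorem nd172 : Ok 4 Dn4 [[1, 0, 0, 0, 1, 0, 0], [4, 4, 3, 2, 9, 2, 2], [2, 2, 2, 1, 3, 1, 1],
  [1, 1, 1, 1, 3, 1, 0], [2, 2, 2, 1, 5, 1, 1], [0, 0, 0, 0, 1, 1, 0], [3, 3, 3, 2, 7, 2, 2]]
  140187732541433 [120, 120, 120, 132, 54, 234, 252] 474167797634 :=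
  dec4 0 2 0 _ _ 140187732541437 _ [120, 120, 120, 132, 54, 234, 252] _ (by decide +kernel) nd171

theorem nd173 : Ok 4 Dn4 [[1, 0, 0, 0, 1, 0, 0], [3, 3, 2, 1, 5, 1, 1], [2, 2, 2, 1, 3, 1, 1],
  [1, 1, 1, 1, 3, 1, 0], [2, 2, 2, 1, 5, 1, 1], [0, 0, 0, 0, 1, 1, 0], [4, 4, 3, 2, 9, 2, 2]]
  140187732541437 [120, 120, 120, 132, 54, 234, 252] 362903165250 :=
  cut4 1 5 1 1 1 _ [[1, 0, 0, 0, 1, 0, 0], [3, 3, 2, 1, 6, 2, 1], [2, 2, 2, 1, 3, 1, 1], [1, 1,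
  1, 1, 3, 1, 0], [2, 2, 2, 1, 5, 1, 1], [0, 0, 0, 0, 1, 1, 0], [4, 4, 3, 2, 9, 2, 2]] [[1, 0, 0,
  0, 1, 0, 0], [3, 3, 2, 1, 5, 1, 1], [2, 2, 2, 1, 3, 1, 1], [1, 1, 1, 1, 3, 1, 0], [2, 2, 2, 1,
  5, 1, 1], [3, 3, 2, 1, 6, 2, 1], [4, 4, 3, 2, 9, 2, 2]] _ _ 334377046391 591112116118 _ (by
  decide +kernel) ok79 ok80

theorem nd174 : Ok 4 Dn4 [[1, 0, 0, 0, 1, 0, 0], [3, 3, 2, 1, 5, 1, 1], [2, 2, 2, 1, 3, 1, 1],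
  [1, 1, 1, 1, 3, 1, 0], [2, 2, 2, 1, 5, 1, 1], [0, 0, 0, 0, 1, 1, 0], [4, 4, 3, 2, 9, 2, 2]]
  140187732541433 [120, 120, 120, 132, 54, 234, 252] 362903165250 :=
  dec4 0 2 0 _ _ 140187732541437 _ [120, 120, 120, 132, 54, 234, 252] _ (by decide +kernel) nd173

theorem nd175 : Ok 4 Dn4 [[1, 0, 0, 0, 1, 0, 0], [1, 1, 0, 0, 2, 0, 0], [2, 2, 2, 1, 3, 1, 1],
  [1, 1, 1, 1, 3, 1, 0], [2, 2, 2, 1, 5, 1, 1], [0, 0, 0, 0, 1, 1, 0], [4, 4, 3, 2, 9, 2, 2]]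
  140187732541433 [120, 120, 120, 132, 54, 234, 252] 104066459811 :=
  cut4 1 2 1 1 1 _ [[1, 0, 0, 0, 1, 0, 0], [3, 3, 2, 1, 5, 1, 1], [2, 2, 2, 1, 3, 1, 1], [1, 1,
  1, 1, 3, 1, 0], [2, 2, 2, 1, 5, 1, 1], [0, 0, 0, 0, 1, 1, 0], [4, 4, 3, 2, 9, 2, 2]] [[1, 0, 0,
  0, 1, 0, 0], [1, 1, 0, 0, 2, 0, 0], [3, 3, 2, 1, 5, 1, 1], [1, 1, 1, 1, 3, 1, 0], [2, 2, 2, 1,
  5, 1, 1], [0, 0, 0, 0, 1, 1, 0], [4, 4, 3, 2, 9, 2, 2]] _ _ 362903165250 17787557997 _ (by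
  decide +kernel) nd174 ok81

theorem nd176 : Ok 4 Dn4 [[1, 0, 0, 0, 1, 0, 0], [1, 1, 0, 0, 2, 0, 0], [2, 2, 2, 1, 3, 1, 1],
  [1, 1, 1, 1, 3, 1, 0], [2, 2, 2, 1, 5, 1, 1], [0, 0, 0, 0, 1, 1, 0], [3, 3, 3, 2, 7, 2, 2]]
  140187732541433 [120, 120, 120, 132, 54, 234, 252] 161005127169 :=
  cut4 1 6 1 1 1 _ [[1, 0, 0, 0, 1, 0, 0], [4, 4, 3, 2, 9, 2, 2], [2, 2, 2, 1, 3, 1, 1], [1, 1,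
  1, 1, 3, 1, 0], [2, 2, 2, 1, 5, 1, 1], [0, 0, 0, 0, 1, 1, 0], [3, 3, 3, 2, 7, 2, 2]] [[1, 0, 0,
  0, 1, 0, 0], [1, 1, 0, 0, 2, 0, 0], [2, 2, 2, 1, 3, 1, 1], [1, 1, 1, 1, 3, 1, 0], [2, 2, 2, 1,
  5, 1, 1], [0, 0, 0, 0, 1, 1, 0], [4, 4, 3, 2, 9, 2, 2]] _ _ 474167797634 104066459811 _ (by
  decide +kernel) nd172 nd175

theorem nd177 : Ok 4 Dn4 [[1, 0, 0, 0, 1, 0, 0], [1, 1, 0, 0, 2, 0, 0], [2, 2, 2, 1, 3, 1, 1],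
  [1, 1, 1, 1, 3, 1, 0], [2, 2, 2, 1, 5, 1, 1], [0, 0, 0, 0, 1, 1, 0], [3, 3, 3, 2, 7, 2, 2]]
  140187724152825 [118, 118, 118, 118, 40, 232, 238] 161005127169 :=
  dec4 1 7 1 _ _ 140187732541433 _ [120, 120, 120, 132, 54, 234, 252] _ (by decide +kernel) nd176

theorem nd178 : Ok 4 Dn4 [[1, 0, 0, 0, 1, 0, 0], [1, 1, 0, 0, 2, 0, 0], [2, 2, 2, 1, 3, 1, 1],
  [1, 1, 1, 1, 3, 1, 0], [2, 2, 2, 1, 5, 1, 1], [0, 0, 0, 0, 1, 1, 0], [1, 1, 1, 1, 4, 1, 1]]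
  140187724152825 [118, 118, 118, 118, 40, 232, 238] 140834282659 :=
  cut4 2 6 1 1 1 _ [[1, 0, 0, 0, 1, 0, 0], [1, 1, 0, 0, 2, 0, 0], [3, 3, 3, 2, 7, 2, 2], [1, 1,
  1, 1, 3, 1, 0], [2, 2, 2, 1, 5, 1, 1], [0, 0, 0, 0, 1, 1, 0], [1, 1, 1, 1, 4, 1, 1]] [[1, 0, 0,
  0, 1, 0, 0], [1, 1, 0, 0, 2, 0, 0], [2, 2, 2, 1, 3, 1, 1], [1, 1, 1, 1, 3, 1, 0], [2, 2, 2, 1,
  5, 1, 1], [0, 0, 0, 0, 1, 1, 0], [3, 3, 3, 2, 7, 2, 2]] _ _ 124025245566 161005127169 _ (by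
  decide +kernel) ok76 nd177

theorem nd179 : Ok 4 Dn4 [[1, 0, 0, 0, 1, 0, 0], [1, 1, 0, 0, 2, 0, 0], [2, 2, 2, 1, 3, 1, 1],
  [1, 1, 1, 1, 2, 0, 0], [2, 2, 2, 1, 5, 1, 1], [0, 0, 0, 0, 1, 1, 0], [1, 1, 1, 1, 4, 1, 1]]
  140187724152825 [118, 118, 118, 118, 40, 232, 238] 182940480348 :=
  cut4 3 5 1 1 1 _ [[1, 0, 0, 0, 1, 0, 0], [1, 1, 0, 0, 2, 0, 0], [2, 2, 2, 1, 3, 1, 1], [1, 1,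
  1, 1, 3, 1, 0], [2, 2, 2, 1, 5, 1, 1], [0, 0, 0, 0, 1, 1, 0], [1, 1, 1, 1, 4, 1, 1]] [[1, 0, 0,
  0, 1, 0, 0], [1, 1, 0, 0, 2, 0, 0], [2, 2, 2, 1, 3, 1, 1], [1, 1, 1, 1, 2, 0, 0], [2, 2, 2, 1,
  5, 1, 1], [1, 1, 1, 1, 3, 1, 0], [1, 1, 1, 1, 4, 1, 1]] _ _ 140834282659 309259073415 _ (by
  decide +kernel) nd178 ok82

theorem nd180 : Ok 4 Dn4 [[1, 0, 0, 0, 1, 0, 0], [1, 1, 0, 0, 2, 0, 0], [2, 2, 2, 1, 3, 1, 1],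
  [1, 1, 1, 1, 2, 0, 0], [1, 1, 1, 0, 3, 1, 1], [0, 0, 0, 0, 1, 1, 0], [1, 1, 1, 1, 4, 1, 1]]
  140187724152825 [118, 118, 118, 118, 40, 232, 238] 134681726649 :=
  cut4 3 4 1 1 1 _ [[1, 0, 0, 0, 1, 0, 0], [1, 1, 0, 0, 2, 0, 0], [2, 2, 2, 1, 3, 1, 1], [2, 2,
  2, 1, 5, 1, 1], [1, 1, 1, 0, 3, 1, 1], [0, 0, 0, 0, 1, 1, 0], [1, 1, 1, 1, 4, 1, 1]] [[1, 0, 0,
  0, 1, 0, 0], [1, 1, 0, 0, 2, 0, 0], [2, 2, 2, 1, 3, 1, 1], [1, 1, 1, 1, 2, 0, 0], [2, 2, 2, 1,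
  5, 1, 1], [0, 0, 0, 0, 1, 1, 0], [1, 1, 1, 1, 4, 1, 1]] _ _ 70336721716 182940480348 _ (by
  decide +kernel) ok75 nd179

theorem nd181 : Ok 4 Dn4 [[1, 0, 0, 0, 1, 0, 0], [1, 1, 0, 0, 2, 0, 0], [2, 2, 2, 1, 3, 1, 1],
  [1, 1, 1, 1, 2, 0, 0], [1, 1, 1, 0, 3, 1, 1], [0, 0, 0, 0, 1, 1, 0], [1, 1, 1, 1, 4, 1, 1]]
  140185576669177 [117, 117, 117, 117, 33, 231, 231] 134681726649 :=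
  dec4 1 15 1 _ _ 140187724152825 _ [118, 118, 118, 118, 40, 232, 238] _ (by decide +kernel) nd180

theorem nd182 : Ok 4 Dn4 [[1, 0, 0, 0, 1, 0, 0], [1, 1, 0, 0, 2, 0, 0], [2, 2, 2, 1, 3, 1, 1],
  [1, 1, 1, 1, 2, 0, 0], [1, 1, 1, 0, 3, 1, 1], [0, 0, 0, 0, 1, 1, 0], [0, 0, 0, 0, 2, 1, 1]]
  140185576669177 [117, 117, 117, 117, 33, 231, 231] 73670359135 :=
  cut4 3 6 1 1 1 _ [[1, 0, 0, 0, 1, 0, 0], [1, 1, 0, 0, 2, 0, 0], [2, 2, 2, 1, 3, 1, 1], [1, 1,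
  1, 1, 4, 1, 1], [1, 1, 1, 0, 3, 1, 1], [0, 0, 0, 0, 1, 1, 0], [0, 0, 0, 0, 2, 1, 1]] [[1, 0, 0,
  0, 1, 0, 0], [1, 1, 0, 0, 2, 0, 0], [2, 2, 2, 1, 3, 1, 1], [1, 1, 1, 1, 2, 0, 0], [1, 1, 1, 0,
  3, 1, 1], [0, 0, 0, 0, 1, 1, 0], [1, 1, 1, 1, 4, 1, 1]] _ _ 32996114125 134681726649 _ (by
  decide +kernel) nd170 nd181

theorem nd183 : Ok 4 Dn4 [[1, 0, 0, 0, 1, 0, 0], [1, 1, 0, 0, 2, 0, 0], [2, 2, 2, 1, 3, 1, 1],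
  [1, 1, 1, 1, 2, 0, 0], [1, 1, 1, 0, 3, 1, 1], [0, 0, 0, 0, 1, 1, 0], [0, 0, 0, 0, 2, 1, 1]]
  140185576665081 [89, 89, 113, 113, 29, 203, 203] 73670359135 :=
  dec4 0 12 1 _ _ 140185576669177 _ [117, 117, 117, 117, 33, 231, 231] _ (by decide +kernel) nd182

theorem nd184 : Ok 4 Dn4 [[1, 0, 0, 0, 1, 0, 0], [1, 1, 0, 0, 2, 0, 0], [2, 2, 2, 1, 3, 1, 1],
  [1, 1, 1, 1, 2, 0, 0], [1, 1, 1, 0, 3, 1, 1], [0, 0, 0, 0, 1, 1, 0], [0, 0, 0, 0, 2, 1, 1]]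
  140185576664057 [61, 85, 85, 109, 25, 175, 175] 73670359135 :=
  dec4 0 10 1 _ _ 140185576665081 _ [89, 89, 113, 113, 29, 203, 203] _ (by decide +kernel) nd183

theorem nd185 : Ok 4 Dn4 [[1, 0, 0, 0, 1, 0, 0], [1, 1, 0, 0, 2, 0, 0], [2, 2, 2, 1, 3, 1, 1],
  [1, 1, 1, 1, 2, 0, 0], [1, 1, 1, 0, 3, 1, 1], [0, 0, 0, 0, 1, 1, 0], [0, 0, 0, 0, 2, 1, 1]]
  140185576663545 [57, 57, 57, 105, 21, 147, 147] 73670359135 :=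
  dec4 0 9 1 _ _ 140185576664057 _ [61, 85, 85, 109, 25, 175, 175] _ (by decide +kernel) nd184

theorem nd186 : Ok 4 Dn4 [[1, 0, 0, 0, 1, 0, 0], [1, 1, 0, 0, 2, 0, 0], [1, 1, 1, 0, 1, 1, 1],
  [2, 2, 2, 1, 3, 1, 1], [1, 1, 1, 0, 3, 1, 1], [0, 0, 0, 0, 1, 1, 0], [0, 0, 0, 0, 2, 1, 1]]
  140185576667641 [57, 57, 57, 105, 21, 147, 147] 55417777775 :=
  cut4 1 2 1 1 1 _ [[1, 0, 0, 0, 1, 0, 0], [2, 2, 1, 0, 3, 1, 1], [1, 1, 1, 0, 1, 1, 1], [2, 2,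
  2, 1, 3, 1, 1], [1, 1, 1, 0, 3, 1, 1], [0, 0, 0, 0, 1, 1, 0], [0, 0, 0, 0, 2, 1, 1]] [[1, 0, 0,
  0, 1, 0, 0], [1, 1, 0, 0, 2, 0, 0], [2, 2, 1, 0, 3, 1, 1], [2, 2, 2, 1, 3, 1, 1], [1, 1, 1, 0,
  3, 1, 1], [0, 0, 0, 0, 1, 1, 0], [0, 0, 0, 0, 2, 1, 1]] _ _ 98283561393 26840588695 _ (by
  decide +kernel) ok83 ok84

theorem nd187 : Ok 4 Dn4 [[1, 0, 0, 0, 1, 0, 0], [1, 1, 0, 0, 2, 0, 0], [1, 1, 1, 0, 1, 1, 1],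
  [2, 2, 2, 1, 3, 1, 1], [1, 1, 1, 0, 3, 1, 1], [0, 0, 0, 0, 1, 1, 0], [0, 0, 0, 0, 2, 1, 1]]
  140185576663545 [57, 57, 57, 105, 21, 147, 147] 55417777775 :=
  dec4 0 12 0 _ _ 140185576667641 _ [57, 57, 57, 105, 21, 147, 147] _ (by decide +kernel) nd186

theorem nd188 : Ok 4 Dn4 [[1, 0, 0, 0, 1, 0, 0], [1, 1, 0, 0, 2, 0, 0], [1, 1, 1, 0, 1, 1, 1],
  [1, 1, 1, 1, 2, 0, 0], [1, 1, 1, 0, 3, 1, 1], [0, 0, 0, 0, 1, 1, 0], [0, 0, 0, 0, 2, 1, 1]]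
  140185576663545 [57, 57, 57, 105, 21, 147, 147] 64544068455 :=
  cut4 2 3 1 1 1 _ [[1, 0, 0, 0, 1, 0, 0], [1, 1, 0, 0, 2, 0, 0], [2, 2, 2, 1, 3, 1, 1], [1, 1,
  1, 1, 2, 0, 0], [1, 1, 1, 0, 3, 1, 1], [0, 0, 0, 0, 1, 1, 0], [0, 0, 0, 0, 2, 1, 1]] [[1, 0, 0,
  0, 1, 0, 0], [1, 1, 0, 0, 2, 0, 0], [1, 1, 1, 0, 1, 1, 1], [2, 2, 2, 1, 3, 1, 1], [1, 1, 1, 0,
  3, 1, 1], [0, 0, 0, 0, 1, 1, 0], [0, 0, 0, 0, 2, 1, 1]] _ _ 73670359135 55417777775 _ (by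
  decide +kernel) nd185 nd187

theorem nd189 : Ok 4 Dn4 [[1, 0, 0, 0, 1, 0, 0], [1, 1, 0, 0, 2, 0, 0], [1, 1, 1, 0, 1, 1, 1],
  [1, 1, 1, 1, 2, 0, 0], [1, 1, 1, 0, 3, 1, 1], [0, 0, 0, 0, 1, 1, 0], [0, 0, 0, 0, 2, 1, 1]]
  140185576663289 [57, 57, 57, 105, 21, 147, 147] 64544068455 :=
  dec4 0 8 0 _ _ 140185576663545 _ [57, 57, 57, 105, 21, 147, 147] _ (by decide +kernel) nd188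

theorem nd190 : Ok 4 Dn4 [[1, 0, 0, 0, 1, 0, 0], [1, 1, 0, 0, 2, 0, 0], [1, 1, 1, 0, 1, 1, 1],
  [1, 1, 1, 1, 2, 0, 0], [1, 1, 1, 0, 3, 1, 1], [0, 0, 0, 0, 1, 1, 0], [0, 0, 0, 0, 2, 1, 1]]
  140185576663273 [57, 57, 57, 105, 21, 147, 147] 64544068455 :=
  dec4 0 4 0 _ _ 140185576663289 _ [57, 57, 57, 105, 21, 147, 147] _ (by decide +kernel) nd189

theorem nd191 : Ok 4 Dn4 [[1, 0, 0, 0, 1, 0, 0], [1, 1, 0, 0, 2, 0, 0], [1, 1, 1, 0, 1, 1, 1],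
  [1, 1, 1, 1, 2, 0, 0], [1, 1, 1, 0, 3, 1, 1], [0, 0, 0, 0, 1, 1, 0], [0, 0, 0, 0, 2, 1, 1]]
  140185576663272 [57, 57, 57, 105, 21, 147, 147] 64544068455 :=
  dec4 0 0 0 _ _ 140185576663273 _ [57, 57, 57, 105, 21, 147, 147] _ (by decide +kernel) nd190

theorem nd192 : Ok 4 Dn4 [[1, 0, 0, 0, 1, 0, 0], [1, 1, 0, 0, 2, 0, 0], [1, 1, 1, 0, 1, 1, 1],
  [1, 1, 1, 1, 2, 0, 0], [0, 0, 0, 0, 1, 0, 0], [0, 0, 0, 0, 1, 1, 0], [0, 0, 0, 0, 2, 1, 1]]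
  140185576663272 [57, 57, 57, 105, 21, 147, 147] 30782719434 :=
  cut4 2 4 1 2 1 _ [[1, 0, 0, 0, 1, 0, 0], [1, 1, 0, 0, 2, 0, 0], [1, 1, 1, 0, 3, 1, 1], [1, 1,
  1, 1, 2, 0, 0], [0, 0, 0, 0, 1, 0, 0], [0, 0, 0, 0, 1, 1, 0], [0, 0, 0, 0, 2, 1, 1]] [[1, 0, 0,
  0, 1, 0, 0], [1, 1, 0, 0, 2, 0, 0], [1, 1, 1, 0, 1, 1, 1], [1, 1, 1, 1, 2, 0, 0], [1, 1, 1, 0,
  3, 1, 1], [0, 0, 0, 0, 1, 1, 0], [0, 0, 0, 0, 2, 1, 1]] _ _ 19528936427 64544068455 _ (by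
  decide +kernel) ok70 nd191

theorem nd193 : Ok 4 Dn4 [[1, 0, 0, 0, 1, 0, 0], [1, 1, 0, 0, 2, 0, 0], [1, 1, 1, 0, 1, 1, 1],
  [1, 1, 1, 1, 2, 0, 0], [0, 0, 0, 0, 1, 0, 0], [0, 0, 0, 0, 1, 1, 0], [0, 0, 0, 0, 2, 1, 1]]
  131389483641064 [57, 57, 57, 105, 21, 147, 147] 30782719434 :=
  dec4 2 11 0 _ _ 140185576663272 _ [57, 57, 57, 105, 21, 147, 147] _ (by decide +kernel) nd192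

theorem nd194 : Ok 4 Dn4 [[1, 0, 0, 0, 1, 0, 0], [1, 1, 0, 0, 2, 0, 0], [1, 1, 1, 0, 1, 1, 1],
  [1, 1, 1, 1, 2, 0, 0], [0, 0, 0, 0, 1, 0, 0], [0, 0, 0, 0, 1, 1, 0], [0, 0, 0, 0, 2, 1, 1]]
  131355123902696 [57, 57, 57, 105, 21, 147, 147] 30782719434 :=
  dec4 2 3 0 _ _ 131389483641064 _ [57, 57, 57, 105, 21, 147, 147] _ (by decide +kernel) nd193

theorem nd195 : Ok 4 Dn4 [[1, 0, 0, 0, 1, 0, 0], [1, 1, 0, 0, 2, 0, 0], [1, 1, 1, 0, 1, 1, 1],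
  [1, 1, 1, 1, 2, 0, 0], [0, 0, 0, 0, 1, 0, 0], [0, 0, 0, 0, 1, 1, 0], [0, 0, 0, 0, 2, 1, 1]]
  131354989684968 [57, 57, 57, 105, 21, 147, 147] 30782719434 :=
  dec4 1 11 0 _ _ 131355123902696 _ [57, 57, 57, 105, 21, 147, 147] _ (by decide +kernel) nd194

theorem nd196 : Ok 4 Dn4 [[1, 0, 0, 0, 1, 0, 0], [1, 1, 0, 0, 2, 0, 0], [1, 1, 1, 0, 1, 1, 1],
  [1, 1, 1, 1, 2, 0, 0], [0, 0, 0, 0, 1, 0, 0], [0, 0, 0, 0, 1, 1, 0], [0, 0, 0, 0, 2, 1, 1]]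
  131354989160680 [57, 57, 57, 105, 21, 147, 147] 30782719434 :=
  dec4 1 3 0 _ _ 131354989684968 _ [57, 57, 57, 105, 21, 147, 147] _ (by decide +kernel) nd195

end Pool.Agent.Work.MP_122e00_nt.Sharp.Cx

end

section

set_option autoImplicit false

set_option maxRecDepth 100000

/-!
# The certificate: data
-/

namespace Pool.Agent.Work.MP_122e00_nt.Sharp.Cx

theorem ok85 : Ok 4 Dn4 [[1, 0, 0, 0, 1, 0, 0], [1, 1, 0, 0, 2, 1, 1], [2, 2, 2, 1, 7, 3, 3],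
  [1, 1, 1, 1, 4, 1, 1], [1, 1, 0, 0, 2, 0, 0], [0, 0, 0, 0, 1, 1, 0], [0, 0, 0, 0, 2, 1, 1]]
  140185576665081 [89, 89, 113, 113, 29, 203, 203] 15943601067 :=
  run4 tr85 _ _ _ _ dt85

theorem ok86 : Ok 4 Dn4 [[1, 0, 0, 0, 1, 0, 0], [1, 1, 0, 0, 2, 1, 1], [2, 2, 2, 1, 5, 2, 2],
  [1, 1, 1, 1, 4, 1, 1], [1, 1, 0, 0, 2, 0, 0], [0, 0, 0, 0, 1, 1, 0], [2, 2, 2, 1, 7, 3, 3]]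
  140187724148729 [90, 90, 114, 114, 36, 204, 210] 52831898573 :=
  run4 tr86 _ _ _ _ dt86

theorem ok87 : Ok 4 Dn4 [[3, 2, 2, 1, 6, 2, 2], [1, 1, 0, 0, 2, 1, 1], [2, 2, 2, 1, 4, 2, 1],
  [1, 1, 1, 1, 4, 1, 1], [3, 3, 2, 1, 8, 3, 2], [0, 0, 0, 0, 1, 1, 0], [2, 2, 2, 1, 5, 2, 2]]
  140737479962621 [90, 90, 114, 114, 36, 204, 210] 415376598272 :=
  run4 tr87 _ _ _ _ dt87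

theorem ok88 : Ok 4 Dn4 [[1, 0, 0, 0, 1, 0, 0], [1, 1, 0, 0, 2, 1, 1], [2, 2, 2, 1, 4, 2, 1],
  [1, 1, 1, 1, 4, 1, 1], [3, 3, 2, 1, 8, 3, 2], [0, 0, 0, 0, 1, 1, 0], [3, 2, 2, 1, 6, 2, 2]]
  140737479962621 [90, 90, 114, 114, 36, 204, 210] 151071192028 :=
  run4 tr88 _ _ _ _ dt88

theorem ok89 : Ok 4 Dn4 [[1, 0, 0, 0, 1, 0, 0], [1, 1, 0, 0, 2, 1, 1], [2, 2, 2, 1, 4, 2, 1],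
  [1, 1, 1, 1, 4, 1, 1], [3, 3, 2, 1, 7, 2, 2], [3, 3, 2, 1, 8, 3, 2], [2, 2, 2, 1, 5, 2, 2]]
  140737479962621 [90, 90, 114, 114, 36, 204, 210] 346724534127 :=
  run4 tr89 _ _ _ _ dt89

theorem ok90 : Ok 4 Dn4 [[1, 0, 0, 0, 1, 0, 0], [1, 1, 0, 0, 2, 1, 1], [2, 2, 2, 1, 3, 1, 1],
  [1, 1, 1, 1, 4, 1, 1], [3, 3, 2, 1, 7, 2, 2], [2, 2, 2, 1, 4, 2, 1], [2, 2, 2, 1, 5, 2, 2]]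
  140187724148733 [90, 90, 114, 114, 36, 204, 210] 523189780789 :=
  run4 tr90 _ _ _ _ dt90

theorem ok91 : Ok 4 Dn4 [[1, 0, 0, 0, 1, 0, 0], [1, 1, 0, 0, 2, 1, 1], [3, 3, 2, 1, 5, 1, 1],
  [1, 1, 1, 1, 4, 1, 1], [1, 1, 0, 0, 2, 0, 0], [0, 0, 0, 0, 1, 1, 0], [3, 3, 2, 1, 7, 2, 2]]
  140187724148729 [90, 90, 114, 114, 36, 204, 210] 22337907048 :=
  run4 tr91 _ _ _ _ dt91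

theorem ok92 : Ok 4 Dn4 [[1, 0, 0, 0, 1, 0, 0], [1, 1, 0, 0, 2, 1, 1], [2, 2, 2, 1, 4, 2, 1],
  [1, 1, 1, 1, 4, 1, 1], [3, 3, 2, 1, 6, 2, 1], [3, 3, 2, 1, 8, 3, 2], [3, 3, 2, 1, 7, 2, 2]]
  140737479962621 [90, 90, 114, 114, 36, 204, 210] 302205742877 :=
  run4 tr92 _ _ _ _ dt92

theorem ok93 : Ok 4 Dn4 [[1, 0, 0, 0, 1, 0, 0], [1, 1, 0, 0, 2, 1, 1], [2, 2, 2, 1, 4, 2, 1],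
  [4, 4, 3, 2, 11, 4, 2], [3, 3, 2, 1, 7, 3, 1], [0, 0, 0, 0, 1, 1, 0], [3, 3, 2, 1, 8, 3, 2]]
  140737479962621 [90, 90, 114, 114, 36, 204, 210] 117150475423 :=
  run4 tr93 _ _ _ _ dt93

theorem ok94 : Ok 4 Dn4 [[1, 0, 0, 0, 1, 0, 0], [1, 1, 0, 0, 2, 1, 1], [2, 2, 2, 1, 4, 2, 1],
  [1, 1, 1, 1, 4, 1, 1], [4, 4, 3, 2, 11, 4, 2], [0, 0, 0, 0, 1, 1, 0], [3, 3, 2, 1, 8, 3, 2]]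
  140737479962621 [90, 90, 114, 114, 36, 204, 210] 159405944312 :=
  run4 tr94 _ _ _ _ dt94

theorem ok95 : Ok 4 Dn4 [[1, 0, 0, 0, 1, 0, 0], [1, 1, 0, 0, 2, 1, 1], [2, 2, 2, 1, 4, 2, 1],
  [1, 1, 1, 1, 4, 1, 1], [3, 3, 2, 1, 6, 2, 1], [3, 3, 2, 1, 7, 3, 1], [3, 3, 2, 1, 8, 3, 2]]
  140737479962621 [90, 90, 114, 114, 36, 204, 210] 291105591968 :=
  run4 tr95 _ _ _ _ dt95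

theorem ok96 : Ok 4 Dn4 [[1, 0, 0, 0, 1, 0, 0], [1, 1, 0, 0, 2, 1, 1], [2, 2, 2, 1, 3, 1, 1],
  [1, 1, 1, 1, 4, 1, 1], [3, 3, 2, 1, 6, 2, 1], [2, 2, 2, 1, 4, 2, 1], [3, 3, 2, 1, 7, 2, 2]]
  140187724148733 [90, 90, 114, 114, 36, 204, 210] 492046283646 :=
  run4 tr96 _ _ _ _ dt96

theorem ok97 : Ok 4 Dn4 [[1, 0, 0, 0, 1, 0, 0], [1, 1, 0, 0, 2, 1, 1], [2, 2, 2, 1, 3, 1, 1],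
  [1, 1, 1, 1, 4, 1, 1], [3, 3, 2, 1, 5, 1, 1], [3, 3, 2, 1, 6, 2, 1], [3, 3, 2, 1, 7, 2, 2]]
  140187724148733 [90, 90, 114, 114, 36, 204, 210] 419194598344 :=
  run4 tr97 _ _ _ _ dt97

theorem ok98 : Ok 4 Dn4 [[1, 0, 0, 0, 1, 0, 0], [2, 2, 1, 1, 4, 1, 1], [3, 3, 3, 2, 7, 2, 2],
  [1, 1, 1, 1, 3, 1, 0], [1, 1, 0, 0, 2, 0, 0], [0, 0, 0, 0, 1, 1, 0], [1, 1, 1, 1, 4, 1, 1]]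
  140187724152825 [118, 118, 118, 118, 40, 232, 238] 127837510718 :=
  run4 tr98 _ _ _ _ dt98

theorem ok99 : Ok 4 Dn4 [[1, 0, 0, 0, 1, 0, 0], [2, 2, 1, 1, 4, 1, 1], [2, 2, 2, 1, 4, 2, 1],
  [1, 1, 1, 1, 3, 1, 0], [4, 4, 3, 2, 9, 2, 2], [0, 0, 0, 0, 1, 1, 0], [3, 3, 3, 2, 7, 2, 2]]
  140187732541437 [120, 120, 120, 132, 54, 234, 252] 409796773298 :=
  run4 tr99 _ _ _ _ dt99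

theorem ok100 : Ok 4 Dn4 [[1, 0, 0, 0, 1, 0, 0], [2, 2, 1, 1, 4, 1, 1], [2, 2, 2, 1, 3, 1, 1],
  [1, 1, 1, 1, 3, 1, 0], [4, 4, 3, 2, 9, 2, 2], [2, 2, 2, 1, 4, 2, 1], [3, 3, 3, 2, 7, 2, 2]]
  140187732541437 [120, 120, 120, 132, 54, 234, 252] 990301072031 :=
  run4 tr100 _ _ _ _ dt100

theorem ok101 : Ok 4 Dn4 [[1, 0, 0, 0, 1, 0, 0], [2, 2, 1, 1, 4, 1, 1], [3, 3, 2, 1, 5, 1, 1],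
  [1, 1, 1, 1, 3, 1, 0], [1, 1, 0, 0, 2, 0, 0], [0, 0, 0, 0, 1, 1, 0], [4, 4, 3, 2, 9, 2, 2]]
  140187732541433 [120, 120, 120, 132, 54, 234, 252] 17625824886 :=
  run4 tr101 _ _ _ _ dt101

theorem ok102 : Ok 4 Dn4 [[1, 0, 0, 0, 1, 0, 0], [2, 2, 1, 1, 4, 1, 1], [2, 2, 2, 1, 3, 1, 1],
  [1, 1, 1, 1, 3, 1, 0], [3, 3, 2, 1, 6, 2, 1], [0, 0, 0, 0, 1, 1, 0], [4, 4, 3, 2, 9, 2, 2]]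
  140187732541437 [120, 120, 120, 132, 54, 234, 252] 347958564196 :=
  run4 tr102 _ _ _ _ dt102

theorem ok103 : Ok 4 Dn4 [[1, 0, 0, 0, 1, 0, 0], [2, 2, 1, 1, 4, 1, 1], [2, 2, 2, 1, 3, 1, 1],
  [1, 1, 1, 1, 3, 1, 0], [3, 3, 2, 1, 5, 1, 1], [3, 3, 2, 1, 6, 2, 1], [4, 4, 3, 2, 9, 2, 2]]
  140187732541437 [120, 120, 120, 132, 54, 234, 252] 610085229067 :=
  run4 tr103 _ _ _ _ dt103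

theorem ok104 : Ok 4 Dn4 [[1, 0, 0, 0, 1, 0, 0], [2, 2, 1, 1, 4, 1, 1], [2, 2, 2, 1, 3, 1, 1],
  [1, 1, 1, 1, 2, 0, 0], [1, 1, 0, 0, 2, 0, 0], [1, 1, 1, 1, 3, 1, 0], [1, 1, 1, 1, 4, 1, 1]]
  140187724152825 [118, 118, 118, 118, 40, 232, 238] 316710513719 :=
  run4 tr104 _ _ _ _ dt104

theorem ok105 : Ok 4 Dn4 [[1, 0, 0, 0, 1, 0, 0], [1, 1, 0, 0, 2, 1, 1], [3, 3, 2, 1, 5, 1, 1],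
  [2, 2, 1, 1, 4, 1, 1], [1, 1, 0, 0, 2, 0, 0], [0, 0, 0, 0, 1, 1, 0], [1, 1, 1, 1, 4, 1, 1]]
  140187724148729 [90, 90, 114, 114, 36, 204, 210] 31455479019 :=
  run4 tr105 _ _ _ _ dt105

theorem ok106 : Ok 4 Dn4 [[1, 0, 0, 0, 1, 0, 0], [1, 1, 0, 0, 2, 1, 1], [2, 2, 2, 1, 4, 2, 1],
  [2, 2, 1, 1, 5, 2, 1], [3, 3, 2, 1, 7, 3, 1], [0, 0, 0, 0, 1, 1, 0], [1, 1, 1, 1, 4, 1, 1]]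
  140737479962621 [90, 90, 114, 114, 36, 204, 210] 185012783274 :=
  run4 tr106 _ _ _ _ dt106

theorem ok107 : Ok 4 Dn4 [[1, 0, 0, 0, 1, 0, 0], [1, 1, 0, 0, 2, 1, 1], [2, 2, 2, 1, 4, 2, 1],
  [2, 2, 1, 1, 5, 2, 1], [3, 3, 2, 1, 6, 2, 1], [3, 3, 2, 1, 7, 3, 1], [1, 1, 1, 1, 4, 1, 1]]
  140737479962621 [90, 90, 114, 114, 36, 204, 210] 356725868370 :=
  run4 tr107 _ _ _ _ dt107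

theorem ok108 : Ok 4 Dn4 [[1, 0, 0, 0, 1, 0, 0], [1, 1, 0, 0, 2, 1, 1], [2, 2, 2, 1, 4, 2, 1],
  [2, 2, 1, 1, 4, 1, 1], [3, 3, 2, 1, 6, 2, 1], [2, 2, 1, 1, 5, 2, 1], [1, 1, 1, 1, 4, 1, 1]]
  140737479962621 [90, 90, 114, 114, 36, 204, 210] 505778002973 :=
  run4 tr108 _ _ _ _ dt108

theorem ok109 : Ok 4 Dn4 [[1, 0, 0, 0, 1, 0, 0], [1, 1, 0, 0, 2, 1, 1], [2, 2, 2, 1, 3, 1, 1],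
  [2, 2, 1, 1, 4, 1, 1], [3, 3, 2, 1, 6, 2, 1], [2, 2, 2, 1, 4, 2, 1], [1, 1, 1, 1, 4, 1, 1]]
  140187724148733 [90, 90, 114, 114, 36, 204, 210] 655539513970 :=
  run4 tr109 _ _ _ _ dt109

theorem ok110 : Ok 4 Dn4 [[1, 0, 0, 0, 1, 0, 0], [1, 1, 0, 0, 2, 1, 1], [2, 2, 2, 1, 3, 1, 1],
  [2, 2, 1, 1, 4, 1, 1], [3, 3, 2, 1, 5, 1, 1], [3, 3, 2, 1, 6, 2, 1], [1, 1, 1, 1, 4, 1, 1]]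
  140187724148733 [90, 90, 114, 114, 36, 204, 210] 555702174952 :=
  run4 tr110 _ _ _ _ dt110

theorem ok111 : Ok 4 Dn4 [[1, 0, 0, 0, 1, 0, 0], [1, 1, 0, 0, 2, 1, 1], [2, 2, 1, 0, 3, 1, 1],
  [2, 2, 2, 1, 3, 1, 1], [1, 1, 0, 0, 2, 0, 0], [0, 0, 0, 0, 1, 1, 0], [0, 0, 0, 0, 2, 1, 1]]
  140185576667641 [57, 57, 57, 105, 21, 147, 147] 24985639809 :=
  run4 tr111 _ _ _ _ dt111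

theorem ok112 : Ok 4 Dn4 [[1, 0, 0, 0, 1, 0, 0], [1, 1, 0, 0, 2, 1, 1], [1, 1, 1, 0, 1, 1, 1],
  [2, 2, 2, 1, 3, 1, 1], [2, 2, 1, 0, 3, 1, 1], [0, 0, 0, 0, 1, 1, 0], [0, 0, 0, 0, 2, 1, 1]]
  140185576667641 [57, 57, 57, 105, 21, 147, 147] 91350664791 :=
  run4 tr112 _ _ _ _ dt112

theorem nd197 : Ok 4 Dn4 [[1, 0, 0, 0, 1, 0, 0], [1, 1, 0, 0, 2, 1, 1], [2, 2, 2, 1, 4, 2, 1],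
  [1, 1, 1, 1, 4, 1, 1], [3, 3, 2, 1, 8, 3, 2], [0, 0, 0, 0, 1, 1, 0], [2, 2, 2, 1, 5, 2, 2]]
  140737479962621 [90, 90, 114, 114, 36, 204, 210] 180438459389 :=
  cut4 0 6 1 1 1 _ [[3, 2, 2, 1, 6, 2, 2], [1, 1, 0, 0, 2, 1, 1], [2, 2, 2, 1, 4, 2, 1], [1, 1,
  1, 1, 4, 1, 1], [3, 3, 2, 1, 8, 3, 2], [0, 0, 0, 0, 1, 1, 0], [2, 2, 2, 1, 5, 2, 2]] [[1, 0, 0,
  0, 1, 0, 0], [1, 1, 0, 0, 2, 1, 1], [2, 2, 2, 1, 4, 2, 1], [1, 1, 1, 1, 4, 1, 1], [3, 3, 2, 1,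
  8, 3, 2], [0, 0, 0, 0, 1, 1, 0], [3, 2, 2, 1, 6, 2, 2]] _ _ 415376598272 151071192028 _ (by
  decide +kernel) ok87 ok88

theorem nd198 : Ok 4 Dn4 [[1, 0, 0, 0, 1, 0, 0], [1, 1, 0, 0, 2, 1, 1], [2, 2, 2, 1, 4, 2, 1],
  [1, 1, 1, 1, 4, 1, 1], [3, 3, 2, 1, 7, 2, 2], [0, 0, 0, 0, 1, 1, 0], [2, 2, 2, 1, 5, 2, 2]]
  140737479962621 [90, 90, 114, 114, 36, 204, 210] 195555375275 :=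
  cut4 4 5 1 1 1 _ [[1, 0, 0, 0, 1, 0, 0], [1, 1, 0, 0, 2, 1, 1], [2, 2, 2, 1, 4, 2, 1], [1, 1,
  1, 1, 4, 1, 1], [3, 3, 2, 1, 8, 3, 2], [0, 0, 0, 0, 1, 1, 0], [2, 2, 2, 1, 5, 2, 2]] [[1, 0, 0,
  0, 1, 0, 0], [1, 1, 0, 0, 2, 1, 1], [2, 2, 2, 1, 4, 2, 1], [1, 1, 1, 1, 4, 1, 1], [3, 3, 2, 1,
  7, 2, 2], [3, 3, 2, 1, 8, 3, 2], [2, 2, 2, 1, 5, 2, 2]] _ _ 180438459389 346724534127 _ (by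
  decide +kernel) nd197 ok89

theorem nd199 : Ok 4 Dn4 [[1, 0, 0, 0, 1, 0, 0], [1, 1, 0, 0, 2, 1, 1], [2, 2, 2, 1, 4, 2, 1],
  [1, 1, 1, 1, 4, 1, 1], [3, 3, 2, 1, 7, 2, 2], [0, 0, 0, 0, 1, 1, 0], [2, 2, 2, 1, 5, 2, 2]]
  140187724148733 [90, 90, 114, 114, 36, 204, 210] 195555375275 :=
  dec4 2 7 0 _ _ 140737479962621 _ [90, 90, 114, 114, 36, 204, 210] _ (by decide +kernel) nd198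

theorem nd200 : Ok 4 Dn4 [[1, 0, 0, 0, 1, 0, 0], [1, 1, 0, 0, 2, 1, 1], [2, 2, 2, 1, 3, 1, 1],
  [1, 1, 1, 1, 4, 1, 1], [3, 3, 2, 1, 7, 2, 2], [0, 0, 0, 0, 1, 1, 0], [2, 2, 2, 1, 5, 2, 2]]
  140187724148733 [90, 90, 114, 114, 36, 204, 210] 242360290349 :=
  cut4 2 5 1 1 1 _ [[1, 0, 0, 0, 1, 0, 0], [1, 1, 0, 0, 2, 1, 1], [2, 2, 2, 1, 4, 2, 1], [1, 1,
  1, 1, 4, 1, 1], [3, 3, 2, 1, 7, 2, 2], [0, 0, 0, 0, 1, 1, 0], [2, 2, 2, 1, 5, 2, 2]] [[1, 0, 0,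
  0, 1, 0, 0], [1, 1, 0, 0, 2, 1, 1], [2, 2, 2, 1, 3, 1, 1], [1, 1, 1, 1, 4, 1, 1], [3, 3, 2, 1,
  7, 2, 2], [2, 2, 2, 1, 4, 2, 1], [2, 2, 2, 1, 5, 2, 2]] _ _ 195555375275 523189780789 _ (by
  decide +kernel) nd199 ok90

theorem nd201 : Ok 4 Dn4 [[1, 0, 0, 0, 1, 0, 0], [1, 1, 0, 0, 2, 1, 1], [2, 2, 2, 1, 3, 1, 1],
  [1, 1, 1, 1, 4, 1, 1], [3, 3, 2, 1, 7, 2, 2], [0, 0, 0, 0, 1, 1, 0], [2, 2, 2, 1, 5, 2, 2]]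
  140187724148729 [90, 90, 114, 114, 36, 204, 210] 242360290349 :=
  dec4 0 2 0 _ _ 140187724148733 _ [90, 90, 114, 114, 36, 204, 210] _ (by decide +kernel) nd200

theorem nd202 : Ok 4 Dn4 [[1, 0, 0, 0, 1, 0, 0], [1, 1, 0, 0, 2, 1, 1], [2, 2, 2, 1, 4, 2, 1],
  [1, 1, 1, 1, 4, 1, 1], [3, 3, 2, 1, 7, 3, 1], [0, 0, 0, 0, 1, 1, 0], [3, 3, 2, 1, 8, 3, 2]]
  140737479962621 [90, 90, 114, 114, 36, 204, 210] 145320788016 :=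
  cut4 3 4 1 1 1 _ [[1, 0, 0, 0, 1, 0, 0], [1, 1, 0, 0, 2, 1, 1], [2, 2, 2, 1, 4, 2, 1], [4, 4,
  3, 2, 11, 4, 2], [3, 3, 2, 1, 7, 3, 1], [0, 0, 0, 0, 1, 1, 0], [3, 3, 2, 1, 8, 3, 2]] [[1, 0,
  0, 0, 1, 0, 0], [1, 1, 0, 0, 2, 1, 1], [2, 2, 2, 1, 4, 2, 1], [1, 1, 1, 1, 4, 1, 1], [4, 4, 3,
  2, 11, 4, 2], [0, 0, 0, 0, 1, 1, 0], [3, 3, 2, 1, 8, 3, 2]] _ _ 117150475423 159405944312 _ (by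
  decide +kernel) ok93 ok94

theorem nd203 : Ok 4 Dn4 [[1, 0, 0, 0, 1, 0, 0], [1, 1, 0, 0, 2, 1, 1], [2, 2, 2, 1, 4, 2, 1],
  [1, 1, 1, 1, 4, 1, 1], [3, 3, 2, 1, 6, 2, 1], [0, 0, 0, 0, 1, 1, 0], [3, 3, 2, 1, 8, 3, 2]]
  140737479962621 [90, 90, 114, 114, 36, 204, 210] 159899268412 :=
  cut4 4 5 1 1 1 _ [[1, 0, 0, 0, 1, 0, 0], [1, 1, 0, 0, 2, 1, 1], [2, 2, 2, 1, 4, 2, 1], [1, 1,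
  1, 1, 4, 1, 1], [3, 3, 2, 1, 7, 3, 1], [0, 0, 0, 0, 1, 1, 0], [3, 3, 2, 1, 8, 3, 2]] [[1, 0, 0,
  0, 1, 0, 0], [1, 1, 0, 0, 2, 1, 1], [2, 2, 2, 1, 4, 2, 1], [1, 1, 1, 1, 4, 1, 1], [3, 3, 2, 1,
  6, 2, 1], [3, 3, 2, 1, 7, 3, 1], [3, 3, 2, 1, 8, 3, 2]] _ _ 145320788016 291105591968 _ (by
  decide +kernel) nd202 ok95

theorem nd204 : Ok 4 Dn4 [[1, 0, 0, 0, 1, 0, 0], [1, 1, 0, 0, 2, 1, 1], [2, 2, 2, 1, 4, 2, 1],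
  [1, 1, 1, 1, 4, 1, 1], [3, 3, 2, 1, 6, 2, 1], [0, 0, 0, 0, 1, 1, 0], [3, 3, 2, 1, 7, 2, 2]]
  140737479962621 [90, 90, 114, 114, 36, 204, 210] 172836220637 :=
  cut4 5 6 1 1 1 _ [[1, 0, 0, 0, 1, 0, 0], [1, 1, 0, 0, 2, 1, 1], [2, 2, 2, 1, 4, 2, 1], [1, 1,
  1, 1, 4, 1, 1], [3, 3, 2, 1, 6, 2, 1], [3, 3, 2, 1, 8, 3, 2], [3, 3, 2, 1, 7, 2, 2]] [[1, 0, 0,
  0, 1, 0, 0], [1, 1, 0, 0, 2, 1, 1], [2, 2, 2, 1, 4, 2, 1], [1, 1, 1, 1, 4, 1, 1], [3, 3, 2, 1,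
  6, 2, 1], [0, 0, 0, 0, 1, 1, 0], [3, 3, 2, 1, 8, 3, 2]] _ _ 302205742877 159899268412 _ (by
  decide +kernel) ok92 nd203

theorem nd205 : Ok 4 Dn4 [[1, 0, 0, 0, 1, 0, 0], [1, 1, 0, 0, 2, 1, 1], [2, 2, 2, 1, 4, 2, 1],
  [1, 1, 1, 1, 4, 1, 1], [3, 3, 2, 1, 6, 2, 1], [0, 0, 0, 0, 1, 1, 0], [3, 3, 2, 1, 7, 2, 2]]
  140187724148733 [90, 90, 114, 114, 36, 204, 210] 172836220637 :=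
  dec4 2 7 0 _ _ 140737479962621 _ [90, 90, 114, 114, 36, 204, 210] _ (by decide +kernel) nd204

theorem nd206 : Ok 4 Dn4 [[1, 0, 0, 0, 1, 0, 0], [1, 1, 0, 0, 2, 1, 1], [2, 2, 2, 1, 3, 1, 1],
  [1, 1, 1, 1, 4, 1, 1], [3, 3, 2, 1, 6, 2, 1], [0, 0, 0, 0, 1, 1, 0], [3, 3, 2, 1, 7, 2, 2]]
  140187724148733 [90, 90, 114, 114, 36, 204, 210] 218437658210 :=
  cut4 2 5 1 1 1 _ [[1, 0, 0, 0, 1, 0, 0], [1, 1, 0, 0, 2, 1, 1], [2, 2, 2, 1, 4, 2, 1], [1, 1,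
  1, 1, 4, 1, 1], [3, 3, 2, 1, 6, 2, 1], [0, 0, 0, 0, 1, 1, 0], [3, 3, 2, 1, 7, 2, 2]] [[1, 0, 0,
  0, 1, 0, 0], [1, 1, 0, 0, 2, 1, 1], [2, 2, 2, 1, 3, 1, 1], [1, 1, 1, 1, 4, 1, 1], [3, 3, 2, 1,
  6, 2, 1], [2, 2, 2, 1, 4, 2, 1], [3, 3, 2, 1, 7, 2, 2]] _ _ 172836220637 492046283646 _ (by
  decide +kernel) nd205 ok96

theorem nd207 : Ok 4 Dn4 [[1, 0, 0, 0, 1, 0, 0], [1, 1, 0, 0, 2, 1, 1], [2, 2, 2, 1, 3, 1, 1],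
  [1, 1, 1, 1, 4, 1, 1], [3, 3, 2, 1, 5, 1, 1], [0, 0, 0, 0, 1, 1, 0], [3, 3, 2, 1, 7, 2, 2]]
  140187724148733 [90, 90, 114, 114, 36, 204, 210] 240743984892 :=
  cut4 4 5 1 1 1 _ [[1, 0, 0, 0, 1, 0, 0], [1, 1, 0, 0, 2, 1, 1], [2, 2, 2, 1, 3, 1, 1], [1, 1,
  1, 1, 4, 1, 1], [3, 3, 2, 1, 6, 2, 1], [0, 0, 0, 0, 1, 1, 0], [3, 3, 2, 1, 7, 2, 2]] [[1, 0, 0,
  0, 1, 0, 0], [1, 1, 0, 0, 2, 1, 1], [2, 2, 2, 1, 3, 1, 1], [1, 1, 1, 1, 4, 1, 1], [3, 3, 2, 1,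
  5, 1, 1], [3, 3, 2, 1, 6, 2, 1], [3, 3, 2, 1, 7, 2, 2]] _ _ 218437658210 419194598344 _ (by
  decide +kernel) nd206 ok97

theorem nd208 : Ok 4 Dn4 [[1, 0, 0, 0, 1, 0, 0], [1, 1, 0, 0, 2, 1, 1], [2, 2, 2, 1, 3, 1, 1],
  [1, 1, 1, 1, 4, 1, 1], [3, 3, 2, 1, 5, 1, 1], [0, 0, 0, 0, 1, 1, 0], [3, 3, 2, 1, 7, 2, 2]]
  140187724148729 [90, 90, 114, 114, 36, 204, 210] 240743984892 :=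
  dec4 0 2 0 _ _ 140187724148733 _ [90, 90, 114, 114, 36, 204, 210] _ (by decide +kernel) nd207

theorem nd209 : Ok 4 Dn4 [[1, 0, 0, 0, 1, 0, 0], [1, 1, 0, 0, 2, 1, 1], [2, 2, 2, 1, 3, 1, 1],
  [1, 1, 1, 1, 4, 1, 1], [1, 1, 0, 0, 2, 0, 0], [0, 0, 0, 0, 1, 1, 0], [3, 3, 2, 1, 7, 2, 2]]
  140187724148729 [90, 90, 114, 114, 36, 204, 210] 76939426509 :=
  cut4 2 4 1 1 1 _ [[1, 0, 0, 0, 1, 0, 0], [1, 1, 0, 0, 2, 1, 1], [3, 3, 2, 1, 5, 1, 1], [1, 1,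
  1, 1, 4, 1, 1], [1, 1, 0, 0, 2, 0, 0], [0, 0, 0, 0, 1, 1, 0], [3, 3, 2, 1, 7, 2, 2]] [[1, 0, 0,
  0, 1, 0, 0], [1, 1, 0, 0, 2, 1, 1], [2, 2, 2, 1, 3, 1, 1], [1, 1, 1, 1, 4, 1, 1], [3, 3, 2, 1,
  5, 1, 1], [0, 0, 0, 0, 1, 1, 0], [3, 3, 2, 1, 7, 2, 2]] _ _ 22337907048 240743984892 _ (by
  decide +kernel) ok91 nd208

theorem nd210 : Ok 4 Dn4 [[1, 0, 0, 0, 1, 0, 0], [1, 1, 0, 0, 2, 1, 1], [2, 2, 2, 1, 3, 1, 1],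
  [1, 1, 1, 1, 4, 1, 1], [1, 1, 0, 0, 2, 0, 0], [0, 0, 0, 0, 1, 1, 0], [2, 2, 2, 1, 5, 2, 2]]
  140187724148729 [90, 90, 114, 114, 36, 204, 210] 110023599277 :=
  cut4 4 6 1 1 1 _ [[1, 0, 0, 0, 1, 0, 0], [1, 1, 0, 0, 2, 1, 1], [2, 2, 2, 1, 3, 1, 1], [1, 1,
  1, 1, 4, 1, 1], [3, 3, 2, 1, 7, 2, 2], [0, 0, 0, 0, 1, 1, 0], [2, 2, 2, 1, 5, 2, 2]] [[1, 0, 0,
  0, 1, 0, 0], [1, 1, 0, 0, 2, 1, 1], [2, 2, 2, 1, 3, 1, 1], [1, 1, 1, 1, 4, 1, 1], [1, 1, 0, 0,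
  2, 0, 0], [0, 0, 0, 0, 1, 1, 0], [3, 3, 2, 1, 7, 2, 2]] _ _ 242360290349 76939426509 _ (by
  decide +kernel) nd201 nd209

theorem nd211 : Ok 4 Dn4 [[1, 0, 0, 0, 1, 0, 0], [1, 1, 0, 0, 2, 1, 1], [2, 2, 2, 1, 3, 1, 1],
  [1, 1, 1, 1, 4, 1, 1], [1, 1, 0, 0, 2, 0, 0], [0, 0, 0, 0, 1, 1, 0], [2, 2, 2, 1, 7, 3, 3]]
  140187724148729 [90, 90, 114, 114, 36, 204, 210] 88576711513 :=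
  cut4 2 6 1 1 2 _ [[1, 0, 0, 0, 1, 0, 0], [1, 1, 0, 0, 2, 1, 1], [2, 2, 2, 1, 5, 2, 2], [1, 1,
  1, 1, 4, 1, 1], [1, 1, 0, 0, 2, 0, 0], [0, 0, 0, 0, 1, 1, 0], [2, 2, 2, 1, 7, 3, 3]] [[1, 0, 0,
  0, 1, 0, 0], [1, 1, 0, 0, 2, 1, 1], [2, 2, 2, 1, 3, 1, 1], [1, 1, 1, 1, 4, 1, 1], [1, 1, 0, 0,
  2, 0, 0], [0, 0, 0, 0, 1, 1, 0], [2, 2, 2, 1, 5, 2, 2]] _ _ 52831898573 110023599277 _ (by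
  decide +kernel) ok86 nd210

theorem nd212 : Ok 4 Dn4 [[1, 0, 0, 0, 1, 0, 0], [1, 1, 0, 0, 2, 1, 1], [2, 2, 2, 1, 3, 1, 1],
  [1, 1, 1, 1, 4, 1, 1], [1, 1, 0, 0, 2, 0, 0], [0, 0, 0, 0, 1, 1, 0], [2, 2, 2, 1, 7, 3, 3]]
  140185576665081 [89, 89, 113, 113, 29, 203, 203] 88576711513 :=
  dec4 1 15 1 _ _ 140187724148729 _ [90, 90, 114, 114, 36, 204, 210] _ (by decide +kernel) nd211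

theorem nd213 : Ok 4 Dn4 [[1, 0, 0, 0, 1, 0, 0], [1, 1, 0, 0, 2, 1, 1], [2, 2, 2, 1, 3, 1, 1],
  [1, 1, 1, 1, 4, 1, 1], [1, 1, 0, 0, 2, 0, 0], [0, 0, 0, 0, 1, 1, 0], [0, 0, 0, 0, 2, 1, 1]]
  140185576665081 [89, 89, 113, 113, 29, 203, 203] 44996845246 :=
  cut4 2 6 1 2 1 _ [[1, 0, 0, 0, 1, 0, 0], [1, 1, 0, 0, 2, 1, 1], [2, 2, 2, 1, 7, 3, 3], [1, 1,
  1, 1, 4, 1, 1], [1, 1, 0, 0, 2, 0, 0], [0, 0, 0, 0, 1, 1, 0], [0, 0, 0, 0, 2, 1, 1]] [[1, 0, 0,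
  0, 1, 0, 0], [1, 1, 0, 0, 2, 1, 1], [2, 2, 2, 1, 3, 1, 1], [1, 1, 1, 1, 4, 1, 1], [1, 1, 0, 0,
  2, 0, 0], [0, 0, 0, 0, 1, 1, 0], [2, 2, 2, 1, 7, 3, 3]] _ _ 15943601067 88576711513 _ (by
  decide +kernel) ok85 nd212

theorem nd214 : Ok 4 Dn4 [[1, 0, 0, 0, 1, 0, 0], [2, 2, 1, 1, 4, 1, 1], [2, 2, 2, 1, 3, 1, 1],
  [1, 1, 1, 1, 3, 1, 0], [4, 4, 3, 2, 9, 2, 2], [0, 0, 0, 0, 1, 1, 0], [3, 3, 3, 2, 7, 2, 2]]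
  140187732541437 [120, 120, 120, 132, 54, 234, 252] 492725958832 :=
  cut4 2 5 1 1 1 _ [[1, 0, 0, 0, 1, 0, 0], [2, 2, 1, 1, 4, 1, 1], [2, 2, 2, 1, 4, 2, 1], [1, 1,
  1, 1, 3, 1, 0], [4, 4, 3, 2, 9, 2, 2], [0, 0, 0, 0, 1, 1, 0], [3, 3, 3, 2, 7, 2, 2]] [[1, 0, 0,
  0, 1, 0, 0], [2, 2, 1, 1, 4, 1, 1], [2, 2, 2, 1, 3, 1, 1], [1, 1, 1, 1, 3, 1, 0], [4, 4, 3, 2,
  9, 2, 2], [2, 2, 2, 1, 4, 2, 1], [3, 3, 3, 2, 7, 2, 2]] _ _ 409796773298 990301072031 _ (by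
  decide +kernel) ok99 ok100

theorem nd215 : Ok 4 Dn4 [[1, 0, 0, 0, 1, 0, 0], [2, 2, 1, 1, 4, 1, 1], [2, 2, 2, 1, 3, 1, 1],
  [1, 1, 1, 1, 3, 1, 0], [4, 4, 3, 2, 9, 2, 2], [0, 0, 0, 0, 1, 1, 0], [3, 3, 3, 2, 7, 2, 2]]
  140187732541433 [120, 120, 120, 132, 54, 234, 252] 492725958832 :=
  dec4 0 2 0 _ _ 140187732541437 _ [120, 120, 120, 132, 54, 234, 252] _ (by decide +kernel) nd214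

theorem nd216 : Ok 4 Dn4 [[1, 0, 0, 0, 1, 0, 0], [2, 2, 1, 1, 4, 1, 1], [2, 2, 2, 1, 3, 1, 1],
  [1, 1, 1, 1, 3, 1, 0], [3, 3, 2, 1, 5, 1, 1], [0, 0, 0, 0, 1, 1, 0], [4, 4, 3, 2, 9, 2, 2]]
  140187732541437 [120, 120, 120, 132, 54, 234, 252] 377083749182 :=
  cut4 4 5 1 1 1 _ [[1, 0, 0, 0, 1, 0, 0], [2, 2, 1, 1, 4, 1, 1], [2, 2, 2, 1, 3, 1, 1], [1, 1,
  1, 1, 3, 1, 0], [3, 3, 2, 1, 6, 2, 1], [0, 0, 0, 0, 1, 1, 0], [4, 4, 3, 2, 9, 2, 2]] [[1, 0, 0,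
  0, 1, 0, 0], [2, 2, 1, 1, 4, 1, 1], [2, 2, 2, 1, 3, 1, 1], [1, 1, 1, 1, 3, 1, 0], [3, 3, 2, 1,
  5, 1, 1], [3, 3, 2, 1, 6, 2, 1], [4, 4, 3, 2, 9, 2, 2]] _ _ 347958564196 610085229067 _ (by
  decide +kernel) ok102 ok103

theorem nd217 : Ok 4 Dn4 [[1, 0, 0, 0, 1, 0, 0], [2, 2, 1, 1, 4, 1, 1], [2, 2, 2, 1, 3, 1, 1],
  [1, 1, 1, 1, 3, 1, 0], [3, 3, 2, 1, 5, 1, 1], [0, 0, 0, 0, 1, 1, 0], [4, 4, 3, 2, 9, 2, 2]]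
  140187732541433 [120, 120, 120, 132, 54, 234, 252] 377083749182 :=
  dec4 0 2 0 _ _ 140187732541437 _ [120, 120, 120, 132, 54, 234, 252] _ (by decide +kernel) nd216

theorem nd218 : Ok 4 Dn4 [[1, 0, 0, 0, 1, 0, 0], [2, 2, 1, 1, 4, 1, 1], [2, 2, 2, 1, 3, 1, 1],
  [1, 1, 1, 1, 3, 1, 0], [1, 1, 0, 0, 2, 0, 0], [0, 0, 0, 0, 1, 1, 0], [4, 4, 3, 2, 9, 2, 2]]
  140187732541433 [120, 120, 120, 132, 54, 234, 252] 107490305960 :=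
  cut4 2 4 1 1 1 _ [[1, 0, 0, 0, 1, 0, 0], [2, 2, 1, 1, 4, 1, 1], [3, 3, 2, 1, 5, 1, 1], [1, 1,
  1, 1, 3, 1, 0], [1, 1, 0, 0, 2, 0, 0], [0, 0, 0, 0, 1, 1, 0], [4, 4, 3, 2, 9, 2, 2]] [[1, 0, 0,
  0, 1, 0, 0], [2, 2, 1, 1, 4, 1, 1], [2, 2, 2, 1, 3, 1, 1], [1, 1, 1, 1, 3, 1, 0], [3, 3, 2, 1,
  5, 1, 1], [0, 0, 0, 0, 1, 1, 0], [4, 4, 3, 2, 9, 2, 2]] _ _ 17625824886 377083749182 _ (by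
  decide +kernel) ok101 nd217

theorem nd219 : Ok 4 Dn4 [[1, 0, 0, 0, 1, 0, 0], [2, 2, 1, 1, 4, 1, 1], [2, 2, 2, 1, 3, 1, 1],
  [1, 1, 1, 1, 3, 1, 0], [1, 1, 0, 0, 2, 0, 0], [0, 0, 0, 0, 1, 1, 0], [3, 3, 3, 2, 7, 2, 2]]
  140187732541433 [120, 120, 120, 132, 54, 234, 252] 166757329479 :=
  cut4 4 6 1 1 1 _ [[1, 0, 0, 0, 1, 0, 0], [2, 2, 1, 1, 4, 1, 1], [2, 2, 2, 1, 3, 1, 1], [1, 1,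
  1, 1, 3, 1, 0], [4, 4, 3, 2, 9, 2, 2], [0, 0, 0, 0, 1, 1, 0], [3, 3, 3, 2, 7, 2, 2]] [[1, 0, 0,
  0, 1, 0, 0], [2, 2, 1, 1, 4, 1, 1], [2, 2, 2, 1, 3, 1, 1], [1, 1, 1, 1, 3, 1, 0], [1, 1, 0, 0,
  2, 0, 0], [0, 0, 0, 0, 1, 1, 0], [4, 4, 3, 2, 9, 2, 2]] _ _ 492725958832 107490305960 _ (by
  decide +kernel) nd215 nd218

theorem nd220 : Ok 4 Dn4 [[1, 0, 0, 0, 1, 0, 0], [2, 2, 1, 1, 4, 1, 1], [2, 2, 2, 1, 3, 1, 1],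
  [1, 1, 1, 1, 3, 1, 0], [1, 1, 0, 0, 2, 0, 0], [0, 0, 0, 0, 1, 1, 0], [3, 3, 3, 2, 7, 2, 2]]
  140187724152825 [118, 118, 118, 118, 40, 232, 238] 166757329479 :=
  dec4 1 7 1 _ _ 140187732541433 _ [120, 120, 120, 132, 54, 234, 252] _ (by decide +kernel) nd219

theorem nd221 : Ok 4 Dn4 [[1, 0, 0, 0, 1, 0, 0], [2, 2, 1, 1, 4, 1, 1], [2, 2, 2, 1, 3, 1, 1],
  [1, 1, 1, 1, 3, 1, 0], [1, 1, 0, 0, 2, 0, 0], [0, 0, 0, 0, 1, 1, 0], [1, 1, 1, 1, 4, 1, 1]]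
  140187724152825 [118, 118, 118, 118, 40, 232, 238] 145528337428 :=
  cut4 2 6 1 1 1 _ [[1, 0, 0, 0, 1, 0, 0], [2, 2, 1, 1, 4, 1, 1], [3, 3, 3, 2, 7, 2, 2], [1, 1,
  1, 1, 3, 1, 0], [1, 1, 0, 0, 2, 0, 0], [0, 0, 0, 0, 1, 1, 0], [1, 1, 1, 1, 4, 1, 1]] [[1, 0, 0,
  0, 1, 0, 0], [2, 2, 1, 1, 4, 1, 1], [2, 2, 2, 1, 3, 1, 1], [1, 1, 1, 1, 3, 1, 0], [1, 1, 0, 0,
  2, 0, 0], [0, 0, 0, 0, 1, 1, 0], [3, 3, 3, 2, 7, 2, 2]] _ _ 127837510718 166757329479 _ (by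
  decide +kernel) ok98 nd220

theorem nd222 : Ok 4 Dn4 [[1, 0, 0, 0, 1, 0, 0], [2, 2, 1, 1, 4, 1, 1], [2, 2, 2, 1, 3, 1, 1],
  [1, 1, 1, 1, 2, 0, 0], [1, 1, 0, 0, 2, 0, 0], [0, 0, 0, 0, 1, 1, 0], [1, 1, 1, 1, 4, 1, 1]]
  140187724152825 [118, 118, 118, 118, 40, 232, 238] 188323881501 :=
  cut4 3 5 1 1 1 _ [[1, 0, 0, 0, 1, 0, 0], [2, 2, 1, 1, 4, 1, 1], [2, 2, 2, 1, 3, 1, 1], [1, 1,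
  1, 1, 3, 1, 0], [1, 1, 0, 0, 2, 0, 0], [0, 0, 0, 0, 1, 1, 0], [1, 1, 1, 1, 4, 1, 1]] [[1, 0, 0,
  0, 1, 0, 0], [2, 2, 1, 1, 4, 1, 1], [2, 2, 2, 1, 3, 1, 1], [1, 1, 1, 1, 2, 0, 0], [1, 1, 0, 0,
  2, 0, 0], [1, 1, 1, 1, 3, 1, 0], [1, 1, 1, 1, 4, 1, 1]] _ _ 145528337428 316710513719 _ (by
  decide +kernel) nd221 ok104

theorem nd223 : Ok 4 Dn4 [[1, 0, 0, 0, 1, 0, 0], [2, 2, 1, 1, 4, 1, 1], [2, 2, 2, 1, 3, 1, 1],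
  [1, 1, 1, 1, 2, 0, 0], [1, 1, 0, 0, 2, 0, 0], [0, 0, 0, 0, 1, 1, 0], [1, 1, 1, 1, 4, 1, 1]]
  140187724148729 [90, 90, 114, 114, 36, 204, 210] 188323881501 :=
  dec4 0 12 1 _ _ 140187724152825 _ [118, 118, 118, 118, 40, 232, 238] _ (by decide +kernel) nd222

theorem nd224 : Ok 4 Dn4 [[1, 0, 0, 0, 1, 0, 0], [1, 1, 0, 0, 2, 1, 1], [2, 2, 2, 1, 4, 2, 1],
  [2, 2, 1, 1, 5, 2, 1], [3, 3, 2, 1, 6, 2, 1], [0, 0, 0, 0, 1, 1, 0], [1, 1, 1, 1, 4, 1, 1]]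
  140737479962621 [90, 90, 114, 114, 36, 204, 210] 202184091784 :=
  cut4 4 5 1 1 1 _ [[1, 0, 0, 0, 1, 0, 0], [1, 1, 0, 0, 2, 1, 1], [2, 2, 2, 1, 4, 2, 1], [2, 2,
  1, 1, 5, 2, 1], [3, 3, 2, 1, 7, 3, 1], [0, 0, 0, 0, 1, 1, 0], [1, 1, 1, 1, 4, 1, 1]] [[1, 0, 0,
  0, 1, 0, 0], [1, 1, 0, 0, 2, 1, 1], [2, 2, 2, 1, 4, 2, 1], [2, 2, 1, 1, 5, 2, 1], [3, 3, 2, 1,
  6, 2, 1], [3, 3, 2, 1, 7, 3, 1], [1, 1, 1, 1, 4, 1, 1]] _ _ 185012783274 356725868370 _ (by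
  decide +kernel) ok106 ok107

theorem nd225 : Ok 4 Dn4 [[1, 0, 0, 0, 1, 0, 0], [1, 1, 0, 0, 2, 1, 1], [2, 2, 2, 1, 4, 2, 1],
  [2, 2, 1, 1, 4, 1, 1], [3, 3, 2, 1, 6, 2, 1], [0, 0, 0, 0, 1, 1, 0], [1, 1, 1, 1, 4, 1, 1]]
  140737479962621 [90, 90, 114, 114, 36, 204, 210] 245554650526 :=
  cut4 3 5 1 1 1 _ [[1, 0, 0, 0, 1, 0, 0], [1, 1, 0, 0, 2, 1, 1], [2, 2, 2, 1, 4, 2, 1], [2, 2,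
  1, 1, 5, 2, 1], [3, 3, 2, 1, 6, 2, 1], [0, 0, 0, 0, 1, 1, 0], [1, 1, 1, 1, 4, 1, 1]] [[1, 0, 0,
  0, 1, 0, 0], [1, 1, 0, 0, 2, 1, 1], [2, 2, 2, 1, 4, 2, 1], [2, 2, 1, 1, 4, 1, 1], [3, 3, 2, 1,
  6, 2, 1], [2, 2, 1, 1, 5, 2, 1], [1, 1, 1, 1, 4, 1, 1]] _ _ 202184091784 505778002973 _ (by
  decide +kernel) nd224 ok108

theorem nd226 : Ok 4 Dn4 [[1, 0, 0, 0, 1, 0, 0], [1, 1, 0, 0, 2, 1, 1], [2, 2, 2, 1, 4, 2, 1],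
  [2, 2, 1, 1, 4, 1, 1], [3, 3, 2, 1, 6, 2, 1], [0, 0, 0, 0, 1, 1, 0], [1, 1, 1, 1, 4, 1, 1]]
  140187724148733 [90, 90, 114, 114, 36, 204, 210] 245554650526 :=
  dec4 2 7 0 _ _ 140737479962621 _ [90, 90, 114, 114, 36, 204, 210] _ (by decide +kernel) nd225

theorem nd227 : Ok 4 Dn4 [[1, 0, 0, 0, 1, 0, 0], [1, 1, 0, 0, 2, 1, 1], [2, 2, 2, 1, 3, 1, 1],
  [2, 2, 1, 1, 4, 1, 1], [3, 3, 2, 1, 6, 2, 1], [0, 0, 0, 0, 1, 1, 0], [1, 1, 1, 1, 4, 1, 1]]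
  140187724148733 [90, 90, 114, 114, 36, 204, 210] 304123916733 :=
  cut4 2 5 1 1 1 _ [[1, 0, 0, 0, 1, 0, 0], [1, 1, 0, 0, 2, 1, 1], [2, 2, 2, 1, 4, 2, 1], [2, 2,
  1, 1, 4, 1, 1], [3, 3, 2, 1, 6, 2, 1], [0, 0, 0, 0, 1, 1, 0], [1, 1, 1, 1, 4, 1, 1]] [[1, 0, 0,
  0, 1, 0, 0], [1, 1, 0, 0, 2, 1, 1], [2, 2, 2, 1, 3, 1, 1], [2, 2, 1, 1, 4, 1, 1], [3, 3, 2, 1,
  6, 2, 1], [2, 2, 2, 1, 4, 2, 1], [1, 1, 1, 1, 4, 1, 1]] _ _ 245554650526 655539513970 _ (by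
  decide +kernel) nd226 ok109

theorem nd228 : Ok 4 Dn4 [[1, 0, 0, 0, 1, 0, 0], [1, 1, 0, 0, 2, 1, 1], [2, 2, 2, 1, 3, 1, 1],
  [2, 2, 1, 1, 4, 1, 1], [3, 3, 2, 1, 5, 1, 1], [0, 0, 0, 0, 1, 1, 0], [1, 1, 1, 1, 4, 1, 1]]
  140187724148733 [90, 90, 114, 114, 36, 204, 210] 332077056536 :=
  cut4 4 5 1 1 1 _ [[1, 0, 0, 0, 1, 0, 0], [1, 1, 0, 0, 2, 1, 1], [2, 2, 2, 1, 3, 1, 1], [2, 2,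
  1, 1, 4, 1, 1], [3, 3, 2, 1, 6, 2, 1], [0, 0, 0, 0, 1, 1, 0], [1, 1, 1, 1, 4, 1, 1]] [[1, 0, 0,
  0, 1, 0, 0], [1, 1, 0, 0, 2, 1, 1], [2, 2, 2, 1, 3, 1, 1], [2, 2, 1, 1, 4, 1, 1], [3, 3, 2, 1,
  5, 1, 1], [3, 3, 2, 1, 6, 2, 1], [1, 1, 1, 1, 4, 1, 1]] _ _ 304123916733 555702174952 _ (by
  decide +kernel) nd227 ok110

theorem nd229 : Ok 4 Dn4 [[1, 0, 0, 0, 1, 0, 0], [1, 1, 0, 0, 2, 1, 1], [2, 2, 2, 1, 3, 1, 1],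
  [2, 2, 1, 1, 4, 1, 1], [3, 3, 2, 1, 5, 1, 1], [0, 0, 0, 0, 1, 1, 0], [1, 1, 1, 1, 4, 1, 1]]
  140187724148729 [90, 90, 114, 114, 36, 204, 210] 332077056536 :=
  dec4 0 2 0 _ _ 140187724148733 _ [90, 90, 114, 114, 36, 204, 210] _ (by decide +kernel) nd228

theorem nd230 : Ok 4 Dn4 [[1, 0, 0, 0, 1, 0, 0], [1, 1, 0, 0, 2, 1, 1], [2, 2, 2, 1, 3, 1, 1],
  [2, 2, 1, 1, 4, 1, 1], [1, 1, 0, 0, 2, 0, 0], [0, 0, 0, 0, 1, 1, 0], [1, 1, 1, 1, 4, 1, 1]]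
  140187724148729 [90, 90, 114, 114, 36, 204, 210] 106610873399 :=
  cut4 2 4 1 1 1 _ [[1, 0, 0, 0, 1, 0, 0], [1, 1, 0, 0, 2, 1, 1], [3, 3, 2, 1, 5, 1, 1], [2, 2,
  1, 1, 4, 1, 1], [1, 1, 0, 0, 2, 0, 0], [0, 0, 0, 0, 1, 1, 0], [1, 1, 1, 1, 4, 1, 1]] [[1, 0, 0,
  0, 1, 0, 0], [1, 1, 0, 0, 2, 1, 1], [2, 2, 2, 1, 3, 1, 1], [2, 2, 1, 1, 4, 1, 1], [3, 3, 2, 1,
  5, 1, 1], [0, 0, 0, 0, 1, 1, 0], [1, 1, 1, 1, 4, 1, 1]] _ _ 31455479019 332077056536 _ (by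
  decide +kernel) ok105 nd229

theorem nd231 : Ok 4 Dn4 [[1, 0, 0, 0, 1, 0, 0], [1, 1, 0, 0, 2, 1, 1], [2, 2, 2, 1, 3, 1, 1],
  [1, 1, 1, 1, 2, 0, 0], [1, 1, 0, 0, 2, 0, 0], [0, 0, 0, 0, 1, 1, 0], [1, 1, 1, 1, 4, 1, 1]]
  140187724148729 [90, 90, 114, 114, 36, 204, 210] 147467377450 :=
  cut4 1 3 1 1 1 _ [[1, 0, 0, 0, 1, 0, 0], [2, 2, 1, 1, 4, 1, 1], [2, 2, 2, 1, 3, 1, 1], [1, 1,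
  1, 1, 2, 0, 0], [1, 1, 0, 0, 2, 0, 0], [0, 0, 0, 0, 1, 1, 0], [1, 1, 1, 1, 4, 1, 1]] [[1, 0, 0,
  0, 1, 0, 0], [1, 1, 0, 0, 2, 1, 1], [2, 2, 2, 1, 3, 1, 1], [2, 2, 1, 1, 4, 1, 1], [1, 1, 0, 0,
  2, 0, 0], [0, 0, 0, 0, 1, 1, 0], [1, 1, 1, 1, 4, 1, 1]] _ _ 188323881501 106610873399 _ (by
  decide +kernel) nd223 nd230

theorem nd232 : Ok 4 Dn4 [[1, 0, 0, 0, 1, 0, 0], [1, 1, 0, 0, 2, 1, 1], [2, 2, 2, 1, 3, 1, 1],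
  [1, 1, 1, 1, 2, 0, 0], [1, 1, 0, 0, 2, 0, 0], [0, 0, 0, 0, 1, 1, 0], [1, 1, 1, 1, 4, 1, 1]]
  140185576665081 [89, 89, 113, 113, 29, 203, 203] 147467377450 :=
  dec4 1 15 1 _ _ 140187724148729 _ [90, 90, 114, 114, 36, 204, 210] _ (by decide +kernel) nd231

theorem nd233 : Ok 4 Dn4 [[1, 0, 0, 0, 1, 0, 0], [1, 1, 0, 0, 2, 1, 1], [2, 2, 2, 1, 3, 1, 1],
  [1, 1, 1, 1, 2, 0, 0], [1, 1, 0, 0, 2, 0, 0], [0, 0, 0, 0, 1, 1, 0], [0, 0, 0, 0, 2, 1, 1]]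
  140185576665081 [89, 89, 113, 113, 29, 203, 203] 85985058128 :=
  cut4 3 6 1 1 1 _ [[1, 0, 0, 0, 1, 0, 0], [1, 1, 0, 0, 2, 1, 1], [2, 2, 2, 1, 3, 1, 1], [1, 1,
  1, 1, 4, 1, 1], [1, 1, 0, 0, 2, 0, 0], [0, 0, 0, 0, 1, 1, 0], [0, 0, 0, 0, 2, 1, 1]] [[1, 0, 0,
  0, 1, 0, 0], [1, 1, 0, 0, 2, 1, 1], [2, 2, 2, 1, 3, 1, 1], [1, 1, 1, 1, 2, 0, 0], [1, 1, 0, 0,
  2, 0, 0], [0, 0, 0, 0, 1, 1, 0], [1, 1, 1, 1, 4, 1, 1]] _ _ 44996845246 147467377450 _ (by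
  decide +kernel) nd213 nd232

theorem nd234 : Ok 4 Dn4 [[1, 0, 0, 0, 1, 0, 0], [1, 1, 0, 0, 2, 1, 1], [2, 2, 2, 1, 3, 1, 1],
  [1, 1, 1, 1, 2, 0, 0], [1, 1, 0, 0, 2, 0, 0], [0, 0, 0, 0, 1, 1, 0], [0, 0, 0, 0, 2, 1, 1]]
  140185576664057 [61, 85, 85, 109, 25, 175, 175] 85985058128 :=
  dec4 0 10 1 _ _ 140185576665081 _ [89, 89, 113, 113, 29, 203, 203] _ (by decide +kernel) nd233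

theorem nd235 : Ok 4 Dn4 [[1, 0, 0, 0, 1, 0, 0], [1, 1, 0, 0, 2, 1, 1], [2, 2, 2, 1, 3, 1, 1],
  [1, 1, 1, 1, 2, 0, 0], [1, 1, 0, 0, 2, 0, 0], [0, 0, 0, 0, 1, 1, 0], [0, 0, 0, 0, 2, 1, 1]]
  140185576663545 [57, 57, 57, 105, 21, 147, 147] 85985058128 :=
  dec4 0 9 1 _ _ 140185576664057 _ [61, 85, 85, 109, 25, 175, 175] _ (by decide +kernel) nd234

theorem nd236 : Ok 4 Dn4 [[1, 0, 0, 0, 1, 0, 0], [1, 1, 0, 0, 2, 1, 1], [1, 1, 1, 0, 1, 1, 1],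
  [2, 2, 2, 1, 3, 1, 1], [1, 1, 0, 0, 2, 0, 0], [0, 0, 0, 0, 1, 1, 0], [0, 0, 0, 0, 2, 1, 1]]
  140185576667641 [57, 57, 57, 105, 21, 147, 147] 51531649802 :=
  cut4 2 4 1 1 1 _ [[1, 0, 0, 0, 1, 0, 0], [1, 1, 0, 0, 2, 1, 1], [2, 2, 1, 0, 3, 1, 1], [2, 2,
  2, 1, 3, 1, 1], [1, 1, 0, 0, 2, 0, 0], [0, 0, 0, 0, 1, 1, 0], [0, 0, 0, 0, 2, 1, 1]] [[1, 0, 0,
  0, 1, 0, 0], [1, 1, 0, 0, 2, 1, 1], [1, 1, 1, 0, 1, 1, 1], [2, 2, 2, 1, 3, 1, 1], [2, 2, 1, 0,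
  3, 1, 1], [0, 0, 0, 0, 1, 1, 0], [0, 0, 0, 0, 2, 1, 1]] _ _ 24985639809 91350664791 _ (by
  decide +kernel) ok111 ok112

theorem nd237 : Ok 4 Dn4 [[1, 0, 0, 0, 1, 0, 0], [1, 1, 0, 0, 2, 1, 1], [1, 1, 1, 0, 1, 1, 1],
  [2, 2, 2, 1, 3, 1, 1], [1, 1, 0, 0, 2, 0, 0], [0, 0, 0, 0, 1, 1, 0], [0, 0, 0, 0, 2, 1, 1]]
  140185576663545 [57, 57, 57, 105, 21, 147, 147] 51531649802 :=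
  dec4 0 12 0 _ _ 140185576667641 _ [57, 57, 57, 105, 21, 147, 147] _ (by decide +kernel) nd236

theorem nd238 : Ok 4 Dn4 [[1, 0, 0, 0, 1, 0, 0], [1, 1, 0, 0, 2, 1, 1], [1, 1, 1, 0, 1, 1, 1],
  [1, 1, 1, 1, 2, 0, 0], [1, 1, 0, 0, 2, 0, 0], [0, 0, 0, 0, 1, 1, 0], [0, 0, 0, 0, 2, 1, 1]]
  140185576663545 [57, 57, 57, 105, 21, 147, 147] 68758353965 :=
  cut4 2 3 1 1 1 _ [[1, 0, 0, 0, 1, 0, 0], [1, 1, 0, 0, 2, 1, 1], [2, 2, 2, 1, 3, 1, 1], [1, 1,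
  1, 1, 2, 0, 0], [1, 1, 0, 0, 2, 0, 0], [0, 0, 0, 0, 1, 1, 0], [0, 0, 0, 0, 2, 1, 1]] [[1, 0, 0,
  0, 1, 0, 0], [1, 1, 0, 0, 2, 1, 1], [1, 1, 1, 0, 1, 1, 1], [2, 2, 2, 1, 3, 1, 1], [1, 1, 0, 0,
  2, 0, 0], [0, 0, 0, 0, 1, 1, 0], [0, 0, 0, 0, 2, 1, 1]] _ _ 85985058128 51531649802 _ (by
  decide +kernel) nd235 nd237

theorem nd239 : Ok 4 Dn4 [[1, 0, 0, 0, 1, 0, 0], [1, 1, 0, 0, 2, 1, 1], [1, 1, 1, 0, 1, 1, 1],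
  [1, 1, 1, 1, 2, 0, 0], [1, 1, 0, 0, 2, 0, 0], [0, 0, 0, 0, 1, 1, 0], [0, 0, 0, 0, 2, 1, 1]]
  131389483641337 [57, 57, 57, 105, 21, 147, 147] 68758353965 :=
  dec4 2 11 0 _ _ 140185576663545 _ [57, 57, 57, 105, 21, 147, 147] _ (by decide +kernel) nd238

theorem nd240 : Ok 4 Dn4 [[1, 0, 0, 0, 1, 0, 0], [1, 1, 0, 0, 2, 1, 1], [1, 1, 1, 0, 1, 1, 1],
  [1, 1, 1, 1, 2, 0, 0], [1, 1, 0, 0, 2, 0, 0], [0, 0, 0, 0, 1, 1, 0], [0, 0, 0, 0, 2, 1, 1]]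
  131355123902969 [57, 57, 57, 105, 21, 147, 147] 68758353965 :=
  dec4 2 3 0 _ _ 131389483641337 _ [57, 57, 57, 105, 21, 147, 147] _ (by decide +kernel) nd239

theorem nd241 : Ok 4 Dn4 [[1, 0, 0, 0, 1, 0, 0], [1, 1, 0, 0, 2, 1, 1], [1, 1, 1, 0, 1, 1, 1],
  [1, 1, 1, 1, 2, 0, 0], [1, 1, 0, 0, 2, 0, 0], [0, 0, 0, 0, 1, 1, 0], [0, 0, 0, 0, 2, 1, 1]]
  131354989685241 [57, 57, 57, 105, 21, 147, 147] 68758353965 :=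
  dec4 1 11 0 _ _ 131355123902969 _ [57, 57, 57, 105, 21, 147, 147] _ (by decide +kernel) nd240

theorem nd242 : Ok 4 Dn4 [[1, 0, 0, 0, 1, 0, 0], [1, 1, 0, 0, 2, 1, 1], [1, 1, 1, 0, 1, 1, 1],
  [1, 1, 1, 1, 2, 0, 0], [1, 1, 0, 0, 2, 0, 0], [0, 0, 0, 0, 1, 1, 0], [0, 0, 0, 0, 2, 1, 1]]
  131354989160953 [57, 57, 57, 105, 21, 147, 147] 68758353965 :=
  dec4 1 3 0 _ _ 131354989685241 _ [57, 57, 57, 105, 21, 147, 147] _ (by decide +kernel) nd241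

end Pool.Agent.Work.MP_122e00_nt.Sharp.Cx

end

section

set_option autoImplicit false

set_option maxRecDepth 100000

/-!
# The certificate: data
-/

namespace Pool.Agent.Work.MP_122e00_nt.Sharp.Cx

theorem ok113 : Ok 4 Dn4 [[1, 0, 0, 0, 1, 0, 0], [2, 2, 1, 1, 3, 1, 0], [3, 3, 2, 1, 5, 1, 1],
  [2, 2, 1, 1, 4, 1, 1], [1, 1, 0, 0, 2, 0, 0], [0, 0, 0, 0, 1, 1, 0], [1, 1, 0, 0, 2, 1, 1]]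
  140187732541433 [94, 94, 130, 130, 64, 208, 238] 21222265981 :=
  run4 tr113 _ _ _ _ dt113

theorem ok114 : Ok 4 Dn4 [[1, 0, 0, 0, 1, 0, 0], [2, 2, 1, 1, 3, 1, 0], [2, 2, 2, 1, 3, 1, 1],
  [2, 2, 1, 1, 4, 1, 1], [3, 3, 2, 1, 5, 1, 1], [0, 0, 0, 0, 1, 1, 0], [1, 1, 0, 0, 2, 1, 1]]
  140187732541433 [94, 94, 130, 130, 64, 208, 238] 315424527639 :=
  run4 tr114 _ _ _ _ dt114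

theorem ok115 : Ok 4 Dn4 [[1, 0, 0, 0, 1, 0, 0], [2, 2, 1, 1, 3, 1, 0], [3, 3, 2, 1, 5, 1, 1],
  [1, 1, 1, 1, 3, 1, 0], [1, 1, 0, 0, 2, 0, 0], [0, 0, 0, 0, 1, 1, 0], [2, 2, 1, 1, 4, 1, 1]]
  140187732541433 [122, 122, 134, 134, 68, 236, 266] 8243395179 :=
  run4 tr115 _ _ _ _ dt115

theorem ok116 : Ok 4 Dn4 [[1, 0, 0, 0, 1, 0, 0], [2, 2, 1, 1, 3, 1, 0], [2, 2, 2, 1, 3, 1, 1],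
  [1, 1, 1, 1, 3, 1, 0], [3, 3, 2, 1, 6, 2, 1], [0, 0, 0, 0, 1, 1, 0], [2, 2, 1, 1, 4, 1, 1]]
  140187732541437 [122, 122, 134, 134, 68, 236, 266] 251210922099 :=
  run4 tr116 _ _ _ _ dt116

theorem ok117 : Ok 4 Dn4 [[1, 0, 0, 0, 1, 0, 0], [2, 2, 1, 1, 3, 1, 0], [2, 2, 2, 1, 3, 1, 1],
  [1, 1, 1, 1, 3, 1, 0], [3, 3, 2, 1, 5, 1, 1], [3, 3, 2, 1, 6, 2, 1], [2, 2, 1, 1, 4, 1, 1]]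
  140187732541437 [122, 122, 134, 134, 68, 236, 266] 426849053871 :=
  run4 tr117 _ _ _ _ dt117

theorem ok118 : Ok 4 Dn4 [[1, 0, 0, 0, 1, 0, 0], [2, 2, 1, 1, 3, 1, 0], [2, 2, 2, 1, 3, 1, 1],
  [1, 1, 1, 1, 2, 0, 0], [1, 1, 0, 0, 2, 0, 0], [1, 1, 1, 1, 3, 1, 0], [2, 2, 1, 1, 4, 1, 1]]
  140187732541433 [122, 122, 134, 134, 68, 236, 266] 148799008048 :=
  run4 tr118 _ _ _ _ dt118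

theorem ok119 : Ok 4 Dn4 [[1, 0, 0, 0, 1, 0, 0], [1, 1, 0, 0, 1, 1, 0], [3, 3, 2, 1, 5, 1, 1],
  [2, 2, 1, 1, 3, 1, 0], [1, 1, 0, 0, 2, 0, 0], [0, 0, 0, 0, 1, 1, 0], [1, 1, 0, 0, 2, 1, 1]]
  140187732017145 [94, 94, 130, 130, 64, 208, 238] 5901692415 :=
  run4 tr119 _ _ _ _ dt119

theorem ok120 : Ok 4 Dn4 [[1, 0, 0, 0, 1, 0, 0], [1, 1, 0, 0, 1, 1, 0], [2, 2, 2, 1, 4, 2, 1],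
  [3, 3, 1, 1, 6, 3, 1], [3, 3, 2, 1, 6, 2, 1], [0, 0, 0, 0, 1, 1, 0], [1, 1, 0, 0, 2, 1, 1]]
  140737487831037 [94, 94, 130, 130, 64, 208, 238] 59190245836 :=
  run4 tr120 _ _ _ _ dt120

theorem ok121 : Ok 4 Dn4 [[1, 0, 0, 0, 1, 0, 0], [4, 4, 2, 1, 7, 3, 1], [2, 2, 2, 1, 4, 2, 1],
  [2, 2, 1, 1, 4, 2, 0], [3, 3, 2, 1, 6, 2, 1], [0, 0, 0, 0, 1, 1, 0], [3, 3, 1, 1, 6, 3, 1]]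
  140737487831037 [94, 94, 130, 130, 64, 208, 238] 199319810489 :=
  run4 tr121 _ _ _ _ dt121

theorem ok122 : Ok 4 Dn4 [[1, 0, 0, 0, 1, 0, 0], [1, 1, 0, 0, 1, 1, 0], [2, 2, 2, 1, 4, 2, 1],
  [2, 2, 1, 1, 4, 2, 0], [4, 4, 2, 1, 7, 3, 1], [0, 0, 0, 0, 1, 1, 0], [3, 3, 1, 1, 6, 3, 1]]
  140737487831037 [94, 94, 130, 130, 64, 208, 238] 88380957372 :=
  run4 tr122 _ _ _ _ dt122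

theorem ok123 : Ok 4 Dn4 [[1, 0, 0, 0, 1, 0, 0], [1, 1, 0, 0, 1, 1, 0], [2, 2, 2, 1, 4, 2, 1],
  [2, 2, 1, 1, 3, 1, 0], [3, 3, 2, 1, 6, 2, 1], [2, 2, 1, 1, 4, 2, 0], [1, 1, 0, 0, 2, 1, 1]]
  140737487831037 [94, 94, 130, 130, 64, 208, 238] 231581546541 :=
  run4 tr123 _ _ _ _ dt123

theorem ok124 : Ok 4 Dn4 [[1, 0, 0, 0, 1, 0, 0], [1, 1, 0, 0, 1, 1, 0], [2, 2, 2, 1, 3, 1, 1],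
  [2, 2, 1, 1, 3, 1, 0], [3, 3, 2, 1, 6, 2, 1], [2, 2, 2, 1, 4, 2, 1], [1, 1, 0, 0, 2, 1, 1]]
  140187732017149 [94, 94, 130, 130, 64, 208, 238] 289638916858 :=
  run4 tr124 _ _ _ _ dt124

theorem ok125 : Ok 4 Dn4 [[1, 0, 0, 0, 1, 0, 0], [1, 1, 0, 0, 1, 1, 0], [2, 2, 2, 1, 3, 1, 1],
  [2, 2, 1, 1, 3, 1, 0], [3, 3, 2, 1, 5, 1, 1], [3, 3, 2, 1, 6, 2, 1], [1, 1, 0, 0, 2, 1, 1]]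
  140187732017149 [94, 94, 130, 130, 64, 208, 238] 259556886012 :=
  run4 tr125 _ _ _ _ dt125

theorem ok126 : Ok 4 Dn4 [[1, 0, 0, 0, 1, 0, 0], [1, 1, 0, 0, 0, 0, 0], [3, 3, 2, 1, 5, 1, 1],
  [2, 2, 1, 1, 3, 1, 0], [1, 1, 0, 0, 2, 0, 0], [1, 1, 0, 0, 1, 1, 0], [1, 1, 0, 0, 2, 1, 1]]
  281440616447993 [99, 99, 147, 147, 99, 243, 243] 36489567390 :=
  run4 tr126 _ _ _ _ dt126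

theorem ok127 : Ok 4 Dn4 [[1, 0, 0, 0, 1, 0, 0], [1, 1, 0, 0, 0, 0, 0], [2, 2, 2, 1, 3, 1, 1],
  [2, 2, 1, 1, 3, 1, 0], [3, 3, 2, 1, 5, 1, 1], [1, 1, 0, 0, 1, 1, 0], [1, 1, 0, 0, 2, 1, 1]]
  281440616447993 [99, 99, 147, 147, 99, 243, 243] 106540739521 :=
  run4 tr127 _ _ _ _ dt127

theorem ok128 : Ok 4 Dn4 [[1, 0, 0, 0, 1, 0, 0], [2, 2, 1, 1, 2, 0, 0], [2, 2, 2, 1, 3, 1, 1],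
  [1, 1, 1, 1, 2, 0, 0], [1, 1, 0, 0, 2, 0, 0], [2, 2, 1, 1, 3, 1, 0], [1, 1, 0, 0, 2, 1, 1]]
  281440616443897 [99, 99, 147, 147, 99, 243, 243] 116760072745 :=
  run4 tr128 _ _ _ _ dt128

theorem ok129 : Ok 4 Dn4 [[1, 0, 0, 0, 1, 0, 0], [1, 1, 0, 0, 0, 0, 0], [2, 2, 2, 1, 3, 1, 1],
  [3, 3, 1, 1, 4, 1, 1], [1, 1, 0, 0, 2, 0, 0], [2, 2, 1, 1, 3, 1, 0], [1, 1, 0, 0, 2, 1, 1]]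
  281440616447993 [99, 99, 147, 147, 99, 243, 243] 93786691452 :=
  run4 tr129 _ _ _ _ dt129

theorem ok130 : Ok 4 Dn4 [[1, 0, 0, 0, 1, 0, 0], [1, 1, 0, 0, 0, 0, 0], [2, 2, 2, 1, 3, 1, 1],
  [2, 2, 1, 1, 2, 0, 0], [1, 1, 0, 0, 2, 0, 0], [2, 2, 1, 1, 3, 1, 0], [3, 3, 1, 1, 4, 1, 1]]
  281440616447993 [99, 99, 147, 147, 99, 243, 243] 134721203223 :=
  run4 tr130 _ _ _ _ dt130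

theorem ok131 : Ok 4 Dn4 [[1, 0, 0, 0, 1, 0, 0], [1, 1, 0, 0, 1, 1, 0], [2, 2, 1, 0, 3, 1, 1],
  [2, 2, 2, 1, 3, 1, 1], [1, 1, 0, 0, 2, 0, 0], [0, 0, 0, 0, 1, 1, 0], [1, 1, 0, 0, 2, 1, 1]]
  140187732015609 [62, 62, 74, 122, 56, 152, 182] 17510783082 :=
  run4 tr131 _ _ _ _ dt131

theorem ok132 : Ok 4 Dn4 [[1, 0, 0, 0, 1, 0, 0], [1, 1, 0, 0, 1, 1, 0], [1, 1, 1, 0, 1, 1, 1],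
  [2, 2, 2, 1, 3, 1, 1], [2, 2, 1, 0, 3, 1, 1], [0, 0, 0, 0, 1, 1, 0], [1, 1, 0, 0, 2, 1, 1]]
  140187732015609 [62, 62, 74, 122, 56, 152, 182] 89877448695 :=
  run4 tr132 _ _ _ _ dt132

theorem ok133 : Ok 4 Dn4 [[1, 0, 0, 0, 1, 0, 0], [1, 1, 0, 0, 0, 0, 0], [1, 1, 1, 0, 1, 1, 1],
  [2, 2, 2, 1, 3, 1, 1], [1, 1, 0, 0, 2, 0, 0], [1, 1, 0, 0, 1, 1, 0], [1, 1, 0, 0, 2, 1, 1]]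
  131357279255033 [62, 62, 74, 122, 56, 152, 182] 86480741765 :=
  run4 tr133 _ _ _ _ dt133

theorem nd243 : Ok 4 Dn4 [[1, 0, 0, 0, 1, 0, 0], [2, 2, 1, 1, 3, 1, 0], [2, 2, 2, 1, 3, 1, 1],
  [2, 2, 1, 1, 4, 1, 1], [1, 1, 0, 0, 2, 0, 0], [0, 0, 0, 0, 1, 1, 0], [1, 1, 0, 0, 2, 1, 1]]
  140187732541433 [94, 94, 130, 130, 64, 208, 238] 94772831396 :=
  cut4 2 4 1 1 1 _ [[1, 0, 0, 0, 1, 0, 0], [2, 2, 1, 1, 3, 1, 0], [3, 3, 2, 1, 5, 1, 1], [2, 2,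
  1, 1, 4, 1, 1], [1, 1, 0, 0, 2, 0, 0], [0, 0, 0, 0, 1, 1, 0], [1, 1, 0, 0, 2, 1, 1]] [[1, 0, 0,
  0, 1, 0, 0], [2, 2, 1, 1, 3, 1, 0], [2, 2, 2, 1, 3, 1, 1], [2, 2, 1, 1, 4, 1, 1], [3, 3, 2, 1,
  5, 1, 1], [0, 0, 0, 0, 1, 1, 0], [1, 1, 0, 0, 2, 1, 1]] _ _ 21222265981 315424527639 _ (by
  decide +kernel) ok113 ok114

theorem nd244 : Ok 4 Dn4 [[1, 0, 0, 0, 1, 0, 0], [2, 2, 1, 1, 3, 1, 0], [2, 2, 2, 1, 3, 1, 1],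
  [2, 2, 1, 1, 4, 1, 1], [1, 1, 0, 0, 2, 0, 0], [0, 0, 0, 0, 1, 1, 0], [1, 1, 0, 0, 2, 1, 1]]
  140187732537337 [94, 94, 130, 130, 64, 208, 238] 94772831396 :=
  dec4 0 12 0 _ _ 140187732541433 _ [94, 94, 130, 130, 64, 208, 238] _ (by decide +kernel) nd243

theorem nd245 : Ok 4 Dn4 [[1, 0, 0, 0, 1, 0, 0], [2, 2, 1, 1, 3, 1, 0], [2, 2, 2, 1, 3, 1, 1],
  [1, 1, 1, 1, 3, 1, 0], [3, 3, 2, 1, 5, 1, 1], [0, 0, 0, 0, 1, 1, 0], [2, 2, 1, 1, 4, 1, 1]]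
  140187732541437 [122, 122, 134, 134, 68, 236, 266] 270726270074 :=
  cut4 4 5 1 1 1 _ [[1, 0, 0, 0, 1, 0, 0], [2, 2, 1, 1, 3, 1, 0], [2, 2, 2, 1, 3, 1, 1], [1, 1,
  1, 1, 3, 1, 0], [3, 3, 2, 1, 6, 2, 1], [0, 0, 0, 0, 1, 1, 0], [2, 2, 1, 1, 4, 1, 1]] [[1, 0, 0,
  0, 1, 0, 0], [2, 2, 1, 1, 3, 1, 0], [2, 2, 2, 1, 3, 1, 1], [1, 1, 1, 1, 3, 1, 0], [3, 3, 2, 1,
  5, 1, 1], [3, 3, 2, 1, 6, 2, 1], [2, 2, 1, 1, 4, 1, 1]] _ _ 251210922099 426849053871 _ (by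
  decide +kernel) ok116 ok117

theorem nd246 : Ok 4 Dn4 [[1, 0, 0, 0, 1, 0, 0], [2, 2, 1, 1, 3, 1, 0], [2, 2, 2, 1, 3, 1, 1],
  [1, 1, 1, 1, 3, 1, 0], [3, 3, 2, 1, 5, 1, 1], [0, 0, 0, 0, 1, 1, 0], [2, 2, 1, 1, 4, 1, 1]]
  140187732541433 [122, 122, 134, 134, 68, 236, 266] 270726270074 :=
  dec4 0 2 0 _ _ 140187732541437 _ [122, 122, 134, 134, 68, 236, 266] _ (by decide +kernel) nd245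

theorem nd247 : Ok 4 Dn4 [[1, 0, 0, 0, 1, 0, 0], [2, 2, 1, 1, 3, 1, 0], [2, 2, 2, 1, 3, 1, 1],
  [1, 1, 1, 1, 3, 1, 0], [1, 1, 0, 0, 2, 0, 0], [0, 0, 0, 0, 1, 1, 0], [2, 2, 1, 1, 4, 1, 1]]
  140187732541433 [122, 122, 134, 134, 68, 236, 266] 73864113903 :=
  cut4 2 4 1 1 1 _ [[1, 0, 0, 0, 1, 0, 0], [2, 2, 1, 1, 3, 1, 0], [3, 3, 2, 1, 5, 1, 1], [1, 1,
  1, 1, 3, 1, 0], [1, 1, 0, 0, 2, 0, 0], [0, 0, 0, 0, 1, 1, 0], [2, 2, 1, 1, 4, 1, 1]] [[1, 0, 0,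
  0, 1, 0, 0], [2, 2, 1, 1, 3, 1, 0], [2, 2, 2, 1, 3, 1, 1], [1, 1, 1, 1, 3, 1, 0], [3, 3, 2, 1,
  5, 1, 1], [0, 0, 0, 0, 1, 1, 0], [2, 2, 1, 1, 4, 1, 1]] _ _ 8243395179 270726270074 _ (by
  decide +kernel) ok115 nd246

theorem nd248 : Ok 4 Dn4 [[1, 0, 0, 0, 1, 0, 0], [2, 2, 1, 1, 3, 1, 0], [2, 2, 2, 1, 3, 1, 1],
  [1, 1, 1, 1, 2, 0, 0], [1, 1, 0, 0, 2, 0, 0], [0, 0, 0, 0, 1, 1, 0], [2, 2, 1, 1, 4, 1, 1]]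
  140187732541433 [122, 122, 134, 134, 68, 236, 266] 92597837440 :=
  cut4 3 5 1 1 1 _ [[1, 0, 0, 0, 1, 0, 0], [2, 2, 1, 1, 3, 1, 0], [2, 2, 2, 1, 3, 1, 1], [1, 1,
  1, 1, 3, 1, 0], [1, 1, 0, 0, 2, 0, 0], [0, 0, 0, 0, 1, 1, 0], [2, 2, 1, 1, 4, 1, 1]] [[1, 0, 0,
  0, 1, 0, 0], [2, 2, 1, 1, 3, 1, 0], [2, 2, 2, 1, 3, 1, 1], [1, 1, 1, 1, 2, 0, 0], [1, 1, 0, 0,
  2, 0, 0], [1, 1, 1, 1, 3, 1, 0], [2, 2, 1, 1, 4, 1, 1]] _ _ 73864113903 148799008048 _ (by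
  decide +kernel) nd247 ok118

theorem nd249 : Ok 4 Dn4 [[1, 0, 0, 0, 1, 0, 0], [2, 2, 1, 1, 3, 1, 0], [2, 2, 2, 1, 3, 1, 1],
  [1, 1, 1, 1, 2, 0, 0], [1, 1, 0, 0, 2, 0, 0], [0, 0, 0, 0, 1, 1, 0], [2, 2, 1, 1, 4, 1, 1]]
  140187732537337 [94, 94, 130, 130, 64, 208, 238] 92597837440 :=
  dec4 0 12 1 _ _ 140187732541433 _ [122, 122, 134, 134, 68, 236, 266] _ (by decide +kernel) nd248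

theorem nd250 : Ok 4 Dn4 [[1, 0, 0, 0, 1, 0, 0], [2, 2, 1, 1, 3, 1, 0], [2, 2, 2, 1, 3, 1, 1],
  [1, 1, 1, 1, 2, 0, 0], [1, 1, 0, 0, 2, 0, 0], [0, 0, 0, 0, 1, 1, 0], [1, 1, 0, 0, 2, 1, 1]]
  140187732537337 [94, 94, 130, 130, 64, 208, 238] 93685334418 :=
  cut4 3 6 1 1 1 _ [[1, 0, 0, 0, 1, 0, 0], [2, 2, 1, 1, 3, 1, 0], [2, 2, 2, 1, 3, 1, 1], [2, 2,
  1, 1, 4, 1, 1], [1, 1, 0, 0, 2, 0, 0], [0, 0, 0, 0, 1, 1, 0], [1, 1, 0, 0, 2, 1, 1]] [[1, 0, 0,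
  0, 1, 0, 0], [2, 2, 1, 1, 3, 1, 0], [2, 2, 2, 1, 3, 1, 1], [1, 1, 1, 1, 2, 0, 0], [1, 1, 0, 0,
  2, 0, 0], [0, 0, 0, 0, 1, 1, 0], [2, 2, 1, 1, 4, 1, 1]] _ _ 94772831396 92597837440 _ (by
  decide +kernel) nd244 nd249

theorem nd251 : Ok 4 Dn4 [[1, 0, 0, 0, 1, 0, 0], [2, 2, 1, 1, 3, 1, 0], [2, 2, 2, 1, 3, 1, 1],
  [1, 1, 1, 1, 2, 0, 0], [1, 1, 0, 0, 2, 0, 0], [0, 0, 0, 0, 1, 1, 0], [1, 1, 0, 0, 2, 1, 1]]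
  140187732013049 [94, 94, 130, 130, 64, 208, 238] 93685334418 :=
  dec4 1 3 0 _ _ 140187732537337 _ [94, 94, 130, 130, 64, 208, 238] _ (by decide +kernel) nd250

theorem nd252 : Ok 4 Dn4 [[1, 0, 0, 0, 1, 0, 0], [1, 1, 0, 0, 1, 1, 0], [2, 2, 2, 1, 4, 2, 1],
  [2, 2, 1, 1, 4, 2, 0], [3, 3, 2, 1, 6, 2, 1], [0, 0, 0, 0, 1, 1, 0], [3, 3, 1, 1, 6, 3, 1]]
  140737487831037 [94, 94, 130, 130, 64, 208, 238] 108551657939 :=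
  cut4 1 4 1 1 1 _ [[1, 0, 0, 0, 1, 0, 0], [4, 4, 2, 1, 7, 3, 1], [2, 2, 2, 1, 4, 2, 1], [2, 2,
  1, 1, 4, 2, 0], [3, 3, 2, 1, 6, 2, 1], [0, 0, 0, 0, 1, 1, 0], [3, 3, 1, 1, 6, 3, 1]] [[1, 0, 0,
  0, 1, 0, 0], [1, 1, 0, 0, 1, 1, 0], [2, 2, 2, 1, 4, 2, 1], [2, 2, 1, 1, 4, 2, 0], [4, 4, 2, 1,
  7, 3, 1], [0, 0, 0, 0, 1, 1, 0], [3, 3, 1, 1, 6, 3, 1]] _ _ 199319810489 88380957372 _ (by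
  decide +kernel) ok121 ok122

theorem nd253 : Ok 4 Dn4 [[1, 0, 0, 0, 1, 0, 0], [1, 1, 0, 0, 1, 1, 0], [2, 2, 2, 1, 4, 2, 1],
  [2, 2, 1, 1, 4, 2, 0], [3, 3, 2, 1, 6, 2, 1], [0, 0, 0, 0, 1, 1, 0], [1, 1, 0, 0, 2, 1, 1]]
  140737487831037 [94, 94, 130, 130, 64, 208, 238] 75644049871 :=
  cut4 3 6 1 1 1 _ [[1, 0, 0, 0, 1, 0, 0], [1, 1, 0, 0, 1, 1, 0], [2, 2, 2, 1, 4, 2, 1], [3, 3,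
  1, 1, 6, 3, 1], [3, 3, 2, 1, 6, 2, 1], [0, 0, 0, 0, 1, 1, 0], [1, 1, 0, 0, 2, 1, 1]] [[1, 0, 0,
  0, 1, 0, 0], [1, 1, 0, 0, 1, 1, 0], [2, 2, 2, 1, 4, 2, 1], [2, 2, 1, 1, 4, 2, 0], [3, 3, 2, 1,
  6, 2, 1], [0, 0, 0, 0, 1, 1, 0], [3, 3, 1, 1, 6, 3, 1]] _ _ 59190245836 108551657939 _ (by
  decide +kernel) ok120 nd252

theorem nd254 : Ok 4 Dn4 [[1, 0, 0, 0, 1, 0, 0], [1, 1, 0, 0, 1, 1, 0], [2, 2, 2, 1, 4, 2, 1],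
  [2, 2, 1, 1, 3, 1, 0], [3, 3, 2, 1, 6, 2, 1], [0, 0, 0, 0, 1, 1, 0], [1, 1, 0, 0, 2, 1, 1]]
  140737487831037 [94, 94, 130, 130, 64, 208, 238] 101633632650 :=
  cut4 3 5 1 1 1 _ [[1, 0, 0, 0, 1, 0, 0], [1, 1, 0, 0, 1, 1, 0], [2, 2, 2, 1, 4, 2, 1], [2, 2,
  1, 1, 4, 2, 0], [3, 3, 2, 1, 6, 2, 1], [0, 0, 0, 0, 1, 1, 0], [1, 1, 0, 0, 2, 1, 1]] [[1, 0, 0,
  0, 1, 0, 0], [1, 1, 0, 0, 1, 1, 0], [2, 2, 2, 1, 4, 2, 1], [2, 2, 1, 1, 3, 1, 0], [3, 3, 2, 1,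
  6, 2, 1], [2, 2, 1, 1, 4, 2, 0], [1, 1, 0, 0, 2, 1, 1]] _ _ 75644049871 231581546541 _ (by
  decide +kernel) nd253 ok123

theorem nd255 : Ok 4 Dn4 [[1, 0, 0, 0, 1, 0, 0], [1, 1, 0, 0, 1, 1, 0], [2, 2, 2, 1, 4, 2, 1],
  [2, 2, 1, 1, 3, 1, 0], [3, 3, 2, 1, 6, 2, 1], [0, 0, 0, 0, 1, 1, 0], [1, 1, 0, 0, 2, 1, 1]]
  140187732017149 [94, 94, 130, 130, 64, 208, 238] 101633632650 :=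
  dec4 2 7 0 _ _ 140737487831037 _ [94, 94, 130, 130, 64, 208, 238] _ (by decide +kernel) nd254

theorem nd256 : Ok 4 Dn4 [[1, 0, 0, 0, 1, 0, 0], [1, 1, 0, 0, 1, 1, 0], [2, 2, 2, 1, 3, 1, 1],
  [2, 2, 1, 1, 3, 1, 0], [3, 3, 2, 1, 6, 2, 1], [0, 0, 0, 0, 1, 1, 0], [1, 1, 0, 0, 2, 1, 1]]
  140187732017149 [94, 94, 130, 130, 64, 208, 238] 128491530394 :=
  cut4 2 5 1 1 1 _ [[1, 0, 0, 0, 1, 0, 0], [1, 1, 0, 0, 1, 1, 0], [2, 2, 2, 1, 4, 2, 1], [2, 2,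
  1, 1, 3, 1, 0], [3, 3, 2, 1, 6, 2, 1], [0, 0, 0, 0, 1, 1, 0], [1, 1, 0, 0, 2, 1, 1]] [[1, 0, 0,
  0, 1, 0, 0], [1, 1, 0, 0, 1, 1, 0], [2, 2, 2, 1, 3, 1, 1], [2, 2, 1, 1, 3, 1, 0], [3, 3, 2, 1,
  6, 2, 1], [2, 2, 2, 1, 4, 2, 1], [1, 1, 0, 0, 2, 1, 1]] _ _ 101633632650 289638916858 _ (by
  decide +kernel) nd255 ok124

theorem nd257 : Ok 4 Dn4 [[1, 0, 0, 0, 1, 0, 0], [1, 1, 0, 0, 1, 1, 0], [2, 2, 2, 1, 3, 1, 1],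
  [2, 2, 1, 1, 3, 1, 0], [3, 3, 2, 1, 5, 1, 1], [0, 0, 0, 0, 1, 1, 0], [1, 1, 0, 0, 2, 1, 1]]
  140187732017149 [94, 94, 130, 130, 64, 208, 238] 143054347685 :=
  cut4 4 5 1 1 1 _ [[1, 0, 0, 0, 1, 0, 0], [1, 1, 0, 0, 1, 1, 0], [2, 2, 2, 1, 3, 1, 1], [2, 2,
  1, 1, 3, 1, 0], [3, 3, 2, 1, 6, 2, 1], [0, 0, 0, 0, 1, 1, 0], [1, 1, 0, 0, 2, 1, 1]] [[1, 0, 0,
  0, 1, 0, 0], [1, 1, 0, 0, 1, 1, 0], [2, 2, 2, 1, 3, 1, 1], [2, 2, 1, 1, 3, 1, 0], [3, 3, 2, 1,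
  5, 1, 1], [3, 3, 2, 1, 6, 2, 1], [1, 1, 0, 0, 2, 1, 1]] _ _ 128491530394 259556886012 _ (by
  decide +kernel) nd256 ok125

theorem nd258 : Ok 4 Dn4 [[1, 0, 0, 0, 1, 0, 0], [1, 1, 0, 0, 1, 1, 0], [2, 2, 2, 1, 3, 1, 1],
  [2, 2, 1, 1, 3, 1, 0], [3, 3, 2, 1, 5, 1, 1], [0, 0, 0, 0, 1, 1, 0], [1, 1, 0, 0, 2, 1, 1]]
  140187732017145 [94, 94, 130, 130, 64, 208, 238] 143054347685 :=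
  dec4 0 2 0 _ _ 140187732017149 _ [94, 94, 130, 130, 64, 208, 238] _ (by decide +kernel) nd257

theorem nd259 : Ok 4 Dn4 [[1, 0, 0, 0, 1, 0, 0], [1, 1, 0, 0, 1, 1, 0], [2, 2, 2, 1, 3, 1, 1],
  [2, 2, 1, 1, 3, 1, 0], [1, 1, 0, 0, 2, 0, 0], [0, 0, 0, 0, 1, 1, 0], [1, 1, 0, 0, 2, 1, 1]]
  140187732017145 [94, 94, 130, 130, 64, 208, 238] 40189856233 :=
  cut4 2 4 1 1 1 _ [[1, 0, 0, 0, 1, 0, 0], [1, 1, 0, 0, 1, 1, 0], [3, 3, 2, 1, 5, 1, 1], [2, 2,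
  1, 1, 3, 1, 0], [1, 1, 0, 0, 2, 0, 0], [0, 0, 0, 0, 1, 1, 0], [1, 1, 0, 0, 2, 1, 1]] [[1, 0, 0,
  0, 1, 0, 0], [1, 1, 0, 0, 1, 1, 0], [2, 2, 2, 1, 3, 1, 1], [2, 2, 1, 1, 3, 1, 0], [3, 3, 2, 1,
  5, 1, 1], [0, 0, 0, 0, 1, 1, 0], [1, 1, 0, 0, 2, 1, 1]] _ _ 5901692415 143054347685 _ (by
  decide +kernel) ok119 nd258

theorem nd260 : Ok 4 Dn4 [[1, 0, 0, 0, 1, 0, 0], [1, 1, 0, 0, 1, 1, 0], [2, 2, 2, 1, 3, 1, 1],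
  [2, 2, 1, 1, 3, 1, 0], [1, 1, 0, 0, 2, 0, 0], [0, 0, 0, 0, 1, 1, 0], [1, 1, 0, 0, 2, 1, 1]]
  140187732013049 [94, 94, 130, 130, 64, 208, 238] 40189856233 :=
  dec4 0 12 0 _ _ 140187732017145 _ [94, 94, 130, 130, 64, 208, 238] _ (by decide +kernel) nd259

theorem nd261 : Ok 4 Dn4 [[1, 0, 0, 0, 1, 0, 0], [1, 1, 0, 0, 1, 1, 0], [2, 2, 2, 1, 3, 1, 1],
  [1, 1, 1, 1, 2, 0, 0], [1, 1, 0, 0, 2, 0, 0], [0, 0, 0, 0, 1, 1, 0], [1, 1, 0, 0, 2, 1, 1]]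
  140187732013049 [94, 94, 130, 130, 64, 208, 238] 61588047507 :=
  cut4 1 3 1 1 1 _ [[1, 0, 0, 0, 1, 0, 0], [2, 2, 1, 1, 3, 1, 0], [2, 2, 2, 1, 3, 1, 1], [1, 1,
  1, 1, 2, 0, 0], [1, 1, 0, 0, 2, 0, 0], [0, 0, 0, 0, 1, 1, 0], [1, 1, 0, 0, 2, 1, 1]] [[1, 0, 0,
  0, 1, 0, 0], [1, 1, 0, 0, 1, 1, 0], [2, 2, 2, 1, 3, 1, 1], [2, 2, 1, 1, 3, 1, 0], [1, 1, 0, 0,
  2, 0, 0], [0, 0, 0, 0, 1, 1, 0], [1, 1, 0, 0, 2, 1, 1]] _ _ 93685334418 40189856233 _ (by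
  decide +kernel) nd251 nd260

theorem nd262 : Ok 4 Dn4 [[1, 0, 0, 0, 1, 0, 0], [1, 1, 0, 0, 1, 1, 0], [2, 2, 2, 1, 3, 1, 1],
  [1, 1, 1, 1, 2, 0, 0], [1, 1, 0, 0, 2, 0, 0], [0, 0, 0, 0, 1, 1, 0], [1, 1, 0, 0, 2, 1, 1]]
  131391638990841 [94, 94, 130, 130, 64, 208, 238] 61588047507 :=
  dec4 2 11 0 _ _ 140187732013049 _ [94, 94, 130, 130, 64, 208, 238] _ (by decide +kernel) nd261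

theorem nd263 : Ok 4 Dn4 [[1, 0, 0, 0, 1, 0, 0], [1, 1, 0, 0, 1, 1, 0], [2, 2, 2, 1, 3, 1, 1],
  [1, 1, 1, 1, 2, 0, 0], [1, 1, 0, 0, 2, 0, 0], [0, 0, 0, 0, 1, 1, 0], [1, 1, 0, 0, 2, 1, 1]]
  131357279252473 [94, 94, 130, 130, 64, 208, 238] 61588047507 :=
  dec4 2 3 0 _ _ 131391638990841 _ [94, 94, 130, 130, 64, 208, 238] _ (by decide +kernel) nd262

theorem nd264 : Ok 4 Dn4 [[1, 0, 0, 0, 1, 0, 0], [1, 1, 0, 0, 0, 0, 0], [2, 2, 2, 1, 3, 1, 1],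
  [2, 2, 1, 1, 3, 1, 0], [1, 1, 0, 0, 2, 0, 0], [1, 1, 0, 0, 1, 1, 0], [1, 1, 0, 0, 2, 1, 1]]
  281440616447993 [99, 99, 147, 147, 99, 243, 243] 54002360423 :=
  cut4 2 4 1 1 1 _ [[1, 0, 0, 0, 1, 0, 0], [1, 1, 0, 0, 0, 0, 0], [3, 3, 2, 1, 5, 1, 1], [2, 2,
  1, 1, 3, 1, 0], [1, 1, 0, 0, 2, 0, 0], [1, 1, 0, 0, 1, 1, 0], [1, 1, 0, 0, 2, 1, 1]] [[1, 0, 0,
  0, 1, 0, 0], [1, 1, 0, 0, 0, 0, 0], [2, 2, 2, 1, 3, 1, 1], [2, 2, 1, 1, 3, 1, 0], [3, 3, 2, 1,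
  5, 1, 1], [1, 1, 0, 0, 1, 1, 0], [1, 1, 0, 0, 2, 1, 1]] _ _ 36489567390 106540739521 _ (by
  decide +kernel) ok126 ok127

theorem nd265 : Ok 4 Dn4 [[1, 0, 0, 0, 1, 0, 0], [1, 1, 0, 0, 0, 0, 0], [2, 2, 2, 1, 3, 1, 1],
  [2, 2, 1, 1, 3, 1, 0], [1, 1, 0, 0, 2, 0, 0], [1, 1, 0, 0, 1, 1, 0], [1, 1, 0, 0, 2, 1, 1]]
  281440616443897 [99, 99, 147, 147, 99, 243, 243] 54002360423 :=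
  dec4 0 12 0 _ _ 281440616447993 _ [99, 99, 147, 147, 99, 243, 243] _ (by decide +kernel) nd264

theorem nd266 : Ok 4 Dn4 [[1, 0, 0, 0, 1, 0, 0], [1, 1, 0, 0, 0, 0, 0], [2, 2, 2, 1, 3, 1, 1],
  [2, 2, 1, 1, 2, 0, 0], [1, 1, 0, 0, 2, 0, 0], [2, 2, 1, 1, 3, 1, 0], [1, 1, 0, 0, 2, 1, 1]]
  281440616447993 [99, 99, 147, 147, 99, 243, 243] 111330053640 :=
  cut4 3 6 1 1 1 _ [[1, 0, 0, 0, 1, 0, 0], [1, 1, 0, 0, 0, 0, 0], [2, 2, 2, 1, 3, 1, 1], [3, 3,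
  1, 1, 4, 1, 1], [1, 1, 0, 0, 2, 0, 0], [2, 2, 1, 1, 3, 1, 0], [1, 1, 0, 0, 2, 1, 1]] [[1, 0, 0,
  0, 1, 0, 0], [1, 1, 0, 0, 0, 0, 0], [2, 2, 2, 1, 3, 1, 1], [2, 2, 1, 1, 2, 0, 0], [1, 1, 0, 0,
  2, 0, 0], [2, 2, 1, 1, 3, 1, 0], [3, 3, 1, 1, 4, 1, 1]] _ _ 93786691452 134721203223 _ (by
  decide +kernel) ok129 ok130

theorem nd267 : Ok 4 Dn4 [[1, 0, 0, 0, 1, 0, 0], [1, 1, 0, 0, 0, 0, 0], [2, 2, 2, 1, 3, 1, 1],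
  [2, 2, 1, 1, 2, 0, 0], [1, 1, 0, 0, 2, 0, 0], [2, 2, 1, 1, 3, 1, 0], [1, 1, 0, 0, 2, 1, 1]]
  281440616443897 [99, 99, 147, 147, 99, 243, 243] 111330053640 :=
  dec4 0 12 0 _ _ 281440616447993 _ [99, 99, 147, 147, 99, 243, 243] _ (by decide +kernel) nd266

theorem nd268 : Ok 4 Dn4 [[1, 0, 0, 0, 1, 0, 0], [1, 1, 0, 0, 0, 0, 0], [2, 2, 2, 1, 3, 1, 1],
  [1, 1, 1, 1, 2, 0, 0], [1, 1, 0, 0, 2, 0, 0], [2, 2, 1, 1, 3, 1, 0], [1, 1, 0, 0, 2, 1, 1]]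
  281440616443897 [99, 99, 147, 147, 99, 243, 243] 112687558417 :=
  cut4 1 3 1 1 1 _ [[1, 0, 0, 0, 1, 0, 0], [2, 2, 1, 1, 2, 0, 0], [2, 2, 2, 1, 3, 1, 1], [1, 1,
  1, 1, 2, 0, 0], [1, 1, 0, 0, 2, 0, 0], [2, 2, 1, 1, 3, 1, 0], [1, 1, 0, 0, 2, 1, 1]] [[1, 0, 0,
  0, 1, 0, 0], [1, 1, 0, 0, 0, 0, 0], [2, 2, 2, 1, 3, 1, 1], [2, 2, 1, 1, 2, 0, 0], [1, 1, 0, 0,
  2, 0, 0], [2, 2, 1, 1, 3, 1, 0], [1, 1, 0, 0, 2, 1, 1]] _ _ 116760072745 111330053640 _ (by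
  decide +kernel) ok128 nd267

theorem nd269 : Ok 4 Dn4 [[1, 0, 0, 0, 1, 0, 0], [1, 1, 0, 0, 0, 0, 0], [2, 2, 2, 1, 3, 1, 1],
  [1, 1, 1, 1, 2, 0, 0], [1, 1, 0, 0, 2, 0, 0], [1, 1, 0, 0, 1, 1, 0], [1, 1, 0, 0, 2, 1, 1]]
  281440616443897 [99, 99, 147, 147, 99, 243, 243] 77476439621 :=
  cut4 3 5 1 1 1 _ [[1, 0, 0, 0, 1, 0, 0], [1, 1, 0, 0, 0, 0, 0], [2, 2, 2, 1, 3, 1, 1], [2, 2,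
  1, 1, 3, 1, 0], [1, 1, 0, 0, 2, 0, 0], [1, 1, 0, 0, 1, 1, 0], [1, 1, 0, 0, 2, 1, 1]] [[1, 0, 0,
  0, 1, 0, 0], [1, 1, 0, 0, 0, 0, 0], [2, 2, 2, 1, 3, 1, 1], [1, 1, 1, 1, 2, 0, 0], [1, 1, 0, 0,
  2, 0, 0], [2, 2, 1, 1, 3, 1, 0], [1, 1, 0, 0, 2, 1, 1]] _ _ 54002360423 112687558417 _ (by
  decide +kernel) nd265 nd268

theorem nd270 : Ok 4 Dn4 [[1, 0, 0, 0, 1, 0, 0], [1, 1, 0, 0, 0, 0, 0], [2, 2, 2, 1, 3, 1, 1],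
  [1, 1, 1, 1, 2, 0, 0], [1, 1, 0, 0, 2, 0, 0], [1, 1, 0, 0, 1, 1, 0], [1, 1, 0, 0, 2, 1, 1]]
  140703128088569 [98, 98, 146, 146, 92, 236, 242] 77476439621 :=
  dec4 2 15 1 _ _ 281440616443897 _ [99, 99, 147, 147, 99, 243, 243] _ (by decide +kernel) nd269

theorem nd271 : Ok 4 Dn4 [[1, 0, 0, 0, 1, 0, 0], [1, 1, 0, 0, 0, 0, 0], [2, 2, 2, 1, 3, 1, 1],
  [1, 1, 1, 1, 2, 0, 0], [1, 1, 0, 0, 2, 0, 0], [1, 1, 0, 0, 1, 1, 0], [1, 1, 0, 0, 2, 1, 1]]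
  131907035066361 [96, 96, 132, 144, 78, 222, 240] 77476439621 :=
  dec4 2 11 1 _ _ 140703128088569 _ [98, 98, 146, 146, 92, 236, 242] _ (by decide +kernel) nd270

theorem nd272 : Ok 4 Dn4 [[1, 0, 0, 0, 1, 0, 0], [1, 1, 0, 0, 0, 0, 0], [2, 2, 2, 1, 3, 1, 1],
  [1, 1, 1, 1, 2, 0, 0], [1, 1, 0, 0, 2, 0, 0], [1, 1, 0, 0, 1, 1, 0], [1, 1, 0, 0, 2, 1, 1]]
  131357279252473 [94, 94, 130, 130, 64, 208, 238] 77476439621 :=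
  dec4 2 7 1 _ _ 131907035066361 _ [96, 96, 132, 144, 78, 222, 240] _ (by decide +kernel) nd271

theorem nd273 : Ok 4 Dn4 [[1, 0, 0, 0, 1, 0, 0], [1, 1, 0, 0, 0, 0, 0], [2, 2, 2, 1, 3, 1, 1],
  [1, 1, 1, 1, 2, 0, 0], [1, 1, 0, 0, 2, 0, 0], [0, 0, 0, 0, 1, 1, 0], [1, 1, 0, 0, 2, 1, 1]]
  131357279252473 [94, 94, 130, 130, 64, 208, 238] 69532243564 :=
  cut4 1 5 1 1 1 _ [[1, 0, 0, 0, 1, 0, 0], [1, 1, 0, 0, 1, 1, 0], [2, 2, 2, 1, 3, 1, 1], [1, 1,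
  1, 1, 2, 0, 0], [1, 1, 0, 0, 2, 0, 0], [0, 0, 0, 0, 1, 1, 0], [1, 1, 0, 0, 2, 1, 1]] [[1, 0, 0,
  0, 1, 0, 0], [1, 1, 0, 0, 0, 0, 0], [2, 2, 2, 1, 3, 1, 1], [1, 1, 1, 1, 2, 0, 0], [1, 1, 0, 0,
  2, 0, 0], [1, 1, 0, 0, 1, 1, 0], [1, 1, 0, 0, 2, 1, 1]] _ _ 61588047507 77476439621 _ (by
  decide +kernel) nd263 nd272

theorem nd274 : Ok 4 Dn4 [[1, 0, 0, 0, 1, 0, 0], [1, 1, 0, 0, 0, 0, 0], [2, 2, 2, 1, 3, 1, 1],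
  [1, 1, 1, 1, 2, 0, 0], [1, 1, 0, 0, 2, 0, 0], [0, 0, 0, 0, 1, 1, 0], [1, 1, 0, 0, 2, 1, 1]]
  131357279251449 [66, 90, 102, 126, 60, 180, 210] 69532243564 :=
  dec4 0 10 1 _ _ 131357279252473 _ [94, 94, 130, 130, 64, 208, 238] _ (by decide +kernel) nd273

theorem nd275 : Ok 4 Dn4 [[1, 0, 0, 0, 1, 0, 0], [1, 1, 0, 0, 0, 0, 0], [2, 2, 2, 1, 3, 1, 1],
  [1, 1, 1, 1, 2, 0, 0], [1, 1, 0, 0, 2, 0, 0], [0, 0, 0, 0, 1, 1, 0], [1, 1, 0, 0, 2, 1, 1]]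
  131357279250937 [62, 62, 74, 122, 56, 152, 182] 69532243564 :=
  dec4 0 9 1 _ _ 131357279251449 _ [66, 90, 102, 126, 60, 180, 210] _ (by decide +kernel) nd274

theorem nd276 : Ok 4 Dn4 [[1, 0, 0, 0, 1, 0, 0], [1, 1, 0, 0, 1, 1, 0], [1, 1, 1, 0, 1, 1, 1],
  [2, 2, 2, 1, 3, 1, 1], [1, 1, 0, 0, 2, 0, 0], [0, 0, 0, 0, 1, 1, 0], [1, 1, 0, 0, 2, 1, 1]]
  140187732015609 [62, 62, 74, 122, 56, 152, 182] 46457449328 :=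
  cut4 2 4 1 1 1 _ [[1, 0, 0, 0, 1, 0, 0], [1, 1, 0, 0, 1, 1, 0], [2, 2, 1, 0, 3, 1, 1], [2, 2,
  2, 1, 3, 1, 1], [1, 1, 0, 0, 2, 0, 0], [0, 0, 0, 0, 1, 1, 0], [1, 1, 0, 0, 2, 1, 1]] [[1, 0, 0,
  0, 1, 0, 0], [1, 1, 0, 0, 1, 1, 0], [1, 1, 1, 0, 1, 1, 1], [2, 2, 2, 1, 3, 1, 1], [2, 2, 1, 0,
  3, 1, 1], [0, 0, 0, 0, 1, 1, 0], [1, 1, 0, 0, 2, 1, 1]] _ _ 17510783082 89877448695 _ (by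
  decide +kernel) ok131 ok132

theorem nd277 : Ok 4 Dn4 [[1, 0, 0, 0, 1, 0, 0], [1, 1, 0, 0, 1, 1, 0], [1, 1, 1, 0, 1, 1, 1],
  [2, 2, 2, 1, 3, 1, 1], [1, 1, 0, 0, 2, 0, 0], [0, 0, 0, 0, 1, 1, 0], [1, 1, 0, 0, 2, 1, 1]]
  131391638993401 [62, 62, 74, 122, 56, 152, 182] 46457449328 :=
  dec4 2 11 0 _ _ 140187732015609 _ [62, 62, 74, 122, 56, 152, 182] _ (by decide +kernel) nd276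

theorem nd278 : Ok 4 Dn4 [[1, 0, 0, 0, 1, 0, 0], [1, 1, 0, 0, 1, 1, 0], [1, 1, 1, 0, 1, 1, 1],
  [2, 2, 2, 1, 3, 1, 1], [1, 1, 0, 0, 2, 0, 0], [0, 0, 0, 0, 1, 1, 0], [1, 1, 0, 0, 2, 1, 1]]
  131357279255033 [62, 62, 74, 122, 56, 152, 182] 46457449328 :=
  dec4 2 3 0 _ _ 131391638993401 _ [62, 62, 74, 122, 56, 152, 182] _ (by decide +kernel) nd277

theorem nd279 : Ok 4 Dn4 [[1, 0, 0, 0, 1, 0, 0], [1, 1, 0, 0, 0, 0, 0], [1, 1, 1, 0, 1, 1, 1],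
  [2, 2, 2, 1, 3, 1, 1], [1, 1, 0, 0, 2, 0, 0], [0, 0, 0, 0, 1, 1, 0], [1, 1, 0, 0, 2, 1, 1]]
  131357279255033 [62, 62, 74, 122, 56, 152, 182] 66469095547 :=
  cut4 1 5 1 1 1 _ [[1, 0, 0, 0, 1, 0, 0], [1, 1, 0, 0, 1, 1, 0], [1, 1, 1, 0, 1, 1, 1], [2, 2,
  2, 1, 3, 1, 1], [1, 1, 0, 0, 2, 0, 0], [0, 0, 0, 0, 1, 1, 0], [1, 1, 0, 0, 2, 1, 1]] [[1, 0, 0,
  0, 1, 0, 0], [1, 1, 0, 0, 0, 0, 0], [1, 1, 1, 0, 1, 1, 1], [2, 2, 2, 1, 3, 1, 1], [1, 1, 0, 0,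
  2, 0, 0], [1, 1, 0, 0, 1, 1, 0], [1, 1, 0, 0, 2, 1, 1]] _ _ 46457449328 86480741765 _ (by
  decide +kernel) nd278 ok133

theorem nd280 : Ok 4 Dn4 [[1, 0, 0, 0, 1, 0, 0], [1, 1, 0, 0, 0, 0, 0], [1, 1, 1, 0, 1, 1, 1],
  [2, 2, 2, 1, 3, 1, 1], [1, 1, 0, 0, 2, 0, 0], [0, 0, 0, 0, 1, 1, 0], [1, 1, 0, 0, 2, 1, 1]]
  131357279250937 [62, 62, 74, 122, 56, 152, 182] 66469095547 :=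
  dec4 0 12 0 _ _ 131357279255033 _ [62, 62, 74, 122, 56, 152, 182] _ (by decide +kernel) nd279

theorem nd281 : Ok 4 Dn4 [[1, 0, 0, 0, 1, 0, 0], [1, 1, 0, 0, 0, 0, 0], [1, 1, 1, 0, 1, 1, 1],
  [1, 1, 1, 1, 2, 0, 0], [1, 1, 0, 0, 2, 0, 0], [0, 0, 0, 0, 1, 1, 0], [1, 1, 0, 0, 2, 1, 1]]
  131357279250937 [62, 62, 74, 122, 56, 152, 182] 68000669556 :=
  cut4 2 3 1 1 1 _ [[1, 0, 0, 0, 1, 0, 0], [1, 1, 0, 0, 0, 0, 0], [2, 2, 2, 1, 3, 1, 1], [1, 1,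
  1, 1, 2, 0, 0], [1, 1, 0, 0, 2, 0, 0], [0, 0, 0, 0, 1, 1, 0], [1, 1, 0, 0, 2, 1, 1]] [[1, 0, 0,
  0, 1, 0, 0], [1, 1, 0, 0, 0, 0, 0], [1, 1, 1, 0, 1, 1, 1], [2, 2, 2, 1, 3, 1, 1], [1, 1, 0, 0,
  2, 0, 0], [0, 0, 0, 0, 1, 1, 0], [1, 1, 0, 0, 2, 1, 1]] _ _ 69532243564 66469095547 _ (by
  decide +kernel) nd275 nd280

theorem nd282 : Ok 4 Dn4 [[1, 0, 0, 0, 1, 0, 0], [1, 1, 0, 0, 0, 0, 0], [1, 1, 1, 0, 1, 1, 1],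
  [1, 1, 1, 1, 2, 0, 0], [1, 1, 0, 0, 2, 0, 0], [0, 0, 0, 0, 1, 1, 0], [1, 1, 0, 0, 2, 1, 1]]
  131355131767289 [61, 61, 73, 121, 49, 151, 175] 68000669556 :=
  dec4 1 15 1 _ _ 131357279250937 _ [62, 62, 74, 122, 56, 152, 182] _ (by decide +kernel) nd281

theorem nd283 : Ok 4 Dn4 [[1, 0, 0, 0, 1, 0, 0], [1, 1, 0, 0, 0, 0, 0], [1, 1, 1, 0, 1, 1, 1],
  [1, 1, 1, 1, 2, 0, 0], [1, 1, 0, 0, 2, 0, 0], [0, 0, 0, 0, 1, 1, 0], [1, 1, 0, 0, 2, 1, 1]]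
  131354997549561 [59, 59, 59, 119, 35, 149, 161] 68000669556 :=
  dec4 1 11 1 _ _ 131355131767289 _ [61, 61, 73, 121, 49, 151, 175] _ (by decide +kernel) nd282

theorem nd284 : Ok 4 Dn4 [[1, 0, 0, 0, 1, 0, 0], [1, 1, 0, 0, 0, 0, 0], [1, 1, 1, 0, 1, 1, 1],
  [1, 1, 1, 1, 2, 0, 0], [1, 1, 0, 0, 2, 0, 0], [0, 0, 0, 0, 1, 1, 0], [1, 1, 0, 0, 2, 1, 1]]
  131354989160953 [57, 57, 57, 105, 21, 147, 147] 68000669556 :=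
  dec4 1 7 1 _ _ 131354997549561 _ [59, 59, 59, 119, 35, 149, 161] _ (by decide +kernel) nd283

end Pool.Agent.Work.MP_122e00_nt.Sharp.Cx

end
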