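import Pool.Agent.Work.MP_122e00_nt.Bdx.B09
import Pool.Agent.Work.MP_122e00_nt.Bd.B11
import Pool.Agent.Work.MP_122e00_nt.Bd.B12
import Pool.Agent.Work.MP_122e00_nt.Bd.B13
import Pool.Agent.Work.MP_122e00_nt.Bd.B14
import Pool.Agent.Work.MP_122e00_nt.Bd.B15
import Pool.Agent.Work.MP_122e00_nt.Bd.B16
import Pool.Agent.Work.MP_122e00_nt.Bd.B17
import Pool.Agent.Work.MP_122e00_nt.Bd.B18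
import Pool.Agent.Work.MP_122e00_nt.Bd.B19
import Pool.Agent.Work.MP_122e00_nt.Bd.B20
import Pool.Agent.Work.MP_122e00_nt.Bd.B21
import Pool.Agent.Work.MP_122e00_nt.Bd.B22
import Pool.Agent.Work.MP_122e00_nt.Bd.B23
import Pool.Agent.Work.MP_122e00_nt.Bd.B24
import Pool.Agent.Work.MP_122e00_nt.Bd.B25
import Pool.Agent.Work.MP_122e00_nt.Bd.B26
import Pool.Agent.Work.MP_122e00_nt.Bd.B27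

/-! Bundle of small proof modules (one section per former module). -/

section

set_option autoImplicit false

set_option maxRecDepth 100000

/-!
# The certificate: data
-/

namespace Pool.Agent.Work.MP_122e00_nt.Sharp.Cx

theorem ok134 : Ok 4 Dn4 [[1, 0, 0, 0, 1, 0, 0], [1, 1, 0, 0, 2, 1, 1], [2, 2, 2, 1, 7, 3, 3],
  [1, 1, 1, 1, 2, 1, 1], [1, 1, 1, 1, 4, 1, 1], [0, 0, 0, 0, 1, 1, 0], [0, 0, 0, 0, 2, 1, 1]]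
  140185576665085 [89, 89, 113, 113, 29, 203, 203] 186065623792 :=
  run4 tr134 _ _ _ _ dt134

theorem ok135 : Ok 4 Dn4 [[1, 0, 0, 0, 1, 0, 0], [1, 1, 0, 0, 2, 1, 1], [2, 2, 2, 1, 5, 2, 2],
  [1, 1, 1, 1, 2, 1, 1], [1, 1, 1, 1, 4, 1, 1], [0, 0, 0, 0, 1, 1, 0], [2, 2, 2, 1, 7, 3, 3]]
  140187724148733 [90, 90, 114, 114, 36, 204, 210] 393214882854 :=
  run4 tr135 _ _ _ _ dt135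

theorem ok136 : Ok 4 Dn4 [[2, 1, 1, 1, 3, 1, 1], [1, 1, 0, 0, 2, 1, 1], [2, 2, 2, 1, 4, 2, 1],
  [1, 1, 1, 1, 2, 1, 1], [1, 1, 1, 1, 4, 1, 1], [0, 0, 0, 0, 1, 1, 0], [2, 2, 2, 1, 5, 2, 2]]
  140737479962621 [90, 90, 114, 114, 36, 204, 210] 1215306392353 :=
  run4 tr136 _ _ _ _ dt136

theorem ok137 : Ok 4 Dn4 [[3, 2, 2, 1, 6, 2, 2], [1, 1, 0, 0, 2, 1, 1], [2, 2, 2, 1, 4, 2, 1],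
  [2, 1, 1, 1, 4, 2, 1], [1, 1, 1, 1, 4, 1, 1], [0, 0, 0, 0, 1, 1, 0], [2, 2, 2, 1, 5, 2, 2]]
  140737479962621 [90, 90, 114, 114, 36, 204, 210] 553940514224 :=
  run4 tr137 _ _ _ _ dt137

theorem ok138 : Ok 4 Dn4 [[1, 0, 0, 0, 1, 0, 0], [1, 1, 0, 0, 2, 1, 1], [2, 2, 2, 1, 4, 2, 1],
  [2, 1, 1, 1, 4, 2, 1], [1, 1, 1, 1, 4, 1, 1], [0, 0, 0, 0, 1, 1, 0], [3, 2, 2, 1, 6, 2, 2]]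
  140737479962621 [90, 90, 114, 114, 36, 204, 210] 200681169906 :=
  run4 tr138 _ _ _ _ dt138

theorem ok139 : Ok 4 Dn4 [[1, 0, 0, 0, 1, 0, 0], [1, 1, 0, 0, 2, 1, 1], [2, 2, 2, 1, 4, 2, 1],
  [2, 1, 1, 1, 3, 1, 1], [1, 1, 1, 1, 4, 1, 1], [2, 1, 1, 1, 4, 2, 1], [2, 2, 2, 1, 5, 2, 2]]
  140737479962621 [90, 90, 114, 114, 36, 204, 210] 655239197166 :=
  run4 tr139 _ _ _ _ dt139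

theorem ok140 : Ok 4 Dn4 [[1, 0, 0, 0, 1, 0, 0], [1, 1, 0, 0, 2, 1, 1], [2, 2, 2, 1, 3, 1, 1],
  [1, 1, 1, 1, 2, 1, 1], [1, 1, 1, 1, 4, 1, 1], [2, 2, 2, 1, 4, 2, 1], [2, 2, 2, 1, 5, 2, 2]]
  140187724148733 [90, 90, 114, 114, 36, 204, 210] 1055000466748 :=
  run4 tr140 _ _ _ _ dt140

theorem ok141 : Ok 4 Dn4 [[1, 0, 0, 0, 1, 0, 0], [2, 2, 1, 1, 4, 1, 1], [3, 3, 3, 2, 7, 2, 2],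
  [1, 1, 1, 1, 2, 1, 1], [1, 1, 1, 1, 3, 1, 0], [0, 0, 0, 0, 1, 1, 0], [1, 1, 1, 1, 4, 1, 1]]
  140187724152829 [118, 118, 118, 118, 40, 232, 238] 999057432624 :=
  run4 tr141 _ _ _ _ dt141

theorem ok142 : Ok 4 Dn4 [[1, 0, 0, 0, 1, 0, 0], [2, 2, 1, 1, 5, 2, 1], [2, 2, 2, 1, 4, 2, 1],
  [1, 1, 1, 1, 2, 1, 1], [1, 1, 1, 1, 3, 1, 0], [0, 0, 0, 0, 1, 1, 0], [3, 3, 3, 2, 7, 2, 2]]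
  140737488355325 [120, 120, 120, 132, 54, 234, 252] 580277779023 :=
  run4 tr142 _ _ _ _ dt142

theorem ok143 : Ok 4 Dn4 [[1, 0, 0, 0, 1, 0, 0], [2, 2, 1, 1, 4, 1, 1], [2, 2, 2, 1, 4, 2, 1],
  [1, 1, 1, 1, 2, 1, 1], [1, 1, 1, 1, 3, 1, 0], [2, 2, 1, 1, 5, 2, 1], [3, 3, 3, 2, 7, 2, 2]]
  140737488355325 [120, 120, 120, 132, 54, 234, 252] 1211979680800 :=
  run4 tr143 _ _ _ _ dt143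

theorem ok144 : Ok 4 Dn4 [[1, 0, 0, 0, 1, 0, 0], [2, 2, 1, 1, 4, 1, 1], [2, 2, 2, 1, 3, 1, 1],
  [1, 1, 1, 1, 2, 1, 1], [1, 1, 1, 1, 3, 1, 0], [2, 2, 2, 1, 4, 2, 1], [3, 3, 3, 2, 7, 2, 2]]
  140187732541437 [120, 120, 120, 132, 54, 234, 252] 1427722501289 :=
  run4 tr144 _ _ _ _ dt144

theorem ok145 : Ok 4 Dn4 [[1, 0, 0, 0, 1, 0, 0], [2, 2, 1, 1, 4, 1, 1], [2, 2, 2, 1, 3, 1, 1],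
  [1, 1, 1, 1, 2, 1, 1], [1, 1, 1, 1, 2, 0, 0], [1, 1, 1, 1, 3, 1, 0], [1, 1, 1, 1, 4, 1, 1]]
  140187724152829 [118, 118, 118, 118, 40, 232, 238] 1788207975693 :=
  run4 tr145 _ _ _ _ dt145

theorem ok146 : Ok 4 Dn4 [[2, 1, 1, 1, 3, 1, 1], [1, 1, 0, 0, 2, 1, 1], [2, 2, 2, 1, 4, 2, 1],
  [1, 1, 1, 1, 2, 1, 1], [2, 2, 1, 1, 5, 2, 1], [0, 0, 0, 0, 1, 1, 0], [1, 1, 1, 1, 4, 1, 1]]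
  140737479962621 [90, 90, 114, 114, 36, 204, 210] 1346886381189 :=
  run4 tr146 _ _ _ _ dt146

theorem ok147 : Ok 4 Dn4 [[1, 0, 0, 0, 1, 0, 0], [1, 1, 0, 0, 2, 1, 1], [2, 2, 2, 1, 4, 2, 1],
  [2, 1, 1, 1, 3, 1, 1], [2, 2, 1, 1, 5, 2, 1], [0, 0, 0, 0, 1, 1, 0], [1, 1, 1, 1, 4, 1, 1]]
  140737479962621 [90, 90, 114, 114, 36, 204, 210] 295460926925 :=
  run4 tr147 _ _ _ _ dt147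

theorem ok148 : Ok 4 Dn4 [[1, 0, 0, 0, 1, 0, 0], [1, 1, 0, 0, 2, 1, 1], [2, 2, 2, 1, 4, 2, 1],
  [1, 1, 1, 1, 2, 1, 1], [2, 2, 1, 1, 4, 1, 1], [2, 2, 1, 1, 5, 2, 1], [1, 1, 1, 1, 4, 1, 1]]
  140737479962621 [90, 90, 114, 114, 36, 204, 210] 1160041574713 :=
  run4 tr148 _ _ _ _ dt148

theorem ok149 : Ok 4 Dn4 [[1, 0, 0, 0, 1, 0, 0], [1, 1, 0, 0, 2, 1, 1], [2, 2, 2, 1, 3, 1, 1],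
  [1, 1, 1, 1, 2, 1, 1], [2, 2, 1, 1, 4, 1, 1], [2, 2, 2, 1, 4, 2, 1], [1, 1, 1, 1, 4, 1, 1]]
  140187724148733 [90, 90, 114, 114, 36, 204, 210] 1263147406557 :=
  run4 tr149 _ _ _ _ dt149

theorem ok150 : Ok 4 Dn4 [[1, 0, 0, 0, 1, 0, 0], [1, 1, 0, 0, 2, 1, 1], [1, 1, 1, 0, 3, 2, 2],
  [1, 1, 1, 1, 2, 1, 1], [2, 2, 2, 1, 3, 1, 1], [0, 0, 0, 0, 1, 1, 0], [0, 0, 0, 0, 2, 1, 1]]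
  140185576668669 [57, 57, 57, 105, 21, 147, 147] 341320263833 :=
  run4 tr150 _ _ _ _ dt150

theorem ok151 : Ok 4 Dn4 [[1, 0, 0, 0, 1, 0, 0], [1, 1, 0, 0, 2, 1, 1], [1, 1, 1, 0, 1, 1, 1],
  [1, 1, 1, 1, 2, 1, 1], [2, 2, 2, 1, 3, 1, 1], [0, 0, 0, 0, 1, 1, 0], [1, 1, 1, 0, 3, 2, 2]]
  140185576668669 [57, 57, 57, 105, 21, 147, 147] 474894487745 :=
  run4 tr151 _ _ _ _ dt151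

theorem ok152 : Ok 4 Dn4 [[1, 0, 0, 0, 1, 0, 0], [2, 2, 1, 1, 3, 1, 0], [2, 2, 2, 1, 4, 2, 1],
  [1, 1, 1, 1, 2, 1, 1], [2, 2, 1, 1, 5, 2, 1], [0, 0, 0, 0, 1, 1, 0], [1, 1, 0, 0, 2, 1, 1]]
  140737488355325 [94, 94, 130, 130, 64, 208, 238] 449649149949 :=
  run4 tr152 _ _ _ _ dt152

theorem ok153 : Ok 4 Dn4 [[1, 0, 0, 0, 1, 0, 0], [2, 2, 1, 1, 3, 1, 0], [2, 2, 2, 1, 4, 2, 1],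
  [1, 1, 1, 1, 2, 1, 1], [2, 2, 1, 1, 4, 1, 1], [2, 2, 1, 1, 5, 2, 1], [1, 1, 0, 0, 2, 1, 1]]
  140737488355325 [94, 94, 130, 130, 64, 208, 238] 1019494331644 :=
  run4 tr153 _ _ _ _ dt153

theorem ok154 : Ok 4 Dn4 [[1, 0, 0, 0, 1, 0, 0], [2, 2, 1, 1, 3, 1, 0], [2, 2, 2, 1, 3, 1, 1],
  [1, 1, 1, 1, 2, 1, 1], [2, 2, 1, 1, 4, 1, 1], [2, 2, 2, 1, 4, 2, 1], [1, 1, 0, 0, 2, 1, 1]]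
  140187732541437 [94, 94, 130, 130, 64, 208, 238] 997640578973 :=
  run4 tr154 _ _ _ _ dt154

theorem ok155 : Ok 4 Dn4 [[1, 0, 0, 0, 1, 0, 0], [2, 2, 1, 1, 3, 1, 0], [2, 2, 2, 1, 4, 2, 1],
  [1, 1, 1, 1, 2, 1, 1], [1, 1, 1, 1, 3, 1, 0], [0, 0, 0, 0, 1, 1, 0], [2, 2, 1, 1, 4, 1, 1]]
  140187732541437 [122, 122, 134, 134, 68, 236, 266] 431288924688 :=
  run4 tr155 _ _ _ _ dt155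

theorem ok156 : Ok 4 Dn4 [[1, 0, 0, 0, 1, 0, 0], [2, 2, 1, 1, 3, 1, 0], [2, 2, 2, 1, 3, 1, 1],
  [1, 1, 1, 1, 2, 1, 1], [1, 1, 1, 1, 3, 1, 0], [2, 2, 2, 1, 4, 2, 1], [2, 2, 1, 1, 4, 1, 1]]
  140187732541437 [122, 122, 134, 134, 68, 236, 266] 939232845734 :=
  run4 tr156 _ _ _ _ dt156

theorem ok157 : Ok 4 Dn4 [[1, 0, 0, 0, 1, 0, 0], [2, 2, 1, 1, 3, 1, 0], [2, 2, 2, 1, 3, 1, 1],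
  [1, 1, 1, 1, 2, 1, 1], [1, 1, 1, 1, 2, 0, 0], [1, 1, 1, 1, 3, 1, 0], [2, 2, 1, 1, 4, 1, 1]]
  140187732541437 [122, 122, 134, 134, 68, 236, 266] 968571600156 :=
  run4 tr157 _ _ _ _ dt157

theorem ok158 : Ok 4 Dn4 [[1, 0, 0, 0, 1, 0, 0], [1, 1, 0, 0, 1, 1, 0], [2, 2, 2, 1, 4, 2, 1],
  [1, 1, 1, 1, 2, 1, 1], [3, 3, 1, 1, 6, 3, 1], [0, 0, 0, 0, 1, 1, 0], [1, 1, 0, 0, 2, 1, 1]]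
  140737487831037 [94, 94, 130, 130, 64, 208, 238] 177367889389 :=
  run4 tr158 _ _ _ _ dt158

theorem ok159 : Ok 4 Dn4 [[3, 2, 2, 1, 5, 2, 1], [1, 1, 0, 0, 1, 1, 0], [2, 2, 2, 1, 4, 2, 1],
  [1, 1, 1, 1, 2, 1, 1], [2, 2, 1, 1, 4, 2, 0], [0, 0, 0, 0, 1, 1, 0], [3, 3, 1, 1, 6, 3, 1]]
  140737487831037 [94, 94, 130, 130, 64, 208, 238] 605439663545 :=
  run4 tr159 _ _ _ _ dt159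

theorem ok160 : Ok 4 Dn4 [[1, 0, 0, 0, 1, 0, 0], [4, 3, 2, 1, 6, 3, 1], [3, 2, 2, 1, 5, 2, 1],
  [1, 1, 1, 1, 2, 1, 1], [2, 2, 1, 1, 4, 2, 0], [0, 0, 0, 0, 1, 1, 0], [3, 3, 1, 1, 6, 3, 1]]
  140737487831037 [94, 94, 130, 130, 64, 208, 238] 368685859794 :=
  run4 tr160 _ _ _ _ dt160

theorem ok161 : Ok 4 Dn4 [[1, 0, 0, 0, 1, 0, 0], [1, 1, 0, 0, 1, 1, 0], [4, 3, 2, 1, 6, 3, 1],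
  [1, 1, 1, 1, 2, 1, 1], [2, 2, 1, 1, 4, 2, 0], [0, 0, 0, 0, 1, 1, 0], [3, 3, 1, 1, 6, 3, 1]]
  140737487831037 [94, 94, 130, 130, 64, 208, 238] 203728976843 :=
  run4 tr161 _ _ _ _ dt161

theorem ok162 : Ok 4 Dn4 [[1, 0, 0, 0, 1, 0, 0], [1, 1, 0, 0, 1, 1, 0], [2, 2, 2, 1, 4, 2, 1],
  [1, 1, 1, 1, 2, 1, 1], [3, 3, 1, 1, 5, 2, 1], [2, 2, 1, 1, 4, 2, 0], [1, 1, 0, 0, 2, 1, 1]]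
  281474976186365 [95, 95, 131, 131, 71, 215, 239] 441978602358 :=
  run4 tr162 _ _ _ _ dt162

theorem ok163 : Ok 4 Dn4 [[1, 0, 0, 0, 1, 0, 0], [1, 1, 0, 0, 1, 1, 0], [2, 2, 2, 1, 4, 2, 1],
  [1, 1, 1, 1, 2, 1, 1], [2, 2, 1, 1, 3, 1, 0], [2, 2, 1, 1, 4, 2, 0], [3, 3, 1, 1, 5, 2, 1]]
  281474976186365 [95, 95, 131, 131, 71, 215, 239] 787945806625 :=
  run4 tr163 _ _ _ _ dt163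

theorem ok164 : Ok 4 Dn4 [[3, 2, 2, 1, 4, 1, 1], [1, 1, 0, 0, 1, 1, 0], [2, 2, 2, 1, 3, 1, 1],
  [1, 1, 1, 1, 2, 1, 1], [2, 2, 1, 1, 3, 1, 0], [2, 2, 2, 1, 4, 2, 1], [1, 1, 0, 0, 2, 1, 1]]
  281474976186365 [97, 97, 133, 145, 85, 229, 241] 1254476750707 :=
  run4 tr164 _ _ _ _ dt164

theorem ok165 : Ok 4 Dn4 [[1, 0, 0, 0, 1, 0, 0], [1, 1, 0, 0, 1, 1, 0], [3, 2, 2, 1, 4, 1, 1],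
  [1, 1, 1, 1, 2, 1, 1], [2, 2, 1, 1, 3, 1, 0], [2, 2, 2, 1, 4, 2, 1], [1, 1, 0, 0, 2, 1, 1]]
  281474976186365 [97, 97, 133, 145, 85, 229, 241] 459000471922 :=
  run4 tr165 _ _ _ _ dt165

theorem ok166 : Ok 4 Dn4 [[1, 0, 0, 0, 1, 0, 0], [3, 3, 1, 1, 4, 1, 1], [2, 2, 2, 1, 3, 1, 1],
  [1, 1, 1, 1, 2, 1, 1], [2, 2, 1, 1, 3, 1, 0], [1, 1, 0, 0, 1, 1, 0], [1, 1, 0, 0, 2, 1, 1]]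
  281474976186365 [99, 99, 147, 147, 99, 243, 243] 368686783227 :=
  run4 tr166 _ _ _ _ dt166

theorem ok167 : Ok 4 Dn4 [[3, 2, 2, 1, 4, 1, 1], [2, 2, 1, 1, 2, 0, 0], [2, 2, 2, 1, 3, 1, 1],
  [1, 1, 1, 1, 2, 1, 1], [2, 2, 1, 1, 3, 1, 0], [1, 1, 0, 0, 1, 1, 0], [3, 3, 1, 1, 4, 1, 1]]
  281474976186365 [99, 99, 147, 147, 99, 243, 243] 1859497233862 :=
  run4 tr167 _ _ _ _ dt167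

theorem ok168 : Ok 4 Dn4 [[2, 1, 1, 1, 3, 1, 1], [2, 2, 1, 1, 2, 0, 0], [3, 2, 2, 1, 4, 1, 1],
  [1, 1, 1, 1, 2, 1, 1], [2, 2, 1, 1, 3, 1, 0], [1, 1, 0, 0, 1, 1, 0], [3, 3, 1, 1, 4, 1, 1]]
  281474976186365 [99, 99, 147, 147, 99, 243, 243] 1881058703605 :=
  run4 tr168 _ _ _ _ dt168

theorem ok169 : Ok 4 Dn4 [[1, 0, 0, 0, 1, 0, 0], [2, 2, 1, 1, 2, 0, 0], [3, 2, 2, 1, 4, 1, 1],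
  [2, 1, 1, 1, 3, 1, 1], [2, 2, 1, 1, 3, 1, 0], [1, 1, 0, 0, 1, 1, 0], [3, 3, 1, 1, 4, 1, 1]]
  281474976186365 [99, 99, 147, 147, 99, 243, 243] 223588868514 :=
  run4 tr169 _ _ _ _ dt169

theorem ok170 : Ok 4 Dn4 [[1, 0, 0, 0, 1, 0, 0], [2, 2, 1, 1, 2, 0, 0], [2, 2, 2, 1, 3, 1, 1],
  [1, 1, 1, 1, 2, 1, 1], [1, 1, 1, 1, 2, 0, 0], [2, 2, 1, 1, 3, 1, 0], [1, 1, 0, 0, 2, 1, 1]]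
  281474976182269 [99, 99, 147, 147, 99, 243, 243] 686181944508 :=
  run4 tr170 _ _ _ _ dt170

theorem ok171 : Ok 4 Dn4 [[1, 0, 0, 0, 1, 0, 0], [1, 1, 0, 0, 0, 0, 0], [2, 2, 2, 1, 3, 1, 1],
  [1, 1, 1, 1, 2, 1, 1], [3, 3, 1, 1, 4, 1, 1], [1, 1, 0, 0, 1, 1, 0], [1, 1, 0, 0, 2, 1, 1]]
  281440616447997 [99, 99, 147, 147, 99, 243, 243] 199810783208 :=
  run4 tr171 _ _ _ _ dt171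

theorem ok172 : Ok 4 Dn4 [[4, 3, 2, 1, 4, 1, 1], [3, 3, 2, 1, 3, 1, 1], [2, 2, 2, 1, 3, 1, 1],
  [1, 1, 1, 1, 2, 1, 1], [2, 2, 1, 1, 2, 0, 0], [1, 1, 0, 0, 1, 1, 0], [3, 3, 1, 1, 4, 1, 1]]
  281474976186365 [99, 99, 147, 147, 99, 243, 243] 1746566609856 :=
  run4 tr172 _ _ _ _ dt172

theorem ok173 : Ok 4 Dn4 [[3, 2, 2, 1, 4, 1, 1], [4, 3, 2, 1, 4, 1, 1], [2, 2, 2, 1, 3, 1, 1],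
  [1, 1, 1, 1, 2, 1, 1], [2, 2, 1, 1, 2, 0, 0], [1, 1, 0, 0, 1, 1, 0], [3, 3, 1, 1, 4, 1, 1]]
  281474976186365 [99, 99, 147, 147, 99, 243, 243] 1775207235393 :=
  run4 tr173 _ _ _ _ dt173

theorem ok174 : Ok 4 Dn4 [[2, 1, 1, 1, 3, 1, 1], [4, 3, 2, 1, 4, 1, 1], [3, 2, 2, 1, 4, 1, 1],
  [1, 1, 1, 1, 2, 1, 1], [2, 2, 1, 1, 2, 0, 0], [1, 1, 0, 0, 1, 1, 0], [3, 3, 1, 1, 4, 1, 1]]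
  281474976186365 [99, 99, 147, 147, 99, 243, 243] 1794063573758 :=
  run4 tr174 _ _ _ _ dt174

theorem ok175 : Ok 4 Dn4 [[1, 0, 0, 0, 1, 0, 0], [4, 3, 2, 1, 4, 1, 1], [3, 2, 2, 1, 4, 1, 1],
  [2, 1, 1, 1, 3, 1, 1], [2, 2, 1, 1, 2, 0, 0], [1, 1, 0, 0, 1, 1, 0], [3, 3, 1, 1, 4, 1, 1]]
  281474976186365 [99, 99, 147, 147, 99, 243, 243] 211826227266 :=
  run4 tr175 _ _ _ _ dt175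

theorem ok176 : Ok 4 Dn4 [[3, 2, 1, 1, 3, 1, 1], [2, 2, 1, 1, 2, 1, 1], [3, 3, 2, 1, 3, 1, 1],
  [1, 1, 1, 1, 2, 1, 1], [2, 2, 1, 1, 2, 0, 0], [1, 1, 0, 0, 1, 1, 0], [3, 3, 1, 1, 4, 1, 1]]
  281474976186365 [99, 99, 147, 147, 99, 243, 243] 1691635625409 :=
  run4 tr176 _ _ _ _ dt176

theorem ok177 : Ok 4 Dn4 [[1, 0, 0, 0, 1, 0, 0], [3, 2, 1, 1, 3, 1, 1], [3, 3, 2, 1, 3, 1, 1],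
  [1, 1, 1, 1, 2, 1, 1], [2, 2, 1, 1, 2, 0, 0], [1, 1, 0, 0, 1, 1, 0], [3, 3, 1, 1, 4, 1, 1]]
  281474976186365 [99, 99, 147, 147, 99, 243, 243] 631516371204 :=
  run4 tr177 _ _ _ _ dt177

theorem ok178 : Ok 4 Dn4 [[1, 0, 0, 0, 1, 0, 0], [1, 1, 0, 0, 0, 0, 0], [3, 3, 2, 1, 3, 1, 1],
  [2, 2, 1, 1, 2, 1, 1], [2, 2, 1, 1, 2, 0, 0], [1, 1, 0, 0, 1, 1, 0], [3, 3, 1, 1, 4, 1, 1]]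
  281440616447997 [99, 99, 147, 147, 99, 243, 243] 237182933233 :=
  run4 tr178 _ _ _ _ dt178

theorem ok179 : Ok 4 Dn4 [[2, 1, 1, 0, 2, 1, 1], [1, 1, 0, 0, 1, 1, 0], [1, 1, 1, 0, 1, 1, 1],
  [1, 1, 1, 1, 2, 1, 1], [2, 2, 2, 1, 3, 1, 1], [0, 0, 0, 0, 1, 1, 0], [1, 1, 0, 0, 2, 1, 1]]
  140187732016637 [62, 62, 74, 122, 56, 152, 182] 594019117326 :=
  run4 tr179 _ _ _ _ dt179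

theorem ok180 : Ok 4 Dn4 [[1, 0, 0, 0, 1, 0, 0], [1, 1, 0, 0, 1, 1, 0], [2, 1, 1, 0, 2, 1, 1],
  [1, 1, 1, 1, 2, 1, 1], [2, 2, 2, 1, 3, 1, 1], [0, 0, 0, 0, 1, 1, 0], [1, 1, 0, 0, 2, 1, 1]]
  140187732016637 [62, 62, 74, 122, 56, 152, 182] 294340116403 :=
  run4 tr180 _ _ _ _ dt180

theorem ok181 : Ok 4 Dn4 [[1, 0, 0, 0, 1, 0, 0], [1, 1, 0, 0, 0, 0, 0], [1, 1, 1, 0, 1, 1, 1],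
  [1, 1, 1, 1, 2, 1, 1], [2, 2, 2, 1, 3, 1, 1], [1, 1, 0, 0, 1, 1, 0], [1, 1, 0, 0, 2, 1, 1]]
  131357279256061 [62, 62, 74, 122, 56, 152, 182] 455799195116 :=
  run4 tr181 _ _ _ _ dt181

theorem nd285 : Ok 4 Dn4 [[1, 0, 0, 0, 1, 0, 0], [1, 1, 0, 0, 2, 1, 1], [2, 2, 2, 1, 4, 2, 1],
  [2, 1, 1, 1, 4, 2, 1], [1, 1, 1, 1, 4, 1, 1], [0, 0, 0, 0, 1, 1, 0], [2, 2, 2, 1, 5, 2, 2]]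
  140737479962621 [90, 90, 114, 114, 36, 204, 210] 239932208164 :=
  cut4 0 6 1 1 1 _ [[3, 2, 2, 1, 6, 2, 2], [1, 1, 0, 0, 2, 1, 1], [2, 2, 2, 1, 4, 2, 1], [2, 1,
  1, 1, 4, 2, 1], [1, 1, 1, 1, 4, 1, 1], [0, 0, 0, 0, 1, 1, 0], [2, 2, 2, 1, 5, 2, 2]] [[1, 0, 0,
  0, 1, 0, 0], [1, 1, 0, 0, 2, 1, 1], [2, 2, 2, 1, 4, 2, 1], [2, 1, 1, 1, 4, 2, 1], [1, 1, 1, 1,
  4, 1, 1], [0, 0, 0, 0, 1, 1, 0], [3, 2, 2, 1, 6, 2, 2]] _ _ 553940514224 200681169906 _ (by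
  decide +kernel) ok137 ok138

theorem nd286 : Ok 4 Dn4 [[1, 0, 0, 0, 1, 0, 0], [1, 1, 0, 0, 2, 1, 1], [2, 2, 2, 1, 4, 2, 1],
  [2, 1, 1, 1, 3, 1, 1], [1, 1, 1, 1, 4, 1, 1], [0, 0, 0, 0, 1, 1, 0], [2, 2, 2, 1, 5, 2, 2]]
  140737479962621 [90, 90, 114, 114, 36, 204, 210] 309150039665 :=
  cut4 3 5 1 1 1 _ [[1, 0, 0, 0, 1, 0, 0], [1, 1, 0, 0, 2, 1, 1], [2, 2, 2, 1, 4, 2, 1], [2, 1,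
  1, 1, 4, 2, 1], [1, 1, 1, 1, 4, 1, 1], [0, 0, 0, 0, 1, 1, 0], [2, 2, 2, 1, 5, 2, 2]] [[1, 0, 0,
  0, 1, 0, 0], [1, 1, 0, 0, 2, 1, 1], [2, 2, 2, 1, 4, 2, 1], [2, 1, 1, 1, 3, 1, 1], [1, 1, 1, 1,
  4, 1, 1], [2, 1, 1, 1, 4, 2, 1], [2, 2, 2, 1, 5, 2, 2]] _ _ 239932208164 655239197166 _ (by
  decide +kernel) nd285 ok139

theorem nd287 : Ok 4 Dn4 [[1, 0, 0, 0, 1, 0, 0], [1, 1, 0, 0, 2, 1, 1], [2, 2, 2, 1, 4, 2, 1],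
  [1, 1, 1, 1, 2, 1, 1], [1, 1, 1, 1, 4, 1, 1], [0, 0, 0, 0, 1, 1, 0], [2, 2, 2, 1, 5, 2, 2]]
  140737479962621 [90, 90, 114, 114, 36, 204, 210] 490381310203 :=
  cut4 0 3 1 1 1 _ [[2, 1, 1, 1, 3, 1, 1], [1, 1, 0, 0, 2, 1, 1], [2, 2, 2, 1, 4, 2, 1], [1, 1,
  1, 1, 2, 1, 1], [1, 1, 1, 1, 4, 1, 1], [0, 0, 0, 0, 1, 1, 0], [2, 2, 2, 1, 5, 2, 2]] [[1, 0, 0,
  0, 1, 0, 0], [1, 1, 0, 0, 2, 1, 1], [2, 2, 2, 1, 4, 2, 1], [2, 1, 1, 1, 3, 1, 1], [1, 1, 1, 1,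
  4, 1, 1], [0, 0, 0, 0, 1, 1, 0], [2, 2, 2, 1, 5, 2, 2]] _ _ 1215306392353 309150039665 _ (by
  decide +kernel) ok136 nd286

theorem nd288 : Ok 4 Dn4 [[1, 0, 0, 0, 1, 0, 0], [1, 1, 0, 0, 2, 1, 1], [2, 2, 2, 1, 4, 2, 1],
  [1, 1, 1, 1, 2, 1, 1], [1, 1, 1, 1, 4, 1, 1], [0, 0, 0, 0, 1, 1, 0], [2, 2, 2, 1, 5, 2, 2]]
  140187724148733 [90, 90, 114, 114, 36, 204, 210] 490381310203 :=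
  dec4 2 7 0 _ _ 140737479962621 _ [90, 90, 114, 114, 36, 204, 210] _ (by decide +kernel) nd287

theorem nd289 : Ok 4 Dn4 [[1, 0, 0, 0, 1, 0, 0], [1, 1, 0, 0, 2, 1, 1], [2, 2, 2, 1, 3, 1, 1],
  [1, 1, 1, 1, 2, 1, 1], [1, 1, 1, 1, 4, 1, 1], [0, 0, 0, 0, 1, 1, 0], [2, 2, 2, 1, 5, 2, 2]]
  140187724148733 [90, 90, 114, 114, 36, 204, 210] 571041189710 :=
  cut4 2 5 1 1 1 _ [[1, 0, 0, 0, 1, 0, 0], [1, 1, 0, 0, 2, 1, 1], [2, 2, 2, 1, 4, 2, 1], [1, 1,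
  1, 1, 2, 1, 1], [1, 1, 1, 1, 4, 1, 1], [0, 0, 0, 0, 1, 1, 0], [2, 2, 2, 1, 5, 2, 2]] [[1, 0, 0,
  0, 1, 0, 0], [1, 1, 0, 0, 2, 1, 1], [2, 2, 2, 1, 3, 1, 1], [1, 1, 1, 1, 2, 1, 1], [1, 1, 1, 1,
  4, 1, 1], [2, 2, 2, 1, 4, 2, 1], [2, 2, 2, 1, 5, 2, 2]] _ _ 490381310203 1055000466748 _ (by
  decide +kernel) nd288 ok140

theorem nd290 : Ok 4 Dn4 [[1, 0, 0, 0, 1, 0, 0], [1, 1, 0, 0, 2, 1, 1], [2, 2, 2, 1, 3, 1, 1],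
  [1, 1, 1, 1, 2, 1, 1], [1, 1, 1, 1, 4, 1, 1], [0, 0, 0, 0, 1, 1, 0], [2, 2, 2, 1, 7, 3, 3]]
  140187724148733 [90, 90, 114, 114, 36, 204, 210] 504356324639 :=
  cut4 2 6 1 1 2 _ [[1, 0, 0, 0, 1, 0, 0], [1, 1, 0, 0, 2, 1, 1], [2, 2, 2, 1, 5, 2, 2], [1, 1,
  1, 1, 2, 1, 1], [1, 1, 1, 1, 4, 1, 1], [0, 0, 0, 0, 1, 1, 0], [2, 2, 2, 1, 7, 3, 3]] [[1, 0, 0,
  0, 1, 0, 0], [1, 1, 0, 0, 2, 1, 1], [2, 2, 2, 1, 3, 1, 1], [1, 1, 1, 1, 2, 1, 1], [1, 1, 1, 1,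
  4, 1, 1], [0, 0, 0, 0, 1, 1, 0], [2, 2, 2, 1, 5, 2, 2]] _ _ 393214882854 571041189710 _ (by
  decide +kernel) ok135 nd289

theorem nd291 : Ok 4 Dn4 [[1, 0, 0, 0, 1, 0, 0], [1, 1, 0, 0, 2, 1, 1], [2, 2, 2, 1, 3, 1, 1],
  [1, 1, 1, 1, 2, 1, 1], [1, 1, 1, 1, 4, 1, 1], [0, 0, 0, 0, 1, 1, 0], [2, 2, 2, 1, 7, 3, 3]]
  140185576665085 [89, 89, 113, 113, 29, 203, 203] 504356324639 :=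
  dec4 1 15 1 _ _ 140187724148733 _ [90, 90, 114, 114, 36, 204, 210] _ (by decide +kernel) nd290

theorem nd292 : Ok 4 Dn4 [[1, 0, 0, 0, 1, 0, 0], [1, 1, 0, 0, 2, 1, 1], [2, 2, 2, 1, 3, 1, 1],
  [1, 1, 1, 1, 2, 1, 1], [1, 1, 1, 1, 4, 1, 1], [0, 0, 0, 0, 1, 1, 0], [0, 0, 0, 0, 2, 1, 1]]
  140185576665085 [89, 89, 113, 113, 29, 203, 203] 313381904131 :=
  cut4 2 6 1 2 1 _ [[1, 0, 0, 0, 1, 0, 0], [1, 1, 0, 0, 2, 1, 1], [2, 2, 2, 1, 7, 3, 3], [1, 1,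
  1, 1, 2, 1, 1], [1, 1, 1, 1, 4, 1, 1], [0, 0, 0, 0, 1, 1, 0], [0, 0, 0, 0, 2, 1, 1]] [[1, 0, 0,
  0, 1, 0, 0], [1, 1, 0, 0, 2, 1, 1], [2, 2, 2, 1, 3, 1, 1], [1, 1, 1, 1, 2, 1, 1], [1, 1, 1, 1,
  4, 1, 1], [0, 0, 0, 0, 1, 1, 0], [2, 2, 2, 1, 7, 3, 3]] _ _ 186065623792 504356324639 _ (by
  decide +kernel) ok134 nd291

theorem nd293 : Ok 4 Dn4 [[1, 0, 0, 0, 1, 0, 0], [2, 2, 1, 1, 4, 1, 1], [2, 2, 2, 1, 4, 2, 1],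
  [1, 1, 1, 1, 2, 1, 1], [1, 1, 1, 1, 3, 1, 0], [0, 0, 0, 0, 1, 1, 0], [3, 3, 3, 2, 7, 2, 2]]
  140737488355325 [120, 120, 120, 132, 54, 234, 252] 670520907849 :=
  cut4 1 5 1 1 1 _ [[1, 0, 0, 0, 1, 0, 0], [2, 2, 1, 1, 5, 2, 1], [2, 2, 2, 1, 4, 2, 1], [1, 1,
  1, 1, 2, 1, 1], [1, 1, 1, 1, 3, 1, 0], [0, 0, 0, 0, 1, 1, 0], [3, 3, 3, 2, 7, 2, 2]] [[1, 0, 0,
  0, 1, 0, 0], [2, 2, 1, 1, 4, 1, 1], [2, 2, 2, 1, 4, 2, 1], [1, 1, 1, 1, 2, 1, 1], [1, 1, 1, 1,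
  3, 1, 0], [2, 2, 1, 1, 5, 2, 1], [3, 3, 3, 2, 7, 2, 2]] _ _ 580277779023 1211979680800 _ (by
  decide +kernel) ok142 ok143

theorem nd294 : Ok 4 Dn4 [[1, 0, 0, 0, 1, 0, 0], [2, 2, 1, 1, 4, 1, 1], [2, 2, 2, 1, 4, 2, 1],
  [1, 1, 1, 1, 2, 1, 1], [1, 1, 1, 1, 3, 1, 0], [0, 0, 0, 0, 1, 1, 0], [3, 3, 3, 2, 7, 2, 2]]
  140187732541437 [120, 120, 120, 132, 54, 234, 252] 670520907849 :=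
  dec4 2 7 0 _ _ 140737488355325 _ [120, 120, 120, 132, 54, 234, 252] _ (by decide +kernel) nd293

theorem nd295 : Ok 4 Dn4 [[1, 0, 0, 0, 1, 0, 0], [2, 2, 1, 1, 4, 1, 1], [2, 2, 2, 1, 3, 1, 1],
  [1, 1, 1, 1, 2, 1, 1], [1, 1, 1, 1, 3, 1, 0], [0, 0, 0, 0, 1, 1, 0], [3, 3, 3, 2, 7, 2, 2]]
  140187732541437 [120, 120, 120, 132, 54, 234, 252] 778692564055 :=
  cut4 2 5 1 1 1 _ [[1, 0, 0, 0, 1, 0, 0], [2, 2, 1, 1, 4, 1, 1], [2, 2, 2, 1, 4, 2, 1], [1, 1,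
  1, 1, 2, 1, 1], [1, 1, 1, 1, 3, 1, 0], [0, 0, 0, 0, 1, 1, 0], [3, 3, 3, 2, 7, 2, 2]] [[1, 0, 0,
  0, 1, 0, 0], [2, 2, 1, 1, 4, 1, 1], [2, 2, 2, 1, 3, 1, 1], [1, 1, 1, 1, 2, 1, 1], [1, 1, 1, 1,
  3, 1, 0], [2, 2, 2, 1, 4, 2, 1], [3, 3, 3, 2, 7, 2, 2]] _ _ 670520907849 1427722501289 _ (by
  decide +kernel) nd294 ok144

theorem nd296 : Ok 4 Dn4 [[1, 0, 0, 0, 1, 0, 0], [2, 2, 1, 1, 4, 1, 1], [2, 2, 2, 1, 3, 1, 1],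
  [1, 1, 1, 1, 2, 1, 1], [1, 1, 1, 1, 3, 1, 0], [0, 0, 0, 0, 1, 1, 0], [3, 3, 3, 2, 7, 2, 2]]
  140187724152829 [118, 118, 118, 118, 40, 232, 238] 778692564055 :=
  dec4 1 7 1 _ _ 140187732541437 _ [120, 120, 120, 132, 54, 234, 252] _ (by decide +kernel) nd295

theorem nd297 : Ok 4 Dn4 [[1, 0, 0, 0, 1, 0, 0], [2, 2, 1, 1, 4, 1, 1], [2, 2, 2, 1, 3, 1, 1],
  [1, 1, 1, 1, 2, 1, 1], [1, 1, 1, 1, 3, 1, 0], [0, 0, 0, 0, 1, 1, 0], [1, 1, 1, 1, 4, 1, 1]]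
  140187724152829 [118, 118, 118, 118, 40, 232, 238] 898891583275 :=
  cut4 2 6 1 1 1 _ [[1, 0, 0, 0, 1, 0, 0], [2, 2, 1, 1, 4, 1, 1], [3, 3, 3, 2, 7, 2, 2], [1, 1,
  1, 1, 2, 1, 1], [1, 1, 1, 1, 3, 1, 0], [0, 0, 0, 0, 1, 1, 0], [1, 1, 1, 1, 4, 1, 1]] [[1, 0, 0,
  0, 1, 0, 0], [2, 2, 1, 1, 4, 1, 1], [2, 2, 2, 1, 3, 1, 1], [1, 1, 1, 1, 2, 1, 1], [1, 1, 1, 1,
  3, 1, 0], [0, 0, 0, 0, 1, 1, 0], [3, 3, 3, 2, 7, 2, 2]] _ _ 999057432624 778692564055 _ (by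
  decide +kernel) ok141 nd296

theorem nd298 : Ok 4 Dn4 [[1, 0, 0, 0, 1, 0, 0], [2, 2, 1, 1, 4, 1, 1], [2, 2, 2, 1, 3, 1, 1],
  [1, 1, 1, 1, 2, 1, 1], [1, 1, 1, 1, 2, 0, 0], [0, 0, 0, 0, 1, 1, 0], [1, 1, 1, 1, 4, 1, 1]]
  140187724152829 [118, 118, 118, 118, 40, 232, 238] 1121220681380 :=
  cut4 4 5 1 1 1 _ [[1, 0, 0, 0, 1, 0, 0], [2, 2, 1, 1, 4, 1, 1], [2, 2, 2, 1, 3, 1, 1], [1, 1,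
  1, 1, 2, 1, 1], [1, 1, 1, 1, 3, 1, 0], [0, 0, 0, 0, 1, 1, 0], [1, 1, 1, 1, 4, 1, 1]] [[1, 0, 0,
  0, 1, 0, 0], [2, 2, 1, 1, 4, 1, 1], [2, 2, 2, 1, 3, 1, 1], [1, 1, 1, 1, 2, 1, 1], [1, 1, 1, 1,
  2, 0, 0], [1, 1, 1, 1, 3, 1, 0], [1, 1, 1, 1, 4, 1, 1]] _ _ 898891583275 1788207975693 _ (by
  decide +kernel) nd297 ok145

theorem nd299 : Ok 4 Dn4 [[1, 0, 0, 0, 1, 0, 0], [2, 2, 1, 1, 4, 1, 1], [2, 2, 2, 1, 3, 1, 1],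
  [1, 1, 1, 1, 2, 1, 1], [1, 1, 1, 1, 2, 0, 0], [0, 0, 0, 0, 1, 1, 0], [1, 1, 1, 1, 4, 1, 1]]
  140187724148733 [90, 90, 114, 114, 36, 204, 210] 1121220681380 :=
  dec4 0 12 1 _ _ 140187724152829 _ [118, 118, 118, 118, 40, 232, 238] _ (by decide +kernel) nd298

theorem nd300 : Ok 4 Dn4 [[1, 0, 0, 0, 1, 0, 0], [1, 1, 0, 0, 2, 1, 1], [2, 2, 2, 1, 4, 2, 1],
  [1, 1, 1, 1, 2, 1, 1], [2, 2, 1, 1, 5, 2, 1], [0, 0, 0, 0, 1, 1, 0], [1, 1, 1, 1, 4, 1, 1]]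
  140737479962621 [90, 90, 114, 114, 36, 204, 210] 505746017778 :=
  cut4 0 3 1 1 1 _ [[2, 1, 1, 1, 3, 1, 1], [1, 1, 0, 0, 2, 1, 1], [2, 2, 2, 1, 4, 2, 1], [1, 1,
  1, 1, 2, 1, 1], [2, 2, 1, 1, 5, 2, 1], [0, 0, 0, 0, 1, 1, 0], [1, 1, 1, 1, 4, 1, 1]] [[1, 0, 0,
  0, 1, 0, 0], [1, 1, 0, 0, 2, 1, 1], [2, 2, 2, 1, 4, 2, 1], [2, 1, 1, 1, 3, 1, 1], [2, 2, 1, 1,
  5, 2, 1], [0, 0, 0, 0, 1, 1, 0], [1, 1, 1, 1, 4, 1, 1]] _ _ 1346886381189 295460926925 _ (by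
  decide +kernel) ok146 ok147

theorem nd301 : Ok 4 Dn4 [[1, 0, 0, 0, 1, 0, 0], [1, 1, 0, 0, 2, 1, 1], [2, 2, 2, 1, 4, 2, 1],
  [1, 1, 1, 1, 2, 1, 1], [2, 2, 1, 1, 4, 1, 1], [0, 0, 0, 0, 1, 1, 0], [1, 1, 1, 1, 4, 1, 1]]
  140737479962621 [90, 90, 114, 114, 36, 204, 210] 599216811626 :=
  cut4 4 5 1 1 1 _ [[1, 0, 0, 0, 1, 0, 0], [1, 1, 0, 0, 2, 1, 1], [2, 2, 2, 1, 4, 2, 1], [1, 1,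
  1, 1, 2, 1, 1], [2, 2, 1, 1, 5, 2, 1], [0, 0, 0, 0, 1, 1, 0], [1, 1, 1, 1, 4, 1, 1]] [[1, 0, 0,
  0, 1, 0, 0], [1, 1, 0, 0, 2, 1, 1], [2, 2, 2, 1, 4, 2, 1], [1, 1, 1, 1, 2, 1, 1], [2, 2, 1, 1,
  4, 1, 1], [2, 2, 1, 1, 5, 2, 1], [1, 1, 1, 1, 4, 1, 1]] _ _ 505746017778 1160041574713 _ (by
  decide +kernel) nd300 ok148

theorem nd302 : Ok 4 Dn4 [[1, 0, 0, 0, 1, 0, 0], [1, 1, 0, 0, 2, 1, 1], [2, 2, 2, 1, 4, 2, 1],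
  [1, 1, 1, 1, 2, 1, 1], [2, 2, 1, 1, 4, 1, 1], [0, 0, 0, 0, 1, 1, 0], [1, 1, 1, 1, 4, 1, 1]]
  140187724148733 [90, 90, 114, 114, 36, 204, 210] 599216811626 :=
  dec4 2 7 0 _ _ 140737479962621 _ [90, 90, 114, 114, 36, 204, 210] _ (by decide +kernel) nd301

theorem nd303 : Ok 4 Dn4 [[1, 0, 0, 0, 1, 0, 0], [1, 1, 0, 0, 2, 1, 1], [2, 2, 2, 1, 3, 1, 1],
  [1, 1, 1, 1, 2, 1, 1], [2, 2, 1, 1, 4, 1, 1], [0, 0, 0, 0, 1, 1, 0], [1, 1, 1, 1, 4, 1, 1]]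
  140187724148733 [90, 90, 114, 114, 36, 204, 210] 694064039474 :=
  cut4 2 5 1 1 1 _ [[1, 0, 0, 0, 1, 0, 0], [1, 1, 0, 0, 2, 1, 1], [2, 2, 2, 1, 4, 2, 1], [1, 1,
  1, 1, 2, 1, 1], [2, 2, 1, 1, 4, 1, 1], [0, 0, 0, 0, 1, 1, 0], [1, 1, 1, 1, 4, 1, 1]] [[1, 0, 0,
  0, 1, 0, 0], [1, 1, 0, 0, 2, 1, 1], [2, 2, 2, 1, 3, 1, 1], [1, 1, 1, 1, 2, 1, 1], [2, 2, 1, 1,
  4, 1, 1], [2, 2, 2, 1, 4, 2, 1], [1, 1, 1, 1, 4, 1, 1]] _ _ 599216811626 1263147406557 _ (by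
  decide +kernel) nd302 ok149

theorem nd304 : Ok 4 Dn4 [[1, 0, 0, 0, 1, 0, 0], [1, 1, 0, 0, 2, 1, 1], [2, 2, 2, 1, 3, 1, 1],
  [1, 1, 1, 1, 2, 1, 1], [1, 1, 1, 1, 2, 0, 0], [0, 0, 0, 0, 1, 1, 0], [1, 1, 1, 1, 4, 1, 1]]
  140187724148733 [90, 90, 114, 114, 36, 204, 210] 907642360427 :=
  cut4 1 4 1 1 1 _ [[1, 0, 0, 0, 1, 0, 0], [2, 2, 1, 1, 4, 1, 1], [2, 2, 2, 1, 3, 1, 1], [1, 1,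
  1, 1, 2, 1, 1], [1, 1, 1, 1, 2, 0, 0], [0, 0, 0, 0, 1, 1, 0], [1, 1, 1, 1, 4, 1, 1]] [[1, 0, 0,
  0, 1, 0, 0], [1, 1, 0, 0, 2, 1, 1], [2, 2, 2, 1, 3, 1, 1], [1, 1, 1, 1, 2, 1, 1], [2, 2, 1, 1,
  4, 1, 1], [0, 0, 0, 0, 1, 1, 0], [1, 1, 1, 1, 4, 1, 1]] _ _ 1121220681380 694064039474 _ (by
  decide +kernel) nd299 nd303

theorem nd305 : Ok 4 Dn4 [[1, 0, 0, 0, 1, 0, 0], [1, 1, 0, 0, 2, 1, 1], [2, 2, 2, 1, 3, 1, 1],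
  [1, 1, 1, 1, 2, 1, 1], [1, 1, 1, 1, 2, 0, 0], [0, 0, 0, 0, 1, 1, 0], [1, 1, 1, 1, 4, 1, 1]]
  140185576665085 [89, 89, 113, 113, 29, 203, 203] 907642360427 :=
  dec4 1 15 1 _ _ 140187724148733 _ [90, 90, 114, 114, 36, 204, 210] _ (by decide +kernel) nd304

theorem nd306 : Ok 4 Dn4 [[1, 0, 0, 0, 1, 0, 0], [1, 1, 0, 0, 2, 1, 1], [2, 2, 2, 1, 3, 1, 1],
  [1, 1, 1, 1, 2, 1, 1], [1, 1, 1, 1, 2, 0, 0], [0, 0, 0, 0, 1, 1, 0], [0, 0, 0, 0, 2, 1, 1]]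
  140185576665085 [89, 89, 113, 113, 29, 203, 203] 551086086650 :=
  cut4 4 6 1 1 1 _ [[1, 0, 0, 0, 1, 0, 0], [1, 1, 0, 0, 2, 1, 1], [2, 2, 2, 1, 3, 1, 1], [1, 1,
  1, 1, 2, 1, 1], [1, 1, 1, 1, 4, 1, 1], [0, 0, 0, 0, 1, 1, 0], [0, 0, 0, 0, 2, 1, 1]] [[1, 0, 0,
  0, 1, 0, 0], [1, 1, 0, 0, 2, 1, 1], [2, 2, 2, 1, 3, 1, 1], [1, 1, 1, 1, 2, 1, 1], [1, 1, 1, 1,
  2, 0, 0], [0, 0, 0, 0, 1, 1, 0], [1, 1, 1, 1, 4, 1, 1]] _ _ 313381904131 907642360427 _ (by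
  decide +kernel) nd292 nd305

theorem nd307 : Ok 4 Dn4 [[1, 0, 0, 0, 1, 0, 0], [1, 1, 0, 0, 2, 1, 1], [2, 2, 2, 1, 3, 1, 1],
  [1, 1, 1, 1, 2, 1, 1], [1, 1, 1, 1, 2, 0, 0], [0, 0, 0, 0, 1, 1, 0], [0, 0, 0, 0, 2, 1, 1]]
  140185576664061 [61, 85, 85, 109, 25, 175, 175] 551086086650 :=
  dec4 0 10 1 _ _ 140185576665085 _ [89, 89, 113, 113, 29, 203, 203] _ (by decide +kernel) nd306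

theorem nd308 : Ok 4 Dn4 [[1, 0, 0, 0, 1, 0, 0], [1, 1, 0, 0, 2, 1, 1], [2, 2, 2, 1, 3, 1, 1],
  [1, 1, 1, 1, 2, 1, 1], [1, 1, 1, 1, 2, 0, 0], [0, 0, 0, 0, 1, 1, 0], [0, 0, 0, 0, 2, 1, 1]]
  140185576663549 [57, 57, 57, 105, 21, 147, 147] 551086086650 :=
  dec4 0 9 1 _ _ 140185576664061 _ [61, 85, 85, 109, 25, 175, 175] _ (by decide +kernel) nd307

theorem nd309 : Ok 4 Dn4 [[1, 0, 0, 0, 1, 0, 0], [1, 1, 0, 0, 2, 1, 1], [1, 1, 1, 0, 1, 1, 1],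
  [1, 1, 1, 1, 2, 1, 1], [2, 2, 2, 1, 3, 1, 1], [0, 0, 0, 0, 1, 1, 0], [0, 0, 0, 0, 2, 1, 1]]
  140185576668669 [57, 57, 57, 105, 21, 147, 147] 394749953398 :=
  cut4 2 6 1 1 1 _ [[1, 0, 0, 0, 1, 0, 0], [1, 1, 0, 0, 2, 1, 1], [1, 1, 1, 0, 3, 2, 2], [1, 1,
  1, 1, 2, 1, 1], [2, 2, 2, 1, 3, 1, 1], [0, 0, 0, 0, 1, 1, 0], [0, 0, 0, 0, 2, 1, 1]] [[1, 0, 0,
  0, 1, 0, 0], [1, 1, 0, 0, 2, 1, 1], [1, 1, 1, 0, 1, 1, 1], [1, 1, 1, 1, 2, 1, 1], [2, 2, 2, 1,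
  3, 1, 1], [0, 0, 0, 0, 1, 1, 0], [1, 1, 1, 0, 3, 2, 2]] _ _ 341320263833 474894487745 _ (by
  decide +kernel) ok150 ok151

theorem nd310 : Ok 4 Dn4 [[1, 0, 0, 0, 1, 0, 0], [1, 1, 0, 0, 2, 1, 1], [1, 1, 1, 0, 1, 1, 1],
  [1, 1, 1, 1, 2, 1, 1], [2, 2, 2, 1, 3, 1, 1], [0, 0, 0, 0, 1, 1, 0], [0, 0, 0, 0, 2, 1, 1]]
  140185576664573 [57, 57, 57, 105, 21, 147, 147] 394749953398 :=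
  dec4 0 12 0 _ _ 140185576668669 _ [57, 57, 57, 105, 21, 147, 147] _ (by decide +kernel) nd309

theorem nd311 : Ok 4 Dn4 [[1, 0, 0, 0, 1, 0, 0], [1, 1, 0, 0, 2, 1, 1], [1, 1, 1, 0, 1, 1, 1],
  [1, 1, 1, 1, 2, 1, 1], [2, 2, 2, 1, 3, 1, 1], [0, 0, 0, 0, 1, 1, 0], [0, 0, 0, 0, 2, 1, 1]]
  140185576663549 [57, 57, 57, 105, 21, 147, 147] 394749953398 :=
  dec4 0 10 0 _ _ 140185576664573 _ [57, 57, 57, 105, 21, 147, 147] _ (by decide +kernel) nd310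

theorem nd312 : Ok 4 Dn4 [[1, 0, 0, 0, 1, 0, 0], [1, 1, 0, 0, 2, 1, 1], [1, 1, 1, 0, 1, 1, 1],
  [1, 1, 1, 1, 2, 1, 1], [1, 1, 1, 1, 2, 0, 0], [0, 0, 0, 0, 1, 1, 0], [0, 0, 0, 0, 2, 1, 1]]
  140185576663549 [57, 57, 57, 105, 21, 147, 147] 472918020024 :=
  cut4 2 4 1 1 1 _ [[1, 0, 0, 0, 1, 0, 0], [1, 1, 0, 0, 2, 1, 1], [2, 2, 2, 1, 3, 1, 1], [1, 1,
  1, 1, 2, 1, 1], [1, 1, 1, 1, 2, 0, 0], [0, 0, 0, 0, 1, 1, 0], [0, 0, 0, 0, 2, 1, 1]] [[1, 0, 0,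
  0, 1, 0, 0], [1, 1, 0, 0, 2, 1, 1], [1, 1, 1, 0, 1, 1, 1], [1, 1, 1, 1, 2, 1, 1], [2, 2, 2, 1,
  3, 1, 1], [0, 0, 0, 0, 1, 1, 0], [0, 0, 0, 0, 2, 1, 1]] _ _ 551086086650 394749953398 _ (by
  decide +kernel) nd308 nd311

theorem nd313 : Ok 4 Dn4 [[1, 0, 0, 0, 1, 0, 0], [1, 1, 0, 0, 2, 1, 1], [1, 1, 1, 0, 1, 1, 1],
  [1, 1, 1, 1, 2, 1, 1], [1, 1, 1, 1, 2, 0, 0], [0, 0, 0, 0, 1, 1, 0], [0, 0, 0, 0, 2, 1, 1]]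
  131389483641341 [57, 57, 57, 105, 21, 147, 147] 472918020024 :=
  dec4 2 11 0 _ _ 140185576663549 _ [57, 57, 57, 105, 21, 147, 147] _ (by decide +kernel) nd312

theorem nd314 : Ok 4 Dn4 [[1, 0, 0, 0, 1, 0, 0], [1, 1, 0, 0, 2, 1, 1], [1, 1, 1, 0, 1, 1, 1],
  [1, 1, 1, 1, 2, 1, 1], [1, 1, 1, 1, 2, 0, 0], [0, 0, 0, 0, 1, 1, 0], [0, 0, 0, 0, 2, 1, 1]]
  131355123902973 [57, 57, 57, 105, 21, 147, 147] 472918020024 :=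
  dec4 2 3 0 _ _ 131389483641341 _ [57, 57, 57, 105, 21, 147, 147] _ (by decide +kernel) nd313

theorem nd315 : Ok 4 Dn4 [[1, 0, 0, 0, 1, 0, 0], [1, 1, 0, 0, 2, 1, 1], [1, 1, 1, 0, 1, 1, 1],
  [1, 1, 1, 1, 2, 1, 1], [1, 1, 1, 1, 2, 0, 0], [0, 0, 0, 0, 1, 1, 0], [0, 0, 0, 0, 2, 1, 1]]
  131354989685245 [57, 57, 57, 105, 21, 147, 147] 472918020024 :=
  dec4 1 11 0 _ _ 131355123902973 _ [57, 57, 57, 105, 21, 147, 147] _ (by decide +kernel) nd314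

theorem nd316 : Ok 4 Dn4 [[1, 0, 0, 0, 1, 0, 0], [1, 1, 0, 0, 2, 1, 1], [1, 1, 1, 0, 1, 1, 1],
  [1, 1, 1, 1, 2, 1, 1], [1, 1, 1, 1, 2, 0, 0], [0, 0, 0, 0, 1, 1, 0], [0, 0, 0, 0, 2, 1, 1]]
  131354989160957 [57, 57, 57, 105, 21, 147, 147] 472918020024 :=
  dec4 1 3 0 _ _ 131354989685245 _ [57, 57, 57, 105, 21, 147, 147] _ (by decide +kernel) nd315

theorem nd317 : Ok 4 Dn4 [[1, 0, 0, 0, 1, 0, 0], [2, 2, 1, 1, 3, 1, 0], [2, 2, 2, 1, 4, 2, 1],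
  [1, 1, 1, 1, 2, 1, 1], [2, 2, 1, 1, 4, 1, 1], [0, 0, 0, 0, 1, 1, 0], [1, 1, 0, 0, 2, 1, 1]]
  140737488355325 [94, 94, 130, 130, 64, 208, 238] 531055604477 :=
  cut4 4 5 1 1 1 _ [[1, 0, 0, 0, 1, 0, 0], [2, 2, 1, 1, 3, 1, 0], [2, 2, 2, 1, 4, 2, 1], [1, 1,
  1, 1, 2, 1, 1], [2, 2, 1, 1, 5, 2, 1], [0, 0, 0, 0, 1, 1, 0], [1, 1, 0, 0, 2, 1, 1]] [[1, 0, 0,
  0, 1, 0, 0], [2, 2, 1, 1, 3, 1, 0], [2, 2, 2, 1, 4, 2, 1], [1, 1, 1, 1, 2, 1, 1], [2, 2, 1, 1,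
  4, 1, 1], [2, 2, 1, 1, 5, 2, 1], [1, 1, 0, 0, 2, 1, 1]] _ _ 449649149949 1019494331644 _ (by
  decide +kernel) ok152 ok153

theorem nd318 : Ok 4 Dn4 [[1, 0, 0, 0, 1, 0, 0], [2, 2, 1, 1, 3, 1, 0], [2, 2, 2, 1, 4, 2, 1],
  [1, 1, 1, 1, 2, 1, 1], [2, 2, 1, 1, 4, 1, 1], [0, 0, 0, 0, 1, 1, 0], [1, 1, 0, 0, 2, 1, 1]]
  140187732541437 [94, 94, 130, 130, 64, 208, 238] 531055604477 :=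
  dec4 2 7 0 _ _ 140737488355325 _ [94, 94, 130, 130, 64, 208, 238] _ (by decide +kernel) nd317

theorem nd319 : Ok 4 Dn4 [[1, 0, 0, 0, 1, 0, 0], [2, 2, 1, 1, 3, 1, 0], [2, 2, 2, 1, 3, 1, 1],
  [1, 1, 1, 1, 2, 1, 1], [2, 2, 1, 1, 4, 1, 1], [0, 0, 0, 0, 1, 1, 0], [1, 1, 0, 0, 2, 1, 1]]
  140187732541437 [94, 94, 130, 130, 64, 208, 238] 597710600834 :=
  cut4 2 5 1 1 1 _ [[1, 0, 0, 0, 1, 0, 0], [2, 2, 1, 1, 3, 1, 0], [2, 2, 2, 1, 4, 2, 1], [1, 1,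
  1, 1, 2, 1, 1], [2, 2, 1, 1, 4, 1, 1], [0, 0, 0, 0, 1, 1, 0], [1, 1, 0, 0, 2, 1, 1]] [[1, 0, 0,
  0, 1, 0, 0], [2, 2, 1, 1, 3, 1, 0], [2, 2, 2, 1, 3, 1, 1], [1, 1, 1, 1, 2, 1, 1], [2, 2, 1, 1,
  4, 1, 1], [2, 2, 2, 1, 4, 2, 1], [1, 1, 0, 0, 2, 1, 1]] _ _ 531055604477 997640578973 _ (by
  decide +kernel) nd318 ok154

theorem nd320 : Ok 4 Dn4 [[1, 0, 0, 0, 1, 0, 0], [2, 2, 1, 1, 3, 1, 0], [2, 2, 2, 1, 3, 1, 1],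
  [1, 1, 1, 1, 2, 1, 1], [2, 2, 1, 1, 4, 1, 1], [0, 0, 0, 0, 1, 1, 0], [1, 1, 0, 0, 2, 1, 1]]
  140187732537341 [94, 94, 130, 130, 64, 208, 238] 597710600834 :=
  dec4 0 12 0 _ _ 140187732541437 _ [94, 94, 130, 130, 64, 208, 238] _ (by decide +kernel) nd319

theorem nd321 : Ok 4 Dn4 [[1, 0, 0, 0, 1, 0, 0], [2, 2, 1, 1, 3, 1, 0], [2, 2, 2, 1, 3, 1, 1],
  [1, 1, 1, 1, 2, 1, 1], [1, 1, 1, 1, 3, 1, 0], [0, 0, 0, 0, 1, 1, 0], [2, 2, 1, 1, 4, 1, 1]]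
  140187732541437 [122, 122, 134, 134, 68, 236, 266] 503852341981 :=
  cut4 2 5 1 1 1 _ [[1, 0, 0, 0, 1, 0, 0], [2, 2, 1, 1, 3, 1, 0], [2, 2, 2, 1, 4, 2, 1], [1, 1,
  1, 1, 2, 1, 1], [1, 1, 1, 1, 3, 1, 0], [0, 0, 0, 0, 1, 1, 0], [2, 2, 1, 1, 4, 1, 1]] [[1, 0, 0,
  0, 1, 0, 0], [2, 2, 1, 1, 3, 1, 0], [2, 2, 2, 1, 3, 1, 1], [1, 1, 1, 1, 2, 1, 1], [1, 1, 1, 1,
  3, 1, 0], [2, 2, 2, 1, 4, 2, 1], [2, 2, 1, 1, 4, 1, 1]] _ _ 431288924688 939232845734 _ (by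
  decide +kernel) ok155 ok156

theorem nd322 : Ok 4 Dn4 [[1, 0, 0, 0, 1, 0, 0], [2, 2, 1, 1, 3, 1, 0], [2, 2, 2, 1, 3, 1, 1],
  [1, 1, 1, 1, 2, 1, 1], [1, 1, 1, 1, 2, 0, 0], [0, 0, 0, 0, 1, 1, 0], [2, 2, 1, 1, 4, 1, 1]]
  140187732541437 [122, 122, 134, 134, 68, 236, 266] 620032156525 :=
  cut4 4 5 1 1 1 _ [[1, 0, 0, 0, 1, 0, 0], [2, 2, 1, 1, 3, 1, 0], [2, 2, 2, 1, 3, 1, 1], [1, 1,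
  1, 1, 2, 1, 1], [1, 1, 1, 1, 3, 1, 0], [0, 0, 0, 0, 1, 1, 0], [2, 2, 1, 1, 4, 1, 1]] [[1, 0, 0,
  0, 1, 0, 0], [2, 2, 1, 1, 3, 1, 0], [2, 2, 2, 1, 3, 1, 1], [1, 1, 1, 1, 2, 1, 1], [1, 1, 1, 1,
  2, 0, 0], [1, 1, 1, 1, 3, 1, 0], [2, 2, 1, 1, 4, 1, 1]] _ _ 503852341981 968571600156 _ (by
  decide +kernel) nd321 ok157

theorem nd323 : Ok 4 Dn4 [[1, 0, 0, 0, 1, 0, 0], [2, 2, 1, 1, 3, 1, 0], [2, 2, 2, 1, 3, 1, 1],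
  [1, 1, 1, 1, 2, 1, 1], [1, 1, 1, 1, 2, 0, 0], [0, 0, 0, 0, 1, 1, 0], [2, 2, 1, 1, 4, 1, 1]]
  140187732537341 [94, 94, 130, 130, 64, 208, 238] 620032156525 :=
  dec4 0 12 1 _ _ 140187732541437 _ [122, 122, 134, 134, 68, 236, 266] _ (by decide +kernel) nd322

theorem nd324 : Ok 4 Dn4 [[1, 0, 0, 0, 1, 0, 0], [2, 2, 1, 1, 3, 1, 0], [2, 2, 2, 1, 3, 1, 1],
  [1, 1, 1, 1, 2, 1, 1], [1, 1, 1, 1, 2, 0, 0], [0, 0, 0, 0, 1, 1, 0], [1, 1, 0, 0, 2, 1, 1]]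
  140187732537341 [94, 94, 130, 130, 64, 208, 238] 608871378680 :=
  cut4 4 6 1 1 1 _ [[1, 0, 0, 0, 1, 0, 0], [2, 2, 1, 1, 3, 1, 0], [2, 2, 2, 1, 3, 1, 1], [1, 1,
  1, 1, 2, 1, 1], [2, 2, 1, 1, 4, 1, 1], [0, 0, 0, 0, 1, 1, 0], [1, 1, 0, 0, 2, 1, 1]] [[1, 0, 0,
  0, 1, 0, 0], [2, 2, 1, 1, 3, 1, 0], [2, 2, 2, 1, 3, 1, 1], [1, 1, 1, 1, 2, 1, 1], [1, 1, 1, 1,
  2, 0, 0], [0, 0, 0, 0, 1, 1, 0], [2, 2, 1, 1, 4, 1, 1]] _ _ 597710600834 620032156525 _ (by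
  decide +kernel) nd320 nd323

theorem nd325 : Ok 4 Dn4 [[1, 0, 0, 0, 1, 0, 0], [2, 2, 1, 1, 3, 1, 0], [2, 2, 2, 1, 3, 1, 1],
  [1, 1, 1, 1, 2, 1, 1], [1, 1, 1, 1, 2, 0, 0], [0, 0, 0, 0, 1, 1, 0], [1, 1, 0, 0, 2, 1, 1]]
  140187732013053 [94, 94, 130, 130, 64, 208, 238] 608871378680 :=
  dec4 1 3 0 _ _ 140187732537341 _ [94, 94, 130, 130, 64, 208, 238] _ (by decide +kernel) nd324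

theorem nd326 : Ok 4 Dn4 [[1, 0, 0, 0, 1, 0, 0], [1, 1, 0, 0, 1, 1, 0], [3, 2, 2, 1, 5, 2, 1],
  [1, 1, 1, 1, 2, 1, 1], [2, 2, 1, 1, 4, 2, 0], [0, 0, 0, 0, 1, 1, 0], [3, 3, 1, 1, 6, 3, 1]]
  140737487831037 [94, 94, 130, 130, 64, 208, 238] 236720353434 :=
  cut4 1 2 1 1 1 _ [[1, 0, 0, 0, 1, 0, 0], [4, 3, 2, 1, 6, 3, 1], [3, 2, 2, 1, 5, 2, 1], [1, 1,
  1, 1, 2, 1, 1], [2, 2, 1, 1, 4, 2, 0], [0, 0, 0, 0, 1, 1, 0], [3, 3, 1, 1, 6, 3, 1]] [[1, 0, 0,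
  0, 1, 0, 0], [1, 1, 0, 0, 1, 1, 0], [4, 3, 2, 1, 6, 3, 1], [1, 1, 1, 1, 2, 1, 1], [2, 2, 1, 1,
  4, 2, 0], [0, 0, 0, 0, 1, 1, 0], [3, 3, 1, 1, 6, 3, 1]] _ _ 368685859794 203728976843 _ (by
  decide +kernel) ok160 ok161

theorem nd327 : Ok 4 Dn4 [[1, 0, 0, 0, 1, 0, 0], [1, 1, 0, 0, 1, 1, 0], [2, 2, 2, 1, 4, 2, 1],
  [1, 1, 1, 1, 2, 1, 1], [2, 2, 1, 1, 4, 2, 0], [0, 0, 0, 0, 1, 1, 0], [3, 3, 1, 1, 6, 3, 1]]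
  140737487831037 [94, 94, 130, 130, 64, 208, 238] 282810267198 :=
  cut4 0 2 1 1 1 _ [[3, 2, 2, 1, 5, 2, 1], [1, 1, 0, 0, 1, 1, 0], [2, 2, 2, 1, 4, 2, 1], [1, 1,
  1, 1, 2, 1, 1], [2, 2, 1, 1, 4, 2, 0], [0, 0, 0, 0, 1, 1, 0], [3, 3, 1, 1, 6, 3, 1]] [[1, 0, 0,
  0, 1, 0, 0], [1, 1, 0, 0, 1, 1, 0], [3, 2, 2, 1, 5, 2, 1], [1, 1, 1, 1, 2, 1, 1], [2, 2, 1, 1,
  4, 2, 0], [0, 0, 0, 0, 1, 1, 0], [3, 3, 1, 1, 6, 3, 1]] _ _ 605439663545 236720353434 _ (by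
  decide +kernel) ok159 nd326

theorem nd328 : Ok 4 Dn4 [[1, 0, 0, 0, 1, 0, 0], [1, 1, 0, 0, 1, 1, 0], [2, 2, 2, 1, 4, 2, 1],
  [1, 1, 1, 1, 2, 1, 1], [2, 2, 1, 1, 4, 2, 0], [0, 0, 0, 0, 1, 1, 0], [1, 1, 0, 0, 2, 1, 1]]
  140737487831037 [94, 94, 130, 130, 64, 208, 238] 212515348659 :=
  cut4 4 6 1 1 1 _ [[1, 0, 0, 0, 1, 0, 0], [1, 1, 0, 0, 1, 1, 0], [2, 2, 2, 1, 4, 2, 1], [1, 1,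
  1, 1, 2, 1, 1], [3, 3, 1, 1, 6, 3, 1], [0, 0, 0, 0, 1, 1, 0], [1, 1, 0, 0, 2, 1, 1]] [[1, 0, 0,
  0, 1, 0, 0], [1, 1, 0, 0, 1, 1, 0], [2, 2, 2, 1, 4, 2, 1], [1, 1, 1, 1, 2, 1, 1], [2, 2, 1, 1,
  4, 2, 0], [0, 0, 0, 0, 1, 1, 0], [3, 3, 1, 1, 6, 3, 1]] _ _ 177367889389 282810267198 _ (by
  decide +kernel) ok158 nd327

theorem nd329 : Ok 4 Dn4 [[1, 0, 0, 0, 1, 0, 0], [1, 1, 0, 0, 1, 1, 0], [2, 2, 2, 1, 4, 2, 1],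
  [1, 1, 1, 1, 2, 1, 1], [2, 2, 1, 1, 3, 1, 0], [2, 2, 1, 1, 4, 2, 0], [1, 1, 0, 0, 2, 1, 1]]
  281474976186365 [95, 95, 131, 131, 71, 215, 239] 571716303959 :=
  cut4 4 6 1 1 1 _ [[1, 0, 0, 0, 1, 0, 0], [1, 1, 0, 0, 1, 1, 0], [2, 2, 2, 1, 4, 2, 1], [1, 1,
  1, 1, 2, 1, 1], [3, 3, 1, 1, 5, 2, 1], [2, 2, 1, 1, 4, 2, 0], [1, 1, 0, 0, 2, 1, 1]] [[1, 0, 0,
  0, 1, 0, 0], [1, 1, 0, 0, 1, 1, 0], [2, 2, 2, 1, 4, 2, 1], [1, 1, 1, 1, 2, 1, 1], [2, 2, 1, 1,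
  3, 1, 0], [2, 2, 1, 1, 4, 2, 0], [3, 3, 1, 1, 5, 2, 1]] _ _ 441978602358 787945806625 _ (by
  decide +kernel) ok162 ok163

theorem nd330 : Ok 4 Dn4 [[1, 0, 0, 0, 1, 0, 0], [1, 1, 0, 0, 1, 1, 0], [2, 2, 2, 1, 4, 2, 1],
  [1, 1, 1, 1, 2, 1, 1], [2, 2, 1, 1, 3, 1, 0], [2, 2, 1, 1, 4, 2, 0], [1, 1, 0, 0, 2, 1, 1]]
  140737487831037 [94, 94, 130, 130, 64, 208, 238] 571716303959 :=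
  dec4 2 15 1 _ _ 281474976186365 _ [95, 95, 131, 131, 71, 215, 239] _ (by decide +kernel) nd329

theorem nd331 : Ok 4 Dn4 [[1, 0, 0, 0, 1, 0, 0], [1, 1, 0, 0, 1, 1, 0], [2, 2, 2, 1, 4, 2, 1],
  [1, 1, 1, 1, 2, 1, 1], [2, 2, 1, 1, 3, 1, 0], [0, 0, 0, 0, 1, 1, 0], [1, 1, 0, 0, 2, 1, 1]]
  140737487831037 [94, 94, 130, 130, 64, 208, 238] 272382174543 :=
  cut4 4 5 1 1 1 _ [[1, 0, 0, 0, 1, 0, 0], [1, 1, 0, 0, 1, 1, 0], [2, 2, 2, 1, 4, 2, 1], [1, 1,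
  1, 1, 2, 1, 1], [2, 2, 1, 1, 4, 2, 0], [0, 0, 0, 0, 1, 1, 0], [1, 1, 0, 0, 2, 1, 1]] [[1, 0, 0,
  0, 1, 0, 0], [1, 1, 0, 0, 1, 1, 0], [2, 2, 2, 1, 4, 2, 1], [1, 1, 1, 1, 2, 1, 1], [2, 2, 1, 1,
  3, 1, 0], [2, 2, 1, 1, 4, 2, 0], [1, 1, 0, 0, 2, 1, 1]] _ _ 212515348659 571716303959 _ (by
  decide +kernel) nd328 nd330

theorem nd332 : Ok 4 Dn4 [[1, 0, 0, 0, 1, 0, 0], [1, 1, 0, 0, 1, 1, 0], [2, 2, 2, 1, 4, 2, 1],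
  [1, 1, 1, 1, 2, 1, 1], [2, 2, 1, 1, 3, 1, 0], [0, 0, 0, 0, 1, 1, 0], [1, 1, 0, 0, 2, 1, 1]]
  140187732017149 [94, 94, 130, 130, 64, 208, 238] 272382174543 :=
  dec4 2 7 0 _ _ 140737487831037 _ [94, 94, 130, 130, 64, 208, 238] _ (by decide +kernel) nd331

theorem nd333 : Ok 4 Dn4 [[1, 0, 0, 0, 1, 0, 0], [1, 1, 0, 0, 1, 1, 0], [2, 2, 2, 1, 3, 1, 1],
  [1, 1, 1, 1, 2, 1, 1], [2, 2, 1, 1, 3, 1, 0], [2, 2, 2, 1, 4, 2, 1], [1, 1, 0, 0, 2, 1, 1]]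
  281474976186365 [97, 97, 133, 145, 85, 229, 241] 572639940320 :=
  cut4 0 2 1 1 1 _ [[3, 2, 2, 1, 4, 1, 1], [1, 1, 0, 0, 1, 1, 0], [2, 2, 2, 1, 3, 1, 1], [1, 1,
  1, 1, 2, 1, 1], [2, 2, 1, 1, 3, 1, 0], [2, 2, 2, 1, 4, 2, 1], [1, 1, 0, 0, 2, 1, 1]] [[1, 0, 0,
  0, 1, 0, 0], [1, 1, 0, 0, 1, 1, 0], [3, 2, 2, 1, 4, 1, 1], [1, 1, 1, 1, 2, 1, 1], [2, 2, 1, 1,
  3, 1, 0], [2, 2, 2, 1, 4, 2, 1], [1, 1, 0, 0, 2, 1, 1]] _ _ 1254476750707 459000471922 _ (by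
  decide +kernel) ok164 ok165

theorem nd334 : Ok 4 Dn4 [[1, 0, 0, 0, 1, 0, 0], [1, 1, 0, 0, 1, 1, 0], [2, 2, 2, 1, 3, 1, 1],
  [1, 1, 1, 1, 2, 1, 1], [2, 2, 1, 1, 3, 1, 0], [2, 2, 2, 1, 4, 2, 1], [1, 1, 0, 0, 2, 1, 1]]
  140737487831037 [96, 96, 132, 144, 78, 222, 240] 572639940320 :=
  dec4 2 15 1 _ _ 281474976186365 _ [97, 97, 133, 145, 85, 229, 241] _ (by decide +kernel) nd333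

theorem nd335 : Ok 4 Dn4 [[1, 0, 0, 0, 1, 0, 0], [1, 1, 0, 0, 1, 1, 0], [2, 2, 2, 1, 3, 1, 1],
  [1, 1, 1, 1, 2, 1, 1], [2, 2, 1, 1, 3, 1, 0], [2, 2, 2, 1, 4, 2, 1], [1, 1, 0, 0, 2, 1, 1]]
  140187732017149 [94, 94, 130, 130, 64, 208, 238] 572639940320 :=
  dec4 2 7 1 _ _ 140737487831037 _ [96, 96, 132, 144, 78, 222, 240] _ (by decide +kernel) nd334

theorem nd336 : Ok 4 Dn4 [[1, 0, 0, 0, 1, 0, 0], [1, 1, 0, 0, 1, 1, 0], [2, 2, 2, 1, 3, 1, 1],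
  [1, 1, 1, 1, 2, 1, 1], [2, 2, 1, 1, 3, 1, 0], [0, 0, 0, 0, 1, 1, 0], [1, 1, 0, 0, 2, 1, 1]]
  140187732017149 [94, 94, 130, 130, 64, 208, 238] 315276141083 :=
  cut4 2 5 1 1 1 _ [[1, 0, 0, 0, 1, 0, 0], [1, 1, 0, 0, 1, 1, 0], [2, 2, 2, 1, 4, 2, 1], [1, 1,
  1, 1, 2, 1, 1], [2, 2, 1, 1, 3, 1, 0], [0, 0, 0, 0, 1, 1, 0], [1, 1, 0, 0, 2, 1, 1]] [[1, 0, 0,
  0, 1, 0, 0], [1, 1, 0, 0, 1, 1, 0], [2, 2, 2, 1, 3, 1, 1], [1, 1, 1, 1, 2, 1, 1], [2, 2, 1, 1,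
  3, 1, 0], [2, 2, 2, 1, 4, 2, 1], [1, 1, 0, 0, 2, 1, 1]] _ _ 272382174543 572639940320 _ (by
  decide +kernel) nd332 nd335

theorem nd337 : Ok 4 Dn4 [[1, 0, 0, 0, 1, 0, 0], [1, 1, 0, 0, 1, 1, 0], [2, 2, 2, 1, 3, 1, 1],
  [1, 1, 1, 1, 2, 1, 1], [2, 2, 1, 1, 3, 1, 0], [0, 0, 0, 0, 1, 1, 0], [1, 1, 0, 0, 2, 1, 1]]
  140187732013053 [94, 94, 130, 130, 64, 208, 238] 315276141083 :=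
  dec4 0 12 0 _ _ 140187732017149 _ [94, 94, 130, 130, 64, 208, 238] _ (by decide +kernel) nd336

theorem nd338 : Ok 4 Dn4 [[1, 0, 0, 0, 1, 0, 0], [1, 1, 0, 0, 1, 1, 0], [2, 2, 2, 1, 3, 1, 1],
  [1, 1, 1, 1, 2, 1, 1], [1, 1, 1, 1, 2, 0, 0], [0, 0, 0, 0, 1, 1, 0], [1, 1, 0, 0, 2, 1, 1]]
  140187732013053 [94, 94, 130, 130, 64, 208, 238] 432714236122 :=
  cut4 1 4 1 1 1 _ [[1, 0, 0, 0, 1, 0, 0], [2, 2, 1, 1, 3, 1, 0], [2, 2, 2, 1, 3, 1, 1], [1, 1,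
  1, 1, 2, 1, 1], [1, 1, 1, 1, 2, 0, 0], [0, 0, 0, 0, 1, 1, 0], [1, 1, 0, 0, 2, 1, 1]] [[1, 0, 0,
  0, 1, 0, 0], [1, 1, 0, 0, 1, 1, 0], [2, 2, 2, 1, 3, 1, 1], [1, 1, 1, 1, 2, 1, 1], [2, 2, 1, 1,
  3, 1, 0], [0, 0, 0, 0, 1, 1, 0], [1, 1, 0, 0, 2, 1, 1]] _ _ 608871378680 315276141083 _ (by
  decide +kernel) nd325 nd337

theorem nd339 : Ok 4 Dn4 [[1, 0, 0, 0, 1, 0, 0], [1, 1, 0, 0, 1, 1, 0], [2, 2, 2, 1, 3, 1, 1],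
  [1, 1, 1, 1, 2, 1, 1], [1, 1, 1, 1, 2, 0, 0], [0, 0, 0, 0, 1, 1, 0], [1, 1, 0, 0, 2, 1, 1]]
  131391638990845 [94, 94, 130, 130, 64, 208, 238] 432714236122 :=
  dec4 2 11 0 _ _ 140187732013053 _ [94, 94, 130, 130, 64, 208, 238] _ (by decide +kernel) nd338

theorem nd340 : Ok 4 Dn4 [[1, 0, 0, 0, 1, 0, 0], [1, 1, 0, 0, 1, 1, 0], [2, 2, 2, 1, 3, 1, 1],
  [1, 1, 1, 1, 2, 1, 1], [1, 1, 1, 1, 2, 0, 0], [0, 0, 0, 0, 1, 1, 0], [1, 1, 0, 0, 2, 1, 1]]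
  131357279252477 [94, 94, 130, 130, 64, 208, 238] 432714236122 :=
  dec4 2 3 0 _ _ 131391638990845 _ [94, 94, 130, 130, 64, 208, 238] _ (by decide +kernel) nd339

theorem nd341 : Ok 4 Dn4 [[1, 0, 0, 0, 1, 0, 0], [2, 2, 1, 1, 2, 0, 0], [3, 2, 2, 1, 4, 1, 1],
  [1, 1, 1, 1, 2, 1, 1], [2, 2, 1, 1, 3, 1, 0], [1, 1, 0, 0, 1, 1, 0], [3, 3, 1, 1, 4, 1, 1]]
  281474976186365 [99, 99, 147, 147, 99, 243, 243] 555082835533 :=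
  cut4 0 3 1 1 1 _ [[2, 1, 1, 1, 3, 1, 1], [2, 2, 1, 1, 2, 0, 0], [3, 2, 2, 1, 4, 1, 1], [1, 1,
  1, 1, 2, 1, 1], [2, 2, 1, 1, 3, 1, 0], [1, 1, 0, 0, 1, 1, 0], [3, 3, 1, 1, 4, 1, 1]] [[1, 0, 0,
  0, 1, 0, 0], [2, 2, 1, 1, 2, 0, 0], [3, 2, 2, 1, 4, 1, 1], [2, 1, 1, 1, 3, 1, 1], [2, 2, 1, 1,
  3, 1, 0], [1, 1, 0, 0, 1, 1, 0], [3, 3, 1, 1, 4, 1, 1]] _ _ 1881058703605 223588868514 _ (by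
  decide +kernel) ok168 ok169

theorem nd342 : Ok 4 Dn4 [[1, 0, 0, 0, 1, 0, 0], [2, 2, 1, 1, 2, 0, 0], [2, 2, 2, 1, 3, 1, 1],
  [1, 1, 1, 1, 2, 1, 1], [2, 2, 1, 1, 3, 1, 0], [1, 1, 0, 0, 1, 1, 0], [3, 3, 1, 1, 4, 1, 1]]
  281474976186365 [99, 99, 147, 147, 99, 243, 243] 741427749580 :=
  cut4 0 2 1 1 1 _ [[3, 2, 2, 1, 4, 1, 1], [2, 2, 1, 1, 2, 0, 0], [2, 2, 2, 1, 3, 1, 1], [1, 1,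
  1, 1, 2, 1, 1], [2, 2, 1, 1, 3, 1, 0], [1, 1, 0, 0, 1, 1, 0], [3, 3, 1, 1, 4, 1, 1]] [[1, 0, 0,
  0, 1, 0, 0], [2, 2, 1, 1, 2, 0, 0], [3, 2, 2, 1, 4, 1, 1], [1, 1, 1, 1, 2, 1, 1], [2, 2, 1, 1,
  3, 1, 0], [1, 1, 0, 0, 1, 1, 0], [3, 3, 1, 1, 4, 1, 1]] _ _ 1859497233862 555082835533 _ (by
  decide +kernel) ok167 nd341

theorem nd343 : Ok 4 Dn4 [[1, 0, 0, 0, 1, 0, 0], [2, 2, 1, 1, 2, 0, 0], [2, 2, 2, 1, 3, 1, 1],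
  [1, 1, 1, 1, 2, 1, 1], [2, 2, 1, 1, 3, 1, 0], [1, 1, 0, 0, 1, 1, 0], [1, 1, 0, 0, 2, 1, 1]]
  281474976186365 [99, 99, 147, 147, 99, 243, 243] 528432911664 :=
  cut4 1 6 1 1 1 _ [[1, 0, 0, 0, 1, 0, 0], [3, 3, 1, 1, 4, 1, 1], [2, 2, 2, 1, 3, 1, 1], [1, 1,
  1, 1, 2, 1, 1], [2, 2, 1, 1, 3, 1, 0], [1, 1, 0, 0, 1, 1, 0], [1, 1, 0, 0, 2, 1, 1]] [[1, 0, 0,
  0, 1, 0, 0], [2, 2, 1, 1, 2, 0, 0], [2, 2, 2, 1, 3, 1, 1], [1, 1, 1, 1, 2, 1, 1], [2, 2, 1, 1,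
  3, 1, 0], [1, 1, 0, 0, 1, 1, 0], [3, 3, 1, 1, 4, 1, 1]] _ _ 368686783227 741427749580 _ (by
  decide +kernel) ok166 nd342

theorem nd344 : Ok 4 Dn4 [[1, 0, 0, 0, 1, 0, 0], [2, 2, 1, 1, 2, 0, 0], [2, 2, 2, 1, 3, 1, 1],
  [1, 1, 1, 1, 2, 1, 1], [2, 2, 1, 1, 3, 1, 0], [1, 1, 0, 0, 1, 1, 0], [1, 1, 0, 0, 2, 1, 1]]
  281474976182269 [99, 99, 147, 147, 99, 243, 243] 528432911664 :=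
  dec4 0 12 0 _ _ 281474976186365 _ [99, 99, 147, 147, 99, 243, 243] _ (by decide +kernel) nd343

theorem nd345 : Ok 4 Dn4 [[1, 0, 0, 0, 1, 0, 0], [2, 2, 1, 1, 2, 0, 0], [2, 2, 2, 1, 3, 1, 1],
  [1, 1, 1, 1, 2, 1, 1], [1, 1, 1, 1, 2, 0, 0], [1, 1, 0, 0, 1, 1, 0], [1, 1, 0, 0, 2, 1, 1]]
  281474976182269 [99, 99, 147, 147, 99, 243, 243] 591532524802 :=
  cut4 4 5 1 1 1 _ [[1, 0, 0, 0, 1, 0, 0], [2, 2, 1, 1, 2, 0, 0], [2, 2, 2, 1, 3, 1, 1], [1, 1,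
  1, 1, 2, 1, 1], [2, 2, 1, 1, 3, 1, 0], [1, 1, 0, 0, 1, 1, 0], [1, 1, 0, 0, 2, 1, 1]] [[1, 0, 0,
  0, 1, 0, 0], [2, 2, 1, 1, 2, 0, 0], [2, 2, 2, 1, 3, 1, 1], [1, 1, 1, 1, 2, 1, 1], [1, 1, 1, 1,
  2, 0, 0], [2, 2, 1, 1, 3, 1, 0], [1, 1, 0, 0, 2, 1, 1]] _ _ 528432911664 686181944508 _ (by
  decide +kernel) nd344 ok170

theorem nd346 : Ok 4 Dn4 [[1, 0, 0, 0, 1, 0, 0], [2, 2, 1, 1, 2, 0, 0], [2, 2, 2, 1, 3, 1, 1],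
  [1, 1, 1, 1, 2, 1, 1], [1, 1, 1, 1, 2, 0, 0], [1, 1, 0, 0, 1, 1, 0], [1, 1, 0, 0, 2, 1, 1]]
  281440616443901 [99, 99, 147, 147, 99, 243, 243] 591532524802 :=
  dec4 2 3 0 _ _ 281474976182269 _ [99, 99, 147, 147, 99, 243, 243] _ (by decide +kernel) nd345

theorem nd347 : Ok 4 Dn4 [[1, 0, 0, 0, 1, 0, 0], [4, 3, 2, 1, 4, 1, 1], [3, 2, 2, 1, 4, 1, 1],
  [1, 1, 1, 1, 2, 1, 1], [2, 2, 1, 1, 2, 0, 0], [1, 1, 0, 0, 1, 1, 0], [3, 3, 1, 1, 4, 1, 1]]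
  281474976186365 [99, 99, 147, 147, 99, 243, 243] 528273696565 :=
  cut4 0 3 1 1 1 _ [[2, 1, 1, 1, 3, 1, 1], [4, 3, 2, 1, 4, 1, 1], [3, 2, 2, 1, 4, 1, 1], [1, 1,
  1, 1, 2, 1, 1], [2, 2, 1, 1, 2, 0, 0], [1, 1, 0, 0, 1, 1, 0], [3, 3, 1, 1, 4, 1, 1]] [[1, 0, 0,
  0, 1, 0, 0], [4, 3, 2, 1, 4, 1, 1], [3, 2, 2, 1, 4, 1, 1], [2, 1, 1, 1, 3, 1, 1], [2, 2, 1, 1,
  2, 0, 0], [1, 1, 0, 0, 1, 1, 0], [3, 3, 1, 1, 4, 1, 1]] _ _ 1794063573758 211826227266 _ (by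
  decide +kernel) ok174 ok175

theorem nd348 : Ok 4 Dn4 [[1, 0, 0, 0, 1, 0, 0], [4, 3, 2, 1, 4, 1, 1], [2, 2, 2, 1, 3, 1, 1],
  [1, 1, 1, 1, 2, 1, 1], [2, 2, 1, 1, 2, 0, 0], [1, 1, 0, 0, 1, 1, 0], [3, 3, 1, 1, 4, 1, 1]]
  281474976186365 [99, 99, 147, 147, 99, 243, 243] 706407059255 :=
  cut4 0 2 1 1 1 _ [[3, 2, 2, 1, 4, 1, 1], [4, 3, 2, 1, 4, 1, 1], [2, 2, 2, 1, 3, 1, 1], [1, 1,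
  1, 1, 2, 1, 1], [2, 2, 1, 1, 2, 0, 0], [1, 1, 0, 0, 1, 1, 0], [3, 3, 1, 1, 4, 1, 1]] [[1, 0, 0,
  0, 1, 0, 0], [4, 3, 2, 1, 4, 1, 1], [3, 2, 2, 1, 4, 1, 1], [1, 1, 1, 1, 2, 1, 1], [2, 2, 1, 1,
  2, 0, 0], [1, 1, 0, 0, 1, 1, 0], [3, 3, 1, 1, 4, 1, 1]] _ _ 1775207235393 528273696565 _ (by
  decide +kernel) ok173 nd347

theorem nd349 : Ok 4 Dn4 [[1, 0, 0, 0, 1, 0, 0], [3, 3, 2, 1, 3, 1, 1], [2, 2, 2, 1, 3, 1, 1],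
  [1, 1, 1, 1, 2, 1, 1], [2, 2, 1, 1, 2, 0, 0], [1, 1, 0, 0, 1, 1, 0], [3, 3, 1, 1, 4, 1, 1]]
  281474976186365 [99, 99, 147, 147, 99, 243, 243] 836427003081 :=
  cut4 0 1 1 1 1 _ [[4, 3, 2, 1, 4, 1, 1], [3, 3, 2, 1, 3, 1, 1], [2, 2, 2, 1, 3, 1, 1], [1, 1,
  1, 1, 2, 1, 1], [2, 2, 1, 1, 2, 0, 0], [1, 1, 0, 0, 1, 1, 0], [3, 3, 1, 1, 4, 1, 1]] [[1, 0, 0,
  0, 1, 0, 0], [4, 3, 2, 1, 4, 1, 1], [2, 2, 2, 1, 3, 1, 1], [1, 1, 1, 1, 2, 1, 1], [2, 2, 1, 1,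
  2, 0, 0], [1, 1, 0, 0, 1, 1, 0], [3, 3, 1, 1, 4, 1, 1]] _ _ 1746566609856 706407059255 _ (by
  decide +kernel) ok172 nd348

theorem nd350 : Ok 4 Dn4 [[1, 0, 0, 0, 1, 0, 0], [3, 3, 2, 1, 3, 1, 1], [2, 2, 2, 1, 3, 1, 1],
  [1, 1, 1, 1, 2, 1, 1], [2, 2, 1, 1, 2, 0, 0], [1, 1, 0, 0, 1, 1, 0], [3, 3, 1, 1, 4, 1, 1]]
  281440616447997 [99, 99, 147, 147, 99, 243, 243] 836427003081 :=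
  dec4 2 3 0 _ _ 281474976186365 _ [99, 99, 147, 147, 99, 243, 243] _ (by decide +kernel) nd349

theorem nd351 : Ok 4 Dn4 [[1, 0, 0, 0, 1, 0, 0], [2, 2, 1, 1, 2, 1, 1], [3, 3, 2, 1, 3, 1, 1],
  [1, 1, 1, 1, 2, 1, 1], [2, 2, 1, 1, 2, 0, 0], [1, 1, 0, 0, 1, 1, 0], [3, 3, 1, 1, 4, 1, 1]]
  281474976186365 [99, 99, 147, 147, 99, 243, 243] 808202913572 :=
  cut4 0 1 1 1 1 _ [[3, 2, 1, 1, 3, 1, 1], [2, 2, 1, 1, 2, 1, 1], [3, 3, 2, 1, 3, 1, 1], [1, 1,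
  1, 1, 2, 1, 1], [2, 2, 1, 1, 2, 0, 0], [1, 1, 0, 0, 1, 1, 0], [3, 3, 1, 1, 4, 1, 1]] [[1, 0, 0,
  0, 1, 0, 0], [3, 2, 1, 1, 3, 1, 1], [3, 3, 2, 1, 3, 1, 1], [1, 1, 1, 1, 2, 1, 1], [2, 2, 1, 1,
  2, 0, 0], [1, 1, 0, 0, 1, 1, 0], [3, 3, 1, 1, 4, 1, 1]] _ _ 1691635625409 631516371204 _ (by
  decide +kernel) ok176 ok177

theorem nd352 : Ok 4 Dn4 [[1, 0, 0, 0, 1, 0, 0], [2, 2, 1, 1, 2, 1, 1], [3, 3, 2, 1, 3, 1, 1],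
  [1, 1, 1, 1, 2, 1, 1], [2, 2, 1, 1, 2, 0, 0], [1, 1, 0, 0, 1, 1, 0], [3, 3, 1, 1, 4, 1, 1]]
  281440616447997 [99, 99, 147, 147, 99, 243, 243] 808202913572 :=
  dec4 2 3 0 _ _ 281474976186365 _ [99, 99, 147, 147, 99, 243, 243] _ (by decide +kernel) nd351

theorem nd353 : Ok 4 Dn4 [[1, 0, 0, 0, 1, 0, 0], [1, 1, 0, 0, 0, 0, 0], [3, 3, 2, 1, 3, 1, 1],
  [1, 1, 1, 1, 2, 1, 1], [2, 2, 1, 1, 2, 0, 0], [1, 1, 0, 0, 1, 1, 0], [3, 3, 1, 1, 4, 1, 1]]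
  281440616447997 [99, 99, 147, 147, 99, 243, 243] 351386929301 :=
  cut4 1 3 1 1 1 _ [[1, 0, 0, 0, 1, 0, 0], [2, 2, 1, 1, 2, 1, 1], [3, 3, 2, 1, 3, 1, 1], [1, 1,
  1, 1, 2, 1, 1], [2, 2, 1, 1, 2, 0, 0], [1, 1, 0, 0, 1, 1, 0], [3, 3, 1, 1, 4, 1, 1]] [[1, 0, 0,
  0, 1, 0, 0], [1, 1, 0, 0, 0, 0, 0], [3, 3, 2, 1, 3, 1, 1], [2, 2, 1, 1, 2, 1, 1], [2, 2, 1, 1,
  2, 0, 0], [1, 1, 0, 0, 1, 1, 0], [3, 3, 1, 1, 4, 1, 1]] _ _ 808202913572 237182933233 _ (by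
  decide +kernel) nd352 ok178

theorem nd354 : Ok 4 Dn4 [[1, 0, 0, 0, 1, 0, 0], [1, 1, 0, 0, 0, 0, 0], [2, 2, 2, 1, 3, 1, 1],
  [1, 1, 1, 1, 2, 1, 1], [2, 2, 1, 1, 2, 0, 0], [1, 1, 0, 0, 1, 1, 0], [3, 3, 1, 1, 4, 1, 1]]
  281440616447997 [99, 99, 147, 147, 99, 243, 243] 420678368413 :=
  cut4 1 2 1 1 1 _ [[1, 0, 0, 0, 1, 0, 0], [3, 3, 2, 1, 3, 1, 1], [2, 2, 2, 1, 3, 1, 1], [1, 1,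
  1, 1, 2, 1, 1], [2, 2, 1, 1, 2, 0, 0], [1, 1, 0, 0, 1, 1, 0], [3, 3, 1, 1, 4, 1, 1]] [[1, 0, 0,
  0, 1, 0, 0], [1, 1, 0, 0, 0, 0, 0], [3, 3, 2, 1, 3, 1, 1], [1, 1, 1, 1, 2, 1, 1], [2, 2, 1, 1,
  2, 0, 0], [1, 1, 0, 0, 1, 1, 0], [3, 3, 1, 1, 4, 1, 1]] _ _ 836427003081 351386929301 _ (by
  decide +kernel) nd350 nd353

theorem nd355 : Ok 4 Dn4 [[1, 0, 0, 0, 1, 0, 0], [1, 1, 0, 0, 0, 0, 0], [2, 2, 2, 1, 3, 1, 1],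
  [1, 1, 1, 1, 2, 1, 1], [2, 2, 1, 1, 2, 0, 0], [1, 1, 0, 0, 1, 1, 0], [1, 1, 0, 0, 2, 1, 1]]
  281440616447997 [99, 99, 147, 147, 99, 243, 243] 294468319725 :=
  cut4 4 6 1 1 1 _ [[1, 0, 0, 0, 1, 0, 0], [1, 1, 0, 0, 0, 0, 0], [2, 2, 2, 1, 3, 1, 1], [1, 1,
  1, 1, 2, 1, 1], [3, 3, 1, 1, 4, 1, 1], [1, 1, 0, 0, 1, 1, 0], [1, 1, 0, 0, 2, 1, 1]] [[1, 0, 0,
  0, 1, 0, 0], [1, 1, 0, 0, 0, 0, 0], [2, 2, 2, 1, 3, 1, 1], [1, 1, 1, 1, 2, 1, 1], [2, 2, 1, 1,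
  2, 0, 0], [1, 1, 0, 0, 1, 1, 0], [3, 3, 1, 1, 4, 1, 1]] _ _ 199810783208 420678368413 _ (by
  decide +kernel) ok171 nd354

theorem nd356 : Ok 4 Dn4 [[1, 0, 0, 0, 1, 0, 0], [1, 1, 0, 0, 0, 0, 0], [2, 2, 2, 1, 3, 1, 1],
  [1, 1, 1, 1, 2, 1, 1], [2, 2, 1, 1, 2, 0, 0], [1, 1, 0, 0, 1, 1, 0], [1, 1, 0, 0, 2, 1, 1]]
  281440616443901 [99, 99, 147, 147, 99, 243, 243] 294468319725 :=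
  dec4 0 12 0 _ _ 281440616447997 _ [99, 99, 147, 147, 99, 243, 243] _ (by decide +kernel) nd355

theorem nd357 : Ok 4 Dn4 [[1, 0, 0, 0, 1, 0, 0], [1, 1, 0, 0, 0, 0, 0], [2, 2, 2, 1, 3, 1, 1],
  [1, 1, 1, 1, 2, 1, 1], [1, 1, 1, 1, 2, 0, 0], [1, 1, 0, 0, 1, 1, 0], [1, 1, 0, 0, 2, 1, 1]]
  281440616443901 [99, 99, 147, 147, 99, 243, 243] 368734370995 :=
  cut4 1 4 1 1 1 _ [[1, 0, 0, 0, 1, 0, 0], [2, 2, 1, 1, 2, 0, 0], [2, 2, 2, 1, 3, 1, 1], [1, 1,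
  1, 1, 2, 1, 1], [1, 1, 1, 1, 2, 0, 0], [1, 1, 0, 0, 1, 1, 0], [1, 1, 0, 0, 2, 1, 1]] [[1, 0, 0,
  0, 1, 0, 0], [1, 1, 0, 0, 0, 0, 0], [2, 2, 2, 1, 3, 1, 1], [1, 1, 1, 1, 2, 1, 1], [2, 2, 1, 1,
  2, 0, 0], [1, 1, 0, 0, 1, 1, 0], [1, 1, 0, 0, 2, 1, 1]] _ _ 591532524802 294468319725 _ (by
  decide +kernel) nd346 nd356

theorem nd358 : Ok 4 Dn4 [[1, 0, 0, 0, 1, 0, 0], [1, 1, 0, 0, 0, 0, 0], [2, 2, 2, 1, 3, 1, 1],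
  [1, 1, 1, 1, 2, 1, 1], [1, 1, 1, 1, 2, 0, 0], [1, 1, 0, 0, 1, 1, 0], [1, 1, 0, 0, 2, 1, 1]]
  140703128088573 [98, 98, 146, 146, 92, 236, 242] 368734370995 :=
  dec4 2 15 1 _ _ 281440616443901 _ [99, 99, 147, 147, 99, 243, 243] _ (by decide +kernel) nd357

theorem nd359 : Ok 4 Dn4 [[1, 0, 0, 0, 1, 0, 0], [1, 1, 0, 0, 0, 0, 0], [2, 2, 2, 1, 3, 1, 1],
  [1, 1, 1, 1, 2, 1, 1], [1, 1, 1, 1, 2, 0, 0], [1, 1, 0, 0, 1, 1, 0], [1, 1, 0, 0, 2, 1, 1]]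
  131907035066365 [96, 96, 132, 144, 78, 222, 240] 368734370995 :=
  dec4 2 11 1 _ _ 140703128088573 _ [98, 98, 146, 146, 92, 236, 242] _ (by decide +kernel) nd358

theorem nd360 : Ok 4 Dn4 [[1, 0, 0, 0, 1, 0, 0], [1, 1, 0, 0, 0, 0, 0], [2, 2, 2, 1, 3, 1, 1],
  [1, 1, 1, 1, 2, 1, 1], [1, 1, 1, 1, 2, 0, 0], [1, 1, 0, 0, 1, 1, 0], [1, 1, 0, 0, 2, 1, 1]]
  131357279252477 [94, 94, 130, 130, 64, 208, 238] 368734370995 :=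
  dec4 2 7 1 _ _ 131907035066365 _ [96, 96, 132, 144, 78, 222, 240] _ (by decide +kernel) nd359

theorem nd361 : Ok 4 Dn4 [[1, 0, 0, 0, 1, 0, 0], [1, 1, 0, 0, 0, 0, 0], [2, 2, 2, 1, 3, 1, 1],
  [1, 1, 1, 1, 2, 1, 1], [1, 1, 1, 1, 2, 0, 0], [0, 0, 0, 0, 1, 1, 0], [1, 1, 0, 0, 2, 1, 1]]
  131357279252477 [94, 94, 130, 130, 64, 208, 238] 400724303559 :=
  cut4 1 5 1 1 1 _ [[1, 0, 0, 0, 1, 0, 0], [1, 1, 0, 0, 1, 1, 0], [2, 2, 2, 1, 3, 1, 1], [1, 1,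
  1, 1, 2, 1, 1], [1, 1, 1, 1, 2, 0, 0], [0, 0, 0, 0, 1, 1, 0], [1, 1, 0, 0, 2, 1, 1]] [[1, 0, 0,
  0, 1, 0, 0], [1, 1, 0, 0, 0, 0, 0], [2, 2, 2, 1, 3, 1, 1], [1, 1, 1, 1, 2, 1, 1], [1, 1, 1, 1,
  2, 0, 0], [1, 1, 0, 0, 1, 1, 0], [1, 1, 0, 0, 2, 1, 1]] _ _ 432714236122 368734370995 _ (by
  decide +kernel) nd340 nd360

theorem nd362 : Ok 4 Dn4 [[1, 0, 0, 0, 1, 0, 0], [1, 1, 0, 0, 0, 0, 0], [2, 2, 2, 1, 3, 1, 1],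
  [1, 1, 1, 1, 2, 1, 1], [1, 1, 1, 1, 2, 0, 0], [0, 0, 0, 0, 1, 1, 0], [1, 1, 0, 0, 2, 1, 1]]
  131357279251453 [66, 90, 102, 126, 60, 180, 210] 400724303559 :=
  dec4 0 10 1 _ _ 131357279252477 _ [94, 94, 130, 130, 64, 208, 238] _ (by decide +kernel) nd361

theorem nd363 : Ok 4 Dn4 [[1, 0, 0, 0, 1, 0, 0], [1, 1, 0, 0, 0, 0, 0], [2, 2, 2, 1, 3, 1, 1],
  [1, 1, 1, 1, 2, 1, 1], [1, 1, 1, 1, 2, 0, 0], [0, 0, 0, 0, 1, 1, 0], [1, 1, 0, 0, 2, 1, 1]]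
  131357279250941 [62, 62, 74, 122, 56, 152, 182] 400724303559 :=
  dec4 0 9 1 _ _ 131357279251453 _ [66, 90, 102, 126, 60, 180, 210] _ (by decide +kernel) nd362

theorem nd364 : Ok 4 Dn4 [[1, 0, 0, 0, 1, 0, 0], [1, 1, 0, 0, 1, 1, 0], [1, 1, 1, 0, 1, 1, 1],
  [1, 1, 1, 1, 2, 1, 1], [2, 2, 2, 1, 3, 1, 1], [0, 0, 0, 0, 1, 1, 0], [1, 1, 0, 0, 2, 1, 1]]
  140187732016637 [62, 62, 74, 122, 56, 152, 182] 369259866634 :=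
  cut4 0 2 1 1 1 _ [[2, 1, 1, 0, 2, 1, 1], [1, 1, 0, 0, 1, 1, 0], [1, 1, 1, 0, 1, 1, 1], [1, 1,
  1, 1, 2, 1, 1], [2, 2, 2, 1, 3, 1, 1], [0, 0, 0, 0, 1, 1, 0], [1, 1, 0, 0, 2, 1, 1]] [[1, 0, 0,
  0, 1, 0, 0], [1, 1, 0, 0, 1, 1, 0], [2, 1, 1, 0, 2, 1, 1], [1, 1, 1, 1, 2, 1, 1], [2, 2, 2, 1,
  3, 1, 1], [0, 0, 0, 0, 1, 1, 0], [1, 1, 0, 0, 2, 1, 1]] _ _ 594019117326 294340116403 _ (by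
  decide +kernel) ok179 ok180

theorem nd365 : Ok 4 Dn4 [[1, 0, 0, 0, 1, 0, 0], [1, 1, 0, 0, 1, 1, 0], [1, 1, 1, 0, 1, 1, 1],
  [1, 1, 1, 1, 2, 1, 1], [2, 2, 2, 1, 3, 1, 1], [0, 0, 0, 0, 1, 1, 0], [1, 1, 0, 0, 2, 1, 1]]
  131391638994429 [62, 62, 74, 122, 56, 152, 182] 369259866634 :=
  dec4 2 11 0 _ _ 140187732016637 _ [62, 62, 74, 122, 56, 152, 182] _ (by decide +kernel) nd364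

theorem nd366 : Ok 4 Dn4 [[1, 0, 0, 0, 1, 0, 0], [1, 1, 0, 0, 1, 1, 0], [1, 1, 1, 0, 1, 1, 1],
  [1, 1, 1, 1, 2, 1, 1], [2, 2, 2, 1, 3, 1, 1], [0, 0, 0, 0, 1, 1, 0], [1, 1, 0, 0, 2, 1, 1]]
  131357279256061 [62, 62, 74, 122, 56, 152, 182] 369259866634 :=
  dec4 2 3 0 _ _ 131391638994429 _ [62, 62, 74, 122, 56, 152, 182] _ (by decide +kernel) nd365

theorem nd367 : Ok 4 Dn4 [[1, 0, 0, 0, 1, 0, 0], [1, 1, 0, 0, 0, 0, 0], [1, 1, 1, 0, 1, 1, 1],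
  [1, 1, 1, 1, 2, 1, 1], [2, 2, 2, 1, 3, 1, 1], [0, 0, 0, 0, 1, 1, 0], [1, 1, 0, 0, 2, 1, 1]]
  131357279256061 [62, 62, 74, 122, 56, 152, 182] 412529530875 :=
  cut4 1 5 1 1 1 _ [[1, 0, 0, 0, 1, 0, 0], [1, 1, 0, 0, 1, 1, 0], [1, 1, 1, 0, 1, 1, 1], [1, 1,
  1, 1, 2, 1, 1], [2, 2, 2, 1, 3, 1, 1], [0, 0, 0, 0, 1, 1, 0], [1, 1, 0, 0, 2, 1, 1]] [[1, 0, 0,
  0, 1, 0, 0], [1, 1, 0, 0, 0, 0, 0], [1, 1, 1, 0, 1, 1, 1], [1, 1, 1, 1, 2, 1, 1], [2, 2, 2, 1,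
  3, 1, 1], [1, 1, 0, 0, 1, 1, 0], [1, 1, 0, 0, 2, 1, 1]] _ _ 369259866634 455799195116 _ (by
  decide +kernel) nd366 ok181

theorem nd368 : Ok 4 Dn4 [[1, 0, 0, 0, 1, 0, 0], [1, 1, 0, 0, 0, 0, 0], [1, 1, 1, 0, 1, 1, 1],
  [1, 1, 1, 1, 2, 1, 1], [2, 2, 2, 1, 3, 1, 1], [0, 0, 0, 0, 1, 1, 0], [1, 1, 0, 0, 2, 1, 1]]
  131357279251965 [62, 62, 74, 122, 56, 152, 182] 412529530875 :=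
  dec4 0 12 0 _ _ 131357279256061 _ [62, 62, 74, 122, 56, 152, 182] _ (by decide +kernel) nd367

theorem nd369 : Ok 4 Dn4 [[1, 0, 0, 0, 1, 0, 0], [1, 1, 0, 0, 0, 0, 0], [1, 1, 1, 0, 1, 1, 1],
  [1, 1, 1, 1, 2, 1, 1], [2, 2, 2, 1, 3, 1, 1], [0, 0, 0, 0, 1, 1, 0], [1, 1, 0, 0, 2, 1, 1]]
  131357279250941 [62, 62, 74, 122, 56, 152, 182] 412529530875 :=
  dec4 0 10 0 _ _ 131357279251965 _ [62, 62, 74, 122, 56, 152, 182] _ (by decide +kernel) nd368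

theorem nd370 : Ok 4 Dn4 [[1, 0, 0, 0, 1, 0, 0], [1, 1, 0, 0, 0, 0, 0], [1, 1, 1, 0, 1, 1, 1],
  [1, 1, 1, 1, 2, 1, 1], [1, 1, 1, 1, 2, 0, 0], [0, 0, 0, 0, 1, 1, 0], [1, 1, 0, 0, 2, 1, 1]]
  131357279250941 [62, 62, 74, 122, 56, 152, 182] 406626917217 :=
  cut4 2 4 1 1 1 _ [[1, 0, 0, 0, 1, 0, 0], [1, 1, 0, 0, 0, 0, 0], [2, 2, 2, 1, 3, 1, 1], [1, 1,
  1, 1, 2, 1, 1], [1, 1, 1, 1, 2, 0, 0], [0, 0, 0, 0, 1, 1, 0], [1, 1, 0, 0, 2, 1, 1]] [[1, 0, 0,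
  0, 1, 0, 0], [1, 1, 0, 0, 0, 0, 0], [1, 1, 1, 0, 1, 1, 1], [1, 1, 1, 1, 2, 1, 1], [2, 2, 2, 1,
  3, 1, 1], [0, 0, 0, 0, 1, 1, 0], [1, 1, 0, 0, 2, 1, 1]] _ _ 400724303559 412529530875 _ (by
  decide +kernel) nd363 nd369

theorem nd371 : Ok 4 Dn4 [[1, 0, 0, 0, 1, 0, 0], [1, 1, 0, 0, 0, 0, 0], [1, 1, 1, 0, 1, 1, 1],
  [1, 1, 1, 1, 2, 1, 1], [1, 1, 1, 1, 2, 0, 0], [0, 0, 0, 0, 1, 1, 0], [1, 1, 0, 0, 2, 1, 1]]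
  131355131767293 [61, 61, 73, 121, 49, 151, 175] 406626917217 :=
  dec4 1 15 1 _ _ 131357279250941 _ [62, 62, 74, 122, 56, 152, 182] _ (by decide +kernel) nd370

theorem nd372 : Ok 4 Dn4 [[1, 0, 0, 0, 1, 0, 0], [1, 1, 0, 0, 0, 0, 0], [1, 1, 1, 0, 1, 1, 1],
  [1, 1, 1, 1, 2, 1, 1], [1, 1, 1, 1, 2, 0, 0], [0, 0, 0, 0, 1, 1, 0], [1, 1, 0, 0, 2, 1, 1]]
  131354997549565 [59, 59, 59, 119, 35, 149, 161] 406626917217 :=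
  dec4 1 11 1 _ _ 131355131767293 _ [61, 61, 73, 121, 49, 151, 175] _ (by decide +kernel) nd371

theorem nd373 : Ok 4 Dn4 [[1, 0, 0, 0, 1, 0, 0], [1, 1, 0, 0, 0, 0, 0], [1, 1, 1, 0, 1, 1, 1],
  [1, 1, 1, 1, 2, 1, 1], [1, 1, 1, 1, 2, 0, 0], [0, 0, 0, 0, 1, 1, 0], [1, 1, 0, 0, 2, 1, 1]]
  131354989160957 [57, 57, 57, 105, 21, 147, 147] 406626917217 :=
  dec4 1 7 1 _ _ 131354997549565 _ [59, 59, 59, 119, 35, 149, 161] _ (by decide +kernel) nd372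

theorem nd374 : Ok 4 Dn4 [[1, 0, 0, 0, 1, 0, 0], [1, 1, 0, 0, 0, 0, 0], [1, 1, 1, 0, 1, 1, 1],
  [1, 1, 1, 1, 2, 1, 1], [1, 1, 1, 1, 2, 0, 0], [0, 0, 0, 0, 1, 1, 0], [0, 0, 0, 0, 2, 1, 1]]
  131354989160957 [57, 57, 57, 105, 21, 147, 147] 428723951486 :=
  cut4 1 6 1 1 1 _ [[1, 0, 0, 0, 1, 0, 0], [1, 1, 0, 0, 2, 1, 1], [1, 1, 1, 0, 1, 1, 1], [1, 1,
  1, 1, 2, 1, 1], [1, 1, 1, 1, 2, 0, 0], [0, 0, 0, 0, 1, 1, 0], [0, 0, 0, 0, 2, 1, 1]] [[1, 0, 0,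
  0, 1, 0, 0], [1, 1, 0, 0, 0, 0, 0], [1, 1, 1, 0, 1, 1, 1], [1, 1, 1, 1, 2, 1, 1], [1, 1, 1, 1,
  2, 0, 0], [0, 0, 0, 0, 1, 1, 0], [1, 1, 0, 0, 2, 1, 1]] _ _ 472918020024 406626917217 _ (by
  decide +kernel) nd316 nd373

theorem nd375 : Ok 4 Dn4 [[1, 0, 0, 0, 1, 0, 0], [1, 1, 0, 0, 0, 0, 0], [1, 1, 1, 0, 1, 1, 1],
  [1, 1, 1, 1, 2, 1, 1], [1, 1, 1, 1, 2, 0, 0], [0, 0, 0, 0, 1, 1, 0], [0, 0, 0, 0, 2, 1, 1]]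
  60986244983293 [57, 57, 57, 105, 21, 147, 147] 428723951486 :=
  dec4 2 14 0 _ _ 131354989160957 _ [57, 57, 57, 105, 21, 147, 147] _ (by decide +kernel) nd374

theorem nd376 : Ok 4 Dn4 [[1, 0, 0, 0, 1, 0, 0], [1, 1, 0, 0, 0, 0, 0], [1, 1, 1, 0, 1, 1, 1],
  [1, 1, 1, 1, 2, 1, 1], [1, 1, 1, 1, 2, 0, 0], [0, 0, 0, 0, 1, 1, 0], [0, 0, 0, 0, 2, 1, 1]]
  25801872894461 [57, 57, 57, 105, 21, 147, 147] 428723951486 :=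
  dec4 2 13 0 _ _ 60986244983293 _ [57, 57, 57, 105, 21, 147, 147] _ (by decide +kernel) nd375

theorem nd377 : Ok 4 Dn4 [[1, 0, 0, 0, 1, 0, 0], [1, 1, 0, 0, 0, 0, 0], [1, 1, 1, 0, 1, 1, 1],
  [1, 1, 1, 1, 2, 1, 1], [1, 1, 1, 1, 2, 0, 0], [0, 0, 0, 0, 1, 1, 0], [0, 0, 0, 0, 2, 1, 1]]
  25800799152637 [57, 57, 57, 105, 21, 147, 147] 428723951486 :=
  dec4 1 14 0 _ _ 25801872894461 _ [57, 57, 57, 105, 21, 147, 147] _ (by decide +kernel) nd376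

theorem nd378 : Ok 4 Dn4 [[1, 0, 0, 0, 1, 0, 0], [1, 1, 0, 0, 0, 0, 0], [1, 1, 1, 0, 1, 1, 1],
  [1, 1, 1, 1, 2, 1, 1], [1, 1, 1, 1, 2, 0, 0], [0, 0, 0, 0, 1, 1, 0], [0, 0, 0, 0, 2, 1, 1]]
  25800262281725 [57, 57, 57, 105, 21, 147, 147] 428723951486 :=
  dec4 1 13 0 _ _ 25800799152637 _ [57, 57, 57, 105, 21, 147, 147] _ (by decide +kernel) nd377

end Pool.Agent.Work.MP_122e00_nt.Sharp.Cx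

end

section

set_option autoImplicit false

set_option maxRecDepth 100000

/-!
# The certificate: data
-/

namespace Pool.Agent.Work.MP_122e00_nt.Sharp.Cx

theorem ok182 : Ok 4 Dn4 [[2, 1, 1, 1, 2, 1, 0], [2, 2, 1, 1, 3, 1, 0], [2, 2, 2, 1, 3, 1, 1],
  [1, 1, 1, 1, 1, 1, 0], [1, 1, 1, 1, 3, 1, 0], [0, 0, 0, 0, 1, 1, 0], [1, 1, 1, 1, 2, 1, 1]]
  140186658799613 [124, 136, 136, 136, 82, 238, 280] 850759575621 :=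
  run4 tr182 _ _ _ _ dt182

theorem ok183 : Ok 4 Dn4 [[1, 0, 0, 0, 1, 0, 0], [2, 2, 1, 1, 3, 1, 0], [2, 2, 2, 1, 4, 2, 1],
  [2, 1, 1, 1, 2, 1, 0], [1, 1, 1, 1, 3, 1, 0], [0, 0, 0, 0, 1, 1, 0], [1, 1, 1, 1, 2, 1, 1]]
  140187732541437 [124, 136, 136, 136, 82, 238, 280] 326411758154 :=
  run4 tr183 _ _ _ _ dt183

theorem ok184 : Ok 4 Dn4 [[1, 0, 0, 0, 1, 0, 0], [2, 2, 1, 1, 3, 1, 0], [2, 2, 2, 1, 3, 1, 1],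
  [2, 1, 1, 1, 2, 1, 0], [1, 1, 1, 1, 3, 1, 0], [2, 2, 2, 1, 4, 2, 1], [1, 1, 1, 1, 2, 1, 1]]
  140187732541437 [124, 136, 136, 136, 82, 238, 280] 698900497163 :=
  run4 tr184 _ _ _ _ dt184

theorem ok185 : Ok 4 Dn4 [[1, 0, 0, 0, 1, 0, 0], [2, 2, 1, 1, 3, 1, 0], [2, 2, 2, 1, 3, 1, 1],
  [1, 1, 1, 1, 1, 1, 0], [1, 1, 1, 1, 2, 0, 0], [1, 1, 1, 1, 3, 1, 0], [1, 1, 1, 1, 2, 1, 1]]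
  140186658799613 [124, 136, 136, 136, 82, 238, 280] 905916384190 :=
  run4 tr185 _ _ _ _ dt185

theorem ok186 : Ok 4 Dn4 [[2, 1, 1, 1, 2, 1, 0], [1, 1, 0, 0, 1, 1, 0], [2, 2, 2, 1, 3, 1, 1],
  [1, 1, 1, 1, 1, 1, 0], [2, 2, 1, 1, 3, 1, 0], [0, 0, 0, 0, 1, 1, 0], [1, 1, 1, 1, 2, 1, 1]]
  140186658275325 [96, 108, 132, 132, 78, 210, 252] 956633424215 :=
  run4 tr186 _ _ _ _ dt186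

theorem ok187 : Ok 4 Dn4 [[3, 2, 2, 1, 5, 2, 1], [1, 1, 0, 0, 1, 1, 0], [2, 2, 2, 1, 4, 2, 1],
  [2, 1, 1, 1, 3, 2, 0], [2, 2, 1, 1, 4, 2, 0], [0, 0, 0, 0, 1, 1, 0], [1, 1, 1, 1, 2, 1, 1]]
  140737487831037 [96, 108, 132, 132, 78, 210, 252] 506727719439 :=
  run4 tr187 _ _ _ _ dt187

theorem ok188 : Ok 4 Dn4 [[1, 0, 0, 0, 1, 0, 0], [4, 3, 2, 1, 6, 3, 1], [3, 2, 2, 1, 5, 2, 1],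
  [2, 1, 1, 1, 3, 2, 0], [2, 2, 1, 1, 4, 2, 0], [0, 0, 0, 0, 1, 1, 0], [1, 1, 1, 1, 2, 1, 1]]
  140737487831037 [96, 108, 132, 132, 78, 210, 252] 294894886088 :=
  run4 tr188 _ _ _ _ dt188

theorem ok189 : Ok 4 Dn4 [[1, 0, 0, 0, 1, 0, 0], [1, 1, 0, 0, 1, 1, 0], [4, 3, 2, 1, 6, 3, 1],
  [2, 1, 1, 1, 3, 2, 0], [2, 2, 1, 1, 4, 2, 0], [0, 0, 0, 0, 1, 1, 0], [1, 1, 1, 1, 2, 1, 1]]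
  140737487831037 [96, 108, 132, 132, 78, 210, 252] 159613373640 :=
  run4 tr189 _ _ _ _ dt189

theorem ok190 : Ok 4 Dn4 [[1, 0, 0, 0, 1, 0, 0], [1, 1, 0, 0, 1, 1, 0], [2, 2, 2, 1, 4, 2, 1],
  [2, 1, 1, 1, 3, 2, 0], [2, 2, 1, 1, 3, 1, 0], [2, 2, 1, 1, 4, 2, 0], [1, 1, 1, 1, 2, 1, 1]]
  140737487831037 [96, 108, 132, 132, 78, 210, 252] 556990681106 :=
  run4 tr190 _ _ _ _ dt190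

theorem ok191 : Ok 4 Dn4 [[1, 0, 0, 0, 1, 0, 0], [1, 1, 0, 0, 1, 1, 0], [2, 2, 2, 1, 4, 2, 1],
  [2, 1, 1, 1, 2, 1, 0], [2, 2, 1, 1, 3, 1, 0], [2, 1, 1, 1, 3, 2, 0], [1, 1, 1, 1, 2, 1, 1]]
  140737487831037 [96, 108, 132, 132, 78, 210, 252] 756811333340 :=
  run4 tr191 _ _ _ _ dt191

theorem ok192 : Ok 4 Dn4 [[1, 0, 0, 0, 1, 0, 0], [1, 1, 0, 0, 1, 1, 0], [2, 2, 2, 1, 3, 1, 1],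
  [2, 1, 1, 1, 2, 1, 0], [2, 2, 1, 1, 3, 1, 0], [2, 2, 2, 1, 4, 2, 1], [1, 1, 1, 1, 2, 1, 1]]
  140187732017149 [96, 108, 132, 132, 78, 210, 252] 709724111518 :=
  run4 tr192 _ _ _ _ dt192

theorem ok193 : Ok 4 Dn4 [[3, 2, 2, 1, 4, 3, 1], [1, 1, 0, 0, 1, 1, 0], [1, 1, 1, 0, 2, 2, 1],
  [1, 1, 1, 1, 1, 1, 0], [2, 2, 2, 1, 4, 2, 1], [0, 0, 0, 0, 1, 1, 0], [1, 1, 1, 1, 2, 1, 1]]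
  140737487830527 [78, 78, 78, 126, 84, 156, 210] 1483826810181 :=
  run4 tr193 _ _ _ _ dt193

theorem ok194 : Ok 4 Dn4 [[2, 1, 1, 1, 2, 1, 0], [1, 1, 0, 0, 1, 1, 0], [3, 2, 2, 1, 4, 3, 1],
  [1, 1, 1, 1, 1, 1, 0], [2, 2, 2, 1, 4, 2, 1], [0, 0, 0, 0, 1, 1, 0], [1, 1, 1, 1, 2, 1, 1]]
  140737487830527 [78, 78, 78, 126, 84, 156, 210] 1500162202992 :=
  run4 tr194 _ _ _ _ dt194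

theorem ok195 : Ok 4 Dn4 [[2, 1, 1, 1, 2, 1, 0], [1, 1, 0, 0, 1, 1, 0], [1, 1, 1, 0, 1, 1, 1],
  [1, 1, 1, 1, 1, 1, 0], [2, 2, 2, 1, 4, 2, 1], [1, 1, 1, 0, 2, 2, 1], [1, 1, 1, 1, 2, 1, 1]]
  140187732016639 [78, 78, 78, 126, 84, 156, 210] 1986446120768 :=
  run4 tr195 _ _ _ _ dt195

theorem ok196 : Ok 4 Dn4 [[2, 1, 1, 1, 2, 1, 0], [1, 1, 0, 0, 1, 1, 0], [1, 1, 1, 0, 1, 1, 1],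
  [1, 1, 1, 1, 1, 1, 0], [2, 2, 2, 1, 3, 1, 1], [2, 2, 2, 1, 4, 2, 1], [1, 1, 1, 1, 2, 1, 1]]
  140187732016639 [78, 78, 78, 126, 84, 156, 210] 3083055068227 :=
  run4 tr196 _ _ _ _ dt196

theorem ok197 : Ok 4 Dn4 [[2, 1, 1, 0, 3, 2, 1], [1, 1, 0, 0, 1, 1, 0], [3, 2, 2, 1, 4, 3, 1],
  [2, 1, 1, 1, 2, 1, 0], [2, 2, 2, 1, 4, 2, 1], [0, 0, 0, 0, 1, 1, 0], [1, 1, 1, 1, 2, 1, 1]]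
  140737487830527 [64, 76, 76, 124, 70, 154, 196] 874112205833 :=
  run4 tr197 _ _ _ _ dt197

theorem ok198 : Ok 4 Dn4 [[2, 1, 1, 0, 3, 2, 1], [1, 1, 0, 0, 1, 1, 0], [1, 1, 1, 0, 2, 2, 1],
  [3, 2, 2, 1, 4, 3, 1], [2, 2, 2, 1, 4, 2, 1], [0, 0, 0, 0, 1, 1, 0], [1, 1, 1, 1, 2, 1, 1]]
  140737487830527 [64, 76, 76, 124, 70, 154, 196] 593336591193 :=
  run4 tr198 _ _ _ _ dt198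

theorem ok199 : Ok 4 Dn4 [[2, 1, 1, 0, 3, 2, 1], [1, 1, 0, 0, 1, 1, 0], [1, 1, 1, 0, 1, 1, 1],
  [2, 1, 1, 1, 2, 1, 0], [2, 2, 2, 1, 4, 2, 1], [1, 1, 1, 0, 2, 2, 1], [1, 1, 1, 1, 2, 1, 1]]
  140187732016639 [64, 76, 76, 124, 70, 154, 196] 958651522324 :=
  run4 tr199 _ _ _ _ dt199

theorem ok200 : Ok 4 Dn4 [[2, 1, 1, 0, 2, 1, 1], [1, 1, 0, 0, 1, 1, 0], [1, 1, 1, 0, 1, 1, 1],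
  [2, 1, 1, 1, 2, 1, 0], [2, 2, 2, 1, 4, 2, 1], [2, 1, 1, 0, 3, 2, 1], [1, 1, 1, 1, 2, 1, 1]]
  140187732016639 [64, 76, 76, 124, 70, 154, 196] 988628431517 :=
  run4 tr200 _ _ _ _ dt200

theorem ok201 : Ok 4 Dn4 [[3, 2, 2, 1, 5, 2, 1], [1, 1, 0, 0, 1, 1, 0], [4, 2, 2, 1, 6, 4, 1],
  [2, 1, 1, 1, 3, 2, 0], [2, 2, 2, 1, 4, 2, 1], [0, 0, 0, 0, 1, 1, 0], [1, 1, 1, 1, 2, 1, 1]]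
  140737487831037 [68, 104, 104, 128, 74, 182, 224] 845347758828 :=
  run4 tr201 _ _ _ _ dt201

theorem ok202 : Ok 4 Dn4 [[1, 0, 0, 0, 1, 0, 0], [4, 3, 2, 1, 6, 3, 1], [4, 2, 2, 1, 6, 4, 1],
  [2, 1, 1, 1, 3, 2, 0], [3, 2, 2, 1, 5, 2, 1], [0, 0, 0, 0, 1, 1, 0], [1, 1, 1, 1, 2, 1, 1]]
  140737487831037 [68, 104, 104, 128, 74, 182, 224] 531894622944 :=
  run4 tr202 _ _ _ _ dt202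

theorem ok203 : Ok 4 Dn4 [[1, 0, 0, 0, 1, 0, 0], [1, 1, 0, 0, 1, 1, 0], [4, 2, 2, 1, 6, 4, 1],
  [2, 1, 1, 1, 3, 2, 0], [4, 3, 2, 1, 6, 3, 1], [0, 0, 0, 0, 1, 1, 0], [1, 1, 1, 1, 2, 1, 1]]
  140737487831037 [68, 104, 104, 128, 74, 182, 224] 298221617858 :=
  run4 tr203 _ _ _ _ dt203

theorem ok204 : Ok 4 Dn4 [[1, 0, 0, 0, 1, 0, 0], [1, 1, 0, 0, 1, 1, 0], [2, 1, 1, 0, 3, 2, 1],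
  [4, 2, 2, 1, 6, 4, 1], [2, 2, 2, 1, 4, 2, 1], [0, 0, 0, 0, 1, 1, 0], [1, 1, 1, 1, 2, 1, 1]]
  140737487831037 [68, 104, 104, 128, 74, 182, 224] 257765882555 :=
  run4 tr204 _ _ _ _ dt204

theorem ok205 : Ok 4 Dn4 [[1, 0, 0, 0, 1, 0, 0], [1, 1, 0, 0, 1, 1, 0], [2, 1, 1, 0, 3, 2, 1],
  [2, 1, 1, 1, 2, 1, 0], [2, 2, 2, 1, 4, 2, 1], [2, 1, 1, 1, 3, 2, 0], [1, 1, 1, 1, 2, 1, 1]]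
  140737487831037 [68, 104, 104, 128, 74, 182, 224] 968292205375 :=
  run4 tr205 _ _ _ _ dt205

theorem ok206 : Ok 4 Dn4 [[1, 0, 0, 0, 1, 0, 0], [1, 1, 0, 0, 1, 1, 0], [2, 1, 1, 0, 2, 1, 1],
  [2, 1, 1, 1, 2, 1, 0], [2, 2, 2, 1, 4, 2, 1], [2, 1, 1, 0, 3, 2, 1], [1, 1, 1, 1, 2, 1, 1]]
  140187732017149 [68, 104, 104, 128, 74, 182, 224] 502398445380 :=
  run4 tr206 _ _ _ _ dt206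

theorem ok207 : Ok 4 Dn4 [[2, 1, 1, 0, 2, 1, 1], [1, 1, 0, 0, 1, 1, 0], [1, 1, 1, 0, 1, 1, 1],
  [2, 1, 1, 1, 2, 1, 0], [2, 2, 2, 1, 3, 1, 1], [2, 2, 2, 1, 4, 2, 1], [1, 1, 1, 1, 2, 1, 1]]
  281474976185853 [67, 79, 79, 139, 91, 175, 199] 1954504719013 :=
  run4 tr207 _ _ _ _ dt207

theorem ok208 : Ok 4 Dn4 [[1, 0, 0, 0, 1, 0, 0], [1, 1, 0, 0, 1, 1, 0], [2, 1, 1, 0, 2, 1, 1],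
  [2, 1, 1, 1, 2, 1, 0], [2, 2, 2, 1, 3, 1, 1], [2, 2, 2, 1, 4, 2, 1], [1, 1, 1, 1, 2, 1, 1]]
  281474976185853 [67, 79, 79, 139, 91, 175, 199] 1068390028163 :=
  run4 tr208 _ _ _ _ dt208

theorem ok209 : Ok 4 Dn4 [[2, 1, 1, 1, 2, 1, 0], [2, 2, 1, 1, 2, 0, 0], [2, 2, 2, 1, 3, 1, 1],
  [1, 1, 1, 1, 1, 1, 0], [2, 2, 1, 1, 3, 1, 0], [1, 1, 0, 0, 1, 1, 0], [1, 1, 1, 1, 2, 1, 1]]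
  281473902444541 [101, 113, 149, 149, 113, 245, 257] 1017095583879 :=
  run4 tr209 _ _ _ _ dt209

theorem ok210 : Ok 4 Dn4 [[3, 2, 2, 1, 4, 1, 1], [2, 2, 1, 1, 2, 0, 0], [2, 2, 2, 1, 3, 1, 1],
  [2, 1, 1, 1, 2, 1, 0], [2, 2, 1, 1, 3, 1, 0], [1, 1, 0, 0, 1, 1, 0], [1, 1, 1, 1, 2, 1, 1]]
  281474976186365 [101, 113, 149, 149, 113, 245, 257] 1405041603271 :=
  run4 tr210 _ _ _ _ dt210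

theorem ok211 : Ok 4 Dn4 [[2, 1, 1, 1, 3, 1, 1], [2, 2, 1, 1, 2, 0, 0], [3, 2, 2, 1, 4, 1, 1],
  [2, 1, 1, 1, 2, 1, 0], [2, 2, 1, 1, 3, 1, 0], [1, 1, 0, 0, 1, 1, 0], [1, 1, 1, 1, 2, 1, 1]]
  281474976186365 [101, 113, 149, 149, 113, 245, 257] 1421953310521 :=
  run4 tr211 _ _ _ _ dt211

theorem ok212 : Ok 4 Dn4 [[1, 0, 0, 0, 1, 0, 0], [2, 2, 1, 1, 2, 0, 0], [3, 2, 2, 1, 4, 1, 1],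
  [2, 1, 1, 1, 2, 1, 0], [2, 2, 1, 1, 3, 1, 0], [1, 1, 0, 0, 1, 1, 0], [2, 1, 1, 1, 3, 1, 1]]
  281474976186365 [101, 113, 149, 149, 113, 245, 257] 120844115050 :=
  run4 tr212 _ _ _ _ dt212

theorem ok213 : Ok 4 Dn4 [[1, 0, 0, 0, 1, 0, 0], [2, 2, 1, 1, 2, 0, 0], [2, 2, 2, 1, 3, 1, 1],
  [1, 1, 1, 1, 1, 1, 0], [1, 1, 1, 1, 2, 0, 0], [2, 2, 1, 1, 3, 1, 0], [1, 1, 1, 1, 2, 1, 1]]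
  281473902440445 [101, 113, 149, 149, 113, 245, 257] 415857895206 :=
  run4 tr213 _ _ _ _ dt213

theorem ok214 : Ok 4 Dn4 [[2, 1, 1, 1, 2, 1, 0], [1, 1, 0, 0, 0, 0, 0], [2, 2, 2, 1, 3, 1, 1],
  [1, 1, 1, 1, 1, 1, 0], [2, 2, 1, 1, 2, 0, 0], [1, 1, 0, 0, 1, 1, 0], [1, 1, 1, 1, 2, 1, 1]]
  281439542706173 [101, 113, 149, 149, 113, 245, 257] 579471606605 :=
  run4 tr214 _ _ _ _ dt214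

theorem ok215 : Ok 4 Dn4 [[4, 3, 2, 1, 4, 1, 1], [3, 3, 2, 1, 3, 1, 1], [2, 2, 2, 1, 3, 1, 1],
  [2, 1, 1, 1, 2, 1, 0], [2, 2, 1, 1, 2, 0, 0], [1, 1, 0, 0, 1, 1, 0], [1, 1, 1, 1, 2, 1, 1]]
  281474976186365 [101, 113, 149, 149, 113, 245, 257] 1294184011802 :=
  run4 tr215 _ _ _ _ dt215

theorem ok216 : Ok 4 Dn4 [[3, 2, 2, 1, 4, 1, 1], [4, 3, 2, 1, 4, 1, 1], [2, 2, 2, 1, 3, 1, 1],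
  [2, 1, 1, 1, 2, 1, 0], [2, 2, 1, 1, 2, 0, 0], [1, 1, 0, 0, 1, 1, 0], [1, 1, 1, 1, 2, 1, 1]]
  281474976186365 [101, 113, 149, 149, 113, 245, 257] 1336078143047 :=
  run4 tr216 _ _ _ _ dt216

theorem ok217 : Ok 4 Dn4 [[2, 1, 1, 1, 3, 1, 1], [4, 3, 2, 1, 4, 1, 1], [3, 2, 2, 1, 4, 1, 1],
  [2, 1, 1, 1, 2, 1, 0], [2, 2, 1, 1, 2, 0, 0], [1, 1, 0, 0, 1, 1, 0], [1, 1, 1, 1, 2, 1, 1]]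
  281474976186365 [101, 113, 149, 149, 113, 245, 257] 1350924006115 :=
  run4 tr217 _ _ _ _ dt217

theorem ok218 : Ok 4 Dn4 [[1, 0, 0, 0, 1, 0, 0], [4, 3, 2, 1, 4, 1, 1], [3, 2, 2, 1, 4, 1, 1],
  [2, 1, 1, 1, 2, 1, 0], [2, 2, 1, 1, 2, 0, 0], [1, 1, 0, 0, 1, 1, 0], [2, 1, 1, 1, 3, 1, 1]]
  281474976186365 [101, 113, 149, 149, 113, 245, 257] 113537644450 :=
  run4 tr218 _ _ _ _ dt218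

theorem ok219 : Ok 4 Dn4 [[1, 0, 0, 0, 1, 0, 0], [2, 2, 1, 1, 2, 1, 1], [3, 3, 2, 1, 3, 1, 1],
  [2, 1, 1, 1, 2, 1, 0], [2, 2, 1, 1, 2, 0, 0], [1, 1, 0, 0, 1, 1, 0], [1, 1, 1, 1, 2, 1, 1]]
  281440616447997 [101, 113, 149, 149, 113, 245, 257] 563399851761 :=
  run4 tr219 _ _ _ _ dt219

theorem ok220 : Ok 4 Dn4 [[1, 0, 0, 0, 1, 0, 0], [1, 1, 0, 0, 0, 0, 0], [3, 3, 2, 1, 3, 1, 1],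
  [2, 1, 1, 1, 2, 1, 0], [2, 2, 1, 1, 2, 0, 0], [1, 1, 0, 0, 1, 1, 0], [2, 2, 1, 1, 2, 1, 1]]
  281440616447997 [101, 113, 149, 149, 113, 245, 257] 176087863236 :=
  run4 tr220 _ _ _ _ dt220

theorem ok221 : Ok 4 Dn4 [[2, 1, 1, 0, 2, 1, 1], [1, 1, 0, 0, 0, 0, 0], [1, 1, 1, 0, 1, 1, 1],
  [1, 1, 1, 1, 1, 1, 0], [2, 2, 2, 1, 3, 1, 1], [1, 1, 0, 0, 1, 1, 0], [1, 1, 1, 1, 2, 1, 1]]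
  281439542705661 [69, 81, 93, 141, 105, 189, 201] 1583237769128 :=
  run4 tr221 _ _ _ _ dt221

theorem ok222 : Ok 4 Dn4 [[1, 0, 0, 0, 1, 0, 0], [3, 3, 2, 1, 3, 1, 1], [2, 1, 1, 0, 2, 1, 1],
  [1, 1, 1, 1, 1, 1, 0], [2, 2, 2, 1, 3, 1, 1], [1, 1, 0, 0, 1, 1, 0], [1, 1, 1, 1, 2, 1, 1]]
  281439542706173 [73, 109, 121, 145, 109, 217, 229] 1093462265918 :=
  run4 tr222 _ _ _ _ dt222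

theorem ok223 : Ok 4 Dn4 [[2, 1, 1, 1, 2, 1, 0], [1, 1, 0, 0, 0, 0, 0], [2, 1, 1, 0, 2, 1, 1],
  [1, 1, 1, 1, 1, 1, 0], [3, 3, 2, 1, 3, 1, 1], [1, 1, 0, 0, 1, 1, 0], [1, 1, 1, 1, 2, 1, 1]]
  281439542706173 [73, 109, 121, 145, 109, 217, 229] 1149439007113 :=
  run4 tr223 _ _ _ _ dt223

theorem ok224 : Ok 4 Dn4 [[1, 0, 0, 0, 1, 0, 0], [1, 1, 0, 0, 0, 0, 0], [2, 1, 1, 0, 2, 1, 1],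
  [2, 1, 1, 1, 2, 1, 0], [3, 3, 2, 1, 3, 1, 1], [1, 1, 0, 0, 1, 1, 0], [1, 1, 1, 1, 2, 1, 1]]
  281439542706173 [73, 109, 121, 145, 109, 217, 229] 419239986906 :=
  run4 tr224 _ _ _ _ dt224

theorem ok225 : Ok 4 Dn4 [[2, 1, 1, 1, 1, 0, 0], [1, 1, 0, 0, 0, 0, 0], [2, 2, 2, 1, 3, 1, 1],
  [1, 1, 1, 1, 0, 0, 0], [1, 1, 1, 1, 2, 0, 0], [1, 1, 1, 1, 1, 1, 0], [1, 1, 1, 1, 2, 1, 1]]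
  211070798524413 [103, 127, 151, 151, 127, 259, 259] 386355509296 :=
  run4 tr225 _ _ _ _ dt225

theorem ok226 : Ok 4 Dn4 [[1, 0, 0, 0, 1, 0, 0], [1, 1, 0, 0, 0, 0, 0], [2, 2, 2, 1, 3, 1, 1],
  [2, 1, 1, 1, 1, 0, 0], [1, 1, 1, 1, 2, 0, 0], [1, 1, 1, 1, 1, 1, 0], [1, 1, 1, 1, 2, 1, 1]]
  211070798524413 [103, 127, 151, 151, 127, 259, 259] 416406904931 :=
  run4 tr226 _ _ _ _ dt226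

theorem ok227 : Ok 4 Dn4 [[2, 1, 1, 1, 1, 0, 0], [3, 3, 2, 1, 3, 1, 1], [2, 2, 2, 1, 1, 1, 1],
  [1, 1, 1, 1, 0, 0, 0], [2, 2, 2, 1, 3, 1, 1], [1, 1, 1, 1, 1, 1, 0], [1, 1, 1, 1, 2, 1, 1]]
  281440616447487 [99, 99, 99, 147, 147, 219, 219] 4286564691155 :=
  run4 tr227 _ _ _ _ dt227

theorem ok228 : Ok 4 Dn4 [[2, 1, 1, 1, 1, 0, 0], [1, 1, 0, 0, 0, 0, 0], [2, 2, 2, 1, 1, 1, 1],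
  [1, 1, 1, 1, 0, 0, 0], [3, 3, 2, 1, 3, 1, 1], [1, 1, 1, 1, 1, 1, 0], [1, 1, 1, 1, 2, 1, 1]]
  281440616447487 [99, 99, 99, 147, 147, 219, 219] 1847069449444 :=
  run4 tr228 _ _ _ _ dt228

theorem ok229 : Ok 4 Dn4 [[2, 1, 1, 1, 1, 0, 0], [1, 1, 0, 0, 0, 0, 0], [1, 1, 1, 0, 1, 1, 1],
  [2, 2, 2, 1, 1, 1, 1], [2, 2, 2, 1, 3, 1, 1], [1, 1, 1, 1, 1, 1, 0], [1, 1, 1, 1, 2, 1, 1]]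
  281440616447487 [99, 99, 99, 147, 147, 219, 219] 1785996109035 :=
  run4 tr229 _ _ _ _ dt229

theorem ok230 : Ok 4 Dn4 [[1, 0, 0, 0, 1, 0, 0], [1, 1, 0, 0, 0, 0, 0], [3, 2, 2, 1, 2, 1, 1],
  [2, 1, 1, 1, 1, 0, 0], [2, 2, 2, 1, 3, 1, 1], [1, 1, 1, 1, 1, 1, 0], [1, 1, 1, 1, 2, 1, 1]]
  281439542705661 [71, 95, 95, 143, 119, 203, 203] 1314274948247 :=
  run4 tr230 _ _ _ _ dt230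

theorem ok231 : Ok 4 Dn4 [[2, 1, 1, 0, 2, 1, 1], [1, 1, 0, 0, 0, 0, 0], [1, 1, 1, 0, 1, 1, 1],
  [3, 2, 2, 1, 2, 1, 1], [2, 2, 2, 1, 3, 1, 1], [1, 1, 1, 1, 1, 1, 0], [1, 1, 1, 1, 2, 1, 1]]
  281439542705661 [71, 95, 95, 143, 119, 203, 203] 1995667266792 :=
  run4 tr231 _ _ _ _ dt231

theorem ok232 : Ok 4 Dn4 [[2, 1, 1, 1, 2, 1, 0], [1, 1, 0, 0, 0, 0, 0], [2, 1, 1, 0, 2, 1, 1],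
  [3, 2, 2, 1, 2, 1, 1], [2, 2, 2, 1, 3, 1, 1], [1, 1, 1, 1, 1, 1, 0], [1, 1, 1, 1, 2, 1, 1]]
  281439542706173 [75, 123, 123, 147, 123, 231, 231] 1415830192917 :=
  run4 tr232 _ _ _ _ dt232

theorem ok233 : Ok 4 Dn4 [[1, 0, 0, 0, 1, 0, 0], [3, 3, 2, 1, 3, 1, 1], [2, 1, 1, 0, 2, 1, 1],
  [3, 2, 2, 1, 2, 1, 1], [2, 2, 2, 1, 3, 1, 1], [2, 1, 1, 1, 2, 1, 0], [1, 1, 1, 1, 2, 1, 1]]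
  281440616447997 [75, 123, 123, 147, 123, 231, 231] 1341070879474 :=
  run4 tr233 _ _ _ _ dt233

theorem ok234 : Ok 4 Dn4 [[1, 0, 0, 0, 1, 0, 0], [1, 1, 0, 0, 0, 0, 0], [2, 1, 1, 0, 2, 1, 1],
  [3, 2, 2, 1, 2, 1, 1], [3, 3, 2, 1, 3, 1, 1], [2, 1, 1, 1, 2, 1, 0], [1, 1, 1, 1, 2, 1, 1]]
  281440616447997 [75, 123, 123, 147, 123, 231, 231] 581899378643 :=
  run4 tr234 _ _ _ _ dt234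

theorem nd379 : Ok 4 Dn4 [[1, 0, 0, 0, 1, 0, 0], [2, 2, 1, 1, 3, 1, 0], [2, 2, 2, 1, 3, 1, 1],
  [2, 1, 1, 1, 2, 1, 0], [1, 1, 1, 1, 3, 1, 0], [0, 0, 0, 0, 1, 1, 0], [1, 1, 1, 1, 2, 1, 1]]
  140187732541437 [124, 136, 136, 136, 82, 238, 280] 379624435156 :=
  cut4 2 5 1 1 1 _ [[1, 0, 0, 0, 1, 0, 0], [2, 2, 1, 1, 3, 1, 0], [2, 2, 2, 1, 4, 2, 1], [2, 1,
  1, 1, 2, 1, 0], [1, 1, 1, 1, 3, 1, 0], [0, 0, 0, 0, 1, 1, 0], [1, 1, 1, 1, 2, 1, 1]] [[1, 0, 0,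
  0, 1, 0, 0], [2, 2, 1, 1, 3, 1, 0], [2, 2, 2, 1, 3, 1, 1], [2, 1, 1, 1, 2, 1, 0], [1, 1, 1, 1,
  3, 1, 0], [2, 2, 2, 1, 4, 2, 1], [1, 1, 1, 1, 2, 1, 1]] _ _ 326411758154 698900497163 _ (by
  decide +kernel) ok183 ok184

theorem nd380 : Ok 4 Dn4 [[1, 0, 0, 0, 1, 0, 0], [2, 2, 1, 1, 3, 1, 0], [2, 2, 2, 1, 3, 1, 1],
  [2, 1, 1, 1, 2, 1, 0], [1, 1, 1, 1, 3, 1, 0], [0, 0, 0, 0, 1, 1, 0], [1, 1, 1, 1, 2, 1, 1]]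
  140186658799613 [124, 136, 136, 136, 82, 238, 280] 379624435156 :=
  dec4 1 14 0 _ _ 140187732541437 _ [124, 136, 136, 136, 82, 238, 280] _ (by decide +kernel) nd379

theorem nd381 : Ok 4 Dn4 [[1, 0, 0, 0, 1, 0, 0], [2, 2, 1, 1, 3, 1, 0], [2, 2, 2, 1, 3, 1, 1],
  [1, 1, 1, 1, 1, 1, 0], [1, 1, 1, 1, 3, 1, 0], [0, 0, 0, 0, 1, 1, 0], [1, 1, 1, 1, 2, 1, 1]]
  140186658799613 [124, 136, 136, 136, 82, 238, 280] 497408220273 :=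
  cut4 0 3 1 1 1 _ [[2, 1, 1, 1, 2, 1, 0], [2, 2, 1, 1, 3, 1, 0], [2, 2, 2, 1, 3, 1, 1], [1, 1,
  1, 1, 1, 1, 0], [1, 1, 1, 1, 3, 1, 0], [0, 0, 0, 0, 1, 1, 0], [1, 1, 1, 1, 2, 1, 1]] [[1, 0, 0,
  0, 1, 0, 0], [2, 2, 1, 1, 3, 1, 0], [2, 2, 2, 1, 3, 1, 1], [2, 1, 1, 1, 2, 1, 0], [1, 1, 1, 1,
  3, 1, 0], [0, 0, 0, 0, 1, 1, 0], [1, 1, 1, 1, 2, 1, 1]] _ _ 850759575621 379624435156 _ (by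
  decide +kernel) ok182 nd380

theorem nd382 : Ok 4 Dn4 [[1, 0, 0, 0, 1, 0, 0], [2, 2, 1, 1, 3, 1, 0], [2, 2, 2, 1, 3, 1, 1],
  [1, 1, 1, 1, 1, 1, 0], [1, 1, 1, 1, 2, 0, 0], [0, 0, 0, 0, 1, 1, 0], [1, 1, 1, 1, 2, 1, 1]]
  140186658799613 [124, 136, 136, 136, 82, 238, 280] 599535261253 :=
  cut4 4 5 1 1 1 _ [[1, 0, 0, 0, 1, 0, 0], [2, 2, 1, 1, 3, 1, 0], [2, 2, 2, 1, 3, 1, 1], [1, 1,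
  1, 1, 1, 1, 0], [1, 1, 1, 1, 3, 1, 0], [0, 0, 0, 0, 1, 1, 0], [1, 1, 1, 1, 2, 1, 1]] [[1, 0, 0,
  0, 1, 0, 0], [2, 2, 1, 1, 3, 1, 0], [2, 2, 2, 1, 3, 1, 1], [1, 1, 1, 1, 1, 1, 0], [1, 1, 1, 1,
  2, 0, 0], [1, 1, 1, 1, 3, 1, 0], [1, 1, 1, 1, 2, 1, 1]] _ _ 497408220273 905916384190 _ (by
  decide +kernel) nd381 ok185

theorem nd383 : Ok 4 Dn4 [[1, 0, 0, 0, 1, 0, 0], [2, 2, 1, 1, 3, 1, 0], [2, 2, 2, 1, 3, 1, 1],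
  [1, 1, 1, 1, 1, 1, 0], [1, 1, 1, 1, 2, 0, 0], [0, 0, 0, 0, 1, 1, 0], [1, 1, 1, 1, 2, 1, 1]]
  140186658275325 [124, 136, 136, 136, 82, 238, 280] 599535261253 :=
  dec4 1 3 0 _ _ 140186658799613 _ [124, 136, 136, 136, 82, 238, 280] _ (by decide +kernel) nd382

theorem nd384 : Ok 4 Dn4 [[1, 0, 0, 0, 1, 0, 0], [2, 2, 1, 1, 3, 1, 0], [2, 2, 2, 1, 3, 1, 1],
  [1, 1, 1, 1, 1, 1, 0], [1, 1, 1, 1, 2, 0, 0], [0, 0, 0, 0, 1, 1, 0], [1, 1, 1, 1, 2, 1, 1]]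
  140186658271229 [96, 108, 132, 132, 78, 210, 252] 599535261253 :=
  dec4 0 12 1 _ _ 140186658275325 _ [124, 136, 136, 136, 82, 238, 280] _ (by decide +kernel) nd383

theorem nd385 : Ok 4 Dn4 [[1, 0, 0, 0, 1, 0, 0], [1, 1, 0, 0, 1, 1, 0], [3, 2, 2, 1, 5, 2, 1],
  [2, 1, 1, 1, 3, 2, 0], [2, 2, 1, 1, 4, 2, 0], [0, 0, 0, 0, 1, 1, 0], [1, 1, 1, 1, 2, 1, 1]]
  140737487831037 [96, 108, 132, 132, 78, 210, 252] 186669676130 :=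
  cut4 1 2 1 1 1 _ [[1, 0, 0, 0, 1, 0, 0], [4, 3, 2, 1, 6, 3, 1], [3, 2, 2, 1, 5, 2, 1], [2, 1,
  1, 1, 3, 2, 0], [2, 2, 1, 1, 4, 2, 0], [0, 0, 0, 0, 1, 1, 0], [1, 1, 1, 1, 2, 1, 1]] [[1, 0, 0,
  0, 1, 0, 0], [1, 1, 0, 0, 1, 1, 0], [4, 3, 2, 1, 6, 3, 1], [2, 1, 1, 1, 3, 2, 0], [2, 2, 1, 1,
  4, 2, 0], [0, 0, 0, 0, 1, 1, 0], [1, 1, 1, 1, 2, 1, 1]] _ _ 294894886088 159613373640 _ (by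
  decide +kernel) ok188 ok189

theorem nd386 : Ok 4 Dn4 [[1, 0, 0, 0, 1, 0, 0], [1, 1, 0, 0, 1, 1, 0], [2, 2, 2, 1, 4, 2, 1],
  [2, 1, 1, 1, 3, 2, 0], [2, 2, 1, 1, 4, 2, 0], [0, 0, 0, 0, 1, 1, 0], [1, 1, 1, 1, 2, 1, 1]]
  140737487831037 [96, 108, 132, 132, 78, 210, 252] 226676931544 :=
  cut4 0 2 1 1 1 _ [[3, 2, 2, 1, 5, 2, 1], [1, 1, 0, 0, 1, 1, 0], [2, 2, 2, 1, 4, 2, 1], [2, 1,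
  1, 1, 3, 2, 0], [2, 2, 1, 1, 4, 2, 0], [0, 0, 0, 0, 1, 1, 0], [1, 1, 1, 1, 2, 1, 1]] [[1, 0, 0,
  0, 1, 0, 0], [1, 1, 0, 0, 1, 1, 0], [3, 2, 2, 1, 5, 2, 1], [2, 1, 1, 1, 3, 2, 0], [2, 2, 1, 1,
  4, 2, 0], [0, 0, 0, 0, 1, 1, 0], [1, 1, 1, 1, 2, 1, 1]] _ _ 506727719439 186669676130 _ (by
  decide +kernel) ok187 nd385

theorem nd387 : Ok 4 Dn4 [[1, 0, 0, 0, 1, 0, 0], [1, 1, 0, 0, 1, 1, 0], [2, 2, 2, 1, 4, 2, 1],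
  [2, 1, 1, 1, 3, 2, 0], [2, 2, 1, 1, 3, 1, 0], [0, 0, 0, 0, 1, 1, 0], [1, 1, 1, 1, 2, 1, 1]]
  140737487831037 [96, 108, 132, 132, 78, 210, 252] 281729223138 :=
  cut4 4 5 1 1 1 _ [[1, 0, 0, 0, 1, 0, 0], [1, 1, 0, 0, 1, 1, 0], [2, 2, 2, 1, 4, 2, 1], [2, 1,
  1, 1, 3, 2, 0], [2, 2, 1, 1, 4, 2, 0], [0, 0, 0, 0, 1, 1, 0], [1, 1, 1, 1, 2, 1, 1]] [[1, 0, 0,
  0, 1, 0, 0], [1, 1, 0, 0, 1, 1, 0], [2, 2, 2, 1, 4, 2, 1], [2, 1, 1, 1, 3, 2, 0], [2, 2, 1, 1,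
  3, 1, 0], [2, 2, 1, 1, 4, 2, 0], [1, 1, 1, 1, 2, 1, 1]] _ _ 226676931544 556990681106 _ (by
  decide +kernel) nd386 ok190

theorem nd388 : Ok 4 Dn4 [[1, 0, 0, 0, 1, 0, 0], [1, 1, 0, 0, 1, 1, 0], [2, 2, 2, 1, 4, 2, 1],
  [2, 1, 1, 1, 2, 1, 0], [2, 2, 1, 1, 3, 1, 0], [0, 0, 0, 0, 1, 1, 0], [1, 1, 1, 1, 2, 1, 1]]
  140737487831037 [96, 108, 132, 132, 78, 210, 252] 376745645179 :=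
  cut4 3 5 1 1 1 _ [[1, 0, 0, 0, 1, 0, 0], [1, 1, 0, 0, 1, 1, 0], [2, 2, 2, 1, 4, 2, 1], [2, 1,
  1, 1, 3, 2, 0], [2, 2, 1, 1, 3, 1, 0], [0, 0, 0, 0, 1, 1, 0], [1, 1, 1, 1, 2, 1, 1]] [[1, 0, 0,
  0, 1, 0, 0], [1, 1, 0, 0, 1, 1, 0], [2, 2, 2, 1, 4, 2, 1], [2, 1, 1, 1, 2, 1, 0], [2, 2, 1, 1,
  3, 1, 0], [2, 1, 1, 1, 3, 2, 0], [1, 1, 1, 1, 2, 1, 1]] _ _ 281729223138 756811333340 _ (by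
  decide +kernel) nd387 ok191

theorem nd389 : Ok 4 Dn4 [[1, 0, 0, 0, 1, 0, 0], [1, 1, 0, 0, 1, 1, 0], [2, 2, 2, 1, 4, 2, 1],
  [2, 1, 1, 1, 2, 1, 0], [2, 2, 1, 1, 3, 1, 0], [0, 0, 0, 0, 1, 1, 0], [1, 1, 1, 1, 2, 1, 1]]
  140187732017149 [96, 108, 132, 132, 78, 210, 252] 376745645179 :=
  dec4 2 7 0 _ _ 140737487831037 _ [96, 108, 132, 132, 78, 210, 252] _ (by decide +kernel) nd388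

theorem nd390 : Ok 4 Dn4 [[1, 0, 0, 0, 1, 0, 0], [1, 1, 0, 0, 1, 1, 0], [2, 2, 2, 1, 3, 1, 1],
  [2, 1, 1, 1, 2, 1, 0], [2, 2, 1, 1, 3, 1, 0], [0, 0, 0, 0, 1, 1, 0], [1, 1, 1, 1, 2, 1, 1]]
  140187732017149 [96, 108, 132, 132, 78, 210, 252] 424313997514 :=
  cut4 2 5 1 1 1 _ [[1, 0, 0, 0, 1, 0, 0], [1, 1, 0, 0, 1, 1, 0], [2, 2, 2, 1, 4, 2, 1], [2, 1,
  1, 1, 2, 1, 0], [2, 2, 1, 1, 3, 1, 0], [0, 0, 0, 0, 1, 1, 0], [1, 1, 1, 1, 2, 1, 1]] [[1, 0, 0,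
  0, 1, 0, 0], [1, 1, 0, 0, 1, 1, 0], [2, 2, 2, 1, 3, 1, 1], [2, 1, 1, 1, 2, 1, 0], [2, 2, 1, 1,
  3, 1, 0], [2, 2, 2, 1, 4, 2, 1], [1, 1, 1, 1, 2, 1, 1]] _ _ 376745645179 709724111518 _ (by
  decide +kernel) nd389 ok192

theorem nd391 : Ok 4 Dn4 [[1, 0, 0, 0, 1, 0, 0], [1, 1, 0, 0, 1, 1, 0], [2, 2, 2, 1, 3, 1, 1],
  [2, 1, 1, 1, 2, 1, 0], [2, 2, 1, 1, 3, 1, 0], [0, 0, 0, 0, 1, 1, 0], [1, 1, 1, 1, 2, 1, 1]]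
  140186658275325 [96, 108, 132, 132, 78, 210, 252] 424313997514 :=
  dec4 1 14 0 _ _ 140187732017149 _ [96, 108, 132, 132, 78, 210, 252] _ (by decide +kernel) nd390

theorem nd392 : Ok 4 Dn4 [[1, 0, 0, 0, 1, 0, 0], [1, 1, 0, 0, 1, 1, 0], [2, 2, 2, 1, 3, 1, 1],
  [1, 1, 1, 1, 1, 1, 0], [2, 2, 1, 1, 3, 1, 0], [0, 0, 0, 0, 1, 1, 0], [1, 1, 1, 1, 2, 1, 1]]
  140186658275325 [96, 108, 132, 132, 78, 210, 252] 557393854190 :=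
  cut4 0 3 1 1 1 _ [[2, 1, 1, 1, 2, 1, 0], [1, 1, 0, 0, 1, 1, 0], [2, 2, 2, 1, 3, 1, 1], [1, 1,
  1, 1, 1, 1, 0], [2, 2, 1, 1, 3, 1, 0], [0, 0, 0, 0, 1, 1, 0], [1, 1, 1, 1, 2, 1, 1]] [[1, 0, 0,
  0, 1, 0, 0], [1, 1, 0, 0, 1, 1, 0], [2, 2, 2, 1, 3, 1, 1], [2, 1, 1, 1, 2, 1, 0], [2, 2, 1, 1,
  3, 1, 0], [0, 0, 0, 0, 1, 1, 0], [1, 1, 1, 1, 2, 1, 1]] _ _ 956633424215 424313997514 _ (by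
  decide +kernel) ok186 nd391

theorem nd393 : Ok 4 Dn4 [[1, 0, 0, 0, 1, 0, 0], [1, 1, 0, 0, 1, 1, 0], [2, 2, 2, 1, 3, 1, 1],
  [1, 1, 1, 1, 1, 1, 0], [2, 2, 1, 1, 3, 1, 0], [0, 0, 0, 0, 1, 1, 0], [1, 1, 1, 1, 2, 1, 1]]
  140186658271229 [96, 108, 132, 132, 78, 210, 252] 557393854190 :=
  dec4 0 12 0 _ _ 140186658275325 _ [96, 108, 132, 132, 78, 210, 252] _ (by decide +kernel) nd392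

theorem nd394 : Ok 4 Dn4 [[1, 0, 0, 0, 1, 0, 0], [1, 1, 0, 0, 1, 1, 0], [2, 2, 2, 1, 3, 1, 1],
  [1, 1, 1, 1, 1, 1, 0], [1, 1, 1, 1, 2, 0, 0], [0, 0, 0, 0, 1, 1, 0], [1, 1, 1, 1, 2, 1, 1]]
  140186658271229 [96, 108, 132, 132, 78, 210, 252] 574250417016 :=
  cut4 1 4 1 1 1 _ [[1, 0, 0, 0, 1, 0, 0], [2, 2, 1, 1, 3, 1, 0], [2, 2, 2, 1, 3, 1, 1], [1, 1,
  1, 1, 1, 1, 0], [1, 1, 1, 1, 2, 0, 0], [0, 0, 0, 0, 1, 1, 0], [1, 1, 1, 1, 2, 1, 1]] [[1, 0, 0,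
  0, 1, 0, 0], [1, 1, 0, 0, 1, 1, 0], [2, 2, 2, 1, 3, 1, 1], [1, 1, 1, 1, 1, 1, 0], [2, 2, 1, 1,
  3, 1, 0], [0, 0, 0, 0, 1, 1, 0], [1, 1, 1, 1, 2, 1, 1]] _ _ 599535261253 557393854190 _ (by
  decide +kernel) nd384 nd393

theorem nd395 : Ok 4 Dn4 [[1, 0, 0, 0, 1, 0, 0], [1, 1, 0, 0, 1, 1, 0], [2, 2, 2, 1, 3, 1, 1],
  [1, 1, 1, 1, 1, 1, 0], [1, 1, 1, 1, 2, 0, 0], [0, 0, 0, 0, 1, 1, 0], [1, 1, 1, 1, 2, 1, 1]]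
  140186658270205 [68, 104, 104, 128, 74, 182, 224] 574250417016 :=
  dec4 0 10 1 _ _ 140186658271229 _ [96, 108, 132, 132, 78, 210, 252] _ (by decide +kernel) nd394

theorem nd396 : Ok 4 Dn4 [[1, 0, 0, 0, 1, 0, 0], [1, 1, 0, 0, 1, 1, 0], [2, 2, 2, 1, 3, 1, 1],
  [1, 1, 1, 1, 1, 1, 0], [1, 1, 1, 1, 2, 0, 0], [0, 0, 0, 0, 1, 1, 0], [1, 1, 1, 1, 2, 1, 1]]
  140186658269693 [64, 76, 76, 124, 70, 154, 196] 574250417016 :=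
  dec4 0 9 1 _ _ 140186658270205 _ [68, 104, 104, 128, 74, 182, 224] _ (by decide +kernel) nd395

theorem nd397 : Ok 4 Dn4 [[2, 1, 1, 1, 2, 1, 0], [1, 1, 0, 0, 1, 1, 0], [1, 1, 1, 0, 2, 2, 1],
  [1, 1, 1, 1, 1, 1, 0], [2, 2, 2, 1, 4, 2, 1], [0, 0, 0, 0, 1, 1, 0], [1, 1, 1, 1, 2, 1, 1]]
  140737487830527 [78, 78, 78, 126, 84, 156, 210] 1491994506587 :=
  cut4 0 2 1 1 1 _ [[3, 2, 2, 1, 4, 3, 1], [1, 1, 0, 0, 1, 1, 0], [1, 1, 1, 0, 2, 2, 1], [1, 1,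
  1, 1, 1, 1, 0], [2, 2, 2, 1, 4, 2, 1], [0, 0, 0, 0, 1, 1, 0], [1, 1, 1, 1, 2, 1, 1]] [[2, 1, 1,
  1, 2, 1, 0], [1, 1, 0, 0, 1, 1, 0], [3, 2, 2, 1, 4, 3, 1], [1, 1, 1, 1, 1, 1, 0], [2, 2, 2, 1,
  4, 2, 1], [0, 0, 0, 0, 1, 1, 0], [1, 1, 1, 1, 2, 1, 1]] _ _ 1483826810181 1500162202992 _ (by
  decide +kernel) ok193 ok194

theorem nd398 : Ok 4 Dn4 [[2, 1, 1, 1, 2, 1, 0], [1, 1, 0, 0, 1, 1, 0], [1, 1, 1, 0, 2, 2, 1],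
  [1, 1, 1, 1, 1, 1, 0], [2, 2, 2, 1, 4, 2, 1], [0, 0, 0, 0, 1, 1, 0], [1, 1, 1, 1, 2, 1, 1]]
  140187732016639 [78, 78, 78, 126, 84, 156, 210] 1491994506587 :=
  dec4 2 7 0 _ _ 140737487830527 _ [78, 78, 78, 126, 84, 156, 210] _ (by decide +kernel) nd397

theorem nd399 : Ok 4 Dn4 [[2, 1, 1, 1, 2, 1, 0], [1, 1, 0, 0, 1, 1, 0], [1, 1, 1, 0, 1, 1, 1],
  [1, 1, 1, 1, 1, 1, 0], [2, 2, 2, 1, 4, 2, 1], [0, 0, 0, 0, 1, 1, 0], [1, 1, 1, 1, 2, 1, 1]]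
  140187732016639 [78, 78, 78, 126, 84, 156, 210] 1615607410133 :=
  cut4 2 5 1 1 1 _ [[2, 1, 1, 1, 2, 1, 0], [1, 1, 0, 0, 1, 1, 0], [1, 1, 1, 0, 2, 2, 1], [1, 1,
  1, 1, 1, 1, 0], [2, 2, 2, 1, 4, 2, 1], [0, 0, 0, 0, 1, 1, 0], [1, 1, 1, 1, 2, 1, 1]] [[2, 1, 1,
  1, 2, 1, 0], [1, 1, 0, 0, 1, 1, 0], [1, 1, 1, 0, 1, 1, 1], [1, 1, 1, 1, 1, 1, 0], [2, 2, 2, 1,
  4, 2, 1], [1, 1, 1, 0, 2, 2, 1], [1, 1, 1, 1, 2, 1, 1]] _ _ 1491994506587 1986446120768 _ (by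
  decide +kernel) nd398 ok195

theorem nd400 : Ok 4 Dn4 [[2, 1, 1, 1, 2, 1, 0], [1, 1, 0, 0, 1, 1, 0], [1, 1, 1, 0, 1, 1, 1],
  [1, 1, 1, 1, 1, 1, 0], [2, 2, 2, 1, 3, 1, 1], [0, 0, 0, 0, 1, 1, 0], [1, 1, 1, 1, 2, 1, 1]]
  140187732016639 [78, 78, 78, 126, 84, 156, 210] 1825242789861 :=
  cut4 4 5 1 1 1 _ [[2, 1, 1, 1, 2, 1, 0], [1, 1, 0, 0, 1, 1, 0], [1, 1, 1, 0, 1, 1, 1], [1, 1,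
  1, 1, 1, 1, 0], [2, 2, 2, 1, 4, 2, 1], [0, 0, 0, 0, 1, 1, 0], [1, 1, 1, 1, 2, 1, 1]] [[2, 1, 1,
  1, 2, 1, 0], [1, 1, 0, 0, 1, 1, 0], [1, 1, 1, 0, 1, 1, 1], [1, 1, 1, 1, 1, 1, 0], [2, 2, 2, 1,
  3, 1, 1], [2, 2, 2, 1, 4, 2, 1], [1, 1, 1, 1, 2, 1, 1]] _ _ 1615607410133 3083055068227 _ (by
  decide +kernel) nd399 ok196

theorem nd401 : Ok 4 Dn4 [[2, 1, 1, 1, 2, 1, 0], [1, 1, 0, 0, 1, 1, 0], [1, 1, 1, 0, 1, 1, 1],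
  [1, 1, 1, 1, 1, 1, 0], [2, 2, 2, 1, 3, 1, 1], [0, 0, 0, 0, 1, 1, 0], [1, 1, 1, 1, 2, 1, 1]]
  140186658274815 [64, 76, 76, 124, 70, 154, 196] 1825242789861 :=
  dec4 1 14 1 _ _ 140187732016639 _ [78, 78, 78, 126, 84, 156, 210] _ (by decide +kernel) nd400

theorem nd402 : Ok 4 Dn4 [[2, 1, 1, 1, 2, 1, 0], [1, 1, 0, 0, 1, 1, 0], [1, 1, 1, 0, 1, 1, 1],
  [1, 1, 1, 1, 1, 1, 0], [2, 2, 2, 1, 3, 1, 1], [0, 0, 0, 0, 1, 1, 0], [1, 1, 1, 1, 2, 1, 1]]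
  140186658274813 [64, 76, 76, 124, 70, 154, 196] 1825242789861 :=
  dec4 0 1 0 _ _ 140186658274815 _ [64, 76, 76, 124, 70, 154, 196] _ (by decide +kernel) nd401

theorem nd403 : Ok 4 Dn4 [[2, 1, 1, 0, 3, 2, 1], [1, 1, 0, 0, 1, 1, 0], [1, 1, 1, 0, 2, 2, 1],
  [2, 1, 1, 1, 2, 1, 0], [2, 2, 2, 1, 4, 2, 1], [0, 0, 0, 0, 1, 1, 0], [1, 1, 1, 1, 2, 1, 1]]
  140737487830527 [64, 76, 76, 124, 70, 154, 196] 733724398513 :=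
  cut4 2 3 1 1 1 _ [[2, 1, 1, 0, 3, 2, 1], [1, 1, 0, 0, 1, 1, 0], [3, 2, 2, 1, 4, 3, 1], [2, 1,
  1, 1, 2, 1, 0], [2, 2, 2, 1, 4, 2, 1], [0, 0, 0, 0, 1, 1, 0], [1, 1, 1, 1, 2, 1, 1]] [[2, 1, 1,
  0, 3, 2, 1], [1, 1, 0, 0, 1, 1, 0], [1, 1, 1, 0, 2, 2, 1], [3, 2, 2, 1, 4, 3, 1], [2, 2, 2, 1,
  4, 2, 1], [0, 0, 0, 0, 1, 1, 0], [1, 1, 1, 1, 2, 1, 1]] _ _ 874112205833 593336591193 _ (by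
  decide +kernel) ok197 ok198

theorem nd404 : Ok 4 Dn4 [[2, 1, 1, 0, 3, 2, 1], [1, 1, 0, 0, 1, 1, 0], [1, 1, 1, 0, 2, 2, 1],
  [2, 1, 1, 1, 2, 1, 0], [2, 2, 2, 1, 4, 2, 1], [0, 0, 0, 0, 1, 1, 0], [1, 1, 1, 1, 2, 1, 1]]
  140187732016639 [64, 76, 76, 124, 70, 154, 196] 733724398513 :=
  dec4 2 7 0 _ _ 140737487830527 _ [64, 76, 76, 124, 70, 154, 196] _ (by decide +kernel) nd403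

theorem nd405 : Ok 4 Dn4 [[2, 1, 1, 0, 3, 2, 1], [1, 1, 0, 0, 1, 1, 0], [1, 1, 1, 0, 1, 1, 1],
  [2, 1, 1, 1, 2, 1, 0], [2, 2, 2, 1, 4, 2, 1], [0, 0, 0, 0, 1, 1, 0], [1, 1, 1, 1, 2, 1, 1]]
  140187732016639 [64, 76, 76, 124, 70, 154, 196] 789956179466 :=
  cut4 2 5 1 1 1 _ [[2, 1, 1, 0, 3, 2, 1], [1, 1, 0, 0, 1, 1, 0], [1, 1, 1, 0, 2, 2, 1], [2, 1,
  1, 1, 2, 1, 0], [2, 2, 2, 1, 4, 2, 1], [0, 0, 0, 0, 1, 1, 0], [1, 1, 1, 1, 2, 1, 1]] [[2, 1, 1,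
  0, 3, 2, 1], [1, 1, 0, 0, 1, 1, 0], [1, 1, 1, 0, 1, 1, 1], [2, 1, 1, 1, 2, 1, 0], [2, 2, 2, 1,
  4, 2, 1], [1, 1, 1, 0, 2, 2, 1], [1, 1, 1, 1, 2, 1, 1]] _ _ 733724398513 958651522324 _ (by
  decide +kernel) nd404 ok199

theorem nd406 : Ok 4 Dn4 [[2, 1, 1, 0, 2, 1, 1], [1, 1, 0, 0, 1, 1, 0], [1, 1, 1, 0, 1, 1, 1],
  [2, 1, 1, 1, 2, 1, 0], [2, 2, 2, 1, 4, 2, 1], [0, 0, 0, 0, 1, 1, 0], [1, 1, 1, 1, 2, 1, 1]]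
  140187732016639 [64, 76, 76, 124, 70, 154, 196] 829690629877 :=
  cut4 0 5 1 1 1 _ [[2, 1, 1, 0, 3, 2, 1], [1, 1, 0, 0, 1, 1, 0], [1, 1, 1, 0, 1, 1, 1], [2, 1,
  1, 1, 2, 1, 0], [2, 2, 2, 1, 4, 2, 1], [0, 0, 0, 0, 1, 1, 0], [1, 1, 1, 1, 2, 1, 1]] [[2, 1, 1,
  0, 2, 1, 1], [1, 1, 0, 0, 1, 1, 0], [1, 1, 1, 0, 1, 1, 1], [2, 1, 1, 1, 2, 1, 0], [2, 2, 2, 1,
  4, 2, 1], [2, 1, 1, 0, 3, 2, 1], [1, 1, 1, 1, 2, 1, 1]] _ _ 789956179466 988628431517 _ (by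
  decide +kernel) nd405 ok200

theorem nd407 : Ok 4 Dn4 [[2, 1, 1, 0, 2, 1, 1], [1, 1, 0, 0, 1, 1, 0], [1, 1, 1, 0, 1, 1, 1],
  [2, 1, 1, 1, 2, 1, 0], [2, 2, 2, 1, 4, 2, 1], [0, 0, 0, 0, 1, 1, 0], [1, 1, 1, 1, 2, 1, 1]]
  140187732016637 [64, 76, 76, 124, 70, 154, 196] 829690629877 :=
  dec4 0 1 0 _ _ 140187732016639 _ [64, 76, 76, 124, 70, 154, 196] _ (by decide +kernel) nd406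

theorem nd408 : Ok 4 Dn4 [[1, 0, 0, 0, 1, 0, 0], [1, 1, 0, 0, 1, 1, 0], [4, 2, 2, 1, 6, 4, 1],
  [2, 1, 1, 1, 3, 2, 0], [3, 2, 2, 1, 5, 2, 1], [0, 0, 0, 0, 1, 1, 0], [1, 1, 1, 1, 2, 1, 1]]
  140737487831037 [68, 104, 104, 128, 74, 182, 224] 344956218876 :=
  cut4 1 4 1 1 1 _ [[1, 0, 0, 0, 1, 0, 0], [4, 3, 2, 1, 6, 3, 1], [4, 2, 2, 1, 6, 4, 1], [2, 1,
  1, 1, 3, 2, 0], [3, 2, 2, 1, 5, 2, 1], [0, 0, 0, 0, 1, 1, 0], [1, 1, 1, 1, 2, 1, 1]] [[1, 0, 0,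
  0, 1, 0, 0], [1, 1, 0, 0, 1, 1, 0], [4, 2, 2, 1, 6, 4, 1], [2, 1, 1, 1, 3, 2, 0], [4, 3, 2, 1,
  6, 3, 1], [0, 0, 0, 0, 1, 1, 0], [1, 1, 1, 1, 2, 1, 1]] _ _ 531894622944 298221617858 _ (by
  decide +kernel) ok202 ok203

theorem nd409 : Ok 4 Dn4 [[1, 0, 0, 0, 1, 0, 0], [1, 1, 0, 0, 1, 1, 0], [4, 2, 2, 1, 6, 4, 1],
  [2, 1, 1, 1, 3, 2, 0], [2, 2, 2, 1, 4, 2, 1], [0, 0, 0, 0, 1, 1, 0], [1, 1, 1, 1, 2, 1, 1]]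
  140737487831037 [68, 104, 104, 128, 74, 182, 224] 407505161370 :=
  cut4 0 4 1 1 1 _ [[3, 2, 2, 1, 5, 2, 1], [1, 1, 0, 0, 1, 1, 0], [4, 2, 2, 1, 6, 4, 1], [2, 1,
  1, 1, 3, 2, 0], [2, 2, 2, 1, 4, 2, 1], [0, 0, 0, 0, 1, 1, 0], [1, 1, 1, 1, 2, 1, 1]] [[1, 0, 0,
  0, 1, 0, 0], [1, 1, 0, 0, 1, 1, 0], [4, 2, 2, 1, 6, 4, 1], [2, 1, 1, 1, 3, 2, 0], [3, 2, 2, 1,
  5, 2, 1], [0, 0, 0, 0, 1, 1, 0], [1, 1, 1, 1, 2, 1, 1]] _ _ 845347758828 344956218876 _ (by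
  decide +kernel) ok201 nd408

theorem nd410 : Ok 4 Dn4 [[1, 0, 0, 0, 1, 0, 0], [1, 1, 0, 0, 1, 1, 0], [2, 1, 1, 0, 3, 2, 1],
  [2, 1, 1, 1, 3, 2, 0], [2, 2, 2, 1, 4, 2, 1], [0, 0, 0, 0, 1, 1, 0], [1, 1, 1, 1, 2, 1, 1]]
  140737487831037 [68, 104, 104, 128, 74, 182, 224] 332635521963 :=
  cut4 2 3 1 1 1 _ [[1, 0, 0, 0, 1, 0, 0], [1, 1, 0, 0, 1, 1, 0], [4, 2, 2, 1, 6, 4, 1], [2, 1,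
  1, 1, 3, 2, 0], [2, 2, 2, 1, 4, 2, 1], [0, 0, 0, 0, 1, 1, 0], [1, 1, 1, 1, 2, 1, 1]] [[1, 0, 0,
  0, 1, 0, 0], [1, 1, 0, 0, 1, 1, 0], [2, 1, 1, 0, 3, 2, 1], [4, 2, 2, 1, 6, 4, 1], [2, 2, 2, 1,
  4, 2, 1], [0, 0, 0, 0, 1, 1, 0], [1, 1, 1, 1, 2, 1, 1]] _ _ 407505161370 257765882555 _ (by
  decide +kernel) nd409 ok204

theorem nd411 : Ok 4 Dn4 [[1, 0, 0, 0, 1, 0, 0], [1, 1, 0, 0, 1, 1, 0], [2, 1, 1, 0, 3, 2, 1],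
  [2, 1, 1, 1, 2, 1, 0], [2, 2, 2, 1, 4, 2, 1], [0, 0, 0, 0, 1, 1, 0], [1, 1, 1, 1, 2, 1, 1]]
  140737487831037 [68, 104, 104, 128, 74, 182, 224] 459766858646 :=
  cut4 3 5 1 1 1 _ [[1, 0, 0, 0, 1, 0, 0], [1, 1, 0, 0, 1, 1, 0], [2, 1, 1, 0, 3, 2, 1], [2, 1,
  1, 1, 3, 2, 0], [2, 2, 2, 1, 4, 2, 1], [0, 0, 0, 0, 1, 1, 0], [1, 1, 1, 1, 2, 1, 1]] [[1, 0, 0,
  0, 1, 0, 0], [1, 1, 0, 0, 1, 1, 0], [2, 1, 1, 0, 3, 2, 1], [2, 1, 1, 1, 2, 1, 0], [2, 2, 2, 1,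
  4, 2, 1], [2, 1, 1, 1, 3, 2, 0], [1, 1, 1, 1, 2, 1, 1]] _ _ 332635521963 968292205375 _ (by
  decide +kernel) nd410 ok205

theorem nd412 : Ok 4 Dn4 [[1, 0, 0, 0, 1, 0, 0], [1, 1, 0, 0, 1, 1, 0], [2, 1, 1, 0, 3, 2, 1],
  [2, 1, 1, 1, 2, 1, 0], [2, 2, 2, 1, 4, 2, 1], [0, 0, 0, 0, 1, 1, 0], [1, 1, 1, 1, 2, 1, 1]]
  140187732017149 [68, 104, 104, 128, 74, 182, 224] 459766858646 :=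
  dec4 2 7 0 _ _ 140737487831037 _ [68, 104, 104, 128, 74, 182, 224] _ (by decide +kernel) nd411

theorem nd413 : Ok 4 Dn4 [[1, 0, 0, 0, 1, 0, 0], [1, 1, 0, 0, 1, 1, 0], [2, 1, 1, 0, 2, 1, 1],
  [2, 1, 1, 1, 2, 1, 0], [2, 2, 2, 1, 4, 2, 1], [0, 0, 0, 0, 1, 1, 0], [1, 1, 1, 1, 2, 1, 1]]
  140187732017149 [68, 104, 104, 128, 74, 182, 224] 468293175993 :=
  cut4 2 5 1 1 1 _ [[1, 0, 0, 0, 1, 0, 0], [1, 1, 0, 0, 1, 1, 0], [2, 1, 1, 0, 3, 2, 1], [2, 1,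
  1, 1, 2, 1, 0], [2, 2, 2, 1, 4, 2, 1], [0, 0, 0, 0, 1, 1, 0], [1, 1, 1, 1, 2, 1, 1]] [[1, 0, 0,
  0, 1, 0, 0], [1, 1, 0, 0, 1, 1, 0], [2, 1, 1, 0, 2, 1, 1], [2, 1, 1, 1, 2, 1, 0], [2, 2, 2, 1,
  4, 2, 1], [2, 1, 1, 0, 3, 2, 1], [1, 1, 1, 1, 2, 1, 1]] _ _ 459766858646 502398445380 _ (by
  decide +kernel) nd412 ok206

theorem nd414 : Ok 4 Dn4 [[1, 0, 0, 0, 1, 0, 0], [1, 1, 0, 0, 1, 1, 0], [2, 1, 1, 0, 2, 1, 1],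
  [2, 1, 1, 1, 2, 1, 0], [2, 2, 2, 1, 4, 2, 1], [0, 0, 0, 0, 1, 1, 0], [1, 1, 1, 1, 2, 1, 1]]
  140187732016637 [64, 76, 76, 124, 70, 154, 196] 468293175993 :=
  dec4 0 9 1 _ _ 140187732017149 _ [68, 104, 104, 128, 74, 182, 224] _ (by decide +kernel) nd413

theorem nd415 : Ok 4 Dn4 [[1, 0, 0, 0, 1, 0, 0], [1, 1, 0, 0, 1, 1, 0], [1, 1, 1, 0, 1, 1, 1],
  [2, 1, 1, 1, 2, 1, 0], [2, 2, 2, 1, 4, 2, 1], [0, 0, 0, 0, 1, 1, 0], [1, 1, 1, 1, 2, 1, 1]]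
  140187732016637 [64, 76, 76, 124, 70, 154, 196] 558642539464 :=
  cut4 0 2 1 1 1 _ [[2, 1, 1, 0, 2, 1, 1], [1, 1, 0, 0, 1, 1, 0], [1, 1, 1, 0, 1, 1, 1], [2, 1,
  1, 1, 2, 1, 0], [2, 2, 2, 1, 4, 2, 1], [0, 0, 0, 0, 1, 1, 0], [1, 1, 1, 1, 2, 1, 1]] [[1, 0, 0,
  0, 1, 0, 0], [1, 1, 0, 0, 1, 1, 0], [2, 1, 1, 0, 2, 1, 1], [2, 1, 1, 1, 2, 1, 0], [2, 2, 2, 1,
  4, 2, 1], [0, 0, 0, 0, 1, 1, 0], [1, 1, 1, 1, 2, 1, 1]] _ _ 829690629877 468293175993 _ (by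
  decide +kernel) nd407 nd414

theorem nd416 : Ok 4 Dn4 [[1, 0, 0, 0, 1, 0, 0], [1, 1, 0, 0, 1, 1, 0], [1, 1, 1, 0, 1, 1, 1],
  [2, 1, 1, 1, 2, 1, 0], [2, 2, 2, 1, 3, 1, 1], [2, 2, 2, 1, 4, 2, 1], [1, 1, 1, 1, 2, 1, 1]]
  281474976185853 [67, 79, 79, 139, 91, 175, 199] 1289918700876 :=
  cut4 0 2 1 1 1 _ [[2, 1, 1, 0, 2, 1, 1], [1, 1, 0, 0, 1, 1, 0], [1, 1, 1, 0, 1, 1, 1], [2, 1,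
  1, 1, 2, 1, 0], [2, 2, 2, 1, 3, 1, 1], [2, 2, 2, 1, 4, 2, 1], [1, 1, 1, 1, 2, 1, 1]] [[1, 0, 0,
  0, 1, 0, 0], [1, 1, 0, 0, 1, 1, 0], [2, 1, 1, 0, 2, 1, 1], [2, 1, 1, 1, 2, 1, 0], [2, 2, 2, 1,
  3, 1, 1], [2, 2, 2, 1, 4, 2, 1], [1, 1, 1, 1, 2, 1, 1]] _ _ 1954504719013 1068390028163 _ (by
  decide +kernel) ok207 ok208

theorem nd417 : Ok 4 Dn4 [[1, 0, 0, 0, 1, 0, 0], [1, 1, 0, 0, 1, 1, 0], [1, 1, 1, 0, 1, 1, 1],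
  [2, 1, 1, 1, 2, 1, 0], [2, 2, 2, 1, 3, 1, 1], [2, 2, 2, 1, 4, 2, 1], [1, 1, 1, 1, 2, 1, 1]]
  140737487830525 [66, 78, 78, 138, 84, 168, 198] 1289918700876 :=
  dec4 2 15 1 _ _ 281474976185853 _ [67, 79, 79, 139, 91, 175, 199] _ (by decide +kernel) nd416

theorem nd418 : Ok 4 Dn4 [[1, 0, 0, 0, 1, 0, 0], [1, 1, 0, 0, 1, 1, 0], [1, 1, 1, 0, 1, 1, 1],
  [2, 1, 1, 1, 2, 1, 0], [2, 2, 2, 1, 3, 1, 1], [2, 2, 2, 1, 4, 2, 1], [1, 1, 1, 1, 2, 1, 1]]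
  140187732016637 [64, 76, 76, 124, 70, 154, 196] 1289918700876 :=
  dec4 2 7 1 _ _ 140737487830525 _ [66, 78, 78, 138, 84, 168, 198] _ (by decide +kernel) nd417

theorem nd419 : Ok 4 Dn4 [[1, 0, 0, 0, 1, 0, 0], [1, 1, 0, 0, 1, 1, 0], [1, 1, 1, 0, 1, 1, 1],
  [2, 1, 1, 1, 2, 1, 0], [2, 2, 2, 1, 3, 1, 1], [0, 0, 0, 0, 1, 1, 0], [1, 1, 1, 1, 2, 1, 1]]
  140187732016637 [64, 76, 76, 124, 70, 154, 196] 663110562523 :=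
  cut4 4 5 1 1 1 _ [[1, 0, 0, 0, 1, 0, 0], [1, 1, 0, 0, 1, 1, 0], [1, 1, 1, 0, 1, 1, 1], [2, 1,
  1, 1, 2, 1, 0], [2, 2, 2, 1, 4, 2, 1], [0, 0, 0, 0, 1, 1, 0], [1, 1, 1, 1, 2, 1, 1]] [[1, 0, 0,
  0, 1, 0, 0], [1, 1, 0, 0, 1, 1, 0], [1, 1, 1, 0, 1, 1, 1], [2, 1, 1, 1, 2, 1, 0], [2, 2, 2, 1,
  3, 1, 1], [2, 2, 2, 1, 4, 2, 1], [1, 1, 1, 1, 2, 1, 1]] _ _ 558642539464 1289918700876 _ (by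
  decide +kernel) nd415 nd418

theorem nd420 : Ok 4 Dn4 [[1, 0, 0, 0, 1, 0, 0], [1, 1, 0, 0, 1, 1, 0], [1, 1, 1, 0, 1, 1, 1],
  [2, 1, 1, 1, 2, 1, 0], [2, 2, 2, 1, 3, 1, 1], [0, 0, 0, 0, 1, 1, 0], [1, 1, 1, 1, 2, 1, 1]]
  140186658274813 [64, 76, 76, 124, 70, 154, 196] 663110562523 :=
  dec4 1 14 0 _ _ 140187732016637 _ [64, 76, 76, 124, 70, 154, 196] _ (by decide +kernel) nd419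

theorem nd421 : Ok 4 Dn4 [[1, 0, 0, 0, 1, 0, 0], [1, 1, 0, 0, 1, 1, 0], [1, 1, 1, 0, 1, 1, 1],
  [1, 1, 1, 1, 1, 1, 0], [2, 2, 2, 1, 3, 1, 1], [0, 0, 0, 0, 1, 1, 0], [1, 1, 1, 1, 2, 1, 1]]
  140186658274813 [64, 76, 76, 124, 70, 154, 196] 953643619358 :=
  cut4 0 3 1 1 1 _ [[2, 1, 1, 1, 2, 1, 0], [1, 1, 0, 0, 1, 1, 0], [1, 1, 1, 0, 1, 1, 1], [1, 1,
  1, 1, 1, 1, 0], [2, 2, 2, 1, 3, 1, 1], [0, 0, 0, 0, 1, 1, 0], [1, 1, 1, 1, 2, 1, 1]] [[1, 0, 0,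
  0, 1, 0, 0], [1, 1, 0, 0, 1, 1, 0], [1, 1, 1, 0, 1, 1, 1], [2, 1, 1, 1, 2, 1, 0], [2, 2, 2, 1,
  3, 1, 1], [0, 0, 0, 0, 1, 1, 0], [1, 1, 1, 1, 2, 1, 1]] _ _ 1825242789861 663110562523 _ (by
  decide +kernel) nd402 nd420

theorem nd422 : Ok 4 Dn4 [[1, 0, 0, 0, 1, 0, 0], [1, 1, 0, 0, 1, 1, 0], [1, 1, 1, 0, 1, 1, 1],
  [1, 1, 1, 1, 1, 1, 0], [2, 2, 2, 1, 3, 1, 1], [0, 0, 0, 0, 1, 1, 0], [1, 1, 1, 1, 2, 1, 1]]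
  140186658270717 [64, 76, 76, 124, 70, 154, 196] 953643619358 :=
  dec4 0 12 0 _ _ 140186658274813 _ [64, 76, 76, 124, 70, 154, 196] _ (by decide +kernel) nd421

theorem nd423 : Ok 4 Dn4 [[1, 0, 0, 0, 1, 0, 0], [1, 1, 0, 0, 1, 1, 0], [1, 1, 1, 0, 1, 1, 1],
  [1, 1, 1, 1, 1, 1, 0], [2, 2, 2, 1, 3, 1, 1], [0, 0, 0, 0, 1, 1, 0], [1, 1, 1, 1, 2, 1, 1]]
  140186658269693 [64, 76, 76, 124, 70, 154, 196] 953643619358 :=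
  dec4 0 10 0 _ _ 140186658270717 _ [64, 76, 76, 124, 70, 154, 196] _ (by decide +kernel) nd422

theorem nd424 : Ok 4 Dn4 [[1, 0, 0, 0, 1, 0, 0], [1, 1, 0, 0, 1, 1, 0], [1, 1, 1, 0, 1, 1, 1],
  [1, 1, 1, 1, 1, 1, 0], [1, 1, 1, 1, 2, 0, 0], [0, 0, 0, 0, 1, 1, 0], [1, 1, 1, 1, 2, 1, 1]]
  140186658269693 [64, 76, 76, 124, 70, 154, 196] 763947018187 :=
  cut4 2 4 1 1 1 _ [[1, 0, 0, 0, 1, 0, 0], [1, 1, 0, 0, 1, 1, 0], [2, 2, 2, 1, 3, 1, 1], [1, 1,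
  1, 1, 1, 1, 0], [1, 1, 1, 1, 2, 0, 0], [0, 0, 0, 0, 1, 1, 0], [1, 1, 1, 1, 2, 1, 1]] [[1, 0, 0,
  0, 1, 0, 0], [1, 1, 0, 0, 1, 1, 0], [1, 1, 1, 0, 1, 1, 1], [1, 1, 1, 1, 1, 1, 0], [2, 2, 2, 1,
  3, 1, 1], [0, 0, 0, 0, 1, 1, 0], [1, 1, 1, 1, 2, 1, 1]] _ _ 574250417016 953643619358 _ (by
  decide +kernel) nd396 nd423

theorem nd425 : Ok 4 Dn4 [[1, 0, 0, 0, 1, 0, 0], [1, 1, 0, 0, 1, 1, 0], [1, 1, 1, 0, 1, 1, 1],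
  [1, 1, 1, 1, 1, 1, 0], [1, 1, 1, 1, 2, 0, 0], [0, 0, 0, 0, 1, 1, 0], [1, 1, 1, 1, 2, 1, 1]]
  131390565247485 [64, 76, 76, 124, 70, 154, 196] 763947018187 :=
  dec4 2 11 0 _ _ 140186658269693 _ [64, 76, 76, 124, 70, 154, 196] _ (by decide +kernel) nd424

theorem nd426 : Ok 4 Dn4 [[1, 0, 0, 0, 1, 0, 0], [1, 1, 0, 0, 1, 1, 0], [1, 1, 1, 0, 1, 1, 1],
  [1, 1, 1, 1, 1, 1, 0], [1, 1, 1, 1, 2, 0, 0], [0, 0, 0, 0, 1, 1, 0], [1, 1, 1, 1, 2, 1, 1]]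
  131356205509117 [64, 76, 76, 124, 70, 154, 196] 763947018187 :=
  dec4 2 3 0 _ _ 131390565247485 _ [64, 76, 76, 124, 70, 154, 196] _ (by decide +kernel) nd425

theorem nd427 : Ok 4 Dn4 [[1, 0, 0, 0, 1, 0, 0], [2, 2, 1, 1, 2, 0, 0], [3, 2, 2, 1, 4, 1, 1],
  [2, 1, 1, 1, 2, 1, 0], [2, 2, 1, 1, 3, 1, 0], [1, 1, 0, 0, 1, 1, 0], [1, 1, 1, 1, 2, 1, 1]]
  281474976186365 [101, 113, 149, 149, 113, 245, 257] 381065954145 :=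
  cut4 0 6 1 1 1 _ [[2, 1, 1, 1, 3, 1, 1], [2, 2, 1, 1, 2, 0, 0], [3, 2, 2, 1, 4, 1, 1], [2, 1,
  1, 1, 2, 1, 0], [2, 2, 1, 1, 3, 1, 0], [1, 1, 0, 0, 1, 1, 0], [1, 1, 1, 1, 2, 1, 1]] [[1, 0, 0,
  0, 1, 0, 0], [2, 2, 1, 1, 2, 0, 0], [3, 2, 2, 1, 4, 1, 1], [2, 1, 1, 1, 2, 1, 0], [2, 2, 1, 1,
  3, 1, 0], [1, 1, 0, 0, 1, 1, 0], [2, 1, 1, 1, 3, 1, 1]] _ _ 1421953310521 120844115050 _ (by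
  decide +kernel) ok211 ok212

theorem nd428 : Ok 4 Dn4 [[1, 0, 0, 0, 1, 0, 0], [2, 2, 1, 1, 2, 0, 0], [2, 2, 2, 1, 3, 1, 1],
  [2, 1, 1, 1, 2, 1, 0], [2, 2, 1, 1, 3, 1, 0], [1, 1, 0, 0, 1, 1, 0], [1, 1, 1, 1, 2, 1, 1]]
  281474976186365 [101, 113, 149, 149, 113, 245, 257] 527348189735 :=
  cut4 0 2 1 1 1 _ [[3, 2, 2, 1, 4, 1, 1], [2, 2, 1, 1, 2, 0, 0], [2, 2, 2, 1, 3, 1, 1], [2, 1,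
  1, 1, 2, 1, 0], [2, 2, 1, 1, 3, 1, 0], [1, 1, 0, 0, 1, 1, 0], [1, 1, 1, 1, 2, 1, 1]] [[1, 0, 0,
  0, 1, 0, 0], [2, 2, 1, 1, 2, 0, 0], [3, 2, 2, 1, 4, 1, 1], [2, 1, 1, 1, 2, 1, 0], [2, 2, 1, 1,
  3, 1, 0], [1, 1, 0, 0, 1, 1, 0], [1, 1, 1, 1, 2, 1, 1]] _ _ 1405041603271 381065954145 _ (by
  decide +kernel) ok210 nd427

theorem nd429 : Ok 4 Dn4 [[1, 0, 0, 0, 1, 0, 0], [2, 2, 1, 1, 2, 0, 0], [2, 2, 2, 1, 3, 1, 1],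
  [2, 1, 1, 1, 2, 1, 0], [2, 2, 1, 1, 3, 1, 0], [1, 1, 0, 0, 1, 1, 0], [1, 1, 1, 1, 2, 1, 1]]
  281473902444541 [101, 113, 149, 149, 113, 245, 257] 527348189735 :=
  dec4 1 14 0 _ _ 281474976186365 _ [101, 113, 149, 149, 113, 245, 257] _ (by decide +kernel)
  nd428

theorem nd430 : Ok 4 Dn4 [[1, 0, 0, 0, 1, 0, 0], [2, 2, 1, 1, 2, 0, 0], [2, 2, 2, 1, 3, 1, 1],
  [1, 1, 1, 1, 1, 1, 0], [2, 2, 1, 1, 3, 1, 0], [1, 1, 0, 0, 1, 1, 0], [1, 1, 1, 1, 2, 1, 1]]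
  281473902444541 [101, 113, 149, 149, 113, 245, 257] 649785038271 :=
  cut4 0 3 1 1 1 _ [[2, 1, 1, 1, 2, 1, 0], [2, 2, 1, 1, 2, 0, 0], [2, 2, 2, 1, 3, 1, 1], [1, 1,
  1, 1, 1, 1, 0], [2, 2, 1, 1, 3, 1, 0], [1, 1, 0, 0, 1, 1, 0], [1, 1, 1, 1, 2, 1, 1]] [[1, 0, 0,
  0, 1, 0, 0], [2, 2, 1, 1, 2, 0, 0], [2, 2, 2, 1, 3, 1, 1], [2, 1, 1, 1, 2, 1, 0], [2, 2, 1, 1,
  3, 1, 0], [1, 1, 0, 0, 1, 1, 0], [1, 1, 1, 1, 2, 1, 1]] _ _ 1017095583879 527348189735 _ (by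
  decide +kernel) ok209 nd429

theorem nd431 : Ok 4 Dn4 [[1, 0, 0, 0, 1, 0, 0], [2, 2, 1, 1, 2, 0, 0], [2, 2, 2, 1, 3, 1, 1],
  [1, 1, 1, 1, 1, 1, 0], [2, 2, 1, 1, 3, 1, 0], [1, 1, 0, 0, 1, 1, 0], [1, 1, 1, 1, 2, 1, 1]]
  281473902440445 [101, 113, 149, 149, 113, 245, 257] 649785038271 :=
  dec4 0 12 0 _ _ 281473902444541 _ [101, 113, 149, 149, 113, 245, 257] _ (by decide +kernel)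
  nd430

theorem nd432 : Ok 4 Dn4 [[1, 0, 0, 0, 1, 0, 0], [2, 2, 1, 1, 2, 0, 0], [2, 2, 2, 1, 3, 1, 1],
  [1, 1, 1, 1, 1, 1, 0], [1, 1, 1, 1, 2, 0, 0], [1, 1, 0, 0, 1, 1, 0], [1, 1, 1, 1, 2, 1, 1]]
  281473902440445 [101, 113, 149, 149, 113, 245, 257] 556214181045 :=
  cut4 4 5 1 1 1 _ [[1, 0, 0, 0, 1, 0, 0], [2, 2, 1, 1, 2, 0, 0], [2, 2, 2, 1, 3, 1, 1], [1, 1,
  1, 1, 1, 1, 0], [2, 2, 1, 1, 3, 1, 0], [1, 1, 0, 0, 1, 1, 0], [1, 1, 1, 1, 2, 1, 1]] [[1, 0, 0,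
  0, 1, 0, 0], [2, 2, 1, 1, 2, 0, 0], [2, 2, 2, 1, 3, 1, 1], [1, 1, 1, 1, 1, 1, 0], [1, 1, 1, 1,
  2, 0, 0], [2, 2, 1, 1, 3, 1, 0], [1, 1, 1, 1, 2, 1, 1]] _ _ 649785038271 415857895206 _ (by
  decide +kernel) nd431 ok213

theorem nd433 : Ok 4 Dn4 [[1, 0, 0, 0, 1, 0, 0], [2, 2, 1, 1, 2, 0, 0], [2, 2, 2, 1, 3, 1, 1],
  [1, 1, 1, 1, 1, 1, 0], [1, 1, 1, 1, 2, 0, 0], [1, 1, 0, 0, 1, 1, 0], [1, 1, 1, 1, 2, 1, 1]]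
  281439542702077 [101, 113, 149, 149, 113, 245, 257] 556214181045 :=
  dec4 2 3 0 _ _ 281473902440445 _ [101, 113, 149, 149, 113, 245, 257] _ (by decide +kernel) nd432

theorem nd434 : Ok 4 Dn4 [[1, 0, 0, 0, 1, 0, 0], [4, 3, 2, 1, 4, 1, 1], [3, 2, 2, 1, 4, 1, 1],
  [2, 1, 1, 1, 2, 1, 0], [2, 2, 1, 1, 2, 0, 0], [1, 1, 0, 0, 1, 1, 0], [1, 1, 1, 1, 2, 1, 1]]
  281474976186365 [101, 113, 149, 149, 113, 245, 257] 361014916783 :=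
  cut4 0 6 1 1 1 _ [[2, 1, 1, 1, 3, 1, 1], [4, 3, 2, 1, 4, 1, 1], [3, 2, 2, 1, 4, 1, 1], [2, 1,
  1, 1, 2, 1, 0], [2, 2, 1, 1, 2, 0, 0], [1, 1, 0, 0, 1, 1, 0], [1, 1, 1, 1, 2, 1, 1]] [[1, 0, 0,
  0, 1, 0, 0], [4, 3, 2, 1, 4, 1, 1], [3, 2, 2, 1, 4, 1, 1], [2, 1, 1, 1, 2, 1, 0], [2, 2, 1, 1,
  2, 0, 0], [1, 1, 0, 0, 1, 1, 0], [2, 1, 1, 1, 3, 1, 1]] _ _ 1350924006115 113537644450 _ (by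
  decide +kernel) ok217 ok218

theorem nd435 : Ok 4 Dn4 [[1, 0, 0, 0, 1, 0, 0], [4, 3, 2, 1, 4, 1, 1], [2, 2, 2, 1, 3, 1, 1],
  [2, 1, 1, 1, 2, 1, 0], [2, 2, 1, 1, 2, 0, 0], [1, 1, 0, 0, 1, 1, 0], [1, 1, 1, 1, 2, 1, 1]]
  281474976186365 [101, 113, 149, 149, 113, 245, 257] 500309663393 :=
  cut4 0 2 1 1 1 _ [[3, 2, 2, 1, 4, 1, 1], [4, 3, 2, 1, 4, 1, 1], [2, 2, 2, 1, 3, 1, 1], [2, 1,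
  1, 1, 2, 1, 0], [2, 2, 1, 1, 2, 0, 0], [1, 1, 0, 0, 1, 1, 0], [1, 1, 1, 1, 2, 1, 1]] [[1, 0, 0,
  0, 1, 0, 0], [4, 3, 2, 1, 4, 1, 1], [3, 2, 2, 1, 4, 1, 1], [2, 1, 1, 1, 2, 1, 0], [2, 2, 1, 1,
  2, 0, 0], [1, 1, 0, 0, 1, 1, 0], [1, 1, 1, 1, 2, 1, 1]] _ _ 1336078143047 361014916783 _ (by
  decide +kernel) ok216 nd434

theorem nd436 : Ok 4 Dn4 [[1, 0, 0, 0, 1, 0, 0], [3, 3, 2, 1, 3, 1, 1], [2, 2, 2, 1, 3, 1, 1],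
  [2, 1, 1, 1, 2, 1, 0], [2, 2, 1, 1, 2, 0, 0], [1, 1, 0, 0, 1, 1, 0], [1, 1, 1, 1, 2, 1, 1]]
  281474976186365 [101, 113, 149, 149, 113, 245, 257] 599543956945 :=
  cut4 0 1 1 1 1 _ [[4, 3, 2, 1, 4, 1, 1], [3, 3, 2, 1, 3, 1, 1], [2, 2, 2, 1, 3, 1, 1], [2, 1,
  1, 1, 2, 1, 0], [2, 2, 1, 1, 2, 0, 0], [1, 1, 0, 0, 1, 1, 0], [1, 1, 1, 1, 2, 1, 1]] [[1, 0, 0,
  0, 1, 0, 0], [4, 3, 2, 1, 4, 1, 1], [2, 2, 2, 1, 3, 1, 1], [2, 1, 1, 1, 2, 1, 0], [2, 2, 1, 1,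
  2, 0, 0], [1, 1, 0, 0, 1, 1, 0], [1, 1, 1, 1, 2, 1, 1]] _ _ 1294184011802 500309663393 _ (by
  decide +kernel) ok215 nd435

theorem nd437 : Ok 4 Dn4 [[1, 0, 0, 0, 1, 0, 0], [3, 3, 2, 1, 3, 1, 1], [2, 2, 2, 1, 3, 1, 1],
  [2, 1, 1, 1, 2, 1, 0], [2, 2, 1, 1, 2, 0, 0], [1, 1, 0, 0, 1, 1, 0], [1, 1, 1, 1, 2, 1, 1]]
  281440616447997 [101, 113, 149, 149, 113, 245, 257] 599543956945 :=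
  dec4 2 3 0 _ _ 281474976186365 _ [101, 113, 149, 149, 113, 245, 257] _ (by decide +kernel) nd436

theorem nd438 : Ok 4 Dn4 [[1, 0, 0, 0, 1, 0, 0], [1, 1, 0, 0, 0, 0, 0], [3, 3, 2, 1, 3, 1, 1],
  [2, 1, 1, 1, 2, 1, 0], [2, 2, 1, 1, 2, 0, 0], [1, 1, 0, 0, 1, 1, 0], [1, 1, 1, 1, 2, 1, 1]]
  281440616447997 [101, 113, 149, 149, 113, 245, 257] 253550260941 :=
  cut4 1 6 1 1 1 _ [[1, 0, 0, 0, 1, 0, 0], [2, 2, 1, 1, 2, 1, 1], [3, 3, 2, 1, 3, 1, 1], [2, 1,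
  1, 1, 2, 1, 0], [2, 2, 1, 1, 2, 0, 0], [1, 1, 0, 0, 1, 1, 0], [1, 1, 1, 1, 2, 1, 1]] [[1, 0, 0,
  0, 1, 0, 0], [1, 1, 0, 0, 0, 0, 0], [3, 3, 2, 1, 3, 1, 1], [2, 1, 1, 1, 2, 1, 0], [2, 2, 1, 1,
  2, 0, 0], [1, 1, 0, 0, 1, 1, 0], [2, 2, 1, 1, 2, 1, 1]] _ _ 563399851761 176087863236 _ (by
  decide +kernel) ok219 ok220

theorem nd439 : Ok 4 Dn4 [[1, 0, 0, 0, 1, 0, 0], [1, 1, 0, 0, 0, 0, 0], [2, 2, 2, 1, 3, 1, 1],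
  [2, 1, 1, 1, 2, 1, 0], [2, 2, 1, 1, 2, 0, 0], [1, 1, 0, 0, 1, 1, 0], [1, 1, 1, 1, 2, 1, 1]]
  281440616447997 [101, 113, 149, 149, 113, 245, 257] 302977931799 :=
  cut4 1 2 1 1 1 _ [[1, 0, 0, 0, 1, 0, 0], [3, 3, 2, 1, 3, 1, 1], [2, 2, 2, 1, 3, 1, 1], [2, 1,
  1, 1, 2, 1, 0], [2, 2, 1, 1, 2, 0, 0], [1, 1, 0, 0, 1, 1, 0], [1, 1, 1, 1, 2, 1, 1]] [[1, 0, 0,
  0, 1, 0, 0], [1, 1, 0, 0, 0, 0, 0], [3, 3, 2, 1, 3, 1, 1], [2, 1, 1, 1, 2, 1, 0], [2, 2, 1, 1,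
  2, 0, 0], [1, 1, 0, 0, 1, 1, 0], [1, 1, 1, 1, 2, 1, 1]] _ _ 599543956945 253550260941 _ (by
  decide +kernel) nd437 nd438

theorem nd440 : Ok 4 Dn4 [[1, 0, 0, 0, 1, 0, 0], [1, 1, 0, 0, 0, 0, 0], [2, 2, 2, 1, 3, 1, 1],
  [2, 1, 1, 1, 2, 1, 0], [2, 2, 1, 1, 2, 0, 0], [1, 1, 0, 0, 1, 1, 0], [1, 1, 1, 1, 2, 1, 1]]
  281439542706173 [101, 113, 149, 149, 113, 245, 257] 302977931799 :=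
  dec4 1 14 0 _ _ 281440616447997 _ [101, 113, 149, 149, 113, 245, 257] _ (by decide +kernel)
  nd439

theorem nd441 : Ok 4 Dn4 [[1, 0, 0, 0, 1, 0, 0], [1, 1, 0, 0, 0, 0, 0], [2, 2, 2, 1, 3, 1, 1],
  [1, 1, 1, 1, 1, 1, 0], [2, 2, 1, 1, 2, 0, 0], [1, 1, 0, 0, 1, 1, 0], [1, 1, 1, 1, 2, 1, 1]]
  281439542706173 [101, 113, 149, 149, 113, 245, 257] 372101350501 :=
  cut4 0 3 1 1 1 _ [[2, 1, 1, 1, 2, 1, 0], [1, 1, 0, 0, 0, 0, 0], [2, 2, 2, 1, 3, 1, 1], [1, 1,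
  1, 1, 1, 1, 0], [2, 2, 1, 1, 2, 0, 0], [1, 1, 0, 0, 1, 1, 0], [1, 1, 1, 1, 2, 1, 1]] [[1, 0, 0,
  0, 1, 0, 0], [1, 1, 0, 0, 0, 0, 0], [2, 2, 2, 1, 3, 1, 1], [2, 1, 1, 1, 2, 1, 0], [2, 2, 1, 1,
  2, 0, 0], [1, 1, 0, 0, 1, 1, 0], [1, 1, 1, 1, 2, 1, 1]] _ _ 579471606605 302977931799 _ (by
  decide +kernel) ok214 nd440

theorem nd442 : Ok 4 Dn4 [[1, 0, 0, 0, 1, 0, 0], [1, 1, 0, 0, 0, 0, 0], [2, 2, 2, 1, 3, 1, 1],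
  [1, 1, 1, 1, 1, 1, 0], [2, 2, 1, 1, 2, 0, 0], [1, 1, 0, 0, 1, 1, 0], [1, 1, 1, 1, 2, 1, 1]]
  281439542702077 [101, 113, 149, 149, 113, 245, 257] 372101350501 :=
  dec4 0 12 0 _ _ 281439542706173 _ [101, 113, 149, 149, 113, 245, 257] _ (by decide +kernel)
  nd441

theorem nd443 : Ok 4 Dn4 [[1, 0, 0, 0, 1, 0, 0], [1, 1, 0, 0, 0, 0, 0], [2, 2, 2, 1, 3, 1, 1],
  [1, 1, 1, 1, 1, 1, 0], [1, 1, 1, 1, 2, 0, 0], [1, 1, 0, 0, 1, 1, 0], [1, 1, 1, 1, 2, 1, 1]]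
  281439542702077 [101, 113, 149, 149, 113, 245, 257] 418129558137 :=
  cut4 1 4 1 1 1 _ [[1, 0, 0, 0, 1, 0, 0], [2, 2, 1, 1, 2, 0, 0], [2, 2, 2, 1, 3, 1, 1], [1, 1,
  1, 1, 1, 1, 0], [1, 1, 1, 1, 2, 0, 0], [1, 1, 0, 0, 1, 1, 0], [1, 1, 1, 1, 2, 1, 1]] [[1, 0, 0,
  0, 1, 0, 0], [1, 1, 0, 0, 0, 0, 0], [2, 2, 2, 1, 3, 1, 1], [1, 1, 1, 1, 1, 1, 0], [2, 2, 1, 1,
  2, 0, 0], [1, 1, 0, 0, 1, 1, 0], [1, 1, 1, 1, 2, 1, 1]] _ _ 556214181045 372101350501 _ (by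
  decide +kernel) nd433 nd442

theorem nd444 : Ok 4 Dn4 [[1, 0, 0, 0, 1, 0, 0], [1, 1, 0, 0, 0, 0, 0], [2, 2, 2, 1, 3, 1, 1],
  [1, 1, 1, 1, 1, 1, 0], [1, 1, 1, 1, 2, 0, 0], [1, 1, 0, 0, 1, 1, 0], [1, 1, 1, 1, 2, 1, 1]]
  281439542701053 [73, 109, 121, 145, 109, 217, 229] 418129558137 :=
  dec4 0 10 1 _ _ 281439542702077 _ [101, 113, 149, 149, 113, 245, 257] _ (by decide +kernel)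
  nd443

theorem nd445 : Ok 4 Dn4 [[1, 0, 0, 0, 1, 0, 0], [1, 1, 0, 0, 0, 0, 0], [2, 2, 2, 1, 3, 1, 1],
  [1, 1, 1, 1, 1, 1, 0], [1, 1, 1, 1, 2, 0, 0], [1, 1, 0, 0, 1, 1, 0], [1, 1, 1, 1, 2, 1, 1]]
  281439542700541 [69, 81, 93, 141, 105, 189, 201] 418129558137 :=
  dec4 0 9 1 _ _ 281439542701053 _ [73, 109, 121, 145, 109, 217, 229] _ (by decide +kernel) nd444

theorem nd446 : Ok 4 Dn4 [[1, 0, 0, 0, 1, 0, 0], [1, 1, 0, 0, 0, 0, 0], [2, 1, 1, 0, 2, 1, 1],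
  [1, 1, 1, 1, 1, 1, 0], [3, 3, 2, 1, 3, 1, 1], [1, 1, 0, 0, 1, 1, 0], [1, 1, 1, 1, 2, 1, 1]]
  281439542706173 [73, 109, 121, 145, 109, 217, 229] 601789741958 :=
  cut4 0 3 1 1 1 _ [[2, 1, 1, 1, 2, 1, 0], [1, 1, 0, 0, 0, 0, 0], [2, 1, 1, 0, 2, 1, 1], [1, 1,
  1, 1, 1, 1, 0], [3, 3, 2, 1, 3, 1, 1], [1, 1, 0, 0, 1, 1, 0], [1, 1, 1, 1, 2, 1, 1]] [[1, 0, 0,
  0, 1, 0, 0], [1, 1, 0, 0, 0, 0, 0], [2, 1, 1, 0, 2, 1, 1], [2, 1, 1, 1, 2, 1, 0], [3, 3, 2, 1,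
  3, 1, 1], [1, 1, 0, 0, 1, 1, 0], [1, 1, 1, 1, 2, 1, 1]] _ _ 1149439007113 419239986906 _ (by
  decide +kernel) ok223 ok224

theorem nd447 : Ok 4 Dn4 [[1, 0, 0, 0, 1, 0, 0], [1, 1, 0, 0, 0, 0, 0], [2, 1, 1, 0, 2, 1, 1],
  [1, 1, 1, 1, 1, 1, 0], [2, 2, 2, 1, 3, 1, 1], [1, 1, 0, 0, 1, 1, 0], [1, 1, 1, 1, 2, 1, 1]]
  281439542706173 [73, 109, 121, 145, 109, 217, 229] 672028673953 :=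
  cut4 1 4 1 1 1 _ [[1, 0, 0, 0, 1, 0, 0], [3, 3, 2, 1, 3, 1, 1], [2, 1, 1, 0, 2, 1, 1], [1, 1,
  1, 1, 1, 1, 0], [2, 2, 2, 1, 3, 1, 1], [1, 1, 0, 0, 1, 1, 0], [1, 1, 1, 1, 2, 1, 1]] [[1, 0, 0,
  0, 1, 0, 0], [1, 1, 0, 0, 0, 0, 0], [2, 1, 1, 0, 2, 1, 1], [1, 1, 1, 1, 1, 1, 0], [3, 3, 2, 1,
  3, 1, 1], [1, 1, 0, 0, 1, 1, 0], [1, 1, 1, 1, 2, 1, 1]] _ _ 1093462265918 601789741958 _ (by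
  decide +kernel) ok222 nd446

theorem nd448 : Ok 4 Dn4 [[1, 0, 0, 0, 1, 0, 0], [1, 1, 0, 0, 0, 0, 0], [2, 1, 1, 0, 2, 1, 1],
  [1, 1, 1, 1, 1, 1, 0], [2, 2, 2, 1, 3, 1, 1], [1, 1, 0, 0, 1, 1, 0], [1, 1, 1, 1, 2, 1, 1]]
  281439542705661 [69, 81, 93, 141, 105, 189, 201] 672028673953 :=
  dec4 0 9 1 _ _ 281439542706173 _ [73, 109, 121, 145, 109, 217, 229] _ (by decide +kernel) nd447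

theorem nd449 : Ok 4 Dn4 [[1, 0, 0, 0, 1, 0, 0], [1, 1, 0, 0, 0, 0, 0], [1, 1, 1, 0, 1, 1, 1],
  [1, 1, 1, 1, 1, 1, 0], [2, 2, 2, 1, 3, 1, 1], [1, 1, 0, 0, 1, 1, 0], [1, 1, 1, 1, 2, 1, 1]]
  281439542705661 [69, 81, 93, 141, 105, 189, 201] 899830947747 :=
  cut4 0 2 1 1 1 _ [[2, 1, 1, 0, 2, 1, 1], [1, 1, 0, 0, 0, 0, 0], [1, 1, 1, 0, 1, 1, 1], [1, 1,
  1, 1, 1, 1, 0], [2, 2, 2, 1, 3, 1, 1], [1, 1, 0, 0, 1, 1, 0], [1, 1, 1, 1, 2, 1, 1]] [[1, 0, 0,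
  0, 1, 0, 0], [1, 1, 0, 0, 0, 0, 0], [2, 1, 1, 0, 2, 1, 1], [1, 1, 1, 1, 1, 1, 0], [2, 2, 2, 1,
  3, 1, 1], [1, 1, 0, 0, 1, 1, 0], [1, 1, 1, 1, 2, 1, 1]] _ _ 1583237769128 672028673953 _ (by
  decide +kernel) ok221 nd448

theorem nd450 : Ok 4 Dn4 [[1, 0, 0, 0, 1, 0, 0], [1, 1, 0, 0, 0, 0, 0], [1, 1, 1, 0, 1, 1, 1],
  [1, 1, 1, 1, 1, 1, 0], [2, 2, 2, 1, 3, 1, 1], [1, 1, 0, 0, 1, 1, 0], [1, 1, 1, 1, 2, 1, 1]]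
  281439542701565 [69, 81, 93, 141, 105, 189, 201] 899830947747 :=
  dec4 0 12 0 _ _ 281439542705661 _ [69, 81, 93, 141, 105, 189, 201] _ (by decide +kernel) nd449

theorem nd451 : Ok 4 Dn4 [[1, 0, 0, 0, 1, 0, 0], [1, 1, 0, 0, 0, 0, 0], [1, 1, 1, 0, 1, 1, 1],
  [1, 1, 1, 1, 1, 1, 0], [2, 2, 2, 1, 3, 1, 1], [1, 1, 0, 0, 1, 1, 0], [1, 1, 1, 1, 2, 1, 1]]
  281439542700541 [69, 81, 93, 141, 105, 189, 201] 899830947747 :=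
  dec4 0 10 0 _ _ 281439542701565 _ [69, 81, 93, 141, 105, 189, 201] _ (by decide +kernel) nd450

theorem nd452 : Ok 4 Dn4 [[1, 0, 0, 0, 1, 0, 0], [1, 1, 0, 0, 0, 0, 0], [1, 1, 1, 0, 1, 1, 1],
  [1, 1, 1, 1, 1, 1, 0], [1, 1, 1, 1, 2, 0, 0], [1, 1, 0, 0, 1, 1, 0], [1, 1, 1, 1, 2, 1, 1]]
  281439542700541 [69, 81, 93, 141, 105, 189, 201] 658980252942 :=
  cut4 2 4 1 1 1 _ [[1, 0, 0, 0, 1, 0, 0], [1, 1, 0, 0, 0, 0, 0], [2, 2, 2, 1, 3, 1, 1], [1, 1,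
  1, 1, 1, 1, 0], [1, 1, 1, 1, 2, 0, 0], [1, 1, 0, 0, 1, 1, 0], [1, 1, 1, 1, 2, 1, 1]] [[1, 0, 0,
  0, 1, 0, 0], [1, 1, 0, 0, 0, 0, 0], [1, 1, 1, 0, 1, 1, 1], [1, 1, 1, 1, 1, 1, 0], [2, 2, 2, 1,
  3, 1, 1], [1, 1, 0, 0, 1, 1, 0], [1, 1, 1, 1, 2, 1, 1]] _ _ 418129558137 899830947747 _ (by
  decide +kernel) nd445 nd451

theorem nd453 : Ok 4 Dn4 [[1, 0, 0, 0, 1, 0, 0], [1, 1, 0, 0, 0, 0, 0], [1, 1, 1, 0, 1, 1, 1],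
  [1, 1, 1, 1, 1, 1, 0], [1, 1, 1, 1, 2, 0, 0], [1, 1, 0, 0, 1, 1, 0], [1, 1, 1, 1, 2, 1, 1]]
  140702054345213 [68, 80, 92, 140, 98, 182, 200] 658980252942 :=
  dec4 2 15 1 _ _ 281439542700541 _ [69, 81, 93, 141, 105, 189, 201] _ (by decide +kernel) nd452

theorem nd454 : Ok 4 Dn4 [[1, 0, 0, 0, 1, 0, 0], [1, 1, 0, 0, 0, 0, 0], [1, 1, 1, 0, 1, 1, 1],
  [1, 1, 1, 1, 1, 1, 0], [1, 1, 1, 1, 2, 0, 0], [1, 1, 0, 0, 1, 1, 0], [1, 1, 1, 1, 2, 1, 1]]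
  131905961323005 [66, 78, 78, 138, 84, 168, 198] 658980252942 :=
  dec4 2 11 1 _ _ 140702054345213 _ [68, 80, 92, 140, 98, 182, 200] _ (by decide +kernel) nd453

theorem nd455 : Ok 4 Dn4 [[1, 0, 0, 0, 1, 0, 0], [1, 1, 0, 0, 0, 0, 0], [1, 1, 1, 0, 1, 1, 1],
  [1, 1, 1, 1, 1, 1, 0], [1, 1, 1, 1, 2, 0, 0], [1, 1, 0, 0, 1, 1, 0], [1, 1, 1, 1, 2, 1, 1]]
  131356205509117 [64, 76, 76, 124, 70, 154, 196] 658980252942 :=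
  dec4 2 7 1 _ _ 131905961323005 _ [66, 78, 78, 138, 84, 168, 198] _ (by decide +kernel) nd454

theorem nd456 : Ok 4 Dn4 [[1, 0, 0, 0, 1, 0, 0], [1, 1, 0, 0, 0, 0, 0], [1, 1, 1, 0, 1, 1, 1],
  [1, 1, 1, 1, 1, 1, 0], [1, 1, 1, 1, 2, 0, 0], [0, 0, 0, 0, 1, 1, 0], [1, 1, 1, 1, 2, 1, 1]]
  131356205509117 [64, 76, 76, 124, 70, 154, 196] 711463635565 :=
  cut4 1 5 1 1 1 _ [[1, 0, 0, 0, 1, 0, 0], [1, 1, 0, 0, 1, 1, 0], [1, 1, 1, 0, 1, 1, 1], [1, 1,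
  1, 1, 1, 1, 0], [1, 1, 1, 1, 2, 0, 0], [0, 0, 0, 0, 1, 1, 0], [1, 1, 1, 1, 2, 1, 1]] [[1, 0, 0,
  0, 1, 0, 0], [1, 1, 0, 0, 0, 0, 0], [1, 1, 1, 0, 1, 1, 1], [1, 1, 1, 1, 1, 1, 0], [1, 1, 1, 1,
  2, 0, 0], [1, 1, 0, 0, 1, 1, 0], [1, 1, 1, 1, 2, 1, 1]] _ _ 763947018187 658980252942 _ (by
  decide +kernel) nd426 nd455

theorem nd457 : Ok 4 Dn4 [[1, 0, 0, 0, 1, 0, 0], [1, 1, 0, 0, 0, 0, 0], [1, 1, 1, 0, 1, 1, 1],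
  [1, 1, 1, 1, 1, 1, 0], [1, 1, 1, 1, 2, 0, 0], [0, 0, 0, 0, 1, 1, 0], [1, 1, 1, 1, 2, 1, 1]]
  60987461331453 [64, 76, 76, 124, 70, 154, 196] 711463635565 :=
  dec4 2 14 0 _ _ 131356205509117 _ [64, 76, 76, 124, 70, 154, 196] _ (by decide +kernel) nd456

theorem nd458 : Ok 4 Dn4 [[1, 0, 0, 0, 1, 0, 0], [1, 1, 0, 0, 0, 0, 0], [1, 1, 1, 0, 1, 1, 1],
  [1, 1, 1, 1, 1, 1, 0], [1, 1, 1, 1, 2, 0, 0], [0, 0, 0, 0, 1, 1, 0], [1, 1, 1, 1, 2, 1, 1]]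
  25803089242621 [64, 76, 76, 124, 70, 154, 196] 711463635565 :=
  dec4 2 13 0 _ _ 60987461331453 _ [64, 76, 76, 124, 70, 154, 196] _ (by decide +kernel) nd457

theorem nd459 : Ok 4 Dn4 [[1, 0, 0, 0, 1, 0, 0], [1, 1, 0, 0, 0, 0, 0], [2, 2, 2, 1, 3, 1, 1],
  [1, 1, 1, 1, 0, 0, 0], [1, 1, 1, 1, 2, 0, 0], [1, 1, 1, 1, 1, 1, 0], [1, 1, 1, 1, 2, 1, 1]]
  211070798524413 [103, 127, 151, 151, 127, 259, 259] 406389773053 :=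
  cut4 0 3 1 1 1 _ [[2, 1, 1, 1, 1, 0, 0], [1, 1, 0, 0, 0, 0, 0], [2, 2, 2, 1, 3, 1, 1], [1, 1,
  1, 1, 0, 0, 0], [1, 1, 1, 1, 2, 0, 0], [1, 1, 1, 1, 1, 1, 0], [1, 1, 1, 1, 2, 1, 1]] [[1, 0, 0,
  0, 1, 0, 0], [1, 1, 0, 0, 0, 0, 0], [2, 2, 2, 1, 3, 1, 1], [2, 1, 1, 1, 1, 0, 0], [1, 1, 1, 1,
  2, 0, 0], [1, 1, 1, 1, 1, 1, 0], [1, 1, 1, 1, 2, 1, 1]] _ _ 386355509296 416406904931 _ (by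
  decide +kernel) ok225 ok226

theorem nd460 : Ok 4 Dn4 [[1, 0, 0, 0, 1, 0, 0], [1, 1, 0, 0, 0, 0, 0], [2, 2, 2, 1, 3, 1, 1],
  [1, 1, 1, 1, 0, 0, 0], [1, 1, 1, 1, 2, 0, 0], [1, 1, 1, 1, 1, 1, 0], [1, 1, 1, 1, 2, 1, 1]]
  211070798523389 [75, 123, 123, 147, 123, 231, 231] 406389773053 :=
  dec4 0 10 1 _ _ 211070798524413 _ [103, 127, 151, 151, 127, 259, 259] _ (by decide +kernel)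
  nd459

theorem nd461 : Ok 4 Dn4 [[1, 0, 0, 0, 1, 0, 0], [1, 1, 0, 0, 0, 0, 0], [2, 2, 2, 1, 3, 1, 1],
  [1, 1, 1, 1, 0, 0, 0], [1, 1, 1, 1, 2, 0, 0], [1, 1, 1, 1, 1, 1, 0], [1, 1, 1, 1, 2, 1, 1]]
  211070798522877 [71, 95, 95, 143, 119, 203, 203] 406389773053 :=
  dec4 0 9 1 _ _ 211070798523389 _ [75, 123, 123, 147, 123, 231, 231] _ (by decide +kernel) nd460

theorem nd462 : Ok 4 Dn4 [[2, 1, 1, 1, 1, 0, 0], [1, 1, 0, 0, 0, 0, 0], [2, 2, 2, 1, 1, 1, 1],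
  [1, 1, 1, 1, 0, 0, 0], [2, 2, 2, 1, 3, 1, 1], [1, 1, 1, 1, 1, 1, 0], [1, 1, 1, 1, 2, 1, 1]]
  281440616447487 [99, 99, 99, 147, 147, 219, 219] 2195568769689 :=
  cut4 1 4 1 1 1 _ [[2, 1, 1, 1, 1, 0, 0], [3, 3, 2, 1, 3, 1, 1], [2, 2, 2, 1, 1, 1, 1], [1, 1,
  1, 1, 0, 0, 0], [2, 2, 2, 1, 3, 1, 1], [1, 1, 1, 1, 1, 1, 0], [1, 1, 1, 1, 2, 1, 1]] [[2, 1, 1,
  1, 1, 0, 0], [1, 1, 0, 0, 0, 0, 0], [2, 2, 2, 1, 1, 1, 1], [1, 1, 1, 1, 0, 0, 0], [3, 3, 2, 1,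
  3, 1, 1], [1, 1, 1, 1, 1, 1, 0], [1, 1, 1, 1, 2, 1, 1]] _ _ 4286564691155 1847069449444 _ (by
  decide +kernel) ok227 ok228

theorem nd463 : Ok 4 Dn4 [[2, 1, 1, 1, 1, 0, 0], [1, 1, 0, 0, 0, 0, 0], [1, 1, 1, 0, 1, 1, 1],
  [1, 1, 1, 1, 0, 0, 0], [2, 2, 2, 1, 3, 1, 1], [1, 1, 1, 1, 1, 1, 0], [1, 1, 1, 1, 2, 1, 1]]
  281440616447487 [99, 99, 99, 147, 147, 219, 219] 2031739705428 :=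
  cut4 2 3 1 1 1 _ [[2, 1, 1, 1, 1, 0, 0], [1, 1, 0, 0, 0, 0, 0], [2, 2, 2, 1, 1, 1, 1], [1, 1,
  1, 1, 0, 0, 0], [2, 2, 2, 1, 3, 1, 1], [1, 1, 1, 1, 1, 1, 0], [1, 1, 1, 1, 2, 1, 1]] [[2, 1, 1,
  1, 1, 0, 0], [1, 1, 0, 0, 0, 0, 0], [1, 1, 1, 0, 1, 1, 1], [2, 2, 2, 1, 1, 1, 1], [2, 2, 2, 1,
  3, 1, 1], [1, 1, 1, 1, 1, 1, 0], [1, 1, 1, 1, 2, 1, 1]] _ _ 2195568769689 1785996109035 _ (by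
  decide +kernel) nd462 ok229

theorem nd464 : Ok 4 Dn4 [[2, 1, 1, 1, 1, 0, 0], [1, 1, 0, 0, 0, 0, 0], [1, 1, 1, 0, 1, 1, 1],
  [1, 1, 1, 1, 0, 0, 0], [2, 2, 2, 1, 3, 1, 1], [1, 1, 1, 1, 1, 1, 0], [1, 1, 1, 1, 2, 1, 1]]
  211071872269823 [85, 97, 97, 145, 133, 205, 217] 2031739705428 :=
  dec4 2 14 1 _ _ 281440616447487 _ [99, 99, 99, 147, 147, 219, 219] _ (by decide +kernel) nd463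

theorem nd465 : Ok 4 Dn4 [[2, 1, 1, 1, 1, 0, 0], [1, 1, 0, 0, 0, 0, 0], [1, 1, 1, 0, 1, 1, 1],
  [1, 1, 1, 1, 0, 0, 0], [2, 2, 2, 1, 3, 1, 1], [1, 1, 1, 1, 1, 1, 0], [1, 1, 1, 1, 2, 1, 1]]
  211070798527999 [71, 95, 95, 143, 119, 203, 203] 2031739705428 :=
  dec4 1 14 1 _ _ 211071872269823 _ [85, 97, 97, 145, 133, 205, 217] _ (by decide +kernel) nd464

theorem nd466 : Ok 4 Dn4 [[2, 1, 1, 1, 1, 0, 0], [1, 1, 0, 0, 0, 0, 0], [1, 1, 1, 0, 1, 1, 1],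
  [1, 1, 1, 1, 0, 0, 0], [2, 2, 2, 1, 3, 1, 1], [1, 1, 1, 1, 1, 1, 0], [1, 1, 1, 1, 2, 1, 1]]
  211070798527997 [71, 95, 95, 143, 119, 203, 203] 2031739705428 :=
  dec4 0 1 0 _ _ 211070798527999 _ [71, 95, 95, 143, 119, 203, 203] _ (by decide +kernel) nd465

theorem nd467 : Ok 4 Dn4 [[1, 0, 0, 0, 1, 0, 0], [1, 1, 0, 0, 0, 0, 0], [2, 1, 1, 0, 2, 1, 1],
  [3, 2, 2, 1, 2, 1, 1], [2, 2, 2, 1, 3, 1, 1], [2, 1, 1, 1, 2, 1, 0], [1, 1, 1, 1, 2, 1, 1]]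
  281440616447997 [75, 123, 123, 147, 123, 231, 231] 690352450191 :=
  cut4 1 4 1 1 1 _ [[1, 0, 0, 0, 1, 0, 0], [3, 3, 2, 1, 3, 1, 1], [2, 1, 1, 0, 2, 1, 1], [3, 2,
  2, 1, 2, 1, 1], [2, 2, 2, 1, 3, 1, 1], [2, 1, 1, 1, 2, 1, 0], [1, 1, 1, 1, 2, 1, 1]] [[1, 0, 0,
  0, 1, 0, 0], [1, 1, 0, 0, 0, 0, 0], [2, 1, 1, 0, 2, 1, 1], [3, 2, 2, 1, 2, 1, 1], [3, 3, 2, 1,
  3, 1, 1], [2, 1, 1, 1, 2, 1, 0], [1, 1, 1, 1, 2, 1, 1]] _ _ 1341070879474 581899378643 _ (by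
  decide +kernel) ok233 ok234

theorem nd468 : Ok 4 Dn4 [[1, 0, 0, 0, 1, 0, 0], [1, 1, 0, 0, 0, 0, 0], [2, 1, 1, 0, 2, 1, 1],
  [3, 2, 2, 1, 2, 1, 1], [2, 2, 2, 1, 3, 1, 1], [2, 1, 1, 1, 2, 1, 0], [1, 1, 1, 1, 2, 1, 1]]
  281439542706173 [75, 123, 123, 147, 123, 231, 231] 690352450191 :=
  dec4 1 14 0 _ _ 281440616447997 _ [75, 123, 123, 147, 123, 231, 231] _ (by decide +kernel) nd467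

theorem nd469 : Ok 4 Dn4 [[1, 0, 0, 0, 1, 0, 0], [1, 1, 0, 0, 0, 0, 0], [2, 1, 1, 0, 2, 1, 1],
  [3, 2, 2, 1, 2, 1, 1], [2, 2, 2, 1, 3, 1, 1], [1, 1, 1, 1, 1, 1, 0], [1, 1, 1, 1, 2, 1, 1]]
  281439542706173 [75, 123, 123, 147, 123, 231, 231] 871721885873 :=
  cut4 0 5 1 1 1 _ [[2, 1, 1, 1, 2, 1, 0], [1, 1, 0, 0, 0, 0, 0], [2, 1, 1, 0, 2, 1, 1], [3, 2,
  2, 1, 2, 1, 1], [2, 2, 2, 1, 3, 1, 1], [1, 1, 1, 1, 1, 1, 0], [1, 1, 1, 1, 2, 1, 1]] [[1, 0, 0,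
  0, 1, 0, 0], [1, 1, 0, 0, 0, 0, 0], [2, 1, 1, 0, 2, 1, 1], [3, 2, 2, 1, 2, 1, 1], [2, 2, 2, 1,
  3, 1, 1], [2, 1, 1, 1, 2, 1, 0], [1, 1, 1, 1, 2, 1, 1]] _ _ 1415830192917 690352450191 _ (by
  decide +kernel) ok232 nd468

theorem nd470 : Ok 4 Dn4 [[1, 0, 0, 0, 1, 0, 0], [1, 1, 0, 0, 0, 0, 0], [2, 1, 1, 0, 2, 1, 1],
  [3, 2, 2, 1, 2, 1, 1], [2, 2, 2, 1, 3, 1, 1], [1, 1, 1, 1, 1, 1, 0], [1, 1, 1, 1, 2, 1, 1]]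
  281439542705661 [71, 95, 95, 143, 119, 203, 203] 871721885873 :=
  dec4 0 9 1 _ _ 281439542706173 _ [75, 123, 123, 147, 123, 231, 231] _ (by decide +kernel) nd469

theorem nd471 : Ok 4 Dn4 [[1, 0, 0, 0, 1, 0, 0], [1, 1, 0, 0, 0, 0, 0], [1, 1, 1, 0, 1, 1, 1],
  [3, 2, 2, 1, 2, 1, 1], [2, 2, 2, 1, 3, 1, 1], [1, 1, 1, 1, 1, 1, 0], [1, 1, 1, 1, 2, 1, 1]]
  281439542705661 [71, 95, 95, 143, 119, 203, 203] 1152708231103 :=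
  cut4 0 2 1 1 1 _ [[2, 1, 1, 0, 2, 1, 1], [1, 1, 0, 0, 0, 0, 0], [1, 1, 1, 0, 1, 1, 1], [3, 2,
  2, 1, 2, 1, 1], [2, 2, 2, 1, 3, 1, 1], [1, 1, 1, 1, 1, 1, 0], [1, 1, 1, 1, 2, 1, 1]] [[1, 0, 0,
  0, 1, 0, 0], [1, 1, 0, 0, 0, 0, 0], [2, 1, 1, 0, 2, 1, 1], [3, 2, 2, 1, 2, 1, 1], [2, 2, 2, 1,
  3, 1, 1], [1, 1, 1, 1, 1, 1, 0], [1, 1, 1, 1, 2, 1, 1]] _ _ 1995667266792 871721885873 _ (by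
  decide +kernel) ok231 nd470

theorem nd472 : Ok 4 Dn4 [[1, 0, 0, 0, 1, 0, 0], [1, 1, 0, 0, 0, 0, 0], [1, 1, 1, 0, 1, 1, 1],
  [2, 1, 1, 1, 1, 0, 0], [2, 2, 2, 1, 3, 1, 1], [1, 1, 1, 1, 1, 1, 0], [1, 1, 1, 1, 2, 1, 1]]
  281439542705661 [71, 95, 95, 143, 119, 203, 203] 1233491589675 :=
  cut4 2 3 1 1 1 _ [[1, 0, 0, 0, 1, 0, 0], [1, 1, 0, 0, 0, 0, 0], [3, 2, 2, 1, 2, 1, 1], [2, 1,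
  1, 1, 1, 0, 0], [2, 2, 2, 1, 3, 1, 1], [1, 1, 1, 1, 1, 1, 0], [1, 1, 1, 1, 2, 1, 1]] [[1, 0, 0,
  0, 1, 0, 0], [1, 1, 0, 0, 0, 0, 0], [1, 1, 1, 0, 1, 1, 1], [3, 2, 2, 1, 2, 1, 1], [2, 2, 2, 1,
  3, 1, 1], [1, 1, 1, 1, 1, 1, 0], [1, 1, 1, 1, 2, 1, 1]] _ _ 1314274948247 1152708231103 _ (by
  decide +kernel) ok230 nd471

theorem nd473 : Ok 4 Dn4 [[1, 0, 0, 0, 1, 0, 0], [1, 1, 0, 0, 0, 0, 0], [1, 1, 1, 0, 1, 1, 1],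
  [2, 1, 1, 1, 1, 0, 0], [2, 2, 2, 1, 3, 1, 1], [1, 1, 1, 1, 1, 1, 0], [1, 1, 1, 1, 2, 1, 1]]
  211070798527997 [71, 95, 95, 143, 119, 203, 203] 1233491589675 :=
  dec4 2 14 0 _ _ 281439542705661 _ [71, 95, 95, 143, 119, 203, 203] _ (by decide +kernel) nd472

theorem nd474 : Ok 4 Dn4 [[1, 0, 0, 0, 1, 0, 0], [1, 1, 0, 0, 0, 0, 0], [1, 1, 1, 0, 1, 1, 1],
  [1, 1, 1, 1, 0, 0, 0], [2, 2, 2, 1, 3, 1, 1], [1, 1, 1, 1, 1, 1, 0], [1, 1, 1, 1, 2, 1, 1]]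
  211070798527997 [71, 95, 95, 143, 119, 203, 203] 1499574294926 :=
  cut4 0 3 1 1 1 _ [[2, 1, 1, 1, 1, 0, 0], [1, 1, 0, 0, 0, 0, 0], [1, 1, 1, 0, 1, 1, 1], [1, 1,
  1, 1, 0, 0, 0], [2, 2, 2, 1, 3, 1, 1], [1, 1, 1, 1, 1, 1, 0], [1, 1, 1, 1, 2, 1, 1]] [[1, 0, 0,
  0, 1, 0, 0], [1, 1, 0, 0, 0, 0, 0], [1, 1, 1, 0, 1, 1, 1], [2, 1, 1, 1, 1, 0, 0], [2, 2, 2, 1,
  3, 1, 1], [1, 1, 1, 1, 1, 1, 0], [1, 1, 1, 1, 2, 1, 1]] _ _ 2031739705428 1233491589675 _ (by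
  decide +kernel) nd466 nd473

theorem nd475 : Ok 4 Dn4 [[1, 0, 0, 0, 1, 0, 0], [1, 1, 0, 0, 0, 0, 0], [1, 1, 1, 0, 1, 1, 1],
  [1, 1, 1, 1, 0, 0, 0], [2, 2, 2, 1, 3, 1, 1], [1, 1, 1, 1, 1, 1, 0], [1, 1, 1, 1, 2, 1, 1]]
  211070798523901 [71, 95, 95, 143, 119, 203, 203] 1499574294926 :=
  dec4 0 12 0 _ _ 211070798527997 _ [71, 95, 95, 143, 119, 203, 203] _ (by decide +kernel) nd474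

theorem nd476 : Ok 4 Dn4 [[1, 0, 0, 0, 1, 0, 0], [1, 1, 0, 0, 0, 0, 0], [1, 1, 1, 0, 1, 1, 1],
  [1, 1, 1, 1, 0, 0, 0], [2, 2, 2, 1, 3, 1, 1], [1, 1, 1, 1, 1, 1, 0], [1, 1, 1, 1, 2, 1, 1]]
  211070798522877 [71, 95, 95, 143, 119, 203, 203] 1499574294926 :=
  dec4 0 10 0 _ _ 211070798523901 _ [71, 95, 95, 143, 119, 203, 203] _ (by decide +kernel) nd475

theorem nd477 : Ok 4 Dn4 [[1, 0, 0, 0, 1, 0, 0], [1, 1, 0, 0, 0, 0, 0], [1, 1, 1, 0, 1, 1, 1],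
  [1, 1, 1, 1, 0, 0, 0], [1, 1, 1, 1, 2, 0, 0], [1, 1, 1, 1, 1, 1, 0], [1, 1, 1, 1, 2, 1, 1]]
  211070798522877 [71, 95, 95, 143, 119, 203, 203] 952982033990 :=
  cut4 2 4 1 1 1 _ [[1, 0, 0, 0, 1, 0, 0], [1, 1, 0, 0, 0, 0, 0], [2, 2, 2, 1, 3, 1, 1], [1, 1,
  1, 1, 0, 0, 0], [1, 1, 1, 1, 2, 0, 0], [1, 1, 1, 1, 1, 1, 0], [1, 1, 1, 1, 2, 1, 1]] [[1, 0, 0,
  0, 1, 0, 0], [1, 1, 0, 0, 0, 0, 0], [1, 1, 1, 0, 1, 1, 1], [1, 1, 1, 1, 0, 0, 0], [2, 2, 2, 1,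
  3, 1, 1], [1, 1, 1, 1, 1, 1, 0], [1, 1, 1, 1, 2, 1, 1]] _ _ 406389773053 1499574294926 _ (by
  decide +kernel) nd461 nd476

theorem nd478 : Ok 4 Dn4 [[1, 0, 0, 0, 1, 0, 0], [1, 1, 0, 0, 0, 0, 0], [1, 1, 1, 0, 1, 1, 1],
  [1, 1, 1, 1, 0, 0, 0], [1, 1, 1, 1, 2, 0, 0], [1, 1, 1, 1, 1, 1, 0], [1, 1, 1, 1, 2, 1, 1]]
  70333310167549 [70, 94, 94, 142, 112, 196, 202] 952982033990 :=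
  dec4 2 15 1 _ _ 211070798522877 _ [71, 95, 95, 143, 119, 203, 203] _ (by decide +kernel) nd477

theorem nd479 : Ok 4 Dn4 [[1, 0, 0, 0, 1, 0, 0], [1, 1, 0, 0, 0, 0, 0], [1, 1, 1, 0, 1, 1, 1],
  [1, 1, 1, 1, 0, 0, 0], [1, 1, 1, 1, 2, 0, 0], [1, 1, 1, 1, 1, 1, 0], [1, 1, 1, 1, 2, 1, 1]]
  35148938078717 [68, 80, 92, 140, 98, 182, 200] 952982033990 :=
  dec4 2 13 1 _ _ 70333310167549 _ [70, 94, 94, 142, 112, 196, 202] _ (by decide +kernel) nd478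

theorem nd480 : Ok 4 Dn4 [[1, 0, 0, 0, 1, 0, 0], [1, 1, 0, 0, 0, 0, 0], [1, 1, 1, 0, 1, 1, 1],
  [1, 1, 1, 1, 0, 0, 0], [1, 1, 1, 1, 2, 0, 0], [1, 1, 1, 1, 1, 1, 0], [1, 1, 1, 1, 2, 1, 1]]
  26352845056509 [66, 78, 78, 138, 84, 168, 198] 952982033990 :=
  dec4 2 11 1 _ _ 35148938078717 _ [68, 80, 92, 140, 98, 182, 200] _ (by decide +kernel) nd479

theorem nd481 : Ok 4 Dn4 [[1, 0, 0, 0, 1, 0, 0], [1, 1, 0, 0, 0, 0, 0], [1, 1, 1, 0, 1, 1, 1],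
  [1, 1, 1, 1, 0, 0, 0], [1, 1, 1, 1, 2, 0, 0], [1, 1, 1, 1, 1, 1, 0], [1, 1, 1, 1, 2, 1, 1]]
  25803089242621 [64, 76, 76, 124, 70, 154, 196] 952982033990 :=
  dec4 2 7 1 _ _ 26352845056509 _ [66, 78, 78, 138, 84, 168, 198] _ (by decide +kernel) nd480

theorem nd482 : Ok 4 Dn4 [[1, 0, 0, 0, 1, 0, 0], [1, 1, 0, 0, 0, 0, 0], [1, 1, 1, 0, 1, 1, 1],
  [1, 1, 1, 1, 0, 0, 0], [1, 1, 1, 1, 2, 0, 0], [0, 0, 0, 0, 1, 1, 0], [1, 1, 1, 1, 2, 1, 1]]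
  25803089242621 [64, 76, 76, 124, 70, 154, 196] 791969768374 :=
  cut4 3 5 1 1 1 _ [[1, 0, 0, 0, 1, 0, 0], [1, 1, 0, 0, 0, 0, 0], [1, 1, 1, 0, 1, 1, 1], [1, 1,
  1, 1, 1, 1, 0], [1, 1, 1, 1, 2, 0, 0], [0, 0, 0, 0, 1, 1, 0], [1, 1, 1, 1, 2, 1, 1]] [[1, 0, 0,
  0, 1, 0, 0], [1, 1, 0, 0, 0, 0, 0], [1, 1, 1, 0, 1, 1, 1], [1, 1, 1, 1, 0, 0, 0], [1, 1, 1, 1,
  2, 0, 0], [1, 1, 1, 1, 1, 1, 0], [1, 1, 1, 1, 2, 1, 1]] _ _ 711463635565 952982033990 _ (by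
  decide +kernel) nd458 nd481

theorem nd483 : Ok 4 Dn4 [[1, 0, 0, 0, 1, 0, 0], [1, 1, 0, 0, 0, 0, 0], [1, 1, 1, 0, 1, 1, 1],
  [1, 1, 1, 1, 0, 0, 0], [1, 1, 1, 1, 2, 0, 0], [0, 0, 0, 0, 1, 1, 0], [1, 1, 1, 1, 2, 1, 1]]
  25800941758973 [63, 75, 75, 123, 63, 153, 189] 791969768374 :=
  dec4 1 15 1 _ _ 25803089242621 _ [64, 76, 76, 124, 70, 154, 196] _ (by decide +kernel) nd482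

theorem nd484 : Ok 4 Dn4 [[1, 0, 0, 0, 1, 0, 0], [1, 1, 0, 0, 0, 0, 0], [1, 1, 1, 0, 1, 1, 1],
  [1, 1, 1, 1, 0, 0, 0], [1, 1, 1, 1, 2, 0, 0], [0, 0, 0, 0, 1, 1, 0], [1, 1, 1, 1, 2, 1, 1]]
  25800404888061 [61, 61, 73, 121, 49, 151, 175] 791969768374 :=
  dec4 1 13 1 _ _ 25800941758973 _ [63, 75, 75, 123, 63, 153, 189] _ (by decide +kernel) nd483

theorem nd485 : Ok 4 Dn4 [[1, 0, 0, 0, 1, 0, 0], [1, 1, 0, 0, 0, 0, 0], [1, 1, 1, 0, 1, 1, 1],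
  [1, 1, 1, 1, 0, 0, 0], [1, 1, 1, 1, 2, 0, 0], [0, 0, 0, 0, 1, 1, 0], [1, 1, 1, 1, 2, 1, 1]]
  25800270670333 [59, 59, 59, 119, 35, 149, 161] 791969768374 :=
  dec4 1 11 1 _ _ 25800404888061 _ [61, 61, 73, 121, 49, 151, 175] _ (by decide +kernel) nd484

theorem nd486 : Ok 4 Dn4 [[1, 0, 0, 0, 1, 0, 0], [1, 1, 0, 0, 0, 0, 0], [1, 1, 1, 0, 1, 1, 1],
  [1, 1, 1, 1, 0, 0, 0], [1, 1, 1, 1, 2, 0, 0], [0, 0, 0, 0, 1, 1, 0], [1, 1, 1, 1, 2, 1, 1]]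
  25800262281725 [57, 57, 57, 105, 21, 147, 147] 791969768374 :=
  dec4 1 7 1 _ _ 25800270670333 _ [59, 59, 59, 119, 35, 149, 161] _ (by decide +kernel) nd485

end Pool.Agent.Work.MP_122e00_nt.Sharp.Cx

end

section

set_option autoImplicit false

set_option maxRecDepth 100000

/-!
# The certificate: data
-/

namespace Pool.Agent.Work.MP_122e00_nt.Sharp.Cx

theorem ok235 : Ok 4 Dn4 [[1, 0, 0, 0, 1, 0, 0], [1, 1, 0, 0, 2, 0, 0], [1, 1, 1, 0, 1, 0, 0],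
  [2, 2, 2, 1, 3, 1, 1], [1, 1, 1, 0, 3, 1, 1], [0, 0, 0, 0, 1, 1, 0], [1, 1, 1, 0, 1, 1, 1]]
  140187732535801 [60, 60, 60, 120, 42, 150, 168] 140197695838 :=
  run4 tr235 _ _ _ _ dt235

theorem ok236 : Ok 4 Dn4 [[1, 0, 0, 0, 1, 0, 0], [1, 1, 0, 0, 2, 0, 0], [1, 1, 1, 0, 2, 1, 0],
  [2, 2, 2, 1, 5, 1, 1], [1, 1, 1, 0, 3, 1, 1], [0, 0, 0, 0, 1, 1, 0], [2, 2, 2, 1, 3, 1, 1]]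
  140187732541433 [120, 120, 120, 132, 54, 234, 252] 29831047278 :=
  run4 tr236 _ _ _ _ dt236

theorem ok237 : Ok 4 Dn4 [[1, 0, 0, 0, 1, 0, 0], [3, 3, 2, 1, 6, 2, 1], [1, 1, 1, 0, 2, 1, 0],
  [1, 1, 1, 1, 3, 1, 0], [2, 2, 2, 1, 5, 1, 1], [0, 0, 0, 0, 1, 1, 0], [2, 2, 2, 1, 3, 1, 1]]
  140187732541437 [120, 120, 120, 132, 54, 234, 252] 218680483255 :=
  run4 tr237 _ _ _ _ dt237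

theorem ok238 : Ok 4 Dn4 [[1, 0, 0, 0, 1, 0, 0], [3, 3, 2, 1, 5, 1, 1], [1, 1, 1, 0, 2, 1, 0],
  [1, 1, 1, 1, 3, 1, 0], [2, 2, 2, 1, 5, 1, 1], [3, 3, 2, 1, 6, 2, 1], [2, 2, 2, 1, 3, 1, 1]]
  140187732541437 [120, 120, 120, 132, 54, 234, 252] 405044668669 :=
  run4 tr238 _ _ _ _ dt238

theorem ok239 : Ok 4 Dn4 [[1, 0, 0, 0, 1, 0, 0], [1, 1, 0, 0, 2, 0, 0], [1, 1, 1, 0, 2, 1, 0],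
  [1, 1, 1, 1, 3, 1, 0], [2, 2, 2, 1, 5, 1, 1], [0, 0, 0, 0, 1, 1, 0], [3, 3, 2, 1, 5, 1, 1]]
  140187732541433 [120, 120, 120, 132, 54, 234, 252] 12604902098 :=
  run4 tr239 _ _ _ _ dt239

theorem ok240 : Ok 4 Dn4 [[1, 0, 0, 0, 1, 0, 0], [1, 1, 0, 0, 2, 0, 0], [1, 1, 1, 0, 2, 1, 0],
  [1, 1, 1, 1, 2, 0, 0], [2, 2, 2, 1, 5, 1, 1], [1, 1, 1, 1, 3, 1, 0], [2, 2, 2, 1, 3, 1, 1]]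
  140187732541433 [120, 120, 120, 132, 54, 234, 252] 186507143446 :=
  run4 tr240 _ _ _ _ dt240

theorem ok241 : Ok 4 Dn4 [[1, 0, 0, 0, 1, 0, 0], [1, 1, 0, 0, 2, 0, 0], [1, 1, 1, 0, 1, 0, 0],
  [1, 1, 1, 1, 2, 0, 0], [1, 1, 1, 0, 3, 1, 1], [1, 1, 1, 0, 2, 1, 0], [2, 2, 2, 1, 3, 1, 1]]
  140187732541433 [120, 120, 120, 132, 54, 234, 252] 96868265752 :=
  run4 tr241 _ _ _ _ dt241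

theorem ok242 : Ok 4 Dn4 [[1, 0, 0, 0, 1, 0, 0], [1, 1, 0, 0, 2, 0, 0], [1, 1, 1, 0, 1, 0, 0],
  [1, 1, 1, 1, 2, 0, 0], [0, 0, 0, 0, 1, 0, 0], [0, 0, 0, 0, 1, 1, 0], [1, 1, 1, 0, 3, 1, 1]]
  140185576663272 [57, 57, 57, 105, 21, 147, 147] 15375193137 :=
  run4 tr242 _ _ _ _ dt242

theorem ok243 : Ok 4 Dn4 [[1, 0, 0, 0, 1, 0, 0], [1, 1, 0, 0, 1, 1, 0], [1, 1, 1, 0, 1, 0, 0],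
  [2, 2, 2, 1, 3, 1, 1], [2, 2, 1, 0, 3, 1, 1], [0, 0, 0, 0, 1, 1, 0], [1, 1, 1, 0, 1, 1, 1]]
  140187732015609 [62, 62, 74, 122, 56, 152, 182] 176053420053 :=
  run4 tr243 _ _ _ _ dt243

theorem ok244 : Ok 4 Dn4 [[1, 0, 0, 0, 1, 0, 0], [1, 1, 0, 0, 1, 1, 0], [1, 1, 1, 0, 1, 0, 0],
  [2, 2, 2, 1, 3, 1, 1], [1, 1, 0, 0, 2, 0, 0], [0, 0, 0, 0, 1, 1, 0], [2, 2, 1, 0, 3, 1, 1]]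
  140187732015609 [62, 62, 74, 122, 56, 152, 182] 30475098730 :=
  run4 tr244 _ _ _ _ dt244

theorem ok245 : Ok 4 Dn4 [[1, 0, 0, 0, 1, 0, 0], [2, 2, 1, 1, 3, 1, 0], [1, 1, 1, 0, 2, 1, 0],
  [1, 1, 1, 1, 3, 1, 0], [3, 3, 2, 1, 5, 1, 1], [0, 0, 0, 0, 1, 1, 0], [2, 2, 2, 1, 3, 1, 1]]
  140187732541433 [122, 122, 134, 134, 68, 236, 266] 178437460020 :=
  run4 tr245 _ _ _ _ dt245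

theorem ok246 : Ok 4 Dn4 [[1, 0, 0, 0, 1, 0, 0], [2, 2, 1, 1, 3, 1, 0], [1, 1, 1, 0, 2, 1, 0],
  [1, 1, 1, 1, 3, 1, 0], [1, 1, 0, 0, 2, 0, 0], [0, 0, 0, 0, 1, 1, 0], [3, 3, 2, 1, 5, 1, 1]]
  140187732541433 [122, 122, 134, 134, 68, 236, 266] 5737555117 :=
  run4 tr246 _ _ _ _ dt246

theorem ok247 : Ok 4 Dn4 [[1, 0, 0, 0, 1, 0, 0], [2, 2, 1, 1, 3, 1, 0], [1, 1, 1, 0, 2, 1, 0],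
  [1, 1, 1, 1, 2, 0, 0], [1, 1, 0, 0, 2, 0, 0], [1, 1, 1, 1, 3, 1, 0], [2, 2, 2, 1, 3, 1, 1]]
  140187732541433 [122, 122, 134, 134, 68, 236, 266] 126353041668 :=
  run4 tr247 _ _ _ _ dt247

theorem ok248 : Ok 4 Dn4 [[1, 0, 0, 0, 1, 0, 0], [2, 2, 1, 1, 3, 1, 0], [1, 1, 1, 0, 1, 0, 0],
  [1, 1, 1, 1, 2, 0, 0], [1, 1, 0, 0, 2, 0, 0], [1, 1, 1, 0, 2, 1, 0], [2, 2, 2, 1, 3, 1, 1]]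
  140187732541433 [122, 122, 134, 134, 68, 236, 266] 88291276056 :=
  run4 tr248 _ _ _ _ dt248

theorem ok249 : Ok 4 Dn4 [[1, 0, 0, 0, 1, 0, 0], [1, 1, 0, 0, 1, 1, 0], [1, 1, 1, 0, 2, 1, 0],
  [2, 2, 1, 1, 3, 1, 0], [3, 3, 2, 1, 6, 2, 1], [2, 2, 2, 1, 4, 2, 1], [2, 2, 2, 1, 3, 1, 1]]
  140187732017149 [94, 94, 130, 130, 64, 208, 238] 310755084026 :=
  run4 tr249 _ _ _ _ dt249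

theorem ok250 : Ok 4 Dn4 [[1, 0, 0, 0, 1, 0, 0], [4, 4, 2, 1, 7, 3, 1], [1, 1, 1, 0, 2, 1, 0],
  [2, 2, 1, 1, 4, 2, 0], [3, 3, 2, 1, 6, 2, 1], [0, 0, 0, 0, 1, 1, 0], [2, 2, 2, 1, 4, 2, 1]]
  140737487831037 [94, 94, 130, 130, 64, 208, 238] 154504754234 :=
  run4 tr250 _ _ _ _ dt250

theorem ok251 : Ok 4 Dn4 [[1, 0, 0, 0, 1, 0, 0], [1, 1, 0, 0, 1, 1, 0], [1, 1, 1, 0, 2, 1, 0],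
  [2, 2, 1, 1, 4, 2, 0], [4, 4, 2, 1, 7, 3, 1], [0, 0, 0, 0, 1, 1, 0], [2, 2, 2, 1, 4, 2, 1]]
  140737487831037 [94, 94, 130, 130, 64, 208, 238] 68191138727 :=
  run4 tr251 _ _ _ _ dt251

theorem ok252 : Ok 4 Dn4 [[1, 0, 0, 0, 1, 0, 0], [1, 1, 0, 0, 1, 1, 0], [1, 1, 1, 0, 2, 1, 0],
  [2, 2, 1, 1, 3, 1, 0], [3, 3, 2, 1, 6, 2, 1], [2, 2, 1, 1, 4, 2, 0], [2, 2, 2, 1, 4, 2, 1]]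
  140737487831037 [94, 94, 130, 130, 64, 208, 238] 243236115827 :=
  run4 tr252 _ _ _ _ dt252

theorem ok253 : Ok 4 Dn4 [[1, 0, 0, 0, 1, 0, 0], [1, 1, 0, 0, 1, 1, 0], [1, 1, 1, 0, 2, 1, 0],
  [2, 2, 1, 1, 3, 1, 0], [3, 3, 2, 1, 5, 1, 1], [3, 3, 2, 1, 6, 2, 1], [2, 2, 2, 1, 3, 1, 1]]
  140187732017149 [94, 94, 130, 130, 64, 208, 238] 280019378896 :=
  run4 tr253 _ _ _ _ dt253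

theorem ok254 : Ok 4 Dn4 [[1, 0, 0, 0, 1, 0, 0], [1, 1, 0, 0, 1, 1, 0], [1, 1, 1, 0, 2, 1, 0],
  [2, 2, 1, 1, 3, 1, 0], [1, 1, 0, 0, 2, 0, 0], [0, 0, 0, 0, 1, 1, 0], [3, 3, 2, 1, 5, 1, 1]]
  140187732017145 [94, 94, 130, 130, 64, 208, 238] 6542181240 :=
  run4 tr254 _ _ _ _ dt254

theorem ok255 : Ok 4 Dn4 [[1, 0, 0, 0, 1, 0, 0], [1, 1, 0, 0, 1, 1, 0], [1, 1, 1, 0, 1, 0, 0],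
  [2, 2, 1, 1, 3, 1, 0], [1, 1, 0, 0, 2, 0, 0], [1, 1, 1, 0, 2, 1, 0], [2, 2, 2, 1, 3, 1, 1]]
  140187732017145 [94, 94, 130, 130, 64, 208, 238] 78105921667 :=
  run4 tr255 _ _ _ _ dt255

theorem ok256 : Ok 4 Dn4 [[1, 0, 0, 0, 1, 0, 0], [1, 1, 0, 0, 0, 0, 0], [1, 1, 1, 0, 1, 0, 0],
  [2, 2, 2, 1, 3, 1, 1], [1, 1, 0, 0, 2, 0, 0], [1, 1, 0, 0, 1, 1, 0], [1, 1, 1, 0, 1, 1, 1]]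
  281440616442361 [67, 67, 91, 139, 91, 187, 187] 145325631628 :=
  run4 tr256 _ _ _ _ dt256

theorem ok257 : Ok 4 Dn4 [[3, 2, 2, 1, 4, 1, 1], [2, 2, 1, 1, 2, 0, 0], [1, 1, 1, 0, 1, 0, 0],
  [2, 2, 1, 1, 3, 1, 0], [3, 3, 2, 1, 5, 1, 1], [1, 1, 0, 0, 1, 1, 0], [2, 2, 2, 1, 3, 1, 1]]
  281474976186365 [99, 99, 147, 147, 99, 243, 243] 1421552144355 :=
  run4 tr257 _ _ _ _ dt257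

theorem ok258 : Ok 4 Dn4 [[1, 0, 0, 0, 1, 0, 0], [2, 2, 1, 1, 2, 0, 0], [1, 1, 1, 0, 1, 0, 0],
  [2, 2, 1, 1, 3, 1, 0], [3, 3, 2, 1, 5, 1, 1], [1, 1, 0, 0, 1, 1, 0], [3, 2, 2, 1, 4, 1, 1]]
  281474976186365 [99, 99, 147, 147, 99, 243, 243] 196084592391 :=
  run4 tr258 _ _ _ _ dt258

theorem ok259 : Ok 4 Dn4 [[1, 0, 0, 0, 1, 0, 0], [2, 2, 1, 1, 2, 0, 0], [1, 1, 1, 0, 1, 0, 0],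
  [2, 2, 1, 1, 3, 1, 0], [1, 1, 0, 0, 2, 0, 0], [1, 1, 0, 0, 1, 1, 0], [3, 3, 2, 1, 5, 1, 1]]
  281474976186361 [99, 99, 147, 147, 99, 243, 243] 15139454934 :=
  run4 tr259 _ _ _ _ dt259

theorem ok260 : Ok 4 Dn4 [[1, 0, 0, 0, 1, 0, 0], [2, 2, 1, 1, 2, 0, 0], [1, 1, 1, 0, 1, 0, 0],
  [1, 1, 1, 1, 2, 0, 0], [1, 1, 0, 0, 2, 0, 0], [2, 2, 1, 1, 3, 1, 0], [2, 2, 2, 1, 3, 1, 1]]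
  281474976182265 [99, 99, 147, 147, 99, 243, 243] 85770937561 :=
  run4 tr260 _ _ _ _ dt260

theorem ok261 : Ok 4 Dn4 [[3, 2, 2, 1, 4, 1, 1], [4, 4, 2, 1, 5, 1, 1], [1, 1, 1, 0, 1, 0, 0],
  [2, 2, 1, 1, 2, 0, 0], [3, 3, 2, 1, 5, 1, 1], [1, 1, 0, 0, 1, 1, 0], [2, 2, 2, 1, 3, 1, 1]]
  281474976186365 [99, 99, 147, 147, 99, 243, 243] 1328909485269 :=
  run4 tr261 _ _ _ _ dt261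

theorem ok262 : Ok 4 Dn4 [[1, 0, 0, 0, 1, 0, 0], [4, 4, 2, 1, 5, 1, 1], [1, 1, 1, 0, 1, 0, 0],
  [2, 2, 1, 1, 2, 0, 0], [3, 3, 2, 1, 5, 1, 1], [1, 1, 0, 0, 1, 1, 0], [3, 2, 2, 1, 4, 1, 1]]
  281474976186365 [99, 99, 147, 147, 99, 243, 243] 184146074876 :=
  run4 tr262 _ _ _ _ dt262

theorem ok263 : Ok 4 Dn4 [[1, 0, 0, 0, 1, 0, 0], [1, 1, 0, 0, 0, 0, 0], [1, 1, 1, 0, 1, 0, 0],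
  [2, 2, 1, 1, 2, 0, 0], [4, 4, 2, 1, 5, 1, 1], [1, 1, 0, 0, 1, 1, 0], [2, 2, 2, 1, 3, 1, 1]]
  281440616447997 [99, 99, 147, 147, 99, 243, 243] 176384420578 :=
  run4 tr263 _ _ _ _ dt263

theorem ok264 : Ok 4 Dn4 [[1, 0, 0, 0, 1, 0, 0], [1, 1, 0, 0, 0, 0, 0], [1, 1, 1, 0, 1, 0, 0],
  [2, 2, 1, 1, 2, 0, 0], [1, 1, 0, 0, 2, 0, 0], [1, 1, 0, 0, 1, 1, 0], [3, 3, 2, 1, 5, 1, 1]]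
  281440616447993 [99, 99, 147, 147, 99, 243, 243] 37979648206 :=
  run4 tr264 _ _ _ _ dt264

theorem ok265 : Ok 4 Dn4 [[3, 2, 2, 1, 3, 2, 1], [1, 1, 0, 0, 1, 1, 0], [1, 1, 1, 0, 2, 1, 0],
  [1, 1, 1, 1, 1, 1, 0], [2, 2, 2, 1, 4, 2, 1], [0, 0, 0, 0, 1, 1, 0], [1, 1, 1, 0, 1, 1, 1]]
  140187732016639 [78, 78, 78, 126, 84, 156, 210] 706256432013 :=
  run4 tr265 _ _ _ _ dt265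

theorem ok266 : Ok 4 Dn4 [[2, 1, 1, 1, 2, 1, 0], [1, 1, 0, 0, 1, 1, 0], [1, 1, 1, 0, 2, 1, 0],
  [1, 1, 1, 1, 1, 1, 0], [2, 2, 2, 1, 4, 2, 1], [0, 0, 0, 0, 1, 1, 0], [3, 2, 2, 1, 3, 2, 1]]
  140187732016639 [78, 78, 78, 126, 84, 156, 210] 719588405820 :=
  run4 tr266 _ _ _ _ dt266

theorem ok267 : Ok 4 Dn4 [[2, 1, 1, 1, 2, 1, 0], [1, 1, 0, 0, 1, 1, 0], [1, 1, 1, 0, 2, 1, 0],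
  [1, 1, 1, 1, 1, 1, 0], [2, 2, 2, 1, 3, 1, 1], [2, 2, 2, 1, 4, 2, 1], [1, 1, 1, 0, 1, 1, 1]]
  140187732016639 [78, 78, 78, 126, 84, 156, 210] 1634462550436 :=
  run4 tr267 _ _ _ _ dt267

theorem ok268 : Ok 4 Dn4 [[1, 0, 0, 0, 1, 0, 0], [1, 1, 0, 0, 1, 1, 0], [1, 1, 1, 0, 2, 1, 0],
  [3, 2, 2, 1, 3, 2, 1], [2, 2, 2, 1, 3, 1, 1], [0, 0, 0, 0, 1, 1, 0], [1, 1, 1, 0, 1, 1, 1]]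
  140187732016637 [64, 76, 76, 124, 70, 154, 196] 169460017037 :=
  run4 tr268 _ _ _ _ dt268

theorem ok269 : Ok 4 Dn4 [[1, 0, 0, 0, 1, 0, 0], [1, 1, 0, 0, 1, 1, 0], [1, 1, 1, 0, 2, 1, 0],
  [2, 1, 1, 1, 2, 1, 0], [2, 2, 2, 1, 3, 1, 1], [3, 2, 2, 1, 4, 3, 1], [3, 2, 2, 1, 3, 2, 1]]
  140187732017149 [68, 104, 104, 128, 74, 182, 224] 512739540095 :=
  run4 tr269 _ _ _ _ dt269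

theorem ok270 : Ok 4 Dn4 [[4, 2, 2, 1, 5, 3, 1], [1, 1, 0, 0, 1, 1, 0], [1, 1, 1, 0, 2, 1, 0],
  [2, 1, 1, 1, 3, 2, 0], [2, 2, 2, 1, 4, 2, 1], [0, 0, 0, 0, 1, 1, 0], [3, 2, 2, 1, 4, 3, 1]]
  140737487831037 [68, 104, 104, 128, 74, 182, 224] 321004880526 :=
  run4 tr270 _ _ _ _ dt270

theorem ok271 : Ok 4 Dn4 [[1, 0, 0, 0, 1, 0, 0], [1, 1, 0, 0, 1, 1, 0], [1, 1, 1, 0, 2, 1, 0],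
  [2, 1, 1, 1, 3, 2, 0], [2, 2, 2, 1, 4, 2, 1], [0, 0, 0, 0, 1, 1, 0], [4, 2, 2, 1, 5, 3, 1]]
  140737487831037 [68, 104, 104, 128, 74, 182, 224] 112943961484 :=
  run4 tr271 _ _ _ _ dt271

theorem ok272 : Ok 4 Dn4 [[1, 0, 0, 0, 1, 0, 0], [1, 1, 0, 0, 1, 1, 0], [1, 1, 1, 0, 2, 1, 0],
  [2, 1, 1, 1, 2, 1, 0], [2, 2, 2, 1, 4, 2, 1], [2, 1, 1, 1, 3, 2, 0], [3, 2, 2, 1, 4, 3, 1]]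
  140737487831037 [68, 104, 104, 128, 74, 182, 224] 446494646721 :=
  run4 tr272 _ _ _ _ dt272

theorem ok273 : Ok 4 Dn4 [[1, 0, 0, 0, 1, 0, 0], [1, 1, 0, 0, 1, 1, 0], [1, 1, 1, 0, 2, 1, 0],
  [2, 1, 1, 1, 2, 1, 0], [2, 2, 2, 1, 3, 1, 1], [2, 2, 2, 1, 4, 2, 1], [3, 2, 2, 1, 4, 3, 1]]
  140187732017149 [68, 104, 104, 128, 74, 182, 224] 533926658174 :=
  run4 tr273 _ _ _ _ dt273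

theorem ok274 : Ok 4 Dn4 [[1, 0, 0, 0, 1, 0, 0], [1, 1, 0, 0, 1, 1, 0], [1, 1, 1, 0, 1, 0, 0],
  [1, 1, 1, 1, 1, 1, 0], [2, 2, 2, 1, 3, 1, 1], [1, 1, 1, 0, 2, 1, 0], [1, 1, 1, 0, 1, 1, 1]]
  140186658274813 [64, 76, 76, 124, 70, 154, 196] 693935329507 :=
  run4 tr274 _ _ _ _ dt274

theorem ok275 : Ok 4 Dn4 [[1, 0, 0, 0, 1, 0, 0], [2, 2, 1, 1, 3, 1, 0], [1, 1, 1, 0, 2, 1, 0],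
  [1, 1, 1, 1, 1, 1, 0], [1, 1, 1, 1, 3, 1, 0], [0, 0, 0, 0, 1, 1, 0], [2, 2, 2, 1, 3, 1, 1]]
  140186658799613 [124, 136, 136, 136, 82, 238, 280] 249305989070 :=
  run4 tr275 _ _ _ _ dt275

theorem ok276 : Ok 4 Dn4 [[1, 0, 0, 0, 1, 0, 0], [2, 2, 1, 1, 3, 1, 0], [1, 1, 1, 0, 2, 1, 0],
  [1, 1, 1, 1, 1, 1, 0], [1, 1, 1, 1, 2, 0, 0], [1, 1, 1, 1, 3, 1, 0], [2, 2, 2, 1, 3, 1, 1]]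
  140186658799613 [124, 136, 136, 136, 82, 238, 280] 593600206089 :=
  run4 tr276 _ _ _ _ dt276

theorem ok277 : Ok 4 Dn4 [[1, 0, 0, 0, 1, 0, 0], [2, 2, 1, 1, 3, 1, 0], [1, 1, 1, 0, 1, 0, 0],
  [1, 1, 1, 1, 1, 1, 0], [1, 1, 1, 1, 2, 0, 0], [1, 1, 1, 0, 2, 1, 0], [2, 2, 2, 1, 3, 1, 1]]
  140186658799613 [124, 136, 136, 136, 82, 238, 280] 379983698402 :=
  run4 tr277 _ _ _ _ dt277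

theorem ok278 : Ok 4 Dn4 [[2, 1, 1, 1, 2, 1, 0], [1, 1, 0, 0, 1, 1, 0], [1, 1, 1, 0, 2, 1, 0],
  [1, 1, 1, 1, 1, 1, 0], [2, 2, 1, 1, 3, 1, 0], [0, 0, 0, 0, 1, 1, 0], [2, 2, 2, 1, 3, 1, 1]]
  140186658275325 [96, 108, 132, 132, 78, 210, 252] 455483338947 :=
  run4 tr278 _ _ _ _ dt278

theorem ok279 : Ok 4 Dn4 [[1, 0, 0, 0, 1, 0, 0], [1, 1, 0, 0, 1, 1, 0], [1, 1, 1, 0, 2, 1, 0],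
  [2, 1, 1, 1, 2, 1, 0], [2, 2, 1, 1, 3, 1, 0], [2, 2, 2, 1, 4, 2, 1], [2, 2, 2, 1, 3, 1, 1]]
  140187732017149 [96, 108, 132, 132, 78, 210, 252] 271601972591 :=
  run4 tr279 _ _ _ _ dt279

theorem ok280 : Ok 4 Dn4 [[1, 0, 0, 0, 1, 0, 0], [1, 1, 0, 0, 1, 1, 0], [1, 1, 1, 0, 2, 1, 0],
  [2, 1, 1, 1, 3, 2, 0], [2, 2, 1, 1, 3, 1, 0], [0, 0, 0, 0, 1, 1, 0], [2, 2, 2, 1, 4, 2, 1]]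
  140737487831037 [96, 108, 132, 132, 78, 210, 252] 68385438433 :=
  run4 tr280 _ _ _ _ dt280

theorem ok281 : Ok 4 Dn4 [[1, 0, 0, 0, 1, 0, 0], [1, 1, 0, 0, 1, 1, 0], [1, 1, 1, 0, 2, 1, 0],
  [2, 1, 1, 1, 2, 1, 0], [2, 2, 1, 1, 3, 1, 0], [2, 1, 1, 1, 3, 2, 0], [2, 2, 2, 1, 4, 2, 1]]
  140737487831037 [96, 108, 132, 132, 78, 210, 252] 209172186419 :=
  run4 tr281 _ _ _ _ dt281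

theorem ok282 : Ok 4 Dn4 [[1, 0, 0, 0, 1, 0, 0], [1, 1, 0, 0, 1, 1, 0], [1, 1, 1, 0, 1, 0, 0],
  [1, 1, 1, 1, 1, 1, 0], [2, 2, 1, 1, 3, 1, 0], [1, 1, 1, 0, 2, 1, 0], [2, 2, 2, 1, 3, 1, 1]]
  140186658275325 [96, 108, 132, 132, 78, 210, 252] 312481350842 :=
  run4 tr282 _ _ _ _ dt282

theorem ok283 : Ok 4 Dn4 [[2, 1, 1, 0, 2, 1, 1], [1, 1, 0, 0, 0, 0, 0], [1, 1, 1, 0, 1, 0, 0],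
  [1, 1, 1, 1, 1, 1, 0], [2, 2, 2, 1, 3, 1, 1], [1, 1, 0, 0, 1, 1, 0], [1, 1, 1, 0, 1, 1, 1]]
  281439542705661 [69, 81, 93, 141, 105, 189, 201] 1128138266199 :=
  run4 tr283 _ _ _ _ dt283

theorem ok284 : Ok 4 Dn4 [[1, 0, 0, 0, 1, 0, 0], [3, 3, 2, 1, 3, 1, 1], [1, 1, 1, 0, 1, 0, 0],
  [1, 1, 1, 1, 1, 1, 0], [2, 2, 2, 1, 3, 1, 1], [1, 1, 0, 0, 1, 1, 0], [2, 1, 1, 0, 2, 1, 1]]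
  281439542706173 [73, 109, 121, 145, 109, 217, 229] 625287593961 :=
  run4 tr284 _ _ _ _ dt284

theorem ok285 : Ok 4 Dn4 [[1, 0, 0, 0, 1, 0, 0], [1, 1, 0, 0, 0, 0, 0], [1, 1, 1, 0, 1, 0, 0],
  [1, 1, 1, 1, 1, 1, 0], [3, 3, 2, 1, 3, 1, 1], [1, 1, 0, 0, 1, 1, 0], [2, 1, 1, 0, 2, 1, 1]]
  281439542706173 [73, 109, 121, 145, 109, 217, 229] 356992228693 :=
  run4 tr285 _ _ _ _ dt285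

theorem ok286 : Ok 4 Dn4 [[1, 0, 0, 0, 1, 0, 0], [2, 2, 1, 1, 2, 0, 0], [1, 1, 1, 0, 1, 0, 0],
  [1, 1, 1, 1, 1, 1, 0], [1, 1, 1, 1, 2, 0, 0], [1, 1, 0, 0, 1, 1, 0], [2, 2, 2, 1, 3, 1, 1]]
  281439542702077 [101, 113, 149, 149, 113, 245, 257] 336446835039 :=
  run4 tr286 _ _ _ _ dt286

theorem ok287 : Ok 4 Dn4 [[2, 1, 1, 1, 2, 1, 0], [1, 1, 0, 0, 0, 0, 0], [1, 1, 1, 0, 1, 0, 0],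
  [1, 1, 1, 1, 1, 1, 0], [2, 2, 1, 1, 2, 0, 0], [1, 1, 0, 0, 1, 1, 0], [2, 2, 2, 1, 3, 1, 1]]
  281439542706173 [101, 113, 149, 149, 113, 245, 257] 475763190137 :=
  run4 tr287 _ _ _ _ dt287

theorem ok288 : Ok 4 Dn4 [[1, 0, 0, 0, 1, 0, 0], [3, 3, 2, 1, 3, 1, 1], [1, 1, 1, 0, 1, 0, 0],
  [2, 1, 1, 1, 2, 1, 0], [2, 2, 1, 1, 2, 0, 0], [1, 1, 0, 0, 1, 1, 0], [2, 2, 2, 1, 3, 1, 1]]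
  281440616447997 [101, 113, 149, 149, 113, 245, 257] 302321241033 :=
  run4 tr288 _ _ _ _ dt288

theorem ok289 : Ok 4 Dn4 [[1, 0, 0, 0, 1, 0, 0], [1, 1, 0, 0, 0, 0, 0], [1, 1, 1, 0, 1, 0, 0],
  [2, 1, 1, 1, 2, 1, 0], [2, 2, 1, 1, 2, 0, 0], [1, 1, 0, 0, 1, 1, 0], [3, 3, 2, 1, 3, 1, 1]]
  281440616447997 [101, 113, 149, 149, 113, 245, 257] 92897192037 :=
  run4 tr289 _ _ _ _ dt289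

theorem ok290 : Ok 4 Dn4 [[2, 1, 1, 1, 1, 0, 0], [1, 1, 0, 0, 0, 0, 0], [1, 1, 1, 0, 1, 0, 0],
  [2, 2, 2, 1, 1, 1, 1], [2, 2, 2, 1, 3, 1, 1], [1, 1, 1, 1, 1, 1, 0], [1, 1, 1, 0, 1, 1, 1]]
  281440616447487 [99, 99, 99, 147, 147, 219, 219] 1285234491896 :=
  run4 tr290 _ _ _ _ dt290

theorem ok291 : Ok 4 Dn4 [[2, 1, 1, 1, 1, 0, 0], [1, 1, 0, 0, 0, 0, 0], [1, 1, 1, 0, 1, 0, 0],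
  [1, 1, 1, 1, 0, 0, 0], [2, 2, 2, 1, 3, 1, 1], [1, 1, 1, 1, 1, 1, 0], [2, 2, 2, 1, 1, 1, 1]]
  281440616447487 [99, 99, 99, 147, 147, 219, 219] 1735267605044 :=
  run4 tr291 _ _ _ _ dt291

theorem ok292 : Ok 4 Dn4 [[2, 1, 1, 0, 2, 1, 1], [1, 1, 0, 0, 0, 0, 0], [1, 1, 1, 0, 1, 0, 0],
  [3, 2, 2, 1, 2, 1, 1], [2, 2, 2, 1, 3, 1, 1], [1, 1, 1, 1, 1, 1, 0], [1, 1, 1, 0, 1, 1, 1]]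
  281439542705661 [71, 95, 95, 143, 119, 203, 203] 1370087770256 :=
  run4 tr292 _ _ _ _ dt292

theorem ok293 : Ok 4 Dn4 [[2, 1, 1, 1, 2, 1, 0], [1, 1, 0, 0, 0, 0, 0], [1, 1, 1, 0, 1, 0, 0],
  [3, 2, 2, 1, 2, 1, 1], [2, 2, 2, 1, 3, 1, 1], [1, 1, 1, 1, 1, 1, 0], [2, 1, 1, 0, 2, 1, 1]]
  281439542706173 [75, 123, 123, 147, 123, 231, 231] 1016155134143 :=
  run4 tr293 _ _ _ _ dt293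

theorem ok294 : Ok 4 Dn4 [[1, 0, 0, 0, 1, 0, 0], [1, 1, 0, 0, 0, 0, 0], [1, 1, 1, 0, 1, 0, 0],
  [3, 2, 2, 1, 2, 1, 1], [2, 2, 2, 1, 3, 1, 1], [2, 1, 1, 1, 2, 1, 0], [2, 1, 1, 0, 2, 1, 1]]
  281439542706173 [75, 123, 123, 147, 123, 231, 231] 339771196588 :=
  run4 tr294 _ _ _ _ dt294

theorem ok295 : Ok 4 Dn4 [[1, 0, 0, 0, 1, 0, 0], [1, 1, 0, 0, 0, 0, 0], [1, 1, 1, 0, 1, 0, 0],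
  [2, 1, 1, 1, 1, 0, 0], [2, 2, 2, 1, 3, 1, 1], [1, 1, 1, 1, 1, 1, 0], [3, 2, 2, 1, 2, 1, 1]]
  281439542705661 [71, 95, 95, 143, 119, 203, 203] 805365696429 :=
  run4 tr295 _ _ _ _ dt295

theorem ok296 : Ok 4 Dn4 [[2, 1, 1, 1, 1, 0, 0], [1, 1, 0, 0, 0, 0, 0], [1, 1, 1, 0, 1, 0, 0],
  [1, 1, 1, 1, 0, 0, 0], [1, 1, 1, 1, 2, 0, 0], [1, 1, 1, 1, 1, 1, 0], [2, 2, 2, 1, 3, 1, 1]]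
  211070798524413 [103, 127, 151, 151, 127, 259, 259] 326352713252 :=
  run4 tr296 _ _ _ _ dt296

theorem ok297 : Ok 4 Dn4 [[1, 0, 0, 0, 1, 0, 0], [1, 1, 0, 0, 0, 0, 0], [1, 1, 1, 0, 1, 0, 0],
  [2, 1, 1, 1, 1, 0, 0], [1, 1, 1, 1, 2, 0, 0], [1, 1, 1, 1, 1, 1, 0], [2, 2, 2, 1, 3, 1, 1]]
  211070798524413 [103, 127, 151, 151, 127, 259, 259] 237071566165 :=
  run4 tr297 _ _ _ _ dt297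

theorem nd487 : Ok 4 Dn4 [[1, 0, 0, 0, 1, 0, 0], [3, 3, 2, 1, 5, 1, 1], [1, 1, 1, 0, 2, 1, 0],
  [1, 1, 1, 1, 3, 1, 0], [2, 2, 2, 1, 5, 1, 1], [0, 0, 0, 0, 1, 1, 0], [2, 2, 2, 1, 3, 1, 1]]
  140187732541437 [120, 120, 120, 132, 54, 234, 252] 239387614968 :=
  cut4 1 5 1 1 1 _ [[1, 0, 0, 0, 1, 0, 0], [3, 3, 2, 1, 6, 2, 1], [1, 1, 1, 0, 2, 1, 0], [1, 1,
  1, 1, 3, 1, 0], [2, 2, 2, 1, 5, 1, 1], [0, 0, 0, 0, 1, 1, 0], [2, 2, 2, 1, 3, 1, 1]] [[1, 0, 0,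
  0, 1, 0, 0], [3, 3, 2, 1, 5, 1, 1], [1, 1, 1, 0, 2, 1, 0], [1, 1, 1, 1, 3, 1, 0], [2, 2, 2, 1,
  5, 1, 1], [3, 3, 2, 1, 6, 2, 1], [2, 2, 2, 1, 3, 1, 1]] _ _ 218680483255 405044668669 _ (by
  decide +kernel) ok237 ok238

theorem nd488 : Ok 4 Dn4 [[1, 0, 0, 0, 1, 0, 0], [3, 3, 2, 1, 5, 1, 1], [1, 1, 1, 0, 2, 1, 0],
  [1, 1, 1, 1, 3, 1, 0], [2, 2, 2, 1, 5, 1, 1], [0, 0, 0, 0, 1, 1, 0], [2, 2, 2, 1, 3, 1, 1]]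
  140187732541433 [120, 120, 120, 132, 54, 234, 252] 239387614968 :=
  dec4 0 2 0 _ _ 140187732541437 _ [120, 120, 120, 132, 54, 234, 252] _ (by decide +kernel) nd487

theorem nd489 : Ok 4 Dn4 [[1, 0, 0, 0, 1, 0, 0], [1, 1, 0, 0, 2, 0, 0], [1, 1, 1, 0, 2, 1, 0],
  [1, 1, 1, 1, 3, 1, 0], [2, 2, 2, 1, 5, 1, 1], [0, 0, 0, 0, 1, 1, 0], [2, 2, 2, 1, 3, 1, 1]]
  140187732541433 [120, 120, 120, 132, 54, 234, 252] 69300580316 :=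
  cut4 1 6 1 1 1 _ [[1, 0, 0, 0, 1, 0, 0], [3, 3, 2, 1, 5, 1, 1], [1, 1, 1, 0, 2, 1, 0], [1, 1,
  1, 1, 3, 1, 0], [2, 2, 2, 1, 5, 1, 1], [0, 0, 0, 0, 1, 1, 0], [2, 2, 2, 1, 3, 1, 1]] [[1, 0, 0,
  0, 1, 0, 0], [1, 1, 0, 0, 2, 0, 0], [1, 1, 1, 0, 2, 1, 0], [1, 1, 1, 1, 3, 1, 0], [2, 2, 2, 1,
  5, 1, 1], [0, 0, 0, 0, 1, 1, 0], [3, 3, 2, 1, 5, 1, 1]] _ _ 239387614968 12604902098 _ (by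
  decide +kernel) nd488 ok239

theorem nd490 : Ok 4 Dn4 [[1, 0, 0, 0, 1, 0, 0], [1, 1, 0, 0, 2, 0, 0], [1, 1, 1, 0, 2, 1, 0],
  [1, 1, 1, 1, 2, 0, 0], [2, 2, 2, 1, 5, 1, 1], [0, 0, 0, 0, 1, 1, 0], [2, 2, 2, 1, 3, 1, 1]]
  140187732541433 [120, 120, 120, 132, 54, 234, 252] 98602221099 :=
  cut4 3 5 1 1 1 _ [[1, 0, 0, 0, 1, 0, 0], [1, 1, 0, 0, 2, 0, 0], [1, 1, 1, 0, 2, 1, 0], [1, 1,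
  1, 1, 3, 1, 0], [2, 2, 2, 1, 5, 1, 1], [0, 0, 0, 0, 1, 1, 0], [2, 2, 2, 1, 3, 1, 1]] [[1, 0, 0,
  0, 1, 0, 0], [1, 1, 0, 0, 2, 0, 0], [1, 1, 1, 0, 2, 1, 0], [1, 1, 1, 1, 2, 0, 0], [2, 2, 2, 1,
  5, 1, 1], [1, 1, 1, 1, 3, 1, 0], [2, 2, 2, 1, 3, 1, 1]] _ _ 69300580316 186507143446 _ (by
  decide +kernel) nd489 ok240

theorem nd491 : Ok 4 Dn4 [[1, 0, 0, 0, 1, 0, 0], [1, 1, 0, 0, 2, 0, 0], [1, 1, 1, 0, 2, 1, 0],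
  [1, 1, 1, 1, 2, 0, 0], [1, 1, 1, 0, 3, 1, 1], [0, 0, 0, 0, 1, 1, 0], [2, 2, 2, 1, 3, 1, 1]]
  140187732541433 [120, 120, 120, 132, 54, 234, 252] 69128860890 :=
  cut4 3 4 1 1 1 _ [[1, 0, 0, 0, 1, 0, 0], [1, 1, 0, 0, 2, 0, 0], [1, 1, 1, 0, 2, 1, 0], [2, 2,
  2, 1, 5, 1, 1], [1, 1, 1, 0, 3, 1, 1], [0, 0, 0, 0, 1, 1, 0], [2, 2, 2, 1, 3, 1, 1]] [[1, 0, 0,
  0, 1, 0, 0], [1, 1, 0, 0, 2, 0, 0], [1, 1, 1, 0, 2, 1, 0], [1, 1, 1, 1, 2, 0, 0], [2, 2, 2, 1,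
  5, 1, 1], [0, 0, 0, 0, 1, 1, 0], [2, 2, 2, 1, 3, 1, 1]] _ _ 29831047278 98602221099 _ (by
  decide +kernel) ok236 nd490

theorem nd492 : Ok 4 Dn4 [[1, 0, 0, 0, 1, 0, 0], [1, 1, 0, 0, 2, 0, 0], [1, 1, 1, 0, 1, 0, 0],
  [1, 1, 1, 1, 2, 0, 0], [1, 1, 1, 0, 3, 1, 1], [0, 0, 0, 0, 1, 1, 0], [2, 2, 2, 1, 3, 1, 1]]
  140187732541433 [120, 120, 120, 132, 54, 234, 252] 78375329178 :=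
  cut4 2 5 1 1 1 _ [[1, 0, 0, 0, 1, 0, 0], [1, 1, 0, 0, 2, 0, 0], [1, 1, 1, 0, 2, 1, 0], [1, 1,
  1, 1, 2, 0, 0], [1, 1, 1, 0, 3, 1, 1], [0, 0, 0, 0, 1, 1, 0], [2, 2, 2, 1, 3, 1, 1]] [[1, 0, 0,
  0, 1, 0, 0], [1, 1, 0, 0, 2, 0, 0], [1, 1, 1, 0, 1, 0, 0], [1, 1, 1, 1, 2, 0, 0], [1, 1, 1, 0,
  3, 1, 1], [1, 1, 1, 0, 2, 1, 0], [2, 2, 2, 1, 3, 1, 1]] _ _ 69128860890 96868265752 _ (by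
  decide +kernel) nd491 ok241

theorem nd493 : Ok 4 Dn4 [[1, 0, 0, 0, 1, 0, 0], [1, 1, 0, 0, 2, 0, 0], [1, 1, 1, 0, 1, 0, 0],
  [1, 1, 1, 1, 2, 0, 0], [1, 1, 1, 0, 3, 1, 1], [0, 0, 0, 0, 1, 1, 0], [2, 2, 2, 1, 3, 1, 1]]
  140187732537337 [92, 92, 116, 128, 50, 206, 224] 78375329178 :=
  dec4 0 12 1 _ _ 140187732541433 _ [120, 120, 120, 132, 54, 234, 252] _ (by decide +kernel) nd492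

theorem nd494 : Ok 4 Dn4 [[1, 0, 0, 0, 1, 0, 0], [1, 1, 0, 0, 2, 0, 0], [1, 1, 1, 0, 1, 0, 0],
  [1, 1, 1, 1, 2, 0, 0], [1, 1, 1, 0, 3, 1, 1], [0, 0, 0, 0, 1, 1, 0], [2, 2, 2, 1, 3, 1, 1]]
  140187732536313 [64, 88, 88, 124, 46, 178, 196] 78375329178 :=
  dec4 0 10 1 _ _ 140187732537337 _ [92, 92, 116, 128, 50, 206, 224] _ (by decide +kernel) nd493

theorem nd495 : Ok 4 Dn4 [[1, 0, 0, 0, 1, 0, 0], [1, 1, 0, 0, 2, 0, 0], [1, 1, 1, 0, 1, 0, 0],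
  [1, 1, 1, 1, 2, 0, 0], [1, 1, 1, 0, 3, 1, 1], [0, 0, 0, 0, 1, 1, 0], [2, 2, 2, 1, 3, 1, 1]]
  140187732535801 [60, 60, 60, 120, 42, 150, 168] 78375329178 :=
  dec4 0 9 1 _ _ 140187732536313 _ [64, 88, 88, 124, 46, 178, 196] _ (by decide +kernel) nd494

theorem nd496 : Ok 4 Dn4 [[1, 0, 0, 0, 1, 0, 0], [1, 1, 0, 0, 2, 0, 0], [1, 1, 1, 0, 1, 0, 0],
  [1, 1, 1, 1, 2, 0, 0], [1, 1, 1, 0, 3, 1, 1], [0, 0, 0, 0, 1, 1, 0], [1, 1, 1, 0, 1, 1, 1]]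
  140187732535801 [60, 60, 60, 120, 42, 150, 168] 109286512508 :=
  cut4 3 6 1 1 1 _ [[1, 0, 0, 0, 1, 0, 0], [1, 1, 0, 0, 2, 0, 0], [1, 1, 1, 0, 1, 0, 0], [2, 2,
  2, 1, 3, 1, 1], [1, 1, 1, 0, 3, 1, 1], [0, 0, 0, 0, 1, 1, 0], [1, 1, 1, 0, 1, 1, 1]] [[1, 0, 0,
  0, 1, 0, 0], [1, 1, 0, 0, 2, 0, 0], [1, 1, 1, 0, 1, 0, 0], [1, 1, 1, 1, 2, 0, 0], [1, 1, 1, 0,
  3, 1, 1], [0, 0, 0, 0, 1, 1, 0], [2, 2, 2, 1, 3, 1, 1]] _ _ 140197695838 78375329178 _ (by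
  decide +kernel) ok235 nd495

theorem nd497 : Ok 4 Dn4 [[1, 0, 0, 0, 1, 0, 0], [1, 1, 0, 0, 2, 0, 0], [1, 1, 1, 0, 1, 0, 0],
  [1, 1, 1, 1, 2, 0, 0], [1, 1, 1, 0, 3, 1, 1], [0, 0, 0, 0, 1, 1, 0], [1, 1, 1, 0, 1, 1, 1]]
  140185585052153 [59, 59, 59, 119, 35, 149, 161] 109286512508 :=
  dec4 1 15 1 _ _ 140187732535801 _ [60, 60, 60, 120, 42, 150, 168] _ (by decide +kernel) nd496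

theorem nd498 : Ok 4 Dn4 [[1, 0, 0, 0, 1, 0, 0], [1, 1, 0, 0, 2, 0, 0], [1, 1, 1, 0, 1, 0, 0],
  [1, 1, 1, 1, 2, 0, 0], [1, 1, 1, 0, 3, 1, 1], [0, 0, 0, 0, 1, 1, 0], [1, 1, 1, 0, 1, 1, 1]]
  140185576663545 [57, 57, 57, 105, 21, 147, 147] 109286512508 :=
  dec4 1 7 1 _ _ 140185585052153 _ [59, 59, 59, 119, 35, 149, 161] _ (by decide +kernel) nd497

theorem nd499 : Ok 4 Dn4 [[1, 0, 0, 0, 1, 0, 0], [1, 1, 0, 0, 2, 0, 0], [1, 1, 1, 0, 1, 0, 0],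
  [1, 1, 1, 1, 2, 0, 0], [1, 1, 1, 0, 3, 1, 1], [0, 0, 0, 0, 1, 1, 0], [1, 1, 1, 0, 1, 1, 1]]
  140185576663289 [57, 57, 57, 105, 21, 147, 147] 109286512508 :=
  dec4 0 8 0 _ _ 140185576663545 _ [57, 57, 57, 105, 21, 147, 147] _ (by decide +kernel) nd498

theorem nd500 : Ok 4 Dn4 [[1, 0, 0, 0, 1, 0, 0], [1, 1, 0, 0, 2, 0, 0], [1, 1, 1, 0, 1, 0, 0],
  [1, 1, 1, 1, 2, 0, 0], [1, 1, 1, 0, 3, 1, 1], [0, 0, 0, 0, 1, 1, 0], [1, 1, 1, 0, 1, 1, 1]]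
  140185576663273 [57, 57, 57, 105, 21, 147, 147] 109286512508 :=
  dec4 0 4 0 _ _ 140185576663289 _ [57, 57, 57, 105, 21, 147, 147] _ (by decide +kernel) nd499

theorem nd501 : Ok 4 Dn4 [[1, 0, 0, 0, 1, 0, 0], [1, 1, 0, 0, 2, 0, 0], [1, 1, 1, 0, 1, 0, 0],
  [1, 1, 1, 1, 2, 0, 0], [1, 1, 1, 0, 3, 1, 1], [0, 0, 0, 0, 1, 1, 0], [1, 1, 1, 0, 1, 1, 1]]
  140185576663272 [57, 57, 57, 105, 21, 147, 147] 109286512508 :=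
  dec4 0 0 0 _ _ 140185576663273 _ [57, 57, 57, 105, 21, 147, 147] _ (by decide +kernel) nd500

theorem nd502 : Ok 4 Dn4 [[1, 0, 0, 0, 1, 0, 0], [1, 1, 0, 0, 2, 0, 0], [1, 1, 1, 0, 1, 0, 0],
  [1, 1, 1, 1, 2, 0, 0], [0, 0, 0, 0, 1, 0, 0], [0, 0, 0, 0, 1, 1, 0], [1, 1, 1, 0, 1, 1, 1]]
  140185576663272 [57, 57, 57, 105, 21, 147, 147] 38853022980 :=
  cut4 4 6 2 1 1 _ [[1, 0, 0, 0, 1, 0, 0], [1, 1, 0, 0, 2, 0, 0], [1, 1, 1, 0, 1, 0, 0], [1, 1,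
  1, 1, 2, 0, 0], [1, 1, 1, 0, 3, 1, 1], [0, 0, 0, 0, 1, 1, 0], [1, 1, 1, 0, 1, 1, 1]] [[1, 0, 0,
  0, 1, 0, 0], [1, 1, 0, 0, 2, 0, 0], [1, 1, 1, 0, 1, 0, 0], [1, 1, 1, 1, 2, 0, 0], [0, 0, 0, 0,
  1, 0, 0], [0, 0, 0, 0, 1, 1, 0], [1, 1, 1, 0, 3, 1, 1]] _ _ 109286512508 15375193137 _ (by
  decide +kernel) nd501 ok242

theorem nd503 : Ok 4 Dn4 [[1, 0, 0, 0, 1, 0, 0], [1, 1, 0, 0, 2, 0, 0], [1, 1, 1, 0, 1, 0, 0],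
  [1, 1, 1, 1, 2, 0, 0], [0, 0, 0, 0, 1, 0, 0], [0, 0, 0, 0, 1, 1, 0], [1, 1, 1, 0, 1, 1, 1]]
  131389483641064 [57, 57, 57, 105, 21, 147, 147] 38853022980 :=
  dec4 2 11 0 _ _ 140185576663272 _ [57, 57, 57, 105, 21, 147, 147] _ (by decide +kernel) nd502

theorem nd504 : Ok 4 Dn4 [[1, 0, 0, 0, 1, 0, 0], [1, 1, 0, 0, 2, 0, 0], [1, 1, 1, 0, 1, 0, 0],
  [1, 1, 1, 1, 2, 0, 0], [0, 0, 0, 0, 1, 0, 0], [0, 0, 0, 0, 1, 1, 0], [1, 1, 1, 0, 1, 1, 1]]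
  131355123902696 [57, 57, 57, 105, 21, 147, 147] 38853022980 :=
  dec4 2 3 0 _ _ 131389483641064 _ [57, 57, 57, 105, 21, 147, 147] _ (by decide +kernel) nd503

theorem nd505 : Ok 4 Dn4 [[1, 0, 0, 0, 1, 0, 0], [1, 1, 0, 0, 2, 0, 0], [1, 1, 1, 0, 1, 0, 0],
  [1, 1, 1, 1, 2, 0, 0], [0, 0, 0, 0, 1, 0, 0], [0, 0, 0, 0, 1, 1, 0], [1, 1, 1, 0, 1, 1, 1]]
  131354989684968 [57, 57, 57, 105, 21, 147, 147] 38853022980 :=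
  dec4 1 11 0 _ _ 131355123902696 _ [57, 57, 57, 105, 21, 147, 147] _ (by decide +kernel) nd504

theorem nd506 : Ok 4 Dn4 [[1, 0, 0, 0, 1, 0, 0], [1, 1, 0, 0, 2, 0, 0], [1, 1, 1, 0, 1, 0, 0],
  [1, 1, 1, 1, 2, 0, 0], [0, 0, 0, 0, 1, 0, 0], [0, 0, 0, 0, 1, 1, 0], [1, 1, 1, 0, 1, 1, 1]]
  131354989160680 [57, 57, 57, 105, 21, 147, 147] 38853022980 :=
  dec4 1 3 0 _ _ 131354989684968 _ [57, 57, 57, 105, 21, 147, 147] _ (by decide +kernel) nd505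

theorem nd507 : Ok 4 Dn4 [[1, 0, 0, 0, 1, 0, 0], [1, 1, 0, 0, 1, 1, 0], [1, 1, 1, 0, 1, 0, 0],
  [2, 2, 2, 1, 3, 1, 1], [1, 1, 0, 0, 2, 0, 0], [0, 0, 0, 0, 1, 1, 0], [1, 1, 1, 0, 1, 1, 1]]
  140187732015609 [62, 62, 74, 122, 56, 152, 182] 88706427260 :=
  cut4 4 6 1 1 1 _ [[1, 0, 0, 0, 1, 0, 0], [1, 1, 0, 0, 1, 1, 0], [1, 1, 1, 0, 1, 0, 0], [2, 2,
  2, 1, 3, 1, 1], [2, 2, 1, 0, 3, 1, 1], [0, 0, 0, 0, 1, 1, 0], [1, 1, 1, 0, 1, 1, 1]] [[1, 0, 0,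
  0, 1, 0, 0], [1, 1, 0, 0, 1, 1, 0], [1, 1, 1, 0, 1, 0, 0], [2, 2, 2, 1, 3, 1, 1], [1, 1, 0, 0,
  2, 0, 0], [0, 0, 0, 0, 1, 1, 0], [2, 2, 1, 0, 3, 1, 1]] _ _ 176053420053 30475098730 _ (by
  decide +kernel) ok243 ok244

theorem nd508 : Ok 4 Dn4 [[1, 0, 0, 0, 1, 0, 0], [1, 1, 0, 0, 1, 1, 0], [1, 1, 1, 0, 1, 0, 0],
  [2, 2, 2, 1, 3, 1, 1], [1, 1, 0, 0, 2, 0, 0], [0, 0, 0, 0, 1, 1, 0], [1, 1, 1, 0, 1, 1, 1]]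
  140187732011513 [62, 62, 74, 122, 56, 152, 182] 88706427260 :=
  dec4 0 12 0 _ _ 140187732015609 _ [62, 62, 74, 122, 56, 152, 182] _ (by decide +kernel) nd507

theorem nd509 : Ok 4 Dn4 [[1, 0, 0, 0, 1, 0, 0], [2, 2, 1, 1, 3, 1, 0], [1, 1, 1, 0, 2, 1, 0],
  [1, 1, 1, 1, 3, 1, 0], [1, 1, 0, 0, 2, 0, 0], [0, 0, 0, 0, 1, 1, 0], [2, 2, 2, 1, 3, 1, 1]]
  140187732541433 [122, 122, 134, 134, 68, 236, 266] 48912531343 :=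
  cut4 4 6 1 1 1 _ [[1, 0, 0, 0, 1, 0, 0], [2, 2, 1, 1, 3, 1, 0], [1, 1, 1, 0, 2, 1, 0], [1, 1,
  1, 1, 3, 1, 0], [3, 3, 2, 1, 5, 1, 1], [0, 0, 0, 0, 1, 1, 0], [2, 2, 2, 1, 3, 1, 1]] [[1, 0, 0,
  0, 1, 0, 0], [2, 2, 1, 1, 3, 1, 0], [1, 1, 1, 0, 2, 1, 0], [1, 1, 1, 1, 3, 1, 0], [1, 1, 0, 0,
  2, 0, 0], [0, 0, 0, 0, 1, 1, 0], [3, 3, 2, 1, 5, 1, 1]] _ _ 178437460020 5737555117 _ (by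
  decide +kernel) ok245 ok246

theorem nd510 : Ok 4 Dn4 [[1, 0, 0, 0, 1, 0, 0], [2, 2, 1, 1, 3, 1, 0], [1, 1, 1, 0, 2, 1, 0],
  [1, 1, 1, 1, 2, 0, 0], [1, 1, 0, 0, 2, 0, 0], [0, 0, 0, 0, 1, 1, 0], [2, 2, 2, 1, 3, 1, 1]]
  140187732541433 [122, 122, 134, 134, 68, 236, 266] 68272658925 :=
  cut4 3 5 1 1 1 _ [[1, 0, 0, 0, 1, 0, 0], [2, 2, 1, 1, 3, 1, 0], [1, 1, 1, 0, 2, 1, 0], [1, 1,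
  1, 1, 3, 1, 0], [1, 1, 0, 0, 2, 0, 0], [0, 0, 0, 0, 1, 1, 0], [2, 2, 2, 1, 3, 1, 1]] [[1, 0, 0,
  0, 1, 0, 0], [2, 2, 1, 1, 3, 1, 0], [1, 1, 1, 0, 2, 1, 0], [1, 1, 1, 1, 2, 0, 0], [1, 1, 0, 0,
  2, 0, 0], [1, 1, 1, 1, 3, 1, 0], [2, 2, 2, 1, 3, 1, 1]] _ _ 48912531343 126353041668 _ (by
  decide +kernel) nd509 ok247

theorem nd511 : Ok 4 Dn4 [[1, 0, 0, 0, 1, 0, 0], [2, 2, 1, 1, 3, 1, 0], [1, 1, 1, 0, 1, 0, 0],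
  [1, 1, 1, 1, 2, 0, 0], [1, 1, 0, 0, 2, 0, 0], [0, 0, 0, 0, 1, 1, 0], [2, 2, 2, 1, 3, 1, 1]]
  140187732541433 [122, 122, 134, 134, 68, 236, 266] 74945531302 :=
  cut4 2 5 1 1 1 _ [[1, 0, 0, 0, 1, 0, 0], [2, 2, 1, 1, 3, 1, 0], [1, 1, 1, 0, 2, 1, 0], [1, 1,
  1, 1, 2, 0, 0], [1, 1, 0, 0, 2, 0, 0], [0, 0, 0, 0, 1, 1, 0], [2, 2, 2, 1, 3, 1, 1]] [[1, 0, 0,
  0, 1, 0, 0], [2, 2, 1, 1, 3, 1, 0], [1, 1, 1, 0, 1, 0, 0], [1, 1, 1, 1, 2, 0, 0], [1, 1, 0, 0,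
  2, 0, 0], [1, 1, 1, 0, 2, 1, 0], [2, 2, 2, 1, 3, 1, 1]] _ _ 68272658925 88291276056 _ (by
  decide +kernel) nd510 ok248

theorem nd512 : Ok 4 Dn4 [[1, 0, 0, 0, 1, 0, 0], [2, 2, 1, 1, 3, 1, 0], [1, 1, 1, 0, 1, 0, 0],
  [1, 1, 1, 1, 2, 0, 0], [1, 1, 0, 0, 2, 0, 0], [0, 0, 0, 0, 1, 1, 0], [2, 2, 2, 1, 3, 1, 1]]
  140187732017145 [122, 122, 134, 134, 68, 236, 266] 74945531302 :=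
  dec4 1 3 0 _ _ 140187732541433 _ [122, 122, 134, 134, 68, 236, 266] _ (by decide +kernel) nd511

theorem nd513 : Ok 4 Dn4 [[1, 0, 0, 0, 1, 0, 0], [2, 2, 1, 1, 3, 1, 0], [1, 1, 1, 0, 1, 0, 0],
  [1, 1, 1, 1, 2, 0, 0], [1, 1, 0, 0, 2, 0, 0], [0, 0, 0, 0, 1, 1, 0], [2, 2, 2, 1, 3, 1, 1]]
  140187732013049 [94, 94, 130, 130, 64, 208, 238] 74945531302 :=
  dec4 0 12 1 _ _ 140187732017145 _ [122, 122, 134, 134, 68, 236, 266] _ (by decide +kernel) nd512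

theorem nd514 : Ok 4 Dn4 [[1, 0, 0, 0, 1, 0, 0], [1, 1, 0, 0, 1, 1, 0], [1, 1, 1, 0, 2, 1, 0],
  [2, 2, 1, 1, 4, 2, 0], [3, 3, 2, 1, 6, 2, 1], [0, 0, 0, 0, 1, 1, 0], [2, 2, 2, 1, 4, 2, 1]]
  140737487831037 [94, 94, 130, 130, 64, 208, 238] 83884523365 :=
  cut4 1 4 1 1 1 _ [[1, 0, 0, 0, 1, 0, 0], [4, 4, 2, 1, 7, 3, 1], [1, 1, 1, 0, 2, 1, 0], [2, 2,
  1, 1, 4, 2, 0], [3, 3, 2, 1, 6, 2, 1], [0, 0, 0, 0, 1, 1, 0], [2, 2, 2, 1, 4, 2, 1]] [[1, 0, 0,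
  0, 1, 0, 0], [1, 1, 0, 0, 1, 1, 0], [1, 1, 1, 0, 2, 1, 0], [2, 2, 1, 1, 4, 2, 0], [4, 4, 2, 1,
  7, 3, 1], [0, 0, 0, 0, 1, 1, 0], [2, 2, 2, 1, 4, 2, 1]] _ _ 154504754234 68191138727 _ (by
  decide +kernel) ok250 ok251

theorem nd515 : Ok 4 Dn4 [[1, 0, 0, 0, 1, 0, 0], [1, 1, 0, 0, 1, 1, 0], [1, 1, 1, 0, 2, 1, 0],
  [2, 2, 1, 1, 3, 1, 0], [3, 3, 2, 1, 6, 2, 1], [0, 0, 0, 0, 1, 1, 0], [2, 2, 2, 1, 4, 2, 1]]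
  140737487831037 [94, 94, 130, 130, 64, 208, 238] 110443122109 :=
  cut4 3 5 1 1 1 _ [[1, 0, 0, 0, 1, 0, 0], [1, 1, 0, 0, 1, 1, 0], [1, 1, 1, 0, 2, 1, 0], [2, 2,
  1, 1, 4, 2, 0], [3, 3, 2, 1, 6, 2, 1], [0, 0, 0, 0, 1, 1, 0], [2, 2, 2, 1, 4, 2, 1]] [[1, 0, 0,
  0, 1, 0, 0], [1, 1, 0, 0, 1, 1, 0], [1, 1, 1, 0, 2, 1, 0], [2, 2, 1, 1, 3, 1, 0], [3, 3, 2, 1,
  6, 2, 1], [2, 2, 1, 1, 4, 2, 0], [2, 2, 2, 1, 4, 2, 1]] _ _ 83884523365 243236115827 _ (by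
  decide +kernel) nd514 ok252

theorem nd516 : Ok 4 Dn4 [[1, 0, 0, 0, 1, 0, 0], [1, 1, 0, 0, 1, 1, 0], [1, 1, 1, 0, 2, 1, 0],
  [2, 2, 1, 1, 3, 1, 0], [3, 3, 2, 1, 6, 2, 1], [0, 0, 0, 0, 1, 1, 0], [2, 2, 2, 1, 4, 2, 1]]
  140187732017149 [94, 94, 130, 130, 64, 208, 238] 110443122109 :=
  dec4 2 7 0 _ _ 140737487831037 _ [94, 94, 130, 130, 64, 208, 238] _ (by decide +kernel) nd515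

theorem nd517 : Ok 4 Dn4 [[1, 0, 0, 0, 1, 0, 0], [1, 1, 0, 0, 1, 1, 0], [1, 1, 1, 0, 2, 1, 0],
  [2, 2, 1, 1, 3, 1, 0], [3, 3, 2, 1, 6, 2, 1], [0, 0, 0, 0, 1, 1, 0], [2, 2, 2, 1, 3, 1, 1]]
  140187732017149 [94, 94, 130, 130, 64, 208, 238] 139059116669 :=
  cut4 5 6 1 1 1 _ [[1, 0, 0, 0, 1, 0, 0], [1, 1, 0, 0, 1, 1, 0], [1, 1, 1, 0, 2, 1, 0], [2, 2,
  1, 1, 3, 1, 0], [3, 3, 2, 1, 6, 2, 1], [2, 2, 2, 1, 4, 2, 1], [2, 2, 2, 1, 3, 1, 1]] [[1, 0, 0,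
  0, 1, 0, 0], [1, 1, 0, 0, 1, 1, 0], [1, 1, 1, 0, 2, 1, 0], [2, 2, 1, 1, 3, 1, 0], [3, 3, 2, 1,
  6, 2, 1], [0, 0, 0, 0, 1, 1, 0], [2, 2, 2, 1, 4, 2, 1]] _ _ 310755084026 110443122109 _ (by
  decide +kernel) ok249 nd516

theorem nd518 : Ok 4 Dn4 [[1, 0, 0, 0, 1, 0, 0], [1, 1, 0, 0, 1, 1, 0], [1, 1, 1, 0, 2, 1, 0],
  [2, 2, 1, 1, 3, 1, 0], [3, 3, 2, 1, 5, 1, 1], [0, 0, 0, 0, 1, 1, 0], [2, 2, 2, 1, 3, 1, 1]]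
  140187732017149 [94, 94, 130, 130, 64, 208, 238] 154721368028 :=
  cut4 4 5 1 1 1 _ [[1, 0, 0, 0, 1, 0, 0], [1, 1, 0, 0, 1, 1, 0], [1, 1, 1, 0, 2, 1, 0], [2, 2,
  1, 1, 3, 1, 0], [3, 3, 2, 1, 6, 2, 1], [0, 0, 0, 0, 1, 1, 0], [2, 2, 2, 1, 3, 1, 1]] [[1, 0, 0,
  0, 1, 0, 0], [1, 1, 0, 0, 1, 1, 0], [1, 1, 1, 0, 2, 1, 0], [2, 2, 1, 1, 3, 1, 0], [3, 3, 2, 1,
  5, 1, 1], [3, 3, 2, 1, 6, 2, 1], [2, 2, 2, 1, 3, 1, 1]] _ _ 139059116669 280019378896 _ (by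
  decide +kernel) nd517 ok253

theorem nd519 : Ok 4 Dn4 [[1, 0, 0, 0, 1, 0, 0], [1, 1, 0, 0, 1, 1, 0], [1, 1, 1, 0, 2, 1, 0],
  [2, 2, 1, 1, 3, 1, 0], [3, 3, 2, 1, 5, 1, 1], [0, 0, 0, 0, 1, 1, 0], [2, 2, 2, 1, 3, 1, 1]]
  140187732017145 [94, 94, 130, 130, 64, 208, 238] 154721368028 :=
  dec4 0 2 0 _ _ 140187732017149 _ [94, 94, 130, 130, 64, 208, 238] _ (by decide +kernel) nd518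

theorem nd520 : Ok 4 Dn4 [[1, 0, 0, 0, 1, 0, 0], [1, 1, 0, 0, 1, 1, 0], [1, 1, 1, 0, 2, 1, 0],
  [2, 2, 1, 1, 3, 1, 0], [1, 1, 0, 0, 2, 0, 0], [0, 0, 0, 0, 1, 1, 0], [2, 2, 2, 1, 3, 1, 1]]
  140187732017145 [94, 94, 130, 130, 64, 208, 238] 43586977937 :=
  cut4 4 6 1 1 1 _ [[1, 0, 0, 0, 1, 0, 0], [1, 1, 0, 0, 1, 1, 0], [1, 1, 1, 0, 2, 1, 0], [2, 2,
  1, 1, 3, 1, 0], [3, 3, 2, 1, 5, 1, 1], [0, 0, 0, 0, 1, 1, 0], [2, 2, 2, 1, 3, 1, 1]] [[1, 0, 0,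
  0, 1, 0, 0], [1, 1, 0, 0, 1, 1, 0], [1, 1, 1, 0, 2, 1, 0], [2, 2, 1, 1, 3, 1, 0], [1, 1, 0, 0,
  2, 0, 0], [0, 0, 0, 0, 1, 1, 0], [3, 3, 2, 1, 5, 1, 1]] _ _ 154721368028 6542181240 _ (by
  decide +kernel) nd519 ok254

theorem nd521 : Ok 4 Dn4 [[1, 0, 0, 0, 1, 0, 0], [1, 1, 0, 0, 1, 1, 0], [1, 1, 1, 0, 1, 0, 0],
  [2, 2, 1, 1, 3, 1, 0], [1, 1, 0, 0, 2, 0, 0], [0, 0, 0, 0, 1, 1, 0], [2, 2, 2, 1, 3, 1, 1]]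
  140187732017145 [94, 94, 130, 130, 64, 208, 238] 55093292514 :=
  cut4 2 5 1 1 1 _ [[1, 0, 0, 0, 1, 0, 0], [1, 1, 0, 0, 1, 1, 0], [1, 1, 1, 0, 2, 1, 0], [2, 2,
  1, 1, 3, 1, 0], [1, 1, 0, 0, 2, 0, 0], [0, 0, 0, 0, 1, 1, 0], [2, 2, 2, 1, 3, 1, 1]] [[1, 0, 0,
  0, 1, 0, 0], [1, 1, 0, 0, 1, 1, 0], [1, 1, 1, 0, 1, 0, 0], [2, 2, 1, 1, 3, 1, 0], [1, 1, 0, 0,
  2, 0, 0], [1, 1, 1, 0, 2, 1, 0], [2, 2, 2, 1, 3, 1, 1]] _ _ 43586977937 78105921667 _ (by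
  decide +kernel) nd520 ok255

theorem nd522 : Ok 4 Dn4 [[1, 0, 0, 0, 1, 0, 0], [1, 1, 0, 0, 1, 1, 0], [1, 1, 1, 0, 1, 0, 0],
  [2, 2, 1, 1, 3, 1, 0], [1, 1, 0, 0, 2, 0, 0], [0, 0, 0, 0, 1, 1, 0], [2, 2, 2, 1, 3, 1, 1]]
  140187732013049 [94, 94, 130, 130, 64, 208, 238] 55093292514 :=
  dec4 0 12 0 _ _ 140187732017145 _ [94, 94, 130, 130, 64, 208, 238] _ (by decide +kernel) nd521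

theorem nd523 : Ok 4 Dn4 [[1, 0, 0, 0, 1, 0, 0], [1, 1, 0, 0, 1, 1, 0], [1, 1, 1, 0, 1, 0, 0],
  [1, 1, 1, 1, 2, 0, 0], [1, 1, 0, 0, 2, 0, 0], [0, 0, 0, 0, 1, 1, 0], [2, 2, 2, 1, 3, 1, 1]]
  140187732013049 [94, 94, 130, 130, 64, 208, 238] 63034188030 :=
  cut4 1 3 1 1 1 _ [[1, 0, 0, 0, 1, 0, 0], [2, 2, 1, 1, 3, 1, 0], [1, 1, 1, 0, 1, 0, 0], [1, 1,
  1, 1, 2, 0, 0], [1, 1, 0, 0, 2, 0, 0], [0, 0, 0, 0, 1, 1, 0], [2, 2, 2, 1, 3, 1, 1]] [[1, 0, 0,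
  0, 1, 0, 0], [1, 1, 0, 0, 1, 1, 0], [1, 1, 1, 0, 1, 0, 0], [2, 2, 1, 1, 3, 1, 0], [1, 1, 0, 0,
  2, 0, 0], [0, 0, 0, 0, 1, 1, 0], [2, 2, 2, 1, 3, 1, 1]] _ _ 74945531302 55093292514 _ (by
  decide +kernel) nd513 nd522

theorem nd524 : Ok 4 Dn4 [[1, 0, 0, 0, 1, 0, 0], [1, 1, 0, 0, 1, 1, 0], [1, 1, 1, 0, 1, 0, 0],
  [1, 1, 1, 1, 2, 0, 0], [1, 1, 0, 0, 2, 0, 0], [0, 0, 0, 0, 1, 1, 0], [2, 2, 2, 1, 3, 1, 1]]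
  140187732012025 [66, 90, 102, 126, 60, 180, 210] 63034188030 :=
  dec4 0 10 1 _ _ 140187732013049 _ [94, 94, 130, 130, 64, 208, 238] _ (by decide +kernel) nd523

theorem nd525 : Ok 4 Dn4 [[1, 0, 0, 0, 1, 0, 0], [1, 1, 0, 0, 1, 1, 0], [1, 1, 1, 0, 1, 0, 0],
  [1, 1, 1, 1, 2, 0, 0], [1, 1, 0, 0, 2, 0, 0], [0, 0, 0, 0, 1, 1, 0], [2, 2, 2, 1, 3, 1, 1]]
  140187732011513 [62, 62, 74, 122, 56, 152, 182] 63034188030 :=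
  dec4 0 9 1 _ _ 140187732012025 _ [66, 90, 102, 126, 60, 180, 210] _ (by decide +kernel) nd524

theorem nd526 : Ok 4 Dn4 [[1, 0, 0, 0, 1, 0, 0], [1, 1, 0, 0, 1, 1, 0], [1, 1, 1, 0, 1, 0, 0],
  [1, 1, 1, 1, 2, 0, 0], [1, 1, 0, 0, 2, 0, 0], [0, 0, 0, 0, 1, 1, 0], [1, 1, 1, 0, 1, 1, 1]]
  140187732011513 [62, 62, 74, 122, 56, 152, 182] 75870307645 :=
  cut4 3 6 1 1 1 _ [[1, 0, 0, 0, 1, 0, 0], [1, 1, 0, 0, 1, 1, 0], [1, 1, 1, 0, 1, 0, 0], [2, 2,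
  2, 1, 3, 1, 1], [1, 1, 0, 0, 2, 0, 0], [0, 0, 0, 0, 1, 1, 0], [1, 1, 1, 0, 1, 1, 1]] [[1, 0, 0,
  0, 1, 0, 0], [1, 1, 0, 0, 1, 1, 0], [1, 1, 1, 0, 1, 0, 0], [1, 1, 1, 1, 2, 0, 0], [1, 1, 0, 0,
  2, 0, 0], [0, 0, 0, 0, 1, 1, 0], [2, 2, 2, 1, 3, 1, 1]] _ _ 88706427260 63034188030 _ (by
  decide +kernel) nd508 nd525

theorem nd527 : Ok 4 Dn4 [[1, 0, 0, 0, 1, 0, 0], [1, 1, 0, 0, 1, 1, 0], [1, 1, 1, 0, 1, 0, 0],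
  [1, 1, 1, 1, 2, 0, 0], [1, 1, 0, 0, 2, 0, 0], [0, 0, 0, 0, 1, 1, 0], [1, 1, 1, 0, 1, 1, 1]]
  131391638989305 [62, 62, 74, 122, 56, 152, 182] 75870307645 :=
  dec4 2 11 0 _ _ 140187732011513 _ [62, 62, 74, 122, 56, 152, 182] _ (by decide +kernel) nd526

theorem nd528 : Ok 4 Dn4 [[1, 0, 0, 0, 1, 0, 0], [1, 1, 0, 0, 1, 1, 0], [1, 1, 1, 0, 1, 0, 0],
  [1, 1, 1, 1, 2, 0, 0], [1, 1, 0, 0, 2, 0, 0], [0, 0, 0, 0, 1, 1, 0], [1, 1, 1, 0, 1, 1, 1]]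
  131357279250937 [62, 62, 74, 122, 56, 152, 182] 75870307645 :=
  dec4 2 3 0 _ _ 131391638989305 _ [62, 62, 74, 122, 56, 152, 182] _ (by decide +kernel) nd527

theorem nd529 : Ok 4 Dn4 [[1, 0, 0, 0, 1, 0, 0], [2, 2, 1, 1, 2, 0, 0], [1, 1, 1, 0, 1, 0, 0],
  [2, 2, 1, 1, 3, 1, 0], [3, 3, 2, 1, 5, 1, 1], [1, 1, 0, 0, 1, 1, 0], [2, 2, 2, 1, 3, 1, 1]]
  281474976186365 [99, 99, 147, 147, 99, 243, 243] 371151385529 :=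
  cut4 0 6 1 1 1 _ [[3, 2, 2, 1, 4, 1, 1], [2, 2, 1, 1, 2, 0, 0], [1, 1, 1, 0, 1, 0, 0], [2, 2,
  1, 1, 3, 1, 0], [3, 3, 2, 1, 5, 1, 1], [1, 1, 0, 0, 1, 1, 0], [2, 2, 2, 1, 3, 1, 1]] [[1, 0, 0,
  0, 1, 0, 0], [2, 2, 1, 1, 2, 0, 0], [1, 1, 1, 0, 1, 0, 0], [2, 2, 1, 1, 3, 1, 0], [3, 3, 2, 1,
  5, 1, 1], [1, 1, 0, 0, 1, 1, 0], [3, 2, 2, 1, 4, 1, 1]] _ _ 1421552144355 196084592391 _ (by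
  decide +kernel) ok257 ok258

theorem nd530 : Ok 4 Dn4 [[1, 0, 0, 0, 1, 0, 0], [2, 2, 1, 1, 2, 0, 0], [1, 1, 1, 0, 1, 0, 0],
  [2, 2, 1, 1, 3, 1, 0], [3, 3, 2, 1, 5, 1, 1], [1, 1, 0, 0, 1, 1, 0], [2, 2, 2, 1, 3, 1, 1]]
  281474976186361 [99, 99, 147, 147, 99, 243, 243] 371151385529 :=
  dec4 0 2 0 _ _ 281474976186365 _ [99, 99, 147, 147, 99, 243, 243] _ (by decide +kernel) nd529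

theorem nd531 : Ok 4 Dn4 [[1, 0, 0, 0, 1, 0, 0], [2, 2, 1, 1, 2, 0, 0], [1, 1, 1, 0, 1, 0, 0],
  [2, 2, 1, 1, 3, 1, 0], [1, 1, 0, 0, 2, 0, 0], [1, 1, 0, 0, 1, 1, 0], [2, 2, 2, 1, 3, 1, 1]]
  281474976186361 [99, 99, 147, 147, 99, 243, 243] 104142437583 :=
  cut4 4 6 1 1 1 _ [[1, 0, 0, 0, 1, 0, 0], [2, 2, 1, 1, 2, 0, 0], [1, 1, 1, 0, 1, 0, 0], [2, 2,
  1, 1, 3, 1, 0], [3, 3, 2, 1, 5, 1, 1], [1, 1, 0, 0, 1, 1, 0], [2, 2, 2, 1, 3, 1, 1]] [[1, 0, 0,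
  0, 1, 0, 0], [2, 2, 1, 1, 2, 0, 0], [1, 1, 1, 0, 1, 0, 0], [2, 2, 1, 1, 3, 1, 0], [1, 1, 0, 0,
  2, 0, 0], [1, 1, 0, 0, 1, 1, 0], [3, 3, 2, 1, 5, 1, 1]] _ _ 371151385529 15139454934 _ (by
  decide +kernel) nd530 ok259

theorem nd532 : Ok 4 Dn4 [[1, 0, 0, 0, 1, 0, 0], [2, 2, 1, 1, 2, 0, 0], [1, 1, 1, 0, 1, 0, 0],
  [2, 2, 1, 1, 3, 1, 0], [1, 1, 0, 0, 2, 0, 0], [1, 1, 0, 0, 1, 1, 0], [2, 2, 2, 1, 3, 1, 1]]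
  281474976182265 [99, 99, 147, 147, 99, 243, 243] 104142437583 :=
  dec4 0 12 0 _ _ 281474976186361 _ [99, 99, 147, 147, 99, 243, 243] _ (by decide +kernel) nd531

theorem nd533 : Ok 4 Dn4 [[1, 0, 0, 0, 1, 0, 0], [2, 2, 1, 1, 2, 0, 0], [1, 1, 1, 0, 1, 0, 0],
  [1, 1, 1, 1, 2, 0, 0], [1, 1, 0, 0, 2, 0, 0], [1, 1, 0, 0, 1, 1, 0], [2, 2, 2, 1, 3, 1, 1]]
  281474976182265 [99, 99, 147, 147, 99, 243, 243] 96793837575 :=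
  cut4 3 5 1 1 1 _ [[1, 0, 0, 0, 1, 0, 0], [2, 2, 1, 1, 2, 0, 0], [1, 1, 1, 0, 1, 0, 0], [2, 2,
  1, 1, 3, 1, 0], [1, 1, 0, 0, 2, 0, 0], [1, 1, 0, 0, 1, 1, 0], [2, 2, 2, 1, 3, 1, 1]] [[1, 0, 0,
  0, 1, 0, 0], [2, 2, 1, 1, 2, 0, 0], [1, 1, 1, 0, 1, 0, 0], [1, 1, 1, 1, 2, 0, 0], [1, 1, 0, 0,
  2, 0, 0], [2, 2, 1, 1, 3, 1, 0], [2, 2, 2, 1, 3, 1, 1]] _ _ 104142437583 85770937561 _ (by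
  decide +kernel) nd532 ok260

theorem nd534 : Ok 4 Dn4 [[1, 0, 0, 0, 1, 0, 0], [2, 2, 1, 1, 2, 0, 0], [1, 1, 1, 0, 1, 0, 0],
  [1, 1, 1, 1, 2, 0, 0], [1, 1, 0, 0, 2, 0, 0], [1, 1, 0, 0, 1, 1, 0], [2, 2, 2, 1, 3, 1, 1]]
  281440616443897 [99, 99, 147, 147, 99, 243, 243] 96793837575 :=
  dec4 2 3 0 _ _ 281474976182265 _ [99, 99, 147, 147, 99, 243, 243] _ (by decide +kernel) nd533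

theorem nd535 : Ok 4 Dn4 [[1, 0, 0, 0, 1, 0, 0], [4, 4, 2, 1, 5, 1, 1], [1, 1, 1, 0, 1, 0, 0],
  [2, 2, 1, 1, 2, 0, 0], [3, 3, 2, 1, 5, 1, 1], [1, 1, 0, 0, 1, 1, 0], [2, 2, 2, 1, 3, 1, 1]]
  281474976186365 [99, 99, 147, 147, 99, 243, 243] 347683704933 :=
  cut4 0 6 1 1 1 _ [[3, 2, 2, 1, 4, 1, 1], [4, 4, 2, 1, 5, 1, 1], [1, 1, 1, 0, 1, 0, 0], [2, 2,
  1, 1, 2, 0, 0], [3, 3, 2, 1, 5, 1, 1], [1, 1, 0, 0, 1, 1, 0], [2, 2, 2, 1, 3, 1, 1]] [[1, 0, 0,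
  0, 1, 0, 0], [4, 4, 2, 1, 5, 1, 1], [1, 1, 1, 0, 1, 0, 0], [2, 2, 1, 1, 2, 0, 0], [3, 3, 2, 1,
  5, 1, 1], [1, 1, 0, 0, 1, 1, 0], [3, 2, 2, 1, 4, 1, 1]] _ _ 1328909485269 184146074876 _ (by
  decide +kernel) ok261 ok262

theorem nd536 : Ok 4 Dn4 [[1, 0, 0, 0, 1, 0, 0], [4, 4, 2, 1, 5, 1, 1], [1, 1, 1, 0, 1, 0, 0],
  [2, 2, 1, 1, 2, 0, 0], [3, 3, 2, 1, 5, 1, 1], [1, 1, 0, 0, 1, 1, 0], [2, 2, 2, 1, 3, 1, 1]]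
  281440616447997 [99, 99, 147, 147, 99, 243, 243] 347683704933 :=
  dec4 2 3 0 _ _ 281474976186365 _ [99, 99, 147, 147, 99, 243, 243] _ (by decide +kernel) nd535

theorem nd537 : Ok 4 Dn4 [[1, 0, 0, 0, 1, 0, 0], [1, 1, 0, 0, 0, 0, 0], [1, 1, 1, 0, 1, 0, 0],
  [2, 2, 1, 1, 2, 0, 0], [3, 3, 2, 1, 5, 1, 1], [1, 1, 0, 0, 1, 1, 0], [2, 2, 2, 1, 3, 1, 1]]
  281440616447997 [99, 99, 147, 147, 99, 243, 243] 195417674396 :=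
  cut4 1 4 1 1 1 _ [[1, 0, 0, 0, 1, 0, 0], [4, 4, 2, 1, 5, 1, 1], [1, 1, 1, 0, 1, 0, 0], [2, 2,
  1, 1, 2, 0, 0], [3, 3, 2, 1, 5, 1, 1], [1, 1, 0, 0, 1, 1, 0], [2, 2, 2, 1, 3, 1, 1]] [[1, 0, 0,
  0, 1, 0, 0], [1, 1, 0, 0, 0, 0, 0], [1, 1, 1, 0, 1, 0, 0], [2, 2, 1, 1, 2, 0, 0], [4, 4, 2, 1,
  5, 1, 1], [1, 1, 0, 0, 1, 1, 0], [2, 2, 2, 1, 3, 1, 1]] _ _ 347683704933 176384420578 _ (by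
  decide +kernel) nd536 ok263

theorem nd538 : Ok 4 Dn4 [[1, 0, 0, 0, 1, 0, 0], [1, 1, 0, 0, 0, 0, 0], [1, 1, 1, 0, 1, 0, 0],
  [2, 2, 1, 1, 2, 0, 0], [3, 3, 2, 1, 5, 1, 1], [1, 1, 0, 0, 1, 1, 0], [2, 2, 2, 1, 3, 1, 1]]
  281440616447993 [99, 99, 147, 147, 99, 243, 243] 195417674396 :=
  dec4 0 2 0 _ _ 281440616447997 _ [99, 99, 147, 147, 99, 243, 243] _ (by decide +kernel) nd537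

theorem nd539 : Ok 4 Dn4 [[1, 0, 0, 0, 1, 0, 0], [1, 1, 0, 0, 0, 0, 0], [1, 1, 1, 0, 1, 0, 0],
  [2, 2, 1, 1, 2, 0, 0], [1, 1, 0, 0, 2, 0, 0], [1, 1, 0, 0, 1, 1, 0], [2, 2, 2, 1, 3, 1, 1]]
  281440616447993 [99, 99, 147, 147, 99, 243, 243] 77339154754 :=
  cut4 4 6 1 1 1 _ [[1, 0, 0, 0, 1, 0, 0], [1, 1, 0, 0, 0, 0, 0], [1, 1, 1, 0, 1, 0, 0], [2, 2,
  1, 1, 2, 0, 0], [3, 3, 2, 1, 5, 1, 1], [1, 1, 0, 0, 1, 1, 0], [2, 2, 2, 1, 3, 1, 1]] [[1, 0, 0,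
  0, 1, 0, 0], [1, 1, 0, 0, 0, 0, 0], [1, 1, 1, 0, 1, 0, 0], [2, 2, 1, 1, 2, 0, 0], [1, 1, 0, 0,
  2, 0, 0], [1, 1, 0, 0, 1, 1, 0], [3, 3, 2, 1, 5, 1, 1]] _ _ 195417674396 37979648206 _ (by
  decide +kernel) nd538 ok264

theorem nd540 : Ok 4 Dn4 [[1, 0, 0, 0, 1, 0, 0], [1, 1, 0, 0, 0, 0, 0], [1, 1, 1, 0, 1, 0, 0],
  [2, 2, 1, 1, 2, 0, 0], [1, 1, 0, 0, 2, 0, 0], [1, 1, 0, 0, 1, 1, 0], [2, 2, 2, 1, 3, 1, 1]]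
  281440616443897 [99, 99, 147, 147, 99, 243, 243] 77339154754 :=
  dec4 0 12 0 _ _ 281440616447993 _ [99, 99, 147, 147, 99, 243, 243] _ (by decide +kernel) nd539

theorem nd541 : Ok 4 Dn4 [[1, 0, 0, 0, 1, 0, 0], [1, 1, 0, 0, 0, 0, 0], [1, 1, 1, 0, 1, 0, 0],
  [1, 1, 1, 1, 2, 0, 0], [1, 1, 0, 0, 2, 0, 0], [1, 1, 0, 0, 1, 1, 0], [2, 2, 2, 1, 3, 1, 1]]
  281440616443897 [99, 99, 147, 147, 99, 243, 243] 82202825460 :=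
  cut4 1 3 1 1 1 _ [[1, 0, 0, 0, 1, 0, 0], [2, 2, 1, 1, 2, 0, 0], [1, 1, 1, 0, 1, 0, 0], [1, 1,
  1, 1, 2, 0, 0], [1, 1, 0, 0, 2, 0, 0], [1, 1, 0, 0, 1, 1, 0], [2, 2, 2, 1, 3, 1, 1]] [[1, 0, 0,
  0, 1, 0, 0], [1, 1, 0, 0, 0, 0, 0], [1, 1, 1, 0, 1, 0, 0], [2, 2, 1, 1, 2, 0, 0], [1, 1, 0, 0,
  2, 0, 0], [1, 1, 0, 0, 1, 1, 0], [2, 2, 2, 1, 3, 1, 1]] _ _ 96793837575 77339154754 _ (by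
  decide +kernel) nd534 nd540

theorem nd542 : Ok 4 Dn4 [[1, 0, 0, 0, 1, 0, 0], [1, 1, 0, 0, 0, 0, 0], [1, 1, 1, 0, 1, 0, 0],
  [1, 1, 1, 1, 2, 0, 0], [1, 1, 0, 0, 2, 0, 0], [1, 1, 0, 0, 1, 1, 0], [2, 2, 2, 1, 3, 1, 1]]
  281440616442873 [71, 95, 119, 143, 95, 215, 215] 82202825460 :=
  dec4 0 10 1 _ _ 281440616443897 _ [99, 99, 147, 147, 99, 243, 243] _ (by decide +kernel) nd541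

theorem nd543 : Ok 4 Dn4 [[1, 0, 0, 0, 1, 0, 0], [1, 1, 0, 0, 0, 0, 0], [1, 1, 1, 0, 1, 0, 0],
  [1, 1, 1, 1, 2, 0, 0], [1, 1, 0, 0, 2, 0, 0], [1, 1, 0, 0, 1, 1, 0], [2, 2, 2, 1, 3, 1, 1]]
  281440616442361 [67, 67, 91, 139, 91, 187, 187] 82202825460 :=
  dec4 0 9 1 _ _ 281440616442873 _ [71, 95, 119, 143, 95, 215, 215] _ (by decide +kernel) nd542

theorem nd544 : Ok 4 Dn4 [[1, 0, 0, 0, 1, 0, 0], [1, 1, 0, 0, 0, 0, 0], [1, 1, 1, 0, 1, 0, 0],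
  [1, 1, 1, 1, 2, 0, 0], [1, 1, 0, 0, 2, 0, 0], [1, 1, 0, 0, 1, 1, 0], [1, 1, 1, 0, 1, 1, 1]]
  281440616442361 [67, 67, 91, 139, 91, 187, 187] 113764228544 :=
  cut4 3 6 1 1 1 _ [[1, 0, 0, 0, 1, 0, 0], [1, 1, 0, 0, 0, 0, 0], [1, 1, 1, 0, 1, 0, 0], [2, 2,
  2, 1, 3, 1, 1], [1, 1, 0, 0, 2, 0, 0], [1, 1, 0, 0, 1, 1, 0], [1, 1, 1, 0, 1, 1, 1]] [[1, 0, 0,
  0, 1, 0, 0], [1, 1, 0, 0, 0, 0, 0], [1, 1, 1, 0, 1, 0, 0], [1, 1, 1, 1, 2, 0, 0], [1, 1, 0, 0,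
  2, 0, 0], [1, 1, 0, 0, 1, 1, 0], [2, 2, 2, 1, 3, 1, 1]] _ _ 145325631628 82202825460 _ (by
  decide +kernel) ok256 nd543

theorem nd545 : Ok 4 Dn4 [[1, 0, 0, 0, 1, 0, 0], [1, 1, 0, 0, 0, 0, 0], [1, 1, 1, 0, 1, 0, 0],
  [1, 1, 1, 1, 2, 0, 0], [1, 1, 0, 0, 2, 0, 0], [1, 1, 0, 0, 1, 1, 0], [1, 1, 1, 0, 1, 1, 1]]
  140703128087033 [66, 66, 90, 138, 84, 180, 186] 113764228544 :=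
  dec4 2 15 1 _ _ 281440616442361 _ [67, 67, 91, 139, 91, 187, 187] _ (by decide +kernel) nd544

theorem nd546 : Ok 4 Dn4 [[1, 0, 0, 0, 1, 0, 0], [1, 1, 0, 0, 0, 0, 0], [1, 1, 1, 0, 1, 0, 0],
  [1, 1, 1, 1, 2, 0, 0], [1, 1, 0, 0, 2, 0, 0], [1, 1, 0, 0, 1, 1, 0], [1, 1, 1, 0, 1, 1, 1]]
  131907035064825 [64, 64, 76, 136, 70, 166, 184] 113764228544 :=
  dec4 2 11 1 _ _ 140703128087033 _ [66, 66, 90, 138, 84, 180, 186] _ (by decide +kernel) nd545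

theorem nd547 : Ok 4 Dn4 [[1, 0, 0, 0, 1, 0, 0], [1, 1, 0, 0, 0, 0, 0], [1, 1, 1, 0, 1, 0, 0],
  [1, 1, 1, 1, 2, 0, 0], [1, 1, 0, 0, 2, 0, 0], [1, 1, 0, 0, 1, 1, 0], [1, 1, 1, 0, 1, 1, 1]]
  131357279250937 [62, 62, 74, 122, 56, 152, 182] 113764228544 :=
  dec4 2 7 1 _ _ 131907035064825 _ [64, 64, 76, 136, 70, 166, 184] _ (by decide +kernel) nd546

theorem nd548 : Ok 4 Dn4 [[1, 0, 0, 0, 1, 0, 0], [1, 1, 0, 0, 0, 0, 0], [1, 1, 1, 0, 1, 0, 0],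
  [1, 1, 1, 1, 2, 0, 0], [1, 1, 0, 0, 2, 0, 0], [0, 0, 0, 0, 1, 1, 0], [1, 1, 1, 0, 1, 1, 1]]
  131357279250937 [62, 62, 74, 122, 56, 152, 182] 94817268095 :=
  cut4 1 5 1 1 1 _ [[1, 0, 0, 0, 1, 0, 0], [1, 1, 0, 0, 1, 1, 0], [1, 1, 1, 0, 1, 0, 0], [1, 1,
  1, 1, 2, 0, 0], [1, 1, 0, 0, 2, 0, 0], [0, 0, 0, 0, 1, 1, 0], [1, 1, 1, 0, 1, 1, 1]] [[1, 0, 0,
  0, 1, 0, 0], [1, 1, 0, 0, 0, 0, 0], [1, 1, 1, 0, 1, 0, 0], [1, 1, 1, 1, 2, 0, 0], [1, 1, 0, 0,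
  2, 0, 0], [1, 1, 0, 0, 1, 1, 0], [1, 1, 1, 0, 1, 1, 1]] _ _ 75870307645 113764228544 _ (by
  decide +kernel) nd528 nd547

theorem nd549 : Ok 4 Dn4 [[1, 0, 0, 0, 1, 0, 0], [1, 1, 0, 0, 0, 0, 0], [1, 1, 1, 0, 1, 0, 0],
  [1, 1, 1, 1, 2, 0, 0], [1, 1, 0, 0, 2, 0, 0], [0, 0, 0, 0, 1, 1, 0], [1, 1, 1, 0, 1, 1, 1]]
  131355131767289 [61, 61, 73, 121, 49, 151, 175] 94817268095 :=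
  dec4 1 15 1 _ _ 131357279250937 _ [62, 62, 74, 122, 56, 152, 182] _ (by decide +kernel) nd548

theorem nd550 : Ok 4 Dn4 [[1, 0, 0, 0, 1, 0, 0], [1, 1, 0, 0, 0, 0, 0], [1, 1, 1, 0, 1, 0, 0],
  [1, 1, 1, 1, 2, 0, 0], [1, 1, 0, 0, 2, 0, 0], [0, 0, 0, 0, 1, 1, 0], [1, 1, 1, 0, 1, 1, 1]]
  131354997549561 [59, 59, 59, 119, 35, 149, 161] 94817268095 :=
  dec4 1 11 1 _ _ 131355131767289 _ [61, 61, 73, 121, 49, 151, 175] _ (by decide +kernel) nd549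

theorem nd551 : Ok 4 Dn4 [[1, 0, 0, 0, 1, 0, 0], [1, 1, 0, 0, 0, 0, 0], [1, 1, 1, 0, 1, 0, 0],
  [1, 1, 1, 1, 2, 0, 0], [1, 1, 0, 0, 2, 0, 0], [0, 0, 0, 0, 1, 1, 0], [1, 1, 1, 0, 1, 1, 1]]
  131354989160953 [57, 57, 57, 105, 21, 147, 147] 94817268095 :=
  dec4 1 7 1 _ _ 131354997549561 _ [59, 59, 59, 119, 35, 149, 161] _ (by decide +kernel) nd550

theorem nd552 : Ok 4 Dn4 [[1, 0, 0, 0, 1, 0, 0], [1, 1, 0, 0, 0, 0, 0], [1, 1, 1, 0, 1, 0, 0],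
  [1, 1, 1, 1, 2, 0, 0], [1, 1, 0, 0, 2, 0, 0], [0, 0, 0, 0, 1, 1, 0], [1, 1, 1, 0, 1, 1, 1]]
  131354989160697 [57, 57, 57, 105, 21, 147, 147] 94817268095 :=
  dec4 0 8 0 _ _ 131354989160953 _ [57, 57, 57, 105, 21, 147, 147] _ (by decide +kernel) nd551

theorem nd553 : Ok 4 Dn4 [[1, 0, 0, 0, 1, 0, 0], [1, 1, 0, 0, 0, 0, 0], [1, 1, 1, 0, 1, 0, 0],
  [1, 1, 1, 1, 2, 0, 0], [1, 1, 0, 0, 2, 0, 0], [0, 0, 0, 0, 1, 1, 0], [1, 1, 1, 0, 1, 1, 1]]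
  131354989160681 [57, 57, 57, 105, 21, 147, 147] 94817268095 :=
  dec4 0 4 0 _ _ 131354989160697 _ [57, 57, 57, 105, 21, 147, 147] _ (by decide +kernel) nd552

theorem nd554 : Ok 4 Dn4 [[1, 0, 0, 0, 1, 0, 0], [1, 1, 0, 0, 0, 0, 0], [1, 1, 1, 0, 1, 0, 0],
  [1, 1, 1, 1, 2, 0, 0], [1, 1, 0, 0, 2, 0, 0], [0, 0, 0, 0, 1, 1, 0], [1, 1, 1, 0, 1, 1, 1]]
  131354989160680 [57, 57, 57, 105, 21, 147, 147] 94817268095 :=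
  dec4 0 0 0 _ _ 131354989160681 _ [57, 57, 57, 105, 21, 147, 147] _ (by decide +kernel) nd553

theorem nd555 : Ok 4 Dn4 [[1, 0, 0, 0, 1, 0, 0], [1, 1, 0, 0, 0, 0, 0], [1, 1, 1, 0, 1, 0, 0],
  [1, 1, 1, 1, 2, 0, 0], [0, 0, 0, 0, 1, 0, 0], [0, 0, 0, 0, 1, 1, 0], [1, 1, 1, 0, 1, 1, 1]]
  131354989160680 [57, 57, 57, 105, 21, 147, 147] 66835145538 :=
  cut4 1 4 1 2 1 _ [[1, 0, 0, 0, 1, 0, 0], [1, 1, 0, 0, 2, 0, 0], [1, 1, 1, 0, 1, 0, 0], [1, 1,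
  1, 1, 2, 0, 0], [0, 0, 0, 0, 1, 0, 0], [0, 0, 0, 0, 1, 1, 0], [1, 1, 1, 0, 1, 1, 1]] [[1, 0, 0,
  0, 1, 0, 0], [1, 1, 0, 0, 0, 0, 0], [1, 1, 1, 0, 1, 0, 0], [1, 1, 1, 1, 2, 0, 0], [1, 1, 0, 0,
  2, 0, 0], [0, 0, 0, 0, 1, 1, 0], [1, 1, 1, 0, 1, 1, 1]] _ _ 38853022980 94817268095 _ (by
  decide +kernel) nd506 nd554

theorem nd556 : Ok 4 Dn4 [[1, 0, 0, 0, 1, 0, 0], [1, 1, 0, 0, 0, 0, 0], [1, 1, 1, 0, 1, 0, 0],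
  [1, 1, 1, 1, 2, 0, 0], [0, 0, 0, 0, 1, 0, 0], [0, 0, 0, 0, 1, 1, 0], [1, 1, 1, 0, 1, 1, 1]]
  60986244983016 [57, 57, 57, 105, 21, 147, 147] 66835145538 :=
  dec4 2 14 0 _ _ 131354989160680 _ [57, 57, 57, 105, 21, 147, 147] _ (by decide +kernel) nd555

theorem nd557 : Ok 4 Dn4 [[1, 0, 0, 0, 1, 0, 0], [1, 1, 0, 0, 0, 0, 0], [1, 1, 1, 0, 1, 0, 0],
  [1, 1, 1, 1, 2, 0, 0], [0, 0, 0, 0, 1, 0, 0], [0, 0, 0, 0, 1, 1, 0], [1, 1, 1, 0, 1, 1, 1]]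
  25801872894184 [57, 57, 57, 105, 21, 147, 147] 66835145538 :=
  dec4 2 13 0 _ _ 60986244983016 _ [57, 57, 57, 105, 21, 147, 147] _ (by decide +kernel) nd556

theorem nd558 : Ok 4 Dn4 [[1, 0, 0, 0, 1, 0, 0], [1, 1, 0, 0, 0, 0, 0], [1, 1, 1, 0, 1, 0, 0],
  [1, 1, 1, 1, 2, 0, 0], [0, 0, 0, 0, 1, 0, 0], [0, 0, 0, 0, 1, 1, 0], [1, 1, 1, 0, 1, 1, 1]]
  25800799152360 [57, 57, 57, 105, 21, 147, 147] 66835145538 :=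
  dec4 1 14 0 _ _ 25801872894184 _ [57, 57, 57, 105, 21, 147, 147] _ (by decide +kernel) nd557

theorem nd559 : Ok 4 Dn4 [[1, 0, 0, 0, 1, 0, 0], [1, 1, 0, 0, 0, 0, 0], [1, 1, 1, 0, 1, 0, 0],
  [1, 1, 1, 1, 2, 0, 0], [0, 0, 0, 0, 1, 0, 0], [0, 0, 0, 0, 1, 1, 0], [1, 1, 1, 0, 1, 1, 1]]
  25800262281448 [57, 57, 57, 105, 21, 147, 147] 66835145538 :=
  dec4 1 13 0 _ _ 25800799152360 _ [57, 57, 57, 105, 21, 147, 147] _ (by decide +kernel) nd558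

theorem nd560 : Ok 4 Dn4 [[2, 1, 1, 1, 2, 1, 0], [1, 1, 0, 0, 1, 1, 0], [1, 1, 1, 0, 2, 1, 0],
  [1, 1, 1, 1, 1, 1, 0], [2, 2, 2, 1, 4, 2, 1], [0, 0, 0, 0, 1, 1, 0], [1, 1, 1, 0, 1, 1, 1]]
  140187732016639 [78, 78, 78, 126, 84, 156, 210] 711970135074 :=
  cut4 0 6 1 1 1 _ [[3, 2, 2, 1, 3, 2, 1], [1, 1, 0, 0, 1, 1, 0], [1, 1, 1, 0, 2, 1, 0], [1, 1,
  1, 1, 1, 1, 0], [2, 2, 2, 1, 4, 2, 1], [0, 0, 0, 0, 1, 1, 0], [1, 1, 1, 0, 1, 1, 1]] [[2, 1, 1,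
  1, 2, 1, 0], [1, 1, 0, 0, 1, 1, 0], [1, 1, 1, 0, 2, 1, 0], [1, 1, 1, 1, 1, 1, 0], [2, 2, 2, 1,
  4, 2, 1], [0, 0, 0, 0, 1, 1, 0], [3, 2, 2, 1, 3, 2, 1]] _ _ 706256432013 719588405820 _ (by
  decide +kernel) ok265 ok266

theorem nd561 : Ok 4 Dn4 [[2, 1, 1, 1, 2, 1, 0], [1, 1, 0, 0, 1, 1, 0], [1, 1, 1, 0, 2, 1, 0],
  [1, 1, 1, 1, 1, 1, 0], [2, 2, 2, 1, 3, 1, 1], [0, 0, 0, 0, 1, 1, 0], [1, 1, 1, 0, 1, 1, 1]]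
  140187732016639 [78, 78, 78, 126, 84, 156, 210] 843754765840 :=
  cut4 4 5 1 1 1 _ [[2, 1, 1, 1, 2, 1, 0], [1, 1, 0, 0, 1, 1, 0], [1, 1, 1, 0, 2, 1, 0], [1, 1,
  1, 1, 1, 1, 0], [2, 2, 2, 1, 4, 2, 1], [0, 0, 0, 0, 1, 1, 0], [1, 1, 1, 0, 1, 1, 1]] [[2, 1, 1,
  1, 2, 1, 0], [1, 1, 0, 0, 1, 1, 0], [1, 1, 1, 0, 2, 1, 0], [1, 1, 1, 1, 1, 1, 0], [2, 2, 2, 1,
  3, 1, 1], [2, 2, 2, 1, 4, 2, 1], [1, 1, 1, 0, 1, 1, 1]] _ _ 711970135074 1634462550436 _ (by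
  decide +kernel) nd560 ok267

theorem nd562 : Ok 4 Dn4 [[2, 1, 1, 1, 2, 1, 0], [1, 1, 0, 0, 1, 1, 0], [1, 1, 1, 0, 2, 1, 0],
  [1, 1, 1, 1, 1, 1, 0], [2, 2, 2, 1, 3, 1, 1], [0, 0, 0, 0, 1, 1, 0], [1, 1, 1, 0, 1, 1, 1]]
  140186658274815 [64, 76, 76, 124, 70, 154, 196] 843754765840 :=
  dec4 1 14 1 _ _ 140187732016639 _ [78, 78, 78, 126, 84, 156, 210] _ (by decide +kernel) nd561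

theorem nd563 : Ok 4 Dn4 [[2, 1, 1, 1, 2, 1, 0], [1, 1, 0, 0, 1, 1, 0], [1, 1, 1, 0, 2, 1, 0],
  [1, 1, 1, 1, 1, 1, 0], [2, 2, 2, 1, 3, 1, 1], [0, 0, 0, 0, 1, 1, 0], [1, 1, 1, 0, 1, 1, 1]]
  140186658274813 [64, 76, 76, 124, 70, 154, 196] 843754765840 :=
  dec4 0 1 0 _ _ 140186658274815 _ [64, 76, 76, 124, 70, 154, 196] _ (by decide +kernel) nd562

theorem nd564 : Ok 4 Dn4 [[1, 0, 0, 0, 1, 0, 0], [1, 1, 0, 0, 1, 1, 0], [1, 1, 1, 0, 2, 1, 0],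
  [2, 1, 1, 1, 3, 2, 0], [2, 2, 2, 1, 4, 2, 1], [0, 0, 0, 0, 1, 1, 0], [3, 2, 2, 1, 4, 3, 1]]
  140737487831037 [68, 104, 104, 128, 74, 182, 224] 136061841378 :=
  cut4 0 6 1 1 1 _ [[4, 2, 2, 1, 5, 3, 1], [1, 1, 0, 0, 1, 1, 0], [1, 1, 1, 0, 2, 1, 0], [2, 1,
  1, 1, 3, 2, 0], [2, 2, 2, 1, 4, 2, 1], [0, 0, 0, 0, 1, 1, 0], [3, 2, 2, 1, 4, 3, 1]] [[1, 0, 0,
  0, 1, 0, 0], [1, 1, 0, 0, 1, 1, 0], [1, 1, 1, 0, 2, 1, 0], [2, 1, 1, 1, 3, 2, 0], [2, 2, 2, 1,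
  4, 2, 1], [0, 0, 0, 0, 1, 1, 0], [4, 2, 2, 1, 5, 3, 1]] _ _ 321004880526 112943961484 _ (by
  decide +kernel) ok270 ok271

theorem nd565 : Ok 4 Dn4 [[1, 0, 0, 0, 1, 0, 0], [1, 1, 0, 0, 1, 1, 0], [1, 1, 1, 0, 2, 1, 0],
  [2, 1, 1, 1, 2, 1, 0], [2, 2, 2, 1, 4, 2, 1], [0, 0, 0, 0, 1, 1, 0], [3, 2, 2, 1, 4, 3, 1]]
  140737487831037 [68, 104, 104, 128, 74, 182, 224] 198148402447 :=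
  cut4 3 5 1 1 1 _ [[1, 0, 0, 0, 1, 0, 0], [1, 1, 0, 0, 1, 1, 0], [1, 1, 1, 0, 2, 1, 0], [2, 1,
  1, 1, 3, 2, 0], [2, 2, 2, 1, 4, 2, 1], [0, 0, 0, 0, 1, 1, 0], [3, 2, 2, 1, 4, 3, 1]] [[1, 0, 0,
  0, 1, 0, 0], [1, 1, 0, 0, 1, 1, 0], [1, 1, 1, 0, 2, 1, 0], [2, 1, 1, 1, 2, 1, 0], [2, 2, 2, 1,
  4, 2, 1], [2, 1, 1, 1, 3, 2, 0], [3, 2, 2, 1, 4, 3, 1]] _ _ 136061841378 446494646721 _ (by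
  decide +kernel) nd564 ok272

theorem nd566 : Ok 4 Dn4 [[1, 0, 0, 0, 1, 0, 0], [1, 1, 0, 0, 1, 1, 0], [1, 1, 1, 0, 2, 1, 0],
  [2, 1, 1, 1, 2, 1, 0], [2, 2, 2, 1, 4, 2, 1], [0, 0, 0, 0, 1, 1, 0], [3, 2, 2, 1, 4, 3, 1]]
  140187732017149 [68, 104, 104, 128, 74, 182, 224] 198148402447 :=
  dec4 2 7 0 _ _ 140737487831037 _ [68, 104, 104, 128, 74, 182, 224] _ (by decide +kernel) nd565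

theorem nd567 : Ok 4 Dn4 [[1, 0, 0, 0, 1, 0, 0], [1, 1, 0, 0, 1, 1, 0], [1, 1, 1, 0, 2, 1, 0],
  [2, 1, 1, 1, 2, 1, 0], [2, 2, 2, 1, 3, 1, 1], [0, 0, 0, 0, 1, 1, 0], [3, 2, 2, 1, 4, 3, 1]]
  140187732017149 [68, 104, 104, 128, 74, 182, 224] 246116724694 :=
  cut4 4 5 1 1 1 _ [[1, 0, 0, 0, 1, 0, 0], [1, 1, 0, 0, 1, 1, 0], [1, 1, 1, 0, 2, 1, 0], [2, 1,
  1, 1, 2, 1, 0], [2, 2, 2, 1, 4, 2, 1], [0, 0, 0, 0, 1, 1, 0], [3, 2, 2, 1, 4, 3, 1]] [[1, 0, 0,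
  0, 1, 0, 0], [1, 1, 0, 0, 1, 1, 0], [1, 1, 1, 0, 2, 1, 0], [2, 1, 1, 1, 2, 1, 0], [2, 2, 2, 1,
  3, 1, 1], [2, 2, 2, 1, 4, 2, 1], [3, 2, 2, 1, 4, 3, 1]] _ _ 198148402447 533926658174 _ (by
  decide +kernel) nd566 ok273

theorem nd568 : Ok 4 Dn4 [[1, 0, 0, 0, 1, 0, 0], [1, 1, 0, 0, 1, 1, 0], [1, 1, 1, 0, 2, 1, 0],
  [2, 1, 1, 1, 2, 1, 0], [2, 2, 2, 1, 3, 1, 1], [0, 0, 0, 0, 1, 1, 0], [3, 2, 2, 1, 3, 2, 1]]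
  140187732017149 [68, 104, 104, 128, 74, 182, 224] 279444576620 :=
  cut4 5 6 1 1 1 _ [[1, 0, 0, 0, 1, 0, 0], [1, 1, 0, 0, 1, 1, 0], [1, 1, 1, 0, 2, 1, 0], [2, 1,
  1, 1, 2, 1, 0], [2, 2, 2, 1, 3, 1, 1], [3, 2, 2, 1, 4, 3, 1], [3, 2, 2, 1, 3, 2, 1]] [[1, 0, 0,
  0, 1, 0, 0], [1, 1, 0, 0, 1, 1, 0], [1, 1, 1, 0, 2, 1, 0], [2, 1, 1, 1, 2, 1, 0], [2, 2, 2, 1,
  3, 1, 1], [0, 0, 0, 0, 1, 1, 0], [3, 2, 2, 1, 4, 3, 1]] _ _ 512739540095 246116724694 _ (by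
  decide +kernel) ok269 nd567

theorem nd569 : Ok 4 Dn4 [[1, 0, 0, 0, 1, 0, 0], [1, 1, 0, 0, 1, 1, 0], [1, 1, 1, 0, 2, 1, 0],
  [2, 1, 1, 1, 2, 1, 0], [2, 2, 2, 1, 3, 1, 1], [0, 0, 0, 0, 1, 1, 0], [3, 2, 2, 1, 3, 2, 1]]
  140187732016637 [64, 76, 76, 124, 70, 154, 196] 279444576620 :=
  dec4 0 9 1 _ _ 140187732017149 _ [68, 104, 104, 128, 74, 182, 224] _ (by decide +kernel) nd568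

theorem nd570 : Ok 4 Dn4 [[1, 0, 0, 0, 1, 0, 0], [1, 1, 0, 0, 1, 1, 0], [1, 1, 1, 0, 2, 1, 0],
  [2, 1, 1, 1, 2, 1, 0], [2, 2, 2, 1, 3, 1, 1], [0, 0, 0, 0, 1, 1, 0], [1, 1, 1, 0, 1, 1, 1]]
  140187732016637 [64, 76, 76, 124, 70, 154, 196] 216596256859 :=
  cut4 3 6 1 1 1 _ [[1, 0, 0, 0, 1, 0, 0], [1, 1, 0, 0, 1, 1, 0], [1, 1, 1, 0, 2, 1, 0], [3, 2,
  2, 1, 3, 2, 1], [2, 2, 2, 1, 3, 1, 1], [0, 0, 0, 0, 1, 1, 0], [1, 1, 1, 0, 1, 1, 1]] [[1, 0, 0,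
  0, 1, 0, 0], [1, 1, 0, 0, 1, 1, 0], [1, 1, 1, 0, 2, 1, 0], [2, 1, 1, 1, 2, 1, 0], [2, 2, 2, 1,
  3, 1, 1], [0, 0, 0, 0, 1, 1, 0], [3, 2, 2, 1, 3, 2, 1]] _ _ 169460017037 279444576620 _ (by
  decide +kernel) ok268 nd569

theorem nd571 : Ok 4 Dn4 [[1, 0, 0, 0, 1, 0, 0], [1, 1, 0, 0, 1, 1, 0], [1, 1, 1, 0, 2, 1, 0],
  [2, 1, 1, 1, 2, 1, 0], [2, 2, 2, 1, 3, 1, 1], [0, 0, 0, 0, 1, 1, 0], [1, 1, 1, 0, 1, 1, 1]]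
  140186658274813 [64, 76, 76, 124, 70, 154, 196] 216596256859 :=
  dec4 1 14 0 _ _ 140187732016637 _ [64, 76, 76, 124, 70, 154, 196] _ (by decide +kernel) nd570

theorem nd572 : Ok 4 Dn4 [[1, 0, 0, 0, 1, 0, 0], [1, 1, 0, 0, 1, 1, 0], [1, 1, 1, 0, 2, 1, 0],
  [1, 1, 1, 1, 1, 1, 0], [2, 2, 2, 1, 3, 1, 1], [0, 0, 0, 0, 1, 1, 0], [1, 1, 1, 0, 1, 1, 1]]
  140186658274813 [64, 76, 76, 124, 70, 154, 196] 373385884105 :=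
  cut4 0 3 1 1 1 _ [[2, 1, 1, 1, 2, 1, 0], [1, 1, 0, 0, 1, 1, 0], [1, 1, 1, 0, 2, 1, 0], [1, 1,
  1, 1, 1, 1, 0], [2, 2, 2, 1, 3, 1, 1], [0, 0, 0, 0, 1, 1, 0], [1, 1, 1, 0, 1, 1, 1]] [[1, 0, 0,
  0, 1, 0, 0], [1, 1, 0, 0, 1, 1, 0], [1, 1, 1, 0, 2, 1, 0], [2, 1, 1, 1, 2, 1, 0], [2, 2, 2, 1,
  3, 1, 1], [0, 0, 0, 0, 1, 1, 0], [1, 1, 1, 0, 1, 1, 1]] _ _ 843754765840 216596256859 _ (by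
  decide +kernel) nd563 nd571

theorem nd573 : Ok 4 Dn4 [[1, 0, 0, 0, 1, 0, 0], [1, 1, 0, 0, 1, 1, 0], [1, 1, 1, 0, 1, 0, 0],
  [1, 1, 1, 1, 1, 1, 0], [2, 2, 2, 1, 3, 1, 1], [0, 0, 0, 0, 1, 1, 0], [1, 1, 1, 0, 1, 1, 1]]
  140186658274813 [64, 76, 76, 124, 70, 154, 196] 480235699239 :=
  cut4 2 5 1 1 1 _ [[1, 0, 0, 0, 1, 0, 0], [1, 1, 0, 0, 1, 1, 0], [1, 1, 1, 0, 2, 1, 0], [1, 1,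
  1, 1, 1, 1, 0], [2, 2, 2, 1, 3, 1, 1], [0, 0, 0, 0, 1, 1, 0], [1, 1, 1, 0, 1, 1, 1]] [[1, 0, 0,
  0, 1, 0, 0], [1, 1, 0, 0, 1, 1, 0], [1, 1, 1, 0, 1, 0, 0], [1, 1, 1, 1, 1, 1, 0], [2, 2, 2, 1,
  3, 1, 1], [1, 1, 1, 0, 2, 1, 0], [1, 1, 1, 0, 1, 1, 1]] _ _ 373385884105 693935329507 _ (by
  decide +kernel) nd572 ok274

theorem nd574 : Ok 4 Dn4 [[1, 0, 0, 0, 1, 0, 0], [1, 1, 0, 0, 1, 1, 0], [1, 1, 1, 0, 1, 0, 0],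
  [1, 1, 1, 1, 1, 1, 0], [2, 2, 2, 1, 3, 1, 1], [0, 0, 0, 0, 1, 1, 0], [1, 1, 1, 0, 1, 1, 1]]
  140186658270717 [64, 76, 76, 124, 70, 154, 196] 480235699239 :=
  dec4 0 12 0 _ _ 140186658274813 _ [64, 76, 76, 124, 70, 154, 196] _ (by decide +kernel) nd573

theorem nd575 : Ok 4 Dn4 [[1, 0, 0, 0, 1, 0, 0], [1, 1, 0, 0, 1, 1, 0], [1, 1, 1, 0, 1, 0, 0],
  [1, 1, 1, 1, 1, 1, 0], [2, 2, 2, 1, 3, 1, 1], [0, 0, 0, 0, 1, 1, 0], [1, 1, 1, 0, 1, 1, 1]]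
  140186658269693 [64, 76, 76, 124, 70, 154, 196] 480235699239 :=
  dec4 0 10 0 _ _ 140186658270717 _ [64, 76, 76, 124, 70, 154, 196] _ (by decide +kernel) nd574

theorem nd576 : Ok 4 Dn4 [[1, 0, 0, 0, 1, 0, 0], [2, 2, 1, 1, 3, 1, 0], [1, 1, 1, 0, 2, 1, 0],
  [1, 1, 1, 1, 1, 1, 0], [1, 1, 1, 1, 2, 0, 0], [0, 0, 0, 0, 1, 1, 0], [2, 2, 2, 1, 3, 1, 1]]
  140186658799613 [124, 136, 136, 136, 82, 238, 280] 335379543325 :=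
  cut4 4 5 1 1 1 _ [[1, 0, 0, 0, 1, 0, 0], [2, 2, 1, 1, 3, 1, 0], [1, 1, 1, 0, 2, 1, 0], [1, 1,
  1, 1, 1, 1, 0], [1, 1, 1, 1, 3, 1, 0], [0, 0, 0, 0, 1, 1, 0], [2, 2, 2, 1, 3, 1, 1]] [[1, 0, 0,
  0, 1, 0, 0], [2, 2, 1, 1, 3, 1, 0], [1, 1, 1, 0, 2, 1, 0], [1, 1, 1, 1, 1, 1, 0], [1, 1, 1, 1,
  2, 0, 0], [1, 1, 1, 1, 3, 1, 0], [2, 2, 2, 1, 3, 1, 1]] _ _ 249305989070 593600206089 _ (by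
  decide +kernel) ok275 ok276

theorem nd577 : Ok 4 Dn4 [[1, 0, 0, 0, 1, 0, 0], [2, 2, 1, 1, 3, 1, 0], [1, 1, 1, 0, 1, 0, 0],
  [1, 1, 1, 1, 1, 1, 0], [1, 1, 1, 1, 2, 0, 0], [0, 0, 0, 0, 1, 1, 0], [2, 2, 2, 1, 3, 1, 1]]
  140186658799613 [124, 136, 136, 136, 82, 238, 280] 350247595018 :=
  cut4 2 5 1 1 1 _ [[1, 0, 0, 0, 1, 0, 0], [2, 2, 1, 1, 3, 1, 0], [1, 1, 1, 0, 2, 1, 0], [1, 1,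
  1, 1, 1, 1, 0], [1, 1, 1, 1, 2, 0, 0], [0, 0, 0, 0, 1, 1, 0], [2, 2, 2, 1, 3, 1, 1]] [[1, 0, 0,
  0, 1, 0, 0], [2, 2, 1, 1, 3, 1, 0], [1, 1, 1, 0, 1, 0, 0], [1, 1, 1, 1, 1, 1, 0], [1, 1, 1, 1,
  2, 0, 0], [1, 1, 1, 0, 2, 1, 0], [2, 2, 2, 1, 3, 1, 1]] _ _ 335379543325 379983698402 _ (by
  decide +kernel) nd576 ok277

theorem nd578 : Ok 4 Dn4 [[1, 0, 0, 0, 1, 0, 0], [2, 2, 1, 1, 3, 1, 0], [1, 1, 1, 0, 1, 0, 0],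
  [1, 1, 1, 1, 1, 1, 0], [1, 1, 1, 1, 2, 0, 0], [0, 0, 0, 0, 1, 1, 0], [2, 2, 2, 1, 3, 1, 1]]
  140186658275325 [124, 136, 136, 136, 82, 238, 280] 350247595018 :=
  dec4 1 3 0 _ _ 140186658799613 _ [124, 136, 136, 136, 82, 238, 280] _ (by decide +kernel) nd577

theorem nd579 : Ok 4 Dn4 [[1, 0, 0, 0, 1, 0, 0], [2, 2, 1, 1, 3, 1, 0], [1, 1, 1, 0, 1, 0, 0],
  [1, 1, 1, 1, 1, 1, 0], [1, 1, 1, 1, 2, 0, 0], [0, 0, 0, 0, 1, 1, 0], [2, 2, 2, 1, 3, 1, 1]]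
  140186658271229 [96, 108, 132, 132, 78, 210, 252] 350247595018 :=
  dec4 0 12 1 _ _ 140186658275325 _ [124, 136, 136, 136, 82, 238, 280] _ (by decide +kernel) nd578

theorem nd580 : Ok 4 Dn4 [[1, 0, 0, 0, 1, 0, 0], [1, 1, 0, 0, 1, 1, 0], [1, 1, 1, 0, 2, 1, 0],
  [2, 1, 1, 1, 2, 1, 0], [2, 2, 1, 1, 3, 1, 0], [0, 0, 0, 0, 1, 1, 0], [2, 2, 2, 1, 4, 2, 1]]
  140737487831037 [96, 108, 132, 132, 78, 210, 252] 96542788031 :=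
  cut4 3 5 1 1 1 _ [[1, 0, 0, 0, 1, 0, 0], [1, 1, 0, 0, 1, 1, 0], [1, 1, 1, 0, 2, 1, 0], [2, 1,
  1, 1, 3, 2, 0], [2, 2, 1, 1, 3, 1, 0], [0, 0, 0, 0, 1, 1, 0], [2, 2, 2, 1, 4, 2, 1]] [[1, 0, 0,
  0, 1, 0, 0], [1, 1, 0, 0, 1, 1, 0], [1, 1, 1, 0, 2, 1, 0], [2, 1, 1, 1, 2, 1, 0], [2, 2, 1, 1,
  3, 1, 0], [2, 1, 1, 1, 3, 2, 0], [2, 2, 2, 1, 4, 2, 1]] _ _ 68385438433 209172186419 _ (by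
  decide +kernel) ok280 ok281

theorem nd581 : Ok 4 Dn4 [[1, 0, 0, 0, 1, 0, 0], [1, 1, 0, 0, 1, 1, 0], [1, 1, 1, 0, 2, 1, 0],
  [2, 1, 1, 1, 2, 1, 0], [2, 2, 1, 1, 3, 1, 0], [0, 0, 0, 0, 1, 1, 0], [2, 2, 2, 1, 4, 2, 1]]
  140187732017149 [96, 108, 132, 132, 78, 210, 252] 96542788031 :=
  dec4 2 7 0 _ _ 140737487831037 _ [96, 108, 132, 132, 78, 210, 252] _ (by decide +kernel) nd580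

theorem nd582 : Ok 4 Dn4 [[1, 0, 0, 0, 1, 0, 0], [1, 1, 0, 0, 1, 1, 0], [1, 1, 1, 0, 2, 1, 0],
  [2, 1, 1, 1, 2, 1, 0], [2, 2, 1, 1, 3, 1, 0], [0, 0, 0, 0, 1, 1, 0], [2, 2, 2, 1, 3, 1, 1]]
  140187732017149 [96, 108, 132, 132, 78, 210, 252] 121551242969 :=
  cut4 5 6 1 1 1 _ [[1, 0, 0, 0, 1, 0, 0], [1, 1, 0, 0, 1, 1, 0], [1, 1, 1, 0, 2, 1, 0], [2, 1,
  1, 1, 2, 1, 0], [2, 2, 1, 1, 3, 1, 0], [2, 2, 2, 1, 4, 2, 1], [2, 2, 2, 1, 3, 1, 1]] [[1, 0, 0,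
  0, 1, 0, 0], [1, 1, 0, 0, 1, 1, 0], [1, 1, 1, 0, 2, 1, 0], [2, 1, 1, 1, 2, 1, 0], [2, 2, 1, 1,
  3, 1, 0], [0, 0, 0, 0, 1, 1, 0], [2, 2, 2, 1, 4, 2, 1]] _ _ 271601972591 96542788031 _ (by
  decide +kernel) ok279 nd581

theorem nd583 : Ok 4 Dn4 [[1, 0, 0, 0, 1, 0, 0], [1, 1, 0, 0, 1, 1, 0], [1, 1, 1, 0, 2, 1, 0],
  [2, 1, 1, 1, 2, 1, 0], [2, 2, 1, 1, 3, 1, 0], [0, 0, 0, 0, 1, 1, 0], [2, 2, 2, 1, 3, 1, 1]]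
  140186658275325 [96, 108, 132, 132, 78, 210, 252] 121551242969 :=
  dec4 1 14 0 _ _ 140187732017149 _ [96, 108, 132, 132, 78, 210, 252] _ (by decide +kernel) nd582

theorem nd584 : Ok 4 Dn4 [[1, 0, 0, 0, 1, 0, 0], [1, 1, 0, 0, 1, 1, 0], [1, 1, 1, 0, 2, 1, 0],
  [1, 1, 1, 1, 1, 1, 0], [2, 2, 1, 1, 3, 1, 0], [0, 0, 0, 0, 1, 1, 0], [2, 2, 2, 1, 3, 1, 1]]
  140186658275325 [96, 108, 132, 132, 78, 210, 252] 205034266964 :=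
  cut4 0 3 1 1 1 _ [[2, 1, 1, 1, 2, 1, 0], [1, 1, 0, 0, 1, 1, 0], [1, 1, 1, 0, 2, 1, 0], [1, 1,
  1, 1, 1, 1, 0], [2, 2, 1, 1, 3, 1, 0], [0, 0, 0, 0, 1, 1, 0], [2, 2, 2, 1, 3, 1, 1]] [[1, 0, 0,
  0, 1, 0, 0], [1, 1, 0, 0, 1, 1, 0], [1, 1, 1, 0, 2, 1, 0], [2, 1, 1, 1, 2, 1, 0], [2, 2, 1, 1,
  3, 1, 0], [0, 0, 0, 0, 1, 1, 0], [2, 2, 2, 1, 3, 1, 1]] _ _ 455483338947 121551242969 _ (by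
  decide +kernel) ok278 nd583

theorem nd585 : Ok 4 Dn4 [[1, 0, 0, 0, 1, 0, 0], [1, 1, 0, 0, 1, 1, 0], [1, 1, 1, 0, 1, 0, 0],
  [1, 1, 1, 1, 1, 1, 0], [2, 2, 1, 1, 3, 1, 0], [0, 0, 0, 0, 1, 1, 0], [2, 2, 2, 1, 3, 1, 1]]
  140186658275325 [96, 108, 132, 132, 78, 210, 252] 240849961590 :=
  cut4 2 5 1 1 1 _ [[1, 0, 0, 0, 1, 0, 0], [1, 1, 0, 0, 1, 1, 0], [1, 1, 1, 0, 2, 1, 0], [1, 1,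
  1, 1, 1, 1, 0], [2, 2, 1, 1, 3, 1, 0], [0, 0, 0, 0, 1, 1, 0], [2, 2, 2, 1, 3, 1, 1]] [[1, 0, 0,
  0, 1, 0, 0], [1, 1, 0, 0, 1, 1, 0], [1, 1, 1, 0, 1, 0, 0], [1, 1, 1, 1, 1, 1, 0], [2, 2, 1, 1,
  3, 1, 0], [1, 1, 1, 0, 2, 1, 0], [2, 2, 2, 1, 3, 1, 1]] _ _ 205034266964 312481350842 _ (by
  decide +kernel) nd584 ok282

theorem nd586 : Ok 4 Dn4 [[1, 0, 0, 0, 1, 0, 0], [1, 1, 0, 0, 1, 1, 0], [1, 1, 1, 0, 1, 0, 0],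
  [1, 1, 1, 1, 1, 1, 0], [2, 2, 1, 1, 3, 1, 0], [0, 0, 0, 0, 1, 1, 0], [2, 2, 2, 1, 3, 1, 1]]
  140186658271229 [96, 108, 132, 132, 78, 210, 252] 240849961590 :=
  dec4 0 12 0 _ _ 140186658275325 _ [96, 108, 132, 132, 78, 210, 252] _ (by decide +kernel) nd585

theorem nd587 : Ok 4 Dn4 [[1, 0, 0, 0, 1, 0, 0], [1, 1, 0, 0, 1, 1, 0], [1, 1, 1, 0, 1, 0, 0],
  [1, 1, 1, 1, 1, 1, 0], [1, 1, 1, 1, 2, 0, 0], [0, 0, 0, 0, 1, 1, 0], [2, 2, 2, 1, 3, 1, 1]]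
  140186658271229 [96, 108, 132, 132, 78, 210, 252] 284609014962 :=
  cut4 1 4 1 1 1 _ [[1, 0, 0, 0, 1, 0, 0], [2, 2, 1, 1, 3, 1, 0], [1, 1, 1, 0, 1, 0, 0], [1, 1,
  1, 1, 1, 1, 0], [1, 1, 1, 1, 2, 0, 0], [0, 0, 0, 0, 1, 1, 0], [2, 2, 2, 1, 3, 1, 1]] [[1, 0, 0,
  0, 1, 0, 0], [1, 1, 0, 0, 1, 1, 0], [1, 1, 1, 0, 1, 0, 0], [1, 1, 1, 1, 1, 1, 0], [2, 2, 1, 1,
  3, 1, 0], [0, 0, 0, 0, 1, 1, 0], [2, 2, 2, 1, 3, 1, 1]] _ _ 350247595018 240849961590 _ (by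
  decide +kernel) nd579 nd586

theorem nd588 : Ok 4 Dn4 [[1, 0, 0, 0, 1, 0, 0], [1, 1, 0, 0, 1, 1, 0], [1, 1, 1, 0, 1, 0, 0],
  [1, 1, 1, 1, 1, 1, 0], [1, 1, 1, 1, 2, 0, 0], [0, 0, 0, 0, 1, 1, 0], [2, 2, 2, 1, 3, 1, 1]]
  140186658270205 [68, 104, 104, 128, 74, 182, 224] 284609014962 :=
  dec4 0 10 1 _ _ 140186658271229 _ [96, 108, 132, 132, 78, 210, 252] _ (by decide +kernel) nd587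

theorem nd589 : Ok 4 Dn4 [[1, 0, 0, 0, 1, 0, 0], [1, 1, 0, 0, 1, 1, 0], [1, 1, 1, 0, 1, 0, 0],
  [1, 1, 1, 1, 1, 1, 0], [1, 1, 1, 1, 2, 0, 0], [0, 0, 0, 0, 1, 1, 0], [2, 2, 2, 1, 3, 1, 1]]
  140186658269693 [64, 76, 76, 124, 70, 154, 196] 284609014962 :=
  dec4 0 9 1 _ _ 140186658270205 _ [68, 104, 104, 128, 74, 182, 224] _ (by decide +kernel) nd588

theorem nd590 : Ok 4 Dn4 [[1, 0, 0, 0, 1, 0, 0], [1, 1, 0, 0, 1, 1, 0], [1, 1, 1, 0, 1, 0, 0],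
  [1, 1, 1, 1, 1, 1, 0], [1, 1, 1, 1, 2, 0, 0], [0, 0, 0, 0, 1, 1, 0], [1, 1, 1, 0, 1, 1, 1]]
  140186658269693 [64, 76, 76, 124, 70, 154, 196] 382422357101 :=
  cut4 4 6 1 1 1 _ [[1, 0, 0, 0, 1, 0, 0], [1, 1, 0, 0, 1, 1, 0], [1, 1, 1, 0, 1, 0, 0], [1, 1,
  1, 1, 1, 1, 0], [2, 2, 2, 1, 3, 1, 1], [0, 0, 0, 0, 1, 1, 0], [1, 1, 1, 0, 1, 1, 1]] [[1, 0, 0,
  0, 1, 0, 0], [1, 1, 0, 0, 1, 1, 0], [1, 1, 1, 0, 1, 0, 0], [1, 1, 1, 1, 1, 1, 0], [1, 1, 1, 1,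
  2, 0, 0], [0, 0, 0, 0, 1, 1, 0], [2, 2, 2, 1, 3, 1, 1]] _ _ 480235699239 284609014962 _ (by
  decide +kernel) nd575 nd589

theorem nd591 : Ok 4 Dn4 [[1, 0, 0, 0, 1, 0, 0], [1, 1, 0, 0, 1, 1, 0], [1, 1, 1, 0, 1, 0, 0],
  [1, 1, 1, 1, 1, 1, 0], [1, 1, 1, 1, 2, 0, 0], [0, 0, 0, 0, 1, 1, 0], [1, 1, 1, 0, 1, 1, 1]]
  131390565247485 [64, 76, 76, 124, 70, 154, 196] 382422357101 :=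
  dec4 2 11 0 _ _ 140186658269693 _ [64, 76, 76, 124, 70, 154, 196] _ (by decide +kernel) nd590

theorem nd592 : Ok 4 Dn4 [[1, 0, 0, 0, 1, 0, 0], [1, 1, 0, 0, 1, 1, 0], [1, 1, 1, 0, 1, 0, 0],
  [1, 1, 1, 1, 1, 1, 0], [1, 1, 1, 1, 2, 0, 0], [0, 0, 0, 0, 1, 1, 0], [1, 1, 1, 0, 1, 1, 1]]
  131356205509117 [64, 76, 76, 124, 70, 154, 196] 382422357101 :=
  dec4 2 3 0 _ _ 131390565247485 _ [64, 76, 76, 124, 70, 154, 196] _ (by decide +kernel) nd591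

theorem nd593 : Ok 4 Dn4 [[1, 0, 0, 0, 1, 0, 0], [1, 1, 0, 0, 0, 0, 0], [1, 1, 1, 0, 1, 0, 0],
  [1, 1, 1, 1, 1, 1, 0], [2, 2, 2, 1, 3, 1, 1], [1, 1, 0, 0, 1, 1, 0], [2, 1, 1, 0, 2, 1, 1]]
  281439542706173 [73, 109, 121, 145, 109, 217, 229] 395320138017 :=
  cut4 1 4 1 1 1 _ [[1, 0, 0, 0, 1, 0, 0], [3, 3, 2, 1, 3, 1, 1], [1, 1, 1, 0, 1, 0, 0], [1, 1,
  1, 1, 1, 1, 0], [2, 2, 2, 1, 3, 1, 1], [1, 1, 0, 0, 1, 1, 0], [2, 1, 1, 0, 2, 1, 1]] [[1, 0, 0,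
  0, 1, 0, 0], [1, 1, 0, 0, 0, 0, 0], [1, 1, 1, 0, 1, 0, 0], [1, 1, 1, 1, 1, 1, 0], [3, 3, 2, 1,
  3, 1, 1], [1, 1, 0, 0, 1, 1, 0], [2, 1, 1, 0, 2, 1, 1]] _ _ 625287593961 356992228693 _ (by
  decide +kernel) ok284 ok285

theorem nd594 : Ok 4 Dn4 [[1, 0, 0, 0, 1, 0, 0], [1, 1, 0, 0, 0, 0, 0], [1, 1, 1, 0, 1, 0, 0],
  [1, 1, 1, 1, 1, 1, 0], [2, 2, 2, 1, 3, 1, 1], [1, 1, 0, 0, 1, 1, 0], [2, 1, 1, 0, 2, 1, 1]]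
  281439542705661 [69, 81, 93, 141, 105, 189, 201] 395320138017 :=
  dec4 0 9 1 _ _ 281439542706173 _ [73, 109, 121, 145, 109, 217, 229] _ (by decide +kernel) nd593

theorem nd595 : Ok 4 Dn4 [[1, 0, 0, 0, 1, 0, 0], [1, 1, 0, 0, 0, 0, 0], [1, 1, 1, 0, 1, 0, 0],
  [1, 1, 1, 1, 1, 1, 0], [2, 2, 2, 1, 3, 1, 1], [1, 1, 0, 0, 1, 1, 0], [1, 1, 1, 0, 1, 1, 1]]
  281439542705661 [69, 81, 93, 141, 105, 189, 201] 578524670063 :=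
  cut4 0 6 1 1 1 _ [[2, 1, 1, 0, 2, 1, 1], [1, 1, 0, 0, 0, 0, 0], [1, 1, 1, 0, 1, 0, 0], [1, 1,
  1, 1, 1, 1, 0], [2, 2, 2, 1, 3, 1, 1], [1, 1, 0, 0, 1, 1, 0], [1, 1, 1, 0, 1, 1, 1]] [[1, 0, 0,
  0, 1, 0, 0], [1, 1, 0, 0, 0, 0, 0], [1, 1, 1, 0, 1, 0, 0], [1, 1, 1, 1, 1, 1, 0], [2, 2, 2, 1,
  3, 1, 1], [1, 1, 0, 0, 1, 1, 0], [2, 1, 1, 0, 2, 1, 1]] _ _ 1128138266199 395320138017 _ (by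
  decide +kernel) ok283 nd594

theorem nd596 : Ok 4 Dn4 [[1, 0, 0, 0, 1, 0, 0], [1, 1, 0, 0, 0, 0, 0], [1, 1, 1, 0, 1, 0, 0],
  [1, 1, 1, 1, 1, 1, 0], [2, 2, 2, 1, 3, 1, 1], [1, 1, 0, 0, 1, 1, 0], [1, 1, 1, 0, 1, 1, 1]]
  281439542701565 [69, 81, 93, 141, 105, 189, 201] 578524670063 :=
  dec4 0 12 0 _ _ 281439542705661 _ [69, 81, 93, 141, 105, 189, 201] _ (by decide +kernel) nd595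

theorem nd597 : Ok 4 Dn4 [[1, 0, 0, 0, 1, 0, 0], [1, 1, 0, 0, 0, 0, 0], [1, 1, 1, 0, 1, 0, 0],
  [1, 1, 1, 1, 1, 1, 0], [2, 2, 2, 1, 3, 1, 1], [1, 1, 0, 0, 1, 1, 0], [1, 1, 1, 0, 1, 1, 1]]
  281439542700541 [69, 81, 93, 141, 105, 189, 201] 578524670063 :=
  dec4 0 10 0 _ _ 281439542701565 _ [69, 81, 93, 141, 105, 189, 201] _ (by decide +kernel) nd596

theorem nd598 : Ok 4 Dn4 [[1, 0, 0, 0, 1, 0, 0], [1, 1, 0, 0, 0, 0, 0], [1, 1, 1, 0, 1, 0, 0],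
  [2, 1, 1, 1, 2, 1, 0], [2, 2, 1, 1, 2, 0, 0], [1, 1, 0, 0, 1, 1, 0], [2, 2, 2, 1, 3, 1, 1]]
  281440616447997 [101, 113, 149, 149, 113, 245, 257] 122814913323 :=
  cut4 1 6 1 1 1 _ [[1, 0, 0, 0, 1, 0, 0], [3, 3, 2, 1, 3, 1, 1], [1, 1, 1, 0, 1, 0, 0], [2, 1,
  1, 1, 2, 1, 0], [2, 2, 1, 1, 2, 0, 0], [1, 1, 0, 0, 1, 1, 0], [2, 2, 2, 1, 3, 1, 1]] [[1, 0, 0,
  0, 1, 0, 0], [1, 1, 0, 0, 0, 0, 0], [1, 1, 1, 0, 1, 0, 0], [2, 1, 1, 1, 2, 1, 0], [2, 2, 1, 1,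
  2, 0, 0], [1, 1, 0, 0, 1, 1, 0], [3, 3, 2, 1, 3, 1, 1]] _ _ 302321241033 92897192037 _ (by
  decide +kernel) ok288 ok289

theorem nd599 : Ok 4 Dn4 [[1, 0, 0, 0, 1, 0, 0], [1, 1, 0, 0, 0, 0, 0], [1, 1, 1, 0, 1, 0, 0],
  [2, 1, 1, 1, 2, 1, 0], [2, 2, 1, 1, 2, 0, 0], [1, 1, 0, 0, 1, 1, 0], [2, 2, 2, 1, 3, 1, 1]]
  281439542706173 [101, 113, 149, 149, 113, 245, 257] 122814913323 :=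
  dec4 1 14 0 _ _ 281440616447997 _ [101, 113, 149, 149, 113, 245, 257] _ (by decide +kernel)
  nd598

theorem nd600 : Ok 4 Dn4 [[1, 0, 0, 0, 1, 0, 0], [1, 1, 0, 0, 0, 0, 0], [1, 1, 1, 0, 1, 0, 0],
  [1, 1, 1, 1, 1, 1, 0], [2, 2, 1, 1, 2, 0, 0], [1, 1, 0, 0, 1, 1, 0], [2, 2, 2, 1, 3, 1, 1]]
  281439542706173 [101, 113, 149, 149, 113, 245, 257] 211051982527 :=
  cut4 0 3 1 1 1 _ [[2, 1, 1, 1, 2, 1, 0], [1, 1, 0, 0, 0, 0, 0], [1, 1, 1, 0, 1, 0, 0], [1, 1,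
  1, 1, 1, 1, 0], [2, 2, 1, 1, 2, 0, 0], [1, 1, 0, 0, 1, 1, 0], [2, 2, 2, 1, 3, 1, 1]] [[1, 0, 0,
  0, 1, 0, 0], [1, 1, 0, 0, 0, 0, 0], [1, 1, 1, 0, 1, 0, 0], [2, 1, 1, 1, 2, 1, 0], [2, 2, 1, 1,
  2, 0, 0], [1, 1, 0, 0, 1, 1, 0], [2, 2, 2, 1, 3, 1, 1]] _ _ 475763190137 122814913323 _ (by
  decide +kernel) ok287 nd599

theorem nd601 : Ok 4 Dn4 [[1, 0, 0, 0, 1, 0, 0], [1, 1, 0, 0, 0, 0, 0], [1, 1, 1, 0, 1, 0, 0],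
  [1, 1, 1, 1, 1, 1, 0], [2, 2, 1, 1, 2, 0, 0], [1, 1, 0, 0, 1, 1, 0], [2, 2, 2, 1, 3, 1, 1]]
  281439542702077 [101, 113, 149, 149, 113, 245, 257] 211051982527 :=
  dec4 0 12 0 _ _ 281439542706173 _ [101, 113, 149, 149, 113, 245, 257] _ (by decide +kernel)
  nd600

theorem nd602 : Ok 4 Dn4 [[1, 0, 0, 0, 1, 0, 0], [1, 1, 0, 0, 0, 0, 0], [1, 1, 1, 0, 1, 0, 0],
  [1, 1, 1, 1, 1, 1, 0], [1, 1, 1, 1, 2, 0, 0], [1, 1, 0, 0, 1, 1, 0], [2, 2, 2, 1, 3, 1, 1]]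
  281439542702077 [101, 113, 149, 149, 113, 245, 257] 242400695655 :=
  cut4 1 4 1 1 1 _ [[1, 0, 0, 0, 1, 0, 0], [2, 2, 1, 1, 2, 0, 0], [1, 1, 1, 0, 1, 0, 0], [1, 1,
  1, 1, 1, 1, 0], [1, 1, 1, 1, 2, 0, 0], [1, 1, 0, 0, 1, 1, 0], [2, 2, 2, 1, 3, 1, 1]] [[1, 0, 0,
  0, 1, 0, 0], [1, 1, 0, 0, 0, 0, 0], [1, 1, 1, 0, 1, 0, 0], [1, 1, 1, 1, 1, 1, 0], [2, 2, 1, 1,
  2, 0, 0], [1, 1, 0, 0, 1, 1, 0], [2, 2, 2, 1, 3, 1, 1]] _ _ 336446835039 211051982527 _ (by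
  decide +kernel) ok286 nd601

theorem nd603 : Ok 4 Dn4 [[1, 0, 0, 0, 1, 0, 0], [1, 1, 0, 0, 0, 0, 0], [1, 1, 1, 0, 1, 0, 0],
  [1, 1, 1, 1, 1, 1, 0], [1, 1, 1, 1, 2, 0, 0], [1, 1, 0, 0, 1, 1, 0], [2, 2, 2, 1, 3, 1, 1]]
  281439542701053 [73, 109, 121, 145, 109, 217, 229] 242400695655 :=
  dec4 0 10 1 _ _ 281439542702077 _ [101, 113, 149, 149, 113, 245, 257] _ (by decide +kernel)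
  nd602

theorem nd604 : Ok 4 Dn4 [[1, 0, 0, 0, 1, 0, 0], [1, 1, 0, 0, 0, 0, 0], [1, 1, 1, 0, 1, 0, 0],
  [1, 1, 1, 1, 1, 1, 0], [1, 1, 1, 1, 2, 0, 0], [1, 1, 0, 0, 1, 1, 0], [2, 2, 2, 1, 3, 1, 1]]
  281439542700541 [69, 81, 93, 141, 105, 189, 201] 242400695655 :=
  dec4 0 9 1 _ _ 281439542701053 _ [73, 109, 121, 145, 109, 217, 229] _ (by decide +kernel) nd603

theorem nd605 : Ok 4 Dn4 [[1, 0, 0, 0, 1, 0, 0], [1, 1, 0, 0, 0, 0, 0], [1, 1, 1, 0, 1, 0, 0],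
  [1, 1, 1, 1, 1, 1, 0], [1, 1, 1, 1, 2, 0, 0], [1, 1, 0, 0, 1, 1, 0], [1, 1, 1, 0, 1, 1, 1]]
  281439542700541 [69, 81, 93, 141, 105, 189, 201] 410462682859 :=
  cut4 4 6 1 1 1 _ [[1, 0, 0, 0, 1, 0, 0], [1, 1, 0, 0, 0, 0, 0], [1, 1, 1, 0, 1, 0, 0], [1, 1,
  1, 1, 1, 1, 0], [2, 2, 2, 1, 3, 1, 1], [1, 1, 0, 0, 1, 1, 0], [1, 1, 1, 0, 1, 1, 1]] [[1, 0, 0,
  0, 1, 0, 0], [1, 1, 0, 0, 0, 0, 0], [1, 1, 1, 0, 1, 0, 0], [1, 1, 1, 1, 1, 1, 0], [1, 1, 1, 1,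
  2, 0, 0], [1, 1, 0, 0, 1, 1, 0], [2, 2, 2, 1, 3, 1, 1]] _ _ 578524670063 242400695655 _ (by
  decide +kernel) nd597 nd604

theorem nd606 : Ok 4 Dn4 [[1, 0, 0, 0, 1, 0, 0], [1, 1, 0, 0, 0, 0, 0], [1, 1, 1, 0, 1, 0, 0],
  [1, 1, 1, 1, 1, 1, 0], [1, 1, 1, 1, 2, 0, 0], [1, 1, 0, 0, 1, 1, 0], [1, 1, 1, 0, 1, 1, 1]]
  140702054345213 [68, 80, 92, 140, 98, 182, 200] 410462682859 :=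
  dec4 2 15 1 _ _ 281439542700541 _ [69, 81, 93, 141, 105, 189, 201] _ (by decide +kernel) nd605

theorem nd607 : Ok 4 Dn4 [[1, 0, 0, 0, 1, 0, 0], [1, 1, 0, 0, 0, 0, 0], [1, 1, 1, 0, 1, 0, 0],
  [1, 1, 1, 1, 1, 1, 0], [1, 1, 1, 1, 2, 0, 0], [1, 1, 0, 0, 1, 1, 0], [1, 1, 1, 0, 1, 1, 1]]
  131905961323005 [66, 78, 78, 138, 84, 168, 198] 410462682859 :=
  dec4 2 11 1 _ _ 140702054345213 _ [68, 80, 92, 140, 98, 182, 200] _ (by decide +kernel) nd606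

theorem nd608 : Ok 4 Dn4 [[1, 0, 0, 0, 1, 0, 0], [1, 1, 0, 0, 0, 0, 0], [1, 1, 1, 0, 1, 0, 0],
  [1, 1, 1, 1, 1, 1, 0], [1, 1, 1, 1, 2, 0, 0], [1, 1, 0, 0, 1, 1, 0], [1, 1, 1, 0, 1, 1, 1]]
  131356205509117 [64, 76, 76, 124, 70, 154, 196] 410462682859 :=
  dec4 2 7 1 _ _ 131905961323005 _ [66, 78, 78, 138, 84, 168, 198] _ (by decide +kernel) nd607

theorem nd609 : Ok 4 Dn4 [[1, 0, 0, 0, 1, 0, 0], [1, 1, 0, 0, 0, 0, 0], [1, 1, 1, 0, 1, 0, 0],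
  [1, 1, 1, 1, 1, 1, 0], [1, 1, 1, 1, 2, 0, 0], [0, 0, 0, 0, 1, 1, 0], [1, 1, 1, 0, 1, 1, 1]]
  131356205509117 [64, 76, 76, 124, 70, 154, 196] 396442519980 :=
  cut4 1 5 1 1 1 _ [[1, 0, 0, 0, 1, 0, 0], [1, 1, 0, 0, 1, 1, 0], [1, 1, 1, 0, 1, 0, 0], [1, 1,
  1, 1, 1, 1, 0], [1, 1, 1, 1, 2, 0, 0], [0, 0, 0, 0, 1, 1, 0], [1, 1, 1, 0, 1, 1, 1]] [[1, 0, 0,
  0, 1, 0, 0], [1, 1, 0, 0, 0, 0, 0], [1, 1, 1, 0, 1, 0, 0], [1, 1, 1, 1, 1, 1, 0], [1, 1, 1, 1,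
  2, 0, 0], [1, 1, 0, 0, 1, 1, 0], [1, 1, 1, 0, 1, 1, 1]] _ _ 382422357101 410462682859 _ (by
  decide +kernel) nd592 nd608

theorem nd610 : Ok 4 Dn4 [[1, 0, 0, 0, 1, 0, 0], [1, 1, 0, 0, 0, 0, 0], [1, 1, 1, 0, 1, 0, 0],
  [1, 1, 1, 1, 1, 1, 0], [1, 1, 1, 1, 2, 0, 0], [0, 0, 0, 0, 1, 1, 0], [1, 1, 1, 0, 1, 1, 1]]
  60987461331453 [64, 76, 76, 124, 70, 154, 196] 396442519980 :=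
  dec4 2 14 0 _ _ 131356205509117 _ [64, 76, 76, 124, 70, 154, 196] _ (by decide +kernel) nd609

theorem nd611 : Ok 4 Dn4 [[1, 0, 0, 0, 1, 0, 0], [1, 1, 0, 0, 0, 0, 0], [1, 1, 1, 0, 1, 0, 0],
  [1, 1, 1, 1, 1, 1, 0], [1, 1, 1, 1, 2, 0, 0], [0, 0, 0, 0, 1, 1, 0], [1, 1, 1, 0, 1, 1, 1]]
  25803089242621 [64, 76, 76, 124, 70, 154, 196] 396442519980 :=
  dec4 2 13 0 _ _ 60987461331453 _ [64, 76, 76, 124, 70, 154, 196] _ (by decide +kernel) nd610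

theorem nd612 : Ok 4 Dn4 [[2, 1, 1, 1, 1, 0, 0], [1, 1, 0, 0, 0, 0, 0], [1, 1, 1, 0, 1, 0, 0],
  [1, 1, 1, 1, 0, 0, 0], [2, 2, 2, 1, 3, 1, 1], [1, 1, 1, 1, 1, 1, 0], [1, 1, 1, 0, 1, 1, 1]]
  281440616447487 [99, 99, 99, 147, 147, 219, 219] 1555254359785 :=
  cut4 3 6 1 1 1 _ [[2, 1, 1, 1, 1, 0, 0], [1, 1, 0, 0, 0, 0, 0], [1, 1, 1, 0, 1, 0, 0], [2, 2,
  2, 1, 1, 1, 1], [2, 2, 2, 1, 3, 1, 1], [1, 1, 1, 1, 1, 1, 0], [1, 1, 1, 0, 1, 1, 1]] [[2, 1, 1,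
  1, 1, 0, 0], [1, 1, 0, 0, 0, 0, 0], [1, 1, 1, 0, 1, 0, 0], [1, 1, 1, 1, 0, 0, 0], [2, 2, 2, 1,
  3, 1, 1], [1, 1, 1, 1, 1, 1, 0], [2, 2, 2, 1, 1, 1, 1]] _ _ 1285234491896 1735267605044 _ (by
  decide +kernel) ok290 ok291

theorem nd613 : Ok 4 Dn4 [[2, 1, 1, 1, 1, 0, 0], [1, 1, 0, 0, 0, 0, 0], [1, 1, 1, 0, 1, 0, 0],
  [1, 1, 1, 1, 0, 0, 0], [2, 2, 2, 1, 3, 1, 1], [1, 1, 1, 1, 1, 1, 0], [1, 1, 1, 0, 1, 1, 1]]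
  211071872269823 [85, 97, 97, 145, 133, 205, 217] 1555254359785 :=
  dec4 2 14 1 _ _ 281440616447487 _ [99, 99, 99, 147, 147, 219, 219] _ (by decide +kernel) nd612

theorem nd614 : Ok 4 Dn4 [[2, 1, 1, 1, 1, 0, 0], [1, 1, 0, 0, 0, 0, 0], [1, 1, 1, 0, 1, 0, 0],
  [1, 1, 1, 1, 0, 0, 0], [2, 2, 2, 1, 3, 1, 1], [1, 1, 1, 1, 1, 1, 0], [1, 1, 1, 0, 1, 1, 1]]
  211070798527999 [71, 95, 95, 143, 119, 203, 203] 1555254359785 :=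
  dec4 1 14 1 _ _ 211071872269823 _ [85, 97, 97, 145, 133, 205, 217] _ (by decide +kernel) nd613

theorem nd615 : Ok 4 Dn4 [[2, 1, 1, 1, 1, 0, 0], [1, 1, 0, 0, 0, 0, 0], [1, 1, 1, 0, 1, 0, 0],
  [1, 1, 1, 1, 0, 0, 0], [2, 2, 2, 1, 3, 1, 1], [1, 1, 1, 1, 1, 1, 0], [1, 1, 1, 0, 1, 1, 1]]
  211070798527997 [71, 95, 95, 143, 119, 203, 203] 1555254359785 :=
  dec4 0 1 0 _ _ 211070798527999 _ [71, 95, 95, 143, 119, 203, 203] _ (by decide +kernel) nd614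

theorem nd616 : Ok 4 Dn4 [[1, 0, 0, 0, 1, 0, 0], [1, 1, 0, 0, 0, 0, 0], [1, 1, 1, 0, 1, 0, 0],
  [3, 2, 2, 1, 2, 1, 1], [2, 2, 2, 1, 3, 1, 1], [1, 1, 1, 1, 1, 1, 0], [2, 1, 1, 0, 2, 1, 1]]
  281439542706173 [75, 123, 123, 147, 123, 231, 231] 508867180977 :=
  cut4 0 5 1 1 1 _ [[2, 1, 1, 1, 2, 1, 0], [1, 1, 0, 0, 0, 0, 0], [1, 1, 1, 0, 1, 0, 0], [3, 2,
  2, 1, 2, 1, 1], [2, 2, 2, 1, 3, 1, 1], [1, 1, 1, 1, 1, 1, 0], [2, 1, 1, 0, 2, 1, 1]] [[1, 0, 0,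
  0, 1, 0, 0], [1, 1, 0, 0, 0, 0, 0], [1, 1, 1, 0, 1, 0, 0], [3, 2, 2, 1, 2, 1, 1], [2, 2, 2, 1,
  3, 1, 1], [2, 1, 1, 1, 2, 1, 0], [2, 1, 1, 0, 2, 1, 1]] _ _ 1016155134143 339771196588 _ (by
  decide +kernel) ok293 ok294

theorem nd617 : Ok 4 Dn4 [[1, 0, 0, 0, 1, 0, 0], [1, 1, 0, 0, 0, 0, 0], [1, 1, 1, 0, 1, 0, 0],
  [3, 2, 2, 1, 2, 1, 1], [2, 2, 2, 1, 3, 1, 1], [1, 1, 1, 1, 1, 1, 0], [2, 1, 1, 0, 2, 1, 1]]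
  281439542705661 [71, 95, 95, 143, 119, 203, 203] 508867180977 :=
  dec4 0 9 1 _ _ 281439542706173 _ [75, 123, 123, 147, 123, 231, 231] _ (by decide +kernel) nd616

theorem nd618 : Ok 4 Dn4 [[1, 0, 0, 0, 1, 0, 0], [1, 1, 0, 0, 0, 0, 0], [1, 1, 1, 0, 1, 0, 0],
  [3, 2, 2, 1, 2, 1, 1], [2, 2, 2, 1, 3, 1, 1], [1, 1, 1, 1, 1, 1, 0], [1, 1, 1, 0, 1, 1, 1]]
  281439542705661 [71, 95, 95, 143, 119, 203, 203] 724172328297 :=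
  cut4 0 6 1 1 1 _ [[2, 1, 1, 0, 2, 1, 1], [1, 1, 0, 0, 0, 0, 0], [1, 1, 1, 0, 1, 0, 0], [3, 2,
  2, 1, 2, 1, 1], [2, 2, 2, 1, 3, 1, 1], [1, 1, 1, 1, 1, 1, 0], [1, 1, 1, 0, 1, 1, 1]] [[1, 0, 0,
  0, 1, 0, 0], [1, 1, 0, 0, 0, 0, 0], [1, 1, 1, 0, 1, 0, 0], [3, 2, 2, 1, 2, 1, 1], [2, 2, 2, 1,
  3, 1, 1], [1, 1, 1, 1, 1, 1, 0], [2, 1, 1, 0, 2, 1, 1]] _ _ 1370087770256 508867180977 _ (by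
  decide +kernel) ok292 nd617

theorem nd619 : Ok 4 Dn4 [[1, 0, 0, 0, 1, 0, 0], [1, 1, 0, 0, 0, 0, 0], [1, 1, 1, 0, 1, 0, 0],
  [2, 1, 1, 1, 1, 0, 0], [2, 2, 2, 1, 3, 1, 1], [1, 1, 1, 1, 1, 1, 0], [1, 1, 1, 0, 1, 1, 1]]
  281439542705661 [71, 95, 95, 143, 119, 203, 203] 764769012363 :=
  cut4 3 6 1 1 1 _ [[1, 0, 0, 0, 1, 0, 0], [1, 1, 0, 0, 0, 0, 0], [1, 1, 1, 0, 1, 0, 0], [3, 2,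
  2, 1, 2, 1, 1], [2, 2, 2, 1, 3, 1, 1], [1, 1, 1, 1, 1, 1, 0], [1, 1, 1, 0, 1, 1, 1]] [[1, 0, 0,
  0, 1, 0, 0], [1, 1, 0, 0, 0, 0, 0], [1, 1, 1, 0, 1, 0, 0], [2, 1, 1, 1, 1, 0, 0], [2, 2, 2, 1,
  3, 1, 1], [1, 1, 1, 1, 1, 1, 0], [3, 2, 2, 1, 2, 1, 1]] _ _ 724172328297 805365696429 _ (by
  decide +kernel) nd618 ok295

theorem nd620 : Ok 4 Dn4 [[1, 0, 0, 0, 1, 0, 0], [1, 1, 0, 0, 0, 0, 0], [1, 1, 1, 0, 1, 0, 0],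
  [2, 1, 1, 1, 1, 0, 0], [2, 2, 2, 1, 3, 1, 1], [1, 1, 1, 1, 1, 1, 0], [1, 1, 1, 0, 1, 1, 1]]
  211070798527997 [71, 95, 95, 143, 119, 203, 203] 764769012363 :=
  dec4 2 14 0 _ _ 281439542705661 _ [71, 95, 95, 143, 119, 203, 203] _ (by decide +kernel) nd619

theorem nd621 : Ok 4 Dn4 [[1, 0, 0, 0, 1, 0, 0], [1, 1, 0, 0, 0, 0, 0], [1, 1, 1, 0, 1, 0, 0],
  [1, 1, 1, 1, 0, 0, 0], [2, 2, 2, 1, 3, 1, 1], [1, 1, 1, 1, 1, 1, 0], [1, 1, 1, 0, 1, 1, 1]]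
  211070798527997 [71, 95, 95, 143, 119, 203, 203] 1028264128171 :=
  cut4 0 3 1 1 1 _ [[2, 1, 1, 1, 1, 0, 0], [1, 1, 0, 0, 0, 0, 0], [1, 1, 1, 0, 1, 0, 0], [1, 1,
  1, 1, 0, 0, 0], [2, 2, 2, 1, 3, 1, 1], [1, 1, 1, 1, 1, 1, 0], [1, 1, 1, 0, 1, 1, 1]] [[1, 0, 0,
  0, 1, 0, 0], [1, 1, 0, 0, 0, 0, 0], [1, 1, 1, 0, 1, 0, 0], [2, 1, 1, 1, 1, 0, 0], [2, 2, 2, 1,
  3, 1, 1], [1, 1, 1, 1, 1, 1, 0], [1, 1, 1, 0, 1, 1, 1]] _ _ 1555254359785 764769012363 _ (by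
  decide +kernel) nd615 nd620

theorem nd622 : Ok 4 Dn4 [[1, 0, 0, 0, 1, 0, 0], [1, 1, 0, 0, 0, 0, 0], [1, 1, 1, 0, 1, 0, 0],
  [1, 1, 1, 1, 0, 0, 0], [2, 2, 2, 1, 3, 1, 1], [1, 1, 1, 1, 1, 1, 0], [1, 1, 1, 0, 1, 1, 1]]
  211070798523901 [71, 95, 95, 143, 119, 203, 203] 1028264128171 :=
  dec4 0 12 0 _ _ 211070798527997 _ [71, 95, 95, 143, 119, 203, 203] _ (by decide +kernel) nd621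

theorem nd623 : Ok 4 Dn4 [[1, 0, 0, 0, 1, 0, 0], [1, 1, 0, 0, 0, 0, 0], [1, 1, 1, 0, 1, 0, 0],
  [1, 1, 1, 1, 0, 0, 0], [2, 2, 2, 1, 3, 1, 1], [1, 1, 1, 1, 1, 1, 0], [1, 1, 1, 0, 1, 1, 1]]
  211070798522877 [71, 95, 95, 143, 119, 203, 203] 1028264128171 :=
  dec4 0 10 0 _ _ 211070798523901 _ [71, 95, 95, 143, 119, 203, 203] _ (by decide +kernel) nd622

theorem nd624 : Ok 4 Dn4 [[1, 0, 0, 0, 1, 0, 0], [1, 1, 0, 0, 0, 0, 0], [1, 1, 1, 0, 1, 0, 0],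
  [1, 1, 1, 1, 0, 0, 0], [1, 1, 1, 1, 2, 0, 0], [1, 1, 1, 1, 1, 1, 0], [2, 2, 2, 1, 3, 1, 1]]
  211070798524413 [103, 127, 151, 151, 127, 259, 259] 266831948528 :=
  cut4 0 3 1 1 1 _ [[2, 1, 1, 1, 1, 0, 0], [1, 1, 0, 0, 0, 0, 0], [1, 1, 1, 0, 1, 0, 0], [1, 1,
  1, 1, 0, 0, 0], [1, 1, 1, 1, 2, 0, 0], [1, 1, 1, 1, 1, 1, 0], [2, 2, 2, 1, 3, 1, 1]] [[1, 0, 0,
  0, 1, 0, 0], [1, 1, 0, 0, 0, 0, 0], [1, 1, 1, 0, 1, 0, 0], [2, 1, 1, 1, 1, 0, 0], [1, 1, 1, 1,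
  2, 0, 0], [1, 1, 1, 1, 1, 1, 0], [2, 2, 2, 1, 3, 1, 1]] _ _ 326352713252 237071566165 _ (by
  decide +kernel) ok296 ok297

theorem nd625 : Ok 4 Dn4 [[1, 0, 0, 0, 1, 0, 0], [1, 1, 0, 0, 0, 0, 0], [1, 1, 1, 0, 1, 0, 0],
  [1, 1, 1, 1, 0, 0, 0], [1, 1, 1, 1, 2, 0, 0], [1, 1, 1, 1, 1, 1, 0], [2, 2, 2, 1, 3, 1, 1]]
  211070798523389 [75, 123, 123, 147, 123, 231, 231] 266831948528 :=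
  dec4 0 10 1 _ _ 211070798524413 _ [103, 127, 151, 151, 127, 259, 259] _ (by decide +kernel)
  nd624

theorem nd626 : Ok 4 Dn4 [[1, 0, 0, 0, 1, 0, 0], [1, 1, 0, 0, 0, 0, 0], [1, 1, 1, 0, 1, 0, 0],
  [1, 1, 1, 1, 0, 0, 0], [1, 1, 1, 1, 2, 0, 0], [1, 1, 1, 1, 1, 1, 0], [2, 2, 2, 1, 3, 1, 1]]
  211070798522877 [71, 95, 95, 143, 119, 203, 203] 266831948528 :=
  dec4 0 9 1 _ _ 211070798523389 _ [75, 123, 123, 147, 123, 231, 231] _ (by decide +kernel) nd625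

theorem nd627 : Ok 4 Dn4 [[1, 0, 0, 0, 1, 0, 0], [1, 1, 0, 0, 0, 0, 0], [1, 1, 1, 0, 1, 0, 0],
  [1, 1, 1, 1, 0, 0, 0], [1, 1, 1, 1, 2, 0, 0], [1, 1, 1, 1, 1, 1, 0], [1, 1, 1, 0, 1, 1, 1]]
  211070798522877 [71, 95, 95, 143, 119, 203, 203] 647548038350 :=
  cut4 4 6 1 1 1 _ [[1, 0, 0, 0, 1, 0, 0], [1, 1, 0, 0, 0, 0, 0], [1, 1, 1, 0, 1, 0, 0], [1, 1,
  1, 1, 0, 0, 0], [2, 2, 2, 1, 3, 1, 1], [1, 1, 1, 1, 1, 1, 0], [1, 1, 1, 0, 1, 1, 1]] [[1, 0, 0,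
  0, 1, 0, 0], [1, 1, 0, 0, 0, 0, 0], [1, 1, 1, 0, 1, 0, 0], [1, 1, 1, 1, 0, 0, 0], [1, 1, 1, 1,
  2, 0, 0], [1, 1, 1, 1, 1, 1, 0], [2, 2, 2, 1, 3, 1, 1]] _ _ 1028264128171 266831948528 _ (by
  decide +kernel) nd623 nd626

theorem nd628 : Ok 4 Dn4 [[1, 0, 0, 0, 1, 0, 0], [1, 1, 0, 0, 0, 0, 0], [1, 1, 1, 0, 1, 0, 0],
  [1, 1, 1, 1, 0, 0, 0], [1, 1, 1, 1, 2, 0, 0], [1, 1, 1, 1, 1, 1, 0], [1, 1, 1, 0, 1, 1, 1]]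
  70333310167549 [70, 94, 94, 142, 112, 196, 202] 647548038350 :=
  dec4 2 15 1 _ _ 211070798522877 _ [71, 95, 95, 143, 119, 203, 203] _ (by decide +kernel) nd627

theorem nd629 : Ok 4 Dn4 [[1, 0, 0, 0, 1, 0, 0], [1, 1, 0, 0, 0, 0, 0], [1, 1, 1, 0, 1, 0, 0],
  [1, 1, 1, 1, 0, 0, 0], [1, 1, 1, 1, 2, 0, 0], [1, 1, 1, 1, 1, 1, 0], [1, 1, 1, 0, 1, 1, 1]]
  35148938078717 [68, 80, 92, 140, 98, 182, 200] 647548038350 :=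
  dec4 2 13 1 _ _ 70333310167549 _ [70, 94, 94, 142, 112, 196, 202] _ (by decide +kernel) nd628

theorem nd630 : Ok 4 Dn4 [[1, 0, 0, 0, 1, 0, 0], [1, 1, 0, 0, 0, 0, 0], [1, 1, 1, 0, 1, 0, 0],
  [1, 1, 1, 1, 0, 0, 0], [1, 1, 1, 1, 2, 0, 0], [1, 1, 1, 1, 1, 1, 0], [1, 1, 1, 0, 1, 1, 1]]
  26352845056509 [66, 78, 78, 138, 84, 168, 198] 647548038350 :=
  dec4 2 11 1 _ _ 35148938078717 _ [68, 80, 92, 140, 98, 182, 200] _ (by decide +kernel) nd629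

theorem nd631 : Ok 4 Dn4 [[1, 0, 0, 0, 1, 0, 0], [1, 1, 0, 0, 0, 0, 0], [1, 1, 1, 0, 1, 0, 0],
  [1, 1, 1, 1, 0, 0, 0], [1, 1, 1, 1, 2, 0, 0], [1, 1, 1, 1, 1, 1, 0], [1, 1, 1, 0, 1, 1, 1]]
  25803089242621 [64, 76, 76, 124, 70, 154, 196] 647548038350 :=
  dec4 2 7 1 _ _ 26352845056509 _ [66, 78, 78, 138, 84, 168, 198] _ (by decide +kernel) nd630

theorem nd632 : Ok 4 Dn4 [[1, 0, 0, 0, 1, 0, 0], [1, 1, 0, 0, 0, 0, 0], [1, 1, 1, 0, 1, 0, 0],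
  [1, 1, 1, 1, 0, 0, 0], [1, 1, 1, 1, 2, 0, 0], [0, 0, 0, 0, 1, 1, 0], [1, 1, 1, 0, 1, 1, 1]]
  25803089242621 [64, 76, 76, 124, 70, 154, 196] 480144359437 :=
  cut4 3 5 1 1 1 _ [[1, 0, 0, 0, 1, 0, 0], [1, 1, 0, 0, 0, 0, 0], [1, 1, 1, 0, 1, 0, 0], [1, 1,
  1, 1, 1, 1, 0], [1, 1, 1, 1, 2, 0, 0], [0, 0, 0, 0, 1, 1, 0], [1, 1, 1, 0, 1, 1, 1]] [[1, 0, 0,
  0, 1, 0, 0], [1, 1, 0, 0, 0, 0, 0], [1, 1, 1, 0, 1, 0, 0], [1, 1, 1, 1, 0, 0, 0], [1, 1, 1, 1,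
  2, 0, 0], [1, 1, 1, 1, 1, 1, 0], [1, 1, 1, 0, 1, 1, 1]] _ _ 396442519980 647548038350 _ (by
  decide +kernel) nd611 nd631

theorem nd633 : Ok 4 Dn4 [[1, 0, 0, 0, 1, 0, 0], [1, 1, 0, 0, 0, 0, 0], [1, 1, 1, 0, 1, 0, 0],
  [1, 1, 1, 1, 0, 0, 0], [1, 1, 1, 1, 2, 0, 0], [0, 0, 0, 0, 1, 1, 0], [1, 1, 1, 0, 1, 1, 1]]
  25800941758973 [63, 75, 75, 123, 63, 153, 189] 480144359437 :=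
  dec4 1 15 1 _ _ 25803089242621 _ [64, 76, 76, 124, 70, 154, 196] _ (by decide +kernel) nd632

theorem nd634 : Ok 4 Dn4 [[1, 0, 0, 0, 1, 0, 0], [1, 1, 0, 0, 0, 0, 0], [1, 1, 1, 0, 1, 0, 0],
  [1, 1, 1, 1, 0, 0, 0], [1, 1, 1, 1, 2, 0, 0], [0, 0, 0, 0, 1, 1, 0], [1, 1, 1, 0, 1, 1, 1]]
  25800404888061 [61, 61, 73, 121, 49, 151, 175] 480144359437 :=
  dec4 1 13 1 _ _ 25800941758973 _ [63, 75, 75, 123, 63, 153, 189] _ (by decide +kernel) nd633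

theorem nd635 : Ok 4 Dn4 [[1, 0, 0, 0, 1, 0, 0], [1, 1, 0, 0, 0, 0, 0], [1, 1, 1, 0, 1, 0, 0],
  [1, 1, 1, 1, 0, 0, 0], [1, 1, 1, 1, 2, 0, 0], [0, 0, 0, 0, 1, 1, 0], [1, 1, 1, 0, 1, 1, 1]]
  25800270670333 [59, 59, 59, 119, 35, 149, 161] 480144359437 :=
  dec4 1 11 1 _ _ 25800404888061 _ [61, 61, 73, 121, 49, 151, 175] _ (by decide +kernel) nd634

theorem nd636 : Ok 4 Dn4 [[1, 0, 0, 0, 1, 0, 0], [1, 1, 0, 0, 0, 0, 0], [1, 1, 1, 0, 1, 0, 0],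
  [1, 1, 1, 1, 0, 0, 0], [1, 1, 1, 1, 2, 0, 0], [0, 0, 0, 0, 1, 1, 0], [1, 1, 1, 0, 1, 1, 1]]
  25800262281725 [57, 57, 57, 105, 21, 147, 147] 480144359437 :=
  dec4 1 7 1 _ _ 25800270670333 _ [59, 59, 59, 119, 35, 149, 161] _ (by decide +kernel) nd635

theorem nd637 : Ok 4 Dn4 [[1, 0, 0, 0, 1, 0, 0], [1, 1, 0, 0, 0, 0, 0], [1, 1, 1, 0, 1, 0, 0],
  [1, 1, 1, 1, 0, 0, 0], [1, 1, 1, 1, 2, 0, 0], [0, 0, 0, 0, 1, 1, 0], [1, 1, 1, 0, 1, 1, 1]]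
  25800262281469 [57, 57, 57, 105, 21, 147, 147] 480144359437 :=
  dec4 0 8 0 _ _ 25800262281725 _ [57, 57, 57, 105, 21, 147, 147] _ (by decide +kernel) nd636

theorem nd638 : Ok 4 Dn4 [[1, 0, 0, 0, 1, 0, 0], [1, 1, 0, 0, 0, 0, 0], [1, 1, 1, 0, 1, 0, 0],
  [1, 1, 1, 1, 0, 0, 0], [1, 1, 1, 1, 2, 0, 0], [0, 0, 0, 0, 1, 1, 0], [1, 1, 1, 0, 1, 1, 1]]
  25800262281453 [57, 57, 57, 105, 21, 147, 147] 480144359437 :=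
  dec4 0 4 0 _ _ 25800262281469 _ [57, 57, 57, 105, 21, 147, 147] _ (by decide +kernel) nd637

theorem nd639 : Ok 4 Dn4 [[1, 0, 0, 0, 1, 0, 0], [1, 1, 0, 0, 0, 0, 0], [1, 1, 1, 0, 1, 0, 0],
  [1, 1, 1, 1, 0, 0, 0], [1, 1, 1, 1, 2, 0, 0], [0, 0, 0, 0, 1, 1, 0], [1, 1, 1, 0, 1, 1, 1]]
  25800262281449 [57, 57, 57, 105, 21, 147, 147] 480144359437 :=
  dec4 0 2 0 _ _ 25800262281453 _ [57, 57, 57, 105, 21, 147, 147] _ (by decide +kernel) nd638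

theorem nd640 : Ok 4 Dn4 [[1, 0, 0, 0, 1, 0, 0], [1, 1, 0, 0, 0, 0, 0], [1, 1, 1, 0, 1, 0, 0],
  [1, 1, 1, 1, 0, 0, 0], [1, 1, 1, 1, 2, 0, 0], [0, 0, 0, 0, 1, 1, 0], [1, 1, 1, 0, 1, 1, 1]]
  25800262281448 [57, 57, 57, 105, 21, 147, 147] 480144359437 :=
  dec4 0 0 0 _ _ 25800262281449 _ [57, 57, 57, 105, 21, 147, 147] _ (by decide +kernel) nd639

theorem nd641 : Ok 4 Dn4 [[1, 0, 0, 0, 1, 0, 0], [1, 1, 0, 0, 0, 0, 0], [1, 1, 1, 0, 1, 0, 0],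
  [1, 1, 1, 1, 0, 0, 0], [0, 0, 0, 0, 1, 0, 0], [0, 0, 0, 0, 1, 1, 0], [1, 1, 1, 0, 1, 1, 1]]
  25800262281448 [57, 57, 57, 105, 21, 147, 147] 204604883505 :=
  cut4 3 4 1 2 1 _ [[1, 0, 0, 0, 1, 0, 0], [1, 1, 0, 0, 0, 0, 0], [1, 1, 1, 0, 1, 0, 0], [1, 1,
  1, 1, 2, 0, 0], [0, 0, 0, 0, 1, 0, 0], [0, 0, 0, 0, 1, 1, 0], [1, 1, 1, 0, 1, 1, 1]] [[1, 0, 0,
  0, 1, 0, 0], [1, 1, 0, 0, 0, 0, 0], [1, 1, 1, 0, 1, 0, 0], [1, 1, 1, 1, 0, 0, 0], [1, 1, 1, 1,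
  2, 0, 0], [0, 0, 0, 0, 1, 1, 0], [1, 1, 1, 0, 1, 1, 1]] _ _ 66835145538 480144359437 _ (by
  decide +kernel) nd559 nd640

theorem nd642 : Ok 4 Dn4 [[1, 0, 0, 0, 1, 0, 0], [1, 1, 0, 0, 0, 0, 0], [1, 1, 1, 0, 1, 0, 0],
  [1, 1, 1, 1, 0, 0, 0], [0, 0, 0, 0, 1, 0, 0], [0, 0, 0, 0, 1, 1, 0], [1, 1, 1, 0, 1, 1, 1]]
  25525384374504 [57, 57, 57, 105, 21, 147, 147] 204604883505 :=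
  dec4 2 6 0 _ _ 25800262281448 _ [57, 57, 57, 105, 21, 147, 147] _ (by decide +kernel) nd641

theorem nd643 : Ok 4 Dn4 [[1, 0, 0, 0, 1, 0, 0], [1, 1, 0, 0, 0, 0, 0], [1, 1, 1, 0, 1, 0, 0],
  [1, 1, 1, 1, 0, 0, 0], [0, 0, 0, 0, 1, 0, 0], [0, 0, 0, 0, 1, 1, 0], [1, 1, 1, 0, 1, 1, 1]]
  25387945421032 [57, 57, 57, 105, 21, 147, 147] 204604883505 :=
  dec4 2 5 0 _ _ 25525384374504 _ [57, 57, 57, 105, 21, 147, 147] _ (by decide +kernel) nd642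

theorem nd644 : Ok 4 Dn4 [[1, 0, 0, 0, 1, 0, 0], [1, 1, 0, 0, 0, 0, 0], [1, 1, 1, 0, 1, 0, 0],
  [1, 1, 1, 1, 0, 0, 0], [0, 0, 0, 0, 1, 0, 0], [0, 0, 0, 0, 1, 1, 0], [1, 1, 1, 0, 1, 1, 1]]
  25387941226728 [57, 57, 57, 105, 21, 147, 147] 204604883505 :=
  dec4 1 6 0 _ _ 25387945421032 _ [57, 57, 57, 105, 21, 147, 147] _ (by decide +kernel) nd643

theorem nd645 : Ok 4 Dn4 [[1, 0, 0, 0, 1, 0, 0], [1, 1, 0, 0, 0, 0, 0], [1, 1, 1, 0, 1, 0, 0],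
  [1, 1, 1, 1, 0, 0, 0], [0, 0, 0, 0, 1, 0, 0], [0, 0, 0, 0, 1, 1, 0], [1, 1, 1, 0, 1, 1, 1]]
  25387939129576 [57, 57, 57, 105, 21, 147, 147] 204604883505 :=
  dec4 1 5 0 _ _ 25387941226728 _ [57, 57, 57, 105, 21, 147, 147] _ (by decide +kernel) nd644

end Pool.Agent.Work.MP_122e00_nt.Sharp.Cx

end

section

set_option autoImplicit false

set_option maxRecDepth 100000

/-!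
# The certificate: data
-/

namespace Pool.Agent.Work.MP_122e00_nt.Sharp.Cx

theorem ok298 : Ok 4 Dn4 [[3, 2, 2, 0, 2, 1, 0], [1, 1, 0, 0, 1, 1, 0], [2, 2, 2, 0, 1, 1, 0],
  [1, 1, 1, 1, 1, 1, 0], [1, 1, 1, 0, 1, 0, 0], [0, 0, 0, 0, 1, 1, 0], [1, 1, 1, 0, 1, 1, 1]]
  140186654604797 [72, 108, 108, 180, 126, 162, 252] 115427544068 :=
  run4 tr298 _ _ _ _ dt298

theorem ok299 : Ok 4 Dn4 [[2, 1, 1, 1, 2, 1, 0], [1, 1, 0, 0, 1, 1, 0], [3, 2, 2, 0, 4, 3, 0],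
  [1, 1, 1, 1, 1, 1, 0], [1, 1, 1, 0, 2, 1, 0], [0, 0, 0, 0, 1, 1, 0], [1, 1, 1, 0, 1, 1, 1]]
  140186658799101 [72, 108, 108, 180, 126, 162, 252] 175958772264 :=
  run4 tr299 _ _ _ _ dt299

theorem ok300 : Ok 4 Dn4 [[1, 0, 0, 0, 1, 0, 0], [1, 1, 0, 0, 1, 1, 0], [3, 2, 2, 0, 4, 3, 0],
  [2, 1, 1, 1, 2, 1, 0], [1, 1, 1, 0, 2, 1, 0], [0, 0, 0, 0, 1, 1, 0], [1, 1, 1, 0, 1, 1, 1]]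
  140186658799101 [72, 108, 108, 180, 126, 162, 252] 25921968507 :=
  run4 tr300 _ _ _ _ dt300

theorem ok301 : Ok 4 Dn4 [[1, 0, 0, 0, 1, 0, 0], [1, 1, 0, 0, 1, 1, 0], [3, 2, 2, 0, 4, 3, 0],
  [1, 1, 1, 1, 1, 1, 0], [1, 1, 1, 0, 1, 0, 0], [1, 1, 1, 0, 2, 1, 0], [1, 1, 1, 0, 1, 1, 1]]
  140186658799101 [72, 108, 108, 180, 126, 162, 252] 117436910278 :=
  run4 tr301 _ _ _ _ dt301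

theorem ok302 : Ok 4 Dn4 [[1, 0, 0, 0, 1, 0, 0], [1, 1, 0, 0, 1, 1, 0], [3, 2, 2, 0, 2, 1, 0],
  [1, 1, 1, 1, 1, 1, 0], [1, 1, 1, 0, 1, 0, 0], [3, 2, 2, 0, 4, 3, 0], [1, 1, 1, 0, 1, 1, 1]]
  140186658799101 [72, 108, 108, 180, 126, 162, 252] 161663397287 :=
  run4 tr302 _ _ _ _ dt302

theorem ok303 : Ok 4 Dn4 [[1, 0, 0, 0, 1, 0, 0], [1, 1, 0, 0, 0, 0, 0], [2, 2, 2, 0, 1, 1, 0],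
  [1, 1, 1, 1, 1, 1, 0], [1, 1, 1, 0, 1, 0, 0], [1, 1, 0, 0, 1, 1, 0], [1, 1, 1, 0, 1, 1, 1]]
  131356201844221 [72, 108, 108, 180, 126, 162, 252] 155548622410 :=
  run4 tr303 _ _ _ _ dt303

theorem ok304 : Ok 4 Dn4 [[3, 2, 2, 0, 2, 1, 0], [1, 1, 0, 0, 0, 0, 0], [2, 2, 2, 0, 1, 1, 0],
  [1, 1, 1, 1, 0, 0, 0], [1, 1, 1, 0, 1, 0, 0], [1, 1, 1, 1, 1, 1, 0], [1, 1, 1, 0, 1, 1, 1]]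
  211070794857981 [79, 127, 127, 199, 175, 211, 259] 108191252565 :=
  run4 tr304 _ _ _ _ dt304

theorem ok305 : Ok 4 Dn4 [[3, 2, 2, 1, 2, 1, 1], [1, 1, 0, 0, 0, 0, 0], [3, 2, 2, 0, 2, 1, 0],
  [1, 1, 1, 1, 0, 0, 0], [1, 1, 1, 0, 1, 0, 0], [1, 1, 1, 1, 1, 1, 0], [1, 1, 1, 0, 1, 1, 1]]
  211071872794111 [93, 129, 129, 201, 189, 213, 273] 568405992854 :=
  run4 tr305 _ _ _ _ dt305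

theorem ok306 : Ok 4 Dn4 [[2, 1, 1, 1, 1, 0, 0], [1, 1, 0, 0, 0, 0, 0], [3, 2, 2, 0, 2, 1, 0],
  [1, 1, 1, 1, 0, 0, 0], [1, 1, 1, 0, 1, 0, 0], [1, 1, 1, 1, 1, 1, 0], [3, 2, 2, 1, 2, 1, 1]]
  211071872794111 [93, 129, 129, 201, 189, 213, 273] 190718672598 :=
  run4 tr306 _ _ _ _ dt306

theorem ok307 : Ok 4 Dn4 [[1, 0, 0, 0, 1, 0, 0], [1, 1, 0, 0, 0, 0, 0], [3, 2, 2, 0, 2, 1, 0],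
  [3, 2, 2, 1, 2, 1, 1], [1, 1, 1, 0, 1, 0, 0], [1, 1, 1, 1, 1, 1, 0], [1, 1, 1, 0, 1, 1, 1]]
  281439543229949 [79, 127, 127, 199, 175, 211, 259] 154989203993 :=
  run4 tr307 _ _ _ _ dt307

theorem ok308 : Ok 4 Dn4 [[1, 0, 0, 0, 1, 0, 0], [1, 1, 0, 0, 0, 0, 0], [3, 2, 2, 0, 2, 1, 0],
  [2, 1, 1, 1, 1, 0, 0], [1, 1, 1, 0, 1, 0, 0], [1, 1, 1, 1, 1, 1, 0], [3, 2, 2, 1, 2, 1, 1]]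
  281439543229949 [79, 127, 127, 199, 175, 211, 259] 141424637334 :=
  run4 tr308 _ _ _ _ dt308

theorem ok309 : Ok 4 Dn4 [[3, 2, 2, 0, 1, 0, 0], [1, 1, 0, 0, 0, 0, 0], [1, 1, 1, 0, 0, 0, 0],
  [1, 1, 1, 1, 0, 0, 0], [1, 1, 1, 0, 1, 0, 0], [2, 2, 2, 0, 1, 1, 0], [1, 1, 1, 0, 1, 1, 1]]
  210830276689405 [87, 159, 159, 255, 231, 267, 267] 184365447575 :=
  run4 tr309 _ _ _ _ dt309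

theorem ok310 : Ok 4 Dn4 [[3, 2, 2, 0, 2, 1, 0], [1, 1, 0, 0, 0, 0, 0], [3, 2, 2, 0, 1, 0, 0],
  [1, 1, 1, 1, 0, 0, 0], [1, 1, 1, 0, 1, 0, 0], [2, 2, 2, 0, 1, 1, 0], [1, 1, 1, 0, 1, 1, 1]]
  211105154596349 [87, 159, 159, 255, 231, 267, 267] 42291330645 :=
  run4 tr310 _ _ _ _ dt310

theorem ok311 : Ok 4 Dn4 [[1, 0, 0, 0, 1, 0, 0], [1, 1, 0, 0, 0, 0, 0], [3, 2, 2, 0, 1, 0, 0],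
  [1, 1, 1, 1, 0, 0, 0], [1, 1, 1, 0, 1, 0, 0], [3, 2, 2, 0, 2, 1, 0], [1, 1, 1, 0, 1, 1, 1]]
  211105154596349 [87, 159, 159, 255, 231, 267, 267] 79656670339 :=
  run4 tr311 _ _ _ _ dt311

theorem nd646 : Ok 4 Dn4 [[1, 0, 0, 0, 1, 0, 0], [1, 1, 0, 0, 1, 1, 0], [3, 2, 2, 0, 4, 3, 0],
  [1, 1, 1, 1, 1, 1, 0], [1, 1, 1, 0, 2, 1, 0], [0, 0, 0, 0, 1, 1, 0], [1, 1, 1, 0, 1, 1, 1]]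
  140186658799101 [72, 108, 108, 180, 126, 162, 252] 63431169447 :=
  cut4 0 3 1 1 1 _ [[2, 1, 1, 1, 2, 1, 0], [1, 1, 0, 0, 1, 1, 0], [3, 2, 2, 0, 4, 3, 0], [1, 1,
  1, 1, 1, 1, 0], [1, 1, 1, 0, 2, 1, 0], [0, 0, 0, 0, 1, 1, 0], [1, 1, 1, 0, 1, 1, 1]] [[1, 0, 0,
  0, 1, 0, 0], [1, 1, 0, 0, 1, 1, 0], [3, 2, 2, 0, 4, 3, 0], [2, 1, 1, 1, 2, 1, 0], [1, 1, 1, 0,
  2, 1, 0], [0, 0, 0, 0, 1, 1, 0], [1, 1, 1, 0, 1, 1, 1]] _ _ 175958772264 25921968507 _ (by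
  decide +kernel) ok299 ok300

theorem nd647 : Ok 4 Dn4 [[1, 0, 0, 0, 1, 0, 0], [1, 1, 0, 0, 1, 1, 0], [3, 2, 2, 0, 4, 3, 0],
  [1, 1, 1, 1, 1, 1, 0], [1, 1, 1, 0, 1, 0, 0], [0, 0, 0, 0, 1, 1, 0], [1, 1, 1, 0, 1, 1, 1]]
  140186658799101 [72, 108, 108, 180, 126, 162, 252] 81433083058 :=
  cut4 4 5 1 1 1 _ [[1, 0, 0, 0, 1, 0, 0], [1, 1, 0, 0, 1, 1, 0], [3, 2, 2, 0, 4, 3, 0], [1, 1,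
  1, 1, 1, 1, 0], [1, 1, 1, 0, 2, 1, 0], [0, 0, 0, 0, 1, 1, 0], [1, 1, 1, 0, 1, 1, 1]] [[1, 0, 0,
  0, 1, 0, 0], [1, 1, 0, 0, 1, 1, 0], [3, 2, 2, 0, 4, 3, 0], [1, 1, 1, 1, 1, 1, 0], [1, 1, 1, 0,
  1, 0, 0], [1, 1, 1, 0, 2, 1, 0], [1, 1, 1, 0, 1, 1, 1]] _ _ 63431169447 117436910278 _ (by
  decide +kernel) nd646 ok301

theorem nd648 : Ok 4 Dn4 [[1, 0, 0, 0, 1, 0, 0], [1, 1, 0, 0, 1, 1, 0], [3, 2, 2, 0, 2, 1, 0],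
  [1, 1, 1, 1, 1, 1, 0], [1, 1, 1, 0, 1, 0, 0], [0, 0, 0, 0, 1, 1, 0], [1, 1, 1, 0, 1, 1, 1]]
  140186658799101 [72, 108, 108, 180, 126, 162, 252] 104356029981 :=
  cut4 2 5 1 2 1 _ [[1, 0, 0, 0, 1, 0, 0], [1, 1, 0, 0, 1, 1, 0], [3, 2, 2, 0, 4, 3, 0], [1, 1,
  1, 1, 1, 1, 0], [1, 1, 1, 0, 1, 0, 0], [0, 0, 0, 0, 1, 1, 0], [1, 1, 1, 0, 1, 1, 1]] [[1, 0, 0,
  0, 1, 0, 0], [1, 1, 0, 0, 1, 1, 0], [3, 2, 2, 0, 2, 1, 0], [1, 1, 1, 1, 1, 1, 0], [1, 1, 1, 0,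
  1, 0, 0], [3, 2, 2, 0, 4, 3, 0], [1, 1, 1, 0, 1, 1, 1]] _ _ 81433083058 161663397287 _ (by
  decide +kernel) nd647 ok302

theorem nd649 : Ok 4 Dn4 [[1, 0, 0, 0, 1, 0, 0], [1, 1, 0, 0, 1, 1, 0], [3, 2, 2, 0, 2, 1, 0],
  [1, 1, 1, 1, 1, 1, 0], [1, 1, 1, 0, 1, 0, 0], [0, 0, 0, 0, 1, 1, 0], [1, 1, 1, 0, 1, 1, 1]]
  140186654604797 [72, 108, 108, 180, 126, 162, 252] 104356029981 :=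
  dec4 1 6 0 _ _ 140186658799101 _ [72, 108, 108, 180, 126, 162, 252] _ (by decide +kernel) nd648

theorem nd650 : Ok 4 Dn4 [[1, 0, 0, 0, 1, 0, 0], [1, 1, 0, 0, 1, 1, 0], [2, 2, 2, 0, 1, 1, 0],
  [1, 1, 1, 1, 1, 1, 0], [1, 1, 1, 0, 1, 0, 0], [0, 0, 0, 0, 1, 1, 0], [1, 1, 1, 0, 1, 1, 1]]
  140186654604797 [72, 108, 108, 180, 126, 162, 252] 106570332799 :=
  cut4 0 2 1 1 1 _ [[3, 2, 2, 0, 2, 1, 0], [1, 1, 0, 0, 1, 1, 0], [2, 2, 2, 0, 1, 1, 0], [1, 1,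
  1, 1, 1, 1, 0], [1, 1, 1, 0, 1, 0, 0], [0, 0, 0, 0, 1, 1, 0], [1, 1, 1, 0, 1, 1, 1]] [[1, 0, 0,
  0, 1, 0, 0], [1, 1, 0, 0, 1, 1, 0], [3, 2, 2, 0, 2, 1, 0], [1, 1, 1, 1, 1, 1, 0], [1, 1, 1, 0,
  1, 0, 0], [0, 0, 0, 0, 1, 1, 0], [1, 1, 1, 0, 1, 1, 1]] _ _ 115427544068 104356029981 _ (by
  decide +kernel) ok298 nd649

theorem nd651 : Ok 4 Dn4 [[1, 0, 0, 0, 1, 0, 0], [1, 1, 0, 0, 1, 1, 0], [2, 2, 2, 0, 1, 1, 0],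
  [1, 1, 1, 1, 1, 1, 0], [1, 1, 1, 0, 1, 0, 0], [0, 0, 0, 0, 1, 1, 0], [1, 1, 1, 0, 1, 1, 1]]
  131390561582589 [72, 108, 108, 180, 126, 162, 252] 106570332799 :=
  dec4 2 11 0 _ _ 140186654604797 _ [72, 108, 108, 180, 126, 162, 252] _ (by decide +kernel) nd650

theorem nd652 : Ok 4 Dn4 [[1, 0, 0, 0, 1, 0, 0], [1, 1, 0, 0, 1, 1, 0], [2, 2, 2, 0, 1, 1, 0],
  [1, 1, 1, 1, 1, 1, 0], [1, 1, 1, 0, 1, 0, 0], [0, 0, 0, 0, 1, 1, 0], [1, 1, 1, 0, 1, 1, 1]]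
  131356201844221 [72, 108, 108, 180, 126, 162, 252] 106570332799 :=
  dec4 2 3 0 _ _ 131390561582589 _ [72, 108, 108, 180, 126, 162, 252] _ (by decide +kernel) nd651

theorem nd653 : Ok 4 Dn4 [[1, 0, 0, 0, 1, 0, 0], [1, 1, 0, 0, 0, 0, 0], [2, 2, 2, 0, 1, 1, 0],
  [1, 1, 1, 1, 1, 1, 0], [1, 1, 1, 0, 1, 0, 0], [0, 0, 0, 0, 1, 1, 0], [1, 1, 1, 0, 1, 1, 1]]
  131356201844221 [72, 108, 108, 180, 126, 162, 252] 131059477605 :=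
  cut4 1 5 1 1 1 _ [[1, 0, 0, 0, 1, 0, 0], [1, 1, 0, 0, 1, 1, 0], [2, 2, 2, 0, 1, 1, 0], [1, 1,
  1, 1, 1, 1, 0], [1, 1, 1, 0, 1, 0, 0], [0, 0, 0, 0, 1, 1, 0], [1, 1, 1, 0, 1, 1, 1]] [[1, 0, 0,
  0, 1, 0, 0], [1, 1, 0, 0, 0, 0, 0], [2, 2, 2, 0, 1, 1, 0], [1, 1, 1, 1, 1, 1, 0], [1, 1, 1, 0,
  1, 0, 0], [1, 1, 0, 0, 1, 1, 0], [1, 1, 1, 0, 1, 1, 1]] _ _ 106570332799 155548622410 _ (by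
  decide +kernel) nd652 ok303

theorem nd654 : Ok 4 Dn4 [[1, 0, 0, 0, 1, 0, 0], [1, 1, 0, 0, 0, 0, 0], [2, 2, 2, 0, 1, 1, 0],
  [1, 1, 1, 1, 1, 1, 0], [1, 1, 1, 0, 1, 0, 0], [0, 0, 0, 0, 1, 1, 0], [1, 1, 1, 0, 1, 1, 1]]
  60987457666557 [72, 108, 108, 180, 126, 162, 252] 131059477605 :=
  dec4 2 14 0 _ _ 131356201844221 _ [72, 108, 108, 180, 126, 162, 252] _ (by decide +kernel) nd653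

theorem nd655 : Ok 4 Dn4 [[1, 0, 0, 0, 1, 0, 0], [1, 1, 0, 0, 0, 0, 0], [2, 2, 2, 0, 1, 1, 0],
  [1, 1, 1, 1, 1, 1, 0], [1, 1, 1, 0, 1, 0, 0], [0, 0, 0, 0, 1, 1, 0], [1, 1, 1, 0, 1, 1, 1]]
  25803085577725 [72, 108, 108, 180, 126, 162, 252] 131059477605 :=
  dec4 2 13 0 _ _ 60987457666557 _ [72, 108, 108, 180, 126, 162, 252] _ (by decide +kernel) nd654

theorem nd656 : Ok 4 Dn4 [[2, 1, 1, 1, 1, 0, 0], [1, 1, 0, 0, 0, 0, 0], [3, 2, 2, 0, 2, 1, 0],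
  [1, 1, 1, 1, 0, 0, 0], [1, 1, 1, 0, 1, 0, 0], [1, 1, 1, 1, 1, 1, 0], [1, 1, 1, 0, 1, 1, 1]]
  211071872794111 [93, 129, 129, 201, 189, 213, 273] 379562332726 :=
  cut4 0 6 1 1 1 _ [[3, 2, 2, 1, 2, 1, 1], [1, 1, 0, 0, 0, 0, 0], [3, 2, 2, 0, 2, 1, 0], [1, 1,
  1, 1, 0, 0, 0], [1, 1, 1, 0, 1, 0, 0], [1, 1, 1, 1, 1, 1, 0], [1, 1, 1, 0, 1, 1, 1]] [[2, 1, 1,
  1, 1, 0, 0], [1, 1, 0, 0, 0, 0, 0], [3, 2, 2, 0, 2, 1, 0], [1, 1, 1, 1, 0, 0, 0], [1, 1, 1, 0,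
  1, 0, 0], [1, 1, 1, 1, 1, 1, 0], [3, 2, 2, 1, 2, 1, 1]] _ _ 568405992854 190718672598 _ (by
  decide +kernel) ok305 ok306

theorem nd657 : Ok 4 Dn4 [[2, 1, 1, 1, 1, 0, 0], [1, 1, 0, 0, 0, 0, 0], [3, 2, 2, 0, 2, 1, 0],
  [1, 1, 1, 1, 0, 0, 0], [1, 1, 1, 0, 1, 0, 0], [1, 1, 1, 1, 1, 1, 0], [1, 1, 1, 0, 1, 1, 1]]
  211070799052287 [79, 127, 127, 199, 175, 211, 259] 379562332726 :=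
  dec4 1 14 1 _ _ 211071872794111 _ [93, 129, 129, 201, 189, 213, 273] _ (by decide +kernel) nd656

theorem nd658 : Ok 4 Dn4 [[2, 1, 1, 1, 1, 0, 0], [1, 1, 0, 0, 0, 0, 0], [3, 2, 2, 0, 2, 1, 0],
  [1, 1, 1, 1, 0, 0, 0], [1, 1, 1, 0, 1, 0, 0], [1, 1, 1, 1, 1, 1, 0], [1, 1, 1, 0, 1, 1, 1]]
  211070799052285 [79, 127, 127, 199, 175, 211, 259] 379562332726 :=
  dec4 0 1 0 _ _ 211070799052287 _ [79, 127, 127, 199, 175, 211, 259] _ (by decide +kernel) nd657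

theorem nd659 : Ok 4 Dn4 [[1, 0, 0, 0, 1, 0, 0], [1, 1, 0, 0, 0, 0, 0], [3, 2, 2, 0, 2, 1, 0],
  [2, 1, 1, 1, 1, 0, 0], [1, 1, 1, 0, 1, 0, 0], [1, 1, 1, 1, 1, 1, 0], [1, 1, 1, 0, 1, 1, 1]]
  281439543229949 [79, 127, 127, 199, 175, 211, 259] 148206920664 :=
  cut4 3 6 1 1 1 _ [[1, 0, 0, 0, 1, 0, 0], [1, 1, 0, 0, 0, 0, 0], [3, 2, 2, 0, 2, 1, 0], [3, 2,
  2, 1, 2, 1, 1], [1, 1, 1, 0, 1, 0, 0], [1, 1, 1, 1, 1, 1, 0], [1, 1, 1, 0, 1, 1, 1]] [[1, 0, 0,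
  0, 1, 0, 0], [1, 1, 0, 0, 0, 0, 0], [3, 2, 2, 0, 2, 1, 0], [2, 1, 1, 1, 1, 0, 0], [1, 1, 1, 0,
  1, 0, 0], [1, 1, 1, 1, 1, 1, 0], [3, 2, 2, 1, 2, 1, 1]] _ _ 154989203993 141424637334 _ (by
  decide +kernel) ok307 ok308

theorem nd660 : Ok 4 Dn4 [[1, 0, 0, 0, 1, 0, 0], [1, 1, 0, 0, 0, 0, 0], [3, 2, 2, 0, 2, 1, 0],
  [2, 1, 1, 1, 1, 0, 0], [1, 1, 1, 0, 1, 0, 0], [1, 1, 1, 1, 1, 1, 0], [1, 1, 1, 0, 1, 1, 1]]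
  211070799052285 [79, 127, 127, 199, 175, 211, 259] 148206920664 :=
  dec4 2 14 0 _ _ 281439543229949 _ [79, 127, 127, 199, 175, 211, 259] _ (by decide +kernel) nd659

theorem nd661 : Ok 4 Dn4 [[1, 0, 0, 0, 1, 0, 0], [1, 1, 0, 0, 0, 0, 0], [3, 2, 2, 0, 2, 1, 0],
  [1, 1, 1, 1, 0, 0, 0], [1, 1, 1, 0, 1, 0, 0], [1, 1, 1, 1, 1, 1, 0], [1, 1, 1, 0, 1, 1, 1]]
  211070799052285 [79, 127, 127, 199, 175, 211, 259] 225325391352 :=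
  cut4 0 3 1 1 1 _ [[2, 1, 1, 1, 1, 0, 0], [1, 1, 0, 0, 0, 0, 0], [3, 2, 2, 0, 2, 1, 0], [1, 1,
  1, 1, 0, 0, 0], [1, 1, 1, 0, 1, 0, 0], [1, 1, 1, 1, 1, 1, 0], [1, 1, 1, 0, 1, 1, 1]] [[1, 0, 0,
  0, 1, 0, 0], [1, 1, 0, 0, 0, 0, 0], [3, 2, 2, 0, 2, 1, 0], [2, 1, 1, 1, 1, 0, 0], [1, 1, 1, 0,
  1, 0, 0], [1, 1, 1, 1, 1, 1, 0], [1, 1, 1, 0, 1, 1, 1]] _ _ 379562332726 148206920664 _ (by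
  decide +kernel) nd658 nd660

theorem nd662 : Ok 4 Dn4 [[1, 0, 0, 0, 1, 0, 0], [1, 1, 0, 0, 0, 0, 0], [3, 2, 2, 0, 2, 1, 0],
  [1, 1, 1, 1, 0, 0, 0], [1, 1, 1, 0, 1, 0, 0], [1, 1, 1, 1, 1, 1, 0], [1, 1, 1, 0, 1, 1, 1]]
  211070794857981 [79, 127, 127, 199, 175, 211, 259] 225325391352 :=
  dec4 1 6 0 _ _ 211070799052285 _ [79, 127, 127, 199, 175, 211, 259] _ (by decide +kernel) nd661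

theorem nd663 : Ok 4 Dn4 [[1, 0, 0, 0, 1, 0, 0], [1, 1, 0, 0, 0, 0, 0], [2, 2, 2, 0, 1, 1, 0],
  [1, 1, 1, 1, 0, 0, 0], [1, 1, 1, 0, 1, 0, 0], [1, 1, 1, 1, 1, 1, 0], [1, 1, 1, 0, 1, 1, 1]]
  211070794857981 [79, 127, 127, 199, 175, 211, 259] 201898563595 :=
  cut4 0 2 1 1 1 _ [[3, 2, 2, 0, 2, 1, 0], [1, 1, 0, 0, 0, 0, 0], [2, 2, 2, 0, 1, 1, 0], [1, 1,
  1, 1, 0, 0, 0], [1, 1, 1, 0, 1, 0, 0], [1, 1, 1, 1, 1, 1, 0], [1, 1, 1, 0, 1, 1, 1]] [[1, 0, 0,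
  0, 1, 0, 0], [1, 1, 0, 0, 0, 0, 0], [3, 2, 2, 0, 2, 1, 0], [1, 1, 1, 1, 0, 0, 0], [1, 1, 1, 0,
  1, 0, 0], [1, 1, 1, 1, 1, 1, 0], [1, 1, 1, 0, 1, 1, 1]] _ _ 108191252565 225325391352 _ (by
  decide +kernel) ok304 nd662

theorem nd664 : Ok 4 Dn4 [[1, 0, 0, 0, 1, 0, 0], [1, 1, 0, 0, 0, 0, 0], [2, 2, 2, 0, 1, 1, 0],
  [1, 1, 1, 1, 0, 0, 0], [1, 1, 1, 0, 1, 0, 0], [1, 1, 1, 1, 1, 1, 0], [1, 1, 1, 0, 1, 1, 1]]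
  70333306502653 [78, 126, 126, 198, 168, 204, 258] 201898563595 :=
  dec4 2 15 1 _ _ 211070794857981 _ [79, 127, 127, 199, 175, 211, 259] _ (by decide +kernel) nd663

theorem nd665 : Ok 4 Dn4 [[1, 0, 0, 0, 1, 0, 0], [1, 1, 0, 0, 0, 0, 0], [2, 2, 2, 0, 1, 1, 0],
  [1, 1, 1, 1, 0, 0, 0], [1, 1, 1, 0, 1, 0, 0], [1, 1, 1, 1, 1, 1, 0], [1, 1, 1, 0, 1, 1, 1]]
  35148934413821 [76, 112, 124, 196, 154, 190, 256] 201898563595 :=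
  dec4 2 13 1 _ _ 70333306502653 _ [78, 126, 126, 198, 168, 204, 258] _ (by decide +kernel) nd664

theorem nd666 : Ok 4 Dn4 [[1, 0, 0, 0, 1, 0, 0], [1, 1, 0, 0, 0, 0, 0], [2, 2, 2, 0, 1, 1, 0],
  [1, 1, 1, 1, 0, 0, 0], [1, 1, 1, 0, 1, 0, 0], [1, 1, 1, 1, 1, 1, 0], [1, 1, 1, 0, 1, 1, 1]]
  26352841391613 [74, 110, 110, 194, 140, 176, 254] 201898563595 :=
  dec4 2 11 1 _ _ 35148934413821 _ [76, 112, 124, 196, 154, 190, 256] _ (by decide +kernel) nd665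

theorem nd667 : Ok 4 Dn4 [[1, 0, 0, 0, 1, 0, 0], [1, 1, 0, 0, 0, 0, 0], [2, 2, 2, 0, 1, 1, 0],
  [1, 1, 1, 1, 0, 0, 0], [1, 1, 1, 0, 1, 0, 0], [1, 1, 1, 1, 1, 1, 0], [1, 1, 1, 0, 1, 1, 1]]
  25803085577725 [72, 108, 108, 180, 126, 162, 252] 201898563595 :=
  dec4 2 7 1 _ _ 26352841391613 _ [74, 110, 110, 194, 140, 176, 254] _ (by decide +kernel) nd666

theorem nd668 : Ok 4 Dn4 [[1, 0, 0, 0, 1, 0, 0], [1, 1, 0, 0, 0, 0, 0], [2, 2, 2, 0, 1, 1, 0],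
  [1, 1, 1, 1, 0, 0, 0], [1, 1, 1, 0, 1, 0, 0], [0, 0, 0, 0, 1, 1, 0], [1, 1, 1, 0, 1, 1, 1]]
  25803085577725 [72, 108, 108, 180, 126, 162, 252] 154672506269 :=
  cut4 3 5 1 1 1 _ [[1, 0, 0, 0, 1, 0, 0], [1, 1, 0, 0, 0, 0, 0], [2, 2, 2, 0, 1, 1, 0], [1, 1,
  1, 1, 1, 1, 0], [1, 1, 1, 0, 1, 0, 0], [0, 0, 0, 0, 1, 1, 0], [1, 1, 1, 0, 1, 1, 1]] [[1, 0, 0,
  0, 1, 0, 0], [1, 1, 0, 0, 0, 0, 0], [2, 2, 2, 0, 1, 1, 0], [1, 1, 1, 1, 0, 0, 0], [1, 1, 1, 0,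
  1, 0, 0], [1, 1, 1, 1, 1, 1, 0], [1, 1, 1, 0, 1, 1, 1]] _ _ 131059477605 201898563595 _ (by
  decide +kernel) nd655 nd667

theorem nd669 : Ok 4 Dn4 [[1, 0, 0, 0, 1, 0, 0], [1, 1, 0, 0, 0, 0, 0], [2, 2, 2, 0, 1, 1, 0],
  [1, 1, 1, 1, 0, 0, 0], [1, 1, 1, 0, 1, 0, 0], [0, 0, 0, 0, 1, 1, 0], [1, 1, 1, 0, 1, 1, 1]]
  25528207670781 [72, 108, 108, 180, 126, 162, 252] 154672506269 :=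
  dec4 2 6 0 _ _ 25803085577725 _ [72, 108, 108, 180, 126, 162, 252] _ (by decide +kernel) nd668

theorem nd670 : Ok 4 Dn4 [[1, 0, 0, 0, 1, 0, 0], [1, 1, 0, 0, 0, 0, 0], [2, 2, 2, 0, 1, 1, 0],
  [1, 1, 1, 1, 0, 0, 0], [1, 1, 1, 0, 1, 0, 0], [0, 0, 0, 0, 1, 1, 0], [1, 1, 1, 0, 1, 1, 1]]
  25390768717309 [72, 108, 108, 180, 126, 162, 252] 154672506269 :=
  dec4 2 5 0 _ _ 25528207670781 _ [72, 108, 108, 180, 126, 162, 252] _ (by decide +kernel) nd669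

theorem nd671 : Ok 4 Dn4 [[1, 0, 0, 0, 1, 0, 0], [1, 1, 0, 0, 0, 0, 0], [3, 2, 2, 0, 1, 0, 0],
  [1, 1, 1, 1, 0, 0, 0], [1, 1, 1, 0, 1, 0, 0], [2, 2, 2, 0, 1, 1, 0], [1, 1, 1, 0, 1, 1, 1]]
  211105154596349 [87, 159, 159, 255, 231, 267, 267] 72183602401 :=
  cut4 0 5 1 1 1 _ [[3, 2, 2, 0, 2, 1, 0], [1, 1, 0, 0, 0, 0, 0], [3, 2, 2, 0, 1, 0, 0], [1, 1,
  1, 1, 0, 0, 0], [1, 1, 1, 0, 1, 0, 0], [2, 2, 2, 0, 1, 1, 0], [1, 1, 1, 0, 1, 1, 1]] [[1, 0, 0,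
  0, 1, 0, 0], [1, 1, 0, 0, 0, 0, 0], [3, 2, 2, 0, 1, 0, 0], [1, 1, 1, 1, 0, 0, 0], [1, 1, 1, 0,
  1, 0, 0], [3, 2, 2, 0, 2, 1, 0], [1, 1, 1, 0, 1, 1, 1]] _ _ 42291330645 79656670339 _ (by
  decide +kernel) ok310 ok311

theorem nd672 : Ok 4 Dn4 [[1, 0, 0, 0, 1, 0, 0], [1, 1, 0, 0, 0, 0, 0], [3, 2, 2, 0, 1, 0, 0],
  [1, 1, 1, 1, 0, 0, 0], [1, 1, 1, 0, 1, 0, 0], [2, 2, 2, 0, 1, 1, 0], [1, 1, 1, 0, 1, 1, 1]]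
  210830276689405 [87, 159, 159, 255, 231, 267, 267] 72183602401 :=
  dec4 2 6 0 _ _ 211105154596349 _ [87, 159, 159, 255, 231, 267, 267] _ (by decide +kernel) nd671

theorem nd673 : Ok 4 Dn4 [[1, 0, 0, 0, 1, 0, 0], [1, 1, 0, 0, 0, 0, 0], [1, 1, 1, 0, 0, 0, 0],
  [1, 1, 1, 1, 0, 0, 0], [1, 1, 1, 0, 1, 0, 0], [2, 2, 2, 0, 1, 1, 0], [1, 1, 1, 0, 1, 1, 1]]
  210830276689405 [87, 159, 159, 255, 231, 267, 267] 100229063695 :=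
  cut4 0 2 1 2 1 _ [[3, 2, 2, 0, 1, 0, 0], [1, 1, 0, 0, 0, 0, 0], [1, 1, 1, 0, 0, 0, 0], [1, 1,
  1, 1, 0, 0, 0], [1, 1, 1, 0, 1, 0, 0], [2, 2, 2, 0, 1, 1, 0], [1, 1, 1, 0, 1, 1, 1]] [[1, 0, 0,
  0, 1, 0, 0], [1, 1, 0, 0, 0, 0, 0], [3, 2, 2, 0, 1, 0, 0], [1, 1, 1, 1, 0, 0, 0], [1, 1, 1, 0,
  1, 0, 0], [2, 2, 2, 0, 1, 1, 0], [1, 1, 1, 0, 1, 1, 1]] _ _ 184365447575 72183602401 _ (by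
  decide +kernel) ok309 nd672

theorem nd674 : Ok 4 Dn4 [[1, 0, 0, 0, 1, 0, 0], [1, 1, 0, 0, 0, 0, 0], [1, 1, 1, 0, 0, 0, 0],
  [1, 1, 1, 1, 0, 0, 0], [1, 1, 1, 0, 1, 0, 0], [2, 2, 2, 0, 1, 1, 0], [1, 1, 1, 0, 1, 1, 1]]
  70092788334077 [86, 158, 158, 254, 224, 260, 266] 100229063695 :=
  dec4 2 15 1 _ _ 210830276689405 _ [87, 159, 159, 255, 231, 267, 267] _ (by decide +kernel) nd673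

theorem nd675 : Ok 4 Dn4 [[1, 0, 0, 0, 1, 0, 0], [1, 1, 0, 0, 0, 0, 0], [1, 1, 1, 0, 0, 0, 0],
  [1, 1, 1, 1, 0, 0, 0], [1, 1, 1, 0, 1, 0, 0], [2, 2, 2, 0, 1, 1, 0], [1, 1, 1, 0, 1, 1, 1]]
  34908416245245 [84, 144, 156, 252, 210, 246, 264] 100229063695 :=
  dec4 2 13 1 _ _ 70092788334077 _ [86, 158, 158, 254, 224, 260, 266] _ (by decide +kernel) nd674

theorem nd676 : Ok 4 Dn4 [[1, 0, 0, 0, 1, 0, 0], [1, 1, 0, 0, 0, 0, 0], [1, 1, 1, 0, 0, 0, 0],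
  [1, 1, 1, 1, 0, 0, 0], [1, 1, 1, 0, 1, 0, 0], [2, 2, 2, 0, 1, 1, 0], [1, 1, 1, 0, 1, 1, 1]]
  26112323223037 [82, 142, 142, 250, 196, 232, 262] 100229063695 :=
  dec4 2 11 1 _ _ 34908416245245 _ [84, 144, 156, 252, 210, 246, 264] _ (by decide +kernel) nd675

theorem nd677 : Ok 4 Dn4 [[1, 0, 0, 0, 1, 0, 0], [1, 1, 0, 0, 0, 0, 0], [1, 1, 1, 0, 0, 0, 0],
  [1, 1, 1, 1, 0, 0, 0], [1, 1, 1, 0, 1, 0, 0], [2, 2, 2, 0, 1, 1, 0], [1, 1, 1, 0, 1, 1, 1]]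
  25562567409149 [80, 140, 140, 236, 182, 218, 260] 100229063695 :=
  dec4 2 7 1 _ _ 26112323223037 _ [82, 142, 142, 250, 196, 232, 262] _ (by decide +kernel) nd676

theorem nd678 : Ok 4 Dn4 [[1, 0, 0, 0, 1, 0, 0], [1, 1, 0, 0, 0, 0, 0], [1, 1, 1, 0, 0, 0, 0],
  [1, 1, 1, 1, 0, 0, 0], [1, 1, 1, 0, 1, 0, 0], [2, 2, 2, 0, 1, 1, 0], [1, 1, 1, 0, 1, 1, 1]]
  25425128455677 [76, 112, 136, 208, 154, 190, 256] 100229063695 :=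
  dec4 2 5 1 _ _ 25562567409149 _ [80, 140, 140, 236, 182, 218, 260] _ (by decide +kernel) nd677

theorem nd679 : Ok 4 Dn4 [[1, 0, 0, 0, 1, 0, 0], [1, 1, 0, 0, 0, 0, 0], [1, 1, 1, 0, 0, 0, 0],
  [1, 1, 1, 1, 0, 0, 0], [1, 1, 1, 0, 1, 0, 0], [2, 2, 2, 0, 1, 1, 0], [1, 1, 1, 0, 1, 1, 1]]
  25390768717309 [72, 108, 108, 180, 126, 162, 252] 100229063695 :=
  dec4 2 3 1 _ _ 25425128455677 _ [76, 112, 136, 208, 154, 190, 256] _ (by decide +kernel) nd678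

theorem nd680 : Ok 4 Dn4 [[1, 0, 0, 0, 1, 0, 0], [1, 1, 0, 0, 0, 0, 0], [1, 1, 1, 0, 0, 0, 0],
  [1, 1, 1, 1, 0, 0, 0], [1, 1, 1, 0, 1, 0, 0], [0, 0, 0, 0, 1, 1, 0], [1, 1, 1, 0, 1, 1, 1]]
  25390768717309 [72, 108, 108, 180, 126, 162, 252] 141061645626 :=
  cut4 2 5 2 1 1 _ [[1, 0, 0, 0, 1, 0, 0], [1, 1, 0, 0, 0, 0, 0], [2, 2, 2, 0, 1, 1, 0], [1, 1,
  1, 1, 0, 0, 0], [1, 1, 1, 0, 1, 0, 0], [0, 0, 0, 0, 1, 1, 0], [1, 1, 1, 0, 1, 1, 1]] [[1, 0, 0,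
  0, 1, 0, 0], [1, 1, 0, 0, 0, 0, 0], [1, 1, 1, 0, 0, 0, 0], [1, 1, 1, 1, 0, 0, 0], [1, 1, 1, 0,
  1, 0, 0], [2, 2, 2, 0, 1, 1, 0], [1, 1, 1, 0, 1, 1, 1]] _ _ 154672506269 100229063695 _ (by
  decide +kernel) nd670 nd679

theorem nd681 : Ok 4 Dn4 [[1, 0, 0, 0, 1, 0, 0], [1, 1, 0, 0, 0, 0, 0], [1, 1, 1, 0, 0, 0, 0],
  [1, 1, 1, 1, 0, 0, 0], [1, 1, 1, 0, 1, 0, 0], [0, 0, 0, 0, 1, 1, 0], [1, 1, 1, 0, 1, 1, 1]]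
  25388621233661 [71, 107, 107, 179, 119, 161, 245] 141061645626 :=
  dec4 1 15 1 _ _ 25390768717309 _ [72, 108, 108, 180, 126, 162, 252] _ (by decide +kernel) nd680

theorem nd682 : Ok 4 Dn4 [[1, 0, 0, 0, 1, 0, 0], [1, 1, 0, 0, 0, 0, 0], [1, 1, 1, 0, 0, 0, 0],
  [1, 1, 1, 1, 0, 0, 0], [1, 1, 1, 0, 1, 0, 0], [0, 0, 0, 0, 1, 1, 0], [1, 1, 1, 0, 1, 1, 1]]
  25388084362749 [69, 93, 105, 177, 105, 159, 231] 141061645626 :=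
  dec4 1 13 1 _ _ 25388621233661 _ [71, 107, 107, 179, 119, 161, 245] _ (by decide +kernel) nd681

theorem nd683 : Ok 4 Dn4 [[1, 0, 0, 0, 1, 0, 0], [1, 1, 0, 0, 0, 0, 0], [1, 1, 1, 0, 0, 0, 0],
  [1, 1, 1, 1, 0, 0, 0], [1, 1, 1, 0, 1, 0, 0], [0, 0, 0, 0, 1, 1, 0], [1, 1, 1, 0, 1, 1, 1]]
  25387950145021 [67, 91, 91, 175, 91, 157, 217] 141061645626 :=
  dec4 1 11 1 _ _ 25388084362749 _ [69, 93, 105, 177, 105, 159, 231] _ (by decide +kernel) nd682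

theorem nd684 : Ok 4 Dn4 [[1, 0, 0, 0, 1, 0, 0], [1, 1, 0, 0, 0, 0, 0], [1, 1, 1, 0, 0, 0, 0],
  [1, 1, 1, 1, 0, 0, 0], [1, 1, 1, 0, 1, 0, 0], [0, 0, 0, 0, 1, 1, 0], [1, 1, 1, 0, 1, 1, 1]]
  25387941756413 [65, 89, 89, 161, 77, 155, 203] 141061645626 :=
  dec4 1 7 1 _ _ 25387950145021 _ [67, 91, 91, 175, 91, 157, 217] _ (by decide +kernel) nd683

theorem nd685 : Ok 4 Dn4 [[1, 0, 0, 0, 1, 0, 0], [1, 1, 0, 0, 0, 0, 0], [1, 1, 1, 0, 0, 0, 0],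
  [1, 1, 1, 1, 0, 0, 0], [1, 1, 1, 0, 1, 0, 0], [0, 0, 0, 0, 1, 1, 0], [1, 1, 1, 0, 1, 1, 1]]
  25387939659261 [61, 61, 85, 133, 49, 151, 175] 141061645626 :=
  dec4 1 5 1 _ _ 25387941756413 _ [65, 89, 89, 161, 77, 155, 203] _ (by decide +kernel) nd684

theorem nd686 : Ok 4 Dn4 [[1, 0, 0, 0, 1, 0, 0], [1, 1, 0, 0, 0, 0, 0], [1, 1, 1, 0, 0, 0, 0],
  [1, 1, 1, 1, 0, 0, 0], [1, 1, 1, 0, 1, 0, 0], [0, 0, 0, 0, 1, 1, 0], [1, 1, 1, 0, 1, 1, 1]]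
  25387939134973 [57, 57, 57, 105, 21, 147, 147] 141061645626 :=
  dec4 1 3 1 _ _ 25387939659261 _ [61, 61, 85, 133, 49, 151, 175] _ (by decide +kernel) nd685

theorem nd687 : Ok 4 Dn4 [[1, 0, 0, 0, 1, 0, 0], [1, 1, 0, 0, 0, 0, 0], [1, 1, 1, 0, 0, 0, 0],
  [1, 1, 1, 1, 0, 0, 0], [1, 1, 1, 0, 1, 0, 0], [0, 0, 0, 0, 1, 1, 0], [1, 1, 1, 0, 1, 1, 1]]
  25387939130877 [57, 57, 57, 105, 21, 147, 147] 141061645626 :=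
  dec4 0 12 0 _ _ 25387939134973 _ [57, 57, 57, 105, 21, 147, 147] _ (by decide +kernel) nd686

theorem nd688 : Ok 4 Dn4 [[1, 0, 0, 0, 1, 0, 0], [1, 1, 0, 0, 0, 0, 0], [1, 1, 1, 0, 0, 0, 0],
  [1, 1, 1, 1, 0, 0, 0], [1, 1, 1, 0, 1, 0, 0], [0, 0, 0, 0, 1, 1, 0], [1, 1, 1, 0, 1, 1, 1]]
  25387939129853 [57, 57, 57, 105, 21, 147, 147] 141061645626 :=
  dec4 0 10 0 _ _ 25387939130877 _ [57, 57, 57, 105, 21, 147, 147] _ (by decide +kernel) nd687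

theorem nd689 : Ok 4 Dn4 [[1, 0, 0, 0, 1, 0, 0], [1, 1, 0, 0, 0, 0, 0], [1, 1, 1, 0, 0, 0, 0],
  [1, 1, 1, 1, 0, 0, 0], [1, 1, 1, 0, 1, 0, 0], [0, 0, 0, 0, 1, 1, 0], [1, 1, 1, 0, 1, 1, 1]]
  25387939129597 [57, 57, 57, 105, 21, 147, 147] 141061645626 :=
  dec4 0 8 0 _ _ 25387939129853 _ [57, 57, 57, 105, 21, 147, 147] _ (by decide +kernel) nd688

theorem nd690 : Ok 4 Dn4 [[1, 0, 0, 0, 1, 0, 0], [1, 1, 0, 0, 0, 0, 0], [1, 1, 1, 0, 0, 0, 0],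
  [1, 1, 1, 1, 0, 0, 0], [1, 1, 1, 0, 1, 0, 0], [0, 0, 0, 0, 1, 1, 0], [1, 1, 1, 0, 1, 1, 1]]
  25387939129581 [57, 57, 57, 105, 21, 147, 147] 141061645626 :=
  dec4 0 4 0 _ _ 25387939129597 _ [57, 57, 57, 105, 21, 147, 147] _ (by decide +kernel) nd689

theorem nd691 : Ok 4 Dn4 [[1, 0, 0, 0, 1, 0, 0], [1, 1, 0, 0, 0, 0, 0], [1, 1, 1, 0, 0, 0, 0],
  [1, 1, 1, 1, 0, 0, 0], [1, 1, 1, 0, 1, 0, 0], [0, 0, 0, 0, 1, 1, 0], [1, 1, 1, 0, 1, 1, 1]]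
  25387939129577 [57, 57, 57, 105, 21, 147, 147] 141061645626 :=
  dec4 0 2 0 _ _ 25387939129581 _ [57, 57, 57, 105, 21, 147, 147] _ (by decide +kernel) nd690

theorem nd692 : Ok 4 Dn4 [[1, 0, 0, 0, 1, 0, 0], [1, 1, 0, 0, 0, 0, 0], [1, 1, 1, 0, 0, 0, 0],
  [1, 1, 1, 1, 0, 0, 0], [1, 1, 1, 0, 1, 0, 0], [0, 0, 0, 0, 1, 1, 0], [1, 1, 1, 0, 1, 1, 1]]
  25387939129576 [57, 57, 57, 105, 21, 147, 147] 141061645626 :=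
  dec4 0 0 0 _ _ 25387939129577 _ [57, 57, 57, 105, 21, 147, 147] _ (by decide +kernel) nd691

end Pool.Agent.Work.MP_122e00_nt.Sharp.Cx

end

section

set_option autoImplicit false

set_option maxRecDepth 100000

/-!
# The certificate: data
-/

namespace Pool.Agent.Work.MP_122e00_nt.Sharp.Cx

theorem ok312 : Ok 4 Dn4 [[1, 0, 0, 0, 1, 1, 1], [1, 1, 0, 0, 2, 2, 2], [1, 1, 1, 0, 1, 1, 1],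
  [1, 1, 1, 1, 2, 2, 2], [1, 0, 0, 0, 1, 0, 0], [0, 0, 0, 0, 1, 1, 0], [0, 0, 0, 0, 1, 1, 1]]
  131354989122901 [0, 0, 0, 0, 0, 0, 0] 1128556610352 :=
  run4 tr312 _ _ _ _ dt312

theorem ok313 : Ok 4 Dn4 [[1, 0, 0, 0, 1, 1, 1], [1, 1, 0, 0, 0, 0, 0], [1, 1, 1, 0, 1, 1, 1],
  [1, 1, 1, 1, 2, 2, 2], [2, 1, 0, 0, 3, 2, 2], [0, 0, 0, 0, 1, 1, 0], [1, 1, 0, 0, 2, 2, 2]]
  131357279247829 [10, 10, 34, 34, 40, 40, 70] 646264807804 :=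
  run4 tr313 _ _ _ _ dt313

theorem ok314 : Ok 4 Dn4 [[1, 0, 0, 0, 1, 1, 1], [1, 1, 0, 0, 0, 0, 0], [1, 1, 1, 0, 1, 1, 1],
  [1, 1, 1, 1, 2, 2, 2], [1, 0, 0, 0, 1, 0, 0], [0, 0, 0, 0, 1, 1, 0], [2, 1, 0, 0, 3, 2, 2]]
  131357279247829 [10, 10, 34, 34, 40, 40, 70] 316139388783 :=
  run4 tr314 _ _ _ _ dt314

theorem nd693 : Ok 4 Dn4 [[1, 0, 0, 0, 1, 1, 1], [1, 1, 0, 0, 0, 0, 0], [1, 1, 1, 0, 1, 1, 1],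
  [1, 1, 1, 1, 2, 2, 2], [1, 0, 0, 0, 1, 0, 0], [0, 0, 0, 0, 1, 1, 0], [1, 1, 0, 0, 2, 2, 2]]
  131357279247829 [10, 10, 34, 34, 40, 40, 70] 382164472588 :=
  cut4 4 6 1 1 1 _ [[1, 0, 0, 0, 1, 1, 1], [1, 1, 0, 0, 0, 0, 0], [1, 1, 1, 0, 1, 1, 1], [1, 1,
  1, 1, 2, 2, 2], [2, 1, 0, 0, 3, 2, 2], [0, 0, 0, 0, 1, 1, 0], [1, 1, 0, 0, 2, 2, 2]] [[1, 0, 0,
  0, 1, 1, 1], [1, 1, 0, 0, 0, 0, 0], [1, 1, 1, 0, 1, 1, 1], [1, 1, 1, 1, 2, 2, 2], [1, 0, 0, 0,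
  1, 0, 0], [0, 0, 0, 0, 1, 1, 0], [2, 1, 0, 0, 3, 2, 2]] _ _ 646264807804 316139388783 _ (by
  decide +kernel) ok313 ok314

theorem nd694 : Ok 4 Dn4 [[1, 0, 0, 0, 1, 1, 1], [1, 1, 0, 0, 0, 0, 0], [1, 1, 1, 0, 1, 1, 1],
  [1, 1, 1, 1, 2, 2, 2], [1, 0, 0, 0, 1, 0, 0], [0, 0, 0, 0, 1, 1, 0], [1, 1, 0, 0, 2, 2, 2]]
  131355131764181 [9, 9, 33, 33, 33, 39, 63] 382164472588 :=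
  dec4 1 15 1 _ _ 131357279247829 _ [10, 10, 34, 34, 40, 40, 70] _ (by decide +kernel) nd693

theorem nd695 : Ok 4 Dn4 [[1, 0, 0, 0, 1, 1, 1], [1, 1, 0, 0, 0, 0, 0], [1, 1, 1, 0, 1, 1, 1],
  [1, 1, 1, 1, 2, 2, 2], [1, 0, 0, 0, 1, 0, 0], [0, 0, 0, 0, 1, 1, 0], [1, 1, 0, 0, 2, 2, 2]]
  131354997546453 [7, 7, 19, 31, 19, 37, 49] 382164472588 :=
  dec4 1 11 1 _ _ 131355131764181 _ [9, 9, 33, 33, 33, 39, 63] _ (by decide +kernel) nd694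

theorem nd696 : Ok 4 Dn4 [[1, 0, 0, 0, 1, 1, 1], [1, 1, 0, 0, 0, 0, 0], [1, 1, 1, 0, 1, 1, 1],
  [1, 1, 1, 1, 2, 2, 2], [1, 0, 0, 0, 1, 0, 0], [0, 0, 0, 0, 1, 1, 0], [1, 1, 0, 0, 2, 2, 2]]
  131354989157845 [5, 5, 17, 17, 5, 35, 35] 382164472588 :=
  dec4 1 7 1 _ _ 131354997546453 _ [7, 7, 19, 31, 19, 37, 49] _ (by decide +kernel) nd695

theorem nd697 : Ok 4 Dn4 [[1, 0, 0, 0, 1, 1, 1], [1, 1, 0, 0, 0, 0, 0], [1, 1, 1, 0, 1, 1, 1],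
  [1, 1, 1, 1, 2, 2, 2], [1, 0, 0, 0, 1, 0, 0], [0, 0, 0, 0, 1, 1, 0], [1, 1, 0, 0, 2, 2, 2]]
  131354989125077 [4, 4, 16, 16, 4, 28, 28] 382164472588 :=
  dec4 0 15 1 _ _ 131354989157845 _ [5, 5, 17, 17, 5, 35, 35] _ (by decide +kernel) nd696

theorem nd698 : Ok 4 Dn4 [[1, 0, 0, 0, 1, 1, 1], [1, 1, 0, 0, 0, 0, 0], [1, 1, 1, 0, 1, 1, 1],
  [1, 1, 1, 1, 2, 2, 2], [1, 0, 0, 0, 1, 0, 0], [0, 0, 0, 0, 1, 1, 0], [1, 1, 0, 0, 2, 2, 2]]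
  131354989123029 [2, 2, 2, 14, 2, 14, 14] 382164472588 :=
  dec4 0 11 1 _ _ 131354989125077 _ [4, 4, 16, 16, 4, 28, 28] _ (by decide +kernel) nd697

theorem nd699 : Ok 4 Dn4 [[1, 0, 0, 0, 1, 1, 1], [1, 1, 0, 0, 0, 0, 0], [1, 1, 1, 0, 1, 1, 1],
  [1, 1, 1, 1, 2, 2, 2], [1, 0, 0, 0, 1, 0, 0], [0, 0, 0, 0, 1, 1, 0], [1, 1, 0, 0, 2, 2, 2]]
  131354989122901 [0, 0, 0, 0, 0, 0, 0] 382164472588 :=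
  dec4 0 7 1 _ _ 131354989123029 _ [2, 2, 2, 14, 2, 14, 14] _ (by decide +kernel) nd698

theorem nd700 : Ok 4 Dn4 [[1, 0, 0, 0, 1, 1, 1], [1, 1, 0, 0, 0, 0, 0], [1, 1, 1, 0, 1, 1, 1],
  [1, 1, 1, 1, 2, 2, 2], [1, 0, 0, 0, 1, 0, 0], [0, 0, 0, 0, 1, 1, 0], [0, 0, 0, 0, 1, 1, 1]]
  131354989122901 [0, 0, 0, 0, 0, 0, 0] 568762507029 :=
  cut4 1 6 1 2 1 _ [[1, 0, 0, 0, 1, 1, 1], [1, 1, 0, 0, 2, 2, 2], [1, 1, 1, 0, 1, 1, 1], [1, 1,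
  1, 1, 2, 2, 2], [1, 0, 0, 0, 1, 0, 0], [0, 0, 0, 0, 1, 1, 0], [0, 0, 0, 0, 1, 1, 1]] [[1, 0, 0,
  0, 1, 1, 1], [1, 1, 0, 0, 0, 0, 0], [1, 1, 1, 0, 1, 1, 1], [1, 1, 1, 1, 2, 2, 2], [1, 0, 0, 0,
  1, 0, 0], [0, 0, 0, 0, 1, 1, 0], [1, 1, 0, 0, 2, 2, 2]] _ _ 1128556610352 382164472588 _ (by
  decide +kernel) ok312 nd699

theorem nd701 : Ok 4 Dn4 [[1, 0, 0, 0, 1, 1, 1], [1, 1, 0, 0, 0, 0, 0], [1, 1, 1, 0, 1, 1, 1],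
  [1, 1, 1, 1, 2, 2, 2], [1, 0, 0, 0, 1, 0, 0], [0, 0, 0, 0, 1, 1, 0], [0, 0, 0, 0, 1, 1, 1]]
  60986244945237 [0, 0, 0, 0, 0, 0, 0] 568762507029 :=
  dec4 2 14 0 _ _ 131354989122901 _ [0, 0, 0, 0, 0, 0, 0] _ (by decide +kernel) nd700

theorem nd702 : Ok 4 Dn4 [[1, 0, 0, 0, 1, 1, 1], [1, 1, 0, 0, 0, 0, 0], [1, 1, 1, 0, 1, 1, 1],
  [1, 1, 1, 1, 2, 2, 2], [1, 0, 0, 0, 1, 0, 0], [0, 0, 0, 0, 1, 1, 0], [0, 0, 0, 0, 1, 1, 1]]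
  25801872856405 [0, 0, 0, 0, 0, 0, 0] 568762507029 :=
  dec4 2 13 0 _ _ 60986244945237 _ [0, 0, 0, 0, 0, 0, 0] _ (by decide +kernel) nd701

theorem nd703 : Ok 4 Dn4 [[1, 0, 0, 0, 1, 1, 1], [1, 1, 0, 0, 0, 0, 0], [1, 1, 1, 0, 1, 1, 1],
  [1, 1, 1, 1, 2, 2, 2], [1, 0, 0, 0, 1, 0, 0], [0, 0, 0, 0, 1, 1, 0], [0, 0, 0, 0, 1, 1, 1]]
  25800799114581 [0, 0, 0, 0, 0, 0, 0] 568762507029 :=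
  dec4 1 14 0 _ _ 25801872856405 _ [0, 0, 0, 0, 0, 0, 0] _ (by decide +kernel) nd702

theorem nd704 : Ok 4 Dn4 [[1, 0, 0, 0, 1, 1, 1], [1, 1, 0, 0, 0, 0, 0], [1, 1, 1, 0, 1, 1, 1],
  [1, 1, 1, 1, 2, 2, 2], [1, 0, 0, 0, 1, 0, 0], [0, 0, 0, 0, 1, 1, 0], [0, 0, 0, 0, 1, 1, 1]]
  25800262243669 [0, 0, 0, 0, 0, 0, 0] 568762507029 :=
  dec4 1 13 0 _ _ 25800799114581 _ [0, 0, 0, 0, 0, 0, 0] _ (by decide +kernel) nd703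

theorem nd705 : Ok 4 Dn4 [[1, 0, 0, 0, 1, 1, 1], [1, 1, 0, 0, 0, 0, 0], [1, 1, 1, 0, 1, 1, 1],
  [1, 1, 1, 1, 2, 2, 2], [1, 0, 0, 0, 1, 0, 0], [0, 0, 0, 0, 1, 1, 0], [0, 0, 0, 0, 1, 1, 1]]
  25800262227285 [0, 0, 0, 0, 0, 0, 0] 568762507029 :=
  dec4 0 14 0 _ _ 25800262243669 _ [0, 0, 0, 0, 0, 0, 0] _ (by decide +kernel) nd704

end Pool.Agent.Work.MP_122e00_nt.Sharp.Cx

end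

section

set_option autoImplicit false

set_option maxRecDepth 100000

/-!
# The certificate: data
-/

namespace Pool.Agent.Work.MP_122e00_nt.Sharp.Cx

theorem ok315 : Ok 4 Dn4 [[2, 1, 1, 1, 2, 2, 1], [1, 1, 0, 0, 1, 1, 0], [1, 1, 1, 0, 2, 2, 1],
  [3, 2, 2, 2, 4, 3, 2], [2, 1, 1, 1, 3, 2, 2], [0, 0, 0, 0, 1, 1, 0], [1, 1, 1, 1, 2, 2, 2]]
  140736414089207 [28, 40, 40, 40, 58, 70, 112] 4336436941834 :=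
  run4 tr315 _ _ _ _ dt315

theorem ok316 : Ok 4 Dn4 [[2, 1, 1, 1, 2, 2, 1], [2, 2, 1, 1, 3, 3, 2], [1, 1, 1, 0, 2, 2, 1],
  [1, 1, 1, 1, 1, 1, 0], [3, 2, 2, 2, 4, 3, 2], [0, 0, 0, 0, 1, 1, 0], [1, 1, 1, 1, 2, 2, 2]]
  140737487831031 [42, 42, 42, 42, 72, 72, 126] 14615187425402 :=
  run4 tr316 _ _ _ _ dt316

theorem ok317 : Ok 4 Dn4 [[2, 1, 1, 1, 2, 2, 1], [1, 1, 0, 0, 1, 1, 0], [1, 1, 1, 0, 2, 2, 1],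
  [1, 1, 1, 1, 1, 1, 0], [3, 2, 2, 2, 4, 3, 2], [0, 0, 0, 0, 1, 1, 0], [2, 2, 1, 1, 3, 3, 2]]
  140737487831031 [42, 42, 42, 42, 72, 72, 126] 4055896900129 :=
  run4 tr317 _ _ _ _ dt317

theorem ok318 : Ok 4 Dn4 [[2, 1, 1, 1, 2, 2, 1], [1, 1, 0, 0, 1, 1, 0], [1, 1, 1, 0, 1, 1, 1],
  [1, 1, 1, 1, 1, 1, 0], [2, 1, 1, 1, 3, 2, 2], [1, 1, 1, 0, 2, 2, 1], [1, 1, 1, 1, 2, 2, 2]]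
  140186658275319 [28, 40, 40, 40, 58, 70, 112] 6738099066078 :=
  run4 tr318 _ _ _ _ dt318

theorem ok319 : Ok 4 Dn4 [[1, 0, 0, 0, 1, 1, 1], [1, 1, 0, 0, 1, 1, 0], [1, 1, 1, 0, 1, 1, 1],
  [2, 1, 1, 1, 2, 2, 1], [2, 1, 1, 1, 3, 2, 2], [0, 0, 0, 0, 1, 1, 0], [1, 1, 1, 1, 2, 2, 2]]
  140186658258935 [14, 38, 38, 38, 56, 56, 98] 1987151866271 :=
  run4 tr319 _ _ _ _ dt319

theorem ok320 : Ok 4 Dn4 [[2, 1, 1, 1, 2, 2, 1], [1, 1, 0, 0, 1, 1, 0], [2, 1, 1, 0, 3, 2, 1],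
  [3, 2, 2, 2, 4, 3, 2], [1, 0, 0, 0, 1, 0, 0], [0, 0, 0, 0, 1, 1, 0], [2, 1, 1, 1, 3, 2, 2]]
  140187732017149 [40, 100, 100, 100, 70, 154, 196] 604957610927 :=
  run4 tr320 _ _ _ _ dt320

theorem ok321 : Ok 4 Dn4 [[2, 1, 1, 1, 2, 2, 1], [1, 1, 0, 0, 1, 1, 0], [2, 1, 1, 0, 2, 1, 1],
  [3, 2, 2, 2, 4, 3, 2], [1, 0, 0, 0, 1, 0, 0], [2, 1, 1, 0, 3, 2, 1], [2, 1, 1, 1, 3, 2, 2]]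
  140187732017149 [40, 100, 100, 100, 70, 154, 196] 639462162629 :=
  run4 tr321 _ _ _ _ dt321

theorem ok322 : Ok 4 Dn4 [[2, 1, 1, 1, 2, 2, 1], [1, 1, 0, 0, 1, 1, 0], [1, 1, 1, 0, 1, 1, 1],
  [3, 2, 2, 2, 4, 3, 2], [2, 1, 1, 0, 2, 1, 1], [0, 0, 0, 0, 1, 1, 0], [2, 1, 1, 1, 3, 2, 2]]
  140187732016637 [36, 72, 72, 96, 66, 126, 168] 1112800348395 :=
  run4 tr322 _ _ _ _ dt322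

theorem ok323 : Ok 4 Dn4 [[3, 1, 1, 1, 4, 3, 1], [1, 1, 0, 0, 1, 1, 0], [4, 2, 2, 1, 6, 4, 1],
  [2, 1, 1, 1, 3, 2, 0], [1, 0, 0, 0, 1, 0, 0], [0, 0, 0, 0, 1, 1, 0], [3, 2, 2, 2, 4, 3, 2]]
  140737487831037 [40, 100, 100, 100, 70, 154, 196] 448990237427 :=
  run4 tr323 _ _ _ _ dt323

theorem ok324 : Ok 4 Dn4 [[3, 1, 1, 1, 4, 3, 1], [1, 1, 0, 0, 1, 1, 0], [2, 1, 1, 0, 3, 2, 1],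
  [4, 2, 2, 1, 6, 4, 1], [1, 0, 0, 0, 1, 0, 0], [0, 0, 0, 0, 1, 1, 0], [3, 2, 2, 2, 4, 3, 2]]
  140737487831037 [40, 100, 100, 100, 70, 154, 196] 274141333800 :=
  run4 tr324 _ _ _ _ dt324

theorem ok325 : Ok 4 Dn4 [[3, 1, 1, 1, 4, 3, 1], [1, 1, 0, 0, 1, 1, 0], [2, 1, 1, 0, 3, 2, 1],
  [2, 1, 1, 1, 2, 1, 0], [1, 0, 0, 0, 1, 0, 0], [2, 1, 1, 1, 3, 2, 0], [3, 2, 2, 2, 4, 3, 2]]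
  140737487831037 [40, 100, 100, 100, 70, 154, 196] 1076224944070 :=
  run4 tr325 _ _ _ _ dt325

theorem ok326 : Ok 4 Dn4 [[2, 1, 1, 1, 3, 3, 1], [1, 1, 0, 0, 1, 1, 0], [2, 1, 1, 0, 3, 2, 1],
  [2, 1, 1, 1, 2, 1, 0], [3, 1, 1, 1, 4, 3, 1], [0, 0, 0, 0, 1, 1, 0], [3, 2, 2, 2, 4, 3, 2]]
  140737487831037 [40, 100, 100, 100, 70, 154, 196] 1134258225063 :=
  run4 tr326 _ _ _ _ dt326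

theorem ok327 : Ok 4 Dn4 [[2, 1, 1, 1, 2, 2, 1], [1, 1, 0, 0, 1, 1, 0], [2, 1, 1, 0, 3, 2, 1],
  [2, 1, 1, 1, 2, 1, 0], [1, 0, 0, 0, 1, 0, 0], [2, 1, 1, 1, 3, 3, 1], [3, 2, 2, 2, 4, 3, 2]]
  140737487831037 [40, 100, 100, 100, 70, 154, 196] 1602128441577 :=
  run4 tr327 _ _ _ _ dt327

theorem ok328 : Ok 4 Dn4 [[2, 1, 1, 1, 2, 2, 1], [1, 1, 0, 0, 1, 1, 0], [2, 1, 1, 0, 2, 1, 1],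
  [2, 1, 1, 1, 2, 1, 0], [1, 0, 0, 0, 1, 0, 0], [2, 1, 1, 0, 3, 2, 1], [3, 2, 2, 2, 4, 3, 2]]
  140187732017149 [40, 100, 100, 100, 70, 154, 196] 862707634383 :=
  run4 tr328 _ _ _ _ dt328

theorem ok329 : Ok 4 Dn4 [[2, 1, 1, 1, 2, 2, 1], [1, 1, 0, 0, 1, 1, 0], [1, 1, 1, 0, 1, 1, 1],
  [2, 1, 1, 1, 2, 1, 0], [2, 1, 1, 0, 3, 2, 1], [0, 0, 0, 0, 1, 1, 0], [3, 2, 2, 2, 4, 3, 2]]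
  140187732016639 [36, 72, 72, 96, 66, 126, 168] 1241137748958 :=
  run4 tr329 _ _ _ _ dt329

theorem ok330 : Ok 4 Dn4 [[2, 1, 1, 1, 2, 2, 1], [1, 1, 0, 0, 1, 1, 0], [1, 1, 1, 0, 1, 1, 1],
  [2, 1, 1, 1, 2, 1, 0], [2, 1, 1, 0, 2, 1, 1], [2, 1, 1, 0, 3, 2, 1], [3, 2, 2, 2, 4, 3, 2]]
  140187732016639 [36, 72, 72, 96, 66, 126, 168] 1570794522134 :=
  run4 tr330 _ _ _ _ dt330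

theorem ok331 : Ok 4 Dn4 [[2, 1, 1, 1, 2, 2, 1], [1, 1, 0, 0, 1, 1, 0], [3, 2, 2, 1, 4, 3, 1],
  [1, 1, 1, 1, 1, 1, 0], [2, 1, 1, 1, 2, 1, 0], [0, 0, 0, 0, 1, 1, 0], [3, 2, 2, 2, 4, 3, 2]]
  140737487830527 [50, 74, 74, 98, 80, 128, 182] 2416650099931 :=
  run4 tr331 _ _ _ _ dt331

theorem ok332 : Ok 4 Dn4 [[2, 1, 1, 1, 2, 2, 1], [1, 1, 0, 0, 1, 1, 0], [1, 1, 1, 0, 2, 2, 1],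
  [1, 1, 1, 1, 1, 1, 0], [3, 2, 2, 1, 4, 3, 1], [0, 0, 0, 0, 1, 1, 0], [3, 2, 2, 2, 4, 3, 2]]
  140737487830527 [50, 74, 74, 98, 80, 128, 182] 2287692764715 :=
  run4 tr332 _ _ _ _ dt332

theorem ok333 : Ok 4 Dn4 [[2, 1, 1, 1, 2, 2, 1], [1, 1, 0, 0, 1, 1, 0], [1, 1, 1, 0, 1, 1, 1],
  [1, 1, 1, 1, 1, 1, 0], [2, 1, 1, 1, 2, 1, 0], [1, 1, 1, 0, 2, 2, 1], [3, 2, 2, 2, 4, 3, 2]]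
  140187732016639 [50, 74, 74, 98, 80, 128, 182] 3165713440816 :=
  run4 tr333 _ _ _ _ dt333

theorem ok334 : Ok 4 Dn4 [[1, 0, 0, 0, 1, 1, 1], [1, 1, 0, 0, 1, 1, 0], [1, 1, 1, 0, 1, 1, 1],
  [2, 1, 1, 1, 2, 2, 1], [1, 0, 0, 0, 1, 0, 0], [0, 0, 0, 0, 1, 1, 0], [2, 1, 1, 1, 3, 2, 2]]
  140186658258429 [22, 70, 70, 94, 64, 112, 154] 264077836693 :=
  run4 tr334 _ _ _ _ dt334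

theorem ok335 : Ok 4 Dn4 [[1, 0, 0, 0, 1, 1, 1], [1, 1, 0, 0, 0, 0, 0], [1, 1, 1, 0, 1, 1, 1],
  [1, 1, 1, 1, 1, 1, 0], [2, 1, 1, 1, 3, 2, 2], [1, 1, 0, 0, 1, 1, 0], [1, 1, 1, 1, 2, 2, 2]]
  281439542689237 [19, 43, 55, 55, 91, 91, 103] 3678794967250 :=
  run4 tr335 _ _ _ _ dt335

theorem ok336 : Ok 4 Dn4 [[2, 1, 1, 1, 2, 2, 1], [3, 2, 1, 1, 3, 2, 2], [2, 1, 1, 0, 2, 1, 1],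
  [2, 1, 1, 1, 2, 1, 0], [1, 0, 0, 0, 1, 0, 0], [1, 1, 0, 0, 1, 1, 0], [2, 1, 1, 1, 3, 2, 2]]
  281440616447997 [45, 105, 117, 117, 105, 189, 201] 781667932849 :=
  run4 tr336 _ _ _ _ dt336

theorem ok337 : Ok 4 Dn4 [[3, 1, 1, 1, 3, 2, 1], [1, 1, 0, 0, 0, 0, 0], [2, 1, 1, 0, 2, 1, 1],
  [2, 1, 1, 1, 2, 1, 0], [1, 0, 0, 0, 1, 0, 0], [1, 1, 0, 0, 1, 1, 0], [3, 2, 1, 1, 3, 2, 2]]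
  281440616972285 [49, 109, 145, 145, 133, 193, 229] 406027251584 :=
  run4 tr337 _ _ _ _ dt337

theorem ok338 : Ok 4 Dn4 [[2, 1, 1, 1, 2, 2, 1], [1, 1, 0, 0, 0, 0, 0], [2, 1, 1, 0, 2, 1, 1],
  [2, 1, 1, 1, 2, 1, 0], [3, 1, 1, 1, 3, 2, 1], [1, 1, 0, 0, 1, 1, 0], [3, 2, 1, 1, 3, 2, 2]]
  281440616972285 [49, 109, 145, 145, 133, 193, 229] 1561927794528 :=
  run4 tr338 _ _ _ _ dt338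

theorem ok339 : Ok 4 Dn4 [[2, 1, 1, 1, 2, 2, 1], [3, 2, 1, 1, 3, 2, 2], [2, 1, 1, 0, 2, 1, 1],
  [1, 1, 1, 1, 1, 1, 0], [2, 1, 1, 1, 2, 1, 0], [1, 1, 0, 0, 1, 1, 0], [2, 1, 1, 1, 3, 2, 2]]
  281439542706175 [45, 105, 117, 117, 105, 189, 201] 2360280628644 :=
  run4 tr339 _ _ _ _ dt339

theorem ok340 : Ok 4 Dn4 [[2, 1, 1, 1, 2, 2, 1], [1, 1, 0, 0, 0, 0, 0], [2, 1, 1, 0, 2, 1, 1],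
  [1, 1, 1, 1, 1, 1, 0], [2, 1, 1, 1, 2, 1, 0], [1, 1, 0, 0, 1, 1, 0], [3, 2, 1, 1, 3, 2, 2]]
  281439542706175 [45, 105, 117, 117, 105, 189, 201] 2044912859499 :=
  run4 tr340 _ _ _ _ dt340

theorem ok341 : Ok 4 Dn4 [[2, 1, 1, 1, 2, 2, 1], [1, 1, 0, 0, 0, 0, 0], [1, 1, 1, 0, 1, 1, 1],
  [1, 1, 1, 1, 1, 1, 0], [2, 1, 1, 0, 2, 1, 1], [1, 1, 0, 0, 1, 1, 0], [2, 1, 1, 1, 3, 2, 2]]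
  281439542705661 [41, 77, 89, 113, 101, 161, 173] 2174199798383 :=
  run4 tr341 _ _ _ _ dt341

theorem ok342 : Ok 4 Dn4 [[1, 0, 0, 0, 1, 1, 1], [1, 1, 0, 0, 0, 0, 0], [1, 1, 1, 0, 1, 1, 1],
  [2, 1, 1, 1, 2, 2, 1], [1, 0, 0, 0, 1, 0, 0], [1, 1, 0, 0, 1, 1, 0], [2, 1, 1, 1, 3, 2, 2]]
  281439542689277 [27, 75, 87, 111, 99, 147, 159] 437204035918 :=
  run4 tr342 _ _ _ _ dt342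

theorem ok343 : Ok 4 Dn4 [[2, 1, 1, 1, 1, 1, 1], [1, 1, 0, 0, 0, 0, 0], [1, 1, 1, 0, 1, 1, 1],
  [3, 2, 2, 2, 3, 2, 2], [2, 1, 1, 1, 3, 2, 2], [1, 1, 1, 1, 1, 1, 0], [1, 1, 1, 1, 2, 2, 2]]
  281439542705621 [35, 59, 59, 59, 107, 119, 119] 12240517329709 :=
  run4 tr343 _ _ _ _ dt343

theorem ok344 : Ok 4 Dn4 [[2, 1, 1, 1, 1, 1, 1], [4, 3, 2, 2, 3, 2, 2], [2, 1, 1, 0, 2, 1, 1],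
  [3, 2, 2, 2, 3, 2, 2], [2, 1, 1, 1, 2, 1, 0], [1, 1, 1, 1, 1, 1, 0], [2, 1, 1, 1, 3, 2, 2]]
  281439542706175 [47, 119, 119, 119, 119, 203, 203] 7082236197989 :=
  run4 tr344 _ _ _ _ dt344

theorem ok345 : Ok 4 Dn4 [[2, 1, 1, 1, 1, 1, 1], [1, 1, 0, 0, 0, 0, 0], [3, 2, 2, 1, 3, 2, 1],
  [4, 3, 2, 2, 3, 2, 2], [2, 1, 1, 1, 2, 1, 0], [1, 1, 1, 1, 1, 1, 0], [2, 1, 1, 1, 3, 2, 2]]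
  281439542706175 [47, 119, 119, 119, 119, 203, 203] 3626410507275 :=
  run4 tr345 _ _ _ _ dt345

theorem ok346 : Ok 4 Dn4 [[2, 1, 1, 1, 1, 1, 1], [1, 1, 0, 0, 0, 0, 0], [2, 1, 1, 0, 2, 1, 1],
  [4, 3, 2, 2, 3, 2, 2], [2, 1, 1, 1, 2, 1, 0], [3, 2, 2, 1, 3, 2, 1], [2, 1, 1, 1, 3, 2, 2]]
  281439542706175 [47, 119, 119, 119, 119, 203, 203] 2537712389626 :=
  run4 tr346 _ _ _ _ dt346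

theorem ok347 : Ok 4 Dn4 [[2, 1, 1, 1, 1, 1, 1], [4, 3, 2, 2, 3, 2, 2], [2, 1, 1, 0, 2, 1, 1],
  [3, 2, 2, 2, 3, 2, 2], [1, 0, 0, 0, 1, 0, 0], [2, 1, 1, 1, 2, 1, 0], [2, 1, 1, 1, 3, 2, 2]]
  281440616447997 [47, 119, 119, 119, 119, 203, 203] 3929530784431 :=
  run4 tr347 _ _ _ _ dt347

theorem ok348 : Ok 4 Dn4 [[2, 1, 1, 1, 1, 1, 1], [3, 2, 1, 1, 3, 2, 2], [2, 1, 1, 0, 2, 1, 1],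
  [4, 3, 2, 2, 3, 2, 2], [1, 0, 0, 0, 1, 0, 0], [2, 1, 1, 1, 2, 1, 0], [2, 1, 1, 1, 3, 2, 2]]
  281440616447997 [47, 119, 119, 119, 119, 203, 203] 2810434699568 :=
  run4 tr348 _ _ _ _ dt348

theorem ok349 : Ok 4 Dn4 [[3, 1, 1, 1, 2, 1, 1], [1, 1, 0, 0, 0, 0, 0], [2, 1, 1, 0, 2, 1, 1],
  [4, 3, 2, 2, 3, 2, 2], [1, 0, 0, 0, 1, 0, 0], [2, 1, 1, 1, 2, 1, 0], [3, 2, 1, 1, 3, 2, 2]]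
  281440616972285 [51, 123, 147, 147, 147, 207, 231] 771053532549 :=
  run4 tr349 _ _ _ _ dt349

theorem ok350 : Ok 4 Dn4 [[2, 1, 1, 1, 1, 1, 1], [1, 1, 0, 0, 0, 0, 0], [2, 1, 1, 0, 2, 1, 1],
  [4, 3, 2, 2, 3, 2, 2], [3, 1, 1, 1, 2, 1, 1], [2, 1, 1, 1, 2, 1, 0], [3, 2, 1, 1, 3, 2, 2]]
  281440616972285 [51, 123, 147, 147, 147, 207, 231] 2537595058948 :=
  run4 tr350 _ _ _ _ dt350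

theorem ok351 : Ok 4 Dn4 [[2, 1, 1, 1, 1, 1, 1], [1, 1, 0, 0, 0, 0, 0], [1, 1, 1, 0, 1, 1, 1],
  [3, 2, 2, 2, 3, 2, 2], [2, 1, 1, 0, 2, 1, 1], [1, 1, 1, 1, 1, 1, 0], [2, 1, 1, 1, 3, 2, 2]]
  281439542705661 [43, 91, 91, 115, 115, 175, 175] 4244453736479 :=
  run4 tr351 _ _ _ _ dt351

theorem ok352 : Ok 4 Dn4 [[2, 1, 1, 1, 1, 1, 1], [1, 1, 0, 0, 0, 0, 0], [3, 2, 2, 1, 2, 1, 1],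
  [2, 1, 1, 1, 1, 0, 0], [1, 0, 0, 0, 1, 0, 0], [1, 1, 1, 1, 1, 1, 0], [3, 2, 2, 2, 3, 2, 2]]
  281439542705661 [43, 91, 91, 115, 115, 175, 175] 3175008091014 :=
  run4 tr352 _ _ _ _ dt352

theorem ok353 : Ok 4 Dn4 [[2, 1, 1, 1, 1, 1, 1], [1, 1, 0, 0, 0, 0, 0], [2, 1, 1, 0, 2, 1, 1],
  [3, 2, 2, 1, 2, 1, 1], [2, 1, 1, 1, 2, 1, 0], [1, 1, 1, 1, 1, 1, 0], [3, 2, 2, 2, 3, 2, 2]]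
  281439542706173 [47, 119, 119, 119, 119, 203, 203] 3550148152958 :=
  run4 tr353 _ _ _ _ dt353

theorem ok354 : Ok 4 Dn4 [[2, 1, 1, 1, 1, 1, 1], [1, 1, 0, 0, 0, 0, 0], [2, 1, 1, 0, 2, 1, 1],
  [3, 2, 2, 1, 2, 1, 1], [1, 0, 0, 0, 1, 0, 0], [2, 1, 1, 1, 2, 1, 0], [3, 2, 2, 2, 3, 2, 2]]
  281439542706173 [47, 119, 119, 119, 119, 203, 203] 1813025858913 :=
  run4 tr354 _ _ _ _ dt354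

theorem ok355 : Ok 4 Dn4 [[2, 1, 1, 1, 1, 1, 1], [1, 1, 0, 0, 0, 0, 0], [1, 1, 1, 0, 1, 1, 1],
  [3, 2, 2, 1, 2, 1, 1], [2, 1, 1, 0, 2, 1, 1], [1, 1, 1, 1, 1, 1, 0], [3, 2, 2, 2, 3, 2, 2]]
  281439542705661 [43, 91, 91, 115, 115, 175, 175] 4475090645077 :=
  run4 tr355 _ _ _ _ dt355

theorem ok356 : Ok 4 Dn4 [[2, 1, 1, 1, 1, 1, 1], [1, 1, 0, 0, 0, 0, 0], [1, 1, 1, 0, 1, 1, 1],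
  [1, 1, 1, 1, 0, 0, 0], [3, 2, 2, 2, 3, 2, 2], [1, 1, 1, 1, 1, 1, 0], [1, 1, 1, 1, 2, 2, 2]]
  281440616447447 [63, 63, 63, 63, 135, 135, 135] 14259116489794 :=
  run4 tr356 _ _ _ _ dt356

theorem ok357 : Ok 4 Dn4 [[2, 1, 1, 1, 1, 1, 1], [1, 1, 0, 0, 0, 0, 0], [1, 1, 1, 0, 1, 1, 1],
  [1, 1, 1, 1, 0, 0, 0], [2, 1, 1, 1, 1, 0, 0], [1, 1, 1, 1, 1, 1, 0], [3, 2, 2, 2, 3, 2, 2]]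
  281440616447447 [63, 63, 63, 63, 135, 135, 135] 4047968856116 :=
  run4 tr357 _ _ _ _ dt357

theorem ok358 : Ok 4 Dn4 [[1, 0, 0, 0, 1, 1, 1], [1, 1, 0, 0, 0, 0, 0], [1, 1, 1, 0, 1, 1, 1],
  [2, 1, 1, 1, 1, 1, 1], [2, 1, 1, 1, 3, 2, 2], [1, 1, 1, 1, 1, 1, 0], [1, 1, 1, 1, 2, 2, 2]]
  281439542689237 [21, 57, 57, 57, 105, 105, 105] 6879311683400 :=
  run4 tr358 _ _ _ _ dt358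

theorem ok359 : Ok 4 Dn4 [[2, 1, 1, 1, 2, 2, 1], [3, 2, 1, 1, 3, 2, 2], [2, 1, 1, 0, 2, 1, 1],
  [2, 1, 1, 1, 1, 1, 1], [2, 1, 1, 1, 2, 1, 0], [1, 1, 1, 1, 1, 1, 0], [2, 1, 1, 1, 3, 2, 2]]
  281439542706175 [47, 119, 119, 119, 119, 203, 203] 4930378208644 :=
  run4 tr359 _ _ _ _ dt359

theorem ok360 : Ok 4 Dn4 [[2, 1, 1, 1, 2, 2, 1], [1, 1, 0, 0, 0, 0, 0], [2, 1, 1, 0, 2, 1, 1],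
  [2, 1, 1, 1, 1, 1, 1], [2, 1, 1, 1, 2, 1, 0], [1, 1, 1, 1, 1, 1, 0], [3, 2, 1, 1, 3, 2, 2]]
  281439542706175 [47, 119, 119, 119, 119, 203, 203] 2389362904560 :=
  run4 tr360 _ _ _ _ dt360

theorem ok361 : Ok 4 Dn4 [[2, 1, 1, 1, 2, 2, 1], [3, 2, 1, 1, 3, 2, 2], [2, 1, 1, 0, 2, 1, 1],
  [2, 1, 1, 1, 1, 1, 1], [1, 0, 0, 0, 1, 0, 0], [2, 1, 1, 1, 2, 1, 0], [2, 1, 1, 1, 3, 2, 2]]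
  281440616447997 [47, 119, 119, 119, 119, 203, 203] 2221600329686 :=
  run4 tr361 _ _ _ _ dt361

theorem ok362 : Ok 4 Dn4 [[3, 1, 1, 1, 3, 2, 1], [1, 1, 0, 0, 0, 0, 0], [2, 1, 1, 0, 2, 1, 1],
  [3, 1, 1, 1, 2, 1, 1], [1, 0, 0, 0, 1, 0, 0], [2, 1, 1, 1, 2, 1, 0], [3, 2, 1, 1, 3, 2, 2]]
  281440616972285 [51, 123, 147, 147, 147, 207, 231] 409347918269 :=
  run4 tr362 _ _ _ _ dt362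

theorem ok363 : Ok 4 Dn4 [[2, 1, 1, 1, 2, 2, 1], [1, 1, 0, 0, 0, 0, 0], [2, 1, 1, 0, 2, 1, 1],
  [3, 1, 1, 1, 2, 1, 1], [3, 1, 1, 1, 3, 2, 1], [2, 1, 1, 1, 2, 1, 0], [3, 2, 1, 1, 3, 2, 2]]
  281440616972285 [51, 123, 147, 147, 147, 207, 231] 1808550126803 :=
  run4 tr363 _ _ _ _ dt363

theorem ok364 : Ok 4 Dn4 [[2, 1, 1, 1, 2, 2, 1], [1, 1, 0, 0, 0, 0, 0], [2, 1, 1, 0, 2, 1, 1],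
  [2, 1, 1, 1, 1, 1, 1], [3, 1, 1, 1, 2, 1, 1], [2, 1, 1, 1, 2, 1, 0], [3, 2, 1, 1, 3, 2, 2]]
  281440616972285 [51, 123, 147, 147, 147, 207, 231] 2298291806580 :=
  run4 tr364 _ _ _ _ dt364

theorem ok365 : Ok 4 Dn4 [[2, 1, 1, 1, 2, 2, 1], [1, 1, 0, 0, 0, 0, 0], [1, 1, 1, 0, 1, 1, 1],
  [2, 1, 1, 1, 1, 1, 1], [2, 1, 1, 0, 2, 1, 1], [1, 1, 1, 1, 1, 1, 0], [2, 1, 1, 1, 3, 2, 2]]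
  281439542705661 [43, 91, 91, 115, 115, 175, 175] 3233788762258 :=
  run4 tr365 _ _ _ _ dt365

theorem ok366 : Ok 4 Dn4 [[1, 0, 0, 0, 1, 1, 1], [1, 1, 0, 0, 0, 0, 0], [1, 1, 1, 0, 1, 1, 1],
  [2, 1, 1, 1, 1, 1, 1], [1, 0, 0, 0, 1, 0, 0], [2, 1, 1, 1, 2, 2, 1], [2, 1, 1, 1, 3, 2, 2]]
  281439542689277 [29, 89, 89, 113, 113, 161, 161] 873924050445 :=
  run4 tr366 _ _ _ _ dt366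

theorem nd706 : Ok 4 Dn4 [[2, 1, 1, 1, 2, 2, 1], [1, 1, 0, 0, 1, 1, 0], [1, 1, 1, 0, 2, 2, 1],
  [1, 1, 1, 1, 1, 1, 0], [3, 2, 2, 2, 4, 3, 2], [0, 0, 0, 0, 1, 1, 0], [1, 1, 1, 1, 2, 2, 2]]
  140737487831031 [42, 42, 42, 42, 72, 72, 126] 7072837050207 :=
  cut4 1 6 1 1 1 _ [[2, 1, 1, 1, 2, 2, 1], [2, 2, 1, 1, 3, 3, 2], [1, 1, 1, 0, 2, 2, 1], [1, 1,
  1, 1, 1, 1, 0], [3, 2, 2, 2, 4, 3, 2], [0, 0, 0, 0, 1, 1, 0], [1, 1, 1, 1, 2, 2, 2]] [[2, 1, 1,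
  1, 2, 2, 1], [1, 1, 0, 0, 1, 1, 0], [1, 1, 1, 0, 2, 2, 1], [1, 1, 1, 1, 1, 1, 0], [3, 2, 2, 2,
  4, 3, 2], [0, 0, 0, 0, 1, 1, 0], [2, 2, 1, 1, 3, 3, 2]] _ _ 14615187425402 4055896900129 _ (by
  decide +kernel) ok316 ok317

theorem nd707 : Ok 4 Dn4 [[2, 1, 1, 1, 2, 2, 1], [1, 1, 0, 0, 1, 1, 0], [1, 1, 1, 0, 2, 2, 1],
  [1, 1, 1, 1, 1, 1, 0], [3, 2, 2, 2, 4, 3, 2], [0, 0, 0, 0, 1, 1, 0], [1, 1, 1, 1, 2, 2, 2]]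
  140736414089207 [28, 40, 40, 40, 58, 70, 112] 7072837050207 :=
  dec4 1 14 1 _ _ 140737487831031 _ [42, 42, 42, 42, 72, 72, 126] _ (by decide +kernel) nd706

theorem nd708 : Ok 4 Dn4 [[2, 1, 1, 1, 2, 2, 1], [1, 1, 0, 0, 1, 1, 0], [1, 1, 1, 0, 2, 2, 1],
  [1, 1, 1, 1, 1, 1, 0], [2, 1, 1, 1, 3, 2, 2], [0, 0, 0, 0, 1, 1, 0], [1, 1, 1, 1, 2, 2, 2]]
  140736414089207 [28, 40, 40, 40, 58, 70, 112] 6160703680750 :=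
  cut4 3 4 1 1 1 _ [[2, 1, 1, 1, 2, 2, 1], [1, 1, 0, 0, 1, 1, 0], [1, 1, 1, 0, 2, 2, 1], [3, 2,
  2, 2, 4, 3, 2], [2, 1, 1, 1, 3, 2, 2], [0, 0, 0, 0, 1, 1, 0], [1, 1, 1, 1, 2, 2, 2]] [[2, 1, 1,
  1, 2, 2, 1], [1, 1, 0, 0, 1, 1, 0], [1, 1, 1, 0, 2, 2, 1], [1, 1, 1, 1, 1, 1, 0], [3, 2, 2, 2,
  4, 3, 2], [0, 0, 0, 0, 1, 1, 0], [1, 1, 1, 1, 2, 2, 2]] _ _ 4336436941834 7072837050207 _ (by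
  decide +kernel) ok315 nd707

theorem nd709 : Ok 4 Dn4 [[2, 1, 1, 1, 2, 2, 1], [1, 1, 0, 0, 1, 1, 0], [1, 1, 1, 0, 2, 2, 1],
  [1, 1, 1, 1, 1, 1, 0], [2, 1, 1, 1, 3, 2, 2], [0, 0, 0, 0, 1, 1, 0], [1, 1, 1, 1, 2, 2, 2]]
  140186658275319 [28, 40, 40, 40, 58, 70, 112] 6160703680750 :=
  dec4 2 7 0 _ _ 140736414089207 _ [28, 40, 40, 40, 58, 70, 112] _ (by decide +kernel) nd708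

theorem nd710 : Ok 4 Dn4 [[2, 1, 1, 1, 2, 2, 1], [1, 1, 0, 0, 1, 1, 0], [1, 1, 1, 0, 1, 1, 1],
  [1, 1, 1, 1, 1, 1, 0], [2, 1, 1, 1, 3, 2, 2], [0, 0, 0, 0, 1, 1, 0], [1, 1, 1, 1, 2, 2, 2]]
  140186658275319 [28, 40, 40, 40, 58, 70, 112] 6305052527082 :=
  cut4 2 5 1 1 1 _ [[2, 1, 1, 1, 2, 2, 1], [1, 1, 0, 0, 1, 1, 0], [1, 1, 1, 0, 2, 2, 1], [1, 1,
  1, 1, 1, 1, 0], [2, 1, 1, 1, 3, 2, 2], [0, 0, 0, 0, 1, 1, 0], [1, 1, 1, 1, 2, 2, 2]] [[2, 1, 1,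
  1, 2, 2, 1], [1, 1, 0, 0, 1, 1, 0], [1, 1, 1, 0, 1, 1, 1], [1, 1, 1, 1, 1, 1, 0], [2, 1, 1, 1,
  3, 2, 2], [1, 1, 1, 0, 2, 2, 1], [1, 1, 1, 1, 2, 2, 2]] _ _ 6160703680750 6738099066078 _ (by
  decide +kernel) nd709 ok318

theorem nd711 : Ok 4 Dn4 [[2, 1, 1, 1, 2, 2, 1], [1, 1, 0, 0, 1, 1, 0], [1, 1, 1, 0, 1, 1, 1],
  [1, 1, 1, 1, 1, 1, 0], [2, 1, 1, 1, 3, 2, 2], [0, 0, 0, 0, 1, 1, 0], [1, 1, 1, 1, 2, 2, 2]]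
  140186658258935 [14, 38, 38, 38, 56, 56, 98] 6305052527082 :=
  dec4 0 14 1 _ _ 140186658275319 _ [28, 40, 40, 40, 58, 70, 112] _ (by decide +kernel) nd710

theorem nd712 : Ok 4 Dn4 [[1, 0, 0, 0, 1, 1, 1], [1, 1, 0, 0, 1, 1, 0], [1, 1, 1, 0, 1, 1, 1],
  [1, 1, 1, 1, 1, 1, 0], [2, 1, 1, 1, 3, 2, 2], [0, 0, 0, 0, 1, 1, 0], [1, 1, 1, 1, 2, 2, 2]]
  140186658258935 [14, 38, 38, 38, 56, 56, 98] 3714312130596 :=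
  cut4 0 3 1 1 1 _ [[2, 1, 1, 1, 2, 2, 1], [1, 1, 0, 0, 1, 1, 0], [1, 1, 1, 0, 1, 1, 1], [1, 1,
  1, 1, 1, 1, 0], [2, 1, 1, 1, 3, 2, 2], [0, 0, 0, 0, 1, 1, 0], [1, 1, 1, 1, 2, 2, 2]] [[1, 0, 0,
  0, 1, 1, 1], [1, 1, 0, 0, 1, 1, 0], [1, 1, 1, 0, 1, 1, 1], [2, 1, 1, 1, 2, 2, 1], [2, 1, 1, 1,
  3, 2, 2], [0, 0, 0, 0, 1, 1, 0], [1, 1, 1, 1, 2, 2, 2]] _ _ 6305052527082 1987151866271 _ (by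
  decide +kernel) nd711 ok319

theorem nd713 : Ok 4 Dn4 [[1, 0, 0, 0, 1, 1, 1], [1, 1, 0, 0, 1, 1, 0], [1, 1, 1, 0, 1, 1, 1],
  [1, 1, 1, 1, 1, 1, 0], [2, 1, 1, 1, 3, 2, 2], [0, 0, 0, 0, 1, 1, 0], [1, 1, 1, 1, 2, 2, 2]]
  140186658258423 [14, 38, 38, 38, 56, 56, 98] 3714312130596 :=
  dec4 0 9 0 _ _ 140186658258935 _ [14, 38, 38, 38, 56, 56, 98] _ (by decide +kernel) nd712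

theorem nd714 : Ok 4 Dn4 [[1, 0, 0, 0, 1, 1, 1], [1, 1, 0, 0, 1, 1, 0], [1, 1, 1, 0, 1, 1, 1],
  [1, 1, 1, 1, 1, 1, 0], [2, 1, 1, 1, 3, 2, 2], [0, 0, 0, 0, 1, 1, 0], [1, 1, 1, 1, 2, 2, 2]]
  140186658258391 [14, 38, 38, 38, 56, 56, 98] 3714312130596 :=
  dec4 0 5 0 _ _ 140186658258423 _ [14, 38, 38, 38, 56, 56, 98] _ (by decide +kernel) nd713

theorem nd715 : Ok 4 Dn4 [[1, 0, 0, 0, 1, 1, 1], [1, 1, 0, 0, 1, 1, 0], [1, 1, 1, 0, 1, 1, 1],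
  [1, 1, 1, 1, 1, 1, 0], [2, 1, 1, 1, 3, 2, 2], [0, 0, 0, 0, 1, 1, 0], [1, 1, 1, 1, 2, 2, 2]]
  140186658258389 [14, 38, 38, 38, 56, 56, 98] 3714312130596 :=
  dec4 0 1 0 _ _ 140186658258391 _ [14, 38, 38, 38, 56, 56, 98] _ (by decide +kernel) nd714

theorem nd716 : Ok 4 Dn4 [[2, 1, 1, 1, 2, 2, 1], [1, 1, 0, 0, 1, 1, 0], [2, 1, 1, 0, 2, 1, 1],
  [3, 2, 2, 2, 4, 3, 2], [1, 0, 0, 0, 1, 0, 0], [0, 0, 0, 0, 1, 1, 0], [2, 1, 1, 1, 3, 2, 2]]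
  140187732017149 [40, 100, 100, 100, 70, 154, 196] 611858521268 :=
  cut4 2 5 1 1 1 _ [[2, 1, 1, 1, 2, 2, 1], [1, 1, 0, 0, 1, 1, 0], [2, 1, 1, 0, 3, 2, 1], [3, 2,
  2, 2, 4, 3, 2], [1, 0, 0, 0, 1, 0, 0], [0, 0, 0, 0, 1, 1, 0], [2, 1, 1, 1, 3, 2, 2]] [[2, 1, 1,
  1, 2, 2, 1], [1, 1, 0, 0, 1, 1, 0], [2, 1, 1, 0, 2, 1, 1], [3, 2, 2, 2, 4, 3, 2], [1, 0, 0, 0,
  1, 0, 0], [2, 1, 1, 0, 3, 2, 1], [2, 1, 1, 1, 3, 2, 2]] _ _ 604957610927 639462162629 _ (by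
  decide +kernel) ok320 ok321

theorem nd717 : Ok 4 Dn4 [[2, 1, 1, 1, 2, 2, 1], [1, 1, 0, 0, 1, 1, 0], [2, 1, 1, 0, 2, 1, 1],
  [3, 2, 2, 2, 4, 3, 2], [1, 0, 0, 0, 1, 0, 0], [0, 0, 0, 0, 1, 1, 0], [2, 1, 1, 1, 3, 2, 2]]
  140187732016637 [36, 72, 72, 96, 66, 126, 168] 611858521268 :=
  dec4 0 9 1 _ _ 140187732017149 _ [40, 100, 100, 100, 70, 154, 196] _ (by decide +kernel) nd716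

theorem nd718 : Ok 4 Dn4 [[2, 1, 1, 1, 2, 2, 1], [1, 1, 0, 0, 1, 1, 0], [1, 1, 1, 0, 1, 1, 1],
  [3, 2, 2, 2, 4, 3, 2], [1, 0, 0, 0, 1, 0, 0], [0, 0, 0, 0, 1, 1, 0], [2, 1, 1, 1, 3, 2, 2]]
  140187732016637 [36, 72, 72, 96, 66, 126, 168] 737093978050 :=
  cut4 2 4 1 1 1 _ [[2, 1, 1, 1, 2, 2, 1], [1, 1, 0, 0, 1, 1, 0], [2, 1, 1, 0, 2, 1, 1], [3, 2,
  2, 2, 4, 3, 2], [1, 0, 0, 0, 1, 0, 0], [0, 0, 0, 0, 1, 1, 0], [2, 1, 1, 1, 3, 2, 2]] [[2, 1, 1,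
  1, 2, 2, 1], [1, 1, 0, 0, 1, 1, 0], [1, 1, 1, 0, 1, 1, 1], [3, 2, 2, 2, 4, 3, 2], [2, 1, 1, 0,
  2, 1, 1], [0, 0, 0, 0, 1, 1, 0], [2, 1, 1, 1, 3, 2, 2]] _ _ 611858521268 1112800348395 _ (by
  decide +kernel) nd717 ok322

theorem nd719 : Ok 4 Dn4 [[2, 1, 1, 1, 2, 2, 1], [1, 1, 0, 0, 1, 1, 0], [1, 1, 1, 0, 1, 1, 1],
  [3, 2, 2, 2, 4, 3, 2], [1, 0, 0, 0, 1, 0, 0], [0, 0, 0, 0, 1, 1, 0], [2, 1, 1, 1, 3, 2, 2]]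
  140186658274813 [36, 72, 72, 96, 66, 126, 168] 737093978050 :=
  dec4 1 14 0 _ _ 140187732016637 _ [36, 72, 72, 96, 66, 126, 168] _ (by decide +kernel) nd718

theorem nd720 : Ok 4 Dn4 [[3, 1, 1, 1, 4, 3, 1], [1, 1, 0, 0, 1, 1, 0], [2, 1, 1, 0, 3, 2, 1],
  [2, 1, 1, 1, 3, 2, 0], [1, 0, 0, 0, 1, 0, 0], [0, 0, 0, 0, 1, 1, 0], [3, 2, 2, 2, 4, 3, 2]]
  140737487831037 [40, 100, 100, 100, 70, 154, 196] 361565785614 :=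
  cut4 2 3 1 1 1 _ [[3, 1, 1, 1, 4, 3, 1], [1, 1, 0, 0, 1, 1, 0], [4, 2, 2, 1, 6, 4, 1], [2, 1,
  1, 1, 3, 2, 0], [1, 0, 0, 0, 1, 0, 0], [0, 0, 0, 0, 1, 1, 0], [3, 2, 2, 2, 4, 3, 2]] [[3, 1, 1,
  1, 4, 3, 1], [1, 1, 0, 0, 1, 1, 0], [2, 1, 1, 0, 3, 2, 1], [4, 2, 2, 1, 6, 4, 1], [1, 0, 0, 0,
  1, 0, 0], [0, 0, 0, 0, 1, 1, 0], [3, 2, 2, 2, 4, 3, 2]] _ _ 448990237427 274141333800 _ (by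
  decide +kernel) ok323 ok324

theorem nd721 : Ok 4 Dn4 [[3, 1, 1, 1, 4, 3, 1], [1, 1, 0, 0, 1, 1, 0], [2, 1, 1, 0, 3, 2, 1],
  [2, 1, 1, 1, 2, 1, 0], [1, 0, 0, 0, 1, 0, 0], [0, 0, 0, 0, 1, 1, 0], [3, 2, 2, 2, 4, 3, 2]]
  140737487831037 [40, 100, 100, 100, 70, 154, 196] 504497617306 :=
  cut4 3 5 1 1 1 _ [[3, 1, 1, 1, 4, 3, 1], [1, 1, 0, 0, 1, 1, 0], [2, 1, 1, 0, 3, 2, 1], [2, 1,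
  1, 1, 3, 2, 0], [1, 0, 0, 0, 1, 0, 0], [0, 0, 0, 0, 1, 1, 0], [3, 2, 2, 2, 4, 3, 2]] [[3, 1, 1,
  1, 4, 3, 1], [1, 1, 0, 0, 1, 1, 0], [2, 1, 1, 0, 3, 2, 1], [2, 1, 1, 1, 2, 1, 0], [1, 0, 0, 0,
  1, 0, 0], [2, 1, 1, 1, 3, 2, 0], [3, 2, 2, 2, 4, 3, 2]] _ _ 361565785614 1076224944070 _ (by
  decide +kernel) nd720 ok325

theorem nd722 : Ok 4 Dn4 [[2, 1, 1, 1, 3, 3, 1], [1, 1, 0, 0, 1, 1, 0], [2, 1, 1, 0, 3, 2, 1],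
  [2, 1, 1, 1, 2, 1, 0], [1, 0, 0, 0, 1, 0, 0], [0, 0, 0, 0, 1, 1, 0], [3, 2, 2, 2, 4, 3, 2]]
  140737487831037 [40, 100, 100, 100, 70, 154, 196] 594463418415 :=
  cut4 0 4 1 1 1 _ [[3, 1, 1, 1, 4, 3, 1], [1, 1, 0, 0, 1, 1, 0], [2, 1, 1, 0, 3, 2, 1], [2, 1,
  1, 1, 2, 1, 0], [1, 0, 0, 0, 1, 0, 0], [0, 0, 0, 0, 1, 1, 0], [3, 2, 2, 2, 4, 3, 2]] [[2, 1, 1,
  1, 3, 3, 1], [1, 1, 0, 0, 1, 1, 0], [2, 1, 1, 0, 3, 2, 1], [2, 1, 1, 1, 2, 1, 0], [3, 1, 1, 1,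
  4, 3, 1], [0, 0, 0, 0, 1, 1, 0], [3, 2, 2, 2, 4, 3, 2]] _ _ 504497617306 1134258225063 _ (by
  decide +kernel) nd721 ok326

theorem nd723 : Ok 4 Dn4 [[2, 1, 1, 1, 2, 2, 1], [1, 1, 0, 0, 1, 1, 0], [2, 1, 1, 0, 3, 2, 1],
  [2, 1, 1, 1, 2, 1, 0], [1, 0, 0, 0, 1, 0, 0], [0, 0, 0, 0, 1, 1, 0], [3, 2, 2, 2, 4, 3, 2]]
  140737487831037 [40, 100, 100, 100, 70, 154, 196] 762407588942 :=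
  cut4 0 5 1 1 1 _ [[2, 1, 1, 1, 3, 3, 1], [1, 1, 0, 0, 1, 1, 0], [2, 1, 1, 0, 3, 2, 1], [2, 1,
  1, 1, 2, 1, 0], [1, 0, 0, 0, 1, 0, 0], [0, 0, 0, 0, 1, 1, 0], [3, 2, 2, 2, 4, 3, 2]] [[2, 1, 1,
  1, 2, 2, 1], [1, 1, 0, 0, 1, 1, 0], [2, 1, 1, 0, 3, 2, 1], [2, 1, 1, 1, 2, 1, 0], [1, 0, 0, 0,
  1, 0, 0], [2, 1, 1, 1, 3, 3, 1], [3, 2, 2, 2, 4, 3, 2]] _ _ 594463418415 1602128441577 _ (by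
  decide +kernel) nd722 ok327

theorem nd724 : Ok 4 Dn4 [[2, 1, 1, 1, 2, 2, 1], [1, 1, 0, 0, 1, 1, 0], [2, 1, 1, 0, 3, 2, 1],
  [2, 1, 1, 1, 2, 1, 0], [1, 0, 0, 0, 1, 0, 0], [0, 0, 0, 0, 1, 1, 0], [3, 2, 2, 2, 4, 3, 2]]
  140187732017149 [40, 100, 100, 100, 70, 154, 196] 762407588942 :=
  dec4 2 7 0 _ _ 140737487831037 _ [40, 100, 100, 100, 70, 154, 196] _ (by decide +kernel) nd723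

theorem nd725 : Ok 4 Dn4 [[2, 1, 1, 1, 2, 2, 1], [1, 1, 0, 0, 1, 1, 0], [2, 1, 1, 0, 2, 1, 1],
  [2, 1, 1, 1, 2, 1, 0], [1, 0, 0, 0, 1, 0, 0], [0, 0, 0, 0, 1, 1, 0], [3, 2, 2, 2, 4, 3, 2]]
  140187732017149 [40, 100, 100, 100, 70, 154, 196] 782467598031 :=
  cut4 2 5 1 1 1 _ [[2, 1, 1, 1, 2, 2, 1], [1, 1, 0, 0, 1, 1, 0], [2, 1, 1, 0, 3, 2, 1], [2, 1,
  1, 1, 2, 1, 0], [1, 0, 0, 0, 1, 0, 0], [0, 0, 0, 0, 1, 1, 0], [3, 2, 2, 2, 4, 3, 2]] [[2, 1, 1,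
  1, 2, 2, 1], [1, 1, 0, 0, 1, 1, 0], [2, 1, 1, 0, 2, 1, 1], [2, 1, 1, 1, 2, 1, 0], [1, 0, 0, 0,
  1, 0, 0], [2, 1, 1, 0, 3, 2, 1], [3, 2, 2, 2, 4, 3, 2]] _ _ 762407588942 862707634383 _ (by
  decide +kernel) nd724 ok328

theorem nd726 : Ok 4 Dn4 [[2, 1, 1, 1, 2, 2, 1], [1, 1, 0, 0, 1, 1, 0], [2, 1, 1, 0, 2, 1, 1],
  [2, 1, 1, 1, 2, 1, 0], [1, 0, 0, 0, 1, 0, 0], [0, 0, 0, 0, 1, 1, 0], [3, 2, 2, 2, 4, 3, 2]]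
  140187732016637 [36, 72, 72, 96, 66, 126, 168] 782467598031 :=
  dec4 0 9 1 _ _ 140187732017149 _ [40, 100, 100, 100, 70, 154, 196] _ (by decide +kernel) nd725

theorem nd727 : Ok 4 Dn4 [[2, 1, 1, 1, 2, 2, 1], [1, 1, 0, 0, 1, 1, 0], [1, 1, 1, 0, 1, 1, 1],
  [2, 1, 1, 1, 2, 1, 0], [2, 1, 1, 0, 2, 1, 1], [0, 0, 0, 0, 1, 1, 0], [3, 2, 2, 2, 4, 3, 2]]
  140187732016639 [36, 72, 72, 96, 66, 126, 168] 1307069103594 :=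
  cut4 4 5 1 1 1 _ [[2, 1, 1, 1, 2, 2, 1], [1, 1, 0, 0, 1, 1, 0], [1, 1, 1, 0, 1, 1, 1], [2, 1,
  1, 1, 2, 1, 0], [2, 1, 1, 0, 3, 2, 1], [0, 0, 0, 0, 1, 1, 0], [3, 2, 2, 2, 4, 3, 2]] [[2, 1, 1,
  1, 2, 2, 1], [1, 1, 0, 0, 1, 1, 0], [1, 1, 1, 0, 1, 1, 1], [2, 1, 1, 1, 2, 1, 0], [2, 1, 1, 0,
  2, 1, 1], [2, 1, 1, 0, 3, 2, 1], [3, 2, 2, 2, 4, 3, 2]] _ _ 1241137748958 1570794522134 _ (by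
  decide +kernel) ok329 ok330

theorem nd728 : Ok 4 Dn4 [[2, 1, 1, 1, 2, 2, 1], [1, 1, 0, 0, 1, 1, 0], [1, 1, 1, 0, 1, 1, 1],
  [2, 1, 1, 1, 2, 1, 0], [2, 1, 1, 0, 2, 1, 1], [0, 0, 0, 0, 1, 1, 0], [3, 2, 2, 2, 4, 3, 2]]
  140187732016637 [36, 72, 72, 96, 66, 126, 168] 1307069103594 :=
  dec4 0 1 0 _ _ 140187732016639 _ [36, 72, 72, 96, 66, 126, 168] _ (by decide +kernel) nd727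

theorem nd729 : Ok 4 Dn4 [[2, 1, 1, 1, 2, 2, 1], [1, 1, 0, 0, 1, 1, 0], [1, 1, 1, 0, 1, 1, 1],
  [2, 1, 1, 1, 2, 1, 0], [1, 0, 0, 0, 1, 0, 0], [0, 0, 0, 0, 1, 1, 0], [3, 2, 2, 2, 4, 3, 2]]
  140187732016637 [36, 72, 72, 96, 66, 126, 168] 913617974422 :=
  cut4 2 4 1 1 1 _ [[2, 1, 1, 1, 2, 2, 1], [1, 1, 0, 0, 1, 1, 0], [2, 1, 1, 0, 2, 1, 1], [2, 1,
  1, 1, 2, 1, 0], [1, 0, 0, 0, 1, 0, 0], [0, 0, 0, 0, 1, 1, 0], [3, 2, 2, 2, 4, 3, 2]] [[2, 1, 1,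
  1, 2, 2, 1], [1, 1, 0, 0, 1, 1, 0], [1, 1, 1, 0, 1, 1, 1], [2, 1, 1, 1, 2, 1, 0], [2, 1, 1, 0,
  2, 1, 1], [0, 0, 0, 0, 1, 1, 0], [3, 2, 2, 2, 4, 3, 2]] _ _ 782467598031 1307069103594 _ (by
  decide +kernel) nd726 nd728

theorem nd730 : Ok 4 Dn4 [[2, 1, 1, 1, 2, 2, 1], [1, 1, 0, 0, 1, 1, 0], [1, 1, 1, 0, 1, 1, 1],
  [2, 1, 1, 1, 2, 1, 0], [1, 0, 0, 0, 1, 0, 0], [0, 0, 0, 0, 1, 1, 0], [3, 2, 2, 2, 4, 3, 2]]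
  140186658274813 [36, 72, 72, 96, 66, 126, 168] 913617974422 :=
  dec4 1 14 0 _ _ 140187732016637 _ [36, 72, 72, 96, 66, 126, 168] _ (by decide +kernel) nd729

theorem nd731 : Ok 4 Dn4 [[2, 1, 1, 1, 2, 2, 1], [1, 1, 0, 0, 1, 1, 0], [1, 1, 1, 0, 2, 2, 1],
  [1, 1, 1, 1, 1, 1, 0], [2, 1, 1, 1, 2, 1, 0], [0, 0, 0, 0, 1, 1, 0], [3, 2, 2, 2, 4, 3, 2]]
  140737487830527 [50, 74, 74, 98, 80, 128, 182] 2352171432323 :=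
  cut4 2 4 1 1 1 _ [[2, 1, 1, 1, 2, 2, 1], [1, 1, 0, 0, 1, 1, 0], [3, 2, 2, 1, 4, 3, 1], [1, 1,
  1, 1, 1, 1, 0], [2, 1, 1, 1, 2, 1, 0], [0, 0, 0, 0, 1, 1, 0], [3, 2, 2, 2, 4, 3, 2]] [[2, 1, 1,
  1, 2, 2, 1], [1, 1, 0, 0, 1, 1, 0], [1, 1, 1, 0, 2, 2, 1], [1, 1, 1, 1, 1, 1, 0], [3, 2, 2, 1,
  4, 3, 1], [0, 0, 0, 0, 1, 1, 0], [3, 2, 2, 2, 4, 3, 2]] _ _ 2416650099931 2287692764715 _ (by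
  decide +kernel) ok331 ok332

theorem nd732 : Ok 4 Dn4 [[2, 1, 1, 1, 2, 2, 1], [1, 1, 0, 0, 1, 1, 0], [1, 1, 1, 0, 2, 2, 1],
  [1, 1, 1, 1, 1, 1, 0], [2, 1, 1, 1, 2, 1, 0], [0, 0, 0, 0, 1, 1, 0], [3, 2, 2, 2, 4, 3, 2]]
  140187732016639 [50, 74, 74, 98, 80, 128, 182] 2352171432323 :=
  dec4 2 7 0 _ _ 140737487830527 _ [50, 74, 74, 98, 80, 128, 182] _ (by decide +kernel) nd731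

theorem nd733 : Ok 4 Dn4 [[2, 1, 1, 1, 2, 2, 1], [1, 1, 0, 0, 1, 1, 0], [1, 1, 1, 0, 1, 1, 1],
  [1, 1, 1, 1, 1, 1, 0], [2, 1, 1, 1, 2, 1, 0], [0, 0, 0, 0, 1, 1, 0], [3, 2, 2, 2, 4, 3, 2]]
  140187732016639 [50, 74, 74, 98, 80, 128, 182] 2555556934447 :=
  cut4 2 5 1 1 1 _ [[2, 1, 1, 1, 2, 2, 1], [1, 1, 0, 0, 1, 1, 0], [1, 1, 1, 0, 2, 2, 1], [1, 1,
  1, 1, 1, 1, 0], [2, 1, 1, 1, 2, 1, 0], [0, 0, 0, 0, 1, 1, 0], [3, 2, 2, 2, 4, 3, 2]] [[2, 1, 1,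
  1, 2, 2, 1], [1, 1, 0, 0, 1, 1, 0], [1, 1, 1, 0, 1, 1, 1], [1, 1, 1, 1, 1, 1, 0], [2, 1, 1, 1,
  2, 1, 0], [1, 1, 1, 0, 2, 2, 1], [3, 2, 2, 2, 4, 3, 2]] _ _ 2352171432323 3165713440816 _ (by
  decide +kernel) nd732 ok333

theorem nd734 : Ok 4 Dn4 [[2, 1, 1, 1, 2, 2, 1], [1, 1, 0, 0, 1, 1, 0], [1, 1, 1, 0, 1, 1, 1],
  [1, 1, 1, 1, 1, 1, 0], [2, 1, 1, 1, 2, 1, 0], [0, 0, 0, 0, 1, 1, 0], [3, 2, 2, 2, 4, 3, 2]]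
  140186658274815 [36, 72, 72, 96, 66, 126, 168] 2555556934447 :=
  dec4 1 14 1 _ _ 140187732016639 _ [50, 74, 74, 98, 80, 128, 182] _ (by decide +kernel) nd733

theorem nd735 : Ok 4 Dn4 [[2, 1, 1, 1, 2, 2, 1], [1, 1, 0, 0, 1, 1, 0], [1, 1, 1, 0, 1, 1, 1],
  [1, 1, 1, 1, 1, 1, 0], [2, 1, 1, 1, 2, 1, 0], [0, 0, 0, 0, 1, 1, 0], [3, 2, 2, 2, 4, 3, 2]]
  140186658274813 [36, 72, 72, 96, 66, 126, 168] 2555556934447 :=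
  dec4 0 1 0 _ _ 140186658274815 _ [36, 72, 72, 96, 66, 126, 168] _ (by decide +kernel) nd734

theorem nd736 : Ok 4 Dn4 [[2, 1, 1, 1, 2, 2, 1], [1, 1, 0, 0, 1, 1, 0], [1, 1, 1, 0, 1, 1, 1],
  [1, 1, 1, 1, 1, 1, 0], [1, 0, 0, 0, 1, 0, 0], [0, 0, 0, 0, 1, 1, 0], [3, 2, 2, 2, 4, 3, 2]]
  140186658274813 [36, 72, 72, 96, 66, 126, 168] 1324102714429 :=
  cut4 3 4 1 1 1 _ [[2, 1, 1, 1, 2, 2, 1], [1, 1, 0, 0, 1, 1, 0], [1, 1, 1, 0, 1, 1, 1], [2, 1,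
  1, 1, 2, 1, 0], [1, 0, 0, 0, 1, 0, 0], [0, 0, 0, 0, 1, 1, 0], [3, 2, 2, 2, 4, 3, 2]] [[2, 1, 1,
  1, 2, 2, 1], [1, 1, 0, 0, 1, 1, 0], [1, 1, 1, 0, 1, 1, 1], [1, 1, 1, 1, 1, 1, 0], [2, 1, 1, 1,
  2, 1, 0], [0, 0, 0, 0, 1, 1, 0], [3, 2, 2, 2, 4, 3, 2]] _ _ 913617974422 2555556934447 _ (by
  decide +kernel) nd730 nd735

theorem nd737 : Ok 4 Dn4 [[2, 1, 1, 1, 2, 2, 1], [1, 1, 0, 0, 1, 1, 0], [1, 1, 1, 0, 1, 1, 1],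
  [1, 1, 1, 1, 1, 1, 0], [1, 0, 0, 0, 1, 0, 0], [0, 0, 0, 0, 1, 1, 0], [2, 1, 1, 1, 3, 2, 2]]
  140186658274813 [36, 72, 72, 96, 66, 126, 168] 1128433135636 :=
  cut4 3 6 1 1 1 _ [[2, 1, 1, 1, 2, 2, 1], [1, 1, 0, 0, 1, 1, 0], [1, 1, 1, 0, 1, 1, 1], [3, 2,
  2, 2, 4, 3, 2], [1, 0, 0, 0, 1, 0, 0], [0, 0, 0, 0, 1, 1, 0], [2, 1, 1, 1, 3, 2, 2]] [[2, 1, 1,
  1, 2, 2, 1], [1, 1, 0, 0, 1, 1, 0], [1, 1, 1, 0, 1, 1, 1], [1, 1, 1, 1, 1, 1, 0], [1, 0, 0, 0,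
  1, 0, 0], [0, 0, 0, 0, 1, 1, 0], [3, 2, 2, 2, 4, 3, 2]] _ _ 737093978050 1324102714429 _ (by
  decide +kernel) nd719 nd736

theorem nd738 : Ok 4 Dn4 [[2, 1, 1, 1, 2, 2, 1], [1, 1, 0, 0, 1, 1, 0], [1, 1, 1, 0, 1, 1, 1],
  [1, 1, 1, 1, 1, 1, 0], [1, 0, 0, 0, 1, 0, 0], [0, 0, 0, 0, 1, 1, 0], [2, 1, 1, 1, 3, 2, 2]]
  140186658258429 [22, 70, 70, 94, 64, 112, 154] 1128433135636 :=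
  dec4 0 14 1 _ _ 140186658274813 _ [36, 72, 72, 96, 66, 126, 168] _ (by decide +kernel) nd737

theorem nd739 : Ok 4 Dn4 [[1, 0, 0, 0, 1, 1, 1], [1, 1, 0, 0, 1, 1, 0], [1, 1, 1, 0, 1, 1, 1],
  [1, 1, 1, 1, 1, 1, 0], [1, 0, 0, 0, 1, 0, 0], [0, 0, 0, 0, 1, 1, 0], [2, 1, 1, 1, 3, 2, 2]]
  140186658258429 [22, 70, 70, 94, 64, 112, 154] 609819956271 :=
  cut4 0 3 1 1 1 _ [[2, 1, 1, 1, 2, 2, 1], [1, 1, 0, 0, 1, 1, 0], [1, 1, 1, 0, 1, 1, 1], [1, 1,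
  1, 1, 1, 1, 0], [1, 0, 0, 0, 1, 0, 0], [0, 0, 0, 0, 1, 1, 0], [2, 1, 1, 1, 3, 2, 2]] [[1, 0, 0,
  0, 1, 1, 1], [1, 1, 0, 0, 1, 1, 0], [1, 1, 1, 0, 1, 1, 1], [2, 1, 1, 1, 2, 2, 1], [1, 0, 0, 0,
  1, 0, 0], [0, 0, 0, 0, 1, 1, 0], [2, 1, 1, 1, 3, 2, 2]] _ _ 1128433135636 264077836693 _ (by
  decide +kernel) nd738 ok334

theorem nd740 : Ok 4 Dn4 [[1, 0, 0, 0, 1, 1, 1], [1, 1, 0, 0, 1, 1, 0], [1, 1, 1, 0, 1, 1, 1],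
  [1, 1, 1, 1, 1, 1, 0], [1, 0, 0, 0, 1, 0, 0], [0, 0, 0, 0, 1, 1, 0], [2, 1, 1, 1, 3, 2, 2]]
  140186658258397 [18, 42, 66, 66, 60, 84, 126] 609819956271 :=
  dec4 0 5 1 _ _ 140186658258429 _ [22, 70, 70, 94, 64, 112, 154] _ (by decide +kernel) nd739

theorem nd741 : Ok 4 Dn4 [[1, 0, 0, 0, 1, 1, 1], [1, 1, 0, 0, 1, 1, 0], [1, 1, 1, 0, 1, 1, 1],
  [1, 1, 1, 1, 1, 1, 0], [1, 0, 0, 0, 1, 0, 0], [0, 0, 0, 0, 1, 1, 0], [2, 1, 1, 1, 3, 2, 2]]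
  140186658258389 [14, 38, 38, 38, 56, 56, 98] 609819956271 :=
  dec4 0 3 1 _ _ 140186658258397 _ [18, 42, 66, 66, 60, 84, 126] _ (by decide +kernel) nd740

theorem nd742 : Ok 4 Dn4 [[1, 0, 0, 0, 1, 1, 1], [1, 1, 0, 0, 1, 1, 0], [1, 1, 1, 0, 1, 1, 1],
  [1, 1, 1, 1, 1, 1, 0], [1, 0, 0, 0, 1, 0, 0], [0, 0, 0, 0, 1, 1, 0], [1, 1, 1, 1, 2, 2, 2]]
  140186658258389 [14, 38, 38, 38, 56, 56, 98] 1127235318659 :=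
  cut4 4 6 1 1 1 _ [[1, 0, 0, 0, 1, 1, 1], [1, 1, 0, 0, 1, 1, 0], [1, 1, 1, 0, 1, 1, 1], [1, 1,
  1, 1, 1, 1, 0], [2, 1, 1, 1, 3, 2, 2], [0, 0, 0, 0, 1, 1, 0], [1, 1, 1, 1, 2, 2, 2]] [[1, 0, 0,
  0, 1, 1, 1], [1, 1, 0, 0, 1, 1, 0], [1, 1, 1, 0, 1, 1, 1], [1, 1, 1, 1, 1, 1, 0], [1, 0, 0, 0,
  1, 0, 0], [0, 0, 0, 0, 1, 1, 0], [2, 1, 1, 1, 3, 2, 2]] _ _ 3714312130596 609819956271 _ (by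
  decide +kernel) nd715 nd741

theorem nd743 : Ok 4 Dn4 [[1, 0, 0, 0, 1, 1, 1], [1, 1, 0, 0, 1, 1, 0], [1, 1, 1, 0, 1, 1, 1],
  [1, 1, 1, 1, 1, 1, 0], [1, 0, 0, 0, 1, 0, 0], [0, 0, 0, 0, 1, 1, 0], [1, 1, 1, 1, 2, 2, 2]]
  131390565236181 [14, 38, 38, 38, 56, 56, 98] 1127235318659 :=
  dec4 2 11 0 _ _ 140186658258389 _ [14, 38, 38, 38, 56, 56, 98] _ (by decide +kernel) nd742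

theorem nd744 : Ok 4 Dn4 [[1, 0, 0, 0, 1, 1, 1], [1, 1, 0, 0, 1, 1, 0], [1, 1, 1, 0, 1, 1, 1],
  [1, 1, 1, 1, 1, 1, 0], [1, 0, 0, 0, 1, 0, 0], [0, 0, 0, 0, 1, 1, 0], [1, 1, 1, 1, 2, 2, 2]]
  131356205497813 [14, 38, 38, 38, 56, 56, 98] 1127235318659 :=
  dec4 2 3 0 _ _ 131390565236181 _ [14, 38, 38, 38, 56, 56, 98] _ (by decide +kernel) nd743

theorem nd745 : Ok 4 Dn4 [[2, 1, 1, 1, 2, 2, 1], [1, 1, 0, 0, 0, 0, 0], [2, 1, 1, 0, 2, 1, 1],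
  [2, 1, 1, 1, 2, 1, 0], [1, 0, 0, 0, 1, 0, 0], [1, 1, 0, 0, 1, 1, 0], [3, 2, 1, 1, 3, 2, 2]]
  281440616972285 [49, 109, 145, 145, 133, 193, 229] 598677342075 :=
  cut4 0 4 1 1 1 _ [[3, 1, 1, 1, 3, 2, 1], [1, 1, 0, 0, 0, 0, 0], [2, 1, 1, 0, 2, 1, 1], [2, 1,
  1, 1, 2, 1, 0], [1, 0, 0, 0, 1, 0, 0], [1, 1, 0, 0, 1, 1, 0], [3, 2, 1, 1, 3, 2, 2]] [[2, 1, 1,
  1, 2, 2, 1], [1, 1, 0, 0, 0, 0, 0], [2, 1, 1, 0, 2, 1, 1], [2, 1, 1, 1, 2, 1, 0], [3, 1, 1, 1,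
  3, 2, 1], [1, 1, 0, 0, 1, 1, 0], [3, 2, 1, 1, 3, 2, 2]] _ _ 406027251584 1561927794528 _ (by
  decide +kernel) ok337 ok338

theorem nd746 : Ok 4 Dn4 [[2, 1, 1, 1, 2, 2, 1], [1, 1, 0, 0, 0, 0, 0], [2, 1, 1, 0, 2, 1, 1],
  [2, 1, 1, 1, 2, 1, 0], [1, 0, 0, 0, 1, 0, 0], [1, 1, 0, 0, 1, 1, 0], [3, 2, 1, 1, 3, 2, 2]]
  281440616447997 [45, 105, 117, 117, 105, 189, 201] 598677342075 :=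
  dec4 1 3 1 _ _ 281440616972285 _ [49, 109, 145, 145, 133, 193, 229] _ (by decide +kernel) nd745

theorem nd747 : Ok 4 Dn4 [[2, 1, 1, 1, 2, 2, 1], [1, 1, 0, 0, 0, 0, 0], [2, 1, 1, 0, 2, 1, 1],
  [2, 1, 1, 1, 2, 1, 0], [1, 0, 0, 0, 1, 0, 0], [1, 1, 0, 0, 1, 1, 0], [2, 1, 1, 1, 3, 2, 2]]
  281440616447997 [45, 105, 117, 117, 105, 189, 201] 624818855043 :=
  cut4 1 6 1 1 1 _ [[2, 1, 1, 1, 2, 2, 1], [3, 2, 1, 1, 3, 2, 2], [2, 1, 1, 0, 2, 1, 1], [2, 1,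
  1, 1, 2, 1, 0], [1, 0, 0, 0, 1, 0, 0], [1, 1, 0, 0, 1, 1, 0], [2, 1, 1, 1, 3, 2, 2]] [[2, 1, 1,
  1, 2, 2, 1], [1, 1, 0, 0, 0, 0, 0], [2, 1, 1, 0, 2, 1, 1], [2, 1, 1, 1, 2, 1, 0], [1, 0, 0, 0,
  1, 0, 0], [1, 1, 0, 0, 1, 1, 0], [3, 2, 1, 1, 3, 2, 2]] _ _ 781667932849 598677342075 _ (by
  decide +kernel) ok336 nd746

theorem nd748 : Ok 4 Dn4 [[2, 1, 1, 1, 2, 2, 1], [1, 1, 0, 0, 0, 0, 0], [2, 1, 1, 0, 2, 1, 1],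
  [2, 1, 1, 1, 2, 1, 0], [1, 0, 0, 0, 1, 0, 0], [1, 1, 0, 0, 1, 1, 0], [2, 1, 1, 1, 3, 2, 2]]
  281439542706173 [45, 105, 117, 117, 105, 189, 201] 624818855043 :=
  dec4 1 14 0 _ _ 281440616447997 _ [45, 105, 117, 117, 105, 189, 201] _ (by decide +kernel) nd747

theorem nd749 : Ok 4 Dn4 [[2, 1, 1, 1, 2, 2, 1], [1, 1, 0, 0, 0, 0, 0], [2, 1, 1, 0, 2, 1, 1],
  [1, 1, 1, 1, 1, 1, 0], [2, 1, 1, 1, 2, 1, 0], [1, 1, 0, 0, 1, 1, 0], [2, 1, 1, 1, 3, 2, 2]]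
  281439542706175 [45, 105, 117, 117, 105, 189, 201] 2089965397949 :=
  cut4 1 6 1 1 1 _ [[2, 1, 1, 1, 2, 2, 1], [3, 2, 1, 1, 3, 2, 2], [2, 1, 1, 0, 2, 1, 1], [1, 1,
  1, 1, 1, 1, 0], [2, 1, 1, 1, 2, 1, 0], [1, 1, 0, 0, 1, 1, 0], [2, 1, 1, 1, 3, 2, 2]] [[2, 1, 1,
  1, 2, 2, 1], [1, 1, 0, 0, 0, 0, 0], [2, 1, 1, 0, 2, 1, 1], [1, 1, 1, 1, 1, 1, 0], [2, 1, 1, 1,
  2, 1, 0], [1, 1, 0, 0, 1, 1, 0], [3, 2, 1, 1, 3, 2, 2]] _ _ 2360280628644 2044912859499 _ (by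
  decide +kernel) ok339 ok340

theorem nd750 : Ok 4 Dn4 [[2, 1, 1, 1, 2, 2, 1], [1, 1, 0, 0, 0, 0, 0], [2, 1, 1, 0, 2, 1, 1],
  [1, 1, 1, 1, 1, 1, 0], [2, 1, 1, 1, 2, 1, 0], [1, 1, 0, 0, 1, 1, 0], [2, 1, 1, 1, 3, 2, 2]]
  281439542706173 [45, 105, 117, 117, 105, 189, 201] 2089965397949 :=
  dec4 0 1 0 _ _ 281439542706175 _ [45, 105, 117, 117, 105, 189, 201] _ (by decide +kernel) nd749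

theorem nd751 : Ok 4 Dn4 [[2, 1, 1, 1, 2, 2, 1], [1, 1, 0, 0, 0, 0, 0], [2, 1, 1, 0, 2, 1, 1],
  [1, 1, 1, 1, 1, 1, 0], [1, 0, 0, 0, 1, 0, 0], [1, 1, 0, 0, 1, 1, 0], [2, 1, 1, 1, 3, 2, 2]]
  281439542706173 [45, 105, 117, 117, 105, 189, 201] 991105490770 :=
  cut4 3 4 1 1 1 _ [[2, 1, 1, 1, 2, 2, 1], [1, 1, 0, 0, 0, 0, 0], [2, 1, 1, 0, 2, 1, 1], [2, 1,
  1, 1, 2, 1, 0], [1, 0, 0, 0, 1, 0, 0], [1, 1, 0, 0, 1, 1, 0], [2, 1, 1, 1, 3, 2, 2]] [[2, 1, 1,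
  1, 2, 2, 1], [1, 1, 0, 0, 0, 0, 0], [2, 1, 1, 0, 2, 1, 1], [1, 1, 1, 1, 1, 1, 0], [2, 1, 1, 1,
  2, 1, 0], [1, 1, 0, 0, 1, 1, 0], [2, 1, 1, 1, 3, 2, 2]] _ _ 624818855043 2089965397949 _ (by
  decide +kernel) nd748 nd750

theorem nd752 : Ok 4 Dn4 [[2, 1, 1, 1, 2, 2, 1], [1, 1, 0, 0, 0, 0, 0], [2, 1, 1, 0, 2, 1, 1],
  [1, 1, 1, 1, 1, 1, 0], [1, 0, 0, 0, 1, 0, 0], [1, 1, 0, 0, 1, 1, 0], [2, 1, 1, 1, 3, 2, 2]]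
  281439542705661 [41, 77, 89, 113, 101, 161, 173] 991105490770 :=
  dec4 0 9 1 _ _ 281439542706173 _ [45, 105, 117, 117, 105, 189, 201] _ (by decide +kernel) nd751

theorem nd753 : Ok 4 Dn4 [[2, 1, 1, 1, 2, 2, 1], [1, 1, 0, 0, 0, 0, 0], [1, 1, 1, 0, 1, 1, 1],
  [1, 1, 1, 1, 1, 1, 0], [1, 0, 0, 0, 1, 0, 0], [1, 1, 0, 0, 1, 1, 0], [2, 1, 1, 1, 3, 2, 2]]
  281439542705661 [41, 77, 89, 113, 101, 161, 173] 1286879067674 :=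
  cut4 2 4 1 1 1 _ [[2, 1, 1, 1, 2, 2, 1], [1, 1, 0, 0, 0, 0, 0], [2, 1, 1, 0, 2, 1, 1], [1, 1,
  1, 1, 1, 1, 0], [1, 0, 0, 0, 1, 0, 0], [1, 1, 0, 0, 1, 1, 0], [2, 1, 1, 1, 3, 2, 2]] [[2, 1, 1,
  1, 2, 2, 1], [1, 1, 0, 0, 0, 0, 0], [1, 1, 1, 0, 1, 1, 1], [1, 1, 1, 1, 1, 1, 0], [2, 1, 1, 0,
  2, 1, 1], [1, 1, 0, 0, 1, 1, 0], [2, 1, 1, 1, 3, 2, 2]] _ _ 991105490770 2174199798383 _ (by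
  decide +kernel) nd752 ok341

theorem nd754 : Ok 4 Dn4 [[2, 1, 1, 1, 2, 2, 1], [1, 1, 0, 0, 0, 0, 0], [1, 1, 1, 0, 1, 1, 1],
  [1, 1, 1, 1, 1, 1, 0], [1, 0, 0, 0, 1, 0, 0], [1, 1, 0, 0, 1, 1, 0], [2, 1, 1, 1, 3, 2, 2]]
  281439542689277 [27, 75, 87, 111, 99, 147, 159] 1286879067674 :=
  dec4 0 14 1 _ _ 281439542705661 _ [41, 77, 89, 113, 101, 161, 173] _ (by decide +kernel) nd753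

theorem nd755 : Ok 4 Dn4 [[1, 0, 0, 0, 1, 1, 1], [1, 1, 0, 0, 0, 0, 0], [1, 1, 1, 0, 1, 1, 1],
  [1, 1, 1, 1, 1, 1, 0], [1, 0, 0, 0, 1, 0, 0], [1, 1, 0, 0, 1, 1, 0], [2, 1, 1, 1, 3, 2, 2]]
  281439542689277 [27, 75, 87, 111, 99, 147, 159] 777074048621 :=
  cut4 0 3 1 1 1 _ [[2, 1, 1, 1, 2, 2, 1], [1, 1, 0, 0, 0, 0, 0], [1, 1, 1, 0, 1, 1, 1], [1, 1,
  1, 1, 1, 1, 0], [1, 0, 0, 0, 1, 0, 0], [1, 1, 0, 0, 1, 1, 0], [2, 1, 1, 1, 3, 2, 2]] [[1, 0, 0,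
  0, 1, 1, 1], [1, 1, 0, 0, 0, 0, 0], [1, 1, 1, 0, 1, 1, 1], [2, 1, 1, 1, 2, 2, 1], [1, 0, 0, 0,
  1, 0, 0], [1, 1, 0, 0, 1, 1, 0], [2, 1, 1, 1, 3, 2, 2]] _ _ 1286879067674 437204035918 _ (by
  decide +kernel) nd754 ok342

theorem nd756 : Ok 4 Dn4 [[1, 0, 0, 0, 1, 1, 1], [1, 1, 0, 0, 0, 0, 0], [1, 1, 1, 0, 1, 1, 1],
  [1, 1, 1, 1, 1, 1, 0], [1, 0, 0, 0, 1, 0, 0], [1, 1, 0, 0, 1, 1, 0], [2, 1, 1, 1, 3, 2, 2]]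
  281439542689245 [23, 47, 83, 83, 95, 119, 131] 777074048621 :=
  dec4 0 5 1 _ _ 281439542689277 _ [27, 75, 87, 111, 99, 147, 159] _ (by decide +kernel) nd755

theorem nd757 : Ok 4 Dn4 [[1, 0, 0, 0, 1, 1, 1], [1, 1, 0, 0, 0, 0, 0], [1, 1, 1, 0, 1, 1, 1],
  [1, 1, 1, 1, 1, 1, 0], [1, 0, 0, 0, 1, 0, 0], [1, 1, 0, 0, 1, 1, 0], [2, 1, 1, 1, 3, 2, 2]]
  281439542689237 [19, 43, 55, 55, 91, 91, 103] 777074048621 :=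
  dec4 0 3 1 _ _ 281439542689245 _ [23, 47, 83, 83, 95, 119, 131] _ (by decide +kernel) nd756

theorem nd758 : Ok 4 Dn4 [[1, 0, 0, 0, 1, 1, 1], [1, 1, 0, 0, 0, 0, 0], [1, 1, 1, 0, 1, 1, 1],
  [1, 1, 1, 1, 1, 1, 0], [1, 0, 0, 0, 1, 0, 0], [1, 1, 0, 0, 1, 1, 0], [1, 1, 1, 1, 2, 2, 2]]
  281439542689237 [19, 43, 55, 55, 91, 91, 103] 1260694201726 :=
  cut4 4 6 1 1 1 _ [[1, 0, 0, 0, 1, 1, 1], [1, 1, 0, 0, 0, 0, 0], [1, 1, 1, 0, 1, 1, 1], [1, 1,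
  1, 1, 1, 1, 0], [2, 1, 1, 1, 3, 2, 2], [1, 1, 0, 0, 1, 1, 0], [1, 1, 1, 1, 2, 2, 2]] [[1, 0, 0,
  0, 1, 1, 1], [1, 1, 0, 0, 0, 0, 0], [1, 1, 1, 0, 1, 1, 1], [1, 1, 1, 1, 1, 1, 0], [1, 0, 0, 0,
  1, 0, 0], [1, 1, 0, 0, 1, 1, 0], [2, 1, 1, 1, 3, 2, 2]] _ _ 3678794967250 777074048621 _ (by
  decide +kernel) ok335 nd757

theorem nd759 : Ok 4 Dn4 [[1, 0, 0, 0, 1, 1, 1], [1, 1, 0, 0, 0, 0, 0], [1, 1, 1, 0, 1, 1, 1],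
  [1, 1, 1, 1, 1, 1, 0], [1, 0, 0, 0, 1, 0, 0], [1, 1, 0, 0, 1, 1, 0], [1, 1, 1, 1, 2, 2, 2]]
  140702054333909 [18, 42, 54, 54, 84, 84, 102] 1260694201726 :=
  dec4 2 15 1 _ _ 281439542689237 _ [19, 43, 55, 55, 91, 91, 103] _ (by decide +kernel) nd758

theorem nd760 : Ok 4 Dn4 [[1, 0, 0, 0, 1, 1, 1], [1, 1, 0, 0, 0, 0, 0], [1, 1, 1, 0, 1, 1, 1],
  [1, 1, 1, 1, 1, 1, 0], [1, 0, 0, 0, 1, 0, 0], [1, 1, 0, 0, 1, 1, 0], [1, 1, 1, 1, 2, 2, 2]]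
  131905961311701 [16, 40, 40, 52, 70, 70, 100] 1260694201726 :=
  dec4 2 11 1 _ _ 140702054333909 _ [18, 42, 54, 54, 84, 84, 102] _ (by decide +kernel) nd759

theorem nd761 : Ok 4 Dn4 [[1, 0, 0, 0, 1, 1, 1], [1, 1, 0, 0, 0, 0, 0], [1, 1, 1, 0, 1, 1, 1],
  [1, 1, 1, 1, 1, 1, 0], [1, 0, 0, 0, 1, 0, 0], [1, 1, 0, 0, 1, 1, 0], [1, 1, 1, 1, 2, 2, 2]]
  131356205497813 [14, 38, 38, 38, 56, 56, 98] 1260694201726 :=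
  dec4 2 7 1 _ _ 131905961311701 _ [16, 40, 40, 52, 70, 70, 100] _ (by decide +kernel) nd760

theorem nd762 : Ok 4 Dn4 [[1, 0, 0, 0, 1, 1, 1], [1, 1, 0, 0, 0, 0, 0], [1, 1, 1, 0, 1, 1, 1],
  [1, 1, 1, 1, 1, 1, 0], [1, 0, 0, 0, 1, 0, 0], [0, 0, 0, 0, 1, 1, 0], [1, 1, 1, 1, 2, 2, 2]]
  131356205497813 [14, 38, 38, 38, 56, 56, 98] 1193964760193 :=
  cut4 1 5 1 1 1 _ [[1, 0, 0, 0, 1, 1, 1], [1, 1, 0, 0, 1, 1, 0], [1, 1, 1, 0, 1, 1, 1], [1, 1,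
  1, 1, 1, 1, 0], [1, 0, 0, 0, 1, 0, 0], [0, 0, 0, 0, 1, 1, 0], [1, 1, 1, 1, 2, 2, 2]] [[1, 0, 0,
  0, 1, 1, 1], [1, 1, 0, 0, 0, 0, 0], [1, 1, 1, 0, 1, 1, 1], [1, 1, 1, 1, 1, 1, 0], [1, 0, 0, 0,
  1, 0, 0], [1, 1, 0, 0, 1, 1, 0], [1, 1, 1, 1, 2, 2, 2]] _ _ 1127235318659 1260694201726 _ (by
  decide +kernel) nd744 nd761

theorem nd763 : Ok 4 Dn4 [[1, 0, 0, 0, 1, 1, 1], [1, 1, 0, 0, 0, 0, 0], [1, 1, 1, 0, 1, 1, 1],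
  [1, 1, 1, 1, 1, 1, 0], [1, 0, 0, 0, 1, 0, 0], [0, 0, 0, 0, 1, 1, 0], [1, 1, 1, 1, 2, 2, 2]]
  60987461320149 [14, 38, 38, 38, 56, 56, 98] 1193964760193 :=
  dec4 2 14 0 _ _ 131356205497813 _ [14, 38, 38, 38, 56, 56, 98] _ (by decide +kernel) nd762

theorem nd764 : Ok 4 Dn4 [[1, 0, 0, 0, 1, 1, 1], [1, 1, 0, 0, 0, 0, 0], [1, 1, 1, 0, 1, 1, 1],
  [1, 1, 1, 1, 1, 1, 0], [1, 0, 0, 0, 1, 0, 0], [0, 0, 0, 0, 1, 1, 0], [1, 1, 1, 1, 2, 2, 2]]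
  25803089231317 [14, 38, 38, 38, 56, 56, 98] 1193964760193 :=
  dec4 2 13 0 _ _ 60987461320149 _ [14, 38, 38, 38, 56, 56, 98] _ (by decide +kernel) nd763

theorem nd765 : Ok 4 Dn4 [[2, 1, 1, 1, 1, 1, 1], [1, 1, 0, 0, 0, 0, 0], [2, 1, 1, 0, 2, 1, 1],
  [4, 3, 2, 2, 3, 2, 2], [2, 1, 1, 1, 2, 1, 0], [1, 1, 1, 1, 1, 1, 0], [2, 1, 1, 1, 3, 2, 2]]
  281439542706175 [47, 119, 119, 119, 119, 203, 203] 3159825599712 :=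
  cut4 2 5 1 1 1 _ [[2, 1, 1, 1, 1, 1, 1], [1, 1, 0, 0, 0, 0, 0], [3, 2, 2, 1, 3, 2, 1], [4, 3,
  2, 2, 3, 2, 2], [2, 1, 1, 1, 2, 1, 0], [1, 1, 1, 1, 1, 1, 0], [2, 1, 1, 1, 3, 2, 2]] [[2, 1, 1,
  1, 1, 1, 1], [1, 1, 0, 0, 0, 0, 0], [2, 1, 1, 0, 2, 1, 1], [4, 3, 2, 2, 3, 2, 2], [2, 1, 1, 1,
  2, 1, 0], [3, 2, 2, 1, 3, 2, 1], [2, 1, 1, 1, 3, 2, 2]] _ _ 3626410507275 2537712389626 _ (by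
  decide +kernel) ok345 ok346

theorem nd766 : Ok 4 Dn4 [[2, 1, 1, 1, 1, 1, 1], [1, 1, 0, 0, 0, 0, 0], [2, 1, 1, 0, 2, 1, 1],
  [3, 2, 2, 2, 3, 2, 2], [2, 1, 1, 1, 2, 1, 0], [1, 1, 1, 1, 1, 1, 0], [2, 1, 1, 1, 3, 2, 2]]
  281439542706175 [47, 119, 119, 119, 119, 203, 203] 3595648999521 :=
  cut4 1 3 1 1 1 _ [[2, 1, 1, 1, 1, 1, 1], [4, 3, 2, 2, 3, 2, 2], [2, 1, 1, 0, 2, 1, 1], [3, 2,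
  2, 2, 3, 2, 2], [2, 1, 1, 1, 2, 1, 0], [1, 1, 1, 1, 1, 1, 0], [2, 1, 1, 1, 3, 2, 2]] [[2, 1, 1,
  1, 1, 1, 1], [1, 1, 0, 0, 0, 0, 0], [2, 1, 1, 0, 2, 1, 1], [4, 3, 2, 2, 3, 2, 2], [2, 1, 1, 1,
  2, 1, 0], [1, 1, 1, 1, 1, 1, 0], [2, 1, 1, 1, 3, 2, 2]] _ _ 7082236197989 3159825599712 _ (by
  decide +kernel) ok344 nd765

theorem nd767 : Ok 4 Dn4 [[2, 1, 1, 1, 1, 1, 1], [1, 1, 0, 0, 0, 0, 0], [2, 1, 1, 0, 2, 1, 1],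
  [3, 2, 2, 2, 3, 2, 2], [2, 1, 1, 1, 2, 1, 0], [1, 1, 1, 1, 1, 1, 0], [2, 1, 1, 1, 3, 2, 2]]
  281439542706173 [47, 119, 119, 119, 119, 203, 203] 3595648999521 :=
  dec4 0 1 0 _ _ 281439542706175 _ [47, 119, 119, 119, 119, 203, 203] _ (by decide +kernel) nd766

theorem nd768 : Ok 4 Dn4 [[2, 1, 1, 1, 1, 1, 1], [1, 1, 0, 0, 0, 0, 0], [2, 1, 1, 0, 2, 1, 1],
  [4, 3, 2, 2, 3, 2, 2], [1, 0, 0, 0, 1, 0, 0], [2, 1, 1, 1, 2, 1, 0], [3, 2, 1, 1, 3, 2, 2]]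
  281440616972285 [51, 123, 147, 147, 147, 207, 231] 1124361837829 :=
  cut4 0 4 1 1 1 _ [[3, 1, 1, 1, 2, 1, 1], [1, 1, 0, 0, 0, 0, 0], [2, 1, 1, 0, 2, 1, 1], [4, 3,
  2, 2, 3, 2, 2], [1, 0, 0, 0, 1, 0, 0], [2, 1, 1, 1, 2, 1, 0], [3, 2, 1, 1, 3, 2, 2]] [[2, 1, 1,
  1, 1, 1, 1], [1, 1, 0, 0, 0, 0, 0], [2, 1, 1, 0, 2, 1, 1], [4, 3, 2, 2, 3, 2, 2], [3, 1, 1, 1,
  2, 1, 1], [2, 1, 1, 1, 2, 1, 0], [3, 2, 1, 1, 3, 2, 2]] _ _ 771053532549 2537595058948 _ (by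
  decide +kernel) ok349 ok350

theorem nd769 : Ok 4 Dn4 [[2, 1, 1, 1, 1, 1, 1], [1, 1, 0, 0, 0, 0, 0], [2, 1, 1, 0, 2, 1, 1],
  [4, 3, 2, 2, 3, 2, 2], [1, 0, 0, 0, 1, 0, 0], [2, 1, 1, 1, 2, 1, 0], [3, 2, 1, 1, 3, 2, 2]]
  281440616447997 [47, 119, 119, 119, 119, 203, 203] 1124361837829 :=
  dec4 1 3 1 _ _ 281440616972285 _ [51, 123, 147, 147, 147, 207, 231] _ (by decide +kernel) nd768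

theorem nd770 : Ok 4 Dn4 [[2, 1, 1, 1, 1, 1, 1], [1, 1, 0, 0, 0, 0, 0], [2, 1, 1, 0, 2, 1, 1],
  [4, 3, 2, 2, 3, 2, 2], [1, 0, 0, 0, 1, 0, 0], [2, 1, 1, 1, 2, 1, 0], [2, 1, 1, 1, 3, 2, 2]]
  281440616447997 [47, 119, 119, 119, 119, 203, 203] 1365229389506 :=
  cut4 1 6 1 1 1 _ [[2, 1, 1, 1, 1, 1, 1], [3, 2, 1, 1, 3, 2, 2], [2, 1, 1, 0, 2, 1, 1], [4, 3,
  2, 2, 3, 2, 2], [1, 0, 0, 0, 1, 0, 0], [2, 1, 1, 1, 2, 1, 0], [2, 1, 1, 1, 3, 2, 2]] [[2, 1, 1,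
  1, 1, 1, 1], [1, 1, 0, 0, 0, 0, 0], [2, 1, 1, 0, 2, 1, 1], [4, 3, 2, 2, 3, 2, 2], [1, 0, 0, 0,
  1, 0, 0], [2, 1, 1, 1, 2, 1, 0], [3, 2, 1, 1, 3, 2, 2]] _ _ 2810434699568 1124361837829 _ (by
  decide +kernel) ok348 nd769

theorem nd771 : Ok 4 Dn4 [[2, 1, 1, 1, 1, 1, 1], [1, 1, 0, 0, 0, 0, 0], [2, 1, 1, 0, 2, 1, 1],
  [3, 2, 2, 2, 3, 2, 2], [1, 0, 0, 0, 1, 0, 0], [2, 1, 1, 1, 2, 1, 0], [2, 1, 1, 1, 3, 2, 2]]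
  281440616447997 [47, 119, 119, 119, 119, 203, 203] 1650151766720 :=
  cut4 1 3 1 1 1 _ [[2, 1, 1, 1, 1, 1, 1], [4, 3, 2, 2, 3, 2, 2], [2, 1, 1, 0, 2, 1, 1], [3, 2,
  2, 2, 3, 2, 2], [1, 0, 0, 0, 1, 0, 0], [2, 1, 1, 1, 2, 1, 0], [2, 1, 1, 1, 3, 2, 2]] [[2, 1, 1,
  1, 1, 1, 1], [1, 1, 0, 0, 0, 0, 0], [2, 1, 1, 0, 2, 1, 1], [4, 3, 2, 2, 3, 2, 2], [1, 0, 0, 0,
  1, 0, 0], [2, 1, 1, 1, 2, 1, 0], [2, 1, 1, 1, 3, 2, 2]] _ _ 3929530784431 1365229389506 _ (by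
  decide +kernel) ok347 nd770

theorem nd772 : Ok 4 Dn4 [[2, 1, 1, 1, 1, 1, 1], [1, 1, 0, 0, 0, 0, 0], [2, 1, 1, 0, 2, 1, 1],
  [3, 2, 2, 2, 3, 2, 2], [1, 0, 0, 0, 1, 0, 0], [2, 1, 1, 1, 2, 1, 0], [2, 1, 1, 1, 3, 2, 2]]
  281439542706173 [47, 119, 119, 119, 119, 203, 203] 1650151766720 :=
  dec4 1 14 0 _ _ 281440616447997 _ [47, 119, 119, 119, 119, 203, 203] _ (by decide +kernel) nd771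

theorem nd773 : Ok 4 Dn4 [[2, 1, 1, 1, 1, 1, 1], [1, 1, 0, 0, 0, 0, 0], [2, 1, 1, 0, 2, 1, 1],
  [3, 2, 2, 2, 3, 2, 2], [1, 0, 0, 0, 1, 0, 0], [1, 1, 1, 1, 1, 1, 0], [2, 1, 1, 1, 3, 2, 2]]
  281439542706173 [47, 119, 119, 119, 119, 203, 203] 2136526074921 :=
  cut4 4 5 1 1 1 _ [[2, 1, 1, 1, 1, 1, 1], [1, 1, 0, 0, 0, 0, 0], [2, 1, 1, 0, 2, 1, 1], [3, 2,
  2, 2, 3, 2, 2], [2, 1, 1, 1, 2, 1, 0], [1, 1, 1, 1, 1, 1, 0], [2, 1, 1, 1, 3, 2, 2]] [[2, 1, 1,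
  1, 1, 1, 1], [1, 1, 0, 0, 0, 0, 0], [2, 1, 1, 0, 2, 1, 1], [3, 2, 2, 2, 3, 2, 2], [1, 0, 0, 0,
  1, 0, 0], [2, 1, 1, 1, 2, 1, 0], [2, 1, 1, 1, 3, 2, 2]] _ _ 3595648999521 1650151766720 _ (by
  decide +kernel) nd767 nd772

theorem nd774 : Ok 4 Dn4 [[2, 1, 1, 1, 1, 1, 1], [1, 1, 0, 0, 0, 0, 0], [2, 1, 1, 0, 2, 1, 1],
  [3, 2, 2, 2, 3, 2, 2], [1, 0, 0, 0, 1, 0, 0], [1, 1, 1, 1, 1, 1, 0], [2, 1, 1, 1, 3, 2, 2]]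
  281439542705661 [43, 91, 91, 115, 115, 175, 175] 2136526074921 :=
  dec4 0 9 1 _ _ 281439542706173 _ [47, 119, 119, 119, 119, 203, 203] _ (by decide +kernel) nd773

theorem nd775 : Ok 4 Dn4 [[2, 1, 1, 1, 1, 1, 1], [1, 1, 0, 0, 0, 0, 0], [1, 1, 1, 0, 1, 1, 1],
  [3, 2, 2, 2, 3, 2, 2], [1, 0, 0, 0, 1, 0, 0], [1, 1, 1, 1, 1, 1, 0], [2, 1, 1, 1, 3, 2, 2]]
  281439542705661 [43, 91, 91, 115, 115, 175, 175] 2663507990311 :=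
  cut4 2 4 1 1 1 _ [[2, 1, 1, 1, 1, 1, 1], [1, 1, 0, 0, 0, 0, 0], [2, 1, 1, 0, 2, 1, 1], [3, 2,
  2, 2, 3, 2, 2], [1, 0, 0, 0, 1, 0, 0], [1, 1, 1, 1, 1, 1, 0], [2, 1, 1, 1, 3, 2, 2]] [[2, 1, 1,
  1, 1, 1, 1], [1, 1, 0, 0, 0, 0, 0], [1, 1, 1, 0, 1, 1, 1], [3, 2, 2, 2, 3, 2, 2], [2, 1, 1, 0,
  2, 1, 1], [1, 1, 1, 1, 1, 1, 0], [2, 1, 1, 1, 3, 2, 2]] _ _ 2136526074921 4244453736479 _ (by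
  decide +kernel) nd774 ok351

theorem nd776 : Ok 4 Dn4 [[2, 1, 1, 1, 1, 1, 1], [1, 1, 0, 0, 0, 0, 0], [1, 1, 1, 0, 1, 1, 1],
  [3, 2, 2, 2, 3, 2, 2], [1, 0, 0, 0, 1, 0, 0], [1, 1, 1, 1, 1, 1, 0], [2, 1, 1, 1, 3, 2, 2]]
  281439542705629 [39, 63, 87, 87, 111, 147, 147] 2663507990311 :=
  dec4 0 5 1 _ _ 281439542705661 _ [43, 91, 91, 115, 115, 175, 175] _ (by decide +kernel) nd775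

theorem nd777 : Ok 4 Dn4 [[2, 1, 1, 1, 1, 1, 1], [1, 1, 0, 0, 0, 0, 0], [1, 1, 1, 0, 1, 1, 1],
  [3, 2, 2, 2, 3, 2, 2], [1, 0, 0, 0, 1, 0, 0], [1, 1, 1, 1, 1, 1, 0], [2, 1, 1, 1, 3, 2, 2]]
  281439542705621 [35, 59, 59, 59, 107, 119, 119] 2663507990311 :=
  dec4 0 3 1 _ _ 281439542705629 _ [39, 63, 87, 87, 111, 147, 147] _ (by decide +kernel) nd776

theorem nd778 : Ok 4 Dn4 [[2, 1, 1, 1, 1, 1, 1], [1, 1, 0, 0, 0, 0, 0], [1, 1, 1, 0, 1, 1, 1],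
  [3, 2, 2, 2, 3, 2, 2], [1, 0, 0, 0, 1, 0, 0], [1, 1, 1, 1, 1, 1, 0], [1, 1, 1, 1, 2, 2, 2]]
  281439542705621 [35, 59, 59, 59, 107, 119, 119] 4259676213544 :=
  cut4 4 6 1 1 1 _ [[2, 1, 1, 1, 1, 1, 1], [1, 1, 0, 0, 0, 0, 0], [1, 1, 1, 0, 1, 1, 1], [3, 2,
  2, 2, 3, 2, 2], [2, 1, 1, 1, 3, 2, 2], [1, 1, 1, 1, 1, 1, 0], [1, 1, 1, 1, 2, 2, 2]] [[2, 1, 1,
  1, 1, 1, 1], [1, 1, 0, 0, 0, 0, 0], [1, 1, 1, 0, 1, 1, 1], [3, 2, 2, 2, 3, 2, 2], [1, 0, 0, 0,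
  1, 0, 0], [1, 1, 1, 1, 1, 1, 0], [2, 1, 1, 1, 3, 2, 2]] _ _ 12240517329709 2663507990311 _ (by
  decide +kernel) ok343 nd777

theorem nd779 : Ok 4 Dn4 [[2, 1, 1, 1, 1, 1, 1], [1, 1, 0, 0, 0, 0, 0], [2, 1, 1, 0, 2, 1, 1],
  [3, 2, 2, 1, 2, 1, 1], [1, 0, 0, 0, 1, 0, 0], [1, 1, 1, 1, 1, 1, 0], [3, 2, 2, 2, 3, 2, 2]]
  281439542706173 [47, 119, 119, 119, 119, 203, 203] 2247306432425 :=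
  cut4 4 5 1 1 1 _ [[2, 1, 1, 1, 1, 1, 1], [1, 1, 0, 0, 0, 0, 0], [2, 1, 1, 0, 2, 1, 1], [3, 2,
  2, 1, 2, 1, 1], [2, 1, 1, 1, 2, 1, 0], [1, 1, 1, 1, 1, 1, 0], [3, 2, 2, 2, 3, 2, 2]] [[2, 1, 1,
  1, 1, 1, 1], [1, 1, 0, 0, 0, 0, 0], [2, 1, 1, 0, 2, 1, 1], [3, 2, 2, 1, 2, 1, 1], [1, 0, 0, 0,
  1, 0, 0], [2, 1, 1, 1, 2, 1, 0], [3, 2, 2, 2, 3, 2, 2]] _ _ 3550148152958 1813025858913 _ (by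
  decide +kernel) ok353 ok354

theorem nd780 : Ok 4 Dn4 [[2, 1, 1, 1, 1, 1, 1], [1, 1, 0, 0, 0, 0, 0], [2, 1, 1, 0, 2, 1, 1],
  [3, 2, 2, 1, 2, 1, 1], [1, 0, 0, 0, 1, 0, 0], [1, 1, 1, 1, 1, 1, 0], [3, 2, 2, 2, 3, 2, 2]]
  281439542705661 [43, 91, 91, 115, 115, 175, 175] 2247306432425 :=
  dec4 0 9 1 _ _ 281439542706173 _ [47, 119, 119, 119, 119, 203, 203] _ (by decide +kernel) nd779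

theorem nd781 : Ok 4 Dn4 [[2, 1, 1, 1, 1, 1, 1], [1, 1, 0, 0, 0, 0, 0], [1, 1, 1, 0, 1, 1, 1],
  [3, 2, 2, 1, 2, 1, 1], [1, 0, 0, 0, 1, 0, 0], [1, 1, 1, 1, 1, 1, 0], [3, 2, 2, 2, 3, 2, 2]]
  281439542705661 [43, 91, 91, 115, 115, 175, 175] 2804252485588 :=
  cut4 2 4 1 1 1 _ [[2, 1, 1, 1, 1, 1, 1], [1, 1, 0, 0, 0, 0, 0], [2, 1, 1, 0, 2, 1, 1], [3, 2,
  2, 1, 2, 1, 1], [1, 0, 0, 0, 1, 0, 0], [1, 1, 1, 1, 1, 1, 0], [3, 2, 2, 2, 3, 2, 2]] [[2, 1, 1,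
  1, 1, 1, 1], [1, 1, 0, 0, 0, 0, 0], [1, 1, 1, 0, 1, 1, 1], [3, 2, 2, 1, 2, 1, 1], [2, 1, 1, 0,
  2, 1, 1], [1, 1, 1, 1, 1, 1, 0], [3, 2, 2, 2, 3, 2, 2]] _ _ 2247306432425 4475090645077 _ (by
  decide +kernel) nd780 ok355

theorem nd782 : Ok 4 Dn4 [[2, 1, 1, 1, 1, 1, 1], [1, 1, 0, 0, 0, 0, 0], [1, 1, 1, 0, 1, 1, 1],
  [2, 1, 1, 1, 1, 0, 0], [1, 0, 0, 0, 1, 0, 0], [1, 1, 1, 1, 1, 1, 0], [3, 2, 2, 2, 3, 2, 2]]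
  281439542705661 [43, 91, 91, 115, 115, 175, 175] 2989630288301 :=
  cut4 2 3 1 1 1 _ [[2, 1, 1, 1, 1, 1, 1], [1, 1, 0, 0, 0, 0, 0], [3, 2, 2, 1, 2, 1, 1], [2, 1,
  1, 1, 1, 0, 0], [1, 0, 0, 0, 1, 0, 0], [1, 1, 1, 1, 1, 1, 0], [3, 2, 2, 2, 3, 2, 2]] [[2, 1, 1,
  1, 1, 1, 1], [1, 1, 0, 0, 0, 0, 0], [1, 1, 1, 0, 1, 1, 1], [3, 2, 2, 1, 2, 1, 1], [1, 0, 0, 0,
  1, 0, 0], [1, 1, 1, 1, 1, 1, 0], [3, 2, 2, 2, 3, 2, 2]] _ _ 3175008091014 2804252485588 _ (by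
  decide +kernel) ok352 nd781

theorem nd783 : Ok 4 Dn4 [[2, 1, 1, 1, 1, 1, 1], [1, 1, 0, 0, 0, 0, 0], [1, 1, 1, 0, 1, 1, 1],
  [2, 1, 1, 1, 1, 0, 0], [1, 0, 0, 0, 1, 0, 0], [1, 1, 1, 1, 1, 1, 0], [3, 2, 2, 2, 3, 2, 2]]
  281439542705629 [39, 63, 87, 87, 111, 147, 147] 2989630288301 :=
  dec4 0 5 1 _ _ 281439542705661 _ [43, 91, 91, 115, 115, 175, 175] _ (by decide +kernel) nd782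

theorem nd784 : Ok 4 Dn4 [[2, 1, 1, 1, 1, 1, 1], [1, 1, 0, 0, 0, 0, 0], [1, 1, 1, 0, 1, 1, 1],
  [2, 1, 1, 1, 1, 0, 0], [1, 0, 0, 0, 1, 0, 0], [1, 1, 1, 1, 1, 1, 0], [3, 2, 2, 2, 3, 2, 2]]
  281439542705621 [35, 59, 59, 59, 107, 119, 119] 2989630288301 :=
  dec4 0 3 1 _ _ 281439542705629 _ [39, 63, 87, 87, 111, 147, 147] _ (by decide +kernel) nd783

theorem nd785 : Ok 4 Dn4 [[2, 1, 1, 1, 1, 1, 1], [1, 1, 0, 0, 0, 0, 0], [1, 1, 1, 0, 1, 1, 1],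
  [2, 1, 1, 1, 1, 0, 0], [1, 0, 0, 0, 1, 0, 0], [1, 1, 1, 1, 1, 1, 0], [1, 1, 1, 1, 2, 2, 2]]
  281439542705621 [35, 59, 59, 59, 107, 119, 119] 3465897510268 :=
  cut4 3 6 1 1 1 _ [[2, 1, 1, 1, 1, 1, 1], [1, 1, 0, 0, 0, 0, 0], [1, 1, 1, 0, 1, 1, 1], [3, 2,
  2, 2, 3, 2, 2], [1, 0, 0, 0, 1, 0, 0], [1, 1, 1, 1, 1, 1, 0], [1, 1, 1, 1, 2, 2, 2]] [[2, 1, 1,
  1, 1, 1, 1], [1, 1, 0, 0, 0, 0, 0], [1, 1, 1, 0, 1, 1, 1], [2, 1, 1, 1, 1, 0, 0], [1, 0, 0, 0,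
  1, 0, 0], [1, 1, 1, 1, 1, 1, 0], [3, 2, 2, 2, 3, 2, 2]] _ _ 4259676213544 2989630288301 _ (by
  decide +kernel) nd778 nd784

theorem nd786 : Ok 4 Dn4 [[2, 1, 1, 1, 1, 1, 1], [1, 1, 0, 0, 0, 0, 0], [1, 1, 1, 0, 1, 1, 1],
  [2, 1, 1, 1, 1, 0, 0], [1, 0, 0, 0, 1, 0, 0], [1, 1, 1, 1, 1, 1, 0], [1, 1, 1, 1, 2, 2, 2]]
  211070798527957 [35, 59, 59, 59, 107, 119, 119] 3465897510268 :=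
  dec4 2 14 0 _ _ 281439542705621 _ [35, 59, 59, 59, 107, 119, 119] _ (by decide +kernel) nd785

theorem nd787 : Ok 4 Dn4 [[2, 1, 1, 1, 1, 1, 1], [1, 1, 0, 0, 0, 0, 0], [1, 1, 1, 0, 1, 1, 1],
  [1, 1, 1, 1, 0, 0, 0], [2, 1, 1, 1, 1, 0, 0], [1, 1, 1, 1, 1, 1, 0], [1, 1, 1, 1, 2, 2, 2]]
  281440616447447 [63, 63, 63, 63, 135, 135, 135] 7877149218746 :=
  cut4 4 6 1 1 1 _ [[2, 1, 1, 1, 1, 1, 1], [1, 1, 0, 0, 0, 0, 0], [1, 1, 1, 0, 1, 1, 1], [1, 1,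
  1, 1, 0, 0, 0], [3, 2, 2, 2, 3, 2, 2], [1, 1, 1, 1, 1, 1, 0], [1, 1, 1, 1, 2, 2, 2]] [[2, 1, 1,
  1, 1, 1, 1], [1, 1, 0, 0, 0, 0, 0], [1, 1, 1, 0, 1, 1, 1], [1, 1, 1, 1, 0, 0, 0], [2, 1, 1, 1,
  1, 0, 0], [1, 1, 1, 1, 1, 1, 0], [3, 2, 2, 2, 3, 2, 2]] _ _ 14259116489794 4047968856116 _ (by
  decide +kernel) ok356 ok357

theorem nd788 : Ok 4 Dn4 [[2, 1, 1, 1, 1, 1, 1], [1, 1, 0, 0, 0, 0, 0], [1, 1, 1, 0, 1, 1, 1],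
  [1, 1, 1, 1, 0, 0, 0], [2, 1, 1, 1, 1, 0, 0], [1, 1, 1, 1, 1, 1, 0], [1, 1, 1, 1, 2, 2, 2]]
  211071872269783 [49, 61, 61, 61, 121, 121, 133] 7877149218746 :=
  dec4 2 14 1 _ _ 281440616447447 _ [63, 63, 63, 63, 135, 135, 135] _ (by decide +kernel) nd787

theorem nd789 : Ok 4 Dn4 [[2, 1, 1, 1, 1, 1, 1], [1, 1, 0, 0, 0, 0, 0], [1, 1, 1, 0, 1, 1, 1],
  [1, 1, 1, 1, 0, 0, 0], [2, 1, 1, 1, 1, 0, 0], [1, 1, 1, 1, 1, 1, 0], [1, 1, 1, 1, 2, 2, 2]]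
  211070798527959 [35, 59, 59, 59, 107, 119, 119] 7877149218746 :=
  dec4 1 14 1 _ _ 211071872269783 _ [49, 61, 61, 61, 121, 121, 133] _ (by decide +kernel) nd788

theorem nd790 : Ok 4 Dn4 [[2, 1, 1, 1, 1, 1, 1], [1, 1, 0, 0, 0, 0, 0], [1, 1, 1, 0, 1, 1, 1],
  [1, 1, 1, 1, 0, 0, 0], [2, 1, 1, 1, 1, 0, 0], [1, 1, 1, 1, 1, 1, 0], [1, 1, 1, 1, 2, 2, 2]]
  211070798527957 [35, 59, 59, 59, 107, 119, 119] 7877149218746 :=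
  dec4 0 1 0 _ _ 211070798527959 _ [35, 59, 59, 59, 107, 119, 119] _ (by decide +kernel) nd789

theorem nd791 : Ok 4 Dn4 [[2, 1, 1, 1, 1, 1, 1], [1, 1, 0, 0, 0, 0, 0], [1, 1, 1, 0, 1, 1, 1],
  [1, 1, 1, 1, 0, 0, 0], [1, 0, 0, 0, 1, 0, 0], [1, 1, 1, 1, 1, 1, 0], [1, 1, 1, 1, 2, 2, 2]]
  211070798527957 [35, 59, 59, 59, 107, 119, 119] 4936314746428 :=
  cut4 3 4 1 1 1 _ [[2, 1, 1, 1, 1, 1, 1], [1, 1, 0, 0, 0, 0, 0], [1, 1, 1, 0, 1, 1, 1], [2, 1,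
  1, 1, 1, 0, 0], [1, 0, 0, 0, 1, 0, 0], [1, 1, 1, 1, 1, 1, 0], [1, 1, 1, 1, 2, 2, 2]] [[2, 1, 1,
  1, 1, 1, 1], [1, 1, 0, 0, 0, 0, 0], [1, 1, 1, 0, 1, 1, 1], [1, 1, 1, 1, 0, 0, 0], [2, 1, 1, 1,
  1, 0, 0], [1, 1, 1, 1, 1, 1, 0], [1, 1, 1, 1, 2, 2, 2]] _ _ 3465897510268 7877149218746 _ (by
  decide +kernel) nd786 nd790

theorem nd792 : Ok 4 Dn4 [[2, 1, 1, 1, 1, 1, 1], [1, 1, 0, 0, 0, 0, 0], [1, 1, 1, 0, 1, 1, 1],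
  [1, 1, 1, 1, 0, 0, 0], [1, 0, 0, 0, 1, 0, 0], [1, 1, 1, 1, 1, 1, 0], [1, 1, 1, 1, 2, 2, 2]]
  211070798511573 [21, 57, 57, 57, 105, 105, 105] 4936314746428 :=
  dec4 0 14 1 _ _ 211070798527957 _ [35, 59, 59, 59, 107, 119, 119] _ (by decide +kernel) nd791

theorem nd793 : Ok 4 Dn4 [[2, 1, 1, 1, 2, 2, 1], [1, 1, 0, 0, 0, 0, 0], [2, 1, 1, 0, 2, 1, 1],
  [2, 1, 1, 1, 1, 1, 1], [2, 1, 1, 1, 2, 1, 0], [1, 1, 1, 1, 1, 1, 0], [2, 1, 1, 1, 3, 2, 2]]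
  281439542706175 [47, 119, 119, 119, 119, 203, 203] 2752365090858 :=
  cut4 1 6 1 1 1 _ [[2, 1, 1, 1, 2, 2, 1], [3, 2, 1, 1, 3, 2, 2], [2, 1, 1, 0, 2, 1, 1], [2, 1,
  1, 1, 1, 1, 1], [2, 1, 1, 1, 2, 1, 0], [1, 1, 1, 1, 1, 1, 0], [2, 1, 1, 1, 3, 2, 2]] [[2, 1, 1,
  1, 2, 2, 1], [1, 1, 0, 0, 0, 0, 0], [2, 1, 1, 0, 2, 1, 1], [2, 1, 1, 1, 1, 1, 1], [2, 1, 1, 1,
  2, 1, 0], [1, 1, 1, 1, 1, 1, 0], [3, 2, 1, 1, 3, 2, 2]] _ _ 4930378208644 2389362904560 _ (by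
  decide +kernel) ok359 ok360

theorem nd794 : Ok 4 Dn4 [[2, 1, 1, 1, 2, 2, 1], [1, 1, 0, 0, 0, 0, 0], [2, 1, 1, 0, 2, 1, 1],
  [2, 1, 1, 1, 1, 1, 1], [2, 1, 1, 1, 2, 1, 0], [1, 1, 1, 1, 1, 1, 0], [2, 1, 1, 1, 3, 2, 2]]
  281439542706173 [47, 119, 119, 119, 119, 203, 203] 2752365090858 :=
  dec4 0 1 0 _ _ 281439542706175 _ [47, 119, 119, 119, 119, 203, 203] _ (by decide +kernel) nd793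

theorem nd795 : Ok 4 Dn4 [[2, 1, 1, 1, 2, 2, 1], [1, 1, 0, 0, 0, 0, 0], [2, 1, 1, 0, 2, 1, 1],
  [3, 1, 1, 1, 2, 1, 1], [1, 0, 0, 0, 1, 0, 0], [2, 1, 1, 1, 2, 1, 0], [3, 2, 1, 1, 3, 2, 2]]
  281440616972285 [51, 123, 147, 147, 147, 207, 231] 642548286358 :=
  cut4 0 4 1 1 1 _ [[3, 1, 1, 1, 3, 2, 1], [1, 1, 0, 0, 0, 0, 0], [2, 1, 1, 0, 2, 1, 1], [3, 1,
  1, 1, 2, 1, 1], [1, 0, 0, 0, 1, 0, 0], [2, 1, 1, 1, 2, 1, 0], [3, 2, 1, 1, 3, 2, 2]] [[2, 1, 1,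
  1, 2, 2, 1], [1, 1, 0, 0, 0, 0, 0], [2, 1, 1, 0, 2, 1, 1], [3, 1, 1, 1, 2, 1, 1], [3, 1, 1, 1,
  3, 2, 1], [2, 1, 1, 1, 2, 1, 0], [3, 2, 1, 1, 3, 2, 2]] _ _ 409347918269 1808550126803 _ (by
  decide +kernel) ok362 ok363

theorem nd796 : Ok 4 Dn4 [[2, 1, 1, 1, 2, 2, 1], [1, 1, 0, 0, 0, 0, 0], [2, 1, 1, 0, 2, 1, 1],
  [2, 1, 1, 1, 1, 1, 1], [1, 0, 0, 0, 1, 0, 0], [2, 1, 1, 1, 2, 1, 0], [3, 2, 1, 1, 3, 2, 2]]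
  281440616972285 [51, 123, 147, 147, 147, 207, 231] 973696990403 :=
  cut4 3 4 1 1 1 _ [[2, 1, 1, 1, 2, 2, 1], [1, 1, 0, 0, 0, 0, 0], [2, 1, 1, 0, 2, 1, 1], [3, 1,
  1, 1, 2, 1, 1], [1, 0, 0, 0, 1, 0, 0], [2, 1, 1, 1, 2, 1, 0], [3, 2, 1, 1, 3, 2, 2]] [[2, 1, 1,
  1, 2, 2, 1], [1, 1, 0, 0, 0, 0, 0], [2, 1, 1, 0, 2, 1, 1], [2, 1, 1, 1, 1, 1, 1], [3, 1, 1, 1,
  2, 1, 1], [2, 1, 1, 1, 2, 1, 0], [3, 2, 1, 1, 3, 2, 2]] _ _ 642548286358 2298291806580 _ (by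
  decide +kernel) nd795 ok364

theorem nd797 : Ok 4 Dn4 [[2, 1, 1, 1, 2, 2, 1], [1, 1, 0, 0, 0, 0, 0], [2, 1, 1, 0, 2, 1, 1],
  [2, 1, 1, 1, 1, 1, 1], [1, 0, 0, 0, 1, 0, 0], [2, 1, 1, 1, 2, 1, 0], [3, 2, 1, 1, 3, 2, 2]]
  281440616447997 [47, 119, 119, 119, 119, 203, 203] 973696990403 :=
  dec4 1 3 1 _ _ 281440616972285 _ [51, 123, 147, 147, 147, 207, 231] _ (by decide +kernel) nd796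

theorem nd798 : Ok 4 Dn4 [[2, 1, 1, 1, 2, 2, 1], [1, 1, 0, 0, 0, 0, 0], [2, 1, 1, 0, 2, 1, 1],
  [2, 1, 1, 1, 1, 1, 1], [1, 0, 0, 0, 1, 0, 0], [2, 1, 1, 1, 2, 1, 0], [2, 1, 1, 1, 3, 2, 2]]
  281440616447997 [47, 119, 119, 119, 119, 203, 203] 1151968896015 :=
  cut4 1 6 1 1 1 _ [[2, 1, 1, 1, 2, 2, 1], [3, 2, 1, 1, 3, 2, 2], [2, 1, 1, 0, 2, 1, 1], [2, 1,
  1, 1, 1, 1, 1], [1, 0, 0, 0, 1, 0, 0], [2, 1, 1, 1, 2, 1, 0], [2, 1, 1, 1, 3, 2, 2]] [[2, 1, 1,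
  1, 2, 2, 1], [1, 1, 0, 0, 0, 0, 0], [2, 1, 1, 0, 2, 1, 1], [2, 1, 1, 1, 1, 1, 1], [1, 0, 0, 0,
  1, 0, 0], [2, 1, 1, 1, 2, 1, 0], [3, 2, 1, 1, 3, 2, 2]] _ _ 2221600329686 973696990403 _ (by
  decide +kernel) ok361 nd797

theorem nd799 : Ok 4 Dn4 [[2, 1, 1, 1, 2, 2, 1], [1, 1, 0, 0, 0, 0, 0], [2, 1, 1, 0, 2, 1, 1],
  [2, 1, 1, 1, 1, 1, 1], [1, 0, 0, 0, 1, 0, 0], [2, 1, 1, 1, 2, 1, 0], [2, 1, 1, 1, 3, 2, 2]]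
  281439542706173 [47, 119, 119, 119, 119, 203, 203] 1151968896015 :=
  dec4 1 14 0 _ _ 281440616447997 _ [47, 119, 119, 119, 119, 203, 203] _ (by decide +kernel) nd798

theorem nd800 : Ok 4 Dn4 [[2, 1, 1, 1, 2, 2, 1], [1, 1, 0, 0, 0, 0, 0], [2, 1, 1, 0, 2, 1, 1],
  [2, 1, 1, 1, 1, 1, 1], [1, 0, 0, 0, 1, 0, 0], [1, 1, 1, 1, 1, 1, 0], [2, 1, 1, 1, 3, 2, 2]]
  281439542706173 [47, 119, 119, 119, 119, 203, 203] 1552067944726 :=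
  cut4 4 5 1 1 1 _ [[2, 1, 1, 1, 2, 2, 1], [1, 1, 0, 0, 0, 0, 0], [2, 1, 1, 0, 2, 1, 1], [2, 1,
  1, 1, 1, 1, 1], [2, 1, 1, 1, 2, 1, 0], [1, 1, 1, 1, 1, 1, 0], [2, 1, 1, 1, 3, 2, 2]] [[2, 1, 1,
  1, 2, 2, 1], [1, 1, 0, 0, 0, 0, 0], [2, 1, 1, 0, 2, 1, 1], [2, 1, 1, 1, 1, 1, 1], [1, 0, 0, 0,
  1, 0, 0], [2, 1, 1, 1, 2, 1, 0], [2, 1, 1, 1, 3, 2, 2]] _ _ 2752365090858 1151968896015 _ (by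
  decide +kernel) nd794 nd799

theorem nd801 : Ok 4 Dn4 [[2, 1, 1, 1, 2, 2, 1], [1, 1, 0, 0, 0, 0, 0], [2, 1, 1, 0, 2, 1, 1],
  [2, 1, 1, 1, 1, 1, 1], [1, 0, 0, 0, 1, 0, 0], [1, 1, 1, 1, 1, 1, 0], [2, 1, 1, 1, 3, 2, 2]]
  281439542705661 [43, 91, 91, 115, 115, 175, 175] 1552067944726 :=
  dec4 0 9 1 _ _ 281439542706173 _ [47, 119, 119, 119, 119, 203, 203] _ (by decide +kernel) nd800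

theorem nd802 : Ok 4 Dn4 [[2, 1, 1, 1, 2, 2, 1], [1, 1, 0, 0, 0, 0, 0], [1, 1, 1, 0, 1, 1, 1],
  [2, 1, 1, 1, 1, 1, 1], [1, 0, 0, 0, 1, 0, 0], [1, 1, 1, 1, 1, 1, 0], [2, 1, 1, 1, 3, 2, 2]]
  281439542705661 [43, 91, 91, 115, 115, 175, 175] 1972498149109 :=
  cut4 2 4 1 1 1 _ [[2, 1, 1, 1, 2, 2, 1], [1, 1, 0, 0, 0, 0, 0], [2, 1, 1, 0, 2, 1, 1], [2, 1,
  1, 1, 1, 1, 1], [1, 0, 0, 0, 1, 0, 0], [1, 1, 1, 1, 1, 1, 0], [2, 1, 1, 1, 3, 2, 2]] [[2, 1, 1,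
  1, 2, 2, 1], [1, 1, 0, 0, 0, 0, 0], [1, 1, 1, 0, 1, 1, 1], [2, 1, 1, 1, 1, 1, 1], [2, 1, 1, 0,
  2, 1, 1], [1, 1, 1, 1, 1, 1, 0], [2, 1, 1, 1, 3, 2, 2]] _ _ 1552067944726 3233788762258 _ (by
  decide +kernel) nd801 ok365

theorem nd803 : Ok 4 Dn4 [[2, 1, 1, 1, 2, 2, 1], [1, 1, 0, 0, 0, 0, 0], [1, 1, 1, 0, 1, 1, 1],
  [2, 1, 1, 1, 1, 1, 1], [1, 0, 0, 0, 1, 0, 0], [1, 1, 1, 1, 1, 1, 0], [2, 1, 1, 1, 3, 2, 2]]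
  281439542689277 [29, 89, 89, 113, 113, 161, 161] 1972498149109 :=
  dec4 0 14 1 _ _ 281439542705661 _ [43, 91, 91, 115, 115, 175, 175] _ (by decide +kernel) nd802

theorem nd804 : Ok 4 Dn4 [[1, 0, 0, 0, 1, 1, 1], [1, 1, 0, 0, 0, 0, 0], [1, 1, 1, 0, 1, 1, 1],
  [2, 1, 1, 1, 1, 1, 1], [1, 0, 0, 0, 1, 0, 0], [1, 1, 1, 1, 1, 1, 0], [2, 1, 1, 1, 3, 2, 2]]
  281439542689277 [29, 89, 89, 113, 113, 161, 161] 1313353689911 :=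
  cut4 0 5 1 1 1 _ [[2, 1, 1, 1, 2, 2, 1], [1, 1, 0, 0, 0, 0, 0], [1, 1, 1, 0, 1, 1, 1], [2, 1,
  1, 1, 1, 1, 1], [1, 0, 0, 0, 1, 0, 0], [1, 1, 1, 1, 1, 1, 0], [2, 1, 1, 1, 3, 2, 2]] [[1, 0, 0,
  0, 1, 1, 1], [1, 1, 0, 0, 0, 0, 0], [1, 1, 1, 0, 1, 1, 1], [2, 1, 1, 1, 1, 1, 1], [1, 0, 0, 0,
  1, 0, 0], [2, 1, 1, 1, 2, 2, 1], [2, 1, 1, 1, 3, 2, 2]] _ _ 1972498149109 873924050445 _ (by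
  decide +kernel) nd803 ok366

theorem nd805 : Ok 4 Dn4 [[1, 0, 0, 0, 1, 1, 1], [1, 1, 0, 0, 0, 0, 0], [1, 1, 1, 0, 1, 1, 1],
  [2, 1, 1, 1, 1, 1, 1], [1, 0, 0, 0, 1, 0, 0], [1, 1, 1, 1, 1, 1, 0], [2, 1, 1, 1, 3, 2, 2]]
  281439542689245 [25, 61, 85, 85, 109, 133, 133] 1313353689911 :=
  dec4 0 5 1 _ _ 281439542689277 _ [29, 89, 89, 113, 113, 161, 161] _ (by decide +kernel) nd804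

theorem nd806 : Ok 4 Dn4 [[1, 0, 0, 0, 1, 1, 1], [1, 1, 0, 0, 0, 0, 0], [1, 1, 1, 0, 1, 1, 1],
  [2, 1, 1, 1, 1, 1, 1], [1, 0, 0, 0, 1, 0, 0], [1, 1, 1, 1, 1, 1, 0], [2, 1, 1, 1, 3, 2, 2]]
  281439542689237 [21, 57, 57, 57, 105, 105, 105] 1313353689911 :=
  dec4 0 3 1 _ _ 281439542689245 _ [25, 61, 85, 85, 109, 133, 133] _ (by decide +kernel) nd805

theorem nd807 : Ok 4 Dn4 [[1, 0, 0, 0, 1, 1, 1], [1, 1, 0, 0, 0, 0, 0], [1, 1, 1, 0, 1, 1, 1],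
  [2, 1, 1, 1, 1, 1, 1], [1, 0, 0, 0, 1, 0, 0], [1, 1, 1, 1, 1, 1, 0], [1, 1, 1, 1, 2, 2, 2]]
  281439542689237 [21, 57, 57, 57, 105, 105, 105] 2241013355493 :=
  cut4 4 6 1 1 1 _ [[1, 0, 0, 0, 1, 1, 1], [1, 1, 0, 0, 0, 0, 0], [1, 1, 1, 0, 1, 1, 1], [2, 1,
  1, 1, 1, 1, 1], [2, 1, 1, 1, 3, 2, 2], [1, 1, 1, 1, 1, 1, 0], [1, 1, 1, 1, 2, 2, 2]] [[1, 0, 0,
  0, 1, 1, 1], [1, 1, 0, 0, 0, 0, 0], [1, 1, 1, 0, 1, 1, 1], [2, 1, 1, 1, 1, 1, 1], [1, 0, 0, 0,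
  1, 0, 0], [1, 1, 1, 1, 1, 1, 0], [2, 1, 1, 1, 3, 2, 2]] _ _ 6879311683400 1313353689911 _ (by
  decide +kernel) ok358 nd806

theorem nd808 : Ok 4 Dn4 [[1, 0, 0, 0, 1, 1, 1], [1, 1, 0, 0, 0, 0, 0], [1, 1, 1, 0, 1, 1, 1],
  [2, 1, 1, 1, 1, 1, 1], [1, 0, 0, 0, 1, 0, 0], [1, 1, 1, 1, 1, 1, 0], [1, 1, 1, 1, 2, 2, 2]]
  211070798511573 [21, 57, 57, 57, 105, 105, 105] 2241013355493 :=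
  dec4 2 14 0 _ _ 281439542689237 _ [21, 57, 57, 57, 105, 105, 105] _ (by decide +kernel) nd807

theorem nd809 : Ok 4 Dn4 [[1, 0, 0, 0, 1, 1, 1], [1, 1, 0, 0, 0, 0, 0], [1, 1, 1, 0, 1, 1, 1],
  [1, 1, 1, 1, 0, 0, 0], [1, 0, 0, 0, 1, 0, 0], [1, 1, 1, 1, 1, 1, 0], [1, 1, 1, 1, 2, 2, 2]]
  211070798511573 [21, 57, 57, 57, 105, 105, 105] 3588664050961 :=
  cut4 0 3 1 1 1 _ [[2, 1, 1, 1, 1, 1, 1], [1, 1, 0, 0, 0, 0, 0], [1, 1, 1, 0, 1, 1, 1], [1, 1,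
  1, 1, 0, 0, 0], [1, 0, 0, 0, 1, 0, 0], [1, 1, 1, 1, 1, 1, 0], [1, 1, 1, 1, 2, 2, 2]] [[1, 0, 0,
  0, 1, 1, 1], [1, 1, 0, 0, 0, 0, 0], [1, 1, 1, 0, 1, 1, 1], [2, 1, 1, 1, 1, 1, 1], [1, 0, 0, 0,
  1, 0, 0], [1, 1, 1, 1, 1, 1, 0], [1, 1, 1, 1, 2, 2, 2]] _ _ 4936314746428 2241013355493 _ (by
  decide +kernel) nd792 nd808

theorem nd810 : Ok 4 Dn4 [[1, 0, 0, 0, 1, 1, 1], [1, 1, 0, 0, 0, 0, 0], [1, 1, 1, 0, 1, 1, 1],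
  [1, 1, 1, 1, 0, 0, 0], [1, 0, 0, 0, 1, 0, 0], [1, 1, 1, 1, 1, 1, 0], [1, 1, 1, 1, 2, 2, 2]]
  70333310156245 [20, 56, 56, 56, 98, 98, 104] 3588664050961 :=
  dec4 2 15 1 _ _ 211070798511573 _ [21, 57, 57, 57, 105, 105, 105] _ (by decide +kernel) nd809

theorem nd811 : Ok 4 Dn4 [[1, 0, 0, 0, 1, 1, 1], [1, 1, 0, 0, 0, 0, 0], [1, 1, 1, 0, 1, 1, 1],
  [1, 1, 1, 1, 0, 0, 0], [1, 0, 0, 0, 1, 0, 0], [1, 1, 1, 1, 1, 1, 0], [1, 1, 1, 1, 2, 2, 2]]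
  35148938067413 [18, 42, 54, 54, 84, 84, 102] 3588664050961 :=
  dec4 2 13 1 _ _ 70333310156245 _ [20, 56, 56, 56, 98, 98, 104] _ (by decide +kernel) nd810

theorem nd812 : Ok 4 Dn4 [[1, 0, 0, 0, 1, 1, 1], [1, 1, 0, 0, 0, 0, 0], [1, 1, 1, 0, 1, 1, 1],
  [1, 1, 1, 1, 0, 0, 0], [1, 0, 0, 0, 1, 0, 0], [1, 1, 1, 1, 1, 1, 0], [1, 1, 1, 1, 2, 2, 2]]
  26352845045205 [16, 40, 40, 52, 70, 70, 100] 3588664050961 :=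
  dec4 2 11 1 _ _ 35148938067413 _ [18, 42, 54, 54, 84, 84, 102] _ (by decide +kernel) nd811

theorem nd813 : Ok 4 Dn4 [[1, 0, 0, 0, 1, 1, 1], [1, 1, 0, 0, 0, 0, 0], [1, 1, 1, 0, 1, 1, 1],
  [1, 1, 1, 1, 0, 0, 0], [1, 0, 0, 0, 1, 0, 0], [1, 1, 1, 1, 1, 1, 0], [1, 1, 1, 1, 2, 2, 2]]
  25803089231317 [14, 38, 38, 38, 56, 56, 98] 3588664050961 :=
  dec4 2 7 1 _ _ 26352845045205 _ [16, 40, 40, 52, 70, 70, 100] _ (by decide +kernel) nd812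

theorem nd814 : Ok 4 Dn4 [[1, 0, 0, 0, 1, 1, 1], [1, 1, 0, 0, 0, 0, 0], [1, 1, 1, 0, 1, 1, 1],
  [1, 1, 1, 1, 0, 0, 0], [1, 0, 0, 0, 1, 0, 0], [0, 0, 0, 0, 1, 1, 0], [1, 1, 1, 1, 2, 2, 2]]
  25803089231317 [14, 38, 38, 38, 56, 56, 98] 1992197857116 :=
  cut4 3 5 1 1 1 _ [[1, 0, 0, 0, 1, 1, 1], [1, 1, 0, 0, 0, 0, 0], [1, 1, 1, 0, 1, 1, 1], [1, 1,
  1, 1, 1, 1, 0], [1, 0, 0, 0, 1, 0, 0], [0, 0, 0, 0, 1, 1, 0], [1, 1, 1, 1, 2, 2, 2]] [[1, 0, 0,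
  0, 1, 1, 1], [1, 1, 0, 0, 0, 0, 0], [1, 1, 1, 0, 1, 1, 1], [1, 1, 1, 1, 0, 0, 0], [1, 0, 0, 0,
  1, 0, 0], [1, 1, 1, 1, 1, 1, 0], [1, 1, 1, 1, 2, 2, 2]] _ _ 1193964760193 3588664050961 _ (by
  decide +kernel) nd764 nd813

theorem nd815 : Ok 4 Dn4 [[1, 0, 0, 0, 1, 1, 1], [1, 1, 0, 0, 0, 0, 0], [1, 1, 1, 0, 1, 1, 1],
  [1, 1, 1, 1, 0, 0, 0], [1, 0, 0, 0, 1, 0, 0], [0, 0, 0, 0, 1, 1, 0], [1, 1, 1, 1, 2, 2, 2]]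
  25800941747669 [13, 37, 37, 37, 49, 55, 91] 1992197857116 :=
  dec4 1 15 1 _ _ 25803089231317 _ [14, 38, 38, 38, 56, 56, 98] _ (by decide +kernel) nd814

theorem nd816 : Ok 4 Dn4 [[1, 0, 0, 0, 1, 1, 1], [1, 1, 0, 0, 0, 0, 0], [1, 1, 1, 0, 1, 1, 1],
  [1, 1, 1, 1, 0, 0, 0], [1, 0, 0, 0, 1, 0, 0], [0, 0, 0, 0, 1, 1, 0], [1, 1, 1, 1, 2, 2, 2]]
  25800404876757 [11, 23, 35, 35, 35, 53, 77] 1992197857116 :=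
  dec4 1 13 1 _ _ 25800941747669 _ [13, 37, 37, 37, 49, 55, 91] _ (by decide +kernel) nd815

theorem nd817 : Ok 4 Dn4 [[1, 0, 0, 0, 1, 1, 1], [1, 1, 0, 0, 0, 0, 0], [1, 1, 1, 0, 1, 1, 1],
  [1, 1, 1, 1, 0, 0, 0], [1, 0, 0, 0, 1, 0, 0], [0, 0, 0, 0, 1, 1, 0], [1, 1, 1, 1, 2, 2, 2]]
  25800270659029 [9, 21, 21, 33, 21, 51, 63] 1992197857116 :=
  dec4 1 11 1 _ _ 25800404876757 _ [11, 23, 35, 35, 35, 53, 77] _ (by decide +kernel) nd816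

theorem nd818 : Ok 4 Dn4 [[1, 0, 0, 0, 1, 1, 1], [1, 1, 0, 0, 0, 0, 0], [1, 1, 1, 0, 1, 1, 1],
  [1, 1, 1, 1, 0, 0, 0], [1, 0, 0, 0, 1, 0, 0], [0, 0, 0, 0, 1, 1, 0], [1, 1, 1, 1, 2, 2, 2]]
  25800262270421 [7, 19, 19, 19, 7, 49, 49] 1992197857116 :=
  dec4 1 7 1 _ _ 25800270659029 _ [9, 21, 21, 33, 21, 51, 63] _ (by decide +kernel) nd817

theorem nd819 : Ok 4 Dn4 [[1, 0, 0, 0, 1, 1, 1], [1, 1, 0, 0, 0, 0, 0], [1, 1, 1, 0, 1, 1, 1],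
  [1, 1, 1, 1, 0, 0, 0], [1, 0, 0, 0, 1, 0, 0], [0, 0, 0, 0, 1, 1, 0], [1, 1, 1, 1, 2, 2, 2]]
  25800262237653 [6, 18, 18, 18, 6, 42, 42] 1992197857116 :=
  dec4 0 15 1 _ _ 25800262270421 _ [7, 19, 19, 19, 7, 49, 49] _ (by decide +kernel) nd818

theorem nd820 : Ok 4 Dn4 [[1, 0, 0, 0, 1, 1, 1], [1, 1, 0, 0, 0, 0, 0], [1, 1, 1, 0, 1, 1, 1],
  [1, 1, 1, 1, 0, 0, 0], [1, 0, 0, 0, 1, 0, 0], [0, 0, 0, 0, 1, 1, 0], [1, 1, 1, 1, 2, 2, 2]]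
  25800262229461 [4, 4, 16, 16, 4, 28, 28] 1992197857116 :=
  dec4 0 13 1 _ _ 25800262237653 _ [6, 18, 18, 18, 6, 42, 42] _ (by decide +kernel) nd819

theorem nd821 : Ok 4 Dn4 [[1, 0, 0, 0, 1, 1, 1], [1, 1, 0, 0, 0, 0, 0], [1, 1, 1, 0, 1, 1, 1],
  [1, 1, 1, 1, 0, 0, 0], [1, 0, 0, 0, 1, 0, 0], [0, 0, 0, 0, 1, 1, 0], [1, 1, 1, 1, 2, 2, 2]]
  25800262227413 [2, 2, 2, 14, 2, 14, 14] 1992197857116 :=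
  dec4 0 11 1 _ _ 25800262229461 _ [4, 4, 16, 16, 4, 28, 28] _ (by decide +kernel) nd820

theorem nd822 : Ok 4 Dn4 [[1, 0, 0, 0, 1, 1, 1], [1, 1, 0, 0, 0, 0, 0], [1, 1, 1, 0, 1, 1, 1],
  [1, 1, 1, 1, 0, 0, 0], [1, 0, 0, 0, 1, 0, 0], [0, 0, 0, 0, 1, 1, 0], [1, 1, 1, 1, 2, 2, 2]]
  25800262227285 [0, 0, 0, 0, 0, 0, 0] 1992197857116 :=
  dec4 0 7 1 _ _ 25800262227413 _ [2, 2, 2, 14, 2, 14, 14] _ (by decide +kernel) nd821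

end Pool.Agent.Work.MP_122e00_nt.Sharp.Cx

end
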