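import Pool.Agent.Work.MP_122e00_nt.Bdx.B09
import Pool.Agent.Work.MP_122e00_nt.Bd.B27
import Pool.Agent.Work.MP_122e00_nt.Bd.B28
import Pool.Agent.Work.MP_122e00_nt.Bd.B29
import Pool.Agent.Work.MP_122e00_nt.Bd.B30
import Pool.Agent.Work.MP_122e00_nt.Bd.B31
import Pool.Agent.Work.MP_122e00_nt.Bd.B32
import Pool.Agent.Work.MP_122e00_nt.Bd.B33
import Pool.Agent.Work.MP_122e00_nt.Bd.B34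
import Pool.Agent.Work.MP_122e00_nt.Bd.B35
import Pool.Agent.Work.MP_122e00_nt.Bd.B36
import Pool.Agent.Work.MP_122e00_nt.Bd.B59
import Pool.Agent.Work.MP_122e00_nt.Bd.B60

/-! Bundle of small proof modules (one section per former module). -/

section

set_option autoImplicit false

set_option maxRecDepth 100000

/-!
# The certificate: data
-/

namespace Pool.Agent.Work.MP_122e00_nt.Sharp.Cx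

theorem ok367 : Ok 4 Dn4 [[2, 1, 1, 1, 2, 2, 1], [1, 1, 0, 0, 1, 1, 0], [3, 2, 2, 0, 4, 3, 0],
  [3, 2, 2, 1, 3, 2, 1], [1, 0, 0, 0, 1, 0, 0], [0, 0, 0, 0, 1, 1, 0], [1, 1, 1, 0, 1, 1, 1]]
  140187732540861 [44, 104, 104, 152, 122, 134, 224] 106553417706 :=
  run4 tr367 _ _ _ _ dt367

theorem ok368 : Ok 4 Dn4 [[2, 1, 1, 1, 2, 2, 1], [1, 1, 0, 0, 1, 1, 0], [3, 2, 2, 0, 4, 3, 0],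
  [2, 1, 1, 1, 2, 1, 0], [1, 0, 0, 0, 1, 0, 0], [3, 2, 2, 1, 4, 3, 1], [3, 2, 2, 1, 3, 2, 1]]
  140187732541373 [48, 132, 132, 156, 126, 162, 252] 279769272058 :=
  run4 tr368 _ _ _ _ dt368

theorem ok369 : Ok 4 Dn4 [[2, 1, 1, 1, 2, 2, 1], [1, 1, 0, 0, 1, 1, 0], [3, 2, 2, 0, 4, 3, 0],
  [2, 1, 1, 1, 3, 2, 0], [4, 2, 2, 1, 5, 3, 1], [0, 0, 0, 0, 1, 1, 0], [3, 2, 2, 1, 4, 3, 1]]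
  140737488355261 [48, 132, 132, 156, 126, 162, 252] 257131958698 :=
  run4 tr369 _ _ _ _ dt369

theorem ok370 : Ok 4 Dn4 [[2, 1, 1, 1, 2, 2, 1], [1, 1, 0, 0, 1, 1, 0], [3, 2, 2, 0, 4, 3, 0],
  [2, 1, 1, 1, 3, 2, 0], [1, 0, 0, 0, 1, 0, 0], [0, 0, 0, 0, 1, 1, 0], [4, 2, 2, 1, 5, 3, 1]]
  140737488355261 [48, 132, 132, 156, 126, 162, 252] 97620415622 :=
  run4 tr370 _ _ _ _ dt370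

theorem ok371 : Ok 4 Dn4 [[2, 1, 1, 1, 2, 2, 1], [1, 1, 0, 0, 1, 1, 0], [3, 2, 2, 0, 4, 3, 0],
  [2, 1, 1, 1, 2, 1, 0], [1, 0, 0, 0, 1, 0, 0], [2, 1, 1, 1, 3, 2, 0], [3, 2, 2, 1, 4, 3, 1]]
  140737488355261 [48, 132, 132, 156, 126, 162, 252] 358153907406 :=
  run4 tr371 _ _ _ _ dt371

theorem ok372 : Ok 4 Dn4 [[2, 1, 1, 1, 2, 2, 1], [1, 1, 0, 0, 1, 1, 0], [3, 2, 2, 0, 4, 3, 0],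
  [1, 1, 1, 1, 1, 1, 0], [3, 2, 2, 1, 3, 2, 1], [0, 0, 0, 0, 1, 1, 0], [1, 1, 1, 0, 1, 1, 1]]
  140187732540863 [58, 106, 106, 154, 136, 136, 238] 548425851088 :=
  run4 tr372 _ _ _ _ dt372

theorem ok373 : Ok 4 Dn4 [[2, 1, 1, 1, 2, 2, 1], [1, 1, 0, 0, 1, 1, 0], [3, 2, 2, 0, 4, 3, 0],
  [1, 1, 1, 1, 1, 1, 0], [2, 1, 1, 1, 2, 1, 0], [0, 0, 0, 0, 1, 1, 0], [3, 2, 2, 1, 3, 2, 1]]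
  140187732540863 [58, 106, 106, 154, 136, 136, 238] 503188949645 :=
  run4 tr373 _ _ _ _ dt373

theorem ok374 : Ok 4 Dn4 [[2, 1, 1, 1, 2, 2, 1], [1, 1, 0, 0, 1, 1, 0], [3, 2, 2, 0, 2, 1, 0],
  [1, 1, 1, 1, 1, 1, 0], [1, 0, 0, 0, 1, 0, 0], [3, 2, 2, 0, 4, 3, 0], [1, 1, 1, 0, 1, 1, 1]]
  140186658799037 [44, 104, 104, 152, 122, 134, 224] 286873764227 :=
  run4 tr374 _ _ _ _ dt374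

theorem ok375 : Ok 4 Dn4 [[1, 0, 0, 0, 1, 1, 1], [1, 1, 0, 0, 1, 1, 0], [3, 2, 2, 0, 2, 1, 0],
  [2, 1, 1, 1, 2, 2, 1], [1, 0, 0, 0, 1, 0, 0], [0, 0, 0, 0, 1, 1, 0], [1, 1, 1, 0, 1, 1, 1]]
  140186658782653 [30, 102, 102, 150, 120, 120, 210] 66439550966 :=
  run4 tr375 _ _ _ _ dt375

theorem ok376 : Ok 4 Dn4 [[3, 2, 2, 0, 2, 2, 1], [1, 1, 0, 0, 1, 1, 0], [2, 2, 2, 0, 1, 1, 0],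
  [1, 1, 1, 1, 1, 1, 0], [3, 2, 2, 0, 2, 1, 0], [0, 0, 0, 0, 1, 1, 0], [1, 1, 1, 0, 1, 1, 1]]
  140186654588863 [30, 102, 102, 150, 120, 120, 210] 85180769214 :=
  run4 tr376 _ _ _ _ dt376

theorem ok377 : Ok 4 Dn4 [[2, 1, 1, 1, 2, 2, 1], [1, 1, 0, 0, 1, 1, 0], [3, 2, 2, 0, 4, 4, 1],
  [1, 1, 1, 1, 1, 1, 0], [3, 2, 2, 0, 4, 3, 0], [0, 0, 0, 0, 1, 1, 0], [1, 1, 1, 0, 1, 1, 1]]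
  140187732541375 [58, 106, 106, 154, 136, 136, 238] 363492334633 :=
  run4 tr377 _ _ _ _ dt377

theorem ok378 : Ok 4 Dn4 [[2, 1, 1, 1, 2, 2, 1], [1, 1, 0, 0, 1, 1, 0], [3, 2, 2, 0, 4, 4, 1],
  [1, 1, 1, 1, 1, 1, 0], [3, 2, 2, 0, 2, 1, 0], [3, 2, 2, 0, 4, 3, 0], [1, 1, 1, 0, 1, 1, 1]]
  140187732541375 [58, 106, 106, 154, 136, 136, 238] 457693635000 :=
  run4 tr378 _ _ _ _ dt378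

theorem ok379 : Ok 4 Dn4 [[2, 1, 1, 1, 2, 2, 1], [1, 1, 0, 0, 1, 1, 0], [3, 2, 2, 0, 2, 2, 1],
  [1, 1, 1, 1, 1, 1, 0], [3, 2, 2, 0, 2, 1, 0], [3, 2, 2, 0, 4, 4, 1], [1, 1, 1, 0, 1, 1, 1]]
  140187732541375 [58, 106, 106, 154, 136, 136, 238] 589194089668 :=
  run4 tr379 _ _ _ _ dt379

theorem ok380 : Ok 4 Dn4 [[1, 0, 0, 0, 1, 1, 1], [1, 1, 0, 0, 1, 1, 0], [3, 2, 2, 0, 2, 2, 1],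
  [2, 1, 1, 1, 2, 2, 1], [3, 2, 2, 0, 2, 1, 0], [0, 0, 0, 0, 1, 1, 0], [1, 1, 1, 0, 1, 1, 1]]
  140186658783167 [30, 102, 102, 150, 120, 120, 210] 148715270429 :=
  run4 tr380 _ _ _ _ dt380

theorem ok381 : Ok 4 Dn4 [[2, 1, 1, 1, 2, 2, 1], [1, 1, 0, 0, 0, 0, 0], [3, 2, 2, 0, 2, 1, 0],
  [1, 1, 1, 1, 1, 1, 0], [2, 1, 1, 0, 2, 1, 1], [1, 1, 0, 0, 1, 1, 0], [1, 1, 1, 0, 1, 1, 1]]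
  281439543229885 [49, 109, 121, 169, 157, 169, 229] 710451818078 :=
  run4 tr381 _ _ _ _ dt381

theorem ok382 : Ok 4 Dn4 [[2, 1, 1, 1, 2, 2, 1], [3, 2, 1, 1, 2, 1, 0], [3, 2, 2, 0, 2, 1, 0],
  [2, 1, 1, 1, 2, 1, 0], [1, 0, 0, 0, 1, 0, 0], [1, 1, 0, 0, 1, 1, 0], [2, 1, 1, 0, 2, 1, 1]]
  281440616972221 [53, 137, 149, 173, 161, 197, 257] 162348861717 :=
  run4 tr382 _ _ _ _ dt382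

theorem ok383 : Ok 4 Dn4 [[2, 1, 1, 1, 2, 2, 1], [1, 1, 0, 0, 0, 0, 0], [3, 2, 2, 0, 2, 1, 0],
  [3, 2, 1, 1, 2, 1, 0], [1, 0, 0, 0, 1, 0, 0], [1, 1, 0, 0, 1, 1, 0], [2, 1, 1, 0, 2, 1, 1]]
  281440616972221 [53, 137, 149, 173, 161, 197, 257] 123836395952 :=
  run4 tr383 _ _ _ _ dt383

theorem ok384 : Ok 4 Dn4 [[2, 1, 1, 1, 2, 2, 1], [1, 1, 0, 0, 0, 0, 0], [3, 2, 2, 0, 2, 1, 0],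
  [1, 1, 1, 1, 1, 1, 0], [2, 1, 1, 1, 2, 1, 0], [1, 1, 0, 0, 1, 1, 0], [2, 1, 1, 0, 2, 1, 1]]
  281439543230397 [53, 137, 149, 173, 161, 197, 257] 533980917726 :=
  run4 tr384 _ _ _ _ dt384

theorem ok385 : Ok 4 Dn4 [[1, 0, 0, 0, 1, 1, 1], [1, 1, 0, 0, 0, 0, 0], [3, 2, 2, 0, 2, 1, 0],
  [2, 1, 1, 1, 2, 2, 1], [1, 0, 0, 0, 1, 0, 0], [1, 1, 0, 0, 1, 1, 0], [1, 1, 1, 0, 1, 1, 1]]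
  281439543213501 [35, 107, 119, 167, 155, 155, 215] 149388518506 :=
  run4 tr385 _ _ _ _ dt385

theorem ok386 : Ok 4 Dn4 [[1, 0, 0, 0, 1, 1, 1], [1, 1, 0, 0, 0, 0, 0], [2, 2, 2, 0, 1, 1, 0],
  [1, 1, 1, 1, 1, 1, 0], [3, 2, 2, 0, 2, 1, 0], [1, 1, 0, 0, 1, 1, 0], [1, 1, 1, 0, 1, 1, 1]]
  281439539019197 [35, 107, 119, 167, 155, 155, 215] 381432250401 :=
  run4 tr386 _ _ _ _ dt386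

theorem ok387 : Ok 4 Dn4 [[2, 1, 1, 1, 1, 1, 1], [1, 1, 0, 0, 0, 0, 0], [3, 2, 2, 0, 2, 1, 0],
  [3, 2, 2, 1, 2, 1, 1], [2, 1, 1, 0, 2, 1, 1], [1, 1, 1, 1, 1, 1, 0], [1, 1, 1, 0, 1, 1, 1]]
  281439543229885 [51, 123, 123, 171, 171, 183, 231] 995295769476 :=
  run4 tr387 _ _ _ _ dt387

theorem ok388 : Ok 4 Dn4 [[2, 1, 1, 1, 1, 1, 1], [1, 1, 0, 0, 0, 0, 0], [3, 2, 2, 0, 2, 1, 0],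
  [3, 2, 2, 1, 2, 1, 1], [2, 1, 1, 1, 2, 1, 0], [1, 1, 1, 1, 1, 1, 0], [2, 1, 1, 0, 2, 1, 1]]
  281439543230397 [55, 151, 151, 175, 175, 211, 259] 618128230339 :=
  run4 tr388 _ _ _ _ dt388

theorem ok389 : Ok 4 Dn4 [[2, 1, 1, 1, 1, 1, 1], [1, 1, 0, 0, 0, 0, 0], [3, 2, 2, 0, 2, 1, 0],
  [4, 2, 2, 1, 3, 1, 1], [1, 0, 0, 0, 1, 0, 0], [2, 1, 1, 1, 2, 1, 0], [2, 1, 1, 0, 2, 1, 1]]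
  281440616972221 [55, 151, 151, 175, 175, 211, 259] 198054775379 :=
  run4 tr389 _ _ _ _ dt389

theorem ok390 : Ok 4 Dn4 [[2, 1, 1, 1, 1, 1, 1], [1, 1, 0, 0, 0, 0, 0], [3, 2, 2, 0, 2, 1, 0],
  [3, 2, 2, 1, 2, 1, 1], [4, 2, 2, 1, 3, 1, 1], [2, 1, 1, 1, 2, 1, 0], [2, 1, 1, 0, 2, 1, 1]]
  281440616972221 [55, 151, 151, 175, 175, 211, 259] 650709728903 :=
  run4 tr390 _ _ _ _ dt390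

theorem ok391 : Ok 4 Dn4 [[2, 1, 1, 1, 1, 1, 1], [1, 1, 0, 0, 0, 0, 0], [3, 2, 2, 0, 2, 1, 0],
  [2, 1, 1, 1, 1, 0, 0], [2, 1, 1, 1, 2, 1, 0], [1, 1, 1, 1, 1, 1, 0], [3, 2, 2, 1, 2, 1, 1]]
  281439543230397 [55, 151, 151, 175, 175, 211, 259] 912677778949 :=
  run4 tr391 _ _ _ _ dt391

theorem ok392 : Ok 4 Dn4 [[2, 1, 1, 1, 1, 1, 1], [1, 1, 0, 0, 0, 0, 0], [3, 2, 2, 0, 2, 1, 0],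
  [2, 1, 1, 1, 1, 0, 0], [4, 2, 2, 1, 3, 1, 1], [2, 1, 1, 1, 2, 1, 0], [3, 2, 2, 1, 2, 1, 1]]
  281440616972221 [55, 151, 151, 175, 175, 211, 259] 1199867355277 :=
  run4 tr392 _ _ _ _ dt392

theorem ok393 : Ok 4 Dn4 [[2, 1, 1, 1, 1, 1, 1], [3, 2, 1, 1, 2, 1, 0], [3, 2, 2, 0, 2, 1, 0],
  [2, 1, 1, 1, 1, 0, 0], [1, 0, 0, 0, 1, 0, 0], [2, 1, 1, 1, 2, 1, 0], [4, 2, 2, 1, 3, 1, 1]]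
  281440616972221 [55, 151, 151, 175, 175, 211, 259] 554969217363 :=
  run4 tr393 _ _ _ _ dt393

theorem ok394 : Ok 4 Dn4 [[2, 1, 1, 1, 1, 1, 1], [1, 1, 0, 0, 0, 0, 0], [3, 2, 2, 0, 2, 1, 0],
  [2, 1, 1, 1, 1, 0, 0], [1, 0, 0, 0, 1, 0, 0], [3, 2, 1, 1, 2, 1, 0], [4, 2, 2, 1, 3, 1, 1]]
  281440616972221 [55, 151, 151, 175, 175, 211, 259] 312049658378 :=
  run4 tr394 _ _ _ _ dt394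

theorem ok395 : Ok 4 Dn4 [[2, 1, 1, 1, 1, 1, 1], [1, 1, 0, 0, 0, 0, 0], [3, 2, 2, 0, 2, 1, 0],
  [2, 2, 2, 1, 1, 1, 1], [3, 2, 2, 1, 2, 1, 1], [1, 1, 1, 1, 1, 1, 0], [1, 1, 1, 0, 1, 1, 1]]
  211071872794559 [65, 125, 125, 173, 185, 185, 245] 1025362368958 :=
  run4 tr395 _ _ _ _ dt395

theorem ok396 : Ok 4 Dn4 [[2, 1, 1, 1, 1, 1, 1], [1, 1, 0, 0, 0, 0, 0], [4, 3, 3, 1, 2, 1, 0],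
  [1, 1, 1, 1, 0, 0, 0], [3, 2, 2, 1, 2, 1, 1], [1, 1, 1, 1, 1, 1, 0], [2, 2, 2, 1, 1, 1, 1]]
  211071872794559 [65, 125, 125, 173, 185, 185, 245] 1590476063846 :=
  run4 tr396 _ _ _ _ dt396

theorem ok397 : Ok 4 Dn4 [[2, 1, 1, 1, 1, 1, 1], [1, 1, 0, 0, 0, 0, 0], [3, 2, 2, 0, 2, 1, 0],
  [4, 3, 3, 1, 2, 1, 0], [3, 2, 2, 1, 2, 1, 1], [1, 1, 1, 1, 1, 1, 0], [2, 2, 2, 1, 1, 1, 1]]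
  211071872794559 [65, 125, 125, 173, 185, 185, 245] 1324838763387 :=
  run4 tr397 _ _ _ _ dt397

theorem ok398 : Ok 4 Dn4 [[2, 1, 1, 1, 1, 1, 1], [1, 1, 0, 0, 0, 0, 0], [4, 3, 3, 1, 2, 1, 0],
  [1, 1, 1, 1, 0, 0, 0], [2, 1, 1, 1, 1, 0, 0], [1, 1, 1, 1, 1, 1, 0], [3, 2, 2, 1, 2, 1, 1]]
  211071872794559 [69, 153, 153, 177, 189, 213, 273] 509610030546 :=
  run4 tr398 _ _ _ _ dt398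

theorem ok399 : Ok 4 Dn4 [[2, 1, 1, 1, 1, 1, 1], [1, 1, 0, 0, 0, 0, 0], [3, 2, 2, 0, 2, 1, 0],
  [4, 3, 3, 1, 2, 1, 0], [2, 1, 1, 1, 1, 0, 0], [1, 1, 1, 1, 1, 1, 0], [3, 2, 2, 1, 2, 1, 1]]
  211071872794559 [69, 153, 153, 177, 189, 213, 273] 638954420840 :=
  run4 tr399 _ _ _ _ dt399

theorem ok400 : Ok 4 Dn4 [[2, 1, 1, 1, 1, 1, 1], [1, 1, 0, 0, 0, 0, 0], [2, 2, 2, 0, 1, 1, 0],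
  [2, 2, 2, 1, 1, 1, 1], [3, 2, 2, 0, 2, 1, 0], [1, 1, 1, 1, 1, 1, 0], [1, 1, 1, 0, 1, 1, 1]]
  211071868600255 [65, 125, 125, 173, 185, 185, 245] 526085710792 :=
  run4 tr400 _ _ _ _ dt400

theorem ok401 : Ok 4 Dn4 [[2, 1, 1, 1, 1, 1, 1], [1, 1, 0, 0, 0, 0, 0], [2, 2, 2, 0, 1, 1, 0],
  [4, 3, 3, 1, 2, 1, 0], [3, 2, 2, 0, 2, 1, 0], [1, 1, 1, 1, 1, 1, 0], [2, 2, 2, 1, 1, 1, 1]]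
  211071868600255 [65, 125, 125, 173, 185, 185, 245] 703676946197 :=
  run4 tr401 _ _ _ _ dt401

theorem ok402 : Ok 4 Dn4 [[2, 1, 1, 1, 1, 1, 1], [1, 1, 0, 0, 0, 0, 0], [2, 2, 2, 0, 1, 1, 0],
  [1, 1, 1, 1, 0, 0, 0], [4, 3, 3, 1, 2, 1, 0], [1, 1, 1, 1, 1, 1, 0], [2, 2, 2, 1, 1, 1, 1]]
  211071868600255 [65, 125, 125, 173, 185, 185, 245] 883176528586 :=
  run4 tr402 _ _ _ _ dt402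

theorem ok403 : Ok 4 Dn4 [[2, 1, 1, 1, 2, 2, 1], [1, 1, 0, 0, 0, 0, 0], [3, 2, 2, 0, 2, 1, 0],
  [2, 1, 1, 1, 1, 1, 1], [2, 1, 1, 0, 2, 1, 1], [1, 1, 1, 1, 1, 1, 0], [1, 1, 1, 0, 1, 1, 1]]
  281439543229885 [51, 123, 123, 171, 171, 183, 231] 1052755001086 :=
  run4 tr403 _ _ _ _ dt403

theorem ok404 : Ok 4 Dn4 [[2, 1, 1, 1, 2, 2, 1], [1, 1, 0, 0, 0, 0, 0], [3, 2, 2, 0, 2, 1, 0],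
  [2, 1, 1, 1, 1, 1, 1], [2, 1, 1, 1, 2, 1, 0], [3, 2, 2, 1, 3, 2, 1], [2, 1, 1, 0, 2, 1, 1]]
  281439543230399 [55, 151, 151, 175, 175, 211, 259] 649422985118 :=
  run4 tr404 _ _ _ _ dt404

theorem ok405 : Ok 4 Dn4 [[2, 1, 1, 1, 2, 2, 1], [1, 1, 0, 0, 0, 0, 0], [3, 2, 2, 0, 2, 1, 0],
  [2, 1, 1, 1, 1, 1, 1], [2, 1, 1, 1, 2, 1, 0], [1, 1, 1, 1, 1, 1, 0], [3, 2, 2, 1, 3, 2, 1]]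
  281439543230399 [55, 151, 151, 175, 175, 211, 259] 684887165122 :=
  run4 tr405 _ _ _ _ dt405

theorem ok406 : Ok 4 Dn4 [[2, 1, 1, 1, 2, 2, 1], [1, 1, 0, 0, 0, 0, 0], [6, 3, 3, 1, 4, 2, 1],
  [3, 1, 1, 1, 2, 1, 1], [1, 0, 0, 0, 1, 0, 0], [2, 1, 1, 1, 2, 1, 0], [2, 1, 1, 0, 2, 1, 1]]
  281440616972221 [55, 151, 151, 175, 175, 211, 259] 176328986348 :=
  run4 tr406 _ _ _ _ dt406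

theorem ok407 : Ok 4 Dn4 [[2, 1, 1, 1, 2, 2, 1], [3, 2, 1, 1, 2, 1, 0], [3, 2, 2, 0, 2, 1, 0],
  [6, 3, 3, 1, 4, 2, 1], [1, 0, 0, 0, 1, 0, 0], [2, 1, 1, 1, 2, 1, 0], [2, 1, 1, 0, 2, 1, 1]]
  281440616972221 [55, 151, 151, 175, 175, 211, 259] 132792236631 :=
  run4 tr407 _ _ _ _ dt407

theorem ok408 : Ok 4 Dn4 [[2, 1, 1, 1, 2, 2, 1], [1, 1, 0, 0, 0, 0, 0], [3, 2, 2, 0, 2, 1, 0],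
  [6, 3, 3, 1, 4, 2, 1], [1, 0, 0, 0, 1, 0, 0], [3, 2, 1, 1, 2, 1, 0], [2, 1, 1, 0, 2, 1, 1]]
  281440616972221 [55, 151, 151, 175, 175, 211, 259] 105111077160 :=
  run4 tr408 _ _ _ _ dt408

theorem ok409 : Ok 4 Dn4 [[2, 1, 1, 1, 2, 2, 1], [1, 1, 0, 0, 0, 0, 0], [3, 2, 2, 0, 2, 1, 0],
  [2, 1, 1, 1, 1, 1, 1], [3, 1, 1, 1, 2, 1, 1], [2, 1, 1, 1, 2, 1, 0], [2, 1, 1, 0, 2, 1, 1]]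
  281440616972221 [55, 151, 151, 175, 175, 211, 259] 828121428987 :=
  run4 tr409 _ _ _ _ dt409

theorem ok410 : Ok 4 Dn4 [[1, 0, 0, 0, 1, 1, 1], [1, 1, 0, 0, 0, 0, 0], [3, 2, 2, 0, 2, 1, 0],
  [2, 1, 1, 1, 1, 1, 1], [1, 0, 0, 0, 1, 0, 0], [2, 1, 1, 1, 2, 2, 1], [1, 1, 1, 0, 1, 1, 1]]
  281439543213501 [37, 121, 121, 169, 169, 169, 217] 264351320218 :=
  run4 tr410 _ _ _ _ dt410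

theorem ok411 : Ok 4 Dn4 [[3, 2, 2, 0, 2, 2, 1], [1, 1, 0, 0, 0, 0, 0], [2, 2, 2, 0, 1, 1, 0],
  [2, 1, 1, 1, 1, 1, 1], [3, 2, 2, 0, 2, 1, 0], [1, 1, 1, 1, 1, 1, 0], [1, 1, 1, 0, 1, 1, 1]]
  281439539019711 [37, 121, 121, 169, 169, 169, 217] 480585547066 :=
  run4 tr411 _ _ _ _ dt411

theorem ok412 : Ok 4 Dn4 [[2, 1, 1, 1, 2, 2, 1], [1, 1, 0, 0, 0, 0, 0], [3, 2, 2, 0, 2, 2, 1],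
  [2, 1, 1, 1, 1, 1, 1], [3, 2, 2, 0, 2, 1, 0], [1, 1, 1, 1, 1, 1, 0], [1, 1, 1, 0, 1, 1, 1]]
  281439543214015 [37, 121, 121, 169, 169, 169, 217] 995229711058 :=
  run4 tr412 _ _ _ _ dt412

theorem ok413 : Ok 4 Dn4 [[1, 0, 0, 0, 1, 1, 1], [1, 1, 0, 0, 0, 0, 0], [3, 2, 2, 0, 2, 2, 1],
  [2, 1, 1, 1, 1, 1, 1], [3, 2, 2, 0, 2, 1, 0], [2, 1, 1, 1, 2, 2, 1], [1, 1, 1, 0, 1, 1, 1]]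
  281439543214015 [37, 121, 121, 169, 169, 169, 217] 630917715130 :=
  run4 tr413 _ _ _ _ dt413

theorem ok414 : Ok 4 Dn4 [[2, 1, 1, 1, 1, 1, 1], [1, 1, 0, 0, 0, 0, 0], [3, 2, 2, 0, 1, 0, 0],
  [2, 2, 2, 1, 1, 1, 1], [3, 2, 2, 0, 2, 1, 0], [2, 2, 2, 0, 1, 1, 0], [1, 1, 1, 0, 1, 1, 1]]
  211106228338623 [73, 157, 157, 229, 241, 241, 253] 89376030949 :=
  run4 tr414 _ _ _ _ dt414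

theorem ok415 : Ok 4 Dn4 [[2, 1, 1, 1, 1, 1, 1], [1, 1, 0, 0, 0, 0, 0], [3, 2, 2, 0, 1, 0, 0],
  [4, 3, 3, 1, 2, 1, 0], [3, 2, 2, 0, 2, 1, 0], [2, 2, 2, 0, 1, 1, 0], [2, 2, 2, 1, 1, 1, 1]]
  211106228338623 [73, 157, 157, 229, 241, 241, 253] 119762159495 :=
  run4 tr415 _ _ _ _ dt415

theorem ok416 : Ok 4 Dn4 [[2, 1, 1, 1, 1, 1, 1], [1, 1, 0, 0, 0, 0, 0], [3, 2, 2, 0, 1, 0, 0],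
  [1, 1, 1, 1, 0, 0, 0], [4, 3, 3, 1, 2, 1, 0], [2, 2, 2, 0, 1, 1, 0], [2, 2, 2, 1, 1, 1, 1]]
  211106228338623 [73, 157, 157, 229, 241, 241, 253] 160193071554 :=
  run4 tr416 _ _ _ _ dt416

theorem ok417 : Ok 4 Dn4 [[2, 1, 1, 1, 1, 1, 1], [1, 1, 0, 0, 0, 0, 0], [3, 2, 2, 0, 1, 0, 0],
  [3, 2, 2, 1, 2, 1, 1], [1, 0, 0, 0, 1, 0, 0], [3, 2, 2, 0, 2, 1, 0], [1, 1, 1, 0, 1, 1, 1]]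
  281474976710077 [59, 155, 155, 227, 227, 239, 239] 132924144909 :=
  run4 tr417 _ _ _ _ dt417

theorem ok418 : Ok 4 Dn4 [[2, 1, 1, 1, 1, 1, 1], [1, 1, 0, 0, 0, 0, 0], [3, 2, 2, 0, 1, 0, 0],
  [2, 1, 1, 1, 1, 0, 0], [4, 2, 2, 1, 3, 1, 1], [3, 2, 2, 0, 2, 1, 0], [3, 2, 2, 1, 2, 1, 1]]
  281474976710589 [63, 183, 183, 231, 231, 267, 267] 172016168478 :=
  run4 tr418 _ _ _ _ dt418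

theorem ok419 : Ok 4 Dn4 [[5, 3, 3, 1, 2, 1, 1], [1, 1, 0, 0, 0, 0, 0], [3, 2, 2, 0, 1, 0, 0],
  [2, 1, 1, 1, 1, 0, 0], [1, 0, 0, 0, 1, 0, 0], [3, 2, 2, 0, 2, 1, 0], [4, 2, 2, 1, 3, 1, 1]]
  281474976710589 [63, 183, 183, 231, 231, 267, 267] 127053016346 :=
  run4 tr419 _ _ _ _ dt419

theorem ok420 : Ok 4 Dn4 [[2, 1, 1, 1, 1, 1, 1], [1, 1, 0, 0, 0, 0, 0], [5, 3, 3, 1, 2, 1, 1],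
  [2, 1, 1, 1, 1, 0, 0], [1, 0, 0, 0, 1, 0, 0], [3, 2, 2, 0, 2, 1, 0], [4, 2, 2, 1, 3, 1, 1]]
  281474976710589 [63, 183, 183, 231, 231, 267, 267] 189085550536 :=
  run4 tr420 _ _ _ _ dt420

theorem ok421 : Ok 4 Dn4 [[2, 1, 1, 1, 1, 1, 1], [1, 1, 0, 0, 0, 0, 0], [3, 2, 2, 0, 1, 0, 0],
  [2, 2, 2, 1, 1, 1, 1], [3, 2, 2, 1, 2, 1, 1], [3, 2, 2, 0, 2, 1, 0], [1, 1, 1, 0, 1, 1, 1]]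
  211106232532927 [73, 157, 157, 229, 241, 241, 253] 125561868645 :=
  run4 tr421 _ _ _ _ dt421

theorem ok422 : Ok 4 Dn4 [[2, 1, 1, 1, 1, 1, 1], [1, 1, 0, 0, 0, 0, 0], [3, 2, 2, 0, 1, 0, 0],
  [4, 3, 3, 1, 2, 1, 0], [3, 2, 2, 1, 2, 1, 1], [3, 2, 2, 0, 2, 1, 0], [2, 2, 2, 1, 1, 1, 1]]
  211106232532927 [73, 157, 157, 229, 241, 241, 253] 188037905081 :=
  run4 tr422 _ _ _ _ dt422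

theorem ok423 : Ok 4 Dn4 [[2, 1, 1, 1, 1, 1, 1], [1, 1, 0, 0, 0, 0, 0], [3, 2, 2, 0, 1, 0, 0],
  [1, 1, 1, 1, 0, 0, 0], [3, 2, 2, 1, 2, 1, 1], [4, 3, 3, 1, 2, 1, 0], [2, 2, 2, 1, 1, 1, 1]]
  211106232532927 [73, 157, 157, 229, 241, 241, 253] 213830215569 :=
  run4 tr423 _ _ _ _ dt423

theorem ok424 : Ok 4 Dn4 [[2, 1, 1, 1, 1, 1, 1], [1, 1, 0, 0, 0, 0, 0], [3, 2, 2, 0, 1, 0, 0],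
  [1, 1, 1, 1, 0, 0, 0], [2, 1, 1, 1, 1, 0, 0], [3, 2, 2, 0, 2, 1, 0], [3, 2, 2, 1, 2, 1, 1]]
  211106232532415 [73, 157, 157, 229, 241, 241, 253] 78494528429 :=
  run4 tr424 _ _ _ _ dt424

theorem ok425 : Ok 4 Dn4 [[1, 0, 0, 0, 1, 1, 1], [1, 1, 0, 0, 0, 0, 0], [3, 2, 2, 0, 1, 0, 0],
  [2, 1, 1, 1, 1, 1, 1], [1, 0, 0, 0, 1, 0, 0], [2, 2, 2, 0, 1, 1, 0], [1, 1, 1, 0, 1, 1, 1]]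
  211105154579901 [45, 153, 153, 225, 225, 225, 225] 98328120278 :=
  run4 tr425 _ _ _ _ dt425

theorem ok426 : Ok 4 Dn4 [[1, 0, 0, 0, 1, 1, 1], [1, 1, 0, 0, 0, 0, 0], [1, 1, 1, 0, 0, 0, 0],
  [1, 1, 1, 1, 0, 0, 0], [3, 2, 2, 0, 1, 0, 0], [2, 2, 2, 0, 1, 1, 0], [1, 1, 1, 0, 1, 1, 1]]
  210830276672957 [45, 153, 153, 225, 225, 225, 225] 192754823070 :=
  run4 tr426 _ _ _ _ dt426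

theorem nd823 : Ok 4 Dn4 [[2, 1, 1, 1, 2, 2, 1], [1, 1, 0, 0, 1, 1, 0], [3, 2, 2, 0, 4, 3, 0],
  [2, 1, 1, 1, 3, 2, 0], [1, 0, 0, 0, 1, 0, 0], [0, 0, 0, 0, 1, 1, 0], [3, 2, 2, 1, 4, 3, 1]]
  140737488355261 [48, 132, 132, 156, 126, 162, 252] 115343920409 :=
  cut4 4 6 1 1 1 _ [[2, 1, 1, 1, 2, 2, 1], [1, 1, 0, 0, 1, 1, 0], [3, 2, 2, 0, 4, 3, 0], [2, 1,
  1, 1, 3, 2, 0], [4, 2, 2, 1, 5, 3, 1], [0, 0, 0, 0, 1, 1, 0], [3, 2, 2, 1, 4, 3, 1]] [[2, 1, 1,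
  1, 2, 2, 1], [1, 1, 0, 0, 1, 1, 0], [3, 2, 2, 0, 4, 3, 0], [2, 1, 1, 1, 3, 2, 0], [1, 0, 0, 0,
  1, 0, 0], [0, 0, 0, 0, 1, 1, 0], [4, 2, 2, 1, 5, 3, 1]] _ _ 257131958698 97620415622 _ (by
  decide +kernel) ok369 ok370

theorem nd824 : Ok 4 Dn4 [[2, 1, 1, 1, 2, 2, 1], [1, 1, 0, 0, 1, 1, 0], [3, 2, 2, 0, 4, 3, 0],
  [2, 1, 1, 1, 2, 1, 0], [1, 0, 0, 0, 1, 0, 0], [0, 0, 0, 0, 1, 1, 0], [3, 2, 2, 1, 4, 3, 1]]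
  140737488355261 [48, 132, 132, 156, 126, 162, 252] 163905917809 :=
  cut4 3 5 1 1 1 _ [[2, 1, 1, 1, 2, 2, 1], [1, 1, 0, 0, 1, 1, 0], [3, 2, 2, 0, 4, 3, 0], [2, 1,
  1, 1, 3, 2, 0], [1, 0, 0, 0, 1, 0, 0], [0, 0, 0, 0, 1, 1, 0], [3, 2, 2, 1, 4, 3, 1]] [[2, 1, 1,
  1, 2, 2, 1], [1, 1, 0, 0, 1, 1, 0], [3, 2, 2, 0, 4, 3, 0], [2, 1, 1, 1, 2, 1, 0], [1, 0, 0, 0,
  1, 0, 0], [2, 1, 1, 1, 3, 2, 0], [3, 2, 2, 1, 4, 3, 1]] _ _ 115343920409 358153907406 _ (by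
  decide +kernel) nd823 ok371

theorem nd825 : Ok 4 Dn4 [[2, 1, 1, 1, 2, 2, 1], [1, 1, 0, 0, 1, 1, 0], [3, 2, 2, 0, 4, 3, 0],
  [2, 1, 1, 1, 2, 1, 0], [1, 0, 0, 0, 1, 0, 0], [0, 0, 0, 0, 1, 1, 0], [3, 2, 2, 1, 4, 3, 1]]
  140187732541373 [48, 132, 132, 156, 126, 162, 252] 163905917809 :=
  dec4 2 7 0 _ _ 140737488355261 _ [48, 132, 132, 156, 126, 162, 252] _ (by decide +kernel) nd824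

theorem nd826 : Ok 4 Dn4 [[2, 1, 1, 1, 2, 2, 1], [1, 1, 0, 0, 1, 1, 0], [3, 2, 2, 0, 4, 3, 0],
  [2, 1, 1, 1, 2, 1, 0], [1, 0, 0, 0, 1, 0, 0], [0, 0, 0, 0, 1, 1, 0], [3, 2, 2, 1, 3, 2, 1]]
  140187732541373 [48, 132, 132, 156, 126, 162, 252] 178388837091 :=
  cut4 5 6 1 1 1 _ [[2, 1, 1, 1, 2, 2, 1], [1, 1, 0, 0, 1, 1, 0], [3, 2, 2, 0, 4, 3, 0], [2, 1,
  1, 1, 2, 1, 0], [1, 0, 0, 0, 1, 0, 0], [3, 2, 2, 1, 4, 3, 1], [3, 2, 2, 1, 3, 2, 1]] [[2, 1, 1,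
  1, 2, 2, 1], [1, 1, 0, 0, 1, 1, 0], [3, 2, 2, 0, 4, 3, 0], [2, 1, 1, 1, 2, 1, 0], [1, 0, 0, 0,
  1, 0, 0], [0, 0, 0, 0, 1, 1, 0], [3, 2, 2, 1, 4, 3, 1]] _ _ 279769272058 163905917809 _ (by
  decide +kernel) ok368 nd825

theorem nd827 : Ok 4 Dn4 [[2, 1, 1, 1, 2, 2, 1], [1, 1, 0, 0, 1, 1, 0], [3, 2, 2, 0, 4, 3, 0],
  [2, 1, 1, 1, 2, 1, 0], [1, 0, 0, 0, 1, 0, 0], [0, 0, 0, 0, 1, 1, 0], [3, 2, 2, 1, 3, 2, 1]]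
  140187732540861 [44, 104, 104, 152, 122, 134, 224] 178388837091 :=
  dec4 0 9 1 _ _ 140187732541373 _ [48, 132, 132, 156, 126, 162, 252] _ (by decide +kernel) nd826

theorem nd828 : Ok 4 Dn4 [[2, 1, 1, 1, 2, 2, 1], [1, 1, 0, 0, 1, 1, 0], [3, 2, 2, 0, 4, 3, 0],
  [2, 1, 1, 1, 2, 1, 0], [1, 0, 0, 0, 1, 0, 0], [0, 0, 0, 0, 1, 1, 0], [1, 1, 1, 0, 1, 1, 1]]
  140187732540861 [44, 104, 104, 152, 122, 134, 224] 137340026014 :=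
  cut4 3 6 1 1 1 _ [[2, 1, 1, 1, 2, 2, 1], [1, 1, 0, 0, 1, 1, 0], [3, 2, 2, 0, 4, 3, 0], [3, 2,
  2, 1, 3, 2, 1], [1, 0, 0, 0, 1, 0, 0], [0, 0, 0, 0, 1, 1, 0], [1, 1, 1, 0, 1, 1, 1]] [[2, 1, 1,
  1, 2, 2, 1], [1, 1, 0, 0, 1, 1, 0], [3, 2, 2, 0, 4, 3, 0], [2, 1, 1, 1, 2, 1, 0], [1, 0, 0, 0,
  1, 0, 0], [0, 0, 0, 0, 1, 1, 0], [3, 2, 2, 1, 3, 2, 1]] _ _ 106553417706 178388837091 _ (by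
  decide +kernel) ok367 nd827

theorem nd829 : Ok 4 Dn4 [[2, 1, 1, 1, 2, 2, 1], [1, 1, 0, 0, 1, 1, 0], [3, 2, 2, 0, 4, 3, 0],
  [2, 1, 1, 1, 2, 1, 0], [1, 0, 0, 0, 1, 0, 0], [0, 0, 0, 0, 1, 1, 0], [1, 1, 1, 0, 1, 1, 1]]
  140186658799037 [44, 104, 104, 152, 122, 134, 224] 137340026014 :=
  dec4 1 14 0 _ _ 140187732540861 _ [44, 104, 104, 152, 122, 134, 224] _ (by decide +kernel) nd828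

theorem nd830 : Ok 4 Dn4 [[2, 1, 1, 1, 2, 2, 1], [1, 1, 0, 0, 1, 1, 0], [3, 2, 2, 0, 4, 3, 0],
  [1, 1, 1, 1, 1, 1, 0], [2, 1, 1, 1, 2, 1, 0], [0, 0, 0, 0, 1, 1, 0], [1, 1, 1, 0, 1, 1, 1]]
  140187732540863 [58, 106, 106, 154, 136, 136, 238] 529038607613 :=
  cut4 4 6 1 1 1 _ [[2, 1, 1, 1, 2, 2, 1], [1, 1, 0, 0, 1, 1, 0], [3, 2, 2, 0, 4, 3, 0], [1, 1,
  1, 1, 1, 1, 0], [3, 2, 2, 1, 3, 2, 1], [0, 0, 0, 0, 1, 1, 0], [1, 1, 1, 0, 1, 1, 1]] [[2, 1, 1,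
  1, 2, 2, 1], [1, 1, 0, 0, 1, 1, 0], [3, 2, 2, 0, 4, 3, 0], [1, 1, 1, 1, 1, 1, 0], [2, 1, 1, 1,
  2, 1, 0], [0, 0, 0, 0, 1, 1, 0], [3, 2, 2, 1, 3, 2, 1]] _ _ 548425851088 503188949645 _ (by
  decide +kernel) ok372 ok373

theorem nd831 : Ok 4 Dn4 [[2, 1, 1, 1, 2, 2, 1], [1, 1, 0, 0, 1, 1, 0], [3, 2, 2, 0, 4, 3, 0],
  [1, 1, 1, 1, 1, 1, 0], [2, 1, 1, 1, 2, 1, 0], [0, 0, 0, 0, 1, 1, 0], [1, 1, 1, 0, 1, 1, 1]]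
  140186658799039 [44, 104, 104, 152, 122, 134, 224] 529038607613 :=
  dec4 1 14 1 _ _ 140187732540863 _ [58, 106, 106, 154, 136, 136, 238] _ (by decide +kernel) nd830

theorem nd832 : Ok 4 Dn4 [[2, 1, 1, 1, 2, 2, 1], [1, 1, 0, 0, 1, 1, 0], [3, 2, 2, 0, 4, 3, 0],
  [1, 1, 1, 1, 1, 1, 0], [2, 1, 1, 1, 2, 1, 0], [0, 0, 0, 0, 1, 1, 0], [1, 1, 1, 0, 1, 1, 1]]
  140186658799037 [44, 104, 104, 152, 122, 134, 224] 529038607613 :=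
  dec4 0 1 0 _ _ 140186658799039 _ [44, 104, 104, 152, 122, 134, 224] _ (by decide +kernel) nd831

theorem nd833 : Ok 4 Dn4 [[2, 1, 1, 1, 2, 2, 1], [1, 1, 0, 0, 1, 1, 0], [3, 2, 2, 0, 4, 3, 0],
  [1, 1, 1, 1, 1, 1, 0], [1, 0, 0, 0, 1, 0, 0], [0, 0, 0, 0, 1, 1, 0], [1, 1, 1, 0, 1, 1, 1]]
  140186658799037 [44, 104, 104, 152, 122, 134, 224] 235264671414 :=
  cut4 3 4 1 1 1 _ [[2, 1, 1, 1, 2, 2, 1], [1, 1, 0, 0, 1, 1, 0], [3, 2, 2, 0, 4, 3, 0], [2, 1,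
  1, 1, 2, 1, 0], [1, 0, 0, 0, 1, 0, 0], [0, 0, 0, 0, 1, 1, 0], [1, 1, 1, 0, 1, 1, 1]] [[2, 1, 1,
  1, 2, 2, 1], [1, 1, 0, 0, 1, 1, 0], [3, 2, 2, 0, 4, 3, 0], [1, 1, 1, 1, 1, 1, 0], [2, 1, 1, 1,
  2, 1, 0], [0, 0, 0, 0, 1, 1, 0], [1, 1, 1, 0, 1, 1, 1]] _ _ 137340026014 529038607613 _ (by
  decide +kernel) nd829 nd832

theorem nd834 : Ok 4 Dn4 [[2, 1, 1, 1, 2, 2, 1], [1, 1, 0, 0, 1, 1, 0], [3, 2, 2, 0, 2, 1, 0],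
  [1, 1, 1, 1, 1, 1, 0], [1, 0, 0, 0, 1, 0, 0], [0, 0, 0, 0, 1, 1, 0], [1, 1, 1, 0, 1, 1, 1]]
  140186658799037 [44, 104, 104, 152, 122, 134, 224] 250010126504 :=
  cut4 2 5 1 2 1 _ [[2, 1, 1, 1, 2, 2, 1], [1, 1, 0, 0, 1, 1, 0], [3, 2, 2, 0, 4, 3, 0], [1, 1,
  1, 1, 1, 1, 0], [1, 0, 0, 0, 1, 0, 0], [0, 0, 0, 0, 1, 1, 0], [1, 1, 1, 0, 1, 1, 1]] [[2, 1, 1,
  1, 2, 2, 1], [1, 1, 0, 0, 1, 1, 0], [3, 2, 2, 0, 2, 1, 0], [1, 1, 1, 1, 1, 1, 0], [1, 0, 0, 0,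
  1, 0, 0], [3, 2, 2, 0, 4, 3, 0], [1, 1, 1, 0, 1, 1, 1]] _ _ 235264671414 286873764227 _ (by
  decide +kernel) nd833 ok374

theorem nd835 : Ok 4 Dn4 [[2, 1, 1, 1, 2, 2, 1], [1, 1, 0, 0, 1, 1, 0], [3, 2, 2, 0, 2, 1, 0],
  [1, 1, 1, 1, 1, 1, 0], [1, 0, 0, 0, 1, 0, 0], [0, 0, 0, 0, 1, 1, 0], [1, 1, 1, 0, 1, 1, 1]]
  140186658782653 [30, 102, 102, 150, 120, 120, 210] 250010126504 :=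
  dec4 0 14 1 _ _ 140186658799037 _ [44, 104, 104, 152, 122, 134, 224] _ (by decide +kernel) nd834

theorem nd836 : Ok 4 Dn4 [[1, 0, 0, 0, 1, 1, 1], [1, 1, 0, 0, 1, 1, 0], [3, 2, 2, 0, 2, 1, 0],
  [1, 1, 1, 1, 1, 1, 0], [1, 0, 0, 0, 1, 0, 0], [0, 0, 0, 0, 1, 1, 0], [1, 1, 1, 0, 1, 1, 1]]
  140186658782653 [30, 102, 102, 150, 120, 120, 210] 139867781182 :=
  cut4 0 3 1 1 1 _ [[2, 1, 1, 1, 2, 2, 1], [1, 1, 0, 0, 1, 1, 0], [3, 2, 2, 0, 2, 1, 0], [1, 1,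
  1, 1, 1, 1, 0], [1, 0, 0, 0, 1, 0, 0], [0, 0, 0, 0, 1, 1, 0], [1, 1, 1, 0, 1, 1, 1]] [[1, 0, 0,
  0, 1, 1, 1], [1, 1, 0, 0, 1, 1, 0], [3, 2, 2, 0, 2, 1, 0], [2, 1, 1, 1, 2, 2, 1], [1, 0, 0, 0,
  1, 0, 0], [0, 0, 0, 0, 1, 1, 0], [1, 1, 1, 0, 1, 1, 1]] _ _ 250010126504 66439550966 _ (by
  decide +kernel) nd835 ok375

theorem nd837 : Ok 4 Dn4 [[1, 0, 0, 0, 1, 1, 1], [1, 1, 0, 0, 1, 1, 0], [3, 2, 2, 0, 2, 1, 0],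
  [1, 1, 1, 1, 1, 1, 0], [1, 0, 0, 0, 1, 0, 0], [0, 0, 0, 0, 1, 1, 0], [1, 1, 1, 0, 1, 1, 1]]
  140186654588349 [30, 102, 102, 150, 120, 120, 210] 139867781182 :=
  dec4 1 6 0 _ _ 140186658782653 _ [30, 102, 102, 150, 120, 120, 210] _ (by decide +kernel) nd836

theorem nd838 : Ok 4 Dn4 [[2, 1, 1, 1, 2, 2, 1], [1, 1, 0, 0, 1, 1, 0], [3, 2, 2, 0, 4, 4, 1],
  [1, 1, 1, 1, 1, 1, 0], [3, 2, 2, 0, 2, 1, 0], [0, 0, 0, 0, 1, 1, 0], [1, 1, 1, 0, 1, 1, 1]]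
  140187732541375 [58, 106, 106, 154, 136, 136, 238] 390406991881 :=
  cut4 4 5 1 2 1 _ [[2, 1, 1, 1, 2, 2, 1], [1, 1, 0, 0, 1, 1, 0], [3, 2, 2, 0, 4, 4, 1], [1, 1,
  1, 1, 1, 1, 0], [3, 2, 2, 0, 4, 3, 0], [0, 0, 0, 0, 1, 1, 0], [1, 1, 1, 0, 1, 1, 1]] [[2, 1, 1,
  1, 2, 2, 1], [1, 1, 0, 0, 1, 1, 0], [3, 2, 2, 0, 4, 4, 1], [1, 1, 1, 1, 1, 1, 0], [3, 2, 2, 0,
  2, 1, 0], [3, 2, 2, 0, 4, 3, 0], [1, 1, 1, 0, 1, 1, 1]] _ _ 363492334633 457693635000 _ (by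
  decide +kernel) ok377 ok378

theorem nd839 : Ok 4 Dn4 [[2, 1, 1, 1, 2, 2, 1], [1, 1, 0, 0, 1, 1, 0], [3, 2, 2, 0, 2, 2, 1],
  [1, 1, 1, 1, 1, 1, 0], [3, 2, 2, 0, 2, 1, 0], [0, 0, 0, 0, 1, 1, 0], [1, 1, 1, 0, 1, 1, 1]]
  140187732541375 [58, 106, 106, 154, 136, 136, 238] 440103766328 :=
  cut4 2 5 1 2 1 _ [[2, 1, 1, 1, 2, 2, 1], [1, 1, 0, 0, 1, 1, 0], [3, 2, 2, 0, 4, 4, 1], [1, 1,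
  1, 1, 1, 1, 0], [3, 2, 2, 0, 2, 1, 0], [0, 0, 0, 0, 1, 1, 0], [1, 1, 1, 0, 1, 1, 1]] [[2, 1, 1,
  1, 2, 2, 1], [1, 1, 0, 0, 1, 1, 0], [3, 2, 2, 0, 2, 2, 1], [1, 1, 1, 1, 1, 1, 0], [3, 2, 2, 0,
  2, 1, 0], [3, 2, 2, 0, 4, 4, 1], [1, 1, 1, 0, 1, 1, 1]] _ _ 390406991881 589194089668 _ (by
  decide +kernel) nd838 ok379

theorem nd840 : Ok 4 Dn4 [[2, 1, 1, 1, 2, 2, 1], [1, 1, 0, 0, 1, 1, 0], [3, 2, 2, 0, 2, 2, 1],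
  [1, 1, 1, 1, 1, 1, 0], [3, 2, 2, 0, 2, 1, 0], [0, 0, 0, 0, 1, 1, 0], [1, 1, 1, 0, 1, 1, 1]]
  140186658799551 [44, 104, 104, 152, 122, 134, 224] 440103766328 :=
  dec4 1 14 1 _ _ 140187732541375 _ [58, 106, 106, 154, 136, 136, 238] _ (by decide +kernel) nd839

theorem nd841 : Ok 4 Dn4 [[2, 1, 1, 1, 2, 2, 1], [1, 1, 0, 0, 1, 1, 0], [3, 2, 2, 0, 2, 2, 1],
  [1, 1, 1, 1, 1, 1, 0], [3, 2, 2, 0, 2, 1, 0], [0, 0, 0, 0, 1, 1, 0], [1, 1, 1, 0, 1, 1, 1]]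
  140186658783167 [30, 102, 102, 150, 120, 120, 210] 440103766328 :=
  dec4 0 14 1 _ _ 140186658799551 _ [44, 104, 104, 152, 122, 134, 224] _ (by decide +kernel) nd840

theorem nd842 : Ok 4 Dn4 [[1, 0, 0, 0, 1, 1, 1], [1, 1, 0, 0, 1, 1, 0], [3, 2, 2, 0, 2, 2, 1],
  [1, 1, 1, 1, 1, 1, 0], [3, 2, 2, 0, 2, 1, 0], [0, 0, 0, 0, 1, 1, 0], [1, 1, 1, 0, 1, 1, 1]]
  140186658783167 [30, 102, 102, 150, 120, 120, 210] 265270668789 :=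
  cut4 0 3 1 1 1 _ [[2, 1, 1, 1, 2, 2, 1], [1, 1, 0, 0, 1, 1, 0], [3, 2, 2, 0, 2, 2, 1], [1, 1,
  1, 1, 1, 1, 0], [3, 2, 2, 0, 2, 1, 0], [0, 0, 0, 0, 1, 1, 0], [1, 1, 1, 0, 1, 1, 1]] [[1, 0, 0,
  0, 1, 1, 1], [1, 1, 0, 0, 1, 1, 0], [3, 2, 2, 0, 2, 2, 1], [2, 1, 1, 1, 2, 2, 1], [3, 2, 2, 0,
  2, 1, 0], [0, 0, 0, 0, 1, 1, 0], [1, 1, 1, 0, 1, 1, 1]] _ _ 440103766328 148715270429 _ (by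
  decide +kernel) nd841 ok380

theorem nd843 : Ok 4 Dn4 [[1, 0, 0, 0, 1, 1, 1], [1, 1, 0, 0, 1, 1, 0], [3, 2, 2, 0, 2, 2, 1],
  [1, 1, 1, 1, 1, 1, 0], [3, 2, 2, 0, 2, 1, 0], [0, 0, 0, 0, 1, 1, 0], [1, 1, 1, 0, 1, 1, 1]]
  140186654588863 [30, 102, 102, 150, 120, 120, 210] 265270668789 :=
  dec4 1 6 0 _ _ 140186658783167 _ [30, 102, 102, 150, 120, 120, 210] _ (by decide +kernel) nd842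

theorem nd844 : Ok 4 Dn4 [[1, 0, 0, 0, 1, 1, 1], [1, 1, 0, 0, 1, 1, 0], [2, 2, 2, 0, 1, 1, 0],
  [1, 1, 1, 1, 1, 1, 0], [3, 2, 2, 0, 2, 1, 0], [0, 0, 0, 0, 1, 1, 0], [1, 1, 1, 0, 1, 1, 1]]
  140186654588863 [30, 102, 102, 150, 120, 120, 210] 205240702264 :=
  cut4 0 2 1 1 1 _ [[3, 2, 2, 0, 2, 2, 1], [1, 1, 0, 0, 1, 1, 0], [2, 2, 2, 0, 1, 1, 0], [1, 1,
  1, 1, 1, 1, 0], [3, 2, 2, 0, 2, 1, 0], [0, 0, 0, 0, 1, 1, 0], [1, 1, 1, 0, 1, 1, 1]] [[1, 0, 0,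
  0, 1, 1, 1], [1, 1, 0, 0, 1, 1, 0], [3, 2, 2, 0, 2, 2, 1], [1, 1, 1, 1, 1, 1, 0], [3, 2, 2, 0,
  2, 1, 0], [0, 0, 0, 0, 1, 1, 0], [1, 1, 1, 0, 1, 1, 1]] _ _ 85180769214 265270668789 _ (by
  decide +kernel) ok376 nd843

theorem nd845 : Ok 4 Dn4 [[1, 0, 0, 0, 1, 1, 1], [1, 1, 0, 0, 1, 1, 0], [2, 2, 2, 0, 1, 1, 0],
  [1, 1, 1, 1, 1, 1, 0], [3, 2, 2, 0, 2, 1, 0], [0, 0, 0, 0, 1, 1, 0], [1, 1, 1, 0, 1, 1, 1]]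
  140186654588351 [30, 102, 102, 150, 120, 120, 210] 205240702264 :=
  dec4 0 9 0 _ _ 140186654588863 _ [30, 102, 102, 150, 120, 120, 210] _ (by decide +kernel) nd844

theorem nd846 : Ok 4 Dn4 [[1, 0, 0, 0, 1, 1, 1], [1, 1, 0, 0, 1, 1, 0], [2, 2, 2, 0, 1, 1, 0],
  [1, 1, 1, 1, 1, 1, 0], [3, 2, 2, 0, 2, 1, 0], [0, 0, 0, 0, 1, 1, 0], [1, 1, 1, 0, 1, 1, 1]]
  140186654588349 [30, 102, 102, 150, 120, 120, 210] 205240702264 :=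
  dec4 0 1 0 _ _ 140186654588351 _ [30, 102, 102, 150, 120, 120, 210] _ (by decide +kernel) nd845

theorem nd847 : Ok 4 Dn4 [[1, 0, 0, 0, 1, 1, 1], [1, 1, 0, 0, 1, 1, 0], [2, 2, 2, 0, 1, 1, 0],
  [1, 1, 1, 1, 1, 1, 0], [1, 0, 0, 0, 1, 0, 0], [0, 0, 0, 0, 1, 1, 0], [1, 1, 1, 0, 1, 1, 1]]
  140186654588349 [30, 102, 102, 150, 120, 120, 210] 152942365399 :=
  cut4 2 4 1 1 1 _ [[1, 0, 0, 0, 1, 1, 1], [1, 1, 0, 0, 1, 1, 0], [3, 2, 2, 0, 2, 1, 0], [1, 1,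
  1, 1, 1, 1, 0], [1, 0, 0, 0, 1, 0, 0], [0, 0, 0, 0, 1, 1, 0], [1, 1, 1, 0, 1, 1, 1]] [[1, 0, 0,
  0, 1, 1, 1], [1, 1, 0, 0, 1, 1, 0], [2, 2, 2, 0, 1, 1, 0], [1, 1, 1, 1, 1, 1, 0], [3, 2, 2, 0,
  2, 1, 0], [0, 0, 0, 0, 1, 1, 0], [1, 1, 1, 0, 1, 1, 1]] _ _ 139867781182 205240702264 _ (by
  decide +kernel) nd837 nd846

theorem nd848 : Ok 4 Dn4 [[1, 0, 0, 0, 1, 1, 1], [1, 1, 0, 0, 1, 1, 0], [2, 2, 2, 0, 1, 1, 0],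
  [1, 1, 1, 1, 1, 1, 0], [1, 0, 0, 0, 1, 0, 0], [0, 0, 0, 0, 1, 1, 0], [1, 1, 1, 0, 1, 1, 1]]
  131390561566141 [30, 102, 102, 150, 120, 120, 210] 152942365399 :=
  dec4 2 11 0 _ _ 140186654588349 _ [30, 102, 102, 150, 120, 120, 210] _ (by decide +kernel) nd847

theorem nd849 : Ok 4 Dn4 [[1, 0, 0, 0, 1, 1, 1], [1, 1, 0, 0, 1, 1, 0], [2, 2, 2, 0, 1, 1, 0],
  [1, 1, 1, 1, 1, 1, 0], [1, 0, 0, 0, 1, 0, 0], [0, 0, 0, 0, 1, 1, 0], [1, 1, 1, 0, 1, 1, 1]]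
  131356201827773 [30, 102, 102, 150, 120, 120, 210] 152942365399 :=
  dec4 2 3 0 _ _ 131390561566141 _ [30, 102, 102, 150, 120, 120, 210] _ (by decide +kernel) nd848

theorem nd850 : Ok 4 Dn4 [[2, 1, 1, 1, 2, 2, 1], [1, 1, 0, 0, 0, 0, 0], [3, 2, 2, 0, 2, 1, 0],
  [2, 1, 1, 1, 2, 1, 0], [1, 0, 0, 0, 1, 0, 0], [1, 1, 0, 0, 1, 1, 0], [2, 1, 1, 0, 2, 1, 1]]
  281440616972221 [53, 137, 149, 173, 161, 197, 257] 131538889105 :=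
  cut4 1 3 1 1 1 _ [[2, 1, 1, 1, 2, 2, 1], [3, 2, 1, 1, 2, 1, 0], [3, 2, 2, 0, 2, 1, 0], [2, 1,
  1, 1, 2, 1, 0], [1, 0, 0, 0, 1, 0, 0], [1, 1, 0, 0, 1, 1, 0], [2, 1, 1, 0, 2, 1, 1]] [[2, 1, 1,
  1, 2, 2, 1], [1, 1, 0, 0, 0, 0, 0], [3, 2, 2, 0, 2, 1, 0], [3, 2, 1, 1, 2, 1, 0], [1, 0, 0, 0,
  1, 0, 0], [1, 1, 0, 0, 1, 1, 0], [2, 1, 1, 0, 2, 1, 1]] _ _ 162348861717 123836395952 _ (by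
  decide +kernel) ok382 ok383

theorem nd851 : Ok 4 Dn4 [[2, 1, 1, 1, 2, 2, 1], [1, 1, 0, 0, 0, 0, 0], [3, 2, 2, 0, 2, 1, 0],
  [2, 1, 1, 1, 2, 1, 0], [1, 0, 0, 0, 1, 0, 0], [1, 1, 0, 0, 1, 1, 0], [2, 1, 1, 0, 2, 1, 1]]
  281439543230397 [53, 137, 149, 173, 161, 197, 257] 131538889105 :=
  dec4 1 14 0 _ _ 281440616972221 _ [53, 137, 149, 173, 161, 197, 257] _ (by decide +kernel) nd850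

theorem nd852 : Ok 4 Dn4 [[2, 1, 1, 1, 2, 2, 1], [1, 1, 0, 0, 0, 0, 0], [3, 2, 2, 0, 2, 1, 0],
  [1, 1, 1, 1, 1, 1, 0], [1, 0, 0, 0, 1, 0, 0], [1, 1, 0, 0, 1, 1, 0], [2, 1, 1, 0, 2, 1, 1]]
  281439543230397 [53, 137, 149, 173, 161, 197, 257] 232149396261 :=
  cut4 3 4 1 1 1 _ [[2, 1, 1, 1, 2, 2, 1], [1, 1, 0, 0, 0, 0, 0], [3, 2, 2, 0, 2, 1, 0], [2, 1,
  1, 1, 2, 1, 0], [1, 0, 0, 0, 1, 0, 0], [1, 1, 0, 0, 1, 1, 0], [2, 1, 1, 0, 2, 1, 1]] [[2, 1, 1,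
  1, 2, 2, 1], [1, 1, 0, 0, 0, 0, 0], [3, 2, 2, 0, 2, 1, 0], [1, 1, 1, 1, 1, 1, 0], [2, 1, 1, 1,
  2, 1, 0], [1, 1, 0, 0, 1, 1, 0], [2, 1, 1, 0, 2, 1, 1]] _ _ 131538889105 533980917726 _ (by
  decide +kernel) nd851 ok384

theorem nd853 : Ok 4 Dn4 [[2, 1, 1, 1, 2, 2, 1], [1, 1, 0, 0, 0, 0, 0], [3, 2, 2, 0, 2, 1, 0],
  [1, 1, 1, 1, 1, 1, 0], [1, 0, 0, 0, 1, 0, 0], [1, 1, 0, 0, 1, 1, 0], [2, 1, 1, 0, 2, 1, 1]]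
  281439543229885 [49, 109, 121, 169, 157, 169, 229] 232149396261 :=
  dec4 0 9 1 _ _ 281439543230397 _ [53, 137, 149, 173, 161, 197, 257] _ (by decide +kernel) nd852

theorem nd854 : Ok 4 Dn4 [[2, 1, 1, 1, 2, 2, 1], [1, 1, 0, 0, 0, 0, 0], [3, 2, 2, 0, 2, 1, 0],
  [1, 1, 1, 1, 1, 1, 0], [1, 0, 0, 0, 1, 0, 0], [1, 1, 0, 0, 1, 1, 0], [1, 1, 1, 0, 1, 1, 1]]
  281439543229885 [49, 109, 121, 169, 157, 169, 229] 351725001716 :=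
  cut4 4 6 1 1 1 _ [[2, 1, 1, 1, 2, 2, 1], [1, 1, 0, 0, 0, 0, 0], [3, 2, 2, 0, 2, 1, 0], [1, 1,
  1, 1, 1, 1, 0], [2, 1, 1, 0, 2, 1, 1], [1, 1, 0, 0, 1, 1, 0], [1, 1, 1, 0, 1, 1, 1]] [[2, 1, 1,
  1, 2, 2, 1], [1, 1, 0, 0, 0, 0, 0], [3, 2, 2, 0, 2, 1, 0], [1, 1, 1, 1, 1, 1, 0], [1, 0, 0, 0,
  1, 0, 0], [1, 1, 0, 0, 1, 1, 0], [2, 1, 1, 0, 2, 1, 1]] _ _ 710451818078 232149396261 _ (by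
  decide +kernel) ok381 nd853

theorem nd855 : Ok 4 Dn4 [[2, 1, 1, 1, 2, 2, 1], [1, 1, 0, 0, 0, 0, 0], [3, 2, 2, 0, 2, 1, 0],
  [1, 1, 1, 1, 1, 1, 0], [1, 0, 0, 0, 1, 0, 0], [1, 1, 0, 0, 1, 1, 0], [1, 1, 1, 0, 1, 1, 1]]
  281439543213501 [35, 107, 119, 167, 155, 155, 215] 351725001716 :=
  dec4 0 14 1 _ _ 281439543229885 _ [49, 109, 121, 169, 157, 169, 229] _ (by decide +kernel) nd854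

theorem nd856 : Ok 4 Dn4 [[1, 0, 0, 0, 1, 1, 1], [1, 1, 0, 0, 0, 0, 0], [3, 2, 2, 0, 2, 1, 0],
  [1, 1, 1, 1, 1, 1, 0], [1, 0, 0, 0, 1, 0, 0], [1, 1, 0, 0, 1, 1, 0], [1, 1, 1, 0, 1, 1, 1]]
  281439543213501 [35, 107, 119, 167, 155, 155, 215] 230323111790 :=
  cut4 0 3 1 1 1 _ [[2, 1, 1, 1, 2, 2, 1], [1, 1, 0, 0, 0, 0, 0], [3, 2, 2, 0, 2, 1, 0], [1, 1,
  1, 1, 1, 1, 0], [1, 0, 0, 0, 1, 0, 0], [1, 1, 0, 0, 1, 1, 0], [1, 1, 1, 0, 1, 1, 1]] [[1, 0, 0,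
  0, 1, 1, 1], [1, 1, 0, 0, 0, 0, 0], [3, 2, 2, 0, 2, 1, 0], [2, 1, 1, 1, 2, 2, 1], [1, 0, 0, 0,
  1, 0, 0], [1, 1, 0, 0, 1, 1, 0], [1, 1, 1, 0, 1, 1, 1]] _ _ 351725001716 149388518506 _ (by
  decide +kernel) nd855 ok385

theorem nd857 : Ok 4 Dn4 [[1, 0, 0, 0, 1, 1, 1], [1, 1, 0, 0, 0, 0, 0], [3, 2, 2, 0, 2, 1, 0],
  [1, 1, 1, 1, 1, 1, 0], [1, 0, 0, 0, 1, 0, 0], [1, 1, 0, 0, 1, 1, 0], [1, 1, 1, 0, 1, 1, 1]]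
  281439539019197 [35, 107, 119, 167, 155, 155, 215] 230323111790 :=
  dec4 1 6 0 _ _ 281439543213501 _ [35, 107, 119, 167, 155, 155, 215] _ (by decide +kernel) nd856

theorem nd858 : Ok 4 Dn4 [[1, 0, 0, 0, 1, 1, 1], [1, 1, 0, 0, 0, 0, 0], [2, 2, 2, 0, 1, 1, 0],
  [1, 1, 1, 1, 1, 1, 0], [1, 0, 0, 0, 1, 0, 0], [1, 1, 0, 0, 1, 1, 0], [1, 1, 1, 0, 1, 1, 1]]
  281439539019197 [35, 107, 119, 167, 155, 155, 215] 260544939513 :=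
  cut4 2 4 1 1 1 _ [[1, 0, 0, 0, 1, 1, 1], [1, 1, 0, 0, 0, 0, 0], [3, 2, 2, 0, 2, 1, 0], [1, 1,
  1, 1, 1, 1, 0], [1, 0, 0, 0, 1, 0, 0], [1, 1, 0, 0, 1, 1, 0], [1, 1, 1, 0, 1, 1, 1]] [[1, 0, 0,
  0, 1, 1, 1], [1, 1, 0, 0, 0, 0, 0], [2, 2, 2, 0, 1, 1, 0], [1, 1, 1, 1, 1, 1, 0], [3, 2, 2, 0,
  2, 1, 0], [1, 1, 0, 0, 1, 1, 0], [1, 1, 1, 0, 1, 1, 1]] _ _ 230323111790 381432250401 _ (by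
  decide +kernel) nd857 ok386

theorem nd859 : Ok 4 Dn4 [[1, 0, 0, 0, 1, 1, 1], [1, 1, 0, 0, 0, 0, 0], [2, 2, 2, 0, 1, 1, 0],
  [1, 1, 1, 1, 1, 1, 0], [1, 0, 0, 0, 1, 0, 0], [1, 1, 0, 0, 1, 1, 0], [1, 1, 1, 0, 1, 1, 1]]
  140702050663869 [34, 106, 118, 166, 148, 148, 214] 260544939513 :=
  dec4 2 15 1 _ _ 281439539019197 _ [35, 107, 119, 167, 155, 155, 215] _ (by decide +kernel) nd858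

theorem nd860 : Ok 4 Dn4 [[1, 0, 0, 0, 1, 1, 1], [1, 1, 0, 0, 0, 0, 0], [2, 2, 2, 0, 1, 1, 0],
  [1, 1, 1, 1, 1, 1, 0], [1, 0, 0, 0, 1, 0, 0], [1, 1, 0, 0, 1, 1, 0], [1, 1, 1, 0, 1, 1, 1]]
  131905957641661 [32, 104, 104, 164, 134, 134, 212] 260544939513 :=
  dec4 2 11 1 _ _ 140702050663869 _ [34, 106, 118, 166, 148, 148, 214] _ (by decide +kernel) nd859

theorem nd861 : Ok 4 Dn4 [[1, 0, 0, 0, 1, 1, 1], [1, 1, 0, 0, 0, 0, 0], [2, 2, 2, 0, 1, 1, 0],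
  [1, 1, 1, 1, 1, 1, 0], [1, 0, 0, 0, 1, 0, 0], [1, 1, 0, 0, 1, 1, 0], [1, 1, 1, 0, 1, 1, 1]]
  131356201827773 [30, 102, 102, 150, 120, 120, 210] 260544939513 :=
  dec4 2 7 1 _ _ 131905957641661 _ [32, 104, 104, 164, 134, 134, 212] _ (by decide +kernel) nd860

theorem nd862 : Ok 4 Dn4 [[1, 0, 0, 0, 1, 1, 1], [1, 1, 0, 0, 0, 0, 0], [2, 2, 2, 0, 1, 1, 0],
  [1, 1, 1, 1, 1, 1, 0], [1, 0, 0, 0, 1, 0, 0], [0, 0, 0, 0, 1, 1, 0], [1, 1, 1, 0, 1, 1, 1]]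
  131356201827773 [30, 102, 102, 150, 120, 120, 210] 206743652456 :=
  cut4 1 5 1 1 1 _ [[1, 0, 0, 0, 1, 1, 1], [1, 1, 0, 0, 1, 1, 0], [2, 2, 2, 0, 1, 1, 0], [1, 1,
  1, 1, 1, 1, 0], [1, 0, 0, 0, 1, 0, 0], [0, 0, 0, 0, 1, 1, 0], [1, 1, 1, 0, 1, 1, 1]] [[1, 0, 0,
  0, 1, 1, 1], [1, 1, 0, 0, 0, 0, 0], [2, 2, 2, 0, 1, 1, 0], [1, 1, 1, 1, 1, 1, 0], [1, 0, 0, 0,
  1, 0, 0], [1, 1, 0, 0, 1, 1, 0], [1, 1, 1, 0, 1, 1, 1]] _ _ 152942365399 260544939513 _ (by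
  decide +kernel) nd849 nd861

theorem nd863 : Ok 4 Dn4 [[1, 0, 0, 0, 1, 1, 1], [1, 1, 0, 0, 0, 0, 0], [2, 2, 2, 0, 1, 1, 0],
  [1, 1, 1, 1, 1, 1, 0], [1, 0, 0, 0, 1, 0, 0], [0, 0, 0, 0, 1, 1, 0], [1, 1, 1, 0, 1, 1, 1]]
  60987457650109 [30, 102, 102, 150, 120, 120, 210] 206743652456 :=
  dec4 2 14 0 _ _ 131356201827773 _ [30, 102, 102, 150, 120, 120, 210] _ (by decide +kernel) nd862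

theorem nd864 : Ok 4 Dn4 [[1, 0, 0, 0, 1, 1, 1], [1, 1, 0, 0, 0, 0, 0], [2, 2, 2, 0, 1, 1, 0],
  [1, 1, 1, 1, 1, 1, 0], [1, 0, 0, 0, 1, 0, 0], [0, 0, 0, 0, 1, 1, 0], [1, 1, 1, 0, 1, 1, 1]]
  25803085561277 [30, 102, 102, 150, 120, 120, 210] 206743652456 :=
  dec4 2 13 0 _ _ 60987457650109 _ [30, 102, 102, 150, 120, 120, 210] _ (by decide +kernel) nd863

theorem nd865 : Ok 4 Dn4 [[2, 1, 1, 1, 1, 1, 1], [1, 1, 0, 0, 0, 0, 0], [3, 2, 2, 0, 2, 1, 0],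
  [3, 2, 2, 1, 2, 1, 1], [1, 0, 0, 0, 1, 0, 0], [2, 1, 1, 1, 2, 1, 0], [2, 1, 1, 0, 2, 1, 1]]
  281440616972221 [55, 151, 151, 175, 175, 211, 259] 262719768740 :=
  cut4 3 4 1 1 1 _ [[2, 1, 1, 1, 1, 1, 1], [1, 1, 0, 0, 0, 0, 0], [3, 2, 2, 0, 2, 1, 0], [4, 2,
  2, 1, 3, 1, 1], [1, 0, 0, 0, 1, 0, 0], [2, 1, 1, 1, 2, 1, 0], [2, 1, 1, 0, 2, 1, 1]] [[2, 1, 1,
  1, 1, 1, 1], [1, 1, 0, 0, 0, 0, 0], [3, 2, 2, 0, 2, 1, 0], [3, 2, 2, 1, 2, 1, 1], [4, 2, 2, 1,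
  3, 1, 1], [2, 1, 1, 1, 2, 1, 0], [2, 1, 1, 0, 2, 1, 1]] _ _ 198054775379 650709728903 _ (by
  decide +kernel) ok389 ok390

theorem nd866 : Ok 4 Dn4 [[2, 1, 1, 1, 1, 1, 1], [1, 1, 0, 0, 0, 0, 0], [3, 2, 2, 0, 2, 1, 0],
  [3, 2, 2, 1, 2, 1, 1], [1, 0, 0, 0, 1, 0, 0], [2, 1, 1, 1, 2, 1, 0], [2, 1, 1, 0, 2, 1, 1]]
  281439543230397 [55, 151, 151, 175, 175, 211, 259] 262719768740 :=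
  dec4 1 14 0 _ _ 281440616972221 _ [55, 151, 151, 175, 175, 211, 259] _ (by decide +kernel) nd865

theorem nd867 : Ok 4 Dn4 [[2, 1, 1, 1, 1, 1, 1], [1, 1, 0, 0, 0, 0, 0], [3, 2, 2, 0, 2, 1, 0],
  [3, 2, 2, 1, 2, 1, 1], [1, 0, 0, 0, 1, 0, 0], [1, 1, 1, 1, 1, 1, 0], [2, 1, 1, 0, 2, 1, 1]]
  281439543230397 [55, 151, 151, 175, 175, 211, 259] 351571884140 :=
  cut4 4 5 1 1 1 _ [[2, 1, 1, 1, 1, 1, 1], [1, 1, 0, 0, 0, 0, 0], [3, 2, 2, 0, 2, 1, 0], [3, 2,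
  2, 1, 2, 1, 1], [2, 1, 1, 1, 2, 1, 0], [1, 1, 1, 1, 1, 1, 0], [2, 1, 1, 0, 2, 1, 1]] [[2, 1, 1,
  1, 1, 1, 1], [1, 1, 0, 0, 0, 0, 0], [3, 2, 2, 0, 2, 1, 0], [3, 2, 2, 1, 2, 1, 1], [1, 0, 0, 0,
  1, 0, 0], [2, 1, 1, 1, 2, 1, 0], [2, 1, 1, 0, 2, 1, 1]] _ _ 618128230339 262719768740 _ (by
  decide +kernel) ok388 nd866

theorem nd868 : Ok 4 Dn4 [[2, 1, 1, 1, 1, 1, 1], [1, 1, 0, 0, 0, 0, 0], [3, 2, 2, 0, 2, 1, 0],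
  [3, 2, 2, 1, 2, 1, 1], [1, 0, 0, 0, 1, 0, 0], [1, 1, 1, 1, 1, 1, 0], [2, 1, 1, 0, 2, 1, 1]]
  281439543229885 [51, 123, 123, 171, 171, 183, 231] 351571884140 :=
  dec4 0 9 1 _ _ 281439543230397 _ [55, 151, 151, 175, 175, 211, 259] _ (by decide +kernel) nd867

theorem nd869 : Ok 4 Dn4 [[2, 1, 1, 1, 1, 1, 1], [1, 1, 0, 0, 0, 0, 0], [3, 2, 2, 0, 2, 1, 0],
  [3, 2, 2, 1, 2, 1, 1], [1, 0, 0, 0, 1, 0, 0], [1, 1, 1, 1, 1, 1, 0], [1, 1, 1, 0, 1, 1, 1]]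
  281439543229885 [51, 123, 123, 171, 171, 183, 231] 512502855474 :=
  cut4 4 6 1 1 1 _ [[2, 1, 1, 1, 1, 1, 1], [1, 1, 0, 0, 0, 0, 0], [3, 2, 2, 0, 2, 1, 0], [3, 2,
  2, 1, 2, 1, 1], [2, 1, 1, 0, 2, 1, 1], [1, 1, 1, 1, 1, 1, 0], [1, 1, 1, 0, 1, 1, 1]] [[2, 1, 1,
  1, 1, 1, 1], [1, 1, 0, 0, 0, 0, 0], [3, 2, 2, 0, 2, 1, 0], [3, 2, 2, 1, 2, 1, 1], [1, 0, 0, 0,
  1, 0, 0], [1, 1, 1, 1, 1, 1, 0], [2, 1, 1, 0, 2, 1, 1]] _ _ 995295769476 351571884140 _ (by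
  decide +kernel) ok387 nd868

theorem nd870 : Ok 4 Dn4 [[2, 1, 1, 1, 1, 1, 1], [1, 1, 0, 0, 0, 0, 0], [3, 2, 2, 0, 2, 1, 0],
  [2, 1, 1, 1, 1, 0, 0], [1, 0, 0, 0, 1, 0, 0], [2, 1, 1, 1, 2, 1, 0], [4, 2, 2, 1, 3, 1, 1]]
  281440616972221 [55, 151, 151, 175, 175, 211, 259] 360633570175 :=
  cut4 1 5 1 1 1 _ [[2, 1, 1, 1, 1, 1, 1], [3, 2, 1, 1, 2, 1, 0], [3, 2, 2, 0, 2, 1, 0], [2, 1,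
  1, 1, 1, 0, 0], [1, 0, 0, 0, 1, 0, 0], [2, 1, 1, 1, 2, 1, 0], [4, 2, 2, 1, 3, 1, 1]] [[2, 1, 1,
  1, 1, 1, 1], [1, 1, 0, 0, 0, 0, 0], [3, 2, 2, 0, 2, 1, 0], [2, 1, 1, 1, 1, 0, 0], [1, 0, 0, 0,
  1, 0, 0], [3, 2, 1, 1, 2, 1, 0], [4, 2, 2, 1, 3, 1, 1]] _ _ 554969217363 312049658378 _ (by
  decide +kernel) ok393 ok394

theorem nd871 : Ok 4 Dn4 [[2, 1, 1, 1, 1, 1, 1], [1, 1, 0, 0, 0, 0, 0], [3, 2, 2, 0, 2, 1, 0],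
  [2, 1, 1, 1, 1, 0, 0], [1, 0, 0, 0, 1, 0, 0], [2, 1, 1, 1, 2, 1, 0], [3, 2, 2, 1, 2, 1, 1]]
  281440616972221 [55, 151, 151, 175, 175, 211, 259] 480524110904 :=
  cut4 4 6 1 1 1 _ [[2, 1, 1, 1, 1, 1, 1], [1, 1, 0, 0, 0, 0, 0], [3, 2, 2, 0, 2, 1, 0], [2, 1,
  1, 1, 1, 0, 0], [4, 2, 2, 1, 3, 1, 1], [2, 1, 1, 1, 2, 1, 0], [3, 2, 2, 1, 2, 1, 1]] [[2, 1, 1,
  1, 1, 1, 1], [1, 1, 0, 0, 0, 0, 0], [3, 2, 2, 0, 2, 1, 0], [2, 1, 1, 1, 1, 0, 0], [1, 0, 0, 0,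
  1, 0, 0], [2, 1, 1, 1, 2, 1, 0], [4, 2, 2, 1, 3, 1, 1]] _ _ 1199867355277 360633570175 _ (by
  decide +kernel) ok392 nd870

theorem nd872 : Ok 4 Dn4 [[2, 1, 1, 1, 1, 1, 1], [1, 1, 0, 0, 0, 0, 0], [3, 2, 2, 0, 2, 1, 0],
  [2, 1, 1, 1, 1, 0, 0], [1, 0, 0, 0, 1, 0, 0], [2, 1, 1, 1, 2, 1, 0], [3, 2, 2, 1, 2, 1, 1]]
  281439543230397 [55, 151, 151, 175, 175, 211, 259] 480524110904 :=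
  dec4 1 14 0 _ _ 281440616972221 _ [55, 151, 151, 175, 175, 211, 259] _ (by decide +kernel) nd871

theorem nd873 : Ok 4 Dn4 [[2, 1, 1, 1, 1, 1, 1], [1, 1, 0, 0, 0, 0, 0], [3, 2, 2, 0, 2, 1, 0],
  [2, 1, 1, 1, 1, 0, 0], [1, 0, 0, 0, 1, 0, 0], [1, 1, 1, 1, 1, 1, 0], [3, 2, 2, 1, 2, 1, 1]]
  281439543230397 [55, 151, 151, 175, 175, 211, 259] 588562527916 :=
  cut4 4 5 1 1 1 _ [[2, 1, 1, 1, 1, 1, 1], [1, 1, 0, 0, 0, 0, 0], [3, 2, 2, 0, 2, 1, 0], [2, 1,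
  1, 1, 1, 0, 0], [2, 1, 1, 1, 2, 1, 0], [1, 1, 1, 1, 1, 1, 0], [3, 2, 2, 1, 2, 1, 1]] [[2, 1, 1,
  1, 1, 1, 1], [1, 1, 0, 0, 0, 0, 0], [3, 2, 2, 0, 2, 1, 0], [2, 1, 1, 1, 1, 0, 0], [1, 0, 0, 0,
  1, 0, 0], [2, 1, 1, 1, 2, 1, 0], [3, 2, 2, 1, 2, 1, 1]] _ _ 912677778949 480524110904 _ (by
  decide +kernel) ok391 nd872

theorem nd874 : Ok 4 Dn4 [[2, 1, 1, 1, 1, 1, 1], [1, 1, 0, 0, 0, 0, 0], [3, 2, 2, 0, 2, 1, 0],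
  [2, 1, 1, 1, 1, 0, 0], [1, 0, 0, 0, 1, 0, 0], [1, 1, 1, 1, 1, 1, 0], [3, 2, 2, 1, 2, 1, 1]]
  281439543229885 [51, 123, 123, 171, 171, 183, 231] 588562527916 :=
  dec4 0 9 1 _ _ 281439543230397 _ [55, 151, 151, 175, 175, 211, 259] _ (by decide +kernel) nd873

theorem nd875 : Ok 4 Dn4 [[2, 1, 1, 1, 1, 1, 1], [1, 1, 0, 0, 0, 0, 0], [3, 2, 2, 0, 2, 1, 0],
  [2, 1, 1, 1, 1, 0, 0], [1, 0, 0, 0, 1, 0, 0], [1, 1, 1, 1, 1, 1, 0], [1, 1, 1, 0, 1, 1, 1]]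
  281439543229885 [51, 123, 123, 171, 171, 183, 231] 550532691695 :=
  cut4 3 6 1 1 1 _ [[2, 1, 1, 1, 1, 1, 1], [1, 1, 0, 0, 0, 0, 0], [3, 2, 2, 0, 2, 1, 0], [3, 2,
  2, 1, 2, 1, 1], [1, 0, 0, 0, 1, 0, 0], [1, 1, 1, 1, 1, 1, 0], [1, 1, 1, 0, 1, 1, 1]] [[2, 1, 1,
  1, 1, 1, 1], [1, 1, 0, 0, 0, 0, 0], [3, 2, 2, 0, 2, 1, 0], [2, 1, 1, 1, 1, 0, 0], [1, 0, 0, 0,
  1, 0, 0], [1, 1, 1, 1, 1, 1, 0], [3, 2, 2, 1, 2, 1, 1]] _ _ 512502855474 588562527916 _ (by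
  decide +kernel) nd869 nd874

theorem nd876 : Ok 4 Dn4 [[2, 1, 1, 1, 1, 1, 1], [1, 1, 0, 0, 0, 0, 0], [3, 2, 2, 0, 2, 1, 0],
  [2, 1, 1, 1, 1, 0, 0], [1, 0, 0, 0, 1, 0, 0], [1, 1, 1, 1, 1, 1, 0], [1, 1, 1, 0, 1, 1, 1]]
  211070799052221 [51, 123, 123, 171, 171, 183, 231] 550532691695 :=
  dec4 2 14 0 _ _ 281439543229885 _ [51, 123, 123, 171, 171, 183, 231] _ (by decide +kernel) nd875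

theorem nd877 : Ok 4 Dn4 [[2, 1, 1, 1, 1, 1, 1], [1, 1, 0, 0, 0, 0, 0], [3, 2, 2, 0, 2, 1, 0],
  [1, 1, 1, 1, 0, 0, 0], [3, 2, 2, 1, 2, 1, 1], [1, 1, 1, 1, 1, 1, 0], [2, 2, 2, 1, 1, 1, 1]]
  211071872794559 [65, 125, 125, 173, 185, 185, 245] 1514579692287 :=
  cut4 2 3 1 1 1 _ [[2, 1, 1, 1, 1, 1, 1], [1, 1, 0, 0, 0, 0, 0], [4, 3, 3, 1, 2, 1, 0], [1, 1,
  1, 1, 0, 0, 0], [3, 2, 2, 1, 2, 1, 1], [1, 1, 1, 1, 1, 1, 0], [2, 2, 2, 1, 1, 1, 1]] [[2, 1, 1,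
  1, 1, 1, 1], [1, 1, 0, 0, 0, 0, 0], [3, 2, 2, 0, 2, 1, 0], [4, 3, 3, 1, 2, 1, 0], [3, 2, 2, 1,
  2, 1, 1], [1, 1, 1, 1, 1, 1, 0], [2, 2, 2, 1, 1, 1, 1]] _ _ 1590476063846 1324838763387 _ (by
  decide +kernel) ok396 ok397

theorem nd878 : Ok 4 Dn4 [[2, 1, 1, 1, 1, 1, 1], [1, 1, 0, 0, 0, 0, 0], [3, 2, 2, 0, 2, 1, 0],
  [1, 1, 1, 1, 0, 0, 0], [3, 2, 2, 1, 2, 1, 1], [1, 1, 1, 1, 1, 1, 0], [1, 1, 1, 0, 1, 1, 1]]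
  211071872794559 [65, 125, 125, 173, 185, 185, 245] 1318892762956 :=
  cut4 3 6 1 1 1 _ [[2, 1, 1, 1, 1, 1, 1], [1, 1, 0, 0, 0, 0, 0], [3, 2, 2, 0, 2, 1, 0], [2, 2,
  2, 1, 1, 1, 1], [3, 2, 2, 1, 2, 1, 1], [1, 1, 1, 1, 1, 1, 0], [1, 1, 1, 0, 1, 1, 1]] [[2, 1, 1,
  1, 1, 1, 1], [1, 1, 0, 0, 0, 0, 0], [3, 2, 2, 0, 2, 1, 0], [1, 1, 1, 1, 0, 0, 0], [3, 2, 2, 1,
  2, 1, 1], [1, 1, 1, 1, 1, 1, 0], [2, 2, 2, 1, 1, 1, 1]] _ _ 1025362368958 1514579692287 _ (by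
  decide +kernel) ok395 nd877

theorem nd879 : Ok 4 Dn4 [[2, 1, 1, 1, 1, 1, 1], [1, 1, 0, 0, 0, 0, 0], [3, 2, 2, 0, 2, 1, 0],
  [1, 1, 1, 1, 0, 0, 0], [3, 2, 2, 1, 2, 1, 1], [1, 1, 1, 1, 1, 1, 0], [1, 1, 1, 0, 1, 1, 1]]
  211071872794047 [65, 125, 125, 173, 185, 185, 245] 1318892762956 :=
  dec4 0 9 0 _ _ 211071872794559 _ [65, 125, 125, 173, 185, 185, 245] _ (by decide +kernel) nd878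

theorem nd880 : Ok 4 Dn4 [[2, 1, 1, 1, 1, 1, 1], [1, 1, 0, 0, 0, 0, 0], [3, 2, 2, 0, 2, 1, 0],
  [1, 1, 1, 1, 0, 0, 0], [2, 1, 1, 1, 1, 0, 0], [1, 1, 1, 1, 1, 1, 0], [3, 2, 2, 1, 2, 1, 1]]
  211071872794559 [69, 153, 153, 177, 189, 213, 273] 546565570630 :=
  cut4 2 3 1 1 1 _ [[2, 1, 1, 1, 1, 1, 1], [1, 1, 0, 0, 0, 0, 0], [4, 3, 3, 1, 2, 1, 0], [1, 1,
  1, 1, 0, 0, 0], [2, 1, 1, 1, 1, 0, 0], [1, 1, 1, 1, 1, 1, 0], [3, 2, 2, 1, 2, 1, 1]] [[2, 1, 1,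
  1, 1, 1, 1], [1, 1, 0, 0, 0, 0, 0], [3, 2, 2, 0, 2, 1, 0], [4, 3, 3, 1, 2, 1, 0], [2, 1, 1, 1,
  1, 0, 0], [1, 1, 1, 1, 1, 1, 0], [3, 2, 2, 1, 2, 1, 1]] _ _ 509610030546 638954420840 _ (by
  decide +kernel) ok398 ok399

theorem nd881 : Ok 4 Dn4 [[2, 1, 1, 1, 1, 1, 1], [1, 1, 0, 0, 0, 0, 0], [3, 2, 2, 0, 2, 1, 0],
  [1, 1, 1, 1, 0, 0, 0], [2, 1, 1, 1, 1, 0, 0], [1, 1, 1, 1, 1, 1, 0], [3, 2, 2, 1, 2, 1, 1]]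
  211071872794047 [65, 125, 125, 173, 185, 185, 245] 546565570630 :=
  dec4 0 9 1 _ _ 211071872794559 _ [69, 153, 153, 177, 189, 213, 273] _ (by decide +kernel) nd880

theorem nd882 : Ok 4 Dn4 [[2, 1, 1, 1, 1, 1, 1], [1, 1, 0, 0, 0, 0, 0], [3, 2, 2, 0, 2, 1, 0],
  [1, 1, 1, 1, 0, 0, 0], [2, 1, 1, 1, 1, 0, 0], [1, 1, 1, 1, 1, 1, 0], [1, 1, 1, 0, 1, 1, 1]]
  211071872794047 [65, 125, 125, 173, 185, 185, 245] 932729166793 :=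
  cut4 4 6 1 1 1 _ [[2, 1, 1, 1, 1, 1, 1], [1, 1, 0, 0, 0, 0, 0], [3, 2, 2, 0, 2, 1, 0], [1, 1,
  1, 1, 0, 0, 0], [3, 2, 2, 1, 2, 1, 1], [1, 1, 1, 1, 1, 1, 0], [1, 1, 1, 0, 1, 1, 1]] [[2, 1, 1,
  1, 1, 1, 1], [1, 1, 0, 0, 0, 0, 0], [3, 2, 2, 0, 2, 1, 0], [1, 1, 1, 1, 0, 0, 0], [2, 1, 1, 1,
  1, 0, 0], [1, 1, 1, 1, 1, 1, 0], [3, 2, 2, 1, 2, 1, 1]] _ _ 1318892762956 546565570630 _ (by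
  decide +kernel) nd879 nd881

theorem nd883 : Ok 4 Dn4 [[2, 1, 1, 1, 1, 1, 1], [1, 1, 0, 0, 0, 0, 0], [3, 2, 2, 0, 2, 1, 0],
  [1, 1, 1, 1, 0, 0, 0], [2, 1, 1, 1, 1, 0, 0], [1, 1, 1, 1, 1, 1, 0], [1, 1, 1, 0, 1, 1, 1]]
  211070799052223 [51, 123, 123, 171, 171, 183, 231] 932729166793 :=
  dec4 1 14 1 _ _ 211071872794047 _ [65, 125, 125, 173, 185, 185, 245] _ (by decide +kernel) nd882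

theorem nd884 : Ok 4 Dn4 [[2, 1, 1, 1, 1, 1, 1], [1, 1, 0, 0, 0, 0, 0], [3, 2, 2, 0, 2, 1, 0],
  [1, 1, 1, 1, 0, 0, 0], [2, 1, 1, 1, 1, 0, 0], [1, 1, 1, 1, 1, 1, 0], [1, 1, 1, 0, 1, 1, 1]]
  211070799052221 [51, 123, 123, 171, 171, 183, 231] 932729166793 :=
  dec4 0 1 0 _ _ 211070799052223 _ [51, 123, 123, 171, 171, 183, 231] _ (by decide +kernel) nd883

theorem nd885 : Ok 4 Dn4 [[2, 1, 1, 1, 1, 1, 1], [1, 1, 0, 0, 0, 0, 0], [3, 2, 2, 0, 2, 1, 0],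
  [1, 1, 1, 1, 0, 0, 0], [1, 0, 0, 0, 1, 0, 0], [1, 1, 1, 1, 1, 1, 0], [1, 1, 1, 0, 1, 1, 1]]
  211070799052221 [51, 123, 123, 171, 171, 183, 231] 677931516728 :=
  cut4 3 4 1 1 1 _ [[2, 1, 1, 1, 1, 1, 1], [1, 1, 0, 0, 0, 0, 0], [3, 2, 2, 0, 2, 1, 0], [2, 1,
  1, 1, 1, 0, 0], [1, 0, 0, 0, 1, 0, 0], [1, 1, 1, 1, 1, 1, 0], [1, 1, 1, 0, 1, 1, 1]] [[2, 1, 1,
  1, 1, 1, 1], [1, 1, 0, 0, 0, 0, 0], [3, 2, 2, 0, 2, 1, 0], [1, 1, 1, 1, 0, 0, 0], [2, 1, 1, 1,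
  1, 0, 0], [1, 1, 1, 1, 1, 1, 0], [1, 1, 1, 0, 1, 1, 1]] _ _ 550532691695 932729166793 _ (by
  decide +kernel) nd876 nd884

theorem nd886 : Ok 4 Dn4 [[2, 1, 1, 1, 1, 1, 1], [1, 1, 0, 0, 0, 0, 0], [3, 2, 2, 0, 2, 1, 0],
  [1, 1, 1, 1, 0, 0, 0], [1, 0, 0, 0, 1, 0, 0], [1, 1, 1, 1, 1, 1, 0], [1, 1, 1, 0, 1, 1, 1]]
  211070794857917 [51, 123, 123, 171, 171, 183, 231] 677931516728 :=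
  dec4 1 6 0 _ _ 211070799052221 _ [51, 123, 123, 171, 171, 183, 231] _ (by decide +kernel) nd885

theorem nd887 : Ok 4 Dn4 [[2, 1, 1, 1, 1, 1, 1], [1, 1, 0, 0, 0, 0, 0], [2, 2, 2, 0, 1, 1, 0],
  [1, 1, 1, 1, 0, 0, 0], [3, 2, 2, 0, 2, 1, 0], [1, 1, 1, 1, 1, 1, 0], [2, 2, 2, 1, 1, 1, 1]]
  211071868600255 [65, 125, 125, 173, 185, 185, 245] 831890933618 :=
  cut4 3 4 1 1 1 _ [[2, 1, 1, 1, 1, 1, 1], [1, 1, 0, 0, 0, 0, 0], [2, 2, 2, 0, 1, 1, 0], [4, 3,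
  3, 1, 2, 1, 0], [3, 2, 2, 0, 2, 1, 0], [1, 1, 1, 1, 1, 1, 0], [2, 2, 2, 1, 1, 1, 1]] [[2, 1, 1,
  1, 1, 1, 1], [1, 1, 0, 0, 0, 0, 0], [2, 2, 2, 0, 1, 1, 0], [1, 1, 1, 1, 0, 0, 0], [4, 3, 3, 1,
  2, 1, 0], [1, 1, 1, 1, 1, 1, 0], [2, 2, 2, 1, 1, 1, 1]] _ _ 703676946197 883176528586 _ (by
  decide +kernel) ok401 ok402

theorem nd888 : Ok 4 Dn4 [[2, 1, 1, 1, 1, 1, 1], [1, 1, 0, 0, 0, 0, 0], [2, 2, 2, 0, 1, 1, 0],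
  [1, 1, 1, 1, 0, 0, 0], [3, 2, 2, 0, 2, 1, 0], [1, 1, 1, 1, 1, 1, 0], [1, 1, 1, 0, 1, 1, 1]]
  211071868600255 [65, 125, 125, 173, 185, 185, 245] 709568844488 :=
  cut4 3 6 1 1 1 _ [[2, 1, 1, 1, 1, 1, 1], [1, 1, 0, 0, 0, 0, 0], [2, 2, 2, 0, 1, 1, 0], [2, 2,
  2, 1, 1, 1, 1], [3, 2, 2, 0, 2, 1, 0], [1, 1, 1, 1, 1, 1, 0], [1, 1, 1, 0, 1, 1, 1]] [[2, 1, 1,
  1, 1, 1, 1], [1, 1, 0, 0, 0, 0, 0], [2, 2, 2, 0, 1, 1, 0], [1, 1, 1, 1, 0, 0, 0], [3, 2, 2, 0,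
  2, 1, 0], [1, 1, 1, 1, 1, 1, 0], [2, 2, 2, 1, 1, 1, 1]] _ _ 526085710792 831890933618 _ (by
  decide +kernel) ok400 nd887

theorem nd889 : Ok 4 Dn4 [[2, 1, 1, 1, 1, 1, 1], [1, 1, 0, 0, 0, 0, 0], [2, 2, 2, 0, 1, 1, 0],
  [1, 1, 1, 1, 0, 0, 0], [3, 2, 2, 0, 2, 1, 0], [1, 1, 1, 1, 1, 1, 0], [1, 1, 1, 0, 1, 1, 1]]
  211070794858431 [51, 123, 123, 171, 171, 183, 231] 709568844488 :=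
  dec4 1 14 1 _ _ 211071868600255 _ [65, 125, 125, 173, 185, 185, 245] _ (by decide +kernel) nd888

theorem nd890 : Ok 4 Dn4 [[2, 1, 1, 1, 1, 1, 1], [1, 1, 0, 0, 0, 0, 0], [2, 2, 2, 0, 1, 1, 0],
  [1, 1, 1, 1, 0, 0, 0], [3, 2, 2, 0, 2, 1, 0], [1, 1, 1, 1, 1, 1, 0], [1, 1, 1, 0, 1, 1, 1]]
  211070794857919 [51, 123, 123, 171, 171, 183, 231] 709568844488 :=
  dec4 0 9 0 _ _ 211070794858431 _ [51, 123, 123, 171, 171, 183, 231] _ (by decide +kernel) nd889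

theorem nd891 : Ok 4 Dn4 [[2, 1, 1, 1, 1, 1, 1], [1, 1, 0, 0, 0, 0, 0], [2, 2, 2, 0, 1, 1, 0],
  [1, 1, 1, 1, 0, 0, 0], [3, 2, 2, 0, 2, 1, 0], [1, 1, 1, 1, 1, 1, 0], [1, 1, 1, 0, 1, 1, 1]]
  211070794857917 [51, 123, 123, 171, 171, 183, 231] 709568844488 :=
  dec4 0 1 0 _ _ 211070794857919 _ [51, 123, 123, 171, 171, 183, 231] _ (by decide +kernel) nd890

theorem nd892 : Ok 4 Dn4 [[2, 1, 1, 1, 1, 1, 1], [1, 1, 0, 0, 0, 0, 0], [2, 2, 2, 0, 1, 1, 0],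
  [1, 1, 1, 1, 0, 0, 0], [1, 0, 0, 0, 1, 0, 0], [1, 1, 1, 1, 1, 1, 0], [1, 1, 1, 0, 1, 1, 1]]
  211070794857917 [51, 123, 123, 171, 171, 183, 231] 684258982280 :=
  cut4 2 4 1 1 1 _ [[2, 1, 1, 1, 1, 1, 1], [1, 1, 0, 0, 0, 0, 0], [3, 2, 2, 0, 2, 1, 0], [1, 1,
  1, 1, 0, 0, 0], [1, 0, 0, 0, 1, 0, 0], [1, 1, 1, 1, 1, 1, 0], [1, 1, 1, 0, 1, 1, 1]] [[2, 1, 1,
  1, 1, 1, 1], [1, 1, 0, 0, 0, 0, 0], [2, 2, 2, 0, 1, 1, 0], [1, 1, 1, 1, 0, 0, 0], [3, 2, 2, 0,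
  2, 1, 0], [1, 1, 1, 1, 1, 1, 0], [1, 1, 1, 0, 1, 1, 1]] _ _ 677931516728 709568844488 _ (by
  decide +kernel) nd886 nd891

theorem nd893 : Ok 4 Dn4 [[2, 1, 1, 1, 1, 1, 1], [1, 1, 0, 0, 0, 0, 0], [2, 2, 2, 0, 1, 1, 0],
  [1, 1, 1, 1, 0, 0, 0], [1, 0, 0, 0, 1, 0, 0], [1, 1, 1, 1, 1, 1, 0], [1, 1, 1, 0, 1, 1, 1]]
  211070794841533 [37, 121, 121, 169, 169, 169, 217] 684258982280 :=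
  dec4 0 14 1 _ _ 211070794857917 _ [51, 123, 123, 171, 171, 183, 231] _ (by decide +kernel) nd892

theorem nd894 : Ok 4 Dn4 [[2, 1, 1, 1, 2, 2, 1], [1, 1, 0, 0, 0, 0, 0], [3, 2, 2, 0, 2, 1, 0],
  [2, 1, 1, 1, 1, 1, 1], [2, 1, 1, 1, 2, 1, 0], [1, 1, 1, 1, 1, 1, 0], [2, 1, 1, 0, 2, 1, 1]]
  281439543230399 [55, 151, 151, 175, 175, 211, 259] 669688230835 :=
  cut4 5 6 1 1 1 _ [[2, 1, 1, 1, 2, 2, 1], [1, 1, 0, 0, 0, 0, 0], [3, 2, 2, 0, 2, 1, 0], [2, 1,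
  1, 1, 1, 1, 1], [2, 1, 1, 1, 2, 1, 0], [3, 2, 2, 1, 3, 2, 1], [2, 1, 1, 0, 2, 1, 1]] [[2, 1, 1,
  1, 2, 2, 1], [1, 1, 0, 0, 0, 0, 0], [3, 2, 2, 0, 2, 1, 0], [2, 1, 1, 1, 1, 1, 1], [2, 1, 1, 1,
  2, 1, 0], [1, 1, 1, 1, 1, 1, 0], [3, 2, 2, 1, 3, 2, 1]] _ _ 649422985118 684887165122 _ (by
  decide +kernel) ok404 ok405

theorem nd895 : Ok 4 Dn4 [[2, 1, 1, 1, 2, 2, 1], [1, 1, 0, 0, 0, 0, 0], [3, 2, 2, 0, 2, 1, 0],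
  [2, 1, 1, 1, 1, 1, 1], [2, 1, 1, 1, 2, 1, 0], [1, 1, 1, 1, 1, 1, 0], [2, 1, 1, 0, 2, 1, 1]]
  281439543230397 [55, 151, 151, 175, 175, 211, 259] 669688230835 :=
  dec4 0 1 0 _ _ 281439543230399 _ [55, 151, 151, 175, 175, 211, 259] _ (by decide +kernel) nd894

theorem nd896 : Ok 4 Dn4 [[2, 1, 1, 1, 2, 2, 1], [1, 1, 0, 0, 0, 0, 0], [3, 2, 2, 0, 2, 1, 0],
  [6, 3, 3, 1, 4, 2, 1], [1, 0, 0, 0, 1, 0, 0], [2, 1, 1, 1, 2, 1, 0], [2, 1, 1, 0, 2, 1, 1]]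
  281440616972221 [55, 151, 151, 175, 175, 211, 259] 110647309055 :=
  cut4 1 5 1 1 1 _ [[2, 1, 1, 1, 2, 2, 1], [3, 2, 1, 1, 2, 1, 0], [3, 2, 2, 0, 2, 1, 0], [6, 3,
  3, 1, 4, 2, 1], [1, 0, 0, 0, 1, 0, 0], [2, 1, 1, 1, 2, 1, 0], [2, 1, 1, 0, 2, 1, 1]] [[2, 1, 1,
  1, 2, 2, 1], [1, 1, 0, 0, 0, 0, 0], [3, 2, 2, 0, 2, 1, 0], [6, 3, 3, 1, 4, 2, 1], [1, 0, 0, 0,
  1, 0, 0], [3, 2, 1, 1, 2, 1, 0], [2, 1, 1, 0, 2, 1, 1]] _ _ 132792236631 105111077160 _ (by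
  decide +kernel) ok407 ok408

theorem nd897 : Ok 4 Dn4 [[2, 1, 1, 1, 2, 2, 1], [1, 1, 0, 0, 0, 0, 0], [3, 2, 2, 0, 2, 1, 0],
  [3, 1, 1, 1, 2, 1, 1], [1, 0, 0, 0, 1, 0, 0], [2, 1, 1, 1, 2, 1, 0], [2, 1, 1, 0, 2, 1, 1]]
  281440616972221 [55, 151, 151, 175, 175, 211, 259] 143488147702 :=
  cut4 2 3 1 1 1 _ [[2, 1, 1, 1, 2, 2, 1], [1, 1, 0, 0, 0, 0, 0], [6, 3, 3, 1, 4, 2, 1], [3, 1,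
  1, 1, 2, 1, 1], [1, 0, 0, 0, 1, 0, 0], [2, 1, 1, 1, 2, 1, 0], [2, 1, 1, 0, 2, 1, 1]] [[2, 1, 1,
  1, 2, 2, 1], [1, 1, 0, 0, 0, 0, 0], [3, 2, 2, 0, 2, 1, 0], [6, 3, 3, 1, 4, 2, 1], [1, 0, 0, 0,
  1, 0, 0], [2, 1, 1, 1, 2, 1, 0], [2, 1, 1, 0, 2, 1, 1]] _ _ 176328986348 110647309055 _ (by
  decide +kernel) ok406 nd896

theorem nd898 : Ok 4 Dn4 [[2, 1, 1, 1, 2, 2, 1], [1, 1, 0, 0, 0, 0, 0], [3, 2, 2, 0, 2, 1, 0],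
  [2, 1, 1, 1, 1, 1, 1], [1, 0, 0, 0, 1, 0, 0], [2, 1, 1, 1, 2, 1, 0], [2, 1, 1, 0, 2, 1, 1]]
  281440616972221 [55, 151, 151, 175, 175, 211, 259] 280414803959 :=
  cut4 3 4 1 1 1 _ [[2, 1, 1, 1, 2, 2, 1], [1, 1, 0, 0, 0, 0, 0], [3, 2, 2, 0, 2, 1, 0], [3, 1,
  1, 1, 2, 1, 1], [1, 0, 0, 0, 1, 0, 0], [2, 1, 1, 1, 2, 1, 0], [2, 1, 1, 0, 2, 1, 1]] [[2, 1, 1,
  1, 2, 2, 1], [1, 1, 0, 0, 0, 0, 0], [3, 2, 2, 0, 2, 1, 0], [2, 1, 1, 1, 1, 1, 1], [3, 1, 1, 1,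
  2, 1, 1], [2, 1, 1, 1, 2, 1, 0], [2, 1, 1, 0, 2, 1, 1]] _ _ 143488147702 828121428987 _ (by
  decide +kernel) nd897 ok409

theorem nd899 : Ok 4 Dn4 [[2, 1, 1, 1, 2, 2, 1], [1, 1, 0, 0, 0, 0, 0], [3, 2, 2, 0, 2, 1, 0],
  [2, 1, 1, 1, 1, 1, 1], [1, 0, 0, 0, 1, 0, 0], [2, 1, 1, 1, 2, 1, 0], [2, 1, 1, 0, 2, 1, 1]]
  281439543230397 [55, 151, 151, 175, 175, 211, 259] 280414803959 :=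
  dec4 1 14 0 _ _ 281440616972221 _ [55, 151, 151, 175, 175, 211, 259] _ (by decide +kernel) nd898

theorem nd900 : Ok 4 Dn4 [[2, 1, 1, 1, 2, 2, 1], [1, 1, 0, 0, 0, 0, 0], [3, 2, 2, 0, 2, 1, 0],
  [2, 1, 1, 1, 1, 1, 1], [1, 0, 0, 0, 1, 0, 0], [1, 1, 1, 1, 1, 1, 0], [2, 1, 1, 0, 2, 1, 1]]
  281439543230397 [55, 151, 151, 175, 175, 211, 259] 377733160678 :=
  cut4 4 5 1 1 1 _ [[2, 1, 1, 1, 2, 2, 1], [1, 1, 0, 0, 0, 0, 0], [3, 2, 2, 0, 2, 1, 0], [2, 1,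
  1, 1, 1, 1, 1], [2, 1, 1, 1, 2, 1, 0], [1, 1, 1, 1, 1, 1, 0], [2, 1, 1, 0, 2, 1, 1]] [[2, 1, 1,
  1, 2, 2, 1], [1, 1, 0, 0, 0, 0, 0], [3, 2, 2, 0, 2, 1, 0], [2, 1, 1, 1, 1, 1, 1], [1, 0, 0, 0,
  1, 0, 0], [2, 1, 1, 1, 2, 1, 0], [2, 1, 1, 0, 2, 1, 1]] _ _ 669688230835 280414803959 _ (by
  decide +kernel) nd895 nd899

theorem nd901 : Ok 4 Dn4 [[2, 1, 1, 1, 2, 2, 1], [1, 1, 0, 0, 0, 0, 0], [3, 2, 2, 0, 2, 1, 0],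
  [2, 1, 1, 1, 1, 1, 1], [1, 0, 0, 0, 1, 0, 0], [1, 1, 1, 1, 1, 1, 0], [2, 1, 1, 0, 2, 1, 1]]
  281439543229885 [51, 123, 123, 171, 171, 183, 231] 377733160678 :=
  dec4 0 9 1 _ _ 281439543230397 _ [55, 151, 151, 175, 175, 211, 259] _ (by decide +kernel) nd900

theorem nd902 : Ok 4 Dn4 [[2, 1, 1, 1, 2, 2, 1], [1, 1, 0, 0, 0, 0, 0], [3, 2, 2, 0, 2, 1, 0],
  [2, 1, 1, 1, 1, 1, 1], [1, 0, 0, 0, 1, 0, 0], [1, 1, 1, 1, 1, 1, 0], [1, 1, 1, 0, 1, 1, 1]]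
  281439543229885 [51, 123, 123, 171, 171, 183, 231] 546488620780 :=
  cut4 4 6 1 1 1 _ [[2, 1, 1, 1, 2, 2, 1], [1, 1, 0, 0, 0, 0, 0], [3, 2, 2, 0, 2, 1, 0], [2, 1,
  1, 1, 1, 1, 1], [2, 1, 1, 0, 2, 1, 1], [1, 1, 1, 1, 1, 1, 0], [1, 1, 1, 0, 1, 1, 1]] [[2, 1, 1,
  1, 2, 2, 1], [1, 1, 0, 0, 0, 0, 0], [3, 2, 2, 0, 2, 1, 0], [2, 1, 1, 1, 1, 1, 1], [1, 0, 0, 0,
  1, 0, 0], [1, 1, 1, 1, 1, 1, 0], [2, 1, 1, 0, 2, 1, 1]] _ _ 1052755001086 377733160678 _ (by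
  decide +kernel) ok403 nd901

theorem nd903 : Ok 4 Dn4 [[2, 1, 1, 1, 2, 2, 1], [1, 1, 0, 0, 0, 0, 0], [3, 2, 2, 0, 2, 1, 0],
  [2, 1, 1, 1, 1, 1, 1], [1, 0, 0, 0, 1, 0, 0], [1, 1, 1, 1, 1, 1, 0], [1, 1, 1, 0, 1, 1, 1]]
  281439543213501 [37, 121, 121, 169, 169, 169, 217] 546488620780 :=
  dec4 0 14 1 _ _ 281439543229885 _ [51, 123, 123, 171, 171, 183, 231] _ (by decide +kernel) nd902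

theorem nd904 : Ok 4 Dn4 [[1, 0, 0, 0, 1, 1, 1], [1, 1, 0, 0, 0, 0, 0], [3, 2, 2, 0, 2, 1, 0],
  [2, 1, 1, 1, 1, 1, 1], [1, 0, 0, 0, 1, 0, 0], [1, 1, 1, 1, 1, 1, 0], [1, 1, 1, 0, 1, 1, 1]]
  281439543213501 [37, 121, 121, 169, 169, 169, 217] 377206240443 :=
  cut4 0 5 1 1 1 _ [[2, 1, 1, 1, 2, 2, 1], [1, 1, 0, 0, 0, 0, 0], [3, 2, 2, 0, 2, 1, 0], [2, 1,
  1, 1, 1, 1, 1], [1, 0, 0, 0, 1, 0, 0], [1, 1, 1, 1, 1, 1, 0], [1, 1, 1, 0, 1, 1, 1]] [[1, 0, 0,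
  0, 1, 1, 1], [1, 1, 0, 0, 0, 0, 0], [3, 2, 2, 0, 2, 1, 0], [2, 1, 1, 1, 1, 1, 1], [1, 0, 0, 0,
  1, 0, 0], [2, 1, 1, 1, 2, 2, 1], [1, 1, 1, 0, 1, 1, 1]] _ _ 546488620780 264351320218 _ (by
  decide +kernel) nd903 ok410

theorem nd905 : Ok 4 Dn4 [[1, 0, 0, 0, 1, 1, 1], [1, 1, 0, 0, 0, 0, 0], [3, 2, 2, 0, 2, 1, 0],
  [2, 1, 1, 1, 1, 1, 1], [1, 0, 0, 0, 1, 0, 0], [1, 1, 1, 1, 1, 1, 0], [1, 1, 1, 0, 1, 1, 1]]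
  281439539019197 [37, 121, 121, 169, 169, 169, 217] 377206240443 :=
  dec4 1 6 0 _ _ 281439543213501 _ [37, 121, 121, 169, 169, 169, 217] _ (by decide +kernel) nd904

theorem nd906 : Ok 4 Dn4 [[1, 0, 0, 0, 1, 1, 1], [1, 1, 0, 0, 0, 0, 0], [3, 2, 2, 0, 2, 2, 1],
  [2, 1, 1, 1, 1, 1, 1], [3, 2, 2, 0, 2, 1, 0], [1, 1, 1, 1, 1, 1, 0], [1, 1, 1, 0, 1, 1, 1]]
  281439543214015 [37, 121, 121, 169, 169, 169, 217] 776642513502 :=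
  cut4 0 5 1 1 1 _ [[2, 1, 1, 1, 2, 2, 1], [1, 1, 0, 0, 0, 0, 0], [3, 2, 2, 0, 2, 2, 1], [2, 1,
  1, 1, 1, 1, 1], [3, 2, 2, 0, 2, 1, 0], [1, 1, 1, 1, 1, 1, 0], [1, 1, 1, 0, 1, 1, 1]] [[1, 0, 0,
  0, 1, 1, 1], [1, 1, 0, 0, 0, 0, 0], [3, 2, 2, 0, 2, 2, 1], [2, 1, 1, 1, 1, 1, 1], [3, 2, 2, 0,
  2, 1, 0], [2, 1, 1, 1, 2, 2, 1], [1, 1, 1, 0, 1, 1, 1]] _ _ 995229711058 630917715130 _ (by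
  decide +kernel) ok412 ok413

theorem nd907 : Ok 4 Dn4 [[1, 0, 0, 0, 1, 1, 1], [1, 1, 0, 0, 0, 0, 0], [3, 2, 2, 0, 2, 2, 1],
  [2, 1, 1, 1, 1, 1, 1], [3, 2, 2, 0, 2, 1, 0], [1, 1, 1, 1, 1, 1, 0], [1, 1, 1, 0, 1, 1, 1]]
  281439539019711 [37, 121, 121, 169, 169, 169, 217] 776642513502 :=
  dec4 1 6 0 _ _ 281439543214015 _ [37, 121, 121, 169, 169, 169, 217] _ (by decide +kernel) nd906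

theorem nd908 : Ok 4 Dn4 [[1, 0, 0, 0, 1, 1, 1], [1, 1, 0, 0, 0, 0, 0], [2, 2, 2, 0, 1, 1, 0],
  [2, 1, 1, 1, 1, 1, 1], [3, 2, 2, 0, 2, 1, 0], [1, 1, 1, 1, 1, 1, 0], [1, 1, 1, 0, 1, 1, 1]]
  281439539019711 [37, 121, 121, 169, 169, 169, 217] 677956858024 :=
  cut4 0 2 1 1 1 _ [[3, 2, 2, 0, 2, 2, 1], [1, 1, 0, 0, 0, 0, 0], [2, 2, 2, 0, 1, 1, 0], [2, 1,
  1, 1, 1, 1, 1], [3, 2, 2, 0, 2, 1, 0], [1, 1, 1, 1, 1, 1, 0], [1, 1, 1, 0, 1, 1, 1]] [[1, 0, 0,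
  0, 1, 1, 1], [1, 1, 0, 0, 0, 0, 0], [3, 2, 2, 0, 2, 2, 1], [2, 1, 1, 1, 1, 1, 1], [3, 2, 2, 0,
  2, 1, 0], [1, 1, 1, 1, 1, 1, 0], [1, 1, 1, 0, 1, 1, 1]] _ _ 480585547066 776642513502 _ (by
  decide +kernel) ok411 nd907

theorem nd909 : Ok 4 Dn4 [[1, 0, 0, 0, 1, 1, 1], [1, 1, 0, 0, 0, 0, 0], [2, 2, 2, 0, 1, 1, 0],
  [2, 1, 1, 1, 1, 1, 1], [3, 2, 2, 0, 2, 1, 0], [1, 1, 1, 1, 1, 1, 0], [1, 1, 1, 0, 1, 1, 1]]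
  281439539019199 [37, 121, 121, 169, 169, 169, 217] 677956858024 :=
  dec4 0 9 0 _ _ 281439539019711 _ [37, 121, 121, 169, 169, 169, 217] _ (by decide +kernel) nd908

theorem nd910 : Ok 4 Dn4 [[1, 0, 0, 0, 1, 1, 1], [1, 1, 0, 0, 0, 0, 0], [2, 2, 2, 0, 1, 1, 0],
  [2, 1, 1, 1, 1, 1, 1], [3, 2, 2, 0, 2, 1, 0], [1, 1, 1, 1, 1, 1, 0], [1, 1, 1, 0, 1, 1, 1]]
  281439539019197 [37, 121, 121, 169, 169, 169, 217] 677956858024 :=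
  dec4 0 1 0 _ _ 281439539019199 _ [37, 121, 121, 169, 169, 169, 217] _ (by decide +kernel) nd909

theorem nd911 : Ok 4 Dn4 [[1, 0, 0, 0, 1, 1, 1], [1, 1, 0, 0, 0, 0, 0], [2, 2, 2, 0, 1, 1, 0],
  [2, 1, 1, 1, 1, 1, 1], [1, 0, 0, 0, 1, 0, 0], [1, 1, 1, 1, 1, 1, 0], [1, 1, 1, 0, 1, 1, 1]]
  281439539019197 [37, 121, 121, 169, 169, 169, 217] 437356363960 :=
  cut4 2 4 1 1 1 _ [[1, 0, 0, 0, 1, 1, 1], [1, 1, 0, 0, 0, 0, 0], [3, 2, 2, 0, 2, 1, 0], [2, 1,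
  1, 1, 1, 1, 1], [1, 0, 0, 0, 1, 0, 0], [1, 1, 1, 1, 1, 1, 0], [1, 1, 1, 0, 1, 1, 1]] [[1, 0, 0,
  0, 1, 1, 1], [1, 1, 0, 0, 0, 0, 0], [2, 2, 2, 0, 1, 1, 0], [2, 1, 1, 1, 1, 1, 1], [3, 2, 2, 0,
  2, 1, 0], [1, 1, 1, 1, 1, 1, 0], [1, 1, 1, 0, 1, 1, 1]] _ _ 377206240443 677956858024 _ (by
  decide +kernel) nd905 nd910

theorem nd912 : Ok 4 Dn4 [[1, 0, 0, 0, 1, 1, 1], [1, 1, 0, 0, 0, 0, 0], [2, 2, 2, 0, 1, 1, 0],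
  [2, 1, 1, 1, 1, 1, 1], [1, 0, 0, 0, 1, 0, 0], [1, 1, 1, 1, 1, 1, 0], [1, 1, 1, 0, 1, 1, 1]]
  211070794841533 [37, 121, 121, 169, 169, 169, 217] 437356363960 :=
  dec4 2 14 0 _ _ 281439539019197 _ [37, 121, 121, 169, 169, 169, 217] _ (by decide +kernel) nd911

theorem nd913 : Ok 4 Dn4 [[1, 0, 0, 0, 1, 1, 1], [1, 1, 0, 0, 0, 0, 0], [2, 2, 2, 0, 1, 1, 0],
  [1, 1, 1, 1, 0, 0, 0], [1, 0, 0, 0, 1, 0, 0], [1, 1, 1, 1, 1, 1, 0], [1, 1, 1, 0, 1, 1, 1]]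
  211070794841533 [37, 121, 121, 169, 169, 169, 217] 560807673120 :=
  cut4 0 3 1 1 1 _ [[2, 1, 1, 1, 1, 1, 1], [1, 1, 0, 0, 0, 0, 0], [2, 2, 2, 0, 1, 1, 0], [1, 1,
  1, 1, 0, 0, 0], [1, 0, 0, 0, 1, 0, 0], [1, 1, 1, 1, 1, 1, 0], [1, 1, 1, 0, 1, 1, 1]] [[1, 0, 0,
  0, 1, 1, 1], [1, 1, 0, 0, 0, 0, 0], [2, 2, 2, 0, 1, 1, 0], [2, 1, 1, 1, 1, 1, 1], [1, 0, 0, 0,
  1, 0, 0], [1, 1, 1, 1, 1, 1, 0], [1, 1, 1, 0, 1, 1, 1]] _ _ 684258982280 437356363960 _ (by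
  decide +kernel) nd893 nd912

theorem nd914 : Ok 4 Dn4 [[1, 0, 0, 0, 1, 1, 1], [1, 1, 0, 0, 0, 0, 0], [2, 2, 2, 0, 1, 1, 0],
  [1, 1, 1, 1, 0, 0, 0], [1, 0, 0, 0, 1, 0, 0], [1, 1, 1, 1, 1, 1, 0], [1, 1, 1, 0, 1, 1, 1]]
  70333306486205 [36, 120, 120, 168, 162, 162, 216] 560807673120 :=
  dec4 2 15 1 _ _ 211070794841533 _ [37, 121, 121, 169, 169, 169, 217] _ (by decide +kernel) nd913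

theorem nd915 : Ok 4 Dn4 [[1, 0, 0, 0, 1, 1, 1], [1, 1, 0, 0, 0, 0, 0], [2, 2, 2, 0, 1, 1, 0],
  [1, 1, 1, 1, 0, 0, 0], [1, 0, 0, 0, 1, 0, 0], [1, 1, 1, 1, 1, 1, 0], [1, 1, 1, 0, 1, 1, 1]]
  35148934397373 [34, 106, 118, 166, 148, 148, 214] 560807673120 :=
  dec4 2 13 1 _ _ 70333306486205 _ [36, 120, 120, 168, 162, 162, 216] _ (by decide +kernel) nd914

theorem nd916 : Ok 4 Dn4 [[1, 0, 0, 0, 1, 1, 1], [1, 1, 0, 0, 0, 0, 0], [2, 2, 2, 0, 1, 1, 0],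
  [1, 1, 1, 1, 0, 0, 0], [1, 0, 0, 0, 1, 0, 0], [1, 1, 1, 1, 1, 1, 0], [1, 1, 1, 0, 1, 1, 1]]
  26352841375165 [32, 104, 104, 164, 134, 134, 212] 560807673120 :=
  dec4 2 11 1 _ _ 35148934397373 _ [34, 106, 118, 166, 148, 148, 214] _ (by decide +kernel) nd915

theorem nd917 : Ok 4 Dn4 [[1, 0, 0, 0, 1, 1, 1], [1, 1, 0, 0, 0, 0, 0], [2, 2, 2, 0, 1, 1, 0],
  [1, 1, 1, 1, 0, 0, 0], [1, 0, 0, 0, 1, 0, 0], [1, 1, 1, 1, 1, 1, 0], [1, 1, 1, 0, 1, 1, 1]]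
  25803085561277 [30, 102, 102, 150, 120, 120, 210] 560807673120 :=
  dec4 2 7 1 _ _ 26352841375165 _ [32, 104, 104, 164, 134, 134, 212] _ (by decide +kernel) nd916

theorem nd918 : Ok 4 Dn4 [[1, 0, 0, 0, 1, 1, 1], [1, 1, 0, 0, 0, 0, 0], [2, 2, 2, 0, 1, 1, 0],
  [1, 1, 1, 1, 0, 0, 0], [1, 0, 0, 0, 1, 0, 0], [0, 0, 0, 0, 1, 1, 0], [1, 1, 1, 0, 1, 1, 1]]
  25803085561277 [30, 102, 102, 150, 120, 120, 210] 324764992678 :=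
  cut4 3 5 1 1 1 _ [[1, 0, 0, 0, 1, 1, 1], [1, 1, 0, 0, 0, 0, 0], [2, 2, 2, 0, 1, 1, 0], [1, 1,
  1, 1, 1, 1, 0], [1, 0, 0, 0, 1, 0, 0], [0, 0, 0, 0, 1, 1, 0], [1, 1, 1, 0, 1, 1, 1]] [[1, 0, 0,
  0, 1, 1, 1], [1, 1, 0, 0, 0, 0, 0], [2, 2, 2, 0, 1, 1, 0], [1, 1, 1, 1, 0, 0, 0], [1, 0, 0, 0,
  1, 0, 0], [1, 1, 1, 1, 1, 1, 0], [1, 1, 1, 0, 1, 1, 1]] _ _ 206743652456 560807673120 _ (by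
  decide +kernel) nd864 nd917

theorem nd919 : Ok 4 Dn4 [[1, 0, 0, 0, 1, 1, 1], [1, 1, 0, 0, 0, 0, 0], [2, 2, 2, 0, 1, 1, 0],
  [1, 1, 1, 1, 0, 0, 0], [1, 0, 0, 0, 1, 0, 0], [0, 0, 0, 0, 1, 1, 0], [1, 1, 1, 0, 1, 1, 1]]
  25528207654333 [30, 102, 102, 150, 120, 120, 210] 324764992678 :=
  dec4 2 6 0 _ _ 25803085561277 _ [30, 102, 102, 150, 120, 120, 210] _ (by decide +kernel) nd918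

theorem nd920 : Ok 4 Dn4 [[1, 0, 0, 0, 1, 1, 1], [1, 1, 0, 0, 0, 0, 0], [2, 2, 2, 0, 1, 1, 0],
  [1, 1, 1, 1, 0, 0, 0], [1, 0, 0, 0, 1, 0, 0], [0, 0, 0, 0, 1, 1, 0], [1, 1, 1, 0, 1, 1, 1]]
  25390768700861 [30, 102, 102, 150, 120, 120, 210] 324764992678 :=
  dec4 2 5 0 _ _ 25528207654333 _ [30, 102, 102, 150, 120, 120, 210] _ (by decide +kernel) nd919

theorem nd921 : Ok 4 Dn4 [[2, 1, 1, 1, 1, 1, 1], [1, 1, 0, 0, 0, 0, 0], [3, 2, 2, 0, 1, 0, 0],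
  [1, 1, 1, 1, 0, 0, 0], [3, 2, 2, 0, 2, 1, 0], [2, 2, 2, 0, 1, 1, 0], [2, 2, 2, 1, 1, 1, 1]]
  211106228338623 [73, 157, 157, 229, 241, 241, 253] 148641382395 :=
  cut4 3 4 1 1 1 _ [[2, 1, 1, 1, 1, 1, 1], [1, 1, 0, 0, 0, 0, 0], [3, 2, 2, 0, 1, 0, 0], [4, 3,
  3, 1, 2, 1, 0], [3, 2, 2, 0, 2, 1, 0], [2, 2, 2, 0, 1, 1, 0], [2, 2, 2, 1, 1, 1, 1]] [[2, 1, 1,
  1, 1, 1, 1], [1, 1, 0, 0, 0, 0, 0], [3, 2, 2, 0, 1, 0, 0], [1, 1, 1, 1, 0, 0, 0], [4, 3, 3, 1,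
  2, 1, 0], [2, 2, 2, 0, 1, 1, 0], [2, 2, 2, 1, 1, 1, 1]] _ _ 119762159495 160193071554 _ (by
  decide +kernel) ok415 ok416

theorem nd922 : Ok 4 Dn4 [[2, 1, 1, 1, 1, 1, 1], [1, 1, 0, 0, 0, 0, 0], [3, 2, 2, 0, 1, 0, 0],
  [1, 1, 1, 1, 0, 0, 0], [3, 2, 2, 0, 2, 1, 0], [2, 2, 2, 0, 1, 1, 0], [1, 1, 1, 0, 1, 1, 1]]
  211106228338623 [73, 157, 157, 229, 241, 241, 253] 124935241817 :=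
  cut4 3 6 1 1 1 _ [[2, 1, 1, 1, 1, 1, 1], [1, 1, 0, 0, 0, 0, 0], [3, 2, 2, 0, 1, 0, 0], [2, 2,
  2, 1, 1, 1, 1], [3, 2, 2, 0, 2, 1, 0], [2, 2, 2, 0, 1, 1, 0], [1, 1, 1, 0, 1, 1, 1]] [[2, 1, 1,
  1, 1, 1, 1], [1, 1, 0, 0, 0, 0, 0], [3, 2, 2, 0, 1, 0, 0], [1, 1, 1, 1, 0, 0, 0], [3, 2, 2, 0,
  2, 1, 0], [2, 2, 2, 0, 1, 1, 0], [2, 2, 2, 1, 1, 1, 1]] _ _ 89376030949 148641382395 _ (by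
  decide +kernel) ok414 nd921

theorem nd923 : Ok 4 Dn4 [[2, 1, 1, 1, 1, 1, 1], [1, 1, 0, 0, 0, 0, 0], [3, 2, 2, 0, 1, 0, 0],
  [1, 1, 1, 1, 0, 0, 0], [3, 2, 2, 0, 2, 1, 0], [2, 2, 2, 0, 1, 1, 0], [1, 1, 1, 0, 1, 1, 1]]
  211105154596799 [59, 155, 155, 227, 227, 239, 239] 124935241817 :=
  dec4 1 14 1 _ _ 211106228338623 _ [73, 157, 157, 229, 241, 241, 253] _ (by decide +kernel) nd922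

theorem nd924 : Ok 4 Dn4 [[2, 1, 1, 1, 1, 1, 1], [1, 1, 0, 0, 0, 0, 0], [3, 2, 2, 0, 1, 0, 0],
  [1, 1, 1, 1, 0, 0, 0], [3, 2, 2, 0, 2, 1, 0], [2, 2, 2, 0, 1, 1, 0], [1, 1, 1, 0, 1, 1, 1]]
  211105154596287 [59, 155, 155, 227, 227, 239, 239] 124935241817 :=
  dec4 0 9 0 _ _ 211105154596799 _ [59, 155, 155, 227, 227, 239, 239] _ (by decide +kernel) nd923

theorem nd925 : Ok 4 Dn4 [[2, 1, 1, 1, 1, 1, 1], [1, 1, 0, 0, 0, 0, 0], [3, 2, 2, 0, 1, 0, 0],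
  [1, 1, 1, 1, 0, 0, 0], [3, 2, 2, 0, 2, 1, 0], [2, 2, 2, 0, 1, 1, 0], [1, 1, 1, 0, 1, 1, 1]]
  211105154596285 [59, 155, 155, 227, 227, 239, 239] 124935241817 :=
  dec4 0 1 0 _ _ 211105154596287 _ [59, 155, 155, 227, 227, 239, 239] _ (by decide +kernel) nd924

theorem nd926 : Ok 4 Dn4 [[2, 1, 1, 1, 1, 1, 1], [1, 1, 0, 0, 0, 0, 0], [3, 2, 2, 0, 1, 0, 0],
  [2, 1, 1, 1, 1, 0, 0], [1, 0, 0, 0, 1, 0, 0], [3, 2, 2, 0, 2, 1, 0], [4, 2, 2, 1, 3, 1, 1]]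
  281474976710589 [63, 183, 183, 231, 231, 267, 267] 158069283441 :=
  cut4 0 2 1 1 1 _ [[5, 3, 3, 1, 2, 1, 1], [1, 1, 0, 0, 0, 0, 0], [3, 2, 2, 0, 1, 0, 0], [2, 1,
  1, 1, 1, 0, 0], [1, 0, 0, 0, 1, 0, 0], [3, 2, 2, 0, 2, 1, 0], [4, 2, 2, 1, 3, 1, 1]] [[2, 1, 1,
  1, 1, 1, 1], [1, 1, 0, 0, 0, 0, 0], [5, 3, 3, 1, 2, 1, 1], [2, 1, 1, 1, 1, 0, 0], [1, 0, 0, 0,
  1, 0, 0], [3, 2, 2, 0, 2, 1, 0], [4, 2, 2, 1, 3, 1, 1]] _ _ 127053016346 189085550536 _ (by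
  decide +kernel) ok419 ok420

theorem nd927 : Ok 4 Dn4 [[2, 1, 1, 1, 1, 1, 1], [1, 1, 0, 0, 0, 0, 0], [3, 2, 2, 0, 1, 0, 0],
  [2, 1, 1, 1, 1, 0, 0], [1, 0, 0, 0, 1, 0, 0], [3, 2, 2, 0, 2, 1, 0], [3, 2, 2, 1, 2, 1, 1]]
  281474976710589 [63, 183, 183, 231, 231, 267, 267] 160061695590 :=
  cut4 4 6 1 1 1 _ [[2, 1, 1, 1, 1, 1, 1], [1, 1, 0, 0, 0, 0, 0], [3, 2, 2, 0, 1, 0, 0], [2, 1,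
  1, 1, 1, 0, 0], [4, 2, 2, 1, 3, 1, 1], [3, 2, 2, 0, 2, 1, 0], [3, 2, 2, 1, 2, 1, 1]] [[2, 1, 1,
  1, 1, 1, 1], [1, 1, 0, 0, 0, 0, 0], [3, 2, 2, 0, 1, 0, 0], [2, 1, 1, 1, 1, 0, 0], [1, 0, 0, 0,
  1, 0, 0], [3, 2, 2, 0, 2, 1, 0], [4, 2, 2, 1, 3, 1, 1]] _ _ 172016168478 158069283441 _ (by
  decide +kernel) ok418 nd926

theorem nd928 : Ok 4 Dn4 [[2, 1, 1, 1, 1, 1, 1], [1, 1, 0, 0, 0, 0, 0], [3, 2, 2, 0, 1, 0, 0],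
  [2, 1, 1, 1, 1, 0, 0], [1, 0, 0, 0, 1, 0, 0], [3, 2, 2, 0, 2, 1, 0], [3, 2, 2, 1, 2, 1, 1]]
  281474976710077 [59, 155, 155, 227, 227, 239, 239] 160061695590 :=
  dec4 0 9 1 _ _ 281474976710589 _ [63, 183, 183, 231, 231, 267, 267] _ (by decide +kernel) nd927

theorem nd929 : Ok 4 Dn4 [[2, 1, 1, 1, 1, 1, 1], [1, 1, 0, 0, 0, 0, 0], [3, 2, 2, 0, 1, 0, 0],
  [2, 1, 1, 1, 1, 0, 0], [1, 0, 0, 0, 1, 0, 0], [3, 2, 2, 0, 2, 1, 0], [1, 1, 1, 0, 1, 1, 1]]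
  281474976710077 [59, 155, 155, 227, 227, 239, 239] 146492920250 :=
  cut4 3 6 1 1 1 _ [[2, 1, 1, 1, 1, 1, 1], [1, 1, 0, 0, 0, 0, 0], [3, 2, 2, 0, 1, 0, 0], [3, 2,
  2, 1, 2, 1, 1], [1, 0, 0, 0, 1, 0, 0], [3, 2, 2, 0, 2, 1, 0], [1, 1, 1, 0, 1, 1, 1]] [[2, 1, 1,
  1, 1, 1, 1], [1, 1, 0, 0, 0, 0, 0], [3, 2, 2, 0, 1, 0, 0], [2, 1, 1, 1, 1, 0, 0], [1, 0, 0, 0,
  1, 0, 0], [3, 2, 2, 0, 2, 1, 0], [3, 2, 2, 1, 2, 1, 1]] _ _ 132924144909 160061695590 _ (by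
  decide +kernel) ok417 nd928

theorem nd930 : Ok 4 Dn4 [[2, 1, 1, 1, 1, 1, 1], [1, 1, 0, 0, 0, 0, 0], [3, 2, 2, 0, 1, 0, 0],
  [2, 1, 1, 1, 1, 0, 0], [1, 0, 0, 0, 1, 0, 0], [3, 2, 2, 0, 2, 1, 0], [1, 1, 1, 0, 1, 1, 1]]
  211106232532413 [59, 155, 155, 227, 227, 239, 239] 146492920250 :=
  dec4 2 14 0 _ _ 281474976710077 _ [59, 155, 155, 227, 227, 239, 239] _ (by decide +kernel) nd929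

theorem nd931 : Ok 4 Dn4 [[2, 1, 1, 1, 1, 1, 1], [1, 1, 0, 0, 0, 0, 0], [3, 2, 2, 0, 1, 0, 0],
  [2, 1, 1, 1, 1, 0, 0], [1, 0, 0, 0, 1, 0, 0], [3, 2, 2, 0, 2, 1, 0], [1, 1, 1, 0, 1, 1, 1]]
  211105158790589 [59, 155, 155, 227, 227, 239, 239] 146492920250 :=
  dec4 1 14 0 _ _ 211106232532413 _ [59, 155, 155, 227, 227, 239, 239] _ (by decide +kernel) nd930

theorem nd932 : Ok 4 Dn4 [[2, 1, 1, 1, 1, 1, 1], [1, 1, 0, 0, 0, 0, 0], [3, 2, 2, 0, 1, 0, 0],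
  [1, 1, 1, 1, 0, 0, 0], [3, 2, 2, 1, 2, 1, 1], [3, 2, 2, 0, 2, 1, 0], [2, 2, 2, 1, 1, 1, 1]]
  211106232532927 [73, 157, 157, 229, 241, 241, 253] 206460984001 :=
  cut4 3 5 1 1 1 _ [[2, 1, 1, 1, 1, 1, 1], [1, 1, 0, 0, 0, 0, 0], [3, 2, 2, 0, 1, 0, 0], [4, 3,
  3, 1, 2, 1, 0], [3, 2, 2, 1, 2, 1, 1], [3, 2, 2, 0, 2, 1, 0], [2, 2, 2, 1, 1, 1, 1]] [[2, 1, 1,
  1, 1, 1, 1], [1, 1, 0, 0, 0, 0, 0], [3, 2, 2, 0, 1, 0, 0], [1, 1, 1, 1, 0, 0, 0], [3, 2, 2, 1,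
  2, 1, 1], [4, 3, 3, 1, 2, 1, 0], [2, 2, 2, 1, 1, 1, 1]] _ _ 188037905081 213830215569 _ (by
  decide +kernel) ok422 ok423

theorem nd933 : Ok 4 Dn4 [[2, 1, 1, 1, 1, 1, 1], [1, 1, 0, 0, 0, 0, 0], [3, 2, 2, 0, 1, 0, 0],
  [1, 1, 1, 1, 0, 0, 0], [3, 2, 2, 1, 2, 1, 1], [3, 2, 2, 0, 2, 1, 0], [1, 1, 1, 0, 1, 1, 1]]
  211106232532927 [73, 157, 157, 229, 241, 241, 253] 174101337859 :=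
  cut4 3 6 1 1 1 _ [[2, 1, 1, 1, 1, 1, 1], [1, 1, 0, 0, 0, 0, 0], [3, 2, 2, 0, 1, 0, 0], [2, 2,
  2, 1, 1, 1, 1], [3, 2, 2, 1, 2, 1, 1], [3, 2, 2, 0, 2, 1, 0], [1, 1, 1, 0, 1, 1, 1]] [[2, 1, 1,
  1, 1, 1, 1], [1, 1, 0, 0, 0, 0, 0], [3, 2, 2, 0, 1, 0, 0], [1, 1, 1, 1, 0, 0, 0], [3, 2, 2, 1,
  2, 1, 1], [3, 2, 2, 0, 2, 1, 0], [2, 2, 2, 1, 1, 1, 1]] _ _ 125561868645 206460984001 _ (by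
  decide +kernel) ok421 nd932

theorem nd934 : Ok 4 Dn4 [[2, 1, 1, 1, 1, 1, 1], [1, 1, 0, 0, 0, 0, 0], [3, 2, 2, 0, 1, 0, 0],
  [1, 1, 1, 1, 0, 0, 0], [3, 2, 2, 1, 2, 1, 1], [3, 2, 2, 0, 2, 1, 0], [1, 1, 1, 0, 1, 1, 1]]
  211106232532415 [73, 157, 157, 229, 241, 241, 253] 174101337859 :=
  dec4 0 9 0 _ _ 211106232532927 _ [73, 157, 157, 229, 241, 241, 253] _ (by decide +kernel) nd933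

theorem nd935 : Ok 4 Dn4 [[2, 1, 1, 1, 1, 1, 1], [1, 1, 0, 0, 0, 0, 0], [3, 2, 2, 0, 1, 0, 0],
  [1, 1, 1, 1, 0, 0, 0], [2, 1, 1, 1, 1, 0, 0], [3, 2, 2, 0, 2, 1, 0], [1, 1, 1, 0, 1, 1, 1]]
  211106232532415 [73, 157, 157, 229, 241, 241, 253] 126297933144 :=
  cut4 4 6 1 1 1 _ [[2, 1, 1, 1, 1, 1, 1], [1, 1, 0, 0, 0, 0, 0], [3, 2, 2, 0, 1, 0, 0], [1, 1,
  1, 1, 0, 0, 0], [3, 2, 2, 1, 2, 1, 1], [3, 2, 2, 0, 2, 1, 0], [1, 1, 1, 0, 1, 1, 1]] [[2, 1, 1,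
  1, 1, 1, 1], [1, 1, 0, 0, 0, 0, 0], [3, 2, 2, 0, 1, 0, 0], [1, 1, 1, 1, 0, 0, 0], [2, 1, 1, 1,
  1, 0, 0], [3, 2, 2, 0, 2, 1, 0], [3, 2, 2, 1, 2, 1, 1]] _ _ 174101337859 78494528429 _ (by
  decide +kernel) nd934 ok424

theorem nd936 : Ok 4 Dn4 [[2, 1, 1, 1, 1, 1, 1], [1, 1, 0, 0, 0, 0, 0], [3, 2, 2, 0, 1, 0, 0],
  [1, 1, 1, 1, 0, 0, 0], [2, 1, 1, 1, 1, 0, 0], [3, 2, 2, 0, 2, 1, 0], [1, 1, 1, 0, 1, 1, 1]]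
  211105158790591 [59, 155, 155, 227, 227, 239, 239] 126297933144 :=
  dec4 1 14 1 _ _ 211106232532415 _ [73, 157, 157, 229, 241, 241, 253] _ (by decide +kernel) nd935

theorem nd937 : Ok 4 Dn4 [[2, 1, 1, 1, 1, 1, 1], [1, 1, 0, 0, 0, 0, 0], [3, 2, 2, 0, 1, 0, 0],
  [1, 1, 1, 1, 0, 0, 0], [2, 1, 1, 1, 1, 0, 0], [3, 2, 2, 0, 2, 1, 0], [1, 1, 1, 0, 1, 1, 1]]
  211105158790589 [59, 155, 155, 227, 227, 239, 239] 126297933144 :=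
  dec4 0 1 0 _ _ 211105158790591 _ [59, 155, 155, 227, 227, 239, 239] _ (by decide +kernel) nd936

theorem nd938 : Ok 4 Dn4 [[2, 1, 1, 1, 1, 1, 1], [1, 1, 0, 0, 0, 0, 0], [3, 2, 2, 0, 1, 0, 0],
  [1, 1, 1, 1, 0, 0, 0], [1, 0, 0, 0, 1, 0, 0], [3, 2, 2, 0, 2, 1, 0], [1, 1, 1, 0, 1, 1, 1]]
  211105158790589 [59, 155, 155, 227, 227, 239, 239] 139761257882 :=
  cut4 3 4 1 1 1 _ [[2, 1, 1, 1, 1, 1, 1], [1, 1, 0, 0, 0, 0, 0], [3, 2, 2, 0, 1, 0, 0], [2, 1,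
  1, 1, 1, 0, 0], [1, 0, 0, 0, 1, 0, 0], [3, 2, 2, 0, 2, 1, 0], [1, 1, 1, 0, 1, 1, 1]] [[2, 1, 1,
  1, 1, 1, 1], [1, 1, 0, 0, 0, 0, 0], [3, 2, 2, 0, 1, 0, 0], [1, 1, 1, 1, 0, 0, 0], [2, 1, 1, 1,
  1, 0, 0], [3, 2, 2, 0, 2, 1, 0], [1, 1, 1, 0, 1, 1, 1]] _ _ 146492920250 126297933144 _ (by
  decide +kernel) nd931 nd937

theorem nd939 : Ok 4 Dn4 [[2, 1, 1, 1, 1, 1, 1], [1, 1, 0, 0, 0, 0, 0], [3, 2, 2, 0, 1, 0, 0],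
  [1, 1, 1, 1, 0, 0, 0], [1, 0, 0, 0, 1, 0, 0], [3, 2, 2, 0, 2, 1, 0], [1, 1, 1, 0, 1, 1, 1]]
  211105154596285 [59, 155, 155, 227, 227, 239, 239] 139761257882 :=
  dec4 1 6 0 _ _ 211105158790589 _ [59, 155, 155, 227, 227, 239, 239] _ (by decide +kernel) nd938

theorem nd940 : Ok 4 Dn4 [[2, 1, 1, 1, 1, 1, 1], [1, 1, 0, 0, 0, 0, 0], [3, 2, 2, 0, 1, 0, 0],
  [1, 1, 1, 1, 0, 0, 0], [1, 0, 0, 0, 1, 0, 0], [2, 2, 2, 0, 1, 1, 0], [1, 1, 1, 0, 1, 1, 1]]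
  211105154596285 [59, 155, 155, 227, 227, 239, 239] 136796054669 :=
  cut4 4 5 1 1 1 _ [[2, 1, 1, 1, 1, 1, 1], [1, 1, 0, 0, 0, 0, 0], [3, 2, 2, 0, 1, 0, 0], [1, 1,
  1, 1, 0, 0, 0], [3, 2, 2, 0, 2, 1, 0], [2, 2, 2, 0, 1, 1, 0], [1, 1, 1, 0, 1, 1, 1]] [[2, 1, 1,
  1, 1, 1, 1], [1, 1, 0, 0, 0, 0, 0], [3, 2, 2, 0, 1, 0, 0], [1, 1, 1, 1, 0, 0, 0], [1, 0, 0, 0,
  1, 0, 0], [3, 2, 2, 0, 2, 1, 0], [1, 1, 1, 0, 1, 1, 1]] _ _ 124935241817 139761257882 _ (by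
  decide +kernel) nd925 nd939

theorem nd941 : Ok 4 Dn4 [[2, 1, 1, 1, 1, 1, 1], [1, 1, 0, 0, 0, 0, 0], [3, 2, 2, 0, 1, 0, 0],
  [1, 1, 1, 1, 0, 0, 0], [1, 0, 0, 0, 1, 0, 0], [2, 2, 2, 0, 1, 1, 0], [1, 1, 1, 0, 1, 1, 1]]
  211105154579901 [45, 153, 153, 225, 225, 225, 225] 136796054669 :=
  dec4 0 14 1 _ _ 211105154596285 _ [59, 155, 155, 227, 227, 239, 239] _ (by decide +kernel) nd940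

theorem nd942 : Ok 4 Dn4 [[1, 0, 0, 0, 1, 1, 1], [1, 1, 0, 0, 0, 0, 0], [3, 2, 2, 0, 1, 0, 0],
  [1, 1, 1, 1, 0, 0, 0], [1, 0, 0, 0, 1, 0, 0], [2, 2, 2, 0, 1, 1, 0], [1, 1, 1, 0, 1, 1, 1]]
  211105154579901 [45, 153, 153, 225, 225, 225, 225] 117562087474 :=
  cut4 0 3 1 1 1 _ [[2, 1, 1, 1, 1, 1, 1], [1, 1, 0, 0, 0, 0, 0], [3, 2, 2, 0, 1, 0, 0], [1, 1,
  1, 1, 0, 0, 0], [1, 0, 0, 0, 1, 0, 0], [2, 2, 2, 0, 1, 1, 0], [1, 1, 1, 0, 1, 1, 1]] [[1, 0, 0,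
  0, 1, 1, 1], [1, 1, 0, 0, 0, 0, 0], [3, 2, 2, 0, 1, 0, 0], [2, 1, 1, 1, 1, 1, 1], [1, 0, 0, 0,
  1, 0, 0], [2, 2, 2, 0, 1, 1, 0], [1, 1, 1, 0, 1, 1, 1]] _ _ 136796054669 98328120278 _ (by
  decide +kernel) nd941 ok425

theorem nd943 : Ok 4 Dn4 [[1, 0, 0, 0, 1, 1, 1], [1, 1, 0, 0, 0, 0, 0], [3, 2, 2, 0, 1, 0, 0],
  [1, 1, 1, 1, 0, 0, 0], [1, 0, 0, 0, 1, 0, 0], [2, 2, 2, 0, 1, 1, 0], [1, 1, 1, 0, 1, 1, 1]]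
  210830276672957 [45, 153, 153, 225, 225, 225, 225] 117562087474 :=
  dec4 2 6 0 _ _ 211105154579901 _ [45, 153, 153, 225, 225, 225, 225] _ (by decide +kernel) nd942

theorem nd944 : Ok 4 Dn4 [[1, 0, 0, 0, 1, 1, 1], [1, 1, 0, 0, 0, 0, 0], [1, 1, 1, 0, 0, 0, 0],
  [1, 1, 1, 1, 0, 0, 0], [1, 0, 0, 0, 1, 0, 0], [2, 2, 2, 0, 1, 1, 0], [1, 1, 1, 0, 1, 1, 1]]
  210830276672957 [45, 153, 153, 225, 225, 225, 225] 136360271373 :=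
  cut4 2 4 2 1 1 _ [[1, 0, 0, 0, 1, 1, 1], [1, 1, 0, 0, 0, 0, 0], [3, 2, 2, 0, 1, 0, 0], [1, 1,
  1, 1, 0, 0, 0], [1, 0, 0, 0, 1, 0, 0], [2, 2, 2, 0, 1, 1, 0], [1, 1, 1, 0, 1, 1, 1]] [[1, 0, 0,
  0, 1, 1, 1], [1, 1, 0, 0, 0, 0, 0], [1, 1, 1, 0, 0, 0, 0], [1, 1, 1, 1, 0, 0, 0], [3, 2, 2, 0,
  1, 0, 0], [2, 2, 2, 0, 1, 1, 0], [1, 1, 1, 0, 1, 1, 1]] _ _ 117562087474 192754823070 _ (by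
  decide +kernel) nd943 ok426

theorem nd945 : Ok 4 Dn4 [[1, 0, 0, 0, 1, 1, 1], [1, 1, 0, 0, 0, 0, 0], [1, 1, 1, 0, 0, 0, 0],
  [1, 1, 1, 1, 0, 0, 0], [1, 0, 0, 0, 1, 0, 0], [2, 2, 2, 0, 1, 1, 0], [1, 1, 1, 0, 1, 1, 1]]
  70092788317629 [44, 152, 152, 224, 218, 218, 224] 136360271373 :=
  dec4 2 15 1 _ _ 210830276672957 _ [45, 153, 153, 225, 225, 225, 225] _ (by decide +kernel) nd944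

theorem nd946 : Ok 4 Dn4 [[1, 0, 0, 0, 1, 1, 1], [1, 1, 0, 0, 0, 0, 0], [1, 1, 1, 0, 0, 0, 0],
  [1, 1, 1, 1, 0, 0, 0], [1, 0, 0, 0, 1, 0, 0], [2, 2, 2, 0, 1, 1, 0], [1, 1, 1, 0, 1, 1, 1]]
  34908416228797 [42, 138, 150, 222, 204, 204, 222] 136360271373 :=
  dec4 2 13 1 _ _ 70092788317629 _ [44, 152, 152, 224, 218, 218, 224] _ (by decide +kernel) nd945

theorem nd947 : Ok 4 Dn4 [[1, 0, 0, 0, 1, 1, 1], [1, 1, 0, 0, 0, 0, 0], [1, 1, 1, 0, 0, 0, 0],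
  [1, 1, 1, 1, 0, 0, 0], [1, 0, 0, 0, 1, 0, 0], [2, 2, 2, 0, 1, 1, 0], [1, 1, 1, 0, 1, 1, 1]]
  26112323206589 [40, 136, 136, 220, 190, 190, 220] 136360271373 :=
  dec4 2 11 1 _ _ 34908416228797 _ [42, 138, 150, 222, 204, 204, 222] _ (by decide +kernel) nd946

theorem nd948 : Ok 4 Dn4 [[1, 0, 0, 0, 1, 1, 1], [1, 1, 0, 0, 0, 0, 0], [1, 1, 1, 0, 0, 0, 0],
  [1, 1, 1, 1, 0, 0, 0], [1, 0, 0, 0, 1, 0, 0], [2, 2, 2, 0, 1, 1, 0], [1, 1, 1, 0, 1, 1, 1]]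
  25562567392701 [38, 134, 134, 206, 176, 176, 218] 136360271373 :=
  dec4 2 7 1 _ _ 26112323206589 _ [40, 136, 136, 220, 190, 190, 220] _ (by decide +kernel) nd947

theorem nd949 : Ok 4 Dn4 [[1, 0, 0, 0, 1, 1, 1], [1, 1, 0, 0, 0, 0, 0], [1, 1, 1, 0, 0, 0, 0],
  [1, 1, 1, 1, 0, 0, 0], [1, 0, 0, 0, 1, 0, 0], [2, 2, 2, 0, 1, 1, 0], [1, 1, 1, 0, 1, 1, 1]]
  25425128439229 [34, 106, 130, 178, 148, 148, 214] 136360271373 :=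
  dec4 2 5 1 _ _ 25562567392701 _ [38, 134, 134, 206, 176, 176, 218] _ (by decide +kernel) nd948

theorem nd950 : Ok 4 Dn4 [[1, 0, 0, 0, 1, 1, 1], [1, 1, 0, 0, 0, 0, 0], [1, 1, 1, 0, 0, 0, 0],
  [1, 1, 1, 1, 0, 0, 0], [1, 0, 0, 0, 1, 0, 0], [2, 2, 2, 0, 1, 1, 0], [1, 1, 1, 0, 1, 1, 1]]
  25390768700861 [30, 102, 102, 150, 120, 120, 210] 136360271373 :=
  dec4 2 3 1 _ _ 25425128439229 _ [34, 106, 130, 178, 148, 148, 214] _ (by decide +kernel) nd949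

theorem nd951 : Ok 4 Dn4 [[1, 0, 0, 0, 1, 1, 1], [1, 1, 0, 0, 0, 0, 0], [1, 1, 1, 0, 0, 0, 0],
  [1, 1, 1, 1, 0, 0, 0], [1, 0, 0, 0, 1, 0, 0], [0, 0, 0, 0, 1, 1, 0], [1, 1, 1, 0, 1, 1, 1]]
  25390768700861 [30, 102, 102, 150, 120, 120, 210] 277663812352 :=
  cut4 2 5 2 1 1 _ [[1, 0, 0, 0, 1, 1, 1], [1, 1, 0, 0, 0, 0, 0], [2, 2, 2, 0, 1, 1, 0], [1, 1,
  1, 1, 0, 0, 0], [1, 0, 0, 0, 1, 0, 0], [0, 0, 0, 0, 1, 1, 0], [1, 1, 1, 0, 1, 1, 1]] [[1, 0, 0,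
  0, 1, 1, 1], [1, 1, 0, 0, 0, 0, 0], [1, 1, 1, 0, 0, 0, 0], [1, 1, 1, 1, 0, 0, 0], [1, 0, 0, 0,
  1, 0, 0], [2, 2, 2, 0, 1, 1, 0], [1, 1, 1, 0, 1, 1, 1]] _ _ 324764992678 136360271373 _ (by
  decide +kernel) nd920 nd950

theorem nd952 : Ok 4 Dn4 [[1, 0, 0, 0, 1, 1, 1], [1, 1, 0, 0, 0, 0, 0], [1, 1, 1, 0, 0, 0, 0],
  [1, 1, 1, 1, 0, 0, 0], [1, 0, 0, 0, 1, 0, 0], [0, 0, 0, 0, 1, 1, 0], [1, 1, 1, 0, 1, 1, 1]]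
  25388621217213 [29, 101, 101, 149, 113, 119, 203] 277663812352 :=
  dec4 1 15 1 _ _ 25390768700861 _ [30, 102, 102, 150, 120, 120, 210] _ (by decide +kernel) nd951

theorem nd953 : Ok 4 Dn4 [[1, 0, 0, 0, 1, 1, 1], [1, 1, 0, 0, 0, 0, 0], [1, 1, 1, 0, 0, 0, 0],
  [1, 1, 1, 1, 0, 0, 0], [1, 0, 0, 0, 1, 0, 0], [0, 0, 0, 0, 1, 1, 0], [1, 1, 1, 0, 1, 1, 1]]
  25388084346301 [27, 87, 99, 147, 99, 117, 189] 277663812352 :=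
  dec4 1 13 1 _ _ 25388621217213 _ [29, 101, 101, 149, 113, 119, 203] _ (by decide +kernel) nd952

theorem nd954 : Ok 4 Dn4 [[1, 0, 0, 0, 1, 1, 1], [1, 1, 0, 0, 0, 0, 0], [1, 1, 1, 0, 0, 0, 0],
  [1, 1, 1, 1, 0, 0, 0], [1, 0, 0, 0, 1, 0, 0], [0, 0, 0, 0, 1, 1, 0], [1, 1, 1, 0, 1, 1, 1]]
  25387950128573 [25, 85, 85, 145, 85, 115, 175] 277663812352 :=
  dec4 1 11 1 _ _ 25388084346301 _ [27, 87, 99, 147, 99, 117, 189] _ (by decide +kernel) nd953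

theorem nd955 : Ok 4 Dn4 [[1, 0, 0, 0, 1, 1, 1], [1, 1, 0, 0, 0, 0, 0], [1, 1, 1, 0, 0, 0, 0],
  [1, 1, 1, 1, 0, 0, 0], [1, 0, 0, 0, 1, 0, 0], [0, 0, 0, 0, 1, 1, 0], [1, 1, 1, 0, 1, 1, 1]]
  25387941739965 [23, 83, 83, 131, 71, 113, 161] 277663812352 :=
  dec4 1 7 1 _ _ 25387950128573 _ [25, 85, 85, 145, 85, 115, 175] _ (by decide +kernel) nd954

theorem nd956 : Ok 4 Dn4 [[1, 0, 0, 0, 1, 1, 1], [1, 1, 0, 0, 0, 0, 0], [1, 1, 1, 0, 0, 0, 0],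
  [1, 1, 1, 1, 0, 0, 0], [1, 0, 0, 0, 1, 0, 0], [0, 0, 0, 0, 1, 1, 0], [1, 1, 1, 0, 1, 1, 1]]
  25387939642813 [19, 55, 79, 103, 43, 109, 133] 277663812352 :=
  dec4 1 5 1 _ _ 25387941739965 _ [23, 83, 83, 131, 71, 113, 161] _ (by decide +kernel) nd955

theorem nd957 : Ok 4 Dn4 [[1, 0, 0, 0, 1, 1, 1], [1, 1, 0, 0, 0, 0, 0], [1, 1, 1, 0, 0, 0, 0],
  [1, 1, 1, 1, 0, 0, 0], [1, 0, 0, 0, 1, 0, 0], [0, 0, 0, 0, 1, 1, 0], [1, 1, 1, 0, 1, 1, 1]]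
  25387939118525 [15, 51, 51, 75, 15, 105, 105] 277663812352 :=
  dec4 1 3 1 _ _ 25387939642813 _ [19, 55, 79, 103, 43, 109, 133] _ (by decide +kernel) nd956

theorem nd958 : Ok 4 Dn4 [[1, 0, 0, 0, 1, 1, 1], [1, 1, 0, 0, 0, 0, 0], [1, 1, 1, 0, 0, 0, 0],
  [1, 1, 1, 1, 0, 0, 0], [1, 0, 0, 0, 1, 0, 0], [0, 0, 0, 0, 1, 1, 0], [1, 1, 1, 0, 1, 1, 1]]
  25387939085757 [14, 50, 50, 74, 14, 98, 98] 277663812352 :=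
  dec4 0 15 1 _ _ 25387939118525 _ [15, 51, 51, 75, 15, 105, 105] _ (by decide +kernel) nd957

theorem nd959 : Ok 4 Dn4 [[1, 0, 0, 0, 1, 1, 1], [1, 1, 0, 0, 0, 0, 0], [1, 1, 1, 0, 0, 0, 0],
  [1, 1, 1, 1, 0, 0, 0], [1, 0, 0, 0, 1, 0, 0], [0, 0, 0, 0, 1, 1, 0], [1, 1, 1, 0, 1, 1, 1]]
  25387939077565 [12, 36, 48, 72, 12, 84, 84] 277663812352 :=
  dec4 0 13 1 _ _ 25387939085757 _ [14, 50, 50, 74, 14, 98, 98] _ (by decide +kernel) nd958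

theorem nd960 : Ok 4 Dn4 [[1, 0, 0, 0, 1, 1, 1], [1, 1, 0, 0, 0, 0, 0], [1, 1, 1, 0, 0, 0, 0],
  [1, 1, 1, 1, 0, 0, 0], [1, 0, 0, 0, 1, 0, 0], [0, 0, 0, 0, 1, 1, 0], [1, 1, 1, 0, 1, 1, 1]]
  25387939075517 [10, 34, 34, 70, 10, 70, 70] 277663812352 :=
  dec4 0 11 1 _ _ 25387939077565 _ [12, 36, 48, 72, 12, 84, 84] _ (by decide +kernel) nd959

theorem nd961 : Ok 4 Dn4 [[1, 0, 0, 0, 1, 1, 1], [1, 1, 0, 0, 0, 0, 0], [1, 1, 1, 0, 0, 0, 0],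
  [1, 1, 1, 1, 0, 0, 0], [1, 0, 0, 0, 1, 0, 0], [0, 0, 0, 0, 1, 1, 0], [1, 1, 1, 0, 1, 1, 1]]
  25387939075389 [8, 32, 32, 56, 8, 56, 56] 277663812352 :=
  dec4 0 7 1 _ _ 25387939075517 _ [10, 34, 34, 70, 10, 70, 70] _ (by decide +kernel) nd960

theorem nd962 : Ok 4 Dn4 [[1, 0, 0, 0, 1, 1, 1], [1, 1, 0, 0, 0, 0, 0], [1, 1, 1, 0, 0, 0, 0],
  [1, 1, 1, 1, 0, 0, 0], [1, 0, 0, 0, 1, 0, 0], [0, 0, 0, 0, 1, 1, 0], [1, 1, 1, 0, 1, 1, 1]]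
  25387939075357 [4, 4, 28, 28, 4, 28, 28] 277663812352 :=
  dec4 0 5 1 _ _ 25387939075389 _ [8, 32, 32, 56, 8, 56, 56] _ (by decide +kernel) nd961

theorem nd963 : Ok 4 Dn4 [[1, 0, 0, 0, 1, 1, 1], [1, 1, 0, 0, 0, 0, 0], [1, 1, 1, 0, 0, 0, 0],
  [1, 1, 1, 1, 0, 0, 0], [1, 0, 0, 0, 1, 0, 0], [0, 0, 0, 0, 1, 1, 0], [1, 1, 1, 0, 1, 1, 1]]
  25387939075349 [0, 0, 0, 0, 0, 0, 0] 277663812352 :=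
  dec4 0 3 1 _ _ 25387939075357 _ [4, 4, 28, 28, 4, 28, 28] _ (by decide +kernel) nd962

end Pool.Agent.Work.MP_122e00_nt.Sharp.Cx

end

section

set_option autoImplicit false

set_option maxRecDepth 100000

/-!
# The certificate: data
-/

namespace Pool.Agent.Work.MP_122e00_nt.Sharp.Cx

theorem ok427 : Ok 4 Dn4 [[2, 1, 1, 0, 1, 1, 0], [1, 1, 0, 0, 1, 1, 0], [3, 2, 2, 0, 2, 1, 0],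
  [2, 1, 1, 1, 2, 2, 1], [1, 0, 0, 0, 1, 0, 0], [0, 0, 0, 0, 1, 1, 0], [1, 0, 0, 0, 1, 1, 1]]
  140186658783165 [34, 130, 130, 154, 124, 148, 238] 63242976709 :=
  run4 tr427 _ _ _ _ dt427

theorem ok428 : Ok 4 Dn4 [[2, 1, 1, 0, 2, 2, 0], [1, 1, 0, 0, 1, 1, 0], [3, 2, 2, 0, 4, 3, 0],
  [2, 1, 1, 1, 2, 1, 0], [1, 0, 0, 0, 1, 0, 0], [0, 0, 0, 0, 1, 1, 0], [2, 1, 1, 1, 2, 2, 1]]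
  140736414613437 [48, 132, 132, 156, 126, 162, 252] 107963774999 :=
  run4 tr428 _ _ _ _ dt428

theorem ok429 : Ok 4 Dn4 [[2, 1, 1, 0, 2, 2, 0], [1, 1, 0, 0, 1, 1, 0], [3, 2, 2, 0, 4, 3, 0],
  [1, 1, 1, 1, 1, 1, 0], [2, 1, 1, 1, 2, 1, 0], [0, 0, 0, 0, 1, 1, 0], [2, 1, 1, 1, 2, 2, 1]]
  140736414613437 [48, 132, 132, 156, 126, 162, 252] 388197456992 :=
  run4 tr429 _ _ _ _ dt429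

theorem ok430 : Ok 4 Dn4 [[2, 1, 1, 0, 2, 2, 0], [1, 1, 0, 0, 1, 1, 0], [3, 2, 2, 0, 2, 1, 0],
  [1, 1, 1, 1, 1, 1, 0], [1, 0, 0, 0, 1, 0, 0], [3, 2, 2, 0, 4, 3, 0], [2, 1, 1, 1, 2, 2, 1]]
  140186658799549 [48, 132, 132, 156, 126, 162, 252] 172220436286 :=
  run4 tr430 _ _ _ _ dt430

theorem ok431 : Ok 4 Dn4 [[2, 1, 1, 0, 1, 1, 0], [1, 1, 0, 0, 1, 1, 0], [3, 2, 2, 0, 2, 1, 0],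
  [1, 1, 1, 1, 1, 1, 0], [1, 0, 0, 0, 1, 0, 0], [2, 1, 1, 0, 2, 2, 0], [2, 1, 1, 1, 2, 2, 1]]
  140186658799549 [48, 132, 132, 156, 126, 162, 252] 258953444614 :=
  run4 tr431 _ _ _ _ dt431

theorem ok432 : Ok 4 Dn4 [[2, 1, 1, 0, 2, 2, 0], [1, 1, 0, 0, 1, 1, 0], [3, 2, 2, 0, 2, 2, 1],
  [1, 1, 1, 1, 1, 1, 0], [3, 2, 2, 0, 2, 1, 0], [0, 0, 0, 0, 1, 1, 0], [1, 0, 0, 0, 1, 1, 1]]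
  140186658783167 [30, 102, 102, 150, 120, 120, 210] 283451360733 :=
  run4 tr432 _ _ _ _ dt432

theorem ok433 : Ok 4 Dn4 [[2, 1, 1, 0, 1, 1, 0], [1, 1, 0, 0, 1, 1, 0], [3, 2, 2, 0, 2, 2, 1],
  [1, 1, 1, 1, 1, 1, 0], [3, 2, 2, 0, 2, 1, 0], [2, 1, 1, 0, 2, 2, 0], [1, 0, 0, 0, 1, 1, 1]]
  140186658783167 [30, 102, 102, 150, 120, 120, 210] 531243293567 :=
  run4 tr433 _ _ _ _ dt433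

theorem ok434 : Ok 4 Dn4 [[2, 1, 1, 0, 1, 1, 0], [1, 1, 0, 0, 1, 1, 0], [2, 2, 2, 0, 1, 1, 0],
  [1, 1, 1, 1, 1, 1, 0], [3, 2, 2, 0, 2, 1, 0], [0, 0, 0, 0, 1, 1, 0], [3, 2, 2, 0, 2, 2, 1]]
  140186654588863 [30, 102, 102, 150, 120, 120, 210] 115035431929 :=
  run4 tr434 _ _ _ _ dt434

theorem ok435 : Ok 4 Dn4 [[2, 1, 1, 0, 1, 1, 0], [1, 1, 0, 0, 0, 0, 0], [3, 2, 2, 0, 2, 1, 0],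
  [2, 1, 1, 1, 2, 2, 1], [1, 0, 0, 0, 1, 0, 0], [1, 1, 0, 0, 1, 1, 0], [1, 0, 0, 0, 1, 1, 1]]
  281439543214013 [39, 135, 147, 171, 159, 183, 243] 108037933851 :=
  run4 tr435 _ _ _ _ dt435

theorem ok436 : Ok 4 Dn4 [[2, 1, 1, 0, 1, 1, 0], [1, 1, 0, 0, 0, 0, 0], [3, 2, 2, 0, 2, 1, 0],
  [2, 1, 1, 1, 2, 1, 0], [1, 0, 0, 0, 1, 0, 0], [1, 1, 0, 0, 1, 1, 0], [2, 1, 1, 1, 2, 2, 1]]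
  281439543230397 [53, 137, 149, 173, 161, 197, 257] 157656529999 :=
  run4 tr436 _ _ _ _ dt436

theorem ok437 : Ok 4 Dn4 [[2, 1, 1, 0, 1, 1, 0], [1, 1, 0, 0, 0, 0, 0], [3, 2, 2, 0, 2, 1, 0],
  [1, 1, 1, 1, 1, 1, 0], [2, 1, 1, 1, 2, 1, 0], [1, 1, 0, 0, 1, 1, 0], [2, 1, 1, 1, 2, 2, 1]]
  281439543230397 [53, 137, 149, 173, 161, 197, 257] 530545092198 :=
  run4 tr437 _ _ _ _ dt437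

theorem ok438 : Ok 4 Dn4 [[2, 1, 1, 0, 1, 1, 0], [1, 1, 0, 0, 0, 0, 0], [2, 2, 2, 0, 1, 1, 0],
  [1, 1, 1, 1, 1, 1, 0], [3, 2, 2, 0, 2, 1, 0], [1, 1, 0, 0, 1, 1, 0], [1, 0, 0, 0, 1, 1, 1]]
  281439539019197 [35, 107, 119, 167, 155, 155, 215] 496150411682 :=
  run4 tr438 _ _ _ _ dt438

theorem ok439 : Ok 4 Dn4 [[2, 1, 1, 0, 0, 0, 0], [1, 1, 0, 0, 0, 0, 0], [3, 2, 2, 0, 2, 1, 0],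
  [2, 1, 1, 1, 2, 2, 1], [1, 0, 0, 0, 1, 0, 0], [2, 1, 1, 0, 1, 1, 0], [1, 0, 0, 0, 1, 1, 1]]
  281302104260541 [41, 149, 149, 173, 173, 197, 245] 83149115526 :=
  run4 tr439 _ _ _ _ dt439

theorem ok440 : Ok 4 Dn4 [[4, 2, 2, 1, 2, 1, 0], [1, 1, 0, 0, 0, 0, 0], [3, 2, 2, 0, 2, 1, 0],
  [2, 1, 1, 1, 2, 1, 0], [1, 0, 0, 0, 1, 0, 0], [2, 1, 1, 0, 1, 1, 0], [2, 1, 1, 1, 2, 2, 1]]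
  281439543230397 [55, 151, 151, 175, 175, 211, 259] 163016545906 :=
  run4 tr440 _ _ _ _ dt440

theorem ok441 : Ok 4 Dn4 [[4, 2, 2, 1, 2, 1, 0], [1, 1, 0, 0, 0, 0, 0], [3, 2, 2, 0, 2, 1, 0],
  [1, 1, 1, 1, 1, 1, 0], [2, 1, 1, 1, 2, 1, 0], [2, 1, 1, 0, 1, 1, 0], [2, 1, 1, 1, 2, 2, 1]]
  281439543230397 [55, 151, 151, 175, 175, 211, 259] 519557483072 :=
  run4 tr441 _ _ _ _ dt441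

theorem ok442 : Ok 4 Dn4 [[3, 2, 2, 1, 1, 1, 0], [1, 1, 0, 0, 0, 0, 0], [3, 2, 2, 0, 2, 1, 0],
  [1, 1, 1, 1, 1, 1, 0], [4, 2, 2, 1, 2, 1, 0], [2, 1, 1, 0, 1, 1, 0], [2, 1, 1, 1, 2, 2, 1]]
  281439543230397 [55, 151, 151, 175, 175, 211, 259] 561363111331 :=
  run4 tr442 _ _ _ _ dt442

theorem ok443 : Ok 4 Dn4 [[5, 2, 2, 1, 3, 2, 1], [1, 1, 0, 0, 0, 0, 0], [3, 2, 2, 0, 2, 1, 0],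
  [4, 2, 2, 1, 2, 1, 0], [1, 0, 0, 0, 1, 0, 0], [2, 1, 1, 0, 1, 1, 0], [2, 1, 1, 1, 2, 2, 1]]
  281440616972221 [55, 151, 151, 175, 175, 211, 259] 144850281620 :=
  run4 tr443 _ _ _ _ dt443

theorem ok444 : Ok 4 Dn4 [[4, 2, 2, 1, 2, 2, 1], [1, 1, 0, 0, 0, 0, 0], [3, 2, 2, 0, 2, 1, 0],
  [4, 2, 2, 1, 2, 1, 0], [5, 2, 2, 1, 3, 2, 1], [2, 1, 1, 0, 1, 1, 0], [2, 1, 1, 1, 2, 2, 1]]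
  281440616972221 [55, 151, 151, 175, 175, 211, 259] 679190328703 :=
  run4 tr444 _ _ _ _ dt444

theorem ok445 : Ok 4 Dn4 [[2, 1, 1, 0, 0, 0, 0], [1, 1, 0, 0, 0, 0, 0], [3, 2, 2, 0, 2, 1, 0],
  [4, 2, 2, 1, 2, 1, 0], [1, 0, 0, 0, 1, 0, 0], [2, 1, 1, 0, 1, 1, 0], [4, 2, 2, 1, 2, 2, 1]]
  281303178018749 [55, 151, 151, 175, 175, 211, 259] 82476205263 :=
  run4 tr445 _ _ _ _ dt445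

theorem ok446 : Ok 4 Dn4 [[2, 1, 1, 0, 0, 0, 0], [1, 1, 0, 0, 0, 0, 0], [3, 2, 2, 0, 2, 1, 0],
  [3, 2, 2, 1, 1, 1, 0], [4, 2, 2, 1, 2, 1, 0], [2, 1, 1, 0, 1, 1, 0], [2, 1, 1, 1, 2, 2, 1]]
  281302104276925 [55, 151, 151, 175, 175, 211, 259] 255922397559 :=
  run4 tr446 _ _ _ _ dt446

theorem ok447 : Ok 4 Dn4 [[2, 1, 1, 0, 0, 0, 0], [1, 1, 0, 0, 0, 0, 0], [3, 2, 2, 0, 2, 2, 1],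
  [2, 1, 1, 1, 2, 2, 1], [3, 2, 2, 0, 2, 1, 0], [2, 1, 1, 0, 1, 1, 0], [1, 0, 0, 0, 1, 1, 1]]
  281302104260543 [37, 121, 121, 169, 169, 169, 217] 547270395833 :=
  run4 tr447 _ _ _ _ dt447

theorem ok448 : Ok 4 Dn4 [[3, 2, 2, 1, 1, 1, 0], [1, 1, 0, 0, 0, 0, 0], [3, 2, 2, 0, 2, 2, 1],
  [1, 1, 1, 1, 1, 1, 0], [3, 2, 2, 0, 2, 1, 0], [2, 1, 1, 0, 1, 1, 0], [2, 1, 1, 1, 2, 2, 1]]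
  281303178018751 [65, 125, 125, 173, 185, 185, 245] 1057635654599 :=
  run4 tr448 _ _ _ _ dt448

theorem ok449 : Ok 4 Dn4 [[2, 1, 1, 0, 0, 0, 0], [1, 1, 0, 0, 0, 0, 0], [3, 2, 2, 0, 2, 2, 1],
  [3, 2, 2, 1, 1, 1, 0], [3, 2, 2, 0, 2, 1, 0], [2, 1, 1, 0, 1, 1, 0], [2, 1, 1, 1, 2, 2, 1]]
  281303178018751 [65, 125, 125, 173, 185, 185, 245] 552032938010 :=
  run4 tr449 _ _ _ _ dt449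

theorem ok450 : Ok 4 Dn4 [[2, 1, 1, 0, 0, 0, 0], [1, 1, 0, 0, 0, 0, 0], [2, 2, 2, 0, 1, 1, 0],
  [1, 1, 1, 1, 1, 1, 0], [3, 2, 2, 0, 2, 1, 0], [2, 1, 1, 0, 1, 1, 0], [3, 2, 2, 0, 2, 2, 1]]
  281302100066239 [37, 121, 121, 169, 169, 169, 217] 79850206233 :=
  run4 tr450 _ _ _ _ dt450

theorem ok451 : Ok 4 Dn4 [[2, 1, 1, 0, 0, 0, 0], [1, 1, 0, 0, 0, 0, 0], [3, 2, 2, 0, 2, 1, 0],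
  [2, 1, 1, 1, 1, 1, 1], [1, 0, 0, 0, 1, 0, 0], [2, 1, 1, 1, 2, 2, 1], [1, 0, 0, 0, 1, 1, 1]]
  281302104260541 [41, 149, 149, 173, 173, 197, 245] 193622671597 :=
  run4 tr451 _ _ _ _ dt451

theorem ok452 : Ok 4 Dn4 [[4, 2, 2, 1, 2, 1, 0], [1, 1, 0, 0, 0, 0, 0], [3, 2, 2, 0, 2, 1, 0],
  [2, 1, 1, 1, 1, 1, 1], [2, 1, 1, 1, 2, 1, 0], [1, 1, 1, 1, 1, 1, 0], [2, 1, 1, 1, 2, 2, 1]]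
  281303178018751 [69, 153, 153, 177, 189, 213, 273] 919460088715 :=
  run4 tr452 _ _ _ _ dt452

theorem ok453 : Ok 4 Dn4 [[2, 1, 1, 0, 0, 0, 0], [1, 1, 0, 0, 0, 0, 0], [3, 2, 2, 0, 2, 1, 0],
  [2, 1, 1, 1, 1, 1, 1], [4, 2, 2, 1, 2, 1, 0], [1, 1, 1, 1, 1, 1, 0], [2, 1, 1, 1, 2, 2, 1]]
  281303178018751 [69, 153, 153, 177, 189, 213, 273] 632243976297 :=
  run4 tr453 _ _ _ _ dt453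

theorem ok454 : Ok 4 Dn4 [[4, 2, 2, 1, 2, 1, 0], [3, 2, 1, 1, 2, 1, 0], [3, 2, 2, 0, 2, 1, 0],
  [2, 1, 1, 1, 1, 1, 1], [1, 0, 0, 0, 1, 0, 0], [2, 1, 1, 1, 2, 1, 0], [2, 1, 1, 1, 2, 2, 1]]
  281440616972221 [55, 151, 151, 175, 175, 211, 259] 645844984401 :=
  run4 tr454 _ _ _ _ dt454

theorem ok455 : Ok 4 Dn4 [[4, 2, 2, 1, 2, 1, 0], [1, 1, 0, 0, 0, 0, 0], [3, 2, 2, 0, 2, 1, 0],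
  [3, 1, 1, 1, 2, 1, 1], [1, 0, 0, 0, 1, 0, 0], [3, 2, 1, 1, 2, 1, 0], [2, 1, 1, 1, 2, 2, 1]]
  281440616972221 [55, 151, 151, 175, 175, 211, 259] 224262630773 :=
  run4 tr455 _ _ _ _ dt455

theorem ok456 : Ok 4 Dn4 [[4, 2, 2, 1, 2, 1, 0], [1, 1, 0, 0, 0, 0, 0], [3, 2, 2, 0, 2, 1, 0],
  [2, 1, 1, 1, 1, 1, 1], [3, 1, 1, 1, 2, 1, 1], [3, 2, 1, 1, 2, 1, 0], [2, 1, 1, 1, 2, 2, 1]]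
  281440616972221 [55, 151, 151, 175, 175, 211, 259] 1224443350085 :=
  run4 tr456 _ _ _ _ dt456

theorem ok457 : Ok 4 Dn4 [[8, 4, 4, 1, 5, 3, 1], [1, 1, 0, 0, 0, 0, 0], [3, 2, 2, 0, 2, 1, 0],
  [3, 1, 1, 1, 2, 1, 1], [1, 0, 0, 0, 1, 0, 0], [4, 2, 2, 1, 2, 1, 0], [2, 1, 1, 1, 2, 2, 1]]
  281440616972221 [55, 151, 151, 175, 175, 211, 259] 181809520780 :=
  run4 tr457 _ _ _ _ dt457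

theorem ok458 : Ok 4 Dn4 [[8, 4, 4, 1, 5, 3, 1], [1, 1, 0, 0, 0, 0, 0], [3, 2, 2, 0, 2, 1, 0],
  [2, 1, 1, 1, 1, 1, 1], [3, 1, 1, 1, 2, 1, 1], [4, 2, 2, 1, 2, 1, 0], [2, 1, 1, 1, 2, 2, 1]]
  281440616972221 [55, 151, 151, 175, 175, 211, 259] 1001546405053 :=
  run4 tr458 _ _ _ _ dt458

theorem ok459 : Ok 4 Dn4 [[5, 2, 2, 1, 3, 2, 1], [1, 1, 0, 0, 0, 0, 0], [8, 4, 4, 1, 5, 3, 1],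
  [2, 1, 1, 1, 1, 1, 1], [1, 0, 0, 0, 1, 0, 0], [4, 2, 2, 1, 2, 1, 0], [2, 1, 1, 1, 2, 2, 1]]
  281440616972221 [55, 151, 151, 175, 175, 211, 259] 421188481196 :=
  run4 tr459 _ _ _ _ dt459

theorem ok460 : Ok 4 Dn4 [[4, 2, 2, 1, 2, 2, 1], [1, 1, 0, 0, 0, 0, 0], [3, 2, 2, 0, 2, 1, 0],
  [2, 1, 1, 1, 1, 1, 1], [5, 2, 2, 1, 3, 2, 1], [4, 2, 2, 1, 2, 1, 0], [2, 1, 1, 1, 2, 2, 1]]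
  281440616972221 [55, 151, 151, 175, 175, 211, 259] 985607359998 :=
  run4 tr460 _ _ _ _ dt460

theorem ok461 : Ok 4 Dn4 [[2, 1, 1, 0, 0, 0, 0], [1, 1, 0, 0, 0, 0, 0], [3, 2, 2, 0, 2, 1, 0],
  [2, 1, 1, 1, 1, 1, 1], [1, 0, 0, 0, 1, 0, 0], [4, 2, 2, 1, 2, 1, 0], [4, 2, 2, 1, 2, 2, 1]]
  281303178018749 [55, 151, 151, 175, 175, 211, 259] 199714303708 :=
  run4 tr461 _ _ _ _ dt461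

theorem ok462 : Ok 4 Dn4 [[2, 1, 1, 0, 0, 0, 0], [1, 1, 0, 0, 0, 0, 0], [3, 2, 2, 0, 2, 2, 1],
  [2, 1, 1, 1, 1, 1, 1], [3, 2, 2, 0, 2, 1, 0], [2, 1, 1, 1, 2, 2, 1], [1, 0, 0, 0, 1, 1, 1]]
  281302104260543 [37, 121, 121, 169, 169, 169, 217] 868848031607 :=
  run4 tr462 _ _ _ _ dt462

theorem ok463 : Ok 4 Dn4 [[3, 2, 2, 1, 1, 1, 0], [1, 1, 0, 0, 0, 0, 0], [3, 2, 2, 0, 2, 2, 1],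
  [5, 3, 3, 1, 3, 2, 1], [3, 2, 2, 0, 2, 1, 0], [1, 1, 1, 1, 1, 1, 0], [2, 1, 1, 1, 2, 2, 1]]
  281440616972223 [65, 125, 125, 173, 185, 185, 245] 1233217212889 :=
  run4 tr463 _ _ _ _ dt463

theorem ok464 : Ok 4 Dn4 [[3, 2, 2, 1, 1, 1, 0], [1, 1, 0, 0, 0, 0, 0], [3, 2, 2, 0, 2, 2, 1],
  [2, 1, 1, 1, 1, 1, 1], [5, 3, 3, 1, 3, 2, 1], [1, 1, 1, 1, 1, 1, 0], [2, 1, 1, 1, 2, 2, 1]]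
  281440616972223 [65, 125, 125, 173, 185, 185, 245] 2370194141982 :=
  run4 tr464 _ _ _ _ dt464

theorem ok465 : Ok 4 Dn4 [[2, 1, 1, 0, 0, 0, 0], [1, 1, 0, 0, 0, 0, 0], [3, 2, 2, 0, 2, 2, 1],
  [2, 1, 1, 1, 1, 1, 1], [3, 2, 2, 0, 2, 1, 0], [3, 2, 2, 1, 1, 1, 0], [2, 1, 1, 1, 2, 2, 1]]
  281303178018751 [65, 125, 125, 173, 185, 185, 245] 924201567920 :=
  run4 tr465 _ _ _ _ dt465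

theorem ok466 : Ok 4 Dn4 [[2, 1, 1, 0, 0, 0, 0], [1, 1, 0, 0, 0, 0, 0], [2, 2, 2, 0, 1, 1, 0],
  [2, 1, 1, 1, 1, 1, 1], [3, 2, 2, 0, 2, 1, 0], [1, 1, 1, 1, 1, 1, 0], [3, 2, 2, 0, 2, 2, 1]]
  281302100066239 [37, 121, 121, 169, 169, 169, 217] 569492531385 :=
  run4 tr466 _ _ _ _ dt466

theorem ok467 : Ok 4 Dn4 [[4, 2, 2, 1, 2, 1, 0], [1, 1, 0, 0, 0, 0, 0], [3, 2, 2, 0, 2, 1, 0],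
  [2, 1, 1, 1, 1, 0, 0], [2, 1, 1, 1, 2, 1, 0], [1, 1, 1, 1, 1, 1, 0], [2, 1, 1, 1, 1, 1, 1]]
  281439543230397 [55, 151, 151, 175, 175, 211, 259] 1062238213316 :=
  run4 tr467 _ _ _ _ dt467

theorem ok468 : Ok 4 Dn4 [[4, 2, 2, 1, 2, 1, 0], [3, 2, 1, 1, 2, 1, 0], [3, 2, 2, 0, 2, 1, 0],
  [2, 1, 1, 1, 1, 0, 0], [1, 0, 0, 0, 1, 0, 0], [2, 1, 1, 1, 2, 1, 0], [2, 1, 1, 1, 1, 1, 1]]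
  281440616972221 [55, 151, 151, 175, 175, 211, 259] 643864725559 :=
  run4 tr468 _ _ _ _ dt468

theorem ok469 : Ok 4 Dn4 [[4, 2, 2, 1, 2, 1, 0], [1, 1, 0, 0, 0, 0, 0], [3, 2, 2, 0, 2, 1, 0],
  [2, 1, 1, 1, 1, 0, 0], [1, 0, 0, 0, 1, 0, 0], [3, 2, 1, 1, 2, 1, 0], [2, 1, 1, 1, 1, 1, 1]]
  281440616972221 [55, 151, 151, 175, 175, 211, 259] 357072363503 :=
  run4 tr469 _ _ _ _ dt469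

theorem ok470 : Ok 4 Dn4 [[3, 2, 2, 1, 1, 1, 0], [1, 1, 0, 0, 0, 0, 0], [3, 2, 2, 0, 2, 1, 0],
  [2, 1, 1, 1, 1, 0, 0], [4, 2, 2, 1, 2, 1, 0], [1, 1, 1, 1, 1, 1, 0], [2, 1, 1, 1, 1, 1, 1]]
  281439543230397 [55, 151, 151, 175, 175, 211, 259] 1085445389512 :=
  run4 tr470 _ _ _ _ dt470

theorem ok471 : Ok 4 Dn4 [[2, 1, 1, 0, 0, 0, 0], [1, 1, 0, 0, 0, 0, 0], [3, 2, 2, 0, 2, 1, 0],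
  [2, 1, 1, 1, 1, 0, 0], [1, 0, 0, 0, 1, 0, 0], [3, 2, 2, 1, 1, 1, 0], [2, 1, 1, 1, 1, 1, 1]]
  281302104276925 [55, 151, 151, 175, 175, 211, 259] 225275821227 :=
  run4 tr471 _ _ _ _ dt471

theorem ok472 : Ok 4 Dn4 [[2, 1, 1, 0, 0, 0, 0], [1, 1, 0, 0, 0, 0, 0], [4, 3, 3, 1, 2, 1, 0],
  [1, 1, 1, 1, 0, 0, 0], [2, 1, 1, 1, 1, 0, 0], [1, 1, 1, 1, 1, 1, 0], [2, 1, 1, 1, 1, 1, 1]]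
  210934433841087 [69, 153, 153, 177, 189, 213, 273] 333545837865 :=
  run4 tr472 _ _ _ _ dt472

theorem ok473 : Ok 4 Dn4 [[2, 1, 1, 0, 0, 0, 0], [1, 1, 0, 0, 0, 0, 0], [3, 2, 2, 0, 2, 1, 0],
  [4, 3, 3, 1, 2, 1, 0], [2, 1, 1, 1, 1, 0, 0], [1, 1, 1, 1, 1, 1, 0], [2, 1, 1, 1, 1, 1, 1]]
  210934433841087 [69, 153, 153, 177, 189, 213, 273] 454201415511 :=
  run4 tr473 _ _ _ _ dt473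

theorem ok474 : Ok 4 Dn4 [[2, 1, 1, 0, 0, 0, 0], [1, 1, 0, 0, 0, 0, 0], [2, 2, 2, 0, 1, 1, 0],
  [4, 3, 3, 1, 2, 1, 0], [3, 2, 2, 0, 2, 1, 0], [1, 1, 1, 1, 1, 1, 0], [2, 1, 1, 1, 1, 1, 1]]
  210934429646783 [65, 125, 125, 173, 185, 185, 245] 675802146425 :=
  run4 tr474 _ _ _ _ dt474

theorem ok475 : Ok 4 Dn4 [[3, 2, 2, 1, 1, 1, 0], [1, 1, 0, 0, 0, 0, 0], [2, 2, 2, 0, 1, 1, 0],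
  [1, 1, 1, 1, 0, 0, 0], [4, 3, 3, 1, 2, 1, 0], [1, 1, 1, 1, 1, 1, 0], [2, 1, 1, 1, 1, 1, 1]]
  281303173824447 [79, 127, 127, 175, 199, 199, 247] 1008690901933 :=
  run4 tr475 _ _ _ _ dt475

theorem ok476 : Ok 4 Dn4 [[2, 1, 1, 0, 0, 0, 0], [1, 1, 0, 0, 0, 0, 0], [2, 2, 2, 0, 1, 1, 0],
  [1, 1, 1, 1, 0, 0, 0], [4, 3, 3, 1, 2, 1, 0], [3, 2, 2, 1, 1, 1, 0], [2, 1, 1, 1, 1, 1, 1]]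
  281303173824447 [79, 127, 127, 175, 199, 199, 247] 376222372699 :=
  run4 tr476 _ _ _ _ dt476

theorem ok477 : Ok 4 Dn4 [[2, 1, 1, 0, 0, 0, 0], [1, 1, 0, 0, 0, 0, 0], [3, 2, 2, 0, 1, 0, 0],
  [2, 1, 1, 1, 1, 1, 1], [1, 0, 0, 0, 1, 0, 0], [2, 2, 2, 0, 1, 1, 0], [1, 0, 0, 0, 1, 1, 1]]
  211105154579901 [45, 153, 153, 225, 225, 225, 225] 181452854723 :=
  run4 tr477 _ _ _ _ dt477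

theorem ok478 : Ok 4 Dn4 [[2, 1, 1, 0, 0, 0, 0], [1, 1, 0, 0, 0, 0, 0], [3, 2, 2, 0, 1, 0, 0],
  [2, 1, 1, 1, 1, 0, 0], [3, 2, 2, 0, 2, 1, 0], [2, 2, 2, 0, 1, 1, 0], [2, 1, 1, 1, 1, 1, 1]]
  281473898773949 [59, 155, 155, 227, 227, 239, 239] 230823240347 :=
  run4 tr478 _ _ _ _ dt478

theorem ok479 : Ok 4 Dn4 [[2, 1, 1, 0, 0, 0, 0], [1, 1, 0, 0, 0, 0, 0], [3, 2, 2, 0, 1, 0, 0],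
  [2, 1, 1, 1, 1, 0, 0], [1, 0, 0, 0, 1, 0, 0], [3, 2, 2, 0, 2, 1, 0], [2, 1, 1, 1, 1, 1, 1]]
  281473898773949 [59, 155, 155, 227, 227, 239, 239] 161794940506 :=
  run4 tr479 _ _ _ _ dt479

theorem ok480 : Ok 4 Dn4 [[2, 1, 1, 0, 0, 0, 0], [1, 1, 0, 0, 0, 0, 0], [3, 2, 2, 0, 1, 0, 0],
  [1, 1, 1, 1, 0, 0, 0], [4, 3, 3, 1, 2, 1, 0], [2, 2, 2, 0, 1, 1, 0], [2, 1, 1, 1, 1, 1, 1]]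
  281474972515775 [87, 159, 159, 231, 255, 255, 255] 279133046388 :=
  run4 tr480 _ _ _ _ dt480

theorem ok481 : Ok 4 Dn4 [[2, 1, 1, 0, 0, 0, 0], [1, 1, 0, 0, 0, 0, 0], [3, 2, 2, 0, 1, 0, 0],
  [1, 1, 1, 1, 0, 0, 0], [2, 1, 1, 1, 1, 0, 0], [4, 3, 3, 1, 2, 1, 0], [2, 1, 1, 1, 1, 1, 1]]
  281474972515775 [87, 159, 159, 231, 255, 255, 255] 104235323085 :=
  run4 tr481 _ _ _ _ dt481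

theorem ok482 : Ok 4 Dn4 [[2, 1, 1, 0, 0, 0, 0], [1, 1, 0, 0, 0, 0, 0], [1, 1, 1, 0, 0, 0, 0],
  [1, 1, 1, 1, 0, 0, 0], [3, 2, 2, 0, 1, 0, 0], [2, 2, 2, 0, 1, 1, 0], [1, 0, 0, 0, 1, 1, 1]]
  210830276672957 [45, 153, 153, 225, 225, 225, 225] 311862681765 :=
  run4 tr482 _ _ _ _ dt482

theorem ok483 : Ok 4 Dn4 [[3, 1, 1, 1, 2, 2, 0], [1, 1, 0, 0, 1, 1, 0], [2, 1, 1, 0, 1, 1, 0],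
  [2, 1, 1, 1, 2, 2, 1], [1, 0, 0, 0, 1, 0, 0], [0, 0, 0, 0, 1, 1, 0], [1, 0, 0, 0, 1, 1, 1]]
  140186658783229 [38, 158, 158, 158, 152, 152, 266] 63486597423 :=
  run4 tr483 _ _ _ _ dt483

theorem ok484 : Ok 4 Dn4 [[3, 1, 1, 1, 2, 2, 0], [1, 1, 0, 0, 1, 1, 0], [2, 1, 1, 0, 1, 1, 0],
  [1, 1, 1, 1, 1, 1, 0], [1, 0, 0, 0, 1, 0, 0], [0, 0, 0, 0, 1, 1, 0], [2, 1, 1, 1, 2, 2, 1]]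
  140186658783229 [38, 158, 158, 158, 152, 152, 266] 152027821262 :=
  run4 tr484 _ _ _ _ dt484

theorem ok485 : Ok 4 Dn4 [[3, 1, 1, 1, 1, 1, 0], [1, 1, 0, 0, 1, 1, 0], [2, 1, 1, 0, 1, 1, 0],
  [1, 1, 1, 1, 1, 1, 0], [1, 0, 0, 0, 1, 0, 0], [3, 1, 1, 1, 2, 2, 0], [1, 0, 0, 0, 1, 1, 1]]
  96206193672189 [38, 158, 158, 158, 152, 152, 266] 117648800281 :=
  run4 tr485 _ _ _ _ dt485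

theorem ok486 : Ok 4 Dn4 [[3, 1, 1, 1, 1, 1, 0], [1, 1, 0, 0, 0, 0, 0], [2, 1, 1, 0, 1, 1, 0],
  [2, 1, 1, 1, 2, 2, 1], [1, 0, 0, 0, 1, 0, 0], [1, 1, 0, 0, 1, 1, 0], [1, 0, 0, 0, 1, 1, 1]]
  246255171125245 [43, 163, 175, 175, 187, 187, 271] 73476949011 :=
  run4 tr486 _ _ _ _ dt486

theorem ok487 : Ok 4 Dn4 [[3, 1, 1, 1, 1, 1, 0], [1, 1, 0, 0, 0, 0, 0], [2, 1, 1, 0, 1, 1, 0],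
  [1, 1, 1, 1, 1, 1, 0], [1, 0, 0, 0, 1, 0, 0], [1, 1, 0, 0, 1, 1, 0], [2, 1, 1, 1, 2, 2, 1]]
  246255171125245 [43, 163, 175, 175, 187, 187, 271] 141991572537 :=
  run4 tr487 _ _ _ _ dt487

theorem ok488 : Ok 4 Dn4 [[3, 1, 1, 1, 1, 1, 0], [1, 1, 0, 0, 0, 0, 0], [2, 1, 1, 0, 0, 0, 0],
  [2, 1, 1, 1, 2, 2, 1], [1, 0, 0, 0, 1, 0, 0], [2, 1, 1, 0, 1, 1, 0], [1, 0, 0, 0, 1, 1, 1]]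
  281302104260605 [45, 177, 177, 177, 201, 201, 273] 77432481039 :=
  run4 tr488 _ _ _ _ dt488

theorem ok489 : Ok 4 Dn4 [[3, 1, 1, 1, 1, 1, 0], [1, 1, 0, 0, 0, 0, 0], [4, 2, 2, 1, 2, 2, 1],
  [1, 1, 1, 1, 1, 1, 0], [1, 0, 0, 0, 1, 0, 0], [2, 1, 1, 0, 1, 1, 0], [2, 1, 1, 1, 2, 2, 1]]
  281302104276989 [59, 179, 179, 179, 203, 215, 287] 167417315084 :=
  run4 tr489 _ _ _ _ dt489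

theorem ok490 : Ok 4 Dn4 [[3, 1, 1, 1, 1, 1, 0], [1, 1, 0, 0, 0, 0, 0], [2, 1, 1, 0, 0, 0, 0],
  [1, 1, 1, 1, 1, 1, 0], [1, 0, 0, 0, 1, 0, 0], [2, 1, 1, 0, 1, 1, 0], [4, 2, 2, 1, 2, 2, 1]]
  281302104276989 [59, 179, 179, 179, 203, 215, 287] 142969192446 :=
  run4 tr490 _ _ _ _ dt490

theorem ok491 : Ok 4 Dn4 [[3, 1, 1, 1, 1, 1, 0], [1, 1, 0, 0, 0, 0, 0], [2, 1, 1, 0, 0, 0, 0],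
  [2, 1, 1, 1, 1, 1, 1], [1, 0, 0, 0, 1, 0, 0], [2, 1, 1, 1, 2, 2, 1], [1, 0, 0, 0, 1, 1, 1]]
  281302104260605 [45, 177, 177, 177, 201, 201, 273] 160799237606 :=
  run4 tr491 _ _ _ _ dt491

theorem ok492 : Ok 4 Dn4 [[3, 1, 1, 1, 1, 1, 0], [1, 1, 0, 0, 0, 0, 0], [4, 2, 2, 1, 2, 2, 1],
  [2, 1, 1, 1, 1, 1, 1], [1, 0, 0, 0, 1, 0, 0], [1, 1, 1, 1, 1, 1, 0], [2, 1, 1, 1, 2, 2, 1]]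
  281302104276989 [59, 179, 179, 179, 203, 215, 287] 263098082831 :=
  run4 tr492 _ _ _ _ dt492

theorem ok493 : Ok 4 Dn4 [[3, 1, 1, 1, 1, 1, 0], [1, 1, 0, 0, 0, 0, 0], [2, 1, 1, 0, 0, 0, 0],
  [2, 1, 1, 1, 1, 1, 1], [1, 0, 0, 0, 1, 0, 0], [1, 1, 1, 1, 1, 1, 0], [4, 2, 2, 1, 2, 2, 1]]
  281302104276989 [59, 179, 179, 179, 203, 215, 287] 234372790866 :=
  run4 tr493 _ _ _ _ dt493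

theorem ok494 : Ok 4 Dn4 [[3, 1, 1, 1, 1, 1, 0], [1, 1, 0, 0, 0, 0, 0], [2, 1, 1, 0, 0, 0, 0],
  [1, 1, 1, 1, 0, 0, 0], [1, 0, 0, 0, 1, 0, 0], [1, 1, 1, 1, 1, 1, 0], [2, 1, 1, 1, 1, 1, 1]]
  210933360082941 [45, 177, 177, 177, 201, 201, 273] 214287569702 :=
  run4 tr494 _ _ _ _ dt494

theorem ok495 : Ok 4 Dn4 [[2, 0, 0, 0, 1, 1, 0], [1, 1, 0, 0, 0, 0, 0], [2, 1, 1, 0, 0, 0, 0],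
  [3, 1, 1, 1, 1, 1, 0], [1, 0, 0, 0, 1, 0, 0], [0, 0, 0, 0, 1, 1, 0], [1, 0, 0, 0, 1, 1, 1]]
  25665650671613 [38, 158, 158, 158, 152, 152, 266] 99508256127 :=
  run4 tr495 _ _ _ _ dt495

theorem ok496 : Ok 4 Dn4 [[1, 0, 0, 0, 0, 0, 0], [1, 1, 0, 0, 0, 0, 0], [2, 1, 1, 0, 0, 0, 0],
  [3, 1, 1, 1, 1, 1, 0], [1, 0, 0, 0, 1, 0, 0], [2, 0, 0, 0, 1, 1, 0], [1, 0, 0, 0, 1, 1, 1]]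
  211096568709117 [57, 237, 237, 237, 285, 285, 285] 651669870057 :=
  run4 tr496 _ _ _ _ dt496

theorem ok497 : Ok 4 Dn4 [[1, 0, 0, 0, 0, 0, 0], [1, 1, 0, 0, 0, 0, 0], [2, 1, 1, 0, 0, 0, 0],
  [1, 1, 1, 1, 0, 0, 0], [1, 0, 0, 0, 1, 0, 0], [3, 1, 1, 1, 1, 1, 0], [1, 0, 0, 0, 1, 1, 1]]
  211096568709117 [57, 237, 237, 237, 285, 285, 285] 1140040551802 :=
  run4 tr497 _ _ _ _ dt497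

theorem nd964 : Ok 4 Dn4 [[2, 1, 1, 0, 2, 2, 0], [1, 1, 0, 0, 1, 1, 0], [3, 2, 2, 0, 4, 3, 0],
  [1, 1, 1, 1, 1, 1, 0], [1, 0, 0, 0, 1, 0, 0], [0, 0, 0, 0, 1, 1, 0], [2, 1, 1, 1, 2, 2, 1]]
  140736414613437 [48, 132, 132, 156, 126, 162, 252] 178022195498 :=
  cut4 3 4 1 1 1 _ [[2, 1, 1, 0, 2, 2, 0], [1, 1, 0, 0, 1, 1, 0], [3, 2, 2, 0, 4, 3, 0], [2, 1,
  1, 1, 2, 1, 0], [1, 0, 0, 0, 1, 0, 0], [0, 0, 0, 0, 1, 1, 0], [2, 1, 1, 1, 2, 2, 1]] [[2, 1, 1,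
  0, 2, 2, 0], [1, 1, 0, 0, 1, 1, 0], [3, 2, 2, 0, 4, 3, 0], [1, 1, 1, 1, 1, 1, 0], [2, 1, 1, 1,
  2, 1, 0], [0, 0, 0, 0, 1, 1, 0], [2, 1, 1, 1, 2, 2, 1]] _ _ 107963774999 388197456992 _ (by
  decide +kernel) ok428 ok429

theorem nd965 : Ok 4 Dn4 [[2, 1, 1, 0, 2, 2, 0], [1, 1, 0, 0, 1, 1, 0], [3, 2, 2, 0, 4, 3, 0],
  [1, 1, 1, 1, 1, 1, 0], [1, 0, 0, 0, 1, 0, 0], [0, 0, 0, 0, 1, 1, 0], [2, 1, 1, 1, 2, 2, 1]]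
  140186658799549 [48, 132, 132, 156, 126, 162, 252] 178022195498 :=
  dec4 2 7 0 _ _ 140736414613437 _ [48, 132, 132, 156, 126, 162, 252] _ (by decide +kernel) nd964

theorem nd966 : Ok 4 Dn4 [[2, 1, 1, 0, 2, 2, 0], [1, 1, 0, 0, 1, 1, 0], [3, 2, 2, 0, 2, 1, 0],
  [1, 1, 1, 1, 1, 1, 0], [1, 0, 0, 0, 1, 0, 0], [0, 0, 0, 0, 1, 1, 0], [2, 1, 1, 1, 2, 2, 1]]
  140186658799549 [48, 132, 132, 156, 126, 162, 252] 176364550009 :=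
  cut4 2 5 1 2 1 _ [[2, 1, 1, 0, 2, 2, 0], [1, 1, 0, 0, 1, 1, 0], [3, 2, 2, 0, 4, 3, 0], [1, 1,
  1, 1, 1, 1, 0], [1, 0, 0, 0, 1, 0, 0], [0, 0, 0, 0, 1, 1, 0], [2, 1, 1, 1, 2, 2, 1]] [[2, 1, 1,
  0, 2, 2, 0], [1, 1, 0, 0, 1, 1, 0], [3, 2, 2, 0, 2, 1, 0], [1, 1, 1, 1, 1, 1, 0], [1, 0, 0, 0,
  1, 0, 0], [3, 2, 2, 0, 4, 3, 0], [2, 1, 1, 1, 2, 2, 1]] _ _ 178022195498 172220436286 _ (by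
  decide +kernel) nd965 ok430

theorem nd967 : Ok 4 Dn4 [[2, 1, 1, 0, 1, 1, 0], [1, 1, 0, 0, 1, 1, 0], [3, 2, 2, 0, 2, 1, 0],
  [1, 1, 1, 1, 1, 1, 0], [1, 0, 0, 0, 1, 0, 0], [0, 0, 0, 0, 1, 1, 0], [2, 1, 1, 1, 2, 2, 1]]
  140186658799549 [48, 132, 132, 156, 126, 162, 252] 197011773661 :=
  cut4 0 5 1 1 1 _ [[2, 1, 1, 0, 2, 2, 0], [1, 1, 0, 0, 1, 1, 0], [3, 2, 2, 0, 2, 1, 0], [1, 1,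
  1, 1, 1, 1, 0], [1, 0, 0, 0, 1, 0, 0], [0, 0, 0, 0, 1, 1, 0], [2, 1, 1, 1, 2, 2, 1]] [[2, 1, 1,
  0, 1, 1, 0], [1, 1, 0, 0, 1, 1, 0], [3, 2, 2, 0, 2, 1, 0], [1, 1, 1, 1, 1, 1, 0], [1, 0, 0, 0,
  1, 0, 0], [2, 1, 1, 0, 2, 2, 0], [2, 1, 1, 1, 2, 2, 1]] _ _ 176364550009 258953444614 _ (by
  decide +kernel) nd966 ok431

theorem nd968 : Ok 4 Dn4 [[2, 1, 1, 0, 1, 1, 0], [1, 1, 0, 0, 1, 1, 0], [3, 2, 2, 0, 2, 1, 0],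
  [1, 1, 1, 1, 1, 1, 0], [1, 0, 0, 0, 1, 0, 0], [0, 0, 0, 0, 1, 1, 0], [2, 1, 1, 1, 2, 2, 1]]
  140186658783165 [34, 130, 130, 154, 124, 148, 238] 197011773661 :=
  dec4 0 14 1 _ _ 140186658799549 _ [48, 132, 132, 156, 126, 162, 252] _ (by decide +kernel) nd967

theorem nd969 : Ok 4 Dn4 [[2, 1, 1, 0, 1, 1, 0], [1, 1, 0, 0, 1, 1, 0], [3, 2, 2, 0, 2, 1, 0],
  [1, 1, 1, 1, 1, 1, 0], [1, 0, 0, 0, 1, 0, 0], [0, 0, 0, 0, 1, 1, 0], [1, 0, 0, 0, 1, 1, 1]]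
  140186658783165 [34, 130, 130, 154, 124, 148, 238] 116750495490 :=
  cut4 3 6 1 1 1 _ [[2, 1, 1, 0, 1, 1, 0], [1, 1, 0, 0, 1, 1, 0], [3, 2, 2, 0, 2, 1, 0], [2, 1,
  1, 1, 2, 2, 1], [1, 0, 0, 0, 1, 0, 0], [0, 0, 0, 0, 1, 1, 0], [1, 0, 0, 0, 1, 1, 1]] [[2, 1, 1,
  0, 1, 1, 0], [1, 1, 0, 0, 1, 1, 0], [3, 2, 2, 0, 2, 1, 0], [1, 1, 1, 1, 1, 1, 0], [1, 0, 0, 0,
  1, 0, 0], [0, 0, 0, 0, 1, 1, 0], [2, 1, 1, 1, 2, 2, 1]] _ _ 63242976709 197011773661 _ (by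
  decide +kernel) ok427 nd968

theorem nd970 : Ok 4 Dn4 [[2, 1, 1, 0, 1, 1, 0], [1, 1, 0, 0, 1, 1, 0], [3, 2, 2, 0, 2, 1, 0],
  [1, 1, 1, 1, 1, 1, 0], [1, 0, 0, 0, 1, 0, 0], [0, 0, 0, 0, 1, 1, 0], [1, 0, 0, 0, 1, 1, 1]]
  140186654588861 [34, 130, 130, 154, 124, 148, 238] 116750495490 :=
  dec4 1 6 0 _ _ 140186658783165 _ [34, 130, 130, 154, 124, 148, 238] _ (by decide +kernel) nd969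

theorem nd971 : Ok 4 Dn4 [[2, 1, 1, 0, 1, 1, 0], [1, 1, 0, 0, 1, 1, 0], [3, 2, 2, 0, 2, 1, 0],
  [1, 1, 1, 1, 1, 1, 0], [1, 0, 0, 0, 1, 0, 0], [0, 0, 0, 0, 1, 1, 0], [1, 0, 0, 0, 1, 1, 1]]
  140186654588349 [30, 102, 102, 150, 120, 120, 210] 116750495490 :=
  dec4 0 9 1 _ _ 140186654588861 _ [34, 130, 130, 154, 124, 148, 238] _ (by decide +kernel) nd970

theorem nd972 : Ok 4 Dn4 [[2, 1, 1, 0, 1, 1, 0], [1, 1, 0, 0, 1, 1, 0], [3, 2, 2, 0, 2, 2, 1],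
  [1, 1, 1, 1, 1, 1, 0], [3, 2, 2, 0, 2, 1, 0], [0, 0, 0, 0, 1, 1, 0], [1, 0, 0, 0, 1, 1, 1]]
  140186658783167 [30, 102, 102, 150, 120, 120, 210] 345399343942 :=
  cut4 0 5 1 1 1 _ [[2, 1, 1, 0, 2, 2, 0], [1, 1, 0, 0, 1, 1, 0], [3, 2, 2, 0, 2, 2, 1], [1, 1,
  1, 1, 1, 1, 0], [3, 2, 2, 0, 2, 1, 0], [0, 0, 0, 0, 1, 1, 0], [1, 0, 0, 0, 1, 1, 1]] [[2, 1, 1,
  0, 1, 1, 0], [1, 1, 0, 0, 1, 1, 0], [3, 2, 2, 0, 2, 2, 1], [1, 1, 1, 1, 1, 1, 0], [3, 2, 2, 0,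
  2, 1, 0], [2, 1, 1, 0, 2, 2, 0], [1, 0, 0, 0, 1, 1, 1]] _ _ 283451360733 531243293567 _ (by
  decide +kernel) ok432 ok433

theorem nd973 : Ok 4 Dn4 [[2, 1, 1, 0, 1, 1, 0], [1, 1, 0, 0, 1, 1, 0], [3, 2, 2, 0, 2, 2, 1],
  [1, 1, 1, 1, 1, 1, 0], [3, 2, 2, 0, 2, 1, 0], [0, 0, 0, 0, 1, 1, 0], [1, 0, 0, 0, 1, 1, 1]]
  140186654588863 [30, 102, 102, 150, 120, 120, 210] 345399343942 :=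
  dec4 1 6 0 _ _ 140186658783167 _ [30, 102, 102, 150, 120, 120, 210] _ (by decide +kernel) nd972

theorem nd974 : Ok 4 Dn4 [[2, 1, 1, 0, 1, 1, 0], [1, 1, 0, 0, 1, 1, 0], [2, 2, 2, 0, 1, 1, 0],
  [1, 1, 1, 1, 1, 1, 0], [3, 2, 2, 0, 2, 1, 0], [0, 0, 0, 0, 1, 1, 0], [1, 0, 0, 0, 1, 1, 1]]
  140186654588863 [30, 102, 102, 150, 120, 120, 210] 268611373271 :=
  cut4 2 6 1 1 1 _ [[2, 1, 1, 0, 1, 1, 0], [1, 1, 0, 0, 1, 1, 0], [3, 2, 2, 0, 2, 2, 1], [1, 1,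
  1, 1, 1, 1, 0], [3, 2, 2, 0, 2, 1, 0], [0, 0, 0, 0, 1, 1, 0], [1, 0, 0, 0, 1, 1, 1]] [[2, 1, 1,
  0, 1, 1, 0], [1, 1, 0, 0, 1, 1, 0], [2, 2, 2, 0, 1, 1, 0], [1, 1, 1, 1, 1, 1, 0], [3, 2, 2, 0,
  2, 1, 0], [0, 0, 0, 0, 1, 1, 0], [3, 2, 2, 0, 2, 2, 1]] _ _ 345399343942 115035431929 _ (by
  decide +kernel) nd973 ok434

theorem nd975 : Ok 4 Dn4 [[2, 1, 1, 0, 1, 1, 0], [1, 1, 0, 0, 1, 1, 0], [2, 2, 2, 0, 1, 1, 0],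
  [1, 1, 1, 1, 1, 1, 0], [3, 2, 2, 0, 2, 1, 0], [0, 0, 0, 0, 1, 1, 0], [1, 0, 0, 0, 1, 1, 1]]
  140186654588351 [30, 102, 102, 150, 120, 120, 210] 268611373271 :=
  dec4 0 9 0 _ _ 140186654588863 _ [30, 102, 102, 150, 120, 120, 210] _ (by decide +kernel) nd974

theorem nd976 : Ok 4 Dn4 [[2, 1, 1, 0, 1, 1, 0], [1, 1, 0, 0, 1, 1, 0], [2, 2, 2, 0, 1, 1, 0],
  [1, 1, 1, 1, 1, 1, 0], [3, 2, 2, 0, 2, 1, 0], [0, 0, 0, 0, 1, 1, 0], [1, 0, 0, 0, 1, 1, 1]]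
  140186654588349 [30, 102, 102, 150, 120, 120, 210] 268611373271 :=
  dec4 0 1 0 _ _ 140186654588351 _ [30, 102, 102, 150, 120, 120, 210] _ (by decide +kernel) nd975

theorem nd977 : Ok 4 Dn4 [[2, 1, 1, 0, 1, 1, 0], [1, 1, 0, 0, 1, 1, 0], [2, 2, 2, 0, 1, 1, 0],
  [1, 1, 1, 1, 1, 1, 0], [1, 0, 0, 0, 1, 0, 0], [0, 0, 0, 0, 1, 1, 0], [1, 0, 0, 0, 1, 1, 1]]
  140186654588349 [30, 102, 102, 150, 120, 120, 210] 147122671047 :=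
  cut4 2 4 1 1 1 _ [[2, 1, 1, 0, 1, 1, 0], [1, 1, 0, 0, 1, 1, 0], [3, 2, 2, 0, 2, 1, 0], [1, 1,
  1, 1, 1, 1, 0], [1, 0, 0, 0, 1, 0, 0], [0, 0, 0, 0, 1, 1, 0], [1, 0, 0, 0, 1, 1, 1]] [[2, 1, 1,
  0, 1, 1, 0], [1, 1, 0, 0, 1, 1, 0], [2, 2, 2, 0, 1, 1, 0], [1, 1, 1, 1, 1, 1, 0], [3, 2, 2, 0,
  2, 1, 0], [0, 0, 0, 0, 1, 1, 0], [1, 0, 0, 0, 1, 1, 1]] _ _ 116750495490 268611373271 _ (by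
  decide +kernel) nd971 nd976

theorem nd978 : Ok 4 Dn4 [[2, 1, 1, 0, 1, 1, 0], [1, 1, 0, 0, 1, 1, 0], [2, 2, 2, 0, 1, 1, 0],
  [1, 1, 1, 1, 1, 1, 0], [1, 0, 0, 0, 1, 0, 0], [0, 0, 0, 0, 1, 1, 0], [1, 0, 0, 0, 1, 1, 1]]
  131390561566141 [30, 102, 102, 150, 120, 120, 210] 147122671047 :=
  dec4 2 11 0 _ _ 140186654588349 _ [30, 102, 102, 150, 120, 120, 210] _ (by decide +kernel) nd977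

theorem nd979 : Ok 4 Dn4 [[2, 1, 1, 0, 1, 1, 0], [1, 1, 0, 0, 1, 1, 0], [2, 2, 2, 0, 1, 1, 0],
  [1, 1, 1, 1, 1, 1, 0], [1, 0, 0, 0, 1, 0, 0], [0, 0, 0, 0, 1, 1, 0], [1, 0, 0, 0, 1, 1, 1]]
  131356201827773 [30, 102, 102, 150, 120, 120, 210] 147122671047 :=
  dec4 2 3 0 _ _ 131390561566141 _ [30, 102, 102, 150, 120, 120, 210] _ (by decide +kernel) nd978

theorem nd980 : Ok 4 Dn4 [[2, 1, 1, 0, 1, 1, 0], [1, 1, 0, 0, 0, 0, 0], [3, 2, 2, 0, 2, 1, 0],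
  [1, 1, 1, 1, 1, 1, 0], [1, 0, 0, 0, 1, 0, 0], [1, 1, 0, 0, 1, 1, 0], [2, 1, 1, 1, 2, 2, 1]]
  281439543230397 [53, 137, 149, 173, 161, 197, 257] 250878670549 :=
  cut4 3 4 1 1 1 _ [[2, 1, 1, 0, 1, 1, 0], [1, 1, 0, 0, 0, 0, 0], [3, 2, 2, 0, 2, 1, 0], [2, 1,
  1, 1, 2, 1, 0], [1, 0, 0, 0, 1, 0, 0], [1, 1, 0, 0, 1, 1, 0], [2, 1, 1, 1, 2, 2, 1]] [[2, 1, 1,
  0, 1, 1, 0], [1, 1, 0, 0, 0, 0, 0], [3, 2, 2, 0, 2, 1, 0], [1, 1, 1, 1, 1, 1, 0], [2, 1, 1, 1,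
  2, 1, 0], [1, 1, 0, 0, 1, 1, 0], [2, 1, 1, 1, 2, 2, 1]] _ _ 157656529999 530545092198 _ (by
  decide +kernel) ok436 ok437

theorem nd981 : Ok 4 Dn4 [[2, 1, 1, 0, 1, 1, 0], [1, 1, 0, 0, 0, 0, 0], [3, 2, 2, 0, 2, 1, 0],
  [1, 1, 1, 1, 1, 1, 0], [1, 0, 0, 0, 1, 0, 0], [1, 1, 0, 0, 1, 1, 0], [2, 1, 1, 1, 2, 2, 1]]
  281439543214013 [39, 135, 147, 171, 159, 183, 243] 250878670549 :=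
  dec4 0 14 1 _ _ 281439543230397 _ [53, 137, 149, 173, 161, 197, 257] _ (by decide +kernel) nd980

theorem nd982 : Ok 4 Dn4 [[2, 1, 1, 0, 1, 1, 0], [1, 1, 0, 0, 0, 0, 0], [3, 2, 2, 0, 2, 1, 0],
  [1, 1, 1, 1, 1, 1, 0], [1, 0, 0, 0, 1, 0, 0], [1, 1, 0, 0, 1, 1, 0], [1, 0, 0, 0, 1, 1, 1]]
  281439543214013 [39, 135, 147, 171, 159, 183, 243] 165174228531 :=
  cut4 3 6 1 1 1 _ [[2, 1, 1, 0, 1, 1, 0], [1, 1, 0, 0, 0, 0, 0], [3, 2, 2, 0, 2, 1, 0], [2, 1,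
  1, 1, 2, 2, 1], [1, 0, 0, 0, 1, 0, 0], [1, 1, 0, 0, 1, 1, 0], [1, 0, 0, 0, 1, 1, 1]] [[2, 1, 1,
  0, 1, 1, 0], [1, 1, 0, 0, 0, 0, 0], [3, 2, 2, 0, 2, 1, 0], [1, 1, 1, 1, 1, 1, 0], [1, 0, 0, 0,
  1, 0, 0], [1, 1, 0, 0, 1, 1, 0], [2, 1, 1, 1, 2, 2, 1]] _ _ 108037933851 250878670549 _ (by
  decide +kernel) ok435 nd981

theorem nd983 : Ok 4 Dn4 [[2, 1, 1, 0, 1, 1, 0], [1, 1, 0, 0, 0, 0, 0], [3, 2, 2, 0, 2, 1, 0],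
  [1, 1, 1, 1, 1, 1, 0], [1, 0, 0, 0, 1, 0, 0], [1, 1, 0, 0, 1, 1, 0], [1, 0, 0, 0, 1, 1, 1]]
  281439539019709 [39, 135, 147, 171, 159, 183, 243] 165174228531 :=
  dec4 1 6 0 _ _ 281439543214013 _ [39, 135, 147, 171, 159, 183, 243] _ (by decide +kernel) nd982

theorem nd984 : Ok 4 Dn4 [[2, 1, 1, 0, 1, 1, 0], [1, 1, 0, 0, 0, 0, 0], [3, 2, 2, 0, 2, 1, 0],
  [1, 1, 1, 1, 1, 1, 0], [1, 0, 0, 0, 1, 0, 0], [1, 1, 0, 0, 1, 1, 0], [1, 0, 0, 0, 1, 1, 1]]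
  281439539019197 [35, 107, 119, 167, 155, 155, 215] 165174228531 :=
  dec4 0 9 1 _ _ 281439539019709 _ [39, 135, 147, 171, 159, 183, 243] _ (by decide +kernel) nd983

theorem nd985 : Ok 4 Dn4 [[2, 1, 1, 0, 1, 1, 0], [1, 1, 0, 0, 0, 0, 0], [2, 2, 2, 0, 1, 1, 0],
  [1, 1, 1, 1, 1, 1, 0], [1, 0, 0, 0, 1, 0, 0], [1, 1, 0, 0, 1, 1, 0], [1, 0, 0, 0, 1, 1, 1]]
  281439539019197 [35, 107, 119, 167, 155, 155, 215] 231369465162 :=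
  cut4 2 4 1 1 1 _ [[2, 1, 1, 0, 1, 1, 0], [1, 1, 0, 0, 0, 0, 0], [3, 2, 2, 0, 2, 1, 0], [1, 1,
  1, 1, 1, 1, 0], [1, 0, 0, 0, 1, 0, 0], [1, 1, 0, 0, 1, 1, 0], [1, 0, 0, 0, 1, 1, 1]] [[2, 1, 1,
  0, 1, 1, 0], [1, 1, 0, 0, 0, 0, 0], [2, 2, 2, 0, 1, 1, 0], [1, 1, 1, 1, 1, 1, 0], [3, 2, 2, 0,
  2, 1, 0], [1, 1, 0, 0, 1, 1, 0], [1, 0, 0, 0, 1, 1, 1]] _ _ 165174228531 496150411682 _ (by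
  decide +kernel) nd984 ok438

theorem nd986 : Ok 4 Dn4 [[2, 1, 1, 0, 1, 1, 0], [1, 1, 0, 0, 0, 0, 0], [2, 2, 2, 0, 1, 1, 0],
  [1, 1, 1, 1, 1, 1, 0], [1, 0, 0, 0, 1, 0, 0], [1, 1, 0, 0, 1, 1, 0], [1, 0, 0, 0, 1, 1, 1]]
  140702050663869 [34, 106, 118, 166, 148, 148, 214] 231369465162 :=
  dec4 2 15 1 _ _ 281439539019197 _ [35, 107, 119, 167, 155, 155, 215] _ (by decide +kernel) nd985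

theorem nd987 : Ok 4 Dn4 [[2, 1, 1, 0, 1, 1, 0], [1, 1, 0, 0, 0, 0, 0], [2, 2, 2, 0, 1, 1, 0],
  [1, 1, 1, 1, 1, 1, 0], [1, 0, 0, 0, 1, 0, 0], [1, 1, 0, 0, 1, 1, 0], [1, 0, 0, 0, 1, 1, 1]]
  131905957641661 [32, 104, 104, 164, 134, 134, 212] 231369465162 :=
  dec4 2 11 1 _ _ 140702050663869 _ [34, 106, 118, 166, 148, 148, 214] _ (by decide +kernel) nd986

theorem nd988 : Ok 4 Dn4 [[2, 1, 1, 0, 1, 1, 0], [1, 1, 0, 0, 0, 0, 0], [2, 2, 2, 0, 1, 1, 0],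
  [1, 1, 1, 1, 1, 1, 0], [1, 0, 0, 0, 1, 0, 0], [1, 1, 0, 0, 1, 1, 0], [1, 0, 0, 0, 1, 1, 1]]
  131356201827773 [30, 102, 102, 150, 120, 120, 210] 231369465162 :=
  dec4 2 7 1 _ _ 131905957641661 _ [32, 104, 104, 164, 134, 134, 212] _ (by decide +kernel) nd987

theorem nd989 : Ok 4 Dn4 [[2, 1, 1, 0, 1, 1, 0], [1, 1, 0, 0, 0, 0, 0], [2, 2, 2, 0, 1, 1, 0],
  [1, 1, 1, 1, 1, 1, 0], [1, 0, 0, 0, 1, 0, 0], [0, 0, 0, 0, 1, 1, 0], [1, 0, 0, 0, 1, 1, 1]]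
  131356201827773 [30, 102, 102, 150, 120, 120, 210] 189246068105 :=
  cut4 1 5 1 1 1 _ [[2, 1, 1, 0, 1, 1, 0], [1, 1, 0, 0, 1, 1, 0], [2, 2, 2, 0, 1, 1, 0], [1, 1,
  1, 1, 1, 1, 0], [1, 0, 0, 0, 1, 0, 0], [0, 0, 0, 0, 1, 1, 0], [1, 0, 0, 0, 1, 1, 1]] [[2, 1, 1,
  0, 1, 1, 0], [1, 1, 0, 0, 0, 0, 0], [2, 2, 2, 0, 1, 1, 0], [1, 1, 1, 1, 1, 1, 0], [1, 0, 0, 0,
  1, 0, 0], [1, 1, 0, 0, 1, 1, 0], [1, 0, 0, 0, 1, 1, 1]] _ _ 147122671047 231369465162 _ (by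
  decide +kernel) nd979 nd988

theorem nd990 : Ok 4 Dn4 [[2, 1, 1, 0, 1, 1, 0], [1, 1, 0, 0, 0, 0, 0], [2, 2, 2, 0, 1, 1, 0],
  [1, 1, 1, 1, 1, 1, 0], [1, 0, 0, 0, 1, 0, 0], [0, 0, 0, 0, 1, 1, 0], [1, 0, 0, 0, 1, 1, 1]]
  96171829738941 [30, 102, 102, 150, 120, 120, 210] 189246068105 :=
  dec4 2 13 0 _ _ 131356201827773 _ [30, 102, 102, 150, 120, 120, 210] _ (by decide +kernel) nd989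

theorem nd991 : Ok 4 Dn4 [[2, 1, 1, 0, 1, 1, 0], [1, 1, 0, 0, 0, 0, 0], [2, 2, 2, 0, 1, 1, 0],
  [1, 1, 1, 1, 1, 1, 0], [1, 0, 0, 0, 1, 0, 0], [0, 0, 0, 0, 1, 1, 0], [1, 0, 0, 0, 1, 1, 1]]
  96034390785469 [30, 102, 102, 150, 120, 120, 210] 189246068105 :=
  dec4 2 5 0 _ _ 96171829738941 _ [30, 102, 102, 150, 120, 120, 210] _ (by decide +kernel) nd990

theorem nd992 : Ok 4 Dn4 [[4, 2, 2, 1, 2, 1, 0], [1, 1, 0, 0, 0, 0, 0], [3, 2, 2, 0, 2, 1, 0],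
  [1, 1, 1, 1, 1, 1, 0], [1, 0, 0, 0, 1, 0, 0], [2, 1, 1, 0, 1, 1, 0], [2, 1, 1, 1, 2, 2, 1]]
  281439543230397 [55, 151, 151, 175, 175, 211, 259] 252151780198 :=
  cut4 3 4 1 1 1 _ [[4, 2, 2, 1, 2, 1, 0], [1, 1, 0, 0, 0, 0, 0], [3, 2, 2, 0, 2, 1, 0], [2, 1,
  1, 1, 2, 1, 0], [1, 0, 0, 0, 1, 0, 0], [2, 1, 1, 0, 1, 1, 0], [2, 1, 1, 1, 2, 2, 1]] [[4, 2, 2,
  1, 2, 1, 0], [1, 1, 0, 0, 0, 0, 0], [3, 2, 2, 0, 2, 1, 0], [1, 1, 1, 1, 1, 1, 0], [2, 1, 1, 1,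
  2, 1, 0], [2, 1, 1, 0, 1, 1, 0], [2, 1, 1, 1, 2, 2, 1]] _ _ 163016545906 519557483072 _ (by
  decide +kernel) ok440 ok441

theorem nd993 : Ok 4 Dn4 [[3, 2, 2, 1, 1, 1, 0], [1, 1, 0, 0, 0, 0, 0], [3, 2, 2, 0, 2, 1, 0],
  [1, 1, 1, 1, 1, 1, 0], [1, 0, 0, 0, 1, 0, 0], [2, 1, 1, 0, 1, 1, 0], [2, 1, 1, 1, 2, 2, 1]]
  281439543230397 [55, 151, 151, 175, 175, 211, 259] 303687002054 :=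
  cut4 0 4 1 1 1 _ [[4, 2, 2, 1, 2, 1, 0], [1, 1, 0, 0, 0, 0, 0], [3, 2, 2, 0, 2, 1, 0], [1, 1,
  1, 1, 1, 1, 0], [1, 0, 0, 0, 1, 0, 0], [2, 1, 1, 0, 1, 1, 0], [2, 1, 1, 1, 2, 2, 1]] [[3, 2, 2,
  1, 1, 1, 0], [1, 1, 0, 0, 0, 0, 0], [3, 2, 2, 0, 2, 1, 0], [1, 1, 1, 1, 1, 1, 0], [4, 2, 2, 1,
  2, 1, 0], [2, 1, 1, 0, 1, 1, 0], [2, 1, 1, 1, 2, 2, 1]] _ _ 252151780198 561363111331 _ (by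
  decide +kernel) nd992 ok442

theorem nd994 : Ok 4 Dn4 [[3, 2, 2, 1, 1, 1, 0], [1, 1, 0, 0, 0, 0, 0], [3, 2, 2, 0, 2, 1, 0],
  [1, 1, 1, 1, 1, 1, 0], [1, 0, 0, 0, 1, 0, 0], [2, 1, 1, 0, 1, 1, 0], [2, 1, 1, 1, 2, 2, 1]]
  281302104276925 [55, 151, 151, 175, 175, 211, 259] 303687002054 :=
  dec4 2 5 0 _ _ 281439543230397 _ [55, 151, 151, 175, 175, 211, 259] _ (by decide +kernel) nd993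

theorem nd995 : Ok 4 Dn4 [[4, 2, 2, 1, 2, 2, 1], [1, 1, 0, 0, 0, 0, 0], [3, 2, 2, 0, 2, 1, 0],
  [4, 2, 2, 1, 2, 1, 0], [1, 0, 0, 0, 1, 0, 0], [2, 1, 1, 0, 1, 1, 0], [2, 1, 1, 1, 2, 2, 1]]
  281440616972221 [55, 151, 151, 175, 175, 211, 259] 211642787506 :=
  cut4 0 4 1 1 1 _ [[5, 2, 2, 1, 3, 2, 1], [1, 1, 0, 0, 0, 0, 0], [3, 2, 2, 0, 2, 1, 0], [4, 2,
  2, 1, 2, 1, 0], [1, 0, 0, 0, 1, 0, 0], [2, 1, 1, 0, 1, 1, 0], [2, 1, 1, 1, 2, 2, 1]] [[4, 2, 2,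
  1, 2, 2, 1], [1, 1, 0, 0, 0, 0, 0], [3, 2, 2, 0, 2, 1, 0], [4, 2, 2, 1, 2, 1, 0], [5, 2, 2, 1,
  3, 2, 1], [2, 1, 1, 0, 1, 1, 0], [2, 1, 1, 1, 2, 2, 1]] _ _ 144850281620 679190328703 _ (by
  decide +kernel) ok443 ok444

theorem nd996 : Ok 4 Dn4 [[4, 2, 2, 1, 2, 2, 1], [1, 1, 0, 0, 0, 0, 0], [3, 2, 2, 0, 2, 1, 0],
  [4, 2, 2, 1, 2, 1, 0], [1, 0, 0, 0, 1, 0, 0], [2, 1, 1, 0, 1, 1, 0], [2, 1, 1, 1, 2, 2, 1]]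
  281303178018749 [55, 151, 151, 175, 175, 211, 259] 211642787506 :=
  dec4 2 5 0 _ _ 281440616972221 _ [55, 151, 151, 175, 175, 211, 259] _ (by decide +kernel) nd995

theorem nd997 : Ok 4 Dn4 [[2, 1, 1, 0, 0, 0, 0], [1, 1, 0, 0, 0, 0, 0], [3, 2, 2, 0, 2, 1, 0],
  [4, 2, 2, 1, 2, 1, 0], [1, 0, 0, 0, 1, 0, 0], [2, 1, 1, 0, 1, 1, 0], [2, 1, 1, 1, 2, 2, 1]]
  281303178018749 [55, 151, 151, 175, 175, 211, 259] 119380943047 :=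
  cut4 0 6 1 1 1 _ [[4, 2, 2, 1, 2, 2, 1], [1, 1, 0, 0, 0, 0, 0], [3, 2, 2, 0, 2, 1, 0], [4, 2,
  2, 1, 2, 1, 0], [1, 0, 0, 0, 1, 0, 0], [2, 1, 1, 0, 1, 1, 0], [2, 1, 1, 1, 2, 2, 1]] [[2, 1, 1,
  0, 0, 0, 0], [1, 1, 0, 0, 0, 0, 0], [3, 2, 2, 0, 2, 1, 0], [4, 2, 2, 1, 2, 1, 0], [1, 0, 0, 0,
  1, 0, 0], [2, 1, 1, 0, 1, 1, 0], [4, 2, 2, 1, 2, 2, 1]] _ _ 211642787506 82476205263 _ (by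
  decide +kernel) nd996 ok445

theorem nd998 : Ok 4 Dn4 [[2, 1, 1, 0, 0, 0, 0], [1, 1, 0, 0, 0, 0, 0], [3, 2, 2, 0, 2, 1, 0],
  [4, 2, 2, 1, 2, 1, 0], [1, 0, 0, 0, 1, 0, 0], [2, 1, 1, 0, 1, 1, 0], [2, 1, 1, 1, 2, 2, 1]]
  281302104276925 [55, 151, 151, 175, 175, 211, 259] 119380943047 :=
  dec4 1 14 0 _ _ 281303178018749 _ [55, 151, 151, 175, 175, 211, 259] _ (by decide +kernel) nd997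

theorem nd999 : Ok 4 Dn4 [[2, 1, 1, 0, 0, 0, 0], [1, 1, 0, 0, 0, 0, 0], [3, 2, 2, 0, 2, 1, 0],
  [3, 2, 2, 1, 1, 1, 0], [1, 0, 0, 0, 1, 0, 0], [2, 1, 1, 0, 1, 1, 0], [2, 1, 1, 1, 2, 2, 1]]
  281302104276925 [55, 151, 151, 175, 175, 211, 259] 142137852133 :=
  cut4 3 4 1 1 1 _ [[2, 1, 1, 0, 0, 0, 0], [1, 1, 0, 0, 0, 0, 0], [3, 2, 2, 0, 2, 1, 0], [4, 2,
  2, 1, 2, 1, 0], [1, 0, 0, 0, 1, 0, 0], [2, 1, 1, 0, 1, 1, 0], [2, 1, 1, 1, 2, 2, 1]] [[2, 1, 1,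
  0, 0, 0, 0], [1, 1, 0, 0, 0, 0, 0], [3, 2, 2, 0, 2, 1, 0], [3, 2, 2, 1, 1, 1, 0], [4, 2, 2, 1,
  2, 1, 0], [2, 1, 1, 0, 1, 1, 0], [2, 1, 1, 1, 2, 2, 1]] _ _ 119380943047 255922397559 _ (by
  decide +kernel) nd998 ok446

theorem nd1000 : Ok 4 Dn4 [[2, 1, 1, 0, 0, 0, 0], [1, 1, 0, 0, 0, 0, 0], [3, 2, 2, 0, 2, 1, 0],
  [1, 1, 1, 1, 1, 1, 0], [1, 0, 0, 0, 1, 0, 0], [2, 1, 1, 0, 1, 1, 0], [2, 1, 1, 1, 2, 2, 1]]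
  281302104276925 [55, 151, 151, 175, 175, 211, 259] 206757512102 :=
  cut4 0 3 1 1 1 _ [[3, 2, 2, 1, 1, 1, 0], [1, 1, 0, 0, 0, 0, 0], [3, 2, 2, 0, 2, 1, 0], [1, 1,
  1, 1, 1, 1, 0], [1, 0, 0, 0, 1, 0, 0], [2, 1, 1, 0, 1, 1, 0], [2, 1, 1, 1, 2, 2, 1]] [[2, 1, 1,
  0, 0, 0, 0], [1, 1, 0, 0, 0, 0, 0], [3, 2, 2, 0, 2, 1, 0], [3, 2, 2, 1, 1, 1, 0], [1, 0, 0, 0,
  1, 0, 0], [2, 1, 1, 0, 1, 1, 0], [2, 1, 1, 1, 2, 2, 1]] _ _ 303687002054 142137852133 _ (by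
  decide +kernel) nd994 nd999

theorem nd1001 : Ok 4 Dn4 [[2, 1, 1, 0, 0, 0, 0], [1, 1, 0, 0, 0, 0, 0], [3, 2, 2, 0, 2, 1, 0],
  [1, 1, 1, 1, 1, 1, 0], [1, 0, 0, 0, 1, 0, 0], [2, 1, 1, 0, 1, 1, 0], [2, 1, 1, 1, 2, 2, 1]]
  281302104260541 [41, 149, 149, 173, 173, 197, 245] 206757512102 :=
  dec4 0 14 1 _ _ 281302104276925 _ [55, 151, 151, 175, 175, 211, 259] _ (by decide +kernel)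
  nd1000

theorem nd1002 : Ok 4 Dn4 [[2, 1, 1, 0, 0, 0, 0], [1, 1, 0, 0, 0, 0, 0], [3, 2, 2, 0, 2, 1, 0],
  [1, 1, 1, 1, 1, 1, 0], [1, 0, 0, 0, 1, 0, 0], [2, 1, 1, 0, 1, 1, 0], [1, 0, 0, 0, 1, 1, 1]]
  281302104260541 [41, 149, 149, 173, 173, 197, 245] 132592474157 :=
  cut4 3 6 1 1 1 _ [[2, 1, 1, 0, 0, 0, 0], [1, 1, 0, 0, 0, 0, 0], [3, 2, 2, 0, 2, 1, 0], [2, 1,
  1, 1, 2, 2, 1], [1, 0, 0, 0, 1, 0, 0], [2, 1, 1, 0, 1, 1, 0], [1, 0, 0, 0, 1, 1, 1]] [[2, 1, 1,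
  0, 0, 0, 0], [1, 1, 0, 0, 0, 0, 0], [3, 2, 2, 0, 2, 1, 0], [1, 1, 1, 1, 1, 1, 0], [1, 0, 0, 0,
  1, 0, 0], [2, 1, 1, 0, 1, 1, 0], [2, 1, 1, 1, 2, 2, 1]] _ _ 83149115526 206757512102 _ (by
  decide +kernel) ok439 nd1001

theorem nd1003 : Ok 4 Dn4 [[2, 1, 1, 0, 0, 0, 0], [1, 1, 0, 0, 0, 0, 0], [3, 2, 2, 0, 2, 1, 0],
  [1, 1, 1, 1, 1, 1, 0], [1, 0, 0, 0, 1, 0, 0], [2, 1, 1, 0, 1, 1, 0], [1, 0, 0, 0, 1, 1, 1]]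
  281302100066237 [41, 149, 149, 173, 173, 197, 245] 132592474157 :=
  dec4 1 6 0 _ _ 281302104260541 _ [41, 149, 149, 173, 173, 197, 245] _ (by decide +kernel) nd1002

theorem nd1004 : Ok 4 Dn4 [[2, 1, 1, 0, 0, 0, 0], [1, 1, 0, 0, 0, 0, 0], [3, 2, 2, 0, 2, 1, 0],
  [1, 1, 1, 1, 1, 1, 0], [1, 0, 0, 0, 1, 0, 0], [2, 1, 1, 0, 1, 1, 0], [1, 0, 0, 0, 1, 1, 1]]
  281302100065725 [37, 121, 121, 169, 169, 169, 217] 132592474157 :=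
  dec4 0 9 1 _ _ 281302100066237 _ [41, 149, 149, 173, 173, 197, 245] _ (by decide +kernel) nd1003

theorem nd1005 : Ok 4 Dn4 [[2, 1, 1, 0, 0, 0, 0], [1, 1, 0, 0, 0, 0, 0], [3, 2, 2, 0, 2, 2, 1],
  [1, 1, 1, 1, 1, 1, 0], [3, 2, 2, 0, 2, 1, 0], [2, 1, 1, 0, 1, 1, 0], [2, 1, 1, 1, 2, 2, 1]]
  281303178018751 [65, 125, 125, 173, 185, 185, 245] 754274024646 :=
  cut4 0 3 1 1 1 _ [[3, 2, 2, 1, 1, 1, 0], [1, 1, 0, 0, 0, 0, 0], [3, 2, 2, 0, 2, 2, 1], [1, 1,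
  1, 1, 1, 1, 0], [3, 2, 2, 0, 2, 1, 0], [2, 1, 1, 0, 1, 1, 0], [2, 1, 1, 1, 2, 2, 1]] [[2, 1, 1,
  0, 0, 0, 0], [1, 1, 0, 0, 0, 0, 0], [3, 2, 2, 0, 2, 2, 1], [3, 2, 2, 1, 1, 1, 0], [3, 2, 2, 0,
  2, 1, 0], [2, 1, 1, 0, 1, 1, 0], [2, 1, 1, 1, 2, 2, 1]] _ _ 1057635654599 552032938010 _ (by
  decide +kernel) ok448 ok449

theorem nd1006 : Ok 4 Dn4 [[2, 1, 1, 0, 0, 0, 0], [1, 1, 0, 0, 0, 0, 0], [3, 2, 2, 0, 2, 2, 1],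
  [1, 1, 1, 1, 1, 1, 0], [3, 2, 2, 0, 2, 1, 0], [2, 1, 1, 0, 1, 1, 0], [2, 1, 1, 1, 2, 2, 1]]
  281302104276927 [51, 123, 123, 171, 171, 183, 231] 754274024646 :=
  dec4 1 14 1 _ _ 281303178018751 _ [65, 125, 125, 173, 185, 185, 245] _ (by decide +kernel)
  nd1005

theorem nd1007 : Ok 4 Dn4 [[2, 1, 1, 0, 0, 0, 0], [1, 1, 0, 0, 0, 0, 0], [3, 2, 2, 0, 2, 2, 1],
  [1, 1, 1, 1, 1, 1, 0], [3, 2, 2, 0, 2, 1, 0], [2, 1, 1, 0, 1, 1, 0], [2, 1, 1, 1, 2, 2, 1]]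
  281302104260543 [37, 121, 121, 169, 169, 169, 217] 754274024646 :=
  dec4 0 14 1 _ _ 281302104276927 _ [51, 123, 123, 171, 171, 183, 231] _ (by decide +kernel)
  nd1006

theorem nd1008 : Ok 4 Dn4 [[2, 1, 1, 0, 0, 0, 0], [1, 1, 0, 0, 0, 0, 0], [3, 2, 2, 0, 2, 2, 1],
  [1, 1, 1, 1, 1, 1, 0], [3, 2, 2, 0, 2, 1, 0], [2, 1, 1, 0, 1, 1, 0], [1, 0, 0, 0, 1, 1, 1]]
  281302104260543 [37, 121, 121, 169, 169, 169, 217] 630071847359 :=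
  cut4 3 6 1 1 1 _ [[2, 1, 1, 0, 0, 0, 0], [1, 1, 0, 0, 0, 0, 0], [3, 2, 2, 0, 2, 2, 1], [2, 1,
  1, 1, 2, 2, 1], [3, 2, 2, 0, 2, 1, 0], [2, 1, 1, 0, 1, 1, 0], [1, 0, 0, 0, 1, 1, 1]] [[2, 1, 1,
  0, 0, 0, 0], [1, 1, 0, 0, 0, 0, 0], [3, 2, 2, 0, 2, 2, 1], [1, 1, 1, 1, 1, 1, 0], [3, 2, 2, 0,
  2, 1, 0], [2, 1, 1, 0, 1, 1, 0], [2, 1, 1, 1, 2, 2, 1]] _ _ 547270395833 754274024646 _ (by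
  decide +kernel) ok447 nd1007

theorem nd1009 : Ok 4 Dn4 [[2, 1, 1, 0, 0, 0, 0], [1, 1, 0, 0, 0, 0, 0], [3, 2, 2, 0, 2, 2, 1],
  [1, 1, 1, 1, 1, 1, 0], [3, 2, 2, 0, 2, 1, 0], [2, 1, 1, 0, 1, 1, 0], [1, 0, 0, 0, 1, 1, 1]]
  281302100066239 [37, 121, 121, 169, 169, 169, 217] 630071847359 :=
  dec4 1 6 0 _ _ 281302104260543 _ [37, 121, 121, 169, 169, 169, 217] _ (by decide +kernel) nd1008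

theorem nd1010 : Ok 4 Dn4 [[2, 1, 1, 0, 0, 0, 0], [1, 1, 0, 0, 0, 0, 0], [2, 2, 2, 0, 1, 1, 0],
  [1, 1, 1, 1, 1, 1, 0], [3, 2, 2, 0, 2, 1, 0], [2, 1, 1, 0, 1, 1, 0], [1, 0, 0, 0, 1, 1, 1]]
  281302100066239 [37, 121, 121, 169, 169, 169, 217] 446664633651 :=
  cut4 2 6 1 1 1 _ [[2, 1, 1, 0, 0, 0, 0], [1, 1, 0, 0, 0, 0, 0], [3, 2, 2, 0, 2, 2, 1], [1, 1,
  1, 1, 1, 1, 0], [3, 2, 2, 0, 2, 1, 0], [2, 1, 1, 0, 1, 1, 0], [1, 0, 0, 0, 1, 1, 1]] [[2, 1, 1,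
  0, 0, 0, 0], [1, 1, 0, 0, 0, 0, 0], [2, 2, 2, 0, 1, 1, 0], [1, 1, 1, 1, 1, 1, 0], [3, 2, 2, 0,
  2, 1, 0], [2, 1, 1, 0, 1, 1, 0], [3, 2, 2, 0, 2, 2, 1]] _ _ 630071847359 79850206233 _ (by
  decide +kernel) nd1009 ok450

theorem nd1011 : Ok 4 Dn4 [[2, 1, 1, 0, 0, 0, 0], [1, 1, 0, 0, 0, 0, 0], [2, 2, 2, 0, 1, 1, 0],
  [1, 1, 1, 1, 1, 1, 0], [3, 2, 2, 0, 2, 1, 0], [2, 1, 1, 0, 1, 1, 0], [1, 0, 0, 0, 1, 1, 1]]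
  281302100065727 [37, 121, 121, 169, 169, 169, 217] 446664633651 :=
  dec4 0 9 0 _ _ 281302100066239 _ [37, 121, 121, 169, 169, 169, 217] _ (by decide +kernel) nd1010

theorem nd1012 : Ok 4 Dn4 [[2, 1, 1, 0, 0, 0, 0], [1, 1, 0, 0, 0, 0, 0], [2, 2, 2, 0, 1, 1, 0],
  [1, 1, 1, 1, 1, 1, 0], [3, 2, 2, 0, 2, 1, 0], [2, 1, 1, 0, 1, 1, 0], [1, 0, 0, 0, 1, 1, 1]]
  281302100065725 [37, 121, 121, 169, 169, 169, 217] 446664633651 :=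
  dec4 0 1 0 _ _ 281302100065727 _ [37, 121, 121, 169, 169, 169, 217] _ (by decide +kernel) nd1011

theorem nd1013 : Ok 4 Dn4 [[2, 1, 1, 0, 0, 0, 0], [1, 1, 0, 0, 0, 0, 0], [2, 2, 2, 0, 1, 1, 0],
  [1, 1, 1, 1, 1, 1, 0], [1, 0, 0, 0, 1, 0, 0], [2, 1, 1, 0, 1, 1, 0], [1, 0, 0, 0, 1, 1, 1]]
  281302100065725 [37, 121, 121, 169, 169, 169, 217] 195406906056 :=
  cut4 2 4 1 1 1 _ [[2, 1, 1, 0, 0, 0, 0], [1, 1, 0, 0, 0, 0, 0], [3, 2, 2, 0, 2, 1, 0], [1, 1,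
  1, 1, 1, 1, 0], [1, 0, 0, 0, 1, 0, 0], [2, 1, 1, 0, 1, 1, 0], [1, 0, 0, 0, 1, 1, 1]] [[2, 1, 1,
  0, 0, 0, 0], [1, 1, 0, 0, 0, 0, 0], [2, 2, 2, 0, 1, 1, 0], [1, 1, 1, 1, 1, 1, 0], [3, 2, 2, 0,
  2, 1, 0], [2, 1, 1, 0, 1, 1, 0], [1, 0, 0, 0, 1, 1, 1]] _ _ 132592474157 446664633651 _ (by
  decide +kernel) nd1004 nd1012

theorem nd1014 : Ok 4 Dn4 [[2, 1, 1, 0, 0, 0, 0], [1, 1, 0, 0, 0, 0, 0], [2, 2, 2, 0, 1, 1, 0],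
  [1, 1, 1, 1, 1, 1, 0], [1, 0, 0, 0, 1, 0, 0], [2, 1, 1, 0, 1, 1, 0], [1, 0, 0, 0, 1, 1, 1]]
  140564611710397 [36, 120, 120, 168, 162, 162, 216] 195406906056 :=
  dec4 2 15 1 _ _ 281302100065725 _ [37, 121, 121, 169, 169, 169, 217] _ (by decide +kernel)
  nd1013

theorem nd1015 : Ok 4 Dn4 [[2, 1, 1, 0, 0, 0, 0], [1, 1, 0, 0, 0, 0, 0], [2, 2, 2, 0, 1, 1, 0],
  [1, 1, 1, 1, 1, 1, 0], [1, 0, 0, 0, 1, 0, 0], [2, 1, 1, 0, 1, 1, 0], [1, 0, 0, 0, 1, 1, 1]]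
  105380239621565 [34, 106, 118, 166, 148, 148, 214] 195406906056 :=
  dec4 2 13 1 _ _ 140564611710397 _ [36, 120, 120, 168, 162, 162, 216] _ (by decide +kernel)
  nd1014

theorem nd1016 : Ok 4 Dn4 [[2, 1, 1, 0, 0, 0, 0], [1, 1, 0, 0, 0, 0, 0], [2, 2, 2, 0, 1, 1, 0],
  [1, 1, 1, 1, 1, 1, 0], [1, 0, 0, 0, 1, 0, 0], [2, 1, 1, 0, 1, 1, 0], [1, 0, 0, 0, 1, 1, 1]]
  96584146599357 [32, 104, 104, 164, 134, 134, 212] 195406906056 :=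
  dec4 2 11 1 _ _ 105380239621565 _ [34, 106, 118, 166, 148, 148, 214] _ (by decide +kernel)
  nd1015

theorem nd1017 : Ok 4 Dn4 [[2, 1, 1, 0, 0, 0, 0], [1, 1, 0, 0, 0, 0, 0], [2, 2, 2, 0, 1, 1, 0],
  [1, 1, 1, 1, 1, 1, 0], [1, 0, 0, 0, 1, 0, 0], [2, 1, 1, 0, 1, 1, 0], [1, 0, 0, 0, 1, 1, 1]]
  96034390785469 [30, 102, 102, 150, 120, 120, 210] 195406906056 :=
  dec4 2 7 1 _ _ 96584146599357 _ [32, 104, 104, 164, 134, 134, 212] _ (by decide +kernel) nd1016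

theorem nd1018 : Ok 4 Dn4 [[2, 1, 1, 0, 0, 0, 0], [1, 1, 0, 0, 0, 0, 0], [2, 2, 2, 0, 1, 1, 0],
  [1, 1, 1, 1, 1, 1, 0], [1, 0, 0, 0, 1, 0, 0], [0, 0, 0, 0, 1, 1, 0], [1, 0, 0, 0, 1, 1, 1]]
  96034390785469 [30, 102, 102, 150, 120, 120, 210] 191299680756 :=
  cut4 0 5 1 1 1 _ [[2, 1, 1, 0, 1, 1, 0], [1, 1, 0, 0, 0, 0, 0], [2, 2, 2, 0, 1, 1, 0], [1, 1,
  1, 1, 1, 1, 0], [1, 0, 0, 0, 1, 0, 0], [0, 0, 0, 0, 1, 1, 0], [1, 0, 0, 0, 1, 1, 1]] [[2, 1, 1,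
  0, 0, 0, 0], [1, 1, 0, 0, 0, 0, 0], [2, 2, 2, 0, 1, 1, 0], [1, 1, 1, 1, 1, 1, 0], [1, 0, 0, 0,
  1, 0, 0], [2, 1, 1, 0, 1, 1, 0], [1, 0, 0, 0, 1, 1, 1]] _ _ 189246068105 195406906056 _ (by
  decide +kernel) nd991 nd1017

theorem nd1019 : Ok 4 Dn4 [[2, 1, 1, 0, 0, 0, 0], [1, 1, 0, 0, 0, 0, 0], [2, 2, 2, 0, 1, 1, 0],
  [1, 1, 1, 1, 1, 1, 0], [1, 0, 0, 0, 1, 0, 0], [0, 0, 0, 0, 1, 1, 0], [1, 0, 0, 0, 1, 1, 1]]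
  25665646607805 [30, 102, 102, 150, 120, 120, 210] 191299680756 :=
  dec4 2 14 0 _ _ 96034390785469 _ [30, 102, 102, 150, 120, 120, 210] _ (by decide +kernel) nd1018

theorem nd1020 : Ok 4 Dn4 [[2, 1, 1, 0, 0, 0, 0], [1, 1, 0, 0, 0, 0, 0], [3, 2, 2, 0, 2, 1, 0],
  [2, 1, 1, 1, 1, 1, 1], [2, 1, 1, 1, 2, 1, 0], [1, 1, 1, 1, 1, 1, 0], [2, 1, 1, 1, 2, 2, 1]]
  281303178018751 [69, 153, 153, 177, 189, 213, 273] 727982680437 :=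
  cut4 0 4 1 1 1 _ [[4, 2, 2, 1, 2, 1, 0], [1, 1, 0, 0, 0, 0, 0], [3, 2, 2, 0, 2, 1, 0], [2, 1,
  1, 1, 1, 1, 1], [2, 1, 1, 1, 2, 1, 0], [1, 1, 1, 1, 1, 1, 0], [2, 1, 1, 1, 2, 2, 1]] [[2, 1, 1,
  0, 0, 0, 0], [1, 1, 0, 0, 0, 0, 0], [3, 2, 2, 0, 2, 1, 0], [2, 1, 1, 1, 1, 1, 1], [4, 2, 2, 1,
  2, 1, 0], [1, 1, 1, 1, 1, 1, 0], [2, 1, 1, 1, 2, 2, 1]] _ _ 919460088715 632243976297 _ (by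
  decide +kernel) ok452 ok453

theorem nd1021 : Ok 4 Dn4 [[2, 1, 1, 0, 0, 0, 0], [1, 1, 0, 0, 0, 0, 0], [3, 2, 2, 0, 2, 1, 0],
  [2, 1, 1, 1, 1, 1, 1], [2, 1, 1, 1, 2, 1, 0], [1, 1, 1, 1, 1, 1, 0], [2, 1, 1, 1, 2, 2, 1]]
  281302104276927 [55, 151, 151, 175, 175, 211, 259] 727982680437 :=
  dec4 1 14 1 _ _ 281303178018751 _ [69, 153, 153, 177, 189, 213, 273] _ (by decide +kernel)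
  nd1020

theorem nd1022 : Ok 4 Dn4 [[2, 1, 1, 0, 0, 0, 0], [1, 1, 0, 0, 0, 0, 0], [3, 2, 2, 0, 2, 1, 0],
  [2, 1, 1, 1, 1, 1, 1], [2, 1, 1, 1, 2, 1, 0], [1, 1, 1, 1, 1, 1, 0], [2, 1, 1, 1, 2, 2, 1]]
  281302104276925 [55, 151, 151, 175, 175, 211, 259] 727982680437 :=
  dec4 0 1 0 _ _ 281302104276927 _ [55, 151, 151, 175, 175, 211, 259] _ (by decide +kernel) nd1021

theorem nd1023 : Ok 4 Dn4 [[4, 2, 2, 1, 2, 1, 0], [1, 1, 0, 0, 0, 0, 0], [3, 2, 2, 0, 2, 1, 0],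
  [2, 1, 1, 1, 1, 1, 1], [1, 0, 0, 0, 1, 0, 0], [3, 2, 1, 1, 2, 1, 0], [2, 1, 1, 1, 2, 2, 1]]
  281440616972221 [55, 151, 151, 175, 175, 211, 259] 424298774636 :=
  cut4 3 4 1 1 1 _ [[4, 2, 2, 1, 2, 1, 0], [1, 1, 0, 0, 0, 0, 0], [3, 2, 2, 0, 2, 1, 0], [3, 1,
  1, 1, 2, 1, 1], [1, 0, 0, 0, 1, 0, 0], [3, 2, 1, 1, 2, 1, 0], [2, 1, 1, 1, 2, 2, 1]] [[4, 2, 2,
  1, 2, 1, 0], [1, 1, 0, 0, 0, 0, 0], [3, 2, 2, 0, 2, 1, 0], [2, 1, 1, 1, 1, 1, 1], [3, 1, 1, 1,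
  2, 1, 1], [3, 2, 1, 1, 2, 1, 0], [2, 1, 1, 1, 2, 2, 1]] _ _ 224262630773 1224443350085 _ (by
  decide +kernel) ok455 ok456

theorem nd1024 : Ok 4 Dn4 [[4, 2, 2, 1, 2, 1, 0], [1, 1, 0, 0, 0, 0, 0], [3, 2, 2, 0, 2, 1, 0],
  [2, 1, 1, 1, 1, 1, 1], [1, 0, 0, 0, 1, 0, 0], [2, 1, 1, 1, 2, 1, 0], [2, 1, 1, 1, 2, 2, 1]]
  281440616972221 [55, 151, 151, 175, 175, 211, 259] 468608016589 :=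
  cut4 1 5 1 1 1 _ [[4, 2, 2, 1, 2, 1, 0], [3, 2, 1, 1, 2, 1, 0], [3, 2, 2, 0, 2, 1, 0], [2, 1,
  1, 1, 1, 1, 1], [1, 0, 0, 0, 1, 0, 0], [2, 1, 1, 1, 2, 1, 0], [2, 1, 1, 1, 2, 2, 1]] [[4, 2, 2,
  1, 2, 1, 0], [1, 1, 0, 0, 0, 0, 0], [3, 2, 2, 0, 2, 1, 0], [2, 1, 1, 1, 1, 1, 1], [1, 0, 0, 0,
  1, 0, 0], [3, 2, 1, 1, 2, 1, 0], [2, 1, 1, 1, 2, 2, 1]] _ _ 645844984401 424298774636 _ (by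
  decide +kernel) ok454 nd1023

theorem nd1025 : Ok 4 Dn4 [[4, 2, 2, 1, 2, 1, 0], [1, 1, 0, 0, 0, 0, 0], [3, 2, 2, 0, 2, 1, 0],
  [2, 1, 1, 1, 1, 1, 1], [1, 0, 0, 0, 1, 0, 0], [2, 1, 1, 1, 2, 1, 0], [2, 1, 1, 1, 2, 2, 1]]
  281303178018749 [55, 151, 151, 175, 175, 211, 259] 468608016589 :=
  dec4 2 5 0 _ _ 281440616972221 _ [55, 151, 151, 175, 175, 211, 259] _ (by decide +kernel) nd1024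

theorem nd1026 : Ok 4 Dn4 [[8, 4, 4, 1, 5, 3, 1], [1, 1, 0, 0, 0, 0, 0], [3, 2, 2, 0, 2, 1, 0],
  [2, 1, 1, 1, 1, 1, 1], [1, 0, 0, 0, 1, 0, 0], [4, 2, 2, 1, 2, 1, 0], [2, 1, 1, 1, 2, 2, 1]]
  281440616972221 [55, 151, 151, 175, 175, 211, 259] 345756897635 :=
  cut4 3 4 1 1 1 _ [[8, 4, 4, 1, 5, 3, 1], [1, 1, 0, 0, 0, 0, 0], [3, 2, 2, 0, 2, 1, 0], [3, 1,
  1, 1, 2, 1, 1], [1, 0, 0, 0, 1, 0, 0], [4, 2, 2, 1, 2, 1, 0], [2, 1, 1, 1, 2, 2, 1]] [[8, 4, 4,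
  1, 5, 3, 1], [1, 1, 0, 0, 0, 0, 0], [3, 2, 2, 0, 2, 1, 0], [2, 1, 1, 1, 1, 1, 1], [3, 1, 1, 1,
  2, 1, 1], [4, 2, 2, 1, 2, 1, 0], [2, 1, 1, 1, 2, 2, 1]] _ _ 181809520780 1001546405053 _ (by
  decide +kernel) ok457 ok458

theorem nd1027 : Ok 4 Dn4 [[5, 2, 2, 1, 3, 2, 1], [1, 1, 0, 0, 0, 0, 0], [3, 2, 2, 0, 2, 1, 0],
  [2, 1, 1, 1, 1, 1, 1], [1, 0, 0, 0, 1, 0, 0], [4, 2, 2, 1, 2, 1, 0], [2, 1, 1, 1, 2, 2, 1]]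
  281440616972221 [55, 151, 151, 175, 175, 211, 259] 374769045159 :=
  cut4 0 2 1 1 1 _ [[8, 4, 4, 1, 5, 3, 1], [1, 1, 0, 0, 0, 0, 0], [3, 2, 2, 0, 2, 1, 0], [2, 1,
  1, 1, 1, 1, 1], [1, 0, 0, 0, 1, 0, 0], [4, 2, 2, 1, 2, 1, 0], [2, 1, 1, 1, 2, 2, 1]] [[5, 2, 2,
  1, 3, 2, 1], [1, 1, 0, 0, 0, 0, 0], [8, 4, 4, 1, 5, 3, 1], [2, 1, 1, 1, 1, 1, 1], [1, 0, 0, 0,
  1, 0, 0], [4, 2, 2, 1, 2, 1, 0], [2, 1, 1, 1, 2, 2, 1]] _ _ 345756897635 421188481196 _ (by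
  decide +kernel) nd1026 ok459

theorem nd1028 : Ok 4 Dn4 [[4, 2, 2, 1, 2, 2, 1], [1, 1, 0, 0, 0, 0, 0], [3, 2, 2, 0, 2, 1, 0],
  [2, 1, 1, 1, 1, 1, 1], [1, 0, 0, 0, 1, 0, 0], [4, 2, 2, 1, 2, 1, 0], [2, 1, 1, 1, 2, 2, 1]]
  281440616972221 [55, 151, 151, 175, 175, 211, 259] 451123834514 :=
  cut4 0 4 1 1 1 _ [[5, 2, 2, 1, 3, 2, 1], [1, 1, 0, 0, 0, 0, 0], [3, 2, 2, 0, 2, 1, 0], [2, 1,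
  1, 1, 1, 1, 1], [1, 0, 0, 0, 1, 0, 0], [4, 2, 2, 1, 2, 1, 0], [2, 1, 1, 1, 2, 2, 1]] [[4, 2, 2,
  1, 2, 2, 1], [1, 1, 0, 0, 0, 0, 0], [3, 2, 2, 0, 2, 1, 0], [2, 1, 1, 1, 1, 1, 1], [5, 2, 2, 1,
  3, 2, 1], [4, 2, 2, 1, 2, 1, 0], [2, 1, 1, 1, 2, 2, 1]] _ _ 374769045159 985607359998 _ (by
  decide +kernel) nd1027 ok460

theorem nd1029 : Ok 4 Dn4 [[4, 2, 2, 1, 2, 2, 1], [1, 1, 0, 0, 0, 0, 0], [3, 2, 2, 0, 2, 1, 0],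
  [2, 1, 1, 1, 1, 1, 1], [1, 0, 0, 0, 1, 0, 0], [4, 2, 2, 1, 2, 1, 0], [2, 1, 1, 1, 2, 2, 1]]
  281303178018749 [55, 151, 151, 175, 175, 211, 259] 451123834514 :=
  dec4 2 5 0 _ _ 281440616972221 _ [55, 151, 151, 175, 175, 211, 259] _ (by decide +kernel) nd1028

theorem nd1030 : Ok 4 Dn4 [[2, 1, 1, 0, 0, 0, 0], [1, 1, 0, 0, 0, 0, 0], [3, 2, 2, 0, 2, 1, 0],
  [2, 1, 1, 1, 1, 1, 1], [1, 0, 0, 0, 1, 0, 0], [4, 2, 2, 1, 2, 1, 0], [2, 1, 1, 1, 2, 2, 1]]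
  281303178018749 [55, 151, 151, 175, 175, 211, 259] 271545598224 :=
  cut4 0 6 1 1 1 _ [[4, 2, 2, 1, 2, 2, 1], [1, 1, 0, 0, 0, 0, 0], [3, 2, 2, 0, 2, 1, 0], [2, 1,
  1, 1, 1, 1, 1], [1, 0, 0, 0, 1, 0, 0], [4, 2, 2, 1, 2, 1, 0], [2, 1, 1, 1, 2, 2, 1]] [[2, 1, 1,
  0, 0, 0, 0], [1, 1, 0, 0, 0, 0, 0], [3, 2, 2, 0, 2, 1, 0], [2, 1, 1, 1, 1, 1, 1], [1, 0, 0, 0,
  1, 0, 0], [4, 2, 2, 1, 2, 1, 0], [4, 2, 2, 1, 2, 2, 1]] _ _ 451123834514 199714303708 _ (by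
  decide +kernel) nd1029 ok461

theorem nd1031 : Ok 4 Dn4 [[2, 1, 1, 0, 0, 0, 0], [1, 1, 0, 0, 0, 0, 0], [3, 2, 2, 0, 2, 1, 0],
  [2, 1, 1, 1, 1, 1, 1], [1, 0, 0, 0, 1, 0, 0], [2, 1, 1, 1, 2, 1, 0], [2, 1, 1, 1, 2, 2, 1]]
  281303178018749 [55, 151, 151, 175, 175, 211, 259] 337233071013 :=
  cut4 0 5 1 1 1 _ [[4, 2, 2, 1, 2, 1, 0], [1, 1, 0, 0, 0, 0, 0], [3, 2, 2, 0, 2, 1, 0], [2, 1,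
  1, 1, 1, 1, 1], [1, 0, 0, 0, 1, 0, 0], [2, 1, 1, 1, 2, 1, 0], [2, 1, 1, 1, 2, 2, 1]] [[2, 1, 1,
  0, 0, 0, 0], [1, 1, 0, 0, 0, 0, 0], [3, 2, 2, 0, 2, 1, 0], [2, 1, 1, 1, 1, 1, 1], [1, 0, 0, 0,
  1, 0, 0], [4, 2, 2, 1, 2, 1, 0], [2, 1, 1, 1, 2, 2, 1]] _ _ 468608016589 271545598224 _ (by
  decide +kernel) nd1025 nd1030

theorem nd1032 : Ok 4 Dn4 [[2, 1, 1, 0, 0, 0, 0], [1, 1, 0, 0, 0, 0, 0], [3, 2, 2, 0, 2, 1, 0],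
  [2, 1, 1, 1, 1, 1, 1], [1, 0, 0, 0, 1, 0, 0], [2, 1, 1, 1, 2, 1, 0], [2, 1, 1, 1, 2, 2, 1]]
  281302104276925 [55, 151, 151, 175, 175, 211, 259] 337233071013 :=
  dec4 1 14 0 _ _ 281303178018749 _ [55, 151, 151, 175, 175, 211, 259] _ (by decide +kernel)
  nd1031

theorem nd1033 : Ok 4 Dn4 [[2, 1, 1, 0, 0, 0, 0], [1, 1, 0, 0, 0, 0, 0], [3, 2, 2, 0, 2, 1, 0],
  [2, 1, 1, 1, 1, 1, 1], [1, 0, 0, 0, 1, 0, 0], [1, 1, 1, 1, 1, 1, 0], [2, 1, 1, 1, 2, 2, 1]]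
  281302104276925 [55, 151, 151, 175, 175, 211, 259] 434920473369 :=
  cut4 4 5 1 1 1 _ [[2, 1, 1, 0, 0, 0, 0], [1, 1, 0, 0, 0, 0, 0], [3, 2, 2, 0, 2, 1, 0], [2, 1,
  1, 1, 1, 1, 1], [2, 1, 1, 1, 2, 1, 0], [1, 1, 1, 1, 1, 1, 0], [2, 1, 1, 1, 2, 2, 1]] [[2, 1, 1,
  0, 0, 0, 0], [1, 1, 0, 0, 0, 0, 0], [3, 2, 2, 0, 2, 1, 0], [2, 1, 1, 1, 1, 1, 1], [1, 0, 0, 0,
  1, 0, 0], [2, 1, 1, 1, 2, 1, 0], [2, 1, 1, 1, 2, 2, 1]] _ _ 727982680437 337233071013 _ (by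
  decide +kernel) nd1022 nd1032

theorem nd1034 : Ok 4 Dn4 [[2, 1, 1, 0, 0, 0, 0], [1, 1, 0, 0, 0, 0, 0], [3, 2, 2, 0, 2, 1, 0],
  [2, 1, 1, 1, 1, 1, 1], [1, 0, 0, 0, 1, 0, 0], [1, 1, 1, 1, 1, 1, 0], [2, 1, 1, 1, 2, 2, 1]]
  281302104260541 [41, 149, 149, 173, 173, 197, 245] 434920473369 :=
  dec4 0 14 1 _ _ 281302104276925 _ [55, 151, 151, 175, 175, 211, 259] _ (by decide +kernel)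
  nd1033

theorem nd1035 : Ok 4 Dn4 [[2, 1, 1, 0, 0, 0, 0], [1, 1, 0, 0, 0, 0, 0], [3, 2, 2, 0, 2, 1, 0],
  [2, 1, 1, 1, 1, 1, 1], [1, 0, 0, 0, 1, 0, 0], [1, 1, 1, 1, 1, 1, 0], [1, 0, 0, 0, 1, 1, 1]]
  281302104260541 [41, 149, 149, 173, 173, 197, 245] 290141792306 :=
  cut4 5 6 1 1 1 _ [[2, 1, 1, 0, 0, 0, 0], [1, 1, 0, 0, 0, 0, 0], [3, 2, 2, 0, 2, 1, 0], [2, 1,
  1, 1, 1, 1, 1], [1, 0, 0, 0, 1, 0, 0], [2, 1, 1, 1, 2, 2, 1], [1, 0, 0, 0, 1, 1, 1]] [[2, 1, 1,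
  0, 0, 0, 0], [1, 1, 0, 0, 0, 0, 0], [3, 2, 2, 0, 2, 1, 0], [2, 1, 1, 1, 1, 1, 1], [1, 0, 0, 0,
  1, 0, 0], [1, 1, 1, 1, 1, 1, 0], [2, 1, 1, 1, 2, 2, 1]] _ _ 193622671597 434920473369 _ (by
  decide +kernel) ok451 nd1034

theorem nd1036 : Ok 4 Dn4 [[2, 1, 1, 0, 0, 0, 0], [1, 1, 0, 0, 0, 0, 0], [3, 2, 2, 0, 2, 1, 0],
  [2, 1, 1, 1, 1, 1, 1], [1, 0, 0, 0, 1, 0, 0], [1, 1, 1, 1, 1, 1, 0], [1, 0, 0, 0, 1, 1, 1]]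
  281302100066237 [41, 149, 149, 173, 173, 197, 245] 290141792306 :=
  dec4 1 6 0 _ _ 281302104260541 _ [41, 149, 149, 173, 173, 197, 245] _ (by decide +kernel) nd1035

theorem nd1037 : Ok 4 Dn4 [[2, 1, 1, 0, 0, 0, 0], [1, 1, 0, 0, 0, 0, 0], [3, 2, 2, 0, 2, 1, 0],
  [2, 1, 1, 1, 1, 1, 1], [1, 0, 0, 0, 1, 0, 0], [1, 1, 1, 1, 1, 1, 0], [1, 0, 0, 0, 1, 1, 1]]
  281302100065725 [37, 121, 121, 169, 169, 169, 217] 290141792306 :=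
  dec4 0 9 1 _ _ 281302100066237 _ [41, 149, 149, 173, 173, 197, 245] _ (by decide +kernel) nd1036

theorem nd1038 : Ok 4 Dn4 [[3, 2, 2, 1, 1, 1, 0], [1, 1, 0, 0, 0, 0, 0], [3, 2, 2, 0, 2, 2, 1],
  [2, 1, 1, 1, 1, 1, 1], [3, 2, 2, 0, 2, 1, 0], [1, 1, 1, 1, 1, 1, 0], [2, 1, 1, 1, 2, 2, 1]]
  281440616972223 [65, 125, 125, 173, 185, 185, 245] 1864871062386 :=
  cut4 3 4 1 1 1 _ [[3, 2, 2, 1, 1, 1, 0], [1, 1, 0, 0, 0, 0, 0], [3, 2, 2, 0, 2, 2, 1], [5, 3,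
  3, 1, 3, 2, 1], [3, 2, 2, 0, 2, 1, 0], [1, 1, 1, 1, 1, 1, 0], [2, 1, 1, 1, 2, 2, 1]] [[3, 2, 2,
  1, 1, 1, 0], [1, 1, 0, 0, 0, 0, 0], [3, 2, 2, 0, 2, 2, 1], [2, 1, 1, 1, 1, 1, 1], [5, 3, 3, 1,
  3, 2, 1], [1, 1, 1, 1, 1, 1, 0], [2, 1, 1, 1, 2, 2, 1]] _ _ 1233217212889 2370194141982 _ (by
  decide +kernel) ok463 ok464

theorem nd1039 : Ok 4 Dn4 [[3, 2, 2, 1, 1, 1, 0], [1, 1, 0, 0, 0, 0, 0], [3, 2, 2, 0, 2, 2, 1],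
  [2, 1, 1, 1, 1, 1, 1], [3, 2, 2, 0, 2, 1, 0], [1, 1, 1, 1, 1, 1, 0], [2, 1, 1, 1, 2, 2, 1]]
  281303178018751 [65, 125, 125, 173, 185, 185, 245] 1864871062386 :=
  dec4 2 5 0 _ _ 281440616972223 _ [65, 125, 125, 173, 185, 185, 245] _ (by decide +kernel) nd1038

theorem nd1040 : Ok 4 Dn4 [[2, 1, 1, 0, 0, 0, 0], [1, 1, 0, 0, 0, 0, 0], [3, 2, 2, 0, 2, 2, 1],
  [2, 1, 1, 1, 1, 1, 1], [3, 2, 2, 0, 2, 1, 0], [1, 1, 1, 1, 1, 1, 0], [2, 1, 1, 1, 2, 2, 1]]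
  281303178018751 [65, 125, 125, 173, 185, 185, 245] 1300469365707 :=
  cut4 0 5 1 1 1 _ [[3, 2, 2, 1, 1, 1, 0], [1, 1, 0, 0, 0, 0, 0], [3, 2, 2, 0, 2, 2, 1], [2, 1,
  1, 1, 1, 1, 1], [3, 2, 2, 0, 2, 1, 0], [1, 1, 1, 1, 1, 1, 0], [2, 1, 1, 1, 2, 2, 1]] [[2, 1, 1,
  0, 0, 0, 0], [1, 1, 0, 0, 0, 0, 0], [3, 2, 2, 0, 2, 2, 1], [2, 1, 1, 1, 1, 1, 1], [3, 2, 2, 0,
  2, 1, 0], [3, 2, 2, 1, 1, 1, 0], [2, 1, 1, 1, 2, 2, 1]] _ _ 1864871062386 924201567920 _ (by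
  decide +kernel) nd1039 ok465

theorem nd1041 : Ok 4 Dn4 [[2, 1, 1, 0, 0, 0, 0], [1, 1, 0, 0, 0, 0, 0], [3, 2, 2, 0, 2, 2, 1],
  [2, 1, 1, 1, 1, 1, 1], [3, 2, 2, 0, 2, 1, 0], [1, 1, 1, 1, 1, 1, 0], [2, 1, 1, 1, 2, 2, 1]]
  281302104276927 [51, 123, 123, 171, 171, 183, 231] 1300469365707 :=
  dec4 1 14 1 _ _ 281303178018751 _ [65, 125, 125, 173, 185, 185, 245] _ (by decide +kernel)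
  nd1040

theorem nd1042 : Ok 4 Dn4 [[2, 1, 1, 0, 0, 0, 0], [1, 1, 0, 0, 0, 0, 0], [3, 2, 2, 0, 2, 2, 1],
  [2, 1, 1, 1, 1, 1, 1], [3, 2, 2, 0, 2, 1, 0], [1, 1, 1, 1, 1, 1, 0], [2, 1, 1, 1, 2, 2, 1]]
  281302104260543 [37, 121, 121, 169, 169, 169, 217] 1300469365707 :=
  dec4 0 14 1 _ _ 281302104276927 _ [51, 123, 123, 171, 171, 183, 231] _ (by decide +kernel)
  nd1041

theorem nd1043 : Ok 4 Dn4 [[2, 1, 1, 0, 0, 0, 0], [1, 1, 0, 0, 0, 0, 0], [3, 2, 2, 0, 2, 2, 1],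
  [2, 1, 1, 1, 1, 1, 1], [3, 2, 2, 0, 2, 1, 0], [1, 1, 1, 1, 1, 1, 0], [1, 0, 0, 0, 1, 1, 1]]
  281302104260543 [37, 121, 121, 169, 169, 169, 217] 1041496565247 :=
  cut4 5 6 1 1 1 _ [[2, 1, 1, 0, 0, 0, 0], [1, 1, 0, 0, 0, 0, 0], [3, 2, 2, 0, 2, 2, 1], [2, 1,
  1, 1, 1, 1, 1], [3, 2, 2, 0, 2, 1, 0], [2, 1, 1, 1, 2, 2, 1], [1, 0, 0, 0, 1, 1, 1]] [[2, 1, 1,
  0, 0, 0, 0], [1, 1, 0, 0, 0, 0, 0], [3, 2, 2, 0, 2, 2, 1], [2, 1, 1, 1, 1, 1, 1], [3, 2, 2, 0,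
  2, 1, 0], [1, 1, 1, 1, 1, 1, 0], [2, 1, 1, 1, 2, 2, 1]] _ _ 868848031607 1300469365707 _ (by
  decide +kernel) ok462 nd1042

theorem nd1044 : Ok 4 Dn4 [[2, 1, 1, 0, 0, 0, 0], [1, 1, 0, 0, 0, 0, 0], [3, 2, 2, 0, 2, 2, 1],
  [2, 1, 1, 1, 1, 1, 1], [3, 2, 2, 0, 2, 1, 0], [1, 1, 1, 1, 1, 1, 0], [1, 0, 0, 0, 1, 1, 1]]
  281302100066239 [37, 121, 121, 169, 169, 169, 217] 1041496565247 :=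
  dec4 1 6 0 _ _ 281302104260543 _ [37, 121, 121, 169, 169, 169, 217] _ (by decide +kernel) nd1043

theorem nd1045 : Ok 4 Dn4 [[2, 1, 1, 0, 0, 0, 0], [1, 1, 0, 0, 0, 0, 0], [2, 2, 2, 0, 1, 1, 0],
  [2, 1, 1, 1, 1, 1, 1], [3, 2, 2, 0, 2, 1, 0], [1, 1, 1, 1, 1, 1, 0], [1, 0, 0, 0, 1, 1, 1]]
  281302100066239 [37, 121, 121, 169, 169, 169, 217] 884161887293 :=
  cut4 2 6 1 1 1 _ [[2, 1, 1, 0, 0, 0, 0], [1, 1, 0, 0, 0, 0, 0], [3, 2, 2, 0, 2, 2, 1], [2, 1,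
  1, 1, 1, 1, 1], [3, 2, 2, 0, 2, 1, 0], [1, 1, 1, 1, 1, 1, 0], [1, 0, 0, 0, 1, 1, 1]] [[2, 1, 1,
  0, 0, 0, 0], [1, 1, 0, 0, 0, 0, 0], [2, 2, 2, 0, 1, 1, 0], [2, 1, 1, 1, 1, 1, 1], [3, 2, 2, 0,
  2, 1, 0], [1, 1, 1, 1, 1, 1, 0], [3, 2, 2, 0, 2, 2, 1]] _ _ 1041496565247 569492531385 _ (by
  decide +kernel) nd1044 ok466

theorem nd1046 : Ok 4 Dn4 [[2, 1, 1, 0, 0, 0, 0], [1, 1, 0, 0, 0, 0, 0], [2, 2, 2, 0, 1, 1, 0],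
  [2, 1, 1, 1, 1, 1, 1], [3, 2, 2, 0, 2, 1, 0], [1, 1, 1, 1, 1, 1, 0], [1, 0, 0, 0, 1, 1, 1]]
  281302100065727 [37, 121, 121, 169, 169, 169, 217] 884161887293 :=
  dec4 0 9 0 _ _ 281302100066239 _ [37, 121, 121, 169, 169, 169, 217] _ (by decide +kernel) nd1045

theorem nd1047 : Ok 4 Dn4 [[2, 1, 1, 0, 0, 0, 0], [1, 1, 0, 0, 0, 0, 0], [2, 2, 2, 0, 1, 1, 0],
  [2, 1, 1, 1, 1, 1, 1], [3, 2, 2, 0, 2, 1, 0], [1, 1, 1, 1, 1, 1, 0], [1, 0, 0, 0, 1, 1, 1]]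
  281302100065725 [37, 121, 121, 169, 169, 169, 217] 884161887293 :=
  dec4 0 1 0 _ _ 281302100065727 _ [37, 121, 121, 169, 169, 169, 217] _ (by decide +kernel) nd1046

theorem nd1048 : Ok 4 Dn4 [[2, 1, 1, 0, 0, 0, 0], [1, 1, 0, 0, 0, 0, 0], [2, 2, 2, 0, 1, 1, 0],
  [2, 1, 1, 1, 1, 1, 1], [1, 0, 0, 0, 1, 0, 0], [1, 1, 1, 1, 1, 1, 0], [1, 0, 0, 0, 1, 1, 1]]
  281302100065725 [37, 121, 121, 169, 169, 169, 217] 408945811304 :=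
  cut4 2 4 1 1 1 _ [[2, 1, 1, 0, 0, 0, 0], [1, 1, 0, 0, 0, 0, 0], [3, 2, 2, 0, 2, 1, 0], [2, 1,
  1, 1, 1, 1, 1], [1, 0, 0, 0, 1, 0, 0], [1, 1, 1, 1, 1, 1, 0], [1, 0, 0, 0, 1, 1, 1]] [[2, 1, 1,
  0, 0, 0, 0], [1, 1, 0, 0, 0, 0, 0], [2, 2, 2, 0, 1, 1, 0], [2, 1, 1, 1, 1, 1, 1], [3, 2, 2, 0,
  2, 1, 0], [1, 1, 1, 1, 1, 1, 0], [1, 0, 0, 0, 1, 1, 1]] _ _ 290141792306 884161887293 _ (by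
  decide +kernel) nd1037 nd1047

theorem nd1049 : Ok 4 Dn4 [[2, 1, 1, 0, 0, 0, 0], [1, 1, 0, 0, 0, 0, 0], [2, 2, 2, 0, 1, 1, 0],
  [2, 1, 1, 1, 1, 1, 1], [1, 0, 0, 0, 1, 0, 0], [1, 1, 1, 1, 1, 1, 0], [1, 0, 0, 0, 1, 1, 1]]
  210933355888061 [37, 121, 121, 169, 169, 169, 217] 408945811304 :=
  dec4 2 14 0 _ _ 281302100065725 _ [37, 121, 121, 169, 169, 169, 217] _ (by decide +kernel)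
  nd1048

theorem nd1050 : Ok 4 Dn4 [[4, 2, 2, 1, 2, 1, 0], [1, 1, 0, 0, 0, 0, 0], [3, 2, 2, 0, 2, 1, 0],
  [2, 1, 1, 1, 1, 0, 0], [1, 0, 0, 0, 1, 0, 0], [2, 1, 1, 1, 2, 1, 0], [2, 1, 1, 1, 1, 1, 1]]
  281440616972221 [55, 151, 151, 175, 175, 211, 259] 414430835915 :=
  cut4 1 5 1 1 1 _ [[4, 2, 2, 1, 2, 1, 0], [3, 2, 1, 1, 2, 1, 0], [3, 2, 2, 0, 2, 1, 0], [2, 1,
  1, 1, 1, 0, 0], [1, 0, 0, 0, 1, 0, 0], [2, 1, 1, 1, 2, 1, 0], [2, 1, 1, 1, 1, 1, 1]] [[4, 2, 2,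
  1, 2, 1, 0], [1, 1, 0, 0, 0, 0, 0], [3, 2, 2, 0, 2, 1, 0], [2, 1, 1, 1, 1, 0, 0], [1, 0, 0, 0,
  1, 0, 0], [3, 2, 1, 1, 2, 1, 0], [2, 1, 1, 1, 1, 1, 1]] _ _ 643864725559 357072363503 _ (by
  decide +kernel) ok468 ok469

theorem nd1051 : Ok 4 Dn4 [[4, 2, 2, 1, 2, 1, 0], [1, 1, 0, 0, 0, 0, 0], [3, 2, 2, 0, 2, 1, 0],
  [2, 1, 1, 1, 1, 0, 0], [1, 0, 0, 0, 1, 0, 0], [2, 1, 1, 1, 2, 1, 0], [2, 1, 1, 1, 1, 1, 1]]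
  281439543230397 [55, 151, 151, 175, 175, 211, 259] 414430835915 :=
  dec4 1 14 0 _ _ 281440616972221 _ [55, 151, 151, 175, 175, 211, 259] _ (by decide +kernel)
  nd1050

theorem nd1052 : Ok 4 Dn4 [[4, 2, 2, 1, 2, 1, 0], [1, 1, 0, 0, 0, 0, 0], [3, 2, 2, 0, 2, 1, 0],
  [2, 1, 1, 1, 1, 0, 0], [1, 0, 0, 0, 1, 0, 0], [1, 1, 1, 1, 1, 1, 0], [2, 1, 1, 1, 1, 1, 1]]
  281439543230397 [55, 151, 151, 175, 175, 211, 259] 576382680266 :=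
  cut4 4 5 1 1 1 _ [[4, 2, 2, 1, 2, 1, 0], [1, 1, 0, 0, 0, 0, 0], [3, 2, 2, 0, 2, 1, 0], [2, 1,
  1, 1, 1, 0, 0], [2, 1, 1, 1, 2, 1, 0], [1, 1, 1, 1, 1, 1, 0], [2, 1, 1, 1, 1, 1, 1]] [[4, 2, 2,
  1, 2, 1, 0], [1, 1, 0, 0, 0, 0, 0], [3, 2, 2, 0, 2, 1, 0], [2, 1, 1, 1, 1, 0, 0], [1, 0, 0, 0,
  1, 0, 0], [2, 1, 1, 1, 2, 1, 0], [2, 1, 1, 1, 1, 1, 1]] _ _ 1062238213316 414430835915 _ (by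
  decide +kernel) ok467 nd1051

theorem nd1053 : Ok 4 Dn4 [[3, 2, 2, 1, 1, 1, 0], [1, 1, 0, 0, 0, 0, 0], [3, 2, 2, 0, 2, 1, 0],
  [2, 1, 1, 1, 1, 0, 0], [1, 0, 0, 0, 1, 0, 0], [1, 1, 1, 1, 1, 1, 0], [2, 1, 1, 1, 1, 1, 1]]
  281439543230397 [55, 151, 151, 175, 175, 211, 259] 661226465141 :=
  cut4 0 4 1 1 1 _ [[4, 2, 2, 1, 2, 1, 0], [1, 1, 0, 0, 0, 0, 0], [3, 2, 2, 0, 2, 1, 0], [2, 1,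
  1, 1, 1, 0, 0], [1, 0, 0, 0, 1, 0, 0], [1, 1, 1, 1, 1, 1, 0], [2, 1, 1, 1, 1, 1, 1]] [[3, 2, 2,
  1, 1, 1, 0], [1, 1, 0, 0, 0, 0, 0], [3, 2, 2, 0, 2, 1, 0], [2, 1, 1, 1, 1, 0, 0], [4, 2, 2, 1,
  2, 1, 0], [1, 1, 1, 1, 1, 1, 0], [2, 1, 1, 1, 1, 1, 1]] _ _ 576382680266 1085445389512 _ (by
  decide +kernel) nd1052 ok470

theorem nd1054 : Ok 4 Dn4 [[3, 2, 2, 1, 1, 1, 0], [1, 1, 0, 0, 0, 0, 0], [3, 2, 2, 0, 2, 1, 0],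
  [2, 1, 1, 1, 1, 0, 0], [1, 0, 0, 0, 1, 0, 0], [1, 1, 1, 1, 1, 1, 0], [2, 1, 1, 1, 1, 1, 1]]
  281302104276925 [55, 151, 151, 175, 175, 211, 259] 661226465141 :=
  dec4 2 5 0 _ _ 281439543230397 _ [55, 151, 151, 175, 175, 211, 259] _ (by decide +kernel) nd1053

theorem nd1055 : Ok 4 Dn4 [[2, 1, 1, 0, 0, 0, 0], [1, 1, 0, 0, 0, 0, 0], [3, 2, 2, 0, 2, 1, 0],
  [2, 1, 1, 1, 1, 0, 0], [1, 0, 0, 0, 1, 0, 0], [1, 1, 1, 1, 1, 1, 0], [2, 1, 1, 1, 1, 1, 1]]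
  281302104276925 [55, 151, 151, 175, 175, 211, 259] 399656078793 :=
  cut4 0 5 1 1 1 _ [[3, 2, 2, 1, 1, 1, 0], [1, 1, 0, 0, 0, 0, 0], [3, 2, 2, 0, 2, 1, 0], [2, 1,
  1, 1, 1, 0, 0], [1, 0, 0, 0, 1, 0, 0], [1, 1, 1, 1, 1, 1, 0], [2, 1, 1, 1, 1, 1, 1]] [[2, 1, 1,
  0, 0, 0, 0], [1, 1, 0, 0, 0, 0, 0], [3, 2, 2, 0, 2, 1, 0], [2, 1, 1, 1, 1, 0, 0], [1, 0, 0, 0,
  1, 0, 0], [3, 2, 2, 1, 1, 1, 0], [2, 1, 1, 1, 1, 1, 1]] _ _ 661226465141 225275821227 _ (by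
  decide +kernel) nd1054 ok471

theorem nd1056 : Ok 4 Dn4 [[2, 1, 1, 0, 0, 0, 0], [1, 1, 0, 0, 0, 0, 0], [3, 2, 2, 0, 2, 1, 0],
  [2, 1, 1, 1, 1, 0, 0], [1, 0, 0, 0, 1, 0, 0], [1, 1, 1, 1, 1, 1, 0], [2, 1, 1, 1, 1, 1, 1]]
  210933360099261 [55, 151, 151, 175, 175, 211, 259] 399656078793 :=
  dec4 2 14 0 _ _ 281302104276925 _ [55, 151, 151, 175, 175, 211, 259] _ (by decide +kernel)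
  nd1055

theorem nd1057 : Ok 4 Dn4 [[2, 1, 1, 0, 0, 0, 0], [1, 1, 0, 0, 0, 0, 0], [3, 2, 2, 0, 2, 1, 0],
  [1, 1, 1, 1, 0, 0, 0], [2, 1, 1, 1, 1, 0, 0], [1, 1, 1, 1, 1, 1, 0], [2, 1, 1, 1, 1, 1, 1]]
  210934433841087 [69, 153, 153, 177, 189, 213, 273] 368018860050 :=
  cut4 2 3 1 1 1 _ [[2, 1, 1, 0, 0, 0, 0], [1, 1, 0, 0, 0, 0, 0], [4, 3, 3, 1, 2, 1, 0], [1, 1,
  1, 1, 0, 0, 0], [2, 1, 1, 1, 1, 0, 0], [1, 1, 1, 1, 1, 1, 0], [2, 1, 1, 1, 1, 1, 1]] [[2, 1, 1,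
  0, 0, 0, 0], [1, 1, 0, 0, 0, 0, 0], [3, 2, 2, 0, 2, 1, 0], [4, 3, 3, 1, 2, 1, 0], [2, 1, 1, 1,
  1, 0, 0], [1, 1, 1, 1, 1, 1, 0], [2, 1, 1, 1, 1, 1, 1]] _ _ 333545837865 454201415511 _ (by
  decide +kernel) ok472 ok473

theorem nd1058 : Ok 4 Dn4 [[2, 1, 1, 0, 0, 0, 0], [1, 1, 0, 0, 0, 0, 0], [3, 2, 2, 0, 2, 1, 0],
  [1, 1, 1, 1, 0, 0, 0], [2, 1, 1, 1, 1, 0, 0], [1, 1, 1, 1, 1, 1, 0], [2, 1, 1, 1, 1, 1, 1]]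
  210933360099263 [55, 151, 151, 175, 175, 211, 259] 368018860050 :=
  dec4 1 14 1 _ _ 210934433841087 _ [69, 153, 153, 177, 189, 213, 273] _ (by decide +kernel)
  nd1057

theorem nd1059 : Ok 4 Dn4 [[2, 1, 1, 0, 0, 0, 0], [1, 1, 0, 0, 0, 0, 0], [3, 2, 2, 0, 2, 1, 0],
  [1, 1, 1, 1, 0, 0, 0], [2, 1, 1, 1, 1, 0, 0], [1, 1, 1, 1, 1, 1, 0], [2, 1, 1, 1, 1, 1, 1]]
  210933360099261 [55, 151, 151, 175, 175, 211, 259] 368018860050 :=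
  dec4 0 1 0 _ _ 210933360099263 _ [55, 151, 151, 175, 175, 211, 259] _ (by decide +kernel) nd1058

theorem nd1060 : Ok 4 Dn4 [[2, 1, 1, 0, 0, 0, 0], [1, 1, 0, 0, 0, 0, 0], [3, 2, 2, 0, 2, 1, 0],
  [1, 1, 1, 1, 0, 0, 0], [1, 0, 0, 0, 1, 0, 0], [1, 1, 1, 1, 1, 1, 0], [2, 1, 1, 1, 1, 1, 1]]
  210933360099261 [55, 151, 151, 175, 175, 211, 259] 389110339212 :=
  cut4 3 4 1 1 1 _ [[2, 1, 1, 0, 0, 0, 0], [1, 1, 0, 0, 0, 0, 0], [3, 2, 2, 0, 2, 1, 0], [2, 1,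
  1, 1, 1, 0, 0], [1, 0, 0, 0, 1, 0, 0], [1, 1, 1, 1, 1, 1, 0], [2, 1, 1, 1, 1, 1, 1]] [[2, 1, 1,
  0, 0, 0, 0], [1, 1, 0, 0, 0, 0, 0], [3, 2, 2, 0, 2, 1, 0], [1, 1, 1, 1, 0, 0, 0], [2, 1, 1, 1,
  1, 0, 0], [1, 1, 1, 1, 1, 1, 0], [2, 1, 1, 1, 1, 1, 1]] _ _ 399656078793 368018860050 _ (by
  decide +kernel) nd1056 nd1059

theorem nd1061 : Ok 4 Dn4 [[2, 1, 1, 0, 0, 0, 0], [1, 1, 0, 0, 0, 0, 0], [3, 2, 2, 0, 2, 1, 0],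
  [1, 1, 1, 1, 0, 0, 0], [1, 0, 0, 0, 1, 0, 0], [1, 1, 1, 1, 1, 1, 0], [2, 1, 1, 1, 1, 1, 1]]
  210933355904957 [55, 151, 151, 175, 175, 211, 259] 389110339212 :=
  dec4 1 6 0 _ _ 210933360099261 _ [55, 151, 151, 175, 175, 211, 259] _ (by decide +kernel) nd1060

theorem nd1062 : Ok 4 Dn4 [[2, 1, 1, 0, 0, 0, 0], [1, 1, 0, 0, 0, 0, 0], [3, 2, 2, 0, 2, 1, 0],
  [1, 1, 1, 1, 0, 0, 0], [1, 0, 0, 0, 1, 0, 0], [1, 1, 1, 1, 1, 1, 0], [2, 1, 1, 1, 1, 1, 1]]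
  210933355904445 [51, 123, 123, 171, 171, 183, 231] 389110339212 :=
  dec4 0 9 1 _ _ 210933355904957 _ [55, 151, 151, 175, 175, 211, 259] _ (by decide +kernel) nd1061

theorem nd1063 : Ok 4 Dn4 [[2, 1, 1, 0, 0, 0, 0], [1, 1, 0, 0, 0, 0, 0], [2, 2, 2, 0, 1, 1, 0],
  [1, 1, 1, 1, 0, 0, 0], [4, 3, 3, 1, 2, 1, 0], [1, 1, 1, 1, 1, 1, 0], [2, 1, 1, 1, 1, 1, 1]]
  281303173824447 [79, 127, 127, 175, 199, 199, 247] 629209784393 :=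
  cut4 0 5 1 1 1 _ [[3, 2, 2, 1, 1, 1, 0], [1, 1, 0, 0, 0, 0, 0], [2, 2, 2, 0, 1, 1, 0], [1, 1,
  1, 1, 0, 0, 0], [4, 3, 3, 1, 2, 1, 0], [1, 1, 1, 1, 1, 1, 0], [2, 1, 1, 1, 1, 1, 1]] [[2, 1, 1,
  0, 0, 0, 0], [1, 1, 0, 0, 0, 0, 0], [2, 2, 2, 0, 1, 1, 0], [1, 1, 1, 1, 0, 0, 0], [4, 3, 3, 1,
  2, 1, 0], [3, 2, 2, 1, 1, 1, 0], [2, 1, 1, 1, 1, 1, 1]] _ _ 1008690901933 376222372699 _ (by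
  decide +kernel) ok475 ok476

theorem nd1064 : Ok 4 Dn4 [[2, 1, 1, 0, 0, 0, 0], [1, 1, 0, 0, 0, 0, 0], [2, 2, 2, 0, 1, 1, 0],
  [1, 1, 1, 1, 0, 0, 0], [4, 3, 3, 1, 2, 1, 0], [1, 1, 1, 1, 1, 1, 0], [2, 1, 1, 1, 1, 1, 1]]
  210934429646783 [65, 125, 125, 173, 185, 185, 245] 629209784393 :=
  dec4 2 14 1 _ _ 281303173824447 _ [79, 127, 127, 175, 199, 199, 247] _ (by decide +kernel)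
  nd1063

theorem nd1065 : Ok 4 Dn4 [[2, 1, 1, 0, 0, 0, 0], [1, 1, 0, 0, 0, 0, 0], [2, 2, 2, 0, 1, 1, 0],
  [1, 1, 1, 1, 0, 0, 0], [3, 2, 2, 0, 2, 1, 0], [1, 1, 1, 1, 1, 1, 0], [2, 1, 1, 1, 1, 1, 1]]
  210934429646783 [65, 125, 125, 173, 185, 185, 245] 642521887831 :=
  cut4 3 4 1 1 1 _ [[2, 1, 1, 0, 0, 0, 0], [1, 1, 0, 0, 0, 0, 0], [2, 2, 2, 0, 1, 1, 0], [4, 3,
  3, 1, 2, 1, 0], [3, 2, 2, 0, 2, 1, 0], [1, 1, 1, 1, 1, 1, 0], [2, 1, 1, 1, 1, 1, 1]] [[2, 1, 1,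
  0, 0, 0, 0], [1, 1, 0, 0, 0, 0, 0], [2, 2, 2, 0, 1, 1, 0], [1, 1, 1, 1, 0, 0, 0], [4, 3, 3, 1,
  2, 1, 0], [1, 1, 1, 1, 1, 1, 0], [2, 1, 1, 1, 1, 1, 1]] _ _ 675802146425 629209784393 _ (by
  decide +kernel) ok474 nd1064

theorem nd1066 : Ok 4 Dn4 [[2, 1, 1, 0, 0, 0, 0], [1, 1, 0, 0, 0, 0, 0], [2, 2, 2, 0, 1, 1, 0],
  [1, 1, 1, 1, 0, 0, 0], [3, 2, 2, 0, 2, 1, 0], [1, 1, 1, 1, 1, 1, 0], [2, 1, 1, 1, 1, 1, 1]]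
  210933355904959 [51, 123, 123, 171, 171, 183, 231] 642521887831 :=
  dec4 1 14 1 _ _ 210934429646783 _ [65, 125, 125, 173, 185, 185, 245] _ (by decide +kernel)
  nd1065

theorem nd1067 : Ok 4 Dn4 [[2, 1, 1, 0, 0, 0, 0], [1, 1, 0, 0, 0, 0, 0], [2, 2, 2, 0, 1, 1, 0],
  [1, 1, 1, 1, 0, 0, 0], [3, 2, 2, 0, 2, 1, 0], [1, 1, 1, 1, 1, 1, 0], [2, 1, 1, 1, 1, 1, 1]]
  210933355904447 [51, 123, 123, 171, 171, 183, 231] 642521887831 :=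
  dec4 0 9 0 _ _ 210933355904959 _ [51, 123, 123, 171, 171, 183, 231] _ (by decide +kernel) nd1066

theorem nd1068 : Ok 4 Dn4 [[2, 1, 1, 0, 0, 0, 0], [1, 1, 0, 0, 0, 0, 0], [2, 2, 2, 0, 1, 1, 0],
  [1, 1, 1, 1, 0, 0, 0], [3, 2, 2, 0, 2, 1, 0], [1, 1, 1, 1, 1, 1, 0], [2, 1, 1, 1, 1, 1, 1]]
  210933355904445 [51, 123, 123, 171, 171, 183, 231] 642521887831 :=
  dec4 0 1 0 _ _ 210933355904447 _ [51, 123, 123, 171, 171, 183, 231] _ (by decide +kernel) nd1067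

theorem nd1069 : Ok 4 Dn4 [[2, 1, 1, 0, 0, 0, 0], [1, 1, 0, 0, 0, 0, 0], [2, 2, 2, 0, 1, 1, 0],
  [1, 1, 1, 1, 0, 0, 0], [1, 0, 0, 0, 1, 0, 0], [1, 1, 1, 1, 1, 1, 0], [2, 1, 1, 1, 1, 1, 1]]
  210933355904445 [51, 123, 123, 171, 171, 183, 231] 439792648936 :=
  cut4 2 4 1 1 1 _ [[2, 1, 1, 0, 0, 0, 0], [1, 1, 0, 0, 0, 0, 0], [3, 2, 2, 0, 2, 1, 0], [1, 1,
  1, 1, 0, 0, 0], [1, 0, 0, 0, 1, 0, 0], [1, 1, 1, 1, 1, 1, 0], [2, 1, 1, 1, 1, 1, 1]] [[2, 1, 1,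
  0, 0, 0, 0], [1, 1, 0, 0, 0, 0, 0], [2, 2, 2, 0, 1, 1, 0], [1, 1, 1, 1, 0, 0, 0], [3, 2, 2, 0,
  2, 1, 0], [1, 1, 1, 1, 1, 1, 0], [2, 1, 1, 1, 1, 1, 1]] _ _ 389110339212 642521887831 _ (by
  decide +kernel) nd1062 nd1068

theorem nd1070 : Ok 4 Dn4 [[2, 1, 1, 0, 0, 0, 0], [1, 1, 0, 0, 0, 0, 0], [2, 2, 2, 0, 1, 1, 0],
  [1, 1, 1, 1, 0, 0, 0], [1, 0, 0, 0, 1, 0, 0], [1, 1, 1, 1, 1, 1, 0], [2, 1, 1, 1, 1, 1, 1]]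
  210933355888061 [37, 121, 121, 169, 169, 169, 217] 439792648936 :=
  dec4 0 14 1 _ _ 210933355904445 _ [51, 123, 123, 171, 171, 183, 231] _ (by decide +kernel)
  nd1069

theorem nd1071 : Ok 4 Dn4 [[2, 1, 1, 0, 0, 0, 0], [1, 1, 0, 0, 0, 0, 0], [2, 2, 2, 0, 1, 1, 0],
  [1, 1, 1, 1, 0, 0, 0], [1, 0, 0, 0, 1, 0, 0], [1, 1, 1, 1, 1, 1, 0], [1, 0, 0, 0, 1, 1, 1]]
  210933355888061 [37, 121, 121, 169, 169, 169, 217] 424369230120 :=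
  cut4 3 6 1 1 1 _ [[2, 1, 1, 0, 0, 0, 0], [1, 1, 0, 0, 0, 0, 0], [2, 2, 2, 0, 1, 1, 0], [2, 1,
  1, 1, 1, 1, 1], [1, 0, 0, 0, 1, 0, 0], [1, 1, 1, 1, 1, 1, 0], [1, 0, 0, 0, 1, 1, 1]] [[2, 1, 1,
  0, 0, 0, 0], [1, 1, 0, 0, 0, 0, 0], [2, 2, 2, 0, 1, 1, 0], [1, 1, 1, 1, 0, 0, 0], [1, 0, 0, 0,
  1, 0, 0], [1, 1, 1, 1, 1, 1, 0], [2, 1, 1, 1, 1, 1, 1]] _ _ 408945811304 439792648936 _ (by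
  decide +kernel) nd1049 nd1070

theorem nd1072 : Ok 4 Dn4 [[2, 1, 1, 0, 0, 0, 0], [1, 1, 0, 0, 0, 0, 0], [2, 2, 2, 0, 1, 1, 0],
  [1, 1, 1, 1, 0, 0, 0], [1, 0, 0, 0, 1, 0, 0], [1, 1, 1, 1, 1, 1, 0], [1, 0, 0, 0, 1, 1, 1]]
  70195867532733 [36, 120, 120, 168, 162, 162, 216] 424369230120 :=
  dec4 2 15 1 _ _ 210933355888061 _ [37, 121, 121, 169, 169, 169, 217] _ (by decide +kernel)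
  nd1071

theorem nd1073 : Ok 4 Dn4 [[2, 1, 1, 0, 0, 0, 0], [1, 1, 0, 0, 0, 0, 0], [2, 2, 2, 0, 1, 1, 0],
  [1, 1, 1, 1, 0, 0, 0], [1, 0, 0, 0, 1, 0, 0], [1, 1, 1, 1, 1, 1, 0], [1, 0, 0, 0, 1, 1, 1]]
  35011495443901 [34, 106, 118, 166, 148, 148, 214] 424369230120 :=
  dec4 2 13 1 _ _ 70195867532733 _ [36, 120, 120, 168, 162, 162, 216] _ (by decide +kernel) nd1072

theorem nd1074 : Ok 4 Dn4 [[2, 1, 1, 0, 0, 0, 0], [1, 1, 0, 0, 0, 0, 0], [2, 2, 2, 0, 1, 1, 0],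
  [1, 1, 1, 1, 0, 0, 0], [1, 0, 0, 0, 1, 0, 0], [1, 1, 1, 1, 1, 1, 0], [1, 0, 0, 0, 1, 1, 1]]
  26215402421693 [32, 104, 104, 164, 134, 134, 212] 424369230120 :=
  dec4 2 11 1 _ _ 35011495443901 _ [34, 106, 118, 166, 148, 148, 214] _ (by decide +kernel) nd1073

theorem nd1075 : Ok 4 Dn4 [[2, 1, 1, 0, 0, 0, 0], [1, 1, 0, 0, 0, 0, 0], [2, 2, 2, 0, 1, 1, 0],
  [1, 1, 1, 1, 0, 0, 0], [1, 0, 0, 0, 1, 0, 0], [1, 1, 1, 1, 1, 1, 0], [1, 0, 0, 0, 1, 1, 1]]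
  25665646607805 [30, 102, 102, 150, 120, 120, 210] 424369230120 :=
  dec4 2 7 1 _ _ 26215402421693 _ [32, 104, 104, 164, 134, 134, 212] _ (by decide +kernel) nd1074

theorem nd1076 : Ok 4 Dn4 [[2, 1, 1, 0, 0, 0, 0], [1, 1, 0, 0, 0, 0, 0], [2, 2, 2, 0, 1, 1, 0],
  [1, 1, 1, 1, 0, 0, 0], [1, 0, 0, 0, 1, 0, 0], [0, 0, 0, 0, 1, 1, 0], [1, 0, 0, 0, 1, 1, 1]]
  25665646607805 [30, 102, 102, 150, 120, 120, 210] 268989530544 :=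
  cut4 3 5 1 1 1 _ [[2, 1, 1, 0, 0, 0, 0], [1, 1, 0, 0, 0, 0, 0], [2, 2, 2, 0, 1, 1, 0], [1, 1,
  1, 1, 1, 1, 0], [1, 0, 0, 0, 1, 0, 0], [0, 0, 0, 0, 1, 1, 0], [1, 0, 0, 0, 1, 1, 1]] [[2, 1, 1,
  0, 0, 0, 0], [1, 1, 0, 0, 0, 0, 0], [2, 2, 2, 0, 1, 1, 0], [1, 1, 1, 1, 0, 0, 0], [1, 0, 0, 0,
  1, 0, 0], [1, 1, 1, 1, 1, 1, 0], [1, 0, 0, 0, 1, 1, 1]] _ _ 191299680756 424369230120 _ (by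
  decide +kernel) nd1019 nd1075

theorem nd1077 : Ok 4 Dn4 [[2, 1, 1, 0, 0, 0, 0], [1, 1, 0, 0, 0, 0, 0], [2, 2, 2, 0, 1, 1, 0],
  [1, 1, 1, 1, 0, 0, 0], [1, 0, 0, 0, 1, 0, 0], [0, 0, 0, 0, 1, 1, 0], [1, 0, 0, 0, 1, 1, 1]]
  25390768700861 [30, 102, 102, 150, 120, 120, 210] 268989530544 :=
  dec4 2 6 0 _ _ 25665646607805 _ [30, 102, 102, 150, 120, 120, 210] _ (by decide +kernel) nd1076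

theorem nd1078 : Ok 4 Dn4 [[2, 1, 1, 0, 0, 0, 0], [1, 1, 0, 0, 0, 0, 0], [3, 2, 2, 0, 1, 0, 0],
  [2, 1, 1, 1, 1, 0, 0], [1, 0, 0, 0, 1, 0, 0], [2, 2, 2, 0, 1, 1, 0], [2, 1, 1, 1, 1, 1, 1]]
  281473898773949 [59, 155, 155, 227, 227, 239, 239] 175600600475 :=
  cut4 4 5 1 1 1 _ [[2, 1, 1, 0, 0, 0, 0], [1, 1, 0, 0, 0, 0, 0], [3, 2, 2, 0, 1, 0, 0], [2, 1,
  1, 1, 1, 0, 0], [3, 2, 2, 0, 2, 1, 0], [2, 2, 2, 0, 1, 1, 0], [2, 1, 1, 1, 1, 1, 1]] [[2, 1, 1,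
  0, 0, 0, 0], [1, 1, 0, 0, 0, 0, 0], [3, 2, 2, 0, 1, 0, 0], [2, 1, 1, 1, 1, 0, 0], [1, 0, 0, 0,
  1, 0, 0], [3, 2, 2, 0, 2, 1, 0], [2, 1, 1, 1, 1, 1, 1]] _ _ 230823240347 161794940506 _ (by
  decide +kernel) ok478 ok479

theorem nd1079 : Ok 4 Dn4 [[2, 1, 1, 0, 0, 0, 0], [1, 1, 0, 0, 0, 0, 0], [3, 2, 2, 0, 1, 0, 0],
  [2, 1, 1, 1, 1, 0, 0], [1, 0, 0, 0, 1, 0, 0], [2, 2, 2, 0, 1, 1, 0], [2, 1, 1, 1, 1, 1, 1]]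
  211105154596285 [59, 155, 155, 227, 227, 239, 239] 175600600475 :=
  dec4 2 14 0 _ _ 281473898773949 _ [59, 155, 155, 227, 227, 239, 239] _ (by decide +kernel)
  nd1078

theorem nd1080 : Ok 4 Dn4 [[2, 1, 1, 0, 0, 0, 0], [1, 1, 0, 0, 0, 0, 0], [3, 2, 2, 0, 1, 0, 0],
  [1, 1, 1, 1, 0, 0, 0], [2, 1, 1, 1, 1, 0, 0], [2, 2, 2, 0, 1, 1, 0], [2, 1, 1, 1, 1, 1, 1]]
  281474972515775 [87, 159, 159, 231, 255, 255, 255] 179191490215 :=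
  cut4 4 5 1 1 1 _ [[2, 1, 1, 0, 0, 0, 0], [1, 1, 0, 0, 0, 0, 0], [3, 2, 2, 0, 1, 0, 0], [1, 1,
  1, 1, 0, 0, 0], [4, 3, 3, 1, 2, 1, 0], [2, 2, 2, 0, 1, 1, 0], [2, 1, 1, 1, 1, 1, 1]] [[2, 1, 1,
  0, 0, 0, 0], [1, 1, 0, 0, 0, 0, 0], [3, 2, 2, 0, 1, 0, 0], [1, 1, 1, 1, 0, 0, 0], [2, 1, 1, 1,
  1, 0, 0], [4, 3, 3, 1, 2, 1, 0], [2, 1, 1, 1, 1, 1, 1]] _ _ 279133046388 104235323085 _ (by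
  decide +kernel) ok480 ok481

theorem nd1081 : Ok 4 Dn4 [[2, 1, 1, 0, 0, 0, 0], [1, 1, 0, 0, 0, 0, 0], [3, 2, 2, 0, 1, 0, 0],
  [1, 1, 1, 1, 0, 0, 0], [2, 1, 1, 1, 1, 0, 0], [2, 2, 2, 0, 1, 1, 0], [2, 1, 1, 1, 1, 1, 1]]
  211106228338111 [73, 157, 157, 229, 241, 241, 253] 179191490215 :=
  dec4 2 14 1 _ _ 281474972515775 _ [87, 159, 159, 231, 255, 255, 255] _ (by decide +kernel)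
  nd1080

theorem nd1082 : Ok 4 Dn4 [[2, 1, 1, 0, 0, 0, 0], [1, 1, 0, 0, 0, 0, 0], [3, 2, 2, 0, 1, 0, 0],
  [1, 1, 1, 1, 0, 0, 0], [2, 1, 1, 1, 1, 0, 0], [2, 2, 2, 0, 1, 1, 0], [2, 1, 1, 1, 1, 1, 1]]
  211105154596287 [59, 155, 155, 227, 227, 239, 239] 179191490215 :=
  dec4 1 14 1 _ _ 211106228338111 _ [73, 157, 157, 229, 241, 241, 253] _ (by decide +kernel)
  nd1081

theorem nd1083 : Ok 4 Dn4 [[2, 1, 1, 0, 0, 0, 0], [1, 1, 0, 0, 0, 0, 0], [3, 2, 2, 0, 1, 0, 0],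
  [1, 1, 1, 1, 0, 0, 0], [2, 1, 1, 1, 1, 0, 0], [2, 2, 2, 0, 1, 1, 0], [2, 1, 1, 1, 1, 1, 1]]
  211105154596285 [59, 155, 155, 227, 227, 239, 239] 179191490215 :=
  dec4 0 1 0 _ _ 211105154596287 _ [59, 155, 155, 227, 227, 239, 239] _ (by decide +kernel) nd1082

theorem nd1084 : Ok 4 Dn4 [[2, 1, 1, 0, 0, 0, 0], [1, 1, 0, 0, 0, 0, 0], [3, 2, 2, 0, 1, 0, 0],
  [1, 1, 1, 1, 0, 0, 0], [1, 0, 0, 0, 1, 0, 0], [2, 2, 2, 0, 1, 1, 0], [2, 1, 1, 1, 1, 1, 1]]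
  211105154596285 [59, 155, 155, 227, 227, 239, 239] 176797563722 :=
  cut4 3 4 1 1 1 _ [[2, 1, 1, 0, 0, 0, 0], [1, 1, 0, 0, 0, 0, 0], [3, 2, 2, 0, 1, 0, 0], [2, 1,
  1, 1, 1, 0, 0], [1, 0, 0, 0, 1, 0, 0], [2, 2, 2, 0, 1, 1, 0], [2, 1, 1, 1, 1, 1, 1]] [[2, 1, 1,
  0, 0, 0, 0], [1, 1, 0, 0, 0, 0, 0], [3, 2, 2, 0, 1, 0, 0], [1, 1, 1, 1, 0, 0, 0], [2, 1, 1, 1,
  1, 0, 0], [2, 2, 2, 0, 1, 1, 0], [2, 1, 1, 1, 1, 1, 1]] _ _ 175600600475 179191490215 _ (by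
  decide +kernel) nd1079 nd1083

theorem nd1085 : Ok 4 Dn4 [[2, 1, 1, 0, 0, 0, 0], [1, 1, 0, 0, 0, 0, 0], [3, 2, 2, 0, 1, 0, 0],
  [1, 1, 1, 1, 0, 0, 0], [1, 0, 0, 0, 1, 0, 0], [2, 2, 2, 0, 1, 1, 0], [2, 1, 1, 1, 1, 1, 1]]
  211105154579901 [45, 153, 153, 225, 225, 225, 225] 176797563722 :=
  dec4 0 14 1 _ _ 211105154596285 _ [59, 155, 155, 227, 227, 239, 239] _ (by decide +kernel)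
  nd1084

theorem nd1086 : Ok 4 Dn4 [[2, 1, 1, 0, 0, 0, 0], [1, 1, 0, 0, 0, 0, 0], [3, 2, 2, 0, 1, 0, 0],
  [1, 1, 1, 1, 0, 0, 0], [1, 0, 0, 0, 1, 0, 0], [2, 2, 2, 0, 1, 1, 0], [1, 0, 0, 0, 1, 1, 1]]
  211105154579901 [45, 153, 153, 225, 225, 225, 225] 179125209223 :=
  cut4 3 6 1 1 1 _ [[2, 1, 1, 0, 0, 0, 0], [1, 1, 0, 0, 0, 0, 0], [3, 2, 2, 0, 1, 0, 0], [2, 1,
  1, 1, 1, 1, 1], [1, 0, 0, 0, 1, 0, 0], [2, 2, 2, 0, 1, 1, 0], [1, 0, 0, 0, 1, 1, 1]] [[2, 1, 1,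
  0, 0, 0, 0], [1, 1, 0, 0, 0, 0, 0], [3, 2, 2, 0, 1, 0, 0], [1, 1, 1, 1, 0, 0, 0], [1, 0, 0, 0,
  1, 0, 0], [2, 2, 2, 0, 1, 1, 0], [2, 1, 1, 1, 1, 1, 1]] _ _ 181452854723 176797563722 _ (by
  decide +kernel) ok477 nd1085

theorem nd1087 : Ok 4 Dn4 [[2, 1, 1, 0, 0, 0, 0], [1, 1, 0, 0, 0, 0, 0], [3, 2, 2, 0, 1, 0, 0],
  [1, 1, 1, 1, 0, 0, 0], [1, 0, 0, 0, 1, 0, 0], [2, 2, 2, 0, 1, 1, 0], [1, 0, 0, 0, 1, 1, 1]]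
  210830276672957 [45, 153, 153, 225, 225, 225, 225] 179125209223 :=
  dec4 2 6 0 _ _ 211105154579901 _ [45, 153, 153, 225, 225, 225, 225] _ (by decide +kernel) nd1086

theorem nd1088 : Ok 4 Dn4 [[2, 1, 1, 0, 0, 0, 0], [1, 1, 0, 0, 0, 0, 0], [1, 1, 1, 0, 0, 0, 0],
  [1, 1, 1, 1, 0, 0, 0], [1, 0, 0, 0, 1, 0, 0], [2, 2, 2, 0, 1, 1, 0], [1, 0, 0, 0, 1, 1, 1]]
  210830276672957 [45, 153, 153, 225, 225, 225, 225] 212309577359 :=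
  cut4 2 4 2 1 1 _ [[2, 1, 1, 0, 0, 0, 0], [1, 1, 0, 0, 0, 0, 0], [3, 2, 2, 0, 1, 0, 0], [1, 1,
  1, 1, 0, 0, 0], [1, 0, 0, 0, 1, 0, 0], [2, 2, 2, 0, 1, 1, 0], [1, 0, 0, 0, 1, 1, 1]] [[2, 1, 1,
  0, 0, 0, 0], [1, 1, 0, 0, 0, 0, 0], [1, 1, 1, 0, 0, 0, 0], [1, 1, 1, 1, 0, 0, 0], [3, 2, 2, 0,
  1, 0, 0], [2, 2, 2, 0, 1, 1, 0], [1, 0, 0, 0, 1, 1, 1]] _ _ 179125209223 311862681765 _ (by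
  decide +kernel) nd1087 ok482

theorem nd1089 : Ok 4 Dn4 [[2, 1, 1, 0, 0, 0, 0], [1, 1, 0, 0, 0, 0, 0], [1, 1, 1, 0, 0, 0, 0],
  [1, 1, 1, 1, 0, 0, 0], [1, 0, 0, 0, 1, 0, 0], [2, 2, 2, 0, 1, 1, 0], [1, 0, 0, 0, 1, 1, 1]]
  70092788317629 [44, 152, 152, 224, 218, 218, 224] 212309577359 :=
  dec4 2 15 1 _ _ 210830276672957 _ [45, 153, 153, 225, 225, 225, 225] _ (by decide +kernel)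
  nd1088

theorem nd1090 : Ok 4 Dn4 [[2, 1, 1, 0, 0, 0, 0], [1, 1, 0, 0, 0, 0, 0], [1, 1, 1, 0, 0, 0, 0],
  [1, 1, 1, 1, 0, 0, 0], [1, 0, 0, 0, 1, 0, 0], [2, 2, 2, 0, 1, 1, 0], [1, 0, 0, 0, 1, 1, 1]]
  34908416228797 [42, 138, 150, 222, 204, 204, 222] 212309577359 :=
  dec4 2 13 1 _ _ 70092788317629 _ [44, 152, 152, 224, 218, 218, 224] _ (by decide +kernel) nd1089

theorem nd1091 : Ok 4 Dn4 [[2, 1, 1, 0, 0, 0, 0], [1, 1, 0, 0, 0, 0, 0], [1, 1, 1, 0, 0, 0, 0],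
  [1, 1, 1, 1, 0, 0, 0], [1, 0, 0, 0, 1, 0, 0], [2, 2, 2, 0, 1, 1, 0], [1, 0, 0, 0, 1, 1, 1]]
  26112323206589 [40, 136, 136, 220, 190, 190, 220] 212309577359 :=
  dec4 2 11 1 _ _ 34908416228797 _ [42, 138, 150, 222, 204, 204, 222] _ (by decide +kernel) nd1090

theorem nd1092 : Ok 4 Dn4 [[2, 1, 1, 0, 0, 0, 0], [1, 1, 0, 0, 0, 0, 0], [1, 1, 1, 0, 0, 0, 0],
  [1, 1, 1, 1, 0, 0, 0], [1, 0, 0, 0, 1, 0, 0], [2, 2, 2, 0, 1, 1, 0], [1, 0, 0, 0, 1, 1, 1]]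
  25562567392701 [38, 134, 134, 206, 176, 176, 218] 212309577359 :=
  dec4 2 7 1 _ _ 26112323206589 _ [40, 136, 136, 220, 190, 190, 220] _ (by decide +kernel) nd1091

theorem nd1093 : Ok 4 Dn4 [[2, 1, 1, 0, 0, 0, 0], [1, 1, 0, 0, 0, 0, 0], [1, 1, 1, 0, 0, 0, 0],
  [1, 1, 1, 1, 0, 0, 0], [1, 0, 0, 0, 1, 0, 0], [2, 2, 2, 0, 1, 1, 0], [1, 0, 0, 0, 1, 1, 1]]
  25425128439229 [34, 106, 130, 178, 148, 148, 214] 212309577359 :=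
  dec4 2 5 1 _ _ 25562567392701 _ [38, 134, 134, 206, 176, 176, 218] _ (by decide +kernel) nd1092

theorem nd1094 : Ok 4 Dn4 [[2, 1, 1, 0, 0, 0, 0], [1, 1, 0, 0, 0, 0, 0], [1, 1, 1, 0, 0, 0, 0],
  [1, 1, 1, 1, 0, 0, 0], [1, 0, 0, 0, 1, 0, 0], [2, 2, 2, 0, 1, 1, 0], [1, 0, 0, 0, 1, 1, 1]]
  25390768700861 [30, 102, 102, 150, 120, 120, 210] 212309577359 :=
  dec4 2 3 1 _ _ 25425128439229 _ [34, 106, 130, 178, 148, 148, 214] _ (by decide +kernel) nd1093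

theorem nd1095 : Ok 4 Dn4 [[2, 1, 1, 0, 0, 0, 0], [1, 1, 0, 0, 0, 0, 0], [1, 1, 1, 0, 0, 0, 0],
  [1, 1, 1, 1, 0, 0, 0], [1, 0, 0, 0, 1, 0, 0], [0, 0, 0, 0, 1, 1, 0], [1, 0, 0, 0, 1, 1, 1]]
  25390768700861 [30, 102, 102, 150, 120, 120, 210] 254819542248 :=
  cut4 2 5 2 1 1 _ [[2, 1, 1, 0, 0, 0, 0], [1, 1, 0, 0, 0, 0, 0], [2, 2, 2, 0, 1, 1, 0], [1, 1,
  1, 1, 0, 0, 0], [1, 0, 0, 0, 1, 0, 0], [0, 0, 0, 0, 1, 1, 0], [1, 0, 0, 0, 1, 1, 1]] [[2, 1, 1,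
  0, 0, 0, 0], [1, 1, 0, 0, 0, 0, 0], [1, 1, 1, 0, 0, 0, 0], [1, 1, 1, 1, 0, 0, 0], [1, 0, 0, 0,
  1, 0, 0], [2, 2, 2, 0, 1, 1, 0], [1, 0, 0, 0, 1, 1, 1]] _ _ 268989530544 212309577359 _ (by
  decide +kernel) nd1077 nd1094

theorem nd1096 : Ok 4 Dn4 [[2, 1, 1, 0, 0, 0, 0], [1, 1, 0, 0, 0, 0, 0], [1, 1, 1, 0, 0, 0, 0],
  [1, 1, 1, 1, 0, 0, 0], [1, 0, 0, 0, 1, 0, 0], [0, 0, 0, 0, 1, 1, 0], [1, 0, 0, 0, 1, 1, 1]]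
  23191745445309 [30, 102, 102, 150, 120, 120, 210] 254819542248 :=
  dec4 2 9 0 _ _ 25390768700861 _ [30, 102, 102, 150, 120, 120, 210] _ (by decide +kernel) nd1095

theorem nd1097 : Ok 4 Dn4 [[2, 1, 1, 0, 0, 0, 0], [1, 1, 0, 0, 0, 0, 0], [1, 1, 1, 0, 0, 0, 0],
  [1, 1, 1, 1, 0, 0, 0], [1, 0, 0, 0, 1, 0, 0], [0, 0, 0, 0, 1, 1, 0], [1, 0, 0, 0, 1, 1, 1]]
  23183155510717 [30, 102, 102, 150, 120, 120, 210] 254819542248 :=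
  dec4 2 1 0 _ _ 23191745445309 _ [30, 102, 102, 150, 120, 120, 210] _ (by decide +kernel) nd1096

theorem nd1098 : Ok 4 Dn4 [[2, 1, 1, 0, 0, 0, 0], [1, 1, 0, 0, 0, 0, 0], [1, 1, 1, 0, 0, 0, 0],
  [1, 1, 1, 1, 0, 0, 0], [1, 0, 0, 0, 1, 0, 0], [0, 0, 0, 0, 1, 1, 0], [1, 0, 0, 0, 1, 1, 1]]
  23183121956285 [30, 102, 102, 150, 120, 120, 210] 254819542248 :=
  dec4 1 9 0 _ _ 23183155510717 _ [30, 102, 102, 150, 120, 120, 210] _ (by decide +kernel) nd1097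

theorem nd1099 : Ok 4 Dn4 [[2, 1, 1, 0, 0, 0, 0], [1, 1, 0, 0, 0, 0, 0], [1, 1, 1, 0, 0, 0, 0],
  [1, 1, 1, 1, 0, 0, 0], [1, 0, 0, 0, 1, 0, 0], [0, 0, 0, 0, 1, 1, 0], [1, 0, 0, 0, 1, 1, 1]]
  23183121825213 [30, 102, 102, 150, 120, 120, 210] 254819542248 :=
  dec4 1 1 0 _ _ 23183121956285 _ [30, 102, 102, 150, 120, 120, 210] _ (by decide +kernel) nd1098

theorem nd1100 : Ok 4 Dn4 [[3, 1, 1, 1, 2, 2, 0], [1, 1, 0, 0, 1, 1, 0], [2, 1, 1, 0, 1, 1, 0],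
  [1, 1, 1, 1, 1, 1, 0], [1, 0, 0, 0, 1, 0, 0], [0, 0, 0, 0, 1, 1, 0], [1, 0, 0, 0, 1, 1, 1]]
  140186658783229 [38, 158, 158, 158, 152, 152, 266] 98903086959 :=
  cut4 3 6 1 1 1 _ [[3, 1, 1, 1, 2, 2, 0], [1, 1, 0, 0, 1, 1, 0], [2, 1, 1, 0, 1, 1, 0], [2, 1,
  1, 1, 2, 2, 1], [1, 0, 0, 0, 1, 0, 0], [0, 0, 0, 0, 1, 1, 0], [1, 0, 0, 0, 1, 1, 1]] [[3, 1, 1,
  1, 2, 2, 0], [1, 1, 0, 0, 1, 1, 0], [2, 1, 1, 0, 1, 1, 0], [1, 1, 1, 1, 1, 1, 0], [1, 0, 0, 0,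
  1, 0, 0], [0, 0, 0, 0, 1, 1, 0], [2, 1, 1, 1, 2, 2, 1]] _ _ 63486597423 152027821262 _ (by
  decide +kernel) ok483 ok484

theorem nd1101 : Ok 4 Dn4 [[3, 1, 1, 1, 2, 2, 0], [1, 1, 0, 0, 1, 1, 0], [2, 1, 1, 0, 1, 1, 0],
  [1, 1, 1, 1, 1, 1, 0], [1, 0, 0, 0, 1, 0, 0], [0, 0, 0, 0, 1, 1, 0], [1, 0, 0, 0, 1, 1, 1]]
  105002286694397 [38, 158, 158, 158, 152, 152, 266] 98903086959 :=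
  dec4 2 13 0 _ _ 140186658783229 _ [38, 158, 158, 158, 152, 152, 266] _ (by decide +kernel)
  nd1100

theorem nd1102 : Ok 4 Dn4 [[3, 1, 1, 1, 2, 2, 0], [1, 1, 0, 0, 1, 1, 0], [2, 1, 1, 0, 1, 1, 0],
  [1, 1, 1, 1, 1, 1, 0], [1, 0, 0, 0, 1, 0, 0], [0, 0, 0, 0, 1, 1, 0], [1, 0, 0, 0, 1, 1, 1]]
  96206193672189 [38, 158, 158, 158, 152, 152, 266] 98903086959 :=
  dec4 2 11 0 _ _ 105002286694397 _ [38, 158, 158, 158, 152, 152, 266] _ (by decide +kernel)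
  nd1101

theorem nd1103 : Ok 4 Dn4 [[3, 1, 1, 1, 1, 1, 0], [1, 1, 0, 0, 1, 1, 0], [2, 1, 1, 0, 1, 1, 0],
  [1, 1, 1, 1, 1, 1, 0], [1, 0, 0, 0, 1, 0, 0], [0, 0, 0, 0, 1, 1, 0], [1, 0, 0, 0, 1, 1, 1]]
  96206193672189 [38, 158, 158, 158, 152, 152, 266] 102652229624 :=
  cut4 0 5 1 1 1 _ [[3, 1, 1, 1, 2, 2, 0], [1, 1, 0, 0, 1, 1, 0], [2, 1, 1, 0, 1, 1, 0], [1, 1,
  1, 1, 1, 1, 0], [1, 0, 0, 0, 1, 0, 0], [0, 0, 0, 0, 1, 1, 0], [1, 0, 0, 0, 1, 1, 1]] [[3, 1, 1,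
  1, 1, 1, 0], [1, 1, 0, 0, 1, 1, 0], [2, 1, 1, 0, 1, 1, 0], [1, 1, 1, 1, 1, 1, 0], [1, 0, 0, 0,
  1, 0, 0], [3, 1, 1, 1, 2, 2, 0], [1, 0, 0, 0, 1, 1, 1]] _ _ 98903086959 117648800281 _ (by
  decide +kernel) nd1102 ok485

theorem nd1104 : Ok 4 Dn4 [[3, 1, 1, 1, 1, 1, 0], [1, 1, 0, 0, 1, 1, 0], [2, 1, 1, 0, 1, 1, 0],
  [1, 1, 1, 1, 1, 1, 0], [1, 0, 0, 0, 1, 0, 0], [0, 0, 0, 0, 1, 1, 0], [1, 0, 0, 0, 1, 1, 1]]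
  96171833933821 [38, 158, 158, 158, 152, 152, 266] 102652229624 :=
  dec4 2 3 0 _ _ 96206193672189 _ [38, 158, 158, 158, 152, 152, 266] _ (by decide +kernel) nd1103

theorem nd1105 : Ok 4 Dn4 [[3, 1, 1, 1, 1, 1, 0], [1, 1, 0, 0, 0, 0, 0], [2, 1, 1, 0, 1, 1, 0],
  [1, 1, 1, 1, 1, 1, 0], [1, 0, 0, 0, 1, 0, 0], [1, 1, 0, 0, 1, 1, 0], [1, 0, 0, 0, 1, 1, 1]]
  246255171125245 [43, 163, 175, 175, 187, 187, 271] 100882798422 :=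
  cut4 3 6 1 1 1 _ [[3, 1, 1, 1, 1, 1, 0], [1, 1, 0, 0, 0, 0, 0], [2, 1, 1, 0, 1, 1, 0], [2, 1,
  1, 1, 2, 2, 1], [1, 0, 0, 0, 1, 0, 0], [1, 1, 0, 0, 1, 1, 0], [1, 0, 0, 0, 1, 1, 1]] [[3, 1, 1,
  1, 1, 1, 0], [1, 1, 0, 0, 0, 0, 0], [2, 1, 1, 0, 1, 1, 0], [1, 1, 1, 1, 1, 1, 0], [1, 0, 0, 0,
  1, 0, 0], [1, 1, 0, 0, 1, 1, 0], [2, 1, 1, 1, 2, 2, 1]] _ _ 73476949011 141991572537 _ (by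
  decide +kernel) ok486 ok487

theorem nd1106 : Ok 4 Dn4 [[3, 1, 1, 1, 1, 1, 0], [1, 1, 0, 0, 0, 0, 0], [2, 1, 1, 0, 1, 1, 0],
  [1, 1, 1, 1, 1, 1, 0], [1, 0, 0, 0, 1, 0, 0], [1, 1, 0, 0, 1, 1, 0], [1, 0, 0, 0, 1, 1, 1]]
  105517682769917 [42, 162, 174, 174, 180, 180, 270] 100882798422 :=
  dec4 2 15 1 _ _ 246255171125245 _ [43, 163, 175, 175, 187, 187, 271] _ (by decide +kernel)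
  nd1105

theorem nd1107 : Ok 4 Dn4 [[3, 1, 1, 1, 1, 1, 0], [1, 1, 0, 0, 0, 0, 0], [2, 1, 1, 0, 1, 1, 0],
  [1, 1, 1, 1, 1, 1, 0], [1, 0, 0, 0, 1, 0, 0], [1, 1, 0, 0, 1, 1, 0], [1, 0, 0, 0, 1, 1, 1]]
  96721589747709 [40, 160, 160, 172, 166, 166, 268] 100882798422 :=
  dec4 2 11 1 _ _ 105517682769917 _ [42, 162, 174, 174, 180, 180, 270] _ (by decide +kernel)
  nd1106

theorem nd1108 : Ok 4 Dn4 [[3, 1, 1, 1, 1, 1, 0], [1, 1, 0, 0, 0, 0, 0], [2, 1, 1, 0, 1, 1, 0],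
  [1, 1, 1, 1, 1, 1, 0], [1, 0, 0, 0, 1, 0, 0], [1, 1, 0, 0, 1, 1, 0], [1, 0, 0, 0, 1, 1, 1]]
  96171833933821 [38, 158, 158, 158, 152, 152, 266] 100882798422 :=
  dec4 2 7 1 _ _ 96721589747709 _ [40, 160, 160, 172, 166, 166, 268] _ (by decide +kernel) nd1107

theorem nd1109 : Ok 4 Dn4 [[3, 1, 1, 1, 1, 1, 0], [1, 1, 0, 0, 0, 0, 0], [2, 1, 1, 0, 1, 1, 0],
  [1, 1, 1, 1, 1, 1, 0], [1, 0, 0, 0, 1, 0, 0], [0, 0, 0, 0, 1, 1, 0], [1, 0, 0, 0, 1, 1, 1]]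
  96171833933821 [38, 158, 158, 158, 152, 152, 266] 101767514023 :=
  cut4 1 5 1 1 1 _ [[3, 1, 1, 1, 1, 1, 0], [1, 1, 0, 0, 1, 1, 0], [2, 1, 1, 0, 1, 1, 0], [1, 1,
  1, 1, 1, 1, 0], [1, 0, 0, 0, 1, 0, 0], [0, 0, 0, 0, 1, 1, 0], [1, 0, 0, 0, 1, 1, 1]] [[3, 1, 1,
  1, 1, 1, 0], [1, 1, 0, 0, 0, 0, 0], [2, 1, 1, 0, 1, 1, 0], [1, 1, 1, 1, 1, 1, 0], [1, 0, 0, 0,
  1, 0, 0], [1, 1, 0, 0, 1, 1, 0], [1, 0, 0, 0, 1, 1, 1]] _ _ 102652229624 100882798422 _ (by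
  decide +kernel) nd1104 nd1108

theorem nd1110 : Ok 4 Dn4 [[3, 1, 1, 1, 1, 1, 0], [1, 1, 0, 0, 0, 0, 0], [2, 1, 1, 0, 1, 1, 0],
  [1, 1, 1, 1, 1, 1, 0], [1, 0, 0, 0, 1, 0, 0], [0, 0, 0, 0, 1, 1, 0], [1, 0, 0, 0, 1, 1, 1]]
  96034394980349 [38, 158, 158, 158, 152, 152, 266] 101767514023 :=
  dec4 2 5 0 _ _ 96171833933821 _ [38, 158, 158, 158, 152, 152, 266] _ (by decide +kernel) nd1109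

theorem nd1111 : Ok 4 Dn4 [[3, 1, 1, 1, 1, 1, 0], [1, 1, 0, 0, 0, 0, 0], [2, 1, 1, 0, 0, 0, 0],
  [1, 1, 1, 1, 1, 1, 0], [1, 0, 0, 0, 1, 0, 0], [2, 1, 1, 0, 1, 1, 0], [2, 1, 1, 1, 2, 2, 1]]
  281302104276989 [59, 179, 179, 179, 203, 215, 287] 149954370343 :=
  cut4 2 6 1 1 1 _ [[3, 1, 1, 1, 1, 1, 0], [1, 1, 0, 0, 0, 0, 0], [4, 2, 2, 1, 2, 2, 1], [1, 1,
  1, 1, 1, 1, 0], [1, 0, 0, 0, 1, 0, 0], [2, 1, 1, 0, 1, 1, 0], [2, 1, 1, 1, 2, 2, 1]] [[3, 1, 1,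
  1, 1, 1, 0], [1, 1, 0, 0, 0, 0, 0], [2, 1, 1, 0, 0, 0, 0], [1, 1, 1, 1, 1, 1, 0], [1, 0, 0, 0,
  1, 0, 0], [2, 1, 1, 0, 1, 1, 0], [4, 2, 2, 1, 2, 2, 1]] _ _ 167417315084 142969192446 _ (by
  decide +kernel) ok489 ok490

theorem nd1112 : Ok 4 Dn4 [[3, 1, 1, 1, 1, 1, 0], [1, 1, 0, 0, 0, 0, 0], [2, 1, 1, 0, 0, 0, 0],
  [1, 1, 1, 1, 1, 1, 0], [1, 0, 0, 0, 1, 0, 0], [2, 1, 1, 0, 1, 1, 0], [2, 1, 1, 1, 2, 2, 1]]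
  281302104260605 [45, 177, 177, 177, 201, 201, 273] 149954370343 :=
  dec4 0 14 1 _ _ 281302104276989 _ [59, 179, 179, 179, 203, 215, 287] _ (by decide +kernel)
  nd1111

theorem nd1113 : Ok 4 Dn4 [[3, 1, 1, 1, 1, 1, 0], [1, 1, 0, 0, 0, 0, 0], [2, 1, 1, 0, 0, 0, 0],
  [1, 1, 1, 1, 1, 1, 0], [1, 0, 0, 0, 1, 0, 0], [2, 1, 1, 0, 1, 1, 0], [1, 0, 0, 0, 1, 1, 1]]
  281302104260605 [45, 177, 177, 177, 201, 201, 273] 106441236761 :=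
  cut4 3 6 1 1 1 _ [[3, 1, 1, 1, 1, 1, 0], [1, 1, 0, 0, 0, 0, 0], [2, 1, 1, 0, 0, 0, 0], [2, 1,
  1, 1, 2, 2, 1], [1, 0, 0, 0, 1, 0, 0], [2, 1, 1, 0, 1, 1, 0], [1, 0, 0, 0, 1, 1, 1]] [[3, 1, 1,
  1, 1, 1, 0], [1, 1, 0, 0, 0, 0, 0], [2, 1, 1, 0, 0, 0, 0], [1, 1, 1, 1, 1, 1, 0], [1, 0, 0, 0,
  1, 0, 0], [2, 1, 1, 0, 1, 1, 0], [2, 1, 1, 1, 2, 2, 1]] _ _ 77432481039 149954370343 _ (by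
  decide +kernel) ok488 nd1112

theorem nd1114 : Ok 4 Dn4 [[3, 1, 1, 1, 1, 1, 0], [1, 1, 0, 0, 0, 0, 0], [2, 1, 1, 0, 0, 0, 0],
  [1, 1, 1, 1, 1, 1, 0], [1, 0, 0, 0, 1, 0, 0], [2, 1, 1, 0, 1, 1, 0], [1, 0, 0, 0, 1, 1, 1]]
  140564615905277 [44, 176, 176, 176, 194, 194, 272] 106441236761 :=
  dec4 2 15 1 _ _ 281302104260605 _ [45, 177, 177, 177, 201, 201, 273] _ (by decide +kernel)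
  nd1113

theorem nd1115 : Ok 4 Dn4 [[3, 1, 1, 1, 1, 1, 0], [1, 1, 0, 0, 0, 0, 0], [2, 1, 1, 0, 0, 0, 0],
  [1, 1, 1, 1, 1, 1, 0], [1, 0, 0, 0, 1, 0, 0], [2, 1, 1, 0, 1, 1, 0], [1, 0, 0, 0, 1, 1, 1]]
  105380243816445 [42, 162, 174, 174, 180, 180, 270] 106441236761 :=
  dec4 2 13 1 _ _ 140564615905277 _ [44, 176, 176, 176, 194, 194, 272] _ (by decide +kernel)
  nd1114

theorem nd1116 : Ok 4 Dn4 [[3, 1, 1, 1, 1, 1, 0], [1, 1, 0, 0, 0, 0, 0], [2, 1, 1, 0, 0, 0, 0],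
  [1, 1, 1, 1, 1, 1, 0], [1, 0, 0, 0, 1, 0, 0], [2, 1, 1, 0, 1, 1, 0], [1, 0, 0, 0, 1, 1, 1]]
  96584150794237 [40, 160, 160, 172, 166, 166, 268] 106441236761 :=
  dec4 2 11 1 _ _ 105380243816445 _ [42, 162, 174, 174, 180, 180, 270] _ (by decide +kernel)
  nd1115

theorem nd1117 : Ok 4 Dn4 [[3, 1, 1, 1, 1, 1, 0], [1, 1, 0, 0, 0, 0, 0], [2, 1, 1, 0, 0, 0, 0],
  [1, 1, 1, 1, 1, 1, 0], [1, 0, 0, 0, 1, 0, 0], [2, 1, 1, 0, 1, 1, 0], [1, 0, 0, 0, 1, 1, 1]]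
  96034394980349 [38, 158, 158, 158, 152, 152, 266] 106441236761 :=
  dec4 2 7 1 _ _ 96584150794237 _ [40, 160, 160, 172, 166, 166, 268] _ (by decide +kernel) nd1116

theorem nd1118 : Ok 4 Dn4 [[3, 1, 1, 1, 1, 1, 0], [1, 1, 0, 0, 0, 0, 0], [2, 1, 1, 0, 0, 0, 0],
  [1, 1, 1, 1, 1, 1, 0], [1, 0, 0, 0, 1, 0, 0], [0, 0, 0, 0, 1, 1, 0], [1, 0, 0, 0, 1, 1, 1]]
  96034394980349 [38, 158, 158, 158, 152, 152, 266] 103325421603 :=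
  cut4 2 5 1 1 1 _ [[3, 1, 1, 1, 1, 1, 0], [1, 1, 0, 0, 0, 0, 0], [2, 1, 1, 0, 1, 1, 0], [1, 1,
  1, 1, 1, 1, 0], [1, 0, 0, 0, 1, 0, 0], [0, 0, 0, 0, 1, 1, 0], [1, 0, 0, 0, 1, 1, 1]] [[3, 1, 1,
  1, 1, 1, 0], [1, 1, 0, 0, 0, 0, 0], [2, 1, 1, 0, 0, 0, 0], [1, 1, 1, 1, 1, 1, 0], [1, 0, 0, 0,
  1, 0, 0], [2, 1, 1, 0, 1, 1, 0], [1, 0, 0, 0, 1, 1, 1]] _ _ 101767514023 106441236761 _ (by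
  decide +kernel) nd1110 nd1117

theorem nd1119 : Ok 4 Dn4 [[3, 1, 1, 1, 1, 1, 0], [1, 1, 0, 0, 0, 0, 0], [2, 1, 1, 0, 0, 0, 0],
  [1, 1, 1, 1, 1, 1, 0], [1, 0, 0, 0, 1, 0, 0], [0, 0, 0, 0, 1, 1, 0], [1, 0, 0, 0, 1, 1, 1]]
  25665650802685 [38, 158, 158, 158, 152, 152, 266] 103325421603 :=
  dec4 2 14 0 _ _ 96034394980349 _ [38, 158, 158, 158, 152, 152, 266] _ (by decide +kernel) nd1118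

theorem nd1120 : Ok 4 Dn4 [[3, 1, 1, 1, 1, 1, 0], [1, 1, 0, 0, 0, 0, 0], [2, 1, 1, 0, 0, 0, 0],
  [2, 1, 1, 1, 1, 1, 1], [1, 0, 0, 0, 1, 0, 0], [1, 1, 1, 1, 1, 1, 0], [2, 1, 1, 1, 2, 2, 1]]
  281302104276989 [59, 179, 179, 179, 203, 215, 287] 242580017142 :=
  cut4 2 6 1 1 1 _ [[3, 1, 1, 1, 1, 1, 0], [1, 1, 0, 0, 0, 0, 0], [4, 2, 2, 1, 2, 2, 1], [2, 1,
  1, 1, 1, 1, 1], [1, 0, 0, 0, 1, 0, 0], [1, 1, 1, 1, 1, 1, 0], [2, 1, 1, 1, 2, 2, 1]] [[3, 1, 1,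
  1, 1, 1, 0], [1, 1, 0, 0, 0, 0, 0], [2, 1, 1, 0, 0, 0, 0], [2, 1, 1, 1, 1, 1, 1], [1, 0, 0, 0,
  1, 0, 0], [1, 1, 1, 1, 1, 1, 0], [4, 2, 2, 1, 2, 2, 1]] _ _ 263098082831 234372790866 _ (by
  decide +kernel) ok492 ok493

theorem nd1121 : Ok 4 Dn4 [[3, 1, 1, 1, 1, 1, 0], [1, 1, 0, 0, 0, 0, 0], [2, 1, 1, 0, 0, 0, 0],
  [2, 1, 1, 1, 1, 1, 1], [1, 0, 0, 0, 1, 0, 0], [1, 1, 1, 1, 1, 1, 0], [2, 1, 1, 1, 2, 2, 1]]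
  281302104260605 [45, 177, 177, 177, 201, 201, 273] 242580017142 :=
  dec4 0 14 1 _ _ 281302104276989 _ [59, 179, 179, 179, 203, 215, 287] _ (by decide +kernel)
  nd1120

theorem nd1122 : Ok 4 Dn4 [[3, 1, 1, 1, 1, 1, 0], [1, 1, 0, 0, 0, 0, 0], [2, 1, 1, 0, 0, 0, 0],
  [2, 1, 1, 1, 1, 1, 1], [1, 0, 0, 0, 1, 0, 0], [1, 1, 1, 1, 1, 1, 0], [1, 0, 0, 0, 1, 1, 1]]
  281302104260605 [45, 177, 177, 177, 201, 201, 273] 193511549421 :=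
  cut4 5 6 1 1 1 _ [[3, 1, 1, 1, 1, 1, 0], [1, 1, 0, 0, 0, 0, 0], [2, 1, 1, 0, 0, 0, 0], [2, 1,
  1, 1, 1, 1, 1], [1, 0, 0, 0, 1, 0, 0], [2, 1, 1, 1, 2, 2, 1], [1, 0, 0, 0, 1, 1, 1]] [[3, 1, 1,
  1, 1, 1, 0], [1, 1, 0, 0, 0, 0, 0], [2, 1, 1, 0, 0, 0, 0], [2, 1, 1, 1, 1, 1, 1], [1, 0, 0, 0,
  1, 0, 0], [1, 1, 1, 1, 1, 1, 0], [2, 1, 1, 1, 2, 2, 1]] _ _ 160799237606 242580017142 _ (by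
  decide +kernel) ok491 nd1121

theorem nd1123 : Ok 4 Dn4 [[3, 1, 1, 1, 1, 1, 0], [1, 1, 0, 0, 0, 0, 0], [2, 1, 1, 0, 0, 0, 0],
  [2, 1, 1, 1, 1, 1, 1], [1, 0, 0, 0, 1, 0, 0], [1, 1, 1, 1, 1, 1, 0], [1, 0, 0, 0, 1, 1, 1]]
  210933360082941 [45, 177, 177, 177, 201, 201, 273] 193511549421 :=
  dec4 2 14 0 _ _ 281302104260605 _ [45, 177, 177, 177, 201, 201, 273] _ (by decide +kernel)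
  nd1122

theorem nd1124 : Ok 4 Dn4 [[3, 1, 1, 1, 1, 1, 0], [1, 1, 0, 0, 0, 0, 0], [2, 1, 1, 0, 0, 0, 0],
  [1, 1, 1, 1, 0, 0, 0], [1, 0, 0, 0, 1, 0, 0], [1, 1, 1, 1, 1, 1, 0], [1, 0, 0, 0, 1, 1, 1]]
  210933360082941 [45, 177, 177, 177, 201, 201, 273] 203899559562 :=
  cut4 3 6 1 1 1 _ [[3, 1, 1, 1, 1, 1, 0], [1, 1, 0, 0, 0, 0, 0], [2, 1, 1, 0, 0, 0, 0], [2, 1,
  1, 1, 1, 1, 1], [1, 0, 0, 0, 1, 0, 0], [1, 1, 1, 1, 1, 1, 0], [1, 0, 0, 0, 1, 1, 1]] [[3, 1, 1,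
  1, 1, 1, 0], [1, 1, 0, 0, 0, 0, 0], [2, 1, 1, 0, 0, 0, 0], [1, 1, 1, 1, 0, 0, 0], [1, 0, 0, 0,
  1, 0, 0], [1, 1, 1, 1, 1, 1, 0], [2, 1, 1, 1, 1, 1, 1]] _ _ 193511549421 214287569702 _ (by
  decide +kernel) nd1123 ok494

theorem nd1125 : Ok 4 Dn4 [[3, 1, 1, 1, 1, 1, 0], [1, 1, 0, 0, 0, 0, 0], [2, 1, 1, 0, 0, 0, 0],
  [1, 1, 1, 1, 0, 0, 0], [1, 0, 0, 0, 1, 0, 0], [1, 1, 1, 1, 1, 1, 0], [1, 0, 0, 0, 1, 1, 1]]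
  70195871727613 [44, 176, 176, 176, 194, 194, 272] 203899559562 :=
  dec4 2 15 1 _ _ 210933360082941 _ [45, 177, 177, 177, 201, 201, 273] _ (by decide +kernel)
  nd1124

theorem nd1126 : Ok 4 Dn4 [[3, 1, 1, 1, 1, 1, 0], [1, 1, 0, 0, 0, 0, 0], [2, 1, 1, 0, 0, 0, 0],
  [1, 1, 1, 1, 0, 0, 0], [1, 0, 0, 0, 1, 0, 0], [1, 1, 1, 1, 1, 1, 0], [1, 0, 0, 0, 1, 1, 1]]
  35011499638781 [42, 162, 174, 174, 180, 180, 270] 203899559562 :=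
  dec4 2 13 1 _ _ 70195871727613 _ [44, 176, 176, 176, 194, 194, 272] _ (by decide +kernel) nd1125

theorem nd1127 : Ok 4 Dn4 [[3, 1, 1, 1, 1, 1, 0], [1, 1, 0, 0, 0, 0, 0], [2, 1, 1, 0, 0, 0, 0],
  [1, 1, 1, 1, 0, 0, 0], [1, 0, 0, 0, 1, 0, 0], [1, 1, 1, 1, 1, 1, 0], [1, 0, 0, 0, 1, 1, 1]]
  26215406616573 [40, 160, 160, 172, 166, 166, 268] 203899559562 :=
  dec4 2 11 1 _ _ 35011499638781 _ [42, 162, 174, 174, 180, 180, 270] _ (by decide +kernel) nd1126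

theorem nd1128 : Ok 4 Dn4 [[3, 1, 1, 1, 1, 1, 0], [1, 1, 0, 0, 0, 0, 0], [2, 1, 1, 0, 0, 0, 0],
  [1, 1, 1, 1, 0, 0, 0], [1, 0, 0, 0, 1, 0, 0], [1, 1, 1, 1, 1, 1, 0], [1, 0, 0, 0, 1, 1, 1]]
  25665650802685 [38, 158, 158, 158, 152, 152, 266] 203899559562 :=
  dec4 2 7 1 _ _ 26215406616573 _ [40, 160, 160, 172, 166, 166, 268] _ (by decide +kernel) nd1127

theorem nd1129 : Ok 4 Dn4 [[3, 1, 1, 1, 1, 1, 0], [1, 1, 0, 0, 0, 0, 0], [2, 1, 1, 0, 0, 0, 0],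
  [1, 1, 1, 1, 0, 0, 0], [1, 0, 0, 0, 1, 0, 0], [0, 0, 0, 0, 1, 1, 0], [1, 0, 0, 0, 1, 1, 1]]
  25665650802685 [38, 158, 158, 158, 152, 152, 266] 136850134256 :=
  cut4 3 5 1 1 1 _ [[3, 1, 1, 1, 1, 1, 0], [1, 1, 0, 0, 0, 0, 0], [2, 1, 1, 0, 0, 0, 0], [1, 1,
  1, 1, 1, 1, 0], [1, 0, 0, 0, 1, 0, 0], [0, 0, 0, 0, 1, 1, 0], [1, 0, 0, 0, 1, 1, 1]] [[3, 1, 1,
  1, 1, 1, 0], [1, 1, 0, 0, 0, 0, 0], [2, 1, 1, 0, 0, 0, 0], [1, 1, 1, 1, 0, 0, 0], [1, 0, 0, 0,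
  1, 0, 0], [1, 1, 1, 1, 1, 1, 0], [1, 0, 0, 0, 1, 1, 1]] _ _ 103325421603 203899559562 _ (by
  decide +kernel) nd1119 nd1128

theorem nd1130 : Ok 4 Dn4 [[3, 1, 1, 1, 1, 1, 0], [1, 1, 0, 0, 0, 0, 0], [2, 1, 1, 0, 0, 0, 0],
  [1, 1, 1, 1, 0, 0, 0], [1, 0, 0, 0, 1, 0, 0], [0, 0, 0, 0, 1, 1, 0], [1, 0, 0, 0, 1, 1, 1]]
  25665650671613 [38, 158, 158, 158, 152, 152, 266] 136850134256 :=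
  dec4 1 1 0 _ _ 25665650802685 _ [38, 158, 158, 158, 152, 152, 266] _ (by decide +kernel) nd1129

theorem nd1131 : Ok 4 Dn4 [[2, 0, 0, 0, 1, 1, 0], [1, 1, 0, 0, 0, 0, 0], [2, 1, 1, 0, 0, 0, 0],
  [1, 1, 1, 1, 0, 0, 0], [1, 0, 0, 0, 1, 0, 0], [0, 0, 0, 0, 1, 1, 0], [1, 0, 0, 0, 1, 1, 1]]
  25665650671613 [38, 158, 158, 158, 152, 152, 266] 118179195192 :=
  cut4 0 3 1 1 1 _ [[3, 1, 1, 1, 1, 1, 0], [1, 1, 0, 0, 0, 0, 0], [2, 1, 1, 0, 0, 0, 0], [1, 1,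
  1, 1, 0, 0, 0], [1, 0, 0, 0, 1, 0, 0], [0, 0, 0, 0, 1, 1, 0], [1, 0, 0, 0, 1, 1, 1]] [[2, 0, 0,
  0, 1, 1, 0], [1, 1, 0, 0, 0, 0, 0], [2, 1, 1, 0, 0, 0, 0], [3, 1, 1, 1, 1, 1, 0], [1, 0, 0, 0,
  1, 0, 0], [0, 0, 0, 0, 1, 1, 0], [1, 0, 0, 0, 1, 1, 1]] _ _ 136850134256 99508256127 _ (by
  decide +kernel) nd1130 ok495

theorem nd1132 : Ok 4 Dn4 [[2, 0, 0, 0, 1, 1, 0], [1, 1, 0, 0, 0, 0, 0], [2, 1, 1, 0, 0, 0, 0],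
  [1, 1, 1, 1, 0, 0, 0], [1, 0, 0, 0, 1, 0, 0], [0, 0, 0, 0, 1, 1, 0], [1, 0, 0, 0, 1, 1, 1]]
  23466627416061 [38, 158, 158, 158, 152, 152, 266] 118179195192 :=
  dec4 2 9 0 _ _ 25665650671613 _ [38, 158, 158, 158, 152, 152, 266] _ (by decide +kernel) nd1131

theorem nd1133 : Ok 4 Dn4 [[2, 0, 0, 0, 1, 1, 0], [1, 1, 0, 0, 0, 0, 0], [2, 1, 1, 0, 0, 0, 0],
  [1, 1, 1, 1, 0, 0, 0], [1, 0, 0, 0, 1, 0, 0], [0, 0, 0, 0, 1, 1, 0], [1, 0, 0, 0, 1, 1, 1]]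
  23458037481469 [38, 158, 158, 158, 152, 152, 266] 118179195192 :=
  dec4 2 1 0 _ _ 23466627416061 _ [38, 158, 158, 158, 152, 152, 266] _ (by decide +kernel) nd1132

theorem nd1134 : Ok 4 Dn4 [[1, 0, 0, 0, 0, 0, 0], [1, 1, 0, 0, 0, 0, 0], [2, 1, 1, 0, 0, 0, 0],
  [1, 1, 1, 1, 0, 0, 0], [1, 0, 0, 0, 1, 0, 0], [2, 0, 0, 0, 1, 1, 0], [1, 0, 0, 0, 1, 1, 1]]
  211096568709117 [57, 237, 237, 237, 285, 285, 285] 895855210930 :=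
  cut4 3 5 1 1 1 _ [[1, 0, 0, 0, 0, 0, 0], [1, 1, 0, 0, 0, 0, 0], [2, 1, 1, 0, 0, 0, 0], [3, 1,
  1, 1, 1, 1, 0], [1, 0, 0, 0, 1, 0, 0], [2, 0, 0, 0, 1, 1, 0], [1, 0, 0, 0, 1, 1, 1]] [[1, 0, 0,
  0, 0, 0, 0], [1, 1, 0, 0, 0, 0, 0], [2, 1, 1, 0, 0, 0, 0], [1, 1, 1, 1, 0, 0, 0], [1, 0, 0, 0,
  1, 0, 0], [3, 1, 1, 1, 1, 1, 0], [1, 0, 0, 0, 1, 1, 1]] _ _ 651669870057 1140040551802 _ (by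
  decide +kernel) ok496 ok497

theorem nd1135 : Ok 4 Dn4 [[1, 0, 0, 0, 0, 0, 0], [1, 1, 0, 0, 0, 0, 0], [2, 1, 1, 0, 0, 0, 0],
  [1, 1, 1, 1, 0, 0, 0], [1, 0, 0, 0, 1, 0, 0], [2, 0, 0, 0, 1, 1, 0], [1, 0, 0, 0, 1, 1, 1]]
  70359080353789 [56, 236, 236, 236, 278, 278, 284] 895855210930 :=
  dec4 2 15 1 _ _ 211096568709117 _ [57, 237, 237, 237, 285, 285, 285] _ (by decide +kernel)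
  nd1134

theorem nd1136 : Ok 4 Dn4 [[1, 0, 0, 0, 0, 0, 0], [1, 1, 0, 0, 0, 0, 0], [2, 1, 1, 0, 0, 0, 0],
  [1, 1, 1, 1, 0, 0, 0], [1, 0, 0, 0, 1, 0, 0], [2, 0, 0, 0, 1, 1, 0], [1, 0, 0, 0, 1, 1, 1]]
  35174708264957 [54, 222, 234, 234, 264, 264, 282] 895855210930 :=
  dec4 2 13 1 _ _ 70359080353789 _ [56, 236, 236, 236, 278, 278, 284] _ (by decide +kernel) nd1135

theorem nd1137 : Ok 4 Dn4 [[1, 0, 0, 0, 0, 0, 0], [1, 1, 0, 0, 0, 0, 0], [2, 1, 1, 0, 0, 0, 0],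
  [1, 1, 1, 1, 0, 0, 0], [1, 0, 0, 0, 1, 0, 0], [2, 0, 0, 0, 1, 1, 0], [1, 0, 0, 0, 1, 1, 1]]
  26378615242749 [52, 220, 220, 232, 250, 250, 280] 895855210930 :=
  dec4 2 11 1 _ _ 35174708264957 _ [54, 222, 234, 234, 264, 264, 282] _ (by decide +kernel) nd1136

theorem nd1138 : Ok 4 Dn4 [[1, 0, 0, 0, 0, 0, 0], [1, 1, 0, 0, 0, 0, 0], [2, 1, 1, 0, 0, 0, 0],
  [1, 1, 1, 1, 0, 0, 0], [1, 0, 0, 0, 1, 0, 0], [2, 0, 0, 0, 1, 1, 0], [1, 0, 0, 0, 1, 1, 1]]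
  24179591987197 [48, 192, 192, 228, 222, 222, 276] 895855210930 :=
  dec4 2 9 1 _ _ 26378615242749 _ [52, 220, 220, 232, 250, 250, 280] _ (by decide +kernel) nd1137

theorem nd1139 : Ok 4 Dn4 [[1, 0, 0, 0, 0, 0, 0], [1, 1, 0, 0, 0, 0, 0], [2, 1, 1, 0, 0, 0, 0],
  [1, 1, 1, 1, 0, 0, 0], [1, 0, 0, 0, 1, 0, 0], [2, 0, 0, 0, 1, 1, 0], [1, 0, 0, 0, 1, 1, 1]]
  23629836173309 [46, 190, 190, 214, 208, 208, 274] 895855210930 :=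
  dec4 2 7 1 _ _ 24179591987197 _ [48, 192, 192, 228, 222, 222, 276] _ (by decide +kernel) nd1138

theorem nd1140 : Ok 4 Dn4 [[1, 0, 0, 0, 0, 0, 0], [1, 1, 0, 0, 0, 0, 0], [2, 1, 1, 0, 0, 0, 0],
  [1, 1, 1, 1, 0, 0, 0], [1, 0, 0, 0, 1, 0, 0], [2, 0, 0, 0, 1, 1, 0], [1, 0, 0, 0, 1, 1, 1]]
  23492397219837 [42, 162, 186, 186, 180, 180, 270] 895855210930 :=
  dec4 2 5 1 _ _ 23629836173309 _ [46, 190, 190, 214, 208, 208, 274] _ (by decide +kernel) nd1139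

theorem nd1141 : Ok 4 Dn4 [[1, 0, 0, 0, 0, 0, 0], [1, 1, 0, 0, 0, 0, 0], [2, 1, 1, 0, 0, 0, 0],
  [1, 1, 1, 1, 0, 0, 0], [1, 0, 0, 0, 1, 0, 0], [2, 0, 0, 0, 1, 1, 0], [1, 0, 0, 0, 1, 1, 1]]
  23458037481469 [38, 158, 158, 158, 152, 152, 266] 895855210930 :=
  dec4 2 3 1 _ _ 23492397219837 _ [42, 162, 186, 186, 180, 180, 270] _ (by decide +kernel) nd1140

theorem nd1142 : Ok 4 Dn4 [[1, 0, 0, 0, 0, 0, 0], [1, 1, 0, 0, 0, 0, 0], [2, 1, 1, 0, 0, 0, 0],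
  [1, 1, 1, 1, 0, 0, 0], [1, 0, 0, 0, 1, 0, 0], [0, 0, 0, 0, 1, 1, 0], [1, 0, 0, 0, 1, 1, 1]]
  23458037481469 [38, 158, 158, 158, 152, 152, 266] 507017203061 :=
  cut4 0 5 2 1 1 _ [[2, 0, 0, 0, 1, 1, 0], [1, 1, 0, 0, 0, 0, 0], [2, 1, 1, 0, 0, 0, 0], [1, 1,
  1, 1, 0, 0, 0], [1, 0, 0, 0, 1, 0, 0], [0, 0, 0, 0, 1, 1, 0], [1, 0, 0, 0, 1, 1, 1]] [[1, 0, 0,
  0, 0, 0, 0], [1, 1, 0, 0, 0, 0, 0], [2, 1, 1, 0, 0, 0, 0], [1, 1, 1, 1, 0, 0, 0], [1, 0, 0, 0,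
  1, 0, 0], [2, 0, 0, 0, 1, 1, 0], [1, 0, 0, 0, 1, 1, 1]] _ _ 118179195192 895855210930 _ (by
  decide +kernel) nd1133 nd1141

theorem nd1143 : Ok 4 Dn4 [[1, 0, 0, 0, 0, 0, 0], [1, 1, 0, 0, 0, 0, 0], [2, 1, 1, 0, 0, 0, 0],
  [1, 1, 1, 1, 0, 0, 0], [1, 0, 0, 0, 1, 0, 0], [0, 0, 0, 0, 1, 1, 0], [1, 0, 0, 0, 1, 1, 1]]
  23183159574525 [38, 158, 158, 158, 152, 152, 266] 507017203061 :=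
  dec4 2 6 0 _ _ 23458037481469 _ [38, 158, 158, 158, 152, 152, 266] _ (by decide +kernel) nd1142

theorem nd1144 : Ok 4 Dn4 [[1, 0, 0, 0, 0, 0, 0], [1, 1, 0, 0, 0, 0, 0], [2, 1, 1, 0, 0, 0, 0],
  [1, 1, 1, 1, 0, 0, 0], [1, 0, 0, 0, 1, 0, 0], [0, 0, 0, 0, 1, 1, 0], [1, 0, 0, 0, 1, 1, 1]]
  23183126020093 [34, 130, 130, 154, 124, 148, 238] 507017203061 :=
  dec4 1 9 1 _ _ 23183159574525 _ [38, 158, 158, 158, 152, 152, 266] _ (by decide +kernel) nd1143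

theorem nd1145 : Ok 4 Dn4 [[1, 0, 0, 0, 0, 0, 0], [1, 1, 0, 0, 0, 0, 0], [2, 1, 1, 0, 0, 0, 0],
  [1, 1, 1, 1, 0, 0, 0], [1, 0, 0, 0, 1, 0, 0], [0, 0, 0, 0, 1, 1, 0], [1, 0, 0, 0, 1, 1, 1]]
  23183121825789 [34, 130, 130, 154, 124, 148, 238] 507017203061 :=
  dec4 1 6 0 _ _ 23183126020093 _ [34, 130, 130, 154, 124, 148, 238] _ (by decide +kernel) nd1144

theorem nd1146 : Ok 4 Dn4 [[1, 0, 0, 0, 0, 0, 0], [1, 1, 0, 0, 0, 0, 0], [2, 1, 1, 0, 0, 0, 0],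
  [1, 1, 1, 1, 0, 0, 0], [1, 0, 0, 0, 1, 0, 0], [0, 0, 0, 0, 1, 1, 0], [1, 0, 0, 0, 1, 1, 1]]
  23183121825277 [30, 102, 102, 150, 120, 120, 210] 507017203061 :=
  dec4 0 9 1 _ _ 23183121825789 _ [34, 130, 130, 154, 124, 148, 238] _ (by decide +kernel) nd1145

theorem nd1147 : Ok 4 Dn4 [[1, 0, 0, 0, 0, 0, 0], [1, 1, 0, 0, 0, 0, 0], [2, 1, 1, 0, 0, 0, 0],
  [1, 1, 1, 1, 0, 0, 0], [1, 0, 0, 0, 1, 0, 0], [0, 0, 0, 0, 1, 1, 0], [1, 0, 0, 0, 1, 1, 1]]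
  23183121825213 [30, 102, 102, 150, 120, 120, 210] 507017203061 :=
  dec4 0 6 0 _ _ 23183121825277 _ [30, 102, 102, 150, 120, 120, 210] _ (by decide +kernel) nd1146

theorem nd1148 : Ok 4 Dn4 [[1, 0, 0, 0, 0, 0, 0], [1, 1, 0, 0, 0, 0, 0], [1, 1, 1, 0, 0, 0, 0],
  [1, 1, 1, 1, 0, 0, 0], [1, 0, 0, 0, 1, 0, 0], [0, 0, 0, 0, 1, 1, 0], [1, 0, 0, 0, 1, 1, 1]]
  23183121825213 [30, 102, 102, 150, 120, 120, 210] 443967787858 :=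
  cut4 0 2 1 1 1 _ [[2, 1, 1, 0, 0, 0, 0], [1, 1, 0, 0, 0, 0, 0], [1, 1, 1, 0, 0, 0, 0], [1, 1,
  1, 1, 0, 0, 0], [1, 0, 0, 0, 1, 0, 0], [0, 0, 0, 0, 1, 1, 0], [1, 0, 0, 0, 1, 1, 1]] [[1, 0, 0,
  0, 0, 0, 0], [1, 1, 0, 0, 0, 0, 0], [2, 1, 1, 0, 0, 0, 0], [1, 1, 1, 1, 0, 0, 0], [1, 0, 0, 0,
  1, 0, 0], [0, 0, 0, 0, 1, 1, 0], [1, 0, 0, 0, 1, 1, 1]] _ _ 254819542248 507017203061 _ (by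
  decide +kernel) nd1099 nd1147

theorem nd1149 : Ok 4 Dn4 [[1, 0, 0, 0, 0, 0, 0], [1, 1, 0, 0, 0, 0, 0], [1, 1, 1, 0, 0, 0, 0],
  [1, 1, 1, 1, 0, 0, 0], [1, 0, 0, 0, 1, 0, 0], [0, 0, 0, 0, 1, 1, 0], [1, 0, 0, 0, 1, 1, 1]]
  23180974341565 [29, 101, 101, 149, 113, 119, 203] 443967787858 :=
  dec4 1 15 1 _ _ 23183121825213 _ [30, 102, 102, 150, 120, 120, 210] _ (by decide +kernel) nd1148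

theorem nd1150 : Ok 4 Dn4 [[1, 0, 0, 0, 0, 0, 0], [1, 1, 0, 0, 0, 0, 0], [1, 1, 1, 0, 0, 0, 0],
  [1, 1, 1, 1, 0, 0, 0], [1, 0, 0, 0, 1, 0, 0], [0, 0, 0, 0, 1, 1, 0], [1, 0, 0, 0, 1, 1, 1]]
  23180437470653 [27, 87, 99, 147, 99, 117, 189] 443967787858 :=
  dec4 1 13 1 _ _ 23180974341565 _ [29, 101, 101, 149, 113, 119, 203] _ (by decide +kernel) nd1149

theorem nd1151 : Ok 4 Dn4 [[1, 0, 0, 0, 0, 0, 0], [1, 1, 0, 0, 0, 0, 0], [1, 1, 1, 0, 0, 0, 0],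
  [1, 1, 1, 1, 0, 0, 0], [1, 0, 0, 0, 1, 0, 0], [0, 0, 0, 0, 1, 1, 0], [1, 0, 0, 0, 1, 1, 1]]
  23180303252925 [25, 85, 85, 145, 85, 115, 175] 443967787858 :=
  dec4 1 11 1 _ _ 23180437470653 _ [27, 87, 99, 147, 99, 117, 189] _ (by decide +kernel) nd1150

theorem nd1152 : Ok 4 Dn4 [[1, 0, 0, 0, 0, 0, 0], [1, 1, 0, 0, 0, 0, 0], [1, 1, 1, 0, 0, 0, 0],
  [1, 1, 1, 1, 0, 0, 0], [1, 0, 0, 0, 1, 0, 0], [0, 0, 0, 0, 1, 1, 0], [1, 0, 0, 0, 1, 1, 1]]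
  23180294864317 [23, 83, 83, 131, 71, 113, 161] 443967787858 :=
  dec4 1 7 1 _ _ 23180303252925 _ [25, 85, 85, 145, 85, 115, 175] _ (by decide +kernel) nd1151

theorem nd1153 : Ok 4 Dn4 [[1, 0, 0, 0, 0, 0, 0], [1, 1, 0, 0, 0, 0, 0], [1, 1, 1, 0, 0, 0, 0],
  [1, 1, 1, 1, 0, 0, 0], [1, 0, 0, 0, 1, 0, 0], [0, 0, 0, 0, 1, 1, 0], [1, 0, 0, 0, 1, 1, 1]]
  23180292767165 [19, 55, 79, 103, 43, 109, 133] 443967787858 :=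
  dec4 1 5 1 _ _ 23180294864317 _ [23, 83, 83, 131, 71, 113, 161] _ (by decide +kernel) nd1152

theorem nd1154 : Ok 4 Dn4 [[1, 0, 0, 0, 0, 0, 0], [1, 1, 0, 0, 0, 0, 0], [1, 1, 1, 0, 0, 0, 0],
  [1, 1, 1, 1, 0, 0, 0], [1, 0, 0, 0, 1, 0, 0], [0, 0, 0, 0, 1, 1, 0], [1, 0, 0, 0, 1, 1, 1]]
  23180292242877 [15, 51, 51, 75, 15, 105, 105] 443967787858 :=
  dec4 1 3 1 _ _ 23180292767165 _ [19, 55, 79, 103, 43, 109, 133] _ (by decide +kernel) nd1153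

theorem nd1155 : Ok 4 Dn4 [[1, 0, 0, 0, 0, 0, 0], [1, 1, 0, 0, 0, 0, 0], [1, 1, 1, 0, 0, 0, 0],
  [1, 1, 1, 1, 0, 0, 0], [1, 0, 0, 0, 1, 0, 0], [0, 0, 0, 0, 1, 1, 0], [1, 0, 0, 0, 1, 1, 1]]
  23180292210109 [14, 50, 50, 74, 14, 98, 98] 443967787858 :=
  dec4 0 15 1 _ _ 23180292242877 _ [15, 51, 51, 75, 15, 105, 105] _ (by decide +kernel) nd1154

theorem nd1156 : Ok 4 Dn4 [[1, 0, 0, 0, 0, 0, 0], [1, 1, 0, 0, 0, 0, 0], [1, 1, 1, 0, 0, 0, 0],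
  [1, 1, 1, 1, 0, 0, 0], [1, 0, 0, 0, 1, 0, 0], [0, 0, 0, 0, 1, 1, 0], [1, 0, 0, 0, 1, 1, 1]]
  23180292201917 [12, 36, 48, 72, 12, 84, 84] 443967787858 :=
  dec4 0 13 1 _ _ 23180292210109 _ [14, 50, 50, 74, 14, 98, 98] _ (by decide +kernel) nd1155

theorem nd1157 : Ok 4 Dn4 [[1, 0, 0, 0, 0, 0, 0], [1, 1, 0, 0, 0, 0, 0], [1, 1, 1, 0, 0, 0, 0],
  [1, 1, 1, 1, 0, 0, 0], [1, 0, 0, 0, 1, 0, 0], [0, 0, 0, 0, 1, 1, 0], [1, 0, 0, 0, 1, 1, 1]]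
  23180292199869 [10, 34, 34, 70, 10, 70, 70] 443967787858 :=
  dec4 0 11 1 _ _ 23180292201917 _ [12, 36, 48, 72, 12, 84, 84] _ (by decide +kernel) nd1156

theorem nd1158 : Ok 4 Dn4 [[1, 0, 0, 0, 0, 0, 0], [1, 1, 0, 0, 0, 0, 0], [1, 1, 1, 0, 0, 0, 0],
  [1, 1, 1, 1, 0, 0, 0], [1, 0, 0, 0, 1, 0, 0], [0, 0, 0, 0, 1, 1, 0], [1, 0, 0, 0, 1, 1, 1]]
  23180292199741 [8, 32, 32, 56, 8, 56, 56] 443967787858 :=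
  dec4 0 7 1 _ _ 23180292199869 _ [10, 34, 34, 70, 10, 70, 70] _ (by decide +kernel) nd1157

theorem nd1159 : Ok 4 Dn4 [[1, 0, 0, 0, 0, 0, 0], [1, 1, 0, 0, 0, 0, 0], [1, 1, 1, 0, 0, 0, 0],
  [1, 1, 1, 1, 0, 0, 0], [1, 0, 0, 0, 1, 0, 0], [0, 0, 0, 0, 1, 1, 0], [1, 0, 0, 0, 1, 1, 1]]
  23180292199709 [4, 4, 28, 28, 4, 28, 28] 443967787858 :=
  dec4 0 5 1 _ _ 23180292199741 _ [8, 32, 32, 56, 8, 56, 56] _ (by decide +kernel) nd1158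

theorem nd1160 : Ok 4 Dn4 [[1, 0, 0, 0, 0, 0, 0], [1, 1, 0, 0, 0, 0, 0], [1, 1, 1, 0, 0, 0, 0],
  [1, 1, 1, 1, 0, 0, 0], [1, 0, 0, 0, 1, 0, 0], [0, 0, 0, 0, 1, 1, 0], [1, 0, 0, 0, 1, 1, 1]]
  23180292199701 [0, 0, 0, 0, 0, 0, 0] 443967787858 :=
  dec4 0 3 1 _ _ 23180292199709 _ [4, 4, 28, 28, 4, 28, 28] _ (by decide +kernel) nd1159

end Pool.Agent.Work.MP_122e00_nt.Sharp.Cx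

end

section

set_option autoImplicit false

set_option maxRecDepth 100000

/-!
# The certificate: data
-/

namespace Pool.Agent.Work.MP_122e00_nt.Sharp.Cx

theorem nd1161 : Ok 4 Dn4 [[1, 0, 0, 0, 1, 0, 0], [1, 1, 0, 0, 0, 0, 0], [1, 1, 1, 0, 1, 1, 1],
  [1, 1, 1, 1, 0, 0, 0], [0, 0, 0, 0, 2, 1, 1], [0, 0, 0, 0, 1, 1, 0], [1, 1, 1, 1, 2, 2, 2]]
  25800262286805 [21, 21, 21, 21, 9, 63, 63] 2261642924561 :=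
  cut4 3 4 1 1 1 _ [[1, 0, 0, 0, 1, 0, 0], [1, 1, 0, 0, 0, 0, 0], [1, 1, 1, 0, 1, 1, 1], [1, 1,
  1, 1, 2, 1, 1], [0, 0, 0, 0, 2, 1, 1], [0, 0, 0, 0, 1, 1, 0], [1, 1, 1, 1, 2, 2, 2]] [[1, 0, 0,
  0, 1, 0, 0], [1, 1, 0, 0, 0, 0, 0], [1, 1, 1, 0, 1, 1, 1], [1, 1, 1, 1, 0, 0, 0], [1, 1, 1, 1,
  2, 1, 1], [0, 0, 0, 0, 1, 1, 0], [1, 1, 1, 1, 2, 2, 2]] _ _ 1004326756750 3518959092372 _ (by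
  decide +kernel) nd46 nd166

theorem nd1162 : Ok 4 Dn4 [[1, 0, 0, 0, 1, 0, 0], [1, 1, 0, 0, 0, 0, 0], [1, 1, 1, 0, 1, 1, 1],
  [1, 1, 1, 1, 0, 0, 0], [0, 0, 0, 0, 2, 1, 1], [0, 0, 0, 0, 1, 1, 0], [1, 1, 1, 1, 2, 2, 2]]
  25800262254037 [20, 20, 20, 20, 8, 56, 56] 2261642924561 :=
  dec4 0 15 1 _ _ 25800262286805 _ [21, 21, 21, 21, 9, 63, 63] _ (by decide +kernel) nd1161

theorem nd1163 : Ok 4 Dn4 [[1, 0, 0, 0, 1, 0, 0], [1, 1, 0, 0, 0, 0, 0], [1, 1, 1, 0, 1, 1, 1],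
  [1, 1, 1, 1, 0, 0, 0], [0, 0, 0, 0, 2, 1, 1], [0, 0, 0, 0, 1, 1, 0], [1, 1, 1, 1, 2, 2, 2]]
  25800262237653 [6, 18, 18, 18, 6, 42, 42] 2261642924561 :=
  dec4 0 14 1 _ _ 25800262254037 _ [20, 20, 20, 20, 8, 56, 56] _ (by decide +kernel) nd1162

theorem nd1164 : Ok 4 Dn4 [[1, 0, 0, 0, 1, 0, 0], [1, 1, 0, 0, 0, 0, 0], [1, 1, 1, 0, 1, 1, 1],
  [1, 1, 1, 1, 0, 0, 0], [0, 0, 0, 0, 2, 1, 1], [0, 0, 0, 0, 1, 1, 0], [1, 1, 1, 1, 2, 2, 2]]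
  25800262229461 [4, 4, 16, 16, 4, 28, 28] 2261642924561 :=
  dec4 0 13 1 _ _ 25800262237653 _ [6, 18, 18, 18, 6, 42, 42] _ (by decide +kernel) nd1163

theorem nd1165 : Ok 4 Dn4 [[1, 0, 0, 0, 1, 0, 0], [1, 1, 0, 0, 0, 0, 0], [1, 1, 1, 0, 1, 1, 1],
  [1, 1, 1, 1, 0, 0, 0], [0, 0, 0, 0, 2, 1, 1], [0, 0, 0, 0, 1, 1, 0], [1, 1, 1, 1, 2, 2, 2]]
  25800262227413 [2, 2, 2, 14, 2, 14, 14] 2261642924561 :=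
  dec4 0 11 1 _ _ 25800262229461 _ [4, 4, 16, 16, 4, 28, 28] _ (by decide +kernel) nd1164

theorem nd1166 : Ok 4 Dn4 [[1, 0, 0, 0, 1, 0, 0], [1, 1, 0, 0, 0, 0, 0], [1, 1, 1, 0, 1, 1, 1],
  [1, 1, 1, 1, 0, 0, 0], [0, 0, 0, 0, 2, 1, 1], [0, 0, 0, 0, 1, 1, 0], [1, 1, 1, 1, 2, 2, 2]]
  25800262227285 [0, 0, 0, 0, 0, 0, 0] 2261642924561 :=
  dec4 0 7 1 _ _ 25800262227413 _ [2, 2, 2, 14, 2, 14, 14] _ (by decide +kernel) nd1165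

theorem nd1167 : Ok 4 Dn4 [[1, 0, 0, 0, 1, 0, 0], [1, 1, 0, 0, 0, 0, 0], [1, 1, 1, 0, 1, 1, 1],
  [1, 1, 1, 1, 0, 0, 0], [0, 0, 0, 0, 2, 1, 1], [0, 0, 0, 0, 1, 1, 0], [0, 0, 0, 0, 1, 1, 1]]
  25800262227285 [0, 0, 0, 0, 0, 0, 0] 1550483498111 :=
  cut4 3 6 1 2 1 _ [[1, 0, 0, 0, 1, 0, 0], [1, 1, 0, 0, 0, 0, 0], [1, 1, 1, 0, 1, 1, 1], [1, 1,
  1, 1, 2, 2, 2], [0, 0, 0, 0, 2, 1, 1], [0, 0, 0, 0, 1, 1, 0], [0, 0, 0, 0, 1, 1, 1]] [[1, 0, 0,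
  0, 1, 0, 0], [1, 1, 0, 0, 0, 0, 0], [1, 1, 1, 0, 1, 1, 1], [1, 1, 1, 1, 0, 0, 0], [0, 0, 0, 0,
  2, 1, 1], [0, 0, 0, 0, 1, 1, 0], [1, 1, 1, 1, 2, 2, 2]] _ _ 483744358436 2261642924561 _ (by
  decide +kernel) nd29 nd1166

theorem nd1168 : Ok 4 Dn4 [[1, 0, 0, 0, 1, 0, 0], [1, 1, 0, 0, 0, 0, 0], [1, 1, 1, 0, 1, 1, 1],
  [1, 1, 1, 1, 0, 0, 0], [0, 0, 0, 0, 2, 1, 1], [0, 0, 0, 0, 1, 1, 0], [0, 0, 0, 0, 1, 1, 1]]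
  25800262223189 [0, 0, 0, 0, 0, 0, 0] 1550483498111 :=
  dec4 0 12 0 _ _ 25800262227285 _ [0, 0, 0, 0, 0, 0, 0] _ (by decide +kernel) nd1167

theorem nd1169 : Ok 4 Dn4 [[1, 0, 0, 0, 1, 0, 0], [1, 1, 0, 0, 0, 0, 0], [1, 1, 1, 0, 1, 1, 1],
  [1, 1, 1, 1, 0, 0, 0], [0, 0, 0, 0, 2, 1, 1], [0, 0, 0, 0, 1, 1, 0], [0, 0, 0, 0, 1, 1, 1]]
  25800262222165 [0, 0, 0, 0, 0, 0, 0] 1550483498111 :=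
  dec4 0 10 0 _ _ 25800262223189 _ [0, 0, 0, 0, 0, 0, 0] _ (by decide +kernel) nd1168

theorem nd1170 : Ok 4 Dn4 [[1, 0, 0, 0, 1, 0, 0], [1, 1, 0, 0, 0, 0, 0], [1, 1, 1, 0, 1, 1, 1],
  [1, 1, 1, 1, 0, 0, 0], [0, 0, 0, 0, 2, 1, 1], [0, 0, 0, 0, 1, 1, 0], [0, 0, 0, 0, 1, 1, 1]]
  25800262221909 [0, 0, 0, 0, 0, 0, 0] 1550483498111 :=
  dec4 0 8 0 _ _ 25800262222165 _ [0, 0, 0, 0, 0, 0, 0] _ (by decide +kernel) nd1169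

theorem nd1171 : Ok 4 Dn4 [[1, 0, 0, 0, 1, 0, 0], [1, 1, 0, 0, 0, 0, 0], [1, 1, 1, 0, 1, 1, 1],
  [1, 1, 1, 1, 0, 0, 0], [0, 0, 0, 0, 2, 1, 1], [0, 0, 0, 0, 1, 1, 0], [0, 0, 0, 0, 1, 1, 1]]
  25800262221845 [0, 0, 0, 0, 0, 0, 0] 1550483498111 :=
  dec4 0 6 0 _ _ 25800262221909 _ [0, 0, 0, 0, 0, 0, 0] _ (by decide +kernel) nd1170

theorem nd1172 : Ok 4 Dn4 [[1, 0, 0, 0, 1, 0, 0], [1, 1, 0, 0, 0, 0, 0], [1, 1, 1, 0, 1, 1, 1],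
  [1, 1, 1, 1, 0, 0, 0], [0, 0, 0, 0, 2, 1, 1], [0, 0, 0, 0, 1, 1, 0], [0, 0, 0, 0, 1, 1, 1]]
  25800262221829 [0, 0, 0, 0, 0, 0, 0] 1550483498111 :=
  dec4 0 4 0 _ _ 25800262221845 _ [0, 0, 0, 0, 0, 0, 0] _ (by decide +kernel) nd1171

theorem nd1173 : Ok 4 Dn4 [[1, 0, 0, 0, 1, 0, 0], [1, 1, 0, 0, 0, 0, 0], [1, 1, 1, 0, 1, 1, 1],
  [1, 1, 1, 1, 0, 0, 0], [0, 0, 0, 0, 2, 1, 1], [0, 0, 0, 0, 1, 1, 0], [0, 0, 0, 0, 1, 1, 1]]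
  25800262221825 [0, 0, 0, 0, 0, 0, 0] 1550483498111 :=
  dec4 0 2 0 _ _ 25800262221829 _ [0, 0, 0, 0, 0, 0, 0] _ (by decide +kernel) nd1172

theorem nd1174 : Ok 4 Dn4 [[1, 0, 0, 0, 1, 0, 0], [1, 1, 0, 0, 0, 0, 0], [1, 1, 1, 0, 1, 1, 1],
  [1, 1, 1, 1, 0, 0, 0], [0, 0, 0, 0, 2, 1, 1], [0, 0, 0, 0, 1, 1, 0], [0, 0, 0, 0, 1, 1, 1]]
  25800262221824 [0, 0, 0, 0, 0, 0, 0] 1550483498111 :=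
  dec4 0 0 0 _ _ 25800262221825 _ [0, 0, 0, 0, 0, 0, 0] _ (by decide +kernel) nd1173

theorem nd1175 : Ok 4 Dn4 [[1, 0, 0, 0, 1, 0, 0], [1, 1, 0, 0, 0, 0, 0], [1, 1, 1, 0, 1, 1, 1],
  [1, 1, 1, 1, 2, 0, 0], [1, 1, 0, 0, 2, 0, 0], [0, 0, 0, 0, 1, 1, 0], [0, 0, 0, 0, 2, 1, 1]]
  131354989160953 [57, 57, 57, 105, 21, 147, 147] 68253231026 :=
  cut4 1 6 1 1 1 _ [[1, 0, 0, 0, 1, 0, 0], [1, 1, 0, 0, 2, 1, 1], [1, 1, 1, 0, 1, 1, 1], [1, 1,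
  1, 1, 2, 0, 0], [1, 1, 0, 0, 2, 0, 0], [0, 0, 0, 0, 1, 1, 0], [0, 0, 0, 0, 2, 1, 1]] [[1, 0, 0,
  0, 1, 0, 0], [1, 1, 0, 0, 0, 0, 0], [1, 1, 1, 0, 1, 1, 1], [1, 1, 1, 1, 2, 0, 0], [1, 1, 0, 0,
  2, 0, 0], [0, 0, 0, 0, 1, 1, 0], [1, 1, 0, 0, 2, 1, 1]] _ _ 68758353965 68000669556 _ (by
  decide +kernel) nd242 nd284

theorem nd1176 : Ok 4 Dn4 [[1, 0, 0, 0, 1, 0, 0], [1, 1, 0, 0, 0, 0, 0], [1, 1, 1, 0, 1, 1, 1],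
  [1, 1, 1, 1, 2, 0, 0], [1, 1, 0, 0, 2, 0, 0], [0, 0, 0, 0, 1, 1, 0], [0, 0, 0, 0, 2, 1, 1]]
  131354989160697 [57, 57, 57, 105, 21, 147, 147] 68253231026 :=
  dec4 0 8 0 _ _ 131354989160953 _ [57, 57, 57, 105, 21, 147, 147] _ (by decide +kernel) nd1175

theorem nd1177 : Ok 4 Dn4 [[1, 0, 0, 0, 1, 0, 0], [1, 1, 0, 0, 0, 0, 0], [1, 1, 1, 0, 1, 1, 1],
  [1, 1, 1, 1, 2, 0, 0], [1, 1, 0, 0, 2, 0, 0], [0, 0, 0, 0, 1, 1, 0], [0, 0, 0, 0, 2, 1, 1]]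
  131354989160681 [57, 57, 57, 105, 21, 147, 147] 68253231026 :=
  dec4 0 4 0 _ _ 131354989160697 _ [57, 57, 57, 105, 21, 147, 147] _ (by decide +kernel) nd1176

theorem nd1178 : Ok 4 Dn4 [[1, 0, 0, 0, 1, 0, 0], [1, 1, 0, 0, 0, 0, 0], [1, 1, 1, 0, 1, 1, 1],
  [1, 1, 1, 1, 2, 0, 0], [1, 1, 0, 0, 2, 0, 0], [0, 0, 0, 0, 1, 1, 0], [0, 0, 0, 0, 2, 1, 1]]
  131354989160680 [57, 57, 57, 105, 21, 147, 147] 68253231026 :=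
  dec4 0 0 0 _ _ 131354989160681 _ [57, 57, 57, 105, 21, 147, 147] _ (by decide +kernel) nd1177

theorem nd1179 : Ok 4 Dn4 [[1, 0, 0, 0, 1, 0, 0], [1, 1, 0, 0, 0, 0, 0], [1, 1, 1, 0, 1, 1, 1],
  [1, 1, 1, 1, 2, 0, 0], [0, 0, 0, 0, 1, 0, 0], [0, 0, 0, 0, 1, 1, 0], [0, 0, 0, 0, 2, 1, 1]]
  131354989160680 [57, 57, 57, 105, 21, 147, 147] 49517975230 :=
  cut4 1 4 1 2 1 _ [[1, 0, 0, 0, 1, 0, 0], [1, 1, 0, 0, 2, 0, 0], [1, 1, 1, 0, 1, 1, 1], [1, 1,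
  1, 1, 2, 0, 0], [0, 0, 0, 0, 1, 0, 0], [0, 0, 0, 0, 1, 1, 0], [0, 0, 0, 0, 2, 1, 1]] [[1, 0, 0,
  0, 1, 0, 0], [1, 1, 0, 0, 0, 0, 0], [1, 1, 1, 0, 1, 1, 1], [1, 1, 1, 1, 2, 0, 0], [1, 1, 0, 0,
  2, 0, 0], [0, 0, 0, 0, 1, 1, 0], [0, 0, 0, 0, 2, 1, 1]] _ _ 30782719434 68253231026 _ (by
  decide +kernel) nd196 nd1178

theorem nd1180 : Ok 4 Dn4 [[1, 0, 0, 0, 1, 0, 0], [1, 1, 0, 0, 0, 0, 0], [1, 1, 1, 0, 1, 1, 1],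
  [1, 1, 1, 1, 2, 0, 0], [0, 0, 0, 0, 1, 0, 0], [0, 0, 0, 0, 1, 1, 0], [0, 0, 0, 0, 2, 1, 1]]
  60986244983016 [57, 57, 57, 105, 21, 147, 147] 49517975230 :=
  dec4 2 14 0 _ _ 131354989160680 _ [57, 57, 57, 105, 21, 147, 147] _ (by decide +kernel) nd1179

theorem nd1181 : Ok 4 Dn4 [[1, 0, 0, 0, 1, 0, 0], [1, 1, 0, 0, 0, 0, 0], [1, 1, 1, 0, 1, 1, 1],
  [1, 1, 1, 1, 2, 0, 0], [0, 0, 0, 0, 1, 0, 0], [0, 0, 0, 0, 1, 1, 0], [0, 0, 0, 0, 2, 1, 1]]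
  25801872894184 [57, 57, 57, 105, 21, 147, 147] 49517975230 :=
  dec4 2 13 0 _ _ 60986244983016 _ [57, 57, 57, 105, 21, 147, 147] _ (by decide +kernel) nd1180

theorem nd1182 : Ok 4 Dn4 [[1, 0, 0, 0, 1, 0, 0], [1, 1, 0, 0, 0, 0, 0], [1, 1, 1, 0, 1, 1, 1],
  [1, 1, 1, 1, 2, 0, 0], [0, 0, 0, 0, 1, 0, 0], [0, 0, 0, 0, 1, 1, 0], [0, 0, 0, 0, 2, 1, 1]]
  25800799152360 [57, 57, 57, 105, 21, 147, 147] 49517975230 :=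
  dec4 1 14 0 _ _ 25801872894184 _ [57, 57, 57, 105, 21, 147, 147] _ (by decide +kernel) nd1181

theorem nd1183 : Ok 4 Dn4 [[1, 0, 0, 0, 1, 0, 0], [1, 1, 0, 0, 0, 0, 0], [1, 1, 1, 0, 1, 1, 1],
  [1, 1, 1, 1, 2, 0, 0], [0, 0, 0, 0, 1, 0, 0], [0, 0, 0, 0, 1, 1, 0], [0, 0, 0, 0, 2, 1, 1]]
  25800262281448 [57, 57, 57, 105, 21, 147, 147] 49517975230 :=
  dec4 1 13 0 _ _ 25800799152360 _ [57, 57, 57, 105, 21, 147, 147] _ (by decide +kernel) nd1182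

theorem nd1184 : Ok 4 Dn4 [[1, 0, 0, 0, 1, 0, 0], [1, 1, 0, 0, 0, 0, 0], [1, 1, 1, 0, 1, 1, 1],
  [1, 1, 1, 1, 0, 0, 0], [1, 1, 1, 1, 2, 0, 0], [0, 0, 0, 0, 1, 1, 0], [0, 0, 0, 0, 2, 1, 1]]
  25800262281725 [57, 57, 57, 105, 21, 147, 147] 610346859930 :=
  cut4 3 6 1 1 1 _ [[1, 0, 0, 0, 1, 0, 0], [1, 1, 0, 0, 0, 0, 0], [1, 1, 1, 0, 1, 1, 1], [1, 1,
  1, 1, 2, 1, 1], [1, 1, 1, 1, 2, 0, 0], [0, 0, 0, 0, 1, 1, 0], [0, 0, 0, 0, 2, 1, 1]] [[1, 0, 0,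
  0, 1, 0, 0], [1, 1, 0, 0, 0, 0, 0], [1, 1, 1, 0, 1, 1, 1], [1, 1, 1, 1, 0, 0, 0], [1, 1, 1, 1,
  2, 0, 0], [0, 0, 0, 0, 1, 1, 0], [1, 1, 1, 1, 2, 1, 1]] _ _ 428723951486 791969768374 _ (by
  decide +kernel) nd378 nd486

theorem nd1185 : Ok 4 Dn4 [[1, 0, 0, 0, 1, 0, 0], [1, 1, 0, 0, 0, 0, 0], [1, 1, 1, 0, 1, 1, 1],
  [1, 1, 1, 1, 0, 0, 0], [1, 1, 1, 1, 2, 0, 0], [0, 0, 0, 0, 1, 1, 0], [0, 0, 0, 0, 2, 1, 1]]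
  25800262281469 [57, 57, 57, 105, 21, 147, 147] 610346859930 :=
  dec4 0 8 0 _ _ 25800262281725 _ [57, 57, 57, 105, 21, 147, 147] _ (by decide +kernel) nd1184

theorem nd1186 : Ok 4 Dn4 [[1, 0, 0, 0, 1, 0, 0], [1, 1, 0, 0, 0, 0, 0], [1, 1, 1, 0, 1, 1, 1],
  [1, 1, 1, 1, 0, 0, 0], [1, 1, 1, 1, 2, 0, 0], [0, 0, 0, 0, 1, 1, 0], [0, 0, 0, 0, 2, 1, 1]]
  25800262281453 [57, 57, 57, 105, 21, 147, 147] 610346859930 :=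
  dec4 0 4 0 _ _ 25800262281469 _ [57, 57, 57, 105, 21, 147, 147] _ (by decide +kernel) nd1185

theorem nd1187 : Ok 4 Dn4 [[1, 0, 0, 0, 1, 0, 0], [1, 1, 0, 0, 0, 0, 0], [1, 1, 1, 0, 1, 1, 1],
  [1, 1, 1, 1, 0, 0, 0], [1, 1, 1, 1, 2, 0, 0], [0, 0, 0, 0, 1, 1, 0], [0, 0, 0, 0, 2, 1, 1]]
  25800262281449 [57, 57, 57, 105, 21, 147, 147] 610346859930 :=
  dec4 0 2 0 _ _ 25800262281453 _ [57, 57, 57, 105, 21, 147, 147] _ (by decide +kernel) nd1186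

theorem nd1188 : Ok 4 Dn4 [[1, 0, 0, 0, 1, 0, 0], [1, 1, 0, 0, 0, 0, 0], [1, 1, 1, 0, 1, 1, 1],
  [1, 1, 1, 1, 0, 0, 0], [1, 1, 1, 1, 2, 0, 0], [0, 0, 0, 0, 1, 1, 0], [0, 0, 0, 0, 2, 1, 1]]
  25800262281448 [57, 57, 57, 105, 21, 147, 147] 610346859930 :=
  dec4 0 0 0 _ _ 25800262281449 _ [57, 57, 57, 105, 21, 147, 147] _ (by decide +kernel) nd1187

theorem nd1189 : Ok 4 Dn4 [[1, 0, 0, 0, 1, 0, 0], [1, 1, 0, 0, 0, 0, 0], [1, 1, 1, 0, 1, 1, 1],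
  [1, 1, 1, 1, 0, 0, 0], [0, 0, 0, 0, 1, 0, 0], [0, 0, 0, 0, 1, 1, 0], [0, 0, 0, 0, 2, 1, 1]]
  25800262281448 [57, 57, 57, 105, 21, 147, 147] 236460936797 :=
  cut4 3 4 1 2 1 _ [[1, 0, 0, 0, 1, 0, 0], [1, 1, 0, 0, 0, 0, 0], [1, 1, 1, 0, 1, 1, 1], [1, 1,
  1, 1, 2, 0, 0], [0, 0, 0, 0, 1, 0, 0], [0, 0, 0, 0, 1, 1, 0], [0, 0, 0, 0, 2, 1, 1]] [[1, 0, 0,
  0, 1, 0, 0], [1, 1, 0, 0, 0, 0, 0], [1, 1, 1, 0, 1, 1, 1], [1, 1, 1, 1, 0, 0, 0], [1, 1, 1, 1,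
  2, 0, 0], [0, 0, 0, 0, 1, 1, 0], [0, 0, 0, 0, 2, 1, 1]] _ _ 49517975230 610346859930 _ (by
  decide +kernel) nd1183 nd1188

theorem nd1190 : Ok 4 Dn4 [[1, 0, 0, 0, 1, 0, 0], [1, 1, 0, 0, 0, 0, 0], [1, 1, 1, 0, 1, 1, 1],
  [1, 1, 1, 1, 0, 0, 0], [0, 0, 0, 0, 1, 0, 0], [0, 0, 0, 0, 1, 1, 0], [0, 0, 0, 0, 2, 1, 1]]
  25800262248680 [56, 56, 56, 104, 20, 140, 140] 236460936797 :=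
  dec4 0 15 1 _ _ 25800262281448 _ [57, 57, 57, 105, 21, 147, 147] _ (by decide +kernel) nd1189

theorem nd1191 : Ok 4 Dn4 [[1, 0, 0, 0, 1, 0, 0], [1, 1, 0, 0, 0, 0, 0], [1, 1, 1, 0, 1, 1, 1],
  [1, 1, 1, 1, 0, 0, 0], [0, 0, 0, 0, 1, 0, 0], [0, 0, 0, 0, 1, 1, 0], [0, 0, 0, 0, 2, 1, 1]]
  25800262232296 [42, 54, 54, 102, 18, 126, 126] 236460936797 :=
  dec4 0 14 1 _ _ 25800262248680 _ [56, 56, 56, 104, 20, 140, 140] _ (by decide +kernel) nd1190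

theorem nd1192 : Ok 4 Dn4 [[1, 0, 0, 0, 1, 0, 0], [1, 1, 0, 0, 0, 0, 0], [1, 1, 1, 0, 1, 1, 1],
  [1, 1, 1, 1, 0, 0, 0], [0, 0, 0, 0, 1, 0, 0], [0, 0, 0, 0, 1, 1, 0], [0, 0, 0, 0, 2, 1, 1]]
  25800262224104 [40, 40, 52, 100, 16, 112, 112] 236460936797 :=
  dec4 0 13 1 _ _ 25800262232296 _ [42, 54, 54, 102, 18, 126, 126] _ (by decide +kernel) nd1191

theorem nd1193 : Ok 4 Dn4 [[1, 0, 0, 0, 1, 0, 0], [1, 1, 0, 0, 0, 0, 0], [1, 1, 1, 0, 1, 1, 1],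
  [1, 1, 1, 1, 0, 0, 0], [0, 0, 0, 0, 1, 0, 0], [0, 0, 0, 0, 1, 1, 0], [0, 0, 0, 0, 2, 1, 1]]
  25800262222056 [38, 38, 38, 98, 14, 98, 98] 236460936797 :=
  dec4 0 11 1 _ _ 25800262224104 _ [40, 40, 52, 100, 16, 112, 112] _ (by decide +kernel) nd1192

theorem nd1194 : Ok 4 Dn4 [[1, 0, 0, 0, 1, 0, 0], [1, 1, 0, 0, 0, 0, 0], [1, 1, 1, 0, 1, 1, 1],
  [1, 1, 1, 1, 0, 0, 0], [0, 0, 0, 0, 1, 0, 0], [0, 0, 0, 0, 1, 1, 0], [0, 0, 0, 0, 2, 1, 1]]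
  25800262221928 [36, 36, 36, 84, 12, 84, 84] 236460936797 :=
  dec4 0 7 1 _ _ 25800262222056 _ [38, 38, 38, 98, 14, 98, 98] _ (by decide +kernel) nd1193

theorem nd1195 : Ok 4 Dn4 [[1, 0, 0, 0, 1, 0, 0], [1, 1, 0, 0, 0, 0, 0], [1, 1, 1, 0, 1, 1, 1],
  [1, 1, 1, 1, 0, 0, 0], [0, 0, 0, 0, 1, 0, 0], [0, 0, 0, 0, 1, 1, 0], [0, 0, 0, 0, 2, 1, 1]]
  25800262221864 [8, 32, 32, 56, 8, 56, 56] 236460936797 :=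
  dec4 0 6 1 _ _ 25800262221928 _ [36, 36, 36, 84, 12, 84, 84] _ (by decide +kernel) nd1194

theorem nd1196 : Ok 4 Dn4 [[1, 0, 0, 0, 1, 0, 0], [1, 1, 0, 0, 0, 0, 0], [1, 1, 1, 0, 1, 1, 1],
  [1, 1, 1, 1, 0, 0, 0], [0, 0, 0, 0, 1, 0, 0], [0, 0, 0, 0, 1, 1, 0], [0, 0, 0, 0, 2, 1, 1]]
  25800262221832 [4, 4, 28, 28, 4, 28, 28] 236460936797 :=
  dec4 0 5 1 _ _ 25800262221864 _ [8, 32, 32, 56, 8, 56, 56] _ (by decide +kernel) nd1195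

theorem nd1197 : Ok 4 Dn4 [[1, 0, 0, 0, 1, 0, 0], [1, 1, 0, 0, 0, 0, 0], [1, 1, 1, 0, 1, 1, 1],
  [1, 1, 1, 1, 0, 0, 0], [0, 0, 0, 0, 1, 0, 0], [0, 0, 0, 0, 1, 1, 0], [0, 0, 0, 0, 2, 1, 1]]
  25800262221824 [0, 0, 0, 0, 0, 0, 0] 236460936797 :=
  dec4 0 3 1 _ _ 25800262221832 _ [4, 4, 28, 28, 4, 28, 28] _ (by decide +kernel) nd1196

theorem nd1198 : Ok 4 Dn4 [[1, 0, 0, 0, 1, 0, 0], [1, 1, 0, 0, 0, 0, 0], [1, 1, 1, 0, 1, 1, 1],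
  [1, 1, 1, 1, 0, 0, 0], [0, 0, 0, 0, 1, 0, 0], [0, 0, 0, 0, 1, 1, 0], [0, 0, 0, 0, 1, 1, 1]]
  25800262221824 [0, 0, 0, 0, 0, 0, 0] 564966577126 :=
  cut4 4 6 1 1 1 _ [[1, 0, 0, 0, 1, 0, 0], [1, 1, 0, 0, 0, 0, 0], [1, 1, 1, 0, 1, 1, 1], [1, 1,
  1, 1, 0, 0, 0], [0, 0, 0, 0, 2, 1, 1], [0, 0, 0, 0, 1, 1, 0], [0, 0, 0, 0, 1, 1, 1]] [[1, 0, 0,
  0, 1, 0, 0], [1, 1, 0, 0, 0, 0, 0], [1, 1, 1, 0, 1, 1, 1], [1, 1, 1, 1, 0, 0, 0], [0, 0, 0, 0,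
  1, 0, 0], [0, 0, 0, 0, 1, 1, 0], [0, 0, 0, 0, 2, 1, 1]] _ _ 1550483498111 236460936797 _ (by
  decide +kernel) nd1174 nd1197

theorem nd1199 : Ok 4 Dn4 [[1, 0, 0, 0, 1, 0, 0], [1, 1, 0, 0, 0, 0, 0], [1, 1, 1, 0, 1, 1, 1],
  [1, 1, 1, 1, 0, 0, 0], [0, 0, 0, 0, 1, 0, 0], [0, 0, 0, 0, 1, 1, 0], [0, 0, 0, 0, 1, 1, 1]]
  25525384314880 [0, 0, 0, 0, 0, 0, 0] 564966577126 :=
  dec4 2 6 0 _ _ 25800262221824 _ [0, 0, 0, 0, 0, 0, 0] _ (by decide +kernel) nd1198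

theorem nd1200 : Ok 4 Dn4 [[1, 0, 0, 0, 1, 0, 0], [1, 1, 0, 0, 0, 0, 0], [1, 1, 1, 0, 1, 1, 1],
  [1, 1, 1, 1, 0, 0, 0], [0, 0, 0, 0, 1, 0, 0], [0, 0, 0, 0, 1, 1, 0], [0, 0, 0, 0, 1, 1, 1]]
  25387945361408 [0, 0, 0, 0, 0, 0, 0] 564966577126 :=
  dec4 2 5 0 _ _ 25525384314880 _ [0, 0, 0, 0, 0, 0, 0] _ (by decide +kernel) nd1199

theorem nd1201 : Ok 4 Dn4 [[1, 0, 0, 0, 1, 0, 0], [1, 1, 0, 0, 0, 0, 0], [1, 1, 1, 0, 1, 1, 1],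
  [1, 1, 1, 1, 0, 0, 0], [0, 0, 0, 0, 1, 0, 0], [0, 0, 0, 0, 1, 1, 0], [0, 0, 0, 0, 1, 1, 1]]
  25387941167104 [0, 0, 0, 0, 0, 0, 0] 564966577126 :=
  dec4 1 6 0 _ _ 25387945361408 _ [0, 0, 0, 0, 0, 0, 0] _ (by decide +kernel) nd1200

theorem nd1202 : Ok 4 Dn4 [[1, 0, 0, 0, 1, 0, 0], [1, 1, 0, 0, 0, 0, 0], [1, 1, 1, 0, 1, 1, 1],
  [1, 1, 1, 1, 0, 0, 0], [0, 0, 0, 0, 1, 0, 0], [0, 0, 0, 0, 1, 1, 0], [0, 0, 0, 0, 1, 1, 1]]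
  25387939069952 [0, 0, 0, 0, 0, 0, 0] 564966577126 :=
  dec4 1 5 0 _ _ 25387941167104 _ [0, 0, 0, 0, 0, 0, 0] _ (by decide +kernel) nd1201

theorem nd1203 : Ok 4 Dn4 [[1, 0, 0, 0, 1, 0, 0], [1, 1, 0, 0, 0, 0, 0], [1, 1, 1, 0, 0, 0, 0],
  [1, 1, 1, 1, 0, 0, 0], [0, 0, 0, 0, 1, 0, 0], [0, 0, 0, 0, 1, 1, 0], [1, 1, 1, 0, 1, 1, 1]]
  25387939129576 [57, 57, 57, 105, 21, 147, 147] 188719074036 :=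
  cut4 2 4 1 1 1 _ [[1, 0, 0, 0, 1, 0, 0], [1, 1, 0, 0, 0, 0, 0], [1, 1, 1, 0, 1, 0, 0], [1, 1,
  1, 1, 0, 0, 0], [0, 0, 0, 0, 1, 0, 0], [0, 0, 0, 0, 1, 1, 0], [1, 1, 1, 0, 1, 1, 1]] [[1, 0, 0,
  0, 1, 0, 0], [1, 1, 0, 0, 0, 0, 0], [1, 1, 1, 0, 0, 0, 0], [1, 1, 1, 1, 0, 0, 0], [1, 1, 1, 0,
  1, 0, 0], [0, 0, 0, 0, 1, 1, 0], [1, 1, 1, 0, 1, 1, 1]] _ _ 204604883505 141061645626 _ (by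
  decide +kernel) nd645 nd692

theorem nd1204 : Ok 4 Dn4 [[1, 0, 0, 0, 1, 0, 0], [1, 1, 0, 0, 0, 0, 0], [1, 1, 1, 0, 0, 0, 0],
  [1, 1, 1, 1, 0, 0, 0], [0, 0, 0, 0, 1, 0, 0], [0, 0, 0, 0, 1, 1, 0], [1, 1, 1, 0, 1, 1, 1]]
  25387939096808 [56, 56, 56, 104, 20, 140, 140] 188719074036 :=
  dec4 0 15 1 _ _ 25387939129576 _ [57, 57, 57, 105, 21, 147, 147] _ (by decide +kernel) nd1203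

theorem nd1205 : Ok 4 Dn4 [[1, 0, 0, 0, 1, 0, 0], [1, 1, 0, 0, 0, 0, 0], [1, 1, 1, 0, 0, 0, 0],
  [1, 1, 1, 1, 0, 0, 0], [0, 0, 0, 0, 1, 0, 0], [0, 0, 0, 0, 1, 1, 0], [1, 1, 1, 0, 1, 1, 1]]
  25387939080424 [42, 54, 54, 102, 18, 126, 126] 188719074036 :=
  dec4 0 14 1 _ _ 25387939096808 _ [56, 56, 56, 104, 20, 140, 140] _ (by decide +kernel) nd1204

theorem nd1206 : Ok 4 Dn4 [[1, 0, 0, 0, 1, 0, 0], [1, 1, 0, 0, 0, 0, 0], [1, 1, 1, 0, 0, 0, 0],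
  [1, 1, 1, 1, 0, 0, 0], [0, 0, 0, 0, 1, 0, 0], [0, 0, 0, 0, 1, 1, 0], [1, 1, 1, 0, 1, 1, 1]]
  25387939072232 [40, 40, 52, 100, 16, 112, 112] 188719074036 :=
  dec4 0 13 1 _ _ 25387939080424 _ [42, 54, 54, 102, 18, 126, 126] _ (by decide +kernel) nd1205

theorem nd1207 : Ok 4 Dn4 [[1, 0, 0, 0, 1, 0, 0], [1, 1, 0, 0, 0, 0, 0], [1, 1, 1, 0, 0, 0, 0],
  [1, 1, 1, 1, 0, 0, 0], [0, 0, 0, 0, 1, 0, 0], [0, 0, 0, 0, 1, 1, 0], [1, 1, 1, 0, 1, 1, 1]]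
  25387939070184 [38, 38, 38, 98, 14, 98, 98] 188719074036 :=
  dec4 0 11 1 _ _ 25387939072232 _ [40, 40, 52, 100, 16, 112, 112] _ (by decide +kernel) nd1206

theorem nd1208 : Ok 4 Dn4 [[1, 0, 0, 0, 1, 0, 0], [1, 1, 0, 0, 0, 0, 0], [1, 1, 1, 0, 0, 0, 0],
  [1, 1, 1, 1, 0, 0, 0], [0, 0, 0, 0, 1, 0, 0], [0, 0, 0, 0, 1, 1, 0], [1, 1, 1, 0, 1, 1, 1]]
  25387939070056 [36, 36, 36, 84, 12, 84, 84] 188719074036 :=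
  dec4 0 7 1 _ _ 25387939070184 _ [38, 38, 38, 98, 14, 98, 98] _ (by decide +kernel) nd1207

theorem nd1209 : Ok 4 Dn4 [[1, 0, 0, 0, 1, 0, 0], [1, 1, 0, 0, 0, 0, 0], [1, 1, 1, 0, 0, 0, 0],
  [1, 1, 1, 1, 0, 0, 0], [0, 0, 0, 0, 1, 0, 0], [0, 0, 0, 0, 1, 1, 0], [1, 1, 1, 0, 1, 1, 1]]
  25387939069992 [8, 32, 32, 56, 8, 56, 56] 188719074036 :=
  dec4 0 6 1 _ _ 25387939070056 _ [36, 36, 36, 84, 12, 84, 84] _ (by decide +kernel) nd1208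

theorem nd1210 : Ok 4 Dn4 [[1, 0, 0, 0, 1, 0, 0], [1, 1, 0, 0, 0, 0, 0], [1, 1, 1, 0, 0, 0, 0],
  [1, 1, 1, 1, 0, 0, 0], [0, 0, 0, 0, 1, 0, 0], [0, 0, 0, 0, 1, 1, 0], [1, 1, 1, 0, 1, 1, 1]]
  25387939069960 [4, 4, 28, 28, 4, 28, 28] 188719074036 :=
  dec4 0 5 1 _ _ 25387939069992 _ [8, 32, 32, 56, 8, 56, 56] _ (by decide +kernel) nd1209

theorem nd1211 : Ok 4 Dn4 [[1, 0, 0, 0, 1, 0, 0], [1, 1, 0, 0, 0, 0, 0], [1, 1, 1, 0, 0, 0, 0],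
  [1, 1, 1, 1, 0, 0, 0], [0, 0, 0, 0, 1, 0, 0], [0, 0, 0, 0, 1, 1, 0], [1, 1, 1, 0, 1, 1, 1]]
  25387939069952 [0, 0, 0, 0, 0, 0, 0] 188719074036 :=
  dec4 0 3 1 _ _ 25387939069960 _ [4, 4, 28, 28, 4, 28, 28] _ (by decide +kernel) nd1210

theorem nd1212 : Ok 4 Dn4 [[1, 0, 0, 0, 1, 0, 0], [1, 1, 0, 0, 0, 0, 0], [1, 1, 1, 0, 0, 0, 0],
  [1, 1, 1, 1, 0, 0, 0], [0, 0, 0, 0, 1, 0, 0], [0, 0, 0, 0, 1, 1, 0], [0, 0, 0, 0, 1, 1, 1]]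
  25387939069952 [0, 0, 0, 0, 0, 0, 0] 376842825581 :=
  cut4 2 6 1 1 1 _ [[1, 0, 0, 0, 1, 0, 0], [1, 1, 0, 0, 0, 0, 0], [1, 1, 1, 0, 1, 1, 1], [1, 1,
  1, 1, 0, 0, 0], [0, 0, 0, 0, 1, 0, 0], [0, 0, 0, 0, 1, 1, 0], [0, 0, 0, 0, 1, 1, 1]] [[1, 0, 0,
  0, 1, 0, 0], [1, 1, 0, 0, 0, 0, 0], [1, 1, 1, 0, 0, 0, 0], [1, 1, 1, 1, 0, 0, 0], [0, 0, 0, 0,
  1, 0, 0], [0, 0, 0, 0, 1, 1, 0], [1, 1, 1, 0, 1, 1, 1]] _ _ 564966577126 188719074036 _ (by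
  decide +kernel) nd1202 nd1211

theorem nd1213 : Ok 4 Dn4 [[1, 0, 0, 0, 1, 0, 0], [1, 1, 0, 0, 0, 0, 0], [1, 1, 1, 0, 0, 0, 0],
  [1, 1, 1, 1, 0, 0, 0], [0, 0, 0, 0, 1, 0, 0], [0, 0, 0, 0, 1, 1, 0], [0, 0, 0, 0, 1, 1, 1]]
  23188915814400 [0, 0, 0, 0, 0, 0, 0] 376842825581 :=
  dec4 2 9 0 _ _ 25387939069952 _ [0, 0, 0, 0, 0, 0, 0] _ (by decide +kernel) nd1212

theorem nd1214 : Ok 4 Dn4 [[1, 0, 0, 0, 1, 0, 0], [1, 1, 0, 0, 0, 0, 0], [1, 1, 1, 0, 0, 0, 0],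
  [1, 1, 1, 1, 0, 0, 0], [0, 0, 0, 0, 1, 0, 0], [0, 0, 0, 0, 1, 1, 0], [0, 0, 0, 0, 1, 1, 1]]
  23180325879808 [0, 0, 0, 0, 0, 0, 0] 376842825581 :=
  dec4 2 1 0 _ _ 23188915814400 _ [0, 0, 0, 0, 0, 0, 0] _ (by decide +kernel) nd1213

theorem nd1215 : Ok 4 Dn4 [[1, 0, 0, 0, 1, 0, 0], [1, 1, 0, 0, 0, 0, 0], [1, 1, 1, 0, 0, 0, 0],
  [1, 1, 1, 1, 0, 0, 0], [0, 0, 0, 0, 1, 0, 0], [0, 0, 0, 0, 1, 1, 0], [0, 0, 0, 0, 1, 1, 1]]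
  23180292325376 [0, 0, 0, 0, 0, 0, 0] 376842825581 :=
  dec4 1 9 0 _ _ 23180325879808 _ [0, 0, 0, 0, 0, 0, 0] _ (by decide +kernel) nd1214

theorem nd1216 : Ok 4 Dn4 [[1, 0, 0, 0, 1, 0, 0], [1, 1, 0, 0, 0, 0, 0], [1, 1, 1, 0, 0, 0, 0],
  [1, 1, 1, 1, 0, 0, 0], [0, 0, 0, 0, 1, 0, 0], [0, 0, 0, 0, 1, 1, 0], [0, 0, 0, 0, 1, 1, 1]]
  23180292194304 [0, 0, 0, 0, 0, 0, 0] 376842825581 :=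
  dec4 1 1 0 _ _ 23180292325376 _ [0, 0, 0, 0, 0, 0, 0] _ (by decide +kernel) nd1215

theorem nd1217 : Ok 4 Dn4 [[1, 0, 0, 0, 1, 1, 1], [1, 1, 0, 0, 0, 0, 0], [1, 1, 1, 0, 1, 1, 1],
  [1, 1, 1, 1, 0, 0, 0], [1, 0, 0, 0, 1, 0, 0], [0, 0, 0, 0, 1, 1, 0], [0, 0, 0, 0, 1, 1, 1]]
  25800262227285 [0, 0, 0, 0, 0, 0, 0] 1422823717082 :=
  cut4 3 6 1 2 1 _ [[1, 0, 0, 0, 1, 1, 1], [1, 1, 0, 0, 0, 0, 0], [1, 1, 1, 0, 1, 1, 1], [1, 1,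
  1, 1, 2, 2, 2], [1, 0, 0, 0, 1, 0, 0], [0, 0, 0, 0, 1, 1, 0], [0, 0, 0, 0, 1, 1, 1]] [[1, 0, 0,
  0, 1, 1, 1], [1, 1, 0, 0, 0, 0, 0], [1, 1, 1, 0, 1, 1, 1], [1, 1, 1, 1, 0, 0, 0], [1, 0, 0, 0,
  1, 0, 0], [0, 0, 0, 0, 1, 1, 0], [1, 1, 1, 1, 2, 2, 2]] _ _ 568762507029 1992197857116 _ (by
  decide +kernel) nd705 nd822

theorem nd1218 : Ok 4 Dn4 [[1, 0, 0, 0, 1, 1, 1], [1, 1, 0, 0, 0, 0, 0], [1, 1, 1, 0, 1, 1, 1],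
  [1, 1, 1, 1, 0, 0, 0], [1, 0, 0, 0, 1, 0, 0], [0, 0, 0, 0, 1, 1, 0], [0, 0, 0, 0, 1, 1, 1]]
  25525384320341 [0, 0, 0, 0, 0, 0, 0] 1422823717082 :=
  dec4 2 6 0 _ _ 25800262227285 _ [0, 0, 0, 0, 0, 0, 0] _ (by decide +kernel) nd1217

theorem nd1219 : Ok 4 Dn4 [[1, 0, 0, 0, 1, 1, 1], [1, 1, 0, 0, 0, 0, 0], [1, 1, 1, 0, 1, 1, 1],
  [1, 1, 1, 1, 0, 0, 0], [1, 0, 0, 0, 1, 0, 0], [0, 0, 0, 0, 1, 1, 0], [0, 0, 0, 0, 1, 1, 1]]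
  25387945366869 [0, 0, 0, 0, 0, 0, 0] 1422823717082 :=
  dec4 2 5 0 _ _ 25525384320341 _ [0, 0, 0, 0, 0, 0, 0] _ (by decide +kernel) nd1218

theorem nd1220 : Ok 4 Dn4 [[1, 0, 0, 0, 1, 1, 1], [1, 1, 0, 0, 0, 0, 0], [1, 1, 1, 0, 1, 1, 1],
  [1, 1, 1, 1, 0, 0, 0], [1, 0, 0, 0, 1, 0, 0], [0, 0, 0, 0, 1, 1, 0], [0, 0, 0, 0, 1, 1, 1]]
  25387941172565 [0, 0, 0, 0, 0, 0, 0] 1422823717082 :=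
  dec4 1 6 0 _ _ 25387945366869 _ [0, 0, 0, 0, 0, 0, 0] _ (by decide +kernel) nd1219

theorem nd1221 : Ok 4 Dn4 [[1, 0, 0, 0, 1, 1, 1], [1, 1, 0, 0, 0, 0, 0], [1, 1, 1, 0, 1, 1, 1],
  [1, 1, 1, 1, 0, 0, 0], [1, 0, 0, 0, 1, 0, 0], [0, 0, 0, 0, 1, 1, 0], [0, 0, 0, 0, 1, 1, 1]]
  25387939075413 [0, 0, 0, 0, 0, 0, 0] 1422823717082 :=
  dec4 1 5 0 _ _ 25387941172565 _ [0, 0, 0, 0, 0, 0, 0] _ (by decide +kernel) nd1220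

theorem nd1222 : Ok 4 Dn4 [[1, 0, 0, 0, 1, 1, 1], [1, 1, 0, 0, 0, 0, 0], [1, 1, 1, 0, 1, 1, 1],
  [1, 1, 1, 1, 0, 0, 0], [1, 0, 0, 0, 1, 0, 0], [0, 0, 0, 0, 1, 1, 0], [0, 0, 0, 0, 1, 1, 1]]
  25387939075349 [0, 0, 0, 0, 0, 0, 0] 1422823717082 :=
  dec4 0 6 0 _ _ 25387939075413 _ [0, 0, 0, 0, 0, 0, 0] _ (by decide +kernel) nd1221

theorem nd1223 : Ok 4 Dn4 [[1, 0, 0, 0, 1, 1, 1], [1, 1, 0, 0, 0, 0, 0], [1, 1, 1, 0, 0, 0, 0],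
  [1, 1, 1, 1, 0, 0, 0], [1, 0, 0, 0, 1, 0, 0], [0, 0, 0, 0, 1, 1, 0], [0, 0, 0, 0, 1, 1, 1]]
  25387939075349 [0, 0, 0, 0, 0, 0, 0] 850243764717 :=
  cut4 2 6 1 1 1 _ [[1, 0, 0, 0, 1, 1, 1], [1, 1, 0, 0, 0, 0, 0], [1, 1, 1, 0, 1, 1, 1], [1, 1,
  1, 1, 0, 0, 0], [1, 0, 0, 0, 1, 0, 0], [0, 0, 0, 0, 1, 1, 0], [0, 0, 0, 0, 1, 1, 1]] [[1, 0, 0,
  0, 1, 1, 1], [1, 1, 0, 0, 0, 0, 0], [1, 1, 1, 0, 0, 0, 0], [1, 1, 1, 1, 0, 0, 0], [1, 0, 0, 0,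
  1, 0, 0], [0, 0, 0, 0, 1, 1, 0], [1, 1, 1, 0, 1, 1, 1]] _ _ 1422823717082 277663812352 _ (by
  decide +kernel) nd1222 nd963

theorem nd1224 : Ok 4 Dn4 [[1, 0, 0, 0, 1, 1, 1], [1, 1, 0, 0, 0, 0, 0], [1, 1, 1, 0, 0, 0, 0],
  [1, 1, 1, 1, 0, 0, 0], [1, 0, 0, 0, 1, 0, 0], [0, 0, 0, 0, 1, 1, 0], [0, 0, 0, 0, 1, 1, 1]]
  23188915819797 [0, 0, 0, 0, 0, 0, 0] 850243764717 :=
  dec4 2 9 0 _ _ 25387939075349 _ [0, 0, 0, 0, 0, 0, 0] _ (by decide +kernel) nd1223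

theorem nd1225 : Ok 4 Dn4 [[1, 0, 0, 0, 1, 1, 1], [1, 1, 0, 0, 0, 0, 0], [1, 1, 1, 0, 0, 0, 0],
  [1, 1, 1, 1, 0, 0, 0], [1, 0, 0, 0, 1, 0, 0], [0, 0, 0, 0, 1, 1, 0], [0, 0, 0, 0, 1, 1, 1]]
  23180325885205 [0, 0, 0, 0, 0, 0, 0] 850243764717 :=
  dec4 2 1 0 _ _ 23188915819797 _ [0, 0, 0, 0, 0, 0, 0] _ (by decide +kernel) nd1224

theorem nd1226 : Ok 4 Dn4 [[1, 0, 0, 0, 1, 1, 1], [1, 1, 0, 0, 0, 0, 0], [1, 1, 1, 0, 0, 0, 0],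
  [1, 1, 1, 1, 0, 0, 0], [1, 0, 0, 0, 1, 0, 0], [0, 0, 0, 0, 1, 1, 0], [0, 0, 0, 0, 1, 1, 1]]
  23180292330773 [0, 0, 0, 0, 0, 0, 0] 850243764717 :=
  dec4 1 9 0 _ _ 23180325885205 _ [0, 0, 0, 0, 0, 0, 0] _ (by decide +kernel) nd1225

theorem nd1227 : Ok 4 Dn4 [[1, 0, 0, 0, 1, 1, 1], [1, 1, 0, 0, 0, 0, 0], [1, 1, 1, 0, 0, 0, 0],
  [1, 1, 1, 1, 0, 0, 0], [1, 0, 0, 0, 1, 0, 0], [0, 0, 0, 0, 1, 1, 0], [0, 0, 0, 0, 1, 1, 1]]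
  23180292199701 [0, 0, 0, 0, 0, 0, 0] 850243764717 :=
  dec4 1 1 0 _ _ 23180292330773 _ [0, 0, 0, 0, 0, 0, 0] _ (by decide +kernel) nd1226

theorem nd1228 : Ok 4 Dn4 [[1, 0, 0, 0, 0, 0, 0], [1, 1, 0, 0, 0, 0, 0], [1, 1, 1, 0, 0, 0, 0],
  [1, 1, 1, 1, 0, 0, 0], [1, 0, 0, 0, 1, 0, 0], [0, 0, 0, 0, 1, 1, 0], [0, 0, 0, 0, 1, 1, 1]]
  23180292199701 [0, 0, 0, 0, 0, 0, 0] 545536782073 :=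
  cut4 0 6 1 1 1 _ [[1, 0, 0, 0, 1, 1, 1], [1, 1, 0, 0, 0, 0, 0], [1, 1, 1, 0, 0, 0, 0], [1, 1,
  1, 1, 0, 0, 0], [1, 0, 0, 0, 1, 0, 0], [0, 0, 0, 0, 1, 1, 0], [0, 0, 0, 0, 1, 1, 1]] [[1, 0, 0,
  0, 0, 0, 0], [1, 1, 0, 0, 0, 0, 0], [1, 1, 1, 0, 0, 0, 0], [1, 1, 1, 1, 0, 0, 0], [1, 0, 0, 0,
  1, 0, 0], [0, 0, 0, 0, 1, 1, 0], [1, 0, 0, 0, 1, 1, 1]] _ _ 850243764717 443967787858 _ (by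
  decide +kernel) nd1227 nd1160

theorem nd1229 : Ok 4 Dn4 [[1, 0, 0, 0, 0, 0, 0], [1, 1, 0, 0, 0, 0, 0], [1, 1, 1, 0, 0, 0, 0],
  [1, 1, 1, 1, 0, 0, 0], [1, 0, 0, 0, 1, 0, 0], [0, 0, 0, 0, 1, 1, 0], [0, 0, 0, 0, 1, 1, 1]]
  23180292195605 [0, 0, 0, 0, 0, 0, 0] 545536782073 :=
  dec4 0 12 0 _ _ 23180292199701 _ [0, 0, 0, 0, 0, 0, 0] _ (by decide +kernel) nd1228

theorem nd1230 : Ok 4 Dn4 [[1, 0, 0, 0, 0, 0, 0], [1, 1, 0, 0, 0, 0, 0], [1, 1, 1, 0, 0, 0, 0],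
  [1, 1, 1, 1, 0, 0, 0], [1, 0, 0, 0, 1, 0, 0], [0, 0, 0, 0, 1, 1, 0], [0, 0, 0, 0, 1, 1, 1]]
  23180292194581 [0, 0, 0, 0, 0, 0, 0] 545536782073 :=
  dec4 0 10 0 _ _ 23180292195605 _ [0, 0, 0, 0, 0, 0, 0] _ (by decide +kernel) nd1229

theorem nd1231 : Ok 4 Dn4 [[1, 0, 0, 0, 0, 0, 0], [1, 1, 0, 0, 0, 0, 0], [1, 1, 1, 0, 0, 0, 0],
  [1, 1, 1, 1, 0, 0, 0], [1, 0, 0, 0, 1, 0, 0], [0, 0, 0, 0, 1, 1, 0], [0, 0, 0, 0, 1, 1, 1]]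
  23180292194325 [0, 0, 0, 0, 0, 0, 0] 545536782073 :=
  dec4 0 8 0 _ _ 23180292194581 _ [0, 0, 0, 0, 0, 0, 0] _ (by decide +kernel) nd1230

theorem nd1232 : Ok 4 Dn4 [[1, 0, 0, 0, 0, 0, 0], [1, 1, 0, 0, 0, 0, 0], [1, 1, 1, 0, 0, 0, 0],
  [1, 1, 1, 1, 0, 0, 0], [1, 0, 0, 0, 1, 0, 0], [0, 0, 0, 0, 1, 1, 0], [0, 0, 0, 0, 1, 1, 1]]
  23180292194309 [0, 0, 0, 0, 0, 0, 0] 545536782073 :=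
  dec4 0 4 0 _ _ 23180292194325 _ [0, 0, 0, 0, 0, 0, 0] _ (by decide +kernel) nd1231

theorem nd1233 : Ok 4 Dn4 [[1, 0, 0, 0, 0, 0, 0], [1, 1, 0, 0, 0, 0, 0], [1, 1, 1, 0, 0, 0, 0],
  [1, 1, 1, 1, 0, 0, 0], [1, 0, 0, 0, 1, 0, 0], [0, 0, 0, 0, 1, 1, 0], [0, 0, 0, 0, 1, 1, 1]]
  23180292194305 [0, 0, 0, 0, 0, 0, 0] 545536782073 :=
  dec4 0 2 0 _ _ 23180292194309 _ [0, 0, 0, 0, 0, 0, 0] _ (by decide +kernel) nd1232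

theorem nd1234 : Ok 4 Dn4 [[1, 0, 0, 0, 0, 0, 0], [1, 1, 0, 0, 0, 0, 0], [1, 1, 1, 0, 0, 0, 0],
  [1, 1, 1, 1, 0, 0, 0], [1, 0, 0, 0, 1, 0, 0], [0, 0, 0, 0, 1, 1, 0], [0, 0, 0, 0, 1, 1, 1]]
  23180292194304 [0, 0, 0, 0, 0, 0, 0] 545536782073 :=
  dec4 0 0 0 _ _ 23180292194305 _ [0, 0, 0, 0, 0, 0, 0] _ (by decide +kernel) nd1233

theorem nd1235 : Ok 4 Dn4 [[1, 0, 0, 0, 0, 0, 0], [1, 1, 0, 0, 0, 0, 0], [1, 1, 1, 0, 0, 0, 0],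
  [1, 1, 1, 1, 0, 0, 0], [0, 0, 0, 0, 1, 0, 0], [0, 0, 0, 0, 1, 1, 0], [0, 0, 0, 0, 1, 1, 1]]
  23180292194304 [0, 0, 0, 0, 0, 0, 0] 461189803827 :=
  cut4 0 4 1 1 1 _ [[1, 0, 0, 0, 1, 0, 0], [1, 1, 0, 0, 0, 0, 0], [1, 1, 1, 0, 0, 0, 0], [1, 1,
  1, 1, 0, 0, 0], [0, 0, 0, 0, 1, 0, 0], [0, 0, 0, 0, 1, 1, 0], [0, 0, 0, 0, 1, 1, 1]] [[1, 0, 0,
  0, 0, 0, 0], [1, 1, 0, 0, 0, 0, 0], [1, 1, 1, 0, 0, 0, 0], [1, 1, 1, 1, 0, 0, 0], [1, 0, 0, 0,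
  1, 0, 0], [0, 0, 0, 0, 1, 1, 0], [0, 0, 0, 0, 1, 1, 1]] _ _ 376842825581 545536782073 _ (by
  decide +kernel) nd1216 nd1234

theorem nd1236 : Ok 4 Dn4 [[1, 0, 0, 0, 0, 0, 0], [1, 1, 0, 0, 0, 0, 0], [1, 1, 1, 0, 0, 0, 0],
  [1, 1, 1, 1, 0, 0, 0], [0, 0, 0, 0, 1, 0, 0], [0, 0, 0, 0, 1, 1, 0], [0, 0, 0, 0, 1, 1, 1]]
  5588106149888 [0, 0, 0, 0, 0, 0, 0] 461189803827 :=
  dec4 2 12 0 _ _ 23180292194304 _ [0, 0, 0, 0, 0, 0, 0] _ (by decide +kernel) nd1235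

theorem nd1237 : Ok 4 Dn4 [[1, 0, 0, 0, 0, 0, 0], [1, 1, 0, 0, 0, 0, 0], [1, 1, 1, 0, 0, 0, 0],
  [1, 1, 1, 1, 0, 0, 0], [0, 0, 0, 0, 1, 0, 0], [0, 0, 0, 0, 1, 1, 0], [0, 0, 0, 0, 1, 1, 1]]
  1190059638784 [0, 0, 0, 0, 0, 0, 0] 461189803827 :=
  dec4 2 10 0 _ _ 5588106149888 _ [0, 0, 0, 0, 0, 0, 0] _ (by decide +kernel) nd1236

theorem nd1238 : Ok 4 Dn4 [[1, 0, 0, 0, 0, 0, 0], [1, 1, 0, 0, 0, 0, 0], [1, 1, 1, 0, 0, 0, 0],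
  [1, 1, 1, 1, 0, 0, 0], [0, 0, 0, 0, 1, 0, 0], [0, 0, 0, 0, 1, 1, 0], [0, 0, 0, 0, 1, 1, 1]]
  90548011008 [0, 0, 0, 0, 0, 0, 0] 461189803827 :=
  dec4 2 8 0 _ _ 1190059638784 _ [0, 0, 0, 0, 0, 0, 0] _ (by decide +kernel) nd1237

theorem nd1239 : Ok 4 Dn4 [[1, 0, 0, 0, 0, 0, 0], [1, 1, 0, 0, 0, 0, 0], [1, 1, 1, 0, 0, 0, 0],
  [1, 1, 1, 1, 0, 0, 0], [0, 0, 0, 0, 1, 0, 0], [0, 0, 0, 0, 1, 1, 0], [0, 0, 0, 0, 1, 1, 1]]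
  21828534272 [0, 0, 0, 0, 0, 0, 0] 461189803827 :=
  dec4 2 4 0 _ _ 90548011008 _ [0, 0, 0, 0, 0, 0, 0] _ (by decide +kernel) nd1238

theorem nd1240 : Ok 4 Dn4 [[1, 0, 0, 0, 0, 0, 0], [1, 1, 0, 0, 0, 0, 0], [1, 1, 1, 0, 0, 0, 0],
  [1, 1, 1, 1, 0, 0, 0], [0, 0, 0, 0, 1, 0, 0], [0, 0, 0, 0, 1, 1, 0], [0, 0, 0, 0, 1, 1, 1]]
  4648665088 [0, 0, 0, 0, 0, 0, 0] 461189803827 :=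
  dec4 2 2 0 _ _ 21828534272 _ [0, 0, 0, 0, 0, 0, 0] _ (by decide +kernel) nd1239

theorem nd1241 : Ok 4 Dn4 [[1, 0, 0, 0, 0, 0, 0], [1, 1, 0, 0, 0, 0, 0], [1, 1, 1, 0, 0, 0, 0],
  [1, 1, 1, 1, 0, 0, 0], [0, 0, 0, 0, 1, 0, 0], [0, 0, 0, 0, 1, 1, 0], [0, 0, 0, 0, 1, 1, 1]]
  353697792 [0, 0, 0, 0, 0, 0, 0] 461189803827 :=
  dec4 2 0 0 _ _ 4648665088 _ [0, 0, 0, 0, 0, 0, 0] _ (by decide +kernel) nd1240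

theorem nd1242 : Ok 4 Dn4 [[1, 0, 0, 0, 0, 0, 0], [1, 1, 0, 0, 0, 0, 0], [1, 1, 1, 0, 0, 0, 0],
  [1, 1, 1, 1, 0, 0, 0], [0, 0, 0, 0, 1, 0, 0], [0, 0, 0, 0, 1, 1, 0], [0, 0, 0, 0, 1, 1, 1]]
  85262336 [0, 0, 0, 0, 0, 0, 0] 461189803827 :=
  dec4 1 12 0 _ _ 353697792 _ [0, 0, 0, 0, 0, 0, 0] _ (by decide +kernel) nd1241

theorem nd1243 : Ok 4 Dn4 [[1, 0, 0, 0, 0, 0, 0], [1, 1, 0, 0, 0, 0, 0], [1, 1, 1, 0, 0, 0, 0],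
  [1, 1, 1, 1, 0, 0, 0], [0, 0, 0, 0, 1, 0, 0], [0, 0, 0, 0, 1, 1, 0], [0, 0, 0, 0, 1, 1, 1]]
  18153472 [0, 0, 0, 0, 0, 0, 0] 461189803827 :=
  dec4 1 10 0 _ _ 85262336 _ [0, 0, 0, 0, 0, 0, 0] _ (by decide +kernel) nd1242

theorem nd1244 : Ok 4 Dn4 [[1, 0, 0, 0, 0, 0, 0], [1, 1, 0, 0, 0, 0, 0], [1, 1, 1, 0, 0, 0, 0],
  [1, 1, 1, 1, 0, 0, 0], [0, 0, 0, 0, 1, 0, 0], [0, 0, 0, 0, 1, 1, 0], [0, 0, 0, 0, 1, 1, 1]]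
  1376256 [0, 0, 0, 0, 0, 0, 0] 461189803827 :=
  dec4 1 8 0 _ _ 18153472 _ [0, 0, 0, 0, 0, 0, 0] _ (by decide +kernel) nd1243

theorem nd1245 : Ok 4 Dn4 [[1, 0, 0, 0, 0, 0, 0], [1, 1, 0, 0, 0, 0, 0], [1, 1, 1, 0, 0, 0, 0],
  [1, 1, 1, 1, 0, 0, 0], [0, 0, 0, 0, 1, 0, 0], [0, 0, 0, 0, 1, 1, 0], [0, 0, 0, 0, 1, 1, 1]]
  327680 [0, 0, 0, 0, 0, 0, 0] 461189803827 :=
  dec4 1 4 0 _ _ 1376256 _ [0, 0, 0, 0, 0, 0, 0] _ (by decide +kernel) nd1244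

theorem nd1246 : Ok 4 Dn4 [[1, 0, 0, 0, 0, 0, 0], [1, 1, 0, 0, 0, 0, 0], [1, 1, 1, 0, 0, 0, 0],
  [1, 1, 1, 1, 0, 0, 0], [0, 0, 0, 0, 1, 0, 0], [0, 0, 0, 0, 1, 1, 0], [0, 0, 0, 0, 1, 1, 1]]
  65536 [0, 0, 0, 0, 0, 0, 0] 461189803827 :=
  dec4 1 2 0 _ _ 327680 _ [0, 0, 0, 0, 0, 0, 0] _ (by decide +kernel) nd1245

theorem nd1247 : Ok 4 Dn4 [[1, 0, 0, 0, 0, 0, 0], [1, 1, 0, 0, 0, 0, 0], [1, 1, 1, 0, 0, 0, 0],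
  [1, 1, 1, 1, 0, 0, 0], [0, 0, 0, 0, 1, 0, 0], [0, 0, 0, 0, 1, 1, 0], [0, 0, 0, 0, 1, 1, 1]] 0
  [0, 0, 0, 0, 0, 0, 0] 461189803827 :=
  dec4 1 0 0 _ _ 65536 _ [0, 0, 0, 0, 0, 0, 0] _ (by decide +kernel) nd1246

theorem root4 : Ok 4 Dn4 (bs 4) 0 (List.replicate (4 + 3) 0) 461189803827 := nd1247

end Pool.Agent.Work.MP_122e00_nt.Sharp.Cx

end
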